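import Pool.Agent.Lib.RH.Defs
import Mathlib.Combinatorics.SimpleGraph.Tutte

/-! The base case: Tutte's theorem. -/

set_option autoImplicit false

namespace RH

open Finset Classical

namespace MG

variable {V D : Type*}

/-- the simple graph of the edges of positive weight -/
def baseS (G : MG V D) (z : D → ℝ) (hs : ∀ d ∈ G.ds, z (G.al d) = z d) :
    SimpleGraph {v // v ∈ G.vs} where
  Adj u w := u ≠ w ∧ ∃ d ∈ G.ds, 0 < z d ∧ G.pi d = u ∧ G.pi (G.al d) = w
  symm := ⟨by
    rintro u w ⟨h, d, hd, h0, h1, h2⟩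
    exact ⟨h.symm, G.al d, G.al_mem d hd, by rw [hs d hd]; exact h0, h2,
      by rw [G.al_al d hd]; exact h1⟩⟩
  loopless := ⟨fun u h => h.1 rfl⟩

/-- from a perfect matching of the simple graph to a perfect matching in darts -/
theorem base_pm (G : MG V D) (z : D → ℝ) (hs : ∀ d ∈ G.ds, z (G.al d) = z d)
    (M : (baseS G z hs).Subgraph) (hM : M.IsPerfectMatching) :
    ∃ N, G.IsPM N ∧ ∀ d ∈ N, 0 < z d := by
  rcases isEmpty_or_nonempty D with hD | hD
  · refine ⟨∅, ⟨empty_subset _, by simp, ?_⟩, by simp⟩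
    intro v hv
    obtain ⟨w, hw, -⟩ := hM.1 (hM.2 ⟨v, hv⟩)
    have ha : (baseS G z hs).Adj ⟨v, hv⟩ w := M.adj_sub hw
    obtain ⟨-, d, -⟩ := ha
    exact hD.elim d
  have hex : ∀ e ∈ M.edgeSet, ∃ d ∈ G.ds,
      0 < z d ∧ s(G.pi d, G.pi (G.al d)) = Sym2.map Subtype.val e := by
    intro e
    induction e using Sym2.ind with
    | _ u w =>
      intro he
      have ha : (baseS G z hs).Adj u w := M.adj_sub he
      obtain ⟨_, d, hd, h0, h1, h2⟩ := ha
      exact ⟨d, hd, h0, by rw [Sym2.map_mk]; simp [h1, h2]⟩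
  choose! f hf hf0 hfs using hex
  refine ⟨G.ds.filter fun d => ∃ e ∈ M.edgeSet, d = f e ∨ d = G.al (f e), ⟨?_, ?_, ?_⟩, ?_⟩
  · exact filter_subset _ _
  · intro d hd
    rw [mem_filter] at hd ⊢
    obtain ⟨hd, e, he, h⟩ := hd
    refine ⟨G.al_mem d hd, e, he, ?_⟩
    rcases h with h | h
    · exact Or.inr (by rw [h])
    · exact Or.inl (by rw [h, G.al_al _ (hf e he)])
  · intro v hv
    obtain ⟨w, hw, huw⟩ := hM.1 (hM.2 ⟨v, hv⟩)
    have he : s((⟨v, hv⟩ : {v // v ∈ G.vs}), w) ∈ M.edgeSet := hw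
    have hne : v ≠ (w : V) := by
      have ha : (baseS G z hs).Adj ⟨v, hv⟩ w := M.adj_sub hw
      intro h
      exact ha.1 (Subtype.ext h)
    have hd := hf _ he
    have hs' := hfs _ he
    rw [Sym2.map_mk] at hs'
    rw [card_eq_one]
    set e₀ : Sym2 {v // v ∈ G.vs} := s((⟨v, hv⟩ : {v // v ∈ G.vs}), w) with he0
    have key : ∃ d₀ ∈ G.ds, (d₀ = f e₀ ∨ d₀ = G.al (f e₀)) ∧ G.pi d₀ = v ∧
        ∀ d, (d = f e₀ ∨ d = G.al (f e₀)) → G.pi d = v → d = d₀ := by
      simp only [Sym2.eq_iff] at hs'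
      rcases hs' with ⟨a, b⟩ | ⟨a, b⟩
      · refine ⟨f e₀, hd, Or.inl rfl, a, ?_⟩
        rintro d (h | h) h'
        · exact h
        · exfalso; rw [h, b] at h'; exact hne h'.symm
      · refine ⟨G.al (f e₀), G.al_mem _ hd, Or.inr rfl, b, ?_⟩
        rintro d (h | h) h'
        · exfalso; rw [h, a] at h'; exact hne h'.symm
        · exact h
    obtain ⟨d₀, hd0, h0, hp0, hun⟩ := key
    refine ⟨d₀, ?_⟩
    ext d
    rw [mem_filter, mem_filter, mem_singleton]
    constructor
    · rintro ⟨⟨hd1, e, he1, h1⟩, hpv⟩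
      have h3 : s(G.pi d, G.pi (G.al d)) = Sym2.map Subtype.val e := by
        rcases h1 with h | h
        · rw [h]; exact hfs e he1
        · rw [h, G.al_al _ (hf e he1), Sym2.eq_swap]; exact hfs e he1
      have h4 : (⟨v, hv⟩ : {v // v ∈ G.vs}) ∈ e := by
        have : v ∈ Sym2.map (Subtype.val : {v // v ∈ G.vs} → V) e := by
          rw [← h3, hpv]; exact Sym2.mem_mk_left _ _
        rw [Sym2.mem_map] at this
        obtain ⟨a, ha, hav⟩ := this
        have : a = ⟨v, hv⟩ := Subtype.ext hav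
        rw [← this]; exact ha
      have h5 : e = e₀ := by
        obtain ⟨w', hw'⟩ := h4
        subst hw'
        have : w' = w := huw w' he1
        rw [this]
      rw [h5] at h1
      exact hun d h1 hpv
    · intro h
      rw [h]
      exact ⟨⟨hd0, e₀, he, h0⟩, hp0⟩
  · intro d hd
    rw [mem_filter] at hd
    obtain ⟨-, e, he, h⟩ := hd
    rcases h with h | h
    · rw [h]
      exact hf0 e he
    · rw [h, hs _ (hf e he)]
      exact hf0 e he

/-- Tutte's theorem (`SimpleGraph.tutte`) for the simple graph on `vs` in which `u` and `v` are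
adjacent iff some dart `d` with `pi d = u`, `pi (al d) = v` has `0 < z d`. If `S` is a violator then
by parity there are at least `|S| + 2` odd components, each of value at least 3, whose edges of
positive weight go to `S`: `3 (|S| + 2) <= 3 |S| + tau < 3 |S| + 6`. (See `JK.exists_pm` in
Pool/Agent/Lib/JK/Tutte.lean for the same proof with integers.) -/
theorem exists_pm (G : MG V D) (z : D → ℝ) (t : V → ℝ) (he : Even G.vs.card) (hw : G.Wt z t)
    (ht : ∑ v ∈ G.vs, t v < 6) : ∃ M, G.IsPM M ∧ ∀ d ∈ M, 0 < z d := by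
  by_contra hno
  have hnot : ¬ ∃ M : (baseS G z hw.sym).Subgraph, M.IsPerfectMatching := fun ⟨M, hM⟩ =>
    hno (base_pm G z hw.sym M hM)
  rw [SimpleGraph.tutte] at hnot
  push Not at hnot
  obtain ⟨u, hu⟩ := hnot
  unfold SimpleGraph.IsTutteViolator at hu
  set S : (baseS G z hw.sym).Subgraph := (⊤ : (baseS G z hw.sym).Subgraph).deleteVerts u with hS
  set H := S.coe with hH
  have hverts : ∀ w : {v // v ∈ G.vs}, w ∈ S.verts ↔ w ∉ u := by
    intro w
    simp [hS]
  have : Finite S.verts := Subtype.finite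
  have : Finite H.ConnectedComponent := Quot.finite _
  let : Fintype H.ConnectedComponent := Fintype.ofFinite _
  -- the set U
  set U : Finset V := G.vs.filter fun v => ∃ h : v ∈ G.vs, (⟨v, h⟩ : {v // v ∈ G.vs}) ∈ u with hU
  have hUsub : U ⊆ G.vs := filter_subset _ _
  have hUcard : U.card = u.ncard := by
    rw [← Set.ncard_coe_finset]
    have : (U : Set V) = Subtype.val '' u := by
      ext v
      simp only [hU, coe_filter, Set.mem_ofPred_eq, Set.mem_image]
      constructor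
      · rintro ⟨_, h, h'⟩; exact ⟨_, h', rfl⟩
      · rintro ⟨⟨w, hw⟩, h, rfl⟩; exact ⟨hw, hw, h⟩
    rw [this, Set.ncard_image_of_injective _ Subtype.val_injective]
  -- the components
  set Q : H.ConnectedComponent → Finset V := fun c => G.vs.filter fun v =>
    ∃ (h : v ∈ G.vs) (h' : (⟨v, h⟩ : {v // v ∈ G.vs}) ∈ S.verts),
      H.connectedComponentMk ⟨⟨v, h⟩, h'⟩ = c with hQ
  have hQsub : ∀ c, Q c ⊆ G.vs := fun c => filter_subset _ _
  have hQcard : ∀ c, (Q c).card = c.supp.ncard := by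
    intro c
    rw [← Set.ncard_coe_finset]
    have : (Q c : Set V) = (fun x : S.verts => ((x : {v // v ∈ G.vs}) : V)) '' c.supp := by
      ext v
      simp only [hQ, coe_filter, Set.mem_ofPred_eq, Set.mem_image,
        SimpleGraph.ConnectedComponent.mem_supp_iff]
      constructor
      · rintro ⟨_, h, h', h''⟩; exact ⟨_, h'', rfl⟩
      · rintro ⟨⟨⟨w, hw⟩, hw'⟩, h, rfl⟩; exact ⟨hw, hw, hw', h⟩
    rw [this, Set.ncard_image_of_injective]
    intro x y hxy
    exact Subtype.ext (Subtype.ext hxy)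
  have hQdis : ∀ c c', c ≠ c' → Disjoint (Q c) (Q c') := by
    intro c c' hcc
    rw [Finset.disjoint_left]
    intro v hv hv'
    simp only [hQ, mem_filter] at hv hv'
    obtain ⟨_, h, h1, h2⟩ := hv
    obtain ⟨_, h', h1', h2'⟩ := hv'
    exact hcc (h2.symm.trans h2')
  have hleave : ∀ c, ∀ d ∈ G.bd (Q c), 0 < z d → G.pi (G.al d) ∈ U := by
    intro c d hd hzd
    unfold bd at hd
    rw [mem_filter] at hd
    obtain ⟨hds, hp, hp'⟩ := hd
    have hpa : G.pi (G.al d) ∈ G.vs := G.pi_mem _ (G.al_mem _ hds)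
    by_contra hnU
    have hnu : (⟨G.pi (G.al d), hpa⟩ : {v // v ∈ G.vs}) ∉ u := by
      intro h
      exact hnU (by simp only [hU, mem_filter]; exact ⟨hpa, hpa, h⟩)
    have hv2 := (hverts _).mpr hnu
    simp only [hQ, mem_filter] at hp
    obtain ⟨hpv, h, h', h''⟩ := hp
    apply hp'
    simp only [hQ, mem_filter]
    refine ⟨hpa, hpa, hv2, ?_⟩
    rw [← h'']
    apply SimpleGraph.ConnectedComponent.sound
    apply SimpleGraph.Adj.reachable
    have hadj : (baseS G z hw.sym).Adj ⟨G.pi (G.al d), hpa⟩ ⟨G.pi d, h⟩ := by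
      refine ⟨fun h => G.noloop d hds (congrArg Subtype.val h), G.al d, G.al_mem _ hds, ?_, rfl,
        ?_⟩
      · rw [hw.sym d hds]
        exact hzd
      · rw [G.al_al _ hds]
    change S.Adj _ _
    exact (SimpleGraph.Subgraph.deleteVerts_adj (G' := (⊤ : (baseS G z hw.sym).Subgraph))
      (s := u)).mpr ⟨Set.mem_univ _, (hverts _).mp hv2, Set.mem_univ _, (hverts _).mp h', hadj⟩
  set OC : Finset H.ConnectedComponent := univ.filter fun c => c ∈ H.oddComponents with hOC
  have hOCcard : OC.card = H.oddComponents.ncard := by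
    rw [← Set.ncard_coe_finset]
    congr 1
    ext c
    simp [hOC]
  have hodd : ∀ c ∈ OC, Odd (Q c).card := by
    intro c hc
    rw [hQcard]
    have : c ∈ H.oddComponents := (mem_filter.mp hc).2
    exact this
  have hlow : 3 * (OC.card : ℝ) ≤ ∑ c ∈ OC, G.val z t (Q c) := by
    have h1 : ∑ _c ∈ OC, (3 : ℝ) ≤ ∑ c ∈ OC, G.val z t (Q c) :=
      sum_le_sum fun c hc => hw.cut _ (hQsub c) (hodd c hc)
    rwa [sum_const, nsmul_eq_mul, mul_comm] at h1
  have hbdsum : ∑ c ∈ OC, ∑ d ∈ G.bd (Q c), z d ≤ 3 * (U.card : ℝ) := by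
    have hdis : ∀ c ∈ OC, ∀ c' ∈ OC, c ≠ c' → Disjoint (G.bd (Q c)) (G.bd (Q c')) := by
      intro c _ c' _ hcc
      rw [Finset.disjoint_left]
      intro d hd hd'
      unfold bd at hd hd'
      rw [mem_filter] at hd hd'
      exact (Finset.disjoint_left.mp (hQdis c c' hcc)) hd.2.1 hd'.2.1
    -- the darts of positive weight
    set B : Finset D := (OC.biUnion fun c => G.bd (Q c)).filter fun d => 0 < z d with hB
    have hBds : ∀ d ∈ B, d ∈ G.ds ∧ G.pi (G.al d) ∈ U := by
      intro d hd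
      rw [hB, mem_filter, mem_biUnion] at hd
      obtain ⟨⟨c, hc, hdc⟩, hz⟩ := hd
      refine ⟨?_, hleave c d hdc hz⟩
      unfold bd at hdc
      exact (mem_filter.1 hdc).1
    have h1 : ∑ c ∈ OC, ∑ d ∈ G.bd (Q c), z d = ∑ d ∈ B, z d := by
      rw [← sum_biUnion hdis, hB, sum_filter_of_ne]
      intro d hd hne
      rw [mem_biUnion] at hd
      obtain ⟨c, hc, hdc⟩ := hd
      unfold bd at hdc
      exact lt_of_le_of_ne (hw.z0 d (mem_filter.1 hdc).1) hne.symm
    have h2 : ∑ d ∈ B, z d = ∑ d ∈ B.image G.al, z d := by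
      rw [sum_image]
      · exact sum_congr rfl fun d hd => (hw.sym d (hBds d hd).1).symm
      · intro d hd d' hd' h
        rw [← G.al_al d (hBds d hd).1, ← G.al_al d' (hBds d' hd').1, h]
    have h3 : B.image G.al ⊆ U.biUnion fun v => G.st v := by
      intro x hx
      obtain ⟨d, hd, rfl⟩ := mem_image.1 hx
      rw [mem_biUnion]
      refine ⟨_, (hBds d hd).2, ?_⟩
      unfold st
      rw [mem_filter]
      exact ⟨G.al_mem _ (hBds d hd).1, rfl⟩
    have h4 : ∑ d ∈ B.image G.al, z d ≤ ∑ d ∈ U.biUnion fun v => G.st v, z d := by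
      refine sum_le_sum_of_subset_of_nonneg h3 ?_
      intro d hd _
      rw [mem_biUnion] at hd
      obtain ⟨v, -, hd⟩ := hd
      unfold st at hd
      exact hw.z0 d (mem_filter.1 hd).1
    have h5 : ∑ d ∈ U.biUnion fun v => G.st v, z d = ∑ v ∈ U, ∑ d ∈ G.st v, z d := by
      rw [sum_biUnion]
      intro v _ w _ hvw
      change Disjoint (G.st v) (G.st w)
      rw [Finset.disjoint_left]
      intro d hd hd'
      unfold st at hd hd'
      rw [mem_filter] at hd hd'
      exact hvw (hd.2.symm.trans hd'.2)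
    have h6 : ∑ v ∈ U, ∑ d ∈ G.st v, z d ≤ ∑ _v ∈ U, (3 : ℝ) := by
      refine sum_le_sum fun v hv => ?_
      have h7 := hw.deg v (hUsub hv)
      have h8 := hw.t0 v (hUsub hv)
      linarith
    rw [sum_const, nsmul_eq_mul, mul_comm] at h6
    rw [h1, h2]
    linarith
  have htksum : ∑ c ∈ OC, ∑ v ∈ Q c, t v ≤ ∑ v ∈ G.vs, t v := by
    rw [← sum_biUnion]
    · refine sum_le_sum_of_subset_of_nonneg ?_ fun v hv _ => hw.t0 v hv
      intro v hv
      rw [mem_biUnion] at hv
      obtain ⟨c, -, hv⟩ := hv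
      exact hQsub c hv
    · intro c _ c' _ hcc
      exact hQdis c c' hcc
  have hup : ∑ c ∈ OC, G.val z t (Q c) < 3 * (U.card : ℝ) + 6 := by
    have : ∑ c ∈ OC, G.val z t (Q c) =
        ∑ c ∈ OC, ∑ d ∈ G.bd (Q c), z d + ∑ c ∈ OC, ∑ v ∈ Q c, t v := by
      rw [← Finset.sum_add_distrib]
      rfl
    rw [this]
    linarith
  have hlt : OC.card < U.card + 2 := by
    have h1 : (OC.card : ℝ) < (U.card : ℝ) + 2 := by linarith
    exact_mod_cast h1
  -- parity
  have hpar : Odd OC.card ↔ Odd (Nat.card S.verts) := by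
    rw [hOCcard]
    exact H.odd_ncard_oddComponents
  have hSv : Nat.card S.verts + U.card = G.vs.card := by
    have h1 : Nat.card S.verts = (uᶜ : Set {v // v ∈ G.vs}).ncard := by
      have : S.verts = uᶜ := by ext w; rw [hverts]; rfl
      rw [this]; rfl
    rw [h1, hUcard, add_comm, Set.ncard_add_ncard_compl, Nat.card_eq_fintype_card,
      Fintype.card_coe]
  rw [← hOCcard, ← hUcard] at hu
  rw [Nat.odd_iff, Nat.odd_iff] at hpar
  rw [Nat.even_iff] at he
  omega

/-- an instance without fresh vertices -/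
theorem base (G : MG V D) (z : D → ℝ) (t : V → ℝ) (F : Finset D) (par ep : V → ℕ)
    (h : G.Inst z t ∅ F par ep) : ∃ M, G.Good z ∅ F par M := by
  obtain ⟨M, hM, hpos⟩ := exists_pm G z t h.even h.wt h.tau
  refine ⟨M, hM, hpos, ?_⟩
  intro X hX ho
  have h1 : X = ∅ := subset_empty.1 hX.sub
  rw [h1, sum_empty] at ho
  exact absurd ho (by decide)

end MG

end RH
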