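import Pool.Agent.Lib.RH.SRest

/-! Absorption without a kill, general form (helper79: FA, helper63: PL); REST is `MCS.rest` in
`SRest` (helper4, helper61). -/

set_option autoImplicit false

namespace RH

open Finset Classical

namespace MG

variable {V D : Type*} {G : MG V D} {z : D → ℝ} {t : V → ℝ} {fr : Finset V} {F : Finset D}
variable {jm sx : Finset V} {ep : V → ℕ} {m : ℕ} {M : Finset D}

/-- admissible sets after absorbing the union `Y` -/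
theorem Adm.ab_iff {Y X : Finset V} :
    G.Adm (fr \ Y) (F.filter fun d => G.pi d ∈ fr \ Y) X ↔ G.Adm fr F X ∧ Disjoint X Y := by
  constructor
  · intro h
    have hd : Disjoint X Y := by
      rw [disjoint_left]
      intro v hv hvY
      exact (mem_sdiff.1 (h.sub hv)).2 hvY
    exact ⟨⟨fun v hv => (mem_sdiff.1 (h.sub hv)).1, fun d hd' hp =>
      h.clo d (mem_filter.2 ⟨hd', h.sub hp⟩) hp⟩, hd⟩
  · rintro ⟨h, hd⟩
    exact ⟨fun v hv => mem_sdiff.2 ⟨h.sub hv, disjoint_left.1 hd hv⟩,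
      fun d hd' hp => h.clo d (mem_filter.1 hd').1 hp⟩

/-- absorb the union `Y` (no kill, same weights): the good matching of the smaller instance is bad
only because of a closed union meeting `Y` -/
theorem MCS.absorb (h : G.MCS z t fr F jm sx ep m) {Y : Finset V} (hY : G.Adm fr F Y)
    (hne : Y.Nonempty) (hs : (Disjoint Y sx ∧ Disjoint Y jm) ∨ (sx ⊆ Y ∧ jm ⊆ Y)) :
    ∃ M, G.IsPM M ∧ (∀ d ∈ M, 0 < z d) ∧
      (∀ X, G.Adm fr F X → Disjoint X Y → (Odd X.card ∨ (sx.Nonempty ∧ sx ⊆ X)) →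
        ∃ d ∈ G.bd X, d ∉ M) ∧
      ∃ X, G.Adm fr F X ∧ (X ∩ Y).Nonempty ∧ (Odd X.card ∨ (sx.Nonempty ∧ sx ⊆ X)) ∧
        ∀ d ∈ G.bd X, d ∈ M := by
  have hlt : (fr \ Y).card < fr.card := card_lt_card (sdiff_ssubset hY.sub hne)
  have hcl : ∀ d ∈ F, G.pi d ∈ fr \ Y → G.pi (G.al d) ∈ fr \ Y :=
    (h.inst.fresh.adm_compl hY).clo
  have hdis : ∀ {A : Finset V}, A ⊆ fr → Disjoint Y A → A ⊆ fr \ Y := by
    intro A h1 h2 v hv
    exact mem_sdiff.2 ⟨h1 hv, fun h3 => disjoint_left.1 h2 h3 hv⟩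
  have key : ∃ M, G.IsPM M ∧ (∀ d ∈ M, 0 < z d) ∧
      (∀ X, G.Adm fr F X → Disjoint X Y → (Odd X.card ∨ (sx.Nonempty ∧ sx ⊆ X)) →
        ∃ d ∈ G.bd X, d ∉ M) := by
    rcases hs with ⟨h1, h2⟩ | ⟨h1, h2⟩
    · obtain ⟨M, hM⟩ := h.ih G z t (fr \ Y) (F.filter fun d => G.pi d ∈ fr \ Y) jm sx ep
        (Or.inl hlt) (h.inst.absorb sdiff_subset hcl
          (Or.inl ⟨hdis h.inst.sxs h1, hdis h.inst.fresh.jms h2, rfl, rfl⟩))
      exact ⟨M, hM.pm, hM.pos, fun X hX hXY hO => hM.hit X (Adm.ab_iff.2 ⟨hX, hXY⟩) hO⟩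
    · obtain ⟨M, hM⟩ := h.ih G z t (fr \ Y) (F.filter fun d => G.pi d ∈ fr \ Y) ∅ ∅ ep
        (Or.inl hlt) (h.inst.absorb sdiff_subset hcl
          (Or.inr ⟨disjoint_left.2 fun v hv hv' => (mem_sdiff.1 hv').2 (h2 hv), rfl, rfl⟩))
      refine ⟨M, hM.pm, hM.pos, fun X hX hXY hO => hM.hit X (Adm.ab_iff.2 ⟨hX, hXY⟩) ?_⟩
      rcases hO with hO | ⟨⟨v, hv⟩, hO⟩
      · exact Or.inl hO
      · exact absurd (h1 hv) (disjoint_left.1 hXY (hO hv))
  obtain ⟨M, h1, h2, h3⟩ := key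
  refine ⟨M, h1, h2, h3, ?_⟩
  by_contra hcon
  refine h.bad ⟨M, h1, h2, fun X hX hO => ?_⟩
  by_contra hh
  push Not at hh
  by_cases hXY : Disjoint X Y
  · obtain ⟨d, hd, hdM⟩ := h3 X hX hXY hO
    exact hdM (hh d hd)
  · rw [disjoint_iff_inter_eq_empty, ← not_nonempty_iff_eq_empty, not_not] at hXY
    exact hcon ⟨X, hX, hXY, hO, hh⟩

/-- FREE ABSORPTION, full form: the matching contains all edges between the class `C` and the
absorbed part, hits everything which is disjoint from `C` and closes a union around `C` -/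
theorem MCS.free_abs' (h : G.MCS z t fr F jm sx ep m) {C : Finset V} (hC : G.Adm fr F C)
    (hne : C.Nonempty) (hmin : ∀ X, G.Adm fr F X → (X ∩ C).Nonempty → C ⊆ X)
    (hs : (Disjoint C sx ∧ Disjoint C jm) ∨ (sx ⊆ C ∧ jm ⊆ C)) :
    ∃ M, G.IsPM M ∧ (∀ d ∈ M, 0 < z d) ∧ (∀ d ∈ G.ed C (G.vs \ fr), d ∈ M) ∧
      (∀ X, G.Adm fr F X → Disjoint X C → (Odd X.card ∨ (sx.Nonempty ∧ sx ⊆ X)) →
        ∃ d ∈ G.bd X, d ∉ M) ∧
      ∃ X, G.Adm fr F X ∧ C ⊆ X ∧ (Odd X.card ∨ (sx.Nonempty ∧ sx ⊆ X)) ∧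
        ∀ d ∈ G.bd X, d ∈ M := by
  obtain ⟨M, h1, h2, h3, X, hX, hXC, hO, hcl⟩ := h.absorb hC hne hs
  have hCX := hmin X hX hXC
  refine ⟨M, h1, h2, fun d hd => hcl d ?_, h3, X, hX, hCX, hO, hcl⟩
  obtain ⟨h4, h5, h6⟩ := mem_filter.1 hd
  exact mem_bd.2 ⟨h4, hCX h5, fun h7 => (mem_sdiff.1 h6).2 (hX.sub h7)⟩

/-- FREE ABSORPTION: some perfect matching of the support contains all edges between the class `C`
and the absorbed part -/
theorem MCS.free_abs (h : G.MCS z t fr F jm sx ep m) {C : Finset V} (hC : G.Adm fr F C)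
    (hne : C.Nonempty) (hmin : ∀ X, G.Adm fr F X → (X ∩ C).Nonempty → C ⊆ X)
    (hs : (Disjoint C sx ∧ Disjoint C jm) ∨ (sx ⊆ C ∧ jm ⊆ C)) :
    ∃ M, G.IsPM M ∧ (∀ d ∈ M, 0 < z d) ∧ ∀ d ∈ G.ed C (G.vs \ fr), d ∈ M := by
  obtain ⟨M, h1, h2, h3, -⟩ := h.free_abs' hC hne hmin hs
  exact ⟨M, h1, h2, h3⟩

/-- every fresh vertex lies in a class (a minimal nonempty union) inside the given union -/
theorem FrS.exists_class (hF : G.FrS z fr F jm) {Y : Finset V} (hY : G.Adm fr F Y)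
    {v : V} (hv : v ∈ Y) :
    ∃ C ⊆ Y, v ∈ C ∧ G.Adm fr F C ∧ ∀ X, G.Adm fr F X → (X ∩ C).Nonempty → C ⊆ X := by
  have inter : ∀ X X', G.Adm fr F X → G.Adm fr F X' → G.Adm fr F (X ∩ X') := by
    intro X X' h1 h2
    refine ⟨inter_subset_left.trans h1.sub, fun d hd hp => ?_⟩
    rw [mem_inter] at hp ⊢
    exact ⟨h1.clo d hd hp.1, h2.clo d hd hp.2⟩
  obtain ⟨C, hC, hmin⟩ := exists_min_image
    (Y.powerset.filter fun C => v ∈ C ∧ G.Adm fr F C) card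
    ⟨Y, mem_filter.2 ⟨mem_powerset.2 (Subset.refl _), hv, hY⟩⟩
  obtain ⟨h1, h2, h3⟩ := mem_filter.1 hC
  rw [mem_powerset] at h1
  refine ⟨C, h1, h2, h3, fun X hX hXC => ?_⟩
  by_cases hvX : v ∈ X
  · have h4 : X ∩ C ∈ Y.powerset.filter fun C => v ∈ C ∧ G.Adm fr F C :=
      mem_filter.2 ⟨mem_powerset.2 (inter_subset_right.trans h1), mem_inter.2 ⟨hvX, h2⟩,
        inter _ _ hX h3⟩
    have h5 := hmin _ h4
    have h6 := eq_of_subset_of_card_le (inter_subset_right : X ∩ C ⊆ C) h5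
    rw [← h6]
    exact inter_subset_left
  · exfalso
    have h4 : (fr \ X) ∩ C ∈ Y.powerset.filter fun C => v ∈ C ∧ G.Adm fr F C :=
      mem_filter.2 ⟨mem_powerset.2 (inter_subset_right.trans h1),
        mem_inter.2 ⟨mem_sdiff.2 ⟨h3.sub h2, hvX⟩, h2⟩, inter _ _ (hF.adm_compl hX) h3⟩
    have h5 := hmin _ h4
    have h6 := eq_of_subset_of_card_le (inter_subset_right : (fr \ X) ∩ C ⊆ C) h5
    obtain ⟨w, hw⟩ := hXC
    rw [mem_inter] at hw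
    have h7 : w ∈ (fr \ X) ∩ C := by
      rw [h6]
      exact hw.2
    exact (mem_sdiff.1 (mem_inter.1 h7).1).2 hw.1

/-- some vertex is absorbed -/
theorem MCS.ne_vs (h : G.MCS z t fr F ∅ ∅ ep m) (hne : fr.Nonempty) : fr ≠ G.vs := by
  intro he
  obtain ⟨M, -, -, d, hd, -⟩ := h.rest (by rw [he]; exact h.inst.even) hne
  obtain ⟨h1, h2, h3⟩ := mem_bd.1 hd
  rw [he] at h3
  exact h3 (G.pi_mem _ (G.al_mem d h1))

end MG

end RH
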