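import Pool.Agent.Lib.RH.Basic

/-! Restriction to a set of vertices: the edges leaving the set become tokens. -/

set_option autoImplicit false

namespace RH

open Finset Classical

namespace MG

variable {V D : Type*} {G : MG V D} {z : D → ℝ} {t : V → ℝ}

/-- restriction -/
noncomputable def res (G : MG V D) (U : Finset V) : MG V D where
  vs := G.vs ∩ U
  ds := G.ds.filter fun d => G.pi d ∈ U ∧ G.pi (G.al d) ∈ U
  pi := G.pi
  al := G.al
  pi_mem := by
    intro d hd
    obtain ⟨h1, h2, _⟩ := mem_filter.1 hd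
    exact mem_inter.2 ⟨G.pi_mem d h1, h2⟩
  al_mem := by
    intro d hd
    obtain ⟨h1, h2, h3⟩ := mem_filter.1 hd
    exact mem_filter.2 ⟨G.al_mem d h1, h3, by rw [G.al_al d h1]; exact h2⟩
  al_al := fun d hd => G.al_al d (mem_filter.1 hd).1
  noloop := fun d hd => G.noloop d (mem_filter.1 hd).1

/-- tokens of the restriction -/
noncomputable def tres (G : MG V D) (z : D → ℝ) (t : V → ℝ) (U : Finset V) (v : V) : ℝ :=
  t v + ∑ d ∈ (G.st v).filter fun d => G.pi (G.al d) ∉ U, z d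

/-- sums over the darts at the vertices of a set -/
theorem res_sum_fiber (f : D → ℝ) (S : Finset D) (X : Finset V) (hS : ∀ d ∈ S, G.pi d ∈ X) :
    ∑ d ∈ S, f d = ∑ v ∈ X, ∑ d ∈ S.filter fun d => G.pi d = v, f d :=
  (sum_fiberwise_of_maps_to hS f).symm

theorem res_bd {U X : Finset V} (hX : X ⊆ U) :
    G.bd X = (G.res U).bd X ∪ (G.bd X).filter fun d => G.pi (G.al d) ∉ U := by
  ext d
  simp only [mem_union, mem_filter, bd, res]
  constructor
  · rintro ⟨h1, h2, h3⟩
    by_cases hu : G.pi (G.al d) ∈ U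
    · exact Or.inl ⟨⟨h1, hX h2, hu⟩, h2, h3⟩
    · exact Or.inr ⟨⟨h1, h2, h3⟩, hu⟩
  · rintro (⟨⟨h1, _, _⟩, h2, h3⟩ | ⟨h, _⟩)
    · exact ⟨h1, h2, h3⟩
    · exact h

theorem res_val (_h : G.Wt z t) {U X : Finset V} (_hU : U ⊆ G.vs) (hX : X ⊆ U) :
    (G.res U).val z (G.tres z t U) X = G.val z t X := by
  have hdis : Disjoint ((G.res U).bd X) ((G.bd X).filter fun d => G.pi (G.al d) ∉ U) := by
    rw [disjoint_left]
    intro d hd hd'
    have h1 : d ∈ (G.res U).ds := (mem_filter.1 hd).1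
    exact (mem_filter.1 hd').2 (mem_filter.1 h1).2.2
  have h1 : ∑ v ∈ X, G.tres z t U v = ∑ v ∈ X, t v +
      ∑ d ∈ (G.bd X).filter fun d => G.pi (G.al d) ∉ U, z d := by
    simp only [tres]
    rw [sum_add_distrib]
    congr 1
    rw [res_sum_fiber (G := G) z ((G.bd X).filter fun d => G.pi (G.al d) ∉ U) X
      (fun d hd => (mem_filter.1 (mem_filter.1 hd).1).2.1)]
    refine sum_congr rfl fun v hv => ?_
    congr 1
    ext d
    simp only [mem_filter, st, bd]
    constructor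
    · rintro ⟨⟨a, b⟩, c⟩
      exact ⟨⟨⟨a, b ▸ hv, fun h => c (hX h)⟩, c⟩, b⟩
    · rintro ⟨⟨⟨a, _, _⟩, c⟩, b⟩
      exact ⟨⟨a, b⟩, c⟩
  unfold val
  rw [h1]
  conv_rhs => rw [res_bd hX, sum_union hdis]
  ring

theorem Wt.res (h : G.Wt z t) {U : Finset V} (hU : U ⊆ G.vs) :
    (G.res U).Wt z (G.tres z t U) where
  z0 := fun d hd => h.z0 d (mem_filter.1 hd).1
  t0 := by
    intro v hv
    have hv' : v ∈ G.vs := (mem_inter.1 hv).1
    refine add_nonneg (h.t0 v hv') (sum_nonneg fun d hd => h.z0 d ?_)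
    exact (mem_filter.1 (mem_filter.1 hd).1).1
  sym := fun d hd => h.sym d (mem_filter.1 hd).1
  deg := by
    intro v hv
    obtain ⟨hv1, hv2⟩ := mem_inter.1 hv
    have hs : G.st v = (G.res U).st v ∪ (G.st v).filter fun d => G.pi (G.al d) ∉ U := by
      ext d
      simp only [mem_union, mem_filter, st, MG.res]
      constructor
      · rintro ⟨a, b⟩
        by_cases hu : G.pi (G.al d) ∈ U
        · exact Or.inl ⟨⟨a, b ▸ hv2, hu⟩, b⟩
        · exact Or.inr ⟨⟨a, b⟩, hu⟩
      · rintro (⟨⟨a, _, _⟩, b⟩ | ⟨hab, _⟩)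
        · exact ⟨a, b⟩
        · exact hab
    have hdis : Disjoint ((G.res U).st v) ((G.st v).filter fun d => G.pi (G.al d) ∉ U) := by
      rw [disjoint_left]
      intro d hd hd'
      have h1 : d ∈ (G.res U).ds := (mem_filter.1 hd).1
      exact (mem_filter.1 hd').2 (mem_filter.1 h1).2.2
    have h3 := h.deg v hv1
    rw [hs, sum_union hdis] at h3
    unfold tres
    linarith
  cut := by
    intro X hX ho
    have hXU : X ⊆ U := fun v hv => (mem_inter.1 (hX hv)).2
    rw [res_val h hU hXU]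
    exact h.cut X (fun v hv => hU (hXU hv)) ho

/-- the total number of tokens of the restriction is the value of `U` -/
theorem res_tau (h : G.Wt z t) {U : Finset V} (hU : U ⊆ G.vs) :
    ∑ v ∈ (G.res U).vs, G.tres z t U v = G.val z t U := by
  have hvs : (G.res U).vs = U := inter_eq_right.2 hU
  rw [hvs, ← res_val h hU (Subset.refl U)]
  unfold val
  have : (G.res U).bd U = ∅ := by
    rw [eq_empty_iff_forall_notMem]
    intro d hd
    obtain ⟨h1, _, h3⟩ := mem_filter.1 hd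
    exact h3 (mem_filter.1 h1).2.2
  rw [this, sum_empty, zero_add]

/-- the matchings of the restriction -/
theorem res_pm {U : Finset V} {M : Finset D} (hU : U ⊆ G.vs) (hM : (G.res U).IsPM M) :
    M ⊆ G.ds ∧ (∀ d ∈ M, G.al d ∈ M) ∧ (∀ d ∈ M, G.pi d ∈ U) ∧
      ∀ v ∈ U, (M.filter fun d => G.pi d = v).card = 1 := by
  refine ⟨fun d hd => (mem_filter.1 (hM.sub hd)).1, hM.closed, fun d hd =>
    (mem_filter.1 (hM.sub hd)).2.1, fun v hv => hM.one v (mem_inter.2 ⟨hU hv, hv⟩)⟩

end MG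

end RH
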