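import Pool.Agent.Lib.RH.Basic

/-! Contraction of a tight odd set `W` to one of its vertices `ω`. -/

set_option autoImplicit false

namespace RH

open Finset Classical

namespace MG

variable {V D : Type*} {G : MG V D} {z : D → ℝ} {t : V → ℝ}

/-- contraction -/
noncomputable def con (G : MG V D) (W : Finset V) (ω : V) (hω : ω ∈ W) (hW : W ⊆ G.vs) :
    MG V D where
  vs := (G.vs \ W) ∪ {ω}
  ds := G.ds.filter fun d => ¬ (G.pi d ∈ W ∧ G.pi (G.al d) ∈ W)
  pi := fun d => if G.pi d ∈ W then ω else G.pi d
  al := G.al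
  pi_mem := by
    intro d hd
    rw [mem_filter] at hd
    by_cases h : G.pi d ∈ W
    · simp [h]
    · simp [h, G.pi_mem d hd.1]
  al_mem := by
    intro d hd
    rw [mem_filter] at hd ⊢
    refine ⟨G.al_mem d hd.1, ?_⟩
    rw [G.al_al d hd.1]
    exact fun h => hd.2 ⟨h.2, h.1⟩
  al_al := by
    intro d hd
    exact G.al_al d (mem_of_mem_filter d hd)
  noloop := by
    intro d hd
    rw [mem_filter] at hd
    by_cases h : G.pi d ∈ W
    · have h' : G.pi (G.al d) ∉ W := fun h2 => hd.2 ⟨h, h2⟩
      simp only [h, h', if_true, if_false]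
      intro he
      exact h' (he ▸ hω)
    · by_cases h' : G.pi (G.al d) ∈ W
      · simp only [h, h', if_true, if_false]
        intro he
        exact h (he ▸ hω)
      · simp only [h, h', if_false]
        exact G.noloop d hd.1

/-- tokens of the contraction -/
noncomputable def tcon (t : V → ℝ) (W : Finset V) (ω : V) (v : V) : ℝ :=
  if v = ω then ∑ u ∈ W, t u else t v

/-- the set of the original graph behind a set of the contraction -/
noncomputable def pre (W : Finset V) (ω : V) (X : Finset V) : Finset V :=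
  if ω ∈ X then X ∪ W else X

variable {W : Finset V} {ω : V} (hω : ω ∈ W) (hW : W ⊆ G.vs)

theorem con_vs_mem {X : Finset V} (hX : X ⊆ (G.con W ω hω hW).vs) {v : V} (hv : v ∈ X) :
    (v ∈ G.vs ∧ v ∉ W) ∨ v = ω := by
  have := hX hv
  simp only [con, mem_union, mem_sdiff, mem_singleton] at this
  exact this

theorem con_disj {X : Finset V} (hX : X ⊆ (G.con W ω hω hW).vs) (h : ω ∉ X) {v : V}
    (hv : v ∈ X) : v ∉ W := by
  rcases con_vs_mem hω hW hX hv with h1 | h1
  · exact h1.2
  · exact absurd (h1 ▸ hv) h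

theorem con_erase_disj {X : Finset V} (hX : X ⊆ (G.con W ω hω hW).vs) :
    Disjoint (X.erase ω) W := by
  rw [Finset.disjoint_left]
  intro v hv
  rw [mem_erase] at hv
  rcases con_vs_mem hω hW hX hv.2 with h1 | h1
  · exact h1.2
  · exact absurd h1 hv.1

theorem pre_eq_union {X : Finset V} (hω : ω ∈ W) (h : ω ∈ X) :
    pre W ω X = X.erase ω ∪ W := by
  simp only [pre, h, if_true]
  ext v
  simp only [mem_union, mem_erase]
  constructor
  · rintro (h1 | h1)
    · by_cases hv : v = ω
      · exact Or.inr (hv ▸ hω)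
      · exact Or.inl ⟨hv, h1⟩
    · exact Or.inr h1
  · rintro (h1 | h1)
    · exact Or.inl h1.2
    · exact Or.inr h1

theorem pre_sub {X : Finset V} (hX : X ⊆ (G.con W ω hω hW).vs) : pre W ω X ⊆ G.vs := by
  intro v hv
  simp only [pre] at hv
  split_ifs at hv with h
  · rw [mem_union] at hv
    rcases hv with h1 | h1
    · rcases con_vs_mem hω hW hX h1 with h2 | h2
      · exact h2.1
      · exact hW (h2 ▸ hω)
    · exact hW h1
  · rcases con_vs_mem hω hW hX hv with h2 | h2
    · exact h2.1
    · exact hW (h2 ▸ hω)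

theorem con_bd {X : Finset V} (hX : X ⊆ (G.con W ω hω hW).vs) :
    (G.con W ω hω hW).bd X = G.bd (pre W ω X) := by
  ext d
  rw [mem_bd, mem_bd]
  simp only [con, mem_filter]
  by_cases hx : ω ∈ X
  · simp only [pre, hx, if_true, mem_union]
    by_cases h1 : G.pi d ∈ W <;> by_cases h2 : G.pi (G.al d) ∈ W <;> simp [h1, h2, hx]
  · simp only [pre, hx, if_false]
    have hd : ∀ v, v ∈ W → v ∉ X := fun v hv hv' => con_disj hω hW hX hx hv' hv
    by_cases h1 : G.pi d ∈ W <;> by_cases h2 : G.pi (G.al d) ∈ W <;> simp [h1, h2, hx, hd _]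

theorem con_sum {X : Finset V} (hX : X ⊆ (G.con W ω hω hW).vs) :
    ∑ v ∈ X, tcon t W ω v = ∑ v ∈ pre W ω X, t v := by
  by_cases hx : ω ∈ X
  · rw [pre_eq_union hω hx, sum_union (con_erase_disj hω hW hX),
      ← Finset.add_sum_erase X _ hx, add_comm]
    congr 1
    · apply sum_congr rfl
      intro v hv
      rw [mem_erase] at hv
      simp [tcon, hv.1]
    · simp [tcon]
  · simp only [pre, hx, if_false]
    apply sum_congr rfl
    intro v hv
    have : v ≠ ω := fun h => hx (h ▸ hv)
    simp [tcon, this]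

theorem con_val {X : Finset V} (hX : X ⊆ (G.con W ω hω hW).vs) :
    (G.con W ω hω hW).val z (tcon t W ω) X = G.val z t (pre W ω X) := by
  unfold val
  rw [con_bd hω hW hX, con_sum hω hW hX]

theorem pre_odd {X : Finset V} (hX : X ⊆ (G.con W ω hω hW).vs) (ho : Odd W.card) :
    Odd (pre W ω X).card ↔ Odd X.card := by
  by_cases hx : ω ∈ X
  · rw [pre_eq_union hω hx, card_union_of_disjoint (con_erase_disj hω hW hX)]
    have h1 : X.card = (X.erase ω).card + 1 := by
      rw [card_erase_of_mem hx]
      have : 0 < X.card := card_pos.2 ⟨ω, hx⟩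
      omega
    rw [h1]
    simp only [Nat.odd_iff] at ho ⊢
    omega
  · simp only [pre, hx, if_false]

theorem con_st {v : V} (hv : v ≠ ω) (hvW : v ∉ W) : (G.con W ω hω hW).st v = G.st v := by
  ext d
  rw [mem_st, mem_st]
  simp only [con, mem_filter]
  by_cases h1 : G.pi d ∈ W
  · have h2 : G.pi d ≠ v := fun h => hvW (h ▸ h1)
    simp [h1, h2, Ne.symm hv]
  · simp [h1]

theorem con_st_omega : (G.con W ω hω hW).st ω = G.bd W := by
  ext d
  rw [mem_st, mem_bd]
  simp only [con, mem_filter]
  by_cases h1 : G.pi d ∈ W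
  · simp [h1]
  · have h2 : G.pi d ≠ ω := fun h => h1 (h ▸ hω)
    simp [h1, h2]

theorem Wt.con (h : G.Wt z t) (ho : Odd W.card) (ht : G.val z t W = 3) :
    (G.con W ω hω hW).Wt z (tcon t W ω) where
  z0 := fun d hd => h.z0 d (mem_of_mem_filter d hd)
  t0 := by
    intro v hv
    simp only [tcon]
    split_ifs with h1
    · exact sum_nonneg fun u hu => h.t0 u (hW hu)
    · have := con_vs_mem hω hW (X := (G.con W ω hω hW).vs) (Finset.Subset.refl _) hv
      exact h.t0 v (this.resolve_right h1).1
  sym := fun d hd => h.sym d (mem_of_mem_filter d hd)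
  deg := by
    intro v hv
    have hv' := con_vs_mem hω hW (X := (G.con W ω hω hW).vs) (Finset.Subset.refl _) hv
    by_cases h1 : v = ω
    · subst h1
      rw [con_st_omega hω hW]
      simp only [tcon, if_true]
      exact ht
    · have h2 := hv'.resolve_right h1
      rw [con_st hω hW h1 h2.2]
      simp only [tcon, h1, if_false]
      exact h.deg v h2.1
  cut := by
    intro X hX hodd
    rw [con_val hω hW hX]
    exact h.cut _ (pre_sub hω hW hX) ((pre_odd hω hW hX ho).2 hodd)

theorem con_pre_vs : pre W ω (G.con W ω hω hW).vs = G.vs := by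
  have h1 : ω ∈ (G.con W ω hω hW).vs := by simp [con]
  simp only [pre, h1, if_true]
  ext v
  simp only [con, mem_union, mem_sdiff, mem_singleton]
  constructor
  · rintro ((h | h) | h)
    · exact h.1
    · exact hW (h ▸ hω)
    · exact hW h
  · intro h
    by_cases hv : v ∈ W
    · exact Or.inr hv
    · exact Or.inl (Or.inl ⟨h, hv⟩)

theorem con_tau : ∑ v ∈ (G.con W ω hω hW).vs, tcon t W ω v = ∑ v ∈ G.vs, t v := by
  rw [con_sum hω hW (Finset.Subset.refl _), con_pre_vs hω hW]

theorem con_even (he : Even G.vs.card) (ho : Odd W.card) : Even (G.con W ω hω hW).vs.card := by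
  have h1 := pre_odd hω hW (X := (G.con W ω hω hW).vs) (Finset.Subset.refl _) ho
  rw [con_pre_vs hω hW] at h1
  rw [← Nat.not_odd_iff_even] at he ⊢
  rwa [h1] at he

theorem con_one {M1 : Finset D} (hM1 : (G.con W ω hω hW).IsPM M1) :
    ∃ f ∈ M1, G.pi f ∈ W ∧ G.pi (G.al f) ∉ W ∧ ∀ d ∈ M1, G.pi d ∈ W → d = f := by
  have h1 : ω ∈ (G.con W ω hω hW).vs := by simp [con]
  have h2 := hM1.one ω h1
  obtain ⟨f, hf⟩ := card_eq_one.1 h2
  have hpi : ∀ d, (G.con W ω hω hW).pi d = if G.pi d ∈ W then ω else G.pi d := fun d => rfl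
  have key : ∀ d ∈ M1, (G.con W ω hω hW).pi d = ω → d = f := by
    intro d hd hd'
    have : d ∈ M1.filter fun d => (G.con W ω hω hW).pi d = ω := mem_filter.2 ⟨hd, hd'⟩
    rw [hf] at this
    exact mem_singleton.1 this
  have hfm : f ∈ M1.filter fun d => (G.con W ω hω hW).pi d = ω := by
    rw [hf]; exact mem_singleton_self f
  rw [mem_filter] at hfm
  have hfW : G.pi f ∈ W := by
    by_contra hn
    have h3 := hfm.2
    rw [hpi] at h3
    simp only [hn, if_false] at h3
    exact hn (h3 ▸ hω)
  have hfd := hM1.sub hfm.1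
  simp only [con, mem_filter] at hfd
  refine ⟨f, hfm.1, hfW, fun h => hfd.2 ⟨hfW, h⟩, ?_⟩
  intro d hd hdW
  exact key d hd (by rw [hpi]; simp [hdW])

/-- a perfect matching of the contraction uses exactly one dart from `W` to the outside; together
with a perfect matching of `W - b` (`b` the end of that dart in `W`) it gives one of `G` -/
theorem con_glue {M1 M2 : Finset D} (hM1 : (G.con W ω hω hW).IsPM M1) {f : D} (hf : f ∈ M1)
    (hfW : G.pi f ∈ W) (h2s : M2 ⊆ G.ds) (h2c : ∀ d ∈ M2, G.al d ∈ M2)
    (h2W : ∀ d ∈ M2, G.pi d ∈ W ∧ G.pi d ≠ G.pi f)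
    (h2o : ∀ v ∈ W, v ≠ G.pi f → (M2.filter fun d => G.pi d = v).card = 1) :
    G.IsPM (M1 ∪ M2) := by
  obtain ⟨f', hf', hf'W, -, huniq⟩ := con_one hω hW hM1
  have hff : f = f' := huniq f hf hfW
  subst hff
  refine ⟨?_, ?_, ?_⟩
  · intro d hd
    rw [mem_union] at hd
    rcases hd with hd | hd
    · exact mem_of_mem_filter d (hM1.sub hd)
    · exact h2s hd
  · intro d hd
    rw [mem_union] at hd ⊢
    rcases hd with hd | hd
    · exact Or.inl (hM1.closed d hd)
    · exact Or.inr (h2c d hd)
  · intro v hv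
    rw [filter_union]
    by_cases hvW : v ∈ W
    · by_cases hvf : v = G.pi f
      · have e1 : (M1.filter fun d => G.pi d = v) = {f} := by
          ext d
          rw [mem_filter, mem_singleton]
          constructor
          · rintro ⟨h1, h2⟩
            exact huniq d h1 (h2 ▸ hvW)
          · rintro rfl
            exact ⟨hf, hvf.symm⟩
        have e2 : (M2.filter fun d => G.pi d = v) = ∅ := by
          ext d
          simp only [mem_filter, notMem_empty, iff_false, not_and]
          intro h1 h2
          exact (h2W d h1).2 (h2.trans hvf)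
        rw [e1, e2]; simp
      · have e1 : (M1.filter fun d => G.pi d = v) = ∅ := by
          ext d
          simp only [mem_filter, notMem_empty, iff_false, not_and]
          intro h1 h2
          have := huniq d h1 (h2 ▸ hvW)
          exact hvf (this ▸ h2.symm)
        rw [e1, empty_union]
        exact h2o v hvW hvf
    · have e2 : (M2.filter fun d => G.pi d = v) = ∅ := by
        ext d
        simp only [mem_filter, notMem_empty, iff_false, not_and]
        intro h1 h2
        exact hvW (h2 ▸ (h2W d h1).1)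
      rw [e2, union_empty]
      have hv1 : v ∈ (G.con W ω hω hW).vs := by simp [con, hv, hvW]
      have h3 := hM1.one v hv1
      have hvω : v ≠ ω := fun h => hvW (h ▸ hω)
      have e1 : (M1.filter fun d => G.pi d = v) =
          M1.filter fun d => (G.con W ω hω hW).pi d = v := by
        apply filter_congr
        intro d hd
        have hpi : (G.con W ω hω hW).pi d = if G.pi d ∈ W then ω else G.pi d := rfl
        rw [hpi]
        by_cases h1 : G.pi d ∈ W
        · simp only [h1, if_true]
          constructor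
          · intro h2; exact absurd (h2 ▸ h1) hvW
          · intro h2; exact absurd h2.symm hvω
        · simp only [h1, if_false]
      rw [e1]; exact h3

end MG

end RH
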