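import Pool.Agent.Lib.RH.Kill
import Pool.Agent.Lib.RH.Contr

/-! The rho frame with one star (helper42).

Fresh vertices `fr` lie on circuits of `F`. At a vertex of `jm` there is no J-dart (and a token of
size 1). The star `sx` is either `jm` (two vertices without J-dart: two virtual ports which belong
together) or a subset of one class; no closed union of fresh classes may contain it. -/

set_option autoImplicit false

namespace RH

open Finset Classical

namespace MG

variable {V D : Type*} (G : MG V D)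

/-- fresh vertices -/
structure FrS (z : D → ℝ) (fr : Finset V) (F : Finset D) (jm : Finset V) : Prop where
  fsub : fr ⊆ G.vs
  Fsub : F ⊆ G.ds
  Fal : ∀ d ∈ F, G.al d ∈ F
  Ffr : ∀ d ∈ F, G.pi d ∈ fr
  two : ∀ v ∈ fr, (F.filter fun d => G.pi d = v).card = 2
  jms : jm ⊆ fr
  jd : ∀ v ∈ fr, v ∉ jm → ((G.st v).filter fun d => d ∉ F).card = 1
  j0 : ∀ v ∈ jm, ∀ d ∈ G.st v, d ∈ F
  unit : ∀ d ∈ G.ds, G.pi d ∈ fr → z d = 1

/-- an instance with star; `ep` counts virtual ports, `m` is a lower bound for even unions -/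
structure InstS (z : D → ℝ) (t : V → ℝ) (fr : Finset V) (F : Finset D) (jm sx : Finset V)
    (ep : V → ℕ) (m : ℕ) : Prop where
  even : Even G.vs.card
  wt : G.Wt z t
  tau : ∑ v ∈ G.vs, t v < 6
  fresh : G.FrS z fr F jm
  cc : ∀ X, G.Adm fr F X → Odd X.card → 5 ≤ (G.bd X).card + ∑ v ∈ X, ep v
  ev : ∀ X, G.Adm fr F X → Even X.card → X.Nonempty → m ≤ (G.bd X).card + ∑ v ∈ X, ep v
  sxs : sx ⊆ fr
  kind : jm = sx ∨ (jm = ∅ ∧ ∀ X, G.Adm fr F X → ∀ v ∈ sx, v ∈ X → sx ⊆ X)
  jm2 : jm = ∅ ∨ jm.card = 2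
  st2 : sx.Nonempty → 2 ≤ ∑ v ∈ sx, t v
  b0 : ∀ X, G.Adm fr F X → Even X.card → sx.Nonempty → sx ⊆ X → 2 ≤ (G.bd X).card
  epj : ∀ v ∈ fr, ep v ≤ if v ∈ jm then 1 else 0

/-- a good matching -/
structure GoodS (z : D → ℝ) (fr : Finset V) (F : Finset D) (sx : Finset V) (M : Finset D) :
    Prop where
  pm : G.IsPM M
  pos : ∀ d ∈ M, 0 < z d
  hit : ∀ X, G.Adm fr F X → (Odd X.card ∨ (sx.Nonempty ∧ sx ⊆ X)) → ∃ d ∈ G.bd X, d ∉ M

/-- induction hypothesis -/
def IHS (n m : ℕ) (V D : Type*) : Prop :=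
  ∀ (G : MG V D) (z : D → ℝ) (t : V → ℝ) (fr : Finset V) (F : Finset D) (jm sx : Finset V)
    (ep : V → ℕ), G.size fr < n → G.InstS z t fr F jm sx ep m → ∃ M, G.GoodS z fr F sx M

/-- induction hypothesis, lexicographic order (fresh vertices, all vertices) -/
def IHL (a b m : ℕ) (V D : Type*) : Prop :=
  ∀ (G : MG V D) (z : D → ℝ) (t : V → ℝ) (fr : Finset V) (F : Finset D) (jm sx : Finset V)
    (ep : V → ℕ), (fr.card < a ∨ (fr.card = a ∧ G.vs.card < b)) →
      G.InstS z t fr F jm sx ep m → ∃ M, G.GoodS z fr F sx M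

/-- the part of the induction hypotheses used by a gluing: not more fresh vertices, fewer vertices -/
def IHG (a b m : ℕ) (V D : Type*) : Prop :=
  ∀ (G : MG V D) (z : D → ℝ) (t : V → ℝ) (fr : Finset V) (F : Finset D) (jm sx : Finset V)
    (ep : V → ℕ), fr.card ≤ a → G.vs.card < b →
      G.InstS z t fr F jm sx ep m → ∃ M, G.GoodS z fr F sx M

theorem IHS.toG {a b m : ℕ} {V D : Type*} (h : IHS (b + a) m V D) : IHG a b m V D :=
  fun G z t fr F jm sx ep h1 h2 hI => h G z t fr F jm sx ep (by unfold size; omega) hI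

theorem IHL.toG {a b m : ℕ} {V D : Type*} (h : IHL a b m V D) : IHG a b m V D :=
  fun G z t fr F jm sx ep h1 h2 hI => h G z t fr F jm sx ep (by omega) hI

variable {G} {z : D → ℝ} {t : V → ℝ} {fr : Finset V} {F : Finset D} {jm sx : Finset V}
variable {ep : V → ℕ} {m : ℕ} {M : Finset D}

theorem Adm.empty : G.Adm fr F ∅ :=
  ⟨empty_subset _, fun _ _ h => absurd h (notMem_empty _)⟩

/-- the largest admissible set which avoids `B` -/
theorem exists_avoid (G : MG V D) (fr : Finset V) (F : Finset D) (B : Finset V) :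
    ∃ fr' ⊆ fr, (∀ d ∈ F, G.pi d ∈ fr' → G.pi (G.al d) ∈ fr') ∧ Disjoint fr' B ∧
      ∀ X, G.Adm fr' (F.filter fun d => G.pi d ∈ fr') X ↔ G.Adm fr F X ∧ Disjoint X B := by
  refine ⟨fr.filter fun v => ∃ X, G.Adm fr F X ∧ v ∈ X ∧ Disjoint X B, filter_subset _ _,
    ?_, ?_, ?_⟩
  · intro d hd hp
    obtain ⟨-, X, h1, h2, h3⟩ := mem_filter.1 hp
    have h4 := h1.clo d hd h2
    exact mem_filter.2 ⟨h1.sub h4, X, h1, h4, h3⟩
  · rw [disjoint_left]
    intro v hv hB
    obtain ⟨-, X, -, h2, h3⟩ := mem_filter.1 hv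
    exact disjoint_left.1 h3 h2 hB
  · intro X
    constructor
    · intro h
      refine ⟨⟨fun v hv => (mem_filter.1 (h.sub hv)).1, fun d hd hp => ?_⟩, ?_⟩
      · exact h.clo d (mem_filter.2 ⟨hd, h.sub hp⟩) hp
      · rw [disjoint_left]
        intro v hv hB
        obtain ⟨-, Y, -, h2, h3⟩ := mem_filter.1 (h.sub hv)
        exact disjoint_left.1 h3 h2 hB
    · rintro ⟨h1, h2⟩
      exact ⟨fun v hv => mem_filter.2 ⟨h1.sub hv, X, h1, hv, h2⟩,
        fun d hd hp => h1.clo d (mem_filter.1 hd).1 hp⟩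

private theorem even_inv (S : Finset D) (hS : S ⊆ G.ds) (hcl : ∀ d ∈ S, G.al d ∈ S) :
    Even S.card := by
  have h1 : ∑ _d ∈ S, (1 : ZMod 2) = 0 := by
    refine sum_involution (fun d _ => G.al d) ?_ ?_ ?_ ?_
    · intro d _
      decide
    · intro d hd _ he
      exact G.noloop d (hS hd) (by rw [he])
    · intro d hd
      exact hcl d hd
    · intro d hd
      exact G.al_al d (hS hd)
  rw [sum_const, nsmul_eq_mul, mul_one] at h1
  rwa [ZMod.natCast_eq_zero_iff_even] at h1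

/-- number of boundary darts of an admissible set -/
theorem FrS.bd_par (hF : G.FrS z fr F jm) {X : Finset V} (hX : G.Adm fr F X) :
    ((G.bd X).card + (X ∩ jm).card) % 2 = X.card % 2 := by
  set S : Finset D := G.ds.filter fun d => G.pi d ∈ X ∧ d ∉ F with hS
  have h1 : S.card + (X ∩ jm).card = X.card := by
    have e : S.card = (X \ jm).card := by
      have hmaps : ∀ d ∈ S, G.pi d ∈ X \ jm := by
        intro d hd
        obtain ⟨h2, h3, h4⟩ := mem_filter.1 hd
        refine mem_sdiff.2 ⟨h3, fun h5 => h4 (hF.j0 _ h5 d (mem_st.2 ⟨h2, rfl⟩))⟩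
      rw [card_eq_sum_card_fiberwise (f := G.pi) (s := S) (t := X \ jm)
        (fun d hd => mem_coe.2 (hmaps d (mem_coe.1 hd)))]
      rw [card_eq_sum_ones (X \ jm)]
      refine sum_congr rfl fun v hv => ?_
      rw [← hF.jd v (hX.sub (mem_sdiff.1 hv).1) (mem_sdiff.1 hv).2]
      congr 1
      ext d
      rw [mem_filter, mem_filter, mem_filter, mem_st]
      constructor
      · rintro ⟨⟨h, h2, h3⟩, h4⟩
        exact ⟨⟨h, h4⟩, h3⟩
      · rintro ⟨⟨h, h4⟩, h3⟩
        exact ⟨⟨h, h4 ▸ (mem_sdiff.1 hv).1, h3⟩, h4⟩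
    rw [e]
    exact card_sdiff_add_card_inter X jm
  have h2 : S = G.bd X ∪ S.filter fun d => G.pi (G.al d) ∈ X := by
    ext d
    simp only [mem_union, mem_filter, hS, mem_bd]
    constructor
    · rintro ⟨h, h3, h5⟩
      by_cases h4 : G.pi (G.al d) ∈ X
      · exact Or.inr ⟨⟨h, h3, h5⟩, h4⟩
      · exact Or.inl ⟨h, h3, h4⟩
    · rintro (⟨h, h3, h4⟩ | ⟨h, h3⟩)
      · exact ⟨h, h3, fun h5 => h4 (hX.clo d h5 h3)⟩
      · exact h
  have h3 : Disjoint (G.bd X) (S.filter fun d => G.pi (G.al d) ∈ X) := by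
    rw [disjoint_left]
    intro d h4 h5
    exact (mem_bd.1 h4).2.2 (mem_filter.1 h5).2
  have h4 : Even (S.filter fun d => G.pi (G.al d) ∈ X).card := by
    refine even_inv (G := G) _ ((filter_subset _ _).trans (filter_subset _ _)) ?_
    intro d hd
    rw [mem_filter, hS, mem_filter] at hd ⊢
    obtain ⟨⟨h5, h6, h7⟩, h8⟩ := hd
    refine ⟨⟨G.al_mem d h5, h8, fun h9 => h7 ?_⟩, ?_⟩
    · have h10 := hF.Fal _ h9
      rwa [G.al_al d h5] at h10
    · rw [G.al_al d h5]
      exact h6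
  rw [h2, card_union_of_disjoint h3] at h1
  obtain ⟨k, hk⟩ := h4
  omega

/-- PARITY LAW: the number of unused ports of an admissible set -/
theorem FrS.unused_par (hF : G.FrS z fr F jm) (hM : G.IsPM M) {X : Finset V}
    (hX : G.Adm fr F X) :
    (((G.bd X).filter fun d => d ∉ M).card) % 2 = (X ∩ jm).card % 2 := by
  have h1 := hM.parity (hX.sub.trans hF.fsub)
  have h2 := hF.bd_par hX
  have h3 := card_filter_add_card_filter_not (s := G.bd X) (fun d => d ∈ M)
  omega

/-- a closed set contains an even number of vertices without J-dart -/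
theorem FrS.closed_jm (hF : G.FrS z fr F jm) (hM : G.IsPM M) {X : Finset V}
    (hX : G.Adm fr F X) (hc : ∀ d ∈ G.bd X, d ∈ M) : Even (X ∩ jm).card := by
  have h1 := hF.unused_par hM hX
  have h2 : ((G.bd X).filter fun d => d ∉ M) = ∅ := by
    rw [eq_empty_iff_forall_notMem]
    intro d hd
    exact (mem_filter.1 hd).2 (hc d (mem_filter.1 hd).1)
  rw [h2, card_empty] at h1
  rw [Nat.even_iff]
  omega

/-- the tokens at a vertex without J-dart -/
theorem FrS.t_jm (hF : G.FrS z fr F jm) (hw : G.Wt z t) {v : V} (hv : v ∈ jm) : t v = 1 := by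
  have hfr := hF.jms hv
  have h1 := hw.deg v (hF.fsub hfr)
  have h2 : G.st v = F.filter fun d => G.pi d = v := by
    ext d
    rw [mem_filter]
    constructor
    · intro h
      exact ⟨hF.j0 v hv d h, (mem_st.1 h).2⟩
    · rintro ⟨h3, h4⟩
      exact mem_st.2 ⟨hF.Fsub h3, h4⟩
  have h3 : ∑ d ∈ G.st v, z d = 2 := by
    have h4 : ∑ d ∈ G.st v, z d = ∑ _d ∈ G.st v, (1 : ℝ) := by
      refine sum_congr rfl fun d hd => ?_
      obtain ⟨h5, h6⟩ := mem_st.1 hd
      exact hF.unit d h5 (by rw [h6]; exact hfr)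
    rw [h4, sum_const, h2, hF.two v hfr]
    norm_num
  linarith

/-- there are no tokens at the other fresh vertices -/
theorem FrS.t_not_jm (hF : G.FrS z fr F jm) (hw : G.Wt z t) {v : V} (hv : v ∈ fr)
    (hj : v ∉ jm) : t v = 0 := by
  have h1 := hw.deg v (hF.fsub hv)
  have h3 : ∑ d ∈ G.st v, z d = (G.st v).card := by
    have h4 : ∑ d ∈ G.st v, z d = ∑ _d ∈ G.st v, (1 : ℝ) := by
      refine sum_congr rfl fun d hd => ?_
      obtain ⟨h5, h6⟩ := mem_st.1 hd
      exact hF.unit d h5 (by rw [h6]; exact hv)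
    rw [h4, sum_const, nsmul_eq_mul, mul_one]
  have h4 := card_filter_add_card_filter_not (s := G.st v) (fun d => d ∉ F)
  have h5 : ((G.st v).filter fun d => ¬ d ∉ F) = F.filter fun d => G.pi d = v := by
    ext d
    rw [mem_filter, mem_filter, not_not, mem_st]
    constructor
    · rintro ⟨⟨-, h6⟩, h7⟩
      exact ⟨h7, h6⟩
    · rintro ⟨h6, h7⟩
      exact ⟨⟨hF.Fsub h6, h7⟩, h6⟩
  rw [hF.jd v hv hj, h5, hF.two v hv] at h4
  rw [h3, ← h4] at h1
  norm_num at h1
  exact h1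

/-- the star is the set of the vertices without J-dart -/
theorem InstS.sx_eq (h : G.InstS z t fr F jm sx ep m) : sx = jm := by
  rcases h.kind with h1 | ⟨h1, -⟩
  · exact h1.symm
  · by_contra hne
    have h2 : sx.Nonempty := by
      rw [nonempty_iff_ne_empty]
      intro h3
      exact hne (h3.trans h1.symm)
    have h3 := h.st2 h2
    have h4 : ∑ v ∈ sx, t v = 0 := sum_eq_zero fun v hv =>
      h.fresh.t_not_jm h.wt (h.sxs hv) (by rw [h1]; exact notMem_empty v)
    rw [h4] at h3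
    norm_num at h3

/-- the J-dart of a fresh vertex -/
theorem FrS.exists_jd (hF : G.FrS z fr F jm) {v : V} (hv : v ∈ fr) (hj : v ∉ jm) :
    ∃ j ∈ G.ds, G.pi j = v ∧ j ∉ F ∧ ∀ d ∈ G.ds, G.pi d = v → d ∉ F → d = j := by
  obtain ⟨j, h1⟩ := card_eq_one.1 (hF.jd v hv hj)
  have h2 : j ∈ (G.st v).filter fun d => d ∉ F := by rw [h1]; exact mem_singleton_self j
  rw [mem_filter, mem_st] at h2
  refine ⟨j, h2.1.1, h2.1.2, h2.2, fun d h3 h4 h5 => ?_⟩
  have h6 : d ∈ (G.st v).filter fun d => d ∉ F := mem_filter.2 ⟨mem_st.2 ⟨h3, h4⟩, h5⟩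
  rwa [h1, mem_singleton] at h6

end MG

end RH
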