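import Pool.Agent.Lib.RH.Odd
import Pool.Agent.Lib.RH.SDefs

/-! Circuit vectors without any condition on the J-darts (copy of Odd.lean with the weaker
hypothesis `FA`: the darts of `F` are in the graph and come in pairs). -/

set_option autoImplicit false

namespace RH

open Finset Classical

namespace MG

/-- `F` is a set of edges of the graph -/
structure FA {V D : Type*} (G : MG V D) (F : Finset D) : Prop where
  Fsub : F ⊆ G.ds
  Fal : ∀ d ∈ F, G.al d ∈ F

variable {V D : Type*} {G : MG V D} {z : D → ℝ} {t : V → ℝ} {fr : Finset V} {F : Finset D}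
variable {jm sx : Finset V} {ep : V → ℕ} {m : ℕ}

theorem Fr.toFA (h : G.Fr z fr F) : G.FA F := ⟨h.Fsub, h.Fal⟩

theorem FrS.toFA (h : G.FrS z fr F jm) : G.FA F := ⟨h.Fsub, h.Fal⟩

/-- a circuit class has cyclic coordinates -/
theorem exists_cyA (hF : G.FA F) {C : Finset V} (hC : G.Circ fr F C)
    {a : D} (haF : a ∈ F) (haC : G.pi a ∈ C) :
    ∃ r : ZMod C.card → D, Cy G F C C.card r ∧ r 0 = a := by
  let S := {d : D // d ∈ F ∧ G.pi d ∈ C}
  have hoth : ∀ d : S, ∃ e : S, G.pi e.1 = G.pi d.1 ∧ e ≠ d ∧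
      ∀ x ∈ F, G.pi x = G.pi d.1 → x = d.1 ∨ x = e.1 := by
    rintro ⟨d, hd1, hd2⟩
    have h2 := hC.two (G.pi d) hd2
    have hd3 : d ∈ F.filter fun x => G.pi x = G.pi d := mem_filter.2 ⟨hd1, rfl⟩
    have h3 : ((F.filter fun x => G.pi x = G.pi d).erase d).card = 1 := by
      rw [card_erase_of_mem hd3, h2]
    obtain ⟨e, he⟩ := card_eq_one.1 h3
    have h4 : e ∈ (F.filter fun x => G.pi x = G.pi d).erase d := he ▸ mem_singleton_self e
    rw [mem_erase, mem_filter] at h4
    refine ⟨⟨e, h4.2.1, by rw [h4.2.2]; exact hd2⟩, h4.2.2, fun h => h4.1 (congrArg Subtype.val h),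
      ?_⟩
    intro x hx hxd
    by_cases hxe : x = d
    · exact Or.inl hxe
    · refine Or.inr ?_
      have h5 : x ∈ (F.filter fun x => G.pi x = G.pi d).erase d :=
        mem_erase.2 ⟨hxe, mem_filter.2 ⟨hx, hxd⟩⟩
      rw [he, mem_singleton] at h5
      exact h5
  choose σ hσ1 hσ2 hσ3 using hoth
  have hσσ : ∀ d : S, σ (σ d) = d := by
    intro d
    rcases hσ3 d (σ (σ d)).1 (σ (σ d)).2.1 ((hσ1 (σ d)).trans (hσ1 d)) with h | h
    · exact Subtype.ext h
    · exact absurd (Subtype.ext h) (hσ2 (σ d))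
  let α : S → S := fun d => ⟨G.al d.1, hF.Fal _ d.2.1, hC.adm.clo _ d.2.1 d.2.2⟩
  have hαα : ∀ d : S, α (α d) = d := fun d => Subtype.ext (G.al_al _ (hF.Fsub d.2.1))
  have hα : ∀ d : S, α d ≠ d := fun d h => G.noloop _ (hF.Fsub d.2.1)
    (congrArg G.pi (congrArg Subtype.val h))
  let φ : S → S := fun d => σ (α d)
  have hφi : Function.Injective φ := by
    intro x y h
    have h1 : σ (σ (α x)) = σ (σ (α y)) := congrArg σ h
    rw [hσσ, hσσ] at h1
    have h2 := congrArg α h1
    rwa [hαα, hαα] at h2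
  have hφσ : ∀ y : S, φ (σ (φ y)) = σ y := by
    intro y
    change σ (α (σ (σ (α y)))) = σ y
    rw [hσσ, hαα]
  have hit : ∀ (i : ℕ) (y : S), φ^[i] (σ (φ^[i] y)) = σ y := by
    intro i
    induction i with
    | zero => intro y; rfl
    | succ i ih =>
      intro y
      rw [Function.iterate_succ_apply φ i y, Function.iterate_succ_apply' φ i (σ _), ih (φ y)]
      exact hφσ y
  have hno : ∀ (m : ℕ) (x : S), σ x ≠ φ^[m] x := by
    intro m x h
    rcases Nat.even_or_odd' m with ⟨i, h1 | h1⟩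
    · rw [h1, two_mul, Function.iterate_add_apply, ← hit i x] at h
      exact hσ2 _ ((hφi.iterate i) h)
    · rw [h1, two_mul, add_assoc, Function.iterate_add_apply, ← hit i x,
        Function.iterate_succ_apply'] at h
      have h2 : σ (φ^[i] x) = σ (α (φ^[i] x)) := (hφi.iterate i) h
      have h3 := congrArg σ h2
      rw [hσσ, hσσ] at h3
      exact hα _ h3.symm
  let a' : S := ⟨a, haF, haC⟩
  have hfin : Finite S :=
    Set.Finite.to_subtype ((F.finite_toSet).subset fun d (hd : d ∈ F ∧ _) => hd.1)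
  -- period
  have hper : a' ∈ Function.periodicPts φ := by
    have := Function.Injective.mem_periodicPts hφi a'
    exact this
  set p := Function.minimalPeriod φ a' with hp
  have hp0 : 0 < p := Function.minimalPeriod_pos_of_mem_periodicPts hper
  have hpp : φ^[p] a' = a' := Function.iterate_minimalPeriod
  have hinj : ∀ j k : ℕ, j ≤ k → k < p → G.pi (φ^[j] a').1 = G.pi (φ^[k] a').1 → j = k := by
    intro j k hjk hk h
    have h1 : φ^[k] a' = φ^[k - j] (φ^[j] a') := by
      rw [← Function.iterate_add_apply, Nat.sub_add_cancel hjk]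
    rcases hσ3 (φ^[j] a') (φ^[k] a').1 (φ^[k] a').2.1 h.symm with h2 | h2
    · have h3 : φ^[k] a' = φ^[j] a' := Subtype.ext h2
      by_contra hne
      have h4 : φ^[k - j] a' = a' := by
        apply hφi.iterate j
        rw [← Function.iterate_add_apply, Nat.add_sub_cancel' hjk, h3]
      have h5 : p ∣ k - j := Function.IsPeriodicPt.minimalPeriod_dvd h4
      have h6 := Nat.le_of_dvd (by omega) h5
      omega
    · have h3 : φ^[k] a' = σ (φ^[j] a') := Subtype.ext h2
      exact absurd (h3.symm.trans h1) (hno _ _)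
  -- the orbit is closed
  have hW : C.filter (fun v => ∃ k : ℕ, G.pi (φ^[k] a').1 = v) = C := by
    apply hC.min
    · refine ⟨(filter_subset _ _).trans hC.adm.sub, ?_⟩
      intro d hd hdv
      obtain ⟨hdC, k, hk⟩ := mem_filter.1 hdv
      have key : ∀ y : S, (∃ k : ℕ, φ^[k] a' = y) →
          G.pi (G.al y.1) ∈ C.filter (fun v => ∃ k : ℕ, G.pi (φ^[k] a').1 = v) := by
        rintro y ⟨k, rfl⟩
        refine mem_filter.2 ⟨hC.adm.clo _ (φ^[k] a').2.1 (φ^[k] a').2.2, k + 1, ?_⟩
        rw [Function.iterate_succ_apply']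
        exact hσ1 (α (φ^[k] a'))
      rcases hσ3 (φ^[k] a') d hd hk.symm with h2 | h2
      · rw [h2]
        exact key _ ⟨k, rfl⟩
      · -- d = σ (φ^[k] a') = α (previous)
        obtain ⟨m, hm⟩ : ∃ m : ℕ, φ^[m + 1] a' = φ^[k] a' := by
          cases k with
          | zero => exact ⟨p - 1, by rw [Nat.sub_add_cancel hp0, hpp]; rfl⟩
          | succ k => exact ⟨k, rfl⟩
        have h3 : d = G.al (φ^[m] a').1 := by
          rw [h2, ← hm, Function.iterate_succ_apply']
          change (σ (σ (α (φ^[m] a')))).1 = _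
          rw [hσσ]
        rw [h3, G.al_al _ (hF.Fsub (φ^[m] a').2.1)]
        exact mem_filter.2 ⟨(φ^[m] a').2.2, m, rfl⟩
    · exact filter_subset _ _
    · exact ⟨G.pi a, mem_filter.2 ⟨haC, 0, rfl⟩⟩
  have hmod : ∀ k : ℕ, φ^[k % p] a' = φ^[k] a' := fun k => Function.iterate_mod_minimalPeriod_eq
  have hcard : C.card = p := by
    have h1 : C = (range p).image fun k => G.pi (φ^[k] a').1 := by
      ext v
      rw [mem_image]
      constructor
      · intro hv
        rw [← hW, mem_filter] at hv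
        obtain ⟨-, k, hk⟩ := hv
        exact ⟨k % p, mem_range.2 (Nat.mod_lt _ hp0), by rw [hmod]; exact hk⟩
      · rintro ⟨k, -, rfl⟩
        exact (φ^[k] a').2.2
    rw [h1, card_image_of_injOn, card_range]
    intro j hj k hk h
    rw [coe_range, Set.mem_Iio] at hj hk
    rcases le_total j k with h2 | h2
    · exact hinj j k h2 hk h
    · exact (hinj k j h2 hj h.symm).symm
  have : NeZero C.card := ⟨by rw [hcard]; exact hp0.ne'⟩
  have hmod' : ∀ k : ℕ, φ^[k % C.card] a' = φ^[k] a' := fun k => by rw [hcard]; exact hmod k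
  have hv : ∀ i : ZMod C.card, i.val < p := fun i => by rw [← hcard]; exact ZMod.val_lt i
  have hs : ∀ i : ZMod C.card, φ^[(i + 1).val] a' = φ (φ^[i.val] a') := by
    intro i
    rw [← Function.iterate_succ_apply' φ, ZMod.val_add, hmod', ZMod.val_one_eq_one_mod,
      Function.iterate_add_apply, hmod', ← Function.iterate_add_apply]
  refine ⟨fun i => (φ^[i.val] a').1, ⟨fun i => (φ^[i.val] a').2.1, fun i => (φ^[i.val] a').2.2,
    ?_, ?_, ?_, ?_⟩, ?_⟩
  · intro i
    rw [hs]
    exact (hσ1 (α (φ^[i.val] a'))).symm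
  · intro i
    change (α (φ^[i.val] a')).1 ≠ (φ^[(i + 1).val] a').1
    rw [hs]
    exact fun h => hσ2 _ (Subtype.ext h).symm
  · intro i j h
    change G.pi (φ^[i.val] a').1 = G.pi (φ^[j.val] a').1 at h
    rcases le_total i.val j.val with h2 | h2
    · exact ZMod.val_injective _ (hinj _ _ h2 (hv j) h)
    · exact ZMod.val_injective _ (hinj _ _ h2 (hv i) h.symm).symm
  · intro v hv
    rw [← hW, mem_filter] at hv
    obtain ⟨-, k, hk⟩ := hv
    refine ⟨(k : ZMod C.card), ?_⟩
    rw [ZMod.val_natCast, hcard, hmod]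
    exact hk
  · change (φ^[(0 : ZMod C.card).val] a').1 = a
    rw [ZMod.val_zero]
    rfl

/-- functions on the edges of a circuit, and their vertex sums -/
theorem Cy.exists_funA (hF : G.FA F) {C : Finset V} {n : ℕ}
    {r : ZMod n → D} (h : Cy G F C n r) (g : ZMod n → ℝ) :
    ∃ δ : D → ℝ, (∀ i, δ (r i) = g i) ∧ (∀ i, δ (G.al (r i)) = g i) ∧
      (∀ d, δ d ≠ 0 → d ∈ F ∧ G.pi d ∈ C) ∧ (∀ d ∈ G.ds, δ (G.al d) = δ d) ∧
      (∀ i, ∑ d ∈ G.st (G.pi (r i)), δ d = g i + g (i - 1)) ∧
      (∀ v, v ∉ C → ∑ d ∈ G.st v, δ d = 0) := by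
  have haa : ∀ i, G.al (G.al (r i)) = r i := fun i => G.al_al _ (hF.Fsub (h.memF i))
  have huniq : ∀ d i j, (d = r i ∨ d = G.al (r i)) → (d = r j ∨ d = G.al (r j)) → i = j := by
    intro d i j h1 h2
    rcases h1 with rfl | rfl
    · rcases h2 with h2 | h2
      · exact h.inj i j (congrArg G.pi h2)
      · have h3 : i = j + 1 := h.inj _ _ (by rw [h2]; exact h.nxt j)
        subst h3
        exact absurd h2.symm (h.ne j)
    · rcases h2 with h2 | h2
      · have h3 : j = i + 1 := h.inj _ _ (by rw [← h2]; exact h.nxt i)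
        subst h3
        exact absurd h2 (h.ne i)
      · have h3 : r i = r j := by rw [← haa i, h2, haa]
        exact h.inj i j (congrArg G.pi h3)
  obtain ⟨δ, hδ⟩ : ∃ δ : D → ℝ, δ = fun d =>
      if hh : ∃ i, d = r i ∨ d = G.al (r i) then g hh.choose else 0 := ⟨_, rfl⟩
  have e1 : ∀ d i, (d = r i ∨ d = G.al (r i)) → δ d = g i := by
    intro d i hi
    have hh : ∃ i, d = r i ∨ d = G.al (r i) := ⟨i, hi⟩
    rw [hδ]
    simp only [dif_pos hh]
    rw [huniq d _ _ hh.choose_spec hi]
  have e2 : ∀ d, (¬ ∃ i, d = r i ∨ d = G.al (r i)) → δ d = 0 := by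
    intro d hh
    rw [hδ]
    simp only [dif_neg hh]
  have e3 : ∀ d, δ d ≠ 0 → ∃ i, d = r i ∨ d = G.al (r i) := by
    intro d hd
    by_contra hh
    exact hd (e2 d hh)
  have e4 : ∀ d, δ d ≠ 0 → d ∈ F ∧ G.pi d ∈ C := by
    intro d hd
    obtain ⟨i, rfl | rfl⟩ := e3 d hd
    · exact ⟨h.memF i, h.memC i⟩
    · exact ⟨hF.Fal _ (h.memF i), by rw [h.nxt]; exact h.memC _⟩
  refine ⟨δ, fun i => e1 _ i (Or.inl rfl), fun i => e1 _ i (Or.inr rfl), e4, ?_, ?_, ?_⟩
  · intro d hd
    by_cases hh : ∃ i, d = r i ∨ d = G.al (r i)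
    · obtain ⟨i, hi⟩ := hh
      rw [e1 d i hi]
      refine e1 _ i ?_
      rcases hi with rfl | rfl
      · exact Or.inr rfl
      · exact Or.inl (haa i)
    · rw [e2 d hh]
      apply e2
      rintro ⟨i, hi⟩
      apply hh
      refine ⟨i, ?_⟩
      rcases hi with hi | hi
      · exact Or.inr (by rw [← hi, G.al_al d hd])
      · refine Or.inl ?_
        rw [← G.al_al d hd, hi, haa]
  · intro i
    have hi1 : i - 1 + 1 = i := sub_add_cancel i 1
    have hp : G.pi (G.al (r (i - 1))) = G.pi (r i) := by rw [h.nxt, hi1]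
    have hne : r i ≠ G.al (r (i - 1)) := by
      have h3 := h.ne (i - 1)
      rw [hi1] at h3
      exact fun e => h3 e.symm
    have hsub : ({r i, G.al (r (i - 1))} : Finset D) ⊆ G.st (G.pi (r i)) := by
      intro d hd
      rw [mem_insert, mem_singleton] at hd
      rcases hd with rfl | rfl
      · exact mem_st.2 ⟨hF.Fsub (h.memF i), rfl⟩
      · exact mem_st.2 ⟨G.al_mem _ (hF.Fsub (h.memF _)), hp⟩
    rw [← sum_subset hsub, sum_pair hne, e1 _ i (Or.inl rfl), e1 _ (i - 1) (Or.inr rfl)]
    intro d hd hn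
    by_contra hne0
    obtain ⟨j, hj⟩ := e3 d hne0
    have hpd := (mem_st.1 hd).2
    apply hn
    rw [mem_insert, mem_singleton]
    rcases hj with rfl | rfl
    · left
      rw [h.inj _ _ hpd]
    · right
      have h3 : j + 1 = i := h.inj _ _ (by rw [← h.nxt]; exact hpd)
      rw [← h3, add_sub_cancel_right]
  · intro v hv
    refine sum_eq_zero fun d hd => ?_
    by_contra hne0
    exact hv ((mem_st.1 hd).2 ▸ (e4 d hne0).2)

/-- every F-dart at the circuit is `r i` or `al (r i)` -/
theorem Cy.coverA (hF : G.FA F) {C : Finset V} (hC : G.Circ fr F C) {n : ℕ}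
    {r : ZMod n → D} (h : Cy G F C n r) {d : D} (hd : d ∈ F) (hdC : G.pi d ∈ C) :
    ∃ i, d = r i ∨ d = G.al (r i) := by
  obtain ⟨i, hi⟩ := h.sur _ hdC
  have h2 := hC.two _ hdC
  have hi1 : i - 1 + 1 = i := sub_add_cancel i 1
  have hp : G.pi (G.al (r (i - 1))) = G.pi (r i) := by rw [h.nxt, hi1]
  have hne : r i ≠ G.al (r (i - 1)) := by
    have h3 := h.ne (i - 1)
    rw [hi1] at h3
    exact fun e => h3 e.symm
  have hsub : ({r i, G.al (r (i - 1))} : Finset D) ⊆ F.filter fun e => G.pi e = G.pi d := by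
    intro e he
    rw [mem_insert, mem_singleton] at he
    rcases he with rfl | rfl
    · exact mem_filter.2 ⟨h.memF i, hi⟩
    · exact mem_filter.2 ⟨hF.Fal _ (h.memF _), hp.trans hi⟩
  have heq := eq_of_subset_of_card_le hsub (by rw [h2, card_pair hne])
  have hm : d ∈ F.filter fun e => G.pi e = G.pi d := mem_filter.2 ⟨hd, rfl⟩
  rw [← heq, mem_insert, mem_singleton] at hm
  rcases hm with hm | hm
  · exact ⟨i, Or.inl hm⟩
  · exact ⟨i - 1, Or.inr hm⟩

private lemma val_pred {n : ℕ} [NeZero n] (i : ZMod n) (hi : i.val ≠ 0) :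
    (i - 1).val = i.val - 1 := by
  have hn : 1 < n := by
    have := ZMod.val_lt i
    omega
  have : Fact (1 < n) := ⟨hn⟩
  rw [ZMod.val_sub, ZMod.val_one]
  rw [ZMod.val_one]
  omega

private lemma val_pred0 {n : ℕ} [NeZero n] : ((0 : ZMod n) - 1).val = n - 1 := by
  obtain ⟨m, rfl⟩ : ∃ m, n = m + 1 := ⟨n - 1, by have := NeZero.ne n; omega⟩
  rw [zero_sub, ZMod.val_neg_one]
  rfl

private lemma pr1 {a b p p' q : Prop} (ha : a) (hb : ¬ b) (h : p ↔ q) (hp : p' ↔ ¬ p) :
    (a ↔ (p ↔ q)) ∧ (b ↔ (p' ↔ q)) := by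
  tauto

private lemma pr2 {a b p p' q q' : Prop} (ha : ¬ a) (hb : b) (h : p ↔ q') (h' : q ↔ ¬ q')
    (hp : p' ↔ ¬ p) : (a ↔ (p ↔ q)) ∧ (b ↔ (p' ↔ q)) := by
  tauto

private lemma pr3 {a b p p' q : Prop} (h : a ↔ b) (hp : p' ↔ ¬ p) :
    (a ↔ (p ↔ q)) ↔ ¬ (b ↔ (p' ↔ q)) := by
  tauto

/-- On an odd circuit there is for every vertex `x` a vector on the F-edges with vertex sum 1 at `x`
and 0 elsewhere (namely 1/2, -1/2, 1/2, .., 1/2 around the circuit). Proof suggestion: walk around
with the permutation `d ↦ the other F-dart at pi (al d)`; or: the linear map from edge vectors to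
vertex vectors is injective (a kernel vector alternates in sign, the circuit is odd), hence
surjective, and the solution has all entries of the same absolute value. -/
theorem exists_altA (hF : G.FA F) {C : Finset V} (hC : G.Circ fr F C) (ho : Odd C.card)
    {x : V} (hx : x ∈ C) :
    ∃ δ : D → ℝ, (∀ d, δ d ≠ 0 → d ∈ F ∧ G.pi d ∈ C) ∧ (∀ d ∈ G.ds, δ (G.al d) = δ d) ∧
      (∀ v ∈ G.vs, ∑ d ∈ G.st v, δ d = if v = x then 1 else 0) ∧
      (∀ d ∈ F, G.pi d ∈ C → |δ d| = 1 / 2) := by
  obtain ⟨a, haF, hax⟩ := hC.exists_dart hx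
  obtain ⟨r, hr, hr0⟩ := exists_cyA hF hC haF (by rw [hax]; exact hx)
  have : NeZero C.card := ⟨by
    have := card_pos.2 hC.ne
    omega⟩
  obtain ⟨δ, k1, k2, k3, k4, k5, k6⟩ := hr.exists_funA hF
    (fun i => if Even i.val then (1 / 2 : ℝ) else - (1 / 2))
  refine ⟨δ, k3, k4, ?_, ?_⟩
  · intro v _
    by_cases hv : v ∈ C
    · obtain ⟨i, rfl⟩ := hr.sur v hv
      rw [k5 i]
      by_cases hi : i.val = 0
      · have hi0 : i = 0 := (ZMod.val_eq_zero i).1 hi
        subst hi0
        have q1 : Even (0 : ZMod C.card).val := by rw [ZMod.val_zero]; exact Even.zero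
        have q2 : Even ((0 : ZMod C.card) - 1).val := by
          rw [val_pred0]
          obtain ⟨m, hm⟩ := ho
          exact ⟨m, by omega⟩
        have q3 : G.pi (r 0) = x := by rw [hr0, hax]
        rw [if_pos q1, if_pos q2, if_pos q3]
        norm_num
      · have q3 : ¬ G.pi (r i) = x := by
          intro e
          have h3 : i = 0 := hr.inj _ _ (by rw [e, hr0, hax])
          exact hi (by rw [h3, ZMod.val_zero])
        have q4 := val_pred i hi
        rw [if_neg q3]
        by_cases he : Even i.val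
        · have q5 : ¬ Even (i - 1).val := by
            rw [q4]
            rintro ⟨q, hq⟩
            obtain ⟨p, hp⟩ := he
            omega
          rw [if_pos he, if_neg q5]
          norm_num
        · have q5 : Even (i - 1).val := by
            rw [q4]
            rw [Nat.not_even_iff_odd] at he
            obtain ⟨p, hp⟩ := he
            exact ⟨p, by omega⟩
          rw [if_neg he, if_pos q5]
          norm_num
    · rw [k6 v hv, if_neg]
      rintro rfl
      exact hv hx
  · intro d hd hdC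
    obtain ⟨i, hi⟩ := hr.coverA hF hC hd hdC
    have h3 : δ d = if Even i.val then (1 / 2 : ℝ) else - (1 / 2) := by
      rcases hi with rfl | rfl
      · exact k1 i
      · exact k2 i
    rw [h3]
    split_ifs
    · rw [abs_of_pos (by norm_num)]
    · rw [abs_neg, abs_of_pos (by norm_num)]

/-- On an even circuit (2-colourable): two vertices `x`, `y` of different colours; vertex sum 1 at
`x` and at `y`, 0 elsewhere, entries at most 1/2. The colouring is given by `c`. -/
theorem exists_alt_evenA (hF : G.FA F) {C : Finset V} (hC : G.Circ fr F C)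
    (he : Even C.card) : ∃ c : V → Bool, (∀ d ∈ F, G.pi d ∈ C → c (G.pi (G.al d)) ≠ c (G.pi d)) ∧
      ∀ x ∈ C, ∀ y ∈ C, c x ≠ c y →
        ∃ δ : D → ℝ, (∀ d, δ d ≠ 0 → d ∈ F ∧ G.pi d ∈ C) ∧ (∀ d ∈ G.ds, δ (G.al d) = δ d) ∧
          (∀ v ∈ G.vs, ∑ d ∈ G.st v, δ d = if v = x ∨ v = y then 1 else 0) ∧
          (∀ d ∈ F, G.pi d ∈ C → |δ d| = 1 / 2) := by
  obtain ⟨x0, hx0⟩ := hC.ne
  obtain ⟨a, haF, hax⟩ := hC.exists_dart hx0
  obtain ⟨r, hr, -⟩ := exists_cyA hF hC haF (by rw [hax]; exact hx0)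
  have : NeZero C.card := ⟨by
    have := card_pos.2 hC.ne
    omega⟩
  obtain ⟨m, hm⟩ := he
  have hn2 : C.card = 2 * m := by omega
  have hparp : ∀ i : ZMod C.card, (Even (i - 1).val ↔ ¬ Even i.val) := by
    intro i
    by_cases hi : i.val = 0
    · have hi0 : i = 0 := (ZMod.val_eq_zero i).1 hi
      subst hi0
      rw [val_pred0, ZMod.val_zero]
      have hpos := card_pos.2 hC.ne
      constructor
      · rintro ⟨p, hp⟩
        omega
      · intro h
        exact absurd Even.zero h
    · rw [val_pred i hi]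
      constructor
      · rintro ⟨p, hp⟩ ⟨q, hq⟩
        omega
      · intro h
        rw [Nat.not_even_iff_odd] at h
        obtain ⟨p, hp⟩ := h
        exact ⟨p, by omega⟩
  have hpars : ∀ i : ZMod C.card, (Even (i + 1).val ↔ ¬ Even i.val) := by
    intro i
    have h1 := hparp (i + 1)
    rw [add_sub_cancel_right] at h1
    tauto
  have hcv : ∀ i, (decide (∃ j, G.pi (r j) = G.pi (r i) ∧ Even j.val)) = decide (Even i.val) := by
    intro i
    congr 1
    apply propext
    constructor
    · rintro ⟨j, h1, h2⟩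
      rwa [hr.inj _ _ h1] at h2
    · intro h
      exact ⟨i, rfl, h⟩
  have key : ∀ ix iy : ZMod C.card, ix.val < iy.val → (Even ix.val ↔ ¬ Even iy.val) →
      ∃ δ : D → ℝ, (∀ d, δ d ≠ 0 → d ∈ F ∧ G.pi d ∈ C) ∧ (∀ d ∈ G.ds, δ (G.al d) = δ d) ∧
          (∀ v ∈ G.vs, ∑ d ∈ G.st v, δ d =
            if v = G.pi (r ix) ∨ v = G.pi (r iy) then 1 else 0) ∧
          (∀ d ∈ F, G.pi d ∈ C → |δ d| = 1 / 2) := by
    intro ix iy hlt hpar
    have hylt := ZMod.val_lt iy
    obtain ⟨δ, k1, k2, k3, k4, k5, k6⟩ := hr.exists_funA hF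
      (fun i => if (ix.val ≤ i.val ∧ i.val < iy.val ↔ (Even i.val ↔ Even ix.val))
        then (1 / 2 : ℝ) else - (1 / 2))
    refine ⟨δ, k3, k4, ?_, ?_⟩
    · intro v _
      by_cases hv : v ∈ C
      · obtain ⟨i, rfl⟩ := hr.sur v hv
        rw [k5 i]
        have hvi : (G.pi (r i) = G.pi (r ix) ∨ G.pi (r i) = G.pi (r iy)) ↔
            (i.val = ix.val ∨ i.val = iy.val) := by
          constructor
          · rintro (h1 | h1)
            · exact Or.inl (congrArg ZMod.val (hr.inj _ _ h1))
            · exact Or.inr (congrArg ZMod.val (hr.inj _ _ h1))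
          · rintro (h1 | h1)
            · exact Or.inl (by rw [ZMod.val_injective _ h1])
            · exact Or.inr (by rw [ZMod.val_injective _ h1])
        rw [if_congr hvi rfl rfl]
        have hp := hparp i
        have hr1 : (ix.val ≤ (i - 1).val ∧ (i - 1).val < iy.val) ↔
            (ix.val < i.val ∧ i.val ≤ iy.val) := by
          by_cases hi : i.val = 0
          · have hi0 : i = 0 := (ZMod.val_eq_zero i).1 hi
            subst hi0
            rw [val_pred0, ZMod.val_zero]
            omega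
          · rw [val_pred i hi]
            omega
        by_cases c1 : i.val = ix.val
        · have a1 : (ix.val ≤ i.val ∧ i.val < iy.val) := by omega
          have a2 : ¬ (ix.val ≤ (i - 1).val ∧ (i - 1).val < iy.val) := by
            rw [hr1]
            omega
          have a3 : Even i.val ↔ Even ix.val := by rw [c1]
          have a4 := pr1 a1 a2 a3 hp
          rw [if_pos (Or.inl c1), if_pos a4.1, if_pos a4.2]
          norm_num
        · by_cases c2 : i.val = iy.val
          · have a1 : ¬ (ix.val ≤ i.val ∧ i.val < iy.val) := by omega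
            have a2 : (ix.val ≤ (i - 1).val ∧ (i - 1).val < iy.val) := by
              rw [hr1]
              omega
            have a3 : Even i.val ↔ Even iy.val := by rw [c2]
            have a4 := pr2 a1 a2 a3 hpar hp
            rw [if_pos (Or.inr c2), if_pos a4.1, if_pos a4.2]
            norm_num
          · have a1 : (ix.val ≤ i.val ∧ i.val < iy.val) ↔
                (ix.val ≤ (i - 1).val ∧ (i - 1).val < iy.val) := by
              rw [hr1]
              omega
            have a4 := pr3 (q := Even ix.val) a1 hp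
            rw [if_neg (not_or.2 ⟨c1, c2⟩)]
            by_cases c3 : (ix.val ≤ i.val ∧ i.val < iy.val ↔ (Even i.val ↔ Even ix.val))
            · rw [if_pos c3, if_neg (a4.1 c3)]
              norm_num
            · rw [if_neg c3, if_pos (by_contra fun h => c3 (a4.2 h))]
              norm_num
      · rw [k6 v hv, if_neg]
        rintro (rfl | rfl)
        · exact hv (hr.memC _)
        · exact hv (hr.memC _)
    · intro d hd hdC
      obtain ⟨i, hi⟩ := hr.coverA hF hC hd hdC
      have h3 : δ d = if (ix.val ≤ i.val ∧ i.val < iy.val ↔ (Even i.val ↔ Even ix.val))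
          then (1 / 2 : ℝ) else - (1 / 2) := by
        rcases hi with rfl | rfl
        · exact k1 i
        · exact k2 i
      rw [h3]
      split_ifs
      · rw [abs_of_pos (by norm_num)]
      · rw [abs_neg, abs_of_pos (by norm_num)]
  refine ⟨fun v => decide (∃ j, G.pi (r j) = v ∧ Even j.val), ?_, ?_⟩
  · intro d hd hdC
    have h2 : ∀ i, decide (∃ j, G.pi (r j) = G.pi (r (i + 1)) ∧ Even j.val) ≠
        decide (∃ j, G.pi (r j) = G.pi (r i) ∧ Even j.val) := by
      intro i h3
      rw [hcv, hcv] at h3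
      have h4 := decide_eq_decide.1 h3
      have h5 := hpars i
      tauto
    obtain ⟨i, rfl | rfl⟩ := hr.coverA hF hC hd hdC
    · dsimp only
      rw [hr.nxt]
      exact h2 i
    · dsimp only
      rw [G.al_al _ (hF.Fsub (hr.memF i)), hr.nxt]
      exact (h2 i).symm
  · intro x hx y hy hxy
    obtain ⟨ix, rfl⟩ := hr.sur x hx
    obtain ⟨iy, rfl⟩ := hr.sur y hy
    dsimp only at hxy
    rw [hcv, hcv] at hxy
    have h4 : (Even ix.val ↔ ¬ Even iy.val) := by
      by_cases h5 : Even ix.val <;> by_cases h6 : Even iy.val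
      · exact absurd (by rw [decide_eq_true h5, decide_eq_true h6]) hxy
      · tauto
      · tauto
      · exact absurd (by rw [decide_eq_false h5, decide_eq_false h6]) hxy
    rcases Nat.lt_trichotomy ix.val iy.val with h5 | h5 | h5
    · exact key ix iy h5 h4
    · rw [h5] at h4
      tauto
    · obtain ⟨δ, k1, k2, k3, k4⟩ := key iy ix h5 (by tauto)
      refine ⟨δ, k1, k2, fun v hv => ?_, k4⟩
      rw [k3 v hv]
      exact if_congr or_comm rfl rfl

end MG

end RH
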