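import Pool.Agent.Lib.RH.SStep
import Pool.Agent.Lib.RH.SOdd

/-! Growth in the star frame: killing J-edges and perturbing; one kill at an odd circuit, one kill
at an even circuit with a star vertex of the other colour. -/

set_option autoImplicit false

namespace RH

open Finset Classical

namespace MG

variable {V D : Type*} {G : MG V D} {z : D → ℝ} {t : V → ℝ}
variable {fr fr' : Finset V} {F : Finset D} {jm sx : Finset V} {ep : V → ℕ} {m : ℕ}

/-- Kill the J-edges of `S` (all of weight 1) and perturb: if `tau + |S| ≤ 6` (every edge of `S`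
counts twice in `S.card`) and some direction lowers the number of tokens, there is a step. -/
theorem step_of_dirS (h : G.InstS z t fr F jm sx ep m) {S : Finset D} (hS : S ⊆ G.ds)
    (hal : ∀ d ∈ S, G.al d ∈ S)
    (hS1 : ∀ d ∈ S, z d = 1) (htau : ∑ v ∈ G.vs, t v + S.card ≤ 6)
    (hsub : fr' ⊆ fr) (hne : fr' ≠ fr)
    (hclo : ∀ d ∈ F, G.pi d ∈ fr' → G.pi (G.al d) ∈ fr')
    (hSfr : ∀ d ∈ S, G.pi d ∉ fr')
    (hkill : ∀ X, G.Adm fr F X → Even (X ∩ jm).card → ¬ X ⊆ fr' → ∃ d ∈ G.bd X, d ∈ S)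
    (hstar : (sx ⊆ fr' ∧ jm ⊆ fr') ∨ (Disjoint sx fr' ∧ Disjoint jm fr'))
    (a : D → ℝ) (b : V → ℝ)
    (hsym : ∀ d ∈ G.ds, a (G.al d) = a d)
    (hdeg : ∀ v ∈ G.vs, ∑ d ∈ G.st v, a d + b v = 0)
    (hafr : ∀ d ∈ G.ds, G.pi d ∈ fr' → a d = 0)
    (haS : ∀ d ∈ S, a d = 0) (haz : ∀ d ∈ G.ds, z d = 0 → a d = 0)
    (hb : ∀ v ∈ G.vs, kt G z t S v = 0 → 0 ≤ b v)
    (hcut : ∀ X ⊆ G.vs, Odd X.card → G.val z t X = 3 → (∀ d ∈ G.ed X X, d ∉ S) →
      ∑ d ∈ G.ed X X, a d ≤ 0)
    (hneg : ∑ v ∈ G.vs, b v < 0) :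
    ∃ z' t', G.IsStepS z fr F jm sx z' t' fr' := by
  have hw := h.wt
  have hw1 := hw.kill hS hal
  have hz1 : ∀ d ∈ G.ds, kz z S d = 0 → 0 ≤ a d := by
    intro d hd h0
    by_cases hdS : d ∈ S
    · exact (haS d hdS).ge
    · have : z d = 0 := by
        unfold kz at h0
        rwa [if_neg hdS] at h0
      exact (haz d hd this).ge
  have hc1 : ∀ X ⊆ G.vs, Odd X.card → G.val (kz z S) (kt G z t S) X = 3 →
      0 ≤ G.val a b X := by
    intro X hX ho hv
    rw [kill_val hw hS hal hX] at hv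
    have h1 := hw.cut X hX ho
    have h2 : ∀ d ∈ (G.ed X X).filter fun d => d ∈ S, 0 ≤ z d := fun d hd =>
      hw.z0 d (hS (Finset.mem_filter.1 hd).2)
    have h3 := Finset.sum_nonneg h2
    have h4 : ∑ d ∈ (G.ed X X).filter fun d => d ∈ S, z d = 0 := by linarith
    have h5 := (Finset.sum_eq_zero_iff_of_nonneg h2).1 h4
    have h6 : ∀ d ∈ G.ed X X, d ∉ S := by
      intro d hd hdS
      have := h5 d (Finset.mem_filter.2 ⟨hd, hdS⟩)
      rw [hS1 d hdS] at this
      exact one_ne_zero this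
    have h7 := hcut X hX ho (by linarith) h6
    rw [pert_val a b hdeg hX]
    linarith
  obtain ⟨ε, hε, H⟩ := hw1.pert a b hsym hdeg hz1 hb hc1
  have hW := H ε hε.le le_rfl
  refine ⟨fun d => kz z S d + ε * a d, fun v => kt G z t S v + ε * b v,
    { wt := hW
      tau := ?_
      supp := ?_
      sub := hsub
      ne := hne
      clo := hclo
      unit := ?_
      kill := ?_
      star := hstar }⟩
  · intro d hd hp
    by_contra hn
    have hz : z d = 0 := le_antisymm (not_lt.1 hn) (hw.z0 d hd)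
    have ha := haz d hd hz
    simp only [ha, mul_zero, add_zero] at hp
    unfold kz at hp
    rw [hz] at hp
    simp at hp
  · intro d hd hp
    show kz z S d + ε * a d = 1
    have h1 : d ∉ S := fun hdS => hSfr d hdS hp
    rw [hafr d hd hp, mul_zero, add_zero]
    unfold kz
    rw [if_neg h1]
    exact h.fresh.unit d hd (hsub hp)
  · intro X hX hev hn
    obtain ⟨d, hd, hdS⟩ := hkill X hX hev hn
    refine ⟨d, hd, ?_⟩
    show kz z S d + ε * a d = 0
    rw [haS d hdS, mul_zero, add_zero]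
    unfold kz
    rw [if_pos hdS]
  · rw [Finset.sum_add_distrib, ← Finset.mul_sum, kill_tau hw hS hal]
    have h1 : ∑ d ∈ S, z d = S.card := by
      rw [Finset.sum_congr rfl hS1]
      simp
    rw [h1]
    have h2 := mul_neg_of_pos_of_neg hε hneg
    linarith

/-- Absorbing a circuit class `C` which is joined to a vertex which is not fresh by a killed edge:
the set `fr'` of the vertices which stay fresh, and the two conditions on `fr'` in a step. If the
star meets `C`, all classes meeting the star are absorbed, too. -/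
theorem InstS.absorb_class (h : G.InstS z t fr F jm sx ep m) {C : Finset V}
    (hC : G.Circ fr F C) {j : D} (hj : j ∈ G.ds) (hx : G.pi j ∈ C) (hw : G.pi (G.al j) ∉ fr) :
    ∃ fr' ⊆ fr, fr' ≠ fr ∧ (∀ d ∈ F, G.pi d ∈ fr' → G.pi (G.al d) ∈ fr') ∧ Disjoint fr' C ∧
      (∀ X, G.Adm fr F X → Even (X ∩ jm).card → ¬ X ⊆ fr' → j ∈ G.bd X) ∧
      ((sx ⊆ fr' ∧ jm ⊆ fr') ∨ (Disjoint sx fr' ∧ Disjoint jm fr')) := by
  have hF := h.fresh
  have hxfr : G.pi j ∈ fr := hC.adm.sub hx
  -- a union meeting `C` contains `j` in its boundary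
  have key : ∀ X, G.Adm fr F X → (X ∩ C).Nonempty → j ∈ G.bd X := by
    intro X hX hXC
    have hadm : G.Adm fr F (X ∩ C) := hX.inter hC.adm
    have heq := hC.min _ hadm inter_subset_right hXC
    have hxX : G.pi j ∈ X := by
      rw [← heq] at hx
      exact (mem_inter.1 hx).1
    exact mem_bd.2 ⟨hj, hxX, fun hh => hw (hX.sub hh)⟩
  have hjs := h.jm_sub
  by_cases hd : Disjoint sx C
  · refine ⟨fr \ C, sdiff_subset, ?_, ?_, sdiff_disjoint, ?_, Or.inl ⟨?_, ?_⟩⟩
    · intro he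
      have : G.pi j ∈ fr \ C := by rw [he]; exact hxfr
      exact (mem_sdiff.1 this).2 hx
    · intro d hd hp
      obtain ⟨p1, p2⟩ := mem_sdiff.1 hp
      refine mem_sdiff.2 ⟨hF.Ffr _ (hF.Fal d hd), fun hh => p2 ?_⟩
      have h3 := hC.adm.clo _ (hF.Fal d hd) hh
      rwa [G.al_al d (hF.Fsub hd)] at h3
    · intro X hX _ hn
      apply key X hX
      rw [nonempty_iff_ne_empty]
      intro he
      apply hn
      intro v hv
      refine mem_sdiff.2 ⟨hX.sub hv, fun hvC => ?_⟩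
      have : v ∈ X ∩ C := mem_inter.2 ⟨hv, hvC⟩
      rw [he] at this
      exact absurd this (notMem_empty _)
    · intro v hv
      exact mem_sdiff.2 ⟨h.sxs hv, disjoint_left.1 hd hv⟩
    · intro v hv
      exact mem_sdiff.2 ⟨hF.jms hv, disjoint_left.1 hd (hjs hv)⟩
  · obtain ⟨v0, hv0, hv0C⟩ := not_disjoint_iff.1 hd
    obtain ⟨fr', s1, s2, s3, s4⟩ := exists_avoid G fr F (C ∪ sx)
    have s3' := disjoint_union_right.1 s3
    refine ⟨fr', s1, ?_, s2, s3'.1, ?_, Or.inr ⟨s3'.2.symm, ?_⟩⟩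
    · intro he
      have : G.pi j ∈ fr' := by rw [he]; exact hxfr
      exact disjoint_left.1 s3'.1 this hx
    · intro X hX hev hn
      apply key X hX
      have h1 : ¬ Disjoint X (C ∪ sx) := fun hdis => hn ((s4 X).2 ⟨hX, hdis⟩).sub
      obtain ⟨v, hvX, hvB⟩ := not_disjoint_iff.1 h1
      rcases mem_union.1 hvB with hvC | hvs
      · exact ⟨v, mem_inter.2 ⟨hvX, hvC⟩⟩
      · refine ⟨v0, mem_inter.2 ⟨?_, hv0C⟩⟩
        rcases h.kind with h2 | ⟨-, h2⟩
        · -- two vertices without J-dart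
          have h3 : sx.card = 2 := by
            rcases h.jm2 with h4 | h4
            · rw [h2] at h4
              rw [h4] at hvs
              exact absurd hvs (notMem_empty _)
            · rw [← h2]
              exact h4
          have h5 : (X ∩ sx).card = 2 := by
            rw [h2] at hev
            have h6 : 0 < (X ∩ sx).card := card_pos.2 ⟨v, mem_inter.2 ⟨hvX, hvs⟩⟩
            have h7 : (X ∩ sx).card ≤ 2 := h3 ▸ card_le_card inter_subset_right
            obtain ⟨k, hk⟩ := hev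
            omega
          have h8 : X ∩ sx = sx := eq_of_subset_of_card_le inter_subset_right (by rw [h5, h3])
          have h9 : v0 ∈ X ∩ sx := by rw [h8]; exact hv0
          exact (mem_inter.1 h9).1
        · exact h2 X hX v hvs hvX hv0
    · exact disjoint_left.2 fun v hv hv' => disjoint_left.1 s3'.2 hv' (hjs hv)

/-- One kill with an arbitrary direction supported on a circuit class. -/
theorem grow_dirS (h : G.InstS z t fr F jm sx ep m) (ht : ∑ v ∈ G.vs, t v ≤ 4)
    {C : Finset V} (hC : G.Circ fr F C) {j : D} (hj : j ∈ G.ds)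
    (hx : G.pi j ∈ C) (hw : G.pi (G.al j) ∉ fr)
    (h1 : ∀ X ⊆ G.vs, Odd X.card → G.val z t X = 3 → C ⊆ X → G.pi (G.al j) ∈ X)
    (h2 : ∀ X ⊆ G.vs, Odd X.card → G.val z t X = 3 → 1 < X.card → C ⊆ X ∨ Disjoint C X)
    (δ : D → ℝ) (d1 : ∀ d, δ d ≠ 0 → d ∈ F ∧ G.pi d ∈ C)
    (d2 : ∀ d ∈ G.ds, δ (G.al d) = δ d)
    (hb : ∀ v ∈ G.vs, t v = 0 → v ≠ G.pi j → ∑ d ∈ G.st v, δ d ≤ 0)
    (hneg : 0 < ∑ v ∈ G.vs, ∑ d ∈ G.st v, δ d) :
    ∃ z' t' fr', G.IsStepS z fr F jm sx z' t' fr' := by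
  have hF := h.fresh
  have hxfr : G.pi j ∈ fr := hC.adm.sub hx
  have haj := G.al_mem j hj
  have haa := G.al_al j hj
  have hzj : z j = 1 := hF.unit j hj hxfr
  have hzaj : z (G.al j) = 1 := by rw [h.wt.sym j hj, hzj]
  have hjF : j ∉ F := fun hh => hw (hF.Ffr _ (hF.Fal j hh))
  have hajF : G.al j ∉ F := fun hh => hw (hF.Ffr _ hh)
  have hmemS : ∀ d, d ∈ ({j, G.al j} : Finset D) ↔ d = j ∨ d = G.al j := by
    intro d
    rw [mem_insert, mem_singleton]
  obtain ⟨fr', f1, f2, f3, f4, f5, f6⟩ := h.absorb_class hC hj hx hw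
  have key := step_of_dirS (fr' := fr') h (S := {j, G.al j}) ?_ ?_ ?_ ?_ f1 f2 f3 ?_ ?_ f6 δ
    (fun v => - ∑ d ∈ G.st v, δ d) d2 ?_ ?_ ?_ ?_ ?_ ?_ ?_
  · obtain ⟨z', t', hs⟩ := key
    exact ⟨z', t', fr', hs⟩
  · intro d hd
    rcases (hmemS d).1 hd with rfl | rfl
    · exact hj
    · exact haj
  · intro d hd
    rcases (hmemS d).1 hd with rfl | rfl
    · exact (hmemS _).2 (Or.inr rfl)
    · exact (hmemS _).2 (Or.inl haa)
  · intro d hd
    rcases (hmemS d).1 hd with rfl | rfl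
    · exact hzj
    · exact hzaj
  · have hc : ((({j, G.al j} : Finset D).card : ℕ) : ℝ) ≤ 2 := by
      exact_mod_cast card_le_two
    linarith
  · intro d hd
    rcases (hmemS d).1 hd with rfl | rfl
    · exact fun hh => disjoint_left.1 f4 hh hx
    · exact fun hh => hw (f1 hh)
  · intro X hX hev hn
    exact ⟨j, f5 X hX hev hn, (hmemS _).2 (Or.inl rfl)⟩
  · intro v hv
    ring
  · intro d _ hp
    by_contra hne'
    exact disjoint_left.1 f4 hp (d1 d hne').2
  · intro d hd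
    by_contra hne'
    rcases (hmemS d).1 hd with rfl | rfl
    · exact hjF (d1 _ hne').1
    · exact hajF (d1 _ hne').1
  · intro d hd hz0
    by_contra hne'
    have h3 := hF.unit d hd (hC.adm.sub (d1 d hne').2)
    rw [hz0] at h3
    norm_num at h3
  · intro v hv hk
    have h3 : kt G z t {j, G.al j} v = t v + ∑ d ∈ ({j, G.al j} : Finset D).filter
      (fun d => G.pi d = v), z d := rfl
    have h6 : ∀ d ∈ ({j, G.al j} : Finset D).filter (fun d => G.pi d = v), 0 ≤ z d := by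
      intro d hd
      rcases (hmemS d).1 (mem_filter.1 hd).1 with rfl | rfl
      · rw [hzj]; norm_num
      · rw [hzaj]; norm_num
    have h8 := sum_nonneg h6
    have h9 := h.wt.t0 v hv
    have h10 : t v = 0 := by
      rw [h3] at hk
      linarith
    have hne' : v ≠ G.pi j := by
      rintro rfl
      have h5 : j ∈ ({j, G.al j} : Finset D).filter (fun d => G.pi d = G.pi j) :=
        mem_filter.2 ⟨(hmemS _).2 (Or.inl rfl), rfl⟩
      have h7 := single_le_sum h6 h5
      rw [hzj] at h7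
      rw [h3] at hk
      linarith
    have h11 := hb v hv h10 hne'
    linarith
  · intro X hX hoX hv3 hS
    by_cases hc : 1 < X.card
    · rcases h2 X hX hoX hv3 hc with h3 | h3
      · exfalso
        have h4 := h1 X hX hoX hv3 h3
        exact hS j (mem_ed.2 ⟨hj, h3 hx, h4⟩) ((hmemS _).2 (Or.inl rfl))
      · refine le_of_eq (sum_eq_zero fun d hd => ?_)
        by_contra hne'
        exact disjoint_left.1 h3 (d1 d hne').2 (mem_ed.1 hd).2.1
    · have hX1 : X.card = 1 := by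
        obtain ⟨k, hk⟩ := hoX
        omega
      obtain ⟨v, rfl⟩ := card_eq_one.1 hX1
      refine le_of_eq (sum_eq_zero fun d hd => ?_)
      exfalso
      obtain ⟨e1, e2, e3⟩ := mem_ed.1 hd
      rw [mem_singleton] at e2 e3
      exact G.noloop d e1 (e3.trans e2.symm)
  · rw [sum_neg_distrib]
    linarith

/-- GROWTH, odd circuit, star frame (see `grow_odd`). -/
theorem growS_odd (h : G.InstS z t fr F jm sx ep m) (ht : ∑ v ∈ G.vs, t v ≤ 4)
    {C : Finset V} (hC : G.Circ fr F C) (ho : Odd C.card) {j : D} (hj : j ∈ G.ds)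
    (hx : G.pi j ∈ C) (hw : G.pi (G.al j) ∉ fr)
    (h1 : ∀ X ⊆ G.vs, Odd X.card → G.val z t X = 3 → C ⊆ X → G.pi (G.al j) ∈ X)
    (h2 : ∀ X ⊆ G.vs, Odd X.card → G.val z t X = 3 → 1 < X.card → C ⊆ X ∨ Disjoint C X) :
    ∃ z' t' fr', G.IsStepS z fr F jm sx z' t' fr' := by
  obtain ⟨δ, d1, d2, d3, -⟩ := exists_altA h.fresh.toFA hC ho hx
  refine grow_dirS h ht hC hj hx hw h1 h2 δ d1 d2 ?_ ?_
  · intro v hv _ hne
    rw [d3 v hv, if_neg hne]
  · rw [sum_congr rfl d3, sum_ite_eq', if_pos (G.pi_mem j hj)]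
    norm_num

/-- GROWTH, even circuit with a token (a star vertex) of the other colour. The colouring `c` is any
function which changes along the F-edges of `C`. -/
theorem growS_even (h : G.InstS z t fr F jm sx ep m) (ht : ∑ v ∈ G.vs, t v ≤ 4)
    {C : Finset V} (hC : G.Circ fr F C) (he : Even C.card) {j : D} (hj : j ∈ G.ds)
    (hx : G.pi j ∈ C) (hw : G.pi (G.al j) ∉ fr)
    (h1 : ∀ X ⊆ G.vs, Odd X.card → G.val z t X = 3 → C ⊆ X → G.pi (G.al j) ∈ X)
    (h2 : ∀ X ⊆ G.vs, Odd X.card → G.val z t X = 3 → 1 < X.card → C ⊆ X ∨ Disjoint C X) :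
    ∃ c : V → Bool, (∀ d ∈ F, G.pi d ∈ C → c (G.pi (G.al d)) ≠ c (G.pi d)) ∧
      ∀ y ∈ C, 0 < t y → c (G.pi j) ≠ c y → ∃ z' t' fr', G.IsStepS z fr F jm sx z' t' fr' := by
  obtain ⟨c, hc, hex⟩ := exists_alt_evenA h.fresh.toFA hC he
  refine ⟨c, hc, fun y hy hty hcy => ?_⟩
  obtain ⟨δ, d1, d2, d3, -⟩ := hex (G.pi j) hx y hy hcy
  refine grow_dirS h ht hC hj hx hw h1 h2 δ d1 d2 ?_ ?_
  · intro v hv ht0 hne
    rw [d3 v hv, if_neg]
    rintro (h3 | h3)
    · exact hne h3
    · rw [h3] at ht0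
      linarith
  · have hxv := G.pi_mem j hj
    have h3 : ∀ v ∈ G.vs, 0 ≤ ∑ d ∈ G.st v, δ d := by
      intro v hv
      rw [d3 v hv]
      split_ifs <;> norm_num
    have h4 := single_le_sum h3 hxv
    rw [d3 _ hxv, if_pos (Or.inl rfl)] at h4
    linarith

end MG

end RH
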