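import Pool.Agent.Lib.RH.MC

/-! One call of the induction hypothesis with absorption: raw data in which the conditions of the
frame hold only for the unions which avoid a set `B`. -/

set_option autoImplicit false

namespace RH

open Finset Classical

namespace MG

variable {V D : Type*}

/-- fresh vertices, conditions outside `B` -/
structure FrB (G : MG V D) (z : D → ℝ) (fr : Finset V) (F : Finset D) (jm B : Finset V) :
    Prop where
  fsub : fr ⊆ G.vs
  Fsub : F ⊆ G.ds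
  Fal : ∀ d ∈ F, G.al d ∈ F
  jms : jm ⊆ fr
  two : ∀ v ∈ fr, v ∉ B → (F.filter fun d => G.pi d = v).card = 2
  jd : ∀ v ∈ fr, v ∉ B → v ∉ jm → ((G.st v).filter fun d => d ∉ F).card = 1
  j0 : ∀ v ∈ jm, v ∉ B → ∀ d ∈ G.st v, d ∈ F
  unit : ∀ d ∈ G.ds, G.pi d ∈ fr → G.pi d ∉ B → z d = 1

variable {G : MG V D} {z : D → ℝ} {t : V → ℝ} {fr : Finset V} {F : Finset D} {jm B : Finset V}
variable {M : Finset D}

theorem FrB.toFrS (hF : G.FrB z fr F jm B) {fr2 : Finset V} (hs : fr2 ⊆ fr)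
    (hcl : ∀ d ∈ F, G.pi d ∈ fr2 → G.pi (G.al d) ∈ fr2) (hd : Disjoint fr2 B) :
    G.FrS z fr2 (F.filter fun d => G.pi d ∈ fr2) (jm ∩ fr2) where
  fsub := hs.trans hF.fsub
  Fsub := (filter_subset _ _).trans hF.Fsub
  Fal := fun d hd' => by
    obtain ⟨h1, h2⟩ := mem_filter.1 hd'
    exact mem_filter.2 ⟨hF.Fal d h1, hcl d h1 h2⟩
  Ffr := fun d hd' => (mem_filter.1 hd').2
  two := fun v hv => by
    rw [← hF.two v (hs hv) (disjoint_left.1 hd hv)]
    congr 1
    ext d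
    rw [mem_filter, mem_filter, mem_filter]
    constructor
    · rintro ⟨⟨h1, -⟩, h4⟩
      exact ⟨h1, h4⟩
    · rintro ⟨h1, h4⟩
      exact ⟨⟨h1, by rw [h4]; exact hv⟩, h4⟩
  jms := inter_subset_right
  jd := fun v hv hj => by
    have hj' : v ∉ jm := fun h1 => hj (mem_inter.2 ⟨h1, hv⟩)
    rw [← hF.jd v (hs hv) (disjoint_left.1 hd hv) hj']
    congr 1
    apply filter_congr
    intro d hd'
    have hp : G.pi d = v := (mem_st.1 hd').2
    rw [mem_filter, hp]
    constructor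
    · intro h1 h2
      exact h1 ⟨h2, hv⟩
    · intro h1 h2
      exact h1 h2.1
  j0 := fun v hv d hd' => by
    obtain ⟨h1, h2⟩ := mem_inter.1 hv
    refine mem_filter.2 ⟨hF.j0 v h1 (disjoint_left.1 hd h2) d hd', ?_⟩
    rw [(mem_st.1 hd').2]
    exact h2
  unit := fun d hd' hp => hF.unit d hd' (hs hp) (disjoint_left.1 hd hp)

theorem sum_ite_card (X Y : Finset V) :
    ∑ v ∈ X, (if v ∈ Y then 1 else 0) = (X ∩ Y).card := by
  rw [← sum_filter, filter_mem_eq_inter, sum_const, smul_eq_mul, mul_one]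

/-- the conditions of an instance for the unions which avoid `B` -/
structure RawI (G : MG V D) (z : D → ℝ) (t : V → ℝ) (fr : Finset V) (F : Finset D)
    (jm B : Finset V) (m : ℕ) : Prop where
  even : Even G.vs.card
  wt : G.Wt z t
  tau : ∑ v ∈ G.vs, t v < 6
  fresh : G.FrB z fr F jm B
  jm2 : jm = ∅ ∨ jm.card = 2
  cc : ∀ X, G.Adm fr F X → Disjoint X B → Odd X.card → 5 ≤ (G.bd X).card + (X ∩ jm).card
  ev : ∀ X, G.Adm fr F X → Disjoint X B → Even X.card → X.Nonempty →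
    m ≤ (G.bd X).card + (X ∩ jm).card
  b0 : ∀ X, G.Adm fr F X → Disjoint X B → Even X.card → jm.Nonempty → jm ⊆ X →
    2 ≤ (G.bd X).card

theorem solveAV {m : ℕ} (h : G.RawI z t fr F jm B m)
    (ih : ∀ fr2 ⊆ fr, ∀ (F2 : Finset D) (jm2 sx2 : Finset V) (ep2 : V → ℕ),
      G.InstS z t fr2 F2 jm2 sx2 ep2 m → ∃ M, G.GoodS z fr2 F2 sx2 M) :
    ∃ M, G.IsPM M ∧ (∀ d ∈ M, 0 < z d) ∧ ∀ X, G.Adm fr F X → Disjoint X B →
      (Odd X.card ∨ (jm.Nonempty ∧ jm ⊆ X)) → ∃ d ∈ G.bd X, d ∉ M := by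
  have hF := h.fresh
  obtain ⟨fr2, hs2, hcl2, hd2, hadm2⟩ := exists_avoid G fr F B
  have hF2 := hF.toFrS hs2 hcl2 hd2
  by_cases hj : jm ⊆ fr2
  · have hint : jm ∩ fr2 = jm := inter_eq_left.2 hj
    rw [hint] at hF2
    have hI : G.InstS z t fr2 (F.filter fun d => G.pi d ∈ fr2) jm jm
        (fun v => if v ∈ jm then 1 else 0) m := by
      refine ⟨h.even, h.wt, h.tau, hF2, ?_, ?_, hj, Or.inl rfl, h.jm2, ?_, ?_, fun v _ => le_rfl⟩
      · intro X hX ho
        obtain ⟨h1, h2⟩ := (hadm2 X).1 hX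
        rw [sum_ite_card]
        exact h.cc X h1 h2 ho
      · intro X hX he hn
        obtain ⟨h1, h2⟩ := (hadm2 X).1 hX
        rw [sum_ite_card]
        exact h.ev X h1 h2 he hn
      · intro hn
        have h1 : ∑ v ∈ jm, t v = ∑ _v ∈ jm, (1 : ℝ) :=
          sum_congr rfl fun v hv => hF2.t_jm h.wt hv
        have h2 : jm.card = 2 := by
          rcases h.jm2 with h3 | h3
          · rw [h3] at hn
            exact absurd hn not_nonempty_empty
          · exact h3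
        rw [h1, sum_const, h2]
        norm_num
      · intro X hX he hn hjX
        obtain ⟨h1, h2⟩ := (hadm2 X).1 hX
        exact h.b0 X h1 h2 he hn hjX
    obtain ⟨M, hM⟩ := ih fr2 hs2 _ _ _ _ hI
    exact ⟨M, hM.pm, hM.pos, fun X hX hXB ho => hM.hit X ((hadm2 X).2 ⟨hX, hXB⟩) ho⟩
  · have hj2 : jm.card = 2 := by
      rcases h.jm2 with h1 | h1
      · rw [h1] at hj
        exact absurd (empty_subset _) hj
      · exact h1
    obtain ⟨fr3, hs3, hcl3, hd3, hadm3⟩ := exists_avoid G fr F (B ∪ jm)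
    have hd3' : Disjoint fr3 B ∧ Disjoint fr3 jm := disjoint_union_right.1 hd3
    have hF3 := hF.toFrS hs3 hcl3 hd3'.1
    have hint : jm ∩ fr3 = ∅ := by
      rw [← disjoint_iff_inter_eq_empty]
      exact hd3'.2.symm
    rw [hint] at hF3
    have hX0 : ∀ X, Disjoint X jm → (X ∩ jm).card = 0 := by
      intro X hX
      rw [disjoint_iff_inter_eq_empty.1 hX, card_empty]
    have hI : G.InstS z t fr3 (F.filter fun d => G.pi d ∈ fr3) ∅ ∅ (fun _ => 0) m := by
      refine ⟨h.even, h.wt, h.tau, hF3, ?_, ?_, empty_subset _, Or.inl rfl, Or.inl rfl, ?_, ?_,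
        fun v _ => Nat.zero_le _⟩
      · intro X hX ho
        obtain ⟨h1, h2⟩ := (hadm3 X).1 hX
        obtain ⟨h3, h4⟩ := disjoint_union_right.1 h2
        have h5 := h.cc X h1 h3 ho
        rw [hX0 X h4] at h5
        rw [sum_const_zero]
        exact h5
      · intro X hX he hn
        obtain ⟨h1, h2⟩ := (hadm3 X).1 hX
        obtain ⟨h3, h4⟩ := disjoint_union_right.1 h2
        have h5 := h.ev X h1 h3 he hn
        rw [hX0 X h4] at h5
        rw [sum_const_zero]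
        exact h5
      · intro hn
        exact absurd hn not_nonempty_empty
      · intro X _ _ hn _
        exact absurd hn not_nonempty_empty
    obtain ⟨M, hM⟩ := ih fr3 hs3 _ _ _ _ hI
    refine ⟨M, hM.pm, hM.pos, fun X hX hXB ho => ?_⟩
    by_contra hcon
    push Not at hcon
    have hX2 := (hadm2 X).2 ⟨hX, hXB⟩
    have he := hF2.closed_jm hM.pm ⟨hX2.sub, hX2.clo⟩ hcon
    have h1 : X ∩ (jm ∩ fr2) = X ∩ jm := by
      ext v
      simp only [mem_inter]
      constructor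
      · rintro ⟨h1, h2, -⟩
        exact ⟨h1, h2⟩
      · rintro ⟨h1, h2⟩
        exact ⟨h1, h2, hX2.sub h1⟩
    rw [h1] at he
    have h2 : (X ∩ jm).card ≤ 2 := hj2 ▸ card_le_card inter_subset_right
    have h3 : (X ∩ jm).card ≠ 2 := by
      intro h4
      have h5 : X ∩ jm = jm := eq_of_subset_of_card_le inter_subset_right (by omega)
      exact hj ((h5 ▸ inter_subset_left : jm ⊆ X).trans hX2.sub)
    have h4 : (X ∩ jm).card = 0 := by
      obtain ⟨k, hk⟩ := he
      omega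
    have h5 : Disjoint X jm := by
      rw [disjoint_iff_inter_eq_empty]
      exact card_eq_zero.1 h4
    rcases ho with ho | ⟨hn, hjX⟩
    · obtain ⟨d, hd, hdM⟩ := hM.hit X ((hadm3 X).2 ⟨hX, disjoint_union_right.2 ⟨hXB, h5⟩⟩)
        (Or.inl ho)
      exact hdM (hcon d hd)
    · obtain ⟨v, hv⟩ := hn
      exact disjoint_left.1 h5 (hjX hv) hv

/-- the induction hypothesis of a minimal counterexample, with absorption -/
theorem MCS.solve {G : MG V D} {z : D → ℝ} {t : V → ℝ} {fr : Finset V} {F : Finset D}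
    {jm sx : Finset V} {ep : V → ℕ} {m : ℕ} (h : G.MCS z t fr F jm sx ep m) {G' : MG V D}
    {z' : D → ℝ} {t' : V → ℝ} {fr' : Finset V} {F' : Finset D} {jm' B' : Finset V}
    (hr : G'.RawI z' t' fr' F' jm' B' m)
    (hsz : fr'.card < fr.card ∨ (fr'.card = fr.card ∧ (G'.vs.card < G.vs.card ∨
      (G'.vs.card = G.vs.card ∧ G'.sup z' < G.sup z)))) :
    ∃ M, G'.IsPM M ∧ (∀ d ∈ M, 0 < z' d) ∧ ∀ X, G'.Adm fr' F' X → Disjoint X B' →
      (Odd X.card ∨ (jm'.Nonempty ∧ jm' ⊆ X)) → ∃ d ∈ G'.bd X, d ∉ M :=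
  solveAV hr fun fr2 hs F2 jm2 sx2 ep2 hI => by
    refine h.ih G' z' t' fr2 F2 jm2 sx2 ep2 ?_ hI
    have h1 := card_le_card hs
    omega

end MG

end RH
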