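import Pool.Agent.Lib.RH.SWalk
import Pool.Agent.Lib.RH.MFree
import Pool.Agent.Lib.RH.SGrow
import Pool.Agent.Lib.RH.SSolve
import Pool.Agent.Lib.RH.Res
import Pool.Agent.Lib.RH.Base

/-! Minimal counterexamples: fresh vertices exist, the support is connected, at least 4 tokens;
circuits through fresh vertices and walks around circuits. -/

set_option autoImplicit false

namespace RH

open Finset Classical

namespace MG

variable {V D : Type*} {G : MG V D} {z z' : D → ℝ} {t t' : V → ℝ} {fr : Finset V} {F : Finset D}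
variable {jm sx : Finset V} {ep : V → ℕ} {m : ℕ} {M : Finset D}

/-- the instance itself -/
theorem InstS.alt_refl (h : G.InstS z t fr F jm sx ep m) : G.Alt z fr z t where
  wt := h.wt
  tau := h.tau
  supp := fun _ _ h0 => h0
  unit := h.fresh.unit

/-- a minimal counterexample has fresh vertices (Tutte) -/
theorem MCS.fr_ne (h : G.MCS z t fr F jm sx ep m) : fr.Nonempty := by
  by_contra hne
  rw [not_nonempty_iff_eq_empty] at hne
  obtain ⟨M, hM, hpos⟩ := exists_pm G z t h.inst.even h.inst.wt h.inst.tau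
  refine h.bad ⟨M, hM, hpos, fun X hX hO => ?_⟩
  have h1 : X = ∅ := subset_empty.1 (hne ▸ hX.sub)
  rcases hO with h2 | ⟨⟨v, hv⟩, -⟩
  · rw [h1, card_empty] at h2
    obtain ⟨k, hk⟩ := h2
    omega
  · have h3 := h.inst.sxs hv
    rw [hne] at h3
    exact absurd h3 (notMem_empty _)

/-- a fresh vertex has no dart of weight zero, so it sees only its own side -/
theorem fresh_side (h : G.InstS z t fr F jm sx ep m) {Z : Finset V}
    (hz : ∀ d ∈ G.bd Z, z d = 0) {d : D} (hd : d ∈ G.ds) (hf : G.pi d ∈ fr) (hp : G.pi d ∈ Z) :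
    G.pi (G.al d) ∈ Z := by
  by_contra hn
  have h1 := hz d (mem_bd.2 ⟨hd, hp, hn⟩)
  rw [h.fresh.unit d hd hf] at h1
  norm_num at h1

/-- one side of a separation of the support -/
theorem MCS.side (h : G.MCS z t fr F jm sx ep m) {Z : Finset V} (hZ : Z ⊆ G.vs)
    (hne' : Z ≠ G.vs) (he : Even Z.card) (hz : ∀ d ∈ G.bd Z, z d = 0) :
    ∃ M, (G.res Z).IsPM M ∧ (∀ d ∈ M, 0 < z d) ∧
      ∀ X, G.Adm fr F X → X ⊆ Z → Even (X ∩ jm).card →
        (Odd X.card ∨ (jm.Nonempty ∧ jm ⊆ X)) → ∃ d ∈ G.bd X, d ∉ M := by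
  have hI := h.inst
  have hF := hI.fresh
  have hw := hI.wt
  have hvs : (G.res Z).vs = Z := inter_eq_right.2 hZ
  have hds : ∀ d, d ∈ (G.res Z).ds ↔ d ∈ G.ds ∧ G.pi d ∈ Z ∧ G.pi (G.al d) ∈ Z := by
    intro d
    unfold res
    rw [mem_filter]
  have hpi : (G.res Z).pi = G.pi := rfl
  have hal : (G.res Z).al = G.al := rfl
  have hside : ∀ {d : D}, d ∈ G.ds → G.pi d ∈ fr → G.pi d ∈ Z → G.pi (G.al d) ∈ Z :=
    fun h1 h2 h3 => fresh_side hI hz h1 h2 h3
  set jm' : Finset V := if jm ⊆ Z then jm else ∅ with hjm'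
  set B : Finset V := if jm ⊆ Z then ∅ else jm ∩ Z with hB
  have hXj : ∀ X, X ⊆ Z → Disjoint X B → X ∩ jm = X ∩ jm' := by
    intro X hX hXB
    rw [hjm']
    rw [hB] at hXB
    by_cases hj : jm ⊆ Z
    · rw [if_pos hj]
    · rw [if_neg hj] at hXB ⊢
      rw [inter_empty, ← disjoint_iff_inter_eq_empty, disjoint_left]
      intro v hv hvj
      exact disjoint_left.1 hXB hv (mem_inter.2 ⟨hvj, hX hv⟩)
  have hjs : jm' ⊆ jm := by
    rw [hjm']
    split_ifs
    · exact Subset.refl _
    · exact empty_subset _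
  have hjZ : jm' ⊆ Z := by
    rw [hjm']
    split_ifs with h1
    · exact h1
    · exact empty_subset _
  have hbd : ∀ X, X ⊆ fr ∩ Z → (G.res Z).bd X = G.bd X := by
    intro X hX
    ext d
    rw [mem_bd, mem_bd, hds]
    constructor
    · rintro ⟨⟨h1, -, -⟩, h2, h3⟩
      exact ⟨h1, h2, h3⟩
    · rintro ⟨h1, h2, h3⟩
      obtain ⟨h4, h5⟩ := mem_inter.1 (hX h2)
      exact ⟨⟨h1, h5, hside h1 h4 h5⟩, h2, h3⟩
  have hst : ∀ v ∈ fr ∩ Z, (G.res Z).st v = G.st v := by
    intro v hv
    obtain ⟨h4, h5⟩ := mem_inter.1 hv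
    ext d
    rw [mem_st, mem_st, hds]
    constructor
    · rintro ⟨⟨h1, -, -⟩, h2⟩
      exact ⟨h1, h2⟩
    · rintro ⟨h1, h2⟩
      exact ⟨⟨h1, h2 ▸ h5, hside h1 (h2 ▸ h4) (h2 ▸ h5)⟩, h2⟩
  have hadm : ∀ X, (G.res Z).Adm (fr ∩ Z) (F.filter fun d => G.pi d ∈ Z) X →
      G.Adm fr F X ∧ X ⊆ Z := by
    intro X hX
    refine ⟨⟨hX.sub.trans inter_subset_left, fun d hd hp => ?_⟩,
      hX.sub.trans inter_subset_right⟩
    exact hX.clo d (mem_filter.2 ⟨hd, (mem_inter.1 (hX.sub hp)).2⟩) hp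
  have hadm' : ∀ X, G.Adm fr F X → X ⊆ Z →
      (G.res Z).Adm (fr ∩ Z) (F.filter fun d => G.pi d ∈ Z) X := by
    intro X hX hXZ
    exact ⟨fun v hv => mem_inter.2 ⟨hX.sub hv, hXZ hv⟩,
      fun d hd hp => hX.clo d (mem_filter.1 hd).1 hp⟩
  have hep : ∀ X, G.Adm fr F X → ∑ v ∈ X, ep v ≤ (X ∩ jm).card := by
    intro X hX
    rw [← sum_ite_card]
    exact sum_le_sum fun v hv => hI.epj v (hX.sub hv)
  have hraw : (G.res Z).RawI z (G.tres z t Z) (fr ∩ Z) (F.filter fun d => G.pi d ∈ Z) jm' B m := by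
    refine ⟨by rw [hvs]; exact he, hw.res hZ, ?_, ?_, ?_, ?_, ?_, ?_⟩
    · rw [res_tau hw hZ]
      unfold val
      rw [sum_eq_zero hz, zero_add]
      refine lt_of_le_of_lt ?_ hI.tau
      exact sum_le_sum_of_subset_of_nonneg hZ fun v hv _ => hw.t0 v hv
    · refine ⟨by rw [hvs]; exact inter_subset_right, ?_, ?_, ?_, ?_, ?_, ?_, ?_⟩
      · intro d hd
        obtain ⟨h1, h2⟩ := mem_filter.1 hd
        exact (hds d).2 ⟨hF.Fsub h1, h2, hside (hF.Fsub h1) (hF.Ffr d h1) h2⟩
      · intro d hd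
        obtain ⟨h1, h2⟩ := mem_filter.1 hd
        exact mem_filter.2 ⟨hF.Fal d h1, hside (hF.Fsub h1) (hF.Ffr d h1) h2⟩
      · intro v hv
        exact mem_inter.2 ⟨hF.jms (hjs hv), hjZ hv⟩
      · intro v hv _
        obtain ⟨h1, h2⟩ := mem_inter.1 hv
        rw [← hF.two v h1]
        congr 1
        ext d
        rw [mem_filter, mem_filter, mem_filter]
        constructor
        · rintro ⟨⟨h3, -⟩, h4⟩
          exact ⟨h3, h4⟩
        · rintro ⟨h3, h4⟩
          have h5 : G.pi d = v := h4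
          exact ⟨⟨h3, by rw [h5]; exact h2⟩, h4⟩
      · intro v hv hvB hvj
        obtain ⟨h1, h2⟩ := mem_inter.1 hv
        have h3 : v ∉ jm := by
          intro h4
          rw [hjm'] at hvj
          rw [hB] at hvB
          by_cases hj : jm ⊆ Z
          · rw [if_pos hj] at hvj
            exact hvj h4
          · rw [if_neg hj] at hvB
            exact hvB (mem_inter.2 ⟨h4, h2⟩)
        rw [← hF.jd v h1 h3, hst v hv]
        congr 1
        apply filter_congr
        intro d hd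
        have h4 : G.pi d = v := (mem_st.1 hd).2
        rw [mem_filter, h4]
        constructor
        · intro h5 h6
          exact h5 ⟨h6, h2⟩
        · intro h5 h6
          exact h5 h6.1
      · intro v hv _ d hd
        have hvZ : v ∈ fr ∩ Z := mem_inter.2 ⟨hF.jms (hjs hv), hjZ hv⟩
        rw [hst v hvZ] at hd
        refine mem_filter.2 ⟨hF.j0 v (hjs hv) d hd, ?_⟩
        rw [(mem_st.1 hd).2]
        exact hjZ hv
      · intro d hd hp _
        exact hF.unit d ((hds d).1 hd).1 (mem_inter.1 hp).1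
    · rw [hjm']
      split_ifs
      · exact hI.jm2
      · exact Or.inl rfl
    · intro X hX hXB hO
      obtain ⟨h1, h2⟩ := hadm X hX
      have h3 := hI.cc X h1 hO
      have h4 := hep X h1
      rw [hbd X hX.sub, ← hXj X h2 hXB]
      omega
    · intro X hX hXB hE hn
      obtain ⟨h1, h2⟩ := hadm X hX
      have h3 := hI.ev X h1 hE hn
      have h4 := hep X h1
      rw [hbd X hX.sub, ← hXj X h2 hXB]
      omega
    · intro X hX _ hE hn hjX
      obtain ⟨h1, h2⟩ := hadm X hX
      have h3 : jm' = jm := by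
        rw [hjm']
        rw [hjm'] at hn
        by_cases hj : jm ⊆ Z
        · rw [if_pos hj]
        · rw [if_neg hj] at hn
          exact absurd hn not_nonempty_empty
      rw [hbd X hX.sub]
      refine hI.b0 X h1 hE ?_ ?_
      · rw [hI.sx_eq, ← h3]
        exact hn
      · rw [hI.sx_eq, ← h3]
        exact hjX
  have hlt : (G.res Z).vs.card < G.vs.card := by
    rw [hvs]
    exact card_lt_card (Finset.ssubset_iff_subset_ne.2 ⟨hZ, hne'⟩)
  have hle : (fr ∩ Z).card ≤ fr.card := card_le_card inter_subset_left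
  obtain ⟨M, h1, h2, h3⟩ := h.solve hraw (by omega)
  refine ⟨M, h1, h2, fun X hX hXZ hXe hO => ?_⟩
  have hXB : Disjoint X B := by
    rw [hB]
    by_cases hj : jm ⊆ Z
    · rw [if_pos hj]
      exact disjoint_empty_right _
    · rw [if_neg hj]
      have hj2 : jm.card = 2 := by
        rcases hI.jm2 with h4 | h4
        · rw [h4] at hj
          exact absurd (empty_subset _) hj
        · exact h4
      have h5 : (X ∩ jm).card ≤ 2 := hj2 ▸ card_le_card inter_subset_right
      have h6 : (X ∩ jm).card ≠ 2 := by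
        intro h7
        have h8 : X ∩ jm = jm := eq_of_subset_of_card_le inter_subset_right (by omega)
        exact hj ((h8 ▸ inter_subset_left : jm ⊆ X).trans hXZ)
      have h7 : (X ∩ jm).card = 0 := by
        obtain ⟨k, hk⟩ := hXe
        omega
      have h8 := card_eq_zero.1 h7
      rw [disjoint_left]
      intro v hv hv'
      have h9 : v ∈ X ∩ jm := mem_inter.2 ⟨hv, (mem_inter.1 hv').1⟩
      rw [h8] at h9
      exact notMem_empty _ h9
  have hO' : Odd X.card ∨ (jm'.Nonempty ∧ jm' ⊆ X) := by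
    rcases hO with h4 | ⟨h4, h5⟩
    · exact Or.inl h4
    · refine Or.inr ?_
      rw [hjm', if_pos (h5.trans hXZ)]
      exact ⟨h4, h5⟩
  obtain ⟨d, hd, hdM⟩ := h3 X (hadm' X hX hXZ) hXB hO'
  rw [hbd X (hadm' X hX hXZ).sub] at hd
  exact ⟨d, hd, hdM⟩

/-- the support of a minimal counterexample is connected (odd: too many tokens; even: the two sides
are smaller instances; if the star is split both star classes are absorbed for free: a closed
union contains an even number of star vertices on each side) -/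
theorem MCS.conn (h : G.MCS z t fr F jm sx ep m) {Z : Finset V} (hZ : Z ⊆ G.vs)
    (hne : Z.Nonempty) (hne' : Z ≠ G.vs) : ∃ d ∈ G.bd Z, z d ≠ 0 := by
  by_contra hcon
  push Not at hcon
  have hI := h.inst
  have hF := hI.fresh
  have hw := hI.wt
  have hcon' : ∀ d ∈ G.bd (G.vs \ Z), z d = 0 := by
    intro d hd
    obtain ⟨h1, h2, h3⟩ := mem_bd.1 hd
    have h4 : G.pi (G.al d) ∈ Z := by
      by_contra h5
      exact h3 (mem_sdiff.2 ⟨G.pi_mem _ (G.al_mem d h1), h5⟩)
    have h5 := hcon (G.al d) (mem_bd.2 ⟨G.al_mem d h1, h4, by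
      rw [G.al_al d h1]
      exact (mem_sdiff.1 h2).2⟩)
    rwa [hw.sym d h1] at h5
  have hcard : (G.vs \ Z).card + Z.card = G.vs.card := card_sdiff_add_card_eq_card hZ
  have hv1 : G.val z t Z = ∑ v ∈ Z, t v := by
    unfold val
    rw [sum_eq_zero hcon, zero_add]
  have hv2 : G.val z t (G.vs \ Z) = ∑ v ∈ G.vs \ Z, t v := by
    unfold val
    rw [sum_eq_zero hcon', zero_add]
  have hsum : ∑ v ∈ G.vs \ Z, t v + ∑ v ∈ Z, t v = ∑ v ∈ G.vs, t v := sum_sdiff hZ
  have hev := hI.even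
  rcases Nat.even_or_odd Z.card with he | ho
  · have he' : Even (G.vs \ Z).card := by
      rw [Nat.even_iff] at he hev ⊢
      omega
    have hn2 : G.vs \ Z ≠ G.vs := by
      intro h1
      obtain ⟨v, hv⟩ := hne
      have h2 := hZ hv
      rw [← h1] at h2
      exact (mem_sdiff.1 h2).2 hv
    obtain ⟨M1, a1, a2, a3⟩ := h.side hZ hne' he hcon
    obtain ⟨M2, b1, b2, b3⟩ := h.side sdiff_subset hn2 he' hcon'
    obtain ⟨c1, c2, c3, c4⟩ := res_pm hZ a1
    obtain ⟨e1, e2, e3, e4⟩ := res_pm (sdiff_subset : G.vs \ Z ⊆ G.vs) b1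
    have hpm : G.IsPM (M1 ∪ M2) := by
      refine ⟨union_subset c1 e1, ?_, ?_⟩
      · intro d hd
        rcases mem_union.1 hd with hd | hd
        · exact mem_union_left _ (c2 d hd)
        · exact mem_union_right _ (e2 d hd)
      · intro v hv
        by_cases hvZ : v ∈ Z
        · rw [← c4 v hvZ]
          congr 1
          ext d
          rw [mem_filter, mem_filter, mem_union]
          constructor
          · rintro ⟨h1 | h1, h2⟩
            · exact ⟨h1, h2⟩
            · exact absurd (h2 ▸ hvZ) (mem_sdiff.1 (e3 d h1)).2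
          · rintro ⟨h1, h2⟩
            exact ⟨Or.inl h1, h2⟩
        · rw [← e4 v (mem_sdiff.2 ⟨hv, hvZ⟩)]
          congr 1
          ext d
          rw [mem_filter, mem_filter, mem_union]
          constructor
          · rintro ⟨h1 | h1, h2⟩
            · exact absurd (h2 ▸ c3 d h1) hvZ
            · exact ⟨h1, h2⟩
          · rintro ⟨h1, h2⟩
            exact ⟨Or.inr h1, h2⟩
    have hpos : ∀ d ∈ M1 ∪ M2, 0 < z d := by
      intro d hd
      rcases mem_union.1 hd with hd | hd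
      · exact a2 d hd
      · exact b2 d hd
    refine h.bad ⟨M1 ∪ M2, hpm, hpos, fun X hX hO => ?_⟩
    by_contra hcl
    push Not at hcl
    -- the two parts
    have hX1 : G.Adm fr F (X ∩ Z) := by
      refine ⟨inter_subset_left.trans hX.sub, fun d hd hp => ?_⟩
      obtain ⟨h1, h2⟩ := mem_inter.1 hp
      exact mem_inter.2 ⟨hX.clo d hd h1, fresh_side hI hcon (hF.Fsub hd) (hX.sub h1) h2⟩
    have hX2 : G.Adm fr F (X \ Z) := by
      refine ⟨sdiff_subset.trans hX.sub, fun d hd hp => ?_⟩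
      obtain ⟨h1, h2⟩ := mem_sdiff.1 hp
      have h3 : G.pi (G.al d) ∈ G.vs \ Z := fresh_side hI hcon' (hF.Fsub hd) (hX.sub h1)
        (mem_sdiff.2 ⟨G.pi_mem d (hF.Fsub hd), h2⟩)
      exact mem_sdiff.2 ⟨hX.clo d hd h1, (mem_sdiff.1 h3).2⟩
    have hX2Z : X \ Z ⊆ G.vs \ Z := sdiff_subset_sdiff (hX.sub.trans hF.fsub) (Subset.refl _)
    have hc1 : ∀ d ∈ G.bd (X ∩ Z), d ∈ M1 := by
      intro d hd
      obtain ⟨h1, h2, h3⟩ := mem_bd.1 hd
      obtain ⟨h4, h5⟩ := mem_inter.1 h2
      have h6 := fresh_side hI hcon h1 (hX.sub h4) h5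
      have h7 : d ∈ G.bd X := mem_bd.2 ⟨h1, h4, fun h8 => h3 (mem_inter.2 ⟨h8, h6⟩)⟩
      rcases mem_union.1 (hcl d h7) with h8 | h8
      · exact h8
      · exact absurd h5 (mem_sdiff.1 (e3 d h8)).2
    have hc2 : ∀ d ∈ G.bd (X \ Z), d ∈ M2 := by
      intro d hd
      obtain ⟨h1, h2, h3⟩ := mem_bd.1 hd
      obtain ⟨h4, h5⟩ := mem_sdiff.1 h2
      have h6 : G.pi (G.al d) ∈ G.vs \ Z := fresh_side hI hcon' h1 (hX.sub h4)
        (mem_sdiff.2 ⟨G.pi_mem d h1, h5⟩)
      have h7 : d ∈ G.bd X :=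
        mem_bd.2 ⟨h1, h4, fun h8 => h3 (mem_sdiff.2 ⟨h8, (mem_sdiff.1 h6).2⟩)⟩
      rcases mem_union.1 (hcl d h7) with h8 | h8
      · exact absurd (c3 d h8) h5
      · exact h8
    have hj1 := hF.closed_jm hpm hX1 fun d hd => mem_union_left _ (hc1 d hd)
    have hj2 := hF.closed_jm hpm hX2 fun d hd => mem_union_right _ (hc2 d hd)
    have n1 : ¬ (Odd (X ∩ Z).card ∨ (jm.Nonempty ∧ jm ⊆ X ∩ Z)) := by
      intro h1
      obtain ⟨d, hd, hdM⟩ := a3 _ hX1 inter_subset_right hj1 h1
      exact hdM (hc1 d hd)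
    have n2 : ¬ (Odd (X \ Z).card ∨ (jm.Nonempty ∧ jm ⊆ X \ Z)) := by
      intro h1
      obtain ⟨d, hd, hdM⟩ := b3 _ hX2 hX2Z hj2 h1
      exact hdM (hc2 d hd)
    push Not at n1 n2
    rcases hO with hO | ⟨hn, hs⟩
    · have h1 : (X \ Z).card + (X ∩ Z).card = X.card := card_sdiff_add_card_inter X Z
      have h2 := n1.1
      have h3 := n2.1
      rw [Nat.odd_iff] at h2 h3 hO
      omega
    · rw [hI.sx_eq] at hn hs
      have hjc : jm.card = 2 := by
        rcases hI.jm2 with h4 | h4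
        · rw [h4] at hn
          exact absurd hn not_nonempty_empty
        · exact h4
      have h1 : ((X \ Z) ∩ jm).card + ((X ∩ Z) ∩ jm).card = jm.card := by
        rw [← card_union_of_disjoint]
        · congr 1
          ext v
          simp only [mem_union, mem_inter, mem_sdiff]
          constructor
          · rintro (⟨-, h2⟩ | ⟨-, h2⟩) <;> exact h2
          · intro h2
            by_cases h3 : v ∈ Z
            · exact Or.inr ⟨⟨hs h2, h3⟩, h2⟩
            · exact Or.inl ⟨⟨hs h2, h3⟩, h2⟩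
        · rw [disjoint_left]
          intro v hv hv'
          exact (mem_sdiff.1 (mem_inter.1 hv).1).2 (mem_inter.1 (mem_inter.1 hv').1).2
      have key : ∀ A : Finset V, (A ∩ jm).card = 2 → jm ⊆ A := by
        intro A hA
        have h2 : A ∩ jm = jm := eq_of_subset_of_card_le inter_subset_right (by omega)
        exact h2 ▸ inter_subset_left
      rcases Nat.lt_or_ge ((X ∩ Z) ∩ jm).card 1 with h2 | h2
      · exact n2.2 hn (key _ (by omega))
      · refine n1.2 hn (key _ ?_)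
        have h3 : ((X ∩ Z) ∩ jm).card ≤ 2 := hjc ▸ card_le_card inter_subset_right
        obtain ⟨k, hk⟩ := hj1
        omega
  · have h1 := hw.cut Z hZ ho
    have h2 := hw.cut (G.vs \ Z) sdiff_subset (by
      rw [Nat.even_iff] at hev
      rw [Nat.odd_iff] at ho ⊢
      omega)
    have h3 := hI.tau
    rw [hv1] at h1
    rw [hv2] at h2
    linarith

/-- circuits through fresh vertices -/
theorem FrS.exists_circ (hF : G.FrS z fr F jm) {v : V} (hv : v ∈ fr) :
    ∃ C, v ∈ C ∧ G.Circ fr F C := by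
  obtain ⟨C, -, hvC, hC, hmin⟩ := hF.exists_class
    (Y := fr) ⟨Subset.refl _, fun d hd _ => hF.Ffr _ (hF.Fal d hd)⟩ hv
  refine ⟨C, hvC, hC, ⟨v, hvC⟩, fun X hX hXC hn => ?_, fun v hv => hF.two v (hC.sub hv)⟩
  refine Subset.antisymm hXC (hmin X hX ?_)
  rwa [inter_eq_left.2 hXC]

/-- some vertex is not fresh -/
theorem MCS.fr_ne_vs (h : G.MCS z t fr F jm sx ep m) : fr ≠ G.vs := by
  intro he
  have hI := h.inst
  by_cases hj : jm = ∅
  · have h1 : sx = ∅ := hI.sx_eq.trans hj
    subst hj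
    subst h1
    exact h.ne_vs h.fr_ne he
  · have hn : sx.Nonempty := by
      rw [hI.sx_eq]
      exact nonempty_iff_ne_empty.2 hj
    have hA : G.Adm fr F fr := ⟨Subset.refl _, fun d hd _ => hI.fresh.Ffr _ (hI.fresh.Fal d hd)⟩
    have h2 := hI.b0 fr hA (by rw [he]; exact hI.even) hn hI.sxs
    have h3 : G.bd fr = ∅ := by
      rw [eq_empty_iff_forall_notMem]
      intro d hd
      obtain ⟨h4, h5, h6⟩ := mem_bd.1 hd
      rw [he] at h6
      exact h6 (G.pi_mem _ (G.al_mem d h4))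
    rw [h3, card_empty] at h2
    omega

/-- some J-edge leaves the fresh vertices -/
theorem MCS.exists_leg (h : G.MCS z t fr F jm sx ep m) :
    ∃ j ∈ G.ds, G.pi j ∈ fr ∧ G.pi (G.al j) ∉ fr := by
  obtain ⟨j, hj, -⟩ := h.conn h.inst.fresh.fsub h.fr_ne h.fr_ne_vs
  obtain ⟨h1, h2, h3⟩ := mem_bd.1 hj
  exact ⟨j, h1, h2, h3⟩

/-- at least 4 tokens: otherwise any edge leaving a circuit can be killed -/
theorem MCS.tau_ge (h : G.MCS z t fr F jm sx ep m) : 4 ≤ ∑ v ∈ G.vs, t v := by
  by_contra hlt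
  rw [not_le] at hlt
  obtain ⟨j, hj, hx, hw⟩ := h.exists_leg
  have hI := h.inst
  have hF := hI.fresh
  obtain ⟨C, hxC, hC⟩ := hF.exists_circ hx
  obtain ⟨fr', f1, f2, f3, f4, f5, f6⟩ := hI.absorb_class hC hj hxC hw
  have hzj : z j = 1 := hF.unit j hj hx
  have haj := G.al_mem j hj
  have haa := G.al_al j hj
  have hS : ({j, G.al j} : Finset D) ⊆ G.ds := by
    intro d hd
    rw [mem_insert, mem_singleton] at hd
    rcases hd with rfl | rfl
    · exact hj
    · exact haj
  have hal : ∀ d ∈ ({j, G.al j} : Finset D), G.al d ∈ ({j, G.al j} : Finset D) := by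
    intro d hd
    rw [mem_insert, mem_singleton] at hd ⊢
    rcases hd with rfl | rfl
    · exact Or.inr rfl
    · exact Or.inl haa
  have hzS : ∑ d ∈ ({j, G.al j} : Finset D), z d ≤ 2 := by
    have h1 : ∀ d ∈ ({j, G.al j} : Finset D), z d ≤ 1 := by
      intro d hd
      rw [mem_insert, mem_singleton] at hd
      rcases hd with rfl | rfl
      · exact hzj.le
      · rw [hI.wt.sym j hj, hzj]
    have h2 := sum_le_card_nsmul _ _ _ h1
    have h3 : ((({j, G.al j} : Finset D).card : ℕ) : ℝ) ≤ 2 := by exact_mod_cast card_le_two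
    rw [nsmul_eq_mul, mul_one] at h2
    linarith
  refine h.no_step (z' := kz z {j, G.al j}) (t' := kt G z t {j, G.al j}) (fr' := fr')
    { wt := hI.wt.kill hS hal
      tau := ?_
      supp := ?_
      sub := f1
      ne := f2
      clo := f3
      unit := ?_
      kill := ?_
      star := f6 }
  · intro d hd hp
    by_contra hn
    have hz : z d = 0 := le_antisymm (not_lt.1 hn) (hI.wt.z0 d hd)
    unfold kz at hp
    rw [hz] at hp
    simp at hp
  · intro d hd hp
    have h1 : d ∉ ({j, G.al j} : Finset D) := by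
      intro h2
      rw [mem_insert, mem_singleton] at h2
      rcases h2 with rfl | rfl
      · exact disjoint_left.1 f4 hp hxC
      · exact hw (f1 hp)
    unfold kz
    rw [if_neg h1]
    exact hF.unit d hd (f1 hp)
  · intro X hX hev hn
    refine ⟨j, f5 X hX hev hn, ?_⟩
    unfold kz
    rw [if_pos (mem_insert_self _ _)]
  · rw [kill_tau hI.wt hS hal]
    linarith

/-- a walk inside a circuit -/
theorem Circ.walk (hF : G.FrS z fr F jm) {C : Finset V} (hC : G.Circ fr F C) {x y : V}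
    (hx : x ∈ C) (hy : y ∈ C) : ∃ l, G.IsW (F.filter fun d => G.pi d ∈ C) x l y := by
  set R : Finset V := C.filter fun y => ∃ l, G.IsW (F.filter fun d => G.pi d ∈ C) x l y with hR
  have hRC : R = C := by
    refine hC.min R ⟨(filter_subset _ _).trans hC.adm.sub, fun d hd hp => ?_⟩
      (filter_subset _ _) ⟨x, mem_filter.2 ⟨hx, [], rfl⟩⟩
    obtain ⟨h1, l, hl⟩ := mem_filter.1 hp
    exact mem_filter.2 ⟨hC.adm.clo d hd h1, l ++ [d], hl.snoc (mem_filter.2 ⟨hd, h1⟩) rfl⟩
  rw [← hRC] at hy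
  exact (mem_filter.1 hy).2

/-- the walk around an odd circuit -/
theorem Circ.walk_odd (hF : G.FrS z fr F jm) {C : Finset V} (hC : G.Circ fr F C)
    (ho : Odd C.card) {x : V} (hx : x ∈ C) :
    ∃ l, G.IsW (F.filter fun d => G.pi d ∈ C) x l x ∧ Odd l.length := by
  obtain ⟨a, haF, hax⟩ := hC.exists_dart hx
  obtain ⟨r, hr, hr0⟩ := exists_cyA hF.toFA hC haF (by rw [hax]; exact hx)
  have key : ∀ k : ℕ, G.IsW (F.filter fun d => G.pi d ∈ C) x
      ((List.range k).map fun i : ℕ => r (i : ZMod C.card)) (G.pi (r (k : ZMod C.card))) := by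
    intro k
    induction k with
    | zero =>
      show x = G.pi (r ((0 : ℕ) : ZMod C.card))
      rw [Nat.cast_zero, hr0, hax]
    | succ k ih =>
      rw [List.range_succ, List.map_append]
      refine ih.snoc (mem_filter.2 ⟨hr.memF _, hr.memC _⟩) ?_
      rw [hr.nxt, Nat.cast_succ]
  refine ⟨(List.range C.card).map fun i : ℕ => r (i : ZMod C.card), ?_, ?_⟩
  · have h1 := key C.card
    rw [ZMod.natCast_self, hr0, hax] at h1
    exact h1
  · rw [List.length_map, List.length_range]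
    exact ho

/-- the two colours of an even circuit -/
theorem Circ.exists_col (hF : G.FrS z fr F jm) {C : Finset V} (hC : G.Circ fr F C)
    (he : Even C.card) : ∃ c : V → Bool, ∀ d ∈ F, G.pi d ∈ C → c (G.pi (G.al d)) ≠ c (G.pi d) := by
  obtain ⟨c, hc, -⟩ := exists_alt_evenA hF.toFA hC he
  exact ⟨c, hc⟩

end MG

end RH
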