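import Pool.Agent.Lib.RH.CountK

/-! Potentials (helper63, helper78, helper52): `p = 1` at the tokens, `p u + p v = 0` on the positive
darts outside `K` and `E`, `p u + p v ≤ 0` on the darts of `K` (fresh F-darts and allowed darts of
weight 0), `p u + p v = 2` on the darts of `E`. Identities: total count, count of a perfect matching,
closed unions. -/

set_option autoImplicit false

namespace RH

open Finset Classical

namespace MG

variable {V D : Type*}

/-- potential -/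
structure Pot (G : MG V D) (z : D → ℝ) (t : V → ℝ) (K E : Finset D) (p : V → ℝ) : Prop where
  tok : ∀ v ∈ G.vs, t v ≠ 0 → p v = 1
  jq : ∀ d ∈ G.ds, 0 < z d → d ∉ K → d ∉ E → p (G.pi d) + p (G.pi (G.al d)) = 0
  kk : ∀ d ∈ K, p (G.pi d) + p (G.pi (G.al d)) ≤ 0
  ee : ∀ d ∈ E, p (G.pi d) + p (G.pi (G.al d)) = 2
  Ksub : K ⊆ G.ds
  Esub : E ⊆ G.ds

variable {G : MG V D} {z : D → ℝ} {t : V → ℝ} {fr : Finset V} {F K M E : Finset D}
variable {jm X : Finset V} {p : V → ℝ}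

/-- `K` and `E` are disjoint -/
theorem Pot.dis (h : G.Pot z t K E p) {d : D} (hd : d ∈ E) : d ∉ K := by
  intro h1
  have h2 := h.kk d h1
  rw [h.ee d hd] at h2
  norm_num at h2

/-- sums over symmetric sets of darts -/
theorem sum_symm {S : Finset D} (hS : S ⊆ G.ds) (hal : ∀ d ∈ S, G.al d ∈ S) {z : D → ℝ}
    (hz : ∀ d ∈ S, z (G.al d) = z d) (p : V → ℝ) :
    2 * ∑ d ∈ S, z d * p (G.pi d) = ∑ d ∈ S, z d * (p (G.pi d) + p (G.pi (G.al d))) := by
  have h1 : ∑ d ∈ S, z d * p (G.pi (G.al d)) = ∑ d ∈ S, z d * p (G.pi d) := by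
    refine sum_bij' (fun d _ => G.al d) (fun d _ => G.al d) ?_ ?_ ?_ ?_ ?_
    · exact fun d hd => hal d hd
    · exact fun d hd => hal d hd
    · exact fun d hd => G.al_al d (hS hd)
    · exact fun d hd => G.al_al d (hS hd)
    · intro d hd
      rw [hz d hd]
  rw [sum_congr rfl fun d _ => mul_add (z d) (p (G.pi d)) (p (G.pi (G.al d))), sum_add_distrib, h1]
  ring

/-- split of a sum over `K`, `E` and the rest -/
private theorem sum_KE (h : G.Pot z t K E p) {S : Finset D} {c : D → ℝ}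
    (hS : ∀ d ∈ S, d ∉ K → d ∉ E → c d * (p (G.pi d) + p (G.pi (G.al d))) = 0) :
    ∑ d ∈ S, c d * (p (G.pi d) + p (G.pi (G.al d))) =
      ∑ d ∈ S.filter (fun d => d ∈ K), c d * (p (G.pi d) + p (G.pi (G.al d))) +
        2 * ∑ d ∈ S.filter (fun d => d ∈ E), c d := by
  have h1 : ∑ d ∈ S.filter (fun d => d ∈ E), c d * (p (G.pi d) + p (G.pi (G.al d))) =
      2 * ∑ d ∈ S.filter (fun d => d ∈ E), c d := by
    rw [mul_sum]
    refine sum_congr rfl fun d hd => ?_
    rw [h.ee d (mem_filter.1 hd).2]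
    ring
  rw [← h1, ← sum_union]
  · symm
    refine sum_subset (union_subset (filter_subset _ _) (filter_subset _ _)) fun d hd hn => ?_
    refine hS d hd (fun h2 => hn ?_) (fun h2 => hn ?_)
    · exact mem_union_left _ (mem_filter.2 ⟨hd, h2⟩)
    · exact mem_union_right _ (mem_filter.2 ⟨hd, h2⟩)
  · rw [disjoint_left]
    intro d h2 h3
    exact h.dis (mem_filter.1 h3).2 (mem_filter.1 h2).2

/-- **total count** -/
theorem Pot.total (h : G.Pot z t K E p) (hw : G.Wt z t) :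
    6 * ∑ v ∈ G.vs, p v = ∑ d ∈ K, z d * (p (G.pi d) + p (G.pi (G.al d))) +
      2 * ∑ d ∈ E, z d + 2 * ∑ v ∈ G.vs, t v := by
  have h1 : ∑ v ∈ G.vs, p v * (∑ d ∈ G.st v, z d + t v) = 3 * ∑ v ∈ G.vs, p v := by
    rw [mul_sum]
    refine sum_congr rfl fun v hv => ?_
    rw [hw.deg v hv]
    ring
  have h2 : ∑ v ∈ G.vs, p v * (∑ d ∈ G.st v, z d + t v) =
      ∑ d ∈ G.ds, z d * p (G.pi d) + ∑ v ∈ G.vs, t v := by
    have h3 : ∑ v ∈ G.vs, p v * t v = ∑ v ∈ G.vs, t v := by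
      refine sum_congr rfl fun v hv => ?_
      by_cases h4 : t v = 0
      · rw [h4, mul_zero]
      · rw [h.tok v hv h4, one_mul]
    have h4 : ∑ v ∈ G.vs, p v * ∑ d ∈ G.st v, z d = ∑ d ∈ G.ds, z d * p (G.pi d) := by
      rw [← sum_fiberwise_of_maps_to (s := G.ds) (t := G.vs) (g := G.pi)
        (fun d hd => G.pi_mem d hd)]
      refine sum_congr rfl fun v _ => ?_
      rw [mul_sum]
      refine sum_congr rfl fun d hd => ?_
      rw [(mem_filter.1 hd).2]
      ring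
    rw [← h3, ← h4, ← sum_add_distrib]
    exact sum_congr rfl fun v _ => by ring
  have h5 := sum_symm (G := G) (Finset.Subset.refl G.ds) G.al_mem hw.sym p
  have h6 := sum_KE h (S := G.ds) (c := z) (by
    intro d hd h1 h2
    by_cases h3 : 0 < z d
    · rw [h.jq d hd h3 h1 h2, mul_zero]
    · have h4 : z d = 0 := le_antisymm (not_lt.1 h3) (hw.z0 d hd)
      rw [h4, zero_mul])
  have e1 : G.ds.filter (fun d => d ∈ K) = K := by
    ext d
    rw [mem_filter]
    exact ⟨fun k => k.2, fun k => ⟨h.Ksub k, k⟩⟩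
  have e2 : G.ds.filter (fun d => d ∈ E) = E := by
    ext d
    rw [mem_filter]
    exact ⟨fun k => k.2, fun k => ⟨h.Esub k, k⟩⟩
  rw [e1, e2] at h6
  linarith

/-- **count of a perfect matching** of allowed darts -/
theorem Pot.used (h : G.Pot z t K E p) (hM : G.IsPM M) (hMz : ∀ d ∈ M, d ∉ K → 0 < z d) :
    2 * ∑ v ∈ G.vs, p v = ∑ d ∈ M.filter (fun d => d ∈ K), (p (G.pi d) + p (G.pi (G.al d))) +
      2 * ((M.filter fun d => d ∈ E).card : ℝ) := by
  have h1 : ∑ v ∈ G.vs, p v = ∑ d ∈ M, 1 * p (G.pi d) := by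
    rw [← sum_fiberwise_of_maps_to (s := M) (t := G.vs) (g := G.pi)
      (fun d hd => G.pi_mem d (hM.sub hd))]
    refine sum_congr rfl fun v hv => ?_
    obtain ⟨x, hx⟩ := card_eq_one.1 (hM.one v hv)
    have hx' : G.pi x = v := by
      have : x ∈ M.filter fun d => G.pi d = v := by rw [hx]; exact mem_singleton_self x
      exact (mem_filter.1 this).2
    rw [hx, sum_singleton, hx', one_mul]
  have h2 := sum_symm (G := G) (z := fun _ => 1) hM.sub hM.closed (fun _ _ => rfl) p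
  have h3 := sum_KE h (S := M) (c := fun _ => 1) (by
    intro d hd h1 h2
    rw [h.jq d (hM.sub hd) (hMz d hd h1) h1 h2, mul_zero])
  rw [h1, h2, h3, sum_const, nsmul_eq_mul, mul_one]
  congr 1
  exact sum_congr rfl fun d _ => by ring

/-- **closed unions** (any star): no star vertex, no used F-dart with slack, every II-dart inside is
used -/
theorem Pot.closed (h : G.Pot z t K E p) (hF : G.FrS z fr F jm) (hFK : F ⊆ K)
    (hKF : ∀ d ∈ K, G.pi d ∈ fr → d ∈ F) (hw : G.Wt z t)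
    (hM : G.IsPM M) (hX : G.Adm fr F X) (hcl : ∀ d ∈ G.bd X, d ∈ M) :
    (∀ v ∈ X, v ∉ jm) ∧
      (∀ d ∈ F, G.pi d ∈ X → d ∈ M → p (G.pi d) + p (G.pi (G.al d)) = 0) ∧
      ∀ d ∈ E, G.pi d ∈ X → G.pi (G.al d) ∈ X → d ∈ M := by
  have h1 := hF.countK hM hX hcl p
  have hpos : ∀ d ∈ G.ds, G.pi d ∈ X → 0 < z d := fun d hd hp => by
    rw [hF.unit d hd (hX.sub hp)]
    norm_num
  have s1 := sum_symm (G := G) (S := G.uJ F M X) (z := fun _ => 1)
    (fun d hd => (mem_uJ.1 hd).1) (fun d hd => uJ_al hF hM hd) (fun _ _ => rfl) p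
  have s2 := sum_symm (G := G) (S := G.uF F M X) (z := fun _ => 1)
    (fun d hd => hM.sub (mem_uF.1 hd).1) (fun d hd => uF_al hF hM hX hd) (fun _ _ => rfl) p
  simp only [one_mul] at s1 s2
  have e1 : ∑ d ∈ G.uJ F M X, (p (G.pi d) + p (G.pi (G.al d))) =
      2 * (((G.uJ F M X).filter fun d => d ∈ E).card : ℝ) := by
    rw [← sum_filter_add_sum_filter_not (G.uJ F M X) (fun d => d ∈ E)]
    have h2 : ∑ d ∈ (G.uJ F M X).filter (fun d => d ∉ E),
        (p (G.pi d) + p (G.pi (G.al d))) = 0 := by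
      refine sum_eq_zero fun d hd => ?_
      obtain ⟨h3, h4⟩ := mem_filter.1 hd
      obtain ⟨k1, k2, k3, k4, k5⟩ := mem_uJ.1 h3
      exact h.jq d k1 (hpos d k1 k4) (fun k => k2 (hKF d k (hX.sub k4))) h4
    rw [h2, add_zero, sum_congr rfl fun d hd => h.ee d (mem_filter.1 hd).2, sum_const,
      nsmul_eq_mul, mul_comm]
  have e2 : ∑ v ∈ X ∩ jm, p v = ((X ∩ jm).card : ℝ) := by
    rw [sum_congr rfl fun v hv => h.tok v (hF.fsub (hX.sub (mem_inter.1 hv).1)) (by
      rw [hF.t_jm hw (mem_inter.1 hv).2]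
      norm_num), sum_const, nsmul_eq_mul, mul_one]
  have e3 : ∑ d ∈ G.uF F M X, (p (G.pi d) + p (G.pi (G.al d))) ≤ 0 :=
    sum_nonpos fun d hd => h.kk d (hFK (mem_uF.1 hd).2.1)
  have n1 : (0 : ℝ) ≤ (((G.uJ F M X).filter fun d => d ∈ E).card : ℝ) := Nat.cast_nonneg _
  have n2 : (0 : ℝ) ≤ ((X ∩ jm).card : ℝ) := Nat.cast_nonneg _
  rw [e2] at h1
  rw [e1] at s1
  refine ⟨?_, ?_, ?_⟩
  · intro v hv hvj
    have h2 : ((X ∩ jm).card : ℝ) = 0 := by linarith
    have h3 : X ∩ jm = ∅ := card_eq_zero.1 (by exact_mod_cast h2)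
    have h4 : v ∈ X ∩ jm := mem_inter.2 ⟨hv, hvj⟩
    rw [h3] at h4
    exact notMem_empty _ h4
  · intro d hd hp hdM
    have h2 : ∑ d ∈ G.uF F M X, (p (G.pi d) + p (G.pi (G.al d))) = 0 := by linarith
    have h3 : ∀ d ∈ G.uF F M X, 0 ≤ -(p (G.pi d) + p (G.pi (G.al d))) := fun d hd => by
      have := h.kk d (hFK (mem_uF.1 hd).2.1)
      linarith
    have h4 : ∑ d ∈ G.uF F M X, -(p (G.pi d) + p (G.pi (G.al d))) = 0 := by
      rw [sum_neg_distrib, h2, neg_zero]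
    have h5 := (sum_eq_zero_iff_of_nonneg h3).1 h4 d (mem_uF.2 ⟨hdM, hd, hp⟩)
    linarith
  · intro d hd hp hp'
    by_contra hn
    have h2 : (((G.uJ F M X).filter fun d => d ∈ E).card : ℝ) = 0 := by linarith
    have h3 : ((G.uJ F M X).filter fun d => d ∈ E) = ∅ := card_eq_zero.1 (by exact_mod_cast h2)
    have h4 : d ∈ (G.uJ F M X).filter fun d => d ∈ E := mem_filter.2 ⟨mem_uJ.2
      ⟨h.Esub hd, fun h5 => h.dis hd (hFK h5), hn, hp, hp'⟩, hd⟩
    rw [h3] at h4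
    exact notMem_empty _ h4

end MG

end RH
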