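import Pool.Agent.Lib.RH.Kill
import Pool.Agent.Lib.RH.Contr

/-! Operations on weighted graphs: the inner form of the odd set condition, mirror contraction,
vertex expansion and subdivision of an edge. -/

set_option autoImplicit false

namespace RH

open Finset Classical

namespace MG

variable {V D : Type*} {G : MG V D} {z : D → ℝ} {t : V → ℝ}

/-! ### inner form -/

/-- the sum over the darts of a set in terms of `bd` and `ed` -/
theorem sum_st (G : MG V D) (f : D → ℝ) (X : Finset V) :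
    ∑ v ∈ X, ∑ d ∈ G.st v, f d = ∑ d ∈ G.bd X, f d + ∑ d ∈ G.ed X X, f d := by
  rw [← sum_bd_ed]
  exact sum_pi_mem G G.ds f X

/-- the value of a set if only the vertex sums are known -/
theorem val_of_deg (hdeg : ∀ v ∈ G.vs, ∑ d ∈ G.st v, z d + t v = 3) {X : Finset V}
    (hX : X ⊆ G.vs) : G.val z t X = 3 * X.card - ∑ d ∈ G.ed X X, z d := by
  have h1 : ∑ v ∈ X, (∑ d ∈ G.st v, z d + t v) = 3 * (X.card : ℝ) := by
    rw [sum_congr rfl fun v hv => hdeg v (hX hv), sum_const, nsmul_eq_mul, mul_comm]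
  rw [sum_add_distrib, sum_st] at h1
  unfold val
  linarith

/-- weights from the inner form -/
theorem Wt.of_ed (z0 : ∀ d ∈ G.ds, 0 ≤ z d) (t0 : ∀ v ∈ G.vs, 0 ≤ t v)
    (sym : ∀ d ∈ G.ds, z (G.al d) = z d) (hdeg : ∀ v ∈ G.vs, ∑ d ∈ G.st v, z d + t v = 3)
    (hodd : ∀ S ⊆ G.vs, Odd S.card → ∑ d ∈ G.ed S S, z d ≤ 3 * S.card - 3) : G.Wt z t := by
  refine ⟨z0, t0, sym, hdeg, fun X hX ho => ?_⟩
  rw [val_of_deg hdeg hX]
  have := hodd X hX ho
  linarith

theorem Wt.ed_odd (h : G.Wt z t) {S : Finset V} (hS : S ⊆ G.vs) (ho : Odd S.card) :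
    ∑ d ∈ G.ed S S, z d ≤ 3 * S.card - 3 := by
  have h1 := h.cut S hS ho
  rw [h.val_eq hS] at h1
  linarith

theorem Wt.ed_le (h : G.Wt z t) {S : Finset V} (hS : S ⊆ G.vs) :
    ∑ d ∈ G.ed S S, z d ≤ 3 * S.card := by
  have h1 := h.val_nonneg hS
  rw [h.val_eq hS] at h1
  linarith

/-- the sum of all tokens -/
theorem Wt.tau_eq (h : G.Wt z t) : ∑ v ∈ G.vs, t v = 3 * G.vs.card - ∑ d ∈ G.ds, z d := by
  have h1 : ∑ v ∈ G.vs, (∑ d ∈ G.st v, z d + t v) = 3 * (G.vs.card : ℝ) := by
    rw [sum_congr rfl fun v hv => h.deg v hv, sum_const, nsmul_eq_mul, mul_comm]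
  have h2 : ∑ v ∈ G.vs, ∑ d ∈ G.st v, z d = ∑ d ∈ G.ds, z d := by
    rw [← sum_fiberwise_of_maps_to (s := G.ds) (t := G.vs) (g := G.pi) fun d hd => G.pi_mem d hd]
    rfl
  rw [sum_add_distrib, h2] at h1
  linarith

/-- reindexing by `al` -/
theorem sum_al (hs : ∀ d ∈ G.ds, z (G.al d) = z d) (p : D → Prop) :
    ∑ d ∈ G.ds.filter (fun d => p (G.al d)), z d = ∑ d ∈ G.ds.filter (fun d => p d), z d := by
  refine sum_bij (fun d _ => G.al d) ?_ ?_ ?_ ?_
  · intro d hd
    obtain ⟨h1, h2⟩ := mem_filter.1 hd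
    exact mem_filter.2 ⟨G.al_mem d h1, h2⟩
  · intro d hd e he hde
    have h1 := G.al_al d (mem_filter.1 hd).1
    have h2 := G.al_al e (mem_filter.1 he).1
    have hde' : G.al d = G.al e := hde
    rw [← h1, hde', h2]
  · intro d hd
    obtain ⟨h1, h2⟩ := mem_filter.1 hd
    refine ⟨G.al d, mem_filter.2 ⟨G.al_mem d h1, ?_⟩, G.al_al d h1⟩
    rw [G.al_al d h1]
    exact h2
  · intro d hd
    exact (hs d (mem_filter.1 hd).1).symm

theorem sum_al' (f : D → ℝ) : ∑ d ∈ G.ds, f (G.al d) = ∑ d ∈ G.ds, f d := by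
  refine sum_bij (fun d _ => G.al d) ?_ ?_ ?_ ?_
  · intro d hd
    exact G.al_mem d hd
  · intro d hd e he hde
    have h1 := G.al_al d hd
    have h2 := G.al_al e he
    have hde' : G.al d = G.al e := hde
    rw [← h1, hde', h2]
  · intro d hd
    exact ⟨G.al d, G.al_mem d hd, G.al_al d hd⟩
  · intro d _
    rfl

/-! ### contraction of the complement of a tight set -/

variable {W U : Finset V} {ω : V}

/-- tokens if the complement of `U` is tight and `U` is contracted -/
noncomputable def tmir (G : MG V D) (t : V → ℝ) (U : Finset V) (ω : V) (v : V) : ℝ :=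
  if v = ω then ∑ u ∈ G.vs \ U, t u else t v

theorem Wt.mir (hω : ω ∈ U) (hU : U ⊆ G.vs) (h : G.Wt z t) (ho : Odd (G.vs \ U).card)
    (h3 : G.val z t (G.vs \ U) = 3) : (G.con U ω hω hU).Wt z (G.tmir t U ω) where
  z0 := fun d hd => h.z0 d (mem_of_mem_filter d hd)
  t0 := by
    intro v hv
    unfold tmir
    split_ifs with h1
    · exact sum_nonneg fun u hu => h.t0 u (mem_sdiff.1 hu).1
    · have := con_vs_mem hω hU (X := (G.con U ω hω hU).vs) (Finset.Subset.refl _) hv
      exact h.t0 v (this.resolve_right h1).1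
  sym := fun d hd => h.sym d (mem_of_mem_filter d hd)
  deg := by
    intro v hv
    have hv' := con_vs_mem hω hU (X := (G.con U ω hω hU).vs) (Finset.Subset.refl _) hv
    unfold tmir
    by_cases h1 : v = ω
    · subst h1
      rw [con_st_omega hω hU, if_pos rfl]
      have h4 : ∑ d ∈ G.bd (G.vs \ U), z d = ∑ d ∈ G.bd U, z d := by
        rw [bd_eq_ed, bd_eq_ed, Finset.sdiff_sdiff_eq_self hU, h.ed_symm]
      unfold val at h3
      rw [h4] at h3
      exact h3
    · have h2 := hv'.resolve_right h1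
      rw [con_st hω hU h1 h2.2, if_neg h1]
      exact h.deg v h2.1
  cut := by
    intro X hX hodd
    have hbd := con_bd hω hU hX
    by_cases hx : ω ∈ X
    · have hT : X.erase ω ⊆ G.vs \ U := by
        intro v hv
        obtain ⟨h5, h6⟩ := mem_erase.1 hv
        rcases con_vs_mem hω hU hX h6 with h7 | h7
        · exact mem_sdiff.2 h7
        · exact absurd h7 h5
      have hc : (X.erase ω).card + 1 = X.card := card_erase_add_one hx
      have h6 : Odd ((G.vs \ U) \ X.erase ω).card := by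
        have h8 := card_sdiff_add_card_eq_card hT
        rw [Nat.odd_iff] at ho hodd ⊢
        omega
      have h7 := h.cut _ (sdiff_subset.trans sdiff_subset) h6
      have h8 : G.vs \ pre U ω X = (G.vs \ U) \ X.erase ω := by
        rw [pre_eq_union hω hx]
        ext v
        simp only [mem_sdiff, mem_union, mem_erase]
        tauto
      have h9 : ∑ d ∈ G.bd (pre U ω X), z d = ∑ d ∈ G.bd ((G.vs \ U) \ X.erase ω), z d := by
        rw [← h8, bd_eq_ed, bd_eq_ed, Finset.sdiff_sdiff_eq_self (pre_sub hω hU hX), h.ed_symm]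
      have h10 : ∑ v ∈ X, G.tmir t U ω v = ∑ v ∈ X.erase ω, t v + ∑ v ∈ G.vs \ U, t v := by
        rw [← sum_erase_add X _ hx]
        congr 1
        · refine sum_congr rfl fun v hv => ?_
          unfold tmir
          rw [if_neg (mem_erase.1 hv).1]
        · unfold tmir
          rw [if_pos rfl]
      have h11 := sum_sdiff hT (f := t)
      have h12 : 0 ≤ ∑ v ∈ X.erase ω, t v :=
        sum_nonneg fun v hv => h.t0 v (mem_sdiff.1 (hT hv)).1
      unfold val at h7 ⊢
      rw [hbd, h9, h10]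
      linarith
    · have h4 : pre U ω X = X := by unfold pre; rw [if_neg hx]
      have h5 : ∑ v ∈ X, G.tmir t U ω v = ∑ v ∈ X, t v := by
        refine sum_congr rfl fun v hv => ?_
        unfold tmir
        rw [if_neg (show ¬ v = ω from fun e => hx (e ▸ hv))]
      unfold val
      rw [hbd, h4, h5]
      refine h.cut X (fun v hv => ?_) hodd
      rcases con_vs_mem hω hU hX hv with h7 | h7
      · exact h7.1
      · exact absurd (h7 ▸ hv) hx

theorem mir_tau (hω : ω ∈ U) (hU : U ⊆ G.vs) :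
    ∑ v ∈ (G.con U ω hω hU).vs, G.tmir t U ω v = 2 * ∑ v ∈ G.vs \ U, t v := by
  have h1 : (G.con U ω hω hU).vs = (G.vs \ U) ∪ {ω} := rfl
  have h2 : Disjoint (G.vs \ U) {ω} := by
    rw [disjoint_singleton_right]
    exact fun h => (mem_sdiff.1 h).2 hω
  rw [h1, sum_union h2, sum_singleton]
  have h3 : ∑ v ∈ G.vs \ U, G.tmir t U ω v = ∑ v ∈ G.vs \ U, t v := by
    refine sum_congr rfl fun v hv => ?_
    unfold tmir
    rw [if_neg (show ¬ v = ω from fun e => (mem_sdiff.1 hv).2 (e ▸ hω))]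
  rw [h3]
  unfold tmir
  rw [if_pos rfl]
  ring

/-- a set `T` in a tight odd set `W`: the units leaving `W` are at most half the value -/
theorem Wt.mirror (h : G.Wt z t) (hW : W ⊆ G.vs) (hWo : Odd W.card) (h3 : G.val z t W = 3)
    {T : Finset V} (hT : T ⊆ W) (he : Even T.card) :
    2 * ∑ d ∈ G.ed T (G.vs \ W), z d + 2 * ∑ v ∈ T, t v ≤ G.val z t T := by
  have hTs := hT.trans hW
  have h1 := h.posimod (X := W) (Y := T) hW hTs
  have h2 : W ∩ T = T := inter_eq_right.2 hT
  have h4 : T \ W = ∅ := sdiff_eq_empty_iff_subset.2 hT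
  have h5 : W ∪ T = W := union_eq_left.2 hT
  rw [h2, h4, h5] at h1
  have h6 : G.val z t ∅ = 0 := by
    unfold val bd
    simp
  have h7 : Odd (W \ T).card := by
    have h8 := card_sdiff_add_card_eq_card hT
    rw [Nat.odd_iff] at hWo ⊢
    rw [Nat.even_iff] at he
    omega
  have h8 := h.cut (W \ T) (sdiff_subset.trans hW) h7
  linarith

end MG

end RH
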