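import Pool.Agent.Lib.RH.MC
import Pool.Agent.Lib.RH.SOps

/-! The nontrivial tight sets of a minimal counterexample without star: `Dig` (a fresh vertex whose
third unit is a bundle) and `Cap` (almost the complement of a vertex with half of the tokens).
Their values for every weight and every direction. -/

set_option autoImplicit false

namespace RH

open Finset Classical

namespace MG

variable {V D : Type*}

/-- `W = {x, p, q}`: `x` is fresh, its J-edge goes to `p`, all other support edges of `p` go to `q`,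
no token at `p` -/
structure Dig (G : MG V D) (z : D → ℝ) (t : V → ℝ) (fr W : Finset V) (x p q : V) : Prop where
  xf : x ∈ fr
  pf : p ∉ fr
  qf : q ∉ fr
  pq : p ≠ q
  W : W = {x, p, q}
  xp : ∃ d ∈ G.ds, G.pi d = x ∧ G.pi (G.al d) = p
  xq : ∀ d ∈ G.ds, G.pi d = x → G.pi (G.al d) ≠ q
  nb : ∀ d ∈ G.ds, G.pi d = p → z d ≠ 0 → G.pi (G.al d) = x ∨ G.pi (G.al d) = q
  tp : t p = 0

/-- `vs \ W = {u, a, b}`: `u` is fresh, its J-edge goes to `a`, there are no other support edges at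
`a`, half of the tokens at `b` -/
structure Cap (G : MG V D) (z : D → ℝ) (t : V → ℝ) (fr W : Finset V) (u a b : V) : Prop where
  uf : u ∈ fr
  af : a ∉ fr
  bf : b ∉ fr
  ab : a ≠ b
  U : G.vs \ W = {u, a, b}
  ua : ∃ d ∈ G.ds, G.pi d = u ∧ G.pi (G.al d) = a
  ub : ∀ d ∈ G.ds, G.pi d = u → G.pi (G.al d) ≠ b
  nb : ∀ d ∈ G.ds, G.pi d = a → z d ≠ 0 → G.pi (G.al d) = u
  tb : 2 * t b = ∑ v ∈ G.vs, t v

/-- the nontrivial tight sets of all weights -/
def TightList (G : MG V D) (z : D → ℝ) (fr : Finset V) : Prop :=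
  ∀ z' t', G.Alt z fr z' t' → ∀ W ⊆ G.vs, Odd W.card → G.val z' t' W = 3 → 3 ≤ W.card →
    3 ≤ (G.vs \ W).card → (∃ x p q, G.Dig z' t' fr W x p q) ∨ ∃ u a b, G.Cap z' t' fr W u a b

variable {G : MG V D} {z z' : D → ℝ} {t t' : V → ℝ} {fr W : Finset V} {a : D → ℝ} {b : V → ℝ}
variable {x p q u v w : V}

/-- all edges inside `W` are the edges at `p` -/
theorem ed_star (hs : ∀ d ∈ G.ds, a (G.al d) = a d) (hp : p ∈ W)
    (h1 : ∀ d ∈ G.ds, G.pi d = p → a d ≠ 0 → G.pi (G.al d) ∈ W)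
    (h2 : ∀ d ∈ G.ds, G.pi d ∈ W → G.pi (G.al d) ∈ W → G.pi d ≠ p → G.pi (G.al d) ≠ p → a d = 0) :
    ∑ d ∈ G.ed W W, a d = 2 * ∑ d ∈ G.st p, a d := by
  have e1 : ∑ d ∈ G.st p, a d = ∑ d ∈ G.ds, if G.pi d = p then a d else 0 := by
    unfold st
    rw [sum_filter]
  have e2 : ∑ d ∈ G.ds, (if G.pi (G.al d) = p then a (G.al d) else 0) =
      ∑ d ∈ G.ds, if G.pi d = p then a d else 0 :=
    sum_al' (G := G) fun d => if G.pi d = p then a d else 0
  have e3 : ∑ d ∈ G.ed W W, a d = ∑ d ∈ G.ds,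
      ((if G.pi d = p then a d else 0) + if G.pi (G.al d) = p then a (G.al d) else 0) := by
    unfold ed
    rw [sum_filter]
    refine sum_congr rfl fun d hd => ?_
    have hne := G.noloop d hd
    by_cases c1 : G.pi d = p
    · have c2 : G.pi (G.al d) ≠ p := fun h => hne (h.trans c1.symm)
      rw [if_pos c1, if_neg c2, add_zero]
      by_cases c3 : G.pi (G.al d) ∈ W
      · rw [if_pos ⟨c1 ▸ hp, c3⟩]
      · rw [if_neg fun h => c3 h.2]
        by_contra h
        exact c3 (h1 d hd c1 (Ne.symm h))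
    · rw [if_neg c1, zero_add]
      by_cases c2 : G.pi (G.al d) = p
      · rw [if_pos c2]
        by_cases c3 : G.pi d ∈ W
        · rw [if_pos ⟨c3, c2 ▸ hp⟩, hs d hd]
        · rw [if_neg fun h => c3 h.1]
          by_contra h
          have h3 := h1 (G.al d) (G.al_mem d hd) c2 (Ne.symm h)
          rw [G.al_al d hd] at h3
          exact c3 h3
      · rw [if_neg c2]
        by_cases c3 : G.pi d ∈ W ∧ G.pi (G.al d) ∈ W
        · rw [if_pos c3]
          exact h2 d hd c3.1 c3.2 c1 c2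
        · rw [if_neg c3]
  rw [e3, sum_add_distrib, e2, e1]
  ring

/-- the edges inside a digon set -/
theorem Dig.ed (h : G.Dig z t fr W x p q) (hs : ∀ d ∈ G.ds, a (G.al d) = a d)
    (h0 : ∀ d ∈ G.ds, z d = 0 → a d = 0) : ∑ d ∈ G.ed W W, a d = 2 * ∑ d ∈ G.st p, a d := by
  have hW := h.W
  refine ed_star hs (by rw [hW]; simp) ?_ ?_
  · intro d hd hp ha
    have h1 := h.nb d hd hp fun h2 => ha (h0 d hd h2)
    rw [hW]
    rcases h1 with h1 | h1
    · rw [h1]; simp
    · rw [h1]; simp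
  · intro d hd h1 h2 h3 h4
    exfalso
    rw [hW] at h1 h2
    simp only [mem_insert, mem_singleton] at h1 h2
    have hne := G.noloop d hd
    have haa := G.al_al d hd
    have had := G.al_mem d hd
    rcases h1 with h1 | h1 | h1
    · rcases h2 with h2 | h2 | h2
      · exact hne (h2.trans h1.symm)
      · exact h4 h2
      · exact h.xq d hd h1 h2
    · exact h3 h1
    · rcases h2 with h2 | h2 | h2
      · exact h.xq (G.al d) had h2 (by rw [haa]; exact h1)
      · exact h4 h2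
      · exact hne (h2.trans h1.symm)

/-- the value of a digon set for a direction -/
theorem Dig.val_dir (h : G.Dig z t fr W x p q) (hW : W ⊆ G.vs)
    (hs : ∀ d ∈ G.ds, a (G.al d) = a d) (h0 : ∀ d ∈ G.ds, z d = 0 → a d = 0)
    (hdeg : ∀ v ∈ G.vs, ∑ d ∈ G.st v, a d + b v = 0) : G.val a b W = 2 * b p := by
  have hp : p ∈ W := by rw [h.W]; simp
  have h1 := hdeg p (hW hp)
  rw [pert_val a b hdeg hW, h.ed hs h0]
  linarith

/-- the value of a digon set for a weight (no cut conditions needed) -/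
theorem Dig.val_wt (h : G.Dig z t fr W x p q) (hW : W ⊆ G.vs)
    (hs : ∀ d ∈ G.ds, z' (G.al d) = z' d) (h0 : ∀ d ∈ G.ds, z d = 0 → z' d = 0)
    (hdeg : ∀ v ∈ G.vs, ∑ d ∈ G.st v, z' d + t' v = 3) : G.val z' t' W = 3 + 2 * t' p := by
  have hp : p ∈ W := by rw [h.W]; simp
  have h1 := hdeg p (hW hp)
  have h2 : W.card = 3 := by
    rw [h.W, card_insert_of_notMem, card_pair h.pq]
    rw [mem_insert, mem_singleton, not_or]
    exact ⟨fun h3 => h.pf (h3 ▸ h.xf), fun h3 => h.qf (h3 ▸ h.xf)⟩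
  rw [val_of_deg hdeg hW, h.ed hs h0, h2]
  push_cast
  linarith

/-- the edges inside the complement of a capped set -/
theorem Cap.ed (h : G.Cap z t fr W u v w) (hs : ∀ d ∈ G.ds, a (G.al d) = a d)
    (h0 : ∀ d ∈ G.ds, z d = 0 → a d = 0) :
    ∑ d ∈ G.ed (G.vs \ W) (G.vs \ W), a d = 2 * ∑ d ∈ G.st v, a d := by
  have hW := h.U
  rw [hW]
  refine ed_star hs (by simp) ?_ ?_
  · intro d hd hp ha
    have h1 := h.nb d hd hp fun h2 => ha (h0 d hd h2)
    rw [h1]; simp
  · intro d hd h1 h2 h3 h4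
    by_contra ha
    simp only [mem_insert, mem_singleton] at h1 h2
    have hne := G.noloop d hd
    have haa := G.al_al d hd
    have had := G.al_mem d hd
    rcases h1 with h1 | h1 | h1
    · rcases h2 with h2 | h2 | h2
      · exact hne (h2.trans h1.symm)
      · exact h4 h2
      · exact h.ub d hd h1 h2
    · exact h3 h1
    · rcases h2 with h2 | h2 | h2
      · exact h.ub (G.al d) had h2 (by rw [haa]; exact h1)
      · exact h4 h2
      · exact hne (h2.trans h1.symm)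

theorem Cap.sum_U (h : G.Cap z t fr W u v w) (f : V → ℝ) :
    ∑ y ∈ G.vs \ W, f y = f u + f v + f w := by
  have h1 : u ≠ v := fun h3 => h.af (h3 ▸ h.uf)
  have h2 : u ≠ w := fun h3 => h.bf (h3 ▸ h.uf)
  rw [h.U, sum_insert, sum_pair h.ab, add_assoc]
  rw [mem_insert, mem_singleton, not_or]
  exact ⟨h1, h2⟩

/-- the value of a capped set for a direction -/
theorem Cap.val_dir (h : G.Cap z t fr W u v w) (hW : W ⊆ G.vs)
    (hs : ∀ d ∈ G.ds, a (G.al d) = a d) (h0 : ∀ d ∈ G.ds, z d = 0 → a d = 0)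
    (hdeg : ∀ y ∈ G.vs, ∑ d ∈ G.st y, a d + b y = 0) :
    G.val a b W = ∑ y ∈ G.vs, b y - 2 * b w - 2 * b u := by
  have hv : v ∈ G.vs := by
    have h1 : v ∈ G.vs \ W := by rw [h.U]; simp
    exact (mem_sdiff.1 h1).1
  have h1 := hdeg v hv
  have h2 := h.ed hs h0
  have h3 := pert_val a b hdeg (sdiff_subset : G.vs \ W ⊆ G.vs)
  have h4 := h.sum_U b
  have h5 : ∑ d ∈ G.bd (G.vs \ W), a d = ∑ d ∈ G.bd W, a d := by
    have h6 : ∀ X : Finset V, ∑ d ∈ G.bd X, a d = ∑ d ∈ G.ds,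
        if G.pi d ∈ X ∧ G.pi (G.al d) ∉ X then a d else 0 := fun X => by
      unfold bd
      rw [sum_filter]
    rw [h6, h6, ← sum_al' (G := G) fun d => if G.pi d ∈ W ∧ G.pi (G.al d) ∉ W then a d else 0]
    refine sum_congr rfl fun d hd => ?_
    show _ = if G.pi (G.al d) ∈ W ∧ G.pi (G.al (G.al d)) ∉ W then a (G.al d) else 0
    rw [G.al_al d hd, hs d hd]
    refine if_congr ?_ rfl rfl
    rw [mem_sdiff, mem_sdiff]
    have h7 := G.pi_mem d hd
    have h8 := G.pi_mem _ (G.al_mem d hd)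
    tauto
  have h6 := sum_sdiff hW (f := b)
  unfold val at h3 ⊢
  rw [h5] at h3
  linarith

/-- ATOM (with star): the complement of `W` is a vertex `y` outside `fr` with half of the tokens and
fresh vertices -/
structure Atom (G : MG V D) (t : V → ℝ) (fr W : Finset V) (y : V) : Prop where
  yv : y ∈ G.vs
  yf : y ∉ fr
  yW : y ∉ W
  sub : ∀ v ∈ G.vs, v ∉ W → v ≠ y → v ∈ fr
  ty : 2 * t y = ∑ v ∈ G.vs, t v

/-- the value of an atom set for a direction which is zero at fresh darts -/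
theorem Atom.val_dir {y : V} (h : G.Atom t fr W y) (hW : W ⊆ G.vs)
    (hs : ∀ d ∈ G.ds, a (G.al d) = a d) (h0 : ∀ d ∈ G.ds, G.pi d ∈ fr → a d = 0)
    (hdeg : ∀ y ∈ G.vs, ∑ d ∈ G.st y, a d + b y = 0) :
    G.val a b W = ∑ y ∈ G.vs, b y - 2 * b y := by
  have hb : ∀ v ∈ G.vs, v ∈ fr → b v = 0 := by
    intro v hv hf
    have h1 := hdeg v hv
    rw [sum_eq_zero fun d hd => h0 d (mem_st.1 hd).1 (by rw [(mem_st.1 hd).2]; exact hf),
      zero_add] at h1
    exact h1
  have h3 := pert_val a b hdeg (sdiff_subset : G.vs \ W ⊆ G.vs)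
  have h2 : ∑ d ∈ G.ed (G.vs \ W) (G.vs \ W), a d = 0 := by
    refine sum_eq_zero fun d hd => ?_
    obtain ⟨k1, k2, k3⟩ := mem_ed.1 hd
    obtain ⟨k4, k5⟩ := mem_sdiff.1 k2
    obtain ⟨k6, k7⟩ := mem_sdiff.1 k3
    by_cases k8 : G.pi d = y
    · rw [← hs d k1]
      refine h0 _ (G.al_mem d k1) (h.sub _ k6 k7 ?_)
      exact fun k9 => G.noloop d k1 (k9.trans k8.symm)
    · exact h0 d k1 (h.sub _ k4 k5 k8)
  have h4 : ∑ v ∈ G.vs \ W, b v = b y := by
    rw [sum_eq_single_of_mem y (mem_sdiff.2 ⟨h.yv, h.yW⟩)]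
    intro v hv hne
    obtain ⟨k1, k2⟩ := mem_sdiff.1 hv
    exact hb v k1 (h.sub v k1 k2 hne)
  have h5 : ∑ d ∈ G.bd (G.vs \ W), a d = ∑ d ∈ G.bd W, a d := by
    have h6 : ∀ X : Finset V, ∑ d ∈ G.bd X, a d = ∑ d ∈ G.ds,
        if G.pi d ∈ X ∧ G.pi (G.al d) ∉ X then a d else 0 := fun X => by
      unfold bd
      rw [sum_filter]
    rw [h6, h6, ← sum_al' (G := G) fun d => if G.pi d ∈ W ∧ G.pi (G.al d) ∉ W then a d else 0]
    refine sum_congr rfl fun d hd => ?_
    show _ = if G.pi (G.al d) ∈ W ∧ G.pi (G.al (G.al d)) ∉ W then a (G.al d) else 0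
    rw [G.al_al d hd, hs d hd]
    refine if_congr ?_ rfl rfl
    rw [mem_sdiff, mem_sdiff]
    have h7 := G.pi_mem d hd
    have h8 := G.pi_mem _ (G.al_mem d hd)
    tauto
  have h6 := sum_sdiff hW (f := b)
  unfold val at h3 ⊢
  rw [h5, h2] at h3
  linarith

end MG

end RH
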