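import Pool.Agent.Lib.RH.MFree
import Pool.Agent.Lib.RH.SGrow
import Pool.Agent.Lib.RH.SCap0
import Pool.Agent.Lib.RH.MConn
import Pool.Agent.Lib.RH.Pot

/-! A-type minimal counterexamples (helper25, helper47): star-free, 4 tokens, every perfect matching
of the support uses all J-darts inside its closed unions (for example because every J-dart between
fresh vertices has a potential, `MG.Pot`). There are none. -/

set_option autoImplicit false

namespace RH

open Finset Classical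

namespace MG

variable {V D : Type*} {G : MG V D} {z : D → ℝ} {t : V → ℝ} {fr : Finset V} {F : Finset D}
variable {jm sx : Finset V} {ep : V → ℕ} {m : ℕ} {M : Finset D}

/-- a union which meets a circuit contains it -/
theorem Circ.sub_of_meet {C X : Finset V} (hC : G.Circ fr F C) (hX : G.Adm fr F X) {v : V}
    (hv : v ∈ X) (hvC : v ∈ C) : C ⊆ X := by
  have h1 := hC.min (X ∩ C) (hX.inter hC.adm) inter_subset_right ⟨v, mem_inter.2 ⟨hv, hvC⟩⟩
  rw [← h1]
  exact inter_subset_left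

/-- KILL AND ABSORB: the edges of `S` (weight 1) are killed with tokens at their ends, the union `Y`
is absorbed, a direction lowers the number of tokens; the induction hypothesis gives a matching
which avoids `S` and hits all odd unions disjoint from `Y` -/
theorem MCS.kill_abs (h : G.MCS z t fr F ∅ ∅ ep m) {Y : Finset V} (hY : G.Adm fr F Y)
    (hne : Y.Nonempty) {S : Finset D} (hS : S ⊆ G.ds) (hal : ∀ d ∈ S, G.al d ∈ S)
    (hS1 : ∀ d ∈ S, z d = 1) (htau : ∑ v ∈ G.vs, t v + S.card ≤ 6)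
    (hSfr : ∀ d ∈ S, G.pi d ∉ fr \ Y)
    (a : D → ℝ) (b : V → ℝ)
    (hsym : ∀ d ∈ G.ds, a (G.al d) = a d)
    (hdeg : ∀ v ∈ G.vs, ∑ d ∈ G.st v, a d + b v = 0)
    (hafr : ∀ d ∈ G.ds, G.pi d ∈ fr \ Y → a d = 0)
    (haS : ∀ d ∈ S, a d = 0) (haz : ∀ d ∈ G.ds, z d = 0 → a d = 0)
    (hb : ∀ v ∈ G.vs, kt G z t S v = 0 → 0 ≤ b v)
    (hcut : ∀ X ⊆ G.vs, Odd X.card → G.val z t X = 3 → (∀ d ∈ G.ed X X, d ∉ S) →
      ∑ d ∈ G.ed X X, a d ≤ 0)
    (hneg : ∑ v ∈ G.vs, b v < 0) :
    ∃ M, G.IsPM M ∧ (∀ d ∈ M, 0 < z d) ∧ (∀ d ∈ S, d ∉ M) ∧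
      ∀ X, G.Adm fr F X → Disjoint X Y → Odd X.card → ∃ d ∈ G.bd X, d ∉ M := by
  have hw := h.inst.wt
  have hw1 := hw.kill hS hal
  have hz1 : ∀ d ∈ G.ds, kz z S d = 0 → 0 ≤ a d := by
    intro d hd h0
    by_cases hdS : d ∈ S
    · exact (haS d hdS).ge
    · have : z d = 0 := by
        unfold kz at h0
        rwa [if_neg hdS] at h0
      exact (haz d hd this).ge
  have hc1 : ∀ X ⊆ G.vs, Odd X.card → G.val (kz z S) (kt G z t S) X = 3 →
      0 ≤ G.val a b X := by
    intro X hX ho hv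
    rw [kill_val hw hS hal hX] at hv
    have h1 := hw.cut X hX ho
    have h2 : ∀ d ∈ (G.ed X X).filter fun d => d ∈ S, 0 ≤ z d := fun d hd =>
      hw.z0 d (hS (Finset.mem_filter.1 hd).2)
    have h3 := Finset.sum_nonneg h2
    have h4 : ∑ d ∈ (G.ed X X).filter fun d => d ∈ S, z d = 0 := by linarith
    have h5 := (Finset.sum_eq_zero_iff_of_nonneg h2).1 h4
    have h6 : ∀ d ∈ G.ed X X, d ∉ S := by
      intro d hd hdS
      have := h5 d (Finset.mem_filter.2 ⟨hd, hdS⟩)
      rw [hS1 d hdS] at this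
      exact one_ne_zero this
    have h7 := hcut X hX ho (by linarith) h6
    rw [pert_val a b hdeg hX]
    linarith
  obtain ⟨ε, hε, H⟩ := hw1.pert a b hsym hdeg hz1 hb hc1
  have hW := H ε hε.le le_rfl
  have hlt : (fr \ Y).card < fr.card := card_lt_card (sdiff_ssubset hY.sub hne)
  have hcl : ∀ d ∈ F, G.pi d ∈ fr \ Y → G.pi (G.al d) ∈ fr \ Y :=
    (h.inst.fresh.adm_compl hY).clo
  have hI := h.inst.absorb (fr1 := fr \ Y) sdiff_subset hcl
    (Or.inl ⟨empty_subset _, empty_subset _, rfl, rfl⟩)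
  have hS0 : ∀ d ∈ S, kz z S d + ε * a d = 0 := by
    intro d hdS
    rw [haS d hdS, mul_zero, add_zero]
    unfold kz
    rw [if_pos hdS]
  have hsupp : ∀ d ∈ G.ds, z d = 0 → kz z S d + ε * a d = 0 := by
    intro d hd hz
    rw [haz d hd hz, mul_zero, add_zero]
    unfold kz
    rw [hz]
    simp
  have hA : G.Alt z (fr \ Y) (fun d => kz z S d + ε * a d) (fun v => kt G z t S v + ε * b v) := by
    refine ⟨hW, ?_, hsupp, ?_⟩
    · rw [Finset.sum_add_distrib, ← Finset.mul_sum, kill_tau hw hS hal]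
      have h1 : ∑ d ∈ S, z d = S.card := by
        rw [Finset.sum_congr rfl hS1]
        simp
      rw [h1]
      have h2 := mul_neg_of_pos_of_neg hε hneg
      linarith
    · intro d hd hp
      show kz z S d + ε * a d = 1
      have h1 : d ∉ S := fun hdS => hSfr d hdS hp
      rw [hafr d hd hp, mul_zero, add_zero]
      unfold kz
      rw [if_neg h1]
      exact h.inst.fresh.unit d hd (mem_sdiff.1 hp).1
  obtain ⟨M, hM⟩ := h.ih G _ _ (fr \ Y) (F.filter fun d => G.pi d ∈ fr \ Y) ∅ ∅ ep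
    (Or.inl hlt) (hA.inst hI)
  refine ⟨M, hM.pm, fun d hd => ?_, fun d hdS hd => ?_, fun X hX hXY hO =>
    hM.hit X (Adm.ab_iff.2 ⟨hX, hXY⟩) (Or.inl hO)⟩
  · have h1 : 0 < kz z S d + ε * a d := hM.pos d hd
    rcases (hw.z0 d (hM.pm.sub hd)).lt_or_eq with h2 | h2
    · exact h2
    · rw [hsupp d (hM.pm.sub hd) h2.symm] at h1
      exact absurd h1 (lt_irrefl _)
  · have h1 : 0 < kz z S d + ε * a d := hM.pos d hd
    rw [hS0 d hdS] at h1
    exact absurd h1 (lt_irrefl _)

/-- every J-dart inside a closed union is used -/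
def Full (G : MG V D) (z : D → ℝ) (fr : Finset V) (F : Finset D) : Prop :=
  ∀ M, G.IsPM M → (∀ d ∈ M, 0 < z d) → ∀ X, G.Adm fr F X → (∀ d ∈ G.bd X, d ∈ M) →
    ∀ g ∈ G.ds, g ∉ F → G.pi g ∈ X → G.pi (G.al g) ∈ X → g ∈ M

/-- parts of a closed union are closed -/
theorem Full.part (hf : G.Full z fr F) (hM : G.IsPM M) (hpos : ∀ d ∈ M, 0 < z d) {X Z : Finset V}
    (hX : G.Adm fr F X) (hcl : ∀ d ∈ G.bd X, d ∈ M) (hZ : G.Adm fr F Z) (hZX : Z ⊆ X) :
    ∀ d ∈ G.bd Z, d ∈ M := by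
  intro d hd
  obtain ⟨h1, h2, h3⟩ := mem_bd.1 hd
  by_cases h4 : G.pi (G.al d) ∈ X
  · exact hf M hM hpos X hX hcl d h1 (fun h5 => h3 (hZ.clo d h5 h2)) (hZX h2) h4
  · exact hcl d (mem_bd.2 ⟨h1, hZX h2, h4⟩)

/-- no even circuit -/
theorem Full.odd (hf : G.Full z fr F) (h : G.MCS z t fr F ∅ ∅ ep m) {C : Finset V}
    (hC : G.Circ fr F C) : Odd C.card := by
  by_contra hev
  rw [Nat.not_odd_iff_even] at hev
  obtain ⟨M, h1, h2, h3, X, hX, ⟨v, hv⟩, hO, hcl⟩ := h.absorb hC.adm hC.ne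
    (Or.inl ⟨disjoint_empty_right _, disjoint_empty_right _⟩)
  rcases hO with hO | ⟨⟨w, hw⟩, -⟩
  · have hCX := hC.sub_of_meet hX (mem_inter.1 hv).1 (mem_inter.1 hv).2
    have hZ : G.Adm fr F (X \ C) := by
      refine ⟨sdiff_subset.trans hX.sub, fun d hd hp => ?_⟩
      obtain ⟨p1, p2⟩ := mem_sdiff.1 hp
      refine mem_sdiff.2 ⟨hX.clo d hd p1, fun h4 => p2 ?_⟩
      have h5 := hC.adm.clo _ (h.inst.fresh.Fal d hd) h4
      rwa [G.al_al d (h.inst.fresh.Fsub hd)] at h5
    have h5 := hf.part h1 h2 hX hcl hZ sdiff_subset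
    have h6 : Odd (X \ C).card := by
      have h7 := card_sdiff_add_card_eq_card hCX
      obtain ⟨k, hk⟩ := hO
      obtain ⟨l, hl⟩ := hev
      exact ⟨k - l, by omega⟩
    obtain ⟨d, hd, hdM⟩ := h3 _ hZ sdiff_disjoint (Or.inl h6)
    exact hdM (h5 d hd)
  · exact notMem_empty _ hw

/-- the list of nontrivial tight sets of one weight -/
def TList (G : MG V D) (z : D → ℝ) (t : V → ℝ) (fr : Finset V) : Prop :=
  ∀ W ⊆ G.vs, Odd W.card → G.val z t W = 3 → 3 ≤ W.card → 3 ≤ (G.vs \ W).card →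
    (∃ x p q, G.Dig z t fr W x p q) ∨ ∃ u a b, G.Cap z t fr W u a b

/-- KILL AT AN ODD CIRCUIT, the end of the J-edge is fresh or has not two tokens: the payment along
the circuit -/
theorem MCS.kill_odd (h : G.MCS z t fr F ∅ ∅ ep m) (hτ : ∑ v ∈ G.vs, t v = 4)
    (hT : G.TList z t fr) {C Y : Finset V} (hC : G.Circ fr F C) (ho : Odd C.card)
    (hY : G.Adm fr F Y) (hCY : C ⊆ Y) {j : D} (hj : j ∈ G.ds) (hjF : j ∉ F) (hx : G.pi j ∈ C)
    (hw : G.pi (G.al j) ∈ Y ∨ (G.pi (G.al j) ∉ fr ∧ t (G.pi (G.al j)) ≠ 2)) :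
    ∃ M, G.IsPM M ∧ (∀ d ∈ M, 0 < z d) ∧ j ∉ M ∧
      ∀ X, G.Adm fr F X → Disjoint X Y → Odd X.card → ∃ d ∈ G.bd X, d ∉ M := by
  have hF := h.inst.fresh
  have hwt := h.inst.wt
  have hxfr : G.pi j ∈ fr := hC.adm.sub hx
  have haj := G.al_mem j hj
  have haa := G.al_al j hj
  have hzj : z j = 1 := hF.unit j hj hxfr
  have hzaj : z (G.al j) = 1 := by rw [hwt.sym j hj, hzj]
  have hajF : G.al j ∉ F := fun hh => hjF (by rw [← haa]; exact hF.Fal _ hh)
  have ht0 : ∀ v ∈ fr, t v = 0 := fun v hv => hF.t_not_jm hwt hv (notMem_empty _)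
  have ht2 : t (G.pi (G.al j)) ≠ 2 := by
    rcases hw with h1 | h1
    · rw [ht0 _ (hY.sub h1)]
      norm_num
    · exact h1.2
  have hmemS : ∀ d, d ∈ ({j, G.al j} : Finset D) ↔ d = j ∨ d = G.al j := by
    intro d
    rw [mem_insert, mem_singleton]
  obtain ⟨δ, d1, d2, d3, -⟩ := exists_altA hF.toFA hC ho hx
  have hkt0 : ∀ v, ∀ d ∈ ({j, G.al j} : Finset D).filter (fun d => G.pi d = v), 0 ≤ z d := by
    intro v d hd
    rcases (hmemS d).1 (mem_filter.1 hd).1 with rfl | rfl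
    · rw [hzj]; norm_num
    · rw [hzaj]; norm_num
  have key := h.kill_abs hY ⟨_, hCY hx⟩ (S := {j, G.al j}) ?_ ?_ ?_ ?_ ?_ δ
    (fun v => - ∑ d ∈ G.st v, δ d) d2 ?_ ?_ ?_ ?_ ?_ ?_ ?_
  · obtain ⟨M, m1, m2, m3, m4⟩ := key
    exact ⟨M, m1, m2, m3 j ((hmemS _).2 (Or.inl rfl)), m4⟩
  · intro d hd
    rcases (hmemS d).1 hd with rfl | rfl
    · exact hj
    · exact haj
  · intro d hd
    rcases (hmemS d).1 hd with rfl | rfl
    · exact (hmemS _).2 (Or.inr rfl)
    · exact (hmemS _).2 (Or.inl haa)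
  · intro d hd
    rcases (hmemS d).1 hd with rfl | rfl
    · exact hzj
    · exact hzaj
  · have hc : ((({j, G.al j} : Finset D).card : ℕ) : ℝ) ≤ 2 := by
      exact_mod_cast card_le_two
    linarith
  · intro d hd hh
    obtain ⟨h1, h2⟩ := mem_sdiff.1 hh
    rcases (hmemS d).1 hd with rfl | rfl
    · exact h2 (hCY hx)
    · rcases hw with h3 | h3
      · exact h2 h3
      · exact h3.1 h1
  · intro v hv
    ring
  · intro d _ hp
    by_contra hne'
    exact (mem_sdiff.1 hp).2 (hCY (d1 d hne').2)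
  · intro d hd
    by_contra hne'
    rcases (hmemS d).1 hd with rfl | rfl
    · exact hjF (d1 _ hne').1
    · exact hajF (d1 _ hne').1
  · intro d hd hz0
    by_contra hne'
    have h3 := hF.unit d hd (hC.adm.sub (d1 d hne').2)
    rw [hz0] at h3
    norm_num at h3
  · intro v hv hk
    have h3 : kt G z t {j, G.al j} v = t v + ∑ d ∈ ({j, G.al j} : Finset D).filter
      (fun d => G.pi d = v), z d := rfl
    have h9 := hwt.t0 v hv
    have hne' : v ≠ G.pi j := by
      rintro rfl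
      have h5 : j ∈ ({j, G.al j} : Finset D).filter (fun d => G.pi d = G.pi j) :=
        mem_filter.2 ⟨(hmemS _).2 (Or.inl rfl), rfl⟩
      have h7 := single_le_sum (hkt0 _) h5
      rw [hzj] at h7
      rw [h3] at hk
      linarith
    show 0 ≤ - ∑ d ∈ G.st v, δ d
    rw [d3 v hv, if_neg hne']
    norm_num
  · intro X hX hoX hv3 hS
    have hjX : ¬ (G.pi j ∈ X ∧ G.pi (G.al j) ∈ X) := fun hh =>
      hS j (mem_ed.2 ⟨hj, hh.1, hh.2⟩) ((hmemS _).2 (Or.inl rfl))
    rcases hwt.tight_cases h.inst.even hX hoX hv3 with ⟨v, -, rfl⟩ | ⟨v, -, h4, rfl⟩ | ⟨c1, c2⟩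
    · refine le_of_eq (sum_eq_zero fun d hd => ?_)
      exfalso
      obtain ⟨e1, e2, e3⟩ := mem_ed.1 hd
      rw [mem_singleton] at e2 e3
      exact G.noloop d e1 (e3.trans e2.symm)
    · exfalso
      have h5 : t v = 2 := by rw [hτ] at h4; linarith
      refine hjX ⟨mem_sdiff.2 ⟨G.pi_mem j hj, fun hh => ?_⟩,
        mem_sdiff.2 ⟨G.pi_mem _ haj, fun hh => ?_⟩⟩
      · rw [mem_singleton] at hh
        rw [← hh, ht0 _ hxfr] at h5
        norm_num at h5
      · rw [mem_singleton] at hh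
        exact ht2 (hh ▸ h5)
    · rcases hT X hX hoX hv3 c1 c2 with ⟨x', p, q, k⟩ | ⟨u, a, b, k⟩
      · refine le_of_eq (sum_eq_zero fun d hd => ?_)
        by_contra hne'
        obtain ⟨e1, e2, e3⟩ := mem_ed.1 hd
        have e4 := (d1 d hne').1
        have e5 := hF.Ffr d e4
        have e6 := hF.Ffr _ (hF.Fal d e4)
        rw [k.W, mem_insert, mem_insert, mem_singleton] at e2 e3
        have e7 : G.pi d = x' := by
          rcases e2 with e | e | e
          · exact e
          · exact absurd (e ▸ e5) k.pf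
          · exact absurd (e ▸ e5) k.qf
        have e8 : G.pi (G.al d) = x' := by
          rcases e3 with e | e | e
          · exact e
          · exact absurd (e ▸ e6) k.pf
          · exact absurd (e ▸ e6) k.qf
        exact G.noloop d e1 (e8.trans e7.symm)
      · exfalso
        -- the J-dart of `u` goes to `a`
        have key : ∀ e ∈ G.ds, G.pi e = u → e ∉ F → G.pi (G.al e) = a := by
          intro e he heu heF
          obtain ⟨d, hd, hdu, hda⟩ := k.ua
          have hdF : d ∉ F := fun hh => k.af (hda ▸ hF.Ffr _ (hF.Fal d hh))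
          obtain ⟨j0, -, -, -, hun⟩ := hF.exists_jd k.uf (notMem_empty _)
          rw [hun e he heu heF, ← hun d hd hdu hdF]
          exact hda
        have hta : t a = 2 := by
          have haV : a ∈ G.vs := by
            obtain ⟨d, hd, hdu, hda⟩ := k.ua
            rw [← hda]
            exact G.pi_mem _ (G.al_mem d hd)
          obtain ⟨d, hd, hdu, hda⟩ := k.ua
          have hdF : d ∉ F := fun hh => k.af (hda ▸ hF.Ffr _ (hF.Fal d hh))
          obtain ⟨j0, -, -, -, hun⟩ := hF.exists_jd k.uf (notMem_empty _)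
          have h1 : ∑ e ∈ G.st a, z e = z (G.al d) := by
            refine sum_eq_single_of_mem (G.al d) (mem_st.2 ⟨G.al_mem d hd, hda⟩) ?_
            intro e he hne
            obtain ⟨h2, h3⟩ := mem_st.1 he
            by_contra h4
            have h5 := k.nb e h2 h3 h4
            have h6 : G.al e ∉ F := fun hh => by
              have h7 := hF.Ffr _ (hF.Fal _ hh)
              rw [G.al_al e h2, h3] at h7
              exact k.af h7
            have h7 : G.al e = d := (hun _ (G.al_mem e h2) h5 h6).trans (hun d hd hdu hdF).symm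
            exact hne (by rw [← h7, G.al_al e h2])
          have h2 := hwt.deg a haV
          rw [h1, hwt.sym d hd, hF.unit d hd (by rw [hdu]; exact k.uf)] at h2
          linarith
        have hm : ∀ v ∈ G.vs, v ∉ X → v = u ∨ v = a ∨ v = b := by
          intro v hv hvX
          have h1 : v ∈ G.vs \ X := mem_sdiff.2 ⟨hv, hvX⟩
          rw [k.U, mem_insert, mem_insert, mem_singleton] at h1
          exact h1
        have h1 : G.pi j ∈ X := by
          by_contra hn
          rcases hm _ (G.pi_mem j hj) hn with e | e | e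
          · exact ht2 (by rw [key j hj e hjF]; exact hta)
          · exact k.af (e ▸ hxfr)
          · exact k.bf (e ▸ hxfr)
        refine hjX ⟨h1, ?_⟩
        by_contra hn
        have hu : u ∉ X := by
          have h2 : u ∈ G.vs \ X := by rw [k.U]; simp
          exact (mem_sdiff.1 h2).2
        rcases hm _ (G.pi_mem _ haj) hn with e | e | e
        · have h2 := key _ haj e hajF
          rw [haa] at h2
          exact k.af (h2 ▸ hxfr)
        · have h2 := k.nb _ haj e (by rw [hzaj]; norm_num)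
          rw [haa] at h2
          exact hu (h2 ▸ h1)
        · have h2 := k.tb
          rw [hτ, ← e] at h2
          exact ht2 (by linarith)
  · rw [sum_neg_distrib, sum_congr rfl d3, sum_ite_eq', if_pos (G.pi_mem j hj)]
    norm_num

/-- at most two J-darts end at vertices with two tokens -/
theorem card_two_tok (hF : G.FrS z fr F ∅) (hw : G.Wt z t) (hτ : ∑ v ∈ G.vs, t v = 4)
    {B : Finset D} (hB : B ⊆ G.ds) (hBf : ∀ d ∈ B, G.pi d ∈ fr)
    (h2 : ∀ d ∈ B, t (G.pi (G.al d)) = 2) : B.card ≤ 2 := by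
  have e1 : (B.card : ℝ) = ∑ d ∈ B.image G.al, z d := by
    rw [sum_image]
    · rw [card_eq_sum_ones, Nat.cast_sum]
      refine sum_congr rfl fun d hd => ?_
      rw [hw.sym d (hB hd), hF.unit d (hB hd) (hBf d hd)]
      norm_num
    · intro d hd d' hd' he
      rw [← G.al_al d (hB hd), ← G.al_al d' (hB hd'), he]
  have e2 : ∑ d ∈ B.image G.al, z d ≤ ∑ v ∈ G.vs.filter (fun v => t v = 2), ∑ d ∈ G.st v, z d := by
    have h3 : ∑ v ∈ G.vs.filter (fun v => t v = 2), ∑ d ∈ G.st v, z d =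
        ∑ d ∈ G.ds.filter (fun d => G.pi d ∈ G.vs.filter (fun v => t v = 2)), z d :=
      sum_pi_mem G G.ds z _
    rw [h3]
    refine sum_le_sum_of_subset_of_nonneg ?_ fun d hd _ => hw.z0 d (mem_filter.1 hd).1
    intro d hd
    obtain ⟨e, he, rfl⟩ := mem_image.1 hd
    have h4 := G.al_mem e (hB he)
    exact mem_filter.2 ⟨h4, mem_filter.2 ⟨G.pi_mem _ h4, h2 e he⟩⟩
  have e3 : ∑ v ∈ G.vs.filter (fun v => t v = 2), ∑ d ∈ G.st v, z d =
      ((G.vs.filter fun v => t v = 2).card : ℝ) := by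
    rw [card_eq_sum_ones, Nat.cast_sum]
    refine sum_congr rfl fun v hv => ?_
    have h3 := hw.deg v (mem_filter.1 hv).1
    rw [(mem_filter.1 hv).2] at h3
    push_cast
    linarith
  have e4 : 2 * ((G.vs.filter fun v => t v = 2).card : ℝ) ≤ 4 := by
    rw [← hτ]
    have h3 : ∑ v ∈ G.vs.filter (fun v => t v = 2), t v =
        2 * ((G.vs.filter fun v => t v = 2).card : ℝ) := by
      rw [sum_congr rfl fun v hv => (mem_filter.1 hv).2, sum_const, nsmul_eq_mul]
      ring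
    rw [← h3]
    exact sum_le_sum_of_subset_of_nonneg (filter_subset _ _) fun v hv _ => hw.t0 v hv
  have e5 : (B.card : ℝ) ≤ 2 := by linarith
  exact_mod_cast e5

/-- **there is no minimal counterexample of type A** -/
theorem MCS.no_full (h : G.MCS z t fr F ∅ ∅ ep m) (hτ : ∑ v ∈ G.vs, t v = 4)
    (hT : G.TList z t fr) (hf : G.Full z fr F) : False := by
  have hF := h.inst.fresh
  -- no J-dart between fresh vertices
  have hff : ∀ g ∈ G.ds, g ∉ F → G.pi g ∈ fr → G.pi (G.al g) ∉ fr := by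
    intro g hg hgF h1 h2
    obtain ⟨C, hxC, hC⟩ := hF.exists_circ h1
    obtain ⟨C', hyC, hC'⟩ := hF.exists_circ h2
    obtain ⟨M, m1, m2, m3, m4⟩ := h.kill_odd hτ hT hC (hf.odd h hC) (hC.adm.union hC'.adm)
      subset_union_left hg hgF hxC (Or.inl (mem_union_right _ hyC))
    refine h.bad ⟨M, m1, m2, fun X hX hO => ?_⟩
    rcases hO with hO | ⟨⟨w, hw⟩, -⟩
    · by_contra hcl
      push Not at hcl
      have hno : ¬ (G.pi g ∈ X ∨ G.pi (G.al g) ∈ X) := by
        intro hor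
        by_cases c1 : G.pi g ∈ X
        · by_cases c2 : G.pi (G.al g) ∈ X
          · exact m3 (hf M m1 m2 X hX hcl g hg hgF c1 c2)
          · exact m3 (hcl g (mem_bd.2 ⟨hg, c1, c2⟩))
        · have c2 : G.pi (G.al g) ∈ X := hor.resolve_left c1
          have c3 := hcl (G.al g) (mem_bd.2 ⟨G.al_mem g hg, c2, by rw [G.al_al g hg]; exact c1⟩)
          have c4 := m1.closed _ c3
          rw [G.al_al g hg] at c4
          exact m3 c4
      by_cases hd : Disjoint X (C ∪ C')
      · obtain ⟨d, hd1, hd2⟩ := m4 X hX hd hO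
        exact hd2 (hcl d hd1)
      · obtain ⟨v, hv, hvC⟩ := not_disjoint_iff.1 hd
        rcases mem_union.1 hvC with k | k
        · exact hno (Or.inl (hC.sub_of_meet hX hv k hxC))
        · exact hno (Or.inr (hC'.sub_of_meet hX hv k hyC))
    · exact absurd hw (notMem_empty _)
  -- all legs end at vertices with two tokens
  obtain ⟨x, hx⟩ := h.fr_ne
  obtain ⟨C, hxC, hC⟩ := hF.exists_circ hx
  have hodd := hf.odd h hC
  have hbF : ∀ d ∈ G.bd C, d ∉ F := fun d hd hh =>
    (mem_bd.1 hd).2.2 (hC.adm.clo d hh (mem_bd.1 hd).2.1)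
  have h2 : ∀ d ∈ G.bd C, t (G.pi (G.al d)) = 2 := by
    intro d hd
    obtain ⟨k1, k2, k3⟩ := mem_bd.1 hd
    have k4 := hff d k1 (hbF d hd) (hC.adm.sub k2)
    by_contra hne
    obtain ⟨M, m1, m2, m3, m4⟩ := h.kill_odd hτ hT hC hodd hC.adm (Subset.refl _) k1
      (hbF d hd) k2 (Or.inr ⟨k4, hne⟩)
    refine h.bad ⟨M, m1, m2, fun X hX hO => ?_⟩
    rcases hO with hO | ⟨⟨w, hw⟩, -⟩
    · by_cases hd' : Disjoint X C
      · exact m4 X hX hd' hO
      · obtain ⟨v, hv, hvC⟩ := not_disjoint_iff.1 hd'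
        exact ⟨d, mem_bd.2 ⟨k1, hC.sub_of_meet hX hv hvC k2, fun hh => k4 (hX.sub hh)⟩, m3⟩
    · exact absurd hw (notMem_empty _)
  have h3 := card_two_tok hF h.inst.wt hτ (B := G.bd C) (fun d hd => (mem_bd.1 hd).1)
    (fun d hd => hC.adm.sub (mem_bd.1 hd).2.1) h2
  have h4 := h.inst.cc C hC.adm hodd
  have h5 : ∑ v ∈ C, ep v = 0 := sum_eq_zero fun v hv => by
    have h6 := h.inst.epj v (hC.adm.sub hv)
    rw [if_neg (notMem_empty _)] at h6
    omega
  omega

/-- potentials for all J-edges between fresh vertices: closed unions use all their J-darts -/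
theorem full_of_pot (hF : G.FrS z fr F ∅) (hw : G.Wt z t)
    (hP : ∀ g ∈ G.ds, g ∉ F → G.pi g ∈ fr → G.pi (G.al g) ∈ fr →
      ∃ p, G.Pot z t F {g, G.al g} p) : G.Full z fr F := by
  intro M hM _ X hX hcl g hg hgF h1 h2
  obtain ⟨p, hp⟩ := hP g hg hgF (hX.sub h1) (hX.sub h2)
  exact (hp.closed hF (Subset.refl _) (fun d hd _ => hd) hw hM hX hcl).2.2 g (by simp) h1 h2

/-- **helper25's theorem**: no star, 4 tokens, a potential for every J-edge between fresh
vertices: impossible -/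
theorem MCS.no_pot (h : G.MCS z t fr F ∅ ∅ ep m) (hτ : ∑ v ∈ G.vs, t v = 4)
    (hT : G.TList z t fr)
    (hP : ∀ g ∈ G.ds, g ∉ F → G.pi g ∈ fr → G.pi (G.al g) ∈ fr →
      ∃ p, G.Pot z t F {g, G.al g} p) : False :=
  h.no_full hτ hT (full_of_pot h.inst.fresh h.inst.wt hP)

end MG

end RH
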