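import Pool.Agent.Lib.RH.SOps

/-! The operation `exG`: two new vertices `a`, `b` and two new edges `w a` (darts `e`, `e'`) and
`a b` (darts `h`, `h'`); a set `R` of darts at `w` is moved to the vertex `c`, `c = a` or `c = b`.
`c = b` is the expansion of a vertex, `c = a` is the subdivision of an edge by `a` with a leaf
`b`. -/

set_option autoImplicit false

namespace RH

open Finset Classical

namespace MG

variable {V D : Type*}

/-- data of the operation -/
structure ExD (G : MG V D) (w a b c : V) (R : Finset D) (e e' h h' : D) : Prop where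
  hw : w ∈ G.vs
  ha : a ∉ G.vs
  hb : b ∉ G.vs
  hab : a ≠ b
  hc : c = a ∨ c = b
  hR : ∀ d ∈ R, d ∈ G.ds ∧ G.pi d = w
  he : e ∉ G.ds
  he' : e' ∉ G.ds
  hh : h ∉ G.ds
  hh' : h' ∉ G.ds
  n1 : e ≠ e'
  n2 : e ≠ h
  n3 : e ≠ h'
  n4 : e' ≠ h
  n5 : e' ≠ h'
  n6 : h ≠ h'

/-- new vertex function -/
noncomputable def exPi (G : MG V D) (w a b c : V) (R : Finset D) (e e' h h' : D) (d : D) : V :=
  if d = e then w else if d = e' then a else if d = h then a else if d = h' then b else
    if d ∈ R then c else G.pi d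

/-- new involution -/
noncomputable def exAl (G : MG V D) (e e' h h' : D) (d : D) : D :=
  if d = e then e' else if d = e' then e else if d = h then h' else if d = h' then h else G.al d

/-- new weights -/
noncomputable def exZ (z : D → ℝ) (lam : ℝ) (e e' h h' : D) (d : D) : ℝ :=
  if d = e ∨ d = e' then 1 else if d = h ∨ d = h' then lam else z d

variable {G : MG V D} {z : D → ℝ} {t : V → ℝ} {w a b c : V} {R : Finset D} {e e' h h' : D}
variable {lam : ℝ} {T : Finset V}

namespace ExD

variable (x : ExD G w a b c R e e' h h')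
include x

theorem ne1 {d : D} (hd : d ∈ G.ds) : d ≠ e := fun h1 => x.he (h1 ▸ hd)
theorem ne2 {d : D} (hd : d ∈ G.ds) : d ≠ e' := fun h1 => x.he' (h1 ▸ hd)
theorem ne3 {d : D} (hd : d ∈ G.ds) : d ≠ h := fun h1 => x.hh (h1 ▸ hd)
theorem ne4 {d : D} (hd : d ∈ G.ds) : d ≠ h' := fun h1 => x.hh' (h1 ▸ hd)

theorem pi_e : exPi G w a b c R e e' h h' e = w := by unfold exPi; rw [if_pos rfl]
theorem pi_e' : exPi G w a b c R e e' h h' e' = a := by
  unfold exPi; rw [if_neg x.n1.symm, if_pos rfl]
theorem pi_h : exPi G w a b c R e e' h h' h = a := by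
  unfold exPi; rw [if_neg x.n2.symm, if_neg x.n4.symm, if_pos rfl]
theorem pi_h' : exPi G w a b c R e e' h h' h' = b := by
  unfold exPi; rw [if_neg x.n3.symm, if_neg x.n5.symm, if_neg x.n6.symm, if_pos rfl]
theorem pi_old {d : D} (hd : d ∈ G.ds) : exPi G w a b c R e e' h h' d =
    if d ∈ R then c else G.pi d := by
  unfold exPi
  rw [if_neg (x.ne1 hd), if_neg (x.ne2 hd), if_neg (x.ne3 hd), if_neg (x.ne4 hd)]

theorem al_e : exAl G e e' h h' e = e' := by unfold exAl; rw [if_pos rfl]
theorem al_e' : exAl G e e' h h' e' = e := by unfold exAl; rw [if_neg x.n1.symm, if_pos rfl]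
theorem al_h : exAl G e e' h h' h = h' := by
  unfold exAl; rw [if_neg x.n2.symm, if_neg x.n4.symm, if_pos rfl]
theorem al_h' : exAl G e e' h h' h' = h := by
  unfold exAl; rw [if_neg x.n3.symm, if_neg x.n5.symm, if_neg x.n6.symm, if_pos rfl]
theorem al_old {d : D} (hd : d ∈ G.ds) : exAl G e e' h h' d = G.al d := by
  unfold exAl
  rw [if_neg (x.ne1 hd), if_neg (x.ne2 hd), if_neg (x.ne3 hd), if_neg (x.ne4 hd)]

theorem z_e : exZ z lam e e' h h' e = 1 := by unfold exZ; rw [if_pos (Or.inl rfl)]
theorem z_e' : exZ z lam e e' h h' e' = 1 := by unfold exZ; rw [if_pos (Or.inr rfl)]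
theorem z_h : exZ z lam e e' h h' h = lam := by
  unfold exZ
  rw [if_neg (not_or.2 ⟨x.n2.symm, x.n4.symm⟩), if_pos (Or.inl rfl)]
theorem z_h' : exZ z lam e e' h h' h' = lam := by
  unfold exZ
  rw [if_neg (not_or.2 ⟨x.n3.symm, x.n5.symm⟩), if_pos (Or.inr rfl)]
theorem z_old {d : D} (hd : d ∈ G.ds) : exZ z lam e e' h h' d = z d := by
  unfold exZ
  rw [if_neg (not_or.2 ⟨x.ne1 hd, x.ne2 hd⟩), if_neg (not_or.2 ⟨x.ne3 hd, x.ne4 hd⟩)]

theorem c_not : c ∉ G.vs := by
  rcases x.hc with h1 | h1
  · rw [h1]; exact x.ha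
  · rw [h1]; exact x.hb

theorem al_notR {d : D} (hd : d ∈ R) : G.al d ∉ R := by
  intro h1
  obtain ⟨h2, h3⟩ := x.hR d hd
  exact G.noloop d h2 ((x.hR _ h1).2.trans h3.symm)

end ExD

/-- the new graph -/
noncomputable def exG (x : ExD G w a b c R e e' h h') : MG V D where
  vs := insert a (insert b G.vs)
  ds := insert e (insert e' (insert h (insert h' G.ds)))
  pi := exPi G w a b c R e e' h h'
  al := exAl G e e' h h'
  pi_mem := by
    intro d hd
    simp only [mem_insert] at hd ⊢
    rcases hd with rfl | rfl | rfl | rfl | hd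
    · rw [x.pi_e]; exact Or.inr (Or.inr x.hw)
    · rw [x.pi_e']; exact Or.inl rfl
    · rw [x.pi_h]; exact Or.inl rfl
    · rw [x.pi_h']; exact Or.inr (Or.inl rfl)
    · rw [x.pi_old hd]
      split_ifs
      · rcases x.hc with h1 | h1
        · exact Or.inl h1
        · exact Or.inr (Or.inl h1)
      · exact Or.inr (Or.inr (G.pi_mem d hd))
  al_mem := by
    intro d hd
    simp only [mem_insert] at hd ⊢
    rcases hd with rfl | rfl | rfl | rfl | hd
    · rw [x.al_e]; exact Or.inr (Or.inl rfl)
    · rw [x.al_e']; exact Or.inl rfl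
    · rw [x.al_h]; exact Or.inr (Or.inr (Or.inr (Or.inl rfl)))
    · rw [x.al_h']; exact Or.inr (Or.inr (Or.inl rfl))
    · rw [x.al_old hd]; exact Or.inr (Or.inr (Or.inr (Or.inr (G.al_mem d hd))))
  al_al := by
    intro d hd
    simp only [mem_insert] at hd
    rcases hd with rfl | rfl | rfl | rfl | hd
    · rw [x.al_e, x.al_e']
    · rw [x.al_e', x.al_e]
    · rw [x.al_h, x.al_h']
    · rw [x.al_h', x.al_h]
    · rw [x.al_old hd, x.al_old (G.al_mem d hd), G.al_al d hd]
  noloop := by
    intro d hd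
    simp only [mem_insert] at hd
    rcases hd with rfl | rfl | rfl | rfl | hd
    · rw [x.al_e, x.pi_e', x.pi_e]
      exact fun h1 => x.ha (h1 ▸ x.hw)
    · rw [x.al_e', x.pi_e', x.pi_e]
      exact fun h1 => x.ha (h1 ▸ x.hw)
    · rw [x.al_h, x.pi_h', x.pi_h]
      exact x.hab.symm
    · rw [x.al_h', x.pi_h', x.pi_h]
      exact x.hab
    · rw [x.al_old hd, x.pi_old hd, x.pi_old (G.al_mem d hd)]
      have h0 := x.c_not
      split_ifs with h1 h2 h2
      · exact absurd h1 (x.al_notR h2)
      · exact fun h3 => h0 (h3 ▸ G.pi_mem d hd)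
      · exact fun h3 => h0 (h3 ▸ G.pi_mem _ (G.al_mem d hd))
      · exact G.noloop d hd

/-- weight from `w` (darts not in `R`) to `T` -/
noncomputable def exA (G : MG V D) (z : D → ℝ) (w : V) (R : Finset D) (T : Finset V) : ℝ :=
  ∑ d ∈ G.ds.filter (fun d => G.pi d = w ∧ d ∉ R ∧ G.pi (G.al d) ∈ T), z d

/-- weight from `w` (darts in `R`) to `T` -/
noncomputable def exR (G : MG V D) (z : D → ℝ) (R : Finset D) (T : Finset V) : ℝ :=
  ∑ d ∈ G.ds.filter (fun d => d ∈ R ∧ G.pi (G.al d) ∈ T), z d

theorem ed_ite (G : MG V D) (f : D → ℝ) (X : Finset V) :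
    ∑ d ∈ G.ed X X, f d = ∑ d ∈ G.ds, if G.pi d ∈ X ∧ G.pi (G.al d) ∈ X then f d else 0 := by
  unfold ed
  rw [sum_filter]

theorem exA_ite : exA G z w R T = ∑ d ∈ G.ds, if G.pi d = w ∧ d ∉ R ∧
    G.pi (G.al d) ∈ T then z d else 0 := by
  unfold exA
  rw [sum_filter]

theorem exR_ite : exR G z R T = ∑ d ∈ G.ds, if d ∈ R ∧ G.pi (G.al d) ∈ T then z d else 0 := by
  unfold exR
  rw [sum_filter]

theorem exA_al (hs : ∀ d ∈ G.ds, z (G.al d) = z d) :
    exA G z w R T = ∑ d ∈ G.ds, if G.pi (G.al d) = w ∧ G.al d ∉ R ∧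
      G.pi (G.al (G.al d)) ∈ T then z d else 0 := by
  rw [exA_ite, ← sum_al']
  refine sum_congr rfl fun d hd => ?_
  rw [hs d hd]

theorem exR_al (hs : ∀ d ∈ G.ds, z (G.al d) = z d) :
    exR G z R T = ∑ d ∈ G.ds, if G.al d ∈ R ∧
      G.pi (G.al (G.al d)) ∈ T then z d else 0 := by
  rw [exR_ite, ← sum_al']
  refine sum_congr rfl fun d hd => ?_
  rw [hs d hd]

theorem ExD.old_sum (x : ExD G w a b c R e e' h h') (hs : ∀ d ∈ G.ds, z (G.al d) = z d)
    {S : Finset V} (hS : S ⊆ (exG x).vs) :
    ∑ d ∈ G.ds, (if exPi G w a b c R e e' h h' d ∈ S ∧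
      exPi G w a b c R e e' h h' (G.al d) ∈ S then z d else 0) =
      ∑ d ∈ G.ed ((S ∩ G.vs).erase w) ((S ∩ G.vs).erase w), z d +
        (if w ∈ S then 2 * exA G z w R ((S ∩ G.vs).erase w) else 0) +
        (if c ∈ S then 2 * exR G z R ((S ∩ G.vs).erase w) else 0) := by
  set T := (S ∩ G.vs).erase w with hT
  have hA := exA_al (w := w) (R := R) (T := T) hs
  have hA' := exA_ite (G := G) (z := z) (w := w) (R := R) (T := T)
  have hR := exR_al (R := R) (T := T) hs
  have hR' := exR_ite (G := G) (z := z) (R := R) (T := T)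
  have e1 : (if w ∈ S then 2 * exA G z w R T else 0) =
      ∑ d ∈ G.ds, (if w ∈ S then (if G.pi (G.al d) = w ∧ G.al d ∉ R ∧
      G.pi (G.al (G.al d)) ∈ T then z d else 0) + (if G.pi d = w ∧ d ∉ R ∧
      G.pi (G.al d) ∈ T then z d else 0) else 0) := by
    split_ifs with h1
    · rw [sum_add_distrib, ← hA, ← hA']
      ring
    · rw [sum_const_zero]
  have e2 : (if c ∈ S then 2 * exR G z R T else 0) =
      ∑ d ∈ G.ds, (if c ∈ S then (if G.al d ∈ R ∧
      G.pi (G.al (G.al d)) ∈ T then z d else 0) + (if d ∈ R ∧ G.pi (G.al d) ∈ T then z d else 0)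
      else 0) := by
    split_ifs with h1
    · rw [sum_add_distrib, ← hR, ← hR']
      ring
    · rw [sum_const_zero]
  rw [e1, e2, ed_ite, ← sum_add_distrib, ← sum_add_distrib]
  refine sum_congr rfl fun d hd => ?_
  have hd' := G.al_mem d hd
  rw [x.pi_old hd, x.pi_old hd', G.al_al d hd]
  have hmem : ∀ v ∈ G.vs, v ≠ w → (v ∈ S ↔ v ∈ T) := by
    intro v hv hvw
    rw [hT, mem_erase, mem_inter]
    exact ⟨fun h1 => ⟨hvw, h1, hv⟩, fun h1 => h1.2.1⟩
  have hwT : w ∉ T := notMem_erase w _
  have hl := G.noloop d hd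
  by_cases c1 : d ∈ R
  · have c2 := x.al_notR c1
    have c3 := (x.hR d c1).2
    have c4 : G.pi (G.al d) ≠ w := by rw [← c3]; exact hl
    have c5 := hmem _ (G.pi_mem _ hd') c4
    have c6 : G.pi d ∉ T := by rw [c3]; exact hwT
    simp only [c1, c2, c3, c4, c5, c6, if_true, if_false, true_and, false_and, and_true,
      and_false, not_true_eq_false, not_false_eq_true, add_zero, zero_add, hwT, ite_self]
    by_cases c7 : c ∈ S <;> by_cases c8 : G.pi (G.al d) ∈ T <;> simp [c7, c8]
  · by_cases c2 : G.al d ∈ R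
    · have c3 := (x.hR _ c2).2
      have c4 : G.pi d ≠ w := by rw [← c3]; exact hl.symm
      have c5 := hmem _ (G.pi_mem _ hd) c4
      simp only [c1, c2, c3, c4, c5, if_true, if_false, true_and, false_and, and_true,
        and_false, not_true_eq_false, not_false_eq_true, add_zero, zero_add, hwT, ite_self]
      by_cases c7 : c ∈ S <;> by_cases c8 : G.pi d ∈ T <;> simp [c7, c8]
    · by_cases c3 : G.pi d = w
      · have c4 : G.pi (G.al d) ≠ w := by rw [← c3]; exact hl
        have c5 := hmem _ (G.pi_mem _ hd') c4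
        simp only [c1, c2, c3, c4, c5, if_true, if_false, true_and, false_and, and_true,
          and_false, not_true_eq_false, not_false_eq_true, add_zero, zero_add, hwT, ite_self]
        by_cases c7 : w ∈ S <;> by_cases c8 : G.pi (G.al d) ∈ T <;> simp [c7, c8]
      · by_cases c4 : G.pi (G.al d) = w
        · have c5 := hmem _ (G.pi_mem _ hd) c3
          simp only [c1, c2, c3, c4, c5, if_true, if_false, true_and, false_and, and_true,
            and_false, not_true_eq_false, not_false_eq_true, add_zero, zero_add, hwT, ite_self]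
          by_cases c7 : w ∈ S <;> by_cases c8 : G.pi d ∈ T <;> simp [c7, c8]
        · have c5 := hmem _ (G.pi_mem _ hd) c3
          have c6 := hmem _ (G.pi_mem _ hd') c4
          simp only [c1, c2, c3, c4, c5, c6, if_true, if_false, true_and, false_and, and_true,
            and_false, not_true_eq_false, not_false_eq_true, add_zero, zero_add, ite_self]

theorem ExD.ins_sum (x : ExD G w a b c R e e' h h') (hs : ∀ d ∈ G.ds, z (G.al d) = z d)
    {T : Finset V} (hwT : w ∉ T) :
    ∑ d ∈ G.ed (insert w T) (insert w T), z d =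
      ∑ d ∈ G.ed T T, z d + 2 * exA G z w R T + 2 * exR G z R T := by
  have hA := exA_al (w := w) (R := R) (T := T) hs
  have hA' := exA_ite (G := G) (z := z) (w := w) (R := R) (T := T)
  have hR := exR_al (R := R) (T := T) hs
  have hR' := exR_ite (G := G) (z := z) (R := R) (T := T)
  have e1 : 2 * exA G z w R T =
      ∑ d ∈ G.ds, ((if G.pi (G.al d) = w ∧ G.al d ∉ R ∧
      G.pi (G.al (G.al d)) ∈ T then z d else 0) + (if G.pi d = w ∧ d ∉ R ∧
      G.pi (G.al d) ∈ T then z d else 0)) := by
    rw [sum_add_distrib, ← hA, ← hA']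
    ring
  have e2 : 2 * exR G z R T =
      ∑ d ∈ G.ds, ((if G.al d ∈ R ∧
      G.pi (G.al (G.al d)) ∈ T then z d else 0) + (if d ∈ R ∧ G.pi (G.al d) ∈ T then z d else 0))
      := by
    rw [sum_add_distrib, ← hR, ← hR']
    ring
  rw [e1, e2, ed_ite, ed_ite, ← sum_add_distrib, ← sum_add_distrib]
  refine sum_congr rfl fun d hd => ?_
  have hd' := G.al_mem d hd
  rw [G.al_al d hd]
  have hl := G.noloop d hd
  have m1 : ∀ v, v ∈ insert w T ↔ v = w ∨ v ∈ T := fun v => mem_insert
  by_cases c1 : d ∈ R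
  · have c2 := x.al_notR c1
    have c3 := (x.hR d c1).2
    have c4 : G.pi (G.al d) ≠ w := by rw [← c3]; exact hl
    simp only [m1, c1, c2, c3, c4, if_true, if_false, true_and, false_and, and_true,
      and_false, not_true_eq_false, not_false_eq_true, add_zero, zero_add, hwT, ite_self,
      true_or, false_or]
  · by_cases c2 : G.al d ∈ R
    · have c3 := (x.hR _ c2).2
      have c4 : G.pi d ≠ w := by rw [← c3]; exact hl.symm
      simp only [m1, c1, c2, c3, c4, if_true, if_false, true_and, false_and, and_true,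
        and_false, not_true_eq_false, not_false_eq_true, add_zero, zero_add, hwT, ite_self,
        true_or, false_or]
    · by_cases c3 : G.pi d = w
      · have c4 : G.pi (G.al d) ≠ w := by rw [← c3]; exact hl
        simp only [m1, c1, c2, c3, c4, if_true, if_false, true_and, false_and, and_true,
          and_false, not_true_eq_false, not_false_eq_true, add_zero, zero_add, hwT, ite_self,
          true_or, false_or]
      · by_cases c4 : G.pi (G.al d) = w
        · simp only [m1, c1, c2, c3, c4, if_true, if_false, true_and, false_and, and_true,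
            and_false, not_true_eq_false, not_false_eq_true, add_zero, zero_add, hwT, ite_self,
            true_or, false_or]
        · simp only [m1, c1, c2, c3, c4, if_true, if_false, true_and, false_and, and_true,
            and_false, not_true_eq_false, not_false_eq_true, add_zero, zero_add, ite_self,
            true_or, false_or]

/-- sums over the new darts -/
theorem ExD.sum_ds (x : ExD G w a b c R e e' h h') (f : D → ℝ) :
    ∑ d ∈ (exG x).ds, f d = f e + (f e' + (f h + (f h' + ∑ d ∈ G.ds, f d))) := by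
  have h4 : h' ∉ G.ds := x.hh'
  have h3 : h ∉ insert h' G.ds := by
    rw [mem_insert, not_or]; exact ⟨x.n6, x.hh⟩
  have h2 : e' ∉ insert h (insert h' G.ds) := by
    rw [mem_insert, mem_insert, not_or, not_or]; exact ⟨x.n4, x.n5, x.he'⟩
  have h1 : e ∉ insert e' (insert h (insert h' G.ds)) := by
    rw [mem_insert, mem_insert, mem_insert, not_or, not_or, not_or]
    exact ⟨x.n1, x.n2, x.n3, x.he⟩
  change ∑ d ∈ insert e (insert e' (insert h (insert h' G.ds))), f d = _
  rw [sum_insert h1, sum_insert h2, sum_insert h3, sum_insert h4]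

/-- inner weight of a set in the new graph -/
theorem ExD.ed_sum (x : ExD G w a b c R e e' h h') (hs : ∀ d ∈ G.ds, z (G.al d) = z d)
    {S : Finset V} (hS : S ⊆ (exG x).vs) :
    ∑ d ∈ (exG x).ed S S, exZ z lam e e' h h' d =
      (if w ∈ S ∧ a ∈ S then 2 else 0) + (if a ∈ S ∧ b ∈ S then 2 * lam else 0) +
      (∑ d ∈ G.ed ((S ∩ G.vs).erase w) ((S ∩ G.vs).erase w), z d +
        (if w ∈ S then 2 * exA G z w R ((S ∩ G.vs).erase w) else 0) +
        (if c ∈ S then 2 * exR G z R ((S ∩ G.vs).erase w) else 0)) := by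
  rw [ed_ite, x.sum_ds, ← x.old_sum hs hS]
  have e1 : ∑ d ∈ G.ds, (if (exG x).pi d ∈ S ∧ (exG x).pi ((exG x).al d) ∈ S then
      exZ z lam e e' h h' d else 0) = ∑ d ∈ G.ds, (if exPi G w a b c R e e' h h' d ∈ S ∧
      exPi G w a b c R e e' h h' (G.al d) ∈ S then z d else 0) := by
    refine sum_congr rfl fun d hd => ?_
    rw [x.z_old hd]
    have e2 : (exG x).al d = G.al d := x.al_old hd
    rw [e2]
    rfl
  rw [e1]
  have p1 : (exG x).pi e = w := x.pi_e
  have p2 : (exG x).pi e' = a := x.pi_e'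
  have p3 : (exG x).pi h = a := x.pi_h
  have p4 : (exG x).pi h' = b := x.pi_h'
  have q1 : (exG x).al e = e' := x.al_e
  have q2 : (exG x).al e' = e := x.al_e'
  have q3 : (exG x).al h = h' := x.al_h
  have q4 : (exG x).al h' = h := x.al_h'
  rw [q1, q2, q3, q4, p1, p2, p3, p4, x.z_e, x.z_e', x.z_h, x.z_h']
  by_cases c1 : w ∈ S <;> by_cases c2 : a ∈ S <;> by_cases c3 : b ∈ S <;> simp [c1, c2, c3] <;> ring

/-- vertex sums in the new graph -/
theorem ExD.st_sum (x : ExD G w a b c R e e' h h') (v : V) :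
    ∑ d ∈ (exG x).st v, exZ z lam e e' h h' d =
      (if w = v then 1 else 0) + (if a = v then 1 + lam else 0) + (if b = v then lam else 0) +
      ∑ d ∈ G.ds, if (if d ∈ R then c else G.pi d) = v then z d else 0 := by
  have e0 : ∑ d ∈ (exG x).st v, exZ z lam e e' h h' d = ∑ d ∈ (exG x).ds,
      if (exG x).pi d = v then exZ z lam e e' h h' d else 0 := by
    unfold st
    rw [sum_filter]
  rw [e0, x.sum_ds]
  have e1 : ∑ d ∈ G.ds, (if (exG x).pi d = v then exZ z lam e e' h h' d else 0) =
      ∑ d ∈ G.ds, if (if d ∈ R then c else G.pi d) = v then z d else 0 := by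
    refine sum_congr rfl fun d hd => ?_
    rw [x.z_old hd]
    have e2 : (exG x).pi d = if d ∈ R then c else G.pi d := x.pi_old hd
    rw [e2]
  rw [e1]
  have p1 : (exG x).pi e = w := x.pi_e
  have p2 : (exG x).pi e' = a := x.pi_e'
  have p3 : (exG x).pi h = a := x.pi_h
  have p4 : (exG x).pi h' = b := x.pi_h'
  rw [p1, p2, p3, p4, x.z_e, x.z_e', x.z_h, x.z_h']
  by_cases c1 : w = v <;> by_cases c2 : a = v <;> by_cases c3 : b = v <;>
    simp only [c1, c2, c3, if_true, if_false] <;> ring

theorem ExD.st_old (x : ExD G w a b c R e e' h h') {v : V} (hv : v ∈ G.vs) (hvw : v ≠ w) :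
    ∑ d ∈ G.ds, (if (if d ∈ R then c else G.pi d) = v then z d else 0) =
      ∑ d ∈ G.st v, z d := by
  unfold st
  rw [sum_filter]
  refine sum_congr rfl fun d _ => ?_
  by_cases h1 : d ∈ R
  · rw [if_pos h1, if_neg (show ¬ c = v from fun h2 => x.c_not (h2 ▸ hv)),
      if_neg (show ¬ G.pi d = v from fun h2 => hvw (h2.symm.trans (x.hR d h1).2))]
  · rw [if_neg h1]

theorem ExD.st_w (x : ExD G w a b c R e e' h h') :
    ∑ d ∈ G.ds, (if (if d ∈ R then c else G.pi d) = w then z d else 0) =
      ∑ d ∈ G.st w, z d - ∑ d ∈ R, z d := by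
  have hRs : R ⊆ G.ds := fun d hd => (x.hR d hd).1
  have e1 : ∑ d ∈ R, z d = ∑ d ∈ G.ds, if d ∈ R then z d else 0 := by
    rw [← sum_filter, filter_mem_eq_inter, inter_eq_right.2 hRs]
  rw [e1]
  unfold st
  rw [sum_filter, ← sum_sub_distrib]
  refine sum_congr rfl fun d _ => ?_
  by_cases h1 : d ∈ R
  · rw [if_pos h1, if_neg (show ¬ c = w from fun h2 => x.c_not (h2 ▸ x.hw)), if_pos (x.hR d h1).2,
      if_pos h1]
    ring
  · rw [if_neg h1, if_neg h1]
    ring

theorem ExD.st_c (x : ExD G w a b c R e e' h h') :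
    ∑ d ∈ G.ds, (if (if d ∈ R then c else G.pi d) = c then z d else 0) = ∑ d ∈ R, z d := by
  have hRs : R ⊆ G.ds := fun d hd => (x.hR d hd).1
  have e1 : ∑ d ∈ R, z d = ∑ d ∈ G.ds, if d ∈ R then z d else 0 := by
    rw [← sum_filter, filter_mem_eq_inter, inter_eq_right.2 hRs]
  rw [e1]
  refine sum_congr rfl fun d hd => ?_
  by_cases h1 : d ∈ R
  · rw [if_pos h1, if_pos rfl, if_pos h1]
  · rw [if_neg h1, if_neg (show ¬ G.pi d = c from fun h2 => x.c_not (h2 ▸ G.pi_mem d hd)), if_neg h1]

theorem ExD.st_nc (x : ExD G w a b c R e e' h h') {v : V} (hv : v ∉ G.vs) (hvc : c ≠ v) :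
    ∑ d ∈ G.ds, (if (if d ∈ R then c else G.pi d) = v then z d else 0) = 0 := by
  refine sum_eq_zero fun d hd => ?_
  by_cases h1 : d ∈ R
  · rw [if_pos h1, if_neg hvc]
  · rw [if_neg h1, if_neg (show ¬ G.pi d = v from fun h2 => hv (h2 ▸ G.pi_mem d hd))]

/-- new tokens -/
noncomputable def exT (t : V → ℝ) (w a b : V) (ta tb tw : ℝ) (v : V) : ℝ :=
  if v = a then ta else if v = b then tb else if v = w then tw else t v

theorem ExD.card_S (x : ExD G w a b c R e e' h h') {S : Finset V} (hS : S ⊆ (exG x).vs) :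
    S.card = ((S ∩ G.vs).erase w).card + (if w ∈ S then 1 else 0) + (if a ∈ S then 1 else 0) +
      (if b ∈ S then 1 else 0) := by
  have e1 : S.card = (S ∩ G.vs).card + (S \ G.vs).card := by
    rw [add_comm, card_sdiff_add_card_inter]
  have e2 : (S ∩ G.vs).card = ((S ∩ G.vs).erase w).card + (if w ∈ S then 1 else 0) := by
    split_ifs with h1
    · exact (card_erase_add_one (mem_inter.2 ⟨h1, x.hw⟩)).symm
    · rw [erase_eq_of_notMem fun h2 => h1 (mem_inter.1 h2).1]
      rfl
  have e3 : S \ G.vs = (if a ∈ S then {a} else ∅) ∪ (if b ∈ S then {b} else ∅) := by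
    ext v
    rw [mem_sdiff, mem_union]
    constructor
    · rintro ⟨h1, h2⟩
      have h3 := hS h1
      change v ∈ insert a (insert b G.vs) at h3
      rw [mem_insert, mem_insert] at h3
      rcases h3 with rfl | rfl | h3
      · exact Or.inl (by rw [if_pos h1]; exact mem_singleton_self v)
      · exact Or.inr (by rw [if_pos h1]; exact mem_singleton_self v)
      · exact absurd h3 h2
    · rintro (h1 | h1)
      · split_ifs at h1 with h2
        · rw [mem_singleton] at h1
          rw [h1]
          exact ⟨h2, x.ha⟩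
        · exact absurd h1 (notMem_empty v)
      · split_ifs at h1 with h2
        · rw [mem_singleton] at h1
          rw [h1]
          exact ⟨h2, x.hb⟩
        · exact absurd h1 (notMem_empty v)
  have e4 : (S \ G.vs).card = (if a ∈ S then 1 else 0) + (if b ∈ S then 1 else 0) := by
    rw [e3, card_union_of_disjoint]
    · congr 1
      · split_ifs
        · exact card_singleton a
        · exact card_empty
      · split_ifs
        · exact card_singleton b
        · exact card_empty
    · split_ifs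
      · exact disjoint_singleton.2 x.hab
      · exact disjoint_empty_right _
      · exact disjoint_empty_left _
      · exact disjoint_empty_left _
  omega

theorem exA_nonneg (hz : ∀ d ∈ G.ds, 0 ≤ z d) : 0 ≤ exA G z w R T :=
  sum_nonneg fun d hd => hz d (mem_filter.1 hd).1

theorem exR_nonneg (hz : ∀ d ∈ G.ds, 0 ≤ z d) : 0 ≤ exR G z R T :=
  sum_nonneg fun d hd => hz d (mem_filter.1 hd).1

theorem ExD.exR_le (x : ExD G w a b c R e e' h h') (hz : ∀ d ∈ G.ds, 0 ≤ z d) :
    exR G z R T ≤ ∑ d ∈ R, z d := by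
  unfold exR
  refine sum_le_sum_of_subset_of_nonneg (fun d hd => (mem_filter.1 hd).2.1) fun d hd _ =>
    hz d (x.hR d hd).1

theorem ExD.exA_le (x : ExD G w a b c R e e' h h') (hz : ∀ d ∈ G.ds, 0 ≤ z d) :
    exA G z w R T + ∑ d ∈ R, z d ≤ ∑ d ∈ G.st w, z d := by
  unfold exA
  rw [← sum_union]
  · refine sum_le_sum_of_subset_of_nonneg ?_ fun d hd _ => hz d (mem_st.1 hd).1
    intro d hd
    rcases mem_union.1 hd with h1 | h1
    · obtain ⟨h2, h3, -⟩ := mem_filter.1 h1
      exact mem_st.2 ⟨h2, h3⟩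
    · exact mem_st.2 (x.hR d h1)
  · rw [disjoint_left]
    intro d h1 h2
    exact (mem_filter.1 h1).2.2.1 h2

/-- the weight of `w` to `T` is at most the vertex sum -/
theorem ExD.exAR_le (x : ExD G w a b c R e e' h h') (hz : ∀ d ∈ G.ds, 0 ≤ z d) :
    exA G z w R T + exR G z R T ≤ ∑ d ∈ G.st w, z d := by
  have h1 := x.exA_le (T := T) hz
  have h2 := x.exR_le (T := T) hz
  linarith

theorem ExD.wt_aux (x : ExD G w a b c R e e' h h') (hw : G.Wt z t) (hl : 0 ≤ lam)
    {ta tb tw : ℝ} (hta : 0 ≤ ta) (htb : 0 ≤ tb) (htw : 0 ≤ tw)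
    (hdw : ∑ d ∈ G.st w, z d - ∑ d ∈ R, z d + 1 + tw = 3)
    (hda : 1 + lam + (if c = a then ∑ d ∈ R, z d else 0) + ta = 3)
    (hdb : lam + (if c = b then ∑ d ∈ R, z d else 0) + tb = 3)
    (hodd : ∀ S ⊆ (exG x).vs, Odd S.card →
      ∑ d ∈ (exG x).ed S S, exZ z lam e e' h h' d ≤ 3 * S.card - 3) :
    (exG x).Wt (exZ z lam e e' h h') (exT t w a b ta tb tw) := by
  have hwa : w ≠ a := fun h1 => x.ha (h1 ▸ x.hw)
  have hwb : w ≠ b := fun h1 => x.hb (h1 ▸ x.hw)
  refine Wt.of_ed ?_ ?_ ?_ ?_ hodd
  · intro d hd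
    change d ∈ insert e (insert e' (insert h (insert h' G.ds))) at hd
    simp only [mem_insert] at hd
    rcases hd with rfl | rfl | rfl | rfl | hd
    · rw [x.z_e]; norm_num
    · rw [x.z_e']; norm_num
    · rw [x.z_h]; exact hl
    · rw [x.z_h']; exact hl
    · rw [x.z_old hd]; exact hw.z0 d hd
  · intro v hv
    change v ∈ insert a (insert b G.vs) at hv
    rw [mem_insert, mem_insert] at hv
    unfold exT
    split_ifs with h1 h2 h3
    · exact hta
    · exact htb
    · exact htw
    · exact hw.t0 v ((hv.resolve_left h1).resolve_left h2)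
  · intro d hd
    change d ∈ insert e (insert e' (insert h (insert h' G.ds))) at hd
    change exZ z lam e e' h h' (exAl G e e' h h' d) = _
    simp only [mem_insert] at hd
    rcases hd with rfl | rfl | rfl | rfl | hd
    · rw [x.al_e, x.z_e, x.z_e']
    · rw [x.al_e', x.z_e, x.z_e']
    · rw [x.al_h, x.z_h, x.z_h']
    · rw [x.al_h', x.z_h, x.z_h']
    · rw [x.al_old hd, x.z_old hd, x.z_old (G.al_mem d hd)]; exact hw.sym d hd
  · intro v hv
    change v ∈ insert a (insert b G.vs) at hv
    rw [mem_insert, mem_insert] at hv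
    rw [x.st_sum v]
    unfold exT
    by_cases h1 : v = a
    · subst h1
      rw [if_neg hwa, if_pos rfl, if_neg x.hab.symm, if_pos rfl]
      by_cases h2 : c = v
      · rw [if_pos h2] at hda
        rw [← h2, x.st_c]
        linarith
      · rw [if_neg h2] at hda
        rw [x.st_nc x.ha h2]
        linarith
    · by_cases h2 : v = b
      · subst h2
        rw [if_neg hwb, if_neg x.hab, if_pos rfl, if_neg x.hab.symm, if_pos rfl]
        by_cases h3 : c = v
        · rw [if_pos h3] at hdb
          rw [← h3, x.st_c]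
          linarith
        · rw [if_neg h3] at hdb
          rw [x.st_nc x.hb h3]
          linarith
      · have h3 := (hv.resolve_left h1).resolve_left h2
        rw [if_neg (Ne.symm h1), if_neg (Ne.symm h2), if_neg h1, if_neg h2]
        by_cases h4 : v = w
        · subst h4
          rw [if_pos rfl, if_pos rfl, x.st_w]
          linarith
        · rw [if_neg (Ne.symm h4), if_neg h4, x.st_old h3 h4]
          have := hw.deg v h3
          linarith

/-- expansion of a vertex: two units stay at `w`, the rest (one unit) goes to `b` -/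
theorem ExD.wt_exp (x : ExD G w a b b R e e' h h') (hw : G.Wt z t)
    (h1 : ∑ d ∈ R, z d + t w = 1) :
    (exG x).Wt (exZ z 2 e e' h h') (exT t w a b 0 (t w) 0) := by
  have hdw := hw.deg w x.hw
  have htw := hw.t0 w x.hw
  have hbs : (b = a) = False := eq_false x.hab.symm
  refine x.wt_aux hw (by norm_num) le_rfl htw le_rfl (by linarith)
    (by rw [if_neg x.hab.symm]; norm_num) (by rw [if_pos rfl]; linarith) ?_
  intro S hS ho
  rw [x.ed_sum hw.sym hS]
  set T := (S ∩ G.vs).erase w with hT
  have hTv : T ⊆ G.vs := fun v hv => (mem_inter.1 (mem_erase.1 hv).2).2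
  have hwT : w ∉ T := notMem_erase w _
  have hc := x.card_S hS
  rw [← hT] at hc
  have hA := exA_nonneg (w := w) (R := R) (T := T) hw.z0
  have hR := exR_nonneg (R := R) (T := T) hw.z0
  have hAle := x.exA_le (T := T) hw.z0
  have hRle := x.exR_le (T := T) hw.z0
  have hodd : Odd T.card → ∑ d ∈ G.ed T T, z d ≤ 3 * T.card - 3 := fun h2 => hw.ed_odd hTv h2
  have heven : Even T.card →
      ∑ d ∈ G.ed T T, z d + 2 * exA G z w R T + 2 * exR G z R T ≤ 3 * T.card := by
    intro h2
    have h3 := hw.ed_odd (S := insert w T) (insert_subset x.hw hTv) (by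
      rw [card_insert_of_notMem hwT]
      exact h2.add_one)
    rw [x.ins_sum hw.sym hwT, card_insert_of_notMem hwT] at h3
    push_cast at h3
    linarith
  have hcR : (S.card : ℝ) = T.card + (if w ∈ S then 1 else 0) + (if a ∈ S then 1 else 0) +
      (if b ∈ S then 1 else 0) := by
    rw [hc]
    push_cast
    rfl
  rw [hcR]
  rw [hc] at ho
  by_cases c1 : w ∈ S <;> by_cases c2 : a ∈ S <;> by_cases c3 : b ∈ S <;>
    simp only [c1, c2, c3, if_true, if_false, and_true, and_false, true_and,
      false_and] at ho ⊢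
  · have h2 : Even T.card := by
      rw [Nat.odd_iff] at ho
      rw [Nat.even_iff]
      omega
    linarith [heven h2]
  · have h2 : Odd T.card := by
      rw [Nat.odd_iff] at ho ⊢
      omega
    linarith [hodd h2]
  · have h2 : Odd T.card := by
      rw [Nat.odd_iff] at ho ⊢
      omega
    linarith [hodd h2]
  · have h2 : Even T.card := by
      rw [Nat.odd_iff] at ho
      rw [Nat.even_iff]
      omega
    linarith [heven h2]
  · have h2 : Odd T.card := by
      rw [Nat.odd_iff] at ho ⊢
      omega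
    linarith [hodd h2]
  · have h2 : Even T.card := by
      rw [Nat.odd_iff] at ho
      rw [Nat.even_iff]
      omega
    linarith [heven h2]
  · have h2 : Even T.card := by
      rw [Nat.odd_iff] at ho
      rw [Nat.even_iff]
      omega
    linarith [heven h2]
  · have h2 : Odd T.card := by
      rw [Nat.odd_iff] at ho ⊢
      omega
    linarith [hodd h2]

/-- subdivision of an edge of weight 1 at a vertex with a token of size at least 1 -/
theorem ExD.wt_sub (x : ExD G w a b a R e e' h h') (hw : G.Wt z t)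
    (h1 : ∑ d ∈ R, z d = 1) (htw : 1 ≤ t w) :
    (exG x).Wt (exZ z 1 e e' h h') (exT t w a b 0 2 (t w)) := by
  have hdw := hw.deg w x.hw
  refine x.wt_aux hw (by norm_num) le_rfl (by norm_num) (by linarith) (by linarith)
    (by rw [if_pos rfl]; linarith) (by rw [if_neg x.hab]; norm_num) ?_
  intro S hS ho
  rw [x.ed_sum hw.sym hS]
  set T := (S ∩ G.vs).erase w with hT
  have hTv : T ⊆ G.vs := fun v hv => (mem_inter.1 (mem_erase.1 hv).2).2
  have hwT : w ∉ T := notMem_erase w _
  have hc := x.card_S hS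
  rw [← hT] at hc
  have hA := exA_nonneg (w := w) (R := R) (T := T) hw.z0
  have hR := exR_nonneg (R := R) (T := T) hw.z0
  have hAle := x.exA_le (T := T) hw.z0
  have hRle := x.exR_le (T := T) hw.z0
  have hodd : Odd T.card → ∑ d ∈ G.ed T T, z d ≤ 3 * T.card - 3 := fun h2 => hw.ed_odd hTv h2
  have heven : Even T.card →
      ∑ d ∈ G.ed T T, z d + 2 * exA G z w R T + 2 * exR G z R T ≤ 3 * T.card := by
    intro h2
    have h3 := hw.ed_odd (S := insert w T) (insert_subset x.hw hTv) (by
      rw [card_insert_of_notMem hwT]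
      exact h2.add_one)
    rw [x.ins_sum hw.sym hwT, card_insert_of_notMem hwT] at h3
    push_cast at h3
    linarith
  have hcR : (S.card : ℝ) = T.card + (if w ∈ S then 1 else 0) + (if a ∈ S then 1 else 0) +
      (if b ∈ S then 1 else 0) := by
    rw [hc]
    push_cast
    rfl
  rw [hcR]
  rw [hc] at ho
  by_cases c1 : w ∈ S <;> by_cases c2 : a ∈ S <;> by_cases c3 : b ∈ S <;>
    simp only [c1, c2, c3, if_true, if_false, and_true, and_false, true_and,
      false_and] at ho ⊢
  · have h2 : Even T.card := by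
      rw [Nat.odd_iff] at ho
      rw [Nat.even_iff]
      omega
    linarith [heven h2]
  · have h2 : Odd T.card := by
      rw [Nat.odd_iff] at ho ⊢
      omega
    linarith [hodd h2]
  · have h2 : Odd T.card := by
      rw [Nat.odd_iff] at ho ⊢
      omega
    linarith [hodd h2]
  · have h2 : Even T.card := by
      rw [Nat.odd_iff] at ho
      rw [Nat.even_iff]
      omega
    linarith [heven h2]
  · have h2 : Odd T.card := by
      rw [Nat.odd_iff] at ho ⊢
      omega
    linarith [hodd h2]
  · have h2 : Even T.card := by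
      rw [Nat.odd_iff] at ho
      rw [Nat.even_iff]
      omega
    linarith [heven h2]
  · have h2 : Even T.card := by
      rw [Nat.odd_iff] at ho
      rw [Nat.even_iff]
      omega
    linarith [heven h2]
  · have h2 : Odd T.card := by
      rw [Nat.odd_iff] at ho ⊢
      omega
    linarith [hodd h2]

end MG

end RH
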