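import Pool.Agent.Lib.RH.SSolve
import Pool.Agent.Lib.RH.SExp

/-! Sides of a cut: a graph `G'` which looks like `G` on the set `Z`, up to deleted crossing darts;
half matchings and their gluing; deletion of edges. -/

set_option autoImplicit false

namespace RH

open Finset Classical

namespace MG

variable {V D : Type*}

/-! ### deletion of edges -/

/-- delete the edges of `S`, the weight becomes tokens -/
noncomputable def delG (G : MG V D) (S : Finset D) (hS : ∀ d ∈ S, G.al d ∈ S) : MG V D where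
  vs := G.vs
  ds := G.ds \ S
  pi := G.pi
  al := G.al
  pi_mem := fun d hd => G.pi_mem d (mem_sdiff.1 hd).1
  al_mem := fun d hd => by
    obtain ⟨h1, h2⟩ := mem_sdiff.1 hd
    refine mem_sdiff.2 ⟨G.al_mem d h1, fun h3 => h2 ?_⟩
    have h4 := hS _ h3
    rwa [G.al_al d h1] at h4
  al_al := fun d hd => G.al_al d (mem_sdiff.1 hd).1
  noloop := fun d hd => G.noloop d (mem_sdiff.1 hd).1

theorem Wt.del {G : MG V D} {z : D → ℝ} {t : V → ℝ} (h : G.Wt z t) {S : Finset D}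
    (hSs : S ⊆ G.ds) (hS : ∀ d ∈ S, G.al d ∈ S) : (G.delG S hS).Wt z (kt G z t S) := by
  refine Wt.of_ed ?_ ?_ ?_ ?_ ?_
  · intro d hd
    exact h.z0 d (mem_sdiff.1 hd).1
  · intro v hv
    have h1 : 0 ≤ ∑ d ∈ S.filter fun d => G.pi d = v, z d :=
      sum_nonneg fun d hd => h.z0 d (hSs (mem_filter.1 hd).1)
    have h2 := h.t0 v hv
    unfold kt
    linarith
  · intro d hd
    exact h.sym d (mem_sdiff.1 hd).1
  · intro v hv
    have h1 := h.deg v hv
    have h2 : ∑ d ∈ G.st v, z d = ∑ d ∈ (G.delG S hS).st v, z d +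
        ∑ d ∈ S.filter fun d => G.pi d = v, z d := by
      rw [← sum_union]
      · refine sum_congr ?_ fun _ _ => rfl
        ext d
        rw [mem_union, mem_st, mem_st, mem_filter]
        change _ ↔ (d ∈ G.ds \ S ∧ G.pi d = v) ∨ _
        rw [mem_sdiff]
        constructor
        · rintro ⟨h3, h4⟩
          by_cases h5 : d ∈ S
          · exact Or.inr ⟨h5, h4⟩
          · exact Or.inl ⟨⟨h3, h5⟩, h4⟩
        · rintro (⟨⟨h3, -⟩, h4⟩ | ⟨h3, h4⟩)
          · exact ⟨h3, h4⟩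
          · exact ⟨hSs h3, h4⟩
      · rw [disjoint_left]
        intro d h3 h4
        exact (mem_sdiff.1 (mem_st.1 h3).1).2 (mem_filter.1 h4).1
    unfold kt
    linarith
  · intro X hX ho
    refine le_trans ?_ (h.ed_odd hX ho)
    refine sum_le_sum_of_subset_of_nonneg ?_ fun d hd _ => h.z0 d (mem_ed.1 hd).1
    intro d hd
    obtain ⟨h1, h2, h3⟩ := mem_ed.1 hd
    exact mem_ed.2 ⟨(mem_sdiff.1 h1).1, h2, h3⟩

/-! ### half matchings -/

/-- a matching of the vertices of `Z` by darts at `Z` -/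
structure Half (G : MG V D) (Z : Finset V) (M : Finset D) : Prop where
  sub : ∀ d ∈ M, d ∈ G.ds ∧ G.pi d ∈ Z
  cl : ∀ d ∈ M, G.pi (G.al d) ∈ Z → G.al d ∈ M
  one : ∀ v ∈ Z, (M.filter fun d => G.pi d = v).card = 1

theorem Half.glue {G : MG V D} {Z Y : Finset V} {M1 M2 : Finset D} (h1 : G.Half Y M1)
    (h2 : G.Half Z M2) (hd : Disjoint Y Z) (hu : G.vs = Y ∪ Z)
    (hx : ∀ d ∈ G.ds, G.pi d ∈ Z → G.pi (G.al d) ∈ Y → (d ∈ M2 ↔ G.al d ∈ M1)) :
    G.IsPM (M1 ∪ M2) := by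
  have hor : ∀ d ∈ G.ds, G.pi d ∈ Y ∨ G.pi d ∈ Z := fun d hd' => by
    have := G.pi_mem d hd'
    rw [hu] at this
    exact mem_union.1 this
  refine ⟨?_, ?_, ?_⟩
  · intro d hd'
    rcases mem_union.1 hd' with h3 | h3
    · exact (h1.sub d h3).1
    · exact (h2.sub d h3).1
  · intro d hd'
    rcases mem_union.1 hd' with h3 | h3
    · obtain ⟨h4, h5⟩ := h1.sub d h3
      have h6 := G.al_mem d h4
      rcases hor _ h6 with h7 | h7
      · exact mem_union_left _ (h1.cl d h3 h7)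
      · refine mem_union_right _ ((hx _ h6 h7 ?_).2 ?_)
        · rw [G.al_al d h4]; exact h5
        · rw [G.al_al d h4]; exact h3
    · obtain ⟨h4, h5⟩ := h2.sub d h3
      have h6 := G.al_mem d h4
      rcases hor _ h6 with h7 | h7
      · exact mem_union_left _ ((hx d h4 h5 h7).1 h3)
      · exact mem_union_right _ (h2.cl d h3 h7)
  · intro v hv
    rw [hu, mem_union] at hv
    rw [filter_union]
    rcases hv with h3 | h3
    · have e : (M2.filter fun d => G.pi d = v) = ∅ := by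
        rw [eq_empty_iff_forall_notMem]
        intro d hd'
        obtain ⟨h4, h5⟩ := mem_filter.1 hd'
        exact disjoint_left.1 hd h3 (h5 ▸ (h2.sub d h4).2)
      rw [e, union_empty]
      exact h1.one v h3
    · have e : (M1.filter fun d => G.pi d = v) = ∅ := by
        rw [eq_empty_iff_forall_notMem]
        intro d hd'
        obtain ⟨h4, h5⟩ := mem_filter.1 hd'
        exact disjoint_left.1 hd (h5 ▸ (h1.sub d h4).2) h3
      rw [e, empty_union]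
      exact h2.one v h3

/-! ### sides -/

/-- `G'` looks like `G` on `Z`, except that the crossing darts of `Del` are deleted -/
structure Side (G G' : MG V D) (Z : Finset V) (Del : Finset D) : Prop where
  ZG : Z ⊆ G.vs
  Zs : Z ⊆ G'.vs
  del : ∀ d ∈ Del, d ∈ G.ds ∧ G.pi d ∈ Z ∧ G.pi (G.al d) ∉ Z
  up : ∀ d ∈ G.ds, G.pi d ∈ Z → d ∉ Del → d ∈ G'.ds ∧ G'.pi d = G.pi d ∧ G'.al d = G.al d
  dn : ∀ d ∈ G'.ds, G'.pi d ∈ Z → d ∈ G.ds ∧ G.pi d = G'.pi d ∧ d ∉ Del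
  out : ∀ d ∈ G.ds, G.pi d ∈ Z → d ∉ Del → G.pi (G.al d) ∉ Z → G'.pi (G.al d) ∉ Z

variable {G G' : MG V D} {z z' : D → ℝ} {t : V → ℝ} {Z Y W : Finset V} {Del : Finset D}
variable {fr fr' : Finset V} {F F' : Finset D} {jm jm' B : Finset V} {ω : V}

theorem Side.inn (s : Side G G' Z Del) {d : D} (hd : d ∈ G.ds) (hZ : G.pi d ∈ Z)
    (hZ' : G.pi (G.al d) ∈ Z) : d ∈ G'.ds ∧ G'.pi d = G.pi d ∧ G'.al d = G.al d ∧
      G.al d ∈ G'.ds ∧ G'.pi (G.al d) = G.pi (G.al d) := by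
  have h1 : d ∉ Del := fun h2 => (s.del d h2).2.2 hZ'
  have h2 : G.al d ∉ Del := fun h3 => (s.del _ h3).2.2 (by rw [G.al_al d hd]; exact hZ)
  obtain ⟨h3, h4, h5⟩ := s.up d hd hZ h1
  obtain ⟨h6, h7, -⟩ := s.up _ (G.al_mem d hd) hZ' h2
  exact ⟨h3, h4, h5, h6, h7⟩

/-- the other end in `G'` and in `G` -/
theorem Side.pi_al (s : Side G G' Z Del) {d : D} (hd : d ∈ G'.ds) (hZ : G'.pi d ∈ Z) {v : V}
    (hv : v ∈ Z) : G'.pi (G'.al d) = v ↔ G.pi (G.al d) = v := by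
  obtain ⟨h1, h2, h3⟩ := s.dn d hd hZ
  have hZ2 : G.pi d ∈ Z := by rw [h2]; exact hZ
  obtain ⟨h4, h5, h6⟩ := s.up d h1 hZ2 h3
  rw [h6]
  by_cases h7 : G.pi (G.al d) ∈ Z
  · obtain ⟨-, -, -, -, h8⟩ := s.inn h1 hZ2 h7
    rw [h8]
  · have h8 := s.out d h1 hZ2 h3 h7
    constructor
    · intro h9
      exact absurd (h9 ▸ hv) h8
    · intro h9
      exact absurd (h9 ▸ hv) h7

theorem Side.bd (s : Side G G' Z Del) {X : Finset V} (hX : X ⊆ Z) :
    G'.bd X = G.bd X \ Del := by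
  ext d
  rw [mem_sdiff, mem_bd, mem_bd]
  constructor
  · rintro ⟨h1, h2, h3⟩
    obtain ⟨h4, h5, h6⟩ := s.dn d h1 (hX h2)
    refine ⟨⟨h4, by rw [h5]; exact h2, fun h7 => h3 ?_⟩, h6⟩
    have h8 := (s.pi_al h1 (hX h2) (hX h7)).2 rfl
    rw [h8]
    exact h7
  · rintro ⟨⟨h1, h2, h3⟩, h4⟩
    obtain ⟨h5, h6, h7⟩ := s.up d h1 (hX h2) h4
    refine ⟨h5, by rw [h6]; exact h2, fun h8 => h3 ?_⟩
    have h9 := (s.pi_al h5 (by rw [h6]; exact hX h2) (hX h8)).1 rfl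
    rw [h9]
    exact h8

/-- a perfect matching of `G'` gives a half matching of `G` -/
theorem Side.half (s : Side G G' Z Del) {M' : Finset D} (hM : G'.IsPM M') :
    G.Half Z (M'.filter fun d => G'.pi d ∈ Z) := by
  refine ⟨?_, ?_, ?_⟩
  · intro d hd
    obtain ⟨h1, h2⟩ := mem_filter.1 hd
    obtain ⟨h3, h4, -⟩ := s.dn d (hM.sub h1) h2
    exact ⟨h3, by rw [h4]; exact h2⟩
  · intro d hd hZ
    obtain ⟨h1, h2⟩ := mem_filter.1 hd
    obtain ⟨h3, h4, -⟩ := s.dn d (hM.sub h1) h2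
    obtain ⟨-, -, h5, -, h6⟩ := s.inn h3 (by rw [h4]; exact h2) hZ
    refine mem_filter.2 ⟨?_, by rw [h6]; exact hZ⟩
    rw [← h5]
    exact hM.closed d h1
  · intro v hv
    rw [← hM.one v (s.Zs hv)]
    congr 1
    ext d
    rw [mem_filter, mem_filter, mem_filter]
    constructor
    · rintro ⟨⟨h1, h2⟩, h3⟩
      obtain ⟨-, h4, -⟩ := s.dn d (hM.sub h1) h2
      exact ⟨h1, h4.symm.trans h3⟩
    · rintro ⟨h1, h2⟩
      have h3 : G'.pi d ∈ Z := by rw [h2]; exact hv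
      obtain ⟨-, h4, -⟩ := s.dn d (hM.sub h1) h3
      exact ⟨⟨h1, h3⟩, h4.trans h2⟩

/-- the frame conditions on a side -/
theorem Side.frB (s : Side G G' Z Del) (hF : G.FrS z fr F jm)
    (fsub : fr' ⊆ G'.vs) (Fsub : F' ⊆ G'.ds) (Fal : ∀ d ∈ F', G'.al d ∈ F') (jms : jm' ⊆ fr')
    (hfZ : ∀ v ∈ fr', v ∈ Z → v ∈ fr)
    (hFF : ∀ d ∈ G.ds, G.pi d ∈ Z → d ∉ Del → G.pi d ∉ B → (d ∈ F' ↔ d ∈ F))
    (hz : ∀ d ∈ G.ds, G.pi d ∈ Z → d ∉ Del → z' d = z d)
    (hDel : ∀ d ∈ Del, G.pi d ∈ fr' → G.pi d ∈ B ∨ (G.pi d ∈ jm' ∧ d ∉ F))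
    (hj1 : ∀ v ∈ Z, v ∈ jm' → v ∈ jm ∨ ∃ d ∈ Del, G.pi d = v ∧ d ∉ F)
    (hj2 : ∀ v ∈ Z, v ∈ fr' → v ∈ jm → v ∈ jm' ∨ v ∈ B)
    (two : ∀ v ∈ fr', v ∉ Z → v ∉ B → (F'.filter fun d => G'.pi d = v).card = 2)
    (jd : ∀ v ∈ fr', v ∉ Z → v ∉ B → v ∉ jm' → ((G'.st v).filter fun d => d ∉ F').card = 1)
    (j0 : ∀ v ∈ jm', v ∉ Z → v ∉ B → ∀ d ∈ G'.st v, d ∈ F')
    (unit : ∀ d ∈ G'.ds, G'.pi d ∈ fr' → G'.pi d ∉ Z → G'.pi d ∉ B → z' d = 1) :
    G'.FrB z' fr' F' jm' B := by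
  refine ⟨fsub, Fsub, Fal, jms, ?_, ?_, ?_, ?_⟩
  · intro v hv hB
    by_cases hZ : v ∈ Z
    · rw [← hF.two v (hfZ v hv hZ)]
      congr 1
      ext d
      rw [mem_filter, mem_filter]
      constructor
      · rintro ⟨h1, h2⟩
        obtain ⟨h3, h4, h5⟩ := s.dn d (Fsub h1) (by rw [h2]; exact hZ)
        have h6 : G.pi d = v := h4.trans h2
        exact ⟨(hFF d h3 (by rw [h6]; exact hZ) h5 (by rw [h6]; exact hB)).1 h1, h6⟩
      · rintro ⟨h1, h2⟩
        have h3 := hF.Fsub h1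
        have h4 : d ∉ Del := by
          intro h5
          rcases hDel d h5 (by rw [h2]; exact hv) with h6 | ⟨-, h6⟩
          · exact hB (h2 ▸ h6)
          · exact h6 h1
        have h5 : G.pi d ∈ Z := by rw [h2]; exact hZ
        exact ⟨(hFF d h3 h5 h4 (by rw [h2]; exact hB)).2 h1, (s.up d h3 h5 h4).2.1.trans h2⟩
    · exact two v hv hZ hB
  · intro v hv hB hj
    by_cases hZ : v ∈ Z
    · have hj' : v ∉ jm := by
        intro h1
        rcases hj2 v hZ hv h1 with h2 | h2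
        · exact hj h2
        · exact hB h2
      have hnD : ∀ d, G.pi d = v → d ∉ Del := by
        intro d h1 h2
        rcases hDel d h2 (by rw [h1]; exact hv) with h3 | ⟨h3, -⟩
        · exact hB (h1 ▸ h3)
        · exact hj (h1 ▸ h3)
      rw [← hF.jd v (hfZ v hv hZ) hj']
      congr 1
      ext d
      rw [mem_filter, mem_filter, mem_st, mem_st]
      constructor
      · rintro ⟨⟨h1, h2⟩, h3⟩
        obtain ⟨h4, h5, h6⟩ := s.dn d h1 (by rw [h2]; exact hZ)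
        have h7 : G.pi d = v := h5.trans h2
        exact ⟨⟨h4, h7⟩, fun h8 => h3 ((hFF d h4 (by rw [h7]; exact hZ) h6
          (by rw [h7]; exact hB)).2 h8)⟩
      · rintro ⟨⟨h1, h2⟩, h3⟩
        have h4 := hnD d h2
        have h5 : G.pi d ∈ Z := by rw [h2]; exact hZ
        obtain ⟨h6, h7, -⟩ := s.up d h1 h5 h4
        exact ⟨⟨h6, h7.trans h2⟩, fun h8 => h3 ((hFF d h1 h5 h4 (by rw [h2]; exact hB)).1 h8)⟩
    · exact jd v hv hZ hB hj
  · intro v hv hB d hd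
    by_cases hZ : v ∈ Z
    · obtain ⟨h1, h2⟩ := mem_st.1 hd
      obtain ⟨h3, h4, h5⟩ := s.dn d h1 (by rw [h2]; exact hZ)
      have h6 : G.pi d = v := h4.trans h2
      rw [hFF d h3 (by rw [h6]; exact hZ) h5 (by rw [h6]; exact hB)]
      rcases hj1 v hZ hv with h7 | ⟨e, h7, h8, h9⟩
      · exact hF.j0 v h7 d (mem_st.2 ⟨h3, h6⟩)
      · by_contra h10
        have hvf := hfZ v (jms hv) hZ
        by_cases h11 : v ∈ jm
        · exact h10 (hF.j0 v h11 d (mem_st.2 ⟨h3, h6⟩))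
        · obtain ⟨j, -, -, -, j4⟩ := hF.exists_jd hvf h11
          have e1 := j4 d h3 h6 h10
          have e2 := j4 e (s.del e h7).1 h8 h9
          rw [e1, ← e2] at h5
          exact h5 h7
    · exact j0 v hv hZ hB d hd
  · intro d hd hp hB
    by_cases hZ : G'.pi d ∈ Z
    · obtain ⟨h3, h4, h5⟩ := s.dn d hd hZ
      have h6 : G.pi d ∈ Z := by rw [h4]; exact hZ
      rw [hz d h3 h6 h5]
      exact hF.unit d h3 (by rw [h4]; exact hfZ _ hp hZ)
    · exact unit d hd hp hZ hB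

/-! ### sides of the operations -/

theorem side_con (hω : ω ∈ Y) (hY : Y ⊆ G.vs) : Side G (G.con Y ω hω hY) (G.vs \ Y) ∅ := by
  refine ⟨sdiff_subset, fun v hv => mem_union_left _ hv, fun d hd => absurd hd (notMem_empty d),
    ?_, ?_, ?_⟩
  · intro d hd hp _
    obtain ⟨-, h1⟩ := mem_sdiff.1 hp
    refine ⟨mem_filter.2 ⟨hd, fun h2 => h1 h2.1⟩, ?_, rfl⟩
    simp [con, h1]
  · intro d hd hp
    obtain ⟨h1, -⟩ := mem_filter.1 hd
    obtain ⟨-, h2⟩ := mem_sdiff.1 hp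
    by_cases h3 : G.pi d ∈ Y
    · have h4 : (G.con Y ω hω hY).pi d = ω := by simp [con, h3]
      rw [h4] at h2
      exact absurd hω h2
    · exact ⟨h1, by simp [con, h3], notMem_empty d⟩
  · intro d hd _ _ h2
    have h3 : G.pi (G.al d) ∈ Y := by
      by_contra h4
      exact h2 (mem_sdiff.2 ⟨G.pi_mem _ (G.al_mem d hd), h4⟩)
    have h4 : (G.con Y ω hω hY).pi (G.al d) = ω := by simp [con, h3]
    rw [h4]
    exact fun h5 => (mem_sdiff.1 h5).2 hω

theorem Side.delG (s : Side G G' Z Del) {S : Finset D} (hS : ∀ d ∈ S, G'.al d ∈ S)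
    (hSs : S ⊆ G'.ds) (hc : ∀ d ∈ S, G'.pi d ∈ Z → G'.pi (G'.al d) ∉ Z) :
    Side G (G'.delG S hS) Z (Del ∪ S.filter fun d => G'.pi d ∈ Z) := by
  refine ⟨s.ZG, s.Zs, ?_, ?_, ?_, ?_⟩
  · intro d hd
    rcases mem_union.1 hd with h1 | h1
    · exact s.del d h1
    · obtain ⟨h2, h3⟩ := mem_filter.1 h1
      obtain ⟨h4, h5, h6⟩ := s.dn d (hSs h2) h3
      refine ⟨h4, by rw [h5]; exact h3, fun h7 => hc d h2 h3 ?_⟩
      have h8 := (s.pi_al (hSs h2) h3 h7).2 rfl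
      rw [h8]
      exact h7
  · intro d hd hp h1
    have h2 : d ∉ Del := fun h3 => h1 (mem_union_left _ h3)
    obtain ⟨h3, h4, h5⟩ := s.up d hd hp h2
    refine ⟨mem_sdiff.2 ⟨h3, fun h6 => h1 (mem_union_right _ (mem_filter.2 ⟨h6, ?_⟩))⟩, h4, h5⟩
    rw [h4]
    exact hp
  · intro d hd hp
    obtain ⟨h1, h2⟩ := mem_sdiff.1 hd
    obtain ⟨h3, h4, h5⟩ := s.dn d h1 hp
    refine ⟨h3, h4, fun h6 => ?_⟩
    rcases mem_union.1 h6 with h7 | h7
    · exact h5 h7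
    · exact h2 (mem_filter.1 h7).1
  · intro d hd hp h1 h2
    exact s.out d hd hp (fun h3 => h1 (mem_union_left _ h3)) h2

theorem Side.exG (s : Side G G' Z Del) {w a b c : V} {R : Finset D} {e e' h h' : D}
    (x : ExD G' w a b c R e e' h h') (hw : w ∉ Z)
    (hn : e ∉ G.ds ∧ e' ∉ G.ds ∧ h ∉ G.ds ∧ h' ∉ G.ds) :
    Side G (MG.exG x) Z Del := by
  have ha : a ∉ Z := fun h1 => x.ha (s.Zs h1)
  have hb : b ∉ Z := fun h1 => x.hb (s.Zs h1)
  have hc : c ∉ Z := fun h1 => x.c_not (s.Zs h1)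
  obtain ⟨n1, n2, n3, n4⟩ := hn
  have hold : ∀ d ∈ G'.ds, G'.pi d ∈ Z → exPi G' w a b c R e e' h h' d = G'.pi d := by
    intro d hd hp
    rw [x.pi_old hd, if_neg fun h1 => hw (by rw [← (x.hR d h1).2]; exact hp)]
  refine ⟨s.ZG, fun v hv => ?_, s.del, ?_, ?_, ?_⟩
  · change v ∈ insert a (insert b G'.vs)
    exact mem_insert_of_mem (mem_insert_of_mem (s.Zs hv))
  · intro d hd hp h1
    obtain ⟨h3, h4, h5⟩ := s.up d hd hp h1
    refine ⟨?_, ?_, ?_⟩
    · change d ∈ insert e (insert e' (insert h (insert h' G'.ds)))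
      simp only [mem_insert]
      exact Or.inr (Or.inr (Or.inr (Or.inr h3)))
    · change exPi G' w a b c R e e' h h' d = _
      rw [hold d h3 (by rw [h4]; exact hp)]
      exact h4
    · change exAl G' e e' h h' d = _
      rw [x.al_old h3]
      exact h5
  · intro d hd hp
    change d ∈ insert e (insert e' (insert h (insert h' G'.ds))) at hd
    change exPi G' w a b c R e e' h h' d ∈ Z at hp
    change _ ∧ _ = exPi G' w a b c R e e' h h' d ∧ _
    simp only [mem_insert] at hd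
    rcases hd with rfl | rfl | rfl | rfl | hd
    · rw [x.pi_e] at hp; exact absurd hp hw
    · rw [x.pi_e'] at hp; exact absurd hp ha
    · rw [x.pi_h] at hp; exact absurd hp ha
    · rw [x.pi_h'] at hp; exact absurd hp hb
    · rw [x.pi_old hd] at hp ⊢
      by_cases h1 : d ∈ R
      · rw [if_pos h1] at hp
        exact absurd hp hc
      · rw [if_neg h1] at hp ⊢
        exact s.dn d hd hp
  · intro d hd hp h1 h2
    change exPi G' w a b c R e e' h h' (G.al d) ∉ Z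
    have h3 := s.out d hd hp h1 h2
    obtain ⟨h4, h5, h6⟩ := s.up d hd hp h1
    have h7 : G.al d ∈ G'.ds := by
      rw [← h6]
      exact G'.al_mem d h4
    rw [x.pi_old h7]
    by_cases h8 : G.al d ∈ R
    · rw [if_pos h8]; exact hc
    · rw [if_neg h8]; exact h3

end MG

end RH
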