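import Pool.Agent.Lib.RH.A4

/-! # (A4), extended

States with 4 tokens which are strict except for sets which contain all edges that may be killed
(helper95). `E4B G t fr F jm F0 K0`: odd sets have value 5, or value at least 3 and contain every edge
which is not in `F0`, not in `K0` and not at two tokens; even sets have value 4, or value at least 2
and the same. `K0`: edges in every perfect matching. These states are solvable. -/

set_option autoImplicit false

namespace RH

open Finset Classical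

namespace MG

variable {V D : Type*}

/-- all edges which may be killed lie inside `X` -/
def Kin (G : MG V D) (t : V → ℝ) (F0 K0 : Finset D) (X : Finset V) : Prop :=
  ∀ g ∈ G.ds, g ∉ F0 → g ∉ K0 → t (G.pi g) ≤ 1 → t (G.pi (G.al g)) ≤ 1 →
    G.pi g ∈ X ∧ G.pi (G.al g) ∈ X

/-- a state with 4 tokens; sets of smaller value contain all edges which may be killed -/
structure E4B (G : MG V D) (t : V → ℝ) (fr : Finset V) (F : Finset D) (jm : Finset V)
    (F0 K0 : Finset D) : Prop where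
  even : Even G.vs.card
  fresh : G.FrS one1 fr F jm
  jm2 : jm = ∅ ∨ jm.card = 2
  deg : ∀ v ∈ G.vs, ((G.st v).card : ℝ) + t v = 3
  t0 : ∀ v ∈ G.vs, 0 ≤ t v
  t2 : ∀ v ∈ G.vs, t v ≤ 2
  tau : ∑ v ∈ G.vs, t v = 4
  odd3 : ∀ X ⊆ G.vs, Odd X.card → 3 ≤ G.val one1 t X
  odd : ∀ X ⊆ G.vs, Odd X.card → X.card ≠ 1 → (G.vs \ X).card ≠ 1 → 5 ≤ G.val one1 t X ∨
    Kin G t F0 K0 X
  ev2 : ∀ X ⊆ G.vs, Even X.card → X.Nonempty → X ≠ G.vs → 2 ≤ G.val one1 t X
  evn : ∀ X ⊆ G.vs, Even X.card → X.Nonempty → X ≠ G.vs → 4 ≤ G.val one1 t X ∨ Kin G t F0 K0 X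
  c5 : ∀ X, G.Adm fr F X → Odd X.card → 5 ≤ (G.bd X).card + (X ∩ jm).card
  c6 : ∀ X, G.Adm fr F X → Even X.card → X.Nonempty → 6 ≤ (G.bd X).card + (X ∩ jm).card
  f0s : F ⊆ F0
  f0r : ∀ d ∈ F0, G.pi d ∈ fr → d ∈ F
  k0m : ∀ M, G.IsPM M → ∀ d ∈ K0, d ∈ M
  k0c : ∀ C, G.Circ fr F C → ((G.bd C).filter fun d => d ∈ K0).card ≤ 2
  fj : jm = ∅ ∨ (F0 = F ∧ K0 = ∅)

variable {G : MG V D} {t : V → ℝ} {fr fr1 : Finset V} {F F0 K0 : Finset D} {jm jm1 : Finset V}

namespace E4B

theorem val_single (h : E4B G t fr F jm F0 K0) {v : V} (hv : v ∈ G.vs) : G.val one1 t {v} = 3 := by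
  rw [val_one, sum_singleton, ← h.deg v hv]
  congr 2
  congr 1
  ext d
  rw [mem_bd, mem_st, mem_singleton, mem_singleton]
  constructor
  · rintro ⟨k1, k2, _⟩
    exact ⟨k1, k2⟩
  · rintro ⟨k1, k2⟩
    exact ⟨k1, k2, fun k3 => G.noloop d k1 (k3.trans k2.symm)⟩

/-- the value of the complement -/
theorem val_compl (h : E4B G t fr F jm F0 K0) {X : Finset V} (hX : X ⊆ G.vs) :
    G.val one1 t (G.vs \ X) = G.val one1 t X + 4 - 2 * ∑ v ∈ X, t v := by
  have h1 : (G.bd (G.vs \ X)).card = (G.bd X).card := by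
    rw [bd_eq_ed, bd_eq_ed, Finset.sdiff_sdiff_eq_self hX]
    refine card_bij (fun d _ => G.al d) ?_ ?_ ?_
    · intro d hd
      obtain ⟨k1, k2, k3⟩ := mem_ed.1 hd
      exact mem_ed.2 ⟨G.al_mem d k1, k3, by rw [G.al_al d k1]; exact k2⟩
    · intro d hd e he k
      rw [← G.al_al d (mem_ed.1 hd).1, k, G.al_al e (mem_ed.1 he).1]
    · intro d hd
      obtain ⟨k1, k2, k3⟩ := mem_ed.1 hd
      exact ⟨G.al d, mem_ed.2 ⟨G.al_mem d k1, k3, by rw [G.al_al d k1]; exact k2⟩,
        G.al_al d k1⟩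
  have h2 := sum_sdiff hX (f := t)
  have h3 := h.tau
  rw [val_one, val_one, h1]
  linarith

theorem wt (h : E4B G t fr F jm F0 K0) : G.Wt one1 t where
  z0 := fun _ _ => zero_le_one
  t0 := h.t0
  sym := fun _ _ => rfl
  deg := fun v hv => by
    have h1 := h.deg v hv
    have h2 : ∑ d ∈ G.st v, one1 d = (G.st v).card := by
      unfold one1
      rw [sum_const, nsmul_eq_mul, mul_one]
    rw [h2]
    exact h1
  cut := fun X hX ho => h.odd3 X hX ho

/-- tokens are 0, 1 or 2 -/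
theorem tnat (h : E4B G t fr F jm F0 K0) {v : V} (hv : v ∈ G.vs) : t v = 0 ∨ t v = 1 ∨ t v = 2 := by
  have h1 := h.deg v hv
  have h2 := h.t0 v hv
  have h3 := h.t2 v hv
  have h4 : (G.st v).card ≤ 3 := by
    have : ((G.st v).card : ℝ) ≤ (3 : ℕ) := by
      push_cast
      linarith
    exact_mod_cast this
  have h5 : 1 ≤ (G.st v).card := by
    have : ((1 : ℕ) : ℝ) ≤ ((G.st v).card : ℝ) := by
      push_cast
      linarith
    exact_mod_cast this
  rcases Nat.lt_or_ge (G.st v).card 2 with k | k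
  · have k1 : (G.st v).card = 1 := by omega
    rw [k1] at h1
    push_cast at h1
    exact Or.inr (Or.inr (by linarith))
  · rcases Nat.lt_or_ge (G.st v).card 3 with k2 | k2
    · have k1 : (G.st v).card = 2 := by omega
      rw [k1] at h1
      push_cast at h1
      exact Or.inr (Or.inl (by linarith))
    · have k1 : (G.st v).card = 3 := by omega
      rw [k1] at h1
      push_cast at h1
      exact Or.inl (by linarith)

/-- the end of a J-dart is not in the star -/
theorem not_jm (h : E4B G t fr F jm F0 K0) {g : D} (hg : g ∈ G.ds) (hgF : g ∉ F) : G.pi g ∉ jm :=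
  fun hh => hgF (h.fresh.j0 _ hh g (mem_st.2 ⟨hg, rfl⟩))

end E4B

namespace E4B

/-- **kill one edge**: a state with 6 tokens -/
theorem kill (h : E4B G t fr F jm F0 K0) {g : D} (hg : g ∈ G.ds) (hg0 : g ∉ F0) (hgK : g ∉ K0)
    (t1 : t (G.pi g) ≤ 1) (t2 : t (G.pi (G.al g)) ≤ 1)
    (hs : fr1 ⊆ fr) (hcl : ∀ d ∈ F, G.pi d ∈ fr1 → G.pi (G.al d) ∈ fr1) (hjs : jm1 ⊆ fr1)
    (hj : ∀ v ∈ fr1, v ∈ jm1 ↔ (v ∈ jm ∨ v = G.pi g ∨ v = G.pi (G.al g)))
    (hj2 : jm1 = ∅ ∨ jm1.card = 2) :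
    (G.delG {g, G.al g} (pair_al hg)).EK 6 (kt G one1 t {g, G.al g}) fr1
      (F.filter fun d => G.pi d ∈ fr1) jm1 := by
  have hgF : g ∉ F := fun k => hg0 (h.f0s k)
  have hF := h.fresh
  have hag := G.al_mem g hg
  have haa := G.al_al g hg
  have hagF : G.al g ∉ F := fun hh => hgF (by rw [← haa]; exact hF.Fal _ hh)
  have hne : g ≠ G.al g := fun hh => G.noloop g hg (by rw [← hh])
  have hSs : ({g, G.al g} : Finset D) ⊆ G.ds := by
    intro d hd
    rw [mem_insert, mem_singleton] at hd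
    rcases hd with rfl | rfl
    · exact hg
    · exact hag
  have hval : ∀ X, (G.delG {g, G.al g} (pair_al hg)).val one1 (kt G one1 t {g, G.al g}) X =
      G.val one1 t X + ((({g, G.al g} : Finset D).filter fun d =>
        G.pi d ∈ X ∧ G.pi (G.al d) ∈ X).card : ℝ) := fun X => delG_val hSs X
  have hin : ∀ X : Finset V, G.pi g ∈ X → G.pi (G.al g) ∈ X →
      ((({g, G.al g} : Finset D).filter fun d => G.pi d ∈ X ∧ G.pi (G.al d) ∈ X).card : ℝ) = 2 := by
    intro X k1 k2
    rw [filter_true_of_mem, card_pair hne]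
    · norm_num
    · intro d hd
      rw [mem_insert, mem_singleton] at hd
      rcases hd with rfl | rfl
      · exact ⟨k1, k2⟩
      · rw [haa]
        exact ⟨k2, k1⟩
  have h0 : ∀ X : Finset V, (0 : ℝ) ≤ ((({g, G.al g} : Finset D).filter fun d =>
      G.pi d ∈ X ∧ G.pi (G.al d) ∈ X).card : ℝ) := fun X => Nat.cast_nonneg _
  refine ⟨h.even, hF.kill hg hgF hs hcl hjs hj, hj2, ?_, ?_, ?_, ?_, ?_, ?_⟩
  · intro v hv
    have e1 := delG_st_card (hS := pair_al hg) hSs v
    have e2 := h.deg v hv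
    rw [kt_one, ← e2, ← e1]
    push_cast
    ring
  · intro v hv
    rw [kt_one]
    have := h.t0 v hv
    positivity
  · have e1 := kill_tau h.wt hSs (pair_al hg)
    have e2 : ∑ d ∈ ({g, G.al g} : Finset D), one1 d = 2 := by
      unfold one1
      rw [sum_const, card_pair hne]
      norm_num
    rw [e2, h.tau] at e1
    change ∑ v ∈ G.vs, _ = _
    rw [e1]
    norm_num
  · intro X hX ho h1
    change X ⊆ G.vs at hX
    rw [hval]
    by_cases h2 : (G.vs \ X).card = 1
    · obtain ⟨w, hw⟩ := card_eq_one.1 h2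
      have hwm : w ∈ G.vs \ X := by rw [hw]; exact mem_singleton_self w
      have hwv := (mem_sdiff.1 hwm).1
      have h3 := h.val_compl (singleton_subset_iff.2 hwv)
      rw [← hw, Finset.sdiff_sdiff_eq_self hX, hw, h.val_single hwv, sum_singleton] at h3
      have h4 := h.t2 w hwv
      by_cases h5 : t w ≤ 1
      · have := h0 X
        linarith
      · have h6 : ∀ v ∈ G.vs, v ≠ w → v ∈ X := by
          intro v hv hne'
          by_contra hvX
          have : v ∈ G.vs \ X := mem_sdiff.2 ⟨hv, hvX⟩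
          rw [hw, mem_singleton] at this
          exact hne' this
        rw [hin X (h6 _ (G.pi_mem g hg) (by rintro hh; rw [hh] at t1; exact h5 t1))
          (h6 _ (G.pi_mem _ hag) (by rintro hh; rw [hh] at t2; exact h5 t2))]
        linarith
    · rcases h.odd X hX ho h1 h2 with k | k
      · have := h0 X
        linarith
      · obtain ⟨k1, k2⟩ := k g hg hg0 hgK t1 t2
        rw [hin X k1 k2]
        have := h.odd3 X hX ho
        linarith
  · intro X hX he hn hne'
    change X ⊆ G.vs at hX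
    change X ≠ G.vs at hne'
    rw [hval]
    rcases h.evn X hX he hn hne' with k | k
    · have := h0 X
      linarith
    · obtain ⟨k1, k2⟩ := k g hg hg0 hgK t1 t2
      rw [hin X k1 k2]
      have := h.ev2 X hX he hn hne'
      linarith
  · intro X hX he hn
    have hXA : G.Adm fr F X :=
      adm_res (G := G) (G' := G.delG {g, G.al g} (pair_al hg)) hs rfl rfl hX
    have hXs : X ⊆ fr1 := hX.sub
    have c2 := h.c6 X hXA he hn
    have key : (G.bd X).card + (X ∩ jm).card ≤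
        ((G.delG {g, G.al g} (pair_al hg)).bd X).card + (X ∩ jm1).card := by
      have e1 : ((G.bd X).filter fun d => d ∉ ({g, G.al g} : Finset D)).card +
          ((G.bd X).filter fun d => ¬ d ∉ ({g, G.al g} : Finset D)).card = (G.bd X).card :=
        card_filter_add_card_filter_not (s := G.bd X) _
      rw [delG_bd, ← e1]
      have e2 : ((G.bd X).filter fun d => ¬ d ∉ ({g, G.al g} : Finset D)).card +
          (X ∩ jm).card ≤ (X ∩ jm1).card := by
        have e3 : (((G.bd X).filter fun d => ¬ d ∉ ({g, G.al g} : Finset D)).image G.pi ∪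
            (X ∩ jm)) ⊆ X ∩ jm1 := by
          intro v hv
          rcases mem_union.1 hv with k | k
          · obtain ⟨d, hd, rfl⟩ := mem_image.1 k
            rw [mem_filter, not_not, mem_bd, mem_insert, mem_singleton] at hd
            obtain ⟨⟨-, k1, -⟩, k3⟩ := hd
            refine mem_inter.2 ⟨k1, (hj _ (hXs k1)).2 ?_⟩
            rcases k3 with k3 | k3
            · rw [k3]; exact Or.inr (Or.inl rfl)
            · rw [k3]; exact Or.inr (Or.inr rfl)
          · obtain ⟨k1, k2⟩ := mem_inter.1 k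
            exact mem_inter.2 ⟨k1, (hj _ (hXs k1)).2 (Or.inl k2)⟩
        refine le_trans (le_of_eq ?_) (card_le_card e3)
        rw [card_union_of_disjoint, card_image_of_injOn]
        · intro d hd e he hde
          have hd' := mem_coe.1 hd
          have he' := mem_coe.1 he
          rw [mem_filter, not_not, mem_insert, mem_singleton] at hd' he'
          rcases hd'.2 with k1 | k1
          · rcases he'.2 with k2 | k2
            · rw [k1, k2]
            · rw [k1, k2] at hde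
              exact absurd hde.symm (G.noloop g hg)
          · rcases he'.2 with k2 | k2
            · rw [k1, k2] at hde
              exact absurd hde (G.noloop g hg)
            · rw [k1, k2]
        · rw [disjoint_left]
          intro v hv hv'
          obtain ⟨d, hd, rfl⟩ := mem_image.1 hv
          rw [mem_filter, not_not, mem_bd, mem_insert, mem_singleton] at hd
          obtain ⟨⟨k0, k1, -⟩, k3⟩ := hd
          refine h.not_jm k0 ?_ (mem_inter.1 hv').2
          rcases k3 with k3 | k3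
          · rw [k3]; exact hgF
          · rw [k3]; exact hagF
      omega
    exact c2.trans key

/-- absorb circuits -/
theorem absorb (h : E4B G t fr F jm F0 K0) (hs : fr1 ⊆ fr)
    (hcl : ∀ d ∈ F, G.pi d ∈ fr1 → G.pi (G.al d) ∈ fr1)
    (hk0 : Disjoint jm fr1) (hk1 : jm1 = ∅) :
    E4B G t fr1 (F.filter fun d => G.pi d ∈ fr1) jm1 F0 K0 := by
  have hk : (jm ⊆ fr1 ∧ jm1 = jm) ∨ (Disjoint jm fr1 ∧ jm1 = ∅) := Or.inr ⟨hk0, hk1⟩
  have hF := h.fresh
  have hjm1 : ∀ v ∈ fr1, (v ∈ jm1 ↔ v ∈ jm) := by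
    intro v hv
    rcases hk with ⟨-, rfl⟩ | ⟨h1, rfl⟩
    · rfl
    · exact ⟨fun h2 => absurd h2 (notMem_empty _), fun h2 => absurd hv (disjoint_left.1 h1 h2)⟩
  have hjs : jm1 ⊆ fr1 := by
    rcases hk with ⟨h1, rfl⟩ | ⟨h1, rfl⟩
    · exact h1
    · exact empty_subset _
  have e : ∀ X : Finset V, X ⊆ fr1 → X ∩ jm1 = X ∩ jm := by
    intro X hX
    ext v
    rw [mem_inter, mem_inter]
    constructor
    · rintro ⟨h1, h2⟩
      exact ⟨h1, (hjm1 v (hX h1)).1 h2⟩
    · rintro ⟨h1, h2⟩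
      exact ⟨h1, (hjm1 v (hX h1)).2 h2⟩
  refine ⟨h.even, ?_, ?_, h.deg, h.t0, h.t2, h.tau, h.odd3, h.odd, h.ev2, h.evn, ?_, ?_,
    (filter_subset _ _).trans h.f0s, fun d hd hp => mem_filter.2 ⟨h.f0r d hd (hs hp), hp⟩, h.k0m,
    ?_, Or.inl hk1⟩
  · refine ⟨hs.trans hF.fsub, (filter_subset _ _).trans hF.Fsub, ?_, ?_, ?_, hjs, ?_, ?_,
      fun _ _ _ => rfl⟩
    · intro d hd
      obtain ⟨h1, h2⟩ := mem_filter.1 hd
      exact mem_filter.2 ⟨hF.Fal d h1, hcl d h1 h2⟩
    · intro d hd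
      exact (mem_filter.1 hd).2
    · intro v hv
      rw [← hF.two v (hs hv)]
      congr 1
      ext d
      rw [mem_filter, mem_filter, mem_filter]
      constructor
      · rintro ⟨⟨h1, -⟩, h4⟩
        exact ⟨h1, h4⟩
      · rintro ⟨h1, rfl⟩
        exact ⟨⟨h1, hv⟩, rfl⟩
    · intro v hv hj
      rw [← hF.jd v (hs hv) (fun h1 => hj ((hjm1 v hv).2 h1))]
      congr 1
      apply filter_congr
      intro d hd
      have hp : G.pi d = v := (mem_st.1 hd).2
      rw [mem_filter, hp]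
      constructor
      · intro h1 h2
        exact h1 ⟨h2, hv⟩
      · intro h1 h2
        exact h1 h2.1
    · intro v hv d hd
      have hvf := hjs hv
      refine mem_filter.2 ⟨hF.j0 v ((hjm1 v hvf).1 hv) d hd, ?_⟩
      rw [(mem_st.1 hd).2]
      exact hvf
  · rcases hk with ⟨-, rfl⟩ | ⟨-, rfl⟩
    · exact h.jm2
    · exact Or.inl rfl
  · intro X hX ho
    rw [e X hX.sub]
    exact h.c5 X (adm_res (G := G) hs rfl rfl hX) ho
  · intro X hX he hn
    rw [e X hX.sub]
    exact h.c6 X (adm_res (G := G) hs rfl rfl hX) he hn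
  · intro C hC
    refine h.k0c C ⟨adm_res (G := G) hs rfl rfl hC.adm, hC.ne, fun X hX hXC hn => ?_, fun v hv => ?_⟩
    · exact hC.min X (adm_res' (G := G) rfl rfl hX (hXC.trans hC.adm.sub)) hXC hn
    · exact hF.two v (hs (hC.adm.sub hv))

/-- a certificate after a kill is a potential for the killed edge -/
theorem pot_of (h : E4B G t fr F jm F0 K0) {g : D} (hg : g ∈ G.ds) (hgF : g ∉ F) {p : V → ℝ}
    (hp : (G.delG {g, G.al g} (pair_al hg)).Pot one1 (kt G one1 t {g, G.al g})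
      (F.filter fun d => G.pi d ∈ fr1) ∅ p) : G.Pot one1 t F {g, G.al g} p := by
  have hF := h.fresh
  have haa := G.al_al g hg
  have hag := G.al_mem g hg
  have hagF : G.al g ∉ F := fun hh => hgF (by rw [← haa]; exact hF.Fal _ hh)
  have hFS : ∀ d ∈ F, d ∉ ({g, G.al g} : Finset D) := by
    intro d hd hdS
    rw [mem_insert, mem_singleton] at hdS
    rcases hdS with rfl | rfl
    · exact hgF hd
    · exact hagF hd
  have hend : ∀ e ∈ ({g, G.al g} : Finset D), p (G.pi e) = 1 := by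
    intro e he
    have heds : e ∈ G.ds := by
      rw [mem_insert, mem_singleton] at he
      rcases he with rfl | rfl
      · exact hg
      · exact hag
    refine hp.tok _ (G.pi_mem e heds) ?_
    rw [kt_one]
    have h1 := h.t0 _ (G.pi_mem e heds)
    have h2 : 0 < (({g, G.al g} : Finset D).filter fun d => G.pi d = G.pi e).card :=
      card_pos.2 ⟨e, mem_filter.2 ⟨he, rfl⟩⟩
    have h3 : (0 : ℝ) < ((({g, G.al g} : Finset D).filter fun d => G.pi d = G.pi e).card : ℝ) := by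
      exact_mod_cast h2
    linarith
  refine ⟨?_, ?_, ?_, ?_, hF.Fsub, ?_⟩
  · intro v hv ht
    refine hp.tok v hv ?_
    rw [kt_one]
    have h1 := (h.t0 v hv).lt_of_ne (Ne.symm ht)
    positivity
  · intro d hd _ hdF hdS
    exact hp.jq d (mem_delG.2 ⟨hd, hdS⟩) one_pos (fun hh => hdF (mem_filter.1 hh).1)
      (notMem_empty _)
  · intro d hd
    by_cases h1 : G.pi d ∈ fr1
    · exact hp.kk d (mem_filter.2 ⟨hd, h1⟩)
    · exact le_of_eq (hp.jq d (mem_delG.2 ⟨hF.Fsub hd, hFS d hd⟩) one_pos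
        (fun hh => h1 (mem_filter.1 hh).2) (notMem_empty _))
  · intro d hd
    have h1 := hend d hd
    have h2 := hend _ (pair_al hg d hd)
    rw [h1, h2]
    norm_num
  · intro d hd
    rw [mem_insert, mem_singleton] at hd
    rcases hd with rfl | rfl
    · exact hg
    · exact hag

end E4B

namespace E4B

variable {a b : ℕ}

/-- an edge with one end outside `fr`, not at two tokens: solvable or a potential -/
theorem pot1 (h : E4B G t fr F jm F0 K0) (hI : IH6 a b V D)
    (hsz : fr.card < a ∨ (fr.card = a ∧ G.vs.card < b))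
    {g : D} (hg : g ∈ G.ds) (hg0 : g ∉ F0) (hgK : g ∉ K0) (t1 : t (G.pi g) ≤ 1) (t2 : t (G.pi (G.al g)) ≤ 1)
    (hw : G.pi (G.al g) ∉ fr) :
    (∃ M, G.GoodS one1 fr F jm M) ∨ ∃ p, G.Pot one1 t F {g, G.al g} p := by
  have hF := h.fresh
  obtain ⟨fr', f1, f2, f3, f4, f5, -⟩ := exists_link G fr F jm {G.pi g} h.jm2
  have hj' : jm ∩ fr' = jm ∨ jm ∩ fr' = ∅ := by
    rcases f4 with k | k
    · exact Or.inl (inter_eq_left.2 k)
    · exact Or.inr (disjoint_iff_inter_eq_empty.1 k)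
  have hgF : g ∉ F := fun k => hg0 (h.f0s k)
  have key := h.kill hg hg0 hgK t1 t2 (fr1 := fr') (jm1 := jm ∩ fr') f1 f2 inter_subset_right
    (fun v hv => by
      have h1 : v ≠ G.pi g := fun hh => disjoint_left.1 f3 hv (by rw [hh]; exact mem_singleton_self _)
      have h2 : v ≠ G.pi (G.al g) := fun hh => hw (hh ▸ f1 hv)
      rw [mem_inter]
      tauto) (by
      rcases hj' with k | k
      · rw [k]; exact h.jm2
      · exact Or.inl k)
  have hsz' : fr'.card < a ∨ (fr'.card = a ∧ (G.delG {g, G.al g} (pair_al hg)).vs.card < b) := by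
    have h1 := card_le_card f1
    change fr'.card < a ∨ (fr'.card = a ∧ G.vs.card < b)
    omega
  rcases hI _ _ _ _ _ hsz' key with ⟨M, hM⟩ | ⟨p, hp⟩
  · left
    obtain ⟨m1, m2⟩ := hM.pm.of_delG
    refine ⟨M, m1, fun _ _ => one_pos, fun X hX hO => ?_⟩
    by_contra hcl
    push Not at hcl
    have hev := hF.closed_jm m1 hX hcl
    by_cases hXs : X ⊆ fr'
    · have hO' : Odd X.card ∨ ((jm ∩ fr').Nonempty ∧ jm ∩ fr' ⊆ X) := by
        rcases hO with k | ⟨k1, k2⟩
        · exact Or.inl k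
        · have k3 : jm ∩ fr' = jm := inter_eq_left.2 (k2.trans hXs)
          rw [k3]
          exact Or.inr ⟨k1, k2⟩
      obtain ⟨d, hd, hdM⟩ := hM.hit X (adm_res' (G := G)
        (G' := G.delG {g, G.al g} (pair_al hg)) rfl rfl hX hXs) hO'
      rw [delG_bd] at hd
      exact hdM (hcl d (mem_filter.1 hd).1)
    · obtain ⟨v, hv⟩ := f5 X hX hev hXs
      rw [mem_inter, mem_singleton] at hv
      have h1 : G.pi g ∈ X := hv.2 ▸ hv.1
      exact m2 g (mem_insert_self _ _) (hcl g (mem_bd.2 ⟨hg, h1, fun hh => hw (hX.sub hh)⟩))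
  · exact Or.inr ⟨p, h.pot_of hg hgF hp⟩

/-- a J-edge between fresh vertices (no star) -/
theorem pot2 (h : E4B G t fr F ∅ F0 K0) (hI : IH6 a b V D)
    (hsz : fr.card < a ∨ (fr.card = a ∧ G.vs.card < b))
    {g : D} (hg : g ∈ G.ds) (hgF : g ∉ F) (hgK : g ∉ K0) (h1 : G.pi g ∈ fr)
    (h2 : G.pi (G.al g) ∈ fr) :
    (∃ M, G.GoodS one1 fr F ∅ M) ∨ ∃ p, G.Pot one1 t F {g, G.al g} p := by
  have hF := h.fresh
  have t1 : t (G.pi g) ≤ 1 := by
    rw [hF.t_not_jm h.wt h1 (notMem_empty _)]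
    norm_num
  have t2 : t (G.pi (G.al g)) ≤ 1 := by
    rw [hF.t_not_jm h.wt h2 (notMem_empty _)]
    norm_num
  have hg0 : g ∉ F0 := fun k => hgF (h.f0r g k h1)
  have key := h.kill hg hg0 hgK t1 t2 (fr1 := fr) (jm1 := {G.pi g, G.pi (G.al g)})
    (Finset.Subset.refl _) (fun d hd _ => hF.Ffr _ (hF.Fal d hd)) (by
      intro v hv
      rw [mem_insert, mem_singleton] at hv
      rcases hv with rfl | rfl
      · exact h1
      · exact h2)
    (fun v _ => by
      rw [mem_insert, mem_singleton]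
      constructor
      · exact Or.inr
      · rintro (k | k)
        · exact absurd k (notMem_empty _)
        · exact k) (Or.inr (card_pair fun hh => G.noloop g hg hh.symm))
  rcases hI (G.delG {g, G.al g} (pair_al hg)) _ _ _ _ hsz key with ⟨M, hM⟩ | ⟨p, hp⟩
  · left
    obtain ⟨m1, m2⟩ := hM.pm.of_delG
    refine ⟨M, m1, fun _ _ => one_pos, fun X hX hO => ?_⟩
    rcases hO with hO | ⟨⟨v, hv⟩, -⟩
    · obtain ⟨d, hd, hdM⟩ := hM.hit X (adm_res' (G := G)
        (G' := G.delG {g, G.al g} (pair_al hg)) rfl rfl hX hX.sub) (Or.inl hO)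
      rw [delG_bd] at hd
      exact ⟨d, (mem_filter.1 hd).1, hdM⟩
    · exact absurd hv (notMem_empty _)
  · exact Or.inr ⟨p, h.pot_of hg hgF hp⟩

/-- a J-edge at an odd circuit (no star): there is no certificate -/
theorem kill_odd (h : E4B G t fr F ∅ F0 K0) (hI : IH6 a b V D)
    (hsz : fr.card < a ∨ (fr.card = a ∧ G.vs.card < b))
    {C : Finset V} (hC : G.Circ fr F C) (ho : Odd C.card)
    {g : D} (hg : g ∈ G.ds) (hgF : g ∉ F) (hgK : g ∉ K0) (h1 : G.pi g ∈ C)
    (t2 : t (G.pi (G.al g)) ≤ 1) :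
    ∃ M, G.IsPM M ∧ g ∉ M ∧ ∀ X, G.Adm fr F X → Odd X.card → G.pi g ∉ X → G.pi (G.al g) ∉ X →
      ∃ d ∈ G.bd X, d ∉ M := by
  have hF := h.fresh
  have t1 : t (G.pi g) ≤ 1 := by
    rw [hF.t_not_jm h.wt (hC.adm.sub h1) (notMem_empty _)]
    norm_num
  obtain ⟨fr', f1, f2, f3, -, f5, f6⟩ := exists_link G fr F ∅ {G.pi g, G.pi (G.al g)} (Or.inl rfl)
  have hn1 : G.pi g ∉ fr' := fun hh => disjoint_left.1 f3 hh (mem_insert_self _ _)
  have hn2 : G.pi (G.al g) ∉ fr' := fun hh =>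
    disjoint_left.1 f3 hh (mem_insert_of_mem (mem_singleton_self _))
  have hg0 : g ∉ F0 := fun k => hgF (h.f0r g k (hC.adm.sub h1))
  have key := h.kill hg hg0 hgK t1 t2 (fr1 := fr') (jm1 := ∅) f1 f2 (empty_subset _)
    (fun v hv => by
      have k1 : v ≠ G.pi g := fun hh => hn1 (hh ▸ hv)
      have k2 : v ≠ G.pi (G.al g) := fun hh => hn2 (hh ▸ hv)
      tauto) (Or.inl rfl)
  have hsz' : fr'.card < a ∨ (fr'.card = a ∧ (G.delG {g, G.al g} (pair_al hg)).vs.card < b) := by
    have h1 := card_le_card f1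
    change fr'.card < a ∨ (fr'.card = a ∧ G.vs.card < b)
    omega
  have hCd : ∀ v ∈ C, v ∉ fr' := by
    intro v hv hvf
    have hA : G.Adm fr F fr' := ⟨f1, f2⟩
    exact hn1 (hC.sub_of_meet hA hvf hv h1)
  have hagF : G.al g ∉ F := fun hh => hgF (by rw [← G.al_al g hg]; exact hF.Fal _ hh)
  rcases hI _ _ _ _ _ hsz' key with ⟨M, hM⟩ | ⟨p, hp⟩
  · obtain ⟨m1, m2⟩ := hM.pm.of_delG
    refine ⟨M, m1, m2 g (mem_insert_self _ _), fun X hX hO k1 k2 => ?_⟩
    have hXs : X ⊆ fr' := by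
      refine f6 X hX ?_ (disjoint_empty_right _)
      rw [disjoint_left]
      intro v hv hv'
      rw [mem_insert, mem_singleton] at hv'
      rcases hv' with rfl | rfl
      · exact k1 hv
      · exact k2 hv
    obtain ⟨d, hd, hdM⟩ := hM.hit X (adm_res' (G := G)
        (G' := G.delG {g, G.al g} (pair_al hg)) rfl rfl hX hXs) (Or.inl hO)
    rw [delG_bd] at hd
    exact ⟨d, (mem_filter.1 hd).1, hdM⟩
  · exfalso
    have e1 : p (G.pi g) = 0 := by
      refine odd_circ_zero hF hC ho h1 (fun d hd hdC => ?_)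
      refine hp.jq d (mem_delG.2 ⟨hF.Fsub hd, ?_⟩) one_pos
        (fun hh => hCd _ hdC (mem_filter.1 hh).2) (notMem_empty _)
      intro hh
      rw [mem_insert, mem_singleton] at hh
      rcases hh with rfl | rfl
      · exact hgF hd
      · exact hagF hd
    have e2 : p (G.pi g) = 1 := by
      refine hp.tok _ (G.pi_mem g hg) ?_
      rw [kt_one]
      have k1 := h.t0 _ (G.pi_mem g hg)
      have k2 : 0 < (({g, G.al g} : Finset D).filter fun d => G.pi d = G.pi g).card :=
        card_pos.2 ⟨g, mem_filter.2 ⟨mem_insert_self _ _, rfl⟩⟩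
      have k3 : (0 : ℝ) < ((({g, G.al g} : Finset D).filter fun d => G.pi d = G.pi g).card : ℝ) := by
        exact_mod_cast k2
      linarith
    rw [e1] at e2
    norm_num at e2

/-- no star: solvable if all states with absorbed circuits are solvable -/
theorem solve0 (h : E4B G t fr F ∅ F0 K0) (hI : IH6 a b V D)
    (hsz : fr.card < a ∨ (fr.card = a ∧ G.vs.card < b))
    (hA : ∀ fr' ⊆ fr, fr' ≠ fr → (∀ d ∈ F, G.pi d ∈ fr' → G.pi (G.al d) ∈ fr') →
      ∃ M, G.GoodS one1 fr' (F.filter fun d => G.pi d ∈ fr') ∅ M) :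
    ∃ M, G.GoodS one1 fr F ∅ M := by
  by_contra bad
  have hF := h.fresh
  have hw := h.wt
  have hne : fr.Nonempty := by
    by_contra hne
    rw [not_nonempty_iff_eq_empty] at hne
    obtain ⟨M, hM, hpos⟩ := exists_pm G one1 t h.even hw (by rw [h.tau]; norm_num)
    refine bad ⟨M, hM, hpos, fun X hX hO => ?_⟩
    have h1 : X = ∅ := subset_empty.1 (hne ▸ hX.sub)
    rcases hO with h2 | ⟨⟨v, hv⟩, -⟩
    · rw [h1, card_empty] at h2
      exact absurd h2 (by decide)
    · exact absurd hv (notMem_empty _)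
  have hf : G.Full one1 fr F := by
    intro M hM _ X hX hcl g hg hgF k1 k2
    by_cases hgK : g ∈ K0
    · exact h.k0m M hM g hgK
    rcases h.pot2 hI hsz hg hgF hgK (hX.sub k1) (hX.sub k2) with hM' | ⟨p, hp⟩
    · exact absurd hM' bad
    · exact (hp.closed hF (Finset.Subset.refl _) (fun d hd _ => hd) hw hM hX hcl).2.2 g
        (mem_insert_self _ _) k1 k2
  have hgood : ∀ M, G.IsPM M → (∀ X, G.Adm fr F X → Odd X.card → (∀ d ∈ G.bd X, d ∈ M) → False) →
      False := by
    intro M hM hh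
    refine bad ⟨M, hM, fun _ _ => one_pos, fun X hX hO => ?_⟩
    rcases hO with h2 | ⟨⟨v, hv⟩, -⟩
    · by_contra hcl
      push Not at hcl
      exact hh X hX h2 hcl
    · exact absurd hv (notMem_empty _)
  -- no even circuit
  have hodd : ∀ C, G.Circ fr F C → Odd C.card := by
    intro C hC
    by_contra hev
    rw [Nat.not_odd_iff_even] at hev
    obtain ⟨M, hM⟩ := hA (fr \ C) sdiff_subset (by
      intro he
      obtain ⟨v, hv⟩ := hC.ne
      have h1 := hC.adm.sub hv
      rw [← he] at h1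
      exact (mem_sdiff.1 h1).2 hv) (hF.adm_compl hC.adm).clo
    refine hgood M hM.pm fun X hX hO hcl => ?_
    have hh : ∀ Z, G.Adm fr F Z → Disjoint Z C → Odd Z.card → (∀ d ∈ G.bd Z, d ∈ M) → False := by
      intro Z hZ hd ho hc
      obtain ⟨d, k1, k2⟩ := hM.hit Z (Adm.ab_iff.2 ⟨hZ, hd⟩) (Or.inl ho)
      exact k2 (hc d k1)
    by_cases hd : Disjoint X C
    · exact hh X hX hd hO hcl
    · obtain ⟨v, hv, hvC⟩ := not_disjoint_iff.1 hd
      have hCX := hC.sub_of_meet hX hv hvC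
      have hZ : G.Adm fr F (X \ C) := by
        refine ⟨sdiff_subset.trans hX.sub, fun d hd hp => ?_⟩
        obtain ⟨p1, p2⟩ := mem_sdiff.1 hp
        refine mem_sdiff.2 ⟨hX.clo d hd p1, fun h4 => p2 ?_⟩
        have h5 := hC.adm.clo _ (hF.Fal d hd) h4
        rwa [G.al_al d (hF.Fsub hd)] at h5
      have h6 : Odd (X \ C).card := by
        have h7 := card_sdiff_add_card_eq_card hCX
        obtain ⟨k, hk⟩ := hO
        obtain ⟨l, hl⟩ := hev
        exact ⟨k - l, by omega⟩
      exact hh _ hZ sdiff_disjoint h6 (hf.part hM.pm (fun _ _ => one_pos) hX hcl hZ sdiff_subset)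
  -- no J-edge between fresh vertices
  have hff : ∀ g ∈ G.ds, g ∉ F → g ∉ K0 → G.pi g ∈ fr → G.pi (G.al g) ∉ fr := by
    intro g hg hgF hgK h1 h2
    obtain ⟨C, hxC, hC⟩ := hF.exists_circ h1
    obtain ⟨M, m1, m2, m3⟩ := h.kill_odd hI hsz hC (hodd C hC) hg hgF hgK hxC (by
      rw [hF.t_not_jm hw h2 (notMem_empty _)]
      norm_num)
    refine hgood M m1 fun X hX hO hcl => ?_
    by_cases c1 : G.pi g ∈ X
    · by_cases c2 : G.pi (G.al g) ∈ X
      · exact m2 (hf M m1 (fun _ _ => one_pos) X hX hcl g hg hgF c1 c2)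
      · exact m2 (hcl g (mem_bd.2 ⟨hg, c1, c2⟩))
    · by_cases c2 : G.pi (G.al g) ∈ X
      · have c3 := hcl (G.al g) (mem_bd.2 ⟨G.al_mem g hg, c2, by rw [G.al_al g hg]; exact c1⟩)
        have c4 := m1.closed _ c3
        rw [G.al_al g hg] at c4
        exact m2 c4
      · obtain ⟨d, k1, k2⟩ := m3 X hX hO c1 c2
        exact k2 (hcl d k1)
  -- all legs end at vertices with two tokens
  obtain ⟨x, hx⟩ := hne
  obtain ⟨C, hxC, hC⟩ := hF.exists_circ hx
  have hbF : ∀ d ∈ G.bd C, d ∉ F := fun d hd hh =>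
    (mem_bd.1 hd).2.2 (hC.adm.clo d hh (mem_bd.1 hd).2.1)
  have h2 : ∀ d ∈ (G.bd C).filter (fun d => d ∉ K0), t (G.pi (G.al d)) = 2 := by
    intro d hd0
    obtain ⟨hd, hdK⟩ := mem_filter.1 hd0
    obtain ⟨k1, k2, k3⟩ := mem_bd.1 hd
    have k4 := hff d k1 (hbF d hd) hdK (hC.adm.sub k2)
    have k5 : ¬ t (G.pi (G.al d)) ≤ 1 := by
      intro hle
      obtain ⟨M, m1, m2, m3⟩ := h.kill_odd hI hsz hC (hodd C hC) k1 (hbF d hd) hdK k2 hle
      refine hgood M m1 fun X hX hO hcl => ?_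
      have c2 : G.pi (G.al d) ∉ X := fun hh => k4 (hX.sub hh)
      by_cases c1 : G.pi d ∈ X
      · exact m2 (hcl d (mem_bd.2 ⟨k1, c1, c2⟩))
      · obtain ⟨e, e1, e2⟩ := m3 X hX hO c1 c2
        exact e2 (hcl e e1)
    rcases h.tnat (G.pi_mem _ (G.al_mem d k1)) with k | k | k
    · rw [k] at k5
      exact absurd zero_le_one k5
    · rw [k] at k5
      exact absurd le_rfl k5
    · exact k
  have h3 := card_two_tok hF hw h.tau (B := (G.bd C).filter (fun d => d ∉ K0))
    (fun d hd => (mem_bd.1 (mem_filter.1 hd).1).1)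
    (fun d hd => hC.adm.sub (mem_bd.1 (mem_filter.1 hd).1).2.1) h2
  have h5 := h.k0c C hC
  have h6 := card_filter_add_card_filter_not (s := G.bd C) (fun d => d ∈ K0)
  have h4 := h.c5 C hC.adm (hodd C hC)
  rw [inter_empty, card_empty] at h4
  omega

/-- with star: some edge with an end outside `fr` is not at a vertex with two tokens -/
theorem exists_edge (h : E4B G t fr F jm F0 K0) (hj : jm.card = 2) :
    ∃ g ∈ G.ds, g ∉ F ∧ t (G.pi g) ≤ 1 ∧ t (G.pi (G.al g)) ≤ 1 ∧ G.pi (G.al g) ∉ fr := by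
  by_contra hno
  push Not at hno
  have hF := h.fresh
  have hw := h.wt
  have hA : G.Adm fr F fr := ⟨Finset.Subset.refl _, fun d hd _ => hF.Ffr _ (hF.Fal d hd)⟩
  have e0 : fr ∩ jm = jm := inter_eq_right.2 hF.jms
  have tfr : ∀ v ∈ fr, t v ≤ 1 := by
    intro v hv
    by_cases k : v ∈ jm
    · rw [hF.t_jm hw k]
    · rw [hF.t_not_jm hw hv k]
      norm_num
  have e1 : ∑ v ∈ fr, t v = 2 := by
    have k1 : ∑ v ∈ fr, t v = ∑ v ∈ fr, if v ∈ jm then (1 : ℝ) else 0 := by
      refine sum_congr rfl fun v hv => ?_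
      by_cases k : v ∈ jm
      · rw [hF.t_jm hw k, if_pos k]
      · rw [hF.t_not_jm hw hv k, if_neg k]
    rw [k1, ← sum_filter, filter_mem_eq_inter, e0, sum_const, hj]
    norm_num
  have e2 : ∑ v ∈ G.vs \ fr, t v = 2 := by
    have k1 := sum_sdiff hF.fsub (f := t)
    rw [h.tau, e1] at k1
    linarith
  have e3 : ((G.vs \ fr).filter fun v => t v = 2).card ≤ 1 := by
    have k1 : ∑ v ∈ (G.vs \ fr).filter (fun v => t v = 2), t v =
        2 * (((G.vs \ fr).filter fun v => t v = 2).card : ℝ) := by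
      rw [sum_congr rfl fun v hv => (mem_filter.1 hv).2, sum_const, nsmul_eq_mul]
      ring
    have k2 : ∑ v ∈ (G.vs \ fr).filter (fun v => t v = 2), t v ≤ 2 := by
      rw [← e2]
      exact sum_le_sum_of_subset_of_nonneg (filter_subset _ _) fun v hv _ =>
        hw.t0 v (mem_sdiff.1 hv).1
    have k3 : (((G.vs \ fr).filter fun v => t v = 2).card : ℝ) ≤ 1 := by linarith
    exact_mod_cast k3
  have e4 : ∀ d ∈ G.bd fr, t (G.pi (G.al d)) = 2 := by
    intro d hd
    obtain ⟨k1, k2, k3⟩ := mem_bd.1 hd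
    have k4 : d ∉ F := fun hh => k3 (hF.Ffr _ (hF.Fal d hh))
    have k5 : ¬ t (G.pi (G.al d)) ≤ 1 := fun k6 => k3 (hno d k1 k4 (tfr _ k2) k6)
    rcases h.tnat (G.pi_mem _ (G.al_mem d k1)) with k | k | k
    · rw [k] at k5
      exact absurd zero_le_one k5
    · rw [k] at k5
      exact absurd le_rfl k5
    · exact k
  have e5 : (G.bd fr).card ≤ 1 := by
    refine le_trans ?_ e3
    refine card_le_card_of_injOn (fun d => G.pi (G.al d)) ?_ ?_
    · intro d hd
      have hd' := mem_coe.1 hd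
      obtain ⟨k1, k2, k3⟩ := mem_bd.1 hd'
      exact mem_coe.2 (mem_filter.2 ⟨mem_sdiff.2 ⟨G.pi_mem _ (G.al_mem d k1), k3⟩, e4 d hd'⟩)
    · intro d hd e he hde
      have hd' := mem_coe.1 hd
      have he' := mem_coe.1 he
      obtain ⟨k1, -, -⟩ := mem_bd.1 hd'
      obtain ⟨l1, -, -⟩ := mem_bd.1 he'
      have k4 := h.deg _ (G.pi_mem _ (G.al_mem d k1))
      rw [e4 d hd'] at k4
      have k5 : (G.st (G.pi (G.al d))).card = 1 := by
        have : ((G.st (G.pi (G.al d))).card : ℝ) = 1 := by linarith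
        exact_mod_cast this
      obtain ⟨x, hx⟩ := card_eq_one.1 k5
      have k6 : G.al d ∈ G.st (G.pi (G.al d)) := mem_st.2 ⟨G.al_mem d k1, rfl⟩
      have k7 : G.al e ∈ G.st (G.pi (G.al d)) := mem_st.2 ⟨G.al_mem e l1, hde.symm⟩
      rw [hx, mem_singleton] at k6 k7
      rw [← G.al_al d k1, k6, ← k7, G.al_al e l1]
  have hfn : fr.Nonempty := by
    rw [← card_pos]
    have := card_le_card hF.jms
    omega
  rcases Nat.even_or_odd fr.card with k | k
  · have := h.c6 fr hA k hfn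
    rw [e0, hj] at this
    omega
  · have := h.c5 fr hA k
    rw [e0, hj] at this
    omega

/-- with star: the circuits of the star are free -/
theorem solve1 (h : E4B G t fr F jm F0 K0) (hj : jm.card = 2) (hI : IH6 a b V D)
    (hsz : fr.card < a ∨ (fr.card = a ∧ G.vs.card < b))
    (hA : ∀ fr' ⊆ fr, fr' ≠ fr → Disjoint jm fr' →
      (∀ d ∈ F, G.pi d ∈ fr' → G.pi (G.al d) ∈ fr') →
      ∃ M, G.GoodS one1 fr' (F.filter fun d => G.pi d ∈ fr') ∅ M) :
    ∃ M, G.GoodS one1 fr F jm M := by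
  have hF := h.fresh
  obtain ⟨g, hg, hgF, t1, t2, hw⟩ := h.exists_edge hj
  have hfk : F0 = F ∧ K0 = ∅ := h.fj.resolve_left fun k => by
    rw [k, card_empty] at hj
    omega
  rcases h.pot1 hI hsz hg (hfk.1 ▸ hgF) (hfk.2 ▸ notMem_empty g) t1 t2 hw with hM | ⟨p, hp⟩
  · exact hM
  obtain ⟨fr', f1, f2, f3, f4⟩ := exists_avoid G fr F jm
  obtain ⟨v0, hv0⟩ : jm.Nonempty := by
    rw [← card_pos]
    omega
  obtain ⟨M, hM⟩ := hA fr' f1 (by
    intro he
    exact disjoint_left.1 f3 (he ▸ hF.jms hv0) hv0) f3.symm f2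
  refine ⟨M, hM.pm, fun _ _ => one_pos, fun X hX hO => ?_⟩
  by_contra hcl
  push Not at hcl
  have h1 := (hp.closed hF (Finset.Subset.refl _) (fun d hd _ => hd) h.wt hM.pm hX hcl).1
  have h2 : Disjoint X jm := disjoint_left.2 h1
  rcases hO with hO | ⟨-, hO⟩
  · obtain ⟨d, hd, hdM⟩ := hM.hit X ((f4 X).2 ⟨hX, h2⟩) (Or.inl hO)
    exact hdM (hcl d hd)
  · exact h1 v0 (hO hv0) hv0

/-- **(A4)**: a strict state with 4 tokens (with or without star) is solvable if the states with 6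
tokens of its size are solvable or have a certificate -/
theorem solve (hI : IH6 a b V D) : ∀ (n : ℕ) (G : MG V D) (t : V → ℝ) (fr : Finset V)
    (F : Finset D) (jm : Finset V) (F0 K0 : Finset D), fr.card = n →
    (fr.card < a ∨ (fr.card = a ∧ G.vs.card < b)) → E4B G t fr F jm F0 K0 →
    ∃ M, G.GoodS one1 fr F jm M := by
  intro n
  induction n using Nat.strong_induction_on with
  | _ n ih =>
    intro G t fr F jm F0 K0 hn hsz h
    have key : ∀ fr' ⊆ fr, fr' ≠ fr → Disjoint jm fr' →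
        (∀ d ∈ F, G.pi d ∈ fr' → G.pi (G.al d) ∈ fr') →
        ∃ M, G.GoodS one1 fr' (F.filter fun d => G.pi d ∈ fr') ∅ M := by
      intro fr' k1 k2 k3 k4
      have k5 : fr'.card < fr.card := card_lt_card (k1.ssubset_of_ne k2)
      exact ih fr'.card (hn ▸ k5) G t fr' _ ∅ F0 K0 rfl (by omega)
        (h.absorb k1 k4 k3 rfl)
    rcases h.jm2 with hj | hj
    · subst hj
      exact h.solve0 hI hsz fun fr' k1 k2 k3 => key fr' k1 k2 (disjoint_empty_left _) k3
    · exact h.solve1 hj hI hsz key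

end E4B

/-- (A4), extended, below a smallest state with 6 tokens -/
theorem X6.solve4B (h : X6 G t fr F jm) {G' : MG V D} {t' : V → ℝ} {fr' : Finset V}
    {F' : Finset D} {jm' : Finset V} {F0 K0 : Finset D}
    (hs : fr'.card < fr.card ∨ (fr'.card = fr.card ∧ G'.vs.card < G.vs.card))
    (h' : E4B G' t' fr' F' jm' F0 K0) : ∃ M, G'.GoodS one1 fr' F' jm' M :=
  E4B.solve h.ih _ G' t' fr' F' jm' F0 K0 rfl hs h'

end MG

end RH
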