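import Pool.Agent.Lib.RH.Gad3

/-! Halves of certificates (helper30's complementary colourings). `HPot A p`: the conditions of a
potential on the side `A`. Two halves which fit along the cut give a potential; two halves on the
same side have a mean. -/

set_option autoImplicit false

namespace RH

open Finset Classical

namespace MG

variable {V D : Type*}

/-- half of a potential, on the side `A` -/
structure HPot (G : MG V D) (z : D → ℝ) (t : V → ℝ) (K : Finset D) (A : Finset V) (p : V → ℝ) :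
    Prop where
  tok : ∀ v ∈ A, t v ≠ 0 → p v = 1
  jq : ∀ d ∈ G.ds, G.pi d ∈ A → G.pi (G.al d) ∈ A → 0 < z d → d ∉ K →
    p (G.pi d) + p (G.pi (G.al d)) = 0
  kk : ∀ d ∈ K, G.pi d ∈ A → G.pi (G.al d) ∈ A → p (G.pi d) + p (G.pi (G.al d)) ≤ 0

variable {G : MG V D} {g : GD V D} {z ze : D → ℝ} {t tk : V → ℝ} {K K1 E1 : Finset D}
variable {A B : Finset V} {p q : V → ℝ} {b : V}

/-- restriction of a potential -/
theorem Pot.half (h : G.Pot z t K ∅ p) (hA : A ⊆ G.vs) : G.HPot z t K A p where
  tok := fun v hv ht => h.tok v (hA hv) ht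
  jq := fun d hd _ _ hz hK => h.jq d hd hz hK (notMem_empty d)
  kk := fun d hd _ _ => h.kk d hd

theorem HPot.mono (h : G.HPot z t K A p) (hB : B ⊆ A) : G.HPot z t K B p where
  tok := fun v hv ht => h.tok v (hB hv) ht
  jq := fun d hd h1 h2 hz hK => h.jq d hd (hB h1) (hB h2) hz hK
  kk := fun d hd h1 h2 => h.kk d hd (hB h1) (hB h2)

theorem HPot.congr (h : G.HPot z t K A p) (he : ∀ v ∈ A, q v = p v) : G.HPot z t K A q where
  tok := fun v hv ht => by rw [he v hv]; exact h.tok v hv ht
  jq := fun d hd h1 h2 hz hK => by rw [he _ h1, he _ h2]; exact h.jq d hd h1 h2 hz hK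
  kk := fun d hd h1 h2 => by rw [he _ h1, he _ h2]; exact h.kk d hd h1 h2

/-- the mean of two halves -/
theorem HPot.avg (hp : G.HPot z t K A p) (hq : G.HPot z t K A q) :
    G.HPot z t K A fun v => (p v + q v) / 2 where
  tok := fun v hv ht => by
    rw [hp.tok v hv ht, hq.tok v hv ht]
    norm_num
  jq := fun d hd h1 h2 hz hK => by
    have h3 := hp.jq d hd h1 h2 hz hK
    have h4 := hq.jq d hd h1 h2 hz hK
    linarith
  kk := fun d hd h1 h2 => by
    have h3 := hp.kk d hd h1 h2
    have h4 := hq.kk d hd h1 h2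
    linarith

/-- two halves which fit along the cut give a potential -/
theorem HPot.join (h1 : G.HPot z t K A p) (h2 : G.HPot z t K (G.vs \ A) q)
    (hsym : ∀ d ∈ G.ds, z (G.al d) = z d) (hK : K ⊆ G.ds) (hKal : ∀ d ∈ K, G.al d ∈ K)
    (jx : ∀ d ∈ G.bd A, 0 < z d → d ∉ K → p (G.pi d) + q (G.pi (G.al d)) = 0)
    (kx : ∀ d ∈ G.bd A, d ∈ K → p (G.pi d) + q (G.pi (G.al d)) ≤ 0) :
    G.Pot z t K ∅ (fun v => if v ∈ A then p v else q v) :=
  pot_join hsym hK hKal h1.tok h2.tok h1.jq h1.kk h2.jq h2.kk jx kx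

/-- a vertex `b` (not a token) is added with the value `-1`, all its neighbours in `A` have the
value 1, no dart of `K` is at `b` -/
theorem HPot.insert (h : G.HPot z t K A p) (hb : t b = 0)
    (hKb : ∀ d ∈ K, G.pi d ≠ b) (hKal : ∀ d ∈ K, G.al d ∈ K)
    (hn : ∀ d ∈ G.ds, G.pi d = b → G.pi (G.al d) ∈ A → 0 < z d → p (G.pi (G.al d)) = 1)
    (hsym : ∀ d ∈ G.ds, z (G.al d) = z d) :
    G.HPot z t K (insert b A) (fun v => if v = b then -1 else p v) where
  tok := fun v hv ht => by
    by_cases h1 : v = b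
    · rw [h1] at ht
      exact absurd hb ht
    · rw [if_neg h1]
      exact h.tok v (by
        rcases mem_insert.1 hv with h2 | h2
        · exact absurd h2 h1
        · exact h2) ht
  jq := fun d hd h1 h2 hz hK => by
    by_cases h3 : G.pi d = b
    · have h4 : G.pi (G.al d) ≠ b := fun h4 => G.noloop d hd (h4.trans h3.symm)
      have h5 : G.pi (G.al d) ∈ A := by
        rcases mem_insert.1 h2 with h5 | h5
        · exact absurd h5 h4
        · exact h5
      rw [if_pos h3, if_neg h4, hn d hd h3 h5 hz]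
      norm_num
    · have h3' : G.pi d ∈ A := by
        rcases mem_insert.1 h1 with h5 | h5
        · exact absurd h5 h3
        · exact h5
      by_cases h4 : G.pi (G.al d) = b
      · have ha := G.al_mem d hd
        have h6 := hn (G.al d) ha h4 (by rw [G.al_al d hd]; exact h3')
          (by rw [hsym d hd]; exact hz)
        rw [G.al_al d hd] at h6
        rw [if_neg h3, if_pos h4, h6]
        norm_num
      · rw [if_neg h3, if_neg h4]
        refine h.jq d hd h3' ?_ hz hK
        rcases mem_insert.1 h2 with h5 | h5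
        · exact absurd h5 h4
        · exact h5
  kk := fun d hd h1 h2 => by
    have h3 := hKb d hd
    have h4 := hKb _ (hKal d hd)
    rw [if_neg h3, if_neg h4]
    refine h.kk d hd ?_ ?_
    · rcases mem_insert.1 h1 with h5 | h5
      · exact absurd h5 h3
      · exact h5
    · rcases mem_insert.1 h2 with h5 | h5
      · exact absurd h5 h4
      · exact h5

/-- the half which a potential of a gadget graph gives: the fresh darts of the side are in `K1`, or
satisfy the equation -/
theorem gad_hpot (h : GOk G g) (hw : G.Wt z t) (hK1 : K1 ⊆ K)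
    (hp : (gad G g h).Pot (gz g z ze) (gt G g z t tk) K1 ∅ p)
    (hz : ∀ d ∈ K, 0 < z d) (hK : K ⊆ G.ds) : G.HPot z t K g.A p := by
  obtain ⟨a1, _, a3, a4, _, _, _⟩ := gad_pot h hw hp
  refine ⟨a1, fun d hd h1 h2 h3 h4 => a3 d hd h1 h2 h3 (fun h5 => h4 (hK1 h5)) (notMem_empty d),
    fun d hd h1 h2 => ?_⟩
  by_cases h3 : d ∈ K1
  · exact a4 d h3 (hK hd) h1 h2
  · exact (a3 d (hK hd) h1 h2 (hz d hd) h3 (notMem_empty d)).le

/-- at a lost exit the value is 1 -/
theorem gad_lost (h : GOk G g) (hw : G.Wt z t)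
    (hp : (gad G g h).Pot (gz g z ze) (gt G g z t tk) K1 ∅ p) {d : D} (hd : d ∈ G.bd g.A)
    (hP : d ∉ g.P) (hz : z d ≠ 0) : p (G.pi d) = 1 :=
  (gad_pot h hw hp).2.1 d hd hP hz

/-- at a port the value is minus the value of the gadget vertex -/
theorem gad_port (h : GOk G g) (hw : G.Wt z t)
    (hp : (gad G g h).Pot (gz g z ze) (gt G g z t tk) K1 ∅ p) {d : D} (hd : d ∈ g.P)
    (hK : d ∉ K1) (hz : 0 < z d) : p (G.pi d) = - p (g.ga d) := by
  have h1 := (gad_pot h hw hp).2.2.2.2.1 d hd hz hK (notMem_empty d)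
  linarith

/-- at a token of the gadget the value is 1 -/
theorem gad_tok (h : GOk G g) (hw : G.Wt z t)
    (hp : (gad G g h).Pot (gz g z ze) (gt G g z t tk) K1 ∅ p) {v : V} (hv : v ∈ g.K)
    (ht : tk v ≠ 0) : p v = 1 :=
  (gad_pot h hw hp).2.2.2.2.2.1 v hv ht

/-- the values at the ends of a gadget dart are opposite -/
theorem gad_inn (h : GOk G g) (hw : G.Wt z t)
    (hp : (gad G g h).Pot (gz g z ze) (gt G g z t tk) K1 ∅ p) {d : D} (hd : d ∈ g.E)
    (hK : d ∉ K1) (hz : 0 < ze d) : p (g.pe d) = - p (g.pe (g.be d)) := by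
  have h1 := (gad_pot h hw hp).2.2.2.2.2.2 d hd hz hK (notMem_empty d)
  linarith

/-- new vertices or darts -/
theorem exists_new {α : Type*} [Infinite α] (S : Finset α) (n : ℕ) :
    ∃ f : Fin n → α, Function.Injective f ∧ ∀ i, f i ∉ S := by
  have : Infinite {v : α // v ∉ S} := Set.infinite_coe_iff.2 (Set.Finite.infinite_compl
    (s := {v | v ∈ S}) S.finite_toSet)
  exact ⟨fun i => (Infinite.natEmbedding {v : α // v ∉ S} i.val).1,
    fun i j hij => Fin.ext ((Infinite.natEmbedding _).injective (Subtype.ext hij)),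
    fun i => (Infinite.natEmbedding {v : α // v ∉ S} i.val).2⟩

end MG

end RH
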