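import Pool.Agent.Lib.RH.CE6Gad
import Pool.Agent.Lib.RH.HPot

/-! # Gadgets with fresh vertices (arc states)

The side `A` is crossed by the F-darts of `PF` (two ends of an arc); the gadget has the fresh vertices
`KF` and the F-darts `EF` which close the arc. `fr1`: kept fresh vertices of `A`, closed except at
`PF`. `AOk`: the data. `EK.gadA`: the state. `AOk.st1`, `AOk.st2`: what a good matching gives.
`AOk.hpot`: the half certificate. -/

set_option autoImplicit false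

namespace RH

open Finset Classical

namespace MG

variable {V D : Type*} {G : MG V D} {g : GD V D} {t tk : V → ℝ}
variable {fr fr1 KF JK : Finset V} {F EF PF : Finset D} {jm A X Y S : Finset V} {k k' : ℝ}

/-- gadget with fresh vertices: the combinatorial data -/
structure AOk (G : MG V D) (g : GD V D) (fr : Finset V) (F : Finset D) (fr1 KF : Finset V)
    (EF PF : Finset D) : Prop where
  sub : fr1 ⊆ fr
  inA : fr1 ⊆ g.A
  clo : ∀ d ∈ F, G.pi d ∈ fr1 → G.pi (G.al d) ∈ fr1 ∨ d ∈ PF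
  PFP : PF ⊆ g.P
  PFF : PF ⊆ F
  PFr : ∀ d ∈ PF, G.pi d ∈ fr1
  PFk : ∀ d ∈ PF, g.ga d ∈ KF
  KFK : KF ⊆ g.K
  EFE : EF ⊆ g.E
  EFb : ∀ d ∈ EF, g.be d ∈ EF
  EFk : ∀ d ∈ EF, g.pe d ∈ KF
  two : ∀ v ∈ KF, (EF.filter fun d => g.pe d = v).card + (PF.filter fun d => g.ga d = v).card = 2
  con : ∀ S ⊆ KF, (∀ d ∈ EF, g.pe d ∈ S → g.pe (g.be d) ∈ S) → S = ∅ ∨ S = KF

/-- star vertices of the gadget -/
structure JOk (tk : V → ℝ) (KF JK : Finset V) : Prop where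
  sub : JK ⊆ KF
  one : ∀ v ∈ JK, tk v = 1
  zer : ∀ v ∈ KF, v ∉ JK → tk v = 0

/-- the F-darts of the state -/
noncomputable def FNew (G : MG V D) (F : Finset D) (fr1 : Finset V) (EF PF : Finset D) :
    Finset D := (F.filter fun d => G.pi d ∈ fr1) ∪ (PF.image G.al ∪ EF)

/-- the star of the state -/
noncomputable def jNew (G : MG V D) (g : GD V D) (jm fr1 JK : Finset V) : Finset V :=
  gjm G g jm fr1 ∪ JK

/-- unions closed except at `PF` -/
structure AAdm (G : MG V D) (F PF : Finset D) (fr1 X : Finset V) : Prop where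
  sub : X ⊆ fr1
  clo : ∀ d ∈ F, G.pi d ∈ X → G.pi (G.al d) ∈ X ∨ d ∈ PF

theorem mem_FNew {d : D} : d ∈ FNew G F fr1 EF PF ↔ (d ∈ F ∧ G.pi d ∈ fr1) ∨
    (∃ p ∈ PF, G.al p = d) ∨ d ∈ EF := by
  unfold FNew
  rw [mem_union, mem_union, mem_filter, mem_image]

namespace AOk

variable (ok : GOk G g) (a : AOk G g fr F fr1 KF EF PF)
include ok a

theorem KnA {v : V} (hv : v ∈ KF) : v ∉ g.A := ok.dj _ (a.KFK hv)

/-- an F-dart at a kept vertex -/
theorem piF (hF : G.FrS one1 fr F jm) {d : D} (h1 : d ∈ F) (h2 : G.pi d ∈ fr1) :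
    gpi G g d = G.pi d := ok.gpiA (hF.Fsub h1) (a.inA h2)

theorem alF (hF : G.FrS one1 fr F jm) {d : D} (h1 : d ∈ F) (h2 : G.pi d ∈ fr1) :
    gal G g d = G.al d := GOk.galN (ok.innE (hF.Fsub h1) (a.inA h2))

/-- two F-darts at every fresh vertex -/
theorem two' (hF : G.FrS one1 fr F jm) {v : V} (hv : v ∈ fr1 ∪ KF) :
    ((FNew G F fr1 EF PF).filter fun d => gpi G g d = v).card = 2 := by
  rcases mem_union.1 hv with hv | hv
  · rw [← hF.two v (a.sub hv)]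
    congr 1
    ext d
    rw [mem_filter, mem_filter, mem_FNew]
    constructor
    · rintro ⟨⟨h1, h2⟩ | ⟨p, h1, rfl⟩ | h1, h3⟩
      · rw [a.piF ok hF h1 h2] at h3
        exact ⟨h1, h3⟩
      · rw [ok.gpiQ (a.PFP h1)] at h3
        exact absurd (a.inA hv) (h3 ▸ a.KnA ok (a.PFk p h1))
      · rw [GOk.gpiE (a.EFE h1)] at h3
        exact absurd (a.inA hv) (h3 ▸ a.KnA ok (a.EFk d h1))
    · rintro ⟨h1, h2⟩
      have h3 : G.pi d ∈ fr1 := h2 ▸ hv
      exact ⟨Or.inl ⟨h1, h3⟩, by rw [a.piF ok hF h1 h3]; exact h2⟩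
  · rw [← a.two v hv]
    have e1 : (FNew G F fr1 EF PF).filter (fun d => gpi G g d = v) =
        EF.filter (fun d => g.pe d = v) ∪ (PF.filter fun d => g.ga d = v).image G.al := by
      ext d
      rw [mem_filter, mem_union, mem_FNew, mem_filter, mem_image]
      constructor
      · rintro ⟨⟨h1, h2⟩ | ⟨p, h1, rfl⟩ | h1, h3⟩
        · rw [a.piF ok hF h1 h2] at h3
          exact absurd (a.inA h2) (h3 ▸ a.KnA ok hv)
        · rw [ok.gpiQ (a.PFP h1)] at h3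
          exact Or.inr ⟨p, mem_filter.2 ⟨h1, h3⟩, rfl⟩
        · rw [GOk.gpiE (a.EFE h1)] at h3
          exact Or.inl ⟨h1, h3⟩
      · rintro (⟨h1, h2⟩ | ⟨p, h1, rfl⟩)
        · exact ⟨Or.inr (Or.inr h1), by rw [GOk.gpiE (a.EFE h1)]; exact h2⟩
        · obtain ⟨h1, h2⟩ := mem_filter.1 h1
          exact ⟨Or.inr (Or.inl ⟨p, h1, rfl⟩), by rw [ok.gpiQ (a.PFP h1)]; exact h2⟩
    rw [e1, card_union_of_disjoint, card_image_of_injOn]
    · intro x hx y hy hxy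
      have h1 := G.al_al x (ok.P1 (a.PFP (mem_filter.1 (mem_coe.1 hx)).1)).1
      have h2 := G.al_al y (ok.P1 (a.PFP (mem_filter.1 (mem_coe.1 hy)).1)).1
      have h3 : G.al x = G.al y := hxy
      rw [← h1, h3, h2]
    · rw [disjoint_left]
      intro d h1 h2
      obtain ⟨p, hp, rfl⟩ := mem_image.1 h2
      exact ok.QE (a.PFP (mem_filter.1 hp).1) (a.EFE (mem_filter.1 h1).1)

theorem FsubN (hF : G.FrS one1 fr F jm) {d : D} (hd : d ∈ FNew G F fr1 EF PF) :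
    d ∈ gds G g := by
  rcases mem_FNew.1 hd with ⟨h1, h2⟩ | ⟨p, h1, rfl⟩ | h1
  · rcases a.clo d h1 h2 with h3 | h3
    · exact mem_gds.2 (Or.inl ⟨hF.Fsub h1, a.inA h2, a.inA h3⟩)
    · exact mem_gds.2 (Or.inr (Or.inl (a.PFP h3)))
  · exact mem_gds.2 (Or.inr (Or.inr (Or.inl ⟨p, a.PFP h1, rfl⟩)))
  · exact mem_gds.2 (Or.inr (Or.inr (Or.inr (a.EFE h1))))

theorem FalN (hF : G.FrS one1 fr F jm) {d : D} (hd : d ∈ FNew G F fr1 EF PF) :
    gal G g d ∈ FNew G F fr1 EF PF := by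
  rcases mem_FNew.1 hd with ⟨h1, h2⟩ | ⟨p, h1, rfl⟩ | h1
  · rw [a.alF ok hF h1 h2]
    rcases a.clo d h1 h2 with h3 | h3
    · exact mem_FNew.2 (Or.inl ⟨hF.Fal d h1, h3⟩)
    · exact mem_FNew.2 (Or.inr (Or.inl ⟨d, h3, rfl⟩))
  · rw [GOk.galN (ok.QE (a.PFP h1)), G.al_al _ (ok.P1 (a.PFP h1)).1]
    exact mem_FNew.2 (Or.inl ⟨a.PFF h1, a.PFr p h1⟩)
  · rw [GOk.galE (a.EFE h1)]
    exact mem_FNew.2 (Or.inr (Or.inr (a.EFb d h1)))

theorem FfrN (hF : G.FrS one1 fr F jm) {d : D} (hd : d ∈ FNew G F fr1 EF PF) :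
    gpi G g d ∈ fr1 ∪ KF := by
  rcases mem_FNew.1 hd with ⟨h1, h2⟩ | ⟨p, h1, rfl⟩ | h1
  · rw [a.piF ok hF h1 h2]
    exact mem_union_left _ h2
  · rw [ok.gpiQ (a.PFP h1)]
    exact mem_union_right _ (a.PFk p h1)
  · rw [GOk.gpiE (a.EFE h1)]
    exact mem_union_right _ (a.EFk d h1)

/-- a dropped dart at a kept vertex is not in `F` -/
theorem gdp_nF {v : V} (hv : v ∈ fr1) {d : D} (hd : d ∈ gdp G g v) : d ∉ F := by
  intro h1
  obtain ⟨⟨p1, p2, p3⟩, p4, p5⟩ := mem_gdp.1 hd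
  rcases a.clo d h1 (p5 ▸ hv) with h2 | h2
  · exact p3 (a.inA h2)
  · exact p4 (a.PFP h2)

/-- tokens at the fresh vertices -/
theorem tok (h : EK G k t fr F jm) (j : JOk tk KF JK) {v : V} (hv : v ∈ fr1 ∪ KF) :
    gt G g one1 t tk v = if v ∈ jNew G g jm fr1 JK then 1 else 0 := by
  rcases mem_union.1 hv with hv | hv
  · have hvA := a.inA hv
    have hvK : v ∉ g.K := fun h1 => ok.dj _ h1 hvA
    have hvJ : v ∉ JK := fun h1 => hvK (a.KFK (j.sub h1))
    have e1 : gt G g one1 t tk v = t v + ((gdp G g v).card : ℝ) := by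
      unfold gt
      rw [if_neg hvK]
      unfold one1
      rw [sum_const, nsmul_eq_mul, mul_one]
    have e2 : v ∈ jNew G g jm fr1 JK ↔ (v ∈ jm ∨ (gdp G g v).Nonempty) := by
      unfold jNew gjm
      rw [mem_union, mem_filter]
      exact ⟨fun h1 => (h1.resolve_right hvJ).2, fun h1 => Or.inl ⟨hv, h1⟩⟩
    rw [e1, h.tok_fr (a.sub hv)]
    by_cases h1 : v ∈ jm
    · have h2 : gdp G g v = ∅ := by
        rw [eq_empty_iff_forall_notMem]
        intro d hd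
        obtain ⟨⟨p1, p2, p3⟩, p4, p5⟩ := mem_gdp.1 hd
        exact a.gdp_nF ok hv hd (h.fresh.j0 v h1 d (mem_st.2 ⟨p1, p5⟩))
      rw [if_pos h1, if_pos (e2.2 (Or.inl h1)), h2, card_empty]
      norm_num
    · rw [if_neg h1]
      by_cases h3 : (gdp G g v).Nonempty
      · rw [if_pos (e2.2 (Or.inr h3))]
        have h4 : (gdp G g v).card = 1 := by
          refine le_antisymm ?_ (card_pos.2 h3)
          rw [← h.fresh.jd v (a.sub hv) h1]
          refine card_le_card fun d hd => mem_filter.2 ⟨?_, a.gdp_nF ok hv hd⟩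
          obtain ⟨⟨p1, p2, p3⟩, p4, p5⟩ := mem_gdp.1 hd
          exact mem_st.2 ⟨p1, p5⟩
        rw [h4]
        norm_num
      · rw [if_neg fun h4 => (e2.1 h4).elim h1 h3]
        rw [not_nonempty_iff_eq_empty] at h3
        rw [h3, card_empty]
        norm_num
  · have e1 : gt G g one1 t tk v = tk v := by
      unfold gt
      rw [if_pos (a.KFK hv)]
    have e2 : v ∈ jNew G g jm fr1 JK ↔ v ∈ JK := by
      unfold jNew gjm
      rw [mem_union, mem_filter]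
      exact ⟨fun h1 => h1.resolve_left fun h2 => a.KnA ok hv (a.inA h2.1), Or.inr⟩
    rw [e1]
    by_cases h1 : v ∈ JK
    · rw [if_pos (e2.2 h1), j.one v h1]
    · rw [if_neg fun h2 => h1 (e2.1 h2), j.zer v hv h1]

/-- the fresh part of the state -/
theorem frs (h : EK G k t fr F jm) (j : JOk tk KF JK)
    (hdeg : ∀ v ∈ (gad G g ok).vs, (((gad G g ok).st v).card : ℝ) + gt G g one1 t tk v = 3) :
    (gad G g ok).FrS one1 (fr1 ∪ KF) (FNew G F fr1 EF PF) (jNew G g jm fr1 JK) := by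
  have hvs : ∀ v ∈ fr1 ∪ KF, v ∈ (gad G g ok).vs := by
    intro v hv
    rcases mem_union.1 hv with hv | hv
    · exact mem_union_left _ (a.inA hv)
    · exact mem_union_right _ (a.KFK hv)
  have key : ∀ v ∈ fr1 ∪ KF, (((gad G g ok).st v).filter fun d => d ∉ FNew G F fr1 EF PF).card + 2 =
      ((gad G g ok).st v).card := by
    intro v hv
    have h1 : ((gad G g ok).st v).filter (fun d => ¬ d ∉ FNew G F fr1 EF PF) =
        (FNew G F fr1 EF PF).filter fun d => gpi G g d = v := by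
      ext d
      rw [mem_filter, mem_filter, mem_st, not_not]
      constructor
      · rintro ⟨⟨h2, h3⟩, h4⟩
        exact ⟨h4, h3⟩
      · rintro ⟨h2, h3⟩
        exact ⟨⟨a.FsubN ok h.fresh h2, h3⟩, h2⟩
    have h2 := card_filter_add_card_filter_not (s := (gad G g ok).st v)
      (fun d => d ∉ FNew G F fr1 EF PF)
    rw [h1, a.two' ok h.fresh hv] at h2
    exact h2
  refine ⟨hvs, fun d hd => a.FsubN ok h.fresh hd, fun d hd => a.FalN ok h.fresh hd,
    fun d hd => a.FfrN ok h.fresh hd, fun v hv => a.two' ok h.fresh hv, ?_, ?_, ?_,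
    fun _ _ _ => rfl⟩
  · intro v hv
    unfold jNew at hv
    rcases mem_union.1 hv with hv | hv
    · exact mem_union_left _ (mem_filter.1 hv).1
    · exact mem_union_right _ (j.sub hv)
  · intro v hv hnj
    have h1 := key v hv
    have h2 := hdeg v (hvs v hv)
    rw [a.tok ok h j hv, if_neg hnj] at h2
    have h3 : ((gad G g ok).st v).card = 3 := by
      have : (((gad G g ok).st v).card : ℝ) = 3 := by linarith
      exact_mod_cast this
    omega
  · intro v hv d hd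
    have hv' : v ∈ fr1 ∪ KF := by
      unfold jNew at hv
      rcases mem_union.1 hv with hv | hv
      · exact mem_union_left _ (mem_filter.1 hv).1
      · exact mem_union_right _ (j.sub hv)
    have h1 := key v hv'
    have h2 := hdeg v (hvs v hv')
    rw [a.tok ok h j hv', if_pos hv] at h2
    have h3 : ((gad G g ok).st v).card = 2 := by
      have : (((gad G g ok).st v).card : ℝ) = 2 := by linarith
      exact_mod_cast this
    have h4 : (((gad G g ok).st v).filter fun d => d ∉ FNew G F fr1 EF PF).card = 0 := by omega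
    rw [card_eq_zero, filter_eq_empty_iff] at h4
    by_contra h5
    exact h4 hd h5

/-- closed unions of the state: without the arc, or with the arc and all of `KF` -/
theorem adm (hF : G.FrS one1 fr F jm)
    (hX : (gad G g ok).Adm (fr1 ∪ KF) (FNew G F fr1 EF PF) X) :
    (X ⊆ fr1 ∧ G.Adm fr F X ∧ ∀ d ∈ PF, G.pi d ∉ X) ∨
      (∃ Y, X = Y ∪ KF ∧ KF.Nonempty ∧ G.AAdm F PF fr1 Y ∧ ∀ d ∈ PF, G.pi d ∈ Y) := by
  have hcl : ∀ d ∈ FNew G F fr1 EF PF, gpi G g d ∈ X → gpi G g (gal G g d) ∈ X :=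
    fun d hd h1 => hX.clo d hd h1
  have hS := a.con (X ∩ KF) inter_subset_right fun d hd h1 => by
    have h2 := hcl d (mem_FNew.2 (Or.inr (Or.inr hd)))
      (by rw [GOk.gpiE (a.EFE hd)]; exact (mem_inter.1 h1).1)
    rw [GOk.galE (a.EFE hd), GOk.gpiE (ok.beE _ (a.EFE hd))] at h2
    exact mem_inter.2 ⟨h2, a.EFk _ (a.EFb d hd)⟩
  have hsp : X = (X ∩ fr1) ∪ (X ∩ KF) := by
    rw [← inter_union_distrib_left, inter_eq_left.2 hX.sub]
  rcases Finset.eq_empty_or_nonempty (X ∩ KF) with h0 | h0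
  · left
    have hXf : X ⊆ fr1 := by
      rw [hsp, h0, union_empty]
      exact inter_subset_right
    have hP : ∀ d ∈ PF, G.pi d ∉ X := by
      intro d hd h1
      have h2 := hcl d (mem_FNew.2 (Or.inl ⟨a.PFF hd, a.PFr d hd⟩))
        (by rw [a.piF ok hF (a.PFF hd) (a.PFr d hd)]; exact h1)
      rw [a.alF ok hF (a.PFF hd) (a.PFr d hd), ok.gpiQ (a.PFP hd)] at h2
      have h3 : g.ga d ∈ X ∩ KF := mem_inter.2 ⟨h2, a.PFk d hd⟩
      rw [h0] at h3
      exact notMem_empty _ h3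
    refine ⟨hXf, ⟨hXf.trans a.sub, fun d hd h1 => ?_⟩, hP⟩
    have h2 := hXf h1
    rcases a.clo d hd h2 with h3 | h3
    · have h4 := hcl d (mem_FNew.2 (Or.inl ⟨hd, h2⟩)) (by rw [a.piF ok hF hd h2]; exact h1)
      rw [a.alF ok hF hd h2, ok.gpiA (G.al_mem _ (hF.Fsub hd)) (a.inA h3)] at h4
      exact h4
    · exact absurd h1 (hP d h3)
  · right
    have h1 : X ∩ KF = KF := hS.resolve_left (nonempty_iff_ne_empty.1 h0)
    have hKX : KF ⊆ X := inter_eq_right.1 h1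
    have hP : ∀ d ∈ PF, G.pi d ∈ X ∩ fr1 := by
      intro d hd
      have h2 := hcl (G.al d) (mem_FNew.2 (Or.inr (Or.inl ⟨d, hd, rfl⟩)))
        (by rw [ok.gpiQ (a.PFP hd)]; exact hKX (a.PFk d hd))
      rw [GOk.galN (ok.QE (a.PFP hd)), G.al_al _ (ok.P1 (a.PFP hd)).1,
        a.piF ok hF (a.PFF hd) (a.PFr d hd)] at h2
      exact mem_inter.2 ⟨h2, a.PFr d hd⟩
    refine ⟨X ∩ fr1, by rw [← h1, ← hsp], by rw [← h1]; exact h0, ⟨inter_subset_right, ?_⟩, hP⟩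
    intro d hd h2
    obtain ⟨h3, h4⟩ := mem_inter.1 h2
    rcases a.clo d hd h4 with h5 | h5
    · left
      have h6 := hcl d (mem_FNew.2 (Or.inl ⟨hd, h4⟩)) (by rw [a.piF ok hF hd h4]; exact h3)
      rw [a.alF ok hF hd h4, ok.gpiA (G.al_mem _ (hF.Fsub hd)) (a.inA h5)] at h6
      exact mem_inter.2 ⟨h6, h5⟩
    · exact Or.inr h5

/-- unions without the arc -/
theorem adm1 (hF : G.FrS one1 fr F jm) (hX : G.Adm fr F X) (h1 : X ⊆ fr1)
    (h2 : ∀ d ∈ PF, G.pi d ∉ X) :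
    (gad G g ok).Adm (fr1 ∪ KF) (FNew G F fr1 EF PF) X := by
  refine ⟨h1.trans subset_union_left, fun d hd hp => ?_⟩
  change gpi G g d ∈ X at hp
  change gpi G g (gal G g d) ∈ X
  rcases mem_FNew.1 hd with ⟨h3, h4⟩ | ⟨p, h3, rfl⟩ | h3
  · rw [a.piF ok hF h3 h4] at hp
    rw [a.alF ok hF h3 h4]
    have h5 := hX.clo d h3 hp
    rw [ok.gpiA (G.al_mem _ (hF.Fsub h3)) (a.inA (h1 h5))]
    exact h5
  · rw [ok.gpiQ (a.PFP h3)] at hp
    exact absurd (a.inA (h1 hp)) (a.KnA ok (a.PFk p h3))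
  · rw [GOk.gpiE (a.EFE h3)] at hp
    exact absurd (a.inA (h1 hp)) (a.KnA ok (a.EFk d h3))

/-- unions with the arc -/
theorem adm2 (hF : G.FrS one1 fr F jm) (hY : G.AAdm F PF fr1 Y)
    (h2 : ∀ d ∈ PF, G.pi d ∈ Y) :
    (gad G g ok).Adm (fr1 ∪ KF) (FNew G F fr1 EF PF) (Y ∪ KF) := by
  refine ⟨union_subset_union_left hY.sub, fun d hd hp => ?_⟩
  change gpi G g d ∈ Y ∪ KF at hp
  change gpi G g (gal G g d) ∈ Y ∪ KF
  rcases mem_FNew.1 hd with ⟨h3, h4⟩ | ⟨p, h3, rfl⟩ | h3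
  · rw [a.piF ok hF h3 h4] at hp
    have hp' : G.pi d ∈ Y := by
      rcases mem_union.1 hp with hp | hp
      · exact hp
      · exact absurd (a.inA h4) (a.KnA ok hp)
    rw [a.alF ok hF h3 h4]
    rcases hY.clo d h3 hp' with h5 | h5
    · rw [ok.gpiA (G.al_mem _ (hF.Fsub h3)) (a.inA (hY.sub h5))]
      exact mem_union_left _ h5
    · rw [ok.gpiQ (a.PFP h5)]
      exact mem_union_right _ (a.PFk d h5)
  · rw [GOk.galN (ok.QE (a.PFP h3)), G.al_al _ (ok.P1 (a.PFP h3)).1,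
      a.piF ok hF (a.PFF h3) (a.PFr p h3)]
    exact mem_union_left _ (h2 p h3)
  · rw [GOk.galE (a.EFE h3), GOk.gpiE (ok.beE _ (a.EFE h3))]
    exact mem_union_right _ (a.EFk _ (a.EFb d h3))

end AOk

/-- **the gadget state with a closed arc** -/
theorem EK.gadA (h : EK G k t fr F jm) (ok : GOk G g) (a : AOk G g fr F fr1 KF EF PF)
    (j : JOk tk KF JK) (he : Even (g.A.card + g.K.card))
    (tk0 : ∀ v ∈ g.K, 0 ≤ tk v) (kd : ∀ v ∈ g.K, gvk g one1 one1 tk {v} = 3)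
    (h2 : jNew G g jm fr1 JK = ∅ ∨ (jNew G g jm fr1 JK).card = 2)
    (ht : ∑ v ∈ g.A, t v + (((G.bd g.A).filter fun d => d ∉ g.P).card : ℝ) +
      ∑ v ∈ g.K, tk v = k')
    (ko : ∀ X ⊆ g.A, ∀ Y ⊆ g.K, Odd (X.card + Y.card) → X.card + Y.card ≠ 1 →
      5 ≤ G.val one1 t X + gvk g one1 one1 tk Y - 2 * gpw G g one1 X Y)
    (ke : ∀ X ⊆ g.A, ∀ Y ⊆ g.K, Even (X.card + Y.card) → (X.Nonempty ∨ Y.Nonempty) →
      (X ≠ g.A ∨ Y ≠ g.K) →
      4 ≤ G.val one1 t X + gvk g one1 one1 tk Y - 2 * gpw G g one1 X Y)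
    (kc : ∀ Y, G.AAdm F PF fr1 Y → (∀ d ∈ PF, G.pi d ∈ Y) → Even (Y.card + KF.card) →
      6 ≤ G.val one1 t Y + gvk g one1 one1 tk KF - 2 * gpw G g one1 Y KF) :
    EK (MG.gad G g ok) k' (gt G g one1 t tk) (fr1 ∪ KF) (FNew G F fr1 EF PF)
      (jNew G g jm fr1 JK) := by
  have hg : gz g one1 one1 = (one1 : D → ℝ) := gz_one
  have hval : ∀ X ⊆ g.A, ∀ Y ⊆ g.K, (MG.gad G g ok).val one1 (gt G g one1 t tk) (X ∪ Y) =
      G.val one1 t X + gvk g one1 one1 tk Y - 2 * gpw G g one1 X Y := by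
    intro X hX Y hY
    have h3 := gad_val (t := t) ok h.wt.sym one1 tk hX hY
    rwa [hg] at h3
  have hsp : ∀ X ⊆ g.A ∪ g.K, X = (X ∩ g.A) ∪ (X ∩ g.K) ∧
      X.card = (X ∩ g.A).card + (X ∩ g.K).card := by
    intro X hX
    have h3 : X = (X ∩ g.A) ∪ (X ∩ g.K) := by
      rw [← inter_union_distrib_left, inter_eq_left.2 hX]
    have h4 : Disjoint (X ∩ g.A) (X ∩ g.K) := disjoint_left.2 fun v h3 h4 =>
      ok.dj _ (mem_inter.1 h4).2 (mem_inter.1 h3).2
    refine ⟨h3, ?_⟩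
    rw [← card_union_of_disjoint h4, ← h3]
  have hw : (MG.gad G g ok).Wt one1 (gt G g one1 t tk) := by
    have h3 := gad_wt (ze := one1) ok h.wt (fun _ _ => zero_le_one) (fun _ _ => rfl) tk0 kd
      (fun X hX Y hY ho => by
        by_cases h1 : X.card + Y.card = 1
        · rcases Nat.eq_zero_or_pos X.card with h4 | h4
          · rw [card_eq_zero] at h4
            rw [h4, card_empty, zero_add] at h1
            obtain ⟨v, rfl⟩ := card_eq_one.1 h1
            rw [h4, val_empty', gpw_empty', kd v (hY (mem_singleton_self v))]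
            norm_num
          · have h5 : Y.card = 0 := by omega
            rw [card_eq_zero] at h5
            have h6 : X.card = 1 := by omega
            obtain ⟨v, rfl⟩ := card_eq_one.1 h6
            rw [h5, gvk_empty, gpw_empty, h.wt.val_single (ok.hA (hX (mem_singleton_self v)))]
            norm_num
        · have h4 := ko X hX Y hY ho h1
          linarith)
    rwa [hg] at h3
  have hdeg : ∀ v ∈ (MG.gad G g ok).vs,
      (((MG.gad G g ok).st v).card : ℝ) + gt G g one1 t tk v = 3 := by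
    intro v hv
    have h3 := hw.deg v hv
    rw [← h3]
    congr 1
    unfold one1
    rw [sum_const, nsmul_eq_mul, mul_one]
  have hfr := a.frs ok h j hdeg
  refine ⟨?_, hfr, h2, hdeg, hw.t0, ?_, ?_, ?_, ?_⟩
  · change Even (g.A ∪ g.K).card
    rw [card_union_of_disjoint (disjoint_left.2 fun v h3 h4 => ok.dj _ h4 h3)]
    exact he
  · have h3 := gad_tau (t := t) ok one1 h.wt.sym tk
    have h4 : ∑ d ∈ (G.bd g.A).filter (fun d => d ∉ g.P), one1 d =
        (((G.bd g.A).filter fun d => d ∉ g.P).card : ℝ) := by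
      unfold one1
      rw [sum_const, nsmul_eq_mul, mul_one]
    rw [h3, h4]
    exact ht
  · intro X hX ho h1
    obtain ⟨h3, h4⟩ := hsp X hX
    rw [h4] at ho h1
    rw [h3, hval _ inter_subset_right _ inter_subset_right]
    exact ko _ inter_subset_right _ inter_subset_right ho h1
  · intro X hX hev hn h1
    obtain ⟨h3, h4⟩ := hsp X hX
    rw [h4] at hev
    rw [h3, hval _ inter_subset_right _ inter_subset_right]
    refine ke _ inter_subset_right _ inter_subset_right hev ?_ ?_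
    · rw [h3, union_nonempty] at hn
      exact hn
    · by_contra h5
      rw [not_or, not_not, not_not] at h5
      apply h1
      rw [h3, h5.1, h5.2]
      rfl
  · intro X hX hev hn
    have hXs := hX.sub
    have e1 : ∑ v ∈ X, gt G g one1 t tk v = ((X ∩ jNew G g jm fr1 JK).card : ℝ) := by
      rw [sum_congr rfl fun v hv => a.tok ok h j (hXs hv), ← sum_filter, sum_const, nsmul_eq_mul,
        mul_one, filter_mem_eq_inter]
    have e2 : (6 : ℝ) ≤ (MG.gad G g ok).val one1 (gt G g one1 t tk) X := by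
      rcases a.adm ok h.fresh hX with ⟨h3, h4, h5⟩ | ⟨Y, rfl, h3, h4, h5⟩
      · have h6 := hval X (h3.trans a.inA) ∅ (empty_subset _)
        rw [union_empty, gvk_empty, gpw_empty] at h6
        rw [h6]
        have h7 := h.c6 X h4 hev hn
        have h8 := h.sum_tok_fr h4.sub
        rw [val_one, h8]
        have h9 : ((6 : ℕ) : ℝ) ≤ (((G.bd X).card + (X ∩ jm).card : ℕ) : ℝ) := by
          exact_mod_cast h7
        push_cast at h9
        linarith
      · rw [hval Y (h4.sub.trans a.inA) KF a.KFK]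
        refine kc Y h4 h5 ?_
        rwa [card_union_of_disjoint (disjoint_left.2 fun v h6 h7 =>
          a.KnA ok h7 (a.inA (h4.sub h6)))] at hev
    rw [val_one, e1] at e2
    have h3 : ((6 : ℕ) : ℝ) ≤ ((((MG.gad G g ok).bd X).card + (X ∩ jNew G g jm fr1 JK).card : ℕ) :
        ℝ) := by
      push_cast
      exact e2
    exact_mod_cast h3

namespace AOk

variable (ok : GOk G g) (a : AOk G g fr F fr1 KF EF PF) {M : Finset D}
include ok a

/-- unions without the arc, closed up to dropped exits -/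
theorem st1 (hF : G.FrS one1 fr F jm)
    (hM : (gad G g ok).GoodS one1 (fr1 ∪ KF) (FNew G F fr1 EF PF) (jNew G g jm fr1 JK) M)
    (hX : G.Adm fr F X) (h1 : X ⊆ fr1) (h2 : ∀ d ∈ PF, G.pi d ∉ X)
    (hcl : ∀ d ∈ G.bd X, d ∈ M ∨ (G.pi (G.al d) ∉ g.A ∧ d ∉ g.P)) :
    Even X.card ∧ ¬ ((jNew G g jm fr1 JK).Nonempty ∧ jNew G g jm fr1 JK ⊆ X) := by
  have key : (Odd X.card ∨ ((jNew G g jm fr1 JK).Nonempty ∧ jNew G g jm fr1 JK ⊆ X)) → False := by
    intro h4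
    obtain ⟨d, h5, h6⟩ := hM.hit X (a.adm1 ok hF hX h1 h2) h4
    obtain ⟨h7, h8⟩ := (gad_mem_bd ok (h1.trans a.inA)).1 h5
    rcases hcl d h7 with h9 | h9
    · exact h6 h9
    · exact h8 h9
  refine ⟨?_, fun h4 => key (Or.inr h4)⟩
  rw [← Nat.not_odd_iff_even]
  exact fun h4 => key (Or.inl h4)

/-- boundary of a union with the arc -/
theorem bd2 {d : D} (hY : Y ⊆ g.A) (hd : d ∈ (gad G g ok).bd (Y ∪ KF)) :
    (d ∈ G.bd Y ∧ ¬ (G.pi (G.al d) ∉ g.A ∧ d ∉ g.P) ∧ (d ∈ g.P → g.ga d ∉ KF)) ∨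
      (∃ p ∈ g.P, G.al p = d ∧ g.ga p ∈ KF ∧ G.pi p ∉ Y) ∨
      (d ∈ g.E ∧ g.pe d ∈ KF ∧ g.pe (g.be d) ∉ KF) := by
  obtain ⟨h1, h2, h3⟩ := mem_bd.1 hd
  change d ∈ gds G g at h1
  change gpi G g d ∈ Y ∪ KF at h2
  change gpi G g (gal G g d) ∉ Y ∪ KF at h3
  have nK : ∀ {v : V}, v ∈ g.A → v ∉ KF := fun h4 h5 => a.KnA ok h5 h4
  rcases mem_gds.1 h1 with ⟨h4, h5, h6⟩ | h4 | ⟨p, h4, rfl⟩ | h4
  · left
    rw [ok.gpiA h4 h5] at h2
    rw [GOk.galN (ok.innE h4 h5), ok.gpiA (G.al_mem _ h4) h6] at h3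
    have h7 : G.pi d ∈ Y := (mem_union.1 h2).resolve_right (nK h5)
    refine ⟨mem_bd.2 ⟨h4, h7, fun h8 => h3 (mem_union_left _ h8)⟩, fun h8 => h8.1 h6,
      fun h8 => absurd h6 (ok.P1 h8).2.2⟩
  · left
    obtain ⟨x, y, z⟩ := ok.P1 h4
    rw [ok.gpiA x y] at h2
    rw [GOk.galN (ok.PE h4), ok.gpiQ h4] at h3
    have h7 : G.pi d ∈ Y := (mem_union.1 h2).resolve_right (nK y)
    exact ⟨mem_bd.2 ⟨x, h7, fun h8 => z (hY h8)⟩, fun h8 => h8.2 h4,
      fun _ h8 => h3 (mem_union_right _ h8)⟩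
  · right
    left
    obtain ⟨x, y, z⟩ := ok.P1 h4
    rw [ok.gpiQ h4] at h2
    rw [GOk.galN (ok.QE h4), G.al_al _ x, ok.gpiA x y] at h3
    have h7 : g.ga p ∈ KF := (mem_union.1 h2).resolve_left fun h8 =>
      ok.dj _ (ok.gaK _ h4) (hY h8)
    exact ⟨p, h4, rfl, h7, fun h8 => h3 (mem_union_left _ h8)⟩
  · right
    right
    rw [GOk.gpiE h4] at h2
    rw [GOk.galE h4, GOk.gpiE (ok.beE _ h4)] at h3
    have h7 : g.pe d ∈ KF := (mem_union.1 h2).resolve_left fun h8 =>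
      ok.dj _ (ok.peK _ h4) (hY h8)
    exact ⟨h4, h7, fun h8 => h3 (mem_union_right _ h8)⟩

/-- **unions with the arc**, closed up to dropped exits and the ends of the arc, the legs of the
gadget are used -/
theorem st2 (hF : G.FrS one1 fr F jm)
    (hM : (gad G g ok).GoodS one1 (fr1 ∪ KF) (FNew G F fr1 EF PF) (jNew G g jm fr1 JK) M)
    (hY : G.AAdm F PF fr1 Y) (h2 : ∀ d ∈ PF, G.pi d ∈ Y)
    (hcl : ∀ d ∈ G.bd Y, d ∉ PF → d ∈ M ∨ (G.pi (G.al d) ∉ g.A ∧ d ∉ g.P))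
    (hP : ∀ p ∈ g.P, g.ga p ∈ KF → G.pi p ∉ Y → p ∈ M)
    (hE : ∀ d ∈ g.E, g.pe d ∈ KF → g.pe (g.be d) ∉ KF → d ∈ M) :
    Even (Y.card + KF.card) ∧
      ¬ ((jNew G g jm fr1 JK).Nonempty ∧ jNew G g jm fr1 JK ⊆ Y ∪ KF) := by
  have hYA := hY.sub.trans a.inA
  have hc : (Y ∪ KF).card = Y.card + KF.card :=
    card_union_of_disjoint (disjoint_left.2 fun v h6 h7 => a.KnA ok h7 (hYA h6))
  have key : (Odd (Y ∪ KF).card ∨ ((jNew G g jm fr1 JK).Nonempty ∧
      jNew G g jm fr1 JK ⊆ Y ∪ KF)) → False := by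
    intro h4
    obtain ⟨d, h5, h6⟩ := hM.hit _ (a.adm2 ok hF hY h2) h4
    rcases a.bd2 ok hYA h5 with ⟨h7, h8, h9⟩ | ⟨p, h7, rfl, h8, h9⟩ | ⟨h7, h8, h9⟩
    · have h10 : d ∉ PF := fun h11 => h9 (a.PFP h11) (a.PFk d h11)
      rcases hcl d h7 h10 with h11 | h11
      · exact h6 h11
      · exact h8 h11
    · have h10 := hP p h7 h8 h9
      have h11 := hM.pm.closed p h10
      change gal G g p ∈ M at h11
      rw [GOk.galN (ok.PE h7)] at h11
      exact h6 h11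
    · exact h6 (hE d h7 h8 h9)
  rw [hc] at key
  refine ⟨?_, fun h4 => key (Or.inr h4)⟩
  rw [← Nat.not_odd_iff_even]
  exact fun h4 => key (Or.inl h4)

/-- the half certificate -/
theorem hpot (h : EK G k t fr F jm) {p : V → ℝ}
    (hp : (gad G g ok).Pot one1 (gt G g one1 t tk) (FNew G F fr1 EF PF) ∅ p) :
    G.HPot one1 t F g.A p ∧
    (∀ d ∈ G.bd g.A, d ∉ g.P → p (G.pi d) = 1) ∧
    (∀ d ∈ g.P, d ∉ PF → p (G.pi d) + p (g.ga d) = 0) ∧
    (∀ d ∈ PF, p (G.pi d) + p (g.ga d) ≤ 0) ∧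
    (∀ v ∈ g.K, tk v ≠ 0 → p v = 1) ∧
    (∀ d ∈ g.E, d ∉ EF → p (g.pe d) + p (g.pe (g.be d)) = 0) ∧
    (∀ d ∈ EF, p (g.pe d) + p (g.pe (g.be d)) ≤ 0) := by
  have hp' : (gad G g ok).Pot (gz g one1 one1) (gt G g one1 t tk) (FNew G F fr1 EF PF) ∅ p := by
    rw [gz_one]
    exact hp
  obtain ⟨a1, a2, a3, a4, a5, a6, a7⟩ := gad_pot ok h.wt hp'
  have h1 : ∀ d : D, (0 : ℝ) < one1 d := fun _ => zero_lt_one
  have n1 : ∀ d ∈ G.ds, G.pi d ∈ g.A → d ∉ F → d ∉ FNew G F fr1 EF PF := by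
    intro d hd hdA hF hN
    rcases mem_FNew.1 hN with ⟨h3, -⟩ | ⟨q, h3, rfl⟩ | h3
    · exact hF h3
    · exact (ok.P1 (a.PFP h3)).2.2 hdA
    · exact ok.innE hd hdA (a.EFE h3)
  refine ⟨⟨a1, fun d hd k1 k2 _ k4 => a3 d hd k1 k2 (h1 d) (n1 d hd k1 k4) (notMem_empty d),
    fun d hd k1 k2 => ?_⟩, fun d hd k1 => a2 d hd k1 (h1 d).ne', fun d hd k1 => ?_, fun d hd => ?_,
    a6, fun d hd k1 => ?_, fun d hd => ?_⟩
  · by_cases k3 : d ∈ FNew G F fr1 EF PF
    · exact a4 d k3 (h.fresh.Fsub hd) k1 k2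
    · exact (a3 d (h.fresh.Fsub hd) k1 k2 (h1 d) k3 (notMem_empty d)).le
  · refine a5 d hd (h1 d) (fun k3 => ?_) (notMem_empty d)
    rcases mem_FNew.1 k3 with ⟨h3, h4⟩ | ⟨q, h3, h4⟩ | h3
    · rcases a.clo d h3 h4 with h5 | h5
      · exact (ok.P1 hd).2.2 (a.inA h5)
      · exact k1 h5
    · have := (ok.P1 hd).2.1
      rw [← h4] at this
      exact (ok.P1 (a.PFP h3)).2.2 this
    · exact ok.PE hd (a.EFE h3)
  · have h3 := hp.kk d (mem_FNew.2 (Or.inl ⟨a.PFF hd, a.PFr d hd⟩))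
    change p (gpi G g d) + p (gpi G g (gal G g d)) ≤ 0 at h3
    rw [a.piF ok h.fresh (a.PFF hd) (a.PFr d hd), a.alF ok h.fresh (a.PFF hd) (a.PFr d hd),
      ok.gpiQ (a.PFP hd)] at h3
    exact h3
  · refine a7 d hd (h1 d) (fun k3 => ?_) (notMem_empty d)
    rcases mem_FNew.1 k3 with ⟨h3, h4⟩ | ⟨q, h3, h4⟩ | h3
    · exact (ok.hE d hd (h.fresh.Fsub h3)).1 (a.inA h4)
    · rw [← h4] at hd
      exact ok.QE (a.PFP h3) hd
    · exact k1 h3
  · have h3 := hp.kk d (mem_FNew.2 (Or.inr (Or.inr hd)))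
    change p (gpi G g d) + p (gpi G g (gal G g d)) ≤ 0 at h3
    rw [GOk.galE (a.EFE hd), GOk.gpiE (a.EFE hd), GOk.gpiE (ok.beE _ (a.EFE hd))] at h3
    exact h3

end AOk

end MG

end RH
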