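import Pool.Agent.Lib.RH.MConn

/-! Minimal counterexamples in normal form with exactly 4 tokens (with or without star). -/

set_option autoImplicit false

namespace RH

open Finset Classical

namespace MG

/-- a minimal counterexample in normal form with 4 tokens. `legin`: a tight set (not trivial)
contains both ends of every leg, except at vertices with two tokens, or it is a `Dig` set (see
`N4.legin'` in N4Dig: without star there are no `Dig` sets at 4 tokens) -/
structure N4 {V D : Type*} (G : MG V D) (z : D → ℝ) (t : V → ℝ) (fr : Finset V) (F : Finset D)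
    (jm sx : Finset V) (ep : V → ℕ) (m : ℕ) : Prop where
  mc : G.MCS z t fr F jm sx ep m
  rigid : G.Rigid z fr
  legin : ∀ z' t', G.Alt z fr z' t' → ∀ W ⊆ G.vs, Odd W.card → G.val z' t' W = 3 → 3 ≤ W.card →
    3 ≤ (G.vs \ W).card → ∀ j ∈ G.ds, G.pi j ∈ fr → G.pi (G.al j) ∉ fr →
    t' (G.pi (G.al j)) ≠ 2 → (G.pi j ∈ W ∧ G.pi (G.al j) ∈ W) ∨ ∃ x p q, G.Dig z' t' fr W x p q
  opt : ∀ z'' t'', G.Alt z fr z'' t'' → ∑ v ∈ G.vs, t v ≤ ∑ v ∈ G.vs, t'' v
  nf : G.NF z t fr
  tau : ∑ v ∈ G.vs, t v = 4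

variable {V D : Type*} {G : MG V D} {z z' : D → ℝ} {t t' : V → ℝ} {fr : Finset V} {F : Finset D}
variable {jm sx : Finset V} {ep : V → ℕ} {m : ℕ} {M : Finset D}

/-- value of the complement of a vertex -/
theorem val_compl_single (hw : G.Wt z t) {v : V} (hv : v ∈ G.vs) :
    G.val z t (G.vs \ {v}) = 3 + ∑ w ∈ G.vs, t w - 2 * t v := by
  have h1 := hw.val_compl (X := {v}) (singleton_subset_iff.2 hv)
  rw [hw.val_single hv, sum_singleton] at h1
  linarith

theorem odd_compl_single (he : Even G.vs.card) {v : V} (hv : v ∈ G.vs) :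
    Odd (G.vs \ {v}).card := by
  have h1 := card_sdiff_add_card_eq_card (singleton_subset_iff.2 hv)
  rw [card_singleton] at h1
  obtain ⟨k, hk⟩ := he
  exact ⟨k - 1, by omega⟩

theorem IsW.mem_vs_left {S : Finset D} (hS : S ⊆ G.ds) {u w : V} {l : List D}
    (h : G.IsW S u l w) (hne : l ≠ []) : u ∈ G.vs := by
  cases l with
  | nil => exact absurd rfl hne
  | cons d l =>
    obtain ⟨hd, hdp, -⟩ := h
    rw [← hdp]
    exact G.pi_mem d (hS hd)

/-- the F-darts of a circuit are support darts outside the other fresh vertices, different from a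
leg -/
theorem circ_sub (hF : G.FrS z fr F jm) {C : Finset V} (hC : G.Circ fr F C) {j : D}
    (hj : j ∈ G.ds) (hw : G.pi (G.al j) ∉ fr) :
    (F.filter fun d => G.pi d ∈ C) ⊆ (G.sd z (fr \ C)).filter fun d => d ≠ j ∧ d ≠ G.al j := by
  intro d hd
  obtain ⟨hdF, hdC⟩ := mem_filter.1 hd
  have hds := hF.Fsub hdF
  have hdC' := hC.adm.clo d hdF hdC
  refine mem_filter.2 ⟨mem_sd.2 ⟨hds, ?_, fun hh => (mem_sdiff.1 hh).2 hdC,
    fun hh => (mem_sdiff.1 hh).2 hdC'⟩, ?_, ?_⟩
  · rw [hF.unit d hds (hC.adm.sub hdC)]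
    norm_num
  · rintro rfl
    exact hw (hC.adm.sub hdC')
  · rintro rfl
    exact hw (hC.adm.sub hdC)

/-- at most two tokens at a vertex -/
theorem N4.t_le (h : G.N4 z t fr F jm sx ep m) {v : V} (hv : v ∈ G.vs) : t v ≤ 2 := by
  have hw := h.mc.inst.wt
  have h1 := val_compl_single hw hv
  have h2 : Odd (G.vs \ {v}).card := odd_compl_single h.mc.inst.even hv
  have h3 := hw.cut _ sdiff_subset h2
  rw [h1, h.tau] at h3
  linarith

/-- tight sets: vertices, complements of vertices with two tokens, nontrivial sets -/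
theorem N4.tight (h : G.N4 z t fr F jm sx ep m) {X : Finset V} (hX : X ⊆ G.vs)
    (ho : Odd X.card) (h3 : G.val z t X = 3) :
    (∃ v ∈ G.vs, X = {v}) ∨ (∃ v ∈ G.vs, v ∉ fr ∧ t v = 2 ∧ X = G.vs \ {v}) ∨
      (3 ≤ X.card ∧ 3 ≤ (G.vs \ X).card) := by
  have hw := h.mc.inst.wt
  have hev := h.mc.inst.even
  have hc := card_sdiff_add_card_eq_card hX
  obtain ⟨k, hk⟩ := ho
  obtain ⟨l, hl⟩ := hev
  by_cases h1 : X.card = 1
  · obtain ⟨v, rfl⟩ := card_eq_one.1 h1
    exact Or.inl ⟨v, hX (mem_singleton_self v), rfl⟩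
  by_cases h2 : (G.vs \ X).card = 1
  · obtain ⟨v, hv⟩ := card_eq_one.1 h2
    have hvm : v ∈ G.vs \ X := by rw [hv]; exact mem_singleton_self v
    have hvs := (mem_sdiff.1 hvm).1
    have hXe : X = G.vs \ {v} := by
      rw [← hv, sdiff_sdiff_right_self, inf_eq_inter, inter_eq_right.2 hX]
    have h4 := val_compl_single hw hvs
    rw [← hXe, h3, h.tau] at h4
    have h5 : t v = 2 := by linarith
    refine Or.inr (Or.inl ⟨v, hvs, fun hvf => ?_, h5, hXe⟩)
    by_cases hj : v ∈ jm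
    · have h6 := h.mc.inst.fresh.t_jm hw hj
      linarith
    · have h6 := h.mc.inst.fresh.t_not_jm hw hvf hj
      linarith
  · exact Or.inr (Or.inr ⟨by omega, by omega⟩)

/-- a leg at the middle vertex of a `Dig` set is inside it -/
theorem Dig.leg_in {W : Finset V} {x p q : V} (h : G.Dig z t fr W x p q)
    (hw : G.Wt z t) {j : D} (hj : j ∈ G.ds) (hx : G.pi j ∈ fr) (hz : z j ≠ 0)
    (hp : G.pi (G.al j) = p) : G.pi j ∈ W ∧ G.pi (G.al j) ∈ W := by
  have h1 := h.nb (G.al j) (G.al_mem j hj) hp (by rw [hw.sym j hj]; exact hz)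
  rw [G.al_al j hj] at h1
  rw [h.W, hp]
  rcases h1 with h1 | h1
  · rw [h1]
    simp
  · exact absurd (h1 ▸ hx) h.qf

/-- KILL: the leg `j` (from `x = pi j` on the circuit `C` to `w` outside `fr`, not two tokens at `w`)
is killed, a walk of odd length lowers the tokens at both its ends -/
theorem N4.kill (h : G.N4 z t fr F jm sx ep m) {C : Finset V} (hC : G.Circ fr F C) {j : D}
    (hj : j ∈ G.ds) (hx : G.pi j ∈ C) (hw : G.pi (G.al j) ∉ fr) (ht2 : t (G.pi (G.al j)) ≠ 2)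
    {p q : V} {l : List D}
    (hl : G.IsW ((G.sd z (fr \ C)).filter fun d => d ≠ j ∧ d ≠ G.al j) p l q)
    (ho : Odd l.length) (hp : 0 < t p ∨ p = G.pi j ∨ p = G.pi (G.al j))
    (hq : 0 < t q ∨ q = G.pi j ∨ q = G.pi (G.al j)) : False := by
  have hw0 := h.mc.inst.wt
  have hF := h.mc.inst.fresh
  have hxfr : G.pi j ∈ fr := hC.adm.sub hx
  have haj := G.al_mem j hj
  have haa := G.al_al j hj
  have hzj : z j = 1 := hF.unit j hj hxfr
  have hzaj : z (G.al j) = 1 := by rw [hw0.sym j hj, hzj]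
  have hmemS : ∀ d, d ∈ ({j, G.al j} : Finset D) ↔ d = j ∨ d = G.al j := by
    intro d
    rw [mem_insert, mem_singleton]
  obtain ⟨fr', f1, f2, f3, f4, f5, f6⟩ := h.mc.inst.absorb_class hC hj hx hw
  have hSy := (hw0.sy_sd (fr \ C)).del j hj
  have hlm := hl.mem
  have hne : l ≠ [] := by
    rintro rfl
    simp at ho
  have hSds : ((G.sd z (fr \ C)).filter fun d => d ≠ j ∧ d ≠ G.al j) ⊆ G.ds := hSy.sub
  have hpv : p ∈ G.vs := hl.mem_vs_left hSds hne
  have hqv : q ∈ G.vs := hl.stay (X := G.vs) (fun d hd _ => G.pi_mem _ (G.al_mem d (hSds hd))) hpv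
  have hwb : ∀ v, wb l p q v = - (if v = q then 1 else 0) - (if v = p then 1 else 0) := by
    intro v
    unfold wb
    rw [ho.neg_one_pow]
    ring
  have hkt : ∀ v, kt G z t {j, G.al j} v = t v + ∑ d ∈ ({j, G.al j} : Finset D).filter
      (fun d => G.pi d = v), z d := fun v => rfl
  have hkt0 : ∀ v, ∀ d ∈ ({j, G.al j} : Finset D).filter (fun d => G.pi d = v), 0 ≤ z d := by
    intro v d hd
    rcases (hmemS d).1 (mem_filter.1 hd).1 with rfl | rfl
    · rw [hzj]; norm_num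
    · rw [hzaj]; norm_num
  have hktp : ∀ v ∈ G.vs, (0 < t v ∨ v = G.pi j ∨ v = G.pi (G.al j)) →
      0 < kt G z t {j, G.al j} v := by
    intro v hv hor
    rw [hkt]
    have h2 := hw0.t0 v hv
    rcases hor with h1 | rfl | rfl
    · have := sum_nonneg (hkt0 v)
      linarith
    · have h5 : j ∈ ({j, G.al j} : Finset D).filter (fun d => G.pi d = G.pi j) :=
        mem_filter.2 ⟨(hmemS _).2 (Or.inl rfl), rfl⟩
      have h7 := single_le_sum (hkt0 _) h5
      rw [hzj] at h7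
      linarith
    · have h5 : G.al j ∈ ({j, G.al j} : Finset D).filter (fun d => G.pi d = G.pi (G.al j)) :=
        mem_filter.2 ⟨(hmemS _).2 (Or.inr rfl), rfl⟩
      have h7 := single_le_sum (hkt0 _) h5
      rw [hzaj] at h7
      linarith
  have key := step_of_dirS (fr' := fr') h.mc.inst (S := {j, G.al j}) ?_ ?_ ?_ ?_ f1 f2 f3 ?_ ?_ f6
    (G.wa l) (wb l p q) ?_ ?_ ?_ ?_ ?_ ?_ ?_ ?_
  · obtain ⟨z', t', hs⟩ := key
    exact h.mc.no_step hs
  · intro d hd
    rcases (hmemS d).1 hd with rfl | rfl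
    · exact hj
    · exact haj
  · intro d hd
    rcases (hmemS d).1 hd with rfl | rfl
    · exact (hmemS _).2 (Or.inr rfl)
    · exact (hmemS _).2 (Or.inl haa)
  · intro d hd
    rcases (hmemS d).1 hd with rfl | rfl
    · exact hzj
    · exact hzaj
  · have hc : ((({j, G.al j} : Finset D).card : ℕ) : ℝ) ≤ 2 := by
      exact_mod_cast card_le_two
    rw [h.tau]
    linarith
  · intro d hd
    rcases (hmemS d).1 hd with rfl | rfl
    · exact fun hh => disjoint_left.1 f4 hh hx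
    · exact fun hh => hw (f1 hh)
  · intro X hX hev hn
    exact ⟨j, f5 X hX hev hn, (hmemS _).2 (Or.inl rfl)⟩
  · intro d hd
    exact wa_sym hSds hlm hd
  · intro v _
    exact wa_deg hSy hl v
  · intro d _ hp'
    refine wa_zero hSy hlm fun hd => ?_
    have h2 := mem_sd.1 (mem_filter.1 hd).1
    exact h2.2.2.1 (mem_sdiff.2 ⟨f1 hp', disjoint_left.1 f4 hp'⟩)
  · intro d hd
    refine wa_zero hSy hlm fun hd' => ?_
    rcases (hmemS d).1 hd with rfl | rfl
    · exact (mem_filter.1 hd').2.1 rfl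
    · exact (mem_filter.1 hd').2.2 rfl
  · intro d _ hz0
    refine wa_zero hSy hlm fun hd' => ?_
    exact (mem_sd.1 (mem_filter.1 hd').1).2.1 hz0
  · intro v hv hk
    rw [hwb]
    have h1 : v ≠ q := by
      rintro rfl
      have := hktp v hv hq
      linarith
    have h2 : v ≠ p := by
      rintro rfl
      have := hktp v hv hp
      linarith
    rw [if_neg h1, if_neg h2]
    norm_num
  · intro X hX hoX hv3 hS
    rcases h.tight hX hoX hv3 with ⟨v, -, rfl⟩ | ⟨v, -, hvf, hv2, rfl⟩ | ⟨hc1, hc2⟩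
    · refine le_of_eq (sum_eq_zero fun d hd => ?_)
      exfalso
      obtain ⟨e1, e2, e3⟩ := mem_ed.1 hd
      rw [mem_singleton] at e2 e3
      exact G.noloop d e1 (e3.trans e2.symm)
    · exfalso
      refine hS j (mem_ed.2 ⟨hj, ?_, ?_⟩) ((hmemS _).2 (Or.inl rfl))
      · refine mem_sdiff.2 ⟨G.pi_mem j hj, fun hh => ?_⟩
        rw [mem_singleton] at hh
        exact hvf (hh ▸ hxfr)
      · refine mem_sdiff.2 ⟨G.pi_mem _ haj, fun hh => ?_⟩
        rw [mem_singleton] at hh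
        exact ht2 (hh ▸ hv2)
    · rcases h.legin z t h.mc.inst.alt_refl X hX hoX hv3 hc1 hc2 j hj hxfr hw ht2 with
        h4 | ⟨x', p', q', h4⟩
      · exact absurd ((hmemS _).2 (Or.inl rfl)) (hS j (mem_ed.2 ⟨hj, h4.1, h4.2⟩))
      · have hp' : p' ∈ X := by rw [h4.W]; simp
        have hne' : ∀ v : V, (0 < t v ∨ v = G.pi j ∨ v = G.pi (G.al j)) → p' ≠ v := by
          rintro v (h5 | h5 | h5) rfl
          · rw [h4.tp] at h5
            exact lt_irrefl _ h5
          · exact h4.pf (h5 ▸ hxfr)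
          · obtain ⟨h6, h7⟩ := h4.leg_in hw0 hj hxfr (by rw [hzj]; norm_num) h5.symm
            exact hS j (mem_ed.2 ⟨hj, h6, h7⟩) ((hmemS _).2 (Or.inl rfl))
        rw [h4.ed (a := G.wa l) (fun d hd => wa_sym hSds hlm hd) fun d _ hz0 =>
          wa_zero hSy hlm fun hd' => (mem_sd.1 (mem_filter.1 hd').1).2.1 hz0]
        have h5 := wa_deg hSy hl p'
        rw [hwb, if_neg (hne' q hq), if_neg (hne' p hp)] at h5
        linarith
  · rw [sum_wb hpv hqv, ho.neg_one_pow]
    norm_num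

/-- KILL, walk outside `fr` which starts at the end `w` of the leg -/
theorem N4.killQ (h : G.N4 z t fr F jm sx ep m) {j : D}
    (hj : j ∈ G.ds) (hx : G.pi j ∈ fr) (hw : G.pi (G.al j) ∉ fr)
    {q : V} {l : List D} (hl : G.IsW (G.sd z fr) (G.pi (G.al j)) l q)
    (ho : Odd l.length) (hq : 0 < t q ∨ q = G.pi (G.al j)) : False := by
  have hw0 := h.mc.inst.wt
  have hF := h.mc.inst.fresh
  have hne : l ≠ [] := by
    rintro rfl
    simp at ho
  have ht2 : t (G.pi (G.al j)) ≠ 2 := by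
    intro h2
    cases l with
    | nil => exact hne rfl
    | cons d l =>
      obtain ⟨hd, hdp, -⟩ := hl
      obtain ⟨d1, d2, d3, d4⟩ := mem_sd.1 hd
      have h3 := hw0.deg _ (G.pi_mem _ (G.al_mem j hj))
      have h4 : d ≠ G.al j := by
        rintro rfl
        rw [G.al_al j hj] at d4
        exact d4 hx
      have h5 : z (G.al j) = 1 := by rw [hw0.sym j hj, hF.unit j hj hx]
      have h6 : ({d, G.al j} : Finset D) ⊆ G.st (G.pi (G.al j)) := by
        intro e he
        rcases mem_insert.1 he with rfl | he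
        · exact mem_st.2 ⟨d1, hdp⟩
        · rw [mem_singleton] at he
          rw [he]
          exact mem_st.2 ⟨G.al_mem j hj, rfl⟩
      have h7 := sum_le_sum_of_subset_of_nonneg (f := z) h6
        (fun e he _ => hw0.z0 e (mem_st.1 he).1)
      rw [sum_pair h4, h5] at h7
      have h8 := (hw0.z0 d d1).lt_of_ne (Ne.symm d2)
      linarith
  obtain ⟨C, hxC, hC⟩ := hF.exists_circ hx
  refine h.kill hC hj hxC hw ht2 (hl.mono fun d hd => ?_) ho (Or.inr (Or.inr rfl)) ?_
  · obtain ⟨d1, d2, d3, d4⟩ := mem_sd.1 hd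
    refine mem_filter.2 ⟨mem_sd.2 ⟨d1, d2, fun hh => d3 (mem_sdiff.1 hh).1,
      fun hh => d4 (mem_sdiff.1 hh).1⟩, ?_, ?_⟩
    · rintro rfl
      exact d3 hx
    · rintro rfl
      rw [G.al_al j hj] at d4
      exact d4 hx
  · rcases hq with h1 | h1
    · exact Or.inl h1
    · exact Or.inr (Or.inr h1)

/-- no closed odd walk outside `fr` -/
theorem N4.no_odd (h : G.N4 z t fr F jm sx ep m) {u : V} {l : List D}
    (hl : G.IsW (G.sd z fr) u l u) : Even l.length := by
  by_contra hodd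
  rw [Nat.not_even_iff_odd] at hodd
  have hw0 := h.mc.inst.wt
  have hF := h.mc.inst.fresh
  have hSy := hw0.sy_sd fr
  have hne : l ≠ [] := by
    rintro rfl
    simp at hodd
  have huv : u ∈ G.vs := hl.mem_vs_left hSy.sub hne
  obtain ⟨X, hX⟩ : ∃ X, X = G.vs.filter fun v => ∃ l, G.IsW (G.sd z fr) u l v := ⟨_, rfl⟩
  have hmX : ∀ v, v ∈ X ↔ v ∈ G.vs ∧ ∃ l, G.IsW (G.sd z fr) u l v := by
    intro v
    rw [hX]
    exact mem_filter
  have hufr : u ∉ fr := by
    cases l with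
    | nil => exact absurd rfl hne
    | cons d l =>
      obtain ⟨hd, hdp, -⟩ := hl
      rw [← hdp]
      exact (mem_sd.1 hd).2.2.1
  have hXfr : ∀ v ∈ X, v ∉ fr := by
    intro v hv
    obtain ⟨-, m, hm⟩ := (hmX v).1 hv
    have := hm.stay (X := (G.vs \ fr)) (fun d hd _ => by
      obtain ⟨d1, d2, d3, d4⟩ := mem_sd.1 hd
      exact mem_sdiff.2 ⟨G.pi_mem _ (G.al_mem d d1), d4⟩) (mem_sdiff.2 ⟨huv, hufr⟩)
    exact (mem_sdiff.1 this).2
  have huX : u ∈ X := (hmX u).2 ⟨huv, [], rfl⟩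
  obtain ⟨v0, hv0⟩ := h.mc.fr_ne
  have hXne : X ≠ G.vs := by
    intro he
    have : v0 ∈ X := by rw [he]; exact hF.fsub hv0
    exact hXfr v0 this hv0
  obtain ⟨d, hd, hzd⟩ := h.mc.conn (Z := X) (fun v hv => ((hmX v).1 hv).1) ⟨u, huX⟩ hXne
  obtain ⟨hdd, hdX, hdX'⟩ := mem_bd.1 hd
  have hdf : G.pi (G.al d) ∈ fr := by
    by_contra hnf
    obtain ⟨-, m, hm⟩ := (hmX _).1 hdX
    refine hdX' ((hmX _).2 ⟨G.pi_mem _ (G.al_mem d hdd), m ++ [d], hm.snoc ?_ rfl⟩)
    exact mem_sd.2 ⟨hdd, hzd, hXfr _ hdX, hnf⟩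
  obtain ⟨-, m, hm⟩ := (hmX _).1 hdX
  have haa := G.al_al d hdd
  have hwalk := ((hm.rev hSy).append hl).append hm
  refine h.killQ (j := G.al d) (G.al_mem d hdd) hdf (by rw [haa]; exact hXfr _ hdX)
    (q := G.pi d) (l := ((m.reverse.map G.al) ++ l) ++ m) (by rw [haa]; exact hwalk) ?_
    (Or.inr (by rw [haa]))
  rw [List.length_append, List.length_append, List.length_map, List.length_reverse]
  obtain ⟨k, hk⟩ := hodd
  exact ⟨m.length + k, by omega⟩

/-- two colours -/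
theorem N4.exists_col (h : G.N4 z t fr F jm sx ep m) :
    ∃ c : V → Bool, ∀ d ∈ G.sd z fr, c (G.pi (G.al d)) ≠ c (G.pi d) :=
  MG.exists_col (h.mc.inst.wt.sy_sd fr) fun _ _ hl => h.no_odd hl

/-- no even closed walk with a nonzero weight (normal form) -/
theorem N4.no_even (h : G.N4 z t fr F jm sx ep m) {u : V} {l : List D}
    (hl : G.IsW (G.sd z fr) u l u) (he : Even l.length) : ∀ d ∈ G.ds, G.wa l d = 0 := by
  have hw0 := h.mc.inst.wt
  have hb : ∀ v, wb l u u v = 0 := by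
    intro v
    unfold wb
    rw [he.neg_one_pow]
    ring
  refine h.nf (G.wa l) (wb l u u) (Dir.walk hw0 (Subset.refl _) (hw0.sy_sd fr) hl)
    (fun v _ _ => hb v) (fun v _ _ => hb v) ?_
  rw [sum_congr rfl fun v _ => hb v]
  simp

/-- no leg from a vertex without two tokens to an odd circuit -/
theorem N4.no_leg_odd (h : G.N4 z t fr F jm sx ep m) {C : Finset V} (hC : G.Circ fr F C)
    (ho : Odd C.card) {j : D} (hj : j ∈ G.ds) (hx : G.pi j ∈ C) (hw : G.pi (G.al j) ∉ fr) :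
    t (G.pi (G.al j)) = 2 := by
  by_contra ht2
  have hF := h.mc.inst.fresh
  obtain ⟨l, hl, hlo⟩ := Circ.walk_odd hF hC ho hx
  exact h.kill hC hj hx hw ht2 (hl.mono (circ_sub hF hC hj hw)) hlo (Or.inr (Or.inl rfl))
    (Or.inr (Or.inl rfl))

/-- legs of one component at one even circuit: parities -/
theorem N4.leg_par (h : G.N4 z t fr F jm sx ep m) {C : Finset V} (hC : G.Circ fr F C)
    {c : V → Bool} (hc : ∀ d ∈ F, G.pi d ∈ C → c (G.pi (G.al d)) ≠ c (G.pi d))
    {j j' : D} (hj : j ∈ G.ds) (hj' : j' ∈ G.ds) (hne : j ≠ j') (hx : G.pi j ∈ C)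
    (hx' : G.pi j' ∈ C) (hw : G.pi (G.al j) ∉ fr) (hw' : G.pi (G.al j') ∉ fr)
    (ht2 : t (G.pi (G.al j)) ≠ 2) {l : List D}
    (hl : G.IsW (G.sd z fr) (G.pi (G.al j)) l (G.pi (G.al j'))) :
    (Even l.length ↔ c (G.pi j) ≠ c (G.pi j')) := by
  have hw0 := h.mc.inst.wt
  have hF := h.mc.inst.fresh
  obtain ⟨m, hm⟩ := Circ.walk hF hC hx' hx
  have hmc := IsW.col (c := c) (fun d hd => hc d (mem_filter.1 hd).1 (mem_filter.1 hd).2) hm
  have haa' := G.al_al j' hj'
  have hjfr : G.pi j ∈ fr := hC.adm.sub hx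
  have hjfr' : G.pi j' ∈ fr := hC.adm.sub hx'
  have hsub : G.sd z fr ⊆ (G.sd z (fr \ C)).filter fun d => d ≠ j ∧ d ≠ G.al j := by
    intro d hd
    obtain ⟨d1, d2, d3, d4⟩ := mem_sd.1 hd
    refine mem_filter.2 ⟨mem_sd.2 ⟨d1, d2, fun hh => d3 (mem_sdiff.1 hh).1,
      fun hh => d4 (mem_sdiff.1 hh).1⟩, ?_, ?_⟩
    · rintro rfl
      exact d3 hjfr
    · rintro rfl
      rw [G.al_al j hj] at d4
      exact d4 hjfr
  have haj' : G.al j' ∈ (G.sd z (fr \ C)).filter fun d => d ≠ j ∧ d ≠ G.al j := by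
    refine mem_filter.2 ⟨mem_sd.2 ⟨G.al_mem j' hj', ?_, fun hh => hw' (mem_sdiff.1 hh).1,
      fun hh => ?_⟩, ?_, ?_⟩
    · rw [hw0.sym j' hj', hF.unit j' hj' hjfr']
      norm_num
    · rw [haa'] at hh
      exact (mem_sdiff.1 hh).2 hx'
    · intro he
      rw [he] at hw'
      exact hw' hjfr
    · intro he
      apply hne
      rw [← G.al_al j hj, ← he, haa']
  have hwalk : G.IsW ((G.sd z (fr \ C)).filter fun d => d ≠ j ∧ d ≠ G.al j)
      (G.pi (G.al j)) (l ++ [G.al j'] ++ m) (G.pi j) := by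
    refine IsW.append (IsW.snoc (hl.mono hsub) haj' ?_) (hm.mono (circ_sub hF hC hj hw))
    rw [haa']
  have hev : Even (l ++ [G.al j'] ++ m).length := by
    by_contra hodd
    rw [Nat.not_even_iff_odd] at hodd
    exact h.kill hC hj hx hw ht2 hwalk hodd (Or.inr (Or.inr rfl)) (Or.inr (Or.inl rfl))
  rw [List.length_append, List.length_append, List.length_singleton] at hev
  constructor
  · intro h1 h2
    have h3 := hmc.2 h2.symm
    rw [Nat.even_iff] at *
    omega
  · intro h1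
    have h3 : ¬ Even m.length := fun h4 => h1 (hmc.1 h4).symm
    rw [Nat.even_iff] at *
    omega

end MG

end RH
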