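import Pool.Agent.Lib.RH.Defs
import Pool.Agent.Lib.JK.Final

/-! From the rho theorem to the frozen statement S11409. -/

set_option autoImplicit false

namespace RH

open Finset Classical

/-- the multigraph of a cubic graph with tokens: the darts which are not tokens -/
noncomputable def MG.ofCG {V D : Type*} (G : JK.CG V D)
    (hl : ∀ d ∈ G.ds, G.al d ≠ d → G.pi (G.al d) ≠ G.pi d) : MG V D where
  vs := G.vs
  ds := G.ds.filter fun d => G.al d ≠ d
  pi := G.pi
  al := G.al
  pi_mem := fun d hd => G.pi_mem d (mem_filter.1 hd).1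
  al_mem := fun d hd => by
    obtain ⟨h1, h2⟩ := mem_filter.1 hd
    refine mem_filter.2 ⟨G.al_mem d h1, ?_⟩
    rw [G.al_al d h1]
    exact h2.symm
  al_al := fun d hd => G.al_al d (mem_filter.1 hd).1
  noloop := fun d hd => hl d (mem_filter.1 hd).1 (mem_filter.1 hd).2

/-- no loops in an instance (a vertex with a loop would be an odd set of degree 1) -/
theorem noloop_of_inst {V D : Type*} {G : JK.CG V D} {K : Finset V} {F : Finset D}
    (h : G.Inst K F) : ∀ d ∈ G.ds, G.al d ≠ d → G.pi (G.al d) ≠ G.pi d :=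
  fun _ hd ht => h.b0.no_loop hd ht

/-- The rho theorem implies the main theorem of the frame JK. Weights 1 on all edges, `t v` is the
number of tokens at `v`, `fr` is the set of the vertices which are not absorbed (`¬ G.Abs K F v`),
the F-edges are those of `F` at fresh vertices, `par = 1`, `ep = 0`. -/
theorem RhoThm.main (h : RhoThm) (V D : Type) (G : JK.CG V D) (K : Finset V) (F : Finset D)
    (hI : G.Inst K F) : ∃ M, G.Good K F M := by
  have hc := hI.cls
  obtain ⟨G', hG'⟩ : ∃ G', G' = MG.ofCG G (noloop_of_inst hI) := ⟨_, rfl⟩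
  have hvs : G'.vs = G.vs := by rw [hG']; rfl
  have hpi : G'.pi = G.pi := by rw [hG']; rfl
  have hal : G'.al = G.al := by rw [hG']; rfl
  have hds : ∀ d, d ∈ G'.ds ↔ d ∈ G.ds ∧ G.al d ≠ d := by
    intro d
    rw [hG']
    exact mem_filter
  have hbd : ∀ X, G'.bd X = G.bd X := by
    intro X
    ext d
    unfold MG.bd JK.CG.bd
    rw [mem_filter, mem_filter, hds, hpi, hal]
    constructor
    · rintro ⟨⟨h1, -⟩, h2⟩
      exact ⟨h1, h2⟩
    · rintro ⟨h1, h2, h3⟩
      refine ⟨⟨h1, fun h4 => ?_⟩, h2, h3⟩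
      rw [h4] at h3
      exact h3 h2
  obtain ⟨fr, hfr⟩ : ∃ fr, fr = G.vs.filter fun v => ¬ G.Abs K F v := ⟨_, rfl⟩
  obtain ⟨F', hF'⟩ : ∃ F', F' = F.filter fun d => ¬ G.Abs K F (G.pi d) := ⟨_, rfl⟩
  have hmf : ∀ v, v ∈ fr ↔ v ∈ G.vs ∧ ¬ G.Abs K F v := by
    intro v
    rw [hfr]
    exact mem_filter
  have hmF : ∀ d, d ∈ F' ↔ d ∈ F ∧ ¬ G.Abs K F (G.pi d) := by
    intro d
    rw [hF']
    exact mem_filter
  have hnK : ∀ v ∈ fr, v ∉ K := by
    intro v hv hK
    exact ((hmf v).1 hv).2 fun Z hZ hvZ => hZ.dis v hvZ hK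
  -- the admissible sets are the same
  have hadm : ∀ Z, G'.Adm fr F' Z ↔ G.Adm K F Z := by
    intro Z
    constructor
    · intro hZ
      refine ⟨fun v hv => ((hmf v).1 (hZ.sub hv)).1, fun v hv => hnK v (hZ.sub hv), ?_⟩
      intro d hd hdZ
      have h1 : d ∈ F' := (hmF d).2 ⟨hd, ((hmf _).1 (hZ.sub hdZ)).2⟩
      have h2 := hZ.clo d h1 (by rw [hpi]; exact hdZ)
      rw [hpi, hal] at h2
      exact h2
    · intro hZ
      refine ⟨fun v hv => (hmf v).2 ⟨hZ.sub hv, fun h1 => h1 Z hZ hv⟩, ?_⟩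
      intro d hd hdZ
      rw [hpi] at hdZ
      rw [hpi, hal]
      exact hZ.clo d ((hmF d).1 hd).1 hdZ
  have htv : ∀ X ⊆ G.vs, (G.tk X).card = ∑ v ∈ X, (G.tk {v}).card := by
    intro X hX
    have h1 := Finset.card_eq_sum_card_fiberwise (s := G.tk X) (t := X) (f := G.pi) (by
      intro d hd
      exact (G.mem_tk.1 (Finset.mem_coe.1 hd)).2.1)
    rw [h1]
    refine Finset.sum_congr rfl fun v hv => ?_
    congr 1
    ext d
    rw [mem_filter, G.mem_tk, G.mem_tk, mem_singleton]
    constructor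
    · rintro ⟨⟨h2, -, h3⟩, h4⟩
      exact ⟨h2, h4, h3⟩
    · rintro ⟨h2, h4, h3⟩
      exact ⟨⟨h2, by rw [h4]; exact hv, h3⟩, h4⟩
  have hInst : G'.Inst (fun _ => (1 : ℝ)) (fun v => ((G.tk {v}).card : ℝ)) fr F' (fun _ => 1)
      (fun _ => 0) := by
    refine ⟨by rw [hvs]; exact hI.even, ?_, ?_, ?_, ?_⟩
    · refine ⟨fun d _ => zero_le_one, fun v _ => Nat.cast_nonneg _, fun d _ => rfl, ?_, ?_⟩
      · intro v hv
        rw [hvs] at hv
        rw [Finset.sum_const, nsmul_eq_mul, mul_one]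
        have h3 := G.cubic v hv
        have h4 : (G.ds.filter fun d => G.pi d = v) = G'.st v ∪ G.tk {v} := by
          ext d
          unfold MG.st
          rw [mem_union, mem_filter, mem_filter, hds, hpi, G.mem_tk, mem_singleton]
          constructor
          · rintro ⟨h5, h6⟩
            by_cases h7 : G.al d = d
            · exact Or.inr ⟨h5, h6, h7⟩
            · exact Or.inl ⟨⟨h5, h7⟩, h6⟩
          · rintro (⟨⟨h5, -⟩, h6⟩ | ⟨h5, h6, -⟩)
            · exact ⟨h5, h6⟩
            · exact ⟨h5, h6⟩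
        have h5 : Disjoint (G'.st v) (G.tk {v}) := by
          rw [Finset.disjoint_left]
          intro d h6 h7
          unfold MG.st at h6
          rw [mem_filter, hds] at h6
          exact h6.1.2 (G.mem_tk.1 h7).2.2
        rw [h4, card_union_of_disjoint h5] at h3
        exact_mod_cast h3
      · intro X hX ho
        rw [hvs] at hX
        have h3 := hI.b0 X hX ho
        unfold MG.val
        rw [hbd, Finset.sum_const, nsmul_eq_mul, mul_one, ← Nat.cast_sum, ← htv X hX]
        unfold JK.CG.dg at h3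
        exact_mod_cast h3
    · rw [hvs, ← Nat.cast_sum, ← htv G.vs (Finset.Subset.refl _)]
      have h3 := hI.four
      have h4 : ((G.tk G.vs).card : ℝ) ≤ 4 := by exact_mod_cast h3
      linarith
    · refine ⟨?_, ?_, ?_, ?_, ?_, fun _ _ _ => rfl⟩
      · intro v hv
        rw [hvs]
        exact ((hmf v).1 hv).1
      · intro d hd
        have h3 := ((hmF d).1 hd).1
        exact (hds d).2 ⟨hc.Fsub h3, hc.Ftok d h3⟩
      · intro d hd
        obtain ⟨h3, h4⟩ := (hmF d).1 hd
        rw [hal]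
        refine (hmF _).2 ⟨hc.Fal d h3, fun h5 => h4 ?_⟩
        intro Z hZ hv
        exact h5 Z hZ (hZ.clo d h3 hv)
      · intro d hd
        obtain ⟨h3, h4⟩ := (hmF d).1 hd
        rw [hpi]
        exact (hmf _).2 ⟨G.pi_mem d (hc.Fsub h3), h4⟩
      · intro v hv
        obtain ⟨h3, h4⟩ := (hmf v).1 hv
        have hK := hnK v hv
        have h5 := G.cubic v h3
        have h6 := hc.F2 v h3 hK
        have h7 : (G.ds.filter fun d => G.pi d = v) =
            ((G'.st v).filter fun d => d ∉ F') ∪ (F.filter fun d => G.pi d = v) := by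
          ext d
          unfold MG.st
          rw [mem_union, mem_filter, mem_filter, mem_filter, mem_filter, hds, hpi]
          constructor
          · rintro ⟨h8, h9⟩
            by_cases h10 : d ∈ F
            · exact Or.inr ⟨h10, h9⟩
            · refine Or.inl ⟨⟨⟨h8, fun h11 => hK ?_⟩, h9⟩, fun h11 => h10 ((hmF d).1 h11).1⟩
              rw [← h9]
              exact hc.tokK d h8 h11
          · rintro (⟨⟨⟨h8, -⟩, h9⟩, -⟩ | ⟨h8, h9⟩)
            · exact ⟨h8, h9⟩
            · exact ⟨hc.Fsub h8, h9⟩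
        have h8 : Disjoint ((G'.st v).filter fun d => d ∉ F') (F.filter fun d => G.pi d = v) := by
          rw [Finset.disjoint_left]
          intro d h9 h10
          rw [mem_filter] at h9 h10
          exact h9.2 ((hmF d).2 ⟨h10.1, by rw [h10.2]; exact h4⟩)
        rw [h7, card_union_of_disjoint h8, h6] at h5
        omega
    · intro X hX ho
      rw [hadm] at hX
      rw [Finset.sum_const, smul_eq_mul, mul_one] at ho
      rw [hbd]
      have h3 := hI.cc X hX ho
      omega
  obtain ⟨M, hM⟩ := h V D G' _ _ fr F' _ _ hInst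
  refine ⟨M, ⟨?_, ?_, ?_, ?_⟩, ?_⟩
  · exact fun d hd => ((hds d).1 (hM.pm.sub hd)).1
  · intro d hd
    have h3 := hM.pm.closed d hd
    rwa [hal] at h3
  · exact fun d hd => ((hds d).1 (hM.pm.sub hd)).2
  · intro v hv
    have h3 := hM.pm.one v (by rw [hvs]; exact hv)
    rwa [hpi] at h3
  · intro Z hZ ho
    have h3 := hM.hit Z ((hadm Z).2 hZ) (by
      rw [Finset.sum_const, smul_eq_mul, mul_one]
      exact ho)
    rwa [hbd] at h3

/-- the frozen statement -/
theorem RhoThm.final (h : RhoThm) :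
    ∀ (V : Type) [Fintype V] (G : SimpleGraph V),
      (∀ v : V, (G.neighborSet v).ncard = 3) →
      (∀ v w : V, G.Adj v w → (G.deleteEdges {s(v, w)}).Reachable v w) →
      ∃ F₁ F₂ C : SimpleGraph V,
        F₁ ≤ G ∧ F₂ ≤ G ∧ C ≤ G ∧
        (∀ v : V, (F₁.neighborSet v).ncard = 2) ∧
        (∀ v : V, (F₂.neighborSet v).ncard = 2) ∧
        (∀ v : V, Even ((C.neighborSet v).ncard)) ∧
        F₁ ⊔ F₂ ⊔ C = G :=
  JK.final fun V D G K F hI => h.main V D G K F hI

end RH
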