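import Pool.Agent.Lib.RH.SDefs
import Pool.Agent.Lib.RH.Top
import Pool.Agent.Lib.R5.KTop

/-! From the rho theorem with star to the frozen statement S11409.

`RhoSThm m`: even unions of fresh classes have at least `m` ports. For `m = 0` the top is that of the
frame JK. For `m ≤ 6` the start is a clean perfect matching `J` (KS_e, module R5/KClean) of a
3-edge-connected cubic graph, and 2-cuts are glued by R5/KTwo. To prescribe a dart `e` at `v` the two
other edges at `v` are cut open (4 tokens); this works for F-edges and for J-edges. -/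

set_option autoImplicit false

namespace RH

open Finset Classical

/-- the rho theorem with star, even unions at least `m` -/
def RhoSThm (m : ℕ) : Prop :=
  ∀ (V D : Type) (G : MG V D) (z : D → ℝ) (t : V → ℝ) (fr : Finset V) (F : Finset D)
    (jm sx : Finset V) (ep : V → ℕ), G.InstS z t fr F jm sx ep m → ∃ M, G.GoodS z fr F sx M

/-- The rho theorem with star implies the main theorem of the frame JK (for instances in which even
unions have at least `m` ports). -/
theorem RhoSThm.main {m : ℕ} (h : RhoSThm m) (V D : Type) (G : JK.CG V D) (K : Finset V)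
    (F : Finset D) (hI : G.Inst K F)
    (hev : ∀ X, G.Adm K F X → Even X.card → X.Nonempty → m ≤ (G.bd X).card) :
    ∃ M, G.Good K F M := by
  have hc := hI.cls
  obtain ⟨G', hG'⟩ : ∃ G', G' = MG.ofCG G (noloop_of_inst hI) := ⟨_, rfl⟩
  have hvs : G'.vs = G.vs := by rw [hG']; rfl
  have hpi : G'.pi = G.pi := by rw [hG']; rfl
  have hal : G'.al = G.al := by rw [hG']; rfl
  have hds : ∀ d, d ∈ G'.ds ↔ d ∈ G.ds ∧ G.al d ≠ d := by
    intro d
    rw [hG']
    exact mem_filter
  have hbd : ∀ X, G'.bd X = G.bd X := by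
    intro X
    ext d
    unfold MG.bd JK.CG.bd
    rw [mem_filter, mem_filter, hds, hpi, hal]
    constructor
    · rintro ⟨⟨h1, -⟩, h2⟩
      exact ⟨h1, h2⟩
    · rintro ⟨h1, h2, h3⟩
      refine ⟨⟨h1, fun h4 => ?_⟩, h2, h3⟩
      rw [h4] at h3
      exact h3 h2
  obtain ⟨fr, hfr⟩ : ∃ fr, fr = G.vs.filter fun v => ¬ G.Abs K F v := ⟨_, rfl⟩
  obtain ⟨F', hF'⟩ : ∃ F', F' = F.filter fun d => ¬ G.Abs K F (G.pi d) := ⟨_, rfl⟩
  have hmf : ∀ v, v ∈ fr ↔ v ∈ G.vs ∧ ¬ G.Abs K F v := by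
    intro v
    rw [hfr]
    exact mem_filter
  have hmF : ∀ d, d ∈ F' ↔ d ∈ F ∧ ¬ G.Abs K F (G.pi d) := by
    intro d
    rw [hF']
    exact mem_filter
  have hnK : ∀ v ∈ fr, v ∉ K := by
    intro v hv hK
    exact ((hmf v).1 hv).2 fun Z hZ hvZ => hZ.dis v hvZ hK
  -- the admissible sets are the same
  have hadm : ∀ Z, G'.Adm fr F' Z ↔ G.Adm K F Z := by
    intro Z
    constructor
    · intro hZ
      refine ⟨fun v hv => ((hmf v).1 (hZ.sub hv)).1, fun v hv => hnK v (hZ.sub hv), ?_⟩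
      intro d hd hdZ
      have h1 : d ∈ F' := (hmF d).2 ⟨hd, ((hmf _).1 (hZ.sub hdZ)).2⟩
      have h2 := hZ.clo d h1 (by rw [hpi]; exact hdZ)
      rw [hpi, hal] at h2
      exact h2
    · intro hZ
      refine ⟨fun v hv => (hmf v).2 ⟨hZ.sub hv, fun h1 => h1 Z hZ hv⟩, ?_⟩
      intro d hd hdZ
      rw [hpi] at hdZ
      rw [hpi, hal]
      exact hZ.clo d ((hmF d).1 hd).1 hdZ
  have htv : ∀ X ⊆ G.vs, (G.tk X).card = ∑ v ∈ X, (G.tk {v}).card := by
    intro X hX
    have h1 := Finset.card_eq_sum_card_fiberwise (s := G.tk X) (t := X) (f := G.pi) (by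
      intro d hd
      exact (G.mem_tk.1 (Finset.mem_coe.1 hd)).2.1)
    rw [h1]
    refine Finset.sum_congr rfl fun v hv => ?_
    congr 1
    ext d
    rw [mem_filter, G.mem_tk, G.mem_tk, mem_singleton]
    constructor
    · rintro ⟨⟨h2, -, h3⟩, h4⟩
      exact ⟨h2, h4, h3⟩
    · rintro ⟨h2, h4, h3⟩
      exact ⟨⟨h2, by rw [h4]; exact hv, h3⟩, h4⟩
  have hInst : G'.InstS (fun _ => (1 : ℝ)) (fun v => ((G.tk {v}).card : ℝ)) fr F' ∅ ∅
      (fun _ => 0) m := by
    refine ⟨by rw [hvs]; exact hI.even, ?_, ?_, ?_, ?_, ?_, empty_subset _, Or.inl rfl,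
      Or.inl rfl, fun h1 => absurd h1 not_nonempty_empty,
      fun _ _ _ h1 => absurd h1 not_nonempty_empty, fun _ _ => Nat.zero_le _⟩
    · refine ⟨fun d _ => zero_le_one, fun v _ => Nat.cast_nonneg _, fun d _ => rfl, ?_, ?_⟩
      · intro v hv
        rw [hvs] at hv
        rw [Finset.sum_const, nsmul_eq_mul, mul_one]
        have h3 := G.cubic v hv
        have h4 : (G.ds.filter fun d => G.pi d = v) = G'.st v ∪ G.tk {v} := by
          ext d
          unfold MG.st
          rw [mem_union, mem_filter, mem_filter, hds, hpi, G.mem_tk, mem_singleton]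
          constructor
          · rintro ⟨h5, h6⟩
            by_cases h7 : G.al d = d
            · exact Or.inr ⟨h5, h6, h7⟩
            · exact Or.inl ⟨⟨h5, h7⟩, h6⟩
          · rintro (⟨⟨h5, -⟩, h6⟩ | ⟨h5, h6, -⟩)
            · exact ⟨h5, h6⟩
            · exact ⟨h5, h6⟩
        have h5 : Disjoint (G'.st v) (G.tk {v}) := by
          rw [Finset.disjoint_left]
          intro d h6 h7
          unfold MG.st at h6
          rw [mem_filter, hds] at h6
          exact h6.1.2 (G.mem_tk.1 h7).2.2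
        rw [h4, card_union_of_disjoint h5] at h3
        exact_mod_cast h3
      · intro X hX ho
        rw [hvs] at hX
        have h3 := hI.b0 X hX ho
        unfold MG.val
        rw [hbd, Finset.sum_const, nsmul_eq_mul, mul_one, ← Nat.cast_sum, ← htv X hX]
        unfold JK.CG.dg at h3
        exact_mod_cast h3
    · rw [hvs, ← Nat.cast_sum, ← htv G.vs (Finset.Subset.refl _)]
      have h3 := hI.four
      have h4 : ((G.tk G.vs).card : ℝ) ≤ 4 := by exact_mod_cast h3
      linarith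
    · refine ⟨?_, ?_, ?_, ?_, ?_, empty_subset _, ?_, fun v hv => absurd hv (notMem_empty v),
        fun _ _ _ => rfl⟩
      · intro v hv
        rw [hvs]
        exact ((hmf v).1 hv).1
      · intro d hd
        have h3 := ((hmF d).1 hd).1
        exact (hds d).2 ⟨hc.Fsub h3, hc.Ftok d h3⟩
      · intro d hd
        obtain ⟨h3, h4⟩ := (hmF d).1 hd
        rw [hal]
        refine (hmF _).2 ⟨hc.Fal d h3, fun h5 => h4 ?_⟩
        intro Z hZ hv
        exact h5 Z hZ (hZ.clo d h3 hv)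
      · intro d hd
        obtain ⟨h3, h4⟩ := (hmF d).1 hd
        rw [hpi]
        exact (hmf _).2 ⟨G.pi_mem d (hc.Fsub h3), h4⟩
      · intro v hv
        obtain ⟨h3, h4⟩ := (hmf v).1 hv
        rw [← hc.F2 v h3 (hnK v hv)]
        congr 1
        ext d
        rw [mem_filter, mem_filter, hmF, hpi]
        constructor
        · rintro ⟨⟨h5, -⟩, h6⟩
          exact ⟨h5, h6⟩
        · rintro ⟨h5, h6⟩
          exact ⟨⟨h5, by rw [h6]; exact h4⟩, h6⟩
      · intro v hv _
        obtain ⟨h3, h4⟩ := (hmf v).1 hv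
        have hK := hnK v hv
        have h5 := G.cubic v h3
        have h6 := hc.F2 v h3 hK
        have h7 : (G.ds.filter fun d => G.pi d = v) =
            ((G'.st v).filter fun d => d ∉ F') ∪ (F.filter fun d => G.pi d = v) := by
          ext d
          unfold MG.st
          rw [mem_union, mem_filter, mem_filter, mem_filter, mem_filter, hds, hpi]
          constructor
          · rintro ⟨h8, h9⟩
            by_cases h10 : d ∈ F
            · exact Or.inr ⟨h10, h9⟩
            · refine Or.inl ⟨⟨⟨h8, fun h11 => hK ?_⟩, h9⟩, fun h11 => h10 ((hmF d).1 h11).1⟩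
              rw [← h9]
              exact hc.tokK d h8 h11
          · rintro (⟨⟨⟨h8, -⟩, h9⟩, -⟩ | ⟨h8, h9⟩)
            · exact ⟨h8, h9⟩
            · exact ⟨hc.Fsub h8, h9⟩
        have h8 : Disjoint ((G'.st v).filter fun d => d ∉ F') (F.filter fun d => G.pi d = v) := by
          rw [Finset.disjoint_left]
          intro d h9 h10
          rw [mem_filter] at h9 h10
          exact h9.2 ((hmF d).2 ⟨h10.1, by rw [h10.2]; exact h4⟩)
        rw [h7, card_union_of_disjoint h8, h6] at h5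
        omega
    · intro X hX ho
      rw [hadm] at hX
      rw [hbd]
      have h3 := hI.cc X hX ho
      omega
    · intro X hX he hn
      rw [hadm] at hX
      rw [hbd]
      have h3 := hev X hX he hn
      omega
  obtain ⟨M, hM⟩ := h V D G' _ _ fr F' _ _ _ hInst
  refine ⟨M, ⟨?_, ?_, ?_, ?_⟩, ?_⟩
  · exact fun d hd => ((hds d).1 (hM.pm.sub hd)).1
  · intro d hd
    have h3 := hM.pm.closed d hd
    rwa [hal] at h3
  · exact fun d hd => ((hds d).1 (hM.pm.sub hd)).2
  · intro v hv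
    have h3 := hM.pm.one v (by rw [hvs]; exact hv)
    rwa [hpi] at h3
  · intro Z hZ ho
    have h3 := hM.hit Z ((hadm Z).2 hZ) (Or.inl ho)
    rwa [hbd] at h3

/-- the frozen statement from the rho theorem with star, no condition on even unions -/
theorem RhoSThm.final0 (h : RhoSThm 0) :
    ∀ (V : Type) [Fintype V] (G : SimpleGraph V),
      (∀ v : V, (G.neighborSet v).ncard = 3) →
      (∀ v w : V, G.Adj v w → (G.deleteEdges {s(v, w)}).Reachable v w) →
      ∃ F₁ F₂ C : SimpleGraph V,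
        F₁ ≤ G ∧ F₂ ≤ G ∧ C ≤ G ∧
        (∀ v : V, (F₁.neighborSet v).ncard = 2) ∧
        (∀ v : V, (F₂.neighborSet v).ncard = 2) ∧
        (∀ v : V, Even ((C.neighborSet v).ncard)) ∧
        F₁ ⊔ F₂ ⊔ C = G :=
  JK.final fun V D G K F hI => h.main V D G K F hI fun _ _ _ _ => Nat.zero_le _

/-- the edges with darts in `C` are cut open: each of their darts becomes a token -/
noncomputable def opn {V D : Type*} (G : JK.CG V D) (C : Finset D)
    (hC : ∀ d ∈ G.ds, G.al d ∈ C → d ∈ C) : JK.CG V D where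
  vs := G.vs
  ds := G.ds
  pi := G.pi
  al := fun d => if d ∈ C then d else G.al d
  pi_mem := G.pi_mem
  al_mem := fun d hd => by
    by_cases h : d ∈ C
    · simp only [h, if_true]
      exact hd
    · simp only [h, if_false]
      exact G.al_mem d hd
  al_al := fun d hd => by
    by_cases h : d ∈ C
    · simp only [h, if_true]
    · have h1 : G.al d ∉ C := fun h2 => h (hC d hd h2)
      simp only [h, h1, if_false]
      exact G.al_al d hd
  cubic := G.cubic

private lemma opn_in {V D : Type*} {G : JK.CG V D} {C : Finset D}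
    {hC : ∀ d ∈ G.ds, G.al d ∈ C → d ∈ C} {d : D} (h : d ∈ C) : (opn G C hC).al d = d := by
  show (if d ∈ C then d else G.al d) = d
  rw [if_pos h]

private lemma opn_out {V D : Type*} {G : JK.CG V D} {C : Finset D}
    {hC : ∀ d ∈ G.ds, G.al d ∈ C → d ∈ C} {d : D} (h : d ∉ C) :
    (opn G C hC).al d = G.al d := by
  show (if d ∈ C then d else G.al d) = G.al d
  rw [if_neg h]

private lemma opn_bd {V D : Type*} {G : JK.CG V D} {C : Finset D}
    {hC : ∀ d ∈ G.ds, G.al d ∈ C → d ∈ C} (X : Finset V) :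
    (opn G C hC).bd X = G.bd X \ C := by
  ext d
  rw [(opn G C hC).mem_bd, mem_sdiff, G.mem_bd]
  show (d ∈ G.ds ∧ G.pi d ∈ X ∧ G.pi ((opn G C hC).al d) ∉ X) ↔ _
  by_cases h : d ∈ C
  · rw [opn_in h]
    constructor
    · rintro ⟨-, h1, h2⟩
      exact absurd h1 h2
    · rintro ⟨-, h1⟩
      exact absurd h h1
  · rw [opn_out h]
    exact ⟨fun h1 => ⟨h1, h⟩, fun h1 => h1.1⟩

private lemma tec_notok {V D : Type*} {G : JK.CG V D} (hT : R5.K.TEC G) :
    ∀ d ∈ G.ds, G.al d ≠ d := by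
  intro d hd h
  have h1 : d ∈ G.tk G.vs := G.mem_tk.2 ⟨hd, G.pi_mem d hd, h⟩
  rw [hT.tok] at h1
  exact notMem_empty _ h1

private lemma tec_dg {V D : Type*} {G : JK.CG V D} (hT : R5.K.TEC G) {X : Finset V} :
    G.dg X = (G.bd X).card := by
  have h1 : G.tk X = ∅ := by
    rw [eq_empty_iff_forall_notMem]
    intro d hd
    obtain ⟨h1, -, h3⟩ := G.mem_tk.1 hd
    exact tec_notok hT d h1 h3
  unfold JK.CG.dg
  rw [h1]
  simp

/-- `N` through a prescribed dart `e`, `J` clean: the pair contains no odd cut -/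
theorem RhoSThm.pair {m : ℕ} (h : RhoSThm m) (hm : m ≤ 6) {V D : Type} {G : JK.CG V D}
    (hT : R5.K.TEC G) {J : Finset D} (hJ : R5.K.Clean G J) {e : D} (he : e ∈ G.ds) :
    ∃ N, R5.K.Pair G J N ∧ e ∈ N := by
  have hnt := tec_notok hT
  have hnl : ∀ d ∈ G.ds, G.pi (G.al d) ≠ G.pi d := fun d hd => hT.b0.no_loop hd (hnt d hd)
  -- the two other edges at `pi e` are cut open
  obtain ⟨C, hCdef⟩ : ∃ C, C = G.ds.filter fun d =>
      (G.pi d = G.pi e ∧ d ≠ e) ∨ (G.pi (G.al d) = G.pi e ∧ G.al d ≠ e) := ⟨_, rfl⟩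
  have hmC : ∀ d, d ∈ C ↔ d ∈ G.ds ∧
      ((G.pi d = G.pi e ∧ d ≠ e) ∨ (G.pi (G.al d) = G.pi e ∧ G.al d ≠ e)) := by
    intro d
    rw [hCdef]
    exact mem_filter
  have hCal : ∀ d ∈ C, G.al d ∈ C := by
    intro d hd
    obtain ⟨h1, h2⟩ := (hmC d).1 hd
    refine (hmC _).2 ⟨G.al_mem d h1, ?_⟩
    rw [G.al_al d h1]
    exact h2.symm
  have hC : ∀ d ∈ G.ds, G.al d ∈ C → d ∈ C := by
    intro d hd h1
    have h2 := hCal _ h1
    rwa [G.al_al d hd] at h2
  have heC : e ∉ C := by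
    intro h1
    rcases ((hmC e).1 h1).2 with h2 | h2
    · exact h2.2 rfl
    · exact hnl e he h2.1
  have hCe : ∀ d ∈ G.ds, G.pi d = G.pi e → d ∉ C → d = e := by
    intro d hd h1 h2
    by_contra h3
    exact h2 ((hmC d).2 ⟨hd, Or.inl ⟨h1, h3⟩⟩)
  have hCcard : C.card ≤ 4 := by
    have h1 : C ⊆ ((G.ds.filter fun d => G.pi d = G.pi e).erase e) ∪
        ((G.ds.filter fun d => G.pi d = G.pi e).erase e).image G.al := by
      intro d hd
      obtain ⟨h2, h3⟩ := (hmC d).1 hd
      rcases h3 with ⟨h3, h4⟩ | ⟨h3, h4⟩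
      · exact mem_union_left _ (mem_erase.2 ⟨h4, mem_filter.2 ⟨h2, h3⟩⟩)
      · exact mem_union_right _ (mem_image.2 ⟨G.al d,
          mem_erase.2 ⟨h4, mem_filter.2 ⟨G.al_mem d h2, h3⟩⟩, G.al_al d h2⟩)
    have h2 : ((G.ds.filter fun d => G.pi d = G.pi e).erase e).card = 2 := by
      have h6 : e ∈ G.ds.filter fun d => G.pi d = G.pi e := mem_filter.2 ⟨he, rfl⟩
      rw [card_erase_of_mem h6, G.cubic _ (G.pi_mem e he)]
    have h3 := card_le_card h1
    have h4 := card_union_le ((G.ds.filter fun d => G.pi d = G.pi e).erase e)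
      (((G.ds.filter fun d => G.pi d = G.pi e).erase e).image G.al)
    have h5 := card_image_le (s := (G.ds.filter fun d => G.pi d = G.pi e).erase e) (f := G.al)
    omega
  have htkC : ∀ X, (opn G C hC).tk X = C.filter fun d => G.pi d ∈ X := by
    intro X
    ext d
    rw [(opn G C hC).mem_tk, mem_filter]
    show (d ∈ G.ds ∧ G.pi d ∈ X ∧ (opn G C hC).al d = d) ↔ _
    constructor
    · rintro ⟨h1, h2, h3⟩
      refine ⟨?_, h2⟩
      by_contra h4
      rw [opn_out h4] at h3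
      exact hnt d h1 h3
    · rintro ⟨h1, h2⟩
      exact ⟨((hmC d).1 h1).1, h2, opn_in h1⟩
  obtain ⟨K, hK⟩ : ∃ K, K = insert (G.pi e) (C.image G.pi) := ⟨_, rfl⟩
  have heK : G.pi e ∈ K := by
    rw [hK]
    exact mem_insert_self _ _
  have hCK : ∀ d ∈ C, G.pi d ∈ K := by
    intro d hd
    rw [hK]
    exact mem_insert_of_mem (mem_image_of_mem _ hd)
  -- admissible sets
  have hadm : ∀ Z, (opn G C hC).Adm K ((G.ds \ J) \ C) Z →
      Z ⊆ G.vs ∧ Z ≠ G.vs ∧ (∀ d ∈ G.bd Z, d ∈ J) ∧ (opn G C hC).bd Z = G.bd Z := by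
    intro Z hZ
    have h0 : Z ⊆ G.vs := hZ.sub
    have h1 : ∀ d, G.pi d ∈ Z → d ∉ C := fun d hd hd' => hZ.dis _ hd (hCK d hd')
    refine ⟨h0, ?_, ?_, ?_⟩
    · intro h2
      exact hZ.dis (G.pi e) (by rw [h2]; exact G.pi_mem e he) heK
    · intro d hd
      obtain ⟨h2, h3, h4⟩ := (G.mem_bd).1 hd
      by_contra h5
      have h6 := hZ.clo d (mem_sdiff.2 ⟨mem_sdiff.2 ⟨h2, h5⟩, h1 d h3⟩) h3
      rw [opn_out (h1 d h3)] at h6
      exact h4 h6
    · rw [opn_bd]
      rw [Finset.sdiff_eq_self_iff_disjoint, disjoint_left]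
      intro d hd
      exact h1 d ((G.mem_bd).1 hd).2.1
  have hInst : (opn G C hC).Inst K ((G.ds \ J) \ C) := by
    refine ⟨hT.evenvs, ?_, ?_, ?_, ?_⟩
    · rw [htkC]
      exact (card_filter_le _ _).trans hCcard
    · intro X hX ho
      have h1 : 3 ≤ (G.bd X).card := by
        rw [← tec_dg hT]
        exact hT.b0 X hX ho
      have h2 : (G.bd X ∩ C).card ≤ (C.filter fun d => G.pi d ∈ X).card := by
        refine card_le_card fun d hd => ?_
        obtain ⟨h3, h4⟩ := mem_inter.1 hd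
        exact mem_filter.2 ⟨h4, ((G.mem_bd).1 h3).2.1⟩
      have h3 := card_sdiff_add_card_inter (G.bd X) C
      unfold JK.CG.dg
      rw [opn_bd, htkC]
      omega
    · refine ⟨?_, ?_, ?_, ?_, ?_, ?_⟩
      · intro v hv
        rw [hK, mem_insert, mem_image] at hv
        rcases hv with rfl | ⟨d, hd, rfl⟩
        · exact G.pi_mem e he
        · exact G.pi_mem d ((hmC d).1 hd).1
      · exact sdiff_subset.trans sdiff_subset
      · intro d hd
        obtain ⟨h1, h2⟩ := mem_sdiff.1 hd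
        obtain ⟨h3, h4⟩ := mem_sdiff.1 h1
        rw [opn_out h2]
        refine mem_sdiff.2 ⟨mem_sdiff.2 ⟨G.al_mem d h3, fun h5 => h4 ?_⟩, fun h5 => h2 (hC d h3 h5)⟩
        have h6 := hJ.pm.closed _ h5
        rwa [G.al_al d h3] at h6
      · intro d hd
        obtain ⟨h1, h2⟩ := mem_sdiff.1 hd
        rw [opn_out h2]
        exact hnt d (mem_sdiff.1 h1).1
      · intro v hv hvK
        have h1 : (((G.ds \ J) \ C).filter fun d => (opn G C hC).pi d = v) =
            (G.ds.filter fun d => G.pi d = v) \ (J.filter fun d => G.pi d = v) := by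
          ext d
          rw [mem_filter, mem_sdiff, mem_sdiff, mem_sdiff, mem_filter, mem_filter]
          constructor
          · rintro ⟨⟨⟨h2, h3⟩, -⟩, h5⟩
            exact ⟨⟨h2, h5⟩, fun h6 => h3 h6.1⟩
          · rintro ⟨⟨h2, h3⟩, h4⟩
            refine ⟨⟨⟨h2, fun h5 => h4 ⟨h5, h3⟩⟩, fun h5 => hvK ?_⟩, h3⟩
            rw [← h3]
            exact hCK d h5
        rw [h1, card_sdiff_of_subset (filter_subset_filter _ hJ.pm.sub), G.cubic v hv,
          hJ.pm.one v hv]
      · intro d hd h1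
        by_cases h2 : d ∈ C
        · exact hCK d h2
        · rw [opn_out h2] at h1
          exact absurd h1 (hnt d hd)
    · intro Z hZ ho
      obtain ⟨h1, h2, h3, h4⟩ := hadm Z hZ
      rw [h4]
      have h5 : 3 ≤ (G.bd Z).card := by
        rw [← tec_dg hT]
        exact hT.b0 Z h1 ho
      have h6 : Odd (G.bd Z).card := by
        rw [← tec_dg hT]
        exact (G.dg_parity h1).2 ho
      have h7 : (G.bd Z).card ≠ 3 := by
        intro h8
        have h9 := hJ.three Z h1 ho h8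
        rw [filter_true_of_mem h3, h8] at h9
        omega
      obtain ⟨k, hk⟩ := h6
      omega
  have hev : ∀ Z, (opn G C hC).Adm K ((G.ds \ J) \ C) Z → Even Z.card → Z.Nonempty →
      m ≤ ((opn G C hC).bd Z).card := by
    intro Z hZ he' hn
    obtain ⟨h1, h2, h3, h4⟩ := hadm Z hZ
    rw [h4]
    have h5 := hT.evn Z h1 he' hn h2
    have h6 : ¬ Odd (G.bd Z).card := by
      rw [← tec_dg hT]
      intro h7
      exact (Nat.not_odd_iff_even.2 he') ((G.dg_parity h1).1 h7)
    have h7 : (G.bd Z).card ≠ 4 := by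
      intro h8
      obtain ⟨d, h9, h10⟩ := hJ.four Z h1 he' h8
      exact h10 (h3 d h9)
    rw [Nat.not_odd_iff_even] at h6
    obtain ⟨k, hk⟩ := h6
    omega
  obtain ⟨N, hN⟩ := h.main V D (opn G C hC) K ((G.ds \ J) \ C) hInst hev
  have hNC : ∀ d ∈ N, d ∉ C := fun d hd h1 => hN.pm.notok d hd (opn_in h1)
  have hpm : G.IsPM N := by
    refine ⟨hN.pm.sub, ?_, fun d hd => hnt d (hN.pm.sub hd), hN.pm.one⟩
    intro d hd
    have h1 := hN.pm.closed d hd
    rwa [opn_out (hNC d hd)] at h1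
  have heN : ∀ d ∈ N, G.pi d = G.pi e → d = e := fun d hd h1 =>
    hCe d (hN.pm.sub hd) h1 (hNC d hd)
  refine ⟨N, ⟨hJ.pm, hpm, ?_⟩, ?_⟩
  · -- no odd cut
    have key : ∀ Z ⊆ G.vs, Odd Z.card → G.pi e ∉ Z → ¬ ∀ d ∈ G.bd Z, d ∈ J ∧ d ∈ N := by
      intro Z hZ ho heZ hall
      have hA : (opn G C hC).Adm K ((G.ds \ J) \ C) Z := by
        refine ⟨hZ, ?_, ?_⟩
        · intro v hv hvK
          rw [hK, mem_insert, mem_image] at hvK
          rcases hvK with rfl | ⟨d, hd, rfl⟩
          · exact heZ hv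
          · obtain ⟨h1, h2⟩ := (hmC d).1 hd
            rcases h2 with h2 | h2
            · rw [h2.1] at hv
              exact heZ hv
            · have h3 : d ∈ G.bd Z := (G.mem_bd).2 ⟨h1, hv, by rw [h2.1]; exact heZ⟩
              exact h2.2 (heN _ (hpm.closed d (hall d h3).2) h2.1)
        · intro d hd hv
          obtain ⟨h1, h2⟩ := mem_sdiff.1 hd
          obtain ⟨h3, h4⟩ := mem_sdiff.1 h1
          rw [opn_out h2]
          by_contra h5
          exact h4 (hall d ((G.mem_bd).2 ⟨h3, hv, h5⟩)).1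
      obtain ⟨d, hd, hdN⟩ := hN.hit Z hA ho
      rw [opn_bd] at hd
      exact hdN (hall d (mem_sdiff.1 hd).1).2
    intro Z hZ ho
    by_contra hcon
    push Not at hcon
    by_cases heZ : G.pi e ∈ Z
    · refine key (G.vs \ Z) sdiff_subset ?_ (fun h1 => (mem_sdiff.1 h1).2 heZ) ?_
      · have h1 : (G.vs \ Z).card + Z.card = G.vs.card := card_sdiff_add_card_eq_card hZ
        obtain ⟨a, ha⟩ := ho
        obtain ⟨b, hb⟩ := hT.evenvs
        rw [Nat.odd_iff]
        omega
      · intro d hd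
        obtain ⟨h1, h2, h3⟩ := (G.mem_bd).1 hd
        have h4 : G.al d ∈ G.bd Z := by
          refine (G.mem_bd).2 ⟨G.al_mem d h1, ?_, ?_⟩
          · by_contra h5
            exact h3 (mem_sdiff.2 ⟨G.pi_mem _ (G.al_mem d h1), h5⟩)
          · rw [G.al_al d h1]
            exact (mem_sdiff.1 h2).2
        obtain ⟨h5, h6⟩ := hcon _ h4
        have h7 := hJ.pm.closed _ h5
        have h8 := hpm.closed _ h6
        rw [G.al_al d h1] at h7 h8
        exact ⟨h7, h8⟩
    · exact key Z hZ ho heZ hcon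
  · obtain ⟨d, hd⟩ := card_eq_one.1 (hpm.one _ (G.pi_mem e he))
    have h1 : d ∈ N.filter fun d => G.pi d = G.pi e := by rw [hd]; exact mem_singleton_self d
    obtain ⟨h2, h3⟩ := mem_filter.1 h1
    rw [← heN d h2 h3]
    exact h2

/-- another dart at the same vertex -/
private lemma tec_other {V D : Type*} (G : JK.CG V D) {h : D} (hh : h ∈ G.ds) :
    ∃ h' ∈ G.ds, h' ≠ h ∧ G.pi h' = G.pi h := by
  have h1 := G.cubic (G.pi h) (G.pi_mem h hh)
  have h2 : 1 < (G.ds.filter fun d => G.pi d = G.pi h).card := by omega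
  obtain ⟨h', h3, h4⟩ := Finset.exists_mem_ne h2 h
  obtain ⟨h5, h6⟩ := mem_filter.1 h3
  exact ⟨h', h5, h4, h6⟩

/-- two darts of a perfect matching at the same vertex are equal -/
private lemma tec_uniq {V D : Type*} {G : JK.CG V D} {M : Finset D} (hM : G.IsPM M) {d e : D}
    (hd : d ∈ M) (he : e ∈ M) (h : G.pi d = G.pi e) : d = e := by
  have h1 := hM.one (G.pi e) (G.pi_mem e (hM.sub he))
  exact Finset.card_le_one.1 h1.le d (mem_filter.2 ⟨hd, h⟩) e (mem_filter.2 ⟨he, rfl⟩)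

/-- pairs with a prescribed state of one edge, for 3-edge-connected cubic graphs -/
theorem RhoSThm.p4 {m : ℕ} (h : RhoSThm m) (hm : m ≤ 6) {V D : Type} {G : JK.CG V D}
    (hT : R5.K.TEC G) : R5.K.P4 G := by
  have key : ∀ g ∈ G.ds, ∀ c : Prop, ∃ g' ∈ G.ds, ∀ M, G.IsPM M → g' ∈ M → (g ∈ M ↔ c) := by
    intro g hg c
    by_cases hc : c
    · exact ⟨g, hg, fun M _ h1 => ⟨fun _ => hc, fun _ => h1⟩⟩
    · obtain ⟨g', h1, h2, h3⟩ := tec_other G hg
      refine ⟨g', h1, fun M hM h4 => ⟨fun h5 => ?_, fun h5 => absurd h5 hc⟩⟩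
      exact absurd (tec_uniq hM h4 h5 h3) h2
  intro x hx a b
  obtain ⟨g1, h1, h2⟩ := key x hx a
  obtain ⟨g2, h3, h4⟩ := key x hx b
  obtain ⟨J, hJ, h5⟩ := R5.K.exists_clean G hT g1 h1
  obtain ⟨N, hN, h6⟩ := h.pair hm hT hJ h3
  exact ⟨J, N, hN, h2 J hJ.pm h5, h4 N hN.n h6⟩

private lemma top_two {m : ℕ} (h : RhoSThm m) (hm : m ≤ 6) {V : Type} [Fintype V]
    (G : SimpleGraph V) (hc : ∀ v : V, (G.neighborSet v).ncard = 3)
    (hb : ∀ v w : V, G.Adj v w → (G.deleteEdges {s(v, w)}).Reachable v w) :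
    ∃ M1 M2, (JK.ofSG G hc).IsPM M1 ∧ (JK.ofSG G hc).IsPM M2 ∧
      ∀ Z : Finset V, Odd Z.card → ∃ d ∈ (JK.ofSG G hc).bd Z, d ∉ M1 ∩ M2 := by
  rcases isEmpty_or_nonempty V with hV | ⟨⟨v0⟩⟩
  · have hpm : (JK.ofSG G hc).IsPM ∅ :=
      ⟨empty_subset _, by simp, by simp, fun v _ => (hV.false v).elim⟩
    refine ⟨∅, ∅, hpm, hpm, ?_⟩
    intro Z hZ
    have : Z = ∅ := eq_empty_of_isEmpty Z
    subst this
    simp at hZ
  · have hcub := (JK.ofSG G hc).cubic v0 (mem_univ v0)
    have hne : ((JK.ofSG G hc).ds.filter fun d => (JK.ofSG G hc).pi d = v0).Nonempty := by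
      rw [← card_pos, hcub]; norm_num
    obtain ⟨d0, hd0⟩ := hne
    have hd0' := (mem_filter.1 hd0).1
    have hP : R5.K.P4 (JK.ofSG G hc) :=
      R5.K.two_cut (fun G' hT => h.p4 hm hT) (JK.ofSG G hc)
        (JK.ofSG_even G hc) (JK.ofSG_tk G hc) (JK.ofSG_b0 G hc hb)
    obtain ⟨J, N, hJN, -, -⟩ := hP d0 hd0' True True
    refine ⟨J, N, hJN.j, hJN.n, fun Z hodd => ?_⟩
    obtain ⟨d, hd, hd'⟩ := hJN.odd Z (subset_univ _) hodd
    exact ⟨d, hd, fun h => hd' (mem_inter.1 h)⟩

/-- the complement of a perfect matching -/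
private def tcompl {V : Type} [Fintype V] (G : SimpleGraph V)
    (hc : ∀ v : V, (G.neighborSet v).ncard = 3) (M : Finset (V × V))
    (hM : (JK.ofSG G hc).IsPM M) : SimpleGraph V where
  Adj v w := G.Adj v w ∧ (v, w) ∉ M
  symm := ⟨fun v w h => ⟨h.1.symm, fun hw => h.2 (hM.closed (w, v) hw)⟩⟩
  loopless := ⟨fun v h => G.loopless.irrefl v h.1⟩

private lemma tcompl_le {V : Type} [Fintype V] (G : SimpleGraph V)
    (hc : ∀ v : V, (G.neighborSet v).ncard = 3) (M : Finset (V × V))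
    (hM : (JK.ofSG G hc).IsPM M) : tcompl G hc M hM ≤ G := fun _ _ h => h.1

private lemma tcompl_card {V : Type} [Fintype V] (G : SimpleGraph V)
    (hc : ∀ v : V, (G.neighborSet v).ncard = 3) (M : Finset (V × V))
    (hM : (JK.ofSG G hc).IsPM M) (v : V) : ((tcompl G hc M hM).neighborSet v).ncard = 2 := by
  obtain ⟨d, hd⟩ := Finset.card_eq_one.1 (hM.one v (Finset.mem_univ v))
  have hd1 : d ∈ M ∧ d.1 = v := by
    have : d ∈ M.filter fun d => (JK.ofSG G hc).pi d = v := by rw [hd]; simp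
    rw [Finset.mem_filter] at this
    exact this
  obtain ⟨a, w⟩ := d
  obtain ⟨hm, rfl⟩ := hd1
  have hadj : G.Adj a w := by
    have := hM.sub hm
    simpa [JK.ofSG] using this
  have hset : (tcompl G hc M hM).neighborSet a = G.neighborSet a \ {w} := by
    ext x
    simp only [SimpleGraph.mem_neighborSet, Set.mem_sdiff, Set.mem_singleton_iff]
    constructor
    · rintro ⟨h1, h2⟩
      refine ⟨h1, ?_⟩
      rintro rfl
      exact h2 hm
    · rintro ⟨h1, h2⟩
      refine ⟨h1, fun h3 => h2 ?_⟩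
      have : (a, x) ∈ M.filter fun d => (JK.ofSG G hc).pi d = a := by
        rw [Finset.mem_filter]
        exact ⟨h3, rfl⟩
      rw [hd, Finset.mem_singleton] at this
      exact (Prod.ext_iff.1 this).2
  rw [hset, Set.ncard_sdiff_singleton_of_mem (show w ∈ G.neighborSet a from hadj), hc]

/-- the frozen statement from the rho theorem with star, even unions at least `m ≤ 6` -/
theorem RhoSThm.final {m : ℕ} (h : RhoSThm m) (hm : m ≤ 6) :
    ∀ (V : Type) [Fintype V] (G : SimpleGraph V),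
      (∀ v : V, (G.neighborSet v).ncard = 3) →
      (∀ v w : V, G.Adj v w → (G.deleteEdges {s(v, w)}).Reachable v w) →
      ∃ F₁ F₂ C : SimpleGraph V,
        F₁ ≤ G ∧ F₂ ≤ G ∧ C ≤ G ∧
        (∀ v : V, (F₁.neighborSet v).ncard = 2) ∧
        (∀ v : V, (F₂.neighborSet v).ncard = 2) ∧
        (∀ v : V, Even ((C.neighborSet v).ncard)) ∧
        F₁ ⊔ F₂ ⊔ C = G := by
  intro V _ G hc hb
  obtain ⟨M1, M2, h1, h2, hZ⟩ := top_two h hm G hc hb
  obtain ⟨C, hC, hT, hev⟩ := JK.exists_even G hc (M1 ∩ M2)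
    (fun d hd => by
      have := h1.sub (Finset.mem_inter.1 hd).1
      simpa [JK.ofSG] using this)
    (fun d hd => Finset.mem_inter.2 ⟨h1.closed d (Finset.mem_inter.1 hd).1,
      h2.closed d (Finset.mem_inter.1 hd).2⟩)
    hZ
  refine ⟨tcompl G hc M1 h1, tcompl G hc M2 h2, C, tcompl_le G hc M1 h1, tcompl_le G hc M2 h2,
    hC, tcompl_card G hc M1 h1, tcompl_card G hc M2 h2, hev, ?_⟩
  ext v w
  simp only [SimpleGraph.sup_adj]
  constructor
  · rintro ((h | h) | h)
    · exact h.1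
    · exact h.1
    · exact hC h
  · intro h
    by_cases hm1 : (v, w) ∈ M1
    · by_cases hm2 : (v, w) ∈ M2
      · exact Or.inr (hT _ (Finset.mem_inter.2 ⟨hm1, hm2⟩))
      · exact Or.inl (Or.inr ⟨h, hm2⟩)
    · exact Or.inl (Or.inl ⟨h, hm1⟩)

end RH
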