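import Pool.Agent.Lib.RH.T5IntB
import Pool.Agent.Lib.RH.SCapS
import Pool.Agent.Lib.RH.N4
import Pool.Agent.Lib.RH.STop

/-! A minimal counterexample has a weight in normal form: `N4` or `N5`; the rho theorem from these
two cases. -/

set_option autoImplicit false

namespace RH

open Finset Classical

namespace MG

variable {V D : Type*} {G : MG V D} {z z' : D → ℝ} {t t' : V → ℝ} {fr : Finset V} {F : Finset D}
variable {jm sx : Finset V} {ep : V → ℕ} {m : ℕ} {M : Finset D}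

/-- EXISTENCE OF THE NORMAL FORM `N5`: all weights have more than 4 tokens -/
theorem MCS.exists_n5 [Infinite V] [Infinite D] (h : G.MCS z t fr F jm sx ep 0)
    (hR : G.Rigid z fr) (h5 : ∀ z' t', G.Alt z fr z' t' → 4 < ∑ v ∈ G.vs, t' v) :
    ∃ z' t', G.Alt z fr z' t' ∧ G.N5 z' t' fr F jm sx ep 0 := by
  obtain ⟨z', t', ha, hm, hopt, hnf⟩ := h.exists_nf hR
  refine ⟨z', t', ha, hm.toN5 ?_ hopt hnf (h5 z' t' ha)⟩
  intro z1 t1 ha1 W hW hWo h3 hc1 hc2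
  rcases hm.tightAll ha1 hW hWo h3 hc1 hc2 with h1 | ⟨u, a, b, h1⟩ | ⟨y, h1⟩
  · exact Or.inl h1
  · refine Or.inr ⟨b, ?_, h1.tb⟩
    have h2 : b ∈ G.vs \ W := by
      rw [h1.U]
      simp
    exact (mem_sdiff.1 h2).1
  · exact Or.inr ⟨y, h1.yv, h1.ty⟩

/-- the normal form `N4` or `N5` -/
theorem MCS.exists_n45 [Infinite V] [Infinite D] (h : G.MCS z t fr F jm sx ep 0)
    (hR : G.Rigid z fr)
    (h4 : (∃ z' t', G.Alt z fr z' t' ∧ ∑ v ∈ G.vs, t' v ≤ 4) →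
      ∃ z' t', G.Alt z fr z' t' ∧ G.N4 z' t' fr F jm sx ep 0) :
    ∃ z' t', G.Alt z fr z' t' ∧
      (G.N4 z' t' fr F jm sx ep 0 ∨ G.N5 z' t' fr F jm sx ep 0) := by
  by_cases h5 : ∃ z' t', G.Alt z fr z' t' ∧ ∑ v ∈ G.vs, t' v ≤ 4
  · obtain ⟨z', t', h6, h7⟩ := h4 h5
    exact ⟨z', t', h6, Or.inl h7⟩
  · push Not at h5
    obtain ⟨z', t', h6, h7⟩ := h.exists_n5 hR h5
    exact ⟨z', t', h6, Or.inr h7⟩

end MG

end RH
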