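import Pool.Agent.Lib.RH.Defs

/-! Cut calculus in the rho frame. -/

set_option autoImplicit false

namespace RH

open Finset Classical

namespace MG

variable {V D : Type*} {G : MG V D} {z : D → ℝ} {t : V → ℝ} {M : Finset D}
variable {fr : Finset V} {F : Finset D}

theorem mem_st {v : V} {d : D} : d ∈ G.st v ↔ d ∈ G.ds ∧ G.pi d = v := by simp [st]

theorem mem_bd {X : Finset V} {d : D} :
    d ∈ G.bd X ↔ d ∈ G.ds ∧ G.pi d ∈ X ∧ G.pi (G.al d) ∉ X := by simp [bd]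

theorem mem_ed {X Y : Finset V} {d : D} :
    d ∈ G.ed X Y ↔ d ∈ G.ds ∧ G.pi d ∈ X ∧ G.pi (G.al d) ∈ Y := by simp [ed]

private theorem ed_sum (X Y : Finset V) (f : D → ℝ) :
    ∑ d ∈ G.ed X Y, f d =
      ∑ d ∈ G.ds, if G.pi d ∈ X ∧ G.pi (G.al d) ∈ Y then f d else 0 := by
  unfold ed
  rw [sum_filter]

private theorem bd_sum (X : Finset V) (f : D → ℝ) :
    ∑ d ∈ G.bd X, f d =
      ∑ d ∈ G.ds, if G.pi d ∈ X ∧ G.pi (G.al d) ∉ X then f d else 0 := by
  unfold bd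
  rw [sum_filter]

/-- the weight between two sets is symmetric -/
theorem Wt.ed_symm (h : G.Wt z t) (X Y : Finset V) :
    ∑ d ∈ G.ed X Y, z d = ∑ d ∈ G.ed Y X, z d := by
  refine sum_bij' (fun d _ => G.al d) (fun d _ => G.al d) ?_ ?_ ?_ ?_ ?_
  · intro d hd
    rw [mem_ed] at hd
    rw [mem_ed, G.al_al _ hd.1]
    exact ⟨G.al_mem _ hd.1, hd.2.2, hd.2.1⟩
  · intro d hd
    rw [mem_ed] at hd
    rw [mem_ed, G.al_al _ hd.1]
    exact ⟨G.al_mem _ hd.1, hd.2.2, hd.2.1⟩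
  · intro d hd
    rw [mem_ed] at hd
    exact G.al_al _ hd.1
  · intro d hd
    rw [mem_ed] at hd
    exact G.al_al _ hd.1
  · intro d hd
    rw [mem_ed] at hd
    exact (h.sym d hd.1).symm

/-- weight between disjoint unions -/
theorem ed_union_left {X Y Z : Finset V} (hXY : Disjoint X Y) (f : D → ℝ) :
    ∑ d ∈ G.ed (X ∪ Y) Z, f d = ∑ d ∈ G.ed X Z, f d + ∑ d ∈ G.ed Y Z, f d := by
  rw [ed_sum, ed_sum, ed_sum, ← sum_add_distrib]
  refine sum_congr rfl fun d _ => ?_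
  have h1 : G.pi d ∈ X → G.pi d ∉ Y := fun h h' => disjoint_left.1 hXY h h'
  by_cases a : G.pi d ∈ X <;> by_cases b : G.pi d ∈ Y <;> by_cases c : G.pi (G.al d) ∈ Z <;>
    simp_all

theorem ed_union_right {X Y Z : Finset V} (hXY : Disjoint X Y) (f : D → ℝ) :
    ∑ d ∈ G.ed Z (X ∪ Y), f d = ∑ d ∈ G.ed Z X, f d + ∑ d ∈ G.ed Z Y, f d := by
  rw [ed_sum, ed_sum, ed_sum, ← sum_add_distrib]
  refine sum_congr rfl fun d _ => ?_
  have h1 : G.pi (G.al d) ∈ X → G.pi (G.al d) ∉ Y := fun h h' => disjoint_left.1 hXY h h'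
  by_cases a : G.pi (G.al d) ∈ X <;> by_cases b : G.pi (G.al d) ∈ Y <;>
    by_cases c : G.pi d ∈ Z <;> simp_all

theorem bd_eq_ed {X : Finset V} : G.bd X = G.ed X (G.vs \ X) := by
  ext d
  rw [mem_bd, mem_ed, mem_sdiff]
  constructor
  · rintro ⟨h1, h2, h3⟩
    exact ⟨h1, h2, G.pi_mem _ (G.al_mem _ h1), h3⟩
  · rintro ⟨h1, h2, h3⟩
    exact ⟨h1, h2, h3.2⟩

theorem Wt.ed_nonneg (h : G.Wt z t) (X Y : Finset V) : 0 ≤ ∑ d ∈ G.ed X Y, z d :=
  sum_nonneg fun d hd => h.z0 d (mem_ed.1 hd).1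

/-- the value of a set in terms of the weight inside (every inside edge is counted twice) -/
theorem Wt.val_eq (h : G.Wt z t) {X : Finset V} (hX : X ⊆ G.vs) :
    G.val z t X = 3 * X.card - ∑ d ∈ G.ed X X, z d := by
  have h1 : ∑ v ∈ X, (∑ d ∈ G.st v, z d + t v) = 3 * (X.card : ℝ) := by
    rw [sum_congr rfl fun v hv => h.deg v (hX hv), sum_const, nsmul_eq_mul, mul_comm]
  have h2 : ∑ v ∈ X, ∑ d ∈ G.st v, z d = ∑ d ∈ G.bd X, z d + ∑ d ∈ G.ed X X, z d := by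
    rw [← sum_biUnion, ← sum_union]
    · refine sum_congr ?_ fun _ _ => rfl
      ext d
      rw [mem_biUnion, mem_union, mem_bd, mem_ed]
      constructor
      · rintro ⟨v, hv, hd⟩
        rw [mem_st] at hd
        by_cases h3 : G.pi (G.al d) ∈ X
        · exact Or.inr ⟨hd.1, hd.2 ▸ hv, h3⟩
        · exact Or.inl ⟨hd.1, hd.2 ▸ hv, h3⟩
      · rintro (hd | hd)
        · exact ⟨_, hd.2.1, mem_st.2 ⟨hd.1, rfl⟩⟩
        · exact ⟨_, hd.2.1, mem_st.2 ⟨hd.1, rfl⟩⟩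
    · rw [disjoint_left]
      intro d h3 h4
      exact (mem_bd.1 h3).2.2 (mem_ed.1 h4).2.2
    · intro v _ w _ hvw
      change Disjoint (G.st v) (G.st w)
      rw [disjoint_left]
      intro d h3 h4
      exact hvw ((mem_st.1 h3).2.symm.trans (mem_st.1 h4).2)
  rw [sum_add_distrib, h2] at h1
  unfold val
  linarith

theorem Wt.val_single (h : G.Wt z t) {v : V} (hv : v ∈ G.vs) : G.val z t {v} = 3 := by
  rw [h.val_eq (singleton_subset_iff.2 hv), card_singleton]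
  have h1 : G.ed {v} {v} = ∅ := by
    rw [Finset.eq_empty_iff_forall_notMem]
    intro d hd
    rw [mem_ed, mem_singleton, mem_singleton] at hd
    exact G.noloop d hd.1 (hd.2.2.trans hd.2.1.symm)
  rw [h1, sum_empty]
  norm_num

theorem Wt.val_nonneg (h : G.Wt z t) {X : Finset V} (hX : X ⊆ G.vs) : 0 ≤ G.val z t X := by
  unfold val
  have h1 : 0 ≤ ∑ d ∈ G.bd X, z d := sum_nonneg fun d hd => h.z0 d (mem_bd.1 hd).1
  have h2 : 0 ≤ ∑ v ∈ X, t v := sum_nonneg fun v hv => h.t0 v (hX hv)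
  linarith

set_option linter.unusedVariables false in
/-- modularity of the cut function -/
theorem Wt.submod (h : G.Wt z t) {X Y : Finset V} (hX : X ⊆ G.vs) (hY : Y ⊆ G.vs) :
    G.val z t X + G.val z t Y =
      G.val z t (X ∩ Y) + G.val z t (X ∪ Y) + 2 * ∑ d ∈ G.ed (X \ Y) (Y \ X), z d := by
  rw [h.val_eq hX, h.val_eq hY, h.val_eq (inter_subset_left.trans hX),
    h.val_eq (union_subset hX hY)]
  have h1 : ((X ∪ Y).card : ℝ) + (X ∩ Y).card = X.card + Y.card := by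
    exact_mod_cast card_union_add_card_inter X Y
  have h2 := h.ed_symm (X \ Y) (Y \ X)
  have h3 : ∑ d ∈ G.ed X X, z d + ∑ d ∈ G.ed Y Y, z d + ∑ d ∈ G.ed (X \ Y) (Y \ X), z d +
      ∑ d ∈ G.ed (Y \ X) (X \ Y), z d =
      ∑ d ∈ G.ed (X ∩ Y) (X ∩ Y), z d + ∑ d ∈ G.ed (X ∪ Y) (X ∪ Y), z d := by
    rw [ed_sum, ed_sum, ed_sum, ed_sum, ed_sum, ed_sum, ← sum_add_distrib, ← sum_add_distrib,
      ← sum_add_distrib, ← sum_add_distrib]
    refine sum_congr rfl fun d _ => ?_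
    by_cases a : G.pi d ∈ X <;> by_cases b : G.pi (G.al d) ∈ X <;>
      by_cases a' : G.pi d ∈ Y <;> by_cases b' : G.pi (G.al d) ∈ Y <;> simp [a, b, a', b']
  linarith

set_option linter.unusedVariables false in
/-- the second form, with differences -/
theorem Wt.posimod (h : G.Wt z t) {X Y : Finset V} (hX : X ⊆ G.vs) (hY : Y ⊆ G.vs) :
    G.val z t X + G.val z t Y =
      G.val z t (X \ Y) + G.val z t (Y \ X) +
        2 * ∑ d ∈ G.ed (X ∩ Y) (G.vs \ (X ∪ Y)), z d + 2 * ∑ v ∈ X ∩ Y, t v := by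
  have h1 := h.ed_symm (X \ Y) (X ∩ Y)
  have h2 := h.ed_symm (Y \ X) (X ∩ Y)
  have h3 : ∑ d ∈ G.bd X, z d + ∑ d ∈ G.bd Y, z d + ∑ d ∈ G.ed (X \ Y) (X ∩ Y), z d +
      ∑ d ∈ G.ed (Y \ X) (X ∩ Y), z d =
      ∑ d ∈ G.bd (X \ Y), z d + ∑ d ∈ G.bd (Y \ X), z d +
      (∑ d ∈ G.ed (X ∩ Y) (G.vs \ (X ∪ Y)), z d + ∑ d ∈ G.ed (X ∩ Y) (G.vs \ (X ∪ Y)), z d) +
      ∑ d ∈ G.ed (X ∩ Y) (X \ Y), z d + ∑ d ∈ G.ed (X ∩ Y) (Y \ X), z d := by
    rw [bd_sum, bd_sum, bd_sum, bd_sum, ed_sum, ed_sum, ed_sum, ed_sum, ed_sum,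
      ← sum_add_distrib, ← sum_add_distrib, ← sum_add_distrib, ← sum_add_distrib,
      ← sum_add_distrib, ← sum_add_distrib, ← sum_add_distrib, ← sum_add_distrib]
    refine sum_congr rfl fun d hd => ?_
    have h4 := G.pi_mem _ (G.al_mem _ hd)
    by_cases a : G.pi d ∈ X <;> by_cases b : G.pi (G.al d) ∈ X <;>
      by_cases a' : G.pi d ∈ Y <;> by_cases b' : G.pi (G.al d) ∈ Y <;> simp [a, b, a', b', h4]
  have h5 : ∑ v ∈ X, t v + ∑ v ∈ Y, t v =
      ∑ v ∈ X \ Y, t v + ∑ v ∈ Y \ X, t v + 2 * ∑ v ∈ X ∩ Y, t v := by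
    have e1 := sum_sdiff (inter_subset_left : X ∩ Y ⊆ X) (f := t)
    have e2 := sum_sdiff (inter_subset_right : X ∩ Y ⊆ Y) (f := t)
    rw [sdiff_inter_self_left] at e1
    rw [sdiff_inter_self_right] at e2
    linarith
  unfold val
  linarith

/-- complement -/
theorem Wt.val_compl (h : G.Wt z t) {X : Finset V} (hX : X ⊆ G.vs) :
    G.val z t (G.vs \ X) = G.val z t X + ∑ v ∈ G.vs, t v - 2 * ∑ v ∈ X, t v := by
  have h1 : ∑ d ∈ G.bd (G.vs \ X), z d = ∑ d ∈ G.bd X, z d := by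
    rw [bd_eq_ed, bd_eq_ed, Finset.sdiff_sdiff_eq_self hX, h.ed_symm]
  have h2 := sum_sdiff hX (f := t)
  unfold val
  linarith

/-- a set of darts closed under the fixed point free involution `al` has even size -/
private theorem even_inv (S : Finset D) (hS : S ⊆ G.ds) (hcl : ∀ d ∈ S, G.al d ∈ S) :
    Even S.card := by
  have h1 : ∑ _d ∈ S, (1 : ZMod 2) = 0 := by
    refine sum_involution (fun d _ => G.al d) ?_ ?_ ?_ ?_
    · intro d _
      decide
    · intro d hd _ he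
      exact G.noloop d (hS hd) (by rw [he])
    · intro d hd
      exact hcl d hd
    · intro d hd
      exact G.al_al d (hS hd)
  rw [sum_const, nsmul_eq_mul, mul_one] at h1
  rwa [ZMod.natCast_eq_zero_iff_even] at h1

/-- parity law for a perfect matching -/
theorem IsPM.parity (hM : G.IsPM M) {X : Finset V} (hX : X ⊆ G.vs) :
    (((G.bd X).filter fun d => d ∈ M).card) % 2 = X.card % 2 := by
  have h1 : (M.filter fun d => G.pi d ∈ X).card = X.card := by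
    rw [card_eq_sum_card_fiberwise (f := G.pi) (s := M.filter fun d => G.pi d ∈ X) (t := X)
      (fun d hd => (mem_filter.1 (mem_coe.1 hd)).2)]
    rw [card_eq_sum_ones X]
    refine sum_congr rfl fun v hv => ?_
    rw [← hM.one v (hX hv), filter_filter]
    congr 1
    ext d
    rw [mem_filter, mem_filter]
    constructor
    · rintro ⟨h, -, h2⟩
      exact ⟨h, h2⟩
    · rintro ⟨h, h2⟩
      exact ⟨h, h2 ▸ hv, h2⟩
  have h2 : M.filter (fun d => G.pi d ∈ X) =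
      ((G.bd X).filter fun d => d ∈ M) ∪ (M.filter fun d => G.pi d ∈ X ∧ G.pi (G.al d) ∈ X) := by
    ext d
    rw [mem_union, mem_filter, mem_filter, mem_filter, mem_bd]
    constructor
    · rintro ⟨h, h3⟩
      by_cases h4 : G.pi (G.al d) ∈ X
      · exact Or.inr ⟨h, h3, h4⟩
      · exact Or.inl ⟨⟨hM.sub h, h3, h4⟩, h⟩
    · rintro (⟨h, h3⟩ | ⟨h, h3⟩)
      · exact ⟨h3, h.2.1⟩
      · exact ⟨h, h3.1⟩
  have h3 : Disjoint ((G.bd X).filter fun d => d ∈ M)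
      (M.filter fun d => G.pi d ∈ X ∧ G.pi (G.al d) ∈ X) := by
    rw [disjoint_left]
    intro d h4 h5
    exact (mem_bd.1 (mem_filter.1 h4).1).2.2 (mem_filter.1 h5).2.2
  have h4 : Even (M.filter fun d => G.pi d ∈ X ∧ G.pi (G.al d) ∈ X).card := by
    refine even_inv (G := G) _ ((filter_subset _ _).trans hM.sub) ?_
    intro d hd
    rw [mem_filter] at hd ⊢
    refine ⟨hM.closed d hd.1, hd.2.2, ?_⟩
    rw [G.al_al d (hM.sub hd.1)]
    exact hd.2.1
  rw [h2, card_union_of_disjoint h3] at h1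
  obtain ⟨k, hk⟩ := h4
  omega

/-- the boundary of an admissible set consists of J-darts, one at every vertex at most -/
theorem Fr.bd_par (hF : G.Fr z fr F) {X : Finset V} (hX : G.Adm fr F X) :
    (G.bd X).card % 2 = X.card % 2 := by
  set S : Finset D := G.ds.filter fun d => G.pi d ∈ X ∧ d ∉ F with hS
  have h1 : S.card = X.card := by
    rw [card_eq_sum_card_fiberwise (f := G.pi) (s := S) (t := X)
      (fun d hd => (mem_filter.1 (mem_coe.1 hd)).2.1)]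
    rw [card_eq_sum_ones X]
    refine sum_congr rfl fun v hv => ?_
    rw [← hF.one v (hX.sub hv)]
    congr 1
    ext d
    rw [mem_filter, mem_filter, mem_filter, mem_st]
    constructor
    · rintro ⟨⟨h, h2, h3⟩, h4⟩
      exact ⟨⟨h, h4⟩, h3⟩
    · rintro ⟨⟨h, h4⟩, h3⟩
      exact ⟨⟨h, h4 ▸ hv, h3⟩, h4⟩
  have h2 : S = G.bd X ∪ S.filter fun d => G.pi (G.al d) ∈ X := by
    ext d
    simp only [mem_union, mem_filter, hS, mem_bd]
    constructor
    · rintro ⟨h, h3, h5⟩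
      by_cases h4 : G.pi (G.al d) ∈ X
      · exact Or.inr ⟨⟨h, h3, h5⟩, h4⟩
      · exact Or.inl ⟨h, h3, h4⟩
    · rintro (⟨h, h3, h4⟩ | ⟨h, h3⟩)
      · exact ⟨h, h3, fun h5 => h4 (hX.clo d h5 h3)⟩
      · exact h
  have h3 : Disjoint (G.bd X) (S.filter fun d => G.pi (G.al d) ∈ X) := by
    rw [disjoint_left]
    intro d h4 h5
    exact (mem_bd.1 h4).2.2 (mem_filter.1 h5).2
  have h4 : Even (S.filter fun d => G.pi (G.al d) ∈ X).card := by
    refine even_inv (G := G) _ ((filter_subset _ _).trans (filter_subset _ _)) ?_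
    intro d hd
    rw [mem_filter, hS, mem_filter] at hd ⊢
    obtain ⟨⟨h5, h6, h7⟩, h8⟩ := hd
    refine ⟨⟨G.al_mem d h5, h8, fun h9 => h7 ?_⟩, ?_⟩
    · have h10 := hF.Fal _ h9
      rwa [G.al_al d h5] at h10
    · rw [G.al_al d h5]
      exact h6
  rw [h2, card_union_of_disjoint h3] at h1
  obtain ⟨k, hk⟩ := h4
  omega

/-- the number of boundary darts of an admissible set which are not in the matching is even -/
theorem Fr.unused_even (hF : G.Fr z fr F) (hM : G.IsPM M) {X : Finset V} (hX : G.Adm fr F X) :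
    Even ((G.bd X).filter fun d => d ∉ M).card := by
  have h1 := hM.parity (hX.sub.trans hF.fsub)
  have h2 := hF.bd_par hX
  have h3 := card_filter_add_card_filter_not (s := G.bd X) (fun d => d ∈ M)
  rw [Nat.even_iff]
  omega

theorem Adm.inter {X Y : Finset V} (hX : G.Adm fr F X) (hY : G.Adm fr F Y) :
    G.Adm fr F (X ∩ Y) := by
  refine ⟨inter_subset_left.trans hX.sub, fun d hd hv => ?_⟩
  rw [mem_inter] at hv ⊢
  exact ⟨hX.clo d hd hv.1, hY.clo d hd hv.2⟩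

theorem Adm.union {X Y : Finset V} (hX : G.Adm fr F X) (hY : G.Adm fr F Y) :
    G.Adm fr F (X ∪ Y) := by
  refine ⟨union_subset hX.sub hY.sub, fun d hd hv => ?_⟩
  rw [mem_union] at hv ⊢
  rcases hv with hv | hv
  · exact Or.inl (hX.clo d hd hv)
  · exact Or.inr (hY.clo d hd hv)

theorem Adm.sdiff (hF : G.Fr z fr F) {X Y : Finset V} (hX : G.Adm fr F X) (hY : G.Adm fr F Y) :
    G.Adm fr F (X \ Y) := by
  refine ⟨sdiff_subset.trans hX.sub, fun d hd hv => ?_⟩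
  rw [mem_sdiff] at hv ⊢
  refine ⟨hX.clo d hd hv.1, fun h => hv.2 ?_⟩
  have h1 := hY.clo _ (hF.Fal d hd) h
  rwa [G.al_al d (hF.Fsub hd)] at h1

/-- the class of a fresh vertex: the smallest admissible set containing it -/
theorem Fr.exists_class (hF : G.Fr z fr F) {v : V} (hv : v ∈ fr) :
    ∃ C, G.Adm fr F C ∧ v ∈ C ∧ ∀ X, G.Adm fr F X → v ∈ X → C ⊆ X := by
  refine ⟨fr.filter fun u => ∀ X, G.Adm fr F X → v ∈ X → u ∈ X, ⟨filter_subset _ _, ?_⟩, ?_, ?_⟩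
  · intro d hd hu
    rw [mem_filter] at hu ⊢
    exact ⟨hF.Ffr _ (hF.Fal d hd), fun X hX hvX => hX.clo d hd (hu.2 X hX hvX)⟩
  · exact mem_filter.2 ⟨hv, fun X _ h => h⟩
  · intro X hX hvX u hu
    exact (mem_filter.1 hu).2 X hX hvX

end MG

end RH
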