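import Pool.Agent.Lib.RH.SRest
import Pool.Agent.Lib.RH.SGlueT2

/-! (P1*): no closed bipartite system of even circuits in a minimal counterexample (lead, helper68).

`U` is a union of circuits with a 2-colouring `I`, `U \ I` of its vertices along the circuits, and
every J-dart at a vertex of `U \ I` goes to `I` or out of `fr`. -/

set_option autoImplicit false

namespace RH

open Finset Classical

namespace MG

variable {V D : Type*}

variable {G : MG V D} {z : D → ℝ} {t : V → ℝ} {fr : Finset V} {F : Finset D} {jm sx : Finset V}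
variable {ep : V → ℕ} {m : ℕ} {U I X : Finset V} {M : Finset D}

/-- a bipartite system of circuits: every F-dart of `U` joins the two colours, the J-darts of the
colour `U \ I` go to `I` or to vertices which are not fresh -/
structure BipSys (G : MG V D) (fr : Finset V) (F : Finset D) (U I : Finset V) : Prop where
  sub : U ⊆ fr
  IU : I ⊆ U
  clo : ∀ d ∈ F, G.pi d ∈ U → G.pi (G.al d) ∈ U
  col : ∀ d ∈ F, G.pi d ∈ U → (G.pi d ∈ I ↔ G.pi (G.al d) ∉ I)
  out : ∀ d ∈ G.ds, G.pi d ∈ U → G.pi d ∉ I → d ∉ F → G.pi (G.al d) ∈ I ∨ G.pi (G.al d) ∉ fr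

/-- darts in `T` at `C` -/
private theorem card_at {T : Finset D} {C : Finset V} {k : ℕ}
    (h : ∀ v ∈ C, (T.filter fun d => G.pi d = v).card = k) :
    (T.filter fun d => G.pi d ∈ C).card = k * C.card := by
  rw [card_eq_sum_card_fiberwise (f := G.pi) (s := T.filter fun d => G.pi d ∈ C) (t := C)
    (fun d hd => (mem_filter.1 (mem_coe.1 hd)).2)]
  rw [sum_congr rfl (g := fun _ => k), sum_const, smul_eq_mul, mul_comm]
  intro v hv
  rw [← h v hv]
  congr 1
  ext d
  rw [mem_filter, mem_filter, mem_filter]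
  constructor
  · rintro ⟨⟨h1, -⟩, h4⟩
    exact ⟨h1, h4⟩
  · rintro ⟨h1, h4⟩
    exact ⟨⟨h1, by rw [h4]; exact hv⟩, h4⟩

/-- F-darts of a set `T` closed under `al` at the two colour classes -/
private theorem card_col (hF : G.FrS z fr F jm) (hb : G.BipSys fr F U I) (hX : G.Adm fr F X)
    {T : Finset D} (hT : T ⊆ F) (hTa : ∀ d ∈ T, G.al d ∈ T) :
    (T.filter fun d => G.pi d ∈ (X ∩ U) ∩ I).card =
      (T.filter fun d => G.pi d ∈ (X ∩ U) \ I).card := by
  refine card_bij (fun d _ => G.al d) ?_ ?_ ?_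
  · intro d hd
    obtain ⟨h1, h2⟩ := mem_filter.1 hd
    obtain ⟨h3, h4⟩ := mem_inter.1 h2
    obtain ⟨h5, h6⟩ := mem_inter.1 h3
    refine mem_filter.2 ⟨hTa d h1, mem_sdiff.2 ⟨mem_inter.2 ⟨?_, ?_⟩, ?_⟩⟩
    · exact hX.clo d (hT h1) h5
    · exact hb.clo d (hT h1) h6
    · exact (hb.col d (hT h1) h6).1 h4
  · intro d hd e he hde
    have h1 := G.al_al d (hF.Fsub (hT (mem_filter.1 hd).1))
    have h2 := G.al_al e (hF.Fsub (hT (mem_filter.1 he).1))
    have hde' : G.al d = G.al e := hde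
    rw [← h1, hde', h2]
  · intro d hd
    obtain ⟨h1, h2⟩ := mem_filter.1 hd
    obtain ⟨h3, h4⟩ := mem_sdiff.1 h2
    obtain ⟨h5, h6⟩ := mem_inter.1 h3
    refine ⟨G.al d, mem_filter.2 ⟨hTa d h1, mem_inter.2 ⟨mem_inter.2 ⟨?_, ?_⟩, ?_⟩⟩,
      G.al_al d (hF.Fsub (hT h1))⟩
    · exact hX.clo d (hT h1) h5
    · exact hb.clo d (hT h1) h6
    · by_contra h7
      exact h4 ((hb.col d (hT h1) h6).2 h7)

/-- a closed union minus a bipartite system is closed, and the difference is even -/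
theorem BipSys.closed (hb : G.BipSys fr F U I) (hF : G.FrS z fr F jm) (hj : Disjoint jm U)
    (hM : G.IsPM M) (hX : G.Adm fr F X) (hcl : ∀ d ∈ G.bd X, d ∈ M) :
    G.Adm fr F (X \ U) ∧ (∀ d ∈ G.bd (X \ U), d ∈ M) ∧ Even (X ∩ U).card := by
  have hCf : ∀ v ∈ X ∩ U, v ∈ fr ∧ v ∉ jm := fun v hv =>
    ⟨hX.sub (mem_inter.1 hv).1, fun h1 => disjoint_left.1 hj h1 (mem_inter.1 hv).2⟩
  -- equal colour classes
  have e1 : ((X ∩ U) ∩ I).card = ((X ∩ U) \ I).card := by
    have h1 := card_col hF hb hX (T := F) (Finset.Subset.refl _) hF.Fal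
    have h2 : (F.filter fun d => G.pi d ∈ (X ∩ U) ∩ I).card = 2 * ((X ∩ U) ∩ I).card :=
      card_at fun v hv => hF.two v (hCf v (mem_inter.1 hv).1).1
    have h3 : (F.filter fun d => G.pi d ∈ (X ∩ U) \ I).card = 2 * ((X ∩ U) \ I).card :=
      card_at fun v hv => hF.two v (hCf v (mem_sdiff.1 hv).1).1
    omega
  have heven : Even (X ∩ U).card := by
    have h1 : ((X ∩ U) \ I).card + ((X ∩ U) ∩ I).card = (X ∩ U).card :=
      card_sdiff_add_card_inter _ _
    exact ⟨((X ∩ U) ∩ I).card, by omega⟩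
  have hadm : G.Adm fr F (X \ U) := by
    refine ⟨sdiff_subset.trans hX.sub, fun d hd hp => ?_⟩
    obtain ⟨h1, h2⟩ := mem_sdiff.1 hp
    refine mem_sdiff.2 ⟨hX.clo d hd h1, fun h3 => h2 ?_⟩
    have h4 := hb.clo _ (hF.Fal d hd) h3
    rwa [G.al_al d (hF.Fsub hd)] at h4
  -- J-darts at a set
  set J : Finset D := G.ds.filter fun d => d ∉ F with hJ
  have hJat : ∀ C, C ⊆ X ∩ U → (J.filter fun d => G.pi d ∈ C).card = 1 * C.card := by
    intro C hC
    refine card_at fun v hv => ?_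
    obtain ⟨h1, h2⟩ := hCf v (hC hv)
    rw [← hF.jd v h1 h2]
    congr 1
    ext d
    rw [mem_filter, mem_filter, mem_filter, mem_st]
    constructor
    · rintro ⟨⟨h3, h4⟩, h5⟩
      exact ⟨⟨h3, h5⟩, h4⟩
    · rintro ⟨⟨h3, h5⟩, h4⟩
      exact ⟨⟨h3, h4⟩, h5⟩
  have hMat : ∀ C, C ⊆ X ∩ U → (M.filter fun d => G.pi d ∈ C).card = 1 * C.card := by
    intro C hC
    exact card_at fun v hv => hM.one v (hF.fsub (hCf v (hC hv)).1)
  have hMF := card_col hF hb hX (T := M.filter fun d => d ∈ F) (fun d hd => (mem_filter.1 hd).2)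
    (fun d hd => mem_filter.2 ⟨hM.closed d (mem_filter.1 hd).1, hF.Fal d (mem_filter.1 hd).2⟩)
  -- unused J-darts at the two colour classes
  have hun : ∀ C, C ⊆ X ∩ U → ((J.filter fun d => d ∉ M).filter fun d => G.pi d ∈ C).card =
      ((M.filter fun d => d ∈ F).filter fun d => G.pi d ∈ C).card := by
    intro C hC
    have h1 := card_filter_add_card_filter_not (s := J.filter fun d => G.pi d ∈ C) (fun d => d ∈ M)
    have h2 := card_filter_add_card_filter_not (s := M.filter fun d => G.pi d ∈ C) (fun d => d ∈ F)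
    have h3 : ((J.filter fun d => G.pi d ∈ C).filter fun d => d ∈ M) =
        ((M.filter fun d => G.pi d ∈ C).filter fun d => ¬ d ∈ F) := by
      ext d
      rw [mem_filter, mem_filter, mem_filter, mem_filter, mem_filter]
      constructor
      · rintro ⟨⟨⟨-, h4⟩, h5⟩, h6⟩
        exact ⟨⟨h6, h5⟩, h4⟩
      · rintro ⟨⟨h6, h5⟩, h4⟩
        exact ⟨⟨⟨hM.sub h6, h4⟩, h5⟩, h6⟩
    have h4 : ((J.filter fun d => G.pi d ∈ C).filter fun d => ¬ d ∈ M) =
        ((J.filter fun d => d ∉ M).filter fun d => G.pi d ∈ C) := filter_comm _ _ _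
    have h5 : ((M.filter fun d => G.pi d ∈ C).filter fun d => d ∈ F) =
        ((M.filter fun d => d ∈ F).filter fun d => G.pi d ∈ C) := filter_comm _ _ _
    rw [h3, h4, hJat C hC] at h1
    rw [h5, hMat C hC] at h2
    omega
  set A := (J.filter fun d => d ∉ M).filter fun d => G.pi d ∈ (X ∩ U) \ I with hA
  set B := (J.filter fun d => d ∉ M).filter fun d => G.pi d ∈ (X ∩ U) ∩ I with hB
  have hAB : A.card = B.card := by
    rw [hA, hB, hun _ sdiff_subset, hun _ inter_subset_left, hMF]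
  -- the unused J-darts of the second class go to the first class
  have hmap : ∀ d ∈ A, G.al d ∈ B := by
    intro d hd
    obtain ⟨h1, h2⟩ := mem_filter.1 hd
    obtain ⟨h3, h4⟩ := mem_filter.1 h1
    obtain ⟨h5, h6⟩ := mem_filter.1 h3
    obtain ⟨h7, h8⟩ := mem_sdiff.1 h2
    obtain ⟨h9, h10⟩ := mem_inter.1 h7
    have h11 : G.pi (G.al d) ∈ X := by
      by_contra h12
      exact h4 (hcl d (mem_bd.2 ⟨h5, h9, h12⟩))
    have h12 : G.pi (G.al d) ∈ I := by
      rcases hb.out d h5 h10 h8 h6 with h13 | h13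
      · exact h13
      · exact absurd (hX.sub h11) h13
    refine mem_filter.2 ⟨mem_filter.2 ⟨mem_filter.2 ⟨G.al_mem d h5, fun h13 => h6 ?_⟩,
      fun h13 => h4 ?_⟩, mem_inter.2 ⟨mem_inter.2 ⟨h11, hb.IU h12⟩, h12⟩⟩
    · rw [← G.al_al d h5]
      exact hF.Fal _ h13
    · rw [← G.al_al d h5]
      exact hM.closed _ h13
  have hinj : A.image G.al = B := by
    refine eq_of_subset_of_card_le ?_ ?_
    · intro e he
      obtain ⟨d, h1, h2⟩ := mem_image.1 he
      rw [← h2]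
      exact hmap d h1
    · rw [← hAB, card_image_of_injOn]
      intro d hd e he hde
      have h1 := G.al_al d (mem_filter.1 (mem_filter.1 (mem_filter.1 (mem_coe.1 hd)).1).1).1
      have h2 := G.al_al e (mem_filter.1 (mem_filter.1 (mem_filter.1 (mem_coe.1 he)).1).1).1
      have hde' : G.al d = G.al e := hde
      rw [← h1, hde', h2]
  refine ⟨hadm, fun d hd => ?_, heven⟩
  obtain ⟨h1, h2, h3⟩ := mem_bd.1 hd
  obtain ⟨h4, h5⟩ := mem_sdiff.1 h2
  have h6 := G.al_al d h1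
  by_cases h7 : G.pi (G.al d) ∈ X
  · have h8 : G.pi (G.al d) ∈ U := by
      by_contra h9
      exact h3 (mem_sdiff.2 ⟨h7, h9⟩)
    by_contra h9
    have h10 : d ∉ F := by
      intro h11
      have h12 := hb.clo _ (hF.Fal d h11) h8
      rw [h6] at h12
      exact h5 h12
    have h11 : G.al d ∈ J.filter fun d => d ∉ M := by
      refine mem_filter.2 ⟨mem_filter.2 ⟨G.al_mem d h1, fun h12 => h10 ?_⟩, fun h12 => h9 ?_⟩
      · rw [← h6]
        exact hF.Fal _ h12
      · rw [← h6]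
        exact hM.closed _ h12
    by_cases h12 : G.pi (G.al d) ∈ I
    · have h13 : G.al d ∈ B :=
        mem_filter.2 ⟨h11, mem_inter.2 ⟨mem_inter.2 ⟨h7, h8⟩, h12⟩⟩
      rw [← hinj] at h13
      obtain ⟨e, h14, h15⟩ := mem_image.1 h13
      have h16 := G.al_al e (mem_filter.1 (mem_filter.1 (mem_filter.1 h14).1).1).1
      have h17 : e = d := by rw [← h16, h15, h6]
      rw [h17] at h14
      exact h5 (mem_inter.1 (mem_sdiff.1 (mem_filter.1 h14).2).1).2
    · have h13 : G.al d ∈ A :=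
        mem_filter.2 ⟨h11, mem_sdiff.2 ⟨mem_inter.2 ⟨h7, h8⟩, h12⟩⟩
      have h14 := hmap _ h13
      rw [h6] at h14
      exact h5 (mem_inter.1 (mem_inter.1 (mem_filter.1 h14).2).1).2
  · exact hcl d (mem_bd.2 ⟨h1, h4, h7⟩)

/-- (P1*) no closed bipartite system of even circuits in a minimal counterexample without star -/
theorem MCS.no_bipSys (hh : G.MCS z t fr F ∅ ∅ ep m) (hb : G.BipSys fr F U I) (hne : U.Nonempty) :
    False := by
  have hF := hh.inst.fresh
  have hcl1 : ∀ d ∈ F, G.pi d ∈ fr \ U → G.pi (G.al d) ∈ fr \ U := by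
    intro d hd hp
    obtain ⟨h1, h2⟩ := mem_sdiff.1 hp
    refine mem_sdiff.2 ⟨hF.Ffr _ (hF.Fal d hd), fun h3 => h2 ?_⟩
    have h4 := hb.clo _ (hF.Fal d hd) h3
    rwa [G.al_al d (hF.Fsub hd)] at h4
  have hI := hh.inst.absorb (fr1 := fr \ U) (jm1 := ∅) (sx1 := ∅) sdiff_subset hcl1
    (Or.inr ⟨disjoint_empty_left _, rfl, rfl⟩)
  obtain ⟨v, hv⟩ := hne
  have hlt : (fr \ U).card < fr.card := by
    refine card_lt_card ⟨sdiff_subset, fun h1 => ?_⟩
    exact (mem_sdiff.1 (h1 (hb.sub hv))).2 hv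
  obtain ⟨M, hM⟩ := hh.ih G z t _ _ _ _ _ (Or.inl hlt) hI
  refine hh.bad ⟨M, hM.pm, hM.pos, fun X hX ho => ?_⟩
  by_contra hcon
  push Not at hcon
  have hX1 : Odd X.card := by
    rcases ho with h1 | ⟨h1, -⟩
    · exact h1
    · exact absurd h1 not_nonempty_empty
  obtain ⟨h1, h2, h3⟩ := hb.closed hF (disjoint_empty_left _) hM.pm hX hcon
  have h4 : Odd (X \ U).card := by
    have h5 : (X \ U).card + (X ∩ U).card = X.card := card_sdiff_add_card_inter _ _
    rw [Nat.odd_iff] at hX1 ⊢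
    rw [Nat.even_iff] at h3
    omega
  have h5 : G.Adm (fr \ U) (F.filter fun d => G.pi d ∈ fr \ U) (X \ U) :=
    ⟨sdiff_subset_sdiff hX.sub (Finset.Subset.refl _), fun d hd hp =>
      h1.clo d (mem_filter.1 hd).1 hp⟩
  obtain ⟨d, h6, h7⟩ := hM.hit _ h5 (Or.inl h4)
  exact h7 (h2 d h6)

end MG

end RH
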