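import Mathlib

/-!
Abstract case logic of complementary colourings (pattern calculus at a set `W` of value five
or four).  Units of `dW` are the elements of `Fin 4`, `0` is the killed unit `e = b b'`.
`Sin i` / `Sout i`: the pattern `{i}` is realised inside / outside; `Tin i` / `Tout i`: the
pattern (all units but `i`) is realised inside / outside.  `cIn`, `cI3`, `cOI`, `cOS`, `cGam`,
`cLam` are the certificates (or large-defect alternatives) of the corresponding gadget states.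
-/

namespace RH.CCase

/-- At least three triples inside and at least two outside meet. -/
theorem meet {Tin Tout : Fin 4 → Prop} (hin : ∀ p q, p ≠ q → Tin p ∨ Tin q)
    (hout : ∃ p q, p ≠ q ∧ Tout p ∧ Tout q) : ∃ i, Tin i ∧ Tout i := by
  obtain ⟨p, q, hpq, hp, hq⟩ := hout
  rcases hin p q hpq with h | h
  · exact ⟨p, h, hp⟩
  · exact ⟨q, h, hq⟩

/-- From the gadgets with two alternatives for the three pairs of a triangle: two patterns. -/
theorem two_of {T : Fin 4 → Prop} {p q r : Fin 4} (hpq : p ≠ q) (hpr : p ≠ r) (hqr : q ≠ r)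
    (h1 : T p ∨ T q) (h2 : T p ∨ T r) (h3 : T q ∨ T r) : ∃ i j, i ≠ j ∧ T i ∧ T j := by
  rcases h1 with h | h
  · rcases h3 with h' | h'
    · exact ⟨p, q, hpq, h, h'⟩
    · exact ⟨p, r, hpr, h, h'⟩
  · rcases h2 with h' | h'
    · exact ⟨p, q, hpq, h', h⟩
    · exact ⟨q, r, hqr, h, h'⟩

/-- Two patterns among `{1,2,3}` from the gadgets `Lam(k)`, `k = 1, 2, 3`. -/
theorem two_of_lam {T : Fin 4 → Prop}
    (h : ∀ k, k ≠ 0 → ∃ j, j ≠ 0 ∧ j ≠ k ∧ T j) : ∃ i j, i ≠ j ∧ T i ∧ T j := by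
  obtain ⟨j, hj0, hj1, hj⟩ := h 1 (by decide)
  obtain ⟨i, _, hij, hi⟩ := h j hj0
  exact ⟨i, j, hij, hi, hj⟩

/-- **`t(W) = 1`** (four units): a blocked step is impossible. -/
theorem one {Sin Sout Tin Tout : Fin 4 → Prop} {cIn cI3 cOI cOS cGam cLam : Prop}
    (nS : ∀ i, Sin i → Sout i → False) (nT : ∀ i, Tin i → Tout i → False)
    (hI1 : ∀ i, i ≠ 0 → Sin i)
    (hIn : Sin 0 ∨ cIn)
    (hI3 : ∀ p q, p ≠ q → Tin p ∨ Tin q ∨ cI3)
    (hO : (∃ i, i ≠ 0 ∧ Sout i) ∨ cOI ∨ cOS)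
    (hGam : (∃ i, Sout i) ∨ cGam)
    (hLam : ∀ k, k ≠ 0 → (∃ i, i ≠ 0 ∧ Sout i) ∨ (∃ j, j ≠ 0 ∧ j ≠ k ∧ Tout j) ∨ cLam)
    (hO3 : (∃ i, Sout i) ∨ ∃ p q, p ≠ q ∧ Tout p ∧ Tout q)
    (gIO : cIn → cOI → False) (gIL : cIn → cLam → False)
    (g3G : cI3 → cGam → False) (g3O : cI3 → cOS → False) : False := by
  classical
  have no : ∀ i, i ≠ 0 → ¬ Sout i := fun i hi h => nS i (hI1 i hi) h
  have hO' : cOI ∨ cOS := by
    rcases hO with ⟨i, hi, h⟩ | h
    · exact (no i hi h).elim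
    · exact h
  by_cases c3 : cI3
  · have h0 : Sout 0 := by
      rcases hGam with ⟨i, h⟩ | h
      · by_cases hi : i = 0
        · rwa [hi] at h
        · exact (no i hi h).elim
      · exact (g3G c3 h).elim
    have ci : cIn := hIn.resolve_left fun h => nS 0 h h0
    rcases hO' with h | h
    · exact gIO ci h
    · exact g3O c3 h
  · have hin : ∀ p q, p ≠ q → Tin p ∨ Tin q := by
      intro p q hpq
      rcases hI3 p q hpq with h | h | h
      · exact Or.inl h
      · exact Or.inr h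
      · exact (c3 h).elim
    have fin : (∃ p q, p ≠ q ∧ Tout p ∧ Tout q) → False := by
      intro h
      obtain ⟨i, hi, hi'⟩ := meet hin h
      exact nT i hi hi'
    have s0 : ¬ Sin 0 := by
      intro h
      rcases hO3 with ⟨i, hi⟩ | h'
      · by_cases hi0 : i = 0
        · exact nS 0 h (by rwa [hi0] at hi)
        · exact no i hi0 hi
      · exact fin h'
    have ci : cIn := hIn.resolve_left s0
    refine fin (two_of_lam ?_)
    intro k hk
    rcases hLam k hk with ⟨i, hi, h⟩ | h | h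
    · exact (no i hi h).elim
    · exact h
    · exact (gIL ci h).elim

/-- **`t(W) ≥ 2`** (units `0, 1, ..`, at most three): a blocked step is impossible. -/
theorem two {ι : Type*} {e : ι} {Sin Sout : ι → Prop} {cIn cO : Prop}
    (nS : ∀ i, Sin i → Sout i → False) (hI1 : ∀ i, i ≠ e → Sin i)
    (hIn : Sin e ∨ cIn)
    (hO : (∃ i, i ≠ e ∧ Sout i) ∨ cO)
    (hOp : ∃ i, Sout i) (gIO : cIn → cO → False) : False := by
  classical
  obtain ⟨i, hi⟩ := hOp
  by_cases hie : i = e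
  · have s0 : ¬ Sin e := fun h => nS e h (by rwa [hie] at hi)
    rcases hO with ⟨j, hj, h⟩ | h
    · exact nS j (hI1 j hj) h
    · exact gIO (hIn.resolve_left s0) h
  · exact nS i (hI1 i hie) hi

/-- **Even sets `N`, `v(N) = 4`, `t(N) = 2`** (units `1, 2`; patterns `{}`, `{1,2}`). -/
theorem even2 {E0in E0out E12in E12out cIn cOut : Prop}
    (n0 : E0in → E0out → False) (n12 : E12in → E12out → False)
    (h0 : E0in) (hedge : E0out ∨ E12out)
    (hIn : E12in ∨ cIn) (hOut : E0out ∨ cOut) (g : cIn → cOut → False) : False := by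
  have h1 : ¬ E0out := n0 h0
  have h2 : E12out := hedge.resolve_left h1
  have h3 : cIn := hIn.resolve_left fun h => n12 h h2
  exact g h3 (hOut.resolve_left h1)

/-- **Even sets `N`, `v(N) = 4`, `t(N) = 1`** (three units; `Pin k` = the pair without `k`). -/
theorem even1 {E0in E0out : Prop} {Pin Pout : Fin 3 → Prop} {cIn cOut : Fin 3 → Prop}
    (n0 : E0in → E0out → False) (nP : ∀ k, Pin k → Pout k → False)
    (h0 : E0in)
    (hin : ∀ i j, i ≠ j → Pin i ∨ Pin j)
    (hK4 : E0out ∨ ∃ k, Pout k)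
    (hIn : ∀ k, Pin k ∨ cIn k)
    (hOut : ∀ k, E0out ∨ (∃ j, j ≠ k ∧ Pout j) ∨ cOut k)
    (g : ∀ k, cIn k → cOut k → False) : False := by
  have h1 : ¬ E0out := n0 h0
  obtain ⟨k, hk⟩ := hK4.resolve_left h1
  have hk' : ¬ Pin k := fun h => nP k h hk
  have ho : ∀ j, j ≠ k → Pin j := fun j hj => (hin j k hj).resolve_right hk'
  have h3 : cIn k := (hIn k).resolve_left hk'
  rcases hOut k with h | ⟨j, hj, h⟩ | h
  · exact h1 h
  · exact nP j (ho j hj) h
  · exact g k h3 h

/-- Tokenless even sets: `Pin` realised pairs; `{i,j}` or `{i,k}` for every choice: the missing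
pairs lie in one pairing (pairs of `Fin 4` as two-element sets given by a symmetric relation). -/
theorem even0 {P : Fin 4 → Fin 4 → Prop} (sym : ∀ i j, P i j → P j i)
    (h : ∀ i j k, i ≠ j → i ≠ k → j ≠ k → P i j ∨ P i k)
    {i j k l : Fin 4} (hij : i ≠ j) (hkl : k ≠ l)
    (h1 : ¬ P i j) (h2 : ¬ P k l) :
    (k = i ∧ l = j) ∨ (k = j ∧ l = i) ∨ (k ≠ i ∧ k ≠ j ∧ l ≠ i ∧ l ≠ j) := by
  by_cases hki : k = i
  · subst hki
    by_cases hlj : l = j
    · exact Or.inl ⟨rfl, hlj⟩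
    · exact ((h k j l hij hkl (Ne.symm hlj)).elim h1 h2).elim
  by_cases hkj : k = j
  · subst hkj
    by_cases hli : l = i
    · exact Or.inr (Or.inl ⟨rfl, hli⟩)
    · exact ((h k i l (Ne.symm hij) hkl (Ne.symm hli)).elim (fun h' => h1 (sym _ _ h')) h2).elim
  by_cases hli : l = i
  · subst hli
    exact ((h l j k hij (Ne.symm hkl) (Ne.symm hkj)).elim h1 (fun h' => h2 (sym _ _ h'))).elim
  by_cases hlj : l = j
  · subst hlj
    exact ((h l i k (Ne.symm hij) (Ne.symm hkl) (Ne.symm hki)).elim (fun h' => h1 (sym _ _ h'))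
      (fun h' => h2 (sym _ _ h'))).elim
  exact Or.inr (Or.inr ⟨hki, hkj, hli, hlj⟩)

end RH.CCase
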