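import Pool.Agent.Lib.RH.StWalk

/-! The closure of the tokens (lead, helper63, helper96): literals `(v, +)` and `(v, -)`. A raisable
dart (set `Rs`) leads from `(u, +)` to `(v, -)`, a lowerable dart (set `Ls`) from `(v, -)` to
`(w, +)`. Either the closure has no contradiction: then it gives a potential with values in
`{-1, 0, 1}`; or it gives a direction in which two token units can be lowered. -/

set_option autoImplicit false

namespace RH

open Finset Classical

namespace MG

variable {V D : Type*} {G : MG V D} {z : D → ℝ} {t : V → ℝ} {Rs Ls : Finset D}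

/-- the sign of an open end -/
def sg (s : Bool) : ℝ := if s then -1 else 1

theorem sg_true : sg true = -1 := rfl

theorem sg_false : sg false = 1 := rfl

/-- a partial walk from the token `y` to the literal `(v, s)` (`s = true` for `+`) -/
structure Arr (G : MG V D) (Rs Ls : Finset D) (y v : V) (s : Bool) (a : D → ℝ) : Prop where
  sym : ∀ d ∈ G.ds, a (G.al d) = a d
  up : ∀ d, d ∉ Ls → 0 ≤ a d
  lo : ∀ d, d ∉ Rs → a d ≤ 0
  deg : ∀ x ∈ G.vs, ∑ d ∈ G.st x, a d = (if x = y then 1 else 0) +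
    sg s * if x = v then 1 else 0

/-- a direction: two token units go down -/
structure Dec (G : MG V D) (Rs Ls : Finset D) (y y' : V) (a : D → ℝ) : Prop where
  sym : ∀ d ∈ G.ds, a (G.al d) = a d
  up : ∀ d, d ∉ Ls → 0 ≤ a d
  lo : ∀ d, d ∉ Rs → a d ≤ 0
  deg : ∀ x ∈ G.vs, ∑ d ∈ G.st x, a d = (if x = y then 1 else 0) + if x = y' then 1 else 0

/-- the reached literals -/
def Rch (G : MG V D) (t : V → ℝ) (Rs Ls : Finset D) (v : V) (s : Bool) : Prop :=
  ∃ y ∈ G.vs, t y ≠ 0 ∧ ∃ a, G.Arr Rs Ls y v s a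

theorem Rch.start {y : V} (hy : y ∈ G.vs) (ht : t y ≠ 0) : G.Rch t Rs Ls y true := by
  refine ⟨y, hy, ht, fun _ => 0, fun _ _ => rfl, fun _ _ => le_refl _, fun _ _ => le_refl _, ?_⟩
  intro x _
  rw [sum_const_zero, sg_true]
  ring

private theorem evec_zero {e d : D} {S : Finset D} (hS : ∀ d ∈ S, G.al d ∈ S) (he : e ∈ S)
    (hd : d ∉ S) : G.evec e d = 0 :=
  evec_of_ne (fun h => hd (h ▸ he)) (fun h => hd (h ▸ hS e he))

/-- over a raisable dart -/
theorem Rch.raise (hRs : Rs ⊆ G.ds) (hRal : ∀ d ∈ Rs, G.al d ∈ Rs) {d : D} (hd : d ∈ Rs)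
    (h : G.Rch t Rs Ls (G.pi d) true) : G.Rch t Rs Ls (G.pi (G.al d)) false := by
  obtain ⟨y, hy, ht, a, ha⟩ := h
  refine ⟨y, hy, ht, fun e => a e + G.evec d e, ?_, ?_, ?_, ?_⟩
  · intro e he
    rw [ha.sym e he, evec_sym (hRs hd) he]
  · intro e he
    have h1 := ha.up e he
    have h2 := evec_nonneg (G := G) d e
    linarith
  · intro e he
    have h1 := ha.lo e he
    rw [evec_zero hRal hd he]
    linarith
  · intro x hx
    rw [sum_add_distrib, ha.deg x hx, evec_st (hRs hd), sg_true, sg_false]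
    ring

/-- over a lowerable dart -/
theorem Rch.lower (hLs : Ls ⊆ G.ds) (hLal : ∀ d ∈ Ls, G.al d ∈ Ls) {d : D} (hd : d ∈ Ls)
    (h : G.Rch t Rs Ls (G.pi d) false) : G.Rch t Rs Ls (G.pi (G.al d)) true := by
  obtain ⟨y, hy, ht, a, ha⟩ := h
  refine ⟨y, hy, ht, fun e => a e - G.evec d e, ?_, ?_, ?_, ?_⟩
  · intro e he
    rw [ha.sym e he, evec_sym (hLs hd) he]
  · intro e he
    have h1 := ha.up e he
    rw [evec_zero hLal hd he]
    linarith
  · intro e he
    have h1 := ha.lo e he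
    have h2 := evec_nonneg (G := G) d e
    linarith
  · intro x hx
    rw [sum_sub_distrib, ha.deg x hx, evec_st (hLs hd), sg_true, sg_false]
    ring

/-- **THE CLOSURE**: a potential with values in `{-1, 0, 1}` or a decreasing direction -/
theorem closure_or (hRs : Rs ⊆ G.ds) (hRal : ∀ d ∈ Rs, G.al d ∈ Rs) (hLs : Ls ⊆ G.ds)
    (hLal : ∀ d ∈ Ls, G.al d ∈ Ls) :
    (∃ p : V → ℝ, (∀ v, p v = 1 ∨ p v = 0 ∨ p v = -1) ∧ (∀ v ∈ G.vs, t v ≠ 0 → p v = 1) ∧
      (∀ d ∈ Rs, p (G.pi d) + p (G.pi (G.al d)) ≤ 0) ∧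
      ∀ d ∈ Ls, 0 ≤ p (G.pi d) + p (G.pi (G.al d))) ∨
    ∃ y ∈ G.vs, ∃ y' ∈ G.vs, t y ≠ 0 ∧ t y' ≠ 0 ∧ ∃ a, G.Dec Rs Ls y y' a := by
  by_cases hc : ∃ v, G.Rch t Rs Ls v true ∧ G.Rch t Rs Ls v false
  · right
    obtain ⟨v, ⟨y, hy, ht, a, ha⟩, ⟨y', hy', ht', a', ha'⟩⟩ := hc
    refine ⟨y, hy, y', hy', ht, ht', fun d => a d + a' d, ?_, ?_, ?_, ?_⟩
    · intro d hd
      rw [ha.sym d hd, ha'.sym d hd]
    · intro d hd
      have h1 := ha.up d hd
      have h2 := ha'.up d hd
      linarith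
    · intro d hd
      have h1 := ha.lo d hd
      have h2 := ha'.lo d hd
      linarith
    · intro x hx
      rw [sum_add_distrib, ha.deg x hx, ha'.deg x hx, sg_true, sg_false]
      ring
  · left
    push Not at hc
    obtain ⟨p, hp⟩ : ∃ p : V → ℝ, ∀ v, p v = if G.Rch t Rs Ls v true then 1 else
        if G.Rch t Rs Ls v false then -1 else 0 := ⟨_, fun _ => rfl⟩
    have p1 : ∀ v, G.Rch t Rs Ls v true → p v = 1 := fun v h => by rw [hp, if_pos h]
    have p2 : ∀ v, G.Rch t Rs Ls v false → p v = -1 := fun v h => by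
      rw [hp, if_neg (fun k => hc v k h), if_pos h]
    have p3 : ∀ v, p v = 1 ∨ p v = 0 ∨ p v = -1 := by
      intro v
      rw [hp]
      split_ifs
      · exact Or.inl rfl
      · exact Or.inr (Or.inr rfl)
      · exact Or.inr (Or.inl rfl)
    have p4 : ∀ v, p v = 1 → G.Rch t Rs Ls v true := by
      intro v h
      by_contra hn
      rw [hp, if_neg hn] at h
      split_ifs at h <;> norm_num at h
    have p5 : ∀ v, p v = -1 → G.Rch t Rs Ls v false := by
      intro v h
      by_contra hn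
      rw [hp, if_neg hn] at h
      split_ifs at h <;> norm_num at h
    refine ⟨p, p3, fun v hv ht => p1 v (Rch.start hv ht), ?_, ?_⟩
    · intro d hd
      rcases p3 (G.pi d) with h | h | h
      · have h1 := p2 _ (Rch.raise hRs hRal hd (p4 _ h))
        linarith
      · rcases p3 (G.pi (G.al d)) with h1 | h1 | h1
        · have h2 := p2 _ (Rch.raise hRs hRal (hRal d hd) (p4 _ h1))
          rw [G.al_al d (hRs hd)] at h2
          linarith
        · linarith
        · linarith
      · rcases p3 (G.pi (G.al d)) with h1 | h1 | h1 <;> linarith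
    · intro d hd
      rcases p3 (G.pi d) with h | h | h
      · rcases p3 (G.pi (G.al d)) with h1 | h1 | h1 <;> linarith
      · rcases p3 (G.pi (G.al d)) with h1 | h1 | h1
        · linarith
        · linarith
        · have h2 := p1 _ (Rch.lower hLs hLal (hLal d hd) (p5 _ h1))
          rw [G.al_al d (hLs hd)] at h2
          linarith
      · have h1 := p1 _ (Rch.lower hLs hLal hd (p5 _ h))
        linarith

/-- the tokens after a small step in the direction `a` -/
noncomputable def decTok (t : V → ℝ) (y y' : V) (ε : ℝ) (v : V) : ℝ :=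
  t v - ε * ((if v = y then 1 else 0) + if v = y' then 1 else 0)

theorem decTok_sum {y y' : V} (hy : y ∈ G.vs) (hy' : y' ∈ G.vs) (ε : ℝ) :
    ∑ v ∈ G.vs, decTok t y y' ε v = ∑ v ∈ G.vs, t v - 2 * ε := by
  unfold decTok
  rw [sum_sub_distrib, ← mul_sum, sum_add_distrib, sum_ite_eq' G.vs y fun _ => (1 : ℝ),
    sum_ite_eq' G.vs y' fun _ => (1 : ℝ), if_pos hy, if_pos hy']
  ring

/-- **A SMALL STEP in a decreasing direction is valid**, if all odd sets except the single vertices
have value more than 3, positive darts stay positive, and the new support is inside `Rs` and the old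
support -/
theorem Dec.small (hw : G.Wt z t) {y y' : V} {a : D → ℝ} (h : G.Dec Rs Ls y y' a)
    (hty : t y ≠ 0) (hty' : t y' ≠ 0) (hy : y ∈ G.vs) (hy' : y' ∈ G.vs)
    (hLz : ∀ d ∈ Ls, 0 < z d)
    (hs : ∀ X ⊆ G.vs, Odd X.card → 2 ≤ X.card → 3 < G.val z t X) :
    ∃ ε > 0, ∀ e, 0 < e → e ≤ ε → G.Wt (fun d => z d + e * a d) (decTok t y y' e) := by
  obtain ⟨A, hA⟩ : ∃ A : ℝ, A = 1 + ∑ d ∈ G.ds, |a d| + 2 := ⟨_, rfl⟩
  have hA1 : 1 ≤ A := by
    have : 0 ≤ ∑ d ∈ G.ds, |a d| := sum_nonneg fun d _ => abs_nonneg _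
    linarith
  have hAd : ∀ d ∈ G.ds, |a d| ≤ A := by
    intro d hd
    have h1 : |a d| ≤ ∑ d ∈ G.ds, |a d| :=
      single_le_sum (f := fun d => |a d|) (fun d _ => abs_nonneg _) hd
    linarith
  -- slack of the sets
  obtain ⟨T0, hT0⟩ : ∃ T : Finset (Finset V), T = G.vs.powerset.filter
      (fun X : Finset V => Odd X.card ∧ 2 ≤ X.card) := ⟨_, rfl⟩
  obtain ⟨δ1, hδ1, hs1⟩ : ∃ δ : ℝ, 0 < δ ∧ ∀ X ∈ T0, 3 + δ ≤ G.val z t X := by
    obtain ⟨T, hT⟩ : ∃ T, T = T0 := ⟨_, rfl⟩
    rw [← hT]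
    rw [hT0] at hT
    rcases T.eq_empty_or_nonempty with h1 | h1
    · exact ⟨1, one_pos, fun X hX => by rw [h1] at hX; exact absurd hX (notMem_empty _)⟩
    · obtain ⟨X0, hX0, hmin⟩ := exists_min_image T (fun X => G.val z t X) h1
      have h2 : 3 < G.val z t X0 := by
        rw [hT, mem_filter, mem_powerset] at hX0
        exact hs X0 hX0.1 hX0.2.1 hX0.2.2
      exact ⟨G.val z t X0 - 3, by linarith, fun X hX => by have := hmin X hX; linarith⟩
  -- slack of the positive darts
  obtain ⟨δ2, hδ2, hs2⟩ : ∃ δ : ℝ, 0 < δ ∧ ∀ d ∈ G.ds.filter (fun d => 0 < z d), δ ≤ z d := by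
    obtain ⟨T, hT⟩ : ∃ T, T = G.ds.filter (fun d => 0 < z d) := ⟨_, rfl⟩
    rw [← hT]
    rcases T.eq_empty_or_nonempty with h1 | h1
    · exact ⟨1, one_pos, fun X hX => by rw [h1] at hX; exact absurd hX (notMem_empty _)⟩
    · obtain ⟨X0, hX0, hmin⟩ := exists_min_image T z h1
      have h2 : 0 < z X0 := by
        rw [hT, mem_filter] at hX0
        exact hX0.2
      exact ⟨z X0, h2, hmin⟩
  have ht0y : 0 < t y := lt_of_le_of_ne (hw.t0 y hy) (Ne.symm hty)
  have ht0y' : 0 < t y' := lt_of_le_of_ne (hw.t0 y' hy') (Ne.symm hty')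
  obtain ⟨ε, hε⟩ : ∃ ε : ℝ, ε = min (min δ1 δ2) (min (t y / 2) (t y' / 2)) / A := ⟨_, rfl⟩
  have hA0 : 0 < A := by linarith
  have hε0 : 0 < ε := by
    rw [hε]
    exact div_pos (lt_min (lt_min hδ1 hδ2) (lt_min (by linarith) (by linarith))) hA0
  have hεA : ε * A = min (min δ1 δ2) (min (t y / 2) (t y' / 2)) := by
    rw [hε]
    field_simp
  refine ⟨ε, hε0, fun e he hle => ?_⟩
  have heA : e * A ≤ min (min δ1 δ2) (min (t y / 2) (t y' / 2)) := by
    rw [← hεA]
    exact mul_le_mul_of_nonneg_right hle hA0.le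
  have b1 : e * A ≤ δ1 := heA.trans ((min_le_left _ _).trans (min_le_left _ _))
  have b2 : e * A ≤ δ2 := heA.trans ((min_le_left _ _).trans (min_le_right _ _))
  have b3 : e * A ≤ t y / 2 := heA.trans ((min_le_right _ _).trans (min_le_left _ _))
  have b4 : e * A ≤ t y' / 2 := heA.trans ((min_le_right _ _).trans (min_le_right _ _))
  have b0 : e ≤ e * A := by
    have := mul_le_mul_of_nonneg_left hA1 he.le
    linarith
  have hdeg : ∀ v ∈ G.vs, ∑ d ∈ G.st v, (z d + e * a d) + decTok t y y' e v = 3 := by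
    intro v hv
    have h1 := hw.deg v hv
    unfold decTok
    rw [sum_add_distrib, ← mul_sum, h.deg v hv]
    linarith
  refine ⟨?_, ?_, ?_, hdeg, ?_⟩
  · intro d hd
    have h0 := hw.z0 d hd
    by_cases h1 : d ∈ Ls
    · have h2 := hs2 d (mem_filter.2 ⟨hd, hLz d h1⟩)
      have h3 := hAd d hd
      have h4 : -(e * A) ≤ e * a d := by
        have h5 : -A ≤ a d := by
          have := neg_abs_le (a d)
          linarith
        have := mul_le_mul_of_nonneg_left h5 he.le
        linarith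
      linarith
    · have h2 := mul_nonneg he.le (h.up d h1)
      linarith
  · intro v hv
    have h0 := hw.t0 v hv
    unfold decTok
    by_cases h1 : v = y <;> by_cases h2 : v = y'
    · subst h1; subst h2
      simp only [if_true]
      linarith
    · subst h1
      simp only [if_true, h2, if_false]
      linarith
    · subst h2
      simp only [if_true, h1, if_false]
      linarith
    · simp only [h1, h2, if_false]
      linarith
  · intro d hd
    show z (G.al d) + e * a (G.al d) = z d + e * a d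
    rw [hw.sym d hd, h.sym d hd]
  · intro X hX ho
    by_cases hc : 2 ≤ X.card
    · have h1 := hs1 X (by rw [hT0]; exact mem_filter.2 ⟨mem_powerset.2 hX, ho, hc⟩)
      have h2 : G.val z t X = ∑ d ∈ G.bd X, z d + ∑ v ∈ X, t v := rfl
      have h3 : G.val (fun d => z d + e * a d) (decTok t y y' e) X =
          G.val z t X + e * (∑ d ∈ G.bd X, a d -
            ∑ v ∈ X, ((if v = y then (1 : ℝ) else 0) + if v = y' then 1 else 0)) := by
        unfold val decTok
        rw [sum_add_distrib, ← mul_sum, sum_sub_distrib, ← mul_sum]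
        ring
      rw [h3]
      have h4 : -(∑ d ∈ G.ds, |a d|) ≤ ∑ d ∈ G.bd X, a d := by
        have h5 : ∑ d ∈ G.bd X, |a d| ≤ ∑ d ∈ G.ds, |a d| :=
          sum_le_sum_of_subset_of_nonneg (fun d hd => (mem_bd.1 hd).1) fun d _ _ => abs_nonneg _
        have h6 : -∑ d ∈ G.bd X, |a d| ≤ ∑ d ∈ G.bd X, a d := by
          rw [← sum_neg_distrib]
          exact sum_le_sum fun d _ => neg_abs_le _
        linarith
      have h5 : ∑ v ∈ X, ((if v = y then (1 : ℝ) else 0) + if v = y' then 1 else 0) ≤ 2 := by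
        rw [sum_add_distrib, sum_ite_eq' X y fun _ => (1 : ℝ),
          sum_ite_eq' X y' fun _ => (1 : ℝ)]
        split_ifs <;> norm_num
      have h6 : -(e * A) ≤ e * (∑ d ∈ G.bd X, a d -
          ∑ v ∈ X, ((if v = y then (1 : ℝ) else 0) + if v = y' then 1 else 0)) := by
        have h7 : -A ≤ ∑ d ∈ G.bd X, a d -
            ∑ v ∈ X, ((if v = y then (1 : ℝ) else 0) + if v = y' then 1 else 0) := by linarith
        have := mul_le_mul_of_nonneg_left h7 he.le
        linarith
      linarith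
    · have h1 : X.card = 1 := by
        obtain ⟨k, hk⟩ := ho
        omega
      obtain ⟨v, rfl⟩ := card_eq_one.1 h1
      have hv : v ∈ G.vs := hX (mem_singleton_self v)
      have h2 : G.bd {v} = G.st v := by
        ext d
        rw [mem_bd, mem_st, mem_singleton, mem_singleton]
        constructor
        · exact fun k => ⟨k.1, k.2.1⟩
        · exact fun k => ⟨k.1, k.2, fun k' => G.noloop d k.1 (k'.trans k.2.symm)⟩
      unfold val
      rw [h2, sum_singleton, hdeg v hv]

end MG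

end RH
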