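import Pool.Agent.Lib.RH.GluS

/-! GLUING FOR ANY POSITION OF THE STAR. `GHalf.glueA`: two halves with the same pattern, no closed
union joins unused exits; the star may be split (parity). `LkS`: exclusion of a pair of specials
(unused exits, star vertices). `X6.no_glueT`: the inner half has to exclude one pair only. -/

set_option autoImplicit false

namespace RH

open Finset Classical

namespace MG

variable {V D : Type*} {G : MG V D} {z : D → ℝ} {t : V → ℝ}
variable {fr : Finset V} {F M M1 M2 T : Finset D} {jm A W X Y Y' S : Finset V}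

/-- **GLUING**, any position of the star -/
theorem GHalf.glueA (hF : G.FrS z fr F jm) (hj2 : jm = ∅ ∨ jm.card = 2) {y : D → ℝ}
    (h1 : G.GHalf y fr F jm A M1) (h2 : G.GHalf y fr F jm (G.vs \ A) M2)
    (hx : ∀ d ∈ G.bd A, d ∈ M1 ↔ G.al d ∈ M2)
    (hFA : ∀ d ∈ F, G.pi d ∈ A → G.pi (G.al d) ∈ A)
    (hl : ∀ X, G.Adm fr F X → (∀ d ∈ G.bd X, d ∈ M1 ∪ M2) → G.uX F (M1 ∪ M2) X A = ∅) :
    G.GoodS y fr F jm (M1 ∪ M2) := by
  by_cases hjm : jm ⊆ A ∨ Disjoint jm A
  · exact GHalf.glue hF h1 h2 hx hFA hjm hl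
  · rw [not_or] at hjm
    have hpm := HM.glue h1.hm h2.hm hx
    refine ⟨hpm, ?_, ?_⟩
    · intro d hd
      rcases mem_union.1 hd with h3 | h3
      · exact h1.pos d h3
      · exact h2.pos d h3
    · intro X hX ho
      by_contra hcon
      push Not at hcon
      obtain ⟨⟨a1, a2⟩, b1, b2⟩ := Adm.split hF hpm hX hcon hFA (hl X hX hcon)
      have c1 : ∀ d ∈ G.bd (X ∩ A), d ∈ M1 := by
        intro d hd
        rcases mem_union.1 (a2 d hd) with h3 | h3
        · exact h3
        · exact absurd (mem_inter.1 (mem_bd.1 hd).2.1).2 (mem_sdiff.1 (h2.hm.sub d h3).2).2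
      have c2 : ∀ d ∈ G.bd (X \ A), d ∈ M2 := by
        intro d hd
        rcases mem_union.1 (b2 d hd) with h3 | h3
        · exact absurd (h1.hm.sub d h3).2 (mem_sdiff.1 (mem_bd.1 hd).2.1).2
        · exact h3
      have e1 := (h1.ok _ a1 inter_subset_right c1).1
      have e2 := (h2.ok _ b1 (sdiff_subset_sdiff (hX.sub.trans hF.fsub) Subset.rfl) c2).1
      rcases ho with ho | ⟨hn, hs⟩
      · have h3 := card_inter_add_card_sdiff X A
        rw [Nat.even_iff] at e1 e2
        rw [Nat.odd_iff] at ho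
        omega
      · have h3 := h1.hm.unused hF a1 inter_subset_right
        have h4 : (G.bd (X ∩ A)).filter (fun d => d ∉ M1) = ∅ :=
          filter_eq_empty_iff.2 fun d hd hn => hn (c1 d hd)
        have h5 : X ∩ A ∩ jm = jm ∩ A := by
          ext v
          rw [mem_inter, mem_inter, mem_inter]
          exact ⟨fun h => ⟨h.2, h.1.2⟩, fun h => ⟨⟨hs h.1, h.2⟩, h.1⟩⟩
        rw [h4, card_empty, h5] at h3
        rcases hj2 with h6 | h6
        · rw [h6] at hn
          exact not_nonempty_empty hn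
        · have h7 : (jm ∩ A).card < 2 := by
            rw [← h6]
            refine card_lt_card ⟨inter_subset_left, fun h => hjm.1 fun v hv => ?_⟩
            exact (mem_inter.1 (h hv)).2
          have h8 : 0 < (jm ∩ A).card := by
            rw [card_pos]
            by_contra h9
            rw [not_nonempty_iff_eq_empty] at h9
            exact hjm.2 (disjoint_iff_inter_eq_empty.2 h9)
          omega

/-- a quasi-closed union on the side `A`: all boundary darts are used or are exits -/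
structure QD (G : MG V D) (fr : Finset V) (F M : Finset D) (A Y : Finset V) : Prop where
  adm : G.Adm fr F Y
  sub : Y ⊆ A
  cl : ∀ d ∈ G.bd Y, d ∉ M → G.pi (G.al d) ∉ A

theorem QD.inter (h1 : G.QD fr F M A Y) (h2 : G.QD fr F M A Y') :
    G.QD fr F M A (Y ∩ Y') where
  adm := h1.adm.inter h2.adm
  sub := inter_subset_left.trans h1.sub
  cl := by
    intro d hd hn
    obtain ⟨k1, k2, k3⟩ := mem_bd.1 hd
    obtain ⟨k4, k5⟩ := mem_inter.1 k2
    by_cases k6 : G.pi (G.al d) ∈ Y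
    · exact h2.cl d (mem_bd.2 ⟨k1, k5, fun k7 => k3 (mem_inter.2 ⟨k6, k7⟩)⟩) hn
    · exact h1.cl d (mem_bd.2 ⟨k1, k4, k6⟩) hn

/-- the unused exits of a union are unused exits of the side -/
theorem QD.sub_exits (h : G.QD fr F M A Y) :
    ((G.bd Y).filter fun d => d ∉ M) ⊆ (G.bd A).filter fun d => d ∉ M := by
  intro d hd
  obtain ⟨h1, h2⟩ := mem_filter.1 hd
  obtain ⟨k1, k2, k3⟩ := mem_bd.1 h1
  exact mem_filter.2 ⟨mem_bd.2 ⟨k1, h.sub k2, h.cl d h1 h2⟩, h2⟩

theorem QD.inter_exits (h1 : G.QD fr F M A Y) (h2 : G.QD fr F M A Y') :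
    (G.bd (Y ∩ Y')).filter (fun d => d ∉ M) =
      (G.bd Y).filter (fun d => d ∉ M) ∩ (G.bd Y').filter (fun d => d ∉ M) := by
  ext d
  rw [mem_inter, mem_filter, mem_filter, mem_filter]
  constructor
  · rintro ⟨k1, k2⟩
    have k3 := (h1.inter h2).cl d k1 k2
    obtain ⟨k4, k5, k6⟩ := mem_bd.1 k1
    obtain ⟨k7, k8⟩ := mem_inter.1 k5
    exact ⟨⟨mem_bd.2 ⟨k4, k7, fun k => k3 (h1.sub k)⟩, k2⟩,
      ⟨mem_bd.2 ⟨k4, k8, fun k => k3 (h2.sub k)⟩, k2⟩⟩
  · rintro ⟨⟨k1, k2⟩, k3, -⟩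
    obtain ⟨k4, k5, k6⟩ := mem_bd.1 k1
    obtain ⟨k7, k8, k9⟩ := mem_bd.1 k3
    exact ⟨mem_bd.2 ⟨k4, mem_inter.2 ⟨k5, k8⟩, fun k => k6 (mem_inter.1 k).1⟩, k2⟩

/-- two different sets of two out of three meet in one element -/
private theorem inter_two {α : Type*} [DecidableEq α] {U P Q : Finset α} (hU : U.card ≤ 3) (hP : P ⊆ U)
    (hQ : Q ⊆ U) (h1 : P.card = 2) (h2 : Q.card = 2) (h3 : (P ∩ Q).card % 2 = 0) : P = Q := by
  have c3 := card_union_add_card_inter P Q
  have c4 : (P ∪ Q).card ≤ 3 := (card_le_card (union_subset hP hQ)).trans hU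
  have c6 := card_le_card (inter_subset_left (s₁ := P) (s₂ := Q))
  have c5 : (P ∩ Q).card = 2 := by omega
  have c7 : P ∩ Q = Q := eq_of_subset_of_card_le inter_subset_right (by omega)
  have c8 : P ∩ Q = P := eq_of_subset_of_card_le inter_subset_left (by omega)
  rw [← c7, c8]

/-- **ONE BAD PAIR OF SPECIALS**: at most three unused exits and star vertices on the side -/
theorem exists_badS (hF : G.FrS z fr F jm) (hM : G.HM A M)
    (h3 : ((G.bd A).filter fun d => d ∉ M).card + (jm ∩ A).card ≤ 3) :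
    (∀ Y, G.QD fr F M A Y → (G.bd Y).filter (fun d => d ∉ M) = ∅) ∨
      ∃ T ⊆ (G.bd A).filter (fun d => d ∉ M), ∃ S ⊆ jm ∩ A, T.Nonempty ∧ T.card + S.card = 2 ∧
        (∀ d ∈ T, G.pi d ∈ fr) ∧
        ∀ Y, G.QD fr F M A Y → (G.bd Y).filter (fun d => d ∉ M) = ∅ ∨
          ((G.bd Y).filter (fun d => d ∉ M) = T ∧ Y ∩ jm = S) := by
  by_cases hc : ∀ Y, G.QD fr F M A Y → (G.bd Y).filter (fun d => d ∉ M) = ∅
  · exact Or.inl hc
  · right
    push Not at hc
    obtain ⟨Y, hY, hne0⟩ := hc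
    obtain ⟨E, hE⟩ : ∃ E : Finset V → Finset D, ∀ Y, E Y = (G.bd Y).filter (fun d => d ∉ M) :=
      ⟨_, fun _ => rfl⟩
    obtain ⟨H, hH⟩ : ∃ H : Finset V → Finset (D ⊕ V), ∀ Y, H Y = (E Y).disjSum (Y ∩ jm) :=
      ⟨_, fun _ => rfl⟩
    have hHc : ∀ Y, (H Y).card = (E Y).card + (Y ∩ jm).card := fun Y => by
      rw [hH, card_disjSum]
    have hev : ∀ Y, G.QD fr F M A Y → (H Y).card % 2 = 0 := by
      intro Y hY
      have h4 := hM.unused hF hY.adm hY.sub
      rw [hHc, hE]
      omega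
    have hsub : ∀ Y, G.QD fr F M A Y →
        H Y ⊆ ((G.bd A).filter fun d => d ∉ M).disjSum (jm ∩ A) := by
      intro Y hY
      rw [hH]
      intro x hx
      rw [mem_disjSum] at hx ⊢
      rcases hx with ⟨a, ha, rfl⟩ | ⟨a, ha, rfl⟩
      · rw [hE] at ha
        exact Or.inl ⟨a, hY.sub_exits ha, rfl⟩
      · exact Or.inr ⟨a, mem_inter.2 ⟨(mem_inter.1 ha).2, hY.sub (mem_inter.1 ha).1⟩, rfl⟩
    have hU : (((G.bd A).filter fun d => d ∉ M).disjSum (jm ∩ A)).card ≤ 3 := by
      rw [card_disjSum]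
      exact h3
    have hcard : ∀ Y, G.QD fr F M A Y → E Y ≠ ∅ → (H Y).card = 2 := by
      intro Y hY hne
      have h4 := hev Y hY
      have h5 := (card_le_card (hsub Y hY)).trans hU
      have h6 : 0 < (E Y).card := card_pos.2 (nonempty_iff_ne_empty.2 hne)
      have h7 := hHc Y
      omega
    have hint : ∀ Y Y', G.QD fr F M A Y → G.QD fr F M A Y' → H (Y ∩ Y') = H Y ∩ H Y' := by
      intro Y Y' hY hY'
      rw [hH, hH, hH, hE, hE, hE, hY.inter_exits hY']
      ext x
      rw [mem_inter, mem_disjSum, mem_disjSum, mem_disjSum]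
      constructor
      · rintro (⟨a, ha, rfl⟩ | ⟨a, ha, rfl⟩)
        · obtain ⟨h4, h5⟩ := mem_inter.1 ha
          exact ⟨Or.inl ⟨a, h4, rfl⟩, Or.inl ⟨a, h5, rfl⟩⟩
        · obtain ⟨h4, h5⟩ := mem_inter.1 ha
          obtain ⟨h6, h7⟩ := mem_inter.1 h4
          exact ⟨Or.inr ⟨a, mem_inter.2 ⟨h6, h5⟩, rfl⟩, Or.inr ⟨a, mem_inter.2 ⟨h7, h5⟩, rfl⟩⟩
      · rintro ⟨⟨a, ha, rfl⟩ | ⟨a, ha, rfl⟩, ⟨a', ha', h6⟩ | ⟨a', ha', h6⟩⟩
        · cases h6
          exact Or.inl ⟨a, mem_inter.2 ⟨ha, ha'⟩, rfl⟩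
        · cases h6
        · cases h6
        · cases h6
          exact Or.inr ⟨a, mem_inter.2 ⟨mem_inter.2 ⟨(mem_inter.1 ha).1, (mem_inter.1 ha').1⟩,
            (mem_inter.1 ha).2⟩, rfl⟩
    have hsame : ∀ Y', G.QD fr F M A Y' → E Y' ≠ ∅ → H Y = H Y' := by
      intro Y' hY' hne'
      refine inter_two hU (hsub Y hY) (hsub Y' hY') (hcard Y hY ?_) (hcard Y' hY' hne') ?_
      · rw [hE]
        exact nonempty_iff_ne_empty.1 hne0
      · rw [← hint Y Y' hY hY']
        exact hev _ (hY.inter hY')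
    refine ⟨E Y, ?_, Y ∩ jm, ?_, ?_, ?_, ?_, ?_⟩
    · rw [hE]
      exact hY.sub_exits
    · exact fun v hv => mem_inter.2 ⟨(mem_inter.1 hv).2, hY.sub (mem_inter.1 hv).1⟩
    · rw [hE]
      exact hne0
    · rw [← hHc]
      exact hcard Y hY (by rw [hE]; exact nonempty_iff_ne_empty.1 hne0)
    · intro d hd
      rw [hE] at hd
      exact hY.adm.sub (mem_bd.1 (mem_filter.1 hd).1).2.1
    · intro Y' hY'
      rw [← hE Y']
      by_cases hne' : E Y' = ∅
      · exact Or.inl hne'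
      · right
        have h4 := hsame Y' hY' hne'
        rw [hH, hH] at h4
        constructor
        · ext d
          have h5 : (Sum.inl d : D ⊕ V) ∈ (E Y).disjSum (Y ∩ jm) ↔
              (Sum.inl d : D ⊕ V) ∈ (E Y').disjSum (Y' ∩ jm) := by rw [h4]
          rw [inl_mem_disjSum, inl_mem_disjSum] at h5
          exact h5.symm
        · ext v
          have h5 : (Sum.inr v : D ⊕ V) ∈ (E Y).disjSum (Y ∩ jm) ↔
              (Sum.inr v : D ⊕ V) ∈ (E Y').disjSum (Y' ∩ jm) := by rw [h4]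
          rw [inr_mem_disjSum, inr_mem_disjSum] at h5
          exact h5.symm

/-- no union of the side `W` which is closed up to the exits of `T` contains all their ends and
the vertices of `S` -/
def LkS (G : MG V D) (fr : Finset V) (F : Finset D) (W : Finset V) (M T : Finset D)
    (S : Finset V) : Prop :=
  ∀ X, G.Adm fr F X → X ⊆ W → (∀ d ∈ G.bd X, d ∈ M ∨ d ∈ T) →
    ¬ ((∀ d ∈ T, G.pi d ∈ X) ∧ S ⊆ X)

theorem Lk.toS (h : G.Lk fr F W M T) : G.LkS fr F W M T S :=
  fun X hX h1 h2 h3 => h X hX h1 h2 h3.1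

theorem LkS.toLk (h : G.LkS fr F W M T ∅) : G.Lk fr F W M T :=
  fun X hX h1 h2 h3 => h X hX h1 h2 ⟨h3, empty_subset _⟩

/-- the pairs of specials which the inner half has to exclude: two exits, or (star split) one exit and
the inner star vertex -/
def Spc (G : MG V D) (fr jm A : Finset V) (T : Finset D) (S : Finset V) : Prop :=
  T ⊆ G.bd A ∧ (∀ d ∈ T, G.pi d ∈ fr) ∧ ((T.card = 2 ∧ S = ∅) ∨
    (T.card = 1 ∧ S = jm \ A ∧ (jm ∩ A).Nonempty ∧ (jm \ A).Nonempty))

/-- **GLUING, ONE PAIR OF SPECIALS** -/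
theorem X6.no_glueT (h : X6 G t fr F jm) {M2 : Finset D}
    (h2 : G.GHalf one1 fr F jm A M2) (h3 : ((G.bd A).filter fun d => d ∉ M2).card ≤ 3)
    (h3' : jm ⊆ A ∨ ((G.bd A).filter fun d => d ∉ M2).card + (jm ∩ A).card ≤ 3)
    (hFA : ∀ d ∈ F, G.pi d ∈ A → G.pi (G.al d) ∈ A)
    (h0 : ∃ M1, G.GHalf one1 fr F jm (G.vs \ A) M1 ∧ ∀ d ∈ G.bd A, d ∈ M2 ↔ G.al d ∈ M1)
    (hT : ∀ T S, G.Spc fr jm A T S → (∀ d ∈ T, d ∉ M2) →
      ∃ M1, G.GHalf one1 fr F jm (G.vs \ A) M1 ∧ (∀ d ∈ G.bd A, d ∈ M2 ↔ G.al d ∈ M1) ∧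
        G.LkS fr F (G.vs \ A) M1 (T.image G.al) S) : False := by
  by_cases hj : jm ⊆ A
  · refine h.no_glueS h2 h3 hFA hj h0 fun T hTs hT2 hTf => ?_
    obtain ⟨M1, k1, k2, k3⟩ := hT T ∅ ⟨hTs.trans (filter_subset _ _), hTf, Or.inl ⟨hT2, rfl⟩⟩
      fun d hd => (mem_filter.1 (hTs hd)).2
    exact ⟨M1, k1, k2, k3.toLk⟩
  · have h3 : ((G.bd A).filter fun d => d ∉ M2).card + (jm ∩ A).card ≤ 3 := by
      rcases h3' with h4 | h4
      · exact absurd h4 hj
      · exact h4
    have hq : ∀ M1, G.GHalf one1 fr F jm (G.vs \ A) M1 → (∀ d ∈ G.bd A, d ∈ M2 ↔ G.al d ∈ M1) →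
        ∀ X, G.Adm fr F X → (∀ d ∈ G.bd X, d ∈ M2 ∪ M1) → G.QD fr F M2 A (X ∩ A) ∧
          (G.bd (X ∩ A)).filter (fun d => d ∉ M2) = G.uX F (M2 ∪ M1) X A := by
      intro M1 h1 hx X hX hcl
      have hone : ∀ d, G.pi d ∈ A → d ∈ M2 ∪ M1 → d ∈ M2 := by
        intro d hd hm
        rcases mem_union.1 hm with hm | hm
        · exact hm
        · exact absurd hd (mem_sdiff.1 (h1.hm.sub d hm).2).2
      refine ⟨⟨hX.interW hFA, inter_subset_right, ?_⟩, ?_⟩
      · intro d hd hn hA'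
        obtain ⟨k1, k2, k3⟩ := mem_bd.1 hd
        obtain ⟨k4, k5⟩ := mem_inter.1 k2
        have k6 : G.pi (G.al d) ∉ X := fun k => k3 (mem_inter.2 ⟨k, hA'⟩)
        exact hn (hone d k5 (hcl d (mem_bd.2 ⟨k1, k4, k6⟩)))
      · ext d
        rw [mem_filter, mem_uX, mem_bd, mem_inter]
        constructor
        · rintro ⟨⟨k1, ⟨k2, k3⟩, k4⟩, k5⟩
          have k6 : d ∉ M2 ∪ M1 := fun k => k5 (hone d k3 k)
          have k7 : G.pi (G.al d) ∈ X := by
            by_contra k7
            exact k6 (hcl d (mem_bd.2 ⟨k1, k2, k7⟩))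
          have k8 : G.pi (G.al d) ∉ A := fun k => k4 (mem_inter.2 ⟨k7, k⟩)
          exact ⟨k1, fun k => k8 (hFA d k k3), k6, k2, k7, k3, k8⟩
        · rintro ⟨k1, k2, k3, k4, k5, k6, k7⟩
          exact ⟨⟨k1, ⟨k4, k6⟩, fun k => k7 (mem_inter.1 k).2⟩,
            fun k => k3 (mem_union_left _ k)⟩
    have hp : ∀ M1, G.GHalf one1 fr F jm (G.vs \ A) M1 → (∀ d ∈ G.bd A, d ∈ M2 ↔ G.al d ∈ M1) →
        (∀ X, G.Adm fr F X → (∀ d ∈ G.bd X, d ∈ M2 ∪ M1) → G.uX F (M2 ∪ M1) X A = ∅) → False :=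
      fun M1 h1 hx h0 => h.bad ⟨_, GHalf.glueA h.fresh h.jm2 h2 h1 hx hFA h0⟩
    rcases exists_badS h.fresh h2.hm h3 with hb | ⟨T, hTs, S, hS, hTn, hTS, hTf, hb⟩
    · obtain ⟨M1, h1, hx⟩ := h0
      refine hp M1 h1 hx fun X hX hcl => ?_
      obtain ⟨q1, q2⟩ := hq M1 h1 hx X hX hcl
      rw [← q2]
      exact hb _ q1
    · -- the pair on the inner side
      have hjc : (jm ∩ A).card ≤ 1 := by
        rcases h.jm2 with h4 | h4
        · rw [h4, empty_inter, card_empty]
          exact Nat.zero_le _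
        · have h5 : (jm ∩ A).card < jm.card := by
            refine card_lt_card ⟨inter_subset_left, fun h => hj fun v hv => ?_⟩
            exact (mem_inter.1 (h hv)).2
          omega
      obtain ⟨S', hS', hspc⟩ : ∃ S', (∀ X : Finset V, (X ∩ A ∩ jm = S) →
          ((X ∩ jm).card = 0 ∨ jm ⊆ X) → S' ⊆ X \ A) ∧ G.Spc fr jm A T S' := by
        by_cases hS0 : S = ∅
        · refine ⟨∅, fun X _ _ => empty_subset _, hTs.trans (filter_subset _ _), hTf,
            Or.inl ⟨?_, rfl⟩⟩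
          rw [hS0, card_empty] at hTS
          omega
        · have hSn := nonempty_iff_ne_empty.2 hS0
          have hS1 : S.card = 1 := by
            have h5 := card_pos.2 hSn
            have h6 := card_le_card hS
            omega
          refine ⟨jm \ A, fun X hX h4 => ?_, hTs.trans (filter_subset _ _), hTf,
            Or.inr ⟨by omega, rfl, hSn.mono hS, ?_⟩⟩
          · obtain ⟨v, hv⟩ := hSn
            rw [← hX] at hv
            obtain ⟨k1, k2⟩ := mem_inter.1 hv
            have h5 : jm ⊆ X := by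
              rcases h4 with h5 | h5
              · rw [card_eq_zero] at h5
                have h6 : v ∈ X ∩ jm := mem_inter.2 ⟨(mem_inter.1 k1).1, k2⟩
                rw [h5] at h6
                exact absurd h6 (notMem_empty v)
              · exact h5
            exact sdiff_subset_sdiff h5 Subset.rfl
          · by_contra h5
            rw [not_nonempty_iff_eq_empty, sdiff_eq_empty_iff_subset] at h5
            exact hj h5
      obtain ⟨M1, h1, hx, hl⟩ := hT T S' hspc fun d hd => (mem_filter.1 (hTs hd)).2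
      refine hp M1 h1 hx fun X hX hcl => ?_
      obtain ⟨q1, q2⟩ := hq M1 h1 hx X hX hcl
      rw [← q2]
      rcases hb _ q1 with h4 | ⟨h4, h5⟩
      · exact h4
      · exfalso
        rw [q2] at h4
        have hpm := HM.glue h2.hm h1.hm hx
        have h6 := h.fresh.closed_jm hpm hX hcl
        have h7 : (X ∩ jm).card = 0 ∨ jm ⊆ X := by
          rcases h.jm2 with h8 | h8
          · left
            rw [h8, inter_empty, card_empty]
          · have h9 : (X ∩ jm).card ≤ 2 := (card_le_card inter_subset_right).trans h8.le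
            rw [Nat.even_iff] at h6
            by_cases h10 : (X ∩ jm).card = 0
            · exact Or.inl h10
            · right
              have h11 : X ∩ jm = jm := eq_of_subset_of_card_le inter_subset_right (by omega)
              rw [← h11]
              exact inter_subset_left
        refine hl (X \ A) (hX.sdiffW h.fresh hFA) (fun v hv => ?_) ?_ ⟨?_, hS' X h5 h7⟩
        · exact mem_sdiff.2 ⟨h.fresh.fsub (hX.sub (mem_sdiff.1 hv).1), (mem_sdiff.1 hv).2⟩
        · intro d hd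
          obtain ⟨k1, k2, k3⟩ := mem_bd.1 hd
          obtain ⟨k4, k5⟩ := mem_sdiff.1 k2
          by_cases k6 : d ∈ M2 ∪ M1
          · rcases mem_union.1 k6 with k7 | k7
            · exact absurd (h2.hm.sub d k7).2 k5
            · exact Or.inl k7
          · right
            have k7 : G.pi (G.al d) ∈ X := by
              by_contra k7
              exact k6 (hcl d (mem_bd.2 ⟨k1, k4, k7⟩))
            have k8 : G.pi (G.al d) ∈ A := by
              by_contra k8
              exact k3 (mem_sdiff.2 ⟨k7, k8⟩)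
            have k9 : G.al d ∈ T := by
              rw [← h4, mem_uX, G.al_al d k1]
              refine ⟨G.al_mem d k1, fun k => ?_, fun k => ?_, k7, k4, k8, k5⟩
              · have := hFA _ k k8
                rw [G.al_al d k1] at this
                exact k5 this
              · have := hpm.closed _ k
                rw [G.al_al d k1] at this
                exact k6 this
            exact mem_image.2 ⟨G.al d, k9, G.al_al d k1⟩
        · intro d hd
          obtain ⟨e, he, rfl⟩ := mem_image.1 hd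
          rw [← h4] at he
          obtain ⟨k1, k2, k3, k4, k5, k6, k7⟩ := mem_uX.1 he
          exact mem_sdiff.2 ⟨k5, k7⟩

end MG

end RH
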