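import Pool.Agent.Lib.RH.CE6EvenA
import Pool.Agent.Lib.RH.GluT

/-! # A vertex with two tokens is attached to the circuits

`X6.no_beta`: the neighbour of a vertex with two tokens is fresh (otherwise the forced edge is
removed: pure restriction with 4 or 6 tokens). -/

set_option autoImplicit false

namespace RH

open Finset Classical

namespace MG

variable {V D : Type*} {G : MG V D} {t : V → ℝ} {fr : Finset V} {F : Finset D}
variable {jm : Finset V} {d : D}

/-- **two tokens**: the neighbour is fresh -/
theorem X6.no_beta (h : X6 G t fr F jm) (hd : d ∈ G.ds) (ht : t (G.pi d) = 2)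
    (hun : ∀ e ∈ G.ds, G.pi e = G.pi d → e = d) : G.pi (G.al d) ∈ fr := by
  by_contra hcf
  have hE := h.toEK
  obtain ⟨o, ho⟩ : ∃ o, o = G.pi d := ⟨_, rfl⟩
  obtain ⟨c, hc⟩ : ∃ c, c = G.pi (G.al d) := ⟨_, rfl⟩
  have hov : o ∈ G.vs := by rw [ho]; exact G.pi_mem d hd
  have hcv : c ∈ G.vs := by rw [hc]; exact G.pi_mem _ (G.al_mem d hd)
  have hoc : o ≠ c := fun k => G.noloop d hd (by rw [← ho, k, hc])
  have hof : o ∉ fr := by
    intro k
    have h1 := hE.tok_fr k
    rw [ho, ht] at h1
    split_ifs at h1 <;> norm_num at h1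
  have hcf' : c ∉ fr := by rw [hc]; exact hcf
  obtain ⟨B, hB⟩ : ∃ B : Finset V, B = {o, c} := ⟨_, rfl⟩
  have hBc : B.card = 2 := by rw [hB]; exact card_pair hoc
  have hBv : B ⊆ G.vs := by
    rw [hB]
    intro v hv
    rw [mem_insert, mem_singleton] at hv
    rcases hv with rfl | rfl
    · exact hov
    · exact hcv
  have hBf : ∀ v ∈ B, v ∉ fr := by
    intro v hv
    rw [hB, mem_insert, mem_singleton] at hv
    rcases hv with rfl | rfl
    · exact hof
    · exact hcf'
  obtain ⟨A, hA⟩ : ∃ A : Finset V, A = G.vs \ B := ⟨_, rfl⟩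
  have hAv : A ⊆ G.vs := by rw [hA]; exact sdiff_subset
  have hAB : G.vs \ A = B := by rw [hA]; exact Finset.sdiff_sdiff_eq_self hBv
  have hAc : A.card + 2 = G.vs.card := by
    rw [hA, ← hBc]
    exact card_sdiff_add_card_eq_card hBv
  have hAe : Even A.card := by
    have h1 := Nat.even_iff.1 h.even
    rw [Nat.even_iff]
    omega
  have hfA : fr ⊆ A := fun v hv => by
    rw [hA]
    exact mem_sdiff.2 ⟨h.fresh.fsub hv, fun k => hBf v k hv⟩
  have hFA : ∀ e ∈ F, G.pi e ∈ A → G.pi (G.al e) ∈ A := fun e he _ =>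
    hfA (h.fresh.Ffr _ (h.fresh.Fal e he))
  have hjA : jm ⊆ A := h.fresh.jms.trans hfA
  -- inner darts of B
  have hdB : ∀ e ∈ G.ds, G.pi e ∈ B → G.pi (G.al e) ∈ B → e = d ∨ e = G.al d := by
    intro e he h1 h2
    rw [hB, mem_insert, mem_singleton] at h1 h2
    rcases h1 with h1 | h1
    · exact Or.inl (hun e he (h1.trans ho))
    · rcases h2 with h2 | h2
      · right
        have h3 := hun _ (G.al_mem e he) (h2.trans ho)
        rw [← h3, G.al_al e he]
      · exact absurd (h2.trans h1.symm) (G.noloop e he)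
  have hedB : (G.ed B B).card = 2 := by
    have h1 : G.ed B B = {d, G.al d} := by
      ext e
      rw [mem_ed, mem_insert, mem_singleton]
      constructor
      · rintro ⟨k1, k2, k3⟩
        exact hdB e k1 k2 k3
      · have k1 : G.pi d ∈ B := by rw [hB, ← ho]; exact mem_insert_self _ _
        have k2 : G.pi (G.al d) ∈ B := by
          rw [hB, ← hc]
          exact mem_insert_of_mem (mem_singleton_self _)
        rintro (rfl | rfl)
        · exact ⟨hd, k1, k2⟩
        · exact ⟨G.al_mem d hd, k2, by rw [G.al_al d hd]; exact k1⟩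
    rw [h1]
    refine card_pair fun k => hoc ?_
    rw [ho, hc, ← k]
  have hvB : G.val one1 t B = 4 := by
    rw [hE.val_eq hBv, hBc, hedB]
    norm_num
  have htB : ∑ v ∈ B, t v = 2 + t c := by
    rw [hB, sum_pair hoc, ho, ht]
  have hvA : G.val one1 t A = 6 - 2 * t c := by
    rw [hA, hE.val_compl hBv, hvB, htB]
    ring
  -- the half of B
  have hH : G.GHalf one1 fr F jm (G.vs \ A) {d, G.al d} := by
    rw [hAB]
    have k1 : G.pi d ∈ B := by rw [hB, ← ho]; exact mem_insert_self _ _
    have k2 : G.pi (G.al d) ∈ B := by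
      rw [hB, ← hc]
      exact mem_insert_of_mem (mem_singleton_self _)
    refine ⟨⟨?_, ?_, ?_⟩, fun _ _ => one_pos, ?_⟩
    · intro e he
      rw [mem_insert, mem_singleton] at he
      rcases he with rfl | rfl
      · exact ⟨hd, k1⟩
      · exact ⟨G.al_mem d hd, k2⟩
    · intro e he _
      rw [mem_insert, mem_singleton] at he ⊢
      rcases he with rfl | rfl
      · exact Or.inr rfl
      · exact Or.inl (G.al_al d hd)
    · intro v hv
      rw [hB, mem_insert, mem_singleton] at hv
      rcases hv with rfl | rfl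
      · rw [card_eq_one]
        refine ⟨d, ?_⟩
        ext e
        rw [mem_filter, mem_insert, mem_singleton, mem_singleton]
        constructor
        · rintro ⟨rfl | rfl, k3⟩
          · rfl
          · exact absurd (k3.symm.trans hc.symm) hoc
        · rintro rfl
          exact ⟨Or.inl rfl, ho.symm⟩
      · rw [card_eq_one]
        refine ⟨G.al d, ?_⟩
        ext e
        rw [mem_filter, mem_insert, mem_singleton]
        constructor
        · rintro ⟨rfl | rfl, k3⟩
          · exact absurd (ho.trans k3) hoc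
          · rfl
        · rintro rfl
          exact ⟨Or.inr rfl, hc.symm⟩
    · intro X hX hXB _
      have h1 : X = ∅ := by
        rw [eq_empty_iff_forall_notMem]
        exact fun v hv => hBf v (hXB hv) (hX.sub hv)
      rw [h1]
      refine ⟨⟨0, by simp⟩, ?_⟩
      rintro ⟨⟨v, hv⟩, k3⟩
      exact notMem_empty v (k3 hv)
  have hglue : ∀ M : Finset D, G.GHalf one1 fr F jm A M → (∀ e ∈ G.bd A, e ∉ M) → False := by
    intro M h1 h2
    refine h.bad ⟨_, GHalf.glueA h.fresh h.jm2 h1 hH ?_ hFA ?_⟩
    · intro e he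
      refine ⟨fun k => absurd k (h2 e he), fun k => ?_⟩
      exfalso
      obtain ⟨k1, k2, k3⟩ := mem_bd.1 he
      rw [mem_insert, mem_singleton] at k
      have k4 : G.pi e ∉ B := fun k4 => by
        rw [hA] at k2
        exact (mem_sdiff.1 k2).2 k4
      apply k4
      rw [hB, mem_insert, mem_singleton]
      rcases k with k | k
      · right
        rw [← G.al_al e k1, k, hc]
      · left
        rw [← G.al_al e k1, k, G.al_al d hd, ho]
    · intro X hX _
      rw [eq_empty_iff_forall_notMem]
      intro e he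
      obtain ⟨k1, k2, k3, k4, k5, k6, k7⟩ := mem_uX.1 he
      refine hBf (G.pi (G.al e)) ?_ (hX.sub k5)
      rw [← hAB]
      exact mem_sdiff.2 ⟨G.pi_mem _ (G.al_mem e k1), k7⟩
  -- tokens of c
  obtain ⟨n, hn, hns⟩ := hE.tnat hcv
  have hstc : 1 ≤ (G.st c).card :=
    card_pos.2 ⟨G.al d, mem_st.2 ⟨G.al_mem d hd, hc.symm⟩⟩
  have hlt : A.card < G.vs.card := by omega
  have hn2 : n = 0 ∨ n = 1 ∨ n = 2 := by omega
  rcases hn2 with rfl | rfl | rfl
  · have h6 : G.val one1 t A = 6 := by
      rw [hvA, hn]
      norm_num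
    rcases h.res6 (T := jm) hAv hAe hlt hFA h6 h.jm2 (fun _ _ => rfl)
      (fun v hv hvj => absurd hv hvj) with ⟨M, k1, k2, -⟩ | ⟨p, k1, k2⟩
    · exact hglue M k1 k2
    · refine h.nc ⟨_, HPot.join (q := fun v => if v = c then -1 else 1) k1 ?_
        (fun _ _ => rfl) h.fresh.Fsub h.fresh.Fal ?_ ?_⟩
      · rw [hAB]
        refine ⟨fun v hv htv => ?_, ?_, ?_⟩
        · have k3 : v ≠ c := by
            rintro rfl
            rw [hn] at htv
            exact htv (by norm_num)
          rw [if_neg k3]
        · intro e he k3 k4 _ _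
          rcases hdB e he k3 k4 with rfl | rfl
          · rw [← ho, ← hc, if_neg hoc, if_pos rfl]
            norm_num
          · rw [G.al_al d hd, ← ho, ← hc, if_neg hoc, if_pos rfl]
            norm_num
        · intro e he k3 _
          exact absurd (h.fresh.Ffr e he) (hBf _ k3)
      · intro e he _ _
        obtain ⟨k3, k4, k5⟩ := mem_bd.1 he
        have k6 : G.pi (G.al e) = c := by
          have k7 : G.pi (G.al e) ∈ B := by
            rw [← hAB]
            exact mem_sdiff.2 ⟨G.pi_mem _ (G.al_mem e k3), k5⟩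
          rw [hB, mem_insert, mem_singleton] at k7
          rcases k7 with k7 | k7
          · exfalso
            have k8 := hun _ (G.al_mem e k3) (k7.trans ho)
            have k9 : e = G.al d := by rw [← k8, G.al_al e k3]
            rw [k9, ← hc, hA] at k4
            refine (mem_sdiff.1 k4).2 ?_
            rw [hB]
            exact mem_insert_of_mem (mem_singleton_self _)
          · exact k7
        rw [k2 e he, k6, if_pos rfl]
        norm_num
      · intro e he heF
        exact absurd (hFA e heF (mem_bd.1 he).2.1) (mem_bd.1 he).2.2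
  · have h4 : G.val one1 t A = 4 := by
      rw [hvA, hn]
      norm_num
    obtain ⟨M, k1, k2, -⟩ := h.res0 (T := jm) hAv hAe hlt hFA h4 h.jm2 (fun _ _ => rfl)
      (fun v hv hvj => absurd hv hvj)
    exact hglue M k1 k2
  · have h2 : G.val one1 t A = 2 := by
      rw [hvA, hn]
      norm_num
    have h3 : A.Nonempty := by
      rw [nonempty_iff_ne_empty]
      intro k
      rw [k, card_empty] at hAc
      have h5 : G.vs = B := (eq_of_subset_of_card_le hBv (by omega)).symm
      have h6 := h.tau
      rw [h5, htB, hn] at h6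
      norm_num at h6
    have h5 := hE.evn A hAv hAe h3 (fun k => by rw [k] at hlt; omega)
    rw [h2] at h5
    norm_num at h5

end MG

end RH
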