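import Pool.Agent.Lib.RH.MC
import Pool.Agent.Lib.RH.Base
import Pool.Agent.Lib.RH.Res

/-! 2-poles (helper42 (P2), helper93 (F5)): an even set `T` of vertices outside `fr` without tokens whose
only boundary edges of positive weight are two edges of weight 1 is replaced by one edge: the two outer
darts `a`, `b` become an edge. -/

set_option autoImplicit false

namespace RH

open Finset Classical

namespace MG

variable {V D : Type*}

/-- a 2-pole; `a`, `b` are the outer darts of its two edges -/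
structure Pole (G : MG V D) (z : D → ℝ) (t : V → ℝ) (fr T : Finset V) (a b : D) : Prop where
  sub : T ⊆ G.vs
  even : Even T.card
  dis : Disjoint T fr
  tok : ∀ v ∈ T, t v = 0
  ad : a ∈ G.ds
  bd : b ∈ G.ds
  aT : G.pi a ∉ T
  bT : G.pi b ∉ T
  aT' : G.pi (G.al a) ∈ T
  bT' : G.pi (G.al b) ∈ T
  ne : a ≠ b
  za : z a = 1
  zb : z b = 1
  out : ∀ d ∈ G.ds, G.pi d ∉ T → G.pi (G.al d) ∈ T → d ≠ a → d ≠ b → z d = 0

/-- what is needed to join two darts -/
structure PL (G : MG V D) (T : Finset V) (a b : D) : Prop where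
  ad : a ∈ G.ds
  bd : b ∈ G.ds
  aT : G.pi a ∉ T
  bT : G.pi b ∉ T
  aT' : G.pi (G.al a) ∈ T
  bT' : G.pi (G.al b) ∈ T
  nab : G.pi a ≠ G.pi b

/-- the graph after replacing the 2-pole by an edge -/
noncomputable def pole (G : MG V D) {T : Finset V} {a b : D} (q : G.PL T a b) : MG V D where
  vs := G.vs \ T
  ds := G.ds.filter fun d => G.pi d ∉ T ∧ (d = a ∨ d = b ∨ G.pi (G.al d) ∉ T)
  pi := G.pi
  al := fun d => if d = a then b else if d = b then a else G.al d
  pi_mem := by
    intro d hd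
    obtain ⟨h1, h2, -⟩ := mem_filter.1 hd
    exact mem_sdiff.2 ⟨G.pi_mem d h1, h2⟩
  al_mem := by
    intro d hd
    obtain ⟨h1, h2, h3⟩ := mem_filter.1 hd
    by_cases ea : d = a
    · simp only [if_pos ea]
      exact mem_filter.2 ⟨q.bd, q.bT, Or.inr (Or.inl rfl)⟩
    · by_cases eb : d = b
      · simp only [if_neg ea, if_pos eb]
        exact mem_filter.2 ⟨q.ad, q.aT, Or.inl rfl⟩
      · simp only [if_neg ea, if_neg eb]
        have h4 : G.pi (G.al d) ∉ T := by
          rcases h3 with h3 | h3 | h3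
          · exact absurd h3 ea
          · exact absurd h3 eb
          · exact h3
        refine mem_filter.2 ⟨G.al_mem d h1, h4, Or.inr (Or.inr ?_)⟩
        rw [G.al_al d h1]
        exact h2
  al_al := by
    intro d hd
    obtain ⟨h1, h2, h3⟩ := mem_filter.1 hd
    have hne : a ≠ b := fun h => q.nab (by rw [h])
    by_cases ea : d = a
    · simp only [if_pos ea, if_neg hne.symm, if_true]
      exact ea.symm
    · by_cases eb : d = b
      · simp only [if_neg ea, if_pos eb, if_true]
        exact eb.symm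
      · have e1 : G.al d ≠ a := by
          intro h
          apply h2
          rw [← G.al_al d h1, h]
          exact q.aT'
        have e2 : G.al d ≠ b := by
          intro h
          apply h2
          rw [← G.al_al d h1, h]
          exact q.bT'
        simp only [if_neg ea, if_neg eb, if_neg e1, if_neg e2]
        exact G.al_al d h1
  noloop := by
    intro d hd
    obtain ⟨h1, h2, h3⟩ := mem_filter.1 hd
    by_cases ea : d = a
    · simp only [if_pos ea]
      rw [ea]
      exact q.nab.symm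
    · by_cases eb : d = b
      · simp only [if_neg ea, if_pos eb]
        rw [eb]
        exact q.nab
      · simp only [if_neg ea, if_neg eb]
        exact G.noloop d h1

variable {G : MG V D} {z : D → ℝ} {t : V → ℝ} {fr : Finset V} {F : Finset D}
variable {jm sx : Finset V} {ep : V → ℕ} {m : ℕ} {M : Finset D} {T : Finset V} {a b : D}

/-- the value after erasing a vertex -/
theorem Wt.val_erase (hw : G.Wt z t) {X : Finset V} (hX : X ⊆ G.vs) {w : V} (hwX : w ∈ X) :
    G.val z t (X.erase w) = G.val z t X + 3 - 2 * ∑ d ∈ G.ed {w} (G.vs \ X), z d - 2 * t w := by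
  have h1 := hw.posimod hX (singleton_subset_iff.2 (hX hwX))
  have h2 : X ∩ {w} = {w} := inter_eq_right.2 (singleton_subset_iff.2 hwX)
  have h3 : X ∪ {w} = X := union_eq_left.2 (singleton_subset_iff.2 hwX)
  have h4 : ({w} : Finset V) \ X = ∅ := sdiff_eq_empty_iff_subset.2 (singleton_subset_iff.2 hwX)
  have h5 : X \ {w} = X.erase w := sdiff_singleton_eq_erase w X
  rw [h2, h3, h4, h5, hw.val_single (hX hwX), sum_singleton] at h1
  have h6 : G.val z t ∅ = 0 := by
    unfold val
    have : G.bd ∅ = ∅ := by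
      rw [eq_empty_iff_forall_notMem]
      intro d hd
      exact absurd (mem_bd.1 hd).2.1 (notMem_empty _)
    rw [this, sum_empty, sum_empty, add_zero]
  rw [h6] at h1
  linarith

/-- the weight of the boundary of a 2-pole -/
theorem Pole.val (p : G.Pole z t fr T a b) (hw : G.Wt z t) : G.val z t T = 2 := by
  have hal : ∀ d ∈ G.ds, ∀ d' ∈ G.ds, G.al d = G.al d' → d = d' := by
    intro d hd d' hd' h
    rw [← G.al_al d hd, h, G.al_al d' hd']
  unfold MG.val
  rw [sum_eq_zero p.tok, add_zero]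
  have h1 : ({G.al a, G.al b} : Finset D) ⊆ G.bd T := by
    intro d hd
    rw [mem_insert, mem_singleton] at hd
    rcases hd with rfl | rfl
    · exact mem_bd.2 ⟨G.al_mem _ p.ad, p.aT', by rw [G.al_al _ p.ad]; exact p.aT⟩
    · exact mem_bd.2 ⟨G.al_mem _ p.bd, p.bT', by rw [G.al_al _ p.bd]; exact p.bT⟩
  rw [← sum_subset h1]
  · rw [sum_pair (fun h => p.ne (hal _ p.ad _ p.bd h)), hw.sym a p.ad, hw.sym b p.bd, p.za, p.zb]
    norm_num
  · intro d hd hn
    obtain ⟨h2, h3, h4⟩ := mem_bd.1 hd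
    rw [mem_insert, mem_singleton, not_or] at hn
    rw [← hw.sym d h2]
    refine p.out _ (G.al_mem d h2) h4 (by rw [G.al_al d h2]; exact h3) ?_ ?_
    · intro h
      apply hn.1
      rw [← h, G.al_al d h2]
    · intro h
      apply hn.2
      rw [← h, G.al_al d h2]

/-- a set together with the 2-pole -/
theorem Pole.val_union (p : G.Pole z t fr T a b) (hw : G.Wt z t) {S : Finset V}
    (hd : Disjoint S T) (ha : G.pi a ∈ S) (hb : G.pi b ∈ S) :
    G.val z t (S ∪ T) = G.val z t S - 2 := by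
  unfold MG.val
  rw [sum_union hd, sum_eq_zero p.tok, add_zero]
  have h1 : ∑ d ∈ G.bd (S ∪ T), z d = ∑ d ∈ (G.bd S).filter (fun d => G.pi (G.al d) ∉ T), z d := by
    refine (sum_subset ?_ ?_).symm
    · intro d hd1
      obtain ⟨h2, h3⟩ := mem_filter.1 hd1
      obtain ⟨h4, h5, h6⟩ := mem_bd.1 h2
      refine mem_bd.2 ⟨h4, mem_union_left _ h5, fun h7 => ?_⟩
      rcases mem_union.1 h7 with h8 | h8
      · exact h6 h8
      · exact h3 h8
    · intro d hd1 hn
      obtain ⟨h4, h5, h6⟩ := mem_bd.1 hd1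
      rw [mem_union, not_or] at h6
      rcases mem_union.1 h5 with h7 | h7
      · exact absurd (mem_filter.2 ⟨mem_bd.2 ⟨h4, h7, h6.1⟩, h6.2⟩) hn
      · rw [← hw.sym d h4]
        refine p.out _ (G.al_mem d h4) h6.2 (by rw [G.al_al d h4]; exact h7) ?_ ?_
        · intro h
          exact h6.1 (h ▸ ha)
        · intro h
          exact h6.1 (h ▸ hb)
  have h2 : ∑ d ∈ (G.bd S).filter (fun d => ¬ G.pi (G.al d) ∉ T), z d = 2 := by
    have h3 : ({a, b} : Finset D) ⊆ (G.bd S).filter (fun d => ¬ G.pi (G.al d) ∉ T) := by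
      intro d hd1
      rw [mem_insert, mem_singleton] at hd1
      rcases hd1 with rfl | rfl
      · exact mem_filter.2 ⟨mem_bd.2 ⟨p.ad, ha, fun h => disjoint_left.1 hd h p.aT'⟩,
          not_not.2 p.aT'⟩
      · exact mem_filter.2 ⟨mem_bd.2 ⟨p.bd, hb, fun h => disjoint_left.1 hd h p.bT'⟩,
          not_not.2 p.bT'⟩
    rw [← sum_subset h3, sum_pair p.ne, p.za, p.zb]
    · norm_num
    · intro d hd1 hn
      obtain ⟨h4, h5⟩ := mem_filter.1 hd1
      rw [mem_insert, mem_singleton, not_or] at hn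
      obtain ⟨h6, h7, -⟩ := mem_bd.1 h4
      exact p.out d h6 (disjoint_left.1 hd h7) (not_not.1 h5) hn.1 hn.2
  have h3 := sum_filter_add_sum_filter_not (G.bd S) (fun d => G.pi (G.al d) ∉ T) z
  rw [h1]
  linarith

/-- the outer ends are different -/
theorem Pole.ne_out (p : G.Pole z t fr T a b) (hw : G.Wt z t) : G.pi a ≠ G.pi b := by
  intro h
  have hd : Disjoint {G.pi a} T := disjoint_singleton_left.2 p.aT
  have h1 := p.val_union hw hd (mem_singleton_self _) (by rw [← h]; exact mem_singleton_self _)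
  rw [hw.val_single (G.pi_mem a p.ad)] at h1
  have h2 := hw.cut ({G.pi a} ∪ T)
    (union_subset (singleton_subset_iff.2 (G.pi_mem a p.ad)) p.sub) (by
      rw [card_union_of_disjoint hd, card_singleton]
      obtain ⟨k, hk⟩ := p.even
      exact ⟨k, by omega⟩)
  linarith

/-- a sum over the edges leaving the 2-pole at one vertex -/
theorem Pole.ed_ge (p : G.Pole z t fr T a b) (hw : G.Wt z t) :
    1 ≤ ∑ d ∈ G.ed {G.pi (G.al a)} (G.vs \ T), z d := by
  have h1 : G.al a ∈ G.ed {G.pi (G.al a)} (G.vs \ T) := by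
    refine mem_ed.2 ⟨G.al_mem a p.ad, mem_singleton_self _, ?_⟩
    rw [G.al_al a p.ad]
    exact mem_sdiff.2 ⟨G.pi_mem a p.ad, p.aT⟩
  have h2 := single_le_sum (f := z) (fun d hd => hw.z0 d (mem_ed.1 hd).1) h1
  rw [hw.sym a p.ad, p.za] at h2
  exact h2

theorem Pole.symm (p : G.Pole z t fr T a b) : G.Pole z t fr T b a :=
  ⟨p.sub, p.even, p.dis, p.tok, p.bd, p.ad, p.bT, p.aT, p.bT', p.aT', p.ne.symm, p.zb, p.za,
    fun d h1 h2 h3 h4 h5 => p.out d h1 h2 h3 h5 h4⟩

/-- the inner ends are different -/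
theorem Pole.ne_inn (p : G.Pole z t fr T a b) (hw : G.Wt z t) :
    G.pi (G.al a) ≠ G.pi (G.al b) := by
  intro h
  have hal : ∀ d ∈ G.ds, ∀ d' ∈ G.ds, G.al d = G.al d' → d = d' := by
    intro d hd d' hd' h
    rw [← G.al_al d hd, h, G.al_al d' hd']
  have h1 := hw.val_erase p.sub p.aT'
  rw [p.val hw, p.tok _ p.aT'] at h1
  have h2 : ({G.al a, G.al b} : Finset D) ⊆ G.ed {G.pi (G.al a)} (G.vs \ T) := by
    intro d hd
    rw [mem_insert, mem_singleton] at hd
    rcases hd with rfl | rfl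
    · refine mem_ed.2 ⟨G.al_mem _ p.ad, mem_singleton_self _, ?_⟩
      rw [G.al_al a p.ad]
      exact mem_sdiff.2 ⟨G.pi_mem a p.ad, p.aT⟩
    · refine mem_ed.2 ⟨G.al_mem _ p.bd, mem_singleton.2 h.symm, ?_⟩
      rw [G.al_al b p.bd]
      exact mem_sdiff.2 ⟨G.pi_mem b p.bd, p.bT⟩
  have h3 : ∑ d ∈ ({G.al a, G.al b} : Finset D), z d ≤ ∑ d ∈ G.ed {G.pi (G.al a)} (G.vs \ T), z d :=
    sum_le_sum_of_subset_of_nonneg h2 (fun d hd _ => hw.z0 d (mem_ed.1 hd).1)
  rw [sum_pair (fun h' => p.ne (hal _ p.ad _ p.bd h')), hw.sym a p.ad, hw.sym b p.bd, p.za,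
    p.zb] at h3
  have h4 := hw.cut (T.erase (G.pi (G.al a))) ((erase_subset _ _).trans p.sub) (by
    rw [card_erase_of_mem p.aT']
    have h5 : 0 < T.card := card_pos.2 ⟨_, p.aT'⟩
    obtain ⟨k, hk⟩ := p.even
    exact ⟨k - 1, by omega⟩)
  linarith

/-- a perfect matching inside the 2-pole -/
theorem Pole.pm (p : G.Pole z t fr T a b) (hw : G.Wt z t) :
    ∃ N ⊆ G.ds, (∀ d ∈ N, G.al d ∈ N) ∧ (∀ d ∈ N, G.pi d ∈ T) ∧
      (∀ v ∈ T, (N.filter fun d => G.pi d = v).card = 1) ∧ ∀ d ∈ N, 0 < z d := by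
  have h1 := res_tau hw p.sub
  rw [p.val hw] at h1
  obtain ⟨N, hN, hpos⟩ := exists_pm (G.res T) z (G.tres z t T)
    (by
      have : (G.res T).vs = T := inter_eq_right.2 p.sub
      rw [this]
      exact p.even) (hw.res p.sub) (by rw [h1]; norm_num)
  obtain ⟨h2, h3, h4, h5⟩ := res_pm p.sub hN
  exact ⟨N, h2, h3, h4, h5, hpos⟩

/-- a perfect matching inside the 2-pole without the two inner ends -/
theorem Pole.pm2 (p : G.Pole z t fr T a b) (hw : G.Wt z t) :
    ∃ N ⊆ G.ds, (∀ d ∈ N, G.al d ∈ N) ∧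
      (∀ d ∈ N, G.pi d ∈ T ∧ G.pi d ≠ G.pi (G.al a) ∧ G.pi d ≠ G.pi (G.al b)) ∧
      (∀ v ∈ T, v ≠ G.pi (G.al a) → v ≠ G.pi (G.al b) →
        (N.filter fun d => G.pi d = v).card = 1) ∧ ∀ d ∈ N, 0 < z d := by
  set w := G.pi (G.al a) with hwa
  set w' := G.pi (G.al b) with hwb
  have hne : w ≠ w' := p.ne_inn hw
  have hw'T : w' ∈ T.erase w := mem_erase.2 ⟨hne.symm, p.bT'⟩
  set U := (T.erase w).erase w' with hU
  have hUs : U ⊆ G.vs := (erase_subset _ _).trans ((erase_subset _ _).trans p.sub)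
  have e1 := hw.val_erase p.sub p.aT'
  rw [p.val hw, p.tok _ p.aT'] at e1
  have e2 := p.ed_ge hw
  have e3 := hw.val_erase ((erase_subset w T).trans p.sub) hw'T
  rw [p.tok _ p.bT'] at e3
  have e4 := p.symm.ed_ge hw
  have e5 : ∑ d ∈ G.ed {w'} (G.vs \ T), z d ≤ ∑ d ∈ G.ed {w'} (G.vs \ T.erase w), z d := by
    refine sum_le_sum_of_subset_of_nonneg ?_ (fun d hd _ => hw.z0 d (mem_ed.1 hd).1)
    intro d hd
    obtain ⟨h1, h2, h3⟩ := mem_ed.1 hd
    refine mem_ed.2 ⟨h1, h2, mem_sdiff.2 ⟨(mem_sdiff.1 h3).1, fun h4 => ?_⟩⟩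
    exact (mem_sdiff.1 h3).2 (mem_erase.1 h4).2
  have hval : G.val z t U < 6 := by
    rw [hU]
    linarith
  have h1 := res_tau hw hUs
  have hev : Even U.card := by
    rw [hU, card_erase_of_mem hw'T, card_erase_of_mem p.aT']
    obtain ⟨k, hk⟩ := p.even
    exact ⟨k - 1, by omega⟩
  obtain ⟨N, hN, hpos⟩ := exists_pm (G.res U) z (G.tres z t U)
    (by
      have : (G.res U).vs = U := inter_eq_right.2 hUs
      rw [this]
      exact hev) (hw.res hUs) (by rw [h1]; exact hval)
  obtain ⟨h2, h3, h4, h5⟩ := res_pm hUs hN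
  refine ⟨N, h2, h3, fun d hd => ?_, fun v hv h6 h7 => h5 v ?_, hpos⟩
  · have h6 := h4 d hd
    rw [hU, mem_erase, mem_erase] at h6
    exact ⟨h6.2.2, h6.2.1, h6.1⟩
  · rw [hU, mem_erase, mem_erase]
    exact ⟨h7, h6, hv⟩

theorem Pole.pl (p : G.Pole z t fr T a b) (hw : G.Wt z t) : G.PL T a b :=
  ⟨p.ad, p.bd, p.aT, p.bT, p.aT', p.bT', p.ne_out hw⟩

theorem PL.hne (q : G.PL T a b) : a ≠ b := fun h => q.nab (by rw [h])

section

variable (q : G.PL T a b)

theorem pole_al_a : (G.pole q).al a = b := if_pos rfl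

theorem pole_al_b : (G.pole q).al b = a := by
  change (if b = a then b else if b = b then a else G.al b) = a
  rw [if_neg q.hne.symm, if_pos rfl]

theorem pole_al {d : D} (h1 : d ≠ a) (h2 : d ≠ b) : (G.pole q).al d = G.al d := by
  change (if d = a then b else if d = b then a else G.al d) = G.al d
  rw [if_neg h1, if_neg h2]

theorem mem_pole_ds {d : D} :
    d ∈ (G.pole q).ds ↔ d ∈ G.ds ∧ G.pi d ∉ T ∧ (d = a ∨ d = b ∨ G.pi (G.al d) ∉ T) :=
  mem_filter

/-- the darts of an edge outside `T` -/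
theorem pole_al_out {d : D} (h1 : G.pi (G.al d) ∉ T) : (G.pole q).al d = G.al d :=
  pole_al q (fun h => h1 (h ▸ q.aT')) (fun h => h1 (h ▸ q.bT'))

/-- the boundary of a set which does not contain both ends -/
theorem pole_bd {S : Finset V} (hd : Disjoint S T) (hab : ¬ (G.pi a ∈ S ∧ G.pi b ∈ S)) :
    (G.pole q).bd S = (G.bd S).filter fun d => d = a ∨ d = b ∨ G.pi (G.al d) ∉ T := by
  ext d
  rw [mem_bd, mem_filter, mem_bd, mem_pole_ds]
  change (_ ∧ G.pi d ∈ S ∧ G.pi ((G.pole q).al d) ∉ S) ↔ _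
  constructor
  · rintro ⟨⟨h1, h2, h3⟩, h4, h5⟩
    refine ⟨⟨h1, h4, ?_⟩, h3⟩
    rcases h3 with rfl | rfl | h3
    · exact fun h => disjoint_left.1 hd h q.aT'
    · exact fun h => disjoint_left.1 hd h q.bT'
    · rwa [pole_al_out q h3] at h5
  · rintro ⟨⟨h1, h4, h5⟩, h3⟩
    refine ⟨⟨h1, disjoint_left.1 hd h4, h3⟩, h4, ?_⟩
    rcases h3 with rfl | rfl | h3
    · rw [pole_al_a]
      exact fun h => hab ⟨h4, h⟩
    · rw [pole_al_b]
      exact fun h => hab ⟨h, h4⟩
    · rwa [pole_al_out q h3]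

/-- the boundary of a set which contains both ends -/
theorem pole_bd2 {S : Finset V} (hd : Disjoint S T) (ha : G.pi a ∈ S) (hb : G.pi b ∈ S) :
    (G.pole q).bd S = (G.bd S).filter fun d => G.pi (G.al d) ∉ T := by
  ext d
  rw [mem_bd, mem_filter, mem_bd, mem_pole_ds]
  change (_ ∧ G.pi d ∈ S ∧ G.pi ((G.pole q).al d) ∉ S) ↔ _
  constructor
  · rintro ⟨⟨h1, h2, h3⟩, h4, h5⟩
    rcases h3 with rfl | rfl | h3
    · rw [pole_al_a] at h5
      exact absurd hb h5
    · rw [pole_al_b] at h5
      exact absurd ha h5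
    · rw [pole_al_out q h3] at h5
      exact ⟨⟨h1, h4, h5⟩, h3⟩
  · rintro ⟨⟨h1, h4, h5⟩, h3⟩
    refine ⟨⟨h1, disjoint_left.1 hd h4, Or.inr (Or.inr h3)⟩, h4, ?_⟩
    rwa [pole_al_out q h3]

end

/-- the value of a set which does not contain both ends -/
theorem Pole.val_pole (p : G.Pole z t fr T a b) (q : G.PL T a b) {S : Finset V}
    (hd : Disjoint S T) (hab : ¬ (G.pi a ∈ S ∧ G.pi b ∈ S)) :
    (G.pole q).val z t S = G.val z t S := by
  unfold MG.val
  rw [pole_bd q hd hab]
  congr 1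
  refine sum_subset (filter_subset _ _) fun d h1 h2 => ?_
  obtain ⟨h3, h4, -⟩ := mem_bd.1 h1
  have h5 : ¬ (d = a ∨ d = b ∨ G.pi (G.al d) ∉ T) := fun h => h2 (mem_filter.2 ⟨h1, h⟩)
  rw [not_or, not_or, not_not] at h5
  exact p.out d h3 (disjoint_left.1 hd h4) h5.2.2 h5.1 h5.2.1

/-- the value of a set which contains both ends -/
theorem Pole.val_pole2 (p : G.Pole z t fr T a b) (q : G.PL T a b) {S : Finset V}
    (hd : Disjoint S T) (ha : G.pi a ∈ S) (hb : G.pi b ∈ S) :
    (G.pole q).val z t S = G.val z t S - 2 := by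
  unfold MG.val
  rw [pole_bd2 q hd ha hb]
  have h2 : ∑ d ∈ (G.bd S).filter (fun d => ¬ G.pi (G.al d) ∉ T), z d = 2 := by
    have h3 : ({a, b} : Finset D) ⊆ (G.bd S).filter (fun d => ¬ G.pi (G.al d) ∉ T) := by
      intro d hd1
      rw [mem_insert, mem_singleton] at hd1
      rcases hd1 with rfl | rfl
      · exact mem_filter.2 ⟨mem_bd.2 ⟨p.ad, ha, fun h => disjoint_left.1 hd h p.aT'⟩,
          not_not.2 p.aT'⟩
      · exact mem_filter.2 ⟨mem_bd.2 ⟨p.bd, hb, fun h => disjoint_left.1 hd h p.bT'⟩,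
          not_not.2 p.bT'⟩
    rw [← sum_subset h3, sum_pair p.ne, p.za, p.zb]
    · norm_num
    · intro d hd1 hn
      obtain ⟨h4, h5⟩ := mem_filter.1 hd1
      rw [mem_insert, mem_singleton, not_or] at hn
      obtain ⟨h6, h7, -⟩ := mem_bd.1 h4
      exact p.out d h6 (disjoint_left.1 hd h7) (not_not.1 h5) hn.1 hn.2
  have h3 := sum_filter_add_sum_filter_not (G.bd S) (fun d => G.pi (G.al d) ∉ T) z
  linarith

theorem Pole.wt (p : G.Pole z t fr T a b) (hw : G.Wt z t) (q : G.PL T a b) :
    (G.pole q).Wt z t where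
  z0 := fun d hd => hw.z0 d ((mem_pole_ds q).1 hd).1
  t0 := fun v hv => hw.t0 v (mem_sdiff.1 hv).1
  sym := by
    intro d hd
    obtain ⟨h1, h2, h3⟩ := (mem_pole_ds q).1 hd
    by_cases ea : d = a
    · rw [ea, pole_al_a, p.za, p.zb]
    · by_cases eb : d = b
      · rw [eb, pole_al_b, p.za, p.zb]
      · rw [pole_al q ea eb]
        exact hw.sym d h1
  deg := by
    intro v hv
    obtain ⟨hv1, hv2⟩ := mem_sdiff.1 hv
    rw [← hw.deg v hv1]
    congr 1
    refine sum_subset ?_ ?_
    · intro d hd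
      obtain ⟨h1, h2⟩ := mem_st.1 hd
      exact mem_st.2 ⟨((mem_pole_ds q).1 h1).1, h2⟩
    · intro d hd hn
      obtain ⟨h1, h2⟩ := mem_st.1 hd
      have h3 : G.pi d ∉ T := by rw [h2]; exact hv2
      have h5 : ¬ (d = a ∨ d = b ∨ G.pi (G.al d) ∉ T) :=
        fun h => hn (mem_st.2 ⟨(mem_pole_ds q).2 ⟨h1, h3, h⟩, h2⟩)
      rw [not_or, not_or, not_not] at h5
      exact p.out d h1 h3 h5.2.2 h5.1 h5.2.1
  cut := by
    intro S hS ho
    have hd : Disjoint S T := disjoint_left.2 fun v hv hvT => (mem_sdiff.1 (hS hv)).2 hvT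
    have hSv : S ⊆ G.vs := fun v hv => (mem_sdiff.1 (hS hv)).1
    by_cases hab : G.pi a ∈ S ∧ G.pi b ∈ S
    · rw [p.val_pole2 q hd hab.1 hab.2, ← p.val_union hw hd hab.1 hab.2]
      refine hw.cut _ (union_subset hSv p.sub) ?_
      rw [card_union_of_disjoint hd]
      exact ho.add_even p.even
    · rw [p.val_pole q hd hab]
      exact hw.cut S hSv ho

theorem Pole.tau (p : G.Pole z t fr T a b) (q : G.PL T a b) :
    ∑ v ∈ (G.pole q).vs, t v = ∑ v ∈ G.vs, t v := by
  have h1 := sum_sdiff p.sub (f := t)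
  rw [sum_eq_zero p.tok, add_zero] at h1
  exact h1

/-- admissible sets are the same -/
theorem Pole.adm (p : G.Pole z t fr T a b) (hF : G.FrS z fr F jm) (q : G.PL T a b)
    {X : Finset V} : (G.pole q).Adm fr F X ↔ G.Adm fr F X := by
  have h0 : ∀ d ∈ F, (G.pole q).al d = G.al d := fun d hd =>
    pole_al_out q (fun h => disjoint_left.1 p.dis h (hF.Ffr _ (hF.Fal d hd)))
  constructor
  · rintro ⟨h1, h2⟩
    refine ⟨h1, fun d hd hp => ?_⟩
    have h3 := h2 d hd hp
    rw [h0 d hd] at h3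
    exact h3
  · rintro ⟨h1, h2⟩
    refine ⟨h1, fun d hd hp => ?_⟩
    rw [h0 d hd]
    exact h2 d hd hp

theorem Pole.st (p : G.Pole z t fr T a b) (hF : G.FrS z fr F jm) (q : G.PL T a b) {v : V}
    (hv : v ∈ fr) : (G.pole q).st v = G.st v := by
  ext d
  rw [mem_st, mem_st, mem_pole_ds]
  constructor
  · rintro ⟨⟨h1, -⟩, h2⟩
    exact ⟨h1, h2⟩
  · rintro ⟨h1, h2⟩
    have h3 : G.pi d ∉ T := fun h => disjoint_left.1 p.dis h (by rw [h2]; exact hv)
    refine ⟨⟨h1, h3, ?_⟩, h2⟩
    by_contra h4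
    rw [not_or, not_or, not_not] at h4
    have h5 := p.out d h1 h3 h4.2.2 h4.1 h4.2.1
    rw [hF.unit d h1 (by rw [h2]; exact hv)] at h5
    norm_num at h5

theorem Pole.frS (p : G.Pole z t fr T a b) (hF : G.FrS z fr F jm) (q : G.PL T a b) :
    (G.pole q).FrS z fr F jm where
  fsub := fun v hv => mem_sdiff.2 ⟨hF.fsub hv, fun h => disjoint_left.1 p.dis h hv⟩
  Fsub := fun d hd => (mem_pole_ds q).2 ⟨hF.Fsub hd,
    fun h => disjoint_left.1 p.dis h (hF.Ffr d hd),
    Or.inr (Or.inr fun h => disjoint_left.1 p.dis h (hF.Ffr _ (hF.Fal d hd)))⟩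
  Fal := fun d hd => by
    rw [pole_al_out q (fun h => disjoint_left.1 p.dis h (hF.Ffr _ (hF.Fal d hd)))]
    exact hF.Fal d hd
  Ffr := hF.Ffr
  two := hF.two
  jms := hF.jms
  jd := fun v hv hj => by
    rw [p.st hF q hv]
    exact hF.jd v hv hj
  j0 := fun v hv => by
    rw [p.st hF q (hF.jms hv)]
    exact hF.j0 v hv
  unit := fun d hd hp => hF.unit d ((mem_pole_ds q).1 hd).1 hp

/-- the boundary of an admissible set which does not contain both ends does not change -/
theorem Pole.bd_adm (p : G.Pole z t fr T a b) (hF : G.FrS z fr F jm) (q : G.PL T a b)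
    {X : Finset V} (hX : X ⊆ fr) (hab : ¬ (G.pi a ∈ X ∧ G.pi b ∈ X)) :
    (G.pole q).bd X = G.bd X := by
  have hd : Disjoint X T := disjoint_left.2 fun v hv hvT => disjoint_left.1 p.dis hvT (hX hv)
  rw [pole_bd q hd hab, filter_true_of_mem]
  intro d hd1
  obtain ⟨h1, h2, h3⟩ := mem_bd.1 hd1
  by_contra h4
  rw [not_or, not_or, not_not] at h4
  have h5 := p.out d h1 (disjoint_left.1 hd h2) h4.2.2 h4.1 h4.2.1
  rw [hF.unit d h1 (hX h2)] at h5
  norm_num at h5

/-- an admissible set which contains both ends loses two boundary edges -/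
theorem Pole.bd_adm2 (p : G.Pole z t fr T a b) (hF : G.FrS z fr F jm) (q : G.PL T a b)
    {X : Finset V} (hX : X ⊆ fr) (ha : G.pi a ∈ X) (hb : G.pi b ∈ X) :
    ((G.pole q).bd X).card + 2 = (G.bd X).card ∧ (G.pole q).bd X ⊆ G.bd X ∧
      ∀ d ∈ G.bd X, d = a ∨ d = b ∨ d ∈ (G.pole q).bd X := by
  have hd : Disjoint X T := disjoint_left.2 fun v hv hvT => disjoint_left.1 p.dis hvT (hX hv)
  have h0 : (G.bd X).filter (fun d => ¬ G.pi (G.al d) ∉ T) = {a, b} := by
    ext d
    rw [mem_filter, mem_bd, not_not, mem_insert, mem_singleton]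
    constructor
    · rintro ⟨⟨h1, h2, h3⟩, h4⟩
      by_contra h5
      rw [not_or] at h5
      have h6 := p.out d h1 (disjoint_left.1 hd h2) h4 h5.1 h5.2
      rw [hF.unit d h1 (hX h2)] at h6
      norm_num at h6
    · rintro (rfl | rfl)
      · exact ⟨⟨p.ad, ha, fun h => disjoint_left.1 hd h p.aT'⟩, p.aT'⟩
      · exact ⟨⟨p.bd, hb, fun h => disjoint_left.1 hd h p.bT'⟩, p.bT'⟩
  have h1 := card_filter_add_card_filter_not (s := G.bd X) (fun d => G.pi (G.al d) ∉ T)
  rw [h0, card_pair p.ne, ← pole_bd2 q hd ha hb] at h1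
  refine ⟨h1, ?_, ?_⟩
  · rw [pole_bd2 q hd ha hb]
    exact filter_subset _ _
  · intro d hd1
    rw [pole_bd2 q hd ha hb]
    by_cases h2 : G.pi (G.al d) ∉ T
    · exact Or.inr (Or.inr (mem_filter.2 ⟨hd1, h2⟩))
    · have h3 : d ∈ ({a, b} : Finset D) := by
        rw [← h0]
        exact mem_filter.2 ⟨hd1, h2⟩
      rw [mem_insert, mem_singleton] at h3
      rcases h3 with h3 | h3
      · exact Or.inl h3
      · exact Or.inr (Or.inl h3)

/-- LIFT: a perfect matching of the new graph; it is used as it is on the edges of both graphs, and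
both edges of the 2-pole are in the matching iff the new edge is -/
theorem Pole.lift (p : G.Pole z t fr T a b) (hw : G.Wt z t) (q : G.PL T a b)
    (hM : (G.pole q).IsPM M) (hpos : ∀ d ∈ M, 0 < z d) :
    ∃ N, G.IsPM N ∧ (∀ d ∈ N, 0 < z d) ∧ ∀ d ∈ G.ds, G.pi d ∉ T → (d ∈ N ↔ d ∈ M) := by
  have hba : b ∈ M ↔ a ∈ M := by
    constructor
    · intro h
      have h1 := hM.closed _ h
      rwa [pole_al_b] at h1
    · intro h
      have h1 := hM.closed _ h
      rwa [pole_al_a] at h1
  have hMds : ∀ d ∈ M, d ∈ G.ds ∧ G.pi d ∉ T ∧ (d = a ∨ d = b ∨ G.pi (G.al d) ∉ T) :=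
    fun d hd => (mem_pole_ds q).1 (hM.sub hd)
  by_cases haM : a ∈ M
  · obtain ⟨N, h1, h2, h3, h4, h5⟩ := p.pm2 hw
    have hbM := hba.2 haM
    have hal : ∀ d ∈ G.ds, ∀ d' ∈ G.ds, G.al d = G.al d' → d = d' := by
      intro d hd d' hd' h
      rw [← G.al_al d hd, h, G.al_al d' hd']
    refine ⟨M ∪ (N ∪ {G.al a, G.al b}), ⟨?_, ?_, ?_⟩, ?_, ?_⟩
    · intro d hd
      rw [mem_union, mem_union, mem_insert, mem_singleton] at hd
      rcases hd with hd | hd | rfl | rfl
      · exact (hMds d hd).1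
      · exact h1 hd
      · exact G.al_mem _ p.ad
      · exact G.al_mem _ p.bd
    · intro d hd
      rw [mem_union, mem_union, mem_insert, mem_singleton] at hd
      rw [mem_union, mem_union, mem_insert, mem_singleton]
      rcases hd with hd | hd | rfl | rfl
      · by_cases ea : d = a
        · exact Or.inr (Or.inr (Or.inl (by rw [ea])))
        · by_cases eb : d = b
          · exact Or.inr (Or.inr (Or.inr (by rw [eb])))
          · left
            have h6 := hM.closed d hd
            rwa [pole_al q ea eb] at h6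
      · exact Or.inr (Or.inl (h2 d hd))
      · left
        rw [G.al_al _ p.ad]
        exact haM
      · left
        rw [G.al_al _ p.bd]
        exact hbM
    · intro v hv
      by_cases hvT : v ∈ T
      · have hMv : ∀ d ∈ M, G.pi d ≠ v := fun d hd h => (hMds d hd).2.1 (by rw [h]; exact hvT)
        have e1 : (M ∪ (N ∪ {G.al a, G.al b})).filter (fun d => G.pi d = v) =
            (N ∪ {G.al a, G.al b}).filter (fun d => G.pi d = v) := by
          ext d
          rw [mem_filter, mem_filter, mem_union]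
          constructor
          · rintro ⟨h6 | h6, h7⟩
            · exact absurd h7 (hMv d h6)
            · exact ⟨h6, h7⟩
          · rintro ⟨h6, h7⟩
            exact ⟨Or.inr h6, h7⟩
        rw [e1]
        by_cases hva : v = G.pi (G.al a)
        · rw [card_eq_one]
          refine ⟨G.al a, ?_⟩
          ext d
          rw [mem_filter, mem_union, mem_insert, mem_singleton, mem_singleton]
          constructor
          · rintro ⟨h6 | rfl | rfl, h7⟩
            · exact absurd (h7.trans hva) (h3 d h6).2.1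
            · rfl
            · exact absurd (h7.trans hva) (p.ne_inn hw).symm
          · rintro rfl
            exact ⟨Or.inr (Or.inl rfl), hva.symm⟩
        · by_cases hvb : v = G.pi (G.al b)
          · rw [card_eq_one]
            refine ⟨G.al b, ?_⟩
            ext d
            rw [mem_filter, mem_union, mem_insert, mem_singleton]
            constructor
            · rintro ⟨h6 | rfl | rfl, h7⟩
              · exact absurd (h7.trans hvb) (h3 d h6).2.2
              · exact absurd (h7.trans hvb) (p.ne_inn hw)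
              · rfl
            · rintro rfl
              exact ⟨Or.inr (Or.inr rfl), hvb.symm⟩
          · rw [← h4 v hvT hva hvb]
            congr 1
            ext d
            rw [mem_filter, mem_filter, mem_union, mem_insert, mem_singleton]
            constructor
            · rintro ⟨h6 | rfl | rfl, h7⟩
              · exact ⟨h6, h7⟩
              · exact absurd h7.symm hva
              · exact absurd h7.symm hvb
            · rintro ⟨h6, h7⟩
              exact ⟨Or.inl h6, h7⟩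
      · rw [← hM.one v (mem_sdiff.2 ⟨hv, hvT⟩)]
        congr 1
        ext d
        rw [mem_filter, mem_filter, mem_union, mem_union, mem_insert, mem_singleton]
        constructor
        · rintro ⟨h6 | h6 | rfl | rfl, h7⟩
          · exact ⟨h6, h7⟩
          · exact absurd (h3 d h6).1 (by rw [h7]; exact hvT)
          · exact absurd p.aT' (by rw [h7]; exact hvT)
          · exact absurd p.bT' (by rw [h7]; exact hvT)
        · rintro ⟨h6, h7⟩
          exact ⟨Or.inl h6, h7⟩
    · intro d hd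
      rw [mem_union, mem_union, mem_insert, mem_singleton] at hd
      rcases hd with hd | hd | rfl | rfl
      · exact hpos d hd
      · exact h5 d hd
      · rw [hw.sym _ p.ad, p.za]
        exact one_pos
      · rw [hw.sym _ p.bd, p.zb]
        exact one_pos
    · intro d hd hdT
      rw [mem_union, mem_union, mem_insert, mem_singleton]
      constructor
      · rintro (h6 | h6 | rfl | rfl)
        · exact h6
        · exact absurd (h3 d h6).1 hdT
        · exact absurd p.aT' hdT
        · exact absurd p.bT' hdT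
      · exact Or.inl
  · obtain ⟨N, h1, h2, h3, h4, h5⟩ := p.pm hw
    have hbM : b ∉ M := fun h => haM (hba.1 h)
    refine ⟨M ∪ N, ⟨?_, ?_, ?_⟩, ?_, ?_⟩
    · intro d hd
      rcases mem_union.1 hd with hd | hd
      · exact (hMds d hd).1
      · exact h1 hd
    · intro d hd
      rcases mem_union.1 hd with hd | hd
      · refine mem_union_left _ ?_
        have h6 := hM.closed d hd
        rwa [pole_al q (fun h => haM (h ▸ hd)) (fun h => hbM (h ▸ hd))] at h6
      · exact mem_union_right _ (h2 d hd)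
    · intro v hv
      by_cases hvT : v ∈ T
      · rw [← h4 v hvT]
        congr 1
        ext d
        rw [mem_filter, mem_filter, mem_union]
        constructor
        · rintro ⟨h6 | h6, h7⟩
          · exact absurd hvT (by rw [← h7]; exact (hMds d h6).2.1)
          · exact ⟨h6, h7⟩
        · rintro ⟨h6, h7⟩
          exact ⟨Or.inr h6, h7⟩
      · rw [← hM.one v (mem_sdiff.2 ⟨hv, hvT⟩)]
        congr 1
        ext d
        rw [mem_filter, mem_filter, mem_union]
        constructor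
        · rintro ⟨h6 | h6, h7⟩
          · exact ⟨h6, h7⟩
          · exact absurd (h3 d h6) (by rw [h7]; exact hvT)
        · rintro ⟨h6, h7⟩
          exact ⟨Or.inl h6, h7⟩
    · intro d hd
      rcases mem_union.1 hd with hd | hd
      · exact hpos d hd
      · exact h5 d hd
    · intro d hd hdT
      rw [mem_union]
      constructor
      · rintro (h6 | h6)
        · exact h6
        · exact absurd (h3 d h6) hdT
      · exact Or.inl

/-- a good matching of the new graph gives a good matching of the old one -/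
theorem Pole.good (p : G.Pole z t fr T a b) (hw : G.Wt z t) (hF : G.FrS z fr F jm)
    (q : G.PL T a b) (hM : (G.pole q).GoodS z fr F sx M) : ∃ N, G.GoodS z fr F sx N := by
  obtain ⟨N, h1, h2, h3⟩ := p.lift hw q hM.pm hM.pos
  refine ⟨N, h1, h2, fun X hX hor => ?_⟩
  obtain ⟨d, h4, h5⟩ := hM.hit X ((p.adm hF q).2 hX) hor
  have hd : Disjoint X T := disjoint_left.2 fun v hv hvT =>
    disjoint_left.1 p.dis hvT (hX.sub hv)
  obtain ⟨h6, h7, -⟩ := mem_bd.1 h4
  have h8 := ((mem_pole_ds q).1 h6).1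
  have h9 : d ∈ G.bd X := by
    by_cases hab : G.pi a ∈ X ∧ G.pi b ∈ X
    · exact (p.bd_adm2 hF q hX.sub hab.1 hab.2).2.1 h4
    · rw [p.bd_adm hF q hX.sub hab] at h4
      exact h4
  exact ⟨d, h9, fun h => h5 ((h3 d h8 (disjoint_left.1 hd h7)).1 h)⟩

/-- the new instance; only unions which contain both outer ends have to be checked -/
theorem Pole.inst (p : G.Pole z t fr T a b) (h : G.InstS z t fr F jm sx ep m) (q : G.PL T a b)
    (hcc : ∀ X, G.Adm fr F X → Odd X.card → G.pi a ∈ X → G.pi b ∈ X →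
      7 ≤ (G.bd X).card + ∑ v ∈ X, ep v)
    (hev : ∀ X, G.Adm fr F X → Even X.card → G.pi a ∈ X → G.pi b ∈ X →
      m + 2 ≤ (G.bd X).card + ∑ v ∈ X, ep v)
    (hb0 : ∀ X, G.Adm fr F X → Even X.card → sx.Nonempty → sx ⊆ X → G.pi a ∈ X → G.pi b ∈ X →
      4 ≤ (G.bd X).card) : (G.pole q).InstS z t fr F jm sx ep m where
  even := by
    have h1 : (G.vs \ T).card + T.card = G.vs.card := card_sdiff_add_card_eq_card p.sub
    obtain ⟨k, hk⟩ := h.even
    obtain ⟨l, hl⟩ := p.even
    change Even (G.vs \ T).card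
    rw [Nat.even_iff]
    omega
  wt := p.wt h.wt q
  tau := by
    rw [p.tau q]
    exact h.tau
  fresh := p.frS h.fresh q
  cc := by
    intro X hX ho
    have hX1 := (p.adm h.fresh q).1 hX
    by_cases hab : G.pi a ∈ X ∧ G.pi b ∈ X
    · have h1 := (p.bd_adm2 h.fresh q hX1.sub hab.1 hab.2).1
      have h2 := hcc X hX1 ho hab.1 hab.2
      omega
    · rw [p.bd_adm h.fresh q hX1.sub hab]
      exact h.cc X hX1 ho
  ev := by
    intro X hX he hne
    have hX1 := (p.adm h.fresh q).1 hX
    by_cases hab : G.pi a ∈ X ∧ G.pi b ∈ X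
    · have h1 := (p.bd_adm2 h.fresh q hX1.sub hab.1 hab.2).1
      have h2 := hev X hX1 he hab.1 hab.2
      omega
    · rw [p.bd_adm h.fresh q hX1.sub hab]
      exact h.ev X hX1 he hne
  sxs := h.sxs
  kind := by
    rcases h.kind with h1 | ⟨h1, h2⟩
    · exact Or.inl h1
    · exact Or.inr ⟨h1, fun X hX => h2 X ((p.adm h.fresh q).1 hX)⟩
  jm2 := h.jm2
  st2 := h.st2
  b0 := by
    intro X hX he hne hs
    have hX1 := (p.adm h.fresh q).1 hX
    by_cases hab : G.pi a ∈ X ∧ G.pi b ∈ X
    · have h1 := (p.bd_adm2 h.fresh q hX1.sub hab.1 hab.2).1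
      have h2 := hb0 X hX1 he hne hs hab.1 hab.2
      omega
    · rw [p.bd_adm h.fresh q hX1.sub hab]
      exact h.b0 X hX1 he hne hs
  epj := h.epj

/-- the value of a fresh set without star vertices -/
theorem FrS.val_fr (hF : G.FrS z fr F jm) (hw : G.Wt z t) {X : Finset V} (hX : X ⊆ fr)
    (hj : Disjoint X jm) : G.val z t X = (G.bd X).card := by
  unfold MG.val
  rw [sum_eq_zero fun v hv => hF.t_not_jm hw (hX hv) (disjoint_left.1 hj hv), add_zero]
  rw [sum_congr rfl fun d hd => hF.unit d (mem_bd.1 hd).1 (hX (mem_bd.1 hd).2.1), sum_const,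
    nsmul_eq_mul, mul_one]

/-- NO 2-POLES in a minimal counterexample without star -/
theorem MCS.no_pole (h : G.MCS z t fr F ∅ ∅ ep 0) (ht : 0 < ∑ v ∈ G.vs, t v)
    (p : G.Pole z t fr T a b) : False := by
  have hF := h.inst.fresh
  have hw := h.inst.wt
  have q := p.pl hw
  have hI : (G.pole q).InstS z t fr F ∅ ∅ ep 0 := by
    refine p.inst h.inst q ?_ ?_ ?_
    · intro X hX ho hXa hXb
      have hep : ∑ v ∈ X, ep v = 0 := sum_eq_zero fun v hv => by
        have h1 := h.inst.epj v (hX.sub hv)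
        rw [if_neg (notMem_empty v)] at h1
        omega
      have h5 := h.inst.cc X hX ho
      have h6 := hF.bd_par hX
      rw [inter_empty, card_empty, add_zero] at h6
      rw [hep] at h5 ⊢
      by_contra hlt
      obtain ⟨k, hk⟩ := ho
      have h7 : (G.bd X).card = 5 := by omega
      have hd : Disjoint X T := disjoint_left.2 fun v hv hvT => disjoint_left.1 p.dis hvT
        (hX.sub hv)
      have hTx : ∀ v ∈ X ∪ T, t v = 0 := by
        intro v hv
        rcases mem_union.1 hv with h8 | h8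
        · exact hF.t_not_jm hw (hX.sub h8) (notMem_empty v)
        · exact p.tok v h8
      have hWs : X ∪ T ⊆ G.vs := union_subset (hX.sub.trans hF.fsub) p.sub
      have h8 : G.val z t (X ∪ T) = 3 := by
        rw [p.val_union hw hd hXa hXb, hF.val_fr hw hX.sub (disjoint_empty_right _), h7]
        norm_num
      have hTc : 2 ≤ T.card := by
        have h9 : 0 < T.card := card_pos.2 ⟨_, p.aT'⟩
        obtain ⟨l, hl⟩ := p.even
        omega
      have hWc : (X ∪ T).card = X.card + T.card := card_union_of_disjoint hd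
      have hWo : Odd (X ∪ T).card := by
        rw [hWc]
        obtain ⟨l, hl⟩ := p.even
        exact ⟨k + l, by omega⟩
      have hcc' : (G.vs \ (X ∪ T)).card + (X ∪ T).card = G.vs.card :=
        card_sdiff_add_card_eq_card hWs
      have h10 := hw.val_compl hWs
      rw [h8, sum_eq_zero hTx] at h10
      have hc2 : 3 ≤ (G.vs \ (X ∪ T)).card := by
        by_contra hlt2
        have h11 : (G.vs \ (X ∪ T)).card = 1 := by
          obtain ⟨l, hl⟩ := h.inst.even
          obtain ⟨k', hk'⟩ := hWo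
          omega
        obtain ⟨v, hv⟩ := card_eq_one.1 h11
        have h12 : v ∈ G.vs := by
          have : v ∈ G.vs \ (X ∪ T) := by rw [hv]; exact mem_singleton_self v
          exact (mem_sdiff.1 this).1
        rw [hv, hw.val_single h12] at h10
        linarith
      refine h.no_tight hWs hWo h8 ?_ hc2 ?_
      · rw [hWc]
        omega
      · intro d hd1 hp
        rcases mem_union.1 hp with h11 | h11
        · exact mem_union_left _ (hX.clo d hd1 h11)
        · exact absurd (hF.Ffr d hd1) (disjoint_left.1 p.dis h11)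
    · intro X hX he hXa hXb
      have h1 := (p.bd_adm2 hF q hX.sub hXa hXb).1
      omega
    · intro X hX he hne
      exact absurd hne not_nonempty_empty
  have hlt : (G.pole q).vs.card < G.vs.card := by
    have h1 : (G.vs \ T).card + T.card = G.vs.card := card_sdiff_add_card_eq_card p.sub
    have h9 : 0 < T.card := card_pos.2 ⟨_, p.aT'⟩
    change (G.vs \ T).card < G.vs.card
    omega
  obtain ⟨N, hN⟩ := h.ih (G.pole q) z t fr F ∅ ∅ ep (Or.inr ⟨rfl, Or.inl hlt⟩) hI
  exact h.bad (p.good hw hF q hN)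

end MG

end RH
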