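import Pool.Agent.Lib.RH.TplI
import Pool.Agent.Lib.RH.Pole

/-! # The inner instances I1, In(e)*, I3(pq) of a set of value 5

Output: half matchings of `W` with the pattern, which exclude the pair `T`, `S` (`SpI`), or a half
certificate. -/

set_option autoImplicit false

namespace RH

open Finset Classical

variable {nv ne np : ℕ}

namespace MG

variable {V D : Type*} {G : MG V D} {t : V → ℝ} {fr fr1 : Finset V} {F : Finset D}
variable {jm A W X S Ts : Finset V} {w : ℕ} {z : D → ℝ}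
variable {pp : Fin np → D} {M T : Finset D}

/-- the star of an inner instance is admissible for the engine -/
theorem SpI.drop (hs : SpI G fr jm W T S) (hT : ∀ d ∈ T, ∀ i, pp i ≠ d) :
    ∀ v ∈ T.image G.pi ∪ S, v ∈ jm ∨ ∃ d, Drop G W pp d ∧ G.pi d = v := by
  intro v hv
  rcases mem_union.1 hv with h1 | h1
  · obtain ⟨d, hd, rfl⟩ := mem_image.1 h1
    exact Or.inr ⟨d, ⟨hs.1 hd, hT d hd⟩, rfl⟩
  · left
    rcases hs.2.2 with ⟨-, h4, -⟩ | ⟨-, h4, -⟩ | ⟨-, h4, -⟩ | ⟨-, h4, -, -⟩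
    · rw [h4] at h1
      exact absurd h1 (notMem_empty v)
    · rw [h4] at h1
      exact h1
    · rw [h4] at h1
      exact absurd h1 (notMem_empty v)
    · rw [h4] at h1
      exact (mem_inter.1 h1).1

/-- **I1(c)**: the exit `c` is used; two adjacent tokens (`b` with the lost exit `eb`) -/
theorem X6.inI1 [Infinite V] [Infinite D] (h : X6 G t fr F jm) (b : IBlk G t W 1)
    (hJ : ∀ d ∈ G.bd W, d ∉ F) (hU : 2 ≤ (G.vs \ W).card) {eb dy c : D} (heb : eb ∈ G.bd W)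
    (hdy : dy ∈ G.ds) (hdb : G.pi dy = G.pi eb) (hdW : G.pi (G.al dy) ∈ W) (hdF : dy ∉ F)
    (hty : t (G.pi (G.al dy)) ≠ 0) (hc : c ∈ G.bd W) (hce : c ≠ eb)
    (hs : SpI G fr jm W T S) (hcT : c ∉ T) :
    ∃ M, G.GHalf one1 fr F jm W M ∧ (T.Nonempty → G.LkS fr F W M T S) ∧ G.Sg W M c := by
  have hT : ∀ d ∈ T, ∀ i : Fin 1, (fun _ => c) i ≠ d := fun d hd _ h1 => hcT (by
    have h2 : c = d := h1
    rw [h2]
    exact hd)
  rcases h.tplI b Tpl.bt_reg Tpl.bt_tab (by decide) rfl (pp := fun _ : Fin 1 => c)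
    (fun _ => hc) (fun i j _ => Subsingleton.elim i j) (Or.inr (by omega))
    (hs.card h.fresh h.jm2 hJ) (hs.drop hT)
    (fun _ _ => mem_univ _) (fun _ _ _ _ _ _ => mem_univ _) (fun _ _ _ _ _ _ => mem_univ _) with
    ⟨M, m, h1, h2⟩ | ⟨p, cc, h1, h2, -⟩
  · have h3 := h1.isol h.fresh hJ (hs.drop hT)
    have hcM : c ∈ M := by
      have h4 := Tpl.bt_pat _ _ h2
      have h5 : (0 : Fin 1) ∈ univ.filter fun _ : Fin 1 => c ∈ M := by
        rw [h4]
        exact mem_singleton_self _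
      exact (mem_filter.1 h5).2
    have hiff : ∀ e ∈ G.bd W, e ∈ M ↔ e = c := by
      intro e he
      constructor
      · intro k
        obtain ⟨i, hi⟩ := h1.ex e he k
        exact hi.symm
      · rintro rfl
        exact hcM
    obtain ⟨h6, h7⟩ := h3.out h.fresh h.jm2 hJ hs fun d hd hdM =>
      hcT (((hiff d (hs.1 hd)).1 hdM) ▸ hd)
    exact ⟨M, h6, h7, hc, hiff⟩
  · exfalso
    have h3 := h2 eb ⟨heb, fun _ h4 => hce h4⟩
    have h4 := h1.tok _ hdW hty
    have h5 := h1.jq dy hdy (by rw [hdb]; exact (mem_bd.1 heb).2.1) hdW one_pos hdF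
    rw [hdb, h3, h4] at h5
    norm_num at h5

/-- **I3(p q)**: one of the triples without `p`, `q`, or all inner ends -1 -/
theorem X6.inI3 [Infinite V] [Infinite D] (h : X6 G t fr F jm) (b : IBlk G t W 1)
    (hJ : ∀ d ∈ G.bd W, d ∉ F) (hU : 4 ≤ (G.vs \ W).card ∨ (fr ∩ W).card < fr.card)
    {p q r s : D} (hbd : G.bd W = {p, q, r, s}) (hnd : [p, q, r, s].Nodup)
    (hpq : G.pi p ≠ G.pi q)
    (epq : ∀ X ⊆ W, Even X.card → G.pi p ∈ X → G.pi q ∈ X → G.val one1 t X ≠ 4)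
    (hs : SpI G fr jm W ∅ S) :
    (∃ M, G.GHalf one1 fr F jm W M ∧ (G.Tr W M p ∨ G.Tr W M q)) ∨
      ∃ f, G.HPot one1 t F W f ∧ ∀ d ∈ G.bd W, f (G.pi d) = -1 := by
  have hn : p ≠ q ∧ p ≠ r ∧ p ≠ s ∧ q ≠ r ∧ q ≠ s ∧ r ≠ s := by
    simp only [List.nodup_cons, List.mem_cons, List.not_mem_nil, or_false, not_or, not_false_iff,
      List.nodup_nil, and_true] at hnd
    obtain ⟨⟨h1, h2, h3⟩, ⟨h4, h5⟩, h6⟩ := hnd
    exact ⟨h1, h2, h3, h4, h5, h6⟩
  obtain ⟨n1, n2, n3, n4, n5, n6⟩ := hn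
  have hinj : Function.Injective ![p, q, r, s] := by
    intro i j hij
    fin_cases i <;> fin_cases j <;> simp_all
  have hmem : ∀ i, ![p, q, r, s] i ∈ G.bd W := by
    intro i
    rw [hbd]
    fin_cases i <;> simp
  have hT : ∀ d ∈ (∅ : Finset D), ∀ i, ![p, q, r, s] i ≠ d := fun d hd => absurd hd (notMem_empty d)
  rcases h.tplI b Tpl.abb_reg Tpl.abb_tab (by decide) rfl (pp := ![p, q, r, s])
    hmem hinj (by
      rcases hU with hU | hU
      · exact Or.inr (by omega)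
      · exact Or.inl (by rwa [inter_comm] at hU ⊢))
    (hs.card h.fresh h.jm2 hJ) (hs.drop hT)
    (fun v _ => by
      rw [mem_filter]
      refine ⟨mem_univ _, ?_⟩
      rintro ⟨k1, k2⟩
      have k3 : G.pi p ∈ ({v} : Finset V) := (mem_filter.1 k1).2
      have k4 : G.pi q ∈ ({v} : Finset V) := (mem_filter.1 k2).2
      exact hpq ((mem_singleton.1 k3).trans (mem_singleton.1 k4).symm))
    (fun X hX he hXn _ h4 => by
      rw [mem_filter]
      refine ⟨mem_univ _, ?_⟩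
      rintro ⟨k1, k2⟩
      exact epq X hX he (mem_filter.1 k1).2 (mem_filter.1 k2).2 h4)
    (fun _ _ _ _ _ _ => mem_univ _) with
    ⟨M, m, h1, h2⟩ | ⟨f, cc, h1, -, h2, h3, h4⟩
  · left
    have h3 := h1.isol h.fresh hJ (hs.drop hT)
    obtain ⟨h6, -⟩ := h3.out h.fresh h.jm2 hJ hs fun d hd => absurd hd (notMem_empty d)
    refine ⟨M, h6, ?_⟩
    have m0 : ∀ i, ![p, q, r, s] i ∈ M ↔ i ∈ univ.filter fun i => ![p, q, r, s] i ∈ M :=
      fun i => by
        rw [mem_filter]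
        exact ⟨fun k => ⟨mem_univ _, k⟩, fun k => k.2⟩
    have m1 := m0 0
    have m2 := m0 1
    have m3 := m0 2
    have m4 := m0 3
    rcases Tpl.abb_pat _ _ h2 with h5 | h5
    · right
      rw [h5] at m1 m2 m3 m4
      refine ⟨hmem 1, fun e he => ?_⟩
      rw [hbd, mem_insert, mem_insert, mem_insert, mem_singleton] at he
      rcases he with rfl | rfl | rfl | rfl
      · exact ⟨fun _ => n1, fun _ => m1.2 (by decide)⟩
      · exact ⟨fun k => absurd (m2.1 k) (by decide), fun k => absurd rfl k⟩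
      · exact ⟨fun _ => n4.symm, fun _ => m3.2 (by decide)⟩
      · exact ⟨fun _ => n5.symm, fun _ => m4.2 (by decide)⟩
    · left
      rw [h5] at m1 m2 m3 m4
      refine ⟨hmem 0, fun e he => ?_⟩
      rw [hbd, mem_insert, mem_insert, mem_insert, mem_singleton] at he
      rcases he with rfl | rfl | rfl | rfl
      · exact ⟨fun k => absurd (m1.1 k) (by decide), fun k => absurd rfl k⟩
      · exact ⟨fun _ => n1.symm, fun _ => m2.2 (by decide)⟩
      · exact ⟨fun _ => n2.symm, fun _ => m3.2 (by decide)⟩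
      · exact ⟨fun _ => n3.symm, fun _ => m4.2 (by decide)⟩
  · right
    refine ⟨f, h1, fun d hd => ?_⟩
    have e0 := h4 0
    have e1 := h4 1
    have e2 := h4 2
    have e3 := h4 3
    have c0 : cc (Tpl.abb.pt 0) = 1 := h3 0 (by decide)
    have c1 : cc (Tpl.abb.pt 1) = 1 := h3 0 (by decide)
    have c2 : cc (Tpl.abb.pt 2) = 1 := h3 1 (by decide)
    have c3 : cc (Tpl.abb.pt 3) = 1 := h3 2 (by decide)
    rw [c0] at e0
    rw [c1] at e1
    rw [c2] at e2
    rw [c3] at e3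
    change f (G.pi p) + 1 = 0 at e0
    change f (G.pi q) + 1 = 0 at e1
    change f (G.pi r) + 1 = 0 at e2
    change f (G.pi s) + 1 = 0 at e3
    rw [hbd, mem_insert, mem_insert, mem_insert, mem_singleton] at hd
    rcases hd with rfl | rfl | rfl | rfl <;> linarith

/-- **In(e)***: the exit `e` at the vertex `b` (two inner darts) is used, or half of a certificate
with the value -1 at `b` and 1 at the other exits -/
theorem X6.inIn [Infinite V] [Infinite D] (h : X6 G t fr F jm) (b : IBlk G t W 1)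
    (hJ : ∀ d ∈ G.bd W, d ∉ F) {eb : D} (heb : eb ∈ G.bd W)
    (h1b : ∀ d ∈ G.bd W, G.pi d = G.pi eb → d = eb) (htb : t (G.pi eb) = 0)
    (hbf : G.pi eb ∉ fr) (hs : SpI G fr jm W T S) (hcT : eb ∉ T) :
    (∃ M, G.GHalf one1 fr F jm W M ∧ (T.Nonempty → G.LkS fr F W M T S) ∧ G.Sg W M eb) ∨
      ∃ f, G.HPot one1 t F W f ∧ f (G.pi eb) = -1 ∧ ∀ d ∈ G.bd W, d ≠ eb → f (G.pi d) = 1 := by
  obtain ⟨k1, k2, k3⟩ := mem_bd.1 heb
  have hbv : G.pi eb ∈ G.vs := b.hA k2
  have hA : W.erase (G.pi eb) ⊆ G.vs := (erase_subset _ _).trans b.hA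
  have hins : insert (G.pi eb) (W.erase (G.pi eb)) = W := insert_erase k2
  have hpar : (W.erase (G.pi eb)).card % 2 = 0 := by
    have h2 := b.par
    have h3 := card_erase_of_mem k2
    have h4 : 0 < W.card := card_pos.2 ⟨_, k2⟩
    omega
  -- exits of the smaller set
  have hbdA : ∀ d, d ∈ G.bd (W.erase (G.pi eb)) ↔ (d ∈ G.bd W ∧ d ≠ eb) ∨
      (d ∈ G.ds ∧ G.pi d ∈ W ∧ G.pi (G.al d) = G.pi eb) := by
    intro d
    rw [mem_bd, mem_bd, mem_erase, mem_erase]
    constructor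
    · rintro ⟨u1, ⟨u2, u3⟩, u4⟩
      by_cases u5 : G.pi (G.al d) = G.pi eb
      · exact Or.inr ⟨u1, u3, u5⟩
      · refine Or.inl ⟨⟨u1, u3, fun k => u4 ⟨u5, k⟩⟩, ?_⟩
        rintro rfl
        exact u2 rfl
    · rintro (⟨⟨u1, u2, u3⟩, u4⟩ | ⟨u1, u2, u3⟩)
      · exact ⟨u1, ⟨fun k => u4 (h1b d (mem_bd.2 ⟨u1, u2, u3⟩) k), u2⟩, fun k => u3 k.2⟩
      · exact ⟨u1, ⟨fun k => G.noloop d u1 (u3.trans k.symm), u2⟩, fun k => k.1 u3⟩
  have hval : G.val one1 t (W.erase (G.pi eb)) = 6 := by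
    have h2 := h.wt.val_erase b.hA k2
    have h3 := b.val
    have h4 : G.ed {G.pi eb} (G.vs \ W) = {eb} := by
      ext d
      rw [mem_ed, mem_singleton, mem_singleton, mem_sdiff]
      constructor
      · rintro ⟨u1, u2, -, u3⟩
        exact h1b d (mem_bd.2 ⟨u1, by rw [u2]; exact k2, u3⟩) u2
      · rintro rfl
        exact ⟨k1, rfl, G.pi_mem _ (G.al_mem _ k1), k3⟩
    rw [h2, h3, h4, sum_singleton, htb]
    unfold one1
    norm_num
  have hp0 : Function.Injective (Fin.elim0 : Fin 0 → D) := fun i => i.elim0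
  have hdr : ∀ d ∈ G.bd (W.erase (G.pi eb)), Drop G (W.erase (G.pi eb)) (Fin.elim0 : Fin 0 → D) d :=
    fun d hd => ⟨hd, fun i => i.elim0⟩
  have hf : TOk.TFact G t (W.erase (G.pi eb)) (Fin.elim0 : Fin 0 → D) 0 6 univ
      (fun _ => 0) (fun _ => 0) := by
    refine ⟨fun _ _ => mem_univ _, ?_, ?_, ?_, hpar⟩
    · intro X hX _ _ _
      obtain ⟨n, hn, -⟩ := h.val_nat (hX.trans hA)
      exact ⟨n, hn, Nat.zero_le _⟩
    · intro X hX _ _ _
      obtain ⟨n, hn, -⟩ := h.val_nat (hX.trans hA)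
      exact ⟨n, hn, Nat.zero_le _⟩
    · rw [hval]
      norm_num
  have hTA : ∀ v ∈ T.image G.pi ∪ S, v ∈ jm ∨ ∃ d, Drop G (W.erase (G.pi eb))
      (Fin.elim0 : Fin 0 → D) d ∧ G.pi d = v := by
    intro v hv
    rcases mem_union.1 hv with h1 | h1
    · obtain ⟨d, hd, rfl⟩ := mem_image.1 h1
      refine Or.inr ⟨d, hdr d ((hbdA d).2 (Or.inl ⟨hs.1 hd, ?_⟩)), rfl⟩
      rintro rfl
      exact hcT hd
    · rcases hs.drop (pp := (Fin.elim0 : Fin 0 → D)) (fun _ _ i => i.elim0) v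
        (mem_union_right _ h1) with h2 | h2
      · exact Or.inl h2
      · left
        rcases hs.2.2 with ⟨-, h4, -⟩ | ⟨-, h4, -⟩ | ⟨-, h4, -⟩ | ⟨-, h4, -, -⟩
        · rw [h4] at h1
          exact absurd h1 (notMem_empty v)
        · rw [h4] at h1
          exact h1
        · rw [h4] at h1
          exact absurd h1 (notMem_empty v)
        · rw [h4] at h1
          exact (mem_inter.1 h1).1
  have hTW : ∀ v ∈ T.image G.pi ∪ S, v ∈ jm ∨ ∃ d ∈ G.bd (insert (G.pi eb) (W.erase (G.pi eb))),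
      (∀ i, (Fin.elim0 : Fin 0 → D) i ≠ d) ∧ G.pi d = v := by
    rw [hins]
    intro v hv
    rcases hs.drop (pp := (Fin.elim0 : Fin 0 → D)) (fun _ _ i => i.elim0) v hv with h2 | ⟨d, h2, h3⟩
    · exact Or.inl h2
    · exact Or.inr ⟨d, h2.1, h2.2, h3⟩
  rcases h.tplG (Ts := T.image G.pi ∪ S) hA
    ⟨G.pi eb, mem_sdiff.2 ⟨hbv, fun k => (mem_erase.1 k).1 rfl⟩⟩ Tpl.emp_reg
    (Tpl.emp_tab 0 6 _ _ _) (pp := Fin.elim0) (fun i => i.elim0) hp0 hf
    (by rw [Nat.even_iff]; omega)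
    (by
      have h2 : (G.bd (W.erase (G.pi eb))).filter (fun d => ∀ i, (Fin.elim0 : Fin 0 → D) i ≠ d) =
          G.bd (W.erase (G.pi eb)) := by
        rw [filter_eq_self]
        exact fun d _ i => i.elim0
      have h3 : Tpl.emp.nT univ = 0 := by decide
      rw [val_one] at hval
      rw [h2, h3]
      push_cast
      linarith)
    (hs.card h.fresh h.jm2 hJ) hTA
    (Or.inr (by
      have h2 : (W.erase (G.pi eb)).card < G.vs.card := by
        refine card_lt_card ⟨hA, fun k => ?_⟩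
        exact (mem_erase.1 (k hbv)).1 rfl
      omega)) with ⟨M, m, h1, -⟩ | ⟨p, cc, h1, h2, -⟩
  · left
    have h3 := h1.addQ h.fresh (notMem_erase _ _) hbf (eb := eb) (by rwa [hins]) rfl
      (fun i => i.elim0) (by rwa [hins]) hTW
    rw [hins] at h3
    have hiff : ∀ e ∈ G.bd W, e ∈ insert eb M ↔ e = eb := by
      intro e he
      rw [mem_insert]
      constructor
      · rintro (k | k)
        · exact k
        · by_contra hne
          obtain ⟨i, -⟩ := h1.ex e ((hbdA e).2 (Or.inl ⟨he, hne⟩)) k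
          exact i.elim0
      · exact Or.inl
    obtain ⟨h6, h7⟩ := h3.out h.fresh h.jm2 hJ hs fun d hd hdM =>
      hcT (((hiff d (hs.1 hd)).1 hdM) ▸ hd)
    exact ⟨_, h6, h7, heb, hiff⟩
  · right
    have h3 : G.HPot one1 t F (insert (G.pi eb) (W.erase (G.pi eb)))
        (fun v => if v = G.pi eb then -1 else p v) := by
      refine h1.insert htb (fun d hd hdb => hbf (hdb ▸ h.fresh.Ffr d hd)) h.fresh.Fal ?_
        (fun _ _ => rfl)
      intro d hd hdb hdA _
      have h4 : G.al d ∈ G.bd (W.erase (G.pi eb)) := by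
        refine mem_bd.2 ⟨G.al_mem d hd, hdA, ?_⟩
        rw [G.al_al d hd, hdb]
        exact notMem_erase _ _
      exact h2 _ (hdr _ h4)
    rw [hins] at h3
    refine ⟨_, h3, by rw [if_pos rfl], fun d hd hne => ?_⟩
    rw [if_neg fun k => hne (h1b d hd k)]
    exact h2 _ (hdr _ ((hbdA d).2 (Or.inl ⟨hd, hne⟩)))

end MG

end RH
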