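import Pool.Agent.Lib.RH.CE6EvenA
import Pool.Agent.Lib.RH.TplX
import Pool.Agent.Lib.RH.GluT

/-! # (E): no even set of value 4 with a real token

`EvB G t F jm Y`: an even set `Y` of value 4 with a token which is not a star vertex, not crossed by
F-darts. `EvB.glue0`: the other side has no half without used exits. `EvB.n1`, `EvB.n2`: at least
three exits. -/

set_option autoImplicit false

namespace RH

open Finset Classical

namespace MG

variable {V D : Type*} {G : MG V D} {t : V → ℝ} {fr : Finset V} {F : Finset D}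
variable {jm Y X : Finset V} {T M2 : Finset D} {S : Finset V}

/-- an even set of value 4 with a real token -/
structure EvB (G : MG V D) (t : V → ℝ) (F : Finset D) (jm Y : Finset V) : Prop where
  hY : Y ⊆ G.vs
  ev : Even Y.card
  big : 4 ≤ Y.card
  two : 2 ≤ (G.vs \ Y).card
  val : G.val one1 t Y = 4
  hF : ∀ d ∈ F, G.pi d ∈ Y → G.pi (G.al d) ∈ Y
  real : ∃ y ∈ Y, t y ≠ 0 ∧ y ∉ jm

/-- boundary darts of the complement -/
theorem bd_compl {A : Finset V} (_hA : A ⊆ G.vs) {d : D} : d ∈ G.bd (G.vs \ A) ↔ G.al d ∈ G.bd A ∧ d ∈ G.ds := by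
  rw [mem_bd, mem_bd, mem_sdiff, mem_sdiff]
  constructor
  · rintro ⟨h1, ⟨h2, h3⟩, h4⟩
    have h5 : G.pi (G.al d) ∈ A := by
      by_contra h5
      exact h4 ⟨G.pi_mem _ (G.al_mem d h1), h5⟩
    exact ⟨⟨G.al_mem d h1, h5, by rw [G.al_al d h1]; exact h3⟩, h1⟩
  · rintro ⟨⟨h1, h2, h3⟩, h4⟩
    rw [G.al_al d h4] at h3
    exact ⟨h4, ⟨G.pi_mem d h4, h3⟩, fun h5 => h5.2 h2⟩

theorem bd_compl' {A : Finset V} (hA : A ⊆ G.vs) {d : D} (hd : d ∈ G.bd A) :
    G.al d ∈ G.bd (G.vs \ A) := by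
  have h1 := (mem_bd.1 hd).1
  exact (bd_compl hA).2 ⟨by rw [G.al_al d h1]; exact hd, G.al_mem d h1⟩

namespace EvB

variable (b : EvB G t F jm Y)
include b

theorem ne : Y ≠ G.vs := fun e => by
  have := b.two
  rw [e, sdiff_self, bot_eq_empty, card_empty] at this
  omega

theorem nJ : ∀ d ∈ G.bd Y, d ∉ F := fun _ hd => bd_nF b.hF hd

theorem hFZ (hF : G.FrS one1 fr F jm) : ∀ d ∈ F, G.pi d ∈ G.vs \ Y → G.pi (G.al d) ∈ G.vs \ Y := by
  intro d hd h1
  have h2 := hF.Fsub hd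
  refine mem_sdiff.2 ⟨G.pi_mem _ (G.al_mem d h2), fun h3 => (mem_sdiff.1 h1).2 ?_⟩
  have h4 := b.hF _ (hF.Fal d hd) h3
  rwa [G.al_al d h2] at h4

theorem cardZ : (G.bd (G.vs \ Y)).card = (G.bd Y).card := by
  symm
  refine card_bij (fun d _ => G.al d) (fun d hd => bd_compl' b.hY hd) ?_ ?_
  · intro d hd e he k
    rw [← G.al_al d (mem_bd.1 hd).1, k, G.al_al e (mem_bd.1 he).1]
  · intro d hd
    obtain ⟨h1, h2⟩ := (bd_compl b.hY).1 hd
    exact ⟨G.al d, h1, G.al_al d h2⟩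

/-- tokens and exits -/
theorem tok (h : EK G 6 t fr F jm) : ∑ v ∈ Y, t v + ((G.bd Y).card : ℝ) = 4 ∧
    G.val one1 t (G.vs \ Y) = 2 + 2 * ((G.bd Y).card : ℝ) := by
  have h1 := b.val
  have h2 := h.val_compl b.hY
  rw [h1] at h2
  rw [val_one] at h1
  constructor <;> linarith

/-- at least one token, and the star tokens -/
theorem tok1 (h : EK G 6 t fr F jm) : 1 + ((Y ∩ jm).card : ℝ) ≤ ∑ v ∈ Y, t v := by
  obtain ⟨y, hy, hty, hyj⟩ := b.real
  obtain ⟨n, hn, -⟩ := h.tnat (b.hY hy)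
  have h1 : (1 : ℝ) ≤ t y := by
    rw [hn] at hty ⊢
    have h2 : n ≠ 0 := by
      rintro rfl
      exact hty (by norm_num)
    exact_mod_cast Nat.one_le_iff_ne_zero.2 h2
  have h2 : insert y (Y ∩ jm) ⊆ Y := insert_subset hy inter_subset_left
  have h3 : ∑ v ∈ insert y (Y ∩ jm), t v ≤ ∑ v ∈ Y, t v :=
    sum_le_sum_of_subset_of_nonneg h2 fun v hv _ => h.t0 v (b.hY hv)
  rw [sum_insert fun k => hyj (mem_inter.1 k).2] at h3
  have h4 : ∑ v ∈ Y ∩ jm, t v = ((Y ∩ jm).card : ℝ) := by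
    have h5 : ∀ v ∈ Y ∩ jm, t v = 1 := fun v hv => h.fresh.t_jm h.wt (mem_inter.1 hv).2
    rw [sum_congr rfl h5, sum_const, nsmul_eq_mul, mul_one]
  linarith

/-- exits and star vertices: at most 3 -/
theorem exits (h : EK G 6 t fr F jm) : (G.bd Y).card + (Y ∩ jm).card ≤ 3 := by
  have h1 := (b.tok h).1
  have h2 := b.tok1 h
  have h3 : (((G.bd Y).card + (Y ∩ jm).card : ℕ) : ℝ) ≤ (3 : ℕ) := by
    push_cast
    linarith
  exact_mod_cast h3

/-- different exits have different inner ends -/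
theorem inj (h : EK G 6 t fr F jm) : ∀ d ∈ G.bd Y, ∀ e ∈ G.bd Y, G.pi d = G.pi e → d = e := by
  intro d hd e he hde
  by_contra hne
  obtain ⟨k1, k2, k3⟩ := mem_bd.1 hd
  have h1 := h.wt.val_erase b.hY k2
  have h2 : (Y.erase (G.pi d)).card = Y.card - 1 := card_erase_of_mem k2
  have h3 := b.ev
  have h4 := b.big
  have h5 := h.odd (Y.erase (G.pi d)) ((erase_subset _ _).trans b.hY) (by
    rw [Nat.even_iff] at h3
    rw [h2, Nat.odd_iff]
    omega) (by omega)
  have h6 : ({d, e} : Finset D) ⊆ G.ed {G.pi d} (G.vs \ Y) := by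
    intro x hx
    rw [mem_insert, mem_singleton] at hx
    rcases hx with rfl | rfl
    · exact mem_ed.2 ⟨k1, mem_singleton_self _, mem_sdiff.2 ⟨G.pi_mem _ (G.al_mem _ k1), k3⟩⟩
    · obtain ⟨l1, l2, l3⟩ := mem_bd.1 he
      exact mem_ed.2 ⟨l1, mem_singleton.2 hde.symm,
        mem_sdiff.2 ⟨G.pi_mem _ (G.al_mem _ l1), l3⟩⟩
  have h7 : ((2 : ℕ) : ℝ) ≤ ∑ d ∈ G.ed {G.pi d} (G.vs \ Y), one1 d := by
    unfold one1
    rw [sum_const, nsmul_eq_mul, mul_one]
    have h8 := card_le_card h6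
    rw [card_pair hne] at h8
    exact_mod_cast h8
  have h9 := h.t0 _ (b.hY k2)
  have h10 := b.val
  push_cast at h7
  linarith

/-- the half without used exits, for any pair of specials -/
theorem half0 (h : X6 G t fr F jm) {T : Finset D} {S : Finset V}
    (hs : T = ∅ ∨ (G.Spc fr jm (G.vs \ Y) T S)) :
    ∃ M1, G.GHalf one1 fr F jm Y M1 ∧ (∀ d ∈ G.bd Y, d ∉ M1) ∧
      (T.Nonempty → G.LkS fr F Y M1 (T.image G.al) S) := by
  have hE := h.toEK
  have hlt : Y.card < G.vs.card := by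
    have := b.two
    have := card_sdiff_add_card_eq_card b.hY
    omega
  have hex := b.exits hE
  -- trivial choice of the star
  have h0 : (T.Nonempty → ∃ d ∈ T.image G.al, G.pi d ∉ fr) → ∃ M1, G.GHalf one1 fr F jm Y M1 ∧
      (∀ d ∈ G.bd Y, d ∉ M1) ∧ (T.Nonempty → G.LkS fr F Y M1 (T.image G.al) S) := by
    intro hn
    by_cases hj : jm ⊆ Y
    · obtain ⟨M, h1, h2, -⟩ := h.res0 (T := jm) b.hY b.ev hlt b.hF b.val h.jm2
        (fun _ _ => rfl) (fun v hv hvj => absurd hv hvj)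
      exact ⟨M, h1, h2, fun hT => by
        obtain ⟨d, hd, hdf⟩ := hn hT
        exact (Lk.of_not_fr hd hdf).toS⟩
    · obtain ⟨M, h1, h2, -⟩ := h.res0 (T := ∅) b.hY b.ev hlt b.hF b.val (Or.inl rfl)
        (fun _ k => absurd k hj) (fun v hv => absurd hv (notMem_empty v))
      exact ⟨M, h1, h2, fun hT => by
        obtain ⟨d, hd, hdf⟩ := hn hT
        exact (Lk.of_not_fr hd hdf).toS⟩
  by_cases hall : T.Nonempty ∧ ∀ d ∈ T.image G.al, G.pi d ∈ fr
  · obtain ⟨hTn, hall⟩ := hall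
    rcases hs with hs | hs
    · rw [hs] at hTn
      exact absurd hTn not_nonempty_empty
    obtain ⟨s1, s2, s3⟩ := hs
    have hin : ∀ d ∈ T.image G.al, d ∈ G.bd Y := by
      intro d hd
      obtain ⟨e, he, rfl⟩ := mem_image.1 hd
      exact ((bd_compl b.hY).1 (s1 he)).1
    have hTa : (T.image G.al).card = T.card := by
      refine card_image_of_injOn fun d hd e he k => ?_
      have k1 := ((bd_compl b.hY).1 (s1 (mem_coe.1 hd))).2
      have k2 := ((bd_compl b.hY).1 (s1 (mem_coe.1 he))).2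
      have k' : G.al d = G.al e := k
      rw [← G.al_al d k1, k', G.al_al e k2]
    have hTp : ((T.image G.al).image G.pi).card = T.card := by
      rw [← hTa]
      exact card_image_of_injOn fun d hd e he k =>
        b.inj hE d (hin d (mem_coe.1 hd)) e (hin e (mem_coe.1 he)) k
    have hnj : ∀ v ∈ (T.image G.al).image G.pi, v ∉ jm := by
      intro v hv hvj
      obtain ⟨d, hd, rfl⟩ := mem_image.1 hv
      have hd2 := hin d hd
      exact b.nJ d hd2 (h.fresh.j0 _ hvj d (mem_st.2 ⟨(mem_bd.1 hd2).1, rfl⟩))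
    have hSY : S ⊆ Y ∩ jm := by
      rcases s3 with ⟨-, k⟩ | ⟨-, k, -, -⟩
      · rw [k]
        exact empty_subset _
      · rw [k]
        intro v hv
        obtain ⟨k1, k2⟩ := mem_sdiff.1 hv
        refine mem_inter.2 ⟨?_, k1⟩
        by_contra k3
        exact k2 (mem_sdiff.2 ⟨h.fresh.fsub (h.fresh.jms k1), k3⟩)
    have hS1 : T.card = 1 → S.Nonempty → S.card = 1 := by
      intro hT1 hSn
      have k1 := card_le_card hSY
      have k2 := card_pos.2 hSn
      rcases s3 with ⟨k, -⟩ | ⟨-, k, k3, -⟩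
      · omega
      · have k4 : (Y ∩ jm).card < jm.card := by
          refine card_lt_card ⟨inter_subset_right, fun k5 => ?_⟩
          obtain ⟨v, hv⟩ := k3
          obtain ⟨k6, k7⟩ := mem_inter.1 hv
          exact (mem_sdiff.1 k7).2 (mem_inter.1 (k5 k6)).1
        rcases h.jm2 with k6 | k6
        · rw [k6, card_empty] at k4
          omega
        · omega
    have hTS : ((T.image G.al).image G.pi ∪ S).card = 2 := by
      rw [card_union_of_disjoint, hTp]
      · rcases s3 with ⟨k, k2⟩ | ⟨k, k2, k3, k4⟩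
        · rw [k, k2, card_empty]
        · rw [k, hS1 k (by rw [k2]; exact k4)]
      · rw [disjoint_left]
        intro v hv hvS
        exact hnj v hv (mem_inter.1 (hSY hvS)).2
    obtain ⟨M, h1, h2, h3⟩ := h.res0 (T := (T.image G.al).image G.pi ∪ S) b.hY b.ev hlt b.hF b.val
      (Or.inr hTS) (by
        intro hjn hjY
        exfalso
        rcases s3 with ⟨k, k2⟩ | ⟨k, k2, k3, k4⟩
        · have k5 := card_le_card s1
          rw [b.cardZ, k] at k5
          have k6 : Y ∩ jm = jm := inter_eq_right.2 hjY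
          rw [k6] at hex
          rcases h.jm2 with k7 | k7
          · rw [k7] at hjn
            exact absurd hjn not_nonempty_empty
          · omega
        · obtain ⟨v, hv⟩ := k3
          obtain ⟨k6, k7⟩ := mem_inter.1 hv
          exact (mem_sdiff.1 k7).2 (hjY k6)) (by
        intro v hv hvj
        rcases mem_union.1 hv with k | k
        · obtain ⟨d, hd, rfl⟩ := mem_image.1 k
          exact ⟨d, hin d hd, rfl⟩
        · exact absurd (mem_inter.1 (hSY k)).2 hvj)
    refine ⟨M, h1, h2, fun _ X hX hXY hcl hXX => ?_⟩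
    obtain ⟨k1, k2⟩ := hXX
    refine h3 ?_ X hX hXY ?_ ?_
    · exact card_pos.1 (by rw [hTS]; norm_num)
    · refine union_subset (fun v hv => ?_) k2
      obtain ⟨d, hd, rfl⟩ := mem_image.1 hv
      exact k1 d hd
    · intro d hd
      rcases hcl d hd with k | k
      · exact Or.inl k
      · exact Or.inr ⟨hin d k, mem_union_left _ (mem_image_of_mem _ k)⟩
  · refine h0 fun hTn => ?_
    by_contra hcon
    push Not at hcon
    exact hall ⟨hTn, hcon⟩

/-- **no outer half without used exits** -/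
theorem glue0 (h : X6 G t fr F jm) {M2 : Finset D} (h2 : G.GHalf one1 fr F jm (G.vs \ Y) M2)
    (h0 : ∀ d ∈ G.bd (G.vs \ Y), d ∉ M2) : False := by
  have hE := h.toEK
  have hex := b.exits hE
  have hZ : G.vs \ (G.vs \ Y) = Y := Finset.sdiff_sdiff_eq_self b.hY
  have hc : ((G.bd (G.vs \ Y)).filter fun d => d ∉ M2).card ≤ (G.bd Y).card := by
    rw [← b.cardZ]
    exact card_le_card (filter_subset _ _)
  have hpat : ∀ M1 : Finset D, (∀ d ∈ G.bd Y, d ∉ M1) →
      ∀ d ∈ G.bd (G.vs \ Y), d ∈ M2 ↔ G.al d ∈ M1 := fun M1 k d hd =>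
    ⟨fun k1 => absurd k1 (h0 d hd), fun k1 => absurd k1 (k _ ((bd_compl b.hY).1 hd).1)⟩
  refine h.no_glueT h2 (by omega) ?_ (b.hFZ h.fresh) ?_ ?_
  · by_cases hj : jm ⊆ G.vs \ Y
    · exact Or.inl hj
    · right
      have k1 : 0 < (Y ∩ jm).card := by
        rw [card_pos]
        by_contra k
        rw [not_nonempty_iff_eq_empty] at k
        refine hj fun v hv => mem_sdiff.2 ⟨h.fresh.fsub (h.fresh.jms hv), fun k2 => ?_⟩
        have k3 : v ∈ Y ∩ jm := mem_inter.2 ⟨k2, hv⟩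
        rw [k] at k3
        exact notMem_empty v k3
      have k2 : (jm ∩ (G.vs \ Y)).card + (Y ∩ jm).card ≤ jm.card := by
        rw [← card_union_of_disjoint]
        · refine card_le_card fun v hv => ?_
          rcases mem_union.1 hv with k3 | k3
          · exact (mem_inter.1 k3).1
          · exact (mem_inter.1 k3).2
        · rw [disjoint_left]
          intro v k3 k4
          exact (mem_sdiff.1 (mem_inter.1 k3).2).2 (mem_inter.1 k4).1
      rcases h.jm2 with k3 | k3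
      · rw [k3, inter_empty, card_empty] at k1
        omega
      · omega
  · obtain ⟨M1, k1, k2, -⟩ := b.half0 h (T := ∅) (S := ∅) (Or.inl rfl)
    exact ⟨M1, by rw [hZ]; exact k1, hpat M1 k2⟩
  · intro T S hs _
    obtain ⟨M1, k1, k2, k3⟩ := b.half0 h (Or.inr hs)
    refine ⟨M1, by rw [hZ]; exact k1, hpat M1 k2, ?_⟩
    rw [hZ]
    refine k3 ?_
    rcases hs.2.2 with ⟨k, -⟩ | ⟨k, -⟩
    · exact card_pos.1 (by rw [k]; norm_num)
    · exact card_pos.1 (by rw [k]; norm_num)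


/-- the numbering of the exits -/
theorem enum {n : ℕ} (hn : (G.bd Y).card = n) :
    ∃ pp : Fin n → D, G.bd Y = univ.image pp ∧ Function.Injective pp ∧
      G.bd (G.vs \ Y) = univ.image (fun i => G.al (pp i)) ∧
      Function.Injective (fun i => G.al (pp i)) := by
  obtain ⟨pp, hpp⟩ : ∃ pp : Fin n → D, G.bd Y = univ.image pp ∧ Function.Injective pp := by
    have e := (G.bd Y).equivFinOfCardEq hn
    refine ⟨fun i => (e.symm i).1, ?_, fun i j k => e.symm.injective (Subtype.ext k)⟩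
    ext d
    rw [mem_image]
    constructor
    · intro hd
      exact ⟨e ⟨d, hd⟩, mem_univ _, by simp⟩
    · rintro ⟨i, -, rfl⟩
      exact (e.symm i).2
  obtain ⟨h1, h2⟩ := hpp
  have hm : ∀ i, pp i ∈ G.ds := fun i => (mem_bd.1 (by
    rw [h1]
    exact mem_image_of_mem _ (mem_univ i) : pp i ∈ G.bd Y)).1
  refine ⟨pp, h1, h2, ?_, ?_⟩
  · ext d
    rw [bd_compl b.hY, h1, mem_image, mem_image]
    constructor
    · rintro ⟨⟨i, -, hi⟩, k⟩
      exact ⟨i, mem_univ _, by rw [hi, G.al_al d k]⟩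
    · rintro ⟨i, -, rfl⟩
      exact ⟨⟨i, mem_univ _, (G.al_al _ (hm i)).symm⟩, G.al_mem _ (hm i)⟩
  · intro i j k
    have k' : G.al (pp i) = G.al (pp j) := k
    apply h2
    rw [← G.al_al _ (hm i), k', G.al_al _ (hm j)]

/-- data for the engine, inner side -/
theorem iblk : IBlk G t Y 0 where
  hA := b.hY
  par := Nat.even_iff.1 b.ev
  ne := card_pos.1 (by have := b.two; omega)
  val := by
    rw [b.val]
    norm_num

/-- data for the engine, outer side -/
theorem oblk (hF : G.FrS one1 fr F jm) : OBlk G t F (G.vs \ Y) 0 where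
  hA := sdiff_subset
  par := by
    rw [Finset.sdiff_sdiff_eq_self b.hY]
    exact Nat.even_iff.1 b.ev
  two := by
    rw [Finset.sdiff_sdiff_eq_self b.hY]
    have := b.big
    omega
  val := by
    rw [Finset.sdiff_sdiff_eq_self b.hY, b.val]
    norm_num
  hF := b.hFZ hF

/-- at least one exit -/
theorem n0 (h : X6 G t fr F jm) : (G.bd Y).card ≠ 0 := by
  intro h0
  have hE := h.toEK
  have h1 := (b.tok hE).2
  rw [h0] at h1
  have h2 := b.two
  have h3 : Even (G.vs \ Y).card := by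
    have h4 := card_sdiff_add_card_eq_card b.hY
    have h5 := h.even
    have h6 := b.ev
    rw [Nat.even_iff] at h5 h6 ⊢
    omega
  have h4 := hE.evn (G.vs \ Y) sdiff_subset h3 (card_pos.1 (by omega)) (fun e => by
    have h5 := card_sdiff_add_card_eq_card b.hY
    have h6 := b.big
    rw [e] at h5
    omega)
  rw [h1] at h4
  norm_num at h4

/-- at least two exits -/
theorem n1 (h : X6 G t fr F jm) : (G.bd Y).card ≠ 1 := by
  intro h0
  have hE := h.toEK
  have h1 := (b.tok hE).2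
  rw [h0] at h1
  have h3 : Even (G.vs \ Y).card := by
    have h4 := card_sdiff_add_card_eq_card b.hY
    have h5 := h.even
    have h6 := b.ev
    rw [Nat.even_iff] at h5 h6 ⊢
    omega
  have hlt : (G.vs \ Y).card < G.vs.card := by
    have := b.big
    have := card_sdiff_add_card_eq_card b.hY
    omega
  have h5 : G.val one1 t (G.vs \ Y) = 4 := by
    rw [h1]
    norm_num
  by_cases hj : jm ⊆ G.vs \ Y
  · obtain ⟨M, k1, k2, -⟩ := h.res0 (T := jm) sdiff_subset h3 hlt (b.hFZ h.fresh) h5 h.jm2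
      (fun _ _ => rfl) (fun v hv hvj => absurd hv hvj)
    exact b.glue0 h k1 k2
  · obtain ⟨M, k1, k2, -⟩ := h.res0 (T := ∅) sdiff_subset h3 hlt (b.hFZ h.fresh) h5
      (Or.inl rfl) (fun _ k => absurd k hj) (fun v hv => absurd hv (notMem_empty v))
    exact b.glue0 h k1 k2

/-- two halves with the same pattern and at most one unused exit, the star outside or split -/
theorem glueP (h : X6 G t fr F jm) {M1 M2 : Finset D} (h1 : G.GHalf one1 fr F jm Y M1)
    (h2 : G.GHalf one1 fr F jm (G.vs \ Y) M2) (hx : ∀ d ∈ G.bd Y, d ∈ M1 ↔ G.al d ∈ M2)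
    (hc : ((G.bd Y).filter fun d => d ∉ M1).card = 0 ∨
      (((G.bd Y).filter fun d => d ∉ M1).card ≤ 1 ∧ Disjoint jm Y)) : False := by
  have hE := h.toEK
  refine h.bad ⟨_, GHalf.glueA h.fresh h.jm2 h1 h2 hx b.hF fun X hX hcl => ?_⟩
  have hpm := HM.glue h1.hm h2.hm hx
  have hone : ∀ d, G.pi d ∈ Y → d ∈ M1 ∪ M2 → d ∈ M1 := by
    intro d hd hm
    rcases mem_union.1 hm with hm | hm
    · exact hm
    · exact absurd hd (mem_sdiff.1 (h2.hm.sub d hm).2).2
  have hsub : G.uX F (M1 ∪ M2) X Y ⊆ (G.bd Y).filter fun d => d ∉ M1 := by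
    intro d hd
    obtain ⟨k1, k2, k3, k4, k5, k6, k7⟩ := mem_uX.1 hd
    exact mem_filter.2 ⟨mem_bd.2 ⟨k1, k6, k7⟩, fun k => k3 (mem_union_left _ k)⟩
  have heq : (G.bd (X ∩ Y)).filter (fun d => d ∉ M1) = G.uX F (M1 ∪ M2) X Y := by
    ext d
    rw [mem_filter, mem_uX, mem_bd, mem_inter]
    constructor
    · rintro ⟨⟨k1, ⟨k2, k3⟩, k4⟩, k5⟩
      have k6 : d ∉ M1 ∪ M2 := fun k => k5 (hone d k3 k)
      have k7 : G.pi (G.al d) ∈ X := by
        by_contra k7
        exact k6 (hcl d (mem_bd.2 ⟨k1, k2, k7⟩))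
      have k8 : G.pi (G.al d) ∉ Y := fun k => k4 (mem_inter.2 ⟨k7, k⟩)
      exact ⟨k1, fun k => k8 (b.hF d k k3), k6, k2, k7, k3, k8⟩
    · rintro ⟨k1, k2, k3, k4, k5, k6, k7⟩
      exact ⟨⟨k1, ⟨k4, k6⟩, fun k => k7 (mem_inter.1 k).2⟩,
        fun k => k3 (mem_union_left _ k)⟩
  rcases hc with hc | ⟨hc, hj⟩
  · rw [card_eq_zero] at hc
    rw [hc] at hsub
    exact subset_empty.1 hsub
  · have k1 := card_le_card hsub
    have k2 := h1.hm.unused h.fresh (hX.interW b.hF) inter_subset_right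
    rw [heq] at k2
    have k3 : X ∩ Y ∩ jm = ∅ := by
      rw [← disjoint_iff_inter_eq_empty, disjoint_right]
      intro v hv hv'
      exact disjoint_left.1 hj hv (mem_inter.1 hv').2
    rw [k3, card_empty] at k2
    rw [← card_eq_zero]
    omega

/-- a vertex has at most one port -/
theorem kap1 (h : EK G 6 t fr F jm) {n : ℕ} {pp : Fin n → D} (hpb : ∀ i, pp i ∈ G.bd Y)
    (hpi : Function.Injective pp) (v : V) : TOk.kap G pp {v} ∈ Tpl.one1S n := by
  unfold Tpl.one1S
  rw [mem_filter]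
  refine ⟨mem_univ _, card_le_one.2 fun i hi j hj => ?_⟩
  have h1 := mem_singleton.1 (mem_filter.1 hi).2
  have h2 := mem_singleton.1 (mem_filter.1 hj).2
  exact hpi (b.inj h _ (hpb i) _ (hpb j) (h1.trans h2.symm))

/-- **two exits are excluded** -/
theorem n2 [Infinite V] [Infinite D] (h : X6 G t fr F jm) (hZ4 : 4 ≤ (G.vs \ Y).card) :
    (G.bd Y).card ≠ 2 := by
  intro h0
  have hE := h.toEK
  obtain ⟨pp, e1, e2, e3, e4⟩ := b.enum h0
  have hpb : ∀ i, pp i ∈ G.bd Y := fun i => by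
    rw [e1]
    exact mem_image_of_mem _ (mem_univ i)
  have hval := (b.tok hE).2
  rw [h0] at hval
  have h3 : Even (G.vs \ Y).card := by
    have h4 := card_sdiff_add_card_eq_card b.hY
    have h5 := h.even
    have h6 := b.ev
    rw [Nat.even_iff] at h5 h6 ⊢
    omega
  have hlt : (G.vs \ Y).card < G.vs.card := by
    have := b.big
    have := card_sdiff_add_card_eq_card b.hY
    omega
  have h5 : G.val one1 t (G.vs \ Y) = 6 := by
    rw [hval]
    norm_num
  obtain ⟨p, hp, hp1⟩ : ∃ p, G.HPot one1 t F (G.vs \ Y) p ∧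
      ∀ d ∈ G.bd (G.vs \ Y), p (G.pi d) = 1 := by
    by_cases hj : jm ⊆ G.vs \ Y
    · rcases h.res6 (T := jm) sdiff_subset h3 hlt (b.hFZ h.fresh) h5 h.jm2
        (fun _ _ => rfl) (fun v hv hvj => absurd hv hvj) with ⟨M, k1, k2, -⟩ | k
      · exact (b.glue0 h k1 k2).elim
      · exact k
    · rcases h.res6 (T := ∅) sdiff_subset h3 hlt (b.hFZ h.fresh) h5
        (Or.inl rfl) (fun _ k => absurd k hj) (fun v hv => absurd hv (notMem_empty v)) with
        ⟨M, k1, k2, -⟩ | k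
      · exact (b.glue0 h k1 k2).elim
      · exact k
  obtain ⟨S, hs⟩ := exists_spI G fr jm Y
  have hdr : ∀ d ∈ (∅ : Finset D), ∀ i, pp i ≠ d := fun d hd => absurd hd (notMem_empty d)
  rcases h.tplI b.iblk Tpl.bb_reg Tpl.bb_tab (by decide) rfl hpb e2 (Or.inr (by omega))
    (hs.card h.fresh h.jm2 b.nJ) (hs.drop hdr) (fun v _ => b.kap1 hE hpb e2 v)
    (fun _ _ _ _ _ _ => mem_univ _) (fun _ _ _ _ _ _ => mem_univ _) with
    ⟨M1, m, k1, k2⟩ | ⟨q, c, k1, -, -, k4, k5⟩
  · have k3 := k1.isol h.fresh b.nJ (hs.drop hdr)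
    obtain ⟨k6, -⟩ := k3.out h.fresh h.jm2 b.nJ hs fun d hd => absurd hd (notMem_empty d)
    have k7 : ∀ d ∈ G.bd Y, d ∈ M1 := by
      intro d hd
      rw [e1] at hd
      obtain ⟨i, -, rfl⟩ := mem_image.1 hd
      have k8 : i ∈ univ.filter fun i => pp i ∈ M1 := by
        rw [Tpl.bb_pat _ _ k2]
        fin_cases i <;> simp
      exact (mem_filter.1 k8).2
    obtain ⟨M2, m2, l1, l2⟩ := h.tplF (b.oblk h.fresh) Tpl.pq_reg Tpl.pq_tab (by norm_num)
      (by decide) rfl Tpl.pq_noC e3 e4 (Or.inr (by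
        rw [Finset.sdiff_sdiff_eq_self b.hY]
        have := b.big
        omega)) (fun v hv => (b.oblk h.fresh).one1 hE e3 e4 hv)
      (fun _ _ _ _ _ _ => mem_univ _) (fun _ _ _ _ _ _ => mem_univ _)
    have l3 : ∀ i, G.al (pp i) ∈ M2 ↔ i ∈ univ.filter fun i => G.al (pp i) ∈ M2 := fun i => by
      rw [mem_filter]
      exact ⟨fun k => ⟨mem_univ _, k⟩, fun k => k.2⟩
    rcases Tpl.pq_pat _ _ l2 with l4 | l4
    · refine b.glue0 h l1 fun d hd hdM => ?_
      rw [e3] at hd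
      obtain ⟨i, -, rfl⟩ := mem_image.1 hd
      have l5 := (l3 i).1 hdM
      rw [l4] at l5
      exact notMem_empty i l5
    · refine b.glueP h k6 l1 (fun d hd => ⟨fun _ => ?_, fun _ => k7 d hd⟩) (Or.inl ?_)
      · rw [e1] at hd
        obtain ⟨i, -, rfl⟩ := mem_image.1 hd
        rw [l3 i, l4]
        fin_cases i <;> simp
      · rw [card_eq_zero, filter_eq_empty_iff]
        exact fun d hd hn => hn (k7 d hd)
  · refine h.nc ⟨_, HPot.join k1 hp (fun _ _ => rfl) h.fresh.Fsub h.fresh.Fal ?_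
      fun d hd hF => absurd hF (b.nJ d hd)⟩
    intro d hd _ _
    rw [hp1 _ (bd_compl' b.hY hd)]
    rw [e1] at hd
    obtain ⟨i, -, rfl⟩ := mem_image.1 hd
    have k6 := k5 i
    have k7 : c (Tpl.bb.pt i) = 1 := k4 _ (by fin_cases i <;> decide)
    rw [k7] at k6
    exact k6

end EvB

end MG

end RH
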