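import Pool.Agent.Lib.RH.CE6

/-! Transport of a state to infinite types: `V ⊕ ℕ`, `D ⊕ ℕ`. -/

set_option autoImplicit false

namespace RH

open Finset Classical

namespace MG

variable {V D : Type*}

/-- the copy of a finite set in the sum -/
def cp {A : Type*} (S : Finset A) : Finset (A ⊕ ℕ) := S.map ⟨Sum.inl, Sum.inl_injective⟩

theorem mem_cp {A : Type*} {S : Finset A} {x : A ⊕ ℕ} : x ∈ cp S ↔ ∃ a ∈ S, Sum.inl a = x := by
  unfold cp
  rw [mem_map]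
  rfl

theorem inl_mem_cp {A : Type*} {S : Finset A} {a : A} : (Sum.inl a : A ⊕ ℕ) ∈ cp S ↔ a ∈ S := by
  rw [mem_cp]
  constructor
  · rintro ⟨b, hb, h⟩
    rwa [← Sum.inl_injective h]
  · exact fun h => ⟨a, h, rfl⟩

theorem card_cp {A : Type*} (S : Finset A) : (cp S).card = S.card := card_map _

theorem sub_cp {A : Type*} {S : Finset A} {X : Finset (A ⊕ ℕ)} (h : X ⊆ cp S) :
    ∃ Y ⊆ S, X = cp Y := by
  refine ⟨S.filter fun a => Sum.inl a ∈ X, filter_subset _ _, ?_⟩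
  ext x
  rw [mem_cp]
  constructor
  · intro hx
    obtain ⟨a, ha, rfl⟩ := mem_cp.1 (h hx)
    exact ⟨a, mem_filter.2 ⟨ha, hx⟩, rfl⟩
  · rintro ⟨a, ha, rfl⟩
    exact (mem_filter.1 ha).2

theorem cp_sub {A : Type*} {S T : Finset A} : cp S ⊆ cp T ↔ S ⊆ T := by
  constructor
  · intro h a ha
    exact inl_mem_cp.1 (h (inl_mem_cp.2 ha))
  · intro h x hx
    obtain ⟨a, ha, rfl⟩ := mem_cp.1 hx
    exact inl_mem_cp.2 (h ha)

theorem cp_inj {A : Type*} {S T : Finset A} (h : cp S = cp T) : S = T :=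
  subset_antisymm (cp_sub.1 h.le) (cp_sub.1 h.ge)

theorem cp_inter {A : Type*} {de : DecidableEq (A ⊕ ℕ)} (S T : Finset A) :
    @Inter.inter _ (@Finset.instInter _ de) (cp S) (cp T) = cp (S ∩ T) := by
  ext x
  rw [mem_inter, mem_cp, mem_cp, mem_cp]
  constructor
  · rintro ⟨⟨a, ha, rfl⟩, ⟨b, hb, h⟩⟩
    exact ⟨a, mem_inter.2 ⟨ha, by rwa [← Sum.inl_injective h]⟩, rfl⟩
  · rintro ⟨a, ha, rfl⟩
    exact ⟨⟨a, (mem_inter.1 ha).1, rfl⟩, ⟨a, (mem_inter.1 ha).2, rfl⟩⟩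

theorem cp_empty {A : Type*} : cp (∅ : Finset A) = ∅ := rfl

theorem cp_nonempty {A : Type*} {S : Finset A} : (cp S).Nonempty ↔ S.Nonempty := by
  constructor
  · rintro ⟨x, hx⟩
    obtain ⟨a, ha, rfl⟩ := mem_cp.1 hx
    exact ⟨a, ha⟩
  · rintro ⟨a, ha⟩
    exact ⟨_, inl_mem_cp.2 ha⟩

theorem sum_cp {A : Type*} (S : Finset A) (f : A ⊕ ℕ → ℝ) :
    ∑ x ∈ cp S, f x = ∑ a ∈ S, f (Sum.inl a) := by
  unfold cp
  rw [sum_map]
  rfl

/-- the copy of the graph -/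
def emb (G : MG V D) : MG (V ⊕ ℕ) (D ⊕ ℕ) where
  vs := cp G.vs
  ds := cp G.ds
  pi := Sum.elim (fun d => Sum.inl (G.pi d)) fun n => Sum.inr n
  al := Sum.elim (fun d => Sum.inl (G.al d)) fun n => Sum.inr n
  pi_mem := fun d hd => by
    obtain ⟨a, ha, rfl⟩ := mem_cp.1 hd
    exact inl_mem_cp.2 (G.pi_mem a ha)
  al_mem := fun d hd => by
    obtain ⟨a, ha, rfl⟩ := mem_cp.1 hd
    exact inl_mem_cp.2 (G.al_mem a ha)
  al_al := fun d hd => by
    obtain ⟨a, ha, rfl⟩ := mem_cp.1 hd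
    exact congrArg Sum.inl (G.al_al a ha)
  noloop := fun d hd => by
    obtain ⟨a, ha, rfl⟩ := mem_cp.1 hd
    exact fun h => G.noloop a ha (Sum.inl_injective h)

variable (G : MG V D)

theorem emb_pi (d : D) : G.emb.pi (Sum.inl d) = Sum.inl (G.pi d) := rfl

theorem emb_al (d : D) : G.emb.al (Sum.inl d) = Sum.inl (G.al d) := rfl

theorem emb_st (v : V) : G.emb.st (Sum.inl v) = cp (G.st v) := by
  ext x
  rw [mem_st, mem_cp]
  constructor
  · rintro ⟨h1, h2⟩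
    obtain ⟨a, ha, rfl⟩ := mem_cp.1 h1
    exact ⟨a, mem_st.2 ⟨ha, Sum.inl_injective h2⟩, rfl⟩
  · rintro ⟨a, ha, rfl⟩
    obtain ⟨h1, h2⟩ := mem_st.1 ha
    exact ⟨inl_mem_cp.2 h1, by rw [emb_pi, h2]⟩

theorem emb_bd (X : Finset V) : G.emb.bd (cp X) = cp (G.bd X) := by
  ext x
  rw [mem_bd, mem_cp (S := G.bd X)]
  constructor
  · rintro ⟨h1, h2, h3⟩
    obtain ⟨a, ha, rfl⟩ := mem_cp.1 h1
    exact ⟨a, mem_bd.2 ⟨ha, inl_mem_cp.1 h2, fun h => h3 (inl_mem_cp.2 h)⟩, rfl⟩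
  · intro hx
    obtain ⟨a, ha, rfl⟩ := hx
    obtain ⟨h1, h2, h3⟩ := mem_bd.1 ha
    exact ⟨inl_mem_cp.2 h1, inl_mem_cp.2 h2, fun h => h3 (inl_mem_cp.1 h)⟩

/-- tokens -/
def etok (t : V → ℝ) : V ⊕ ℕ → ℝ := Sum.elim t fun _ => 0

theorem emb_val (t : V → ℝ) (X : Finset V) :
    G.emb.val one1 (etok t) (cp X) = G.val one1 t X := by
  rw [val_one, val_one, emb_bd, card_cp, sum_cp]
  rfl

theorem filter_cp {A : Type*} {S : Finset A} (p : A ⊕ ℕ → Prop) (q : A → Prop)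
    {dp : DecidablePred p}
    (h : ∀ a, p (Sum.inl a) ↔ q a) :
    @filter _ p dp (cp S) = cp (@filter _ q (fun _ => propDecidable _) S) := by
  ext x
  rw [mem_filter, mem_cp, mem_cp]
  constructor
  · rintro ⟨⟨a, ha, rfl⟩, h2⟩
    exact ⟨a, mem_filter.2 ⟨ha, (h a).1 h2⟩, rfl⟩
  · rintro ⟨a, ha, rfl⟩
    exact ⟨⟨a, (mem_filter.1 ha).1, rfl⟩, (h a).2 (mem_filter.1 ha).2⟩

variable {G} {t : V → ℝ} {fr : Finset V} {F : Finset D} {jm : Finset V} {k : ℝ} {X : Finset V}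

theorem emb_adm : G.emb.Adm (cp fr) (cp F) (cp X) ↔ G.Adm fr F X := by
  constructor
  · rintro ⟨h1, h2⟩
    exact ⟨cp_sub.1 h1, fun d hd hp => inl_mem_cp.1
      (h2 (Sum.inl d) (inl_mem_cp.2 hd) (inl_mem_cp.2 hp))⟩
  · rintro ⟨h1, h2⟩
    refine ⟨cp_sub.2 h1, fun d hd hp => ?_⟩
    obtain ⟨a, ha, rfl⟩ := mem_cp.1 hd
    exact inl_mem_cp.2 (h2 a ha (inl_mem_cp.1 hp))

theorem emb_frS (h : G.FrS one1 fr F jm) : G.emb.FrS one1 (cp fr) (cp F) (cp jm) where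
  fsub := cp_sub.2 h.fsub
  Fsub := cp_sub.2 h.Fsub
  Fal := fun d hd => by
    obtain ⟨a, ha, rfl⟩ := mem_cp.1 hd
    exact inl_mem_cp.2 (h.Fal a ha)
  Ffr := fun d hd => by
    obtain ⟨a, ha, rfl⟩ := mem_cp.1 hd
    exact inl_mem_cp.2 (h.Ffr a ha)
  two := fun v hv => by
    obtain ⟨a, ha, rfl⟩ := mem_cp.1 hv
    rw [filter_cp (fun d => G.emb.pi d = Sum.inl a) (fun d => G.pi d = a)
      fun d => ⟨fun e => Sum.inl_injective e, fun e => congrArg Sum.inl e⟩, card_cp]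
    exact h.two a ha
  jms := cp_sub.2 h.jms
  jd := fun v hv hn => by
    obtain ⟨a, ha, rfl⟩ := mem_cp.1 hv
    rw [emb_st, filter_cp (fun d => d ∉ cp F) (fun d => d ∉ F) fun d => by rw [inl_mem_cp],
      card_cp]
    convert h.jd a ha fun h1 => hn (inl_mem_cp.2 h1)
  j0 := fun v hv d hd => by
    obtain ⟨a, ha, rfl⟩ := mem_cp.1 hv
    rw [emb_st] at hd
    obtain ⟨b, hb, rfl⟩ := mem_cp.1 hd
    exact inl_mem_cp.2 (h.j0 a ha b hb)
  unit := fun _ _ _ => rfl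

theorem EK.emb (h : EK G k t fr F jm) : EK G.emb k (etok t) (cp fr) (cp F) (cp jm) where
  even := by
    change Even (cp G.vs).card
    rw [card_cp]
    exact h.even
  fresh := emb_frS h.fresh
  jm2 := by
    rcases h.jm2 with h1 | h1
    · left
      rw [h1, cp_empty]
    · right
      rw [card_cp, h1]
  deg := fun v hv => by
    obtain ⟨a, ha, rfl⟩ := mem_cp.1 hv
    rw [emb_st, card_cp]
    exact h.deg a ha
  t0 := fun v hv => by
    obtain ⟨a, ha, rfl⟩ := mem_cp.1 hv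
    exact h.t0 a ha
  tau := by
    change ∑ v ∈ cp G.vs, etok t v = k
    rw [sum_cp]
    exact h.tau
  odd := fun X hX ho h1 => by
    obtain ⟨Y, hY, rfl⟩ := sub_cp hX
    rw [card_cp] at ho h1
    rw [emb_val]
    exact h.odd Y hY ho h1
  evn := fun X hX ho h1 h2 => by
    obtain ⟨Y, hY, rfl⟩ := sub_cp hX
    rw [card_cp] at ho
    rw [emb_val]
    exact h.evn Y hY ho (cp_nonempty.1 h1) fun e => h2 (by rw [e]; rfl)
  c6 := fun X hX ho h1 => by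
    obtain ⟨Y, hY, rfl⟩ := sub_cp hX.sub
    rw [card_cp] at ho
    rw [emb_bd, card_cp, cp_inter, card_cp]
    exact h.c6 Y (emb_adm.1 hX) ho (cp_nonempty.1 h1)

/-- back -/
theorem Sol6.of_emb (h : G.emb.Sol6 (etok t) (cp fr) (cp F) (cp jm)) : G.Sol6 t fr F jm := by
  rcases h with ⟨M, hM⟩ | ⟨p, hp⟩
  · left
    obtain ⟨N, hN, rfl⟩ := sub_cp hM.pm.sub
    refine ⟨N, ⟨hN, fun d hd => ?_, fun v hv => ?_⟩, fun _ _ => zero_lt_one, fun X hX ho => ?_⟩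
    · exact inl_mem_cp.1 (hM.pm.closed _ (inl_mem_cp.2 hd))
    · have h1 := hM.pm.one _ (inl_mem_cp.2 hv)
      rw [filter_cp (fun d => G.emb.pi d = Sum.inl v) (fun d => G.pi d = v)
        fun d => ⟨fun e => Sum.inl_injective e, fun e => congrArg Sum.inl e⟩, card_cp] at h1
      exact h1
    · obtain ⟨d, h1, h2⟩ := hM.hit (cp X) (emb_adm.2 hX) (by
        rw [card_cp, cp_sub, cp_nonempty]
        exact ho)
      rw [emb_bd] at h1
      obtain ⟨a, ha, rfl⟩ := mem_cp.1 h1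
      exact ⟨a, ha, fun h3 => h2 (inl_mem_cp.2 h3)⟩
  · right
    refine ⟨fun v => p (Sum.inl v), ?_, ?_, ?_, ?_, ?_, empty_subset _⟩
    · exact fun v hv ht => hp.tok _ (inl_mem_cp.2 hv) ht
    · exact fun d hd hz hK _ => hp.jq (Sum.inl d) (inl_mem_cp.2 hd) zero_lt_one
        (fun h1 => hK (inl_mem_cp.1 h1)) (notMem_empty _)
    · exact fun d hd => hp.kk (Sum.inl d) (inl_mem_cp.2 hd)
    · exact fun d hd => absurd hd (notMem_empty _)
    · exact fun d hd => inl_mem_cp.1 (hp.Ksub (inl_mem_cp.2 hd))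

end MG

/-- **CE6 for all types from infinite types** -/
theorem ce6_all (hx : ∀ (V D : Type) [Infinite V] [Infinite D] (G : MG V D) (t : V → ℝ)
    (fr : Finset V) (F : Finset D) (jm : Finset V), ¬ MG.X6 G t fr F jm)
    (V D : Type) (G : MG V D) (t : V → ℝ) (fr : Finset V) (F : Finset D) (jm : Finset V)
    (h : MG.EK G 6 t fr F jm) : G.Sol6 t fr F jm :=
  MG.Sol6.of_emb (MG.sol6_of (hx (V ⊕ ℕ) (D ⊕ ℕ)) _ _ _ _ _ h.emb)

end RH
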