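import Pool.Agent.Lib.RH.CE6Root
import Pool.Agent.Lib.RH.Emb

/-! The frozen statement S11409 from `¬ X6` over infinite types. -/

set_option autoImplicit false

namespace RH

open Finset Classical

/-- **S11409 from `¬ X6`** -/
theorem final_of_noX6 (h : ∀ (V D : Type) [Infinite V] [Infinite D] (G : MG V D) (t : V → ℝ)
      (fr : Finset V) (F : Finset D) (jm : Finset V), ¬ G.X6 t fr F jm) :
    ∀ (V : Type) [Fintype V] (G : SimpleGraph V),
      (∀ v : V, (G.neighborSet v).ncard = 3) →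
      (∀ v w : V, G.Adj v w → (G.deleteEdges {s(v, w)}).Reachable v w) →
      ∃ F₁ F₂ C : SimpleGraph V,
        F₁ ≤ G ∧ F₂ ≤ G ∧ C ≤ G ∧
        (∀ v : V, (F₁.neighborSet v).ncard = 2) ∧
        (∀ v : V, (F₂.neighborSet v).ncard = 2) ∧
        (∀ v : V, Even ((C.neighborSet v).ncard)) ∧
        F₁ ⊔ F₂ ⊔ C = G :=
  final_of_sol6 fun _ _ G t fr F hk => ce6_all (fun V D _ _ G t fr F jm => h V D G t fr F jm)
    _ _ G t fr F ∅ hk

end RH
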