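import Pool.Agent.Lib.RH.S6

/-! Steps and reductions of strict states with 6 tokens (helper50). -/

set_option autoImplicit false

namespace RH

open Finset Classical

namespace MG

variable {V D : Type*} {G : MG V D} {t : V → ℝ} {fr fr' : Finset V}
variable {F : Finset D} {jm : Finset V} {a k : ℕ} {X U : Finset V}
variable {y b : V} {a0 u e1 e2 : D} {M M' M0 : Finset D}

theorem IsPM.tot (hM : G.IsPM M) : M.card = G.vs.card := by
  rw [card_eq_sum_card_fiberwise (f := G.pi) (s := M) (t := G.vs)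
    (fun d hd => mem_coe.2 (G.pi_mem d (hM.sub (mem_coe.1 hd)))), card_eq_sum_ones]
  exact sum_congr rfl fun v hv => hM.one v hv

namespace S6

/-- two adjacent tokens outside `fr` can be paid -/
theorem no_adj (h : S6 G t fr F jm a) (hd : a0 ∈ G.ds) (hy : G.pi a0 ∉ fr)
    (hb : G.pi (G.al a0) ∉ fr) (ty : 1 ≤ t (G.pi a0)) (tb : 1 ≤ t (G.pi (G.al a0))) : False := by
  have hne := G.noloop a0 hd
  have hyv := G.pi_mem a0 hd
  have hbv := G.pi_mem _ (G.al_mem a0 hd)
  have hW : G.Wt (fun d => one1 d + G.evec a0 d)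
      (fun v => t v - (if v = G.pi a0 then 1 else 0) - if v = G.pi (G.al a0) then 1 else 0) := by
    refine ⟨fun d hd' => ?_, fun v hv => ?_, fun d hd' => ?_, fun v hv => ?_, fun X hX ho => ?_⟩
    · have := evec_nonneg (G := G) a0 d
      show 0 ≤ one1 d + G.evec a0 d
      unfold one1
      linarith
    · have h0 := h.t0 v hv
      show 0 ≤ t v - (if v = G.pi a0 then 1 else 0) - if v = G.pi (G.al a0) then 1 else 0
      split_ifs with h1 h2 h2
      · exact absurd (h2.symm.trans h1) hne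
      · rw [h1]
        linarith
      · rw [h2]
        linarith
      · linarith
    · show one1 (G.al d) + G.evec a0 (G.al d) = one1 d + G.evec a0 d
      rw [evec_sym hd hd']
      rfl
    · have h1 := h.wt.deg v hv
      show ∑ d ∈ G.st v, (one1 d + G.evec a0 d) + (t v - (if v = G.pi a0 then 1 else 0) -
        if v = G.pi (G.al a0) then 1 else 0) = 3
      rw [sum_add_distrib, evec_st hd]
      linarith
    · have h1 : G.val (fun d => one1 d + G.evec a0 d)
          (fun v => t v - (if v = G.pi a0 then 1 else 0) - if v = G.pi (G.al a0) then 1 else 0) X =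
          G.val one1 t X - if G.pi a0 ∈ X ∧ G.pi (G.al a0) ∈ X then 2 else 0 := by
        unfold val
        rw [sum_add_distrib, evec_bd hd, sum_sub_distrib, sum_sub_distrib,
          sum_ite_eq' X (G.pi a0) fun _ => (1 : ℝ), sum_ite_eq' X (G.pi (G.al a0)) fun _ => (1 : ℝ)]
        by_cases k1 : G.pi a0 ∈ X <;> by_cases k2 : G.pi (G.al a0) ∈ X <;> simp [k1, k2] <;> ring
      rw [h1]
      split_ifs with h2
      · have h3 : X.card ≠ 1 := fun e => by
          obtain ⟨v, rfl⟩ := card_eq_one.1 e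
          exact hne ((mem_singleton.1 h2.2).trans (mem_singleton.1 h2.1).symm)
        linarith [h.odd X hX ho h3]
      · linarith [h.wt.cut X hX ho]
  have h6 : ∑ v ∈ G.vs, (t v - (if v = G.pi a0 then 1 else 0) -
      if v = G.pi (G.al a0) then (1 : ℝ) else 0) = 4 := by
    rw [sum_sub_distrib, sum_sub_distrib, h.tau, sum_ite_eq', sum_ite_eq', if_pos hyv, if_pos hbv]
    norm_num
  have hS := h.stk.alt hW (fun d _ _ => by unfold one1; norm_num) (fun d hd' hp => by
    show one1 d + G.evec a0 d = 1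
    rw [evec_of_ne (fun e => hy (by rw [← e]; exact hp)) (fun e => hb (by rw [← e]; exact hp)),
      add_zero]
    rfl) (by rw [h6]; norm_num)
  have h7 := hS.tau_eq
  rw [h6] at h7
  norm_num at h7

/-- the boundary of the vertex set is empty -/
theorem val_vs (h : S6 G t fr F jm a) : G.val one1 t G.vs = 6 := by
  rw [val_one]
  have : G.bd G.vs = ∅ := by
    rw [eq_empty_iff_forall_notMem]
    intro x hx
    obtain ⟨k1, _, k3⟩ := mem_bd.1 hx
    exact k3 (G.pi_mem _ (G.al_mem x k1))
  rw [this, card_empty, h.tau]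
  norm_num

/-- **RESTRICTION**: the vertices outside `U` are matched among themselves, all edges leaving `U`
are dead, `U` has value 6: a smaller state -/
theorem res_child (h : S6 G t fr F jm a) (hU : U ⊆ G.vs) (hfU : fr ⊆ U) (h6 : G.val one1 t U = 6)
    (hM0 : (G.res (G.vs \ U)).IsPM M0) :
    ∃ fr' ⊆ fr, (∀ d ∈ F, G.pi d ∈ fr' → G.pi (G.al d) ∈ fr') ∧
      (∀ d ∈ G.ds, G.pi d ∈ fr' → G.pi (G.al d) ∈ U) ∧ (jm ⊆ fr' ∨ Disjoint jm fr') ∧
      S6 (G.res U) (G.tres one1 t U) fr' (F.filter fun d => G.pi d ∈ fr') (jm ∩ fr') a := by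
  obtain ⟨S, hS⟩ : ∃ S : Finset V, S = fr.filter fun v => ∃ d ∈ G.ds, G.pi d = v ∧
      G.pi (G.al d) ∉ U := ⟨_, rfl⟩
  obtain ⟨fr', hs, hcl, hd, hj, hl, -⟩ := exists_link G fr F jm S h.jm2
  have hout : ∀ d ∈ G.ds, G.pi d ∈ fr' → G.pi (G.al d) ∈ U := by
    intro d hd' hp
    by_contra hn
    refine disjoint_left.1 hd hp ?_
    rw [hS]
    exact mem_filter.2 ⟨hs hp, d, hd', rfl, hn⟩
  have hw := h.wt
  have hvs : (G.res U).vs = U := inter_eq_right.2 hU
  have hF := h.fresh
  refine ⟨fr', hs, hcl, hout, hj, ?_⟩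
  -- parity of `U`
  have hUe : Even U.card := by
    obtain ⟨n, hn, hp⟩ := h.val_nat hU
    rw [h6] at hn
    have : n = 6 := by exact_mod_cast hn.symm
    rw [Nat.even_iff, ← hp, this]
  -- lifting
  have hlift : ∀ M', (G.res U).GoodS one1 fr' (F.filter fun d => G.pi d ∈ fr') (jm ∩ fr') M' →
      G.GoodS one1 fr F jm (M' ∪ M0) := by
    intro M' hM'
    obtain ⟨m1, m2, m3, m4⟩ := res_pm hU hM'.pm
    obtain ⟨n1, n2, n3, n4⟩ := res_pm (U := G.vs \ U) sdiff_subset hM0
    have hpm : G.IsPM (M' ∪ M0) := by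
      refine ⟨union_subset m1 n1, fun d hd' => ?_, fun v hv => ?_⟩
      · rw [mem_union] at hd' ⊢
        exact hd'.imp (m2 d) (n2 d)
      · by_cases hvU : v ∈ U
        · rw [← m4 v hvU]
          congr 1
          ext d
          rw [mem_filter, mem_filter, mem_union]
          constructor
          · rintro ⟨k1 | k1, k2⟩
            · exact ⟨k1, k2⟩
            · exact absurd (by rw [k2]; exact hvU) (mem_sdiff.1 (n3 d k1)).2
          · rintro ⟨k1, k2⟩
            exact ⟨Or.inl k1, k2⟩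
        · rw [← n4 v (mem_sdiff.2 ⟨hv, hvU⟩)]
          congr 1
          ext d
          rw [mem_filter, mem_filter, mem_union]
          constructor
          · rintro ⟨k1 | k1, k2⟩
            · exact absurd (by rw [← k2]; exact m3 d k1) hvU
            · exact ⟨k1, k2⟩
          · rintro ⟨k1, k2⟩
            exact ⟨Or.inr k1, k2⟩
    -- no edge of the matching leaves `U`
    have hno : ∀ d ∈ M' ∪ M0, G.pi d ∈ U → G.pi (G.al d) ∈ U := by
      intro d hd' hp
      rw [mem_union] at hd'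
      rcases hd' with k1 | k1
      · exact m3 _ (m2 d k1)
      · exact absurd hp (mem_sdiff.1 (n3 d k1)).2
    refine ⟨hpm, fun _ _ => zero_lt_one, fun X hX ho => ?_⟩
    by_contra hcon
    push Not at hcon
    have hev := hF.closed_jm hpm hX hcon
    by_cases hXf : X ⊆ fr'
    · have hX' : (G.res U).Adm fr' (F.filter fun d => G.pi d ∈ fr') X :=
        ⟨hXf, fun d hd' hp => hX.clo d (mem_filter.1 hd').1 hp⟩
      have ho' : Odd X.card ∨ ((jm ∩ fr').Nonempty ∧ jm ∩ fr' ⊆ X) := by
        rcases ho with ho | ⟨h1, h2⟩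
        · exact Or.inl ho
        · right
          rcases hj with hj | hj
          · rw [inter_eq_left.2 hj]
            exact ⟨h1, h2⟩
          · exfalso
            obtain ⟨v, hv⟩ := h1
            exact disjoint_left.1 hj hv (hXf (h2 hv))
      obtain ⟨d, hd1, hd2⟩ := hM'.hit X hX' ho'
      obtain ⟨k1, k2, k3⟩ := mem_bd.1 hd1
      obtain ⟨k4, k5, k6⟩ := mem_filter.1 k1
      have k7 := hcon d (mem_bd.2 ⟨k4, k2, k3⟩)
      rw [mem_union] at k7
      rcases k7 with k7 | k7
      · exact hd2 k7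
      · exact (mem_sdiff.1 (n3 d k7)).2 k5
    · obtain ⟨v, hv⟩ := hl X hX hev hXf
      obtain ⟨hvX, hvS⟩ := mem_inter.1 hv
      rw [hS] at hvS
      obtain ⟨-, d, k1, k2, k3⟩ := mem_filter.1 hvS
      have k4 : d ∈ G.bd X := mem_bd.2 ⟨k1, by rw [k2]; exact hvX,
        fun k5 => k3 (hfU (hX.sub k5))⟩
      exact k3 (hno d (hcon d k4) (by rw [k2]; exact hfU (hX.sub hvX)))
  -- darts at the vertices which stay fresh
  have hst : ∀ v ∈ fr', (G.res U).st v = G.st v := by
    intro v hv
    ext d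
    rw [mem_st, mem_st]
    constructor
    · rintro ⟨k1, k2⟩
      exact ⟨(mem_filter.1 k1).1, k2⟩
    · rintro ⟨k1, k2⟩
      have k2' : G.pi d = v := k2
      exact ⟨mem_filter.2 ⟨k1, by rw [k2']; exact hfU (hs hv), hout d k1 (by rw [k2']; exact hv)⟩,
        k2⟩
  refine ⟨by rw [hvs]; exact hUe, ?_, ?_, ?_, ?_, ?_, ?_, ?_, ?_, h.ih, ?_⟩
  · refine ⟨fun v hv => by rw [hvs]; exact hfU (hs hv), fun d hd' => ?_, fun d hd' => ?_,
      fun d hd' => (mem_filter.1 hd').2, fun v hv => ?_, inter_subset_right, fun v hv hvj => ?_,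
      fun v hv d hd' => ?_, fun _ _ _ => rfl⟩
    · obtain ⟨k1, k2⟩ := mem_filter.1 hd'
      have k3 := hF.Fsub k1
      exact mem_filter.2 ⟨k3, hfU (hs k2), hout d k3 k2⟩
    · obtain ⟨k1, k2⟩ := mem_filter.1 hd'
      exact mem_filter.2 ⟨hF.Fal d k1, hcl d k1 k2⟩
    · rw [← hF.two v (hs hv)]
      congr 1
      ext d
      rw [mem_filter, mem_filter, mem_filter]
      constructor
      · rintro ⟨⟨k1, -⟩, k2⟩
        exact ⟨k1, k2⟩
      · rintro ⟨k1, k2⟩
        exact ⟨⟨k1, by rw [show G.pi d = v from k2]; exact hv⟩, k2⟩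
    · rw [hst v hv, ← hF.jd v (hs hv) (fun k1 => hvj (mem_inter.2 ⟨k1, hv⟩))]
      congr 1
      ext d
      rw [mem_filter, mem_filter, mem_filter]
      constructor
      · rintro ⟨k1, k2⟩
        exact ⟨k1, fun k3 => k2 ⟨k3, by rw [(mem_st.1 k1).2]; exact hv⟩⟩
      · rintro ⟨k1, k2⟩
        exact ⟨k1, fun k3 => k2 k3.1⟩
    · obtain ⟨k1, k2⟩ := mem_inter.1 hv
      rw [hst v k2] at hd'
      exact mem_filter.2 ⟨hF.j0 v k1 d hd', by rw [(mem_st.1 hd').2]; exact k2⟩
  · rcases hj with hj | hj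
    · rw [inter_eq_left.2 hj]
      exact h.jm2
    · left
      exact disjoint_iff_inter_eq_empty.1 hj
  · intro v hv
    have h1 := (hw.res hU).deg v hv
    have h2 : ∑ d ∈ (G.res U).st v, one1 d = ((G.res U).st v).card := by
      unfold one1
      rw [sum_const, nsmul_eq_mul, mul_one]
    rw [h2] at h1
    exact h1
  · exact (hw.res hU).t0
  · rw [res_tau hw hU, h6]
  · intro X hX ho h1
    rw [hvs] at hX
    rw [res_val hw hU hX]
    exact h.odd X (hX.trans hU) ho h1
  · intro X hX ho h1 h2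
    rw [hvs] at hX h2
    rw [res_val hw hU hX]
    refine h.evn X (hX.trans hU) ho h1 fun e => h2 (Subset.antisymm hX ?_)
    rw [e]
    exact hU
  · exact (card_le_card hs).trans_lt h.ha
  · rintro ⟨M', hM'⟩
    exact h.bad ⟨_, hlift M' hM'⟩

/-- **THE STEP** `(y,b,b')`: the sets with `y`, `b`, the other neighbours of `y` and `b` inside and
`b'` outside are not tight afterwards -/
theorem step (h : S6 G t fr F jm a) (s : Sp G y b a0 u e1 e2) (hy : y ∉ fr) (hb : b ∉ fr)
    (hun : ∀ W ⊆ G.vs, y ∈ W → b ∈ W → G.pi (G.al u) ∈ W → G.pi (G.al e2) ∈ W →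
      G.pi (G.al e1) ∉ W → (Odd W.card → 7 ≤ G.val one1 t W) ∧
        (Even W.card → 6 ≤ G.val one1 t W)) :
    ∃ fr' ⊆ fr, (∀ d ∈ F, G.pi d ∈ fr' → G.pi (G.al d) ∈ fr') ∧ G.pi (G.al e1) ∉ fr' ∧
      (jm ⊆ fr' ∨ Disjoint jm fr') ∧
      (∀ X, G.Adm fr F X → G.pi (G.al e1) ∉ X → Disjoint X jm → X ⊆ fr') ∧
      S6 s.gr (s.tk t) fr' (F.filter fun d => G.pi d ∈ fr') (jm ∩ fr') a := by
  have hF := h.fresh
  have hyv : y ∈ G.vs := s.pa ▸ G.pi_mem a0 s.a1
  have hbv : b ∈ G.vs := s.pb ▸ G.pi_mem _ (G.al_mem a0 s.a1)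
  have hty : t y = 1 := by
    have h1 := h.deg y hyv
    have h2 : G.st y = {a0, u} := by
      ext d
      rw [s.sy, mem_insert, mem_singleton]
    rw [h2, card_pair s.au] at h1
    push_cast at h1
    linarith
  have htb : t b = 0 := by
    have h1 := h.deg b hbv
    have h2 : G.st b = {G.al a0, e1, e2} := by
      ext d
      rw [s.sb, mem_insert, mem_insert, mem_singleton]
    have h3 : ({G.al a0, e1, e2} : Finset D).card = 3 := by
      rw [card_insert_of_notMem (by simp [s.ae1, s.ae2]), card_pair s.ee]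
    rw [h2, h3] at h1
    push_cast at h1
    linarith
  have hb'v : G.pi (G.al e1) ∈ G.vs := G.pi_mem _ (G.al_mem e1 s.f1)
  obtain ⟨fr', hs, hcl, hd, hj, hl, hall⟩ := exists_link G fr F jm {G.pi (G.al e1)} h.jm2
  have hb' : G.pi (G.al e1) ∉ fr' := fun k1 => disjoint_left.1 hd k1 (mem_singleton_self _)
  refine ⟨fr', hs, hcl, hb', hj, fun X hX h1 h2 => hall X hX (disjoint_singleton_right.2 h1) h2,
    ?_⟩
  have hfr' : ∀ v ∈ fr', v ≠ y ∧ v ≠ b := fun v hv =>
    ⟨fun e => hy (e ▸ hs hv), fun e => hb (e ▸ hs hv)⟩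
  have hst : ∀ v ∈ fr', s.gr.st v = G.st v := by
    intro v hv
    rw [s.gr_st (hfr' v hv).1 (hfr' v hv).2, filter_eq_self]
    rintro d hd' rfl
    exact hb' (by rw [(mem_st.1 hd').2]; exact hv)
  -- F-darts are not changed
  have hFal : ∀ d ∈ F, s.gr.al d = G.al d := by
    intro d hd'
    refine s.al_o (fun e => hy ?_) (fun e => hb ?_)
    · have h3 := hF.Ffr _ (hF.Fal d hd')
      rw [e, G.al_al u s.u1, s.pu] at h3
      exact h3
    · have h3 := hF.Ffr _ (hF.Fal d hd')
      rw [e, G.al_al e2 s.g1, s.pg] at h3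
      exact h3
  have hXn : ∀ X ⊆ s.gr.vs, ∀ v ∈ X, v ≠ y ∧ v ≠ b := fun X hX v hv => (s.gr_vs.1 (hX hv)).2
  have hXv : ∀ X ⊆ s.gr.vs, X ⊆ G.vs := fun X hX v hv => (s.gr_vs.1 (hX hv)).1
  -- values
  have hval : ∀ X ⊆ s.gr.vs, s.gr.val one1 (s.tk t) X = G.val one1 t X -
      if G.pi (G.al u) ∈ X ∧ G.pi (G.al e2) ∈ X then 2 else 0 := fun X hX =>
    s.gr_val (hXn X hX) rfl rfl rfl
  have hW : ∀ X ⊆ s.gr.vs, (insert y (insert b X)) ⊆ G.vs ∧
      (insert y (insert b X)).card = X.card + 2 ∧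
      G.val one1 t (insert y (insert b X)) = G.val one1 t X + 1
        + (if G.pi (G.al u) ∈ X then -1 else 1) + (if G.pi (G.al e1) ∈ X then -1 else 1)
        + (if G.pi (G.al e2) ∈ X then -1 else 1) := by
    intro X hX
    have hyX : y ∉ insert b X := by
      rw [mem_insert, not_or]
      exact ⟨s.yb, fun k1 => (hXn X hX y k1).1 rfl⟩
    have hbX : b ∉ X := fun k1 => (hXn X hX b k1).2 rfl
    refine ⟨?_, ?_, ?_⟩
    · intro v hv
      rw [mem_insert, mem_insert] at hv
      rcases hv with rfl | rfl | hv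
      · exact hyv
      · exact hbv
      · exact hXv X hX hv
    · rw [card_insert_of_notMem hyX, card_insert_of_notMem hbX]
    · rw [s.val_yb (hXn X hX) (fun _ _ => rfl) rfl rfl rfl, hty, htb]
      ring
  refine ⟨?_, ?_, ?_, ?_, ?_, ?_, ?_, ?_, ?_, h.ih, ?_⟩
  · have h1 := s.gr_card
    have h2 := h.even
    rw [← h1] at h2
    exact (Nat.even_add.1 h2).2 even_two
  · refine ⟨fun v hv => s.gr_vs.2 ⟨hF.fsub (hs hv), hfr' v hv⟩, fun d hd' => ?_, fun d hd' => ?_,
      fun d hd' => (mem_filter.1 hd').2, fun v hv => ?_, inter_subset_right, fun v hv hvj => ?_,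
      fun v hv d hd' => ?_, fun _ _ _ => rfl⟩
    · obtain ⟨k1, k2⟩ := mem_filter.1 hd'
      refine s.gr_ds'.2 ⟨hF.Fsub k1, (hfr' _ k2).1, (hfr' _ k2).2, fun e => hb' ?_⟩
      rw [← e]
      exact k2
    · obtain ⟨k1, k2⟩ := mem_filter.1 hd'
      rw [hFal d k1]
      exact mem_filter.2 ⟨hF.Fal d k1, hcl d k1 k2⟩
    · rw [← hF.two v (hs hv)]
      congr 1
      ext d
      rw [mem_filter, mem_filter, mem_filter]
      constructor
      · rintro ⟨⟨k1, -⟩, k2⟩
        exact ⟨k1, k2⟩
      · rintro ⟨k1, k2⟩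
        exact ⟨⟨k1, by rw [show G.pi d = v from k2]; exact hv⟩, k2⟩
    · rw [hst v hv, ← hF.jd v (hs hv) (fun k1 => hvj (mem_inter.2 ⟨k1, hv⟩))]
      congr 1
      ext d
      rw [mem_filter, mem_filter, mem_filter]
      constructor
      · rintro ⟨k1, k2⟩
        exact ⟨k1, fun k3 => k2 ⟨k3, by rw [(mem_st.1 k1).2]; exact hv⟩⟩
      · rintro ⟨k1, k2⟩
        exact ⟨k1, fun k3 => k2 k3.1⟩
    · obtain ⟨k1, k2⟩ := mem_inter.1 hv
      rw [hst v k2] at hd'
      exact mem_filter.2 ⟨hF.j0 v k1 d hd', by rw [(mem_st.1 hd').2]; exact k2⟩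
  · rcases hj with hj | hj
    · rw [inter_eq_left.2 hj]
      exact h.jm2
    · left
      exact disjoint_iff_inter_eq_empty.1 hj
  · intro v hv
    obtain ⟨h1, h2, h3⟩ := s.gr_vs.1 hv
    have h4 := h.deg v h1
    rw [s.gr_st h2 h3]
    unfold Sp.tk
    by_cases h5 : v = G.pi (G.al e1)
    · have h6 : (G.st v).filter (fun d => d ≠ G.al e1) = (G.st v).erase (G.al e1) := by
        ext d
        rw [mem_filter, mem_erase, and_comm]
      have h7 : G.al e1 ∈ G.st v := mem_st.2 ⟨G.al_mem e1 s.f1, h5.symm⟩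
      have h8 := card_erase_add_one h7
      have h9 : (((G.st v).erase (G.al e1)).card : ℝ) + 1 = (G.st v).card := by exact_mod_cast h8
      rw [h6, if_pos h5]
      linarith
    · have h6 : (G.st v).filter (fun d => d ≠ G.al e1) = G.st v := by
        rw [filter_eq_self]
        rintro d hd' rfl
        exact h5 (mem_st.1 hd').2.symm
      rw [h6, if_neg h5, add_zero]
      exact h4
  · intro v hv
    have h1 := h.t0 v (s.gr_vs.1 hv).1
    unfold Sp.tk
    split_ifs <;> linarith
  · have e1' : G.vs = insert y (insert b s.gr.vs) := by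
      ext v
      rw [mem_insert, mem_insert, s.gr_vs]
      constructor
      · intro hv
        by_cases k1 : v = y
        · exact Or.inl k1
        · by_cases k2 : v = b
          · exact Or.inr (Or.inl k2)
          · exact Or.inr (Or.inr ⟨hv, k1, k2⟩)
      · rintro (rfl | rfl | k1)
        · exact hyv
        · exact hbv
        · exact k1.1
    have h1 := h.tau
    have hyX : y ∉ insert b s.gr.vs := by
      rw [mem_insert, not_or]
      exact ⟨s.yb, fun k1 => (s.gr_vs.1 k1).2.1 rfl⟩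
    have hbX : b ∉ s.gr.vs := fun k1 => (s.gr_vs.1 k1).2.2 rfl
    rw [e1', sum_insert hyX, sum_insert hbX, hty, htb] at h1
    unfold Sp.tk
    rw [sum_add_distrib, sum_ite_eq', if_pos (s.gr_vs.2 ⟨hb'v, s.paf, s.paf'⟩)]
    linarith
  · intro X hX ho h1
    rw [hval X hX]
    split_ifs with h2
    · obtain ⟨w1, w2, w3⟩ := hW X hX
      rw [if_pos h2.1, if_pos h2.2] at w3
      have ho' : Odd (insert y (insert b X)).card := by
        rw [w2]
        exact ho.add_even even_two
      by_cases h3 : G.pi (G.al e1) ∈ X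
      · rw [if_pos h3] at w3
        have h4 := h.odd _ w1 ho' (by omega)
        linarith
      · rw [if_neg h3] at w3
        have h4 := (hun _ w1 (mem_insert_self _ _)
          (mem_insert_of_mem (mem_insert_self _ _))
          (mem_insert_of_mem (mem_insert_of_mem h2.1))
          (mem_insert_of_mem (mem_insert_of_mem h2.2)) (by
            rw [mem_insert, mem_insert]
            rintro (k1 | k1 | k1)
            · exact s.paf k1
            · exact s.paf' k1
            · exact h3 k1)).1 ho'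
        linarith
    · linarith [h.odd X (hXv X hX) ho h1]
  · intro X hX ho h1 hne
    rw [hval X hX]
    split_ifs with h2
    · obtain ⟨w1, w2, w3⟩ := hW X hX
      rw [if_pos h2.1, if_pos h2.2] at w3
      have ho' : Even (insert y (insert b X)).card := by
        rw [w2]
        exact ho.add even_two
      by_cases h3 : G.pi (G.al e1) ∈ X
      · rw [if_pos h3] at w3
        have h4 := h.evn _ w1 ho' ⟨y, mem_insert_self _ _⟩ (by
          intro e
          apply hne
          refine Subset.antisymm hX fun v hv => ?_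
          have h5 : v ∈ insert y (insert b X) := by
            rw [e]
            exact (s.gr_vs.1 hv).1
          rw [mem_insert, mem_insert] at h5
          rcases h5 with h5 | h5 | h5
          · exact absurd h5 (s.gr_vs.1 hv).2.1
          · exact absurd h5 (s.gr_vs.1 hv).2.2
          · exact h5)
        linarith
      · rw [if_neg h3] at w3
        have h4 := (hun _ w1 (mem_insert_self _ _)
          (mem_insert_of_mem (mem_insert_self _ _))
          (mem_insert_of_mem (mem_insert_of_mem h2.1))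
          (mem_insert_of_mem (mem_insert_of_mem h2.2)) (by
            rw [mem_insert, mem_insert]
            rintro (k1 | k1 | k1)
            · exact s.paf k1
            · exact s.paf' k1
            · exact h3 k1)).2 ho'
        linarith
    · have h3 : X ≠ G.vs := fun e => (hXn X hX y (by rw [e]; exact hyv)).1 rfl
      linarith [h.evn X (hXv X hX) ho h1 h3]
  · exact (card_le_card hs).trans_lt h.ha
  · rintro ⟨M', hM'⟩
    refine h.bad ⟨_, s.up_good hF hy hb zero_lt_one zero_lt_one zero_lt_one (fun _ _ => rfl) hj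
      ?_ hM'⟩
    intro X hX he hn
    obtain ⟨v, hv⟩ := hl X hX he hn
    obtain ⟨k1, k2⟩ := mem_inter.1 hv
    rw [mem_singleton] at k2
    refine mem_bd.2 ⟨G.al_mem e1 s.f1, by rw [← k2]; exact k1, ?_⟩
    rw [G.al_al e1 s.f1, s.pf]
    exact fun k3 => hb (hX.sub k3)

/-- the step or a blocking set -/
theorem step_or (h : S6 G t fr F jm a) (s : Sp G y b a0 u e1 e2) (hy : y ∉ fr) (hb : b ∉ fr) :
    (∃ fr' ⊆ fr, (∀ d ∈ F, G.pi d ∈ fr' → G.pi (G.al d) ∈ fr') ∧ G.pi (G.al e1) ∉ fr' ∧
      (jm ⊆ fr' ∨ Disjoint jm fr') ∧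
      (∀ X, G.Adm fr F X → G.pi (G.al e1) ∉ X → Disjoint X jm → X ⊆ fr') ∧
      S6 s.gr (s.tk t) fr' (F.filter fun d => G.pi d ∈ fr') (jm ∩ fr') a) ∨
    ∃ W ⊆ G.vs, y ∈ W ∧ b ∈ W ∧ G.pi (G.al u) ∈ W ∧ G.pi (G.al e2) ∈ W ∧
      G.pi (G.al e1) ∉ W ∧ 4 ≤ W.card ∧ ((Odd W.card ∧ G.val one1 t W = 5) ∨
        (Even W.card ∧ G.val one1 t W = 4)) := by
  by_cases hun : ∀ W ⊆ G.vs, y ∈ W → b ∈ W → G.pi (G.al u) ∈ W → G.pi (G.al e2) ∈ W →
      G.pi (G.al e1) ∉ W → (Odd W.card → 7 ≤ G.val one1 t W) ∧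
        (Even W.card → 6 ≤ G.val one1 t W)
  · exact Or.inl (h.step s hy hb hun)
  · right
    push Not at hun
    obtain ⟨W, hW, w1, w2, w3, w4, w5, w6⟩ := hun
    have hc : 4 ≤ W.card := by
      have n1 := s.yb
      have n2 : ({y, b, G.pi (G.al u), G.pi (G.al e2)} : Finset V).card = 4 := by
        rw [card_insert_of_notMem (by simp [s.yb, s.pau.symm, s.pag.symm]),
          card_insert_of_notMem (by simp [s.ub.symm, s.pag'.symm]), card_pair s.ue]
      rw [← n2]
      refine card_le_card fun v hv => ?_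
      simp only [mem_insert, mem_singleton] at hv
      rcases hv with rfl | rfl | rfl | rfl
      · exact w1
      · exact w2
      · exact w3
      · exact w4
    refine ⟨W, hW, w1, w2, w3, w4, w5, hc, ?_⟩
    by_cases ho : Odd W.card
    · left
      refine ⟨ho, ?_⟩
      rcases h.odd_or hW ho (by omega) with h1 | h1
      · exact h1
      · exfalso
        have h2 := w6 fun _ => h1
        rw [← Nat.not_even_iff_odd] at ho
        exact ho h2.1
    · right
      rw [Nat.not_odd_iff_even] at ho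
      refine ⟨ho, ?_⟩
      have hne : W ≠ G.vs := fun e => w5 (by
        rw [e]
        exact G.pi_mem _ (G.al_mem e1 s.f1))
      rcases h.evn_or hW ho ⟨y, w1⟩ hne with h1 | h1
      · exact h1
      · exfalso
        have h2 := w6 fun k1 => absurd ho (Nat.not_even_iff_odd.2 k1)
        linarith [h2.2]

end S6

end MG

end RH
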