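import Pool.Agent.Lib.RH.A4
import Pool.Agent.Lib.RH.CE6Step

/-! ADJACENT TOKENS `y`, `b` in a smallest bad state with 6 tokens (CE6, (E0)). If one of them has
two tokens the edge `y b` is forced. Otherwise `y` and `b` are deleted and their other neighbours
are joined (the two tokens are paid): a state with 4 tokens, unless there is a blocking set. -/

set_option autoImplicit false

namespace RH

open Finset Classical

namespace MG

variable {V D : Type*}

/-- two adjacent vertices of degree 2 -/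
structure Ad (G : MG V D) (y b : V) (a u e : D) : Prop where
  a1 : a ∈ G.ds
  u1 : u ∈ G.ds
  g1 : e ∈ G.ds
  pb : G.pi (G.al a) = b
  sy : ∀ d, d ∈ G.st y ↔ d = a ∨ d = u
  sb : ∀ d, d ∈ G.st b ↔ d = G.al a ∨ d = e
  au : a ≠ u
  ae : G.al a ≠ e
  ub : G.pi (G.al u) ≠ b
  ue : G.pi (G.al u) ≠ G.pi (G.al e)

variable {G : MG V D} {t t' : V → ℝ} {fr fr' : Finset V}
variable {F : Finset D} {jm : Finset V} {k : ℝ} {X U : Finset V}
variable {y b : V} {a u e : D} {M M' M0 : Finset D}

namespace Ad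

theorem pa (h : Ad G y b a u e) : G.pi a = y := (mem_st.1 ((h.sy a).2 (Or.inl rfl))).2

theorem pu (h : Ad G y b a u e) : G.pi u = y := (mem_st.1 ((h.sy u).2 (Or.inr rfl))).2

theorem pg (h : Ad G y b a u e) : G.pi e = b := (mem_st.1 ((h.sb e).2 (Or.inr rfl))).2

theorem yb (h : Ad G y b a u e) : y ≠ b := fun e' =>
  G.noloop a h.a1 (by rw [h.pb, h.pa, e'])

theorem at_y (h : Ad G y b a u e) {d : D} (hd : d ∈ G.ds) (hp : G.pi d = y) : d = a ∨ d = u :=
  (h.sy d).1 (mem_st.2 ⟨hd, hp⟩)

theorem at_b (h : Ad G y b a u e) {d : D} (hd : d ∈ G.ds) (hp : G.pi d = b) :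
    d = G.al a ∨ d = e :=
  (h.sb d).1 (mem_st.2 ⟨hd, hp⟩)

theorem pau (h : Ad G y b a u e) : G.pi (G.al u) ≠ y := fun e' =>
  G.noloop u h.u1 (by rw [e', h.pu])

theorem pag' (h : Ad G y b a u e) : G.pi (G.al e) ≠ b := fun e' =>
  G.noloop e h.g1 (by rw [e', h.pg])

theorem pag (h : Ad G y b a u e) : G.pi (G.al e) ≠ y := fun e' => by
  rcases h.at_y (G.al_mem _ h.g1) e' with h1 | h1
  · exact h.ae (by rw [← h1, G.al_al _ h.g1])
  · exact h.ub (by rw [← h1, G.al_al _ h.g1, h.pg])

theorem ne_ug (h : Ad G y b a u e) : G.al u ≠ G.al e := fun e' => h.ue (by rw [e'])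

/-- the new graph -/
noncomputable def gr (h : Ad G y b a u e) : MG V D where
  vs := G.vs.filter fun v => v ≠ y ∧ v ≠ b
  ds := G.ds.filter fun d => G.pi d ≠ y ∧ G.pi d ≠ b
  pi := G.pi
  al := G.spal u e
  pi_mem := by
    intro d hd
    obtain ⟨h1, h2⟩ := mem_filter.1 hd
    exact mem_filter.2 ⟨G.pi_mem d h1, h2⟩
  al_mem := by
    intro d hd
    obtain ⟨h1, h2⟩ := mem_filter.1 hd
    unfold spal
    split_ifs with h3 h4
    · exact mem_filter.2 ⟨G.al_mem _ h.g1, h.pag, h.pag'⟩
    · exact mem_filter.2 ⟨G.al_mem _ h.u1, h.pau, h.ub⟩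
    · refine mem_filter.2 ⟨G.al_mem _ h1, fun e' => ?_, fun e' => ?_⟩
      · rcases h.at_y (G.al_mem d h1) e' with h5 | h5
        · exact h2.2 (by rw [← G.al_al d h1, h5, h.pb])
        · exact h3 (by rw [← h5, G.al_al d h1])
      · rcases h.at_b (G.al_mem d h1) e' with h5 | h5
        · have h6 : d = a := by rw [← G.al_al d h1, h5, G.al_al a h.a1]
          exact h2.1 (by rw [h6, h.pa])
        · exact h4 (by rw [← h5, G.al_al d h1])
  al_al := by
    intro d hd
    obtain ⟨h1, h2⟩ := mem_filter.1 hd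
    by_cases h3 : d = G.al u
    · have e1 : G.spal u e d = G.al e := if_pos h3
      rw [e1]
      unfold spal
      rw [if_neg (fun e' => h.ne_ug e'.symm), if_pos rfl, h3]
    · by_cases h4 : d = G.al e
      · have e1 : G.spal u e d = G.al u := by
          unfold spal
          rw [if_neg h3, if_pos h4]
        rw [e1]
        unfold spal
        rw [if_pos rfl, h4]
      · have e1 : G.spal u e d = G.al d := by
          unfold spal
          rw [if_neg h3, if_neg h4]
        rw [e1]
        have h5 : G.al d ≠ G.al u := fun e' => h2.1 (by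
          rw [← G.al_al d h1, e', G.al_al u h.u1, h.pu])
        have h6 : G.al d ≠ G.al e := fun e' => h2.2 (by
          rw [← G.al_al d h1, e', G.al_al e h.g1, h.pg])
        unfold spal
        rw [if_neg h5, if_neg h6, G.al_al d h1]
  noloop := by
    intro d hd
    obtain ⟨h1, h2⟩ := mem_filter.1 hd
    unfold spal
    split_ifs with h3 h4
    · rw [h3]
      exact fun e' => h.ue e'.symm
    · rw [h4]
      exact h.ue
    · exact G.noloop d h1

theorem gr_vs (h : Ad G y b a u e) {v : V} : v ∈ h.gr.vs ↔ v ∈ G.vs ∧ v ≠ y ∧ v ≠ b :=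
  mem_filter

theorem gr_ds (h : Ad G y b a u e) {d : D} : d ∈ h.gr.ds ↔ d ∈ G.ds ∧ G.pi d ≠ y ∧ G.pi d ≠ b :=
  mem_filter

theorem gr_pi (h : Ad G y b a u e) : h.gr.pi = G.pi := rfl

theorem al_u (h : Ad G y b a u e) : h.gr.al (G.al u) = G.al e := if_pos rfl

theorem al_g (h : Ad G y b a u e) : h.gr.al (G.al e) = G.al u := by
  show G.spal u e (G.al e) = G.al u
  unfold spal
  rw [if_neg (fun e' => h.ne_ug e'.symm), if_pos rfl]

theorem al_o (h : Ad G y b a u e) {d : D} (h1 : d ≠ G.al u) (h2 : d ≠ G.al e) :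
    h.gr.al d = G.al d := by
  show G.spal u e d = G.al d
  unfold spal
  rw [if_neg h1, if_neg h2]

theorem gr_card (h : Ad G y b a u e) : h.gr.vs.card + 2 = G.vs.card := by
  have e1 : h.gr.vs = (G.vs.erase y).erase b := by
    ext v
    rw [h.gr_vs, mem_erase, mem_erase]
    tauto
  have hy : y ∈ G.vs := h.pa ▸ G.pi_mem a h.a1
  have hb : b ∈ G.vs := h.pb ▸ G.pi_mem _ (G.al_mem a h.a1)
  have h1 := card_erase_add_one hy
  have h2 := card_erase_add_one (mem_erase.2 ⟨fun e' => h.yb e'.symm, hb⟩ : b ∈ G.vs.erase y)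
  rw [e1]
  omega

/-- stars do not change -/
theorem gr_st (h : Ad G y b a u e) {v : V} (hv : v ≠ y) (hb : v ≠ b) :
    h.gr.st v = G.st v := by
  ext d
  rw [mem_st, h.gr_ds, mem_st, h.gr_pi]
  constructor
  · rintro ⟨⟨h1, -, -⟩, h5⟩
    exact ⟨h1, h5⟩
  · rintro ⟨h1, h5⟩
    exact ⟨⟨h1, by rw [h5]; exact hv, by rw [h5]; exact hb⟩, h5⟩

/-- the boundary of a set without `y`, `b` in the new graph -/
theorem gr_bd (h : Ad G y b a u e) (hX : ∀ v ∈ X, v ≠ y ∧ v ≠ b) :
    h.gr.bd X = (G.bd X).filter fun d =>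
      ¬ ((d = G.al u ∨ d = G.al e) ∧ G.pi (G.al u) ∈ X ∧ G.pi (G.al e) ∈ X) := by
  ext d
  rw [mem_bd, h.gr_ds, mem_filter, mem_bd, h.gr_pi]
  constructor
  · rintro ⟨⟨h1, h2, h3⟩, h5, h6⟩
    by_cases h7 : d = G.al u
    · rw [h7, h.al_u] at h6
      refine ⟨⟨h1, h5, ?_⟩, fun h8 => h6 h8.2.2⟩
      rw [h7, G.al_al u h.u1, h.pu]
      exact fun h8 => (hX _ h8).1 rfl
    · by_cases h8 : d = G.al e
      · rw [h8, h.al_g] at h6
        refine ⟨⟨h1, h5, ?_⟩, fun h9 => h6 h9.2.1⟩
        rw [h8, G.al_al e h.g1, h.pg]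
        exact fun h9 => (hX _ h9).2 rfl
      · rw [h.al_o h7 h8] at h6
        exact ⟨⟨h1, h5, h6⟩, fun h9 => h9.1.elim h7 h8⟩
  · rintro ⟨⟨h1, h5, h6⟩, h7⟩
    refine ⟨⟨h1, (hX _ h5).1, (hX _ h5).2⟩, h5, ?_⟩
    by_cases h8 : d = G.al u
    · rw [h8, h.al_u]
      intro h9
      exact h7 ⟨Or.inl h8, by rw [← h8]; exact h5, h9⟩
    · by_cases h9 : d = G.al e
      · rw [h9, h.al_g]
        intro h10
        exact h7 ⟨Or.inr h9, h10, by rw [← h9]; exact h5⟩
      · rw [h.al_o h8 h9]
        exact h6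

theorem gr_bd_card (h : Ad G y b a u e) (hX : ∀ v ∈ X, v ≠ y ∧ v ≠ b) :
    (h.gr.bd X).card + (if G.pi (G.al u) ∈ X ∧ G.pi (G.al e) ∈ X then 2 else 0) =
      (G.bd X).card := by
  rw [h.gr_bd hX]
  split_ifs with h0
  · have h1 : G.al u ∈ G.bd X := mem_bd.2 ⟨G.al_mem u h.u1, h0.1, by
      rw [G.al_al u h.u1, h.pu]
      exact fun k1 => (hX _ k1).1 rfl⟩
    have h2 : G.al e ∈ (G.bd X).erase (G.al u) := mem_erase.2 ⟨h.ne_ug.symm, mem_bd.2
      ⟨G.al_mem e h.g1, h0.2, by
        rw [G.al_al e h.g1, h.pg]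
        exact fun k1 => (hX _ k1).2 rfl⟩⟩
    have h3 : ((G.bd X).filter fun d =>
        ¬ ((d = G.al u ∨ d = G.al e) ∧ G.pi (G.al u) ∈ X ∧ G.pi (G.al e) ∈ X)) =
        ((G.bd X).erase (G.al u)).erase (G.al e) := by
      ext d
      rw [mem_filter, mem_erase, mem_erase]
      constructor
      · rintro ⟨k1, k3⟩
        exact ⟨fun e' => k3 ⟨Or.inr e', h0⟩, fun e' => k3 ⟨Or.inl e', h0⟩, k1⟩
      · rintro ⟨k1, k2, k3⟩
        refine ⟨k3, ?_⟩
        rintro ⟨k4 | k4, -⟩
        · exact k2 k4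
        · exact k1 k4
    have h4 := card_erase_add_one h1
    have h5 := card_erase_add_one h2
    rw [h3]
    omega
  · have h3 : ((G.bd X).filter fun d =>
        ¬ ((d = G.al u ∨ d = G.al e) ∧ G.pi (G.al u) ∈ X ∧ G.pi (G.al e) ∈ X)) = G.bd X := by
      rw [filter_eq_self]
      exact fun d _ k1 => h0 k1.2
    rw [h3, add_zero]

/-- values -/
theorem gr_val (h : Ad G y b a u e) (hX : ∀ v ∈ X, v ≠ y ∧ v ≠ b) :
    h.gr.val one1 t X = G.val one1 t X -
      if G.pi (G.al u) ∈ X ∧ G.pi (G.al e) ∈ X then 2 else 0 := by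
  have h1 := h.gr_bd_card hX
  rw [val_one, val_one, ← h1]
  split_ifs <;> push_cast <;> ring

/-- the value of a set with `y`, `b` -/
theorem val_yb (h : Ad G y b a u e) (hX : ∀ v ∈ X, v ≠ y ∧ v ≠ b)
    (h1 : G.pi (G.al u) ∈ X) (h2 : G.pi (G.al e) ∈ X) :
    G.val one1 t (insert y (insert b X)) = G.val one1 t X + t y + t b - 2 := by
  have hyX : y ∉ insert b X := by
    rw [mem_insert]
    exact fun k1 => k1.elim h.yb fun k2 => (hX _ k2).1 rfl
  have hbX : b ∉ X := fun k1 => (hX _ k1).2 rfl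
  have hbd : G.bd (insert y (insert b X)) = ((G.bd X).erase (G.al u)).erase (G.al e) := by
    ext d
    rw [mem_erase, mem_erase, mem_bd, mem_bd]
    simp only [mem_insert, not_or]
    constructor
    · rintro ⟨k1, k2 | k2 | k2, k3, k4, k5⟩
      · rcases h.at_y k1 k2 with k6 | k6
        · exact absurd (by rw [k6, h.pb]) k4
        · exact absurd (by rw [k6]; exact h1) k5
      · rcases h.at_b k1 k2 with k6 | k6
        · exact absurd (by rw [k6, G.al_al a h.a1, h.pa]) k3
        · exact absurd (by rw [k6]; exact h2) k5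
      · refine ⟨fun e' => k4 ?_, fun e' => k3 ?_, k1, k2, k5⟩
        · rw [e', G.al_al e h.g1, h.pg]
        · rw [e', G.al_al u h.u1, h.pu]
    · rintro ⟨k1, k2, k3, k4, k5⟩
      refine ⟨k3, Or.inr (Or.inr k4), fun e' => ?_, fun e' => ?_, k5⟩
      · rcases h.at_y (G.al_mem d k3) e' with k6 | k6
        · exact (hX _ k4).2 (by rw [← G.al_al d k3, k6, h.pb])
        · exact k2 (by rw [← k6, G.al_al d k3])
      · rcases h.at_b (G.al_mem d k3) e' with k6 | k6
        · have k7 : d = a := by rw [← G.al_al d k3, k6, G.al_al a h.a1]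
          exact (hX _ k4).1 (by rw [k7, h.pa])
        · exact k1 (by rw [← k6, G.al_al d k3])
  have m1 : G.al u ∈ G.bd X := mem_bd.2 ⟨G.al_mem u h.u1, h1, by
    rw [G.al_al u h.u1, h.pu]
    exact fun k1 => (hX _ k1).1 rfl⟩
  have m2 : G.al e ∈ (G.bd X).erase (G.al u) := mem_erase.2 ⟨h.ne_ug.symm, mem_bd.2
    ⟨G.al_mem e h.g1, h2, by
      rw [G.al_al e h.g1, h.pg]
      exact fun k1 => (hX _ k1).2 rfl⟩⟩
  have n1 := card_erase_add_one m1
  have n2 := card_erase_add_one m2
  rw [val_one, val_one, hbd, sum_insert hyX, sum_insert hbX]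
  have n3 : (((G.bd X).card : ℕ) : ℝ) =
      ((((G.bd X).erase (G.al u)).erase (G.al e)).card : ℝ) + 2 := by
    have : (G.bd X).card = (((G.bd X).erase (G.al u)).erase (G.al e)).card + 2 := by omega
    exact_mod_cast this
  rw [n3]
  ring

/-- a matching of the new graph gives one of the old graph -/
noncomputable def up (_h : Ad G y b a u e) (M' : Finset D) : Finset D :=
  if G.al u ∈ M' then M' ∪ {u, e} else M' ∪ {a, G.al a}

theorem up_mem (h : Ad G y b a u e) {d : D} (h1 : G.pi d ≠ y) (h2 : G.pi d ≠ b) :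
    d ∈ h.up M' ↔ d ∈ M' := by
  unfold up
  split_ifs with h3
  · rw [mem_union, mem_insert, mem_singleton]
    refine ⟨fun k => ?_, Or.inl⟩
    rcases k with k | k | k
    · exact k
    · exact absurd (by rw [k, h.pu]) h1
    · exact absurd (by rw [k, h.pg]) h2
  · rw [mem_union, mem_insert, mem_singleton]
    refine ⟨fun k => ?_, Or.inl⟩
    rcases k with k | k | k
    · exact k
    · exact absurd (by rw [k, h.pa]) h1
    · exact absurd (by rw [k, h.pb]) h2

theorem up_pm (h : Ad G y b a u e) (hM : h.gr.IsPM M') : G.IsPM (h.up M') := by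
  have hs : ∀ d ∈ M', d ∈ G.ds ∧ G.pi d ≠ y ∧ G.pi d ≠ b := fun d hd =>
    h.gr_ds.1 (hM.sub hd)
  have hug : G.al u ∈ M' ↔ G.al e ∈ M' := by
    constructor
    · intro k
      have := hM.closed _ k
      rwa [h.al_u] at this
    · intro k
      have := hM.closed _ k
      rwa [h.al_g] at this
  refine ⟨?_, ?_, ?_⟩
  · intro d hd
    unfold up at hd
    split_ifs at hd with h1
    · rw [mem_union, mem_insert, mem_singleton] at hd
      rcases hd with hd | rfl | rfl
      · exact (hs d hd).1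
      · exact h.u1
      · exact h.g1
    · rw [mem_union, mem_insert, mem_singleton] at hd
      rcases hd with hd | rfl | rfl
      · exact (hs d hd).1
      · exact h.a1
      · exact G.al_mem _ h.a1
  · intro d hd
    unfold up at hd ⊢
    split_ifs at hd ⊢ with h1
    · rw [mem_union, mem_insert, mem_singleton] at hd ⊢
      rcases hd with hd | rfl | rfl
      · by_cases k1 : d = G.al u
        · right; left
          rw [k1, G.al_al u h.u1]
        · by_cases k2 : d = G.al e
          · right; right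
            rw [k2, G.al_al e h.g1]
          · left
            have := hM.closed d hd
            rwa [h.al_o k1 k2] at this
      · exact Or.inl h1
      · exact Or.inl (hug.1 h1)
    · rw [mem_union, mem_insert, mem_singleton] at hd ⊢
      rcases hd with hd | rfl | rfl
      · have k1 : d ≠ G.al u := fun e' => h1 (e' ▸ hd)
        have k2 : d ≠ G.al e := fun e' => h1 (hug.2 (e' ▸ hd))
        left
        have := hM.closed d hd
        rwa [h.al_o k1 k2] at this
      · exact Or.inr (Or.inr rfl)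
      · right; left
        exact G.al_al a h.a1
  · intro v hv
    by_cases k1 : v = y
    · rw [k1, card_eq_one]
      unfold up
      split_ifs with h1
      · refine ⟨u, ?_⟩
        ext d
        rw [mem_filter, mem_union, mem_insert, mem_singleton, mem_singleton]
        constructor
        · rintro ⟨k | k | k, k3⟩
          · exact absurd k3 (hs d k).2.1
          · exact k
          · exact absurd (by rw [← k3, k, h.pg]) h.yb
        · rintro rfl
          exact ⟨Or.inr (Or.inl rfl), h.pu⟩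
      · refine ⟨a, ?_⟩
        ext d
        rw [mem_filter, mem_union, mem_insert, mem_singleton, mem_singleton]
        constructor
        · rintro ⟨k | k | k, k3⟩
          · exact absurd k3 (hs d k).2.1
          · exact k
          · exact absurd (by rw [← k3, k, h.pb]) h.yb
        · rintro rfl
          exact ⟨Or.inr (Or.inl rfl), h.pa⟩
    · by_cases k2 : v = b
      · rw [k2, card_eq_one]
        unfold up
        split_ifs with h1
        · refine ⟨e, ?_⟩
          ext d
          rw [mem_filter, mem_union, mem_insert, mem_singleton]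
          constructor
          · rintro ⟨k | k | k, k3⟩
            · exact absurd k3 (hs d k).2.2
            · exact absurd (by rw [← k3, k, h.pu]) h.yb
            · exact k
          · rintro rfl
            exact ⟨Or.inr (Or.inr rfl), h.pg⟩
        · refine ⟨G.al a, ?_⟩
          ext d
          rw [mem_filter, mem_union, mem_insert, mem_singleton]
          constructor
          · rintro ⟨k | k | k, k3⟩
            · exact absurd k3 (hs d k).2.2
            · exact absurd (by rw [← k3, k, h.pa]) h.yb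
            · exact k
          · rintro rfl
            exact ⟨Or.inr (Or.inr rfl), h.pb⟩
      · rw [← hM.one v (h.gr_vs.2 ⟨hv, k1, k2⟩)]
        congr 1
        ext d
        rw [mem_filter, mem_filter]
        constructor
        · rintro ⟨k3, k4⟩
          exact ⟨(h.up_mem (by rw [k4]; exact k1) (by rw [k4]; exact k2)).1 k3, k4⟩
        · rintro ⟨k3, k4⟩
          exact ⟨(h.up_mem (by rw [← h.gr_pi, k4]; exact k1)
            (by rw [← h.gr_pi, k4]; exact k2)).2 k3, k4⟩

/-- unions of circuits of the new graph are the old ones -/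
theorem adm (h : Ad G y b a u e) (hF : G.FrS one1 fr F jm) (hy : y ∉ fr) (hb : b ∉ fr)
    {X : Finset V} : h.gr.Adm fr F X ↔ G.Adm fr F X := by
  have hFal : ∀ d ∈ F, h.gr.al d = G.al d := by
    intro d hd'
    refine h.al_o (fun e' => hy ?_) (fun e' => hb ?_)
    · have h3 := hF.Ffr _ (hF.Fal d hd')
      rw [e', G.al_al u h.u1, h.pu] at h3
      exact h3
    · have h3 := hF.Ffr _ (hF.Fal d hd')
      rw [e', G.al_al e h.g1, h.pg] at h3
      exact h3
  constructor
  · intro hX
    refine ⟨hX.sub, fun d hd hp => ?_⟩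
    have k1 := hX.clo d hd hp
    rw [hFal d hd] at k1
    exact k1
  · intro hX
    refine ⟨hX.sub, fun d hd hp => ?_⟩
    rw [hFal d hd]
    exact hX.clo d hd hp

/-- **LIFTING** -/
theorem up_good (h : Ad G y b a u e) (hF : G.FrS one1 fr F jm) (hy : y ∉ fr) (hb : b ∉ fr)
    (hM : h.gr.GoodS one1 fr F jm M') : G.GoodS one1 fr F jm (h.up M') := by
  refine ⟨h.up_pm hM.pm, fun _ _ => zero_lt_one, fun X hX ho => ?_⟩
  obtain ⟨d, hd, hdM⟩ := hM.hit X ((h.adm hF hy hb).2 hX) ho
  have hXn : ∀ v ∈ X, v ≠ y ∧ v ≠ b := fun v hv =>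
    ⟨fun e' => hy (e' ▸ hX.sub hv), fun e' => hb (e' ▸ hX.sub hv)⟩
  rw [h.gr_bd hXn] at hd
  have h1 := (mem_filter.1 hd).1
  have h2 := hXn _ (mem_bd.1 h1).2.1
  exact ⟨d, h1, fun k1 => hdM ((h.up_mem h2.1 h2.2).1 k1)⟩

end Ad

namespace EK

/-- no vertex of a state with 4 tokens has 3 tokens -/
theorem toE4 (h : EK G 4 t fr F jm) : E4 G t fr F jm := by
  refine ⟨h.even, h.fresh, h.jm2, h.deg, h.t0, fun v hv => ?_, h.tau,
    fun X hX ho h1 _ => h.odd X hX ho h1, fun X hX he hn h1 => ?_, fun X hX he hn h1 h2 => ?_,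
    fun X hX ho => ?_, h.c6⟩
  · obtain ⟨n, hn, hc⟩ := h.tnat hv
    rw [hn]
    by_contra hcon
    have h3 : n = 3 := by
      have : ¬ n ≤ 2 := fun k1 => hcon (by exact_mod_cast k1)
      omega
    subst h3
    have hst : G.st v = ∅ := card_eq_zero.1 (by omega)
    have hX : G.vs.erase v ⊆ G.vs := erase_subset _ _
    have hbd : G.bd (G.vs.erase v) = ∅ := by
      rw [eq_empty_iff_forall_notMem]
      intro d hd
      obtain ⟨k1, k2, k3⟩ := mem_bd.1 hd
      have k4 : G.pi (G.al d) = v := by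
        by_contra k5
        exact k3 (mem_erase.2 ⟨k5, G.pi_mem _ (G.al_mem d k1)⟩)
      have k5 : G.al d ∈ G.st v := mem_st.2 ⟨G.al_mem d k1, k4⟩
      rw [hst] at k5
      exact absurd k5 (notMem_empty _)
    have hval : G.val one1 t (G.vs.erase v) = 1 := by
      rw [val_one, hbd, card_empty]
      have h4 := h.tau
      rw [← add_sum_erase G.vs t hv, hn] at h4
      push_cast at h4 ⊢
      linarith
    have ho : Odd (G.vs.erase v).card := by
      have h5 := card_erase_add_one hv
      have h6 := h.even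
      rw [← h5] at h6
      exact Nat.not_even_iff_odd.1 fun k1 => by
        rw [Nat.even_add_one] at h6
        exact h6 k1
    by_cases h7 : (G.vs.erase v).card = 1
    · obtain ⟨w, hw⟩ := card_eq_one.1 h7
      have hwv : w ∈ G.vs := hX (by rw [hw]; exact mem_singleton_self w)
      have h8 := h.deg w hwv
      rw [hw, val_one, sum_singleton] at hval
      have h9 : G.bd {w} = G.st w := by
        ext d
        rw [mem_bd, mem_st, mem_singleton, mem_singleton]
        constructor
        · rintro ⟨k1, k2, _⟩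
          exact ⟨k1, k2⟩
        · rintro ⟨k1, k2⟩
          exact ⟨k1, k2, fun k3 => G.noloop d k1 (k3.trans k2.symm)⟩
      rw [h9] at hval
      linarith
    · have h8 := h.odd _ hX ho h7
      linarith
  · linarith [h.evn X hX he hn h1]
  · linarith [h.evn X hX he hn h1]
  · have h1 := (h.toC (by norm_num)).cc X hX ho
    have h3 : ∑ v ∈ X, epi jm v = (X ∩ jm).card := by
      unfold epi
      rw [← sum_filter, sum_const, smul_eq_mul, mul_one]
      congr 1
    rw [h3] at h1
    exact h1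

/-- **THE PAID STATE** -/
theorem paid (h : EK G 6 t fr F jm) (s : Ad G y b a u e) (hy : y ∉ fr) (hb : b ∉ fr)
    (hun : ∀ W ⊆ G.vs, y ∈ W → b ∈ W → G.pi (G.al u) ∈ W → G.pi (G.al e) ∈ W →
      (Odd W.card → ((G.vs \ W).card ≠ 1 ∨ W \ {y, b} ⊆ fr) → 7 ≤ G.val one1 t W) ∧
        (Even W.card → (∃ v ∈ G.vs \ W, t v ≠ 2) → 6 ≤ G.val one1 t W))
    (h8 : ∀ X, G.Adm fr F X → Even X.card → G.pi (G.al u) ∈ X → G.pi (G.al e) ∈ X →
      8 ≤ (G.bd X).card + (X ∩ jm).card) :
    E4 s.gr t fr F jm := by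
  have hF := h.fresh
  have hyv : y ∈ G.vs := s.pa ▸ G.pi_mem a s.a1
  have hbv : b ∈ G.vs := s.pb ▸ G.pi_mem _ (G.al_mem a s.a1)
  have hty : t y = 1 := by
    have h1 := h.deg y hyv
    have h2 : G.st y = {a, u} := by
      ext d
      rw [s.sy, mem_insert, mem_singleton]
    rw [h2, card_pair s.au] at h1
    push_cast at h1
    linarith
  have htb : t b = 1 := by
    have h1 := h.deg b hbv
    have h2 : G.st b = {G.al a, e} := by
      ext d
      rw [s.sb, mem_insert, mem_singleton]
    rw [h2, card_pair s.ae] at h1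
    push_cast at h1
    linarith
  have hfr : ∀ v ∈ fr, v ≠ y ∧ v ≠ b := fun v hv =>
    ⟨fun e' => hy (e' ▸ hv), fun e' => hb (e' ▸ hv)⟩
  have hXn : ∀ X ⊆ s.gr.vs, ∀ v ∈ X, v ≠ y ∧ v ≠ b := fun X hX v hv => (s.gr_vs.1 (hX hv)).2
  have hXv : ∀ X ⊆ s.gr.vs, X ⊆ G.vs := fun X hX v hv => (s.gr_vs.1 (hX hv)).1
  have hval : ∀ X ⊆ s.gr.vs, s.gr.val one1 t X = G.val one1 t X -
      if G.pi (G.al u) ∈ X ∧ G.pi (G.al e) ∈ X then 2 else 0 := fun X hX => s.gr_val (hXn X hX)
  have hW : ∀ X ⊆ s.gr.vs, (insert y (insert b X)) ⊆ G.vs ∧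
      (insert y (insert b X)).card = X.card + 2 ∧
      G.vs \ (insert y (insert b X)) = s.gr.vs \ X ∧
      (insert y (insert b X)) \ {y, b} = X := by
    intro X hX
    have hyX : y ∉ insert b X := by
      rw [mem_insert, not_or]
      exact ⟨s.yb, fun k1 => (hXn X hX y k1).1 rfl⟩
    have hbX : b ∉ X := fun k1 => (hXn X hX b k1).2 rfl
    refine ⟨?_, ?_, ?_, ?_⟩
    · intro v hv
      rw [mem_insert, mem_insert] at hv
      rcases hv with rfl | rfl | hv
      · exact hyv
      · exact hbv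
      · exact hXv X hX hv
    · rw [card_insert_of_notMem hyX, card_insert_of_notMem hbX]
    · ext v
      rw [mem_sdiff, mem_sdiff, mem_insert, mem_insert, s.gr_vs]
      tauto
    · ext v
      rw [mem_sdiff, mem_insert, mem_insert, mem_insert, mem_singleton]
      constructor
      · rintro ⟨k1 | k1 | k1, k2⟩
        · exact absurd (Or.inl k1) k2
        · exact absurd (Or.inr k1) k2
        · exact k1
      · intro k1
        exact ⟨Or.inr (Or.inr k1), fun k2 => k2.elim (hXn X hX v k1).1 (hXn X hX v k1).2⟩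
  have hWv : ∀ X ⊆ s.gr.vs, G.pi (G.al u) ∈ X → G.pi (G.al e) ∈ X →
      G.val one1 t (insert y (insert b X)) = G.val one1 t X := by
    intro X hX h1 h2
    rw [s.val_yb (hXn X hX) h1 h2, hty, htb]
    ring
  have hodd : ∀ X ⊆ s.gr.vs, Odd X.card → X.card ≠ 1 →
      ((s.gr.vs \ X).card ≠ 1 ∨ X ⊆ fr) → 5 ≤ s.gr.val one1 t X := by
    intro X hX ho h1 h2
    rw [hval X hX]
    split_ifs with h3
    · obtain ⟨w1, w2, w3, w4⟩ := hW X hX
      have ho' : Odd (insert y (insert b X)).card := by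
        rw [w2]
        exact ho.add_even even_two
      have h4 := (hun _ w1 (mem_insert_self _ _)
        (mem_insert_of_mem (mem_insert_self _ _))
        (mem_insert_of_mem (mem_insert_of_mem h3.1))
        (mem_insert_of_mem (mem_insert_of_mem h3.2))).1 ho' (by rw [w3, w4]; exact h2)
      rw [hWv X hX h3.1 h3.2] at h4
      linarith
    · linarith [h.odd X (hXv X hX) ho h1]
  refine ⟨?_, ?_, h.jm2, ?_, ?_, ?_, ?_, fun X hX ho h1 h2 => hodd X hX ho h1 (Or.inl h2),
    ?_, ?_, ?_, ?_⟩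
  · have h1 := s.gr_card
    have h2 := h.even
    rw [← h1] at h2
    exact (Nat.even_add.1 h2).2 even_two
  · refine ⟨fun v hv => s.gr_vs.2 ⟨hF.fsub hv, hfr v hv⟩, fun d hd' => ?_, fun d hd' => ?_,
      hF.Ffr, hF.two, hF.jms, fun v hv hvj => ?_, fun v hv d hd' => ?_, fun _ _ _ => rfl⟩
    · exact s.gr_ds.2 ⟨hF.Fsub hd', hfr _ (hF.Ffr d hd')⟩
    · have k1 : s.gr.al d = G.al d := by
        refine s.al_o (fun e' => hy ?_) (fun e' => hb ?_)
        · have h3 := hF.Ffr _ (hF.Fal d hd')
          rw [e', G.al_al u s.u1, s.pu] at h3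
          exact h3
        · have h3 := hF.Ffr _ (hF.Fal d hd')
          rw [e', G.al_al e s.g1, s.pg] at h3
          exact h3
      rw [k1]
      exact hF.Fal d hd'
    · rw [s.gr_st (hfr v hv).1 (hfr v hv).2]
      exact hF.jd v hv hvj
    · rw [s.gr_st (hfr v (hF.jms hv)).1 (hfr v (hF.jms hv)).2] at hd'
      exact hF.j0 v hv d hd'
  · intro v hv
    obtain ⟨h1, h2, h3⟩ := s.gr_vs.1 hv
    rw [s.gr_st h2 h3]
    exact h.deg v h1
  · exact fun v hv => h.t0 v (s.gr_vs.1 hv).1
  · intro v hv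
    obtain ⟨n, hn, hc⟩ := h.tnat (s.gr_vs.1 hv).1
    rw [hn]
    by_contra hcon
    have h3 : n = 3 := by
      have : ¬ n ≤ 2 := fun k1 => hcon (by exact_mod_cast k1)
      omega
    subst h3
    -- the two vertices `y`, `v`, and the vertex `b`
    have hst : G.st v = ∅ := card_eq_zero.1 (by omega)
    have hvy := (s.gr_vs.1 hv).2.1
    have hX : ({y, v} : Finset V) ⊆ G.vs := by
      intro x hx
      rw [mem_insert, mem_singleton] at hx
      rcases hx with rfl | rfl
      · exact hyv
      · exact (s.gr_vs.1 hv).1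
    have hev : G.val one1 t (G.vs.erase v) = 3 := by
      have hbd : G.bd (G.vs.erase v) = ∅ := by
        rw [eq_empty_iff_forall_notMem]
        intro d hd
        obtain ⟨k1, k2, k3⟩ := mem_bd.1 hd
        have k4 : G.pi (G.al d) = v := by
          by_contra k5
          exact k3 (mem_erase.2 ⟨k5, G.pi_mem _ (G.al_mem d k1)⟩)
        have k5 : G.al d ∈ G.st v := mem_st.2 ⟨G.al_mem d k1, k4⟩
        rw [hst] at k5
        exact absurd k5 (notMem_empty _)
      rw [val_one, hbd, card_empty]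
      have h4 := h.tau
      rw [← add_sum_erase G.vs t (s.gr_vs.1 hv).1, hn] at h4
      push_cast at h4 ⊢
      linarith
    have ho : Odd (G.vs.erase v).card := by
      have h5 := card_erase_add_one (s.gr_vs.1 hv).1
      have h6 := h.even
      rw [← h5] at h6
      exact Nat.not_even_iff_odd.1 fun k1 => by
        rw [Nat.even_add_one] at h6
        exact h6 k1
    have h7 : (G.vs.erase v).card ≠ 1 := by
      have h8 : ({y, b} : Finset V) ⊆ G.vs.erase v := by
        intro x hx
        rw [mem_insert, mem_singleton] at hx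
        rcases hx with rfl | rfl
        · exact mem_erase.2 ⟨hvy.symm, hyv⟩
        · exact mem_erase.2 ⟨(s.gr_vs.1 hv).2.2.symm, hbv⟩
      have h9 := card_le_card h8
      rw [card_pair s.yb] at h9
      omega
    linarith [h.odd _ (erase_subset _ _) ho h7]
  · have e1' : G.vs = insert y (insert b s.gr.vs) := by
      ext v
      rw [mem_insert, mem_insert, s.gr_vs]
      constructor
      · intro hv
        by_cases k1 : v = y
        · exact Or.inl k1
        · by_cases k2 : v = b
          · exact Or.inr (Or.inl k2)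
          · exact Or.inr (Or.inr ⟨hv, k1, k2⟩)
      · rintro (rfl | rfl | k1)
        · exact hyv
        · exact hbv
        · exact k1.1
    have h1 := h.tau
    have hyX : y ∉ insert b s.gr.vs := by
      rw [mem_insert, not_or]
      exact ⟨s.yb, fun k1 => (s.gr_vs.1 k1).2.1 rfl⟩
    have hbX : b ∉ s.gr.vs := fun k1 => (s.gr_vs.1 k1).2.2 rfl
    rw [e1', sum_insert hyX, sum_insert hbX, hty, htb] at h1
    linarith
  · intro X hX he hn h1
    rw [hval X hX]
    have h3 : X ≠ G.vs := fun e' => (hXn X hX y (by rw [e']; exact hyv)).1 rfl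
    have h4 := h.evn X (hXv X hX) he hn h3
    split_ifs <;> linarith
  · intro X hX he hn h1 h2 v hv
    rw [hval X hX] at h2
    have h3 : X ≠ G.vs := fun e' => (hXn X hX y (by rw [e']; exact hyv)).1 rfl
    have h4 := h.evn X (hXv X hX) he hn h3
    split_ifs at h2 with h5
    · obtain ⟨w1, w2, w3, w4⟩ := hW X hX
      by_contra hcon
      have he' : Even (insert y (insert b X)).card := by
        rw [w2]
        exact he.add even_two
      have h6 := (hun _ w1 (mem_insert_self _ _)
        (mem_insert_of_mem (mem_insert_self _ _))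
        (mem_insert_of_mem (mem_insert_of_mem h5.1))
        (mem_insert_of_mem (mem_insert_of_mem h5.2))).2 he' ⟨v, by rw [w3]; exact hv, hcon⟩
      rw [hWv X hX h5.1 h5.2] at h6
      linarith
    · linarith
  · intro X hX ho
    have hX' := (s.adm hF hy hb).1 hX
    have hXs : X ⊆ s.gr.vs := fun v hv => s.gr_vs.2 ⟨hF.fsub (hX.sub hv), hfr v (hX.sub hv)⟩
    have h1 : X.card ≠ 1 := by
      intro e'
      obtain ⟨v, rfl⟩ := card_eq_one.1 e'
      have hv := hX.sub (mem_singleton_self v)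
      have h2 := h.fresh.two v hv
      obtain ⟨d, hd⟩ := card_pos.1 (by rw [h2]; norm_num : 0 < (F.filter fun d => G.pi d = v).card)
      obtain ⟨h3, h4⟩ := mem_filter.1 hd
      have h5 := hX'.clo d h3 (by rw [h4]; exact mem_singleton_self v)
      exact G.noloop d (h.fresh.Fsub h3) (by rw [mem_singleton.1 h5, h4])
    have h2 := hodd X hXs ho h1 (Or.inr hX.sub)
    rw [val_one, h.sum_tok_fr hX.sub] at h2
    exact_mod_cast h2
  · intro X hX he hn
    have hX' := (s.adm hF hy hb).1 hX
    have h1 := s.gr_bd_card (X := X) fun v hv => hfr v (hX.sub hv)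
    split_ifs at h1 with h2
    · have h3 := h8 X hX' he h2.1 h2.2
      omega
    · have h3 := h.c6 X hX' he hn
      omega

end EK

namespace X6

/-- a token vertex at the end of a J-edge or of a Q-edge is in Q -/
theorem not_fr_of_tok (h : X6 G t fr F jm) {a : D} (ha : a ∈ G.ds) (haF : a ∉ F)
    (ty : 1 ≤ t (G.pi a)) : G.pi a ∉ fr := by
  intro hfr
  have h1 := h.tok_fr hfr
  split_ifs at h1 with h2
  · exact haF (h.fresh.j0 _ h2 a (mem_st.2 ⟨ha, rfl⟩))
  · linarith

theorem al_notF (h : X6 G t fr F jm) {a : D} (ha : a ∈ G.ds) (haF : a ∉ F) : G.al a ∉ F :=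
  fun k1 => haF (by rw [← G.al_al a ha]; exact h.fresh.Fal _ k1)

/-- **two adjacent token vertices, one with two tokens: impossible** -/
theorem adj2 (h : X6 G t fr F jm) {a : D} (ha : a ∈ G.ds) (haF : a ∉ F)
    (ty : t (G.pi a) = 2) (tb : 1 ≤ t (G.pi (G.al a))) : False := by
  obtain ⟨y, hy⟩ : ∃ y, y = G.pi a := ⟨_, rfl⟩
  obtain ⟨b, hb⟩ : ∃ b, b = G.pi (G.al a) := ⟨_, rfl⟩
  have hyf : y ∉ fr := by
    rw [hy]
    exact h.not_fr_of_tok ha haF (by rw [ty]; norm_num)
  have hbf : b ∉ fr := by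
    rw [hb]
    exact h.not_fr_of_tok (G.al_mem a ha) (h.al_notF ha haF) tb
  have hyv : y ∈ G.vs := hy ▸ G.pi_mem a ha
  have hbv : b ∈ G.vs := hb ▸ G.pi_mem _ (G.al_mem a ha)
  have hyb : y ≠ b := by
    rw [hy, hb]
    exact fun e' => G.noloop a ha e'.symm
  rw [← hy] at ty
  rw [← hb] at tb
  -- the only dart at `y` is `a`
  have hsty : ∀ d ∈ G.ds, G.pi d = y → d = a := by
    intro d hd hp
    have h1 := h.st_card (n := 2) hyv (by rw [ty]; norm_num)
    obtain ⟨x, hx⟩ := card_eq_one.1 (by omega : (G.st y).card = 1)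
    have h2 : d ∈ G.st y := mem_st.2 ⟨hd, hp⟩
    have h3 : a ∈ G.st y := mem_st.2 ⟨ha, hy.symm⟩
    rw [hx, mem_singleton] at h2 h3
    rw [h2, h3]
  obtain ⟨U, hU⟩ : ∃ U : Finset V, U = G.vs \ {y, b} := ⟨_, rfl⟩
  have hUs : U ⊆ G.vs := hU ▸ sdiff_subset
  have hsub : ({y, b} : Finset V) ⊆ G.vs := by
    intro x hx
    rw [mem_insert, mem_singleton] at hx
    rcases hx with rfl | rfl
    · exact hyv
    · exact hbv
  have hUc : U.card + 2 = G.vs.card := by
    rw [hU, card_sdiff_of_subset hsub, card_pair hyb]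
    have := card_le_card hsub
    rw [card_pair hyb] at this
    omega
  have hUe : Even U.card := by
    have h1 := h.even
    rw [← hUc] at h1
    exact (Nat.even_add.1 h1).2 even_two
  have hmU : ∀ v, v ∈ U ↔ v ∈ G.vs ∧ v ≠ y ∧ v ≠ b := by
    intro v
    rw [hU, mem_sdiff, mem_insert, mem_singleton, not_or]
  have hfU : fr ⊆ U := fun v hv => (hmU v).2 ⟨h.fresh.fsub hv, fun e' => hyf (e' ▸ hv),
    fun e' => hbf (e' ▸ hv)⟩
  have hsU : G.vs \ U = {y, b} := by
    rw [hU, Finset.sdiff_sdiff_eq_self hsub]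
  have hM0 : (G.res (G.vs \ U)).IsPM {a, G.al a} := by
    rw [hsU]
    have m1 : a ∈ (G.res {y, b}).ds := mem_filter.2 ⟨ha, by rw [← hy]; exact mem_insert_self _ _,
      by rw [← hb]; exact mem_insert_of_mem (mem_singleton_self _)⟩
    have m2 : G.al a ∈ (G.res {y, b}).ds := (G.res {y, b}).al_mem a m1
    refine ⟨?_, ?_, ?_⟩
    · intro d hd
      rw [mem_insert, mem_singleton] at hd
      rcases hd with rfl | rfl
      · exact m1
      · exact m2
    · intro d hd
      rw [mem_insert, mem_singleton] at hd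
      rcases hd with rfl | rfl
      · exact mem_insert_of_mem (mem_singleton_self _)
      · show G.al (G.al a) ∈ _
        rw [G.al_al a ha]
        exact mem_insert_self _ _
    · intro v hv
      have hv' : v ∈ ({y, b} : Finset V) := (mem_inter.1 hv).2
      rw [mem_insert, mem_singleton] at hv'
      rw [card_eq_one]
      rcases hv' with rfl | rfl
      · refine ⟨a, ?_⟩
        ext d
        rw [mem_filter, mem_insert, mem_singleton, mem_singleton]
        constructor
        · rintro ⟨k1 | k1, k2⟩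
          · exact k1
          · exact absurd (show v = b by rw [hb, ← k1]; exact k2.symm) hyb
        · intro k1
          exact ⟨Or.inl k1, by rw [k1]; exact hy.symm⟩
      · refine ⟨G.al a, ?_⟩
        ext d
        rw [mem_filter, mem_insert, mem_singleton]
        constructor
        · rintro ⟨k1 | k1, k2⟩
          · exact absurd (show y = v by rw [hy, ← k1]; exact k2) hyb
          · exact k1
        · intro k1
          exact ⟨Or.inr k1, by rw [k1]; exact hb.symm⟩
  -- the boundary of `U` is the star of `b` without the edge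
  have hbU : G.bd U = ((G.st b).erase (G.al a)).image G.al := by
    ext d
    rw [mem_bd, mem_image]
    constructor
    · rintro ⟨k1, k2, k3⟩
      refine ⟨G.al d, mem_erase.2 ⟨fun k4 => ?_, mem_st.2 ⟨G.al_mem d k1, ?_⟩⟩, G.al_al d k1⟩
      · have k5 : d = a := by rw [← G.al_al d k1, k4, G.al_al a ha]
        exact ((hmU _).1 k2).2.1 (by rw [k5]; exact hy.symm)
      · by_contra k4
        refine k3 ((hmU _).2 ⟨G.pi_mem _ (G.al_mem d k1), fun k5 => ?_, k4⟩)
        have k6 := hsty _ (G.al_mem d k1) k5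
        exact ((hmU _).1 k2).2.2 (by rw [← G.al_al d k1, k6]; exact hb.symm)
    · rintro ⟨x, hx, rfl⟩
      obtain ⟨k1, k2⟩ := mem_erase.1 hx
      obtain ⟨k3, k4⟩ := mem_st.1 k2
      refine ⟨G.al_mem x k3, (hmU _).2 ⟨G.pi_mem _ (G.al_mem x k3), fun k5 => ?_, fun k5 => ?_⟩, ?_⟩
      · have k6 := hsty _ (G.al_mem x k3) k5
        exact k1 (by rw [← k6, G.al_al x k3])
      · exact G.noloop x k3 (by rw [k5, k4])
      · rw [G.al_al x k3, k4, hmU]
        exact fun k5 => k5.2.2 rfl
  have hbUc : (G.bd U).card + 1 = (G.st b).card := by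
    rw [hbU, card_image_of_injOn ?_]
    · exact card_erase_add_one (mem_st.2 ⟨G.al_mem a ha, hb.symm⟩)
    · intro d hd d' hd' e'
      have k1 := (mem_st.1 (mem_of_mem_erase hd)).1
      have k2 := (mem_st.1 (mem_of_mem_erase hd')).1
      rw [← G.al_al d k1, e', G.al_al d' k2]
  have htU : ∑ v ∈ U, t v = 4 - t b := by
    have h1 := h.tau
    rw [← sum_sdiff hsub, ← hU, sum_pair hyb, ty] at h1
    linarith
  have hvU : G.val one1 t U = 6 - 2 * t b := by
    have h1 := h.deg b hbv
    rw [← hbUc] at h1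
    push_cast at h1
    rw [val_one, htU]
    linarith
  have hUn : U.Nonempty := by
    rw [nonempty_iff_ne_empty]
    intro e'
    rw [e', sum_empty] at htU
    obtain ⟨n, hn, hc⟩ := h.tnat hbv
    have : (n : ℝ) ≤ (3 : ℕ) := by exact_mod_cast (by omega : n ≤ 3)
    push_cast at this
    rw [hn] at htU
    linarith
  have hUne : U ≠ G.vs := fun e' => ((hmU y).1 (by rw [e']; exact hyv)).2.1 rfl
  have h4 := h.evn U hUs hUe hUn hUne
  have htb : t b = 1 := by linarith
  have hv4 : G.val one1 t U = 4 := by rw [hvU, htb]; norm_num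
  obtain ⟨fr', hs, hcl, -, hj, hE, hl⟩ := h.toEK.res_child hUs hfU hUe hM0
  rw [hv4] at hE
  obtain ⟨M', hM'⟩ := h.solve4 (by
    have h5 : fr'.card ≤ fr.card := card_le_card hs
    have h6 : (G.res U).vs.card < G.vs.card := by
      have : (G.res U).vs = U := inter_eq_right.2 hUs
      rw [this]
      omega
    omega) hE.toE4
  exact h.bad ⟨_, hl M' hM'⟩

/-- **(E0)**: two adjacent token vertices: both have one token, and there is a set which blocks the
payment: an odd set with value 5, an even set with value 4 or an EV6-blocker -/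
theorem adj (h : X6 G t fr F jm) {a : D} (ha : a ∈ G.ds) (haF : a ∉ F)
    (ty : 1 ≤ t (G.pi a)) (tb : 1 ≤ t (G.pi (G.al a))) :
    ∃ u e, Ad G (G.pi a) (G.pi (G.al a)) a u e ∧ t (G.pi a) = 1 ∧ t (G.pi (G.al a)) = 1 ∧
      G.pi a ∉ fr ∧ G.pi (G.al a) ∉ fr ∧
      ((∃ W ⊆ G.vs, G.pi a ∈ W ∧ G.pi (G.al a) ∈ W ∧ G.pi (G.al u) ∈ W ∧ G.pi (G.al e) ∈ W ∧
        4 ≤ W.card ∧
        ((Odd W.card ∧ G.val one1 t W = 5 ∧
            ((G.vs \ W).card ≠ 1 ∨ W \ {G.pi a, G.pi (G.al a)} ⊆ fr)) ∨
          (Even W.card ∧ G.val one1 t W = 4 ∧ ∃ v ∈ G.vs \ W, t v ≠ 2))) ∨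
      ∃ X, G.Adm fr F X ∧ Even X.card ∧ G.pi (G.al u) ∈ X ∧ G.pi (G.al e) ∈ X ∧
        (G.bd X).card + (X ∩ jm).card = 6) := by
  have ha' := G.al_mem a ha
  have hyf := h.not_fr_of_tok ha haF ty
  have hbf := h.not_fr_of_tok ha' (h.al_notF ha haF) tb
  have hyv := G.pi_mem a ha
  have hbv := G.pi_mem _ ha'
  have h2 : (2 : ℝ) < 6 := by norm_num
  have key : ∀ d ∈ G.ds, d ∉ F → 1 ≤ t (G.pi d) → 1 ≤ t (G.pi (G.al d)) → t (G.pi d) = 1 := by
    intro d hd hdF h1 h3
    obtain ⟨n, hn, hc⟩ := h.tnat (G.pi_mem d hd)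
    have h4 : 0 < (G.st (G.pi d)).card := card_pos.2 ⟨d, mem_st.2 ⟨hd, rfl⟩⟩
    rw [hn] at h1
    have h5 : 1 ≤ n := by exact_mod_cast h1
    have h6 : n = 1 ∨ n = 2 := by omega
    rcases h6 with h6 | h6
    · rw [hn, h6]
      norm_num
    · exfalso
      exact h.adj2 hd hdF (by rw [hn, h6]; norm_num) h3
  have hty := key a ha haF ty tb
  have htb := key _ ha' (h.al_notF ha haF) tb (by rw [G.al_al a ha]; exact ty)
  have hcy := h.st_card (n := 1) hyv (by rw [hty]; norm_num)
  have hcb := h.st_card (n := 1) hbv (by rw [htb]; norm_num)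
  have other : ∀ d ∈ G.ds, (G.st (G.pi d)).card = 2 → ∃ u ∈ G.ds, d ≠ u ∧
      ∀ x, x ∈ G.st (G.pi d) ↔ x = d ∨ x = u := by
    intro d hd hc
    have h3 : d ∈ G.st (G.pi d) := mem_st.2 ⟨hd, rfl⟩
    have h4 := card_erase_add_one h3
    obtain ⟨u, hu⟩ := card_eq_one.1 (by omega : ((G.st (G.pi d)).erase d).card = 1)
    have h5 : u ∈ (G.st (G.pi d)).erase d := by rw [hu]; exact mem_singleton_self u
    obtain ⟨h6, h7⟩ := mem_erase.1 h5
    refine ⟨u, (mem_st.1 h7).1, h6.symm, fun x => ?_⟩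
    constructor
    · intro hx
      by_cases h8 : x = d
      · exact Or.inl h8
      · have h9 : x ∈ (G.st (G.pi d)).erase d := mem_erase.2 ⟨h8, hx⟩
        rw [hu, mem_singleton] at h9
        exact Or.inr h9
    · rintro (rfl | rfl)
      · exact h3
      · exact h7
  obtain ⟨u, hu, hau, hsy⟩ := other a ha (by omega)
  obtain ⟨e, he, hae, hsb⟩ := other _ ha' (by omega)
  have hpu : G.pi u = G.pi a := (mem_st.1 ((hsy u).2 (Or.inr rfl))).2
  have hpe : G.pi e = G.pi (G.al a) := (mem_st.1 ((hsb e).2 (Or.inr rfl))).2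
  have s : Ad G (G.pi a) (G.pi (G.al a)) a u e := by
    refine ⟨ha, hu, he, rfl, hsy, hsb, hau, hae, fun k1 => hau ?_, fun k1 => ?_⟩
    · exact h.simple h2 ha hu hpu.symm k1.symm
    · refine h.no_tri ha he (G.al_mem u hu) hpe k1 ?_
      rw [G.al_al u hu, hpu]
  refine ⟨u, e, s, hty, htb, hyf, hbf, ?_⟩
  by_cases hun : ∀ W ⊆ G.vs, G.pi a ∈ W → G.pi (G.al a) ∈ W → G.pi (G.al u) ∈ W →
      G.pi (G.al e) ∈ W →
      (Odd W.card → ((G.vs \ W).card ≠ 1 ∨ W \ {G.pi a, G.pi (G.al a)} ⊆ fr) →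
        7 ≤ G.val one1 t W) ∧
        (Even W.card → (∃ v ∈ G.vs \ W, t v ≠ 2) → 6 ≤ G.val one1 t W)
  · by_cases h8 : ∀ X, G.Adm fr F X → Even X.card → G.pi (G.al u) ∈ X → G.pi (G.al e) ∈ X →
        8 ≤ (G.bd X).card + (X ∩ jm).card
    · exfalso
      have hE := h.toEK.paid s hyf hbf hun h8
      obtain ⟨M', hM'⟩ := h.solve4 (by
        have h6 := s.gr_card
        omega) hE
      exact h.bad ⟨_, s.up_good h.fresh hyf hbf hM'⟩
    · right
      push Not at h8
      obtain ⟨X, hX, he', h1, h3, h4⟩ := h8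
      refine ⟨X, hX, he', h1, h3, ?_⟩
      have h5 := h.fresh.bd_par hX
      have h6 := h.c6 X hX he' ⟨_, h1⟩
      rw [Nat.even_iff] at he'
      omega
  · left
    push Not at hun
    obtain ⟨W, hW, w1, w2, w3, w4, w6⟩ := hun
    have hc : 4 ≤ W.card := by
      have n2 : ({G.pi a, G.pi (G.al a), G.pi (G.al u), G.pi (G.al e)} : Finset V).card = 4 := by
        rw [card_insert_of_notMem (by simp [s.yb, s.pau.symm, s.pag.symm]),
          card_insert_of_notMem (by simp [s.ub.symm, s.pag'.symm]), card_pair s.ue]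
      rw [← n2]
      refine card_le_card fun v hv => ?_
      simp only [mem_insert, mem_singleton] at hv
      rcases hv with rfl | rfl | rfl | rfl
      · exact w1
      · exact w2
      · exact w3
      · exact w4
    refine ⟨W, hW, w1, w2, w3, w4, hc, ?_⟩
    by_cases ho : Odd W.card
    · left
      by_cases h9 : (G.vs \ W).card ≠ 1 ∨ W \ {G.pi a, G.pi (G.al a)} ⊆ fr
      · refine ⟨ho, ?_, h9⟩
        rcases h.odd_or hW ho (by omega) with h1 | h1
        · exact h1
        · exfalso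
          have h3 := w6 fun _ _ => h1
          rw [← Nat.not_even_iff_odd] at ho
          exact ho h3.1
      · exfalso
        have h3 := w6 fun _ k1 => absurd k1 h9
        rw [← Nat.not_even_iff_odd] at ho
        exact ho h3.1
    · right
      rw [Nat.not_odd_iff_even] at ho
      obtain ⟨-, hv, h10⟩ := w6 fun k1 => absurd ho (Nat.not_even_iff_odd.2 k1)
      refine ⟨ho, ?_, hv⟩
      have hne : W ≠ G.vs := by
        intro e'
        obtain ⟨v, hv', -⟩ := hv
        rw [e', sdiff_self] at hv'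
        exact absurd hv' (notMem_empty _)
      rcases h.evn_or hW ho ⟨_, w1⟩ hne with h1 | h1
      · exact h1
      · exfalso
        linarith [h10, h1]

end X6

end MG

end RH
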