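import Pool.Agent.Lib.RH.CE6SetL
import Pool.Agent.Lib.RH.CE6Step
import Pool.Agent.Lib.RH.CE6Fin
import Pool.Agent.Lib.RH.Odd
import Pool.Agent.Lib.RH.E0
import Pool.Agent.Lib.RH.CE6Even
import Pool.Agent.Lib.RH.CE6Beta

/-! # THE ROWS OF THEOREM CE6

Every row is a statement about a smallest state `X6` (over infinite types). `Rows V D` collects the
rows; `final_of_rows`: the frozen statement S11409 from the rows. -/

set_option autoImplicit false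

namespace RH

open Finset Classical

namespace MG

variable {V D : Type*}

/-- no blocking set for the adjacent tokens `pi a`, `pi (al a)` (row e0b) -/
def NoE0 (G : MG V D) (t : V → ℝ) (fr : Finset V) (a u e : D) : Prop :=
  ∀ W ⊆ G.vs, G.pi a ∈ W → G.pi (G.al a) ∈ W →
    G.pi (G.al u) ∈ W → G.pi (G.al e) ∈ W → 4 ≤ W.card →
    ((Odd W.card ∧ G.val one1 t W = 5 ∧
        ((G.vs \ W).card ≠ 1 ∨ W \ {G.pi a, G.pi (G.al a)} ⊆ fr)) ∨
      (Even W.card ∧ G.val one1 t W = 4 ∧ ∃ v ∈ G.vs \ W, t v ≠ 2)) → False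

/-- no adjacent tokens -/
def NoAdj (G : MG V D) (t : V → ℝ) (F : Finset D) : Prop :=
  ∀ d ∈ G.ds, d ∉ F → t (G.pi d) ≠ 0 → t (G.pi (G.al d)) = 0

/-- a vertex with two tokens has a fresh neighbour -/
def NoBQ (G : MG V D) (t : V → ℝ) (fr : Finset V) : Prop :=
  ∀ d ∈ G.ds, t (G.pi d) = 2 → G.pi (G.al d) ∈ fr

/-- data of a real step: token `y`, `y2 = pi (al u)`, `b`, `b' = pi (al e1)` (killed), `b'' = pi (al e2)` -/
structure RStp (G : MG V D) (t : V → ℝ) (fr : Finset V) (y b : V) (a0 u e1 e2 : D) : Prop where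
  sp : Sp G y b a0 u e1 e2
  hy : y ∉ fr
  hb : b ∉ fr

/-- a step which is used: the killed end has no token, or both ends have one -/
structure RSo (G : MG V D) (t : V → ℝ) (fr : Finset V) (y b : V) (a0 u e1 e2 : D) : Prop
    extends RStp G t fr y b a0 u e1 e2 where
  ok : t (G.pi (G.al e1)) = 0 ∨ t (G.pi (G.al e2)) ≠ 0

/-- `W` blocks the step -/
structure Blk5 (G : MG V D) (t : V → ℝ) (y b : V) (u e1 e2 : D) (W : Finset V) : Prop where
  sub : W ⊆ G.vs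
  my : y ∈ W
  mb : b ∈ W
  my2 : G.pi (G.al u) ∈ W
  mb2 : G.pi (G.al e2) ∈ W
  nb1 : G.pi (G.al e1) ∉ W
  odd : Odd W.card
  big : 5 ≤ W.card
  val : G.val one1 t W = 5

/-- `W` is a maximal blocker -/
structure MBlk (G : MG V D) (t : V → ℝ) (y b : V) (u e1 e2 : D) (W : Finset V) : Prop
    extends Blk5 G t y b u e1 e2 W where
  max : ∀ W', Blk5 G t y b u e1 e2 W' → W ⊆ W' → W' = W

/-- what is known in all rows after (E), (E0) -/
structure Bas (G : MG V D) (t : V → ℝ) (fr : Finset V) (F : Finset D) (jm : Finset V) : Prop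
    extends X6 G t fr F jm where
  noE : NoE G t fr F
  noAdj : NoAdj G t F
  noBQ : NoBQ G t fr

/-- the steps have no blockers -/
def NoBlk (G : MG V D) (t : V → ℝ) (fr : Finset V) : Prop :=
  ∀ y b a0 u e1 e2, RSo G t fr y b a0 u e1 e2 → ∀ W ⊆ G.vs, y ∈ W → b ∈ W →
    G.pi (G.al u) ∈ W → G.pi (G.al e2) ∈ W → G.pi (G.al e1) ∉ W → 4 ≤ W.card →
    ((Odd W.card ∧ G.val one1 t W = 5) ∨ (Even W.card ∧ G.val one1 t W = 4)) → False

/-- the child of the step has a certificate (for some set `fr'` of fresh vertices) -/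
def RStp.CertC {G : MG V D} {t : V → ℝ} {fr : Finset V} {y b : V} {a0 u e1 e2 : D}
    (r : RStp G t fr y b a0 u e1 e2) (F : Finset D) (jm : Finset V) : Prop :=
  ∃ fr' ⊆ fr,
    (∀ d ∈ F, G.pi d ∈ fr' → G.pi (G.al d) ∈ fr') ∧ G.pi (G.al e1) ∉ fr' ∧
    (jm ⊆ fr' ∨ Disjoint jm fr') ∧
    (∀ X, G.Adm fr F X → G.pi (G.al e1) ∉ X → Disjoint X jm → X ⊆ fr') ∧
    ∃ p, r.sp.gr.Pot one1 (r.sp.tk t) (F.filter fun d => G.pi d ∈ fr') ∅ p

/-- a child which is blocked by an even union with six darts has a certificate -/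
def EVC (G : MG V D) (t : V → ℝ) (fr : Finset V) (F : Finset D) (jm : Finset V) : Prop :=
  ∀ y b a0 u e1 e2 (r : RSo G t fr y b a0 u e1 e2), ∀ X, G.Adm fr F X → Even X.card →
    G.pi (G.al u) ∈ X → G.pi (G.al e2) ∈ X → G.pi (G.al e1) ∉ X →
    (G.bd X).card + (X ∩ jm).card = 6 → r.toRStp.CertC F jm

/-- every child of a real step has a certificate -/
def ChC (G : MG V D) (t : V → ℝ) (fr : Finset V) (F : Finset D) (jm : Finset V) : Prop :=
  ∀ y b a0 u e1 e2 (r : RStp G t fr y b a0 u e1 e2), r.CertC F jm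

/-- the rows -/
structure Rows (V D : Type) [Infinite V] [Infinite D] : Prop where
  /-- (E0) adjacent tokens: blocking sets (7, 86) -/
  e0b : ∀ {G : MG V D} {t fr F jm}, X6 G t fr F jm → ∀ {a u e : D},
    Ad G (G.pi a) (G.pi (G.al a)) a u e → t (G.pi a) = 1 → t (G.pi (G.al a)) = 1 →
    G.pi a ∉ fr → G.pi (G.al a) ∉ fr → ∀ W ⊆ G.vs, G.pi a ∈ W → G.pi (G.al a) ∈ W →
    G.pi (G.al u) ∈ W → G.pi (G.al e) ∈ W → 4 ≤ W.card →
    ((Odd W.card ∧ G.val one1 t W = 5 ∧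
        ((G.vs \ W).card ≠ 1 ∨ W \ {G.pi a, G.pi (G.al a)} ⊆ fr)) ∨
      (Even W.card ∧ G.val one1 t W = 4 ∧ ∃ v ∈ G.vs \ W, t v ≠ 2)) → False
  /-- (E0) adjacent tokens: even union with six darts (96, 78) -/
  e0v : ∀ {G : MG V D} {t fr F jm}, X6 G t fr F jm → ∀ {a u e : D},
    Ad G (G.pi a) (G.pi (G.al a)) a u e → t (G.pi a) = 1 → t (G.pi (G.al a)) = 1 →
    G.pi a ∉ fr → G.pi (G.al a) ∉ fr → NoE0 G t fr a u e → ∀ X, G.Adm fr F X → Even X.card →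
    G.pi (G.al u) ∈ X → G.pi (G.al e) ∈ X → (G.bd X).card + (X ∩ jm).card = 6 → False
  /-- (F3) even sets with one token crossed by F-darts (83, EF83) -/
  f3 : ∀ {G : MG V D} {t fr F jm}, X6 G t fr F jm → NoAdj G t F → NoBQ G t fr →
    ∀ Y ⊆ G.vs, Even Y.card → 4 ≤ Y.card → 4 ≤ (G.vs \ Y).card →
      (∃ y ∈ Y, y ∉ fr ∧ 1 ≤ t y) → ∑ v ∈ Y, t v = 1 → G.val one1 t Y = 4 → FCut G F Y → False
  /-- (H6) pure even sets with six vertices are two-coloured (S3, a token on an odd cycle) -/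
  h6 : ∀ {G : MG V D} {t fr F jm}, X6 G t fr F jm → NoAdj G t F → NoBQ G t fr →
    ∀ Y, EvB G t F jm Y → Y.card = 6 → Disjoint Y fr → (G.bd Y).card = 3 →
      ∃ p, G.HPot one1 t F Y p ∧ ∀ v ∈ Y, p v = 1 ∨ p v = -1
  /-- (F0) maximal odd blockers with two or more tokens, crossed by F-darts -/
  f0 : ∀ {G : MG V D} {t fr F jm}, Bas G t fr F jm → ∀ {y b a0 u e1 e2},
    RSo G t fr y b a0 u e1 e2 → ∀ {W}, MBlk G t y b u e1 e2 W → FCut G F W →
    2 ≤ ∑ v ∈ W, t v → False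
  /-- (F1) one token, the outer arc is even, not (F4) (43, 25) -/
  f1 : ∀ {G : MG V D} {t fr F jm}, Bas G t fr F jm → ∀ {y b a0 u e1 e2},
    RSo G t fr y b a0 u e1 e2 → ∀ {W}, MBlk G t y b u e1 e2 W → ∑ v ∈ W, t v = 1 →
    (∀ d ∈ G.bd W, d ∉ F → ¬ (G.pi d ∈ fr ∧ G.pi (G.al d) ∈ fr)) →
    ∀ C, Circ G fr F C → (C ∩ W).Nonempty → (C \ W).Nonempty → Even (C \ W).card → False
  /-- (F2) one token, the outer arc is odd, not (F4) (14, 46, 83) -/
  f2 : ∀ {G : MG V D} {t fr F jm}, Bas G t fr F jm → ∀ {y b a0 u e1 e2},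
    RSo G t fr y b a0 u e1 e2 → ∀ {W}, MBlk G t y b u e1 e2 W → ∑ v ∈ W, t v = 1 →
    (∀ d ∈ G.bd W, d ∉ F → ¬ (G.pi d ∈ fr ∧ G.pi (G.al d) ∈ fr)) →
    ∀ C, Circ G fr F C → (C ∩ W).Nonempty → (C \ W).Nonempty → Odd (C \ W).card → False
  /-- (F4) one token, a J-exit with two fresh ends (35) -/
  f4 : ∀ {G : MG V D} {t fr F jm}, Bas G t fr F jm → ∀ {y b a0 u e1 e2},
    RSo G t fr y b a0 u e1 e2 → ∀ {W}, MBlk G t y b u e1 e2 W → ∑ v ∈ W, t v = 1 →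
    FCut G F W → (∃ d ∈ G.bd W, d ∉ F ∧ G.pi d ∈ fr ∧ G.pi (G.al d) ∈ fr) → False
  /-- (F5) + (IV): maximal even sets inside a maximal blocker which is not crossed (80, 35) -/
  f5 : ∀ {G : MG V D} {t fr F jm}, Bas G t fr F jm → ∀ {y b a0 u e1 e2},
    RSo G t fr y b a0 u e1 e2 → ∀ {W}, MBlk G t y b u e1 e2 W → ∑ v ∈ W, t v = 1 →
    ¬ FCut G F W → ∀ {i j k : D}, G.bd (G.vs \ W) = {G.al e1, i, j, k} →
    [G.al e1, i, j, k].Nodup → ∀ Z ⊆ W, Even Z.card → 4 ≤ Z.card → G.val one1 t Z = 4 →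
    G.pi (G.al i) ∈ Z → G.pi (G.al j) ∈ Z →
    (∀ Z' ⊆ W, Z ⊆ Z' → Even Z'.card → G.val one1 t Z' = 4 → Z' = Z) →
    G.TIn fr F jm (G.vs \ W) i ∨ G.TIn fr F jm (G.vs \ W) j ∨ G.SIn fr F jm (G.vs \ W) (G.al e1)
  /-- (C5), pure blockers with five vertices: a token on an odd cycle outside the circuits -/
  c5 : ∀ {G : MG V D} {t fr F jm}, Bas G t fr F jm → ∀ {y b a0 u e1 e2},
    RSo G t fr y b a0 u e1 e2 → ∀ {W}, MBlk G t y b u e1 e2 W → W.card = 5 →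
    Disjoint fr W → False
  /-- (V) EV6-blockers (25, 20, 13, 36) -/
  v : ∀ {G : MG V D} {t fr F jm}, Bas G t fr F jm → NoBlk G t fr → EVC G t fr F jm
  /-- (L) no star, every child has a certificate (55, 79) -/
  l : ∀ {G : MG V D} {t fr F}, Bas G t fr F ∅ → ChC G t fr F ∅ → False
  /-- (M0) star and a real step (60) -/
  m0 : ∀ {G : MG V D} {t fr F jm}, Bas G t fr F jm → jm.Nonempty → ChC G t fr F jm →
    (∃ y b a0 u e1 e2, RStp G t fr y b a0 u e1 e2) → False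
  /-- (P) star and no real step (60, 47) -/
  p : ∀ {G : MG V D} {t fr F jm}, Bas G t fr F jm → jm.Nonempty →
    (¬ ∃ y b a0 u e1 e2, RStp G t fr y b a0 u e1 e2) → False

variable {G : MG V D} {t : V → ℝ} {fr : Finset V} {F : Finset D} {jm : Finset V}

/-- the tokens are at least 1 -/
theorem EK.one_le (h : EK G 6 t fr F jm) {v : V} (hv : v ∈ G.vs) (ht : t v ≠ 0) : 1 ≤ t v := by
  obtain ⟨n, h1, -⟩ := h.tnat hv
  rw [h1] at ht ⊢
  have h3 : n ≠ 0 := fun h3 => ht (by rw [h3]; norm_num)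
  have h4 : 1 ≤ n := Nat.one_le_iff_ne_zero.2 h3
  exact_mod_cast h4

/-- a vertex with two tokens has a fresh neighbour -/
theorem X6.noBQ (h : X6 G t fr F jm) : NoBQ G t fr := by
  intro d hd ht
  refine h.no_beta hd ht fun e he hp => ?_
  have h1 := h.deg _ (G.pi_mem d hd)
  rw [ht] at h1
  have h2 : ((G.st (G.pi d)).card : ℝ) = ((1 : ℕ) : ℝ) := by
    push_cast
    linarith
  have h3 : (G.st (G.pi d)).card = 1 := by exact_mod_cast h2
  obtain ⟨x, hx⟩ := card_eq_one.1 h3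
  have h4 : d ∈ G.st (G.pi d) := mem_st.2 ⟨hd, rfl⟩
  have h5 : e ∈ G.st (G.pi d) := mem_st.2 ⟨he, hp⟩
  rw [hx, mem_singleton] at h4 h5
  rw [h4, h5]

/-- the step with the two other ends exchanged -/
theorem RStp.swap {y b : V} {a0 u e1 e2 : D} (h : EK G 6 t fr F jm)
    (r : RStp G t fr y b a0 u e1 e2) : RStp G t fr y b a0 u e2 e1 := by
  refine ⟨⟨r.sp.a1, r.sp.u1, r.sp.g1, r.sp.f1, r.sp.pb, r.sp.sy, fun d => ?_, r.sp.au, r.sp.ae2,
    r.sp.ae1, r.sp.ee.symm, r.sp.ub, fun h1 => ?_⟩, r.hy, r.hb⟩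
  · rw [r.sp.sb d]
    tauto
  · exact h.no_tri r.sp.a1 r.sp.f1 (G.al_mem _ r.sp.u1) (by rw [r.sp.pf, r.sp.pb]) h1
      (by rw [G.al_al _ r.sp.u1, r.sp.pu, r.sp.pa])

/-- a child with `y2` at a token end: its certificate is one of the state -/
theorem X6.no_tt {y b : V} {a0 u e1 e2 : D} (h : X6 G t fr F jm) (r : RStp G t fr y b a0 u e1 e2)
    {F' : Finset D} (hF' : F' ⊆ F) {p : V → ℝ} (hp : r.sp.gr.Pot one1 (r.sp.tk t) F' ∅ p)
    (ht : t (G.pi (G.al e2)) ≠ 0) : False := by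
  have hE := h.toEK
  have s := r.sp
  have hds : ∀ {d}, d ∈ r.sp.gr.ds ↔ d ∈ G.ds ∧ G.pi d ≠ y ∧ G.pi d ≠ b ∧ d ≠ G.al e1 := fun {d} =>
    r.sp.gr_ds'
  have tb' : p (G.pi (G.al e1)) = 1 := by
    refine hp.tok _ (r.sp.gr_vs.2 ⟨G.pi_mem _ (G.al_mem _ s.f1), s.paf, s.paf'⟩) ?_
    unfold Sp.tk
    rw [if_pos rfl]
    have := h.t0 _ (G.pi_mem _ (G.al_mem _ s.f1))
    linarith
  have tok : ∀ v ∈ G.vs, v ≠ y → v ≠ b → t v ≠ 0 → p v = 1 := by
    intro v hv v1 v2 v3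
    refine hp.tok v (r.sp.gr_vs.2 ⟨hv, v1, v2⟩) ?_
    unfold Sp.tk
    have := h.t0 v hv
    have h1 : 0 < t v := lt_of_le_of_ne this (Ne.symm v3)
    split_ifs <;> linarith
  have tb2 : p (G.pi (G.al e2)) = 1 := tok _ (G.pi_mem _ (G.al_mem _ s.g1)) s.pag s.pag' ht
  have hG2 : G.al e2 ∉ F' := by
    intro h1
    have h2 := h.fresh.Ffr _ (h.fresh.Fal _ (hF' h1))
    rw [G.al_al _ s.g1, s.pg] at h2
    exact r.hb h2
  have y2 : p (G.pi (G.al u)) = -1 := by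
    have h1 := hp.jq (G.al e2) (hds.2 ⟨G.al_mem _ s.g1, s.pag, s.pag', fun h1 => s.ee (by
      rw [← G.al_al _ s.f1, ← h1, G.al_al _ s.g1])⟩) zero_lt_one hG2 (notMem_empty _)
    rw [r.sp.al_g] at h1
    change p (G.pi (G.al e2)) + p (G.pi (G.al u)) = 0 at h1
    linarith
  have hds0 : ∀ d ∈ G.ds, G.pi d ≠ y → G.pi d ≠ b → G.pi (G.al d) ≠ y → G.pi (G.al d) ≠ b →
      d ∈ r.sp.gr.ds ∧ r.sp.gr.al d = G.al d := by
    intro d hd d1 d2 d3 d4
    refine ⟨hds.2 ⟨hd, d1, d2, fun h1 => d4 (by rw [h1, G.al_al _ s.f1, s.pf])⟩, ?_⟩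
    show G.spal u e2 d = G.al d
    unfold spal
    rw [if_neg (fun h1 => d3 (by rw [h1, G.al_al _ s.u1, s.pu])),
      if_neg (fun h1 => d4 (by rw [h1, G.al_al _ s.g1, s.pg]))]
  obtain ⟨f, hf⟩ : ∃ f : V → ℝ, f = fun v => if v = y then 1 else if v = b then -1 else p v :=
    ⟨_, rfl⟩
  have fy : f y = 1 := by rw [hf]; exact if_pos rfl
  have fb : f b = -1 := by
    rw [hf]
    show (if b = y then (1 : ℝ) else if b = b then -1 else p b) = -1
    rw [if_neg s.yb.symm, if_pos rfl]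
  have fv : ∀ v, v ≠ y → v ≠ b → f v = p v := by
    intro v v1 v2
    rw [hf]
    show (if v = y then (1 : ℝ) else if v = b then -1 else p v) = p v
    rw [if_neg v1, if_neg v2]
  have yv : y ∈ G.vs := s.pa ▸ G.pi_mem _ s.a1
  have bv : b ∈ G.vs := s.pb ▸ G.pi_mem _ (G.al_mem _ s.a1)
  have tb0 : t b = 0 := by
    have h1 : G.st b = {G.al a0, e1, e2} := by
      ext d
      rw [s.sb]
      simp only [mem_insert, mem_singleton]
    have h2 := h.deg b bv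
    rw [h1, card_insert_of_notMem (by simp [s.ae1, s.ae2]), card_pair s.ee] at h2
    push_cast at h2
    linarith
  have key : ∀ d ∈ G.ds, (G.pi d = y ∨ G.pi d = b) → f (G.pi d) + f (G.pi (G.al d)) = 0 := by
    rintro d hd (h1 | h1)
    · rcases s.at_y hd h1 with rfl | rfl
      · rw [h1, s.pb, fy, fb]
        norm_num
      · rw [h1, fy, fv _ s.pau s.ub, y2]
        norm_num
    · rcases s.at_b hd h1 with rfl | rfl | rfl
      · rw [h1, G.al_al _ s.a1, s.pa, fy, fb]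
        norm_num
      · rw [h1, fb, fv _ s.paf s.paf', tb']
        norm_num
      · rw [h1, fb, fv _ s.pag s.pag', tb2]
        norm_num
  have key2 : ∀ d ∈ G.ds, (G.pi (G.al d) = y ∨ G.pi (G.al d) = b) →
      f (G.pi d) + f (G.pi (G.al d)) = 0 := by
    intro d hd h1
    have h2 := key _ (G.al_mem d hd) h1
    rw [G.al_al d hd] at h2
    linarith
  have all0 : ∀ d ∈ G.ds, d ∉ F' → f (G.pi d) + f (G.pi (G.al d)) = 0 := by
    intro d hd hdF
    by_cases d1 : G.pi d = y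
    · exact key d hd (Or.inl d1)
    by_cases d2 : G.pi d = b
    · exact key d hd (Or.inr d2)
    by_cases d3 : G.pi (G.al d) = y
    · exact key2 d hd (Or.inl d3)
    by_cases d4 : G.pi (G.al d) = b
    · exact key2 d hd (Or.inr d4)
    obtain ⟨h1, h2⟩ := hds0 d hd d1 d2 d3 d4
    have h3 := hp.jq d h1 zero_lt_one hdF (notMem_empty _)
    rw [h2] at h3
    rw [fv _ d1 d2, fv _ d3 d4]
    exact h3
  refine h.nc ⟨f, ?_, fun d hd _ hdF _ => all0 d hd fun h1 => hdF (hF' h1), ?_,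
    fun d hd => absurd hd (notMem_empty d), h.fresh.Fsub, empty_subset _⟩
  · intro v hv htv
    by_cases v1 : v = y
    · rw [v1, fy]
    · by_cases v2 : v = b
      · rw [v2, tb0] at htv
        exact absurd rfl htv
      · rw [fv _ v1 v2]
        exact tok v hv v1 v2 htv
  · intro d hd
    by_cases hdF : d ∈ F'
    · have e1' := h.fresh.Ffr _ hd
      have e2' := h.fresh.Ffr _ (h.fresh.Fal _ hd)
      have d1 : G.pi d ≠ y := fun h1 => r.hy (h1 ▸ e1')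
      have d2 : G.pi d ≠ b := fun h1 => r.hb (h1 ▸ e1')
      have d3 : G.pi (G.al d) ≠ y := fun h1 => r.hy (h1 ▸ e2')
      have d4 : G.pi (G.al d) ≠ b := fun h1 => r.hb (h1 ▸ e2')
      have h3 := hp.kk d hdF
      rw [(hds0 d (h.fresh.Fsub hd) d1 d2 d3 d4).2] at h3
      rw [fv _ d1 d2, fv _ d3 d4]
      exact h3
    · exact le_of_eq (all0 d (h.fresh.Fsub hd) hdF)

/-- a child is smaller: unblocked steps give certificates -/
theorem X6.chc0 (h : X6 G t fr F jm) {y b : V} {a0 u e1 e2 : D}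
    (r : RStp G t fr y b a0 u e1 e2)
    (hb : ∀ W ⊆ G.vs, y ∈ W → b ∈ W →
      G.pi (G.al u) ∈ W → G.pi (G.al e2) ∈ W → G.pi (G.al e1) ∉ W → 4 ≤ W.card →
      ((Odd W.card ∧ G.val one1 t W = 5) ∨ (Even W.card ∧ G.val one1 t W = 4)) → False)
    (hv : ∀ X, G.Adm fr F X → Even X.card → G.pi (G.al u) ∈ X → G.pi (G.al e2) ∈ X →
      G.pi (G.al e1) ∉ X → (G.bd X).card + (X ∩ jm).card = 6 → r.CertC F jm) : r.CertC F jm := by
  rcases h.toEK.step_or r.sp r.hy r.hb with ⟨fr', c1, c2, c3, c4, c5, c6, c7⟩ |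
    ⟨W, w1, w2, w3, w4, w5, w6, w7, w8⟩ | ⟨X, x1, x2, x3, x4, x5, x6⟩
  · refine ⟨fr', c1, c2, c3, c4, c5, ?_⟩
    have hcard : r.sp.gr.vs.card < G.vs.card := by
      refine card_lt_card ⟨filter_subset _ _, fun h1 => ?_⟩
      have h2 : y ∈ G.vs := r.sp.pa ▸ G.pi_mem a0 r.sp.a1
      exact (mem_filter.1 (h1 h2)).2.1 rfl
    rcases h.solve' (card_le_card c1) hcard c6 with ⟨M, hM⟩ | hp
    · exact absurd ⟨_, c7 M hM⟩ h.bad
    · exact hp
  · exact (hb W w1 w2 w3 w4 w5 w6 w7 w8).elim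
  · exact hv X x1 x2 x3 x4 x5 x6

/-- **every child has a certificate** -/
theorem X6.chc (h : X6 G t fr F jm) (hb : NoBlk G t fr) (hv : EVC G t fr F jm) :
    ChC G t fr F jm ∧ ∀ {y b a0 u e1 e2}, RStp G t fr y b a0 u e1 e2 →
      RSo G t fr y b a0 u e1 e2 := by
  have ok : ∀ {y b a0 u e1 e2}, RStp G t fr y b a0 u e1 e2 → RSo G t fr y b a0 u e1 e2 := by
    intro y b a0 u e1 e2 r
    refine ⟨r, ?_⟩
    by_contra hcon
    rw [not_or, not_not] at hcon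
    have r' : RSo G t fr y b a0 u e2 e1 := ⟨r.swap h.toEK, Or.inl hcon.2⟩
    obtain ⟨fr', -, -, -, -, -, p, hp⟩ := h.chc0 r'.toRStp (hb _ _ _ _ _ _ r')
      (hv _ _ _ _ _ _ r')
    exact h.no_tt r'.toRStp (filter_subset _ _) hp hcon.1
  exact ⟨fun y b a0 u e1 e2 r => h.chc0 r (hb _ _ _ _ _ _ (ok r)) (hv _ _ _ _ _ _ (ok r)), ok⟩

variable {V D : Type} [Infinite V] [Infinite D] {G : MG V D} {t : V → ℝ} {fr : Finset V}
variable {F : Finset D} {jm : Finset V}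

namespace Rows

variable (R : Rows V D)
include R

theorem noAdj (h : X6 G t fr F jm) : NoAdj G t F := by
  intro a ha haF hty
  by_contra htb
  have ty := h.toEK.one_le (G.pi_mem a ha) hty
  have tb := h.toEK.one_le (G.pi_mem _ (G.al_mem a ha)) htb
  obtain ⟨u, e, h1, h2, h3, h4, h5, h6⟩ := h.adj ha haF ty tb
  rcases h6 with ⟨W, w1, w2, w3, w4, w5, w6, w7⟩ | ⟨X, x1, x2, x3, x4, x5⟩
  · exact R.e0b h h1 h2 h3 h4 h5 W w1 w2 w3 w4 w5 w6 w7
  · exact R.e0v h h1 h2 h3 h4 h5 (R.e0b h h1 h2 h3 h4 h5) X x1 x2 x3 x4 x5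

theorem bas (h : X6 G t fr F jm)
    (he1 : ∀ {G : MG V D} {t fr F jm}, X6 G t fr F jm → NoAdj G t F → NoBQ G t fr →
      ∀ Y ⊆ G.vs, Even Y.card → 4 ≤ Y.card → 4 ≤ (G.vs \ Y).card →
      (∃ y ∈ Y, y ∉ fr ∧ 1 ≤ t y) → G.val one1 t Y = 4 → ¬ FCut G F Y → False) :
    Bas G t fr F jm := by
  have h1 := R.noAdj h
  have h2 := h.noBQ
  refine ⟨h, ?_, h1, h2⟩
  intro Y y1 y2 y3 y4 y5 y7 y6
  by_cases hc : FCut G F Y
  · exact R.f3 h h1 h2 Y y1 y2 y3 y4 y5 (y7 hc) y6 hc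
  · exact he1 h h1 h2 Y y1 y2 y3 y4 y5 y6 hc

/-- **no smallest bad state** -/
theorem noX6 (hB : ∀ {G : MG V D} {t fr F jm}, Bas G t fr F jm → NoBlk G t fr)
    (h : X6 G t fr F jm) (hb : Bas G t fr F jm) : False := by
  have h1 := hB hb
  have h2 := (h.chc h1 (R.v hb h1)).1
  by_cases hj : jm.Nonempty
  · by_cases hs : ∃ y b a0 u e1 e2, RStp G t fr y b a0 u e1 e2
    · exact R.m0 hb hj h2 hs
    · exact R.p hb hj hs
  · rw [not_nonempty_iff_eq_empty] at hj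
    subst hj
    exact R.l hb h2

end Rows

end MG

end RH
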