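import Pool.Agent.Lib.RH.CE6Gam

/-! `Lam` in a smallest state of the class CE6 (helper30): the exits `p`, `q` at `w1`, `r` (the killed
unit) at `w2`, `u` and the token at `w3`. -/

set_option autoImplicit false

namespace RH

open Finset Classical

namespace MG

variable {V D : Type*} {G : MG V D} {g : GD V D} {t tk : V → ℝ}
variable {fr fr1 : Finset V} {F : Finset D} {jm A X Y : Finset V}
variable {w1 w2 w3 : V} {x y s k' : ℝ}

/-- number of used exits among two -/
theorem used_pair {P : Finset D} {q : D → Prop} {M : Finset D} {a b : D} (hab : a ≠ b)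
    (h : P.filter (fun d => q d) = {a, b}) :
    (P.filter fun d => q d ∧ d ∈ M).card = (if a ∈ M then 1 else 0) + if b ∈ M then 1 else 0 := by
  rw [← filter_filter, h, card_filter, sum_insert (by rw [mem_singleton]; exact hab), sum_singleton]

theorem used_one {P : Finset D} {q : D → Prop} {M : Finset D} {a : D}
    (h : P.filter (fun d => q d) = {a}) :
    (P.filter fun d => q d ∧ d ∈ M).card = if a ∈ M then 1 else 0 := by
  rw [← filter_filter, h, card_filter, sum_singleton]

/-- one used exit out of four -/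
theorem sg4 {A : Finset V} {M : Finset D} {p q r u d : D} (hbd : G.bd A = {p, q, r, u})
    (hd : d ∈ G.bd A) (h : ∀ e, e = p ∨ e = q ∨ e = r ∨ e = u → (e ∈ M ↔ e = d)) :
    G.Sg A (G.resM A M) d := by
  refine ⟨hd, fun e he => ?_⟩
  rw [resM_port he]
  refine h e ?_
  rw [hbd] at he
  simpa only [mem_insert, mem_singleton] using he

theorem tr4 {A : Finset V} {M : Finset D} {p q r u d : D} (hbd : G.bd A = {p, q, r, u})
    (hd : d ∈ G.bd A) (h : ∀ e, e = p ∨ e = q ∨ e = r ∨ e = u → (e ∈ M ↔ e ≠ d)) :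
    G.Tr A (G.resM A M) d := by
  refine ⟨hd, fun e he => ?_⟩
  rw [resM_port he]
  refine h e ?_
  rw [hbd] at he
  simpa only [mem_insert, mem_singleton] using he

/-- **LAM**: a single which is not `r`, or one of the triples without `p`, `q`, or half of a
certificate with the value 1 at `r` and -1 at the others -/
theorem X6.lam [Infinite V] [Infinite D] (h : X6 G t fr F jm) (b : Blk G t fr F jm A)
    {p q r u : D} (hbd : G.bd A = {p, q, r, u}) (hnd : [p, q, r, u].Nodup)
    (hpq : G.pi p ≠ G.pi q) (hpr : G.pi p ≠ G.pi r) (hqr : G.pi q ≠ G.pi r)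
    (hru : G.pi r ≠ G.pi u)
    (epq : ∀ X ⊆ A, Even X.card → G.pi p ∈ X → G.pi q ∈ X → G.val one1 t X ≠ 4)
    (o5 : ∀ X ⊆ A, Odd X.card → G.pi p ∈ X → G.pi q ∈ X → G.pi r ∈ X → G.val one1 t X ≠ 5) :
    (∃ M, G.GHalf one1 fr F jm A M ∧ ((∃ d, d ≠ r ∧ G.Sg A M d) ∨ G.Tr A M p ∨ G.Tr A M q)) ∨
      ∃ f, G.HPot one1 t F A f ∧ f (G.pi r) = 1 ∧ f (G.pi p) = -1 ∧ f (G.pi q) = -1 ∧
        f (G.pi u) = -1 := by
  obtain ⟨wv, hwi, hwn⟩ := exists_new G.vs 3
  obtain ⟨wd, hdi, hdn⟩ := exists_new G.ds 4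
  have nv : ∀ i j : Fin 3, i ≠ j → wv i ≠ wv j := fun i j hij he => hij (hwi he)
  have nd : ∀ i j : Fin 4, i ≠ j → wd i ≠ wd j := fun i j hij he => hij (hdi he)
  have hn : p ≠ q ∧ p ≠ r ∧ p ≠ u ∧ q ≠ r ∧ q ≠ u ∧ r ≠ u := by
    simp only [List.nodup_cons, List.mem_cons, List.not_mem_nil, or_false, not_or, not_false_iff,
      List.nodup_nil, and_true] at hnd
    obtain ⟨⟨h1, h2, h3⟩, ⟨h4, h5⟩, h6⟩ := hnd
    exact ⟨h1, h2, h3, h4, h5, h6⟩
  obtain ⟨n1, n2, n3, n4, n5, n6⟩ := hn
  have k : PthOk G A (G.bd A) (ga3 p q r (wv 0) (wv 1) (wv 2)) (wv 0) (wv 1) (wv 2)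
      (wd 0) (wd 1) (wd 2) (wd 3) := by
    refine ⟨b.hA, nv _ _ (by decide), nv _ _ (by decide), nv _ _ (by decide),
      fun h1 => hwn 0 (b.hA h1), fun h1 => hwn 1 (b.hA h1), fun h1 => hwn 2 (b.hA h1), Subset.rfl,
      fun d _ => ?_, nd _ _ (by decide), nd _ _ (by decide), nd _ _ (by decide),
      nd _ _ (by decide), nd _ _ (by decide), nd _ _ (by decide), ?_⟩
    · unfold ga3
      split_ifs
      · exact Or.inl rfl
      · exact Or.inr (Or.inl rfl)
      · exact Or.inr (Or.inr rfl)
    · rintro d (rfl | rfl | rfl | rfl) hd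
      · exact absurd hd (hdn 0)
      · exact absurd hd (hdn 1)
      · exact absurd hd (hdn 2)
      · exact absurd hd (hdn 3)
  obtain ⟨hE, hH⟩ := h.toEK.lam b hbd hnd k hpq hpr hqr hru epq o5
  have hK : (pthG A (G.bd A) (ga3 p q r (wv 0) (wv 1) (wv 2)) (wv 0) (wv 1) (wv 2)
      (wd 0) (wd 1) (wd 2) (wd 3)).K.card = 3 := by
    change ({wv 0, wv 1, wv 2} : Finset V).card = 3
    rw [card_insert_of_notMem, card_insert_of_notMem, card_singleton]
    · rw [mem_singleton]
      exact k.n23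
    · rw [mem_insert, mem_singleton, not_or]
      exact ⟨k.n12, k.n13⟩
  have f1 := ga3_1 hbd n2 n4 k.n12 k.n13
  have f2 := ga3_2 hbd n2 n4 k.n12 k.n23
  have f3 := ga3_3 hbd n3 n5 n6 k.n13 k.n23
  have mp : p ∈ G.bd A := by rw [hbd]; simp
  have mq : q ∈ G.bd A := by rw [hbd]; simp
  have mr : r ∈ G.bd A := by rw [hbd]; simp
  have mu : u ∈ G.bd A := by rw [hbd]; simp
  rcases b.k3_sol h k.ok rfl hK hE hH with ⟨M, hM, hG⟩ | ⟨f, hf⟩
  · left
    refine ⟨_, hG, ?_⟩
    obtain ⟨c1, c2, g1, g2, g3⟩ := k.pat hM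
    rw [used_pair n1 f1] at g1
    rw [used_one f2] at g2
    rw [used_one f3] at g3
    by_cases ip : p ∈ M
    · have iq : q ∉ M := by
        intro iq
        rw [if_pos ip, if_pos iq] at g1
        omega
      rw [if_pos ip, if_neg iq] at g1
      by_cases ir : r ∈ M
      · rw [if_pos ir] at g2
        have iu : u ∈ M := by
          by_contra iu
          rw [if_neg iu] at g3
          omega
        right
        right
        refine tr4 hbd mq ?_
        rintro e (rfl | rfl | rfl | rfl)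
        · exact ⟨fun _ => n1, fun _ => ip⟩
        · exact ⟨fun h1 => absurd h1 iq, fun h1 => absurd rfl h1⟩
        · exact ⟨fun _ => n4.symm, fun _ => ir⟩
        · exact ⟨fun _ => n5.symm, fun _ => iu⟩
      · rw [if_neg ir] at g2
        have iu : u ∉ M := by
          intro iu
          rw [if_pos iu] at g3
          omega
        left
        refine ⟨p, n2, sg4 hbd mp ?_⟩
        rintro e (rfl | rfl | rfl | rfl)
        · exact ⟨fun _ => rfl, fun _ => ip⟩
        · exact ⟨fun h1 => absurd h1 iq, fun h1 => absurd h1.symm n1⟩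
        · exact ⟨fun h1 => absurd h1 ir, fun h1 => absurd h1.symm n2⟩
        · exact ⟨fun h1 => absurd h1 iu, fun h1 => absurd h1.symm n3⟩
    · rw [if_neg ip] at g1
      by_cases iq : q ∈ M
      · rw [if_pos iq] at g1
        by_cases ir : r ∈ M
        · rw [if_pos ir] at g2
          have iu : u ∈ M := by
            by_contra iu
            rw [if_neg iu] at g3
            omega
          right
          left
          refine tr4 hbd mp ?_
          rintro e (rfl | rfl | rfl | rfl)
          · exact ⟨fun h1 => absurd h1 ip, fun h1 => absurd rfl h1⟩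
          · exact ⟨fun _ => n1.symm, fun _ => iq⟩
          · exact ⟨fun _ => n2.symm, fun _ => ir⟩
          · exact ⟨fun _ => n3.symm, fun _ => iu⟩
        · rw [if_neg ir] at g2
          have iu : u ∉ M := by
            intro iu
            rw [if_pos iu] at g3
            omega
          left
          refine ⟨q, n4, sg4 hbd mq ?_⟩
          rintro e (rfl | rfl | rfl | rfl)
          · exact ⟨fun h1 => absurd h1 ip, fun h1 => absurd h1 n1⟩
          · exact ⟨fun _ => rfl, fun _ => iq⟩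
          · exact ⟨fun h1 => absurd h1 ir, fun h1 => absurd h1.symm n4⟩
          · exact ⟨fun h1 => absurd h1 iu, fun h1 => absurd h1.symm n5⟩
      · rw [if_neg iq] at g1
        have ir : r ∉ M := by
          intro ir
          rw [if_pos ir] at g2
          omega
        rw [if_neg ir] at g2
        have iu : u ∈ M := by
          by_contra iu
          rw [if_neg iu] at g3
          omega
        left
        refine ⟨u, n6.symm, sg4 hbd mu ?_⟩
        rintro e (rfl | rfl | rfl | rfl)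
        · exact ⟨fun h1 => absurd h1 ip, fun h1 => absurd h1 n3⟩
        · exact ⟨fun h1 => absurd h1 iq, fun h1 => absurd h1 n5⟩
        · exact ⟨fun h1 => absurd h1 ir, fun h1 => absurd h1 n6⟩
        · exact ⟨fun _ => rfl, fun _ => iu⟩
  · right
    have hz : ∀ d : D, (0 : ℝ) < one1 d := fun _ => zero_lt_one
    obtain ⟨j1, j2, j3, j4, k1, k2, k3, k4⟩ := k.tab
    have nE : ∀ d, d ∈ (pthG A (G.bd A) (ga3 p q r (wv 0) (wv 1) (wv 2)) (wv 0)
        (wv 1) (wv 2) (wd 0) (wd 1) (wd 2) (wd 3)).E → d ∉ F.filter fun d => G.pi d ∈ fr ∩ A := by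
      intro d hd hF
      have h3 := h.fresh.Fsub (mem_filter.1 hF).1
      rcases k.memE.1 hd with rfl | rfl | rfl | rfl
      · exact hdn 0 h3
      · exact hdn 1 h3
      · exact hdn 2 h3
      · exact hdn 3 h3
    have m1 := k.memE.2 (Or.inl (rfl : wd 0 = wd 0))
    have m3 := k.memE.2 (Or.inr (Or.inr (Or.inr (rfl : wd 3 = wd 3))))
    have a2 := gad_inn k.ok h.wt hf m1 (nE _ m1) (hz _)
    have a3 := gad_inn k.ok h.wt hf m3 (nE _ m3) (hz _)
    rw [j1, k1, k2] at a2
    rw [j4, k3, k4] at a3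
    have a4 : f (wv 2) = 1 := by
      refine gad_tok k.ok h.wt hf (v := wv 2) ?_ ?_
      · change wv 2 ∈ ({wv 0, wv 1, wv 2} : Finset V)
        simp
      · unfold triT
        rw [if_neg k.n13.symm, if_neg k.n23.symm]
        norm_num
    have a5 : f (wv 1) = -1 := by linarith
    have a6 : f (wv 0) = 1 := by linarith
    have port : ∀ d ∈ G.bd A, f (G.pi d) = - f (ga3 p q r (wv 0) (wv 1) (wv 2) d) :=
      fun d hd => gad_port k.ok h.wt hf (d := d) hd (b.nF' hd) (hz d)
    have g0 : ga3 p q r (wv 0) (wv 1) (wv 2) p = wv 0 := by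
      unfold ga3
      rw [if_pos (Or.inl rfl)]
    have g1 : ga3 p q r (wv 0) (wv 1) (wv 2) q = wv 0 := by
      unfold ga3
      rw [if_pos (Or.inr rfl)]
    have g2 : ga3 p q r (wv 0) (wv 1) (wv 2) r = wv 1 := by
      unfold ga3
      rw [if_neg fun h1 => h1.elim (fun h1 => n2 h1.symm) fun h1 => n4 h1.symm, if_pos rfl]
    have g3 : ga3 p q r (wv 0) (wv 1) (wv 2) u = wv 2 := by
      unfold ga3
      rw [if_neg fun h1 => h1.elim (fun h1 => n3 h1.symm) fun h1 => n5 h1.symm,
        if_neg fun h1 => n6 h1.symm]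
    refine ⟨f, b.hpot h k.ok rfl hf, ?_, ?_, ?_, ?_⟩
    · rw [port r mr, g2, a5]
      norm_num
    · rw [port p mp, g0, a6]
    · rw [port q mq, g1, a6]
    · rw [port u mu, g3, a4]

end MG

end RH
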