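import Pool.Agent.Lib.RH.CE6W

/-! Replacing two used exits by the inner edge which joins their ends (CE6 S1, 1.6 (iii)): a triple
inside gives a single inside. -/

set_option autoImplicit false

namespace RH

open Finset Classical

namespace MG

variable {V D : Type*} {G : MG V D} {z : D → ℝ} {t : V → ℝ}
variable {fr : Finset V} {F M M1 M2 T : Finset D} {jm A W X Y S : Finset V} {e d : D}

/-- uniqueness of the matching dart -/
theorem HM.uniq (h : G.HM W M) {x y : D} (hx : x ∈ M) (hy : y ∈ M) (hxy : G.pi x = G.pi y) :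
    x = y := by
  obtain ⟨n, hn⟩ := card_eq_one.1 (h.one _ (h.sub x hx).2)
  have h1 : x ∈ M.filter fun d => G.pi d = G.pi x := mem_filter.2 ⟨hx, rfl⟩
  have h2 : y ∈ M.filter fun d => G.pi d = G.pi x := mem_filter.2 ⟨hy, hxy.symm⟩
  rw [hn, mem_singleton] at h1 h2
  rw [h1, h2]

/-- **SWAP**: two used exits whose ends are joined by an edge outside the circuits -/
theorem GHalf.swap {y : D → ℝ} (h : G.GHalf y fr F jm W M) {a b g : D}
    (ha : a ∈ G.bd W) (hb : b ∈ G.bd W) (haM : a ∈ M) (hbM : b ∈ M) (hg : g ∈ G.ds)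
    (hga : G.pi g = G.pi a) (hgb : G.pi (G.al g) = G.pi b) (hy : 0 < y g) (hy' : 0 < y (G.al g))
    (na : G.pi a ∉ fr) (nb : G.pi b ∉ fr) :
    ∃ M', G.GHalf y fr F jm W M' ∧ ∀ d ∈ G.bd W, d ∈ M' ↔ d ∈ M ∧ d ≠ a ∧ d ≠ b := by
  have hne : G.pi a ≠ G.pi b := by
    rw [← hga, ← hgb]
    exact fun h1 => G.noloop g hg h1.symm
  have haW := (mem_bd.1 ha).2.1
  have hbW := (mem_bd.1 hb).2.1
  have hgg := G.al_mem g hg
  have hg1 : g ∉ G.bd W := fun h1 => (mem_bd.1 h1).2.2 (by rw [hgb]; exact hbW)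
  have hg2 : G.al g ∉ G.bd W := fun h1 => (mem_bd.1 h1).2.2 (by
    rw [G.al_al g hg, hga]; exact haW)
  obtain ⟨M', hM'⟩ : ∃ M', M' = (M \ {a, b}) ∪ {g, G.al g} := ⟨_, rfl⟩
  have mem : ∀ d, d ∈ M' ↔ (d ∈ M ∧ d ≠ a ∧ d ≠ b) ∨ d = g ∨ d = G.al g := by
    intro d
    rw [hM', mem_union, mem_sdiff]
    simp only [mem_insert, mem_singleton, not_or]
  have hbd : ∀ d ∈ G.bd W, d ∈ M' ↔ d ∈ M ∧ d ≠ a ∧ d ≠ b := by
    intro d hd
    rw [mem]
    constructor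
    · rintro (h1 | rfl | rfl)
      · exact h1
      · exact absurd hd hg1
      · exact absurd hd hg2
    · exact fun h1 => Or.inl h1
  refine ⟨M', ⟨⟨?_, ?_, ?_⟩, ?_, ?_⟩, hbd⟩
  · intro d hd
    rcases (mem d).1 hd with h1 | rfl | rfl
    · exact h.hm.sub d h1.1
    · exact ⟨hg, by rw [hga]; exact haW⟩
    · exact ⟨hgg, by rw [hgb]; exact hbW⟩
  · intro d hd hdW
    rcases (mem d).1 hd with h1 | rfl | rfl
    · refine (mem _).2 (Or.inl ⟨h.hm.clo d h1.1 hdW, fun h2 => ?_, fun h2 => ?_⟩)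
      · have h3 := (mem_bd.1 ha).2.2
        rw [← h2, G.al_al d (h.hm.sub d h1.1).1] at h3
        exact h3 (h.hm.sub d h1.1).2
      · have h3 := (mem_bd.1 hb).2.2
        rw [← h2, G.al_al d (h.hm.sub d h1.1).1] at h3
        exact h3 (h.hm.sub d h1.1).2
    · exact (mem _).2 (Or.inr (Or.inr rfl))
    · rw [G.al_al g hg]
      exact (mem _).2 (Or.inr (Or.inl rfl))
  · intro v hv
    by_cases hva : v = G.pi a
    · rw [card_eq_one]
      refine ⟨g, ?_⟩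
      ext d
      rw [mem_filter, mem_singleton, mem]
      constructor
      · rintro ⟨h1 | h1 | h1, h2⟩
        · exact absurd (h.hm.uniq h1.1 haM (h2.trans hva)) h1.2.1
        · exact h1
        · rw [h1, hgb, hva] at h2
          exact absurd h2.symm hne
      · rintro rfl
        exact ⟨Or.inr (Or.inl rfl), hga.trans hva.symm⟩
    · by_cases hvb : v = G.pi b
      · rw [card_eq_one]
        refine ⟨G.al g, ?_⟩
        ext d
        rw [mem_filter, mem_singleton, mem]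
        constructor
        · rintro ⟨h1 | h1 | h1, h2⟩
          · exact absurd (h.hm.uniq h1.1 hbM (h2.trans hvb)) h1.2.2
          · rw [h1, hga, hvb] at h2
            exact absurd h2 hne
          · exact h1
        · rintro rfl
          exact ⟨Or.inr (Or.inr rfl), hgb.trans hvb.symm⟩
      · rw [← h.hm.one v hv]
        congr 1
        ext d
        rw [mem_filter, mem_filter, mem]
        constructor
        · rintro ⟨h1 | rfl | rfl, h2⟩
          · exact ⟨h1.1, h2⟩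
          · exact absurd (h2.symm.trans hga) hva
          · exact absurd (h2.symm.trans hgb) hvb
        · rintro ⟨h1, h2⟩
          exact ⟨Or.inl ⟨h1, fun h3 => hva (by rw [← h2, h3]), fun h3 => hvb (by
            rw [← h2, h3])⟩, h2⟩
  · intro d hd
    rcases (mem d).1 hd with h1 | rfl | rfl
    · exact h.pos d h1.1
    · exact hy
    · exact hy'
  · intro X hX hXW hcl
    refine h.ok X hX hXW fun d hd => ?_
    have hdX := hX.sub (mem_bd.1 hd).2.1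
    rcases (mem d).1 (hcl d hd) with h1 | h1 | h1
    · exact h1.1
    · rw [h1, hga] at hdX
      exact absurd hdX na
    · rw [h1, hgb] at hdX
      exact absurd hdX nb

/-- **(iii)**: the ends of two exits are joined by an edge outside the circuits -/
theorem TIn.swap (hA : A ⊆ G.vs) {i j k g : D}
    (hbd : G.bd A = {e, i, j, k}) (hnd : [e, i, j, k].Nodup) (hg : g ∈ G.ds)
    (hgi : G.pi g = G.pi (G.al i)) (hgj : G.pi (G.al g) = G.pi (G.al j))
    (ni : G.pi (G.al i) ∉ fr) (nj : G.pi (G.al j) ∉ fr) (hk : G.TIn fr F jm A k) :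
    G.SIn fr F jm A e := by
  have hn : e ≠ i ∧ e ≠ j ∧ e ≠ k ∧ i ≠ j ∧ i ≠ k ∧ j ≠ k := by
    simp only [List.nodup_cons, List.mem_cons, List.not_mem_nil, or_false, not_or, not_false_iff,
      List.nodup_nil, and_true] at hnd
    obtain ⟨⟨h1, h2, h3⟩, ⟨h4, h5⟩, h6⟩ := hnd
    exact ⟨h1, h2, h3, h4, h5, h6⟩
  obtain ⟨n1, n2, n3, n4, n5, n6⟩ := hn
  have me : e ∈ G.bd A := by rw [hbd]; simp
  have mi : i ∈ G.bd A := by rw [hbd]; simp
  have mj : j ∈ G.bd A := by rw [hbd]; simp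
  have mk : k ∈ G.bd A := by rw [hbd]; simp
  have ds := fun {x : D} (hx : x ∈ G.bd A) => (mem_bd.1 hx).1
  obtain ⟨M, m1, m2⟩ := hk
  have ne : ∀ {x y : D}, x ∈ G.bd A → y ∈ G.bd A → x ≠ y → G.al x ≠ G.al y :=
    fun hx hy hxy h1 => hxy ((al_eq (ds hx) (ds hy)).1 h1)
  obtain ⟨M', h1, h2⟩ := m1.swap (bd_al hA mi) (bd_al hA mj)
    ((m2.2 _ (bd_al hA mi)).2 (ne mi mk n5)) ((m2.2 _ (bd_al hA mj)).2 (ne mj mk n6)) hg hgi hgj
    (zero_lt_one' ℝ) (zero_lt_one' ℝ) ni nj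
  refine ⟨M', h1, bd_al hA me, fun x hx => ?_⟩
  rw [h2 x hx, m2.2 x hx]
  have hx' := bd_al' hA hx
  have hxd := (mem_bd.1 hx).1
  have hxx : x = G.al (G.al x) := (G.al_al x hxd).symm
  rw [hbd] at hx'
  simp only [mem_insert, mem_singleton] at hx'
  constructor
  · rintro ⟨h3, h4, h5⟩
    rcases hx' with h6 | h6 | h6 | h6
    · rw [hxx, h6]
    · exact absurd (hxx.trans (by rw [h6])) h4
    · exact absurd (hxx.trans (by rw [h6])) h5
    · exact absurd (hxx.trans (by rw [h6])) h3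
  · rintro rfl
    exact ⟨ne me mk n3, ne me mi n1, ne me mj n2⟩

/-! ## Two halves inside `W` (CE6 S1, 1.6 (iv)) -/

/-- an admissible union restricted to a side which no F-dart crosses -/
theorem Adm.restr {W1 : Finset V} (hX : G.Adm fr F X)
    (h1 : ∀ d ∈ F, G.pi d ∈ W1 → G.pi (G.al d) ∈ W1) : G.Adm fr F (X ∩ W1) :=
  hX.interW h1

/-- **UNION OF TWO HALVES** on disjoint sides, the star is not inside -/
theorem GHalf.union {y : D → ℝ} {W1 W2 : Finset V}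
    (h1 : G.GHalf y fr F jm W1 M1) (h2 : G.GHalf y fr F jm W2 M2) (hdj : Disjoint W1 W2)
    (f1 : ∀ d ∈ F, G.pi d ∈ W1 → G.pi (G.al d) ∈ W1)
    (f2 : ∀ d ∈ F, G.pi d ∈ W2 → G.pi (G.al d) ∈ W2)
    (fit : ∀ d ∈ G.ds, G.pi d ∈ W1 → G.pi (G.al d) ∈ W2 → (d ∈ M1 ↔ G.al d ∈ M2))
    (hj : jm.Nonempty → ¬ jm ⊆ W1 ∪ W2)
    (hl : ∀ X, G.Adm fr F X → X ⊆ W1 ∪ W2 → (∀ d ∈ G.bd X, d ∈ M1 ∪ M2) →
      ∀ d ∈ G.ds, d ∉ M1 → G.pi d ∈ X → G.pi d ∈ W1 → G.pi (G.al d) ∈ X →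
        G.pi (G.al d) ∈ W2 → False) :
    G.GHalf y fr F jm (W1 ∪ W2) (M1 ∪ M2) := by
  have hn1 : ∀ {d}, G.pi d ∈ W1 → d ∈ M1 ∪ M2 → d ∈ M1 := by
    intro d hd hm
    rcases mem_union.1 hm with h3 | h3
    · exact h3
    · exact absurd (h2.hm.sub d h3).2 fun h4 => disjoint_left.1 hdj hd h4
  have hn2 : ∀ {d}, G.pi d ∈ W2 → d ∈ M1 ∪ M2 → d ∈ M2 := by
    intro d hd hm
    rcases mem_union.1 hm with h3 | h3
    · exact absurd (h1.hm.sub d h3).2 fun h4 => disjoint_left.1 hdj h4 hd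
    · exact h3
  refine ⟨⟨?_, ?_, ?_⟩, ?_, ?_⟩
  · intro d hd
    rcases mem_union.1 hd with h3 | h3
    · exact ⟨(h1.hm.sub d h3).1, mem_union_left _ (h1.hm.sub d h3).2⟩
    · exact ⟨(h2.hm.sub d h3).1, mem_union_right _ (h2.hm.sub d h3).2⟩
  · intro d hd hdW
    rcases mem_union.1 hd with h3 | h3
    · obtain ⟨h4, h5⟩ := h1.hm.sub d h3
      rcases mem_union.1 hdW with h6 | h6
      · exact mem_union_left _ (h1.hm.clo d h3 h6)
      · exact mem_union_right _ ((fit d h4 h5 h6).1 h3)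
    · obtain ⟨h4, h5⟩ := h2.hm.sub d h3
      rcases mem_union.1 hdW with h6 | h6
      · refine mem_union_left _ ((fit (G.al d) (G.al_mem d h4) h6 ?_).2 ?_)
        · rw [G.al_al d h4]
          exact h5
        · rw [G.al_al d h4]
          exact h3
      · exact mem_union_right _ (h2.hm.clo d h3 h6)
  · intro v hv
    rcases mem_union.1 hv with h3 | h3
    · rw [← h1.hm.one v h3]
      congr 1
      ext d
      rw [mem_filter, mem_filter]
      constructor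
      · rintro ⟨h4, h5⟩
        exact ⟨hn1 (h5 ▸ h3) h4, h5⟩
      · rintro ⟨h4, h5⟩
        exact ⟨mem_union_left _ h4, h5⟩
    · rw [← h2.hm.one v h3]
      congr 1
      ext d
      rw [mem_filter, mem_filter]
      constructor
      · rintro ⟨h4, h5⟩
        exact ⟨hn2 (h5 ▸ h3) h4, h5⟩
      · rintro ⟨h4, h5⟩
        exact ⟨mem_union_right _ h4, h5⟩
  · intro d hd
    rcases mem_union.1 hd with h3 | h3
    · exact h1.pos d h3
    · exact h2.pos d h3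
  · intro X hX hXW hcl
    refine ⟨?_, fun h3 => hj h3.1 (h3.2.trans hXW)⟩
    have hal : ∀ {d}, d ∈ G.ds → G.al d ∈ M1 ∪ M2 → G.pi d ∈ W1 ∪ W2 → d ∈ M1 ∪ M2 := by
      intro d hd hm hdW
      rcases mem_union.1 hm with h3 | h3
      · obtain ⟨h4, h5⟩ := h1.hm.sub _ h3
        rcases mem_union.1 hdW with h6 | h6
        · have := h1.hm.clo _ h3 (by rw [G.al_al d hd]; exact h6)
          rw [G.al_al d hd] at this
          exact mem_union_left _ this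
        · refine mem_union_right _ ?_
          have := (fit (G.al d) h4 h5 (by rw [G.al_al d hd]; exact h6)).1 h3
          rwa [G.al_al d hd] at this
      · obtain ⟨h4, h5⟩ := h2.hm.sub _ h3
        rcases mem_union.1 hdW with h6 | h6
        · exact mem_union_left _ ((fit d hd h6 h5).2 h3)
        · have := h2.hm.clo _ h3 (by rw [G.al_al d hd]; exact h6)
          rw [G.al_al d hd] at this
          exact mem_union_right _ this
    have c1 : ∀ d ∈ G.bd (X ∩ W1), d ∈ M1 := by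
      intro d hd
      obtain ⟨k1, k2, k3⟩ := mem_bd.1 hd
      obtain ⟨k4, k5⟩ := mem_inter.1 k2
      by_contra hn
      by_cases k6 : G.pi (G.al d) ∈ X
      · rcases mem_union.1 (hXW k6) with k7 | k7
        · exact k3 (mem_inter.2 ⟨k6, k7⟩)
        · exact hl X hX hXW hcl d k1 hn k4 k5 k6 k7
      · exact hn (hn1 k5 (hcl d (mem_bd.2 ⟨k1, k4, k6⟩)))
    have c2 : ∀ d ∈ G.bd (X ∩ W2), d ∈ M2 := by
      intro d hd
      obtain ⟨k1, k2, k3⟩ := mem_bd.1 hd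
      obtain ⟨k4, k5⟩ := mem_inter.1 k2
      by_contra hn
      by_cases k6 : G.pi (G.al d) ∈ X
      · rcases mem_union.1 (hXW k6) with k7 | k7
        · refine hl X hX hXW hcl (G.al d) (G.al_mem d k1) (fun h3 => hn ?_) k6 k7 (by
            rw [G.al_al d k1]; exact k4) (by rw [G.al_al d k1]; exact k5)
          have := (fit (G.al d) (G.al_mem d k1) k7 (by rw [G.al_al d k1]; exact k5)).1 h3
          rwa [G.al_al d k1] at this
        · exact k3 (mem_inter.2 ⟨k6, k7⟩)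
      · exact hn (hn2 k5 (hcl d (mem_bd.2 ⟨k1, k4, k6⟩)))
    have e1 := (h1.ok _ (hX.interW f1) inter_subset_right c1).1
    have e2 := (h2.ok _ (hX.interW f2) inter_subset_right c2).1
    have e3 : X = (X ∩ W1) ∪ (X ∩ W2) := by
      rw [← inter_union_distrib_left, inter_eq_left.2 hXW]
    rw [e3, card_union_of_disjoint (hdj.mono inter_subset_right inter_subset_right)]
    exact e1.add e2

/-- the unused boundary darts of the part of a closed union: they lead to the other side -/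
theorem GHalf.unused_part (hF : G.FrS z fr F jm) {y : D → ℝ} {W1 W2 : Finset V}
    (h1 : G.GHalf y fr F jm W1 M1) (h2 : G.GHalf y fr F jm W2 M2) (hdj : Disjoint W1 W2)
    (f1 : ∀ d ∈ F, G.pi d ∈ W1 → G.pi (G.al d) ∈ W1) (hj : Disjoint jm W1)
    (hX : G.Adm fr F X) (hXW : X ⊆ W1 ∪ W2) (hcl : ∀ d ∈ G.bd X, d ∈ M1 ∪ M2) :
    Even ((G.bd (X ∩ W1)).filter fun d => d ∉ M1).card ∧
      ∀ d ∈ (G.bd (X ∩ W1)).filter (fun d => d ∉ M1), G.pi (G.al d) ∈ X ∧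
        G.pi (G.al d) ∈ W2 := by
  constructor
  · have h3 := h1.hm.unused hF (hX.interW f1) inter_subset_right
    have h4 : X ∩ W1 ∩ jm = ∅ := by
      rw [← disjoint_iff_inter_eq_empty]
      exact (hj.mono_right inter_subset_right).symm
    rw [h4, card_empty] at h3
    rwa [Nat.even_iff]
  · intro d hd
    obtain ⟨h3, h4⟩ := mem_filter.1 hd
    obtain ⟨k1, k2, k3⟩ := mem_bd.1 h3
    obtain ⟨k4, k5⟩ := mem_inter.1 k2
    have k6 : G.pi (G.al d) ∈ X := by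
      by_contra k6
      rcases mem_union.1 (hcl d (mem_bd.2 ⟨k1, k4, k6⟩)) with k7 | k7
      · exact h4 k7
      · exact disjoint_left.1 hdj k5 (h2.hm.sub d k7).2
    refine ⟨k6, ?_⟩
    rcases mem_union.1 (hXW k6) with k7 | k7
    · exact absurd (mem_inter.2 ⟨k6, k7⟩) k3
    · exact k7

/-- data of (iv): `Z` in `W`, `z1`, `z2` lead from `Z` to `W - Z`, the other boundary darts of `Z` are
the inner darts of the exits `i`, `j` -/
structure ZD (G : MG V D) (fr : Finset V) (F : Finset D) (jm A : Finset V) (e i j k : D)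
    (Z : Finset V) (z1 z2 : D) : Prop where
  hA : A ⊆ G.vs
  jA : jm ⊆ A
  bdA : G.bd A = {e, i, j, k}
  nd : [e, i, j, k].Nodup
  FA : ∀ d ∈ F, G.pi d ∈ A → G.pi (G.al d) ∈ A
  hZ : Z ⊆ G.vs \ A
  FZ : ∀ d ∈ F, G.pi d ∈ Z → G.pi (G.al d) ∈ Z
  bdZ : G.bd Z = {G.al i, G.al j, z1, z2}
  n12 : z1 ≠ z2
  w1 : G.pi (G.al z1) ∈ (G.vs \ A) \ Z
  w2 : G.pi (G.al z2) ∈ (G.vs \ A) \ Z
  ce : G.pi (G.al e) ∉ Z
  ck : G.pi (G.al k) ∉ Z

namespace ZD

variable {Z : Finset V} {i j k z1 z2 : D} (q : ZD G fr F jm A e i j k Z z1 z2)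
include q

theorem symm : ZD G fr F jm A e i j k Z z2 z1 where
  hA := q.hA
  jA := q.jA
  bdA := q.bdA
  nd := q.nd
  FA := q.FA
  hZ := q.hZ
  FZ := q.FZ
  bdZ := by
    rw [q.bdZ]
    ext x
    simp only [mem_insert, mem_singleton]
    tauto
  n12 := q.n12.symm
  w1 := q.w2
  w2 := q.w1
  ce := q.ce
  ck := q.ck

theorem symm' : ZD G fr F jm A e j i k Z z1 z2 where
  hA := q.hA
  jA := q.jA
  bdA := by
    rw [q.bdA]
    ext x
    simp only [mem_insert, mem_singleton]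
    tauto
  nd := by
    have := q.nd
    simp only [List.nodup_cons, List.mem_cons, List.not_mem_nil, or_false, not_or, not_false_iff,
      List.nodup_nil, and_true] at this ⊢
    obtain ⟨⟨h1, h2, h3⟩, ⟨h4, h5⟩, h6⟩ := this
    exact ⟨⟨h2, h1, h3⟩, ⟨fun h => h4 h.symm, h6⟩, h5⟩
  FA := q.FA
  hZ := q.hZ
  FZ := q.FZ
  bdZ := by
    rw [q.bdZ]
    ext x
    simp only [mem_insert, mem_singleton]
    tauto
  n12 := q.n12
  w1 := q.w1
  w2 := q.w2
  ce := q.ce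
  ck := q.ck

theorem ne : e ≠ i ∧ e ≠ j ∧ e ≠ k ∧ i ≠ j ∧ i ≠ k ∧ j ≠ k := by
  have hnd := q.nd
  simp only [List.nodup_cons, List.mem_cons, List.not_mem_nil, or_false, not_or, not_false_iff,
    List.nodup_nil, and_true] at hnd
  obtain ⟨⟨h1, h2, h3⟩, ⟨h4, h5⟩, h6⟩ := hnd
  exact ⟨h1, h2, h3, h4, h5, h6⟩

theorem me : e ∈ G.bd A := by rw [q.bdA]; simp
theorem mi : i ∈ G.bd A := by rw [q.bdA]; simp
theorem mj : j ∈ G.bd A := by rw [q.bdA]; simp
theorem xk : k ∈ G.bd A := by rw [q.bdA]; simp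
theorem m1 : z1 ∈ G.bd Z := by rw [q.bdZ]; simp
theorem m2 : z2 ∈ G.bd Z := by rw [q.bdZ]; simp
theorem mi' : G.al i ∈ G.bd Z := by rw [q.bdZ]; simp
theorem mj' : G.al j ∈ G.bd Z := by rw [q.bdZ]; simp

theorem union : Z ∪ (G.vs \ A) \ Z = G.vs \ A := union_sdiff_of_subset q.hZ

omit q in
theorem dj : Disjoint Z ((G.vs \ A) \ Z) := disjoint_sdiff

theorem FW (hF : G.FrS z fr F jm) :
    ∀ d ∈ F, G.pi d ∈ (G.vs \ A) \ Z → G.pi (G.al d) ∈ (G.vs \ A) \ Z := by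
  intro d hd h1
  obtain ⟨h2, h3⟩ := mem_sdiff.1 h1
  obtain ⟨h4, h5⟩ := mem_sdiff.1 h2
  have hdd := hF.Fsub hd
  refine mem_sdiff.2 ⟨mem_sdiff.2 ⟨G.pi_mem _ (G.al_mem d hdd), fun h6 => h5 ?_⟩,
    fun h6 => h3 ?_⟩
  · have := q.FA _ (hF.Fal d hd) h6
    rwa [G.al_al d hdd] at this
  · have := q.FZ _ (hF.Fal d hd) h6
    rwa [G.al_al d hdd] at this

/-- the darts from `Z` to `W - Z` -/
theorem cross {d : D} (hd : d ∈ G.ds) (h1 : G.pi d ∈ Z) (h2 : G.pi (G.al d) ∈ (G.vs \ A) \ Z) :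
    d = z1 ∨ d = z2 := by
  have h3 : d ∈ G.bd Z := mem_bd.2 ⟨hd, h1, (mem_sdiff.1 h2).2⟩
  rw [q.bdZ] at h3
  simp only [mem_insert, mem_singleton] at h3
  have h5 := (mem_sdiff.1 (mem_sdiff.1 h2).1).2
  rcases h3 with rfl | rfl | h4 | h4
  · rw [G.al_al _ (mem_bd.1 q.mi).1] at h5
    exact absurd (mem_bd.1 q.mi).2.1 h5
  · rw [G.al_al _ (mem_bd.1 q.mj).1] at h5
    exact absurd (mem_bd.1 q.mj).2.1 h5
  · exact Or.inl h4
  · exact Or.inr h4

theorem ne1 : z1 ≠ G.al i ∧ z1 ≠ G.al j := by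
  have h5 := (mem_sdiff.1 (mem_sdiff.1 q.w1).1).2
  refine ⟨fun h => h5 ?_, fun h => h5 ?_⟩
  · rw [h, G.al_al _ (mem_bd.1 q.mi).1]
    exact (mem_bd.1 q.mi).2.1
  · rw [h, G.al_al _ (mem_bd.1 q.mj).1]
    exact (mem_bd.1 q.mj).2.1

omit q in
theorem al_ne {x y : D} (hx : x ∈ G.bd A) (hy : y ∈ G.bd A) (hxy : x ≠ y) : G.al x ≠ G.al y :=
  fun h1 => hxy ((al_eq (mem_bd.1 hx).1 (mem_bd.1 hy).1).1 h1)

/-- the exits of `W` at `Z` -/
theorem exZ {d : D} (hd : d ∈ G.bd (G.vs \ A)) (h1 : G.pi d ∈ Z) : d = G.al i ∨ d = G.al j := by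
  have hx' := bd_al' q.hA hd
  have hxd := (mem_bd.1 hd).1
  have hxx : d = G.al (G.al d) := (G.al_al d hxd).symm
  rw [q.bdA] at hx'
  simp only [mem_insert, mem_singleton] at hx'
  rcases hx' with h6 | h6 | h6 | h6
  · rw [hxx, h6] at h1
    exact absurd h1 q.ce
  · left
    rw [hxx, h6]
  · right
    rw [hxx, h6]
  · rw [hxx, h6] at h1
    exact absurd h1 q.ck

/-- the exits of `W` at `W - Z` -/
theorem exW {d : D} (hd : d ∈ G.bd (G.vs \ A)) (h1 : G.pi d ∉ Z) : d = G.al e ∨ d = G.al k := by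
  have hx' := bd_al' q.hA hd
  have hxd := (mem_bd.1 hd).1
  have hxx : d = G.al (G.al d) := (G.al_al d hxd).symm
  rw [q.bdA] at hx'
  simp only [mem_insert, mem_singleton] at hx'
  rcases hx' with h6 | h6 | h6 | h6
  · left
    rw [hxx, h6]
  · exfalso
    rw [hxx, h6] at h1
    exact h1 (mem_bd.1 q.mi').2.1
  · exfalso
    rw [hxx, h6] at h1
    exact h1 (mem_bd.1 q.mj').2.1
  · right
    rw [hxx, h6]

/-- darts of the boundary of `W - Z` -/
theorem bW {x : D} (hx : x ∈ G.bd A) (h : G.pi (G.al x) ∉ Z) :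
    G.al x ∈ G.bd ((G.vs \ A) \ Z) := by
  obtain ⟨h1, h2, h3⟩ := mem_bd.1 (bd_al q.hA hx)
  exact mem_bd.2 ⟨h1, mem_sdiff.2 ⟨h2, h⟩, fun h4 => h3 (mem_sdiff.1 h4).1⟩

theorem bW1 : G.al z1 ∈ G.bd ((G.vs \ A) \ Z) := by
  have h1 := (mem_bd.1 q.m1).1
  refine mem_bd.2 ⟨G.al_mem _ h1, q.w1, ?_⟩
  rw [G.al_al _ h1]
  exact fun h4 => (mem_sdiff.1 h4).2 (mem_bd.1 q.m1).2.1

theorem al1_ne : G.al z1 ≠ G.al z2 := fun h => q.n12 ((al_eq (mem_bd.1 q.m1).1
  (mem_bd.1 q.m2).1).1 h)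

theorem al1_ne' {x : D} (hx : x ∈ G.bd A) : G.al z1 ≠ G.al x := by
  intro h
  have h1 := (al_eq (mem_bd.1 q.m1).1 (mem_bd.1 hx).1).1 h
  have h2 := (mem_bd.1 q.m1).2.1
  rw [h1] at h2
  exact (mem_sdiff.1 (q.hZ h2)).2 (mem_bd.1 hx).2.1

/-- union of halves of `Z` and `W - Z`: pattern `{e}` -/
theorem sin (hF : G.FrS one1 fr F jm) (h1 : G.GHalf one1 fr F jm Z M1)
    (p1 : ∀ d ∈ G.bd Z, d ∉ M1) (l1 : G.LkS fr F Z M1 {z1, z2} ∅)
    (h2 : G.GHalf one1 fr F jm ((G.vs \ A) \ Z) M2)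
    (p2 : ∀ d ∈ G.bd ((G.vs \ A) \ Z), d ∈ M2 ↔ d = G.al e) : G.SIn fr F jm A e := by
  have jd : Disjoint jm Z := disjoint_left.2 fun v hv hv' =>
    (mem_sdiff.1 (q.hZ hv')).2 (q.jA hv)
  have hu := GHalf.union h1 h2 (disjoint_sdiff : Disjoint Z ((G.vs \ A) \ Z)) q.FZ (q.FW hF) (by
    intro d hd d1 d2
    constructor
    · intro h3
      exact absurd h3 (p1 d (mem_bd.2 ⟨hd, d1, (mem_sdiff.1 d2).2⟩))
    · intro h3
      exfalso
      rcases q.cross hd d1 d2 with rfl | rfl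
      · exact q.al1_ne' q.me ((p2 _ q.bW1).1 h3)
      · exact q.symm.al1_ne' q.me ((p2 _ q.symm.bW1).1 h3))
    (by
      rintro ⟨v, hv⟩ h3
      rw [q.union] at h3
      exact (mem_sdiff.1 (h3 hv)).2 (q.jA hv))
    (by
      intro X hX hXW hcl d hd hn d1 d2 d3 d4
      obtain ⟨c1, c2⟩ := GHalf.unused_part hF h1 h2 (disjoint_sdiff : Disjoint Z ((G.vs \ A) \ Z)) q.FZ jd hX hXW hcl
      have hdU : d ∈ (G.bd (X ∩ Z)).filter fun d => d ∉ M1 := mem_filter.2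
        ⟨mem_bd.2 ⟨hd, mem_inter.2 ⟨d1, d2⟩, fun h3 => (mem_sdiff.1 d4).2 (mem_inter.1 h3).2⟩,
          hn⟩
      have hUs : (G.bd (X ∩ Z)).filter (fun d => d ∉ M1) ⊆ {z1, z2} := by
        intro x hx
        obtain ⟨k1, k2⟩ := c2 x hx
        obtain ⟨k3, k4, k5⟩ := mem_bd.1 (mem_filter.1 hx).1
        rcases q.cross k3 (mem_inter.1 k4).2 k2 with h3 | h3
        · rw [h3]; exact mem_insert_self _ _
        · rw [h3]; exact mem_insert_of_mem (mem_singleton_self _)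
      have hUc : (G.bd (X ∩ Z)).filter (fun d => d ∉ M1) = {z1, z2} := by
        refine eq_of_subset_of_card_le hUs ?_
        have h3 := card_pos.2 ⟨d, hdU⟩
        have h4 := Nat.even_iff.1 c1
        have h5 : ({z1, z2} : Finset D).card ≤ 2 := card_le_two
        omega
      refine l1 (X ∩ Z) (hX.interW q.FZ) inter_subset_right ?_ ⟨?_, empty_subset _⟩
      · intro x hx
        by_cases hxM : x ∈ M1
        · exact Or.inl hxM
        · right
          rw [← hUc]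
          exact mem_filter.2 ⟨hx, hxM⟩
      · intro x hx
        rw [← hUc] at hx
        exact (mem_bd.1 (mem_filter.1 hx).1).2.1)
  rw [q.union] at hu
  refine ⟨_, hu, bd_al q.hA q.me, fun d hd => ?_⟩
  rw [mem_union]
  by_cases hdZ : G.pi d ∈ Z
  · have hdn : d ≠ G.al e := fun h3 => q.ce (h3 ▸ hdZ)
    constructor
    · rintro (h3 | h3)
      · exact absurd h3 (p1 d (mem_bd.2 ⟨(mem_bd.1 hd).1, hdZ, fun h4 =>
          (mem_bd.1 hd).2.2 (q.hZ h4)⟩))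
      · exact absurd hdZ (mem_sdiff.1 (h2.hm.sub d h3).2).2
    · intro h3
      exact absurd h3 hdn
  · have hdb : d ∈ G.bd ((G.vs \ A) \ Z) := mem_bd.2 ⟨(mem_bd.1 hd).1,
      mem_sdiff.2 ⟨(mem_bd.1 hd).2.1, hdZ⟩, fun h4 => (mem_bd.1 hd).2.2 (mem_sdiff.1 h4).1⟩
    rw [p2 d hdb]
    constructor
    · rintro (h3 | h3)
      · exact absurd (h1.hm.sub d h3).2 hdZ
      · exact h3
    · exact fun h3 => Or.inr h3

/-- union of halves of `Z` and `W - Z`: the triple without `j` -/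
theorem tin (hF : G.FrS one1 fr F jm) (h1 : G.GHalf one1 fr F jm Z M1)
    (p1 : ∀ d ∈ G.bd Z, d ∈ M1 ↔ d = z1 ∨ d = G.al i)
    (h2 : G.GHalf one1 fr F jm ((G.vs \ A) \ Z) M2)
    (p2 : ∀ d ∈ G.bd ((G.vs \ A) \ Z), d ∈ M2 ↔ d = G.al e ∨ d = G.al k ∨ d = G.al z1) :
    G.TIn fr F jm A j := by
  have jd : Disjoint jm Z := disjoint_left.2 fun v hv hv' =>
    (mem_sdiff.1 (q.hZ hv')).2 (q.jA hv)
  obtain ⟨n1, n2, n3, n4, n5, n6⟩ := q.ne
  have z2n : z2 ∉ M1 := fun h3 => by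
    rcases (p1 _ q.m2).1 h3 with h4 | h4
    · exact q.n12 h4.symm
    · exact q.symm.ne1.1 h4
  have hu := GHalf.union h1 h2 (disjoint_sdiff : Disjoint Z ((G.vs \ A) \ Z)) q.FZ (q.FW hF) (by
    intro d hd d1 d2
    rcases q.cross hd d1 d2 with rfl | rfl
    · exact ⟨fun _ => (p2 _ q.bW1).2 (Or.inr (Or.inr rfl)), fun _ => (p1 _ q.m1).2 (Or.inl rfl)⟩
    · constructor
      · intro h3
        exact absurd h3 z2n
      · intro h3
        exfalso
        rcases (p2 _ q.symm.bW1).1 h3 with h4 | h4 | h4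
        · exact q.symm.al1_ne' q.me h4
        · exact q.symm.al1_ne' q.xk h4
        · exact q.symm.al1_ne h4)
    (by
      rintro ⟨v, hv⟩ h3
      rw [q.union] at h3
      exact (mem_sdiff.1 (h3 hv)).2 (q.jA hv))
    (by
      intro X hX hXW hcl d hd hn d1 d2 d3 d4
      obtain ⟨c1, c2⟩ := GHalf.unused_part hF h1 h2 (disjoint_sdiff : Disjoint Z ((G.vs \ A) \ Z)) q.FZ jd hX hXW hcl
      have hdU : d ∈ (G.bd (X ∩ Z)).filter fun d => d ∉ M1 := mem_filter.2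
        ⟨mem_bd.2 ⟨hd, mem_inter.2 ⟨d1, d2⟩, fun h3 => (mem_sdiff.1 d4).2 (mem_inter.1 h3).2⟩,
          hn⟩
      have hUs : (G.bd (X ∩ Z)).filter (fun d => d ∉ M1) ⊆ {z2} := by
        intro x hx
        obtain ⟨k1, k2⟩ := c2 x hx
        obtain ⟨k3, k4, k5⟩ := mem_bd.1 (mem_filter.1 hx).1
        rcases q.cross k3 (mem_inter.1 k4).2 k2 with h3 | h3
        · exact absurd ((p1 x (h3 ▸ q.m1)).2 (Or.inl h3)) (mem_filter.1 hx).2
        · rw [h3]; exact mem_singleton_self _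
      have h3 := card_pos.2 ⟨d, hdU⟩
      have h4 := Nat.even_iff.1 c1
      have h5 := card_le_card hUs
      rw [card_singleton] at h5
      omega)
  rw [q.union] at hu
  refine ⟨_, hu, bd_al q.hA q.mj, fun d hd => ?_⟩
  rw [mem_union]
  by_cases hdZ : G.pi d ∈ Z
  · have hdb : d ∈ G.bd Z := mem_bd.2 ⟨(mem_bd.1 hd).1, hdZ, fun h4 =>
      (mem_bd.1 hd).2.2 (q.hZ h4)⟩
    have hd2 : d ∉ M2 := fun h3 => (mem_sdiff.1 (h2.hm.sub d h3).2).2 hdZ
    rcases q.exZ hd hdZ with rfl | rfl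
    · exact ⟨fun _ => al_ne q.mi q.mj n4, fun _ => Or.inl ((p1 _ hdb).2 (Or.inr rfl))⟩
    · constructor
      · rintro (h3 | h3)
        · rcases (p1 _ hdb).1 h3 with h4 | h4
          · exact absurd h4.symm q.ne1.2
          · exact absurd h4 (al_ne q.mj q.mi n4.symm)
        · exact absurd h3 hd2
      · intro h3
        exact absurd rfl h3
  · have hdb : d ∈ G.bd ((G.vs \ A) \ Z) := mem_bd.2 ⟨(mem_bd.1 hd).1,
      mem_sdiff.2 ⟨(mem_bd.1 hd).2.1, hdZ⟩, fun h4 => (mem_bd.1 hd).2.2 (mem_sdiff.1 h4).1⟩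
    rcases q.exW hd hdZ with rfl | rfl
    · exact ⟨fun _ => al_ne q.me q.mj n2, fun _ => Or.inr ((p2 _ hdb).2 (Or.inl rfl))⟩
    · exact ⟨fun _ => al_ne q.xk q.mj n6.symm,
        fun _ => Or.inr ((p2 _ hdb).2 (Or.inr (Or.inl rfl)))⟩

/-- **(iv)** -/
theorem iv (hF : G.FrS one1 fr F jm)
    (hZ0 : ∃ M1, G.GHalf one1 fr F jm Z M1 ∧ (∀ d ∈ G.bd Z, d ∉ M1) ∧
      G.LkS fr F Z M1 {z1, z2} ∅)
    (hZs : ∀ s, s = z1 ∨ s = z2 → ∃ M1, G.GHalf one1 fr F jm Z M1 ∧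
      ((∀ d ∈ G.bd Z, d ∈ M1 ↔ d = s ∨ d = G.al i) ∨
        ∀ d ∈ G.bd Z, d ∈ M1 ↔ d = s ∨ d = G.al j))
    (hW : ∃ M2, G.GHalf one1 fr F jm ((G.vs \ A) \ Z) M2 ∧
      ((∀ d ∈ G.bd ((G.vs \ A) \ Z), d ∈ M2 ↔ d = G.al e) ∨
        ∃ s, (s = z1 ∨ s = z2) ∧ ∀ d ∈ G.bd ((G.vs \ A) \ Z), d ∈ M2 ↔
          d = G.al e ∨ d = G.al k ∨ d = G.al s)) :
    G.TIn fr F jm A i ∨ G.TIn fr F jm A j ∨ G.SIn fr F jm A e := by
  obtain ⟨M2, h2, p2 | ⟨s, hs, p2⟩⟩ := hW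
  · obtain ⟨M1, h1, p1, l1⟩ := hZ0
    exact Or.inr (Or.inr (q.sin hF h1 p1 l1 h2 p2))
  · obtain ⟨M1, h1, p1⟩ := hZs s hs
    rcases hs with rfl | rfl
    · rcases p1 with p1 | p1
      · exact Or.inr (Or.inl (q.tin hF h1 p1 h2 p2))
      · exact Or.inl (q.symm'.tin hF h1 p1 h2 p2)
    · rcases p1 with p1 | p1
      · exact Or.inr (Or.inl (q.symm.tin hF h1 p1 h2 p2))
      · exact Or.inl (q.symm.symm'.tin hF h1 p1 h2 p2)

end ZD

end MG

end RH
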