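import Pool.Agent.Lib.RH.TplX
import Pool.Agent.Lib.RH.CE6Sw
import Pool.Agent.Lib.RH.CE6Lam

/-! A BLOCKED STEP, instantiation (CE6 S1). `StD`: the step `y, b, b'` with `b, y` in `W = vs - A`, `b'`
in `A`, `e` the dart of `b b'` at `b'`, `dy` the dart of `b y` at `b`. `X6.sall`: I1; `X6.salle`: In(e)*;
`X6.dead2`: the case `2 ≤ t(W)`. -/

set_option autoImplicit false

namespace RH

open Finset Classical

namespace MG

variable {V D : Type*} {G : MG V D} {t : V → ℝ}
variable {fr : Finset V} {F M T : Finset D} {jm A W X S : Finset V} {e dy d : D}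

/-- the step data -/
structure StD (G : MG V D) (t : V → ℝ) (fr A : Finset V) (e dy : D) : Prop where
  dyd : dy ∈ G.ds
  dyb : G.pi dy = G.pi (G.al e)
  dyW : G.pi (G.al dy) ∈ G.vs \ A
  ty : t (G.pi (G.al dy)) ≠ 0
  yfr : G.pi (G.al dy) ∉ fr
  bfr : G.pi (G.al e) ∉ fr
  tb : t (G.pi (G.al e)) = 0
  ub : ∀ d ∈ G.bd A, G.pi (G.al d) = G.pi (G.al e) → d = e
  A3 : 3 ≤ A.card

theorem StD.real (s : StD G t fr A e dy) (h : EK G 6 t fr F jm) :
    ∃ y ∈ G.vs \ A, y ∉ fr ∧ 1 ≤ t y := by
  refine ⟨_, s.dyW, s.yfr, ?_⟩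
  obtain ⟨n, h1, -⟩ := h.tnat (mem_sdiff.1 s.dyW).1
  have h2 := s.ty
  rw [h1] at h2 ⊢
  have h3 : n ≠ 0 := fun h3 => h2 (by rw [h3]; norm_num)
  have h4 : 1 ≤ n := Nat.one_le_iff_ne_zero.2 h3
  exact_mod_cast h4

theorem bd_image (hA : A ⊆ G.vs) : G.bd (G.vs \ A) = (G.bd A).image G.al := by
  ext d
  rw [mem_image]
  constructor
  · intro hd
    exact ⟨G.al d, bd_al' hA hd, G.al_al d (mem_bd.1 hd).1⟩
  · rintro ⟨x, hx, rfl⟩
    exact bd_al hA hx

/-- a pair of specials as an admissible star of the inner side, or an end is not fresh -/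
theorem Spc.toI (h : X6 G t fr F jm) (b : BW G t F A e)
    (hy : ∃ y ∈ G.vs \ A, y ∉ fr ∧ 1 ≤ t y) (hT : G.Spc fr jm A T S) (hd : d ∈ G.bd A)
    (hdT : d ∉ T) : (∃ x ∈ T, G.pi (G.al x) ∉ fr) ∨ SpI G fr jm (G.vs \ A) (T.image G.al) S := by
  by_cases h1 : ∃ x ∈ T, G.pi (G.al x) ∉ fr
  · exact Or.inl h1
  · right
    push Not at h1
    obtain ⟨a1, a2, a3⟩ := hT
    have hc : (T.image G.al).card = T.card := card_image_of_injOn fun x hx y hy h2 =>
      (al_eq (mem_bd.1 (a1 hx)).1 (mem_bd.1 (a1 hy)).1).1 h2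
    have hr := b.real h.toEK hy
    have hTc : T.card + 1 ≤ (G.bd A).card := by
      rw [← card_insert_of_notMem hdT]
      exact card_le_card (insert_subset hd a1)
    refine ⟨?_, ?_, ?_⟩
    · intro x hx
      obtain ⟨y, hy, rfl⟩ := mem_image.1 hx
      exact bd_al b.hA (a1 hy)
    · intro x hx
      obtain ⟨y, hy, rfl⟩ := mem_image.1 hx
      exact h1 y hy
    · rcases a3 with ⟨b1, b2⟩ | ⟨b1, b2, b3, b4⟩
      · refine Or.inr (Or.inr (Or.inl ⟨by rw [hc]; exact b1, b2, ?_⟩))
        rcases h.jm2 with h2 | h2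
        · exact Or.inl h2
        · right
          intro h3
          have h4 : jm \ A = jm := by
            rw [Finset.sdiff_eq_self_iff_disjoint, disjoint_left]
            exact fun v hv => (mem_sdiff.1 (h3 hv)).2
          rw [h4, h2] at hr
          omega
      · refine Or.inr (Or.inr (Or.inr ⟨by rw [hc]; exact b1, ?_, ?_, ?_⟩))
        · rw [b2]
          ext v
          rw [mem_sdiff, mem_inter, mem_sdiff]
          exact ⟨fun h2 => ⟨h2.1, h.fresh.fsub (h.fresh.jms h2.1), h2.2⟩,
            fun h2 => ⟨h2.1, h2.2.2⟩⟩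
        · have h2 := card_inter_add_card_sdiff jm A
          have h3 : jm.card ≤ 2 := by
            rcases h.jm2 with h3 | h3
            · rw [h3, card_empty]
              exact Nat.zero_le _
            · exact h3.le
          have h4 := card_pos.2 b3
          have h5 := card_pos.2 b4
          rw [b2]
          omega
        · rcases h.jm2 with h2 | h2
          · obtain ⟨v, hv⟩ := b3
            rw [h2] at hv
            exact absurd (mem_inter.1 hv).1 (notMem_empty v)
          · exact h2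

/-- from the inner instances to `SAll` -/
theorem SAll.of (h : X6 G t fr F jm) (b : BW G t F A e)
    (hy : ∃ y ∈ G.vs \ A, y ∉ fr ∧ 1 ≤ t y) (hd : d ∈ G.bd A)
    (hi : ∀ T' S', SpI G fr jm (G.vs \ A) T' S' → G.al d ∉ T' →
      ∃ M, G.GHalf one1 fr F jm (G.vs \ A) M ∧ (T'.Nonempty → G.LkS fr F (G.vs \ A) M T' S') ∧
        G.Sg (G.vs \ A) M (G.al d)) : G.SAll fr F jm A d := by
  obtain ⟨S0, hS0⟩ := exists_spI G fr jm (G.vs \ A)
  obtain ⟨M0, m1, -, m2⟩ := hi ∅ S0 hS0 (notMem_empty _)
  refine ⟨⟨M0, m1, m2⟩, fun T S hT hdT => ?_⟩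
  have hTn : T.Nonempty := by
    rw [← card_pos]
    rcases hT.2.2 with h3 | h3
    · omega
    · omega
  rcases Spc.toI h b hy hT hd hdT with ⟨x, hx, hn⟩ | h1
  · exact ⟨M0, m1, m2, fun X hX _ _ h2 => hn (hX.sub (h2.1 _ (mem_image_of_mem _ hx)))⟩
  · obtain ⟨M, n1, n2, n3⟩ := hi _ S h1 fun h2 => hdT (by
      obtain ⟨y, hy, h3⟩ := mem_image.1 h2
      rwa [← (al_eq (mem_bd.1 (hT.1 hy)).1 (mem_bd.1 hd).1).1 h3])
    exact ⟨M, n1, n3, n2 (hTn.image _)⟩

theorem BW.iblk (b : BW G t F A e) : IBlk G t (G.vs \ A) 1 where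
  hA := sdiff_subset
  par := Nat.odd_iff.1 b.odd
  ne := by
    rw [Finset.sdiff_sdiff_eq_self b.hA]
    exact ⟨_, (mem_bd.1 b.he).2.1⟩
  val := by
    rw [b.val]
    norm_num

theorem BW.oblkW (b : BW G t F A e) : OBlk G t F A 1 where
  hA := b.hA
  par := Nat.odd_iff.1 b.odd
  two := by
    have := b.big
    omega
  val := by
    rw [b.val]
    norm_num
  hF := b.hF

theorem BW.nF (b : BW G t F A e) (h : EK G 6 t fr F jm) : ∀ d ∈ G.bd (G.vs \ A), d ∉ F := by
  intro d hd hF
  have h1 := bd_al' b.hA hd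
  have h2 := b.hF _ (h.fresh.Fal d hF) (mem_bd.1 h1).2.1
  rw [G.al_al d (mem_bd.1 hd).1] at h2
  exact (mem_sdiff.1 (mem_bd.1 hd).2.1).2 h2

/-- I1 -/
theorem X6.sall [Infinite V] [Infinite D] (h : X6 G t fr F jm) (b : BW G t F A e)
    (s : StD G t fr A e dy) (hd : d ∈ G.bd A) (hde : d ≠ e) : G.SAll fr F jm A d := by
  refine SAll.of h b (s.real h.toEK) hd fun T' S' hs hdT => ?_
  refine h.inI1 b.iblk (b.nF h.toEK) ?_ (bd_al b.hA b.he) s.dyd s.dyb s.dyW ?_ s.ty
    (bd_al b.hA hd) (fun h1 => hde ((al_eq (mem_bd.1 hd).1 (mem_bd.1 b.he).1).1 h1)) hs hdT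
  · rw [Finset.sdiff_sdiff_eq_self b.hA]
    have := s.A3
    omega
  · intro h1
    have h2 := h.fresh.Ffr _ h1
    rw [s.dyb] at h2
    exact s.bfr h2

/-- In(e)* -/
theorem X6.salle [Infinite V] [Infinite D] (h : X6 G t fr F jm) (b : BW G t F A e)
    (s : StD G t fr A e dy) : G.SAll fr F jm A e ∨ G.CIn t F A e (-1) 1 := by
  by_cases hc : G.CIn t F A e (-1) 1
  · exact Or.inr hc
  · left
    have key : ∀ d ∈ G.bd (G.vs \ A), G.pi d = G.pi (G.al e) → d = G.al e := by
      intro d hd h1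
      have h2 := s.ub (G.al d) (bd_al' b.hA hd) (by rw [G.al_al d (mem_bd.1 hd).1]; exact h1)
      rw [← h2, G.al_al d (mem_bd.1 hd).1]
    refine SAll.of h b (s.real h.toEK) b.he fun T' S' hs hdT => ?_
    rcases h.inIn b.iblk (b.nF h.toEK) (bd_al b.hA b.he) key s.tb s.bfr hs hdT with
      h1 | ⟨f, f1, f2, f3⟩
    · exact h1
    · exfalso
      exact hc ⟨f, f1, f2, fun d hd hde => f3 _ (bd_al b.hA hd) fun h1 => hde
        ((al_eq (mem_bd.1 hd).1 (mem_bd.1 b.he).1).1 h1)⟩

/-- a set with two exits: value of the union with `W` -/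
theorem BW.joinW (b : BW G t F A e) (h : EK G 6 t fr F jm) (hX : X ⊆ A) :
    G.val one1 t (X ∪ (G.vs \ A)) = G.val one1 t X + 5 - 2 * qx G A X := by
  rw [h.join b.hA hX, b.val]

theorem BW.dis (_b : BW G t F A e) (hX : X ⊆ A) : Disjoint X (G.vs \ A) :=
  disjoint_left.2 fun _ hv hv' => (mem_sdiff.1 hv').2 (hX hv)

/-- **outer sets, 1.3 (a), (b)**: no even set of value 4 with two exits which are not `e` -/
theorem BW.even_out (b : BW G t F A e) (h : EK G 6 t fr F jm) (hX : X ⊆ A) (he : Even X.card)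
    {p q : D} (hp : p ∈ G.bd A) (hq : q ∈ G.bd A) (hpe : p ≠ e) (hqe : q ≠ e) (hpq : p ≠ q)
    (pX : G.pi p ∈ X) (qX : G.pi q ∈ X) : G.val one1 t X ≠ 4 := by
  intro h4
  have hj := b.joinW h hX
  rw [h4] at hj
  have hc : (X ∪ (G.vs \ A)).card = X.card + (G.vs \ A).card :=
    card_union_of_disjoint (b.dis hX)
  by_cases eX : G.pi e ∈ X
  · have h5 : (3 : ℝ) ≤ qx G A X := by
      have h6 : ({e, p, q} : Finset D).card ≤ qx G A X := by
        unfold qx
        refine card_le_card fun d hd => ?_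
        rw [mem_filter]
        simp only [mem_insert, mem_singleton] at hd
        rcases hd with rfl | rfl | rfl
        · exact ⟨b.he, eX⟩
        · exact ⟨hp, pX⟩
        · exact ⟨hq, qX⟩
      rw [card_insert_of_notMem (by
        rw [mem_insert, mem_singleton, not_or]
        exact ⟨fun h => hpe h.symm, fun h => hqe h.symm⟩), card_pair hpq] at h6
      exact_mod_cast h6
    have h6 := h.odd (X ∪ (G.vs \ A)) (union_subset (hX.trans b.hA) sdiff_subset) (by
      rw [hc]
      exact he.add_odd b.odd) (by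
      rw [hc]
      have := b.big
      omega)
    linarith
  · have h5 : (2 : ℝ) ≤ qx G A X := by
      have h6 : ({p, q} : Finset D).card ≤ qx G A X := by
        unfold qx
        refine card_le_card fun d hd => ?_
        rw [mem_filter]
        simp only [mem_insert, mem_singleton] at hd
        rcases hd with rfl | rfl
        · exact ⟨hp, pX⟩
        · exact ⟨hq, qX⟩
      rw [card_pair hpq] at h6
      exact_mod_cast h6
    have h6 := b.mO X hX he ⟨_, pX⟩ eX
    linarith

/-- two exits which are not `e` have different outer ends -/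
theorem BW.inj_out (b : BW G t F A e) (h : EK G 6 t fr F jm) (hA3 : 3 ≤ A.card) {p q : D}
    (hp : p ∈ G.bd A) (hq : q ∈ G.bd A) (hpe : p ≠ e) (hqe : q ≠ e) (hpq : p ≠ q) :
    G.pi p ≠ G.pi q := by
  intro h1
  have hX : ({G.pi p} : Finset V) ⊆ A := singleton_subset_iff.2 (mem_bd.1 hp).2.1
  have hj := b.joinW h hX
  rw [h.wt.val_single (b.hA (mem_bd.1 hp).2.1)] at hj
  have hc : ({G.pi p} ∪ (G.vs \ A)).card = 1 + (G.vs \ A).card := by
    rw [card_union_of_disjoint (b.dis hX), card_singleton]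
  by_cases eX : G.pi e ∈ ({G.pi p} : Finset V)
  · have h5 : (3 : ℝ) ≤ qx G A {G.pi p} := by
      have h6 : ({e, p, q} : Finset D).card ≤ qx G A {G.pi p} := by
        unfold qx
        refine card_le_card fun d hd => ?_
        rw [mem_filter]
        simp only [mem_insert, mem_singleton] at hd
        rcases hd with rfl | rfl | rfl
        · exact ⟨b.he, eX⟩
        · exact ⟨hp, mem_singleton_self _⟩
        · exact ⟨hq, mem_singleton.2 h1.symm⟩
      rw [card_insert_of_notMem (by
        rw [mem_insert, mem_singleton, not_or]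
        exact ⟨fun h => hpe h.symm, fun h => hqe h.symm⟩), card_pair hpq] at h6
      exact_mod_cast h6
    have h6 := h.evn ({G.pi p} ∪ (G.vs \ A)) (union_subset (hX.trans b.hA) sdiff_subset) (by
      rw [hc]
      exact odd_one.add_odd b.odd) ⟨_, mem_union_left _ (mem_singleton_self _)⟩ (by
      intro h7
      rw [h7] at hc
      have h8 := card_sdiff_add_card_eq_card b.hA
      omega)
    linarith
  · have h5 : (2 : ℝ) ≤ qx G A {G.pi p} := by
      have h6 : ({p, q} : Finset D).card ≤ qx G A {G.pi p} := by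
        unfold qx
        refine card_le_card fun d hd => ?_
        rw [mem_filter]
        simp only [mem_insert, mem_singleton] at hd
        rcases hd with rfl | rfl
        · exact ⟨hp, mem_singleton_self _⟩
        · exact ⟨hq, mem_singleton.2 h1.symm⟩
      rw [card_pair hpq] at h6
      exact_mod_cast h6
    have h6 := b.mE {G.pi p} hX (by rw [card_singleton]; exact odd_one) eX
    linarith

/-- **`2 ≤ t(W)` is impossible** -/
theorem X6.dead2 [Infinite V] [Infinite D] (h : X6 G t fr F jm) (b : BW G t F A e)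
    (s : StD G t fr A e dy) (hW : 5 ≤ (G.vs \ A).card) (h3 : (G.bd A).card ≤ 3) : False := by
  refine h.w2 b (s.real h.toEK) h3 (fun d hd hde => h.sall b s hd hde) (h.salle b s) ?_
  have hE := h.toEK
  have hpos : 0 < (G.bd A).card := card_pos.2 ⟨e, b.he⟩
  have sg : ∀ {n : ℕ} {pp : Fin n → D} {M : Finset D}, G.bd A = univ.image pp →
      Function.Injective pp → (univ.filter fun i => pp i ∈ M).card = 1 → ∃ d, G.Sg A M d := by
    intro n pp M hpp hpi h1
    obtain ⟨i, hi⟩ := card_eq_one.1 h1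
    refine ⟨pp i, by rw [hpp]; exact mem_image_of_mem _ (mem_univ _), fun x hx => ?_⟩
    rw [hpp] at hx
    obtain ⟨j, -, rfl⟩ := mem_image.1 hx
    have h2 : j ∈ univ.filter (fun i => pp i ∈ M) ↔ j = i := by rw [hi, mem_singleton]
    rw [mem_filter] at h2
    rw [hpi.eq_iff]
    exact ⟨fun h3 => h2.1 ⟨mem_univ _, h3⟩, fun h3 => (h2.2 h3).2⟩
  by_cases c3 : (G.bd A).card = 3
  · have c2 : ((G.bd A).erase e).card = 2 := by
      rw [card_erase_of_mem b.he, c3]
    obtain ⟨x, y, hxy, hxy'⟩ := card_eq_two.1 c2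
    have mx : x ∈ (G.bd A).erase e := by rw [hxy']; simp
    have my : y ∈ (G.bd A).erase e := by rw [hxy']; simp
    obtain ⟨x1, x2⟩ := mem_erase.1 mx
    obtain ⟨y1, y2⟩ := mem_erase.1 my
    have hbd : G.bd A = {e, x, y} := by
      rw [← insert_erase b.he, hxy']
    have hinj : Function.Injective ![e, x, y] := by
      intro i j hij
      fin_cases i <;> fin_cases j <;> simp_all
    have hpp : G.bd A = univ.image ![e, x, y] := by
      rw [hbd]
      ext d
      simp only [mem_insert, mem_singleton, mem_image, mem_univ, true_and]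
      constructor
      · rintro (h1 | h1 | h1)
        · exact ⟨0, h1.symm⟩
        · exact ⟨1, h1.symm⟩
        · exact ⟨2, h1.symm⟩
      · rintro ⟨i, rfl⟩
        fin_cases i
        · exact Or.inl rfl
        · exact Or.inr (Or.inl rfl)
        · exact Or.inr (Or.inr rfl)
    obtain ⟨M, m, h1, h2⟩ := h.tplF b.oblkW Tpl.path2_reg Tpl.path2_tab rfl (by decide) rfl
      Tpl.path2_noC hpp hinj (Or.inr (by omega))
      (fun v _ => by
        unfold Tpl.n12
        rw [mem_filter]
        refine ⟨mem_univ _, ?_⟩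
        rintro ⟨k1, k2⟩
        have k3 : G.pi x ∈ ({v} : Finset V) := (mem_filter.1 k1).2
        have k4 : G.pi y ∈ ({v} : Finset V) := (mem_filter.1 k2).2
        exact b.inj_out hE s.A3 x2 y2 x1 y1 hxy
          ((mem_singleton.1 k3).trans (mem_singleton.1 k4).symm))
      (fun X hX he _ _ h4 => by
        unfold Tpl.n12
        rw [mem_filter]
        refine ⟨mem_univ _, ?_⟩
        rintro ⟨k1, k2⟩
        exact b.even_out hE hX he x2 y2 x1 y1 hxy (mem_filter.1 k1).2 (mem_filter.1 k2).2 h4)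
      (fun _ _ _ _ _ _ => mem_univ _)
    obtain ⟨d, hd⟩ := sg hpp hinj (Tpl.path2_pat _ _ h2)
    exact ⟨d, M, h1, hd⟩
  · by_cases c2 : (G.bd A).card = 2
    · have c1 : ((G.bd A).erase e).card = 1 := by
        rw [card_erase_of_mem b.he, c2]
      obtain ⟨x, hx⟩ := card_eq_one.1 c1
      have mx : x ∈ (G.bd A).erase e := by rw [hx]; simp
      obtain ⟨x1, x2⟩ := mem_erase.1 mx
      have hbd : G.bd A = {e, x} := by
        rw [← insert_erase b.he, hx]
      have hinj : Function.Injective ![e, x] := by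
        intro i j hij
        fin_cases i <;> fin_cases j <;> simp_all
      have hpp : G.bd A = univ.image ![e, x] := by
        rw [hbd]
        ext d
        simp only [mem_insert, mem_singleton, mem_image, mem_univ, true_and]
        constructor
        · rintro (h1 | h1)
          · exact ⟨0, h1.symm⟩
          · exact ⟨1, h1.symm⟩
        · rintro ⟨i, rfl⟩
          fin_cases i
          · exact Or.inl rfl
          · exact Or.inr rfl
      obtain ⟨M, m, h1, h2⟩ := h.tplF b.oblkW Tpl.path3_reg Tpl.path3_tab rfl (by decide) rfl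
        Tpl.path3_noC hpp hinj (Or.inr (by omega)) (fun _ _ => mem_univ _)
        (fun _ _ _ _ _ _ => mem_univ _) (fun _ _ _ _ _ _ => mem_univ _)
      obtain ⟨d, hd⟩ := sg hpp hinj (Tpl.path3_pat _ _ h2)
      exact ⟨d, M, h1, hd⟩
    · exfalso
      have c1 : (G.bd A).card = 1 := by omega
      have h1 := b.bd_tok
      rw [c1] at h1
      have h2 := sum_sdiff b.hA (f := t)
      have h4 := h.tau
      have h5 : G.val one1 t A = 3 := by
        rw [val_one, c1]
        push_cast at h1 ⊢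
        linarith
      have h6 : A.card % 2 = 1 := by
        have h7 := card_sdiff_add_card_eq_card b.hA
        have h8 := Nat.odd_iff.1 b.odd
        have h9 := Nat.even_iff.1 h.even
        omega
      have h7 := h.odd A b.hA (Nat.odd_iff.2 h6) (by have := s.A3; omega)
      linarith

end MG

end RH
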