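import Pool.Agent.Lib.RH.TplI
import Pool.Agent.Lib.RH.A4
import Pool.Agent.Lib.RH.Pole

/-! # Template gadgets with 4 tokens

`EK.gadF`: the gadget state is an `E4`. `X6.tpl4`: the engine for states with 4 tokens (always
solvable). -/

set_option autoImplicit false

namespace RH

open Finset Classical

variable {nv ne np : ℕ}

namespace MG

variable {V D : Type*} {G : MG V D} {g : GD V D} {t tk : V → ℝ} {fr fr1 : Finset V} {F : Finset D}
variable {jm A W X S Ts : Finset V} {w : ℕ} {z : D → ℝ} {k : ℝ}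
variable {T : Tpl nv ne np} {pp : Fin np → D} {hh : Fin nv → V} {cc : Fin ne → Bool → D}
variable {n0 : ℕ} {s1 : Finset (Finset (Fin np))} {bE bO : Finset (Fin np) → ℕ} {M : Finset D}

/-- **the gadget state with 4 tokens** -/
theorem EK.gadF (h : EK G k t fr F jm) (hk : 2 < k) (ok : GOk G g) (hf : FOk G g fr F fr1)
    (he : Even (g.A.card + g.K.card))
    (tk0 : ∀ v ∈ g.K, 0 ≤ tk v) (kd : ∀ v ∈ g.K, gvk g one1 one1 tk {v} = 3)
    (h2 : gjm G g jm fr1 = ∅ ∨ (gjm G g jm fr1).card = 2)
    (ht : ∑ v ∈ g.A, t v + (((G.bd g.A).filter fun d => d ∉ g.P).card : ℝ) +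
      ∑ v ∈ g.K, tk v = 4)
    (ht2 : ∀ v ∈ g.A ∪ g.K, gt G g one1 t tk v ≤ 2)
    (k3 : ∀ X ⊆ g.A, ∀ Y ⊆ g.K, Odd (X.card + Y.card) →
      3 ≤ G.val one1 t X + gvk g one1 one1 tk Y - 2 * gpw G g one1 X Y)
    (ko : ∀ X ⊆ g.A, ∀ Y ⊆ g.K, Odd (X.card + Y.card) → X.card + Y.card ≠ 1 →
      X.card + Y.card + 1 ≠ g.A.card + g.K.card →
      5 ≤ G.val one1 t X + gvk g one1 one1 tk Y - 2 * gpw G g one1 X Y)
    (ke : ∀ X ⊆ g.A, ∀ Y ⊆ g.K, Even (X.card + Y.card) → (X.Nonempty ∨ Y.Nonempty) →
      (X ≠ g.A ∨ Y ≠ g.K) →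
      2 ≤ G.val one1 t X + gvk g one1 one1 tk Y - 2 * gpw G g one1 X Y ∧
      (4 ≤ G.val one1 t X + gvk g one1 one1 tk Y - 2 * gpw G g one1 X Y ∨
        (X = g.A ∧ ∀ v ∈ g.K, v ∉ Y → tk v = 2))) :
    E4 (MG.gad G g ok) (gt G g one1 t tk) fr1 (F.filter fun d => G.pi d ∈ fr1)
      (gjm G g jm fr1) := by
  have hg : gz g one1 one1 = (one1 : D → ℝ) := gz_one
  have hval : ∀ X ⊆ g.A, ∀ Y ⊆ g.K, (MG.gad G g ok).val one1 (gt G g one1 t tk) (X ∪ Y) =
      G.val one1 t X + gvk g one1 one1 tk Y - 2 * gpw G g one1 X Y := by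
    intro X hX Y hY
    have h3 := gad_val (t := t) ok h.wt.sym one1 tk hX hY
    rwa [hg] at h3
  have hsp : ∀ X ⊆ g.A ∪ g.K, X = (X ∩ g.A) ∪ (X ∩ g.K) ∧
      X.card = (X ∩ g.A).card + (X ∩ g.K).card := by
    intro X hX
    have h3 : X = (X ∩ g.A) ∪ (X ∩ g.K) := by
      rw [← inter_union_distrib_left, inter_eq_left.2 hX]
    have h4 : Disjoint (X ∩ g.A) (X ∩ g.K) := disjoint_left.2 fun v h3 h4 =>
      ok.dj _ (mem_inter.1 h4).2 (mem_inter.1 h3).2
    refine ⟨h3, ?_⟩
    rw [← card_union_of_disjoint h4, ← h3]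
  have hAK : (g.A ∪ g.K).card = g.A.card + g.K.card :=
    card_union_of_disjoint (disjoint_left.2 fun v h3 h4 => ok.dj _ h4 h3)
  have hw : (MG.gad G g ok).Wt one1 (gt G g one1 t tk) := by
    have h3 := gad_wt (ze := one1) ok h.wt (fun _ _ => zero_le_one) (fun _ _ => rfl) tk0 kd k3
    rwa [hg] at h3
  have hC := (h.toC6 hk).gad4 (by norm_num) ok hf he h2
  have hep : ∀ X ⊆ fr1, ∑ v ∈ X, gep G g (epi jm) v ≤ (X ∩ gjm G g jm fr1).card := by
    intro X hX
    calc ∑ v ∈ X, gep G g (epi jm) v ≤ ∑ v ∈ X, if v ∈ gjm G g jm fr1 then 1 else 0 :=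
          sum_le_sum fun v hv => gep_le h.fresh hf (h.toC6 hk).epj (hX hv)
      _ = (X ∩ gjm G g jm fr1).card := by
          rw [← sum_filter, filter_mem_eq_inter, ← card_eq_sum_ones]
  refine ⟨hC.even, ?_, h2, ?_, hw.t0, ht2, ?_, ?_, ?_, ?_, ?_, ?_⟩
  · have h3 := h.fresh.gad ok hf one1
    rwa [hg] at h3
  · intro v hv
    have h3 := hw.deg v hv
    rw [← h3]
    congr 1
    unfold one1
    rw [sum_const, nsmul_eq_mul, mul_one]
  · have h3 := gad_tau (t := t) ok one1 h.wt.sym tk
    have h4 : ∑ d ∈ (G.bd g.A).filter (fun d => d ∉ g.P), one1 d =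
        (((G.bd g.A).filter fun d => d ∉ g.P).card : ℝ) := by
      unfold one1
      rw [sum_const, nsmul_eq_mul, mul_one]
    rw [h3, h4]
    exact ht
  · intro X hX ho h1 hco
    obtain ⟨h3, h4⟩ := hsp X hX
    have hco' : X.card + 1 ≠ g.A.card + g.K.card := by
      intro h5
      apply hco
      have h6 := card_sdiff_add_card_eq_card (s := X) (t := g.A ∪ g.K) hX
      rw [hAK] at h6
      change ((g.A ∪ g.K) \ X).card = 1
      omega
    rw [h4] at ho h1 hco'
    rw [h3, hval _ inter_subset_right _ inter_subset_right]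
    exact ko _ inter_subset_right _ inter_subset_right ho h1 hco'
  · intro X hX hev hn h1
    obtain ⟨h3, h4⟩ := hsp X hX
    rw [h4] at hev
    rw [h3, hval _ inter_subset_right _ inter_subset_right]
    refine (ke _ inter_subset_right _ inter_subset_right hev ?_ ?_).1
    · rw [h3, union_nonempty] at hn
      exact hn
    · by_contra h5
      rw [not_or, not_not, not_not] at h5
      apply h1
      rw [h3, h5.1, h5.2]
      rfl
  · intro X hX hev hn h1 hlt v hv
    obtain ⟨h3, h4⟩ := hsp X hX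
    rw [h4] at hev
    rw [h3, hval _ inter_subset_right _ inter_subset_right] at hlt
    rcases (ke _ inter_subset_right _ inter_subset_right hev (by
      rw [h3, union_nonempty] at hn
      exact hn) (by
      by_contra h5
      rw [not_or, not_not, not_not] at h5
      apply h1
      rw [h3, h5.1, h5.2]
      rfl)).2 with h5 | ⟨h5, h6⟩
    · linarith
    · obtain ⟨h7, h8⟩ := mem_sdiff.1 hv
      have h9 : v ∉ g.A := fun k1 => h8 (by
        rw [← h5] at k1
        exact (mem_inter.1 k1).1)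
      have h10 : v ∈ g.K := (mem_union.1 h7).resolve_left h9
      change gt G g one1 t tk v = 2
      unfold gt
      rw [if_pos h10]
      exact h6 v h10 fun k1 => h8 (mem_inter.1 k1).1
  · intro X hX ho
    have h3 := hC.cc X hX ho
    have h4 := hep X hX.sub
    omega
  · intro X hX hev hn
    have h3 := hC.ev X hX hev hn
    have h4 := hep X hX.sub
    omega

/-- value of the pair (subset of `A`, set of gadget vertices) -/
private theorem valXS (kk : TOk G A T pp hh cc) (X : Finset V) (Y : Finset (Fin nv)) (n : ℕ)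
    (h : G.val one1 t X = n) (m : ℕ) (hm : m + 2 * T.nQ Y (TOk.kap G pp X) ≤ T.val Y + n) :
    (m : ℝ) ≤ G.val one1 t X + gvk (tg G A T pp hh cc) one1 one1 (TOk.tkv T hh) (Y.image hh) -
      2 * gpw G (tg G A T pp hh cc) one1 X (Y.image hh) := by
  rw [kk.gvkS, kk.gpwS, h]
  have h1 : (m : ℝ) + 2 * T.nQ Y (TOk.kap G pp X) ≤ T.val Y + n := by exact_mod_cast hm
  linarith

/-- **THE ENGINE, 4 TOKENS**: always solvable -/
theorem X6.tpl4 [Infinite V] [Infinite D] (h : X6 G t fr F jm) (hA : A ⊆ G.vs)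
    (hne : (G.vs \ A).Nonempty) {T : Tpl nv ne np} (hreg : T.Reg) (hT : T.TabF w n0 s1 bE bO)
    {pp : Fin np → D} (hpb : ∀ i, pp i ∈ G.bd A) (hpi : Function.Injective pp)
    (hf : TOk.TFact G t A pp w n0 s1 bE bO) (hev : Even (A.card + nv))
    (ht : ∑ v ∈ A, t v + (((G.bd A).filter fun d => ∀ i, pp i ≠ d).card : ℝ) +
      T.nT univ = 4)
    (ht2 : ∀ v ∈ A, t v + (((G.bd A).filter fun d => (∀ i, pp i ≠ d) ∧ G.pi d = v).card : ℝ) ≤ 2)
    (htk : ∀ v, T.tk v ≤ 2)
    (h2 : Ts = ∅ ∨ Ts.card = 2) (hTs : ∀ v ∈ Ts, v ∈ jm ∨ ∃ d, Drop G A pp d ∧ G.pi d = v)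
    (hsm : (fr ∩ A).card < fr.card ∨ A.card + nv < G.vs.card) :
    ∃ M m, TSol G fr F jm A pp Ts M ∧ T.IsPat m (univ.filter fun i => pp i ∈ M) := by
  obtain ⟨hh, cc, k, hcc, hhn⟩ := exists_tok hreg hA hpb hpi
  have hE := h.toEK
  have hTs' : ∀ v ∈ Ts, v ∈ jm ∨ (gdp G (tg G A T pp hh cc) v).Nonempty := by
    intro v hv
    rcases hTs v hv with h1 | ⟨d, h1, h3⟩
    · exact Or.inl h1
    · exact Or.inr ⟨d, mem_gdp_tg.2 ⟨h1, h3⟩⟩
  obtain ⟨fr1, f1, f2⟩ := exists_starG G (tg G A T pp hh cc) fr F jm Ts hTs' h2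
  have f3 : gjm G (tg G A T pp hh cc) jm fr1 = ∅ ∨
      (gjm G (tg G A T pp hh cc) jm fr1).card = 2 := by
    rcases f2 with ⟨f2, -⟩ | ⟨f2, -⟩
    · rw [f2]
      exact h2
    · exact Or.inl f2
  have hKc : (tg G A T pp hh cc).K.card = nv := by
    change (univ.image hh).card = nv
    rw [card_image_of_injective _ k.hinj, card_univ, Fintype.card_fin]
  have hodd : ∀ X ⊆ A, Odd X.card → X.card ≠ 1 → 5 ≤ G.val one1 t X := fun X hX =>
    h.odd X (hX.trans hA)
  have hodd3 : ∀ X ⊆ A, Odd X.card → 3 ≤ G.val one1 t X := by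
    intro X hX ho
    by_cases h1 : X.card = 1
    · obtain ⟨v, rfl⟩ := card_eq_one.1 h1
      rw [h.wt.val_single (hA (hX (mem_singleton_self v)))]
    · have := hodd X hX ho h1
      linarith
  have hevn : ∀ X ⊆ A, Even X.card → X.Nonempty → 4 ≤ G.val one1 t X := by
    intro X hX he hXn
    refine h.evn X (hX.trans hA) he hXn fun e => ?_
    obtain ⟨v, hv⟩ := hne
    exact (mem_sdiff.1 hv).2 (hX (e ▸ (mem_sdiff.1 hv).1))
  have hST : ∀ {S : Finset (Fin nv)}, (S.image hh).card = S.card := fun {S} =>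
    card_image_of_injective _ k.hinj
  -- the three tables
  have key : ∀ X ⊆ A, ∀ S : Finset (Fin nv), (X.Nonempty ∨ S ≠ ∅) → (X ≠ A ∨ S ≠ univ) →
      ((X.card + S.card) % 2 = 1 → 3 ≤ G.val one1 t X +
          gvk (tg G A T pp hh cc) one1 one1 (TOk.tkv T hh) (S.image hh) -
          2 * gpw G (tg G A T pp hh cc) one1 X (S.image hh) ∧
        (X.card + S.card ≠ 1 → X.card + S.card + 1 ≠ A.card + nv → 5 ≤ G.val one1 t X +
          gvk (tg G A T pp hh cc) one1 one1 (TOk.tkv T hh) (S.image hh) -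
          2 * gpw G (tg G A T pp hh cc) one1 X (S.image hh))) ∧
      ((X.card + S.card) % 2 = 0 → 2 ≤ G.val one1 t X +
          gvk (tg G A T pp hh cc) one1 one1 (TOk.tkv T hh) (S.image hh) -
          2 * gpw G (tg G A T pp hh cc) one1 X (S.image hh) ∧
        (4 ≤ G.val one1 t X +
          gvk (tg G A T pp hh cc) one1 one1 (TOk.tkv T hh) (S.image hh) -
          2 * gpw G (tg G A T pp hh cc) one1 X (S.image hh) ∨
          (X = A ∧ ∀ v, v ∉ S → T.tk v = 2))) := by
    intro X hX S hn hne'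
    by_cases hS : S = ∅
    · have hXn : X.Nonempty := hn.resolve_right fun k1 => k1 hS
      have e0 : G.val one1 t X + gvk (tg G A T pp hh cc) one1 one1 (TOk.tkv T hh) (S.image hh) -
          2 * gpw G (tg G A T pp hh cc) one1 X (S.image hh) = G.val one1 t X := by
        rw [k.gvkS, k.gpwS, hS]
        have h3 : T.val ∅ = 0 := by
          unfold Tpl.val Tpl.nP Tpl.cut Tpl.nT
          simp
        have h4 : T.nQ ∅ (TOk.kap G pp X) = 0 := by
          unfold Tpl.nQ
          simp
        rw [h3, h4]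
        push_cast
        ring
      rw [e0, hS, card_empty, add_zero]
      refine ⟨fun ho => ⟨hodd3 X hX (Nat.odd_iff.2 ho), fun h1 _ =>
        hodd X hX (Nat.odd_iff.2 ho) h1⟩, fun he => ?_⟩
      have h4 := hevn X hX (Nat.even_iff.2 he) hXn
      exact ⟨by linarith, Or.inl h4⟩
    · by_cases hX0 : X = ∅
      · have e0 : G.val one1 t X + gvk (tg G A T pp hh cc) one1 one1 (TOk.tkv T hh) (S.image hh) -
            2 * gpw G (tg G A T pp hh cc) one1 X (S.image hh) = T.val S := by
          have h3 : TOk.kap G pp X = ∅ := by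
            rw [hX0]
            unfold TOk.kap
            simp
          rw [k.gvkS, k.gpwS, h3, T.nQ_empty, hX0, val_empty']
          push_cast
          ring
        rw [e0, hX0, card_empty, zero_add]
        refine ⟨fun ho => ⟨?_, fun h1 _ => ?_⟩, fun he => ?_⟩
        · by_cases h1 : S.card = 1
          · obtain ⟨i, hi⟩ := card_eq_one.1 h1
            rw [hi, hreg.2 i]
            norm_num
          · have h3 := (hT.t0 S).1 ho h1
            have h4 : (5 : ℝ) ≤ T.val S := by exact_mod_cast h3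
            linarith
        · have h3 := (hT.t0 S).1 ho h1
          exact_mod_cast h3
        · have h3 := (hT.t0 S).2 he hS
          have h4 : (4 : ℝ) ≤ T.val S := by exact_mod_cast h3
          exact ⟨by linarith, Or.inl h4⟩
      · have hXn : X.Nonempty := nonempty_iff_ne_empty.2 hX0
        by_cases hXA : X = A
        · have hSu : S ≠ univ := hne'.resolve_left fun k1 => k1 hXA
          have h3 := hT.t4 S hSu hS
          have h4 : (X.card + S.card) % 2 = (S.card + w) % 2 := by
            have := hf.par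
            rw [hXA]
            omega
          have hvA : G.val one1 t X = n0 := by rw [hXA, hf.all]
          have hq : T.nQ S (TOk.kap G pp X) = T.nP S := by rw [hXA, k.kapA, T.nQ_univ]
          have hv := fun m hm => valXS (t := t) k X S n0 hvA m (by rw [hq]; exact hm)
          have hc := card_compl S
          rw [Fintype.card_fin] at hc
          have hSc : S.card ≤ nv := by
            have := card_le_univ S
            rwa [Fintype.card_fin] at this
          refine ⟨fun ho => ?_, fun he => ?_⟩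
          · rw [h4] at ho
            rw [if_pos ho] at h3
            by_cases h5 : Sᶜ.card = 1
            · rw [if_pos h5] at h3
              have h6 := hv 3 h3
              refine ⟨by exact_mod_cast h6, fun _ h7 => ?_⟩
              exfalso
              apply h7
              rw [hXA]
              omega
            · rw [if_neg h5] at h3
              have h6 := hv 5 h3
              push_cast at h6
              exact ⟨by linarith, fun _ _ => h6⟩
          · rw [h4] at he
            rw [if_neg (by omega)] at h3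
            have h6 := hv 2 h3.1
            push_cast at h6
            refine ⟨h6, ?_⟩
            rcases h3.2 with h7 | h7
            · have h8 := hv 4 h7
              push_cast at h8
              exact Or.inl h8
            · exact Or.inr ⟨hXA, h7⟩
        · obtain ⟨n, h3, h4⟩ := k.mainN hT.t1 hT.t2 hT.t3 hf h.wt hX hXn hS hXA
          refine ⟨fun ho => ?_, fun he => ?_⟩
          · rw [if_pos ho] at h4
            have h5 := valXS (t := t) k X S n h3 5 h4
            push_cast at h5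
            exact ⟨by linarith, fun _ _ => h5⟩
          · rw [if_neg (by omega)] at h4
            have h5 := valXS (t := t) k X S n h3 4 h4
            push_cast at h5
            exact ⟨by linarith, Or.inl h5⟩
  have key' : ∀ X ⊆ (tg G A T pp hh cc).A, ∀ Y ⊆ (tg G A T pp hh cc).K,
      ∃ S : Finset (Fin nv), Y = S.image hh ∧ Y.card = S.card ∧
        (Y = (tg G A T pp hh cc).K ↔ S = univ) := by
    intro X _ Y hY
    obtain ⟨S, h3, h4⟩ := TOk.exS k.hinj hY
    refine ⟨S, h3, h4, fun h5 => ?_, fun h5 => ?_⟩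
    · rw [← card_eq_iff_eq_univ, Fintype.card_fin, ← h4, h5, hKc]
    · rw [h3, h5]
      rfl
  have e1 : (G.bd (tg G A T pp hh cc).A).filter (fun d => d ∉ (tg G A T pp hh cc).P) =
      (G.bd A).filter fun d => ∀ i, pp i ≠ d := by
    refine filter_congr fun d _ => ?_
    rw [TOk.mem_P, not_exists]
  have e2 : ∑ v ∈ (tg G A T pp hh cc).K, TOk.tkv T hh v = (T.nT univ : ℝ) := by
    change ∑ v ∈ univ.image hh, _ = _
    rw [sum_image fun i _ j _ hij => k.hinj hij]
    unfold Tpl.nT
    push_cast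
    exact sum_congr rfl fun i _ => k.tkv_h i
  have hE4 : E4 (MG.gad G (tg G A T pp hh cc) k.gok)
      (gt G (tg G A T pp hh cc) one1 t (TOk.tkv T hh)) fr1 (F.filter fun d => G.pi d ∈ fr1)
      (gjm G (tg G A T pp hh cc) jm fr1) := by
    refine hE.gadF (by norm_num) k.gok f1 (by rw [hKc]; exact hev) (fun v _ => TOk.tkv_nn v)
      k.kd f3 ?_ ?_ ?_ ?_ ?_
    · rw [e1, e2]
      exact ht
    · intro v hv
      rcases mem_union.1 hv with h1 | h1
      · have h3 : v ∉ (tg G A T pp hh cc).K := fun k1 => k.gok.dj v k1 h1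
        unfold gt
        rw [if_neg h3]
        have h4 : ∑ d ∈ gdp G (tg G A T pp hh cc) v, one1 d =
            (((G.bd A).filter fun d => (∀ i, pp i ≠ d) ∧ G.pi d = v).card : ℝ) := by
          unfold one1
          rw [sum_const, nsmul_eq_mul, mul_one]
          congr 2
          ext d
          rw [mem_gdp_tg, mem_filter]
          exact ⟨fun k1 => ⟨k1.1.1, k1.1.2, k1.2⟩, fun k1 => ⟨⟨k1.1, k1.2.1⟩, k1.2.2⟩⟩
        rw [h4]
        exact ht2 v h1
      · unfold gt
        rw [if_pos h1]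
        obtain ⟨i, rfl⟩ := TOk.mem_K.1 h1
        rw [k.tkv_h]
        exact_mod_cast htk i
    · intro X hX Y hY ho
      obtain ⟨S, rfl, h4, h5⟩ := key' X hX Y hY
      rw [h4] at ho
      refine ((key X hX S ?_ ?_).1 (Nat.odd_iff.1 ho)).1
      · by_contra h6
        rw [not_or, not_nonempty_iff_eq_empty, not_not] at h6
        rw [h6.1, h6.2, card_empty, card_empty] at ho
        exact absurd ho (by decide)
      · by_contra h6
        rw [not_or, not_not, not_not] at h6
        rw [h6.1, h6.2, card_univ, Fintype.card_fin] at ho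
        exact (Nat.not_even_iff_odd.2 ho) hev
    · intro X hX Y hY ho h1 h1'
      obtain ⟨S, rfl, h4, h5⟩ := key' X hX Y hY
      rw [h4] at ho h1
      rw [h4, hKc] at h1'
      refine ((key X hX S ?_ ?_).1 (Nat.odd_iff.1 ho)).2 h1 h1'
      · by_contra h6
        rw [not_or, not_nonempty_iff_eq_empty, not_not] at h6
        rw [h6.1, h6.2, card_empty, card_empty] at ho
        exact absurd ho (by decide)
      · by_contra h6
        rw [not_or, not_not, not_not] at h6
        rw [h6.1, h6.2, card_univ, Fintype.card_fin] at ho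
        exact (Nat.not_even_iff_odd.2 ho) hev
    · intro X hX Y hY he hn hne'
      obtain ⟨S, rfl, h4, h5⟩ := key' X hX Y hY
      rw [h4] at he
      have h6 := (key X hX S (by
        rcases hn with hn | hn
        · exact Or.inl hn
        · right
          rintro rfl
          rw [image_empty] at hn
          exact not_nonempty_empty hn) (by
        rcases hne' with h7 | h7
        · exact Or.inl h7
        · exact Or.inr fun k1 => h7 (h5.2 k1))).2 (Nat.even_iff.1 he)
      refine ⟨h6.1, ?_⟩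
      rcases h6.2 with h7 | ⟨h7, h8⟩
      · exact Or.inl h7
      · refine Or.inr ⟨h7, fun v hv hvS => ?_⟩
        obtain ⟨i, rfl⟩ := TOk.mem_K.1 hv
        rw [k.tkv_h, h8 i fun k1 => hvS (mem_image_of_mem _ k1)]
        norm_num
  have hsm' : fr1.card < fr.card ∨ (fr1.card = fr.card ∧
      (MG.gad G (tg G A T pp hh cc) k.gok).vs.card < G.vs.card) := by
    have h1 : fr1.card ≤ (fr ∩ A).card := card_le_card (subset_inter f1.sub f1.inA)
    have h2 : (fr ∩ A).card ≤ fr.card := card_le_card inter_subset_left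
    rcases hsm with h3 | h3
    · left
      omega
    · by_cases h4 : fr1.card = fr.card
      · right
        refine ⟨h4, ?_⟩
        change (A ∪ (tg G A T pp hh cc).K).card < _
        have h5 := card_union_le A (tg G A T pp hh cc).K
        omega
      · left
        omega
  obtain ⟨M, hM⟩ := h.solve4 hsm' hE4
  refine ⟨G.resM A M, univ.filter fun i => cc i false ∈ M, hE.tsol k h2 hTs' f1 f2 hM, ?_⟩
  have h1 := k.pat hM.pm
  have h2 : (univ.filter fun i => pp i ∈ G.resM A M) = univ.filter fun i => pp i ∈ M := by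
    refine filter_congr fun i _ => ?_
    rw [mem_resM]
    constructor
    · exact fun k2 => k2.1
    · intro k2
      have k3 := mem_bd.1 (k.p_bd i)
      exact ⟨k2, k3.1, k3.2.1⟩
  rw [h2]
  exact h1

/-- in an even set of value 4 with at least four vertices every vertex has at most one token or
exit -/
theorem IBlk.vtx (b : IBlk G t A 0) (h : EK G k t fr F jm) (h4 : 4 ≤ A.card) {v : V}
    (hv : v ∈ A) : t v + (((G.bd A).filter fun d => G.pi d = v).card : ℝ) ≤ 1 := by
  have h1 := h.wt.val_erase b.hA hv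
  have h2 := card_erase_of_mem hv
  have h3 := b.par
  have h5 := h.odd (A.erase v) ((erase_subset _ _).trans b.hA) (by rw [Nat.odd_iff]; omega)
    (by omega)
  have h6 : ∑ d ∈ G.ed {v} (G.vs \ A), one1 d = (((G.bd A).filter fun d => G.pi d = v).card : ℝ) := by
    unfold one1
    rw [sum_const, nsmul_eq_mul, mul_one]
    congr 2
    ext d
    rw [mem_ed, mem_singleton, mem_sdiff, mem_filter, mem_bd]
    constructor
    · rintro ⟨k1, k2, k3, k4⟩
      exact ⟨⟨k1, by rw [k2]; exact hv, k4⟩, k2⟩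
    · rintro ⟨⟨k1, k2, k3⟩, k4⟩
      exact ⟨k1, k4, G.pi_mem _ (G.al_mem _ k1), k3⟩
  rw [h6, b.val] at h1
  push_cast at h1
  linarith

/-- the ports at a vertex of such a set -/
theorem IBlk.one1 (b : IBlk G t A 0) (h : EK G k t fr F jm) (h4 : 4 ≤ A.card)
    {pp : Fin np → D} (hpb : ∀ i, pp i ∈ G.bd A) (hpi : Function.Injective pp) {v : V}
    (hv : v ∈ A) : TOk.kap G pp {v} ∈ Tpl.one1S np := by
  have h1 := b.vtx h h4 hv
  have h2 := kap_le hpb hpi {v}
  have h3 : qx G A {v} = ((G.bd A).filter fun d => G.pi d = v).card := by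
    unfold qx
    congr 1
    refine filter_congr fun d _ => ?_
    rw [mem_singleton]
  have h4 := h.t0 v (b.hA hv)
  have h5 : (((G.bd A).filter fun d => G.pi d = v).card : ℝ) ≤ (1 : ℕ) := by
    push_cast
    linarith
  have h6 : ((G.bd A).filter fun d => G.pi d = v).card ≤ 1 := by exact_mod_cast h5
  unfold Tpl.one1S
  rw [mem_filter]
  exact ⟨mem_univ _, by omega⟩

/-- **inner gadget states with 4 tokens** -/
theorem X6.tplI4 [Infinite V] [Infinite D] (h : X6 G t fr F jm) (b : IBlk G t A w)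
    {T : Tpl nv ne np} {e4 o5 : Finset (Finset (Fin np))} (hreg : T.Reg)
    (hT : T.TabF w (4 + w) s1 (Tpl.iE e4) (Tpl.iO o5))
    (hk : T.nT univ + w = np) (hnv : nv % 2 = w)
    {pp : Fin np → D} (hpb : ∀ i, pp i ∈ G.bd A) (hpi : Function.Injective pp)
    (hsm : (fr ∩ A).card < fr.card ∨ nv < (G.vs \ A).card)
    (ht2 : ∀ v ∈ A, t v + (((G.bd A).filter fun d => G.pi d = v).card : ℝ) ≤ 2)
    (htk : ∀ v, T.tk v ≤ 2)
    (h2 : Ts = ∅ ∨ Ts.card = 2) (hTs : ∀ v ∈ Ts, v ∈ jm ∨ ∃ d, Drop G A pp d ∧ G.pi d = v)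
    (c1 : ∀ v ∈ A, TOk.kap G pp {v} ∈ s1)
    (c4 : ∀ X ⊆ A, Even X.card → X.Nonempty → X ≠ A → G.val one1 t X = 4 → TOk.kap G pp X ∈ e4)
    (c5 : ∀ X ⊆ A, Odd X.card → X.card ≠ 1 → X ≠ A → G.val one1 t X = 5 →
      TOk.kap G pp X ∈ o5) :
    ∃ M m, TSol G fr F jm A pp Ts M ∧ T.IsPat m (univ.filter fun i => pp i ∈ M) := by
  have hE := h.toEK
  have hf := b.fact (pp := pp) hE c1 c4 c5
  have hev : Even (A.card + nv) := by
    have h1 := b.par
    rw [Nat.even_iff]
    omega
  have ht : ∑ v ∈ A, t v + (((G.bd A).filter fun d => ∀ i, pp i ≠ d).card : ℝ) +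
      T.nT univ = 4 := by
    have h1 := b.val
    rw [val_one] at h1
    have h3 := drop_card hpb hpi
    have h3' : ((((G.bd A).filter fun d => ∀ i, pp i ≠ d).card : ℕ) : ℝ) + np =
        ((G.bd A).card : ℕ) := by exact_mod_cast h3
    have e4 : (T.nT univ : ℝ) + w = np := by exact_mod_cast hk
    linarith
  have hsm' : (fr ∩ A).card < fr.card ∨ A.card + nv < G.vs.card := by
    rcases hsm with h1 | h1
    · exact Or.inl h1
    · right
      have := card_sdiff_add_card_eq_card b.hA
      omega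
  refine h.tpl4 b.hA b.ne hreg hT hpb hpi hf hev ht (fun v hv => ?_) htk h2 hTs hsm'
  refine le_trans ?_ (ht2 v hv)
  have h4 : ((G.bd A).filter fun d => (∀ i, pp i ≠ d) ∧ G.pi d = v).card ≤
      ((G.bd A).filter fun d => G.pi d = v).card :=
    card_le_card fun d hd => mem_filter.2 ⟨(mem_filter.1 hd).1, (mem_filter.1 hd).2.2⟩
  have h5 : ((((G.bd A).filter fun d => (∀ i, pp i ≠ d) ∧ G.pi d = v).card : ℕ) : ℝ) ≤
      ((G.bd A).filter fun d => G.pi d = v).card := by exact_mod_cast h4
  linarith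

end MG

end RH
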