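import Pool.Agent.Lib.RH.CE6SetG
import Pool.Agent.Lib.RH.Tpl4

/-! `Lam` in the exceptional case: an odd set `X` of value 5 with the ends of `p`, `q`, `e` and two
vertices in `A - X`. Direct solution by a state with 4 tokens. `X6.lamB`: `Lam` in all cases. -/

set_option autoImplicit false

namespace RH

open Finset Classical

namespace Tpl

/-- `w1(0, 1) - w2(2, token)`, `beta(3)` -/
def lamd : Tpl 3 1 4 where
  a := ![0]
  b := ![1]
  pt := ![0, 0, 1, 2]
  tk := ![0, 1, 2]

theorem lamd_reg : lamd.Reg := by decide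

theorem lamd_tab : lamd.TabF 1 5
    (univ.filter fun κ => ¬ (0 ∈ κ ∧ 1 ∈ κ) ∧ ¬ (0 ∈ κ ∧ 2 ∈ κ) ∧ ¬ (1 ∈ κ ∧ 2 ∈ κ))
    (iE (univ.filter fun κ => ¬ (0 ∈ κ ∧ 1 ∈ κ)))
    (iO (univ.filter fun κ => ¬ (0 ∈ κ ∧ 1 ∈ κ ∧ 2 ∈ κ))) where
  t0 := by decide +kernel
  t1 := by decide +kernel
  t2 := by decide +kernel
  t3 := by decide +kernel
  t4 := by decide +kernel

theorem lamd_pat : ∀ m κ, lamd.IsPat m κ → κ = {3} ∨ κ = {0, 2, 3} ∨ κ = {1, 2, 3} := by
  decide +kernel

theorem al_tab4 : al.TabF 1 5 (univ.filter fun κ => ¬ (0 ∈ κ ∧ 1 ∈ κ))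
    (iE (univ.filter fun κ => ¬ (0 ∈ κ ∧ 1 ∈ κ))) (iO univ) where
  t0 := by decide +kernel
  t1 := by decide +kernel
  t2 := by decide +kernel
  t3 := by decide +kernel
  t4 := by decide +kernel

end Tpl

namespace MG

variable {V D : Type*} {G : MG V D} {t : V → ℝ} {fr : Finset V} {F M E : Finset D}
variable {jm A X Y : Finset V} {e d d' c c' : D} {k : ℝ} {np : ℕ} {pp : Fin np → D}

/-- extension of a half by vertices which are not fresh -/
theorem GHalf.ext (h : G.GHalf one1 fr F jm X M) (hXA : X ⊆ A) (hn : ∀ v ∈ A \ X, v ∉ fr)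
    (hE : ∀ d ∈ E, d ∈ G.ds ∧ G.pi d ∈ A \ X)
    (h1 : ∀ v ∈ A \ X, (E.filter fun d => G.pi d = v).card = 1)
    (hc : ∀ d ∈ M ∪ E, G.pi (G.al d) ∈ A → G.al d ∈ M ∪ E) :
    G.GHalf one1 fr F jm A (M ∪ E) where
  hm := by
    refine ⟨fun d hd => ?_, hc, fun v hv => ?_⟩
    · rcases mem_union.1 hd with hd | hd
      · exact ⟨(h.hm.sub d hd).1, hXA (h.hm.sub d hd).2⟩
      · exact ⟨(hE d hd).1, (mem_sdiff.1 (hE d hd).2).1⟩
    · by_cases hvX : v ∈ X
      · rw [← h.hm.one v hvX]
        congr 1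
        ext d
        rw [mem_filter, mem_filter, mem_union]
        constructor
        · rintro ⟨h2 | h2, h3⟩
          · exact ⟨h2, h3⟩
          · exact absurd (h3 ▸ hvX) (mem_sdiff.1 (hE d h2).2).2
        · rintro ⟨h2, h3⟩
          exact ⟨Or.inl h2, h3⟩
      · rw [← h1 v (mem_sdiff.2 ⟨hv, hvX⟩)]
        congr 1
        ext d
        rw [mem_filter, mem_filter, mem_union]
        constructor
        · rintro ⟨h2 | h2, h3⟩
          · exact absurd (h3 ▸ (h.hm.sub d h2).2) hvX
          · exact ⟨h2, h3⟩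
        · rintro ⟨h2, h3⟩
          exact ⟨Or.inr h2, h3⟩
  pos := fun _ _ => one_pos
  ok := by
    intro Y hY hYA hcl
    have hYX : Y ⊆ X := by
      intro v hv
      by_contra hvX
      exact hn v (mem_sdiff.2 ⟨hYA hv, hvX⟩) (hY.sub hv)
    refine h.ok Y hY hYX fun d hd => ?_
    rcases mem_union.1 (hcl d hd) with h2 | h2
    · exact h2
    · exact absurd (hYX (mem_bd.1 hd).2.1) (mem_sdiff.1 (hE d h2).2).2

/-- at most two tokens at a vertex -/
theorem EK.t_le_two (h : EK G 6 t fr F jm) (h4 : 4 ≤ G.vs.card) {v : V} (hv : v ∈ G.vs) :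
    t v ≤ 2 := by
  have hs : ({v} : Finset V) ⊆ G.vs := singleton_subset_iff.2 hv
  have h1 := h.wt.val_compl hs
  rw [h.wt.val_single hv, sum_singleton, h.tau] at h1
  have h2 : (G.vs \ {v}).card = G.vs.card - 1 := by
    rw [card_sdiff_of_subset hs, card_singleton]
  have h3 := Nat.even_iff.1 h.even
  have h5 := h.odd (G.vs \ {v}) sdiff_subset (by rw [Nat.odd_iff]; omega) (by omega)
  linarith

/-- a vertex with two tokens has one dart -/
theorem EK.st_two (h : EK G k t fr F jm) {v : V} (hv : v ∈ G.vs) (h2 : t v = 2) :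
    (G.st v).card = 1 := by
  have h1 := h.st_card hv (n := 2) (by rw [h2]; norm_num)
  omega

/-- a vertex with two tokens is not fresh -/
theorem EK.two_nf (h : EK G k t fr F jm) {v : V} (h2 : t v = 2) : v ∉ fr := by
  intro hv
  have h1 := h.tok_fr hv
  rw [h2] at h1
  split_ifs at h1 <;> norm_num at h1

namespace BW

variable (b : BW G t F A e)
include b

/-- **(d)**: the structure of an odd set of value 5 with the ends of `p`, `q`, `e` -/
theorem five (h : EK G 6 t fr F jm) (hE : NoE G t fr F) (hy : ∃ y ∈ G.vs \ A, y ∉ fr ∧ 1 ≤ t y)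
    (hT : ∑ v ∈ G.vs \ A, t v = 1) {p q u : D} (hbd : G.bd A = {p, q, u, e})
    (pq : p ≠ q) (pu : p ≠ u) (pe : p ≠ e) (qu : q ≠ u) (qe : q ≠ e) (ue : u ≠ e)
    (hX : X ⊆ A) (ho : Odd X.card) (xp : G.pi p ∈ X) (xq : G.pi q ∈ X) (xe : G.pi e ∈ X)
    (v5 : G.val one1 t X = 5) :
    G.pi u ∉ X ∧ ∃ z, z ≠ G.pi u ∧ A \ X = {G.pi u, z} ∧ G.pi u ∉ fr ∧ z ∉ fr ∧
      ((∃ g, G.bd X = {p, q, e, g} ∧ p ≠ g ∧ q ≠ g ∧ e ≠ g ∧ G.st (G.pi u) = {u} ∧
          G.st z = {G.al g} ∧ ∑ v ∈ X, t v = 1) ∨
        ∃ j, G.bd X = {p, q, e} ∧ G.st (G.pi u) = {u, j} ∧ u ≠ j ∧ G.st z = {G.al j} ∧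
          ∑ v ∈ X, t v = 2) := by
  have mp : p ∈ G.bd A := by rw [hbd]; simp
  have mq : q ∈ G.bd A := by rw [hbd]; simp
  have mu : u ∈ G.bd A := by rw [hbd]; simp
  have me := b.he
  have hXv := hX.trans b.hA
  have hvc : 4 ≤ G.vs.card := by
    have h1 := card_sdiff_add_card_eq_card b.hA
    have h2 := b.big
    have h3 : 0 < A.card := card_pos.2 ⟨_, hX xp⟩
    omega
  -- the value of A
  have hvA : G.val one1 t A = 9 := by
    have h1 := h.wt.val_compl (sdiff_subset : G.vs \ A ⊆ G.vs)
    rw [Finset.sdiff_sdiff_eq_self b.hA, b.val, h.tau, hT] at h1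
    linarith
  have hXA : X ≠ A := by
    intro h1
    rw [h1, hvA] at v5
    norm_num at v5
  have hq3 := qx_three mp mq me pq pe qe xp xq xe
  have hq3' : ((3 : ℕ) : ℝ) ≤ qx G A X := by exact_mod_cast hq3
  push_cast at hq3'
  have hj := b.join h hX
  rw [v5] at hj
  have hYv : X ∪ (G.vs \ A) ⊆ G.vs := union_subset hXv sdiff_subset
  have hYc := jcard (G := G) hX
  have hYe : Even (X ∪ (G.vs \ A)).card := by
    rw [hYc]
    exact ho.add_odd b.odd
  have hcomp := b.jcomp hX
  have hZn : (A \ X).Nonempty := by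
    rw [nonempty_iff_ne_empty]
    exact fun h1 => hXA (subset_antisymm hX (sdiff_eq_empty_iff_subset.1 h1))
  have hYne : X ∪ (G.vs \ A) ≠ G.vs := by
    intro h1
    rw [h1, Finset.sdiff_self] at hcomp
    rw [← hcomp] at hZn
    exact not_nonempty_empty hZn
  have hY4 := h.evn _ hYv hYe (card_pos.1 (by have := b.big; omega)) hYne
  have hqx : (qx G A X : ℝ) = 3 := by linarith
  have hqn : qx G A X = 3 := by exact_mod_cast hqx
  have hvY : G.val one1 t (X ∪ (G.vs \ A)) = 4 := by
    rw [hj, hqx]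
    norm_num
  have hu : G.pi u ∉ X := by
    intro h1
    have h2 : ∀ d ∈ G.bd A, G.pi d ∈ X := by
      intro d hd
      rw [hbd] at hd
      simp only [mem_insert, mem_singleton] at hd
      rcases hd with rfl | rfl | rfl | rfl
      · exact xp
      · exact xq
      · exact h1
      · exact xe
    have h3 : qx G A X = (G.bd A).card := by
      unfold qx
      rw [filter_true_of_mem h2]
    rw [hqn, b.four hT] at h3
    omega
  -- two vertices
  have hZc := card_sdiff_add_card_eq_card hX
  have hAo := Nat.odd_iff.1 (b.oddA h)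
  have ho' := Nat.odd_iff.1 ho
  have hZ2 : (A \ X).card = 2 := by
    by_contra h1
    have h2 : 0 < (A \ X).card := card_pos.2 hZn
    have h3 := b.joinE h hE hy hX ho (by omega) (Or.inr ⟨u, mu, hu⟩)
    linarith
  have huZ : G.pi u ∈ A \ X := mem_sdiff.2 ⟨(mem_bd.1 mu).2.1, hu⟩
  obtain ⟨z, hz⟩ : ∃ z, (A \ X).erase (G.pi u) = {z} := by
    rw [← card_eq_one, card_erase_of_mem huZ, hZ2]
  have hzZ : z ∈ (A \ X).erase (G.pi u) := by rw [hz]; exact mem_singleton_self z
  obtain ⟨hzu, hzZ'⟩ := mem_erase.1 hzZ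
  have hAX : A \ X = {G.pi u, z} := by rw [← insert_erase huZ, hz]
  obtain ⟨hzA, hzX⟩ := mem_sdiff.1 hzZ'
  have uv : G.pi u ∈ G.vs := b.hA (mem_bd.1 mu).2.1
  have zv : z ∈ G.vs := b.hA hzA
  -- tokens
  have tsum : ∑ v ∈ A \ X, t v = t (G.pi u) + t z := by
    rw [hAX, sum_insert, sum_singleton]
    rw [mem_singleton]
    exact hzu.symm
  have tA : ∑ v ∈ A, t v = 5 := by
    have h1 := sum_sdiff b.hA (f := t)
    rw [hT, h.tau] at h1
    linarith
  have tX : ∑ v ∈ X, t v = 5 - (t (G.pi u) + t z) := by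
    have h1 := sum_sdiff hX (f := t)
    rw [tsum, tA] at h1
    linarith
  have hvZ : G.val one1 t (A \ X) = 2 * (t (G.pi u) + t z) - 2 := by
    have h1 := h.wt.val_compl hYv
    have h2 : ∑ v ∈ X ∪ (G.vs \ A), t v = 6 - (t (G.pi u) + t z) := by
      rw [sum_union (sdj hX), tX, hT]
      ring
    rw [hcomp, hvY, h.tau, h2] at h1
    linarith
  have hdis : Disjoint ({G.pi u} : Finset V) {z} := by
    rw [disjoint_singleton]
    exact hzu.symm
  have hvZ2 := h.wt.val_disj (singleton_subset_iff.2 uv) (singleton_subset_iff.2 zv) hdis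
  rw [← insert_eq, ← hAX, hvZ, h.wt.val_single uv, h.wt.val_single zv] at hvZ2
  have hone : ∑ d ∈ G.ed {G.pi u} {z}, one1 d = ((G.ed {G.pi u} {z}).card : ℝ) := by
    unfold one1
    rw [sum_const, nsmul_eq_mul, mul_one]
  rw [hone] at hvZ2
  have hZe : Even (A \ X).card := by rw [hZ2]; exact even_two
  have hZ4 := h.evn _ (sdiff_subset.trans b.hA) hZe hZn (b.ne_vs sdiff_subset)
  rw [hvZ] at hZ4
  have hc1 : ((G.ed {G.pi u} {z}).card : ℝ) ≤ (1 : ℕ) := by
    push_cast
    linarith
  have hc1' : (G.ed {G.pi u} {z}).card ≤ 1 := by exact_mod_cast hc1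
  have tu := h.t_le_two hvc uv
  have tz := h.t_le_two hvc zv
  -- the outer end of u
  have au : G.pi (G.al u) ∉ A := (mem_bd.1 mu).2.2
  have du := (mem_bd.1 mu).1
  -- darts of X
  have inX : ∀ d ∈ ({p, q, e} : Finset D), d ∈ G.bd X := by
    intro d hd
    simp only [mem_insert, mem_singleton] at hd
    rcases hd with rfl | rfl | rfl
    · exact mem_bd.2 ⟨(mem_bd.1 mp).1, xp, fun k1 => (mem_bd.1 mp).2.2 (hX k1)⟩
    · exact mem_bd.2 ⟨(mem_bd.1 mq).1, xq, fun k1 => (mem_bd.1 mq).2.2 (hX k1)⟩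
    · exact mem_bd.2 ⟨(mem_bd.1 me).1, xe, fun k1 => (mem_bd.1 me).2.2 (hX k1)⟩
  have ofX : ∀ d ∈ G.bd X, d ∈ ({p, q, e} : Finset D) ∨ G.al d ∈ G.st (G.pi u) ∨
      G.al d ∈ G.st z := by
    intro d hd
    obtain ⟨k1, k2, k3⟩ := mem_bd.1 hd
    by_cases k4 : G.pi (G.al d) ∈ A
    · right
      have k5 : G.pi (G.al d) ∈ A \ X := mem_sdiff.2 ⟨k4, k3⟩
      rw [hAX, mem_insert, mem_singleton] at k5
      rcases k5 with k5 | k5
      · exact Or.inl (mem_st.2 ⟨G.al_mem d k1, k5⟩)
      · exact Or.inr (mem_st.2 ⟨G.al_mem d k1, k5⟩)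
    · left
      have k5 : d ∈ G.bd A := mem_bd.2 ⟨k1, hX k2, k4⟩
      rw [hbd] at k5
      simp only [mem_insert, mem_singleton] at k5 ⊢
      rcases k5 with k5 | k5 | k5 | k5
      · exact Or.inl k5
      · exact Or.inr (Or.inl k5)
      · rw [k5] at k2
        exact absurd k2 hu
      · exact Or.inr (Or.inr k5)
  -- an outer dart of X is not al u
  have nau : ∀ d ∈ G.bd X, G.al d ≠ u := by
    intro d hd h1
    obtain ⟨k1, k2, k3⟩ := mem_bd.1 hd
    rw [← h1, G.al_al d k1] at au
    exact au (hX k2)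
  refine ⟨hu, z, hzu, hAX, ?_⟩
  rcases Nat.eq_zero_or_pos (G.ed {G.pi u} {z}).card with h0 | h0
  · -- two vertices with two tokens
    rw [h0] at hvZ2
    push_cast at hvZ2
    have e1 : t (G.pi u) = 2 := by linarith
    have e2 : t z = 2 := by linarith
    obtain ⟨x1, hx1⟩ := card_eq_one.1 (h.st_two uv e1)
    obtain ⟨g', hg'⟩ := card_eq_one.1 (h.st_two zv e2)
    have hxu : x1 = u := by
      have : u ∈ G.st (G.pi u) := mem_st.2 ⟨du, rfl⟩
      rw [hx1, mem_singleton] at this
      exact this.symm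
    rw [hxu] at hx1
    have hgs : g' ∈ G.st z := by rw [hg']; exact mem_singleton_self g'
    obtain ⟨g1, g2⟩ := mem_st.1 hgs
    have dg := G.al_mem g' g1
    refine ⟨h.two_nf e1, h.two_nf e2, Or.inl ⟨G.al g', ?_⟩⟩
    have hgX : G.pi (G.al g') ∈ X := by
      by_contra k1
      by_cases k2 : G.pi (G.al g') ∈ A
      · have k3 : G.pi (G.al g') ∈ A \ X := mem_sdiff.2 ⟨k2, k1⟩
        rw [hAX, mem_insert, mem_singleton] at k3
        rcases k3 with k3 | k3
        · have k4 : G.al g' ∈ G.st (G.pi u) := mem_st.2 ⟨dg, k3⟩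
          rw [hx1, mem_singleton] at k4
          rw [← k4, G.al_al g' g1, g2] at au
          exact au hzA
        · exact G.noloop g' g1 (k3.trans g2.symm)
      · have k3 : g' ∈ G.bd A := mem_bd.2 ⟨g1, by rw [g2]; exact hzA, k2⟩
        rw [hbd] at k3
        simp only [mem_insert, mem_singleton] at k3
        rcases k3 with k3 | k3 | k3 | k3
        · rw [k3] at g2
          exact hzX (g2 ▸ xp)
        · rw [k3] at g2
          exact hzX (g2 ▸ xq)
        · rw [k3] at g2
          exact hzu g2.symm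
        · rw [k3] at g2
          exact hzX (g2 ▸ xe)
    have hgA : G.pi (G.al (G.al g')) ∈ A := by
      rw [G.al_al g' g1, g2]
      exact hzA
    have ng : ∀ d ∈ G.bd A, d ≠ G.al g' := by
      intro d hd h1
      rw [← h1] at hgA
      exact (mem_bd.1 hd).2.2 hgA
    refine ⟨?_, ng p mp, ng q mq, ng e me, hx1, by rw [G.al_al g' g1]; exact hg', ?_⟩
    · ext d
      constructor
      · intro hd
        rcases ofX d hd with k1 | k1 | k1
        · simp only [mem_insert, mem_singleton] at k1 ⊢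
          tauto
        · rw [hx1, mem_singleton] at k1
          exact absurd k1 (nau d hd)
        · rw [hg', mem_singleton] at k1
          have : d = G.al g' := by rw [← k1, G.al_al d (mem_bd.1 hd).1]
          simp only [mem_insert, mem_singleton]
          exact Or.inr (Or.inr (Or.inr this))
      · intro hd
        simp only [mem_insert, mem_singleton] at hd
        rcases hd with hd | hd | hd | hd
        · exact inX d (by simp [hd])
        · exact inX d (by simp [hd])
        · exact inX d (by simp [hd])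
        · rw [hd]
          exact mem_bd.2 ⟨dg, hgX, by rw [G.al_al g' g1, g2]; exact hzX⟩
    · rw [tX, e1, e2]
      norm_num
  · -- neighbours with one and two tokens
    have h1 : (G.ed {G.pi u} {z}).card = 1 := by omega
    obtain ⟨j, hj1⟩ := card_eq_one.1 h1
    rw [h1] at hvZ2
    push_cast at hvZ2
    have hje : j ∈ G.ed {G.pi u} {z} := by rw [hj1]; exact mem_singleton_self j
    obtain ⟨dj, j1, j2⟩ := mem_ed.1 hje
    rw [mem_singleton] at j1 j2
    have huj : u ≠ j := by
      intro k1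
      rw [k1, j2] at au
      exact au hzA
    have hju : j ∈ G.st (G.pi u) := mem_st.2 ⟨dj, j1⟩
    have huu : u ∈ G.st (G.pi u) := mem_st.2 ⟨du, rfl⟩
    have hc2 : 2 ≤ (G.st (G.pi u)).card := by
      rw [← card_pair huj]
      refine card_le_card fun x hx => ?_
      rw [mem_insert, mem_singleton] at hx
      rcases hx with rfl | rfl
      · exact huu
      · exact hju
    have hc2' : ((2 : ℕ) : ℝ) ≤ (G.st (G.pi u)).card := by exact_mod_cast hc2
    push_cast at hc2'
    have hdu := h.deg _ uv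
    have e1 : t (G.pi u) = 1 := by linarith
    have e2 : t z = 2 := by linarith
    have hc3 : (G.st (G.pi u)).card = 2 := by
      have : ((G.st (G.pi u)).card : ℝ) = 2 := by linarith
      exact_mod_cast this
    have hst : G.st (G.pi u) = {u, j} := by
      symm
      refine eq_of_subset_of_card_le (fun x hx => ?_) (by rw [hc3, card_pair huj])
      rw [mem_insert, mem_singleton] at hx
      rcases hx with rfl | rfl
      · exact huu
      · exact hju
    obtain ⟨g', hg'⟩ := card_eq_one.1 (h.st_two zv e2)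
    have hjz : G.al j ∈ G.st z := mem_st.2 ⟨G.al_mem j dj, j2⟩
    have hgj : g' = G.al j := by
      rw [hg', mem_singleton] at hjz
      exact hjz.symm
    rw [hgj] at hg'
    have nz := h.two_nf e2
    have nu : G.pi u ∉ fr := by
      intro k1
      have k2 := h.fresh.two _ k1
      have k3 : (F.filter fun d => G.pi d = G.pi u) ⊆ {u, j} := by
        intro x hx
        obtain ⟨x1, x2⟩ := mem_filter.1 hx
        rw [← hst]
        exact mem_st.2 ⟨h.fresh.Fsub x1, x2⟩
      have k4 : j ∈ F := by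
        have k5 : (F.filter fun d => G.pi d = G.pi u) = {u, j} :=
          eq_of_subset_of_card_le k3 (by rw [k2, card_pair huj])
        have k6 : j ∈ F.filter fun d => G.pi d = G.pi u := by
          rw [k5]
          simp
        exact (mem_filter.1 k6).1
      have k7 := h.fresh.Ffr _ (h.fresh.Fal _ k4)
      rw [j2] at k7
      exact nz k7
    refine ⟨nu, nz, Or.inr ⟨j, ?_, hst, huj, hg', ?_⟩⟩
    · ext d
      constructor
      · intro hd
        rcases ofX d hd with k1 | k1 | k1
        · exact k1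
        · rw [hst, mem_insert, mem_singleton] at k1
          rcases k1 with k1 | k1
          · exact absurd k1 (nau d hd)
          · have : G.pi d = z := by rw [← j2, ← k1, G.al_al d (mem_bd.1 hd).1]
            exact absurd (this ▸ (mem_bd.1 hd).2.1) hzX
        · rw [hg', mem_singleton] at k1
          have k2 : d = j := by
            rw [← G.al_al d (mem_bd.1 hd).1, k1, G.al_al j dj]
          rw [k2] at hd
          have := (mem_bd.1 hd).2.1
          rw [j1] at this
          exact absurd this hu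
      · exact inX d
    · rw [tX, e1, e2]
      norm_num

end BW

/-- a vertex of an odd set of value 5 -/
theorem vtx5_of (b : IBlk G t X 1) (h : EK G k t fr F jm) (h3 : 3 ≤ X.card) {v : V}
    (hv : v ∈ X) : t v + (((G.bd X).filter fun d => G.pi d = v).card : ℝ) ≤ 2 := by
  have h1 := h.wt.val_erase b.hA hv
  have h2 := card_erase_of_mem hv
  have hp := b.par
  have h5 := h.evn (X.erase v) ((erase_subset _ _).trans b.hA) (by rw [Nat.even_iff]; omega)
    (card_pos.1 (by omega)) fun k1 => by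
      have : v ∈ X.erase v := by
        rw [k1]
        exact b.hA hv
      exact (mem_erase.1 this).1 rfl
  have h6 : ∑ d ∈ G.ed {v} (G.vs \ X), one1 d = (((G.bd X).filter fun d => G.pi d = v).card : ℝ) := by
    unfold one1
    rw [sum_const, nsmul_eq_mul, mul_one]
    congr 2
    ext d
    rw [mem_ed, mem_singleton, mem_sdiff, mem_filter, mem_bd]
    constructor
    · rintro ⟨k1, k2, k3, k4⟩
      exact ⟨⟨k1, by rw [k2]; exact hv, k4⟩, k2⟩
    · rintro ⟨⟨k1, k2, k3⟩, k4⟩
      exact ⟨k1, k4, G.pi_mem _ (G.al_mem _ k1), k3⟩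
  rw [h6, b.val] at h1
  push_cast at h1
  linarith

/-- membership in a pattern -/
theorem pat_mem {κ : Finset (Fin np)} (h : (univ.filter fun i => pp i ∈ M) = κ) (i : Fin np) :
    pp i ∈ M ↔ i ∈ κ := by
  rw [← h, mem_filter]
  exact ⟨fun k1 => ⟨mem_univ _, k1⟩, fun k1 => k1.2⟩

namespace X6

variable [Infinite V] [Infinite D] (h : X6 G t fr F jm) (b : BW G t F A e)
include h b

/-- **Lam**, the exceptional case -/
theorem lamX (hE : NoE G t fr F) (hy : ∃ y ∈ G.vs \ A, y ∉ fr ∧ 1 ≤ t y) (h5 : 5 ≤ A.card)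
    (h5W : 5 ≤ (G.vs \ A).card) (hT : ∑ v ∈ G.vs \ A, t v = 1)
    {p q : D} (hp : p ∈ G.bd A) (hq : q ∈ G.bd A) (pe : p ≠ e) (qe : q ≠ e) (pq : p ≠ q)
    (hX : X ⊆ A) (ho : Odd X.card) (xp : G.pi p ∈ X) (xq : G.pi q ∈ X) (xe : G.pi e ∈ X)
    (v5 : G.val one1 t X = 5) :
    (∃ d, d ≠ e ∧ G.SOut fr F jm A d) ∨ G.TOut fr F jm A p ∨ G.TOut fr F jm A q := by
  obtain ⟨u, hbd, pu, qu, ue⟩ := b.fam3 hT hp hq pq pe qe
  have hEK := h.toEK
  obtain ⟨hu, z, hzu, hAX, nu, nz, hc⟩ := b.five hEK hE hy hT hbd pq pu pe qu qe ue hX ho xp xq xe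
    v5
  have mu : u ∈ G.bd A := by rw [hbd]; simp
  have hXv := hX.trans b.hA
  have hjA := b.jmA hEK hy (b.four hT)
  have hnf : ∀ v ∈ A \ X, v ∉ fr := by
    intro v hv
    rw [hAX, mem_insert, mem_singleton] at hv
    rcases hv with rfl | rfl
    · exact nu
    · exact nz
  have hjX : jm ⊆ X := by
    intro v hv
    by_contra k1
    exact hnf v (mem_sdiff.2 ⟨hjA hv, k1⟩) (h.fresh.jms hv)
  have hoN := Nat.odd_iff.1 ho
  have e12 : G.pi p ≠ G.pi q := b.inj hEK hE hy h5 hp hq pq
  have e13 : G.pi p ≠ G.pi e := b.inj hEK hE hy h5 hp b.he pe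
  have e23 : G.pi q ≠ G.pi e := b.inj hEK hE hy h5 hq b.he qe
  have h3 : 3 ≤ X.card := by
    have : ({G.pi p, G.pi q} : Finset V).card ≤ X.card := by
      refine card_le_card fun x hx => ?_
      rw [mem_insert, mem_singleton] at hx
      rcases hx with rfl | rfl
      · exact xp
      · exact xq
    rw [card_pair e12] at this
    omega
  have ib : IBlk G t X 1 := ⟨hXv, hoN, by
    obtain ⟨y, hy1, -⟩ := hy
    exact ⟨y, mem_sdiff.2 ⟨(mem_sdiff.1 hy1).1, fun k1 => (mem_sdiff.1 hy1).2 (hX k1)⟩⟩, by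
    rw [v5]
    norm_num⟩
  have hbig : 5 ≤ (G.vs \ X).card :=
    h5W.trans (card_le_card (sdiff_subset_sdiff Subset.rfl hX))
  have zA : z ∈ A \ X := by rw [hAX]; simp
  have uA : G.pi u ∈ A \ X := by rw [hAX]; simp
  have du := (mem_bd.1 mu).1
  have c4 : ∀ Y ⊆ X, Even Y.card → G.pi p ∈ Y → G.pi q ∈ Y → G.val one1 t Y ≠ 4 :=
    fun Y hY he => b.two4 hEK (hY.trans hX) he hp hq pq pe qe
  have notA : ∀ d ∈ G.bd A, ∀ x ∈ G.ds, G.pi (G.al x) ∈ A → d ≠ x := by
    intro d hd x _ hxA hdx
    rw [← hdx] at hxA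
    exact (mem_bd.1 hd).2.2 hxA
  rcases hc with ⟨g, hbX, pg, qg, eg, st1, st2, -⟩ | ⟨j, hbX, st1, uj, st2, -⟩
  · -- two betas
    obtain ⟨hpp, hpi⟩ := four_fam hbX pq pe pg qe qg eg
    have hpb : ∀ i, ![p, q, e, g] i ∈ G.bd X := fun i => by
      rw [hpp]
      exact mem_image_of_mem _ (mem_univ _)
    have gX : g ∈ G.bd X := hpb 3
    have dg := (mem_bd.1 gX).1
    have hgz : G.pi (G.al g) = z := by
      have : G.al g ∈ G.st z := by rw [st2]; exact mem_singleton_self _
      exact (mem_st.1 this).2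
    obtain ⟨M, m, hM, hpat⟩ := h.tplI4 ib Tpl.lamd_reg Tpl.lamd_tab (by
        have : Tpl.lamd.nT univ + 1 = 4 := by decide
        exact this) (by norm_num) hpb hpi
      (Or.inr (by omega)) (fun v hv => vtx5_of ib hEK h3 hv) (by decide) h.jm2
      (fun v hv => Or.inl hv)
      (fun v hv => by
        rw [mem_filter]
        refine ⟨mem_univ _, ?_, ?_, ?_⟩
        · rintro ⟨k1, k2⟩
          rw [mem_kap, mem_singleton] at k1 k2
          exact e12 (k1.trans k2.symm)
        · rintro ⟨k1, k2⟩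
          rw [mem_kap, mem_singleton] at k1 k2
          exact e13 (k1.trans k2.symm)
        · rintro ⟨k1, k2⟩
          rw [mem_kap, mem_singleton] at k1 k2
          exact e23 (k1.trans k2.symm))
      (fun Y hY he _ _ hv => by
        rw [mem_filter]
        exact ⟨mem_univ _, fun k1 => c4 Y hY he (mem_kap.1 k1.1) (mem_kap.1 k1.2) hv⟩)
      (fun Y hY hoY _ hYX hv => by
        rw [mem_filter]
        refine ⟨mem_univ _, fun k1 => ?_⟩
        have k2 := mem_kap.1 k1.1
        have k3 := mem_kap.1 k1.2.1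
        have k4 := mem_kap.1 k1.2.2
        have k5 : Y.card < X.card := card_lt_card (hY.ssubset_of_ne hYX)
        have k6 := Nat.odd_iff.1 hoY
        have k7 := card_sdiff_add_card_eq_card (hY.trans hX)
        have k8 := card_sdiff_add_card_eq_card hX
        have k9 : (A \ X).card = 2 := by rw [hAX, card_pair hzu.symm]
        have k10 := b.joinE hEK hE hy (hY.trans hX) hoY (by omega)
          (Or.inr ⟨u, by rw [hbd]; simp, fun k => hu (hY k)⟩)
        have k11 := qx_three hp hq b.he pq pe qe k2 k3 k4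
        have k12 : ((3 : ℕ) : ℝ) ≤ qx G A Y := by exact_mod_cast k11
        push_cast at k12
        rw [b.join hEK (hY.trans hX), hv] at k10
        linarith)
    have hHX : G.GHalf one1 fr F jm X M := hM.half h.fresh h.jm2 (Or.inl rfl)
    have hg3 : g ∈ M := by
      have k1 := pat_mem (pp := ![p, q, e, g]) (M := M) rfl 3
      have k2 : (3 : Fin 4) ∈ univ.filter fun i => ![p, q, e, g] i ∈ M := by
        rcases Tpl.lamd_pat _ _ hpat with k2 | k2 | k2 <;> rw [k2] <;> decide
      exact k1.2 k2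
    have hext : G.GHalf one1 fr F jm A (M ∪ {u, G.al g}) := by
      refine hHX.ext hX hnf ?_ ?_ ?_
      · intro d hd
        rw [mem_insert, mem_singleton] at hd
        rcases hd with rfl | rfl
        · exact ⟨du, uA⟩
        · exact ⟨G.al_mem g dg, by rw [hgz]; exact zA⟩
      · intro v hv
        rw [hAX, mem_insert, mem_singleton] at hv
        rw [card_eq_one]
        rcases hv with rfl | rfl
        · refine ⟨u, ?_⟩
          ext x
          rw [mem_filter, mem_insert, mem_singleton, mem_singleton]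
          constructor
          · rintro ⟨rfl | rfl, k2⟩
            · rfl
            · exact absurd (hgz.symm.trans k2) hzu
          · rintro rfl
            exact ⟨Or.inl rfl, rfl⟩
        · refine ⟨G.al g, ?_⟩
          ext x
          rw [mem_filter, mem_insert, mem_singleton]
          constructor
          · rintro ⟨rfl | rfl, k2⟩
            · exact absurd k2.symm hzu
            · rfl
          · rintro rfl
            exact ⟨Or.inr rfl, hgz⟩
      · intro d hd hdA
        rcases mem_union.1 hd with hd | hd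
        · by_cases k1 : G.pi (G.al d) ∈ X
          · exact mem_union_left _ (hHX.hm.clo d hd k1)
          · have k2 : G.pi (G.al d) ∈ A \ X := mem_sdiff.2 ⟨hdA, k1⟩
            have k3 : d ∈ G.bd X := mem_bd.2 ⟨(hHX.hm.sub d hd).1, (hHX.hm.sub d hd).2, k1⟩
            rw [hbX] at k3
            simp only [mem_insert, mem_singleton] at k3
            rcases k3 with k3 | k3 | k3 | k3
            · exact absurd hdA (k3 ▸ (mem_bd.1 hp).2.2)
            · exact absurd hdA (k3 ▸ (mem_bd.1 hq).2.2)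
            · exact absurd hdA (k3 ▸ (mem_bd.1 b.he).2.2)
            · rw [k3]
              exact mem_union_right _ (by simp)
        · rw [mem_insert, mem_singleton] at hd
          rcases hd with rfl | rfl
          · exact absurd hdA (mem_bd.1 mu).2.2
          · rw [G.al_al g dg]
            exact mem_union_left _ hg3
    -- the pattern
    have umem : u ∈ M ∪ {u, G.al g} := mem_union_right _ (by simp)
    have gA : G.pi (G.al (G.al g)) ∈ A := by
      rw [G.al_al g dg]
      exact hX (mem_bd.1 gX).2.1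
    have other : ∀ d ∈ G.bd A, d ≠ u → (d ∈ M ∪ {u, G.al g} ↔ d ∈ M) := by
      intro d hd hdu
      rw [mem_union, mem_insert, mem_singleton]
      constructor
      · rintro (k1 | k1 | k1)
        · exact k1
        · exact absurd k1 hdu
        · exact absurd k1 (notA d hd _ (G.al_mem g dg) gA)
      · exact Or.inl
    have mp := other p hp pu
    have mq := other q hq qu
    have me := other e b.he ue.symm
    rcases Tpl.lamd_pat _ _ hpat with k2 | k2 | k2
    · left
      refine ⟨u, ue, _, hext, mu, fun d hd => ?_⟩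
      have n0 : p ∉ M := fun k1 => absurd ((pat_mem k2 0).1 k1) (by decide)
      have n1 : q ∉ M := fun k1 => absurd ((pat_mem k2 1).1 k1) (by decide)
      have n2 : e ∉ M := fun k1 => absurd ((pat_mem k2 2).1 k1) (by decide)
      rw [hbd] at hd
      simp only [mem_insert, mem_singleton] at hd
      rcases hd with rfl | rfl | rfl | rfl
      · exact ⟨fun k1 => absurd (mp.1 k1) n0, fun k1 => absurd k1 pu⟩
      · exact ⟨fun k1 => absurd (mq.1 k1) n1, fun k1 => absurd k1 qu⟩
      · exact ⟨fun _ => rfl, fun _ => umem⟩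
      · exact ⟨fun k1 => absurd (me.1 k1) n2, fun k1 => absurd k1 ue.symm⟩
    · right
      right
      refine ⟨_, hext, hq, fun d hd => ?_⟩
      have n0 : p ∈ M := (pat_mem k2 0).2 (by decide)
      have n1 : q ∉ M := fun k1 => absurd ((pat_mem k2 1).1 k1) (by decide)
      have n2 : e ∈ M := (pat_mem k2 2).2 (by decide)
      rw [hbd] at hd
      simp only [mem_insert, mem_singleton] at hd
      rcases hd with rfl | rfl | rfl | rfl
      · exact ⟨fun _ => pq, fun _ => mp.2 n0⟩
      · exact ⟨fun k1 => absurd (mq.1 k1) n1, fun k1 => absurd rfl k1⟩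
      · exact ⟨fun _ => qu.symm, fun _ => umem⟩
      · exact ⟨fun _ => qe.symm, fun _ => me.2 n2⟩
    · right
      left
      refine ⟨_, hext, hp, fun d hd => ?_⟩
      have n0 : p ∉ M := fun k1 => absurd ((pat_mem k2 0).1 k1) (by decide)
      have n1 : q ∈ M := (pat_mem k2 1).2 (by decide)
      have n2 : e ∈ M := (pat_mem k2 2).2 (by decide)
      rw [hbd] at hd
      simp only [mem_insert, mem_singleton] at hd
      rcases hd with rfl | rfl | rfl | rfl
      · exact ⟨fun k1 => absurd (mp.1 k1) n0, fun k1 => absurd rfl k1⟩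
      · exact ⟨fun _ => pq.symm, fun _ => mq.2 n1⟩
      · exact ⟨fun _ => pu.symm, fun _ => umem⟩
      · exact ⟨fun _ => pe.symm, fun _ => me.2 n2⟩
  · -- alpha and beta
    have hpb : ∀ i, ![p, q] i ∈ G.bd X := fun i => by
      rw [hbX]
      fin_cases i <;> simp
    have hpi : Function.Injective ![p, q] := by
      intro a c hac
      fin_cases a <;> fin_cases c <;> simp_all
    have hju : j ∈ G.st (G.pi u) := by rw [st1]; simp
    obtain ⟨dj, j1⟩ := mem_st.1 hju
    have j2 : G.pi (G.al j) = z := by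
      have : G.al j ∈ G.st z := by rw [st2]; exact mem_singleton_self _
      exact (mem_st.1 this).2
    obtain ⟨M, m, hM, hpat⟩ := h.tplI4 ib Tpl.al_reg Tpl.al_tab4 (by
        have : Tpl.al.nT univ + 1 = 2 := by decide
        exact this) (by norm_num) hpb hpi
      (Or.inr (by omega)) (fun v hv => vtx5_of ib hEK h3 hv) (by decide) h.jm2
      (fun v hv => Or.inl hv)
      (fun v hv => by
        rw [mem_filter]
        refine ⟨mem_univ _, ?_⟩
        rintro ⟨k1, k2⟩
        rw [mem_kap, mem_singleton] at k1 k2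
        exact e12 (k1.trans k2.symm))
      (fun Y hY he _ _ hv => by
        rw [mem_filter]
        exact ⟨mem_univ _, fun k1 => c4 Y hY he (mem_kap.1 k1.1) (mem_kap.1 k1.2) hv⟩)
      (fun _ _ _ _ _ _ => mem_univ _)
    have hHX : G.GHalf one1 fr F jm X M := hM.half h.fresh h.jm2 (Or.inl rfl)
    have zA' := (mem_sdiff.1 zA).1
    have hext : G.GHalf one1 fr F jm A (M ∪ {j, G.al j}) := by
      refine hHX.ext hX hnf ?_ ?_ ?_
      · intro d hd
        rw [mem_insert, mem_singleton] at hd
        rcases hd with rfl | rfl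
        · exact ⟨dj, by rw [j1]; exact uA⟩
        · exact ⟨G.al_mem j dj, by rw [j2]; exact zA⟩
      · intro v hv
        rw [hAX, mem_insert, mem_singleton] at hv
        rw [card_eq_one]
        rcases hv with rfl | rfl
        · refine ⟨j, ?_⟩
          ext x
          rw [mem_filter, mem_insert, mem_singleton, mem_singleton]
          constructor
          · rintro ⟨rfl | rfl, k2⟩
            · rfl
            · exact absurd (j2.symm.trans k2) hzu
          · rintro rfl
            exact ⟨Or.inl rfl, j1⟩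
        · refine ⟨G.al j, ?_⟩
          ext x
          rw [mem_filter, mem_insert, mem_singleton]
          constructor
          · rintro ⟨rfl | rfl, k2⟩
            · exact absurd (k2.symm.trans j1) hzu
            · rfl
          · rintro rfl
            exact ⟨Or.inr rfl, j2⟩
      · intro d hd hdA
        rcases mem_union.1 hd with hd | hd
        · by_cases k1 : G.pi (G.al d) ∈ X
          · exact mem_union_left _ (hHX.hm.clo d hd k1)
          · have k3 : d ∈ G.bd X := mem_bd.2 ⟨(hHX.hm.sub d hd).1, (hHX.hm.sub d hd).2, k1⟩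
            rw [hbX] at k3
            simp only [mem_insert, mem_singleton] at k3
            rcases k3 with k3 | k3 | k3
            · exact absurd hdA (k3 ▸ (mem_bd.1 hp).2.2)
            · exact absurd hdA (k3 ▸ (mem_bd.1 hq).2.2)
            · exact absurd hdA (k3 ▸ (mem_bd.1 b.he).2.2)
        · rw [mem_insert, mem_singleton] at hd
          rcases hd with rfl | rfl
          · exact mem_union_right _ (by simp)
          · rw [G.al_al j dj]
            exact mem_union_right _ (by simp)
    have jA : G.pi (G.al j) ∈ A := by rw [j2]; exact zA'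
    have jA' : G.pi (G.al (G.al j)) ∈ A := by
      rw [G.al_al j dj, j1]
      exact (mem_sdiff.1 uA).1
    have other : ∀ d ∈ G.bd A, (d ∈ M ∪ {j, G.al j} ↔ d ∈ M) := by
      intro d hd
      rw [mem_union, mem_insert, mem_singleton]
      constructor
      · rintro (k1 | k1 | k1)
        · exact k1
        · exact absurd k1 (notA d hd _ dj jA)
        · exact absurd k1 (notA d hd _ (G.al_mem j dj) jA')
      · exact Or.inl
    have eM : e ∉ M := by
      intro k1
      obtain ⟨i, hi⟩ := hM.ex e (by rw [hbX]; simp) k1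
      fin_cases i
      · exact pe hi
      · exact qe hi
    have uM : u ∉ M := fun k1 => hu (hHX.hm.sub u k1).2
    left
    obtain ⟨i, hi⟩ := card_eq_one.1 (Tpl.al_pat _ _ hpat)
    have k0 := pat_mem hi 0
    have k1 := pat_mem hi 1
    fin_cases i
    · have n0 : p ∈ M := k0.2 (by decide)
      have n1 : q ∉ M := fun k2 => absurd (k1.1 k2) (by decide)
      refine ⟨p, pe, _, hext, hp, fun d hd => ?_⟩
      rw [other d hd]
      rw [hbd] at hd
      simp only [mem_insert, mem_singleton] at hd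
      rcases hd with rfl | rfl | rfl | rfl
      · exact ⟨fun _ => rfl, fun _ => n0⟩
      · exact ⟨fun k2 => absurd k2 n1, fun k2 => absurd k2.symm pq⟩
      · exact ⟨fun k2 => absurd k2 uM, fun k2 => absurd k2.symm pu⟩
      · exact ⟨fun k2 => absurd k2 eM, fun k2 => absurd k2.symm pe⟩
    · have n0 : p ∉ M := fun k2 => absurd (k0.1 k2) (by decide)
      have n1 : q ∈ M := k1.2 (by decide)
      refine ⟨q, qe, _, hext, hq, fun d hd => ?_⟩
      rw [other d hd]
      rw [hbd] at hd
      simp only [mem_insert, mem_singleton] at hd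
      rcases hd with rfl | rfl | rfl | rfl
      · exact ⟨fun k2 => absurd k2 n0, fun k2 => absurd k2 pq⟩
      · exact ⟨fun _ => rfl, fun _ => n1⟩
      · exact ⟨fun k2 => absurd k2 uM, fun k2 => absurd k2.symm qu⟩
      · exact ⟨fun k2 => absurd k2 eM, fun k2 => absurd k2.symm qe⟩

/-- **Lam**, all cases -/
theorem lamB (hE : NoE G t fr F) (hy : ∃ y ∈ G.vs \ A, y ∉ fr ∧ 1 ≤ t y) (h5 : 5 ≤ A.card)
    (h5W : 5 ≤ (G.vs \ A).card) (hT : ∑ v ∈ G.vs \ A, t v = 1)
    {p q : D} (hp : p ∈ G.bd A) (hq : q ∈ G.bd A) (pe : p ≠ e) (qe : q ≠ e) (pq : p ≠ q) :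
    (∃ d, d ≠ e ∧ G.SOut fr F jm A d) ∨ G.TOut fr F jm A p ∨ G.TOut fr F jm A q ∨
      G.COut t F A e 1 (-1) := by
  by_cases hc : ∃ X, X ⊆ A ∧ Odd X.card ∧ G.pi p ∈ X ∧ G.pi q ∈ X ∧ G.pi e ∈ X ∧
      G.val one1 t X = 5
  · obtain ⟨X, hX, ho, xp, xq, xe, v5⟩ := hc
    rcases h.lamX b hE hy h5 h5W hT hp hq pe qe pq hX ho xp xq xe v5 with k1 | k1 | k1
    · exact Or.inl k1
    · exact Or.inr (Or.inl k1)
    · exact Or.inr (Or.inr (Or.inl k1))
  · exact h.lamB' b hE hy h5 h5W hT hp hq pe qe pq fun X hX ho xp xq xe v5 =>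
      hc ⟨X, hX, ho, xp, xq, xe, v5⟩

end X6

end MG

end RH
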