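import Pool.Agent.Lib.RH.CE6Q
import Pool.Agent.Lib.RH.CE6D2
import Pool.Agent.Lib.RH.CE6SetL

/-! CE6 S1, 1.6: a blocked step with one token inside is dead (`X6.dead1`). -/

set_option autoImplicit false

namespace RH

open Finset Classical

namespace MG

variable {V D : Type*} {G : MG V D} {t : V → ℝ}
variable {fr : Finset V} {F M T : Finset D} {jm A W X S : Finset V} {e dy d : D}

/-- four exits -/
theorem four_list (h4 : (G.bd A).card = 4) {e i j k : D} (he : e ∈ G.bd A) (hi : i ∈ G.bd A)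
    (hj : j ∈ G.bd A) (hk : k ∈ G.bd A) (n1 : e ≠ i) (n2 : e ≠ j) (n3 : e ≠ k) (n4 : i ≠ j)
    (n5 : i ≠ k) (n6 : j ≠ k) : G.bd A = {e, i, j, k} ∧ [e, i, j, k].Nodup := by
  constructor
  · symm
    refine eq_of_subset_of_card_le (fun x hx => ?_) ?_
    · simp only [mem_insert, mem_singleton] at hx
      rcases hx with rfl | rfl | rfl | rfl
      · exact he
      · exact hi
      · exact hj
      · exact hk
    · rw [h4, card_insert_of_notMem (by simp [n1, n2, n3]),
        card_insert_of_notMem (by simp [n4, n5]), card_pair n6]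
  · simp only [List.nodup_cons, List.mem_cons, List.not_mem_nil, or_false, not_or, not_false_iff,
      List.nodup_nil, and_true]
    exact ⟨⟨n1, n2, n3⟩, ⟨n4, n5⟩, n6⟩

theorem StD.stp (s : StD G t fr A e dy) : Stp G t fr A e dy where
  bf := s.bfr
  tb := s.tb
  one := s.ub
  dyG := s.dyd
  dyb := s.dyb
  dyW := (mem_sdiff.1 s.dyW).2
  dyt := s.ty
  yfr := s.yfr

/-- a set of two vertices of value 4 without tokens is an edge -/
theorem EK.edge_of_four (h : EK G 6 t fr F jm) {x y : V} (hx : x ∈ G.vs) (hy : y ∈ G.vs)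
    (hxy : x ≠ y) (hv : G.val one1 t {x, y} = 4) : ∃ g ∈ G.ds, G.pi g = x ∧ G.pi (G.al g) = y := by
  have hX : ({x, y} : Finset V) ⊆ G.vs := by
    intro v hv
    simp only [mem_insert, mem_singleton] at hv
    rcases hv with rfl | rfl
    · exact hx
    · exact hy
  have h1 := h.val_eq hX
  rw [card_pair hxy, hv] at h1
  have h2 : ((G.ed {x, y} {x, y}).card : ℝ) = ((2 : ℕ) : ℝ) := by
    push_cast at h1 ⊢
    linarith
  have h3 : (G.ed {x, y} {x, y}).card = 2 := by exact_mod_cast h2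
  obtain ⟨g, hg⟩ := card_pos.1 (by omega : 0 < (G.ed {x, y} {x, y}).card)
  rw [mem_ed] at hg
  obtain ⟨g1, g2, g3⟩ := hg
  have hn := G.noloop g g1
  simp only [mem_insert, mem_singleton] at g2 g3
  rcases g2 with g2 | g2 <;> rcases g3 with g3 | g3
  · exact absurd (g3.trans g2.symm) hn
  · exact ⟨g, g1, g2, g3⟩
  · exact ⟨G.al g, G.al_mem g g1, g3, by rw [G.al_al g g1, g2]⟩
  · exact absurd (g3.trans g2.symm) hn

/-- **1.6**: the blocked step with one token inside, at least five vertices outside -/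
theorem X6.dead1 [Infinite V] [Infinite D] (h : X6 G t fr F jm) (b : BW G t F A e)
    (s : StD G t fr A e dy) (hE : NoE G t fr F) (hT : ∑ v ∈ G.vs \ A, t v = 1)
    (h0 : ∀ d ∈ G.bd A, t (G.pi (G.al d)) = 0) (h5 : 5 ≤ A.card)
    (h5W : 5 ≤ (G.vs \ A).card)
    (hsm : (fr ∩ A).card < fr.card ∨ 5 < (G.vs \ A).card)
    (hF5 : ∀ {i j k : D}, G.bd A = {e, i, j, k} → [e, i, j, k].Nodup →
      ∀ Z ⊆ G.vs \ A, Even Z.card → 4 ≤ Z.card → G.val one1 t Z = 4 →
      G.pi (G.al i) ∈ Z → G.pi (G.al j) ∈ Z →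
      (∀ Z' ⊆ G.vs \ A, Z ⊆ Z' → Even Z'.card → G.val one1 t Z' = 4 → Z' = Z) →
      G.TIn fr F jm A i ∨ G.TIn fr F jm A j ∨ G.SIn fr F jm A e) : False := by
  have hEK := h.toEK
  have hy := s.real hEK
  have st := s.stp
  have h4 : (G.bd A).card = 4 := by
    have h1 := b.bd_tok
    rw [hT] at h1
    have h2 : ((G.bd A).card : ℝ) = ((4 : ℕ) : ℝ) := by
      push_cast
      linarith
    exact_mod_cast h2
  have hjA := b.jmA hEK hy h4
  refine h.w1 b hy h4 (fun d hd hde => h.sall b s hd hde) (h.salle b s)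
    (h.gamB b hE hy h5 h5W hT) (fun p hp q hq pe qe pq => h.lamB b hE hy h5 h5W hT hp hq pe qe pq)
    (fun p hp q hq hpq => h.penB b hE hy h5 hsm hT hp hq hpq) (X6.Bad G t A)
    (h.hI3 b h4 (Or.inl (by omega))) ?_ ?_
  · intro i hi j hj k hk ie je ke ij ik jk hbad
    obtain ⟨hbd, hnd⟩ := four_list h4 b.he hi hj hk ie.symm je.symm ke.symm ij ik jk
    by_cases hij : G.pi (G.al i) = G.pi (G.al j)
    · rcases h.hB1 b st h5W (by omega) hjA hbd hnd hij with h1 | h1
      · exact Or.inl h1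
      · exact Or.inr (Or.inr (Or.inl h1))
    rcases hbad with h1 | ⟨X, x1, x2, x3, x4, x5⟩
    · exact absurd h1 hij
    obtain ⟨Z, hZ, hZm⟩ := Finset.exists_maximal (s := (G.vs \ A).powerset.filter fun Z =>
      Even Z.card ∧ G.pi (G.al i) ∈ Z ∧ G.pi (G.al j) ∈ Z ∧ G.val one1 t Z = 4)
      ⟨X, mem_filter.2 ⟨mem_powerset.2 x1, x2, x3, x4, x5⟩⟩
    obtain ⟨z1, z2, z3, z4, z5⟩ := mem_filter.1 hZ
    rw [mem_powerset] at z1
    have hmax : ∀ Z' ⊆ G.vs \ A, Z ⊆ Z' → Even Z'.card → G.val one1 t Z' = 4 → Z' = Z := by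
      intro Z' k1 k2 k3 k4
      exact subset_antisymm (hZm (mem_filter.2 ⟨mem_powerset.2 k1, k3, k2 z3, k2 z4, k4⟩) k2) k2
    by_cases hc : 4 ≤ Z.card
    · rcases hF5 hbd hnd Z z1 z2 hc z5 z3 z4 hmax with h1 | h1 | h1
      · exact Or.inl h1
      · exact Or.inr (Or.inl h1)
      · exact Or.inr (Or.inr (Or.inr fun _ => h1))
    · have hZ2 : ({G.pi (G.al i), G.pi (G.al j)} : Finset V) = Z := by
        refine eq_of_subset_of_card_le (fun v hv => ?_) ?_
        · simp only [mem_insert, mem_singleton] at hv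
          rcases hv with rfl | rfl
          · exact z3
          · exact z4
        · rw [card_pair hij]
          rw [Nat.even_iff] at z2
          omega
      obtain ⟨g, g1, g2, g3⟩ := hEK.edge_of_four ((mem_sdiff.1 (z1 z3)).1)
        ((mem_sdiff.1 (z1 z4)).1) hij (by rw [hZ2]; exact z5)
      by_cases hgF : g ∈ F
      · rcases h.hB2 b h5W hjA hbd hnd hgF g2 g3 (fun X k1 k2 k3 k4 k5 => by
          rw [hZ2]
          refine hmax X k1 (fun v hv => ?_) k2 k5
          rw [← hZ2] at hv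
          simp only [mem_insert, mem_singleton] at hv
          rcases hv with rfl | rfl
          · exact k3
          · exact k4) with h1 | h1 | h1
        · exact Or.inl h1
        · exact Or.inr (Or.inl h1)
        · exact Or.inr (Or.inr (Or.inl h1))
      · right
        right
        right
        intro hk'
        have hnF := b.nF hEK
        have hgF' : G.al g ∉ F := fun h1 => hgF (by
          have := h.fresh.Fal _ h1
          rwa [G.al_al g g1] at this)
        refine hk'.swap b.hA hbd hnd g1 g2 g3 ?_ ?_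
        · intro hfr
          have h1 := h.fresh.uniq g1 (mem_bd.1 (bd_al b.hA hi)).1 g2 (by rw [g2]; exact hfr) hgF
            (hnF _ (bd_al b.hA hi))
          rw [h1, G.al_al i (mem_bd.1 hi).1] at g3
          exact (mem_sdiff.1 (mem_bd.1 (bd_al b.hA hj)).2.1).2 (g3 ▸ (mem_bd.1 hi).2.1)
        · intro hfr
          have h1 := h.fresh.uniq (G.al_mem g g1) (mem_bd.1 (bd_al b.hA hj)).1 g3
            (by rw [g3]; exact hfr) hgF' (hnF _ (bd_al b.hA hj))
          have h2 := (al_eq g1 (mem_bd.1 hj).1).1 h1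
          rw [h2] at g2
          exact (mem_sdiff.1 (mem_bd.1 (bd_al b.hA hi)).2.1).2 (g2 ▸ (mem_bd.1 hj).2.1)
  · intro p hp q hq r hr pq pr qr
    exact b.path hEK hT h0 hp hq hr pq pr qr

end MG

end RH
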