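import Pool.Agent.Lib.RH.CE6Set

/-! The outer states `Gam`, `Lam`, `Pent` of a blocked step with one token (any position of the star)
from `NoE`, in the form used by `X6.w1`: `X6.gamB`, `X6.lamB`, `X6.penB`. -/

set_option autoImplicit false

namespace RH

open Finset Classical

namespace MG

variable {V D : Type*} {G : MG V D} {t : V → ℝ} {fr : Finset V} {F M : Finset D}
variable {jm A X Y : Finset V} {e d d' c c' : D} {k : ℝ} {np : ℕ} {pp : Fin np → D}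

theorem pat_sg (hpp : G.bd A = univ.image pp) (hpi : Function.Injective pp) {i : Fin np}
    (h : (univ.filter fun j => pp j ∈ M) = {i}) : G.Sg A M (pp i) := by
  refine ⟨by rw [hpp]; exact mem_image_of_mem _ (mem_univ _), fun x hx => ?_⟩
  rw [hpp] at hx
  obtain ⟨j, -, rfl⟩ := mem_image.1 hx
  have h1 : j ∈ (univ.filter fun j => pp j ∈ M) ↔ j ∈ ({i} : Finset (Fin np)) := by rw [h]
  rw [mem_filter, mem_singleton] at h1
  exact ⟨fun k1 => by rw [h1.1 ⟨mem_univ _, k1⟩], fun k1 => (h1.2 (hpi k1)).2⟩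

theorem pat_tr (hpp : G.bd A = univ.image pp) (hpi : Function.Injective pp) {i : Fin np}
    (h : (univ.filter fun j => pp j ∈ M) = univ.erase i) : G.Tr A M (pp i) := by
  refine ⟨by rw [hpp]; exact mem_image_of_mem _ (mem_univ _), fun x hx => ?_⟩
  rw [hpp] at hx
  obtain ⟨j, -, rfl⟩ := mem_image.1 hx
  have h1 : j ∈ (univ.filter fun j => pp j ∈ M) ↔ j ∈ (univ : Finset (Fin np)).erase i := by
    rw [h]
  rw [mem_filter, mem_erase] at h1
  exact ⟨fun k1 k2 => (h1.1 ⟨mem_univ _, k1⟩).1 (hpi k2),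
    fun k1 => (h1.2 ⟨fun k2 => k1 (by rw [k2]), mem_univ _⟩).2⟩

/-- four exits as a family -/
theorem four_fam {p q r s : D} (hbd : G.bd A = {p, q, r, s}) (n1 : p ≠ q) (n2 : p ≠ r)
    (n3 : p ≠ s) (n4 : q ≠ r) (n5 : q ≠ s) (n6 : r ≠ s) :
    G.bd A = univ.image ![p, q, r, s] ∧ Function.Injective ![p, q, r, s] := by
  constructor
  · rw [hbd]
    ext x
    simp only [mem_insert, mem_singleton, mem_image, mem_univ, true_and]
    constructor
    · rintro (rfl | rfl | rfl | rfl)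
      · exact ⟨0, rfl⟩
      · exact ⟨1, rfl⟩
      · exact ⟨2, rfl⟩
      · exact ⟨3, rfl⟩
    · rintro ⟨i, rfl⟩
      fin_cases i
      · exact Or.inl rfl
      · exact Or.inr (Or.inl rfl)
      · exact Or.inr (Or.inr (Or.inl rfl))
      · exact Or.inr (Or.inr (Or.inr rfl))
  · intro i j hij
    fin_cases i <;> fin_cases j <;> simp_all

theorem mem_kap {i : Fin np} {X : Finset V} : i ∈ TOk.kap G pp X ↔ G.pi (pp i) ∈ X := by
  unfold TOk.kap
  rw [mem_filter]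
  exact ⟨fun h => h.2, fun h => ⟨mem_univ _, h⟩⟩

/-- different ends -/
theorem kap_one (hi : ∀ i j, i ≠ j → G.pi (pp i) ≠ G.pi (pp j)) (v : V) :
    TOk.kap G pp {v} ∈ Tpl.one1S np := by
  unfold Tpl.one1S
  rw [mem_filter]
  refine ⟨mem_univ _, card_le_one.2 fun i h1 j h2 => ?_⟩
  rw [mem_kap, mem_singleton] at h1 h2
  by_contra h3
  exact hi i j h3 (h1.trans h2.symm)

namespace BW

variable (b : BW G t F A e)
include b

/-- two given exits and the others -/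
theorem fam2 (hT : ∑ v ∈ G.vs \ A, t v = 1) {p q : D} (hp : p ∈ G.bd A) (hq : q ∈ G.bd A)
    (hpq : p ≠ q) : ∃ r s, G.bd A = {p, q, r, s} ∧ p ≠ r ∧ p ≠ s ∧ q ≠ r ∧ q ≠ s ∧ r ≠ s := by
  have h1 := b.four hT
  have h2 : (((G.bd A).erase p).erase q).card = 2 := by
    rw [card_erase_of_mem (mem_erase.2 ⟨hpq.symm, hq⟩), card_erase_of_mem hp, h1]
  obtain ⟨r, s, n1, h3⟩ := card_eq_two.1 h2
  have mr : r ∈ ((G.bd A).erase p).erase q := by rw [h3]; simp
  have ms : s ∈ ((G.bd A).erase p).erase q := by rw [h3]; simp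
  obtain ⟨r1, r2⟩ := mem_erase.1 mr
  obtain ⟨r3, r4⟩ := mem_erase.1 r2
  obtain ⟨s1, s2⟩ := mem_erase.1 ms
  obtain ⟨s3, s4⟩ := mem_erase.1 s2
  refine ⟨r, s, ?_, r3.symm, s3.symm, r1.symm, s1.symm, n1⟩
  rw [← h3, insert_erase (mem_erase.2 ⟨hpq.symm, hq⟩), insert_erase hp]

/-- the fourth exit -/
theorem fam3 (hT : ∑ v ∈ G.vs \ A, t v = 1) {p q : D} (hp : p ∈ G.bd A) (hq : q ∈ G.bd A)
    (hpq : p ≠ q) (pe : p ≠ e) (qe : q ≠ e) :
    ∃ u, G.bd A = {p, q, u, e} ∧ p ≠ u ∧ q ≠ u ∧ u ≠ e := by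
  obtain ⟨r, s, hbd, n1, n2, n3, n4, n5⟩ := b.fam2 hT hp hq hpq
  have he := b.he
  rw [hbd] at he
  simp only [mem_insert, mem_singleton] at he
  rcases he with he | he | he | he
  · exact absurd he.symm pe
  · exact absurd he.symm qe
  · refine ⟨s, ?_, n2, n4, ?_⟩
    · rw [hbd, he]
      ext x
      simp only [mem_insert, mem_singleton]
      tauto
    · rw [he]
      exact n5.symm
  · exact ⟨r, by rw [hbd, he], n1, n3, by rw [he]; exact n5⟩

end BW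

namespace X6

variable [Infinite V] [Infinite D] (h : X6 G t fr F jm) (b : BW G t F A e)
include h b

/-- **Gam**: a single outside, or the value 1 at all exits -/
theorem gamB (hE : NoE G t fr F) (hy : ∃ y ∈ G.vs \ A, y ∉ fr ∧ 1 ≤ t y) (h5 : 5 ≤ A.card)
    (h5W : 5 ≤ (G.vs \ A).card) (hT : ∑ v ∈ G.vs \ A, t v = 1) :
    (∃ d, G.SOut fr F jm A d) ∨ G.COut t F A e 1 1 := by
  obtain ⟨q, r, u, hbd, hnd, g1, g2, g3, g4⟩ := b.gam_data h.toEK hE hy h5 hT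
  simp only [List.nodup_cons, List.mem_cons, List.not_mem_nil, or_false, not_or, not_false_iff,
    List.nodup_nil, and_true] at hnd
  obtain ⟨⟨n1, n2, n3⟩, ⟨n4, n5⟩, n6⟩ := hnd
  obtain ⟨hpp, hpi⟩ := four_fam hbd n1 n2 n3 n4 n5 n6
  have hm : ∀ i, ![e, q, r, u] i ∈ G.bd A := fun i => by
    rw [hpp]
    exact mem_image_of_mem _ (mem_univ _)
  have hin : ∀ i j, i ≠ j → G.pi (![e, q, r, u] i) ≠ G.pi (![e, q, r, u] j) := fun i j hij =>
    b.inj h.toEK hE hy h5 (hm i) (hm j) fun k1 => hij (hpi k1)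
  rcases h.tplO b.oblk Tpl.gam_reg Tpl.gam_tab (by norm_num) (by decide) (by norm_num) hpp hpi
    (Or.inr (by omega)) (fun v _ => kap_one hin v) (fun X hX hev hXn hXA hv => by
      rw [mem_filter]
      refine ⟨mem_univ _, fun k1 => ?_, fun k1 => ?_⟩
      · exact g3 X hX hev (mem_kap.1 k1.1) (mem_kap.1 k1.2) hv
      · exact g4 X hX hev (mem_kap.1 k1.1) (mem_kap.1 k1.2) hv) (fun _ _ _ _ _ _ => mem_univ _)
    with ⟨M, m, m1, m2⟩ | ⟨p, c, p1, p2, p3, p4⟩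
  · left
    obtain ⟨i, hi⟩ := card_eq_one.1 (Tpl.gam_pat _ _ m2)
    exact ⟨_, M, m1, pat_sg hpp hpi hi⟩
  · right
    have hc := Tpl.gam_col c p2 p3
    have h1 : ∀ i, p (G.pi (![e, q, r, u] i)) = 1 := fun i => by
      have := p4 i
      rw [hc i] at this
      linarith
    refine ⟨p, p1, h1 0, fun d hd _ => ?_⟩
    rw [hpp] at hd
    obtain ⟨i, -, rfl⟩ := mem_image.1 hd
    exact h1 i

/-- **Pent**: a single outside, or one of two given triples -/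
theorem penB (hE : NoE G t fr F) (hy : ∃ y ∈ G.vs \ A, y ∉ fr ∧ 1 ≤ t y) (h5 : 5 ≤ A.card)
    (hsm : (fr ∩ A).card < fr.card ∨ 5 < (G.vs \ A).card) (hT : ∑ v ∈ G.vs \ A, t v = 1)
    {p q : D} (hp : p ∈ G.bd A) (hq : q ∈ G.bd A) (hpq : p ≠ q) :
    (∃ d, G.SOut fr F jm A d) ∨ G.TOut fr F jm A p ∨ G.TOut fr F jm A q := by
  obtain ⟨r, s, hbd, n1, n2, n3, n4, n5⟩ := b.fam2 hT hp hq hpq
  obtain ⟨hpp, hpi⟩ := four_fam (p := p) (q := r) (r := s) (s := q) (by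
    rw [hbd]
    ext x
    simp only [mem_insert, mem_singleton]
    tauto) n1 n2 hpq n5 n3.symm n4.symm
  have hm : ∀ i, ![p, r, s, q] i ∈ G.bd A := fun i => by
    rw [hpp]
    exact mem_image_of_mem _ (mem_univ _)
  have hin : ∀ i j, i ≠ j → G.pi (![p, r, s, q] i) ≠ G.pi (![p, r, s, q] j) := fun i j hij =>
    b.inj h.toEK hE hy h5 (hm i) (hm j) fun k1 => hij (hpi k1)
  obtain ⟨M, m, m1, m2⟩ := h.tplF b.oblk Tpl.pen_reg Tpl.pen_tab1 (by norm_num) (by decide)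
    (by norm_num) Tpl.pen_noC hpp hpi hsm (fun v _ => kap_one hin v)
    (fun _ _ _ _ _ _ => mem_univ _) (fun _ _ _ _ _ _ => mem_univ _)
  rcases Tpl.pen_pat _ _ m2 with h1 | h1 | h1
  · left
    obtain ⟨i, hi⟩ := card_eq_one.1 h1
    exact ⟨_, M, m1, pat_sg hpp hpi hi⟩
  · right
    right
    exact ⟨M, m1, pat_tr (i := 3) hpp hpi (h1.trans (by decide))⟩
  · right
    left
    exact ⟨M, m1, pat_tr (i := 0) hpp hpi (h1.trans (by decide))⟩

/-- **Lam**, if there is no odd set of value 5 with the ends of `p`, `q`, `e` -/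
theorem lamB' (hE : NoE G t fr F) (hy : ∃ y ∈ G.vs \ A, y ∉ fr ∧ 1 ≤ t y) (h5 : 5 ≤ A.card)
    (h5W : 5 ≤ (G.vs \ A).card) (hT : ∑ v ∈ G.vs \ A, t v = 1)
    {p q : D} (hp : p ∈ G.bd A) (hq : q ∈ G.bd A) (pe : p ≠ e) (qe : q ≠ e) (hpq : p ≠ q)
    (o5 : ∀ X ⊆ A, Odd X.card → G.pi p ∈ X → G.pi q ∈ X → G.pi e ∈ X → G.val one1 t X ≠ 5) :
    (∃ d, d ≠ e ∧ G.SOut fr F jm A d) ∨ G.TOut fr F jm A p ∨ G.TOut fr F jm A q ∨
      G.COut t F A e 1 (-1) := by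
  obtain ⟨u, hbd, n1, n2, n3⟩ := b.fam3 hT hp hq hpq pe qe
  obtain ⟨hpp, hpi⟩ := four_fam hbd hpq n1 pe n2 qe n3
  have hm : ∀ i, ![p, q, u, e] i ∈ G.bd A := fun i => by
    rw [hpp]
    exact mem_image_of_mem _ (mem_univ _)
  have hin : ∀ i j, i ≠ j → G.pi (![p, q, u, e] i) ≠ G.pi (![p, q, u, e] j) := fun i j hij =>
    b.inj h.toEK hE hy h5 (hm i) (hm j) fun k1 => hij (hpi k1)
  rcases h.tplO b.oblk Tpl.lam_reg Tpl.lam_tab2 (by norm_num) (by decide) (by norm_num) hpp hpi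
    (Or.inr (by omega)) (fun v _ => kap_one hin v) (fun X hX hev hXn hXA hv => by
      unfold Tpl.lamE
      rw [mem_filter]
      exact ⟨mem_univ _, fun k1 => b.two4 h.toEK hX hev hp hq hpq pe qe (mem_kap.1 k1.1)
        (mem_kap.1 k1.2) hv⟩) (fun X hX ho hX1 hXA hv => by
      rw [mem_filter]
      exact ⟨mem_univ _, fun k1 => o5 X hX ho (mem_kap.1 k1.1) (mem_kap.1 k1.2.1)
        (mem_kap.1 k1.2.2) hv⟩)
    with ⟨M, m, m1, m2⟩ | ⟨f, c, p1, p2, p3, p4⟩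
  · rcases Tpl.lam_pat _ _ m2 with h1 | h1 | h1 | h1 | h1
    · exact Or.inl ⟨p, pe, M, m1, pat_sg hpp hpi h1⟩
    · exact Or.inl ⟨q, qe, M, m1, pat_sg hpp hpi h1⟩
    · exact Or.inl ⟨u, n3, M, m1, pat_sg hpp hpi h1⟩
    · exact Or.inr (Or.inr (Or.inl ⟨M, m1, pat_tr (i := 1) hpp hpi (h1.trans (by decide))⟩))
    · exact Or.inr (Or.inl ⟨M, m1, pat_tr (i := 0) hpp hpi (h1.trans (by decide))⟩)
  · right
    right
    right
    obtain ⟨c0, c1, c2, c3⟩ := Tpl.lam_col c p2 p3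
    have q0 : f (G.pi p) + c (Tpl.lam.pt 0) = 0 := p4 0
    have q1 : f (G.pi q) + c (Tpl.lam.pt 1) = 0 := p4 1
    have q2 : f (G.pi u) + c (Tpl.lam.pt 2) = 0 := p4 2
    have q3 : f (G.pi e) + c (Tpl.lam.pt 3) = 0 := p4 3
    refine ⟨f, p1, by linarith, fun d hd hde => ?_⟩
    rw [hbd] at hd
    simp only [mem_insert, mem_singleton] at hd
    rcases hd with rfl | rfl | rfl | rfl
    · linarith
    · linarith
    · linarith
    · exact absurd rfl hde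

end X6

end MG

end RH
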