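import Pool.Agent.Lib.RH.CE6D2
import Pool.Agent.Lib.RH.CE6SetG

/-! CE6 S1, 1.6 (i): two exits of `W` at the same vertex `z0`. -/

set_option autoImplicit false

namespace RH

open Finset Classical

namespace MG

variable {V D : Type*} {G : MG V D} {t : V → ℝ}
variable {fr : Finset V} {F M T : Finset D} {jm A W X S : Finset V} {e dy d : D}

theorem nodup4 {e i j k : D} (hnd : [e, i, j, k].Nodup) :
    e ≠ i ∧ e ≠ j ∧ e ≠ k ∧ i ≠ j ∧ i ≠ k ∧ j ≠ k := by
  simp only [List.nodup_cons, List.mem_cons, List.not_mem_nil, or_false, not_or, not_false_iff,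
    List.nodup_nil, and_true] at hnd
  obtain ⟨⟨h1, h2, h3⟩, ⟨h4, h5⟩, h6⟩ := hnd
  exact ⟨h1, h2, h3, h4, h5, h6⟩

/-- the exits of the inner side -/
theorem bdW_mem (hA : A ⊆ G.vs) {i j k : D} (hbd : G.bd A = {e, i, j, k})
    (hd : d ∈ G.bd (G.vs \ A)) : d = G.al e ∨ d = G.al i ∨ d = G.al j ∨ d = G.al k := by
  have hx' := bd_al' hA hd
  have hxx : d = G.al (G.al d) := (G.al_al d (mem_bd.1 hd).1).symm
  rw [hbd] at hx'
  simp only [mem_insert, mem_singleton] at hx'
  rcases hx' with h6 | h6 | h6 | h6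
  · exact Or.inl (by rw [hxx, h6])
  · exact Or.inr (Or.inl (by rw [hxx, h6]))
  · exact Or.inr (Or.inr (Or.inl (by rw [hxx, h6])))
  · exact Or.inr (Or.inr (Or.inr (by rw [hxx, h6])))

/-- the star is not in `W` -/
theorem spI0 (hjA : jm ⊆ A) : SpI G fr jm (G.vs \ A) ∅ ∅ := by
  refine ⟨empty_subset _, fun d hd => absurd hd (notMem_empty d), Or.inl ⟨rfl, rfl, ?_⟩⟩
  by_cases h1 : jm = ∅
  · exact Or.inl h1
  · right
    intro h2
    obtain ⟨v, hv⟩ := nonempty_iff_ne_empty.2 h1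
    exact (mem_sdiff.1 (h2 hv)).2 (hjA hv)

/-- **(i)** -/
theorem X6.caseI [Infinite V] [Infinite D] (h : X6 G t fr F jm) (b : BW G t F A e)
    (s : StD G t fr A e dy) (hjA : jm ⊆ A) (h0 : ∀ d ∈ G.bd A, t (G.pi (G.al d)) = 0)
    {i j k : D} (hbd : G.bd A = {e, i, j, k}) (hnd : [e, i, j, k].Nodup)
    (hij : G.pi (G.al i) = G.pi (G.al j)) :
    G.TIn fr F jm A i ∨ G.TIn fr F jm A j ∨ G.CIn t F A e (-1) (-1) := by
  obtain ⟨n1, n2, n3, n4, n5, n6⟩ := nodup4 hnd
  have hA := b.hA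
  have xe : e ∈ G.bd A := b.he
  have xi : i ∈ G.bd A := by rw [hbd]; simp
  have xj : j ∈ G.bd A := by rw [hbd]; simp
  have xk : k ∈ G.bd A := by rw [hbd]; simp
  have ye := bd_al hA xe
  have yi := bd_al hA xi
  have yj := bd_al hA xj
  have yk := bd_al hA xk
  have hnF := b.nF h.toEK
  have ane : ∀ {x y : D}, x ∈ G.bd A → y ∈ G.bd A → x ≠ y → G.al x ≠ G.al y := fun hx hy hxy h1 =>
    hxy ((al_eq (mem_bd.1 hx).1 (mem_bd.1 hy).1).1 h1)
  obtain ⟨W, hW⟩ : ∃ W, W = G.vs \ A := ⟨_, rfl⟩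
  obtain ⟨z0, hz0⟩ : ∃ z0, z0 = G.pi (G.al i) := ⟨_, rfl⟩
  have zW : z0 ∈ G.vs \ A := by rw [hz0]; exact (mem_bd.1 yi).2.1
  have zfr : z0 ∉ fr := by
    intro h1
    rw [hz0] at h1
    exact ane xi xj n4 (h.fresh.uniq (mem_bd.1 yi).1 (mem_bd.1 yj).1 hij h1 (hnF _ yi) (hnF _ yj))
  have tz : t z0 = 0 := by rw [hz0]; exact h0 i xi
  have hWv : G.vs \ A ⊆ G.vs := sdiff_subset
  -- value of the rest
  have hval := h.wt.val_erase hWv zW
  rw [tz, b.val] at hval
  obtain ⟨E, hE⟩ : ∃ E, E = G.ed {z0} (G.vs \ (G.vs \ A)) := ⟨_, rfl⟩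
  have hEs : ∑ d ∈ G.ed {z0} (G.vs \ (G.vs \ A)), one1 d = (E.card : ℝ) := by
    rw [← hE]
    unfold one1
    rw [sum_const, nsmul_eq_mul, mul_one]
  rw [hEs] at hval
  have mE : ∀ x, x ∈ G.bd A → G.pi (G.al x) = z0 → G.al x ∈ E := by
    intro x hx hxz
    rw [hE, mem_ed, mem_singleton]
    refine ⟨(mem_bd.1 (bd_al hA hx)).1, hxz, ?_⟩
    rw [Finset.sdiff_sdiff_eq_self hA, G.al_al _ (mem_bd.1 hx).1]
    exact (mem_bd.1 hx).2.1
  have hsub2 : ({G.al i, G.al j} : Finset D) ⊆ E := by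
    intro x hx
    simp only [mem_insert, mem_singleton] at hx
    rcases hx with rfl | rfl
    · exact mE i xi hz0.symm
    · exact mE j xj (by rw [← hij, hz0])
  have hE2 : 2 ≤ E.card := by
    rw [← card_pair (ane xi xj n4)]
    exact card_le_card hsub2
  have hcW : ((G.vs \ A).erase z0).card = (G.vs \ A).card - 1 := card_erase_of_mem zW
  have hodd := Nat.odd_iff.1 b.odd
  have hbig := b.big
  have hev : Even ((G.vs \ A).erase z0).card := by
    rw [hcW, Nat.even_iff]
    omega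
  have hA'v : (G.vs \ A).erase z0 ⊆ G.vs := (erase_subset _ _).trans hWv
  have h4 := h.evn _ hA'v hev (card_pos.1 (by omega)) (by
    intro h1
    have h2 : z0 ∈ (G.vs \ A).erase z0 := by rw [h1]; exact hWv zW
    exact (mem_erase.1 h2).1 rfl)
  have hE2' : E.card = 2 := by
    have h5 : (E.card : ℝ) ≤ ((2 : ℕ) : ℝ) := by
      push_cast
      linarith
    have h6 : E.card ≤ 2 := by exact_mod_cast h5
    omega
  have hval4 : G.val one1 t ((G.vs \ A).erase z0) = 4 := by
    rw [hval, hE2']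
    norm_num
  have hEeq : ({G.al i, G.al j} : Finset D) = E := eq_of_subset_of_card_le hsub2 (by
    rw [hE2', card_pair (ane xi xj n4)])
  have ze : G.pi (G.al e) ≠ z0 := fun h1 => n1 (s.ub i xi (by rw [← hz0, h1])).symm
  have zk : G.pi (G.al k) ≠ z0 := by
    intro h1
    have h2 := mE k xk h1
    rw [← hEeq] at h2
    simp only [mem_insert, mem_singleton] at h2
    rcases h2 with h2 | h2
    · exact ane xk xi n5.symm h2
    · exact ane xk xj n6.symm h2
  have hins : insert z0 ((G.vs \ A).erase z0) = G.vs \ A := insert_erase zW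
  have hzn : z0 ∉ (G.vs \ A).erase z0 := notMem_erase _ _
  -- the ports
  have bd' : ∀ {x : D}, x ∈ G.bd A → G.pi (G.al x) ≠ z0 → G.al x ∈ G.bd ((G.vs \ A).erase z0) := by
    intro x hx hxz
    obtain ⟨k1, k2, k3⟩ := mem_bd.1 (bd_al hA hx)
    exact mem_bd.2 ⟨k1, mem_erase.2 ⟨hxz, k2⟩, fun k4 => k3 (mem_erase.1 k4).2⟩
  have hpb : ∀ m, ![G.al e, G.al k] m ∈ G.bd ((G.vs \ A).erase z0) := by
    intro m
    fin_cases m
    · exact bd' xe ze
    · exact bd' xk zk
  have hpW : ∀ m, ![G.al e, G.al k] m ∈ G.bd (G.vs \ A) := by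
    intro m
    fin_cases m
    · exact ye
    · exact yk
  have hne := ane xe xk n3
  have hpi : Function.Injective ![G.al e, G.al k] := by
    intro m n hmn
    fin_cases m <;> fin_cases n
    · rfl
    · exact absurd hmn hne
    · exact absurd hmn.symm hne
    · rfl
  have ib : IBlk G t ((G.vs \ A).erase z0) 0 := by
    refine ⟨hA'v, ?_, ⟨z0, mem_sdiff.2 ⟨hWv zW, hzn⟩⟩, ?_⟩
    · rw [hcW]
      omega
    · rw [hval4]
      norm_num
  have hA3 := s.A3
  have hcv : 2 < (G.vs \ (G.vs \ A).erase z0).card := by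
    have h5 : A ⊆ G.vs \ (G.vs \ A).erase z0 := fun v hv =>
      mem_sdiff.2 ⟨hA hv, fun h6 => (mem_sdiff.1 (mem_erase.1 h6).2).2 hv⟩
    have := card_le_card h5
    omega
  rcases h.tplI ib Tpl.bb_reg Tpl.bb_tab (by decide) (by norm_num) hpb hpi (Or.inr hcv)
    (Ts := ∅) (Or.inl rfl) (fun v hv => absurd hv (notMem_empty v))
    (fun v _ => kap_one (pp := ![G.al e, G.al k]) (fun m n hmn => by
      fin_cases m <;> fin_cases n
      · exact absurd rfl hmn
      · exact fun h5 => n3 (s.ub k xk h5.symm).symm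
      · exact fun h5 => n3 (s.ub k xk h5).symm
      · exact absurd rfl hmn) v)
    (fun _ _ _ _ _ _ => mem_univ _) (fun _ _ _ _ _ _ => mem_univ _) with
    ⟨M, m, h1, h2⟩ | ⟨p, c, p1, p2, p3, p4, p5⟩
  · left
    have h3 := Tpl.bb_pat _ _ h2
    have mem : ∀ m, ![G.al e, G.al k] m ∈ M := fun m => by
      have h5 : m ∈ univ.filter fun m => ![G.al e, G.al k] m ∈ M := by
        rw [h3]
        fin_cases m
        · exact mem_insert_self _ _
        · exact mem_insert_of_mem (mem_singleton_self _)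
      exact (mem_filter.1 h5).2
    have h5 := h1.addQ h.fresh (b := z0) (eb := G.al j) hzn zfr (by rw [hins]; exact yj)
      (by rw [← hij, hz0]) (by rw [hins]; exact hpW) (by rw [hins]; exact hnF)
      (fun v hv => absurd hv (notMem_empty v))
    rw [hins] at h5
    have h6 := ISol.out (T := ∅) (S := ∅) h.fresh h.jm2 hnF (spI0 hjA)
      (by rw [image_empty, union_empty]; exact h5) (fun d hd => absurd hd (notMem_empty d))
    refine ⟨_, h6.1, yi, fun x hx => ?_⟩
    rw [mem_insert]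
    rcases bdW_mem hA hbd hx with rfl | rfl | rfl | rfl
    · exact ⟨fun _ => ane xe xi n1, fun _ => Or.inr (mem 0)⟩
    · constructor
      · rintro (h7 | h7)
        · exact absurd h7 (ane xi xj n4)
        · exact absurd (h1.hm.sub _ h7).2 (by rw [← hz0]; exact hzn)
      · exact fun h7 => absurd rfl h7
    · exact ⟨fun _ => ane xj xi n4.symm, fun _ => Or.inl rfl⟩
    · exact ⟨fun _ => ane xk xi n5.symm, fun _ => Or.inr (mem 1)⟩
  · right
    right
    have c0 : c (Tpl.bb.pt 0) = 1 := p4 _ (by decide)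
    have c1 : c (Tpl.bb.pt 1) = 1 := p4 _ (by decide)
    have q0 : p (G.pi (G.al e)) = -1 := by
      have := p5 0
      rw [c0] at this
      change p (G.pi (G.al e)) + 1 = 0 at this
      linarith
    have q1 : p (G.pi (G.al k)) = -1 := by
      have := p5 1
      rw [c1] at this
      change p (G.pi (G.al k)) + 1 = 0 at this
      linarith
    have h3 : G.HPot one1 t F (insert z0 ((G.vs \ A).erase z0))
        (fun v => if v = z0 then -1 else p v) := by
      refine p1.insert tz (fun d hd hdb => zfr (hdb ▸ h.fresh.Ffr d hd)) h.fresh.Fal ?_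
        (fun _ _ => rfl)
      intro d hd hdb hdA _
      refine p2 _ ⟨mem_bd.2 ⟨G.al_mem d hd, hdA, ?_⟩, ?_⟩
      · rw [G.al_al d hd, hdb]
        exact hzn
      · intro m hm
        have h5 : G.pi (G.al (![G.al e, G.al k] m)) = z0 := by
          rw [hm, G.al_al d hd, hdb]
        have h6 : G.pi (G.al (![G.al e, G.al k] m)) ∉ G.vs \ A := (mem_bd.1 (hpW m)).2.2
        rw [h5] at h6
        exact h6 zW
    rw [hins] at h3
    refine ⟨_, h3, by rw [if_neg ze, q0], fun d hd hde => ?_⟩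
    rw [hbd] at hd
    simp only [mem_insert, mem_singleton] at hd
    rcases hd with rfl | rfl | rfl | rfl
    · exact absurd rfl hde
    · rw [if_pos hz0.symm]
    · rw [if_pos (by rw [← hij, hz0])]
    · rw [if_neg zk, q1]

end MG

end RH
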