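import Pool.Agent.Lib.RH.Base

/-! # Tutte's theorem with at most six tokens (terminal states)

`exists_viol`: a Tutte violator for the support. `tutte6`: with at most 6 tokens and no perfect
matching in the support the violator `S` has exactly `|S| + 2` odd components, all tight, all tokens
lie in them and every positive edge at `S` leads to them. `terminal`: if there are no tight sets with
at least three vertices, then the support is bipartite. -/

set_option autoImplicit false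

namespace RH

open Finset Classical

namespace MG

variable {V D : Type*}

/-- a Tutte violator for the darts of positive weight -/
theorem exists_viol (G : MG V D) (z : D → ℝ) (he : Even G.vs.card)
    (hs : ∀ d ∈ G.ds, z (G.al d) = z d) (hno : ¬ ∃ M, G.IsPM M ∧ ∀ d ∈ M, 0 < z d) :
    ∃ (S : Finset V) (C : Finset (Finset V)), S ⊆ G.vs ∧ S.card + 2 ≤ C.card ∧
      (∀ X ∈ C, X ⊆ G.vs ∧ Odd X.card ∧ Disjoint X S) ∧
      (∀ X ∈ C, ∀ Y ∈ C, X ≠ Y → Disjoint X Y) ∧
      ∀ X ∈ C, ∀ d ∈ G.bd X, 0 < z d → G.pi (G.al d) ∈ S := by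
  have hnot : ¬ ∃ M : (baseS G z hs).Subgraph, M.IsPerfectMatching := fun ⟨M, hM⟩ =>
    hno (base_pm G z hs M hM)
  rw [SimpleGraph.tutte] at hnot
  push Not at hnot
  obtain ⟨u, hu⟩ := hnot
  unfold SimpleGraph.IsTutteViolator at hu
  set S : (baseS G z hs).Subgraph := (⊤ : (baseS G z hs).Subgraph).deleteVerts u with hS
  set H := S.coe with hH
  have hverts : ∀ w : {v // v ∈ G.vs}, w ∈ S.verts ↔ w ∉ u := by
    intro w
    simp [hS]
  have : Finite S.verts := Subtype.finite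
  have : Finite H.ConnectedComponent := Quot.finite _
  let : Fintype H.ConnectedComponent := Fintype.ofFinite _
  -- the set U
  set U : Finset V := G.vs.filter fun v => ∃ h : v ∈ G.vs, (⟨v, h⟩ : {v // v ∈ G.vs}) ∈ u with hU
  have hUsub : U ⊆ G.vs := filter_subset _ _
  have hUcard : U.card = u.ncard := by
    rw [← Set.ncard_coe_finset]
    have : (U : Set V) = Subtype.val '' u := by
      ext v
      simp only [hU, coe_filter, Set.mem_ofPred_eq, Set.mem_image]
      constructor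
      · rintro ⟨_, h, h'⟩; exact ⟨_, h', rfl⟩
      · rintro ⟨⟨w, hw⟩, h, rfl⟩; exact ⟨hw, hw, h⟩
    rw [this, Set.ncard_image_of_injective _ Subtype.val_injective]
  -- the components
  set Q : H.ConnectedComponent → Finset V := fun c => G.vs.filter fun v =>
    ∃ (h : v ∈ G.vs) (h' : (⟨v, h⟩ : {v // v ∈ G.vs}) ∈ S.verts),
      H.connectedComponentMk ⟨⟨v, h⟩, h'⟩ = c with hQ
  have hQsub : ∀ c, Q c ⊆ G.vs := fun c => filter_subset _ _
  have hQcard : ∀ c, (Q c).card = c.supp.ncard := by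
    intro c
    rw [← Set.ncard_coe_finset]
    have : (Q c : Set V) = (fun x : S.verts => ((x : {v // v ∈ G.vs}) : V)) '' c.supp := by
      ext v
      simp only [hQ, coe_filter, Set.mem_ofPred_eq, Set.mem_image,
        SimpleGraph.ConnectedComponent.mem_supp_iff]
      constructor
      · rintro ⟨_, h, h', h''⟩; exact ⟨_, h'', rfl⟩
      · rintro ⟨⟨⟨w, hw⟩, hw'⟩, h, rfl⟩; exact ⟨hw, hw, hw', h⟩
    rw [this, Set.ncard_image_of_injective]
    intro x y hxy
    exact Subtype.ext (Subtype.ext hxy)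
  have hQdis : ∀ c c', c ≠ c' → Disjoint (Q c) (Q c') := by
    intro c c' hcc
    rw [Finset.disjoint_left]
    intro v hv hv'
    simp only [hQ, mem_filter] at hv hv'
    obtain ⟨_, h, h1, h2⟩ := hv
    obtain ⟨_, h', h1', h2'⟩ := hv'
    exact hcc (h2.symm.trans h2')
  have hleave : ∀ c, ∀ d ∈ G.bd (Q c), 0 < z d → G.pi (G.al d) ∈ U := by
    intro c d hd hzd
    unfold bd at hd
    rw [mem_filter] at hd
    obtain ⟨hds, hp, hp'⟩ := hd
    have hpa : G.pi (G.al d) ∈ G.vs := G.pi_mem _ (G.al_mem _ hds)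
    by_contra hnU
    have hnu : (⟨G.pi (G.al d), hpa⟩ : {v // v ∈ G.vs}) ∉ u := by
      intro h
      exact hnU (by simp only [hU, mem_filter]; exact ⟨hpa, hpa, h⟩)
    have hv2 := (hverts _).mpr hnu
    simp only [hQ, mem_filter] at hp
    obtain ⟨hpv, h, h', h''⟩ := hp
    apply hp'
    simp only [hQ, mem_filter]
    refine ⟨hpa, hpa, hv2, ?_⟩
    rw [← h'']
    apply SimpleGraph.ConnectedComponent.sound
    apply SimpleGraph.Adj.reachable
    have hadj : (baseS G z hs).Adj ⟨G.pi (G.al d), hpa⟩ ⟨G.pi d, h⟩ := by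
      refine ⟨fun h => G.noloop d hds (congrArg Subtype.val h), G.al d, G.al_mem _ hds, ?_, rfl,
        ?_⟩
      · rw [hs d hds]
        exact hzd
      · rw [G.al_al _ hds]
    change S.Adj _ _
    exact (SimpleGraph.Subgraph.deleteVerts_adj (G' := (⊤ : (baseS G z hs).Subgraph))
      (s := u)).mpr ⟨Set.mem_univ _, (hverts _).mp hv2, Set.mem_univ _, (hverts _).mp h', hadj⟩
  set OC : Finset H.ConnectedComponent := univ.filter fun c => c ∈ H.oddComponents with hOC
  have hOCcard : OC.card = H.oddComponents.ncard := by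
    rw [← Set.ncard_coe_finset]
    congr 1
    ext c
    simp [hOC]
  have hodd : ∀ c ∈ OC, Odd (Q c).card := by
    intro c hc
    rw [hQcard]
    have : c ∈ H.oddComponents := (mem_filter.mp hc).2
    exact this
  -- parity
  have hpar : Odd OC.card ↔ Odd (Nat.card S.verts) := by
    rw [hOCcard]
    exact H.odd_ncard_oddComponents
  have hSv : Nat.card S.verts + U.card = G.vs.card := by
    have h1 : Nat.card S.verts = (uᶜ : Set {v // v ∈ G.vs}).ncard := by
      have : S.verts = uᶜ := by ext w; rw [hverts]; rfl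
      rw [this]; rfl
    rw [h1, hUcard, add_comm, Set.ncard_add_ncard_compl, Nat.card_eq_fintype_card,
      Fintype.card_coe]
  rw [← hOCcard, ← hUcard] at hu
  rw [Nat.odd_iff, Nat.odd_iff] at hpar
  rw [Nat.even_iff] at he
  have hinj : Set.InjOn Q OC := by
    intro c hc c' hc' hcc
    by_contra hne
    have h1 := hQdis c c' hne
    rw [hcc] at h1
    have h2 := hodd c' (mem_coe.1 hc')
    rw [disjoint_self_iff_empty] at h1
    rw [h1] at h2
    simp at h2
  refine ⟨U, OC.image Q, hUsub, ?_, ?_, ?_, ?_⟩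
  · rw [card_image_of_injOn hinj]
    omega
  · intro X hX
    obtain ⟨c, hc, rfl⟩ := mem_image.1 hX
    refine ⟨hQsub c, hodd c hc, ?_⟩
    rw [Finset.disjoint_left]
    intro v hv hvU
    simp only [hQ, mem_filter] at hv
    simp only [hU, mem_filter] at hvU
    obtain ⟨_, h, h', -⟩ := hv
    obtain ⟨_, h2, h3⟩ := hvU
    exact (hverts _).1 h' h3
  · intro X hX Y hY hne
    obtain ⟨c, hc, rfl⟩ := mem_image.1 hX
    obtain ⟨c', hc', rfl⟩ := mem_image.1 hY
    exact hQdis c c' fun h => hne (by rw [h])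
  · intro X hX d hd hz
    obtain ⟨c, hc, rfl⟩ := mem_image.1 hX
    exact hleave c d hd hz

/-- TUTTE AT SIX TOKENS: no perfect matching in the support and at most six tokens -/
theorem tutte6 (G : MG V D) (z : D → ℝ) (t : V → ℝ) (he : Even G.vs.card) (hw : G.Wt z t)
    (ht : ∑ v ∈ G.vs, t v ≤ 6) (hno : ¬ ∃ M, G.IsPM M ∧ ∀ d ∈ M, 0 < z d) :
    ∃ (S : Finset V) (C : Finset (Finset V)), S ⊆ G.vs ∧ C.card = S.card + 2 ∧
      (∀ X ∈ C, X ⊆ G.vs ∧ Odd X.card ∧ Disjoint X S ∧ G.val z t X = 3) ∧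
      (∀ X ∈ C, ∀ Y ∈ C, X ≠ Y → Disjoint X Y) ∧
      (∀ X ∈ C, ∀ d ∈ G.bd X, 0 < z d → G.pi (G.al d) ∈ S) ∧
      (∀ v ∈ G.vs, t v ≠ 0 → ∃ X ∈ C, v ∈ X) ∧
      ∀ d ∈ G.ds, G.pi d ∈ S → 0 < z d → ∃ X ∈ C, G.pi (G.al d) ∈ X := by
  obtain ⟨S, C, hSs, hcard, hX, hdis, hout⟩ := exists_viol G z he hw.sym hno
  obtain ⟨B, hB⟩ : ∃ B : Finset D, B = (C.biUnion fun X => G.bd X).filter fun d => 0 < z d :=
    ⟨_, rfl⟩
  have mB : ∀ d, d ∈ B ↔ (∃ X ∈ C, d ∈ G.bd X) ∧ 0 < z d := by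
    intro d
    rw [hB, mem_filter, mem_biUnion]
  have hbd : ∀ X, ∀ d ∈ G.bd X, d ∈ G.ds ∧ G.pi d ∈ X ∧ G.pi (G.al d) ∉ X := by
    intro X d hd
    unfold bd at hd
    exact mem_filter.1 hd
  have hBds : ∀ d ∈ B, d ∈ G.ds ∧ G.pi (G.al d) ∈ S := by
    intro d hd
    obtain ⟨⟨X, hXC, hdX⟩, hz⟩ := (mB d).1 hd
    exact ⟨(hbd X d hdX).1, hout X hXC d hdX hz⟩
  have e1 : ∑ X ∈ C, ∑ d ∈ G.bd X, z d = ∑ d ∈ B, z d := by
    rw [← sum_biUnion, hB, sum_filter_of_ne]
    · intro d hd hne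
      rw [mem_biUnion] at hd
      obtain ⟨X, hXC, hdX⟩ := hd
      exact lt_of_le_of_ne (hw.z0 d (hbd X d hdX).1) hne.symm
    · intro X hXC Y hYC hne
      change Disjoint (G.bd X) (G.bd Y)
      rw [Finset.disjoint_left]
      intro d hd hd'
      exact (Finset.disjoint_left.mp (hdis X hXC Y hYC hne)) (hbd X d hd).2.1 (hbd Y d hd').2.1
  have e2 : ∑ d ∈ B, z d = ∑ d ∈ B.image G.al, z d := by
    rw [sum_image]
    · exact sum_congr rfl fun d hd => (hw.sym d (hBds d hd).1).symm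
    · intro d hd d' hd' h
      rw [← G.al_al d (hBds d hd).1, ← G.al_al d' (hBds d' hd').1, h]
  have h3 : B.image G.al ⊆ S.biUnion fun v => G.st v := by
    intro x hx
    obtain ⟨d, hd, rfl⟩ := mem_image.1 hx
    rw [mem_biUnion]
    refine ⟨_, (hBds d hd).2, ?_⟩
    unfold st
    rw [mem_filter]
    exact ⟨G.al_mem _ (hBds d hd).1, rfl⟩
  have hst0 : ∀ x ∈ S.biUnion fun v => G.st v, 0 ≤ z x := by
    intro x hx
    rw [mem_biUnion] at hx
    obtain ⟨v, -, hx⟩ := hx
    unfold st at hx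
    exact hw.z0 x (mem_filter.1 hx).1
  have e4 : ∑ d ∈ S.biUnion (fun v => G.st v), z d = 3 * (S.card : ℝ) - ∑ v ∈ S, t v := by
    have h5 : ∑ d ∈ S.biUnion (fun v => G.st v), z d = ∑ v ∈ S, ∑ d ∈ G.st v, z d := by
      rw [sum_biUnion]
      intro v _ w _ hvw
      change Disjoint (G.st v) (G.st w)
      rw [Finset.disjoint_left]
      intro d hd hd'
      unfold st at hd hd'
      rw [mem_filter] at hd hd'
      exact hvw (hd.2.symm.trans hd'.2)
    have h6 : ∑ v ∈ S, ∑ d ∈ G.st v, z d = ∑ v ∈ S, (3 - t v) := by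
      refine sum_congr rfl fun v hv => ?_
      have h7 := hw.deg v (hSs hv)
      linarith
    rw [h5, h6, sum_sub_distrib, sum_const, nsmul_eq_mul, mul_comm]
  have hle : ∑ d ∈ B.image G.al, z d ≤ ∑ d ∈ S.biUnion (fun v => G.st v), z d :=
    sum_le_sum_of_subset_of_nonneg h3 fun x hx _ => hst0 x hx
  have hTsub : C.biUnion (fun X => X) ⊆ G.vs := by
    intro v hv
    obtain ⟨X, hXC, hvX⟩ := mem_biUnion.1 hv
    exact (hX X hXC).1 hvX
  have e5 : ∑ X ∈ C, ∑ v ∈ X, t v = ∑ v ∈ C.biUnion (fun X => X), t v := by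
    rw [sum_biUnion]
    intro X hXC Y hYC hne
    exact hdis X hXC Y hYC hne
  have hTle : ∑ v ∈ C.biUnion (fun X => X), t v ≤ ∑ v ∈ G.vs, t v :=
    sum_le_sum_of_subset_of_nonneg hTsub fun v hv _ => hw.t0 v hv
  have e6 : ∑ X ∈ C, G.val z t X =
      ∑ X ∈ C, ∑ d ∈ G.bd X, z d + ∑ X ∈ C, ∑ v ∈ X, t v := by
    rw [← sum_add_distrib]
    rfl
  have h7 : ∀ X ∈ C, 0 ≤ G.val z t X - 3 := by
    intro X hXC
    have := hw.cut X (hX X hXC).1 (hX X hXC).2.1
    linarith
  have h8 : ∑ X ∈ C, (G.val z t X - 3) = ∑ X ∈ C, G.val z t X - 3 * (C.card : ℝ) := by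
    rw [sum_sub_distrib, sum_const, nsmul_eq_mul, mul_comm]
  have h9 := sum_nonneg h7
  have h10 : (0 : ℝ) ≤ ∑ v ∈ S, t v := sum_nonneg fun v hv => hw.t0 v (hSs hv)
  have h11 : ((S.card : ℝ) + 2) ≤ (C.card : ℝ) := by exact_mod_cast hcard
  rw [h8, e6, e1, e2, e5] at h9
  have hc : (C.card : ℝ) = (S.card : ℝ) + 2 := by linarith
  have hz1 : ∑ X ∈ C, (G.val z t X - 3) = 0 := by
    rw [h8, e6, e1, e2, e5]
    linarith
  have hz2 : ∑ v ∈ G.vs \ C.biUnion (fun X => X), t v = 0 := by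
    have := sum_sdiff hTsub (f := t)
    linarith
  have hz3 : ∑ d ∈ (S.biUnion fun v => G.st v) \ B.image G.al, z d = 0 := by
    have := sum_sdiff h3 (f := z)
    linarith
  refine ⟨S, C, hSs, by exact_mod_cast hc, ?_, hdis, hout, ?_, ?_⟩
  · intro X hXC
    have h12 := (sum_eq_zero_iff_of_nonneg h7).1 hz1 X hXC
    exact ⟨(hX X hXC).1, (hX X hXC).2.1, (hX X hXC).2.2, by linarith⟩
  · intro v hv hne
    by_contra hcon
    push Not at hcon
    have h12 : v ∈ G.vs \ C.biUnion (fun X => X) := by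
      rw [mem_sdiff, mem_biUnion]
      refine ⟨hv, ?_⟩
      rintro ⟨X, hXC, hvX⟩
      exact hcon X hXC hvX
    exact hne ((sum_eq_zero_iff_of_nonneg fun v hv => hw.t0 v (mem_sdiff.1 hv).1).1 hz2 v h12)
  · intro d hd hdS hz
    by_contra hcon
    push Not at hcon
    have h12 : d ∈ (S.biUnion fun v => G.st v) \ B.image G.al := by
      rw [mem_sdiff, mem_biUnion, mem_image]
      refine ⟨⟨G.pi d, hdS, ?_⟩, ?_⟩
      · unfold st
        exact mem_filter.2 ⟨hd, rfl⟩
      · rintro ⟨e, heB, rfl⟩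
        obtain ⟨⟨X, hXC, heX⟩, -⟩ := (mB e).1 heB
        refine hcon X hXC ?_
        rw [G.al_al e (hBds e heB).1]
        exact (hbd X e heX).2.1
    have h13 := (sum_eq_zero_iff_of_nonneg fun x hx => hst0 x (mem_sdiff.1 hx).1).1 hz3 d h12
    rw [h13] at hz
    exact lt_irrefl _ hz

/-- TERMINAL STATES: six tokens, no tight set with at least three vertices, no proper nonempty even
set of value 0, no perfect matching in the support. Then the support is bipartite, all tokens are in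
the larger class `I`, and `|I| = |S| + 2`. -/
theorem terminal (G : MG V D) (z : D → ℝ) (t : V → ℝ) (he : Even G.vs.card) (hw : G.Wt z t)
    (ht : ∑ v ∈ G.vs, t v ≤ 6) (hno : ¬ ∃ M, G.IsPM M ∧ ∀ d ∈ M, 0 < z d)
    (hnt : ∀ X ⊆ G.vs, Odd X.card → 3 ≤ X.card → G.val z t X ≠ 3)
    (hcon : ∀ X ⊆ G.vs, Even X.card → X.Nonempty → X ≠ G.vs → G.val z t X ≠ 0) :
    ∃ I S : Finset V, I ∪ S = G.vs ∧ Disjoint I S ∧ I.card = S.card + 2 ∧
      (∀ d ∈ G.ds, 0 < z d → (G.pi d ∈ I ↔ G.pi (G.al d) ∈ S)) ∧ ∀ v ∈ S, t v = 0 := by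
  obtain ⟨S, C, hSs, hcard, hX, hdis, hout, htok, hSC⟩ := tutte6 G z t he hw ht hno
  have hone : ∀ X ∈ C, X.card = 1 := by
    intro X hXC
    obtain ⟨h1, h2, -, h3⟩ := hX X hXC
    by_contra h4
    obtain ⟨k, hk⟩ := h2
    exact hnt X h1 ⟨k, hk⟩ (by omega) h3
  obtain ⟨I, hI⟩ : ∃ I : Finset V, I = C.biUnion (fun X => X) := ⟨_, rfl⟩
  have mI : ∀ v, v ∈ I ↔ ∃ X ∈ C, v ∈ X := by
    intro v
    rw [hI, mem_biUnion]
  have hIs : I ⊆ G.vs := by
    intro v hv
    obtain ⟨X, hXC, hvX⟩ := (mI v).1 hv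
    exact (hX X hXC).1 hvX
  have hIS : Disjoint I S := by
    rw [Finset.disjoint_left]
    intro v hv hvS
    obtain ⟨X, hXC, hvX⟩ := (mI v).1 hv
    exact Finset.disjoint_left.1 (hX X hXC).2.2.1 hvX hvS
  have hIc : I.card = S.card + 2 := by
    rw [hI, card_biUnion (fun X hXC Y hYC hne => hdis X hXC Y hYC hne),
      sum_congr rfl (fun X hXC => hone X hXC), sum_const, smul_eq_mul, mul_one, hcard]
  have hleave : ∀ d ∈ G.ds, G.pi d ∈ I → 0 < z d → G.pi (G.al d) ∈ S := by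
    intro d hd hdI hz
    obtain ⟨X, hXC, hdX⟩ := (mI _).1 hdI
    refine hout X hXC d ?_ hz
    unfold bd
    refine mem_filter.2 ⟨hd, hdX, fun h1 => ?_⟩
    obtain ⟨a, ha⟩ := card_eq_one.1 (hone X hXC)
    rw [ha, mem_singleton] at hdX h1
    exact G.noloop d hd (h1.trans hdX.symm)
  have hR : G.vs \ (I ∪ S) = ∅ := by
    by_contra hne
    have hRs : G.vs \ (I ∪ S) ⊆ G.vs := sdiff_subset
    refine hcon _ hRs ?_ (nonempty_iff_ne_empty.2 hne) ?_ ?_
    · have h1 := card_sdiff_add_card_eq_card (union_subset hIs hSs)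
      rw [card_union_of_disjoint hIS, hIc] at h1
      rw [Nat.even_iff] at he ⊢
      omega
    · intro h1
      have h2 : I = ∅ := by
        rw [eq_empty_iff_forall_notMem]
        intro v hv
        have h3 : v ∈ G.vs \ (I ∪ S) := by
          rw [h1]
          exact hIs hv
        exact (mem_sdiff.1 h3).2 (mem_union_left _ hv)
      rw [h2, card_empty] at hIc
      omega
    · unfold val
      have h1 : ∑ d ∈ G.bd (G.vs \ (I ∪ S)), z d = 0 := by
        refine sum_eq_zero fun d hd => ?_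
        unfold bd at hd
        obtain ⟨h2, h3, h4⟩ := mem_filter.1 hd
        by_contra h5
        have hz : 0 < z d := lt_of_le_of_ne (hw.z0 d h2) (Ne.symm h5)
        have h6 : G.pi (G.al d) ∈ I ∪ S := by
          by_contra h7
          exact h4 (mem_sdiff.2 ⟨G.pi_mem _ (G.al_mem d h2), h7⟩)
        have h7 := (mem_sdiff.1 h3).2
        have hza : 0 < z (G.al d) := by
          rw [hw.sym d h2]
          exact hz
        rcases mem_union.1 h6 with h8 | h8
        · have h9 := hleave _ (G.al_mem d h2) h8 hza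
          rw [G.al_al d h2] at h9
          exact h7 (mem_union_right _ h9)
        · obtain ⟨X, hXC, h9⟩ := hSC _ (G.al_mem d h2) h8 hza
          rw [G.al_al d h2] at h9
          exact h7 (mem_union_left _ ((mI _).2 ⟨X, hXC, h9⟩))
      have h2 : ∑ v ∈ G.vs \ (I ∪ S), t v = 0 := by
        refine sum_eq_zero fun v hv => ?_
        obtain ⟨h3, h4⟩ := mem_sdiff.1 hv
        by_contra h5
        obtain ⟨X, hXC, h6⟩ := htok v h3 h5
        exact h4 (mem_union_left _ ((mI _).2 ⟨X, hXC, h6⟩))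
      rw [h1, h2, add_zero]
  have hall : I ∪ S = G.vs :=
    Subset.antisymm (union_subset hIs hSs) (by rwa [← sdiff_eq_empty_iff_subset])
  refine ⟨I, S, hall, hIS, hIc, ?_, ?_⟩
  · intro d hd hz
    constructor
    · intro h1
      exact hleave d hd h1 hz
    · intro h1
      obtain ⟨X, hXC, h2⟩ := hSC _ (G.al_mem d hd) h1 (by rw [hw.sym d hd]; exact hz)
      rw [G.al_al d hd] at h2
      exact (mI _).2 ⟨X, hXC, h2⟩
  · intro v hv
    by_contra h1
    obtain ⟨X, hXC, h2⟩ := htok v (hSs hv) h1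
    exact Finset.disjoint_left.1 (hX X hXC).2.2.1 h2 hv

end MG

end RH
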