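import Pool.Agent.Lib.RH.CE6
import Pool.Agent.Lib.RH.T6

/-! # A smallest state has fresh vertices

Without fresh vertices a strict state with 6 tokens has a perfect matching or a certificate (Tutte). -/

set_option autoImplicit false

namespace RH

open Finset Classical

namespace MG

variable {V D : Type*} {G : MG V D} {t : V → ℝ} {fr : Finset V} {F : Finset D} {jm : Finset V}

/-- **fresh vertices exist** (Tutte) -/
theorem X6.fr_ne (h : X6 G t fr F jm) : fr.Nonempty := by
  have hE := h.toEK
  rw [nonempty_iff_ne_empty]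
  intro h0
  have hF0 : F = ∅ := by
    rw [eq_empty_iff_forall_notMem]
    intro d hd
    have := h.fresh.Ffr d hd
    rw [h0] at this
    exact notMem_empty _ this
  have hno : ¬ ∃ M, G.IsPM M ∧ ∀ d ∈ M, 0 < one1 d := by
    rintro ⟨M, h1, h2⟩
    refine h.bad ⟨M, h1, h2, fun X hX ho => ?_⟩
    have h3 : X = ∅ := by
      have := hX.sub
      rw [h0] at this
      exact subset_empty.1 this
    exfalso
    rcases ho with ho | ⟨⟨v, hv⟩, h4⟩
    · rw [h3, card_empty] at ho
      exact absurd ho (by decide)
    · have h5 := h4 hv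
      rw [h3] at h5
      exact notMem_empty v h5
  obtain ⟨I, S, h1, h2, -, h3, h4⟩ := terminal G one1 t h.even hE.wt (le_of_eq h.tau) hno
    (fun X hX ho h3 h4 => by
      have := hE.odd X hX ho (by omega)
      linarith)
    (fun X hX he hn hne h4 => by
      have := hE.evn X hX he hn hne
      linarith)
  refine h.nc ⟨fun v => if v ∈ S then -1 else 1, ?_, ?_, ?_, fun d hd => absurd hd (notMem_empty d),
    h.fresh.Fsub, empty_subset _⟩
  · intro v hv htv
    have h5 : v ∉ S := fun h5 => htv (h4 v h5)
    change (if v ∈ S then (-1 : ℝ) else 1) = 1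
    rw [if_neg h5]
  · intro d hd hz _ _
    have h5 := h3 d hd hz
    have h6 : G.pi d ∈ I ∪ S := h1 ▸ G.pi_mem d hd
    have h7 : G.pi (G.al d) ∈ I ∪ S := h1 ▸ G.pi_mem _ (G.al_mem d hd)
    change (if G.pi d ∈ S then (-1 : ℝ) else 1) + (if G.pi (G.al d) ∈ S then (-1 : ℝ) else 1) = 0
    by_cases h8 : G.pi d ∈ S
    · have h9 : G.pi (G.al d) ∉ S := fun h9 => disjoint_left.1 h2 (h5.2 h9) h8
      rw [if_pos h8, if_neg h9]
      norm_num
    · have h9 : G.pi d ∈ I := by
        rcases mem_union.1 h6 with h9 | h9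
        · exact h9
        · exact absurd h9 h8
      rw [if_neg h8, if_pos (h5.1 h9)]
      norm_num
  · intro d hd
    rw [hF0] at hd
    exact absurd hd (notMem_empty d)

end MG

end RH
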