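import Pool.Agent.Lib.RH.CE6EvenD
import Pool.Agent.Lib.RH.CE6Fr
import Pool.Agent.Lib.RH.Tpl4

/-! # (E), the other side has four vertices

`EvB.abI`: `alpha`, `beta` inside, 4 tokens. `EvB.small`: the other side has four vertices, none of
them fresh. `X6.noEa`, `X6.noE`: (E). -/

set_option autoImplicit false

namespace RH

open Finset Classical

namespace MG

variable {V D : Type*} {G : MG V D} {t : V → ℝ} {fr : Finset V} {F : Finset D}
variable {jm Y X W : Finset V} {f g k : D}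

namespace EvB

variable (b : EvB G t F jm Y)
include b

/-- **alpha and beta inside** (4 tokens) -/
theorem abI [Infinite V] [Infinite D] (h : X6 G t fr F jm) (e : E3 G Y f g k)
    (hZ4 : 4 ≤ (G.vs \ Y).card)
    (hX : ∀ X ⊆ Y, Even X.card → X ≠ Y → G.val one1 t X = 4 →
      ¬ (G.pi g ∈ X ∧ G.pi k ∈ X)) :
    In2 G fr F jm Y f g k ∨ In2 G fr F jm Y f k g := by
  have hE := h.toEK
  have e' : E3 G Y g k f := e.rot
  obtain ⟨hmem, hinj, -, -⟩ := b.inj3 e'
  obtain ⟨S, hs⟩ := exists_spI G fr jm Y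
  have hdr : ∀ d ∈ (∅ : Finset D), ∀ i, ![g, k, f] i ≠ d := fun d hd => absurd hd (notMem_empty d)
  have h2t : ∀ v ∈ Y, t v + (((G.bd Y).filter fun d => G.pi d = v).card : ℝ) ≤ 2 := by
    intro v hv
    by_cases hn : ((G.bd Y).filter fun d => G.pi d = v).Nonempty
    · obtain ⟨d, hd⟩ := hn
      obtain ⟨h1, h2⟩ := mem_filter.1 hd
      have h3 := b.tok0 hE h1
      rw [h2] at h3
      have h4 : ((G.bd Y).filter fun d => G.pi d = v).card ≤ 1 :=
        card_le_one.2 fun d1 hd1 d2 hd2 => b.inj hE d1 (mem_filter.1 hd1).1 d2 (mem_filter.1 hd2).1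
          ((mem_filter.1 hd1).2.trans (mem_filter.1 hd2).2.symm)
      have h5 : (((G.bd Y).filter fun d => G.pi d = v).card : ℝ) ≤ (1 : ℕ) := by exact_mod_cast h4
      push_cast at h5
      rw [h3]
      linarith
    · rw [not_nonempty_iff_eq_empty] at hn
      rw [hn, card_empty]
      have h1 := single_le_sum (f := t) (fun v hv => hE.t0 v (b.hY hv)) hv
      have h2 := (b.tok hE).1
      have h3 : (0 : ℝ) ≤ (G.bd Y).card := Nat.cast_nonneg _
      have h4 : (3 : ℕ) ≤ (G.bd Y).card := by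
        rw [e.bd, card_eq_three.2 ⟨f, g, k, e.fg, e.fk, e.gk, rfl⟩]
      have h5 : ((3 : ℕ) : ℝ) ≤ (G.bd Y).card := by exact_mod_cast h4
      push_cast at h5 ⊢
      linarith
  obtain ⟨M1, m, k1, k2⟩ := h.tplI4 b.iblk Tpl.ab_reg Tpl.ab_tab (by decide) rfl hmem hinj
    (Or.inr (by omega)) h2t (by decide)
    (hs.card h.fresh h.jm2 b.nJ) (hs.drop hdr) (fun v _ => b.kap1 hE hmem hinj v)
    (fun X h1 h2 _ h3 h4 => by
      rw [mem_filter]
      refine ⟨mem_univ _, ?_⟩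
      rintro ⟨k1, k2⟩
      exact hX X h1 h2 h3 h4 ⟨(mem_filter.1 k1).2, (mem_filter.1 k2).2⟩)
    (fun _ _ _ _ _ _ => mem_univ _)
  have l3 := k1.isol h.fresh b.nJ (hs.drop hdr)
  obtain ⟨k6, -⟩ := l3.out h.fresh h.jm2 b.nJ hs fun d hd => absurd hd (notMem_empty d)
  have l3 : ∀ i, ![g, k, f] i ∈ M1 ↔ i ∈ univ.filter fun i => ![g, k, f] i ∈ M1 := fun i => by
    rw [mem_filter]
    exact ⟨fun k => ⟨mem_univ _, k⟩, fun k => k.2⟩
  have q0 : g ∈ M1 ↔ _ := l3 0
  have q1 : k ∈ M1 ↔ _ := l3 1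
  have q2 : f ∈ M1 ↔ _ := l3 2
  rcases Tpl.ab_pat _ _ k2 with l4 | l4
  · left
    rw [l4] at q0 q1 q2
    exact ⟨M1, k6, q2.2 (by decide), q0.2 (by decide), fun q => absurd (q1.1 q) (by decide)⟩
  · right
    rw [l4] at q0 q1 q2
    exact ⟨M1, k6, q2.2 (by decide), q1.2 (by decide), fun q => absurd (q0.1 q) (by decide)⟩

/-- **the other side has four vertices, none of them fresh** -/
theorem small [Infinite V] [Infinite D] (h : X6 G t fr F jm) (e : E3 G Y f g k)
    (hZ4 : (G.vs \ Y).card = 4) (hZf : Disjoint (G.vs \ Y) fr)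
    (hna : ∀ d ∈ G.ds, d ∉ F → t (G.pi d) ≠ 0 → t (G.pi (G.al d)) = 0)
    (o1 : Out2 G fr F jm Y f g k) (o2 : Out2 G fr F jm Y f k g) :
    In2 G fr F jm Y f g k ∨ In2 G fr F jm Y f k g := by
  have hE := h.toEK
  by_contra hcon
  have hc : ¬ ∀ X ⊆ Y, Even X.card → X ≠ Y → G.val one1 t X = 4 → ¬ (G.pi g ∈ X ∧ G.pi k ∈ X) :=
    fun hX => hcon (b.abI h e (by omega) hX)
  push Not at hc
  obtain ⟨X, hXY, hXe, hXne, hXv, hgX, hkX⟩ := hc
  -- the outer ends
  have hf : f ∈ G.bd Y := by rw [e.bd]; simp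
  have hg : g ∈ G.bd Y := by rw [e.bd]; simp
  have hk : k ∈ G.bd Y := by rw [e.bd]; simp
  obtain ⟨f1, f2, f3⟩ := mem_bd.1 hf
  obtain ⟨g1, g2, g3⟩ := mem_bd.1 hg
  obtain ⟨k1, k2, k3⟩ := mem_bd.1 hk
  obtain ⟨-, -, e3, e4⟩ := b.inj3 e
  have hone := fun v (hv : v ∈ G.vs \ Y) => (b.oblk h.fresh).one1 hE e3 e4 hv
  have hnof : ∀ i j : Fin 3, i ≠ j → G.pi (![G.al f, G.al g, G.al k] i) ≠
      G.pi (![G.al f, G.al g, G.al k] j) := by
    intro i j hij hc
    have hm : ![G.al f, G.al g, G.al k] i ∈ G.bd (G.vs \ Y) := by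
      rw [e3]
      exact mem_image_of_mem _ (mem_univ i)
    have h1 := hone _ (mem_bd.1 hm).2.1
    unfold Tpl.one1S at h1
    have h2 := (mem_filter.1 h1).2
    refine hij (card_le_one.1 h2 i (mem_filter.2 ⟨mem_univ _, mem_singleton_self _⟩) j
      (mem_filter.2 ⟨mem_univ _, mem_singleton.2 hc.symm⟩))
  have nfg : G.pi (G.al f) ≠ G.pi (G.al g) := hnof 0 1 (by decide)
  have nfk : G.pi (G.al f) ≠ G.pi (G.al k) := hnof 0 2 (by decide)
  have ngk : G.pi (G.al g) ≠ G.pi (G.al k) := hnof 1 2 (by decide)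
  have hof : G.pi (G.al f) ∈ G.vs \ Y := mem_sdiff.2 ⟨G.pi_mem _ (G.al_mem _ f1), f3⟩
  have hog : G.pi (G.al g) ∈ G.vs \ Y := mem_sdiff.2 ⟨G.pi_mem _ (G.al_mem _ g1), g3⟩
  have hok : G.pi (G.al k) ∈ G.vs \ Y := mem_sdiff.2 ⟨G.pi_mem _ (G.al_mem _ k1), k3⟩
  have hT3 : ({G.pi (G.al f), G.pi (G.al g), G.pi (G.al k)} : Finset V).card = 3 :=
    card_eq_three.2 ⟨_, _, _, nfg, nfk, ngk, rfl⟩
  obtain ⟨z, hz, hzn⟩ : ∃ z ∈ G.vs \ Y,
      z ∉ ({G.pi (G.al f), G.pi (G.al g), G.pi (G.al k)} : Finset V) := by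
    by_contra hc
    push Not at hc
    have := card_le_card (show G.vs \ Y ⊆ _ from fun v hv => hc v hv)
    omega
  simp only [mem_insert, mem_singleton, not_or] at hzn
  obtain ⟨zf, zg, zk⟩ := hzn
  have hZe : ∀ v ∈ G.vs \ Y, v = G.pi (G.al f) ∨ v = G.pi (G.al g) ∨ v = G.pi (G.al k) ∨
      v = z := by
    intro v hv
    by_contra hc
    simp only [not_or] at hc
    have h1 : ({v, z, G.pi (G.al f), G.pi (G.al g), G.pi (G.al k)} : Finset V).card = 5 := by
      rw [card_insert_of_notMem (by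
        simp only [mem_insert, mem_singleton, not_or]
        exact ⟨hc.2.2.2, hc.1, hc.2.1, hc.2.2.1⟩), card_insert_of_notMem (by
        simp only [mem_insert, mem_singleton, not_or]
        exact ⟨zf, zg, zk⟩), hT3]
    have h2 : ({v, z, G.pi (G.al f), G.pi (G.al g), G.pi (G.al k)} : Finset V) ⊆ G.vs \ Y := by
      intro w hw
      simp only [mem_insert, mem_singleton] at hw
      rcases hw with rfl | rfl | rfl | rfl | rfl
      · exact hv
      · exact hz
      · exact hof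
      · exact hog
      · exact hok
    have h3 := card_le_card h2
    omega
  -- exits of the outer side
  have hbo : ∀ d ∈ G.bd (G.vs \ Y), d = G.al f ∨ d = G.al g ∨ d = G.al k := by
    intro d hd
    rw [e3, mem_image] at hd
    obtain ⟨i, -, rfl⟩ := hd
    fin_cases i
    · exact Or.inl rfl
    · exact Or.inr (Or.inl rfl)
    · exact Or.inr (Or.inr rfl)
  -- neighbours of z
  have key : ∀ u w : D, (∀ v ∈ G.vs \ Y, v = G.pi (G.al f) ∨ v = G.pi (G.al u) ∨
      v = G.pi (G.al w) ∨ v = z) → u ∈ G.bd Y → Out2 G fr F jm Y f u w →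
      ∃ x ∈ G.ds, G.pi x = z ∧ G.pi (G.al x) = G.pi (G.al w) := by
    intro u w hv hu hO
    obtain ⟨M, m1, m2, m3, m4⟩ := hO
    obtain ⟨x, hx⟩ := card_eq_one.1 (m1.hm.one z hz)
    have hx' : x ∈ M.filter fun d => G.pi d = z := by
      rw [hx]
      exact mem_singleton_self x
    obtain ⟨x1, x2⟩ := mem_filter.1 hx'
    have x3 := (m1.hm.sub x x1).1
    have x4 : G.pi (G.al x) ∈ G.vs \ Y := by
      by_contra x4
      have x5 : x ∈ G.bd (G.vs \ Y) := mem_bd.2 ⟨x3, by rw [x2]; exact hz, x4⟩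
      rcases hbo x x5 with x6 | x6 | x6
      · exact zf (by rw [← x2, x6])
      · exact zg (by rw [← x2, x6])
      · exact zk (by rw [← x2, x6])
    have x5 : G.al x ∈ M := m1.hm.clo x x1 x4
    have huse : ∀ d : D, d ∈ G.bd Y → G.al d ∈ M → G.pi (G.al x) ≠ G.pi (G.al d) := by
      intro d hd hdM hxd
      have hdd := (mem_bd.1 hd).1
      obtain ⟨q, hq⟩ := card_eq_one.1 (m1.hm.one (G.pi (G.al d)) (by rw [← hxd]; exact x4))
      have w1 : G.al d ∈ M.filter fun c => G.pi c = G.pi (G.al d) := mem_filter.2 ⟨hdM, rfl⟩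
      have w2 : G.al x ∈ M.filter fun c => G.pi c = G.pi (G.al d) := mem_filter.2 ⟨x5, hxd⟩
      rw [hq, mem_singleton] at w1 w2
      have w3 : G.al d = G.al x := w1.trans w2.symm
      have w4 : d = x := by rw [← G.al_al d hdd, w3, G.al_al x x3]
      have w5 := (mem_bd.1 hd).2.1
      rw [w4, x2] at w5
      exact (mem_sdiff.1 hz).2 w5
    refine ⟨x, x3, x2, ?_⟩
    rcases hv _ x4 with x6 | x6 | x6 | x6
    · exact absurd x6 (huse f hf m2)
    · exact absurd x6 (huse u hu m3)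
    · exact x6
    · exact absurd (x6.trans x2.symm) (G.noloop x x3)
  obtain ⟨x, x1, x2, x3⟩ := key g k hZe hg o1
  obtain ⟨x', x1', x2', x3'⟩ := key k g (fun v hv => by
    rcases hZe v hv with q | q | q | q
    · exact Or.inl q
    · exact Or.inr (Or.inr (Or.inl q))
    · exact Or.inr (Or.inl q)
    · exact Or.inr (Or.inr (Or.inr q))) hk o2
  -- inner darts of the outer side
  have hvZ := (b.tok hE).2
  have hb3 : (G.bd Y).card = 3 := by
    rw [e.bd]
    exact card_eq_three.2 ⟨f, g, k, e.fg, e.fk, e.gk, rfl⟩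
  rw [hb3, hE.val_eq (X := G.vs \ Y) sdiff_subset, hZ4] at hvZ
  have hed4 : (G.ed (G.vs \ Y) (G.vs \ Y)).card = 4 := by
    have q : ((G.ed (G.vs \ Y) (G.vs \ Y)).card : ℝ) = (4 : ℕ) := by
      push_cast at hvZ ⊢
      linarith
    exact_mod_cast q
  have hD4 : ({x, G.al x, x', G.al x'} : Finset D).card = 4 := by
    have n1 : x ≠ G.al x := fun q => G.noloop x x1 (by rw [← q])
    have n2 : x ≠ x' := fun q => ngk (by rw [← x3', ← x3, q])
    have n3 : x ≠ G.al x' := fun q => by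
      have := congrArg G.pi q
      rw [x2, x3'] at this
      exact zg this
    have n4 : G.al x ≠ x' := fun q => by
      have := congrArg G.pi q
      rw [x3, x2'] at this
      exact zk this.symm
    have n5 : G.al x ≠ G.al x' := fun q => ngk (by rw [← x3', ← x3, q])
    have n6 : x' ≠ G.al x' := fun q => G.noloop x' x1' (by rw [← q])
    rw [card_insert_of_notMem (by simp [n1, n2, n3]), card_insert_of_notMem (by simp [n4, n5]),
      card_pair n6]
  have hDs : ({x, G.al x, x', G.al x'} : Finset D) ⊆ G.ed (G.vs \ Y) (G.vs \ Y) := by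
    intro d hd
    simp only [mem_insert, mem_singleton] at hd
    rcases hd with rfl | rfl | rfl | rfl
    · exact mem_ed.2 ⟨x1, by rw [x2]; exact hz, by rw [x3]; exact hok⟩
    · exact mem_ed.2 ⟨G.al_mem _ x1, by rw [x3]; exact hok, by rw [G.al_al _ x1, x2]; exact hz⟩
    · exact mem_ed.2 ⟨x1', by rw [x2']; exact hz, by rw [x3']; exact hog⟩
    · exact mem_ed.2 ⟨G.al_mem _ x1', by rw [x3']; exact hog, by rw [G.al_al _ x1', x2']; exact hz⟩
  have hDe : G.ed (G.vs \ Y) (G.vs \ Y) = {x, G.al x, x', G.al x'} :=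
    (eq_of_subset_of_card_le hDs (by rw [hD4, hed4])).symm
  -- darts at the vertices of the outer side
  have hst : ∀ d ∈ G.ds, G.pi d ∈ G.vs \ Y → d = G.al f ∨ d = G.al g ∨ d = G.al k ∨
      d = x ∨ d = G.al x ∨ d = x' ∨ d = G.al x' := by
    intro d hd hdZ
    by_cases q : G.pi (G.al d) ∈ G.vs \ Y
    · have q2 : d ∈ G.ed (G.vs \ Y) (G.vs \ Y) := mem_ed.2 ⟨hd, hdZ, q⟩
      rw [hDe] at q2
      simp only [mem_insert, mem_singleton] at q2
      tauto
    · rcases hbo d (mem_bd.2 ⟨hd, hdZ, q⟩) with q2 | q2 | q2 <;> tauto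
  have htz : t z ≠ 0 := by
    intro q
    have q1 := hE.deg z (mem_sdiff.1 hz).1
    rw [q, add_zero] at q1
    have q2 : G.st z ⊆ {x, x'} := by
      intro d hd
      obtain ⟨q3, q4⟩ := mem_st.1 hd
      rw [mem_insert, mem_singleton]
      rcases hst d q3 (by rw [q4]; exact hz) with q5 | q5 | q5 | q5 | q5 | q5 | q5
      · exact absurd (by rw [← q4, q5]) zf
      · exact absurd (by rw [← q4, q5]) zg
      · exact absurd (by rw [← q4, q5]) zk
      · exact Or.inl q5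
      · rw [q5, x3] at q4
        exact absurd q4.symm zk
      · exact Or.inr q5
      · rw [q5, x3'] at q4
        exact absurd q4.symm zg
    have q5 := card_le_card q2
    have q6 : ({x, x'} : Finset D).card ≤ 2 := card_le_two
    have q7 : ((G.st z).card : ℝ) ≤ (2 : ℕ) := by exact_mod_cast q5.trans q6
    push_cast at q7
    linarith
  have htg : t (G.pi (G.al g)) ≠ 0 := by
    intro q
    have q1 := hE.deg _ (mem_sdiff.1 hog).1
    rw [q, add_zero] at q1
    have q2 : G.st (G.pi (G.al g)) ⊆ {G.al g, G.al x'} := by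
      intro d hd
      obtain ⟨q3, q4⟩ := mem_st.1 hd
      rw [mem_insert, mem_singleton]
      rcases hst d q3 (by rw [q4]; exact hog) with q5 | q5 | q5 | q5 | q5 | q5 | q5
      · rw [q5] at q4
        exact absurd q4 nfg
      · exact Or.inl q5
      · rw [q5] at q4
        exact absurd q4.symm ngk
      · rw [q5, x2] at q4
        exact absurd q4 zg
      · rw [q5, x3] at q4
        exact absurd q4.symm ngk
      · rw [q5, x2'] at q4
        exact absurd q4 zg
      · exact Or.inr q5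
    have q5 := card_le_card q2
    have q6 : ({G.al g, G.al x'} : Finset D).card ≤ 2 := card_le_two
    have q7 : ((G.st (G.pi (G.al g))).card : ℝ) ≤ (2 : ℕ) := by exact_mod_cast q5.trans q6
    push_cast at q7
    linarith
  refine htg ?_
  have q1 : x' ∉ F := by
    intro q
    have q1 := h.fresh.Ffr _ q
    rw [x2'] at q1
    exact disjoint_left.1 hZf hz q1
  have q2 := hna x' x1' q1 (by rw [x2']; exact htz)
  rwa [x3'] at q2

end EvB

/-- an even number of F-darts leaves a set -/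
private theorem bdF_even (hF : G.FrS one1 fr F jm) (X : Finset V) :
    Even ((G.bd X).filter fun d => d ∈ F).card := by
  have h1 : (F.filter fun d => G.pi d ∈ X).card = ∑ v ∈ X ∩ fr, 2 := by
    rw [card_eq_sum_card_fiberwise (f := G.pi) (t := X ∩ fr)]
    · refine sum_congr rfl fun v hv => ?_
      obtain ⟨hv1, hv2⟩ := mem_inter.1 hv
      rw [← hF.two v hv2]
      congr 1
      ext d
      simp only [mem_filter]
      constructor
      · rintro ⟨⟨h1, -⟩, h2⟩
        exact ⟨h1, h2⟩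
      · rintro ⟨h1, h2⟩
        exact ⟨⟨h1, by rw [h2]; exact hv1⟩, h2⟩
    · intro d hd
      obtain ⟨h1, h2⟩ := mem_filter.1 (mem_coe.1 hd)
      exact mem_coe.2 (mem_inter.2 ⟨h2, hF.Ffr d h1⟩)
  have h2 : (F.filter fun d => G.pi d ∈ X) =
      ((G.bd X).filter fun d => d ∈ F) ∪ (G.ed X X).filter fun d => d ∈ F := by
    ext d
    simp only [mem_union, mem_filter, mem_bd, mem_ed]
    constructor
    · rintro ⟨h2, h3⟩
      by_cases h4 : G.pi (G.al d) ∈ X
      · exact Or.inr ⟨⟨hF.Fsub h2, h3, h4⟩, h2⟩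
      · exact Or.inl ⟨⟨hF.Fsub h2, h3, h4⟩, h2⟩
    · rintro (⟨⟨-, h3, -⟩, h4⟩ | ⟨⟨-, h3, -⟩, h4⟩)
      · exact ⟨h4, h3⟩
      · exact ⟨h4, h3⟩
  have h3 : Disjoint ((G.bd X).filter fun d => d ∈ F) ((G.ed X X).filter fun d => d ∈ F) := by
    rw [disjoint_left]
    intro d h4 h5
    exact (mem_bd.1 (mem_filter.1 h4).1).2.2 (mem_ed.1 (mem_filter.1 h5).1).2.2
  have h4 : Even ((G.ed X X).filter fun d => d ∈ F).card := by
    have h5 : ∑ _d ∈ (G.ed X X).filter (fun d => d ∈ F), (1 : ZMod 2) = 0 := by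
      refine sum_involution (fun d _ => G.al d) (fun d _ => by decide) ?_ ?_ ?_
      · intro d hd _ he
        exact G.noloop d (mem_ed.1 (mem_filter.1 hd).1).1 (by rw [he])
      · intro d hd
        obtain ⟨h6, h7⟩ := mem_filter.1 hd
        obtain ⟨h8, h9, h10⟩ := mem_ed.1 h6
        exact mem_filter.2 ⟨mem_ed.2 ⟨G.al_mem d h8, h10, by rw [G.al_al d h8]; exact h9⟩,
          hF.Fal d h7⟩
      · intro d hd
        exact G.al_al d (mem_ed.1 (mem_filter.1 hd).1).1
    rw [sum_const, nsmul_eq_mul, mul_one] at h5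
    rwa [ZMod.natCast_eq_zero_iff_even] at h5
  rw [h2, card_union_of_disjoint h3, sum_const, smul_eq_mul] at h1
  obtain ⟨k, hk⟩ := h4
  rw [Nat.even_iff]
  omega

/-- **(E), at least six vertices or a fresh vertex**; `hS3`: six vertices without fresh ones are
coloured; `hna`: no adjacent tokens. -/
theorem X6.noEa [Infinite V] [Infinite D] (h : X6 G t fr F jm)
    (hna : ∀ d ∈ G.ds, d ∉ F → t (G.pi d) ≠ 0 → t (G.pi (G.al d)) = 0)
    (hS3 : ∀ Y, EvB G t F jm Y → Y.card = 6 → Disjoint Y fr → (G.bd Y).card = 3 →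
      ∃ p, G.HPot one1 t F Y p ∧ ∀ v ∈ Y, p v = 1 ∨ p v = -1)
    {Y : Finset V} (b : EvB G t F jm Y) (hZ : 4 ≤ (G.vs \ Y).card)
    (h6 : 6 ≤ Y.card ∨ ¬ Disjoint Y fr) : False := by
  have hE := h.toEK
  have hdis : ¬ (fr ∩ (G.vs \ Y)).card < fr.card → Disjoint Y fr := by
    intro hs
    rw [not_lt] at hs
    have h6 : fr ∩ (G.vs \ Y) = fr := eq_of_subset_of_card_le inter_subset_left hs
    rw [disjoint_left]
    intro v hv1 hv2
    rw [← h6] at hv2
    exact (mem_sdiff.1 (mem_inter.1 hv2).2).2 hv1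
  have hG : ∀ f g k, E3 G Y f g k → Out2 G fr F jm Y f g k ∨ Out2 G fr F jm Y f k g ∨
      ∃ p, G.HPot one1 t F (G.vs \ Y) p ∧ p (G.pi (G.al f)) = -1 ∧ p (G.pi (G.al g)) = 1 ∧
        p (G.pi (G.al k)) = 1 := by
    intro f g k e
    refine b.gfO4 h e ?_
    by_cases h7 : (fr ∩ (G.vs \ Y)).card < fr.card
    · exact Or.inl h7
    · right
      rcases h6 with h6 | h6
      · omega
      · exact absurd (hdis h7) h6
  have hbp' : ∀ f g k, E3 G Y f g k → Out2 G fr F jm Y f g k → Out2 G fr F jm Y f k g →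
      In2 G fr F jm Y f g k ∨ In2 G fr F jm Y f k g := by
    intro f g k e o1 o2
    by_cases h5 : (fr ∩ Y).card < fr.card ∨ 4 < (G.vs \ Y).card
    · exact b.bp3I h e h5
    · rw [not_or, not_lt, not_lt] at h5
      refine b.small h e (by omega) ?_ hna o1 o2
      have h6 : fr ∩ Y = fr := eq_of_subset_of_card_le inter_subset_left h5.1
      rw [disjoint_left]
      intro v hv1 hv2
      rw [← h6] at hv2
      exact (mem_sdiff.1 hv1).2 (mem_inter.1 hv2).2
  have hex := b.exits hE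
  have hn0 := b.n0 h
  have hn1 := b.n1 h
  have hn2 := b.n2 h hZ
  have hn3 : (G.bd Y).card = 3 := by omega
  by_cases hs : (fr ∩ (G.vs \ Y)).card < fr.card ∨ 6 < Y.card
  · exact b.n3a h hZ hG hs hbp' hn3
  · rw [not_or] at hs
    have hfr := hdis hs.1
    have hbp2 : ∀ f g k, E3 G Y f g k → In2 G fr F jm Y f g k ∨ In2 G fr F jm Y f k g := by
      intro f g k e
      refine b.bp3I h e (Or.inl ?_)
      have h6 : fr ∩ Y = ∅ := by
        rw [inter_comm]
        exact disjoint_iff_inter_eq_empty.1 hfr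
      rw [h6, card_empty]
      exact card_pos.2 h.fr_ne
    have hF0 : ∀ d ∈ F, G.pi d ∉ Y := fun d hd k => disjoint_left.1 hfr k (h.fresh.Ffr d hd)
    have hc : Y.card = 6 := by
      rcases h6 with h6 | h6
      · omega
      · exact absurd hfr h6
    obtain ⟨p, p1, p2⟩ := hS3 Y b hc hfr hn3
    exact b.n3p h hZ hG (fun f g k e => b.six h e hF0 p1 p2) hbp2 hn3

/-- **(E)**: no even set of value 4 with a real token which is not crossed (both sides at least 4
vertices). `hf3`: the same for crossed sets with one token. `hS3`: six vertices without fresh ones are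
coloured. `hna`: no adjacent tokens. -/
theorem X6.noE [Infinite V] [Infinite D] (h : X6 G t fr F jm)
    (hna : ∀ d ∈ G.ds, d ∉ F → t (G.pi d) ≠ 0 → t (G.pi (G.al d)) = 0)
    (hf3 : ∀ Y ⊆ G.vs, Even Y.card → 4 ≤ Y.card → 4 ≤ (G.vs \ Y).card →
      (∃ y ∈ Y, t y ≠ 0 ∧ y ∉ jm) → G.val one1 t Y = 4 → ∑ v ∈ Y, t v = 1 →
      ∀ d ∈ F, G.pi d ∈ Y → G.pi (G.al d) ∈ Y)
    (hS3 : ∀ Y, EvB G t F jm Y → Y.card = 6 → Disjoint Y fr → (G.bd Y).card = 3 →
      ∃ p, G.HPot one1 t F Y p ∧ ∀ v ∈ Y, p v = 1 ∨ p v = -1)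
    {Y : Finset V} (b : EvB G t F jm Y) (hZ : 4 ≤ (G.vs \ Y).card) : False := by
  have hE := h.toEK
  by_cases h6 : 6 ≤ Y.card ∨ ¬ Disjoint Y fr
  · exact h.noEa hna hS3 b hZ h6
  rw [not_or, not_not] at h6
  obtain ⟨h6, hfr⟩ := h6
  have hc : Y.card = 4 := by
    have h1 := Nat.even_iff.1 b.ev
    have h2 := b.big
    omega
  have hmax : ∀ Y', Y ⊆ Y' → EvB G t F jm Y' → 4 ≤ (G.vs \ Y').card → Y' = Y := by
    intro Y' k1 k2 k3
    by_contra k4
    have k5 : Y.card < Y'.card := card_lt_card (k1.ssubset_of_ne (Ne.symm k4))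
    have k6 := Nat.even_iff.1 k2.ev
    exact h.noEa hna hS3 k2 k3 (Or.inl (by omega))
  have hE5 : ∀ Y', Y ⊆ Y' → Y' ⊆ G.vs → Even Y'.card → 4 ≤ (G.vs \ Y').card →
      G.val one1 t Y' = 4 → (∃ d ∈ G.bd Y', d ∉ F) → ∀ d ∈ F, G.pi d ∈ Y' →
        G.pi (G.al d) ∈ Y' := by
    intro Y' k1 k2 k3 k4 k5 ⟨d0, k6, k7⟩ d hd hdY
    by_contra hcon
    obtain ⟨y, y1, y2, y3⟩ := b.real
    have hyv := b.hY y1
    refine hcon (hf3 Y' k2 k3 (b.big.trans (card_le_card k1)) k4 ⟨y, k1 y1, y2, y3⟩ k5 ?_ d hd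
      hdY)
    have q1 : 1 ≤ t y := by
      obtain ⟨n, h1, -⟩ := hE.tnat hyv
      rw [h1] at y2 ⊢
      have h3 : n ≠ 0 := fun h3 => y2 (by rw [h3]; norm_num)
      have h4 : 1 ≤ n := Nat.one_le_iff_ne_zero.2 h3
      exact_mod_cast h4
    have q2 : t y ≤ ∑ v ∈ Y', t v := single_le_sum (fun v hv => hE.t0 v (k2 hv)) (k1 y1)
    have q3 : 3 ≤ (G.bd Y').card := by
      obtain ⟨n, hn⟩ := bdF_even h.fresh Y'
      have q4 : 0 < ((G.bd Y').filter fun d => d ∈ F).card :=
        card_pos.2 ⟨d, mem_filter.2 ⟨mem_bd.2 ⟨h.fresh.Fsub hd, hdY, hcon⟩, hd⟩⟩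
      have q5 : 0 < ((G.bd Y').filter fun d => ¬ d ∈ F).card :=
        card_pos.2 ⟨d0, mem_filter.2 ⟨k6, k7⟩⟩
      have q6 := card_filter_add_card_filter_not (s := G.bd Y') fun d => d ∈ F
      omega
    have q4 : ((3 : ℕ) : ℝ) ≤ (G.bd Y').card := by exact_mod_cast q3
    rw [val_one] at k5
    push_cast at q4
    linarith
  have hG : ∀ f g k, E3 G Y f g k → Out2 G fr F jm Y f g k ∨ Out2 G fr F jm Y f k g ∨
      ∃ p, G.HPot one1 t F (G.vs \ Y) p ∧ p (G.pi (G.al f)) = -1 ∧ p (G.pi (G.al g)) = 1 ∧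
        p (G.pi (G.al k)) = 1 := by
    intro f g k e
    rcases b.max_gf h e hmax hE5 with hX | ⟨hX, hX'⟩
    · exact b.gfO h e hX
    · exfalso
      have hf : f ∈ G.bd Y := by rw [e.bd]; simp
      obtain ⟨f1, f2, f3⟩ := mem_bd.1 hf
      have h5 := h.no_beta (G.al_mem f f1) hX hX'
      rw [G.al_al f f1] at h5
      exact disjoint_left.1 hfr f2 h5
  have hbp2 : ∀ f g k, E3 G Y f g k → In2 G fr F jm Y f g k ∨ In2 G fr F jm Y f k g := by
    intro f g k e
    refine b.bp3I h e (Or.inl ?_)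
    have h6 : fr ∩ Y = ∅ := by
      rw [inter_comm]
      exact disjoint_iff_inter_eq_empty.1 hfr
    rw [h6, card_empty]
    exact card_pos.2 h.fr_ne
  have hex := b.exits hE
  have hn0 := b.n0 h
  have hn1 := b.n1 h
  have hn2 := b.n2 h hZ
  have hn3 : (G.bd Y).card = 3 := by omega
  exact b.n3p h hZ hG (fun f g k e => b.four h e hc) hbp2 hn3

end MG

end RH
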