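import Pool.Agent.Lib.RH.CE6Board
import Pool.Agent.Lib.RH.CE6EvenS

/-! # (E) FROM THE ROWS

`X6.e1a`: no even set of value 4 with a real token which is not crossed and has at least six vertices or
a fresh one (no hypothesis on crossed sets). `X6.e1`: all sizes, from (F3) for sets with one token.
`Rows.e1`, `Rows.bas'`. -/

set_option autoImplicit false

namespace RH

open Finset Classical

namespace MG

section

variable {V D : Type*} [Infinite V] [Infinite D] {G : MG V D} {t : V → ℝ} {fr : Finset V}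
variable {F : Finset D} {jm : Finset V}

omit [Infinite V] [Infinite D] in
/-- the set of (E) -/
theorem X6.evB (h : X6 G t fr F jm) {Y : Finset V} (hY : Y ⊆ G.vs) (he : Even Y.card)
    (h4 : 4 ≤ Y.card) (hZ : 2 ≤ (G.vs \ Y).card) (hr : ∃ y ∈ Y, y ∉ fr ∧ 1 ≤ t y)
    (hv : G.val one1 t Y = 4) (hc : ¬ FCut G F Y) : EvB G t F jm Y := by
  refine ⟨hY, he, h4, hZ, hv, fun d hd hdY => ?_, ?_⟩
  · by_contra hcon
    exact hc ⟨d, hd, hdY, hcon⟩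
  · obtain ⟨y, k1, k2, k3⟩ := hr
    exact ⟨y, k1, by linarith, fun k => k2 (h.fresh.jms k)⟩

/-- **(E), at least six vertices or a fresh vertex** -/
theorem X6.e1a (h : X6 G t fr F jm) (hna : NoAdj G t F)
    (h6 : ∀ Y, EvB G t F jm Y → Y.card = 6 → Disjoint Y fr → (G.bd Y).card = 3 →
      ∃ p, G.HPot one1 t F Y p ∧ ∀ v ∈ Y, p v = 1 ∨ p v = -1)
    {Y : Finset V} (hY : Y ⊆ G.vs) (he : Even Y.card) (h4 : 4 ≤ Y.card)
    (hZ : 4 ≤ (G.vs \ Y).card) (hr : ∃ y ∈ Y, y ∉ fr ∧ 1 ≤ t y) (hv : G.val one1 t Y = 4)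
    (hc : ¬ FCut G F Y) (hb : 6 ≤ Y.card ∨ ¬ Disjoint Y fr) : False :=
  h.noEa hna h6 (h.evB hY he h4 (by omega) hr hv hc) hZ hb

/-- **(E)** -/
theorem X6.e1 (h : X6 G t fr F jm) (hna : NoAdj G t F)
    (hf3 : ∀ Y ⊆ G.vs, Even Y.card → 4 ≤ Y.card → 4 ≤ (G.vs \ Y).card →
      (∃ y ∈ Y, y ∉ fr ∧ 1 ≤ t y) → ∑ v ∈ Y, t v = 1 → G.val one1 t Y = 4 → FCut G F Y → False)
    (h6 : ∀ Y, EvB G t F jm Y → Y.card = 6 → Disjoint Y fr → (G.bd Y).card = 3 →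
      ∃ p, G.HPot one1 t F Y p ∧ ∀ v ∈ Y, p v = 1 ∨ p v = -1)
    {Y : Finset V} (hY : Y ⊆ G.vs) (he : Even Y.card) (h4 : 4 ≤ Y.card)
    (hZ : 4 ≤ (G.vs \ Y).card) (hr : ∃ y ∈ Y, y ∉ fr ∧ 1 ≤ t y) (hv : G.val one1 t Y = 4)
    (hc : ¬ FCut G F Y) : False := by
  have hE := h.toEK
  refine h.noE hna ?_ h6 (h.evB hY he h4 (by omega) hr hv hc) hZ
  intro Y' k1 k2 k3 k4 ⟨y, k5, k6, k7⟩ k8 k9 d hd hdY
  by_contra hcon
  refine hf3 Y' k1 k2 k3 k4 ⟨y, k5, ?_, hE.one_le (k1 k5) k6⟩ k9 k8 ⟨d, hd, hdY, hcon⟩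
  intro hyf
  have h1 := hE.tok_fr hyf
  rw [if_neg k7] at h1
  exact k6 h1

end

variable {V D : Type} [Infinite V] [Infinite D]

/-- **(E)** from the rows `f3`, `h6` -/
theorem Rows.e1 (R : Rows V D) {G : MG V D} {t : V → ℝ} {fr : Finset V} {F : Finset D}
    {jm : Finset V} (h : X6 G t fr F jm) (hna : NoAdj G t F) (hbq : NoBQ G t fr)
    (Y : Finset V) (hY : Y ⊆ G.vs) (he : Even Y.card) (h4 : 4 ≤ Y.card)
    (hZ : 4 ≤ (G.vs \ Y).card) (hr : ∃ y ∈ Y, y ∉ fr ∧ 1 ≤ t y) (hv : G.val one1 t Y = 4)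
    (hc : ¬ FCut G F Y) : False :=
  h.e1 hna (fun Y' k1 k2 k3 k4 k5 k6 k7 k8 => R.f3 h hna hbq Y' k1 k2 k3 k4 k5 k6 k7 k8)
    (fun Y' b k1 k2 k3 => R.h6 h hna hbq Y' b k1 k2 k3) hY he h4 hZ hr hv hc

/-- **the basis** from the rows -/
theorem Rows.bas' (R : Rows V D) {G : MG V D} {t : V → ℝ} {fr : Finset V} {F : Finset D}
    {jm : Finset V} (h : X6 G t fr F jm) : Bas G t fr F jm :=
  R.bas h fun h1 h2 h3 Y => R.e1 h1 h2 h3 Y

end MG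

end RH
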