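import Pool.Agent.Lib.RH.CE6W

/-! Equality in the port sum (helpers 35, 36, 78): for a union `X` of fresh circuits without star
vertices and half of a certificate `p` on `X` the sum of `p` over the boundary darts is at most 0;
if it is 0, all F-darts are tight; if moreover `p = 1` or `p = -1` at all boundary darts then `p`
is a 2-colouring of `X`. -/

set_option autoImplicit false

namespace RH

open Finset Classical

namespace MG

variable {V D : Type*} {G : MG V D} {t : V → ℝ} {fr : Finset V} {F : Finset D}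
variable {jm X : Finset V} {p : V → ℝ} {k : ℝ} {z : D → ℝ}

/-- sum over the F-darts of a union -/
theorem FrS.sumF (hF : G.FrS z fr F jm) (hX : G.Adm fr F X) (p : V → ℝ) :
    ∑ d ∈ F.filter (fun d => G.pi d ∈ X), p (G.pi d) = 2 * ∑ v ∈ X, p v := by
  rw [← sum_fiberwise_of_maps_to (s := F.filter fun d => G.pi d ∈ X) (t := X) (g := G.pi)
    (fun d hd => (mem_filter.1 hd).2), mul_sum]
  refine sum_congr rfl fun v hv => ?_
  have h1 : ((F.filter fun d => G.pi d ∈ X).filter fun d => G.pi d = v) =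
      F.filter fun d => G.pi d = v := by
    ext d
    rw [mem_filter, mem_filter, mem_filter]
    constructor
    · rintro ⟨⟨a, -⟩, b⟩
      exact ⟨a, b⟩
    · rintro ⟨a, b⟩
      exact ⟨⟨a, by rw [b]; exact hv⟩, b⟩
  rw [h1, sum_congr rfl fun d hd => by rw [(mem_filter.1 hd).2], sum_const,
    hF.two v (hX.sub hv), nsmul_eq_mul]
  norm_num

/-- sum over the other darts of a union without star vertices -/
theorem FrS.sumJ (hF : G.FrS z fr F jm) (hX : G.Adm fr F X) (hj : Disjoint X jm) (p : V → ℝ) :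
    ∑ d ∈ G.ds.filter (fun d => d ∉ F ∧ G.pi d ∈ X), p (G.pi d) = ∑ v ∈ X, p v := by
  rw [← sum_fiberwise_of_maps_to (s := G.ds.filter fun d => d ∉ F ∧ G.pi d ∈ X) (t := X)
    (g := G.pi) (fun d hd => (mem_filter.1 hd).2.2)]
  refine sum_congr rfl fun v hv => ?_
  have h1 : ((G.ds.filter fun d => d ∉ F ∧ G.pi d ∈ X).filter fun d => G.pi d = v) =
      (G.st v).filter fun d => d ∉ F := by
    ext d
    rw [mem_filter, mem_filter, mem_filter, mem_st]
    constructor
    · rintro ⟨⟨a, b, -⟩, c⟩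
      exact ⟨⟨a, c⟩, b⟩
    · rintro ⟨⟨a, c⟩, b⟩
      exact ⟨⟨a, b, by rw [c]; exact hv⟩, c⟩
  rw [h1, sum_congr rfl fun d hd => by rw [(mem_st.1 (mem_filter.1 hd).1).2], sum_const,
    hF.jd v (hX.sub hv) (disjoint_left.1 hj hv), one_smul]

/-- the boundary sum in terms of the F-darts -/
theorem EK.sum_bd (h : EK G k t fr F jm) (hX : G.Adm fr F X) (hj : Disjoint X jm)
    (hp : G.HPot one1 t F X p) :
    4 * ∑ d ∈ G.bd X, p (G.pi d) =
      ∑ d ∈ F.filter (fun d => G.pi d ∈ X), (p (G.pi d) + p (G.pi (G.al d))) := by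
  have hF := h.fresh
  have h1 := hF.sumF hX p
  have h2 := hF.sumJ hX hj p
  have h3 : (G.ds.filter fun d => d ∉ F ∧ G.pi d ∈ X) =
      G.bd X ∪ G.ds.filter fun d => d ∉ F ∧ G.pi d ∈ X ∧ G.pi (G.al d) ∈ X := by
    ext d
    rw [mem_union, mem_filter, mem_filter, mem_bd]
    constructor
    · rintro ⟨a, b, c⟩
      by_cases e : G.pi (G.al d) ∈ X
      · exact Or.inr ⟨a, b, c, e⟩
      · exact Or.inl ⟨a, c, e⟩
    · rintro (⟨a, c, e⟩ | ⟨a, b, c, e⟩)
      · exact ⟨a, fun hd => e (hX.clo d hd c), c⟩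
      · exact ⟨a, b, c⟩
  have h4 : Disjoint (G.bd X) (G.ds.filter fun d => d ∉ F ∧ G.pi d ∈ X ∧ G.pi (G.al d) ∈ X) := by
    rw [disjoint_left]
    intro d h5 h6
    exact (mem_bd.1 h5).2.2 (mem_filter.1 h6).2.2.2
  rw [h3, sum_union h4] at h2
  have h5 := sum_symm (G := G)
    (S := G.ds.filter fun d => d ∉ F ∧ G.pi d ∈ X ∧ G.pi (G.al d) ∈ X) (z := fun _ => 1)
    (filter_subset _ _) (fun d hd => by
      obtain ⟨a, b, c, e⟩ := mem_filter.1 hd
      refine mem_filter.2 ⟨G.al_mem d a, fun hh => b ?_, e, by rw [G.al_al d a]; exact c⟩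
      rw [← G.al_al d a]
      exact hF.Fal _ hh) (fun _ _ => rfl) p
  have h6 := sum_symm (G := G) (S := F.filter fun d => G.pi d ∈ X) (z := fun _ => 1)
    ((filter_subset _ _).trans hF.Fsub) (fun d hd => by
      obtain ⟨a, b⟩ := mem_filter.1 hd
      exact mem_filter.2 ⟨hF.Fal d a, hX.clo d a b⟩) (fun _ _ => rfl) p
  simp only [one_mul] at h5 h6
  have h7 : ∑ d ∈ G.ds.filter (fun d => d ∉ F ∧ G.pi d ∈ X ∧ G.pi (G.al d) ∈ X),
      (p (G.pi d) + p (G.pi (G.al d))) = 0 := by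
    refine sum_eq_zero fun d hd => ?_
    obtain ⟨a, b, c, e⟩ := mem_filter.1 hd
    exact hp.jq d a c e zero_lt_one b
  linarith

/-- the boundary sum is at most 0 -/
theorem EK.sum_bd_le (h : EK G k t fr F jm) (hX : G.Adm fr F X) (hj : Disjoint X jm)
    (hp : G.HPot one1 t F X p) : ∑ d ∈ G.bd X, p (G.pi d) ≤ 0 := by
  have h1 := h.sum_bd hX hj hp
  have h2 : ∑ d ∈ F.filter (fun d => G.pi d ∈ X), (p (G.pi d) + p (G.pi (G.al d))) ≤ 0 := by
    refine sum_nonpos fun d hd => ?_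
    obtain ⟨a, b⟩ := mem_filter.1 hd
    exact hp.kk d a b (hX.clo d a b)
  linarith

/-- equality: all darts of `X` are tight -/
theorem EK.tight_bd (h : EK G k t fr F jm) (hX : G.Adm fr F X) (hj : Disjoint X jm)
    (hp : G.HPot one1 t F X p) (hs : ∑ d ∈ G.bd X, p (G.pi d) = 0) :
    ∀ d ∈ G.ds, G.pi d ∈ X → G.pi (G.al d) ∈ X → p (G.pi d) + p (G.pi (G.al d)) = 0 := by
  intro d hd h1 h2
  by_cases hdF : d ∈ F
  · have h3 := h.sum_bd hX hj hp
    rw [hs, mul_zero] at h3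
    have h4 : ∀ d ∈ F.filter (fun d => G.pi d ∈ X), p (G.pi d) + p (G.pi (G.al d)) ≤ 0 := by
      intro d hd
      obtain ⟨a, b⟩ := mem_filter.1 hd
      exact hp.kk d a b (hX.clo d a b)
    exact (sum_eq_zero_iff_of_nonpos h4).1 h3.symm d (mem_filter.2 ⟨hdF, h1⟩)
  · exact hp.jq d hd h1 h2 zero_lt_one hdF

/-- **2-COLOURING**: equality and the values `1`, `-1` at the boundary -/
theorem EK.bip (h : EK G k t fr F jm) (hX : G.Adm fr F X) (hj : Disjoint X jm)
    (hXn : X ≠ G.vs) (hp : G.HPot one1 t F X p)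
    (hb : ∀ d ∈ G.bd X, p (G.pi d) = 1 ∨ p (G.pi d) = -1)
    (hs : ∑ d ∈ G.bd X, p (G.pi d) = 0) :
    (∀ v ∈ X, p v = 1 ∨ p v = -1) ∧
      ∀ d ∈ G.ds, G.pi d ∈ X → G.pi (G.al d) ∈ X → p (G.pi (G.al d)) = - p (G.pi d) := by
  have ht := h.tight_bd hX hj hp hs
  refine ⟨?_, fun d hd h1 h2 => by linarith [ht d hd h1 h2]⟩
  by_contra hcon
  push Not at hcon
  set Y : Finset V := X.filter fun v => p v ≠ 1 ∧ p v ≠ -1 with hY
  have hYX : Y ⊆ X := filter_subset _ _
  have hYs : Y ⊆ G.vs := hYX.trans (hX.sub.trans h.fresh.fsub)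
  have hYn : Y.Nonempty := by
    obtain ⟨v, h1, h2⟩ := hcon
    exact ⟨v, mem_filter.2 ⟨h1, h2⟩⟩
  have hbd : G.bd Y = ∅ := by
    rw [eq_empty_iff_forall_notMem]
    intro d hd
    obtain ⟨h1, h2, h3⟩ := mem_bd.1 hd
    obtain ⟨h4, h5, h6⟩ := mem_filter.1 h2
    by_cases h7 : G.pi (G.al d) ∈ X
    · have h8 := ht d h1 h4 h7
      refine h3 (mem_filter.2 ⟨h7, fun h9 => h6 ?_, fun h9 => h5 ?_⟩)
      · linarith
      · linarith
    · rcases hb d (mem_bd.2 ⟨h1, h4, h7⟩) with h8 | h8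
      · exact h5 h8
      · exact h6 h8
  have htY : ∑ v ∈ Y, t v = 0 := by
    refine sum_eq_zero fun v hv => ?_
    rw [h.tok_fr (hX.sub (hYX hv)), if_neg (disjoint_left.1 hj (hYX hv))]
  have hval : G.val one1 t Y = 0 := by
    unfold MG.val
    rw [hbd, sum_empty, htY, add_zero]
  rcases Nat.even_or_odd Y.card with he | ho
  · have h1 := h.evn Y hYs he hYn (fun h2 => hXn (by
      refine Subset.antisymm (hX.sub.trans h.fresh.fsub) ?_
      rw [← h2]
      exact hYX))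
    rw [hval] at h1
    linarith
  · by_cases h1 : Y.card = 1
    · obtain ⟨v, hv⟩ := card_eq_one.1 h1
      have h2 : v ∈ Y := by rw [hv]; exact mem_singleton_self v
      obtain ⟨f, hf⟩ := card_pos.1 (by rw [h.fresh.two v (hX.sub (hYX h2))]; norm_num :
        0 < (F.filter fun d => G.pi d = v).card)
      obtain ⟨h3, h4⟩ := mem_filter.1 hf
      have h5 : f ∈ G.bd Y := by
        refine mem_bd.2 ⟨h.fresh.Fsub h3, by rw [h4]; exact h2, fun h6 => ?_⟩
        rw [hv, mem_singleton] at h6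
        exact G.noloop f (h.fresh.Fsub h3) (by rw [h6, h4])
      rw [hbd] at h5
      exact notMem_empty _ h5
    · have h2 := h.odd Y hYs ho h1
      rw [hval] at h2
      linarith

end MG

end RH
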