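import Pool.Agent.Lib.RH.GInn

/-! # Gadget graphs with a star at two dropped ports

`exists_keepT`: the kept classes are those inside `A` whose only dropped ports are at `T`;
`gjm_keepT`: the vertices without J-dart are then `fr1 ∩ T`; `gad_closedT`: unions of classes of `A`
whose boundary darts are used or dropped. -/

set_option autoImplicit false

namespace RH

open Finset Classical

namespace MG

variable {V D : Type*} {G : MG V D} {g : GD V D} {z : D → ℝ} {t : V → ℝ}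
variable {fr fr1 : Finset V} {F : Finset D} {jm sx T : Finset V} {ep : V → ℕ} {m : ℕ}

/-- the largest union of classes inside `A` without old star vertices and with dropped ports only
at `T` -/
theorem exists_keepT (G : MG V D) (g : GD V D) (fr : Finset V) (F : Finset D)
    (jm T : Finset V) : ∃ fr1, FOk G g fr F fr1 ∧
      (∀ v ∈ fr1, v ∈ T ∨ (gdp G g v = ∅ ∧ v ∉ jm)) ∧
      ∀ X, G.Adm fr F X → X ⊆ g.A → (∀ v ∈ X, v ∈ T ∨ (gdp G g v = ∅ ∧ v ∉ jm)) → X ⊆ fr1 := by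
  refine ⟨fr.filter fun v => ∃ X, G.Adm fr F X ∧ v ∈ X ∧ X ⊆ g.A ∧
    ∀ v ∈ X, v ∈ T ∨ (gdp G g v = ∅ ∧ v ∉ jm), ⟨filter_subset _ _, ?_, ?_⟩, ?_, ?_⟩
  · intro v hv
    obtain ⟨-, X, -, h2, h3, -⟩ := mem_filter.1 hv
    exact h3 h2
  · intro d hd hp
    obtain ⟨-, X, h1, h2, h3, h4⟩ := mem_filter.1 hp
    have h5 := h1.clo d hd h2
    exact mem_filter.2 ⟨h1.sub h5, X, h1, h5, h3, h4⟩
  · intro v hv
    obtain ⟨-, X, -, h2, h3, h4⟩ := mem_filter.1 hv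
    exact h4 v h2
  · intro X hX h1 h2 v hv
    exact mem_filter.2 ⟨hX.sub hv, X, hX, hv, h1, h2⟩

/-- the star of the gadget graph -/
theorem gjm_keepT (hT : ∀ v ∈ T, (gdp G g v).Nonempty)
    (h : ∀ v ∈ fr1, v ∈ T ∨ (gdp G g v = ∅ ∧ v ∉ jm)) : gjm G g jm fr1 = fr1 ∩ T := by
  ext v
  unfold gjm
  rw [mem_filter, mem_inter]
  constructor
  · rintro ⟨h1, h2⟩
    refine ⟨h1, ?_⟩
    rcases h v h1 with h3 | ⟨h3, h4⟩
    · exact h3
    · rcases h2 with h5 | h5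
      · exact absurd h5 h4
      · rw [h3] at h5
        exact absurd h5 not_nonempty_empty
  · rintro ⟨h1, h2⟩
    exact ⟨h1, Or.inr (hT v h2)⟩

/-- either the star `T` is kept, or a star vertex lies in a class which leaves `A`, contains an
old star vertex or has another dropped port; then we may take `T = ∅` -/
theorem exists_star (G : MG V D) (g : GD V D) (fr : Finset V) (F : Finset D) (jm T : Finset V)
    (hT : ∀ v ∈ T, (gdp G g v).Nonempty) (h2 : T.card = 2) :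
    (∃ fr1, FOk G g fr F fr1 ∧ gjm G g jm fr1 = T ∧
      ∀ X, G.Adm fr F X → X ⊆ g.A → (∀ v ∈ X, v ∈ T ∨ (gdp G g v = ∅ ∧ v ∉ jm)) → X ⊆ fr1) ∨
    ((∃ fr1, FOk G g fr F fr1 ∧ gjm G g jm fr1 = ∅ ∧
      ∀ X, G.Adm fr F X → X ⊆ g.A → (∀ v ∈ X, gdp G g v = ∅ ∧ v ∉ jm) → X ⊆ fr1) ∧
      ∀ X, G.Adm fr F X → X ⊆ g.A → (∀ v ∈ X, v ∈ T ∨ (gdp G g v = ∅ ∧ v ∉ jm)) → ¬ T ⊆ X) := by
  by_cases hc : ∃ X, G.Adm fr F X ∧ X ⊆ g.A ∧ (∀ v ∈ X, v ∈ T ∨ (gdp G g v = ∅ ∧ v ∉ jm)) ∧ T ⊆ X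
  · left
    obtain ⟨X, h3, h4, h5, h6⟩ := hc
    obtain ⟨fr1, h7, h8, h9⟩ := exists_keepT G g fr F jm T
    refine ⟨fr1, h7, ?_, h9⟩
    rw [gjm_keepT hT h8]
    exact inter_eq_right.2 (h6.trans (h9 X h3 h4 h5))
  · right
    refine ⟨?_, fun X h3 h4 h5 h6 => hc ⟨X, h3, h4, h5, h6⟩⟩
    obtain ⟨fr1, h7, h8, h9⟩ := exists_keepT G g fr F jm ∅
    refine ⟨fr1, h7, ?_, ?_⟩
    · rw [gjm_keepT (fun v hv => absurd hv (notMem_empty v)) h8, inter_empty]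
    · intro X h3 h4 h5
      exact h9 X h3 h4 fun v hv => Or.inr (h5 v hv)

/-- **closed unions, ports used or dropped** -/
theorem gad_closedT (h : GOk G g) (hF : G.FrS z fr F jm) (hf : FOk G g fr F fr1) {y : D → ℝ}
    {M : Finset D}
    (hM : (gad G g h).GoodS y fr1 (F.filter fun d => G.pi d ∈ fr1) sx M) {X : Finset V}
    (hX : G.Adm fr F X) (hX1 : X ⊆ fr1)
    (hcl : ∀ d ∈ G.bd X, d ∈ M ∨ (G.pi (G.al d) ∉ g.A ∧ d ∉ g.P)) :
    Even X.card ∧ ¬ (sx.Nonempty ∧ sx ⊆ X) := by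
  have h3 : (Odd X.card ∨ (sx.Nonempty ∧ sx ⊆ X)) → False := by
    intro h4
    obtain ⟨d, h5, h6⟩ := hM.hit X ((gad_adm h hF hf).2 ⟨hX, hX1⟩) h4
    obtain ⟨h7, h8⟩ := (gad_mem_bd h (hX1.trans hf.inA)).1 h5
    rcases hcl d h7 with h9 | h9
    · exact h6 h9
    · exact h8 h9
  refine ⟨?_, fun h4 => h3 (Or.inr h4)⟩
  rw [← Nat.not_odd_iff_even]
  exact fun h4 => h3 (Or.inl h4)

end MG

end RH
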