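import Pool.Agent.Lib.RH.GluS
import Pool.Agent.Lib.RH.GStar

/-! The outer state `O` of a blocked step in the class CE6: the exit `e` is killed (a token at its
outer end), `W = vs - A` is contracted to `ω`. Rounding of certificates to the values -1, 0, 1. -/

set_option autoImplicit false

namespace RH

open Finset Classical

namespace MG

variable {V D : Type*} {G : MG V D} {g : GD V D} {z y ye : D → ℝ} {t tk : V → ℝ}
variable {fr fr1 : Finset V} {F M : Finset D} {jm A S : Finset V} {k' : ℝ} {p : V → ℝ} {e : D}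

/-- **ROUNDING**: a certificate may be taken with the values -1, 0, 1 -/
theorem Pot.tri (h : G.Pot one1 t F ∅ p) (hal : ∀ d ∈ F, G.al d ∈ F) :
    ∃ q, G.Pot one1 t F ∅ q ∧ ∀ v, q v = 1 ∨ q v = 0 ∨ q v = -1 := by
  rcases closure_or (G := G) (t := t) (Rs := G.ds) (Ls := G.ds \ F) Subset.rfl G.al_mem
      sdiff_subset (fun d hd => by
        obtain ⟨h1, h2⟩ := mem_sdiff.1 hd
        refine mem_sdiff.2 ⟨G.al_mem d h1, fun h3 => h2 ?_⟩
        have h4 := hal _ h3
        rwa [G.al_al d h1] at h4) with ⟨q, h1, h2, h3, h4⟩ | ⟨a, ha, b, hb, h1, h2, c, hc⟩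
  · refine ⟨q, ⟨h2, fun d hd _ hF _ => ?_, fun d hd => h3 d (h.Ksub hd),
      fun d hd => absurd hd (notMem_empty _), h.Ksub, empty_subset _⟩, h1⟩
    exact le_antisymm (h3 d hd) (h4 d (mem_sdiff.2 ⟨hd, hF⟩))
  · exfalso
    have e1 : ∑ v ∈ G.vs, p v * ∑ d ∈ G.st v, c d = 2 := by
      rw [sum_congr rfl fun v hv => by rw [hc.deg v hv]]
      have e2 : ∀ v ∈ G.vs, p v * ((if v = a then (1 : ℝ) else 0) + if v = b then 1 else 0) =
          (if v = a then p a else 0) + if v = b then p b else 0 := by
        intro v _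
        rw [mul_add, mul_ite, mul_ite, mul_one, mul_zero]
        congr 1
        · split_ifs with h
          · rw [h]
          · rfl
        · split_ifs with h
          · rw [h]
          · rfl
      rw [sum_congr rfl e2, sum_add_distrib, sum_ite_eq', sum_ite_eq', if_pos ha, if_pos hb,
        h.tok a ha h1, h.tok b hb h2]
      norm_num
    have e3 : ∑ v ∈ G.vs, p v * ∑ d ∈ G.st v, c d = ∑ d ∈ G.ds, c d * p (G.pi d) := by
      have e4 : ∀ v ∈ G.vs, p v * ∑ d ∈ G.st v, c d = ∑ d ∈ G.st v, c d * p (G.pi d) := by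
        intro v _
        rw [mul_sum]
        refine sum_congr rfl fun d hd => ?_
        rw [(mem_st.1 hd).2]
        ring
      rw [sum_congr rfl e4]
      exact sum_fiberwise_of_maps_to (g := G.pi) (fun d hd => G.pi_mem d hd) _
    have e5 := sum_symm (G := G) (S := G.ds) Subset.rfl G.al_mem (z := c)
      (fun d hd => hc.sym d hd) p
    have e6 : ∑ d ∈ G.ds, c d * (p (G.pi d) + p (G.pi (G.al d))) ≤ 0 := by
      refine sum_nonpos fun d hd => ?_
      by_cases hF : d ∈ F
      · have h3 := hc.up d fun h4 => (mem_sdiff.1 h4).2 hF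
        have h4 := h.kk d hF
        exact mul_nonpos_of_nonneg_of_nonpos h3 h4
      · rw [h.jq d hd zero_lt_one hF (notMem_empty d), mul_zero]
    linarith

/-- the half of a gadget solution, general form: the unions of the side which are not kept and
contain an even number of star vertices have a lost port -/
theorem gad_halfL (ok : GOk G g) (hF : G.FrS z fr F jm) (hf : FOk G g fr F fr1)
    (hj : gjm G g jm fr1 = jm ∩ fr1)
    (hS : ∀ X, G.Adm fr F X → X ⊆ g.A → Even (X ∩ jm).card → ¬ X ⊆ fr1 →
      ∃ v ∈ X, (gdp G g v).Nonempty)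
    (hM : (gad G g ok).GoodS (gz g y ye) fr1 (F.filter fun d => G.pi d ∈ fr1)
      (gjm G g jm fr1) M) : G.GHalf y fr F jm g.A (G.resM g.A M) where
  hm := gad_HM ok hM.pm
  pos := by
    intro d hd
    obtain ⟨h1, h2, h3⟩ := mem_resM.1 hd
    have h4 := hM.pos d h1
    unfold gz at h4
    rwa [if_neg (ok.innE h2 h3)] at h4
  ok := by
    intro X hX hXA hcl
    have h1 : Even (X ∩ jm).card := by
      have h2 := (gad_HM ok hM.pm).unused hF hX hXA
      have h3 : (G.bd X).filter (fun d => d ∉ G.resM g.A M) = ∅ :=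
        filter_eq_empty_iff.2 fun d hd hn => hn (hcl d hd)
      rw [h3, card_empty] at h2
      rw [Nat.even_iff]
      omega
    by_cases h2 : X ⊆ fr1
    · obtain ⟨h3, h4⟩ := gad_closedT ok hF hf hM hX h2 fun d hd => Or.inl (mem_resM.1 (hcl d hd)).1
      refine ⟨h3, fun h5 => h4 ?_⟩
      rw [hj, inter_eq_left.2 (h5.2.trans h2)]
      exact h5
    · obtain ⟨v, hv, d, hd⟩ := hS X hX hXA h1 h2
      obtain ⟨h3', h4, h5⟩ := mem_gdp.1 hd
      have h3 : d ∈ G.bd g.A := mem_bd.2 h3'
      obtain ⟨h6, h7, h8⟩ := h3'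
      have h9 : d ∈ G.bd X := mem_bd.2 ⟨h6, by rw [h5]; exact hv, fun h10 => h8 (hXA h10)⟩
      exact absurd (gad_exit ok hM.pm h3 (mem_resM.1 (hcl d h9)).1) h4

/-- data of a blocked step: `W = vs - A` has value 5, `e` is the killed exit; no larger blocker -/
structure BW (G : MG V D) (t : V → ℝ) (F : Finset D) (A : Finset V) (e : D) : Prop where
  hA : A ⊆ G.vs
  odd : Odd (G.vs \ A).card
  big : 3 ≤ (G.vs \ A).card
  val : G.val one1 t (G.vs \ A) = 5
  tok : 1 ≤ ∑ v ∈ G.vs \ A, t v
  he : e ∈ G.bd A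
  hF : ∀ d ∈ F, G.pi d ∈ A → G.pi (G.al d) ∈ A
  mO : ∀ X ⊆ A, Even X.card → X.Nonempty → G.pi e ∉ X → 7 ≤ G.val one1 t (X ∪ (G.vs \ A))
  mE : ∀ X ⊆ A, Odd X.card → G.pi e ∉ X → 6 ≤ G.val one1 t (X ∪ (G.vs \ A))

/-- **O**: a single which is not `e`, or half of a certificate with the value 1 at `e` and the same
value `-w` at the other exits -/
theorem X6.out [Infinite V] (h : X6 G t fr F jm) (b : BW G t F A e) :
    (∃ M, G.GHalf one1 fr F jm A M ∧ ∃ d, d ≠ e ∧ G.Sg A M d) ∨
      ∃ f w, G.HPot one1 t F A f ∧ f (G.pi e) = 1 ∧ (∀ d ∈ G.bd A, d ≠ e → f (G.pi d) = -w) ∧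
        (w = 1 ∨ w = 0 ∨ w = -1) ∧ ((G.bd A).card ≤ 3 → w = 1) := by
  obtain ⟨ω, hω⟩ := Infinite.exists_notMem_finset G.vs
  have hωA : ω ∉ A := fun h1 => hω (b.hA h1)
  obtain ⟨P, hPd⟩ : ∃ P, P = (G.bd A).erase e := ⟨_, rfl⟩
  have hP : P ⊆ G.bd A := by rw [hPd]; exact erase_subset _ _
  have ok : GOk G (gOne A P ω) := gOne_ok b.hA hωA hP
  have hw := h.wt
  -- numbers
  have hcb : ((G.bd A).card : ℝ) + ∑ v ∈ G.vs \ A, t v = 5 := by
    have h1 := b.val
    rw [val_one] at h1
    have h2 : (G.bd (G.vs \ A)).card = (G.bd A).card := by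
      refine card_bij (fun d _ => G.al d) ?_ ?_ ?_
      · intro d hd
        obtain ⟨k1, k2, k3⟩ := mem_bd.1 hd
        have k4 : G.pi (G.al d) ∈ A := by
          by_contra k4
          exact k3 (mem_sdiff.2 ⟨G.pi_mem _ (G.al_mem d k1), k4⟩)
        exact mem_bd.2 ⟨G.al_mem d k1, k4, by rw [G.al_al d k1]; exact (mem_sdiff.1 k2).2⟩
      · intro d hd d' hd' hdd
        have h3 := congrArg G.al hdd
        rwa [G.al_al d (mem_bd.1 hd).1, G.al_al d' (mem_bd.1 hd').1] at h3
      · intro d hd
        obtain ⟨k1, k2, k3⟩ := mem_bd.1 hd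
        refine ⟨G.al d, mem_bd.2 ⟨G.al_mem d k1, mem_sdiff.2 ⟨G.pi_mem _ (G.al_mem d k1), k3⟩, ?_⟩,
          G.al_al d k1⟩
        rw [G.al_al d k1]
        exact fun k4 => (mem_sdiff.1 k4).2 k2
    rw [← h2]
    exact h1
  have hbc : 1 ≤ (G.bd A).card := card_pos.2 ⟨e, b.he⟩
  have hPc : P.card = (G.bd A).card - 1 := by rw [hPd, card_erase_of_mem b.he]
  have hPc3 : P.card ≤ 3 := by
    have h1 := b.tok
    have h2 : ((G.bd A).card : ℝ) ≤ ((4 : ℕ) : ℝ) := by
      push_cast
      linarith
    have h3 : (G.bd A).card ≤ 4 := by exact_mod_cast h2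
    omega
  have hPr : (P.card : ℝ) = (G.bd A).card - 1 := by
    rw [hPc, Nat.cast_sub hbc]
    push_cast
    ring
  have hI : IGb (gOne A P ω) one1 (gkt (gOne A P ω)) := gOne_igb (fun _ _ => rfl) hPc3
  have htk : gkt (gOne A P ω) ω = 3 - (P.card : ℝ) := by
    unfold gkt
    rw [gOne_pv]
  -- lost ports
  have hlost : ∀ v, (gdp G (gOne A P ω) v).Nonempty ↔ v = G.pi e := by
    intro v
    constructor
    · rintro ⟨d, hd⟩
      obtain ⟨h1', h2, h3⟩ := mem_gdp.1 hd
      have h1 : d ∈ G.bd A := mem_bd.2 h1'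
      have h4 : d = e := by
        by_contra h4
        exact h2 (by rw [show (gOne A P ω).P = P from rfl, hPd]; exact mem_erase.2 ⟨h4, h1⟩)
      rw [← h3, h4]
    · rintro rfl
      refine ⟨e, mem_gdp.2 ⟨mem_bd.1 b.he, ?_, rfl⟩⟩
      rw [show (gOne A P ω).P = P from rfl, hPd]
      exact fun h1 => (mem_erase.1 h1).1 rfl
  obtain ⟨fr1, hs, hcl, hd, hj, hl, -⟩ := exists_link G fr F jm (insert (G.pi e) (fr \ A)) h.jm2
  have hf : FOk G (gOne A P ω) fr F fr1 := by
    refine ⟨hs, fun v hv => ?_, hcl⟩
    by_contra h1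
    exact disjoint_left.1 hd hv (mem_insert_of_mem (mem_sdiff.2 ⟨hs hv, h1⟩))
  have he1 : G.pi e ∉ fr1 := fun h1 => disjoint_left.1 hd h1 (mem_insert_self _ _)
  have hjg : gjm G (gOne A P ω) jm fr1 = jm ∩ fr1 := by
    ext v
    unfold gjm
    rw [mem_filter, mem_inter, hlost v]
    constructor
    · rintro ⟨h1, h2 | h2⟩
      · exact ⟨h2, h1⟩
      · rw [h2] at h1
        exact absurd h1 he1
    · rintro ⟨h1, h2⟩
      exact ⟨h2, Or.inl h1⟩
  have h2j : gjm G (gOne A P ω) jm fr1 = ∅ ∨ (gjm G (gOne A P ω) jm fr1).card = 2 := by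
    rw [hjg]
    rcases hj with h1 | h1
    · rw [inter_eq_left.2 h1]
      exact h.jm2
    · left
      exact disjoint_iff_inter_eq_empty.1 h1
  have hAodd : A.card % 2 = 1 := by
    have h1 := card_sdiff_add_card_eq_card b.hA
    have h2 := Nat.odd_iff.1 b.odd
    have h3 := Nat.even_iff.1 h.even
    omega
  -- tables
  have hgdx : ∀ X : Finset V, gdx G (gOne A P ω) one1 X = if G.pi e ∈ X then 1 else 0 := by
    intro X
    unfold gdx
    have h1 : (G.bd (gOne A P ω).A).filter (fun d => G.pi d ∈ X ∧ d ∉ (gOne A P ω).P) =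
        if G.pi e ∈ X then {e} else ∅ := by
      change (G.bd A).filter (fun d => G.pi d ∈ X ∧ d ∉ P) = _
      ext d
      rw [mem_filter, hPd, mem_erase]
      by_cases h2 : G.pi e ∈ X
      · rw [if_pos h2, mem_singleton]
        constructor
        · rintro ⟨h3, h4, h5⟩
          by_contra h6
          exact h5 ⟨h6, h3⟩
        · rintro rfl
          exact ⟨b.he, h2, fun h3 => h3.1 rfl⟩
      · rw [if_neg h2]
        constructor
        · rintro ⟨h3, h4, h5⟩
          exfalso
          refine h5 ⟨fun h6 => h2 ?_, h3⟩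
          rw [← h6]
          exact h4
        · intro h3
          exact absurd h3 (notMem_empty _)
    rw [h1]
    split_ifs
    · rw [sum_singleton]
      rfl
    · rw [sum_empty]
  have htab : ∀ X ⊆ A, G.val one1 t X + gvk (gOne A P ω) one1 one1 (gkt (gOne A P ω)) {ω} -
      2 * gpw G (gOne A P ω) one1 X {ω} = G.val one1 t (X ∪ (G.vs \ A)) - 2 +
        2 * if G.pi e ∈ X then 1 else 0 := by
    intro X hX
    have h1 := hI.cont (G := G) (ze := one1) (X := X) (Y := {ω}) Subset.rfl
    have h2 := hI.val_out hw ok rfl (X := X) hX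
    have h3 := hgdx X
    have h4 : G.val one1 t (G.vs \ (gOne A P ω).A) = 5 := b.val
    change G.val one1 t X + gsv G (gOne A P ω) X {ω} = G.val one1 t (X ∪ (G.vs \ A)) -
      G.val one1 t (G.vs \ (gOne A P ω).A) + 3 + 2 * gdx G (gOne A P ω) one1 X at h2
    rw [h3, h4] at h2
    linarith
  have hsing : ∀ Y ⊆ (gOne A P ω).K, Y = ∅ ∨ Y = {ω} := fun Y hY => subset_singleton_iff.1 hY
  have hE : EK (MG.gad G (gOne A P ω) ok) 6 (gt G (gOne A P ω) one1 t (gkt (gOne A P ω))) fr1
      (F.filter fun d => G.pi d ∈ fr1) (gjm G (gOne A P ω) jm fr1) := by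
    refine h.toEK.gad (by norm_num) ok hf ?_ ?_ ?_ h2j ?_ ?_ ?_
    · change Even (A.card + ({ω} : Finset V).card)
      rw [card_singleton, Nat.even_iff]
      omega
    · intro v hv
      rw [mem_singleton.1 (show v ∈ ({ω} : Finset V) from hv), htk]
      have h1 : (P.card : ℝ) ≤ 3 := by exact_mod_cast hPc3
      linarith
    · intro v hv
      rw [mem_singleton.1 (show v ∈ ({ω} : Finset V) from hv), gvk_one, sum_singleton, htk]
      have h1 : (gOne A P ω).P.filter (fun d => (gOne A P ω).ga d ∈ ({ω} : Finset V)) = P := by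
        change P.filter (fun _ => ω ∈ ({ω} : Finset V)) = P
        rw [filter_true_of_mem]
        exact fun _ _ => mem_singleton_self ω
      have h2 : (gOne A P ω).E.filter (fun d => (gOne A P ω).pe d ∈ ({ω} : Finset V) ∧
          (gOne A P ω).pe ((gOne A P ω).be d) ∉ ({ω} : Finset V)) = ∅ := by
        change (∅ : Finset D).filter _ = ∅
        exact filter_empty _
      rw [h1, h2, card_empty]
      push_cast
      ring
    · have h1 : (G.bd (gOne A P ω).A).filter (fun d => d ∉ (gOne A P ω).P) = {e} := by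
        change (G.bd A).filter (fun d => d ∉ P) = {e}
        ext d
        rw [mem_filter, hPd, mem_erase, mem_singleton]
        constructor
        · rintro ⟨h2, h3⟩
          by_contra h4
          exact h3 ⟨h4, h2⟩
        · rintro rfl
          exact ⟨b.he, fun h2 => h2.1 rfl⟩
      rw [h1, card_singleton]
      change ∑ v ∈ A, t v + ((1 : ℕ) : ℝ) + ∑ v ∈ ({ω} : Finset V), gkt (gOne A P ω) v = 6
      rw [sum_singleton, htk, hPr]
      have h3 := h.tau
      have h4 := sum_sdiff b.hA (f := t)
      push_cast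
      linarith
    · intro X hX Y hY ho h1
      rcases hsing Y hY with rfl | rfl
      · rw [gvk_empty, gpw_empty]
        rw [card_empty, add_zero] at ho h1
        have h2 := h.odd X (hX.trans b.hA) ho h1
        linarith
      · rw [htab X hX]
        rw [card_singleton] at ho h1
        have hev : Even X.card := by
          rcases ho with ⟨k, hk⟩
          exact ⟨k, by omega⟩
        have hne : X.Nonempty := card_pos.1 (by omega)
        by_cases h3 : G.pi e ∈ X
        · rw [if_pos h3]
          have h4 : 5 ≤ G.val one1 t (X ∪ (G.vs \ A)) := by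
            have hdj : Disjoint X (G.vs \ A) := disjoint_left.2 fun v hv hv' =>
              (mem_sdiff.1 hv').2 (hX hv)
            refine h.odd _ (union_subset (hX.trans b.hA) sdiff_subset) ?_ ?_
            · rw [card_union_of_disjoint hdj]
              rcases b.odd with ⟨k, hk⟩
              rcases hev with ⟨k', hk'⟩
              exact ⟨k + k', by omega⟩
            · rw [card_union_of_disjoint hdj]
              have := b.big
              omega
          linarith
        · rw [if_neg h3]
          have h4 := b.mO X hX hev hne h3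
          linarith
    · intro X hX Y hY hev h1 h2
      rcases hsing Y hY with rfl | rfl
      · rw [gvk_empty, gpw_empty]
        rw [card_empty, add_zero] at hev
        have hne : X.Nonempty := by
          rcases h1 with h1 | h1
          · exact h1
          · exact absurd h1 not_nonempty_empty
        have h3 := h.evn X (hX.trans b.hA) hev hne ?_
        · linarith
        · rintro rfl
          have h4 := b.big
          rw [Finset.Subset.antisymm (show A ⊆ G.vs from b.hA) hX, Finset.sdiff_self,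
            card_empty] at h4
          omega
      · rw [htab X hX]
        rw [card_singleton] at hev
        have ho : Odd X.card := by
          rcases hev with ⟨k, hk⟩
          exact ⟨k - 1, by omega⟩
        by_cases h3 : G.pi e ∈ X
        · rw [if_pos h3]
          have hXA : X ≠ A := by
            rcases h2 with h2 | h2
            · exact h2
            · exact absurd rfl h2
          have hdj : Disjoint X (G.vs \ A) := disjoint_left.2 fun v hv hv' =>
            (mem_sdiff.1 hv').2 (hX hv)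
          have h4 : 4 ≤ G.val one1 t (X ∪ (G.vs \ A)) := by
            refine h.evn _ (union_subset (hX.trans b.hA) sdiff_subset) ?_ ?_ ?_
            · rw [card_union_of_disjoint hdj]
              rcases b.odd with ⟨k, hk⟩
              rcases ho with ⟨k', hk'⟩
              exact ⟨k + k' + 1, by omega⟩
            · exact ⟨_, mem_union_left _ h3⟩
            · intro h5
              refine hXA (Subset.antisymm hX fun v hv => ?_)
              have h6 : v ∈ X ∪ (G.vs \ A) := by
                rw [h5]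
                exact b.hA hv
              rcases mem_union.1 h6 with h7 | h7
              · exact h7
              · exact absurd hv (mem_sdiff.1 h7).2
          linarith
        · rw [if_neg h3]
          have h4 := b.mE X hX ho h3
          linarith
  have hsz : (MG.gad G (gOne A P ω) ok).vs.card < G.vs.card := by
    have h1 : (MG.gad G (gOne A P ω) ok).vs.card ≤ A.card + 1 := by
      change (A ∪ ({ω} : Finset V)).card ≤ _
      refine (card_union_le _ _).trans ?_
      rw [card_singleton]
    have h2 := card_sdiff_add_card_eq_card b.hA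
    have h3 := b.big
    omega
  rcases h.solve' (card_le_card hs) hsz hE with ⟨M, hM⟩ | ⟨p, hp⟩
  · left
    have hM' : (MG.gad G (gOne A P ω) ok).GoodS (gz (gOne A P ω) one1 one1) fr1
        (F.filter fun d => G.pi d ∈ fr1) (gjm G (gOne A P ω) jm fr1) M := by
      rw [gz_one]
      exact hM
    have hH : G.GHalf one1 fr F jm A (G.resM A M) := gad_halfL ok h.fresh hf hjg (fun X hX hXA hev hn => by
      obtain ⟨v, hv⟩ := hl X hX hev hn
      obtain ⟨h1, h2⟩ := mem_inter.1 hv
      rcases mem_insert.1 h2 with h3 | h3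
      · exact ⟨v, h1, (hlost v).2 h3⟩
      · exact absurd (hXA h1) (mem_sdiff.1 h3).2) hM'
    refine ⟨_, hH, ?_⟩
    obtain ⟨f, hfP, hfd⟩ := gOne_pat (z := one1) (fun _ _ => rfl) hPc3 ok hM.pm
    have h1 : f ≠ e := by
      rw [hPd] at hfP
      exact (mem_erase.1 hfP).1
    exact ⟨f, h1, hP hfP, fun d hd => by rw [resM_port hd]; exact hfd d hd⟩
  · right
    obtain ⟨q, hq, hq3⟩ := hp.tri fun d hd => by
      obtain ⟨h1, h2⟩ := mem_filter.1 hd
      have h3 := h.fresh.Fsub h1
      have h4 : MG.gal G (gOne A P ω) d = G.al d := GOk.galN (ok.innE h3 (hf.inA h2))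
      change MG.gal G (gOne A P ω) d ∈ _
      rw [h4]
      exact mem_filter.2 ⟨h.fresh.Fal d h1, hcl d h1 h2⟩
    have hq' : (MG.gad G (gOne A P ω) ok).Pot (gz (gOne A P ω) one1 one1)
        (gt G (gOne A P ω) one1 t (gkt (gOne A P ω))) (F.filter fun d => G.pi d ∈ fr1) ∅ q := by
      rw [gz_one]
      exact hq
    have hH : G.HPot one1 t F A q := gad_hpot (K := F) ok hw (filter_subset _ _) hq'
      (fun _ _ => zero_lt_one) h.fresh.Fsub
    have hnF : ∀ d ∈ G.bd A, d ∉ F.filter fun d => G.pi d ∈ fr1 := fun d hd hF =>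
      (mem_bd.1 hd).2.2 (b.hF d (mem_filter.1 hF).1 (mem_bd.1 hd).2.1)
    refine ⟨q, q ω, hH, ?_, ?_, hq3 ω, ?_⟩
    · refine gad_lost ok hw hq' b.he ?_ (by unfold one1; norm_num)
      rw [show (gOne A P ω).P = P from rfl, hPd]
      exact fun h1 => (mem_erase.1 h1).1 rfl
    · intro d hd hde
      have hdP : d ∈ (gOne A P ω).P := by
        rw [show (gOne A P ω).P = P from rfl, hPd]
        exact mem_erase.2 ⟨hde, hd⟩
      exact gad_port ok hw hq' hdP (hnF d hd) (by unfold one1; norm_num)
    · intro h3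
      refine gad_tok ok hw hq' (v := ω) (mem_singleton_self ω) ?_
      rw [htk, hPr]
      have h4 : ((G.bd A).card : ℝ) ≤ 3 := by exact_mod_cast h3
      intro h5
      linarith

end MG

end RH
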