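import Pool.Agent.Lib.RH.A4
import Pool.Agent.Lib.RH.CE6Omega

/-! # Pure restrictions

The state `G[A]` (every exit of `A` is replaced by a token), with 4 or 6 tokens; the star at a chosen
pair `T` of special vertices (ends of exits, old star vertices). -/

set_option autoImplicit false

namespace RH

open Finset Classical

namespace MG

variable {V D : Type*} {G : MG V D} {g : GD V D} {t : V → ℝ} {fr fr1 : Finset V} {F : Finset D}
variable {jm A X T : Finset V} {k k' : ℝ}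

/-- the value of the complement -/
theorem EK.val_compl (h : EK G k t fr F jm) (hX : X ⊆ G.vs) :
    G.val one1 t (G.vs \ X) = G.val one1 t X + k - 2 * ∑ v ∈ X, t v := by
  have h1 : (G.bd (G.vs \ X)).card = (G.bd X).card := by
    rw [bd_eq_ed, bd_eq_ed, Finset.sdiff_sdiff_eq_self hX]
    refine card_bij (fun d _ => G.al d) ?_ ?_ ?_
    · intro d hd
      obtain ⟨k1, k2, k3⟩ := mem_ed.1 hd
      exact mem_ed.2 ⟨G.al_mem d k1, k3, by rw [G.al_al d k1]; exact k2⟩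
    · intro d hd e he k
      rw [← G.al_al d (mem_ed.1 hd).1, k, G.al_al e (mem_ed.1 he).1]
    · intro d hd
      obtain ⟨k1, k2, k3⟩ := mem_ed.1 hd
      exact ⟨G.al d, mem_ed.2 ⟨G.al_mem d k1, k3, by rw [G.al_al d k1]; exact k2⟩,
        G.al_al d k1⟩
  have h2 := sum_sdiff hX (f := t)
  have h3 := h.tau
  rw [val_one, val_one, h1]
  linarith

/-- a strict state with 4 tokens -/
theorem EK.e4of (h : EK G 4 t fr F jm) : E4 G t fr F jm := by
  have hk : (2 : ℝ) < 4 := by norm_num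
  have ht1 : ∀ v ∈ G.vs, t v ≤ 2 := by
    intro v hv
    have h1 := h.val_compl (singleton_subset_iff.2 hv)
    rw [h.wt.val_single hv, sum_singleton] at h1
    have h2 : (G.vs \ {v}).card = G.vs.card - 1 := by
      rw [card_sdiff_of_subset (singleton_subset_iff.2 hv), card_singleton]
    have h3 := h.even
    have h4 : 0 < G.vs.card := card_pos.2 ⟨v, hv⟩
    rw [Nat.even_iff] at h3
    by_cases h6 : (G.vs \ {v}).card = 1
    · obtain ⟨w, hw⟩ := card_eq_one.1 h6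
      have hwv : w ∈ G.vs := by
        have : w ∈ G.vs \ {v} := by rw [hw]; exact mem_singleton_self w
        exact (mem_sdiff.1 this).1
      rw [hw, h.wt.val_single hwv] at h1
      linarith
    · have h5 := h.odd (G.vs \ {v}) sdiff_subset (by
        rw [h2, Nat.odd_iff]
        omega) h6
      linarith
  refine ⟨h.even, h.fresh, h.jm2, h.deg, h.t0, ht1, h.tau,
    fun X hX ho h1 _ => h.odd X hX ho h1, fun X hX he hn hne => by
      linarith [h.evn X hX he hn hne], fun X hX he hn hne h5 => ?_, fun X hX ho => ?_, h.c6⟩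
  · exact absurd (h.evn X hX he hn hne) (not_le.2 h5)
  · have h2 := (h.toC hk).cc X hX ho
    have h3 : ∑ v ∈ X, epi jm v = (X ∩ jm).card := by
      unfold epi
      rw [← sum_filter, sum_const, smul_eq_mul, mul_one]
      congr 1
    rw [h3] at h2
    exact h2

/-- nothing outside -/
def gNo (G : MG V D) (A : Finset V) : GD V D := ⟨A, ∅, ∅, ∅, G.pi, id, G.pi⟩

theorem gNo_ok (hA : A ⊆ G.vs) : GOk G (gNo G A) where
  hA := hA
  dj := fun v hv => absurd hv (notMem_empty v)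
  hP := empty_subset _
  gaK := fun d hd => absurd hd (notMem_empty d)
  hE := fun d hd => absurd hd (notMem_empty d)
  beE := fun d hd => absurd hd (notMem_empty d)
  bb := fun d hd => absurd hd (notMem_empty d)
  peK := fun d hd => absurd hd (notMem_empty d)
  nl := fun d hd => absurd hd (notMem_empty d)

/-- lost exits -/
theorem mem_gNo {v : V} {d : D} : d ∈ gdp G (gNo G A) v ↔ d ∈ G.bd A ∧ G.pi d = v := by
  rw [mem_gdp]
  constructor
  · rintro ⟨h1, -, h3⟩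
    exact ⟨mem_bd.2 h1, h3⟩
  · rintro ⟨h1, h3⟩
    exact ⟨mem_bd.1 h1, notMem_empty d, h3⟩

/-- **pure restriction** -/
theorem EK.resK (h : EK G k t fr F jm) (hk : 2 < k) (hA : A ⊆ G.vs) (he : Even A.card)
    (hne : A ≠ G.vs) (hf : FOk G (gNo G A) fr F fr1)
    (h2 : gjm G (gNo G A) jm fr1 = ∅ ∨ (gjm G (gNo G A) jm fr1).card = 2)
    (ht : ∑ v ∈ A, t v + ((G.bd A).card : ℝ) = k') :
    EK (MG.gad G (gNo G A) (gNo_ok hA)) k' (gt G (gNo G A) one1 t fun _ => 0) fr1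
      (F.filter fun d => G.pi d ∈ fr1) (gjm G (gNo G A) jm fr1) := by
  refine h.gad hk (gNo_ok hA) hf ?_ (fun v hv => le_rfl) (fun v hv => absurd hv (notMem_empty v))
    h2 ?_ ?_ ?_
  · change Even (A.card + (∅ : Finset V).card)
    rw [card_empty, add_zero]
    exact he
  · change ∑ v ∈ A, t v + (((G.bd A).filter fun d => d ∉ (∅ : Finset D)).card : ℝ) +
      ∑ v ∈ (∅ : Finset V), (0 : ℝ) = k'
    rw [sum_empty, add_zero, filter_true_of_mem fun d _ => notMem_empty d]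
    exact ht
  · intro X hX Y hY ho h1
    have hY' : Y = ∅ := subset_empty.1 hY
    subst hY'
    rw [gvk_empty, gpw_empty]
    rw [card_empty, add_zero] at ho h1
    have h5 := h.odd X (hX.trans hA) ho h1
    linarith
  · intro X hX Y hY hev hn hne'
    have hY' : Y = ∅ := subset_empty.1 hY
    subst hY'
    rw [gvk_empty, gpw_empty]
    rw [card_empty, add_zero] at hev
    have hXn : X.Nonempty := by
      rcases hn with hn | hn
      · exact hn
      · exact absurd hn not_nonempty_empty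
    have h5 := h.evn X (hX.trans hA) hev hXn fun e => hne (subset_antisymm hA (e ▸ hX))
    linarith

/-- the star at a chosen pair of special vertices, or this pair is not linked -/
theorem exists_starN (G : MG V D) (g : GD V D) (fr : Finset V) (F : Finset D) (jm T : Finset V)
    (hT : ∀ v ∈ T, v ∈ jm ∨ (gdp G g v).Nonempty) (h2 : T = ∅ ∨ T.card = 2) :
    ∃ fr1, FOk G g fr F fr1 ∧ (gjm G g jm fr1 = ∅ ∨ (gjm G g jm fr1).card = 2) ∧
      (∀ X, G.Adm fr F X → X ⊆ g.A → (∀ v ∈ X, v ∈ T ∨ (gdp G g v = ∅ ∧ v ∉ jm)) → T.Nonempty →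
        T ⊆ X → X ⊆ fr1 ∧ gjm G g jm fr1 = T) ∧
      ∀ X, G.Adm fr F X → X ⊆ g.A → (∀ v ∈ X, gdp G g v = ∅ ∧ v ∉ jm) → X ⊆ fr1 := by
  have hgj : ∀ (T : Finset V), (∀ v ∈ T, v ∈ jm ∨ (gdp G g v).Nonempty) → ∀ fr1 : Finset V,
      (∀ v ∈ fr1, v ∈ T ∨ (gdp G g v = ∅ ∧ v ∉ jm)) → gjm G g jm fr1 = fr1 ∩ T := by
    intro T hT fr1 h
    ext v
    unfold gjm
    rw [mem_filter, mem_inter]
    constructor
    · rintro ⟨h1, h2⟩
      refine ⟨h1, ?_⟩
      rcases h v h1 with h3 | ⟨h3, h4⟩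
      · exact h3
      · rcases h2 with h5 | h5
        · exact absurd h5 h4
        · rw [h3] at h5
          exact absurd h5 not_nonempty_empty
    · rintro ⟨h1, h2⟩
      exact ⟨h1, hT v h2⟩
  by_cases hc : ∃ X, G.Adm fr F X ∧ X ⊆ g.A ∧ (∀ v ∈ X, v ∈ T ∨ (gdp G g v = ∅ ∧ v ∉ jm)) ∧
      T.Nonempty ∧ T ⊆ X
  · obtain ⟨X, h3, h4, h5, h0, h6⟩ := hc
    obtain ⟨fr1, h7, h8, h9⟩ := exists_keepT G g fr F jm T
    have h10 : gjm G g jm fr1 = T := by
      rw [hgj T hT fr1 h8]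
      exact inter_eq_right.2 (h6.trans (h9 X h3 h4 h5))
    refine ⟨fr1, h7, ?_, ?_, ?_⟩
    · rw [h10]
      exact h2
    · intro Y k1 k2 k3 _ _
      exact ⟨h9 Y k1 k2 k3, h10⟩
    · intro Y k1 k2 k3
      exact h9 Y k1 k2 fun v hv => Or.inr (k3 v hv)
  · obtain ⟨fr1, h7, h8, h9⟩ := exists_keepT G g fr F jm ∅
    have h10 : gjm G g jm fr1 = ∅ := by
      rw [hgj ∅ (fun v hv => absurd hv (notMem_empty v)) fr1 h8, inter_empty]
    refine ⟨fr1, h7, Or.inl h10, ?_, ?_⟩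
    · intro Y k1 k2 k3 k4 k5
      exact absurd ⟨Y, k1, k2, k3, k4, k5⟩ hc
    · intro Y k1 k2 k3
      exact h9 Y k1 k2 fun v hv => Or.inr (k3 v hv)

/-- F-darts do not leave `A` -/
theorem bd_nF (hF : ∀ d ∈ F, G.pi d ∈ A → G.pi (G.al d) ∈ A) {d : D} (hd : d ∈ G.bd A) : d ∉ F :=
  fun h => (mem_bd.1 hd).2.2 (hF d h (mem_bd.1 hd).2.1)

/-- the number of unused exits of a union whose unused exits are those at `T` -/
theorem EK.card_unused (h : EK G k t fr F jm)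
    (hF : ∀ d ∈ F, G.pi d ∈ A → G.pi (G.al d) ∈ A)
    (hTe : ∀ v ∈ T, v ∉ jm → ∃ d ∈ G.bd A, G.pi d = v) {M : Finset D}
    (hM0 : ∀ d ∈ G.bd A, d ∉ M) (hX : G.Adm fr F X) (hXA : X ⊆ A) (hTX : T ⊆ X)
    (hcl : ∀ d ∈ G.bd X, d ∈ M ∨ (d ∈ G.bd A ∧ G.pi d ∈ T)) :
    ((G.bd X).filter fun d => d ∉ M).card = (T \ jm).card := by
  refine card_bij (fun d _ => G.pi d) ?_ ?_ ?_
  · intro d hd
    obtain ⟨h1, h2⟩ := mem_filter.1 hd
    rcases hcl d h1 with h3 | ⟨h3, h4⟩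
    · exact absurd h3 h2
    · refine mem_sdiff.2 ⟨h4, fun h5 => bd_nF hF h3 ?_⟩
      exact h.fresh.j0 _ h5 d (mem_st.2 ⟨(mem_bd.1 h3).1, rfl⟩)
  · intro d hd d' hd' he
    obtain ⟨h1, h2⟩ := mem_filter.1 hd
    obtain ⟨h1', h2'⟩ := mem_filter.1 hd'
    rcases hcl d h1 with h3 | ⟨h3, h4⟩
    · exact absurd h3 h2
    rcases hcl d' h1' with h3' | ⟨h3', h4'⟩
    · exact absurd h3' h2'
    have h5 : G.pi d ∈ fr := hX.sub (mem_bd.1 h1).2.1
    have h6 : G.pi d ∉ jm := fun h6 => bd_nF hF h3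
      (h.fresh.j0 _ h6 d (mem_st.2 ⟨(mem_bd.1 h3).1, rfl⟩))
    obtain ⟨j, -, -, -, hun⟩ := h.fresh.exists_jd h5 h6
    exact (hun d (mem_bd.1 h3).1 rfl (bd_nF hF h3)).trans
      (hun d' (mem_bd.1 h3').1 he.symm (bd_nF hF h3')).symm
  · intro v hv
    obtain ⟨h1, h2⟩ := mem_sdiff.1 hv
    obtain ⟨d, h3, h4⟩ := hTe v h1 h2
    obtain ⟨k1, k2, k3⟩ := mem_bd.1 h3
    refine ⟨d, mem_filter.2 ⟨mem_bd.2 ⟨k1, by rw [h4]; exact hTX h1, fun k4 => k3 (hXA k4)⟩,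
      hM0 d h3⟩, h4⟩

/-- the half which a solution of the restricted state gives -/
theorem EK.resH (h : EK G k t fr F jm) (hA : A ⊆ G.vs)
    (hF : ∀ d ∈ F, G.pi d ∈ A → G.pi (G.al d) ∈ A) (hT2 : T = ∅ ∨ T.card = 2)
    (hTj : jm.Nonempty → jm ⊆ A → T = jm) (hTe : ∀ v ∈ T, v ∉ jm → ∃ d ∈ G.bd A, G.pi d = v)
    (hf : FOk G (gNo G A) fr F fr1)
    (c1 : ∀ X, G.Adm fr F X → X ⊆ A → (∀ v ∈ X, v ∈ T ∨ (gdp G (gNo G A) v = ∅ ∧ v ∉ jm)) →
      T.Nonempty → T ⊆ X → X ⊆ fr1 ∧ gjm G (gNo G A) jm fr1 = T)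
    (c2 : ∀ X, G.Adm fr F X → X ⊆ A → (∀ v ∈ X, gdp G (gNo G A) v = ∅ ∧ v ∉ jm) → X ⊆ fr1)
    {M : Finset D} (hM : (MG.gad G (gNo G A) (gNo_ok hA)).GoodS one1 fr1
      (F.filter fun d => G.pi d ∈ fr1) (gjm G (gNo G A) jm fr1) M) :
    G.GHalf one1 fr F jm A (G.resM A M) ∧ (∀ d ∈ G.bd A, d ∉ G.resM A M) ∧
      (T.Nonempty → ∀ X, G.Adm fr F X → X ⊆ A → T ⊆ X →
        (∀ d ∈ G.bd X, d ∈ G.resM A M ∨ (d ∈ G.bd A ∧ G.pi d ∈ T)) → False) := by
  have hM0 : ∀ d ∈ G.bd A, d ∉ G.resM A M := fun d hd h1 =>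
    notMem_empty d (gad_exit (gNo_ok hA) hM.pm hd (mem_resM.1 h1).1)
  have hHM : G.HM A (G.resM A M) := gad_HM (gNo_ok hA) hM.pm
  have hj2 : ∀ X : Finset V, X ⊆ A → Even (X ∩ jm).card → ∀ v ∈ X, v ∈ jm → jm ⊆ X := by
    intro X _ he v hv hvj
    have h1 : 0 < (X ∩ jm).card := card_pos.2 ⟨v, mem_inter.2 ⟨hv, hvj⟩⟩
    have h2 : (X ∩ jm).card ≤ jm.card := card_le_card inter_subset_right
    have h3 : jm.card = 2 := by
      rcases h.jm2 with h3 | h3
      · rw [h3] at hvj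
        exact absurd hvj (notMem_empty v)
      · exact h3
    rw [Nat.even_iff] at he
    exact inter_eq_right.1 (eq_of_subset_of_card_le inter_subset_right (by omega))
  refine ⟨⟨hHM, fun _ _ => one_pos, ?_⟩, hM0, ?_⟩
  · intro X hX hXA hcl
    have h1 : Even (X ∩ jm).card := by
      have h2 := hHM.unused h.fresh hX hXA
      have h3 : (G.bd X).filter (fun d => d ∉ G.resM A M) = ∅ :=
        filter_eq_empty_iff.2 fun d hd hn => hn (hcl d hd)
      rw [h3, card_empty] at h2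
      rw [Nat.even_iff]
      omega
    have h2 : ∀ v ∈ X, gdp G (gNo G A) v = ∅ := by
      intro v hv
      rw [eq_empty_iff_forall_notMem]
      intro d hd
      obtain ⟨h3, h4⟩ := mem_gNo.1 hd
      obtain ⟨k1, k2, k3⟩ := mem_bd.1 h3
      exact hM0 d h3 (hcl d (mem_bd.2 ⟨k1, by rw [h4]; exact hv, fun k4 => k3 (hXA k4)⟩))
    have hcl' : ∀ d ∈ G.bd X, d ∈ M ∨ (G.pi (G.al d) ∉ (gNo G A).A ∧ d ∉ (gNo G A).P) :=
      fun d hd => Or.inl (mem_resM.1 (hcl d hd)).1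
    by_cases h3 : ∃ v ∈ X, v ∈ jm
    · obtain ⟨v, hv, hvj⟩ := h3
      have h4 := hj2 X hXA h1 v hv hvj
      have h5 := hTj ⟨v, hvj⟩ (h4.trans hXA)
      obtain ⟨h6, h7⟩ := c1 X hX hXA (fun w hw => by
        by_cases h8 : w ∈ jm
        · exact Or.inl (h5 ▸ h8)
        · exact Or.inr ⟨h2 w hw, h8⟩) ⟨v, h5 ▸ hvj⟩ (h5 ▸ h4)
      obtain ⟨h8, h9⟩ := gad_closedT (gNo_ok hA) h.fresh hf hM hX h6 hcl'
      rw [h7] at h9
      exact absurd ⟨⟨v, h5 ▸ hvj⟩, h5 ▸ h4⟩ h9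
    · have h4 : ∀ v ∈ X, v ∉ jm := fun v hv hvj => h3 ⟨v, hv, hvj⟩
      have h6 := c2 X hX hXA fun v hv => ⟨h2 v hv, h4 v hv⟩
      obtain ⟨h8, -⟩ := gad_closedT (gNo_ok hA) h.fresh hf hM hX h6 hcl'
      refine ⟨h8, ?_⟩
      rintro ⟨⟨v, hv⟩, h9⟩
      exact h4 v (h9 hv) hv
  · intro hTn X hX hXA hTX hcl
    have h2 : ∀ v ∈ X, v ∉ T → gdp G (gNo G A) v = ∅ := by
      intro v hv hvT
      rw [eq_empty_iff_forall_notMem]
      intro d hd
      obtain ⟨h3, h4⟩ := mem_gNo.1 hd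
      obtain ⟨k1, k2, k3⟩ := mem_bd.1 h3
      rcases hcl d (mem_bd.2 ⟨k1, by rw [h4]; exact hv, fun k4 => k3 (hXA k4)⟩) with k5 | k5
      · exact hM0 d h3 k5
      · exact hvT (h4 ▸ k5.2)
    have h3 : ∀ v ∈ X, v ∉ T → v ∉ jm := by
      intro v hv hvT hvj
      have h4 := h.card_unused hF hTe hM0 hX hXA hTX hcl
      have h5 := hHM.unused h.fresh hX hXA
      have hT : T.card = 2 := by
        rcases hT2 with h6 | h6
        · rw [h6] at hTn
          exact absurd hTn not_nonempty_empty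
        · exact h6
      have hj : jm.card = 2 := by
        rcases h.jm2 with h6 | h6
        · rw [h6] at hvj
          exact absurd hvj (notMem_empty v)
        · exact h6
      have h6 := card_sdiff_add_card_inter T jm
      have h7 : (T ∩ jm).card < (X ∩ jm).card := by
        refine card_lt_card ⟨inter_subset_inter hTX (Subset.refl jm), fun h8 => hvT ?_⟩
        exact (mem_inter.1 (h8 (mem_inter.2 ⟨hv, hvj⟩))).1
      have h8 : (X ∩ jm).card ≤ jm.card := card_le_card inter_subset_right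
      have h9 : (X ∩ jm).card = 2 := by omega
      have h10 : jm ⊆ X :=
        inter_eq_right.1 (eq_of_subset_of_card_le inter_subset_right (by omega))
      have h11 := hTj ⟨v, hvj⟩ (h10.trans hXA)
      exact hvT (h11 ▸ hvj)
    obtain ⟨h6, h7⟩ := c1 X hX hXA (fun v hv => by
      by_cases h4 : v ∈ T
      · exact Or.inl h4
      · exact Or.inr ⟨h2 v hv h4, h3 v hv h4⟩) hTn hTX
    obtain ⟨-, h9⟩ := gad_closedT (gNo_ok hA) h.fresh hf hM hX h6 (fun d hd => by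
      rcases hcl d hd with h8 | h8
      · exact Or.inl (mem_resM.1 h8).1
      · exact Or.inr ⟨(mem_bd.1 h8.1).2.2, notMem_empty d⟩)
    rw [h7] at h9
    exact h9 ⟨hTn, hTX⟩

/-- **Y0**: a half without used exits, value 4, the star at a chosen pair -/
theorem X6.res0 (h : X6 G t fr F jm) (hA : A ⊆ G.vs) (he : Even A.card)
    (hlt : A.card < G.vs.card) (hF : ∀ d ∈ F, G.pi d ∈ A → G.pi (G.al d) ∈ A)
    (hv : G.val one1 t A = 4) (hT2 : T = ∅ ∨ T.card = 2)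
    (hTj : jm.Nonempty → jm ⊆ A → T = jm) (hTe : ∀ v ∈ T, v ∉ jm → ∃ d ∈ G.bd A, G.pi d = v) :
    ∃ M, G.GHalf one1 fr F jm A M ∧ (∀ d ∈ G.bd A, d ∉ M) ∧
      (T.Nonempty → ∀ X, G.Adm fr F X → X ⊆ A → T ⊆ X →
        (∀ d ∈ G.bd X, d ∈ M ∨ (d ∈ G.bd A ∧ G.pi d ∈ T)) → False) := by
  obtain ⟨fr1, f1, f2, f3, f4⟩ := exists_starN G (gNo G A) fr F jm T (fun v hv => by
    by_cases h1 : v ∈ jm
    · exact Or.inl h1
    · obtain ⟨d, h2, h3⟩ := hTe v hv h1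
      exact Or.inr ⟨d, mem_gNo.2 ⟨h2, h3⟩⟩) hT2
  have hk : ∑ v ∈ A, t v + ((G.bd A).card : ℝ) = 4 := by
    rw [val_one] at hv
    linarith
  have hE := (h.toEK.resK (by norm_num) hA he (fun e => by rw [e] at hlt; omega) f1 f2 hk)
  have hvs : (MG.gad G (gNo G A) (gNo_ok hA)).vs = A := by
    change A ∪ ∅ = A
    exact union_empty A
  have h5 : fr1.card ≤ fr.card := card_le_card f1.sub
  obtain ⟨M, hM⟩ := h.solve4 (by
    rw [hvs]
    omega) hE.e4of
  exact ⟨_, h.toEK.resH hA hF hT2 hTj hTe f1 f3 f4 hM⟩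

/-- **OUT0**: 6 tokens; a half without used exits or half of a certificate, 1 at the exits -/
theorem X6.res6 (h : X6 G t fr F jm) (hA : A ⊆ G.vs) (he : Even A.card)
    (hlt : A.card < G.vs.card) (hF : ∀ d ∈ F, G.pi d ∈ A → G.pi (G.al d) ∈ A)
    (hv : G.val one1 t A = 6) (hT2 : T = ∅ ∨ T.card = 2)
    (hTj : jm.Nonempty → jm ⊆ A → T = jm) (hTe : ∀ v ∈ T, v ∉ jm → ∃ d ∈ G.bd A, G.pi d = v) :
    (∃ M, G.GHalf one1 fr F jm A M ∧ (∀ d ∈ G.bd A, d ∉ M) ∧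
      (T.Nonempty → ∀ X, G.Adm fr F X → X ⊆ A → T ⊆ X →
        (∀ d ∈ G.bd X, d ∈ M ∨ (d ∈ G.bd A ∧ G.pi d ∈ T)) → False)) ∨
    ∃ p, G.HPot one1 t F A p ∧ ∀ d ∈ G.bd A, p (G.pi d) = 1 := by
  obtain ⟨fr1, f1, f2, f3, f4⟩ := exists_starN G (gNo G A) fr F jm T (fun v hv => by
    by_cases h1 : v ∈ jm
    · exact Or.inl h1
    · obtain ⟨d, h2, h3⟩ := hTe v hv h1
      exact Or.inr ⟨d, mem_gNo.2 ⟨h2, h3⟩⟩) hT2
  have hk : ∑ v ∈ A, t v + ((G.bd A).card : ℝ) = 6 := by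
    rw [val_one] at hv
    linarith
  have hE := (h.toEK.resK (by norm_num) hA he (fun e => by rw [e] at hlt; omega) f1 f2 hk)
  have hvs : (MG.gad G (gNo G A) (gNo_ok hA)).vs = A := by
    change A ∪ ∅ = A
    exact union_empty A
  have h5 : fr1.card ≤ fr.card := card_le_card f1.sub
  rcases h.solve (by
    rw [hvs]
    omega) hE with ⟨M, hM⟩ | ⟨p, hp⟩
  · exact Or.inl ⟨_, h.toEK.resH hA hF hT2 hTj hTe f1 f3 f4 hM⟩
  · right
    have hp' : (MG.gad G (gNo G A) (gNo_ok hA)).Pot (gz (gNo G A) one1 one1)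
        (gt G (gNo G A) one1 t fun _ => 0) (F.filter fun d => G.pi d ∈ fr1) ∅ p := by
      rw [gz_one]
      exact hp
    refine ⟨p, gad_hpot (K := F) (gNo_ok hA) h.wt (filter_subset _ _) hp'
      (fun _ _ => zero_lt_one) h.fresh.Fsub, fun d hd => ?_⟩
    exact gad_lost (gNo_ok hA) h.wt hp' hd (notMem_empty d) (by unfold one1; norm_num)

end MG

end RH
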