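import Pool.Agent.Lib.RH.CE6Even

/-! # (E), three exits

`E3 G Y f g k`: the exits of `Y`; `In2 f g k` (`Out2 f g k`): an inner (outer) half which uses exactly
`f`, `g`. `EvB.hexO`, `EvB.gfO`: outer states; `EvB.bbI`, `EvB.bp3I`: inner states. -/

set_option autoImplicit false

namespace RH

open Finset Classical

namespace MG

variable {V D : Type*} {G : MG V D} {t : V → ℝ} {fr : Finset V} {F : Finset D}
variable {jm Y X : Finset V} {f g k : D}

/-- the three exits -/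
structure E3 (G : MG V D) (Y : Finset V) (f g k : D) : Prop where
  bd : G.bd Y = {f, g, k}
  fg : f ≠ g
  fk : f ≠ k
  gk : g ≠ k

theorem E3.swap (e : E3 G Y f g k) : E3 G Y f k g where
  bd := by rw [e.bd]; ext x; simp only [mem_insert, mem_singleton]; tauto
  fg := e.fk
  fk := e.fg
  gk := e.gk.symm

theorem E3.rot (e : E3 G Y f g k) : E3 G Y g k f where
  bd := by rw [e.bd]; ext x; simp only [mem_insert, mem_singleton]; tauto
  fg := e.gk
  fk := e.fg.symm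
  gk := e.fk.symm

theorem exists_e3 (h : (G.bd Y).card = 3) : ∃ f g k, E3 G Y f g k := by
  obtain ⟨f, g, k, h1, h2, h3, h4⟩ := card_eq_three.1 h
  exact ⟨f, g, k, h4, h1, h2, h3⟩

/-- an inner half which uses exactly `f`, `g` -/
def In2 (G : MG V D) (fr : Finset V) (F : Finset D) (jm Y : Finset V) (f g k : D) : Prop :=
  ∃ M, G.GHalf one1 fr F jm Y M ∧ f ∈ M ∧ g ∈ M ∧ k ∉ M

/-- an outer half which uses exactly `f`, `g` -/
def Out2 (G : MG V D) (fr : Finset V) (F : Finset D) (jm Y : Finset V) (f g k : D) : Prop :=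
  ∃ M, G.GHalf one1 fr F jm (G.vs \ Y) M ∧ G.al f ∈ M ∧ G.al g ∈ M ∧ G.al k ∉ M

theorem In2.symm (h : In2 G fr F jm Y f g k) : In2 G fr F jm Y g f k := by
  obtain ⟨M, h1, h2, h3, h4⟩ := h
  exact ⟨M, h1, h3, h2, h4⟩

theorem Out2.symm (h : Out2 G fr F jm Y f g k) : Out2 G fr F jm Y g f k := by
  obtain ⟨M, h1, h2, h3, h4⟩ := h
  exact ⟨M, h1, h3, h2, h4⟩

namespace EvB

variable (b : EvB G t F jm Y)
include b

theorem no2 (h : X6 G t fr F jm) (e : E3 G Y f g k) (h1 : In2 G fr F jm Y f g k)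
    (h2 : Out2 G fr F jm Y f g k) : False := by
  have hE := h.toEK
  obtain ⟨M1, a1, a2, a3, a4⟩ := h1
  obtain ⟨M2, b1, b2, b3, b4⟩ := h2
  refine b.glueP h a1 b1 ?_ (Or.inr ⟨?_, ?_⟩)
  · intro d hd
    rw [e.bd, mem_insert, mem_insert, mem_singleton] at hd
    rcases hd with rfl | rfl | rfl
    · exact ⟨fun _ => b2, fun _ => a2⟩
    · exact ⟨fun _ => b3, fun _ => a3⟩
    · exact ⟨fun k => absurd k a4, fun k => absurd k b4⟩
  · rw [e.bd]
    refine (card_le_card (t := {k}) fun d hd => ?_).trans (card_singleton k).le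
    obtain ⟨k1, k2⟩ := mem_filter.1 hd
    rw [mem_insert, mem_insert, mem_singleton] at k1
    rcases k1 with rfl | rfl | rfl
    · exact absurd a2 k2
    · exact absurd a3 k2
    · exact mem_singleton_self _
  · have k1 := b.exits hE
    have k2 : (G.bd Y).card = 3 := by
      rw [e.bd]
      exact card_eq_three.2 ⟨f, g, k, e.fg, e.fk, e.gk, rfl⟩
    rw [k2] at k1
    rw [disjoint_iff_inter_eq_empty, inter_comm, ← card_eq_zero]
    omega

theorem inj3 (e : E3 G Y f g k) : (∀ i, ![f, g, k] i ∈ G.bd Y) ∧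
    Function.Injective ![f, g, k] ∧ G.bd (G.vs \ Y) = univ.image ![G.al f, G.al g, G.al k] ∧
    Function.Injective ![G.al f, G.al g, G.al k] := by
  have h1 : ∀ i, ![f, g, k] i ∈ G.bd Y := by
    intro i
    rw [e.bd]
    fin_cases i <;> simp
  have hm : ∀ i, ![f, g, k] i ∈ G.ds := fun i => (mem_bd.1 (h1 i)).1
  have hinj : Function.Injective ![f, g, k] := by
    have n1 := e.fg
    have n2 := e.fk
    have n3 := e.gk
    intro i j hij
    fin_cases i <;> fin_cases j <;> simp_all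
  have h3 : ∀ i, ![G.al f, G.al g, G.al k] i = G.al (![f, g, k] i) := by
    intro i
    fin_cases i <;> rfl
  refine ⟨h1, hinj, ?_, ?_⟩
  · ext d
    rw [bd_compl b.hY, mem_image]
    constructor
    · rintro ⟨k1, k2⟩
      rw [e.bd, mem_insert, mem_insert, mem_singleton] at k1
      have k3 := G.al_al d k2
      rcases k1 with k1 | k1 | k1
      · exact ⟨0, mem_univ _, by rw [← k3, k1]; rfl⟩
      · exact ⟨1, mem_univ _, by rw [← k3, k1]; rfl⟩
      · exact ⟨2, mem_univ _, by rw [← k3, k1]; rfl⟩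
    · rintro ⟨i, -, rfl⟩
      rw [h3]
      exact ⟨by rw [G.al_al _ (hm i)]; exact h1 i, G.al_mem _ (hm i)⟩
  · intro i j hij
    rw [h3, h3] at hij
    apply hinj
    rw [← G.al_al _ (hm i), hij, G.al_al _ (hm j)]

/-- **H6 outside** -/
theorem hexO [Infinite V] [Infinite D] (h : X6 G t fr F jm) (e : E3 G Y f g k)
    (hs : (fr ∩ (G.vs \ Y)).card < fr.card ∨ 6 < Y.card) :
    Out2 G fr F jm Y f g k ∨ Out2 G fr F jm Y g k f ∨ Out2 G fr F jm Y k f g := by
  have hE := h.toEK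
  obtain ⟨-, -, e3, e4⟩ := b.inj3 e
  obtain ⟨M2, m2, l1, l2⟩ := h.tplF (b.oblk h.fresh) Tpl.hex6_reg Tpl.hex6_tab (by norm_num)
    (by decide) rfl Tpl.hex6_noC e3 e4 (by rwa [Finset.sdiff_sdiff_eq_self b.hY])
    (fun v hv => (b.oblk h.fresh).one1 hE e3 e4 hv)
    (fun _ _ _ _ _ _ => mem_univ _) (fun _ _ _ _ _ _ => mem_univ _)
  have l3 : ∀ i, ![G.al f, G.al g, G.al k] i ∈ M2 ↔
      i ∈ univ.filter fun i => ![G.al f, G.al g, G.al k] i ∈ M2 := fun i => by
    rw [mem_filter]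
    exact ⟨fun k => ⟨mem_univ _, k⟩, fun k => k.2⟩
  have q0 : G.al f ∈ M2 ↔ _ := l3 0
  have q1 : G.al g ∈ M2 ↔ _ := l3 1
  have q2 : G.al k ∈ M2 ↔ _ := l3 2
  rcases Tpl.hex6_pat _ _ l2 with l4 | l4
  · exfalso
    refine b.glue0 h l1 fun d hd hdM => ?_
    rw [e3] at hd
    obtain ⟨i, -, rfl⟩ := mem_image.1 hd
    have l5 := (l3 i).1 hdM
    rw [l4] at l5
    exact notMem_empty i l5
  · obtain ⟨κ, hκ⟩ : ∃ κ, κ = univ.filter fun i => ![G.al f, G.al g, G.al k] i ∈ M2 := ⟨_, rfl⟩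
    rw [← hκ] at q0 q1 q2 l4
    have l5 : κ = {0, 1} ∨ κ = {1, 2} ∨ κ = {0, 2} := by
      have : ∀ κ : Finset (Fin 3), κ.card = 2 → κ = {0, 1} ∨ κ = {1, 2} ∨ κ = {0, 2} := by decide
      exact this κ l4
    rcases l5 with l5 | l5 | l5
    · left
      rw [l5] at q0 q1 q2
      exact ⟨M2, l1, q0.2 (by decide), q1.2 (by decide), fun q => absurd (q2.1 q) (by decide)⟩
    · right
      left
      rw [l5] at q0 q1 q2
      exact ⟨M2, l1, q1.2 (by decide), q2.2 (by decide), fun q => absurd (q0.1 q) (by decide)⟩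
    · right
      right
      rw [l5] at q0 q1 q2
      exact ⟨M2, l1, q2.2 (by decide), q0.2 (by decide), fun q => absurd (q1.1 q) (by decide)⟩

/-- **G_f outside**: `f` or the two others -/
theorem gfO [Infinite V] [Infinite D] (h : X6 G t fr F jm) (e : E3 G Y f g k)
    (hX : ∀ X ⊆ G.vs \ Y, Even X.card → X ≠ G.vs \ Y → G.val one1 t X = 4 →
      ¬ (G.pi (G.al g) ∈ X ∧ G.pi (G.al k) ∈ X)) :
    Out2 G fr F jm Y f g k ∨ Out2 G fr F jm Y f k g ∨
      ∃ p, G.HPot one1 t F (G.vs \ Y) p ∧ p (G.pi (G.al f)) = -1 ∧ p (G.pi (G.al g)) = 1 ∧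
        p (G.pi (G.al k)) = 1 := by
  have hE := h.toEK
  obtain ⟨-, -, e3, e4⟩ := b.inj3 e
  rcases h.tplO (b.oblk h.fresh) Tpl.gf_reg Tpl.gf_tab (by norm_num)
    (by decide) rfl e3 e4 (Or.inr (by
      rw [Finset.sdiff_sdiff_eq_self b.hY]
      have := b.big
      omega))
    (fun v hv => (b.oblk h.fresh).one1 hE e3 e4 hv)
    (fun X h1 h2 _ h3 h4 => by
      unfold Tpl.n12
      rw [mem_filter]
      refine ⟨mem_univ _, ?_⟩
      rintro ⟨k1, k2⟩
      exact hX X h1 h2 h3 h4 ⟨(mem_filter.1 k1).2, (mem_filter.1 k2).2⟩)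
    (fun _ _ _ _ _ _ => mem_univ _) with ⟨M2, m2, l1, l2⟩ | ⟨p, c, k1, k2, k3, k4⟩
  · have l3 : ∀ i, ![G.al f, G.al g, G.al k] i ∈ M2 ↔
        i ∈ univ.filter fun i => ![G.al f, G.al g, G.al k] i ∈ M2 := fun i => by
      rw [mem_filter]
      exact ⟨fun k => ⟨mem_univ _, k⟩, fun k => k.2⟩
    have q0 : G.al f ∈ M2 ↔ _ := l3 0
    have q1 : G.al g ∈ M2 ↔ _ := l3 1
    have q2 : G.al k ∈ M2 ↔ _ := l3 2
    rcases Tpl.gf_pat _ _ l2 with l4 | l4 | l4
    · exfalso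
      refine b.glue0 h l1 fun d hd hdM => ?_
      rw [e3] at hd
      obtain ⟨i, -, rfl⟩ := mem_image.1 hd
      have l5 := (l3 i).1 hdM
      rw [l4] at l5
      exact notMem_empty i l5
    · left
      rw [l4] at q0 q1 q2
      exact ⟨M2, l1, q0.2 (by decide), q1.2 (by decide), fun q => absurd (q2.1 q) (by decide)⟩
    · right
      left
      rw [l4] at q0 q1 q2
      exact ⟨M2, l1, q0.2 (by decide), q2.2 (by decide), fun q => absurd (q1.1 q) (by decide)⟩
  · right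
    right
    obtain ⟨c0, c1, c2⟩ := Tpl.gf_col c k2 k3
    have q0 := k4 0
    have q1 := k4 1
    have q2 := k4 2
    rw [c0] at q0
    rw [c1] at q1
    rw [c2] at q2
    change p (G.pi (G.al f)) + 1 = 0 at q0
    change p (G.pi (G.al g)) + -1 = 0 at q1
    change p (G.pi (G.al k)) + -1 = 0 at q2
    exact ⟨p, k1, by linarith, by linarith, by linarith⟩

/-- **two betas inside** -/
theorem bbI [Infinite V] [Infinite D] (h : X6 G t fr F jm) (e : E3 G Y f g k)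
    (hZ4 : 4 ≤ (G.vs \ Y).card) : In2 G fr F jm Y g k f ∨
      ∃ q, G.HPot one1 t F Y q ∧ q (G.pi f) = 1 ∧ q (G.pi g) = -1 ∧ q (G.pi k) = -1 := by
  have hE := h.toEK
  have hinj : Function.Injective ![g, k] := by
    have n3 := e.gk
    intro i j hij
    fin_cases i <;> fin_cases j <;> simp_all
  have hmem : ∀ i, ![g, k] i ∈ G.bd Y := by
    intro i
    rw [e.bd]
    fin_cases i <;> simp
  have hfd : Drop G Y ![g, k] f := by
    refine ⟨by rw [e.bd]; simp, fun i => ?_⟩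
    have n1 := e.fg
    have n2 := e.fk
    fin_cases i
    · exact n1.symm
    · exact n2.symm
  obtain ⟨S, hs⟩ := exists_spI G fr jm Y
  have hdr : ∀ d ∈ (∅ : Finset D), ∀ i, ![g, k] i ≠ d := fun d hd => absurd hd (notMem_empty d)
  rcases h.tplI b.iblk Tpl.bb_reg Tpl.bb_tab (by decide) rfl hmem hinj (Or.inr (by omega))
    (hs.card h.fresh h.jm2 b.nJ) (hs.drop hdr) (fun v _ => b.kap1 hE hmem hinj v)
    (fun _ _ _ _ _ _ => mem_univ _) (fun _ _ _ _ _ _ => mem_univ _) with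
    ⟨M1, m, k1, k2⟩ | ⟨q, c, k1, k3, -, k4, k5⟩
  · left
    have l3 := k1.isol h.fresh b.nJ (hs.drop hdr)
    obtain ⟨k6, -⟩ := l3.out h.fresh h.jm2 b.nJ hs fun d hd => absurd hd (notMem_empty d)
    have l3 : ∀ i, ![g, k] i ∈ M1 := fun i => by
      have k8 : i ∈ univ.filter fun i => ![g, k] i ∈ M1 := by
        rw [Tpl.bb_pat _ _ k2]
        fin_cases i <;> simp
      exact (mem_filter.1 k8).2
    refine ⟨M1, k6, l3 0, l3 1, fun hf => ?_⟩
    obtain ⟨i, hi⟩ := k1.ex f hfd.1 hf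
    exact hfd.2 i hi
  · right
    have c0 : c (Tpl.bb.pt 0) = 1 := k4 _ (by decide)
    have c1 : c (Tpl.bb.pt 1) = 1 := k4 _ (by decide)
    have q0 := k5 0
    have q1 := k5 1
    rw [c0] at q0
    rw [c1] at q1
    change q (G.pi g) + 1 = 0 at q0
    change q (G.pi k) + 1 = 0 at q1
    exact ⟨q, k1, k3 f hfd, by linarith, by linarith⟩

/-- **beta and a path inside** -/
theorem bp3I [Infinite V] [Infinite D] (h : X6 G t fr F jm) (e : E3 G Y f g k)
    (hs4 : (fr ∩ Y).card < fr.card ∨ 4 < (G.vs \ Y).card) :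
    In2 G fr F jm Y f g k ∨ In2 G fr F jm Y f k g := by
  have hE := h.toEK
  obtain ⟨hmem, hinj, -, -⟩ := b.inj3 e
  obtain ⟨S, hs⟩ := exists_spI G fr jm Y
  have hdr : ∀ d ∈ (∅ : Finset D), ∀ i, ![f, g, k] i ≠ d := fun d hd => absurd hd (notMem_empty d)
  rcases h.tplI b.iblk Tpl.bp3_reg Tpl.bp3_tab (by decide) rfl hmem hinj hs4
    (hs.card h.fresh h.jm2 b.nJ) (hs.drop hdr) (fun v _ => b.kap1 hE hmem hinj v)
    (fun _ _ _ _ _ _ => mem_univ _) (fun _ _ _ _ _ _ => mem_univ _) with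
    ⟨M1, m, k1, k2⟩ | ⟨q, c, k1, -, k3, k4, k5⟩
  · have l3 := k1.isol h.fresh b.nJ (hs.drop hdr)
    obtain ⟨k6, -⟩ := l3.out h.fresh h.jm2 b.nJ hs fun d hd => absurd hd (notMem_empty d)
    have l3 : ∀ i, ![f, g, k] i ∈ M1 ↔ i ∈ univ.filter fun i => ![f, g, k] i ∈ M1 := fun i => by
      rw [mem_filter]
      exact ⟨fun k => ⟨mem_univ _, k⟩, fun k => k.2⟩
    have q0 : f ∈ M1 ↔ _ := l3 0
    have q1 : g ∈ M1 ↔ _ := l3 1
    have q2 : k ∈ M1 ↔ _ := l3 2
    rcases Tpl.bp3_pat _ _ k2 with l4 | l4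
    · left
      rw [l4] at q0 q1 q2
      exact ⟨M1, k6, q0.2 (by decide), q1.2 (by decide), fun q => absurd (q2.1 q) (by decide)⟩
    · right
      rw [l4] at q0 q1 q2
      exact ⟨M1, k6, q0.2 (by decide), q2.2 (by decide), fun q => absurd (q1.1 q) (by decide)⟩
  · exact (Tpl.bp3_noC c k3 k4).elim

end EvB

end MG

end RH
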