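import Pool.Agent.Lib.RH.GPen

/-! # The 4-circuit gadget

`Tpl.cf4`: a 4-circuit with one token and three ports; port 0 opposite to nothing: the patterns are
empty, `{0, 1}`, `{0, 2}`. Always strict. -/

set_option autoImplicit false

namespace RH

open Finset Classical

namespace Tpl

/-- the 4-circuit `0 2 1 3`, token at 2, ports at 3, 0, 1 -/
def cf4 : Tpl 4 4 3 where
  a := ![0, 2, 1, 3]
  b := ![2, 1, 3, 0]
  pt := ![3, 0, 1]
  tk := ![0, 0, 1, 0]

theorem cf4_reg : cf4.Reg := by decide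

theorem cf4_tab : cf4.Tab 0 8 (one1S 3) (oE univ) (oO 0 univ) where
  t0 := by decide +kernel
  t1 := by decide +kernel
  t2 := by decide +kernel
  t3 := by decide +kernel
  t4 := by decide +kernel

theorem cf4_pat : ∀ m κ, cf4.IsPat m κ → κ = ∅ ∨ κ = {0, 1} ∨ κ = {0, 2} := by decide +kernel

/-- the colouring of `cf4` -/
theorem cf4_col (c : Fin 4 → ℝ) (h : ∀ i, c (cf4.a i) + c (cf4.b i) = 0)
    (h1 : ∀ v, cf4.tk v ≠ 0 → c v = 1) :
    c (cf4.pt 0) = 1 ∧ c (cf4.pt 1) = -1 ∧ c (cf4.pt 2) = -1 := by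
  have a0 : c 0 + c 2 = 0 := h 0
  have a1 : c 2 + c 1 = 0 := h 1
  have a2 : c 1 + c 3 = 0 := h 2
  have a5 : c 2 = 1 := h1 2 (by decide)
  have e0 : c (cf4.pt 0) = c 3 := rfl
  have e1 : c (cf4.pt 1) = c 0 := rfl
  have e2 : c (cf4.pt 2) = c 1 := rfl
  rw [e0, e1, e2]
  refine ⟨?_, ?_, ?_⟩ <;> linarith

end Tpl

end RH
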