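import Pool.Agent.Lib.RH.CE6EvenB
import Pool.Agent.Lib.RH.TplC

/-! # (E), maximality

`EvB.max_gf`: for an inclusion-maximal `Y` with three exits the state `G_f` is strict, or the outer end
of `f` is a vertex with two tokens. `EvB.gfO4`: the same instance with a 4-circuit, always strict.
`EvB.n3a`: three exits. -/

set_option autoImplicit false

namespace RH

open Finset Classical

namespace MG

variable {V D : Type*} {G : MG V D} {t : V → ℝ} {fr : Finset V} {F : Finset D}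
variable {jm Y X : Finset V} {f g k : D}

namespace EvB

variable (b : EvB G t F jm Y)
include b

/-- the value of `Y ∪ X` for an outer even set of value 4 -/
theorem val_un (h : EK G 6 t fr F jm) (hX : X ⊆ G.vs \ Y) (hv : G.val one1 t X = 4) :
    G.val one1 t (X ∪ Y) = 8 - 2 * qx G (G.vs \ Y) X := by
  have h1 := h.join (A := G.vs \ Y) sdiff_subset hX
  rw [Finset.sdiff_sdiff_eq_self b.hY, hv, b.val] at h1
  linarith

/-- exits of `Y` with outer ends in `X` -/
theorem qx_eq (e : E3 G Y f g k) : (qx G (G.vs \ Y) X : ℝ) =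
    (if G.pi (G.al f) ∈ X then 1 else 0) + (if G.pi (G.al g) ∈ X then 1 else 0) +
      (if G.pi (G.al k) ∈ X then 1 else 0) := by
  obtain ⟨-, -, e3, e4⟩ := b.inj3 e
  have h1 : qx G (G.vs \ Y) X = (TOk.kap G ![G.al f, G.al g, G.al k] X).card := kap_qx e3 e4 X
  have h2 : ((TOk.kap G ![G.al f, G.al g, G.al k] X).card : ℝ) =
      ∑ i : Fin 3, if G.pi (![G.al f, G.al g, G.al k] i) ∈ X then (1 : ℝ) else 0 := by
    unfold TOk.kap
    rw [sum_ite, sum_const_zero, add_zero, sum_const, nsmul_eq_mul, mul_one]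
  rw [h1, h2, Fin.sum_univ_three]
  rfl

/-- **`G_f` is strict for a maximal `Y`**, or the outer end of `f` has two tokens and only the exit
`f` -/
theorem max_gf (h : X6 G t fr F jm) (e : E3 G Y f g k)
    (hmax : ∀ Y', Y ⊆ Y' → EvB G t F jm Y' → 4 ≤ (G.vs \ Y').card → Y' = Y)
    (hE5 : ∀ Y', Y ⊆ Y' → Y' ⊆ G.vs → Even Y'.card → 4 ≤ (G.vs \ Y').card →
      G.val one1 t Y' = 4 → (∃ d ∈ G.bd Y', d ∉ F) → ∀ d ∈ F, G.pi d ∈ Y' → G.pi (G.al d) ∈ Y') :
    (∀ X ⊆ G.vs \ Y, Even X.card → X ≠ G.vs \ Y → G.val one1 t X = 4 →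
      ¬ (G.pi (G.al g) ∈ X ∧ G.pi (G.al k) ∈ X)) ∨
    (t (G.pi (G.al f)) = 2 ∧ ∀ d ∈ G.ds, G.pi d = G.pi (G.al f) → d = G.al f) := by
  have hE := h.toEK
  by_cases hc : ∀ X ⊆ G.vs \ Y, Even X.card → X ≠ G.vs \ Y → G.val one1 t X = 4 →
      ¬ (G.pi (G.al g) ∈ X ∧ G.pi (G.al k) ∈ X)
  · exact Or.inl hc
  right
  push Not at hc
  obtain ⟨X, hX, hXe, hXne, hXv, hgX, hkX⟩ := hc
  have hfY : f ∈ G.bd Y := by rw [e.bd]; simp
  have hgY : g ∈ G.bd Y := by rw [e.bd]; simp
  obtain ⟨f1, f2, f3⟩ := mem_bd.1 hfY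
  have hdj : Disjoint X Y := disjoint_left.2 fun v hv hv' => (mem_sdiff.1 (hX hv)).2 hv'
  have hYY : Y ⊆ X ∪ Y := subset_union_right
  have hYv : X ∪ Y ⊆ G.vs := union_subset (hX.trans sdiff_subset) b.hY
  have hR : G.vs \ (X ∪ Y) = (G.vs \ Y) \ X := by
    ext v
    simp only [mem_sdiff, mem_union]
    tauto
  have hRc : (G.vs \ (X ∪ Y)).card + X.card = (G.vs \ Y).card := by
    rw [hR]
    exact card_sdiff_add_card_eq_card hX
  have hRn : (G.vs \ (X ∪ Y)).Nonempty := by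
    rw [nonempty_iff_ne_empty, hR, Ne, sdiff_eq_empty_iff_subset]
    exact fun k => hXne (subset_antisymm hX k)
  have hZe : (G.vs \ Y).card % 2 = 0 := by
    have h1 := card_sdiff_add_card_eq_card b.hY
    have h2 := Nat.even_iff.1 h.even
    have h3 := Nat.even_iff.1 b.ev
    omega
  have hRe : (G.vs \ (X ∪ Y)).card % 2 = 0 := by
    have h1 := Nat.even_iff.1 hXe
    omega
  have hR2 : 2 ≤ (G.vs \ (X ∪ Y)).card := by
    have := card_pos.2 hRn
    omega
  have hev : Even (X ∪ Y).card := by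
    rw [card_union_of_disjoint hdj]
    exact hXe.add b.ev
  have hq := b.val_un hE hX hXv
  rw [b.qx_eq e, if_pos hgX, if_pos hkX] at hq
  have hfX : G.pi (G.al f) ∉ X := by
    intro k1
    rw [if_pos k1] at hq
    have h1 := hE.evn (X ∪ Y) hYv hev ⟨_, mem_union_left _ hgX⟩ (fun e => by
      rw [e, sdiff_self] at hRn
      exact not_nonempty_empty hRn)
    rw [hq] at h1
    norm_num at h1
  rw [if_neg hfX] at hq
  have hv4 : G.val one1 t (X ∪ Y) = 4 := by
    rw [hq]
    norm_num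
  have hfR : G.pi (G.al f) ∈ G.vs \ (X ∪ Y) := by
    refine mem_sdiff.2 ⟨G.pi_mem _ (G.al_mem _ f1), fun k1 => ?_⟩
    rcases mem_union.1 k1 with k1 | k1
    · exact hfX k1
    · exact f3 k1
  have hfbd : f ∈ G.bd (X ∪ Y) :=
    mem_bd.2 ⟨f1, mem_union_right _ f2, (mem_sdiff.1 hfR).2⟩
  have hreal : ∃ y ∈ X ∪ Y, t y ≠ 0 ∧ y ∉ jm := by
    obtain ⟨y, hy, h1⟩ := b.real
    exact ⟨y, mem_union_right _ hy, h1⟩
  have hbig : 4 ≤ (X ∪ Y).card := b.big.trans (card_le_card hYY)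
  by_cases h4 : 4 ≤ (G.vs \ (X ∪ Y)).card
  · exfalso
    have h5 : EvB G t F jm (X ∪ Y) := ⟨hYv, hev, hbig, hR2, hv4, 
      hE5 _ hYY hYv hev h4 hv4 ⟨f, hfbd, b.nJ f hfY⟩, hreal⟩
    have h6 := hmax _ hYY h5 h4
    have h7 : G.pi (G.al g) ∈ Y := by
      rw [← h6]
      exact mem_union_left _ hgX
    exact (mem_bd.1 hgY).2.2 h7
  · have hc2 : (G.vs \ (X ∪ Y)).card = 2 := by omega
    -- the number of exits
    have hvc := hE.val_compl hYv
    have hvt : ∑ v ∈ X ∪ Y, t v = 4 - ((G.bd (X ∪ Y)).card : ℝ) := by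
      rw [val_one] at hv4
      linarith
    rw [hv4, hvt] at hvc
    have hve := hE.val_eq (X := G.vs \ (X ∪ Y)) sdiff_subset
    rw [hc2, hvc] at hve
    have hn1 : (G.bd (X ∪ Y)).card ≠ 1 := by
      intro k1
      obtain ⟨x, hx⟩ := card_eq_one.1 k1
      have k2 : x = f := by
        rw [hx] at hfbd
        exact (mem_singleton.1 hfbd).symm
      have h5 : EvB G t F jm (X ∪ Y) := by
        refine ⟨hYv, hev, hbig, hR2, hv4, fun d hd hdY => ?_, hreal⟩
        by_contra hcon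
        have k3 : d ∈ G.bd (X ∪ Y) := mem_bd.2 ⟨h.fresh.Fsub hd, hdY, hcon⟩
        rw [hx, mem_singleton, k2] at k3
        rw [k3] at hd
        exact b.nJ f hfY hd
      exact h5.n1 h k1
    have hn0 : 0 < (G.bd (X ∪ Y)).card := card_pos.2 ⟨f, hfbd⟩
    have hn2 : (G.bd (X ∪ Y)).card = 2 ∧ (G.ed (G.vs \ (X ∪ Y)) (G.vs \ (X ∪ Y))).card = 0 := by
      have k1 : (2 : ℝ) + 2 * (G.bd (X ∪ Y)).card + (G.ed (G.vs \ (X ∪ Y))
          (G.vs \ (X ∪ Y))).card = 6 := by
        push_cast at hve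
        linarith
      have k2 : 2 + 2 * (G.bd (X ∪ Y)).card + (G.ed (G.vs \ (X ∪ Y))
          (G.vs \ (X ∪ Y))).card = 6 := by exact_mod_cast k1
      omega
    obtain ⟨hb2, he0⟩ := hn2
    rw [card_eq_zero] at he0
    -- the other vertex
    obtain ⟨r, hr⟩ : ∃ r, G.vs \ (X ∪ Y) = {G.pi (G.al f), r} ∧ G.pi (G.al f) ≠ r := by
      obtain ⟨x, y, h1, h2⟩ := card_eq_two.1 hc2
      rw [h2, mem_insert, mem_singleton] at hfR
      rcases hfR with h3 | h3
      · exact ⟨y, by rw [h2, h3], by rw [h3]; exact h1⟩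
      · exact ⟨x, by rw [h2, h3, pair_comm], by rw [h3]; exact h1.symm⟩
    obtain ⟨hr, hrf⟩ := hr
    have hrR : r ∈ G.vs \ (X ∪ Y) := by
      rw [hr]
      simp
    have hrv := (mem_sdiff.1 hrR).1
    have hofv := (mem_sdiff.1 hfR).1
    -- tokens at most 2
    have ht2 : ∀ v ∈ G.vs, t v ≤ 2 := by
      intro v hv
      have k1 := hE.val_compl (singleton_subset_iff.2 hv)
      rw [hE.wt.val_single hv, sum_singleton] at k1
      have k2 : (G.vs \ {v}).card + 1 = G.vs.card := by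
        have := card_sdiff_add_card_eq_card (singleton_subset_iff.2 hv)
        rwa [card_singleton] at this
      have k3 : 4 ≤ G.vs.card := hbig.trans (card_le_card hYv)
      have k4 := Nat.even_iff.1 h.even
      have k5 := hE.odd (G.vs \ {v}) sdiff_subset (by
        rw [Nat.odd_iff]
        omega) (by omega)
      linarith
    have hdeg : ∀ v ∈ G.vs, 1 ≤ (G.st v).card := by
      intro v hv
      have k1 := hE.deg v hv
      have k2 := ht2 v hv
      have k3 : (1 : ℝ) ≤ (G.st v).card := by linarith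
      exact_mod_cast k3
    have hstb : ∀ v ∈ G.vs \ (X ∪ Y), ∀ d ∈ G.st v, G.al d ∈ G.bd (X ∪ Y) := by
      intro v hv d hd
      obtain ⟨k1, k2⟩ := mem_st.1 hd
      have k3 : G.pi (G.al d) ∉ G.vs \ (X ∪ Y) := by
        intro k3
        have k4 : d ∈ G.ed (G.vs \ (X ∪ Y)) (G.vs \ (X ∪ Y)) :=
          mem_ed.2 ⟨k1, by rw [k2]; exact hv, k3⟩
        rw [he0] at k4
        exact notMem_empty d k4
      refine mem_bd.2 ⟨G.al_mem d k1, ?_, ?_⟩
      · by_contra k4
        exact k3 (mem_sdiff.2 ⟨G.pi_mem _ (G.al_mem d k1), k4⟩)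
      · rw [G.al_al d k1, k2]
        exact (mem_sdiff.1 hv).2
    have hsum : (G.st (G.pi (G.al f))).card + (G.st r).card ≤ 2 := by
      rw [← hb2]
      have k1 : ((G.st (G.pi (G.al f))).image G.al ∪ (G.st r).image G.al) ⊆ G.bd (X ∪ Y) := by
        intro d hd
        rcases mem_union.1 hd with hd | hd
        · obtain ⟨d', h1, rfl⟩ := mem_image.1 hd
          exact hstb _ hfR d' h1
        · obtain ⟨d', h1, rfl⟩ := mem_image.1 hd
          exact hstb _ hrR d' h1
      have k2 : ∀ v : V, ((G.st v).image G.al).card = (G.st v).card := fun v =>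
        card_image_of_injOn fun d hd d' hd' k => by
          have k' : G.al d = G.al d' := k
          rw [← G.al_al d (mem_st.1 (mem_coe.1 hd)).1, k', G.al_al d' (mem_st.1 (mem_coe.1 hd')).1]
      rw [← k2, ← k2 r, ← card_union_of_disjoint]
      · exact card_le_card k1
      · rw [disjoint_left]
        intro d hd hd'
        obtain ⟨d1, h1, h2⟩ := mem_image.1 hd
        obtain ⟨d2, h3, h4⟩ := mem_image.1 hd'
        obtain ⟨h5, h6⟩ := mem_st.1 h1
        obtain ⟨h7, h8⟩ := mem_st.1 h3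
        have h9 : d1 = d2 := by rw [← G.al_al d1 h5, h2, ← h4, G.al_al d2 h7]
        exact hrf (by rw [← h6, ← h8, h9])
    have k1 := hdeg _ hofv
    have k2 := hdeg _ hrv
    have k3 : (G.st (G.pi (G.al f))).card = 1 := by omega
    constructor
    · have k4 := hE.deg _ hofv
      rw [k3] at k4
      push_cast at k4
      linarith
    · intro d hd hdf
      obtain ⟨x, hx⟩ := card_eq_one.1 k3
      have m1 : d ∈ G.st (G.pi (G.al f)) := mem_st.2 ⟨hd, hdf⟩
      have m2 : G.al f ∈ G.st (G.pi (G.al f)) := mem_st.2 ⟨G.al_mem _ f1, rfl⟩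
      rw [hx, mem_singleton] at m1 m2
      rw [m1, m2]

/-- **the 4-circuit outside**: `f` and one of the others -/
theorem gfO4 [Infinite V] [Infinite D] (h : X6 G t fr F jm) (e : E3 G Y f g k)
    (hs : (fr ∩ (G.vs \ Y)).card < fr.card ∨ 4 < Y.card) :
    Out2 G fr F jm Y f g k ∨ Out2 G fr F jm Y f k g ∨
      ∃ p, G.HPot one1 t F (G.vs \ Y) p ∧ p (G.pi (G.al f)) = -1 ∧ p (G.pi (G.al g)) = 1 ∧
        p (G.pi (G.al k)) = 1 := by
  have hE := h.toEK
  obtain ⟨-, -, e3, e4⟩ := b.inj3 e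
  have hs' : (fr ∩ (G.vs \ Y)).card < fr.card ∨ 4 < (G.vs \ (G.vs \ Y)).card := by
    rwa [Finset.sdiff_sdiff_eq_self b.hY]
  rcases h.tplO (b.oblk h.fresh) Tpl.cf4_reg Tpl.cf4_tab (by norm_num)
    (by decide) rfl e3 e4 hs'
    (fun v hv => (b.oblk h.fresh).one1 hE e3 e4 hv) (fun _ _ _ _ _ _ => mem_univ _)
    (fun _ _ _ _ _ _ => mem_univ _) with ⟨M2, m2, l1, l2⟩ | ⟨p, c, k1, k2, k3, k4⟩
  · have l3 : ∀ i, ![G.al f, G.al g, G.al k] i ∈ M2 ↔
        i ∈ univ.filter fun i => ![G.al f, G.al g, G.al k] i ∈ M2 := fun i => by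
      rw [mem_filter]
      exact ⟨fun k => ⟨mem_univ _, k⟩, fun k => k.2⟩
    have q0 : G.al f ∈ M2 ↔ _ := l3 0
    have q1 : G.al g ∈ M2 ↔ _ := l3 1
    have q2 : G.al k ∈ M2 ↔ _ := l3 2
    rcases Tpl.cf4_pat _ _ l2 with l4 | l4 | l4
    · exfalso
      refine b.glue0 h l1 fun d hd hdM => ?_
      rw [e3] at hd
      obtain ⟨i, -, rfl⟩ := mem_image.1 hd
      have l5 := (l3 i).1 hdM
      rw [l4] at l5
      exact notMem_empty i l5
    · left
      rw [l4] at q0 q1 q2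
      exact ⟨M2, l1, q0.2 (by decide), q1.2 (by decide), fun q => absurd (q2.1 q) (by decide)⟩
    · right
      left
      rw [l4] at q0 q1 q2
      exact ⟨M2, l1, q0.2 (by decide), q2.2 (by decide), fun q => absurd (q1.1 q) (by decide)⟩
  · right
    right
    obtain ⟨c0, c1, c2⟩ := Tpl.cf4_col c k2 k3
    have q0 := k4 0
    have q1 := k4 1
    have q2 := k4 2
    rw [c0] at q0
    rw [c1] at q1
    rw [c2] at q2
    change p (G.pi (G.al f)) + 1 = 0 at q0
    change p (G.pi (G.al g)) + -1 = 0 at q1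
    change p (G.pi (G.al k)) + -1 = 0 at q2
    exact ⟨p, k1, by linarith, by linarith, by linarith⟩

/-- **three exits, `Y` large or with a fresh vertex**, the other side not a small set outside the
circuits -/
theorem n3a [Infinite V] [Infinite D] (h : X6 G t fr F jm) (hZ4 : 4 ≤ (G.vs \ Y).card)
    (hG : ∀ f g k, E3 G Y f g k → Out2 G fr F jm Y f g k ∨ Out2 G fr F jm Y f k g ∨
      ∃ p, G.HPot one1 t F (G.vs \ Y) p ∧ p (G.pi (G.al f)) = -1 ∧ p (G.pi (G.al g)) = 1 ∧
        p (G.pi (G.al k)) = 1)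
    (hs : (fr ∩ (G.vs \ Y)).card < fr.card ∨ 6 < Y.card)
    (hbp : ∀ f g k, E3 G Y f g k → Out2 G fr F jm Y f g k → Out2 G fr F jm Y f k g →
      In2 G fr F jm Y f g k ∨ In2 G fr F jm Y f k g) :
    (G.bd Y).card ≠ 3 := by
  intro h3
  obtain ⟨f0, g0, k0, e0⟩ := exists_e3 h3
  have key : ∀ f g k, E3 G Y f g k → Out2 G fr F jm Y g k f → False := by
    intro f g k e hO
    have hI : ¬ In2 G fr F jm Y g k f := fun hI => b.no2 h e.rot hI hO
    rcases b.bbI h e hZ4 with h1 | ⟨q, q1, q2, q3, q4⟩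
    · exact hI h1
    have hfin : Out2 G fr F jm Y f g k ∨ Out2 G fr F jm Y f k g := by
      rcases hG f g k e with h1 | h1 | ⟨p, p1, p2, p3, p4⟩
      · exact Or.inl h1
      · exact Or.inr h1
      · exfalso
        refine h.nc ⟨_, HPot.join q1 p1 (fun _ _ => rfl) h.fresh.Fsub h.fresh.Fal ?_
          fun d hd hF => absurd hF (b.nJ d hd)⟩
        intro d hd _ _
        rw [e.bd, mem_insert, mem_insert, mem_singleton] at hd
        rcases hd with rfl | rfl | rfl
        · rw [q2, p2]; norm_num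
        · rw [q3, p3]; norm_num
        · rw [q4, p4]; norm_num
    rcases hfin with h1 | h1
    · -- f g and g k outside: beta at g
      have e' : E3 G Y g f k := e.rot.swap
      rcases hbp g f k e' h1.symm hO with h2 | h2
      · exact b.no2 h e' h2 h1.symm
      · exact hI h2
    · -- f k and g k outside: beta at k
      have e' : E3 G Y k f g := e.rot.rot
      rcases hbp k f g e' h1.symm hO.symm with h2 | h2
      · exact b.no2 h e' h2 h1.symm
      · exact hI h2.symm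
  rcases b.hexO h e0 hs with h1 | h1 | h1
  · exact key k0 f0 g0 e0.rot.rot h1
  · exact key f0 g0 k0 e0 h1
  · exact key g0 k0 f0 e0.rot h1

end EvB

end MG

end RH
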