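import Pool.Agent.Lib.RH.CE6EvenC
import Pool.Agent.Lib.RH.CE6Beta

/-! # (E), sets without fresh vertices, and the result

`EvB.four`: an even 4-set of 4 vertices with three exits: one pair of exits does not occur.
`EvB.six`: the same for a set without fresh vertices with a colouring 1, -1. `EvB.n3p`: three exits, no
fresh vertex. -/

set_option autoImplicit false

namespace RH

open Finset Classical

namespace MG

variable {V D : Type*} {G : MG V D} {t : V → ℝ} {fr : Finset V} {F : Finset D}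
variable {jm Y X : Finset V} {f g k : D}

/-- sum of a colouring over a side without fresh darts -/
theorem HM.sum_col {M : Finset D} {p : V → ℝ} (hM : G.HM Y M) (hp : G.HPot one1 t F Y p)
    (hF : ∀ d ∈ F, G.pi d ∉ Y) :
    ∑ v ∈ Y, p v = ∑ d ∈ (G.bd Y).filter (fun d => d ∈ M), p (G.pi d) := by
  have h1 : ∑ v ∈ Y, p v = ∑ d ∈ M, p (G.pi d) := by
    rw [← sum_fiberwise_of_maps_to (s := M) (t := Y) (g := G.pi) fun d hd => (hM.sub d hd).2]
    refine sum_congr rfl fun v hv => ?_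
    obtain ⟨x, hx⟩ := card_eq_one.1 (hM.one v hv)
    have h2 : M.filter (fun d => G.pi d = v) = {x} := hx
    rw [h2, sum_singleton]
    have h3 : x ∈ M.filter fun d => G.pi d = v := by
      rw [h2]
      exact mem_singleton_self x
    rw [(mem_filter.1 h3).2]
  have h2 := sum_filter_add_sum_filter_not M (fun d => G.pi (G.al d) ∈ Y) fun d => p (G.pi d)
  have h3 : M.filter (fun d => G.pi (G.al d) ∉ Y) = (G.bd Y).filter fun d => d ∈ M := by
    ext d
    rw [mem_filter, mem_filter, mem_bd]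
    constructor
    · rintro ⟨k1, k2⟩
      exact ⟨⟨(hM.sub d k1).1, (hM.sub d k1).2, k2⟩, k1⟩
    · rintro ⟨⟨-, -, k2⟩, k1⟩
      exact ⟨k1, k2⟩
  have h4 : ∑ d ∈ M.filter (fun d => G.pi (G.al d) ∈ Y), p (G.pi d) = 0 := by
    have h5 : ∑ d ∈ M.filter (fun d => G.pi (G.al d) ∈ Y), p (G.pi d) =
        ∑ d ∈ M.filter (fun d => G.pi (G.al d) ∈ Y), p (G.pi (G.al d)) := by
      refine sum_bij' (fun d _ => G.al d) (fun d _ => G.al d) ?_ ?_ ?_ ?_ ?_
      · intro d hd
        obtain ⟨k1, k2⟩ := mem_filter.1 hd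
        have k3 := hM.sub d k1
        exact mem_filter.2 ⟨hM.clo d k1 k2, by rw [G.al_al d k3.1]; exact k3.2⟩
      · intro d hd
        obtain ⟨k1, k2⟩ := mem_filter.1 hd
        have k3 := hM.sub d k1
        exact mem_filter.2 ⟨hM.clo d k1 k2, by rw [G.al_al d k3.1]; exact k3.2⟩
      · intro d hd
        exact G.al_al d (hM.sub d (mem_filter.1 hd).1).1
      · intro d hd
        exact G.al_al d (hM.sub d (mem_filter.1 hd).1).1
      · intro d hd
        rw [G.al_al d (hM.sub d (mem_filter.1 hd).1).1]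
    have h6 : ∑ d ∈ M.filter (fun d => G.pi (G.al d) ∈ Y), (p (G.pi d) + p (G.pi (G.al d))) = 0 := by
      refine sum_eq_zero fun d hd => ?_
      obtain ⟨k1, k2⟩ := mem_filter.1 hd
      obtain ⟨k3, k4⟩ := hM.sub d k1
      exact hp.jq d k3 k4 k2 one_pos fun k5 => hF d k5 k4
    rw [sum_add_distrib] at h6
    linarith
  rw [h1, ← h2, h3, h4, zero_add]

namespace EvB

variable (b : EvB G t F jm Y)
include b

/-- vertices with exits have no token -/
theorem tok0 (h : EK G 6 t fr F jm) {d : D} (hd : d ∈ G.bd Y) : t (G.pi d) = 0 := by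
  obtain ⟨k1, k2, k3⟩ := mem_bd.1 hd
  obtain ⟨n, hn, -⟩ := h.tnat (b.hY k2)
  have h1 := h.wt.val_erase b.hY k2
  have h2 : (Y.erase (G.pi d)).card = Y.card - 1 := card_erase_of_mem k2
  have h3 := b.ev
  have h4 := b.big
  have h5 := h.odd (Y.erase (G.pi d)) ((erase_subset _ _).trans b.hY) (by
    rw [Nat.even_iff] at h3
    rw [h2, Nat.odd_iff]
    omega) (by omega)
  have h7 : ((1 : ℕ) : ℝ) ≤ ∑ d ∈ G.ed {G.pi d} (G.vs \ Y), one1 d := by
    unfold one1
    rw [sum_const, nsmul_eq_mul, mul_one]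
    have h8 : 0 < (G.ed {G.pi d} (G.vs \ Y)).card := card_pos.2 ⟨d, mem_ed.2
      ⟨k1, mem_singleton_self _, mem_sdiff.2 ⟨G.pi_mem _ (G.al_mem _ k1), k3⟩⟩⟩
    exact_mod_cast h8
  have h10 := b.val
  push_cast at h7
  rw [hn] at h1 ⊢
  have h11 : (n : ℝ) < 1 := by linarith
  have h12 : n < 1 := by exact_mod_cast h11
  have h13 : n = 0 := by omega
  rw [h13]
  norm_num

/-- **four vertices**: one of the pairs does not occur inside -/
theorem four (h : X6 G t fr F jm) (e : E3 G Y f g k) (h4 : Y.card = 4) :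
    ¬ (In2 G fr F jm Y g k f ∧ In2 G fr F jm Y f k g ∧ In2 G fr F jm Y f g k) := by
  rintro ⟨i1, i2, i3⟩
  have hE := h.toEK
  obtain ⟨y, hy, hty, -⟩ := b.real
  have hf : f ∈ G.bd Y := by rw [e.bd]; simp
  have hg : g ∈ G.bd Y := by rw [e.bd]; simp
  have hk : k ∈ G.bd Y := by rw [e.bd]; simp
  have hyn : ∀ d ∈ G.bd Y, G.pi d ≠ y := fun d hd hdy => hty (by rw [← hdy]; exact b.tok0 hE hd)
  have hfg : G.pi f ≠ G.pi g := fun q => e.fg (b.inj hE f hf g hg q)
  have hfk : G.pi f ≠ G.pi k := fun q => e.fk (b.inj hE f hf k hk q)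
  have hgk : G.pi g ≠ G.pi k := fun q => e.gk (b.inj hE g hg k hk q)
  have hYe : Y = {y, G.pi f, G.pi g, G.pi k} := by
    symm
    refine eq_of_subset_of_card_le ?_ ?_
    · intro v hv
      simp only [mem_insert, mem_singleton] at hv
      rcases hv with rfl | rfl | rfl | rfl
      · exact hy
      · exact (mem_bd.1 hf).2.1
      · exact (mem_bd.1 hg).2.1
      · exact (mem_bd.1 hk).2.1
    · rw [h4, card_insert_of_notMem (by
        simp only [mem_insert, mem_singleton, not_or]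
        exact ⟨(hyn f hf).symm, (hyn g hg).symm, (hyn k hk).symm⟩),
        card_insert_of_notMem (by
        simp only [mem_insert, mem_singleton, not_or]
        exact ⟨hfg, hfk⟩), card_pair hgk]
  -- the neighbour of y
  have key : ∀ f' g' k' : D, f' ∈ G.bd Y → g' ∈ G.bd Y → k' ∈ G.bd Y →
      Y = {y, G.pi f', G.pi g', G.pi k'} → In2 G fr F jm Y g' k' f' →
      ∃ d ∈ G.st y, G.pi (G.al d) = G.pi f' := by
    intro f' g' k' hf' hg' hk' hY' hI
    obtain ⟨M, m1, m2, m3, m4⟩ := hI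
    obtain ⟨x, hx⟩ := card_eq_one.1 (m1.hm.one y hy)
    have hx' : x ∈ M.filter fun d => G.pi d = y := by
      rw [hx]
      exact mem_singleton_self x
    obtain ⟨x1, x2⟩ := mem_filter.1 hx'
    have x3 := (m1.hm.sub x x1).1
    have x4 : G.pi (G.al x) ∈ Y := by
      by_contra x4
      exact hyn x (mem_bd.2 ⟨x3, by rw [x2]; exact hy, x4⟩) x2
    have x5 : G.al x ∈ M := m1.hm.clo x x1 x4
    have huse : ∀ u : D, u ∈ G.bd Y → u ∈ M → G.pi (G.al x) ≠ G.pi u := by
      intro u hu huM hxu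
      obtain ⟨w, hw⟩ := card_eq_one.1 (m1.hm.one (G.pi u) (mem_bd.1 hu).2.1)
      have w1 : u ∈ M.filter fun d => G.pi d = G.pi u := mem_filter.2 ⟨huM, rfl⟩
      have w2 : G.al x ∈ M.filter fun d => G.pi d = G.pi u := mem_filter.2 ⟨x5, hxu⟩
      rw [hw, mem_singleton] at w1 w2
      have w3 : u = G.al x := w1.trans w2.symm
      have w4 := (mem_bd.1 hu).2.2
      rw [w3, G.al_al x x3, x2] at w4
      exact w4 hy
    refine ⟨x, mem_st.2 ⟨x3, x2⟩, ?_⟩
    have x6 : G.pi (G.al x) ∈ ({y, G.pi f', G.pi g', G.pi k'} : Finset V) := hY' ▸ x4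
    simp only [mem_insert, mem_singleton] at x6
    rcases x6 with x6 | x6 | x6 | x6
    · exact absurd (x6.trans x2.symm) (G.noloop x x3)
    · exact x6
    · exact absurd x6 (huse g' hg' m2)
    · exact absurd x6 (huse k' hk' m3)
  obtain ⟨d1, a1, a2⟩ := key f g k hf hg hk hYe i1
  obtain ⟨d2, b1, b2⟩ := key g f k hg hf hk (by
    rw [hYe]; ext x; simp only [mem_insert, mem_singleton]; tauto) i2
  obtain ⟨d3, c1, c2⟩ := key k f g hk hf hg (by
    rw [hYe]; ext x; simp only [mem_insert, mem_singleton]; tauto) i3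
  have hc3 : ({d1, d2, d3} : Finset D).card = 3 := by
    refine card_eq_three.2 ⟨d1, d2, d3, ?_, ?_, ?_, rfl⟩
    · rintro rfl
      exact hfg (a2.symm.trans b2)
    · rintro rfl
      exact hfk (a2.symm.trans c2)
    · rintro rfl
      exact hgk (b2.symm.trans c2)
  have hsub : ({d1, d2, d3} : Finset D) ⊆ G.st y := by
    intro d hd
    simp only [mem_insert, mem_singleton] at hd
    rcases hd with rfl | rfl | rfl
    · exact a1
    · exact b1
    · exact c1
  have h5 := card_le_card hsub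
  rw [hc3] at h5
  obtain ⟨n, hn, hns⟩ := hE.tnat (b.hY hy)
  have hn0 : n = 0 := by omega
  rw [hn0] at hn
  exact hty (by rw [hn]; norm_num)

/-- **a colouring 1, -1**: one of the pairs does not occur inside -/
theorem six (h : X6 G t fr F jm) (e : E3 G Y f g k) (hF : ∀ d ∈ F, G.pi d ∉ Y)
    {p : V → ℝ} (hp : G.HPot one1 t F Y p) (hp1 : ∀ v ∈ Y, p v = 1 ∨ p v = -1) :
    ¬ (In2 G fr F jm Y g k f ∧ In2 G fr F jm Y f k g ∧ In2 G fr F jm Y f g k) := by
  rintro ⟨i1, i2, i3⟩
  have hE := h.toEK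
  have hf : f ∈ G.bd Y := by rw [e.bd]; simp
  obtain ⟨M0, m1, m2, -⟩ := b.half0 h (T := ∅) (S := ∅) (Or.inl rfl)
  have h0 : ∑ v ∈ Y, p v = 0 := by
    rw [m1.hm.sum_col hp hF]
    have : (G.bd Y).filter (fun d => d ∈ M0) = ∅ := filter_eq_empty_iff.2 fun d hd => m2 d hd
    rw [this, sum_empty]
  have key : ∀ f' g' k', E3 G Y f' g' k' → In2 G fr F jm Y g' k' f' →
      p (G.pi g') + p (G.pi k') = 0 := by
    intro f' g' k' e' hI
    obtain ⟨M, n1, n2, n3, n4⟩ := hI
    have h1 := n1.hm.sum_col hp hF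
    have h2 : (G.bd Y).filter (fun d => d ∈ M) = {g', k'} := by
      rw [e'.bd]
      ext d
      simp only [mem_filter, mem_insert, mem_singleton]
      constructor
      · rintro ⟨rfl | rfl | rfl, q⟩
        · exact absurd q n4
        · exact Or.inl rfl
        · exact Or.inr rfl
      · rintro (rfl | rfl)
        · exact ⟨Or.inr (Or.inl rfl), n2⟩
        · exact ⟨Or.inr (Or.inr rfl), n3⟩
    rw [h2, sum_pair e'.gk, h0] at h1
    exact h1.symm
  have q1 := key f g k e i1
  have q2 := key g f k e.rot.swap i2.symm.symm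
  have q3 := key k f g e.rot.rot i3
  have q4 := hp1 _ (mem_bd.1 hf).2.1
  rcases q4 with q4 | q4 <;> linarith

/-- **three exits, no fresh vertex** -/
theorem n3p [Infinite V] [Infinite D] (h : X6 G t fr F jm) (hZ4 : 4 ≤ (G.vs \ Y).card)
    (hG : ∀ f g k, E3 G Y f g k → Out2 G fr F jm Y f g k ∨ Out2 G fr F jm Y f k g ∨
      ∃ p, G.HPot one1 t F (G.vs \ Y) p ∧ p (G.pi (G.al f)) = -1 ∧ p (G.pi (G.al g)) = 1 ∧
        p (G.pi (G.al k)) = 1)
    (hno : ∀ f g k, E3 G Y f g k →
      ¬ (In2 G fr F jm Y g k f ∧ In2 G fr F jm Y f k g ∧ In2 G fr F jm Y f g k))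
    (hbp : ∀ f g k, E3 G Y f g k → In2 G fr F jm Y f g k ∨ In2 G fr F jm Y f k g) :
    (G.bd Y).card ≠ 3 := by
  intro h3
  have hE := h.toEK
  obtain ⟨f0, g0, k0, e0⟩ := exists_e3 h3
  have key : ∀ f g k, E3 G Y f g k → ¬ In2 G fr F jm Y g k f → False := by
    intro f g k e hI
    have i1 : In2 G fr F jm Y g f k := by
      rcases hbp g f k e.rot.swap with q | q
      · exact q
      · exact absurd q hI
    have i2 : In2 G fr F jm Y k f g := by
      rcases hbp k f g e.rot.rot with q | q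
      · exact q
      · exact absurd q.symm hI
    rcases b.bbI h e hZ4 with h1 | ⟨q, q1, q2, q3, q4⟩
    · exact hI h1
    rcases hG f g k e with h1 | h1 | ⟨p, p1, p2, p3, p4⟩
    · exact b.no2 h e i1.symm h1
    · exact b.no2 h e.swap i2.symm h1
    · refine h.nc ⟨_, HPot.join q1 p1 (fun _ _ => rfl) h.fresh.Fsub h.fresh.Fal ?_
          fun d hd hF => absurd hF (b.nJ d hd)⟩
      intro d hd _ _
      rw [e.bd, mem_insert, mem_insert, mem_singleton] at hd
      rcases hd with rfl | rfl | rfl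
      · rw [q2, p2]; norm_num
      · rw [q3, p3]; norm_num
      · rw [q4, p4]; norm_num
  by_cases c1 : In2 G fr F jm Y g0 k0 f0
  · by_cases c2 : In2 G fr F jm Y f0 k0 g0
    · by_cases c3 : In2 G fr F jm Y f0 g0 k0
      · exact hno f0 g0 k0 e0 ⟨c1, c2, c3⟩
      · exact key k0 f0 g0 e0.rot.rot c3
    · exact key g0 f0 k0 e0.rot.swap c2
  · exact key f0 g0 k0 e0 c1

end EvB

end MG

end RH
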