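import Pool.Agent.Lib.RH.TplX
import Pool.Agent.Lib.RH.CE6Sw
import Pool.Agent.Lib.RH.CE6EvenA

/-! # A blocking set of I3 with at least 4 vertices (CE6 S1, 1.6 (iv))

`Z` even of value 4 in `W` (odd, value 5, one token, four exits), maximal, the ends of the exits `i`, `j`
are in `Z`. Instances: `bp4` (on `W - Z`: `beta(e)` and a path with three tokens, ports `k` and both
edges to `Z`), `bp3` (on `Z`: `beta` at an edge to `W - Z`, a path with three tokens at `i`, `j`, the other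
edge is dropped), pure restriction of `Z`. Result `X6.inZ`: the triple without `i` or `j` or the single
`e` is inside. -/

set_option autoImplicit false

namespace RH

open Finset

namespace Tpl

theorem bp3_tabU : bp3.Tab 0 4 univ (iE univ) (iO univ) where
  t0 := by decide +kernel
  t1 := by decide +kernel
  t2 := by decide +kernel
  t3 := by decide +kernel
  t4 := by decide +kernel

end Tpl


open Classical

namespace MG

variable {V D : Type*} {G : MG V D} {t : V → ℝ} {fr : Finset V} {F M : Finset D}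
variable {jm A W X Y Z Ts : Finset V} {e i j k z1 z2 : D} {np : ℕ} {pp : Fin np → D}

theorem TSol.mem (h : TSol G fr F jm A pp Ts M) {κ : Finset (Fin np)}
    (hκ : (univ.filter fun i => pp i ∈ M) = κ) {d : D} (hd : d ∈ G.bd A) :
    d ∈ M ↔ ∃ i ∈ κ, pp i = d := by
  rw [← hκ]
  constructor
  · intro h1
    obtain ⟨i, hi⟩ := h.ex d hd h1
    exact ⟨i, mem_filter.2 ⟨mem_univ _, by rw [hi]; exact h1⟩, hi⟩
  · rintro ⟨i, h1, rfl⟩
    exact (mem_filter.1 h1).2

theorem EK.val_disjN (h : EK G 6 t fr F jm) (hX : X ⊆ G.vs) (hY : Y ⊆ G.vs)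
    (hd : Disjoint X Y) :
    G.val one1 t (X ∪ Y) = G.val one1 t X + G.val one1 t Y - 2 * ((G.ed X Y).card : ℝ) := by
  rw [h.wt.val_disj hX hY hd]
  congr 2
  unfold one1
  rw [sum_const, nsmul_eq_mul, mul_one]

/-- in a set of even order and value 4 (at least 4 vertices) no vertex has two boundary darts -/
theorem EK.end_ne (h : EK G 6 t fr F jm) (hZ : Z ⊆ G.vs) (he : Even Z.card) (h4 : 4 ≤ Z.card)
    (hv : G.val one1 t Z = 4) (h1 : z1 ∈ G.bd Z) (h2 : z2 ∈ G.bd Z) (hn : z1 ≠ z2) :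
    G.pi z1 ≠ G.pi z2 := by
  intro hz
  obtain ⟨a1, a2, a3⟩ := mem_bd.1 h1
  obtain ⟨b1, b2, b3⟩ := mem_bd.1 h2
  have c1 := h.wt.val_erase hZ a2
  have c2 : ({z1, z2} : Finset D) ⊆ G.ed {G.pi z1} (G.vs \ Z) := by
    intro d hd
    rcases mem_insert.1 hd with rfl | hd
    · exact mem_ed.2 ⟨a1, mem_singleton_self _, mem_sdiff.2 ⟨G.pi_mem _ (G.al_mem _ a1), a3⟩⟩
    · rw [mem_singleton.1 hd]
      exact mem_ed.2 ⟨b1, mem_singleton.2 hz.symm, mem_sdiff.2 ⟨G.pi_mem _ (G.al_mem _ b1), b3⟩⟩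
  have c3 := card_le_card c2
  rw [card_pair hn] at c3
  have c4 : ∑ d ∈ G.ed {G.pi z1} (G.vs \ Z), one1 d = ((G.ed {G.pi z1} (G.vs \ Z)).card : ℝ) := by
    unfold one1
    rw [sum_const, nsmul_eq_mul, mul_one]
  have c5 : (2 : ℝ) ≤ ((G.ed {G.pi z1} (G.vs \ Z)).card : ℝ) := by exact_mod_cast c3
  have c6 := h.t0 _ (hZ a2)
  have c7 := card_erase_of_mem a2
  rw [Nat.even_iff] at he
  have c8 := h.odd (Z.erase (G.pi z1)) ((erase_subset _ _).trans hZ)
    (by rw [Nat.odd_iff]; omega) (by omega)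
  rw [c1, hv, c4] at c8
  linarith

/-- no outer vertex has two darts to a set of even order and value 4 -/
theorem EK.end_ne' (h : EK G 6 t fr F jm) (hZ : Z ⊆ G.vs) (he : Even Z.card) (h4 : 4 ≤ Z.card)
    (hv : G.val one1 t Z = 4) (h1 : z1 ∈ G.bd Z) (h2 : z2 ∈ G.bd Z) (hn : z1 ≠ z2) :
    G.pi (G.al z1) ≠ G.pi (G.al z2) := by
  intro hz
  obtain ⟨a1, a2, a3⟩ := mem_bd.1 h1
  obtain ⟨b1, b2, b3⟩ := mem_bd.1 h2
  have hx := G.pi_mem _ (G.al_mem _ a1)
  have hdj : Disjoint Z {G.pi (G.al z1)} := disjoint_singleton_right.2 a3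
  have c1 := h.wt.val_disj hZ (singleton_subset_iff.2 hx) hdj
  rw [h.wt.val_single hx] at c1
  have c2 : ({z1, z2} : Finset D) ⊆ G.ed Z {G.pi (G.al z1)} := by
    intro d hd
    rcases mem_insert.1 hd with rfl | hd
    · exact mem_ed.2 ⟨a1, a2, mem_singleton_self _⟩
    · rw [mem_singleton.1 hd]
      exact mem_ed.2 ⟨b1, b2, mem_singleton.2 hz.symm⟩
  have c3 := card_le_card c2
  rw [card_pair hn] at c3
  have c4 : ∑ d ∈ G.ed Z {G.pi (G.al z1)}, one1 d = ((G.ed Z {G.pi (G.al z1)}).card : ℝ) := by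
    unfold one1
    rw [sum_const, nsmul_eq_mul, mul_one]
  have c5 : (2 : ℝ) ≤ ((G.ed Z {G.pi (G.al z1)}).card : ℝ) := by exact_mod_cast c3
  have c6 : (Z ∪ {G.pi (G.al z1)}).card = Z.card + 1 := by
    rw [card_union_of_disjoint (disjoint_singleton_right.2 a3), card_singleton]
  rw [Nat.even_iff] at he
  have c8 := h.odd (Z ∪ {G.pi (G.al z1)}) (union_subset hZ (singleton_subset_iff.2 hx))
    (by rw [Nat.odd_iff]; omega) (by omega)
  rw [c1, hv, c4] at c8
  linarith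

/-- the hypotheses: `W = vs - A` is odd of value 5 with one token and four exits `e`, `i`, `j`, `k`;
`Z` is a maximal even set of value 4 in `W` with the inner ends of `i`, `j`, without tokens (it may be
crossed by F-darts) -/
structure ZH (G : MG V D) (t : V → ℝ) (F : Finset D) (jm A : Finset V)
    (e i j k : D) (Z : Finset V) : Prop where
  hA : A ⊆ G.vs
  odd : Odd (G.vs \ A).card
  vW : G.val one1 t (G.vs \ A) = 5
  tW : ∑ v ∈ G.vs \ A, t v = 1
  hF : ∀ d ∈ F, G.pi d ∈ A → G.pi (G.al d) ∈ A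
  jA : jm ⊆ A
  bdA : G.bd A = {e, i, j, k}
  nd : [e, i, j, k].Nodup
  t0 : ∀ d ∈ G.bd A, t (G.pi (G.al d)) = 0
  hZ : Z ⊆ G.vs \ A
  ev : Even Z.card
  four : 4 ≤ Z.card
  val : G.val one1 t Z = 4
  tZ : ∀ v ∈ Z, t v = 0
  ci : G.pi (G.al i) ∈ Z
  cj : G.pi (G.al j) ∈ Z
  max : ∀ X ⊆ G.vs \ A, Even X.card → Z ⊆ X → G.val one1 t X = 4 → X ⊆ Z

namespace ZH

variable (q : ZH G t F jm A e i j k Z)
include q

theorem hv : Z ⊆ G.vs := q.hZ.trans sdiff_subset

theorem c4A : (G.bd A).card = 4 := by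
  have h1 := q.nd
  rw [q.bdA]
  have h2 : [e, i, j, k].toFinset = {e, i, j, k} := by
    ext x
    simp
  rw [← h2, List.toFinset_card_of_nodup h1]
  rfl

theorem c4Z : (G.bd Z).card = 4 := by
  have h1 := q.val
  rw [val_one, sum_eq_zero q.tZ, add_zero] at h1
  exact_mod_cast h1

theorem sumW : ∑ v ∈ (G.vs \ A) \ Z, t v = 1 := by
  have h1 := q.tW
  rw [← sum_sdiff q.hZ, sum_eq_zero q.tZ, add_zero] at h1
  exact h1

theorem valW (h : EK G 6 t fr F jm) :
    G.val one1 t ((G.vs \ A) \ Z) = 1 + 2 * ((G.ed Z ((G.vs \ A) \ Z)).card : ℝ) := by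
  have h1 := h.val_disjN q.hv (sdiff_subset.trans sdiff_subset)
    (disjoint_sdiff : Disjoint Z ((G.vs \ A) \ Z))
  rw [union_sdiff_of_subset q.hZ, q.vW, q.val] at h1
  linarith

theorem parW : ((G.vs \ A) \ Z).card % 2 = 1 := by
  have h1 := card_sdiff_add_card_eq_card q.hZ
  have h2 := Nat.odd_iff.1 q.odd
  have h3 := Nat.even_iff.1 q.ev
  omega

theorem ne : e ≠ i ∧ e ≠ j ∧ e ≠ k ∧ i ≠ j ∧ i ≠ k ∧ j ≠ k := by
  have hnd := q.nd
  simp only [List.nodup_cons, List.mem_cons, List.not_mem_nil, or_false, not_or, not_false_iff,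
    List.nodup_nil, and_true] at hnd
  obtain ⟨⟨h1, h2, h3⟩, ⟨h4, h5⟩, h6⟩ := hnd
  exact ⟨h1, h2, h3, h4, h5, h6⟩

theorem me : e ∈ G.bd A := by rw [q.bdA]; simp
theorem mi : i ∈ G.bd A := by rw [q.bdA]; simp
theorem mj : j ∈ G.bd A := by rw [q.bdA]; simp
theorem xk : k ∈ G.bd A := by rw [q.bdA]; simp

theorem alZ {x : D} (hx : x ∈ G.bd A) (hxZ : G.pi (G.al x) ∈ Z) : G.al x ∈ G.bd Z := by
  obtain ⟨h1, h2, h3⟩ := mem_bd.1 hx
  refine mem_bd.2 ⟨G.al_mem _ h1, hxZ, ?_⟩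
  rw [G.al_al _ h1]
  exact fun h4 => (mem_sdiff.1 (q.hZ h4)).2 h2

/-- the other exits are not at `Z` -/
theorem not3 (h : EK G 6 t fr F jm) {x : D} (hx : x ∈ G.bd A) (hxi : x ≠ i) (hxj : x ≠ j) :
    G.pi (G.al x) ∉ Z := by
  intro hxZ
  obtain ⟨n1, n2, n3, n4, n5, n6⟩ := q.ne
  have ds := fun {x : D} (hx : x ∈ G.bd A) => (mem_bd.1 hx).1
  have hne : ∀ {x y : D}, x ∈ G.bd A → y ∈ G.bd A → x ≠ y → G.al x ≠ G.al y :=
    fun hx hy hxy h1 => hxy ((al_eq (ds hx) (ds hy)).1 h1)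
  have e3 : ({G.al i, G.al j, G.al x} : Finset D).card = 3 :=
    card_eq_three.2 ⟨_, _, _, hne q.mi q.mj n4, hne q.mi hx hxi.symm, hne q.mj hx hxj.symm, rfl⟩
  have e4 : G.ed Z ((G.vs \ A) \ Z) ⊆ (G.bd Z) \ {G.al i, G.al j, G.al x} := by
    intro d hd
    obtain ⟨h1, h2, h3⟩ := mem_ed.1 hd
    refine mem_sdiff.2 ⟨mem_bd.2 ⟨h1, h2, (mem_sdiff.1 h3).2⟩, fun h4 => ?_⟩
    have h5 := (mem_sdiff.1 (mem_sdiff.1 h3).1).2
    simp only [mem_insert, mem_singleton] at h4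
    rcases h4 with rfl | rfl | rfl
    · rw [G.al_al _ (ds q.mi)] at h5
      exact h5 (mem_bd.1 q.mi).2.1
    · rw [G.al_al _ (ds q.mj)] at h5
      exact h5 (mem_bd.1 q.mj).2.1
    · rw [G.al_al _ (ds hx)] at h5
      exact h5 (mem_bd.1 hx).2.1
  have e5 : ({G.al i, G.al j, G.al x} : Finset D) ⊆ G.bd Z := by
    intro d hd
    simp only [mem_insert, mem_singleton] at hd
    rcases hd with rfl | rfl | rfl
    · exact q.alZ q.mi q.ci
    · exact q.alZ q.mj q.cj
    · exact q.alZ hx hxZ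
  have e6 := card_le_card e4
  rw [card_sdiff_of_subset e5, e3, q.c4Z] at e6
  have e7 := q.valW h
  have e8 : ((G.ed Z ((G.vs \ A) \ Z)).card : ℝ) ≤ 1 := by exact_mod_cast e6
  have hp := q.parW
  have hWs : (G.vs \ A) \ Z ⊆ G.vs := sdiff_subset.trans sdiff_subset
  by_cases h1 : ((G.vs \ A) \ Z).card = 1
  · obtain ⟨v, hv⟩ := card_eq_one.1 h1
    have hvW : v ∈ (G.vs \ A) \ Z := by rw [hv]; exact mem_singleton_self _
    have t1 := q.sumW
    rw [hv, sum_singleton] at t1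
    have v3 := h.wt.val_single (hWs hvW)
    have v4 := v3
    rw [val_one, sum_singleton, t1] at v4
    have v5 : (G.bd {v}).card = 2 := by
      have : ((G.bd {v}).card : ℝ) = (2 : ℕ) := by
        push_cast
        linarith
      exact_mod_cast this
    have v6 : G.ed {v} Z ⊆ G.bd {v} := by
      intro d hd
      obtain ⟨k1, k2, k3⟩ := mem_ed.1 hd
      exact mem_bd.2 ⟨k1, k2, fun k4 => (mem_sdiff.1 hvW).2 (mem_singleton.1 k4 ▸ k3)⟩
    have v7 : (G.ed {v} Z).card ≤ 1 := by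
      have k1 := h.wt.ed_symm {v} Z
      have k2 : ∀ X Y : Finset V, ∑ d ∈ G.ed X Y, one1 d = ((G.ed X Y).card : ℝ) := by
        intro X Y
        unfold one1
        rw [sum_const, nsmul_eq_mul, mul_one]
      rw [k2, k2] at k1
      rw [hv] at e8
      have k3 : ((G.ed {v} Z).card : ℝ) ≤ (1 : ℕ) := by
        push_cast
        linarith
      exact_mod_cast k3
    obtain ⟨d, hd1, hd2⟩ : ∃ d ∈ G.bd {v}, d ∉ G.ed {v} Z := by
      by_contra hc
      push Not at hc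
      have k1 := card_le_card (fun d hd => hc d hd : G.bd {v} ⊆ G.ed {v} Z)
      omega
    obtain ⟨k1, k2, k3⟩ := mem_bd.1 hd1
    have k4 : G.pi (G.al d) ∈ A := by
      by_contra k4
      have k5 : G.pi (G.al d) ∈ G.vs \ A := mem_sdiff.2 ⟨G.pi_mem _ (G.al_mem _ k1), k4⟩
      by_cases k6 : G.pi (G.al d) ∈ Z
      · exact hd2 (mem_ed.2 ⟨k1, k2, k6⟩)
      · have k7 : G.pi (G.al d) ∈ (G.vs \ A) \ Z := mem_sdiff.2 ⟨k5, k6⟩
        rw [hv] at k7
        exact k3 k7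
    have k5 : G.al d ∈ G.bd A := by
      refine mem_bd.2 ⟨G.al_mem _ k1, k4, ?_⟩
      rw [G.al_al d k1, mem_singleton.1 k2]
      exact (mem_sdiff.1 (mem_sdiff.1 hvW).1).2
    have k6 := q.t0 _ k5
    rw [G.al_al d k1, mem_singleton.1 k2, t1] at k6
    exact one_ne_zero k6
  · have h2 := h.odd _ hWs (Nat.odd_iff.2 hp) h1
    linarith

/-- the structure for the gluing (combinatorial part: `F` is empty) -/
theorem zd (h : EK G 6 t fr F jm) : ∃ z1 z2, ZD G fr ∅ jm A e i j k Z z1 z2 := by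
  obtain ⟨n1, n2, n3, n4, n5, n6⟩ := q.ne
  have ds := fun {x : D} (hx : x ∈ G.bd A) => (mem_bd.1 hx).1
  have hne : G.al i ≠ G.al j := fun h1 => n4 ((al_eq (ds q.mi) (ds q.mj)).1 h1)
  have e5 : ({G.al i, G.al j} : Finset D) ⊆ G.bd Z := by
    intro d hd
    simp only [mem_insert, mem_singleton] at hd
    rcases hd with rfl | rfl
    · exact q.alZ q.mi q.ci
    · exact q.alZ q.mj q.cj
  have e6 : ((G.bd Z) \ {G.al i, G.al j}).card = 2 := by
    rw [card_sdiff_of_subset e5, q.c4Z, card_pair hne]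
  obtain ⟨z1, z2, h12, hz⟩ := card_eq_two.1 e6
  have hce := q.not3 h q.me n1 n2
  have hck := q.not3 h q.xk n5.symm n6.symm
  have hw : ∀ x ∈ (G.bd Z) \ {G.al i, G.al j}, G.pi (G.al x) ∈ (G.vs \ A) \ Z := by
    intro x hx
    obtain ⟨h1, h2⟩ := mem_sdiff.1 hx
    obtain ⟨k1, k2, k3⟩ := mem_bd.1 h1
    refine mem_sdiff.2 ⟨mem_sdiff.2 ⟨G.pi_mem _ (G.al_mem _ k1), fun k4 => ?_⟩, k3⟩
    have k5 : G.al x ∈ G.bd A := by
      refine mem_bd.2 ⟨G.al_mem _ k1, k4, ?_⟩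
      rw [G.al_al _ k1]
      exact (mem_sdiff.1 (q.hZ k2)).2
    have k6 : x = G.al (G.al x) := (G.al_al x k1).symm
    rw [q.bdA] at k5
    simp only [mem_insert, mem_singleton] at k5 h2
    rcases k5 with k7 | k7 | k7 | k7
    · rw [k6, k7] at k2
      exact hce k2
    · exact h2 (Or.inl (by rw [← k7]; exact k6))
    · exact h2 (Or.inr (by rw [← k7]; exact k6))
    · rw [k6, k7] at k2
      exact hck k2
  refine ⟨z1, z2, ⟨q.hA, q.jA, q.bdA, q.nd, fun d hd => absurd hd (notMem_empty d),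
    q.hZ, fun d hd => absurd hd (notMem_empty d), ?_, h12,
    hw z1 (by rw [hz]; simp), hw z2 (by rw [hz]; simp), hce, hck⟩⟩
  rw [← sdiff_union_of_subset e5, hz]
  ext x
  simp only [mem_union, mem_insert, mem_singleton]
  tauto

/-- if `Z` is not crossed -/
theorem zdF (FZ : ∀ d ∈ F, G.pi d ∈ Z → G.pi (G.al d) ∈ Z)
    (d : ZD G fr ∅ jm A e i j k Z z1 z2) : ZD G fr F jm A e i j k Z z1 z2 :=
  ⟨d.hA, d.jA, d.bdA, d.nd, q.hF, d.hZ, FZ, d.bdZ, d.n12, d.w1, d.w2, d.ce, d.ck⟩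

/-- number of vertices of the outer side and of `W - Z` -/
theorem cards (h : EK G 6 t fr F jm) (d : ZD G fr ∅ jm A e i j k Z z1 z2) :
    3 ≤ A.card ∧ 3 ≤ ((G.vs \ A) \ Z).card ∧ G.val one1 t ((G.vs \ A) \ Z) = 5 := by
  have e1 : G.ed Z ((G.vs \ A) \ Z) = {z1, z2} := by
    ext x
    rw [mem_ed, mem_insert, mem_singleton]
    constructor
    · rintro ⟨k1, k2, k3⟩
      exact d.cross k1 k2 k3
    · rintro (rfl | rfl)
      · exact ⟨(mem_bd.1 d.m1).1, (mem_bd.1 d.m1).2.1, d.w1⟩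
      · exact ⟨(mem_bd.1 d.m2).1, (mem_bd.1 d.m2).2.1, d.w2⟩
  have e2 := q.valW h
  rw [e1, card_pair d.n12] at e2
  have e3 : G.val one1 t ((G.vs \ A) \ Z) = 5 := by
    rw [e2]
    norm_num
  have hWs : (G.vs \ A) \ Z ⊆ G.vs := sdiff_subset.trans sdiff_subset
  refine ⟨?_, ?_, e3⟩
  · have h1 := Nat.odd_iff.1 q.odd
    have h2 := card_sdiff_add_card_eq_card q.hA
    have h3 := Nat.even_iff.1 h.even
    have h4 : A.card ≠ 1 := by
      intro h4
      obtain ⟨v, hv⟩ := card_eq_one.1 h4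
      have hvv : v ∈ G.vs := q.hA (by rw [hv]; exact mem_singleton_self _)
      have h5 := h.wt.val_single hvv
      have h6 := h.t0 v hvv
      have h7 := q.c4A
      rw [hv] at h7
      rw [val_one, sum_singleton, h7] at h5
      push_cast at h5
      linarith
    omega
  · have h1 := q.parW
    have h4 : ((G.vs \ A) \ Z).card ≠ 1 := by
      intro h4
      obtain ⟨v, hv⟩ := card_eq_one.1 h4
      have hvv : v ∈ G.vs := hWs (by rw [hv]; exact mem_singleton_self _)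
      rw [hv, h.wt.val_single hvv] at e3
      norm_num at e3
    omega

end ZH

namespace X6

/-- **Z0**: a half of `Z` without used boundary darts; `z1`, `z2` are not joined -/
theorem z0 (h : X6 G t fr F jm) (q : ZH G t F jm A e i j k Z)
    (FZ : ∀ d ∈ F, G.pi d ∈ Z → G.pi (G.al d) ∈ Z) (d : ZD G fr ∅ jm A e i j k Z z1 z2) :
    ∃ M1, G.GHalf one1 fr F jm Z M1 ∧ (∀ d ∈ G.bd Z, d ∉ M1) ∧ G.LkS fr F Z M1 {z1, z2} ∅ := by
  have hz12 := h.toEK.end_ne q.hv q.ev q.four q.val d.m1 d.m2 d.n12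
  obtain ⟨c1, c2, -⟩ := q.cards h.toEK d
  have hlt : Z.card < G.vs.card := by
    have k1 := card_sdiff_add_card_eq_card q.hZ
    have k2 := card_sdiff_add_card_eq_card q.hA
    omega
  have hjZ : jm.Nonempty → ¬ jm ⊆ Z := by
    rintro ⟨v, hv⟩ h1
    exact (mem_sdiff.1 (q.hZ (h1 hv))).2 (q.jA hv)
  by_cases hf : G.pi z1 ∈ fr ∧ G.pi z2 ∈ fr
  · obtain ⟨M, m1, m2, m3⟩ := h.res0 (T := {G.pi z1, G.pi z2}) q.hv q.ev hlt FZ q.val
      (Or.inr (card_pair hz12)) (fun h1 h2 => absurd h2 (hjZ h1)) (fun v hv _ => by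
        rcases mem_insert.1 hv with rfl | hv
        · exact ⟨z1, d.m1, rfl⟩
        · exact ⟨z2, d.m2, (mem_singleton.1 hv).symm⟩)
    refine ⟨M, m1, m2, fun X hX hXZ hcl hc => ?_⟩
    refine m3 ⟨G.pi z1, mem_insert_self _ _⟩ X hX hXZ ?_ ?_
    · intro v hv
      rcases mem_insert.1 hv with rfl | hv
      · exact hc.1 z1 (mem_insert_self _ _)
      · rw [mem_singleton.1 hv]
        exact hc.1 z2 (mem_insert_of_mem (mem_singleton_self _))
    · intro x hx
      rcases hcl x hx with k1 | k1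
      · exact Or.inl k1
      · right
        rcases mem_insert.1 k1 with rfl | k1
        · exact ⟨d.m1, mem_insert_self _ _⟩
        · rw [mem_singleton.1 k1]
          exact ⟨d.m2, mem_insert_of_mem (mem_singleton_self _)⟩
  · obtain ⟨M, m1, m2, -⟩ := h.res0 (T := ∅) q.hv q.ev hlt FZ q.val
      (Or.inl rfl) (fun h1 h2 => absurd h2 (hjZ h1)) (fun v hv _ => absurd hv (notMem_empty v))
    refine ⟨M, m1, m2, fun X hX hXZ hcl hc => hf ⟨?_, ?_⟩⟩
    · exact hX.sub (hc.1 z1 (mem_insert_self _ _))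
    · exact hX.sub (hc.1 z2 (mem_insert_of_mem (mem_singleton_self _)))

/-- **ZA6** -/
theorem zA [Infinite V] [Infinite D] (h : X6 G t fr F jm) (q : ZH G t F jm A e i j k Z)
    (d : ZD G fr ∅ jm A e i j k Z z1 z2) :
    ∃ M1, G.GHalf one1 fr F jm Z M1 ∧ ((∀ d ∈ G.bd Z, d ∈ M1 ↔ d = z1 ∨ d = G.al i) ∨
      ∀ d ∈ G.bd Z, d ∈ M1 ↔ d = z1 ∨ d = G.al j) := by
  obtain ⟨c1, c2, -⟩ := q.cards h.toEK d
  obtain ⟨n1, n2, n3, n4, n5, n6⟩ := q.ne
  have hij : G.al i ≠ G.al j := fun h1 => n4 ((al_eq (mem_bd.1 q.mi).1 (mem_bd.1 q.mj).1).1 h1)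
  have hmem : ∀ x, ![z1, G.al i, G.al j] x ∈ G.bd Z := by
    intro x
    fin_cases x
    · exact d.m1
    · exact d.mi'
    · exact d.mj'
  have hinj : Function.Injective ![z1, G.al i, G.al j] := by
    have k1 := d.ne1.1
    have k2 := d.ne1.2
    intro x y hxy
    fin_cases x <;> fin_cases y <;> simp_all
  have hb : IBlk G t Z 0 := by
    refine ⟨q.hv, Nat.even_iff.1 q.ev, ?_, ?_⟩
    · exact ⟨_, mem_sdiff.2 ⟨(mem_sdiff.1 (mem_sdiff.1 d.w1).1).1, (mem_sdiff.1 d.w1).2⟩⟩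
    · rw [q.val]
      norm_num
  rcases h.tplI (Ts := ∅) hb Tpl.bp3_reg Tpl.bp3_tabU (by decide) rfl (pp := ![z1, G.al i, G.al j])
    hmem hinj (Or.inr (by
      have k1 := card_sdiff_add_card_eq_card q.hZ
      have k2 := card_sdiff_add_card_eq_card q.hA
      have k3 := card_sdiff_add_card_eq_card q.hv
      omega)) (Or.inl rfl) (fun v hv => absurd hv (notMem_empty v))
    (fun _ _ => mem_univ _) (fun _ _ _ _ _ _ => mem_univ _) (fun _ _ _ _ _ _ => mem_univ _) with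
    ⟨M, m, h1, h2⟩ | ⟨f, cc, -, -, h2, h3, -⟩
  · have hj : (∅ : Finset V) = jm ∨ jm = ∅ ∨ ¬ jm ⊆ Z := by
      by_cases hj0 : jm = ∅
      · exact Or.inr (Or.inl hj0)
      · obtain ⟨v, hv⟩ := nonempty_iff_ne_empty.2 hj0
        exact Or.inr (Or.inr fun h4 => (mem_sdiff.1 (q.hZ (h4 hv))).2 (q.jA hv))
    refine ⟨M, h1.half h.fresh h.jm2 hj, ?_⟩
    rcases Tpl.bp3_pat _ _ h2 with h5 | h5
    · left
      intro x hx
      rw [h1.mem h5 hx]
      constructor
      · rintro ⟨y, hy, rfl⟩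
        rcases mem_insert.1 hy with rfl | hy
        · exact Or.inl rfl
        · rw [mem_singleton.1 hy]
          exact Or.inr rfl
      · rintro (rfl | rfl)
        · exact ⟨0, mem_insert_self _ _, rfl⟩
        · exact ⟨1, mem_insert_of_mem (mem_singleton_self _), rfl⟩
    · right
      intro x hx
      rw [h1.mem h5 hx]
      constructor
      · rintro ⟨y, hy, rfl⟩
        rcases mem_insert.1 hy with rfl | hy
        · exact Or.inl rfl
        · rw [mem_singleton.1 hy]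
          exact Or.inr rfl
      · rintro (rfl | rfl)
        · exact ⟨0, mem_insert_self _ _, rfl⟩
        · exact ⟨2, mem_insert_of_mem (mem_singleton_self _), rfl⟩
  · exact (Tpl.bp3_noC cc h2 h3).elim

/-- **K6** -/
theorem k6 [Infinite V] [Infinite D] (h : X6 G t fr F jm) (q : ZH G t F jm A e i j k Z)
    (d : ZD G fr ∅ jm A e i j k Z z1 z2) :
    ∃ M2, G.GHalf one1 fr F jm ((G.vs \ A) \ Z) M2 ∧
      ((∀ d ∈ G.bd ((G.vs \ A) \ Z), d ∈ M2 ↔ d = G.al e) ∨
        ∃ s, (s = z1 ∨ s = z2) ∧ ∀ d ∈ G.bd ((G.vs \ A) \ Z), d ∈ M2 ↔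
          d = G.al e ∨ d = G.al k ∨ d = G.al s) := by
  obtain ⟨c1, c2, c3⟩ := q.cards h.toEK d
  obtain ⟨n1, n2, n3, n4, n5, n6⟩ := q.ne
  have hek : G.al e ≠ G.al k := fun h1 => n3 ((al_eq (mem_bd.1 q.me).1 (mem_bd.1 q.xk).1).1 h1)
  have hWs : (G.vs \ A) \ Z ⊆ G.vs := sdiff_subset.trans sdiff_subset
  have hmem : ∀ x, ![G.al e, G.al k, G.al z1, G.al z2] x ∈ G.bd ((G.vs \ A) \ Z) := by
    intro x
    fin_cases x
    · exact d.bW q.me d.ce
    · exact d.bW q.xk d.ck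
    · exact d.bW1
    · exact d.symm.bW1
  have hinj : Function.Injective ![G.al e, G.al k, G.al z1, G.al z2] := by
    have k1 := d.al1_ne' d.me
    have k2 := d.al1_ne' d.xk
    have k3 := d.symm.al1_ne' d.me
    have k4 := d.symm.al1_ne' d.xk
    have k5 := d.al1_ne
    intro x y hxy
    fin_cases x <;> fin_cases y <;> simp_all
  have hb : IBlk G t ((G.vs \ A) \ Z) 1 := by
    refine ⟨hWs, q.parW, ?_, ?_⟩
    · exact ⟨G.pi z1, mem_sdiff.2 ⟨q.hv (mem_bd.1 d.m1).2.1, fun k1 =>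
        (mem_sdiff.1 k1).2 (mem_bd.1 d.m1).2.1⟩⟩
    · rw [c3]
      norm_num
  have hww := h.toEK.end_ne' q.hv q.ev q.four q.val d.m1 d.m2 d.n12
  rcases h.tplI (Ts := ∅) hb Tpl.bp4_reg Tpl.bp4_tab (by decide) rfl
    (pp := ![G.al e, G.al k, G.al z1, G.al z2])
    hmem hinj (Or.inr (by
      have k1 := card_sdiff_add_card_eq_card q.hZ
      have k2 := card_sdiff_add_card_eq_card q.hA
      have k3 := card_sdiff_add_card_eq_card hWs
      have k4 := q.four
      omega)) (Or.inl rfl) (fun v hv => absurd hv (notMem_empty v))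
    (fun v _ => by
      unfold Tpl.n23
      rw [mem_filter]
      refine ⟨mem_univ _, ?_⟩
      rintro ⟨k1, k2⟩
      have k3 : G.pi (G.al z1) ∈ ({v} : Finset V) := (mem_filter.1 k1).2
      have k4 : G.pi (G.al z2) ∈ ({v} : Finset V) := (mem_filter.1 k2).2
      exact hww ((mem_singleton.1 k3).trans (mem_singleton.1 k4).symm))
    (fun X hX he hXn _ h4 => by
      unfold Tpl.n23
      rw [mem_filter]
      refine ⟨mem_univ _, ?_⟩
      rintro ⟨k1, k2⟩
      have k3 : G.pi (G.al z1) ∈ X := (mem_filter.1 k1).2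
      have k4 : G.pi (G.al z2) ∈ X := (mem_filter.1 k2).2
      have hdj : Disjoint Z X := (disjoint_sdiff : Disjoint Z ((G.vs \ A) \ Z)).mono_right hX
      have k5 := h.toEK.val_disjN q.hv (hX.trans hWs) hdj
      have k6 : ({z1, z2} : Finset D) ⊆ G.ed Z X := by
        intro x hx
        rcases mem_insert.1 hx with rfl | hx
        · exact mem_ed.2 ⟨(mem_bd.1 d.m1).1, (mem_bd.1 d.m1).2.1, k3⟩
        · rw [mem_singleton.1 hx]
          exact mem_ed.2 ⟨(mem_bd.1 d.m2).1, (mem_bd.1 d.m2).2.1, k4⟩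
      have k7 := card_le_card k6
      rw [card_pair d.n12] at k7
      have k8 : (2 : ℝ) ≤ ((G.ed Z X).card : ℝ) := by exact_mod_cast k7
      have hsW : Z ∪ X ⊆ G.vs \ A := union_subset q.hZ (hX.trans sdiff_subset)
      have hev : Even (Z ∪ X).card := by
        rw [card_union_of_disjoint hdj]
        exact q.ev.add he
      have k9 := h.evn (Z ∪ X) (hsW.trans sdiff_subset) hev (hXn.mono subset_union_right) (by
        intro k10
        obtain ⟨v, hv⟩ : A.Nonempty := card_pos.1 (by omega)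
        have k11 := q.hA hv
        rw [← k10] at k11
        exact (mem_sdiff.1 (hsW k11)).2 hv)
      have k10 : G.val one1 t (Z ∪ X) = 4 := by
        rw [q.val, h4] at k5
        linarith
      have k11 := q.max _ hsW hev subset_union_left k10
      obtain ⟨v, hv⟩ := hXn
      exact disjoint_left.1 hdj (k11 (mem_union_right _ hv)) hv)
    (fun _ _ _ _ _ _ => mem_univ _) with
    ⟨M, m, h1, h2⟩ | ⟨f, cc, -, -, h2, h3, -⟩
  · have hj : (∅ : Finset V) = jm ∨ jm = ∅ ∨ ¬ jm ⊆ (G.vs \ A) \ Z := by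
      by_cases hj0 : jm = ∅
      · exact Or.inr (Or.inl hj0)
      · obtain ⟨v, hv⟩ := nonempty_iff_ne_empty.2 hj0
        exact Or.inr (Or.inr fun h4 => (mem_sdiff.1 (mem_sdiff.1 (h4 hv)).1).2 (q.jA hv))
    refine ⟨M, h1.half h.fresh h.jm2 hj, ?_⟩
    rcases Tpl.bp4_pat _ _ h2 with h5 | h5 | h5
    · left
      intro x hx
      rw [h1.mem h5 hx]
      constructor
      · rintro ⟨y, hy, rfl⟩
        rw [mem_singleton.1 hy]
        rfl
      · rintro rfl
        exact ⟨0, mem_singleton_self _, rfl⟩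
    · right
      refine ⟨z1, Or.inl rfl, fun x hx => ?_⟩
      rw [h1.mem h5 hx]
      constructor
      · rintro ⟨y, hy, rfl⟩
        simp only [mem_insert, mem_singleton] at hy
        rcases hy with rfl | rfl | rfl
        · exact Or.inl rfl
        · exact Or.inr (Or.inl rfl)
        · exact Or.inr (Or.inr rfl)
      · rintro (rfl | rfl | rfl)
        · exact ⟨0, by simp, rfl⟩
        · exact ⟨1, by simp, rfl⟩
        · exact ⟨2, by simp, rfl⟩
    · right
      refine ⟨z2, Or.inr rfl, fun x hx => ?_⟩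
      rw [h1.mem h5 hx]
      constructor
      · rintro ⟨y, hy, rfl⟩
        simp only [mem_insert, mem_singleton] at hy
        rcases hy with rfl | rfl | rfl
        · exact Or.inl rfl
        · exact Or.inr (Or.inl rfl)
        · exact Or.inr (Or.inr rfl)
      · rintro (rfl | rfl | rfl)
        · exact ⟨0, by simp, rfl⟩
        · exact ⟨1, by simp, rfl⟩
        · exact ⟨3, by simp, rfl⟩
  · exact (Tpl.bp4_noC cc h2 h3).elim

/-- **(iv)**: a maximal even set of value 4 with at least 4 vertices at the exits `i`, `j`, not crossed -/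
theorem inZ [Infinite V] [Infinite D] (h : X6 G t fr F jm) (q : ZH G t F jm A e i j k Z)
    (FZ : ∀ d ∈ F, G.pi d ∈ Z → G.pi (G.al d) ∈ Z) :
    G.TIn fr F jm A i ∨ G.TIn fr F jm A j ∨ G.SIn fr F jm A e := by
  obtain ⟨z1, z2, d⟩ := q.zd h.toEK
  refine (q.zdF FZ d).iv h.fresh (h.z0 q FZ d) ?_ (h.k6 q d)
  rintro s (rfl | rfl)
  · exact h.zA q d
  · exact h.zA q d.symm

end X6

end MG

end RH
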