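import Pool.Agent.Lib.RH.CE6F0A
import Pool.Agent.Lib.RH.CE6Iv

/-! # Row f0: maximal blockers with two tokens, crossed by F-darts

Proof of helper30 (with helper80). `W` odd of value 5, exits `e` (a J-dart at `b`), `f`, `g` (F-darts).
`q.a1`, `q.a2`, `q.a3`: the ends of `f`, `g` on both sides are different, no even set of value 4 outside
contains both outer ends. `sgI`: inner halves with the exit `f` only, or `g` only. `pO`: half of a
certificate outside. -/

set_option autoImplicit false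

namespace RH

open Finset Classical

namespace MG

variable {V D : Type*} {G : MG V D} {t : V → ℝ} {fr : Finset V} {F : Finset D}
variable {jm W X Y : Finset V} {y b : V} {a0 u e1 e2 e f g : D} {M M1 M2 : Finset D}

/-- data of row f0 -/
structure F0D (G : MG V D) (t : V → ℝ) (F : Finset D) (W : Finset V) (e f g : D) : Prop where
  fc : G.FC F W f g
  bdW : G.bd W = {e, f, g}
  nF : e ∉ F
  tW : ∑ v ∈ W, t v = 2

namespace F0D

variable (q : F0D G t F W e f g)
include q

theorem symm : F0D G t F W e g f where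
  fc := ⟨q.fc.hW, q.fc.ne.symm, q.fc.f2, q.fc.f1, q.fc.w2, q.fc.w1, q.fc.u2, q.fc.u1,
    fun d h1 h2 h3 => (q.fc.only d h1 h2 h3).symm⟩
  bdW := by
    rw [q.bdW]
    ext d
    simp only [mem_insert, mem_singleton]
    tauto
  nF := q.nF
  tW := q.tW

theorem me : e ∈ G.bd W := by rw [q.bdW]; simp
theorem mf : f ∈ G.bd W := by rw [q.bdW]; simp
theorem mg : g ∈ G.bd W := by rw [q.bdW]; simp
theorem ef : e ≠ f := fun h => q.nF (h ▸ q.fc.f1)
theorem eg : e ≠ g := fun h => q.nF (h ▸ q.fc.f2)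
theorem fds : f ∈ G.ds := (mem_bd.1 q.mf).1
theorem gds : g ∈ G.ds := (mem_bd.1 q.mg).1
theorem eds : e ∈ G.ds := (mem_bd.1 q.me).1
theorem aef : G.al e ≠ G.al f := fun h => q.ef ((al_eq q.eds q.fds).1 h)
theorem aeg : G.al e ≠ G.al g := fun h => q.eg ((al_eq q.eds q.gds).1 h)
theorem afg : G.al f ≠ G.al g := fun h => q.fc.ne ((al_eq q.fds q.gds).1 h)
theorem WW : G.vs \ (G.vs \ W) = W := Finset.sdiff_sdiff_eq_self q.fc.hW

theorem bdU : G.bd (G.vs \ W) = {G.al e, G.al f, G.al g} := by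
  ext d
  constructor
  · intro hd
    have h1 := bd_al' q.fc.hW hd
    rw [q.bdW, mem_insert, mem_insert, mem_singleton] at h1
    have h2 := G.al_al d (mem_bd.1 hd).1
    simp only [mem_insert, mem_singleton]
    rcases h1 with h1 | h1 | h1
    · left
      rw [← h1, h2]
    · right
      left
      rw [← h1, h2]
    · right
      right
      rw [← h1, h2]
  · intro hd
    simp only [mem_insert, mem_singleton] at hd
    rcases hd with rfl | rfl | rfl
    · exact bd_al q.fc.hW q.me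
    · exact bd_al q.fc.hW q.mf
    · exact bd_al q.fc.hW q.mg

theorem ofU : G.pi (G.al f) ∈ G.vs \ W := (mem_bd.1 (bd_al q.fc.hW q.mf)).2.1
theorem ogU : G.pi (G.al g) ∈ G.vs \ W := (mem_bd.1 (bd_al q.fc.hW q.mg)).2.1
theorem oeU : G.pi (G.al e) ∈ G.vs \ W := (mem_bd.1 (bd_al q.fc.hW q.me)).2.1

/-- the exits outside at a set -/
theorem qx2 {X : Finset V} (h1 : G.pi (G.al f) ∈ X) (h2 : G.pi (G.al g) ∈ X) :
    2 ≤ qx G (G.vs \ W) X := by
  unfold qx
  have h3 : ({G.al f, G.al g} : Finset D) ⊆ (G.bd (G.vs \ W)).filter fun d => G.pi d ∈ X := by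
    intro d hd
    rw [mem_insert, mem_singleton] at hd
    rcases hd with rfl | rfl
    · exact mem_filter.2 ⟨bd_al q.fc.hW q.mf, h1⟩
    · exact mem_filter.2 ⟨bd_al q.fc.hW q.mg, h2⟩
  have h4 := card_le_card h3
  rwa [card_pair q.afg] at h4

theorem qx3 {X : Finset V} (h0 : G.pi (G.al e) ∈ X) (h1 : G.pi (G.al f) ∈ X)
    (h2 : G.pi (G.al g) ∈ X) : 3 ≤ qx G (G.vs \ W) X := by
  unfold qx
  have h3 : ({G.al e, G.al f, G.al g} : Finset D) ⊆
      (G.bd (G.vs \ W)).filter fun d => G.pi d ∈ X := by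
    intro d hd
    simp only [mem_insert, mem_singleton] at hd
    rcases hd with rfl | rfl | rfl
    · exact mem_filter.2 ⟨bd_al q.fc.hW q.me, h0⟩
    · exact mem_filter.2 ⟨bd_al q.fc.hW q.mf, h1⟩
    · exact mem_filter.2 ⟨bd_al q.fc.hW q.mg, h2⟩
  have h4 := card_le_card h3
  have h5 : ({G.al e, G.al f, G.al g} : Finset D).card = 3 :=
    card_eq_three.2 ⟨_, _, _, q.aef, q.aeg, q.afg, rfl⟩
  rwa [h5] at h4

end F0D

namespace Bas

variable (h : Bas G t fr F jm) (r : RStp G t fr y b a0 u e1 e2)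
  (m : MBlk G t y b u e1 e2 W)
include h r m

/-- **the exits** -/
theorem f0d (hc : FCut G F W) (hT : 2 ≤ ∑ v ∈ W, t v) : ∃ f g, F0D G t F W e1 f g := by
  have me : e1 ∈ G.bd W := mem_bd.2 ⟨r.sp.f1, by rw [r.sp.pf]; exact m.mb, m.nb1⟩
  have hef : e1 ∉ F := fun h1 => r.hb (by
    have h2 := h.fresh.Ffr _ h1
    rwa [r.sp.pf] at h2)
  have h3 := hc.three h.fresh me hef
  have hv := m.val
  rw [val_one] at hv
  have h3' : ((3 : ℕ) : ℝ) ≤ ((G.bd W).card : ℝ) := by exact_mod_cast h3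
  push_cast at h3'
  have hT2 : ∑ v ∈ W, t v = 2 := by linarith
  have hc3 : (G.bd W).card = 3 := by
    have h4 : ((G.bd W).card : ℝ) = ((3 : ℕ) : ℝ) := by
      push_cast
      linarith
    exact_mod_cast h4
  have hc2 : ((G.bd W).erase e1).card = 2 := by
    rw [card_erase_of_mem me, hc3]
  have hf2 := hc.two h.fresh
  have hsub : ((G.bd W).filter fun d => d ∈ F) ⊆ (G.bd W).erase e1 := by
    intro d hd
    obtain ⟨k1, k2⟩ := mem_filter.1 hd
    exact mem_erase.2 ⟨fun k3 => hef (k3 ▸ k2), k1⟩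
  have heq := eq_of_subset_of_card_le hsub (by omega)
  obtain ⟨f, g, hfg, hfe⟩ := card_eq_two.1 hc2
  have mf : f ∈ (G.bd W).filter fun d => d ∈ F := by rw [heq, hfe]; simp
  have mg : g ∈ (G.bd W).filter fun d => d ∈ F := by rw [heq, hfe]; simp
  obtain ⟨f1, f2⟩ := mem_filter.1 mf
  obtain ⟨q1, q2⟩ := mem_filter.1 mg
  refine ⟨f, g, ⟨m.sub, hfg, f2, q2, (mem_bd.1 f1).2.1, (mem_bd.1 q1).2.1, (mem_bd.1 f1).2.2,
    (mem_bd.1 q1).2.2, ?_⟩, ?_, hef, hT2⟩
  · intro d hd h1 h2
    have h3 : d ∈ (G.bd W).filter fun d => d ∈ F :=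
      mem_filter.2 ⟨mem_bd.2 ⟨h.fresh.Fsub hd, h1, h2⟩, hd⟩
    rw [heq, hfe, mem_insert, mem_singleton] at h3
    exact h3
  · rw [← insert_erase me, hfe]

/-- outer even sets without the killed end -/
theorem max7 (hX : X ⊆ G.vs \ W) (he : Even X.card) (hne : X.Nonempty)
    (hb : G.pi (G.al e1) ∉ X) : G.val one1 t (X ∪ W) ≠ 5 := by
  intro h1
  have hW := m.sub
  have hd : Disjoint X W := disjoint_left.2 fun v hv hv' => (mem_sdiff.1 (hX hv)).2 hv'
  have hc : (X ∪ W).card = X.card + W.card := card_union_of_disjoint hd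
  have h2 := m.max (X ∪ W) ⟨union_subset (hX.trans sdiff_subset) hW, mem_union_right _ m.my,
    mem_union_right _ m.mb, mem_union_right _ m.my2, mem_union_right _ m.mb2, by
      rw [mem_union, not_or]
      exact ⟨hb, m.nb1⟩, by
      rw [hc]
      exact he.add_odd m.odd, by
      rw [hc]
      have := m.big
      omega, h1⟩ subset_union_right
  rw [h2] at hc
  have h4 := card_pos.2 hne
  omega

variable (q : F0D G t F W e1 f g)
include q

theorem hWv : G.vs \ W ≠ ∅ := by
  intro h1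
  have h2 := Bas.three h r m
  rw [h1, card_empty] at h2
  omega

/-- the outer ends of the F-exits are different -/
theorem a1 : G.pi (G.al f) ≠ G.pi (G.al g) := by
  intro h1
  have hX : ({G.pi (G.al f)} : Finset V) ⊆ G.vs \ W := singleton_subset_iff.2 q.ofU
  have hj := h.toEK.join (sdiff_subset : G.vs \ W ⊆ G.vs) hX
  rw [q.WW, m.val, h.wt.val_single (mem_sdiff.1 q.ofU).1] at hj
  have hd : Disjoint ({G.pi (G.al f)} : Finset V) W :=
    disjoint_singleton_left.2 (mem_sdiff.1 q.ofU).2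
  have hc : ({G.pi (G.al f)} ∪ W).card = 1 + W.card := by
    rw [card_union_of_disjoint hd, card_singleton]
  have hv : {G.pi (G.al f)} ∪ W ⊆ G.vs := union_subset (hX.trans sdiff_subset) m.sub
  have hev : Even ({G.pi (G.al f)} ∪ W).card := by
    rw [hc]
    exact odd_one.add_odd m.odd
  have hb := m.big
  have hm : G.pi (G.al f) ∈ ({G.pi (G.al f)} : Finset V) := mem_singleton_self _
  have hm2 : G.pi (G.al g) ∈ ({G.pi (G.al f)} : Finset V) := by rw [h1]; exact mem_singleton_self _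
  by_cases h2 : G.pi (G.al e1) = G.pi (G.al f)
  · have h3 := q.qx3 (X := {G.pi (G.al f)}) (by rw [h2]; exact mem_singleton_self _) hm hm2
    have h3' : ((3 : ℕ) : ℝ) ≤ (qx G (G.vs \ W) {G.pi (G.al f)} : ℝ) := by exact_mod_cast h3
    push_cast at h3'
    have h4 := h.evn _ hv hev ⟨_, mem_union_left _ hm⟩ (fun h5 => by
      have h6 := Bas.three h r m
      have h7 : (G.vs \ W).card = 1 := by
        rw [← h5, union_sdiff_right, sdiff_eq_self_of_disjoint hd, card_singleton]
      omega)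
    linarith
  · have h3 := q.qx2 hm hm2
    have h3' : ((2 : ℕ) : ℝ) ≤ (qx G (G.vs \ W) {G.pi (G.al f)} : ℝ) := by exact_mod_cast h3
    push_cast at h3'
    have h4 := Bas.evW h r hv hev (by omega) (mem_union_right _ m.my) (mem_union_right _ m.mb) (by
      rw [mem_union, mem_singleton, not_or]
      exact ⟨h2, m.nb1⟩)
    linarith

/-- the inner ends of the F-exits are different -/
theorem a2 : G.pi f ≠ G.pi g := by
  intro h1
  have hcW := q.fc.w1
  have hcf : G.pi f ∈ fr := h.fresh.Ffr _ q.fc.f1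
  have hE : W.erase (G.pi f) ⊆ G.vs := (erase_subset _ _).trans m.sub
  have hd : Disjoint (W.erase (G.pi f)) {G.pi f} :=
    disjoint_singleton_right.2 fun h2 => (mem_erase.1 h2).1 rfl
  have hu : W.erase (G.pi f) ∪ {G.pi f} = W := by
    rw [union_comm, ← insert_eq, insert_erase hcW]
  have hj := h.toEK.val_disjN hE (singleton_subset_iff.2 (m.sub hcW)) hd
  rw [hu, m.val, h.wt.val_single (m.sub hcW)] at hj
  have hce : (W.erase (G.pi f)).card = W.card - 1 := card_erase_of_mem hcW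
  have hb := m.big
  have hev : Even (W.erase (G.pi f)).card := by
    have h2 := Nat.odd_iff.1 m.odd
    rw [Nat.even_iff, hce]
    omega
  have hle : (G.ed (W.erase (G.pi f)) {G.pi f}).card ≤ 1 := by
    have h2 : ((G.ed (W.erase (G.pi f)) {G.pi f}).image G.al) ⊆
        ((G.st (G.pi f)).erase f).erase g := by
      intro d hd
      obtain ⟨x, hx, rfl⟩ := mem_image.1 hd
      obtain ⟨k1, k2, k3⟩ := mem_ed.1 hx
      rw [mem_singleton] at k3
      have k4 := mem_of_mem_erase k2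
      refine mem_erase.2 ⟨fun k => ?_, mem_erase.2 ⟨fun k => ?_, mem_st.2 ⟨G.al_mem x k1, k3⟩⟩⟩
      · apply q.fc.u2
        rw [← k, G.al_al x k1]
        exact k4
      · apply q.fc.u1
        rw [← k, G.al_al x k1]
        exact k4
    have h3 := card_le_card h2
    rw [card_image_of_injOn fun x hx x' hx' hxx => (al_eq (mem_ed.1 (mem_coe.1 hx)).1
      (mem_ed.1 (mem_coe.1 hx')).1).1 hxx, card_erase_of_mem (mem_erase.2 ⟨q.fc.ne.symm,
        mem_st.2 ⟨q.gds, h1.symm⟩⟩), card_erase_of_mem (mem_st.2 ⟨q.fds, rfl⟩)] at h3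
    have h4 := h.deg _ (m.sub hcW)
    have h5 := h.t0 _ (m.sub hcW)
    have h6 : ((G.st (G.pi f)).card : ℝ) ≤ ((3 : ℕ) : ℝ) := by
      push_cast
      linarith
    have h7 : (G.st (G.pi f)).card ≤ 3 := by exact_mod_cast h6
    omega
  have hle' : ((G.ed (W.erase (G.pi f)) {G.pi f}).card : ℝ) ≤ ((1 : ℕ) : ℝ) := by
    exact_mod_cast hle
  push_cast at hle'
  have h4 := Bas.evW h r hE hev (by omega)
    (mem_erase.2 ⟨fun k => r.hy (k ▸ hcf), m.my⟩) (mem_erase.2 ⟨fun k => r.hb (k ▸ hcf), m.mb⟩)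
    (fun k => m.nb1 (mem_of_mem_erase k))
  linarith

/-- no even set of value 4 contains both outer ends -/
theorem a3 (hX : X ⊆ G.vs \ W) (he : Even X.card) (hv : G.val one1 t X = 4)
    (h1 : G.pi (G.al f) ∈ X) (h2 : G.pi (G.al g) ∈ X) : False := by
  have hj := h.toEK.join (sdiff_subset : G.vs \ W ⊆ G.vs) hX
  rw [q.WW, m.val, hv] at hj
  have hd : Disjoint X W := disjoint_left.2 fun v hv hv' => (mem_sdiff.1 (hX hv)).2 hv'
  have hc : (X ∪ W).card = X.card + W.card := card_union_of_disjoint hd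
  have hvs : X ∪ W ⊆ G.vs := union_subset (hX.trans sdiff_subset) m.sub
  have ho : Odd (X ∪ W).card := by
    rw [hc]
    exact he.add_odd m.odd
  have hb := m.big
  have h5 := h.odd _ hvs ho (by omega)
  by_cases h3 : G.pi (G.al e1) ∈ X
  · have h4 := q.qx3 h3 h1 h2
    have h4' : ((3 : ℕ) : ℝ) ≤ (qx G (G.vs \ W) X : ℝ) := by exact_mod_cast h4
    push_cast at h4'
    linarith
  · have h4 := q.qx2 h1 h2
    have h4' : ((2 : ℕ) : ℝ) ≤ (qx G (G.vs \ W) X : ℝ) := by exact_mod_cast h4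
    push_cast at h4'
    exact Bas.max7 h r m hX he ⟨_, h1⟩ h3 (le_antisymm (by linarith) h5)

/-- the inner block -/
theorem f0i : IBlk G t W 1 where
  hA := m.sub
  par := Nat.odd_iff.1 m.odd
  ne := nonempty_iff_ne_empty.2 (Bas.hWv h r m q)
  val := by
    rw [m.val]
    norm_num

/-- the outer block -/
theorem f0o : OBl G t (G.vs \ W) 1 where
  hA := sdiff_subset
  par := by
    rw [q.WW]
    exact Nat.odd_iff.1 m.odd
  two := by
    rw [q.WW]
    have := m.big
    omega
  val := by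
    rw [q.WW, m.val]
    norm_num

end Bas

end MG

end RH
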