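import Pool.Agent.Lib.RH.GluT
import Pool.Agent.Lib.RH.CE6Omega

/-! ASSEMBLY OF A BLOCKED STEP (helper80, CE6 S1, 1.5 and 1.6), without walks. `SOut`, `TOut`, `SIn`,
`TIn`: the singles and triples of the two sides; `SAll`: singles of the inner side for every pair of
specials. `X6.ll`: LINK LAW: if half of a certificate has the value 1 at all unused exits, one
inner half is enough. `X6.w2`, `X6.w1`: the contradiction. -/

set_option autoImplicit false

namespace RH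

open Finset Classical

namespace MG

variable {V D : Type*} {G : MG V D} {z : D → ℝ} {t : V → ℝ}
variable {fr : Finset V} {F M M1 M2 T : Finset D} {jm A W X Y S : Finset V} {e d : D}
variable {k : ℝ} {f g : V → ℝ}

/-! ## The link law for halves -/

theorem uJ_alH (hF : G.FrS z fr F jm) (hM : G.HM W M) (hXW : X ⊆ W) {d : D}
    (hd : d ∈ G.uJ F M X) : G.al d ∈ G.uJ F M X := by
  obtain ⟨h1, h2, h3, h4, h5⟩ := mem_uJ.1 hd
  refine mem_uJ.2 ⟨G.al_mem d h1, fun h => h2 ?_, fun h => h3 ?_, h5, ?_⟩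
  · have := hF.Fal _ h
    rwa [G.al_al d h1] at this
  · have := hM.clo _ h (by rw [G.al_al d h1]; exact hXW h4)
    rwa [G.al_al d h1] at this
  · rw [G.al_al d h1]
    exact h4

theorem uF_alH (hF : G.FrS z fr F jm) (hM : G.HM W M) (hXW : X ⊆ W) (hX : G.Adm fr F X) {d : D}
    (hd : d ∈ G.uF F M X) : G.al d ∈ G.uF F M X := by
  obtain ⟨h1, h2, h3⟩ := mem_uF.1 hd
  have h4 := hX.clo d h2 h3
  exact mem_uF.2 ⟨hM.clo _ h1 (hXW h4), hF.Fal _ h2, h4⟩

/-- the count of a union for a half matching -/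
theorem FrS.countH (hF : G.FrS z fr F jm) (hM : G.HM W M) (hXW : X ⊆ W) (hX : G.Adm fr F X)
    (p : V → ℝ) :
    ∑ d ∈ G.uJ F M X, p (G.pi d) + ∑ d ∈ (G.bd X).filter (fun d => d ∉ M), p (G.pi d) +
      ∑ v ∈ X ∩ jm, p v = ∑ d ∈ G.uF F M X, p (G.pi d) := by
  have e1 : ∑ v ∈ X ∩ jm, p v = ∑ v ∈ X, if v ∈ jm then p v else 0 := by
    rw [← filter_mem_eq_inter, sum_filter]
  rw [← sum_fiberwise_of_maps_to (s := G.uJ F M X) (t := X) (g := G.pi)
      (fun d hd => (mem_uJ.1 hd).2.2.2.1), e1,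
    ← sum_fiberwise_of_maps_to (s := (G.bd X).filter fun d => d ∉ M) (t := X) (g := G.pi)
      (fun d hd => (mem_bd.1 (mem_filter.1 hd).1).2.1),
    ← sum_fiberwise_of_maps_to (s := G.uF F M X) (t := X) (g := G.pi)
      (fun d hd => (mem_uF.1 hd).2.2), ← sum_add_distrib, ← sum_add_distrib]
  refine sum_congr rfl fun v hv => ?_
  have hvf := hX.sub hv
  obtain ⟨n, hn⟩ := card_eq_one.1 (hM.one v (hXW hv))
  have hn1 : n ∈ M.filter fun d => G.pi d = v := by rw [hn]; exact mem_singleton_self n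
  obtain ⟨hnM, hnv⟩ := mem_filter.1 hn1
  have huniq : ∀ d ∈ M, G.pi d = v → d = n := by
    intro d hd h
    have : d ∈ M.filter fun d => G.pi d = v := mem_filter.2 ⟨hd, h⟩
    rwa [hn, mem_singleton] at this
  have hF1 : n ∈ F → ((G.uF F M X).filter fun d => G.pi d = v) = {n} := by
    intro h
    ext d
    rw [mem_filter, mem_uF, mem_singleton]
    constructor
    · rintro ⟨⟨h1, -, -⟩, h2⟩
      exact huniq d h1 h2
    · rintro rfl
      exact ⟨⟨hnM, h, by rw [hnv]; exact hv⟩, hnv⟩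
  have hF0 : n ∉ F → ((G.uF F M X).filter fun d => G.pi d = v) = ∅ := by
    intro h
    rw [filter_eq_empty_iff]
    intro d hd h2
    obtain ⟨h1, h3, -⟩ := mem_uF.1 hd
    exact h (huniq d h1 h2 ▸ h3)
  have hbF : ∀ d ∈ G.bd X, d ∉ F := fun d hd h =>
    (mem_bd.1 hd).2.2 (hX.clo d h (mem_bd.1 hd).2.1)
  by_cases hj : v ∈ jm
  · have hnF : n ∈ F := hF.j0 v hj n (mem_st.2 ⟨(hM.sub n hnM).1, hnv⟩)
    have hJ0 : ((G.uJ F M X).filter fun d => G.pi d = v) = ∅ := by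
      rw [filter_eq_empty_iff]
      intro d hd h2
      obtain ⟨h1, h3, -⟩ := mem_uJ.1 hd
      exact h3 (hF.j0 v hj d (mem_st.2 ⟨h1, h2⟩))
    have hB0 : (((G.bd X).filter fun d => d ∉ M).filter fun d => G.pi d = v) = ∅ := by
      rw [filter_eq_empty_iff]
      intro d hd h2
      have h1 := (mem_filter.1 hd).1
      exact hbF d h1 (hF.j0 v hj d (mem_st.2 ⟨(mem_bd.1 h1).1, h2⟩))
    rw [hJ0, hB0, sum_empty, if_pos hj, zero_add, zero_add, hF1 hnF, sum_singleton, hnv]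
  · obtain ⟨j, hj1, hj2, hj3, hj4⟩ := hF.exists_jd hvf hj
    rw [if_neg hj, add_zero]
    by_cases hjM : j ∈ M
    · have hnj : j = n := huniq j hjM hj2
      have hJ0 : ((G.uJ F M X).filter fun d => G.pi d = v) = ∅ := by
        rw [filter_eq_empty_iff]
        intro d hd h2
        obtain ⟨h1, h3, h4, -⟩ := mem_uJ.1 hd
        exact h4 (hj4 d h1 h2 h3 ▸ hjM)
      have hB0 : (((G.bd X).filter fun d => d ∉ M).filter fun d => G.pi d = v) = ∅ := by
        rw [filter_eq_empty_iff]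
        intro d hd h2
        obtain ⟨h1, h4⟩ := mem_filter.1 hd
        exact h4 (hj4 d (mem_bd.1 h1).1 h2 (hbF d h1) ▸ hjM)
      rw [hJ0, hB0, sum_empty, add_zero, hF0 (hnj ▸ hj3), sum_empty]
    · have hnF : n ∈ F := by
        by_contra h
        exact hjM (hj4 n (hM.sub n hnM).1 hnv h ▸ hnM)
      rw [hF1 hnF, sum_singleton, hnv]
      by_cases hjX : G.pi (G.al j) ∈ X
      · have hJ1 : ((G.uJ F M X).filter fun d => G.pi d = v) = {j} := by
          ext d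
          rw [mem_filter, mem_uJ, mem_singleton]
          constructor
          · rintro ⟨⟨h1, h3, -⟩, h2⟩
            exact hj4 d h1 h2 h3
          · rintro rfl
            exact ⟨⟨hj1, hj3, hjM, by rw [hj2]; exact hv, hjX⟩, hj2⟩
        have hB0 : (((G.bd X).filter fun d => d ∉ M).filter fun d => G.pi d = v) = ∅ := by
          rw [filter_eq_empty_iff]
          intro d hd h2
          obtain ⟨h1, h4⟩ := mem_filter.1 hd
          have h5 := hj4 d (mem_bd.1 h1).1 h2 (hbF d h1)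
          rw [h5] at h1
          exact (mem_bd.1 h1).2.2 hjX
        rw [hJ1, hB0, sum_singleton, sum_empty, add_zero, hj2]
      · have hJ0 : ((G.uJ F M X).filter fun d => G.pi d = v) = ∅ := by
          rw [filter_eq_empty_iff]
          intro d hd h2
          obtain ⟨h1, h3, h4, h5, h6⟩ := mem_uJ.1 hd
          rw [hj4 d h1 h2 h3] at h6
          exact hjX h6
        have hB1 : (((G.bd X).filter fun d => d ∉ M).filter fun d => G.pi d = v) = {j} := by
          ext d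
          rw [mem_filter, mem_filter, mem_singleton]
          constructor
          · rintro ⟨⟨h1, -⟩, h2⟩
            exact hj4 d (mem_bd.1 h1).1 h2 (hbF d h1)
          · rintro rfl
            exact ⟨⟨mem_bd.2 ⟨hj1, by rw [hj2]; exact hv, hjX⟩, hjM⟩, hj2⟩
        rw [hJ0, hB1, sum_singleton, sum_empty, zero_add, hj2]

/-- **LINK LAW FOR HALVES**: the value 1 at all unused boundary darts of a union: there are none, and
no star vertex -/
theorem EK.link (h : EK G k t fr F jm) (hf : G.HPot one1 t F W f) (hM : G.HM W M)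
    (hXW : X ⊆ W) (hX : G.Adm fr F X) (h1 : ∀ d ∈ G.bd X, d ∉ M → f (G.pi d) = 1) :
    (G.bd X).filter (fun d => d ∉ M) = ∅ ∧ X ∩ jm = ∅ := by
  have hF := h.fresh
  have c := hF.countH hM hXW hX f
  have s1 := sum_symm (G := G) (S := G.uJ F M X) (z := fun _ => 1)
    (fun d hd => (mem_uJ.1 hd).1) (fun d hd => uJ_alH hF hM hXW hd) (fun _ _ => rfl) f
  have s2 := sum_symm (G := G) (S := G.uF F M X) (z := fun _ => 1)
    (fun d hd => (hM.sub d (mem_uF.1 hd).1).1) (fun d hd => uF_alH hF hM hXW hX hd)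
    (fun _ _ => rfl) f
  simp only [one_mul] at s1 s2
  have e1 : ∑ d ∈ G.uJ F M X, (f (G.pi d) + f (G.pi (G.al d))) = 0 := by
    refine sum_eq_zero fun d hd => ?_
    obtain ⟨k1, k2, k3, k4, k5⟩ := mem_uJ.1 hd
    exact hf.jq d k1 (hXW k4) (hXW k5) zero_lt_one k2
  have e2 : ∑ d ∈ G.uF F M X, (f (G.pi d) + f (G.pi (G.al d))) ≤ 0 := by
    refine sum_nonpos fun d hd => ?_
    obtain ⟨k1, k2, k3⟩ := mem_uF.1 hd
    exact hf.kk d k2 (hXW k3) (hXW (hX.clo d k2 k3))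
  have e3 : ∑ v ∈ X ∩ jm, f v = ((X ∩ jm).card : ℝ) := by
    rw [sum_congr rfl fun v hv => hf.tok v (hXW (mem_inter.1 hv).1) (by
      rw [h.tok_fr (hX.sub (mem_inter.1 hv).1), if_pos (mem_inter.1 hv).2]
      norm_num), sum_const, nsmul_eq_mul, mul_one]
  have e4 : ∑ d ∈ (G.bd X).filter (fun d => d ∉ M), f (G.pi d) =
      (((G.bd X).filter fun d => d ∉ M).card : ℝ) := by
    rw [sum_congr rfl fun d hd => h1 d (mem_filter.1 hd).1 (mem_filter.1 hd).2, sum_const,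
      nsmul_eq_mul, mul_one]
  have n1 : (0 : ℝ) ≤ (((G.bd X).filter fun d => d ∉ M).card : ℝ) := Nat.cast_nonneg _
  have n2 : (0 : ℝ) ≤ ((X ∩ jm).card : ℝ) := Nat.cast_nonneg _
  have h3 : (((G.bd X).filter fun d => d ∉ M).card : ℝ) = 0 := by linarith
  have h4 : ((X ∩ jm).card : ℝ) = 0 := by linarith
  exact ⟨card_eq_zero.1 (by exact_mod_cast h3), card_eq_zero.1 (by exact_mod_cast h4)⟩

/-! ## Patterns -/

/-- a single of the outer side -/
def SOut (G : MG V D) (fr : Finset V) (F : Finset D) (jm A : Finset V) (d : D) : Prop :=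
  ∃ M, G.GHalf one1 fr F jm A M ∧ G.Sg A M d

/-- a triple of the outer side -/
def TOut (G : MG V D) (fr : Finset V) (F : Finset D) (jm A : Finset V) (d : D) : Prop :=
  ∃ M, G.GHalf one1 fr F jm A M ∧ G.Tr A M d

/-- a single of the inner side -/
def SIn (G : MG V D) (fr : Finset V) (F : Finset D) (jm A : Finset V) (d : D) : Prop :=
  ∃ M, G.GHalf one1 fr F jm (G.vs \ A) M ∧ G.Sg (G.vs \ A) M (G.al d)

/-- a triple of the inner side -/
def TIn (G : MG V D) (fr : Finset V) (F : Finset D) (jm A : Finset V) (d : D) : Prop :=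
  ∃ M, G.GHalf one1 fr F jm (G.vs \ A) M ∧ G.Tr (G.vs \ A) M (G.al d)

/-- a single of the inner side, for every pair of specials -/
def SAll (G : MG V D) (fr : Finset V) (F : Finset D) (jm A : Finset V) (d : D) : Prop :=
  G.SIn fr F jm A d ∧ ∀ T S, G.Spc fr jm A T S → d ∉ T →
    ∃ M, G.GHalf one1 fr F jm (G.vs \ A) M ∧ G.Sg (G.vs \ A) M (G.al d) ∧
      G.LkS fr F (G.vs \ A) M (T.image G.al) S

/-- half of a certificate on the inner side: `a` at the killed exit, `c` at the others -/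
def CIn (G : MG V D) (t : V → ℝ) (F : Finset D) (A : Finset V) (e : D) (a c : ℝ) : Prop :=
  ∃ f, G.HPot one1 t F (G.vs \ A) f ∧ f (G.pi (G.al e)) = a ∧
    ∀ d ∈ G.bd A, d ≠ e → f (G.pi (G.al d)) = c

/-- half of a certificate on the outer side -/
def COut (G : MG V D) (t : V → ℝ) (F : Finset D) (A : Finset V) (e : D) (a c : ℝ) : Prop :=
  ∃ f, G.HPot one1 t F A f ∧ f (G.pi e) = a ∧ ∀ d ∈ G.bd A, d ≠ e → f (G.pi d) = c

/-- the opposite dart is on the other side -/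
theorem bd_al (_hA : A ⊆ G.vs) (hd : d ∈ G.bd A) : G.al d ∈ G.bd (G.vs \ A) := by
  obtain ⟨h1, h2, h3⟩ := mem_bd.1 hd
  refine mem_bd.2 ⟨G.al_mem d h1, mem_sdiff.2 ⟨G.pi_mem _ (G.al_mem d h1), h3⟩, ?_⟩
  rw [G.al_al d h1]
  exact fun h => (mem_sdiff.1 h).2 h2

theorem bd_al' (_hA : A ⊆ G.vs) (hd : d ∈ G.bd (G.vs \ A)) : G.al d ∈ G.bd A := by
  obtain ⟨h1, h2, h3⟩ := mem_bd.1 hd
  refine mem_bd.2 ⟨G.al_mem d h1, ?_, ?_⟩
  · by_contra h4
    exact h3 (mem_sdiff.2 ⟨G.pi_mem _ (G.al_mem d h1), h4⟩)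
  · rw [G.al_al d h1]
    exact (mem_sdiff.1 h2).2

theorem al_eq {x y : D} (hx : x ∈ G.ds) (hy : y ∈ G.ds) : G.al x = G.al y ↔ x = y :=
  ⟨fun h => by rw [← G.al_al x hx, h, G.al_al y hy], fun h => by rw [h]⟩

theorem Sg.fit (hA : A ⊆ G.vs) (h2 : G.Sg A M2 d) (h1 : G.Sg (G.vs \ A) M1 (G.al d)) :
    ∀ x ∈ G.bd A, x ∈ M2 ↔ G.al x ∈ M1 := by
  intro x hx
  rw [h2.2 x hx, h1.2 _ (bd_al hA hx), al_eq (mem_bd.1 hx).1 (mem_bd.1 h2.1).1]

theorem Tr.fit (hA : A ⊆ G.vs) (h2 : G.Tr A M2 d) (h1 : G.Tr (G.vs \ A) M1 (G.al d)) :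
    ∀ x ∈ G.bd A, x ∈ M2 ↔ G.al x ∈ M1 := by
  intro x hx
  rw [h2.2 x hx, h1.2 _ (bd_al hA hx), Ne, Ne, al_eq (mem_bd.1 hx).1 (mem_bd.1 h2.1).1]

namespace X6

/-- two fitting halves of certificates -/
theorem no_join (h : X6 G t fr F jm) (hf : G.HPot one1 t F A f)
    (hg : G.HPot one1 t F (G.vs \ A) g)
    (hx : ∀ d ∈ G.bd A, f (G.pi d) + g (G.pi (G.al d)) = 0) : False :=
  h.nc ⟨_, hf.join hg (fun _ _ => rfl) h.fresh.Fsub h.fresh.Fal
    (fun d hd _ _ => hx d hd) fun d hd _ => (hx d hd).le⟩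

theorem no_cc (h : X6 G t fr F jm) {a c : ℝ} (h1 : G.CIn t F A e (-a) (-c))
    (h2 : G.COut t F A e a c) : False := by
  obtain ⟨g, g1, g2, g3⟩ := h1
  obtain ⟨f, f1, f2, f3⟩ := h2
  refine h.no_join f1 g1 fun d hd => ?_
  by_cases he : d = e
  · rw [he, f2, g2]
    ring
  · rw [f3 d hd he, g3 d hd he]
    ring

/-- the mean of two inner halves -/
theorem cin_avg {a c a' c' : ℝ} (h1 : G.CIn t F A e a c) (h2 : G.CIn t F A e a' c') :
    G.CIn t F A e ((a + a') / 2) ((c + c') / 2) := by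
  obtain ⟨g, g1, g2, g3⟩ := h1
  obtain ⟨f, f1, f2, f3⟩ := h2
  exact ⟨_, g1.avg f1, by rw [g2, f2], fun d hd he => by rw [g3 d hd he, f3 d hd he]⟩

theorem cout_avg {a c a' c' : ℝ} (h1 : G.COut t F A e a c) (h2 : G.COut t F A e a' c') :
    G.COut t F A e ((a + a') / 2) ((c + c') / 2) := by
  obtain ⟨g, g1, g2, g3⟩ := h1
  obtain ⟨f, f1, f2, f3⟩ := h2
  exact ⟨_, g1.avg f1, by rw [g2, f2], fun d hd he => by rw [g3 d hd he, f3 d hd he]⟩

/-- **the link law makes one inner half enough** -/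
theorem ll (h : X6 G t fr F jm) (hA : A ⊆ G.vs) (heb : e ∈ G.bd A) {a : ℝ}
    (h1 : G.SIn fr F jm A e)
    (h2 : G.CIn t F A e a 1) : G.SAll fr F jm A e := by
  refine ⟨h1, fun T S hT he => ?_⟩
  obtain ⟨M, m1, m2⟩ := h1
  obtain ⟨f, f1, f2, f3⟩ := h2
  refine ⟨M, m1, m2, fun X hX hXW hcl hc => ?_⟩
  obtain ⟨hT1, hT2, hT3⟩ := hT
  have hl := h.toEK.link f1 m1.hm hXW hX fun x hx hxM => by
    rcases hcl x hx with h3 | h3
    · exact absurd h3 hxM
    · obtain ⟨y, hy, rfl⟩ := mem_image.1 h3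
      exact f3 y (hT1 hy) fun h4 => he (h4 ▸ hy)
  have hTn : T.Nonempty := by
    rw [← card_pos]
    rcases hT3 with h3 | h3
    · omega
    · omega
  obtain ⟨x, hx⟩ := hTn
  have hxb := bd_al hA (hT1 hx)
  have hxX := hc.1 (G.al x) (mem_image_of_mem _ hx)
  have h3 : G.al x ∈ (G.bd X).filter fun d => d ∉ M := by
    refine mem_filter.2 ⟨mem_bd.2 ⟨(mem_bd.1 hxb).1, hxX, fun h4 =>
      (mem_bd.1 hxb).2.2 (hXW h4)⟩, fun h4 => ?_⟩
    have h5 := (m2.2 _ hxb).1 h4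
    rw [al_eq (mem_bd.1 (hT1 hx)).1 (mem_bd.1 heb).1] at h5
    exact he (h5 ▸ hx)
  rw [hl.1] at h3
  exact notMem_empty _ h3

end X6

/-! ## Counting tokens -/

namespace BW

variable (b : BW G t F A e)
include b

theorem bd_tok : ((G.bd A).card : ℝ) + ∑ v ∈ G.vs \ A, t v = 5 := by
  have h1 := b.val
  rw [val_one] at h1
  have h2 : (G.bd (G.vs \ A)).card = (G.bd A).card := by
    refine card_bij (fun d _ => G.al d) ?_ ?_ ?_
    · intro d hd
      exact bd_al' b.hA hd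
    · intro d hd d' hd' hdd
      exact (al_eq (mem_bd.1 hd).1 (mem_bd.1 hd').1).1 hdd
    · intro d hd
      exact ⟨G.al d, bd_al b.hA hd, G.al_al d (mem_bd.1 hd).1⟩
  rw [← h2]
  exact h1

theorem bd4 : (G.bd A).card ≤ 4 := by
  have h1 := b.bd_tok
  have h2 := b.tok
  have h3 : ((G.bd A).card : ℝ) ≤ ((4 : ℕ) : ℝ) := by
    push_cast
    linarith
  exact_mod_cast h3

/-- a real token in `W` and the star vertices in `W` -/
theorem real (h : EK G 6 t fr F jm) (hy : ∃ y ∈ G.vs \ A, y ∉ fr ∧ 1 ≤ t y) :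
    (G.bd A).card + 1 + (jm \ A).card ≤ 5 := by
  obtain ⟨y, hy1, hy2, hy3⟩ := hy
  have h1 := b.bd_tok
  have h2 : insert y (jm \ A) ⊆ G.vs \ A := by
    intro v hv
    rcases mem_insert.1 hv with h3 | h3
    · rw [h3]
      exact hy1
    · obtain ⟨h4, h5⟩ := mem_sdiff.1 h3
      exact mem_sdiff.2 ⟨h.fresh.fsub (h.fresh.jms h4), h5⟩
  have h3 : ∑ v ∈ insert y (jm \ A), t v ≤ ∑ v ∈ G.vs \ A, t v :=
    sum_le_sum_of_subset_of_nonneg h2 fun v hv _ => h.t0 v (mem_sdiff.1 hv).1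
  have h4 : y ∉ jm \ A := fun h5 => hy2 (h.fresh.jms (mem_sdiff.1 h5).1)
  rw [sum_insert h4, sum_congr rfl fun v hv => (by
    rw [h.tok_fr (h.fresh.jms (mem_sdiff.1 hv).1), if_pos (mem_sdiff.1 hv).1] : t v = 1),
    sum_const, nsmul_eq_mul, mul_one] at h3
  have h5 : (((G.bd A).card + 1 + (jm \ A).card : ℕ) : ℝ) ≤ ((5 : ℕ) : ℝ) := by
    push_cast
    linarith
  exact_mod_cast h5

theorem jmA (h : EK G 6 t fr F jm) (hy : ∃ y ∈ G.vs \ A, y ∉ fr ∧ 1 ≤ t y)
    (h4 : (G.bd A).card = 4) : jm ⊆ A := by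
  have h1 := b.real h hy
  have h2 : (jm \ A).card = 0 := by omega
  exact sdiff_eq_empty_iff_subset.1 (card_eq_zero.1 h2)

end BW

/-- number of unused exits of a single -/
theorem Sg.unused (h : G.Sg A M d) : ((G.bd A).filter fun x => x ∉ M).card + 1 = (G.bd A).card := by
  have h1 : (G.bd A).filter (fun x => x ∉ M) = (G.bd A).erase d := by
    ext x
    rw [mem_filter, mem_erase]
    constructor
    · rintro ⟨h2, h3⟩
      exact ⟨fun h4 => h3 ((h.2 x h2).2 h4), h2⟩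
    · rintro ⟨h2, h3⟩
      exact ⟨h3, fun h4 => h2 ((h.2 x h3).1 h4)⟩
  rw [h1, card_erase_add_one h.1]

theorem Tr.unused (h : G.Tr A M d) : (G.bd A).filter (fun x => x ∉ M) = {d} := by
  ext x
  rw [mem_filter, mem_singleton]
  constructor
  · rintro ⟨h2, h3⟩
    by_contra h4
    exact h3 ((h.2 x h2).2 h4)
  · rintro rfl
    exact ⟨h.1, fun h4 => (h.2 x h.1).1 h4 rfl⟩

namespace X6

/-- singles are not on both sides -/
theorem glueSg (h : X6 G t fr F jm) (b : BW G t F A e)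
    (hy : ∃ y ∈ G.vs \ A, y ∉ fr ∧ 1 ≤ t y) (h2 : G.SOut fr F jm A d)
    (h1 : G.SAll fr F jm A d) : False := by
  obtain ⟨M2, m1, m2⟩ := h2
  have c1 := m2.unused
  have c2 := b.real h.toEK hy
  have c3 := b.bd4
  refine h.no_glueT m1 (by omega) ?_ b.hF ?_ ?_
  · by_cases hj : jm ⊆ A
    · exact Or.inl hj
    · right
      have c4 : 0 < (jm \ A).card := by
        rw [card_pos, nonempty_iff_ne_empty]
        exact fun h4 => hj (sdiff_eq_empty_iff_subset.1 h4)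
      have c5 := card_inter_add_card_sdiff jm A
      have c6 : jm.card ≤ 2 := by
        rcases h.jm2 with h4 | h4
        · rw [h4, card_empty]
          exact Nat.zero_le _
        · exact h4.le
      omega
  · obtain ⟨M1, n1, n2⟩ := h1.1
    exact ⟨M1, n1, m2.fit b.hA n2⟩
  · intro T S hT hu
    obtain ⟨M1, n1, n2, n3⟩ := h1.2 T S hT fun hd => hu d hd ((m2.2 d m2.1).2 rfl)
    exact ⟨M1, n1, m2.fit b.hA n2, n3⟩

/-- triples are not on both sides -/
theorem glueTr (h : X6 G t fr F jm) (b : BW G t F A e)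
    (hy : ∃ y ∈ G.vs \ A, y ∉ fr ∧ 1 ≤ t y) (h4 : (G.bd A).card = 4)
    (h2 : G.TOut fr F jm A d) (h1 : G.TIn fr F jm A d) : False := by
  obtain ⟨M2, m1, m2⟩ := h2
  obtain ⟨M1, n1, n2⟩ := h1
  have hj := b.jmA h.toEK hy h4
  refine h.no_glueT m1 ?_ (Or.inl hj) b.hF ⟨M1, n1, m2.fit b.hA n2⟩ ?_
  · rw [m2.unused, card_singleton]
    norm_num
  · intro T S hT hu
    exfalso
    have h5 : T ⊆ {d} := by
      rw [← m2.unused]
      exact fun x hx => mem_filter.2 ⟨hT.1 hx, hu x hx⟩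
    have h6 := card_le_card h5
    rw [card_singleton] at h6
    rcases hT.2.2 with h7 | h7
    · omega
    · obtain ⟨v, hv⟩ := h7.2.2.2
      exact (mem_sdiff.1 hv).2 (hj (mem_sdiff.1 hv).1)

/-- **A BLOCKED STEP WITH `2 ≤ t(W)`** (at most three exits) -/
theorem w2 [Infinite V] (h : X6 G t fr F jm) (b : BW G t F A e)
    (hy : ∃ y ∈ G.vs \ A, y ∉ fr ∧ 1 ≤ t y) (h3 : (G.bd A).card ≤ 3)
    (hI1 : ∀ d ∈ G.bd A, d ≠ e → G.SAll fr F jm A d)
    (hIn : G.SAll fr F jm A e ∨ G.CIn t F A e (-1) 1)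
    (hP : ∃ d, G.SOut fr F jm A d) : False := by
  have no : ∀ d, d ≠ e → ¬ G.SOut fr F jm A d := fun d hd h1 => by
    have h2 : d ∈ G.bd A := by
      obtain ⟨M, -, m2⟩ := h1
      exact m2.1
    exact h.glueSg b hy h1 (hI1 d h2 hd)
  rcases h.out b with ⟨M, m1, d, m2, m3⟩ | ⟨f, w, f1, f2, f3, -, f5⟩
  · exact no d m2 ⟨M, m1, m3⟩
  · rcases hIn with h1 | h1
    · obtain ⟨d, hd⟩ := hP
      by_cases hde : d = e
      · rw [hde] at hd
        exact h.glueSg b hy hd h1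
      · exact no d hde hd
    · refine h.no_cc (a := 1) (c := -1) (by rwa [neg_neg]) ⟨f, f1, f2, fun d hd hde => ?_⟩
      rw [f3 d hd hde, f5 h3]

/-- **A BLOCKED STEP WITH `t(W) = 1`** (four exits); `Bad p q`: the instance `I3(pq)` is not strict -/
theorem w1 [Infinite V] (h : X6 G t fr F jm) (b : BW G t F A e)
    (hy : ∃ y ∈ G.vs \ A, y ∉ fr ∧ 1 ≤ t y) (h4 : (G.bd A).card = 4)
    (hI1 : ∀ d ∈ G.bd A, d ≠ e → G.SAll fr F jm A d)
    (hIn : G.SAll fr F jm A e ∨ G.CIn t F A e (-1) 1)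
    (hG : (∃ d, G.SOut fr F jm A d) ∨ G.COut t F A e 1 1)
    (hL : ∀ p ∈ G.bd A, ∀ q ∈ G.bd A, p ≠ e → q ≠ e → p ≠ q →
      (∃ d, d ≠ e ∧ G.SOut fr F jm A d) ∨ G.TOut fr F jm A p ∨ G.TOut fr F jm A q ∨
        G.COut t F A e 1 (-1))
    (hPe : ∀ p ∈ G.bd A, ∀ q ∈ G.bd A, p ≠ q →
      (∃ d, G.SOut fr F jm A d) ∨ G.TOut fr F jm A p ∨ G.TOut fr F jm A q)
    (Bad : D → D → Prop)
    (hI3 : ∀ p ∈ G.bd A, ∀ q ∈ G.bd A, p ≠ q → ¬ Bad p q →
      G.TIn fr F jm A p ∨ G.TIn fr F jm A q ∨ G.CIn t F A e (-1) (-1))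
    (hB : ∀ i ∈ G.bd A, ∀ j ∈ G.bd A, ∀ k ∈ G.bd A, i ≠ e → j ≠ e → k ≠ e → i ≠ j → i ≠ k →
      j ≠ k → Bad i j → G.TIn fr F jm A i ∨ G.TIn fr F jm A j ∨ G.CIn t F A e (-1) (-1) ∨
        (G.TIn fr F jm A k → G.SIn fr F jm A e))
    (hPath : ∀ p ∈ G.bd A, ∀ q ∈ G.bd A, ∀ r ∈ G.bd A, p ≠ q → p ≠ r → q ≠ r →
      ¬ (Bad p q ∧ Bad p r ∧ Bad q r)) : False := by
  have no : ∀ d, d ≠ e → ¬ G.SOut fr F jm A d := fun d hd h1 => by
    have h2 : d ∈ G.bd A := by
      obtain ⟨M, -, m2⟩ := h1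
      exact m2.1
    exact h.glueSg b hy h1 (hI1 d h2 hd)
  have nT : ∀ d, G.TOut fr F jm A d → ¬ G.TIn fr F jm A d := fun d h1 h2 =>
    h.glueTr b hy h4 h1 h2
  by_cases hS : G.SAll fr F jm A e
  · -- no single outside
    have noS : ¬ ∃ d, G.SOut fr F jm A d := by
      rintro ⟨d, hd⟩
      by_cases hde : d = e
      · rw [hde] at hd
        exact h.glueSg b hy hd hS
      · exact no d hde hd
    have hm : G.COut t F A e 1 1 := hG.resolve_left noS
    have nc3 : ¬ G.CIn t F A e (-1) (-1) := fun h1 => h.no_cc h1 hm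
    have hTo : ∀ p ∈ G.bd A, ∀ q ∈ G.bd A, p ≠ q → G.TOut fr F jm A p ∨ G.TOut fr F jm A q :=
      fun p hp q hq hpq => (hPe p hp q hq hpq).resolve_left noS
    obtain ⟨d0, hd0, hd1⟩ : ∃ d0 ∈ G.bd A, ∀ d ∈ G.bd A, d ≠ d0 → G.TOut fr F jm A d := by
      by_cases hall : ∀ d ∈ G.bd A, G.TOut fr F jm A d
      · exact ⟨e, b.he, fun d hd _ => hall d hd⟩
      · push Not at hall
        obtain ⟨d0, h1, h2⟩ := hall
        exact ⟨d0, h1, fun d hd hne => (hTo d hd d0 h1 hne).resolve_right h2⟩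
    have c1 : ((G.bd A).erase d0).card = 3 := by
      rw [card_erase_of_mem hd0, h4]
    obtain ⟨x, y, z, hxy, hxz, hyz, hxyz⟩ := card_eq_three.1 c1
    have mx : x ∈ (G.bd A).erase d0 := by rw [hxyz]; simp
    have my : y ∈ (G.bd A).erase d0 := by rw [hxyz]; simp
    have mz : z ∈ (G.bd A).erase d0 := by rw [hxyz]; simp
    obtain ⟨x1, x2⟩ := mem_erase.1 mx
    obtain ⟨y1, y2⟩ := mem_erase.1 my
    obtain ⟨z1, z2⟩ := mem_erase.1 mz
    have hb : ∀ p ∈ G.bd A, ∀ q ∈ G.bd A, p ≠ d0 → q ≠ d0 → p ≠ q → Bad p q := by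
      intro p hp q hq h1 h2 h3
      by_contra h5
      rcases hI3 p hp q hq h3 h5 with h6 | h6 | h6
      · exact nT p (hd1 p hp h1) h6
      · exact nT q (hd1 q hq h2) h6
      · exact nc3 h6
    exact hPath x x2 y y2 z z2 hxy hxz hyz ⟨hb x x2 y y2 x1 y1 hxy, hb x x2 z z2 x1 z1 hxz,
      hb y y2 z z2 y1 z1 hyz⟩
  · have hc : G.CIn t F A e (-1) 1 := hIn.resolve_left hS
    have nSI : ¬ G.SIn fr F jm A e := fun h1 => hS (h.ll b.hA b.he h1 hc)
    have ncL : ¬ G.COut t F A e 1 (-1) := fun h1 => h.no_cc (by rwa [neg_neg]) h1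
    have nc3 : ¬ G.CIn t F A e (-1) (-1) := by
      intro h1
      rcases h.out b with ⟨M, m1, d, m2, m3⟩ | ⟨f, w, f1, f2, f3, f4, -⟩
      · exact no d m2 ⟨M, m1, m3⟩
      · rcases f4 with rfl | rfl | rfl
        · exact ncL ⟨f, f1, f2, f3⟩
        · have h2 := cin_avg hc h1
          refine h.no_cc (a := 1) (c := 0) ?_ ⟨f, f1, f2, fun d hd hde => by
            rw [f3 d hd hde, neg_zero]⟩
          have e1 : ((-1 : ℝ) + -1) / 2 = -1 := by norm_num
          have e2 : ((1 : ℝ) + -1) / 2 = -0 := by norm_num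
          rwa [e1, e2] at h2
        · exact h.no_cc (a := 1) (c := 1) h1 ⟨f, f1, f2, fun d hd hde => by
            rw [f3 d hd hde, neg_neg]⟩
    have noL : ¬ ∃ d, d ≠ e ∧ G.SOut fr F jm A d := fun ⟨d, h1, h2⟩ => no d h1 h2
    have hTo : ∀ p ∈ G.bd A, ∀ q ∈ G.bd A, p ≠ e → q ≠ e → p ≠ q →
        G.TOut fr F jm A p ∨ G.TOut fr F jm A q := by
      intro p hp q hq h1 h2 h3
      rcases hL p hp q hq h1 h2 h3 with h5 | h5 | h5 | h5
      · exact absurd h5 noL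
      · exact Or.inl h5
      · exact Or.inr h5
      · exact absurd h5 ncL
    have key : ∀ i ∈ G.bd A, ∀ j ∈ G.bd A, ∀ k ∈ G.bd A, i ≠ e → j ≠ e → k ≠ e → i ≠ j →
        i ≠ k → j ≠ k → G.TOut fr F jm A i → G.TOut fr F jm A j → False := by
      intro i hi j hj k hk ie je ke ij ik jk ti tj
      have ni := nT i ti
      have nj := nT j tj
      have hbij : Bad i j := by
        by_contra h5
        rcases hI3 i hi j hj ij h5 with h6 | h6 | h6
        · exact ni h6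
        · exact nj h6
        · exact nc3 h6
      have tk : G.TIn fr F jm A k := by
        by_cases h5 : Bad i k
        · have h6 : ¬ Bad j k := fun h6 => hPath i hi j hj k hk ij ik jk ⟨hbij, h5, h6⟩
          rcases hI3 j hj k hk jk h6 with h7 | h7 | h7
          · exact absurd h7 nj
          · exact h7
          · exact absurd h7 nc3
        · rcases hI3 i hi k hk ik h5 with h7 | h7 | h7
          · exact absurd h7 ni
          · exact h7
          · exact absurd h7 nc3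
      rcases hB i hi j hj k hk ie je ke ij ik jk hbij with h7 | h7 | h7 | h7
      · exact ni h7
      · exact nj h7
      · exact nc3 h7
      · exact nSI (h7 tk)
    have c1 : ((G.bd A).erase e).card = 3 := by
      rw [card_erase_of_mem b.he, h4]
    obtain ⟨x, y, z, hxy, hxz, hyz, hxyz⟩ := card_eq_three.1 c1
    have mx : x ∈ (G.bd A).erase e := by rw [hxyz]; simp
    have my : y ∈ (G.bd A).erase e := by rw [hxyz]; simp
    have mz : z ∈ (G.bd A).erase e := by rw [hxyz]; simp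
    obtain ⟨x1, x2⟩ := mem_erase.1 mx
    obtain ⟨y1, y2⟩ := mem_erase.1 my
    obtain ⟨z1, z2⟩ := mem_erase.1 mz
    rcases hTo x x2 y y2 x1 y1 hxy with t1 | t1
    · rcases hTo y y2 z z2 y1 z1 hyz with t2 | t2
      · exact key x x2 y y2 z z2 x1 y1 z1 hxy hxz hyz t1 t2
      · exact key x x2 z z2 y y2 x1 z1 y1 hxz hxy hyz.symm t1 t2
    · rcases hTo x x2 z z2 x1 z1 hxz with t2 | t2
      · exact key x x2 y y2 z z2 x1 y1 z1 hxy hxz hyz t2 t1
      · exact key y y2 z z2 x x2 y1 z1 x1 hyz hxy.symm hxz.symm t1 t2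

end X6

end MG

end RH
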