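import Pool.Agent.Lib.RH.TplK

/-! # Outer arc gadget with three fresh vertices

`k3`: fresh `a1`, `a2`, `a3` between the F-ports `f`, `g`, star `a1`, `a2` (adjacent), the third exit `u`
at `a3`. `X6.k3`: `vs - A` is odd of value 5, crossed by the arc, the exits are `f`, `g`, `u`: a matching
of `A` which uses exactly one exit, and the arcs are linked inside `A` if this exit is `u`. -/

set_option autoImplicit false

namespace RH

open Finset Classical

namespace Tpl

def k3 : Tpl 3 2 3 where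
  a := ![0, 1]
  b := ![1, 2]
  pt := ![0, 2, 2]
  tk := ![1, 1, 0]

theorem k3_reg : k3.Reg := by decide

theorem k3_tab : k3.Tab 1 7 n12 (oE n12) (oO 1 univ) where
  t0 := by decide +kernel
  t1 := by decide +kernel
  t2 := by decide +kernel
  t3 := by decide +kernel
  t4 := by decide +kernel

theorem k3_arc : k3.Arc univ {0, 1} univ {0, 1} where
  pe := by decide
  pk := by decide
  two := by decide
  con := by decide
  js := by decide
  one := by decide
  zer := by decide

theorem k3_pat : ∀ m κ, k3.IsPat m κ → κ.card = 1 ∧ (2 ∈ κ → m = {0}) := by decide +kernel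

theorem k3_noC (c : Fin 3 → ℝ) (h1 : c 0 + c 1 ≤ 0) (h2 : ∀ v, k3.tk v ≠ 0 → c v = 1) :
    False := by
  have e2 := h2 0 (by decide)
  have e3 := h2 1 (by decide)
  linarith

end Tpl

namespace MG

variable {V D : Type*} {G : MG V D} {t : V → ℝ} {fr : Finset V} {F K : Finset D}
variable {jm A X Y : Finset V} {f g u : D} {M : Finset D} {z : D → ℝ} {p : V → ℝ} {w : ℕ}
variable {nv ne np : ℕ} {pp : Fin np → D} {s1 e4 o5 : Finset (Finset (Fin np))} {n0 : ℕ}

/-- `vs - A` is odd of value 5 or even of value 4 -/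
structure OBl (G : MG V D) (t : V → ℝ) (A : Finset V) (w : ℕ) : Prop where
  hA : A ⊆ G.vs
  par : (G.vs \ A).card % 2 = w
  two : 2 ≤ (G.vs \ A).card
  val : G.val one1 t (G.vs \ A) = 4 + w

theorem OBlk.obl (b : OBlk G t F A w) : OBl G t A w := ⟨b.hA, b.par, b.two, b.val⟩

/-- the same block, no F-darts -/
theorem OBl.blk (b : OBl G t A w) : OBlk G t ∅ A w :=
  ⟨b.hA, b.par, b.two, b.val, fun _ h => absurd h (notMem_empty _)⟩

/-- forget the circuits -/
theorem EK.forget {k : ℝ} (h : EK G k t fr F jm) : EK G k t ∅ ∅ ∅ where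
  even := h.even
  fresh := by
    refine ⟨empty_subset _, fun d hd => ?_, fun d hd => ?_, fun d hd => ?_, fun v hv => ?_,
      empty_subset _, fun v hv => ?_, fun v hv => ?_, fun _ _ _ => rfl⟩
    · exact absurd hd (notMem_empty _)
    · exact absurd hd (notMem_empty _)
    · exact absurd hd (notMem_empty _)
    · exact absurd hv (notMem_empty _)
    · exact absurd hv (notMem_empty _)
    · exact absurd hv (notMem_empty _)
  jm2 := Or.inl rfl
  deg := h.deg
  t0 := h.t0
  tau := h.tau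
  odd := h.odd
  evn := h.evn
  c6 := fun X hX _ hn => absurd (subset_empty.1 hX.sub) hn.ne_empty

/-- the facts about subsets of the outer side `A`, crossed or not -/
theorem OBl.fact (b : OBl G t A w) (h : EK G 6 t fr F jm)
    (hpp : G.bd A = univ.image pp) (hpi : Function.Injective pp)
    (hn : n0 + w = 2 * np + 2)
    (c1 : ∀ v ∈ A, TOk.kap G pp {v} ∈ s1)
    (c4 : ∀ X ⊆ A, Even X.card → X.Nonempty → X ≠ A → G.val one1 t X = 4 → TOk.kap G pp X ∈ e4)
    (c5 : ∀ X ⊆ A, Odd X.card → X.card ≠ 1 → X ≠ A → G.val one1 t X = 5 →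
      TOk.kap G pp X ∈ o5) : TOk.TFact G t A pp w n0 s1 (Tpl.oE e4) (Tpl.oO w o5) :=
  b.blk.fact h.forget hpp hpi hn c1 c4 c5

theorem OBl.valA (b : OBl G t A w) (h : EK G 6 t fr F jm) (hpp : G.bd A = univ.image pp)
    (hpi : Function.Injective pp) : G.val one1 t A = 2 * np + 2 - w ∧
      ∑ v ∈ A, t v = np + 2 - w :=
  b.blk.valA h.forget hpp hpi

theorem OBl.cardA (b : OBl G t A w) (he : Even G.vs.card) : A.card % 2 = w :=
  b.blk.cardA he

theorem fin3_ne (h1 : f ≠ g) (h2 : f ≠ u) (h3 : g ≠ u) : Function.Injective ![f, g, u] := by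
  intro i j hij
  fin_cases i <;> fin_cases j
  · rfl
  · exact absurd hij h1
  · exact absurd hij h2
  · exact absurd hij.symm h1
  · rfl
  · exact absurd hij h3
  · exact absurd hij.symm h2
  · exact absurd hij.symm h3
  · rfl

theorem img3 : (univ : Finset (Fin 3)).image ![f, g, u] = {f, g, u} := by
  ext d
  rw [mem_image, mem_insert, mem_insert, mem_singleton]
  constructor
  · rintro ⟨i, -, rfl⟩
    fin_cases i
    · exact Or.inl rfl
    · exact Or.inr (Or.inl rfl)
    · exact Or.inr (Or.inr rfl)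
  · rintro (h1 | h1 | h1)
    · exact ⟨0, mem_univ _, h1.symm⟩
    · exact ⟨1, mem_univ _, h1.symm⟩
    · exact ⟨2, mem_univ _, h1.symm⟩

theorem acl3 : Acl G F ![f, g, u] {0, 1} X ↔
    ∀ d ∈ F, G.pi d ∈ X → G.pi (G.al d) ∈ X ∨ d = f ∨ d = g := by
  unfold Acl
  refine forall_congr' fun d => forall_congr' fun _ => forall_congr' fun _ => ?_
  constructor
  · rintro (h1 | ⟨i, hi, h1⟩)
    · exact Or.inl h1
    · rcases mem_insert.1 hi with k | k
      · rw [k] at h1
        exact Or.inr (Or.inl h1.symm)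
      · rw [mem_singleton.1 k] at h1
        exact Or.inr (Or.inr h1.symm)
  · rintro (h1 | h1 | h1)
    · exact Or.inl h1
    · exact Or.inr ⟨0, by decide, h1.symm⟩
    · exact Or.inr ⟨1, by decide, h1.symm⟩

/-- **outer arc gadget**: exactly one exit is used; if it is `u`, the arcs without star vertices are
linked inside `A` -/
theorem X6.k3 [Infinite V] [Infinite D] (h : X6 G t fr F jm) (b : OBl G t A 1)
    (hbd : G.bd A = {f, g, u}) (hfu : f ≠ u)
    (fF : f ∈ F) (gF : g ∈ F) (hfg : G.pi f ≠ G.pi g) (hgu : G.pi g ≠ G.pi u)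
    (h4 : ∀ X ⊆ A, Even X.card → G.val one1 t X = 4 → G.pi g ∈ X → G.pi u ∉ X)
    (h6 : ∀ Y, Arc2 G fr F A f g Y → Odd Y.card → G.pi u ∈ Y → G.val one1 t Y ≠ 5)
    (hB : ∃ B, Arc2 G fr F A f g B ∧ ∀ v ∈ B, v ∉ jm)
    (hsm : (fr ∩ A).card + 3 < fr.card ∨
      ((fr ∩ A).card + 3 ≤ fr.card ∧ A.card + 3 < G.vs.card)) :
    ∃ M, TSol G fr F jm A ![f, g, u] ∅ M ∧ (∃ d ∈ G.bd A, d ∈ M ∧ ∀ d' ∈ G.bd A, d' ∈ M → d' = d) ∧
      (u ∈ M → ∀ Y, Arc2 G fr F A f g Y → (∀ v ∈ Y, v ∉ jm) →
        (∀ d ∈ G.bd Y, d ≠ f → d ≠ g → d ∈ M) → False) := by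
  have hE := h.toEK
  have hne : f ≠ g := fun k => hfg (by rw [k])
  have hgu' : g ≠ u := fun k => hgu (by rw [k])
  have hpi := fin3_ne hne hfu hgu'
  have hpp : G.bd A = univ.image ![f, g, u] := by rw [img3, hbd]
  have hpb : ∀ i, ![f, g, u] i ∈ G.bd A := fun i => by
    rw [hpp]
    exact mem_image_of_mem _ (mem_univ _)
  have n12 : ∀ X : Finset V, ¬ (G.pi g ∈ X ∧ G.pi u ∈ X) →
      TOk.kap G ![f, g, u] X ∈ Tpl.n12 := by
    intro X hX
    unfold Tpl.n12
    refine mem_filter.2 ⟨mem_univ _, fun k => hX ?_⟩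
    unfold TOk.kap at k
    exact ⟨(mem_filter.1 k.1).2, (mem_filter.1 k.2).2⟩
  have hfa := b.fact (s1 := Tpl.n12) (e4 := Tpl.n12) (o5 := univ) (n0 := 7) hE hpp hpi (by norm_num)
    (fun v _ => n12 {v} fun k => hgu ((mem_singleton.1 k.1).trans (mem_singleton.1 k.2).symm))
    (fun X hX he _ _ hv => n12 X fun k => h4 X hX he hv k.1 k.2)
    (fun _ _ _ _ _ _ => mem_univ _)
  have hcA := b.cardA hE.even
  have hev : Even (A.card + 3) := by
    rw [Nat.even_iff]
    omega
  have hdr : (G.bd A).filter (fun d => ∀ i, ![f, g, u] i ≠ d) = ∅ := by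
    rw [filter_eq_empty_iff]
    intro d hd h1
    rw [hpp] at hd
    obtain ⟨i, -, hi⟩ := mem_image.1 hd
    exact h1 i hi
  have ht : ∑ v ∈ A, t v + (((G.bd A).filter fun d => ∀ i, ![f, g, u] i ≠ d).card : ℝ) +
      Tpl.k3.nT univ = 6 := by
    have e4 : Tpl.k3.nT univ = 2 := by decide
    rw [hdr, card_empty, (b.valA hE hpp hpi).2, e4]
    norm_num
  have hF2 : ∀ i ∈ ({0, 1} : Finset (Fin 3)), ![f, g, u] i ∈ F := by
    intro i hi
    rcases mem_insert.1 hi with k | k
    · rw [k]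
      exact fF
    · rw [mem_singleton.1 k]
      exact gF
  have hno : ∀ d, Drop G A ![f, g, u] d → False := by
    intro d hd
    have h1 : d ∈ (G.bd A).filter (fun d => ∀ i, ![f, g, u] i ≠ d) := mem_filter.2 hd
    rw [hdr] at h1
    exact notMem_empty _ h1
  have hpA : ∀ {Y : Finset V}, Arc2 G fr F A f g Y → ∀ i ∈ ({0, 1} : Finset (Fin 3)),
      G.pi (![f, g, u] i) ∈ Y := by
    intro Y hY i hi
    rcases mem_insert.1 hi with k | k
    · rw [k]
      exact hY.mf
    · rw [mem_singleton.1 k]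
      exact hY.mg
  rcases h.tplA (Ts := ∅) b.hA (card_pos.1 (by have := b.two; omega)) Tpl.k3_reg Tpl.k3_tab
    Tpl.k3_arc hpb hpi hfa hev ht hF2 (fun v hv => absurd hv (notMem_empty v))
    (Or.inl (by rw [card_empty]; decide)) (by
      obtain ⟨B, b1, b2⟩ := hB
      exact ⟨B, b1.sub, b1.inA, acl3.2 b1.clo, hpA b1, empty_subset _, fun v hv => Or.inr
        ⟨b2 v hv, fun d hd => (hno d hd).elim⟩⟩)
    (fun Y hY hYA hYc hYp he => by
      have hY2 : Arc2 G fr F A f g Y := ⟨hY, hYA, acl3.1 hYc, hYp 0 (by decide),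
        hYp 1 (by decide)⟩
      have ho : Odd Y.card := by
        have e1 : (univ : Finset (Fin 3)).card = 3 := by decide
        rw [e1, Nat.even_iff] at he
        rw [Nat.odd_iff]
        omega
      have h1 : Y.card ≠ 1 := by
        intro h1
        obtain ⟨v, rfl⟩ := card_eq_one.1 h1
        exact hfg ((mem_singleton.1 hY2.mf).trans (mem_singleton.1 hY2.mg).symm)
      obtain ⟨n, h3, h5⟩ := hE.val_nat (hYA.trans b.hA)
      refine ⟨n, h3, ?_⟩
      have h7 := hE.odd Y (hYA.trans b.hA) ho h1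
      rw [h3] at h7
      have h8 : 5 ≤ n := by exact_mod_cast h7
      have e2 : Tpl.k3.val univ = 5 := by decide
      rw [e2]
      by_cases hu : G.pi u ∈ Y
      · have h9 := h6 Y hY2 ho hu
        rw [h3] at h9
        have h10 : n ≠ 5 := fun k => h9 (by rw [k]; norm_num)
        have e3 : ∀ κ, Tpl.k3.nQ univ κ ≤ 3 := by decide
        have h11 := e3 (TOk.kap G ![f, g, u] Y)
        rw [Nat.odd_iff] at ho
        omega
      · have e3 : ∀ κ, 2 ∉ κ → Tpl.k3.nQ univ κ ≤ 2 := by decide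
        have h11 := e3 (TOk.kap G ![f, g, u] Y) fun k => hu (by
          unfold TOk.kap at k
          exact (mem_filter.1 k).2)
        omega)
    (by
      have e1 : (univ : Finset (Fin 3)).card = 3 := by decide
      rw [e1]
      exact hsm) with ⟨M, m, h1, h2⟩ | ⟨p, c, -, -, -, h5, h7, -, -⟩
  · obtain ⟨e1, e2⟩ := Tpl.k3_pat _ _ h2
    obtain ⟨i, hi⟩ := card_eq_one.1 e1
    refine ⟨M, h1.tsol, ⟨![f, g, u] i, hpb i, ?_, ?_⟩, ?_⟩
    · have h3 : i ∈ (univ.filter fun i => ![f, g, u] i ∈ M) := by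
        rw [hi]
        exact mem_singleton_self _
      exact (mem_filter.1 h3).2
    · intro d hd hdM
      obtain ⟨j, rfl⟩ := h1.ex d hd hdM
      have h3 : j ∈ ({i} : Finset (Fin 3)) := by
        rw [← hi]
        exact mem_filter.2 ⟨mem_univ _, hdM⟩
      rw [mem_singleton.1 h3]
    · intro uM Y hY hYj hcl
      refine (h1.ar Y hY.sub hY.inA (acl3.2 hY.clo) (hpA hY) (fun d hd hi => ?_) (fun v hv => ?_)
        (fun i _ hi => ?_) (fun i hi => ?_)).2 ⟨Or.inr (by decide), empty_subset _⟩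
      · exact Or.inl (hcl d hd (fun k => hi 0 (by decide) k.symm)
          (fun k => hi 1 (by decide) k.symm))
      · exact Or.inr ⟨hYj v hv, fun d hd => (hno d hd).elim⟩
      · right
        have h3 : i = 2 := by
          fin_cases i
          · exact absurd (by decide) hi
          · exact absurd (by decide) hi
          · rfl
        rw [h3]
        exact uM
      · exact absurd (Iff.intro (fun _ => mem_univ _) fun _ => mem_univ _) hi
  · exact (Tpl.k3_noC c (h5 0 (mem_univ _)) h7).elim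

end MG

end RH
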