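import Pool.Agent.Lib.RH.CE6Fc
import Pool.Agent.Lib.RH.CE6W
import Pool.Agent.Lib.RH.TplK2
import Pool.Agent.Lib.RH.TplX

/-! # Tools for row f0

`FrS.countA`: the count of a potential on a set of fresh vertices for a half matching. `EK.link0`: a
closed union of a side with half of a certificate contains no star vertex. `EK.linkArc`: the same for a
closed arc part, if the two F-exits are unused. `X6.btI`: the inner state `W + beta(p)`. `fact_val`: the
facts about subsets of a set of value `n0`. -/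

set_option autoImplicit false

namespace RH

open Finset

namespace Tpl

/-- `alpha(0, 1)` at a set of value 7 -/
theorem al_tab7 : al.Tab 1 7 (univ.filter fun κ => ¬ (0 ∈ κ ∧ 1 ∈ κ))
    (iE (univ.filter fun κ => ¬ (0 ∈ κ ∧ 1 ∈ κ))) (iO univ) where
  t0 := by decide +kernel
  t1 := by decide +kernel
  t2 := by decide +kernel
  t3 := by decide +kernel
  t4 := by decide +kernel

end Tpl

open Classical

namespace MG

variable {V D : Type*} {G : MG V D} {z : D → ℝ} {t : V → ℝ} {k : ℝ}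
variable {fr : Finset V} {F M M1 M2 : Finset D} {jm A U W X Y : Finset V} {p c f : V → ℝ}
variable {g1 g2 : D}

/-- the count of a set of fresh vertices for a half matching -/
theorem FrS.countA (hF : G.FrS z fr F jm) (hM : G.HM W M) (hXW : X ⊆ W) (hX : X ⊆ fr)
    (p : V → ℝ) :
    ∑ d ∈ G.uJ F M X, p (G.pi d) +
      ∑ d ∈ (G.bd X).filter (fun d => d ∉ M ∧ d ∉ F), p (G.pi d) +
      ∑ v ∈ X ∩ jm, p v = ∑ d ∈ G.uF F M X, p (G.pi d) := by
  have e1 : ∑ v ∈ X ∩ jm, p v = ∑ v ∈ X, if v ∈ jm then p v else 0 := by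
    rw [← filter_mem_eq_inter, sum_filter]
  rw [← sum_fiberwise_of_maps_to (s := G.uJ F M X) (t := X) (g := G.pi)
      (fun d hd => (mem_uJ.1 hd).2.2.2.1), e1,
    ← sum_fiberwise_of_maps_to (s := (G.bd X).filter fun d => d ∉ M ∧ d ∉ F) (t := X) (g := G.pi)
      (fun d hd => (mem_bd.1 (mem_filter.1 hd).1).2.1),
    ← sum_fiberwise_of_maps_to (s := G.uF F M X) (t := X) (g := G.pi)
      (fun d hd => (mem_uF.1 hd).2.2), ← sum_add_distrib, ← sum_add_distrib]
  refine sum_congr rfl fun v hv => ?_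
  have hvf := hX hv
  obtain ⟨n, hn⟩ := card_eq_one.1 (hM.one v (hXW hv))
  have hn1 : n ∈ M.filter fun d => G.pi d = v := by rw [hn]; exact mem_singleton_self n
  obtain ⟨hnM, hnv⟩ := mem_filter.1 hn1
  have huniq : ∀ d ∈ M, G.pi d = v → d = n := by
    intro d hd h
    have : d ∈ M.filter fun d => G.pi d = v := mem_filter.2 ⟨hd, h⟩
    rwa [hn, mem_singleton] at this
  have hF1 : n ∈ F → ((G.uF F M X).filter fun d => G.pi d = v) = {n} := by
    intro h
    ext d
    rw [mem_filter, mem_uF, mem_singleton]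
    constructor
    · rintro ⟨⟨h1, -, -⟩, h2⟩
      exact huniq d h1 h2
    · rintro rfl
      exact ⟨⟨hnM, h, by rw [hnv]; exact hv⟩, hnv⟩
  have hF0 : n ∉ F → ((G.uF F M X).filter fun d => G.pi d = v) = ∅ := by
    intro h
    rw [filter_eq_empty_iff]
    intro d hd h2
    obtain ⟨h1, h3, -⟩ := mem_uF.1 hd
    exact h (huniq d h1 h2 ▸ h3)
  by_cases hj : v ∈ jm
  · have hnF : n ∈ F := hF.j0 v hj n (mem_st.2 ⟨(hM.sub n hnM).1, hnv⟩)
    have hJ0 : ((G.uJ F M X).filter fun d => G.pi d = v) = ∅ := by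
      rw [filter_eq_empty_iff]
      intro d hd h2
      obtain ⟨h1, h3, -⟩ := mem_uJ.1 hd
      exact h3 (hF.j0 v hj d (mem_st.2 ⟨h1, h2⟩))
    have hB0 : (((G.bd X).filter fun d => d ∉ M ∧ d ∉ F).filter fun d => G.pi d = v) = ∅ := by
      rw [filter_eq_empty_iff]
      intro d hd h2
      obtain ⟨h1, -, h3⟩ := mem_filter.1 hd
      exact h3 (hF.j0 v hj d (mem_st.2 ⟨(mem_bd.1 h1).1, h2⟩))
    rw [hJ0, hB0, sum_empty, if_pos hj, zero_add, zero_add, hF1 hnF, sum_singleton, hnv]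
  · obtain ⟨j, hj1, hj2, hj3, hj4⟩ := hF.exists_jd hvf hj
    rw [if_neg hj, add_zero]
    by_cases hjM : j ∈ M
    · have hnj : j = n := huniq j hjM hj2
      have hJ0 : ((G.uJ F M X).filter fun d => G.pi d = v) = ∅ := by
        rw [filter_eq_empty_iff]
        intro d hd h2
        obtain ⟨h1, h3, h4, -⟩ := mem_uJ.1 hd
        exact h4 (hj4 d h1 h2 h3 ▸ hjM)
      have hB0 : (((G.bd X).filter fun d => d ∉ M ∧ d ∉ F).filter fun d => G.pi d = v) = ∅ := by
        rw [filter_eq_empty_iff]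
        intro d hd h2
        obtain ⟨h1, h4, h5⟩ := mem_filter.1 hd
        exact h4 (hj4 d (mem_bd.1 h1).1 h2 h5 ▸ hjM)
      rw [hJ0, hB0, sum_empty, add_zero, hF0 (hnj ▸ hj3), sum_empty]
    · have hnF : n ∈ F := by
        by_contra h
        exact hjM (hj4 n (hM.sub n hnM).1 hnv h ▸ hnM)
      rw [hF1 hnF, sum_singleton, hnv]
      by_cases hjX : G.pi (G.al j) ∈ X
      · have hJ1 : ((G.uJ F M X).filter fun d => G.pi d = v) = {j} := by
          ext d
          rw [mem_filter, mem_uJ, mem_singleton]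
          constructor
          · rintro ⟨⟨h1, h3, -⟩, h2⟩
            exact hj4 d h1 h2 h3
          · rintro rfl
            exact ⟨⟨hj1, hj3, hjM, by rw [hj2]; exact hv, hjX⟩, hj2⟩
        have hB0 : (((G.bd X).filter fun d => d ∉ M ∧ d ∉ F).filter fun d => G.pi d = v) = ∅ := by
          rw [filter_eq_empty_iff]
          intro d hd h2
          obtain ⟨h1, h4, h5⟩ := mem_filter.1 hd
          have h6 := hj4 d (mem_bd.1 h1).1 h2 h5
          rw [h6] at h1
          exact (mem_bd.1 h1).2.2 hjX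
        rw [hJ1, hB0, sum_singleton, sum_empty, add_zero, hj2]
      · have hJ0 : ((G.uJ F M X).filter fun d => G.pi d = v) = ∅ := by
          rw [filter_eq_empty_iff]
          intro d hd h2
          obtain ⟨h1, h3, h4, h5, h6⟩ := mem_uJ.1 hd
          rw [hj4 d h1 h2 h3] at h6
          exact hjX h6
        have hB1 : (((G.bd X).filter fun d => d ∉ M ∧ d ∉ F).filter fun d => G.pi d = v) =
            {j} := by
          ext d
          rw [mem_filter, mem_filter, mem_singleton]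
          constructor
          · rintro ⟨⟨h1, -, h3⟩, h2⟩
            exact hj4 d (mem_bd.1 h1).1 h2 h3
          · rintro rfl
            exact ⟨⟨mem_bd.2 ⟨hj1, by rw [hj2]; exact hv, hjX⟩, hjM, hj3⟩, hj2⟩
        rw [hJ0, hB1, sum_singleton, sum_empty, zero_add, hj2]

/-- a closed union on a side with half of a certificate contains no star vertex -/
theorem EK.link0 (h : EK G k t fr F jm) (hf : G.HPot one1 t F W f) (hM : G.HM W M)
    (hXW : X ⊆ W) (hX : G.Adm fr F X) (hcl : ∀ d ∈ G.bd X, d ∈ M) : X ∩ jm = ∅ :=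
  (h.link hf hM hXW hX fun d hd hn => absurd (hcl d hd) hn).2

/-- **a closed arc part on a side with half of a certificate contains no star vertex**, if the two
F-exits are unused -/
theorem EK.linkArc (h : EK G k t fr F jm) (hf : G.HPot one1 t F W f) (hM : G.HM W M)
    (hc : G.FC F W g1 g2) (n1 : g1 ∉ M) (n2 : g2 ∉ M) (hX : G.ArcC fr F M W X g1) :
    X ∩ jm = ∅ := by
  have hF := h.fresh
  have hXW := hX.adm.subZ
  have c := hF.countA hM hXW hX.adm.sub f
  have s1 := sum_symm (G := G) (S := G.uJ F M X) (z := fun _ => 1)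
    (fun d hd => (mem_uJ.1 hd).1) (fun d hd => uJ_alH hF hM hXW hd) (fun _ _ => rfl) f
  have hin : ∀ d ∈ G.uF F M X, G.pi (G.al d) ∈ X := by
    intro d hd
    obtain ⟨k1, k2, k3⟩ := mem_uF.1 hd
    refine hX.adm.clo d k2 k3 ?_
    by_contra hn
    rcases hc.only d k2 (hXW k3) hn with h1 | h1
    · exact n1 (h1 ▸ k1)
    · exact n2 (h1 ▸ k1)
  have s2 := sum_symm (G := G) (S := G.uF F M X) (z := fun _ => 1)
    (fun d hd => (hM.sub d (mem_uF.1 hd).1).1) (fun d hd => by
      obtain ⟨k1, k2, k3⟩ := mem_uF.1 hd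
      have k4 := hin d hd
      exact mem_uF.2 ⟨hM.clo _ k1 (hXW k4), hF.Fal _ k2, k4⟩)
    (fun _ _ => rfl) f
  simp only [one_mul] at s1 s2
  have e1 : ∑ d ∈ G.uJ F M X, (f (G.pi d) + f (G.pi (G.al d))) = 0 := by
    refine sum_eq_zero fun d hd => ?_
    obtain ⟨k1, k2, k3, k4, k5⟩ := mem_uJ.1 hd
    exact hf.jq d k1 (hXW k4) (hXW k5) zero_lt_one k2
  have e2 : ∑ d ∈ G.uF F M X, (f (G.pi d) + f (G.pi (G.al d))) ≤ 0 := by
    refine sum_nonpos fun d hd => ?_
    obtain ⟨k1, k2, k3⟩ := mem_uF.1 hd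
    exact hf.kk d k2 (hXW k3) (hXW (hin d hd))
  have e3 : ∑ v ∈ X ∩ jm, f v = ((X ∩ jm).card : ℝ) := by
    rw [sum_congr rfl fun v hv => hf.tok v (hXW (mem_inter.1 hv).1) (by
      rw [h.tok_fr (hX.adm.sub (mem_inter.1 hv).1), if_pos (mem_inter.1 hv).2]
      norm_num), sum_const, nsmul_eq_mul, mul_one]
  have e4 : (G.bd X).filter (fun d => d ∉ M ∧ d ∉ F) = ∅ :=
    filter_eq_empty_iff.2 fun d hd h1 => h1.1 (hX.cl d hd h1.2)
  rw [e4, sum_empty] at c
  have n2 : (0 : ℝ) ≤ ((X ∩ jm).card : ℝ) := Nat.cast_nonneg _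
  have h4 : ((X ∩ jm).card : ℝ) = 0 := by linarith
  exact card_eq_zero.1 (by exact_mod_cast h4)

/-- the star which is kept on a side -/
theorem exists_ts (j2 : jm = ∅ ∨ jm.card = 2) (A : Finset V) : ∃ Ts : Finset V,
    (Ts = ∅ ∨ Ts.card = 2) ∧ (∀ v ∈ Ts, v ∈ jm) ∧ (Ts = jm ∨ jm = ∅ ∨ ¬ jm ⊆ A) := by
  by_cases h : jm ⊆ A
  · exact ⟨jm, j2, fun v hv => hv, Or.inl rfl⟩
  · exact ⟨∅, Or.inl rfl, fun v hv => absurd hv (notMem_empty v), Or.inr (Or.inr h)⟩

/-- facts about the subsets of a set of value `n0` -/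
theorem fact_val {np n0 w : ℕ} {pp : Fin np → D} {s1 e4 o5 : Finset (Finset (Fin np))}
    (h : EK G 6 t fr F jm) (hA : A ⊆ G.vs) (hv : G.val one1 t A = n0) (hw : A.card % 2 = w)
    (c1 : ∀ v ∈ A, TOk.kap G pp {v} ∈ s1)
    (c4 : ∀ X ⊆ A, Even X.card → X.Nonempty → X ≠ A → G.val one1 t X = 4 → TOk.kap G pp X ∈ e4)
    (c5 : ∀ X ⊆ A, Odd X.card → X.card ≠ 1 → X ≠ A → G.val one1 t X = 5 →
      TOk.kap G pp X ∈ o5) : TOk.TFact G t A pp w n0 s1 (Tpl.iE e4) (Tpl.iO o5) where
  one := c1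
  ev := by
    intro X hX he hXn hXA
    obtain ⟨n, h1, h2⟩ := h.val_nat (hX.trans hA)
    have hXv : X ≠ G.vs := fun e => hXA (subset_antisymm hX (e ▸ hA))
    have h4 : 4 ≤ n := by
      have := h.evn X (hX.trans hA) he hXn hXv
      rw [h1] at this
      exact_mod_cast this
    refine ⟨n, h1, ?_⟩
    unfold Tpl.iE
    by_cases h6 : TOk.kap G pp X ∈ e4
    · rw [if_pos h6]
      exact h4
    · rw [if_neg h6]
      by_contra h7
      refine h6 (c4 X hX he hXn hXA ?_)
      rw [Nat.even_iff] at he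
      rw [h1]
      have : n = 4 := by omega
      rw [this]
      norm_num
  od := by
    intro X hX ho h1' hXA
    obtain ⟨n, h1, h2⟩ := h.val_nat (hX.trans hA)
    have h4 : 5 ≤ n := by
      have := h.odd X (hX.trans hA) ho h1'
      rw [h1] at this
      exact_mod_cast this
    refine ⟨n, h1, ?_⟩
    unfold Tpl.iO
    by_cases h6 : TOk.kap G pp X ∈ o5
    · rw [if_pos h6]
      exact h4
    · rw [if_neg h6]
      by_contra h7
      refine h6 (c5 X hX ho h1' hXA ?_)
      rw [Nat.odd_iff] at ho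
      rw [h1]
      have : n = 5 := by omega
      rw [this]
      norm_num
  all := hv
  par := hw

/-- **inner state `W + beta(q)`**, the other exits are lost -/
theorem X6.btI [Infinite V] [Infinite D] (h : X6 G t fr F jm) (b : IBlk G t W 1) {q : D}
    (hq : q ∈ G.bd W) (hU : 1 < (G.vs \ W).card) {Ts : Finset V} (h2 : Ts = ∅ ∨ Ts.card = 2)
    (hTs : ∀ v ∈ Ts, v ∈ jm) :
    (∃ M, TSol G fr F jm W ![q] Ts M ∧ G.Sg W M q) ∨
      ∃ p, G.HPot one1 t F W p ∧ p (G.pi q) = -1 ∧ ∀ d ∈ G.bd W, d ≠ q → p (G.pi d) = 1 := by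
  have hpb : ∀ i, ![q] i ∈ G.bd W := fun i => by
    fin_cases i
    exact hq
  have hpi : Function.Injective ![q] := by
    intro i j _
    exact Subsingleton.elim i j
  rcases h.tplI (T := Tpl.bt) (Ts := Ts) b Tpl.bt_reg Tpl.bt_tab (by decide) rfl hpb hpi
    (Or.inr hU) h2 (fun v hv => Or.inl (hTs v hv)) (fun _ _ => mem_univ _)
    (fun _ _ _ _ _ _ => mem_univ _) (fun _ _ _ _ _ _ => mem_univ _) with
    ⟨M, m, h1, h3⟩ | ⟨p, c, h1, h3, -, h5, h6⟩
  · left
    have h4 := Tpl.bt_pat _ _ h3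
    have hqM : q ∈ M := by
      have h5 : (0 : Fin 1) ∈ (univ.filter fun i => ![q] i ∈ M) := by
        rw [h4]
        exact mem_singleton_self _
      exact (mem_filter.1 h5).2
    refine ⟨M, h1, hq, fun x hx => ⟨fun hxM => ?_, fun hxq => hxq ▸ hqM⟩⟩
    obtain ⟨i, hi⟩ := h1.ex x hx hxM
    fin_cases i
    exact hi.symm
  · right
    refine ⟨p, h1, ?_, fun d hd hdq => h3 d ⟨hd, fun i hi => ?_⟩⟩
    · have e1 := h6 0
      have e2 := h5 0 (by decide)
      change p (G.pi q) + c 0 = 0 at e1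
      linarith
    · fin_cases i
      exact hdq hi.symm

end MG

end RH
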