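import Pool.Agent.Lib.RH.CE6F0

/-! # Row f0, the states

`Bas.sgI`: inner halves with one F-exit (state `W + beta(f)`). `Bas.noO`: there is no outer half with one
F-exit. `Bas.pO`: the outer certificate (state `U + alpha(f, g)`). `Bas.sgO`: an outer half with the exit
`e` (state `path2`). `Bas.f0fin`: an outer half with the exit `e` and the arc linked gives the
contradiction (state `W + beta(e)`). `Bas.k3L`: such a half (state `k3`, helper30). -/

set_option autoImplicit false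

namespace RH

open Finset Classical

namespace MG

variable {V D : Type*} {G : MG V D} {z : D → ℝ} {t : V → ℝ} {fr : Finset V} {F : Finset D}
variable {jm A W X Y Ts : Finset V} {y b : V} {a0 u e1 e2 e f g g1 g2 : D} {M M1 M2 : Finset D}
variable {np : ℕ} {pp : Fin np → D}

theorem TSol.sg (h : TSol G fr F jm A pp Ts M) (hpb : ∀ i, pp i ∈ G.bd A) {i : Fin np}
    (hk : (univ.filter fun i => pp i ∈ M) = {i}) : G.Sg A M (pp i) := by
  have h1 : ∀ j, pp j ∈ M ↔ j = i := by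
    intro j
    have h2 : j ∈ (univ.filter fun i => pp i ∈ M) ↔ j ∈ ({i} : Finset (Fin np)) := by rw [hk]
    rw [mem_filter, mem_singleton] at h2
    exact ⟨fun k => h2.1 ⟨mem_univ _, k⟩, fun k => (h2.2 k).2⟩
  refine ⟨hpb i, fun x hx => ⟨fun hxM => ?_, fun hxi => ?_⟩⟩
  · obtain ⟨j, rfl⟩ := h.ex x hx hxM
    rw [(h1 j).1 hxM]
  · rw [hxi]
    exact (h1 i).2 rfl

theorem ArcC.arc2 (hX : G.ArcC fr F M A X g1) (hc : G.FC F A g1 g2) (hF : G.FrS z fr F jm) :
    Arc2 G fr F A g1 g2 X where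
  sub := hX.adm.sub
  inA := hX.adm.subZ
  clo := by
    intro d hd h1
    by_cases h2 : G.pi (G.al d) ∈ A
    · exact Or.inl (hX.adm.clo d hd h1 h2)
    · exact Or.inr (hc.only d hd (hX.adm.subZ h1) h2)
  mf := hX.arc
  mg := (hc.both hF hX.adm).1 hX.arc

theorem bij3 {d1 d2 d3 : D} (h : G.bd A = {d1, d2, d3}) (n1 : d1 ≠ d2) (n2 : d1 ≠ d3)
    (n3 : d2 ≠ d3) : G.bd A = univ.image ![d1, d2, d3] ∧ Function.Injective ![d1, d2, d3] :=
  ⟨by rw [img3, h], fin3_ne n1 n2 n3⟩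

theorem pb_of (h : G.bd A = univ.image pp) (i : Fin np) : pp i ∈ G.bd A := by
  rw [h]
  exact mem_image_of_mem _ (mem_univ _)

namespace Bas

variable [Infinite V] [Infinite D] (h : Bas G t fr F jm) (r : RStp G t fr y b a0 u e1 e2)
  (m : MBlk G t y b u e1 e2 W) (q : F0D G t F W e1 f g)
include h r m q

omit [Infinite V] [Infinite D] in
theorem cU : 1 < (G.vs \ W).card := by
  have := Bas.three h r m
  omega

/-- **inner halves with one F-exit** -/
theorem sgI : ∃ M, G.GHalf one1 fr F jm W M ∧ G.Sg W M f := by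
  obtain ⟨Ts, t1, t2, t3⟩ := exists_ts h.jm2 W
  rcases h.toX6.btI (Bas.f0i h r m q) q.mf (Bas.cU h r m q) t1 t2 with
    ⟨M, m1, m2⟩ | ⟨p, p1, p2, p3⟩
  · exact ⟨M, m1.half h.fresh h.jm2 t3, m2⟩
  · exfalso
    have h1 := p3 e1 q.me q.ef
    rw [r.sp.pf] at h1
    have h2 := p1.tok y m.my (by
      rw [r.ty h.toEK]
      norm_num)
    have h3 := p1.jq a0 r.sp.a1 (by rw [r.sp.pa]; exact m.my) (by rw [r.sp.pb]; exact m.mb)
      zero_lt_one (fun k => r.hy (by
        have := h.fresh.Ffr _ k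
        rwa [r.sp.pa] at this))
    rw [r.sp.pa, r.sp.pb] at h3
    linarith

omit [Infinite V] [Infinite D] in
theorem hJ0 (M1 : Finset D) : ∀ d ∈ G.bd W, d ∉ F → d ∉ M1 → G.pi d ∈ fr →
    G.pi (G.al d) ∉ fr := by
  intro d hd hF _ hfr
  exfalso
  rw [q.bdW] at hd
  simp only [mem_insert, mem_singleton] at hd
  rcases hd with rfl | rfl | rfl
  · rw [r.sp.pf] at hfr
    exact r.hb hfr
  · exact hF q.fc.f1
  · exact hF q.fc.f2

/-- **no outer half with one F-exit** -/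
theorem noO (hj : Disjoint jm W) (h2 : G.GHalf one1 fr F jm (G.vs \ W) M2)
    (hs : G.Sg (G.vs \ W) M2 (G.al f)) : False := by
  obtain ⟨M1, m1, m2⟩ := Bas.sgI h r m q
  refine h.toX6.glueF1 q.fc m1 h2 (Sg.fit m.sub m2 hs) (Bas.hJ0 h r m q M1) hj ?_
  have h3 := (m2.2 f q.mf).2 rfl
  have h4 : g ∉ M1 := fun k => q.fc.ne ((m2.2 g q.mg).1 k).symm
  exact ⟨fun _ => h4, fun _ => h3⟩

omit [Infinite V] [Infinite D] in
theorem tU : ∑ v ∈ G.vs \ W, t v = 4 ∧ G.val one1 t (G.vs \ W) = 7 := by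
  have h1 := (Bas.f0o h r m q).valA h.toEK (bij3 q.bdU q.aef q.aeg q.afg).1
    (bij3 q.bdU q.aef q.aeg q.afg).2
  refine ⟨?_, ?_⟩
  · rw [h1.2]
    norm_num
  · rw [h1.1]
    norm_num

omit [Infinite V] [Infinite D] in
theorem cvs : (G.vs \ W).card + 5 ≤ G.vs.card := by
  have h1 := card_sdiff_add_card_eq_card m.sub
  have h2 := m.big
  omega

/-- **the outer certificate** -/
theorem pO (hj : Disjoint jm W) : ∃ p, G.HPot one1 t F (G.vs \ W) p ∧ p (G.pi (G.al e1)) = 1 ∧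
    p (G.pi (G.al f)) = -1 ∧ p (G.pi (G.al g)) = -1 := by
  have hE := h.toEK
  obtain ⟨Ts, t1, t2, t3⟩ := exists_ts h.jm2 (G.vs \ W)
  have me := bd_al q.fc.hW q.me
  have hpb : ∀ i, ![G.al f, G.al g] i ∈ G.bd (G.vs \ W) := fun i => by
    fin_cases i
    · exact bd_al q.fc.hW q.mf
    · exact bd_al q.fc.hW q.mg
  have hpi := fin2_ne q.afg
  have hcA := (Bas.f0o h r m q).cardA h.even
  have hfa := fact_val (pp := ![G.al f, G.al g]) (n0 := 7) (w := 1)
    (s1 := univ.filter fun κ => ¬ (0 ∈ κ ∧ 1 ∈ κ)) (e4 := univ.filter fun κ => ¬ (0 ∈ κ ∧ 1 ∈ κ))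
    (o5 := univ) hE (sdiff_subset : G.vs \ W ⊆ G.vs) (by
      rw [(Bas.tU h r m q).2]
      norm_num) hcA
    (fun v _ => by
      rw [mem_filter]
      refine ⟨mem_univ _, fun k => Bas.a1 h r m q ?_⟩
      have k1 := mem_kap.1 k.1
      have k2 := mem_kap.1 k.2
      exact (mem_singleton.1 k1).trans (mem_singleton.1 k2).symm)
    (fun X hX he _ _ hv => by
      rw [mem_filter]
      exact ⟨mem_univ _, fun k => Bas.a3 h r m q hX he hv (mem_kap.1 k.1) (mem_kap.1 k.2)⟩)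
    (fun _ _ _ _ _ _ => mem_univ _)
  have hbc : (G.bd (G.vs \ W)).card = 3 := by
    rw [q.bdU]
    exact card_eq_three.2 ⟨_, _, _, q.aef, q.aeg, q.afg, rfl⟩
  have hdc := drop_card hpb hpi
  have hdr : Drop G (G.vs \ W) ![G.al f, G.al g] (G.al e1) := ⟨me, fun i => by
    fin_cases i
    · exact fun k => q.aef k.symm
    · exact fun k => q.aeg k.symm⟩
  rcases h.toX6.tplG (T := Tpl.al) (Ts := Ts) sdiff_subset (by
      rw [q.WW]
      exact ⟨y, m.my⟩) Tpl.al_reg Tpl.al_tab7 hpb hpi hfa (by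
      rw [Nat.even_iff]
      omega) (by
      rw [(Bas.tU h r m q).1]
      have e1 : ((G.bd (G.vs \ W)).filter fun d => ∀ i, ![G.al f, G.al g] i ≠ d).card = 1 := by
        omega
      have e2 : Tpl.al.nT univ = 1 := by decide
      rw [e1, e2]
      norm_num) t1 (fun v hv => Or.inl (t2 v hv)) (Or.inr (by
      have := Bas.cvs h r m q
      omega)) with ⟨M, m', h1, h2⟩ | ⟨p, c, p1, p2, -, p4, p5⟩
  · exfalso
    have h3 := h1.half h.fresh h.jm2 t3
    obtain ⟨i, hi⟩ := card_eq_one.1 (Tpl.al_pat _ _ h2)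
    have h4 := h1.sg hpb hi
    fin_cases i
    · exact Bas.noO h r m q hj h3 h4
    · exact Bas.noO h r m q.symm hj h3 h4
  · have c0 := p4 0 (by decide)
    have e0 := p5 0
    have e1' := p5 1
    change p (G.pi (G.al f)) + c 0 = 0 at e0
    change p (G.pi (G.al g)) + c 0 = 0 at e1'
    exact ⟨p, p1, p2 _ hdr, by linarith, by linarith⟩

/-- **an outer half with the exit `e`** -/
theorem sgO (hj : Disjoint jm W) : ∃ M, G.GHalf one1 fr F jm (G.vs \ W) M ∧
    G.Sg (G.vs \ W) M (G.al e1) := by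
  have hE := h.toEK
  obtain ⟨Ts, t1, t2, t3⟩ := exists_ts h.jm2 (G.vs \ W)
  obtain ⟨hpp, hpi⟩ := bij3 q.bdU q.aef q.aeg q.afg
  have hpb := pb_of hpp
  have hcA := (Bas.f0o h r m q).cardA h.even
  have hfa := (Bas.f0o h r m q).fact (s1 := Tpl.n12) (e4 := Tpl.n12) (o5 := univ) (n0 := 7) hE
    hpp hpi (by norm_num)
    (fun v _ => by
      unfold Tpl.n12
      rw [mem_filter]
      refine ⟨mem_univ _, fun k => Bas.a1 h r m q ?_⟩
      have k1 := mem_kap.1 k.1
      have k2 := mem_kap.1 k.2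
      exact (mem_singleton.1 k1).trans (mem_singleton.1 k2).symm)
    (fun X hX he _ _ hv => by
      unfold Tpl.n12
      rw [mem_filter]
      exact ⟨mem_univ _, fun k => Bas.a3 h r m q hX he hv (mem_kap.1 k.1) (mem_kap.1 k.2)⟩)
    (fun _ _ _ _ _ _ => mem_univ _)
  have hbc : (G.bd (G.vs \ W)).card = 3 := by
    rw [q.bdU]
    exact card_eq_three.2 ⟨_, _, _, q.aef, q.aeg, q.afg, rfl⟩
  have hdc := drop_card hpb hpi
  rcases h.toX6.tplG (T := Tpl.path2) (Ts := Ts) sdiff_subset (by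
      rw [q.WW]
      exact ⟨y, m.my⟩) Tpl.path2_reg Tpl.path2_tab hpb hpi hfa (by
      rw [Nat.even_iff]
      omega) (by
      rw [(Bas.tU h r m q).1]
      have e1 : ((G.bd (G.vs \ W)).filter fun d => ∀ i, ![G.al e1, G.al f, G.al g] i ≠ d).card =
        0 := by
        omega
      have e2 : Tpl.path2.nT univ = 2 := by decide
      rw [e1, e2]
      norm_num) t1 (fun v hv => Or.inl (t2 v hv)) (Or.inr (by
      have := Bas.cvs h r m q
      omega)) with ⟨M, m', h1, h2⟩ | ⟨p, c, -, -, p3, p4, -⟩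
  · have h3 := h1.half h.fresh h.jm2 t3
    obtain ⟨i, hi⟩ := card_eq_one.1 (Tpl.path2_pat _ _ h2)
    have h4 := h1.sg hpb hi
    fin_cases i
    · exact ⟨M, h3, h4⟩
    · exact (Bas.noO h r m q hj h3 h4).elim
    · exact (Bas.noO h r m q.symm hj h3 h4).elim
  · exact (Tpl.path2_noC c p3 p4).elim

/-- **the end of the proof** -/
theorem f0fin (hj : Disjoint jm W) (h2 : G.GHalf one1 fr F jm (G.vs \ W) M2)
    (hs : G.Sg (G.vs \ W) M2 (G.al e1))
    (hl : ∀ X, ¬ G.ArcC fr F M2 (G.vs \ W) X (G.al f)) : False := by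
  obtain ⟨Ts, t1, t2, t3⟩ := exists_ts h.jm2 W
  rcases h.toX6.btI (Bas.f0i h r m q) q.me (Bas.cU h r m q) t1 t2 with
    ⟨M, m1, m2⟩ | ⟨p, p1, p2, p3⟩
  · exact h.toX6.glueFL' q.fc (m1.half h.fresh h.jm2 t3) h2 (Sg.fit m.sub m2 hs)
      (Bas.hJ0 h r m q M) hl
  · obtain ⟨s, s1, s2, s3, s4⟩ := Bas.pO h r m q hj
    refine h.toX6.no_join p1 s1 fun d hd => ?_
    rw [q.bdW] at hd
    simp only [mem_insert, mem_singleton] at hd
    rcases hd with rfl | rfl | rfl
    · rw [p2, s2]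
      norm_num
    · rw [p3 _ q.mf q.ef.symm, s3]
      norm_num
    · rw [p3 _ q.mg q.eg.symm, s4]
      norm_num

omit [Infinite V] [Infinite D] in
/-- the two F-exits are unused outside -/
theorem nfg (hs : G.Sg (G.vs \ W) M2 (G.al e1)) : G.al f ∉ M2 ∧ G.al g ∉ M2 :=
  ⟨fun k => q.aef ((hs.2 _ (bd_al q.fc.hW q.mf)).1 k).symm,
    fun k => q.aeg ((hs.2 _ (bd_al q.fc.hW q.mg)).1 k).symm⟩

/-- **the outer half with the arc linked** -/
theorem k3L (hj : Disjoint jm W) (hgu : G.pi (G.al g) ≠ G.pi (G.al e1))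
    (h4 : ∀ X ⊆ G.vs \ W, Even X.card → G.val one1 t X = 4 → G.pi (G.al g) ∈ X →
      G.pi (G.al e1) ∉ X)
    (h6 : ∀ Y, Arc2 G fr F (G.vs \ W) (G.al f) (G.al g) Y → Odd Y.card →
      G.pi (G.al e1) ∈ Y → G.val one1 t Y ≠ 5)
    (hsz : 3 ≤ (fr ∩ W).card) : False := by
  have hE := h.toEK
  have hF := h.fresh
  have hc := q.fc.symm hF
  obtain ⟨p, p1, p2, p3, p4⟩ := Bas.pO h r m q hj
  by_cases hB : ∃ B, Arc2 G fr F (G.vs \ W) (G.al f) (G.al g) B ∧ ∀ v ∈ B, v ∉ jm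
  · have hfrc : (fr ∩ (G.vs \ W)).card + (fr ∩ W).card = fr.card := by
      rw [← card_union_of_disjoint]
      · congr 1
        ext v
        simp only [mem_union, mem_inter, mem_sdiff]
        constructor
        · rintro (⟨k1, -⟩ | ⟨k1, -⟩) <;> exact k1
        · intro k1
          by_cases k2 : v ∈ W
          · exact Or.inr ⟨k1, k2⟩
          · exact Or.inl ⟨k1, hF.fsub k1, k2⟩
      · rw [disjoint_left]
        intro v k1 k2
        exact (mem_sdiff.1 (mem_inter.1 k1).2).2 (mem_inter.1 k2).2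
    have hcv := Bas.cvs h r m q
    have hbd : G.bd (G.vs \ W) = {G.al f, G.al g, G.al e1} := by
      rw [q.bdU]
      ext d
      simp only [mem_insert, mem_singleton]
      tauto
    obtain ⟨M, m1, ⟨d, d1, d2, d3⟩, m3⟩ := h.toX6.k3 (Bas.f0o h r m q) hbd q.aef.symm
      hc.f1 hc.f2 (Bas.a1 h r m q) hgu h4 h6 hB (Or.inr ⟨by omega, by omega⟩)
    -- the half
    have hno : ∀ d, ¬ Drop G (G.vs \ W) ![G.al f, G.al g, G.al e1] d := by
      intro d hd
      have k1 := hd.1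
      rw [hbd] at k1
      simp only [mem_insert, mem_singleton] at k1
      rcases k1 with k1 | k1 | k1
      · exact hd.2 0 k1.symm
      · exact hd.2 1 k1.symm
      · exact hd.2 2 k1.symm
    have mH : G.GHalf one1 fr F jm (G.vs \ W) M := by
      refine ⟨m1.hm, fun _ _ => one_pos, fun X hX hXU hcl => ?_⟩
      have k1 := hE.link0 p1 m1.hm hXU hX hcl
      refine ⟨(m1.st X hX hXU (fun d hd => Or.inl (hcl d hd)) fun v hv => Or.inr
        ⟨fun k2 => ?_, fun d hd => (hno d hd).elim⟩).1, ?_⟩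
      · have k3 : v ∈ X ∩ jm := mem_inter.2 ⟨hv, k2⟩
        rw [k1] at k3
        exact notMem_empty _ k3
      · rintro ⟨⟨v, hv⟩, k2⟩
        have k3 : v ∈ X ∩ jm := mem_inter.2 ⟨k2 hv, hv⟩
        rw [k1] at k3
        exact notMem_empty _ k3
    have mS : G.Sg (G.vs \ W) M d := ⟨d1, fun x hx => ⟨d3 x hx, fun k => k ▸ d2⟩⟩
    rw [q.bdU] at d1
    simp only [mem_insert, mem_singleton] at d1
    rcases d1 with rfl | rfl | rfl
    · obtain ⟨n1, n2⟩ := Bas.nfg h r m q mS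
      refine Bas.f0fin h r m q hj mH mS fun X hX => ?_
      have k1 := hE.linkArc p1 m1.hm hc n1 n2 hX
      refine m3 d2 X (hX.arc2 hc hF) (fun v hv k2 => ?_) fun x hx k2 k3 => ?_
      · have k3 : v ∈ X ∩ jm := mem_inter.2 ⟨hv, k2⟩
        rw [k1] at k3
        exact notMem_empty _ k3
      · refine hX.cl x hx fun k4 => ?_
        rcases (hX.arc2 hc hF).clo x k4 (mem_bd.1 hx).2.1 with k5 | k5 | k5
        · exact (mem_bd.1 hx).2.2 k5
        · exact k2 k5
        · exact k3 k5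
    · exact Bas.noO h r m q hj mH mS
    · exact Bas.noO h r m q.symm hj mH mS
  · obtain ⟨M, m1, m2⟩ := Bas.sgO h r m q hj
    obtain ⟨n1, n2⟩ := Bas.nfg h r m q m2
    refine Bas.f0fin h r m q hj m1 m2 fun X hX => hB ⟨X, hX.arc2 hc hF, fun v hv k2 => ?_⟩
    have k1 := hE.linkArc p1 m1.hm hc n1 n2 hX
    have k3 : v ∈ X ∩ jm := mem_inter.2 ⟨hv, k2⟩
    rw [k1] at k3
    exact notMem_empty _ k3

end Bas

end MG

end RH
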