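import Pool.Agent.Lib.RH.CE6F0B

/-! # Row f0, the exceptions of the state `k3`

`Bas.f0c`: no star vertex in `W`, at least three fresh vertices in `W`, and no odd arc part `Y` outside of
value 5 which contains the outer end of `e`: contradiction. -/

set_option autoImplicit false

namespace RH

open Finset Classical

namespace MG

variable {V D : Type*} {G : MG V D} {z : D → ℝ} {t : V → ℝ} {fr : Finset V} {F : Finset D}
variable {jm A W X X' Y Ts : Finset V} {y b v w : V} {a0 u e1 e2 e f g g1 g2 x x' d : D}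
variable {M M1 M2 : Finset D}

/-- two vertices of value 4 are adjacent -/
theorem EK.edge2 (h : EK G 6 t fr F jm) (hv : v ∈ G.vs) (hw : w ∈ G.vs) (hn : v ≠ w)
    (h4 : G.val one1 t {v, w} = 4) : ∃ d ∈ G.ds, G.pi d = v ∧ G.pi (G.al d) = w := by
  have h1 := h.wt.val_disj (singleton_subset_iff.2 hv) (singleton_subset_iff.2 hw)
    (disjoint_singleton.2 hn)
  rw [← insert_eq, h4, h.wt.val_single hv, h.wt.val_single hw] at h1
  have h2 : ∑ d ∈ G.ed {v} {w}, one1 d = ((G.ed {v} {w}).card : ℝ) := by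
    unfold one1
    rw [sum_const, nsmul_eq_mul, mul_one]
  rw [h2] at h1
  have h3 : ((G.ed {v} {w}).card : ℝ) = ((1 : ℕ) : ℝ) := by
    push_cast
    linarith
  have h4 : (G.ed {v} {w}).card = 1 := by exact_mod_cast h3
  obtain ⟨d, hd⟩ := card_pos.1 (by omega : 0 < (G.ed {v} {w}).card)
  obtain ⟨k1, k2, k3⟩ := mem_ed.1 hd
  exact ⟨d, k1, mem_singleton.1 k2, mem_singleton.1 k3⟩

/-- two F-darts at a fresh vertex are all F-darts -/
theorem FrS.two_only (hF : G.FrS z fr F jm) (hv : v ∈ fr) (h1 : x ∈ F) (h2 : x' ∈ F)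
    (p1 : G.pi x = v) (p2 : G.pi x' = v) (hn : x ≠ x') (hd : d ∈ F) (p3 : G.pi d = v) :
    d = x ∨ d = x' := by
  have h3 : ({x, x'} : Finset D) ⊆ F.filter fun e => G.pi e = v := by
    intro e he
    rw [mem_insert, mem_singleton] at he
    rcases he with rfl | rfl
    · exact mem_filter.2 ⟨h1, p1⟩
    · exact mem_filter.2 ⟨h2, p2⟩
  have h4 := eq_of_subset_of_card_le h3 (by
    rw [hF.two v hv, card_pair hn])
  have h5 : d ∈ F.filter fun e => G.pi e = v := mem_filter.2 ⟨hd, p3⟩
  rw [← h4, mem_insert, mem_singleton] at h5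
  exact h5

/-- exactly two darts of a fresh vertex are F-darts: among two -/
theorem FrS.two_in (hF : G.FrS z fr F jm) (hv : v ∈ fr)
    (h : ∀ d ∈ F, G.pi d = v → d = x ∨ d = x') : x ∈ F ∧ x' ∈ F := by
  have h3 : (F.filter fun e => G.pi e = v) ⊆ {x, x'} := by
    intro e he
    obtain ⟨k1, k2⟩ := mem_filter.1 he
    rw [mem_insert, mem_singleton]
    exact h e k1 k2
  have h4 := hF.two v hv
  have h5 : ({x, x'} : Finset D).card ≤ 2 := card_le_two
  have h6 := eq_of_subset_of_card_le h3 (by omega)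
  have k1 : x ∈ F.filter fun e => G.pi e = v := by rw [h6]; simp
  have k2 : x' ∈ F.filter fun e => G.pi e = v := by rw [h6]; simp
  exact ⟨(mem_filter.1 k1).1, (mem_filter.1 k2).1⟩

theorem Arc2.swap (h : Arc2 G fr F A g1 g2 Y) : Arc2 G fr F A g2 g1 Y :=
  ⟨h.sub, h.inA, fun d hd h1 => by
    rcases h.clo d hd h1 with h2 | h2 | h2
    · exact Or.inl h2
    · exact Or.inr (Or.inr h2)
    · exact Or.inr (Or.inl h2), h.mg, h.mf⟩

namespace Bas

variable (h : Bas G t fr F jm) (r : RStp G t fr y b a0 u e1 e2)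
  (m : MBlk G t y b u e1 e2 W) (q : F0D G t F W e1 f g)
include h r m q

/-- two even sets of value 4 with the outer end of `e` and of one F-exit -/
theorem two4s (hX : X ⊆ G.vs \ W) (he : Even X.card) (hv : G.val one1 t X = 4)
    (x1 : G.pi (G.al g) ∈ X) (x2 : G.pi (G.al e1) ∈ X)
    (hX' : X' ⊆ G.vs \ W) (he' : Even X'.card) (hv' : G.val one1 t X' = 4)
    (x1' : G.pi (G.al f) ∈ X') (x2' : G.pi (G.al e1) ∈ X') :
    X = {G.pi (G.al e1), G.pi (G.al g)} ∧ X' = {G.pi (G.al e1), G.pi (G.al f)} ∧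
      G.val one1 t (X ∪ X') = 5 := by
  have hE := h.toEK
  have n1 : G.pi (G.al f) ∉ X := fun k => Bas.a3 h r m q hX he hv k x1
  have n2 : G.pi (G.al g) ∉ X' := fun k => Bas.a3 h r m q hX' he' hv' x1' k
  have sX := hX.trans sdiff_subset
  have sX' := hX'.trans sdiff_subset
  have hI : X ∩ X' ⊆ G.vs := inter_subset_left.trans sX
  have hU : X ∪ X' ⊆ G.vs \ W := union_subset hX hX'
  have hUv := hU.trans sdiff_subset
  have mI : G.pi (G.al e1) ∈ X ∩ X' := mem_inter.2 ⟨x2, x2'⟩
  have hs := h.wt.submod sX sX'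
  have hed := h.wt.ed_nonneg (X \ X') (X' \ X)
  have hcu := card_union_add_card_inter X X'
  rw [hv, hv'] at hs
  have hbig := m.big
  rcases Nat.even_or_odd (X ∩ X').card with hI1 | hI1
  · exfalso
    have h1 := h.evn _ hI hI1 ⟨_, mI⟩ (fun k => by
      have : G.pi (G.al f) ∈ X ∩ X' := by
        rw [k]
        exact sX' x1'
      exact n1 (mem_inter.1 this).1)
    have hU1 : Even (X ∪ X').card := by
      rw [Nat.even_iff] at *
      omega
    have h2 := h.evn _ hUv hU1 ⟨_, mem_union_left _ x1⟩ (fun k => by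
      have : y ∈ X ∪ X' := by
        rw [k]
        exact m.sub m.my
      exact (mem_sdiff.1 (hU this)).2 m.my)
    exact Bas.a3 h r m q hU hU1 (by linarith) (mem_union_right _ x1') (mem_union_left _ x1)
  · have hU1 : Odd (X ∪ X').card := by
      rw [Nat.even_iff] at he he'
      rw [Nat.odd_iff] at *
      omega
    have mU1 : G.pi (G.al g) ∈ X ∪ X' := mem_union_left _ x1
    have mU2 : G.pi (G.al f) ∈ X ∪ X' := mem_union_right _ x1'
    have hU2 : (X ∪ X').card ≠ 1 := by
      intro k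
      obtain ⟨v, hv⟩ := card_eq_one.1 k
      rw [hv, mem_singleton] at mU1 mU2
      exact Bas.a1 h r m q (mU2.trans mU1.symm)
    have h5 := h.odd _ hUv hU1 hU2
    have hIc : (X ∩ X').card = 1 := by
      by_contra k
      have := h.odd _ hI hI1 k
      linarith
    have hIv : G.val one1 t (X ∩ X') = 3 := by
      obtain ⟨v, hv⟩ := card_eq_one.1 hIc
      rw [hv] at hI ⊢
      exact h.wt.val_single (singleton_subset_iff.1 hI)
    -- differences
    have hp := h.wt.posimod sX sX'
    rw [hv, hv'] at hp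
    have ht0 : 0 ≤ ∑ v ∈ X ∩ X', t v := sum_nonneg fun v hv => h.t0 v (hI hv)
    have hed2 : (1 : ℝ) ≤ ∑ d ∈ G.ed (X ∩ X') (G.vs \ (X ∪ X')), one1 d := by
      have k1 : G.al e1 ∈ G.ed (X ∩ X') (G.vs \ (X ∪ X')) := by
        refine mem_ed.2 ⟨G.al_mem e1 q.eds, mI, mem_sdiff.2 ⟨G.pi_mem _ (G.al_mem _
          (G.al_mem e1 q.eds)), fun k => ?_⟩⟩
        rw [G.al_al e1 q.eds] at k
        exact (mem_sdiff.1 (hU k)).2 (mem_bd.1 q.me).2.1
      have k2 := single_le_sum (f := fun d => (one1 d : ℝ)) (fun d _ => (zero_le_one : (0 : ℝ) ≤ 1)) k1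
      exact k2
    have c1 : (X \ X').card + (X ∩ X').card = X.card := card_sdiff_add_card_inter X X'
    have c2 : (X' \ X).card + (X ∩ X').card = X'.card := by
      rw [inter_comm]
      exact card_sdiff_add_card_inter X' X
    have o1 : Odd (X \ X').card := by
      rw [Nat.even_iff] at he
      rw [Nat.odd_iff] at *
      omega
    have o2 : Odd (X' \ X).card := by
      rw [Nat.even_iff] at he'
      rw [Nat.odd_iff] at *
      omega
    have s1 : X \ X' ⊆ G.vs := sdiff_subset.trans sX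
    have s2 : X' \ X ⊆ G.vs := sdiff_subset.trans sX'
    have l1 : 3 ≤ G.val one1 t (X \ X') := by
      by_cases k : (X \ X').card = 1
      · obtain ⟨v, hv⟩ := card_eq_one.1 k
        rw [hv] at s1 ⊢
        exact (h.wt.val_single (singleton_subset_iff.1 s1)).symm.le
      · have := h.odd _ s1 o1 k
        linarith
    have l2 : 3 ≤ G.val one1 t (X' \ X) := by
      by_cases k : (X' \ X).card = 1
      · obtain ⟨v, hv⟩ := card_eq_one.1 k
        rw [hv] at s2 ⊢
        exact (h.wt.val_single (singleton_subset_iff.1 s2)).symm.le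
      · have := h.odd _ s2 o2 k
        linarith
    have d1 : (X \ X').card = 1 := by
      by_contra k
      have := h.odd _ s1 o1 k
      linarith
    have d2 : (X' \ X).card = 1 := by
      by_contra k
      have := h.odd _ s2 o2 k
      linarith
    have e1' : X \ X' = {G.pi (G.al g)} :=
      (card_eq_one.1 d1).elim fun v hv => by
        have k : G.pi (G.al g) ∈ X \ X' := mem_sdiff.2 ⟨x1, n2⟩
        rw [hv, mem_singleton] at k
        rw [hv, k]
    have e2' : X' \ X = {G.pi (G.al f)} :=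
      (card_eq_one.1 d2).elim fun v hv => by
        have k : G.pi (G.al f) ∈ X' \ X := mem_sdiff.2 ⟨x1', n1⟩
        rw [hv, mem_singleton] at k
        rw [hv, k]
    have e3' : X ∩ X' = {G.pi (G.al e1)} :=
      (card_eq_one.1 hIc).elim fun v hv => by
        have k := mI
        rw [hv, mem_singleton] at k
        rw [hv, k]
    refine ⟨?_, ?_, ?_⟩
    · rw [← sdiff_union_inter X X', e1', e3', union_comm, ← insert_eq]
    · rw [← sdiff_union_inter X' X, e2', inter_comm, e3', union_comm, ← insert_eq]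
    · linarith

variable [Infinite V] [Infinite D]

/-- **all cases with at least three fresh vertices inside** -/
theorem f0c (hj : Disjoint jm W) (hsz : 3 ≤ (fr ∩ W).card)
    (h6 : ∀ Y, Arc2 G fr F (G.vs \ W) (G.al f) (G.al g) Y → Odd Y.card →
      G.pi (G.al e1) ∈ Y → G.val one1 t Y ≠ 5) : False := by
  have hE := h.toEK
  have hF := h.fresh
  have hc := q.fc.symm hF
  by_cases b1 : G.pi (G.al g) ≠ G.pi (G.al e1) ∧ ∀ X ⊆ G.vs \ W, Even X.card →
      G.val one1 t X = 4 → G.pi (G.al g) ∈ X → G.pi (G.al e1) ∉ X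
  · exact Bas.k3L h r m q hj b1.1 b1.2 h6 hsz
  by_cases b2 : G.pi (G.al f) ≠ G.pi (G.al e1) ∧ ∀ X ⊆ G.vs \ W, Even X.card →
      G.val one1 t X = 4 → G.pi (G.al f) ∈ X → G.pi (G.al e1) ∉ X
  · exact Bas.k3L h r m q.symm hj b2.1 b2.2 (fun Y hY => h6 Y hY.swap) hsz
  -- both are bad
  have ng : G.pi (G.al g) ≠ G.pi (G.al e1) := by
    intro k
    refine b2 ⟨fun k2 => Bas.a1 h r m q (k2.trans k.symm), fun X hX he hv k1 k2 => ?_⟩
    exact Bas.a3 h r m q hX he hv k1 (k ▸ k2)
  have nf : G.pi (G.al f) ≠ G.pi (G.al e1) := by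
    intro k
    refine b1 ⟨fun k2 => Bas.a1 h r m q (k.trans k2.symm), fun X hX he hv k1 k2 => ?_⟩
    exact Bas.a3 h r m q hX he hv (k ▸ k2) k1
  have b1' : ¬ ∀ X ⊆ G.vs \ W, Even X.card → G.val one1 t X = 4 → G.pi (G.al g) ∈ X →
      G.pi (G.al e1) ∉ X := fun k => b1 ⟨ng, k⟩
  have b2' : ¬ ∀ X ⊆ G.vs \ W, Even X.card → G.val one1 t X = 4 → G.pi (G.al f) ∈ X →
      G.pi (G.al e1) ∉ X := fun k => b2 ⟨nf, k⟩
  push Not at b1' b2'
  obtain ⟨X, x1, x2, x3, x4, x5⟩ := b1'
  obtain ⟨X', x1', x2', x3', x4', x5'⟩ := b2'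
  obtain ⟨eX, eX', hv5⟩ := Bas.two4s h r m q x1 x2 x3 x4 x5 x1' x2' x3' x4' x5'
  have moe := (mem_sdiff.1 q.oeU).1
  have mof := (mem_sdiff.1 q.ofU).1
  have mog := (mem_sdiff.1 q.ogU).1
  obtain ⟨j1, j11, j12, j13⟩ := hE.edge2 moe mof nf.symm (by rw [← eX']; exact x3')
  obtain ⟨j2, j21, j22, j23⟩ := hE.edge2 moe mog ng.symm (by rw [← eX]; exact x3)
  have aj1 := G.al_al j1 j11
  have aj2 := G.al_al j2 j21
  have ffr : G.pi (G.al f) ∈ fr := hF.Ffr _ hc.f1
  have gfr : G.pi (G.al g) ∈ fr := hF.Ffr _ hc.f2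
  have aeF : G.al e1 ∉ F := fun k => q.nF (by
    have := hF.Fal _ k
    rwa [G.al_al e1 q.eds] at this)
  by_cases hoe : G.pi (G.al e1) ∈ fr
  · -- the arc has three vertices
    have l1 : (({G.pi (G.al e1), G.pi (G.al f), G.pi (G.al g)} : Finset V)).card = 3 :=
      card_eq_three.2 ⟨_, _, _, nf.symm, ng.symm, Bas.a1 h r m q, rfl⟩
    have n1 : G.al e1 ≠ j1 := by
      intro k
      have k1 : G.pi e1 = G.pi (G.al f) := by rw [← j13, ← k, G.al_al e1 q.eds]
      exact (mem_sdiff.1 q.ofU).2 (k1 ▸ (mem_bd.1 q.me).2.1)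
    have n2 : G.al e1 ≠ j2 := by
      intro k
      have k1 : G.pi e1 = G.pi (G.al g) := by rw [← j23, ← k, G.al_al e1 q.eds]
      exact (mem_sdiff.1 q.ogU).2 (k1 ▸ (mem_bd.1 q.me).2.1)
    have n3 : j1 ≠ j2 := by
      intro k
      exact Bas.a1 h r m q (by rw [← j13, ← j23, k])
    have hst : ∀ d ∈ G.ds, G.pi d = G.pi (G.al e1) → d = G.al e1 ∨ d = j1 ∨ d = j2 := by
      have k1 : ({G.al e1, j1, j2} : Finset D) ⊆ G.st (G.pi (G.al e1)) := by
        intro d hd
        simp only [mem_insert, mem_singleton] at hd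
        rcases hd with rfl | rfl | rfl
        · exact mem_st.2 ⟨G.al_mem e1 q.eds, rfl⟩
        · exact mem_st.2 ⟨j11, j12⟩
        · exact mem_st.2 ⟨j21, j22⟩
      have k2 : ({G.al e1, j1, j2} : Finset D).card = 3 :=
        card_eq_three.2 ⟨_, _, _, n1, n2, n3, rfl⟩
      have k3 := h.deg _ moe
      have k4 := h.t0 _ moe
      have k5 : ((G.st (G.pi (G.al e1))).card : ℝ) ≤ ((3 : ℕ) : ℝ) := by
        push_cast
        linarith
      have k6 : (G.st (G.pi (G.al e1))).card ≤ 3 := by exact_mod_cast k5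
      have k7 := eq_of_subset_of_card_le k1 (by omega)
      intro d hd hp
      have k8 : d ∈ G.st (G.pi (G.al e1)) := mem_st.2 ⟨hd, hp⟩
      rw [← k7] at k8
      simpa only [mem_insert, mem_singleton] using k8
    obtain ⟨jF1, jF2⟩ := hF.two_in (x := j1) (x' := j2) hoe fun d hd hp => by
      rcases hst d (hF.Fsub hd) hp with k | k | k
      · exact absurd (k ▸ hd) aeF
      · exact Or.inl k
      · exact Or.inr k
    refine h6 {G.pi (G.al e1), G.pi (G.al f), G.pi (G.al g)} ⟨?_, ?_, ?_, by simp, by simp⟩ ?_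
      (by simp) ?_
    · intro v hv
      simp only [mem_insert, mem_singleton] at hv
      rcases hv with rfl | rfl | rfl
      · exact hoe
      · exact ffr
      · exact gfr
    · intro v hv
      simp only [mem_insert, mem_singleton] at hv
      rcases hv with rfl | rfl | rfl
      · exact q.oeU
      · exact q.ofU
      · exact q.ogU
    · intro d hd hp
      simp only [mem_insert, mem_singleton] at hp
      rcases hp with hp | hp | hp
      · left
        rcases hst d (hF.Fsub hd) hp with k | k | k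
        · exact absurd (k ▸ hd) aeF
        · rw [k, j13]
          simp
        · rw [k, j23]
          simp
      · rcases hF.two_only (x := G.al f) (x' := G.al j1) ffr hc.f1 (hF.Fal _ jF1) rfl j13
          (fun k => by
            have k1 : f = j1 := (al_eq q.fds j11).1 k
            have k2 := (mem_bd.1 q.mf).2.1
            rw [k1, j12] at k2
            exact (mem_sdiff.1 q.oeU).2 k2) hd hp with k | k
        · exact Or.inr (Or.inl k)
        · left
          rw [k, aj1, j12]
          simp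
      · rcases hF.two_only (x := G.al g) (x' := G.al j2) gfr hc.f2 (hF.Fal _ jF2) rfl j23
          (fun k => by
            have k1 : g = j2 := (al_eq q.gds j21).1 k
            have k2 := (mem_bd.1 q.mg).2.1
            rw [k1, j22] at k2
            exact (mem_sdiff.1 q.oeU).2 k2) hd hp with k | k
        · exact Or.inr (Or.inr k)
        · left
          rw [k, aj2, j22]
          simp
    · rw [l1]
      decide
    · rw [← hv5, eX, eX']
      congr 1
      ext v
      simp only [mem_union, mem_insert, mem_singleton]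
      tauto
  · -- the end of `e` is not fresh
    obtain ⟨M, m1, m2⟩ := Bas.sgO h r m q hj
    refine Bas.f0fin h r m q hj m1 m2 fun Z hZ => ?_
    have jF : G.al j1 ∉ F := fun k => hoe (by
      have k1 := hF.Fal _ k
      rw [aj1] at k1
      rw [← j12]
      exact hF.Ffr _ k1)
    have k1 : G.al j1 ∈ G.bd Z := mem_bd.2 ⟨G.al_mem j1 j11, by rw [j13]; exact hZ.arc, by
      rw [aj1, j12]
      exact fun k => hoe (hZ.adm.sub k)⟩
    have k2 := hZ.cl _ k1 jF
    have k3 := m1.hm.clo _ k2 (by rw [aj1, j12]; exact q.oeU)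
    rw [aj1] at k3
    have k4 := (m2.2 _ (bd_al q.fc.hW q.me)).2 rfl
    have k5 := m1.hm.one _ q.oeU
    obtain ⟨n, hn⟩ := card_eq_one.1 k5
    have k6 : j1 ∈ M.filter fun d => G.pi d = G.pi (G.al e1) := mem_filter.2 ⟨k3, j12⟩
    have k7 : G.al e1 ∈ M.filter fun d => G.pi d = G.pi (G.al e1) := mem_filter.2 ⟨k4, rfl⟩
    rw [hn, mem_singleton] at k6 k7
    have k8 : G.pi e1 = G.pi (G.al f) := by rw [← j13, k6, ← k7, G.al_al e1 q.eds]
    exact (mem_sdiff.1 q.ofU).2 (k8 ▸ (mem_bd.1 q.me).2.1)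

end Bas

end MG

end RH
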