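import Pool.Agent.Lib.RH.CE6F0C

/-! # Row f0, two fresh vertices inside

`Bas.f0s`: the circuit has only the vertices `pi f`, `pi g` in `W` and there are no other fresh vertices in
`W`: the state `W - {pi f, pi g} + beta(e)`. -/

set_option autoImplicit false

namespace RH

open Finset Classical

namespace MG

variable {V D : Type*} {G : MG V D} {z : D → ℝ} {t : V → ℝ} {fr : Finset V} {F : Finset D}
variable {jm A W X X' Y Ts : Finset V} {y b v w : V} {a0 u e1 e2 e f g g1 g2 x x' d : D}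
variable {M M1 M2 : Finset D}

/-- data: two fresh vertices in `W`, adjacent by the F-dart `f1`, with the J-darts `j1`, `j2` into the
rest of `W` -/
structure Sz2 (G : MG V D) (fr : Finset V) (F : Finset D) (W : Finset V) (f g f1 j1 j2 : D) :
    Prop where
  f11 : f1 ∈ F
  f12 : G.pi f1 = G.pi f
  f13 : G.pi (G.al f1) = G.pi g
  j11 : j1 ∈ G.ds
  j12 : j1 ∉ F
  j13 : G.pi j1 = G.pi f
  j21 : j2 ∈ G.ds
  j22 : j2 ∉ F
  j23 : G.pi j2 = G.pi g
  j14 : G.pi (G.al j1) ∈ W
  j24 : G.pi (G.al j2) ∈ W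
  j15 : G.pi (G.al j1) ∉ fr
  j25 : G.pi (G.al j2) ∉ fr
  fr2 : ∀ v ∈ W, v ∈ fr → v = G.pi f ∨ v = G.pi g
  st1 : ∀ d ∈ G.ds, G.pi d = G.pi f → d = f ∨ d = f1 ∨ d = j1
  st2 : ∀ d ∈ G.ds, G.pi d = G.pi g → d = g ∨ d = G.al f1 ∨ d = j2

namespace Bas

variable (h : Bas G t fr F jm) (r : RStp G t fr y b a0 u e1 e2)
  (m : MBlk G t y b u e1 e2 W) (q : F0D G t F W e1 f g)
include h r m q

theorem exists_sz2 (hj : Disjoint jm W) (hsz : (fr ∩ W).card ≤ 2) :
    ∃ f1 j1 j2, Sz2 G fr F W f g f1 j1 j2 := by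
  have hE := h.toEK
  have hF := h.fresh
  have hcf : G.pi f ∈ fr := hF.Ffr _ q.fc.f1
  have hcg : G.pi g ∈ fr := hF.Ffr _ q.fc.f2
  have hne := Bas.a2 h r m q
  have hfr : fr ∩ W = {G.pi f, G.pi g} := by
    symm
    refine eq_of_subset_of_card_le ?_ (by rw [card_pair hne]; exact hsz)
    intro v hv
    rw [mem_insert, mem_singleton] at hv
    rcases hv with rfl | rfl
    · exact mem_inter.2 ⟨hcf, q.fc.w1⟩
    · exact mem_inter.2 ⟨hcg, q.fc.w2⟩
  have fr2 : ∀ v ∈ W, v ∈ fr → v = G.pi f ∨ v = G.pi g := by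
    intro v h1 h2
    have h3 : v ∈ fr ∩ W := mem_inter.2 ⟨h2, h1⟩
    rw [hfr, mem_insert, mem_singleton] at h3
    exact h3
  have jf : G.pi f ∉ jm := fun k => disjoint_left.1 hj k q.fc.w1
  have jg : G.pi g ∉ jm := fun k => disjoint_left.1 hj k q.fc.w2
  -- the second F-dart
  have key : ∀ {f g : D}, F0D G t F W e1 f g → (∀ v ∈ W, v ∈ fr → v = G.pi f ∨ v = G.pi g) →
      ∃ f1 ∈ F, f1 ≠ f ∧ G.pi f1 = G.pi f ∧ G.pi (G.al f1) = G.pi g := by
    intro f g q' fr2'
    have h1 := hF.two _ (hF.Ffr _ q'.fc.f1)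
    have h2 : f ∈ F.filter fun e => G.pi e = G.pi f := mem_filter.2 ⟨q'.fc.f1, rfl⟩
    have h3 : ((F.filter fun e => G.pi e = G.pi f).erase f).card = 1 := by
      rw [card_erase_of_mem h2, h1]
    obtain ⟨f1, hf1⟩ := card_eq_one.1 h3
    have h4 : f1 ∈ (F.filter fun e => G.pi e = G.pi f).erase f := by
      rw [hf1]
      exact mem_singleton_self _
    obtain ⟨h5, h6⟩ := mem_erase.1 h4
    obtain ⟨h7, h8⟩ := mem_filter.1 h6
    refine ⟨f1, h7, h5, h8, ?_⟩
    have h9 : G.pi (G.al f1) ∈ W := by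
      by_contra k
      rcases q'.fc.only f1 h7 (by rw [h8]; exact q'.fc.w1) k with k2 | k2
      · exact h5 k2
      · exact Bas.a2 h r m q' (by rw [← h8, k2])
    rcases fr2' _ h9 (hF.Ffr _ (hF.Fal _ h7)) with k | k
    · exact absurd (k.trans h8.symm) (G.noloop f1 (hF.Fsub h7))
    · exact k
  obtain ⟨f1, f11, f1n, f12, f13⟩ := key q fr2
  have af1 := G.al_al f1 (hF.Fsub f11)
  obtain ⟨j1, j11, j13, j12, -⟩ := hF.exists_jd hcf jf
  obtain ⟨j2, j21, j23, j22, -⟩ := hF.exists_jd hcg jg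
  have hst : ∀ {v : V} {x1 x2 x3 : D}, v ∈ G.vs → x1 ∈ G.ds → x2 ∈ G.ds → x3 ∈ G.ds →
      G.pi x1 = v → G.pi x2 = v → G.pi x3 = v → x1 ≠ x2 → x1 ≠ x3 → x2 ≠ x3 →
      ∀ d ∈ G.ds, G.pi d = v → d = x1 ∨ d = x2 ∨ d = x3 := by
    intro v x1 x2 x3 hv k1 k2 k3 p1 p2 p3 n1 n2 n3 d hd hp
    have c1 : ({x1, x2, x3} : Finset D) ⊆ G.st v := by
      intro d hd
      simp only [mem_insert, mem_singleton] at hd
      rcases hd with rfl | rfl | rfl
      · exact mem_st.2 ⟨k1, p1⟩
      · exact mem_st.2 ⟨k2, p2⟩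
      · exact mem_st.2 ⟨k3, p3⟩
    have c2 : ({x1, x2, x3} : Finset D).card = 3 := card_eq_three.2 ⟨_, _, _, n1, n2, n3, rfl⟩
    have c3 := h.deg _ hv
    have c4 := h.t0 _ hv
    have c5 : ((G.st v).card : ℝ) ≤ ((3 : ℕ) : ℝ) := by
      push_cast
      linarith
    have c6 : (G.st v).card ≤ 3 := by exact_mod_cast c5
    have c7 := eq_of_subset_of_card_le c1 (by omega)
    have c8 : d ∈ G.st v := mem_st.2 ⟨hd, hp⟩
    rw [← c7] at c8
    simpa only [mem_insert, mem_singleton] using c8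
  have inW : ∀ {j : D} {v : V}, j ∈ G.ds → j ∉ F → G.pi j = v → v ∈ W → v ∈ fr →
      G.pi (G.al j) ∈ W := by
    intro j v k1 k2 k3 k4 k5
    by_contra k6
    have k7 : j ∈ G.bd W := mem_bd.2 ⟨k1, by rw [k3]; exact k4, k6⟩
    rw [q.bdW] at k7
    simp only [mem_insert, mem_singleton] at k7
    rcases k7 with rfl | rfl | rfl
    · rw [r.sp.pf] at k3
      exact r.hb (k3 ▸ k5)
    · exact k2 q.fc.f1
    · exact k2 q.fc.f2
  have i1 := inW j11 j12 j13 q.fc.w1 hcf
  have i2 := inW j21 j22 j23 q.fc.w2 hcg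
  refine ⟨f1, j1, j2, f11, f12, f13, j11, j12, j13, j21, j22, j23, i1, i2, ?_, ?_, fr2, ?_, ?_⟩
  · intro k
    rcases fr2 _ i1 k with k1 | k1
    · exact G.noloop j1 j11 (k1.trans j13.symm)
    · have k2 := hE.simple (by norm_num) j11 (hF.Fsub f11) (j13.trans f12.symm)
        (k1.trans f13.symm)
      exact j12 (k2 ▸ f11)
  · intro k
    rcases fr2 _ i2 k with k1 | k1
    · have k2 := hE.simple (by norm_num) j21 (hF.Fsub (hF.Fal _ f11)) (j23.trans f13.symm)
        (by rw [k1, af1, f12])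
      exact j22 (k2 ▸ hF.Fal _ f11)
    · exact G.noloop j2 j21 (k1.trans j23.symm)
  · exact hst (m.sub q.fc.w1) q.fds (hF.Fsub f11) j11 rfl f12 j13 f1n.symm
      (fun k => j12 (k ▸ q.fc.f1)) (fun k => j12 (k ▸ f11))
  · refine hst (m.sub q.fc.w2) q.gds (hF.Fsub (hF.Fal _ f11)) j21 rfl f13 j23 (fun k => ?_)
      (fun k => j22 (k ▸ q.fc.f2)) (fun k => j22 (k ▸ hF.Fal _ f11))
    apply q.fc.u2
    rw [k, af1, f12]
    exact q.fc.w1

/-- the rest of `W` -/
theorem sz2_blk (hj : Disjoint jm W) {f1 j1 j2 : D} (s : Sz2 G fr F W f g f1 j1 j2) :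
    IBlk G t (W \ {G.pi f, G.pi g}) 1 ∧
      G.bd (W \ {G.pi f, G.pi g}) = {e1, G.al j1, G.al j2} ∧ G.al j1 ≠ e1 ∧ G.al j2 ≠ e1 ∧
      t (G.pi f) = 0 ∧ t (G.pi g) = 0 := by
  have hE := h.toEK
  have hF := h.fresh
  have hcf : G.pi f ∈ fr := hF.Ffr _ q.fc.f1
  have hcg : G.pi g ∈ fr := hF.Ffr _ q.fc.f2
  have hne := Bas.a2 h r m q
  have tf : t (G.pi f) = 0 := by
    rw [hE.tok_fr hcf, if_neg fun k => disjoint_left.1 hj k q.fc.w1]
  have tg : t (G.pi g) = 0 := by
    rw [hE.tok_fr hcg, if_neg fun k => disjoint_left.1 hj k q.fc.w2]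
  have aj1 := G.al_al j1 s.j11
  have aj2 := G.al_al j2 s.j21
  have me := mem_bd.1 q.me
  have hbn : ∀ {v : V}, v ∈ fr → G.pi e1 ≠ v := fun hv k => r.hb (by
    rw [← r.sp.pf, k]
    exact hv)
  have n1 : G.al j1 ≠ e1 := by
    intro k
    apply me.2.2
    rw [← k, aj1, s.j13]
    exact q.fc.w1
  have n2 : G.al j2 ≠ e1 := by
    intro k
    apply me.2.2
    rw [← k, aj2, s.j23]
    exact q.fc.w2
  have n3 : G.al j1 ≠ G.al j2 := by
    intro k
    have k1 := (al_eq s.j11 s.j21).1 k
    apply hne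
    rw [← s.j13, k1, s.j23]
  have hsub : ({G.pi f, G.pi g} : Finset V) ⊆ W := by
    intro v hv
    rw [mem_insert, mem_singleton] at hv
    rcases hv with rfl | rfl
    · exact q.fc.w1
    · exact q.fc.w2
  have hbd : G.bd (W \ {G.pi f, G.pi g}) = {e1, G.al j1, G.al j2} := by
    ext d
    simp only [mem_insert, mem_singleton]
    constructor
    · intro hd
      obtain ⟨k1, k2, k3⟩ := mem_bd.1 hd
      obtain ⟨k4, k5⟩ := mem_sdiff.1 k2
      rw [mem_insert, mem_singleton, not_or] at k5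
      by_cases k6 : G.pi (G.al d) ∈ W
      · have k7 : G.pi (G.al d) = G.pi f ∨ G.pi (G.al d) = G.pi g := by
          by_contra k7
          exact k3 (mem_sdiff.2 ⟨k6, fun k8 => k7 (by
            rwa [mem_insert, mem_singleton] at k8)⟩)
        have k9 : G.al d ∉ F := fun k => by
          have k10 := hF.Ffr _ (hF.Fal _ k)
          rw [G.al_al d k1] at k10
          rcases s.fr2 _ k4 k10 with k11 | k11
          · exact k5.1 k11
          · exact k5.2 k11
        have k10 := G.al_al d k1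
        rcases k7 with k7 | k7
        · rcases s.st1 _ (G.al_mem d k1) k7 with k8 | k8 | k8
          · exact absurd (k8 ▸ q.fc.f1) k9
          · exact absurd (k8 ▸ s.f11) k9
          · right
            left
            rw [← k8, k10]
        · rcases s.st2 _ (G.al_mem d k1) k7 with k8 | k8 | k8
          · exact absurd (k8 ▸ q.fc.f2) k9
          · exact absurd (k8 ▸ hF.Fal _ s.f11) k9
          · right
            right
            rw [← k8, k10]
      · have k7 : d ∈ G.bd W := mem_bd.2 ⟨k1, k4, k6⟩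
        rw [q.bdW] at k7
        simp only [mem_insert, mem_singleton] at k7
        rcases k7 with rfl | rfl | rfl
        · exact Or.inl rfl
        · exact absurd rfl k5.1
        · exact absurd rfl k5.2
    · have hin : ∀ {v : V}, v ∈ W → v ∉ fr → v ∈ W \ {G.pi f, G.pi g} := by
        intro v k1 k2
        refine mem_sdiff.2 ⟨k1, fun k => k2 ?_⟩
        rw [mem_insert, mem_singleton] at k
        rcases k with rfl | rfl
        · exact hcf
        · exact hcg
      rintro (rfl | rfl | rfl)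
      · exact mem_bd.2 ⟨me.1, hin me.2.1 (by rw [r.sp.pf]; exact r.hb),
          fun k => me.2.2 (mem_sdiff.1 k).1⟩
      · refine mem_bd.2 ⟨G.al_mem _ s.j11, hin s.j14 s.j15, fun k => ?_⟩
        rw [aj1, s.j13] at k
        exact (mem_sdiff.1 k).2 (by simp)
      · refine mem_bd.2 ⟨G.al_mem _ s.j21, hin s.j24 s.j25, fun k => ?_⟩
        rw [aj2, s.j23] at k
        exact (mem_sdiff.1 k).2 (by simp)
  have hc3 : (G.bd (W \ {G.pi f, G.pi g})).card = 3 := by
    rw [hbd]
    exact card_eq_three.2 ⟨_, _, _, n1.symm, n2.symm, n3, rfl⟩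
  have hts : ∑ v ∈ W \ {G.pi f, G.pi g}, t v = 2 := by
    have k1 := sum_sdiff hsub (f := t)
    rw [sum_pair hne, tf, tg, q.tW] at k1
    linarith
  have hcard : (W \ {G.pi f, G.pi g}).card + 2 = W.card := by
    have k1 := card_sdiff_add_card_eq_card hsub
    rwa [card_pair hne] at k1
  refine ⟨⟨sdiff_subset.trans m.sub, ?_, ?_, ?_⟩, hbd, n1, n2, tf, tg⟩
  · have k1 := Nat.odd_iff.1 m.odd
    omega
  · exact ⟨G.pi f, mem_sdiff.2 ⟨m.sub q.fc.w1, fun k => (mem_sdiff.1 k).2 (by simp)⟩⟩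
  · rw [val_one, hc3, hts]
    norm_num

variable [Infinite V] [Infinite D]

/-- **two fresh vertices inside** -/
theorem f0s (hj : Disjoint jm W) (hsz : (fr ∩ W).card ≤ 2) : False := by
  have hE := h.toEK
  have hF := h.fresh
  obtain ⟨f1, j1, j2, s⟩ := Bas.exists_sz2 h r m q hj hsz
  obtain ⟨blk, hbd, n1, n2, tf, tg⟩ := Bas.sz2_blk h r m q hj s
  have hcf : G.pi f ∈ fr := hF.Ffr _ q.fc.f1
  have hcg : G.pi g ∈ fr := hF.Ffr _ q.fc.f2
  have hne := Bas.a2 h r m q
  have af1 := G.al_al f1 (hF.Fsub s.f11)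
  have aj1 := G.al_al j1 s.j11
  have aj2 := G.al_al j2 s.j21
  have me := mem_bd.1 q.me
  have hin : ∀ {v : V}, v ∈ W → v ∉ fr → v ∈ W \ {G.pi f, G.pi g} := by
    intro v k1 k2
    refine mem_sdiff.2 ⟨k1, fun k => k2 ?_⟩
    rw [mem_insert, mem_singleton] at k
    rcases k with rfl | rfl
    · exact hcf
    · exact hcg
  have hnf : G.pi f ∉ W \ {G.pi f, G.pi g} := fun k => (mem_sdiff.1 k).2 (by simp)
  have hng : G.pi g ∉ W \ {G.pi f, G.pi g} := fun k => (mem_sdiff.1 k).2 (by simp)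
  have me0 : e1 ∈ G.bd (W \ {G.pi f, G.pi g}) := by
    rw [hbd]
    simp
  have hUc : 1 < (G.vs \ (W \ {G.pi f, G.pi g})).card := by
    have k1 : ({G.pi f, G.pi g} : Finset V) ⊆ G.vs \ (W \ {G.pi f, G.pi g}) := by
      intro v hv
      rw [mem_insert, mem_singleton] at hv
      rcases hv with rfl | rfl
      · exact mem_sdiff.2 ⟨m.sub q.fc.w1, hnf⟩
      · exact mem_sdiff.2 ⟨m.sub q.fc.w2, hng⟩
    have k2 := card_le_card k1
    rw [card_pair hne] at k2
    omega
  obtain ⟨M2, o1, o2⟩ := Bas.sgO h r m q hj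
  rcases h.toX6.btI blk me0 hUc (Ts := ∅) (Or.inl rfl) (fun v hv => absurd hv (notMem_empty v)) with
    ⟨M, m1, m2⟩ | ⟨p, p1, p2, p3⟩
  · have mM : ∀ d ∈ M, G.pi d ∈ W \ {G.pi f, G.pi g} := fun d hd => (m1.hm.sub d hd).2
    have memM : ∀ {d : D}, d ∈ insert f1 (insert (G.al f1) M) ↔ d = f1 ∨ d = G.al f1 ∨ d ∈ M := by
      intro d
      rw [mem_insert, mem_insert]
    have hbW : ∀ d ∈ M, G.pi (G.al d) ∈ W → G.pi (G.al d) ∈ W \ {G.pi f, G.pi g} := by
      intro d hd h1
      by_contra h2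
      have h3 : d ∈ G.bd (W \ {G.pi f, G.pi g}) := mem_bd.2 ⟨(m1.hm.sub d hd).1, mM d hd, h2⟩
      have h4 := (m2.2 d h3).1 hd
      rw [h4] at h1
      exact me.2.2 h1
    have HMW : G.HM W (insert f1 (insert (G.al f1) M)) := by
      refine ⟨fun d hd => ?_, fun d hd hd2 => ?_, fun v hv => ?_⟩
      · rcases memM.1 hd with rfl | rfl | hd
        · exact ⟨hF.Fsub s.f11, by rw [s.f12]; exact q.fc.w1⟩
        · exact ⟨hF.Fsub (hF.Fal _ s.f11), by rw [s.f13]; exact q.fc.w2⟩
        · exact ⟨(m1.hm.sub d hd).1, (mem_sdiff.1 (mM d hd)).1⟩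
      · rcases memM.1 hd with rfl | rfl | hd
        · exact memM.2 (Or.inr (Or.inl rfl))
        · rw [af1]
          exact memM.2 (Or.inl rfl)
        · exact memM.2 (Or.inr (Or.inr (m1.hm.clo d hd (hbW d hd hd2))))
      · by_cases k1 : v = G.pi f
        · rw [card_eq_one]
          refine ⟨f1, ?_⟩
          ext d
          rw [mem_filter, mem_singleton, memM]
          constructor
          · rintro ⟨rfl | rfl | hd, h2⟩
            · rfl
            · exact absurd (s.f13.symm.trans (h2.trans k1)) hne.symm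
            · exact absurd (h2.trans k1 ▸ mM d hd) hnf
          · rintro rfl
            exact ⟨Or.inl rfl, s.f12.trans k1.symm⟩
        · by_cases k2 : v = G.pi g
          · rw [card_eq_one]
            refine ⟨G.al f1, ?_⟩
            ext d
            rw [mem_filter, mem_singleton, memM]
            constructor
            · rintro ⟨rfl | rfl | hd, h2⟩
              · exact absurd (s.f12.symm.trans (h2.trans k2)) hne
              · rfl
              · exact absurd (h2.trans k2 ▸ mM d hd) hng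
            · rintro rfl
              exact ⟨Or.inr (Or.inl rfl), s.f13.trans k2.symm⟩
          · have hv0 : v ∈ W \ {G.pi f, G.pi g} := mem_sdiff.2 ⟨hv, fun k => by
              rw [mem_insert, mem_singleton] at k
              rcases k with k | k
              · exact k1 k
              · exact k2 k⟩
            rw [← m1.hm.one v hv0]
            congr 1
            ext d
            rw [mem_filter, mem_filter, memM]
            constructor
            · rintro ⟨rfl | rfl | hd, h2⟩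
              · exact absurd (h2.symm.trans s.f12) k1
              · exact absurd (h2.symm.trans s.f13) k2
              · exact ⟨hd, h2⟩
            · rintro ⟨hd, h2⟩
              exact ⟨Or.inr (Or.inr hd), h2⟩
    have hX0 : ∀ X, G.Adm fr F X → X ⊆ W → X = ∅ := by
      intro X hX hXW
      rw [eq_empty_iff_forall_notMem]
      intro v hv
      rcases s.fr2 v (hXW hv) (hX.sub hv) with k | k
      · exact q.fc.u1 (hXW (hX.clo f q.fc.f1 (k ▸ hv)))
      · exact q.fc.u2 (hXW (hX.clo g q.fc.f2 (k ▸ hv)))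
    have GW : G.GHalf one1 fr F jm W (insert f1 (insert (G.al f1) M)) := by
      refine ⟨HMW, fun _ _ => one_pos, fun X hX hXW _ => ?_⟩
      rw [hX0 X hX hXW]
      refine ⟨by simp, ?_⟩
      rintro ⟨⟨v, hv⟩, k⟩
      exact notMem_empty v (k hv)
    have SW : G.Sg W (insert f1 (insert (G.al f1) M)) e1 := by
      refine ⟨q.me, fun d hd => ?_⟩
      obtain ⟨k1, k2, k3⟩ := mem_bd.1 hd
      rw [memM]
      constructor
      · rintro (rfl | rfl | hdM)
        · rw [s.f13] at k3
          exact absurd q.fc.w2 k3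
        · rw [af1, s.f12] at k3
          exact absurd q.fc.w1 k3
        · exact (m2.2 d (mem_bd.2 ⟨k1, mM d hdM, fun k => k3 (mem_sdiff.1 k).1⟩)).1 hdM
      · rintro rfl
        exact Or.inr (Or.inr ((m2.2 _ me0).2 rfl))
    refine h.toX6.glueFL q.fc GW o1 (Sg.fit m.sub SW o2) (Bas.hJ0 h r m q _) fun Z hZ => ?_
    have k1 : j1 ∈ G.bd Z := mem_bd.2 ⟨s.j11, by rw [s.j13]; exact hZ.arc, fun k =>
      s.j15 (hZ.adm.sub k)⟩
    have k2 := hZ.cl _ k1 s.j12
    rcases memM.1 k2 with k3 | k3 | k3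
    · exact s.j12 (k3 ▸ s.f11)
    · exact s.j12 (k3 ▸ hF.Fal _ s.f11)
    · exact hnf (s.j13 ▸ mM _ k3)
  · -- certificates
    obtain ⟨c, c1, c2, c3, c4⟩ := Bas.pO h r m q hj
    have pj1 := p3 (G.al j1) (by rw [hbd]; simp) n1
    have pj2 := p3 (G.al j2) (by rw [hbd]; simp) n2
    obtain ⟨p', hp'⟩ : ∃ p' : V → ℝ, ∀ v, p' v = if v = G.pi f ∨ v = G.pi g then -1 else p v :=
      ⟨_, fun _ => rfl⟩
    have pf : p' (G.pi f) = -1 := by rw [hp', if_pos (Or.inl rfl)]
    have pg : p' (G.pi g) = -1 := by rw [hp', if_pos (Or.inr rfl)]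
    have po : ∀ v ∈ W \ {G.pi f, G.pi g}, p' v = p v := by
      intro v hv
      rw [hp', if_neg]
      intro k
      exact (mem_sdiff.1 hv).2 (by
        rw [mem_insert, mem_singleton]
        exact k)
    have h0 : ∀ v ∈ W, v = G.pi f ∨ v = G.pi g ∨ v ∈ W \ {G.pi f, G.pi g} := by
      intro v hv
      by_cases k1 : v = G.pi f
      · exact Or.inl k1
      · by_cases k2 : v = G.pi g
        · exact Or.inr (Or.inl k2)
        · exact Or.inr (Or.inr (mem_sdiff.2 ⟨hv, fun k => by
            rw [mem_insert, mem_singleton] at k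
            rcases k with k | k
            · exact k1 k
            · exact k2 k⟩))
    have hone : ∀ d ∈ G.ds, d ∉ F → G.pi d = G.pi f ∨ G.pi d = G.pi g →
        p' (G.pi d) + p' (G.pi (G.al d)) = 0 := by
      intro d hd hdF hp
      rcases hp with hp | hp
      · rcases s.st1 d hd hp with k | k | k
        · exact absurd (k ▸ q.fc.f1) hdF
        · exact absurd (k ▸ s.f11) hdF
        · rw [k, s.j13, pf, po _ (hin s.j14 s.j15), pj1]
          norm_num
      · rcases s.st2 d hd hp with k | k | k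
        · exact absurd (k ▸ q.fc.f2) hdF
        · exact absurd (k ▸ hF.Fal _ s.f11) hdF
        · rw [k, s.j23, pg, po _ (hin s.j24 s.j25), pj2]
          norm_num
    have HP : G.HPot one1 t F W p' := by
      refine ⟨fun v hv ht => ?_, fun d hd k1 k2 _ hdF => ?_, fun d hd k1 k2 => ?_⟩
      · rcases h0 v hv with rfl | rfl | k
        · exact absurd tf ht
        · exact absurd tg ht
        · rw [po v k]
          exact p1.tok v k ht
      · rcases h0 _ k1 with k3 | k3 | k3
        · exact hone d hd hdF (Or.inl k3)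
        · exact hone d hd hdF (Or.inr k3)
        · have haF : G.al d ∉ F := fun k => hdF (by
            have := hF.Fal _ k
            rwa [G.al_al d hd] at this)
          rcases h0 _ k2 with k4 | k4 | k4
          · have := hone (G.al d) (G.al_mem d hd) haF (Or.inl k4)
            rw [G.al_al d hd] at this
            linarith
          · have := hone (G.al d) (G.al_mem d hd) haF (Or.inr k4)
            rw [G.al_al d hd] at this
            linarith
          · rw [po _ k3, po _ k4]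
            exact p1.jq d hd k3 k4 zero_lt_one hdF
      · have e1 : p' (G.pi d) = -1 := by
          rcases s.fr2 _ k1 (hF.Ffr _ hd) with k | k
          · rw [k, pf]
          · rw [k, pg]
        have e2 : p' (G.pi (G.al d)) = -1 := by
          rcases s.fr2 _ k2 (hF.Ffr _ (hF.Fal _ hd)) with k | k
          · rw [k, pf]
          · rw [k, pg]
        rw [e1, e2]
        norm_num
    refine h.nc ⟨_, HP.join c1 (fun _ _ => rfl) hF.Fsub hF.Fal (fun d hd _ hdF => ?_)
      fun d hd hdF => ?_⟩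
    · rw [q.bdW] at hd
      simp only [mem_insert, mem_singleton] at hd
      rcases hd with rfl | rfl | rfl
      · rw [po _ (mem_bd.1 me0).2.1, p2, c2]
        norm_num
      · exact absurd q.fc.f1 hdF
      · exact absurd q.fc.f2 hdF
    · rw [q.bdW] at hd
      simp only [mem_insert, mem_singleton] at hd
      rcases hd with rfl | rfl | rfl
      · exact absurd hdF q.nF
      · rw [pf, c3]
        norm_num
      · rw [pg, c4]
        norm_num

/-- **row f0 without star vertices inside, up to the odd arc parts of value 5** -/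
theorem f0x (hj : Disjoint jm W)
    (h6 : ∀ Y, Arc2 G fr F (G.vs \ W) (G.al f) (G.al g) Y → Odd Y.card →
      G.pi (G.al e1) ∈ Y → G.val one1 t Y ≠ 5) : False := by
  rcases Nat.lt_or_ge (fr ∩ W).card 3 with k | k
  · exact Bas.f0s h r m q hj (by omega)
  · exact Bas.f0c h r m q hj k h6

end Bas

end MG

end RH
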