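import Pool.Agent.Lib.RH.CE6F3A
import Pool.Agent.Lib.RH.CE6Board

/-! # Even sets crossed by a circuit (row F3)

`X6.f3`: a smallest bad state has no even set of value 4 with one token, which is real, crossed by a
circuit. Inner instances: `ka` (no used unit, the arc linked), two betas and `kb` (both F-units used),
`bp3`, two betas; outer instances: the 4-circuit `cf` with one token. -/

set_option autoImplicit false

namespace RH

open Finset Classical

namespace MG

variable {V D : Type*} {G : MG V D} {t : V → ℝ} {fr : Finset V} {F : Finset D}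
variable {jm A X Y Ts : Finset V} {f g u x y z : D} {M : Finset D} {np nv ne : ℕ}

/-- an F-dart between two vertices of `Z` -/
theorem FrS.other {z : D → ℝ} (hF : G.FrS z fr F jm) {d : D} (hd : d ∈ F) :
    ∃ d' ∈ F, d' ≠ d ∧ G.pi d' = G.pi d := by
  have h1 := hF.two _ (hF.Ffr d hd)
  obtain ⟨a, b, h2, h3⟩ := card_eq_two.1 h1
  have ha : a ∈ F.filter fun x => G.pi x = G.pi d := by rw [h3]; simp
  have hb : b ∈ F.filter fun x => G.pi x = G.pi d := by rw [h3]; simp
  by_cases h4 : a = d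
  · exact ⟨b, (mem_filter.1 hb).1, fun h5 => h2 (h4.trans h5.symm), (mem_filter.1 hb).2⟩
  · exact ⟨a, (mem_filter.1 ha).1, h4, (mem_filter.1 ha).2⟩

/-- no used exit outside -/
def Out0 (G : MG V D) (fr : Finset V) (F : Finset D) (jm Y : Finset V) (f g k : D) : Prop :=
  ∃ M, G.GHalf one1 fr F jm (G.vs \ Y) M ∧ G.al f ∉ M ∧ G.al g ∉ M ∧ G.al k ∉ M

namespace FE

variable (b : FE G t fr F jm Y f g u)
include b

theorem smI (h : X6 G t fr F jm) : (fr ∩ Y).card < fr.card := by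
  refine card_lt_card ⟨inter_subset_left, fun h1 => ?_⟩
  have h2 := h.fresh.Ffr _ (h.fresh.Fal f b.fF)
  exact (mem_bd.1 b.fb).2.2 (mem_inter.1 (h1 h2)).2

theorem smO (h : X6 G t fr F jm) : (fr ∩ (G.vs \ Y)).card < fr.card := by
  refine card_lt_card ⟨inter_subset_left, fun h1 => ?_⟩
  have h2 := h.fresh.Ffr f b.fF
  exact (mem_sdiff.1 (mem_inter.1 (h1 h2)).2).2 (mem_bd.1 b.fb).2.1

theorem halfI (h : X6 G t fr F jm) {pp : Fin np → D} (hM : TSol G fr F jm Y pp ∅ M) :
    G.GHalf one1 fr F jm Y M := by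
  refine hM.half h.fresh h.jm2 ?_
  by_cases h1 : jm = ∅
  · exact Or.inl h1.symm
  · refine Or.inr (Or.inr fun h2 => ?_)
    obtain ⟨v, hv⟩ := nonempty_iff_ne_empty.2 h1
    exact disjoint_left.1 b.jY hv (h2 hv)

theorem nonU : (G.vs \ Y).Nonempty := card_pos.1 (by have := b.two; omega)

theorem ed3 : E3 G Y u f g := b.e.rot.rot

/-- **F3**: `u` and exactly one of `f`, `g` -/
theorem bpI [Infinite V] [Infinite D] (h : X6 G t fr F jm) :
    In2 G fr F jm Y u f g ∨ In2 G fr F jm Y u g f := by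
  have b0 := b.abs
  have h0 := h.toEK.abs
  obtain ⟨hmem, hinj, -, -⟩ := b0.inj3 b.ed3
  rcases h.tplI b0.iblk Tpl.bp3_reg Tpl.bp3_tab (by decide) rfl hmem hinj (Or.inl (b.smI h))
    (Or.inl rfl) (fun v hv => absurd hv (notMem_empty v)) (fun v _ => b0.kap1 h0 hmem hinj v)
    (fun _ _ _ _ _ _ => mem_univ _) (fun _ _ _ _ _ _ => mem_univ _) with
    ⟨M1, m, k1, k2⟩ | ⟨q, c, k1, -, k3, k4, k5⟩
  · have k6 := b.halfI h k1
    have l3 : ∀ i, ![u, f, g] i ∈ M1 ↔ i ∈ univ.filter fun i => ![u, f, g] i ∈ M1 := fun i => by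
      rw [mem_filter]
      exact ⟨fun k => ⟨mem_univ _, k⟩, fun k => k.2⟩
    have q0 : u ∈ M1 ↔ _ := l3 0
    have q1 : f ∈ M1 ↔ _ := l3 1
    have q2 : g ∈ M1 ↔ _ := l3 2
    rcases Tpl.bp3_pat _ _ k2 with l4 | l4
    · left
      rw [l4] at q0 q1 q2
      exact ⟨M1, k6, q0.2 (by decide), q1.2 (by decide), fun q => absurd (q2.1 q) (by decide)⟩
    · right
      rw [l4] at q0 q1 q2
      exact ⟨M1, k6, q0.2 (by decide), q2.2 (by decide), fun q => absurd (q1.1 q) (by decide)⟩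
  · exact (Tpl.bp3_noC c k3 k4).elim

/-- **two betas** at `x`, `y` -/
theorem bbI [Infinite V] [Infinite D] (h : X6 G t fr F jm) (e : E3 G Y x y z) :
    In2 G fr F jm Y x y z ∨
      ∃ q, HPe G t F Y q ∧ q (G.pi z) = 1 ∧ q (G.pi x) = -1 ∧ q (G.pi y) = -1 := by
  have b0 := b.abs
  have h0 := h.toEK.abs
  have hinj : Function.Injective ![x, y] := by
    have n3 := e.fg
    intro i j hij
    fin_cases i <;> fin_cases j <;> simp_all
  have hmem : ∀ i, ![x, y] i ∈ G.bd Y := by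
    intro i
    rw [e.bd]
    fin_cases i <;> simp
  have hzd : Drop G Y ![x, y] z := by
    refine ⟨by rw [e.bd]; simp, fun i => ?_⟩
    have n1 := e.fk
    have n2 := e.gk
    fin_cases i
    · exact n1
    · exact n2
  have hev : Even (Y.card + 2) := by
    have := Nat.even_iff.1 b.ev
    rw [Nat.even_iff]
    omega
  have ht : ∑ v ∈ Y, t v + (((G.bd Y).filter fun d => ∀ i, ![x, y] i ≠ d).card : ℝ) +
      (Tpl.bb.nT univ : ℕ) = 6 := by
    have h1 := b.val
    rw [val_one] at h1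
    have h3 := drop_card hmem hinj
    have h3' : ((((G.bd Y).filter fun d => ∀ i, ![x, y] i ≠ d).card : ℕ) : ℝ) + (2 : ℕ) =
        ((G.bd Y).card : ℕ) := by exact_mod_cast h3
    have h4 : Tpl.bb.nT univ = 4 := by decide
    rw [h4]
    push_cast at h3' ⊢
    linarith
  rcases h.tplGe (Ts := ∅) b.hY b.nonU Tpl.bb_reg Tpl.bb_tab hmem hinj
    (b0.iblk.fact (pp := ![x, y]) h.toEK (fun v _ => b0.kap1 h0 hmem hinj v)
      (fun _ _ _ _ _ _ => mem_univ _) (fun _ _ _ _ _ _ => mem_univ _)) hev ht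
    (Or.inl rfl) (fun v hv => absurd hv (notMem_empty v)) (Or.inl (b.smI h)) with
    ⟨M1, m, k1, k2⟩ | ⟨q, c, k1, k3, -, k4, k5⟩
  · left
    have l3 : ∀ i, ![x, y] i ∈ M1 := fun i => by
      have k8 : i ∈ univ.filter fun i => ![x, y] i ∈ M1 := by
        rw [Tpl.bb_pat _ _ k2]
        fin_cases i <;> simp
      exact (mem_filter.1 k8).2
    refine ⟨M1, b.halfI h k1, l3 0, l3 1, fun hf => ?_⟩
    obtain ⟨i, hi⟩ := k1.ex z hzd.1 hf
    exact hzd.2 i hi
  · right
    have c0 : c (Tpl.bb.pt 0) = 1 := k4 _ (by decide)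
    have c1 : c (Tpl.bb.pt 1) = 1 := k4 _ (by decide)
    have q0 := k5 0
    have q1 := k5 1
    rw [c0] at q0
    rw [c1] at q1
    change q (G.pi x) + 1 = 0 at q0
    change q (G.pi y) + 1 = 0 at q1
    exact ⟨q, k1, k3 z hzd, by linarith, by linarith⟩

/-- **outside: the 4-circuit with centre `x`** -/
theorem cfO [Infinite V] [Infinite D] (h : X6 G t fr F jm) (e : E3 G Y x y z) :
    Out0 G fr F jm Y x y z ∨ Out2 G fr F jm Y x y z ∨ Out2 G fr F jm Y x z y ∨
      ∃ q, HPe G t F (G.vs \ Y) q ∧ q (G.pi (G.al x)) = -1 ∧ q (G.pi (G.al y)) = 1 ∧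
        q (G.pi (G.al z)) = 1 := by
  have b0 := b.abs
  have h0 := h.toEK.abs
  obtain ⟨-, -, hpp, hinj⟩ := b0.inj3 e
  have ob := b0.oblk h0.fresh
  have hmem : ∀ i, ![G.al x, G.al y, G.al z] i ∈ G.bd (G.vs \ Y) := fun i => by
    rw [hpp]
    exact mem_image_of_mem _ (mem_univ _)
  have hdr : (G.bd (G.vs \ Y)).filter (fun d => ∀ i, ![G.al x, G.al y, G.al z] i ≠ d) = ∅ := by
    rw [filter_eq_empty_iff]
    intro d hd h1
    rw [hpp] at hd
    obtain ⟨i, -, hi⟩ := mem_image.1 hd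
    exact h1 i hi
  have hc := ob.cardA h.even
  have hev : Even ((G.vs \ Y).card + 4) := by
    rw [Nat.even_iff]
    omega
  have ht : ∑ v ∈ G.vs \ Y, t v +
      (((G.bd (G.vs \ Y)).filter fun d => ∀ i, ![G.al x, G.al y, G.al z] i ≠ d).card : ℝ) +
      (Tpl.cf.nT univ : ℕ) = 6 := by
    have h4 : Tpl.cf.nT univ = 1 := by decide
    rw [hdr, card_empty, h4, (ob.valA h0 hpp hinj).2]
    push_cast
    norm_num
  rcases h.tplGe (Ts := jm) sdiff_subset (by
      rw [Finset.sdiff_sdiff_eq_self b.hY]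
      exact card_pos.1 (by have := b.big; omega)) Tpl.cf_reg Tpl.cf_tab hmem hinj
    (ob.fact h0 hpp hinj (n0 := 8) (by norm_num) (fun v hv => ob.one1 h0 hpp hinj hv)
      (fun _ _ _ _ _ _ => mem_univ _) (fun _ _ _ _ _ _ => mem_univ _)) hev ht
    h.jm2 (fun v hv => Or.inl hv) (Or.inl (b.smO h)) with
    ⟨M2, m, k1, k2⟩ | ⟨q, c, k1, -, k3, k4, k5⟩
  · have k6 : G.GHalf one1 fr F jm (G.vs \ Y) M2 := k1.half h.fresh h.jm2 (Or.inl rfl)
    have l3 : ∀ i, ![G.al x, G.al y, G.al z] i ∈ M2 ↔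
        i ∈ univ.filter fun i => ![G.al x, G.al y, G.al z] i ∈ M2 := fun i => by
      rw [mem_filter]
      exact ⟨fun k => ⟨mem_univ _, k⟩, fun k => k.2⟩
    have q0 : G.al x ∈ M2 ↔ _ := l3 0
    have q1 : G.al y ∈ M2 ↔ _ := l3 1
    have q2 : G.al z ∈ M2 ↔ _ := l3 2
    rcases Tpl.cf_pat _ _ k2 with l4 | l4 | l4
    · left
      rw [l4] at q0 q1 q2
      exact ⟨M2, k6, fun q => absurd (q0.1 q) (by decide), fun q => absurd (q1.1 q) (by decide),
        fun q => absurd (q2.1 q) (by decide)⟩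
    · right
      left
      rw [l4] at q0 q1 q2
      exact ⟨M2, k6, q0.2 (by decide), q1.2 (by decide), fun q => absurd (q2.1 q) (by decide)⟩
    · right
      right
      left
      rw [l4] at q0 q1 q2
      exact ⟨M2, k6, q0.2 (by decide), q2.2 (by decide), fun q => absurd (q1.1 q) (by decide)⟩
  · right
    right
    right
    obtain ⟨c0, c1, c2⟩ := Tpl.cf_col c k3 k4
    have q0 := k5 0
    have q1 := k5 1
    have q2 := k5 2
    rw [c0] at q0
    rw [c1] at q1
    rw [c2] at q2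
    change q (G.pi (G.al x)) + 1 = 0 at q0
    change q (G.pi (G.al y)) + -1 = 0 at q1
    change q (G.pi (G.al z)) + -1 = 0 at q2
    exact ⟨q, k1, by linarith, by linarith, by linarith⟩

/-- there is an arc union without the end of `u` -/
def Fre (_ : FE G t fr F jm Y f g u) : Prop :=
  ∃ B ⊆ fr, B ⊆ Y ∧ (∀ d ∈ F, G.pi d ∈ B → G.pi (G.al d) ∈ B ∨ d = f ∨ d = g) ∧
    G.pi f ∈ B ∧ G.pi g ∈ B ∧ G.pi u ∉ B

/-- if every arc union contains the end of `u`, then the arc is linked -/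
theorem lkN (h1 : ¬ b.Fre) (hu : u ∉ M) : LKf G fr F Y f g M := by
  intro X x1 x2 x3 x4 x5 x6
  by_cases h2 : G.pi u ∈ X
  · have h3 : u ∈ G.bd X := by
      obtain ⟨k1, k2, k3⟩ := mem_bd.1 b.ub
      exact mem_bd.2 ⟨k1, h2, fun k => k3 (x2 k)⟩
    exact hu (x6 u h3 b.e.fk.symm b.e.gk.symm)
  · exact h1 ⟨X, x1, x2, x3, x4, x5, h2⟩

/-- different exits have different ends -/
theorem inj {d e : D} (h : X6 G t fr F jm) (hd : d ∈ G.bd Y) (he : e ∈ G.bd Y)
    (hn : d ≠ e) : G.pi d ≠ G.pi e := fun k => hn (b.abs.inj h.toEK.abs d hd e he k)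

/-- the hypotheses of `tplA` which do not depend on the table -/
theorem kcA (h : X6 G t fr F jm) {T : Tpl 4 3 2} (hq : ∀ κ, 6 + 2 * T.nQ {0, 1, 2} κ ≤
      T.val {0, 1, 2} + 5) : ∀ X ⊆ fr, X ⊆ Y → Acl G F ![f, g] univ X →
    (∀ i ∈ (univ : Finset (Fin 2)), G.pi (![f, g] i) ∈ X) →
    Even (X.card + ({0, 1, 2} : Finset (Fin 4)).card) → ∃ n : ℕ, G.val one1 t X = n ∧
      6 + 2 * T.nQ {0, 1, 2} (TOk.kap G ![f, g] X) ≤ T.val {0, 1, 2} + n := by
  intro X x1 x2 x3 x4 x5
  obtain ⟨n, n1, n2⟩ := h.val_nat (x2.trans b.hY)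
  refine ⟨n, n1, (hq _).trans ?_⟩
  have hf : G.pi f ∈ X := x4 0 (mem_univ _)
  have hg : G.pi g ∈ X := x4 1 (mem_univ _)
  have h3 : ({0, 1, 2} : Finset (Fin 4)).card = 3 := by decide
  rw [h3, Nat.even_iff] at x5
  have h4 : X.card ≠ 1 := by
    intro h5
    obtain ⟨v, hv⟩ := card_eq_one.1 h5
    rw [hv, mem_singleton] at hf hg
    exact b.inj h b.fb b.gb b.e.fg (hf.trans hg.symm)
  have h5 := h.odd X (x2.trans b.hY) (by rw [Nat.odd_iff]; omega) h4
  rw [n1] at h5
  have h6 : 5 ≤ n := by exact_mod_cast h5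
  omega

theorem fg_inj : Function.Injective ![f, g] := by
  have n3 := b.e.fg
  intro i j hij
  fin_cases i <;> fin_cases j <;> simp_all

theorem fg_mem : ∀ i, ![f, g] i ∈ G.bd Y := by
  intro i
  rw [b.e.bd]
  fin_cases i <;> simp

theorem dropu : ∀ {d : D}, Drop G Y ![f, g] d ↔ d = u := by
  intro d
  constructor
  · rintro ⟨h1, h2⟩
    rcases b.mem3 h1 with h3 | h3 | h3
    · exact absurd h3.symm (h2 0)
    · exact absurd h3.symm (h2 1)
    · exact h3
  · rintro rfl
    refine ⟨b.ub, fun i => ?_⟩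
    have n1 := b.e.fk
    have n2 := b.e.gk
    fin_cases i
    · exact n1
    · exact n2

theorem htA {T : Tpl 4 3 2} (hT : T.nT univ = 4) :
    ∑ v ∈ Y, t v + (((G.bd Y).filter fun d => ∀ i, ![f, g] i ≠ d).card : ℝ) +
      (T.nT univ : ℕ) = 6 := by
  have h1 := b.val
  rw [val_one] at h1
  have h3 := drop_card b.fg_mem b.fg_inj
  have h3' : ((((G.bd Y).filter fun d => ∀ i, ![f, g] i ≠ d).card : ℕ) : ℝ) + (2 : ℕ) =
      ((G.bd Y).card : ℕ) := by exact_mod_cast h3
  rw [hT]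
  push_cast at h3' ⊢
  linarith

theorem hBA (hB : b.Fre) : ∃ B, B ⊆ fr ∧ B ⊆ Y ∧ Acl G F ![f, g] univ B ∧
    (∀ i ∈ (univ : Finset (Fin 2)), G.pi (![f, g] i) ∈ B) ∧ (∅ : Finset V) ⊆ B ∧
      ∀ v ∈ B, v ∈ (∅ : Finset V) ∨ (v ∉ jm ∧ ∀ d, Drop G Y ![f, g] d → G.pi d ≠ v) := by
  obtain ⟨B, b1, b2, b3, b4, b5, b6⟩ := hB
  refine ⟨B, b1, b2, fun d hd h1 => ?_, fun i _ => ?_, empty_subset _, fun v hv => Or.inr
    ⟨fun k => disjoint_left.1 b.jY k (b2 hv), fun d hd k => ?_⟩⟩
  · rcases b3 d hd h1 with h2 | h2 | h2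
    · exact Or.inl h2
    · exact Or.inr ⟨0, mem_univ _, h2.symm⟩
    · exact Or.inr ⟨1, mem_univ _, h2.symm⟩
  · fin_cases i
    · exact b4
    · exact b5
  · rw [b.dropu.1 hd] at k
    exact b6 (k ▸ hv)

/-- from an arc state: a half and the link of the arc -/
theorem ofA {T : Tpl 4 3 2} {Js : Finset (Fin 4)} (hJ : Js.Nonempty)
    {m : Finset (Fin 3)} (hm : 2 ∈ m) (hcr : ∀ i, ¬ (T.a i ∈ ({0, 1, 2} : Finset (Fin 4)) ↔
      T.b i ∈ ({0, 1, 2} : Finset (Fin 4))) → i = 2)
    (s : ASol G fr F jm Y T ![f, g] {0, 1, 2} Js univ ∅ M m) :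
    G.GHalf one1 fr F jm Y M ∧ u ∉ M ∧ LKf G fr F Y f g M := by
  have hu : u ∉ M := fun k => by
    obtain ⟨i, hi⟩ := s.ex u b.ub k
    exact (b.dropu.2 rfl).2 i hi
  have hnu : ∀ X ⊆ Y, (∀ d ∈ G.bd X, d ≠ f → d ≠ g → d ∈ M) → G.pi u ∉ X := by
    intro X x1 x2 k
    obtain ⟨k1, k2, k3⟩ := mem_bd.1 b.ub
    exact hu (x2 u (mem_bd.2 ⟨k1, k, fun k4 => k3 (x1 k4)⟩) b.e.fk.symm b.e.gk.symm)
  have hsp : ∀ X ⊆ Y, G.pi u ∉ X → ∀ v ∈ X, v ∈ (∅ : Finset V) ∨
      (v ∉ jm ∧ ∀ d, Drop G Y ![f, g] d → G.pi d ≠ v) := by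
    intro X x1 x2 v hv
    refine Or.inr ⟨fun k => disjoint_left.1 b.jY k (x1 hv), fun d hd k => ?_⟩
    rw [b.dropu.1 hd] at k
    exact x2 (k ▸ hv)
  refine ⟨⟨s.hm, fun _ _ => one_pos, fun X hX x1 x2 => ?_⟩, hu, ?_⟩
  · have h1 := hnu X x1 fun d hd _ _ => x2 d hd
    obtain ⟨h2, -⟩ := s.st X hX x1 (fun d hd => Or.inl (x2 d hd)) (hsp X x1 h1)
    refine ⟨h2, fun h3 => ?_⟩
    obtain ⟨⟨v, hv⟩, h4⟩ := h3
    exact disjoint_left.1 b.jY hv (x1 (h4 hv))
  · intro X x1 x2 x3 x4 x5 x6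
    have h1 := hnu X x2 x6
    obtain ⟨-, h2⟩ := s.ar X x1 x2 (fun d hd k => by
        rcases x3 d hd k with k1 | k1 | k1
        · exact Or.inl k1
        · exact Or.inr ⟨0, mem_univ _, k1.symm⟩
        · exact Or.inr ⟨1, mem_univ _, k1.symm⟩) (fun i _ => by
        fin_cases i
        · exact x4
        · exact x5) (fun d hd k => Or.inl (x6 d hd (fun k1 => k 0 (mem_univ _) k1.symm)
          (fun k1 => k 1 (mem_univ _) k1.symm))) (hsp X x2 h1)
      (fun i _ k => absurd (mem_univ i) k) (fun i k => by rw [hcr i k]; exact hm)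
    exact h2 ⟨Or.inr hJ, empty_subset _⟩

/-- **F1**: nothing used, the arc linked -/
theorem inA [Infinite V] [Infinite D] (h : X6 G t fr F jm)
    (hsz : b.Fre → (fr ∩ Y).card + 3 < fr.card ∨
      ((fr ∩ Y).card + 3 ≤ fr.card ∧ Y.card + 4 < G.vs.card)) :
    ∃ M, G.GHalf one1 fr F jm Y M ∧ f ∉ M ∧ g ∉ M ∧ u ∉ M ∧ LKf G fr F Y f g M := by
  have b0 := b.abs
  have h0 := h.toEK.abs
  by_cases hB : b.Fre
  · have hev : Even (Y.card + 4) := by
      have := Nat.even_iff.1 b.ev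
      rw [Nat.even_iff]
      omega
    rcases h.tplA (Ts := ∅) b.hY b.nonU Tpl.ka_reg Tpl.ka_tab Tpl.ka_arc b.fg_mem b.fg_inj
      (b0.iblk.fact (pp := ![f, g]) h.toEK (fun v _ => b0.kap1 h0 b.fg_mem b.fg_inj v)
        (fun _ _ _ _ _ _ => mem_univ _) (fun _ _ _ _ _ _ => mem_univ _)) hev
      (b.htA (by decide)) (fun i _ => by
        fin_cases i
        · exact b.fF
        · exact b.gF) (fun v hv => absurd hv (notMem_empty v)) (Or.inl (by
        rw [card_empty]
        decide))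
      (b.hBA hB) (b.kcA h Tpl.ka_q) (hsz hB) with ⟨M, m, s, k2⟩ | ⟨p, c, -, -, -, k4, k5, -⟩
    · obtain ⟨k3, k4⟩ := Tpl.ka_pat _ _ k2
      obtain ⟨l1, l2, l3⟩ := b.ofA ⟨0, by decide⟩ k4 (by decide) s
      have l4 : ∀ i, ![f, g] i ∉ M := fun i k => by
        have k8 : i ∈ univ.filter fun i => ![f, g] i ∈ M := mem_filter.2 ⟨mem_univ _, k⟩
        rw [k3] at k8
        exact notMem_empty i k8
      exact ⟨M, l1, l4 0, l4 1, l2, l3⟩
    · exfalso
      have a0 : c 0 + c 1 ≤ 0 := k4 0 (by decide)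
      have a1 : c 0 = 1 := k5 0 (by decide)
      have a2 : c 1 = 1 := k5 1 (by decide)
      linarith
  · obtain ⟨M, m, k1, -⟩ := h.tplI4 (Ts := ∅) b0.iblk Tpl.emp_reg
      (Tpl.emp_tabF 0 (4 + 0) univ (Tpl.iE univ) (Tpl.iO univ)) (by decide) rfl
      (pp := Fin.elim0) (fun i => i.elim0) (fun i => i.elim0) (Or.inl (b.smI h))
      (fun v hv => by
        have k1 : ((G.bd Y).filter fun d => G.pi d = v).card ≤ 1 := by
          refine card_le_one.2 fun d hd e he => ?_
          obtain ⟨l1, l2⟩ := mem_filter.1 hd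
          obtain ⟨l3, l4⟩ := mem_filter.1 he
          exact b0.inj h0 d l1 e l3 (l2.trans l4.symm)
        have k2 : t v ≤ 1 := by
          rw [← b.tY]
          exact single_le_sum (fun w hw => h.t0 w (b.hY hw)) hv
        have k3 : (((G.bd Y).filter fun d => G.pi d = v).card : ℝ) ≤ (1 : ℕ) := by
          exact_mod_cast k1
        push_cast at k3
        linarith) (fun v => v.elim0) (Or.inl rfl) (fun v hv => absurd hv (notMem_empty v))
      (fun _ _ => mem_univ _) (fun _ _ _ _ _ _ => mem_univ _) (fun _ _ _ _ _ _ => mem_univ _)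
    have k2 : ∀ d ∈ G.bd Y, d ∉ M := fun d hd k => by
      obtain ⟨i, -⟩ := k1.ex d hd k
      exact i.elim0
    exact ⟨M, b.halfI h k1, k2 f b.fb, k2 g b.gb, k2 u b.ub, b.lkN hB (k2 u b.ub)⟩

/-- **link law**: a half certificate which is at most -1 at the two used ends of the arc -/
theorem law (hF : G.FrS one1 fr F jm) (hM : G.HM Y M) {p : V → ℝ} (hp : G.HPot one1 t F Y p)
    (pf : p (G.pi f) ≤ -1) (pg : p (G.pi g) ≤ -1) (mf : f ∈ M) (mg : g ∈ M) :
    LKf G fr F Y f g M := by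
  intro X x1 x2 x3 x4 x5 x6
  obtain ⟨fd, fY, fn⟩ := mem_bd.1 b.fb
  obtain ⟨gd, gY, gn⟩ := mem_bd.1 b.gb
  -- unused J-darts
  obtain ⟨U, hU⟩ : ∃ U : Finset D, ∀ d, d ∈ U ↔ (d ∈ G.ds ∧ G.pi d ∈ X ∧ d ∉ F ∧ d ∉ M) :=
    ⟨G.ds.filter fun d => G.pi d ∈ X ∧ d ∉ F ∧ d ∉ M, fun d => mem_filter⟩
  have u1 : ∀ d ∈ U, G.al d ∈ U := by
    intro d hd
    rw [hU] at hd ⊢
    obtain ⟨k1, k2, k3, k4⟩ := hd
    have k5 : G.pi (G.al d) ∈ X := by
      by_contra k5
      exact k4 (x6 d (mem_bd.2 ⟨k1, k2, k5⟩) (fun k => k3 (k ▸ b.fF)) fun k => k3 (k ▸ b.gF))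
    refine ⟨G.al_mem d k1, k5, fun k6 => k3 ?_, fun k6 => k4 ?_⟩
    · have := hF.Fal _ k6
      rwa [G.al_al d k1] at this
    · have := hM.clo _ k6 (by rw [G.al_al d k1]; exact x2 k2)
      rwa [G.al_al d k1] at this
  have u2 : ∑ d ∈ U, p (G.pi d) = 0 := by
    have k1 : ∑ d ∈ U, p (G.pi d) = ∑ d ∈ U, p (G.pi (G.al d)) := by
      refine sum_bij' (fun d _ => G.al d) (fun d _ => G.al d) (fun d hd => u1 d hd)
        (fun d hd => u1 d hd) (fun d hd => G.al_al d ((hU d).1 hd).1)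
        (fun d hd => G.al_al d ((hU d).1 hd).1) fun d hd => ?_
      rw [G.al_al d ((hU d).1 hd).1]
    have k2 : ∑ d ∈ U, (p (G.pi d) + p (G.pi (G.al d))) = 0 := by
      refine sum_eq_zero fun d hd => ?_
      obtain ⟨l1, l2, l3, l4⟩ := (hU d).1 hd
      exact hp.jq d l1 (x2 l2) (x2 ((hU _).1 (u1 d hd)).2.1) (by unfold one1; exact one_pos) l3
    rw [sum_add_distrib] at k2
    linarith
  -- used F-darts
  obtain ⟨W, hW⟩ : ∃ W : Finset D, ∀ d, d ∈ W ↔ (d ∈ M ∧ d ∈ F ∧ G.pi d ∈ X) :=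
    ⟨M.filter fun d => d ∈ F ∧ G.pi d ∈ X, fun d => mem_filter⟩
  have w1 : ∑ d ∈ W, p (G.pi d) = ∑ d ∈ U, p (G.pi d) := by
    have key : ∀ S : Finset D, (∀ d ∈ S, G.pi d ∈ X) →
        ∑ d ∈ S, p (G.pi d) = ∑ v ∈ X, ((S.filter fun d => G.pi d = v).card : ℝ) * p v := by
      intro S hS
      rw [← sum_fiberwise_of_maps_to (g := G.pi) (t := X) hS]
      refine sum_congr rfl fun v _ => ?_
      rw [sum_congr rfl (g := fun _ => p v) fun d hd => by rw [(mem_filter.1 hd).2], sum_const,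
        nsmul_eq_mul]
    rw [key W fun d hd => ((hW d).1 hd).2.2, key U fun d hd => ((hU d).1 hd).2.1]
    refine sum_congr rfl fun v hv => ?_
    congr 2
    have hvj : v ∉ jm := fun k => disjoint_left.1 b.jY k (x2 hv)
    obtain ⟨j, hj⟩ := card_eq_one.1 (hF.jd v (x1 hv) hvj)
    obtain ⟨e, he⟩ := card_eq_one.1 (hM.one v (x2 hv))
    have hj1 : j ∈ (G.st v).filter fun d => d ∉ F := by rw [hj]; exact mem_singleton_self _
    obtain ⟨hj2, hj3⟩ := mem_filter.1 hj1
    obtain ⟨hj4, hj5⟩ := mem_st.1 hj2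
    have he1 : e ∈ M.filter fun d => G.pi d = v := by rw [he]; exact mem_singleton_self _
    obtain ⟨he2, he3⟩ := mem_filter.1 he1
    have hed := (hM.sub e he2).1
    have hju : ∀ d ∈ G.ds, G.pi d = v → d ∉ F → d = j := by
      intro d k1 k2 k3
      have : d ∈ (G.st v).filter fun d => d ∉ F := mem_filter.2 ⟨mem_st.2 ⟨k1, k2⟩, k3⟩
      rw [hj] at this
      exact mem_singleton.1 this
    have heu : ∀ d ∈ M, G.pi d = v → d = e := by
      intro d k1 k2
      have : d ∈ M.filter fun d => G.pi d = v := mem_filter.2 ⟨k1, k2⟩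
      rw [he] at this
      exact mem_singleton.1 this
    by_cases k1 : e ∈ F
    · have k2 : (W.filter fun d => G.pi d = v) = {e} := by
        ext d
        rw [mem_filter, mem_singleton, hW]
        constructor
        · rintro ⟨⟨l1, -, -⟩, l2⟩
          exact heu d l1 l2
        · rintro rfl
          exact ⟨⟨he2, k1, he3 ▸ hv⟩, he3⟩
      have k3 : (U.filter fun d => G.pi d = v) = {j} := by
        ext d
        rw [mem_filter, mem_singleton, hU]
        constructor
        · rintro ⟨⟨l1, -, l3, -⟩, l2⟩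
          exact hju d l1 l2 l3
        · rintro rfl
          exact ⟨⟨hj4, hj5 ▸ hv, hj3, fun l => hj3 (heu d l hj5 ▸ k1)⟩, hj5⟩
      rw [k2, k3, card_singleton, card_singleton]
    · have k2 : (W.filter fun d => G.pi d = v) = ∅ := by
        rw [filter_eq_empty_iff]
        intro d hd k3
        obtain ⟨l1, l2, -⟩ := (hW d).1 hd
        exact k1 (heu d l1 k3 ▸ l2)
      have k3 : (U.filter fun d => G.pi d = v) = ∅ := by
        rw [filter_eq_empty_iff]
        intro d hd k3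
        obtain ⟨l1, -, l3, l4⟩ := (hU d).1 hd
        have k4 : e = j := hju e hed he3 k1
        exact l4 (by rw [hju d l1 k3 l3, ← k4]; exact he2)
      rw [k2, k3]
  -- inner ones
  obtain ⟨W', hW'⟩ : ∃ W' : Finset D, ∀ d, d ∈ W' ↔ (d ∈ W ∧ G.pi (G.al d) ∈ X) :=
    ⟨W.filter fun d => G.pi (G.al d) ∈ X, fun d => mem_filter⟩
  have w2 : ∑ d ∈ W', p (G.pi d) ≤ 0 := by
    have k0 : ∀ d ∈ W', G.al d ∈ W' := by
      intro d hd
      obtain ⟨l1, l2⟩ := (hW' d).1 hd
      obtain ⟨l3, l4, l5⟩ := (hW d).1 l1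
      have l6 := hF.Fsub l4
      rw [hW', hW, G.al_al d l6]
      exact ⟨⟨hM.clo d l3 (x2 l2), hF.Fal d l4, l2⟩, l5⟩
    have kd : ∀ d ∈ W', d ∈ G.ds := fun d hd => hF.Fsub ((hW d).1 ((hW' d).1 hd).1).2.1
    have k1 : ∑ d ∈ W', p (G.pi d) = ∑ d ∈ W', p (G.pi (G.al d)) := by
      refine sum_bij' (fun d _ => G.al d) (fun d _ => G.al d) (fun d hd => k0 d hd)
        (fun d hd => k0 d hd) (fun d hd => G.al_al d (kd d hd))
        (fun d hd => G.al_al d (kd d hd)) fun d hd => ?_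
      rw [G.al_al d (kd d hd)]
    have k2 : ∑ d ∈ W', (p (G.pi d) + p (G.pi (G.al d))) ≤ 0 := by
      refine sum_nonpos fun d hd => ?_
      obtain ⟨l1, l2⟩ := (hW' d).1 hd
      obtain ⟨l3, l4, l5⟩ := (hW d).1 l1
      exact hp.kk d l4 (x2 l5) (x2 l2)
    rw [sum_add_distrib] at k2
    linarith
  have w3 : W = insert f (insert g W') := by
    ext d
    rw [mem_insert, mem_insert, hW', hW]
    constructor
    · rintro ⟨l1, l2, l3⟩
      rcases x3 d l2 l3 with l4 | l4 | l4
      · exact Or.inr (Or.inr ⟨⟨l1, l2, l3⟩, l4⟩)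
      · exact Or.inl l4
      · exact Or.inr (Or.inl l4)
    · rintro (rfl | rfl | ⟨l1, -⟩)
      · exact ⟨mf, b.fF, x4⟩
      · exact ⟨mg, b.gF, x5⟩
      · exact l1
  have w4 : g ∉ W' := fun k => gn (x2 ((hW' g).1 k).2)
  have w5 : f ∉ insert g W' := fun k => by
    rcases mem_insert.1 k with k | k
    · exact b.e.fg k
    · exact fn (x2 ((hW' f).1 k).2)
  rw [w3, sum_insert w5, sum_insert w4] at w1
  linarith

/-- **F2**: `f` and `g` used, the arc linked, or a certificate -/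
theorem inB [Infinite V] [Infinite D] (h : X6 G t fr F jm)
    (hsz : b.Fre → (fr ∩ Y).card + 3 < fr.card ∨
      ((fr ∩ Y).card + 3 ≤ fr.card ∧ Y.card + 4 < G.vs.card)) :
    (∃ M, G.GHalf one1 fr F jm Y M ∧ f ∈ M ∧ g ∈ M ∧ u ∉ M ∧ LKf G fr F Y f g M) ∨
      ∃ q, HPe G t F Y q ∧ q (G.pi u) = 1 ∧ q (G.pi f) = -1 ∧ q (G.pi g) = -1 := by
  have b0 := b.abs
  have h0 := h.toEK.abs
  rcases b.bbI h b.e with ⟨M, m1, m2, m3, m4⟩ | h1
  · left
    by_cases hB : b.Fre
    · have hev : Even (Y.card + 4) := by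
        have := Nat.even_iff.1 b.ev
        rw [Nat.even_iff]
        omega
      rcases h.tplA (Ts := ∅) b.hY b.nonU Tpl.kb_reg Tpl.kb_tab Tpl.kb_arc b.fg_mem b.fg_inj
        (b0.iblk.fact (pp := ![f, g]) h.toEK (fun v _ => b0.kap1 h0 b.fg_mem b.fg_inj v)
          (fun _ _ _ _ _ _ => mem_univ _) (fun _ _ _ _ _ _ => mem_univ _)) hev
        (b.htA (by decide)) (fun i _ => by
          fin_cases i
          · exact b.fF
          · exact b.gF) (fun v hv => absurd hv (notMem_empty v)) (Or.inl (by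
        rw [card_empty]
        decide))
        (b.hBA hB) (b.kcA h Tpl.kb_q) (hsz hB) with ⟨M', m, s, k2⟩ | ⟨p, c, k1, -, -, -, k5, -, k7⟩
      · obtain ⟨k3, k4⟩ := Tpl.kb_pat _ _ k2
        obtain ⟨l1, l2, l3⟩ := b.ofA ⟨0, by decide⟩ k4 (by decide) s
        have l4 : ∀ i, ![f, g] i ∈ M' := fun i => by
          have k8 : i ∈ univ.filter fun i => ![f, g] i ∈ M' := by
            rw [k3]
            exact mem_univ i
          exact (mem_filter.1 k8).2
        exact ⟨M', l1, l4 0, l4 1, l2, l3⟩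
      · have a1 : c (Tpl.kb.pt 0) = 1 := k5 _ (by decide)
        have a2 : c (Tpl.kb.pt 1) = 1 := k5 _ (by decide)
        have q0 := k7 0 (mem_univ _)
        have q1 := k7 1 (mem_univ _)
        rw [a1] at q0
        rw [a2] at q1
        change p (G.pi f) + 1 ≤ 0 at q0
        change p (G.pi g) + 1 ≤ 0 at q1
        exact ⟨M, m1, m2, m3, m4, b.law h.fresh m1.hm k1 (by linarith) (by linarith) m2 m3⟩
    · exact ⟨M, m1, m2, m3, m4, b.lkN hB m4⟩
  · exact Or.inr h1

theorem hxP {M1 M2 : Finset D} (h1 : f ∈ M1 ↔ G.al f ∈ M2) (h2 : g ∈ M1 ↔ G.al g ∈ M2)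
    (h3 : u ∈ M1 ↔ G.al u ∈ M2) : ∀ d ∈ G.bd Y, d ∈ M1 ↔ G.al d ∈ M2 := by
  intro d hd
  rcases b.mem3 hd with rfl | rfl | rfl
  · exact h1
  · exact h2
  · exact h3

/-- two half certificates which fit -/
theorem noC (h : X6 G t fr F jm) {p q : V → ℝ} (hp : HPe G t F Y p)
    (hq : HPe G t F (G.vs \ Y) q) (h1 : p (G.pi f) + q (G.pi (G.al f)) = 0)
    (h2 : p (G.pi g) + q (G.pi (G.al g)) = 0) (h3 : p (G.pi u) + q (G.pi (G.al u)) = 0) :
    False := by
  have hF := h.fresh
  refine h.nc ⟨_, HPot.join (hp.hpot hF.Fsub) (hq.hpot hF.Fsub) (fun _ _ => rfl) hF.Fsub hF.Fal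
    (fun d hd _ _ => ?_) fun d hd _ => ?_⟩
  · rcases b.mem3 hd with rfl | rfl | rfl
    · exact h1
    · exact h2
    · exact h3
  · rcases b.mem3 hd with rfl | rfl | rfl
    · exact h1.le
    · exact h2.le
    · exact h3.le

/-- outer colours with the same arc factor -/
theorem epsO (h : X6 G t fr F jm) : ∃ ε : ℝ, (ε = 1 ∨ ε = -1) ∧
    ∀ q, HPe G t F (G.vs \ Y) q → q (G.pi (G.al g)) = ε * q (G.pi (G.al f)) := by
  have hF := h.fresh
  have hm : ∀ d ∈ G.bd Y, G.al d ∈ G.bd (G.vs \ Y) := by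
    intro d hd
    rw [bd_compl b.hY, G.al_al d (mem_bd.1 hd).1]
    exact ⟨hd, G.al_mem d (mem_bd.1 hd).1⟩
  refine exists_arc hF (hF.Fal f b.fF) (hm f b.fb) fun d hd hdF => ?_
  rw [bd_compl b.hY] at hd
  rcases b.mem3 hd.1 with k | k | k
  · left
    rw [← k, G.al_al d hd.2]
  · right
    rw [← k, G.al_al d hd.2]
  · exact absurd (k ▸ hF.Fal d hdF) b.uF

/-- **THE CASES** -/
theorem dead [Infinite V] [Infinite D] (h : X6 G t fr F jm)
    (hsz : b.Fre → (fr ∩ Y).card + 3 < fr.card ∨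
      ((fr ∩ Y).card + 3 ≤ fr.card ∧ Y.card + 4 < G.vs.card)) : False := by
  have hF := h.fresh
  -- glueing
  have g0 : ¬ Out0 G fr F jm Y f g u := by
    rintro ⟨M2, k1, k2, k3, k4⟩
    obtain ⟨M1, l1, l2, l3, l4, l5⟩ := b.inA h hsz
    exact b.glue h l1 k1 (b.hxP ⟨fun k => absurd k l2, fun k => absurd k k2⟩
      ⟨fun k => absurd k l3, fun k => absurd k k3⟩ ⟨fun k => absurd k l4, fun k => absurd k k4⟩)
      (Or.inr l5)
  have gB : (∃ M, G.GHalf one1 fr F jm Y M ∧ f ∈ M ∧ g ∈ M ∧ u ∉ M ∧ LKf G fr F Y f g M) →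
      ¬ Out2 G fr F jm Y f g u := by
    rintro ⟨M1, l1, l2, l3, l4, l5⟩ ⟨M2, k1, k2, k3, k4⟩
    exact b.glue h l1 k1 (b.hxP ⟨fun _ => k2, fun _ => l2⟩ ⟨fun _ => k3, fun _ => l3⟩
      ⟨fun k => absurd k l4, fun k => absurd k k4⟩) (Or.inr l5)
  have gC : In2 G fr F jm Y u f g → ¬ Out2 G fr F jm Y u f g := by
    rintro ⟨M1, l1, l2, l3, l4⟩ ⟨M2, k1, k2, k3, k4⟩
    exact b.glue h l1 k1 (b.hxP ⟨fun _ => k3, fun _ => l3⟩
      ⟨fun k => absurd k l4, fun k => absurd k k4⟩ ⟨fun _ => k2, fun _ => l2⟩)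
      (Or.inl fun k => l4 (k.1 l3))
  have gD : In2 G fr F jm Y u g f → ¬ Out2 G fr F jm Y u g f := by
    rintro ⟨M1, l1, l2, l3, l4⟩ ⟨M2, k1, k2, k3, k4⟩
    exact b.glue h l1 k1 (b.hxP ⟨fun k => absurd k l4, fun k => absurd k k4⟩
      ⟨fun _ => k3, fun _ => l3⟩ ⟨fun _ => k2, fun _ => l2⟩)
      (Or.inl fun k => l4 (k.2 l3))
  have o0 : ∀ {x y z : D}, ({x, y, z} : Finset D) = {f, g, u} → Out0 G fr F jm Y x y z → False := by
    rintro x y z hs ⟨M2, k1, k2, k3, k4⟩
    have hh : ∀ d ∈ ({f, g, u} : Finset D), G.al d ∉ M2 := by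
      intro d hd
      rw [← hs, mem_insert, mem_insert, mem_singleton] at hd
      rcases hd with rfl | rfl | rfl
      · exact k2
      · exact k3
      · exact k4
    exact g0 ⟨M2, k1, hh f (by simp), hh g (by simp), hh u (by simp)⟩
  -- colours of the arcs
  obtain ⟨εA, eA1, eA⟩ := exists_arc (t := t) hF b.fF b.fb fun d hd hdF => by
    rcases b.mem3 hd with k | k | k
    · exact Or.inl k
    · exact Or.inr k
    · exact absurd (k ▸ hdF) b.uF
  obtain ⟨εB, eB1, eB⟩ := b.epsO h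
  have eF : E3 G Y f u g := b.e.swap
  have eG : E3 G Y g u f := b.e.rot
  have eU : E3 G Y u f g := b.ed3
  have sF : ({f, u, g} : Finset D) = {f, g, u} := by rw [pair_comm u g]
  have sG : ({g, u, f} : Finset D) = {f, g, u} := by rw [pair_comm u f, insert_comm g f]
  have sU : ({u, f, g} : Finset D) = {f, g, u} := by rw [insert_comm u f, pair_comm u g]
  have symO : ∀ {x y z : D}, Out2 G fr F jm Y x y z → Out2 G fr F jm Y y x z :=
    fun k => k.symm
  have symI : ∀ {x y z : D}, In2 G fr F jm Y x y z → In2 G fr F jm Y y x z :=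
    fun k => k.symm
  rcases eA1 with rfl | rfl
  · -- the inner arc is odd
    have iC : In2 G fr F jm Y u f g := by
      rcases b.bbI h eU with k | ⟨q, k1, k2, k3, k4⟩
      · exact k
      · have := eA q k1
        rw [k2, k4] at this
        norm_num at this
    have iD : In2 G fr F jm Y u g f := by
      rcases b.bbI h eU.swap with k | ⟨q, k1, k2, k3, k4⟩
      · exact k
      · have := eA q k1
        rw [k2, k4] at this
        norm_num at this
    rcases b.cfO h eU with k | k | k | ⟨qU, u1, u2, u3, u4⟩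
    · exact o0 sU k
    · exact gC iC k
    · exact gD iD k
    · have hB : εB = 1 := by
        have := eB qU u1
        rw [u3, u4] at this
        linarith
      have oB : Out2 G fr F jm Y f g u := by
        rcases b.cfO h eG with k | k | k | ⟨q, k1, k2, k3, k4⟩
        · exact (o0 sG k).elim
        · exact (gD iD (symO k)).elim
        · exact symO k
        · exfalso
          have := eB q k1
          rw [k2, k4, hB] at this
          norm_num at this
      rcases b.inB h hsz with k | ⟨q, k1, k2, k3, k4⟩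
      · exact gB k oB
      · exact b.noC h k1 u1 (by rw [k3, u3]; norm_num) (by rw [k4, u4]; norm_num)
          (by rw [k2, u2]; norm_num)
  · -- the inner arc is even
    have nB : ¬ Out2 G fr F jm Y f g u := by
      rcases b.inB h hsz with k | ⟨q, k1, k2, k3, k4⟩
      · exact gB k
      · have := eA q k1
        rw [k3, k4] at this
        norm_num at this
    rcases eB1 with rfl | rfl
    · -- the outer arc is odd
      have oD : Out2 G fr F jm Y u g f := by
        rcases b.cfO h eG with k | k | k | ⟨q, k1, k2, k3, k4⟩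
        · exact (o0 sG k).elim
        · exact symO k
        · exact (nB (symO k)).elim
        · exfalso
          have := eB q k1
          rw [k2, k4] at this
          norm_num at this
      have oC : Out2 G fr F jm Y u f g := by
        rcases b.cfO h eF with k | k | k | ⟨q, k1, k2, k3, k4⟩
        · exact (o0 sF k).elim
        · exact symO k
        · exact (nB k).elim
        · exfalso
          have := eB q k1
          rw [k2, k4] at this
          norm_num at this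
      rcases b.bpI h with k | k
      · exact gC k oC
      · exact gD k oD
    · -- the outer arc is even
      rcases b.cfO h eU with k | oC | oD | ⟨q, k1, k2, k3, k4⟩
      · exact o0 sU k
      · have nC : ¬ In2 G fr F jm Y u f g := fun k => gC k oC
        have iD : In2 G fr F jm Y u g f := (b.bpI h).resolve_left nC
        have noD : ¬ Out2 G fr F jm Y u g f := gD iD
        rcases b.cfO h eG with k | k | k | ⟨q, k1, k2, k3, k4⟩
        · exact o0 sG k
        · exact noD (symO k)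
        · exact nB (symO k)
        · rcases b.bbI h eU with l | ⟨p, l1, l2, l3, l4⟩
          · exact nC l
          · exact b.noC h l1 k1 (by rw [l4, k4]; norm_num) (by rw [l2, k2]; norm_num)
              (by rw [l3, k3]; norm_num)
      · have nD : ¬ In2 G fr F jm Y u g f := fun k => gD k oD
        have iC : In2 G fr F jm Y u f g := (b.bpI h).resolve_right nD
        have noC : ¬ Out2 G fr F jm Y u f g := gC iC
        rcases b.cfO h eF with k | k | k | ⟨q, k1, k2, k3, k4⟩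
        · exact o0 sF k
        · exact noC (symO k)
        · exact nB k
        · rcases b.bbI h eU.swap with l | ⟨p, l1, l2, l3, l4⟩
          · exact nD l
          · exact b.noC h l1 k1 (by rw [l2, k2]; norm_num) (by rw [l4, k4]; norm_num)
              (by rw [l3, k3]; norm_num)
      · have := eB q k1
        rw [k3, k4] at this
        norm_num at this

/-- sizes of the arc states -/
theorem size (h : X6 G t fr F jm) (hA : NoAdj G t F)
    (H1 : ∀ Z ⊆ G.vs, Even Z.card → 6 ≤ Z.card → 4 ≤ (G.vs \ Z).card →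
      Disjoint (G.vs \ Z) fr → (∃ y ∈ Z, y ∉ fr ∧ 1 ≤ t y) → ¬ FCut G F Z →
      G.val one1 t Z ≠ 4) :
    (fr ∩ Y).card + 3 < fr.card ∨
      ((fr ∩ Y).card + 3 ≤ fr.card ∧ Y.card + 4 < G.vs.card) := by
  have hF := h.fresh
  have hE := h.toEK
  obtain ⟨fd, fY, fn⟩ := mem_bd.1 b.fb
  obtain ⟨gd, gY, gn⟩ := mem_bd.1 b.gb
  have c1 : (fr ∩ Y).card + (fr \ Y).card = fr.card := card_inter_add_card_sdiff fr Y
  have c2 : (G.vs \ Y).card + Y.card = G.vs.card := card_sdiff_add_card_eq_card b.hY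
  have c3 := Nat.even_iff.1 h.even
  have c4 := Nat.even_iff.1 b.ev
  have c5 := b.two
  have c6 := b.big
  -- tokens
  have jf : jm ⊆ fr \ Y := fun v hv =>
    mem_sdiff.2 ⟨hF.jms hv, fun k => disjoint_left.1 b.jY hv k⟩
  have t1 : ∑ v ∈ fr \ Y, t v = jm.card := by
    rw [sum_congr rfl (g := fun v => if v ∈ jm then (1 : ℝ) else 0)
      fun v hv => hE.tok_fr (mem_sdiff.1 hv).1, sum_ite_mem, inter_eq_right.2 jf, sum_const,
      nsmul_eq_mul, mul_one]
  have t2 : ∑ v ∈ G.vs \ Y, t v = 5 := by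
    have k1 := sum_sdiff b.hY (f := t)
    rw [b.tY, h.tau] at k1
    linarith
  have u1 : (G.vs \ Y) \ fr ⊆ G.vs := sdiff_subset.trans sdiff_subset
  have hsub : fr \ Y ⊆ G.vs \ Y := sdiff_subset_sdiff hF.fsub Subset.rfl
  have hse : (G.vs \ Y) \ (fr \ Y) = (G.vs \ Y) \ fr := by
    ext v
    simp only [mem_sdiff]
    constructor
    · rintro ⟨⟨k1, k2⟩, k3⟩
      exact ⟨⟨k1, k2⟩, fun k4 => k3 ⟨k4, k2⟩⟩
    · rintro ⟨⟨k1, k2⟩, k3⟩
      exact ⟨⟨k1, k2⟩, fun k4 => k3 k4.1⟩
  have t3 : ∑ v ∈ (G.vs \ Y) \ fr, t v = 5 - jm.card := by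
    have k1 := sum_sdiff hsub (f := t)
    rw [t1, t2, hse] at k1
    linarith
  have c7 : ((G.vs \ Y) \ fr).card + (fr \ Y).card = (G.vs \ Y).card := by
    rw [← hse]
    exact card_sdiff_add_card_eq_card hsub
  have hj : (jm.card : ℝ) = 0 ∨ (jm.card : ℝ) = 2 := by
    rcases h.jm2 with k | k
    · rw [k, card_empty]
      exact Or.inl (by norm_num)
    · rw [k]
      exact Or.inr (by norm_num)
  have tl : ∀ v ∈ (G.vs \ Y) \ fr, t v ≤ 2 := fun v hv =>
    hE.t_le_two (by omega) (u1 hv)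
  -- the outer ends
  have o1 : G.pi (G.al f) ∈ fr \ Y := mem_sdiff.2 ⟨hF.Ffr _ (hF.Fal f b.fF), fn⟩
  have o2 : G.pi (G.al g) ∈ fr \ Y := mem_sdiff.2 ⟨hF.Ffr _ (hF.Fal g b.gF), gn⟩
  have b0 := b.abs
  have h0 := h.toEK.abs
  have ob := b0.oblk h0.fresh
  obtain ⟨-, -, hpp, hinj⟩ := b0.inj3 b.e
  have o3 : G.pi (G.al f) ≠ G.pi (G.al g) := by
    intro k
    have k1 := ob.one1 h0 hpp hinj (v := G.pi (G.al f)) (hsub o1)
    unfold Tpl.one1S at k1
    have k2 := (mem_filter.1 k1).2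
    have k3 : ({0, 1} : Finset (Fin 3)) ⊆ TOk.kap G ![G.al f, G.al g, G.al u] {G.pi (G.al f)} := by
      intro i hi
      rw [mem_insert, mem_singleton] at hi
      rcases hi with rfl | rfl
      · exact mem_filter.2 ⟨mem_univ _, mem_singleton_self _⟩
      · exact mem_filter.2 ⟨mem_univ _, mem_singleton.2 k.symm⟩
    have k4 := card_le_card k3
    have k5 : ({0, 1} : Finset (Fin 3)).card = 2 := by decide
    omega
  have c8 : 2 ≤ (fr \ Y).card := by
    rw [← card_pair o3]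
    refine card_le_card fun v hv => ?_
    rw [mem_insert, mem_singleton] at hv
    rcases hv with rfl | rfl
    · exact o1
    · exact o2
  by_contra hcon
  push Not at hcon
  obtain ⟨n1, n2⟩ := hcon
  rcases Nat.lt_or_ge 2 (fr \ Y).card with c9 | c9
  · -- three fresh vertices, one other vertex
    have c10 := n2 (by omega)
    have c11 : ((G.vs \ Y) \ fr).card = 1 := by omega
    obtain ⟨a, ha⟩ := card_eq_one.1 c11
    have k1 := tl a (by rw [ha]; exact mem_singleton_self a)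
    rw [ha, sum_singleton] at t3
    rcases hj with k | k <;> rw [k] at t3 <;> linarith
  · -- two fresh vertices
    have c10 : (fr \ Y).card = 2 := by omega
    have hfr : ∀ v ∈ fr, v ∉ Y → v = G.pi (G.al f) ∨ v = G.pi (G.al g) := by
      intro v hv hvY
      by_contra k
      rw [not_or] at k
      have k1 : ({v, G.pi (G.al f), G.pi (G.al g)} : Finset V) ⊆ fr \ Y := by
        intro x hx
        rw [mem_insert, mem_insert, mem_singleton] at hx
        rcases hx with rfl | rfl | rfl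
        · exact mem_sdiff.2 ⟨hv, hvY⟩
        · exact o1
        · exact o2
      have k2 := card_le_card k1
      rw [card_eq_three.2 ⟨v, _, _, k.1, k.2, o3, rfl⟩] at k2
      omega
    obtain ⟨Z, hZ⟩ : ∃ Z, Z = Y ∪ fr := ⟨_, rfl⟩
    have z1 : Z ⊆ G.vs := by
      rw [hZ]
      exact union_subset b.hY hF.fsub
    have z2 : G.vs \ Z = (G.vs \ Y) \ fr := by
      rw [hZ, sdiff_union_distrib, sdiff_sdiff_left]
      ext v
      simp only [mem_inter, mem_sdiff, sup_eq_union, mem_union]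
      tauto
    have z3 : Z.card = Y.card + 2 := by
      have k1 : Z = Y ∪ (fr \ Y) := by rw [hZ, union_sdiff_self_eq_union]
      rw [k1, card_union_of_disjoint disjoint_sdiff, c10]
    have z4 : ¬ FCut G F Z := by
      rintro ⟨d, k1, -, k3⟩
      apply k3
      rw [hZ]
      exact mem_union_right _ (hF.Ffr _ (hF.Fal d k1))
    -- an F-dart between the outer ends
    obtain ⟨d, d1, d2, d3⟩ := hF.other (hF.Fal f b.fF)
    have dd := hF.Fsub d1
    have d4 : G.pi (G.al d) ∉ Y := by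
      intro k
      have k1 : G.al d ∈ G.bd Y := mem_bd.2 ⟨G.al_mem d dd, k, by
        rw [G.al_al d dd, d3]
        exact fn⟩
      rcases b.mem3 k1 with k2 | k2 | k2
      · apply d2
        rw [← k2, G.al_al d dd]
      · apply o3
        rw [← k2, G.al_al d dd, d3]
      · exact b.uF (k2 ▸ hF.Fal d d1)
    have d5 : G.pi (G.al d) = G.pi (G.al g) := by
      rcases hfr _ (hF.Ffr _ (hF.Fal d d1)) d4 with k | k
      · exact absurd (k.trans d3.symm) (G.noloop d dd)
      · exact k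
    -- the value of `Z`
    have v1 := hE.val_eq b.hY
    have v2 := hE.val_eq z1
    have v3 : (G.ed Y Y).card + 6 ≤ (G.ed Z Z).card := by
      have fZ : G.pi (G.al f) ∈ Z := by
        rw [hZ]
        exact mem_union_right _ (mem_sdiff.1 o1).1
      have gZ : G.pi (G.al g) ∈ Z := by
        rw [hZ]
        exact mem_union_right _ (mem_sdiff.1 o2).1
      have yZ : Y ⊆ Z := by
        rw [hZ]
        exact subset_union_left
      have e1 : Disjoint (G.ed Y Y) ({f, g} ∪ ({G.al f, d} ∪ {G.al g, G.al d}) : Finset D) := by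
        rw [disjoint_left]
        intro x k1 k2
        obtain ⟨k3, k4, k5⟩ := mem_ed.1 k1
        simp only [mem_union, mem_insert, mem_singleton] at k2
        rcases k2 with (rfl | rfl) | (rfl | rfl) | (rfl | rfl)
        · exact fn k5
        · exact gn k5
        · exact fn k4
        · exact fn (d3 ▸ k4)
        · exact gn k4
        · exact d4 k4
      have e2 : Disjoint ({f, g} : Finset D) ({G.al f, d} ∪ {G.al g, G.al d}) := by
        rw [disjoint_left]
        intro x k1 k2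
        have k3 : G.pi x ∈ Y := by
          rw [mem_insert, mem_singleton] at k1
          rcases k1 with rfl | rfl
          · exact fY
          · exact gY
        simp only [mem_union, mem_insert, mem_singleton] at k2
        rcases k2 with (rfl | rfl) | (rfl | rfl)
        · exact fn k3
        · exact fn (d3 ▸ k3)
        · exact gn k3
        · exact d4 k3
      have e3 : Disjoint ({G.al f, d} : Finset D) {G.al g, G.al d} := by
        rw [disjoint_left]
        intro x k1 k2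
        have k3 : G.pi x = G.pi (G.al f) := by
          rw [mem_insert, mem_singleton] at k1
          rcases k1 with rfl | rfl
          · rfl
          · exact d3
        have k4 : G.pi x = G.pi (G.al g) := by
          rw [mem_insert, mem_singleton] at k2
          rcases k2 with rfl | rfl
          · rfl
          · exact d5
        exact o3 (k3.symm.trans k4)
      have e4 : ({f, g} : Finset D).card = 2 := card_pair b.e.fg
      have e5 : ({G.al f, d} : Finset D).card = 2 := card_pair d2.symm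
      have e6 : ({G.al g, G.al d} : Finset D).card = 2 := card_pair fun k => by
        have k1 : g = d := by rw [← G.al_al g gd, k, G.al_al d dd]
        exact fn (d3 ▸ k1 ▸ gY)
      have e7 : G.ed Y Y ∪ ({f, g} ∪ ({G.al f, d} ∪ {G.al g, G.al d})) ⊆ G.ed Z Z := by
        intro x hx
        simp only [mem_union, mem_insert, mem_singleton] at hx
        rcases hx with hx | (rfl | rfl) | (rfl | rfl) | (rfl | rfl)
        · obtain ⟨k3, k4, k5⟩ := mem_ed.1 hx
          exact mem_ed.2 ⟨k3, yZ k4, yZ k5⟩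
        · exact mem_ed.2 ⟨fd, yZ fY, fZ⟩
        · exact mem_ed.2 ⟨gd, yZ gY, gZ⟩
        · exact mem_ed.2 ⟨G.al_mem f fd, fZ, by rw [G.al_al f fd]; exact yZ fY⟩
        · exact mem_ed.2 ⟨dd, by rw [d3]; exact fZ, by rw [d5]; exact gZ⟩
        · exact mem_ed.2 ⟨G.al_mem g gd, gZ, by rw [G.al_al g gd]; exact yZ gY⟩
        · exact mem_ed.2 ⟨G.al_mem d dd, by rw [d5]; exact gZ, by
            rw [G.al_al d dd, d3]
            exact fZ⟩
      have e8 := card_le_card e7
      rw [card_union_of_disjoint e1, card_union_of_disjoint e2, card_union_of_disjoint e3, e4,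
        e5, e6] at e8
      omega
    have v4 : G.val one1 t Z ≤ 4 := by
      have k1 : (((G.ed Y Y).card + 6 : ℕ) : ℝ) ≤ (G.ed Z Z).card := by exact_mod_cast v3
      rw [v2, z3]
      rw [b.val] at v1
      push_cast at k1 ⊢
      linarith
    have z5 : Even Z.card := by
      rw [z3, Nat.even_iff]
      omega
    have z6 : Z ≠ G.vs := by
      intro k
      have k1 : G.vs \ Z = ∅ := by rw [k, Finset.sdiff_self]
      rw [z2] at k1
      rw [k1, card_empty] at c7
      omega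
    have v5 := h.evn Z z1 z5 (card_pos.1 (by omega)) z6
    have v6 : G.val one1 t Z = 4 := le_antisymm v4 v5
    have yZ : Y ⊆ Z := by
      rw [hZ]
      exact subset_union_left
    rcases Nat.lt_or_ge 3 (G.vs \ Z).card with c11 | c11
    · refine H1 Z z1 z5 (by omega) c11 ?_ ?_ z4 v6
      · rw [z2]
        exact sdiff_disjoint
      · obtain ⟨y, y1, y2⟩ := b.real
        exact ⟨y, yZ y1, y2⟩
    · have c12 : ((G.vs \ Y) \ fr).card = 2 := by
        rw [z2] at c11
        omega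
      obtain ⟨a, c, hac, hs⟩ := card_eq_two.1 c12
      have ka := tl a (by rw [hs]; simp)
      have kc := tl c (by rw [hs]; simp)
      have av := u1 (show a ∈ (G.vs \ Y) \ fr by rw [hs]; simp)
      have cv := u1 (show c ∈ (G.vs \ Y) \ fr by rw [hs]; simp)
      have anf := (mem_sdiff.1 (show a ∈ (G.vs \ Y) \ fr by rw [hs]; simp)).2
      have cnf := (mem_sdiff.1 (show c ∈ (G.vs \ Y) \ fr by rw [hs]; simp)).2
      rw [hs, sum_pair hac] at t3
      have hj2 : (jm.card : ℝ) = 2 := by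
        rcases hj with k | k
        · rw [k] at t3
          linarith
        · exact k
      rw [hj2] at t3
      -- the value of the complement
      have w1 := hE.val_compl z1
      have w2 : ∑ v ∈ Z, t v = 3 := by
        have k1 := sum_sdiff z1 (f := t)
        rw [z2, hs, sum_pair hac, h.tau] at k1
        linarith
      rw [w2, v6, z2, hs] at w1
      have w3 := hE.val_eq (show ({a, c} : Finset V) ⊆ G.vs from fun v hv => by
        rw [mem_insert, mem_singleton] at hv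
        rcases hv with rfl | rfl
        · exact av
        · exact cv)
      rw [w1, card_pair hac] at w3
      have w4 : (G.ed {a, c} {a, c}).Nonempty := by
        rw [nonempty_iff_ne_empty]
        intro k
        rw [k, card_empty] at w3
        norm_num at w3
      obtain ⟨e, he⟩ := w4
      obtain ⟨e1, e2, e3⟩ := mem_ed.1 he
      have tn : ∀ v ∈ ({a, c} : Finset V), t v ≠ 0 ∧ v ∉ fr := by
        intro v hv
        rw [mem_insert, mem_singleton] at hv
        rcases hv with rfl | rfl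
        · exact ⟨fun k => by rw [k] at t3; linarith, anf⟩
        · exact ⟨fun k => by rw [k] at t3; linarith, cnf⟩
      exact (tn _ e3).1 (hA e e1 (fun k => (tn _ e2).2 (hF.Ffr e k)) (tn _ e2).1)

end FE

/-- **ROW F3**: no even set of value 4 with one token, which is real, is crossed by a circuit. `H1`:
the case of a set which is not crossed, with at least six vertices, and all fresh vertices inside. -/
theorem X6.f3 [Infinite V] [Infinite D] (h : X6 G t fr F jm) (hA : NoAdj G t F)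
    (H1 : ∀ Z ⊆ G.vs, Even Z.card → 6 ≤ Z.card → 4 ≤ (G.vs \ Z).card →
      Disjoint (G.vs \ Z) fr → (∃ y ∈ Z, y ∉ fr ∧ 1 ≤ t y) → ¬ FCut G F Z →
      G.val one1 t Z ≠ 4)
    (hY : Y ⊆ G.vs) (he : Even Y.card) (h4 : 4 ≤ Y.card) (h4' : 4 ≤ (G.vs \ Y).card)
    (hy : ∃ y ∈ Y, y ∉ fr ∧ 1 ≤ t y) (ht : ∑ v ∈ Y, t v = 1) (hv : G.val one1 t Y = 4)
    (hc : FCut G F Y) : False := by
  have hF := h.fresh
  have hb : (G.bd Y).card = 3 := by
    rw [val_one, ht] at hv
    have : ((G.bd Y).card : ℝ) = (3 : ℕ) := by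
      push_cast
      linarith
    exact_mod_cast this
  obtain ⟨f, f1, f2, f3⟩ := hc
  have fb : f ∈ G.bd Y := mem_bd.2 ⟨hF.Fsub f1, f2, f3⟩
  have hev := hF.fx_even Y
  have hx : (F.filter fun d => G.pi d ∈ Y ∧ G.pi (G.al d) ∉ Y) = (G.bd Y).filter fun d => d ∈ F := by
    ext d
    rw [mem_filter, mem_filter, mem_bd]
    constructor
    · rintro ⟨k1, k2⟩
      exact ⟨⟨hF.Fsub k1, k2⟩, k1⟩
    · rintro ⟨⟨-, k2⟩, k1⟩
      exact ⟨k1, k2⟩
  rw [hx] at hev
  obtain ⟨g, g1, g2, g3⟩ : ∃ g ∈ G.bd Y, g ∈ F ∧ g ≠ f := by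
    by_contra k
    push Not at k
    have k1 : ((G.bd Y).filter fun d => d ∈ F) = {f} := by
      ext d
      rw [mem_filter, mem_singleton]
      constructor
      · rintro ⟨k2, k3⟩
        exact k d k2 k3
      · rintro rfl
        exact ⟨fb, f1⟩
    rw [k1, card_singleton] at hev
    exact absurd hev (by decide)
  have k1 : g ∈ (G.bd Y).erase f := mem_erase.2 ⟨g3, g1⟩
  have k2 : (((G.bd Y).erase f).erase g).card = 1 := by
    rw [card_erase_of_mem k1, card_erase_of_mem fb, hb]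
  obtain ⟨u, hu⟩ := card_eq_one.1 k2
  have e : E3 G Y f g u := by
    have k3 : u ∈ ((G.bd Y).erase f).erase g := by rw [hu]; exact mem_singleton_self u
    obtain ⟨k4, k5⟩ := mem_erase.1 k3
    obtain ⟨k6, -⟩ := mem_erase.1 k5
    exact ⟨by rw [← insert_erase fb, ← insert_erase k1, hu], g3.symm, k6.symm, k4.symm⟩
  have uF : u ∉ F := by
    intro k
    rw [e.bd, card3 e.fg e.fk e.gk, if_pos f1, if_pos g2, if_pos k] at hev
    exact absurd hev (by decide)
  have jY : Disjoint jm Y := by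
    rw [disjoint_left]
    intro v hv1 hv2
    obtain ⟨y, y1, y2, y3⟩ := hy
    have hvy : v ≠ y := fun k => y2 (k ▸ hF.jms hv1)
    have h1 := add_sum_erase Y t y1
    have h2 : t v ≤ ∑ w ∈ Y.erase y, t w :=
      single_le_sum (fun w hw => h.t0 w (hY (mem_erase.1 hw).2)) (mem_erase.2 ⟨hvy, hv2⟩)
    rw [h.toEK.tok_fr (hF.jms hv1), if_pos hv1] at h2
    linarith
  have b : FE G t fr F jm Y f g u := ⟨hY, he, h4, h4', hv, e, f1, g2, uF, jY, ht, hy⟩
  exact b.dead h fun _ => b.size h hA H1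

end MG

end RH
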