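import Pool.Agent.Lib.RH.TplA
import Pool.Agent.Lib.RH.Tpl4
import Pool.Agent.Lib.RH.CE6EvenD

/-! # Even sets crossed by a circuit: tools

Tables `cf` (4-circuit with one token), `ka`, `kb` (arc gadgets with a star). `X6.tplGe`: the engine
with equality on the circuits which are not inside the side. `FrS.fx_even`, `exists_arc`: along an
arc the two ends have the same or the opposite colour. `FE`: the data, `FE.glue`: the glueing. -/

set_option autoImplicit false

namespace RH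

open Finset Classical

namespace Tpl

/-- 4-circuit with one token, the centre is port 0 -/
def cf : Tpl 4 4 3 where
  a := ![0, 0, 3, 3]
  b := ![1, 2, 1, 2]
  pt := ![3, 1, 2]
  tk := ![1, 0, 0, 0]

theorem cf_reg : cf.Reg := by decide

theorem cf_tab : cf.Tab 0 8 (one1S 3) (oE univ) (oO 0 univ) where
  t0 := by decide +kernel
  t1 := by decide +kernel
  t2 := by decide +kernel
  t3 := by decide +kernel
  t4 := by decide +kernel

theorem cf_pat : ∀ m κ, cf.IsPat m κ → κ = ∅ ∨ κ = {0, 1} ∨ κ = {0, 2} := by decide +kernel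

theorem cf_col (c : Fin 4 → ℝ) (h : ∀ i, c (cf.a i) + c (cf.b i) = 0)
    (h1 : ∀ v, cf.tk v ≠ 0 → c v = 1) : c (cf.pt 0) = 1 ∧ c (cf.pt 1) = -1 ∧ c (cf.pt 2) = -1 := by
  have a0 : c 0 + c 1 = 0 := h 0
  have a1 : c 0 + c 2 = 0 := h 1
  have a2 : c 3 + c 1 = 0 := h 2
  have a5 : c 0 = 1 := h1 0 (by decide)
  refine ⟨?_, ?_, ?_⟩
  · change c 3 = 1
    linarith
  · change c 1 = -1
    linarith
  · change c 2 = -1
    linarith

/-- arc gadget, star at the first two vertices -/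
def ka : Tpl 4 3 2 where
  a := ![0, 1, 2]
  b := ![1, 2, 3]
  pt := ![0, 2]
  tk := ![1, 1, 0, 2]

/-- arc gadget, star at the two end vertices -/
def kb : Tpl 4 3 2 where
  a := ![0, 1, 1]
  b := ![1, 2, 3]
  pt := ![0, 2]
  tk := ![1, 0, 1, 2]

theorem ka_reg : ka.Reg := by decide
theorem kb_reg : kb.Reg := by decide

theorem ka_tab : ka.Tab 0 4 (one1S 2) (iE univ) (iO univ) where
  t0 := by decide +kernel
  t1 := by decide +kernel
  t2 := by decide +kernel
  t3 := by decide +kernel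
  t4 := by decide +kernel

theorem kb_tab : kb.Tab 0 4 (one1S 2) (iE univ) (iO univ) where
  t0 := by decide +kernel
  t1 := by decide +kernel
  t2 := by decide +kernel
  t3 := by decide +kernel
  t4 := by decide +kernel

theorem ka_arc : ka.Arc {0, 1, 2} {0, 1} {0, 1} univ where
  pe := by decide
  pk := by decide
  two := by decide
  con := by decide +kernel
  js := by decide
  one := by decide
  zer := by decide

theorem kb_arc : kb.Arc {0, 1, 2} {0, 2} {0, 1} univ where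
  pe := by decide
  pk := by decide
  two := by decide
  con := by decide +kernel
  js := by decide
  one := by decide
  zer := by decide

theorem ka_pat : ∀ m κ, ka.IsPat m κ → κ = ∅ ∧ 2 ∈ m := by decide +kernel
theorem kb_pat : ∀ m κ, kb.IsPat m κ → κ = univ ∧ 2 ∈ m := by decide +kernel

theorem ka_q : ∀ κ, 6 + 2 * ka.nQ {0, 1, 2} κ ≤ ka.val {0, 1, 2} + 5 := by decide +kernel
theorem kb_q : ∀ κ, 6 + 2 * kb.nQ {0, 1, 2} κ ≤ kb.val {0, 1, 2} + 5 := by decide +kernel

end Tpl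

variable {nv ne np : ℕ}

namespace MG

variable {V D : Type*} {G : MG V D} {t : V → ℝ} {fr : Finset V} {F : Finset D}
variable {jm A X Y Ts : Finset V} {w n0 : ℕ} {s1 : Finset (Finset (Fin np))}
variable {bE bO : Finset (Fin np) → ℕ} {z : D → ℝ} {f g u : D} {k : ℝ}

/-- half certificate with equality on the circuits which are not inside `A` -/
def HPe (G : MG V D) (t : V → ℝ) (F : Finset D) (A : Finset V) (p : V → ℝ) : Prop :=
  ∃ fr1, fr1 ⊆ A ∧ (∀ d ∈ F, G.pi d ∈ fr1 → G.pi (G.al d) ∈ fr1) ∧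
    G.HPot one1 t (F.filter fun d => G.pi d ∈ fr1) A p

theorem HPe.hpot {p : V → ℝ} (h : HPe G t F A p) (hF : F ⊆ G.ds) : G.HPot one1 t F A p := by
  obtain ⟨fr1, h1, h2, h3⟩ := h
  refine ⟨h3.tok, fun d hd k1 k2 k3 k4 => h3.jq d hd k1 k2 k3 fun k5 => k4 (mem_filter.1 k5).1,
    fun d hd k1 k2 => ?_⟩
  by_cases k3 : G.pi d ∈ fr1
  · exact h3.kk d (mem_filter.2 ⟨hd, k3⟩) k1 k2
  · exact (h3.jq d (hF hd) k1 k2 (by unfold one1; exact one_pos)
      fun k5 => k3 (mem_filter.1 k5).2).le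

/-- **the engine, with equality on the circuits which are not inside `A`** -/
theorem X6.tplGe [Infinite V] [Infinite D] (h : X6 G t fr F jm) (hA : A ⊆ G.vs)
    (hne : (G.vs \ A).Nonempty) {T : Tpl nv ne np} (hreg : T.Reg) (hT : T.Tab w n0 s1 bE bO)
    {pp : Fin np → D} (hpb : ∀ i, pp i ∈ G.bd A) (hpi : Function.Injective pp)
    (hf : TOk.TFact G t A pp w n0 s1 bE bO) (hev : Even (A.card + nv))
    (ht : ∑ v ∈ A, t v + (((G.bd A).filter fun d => ∀ i, pp i ≠ d).card : ℝ) +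
      T.nT univ = 6)
    (h2 : Ts = ∅ ∨ Ts.card = 2) (hTs : ∀ v ∈ Ts, v ∈ jm ∨ ∃ d, Drop G A pp d ∧ G.pi d = v)
    (hsm : (fr ∩ A).card < fr.card ∨ A.card + nv < G.vs.card) :
    (∃ M m, TSol G fr F jm A pp Ts M ∧ T.IsPat m (univ.filter fun i => pp i ∈ M)) ∨
      ∃ (p : V → ℝ) (c : Fin nv → ℝ), HPe G t F A p ∧
        (∀ d, Drop G A pp d → p (G.pi d) = 1) ∧ (∀ i, c (T.a i) + c (T.b i) = 0) ∧
        (∀ v, T.tk v ≠ 0 → c v = 1) ∧ ∀ i, p (G.pi (pp i)) + c (T.pt i) = 0 := by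
  obtain ⟨hh, cc, k, hcc, hhn⟩ := exists_tok hreg hA hpb hpi
  have hE := h.toEK
  have hTs' : ∀ v ∈ Ts, v ∈ jm ∨ (gdp G (tg G A T pp hh cc) v).Nonempty := by
    intro v hv
    rcases hTs v hv with h1 | ⟨d, h1, h3⟩
    · exact Or.inl h1
    · exact Or.inr ⟨d, mem_gdp_tg.2 ⟨h1, h3⟩⟩
  obtain ⟨fr1, f1, f2⟩ := exists_starG G (tg G A T pp hh cc) fr F jm Ts hTs' h2
  have f3 : gjm G (tg G A T pp hh cc) jm fr1 = ∅ ∨
      (gjm G (tg G A T pp hh cc) jm fr1).card = 2 := by
    rcases f2 with ⟨f2, -⟩ | ⟨f2, -⟩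
    · rw [f2]
      exact h2
    · exact Or.inl f2
  have hst := hE.tplS (by norm_num) k hne hT hf hev ht f1 f3
  have hKc : (tg G A T pp hh cc).K.card = nv := by
    change (univ.image hh).card = nv
    rw [card_image_of_injective _ k.hinj, card_univ, Fintype.card_fin]
  have hsm' : fr1.card < fr.card ∨ (fr1.card = fr.card ∧
      (MG.gad G (tg G A T pp hh cc) k.gok).vs.card < G.vs.card) := by
    have h1 : fr1.card ≤ (fr ∩ A).card := card_le_card (subset_inter f1.sub f1.inA)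
    have h2 : (fr ∩ A).card ≤ fr.card := card_le_card inter_subset_left
    rcases hsm with h3 | h3
    · left
      omega
    · by_cases h4 : fr1.card = fr.card
      · right
        refine ⟨h4, ?_⟩
        change (A ∪ (tg G A T pp hh cc).K).card < _
        have h5 := card_union_le A (tg G A T pp hh cc).K
        omega
      · left
        omega
  rcases h.ih _ _ _ _ _ hsm' hst with ⟨M, hM⟩ | ⟨p, hp⟩
  · left
    refine ⟨G.resM A M, univ.filter fun i => cc i false ∈ M, hE.tsol k h2 hTs' f1 f2 hM, ?_⟩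
    have h1 := k.pat hM.pm
    have h2 : (univ.filter fun i => pp i ∈ G.resM A M) = univ.filter fun i => pp i ∈ M := by
      refine filter_congr fun i _ => ?_
      rw [mem_resM]
      constructor
      · exact fun k2 => k2.1
      · intro k2
        have k3 := mem_bd.1 (k.p_bd i)
        exact ⟨k2, k3.1, k3.2.1⟩
    rw [h2]
    exact h1
  · right
    have hFE : ∀ d ∈ F.filter (fun d => G.pi d ∈ fr1), d ∉ (tg G A T pp hh cc).E := by
      intro d hd hd2
      obtain ⟨i, β, rfl⟩ := TOk.mem_E.1 hd2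
      exact hcc i β (h.fresh.Fsub (mem_filter.1 hd).1)
    have hFP : ∀ d ∈ F.filter (fun d => G.pi d ∈ fr1), d ∉ (tg G A T pp hh cc).P := by
      intro d hd hd2
      obtain ⟨i, rfl⟩ := TOk.mem_P.1 hd2
      obtain ⟨k1, k2, k3⟩ := mem_bd.1 (hpb i)
      exact k3 (f1.inA (f1.clo _ (mem_filter.1 hd).1 (mem_filter.1 hd).2))
    have hp' : (MG.gad G (tg G A T pp hh cc) k.gok).Pot (gz (tg G A T pp hh cc) one1 one1)
        (gt G (tg G A T pp hh cc) one1 t (TOk.tkv T hh))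
        (F.filter fun d => G.pi d ∈ fr1) ∅ p := by
      rw [gz_one]
      exact hp
    refine ⟨p, fun i => p (hh i), ⟨fr1, f1.inA, f1.clo, gad_hpot k.gok h.wt Subset.rfl hp'
      (fun _ _ => one_pos) ((filter_subset _ _).trans h.fresh.Fsub)⟩, ?_, ?_, ?_, ?_⟩
    · intro d hd
      refine gad_lost k.gok h.wt hp' hd.1 (fun h1 => ?_) (by unfold one1; norm_num)
      obtain ⟨i, hi⟩ := TOk.mem_P.1 h1
      exact hd.2 i hi
    · intro i
      exact k.pot_edge hp hFE (fun d hd => absurd hd (notMem_empty d)) i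
    · intro v hv
      exact k.pot_tok hp v hv
    · intro i
      exact k.pot_port hp hFP (fun d hd => absurd hd (notMem_empty d)) i

/-! ### parity -/

private theorem even_inv' (S : Finset D) (hS : S ⊆ G.ds) (hcl : ∀ d ∈ S, G.al d ∈ S) :
    Even S.card := by
  have h1 : ∑ _d ∈ S, (1 : ZMod 2) = 0 := by
    refine sum_involution (fun d _ => G.al d) ?_ ?_ ?_ ?_
    · intro d _
      decide
    · intro d hd _ he
      exact G.noloop d (hS hd) (by rw [he])
    · intro d hd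
      exact hcl d hd
    · intro d hd
      exact G.al_al d (hS hd)
  rw [sum_const, nsmul_eq_mul, mul_one] at h1
  rwa [ZMod.natCast_eq_zero_iff_even] at h1

/-- an even number of F-darts leaves a set -/
theorem FrS.fx_even (hF : G.FrS z fr F jm) (S : Finset V) :
    Even ((F.filter fun d => G.pi d ∈ S ∧ G.pi (G.al d) ∉ S).card) := by
  have h1 : Even ((F.filter fun d => G.pi d ∈ S).card) := by
    rw [card_eq_sum_card_fiberwise (f := G.pi) (s := F.filter fun d => G.pi d ∈ S) (t := S)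
      (fun d hd => mem_coe.2 (mem_filter.1 (mem_coe.1 hd)).2)]
    refine Finset.even_sum _ fun v hv => ?_
    have h2 : ((F.filter fun d => G.pi d ∈ S).filter fun d => G.pi d = v) =
        F.filter fun d => G.pi d = v := by
      ext d
      rw [mem_filter, mem_filter, mem_filter]
      constructor
      · rintro ⟨⟨k1, -⟩, k2⟩
        exact ⟨k1, k2⟩
      · rintro ⟨k1, k2⟩
        exact ⟨⟨k1, k2 ▸ hv⟩, k2⟩
    rw [h2]
    by_cases h3 : v ∈ fr
    · rw [hF.two v h3]
      exact even_two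
    · have h4 : (F.filter fun d => G.pi d = v) = ∅ := by
        rw [filter_eq_empty_iff]
        intro d hd h5
        exact h3 (h5 ▸ hF.Ffr d hd)
      rw [h4, card_empty]
      exact Even.zero
  have h2 : Even ((F.filter fun d => G.pi d ∈ S ∧ G.pi (G.al d) ∈ S).card) := by
    refine even_inv' (G := G) _ (fun d hd => hF.Fsub (mem_filter.1 hd).1) fun d hd => ?_
    obtain ⟨k1, k2, k3⟩ := mem_filter.1 hd
    refine mem_filter.2 ⟨hF.Fal d k1, k3, ?_⟩
    rw [G.al_al d (hF.Fsub k1)]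
    exact k2
  have h3 : (F.filter fun d => G.pi d ∈ S).card =
      (F.filter fun d => G.pi d ∈ S ∧ G.pi (G.al d) ∈ S).card +
        (F.filter fun d => G.pi d ∈ S ∧ G.pi (G.al d) ∉ S).card := by
    rw [← card_union_of_disjoint]
    · congr 1
      ext d
      rw [mem_union, mem_filter, mem_filter, mem_filter]
      tauto
    · rw [disjoint_left]
      intro d k1 k2
      exact (mem_filter.1 k2).2.2 (mem_filter.1 k1).2.2
  rw [h3] at h1
  rw [Nat.even_iff] at h1 h2 ⊢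
  omega

/-- **along an arc**: the colours of the two ends are equal or opposite, for all half certificates -/
theorem exists_arc (hF : G.FrS z fr F jm) (hf : f ∈ F) (hfb : f ∈ G.bd A) (hall : ∀ d ∈ G.bd A, d ∈ F → d = f ∨ d = g) :
    ∃ ε : ℝ, (ε = 1 ∨ ε = -1) ∧ ∀ p, HPe G t F A p → p (G.pi g) = ε * p (G.pi f) := by
  obtain ⟨S, hS⟩ : ∃ S : Finset V, ∀ v, v ∈ S ↔ (v ∈ A ∧ (∃ ε : ℝ, (ε = 1 ∨ ε = -1) ∧
      ∀ p, HPe G t F A p → p v = ε * p (G.pi f)) ∧ ∀ fr1 : Finset V, fr1 ⊆ A →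
        (∀ d ∈ F, G.pi d ∈ fr1 → G.pi (G.al d) ∈ fr1) → v ∉ fr1) :=
    ⟨A.filter fun v => (∃ ε : ℝ, (ε = 1 ∨ ε = -1) ∧
      ∀ p, HPe G t F A p → p v = ε * p (G.pi f)) ∧ ∀ fr1 : Finset V, fr1 ⊆ A →
        (∀ d ∈ F, G.pi d ∈ fr1 → G.pi (G.al d) ∈ fr1) → v ∉ fr1, fun v => mem_filter⟩
  obtain ⟨fd, fA, fn⟩ := mem_bd.1 hfb
  have h1 : G.pi f ∈ S := by
    rw [hS]
    refine ⟨fA, ⟨1, Or.inl rfl, fun p _ => (one_mul _).symm⟩, fun fr1 k1 k2 k3 => ?_⟩
    exact fn (k1 (k2 f hf k3))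
  have h2 : ∀ d ∈ F, G.pi d ∈ S → G.pi (G.al d) ∈ A → G.pi (G.al d) ∈ S := by
    intro d hd k1 k2
    rw [hS] at k1 ⊢
    obtain ⟨k3, ⟨ε, k4, k5⟩, k6⟩ := k1
    have hdd := hF.Fsub hd
    refine ⟨k2, ⟨-ε, ?_, fun p hp => ?_⟩, fun fr1 l1 l2 l3 => ?_⟩
    · rcases k4 with rfl | rfl
      · exact Or.inr rfl
      · exact Or.inl (by norm_num)
    · have l0 := k5 p hp
      obtain ⟨fr1, l1, l2, l3⟩ := hp
      have l4 := l3.jq d hdd k3 k2 (by unfold one1; exact one_pos)
        fun l5 => k6 fr1 l1 l2 (mem_filter.1 l5).2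
      linarith
    · refine k6 fr1 l1 l2 ?_
      have l4 := l2 _ (hF.Fal d hd) l3
      rwa [G.al_al d hdd] at l4
  have h3 := hF.fx_even S
  have h4 : g ∈ F.filter fun d => G.pi d ∈ S ∧ G.pi (G.al d) ∉ S := by
    by_contra h5
    have h6 : (F.filter fun d => G.pi d ∈ S ∧ G.pi (G.al d) ∉ S) = {f} := by
      ext d
      rw [mem_singleton]
      constructor
      · intro hd
        obtain ⟨k1, k2, k3⟩ := mem_filter.1 hd
        have k4 : G.pi (G.al d) ∉ A := fun k4 => k3 (h2 d k1 k2 k4)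
        have k5 : d ∈ G.bd A := mem_bd.2 ⟨hF.Fsub k1, ((hS _).1 k2).1, k4⟩
        rcases hall d k5 k1 with k6 | k6
        · exact k6
        · exact absurd (k6 ▸ hd) h5
      · rintro rfl
        exact mem_filter.2 ⟨hf, h1, fun k1 => fn ((hS _).1 k1).1⟩
    rw [h6, card_singleton] at h3
    exact absurd h3 (by decide)
  obtain ⟨-, h5, -⟩ := mem_filter.1 h4
  obtain ⟨-, ⟨ε, h6, h7⟩, -⟩ := (hS _).1 h5
  exact ⟨ε, h6, h7⟩

/-- everything absorbed -/
theorem EK.abs (h : EK G k t fr F jm) : EK G k t ∅ ∅ ∅ where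
  even := h.even
  fresh := {
    fsub := empty_subset _
    Fsub := empty_subset _
    Fal := fun d hd => absurd hd (notMem_empty d)
    Ffr := fun d hd => absurd hd (notMem_empty d)
    two := fun v hv => absurd hv (notMem_empty v)
    jms := empty_subset _
    jd := fun v hv => absurd hv (notMem_empty v)
    j0 := fun v hv => absurd hv (notMem_empty v)
    unit := fun _ _ hv => absurd hv (notMem_empty _) }
  jm2 := Or.inl rfl
  deg := h.deg
  t0 := h.t0
  tau := h.tau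
  odd := h.odd
  evn := h.evn
  c6 := fun X hX _ hn => by
    obtain ⟨v, hv⟩ := hn
    exact absurd (hX.sub hv) (notMem_empty v)

/-! ### the data and the glueing -/

/-- an even set `Y` of value 4 with one token, which is real, crossed by a circuit in `f`, `g`; the
third unit is `u` -/
structure FE (G : MG V D) (t : V → ℝ) (fr : Finset V) (F : Finset D) (jm Y : Finset V)
    (f g u : D) : Prop where
  hY : Y ⊆ G.vs
  ev : Even Y.card
  big : 4 ≤ Y.card
  two : 4 ≤ (G.vs \ Y).card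
  val : G.val one1 t Y = 4
  e : E3 G Y f g u
  fF : f ∈ F
  gF : g ∈ F
  uF : u ∉ F
  jY : Disjoint jm Y
  tY : ∑ v ∈ Y, t v = 1
  real : ∃ y ∈ Y, y ∉ fr ∧ 1 ≤ t y

/-- the arc is linked: no closed union with the arc (up to `f`, `g`) -/
def LKf (G : MG V D) (fr : Finset V) (F : Finset D) (Y : Finset V) (f g : D) (M : Finset D) :
    Prop :=
  ∀ X ⊆ fr, X ⊆ Y → (∀ d ∈ F, G.pi d ∈ X → G.pi (G.al d) ∈ X ∨ d = f ∨ d = g) →
    G.pi f ∈ X → G.pi g ∈ X → (∀ d ∈ G.bd X, d ≠ f → d ≠ g → d ∈ M) → False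

theorem card3 {P : D → Prop} [DecidablePred P] (n1 : f ≠ g) (n2 : f ≠ u) (n3 : g ≠ u) :
    (({f, g, u} : Finset D).filter P).card =
      (if P f then 1 else 0) + (if P g then 1 else 0) + if P u then 1 else 0 := by
  rw [card_filter, sum_insert (by
    rw [mem_insert, mem_singleton]
    exact fun h => h.elim n1 n2), sum_insert (by
    rw [mem_singleton]
    exact n3), sum_singleton]
  ring

namespace FE

variable (b : FE G t fr F jm Y f g u)
include b

theorem swap : FE G t fr F jm Y g f u :=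
  ⟨b.hY, b.ev, b.big, b.two, b.val, b.e.rot.swap, b.gF, b.fF, b.uF, b.jY, b.tY, b.real⟩

theorem fb : f ∈ G.bd Y := by
  rw [b.e.bd]
  simp

theorem gb : g ∈ G.bd Y := by
  rw [b.e.bd]
  simp

theorem ub : u ∈ G.bd Y := by
  rw [b.e.bd]
  simp

theorem mem3 {d : D} (hd : d ∈ G.bd Y) : d = f ∨ d = g ∨ d = u := by
  rw [b.e.bd, mem_insert, mem_insert, mem_singleton] at hd
  exact hd

/-- the absorbed version -/
theorem abs : EvB G t ∅ ∅ Y where
  hY := b.hY
  ev := b.ev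
  big := b.big
  two := by have := b.two; omega
  val := b.val
  hF := fun d hd => absurd hd (notMem_empty d)
  real := by
    obtain ⟨y, h1, -, h3⟩ := b.real
    exact ⟨y, h1, by linarith, notMem_empty y⟩

/-- **GLUEING** -/
theorem glue (h : X6 G t fr F jm) {M1 M2 : Finset D} (h1 : G.GHalf one1 fr F jm Y M1)
    (h2 : G.GHalf one1 fr F jm (G.vs \ Y) M2) (hx : ∀ d ∈ G.bd Y, d ∈ M1 ↔ G.al d ∈ M2)
    (hl : ¬ (f ∈ M1 ↔ g ∈ M1) ∨ LKf G fr F Y f g M1) : False := by
  have hF := h.fresh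
  have hpm := HM.glue h1.hm h2.hm hx
  refine h.bad ⟨M1 ∪ M2, hpm, fun _ _ => one_pos, ?_⟩
  intro X hX ho
  by_contra hcon
  push Not at hcon
  have c1 : ∀ d, G.pi d ∈ Y → d ∈ M1 ∪ M2 → d ∈ M1 := by
    intro d hd hm
    rcases mem_union.1 hm with h3 | h3
    · exact h3
    · exact absurd hd (mem_sdiff.1 (h2.hm.sub d h3).2).2
  have c2 : ∀ d, G.pi d ∉ Y → d ∈ M1 ∪ M2 → d ∈ M2 := by
    intro d hd hm
    rcases mem_union.1 hm with h3 | h3
    · exact absurd (h1.hm.sub d h3).2 hd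
    · exact h3
  obtain ⟨fd, fY, fn⟩ := mem_bd.1 b.fb
  obtain ⟨gd, gY, gn⟩ := mem_bd.1 b.gb
  obtain ⟨ud, uY, un⟩ := mem_bd.1 b.ub
  -- exits of the inner part
  have e1 : ∀ d ∈ G.bd (X ∩ Y), d ∉ M1 → d = f ∨ d = g ∨ d = u := by
    intro d hd hm
    obtain ⟨k1, k2, k3⟩ := mem_bd.1 hd
    obtain ⟨k4, k5⟩ := mem_inter.1 k2
    by_cases k6 : G.pi (G.al d) ∈ X
    · have k7 : G.pi (G.al d) ∉ Y := fun k7 => k3 (mem_inter.2 ⟨k6, k7⟩)
      exact b.mem3 (mem_bd.2 ⟨k1, k5, k7⟩)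
    · exact absurd (c1 d k5 (hcon d (mem_bd.2 ⟨k1, k4, k6⟩))) hm
  -- both ends of the arc or none
  have hfg : G.pi f ∈ X ↔ G.pi g ∈ X := by
    have k0 := hF.fx_even (X ∩ Y)
    have k1 : (F.filter fun d => G.pi d ∈ X ∩ Y ∧ G.pi (G.al d) ∉ X ∩ Y) =
        ({f, g} : Finset D).filter fun d => G.pi d ∈ X := by
      ext d
      rw [mem_filter, mem_filter, mem_insert, mem_singleton]
      constructor
      · rintro ⟨k2, k3, k4⟩
        obtain ⟨k5, k6⟩ := mem_inter.1 k3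
        have k7 := hX.clo d k2 k5
        have k8 : d ∈ G.bd Y := mem_bd.2 ⟨hF.Fsub k2, k6, fun k8 => k4 (mem_inter.2 ⟨k7, k8⟩)⟩
        refine ⟨?_, k5⟩
        rcases b.mem3 k8 with k9 | k9 | k9
        · exact Or.inl k9
        · exact Or.inr k9
        · exact absurd (k9 ▸ k2) b.uF
      · rintro ⟨rfl | rfl, k3⟩
        · exact ⟨b.fF, mem_inter.2 ⟨k3, fY⟩, fun k4 => fn (mem_inter.1 k4).2⟩
        · exact ⟨b.gF, mem_inter.2 ⟨k3, gY⟩, fun k4 => gn (mem_inter.1 k4).2⟩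
    rw [k1, card_filter, sum_pair b.e.fg] at k0
    by_cases k2 : G.pi f ∈ X <;> by_cases k3 : G.pi g ∈ X
    · exact ⟨fun _ => k3, fun _ => k2⟩
    · rw [if_pos k2, if_neg k3] at k0
      exact absurd k0 (by decide)
    · rw [if_neg k2, if_pos k3] at k0
      exact absurd k0 (by decide)
    · exact ⟨fun k => absurd k k2, fun k => absurd k k3⟩
  by_cases hfX : G.pi f ∈ X
  · -- the arc is in `X`
    have hgX := hfg.1 hfX
    have hXf : X ∩ Y ⊆ fr := inter_subset_left.trans hX.sub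
    have hac : ∀ d ∈ F, G.pi d ∈ X ∩ Y → G.pi (G.al d) ∈ X ∩ Y ∨ d = f ∨ d = g := by
      intro d hd k1
      obtain ⟨k2, k3⟩ := mem_inter.1 k1
      have k4 := hX.clo d hd k2
      by_cases k5 : G.pi (G.al d) ∈ Y
      · exact Or.inl (mem_inter.2 ⟨k4, k5⟩)
      · right
        rcases b.mem3 (mem_bd.2 ⟨hF.Fsub hd, k3, k5⟩) with k6 | k6 | k6
        · exact Or.inl k6
        · exact Or.inr k6
        · exact absurd (k6 ▸ hd) b.uF
    -- parity
    have p1 := h1.hm.par (Y := X ∩ Y) inter_subset_right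
    obtain ⟨n, p2, p3⟩ := h.val_nat (inter_subset_right.trans b.hY : X ∩ Y ⊆ G.vs)
    have p4 : ∑ v ∈ X ∩ Y, t v = 0 := by
      refine sum_eq_zero fun v hv => ?_
      obtain ⟨k1, k2⟩ := mem_inter.1 hv
      rw [h.tok_fr (hX.sub k1), if_neg fun k3 => disjoint_left.1 b.jY k3 k2]
    rw [val_one, p4, add_zero] at p2
    have p5 : (G.bd (X ∩ Y)).card = n := by exact_mod_cast p2
    have p6 := card_filter_add_card_filter_not (s := G.bd (X ∩ Y)) (fun d => d ∈ M1)
    have p7 : ((G.bd (X ∩ Y)).filter fun d => ¬ d ∈ M1).card % 2 = 0 := by omega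
    have fbX : f ∈ G.bd (X ∩ Y) :=
      mem_bd.2 ⟨fd, mem_inter.2 ⟨hfX, fY⟩, fun k => fn (mem_inter.1 k).2⟩
    have gbX : g ∈ G.bd (X ∩ Y) :=
      mem_bd.2 ⟨gd, mem_inter.2 ⟨hgX, gY⟩, fun k => gn (mem_inter.1 k).2⟩
    have p8 : ((G.bd (X ∩ Y)).filter fun d => ¬ d ∈ M1) =
        ({f, g, u} : Finset D).filter fun d => d ∈ G.bd (X ∩ Y) ∧ d ∉ M1 := by
      ext d
      rw [mem_filter, mem_filter, mem_insert, mem_insert, mem_singleton]
      constructor
      · rintro ⟨k1, k2⟩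
        exact ⟨e1 d k1 k2, k1, k2⟩
      · rintro ⟨-, k1, k2⟩
        exact ⟨k1, k2⟩
    rw [p8, card3 b.e.fg b.e.fk b.e.gk] at p7
    -- parity of the pattern
    have q1 := h1.hm.par (Y := Y) Subset.rfl
    have q2 := Nat.even_iff.1 b.ev
    have q3 : ((G.bd Y).filter fun d => d ∈ M1) =
        ({f, g, u} : Finset D).filter fun d => d ∈ M1 := by rw [b.e.bd]
    rw [q3, card3 b.e.fg b.e.fk b.e.gk] at q1
    have hlk : LKf G fr F Y f g M1 → (u ∈ G.bd (X ∩ Y) → u ∈ M1) → False := by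
      intro k1 k2
      refine k1 (X ∩ Y) hXf inter_subset_right hac (mem_inter.2 ⟨hfX, fY⟩)
        (mem_inter.2 ⟨hgX, gY⟩) fun d hd n1 n2 => ?_
      by_contra k3
      rcases e1 d hd k3 with k4 | k4 | k4
      · exact n1 k4
      · exact n2 k4
      · subst k4
        exact k3 (k2 hd)
    by_cases f1 : f ∈ M1 <;> by_cases g1 : g ∈ M1 <;> by_cases u1 : u ∈ M1 <;>
      by_cases u2 : u ∈ G.bd (X ∩ Y) <;>
      simp only [f1, g1, u1, u2, fbX, gbX, and_true, and_false, and_self, not_true,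
        not_false_iff, if_true, if_false] at p7 q1 <;>
      first
      | omega
      | exact hlk (hl.resolve_left fun k => k (by simp only [f1, g1])) (fun k => absurd k u2)
  · -- the arc is not in `X`
    have hgX : G.pi g ∉ X := fun k => hfX (hfg.2 k)
    have a1 : G.Adm fr F (X ∩ Y) := by
      refine ⟨inter_subset_left.trans hX.sub, fun d hd k1 => ?_⟩
      obtain ⟨k2, k3⟩ := mem_inter.1 k1
      have k4 := hX.clo d hd k2
      by_contra k5
      have k6 : G.pi (G.al d) ∉ Y := fun k6 => k5 (mem_inter.2 ⟨k4, k6⟩)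
      rcases b.mem3 (mem_bd.2 ⟨hF.Fsub hd, k3, k6⟩) with k7 | k7 | k7
      · exact hfX (k7 ▸ k2)
      · exact hgX (k7 ▸ k2)
      · exact b.uF (k7 ▸ hd)
    have a2 : ∀ d ∈ G.bd (X ∩ Y), d ∈ M1 := by
      intro d hd
      by_contra k1
      have k2 := h1.hm.unused hF a1 inter_subset_right
      have k3 : ((G.bd (X ∩ Y)).filter fun d => d ∉ M1) = {d} := by
        ext x
        rw [mem_filter, mem_singleton]
        have k4 : ∀ y ∈ G.bd (X ∩ Y), y ∉ M1 → y = u := by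
          intro y l1 l2
          have l3 := (mem_inter.1 (mem_bd.1 l1).2.1).1
          rcases e1 y l1 l2 with l4 | l4 | l4
          · exact absurd (l4 ▸ l3) hfX
          · exact absurd (l4 ▸ l3) hgX
          · exact l4
        constructor
        · rintro ⟨l1, l2⟩
          rw [k4 x l1 l2, k4 d hd k1]
        · rintro rfl
          exact ⟨hd, k1⟩
      have k4 : X ∩ Y ∩ jm = ∅ := by
        rw [eq_empty_iff_forall_notMem]
        intro v hv
        obtain ⟨l1, l2⟩ := mem_inter.1 hv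
        exact disjoint_left.1 b.jY l2 (mem_inter.1 l1).2
      rw [k3, k4, card_singleton, card_empty] at k2
      omega
    have a3 : G.Adm fr F (X \ Y) := by
      refine ⟨sdiff_subset.trans hX.sub, fun d hd k1 => ?_⟩
      obtain ⟨k2, k3⟩ := mem_sdiff.1 k1
      have k4 := hX.clo d hd k2
      refine mem_sdiff.2 ⟨k4, fun k5 => ?_⟩
      have k6 := a1.clo _ (hF.Fal d hd) (mem_inter.2 ⟨k4, k5⟩)
      rw [G.al_al d (hF.Fsub hd)] at k6
      exact k3 (mem_inter.1 k6).2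
    have a4 : ∀ d ∈ G.bd (X \ Y), d ∈ M2 := by
      intro d hd
      obtain ⟨k1, k2, k3⟩ := mem_bd.1 hd
      obtain ⟨k4, k5⟩ := mem_sdiff.1 k2
      by_cases k6 : G.pi (G.al d) ∈ X
      · have k7 : G.pi (G.al d) ∈ Y := by
          by_contra k7
          exact k3 (mem_sdiff.2 ⟨k6, k7⟩)
        have k8 : G.al d ∈ G.bd (X ∩ Y) := mem_bd.2 ⟨G.al_mem d k1, mem_inter.2 ⟨k6, k7⟩,
          by rw [G.al_al d k1]; exact fun k9 => k5 (mem_inter.1 k9).2⟩
        have k9 : G.al d ∈ G.bd Y := mem_bd.2 ⟨G.al_mem d k1, k7,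
          by rw [G.al_al d k1]; exact k5⟩
        have k10 := (hx _ k9).1 (a2 _ k8)
        rwa [G.al_al d k1] at k10
      · exact c2 d k5 (hcon d (mem_bd.2 ⟨k1, k4, k6⟩))
    obtain ⟨b1, -⟩ := h1.ok _ a1 inter_subset_right a2
    obtain ⟨b2, b3⟩ := h2.ok _ a3 (fun v hv => mem_sdiff.2
      ⟨hF.fsub (hX.sub (mem_sdiff.1 hv).1), (mem_sdiff.1 hv).2⟩) a4
    rcases ho with ho | ⟨hn, hs⟩
    · have k1 := card_inter_add_card_sdiff X Y
      rw [Nat.even_iff] at b1 b2
      rw [Nat.odd_iff] at ho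
      omega
    · exact b3 ⟨hn, fun v hv => mem_sdiff.2 ⟨hs hv, fun k => disjoint_left.1 b.jY hv k⟩⟩

end FE

end MG

end RH
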