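import Pool.Agent.Lib.RH.CE6F3
import Pool.Agent.Lib.RH.CE6E1

/-! # Row F3 from `h6` alone -/

set_option autoImplicit false

namespace RH

open Finset Classical

namespace MG

variable {V D : Type*} [Infinite V] [Infinite D] {G : MG V D} {t : V → ℝ} {fr : Finset V}
variable {F : Finset D} {jm : Finset V}

/-- **(F3)** in the form of the board, from `h6` -/
theorem X6.f3h (h : X6 G t fr F jm) (hna : NoAdj G t F)
    (h6 : ∀ Y, EvB G t F jm Y → Y.card = 6 → Disjoint Y fr → (G.bd Y).card = 3 →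
      ∃ p, G.HPot one1 t F Y p ∧ ∀ v ∈ Y, p v = 1 ∨ p v = -1) :
    ∀ Y ⊆ G.vs, Even Y.card → 4 ≤ Y.card → 4 ≤ (G.vs \ Y).card →
      (∃ y ∈ Y, y ∉ fr ∧ 1 ≤ t y) → ∑ v ∈ Y, t v = 1 → G.val one1 t Y = 4 → FCut G F Y → False :=
  fun _ k1 k2 k3 k4 k5 k6 k7 k8 =>
    h.f3 hna (fun _ z1 z2 z3 z4 _ zr zc zv => h.e1a hna h6 z1 z2 (by omega) z4 zr zv zc
      (Or.inl z3)) k1 k2 k3 k4 k5 k6 k7 k8

/-- **(E)** from `h6` alone -/
theorem X6.e1h (h : X6 G t fr F jm) (hna : NoAdj G t F)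
    (h6 : ∀ Y, EvB G t F jm Y → Y.card = 6 → Disjoint Y fr → (G.bd Y).card = 3 →
      ∃ p, G.HPot one1 t F Y p ∧ ∀ v ∈ Y, p v = 1 ∨ p v = -1)
    {Y : Finset V} (hY : Y ⊆ G.vs) (he : Even Y.card) (h4 : 4 ≤ Y.card)
    (hZ : 4 ≤ (G.vs \ Y).card) (hr : ∃ y ∈ Y, y ∉ fr ∧ 1 ≤ t y) (hv : G.val one1 t Y = 4)
    (hc : ¬ FCut G F Y) : False :=
  h.e1 hna (h.f3h hna h6) h6 hY he h4 hZ hr hv hc

end MG

end RH
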