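import Pool.Agent.Lib.RH.F2Cut

/-! Even sets of value 2: an F-edge in the boundary is impossible (if there are no J-type 2-cuts). -/

set_option autoImplicit false

namespace RH

open Finset Classical

namespace MG

variable {V D : Type*} {G : MG V D} {z : D → ℝ} {t : V → ℝ} {fr : Finset V} {F : Finset D}
variable {jm sx : Finset V} {ep : V → ℕ} {m : ℕ} {M : Finset D} {Z : Finset V}

/-- the number of F-darts leaving a set is even -/
theorem FrS.even_cross (hF : G.FrS z fr F jm) (Z : Finset V) :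
    Even (F.filter fun d => G.pi d ∈ Z ∧ G.pi (G.al d) ∉ Z).card := by
  have h1 : (F.filter fun d => G.pi d ∈ Z).card = 2 * (fr ∩ Z).card := by
    rw [card_eq_sum_card_fiberwise (f := G.pi) (s := F.filter fun d => G.pi d ∈ Z) (t := fr ∩ Z)
      (fun d hd => by
        obtain ⟨h1, h2⟩ := mem_filter.1 (mem_coe.1 hd)
        exact mem_coe.2 (mem_inter.2 ⟨hF.Ffr d h1, h2⟩))]
    rw [mul_comm, ← smul_eq_mul, ← sum_const]
    refine sum_congr rfl fun v hv => ?_
    obtain ⟨h2, h3⟩ := mem_inter.1 hv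
    rw [← hF.two v h2]
    congr 1
    ext d
    rw [mem_filter, mem_filter, mem_filter]
    constructor
    · rintro ⟨⟨a, -⟩, b⟩
      exact ⟨a, b⟩
    · rintro ⟨a, b⟩
      exact ⟨⟨a, by rw [b]; exact h3⟩, b⟩
  have h2 := card_filter_add_card_filter_not (s := F.filter fun d => G.pi d ∈ Z)
    (fun d => G.pi (G.al d) ∈ Z)
  have h3 : Even ((F.filter fun d => G.pi d ∈ Z).filter fun d => G.pi (G.al d) ∈ Z).card := by
    have h4 : ∑ _d ∈ (F.filter fun d => G.pi d ∈ Z).filter fun d => G.pi (G.al d) ∈ Z,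
        (1 : ZMod 2) = 0 := by
      refine sum_involution (fun d _ => G.al d) ?_ ?_ ?_ ?_
      · intro d _
        decide
      · intro d hd _ he
        exact G.noloop d (hF.Fsub (mem_filter.1 (mem_filter.1 hd).1).1) (by rw [he])
      · intro d hd
        obtain ⟨h5, h6⟩ := mem_filter.1 hd
        obtain ⟨h7, h8⟩ := mem_filter.1 h5
        refine mem_filter.2 ⟨mem_filter.2 ⟨hF.Fal d h7, h6⟩, ?_⟩
        rw [G.al_al d (hF.Fsub h7)]
        exact h8
      · intro d hd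
        exact G.al_al d (hF.Fsub (mem_filter.1 (mem_filter.1 hd).1).1)
    rw [sum_const, nsmul_eq_mul, mul_one] at h4
    rwa [ZMod.natCast_eq_zero_iff_even] at h4
  have h4 : ((F.filter fun d => G.pi d ∈ Z).filter fun d => ¬ G.pi (G.al d) ∈ Z) =
      F.filter fun d => G.pi d ∈ Z ∧ G.pi (G.al d) ∉ Z := by
    rw [filter_filter]
  rw [h4] at h2
  rw [Nat.even_iff] at h3 ⊢
  omega

/-- an even set of value 2 which cuts an F-edge cuts two of them -/
theorem F2Z.of_dart (hF : G.FrS z fr F jm) (hZ : Z ⊆ G.vs) (he : Even Z.card)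
    (hv : G.val z t Z = 2) {g : D} (hg : g ∈ F) (h1 : G.pi g ∈ Z) (h2 : G.pi (G.al g) ∉ Z) :
    ∃ g2, G.F2Z z t F Z g g2 := by
  have h3 := hF.even_cross Z
  have h4 : g ∈ F.filter fun d => G.pi d ∈ Z ∧ G.pi (G.al d) ∉ Z := mem_filter.2 ⟨hg, h1, h2⟩
  have h5 : 1 < (F.filter fun d => G.pi d ∈ Z ∧ G.pi (G.al d) ∉ Z).card := by
    have h6 := card_pos.2 ⟨g, h4⟩
    obtain ⟨k, hk⟩ := h3
    omega
  obtain ⟨g2, h6, h7⟩ := exists_mem_ne h5 g
  obtain ⟨h8, h9, h10⟩ := mem_filter.1 h6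
  exact ⟨g2, hZ, he, hg, h8, h7.symm, mem_bd.2 ⟨hF.Fsub hg, h1, h2⟩,
    mem_bd.2 ⟨hF.Fsub h8, h9, h10⟩, hv⟩

/-- **even sets of value 2 do not cut circuits** -/
theorem MCS.even2_closed [Infinite V] [Infinite D] (h : G.MCS z t fr F jm sx ep 0)
    (hZ : Z ⊆ G.vs) (he : Even Z.card) (hv : G.val z t Z = 2) :
    ∀ d ∈ F, G.pi d ∈ Z → G.pi (G.al d) ∈ Z := by
  intro g hg h1
  by_contra h2
  obtain ⟨g2, c⟩ := F2Z.of_dart h.inst.fresh hZ he hv hg h1 h2
  exact h.no_F2cut c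

/-- **even sets of value 2**: either there is no boundary edge of weight 1, or one side consists of
two vertices outside the circuits -/
theorem MCS.even2 [Infinite V] [Infinite D] (h : G.MCS z t fr F jm sx ep 0)
    (hZ : Z ⊆ G.vs) (he : Even Z.card) (hv : G.val z t Z = 2) {e : D} (hee : e ∈ G.bd Z)
    (hz : z e = 1) (hsz : 4 ≤ Z.card ∨ (fr ∩ Z).Nonempty)
    (hsy : 4 ≤ (G.vs \ Z).card ∨ (fr \ Z).Nonempty) : False := by
  obtain ⟨h1, h2, h3⟩ := mem_bd.1 hee
  exact h.no_c2 ⟨hZ, he, hv, h1, h2, h3, hz, h.even2_closed hZ he hv⟩ hsz hsy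

end MG

end RH
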