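import Pool.Agent.Lib.RH.SSide

/-! Sets cut by exactly two F-edges: parities and values. -/

set_option autoImplicit false

namespace RH

open Finset Classical

namespace MG

variable {V D : Type*}

/-- `W` is cut by exactly two F-edges, with darts `g1`, `g2` at `W` -/
structure FC (G : MG V D) (F : Finset D) (W : Finset V) (g1 g2 : D) : Prop where
  hW : W ⊆ G.vs
  ne : g1 ≠ g2
  f1 : g1 ∈ F
  f2 : g2 ∈ F
  w1 : G.pi g1 ∈ W
  w2 : G.pi g2 ∈ W
  u1 : G.pi (G.al g1) ∉ W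
  u2 : G.pi (G.al g2) ∉ W
  only : ∀ d ∈ F, G.pi d ∈ W → G.pi (G.al d) ∉ W → d = g1 ∨ d = g2

/-- the part of a union in `Z` -/
structure AdmZ (G : MG V D) (fr : Finset V) (F : Finset D) (Z X : Finset V) : Prop where
  sub : X ⊆ fr
  subZ : X ⊆ Z
  clo : ∀ d ∈ F, G.pi d ∈ X → G.pi (G.al d) ∈ Z → G.pi (G.al d) ∈ X

/-- number of J-darts leaving a set -/
noncomputable def nj (G : MG V D) (F : Finset D) (A : Finset V) : ℕ :=
  ((G.bd A).filter fun d => d ∉ F).card

variable {G : MG V D} {z : D → ℝ} {t : V → ℝ} {fr : Finset V} {F : Finset D} {jm : Finset V}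
variable {W Z A X : Finset V} {g1 g2 : D} {M : Finset D}

theorem Adm.admZ (h : G.Adm fr F X) (Z : Finset V) : G.AdmZ fr F Z (X ∩ Z) :=
  ⟨inter_subset_left.trans h.sub, inter_subset_right, fun d hd hp hZ =>
    mem_inter.2 ⟨h.clo d hd (mem_inter.1 hp).1, hZ⟩⟩

theorem FC.symm (hc : G.FC F W g1 g2) (hF : G.FrS z fr F jm) :
    G.FC F (G.vs \ W) (G.al g1) (G.al g2) := by
  have a1 := G.al_al g1 (hF.Fsub hc.f1)
  have a2 := G.al_al g2 (hF.Fsub hc.f2)
  refine ⟨sdiff_subset, ?_, hF.Fal _ hc.f1, hF.Fal _ hc.f2, ?_, ?_, ?_, ?_, ?_⟩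
  · intro h
    exact hc.ne (by rw [← a1, h, a2])
  · exact mem_sdiff.2 ⟨G.pi_mem _ (G.al_mem _ (hF.Fsub hc.f1)), hc.u1⟩
  · exact mem_sdiff.2 ⟨G.pi_mem _ (G.al_mem _ (hF.Fsub hc.f2)), hc.u2⟩
  · rw [a1]
    exact fun h => (mem_sdiff.1 h).2 hc.w1
  · rw [a2]
    exact fun h => (mem_sdiff.1 h).2 hc.w2
  · intro d hd h1 h2
    have h3 := hF.Fsub hd
    have h4 : G.pi (G.al d) ∈ W := by
      by_contra hn
      exact h2 (mem_sdiff.2 ⟨G.pi_mem _ (G.al_mem _ h3), hn⟩)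
    have h5 := G.al_al d h3
    rcases hc.only _ (hF.Fal d hd) h4 (by rw [h5]; exact (mem_sdiff.1 h1).2) with h6 | h6
    · exact Or.inl (by rw [← h5, h6])
    · exact Or.inr (by rw [← h5, h6])

private theorem even_inv (S : Finset D) (hS : S ⊆ G.ds) (hcl : ∀ d ∈ S, G.al d ∈ S) :
    Even S.card := by
  have h1 : ∑ _d ∈ S, (1 : ZMod 2) = 0 := by
    refine sum_involution (fun d _ => G.al d) ?_ ?_ ?_ ?_
    · intro d _
      decide
    · intro d hd _ he
      exact G.noloop d (hS hd) (by rw [he])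
    · intro d hd
      exact hcl d hd
    · intro d hd
      exact G.al_al d (hS hd)
  rw [sum_const, nsmul_eq_mul, mul_one] at h1
  rwa [ZMod.natCast_eq_zero_iff_even] at h1

/-- the F-darts leaving a part: both or none -/
theorem FC.both (hc : G.FC F W g1 g2) (hF : G.FrS z fr F jm) (hA : G.AdmZ fr F W A) :
    G.pi g1 ∈ A ↔ G.pi g2 ∈ A := by
  have h1 : (F.filter fun d => G.pi d ∈ A).card = 2 * A.card := by
    rw [card_eq_sum_card_fiberwise (f := G.pi) (s := F.filter fun d => G.pi d ∈ A) (t := A)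
      (fun d hd => (mem_filter.1 (mem_coe.1 hd)).2)]
    rw [sum_congr rfl (g := fun _ => 2), sum_const, smul_eq_mul, mul_comm]
    intro v hv
    rw [← hF.two v (hA.sub hv)]
    congr 1
    ext d
    rw [mem_filter, mem_filter, mem_filter]
    constructor
    · rintro ⟨⟨h, -⟩, h2⟩
      exact ⟨h, h2⟩
    · rintro ⟨h, h2⟩
      exact ⟨⟨h, h2 ▸ hv⟩, h2⟩
  have h2 := card_filter_add_card_filter_not (s := F.filter fun d => G.pi d ∈ A)
    (fun d => G.pi (G.al d) ∈ A)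
  have h3 : Even ((F.filter fun d => G.pi d ∈ A).filter fun d => G.pi (G.al d) ∈ A).card := by
    refine even_inv (G := G) _ (((filter_subset _ _).trans (filter_subset _ _)).trans hF.Fsub) ?_
    intro d hd
    rw [mem_filter, mem_filter] at hd ⊢
    obtain ⟨⟨h4, h5⟩, h6⟩ := hd
    refine ⟨⟨hF.Fal d h4, h6⟩, ?_⟩
    rw [G.al_al d (hF.Fsub h4)]
    exact h5
  have h4 : ((F.filter fun d => G.pi d ∈ A).filter fun d => ¬ G.pi (G.al d) ∈ A) =
      (if G.pi g1 ∈ A then {g1} else ∅) ∪ (if G.pi g2 ∈ A then {g2} else ∅) := by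
    ext d
    rw [mem_filter, mem_filter, mem_union]
    constructor
    · rintro ⟨⟨h5, h6⟩, h7⟩
      have h8 : G.pi (G.al d) ∉ W := fun h9 => h7 (hA.clo d h5 h6 h9)
      rcases hc.only d h5 (hA.subZ h6) h8 with rfl | rfl
      · exact Or.inl (by rw [if_pos h6]; exact mem_singleton_self _)
      · exact Or.inr (by rw [if_pos h6]; exact mem_singleton_self _)
    · rintro (h5 | h5)
      · split_ifs at h5 with h6
        · rw [mem_singleton] at h5
          rw [h5]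
          exact ⟨⟨hc.f1, h6⟩, fun h7 => hc.u1 (hA.subZ h7)⟩
        · exact absurd h5 (notMem_empty _)
      · split_ifs at h5 with h6
        · rw [mem_singleton] at h5
          rw [h5]
          exact ⟨⟨hc.f2, h6⟩, fun h7 => hc.u2 (hA.subZ h7)⟩
        · exact absurd h5 (notMem_empty _)
  rw [h4] at h2
  obtain ⟨k, hk⟩ := h3
  by_cases c1 : G.pi g1 ∈ A <;> by_cases c2 : G.pi g2 ∈ A
  · exact iff_of_true c1 c2
  · exfalso
    rw [if_pos c1, if_neg c2, union_empty, card_singleton] at h2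
    omega
  · exfalso
    rw [if_neg c1, if_pos c2, empty_union, card_singleton] at h2
    omega
  · exact iff_of_false c1 c2

/-- number of J-darts leaving a set of fresh vertices -/
theorem FrS.nj_par (hF : G.FrS z fr F jm) (hA : A ⊆ fr) :
    (G.nj F A + (A ∩ jm).card) % 2 = A.card % 2 := by
  set S : Finset D := G.ds.filter fun d => G.pi d ∈ A ∧ d ∉ F with hS
  have h1 : S.card + (A ∩ jm).card = A.card := by
    have e : S.card = (A \ jm).card := by
      have hmaps : ∀ d ∈ S, G.pi d ∈ A \ jm := by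
        intro d hd
        obtain ⟨h2, h3, h4⟩ := mem_filter.1 hd
        refine mem_sdiff.2 ⟨h3, fun h5 => h4 (hF.j0 _ h5 d (mem_st.2 ⟨h2, rfl⟩))⟩
      rw [card_eq_sum_card_fiberwise (f := G.pi) (s := S) (t := A \ jm)
        (fun d hd => mem_coe.2 (hmaps d (mem_coe.1 hd)))]
      rw [card_eq_sum_ones (A \ jm)]
      refine sum_congr rfl fun v hv => ?_
      rw [← hF.jd v (hA (mem_sdiff.1 hv).1) (mem_sdiff.1 hv).2]
      congr 1
      ext d
      rw [mem_filter, mem_filter, mem_filter, mem_st]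
      constructor
      · rintro ⟨⟨h, h2, h3⟩, h4⟩
        exact ⟨⟨h, h4⟩, h3⟩
      · rintro ⟨⟨h, h4⟩, h3⟩
        exact ⟨⟨h, h4 ▸ (mem_sdiff.1 hv).1, h3⟩, h4⟩
    rw [e]
    exact card_sdiff_add_card_inter A jm
  have h2 := card_filter_add_card_filter_not (s := S) (fun d => G.pi (G.al d) ∈ A)
  have h3 : Even (S.filter fun d => G.pi (G.al d) ∈ A).card := by
    refine even_inv (G := G) _ ((filter_subset _ _).trans (filter_subset _ _)) ?_
    intro d hd
    rw [mem_filter, hS, mem_filter] at hd ⊢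
    obtain ⟨⟨h5, h6, h7⟩, h8⟩ := hd
    refine ⟨⟨G.al_mem d h5, h8, fun h9 => h7 ?_⟩, ?_⟩
    · have h10 := hF.Fal _ h9
      rwa [G.al_al d h5] at h10
    · rw [G.al_al d h5]
      exact h6
  have h4 : (S.filter fun d => ¬ G.pi (G.al d) ∈ A) = (G.bd A).filter fun d => d ∉ F := by
    ext d
    rw [mem_filter, mem_filter, mem_filter, mem_bd]
    constructor
    · rintro ⟨⟨h5, h6, h7⟩, h8⟩
      exact ⟨⟨h5, h6, h8⟩, h7⟩
    · rintro ⟨⟨h5, h6, h8⟩, h7⟩
      exact ⟨⟨h5, h6, h7⟩, h8⟩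
  rw [h4] at h2
  unfold nj
  obtain ⟨k, hk⟩ := h3
  omega

/-- the parity law for a part -/
theorem FrS.law (hF : G.FrS z fr F jm) (hM : G.IsPM M) (hA : A ⊆ fr) :
    Even (((G.bd A).filter fun d => d ∉ F ∧ d ∉ M).card + (A ∩ jm).card +
      ((G.bd A).filter fun d => d ∈ F ∧ d ∈ M).card) := by
  have h1 := hF.nj_par hA
  have h2 := hM.parity (hA.trans hF.fsub)
  unfold nj at h1
  have h3 := card_filter_add_card_filter_not (s := (G.bd A).filter fun d => d ∉ F)
    (fun d => d ∈ M)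
  have h4 := card_filter_add_card_filter_not (s := (G.bd A).filter fun d => d ∈ M)
    (fun d => d ∈ F)
  have e1 : (((G.bd A).filter fun d => d ∉ F).filter fun d => ¬ d ∈ M) =
      (G.bd A).filter fun d => d ∉ F ∧ d ∉ M := by rw [filter_filter]
  have e2 : (((G.bd A).filter fun d => d ∈ M).filter fun d => d ∈ F) =
      (G.bd A).filter fun d => d ∈ F ∧ d ∈ M := by
    rw [filter_filter]
    exact filter_congr fun d _ => and_comm
  have e3 : (((G.bd A).filter fun d => d ∉ F).filter fun d => d ∈ M) =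
      (((G.bd A).filter fun d => d ∈ M).filter fun d => ¬ d ∈ F) := by
    rw [filter_filter, filter_filter]
    exact filter_congr fun d _ => and_comm
  rw [e1, e3] at h3
  rw [e2] at h4
  rw [Nat.even_iff]
  omega

/-- tokens of a set of fresh vertices -/
theorem FrS.sum_t (hF : G.FrS z fr F jm) (hw : G.Wt z t) (hA : A ⊆ fr) :
    ∑ v ∈ A, t v = (A ∩ jm).card := by
  have h1 : ∑ v ∈ A, t v = ∑ v ∈ A, if v ∈ jm then (1 : ℝ) else 0 := by
    refine sum_congr rfl fun v hv => ?_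
    split_ifs with h2
    · exact hF.t_jm hw h2
    · exact hF.t_not_jm hw (hA hv) h2
  rw [h1, ← sum_filter, filter_mem_eq_inter, sum_const, nsmul_eq_mul, mul_one]

/-- weight of the J-darts leaving a set of fresh vertices -/
theorem FrS.sum_nj (hF : G.FrS z fr F jm) (hA : A ⊆ fr) :
    ∑ d ∈ (G.bd A).filter (fun d => d ∉ F), z d = G.nj F A := by
  have h1 : ∑ d ∈ (G.bd A).filter (fun d => d ∉ F), z d =
      ∑ _d ∈ (G.bd A).filter (fun d => d ∉ F), (1 : ℝ) := by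
    refine sum_congr rfl fun d hd => ?_
    obtain ⟨h2, -⟩ := mem_filter.1 hd
    obtain ⟨h3, h4, -⟩ := mem_bd.1 h2
    exact hF.unit d h3 (hA h4)
  rw [h1, sum_const, nsmul_eq_mul, mul_one]
  rfl

/-- the third unit of a tight set which is cut by two F-edges -/
theorem FC.third (hc : G.FC F W g1 g2) (hF : G.FrS z fr F jm) (h3 : G.val z t W = 3) :
    ∑ d ∈ (G.bd W).filter (fun d => d ∉ F), z d + ∑ v ∈ W, t v = 1 := by
  have h1 := sum_filter_add_sum_filter_not (G.bd W) (fun d => d ∉ F) z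
  have h2 : ((G.bd W).filter fun d => ¬ d ∉ F) = {g1, g2} := by
    ext d
    rw [mem_filter, not_not, mem_bd, mem_insert, mem_singleton]
    constructor
    · rintro ⟨⟨-, h4, h5⟩, h6⟩
      exact hc.only d h6 h4 h5
    · rintro (rfl | rfl)
      · exact ⟨⟨hF.Fsub hc.f1, hc.w1, hc.u1⟩, hc.f1⟩
      · exact ⟨⟨hF.Fsub hc.f2, hc.w2, hc.u2⟩, hc.f2⟩
  have h4 : ∑ d ∈ ({g1, g2} : Finset D), z d = 2 := by
    rw [sum_pair hc.ne, hF.unit g1 (hF.Fsub hc.f1) (hF.Ffr g1 hc.f1),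
      hF.unit g2 (hF.Fsub hc.f2) (hF.Ffr g2 hc.f2)]
    norm_num
  rw [h2, h4] at h1
  unfold val at h3
  linarith

/-- value of a part of the outside together with `W` -/
theorem FC.val_le (hc : G.FC F W g1 g2) (hF : G.FrS z fr F jm) (hw : G.Wt z t)
    (h3 : G.val z t W = 3) (hA : G.AdmZ fr F (G.vs \ W) A) (hg : G.pi (G.al g1) ∈ A) :
    G.val z t (A ∪ W) ≤ G.nj F A + (A ∩ jm).card + 1 := by
  have hd : Disjoint A W := by
    rw [disjoint_left]
    intro v hv
    exact (mem_sdiff.1 (hA.subZ hv)).2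
  have h1 := hc.third hF h3
  have hg2 : G.pi (G.al g2) ∈ A := ((hc.symm hF).both hF hA).1 hg
  have h2 : ∑ d ∈ G.bd (A ∪ W), z d ≤ ∑ d ∈ (G.bd A).filter (fun d => d ∉ F), z d +
      ∑ d ∈ (G.bd W).filter (fun d => d ∉ F), z d := by
    have h4 : G.bd (A ∪ W) ⊆ ((G.bd A).filter fun d => d ∉ F) ∪
        ((G.bd W).filter fun d => d ∉ F) := by
      intro d hd'
      obtain ⟨h5, h6, h7⟩ := mem_bd.1 hd'
      rw [mem_union, not_or] at h7
      rcases mem_union.1 h6 with h8 | h8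
      · refine mem_union_left _ (mem_filter.2 ⟨mem_bd.2 ⟨h5, h8, h7.1⟩, fun h9 => h7.1 ?_⟩)
        exact hA.clo d h9 h8 (mem_sdiff.2 ⟨G.pi_mem _ (G.al_mem d h5), h7.2⟩)
      · refine mem_union_right _ (mem_filter.2 ⟨mem_bd.2 ⟨h5, h8, h7.2⟩, fun h9 => h7.1 ?_⟩)
        rcases hc.only d h9 h8 h7.2 with rfl | rfl
        · exact hg
        · exact hg2
    refine (sum_le_sum_of_subset_of_nonneg h4 ?_).trans ?_
    · intro d hd' _
      rcases mem_union.1 hd' with h5 | h5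
      · exact hw.z0 d (mem_bd.1 (mem_filter.1 h5).1).1
      · exact hw.z0 d (mem_bd.1 (mem_filter.1 h5).1).1
    · rw [sum_union]
      rw [disjoint_left]
      intro d h5 h6
      exact disjoint_left.1 hd (mem_bd.1 (mem_filter.1 h5).1).2.1
        (mem_bd.1 (mem_filter.1 h6).1).2.1
  have h4 := hF.sum_nj hA.sub
  have h5 := hF.sum_t hw hA.sub
  unfold val
  rw [sum_union hd, h5]
  linarith

/-- value of the rest of `W` -/
theorem FC.val_rest (hc : G.FC F W g1 g2) (hF : G.FrS z fr F jm) (hw : G.Wt z t)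
    (h3 : G.val z t W = 3) (hA : G.AdmZ fr F W A) (hg : G.pi g1 ∈ A) :
    G.val z t (W \ A) + (A ∩ jm).card +
      2 * ((G.bd W).filter fun d => d ∉ F ∧ G.pi d ∈ A).card = G.nj F A + 1 := by
  have h1 := hc.third hF h3
  have hg2 : G.pi g2 ∈ A := (hc.both hF hA).1 hg
  have h5 := hF.sum_t hw hA.sub
  have h6 := sum_sdiff hA.subZ (f := t)
  have hbd : ∑ d ∈ G.bd (W \ A), z d = ∑ d ∈ G.ed (W \ A) A, z d +
      ∑ d ∈ (G.bd W).filter (fun d => G.pi d ∈ W \ A), z d := by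
    rw [← sum_union]
    · refine sum_congr ?_ fun _ _ => rfl
      ext d
      rw [mem_union, mem_bd, mem_ed, mem_filter, mem_bd, mem_sdiff, mem_sdiff]
      constructor
      · rintro ⟨a, ⟨b, b'⟩, c⟩
        by_cases e : G.pi (G.al d) ∈ W
        · refine Or.inl ⟨a, ⟨b, b'⟩, ?_⟩
          by_contra e'
          exact c ⟨e, e'⟩
        · exact Or.inr ⟨⟨a, b, e⟩, b, b'⟩
      · rintro (⟨a, b, c⟩ | ⟨⟨a, b, c⟩, e⟩)
        · exact ⟨a, b, fun e => e.2 c⟩
        · exact ⟨a, e, fun e' => c e'.1⟩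
    · rw [disjoint_left]
      intro d h7 h8
      exact (mem_bd.1 (mem_filter.1 h8).1).2.2 (hA.subZ (mem_ed.1 h7).2.2)
  have h7 : ∑ d ∈ G.ed (W \ A) A, z d = ∑ d ∈ G.ed A (W \ A), z d := hw.ed_symm _ _
  have h8 : ∑ d ∈ (G.bd A).filter (fun d => d ∉ F), z d = ∑ d ∈ G.ed A (W \ A), z d +
      ∑ d ∈ (G.bd W).filter (fun d => d ∉ F ∧ G.pi d ∈ A), z d := by
    rw [← sum_union]
    · refine sum_congr ?_ fun _ _ => rfl
      ext d
      rw [mem_union, mem_filter, mem_bd, mem_ed, mem_filter, mem_bd, mem_sdiff]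
      constructor
      · rintro ⟨⟨a, b, c⟩, e⟩
        by_cases e' : G.pi (G.al d) ∈ W
        · exact Or.inl ⟨a, b, e', c⟩
        · exact Or.inr ⟨⟨a, hA.subZ b, e'⟩, e, b⟩
      · rintro (⟨a, b, c, e⟩ | ⟨⟨a, b, c⟩, e, e'⟩)
        · refine ⟨⟨a, b, e⟩, fun e' => e (hA.clo d e' b c)⟩
        · exact ⟨⟨a, e', fun h => c (hA.subZ h)⟩, e⟩
    · rw [disjoint_left]
      intro d h9 h10
      exact (mem_bd.1 (mem_filter.1 h10).1).2.2 (mem_sdiff.1 (mem_ed.1 h9).2.2).1
  have h9 : ∑ d ∈ (G.bd W).filter (fun d => d ∉ F), z d =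
      ∑ d ∈ (G.bd W).filter (fun d => d ∉ F ∧ G.pi d ∈ A), z d +
      ∑ d ∈ (G.bd W).filter (fun d => G.pi d ∈ W \ A), z d := by
    rw [← sum_union]
    · refine sum_congr ?_ fun _ _ => rfl
      ext d
      rw [mem_union, mem_filter, mem_filter, mem_filter, mem_bd, mem_sdiff]
      constructor
      · rintro ⟨⟨a, b, c⟩, e⟩
        by_cases e' : G.pi d ∈ A
        · exact Or.inl ⟨⟨a, b, c⟩, e, e'⟩
        · exact Or.inr ⟨⟨a, b, c⟩, b, e'⟩
      · rintro (⟨a, b, c⟩ | ⟨⟨a, b, c⟩, e, e'⟩)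
        · exact ⟨a, b⟩
        · refine ⟨⟨a, b, c⟩, fun h => ?_⟩
          rcases hc.only d h b c with rfl | rfl
          · exact e' hg
          · exact e' hg2
    · rw [disjoint_left]
      intro d h9 h10
      exact (mem_sdiff.1 (mem_filter.1 h10).2).2 (mem_filter.1 h9).2.2
  have h10 : ∑ d ∈ (G.bd W).filter (fun d => d ∉ F ∧ G.pi d ∈ A), z d =
      ((G.bd W).filter fun d => d ∉ F ∧ G.pi d ∈ A).card := by
    have h11 : ∑ d ∈ (G.bd W).filter (fun d => d ∉ F ∧ G.pi d ∈ A), z d =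
        ∑ _d ∈ (G.bd W).filter (fun d => d ∉ F ∧ G.pi d ∈ A), (1 : ℝ) := by
      refine sum_congr rfl fun d hd => ?_
      obtain ⟨h12, -, h13⟩ := mem_filter.1 hd
      exact hF.unit d (mem_bd.1 h12).1 (hA.sub h13)
    rw [h11, sum_const, nsmul_eq_mul, mul_one]
  have h4 := hF.sum_nj hA.sub
  unfold val
  rw [hbd]
  linarith

end MG

end RH
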