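import Pool.Agent.Lib.RH.TplD

/-! # Concrete template gadgets (tables)

`pen`: the token pentagon `v0 v1 v2 v3 v4` with a token at `v0` and the ports 0, 1, 2, 3 at `v1`, ..,
`v4` (replaces an odd set of value 5 with one token and four exits).
`path2`: `p(token, 0) - q(token) - r(1, 2)`, `path3`: `p(token, 0) - q(token) - r(token, 1)` (odd sets
of value 5 with 2 or 3 tokens).
`hex6`: the pentagon `a0 .. a4` and `x ~ a0, a2`, token at `a1`, the ports 0, 1, 2 at `a3`, `a4`, `x`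
(even sets of value 4 with one token). `pq`: `p(token, 0) - q(token, 1)` (even sets of value 4 with
two tokens). `gf`: `g1(token, 0) - g2(1, 2)`.
`lam`: `w1(0, 1) - w2(3) - w3(2, token)`, `gam`: `w1(0, 1) - w2(token) - w3(2, 3)`. -/

set_option autoImplicit false

namespace RH

open Finset

namespace Tpl

/-- the token pentagon -/
def pen : Tpl 5 5 4 where
  a := ![0, 1, 2, 3, 4]
  b := ![1, 2, 3, 4, 0]
  pt := ![1, 2, 3, 4]
  tk := ![1, 0, 0, 0, 0]

/-- path with adjacent tokens, three ports -/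
def path2 : Tpl 3 2 3 where
  a := ![0, 1]
  b := ![1, 2]
  pt := ![0, 2, 2]
  tk := ![1, 1, 0]

/-- path with three tokens, two ports -/
def path3 : Tpl 3 2 2 where
  a := ![0, 1]
  b := ![1, 2]
  pt := ![0, 2]
  tk := ![1, 1, 1]

/-- pentagon and a twin, one token, three ports -/
def hex6 : Tpl 6 7 3 where
  a := ![0, 1, 2, 3, 4, 5, 5]
  b := ![1, 2, 3, 4, 0, 0, 2]
  pt := ![3, 4, 5]
  tk := ![0, 1, 0, 0, 0, 0]

/-- two adjacent tokens, two ports -/
def pq : Tpl 2 1 2 where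
  a := ![0]
  b := ![1]
  pt := ![0, 1]
  tk := ![1, 1]

/-- one token, three ports -/
def gf : Tpl 2 1 3 where
  a := ![0]
  b := ![1]
  pt := ![0, 1, 1]
  tk := ![1, 0]

/-- `Lam` -/
def lam : Tpl 3 2 4 where
  a := ![0, 1]
  b := ![1, 2]
  pt := ![0, 0, 2, 1]
  tk := ![0, 0, 1]

/-- `Gam` -/
def gam : Tpl 3 2 4 where
  a := ![0, 1]
  b := ![1, 2]
  pt := ![0, 0, 2, 2]
  tk := ![0, 1, 0]

theorem pen_reg : pen.Reg := by decide
theorem path2_reg : path2.Reg := by decide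
theorem path3_reg : path3.Reg := by decide
theorem hex6_reg : hex6.Reg := by decide
theorem pq_reg : pq.Reg := by decide
theorem gf_reg : gf.Reg := by decide
theorem lam_reg : lam.Reg := by decide
theorem gam_reg : gam.Reg := by decide

/-- at most one port -/
def one1S (np : ℕ) : Finset (Finset (Fin np)) := univ.filter fun κ => κ.card ≤ 1

/-- ports of neighbouring vertices do not end in one vertex -/
def penS1 : Finset (Finset (Fin 4)) :=
  univ.filter fun κ => κ.card ≤ 2 ∧ ¬ (0 ∈ κ ∧ 1 ∈ κ) ∧ ¬ (1 ∈ κ ∧ 2 ∈ κ) ∧ ¬ (2 ∈ κ ∧ 3 ∈ κ)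

theorem pen_tab : pen.Tab 1 9 penS1 (oE univ) (oO 1 univ) where
  t0 := by decide +kernel
  t1 := by decide +kernel
  t2 := by decide +kernel
  t3 := by decide +kernel
  t4 := by decide +kernel

theorem hex6_tab : hex6.Tab 0 8 (one1S 3) (oE univ) (oO 0 univ) where
  t0 := by decide +kernel
  t1 := by decide +kernel
  t2 := by decide +kernel
  t3 := by decide +kernel
  t4 := by decide +kernel

/-- sets of ports without both ports 1 and 2 -/
def n12 : Finset (Finset (Fin 3)) := univ.filter fun κ => ¬ (1 ∈ κ ∧ 2 ∈ κ)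

theorem path2_tab : path2.Tab 1 7 n12 (oE n12) (oO 1 univ) where
  t0 := by decide +kernel
  t1 := by decide +kernel
  t2 := by decide +kernel
  t3 := by decide +kernel
  t4 := by decide +kernel

theorem path3_tab : path3.Tab 1 5 univ (oE univ) (oO 1 univ) where
  t0 := by decide +kernel
  t1 := by decide +kernel
  t2 := by decide +kernel
  t3 := by decide +kernel
  t4 := by decide +kernel

theorem pq_tab : pq.Tab 0 6 (one1S 2) (oE univ) (oO 0 univ) where
  t0 := by decide +kernel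
  t1 := by decide +kernel
  t2 := by decide +kernel
  t3 := by decide +kernel
  t4 := by decide +kernel

theorem gf_tab : gf.Tab 0 8 (one1S 3) (oE n12) (oO 0 univ) where
  t0 := by decide +kernel
  t1 := by decide +kernel
  t2 := by decide +kernel
  t3 := by decide +kernel
  t4 := by decide +kernel

/-- sets of ports without both ports 0 and 1 -/
def lamE : Finset (Finset (Fin 4)) := univ.filter fun κ => ¬ (0 ∈ κ ∧ 1 ∈ κ)

/-- `lam`: no even 4-set with the ports 0, 1, or with 2, 3; the ends of 0, 1 (2, 3) are different -/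
theorem lam_tab : lam.Tab 1 9 (one1S 4)
    (oE (univ.filter fun κ => ¬ (0 ∈ κ ∧ 1 ∈ κ) ∧ ¬ (2 ∈ κ ∧ 3 ∈ κ)))
    (oO 1 (univ.filter fun κ => ¬ (0 ∈ κ ∧ 1 ∈ κ ∧ 3 ∈ κ))) where
  t0 := by decide +kernel
  t1 := by decide +kernel
  t2 := by decide +kernel
  t3 := by decide +kernel
  t4 := by decide +kernel

theorem gam_tab : gam.Tab 1 9 (one1S 4)
    (oE (univ.filter fun κ => ¬ (0 ∈ κ ∧ 1 ∈ κ) ∧ ¬ (2 ∈ κ ∧ 3 ∈ κ))) (oO 1 univ) where
  t0 := by decide +kernel
  t1 := by decide +kernel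
  t2 := by decide +kernel
  t3 := by decide +kernel
  t4 := by decide +kernel

/-! ### patterns -/

theorem pen_pat : ∀ m κ, pen.IsPat m κ → κ.card = 1 ∨ κ = {0, 1, 2} ∨ κ = {1, 2, 3} := by
  decide +kernel

theorem path2_pat : ∀ m κ, path2.IsPat m κ → κ.card = 1 := by decide +kernel

theorem path3_pat : ∀ m κ, path3.IsPat m κ → κ.card = 1 := by decide +kernel

theorem hex6_pat : ∀ m κ, hex6.IsPat m κ → κ = ∅ ∨ κ.card = 2 := by decide +kernel

theorem pq_pat : ∀ m κ, pq.IsPat m κ → κ = ∅ ∨ κ = {0, 1} := by decide +kernel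

theorem gf_pat : ∀ m κ, gf.IsPat m κ → κ = ∅ ∨ κ = {0, 1} ∨ κ = {0, 2} := by decide +kernel

theorem lam_pat : ∀ m κ, lam.IsPat m κ → κ = {0} ∨ κ = {1} ∨ κ = {2} ∨ κ = {0, 2, 3} ∨
    κ = {1, 2, 3} := by decide +kernel

theorem gam_pat : ∀ m κ, gam.IsPat m κ → κ.card = 1 := by decide +kernel

/-! ### colourings -/

theorem pen_noC (c : Fin 5 → ℝ) (h : ∀ i, c (pen.a i) + c (pen.b i) = 0)
    (h1 : ∀ v, pen.tk v ≠ 0 → c v = 1) : False := by
  have a0 : c 0 + c 1 = 0 := h 0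
  have a1 : c 1 + c 2 = 0 := h 1
  have a2 : c 2 + c 3 = 0 := h 2
  have a3 : c 3 + c 4 = 0 := h 3
  have a4 : c 4 + c 0 = 0 := h 4
  have a5 : c 0 = 1 := h1 0 (by decide)
  linarith

theorem path2_noC (c : Fin 3 → ℝ) (h : ∀ i, c (path2.a i) + c (path2.b i) = 0)
    (h1 : ∀ v, path2.tk v ≠ 0 → c v = 1) : False := by
  have a0 : c 0 + c 1 = 0 := h 0
  have a5 : c 0 = 1 := h1 0 (by decide)
  have a6 : c 1 = 1 := h1 1 (by decide)
  linarith

theorem path3_noC (c : Fin 3 → ℝ) (h : ∀ i, c (path3.a i) + c (path3.b i) = 0)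
    (h1 : ∀ v, path3.tk v ≠ 0 → c v = 1) : False := by
  have a0 : c 0 + c 1 = 0 := h 0
  have a5 : c 0 = 1 := h1 0 (by decide)
  have a6 : c 1 = 1 := h1 1 (by decide)
  linarith

theorem pq_noC (c : Fin 2 → ℝ) (h : ∀ i, c (pq.a i) + c (pq.b i) = 0)
    (h1 : ∀ v, pq.tk v ≠ 0 → c v = 1) : False := by
  have a0 : c 0 + c 1 = 0 := h 0
  have a5 : c 0 = 1 := h1 0 (by decide)
  have a6 : c 1 = 1 := h1 1 (by decide)
  linarith

theorem hex6_noC (c : Fin 6 → ℝ) (h : ∀ i, c (hex6.a i) + c (hex6.b i) = 0)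
    (h1 : ∀ v, hex6.tk v ≠ 0 → c v = 1) : False := by
  have a0 : c 0 + c 1 = 0 := h 0
  have a1 : c 1 + c 2 = 0 := h 1
  have a2 : c 2 + c 3 = 0 := h 2
  have a3 : c 3 + c 4 = 0 := h 3
  have a4 : c 4 + c 0 = 0 := h 4
  have a5 : c 1 = 1 := h1 1 (by decide)
  linarith

/-- the colouring of `gf`: the port 0 has the value -1, the ports 1, 2 have 1 (outer ends) -/
theorem gf_col (c : Fin 2 → ℝ) (h : ∀ i, c (gf.a i) + c (gf.b i) = 0)
    (h1 : ∀ v, gf.tk v ≠ 0 → c v = 1) :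
    c (gf.pt 0) = 1 ∧ c (gf.pt 1) = -1 ∧ c (gf.pt 2) = -1 := by
  have a0 : c 0 + c 1 = 0 := h 0
  have a5 : c 0 = 1 := h1 0 (by decide)
  have e0 : c (gf.pt 0) = c 0 := rfl
  have e1 : c (gf.pt 1) = c 1 := rfl
  have e2 : c (gf.pt 2) = c 1 := rfl
  rw [e0, e1, e2]
  refine ⟨a5, ?_, ?_⟩ <;> linarith

theorem lam_col (c : Fin 3 → ℝ) (h : ∀ i, c (lam.a i) + c (lam.b i) = 0)
    (h1 : ∀ v, lam.tk v ≠ 0 → c v = 1) :
    c (lam.pt 0) = 1 ∧ c (lam.pt 1) = 1 ∧ c (lam.pt 2) = 1 ∧ c (lam.pt 3) = -1 := by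
  have a0 : c 0 + c 1 = 0 := h 0
  have a1 : c 1 + c 2 = 0 := h 1
  have a5 : c 2 = 1 := h1 2 (by decide)
  have e0 : c (lam.pt 0) = c 0 := rfl
  have e1 : c (lam.pt 1) = c 0 := rfl
  have e2 : c (lam.pt 2) = c 2 := rfl
  have e3 : c (lam.pt 3) = c 1 := rfl
  rw [e0, e1, e2, e3]
  refine ⟨?_, ?_, a5, ?_⟩ <;> linarith

theorem gam_col (c : Fin 3 → ℝ) (h : ∀ i, c (gam.a i) + c (gam.b i) = 0)
    (h1 : ∀ v, gam.tk v ≠ 0 → c v = 1) : ∀ i, c (gam.pt i) = -1 := by
  have a0 : c 0 + c 1 = 0 := h 0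
  have a1 : c 1 + c 2 = 0 := h 1
  have a5 : c 1 = 1 := h1 1 (by decide)
  intro i
  fin_cases i
  · change c 0 = -1
    linarith
  · change c 0 = -1
    linarith
  · change c 2 = -1
    linarith
  · change c 2 = -1
    linarith

/-! ### inner gadgets -/

/-- nothing -/
def emp : Tpl 0 0 0 where
  a := Fin.elim0
  b := Fin.elim0
  pt := Fin.elim0
  tk := Fin.elim0

/-- `beta` -/
def bt : Tpl 1 0 1 where
  a := Fin.elim0
  b := Fin.elim0
  pt := ![0]
  tk := ![2]

/-- two betas -/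
def bb : Tpl 2 0 2 where
  a := Fin.elim0
  b := Fin.elim0
  pt := ![0, 1]
  tk := ![2, 2]

/-- `alpha(0, 1)`, `beta(2)`, `beta(3)` -/
def abb : Tpl 3 0 4 where
  a := Fin.elim0
  b := Fin.elim0
  pt := ![0, 0, 1, 2]
  tk := ![1, 2, 2]

/-- `omega(0, 1, 2)` -/
def om : Tpl 1 0 3 where
  a := Fin.elim0
  b := Fin.elim0
  pt := ![0, 0, 0]
  tk := ![0]

/-- `alpha(0, 1)` -/
def al : Tpl 1 0 2 where
  a := Fin.elim0
  b := Fin.elim0
  pt := ![0, 0]
  tk := ![1]

theorem emp_reg : emp.Reg := by decide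
theorem bt_reg : bt.Reg := by decide
theorem bb_reg : bb.Reg := by decide
theorem abb_reg : abb.Reg := by decide
theorem om_reg : om.Reg := by decide
theorem al_reg : al.Reg := by decide

theorem emp_tab (w n0 : ℕ) (s1 : Finset (Finset (Fin 0))) (bE bO : Finset (Fin 0) → ℕ) :
    emp.Tab w n0 s1 bE bO where
  t0 := fun S => ⟨fun _ _ => by
    have h1 : S = ∅ := Subsingleton.elim _ _
    subst h1
    rename_i h2 _
    simp at h2, fun _ h => absurd (Subsingleton.elim _ _) h⟩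
  t1 := fun S _ h => absurd (Subsingleton.elim _ _) h
  t2 := fun S _ h => absurd (Subsingleton.elim _ _) h
  t3 := fun S _ h => absurd (Subsingleton.elim _ _) h
  t4 := fun S _ h => absurd (Subsingleton.elim _ _) h

/-- inner, `w` = 1 -/
theorem bt_tab : bt.Tab 1 5 univ (iE univ) (iO univ) where
  t0 := by decide +kernel
  t1 := by decide +kernel
  t2 := by decide +kernel
  t3 := by decide +kernel
  t4 := by decide +kernel

/-- inner, `w` = 0 -/
theorem bb_tab : bb.Tab 0 4 (one1S 2) (iE univ) (iO univ) where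
  t0 := by decide +kernel
  t1 := by decide +kernel
  t2 := by decide +kernel
  t3 := by decide +kernel
  t4 := by decide +kernel

/-- inner, `w` = 1: no vertex and no even 4-set with both ports of `alpha` -/
theorem abb_tab : abb.Tab 1 5 (univ.filter fun κ => ¬ (0 ∈ κ ∧ 1 ∈ κ))
    (iE (univ.filter fun κ => ¬ (0 ∈ κ ∧ 1 ∈ κ))) (iO univ) where
  t0 := by decide +kernel
  t1 := by decide +kernel
  t2 := by decide +kernel
  t3 := by decide +kernel
  t4 := by decide +kernel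

theorem bt_pat : ∀ m κ, bt.IsPat m κ → κ = {0} := by decide +kernel
theorem bb_pat : ∀ m κ, bb.IsPat m κ → κ = {0, 1} := by decide +kernel
theorem abb_pat : ∀ m κ, abb.IsPat m κ → κ = {0, 2, 3} ∨ κ = {1, 2, 3} := by decide +kernel
theorem om_pat : ∀ m κ, om.IsPat m κ → κ.card = 1 := by decide +kernel
theorem al_pat : ∀ m κ, al.IsPat m κ → κ.card = 1 := by decide +kernel

/-! ### more inner gadgets -/

/-- `beta(0)` and `p(token, 1) - q(token) - r(token, 2)` -/
def bp3 : Tpl 4 2 3 where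
  a := ![1, 2]
  b := ![2, 3]
  pt := ![0, 1, 3]
  tk := ![2, 1, 1, 1]

/-- `alpha(0, 1)`, `beta(2)` -/
def ab : Tpl 2 0 3 where
  a := Fin.elim0
  b := Fin.elim0
  pt := ![0, 0, 1]
  tk := ![1, 2]

theorem bp3_reg : bp3.Reg := by decide
theorem ab_reg : ab.Reg := by decide

/-- inner, `w` = 0, 6 tokens, always strict -/
theorem bp3_tab : bp3.Tab 0 4 (one1S 3) (iE univ) (iO univ) where
  t0 := by decide +kernel
  t1 := by decide +kernel
  t2 := by decide +kernel
  t3 := by decide +kernel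
  t4 := by decide +kernel

/-- inner, `w` = 0, 4 tokens: no even 4-set with both ports of `alpha` -/
theorem ab_tab : ab.TabF 0 4 (one1S 3) (iE (univ.filter fun κ => ¬ (0 ∈ κ ∧ 1 ∈ κ)))
    (iO univ) where
  t0 := by decide +kernel
  t1 := by decide +kernel
  t2 := by decide +kernel
  t3 := by decide +kernel
  t4 := by decide +kernel

theorem emp_tabF (w n0 : ℕ) (s1 : Finset (Finset (Fin 0))) (bE bO : Finset (Fin 0) → ℕ) :
    emp.TabF w n0 s1 bE bO where
  t0 := (emp_tab w n0 s1 bE bO).t0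
  t1 := fun S _ h => absurd (Subsingleton.elim _ _) h
  t2 := fun S _ h => absurd (Subsingleton.elim _ _) h
  t3 := fun S _ h => absurd (Subsingleton.elim _ _) h
  t4 := fun S _ h => absurd (Subsingleton.elim _ _) h

theorem bp3_pat : ∀ m κ, bp3.IsPat m κ → κ = {0, 1} ∨ κ = {0, 2} := by decide +kernel
theorem ab_pat : ∀ m κ, ab.IsPat m κ → κ = {0, 2} ∨ κ = {1, 2} := by decide +kernel

theorem bp3_noC (c : Fin 4 → ℝ) (h : ∀ i, c (bp3.a i) + c (bp3.b i) = 0)
    (h1 : ∀ v, bp3.tk v ≠ 0 → c v = 1) : False := by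
  have a0 : c 1 + c 2 = 0 := h 0
  have a5 : c 1 = 1 := h1 1 (by decide)
  have a6 : c 2 = 1 := h1 2 (by decide)
  linarith

/-- `beta(0)` and the path `(token, 1) - (token) - (token) - (2, 3)` -/
def bp4 : Tpl 5 3 4 where
  a := ![1, 2, 3]
  b := ![2, 3, 4]
  pt := ![0, 1, 4, 4]
  tk := ![2, 1, 1, 1, 0]

theorem bp4_reg : bp4.Reg := by decide

/-- no 2, 3 at one vertex -/
def n23 : Finset (Finset (Fin 4)) := univ.filter fun κ => ¬ (2 ∈ κ ∧ 3 ∈ κ)

/-- inner, `w` = 1, 6 tokens: no vertex and no even 4-set with both ports 2, 3 -/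
theorem bp4_tab : bp4.Tab 1 5 n23 (iE n23) (iO univ) where
  t0 := by decide +kernel
  t1 := by decide +kernel
  t2 := by decide +kernel
  t3 := by decide +kernel
  t4 := by decide +kernel

theorem bp4_pat : ∀ m κ, bp4.IsPat m κ → κ = {0} ∨ κ = {0, 1, 2} ∨ κ = {0, 1, 3} := by
  decide +kernel

theorem bp4_noC (c : Fin 5 → ℝ) (h : ∀ i, c (bp4.a i) + c (bp4.b i) = 0)
    (h1 : ∀ v, bp4.tk v ≠ 0 → c v = 1) : False := by
  have a0 : c 1 + c 2 = 0 := h 0
  have a5 : c 1 = 1 := h1 1 (by decide)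
  have a6 : c 2 = 1 := h1 2 (by decide)
  linarith

end Tpl

end RH
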