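import Pool.Agent.Lib.RH.TplE
import Pool.Agent.Lib.RH.GPen

/-! # Template gadgets in the class CE6: outer and inner instances

`OBlk.fact`, `X6.tplO`, `X6.tplF`: `vs - A` is odd of value 5 or even of value 4, no dropped exits.
`IBlk.fact`, `X6.tplI`: `A` itself is odd of value 5 or even of value 4, some exits may be dropped, with
a star. -/

set_option autoImplicit false

namespace RH

open Finset Classical

variable {nv ne np : ℕ}

namespace MG

variable {V D : Type*} {G : MG V D} {t : V → ℝ} {fr fr1 : Finset V} {F : Finset D}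
variable {jm A X : Finset V} {w : ℕ}
variable {T : Tpl nv ne np} {pp : Fin np → D} {hh : Fin nv → V} {cc : Fin ne → Bool → D}
variable {n0 : ℕ} {s1 e4 o5 : Finset (Finset (Fin np))} {Ts : Finset V}
variable {k k' : ℝ} {M : Finset D}

/-- number of ports at `X`, all exits are ports -/
theorem kap_qx (hpp : G.bd A = univ.image pp) (hpi : Function.Injective pp) (X : Finset V) :
    qx G A X = (TOk.kap G pp X).card := by
  unfold qx TOk.kap
  rw [hpp, ← card_image_of_injective (univ.filter fun i => G.pi (pp i) ∈ X) hpi]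
  congr 1
  ext d
  simp only [mem_filter, mem_image, mem_univ, true_and]
  constructor
  · rintro ⟨⟨i, rfl⟩, h2⟩
    exact ⟨i, h2, rfl⟩
  · rintro ⟨i, h2, rfl⟩
    exact ⟨⟨i, rfl⟩, h2⟩

/-- number of ports at `X`, in general -/
theorem kap_le (hpb : ∀ i, pp i ∈ G.bd A) (hpi : Function.Injective pp) (X : Finset V) :
    (TOk.kap G pp X).card ≤ qx G A X := by
  unfold qx TOk.kap
  rw [← card_image_of_injective (univ.filter fun i => G.pi (pp i) ∈ X) hpi]
  refine card_le_card fun d hd => ?_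
  obtain ⟨i, h1, rfl⟩ := mem_image.1 hd
  exact mem_filter.2 ⟨hpb i, (mem_filter.1 h1).2⟩

/-- the facts about subsets of the outer side `A` -/
theorem OBlk.fact (b : OBlk G t F A w) (h : EK G 6 t fr F jm)
    (hpp : G.bd A = univ.image pp) (hpi : Function.Injective pp)
    (hn : n0 + w = 2 * np + 2)
    (c1 : ∀ v ∈ A, TOk.kap G pp {v} ∈ s1)
    (c4 : ∀ X ⊆ A, Even X.card → X.Nonempty → X ≠ A → G.val one1 t X = 4 → TOk.kap G pp X ∈ e4)
    (c5 : ∀ X ⊆ A, Odd X.card → X.card ≠ 1 → X ≠ A → G.val one1 t X = 5 →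
      TOk.kap G pp X ∈ o5) : TOk.TFact G t A pp w n0 s1 (Tpl.oE e4) (Tpl.oO w o5) where
  one := c1
  ev := by
    intro X hX he hXn hXA
    obtain ⟨n, h1, h2⟩ := h.val_nat (hX.trans b.hA)
    have hXv : X ≠ G.vs := fun e => hXA (subset_antisymm hX (e ▸ b.hA))
    have h4 : 4 ≤ n := by
      have := h.evn X (hX.trans b.hA) he hXn hXv
      rw [h1] at this
      exact_mod_cast this
    refine ⟨n, h1, max_le ?_ ?_⟩
    · by_cases h6 : TOk.kap G pp X ∈ e4
      · rw [if_pos h6]
        exact h4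
      · rw [if_neg h6]
        by_contra h7
        refine h6 (c4 X hX he hXn hXA ?_)
        rw [Nat.even_iff] at he
        rw [h1]
        have : n = 4 := by omega
        rw [this]
        norm_num
    · by_cases hw : w = 1
      · have h5 := h.tabO b.hA hX (by
          have := b.par
          rw [Nat.odd_iff, Nat.add_mod]
          rw [Nat.even_iff] at he
          omega) (by have := b.two; omega)
        rw [h1, b.val, kap_qx hpp hpi, hw] at h5
        push_cast at h5
        have h6 : ((2 * (TOk.kap G pp X).card : ℕ) : ℝ) ≤ n := by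
          push_cast
          linarith
        exact_mod_cast h6
      · have hw0 : w = 0 := by
          have := b.w1
          omega
        have h5 := h.tabE b.hA hX (by
          have := b.par
          rw [Nat.even_iff] at he ⊢
          omega) (card_pos.1 (by have := b.two; omega)) hXA
        rw [h1, b.val, kap_qx hpp hpi, hw0] at h5
        push_cast at h5
        have h6 : ((2 * (TOk.kap G pp X).card : ℕ) : ℝ) ≤ n := by
          push_cast
          linarith
        exact_mod_cast h6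
  od := by
    intro X hX ho h1' hXA
    obtain ⟨n, h1, h2⟩ := h.val_nat (hX.trans b.hA)
    have h4 : 5 ≤ n := by
      have := h.odd X (hX.trans b.hA) ho h1'
      rw [h1] at this
      exact_mod_cast this
    refine ⟨n, h1, max_le ?_ ?_⟩
    · by_cases h6 : TOk.kap G pp X ∈ o5
      · rw [if_pos h6]
        exact h4
      · rw [if_neg h6]
        by_contra h7
        refine h6 (c5 X hX ho h1' hXA ?_)
        rw [Nat.odd_iff] at ho
        rw [h1]
        have : n = 5 := by omega
        rw [this]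
        norm_num
    · rw [Nat.odd_iff] at ho
      by_cases hw : w = 1
      · have h5 := h.tabE b.hA hX (by
          have := b.par
          rw [Nat.even_iff]
          omega) (card_pos.1 (by have := b.two; omega)) hXA
        rw [h1, b.val, kap_qx hpp hpi, hw] at h5
        push_cast at h5
        have h6 : ((2 * (TOk.kap G pp X).card : ℕ) : ℝ) ≤ ((n + 1 : ℕ) : ℝ) := by
          push_cast
          linarith
        have h7 : 2 * (TOk.kap G pp X).card ≤ n + 1 := by exact_mod_cast h6
        omega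
      · have hw0 : w = 0 := by
          have := b.w1
          omega
        have h5 := h.tabO b.hA hX (by
          have := b.par
          rw [Nat.odd_iff]
          omega) (by have := b.two; omega)
        rw [h1, b.val, kap_qx hpp hpi, hw0] at h5
        push_cast at h5
        have h6 : ((2 * (TOk.kap G pp X).card + 1 : ℕ) : ℝ) ≤ ((n : ℕ) : ℝ) := by
          push_cast
          linarith
        have h7 : 2 * (TOk.kap G pp X).card + 1 ≤ n := by exact_mod_cast h6
        omega
  all := by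
    rw [(b.valA h hpp hpi).1]
    have h1 : (n0 : ℝ) + w = 2 * np + 2 := by exact_mod_cast hn
    linarith
  par := b.cardA h.even

/-- for `w` = 0 no vertex has two exits -/
theorem OBlk.one1 (b : OBlk G t F A 0) (h : EK G 6 t fr F jm)
    (hpp : G.bd A = univ.image pp) (hpi : Function.Injective pp) {v : V} (hv : v ∈ A) :
    TOk.kap G pp {v} ∈ Tpl.one1S np := by
  have h5 := h.tabO b.hA (singleton_subset_iff.2 hv) (by
    have := b.par
    rw [Nat.odd_iff, card_singleton]
    omega) (by have := b.two; rw [card_singleton]; omega)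
  rw [h.wt.val_single (b.hA hv), b.val, kap_qx hpp hpi] at h5
  push_cast at h5
  unfold Tpl.one1S
  rw [mem_filter]
  refine ⟨mem_univ _, ?_⟩
  have h6 : (((TOk.kap G pp {v}).card : ℕ) : ℝ) ≤ (1 : ℕ) := by
    push_cast
    linarith
  exact_mod_cast h6

/-- **outer gadget states** (any position of the star): a half matching with a pattern of the table,
or a half certificate with a colouring of the table -/
theorem X6.tplO [Infinite V] [Infinite D] (h : X6 G t fr F jm) (b : OBlk G t F A w)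
    {T : Tpl nv ne np} (hreg : T.Reg) (hT : T.Tab w n0 s1 (Tpl.oE e4) (Tpl.oO w o5))
    (hn : n0 + w = 2 * np + 2) (hk : T.nT univ + np + 2 = 6 + w) (hnv : nv % 2 = w)
    {pp : Fin np → D} (hpp : G.bd A = univ.image pp) (hpi : Function.Injective pp)
    (hsm : (fr ∩ A).card < fr.card ∨ nv < (G.vs \ A).card)
    (c1 : ∀ v ∈ A, TOk.kap G pp {v} ∈ s1)
    (c4 : ∀ X ⊆ A, Even X.card → X.Nonempty → X ≠ A → G.val one1 t X = 4 → TOk.kap G pp X ∈ e4)
    (c5 : ∀ X ⊆ A, Odd X.card → X.card ≠ 1 → X ≠ A → G.val one1 t X = 5 →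
      TOk.kap G pp X ∈ o5) :
    (∃ M m, G.GHalf one1 fr F jm A M ∧ T.IsPat m (univ.filter fun i => pp i ∈ M)) ∨
      ∃ (p : V → ℝ) (c : Fin nv → ℝ), G.HPot one1 t F A p ∧ (∀ i, c (T.a i) + c (T.b i) = 0) ∧
        (∀ v, T.tk v ≠ 0 → c v = 1) ∧ ∀ i, p (G.pi (pp i)) + c (T.pt i) = 0 := by
  have hE := h.toEK
  have hf := b.fact hE hpp hpi hn c1 c4 c5
  have hev : Even (A.card + nv) := by
    have h1 := b.cardA h.even
    rw [Nat.even_iff]
    omega
  have hpb : ∀ i, pp i ∈ G.bd A := fun i => by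
    rw [hpp]
    exact mem_image_of_mem _ (mem_univ _)
  have hdr : (G.bd A).filter (fun d => ∀ i, pp i ≠ d) = ∅ := by
    rw [filter_eq_empty_iff]
    intro d hd h1
    rw [hpp] at hd
    obtain ⟨i, -, hi⟩ := mem_image.1 hd
    exact h1 i hi
  have ht : ∑ v ∈ A, t v + (((G.bd A).filter fun d => ∀ i, pp i ≠ d).card : ℝ) +
      T.nT univ = 6 := by
    rw [hdr, card_empty, (b.valA hE hpp hpi).2]
    have e4 : (T.nT univ : ℝ) + np + 2 = 6 + w := by exact_mod_cast hk
    push_cast
    linarith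
  have hsm' : (fr ∩ A).card < fr.card ∨ A.card + nv < G.vs.card := by
    rcases hsm with h1 | h1
    · exact Or.inl h1
    · right
      have := card_sdiff_add_card_eq_card b.hA
      omega
  have hne : (G.vs \ A).Nonempty := card_pos.1 (by have := b.two; omega)
  obtain ⟨Ts, k1, k2, k3⟩ : ∃ Ts : Finset V, (Ts = ∅ ∨ Ts.card = 2) ∧
      (∀ v ∈ Ts, v ∈ jm ∨ ∃ d, Drop G A pp d ∧ G.pi d = v) ∧ (Ts = jm ∨ jm = ∅ ∨ ¬ jm ⊆ A) := by
    by_cases h1 : jm ⊆ A
    · exact ⟨jm, h.jm2, fun v hv => Or.inl hv, Or.inl rfl⟩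
    · exact ⟨∅, Or.inl rfl, fun v hv => absurd hv (notMem_empty v), Or.inr (Or.inr h1)⟩
  rcases h.tplG b.hA hne hreg hT hpb hpi hf hev ht k1 k2 hsm' with ⟨M, m, h1, h2⟩ | h1
  · exact Or.inl ⟨M, m, h1.half h.fresh h.jm2 k3, h2⟩
  · obtain ⟨p, c, h1, -, h2⟩ := h1
    exact Or.inr ⟨p, c, h1, h2⟩

/-- **outer gadget states without certificate** -/
theorem X6.tplF [Infinite V] [Infinite D] (h : X6 G t fr F jm) (b : OBlk G t F A w)
    {T : Tpl nv ne np} (hreg : T.Reg) (hT : T.Tab w n0 s1 (Tpl.oE e4) (Tpl.oO w o5))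
    (hn : n0 + w = 2 * np + 2) (hk : T.nT univ + np + 2 = 6 + w) (hnv : nv % 2 = w)
    (hnc : T.NoC)
    {pp : Fin np → D} (hpp : G.bd A = univ.image pp) (hpi : Function.Injective pp)
    (hsm : (fr ∩ A).card < fr.card ∨ nv < (G.vs \ A).card)
    (c1 : ∀ v ∈ A, TOk.kap G pp {v} ∈ s1)
    (c4 : ∀ X ⊆ A, Even X.card → X.Nonempty → X ≠ A → G.val one1 t X = 4 → TOk.kap G pp X ∈ e4)
    (c5 : ∀ X ⊆ A, Odd X.card → X.card ≠ 1 → X ≠ A → G.val one1 t X = 5 →
      TOk.kap G pp X ∈ o5) :
    ∃ M m, G.GHalf one1 fr F jm A M ∧ T.IsPat m (univ.filter fun i => pp i ∈ M) := by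
  rcases h.tplO b hreg hT hn hk hnv hpp hpi hsm c1 c4 c5 with h1 | ⟨p, c, -, h2, h3, -⟩
  · exact h1
  · exact (hnc c h2 h3).elim

/-- data of an odd set `A` of value 5 (`w` = 1) or an even set of value 4 (`w` = 0) -/
structure IBlk (G : MG V D) (t : V → ℝ) (A : Finset V) (w : ℕ) : Prop where
  hA : A ⊆ G.vs
  par : A.card % 2 = w
  ne : (G.vs \ A).Nonempty
  val : G.val one1 t A = 4 + w

/-- the facts about subsets of the inner side `A` -/
theorem IBlk.fact (b : IBlk G t A w) (h : EK G 6 t fr F jm)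
    (c1 : ∀ v ∈ A, TOk.kap G pp {v} ∈ s1)
    (c4 : ∀ X ⊆ A, Even X.card → X.Nonempty → X ≠ A → G.val one1 t X = 4 → TOk.kap G pp X ∈ e4)
    (c5 : ∀ X ⊆ A, Odd X.card → X.card ≠ 1 → X ≠ A → G.val one1 t X = 5 →
      TOk.kap G pp X ∈ o5) : TOk.TFact G t A pp w (4 + w) s1 (Tpl.iE e4) (Tpl.iO o5) where
  one := c1
  ev := by
    intro X hX he hXn hXA
    obtain ⟨n, h1, h2⟩ := h.val_nat (hX.trans b.hA)
    have hXv : X ≠ G.vs := fun e => hXA (subset_antisymm hX (e ▸ b.hA))
    have h4 : 4 ≤ n := by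
      have := h.evn X (hX.trans b.hA) he hXn hXv
      rw [h1] at this
      exact_mod_cast this
    refine ⟨n, h1, ?_⟩
    unfold Tpl.iE
    by_cases h6 : TOk.kap G pp X ∈ e4
    · rw [if_pos h6]
      exact h4
    · rw [if_neg h6]
      by_contra h7
      refine h6 (c4 X hX he hXn hXA ?_)
      rw [Nat.even_iff] at he
      rw [h1]
      have : n = 4 := by omega
      rw [this]
      norm_num
  od := by
    intro X hX ho h1' hXA
    obtain ⟨n, h1, h2⟩ := h.val_nat (hX.trans b.hA)
    have h4 : 5 ≤ n := by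
      have := h.odd X (hX.trans b.hA) ho h1'
      rw [h1] at this
      exact_mod_cast this
    refine ⟨n, h1, ?_⟩
    unfold Tpl.iO
    by_cases h6 : TOk.kap G pp X ∈ o5
    · rw [if_pos h6]
      exact h4
    · rw [if_neg h6]
      by_contra h7
      refine h6 (c5 X hX ho h1' hXA ?_)
      rw [Nat.odd_iff] at ho
      rw [h1]
      have : n = 5 := by omega
      rw [this]
      norm_num
  all := by
    rw [b.val]
    push_cast
    ring
  par := b.par

/-- number of dropped exits -/
theorem drop_card {pp : Fin np → D} (hpb : ∀ i, pp i ∈ G.bd A) (hpi : Function.Injective pp) :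
    ((G.bd A).filter fun d => ∀ i, pp i ≠ d).card + np = (G.bd A).card := by
  have h1 : ((G.bd A).filter fun d => ¬ ∀ i, pp i ≠ d) = univ.image pp := by
    ext d
    rw [mem_filter, mem_image]
    constructor
    · rintro ⟨-, h2⟩
      push Not at h2
      obtain ⟨i, hi⟩ := h2
      exact ⟨i, mem_univ _, hi⟩
    · rintro ⟨i, -, rfl⟩
      exact ⟨hpb i, fun h2 => h2 i rfl⟩
  have h2 := card_filter_add_card_filter_not (s := G.bd A) (fun d => ∀ i, pp i ≠ d)
  have h3 : (univ.image pp).card = np := by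
    rw [card_image_of_injective _ hpi, card_univ, Fintype.card_fin]
  rw [h1, h3] at h2
  exact h2

/-- **inner gadget states**: all exits which are not ports are dropped, the star `Ts` -/
theorem X6.tplI [Infinite V] [Infinite D] (h : X6 G t fr F jm) (b : IBlk G t A w)
    {T : Tpl nv ne np} (hreg : T.Reg) (hT : T.Tab w (4 + w) s1 (Tpl.iE e4) (Tpl.iO o5))
    (hk : T.nT univ + w = np + 2) (hnv : nv % 2 = w)
    {pp : Fin np → D} (hpb : ∀ i, pp i ∈ G.bd A) (hpi : Function.Injective pp)
    (hsm : (fr ∩ A).card < fr.card ∨ nv < (G.vs \ A).card)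
    (h2 : Ts = ∅ ∨ Ts.card = 2) (hTs : ∀ v ∈ Ts, v ∈ jm ∨ ∃ d, Drop G A pp d ∧ G.pi d = v)
    (c1 : ∀ v ∈ A, TOk.kap G pp {v} ∈ s1)
    (c4 : ∀ X ⊆ A, Even X.card → X.Nonempty → X ≠ A → G.val one1 t X = 4 → TOk.kap G pp X ∈ e4)
    (c5 : ∀ X ⊆ A, Odd X.card → X.card ≠ 1 → X ≠ A → G.val one1 t X = 5 →
      TOk.kap G pp X ∈ o5) :
    (∃ M m, TSol G fr F jm A pp Ts M ∧ T.IsPat m (univ.filter fun i => pp i ∈ M)) ∨
      ∃ (p : V → ℝ) (c : Fin nv → ℝ), G.HPot one1 t F A p ∧
        (∀ d, Drop G A pp d → p (G.pi d) = 1) ∧ (∀ i, c (T.a i) + c (T.b i) = 0) ∧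
        (∀ v, T.tk v ≠ 0 → c v = 1) ∧ ∀ i, p (G.pi (pp i)) + c (T.pt i) = 0 := by
  have hE := h.toEK
  have hf := b.fact (pp := pp) hE c1 c4 c5
  have hev : Even (A.card + nv) := by
    have h1 := b.par
    rw [Nat.even_iff]
    omega
  have ht : ∑ v ∈ A, t v + (((G.bd A).filter fun d => ∀ i, pp i ≠ d).card : ℝ) +
      T.nT univ = 6 := by
    have h1 := b.val
    rw [val_one] at h1
    have h3 := drop_card hpb hpi
    have h3' : ((((G.bd A).filter fun d => ∀ i, pp i ≠ d).card : ℕ) : ℝ) + np =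
        ((G.bd A).card : ℕ) := by exact_mod_cast h3
    have e4 : (T.nT univ : ℝ) + w = np + 2 := by exact_mod_cast hk
    linarith
  have hsm' : (fr ∩ A).card < fr.card ∨ A.card + nv < G.vs.card := by
    rcases hsm with h1 | h1
    · exact Or.inl h1
    · right
      have := card_sdiff_add_card_eq_card b.hA
      omega
  exact h.tplG b.hA b.ne hreg hT hpb hpi hf hev ht h2 hTs hsm'

end MG

end RH
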