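import Pool.Agent.Lib.RH.ArcG
import Pool.Agent.Lib.RH.TplF

/-! # Template gadgets with fresh vertices (arc states)

`Tpl.Arc T Kf Js Fe Fp`: the vertices `Kf` of the table are fresh, the inner edges `Fe` and the ports
`Fp` are F-edges, `Js` are star vertices. `X6.tplA`: the state in which the arc of `A` between the
ports `Fp` is closed by the table gives a matching (`ASol`) or a half certificate. Tables `k1`, `k2`,
`lf`, `wf`. -/

set_option autoImplicit false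

namespace RH

open Finset Classical

variable {nv ne np : ℕ}

/-- the fresh part of a table -/
structure Tpl.Arc (T : Tpl nv ne np) (Kf Js : Finset (Fin nv)) (Fe : Finset (Fin ne))
    (Fp : Finset (Fin np)) : Prop where
  pe : ∀ i ∈ Fe, T.a i ∈ Kf ∧ T.b i ∈ Kf
  pk : ∀ i ∈ Fp, T.pt i ∈ Kf
  two : ∀ v ∈ Kf, (Fe.filter fun i => T.a i = v).card + (Fe.filter fun i => T.b i = v).card +
    (Fp.filter fun i => T.pt i = v).card = 2
  con : ∀ S : Finset (Fin nv), S ⊆ Kf → (∀ i ∈ Fe, (T.a i ∈ S ↔ T.b i ∈ S)) → S = ∅ ∨ S = Kf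
  js : Js ⊆ Kf
  one : ∀ v ∈ Js, T.tk v = 1
  zer : ∀ v ∈ Kf, v ∉ Js → T.tk v = 0

namespace MG

variable {V D : Type*} {G : MG V D} {t : V → ℝ} {fr fr1 : Finset V} {F PF : Finset D}
variable {jm A X Y Ts : Finset V} {w : ℕ}
variable {T : Tpl nv ne np} {pp : Fin np → D} {hh : Fin nv → V} {cc : Fin ne → Bool → D}
variable {n0 : ℕ} {s1 : Finset (Finset (Fin np))} {bE bO : Finset (Fin np) → ℕ}
variable {Kf Js : Finset (Fin nv)} {Fe m : Finset (Fin ne)} {Fp : Finset (Fin np)}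
variable {k k' : ℝ} {M : Finset D}

/-- closed except at the ports `Fp` -/
def Acl (G : MG V D) (F : Finset D) (pp : Fin np → D) (Fp : Finset (Fin np)) (X : Finset V) :
    Prop := ∀ d ∈ F, G.pi d ∈ X → G.pi (G.al d) ∈ X ∨ ∃ i ∈ Fp, pp i = d

/-- the darts of a set of inner edges -/
noncomputable def ccF (cc : Fin ne → Bool → D) (Fe : Finset (Fin ne)) : Finset D :=
  (Fe ×ˢ (univ : Finset Bool)).image (c1 cc)

theorem mem_ccF {d : D} : d ∈ ccF cc Fe ↔ ∃ i ∈ Fe, ∃ β, cc i β = d := by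
  unfold ccF
  rw [mem_image]
  constructor
  · rintro ⟨⟨i, β⟩, h1, rfl⟩
    exact ⟨i, (mem_product.1 h1).1, β, rfl⟩
  · rintro ⟨i, h1, β, rfl⟩
    exact ⟨(i, β), mem_product.2 ⟨h1, mem_univ _⟩, rfl⟩

theorem TOk.aok (kk : TOk G A T pp hh cc) (hArc : T.Arc Kf Js Fe Fp) (f1 : fr1 ⊆ fr)
    (f2 : fr1 ⊆ A) (f3 : Acl G F pp Fp fr1) (f4 : ∀ i ∈ Fp, pp i ∈ F)
    (f5 : ∀ i ∈ Fp, G.pi (pp i) ∈ fr1) :
    AOk G (tg G A T pp hh cc) fr F fr1 (Kf.image hh) (ccF cc Fe) (Fp.image pp) where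
  sub := f1
  inA := f2
  clo := fun d hd h1 => by
    rcases f3 d hd h1 with h2 | ⟨i, hi, h2⟩
    · exact Or.inl h2
    · exact Or.inr (mem_image.2 ⟨i, hi, h2⟩)
  PFP := fun d hd => by
    obtain ⟨i, -, rfl⟩ := mem_image.1 hd
    exact TOk.mem_P.2 ⟨i, rfl⟩
  PFF := fun d hd => by
    obtain ⟨i, hi, rfl⟩ := mem_image.1 hd
    exact f4 i hi
  PFr := fun d hd => by
    obtain ⟨i, hi, rfl⟩ := mem_image.1 hd
    exact f5 i hi
  PFk := fun d hd => by
    obtain ⟨i, hi, rfl⟩ := mem_image.1 hd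
    rw [kk.ga_p]
    exact mem_image_of_mem _ (hArc.pk i hi)
  KFK := fun v hv => by
    obtain ⟨i, -, rfl⟩ := mem_image.1 hv
    exact TOk.mem_K.2 ⟨i, rfl⟩
  EFE := fun d hd => by
    obtain ⟨i, -, β, rfl⟩ := mem_ccF.1 hd
    exact TOk.mem_E.2 ⟨i, β, rfl⟩
  EFb := fun d hd => by
    obtain ⟨i, hi, β, rfl⟩ := mem_ccF.1 hd
    rw [kk.be_c]
    exact mem_ccF.2 ⟨i, hi, _, rfl⟩
  EFk := fun d hd => by
    obtain ⟨i, hi, β, rfl⟩ := mem_ccF.1 hd
    rw [kk.pe_c]
    cases β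
    · exact mem_image_of_mem _ (hArc.pe i hi).1
    · exact mem_image_of_mem _ (hArc.pe i hi).2
  two := by
    intro v hv
    obtain ⟨x, hx, rfl⟩ := mem_image.1 hv
    rw [← hArc.two x hx]
    have e1 : (ccF cc Fe).filter (fun d => (tg G A T pp hh cc).pe d = hh x) =
        ((Fe.filter fun i => T.a i = x).image fun i => cc i false) ∪
          ((Fe.filter fun i => T.b i = x).image fun i => cc i true) := by
      ext d
      rw [mem_filter, mem_union, mem_image, mem_image, mem_ccF]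
      constructor
      · rintro ⟨⟨i, hi, β, rfl⟩, h2⟩
        rw [kk.pe_c] at h2
        cases β
        · exact Or.inl ⟨i, mem_filter.2 ⟨hi, kk.hinj h2⟩, rfl⟩
        · exact Or.inr ⟨i, mem_filter.2 ⟨hi, kk.hinj h2⟩, rfl⟩
      · rintro (⟨i, h1, rfl⟩ | ⟨i, h1, rfl⟩)
        · obtain ⟨h1, h2⟩ := mem_filter.1 h1
          exact ⟨⟨i, h1, false, rfl⟩, by rw [kk.pe_c, cond_false, h2]⟩
        · obtain ⟨h1, h2⟩ := mem_filter.1 h1
          exact ⟨⟨i, h1, true, rfl⟩, by rw [kk.pe_c, cond_true, h2]⟩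
    have e2 : (Fp.image pp).filter (fun d => (tg G A T pp hh cc).ga d = hh x) =
        (Fp.filter fun i => T.pt i = x).image pp := by
      ext d
      rw [mem_filter, mem_image, mem_image]
      constructor
      · rintro ⟨⟨i, hi, rfl⟩, h2⟩
        rw [kk.ga_p] at h2
        exact ⟨i, mem_filter.2 ⟨hi, kk.hinj h2⟩, rfl⟩
      · rintro ⟨i, h1, rfl⟩
        obtain ⟨h1, h2⟩ := mem_filter.1 h1
        exact ⟨⟨i, h1, rfl⟩, by rw [kk.ga_p, h2]⟩
    have i1 : Function.Injective fun i => cc i false := fun i j k => (kk.cinj _ _ _ _ k).1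
    have i2 : Function.Injective fun i => cc i true := fun i j k => (kk.cinj _ _ _ _ k).1
    rw [e1, e2, card_union_of_disjoint, card_image_of_injective _ i1,
      card_image_of_injective _ i2, card_image_of_injective _ kk.pinj]
    rw [disjoint_left]
    intro d k1 k2
    obtain ⟨i, -, rfl⟩ := mem_image.1 k1
    obtain ⟨j, -, k3⟩ := mem_image.1 k2
    exact absurd (kk.cinj _ _ _ _ k3).2 (by decide)
  con := by
    intro S hS hc
    obtain ⟨S0, h1, -⟩ := TOk.exS kk.hinj (hS.trans (image_subset_image (subset_univ Kf)))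
    rw [h1] at hS hc ⊢
    have h2 : S0 ⊆ Kf := by
      intro i hi
      exact (kk.mS Kf i).1 (hS (mem_image_of_mem _ hi))
    rcases hArc.con S0 h2 (fun i hi => by
      have a1 := hc (cc i false) (mem_ccF.2 ⟨i, hi, false, rfl⟩)
      have a2 := hc (cc i true) (mem_ccF.2 ⟨i, hi, true, rfl⟩)
      rw [kk.be_c, kk.pe_c, kk.pe_c, kk.mS, kk.mS] at a1 a2
      exact ⟨a1, a2⟩) with h3 | h3
    · left
      rw [h3, image_empty]
    · right
      rw [h3]

theorem TOk.jok (kk : TOk G A T pp hh cc) (hArc : T.Arc Kf Js Fe Fp) :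
    JOk (TOk.tkv T hh) (Kf.image hh) (Js.image hh) where
  sub := image_subset_image hArc.js
  one := fun v hv => by
    obtain ⟨i, hi, rfl⟩ := mem_image.1 hv
    rw [kk.tkv_h, hArc.one i hi]
    norm_num
  zer := fun v hv hn => by
    obtain ⟨i, hi, rfl⟩ := mem_image.1 hv
    rw [kk.tkv_h, hArc.zer i hi fun h1 => hn (mem_image_of_mem _ h1)]
    norm_num

/-- largest set without forbidden vertices, closed except at the ports `Fp` -/
theorem exists_keepA (G : MG V D) (A fr : Finset V) (F : Finset D) (pp : Fin np → D)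
    (Fp : Finset (Fin np)) (P : V → Prop) :
    ∃ fr1, fr1 ⊆ fr ∧ fr1 ⊆ A ∧ Acl G F pp Fp fr1 ∧ (∀ v ∈ fr1, P v) ∧
      ∀ X ⊆ fr, X ⊆ A → Acl G F pp Fp X → (∀ v ∈ X, P v) → X ⊆ fr1 := by
  refine ⟨fr.filter fun v => ∃ X, X ⊆ fr ∧ X ⊆ A ∧ Acl G F pp Fp X ∧ (∀ v ∈ X, P v) ∧ v ∈ X,
    filter_subset _ _, ?_, ?_, ?_, ?_⟩
  · intro v hv
    obtain ⟨-, X, -, h2, -, -, h5⟩ := mem_filter.1 hv
    exact h2 h5
  · intro d hd hp
    obtain ⟨-, X, h1, h2, h3, h4, h5⟩ := mem_filter.1 hp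
    rcases h3 d hd h5 with h6 | h6
    · exact Or.inl (mem_filter.2 ⟨h1 h6, X, h1, h2, h3, h4, h6⟩)
    · exact Or.inr h6
  · intro v hv
    obtain ⟨-, X, -, -, -, h4, h5⟩ := mem_filter.1 hv
    exact h4 v h5
  · intro X h1 h2 h3 h4 v hv
    exact mem_filter.2 ⟨h1 hv, X, h1, h2, h3, h4, hv⟩

/-- solution of an arc state: `Ts` = star vertices of the state inside `A` -/
structure ASol (G : MG V D) (fr : Finset V) (F : Finset D) (jm A : Finset V) (T : Tpl nv ne np)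
    (pp : Fin np → D) (Kf Js : Finset (Fin nv)) (Fp : Finset (Fin np)) (Ts : Finset V)
    (M : Finset D) (m : Finset (Fin ne)) : Prop where
  hm : G.HM A M
  ex : ∀ d ∈ G.bd A, d ∈ M → ∃ i, pp i = d
  st : ∀ X, G.Adm fr F X → X ⊆ A → (∀ d ∈ G.bd X, d ∈ M ∨ Drop G A pp d) →
    (∀ v ∈ X, v ∈ Ts ∨ (v ∉ jm ∧ ∀ d, Drop G A pp d → G.pi d ≠ v)) →
    Even X.card ∧ (Js = ∅ → ¬ (Ts.Nonempty ∧ Ts ⊆ X))
  ar : ∀ Y ⊆ fr, Y ⊆ A → Acl G F pp Fp Y → (∀ i ∈ Fp, G.pi (pp i) ∈ Y) →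
    (∀ d ∈ G.bd Y, (∀ i ∈ Fp, pp i ≠ d) → d ∈ M ∨ Drop G A pp d) →
    (∀ v ∈ Y, v ∈ Ts ∨ (v ∉ jm ∧ ∀ d, Drop G A pp d → G.pi d ≠ v)) →
    (∀ i, T.pt i ∈ Kf → i ∉ Fp → G.pi (pp i) ∈ Y ∨ pp i ∈ M) →
    (∀ i, ¬ (T.a i ∈ Kf ↔ T.b i ∈ Kf) → i ∈ m) →
    Even (Y.card + Kf.card) ∧ ¬ ((Ts.Nonempty ∨ Js.Nonempty) ∧ Ts ⊆ Y)

/-- **THE ENGINE FOR ARC STATES** -/
theorem X6.tplA [Infinite V] [Infinite D] (h : X6 G t fr F jm) (hA : A ⊆ G.vs)
    (hne : (G.vs \ A).Nonempty) {T : Tpl nv ne np} (hreg : T.Reg) (hT : T.Tab w n0 s1 bE bO)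
    (hArc : T.Arc Kf Js Fe Fp)
    {pp : Fin np → D} (hpb : ∀ i, pp i ∈ G.bd A) (hpi : Function.Injective pp)
    (hf : TOk.TFact G t A pp w n0 s1 bE bO) (hev : Even (A.card + nv))
    (ht : ∑ v ∈ A, t v + (((G.bd A).filter fun d => ∀ i, pp i ≠ d).card : ℝ) +
      T.nT univ = 6)
    (hpF : ∀ i ∈ Fp, pp i ∈ F)
    (hTs : ∀ v ∈ Ts, v ∈ jm ∨ ∃ d, Drop G A pp d ∧ G.pi d = v)
    (hTc : Ts.card + Js.card = 2 ∨ (Ts = ∅ ∧ Js = ∅))
    (hB : ∃ B, B ⊆ fr ∧ B ⊆ A ∧ Acl G F pp Fp B ∧ (∀ i ∈ Fp, G.pi (pp i) ∈ B) ∧ Ts ⊆ B ∧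
      ∀ v ∈ B, v ∈ Ts ∨ (v ∉ jm ∧ ∀ d, Drop G A pp d → G.pi d ≠ v))
    (kc : ∀ Y ⊆ fr, Y ⊆ A → Acl G F pp Fp Y → (∀ i ∈ Fp, G.pi (pp i) ∈ Y) →
      Even (Y.card + Kf.card) → ∃ n : ℕ, G.val one1 t Y = n ∧
        6 + 2 * T.nQ Kf (TOk.kap G pp Y) ≤ T.val Kf + n)
    (hsm : (fr ∩ A).card + Kf.card < fr.card ∨
      ((fr ∩ A).card + Kf.card ≤ fr.card ∧ A.card + nv < G.vs.card)) :
    (∃ M m, ASol G fr F jm A T pp Kf Js Fp Ts M m ∧
      T.IsPat m (univ.filter fun i => pp i ∈ M)) ∨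
      ∃ (p : V → ℝ) (c : Fin nv → ℝ), G.HPot one1 t F A p ∧
        (∀ d, Drop G A pp d → p (G.pi d) = 1) ∧
        (∀ i, i ∉ Fe → c (T.a i) + c (T.b i) = 0) ∧ (∀ i ∈ Fe, c (T.a i) + c (T.b i) ≤ 0) ∧
        (∀ v, T.tk v ≠ 0 → c v = 1) ∧ (∀ i, i ∉ Fp → p (G.pi (pp i)) + c (T.pt i) = 0) ∧
        ∀ i ∈ Fp, p (G.pi (pp i)) + c (T.pt i) ≤ 0 := by
  obtain ⟨hh, cc, kk, hcc, hhn⟩ := exists_tok hreg hA hpb hpi
  have hE := h.toEK
  have ok := kk.gok
  obtain ⟨fr1, f1, f2, f3, f4, f5⟩ := exists_keepA G A fr F pp Fp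
    fun v => v ∈ Ts ∨ (v ∉ jm ∧ ∀ d, Drop G A pp d → G.pi d ≠ v)
  obtain ⟨B, b1, b2, b3, b4, b5, b6⟩ := hB
  have hBf := f5 B b1 b2 b3 b6
  have a := kk.aok hArc f1 f2 f3 hpF fun i hi => hBf (b4 i hi)
  have j := kk.jok hArc
  have hKc : (tg G A T pp hh cc).K.card = nv := by
    change (univ.image hh).card = nv
    rw [card_image_of_injective _ kk.hinj, card_univ, Fintype.card_fin]
  have hKfc : (Kf.image hh).card = Kf.card := card_image_of_injective _ kk.hinj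
  have hJsc : (Js.image hh).card = Js.card := card_image_of_injective _ kk.hinj
  -- the star
  have hgj : gjm G (tg G A T pp hh cc) jm fr1 = Ts := by
    unfold gjm
    ext v
    rw [mem_filter]
    constructor
    · rintro ⟨h1, h2⟩
      rcases f4 v h1 with h3 | ⟨h3, h4⟩
      · exact h3
      · rcases h2 with h2 | ⟨d, hd⟩
        · exact absurd h2 h3
        · obtain ⟨h5, h6⟩ := mem_gdp_tg.1 hd
          exact absurd h6 (h4 d h5)
    · intro h1
      refine ⟨hBf (b5 h1), ?_⟩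
      rcases hTs v h1 with h2 | ⟨d, h2, h3⟩
      · exact Or.inl h2
      · exact Or.inr ⟨d, mem_gdp_tg.2 ⟨h2, h3⟩⟩
  have hTA : Ts ⊆ A := b5.trans b2
  have hjd : Disjoint Ts (Js.image hh) := by
    rw [disjoint_left]
    intro v h1 h2
    obtain ⟨i, -, rfl⟩ := mem_image.1 h2
    exact kk.hnew i (hTA h1)
  have hjN : jNew G (tg G A T pp hh cc) jm fr1 (Js.image hh) = Ts ∪ Js.image hh := by
    unfold jNew
    rw [hgj]
  have h2j : jNew G (tg G A T pp hh cc) jm fr1 (Js.image hh) = ∅ ∨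
      (jNew G (tg G A T pp hh cc) jm fr1 (Js.image hh)).card = 2 := by
    rw [hjN]
    rcases hTc with h1 | ⟨h1, h2⟩
    · right
      rw [card_union_of_disjoint hjd, hJsc]
      exact h1
    · left
      rw [h1, h2, image_empty, union_empty]
  have hodd : ∀ X ⊆ A, Odd X.card → X.card ≠ 1 → 5 ≤ G.val one1 t X := fun X hX =>
    hE.odd X (hX.trans kk.hA)
  have hevn : ∀ X ⊆ A, Even X.card → X.Nonempty → 4 ≤ G.val one1 t X := by
    intro X hX he hXn
    refine hE.evn X (hX.trans kk.hA) he hXn fun e => ?_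
    obtain ⟨v, hv⟩ := hne
    exact (mem_sdiff.1 hv).2 (hX (e ▸ (mem_sdiff.1 hv).1))
  have e1 : (G.bd (tg G A T pp hh cc).A).filter (fun d => d ∉ (tg G A T pp hh cc).P) =
      (G.bd A).filter fun d => ∀ i, pp i ≠ d := by
    refine filter_congr fun d _ => ?_
    rw [TOk.mem_P, not_exists]
  have e2 : ∑ v ∈ (tg G A T pp hh cc).K, TOk.tkv T hh v = (T.nT univ : ℝ) := by
    change ∑ v ∈ univ.image hh, _ = _
    rw [sum_image fun i _ j _ hij => kk.hinj hij]
    unfold Tpl.nT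
    push_cast
    exact sum_congr rfl fun i _ => kk.tkv_h i
  have hPF : ∀ {Y : Finset V}, G.AAdm F (Fp.image pp) fr1 Y → Acl G F pp Fp Y := by
    intro Y hY d hd h1
    rcases hY.clo d hd h1 with h2 | h2
    · exact Or.inl h2
    · obtain ⟨i, hi, h3⟩ := mem_image.1 h2
      exact Or.inr ⟨i, hi, h3⟩
  have hst := hE.gadA ok a j (k' := 6) (by rw [hKc]; exact hev) (fun v _ => TOk.tkv_nn v) kk.kd
    h2j (by rw [e1, e2]; exact ht) (kk.ko hT hf hE.wt hodd hev) (kk.ke hT hf hE.wt hevn)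
    (fun Y hY h1 h2 => by
      rw [hKfc] at h2
      obtain ⟨n, h3, h4⟩ := kc Y (hY.sub.trans f1) (hY.sub.trans f2) (hPF hY)
        (fun i hi => h1 _ (mem_image_of_mem _ hi)) h2
      rw [h3, kk.gvkS, kk.gpwS]
      have h5 : (6 : ℝ) + 2 * T.nQ Kf (TOk.kap G pp Y) ≤ T.val Kf + n := by exact_mod_cast h4
      linarith)
  have hfc : (fr1 ∪ Kf.image hh).card ≤ (fr ∩ A).card + Kf.card := by
    have h1 := card_union_le fr1 (Kf.image hh)
    have h2 : fr1.card ≤ (fr ∩ A).card := card_le_card (subset_inter f1 f2)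
    omega
  have hsm' : (fr1 ∪ Kf.image hh).card < fr.card ∨ ((fr1 ∪ Kf.image hh).card = fr.card ∧
      (MG.gad G (tg G A T pp hh cc) ok).vs.card < G.vs.card) := by
    rcases hsm with h3 | ⟨h3, h4⟩
    · left
      omega
    · by_cases h5 : (fr1 ∪ Kf.image hh).card = fr.card
      · right
        refine ⟨h5, ?_⟩
        change (A ∪ (tg G A T pp hh cc).K).card < _
        have h6 := card_union_le A (tg G A T pp hh cc).K
        omega
      · left
        omega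
  rcases h.ih _ _ _ _ _ hsm' hst with ⟨M, hM⟩ | ⟨p, hp⟩
  · left
    refine ⟨G.resM A M, univ.filter fun i => cc i false ∈ M, ⟨gad_HM ok hM.pm, ?_, ?_, ?_⟩, ?_⟩
    · intro d hd hdM
      exact TOk.mem_P.1 (gad_exit ok hM.pm hd (mem_resM.1 hdM).1)
    · intro X hX hXA hcl hsp
      have hXf := f5 X hX.sub hXA (fun d hd h1 => Or.inl (hX.clo d hd h1)) hsp
      have h1 := a.st1 ok hE.fresh hM hX hXf
        (fun d hd h2 => by
          obtain ⟨i, hi, rfl⟩ := mem_image.1 hd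
          exact (mem_bd.1 (hpb i)).2.2 (hXA (hX.clo _ (hpF i hi) h2)))
        (fun d hd => by
          rcases hcl d hd with h2 | h2
          · exact Or.inl (mem_resM.1 h2).1
          · refine Or.inr ⟨(mem_bd.1 h2.1).2.2, fun h3 => ?_⟩
            obtain ⟨i, hi⟩ := TOk.mem_P.1 h3
            exact h2.2 i hi)
      refine ⟨h1.1, fun hJ h2 => h1.2 ?_⟩
      rw [hjN, hJ, image_empty, union_empty]
      exact h2
    · intro Y hYf hYA hYc hYp hcl hsp hP hEe
      have hY1 := f5 Y hYf hYA hYc hsp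
      have h1 := a.st2 ok hE.fresh hM (Y := Y) ⟨hY1, fun d hd h2 => by
          rcases hYc d hd h2 with h3 | ⟨i, hi, h3⟩
          · exact Or.inl h3
          · exact Or.inr (mem_image.2 ⟨i, hi, h3⟩)⟩
        (fun d hd => by
          obtain ⟨i, hi, rfl⟩ := mem_image.1 hd
          exact hYp i hi)
        (fun d hd h2 => by
          rcases hcl d hd (fun i hi h3 => h2 (mem_image.2 ⟨i, hi, h3⟩)) with h3 | h3
          · exact Or.inl (mem_resM.1 h3).1
          · refine Or.inr ⟨(mem_bd.1 h3.1).2.2, fun h4 => ?_⟩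
            obtain ⟨i, hi⟩ := TOk.mem_P.1 h4
            exact h3.2 i hi)
        (fun p hp h2 h3 => by
          obtain ⟨i, rfl⟩ := TOk.mem_P.1 hp
          rw [kk.ga_p, kk.mS] at h2
          have h4 : i ∉ Fp := fun h5 => h3 (hYp i h5)
          rcases hP i h2 h4 with h5 | h5
          · exact absurd h5 h3
          · exact (mem_resM.1 h5).1)
        (fun d hd h2 h3 => by
          obtain ⟨i, β, rfl⟩ := TOk.mem_E.1 hd
          rw [kk.be_c, kk.pe_c, kk.mS] at h3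
          rw [kk.pe_c, kk.mS] at h2
          have h4 : i ∈ univ.filter fun i => cc i false ∈ M := hEe i (by
            cases β
            · simp only [cond_false, Bool.not_false, cond_true] at h2 h3
              exact fun h5 => h3 (h5.1 h2)
            · simp only [cond_false, Bool.not_true, cond_true] at h2 h3
              exact fun h5 => h3 (h5.2 h2))
          have h5 := (mem_filter.1 h4).2
          cases β
          · exact h5
          · have h6 := hM.pm.closed _ h5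
            change gal G (tg G A T pp hh cc) (cc i false) ∈ M at h6
            rw [GOk.galE (TOk.mem_E.2 ⟨i, false, rfl⟩), kk.be_c] at h6
            exact h6)
      rw [hKfc, hjN] at h1
      refine ⟨h1.1, fun h2 => h1.2 ⟨?_, ?_⟩⟩
      · rcases h2.1 with h3 | h3
        · exact h3.mono subset_union_left
        · exact (h3.image hh).mono subset_union_right
      · exact union_subset_union h2.2 (image_subset_image hArc.js)
    · have h1 := kk.pat hM.pm
      have h2 : (univ.filter fun i => pp i ∈ G.resM A M) = univ.filter fun i => pp i ∈ M := by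
        refine filter_congr fun i _ => ?_
        rw [mem_resM]
        constructor
        · exact fun k2 => k2.1
        · intro k2
          have k3 := mem_bd.1 (kk.p_bd i)
          exact ⟨k2, k3.1, k3.2.1⟩
      rw [h2]
      exact h1
  · right
    obtain ⟨q1, q2, q3, q4, q5, q6, q7⟩ := a.hpot ok hE hp
    refine ⟨p, fun i => p (hh i), q1, fun d hd => q2 d hd.1 fun h1 => ?_, fun i hi => ?_,
      fun i hi => ?_, fun v hv => ?_, fun i hi => ?_, fun i hi => ?_⟩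
    · obtain ⟨i, h2⟩ := TOk.mem_P.1 h1
      exact hd.2 i h2
    · have h1 := q6 (cc i false) (TOk.mem_E.2 ⟨i, false, rfl⟩) fun h2 => by
        obtain ⟨i', h3, β, h4⟩ := mem_ccF.1 h2
        rw [(kk.cinj _ _ _ _ h4).1] at h3
        exact hi h3
      rw [kk.be_c, kk.pe_c, kk.pe_c] at h1
      exact h1
    · have h1 := q7 (cc i false) (mem_ccF.2 ⟨i, hi, false, rfl⟩)
      rw [kk.be_c, kk.pe_c, kk.pe_c] at h1
      exact h1
    · refine q5 (hh v) (TOk.mem_K.2 ⟨v, rfl⟩) ?_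
      rw [kk.tkv_h]
      exact_mod_cast hv
    · have h1 := q3 (pp i) (TOk.mem_P.2 ⟨i, rfl⟩) fun h2 => by
        obtain ⟨i', h3, h4⟩ := mem_image.1 h2
        rw [hpi h4] at h3
        exact hi h3
      rw [kk.ga_p] at h1
      exact h1
    · have h1 := q4 (pp i) (mem_image_of_mem _ hi)
      rw [kk.ga_p] at h1
      exact h1

end MG

end RH
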