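import Pool.Agent.Lib.RH.CE6Iv
import Pool.Agent.Lib.RH.TplA
import Pool.Agent.Lib.RH.Tpl4
import Pool.Agent.Lib.RH.Even2
import Pool.Agent.Lib.RH.SFcut

/-! # Row f5: maximal even sets inside a blocker (CE6 S1, 1.6 (iv); helper35, section 8.5)

`Z` even of value 4 in `W`, maximal, the ends of the exits `i`, `j` in `Z`. If F-darts cross `Z`, they
are the two darts `z1`, `z2` from `Z` to `W - Z`, and they are in one circuit `R`. Exactly one of them
used: `R` is in no closed union (parity). Both unused: the instance `k1` (three new fresh vertices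
close the arc, star at the first two) gives a half of `Z` with `R` linked. -/

set_option autoImplicit false

namespace RH

open Finset

namespace Tpl

/-- `a1(0) - a2 - a3(1) - beta`, star `a1`, `a2`; `a1`, `a2`, `a3` fresh -/
def kf1 : Tpl 4 3 2 where
  a := ![0, 1, 2]
  b := ![1, 2, 3]
  pt := ![0, 2]
  tk := ![1, 1, 0, 2]

theorem kf1_reg : kf1.Reg := by decide

theorem kf1_tab : kf1.Tab 0 4 (one1S 2) (iE univ) (iO univ) where
  t0 := by decide +kernel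
  t1 := by decide +kernel
  t2 := by decide +kernel
  t3 := by decide +kernel
  t4 := by decide +kernel

theorem kf1_pat : ∀ m κ, kf1.IsPat m κ → κ = ∅ ∧ 2 ∈ m := by decide +kernel

theorem kf1_arc : kf1.Arc {0, 1, 2} {0, 1} {0, 1} {0, 1} where
  pe := by decide
  pk := by decide
  two := by decide
  con := by decide
  js := by decide
  one := by decide
  zer := by decide

end Tpl

open Classical

namespace MG

variable {V D : Type*} {G : MG V D} {t : V → ℝ} {fr : Finset V} {F M M1 M2 : Finset D}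
variable {jm A W X Y Z Ts W1 W2 : Finset V} {e i j k z1 z2 : D}

/-- union of two halves, the closed unions can be split -/
theorem GHalf.unionX {y : D → ℝ} (h1 : G.GHalf y fr F jm W1 M1) (h2 : G.GHalf y fr F jm W2 M2)
    (hdj : Disjoint W1 W2)
    (fit : ∀ d ∈ G.ds, G.pi d ∈ W1 → G.pi (G.al d) ∈ W2 → (d ∈ M1 ↔ G.al d ∈ M2))
    (hj : jm.Nonempty → ¬ jm ⊆ W1 ∪ W2)
    (hl : ∀ X, G.Adm fr F X → X ⊆ W1 ∪ W2 → (∀ d ∈ G.bd X, d ∈ M1 ∪ M2) →
      G.Adm fr F (X ∩ W1) ∧ G.Adm fr F (X ∩ W2) ∧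
      ∀ d ∈ G.ds, d ∉ M1 → G.pi d ∈ X → G.pi d ∈ W1 → G.pi (G.al d) ∈ X →
        G.pi (G.al d) ∈ W2 → False) :
    G.GHalf y fr F jm (W1 ∪ W2) (M1 ∪ M2) := by
  have hn1 : ∀ {d}, G.pi d ∈ W1 → d ∈ M1 ∪ M2 → d ∈ M1 := by
    intro d hd hm
    rcases mem_union.1 hm with h3 | h3
    · exact h3
    · exact absurd (h2.hm.sub d h3).2 fun h4 => disjoint_left.1 hdj hd h4
  have hn2 : ∀ {d}, G.pi d ∈ W2 → d ∈ M1 ∪ M2 → d ∈ M2 := by
    intro d hd hm
    rcases mem_union.1 hm with h3 | h3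
    · exact absurd (h1.hm.sub d h3).2 fun h4 => disjoint_left.1 hdj h4 hd
    · exact h3
  refine ⟨⟨?_, ?_, ?_⟩, ?_, ?_⟩
  · intro d hd
    rcases mem_union.1 hd with h3 | h3
    · exact ⟨(h1.hm.sub d h3).1, mem_union_left _ (h1.hm.sub d h3).2⟩
    · exact ⟨(h2.hm.sub d h3).1, mem_union_right _ (h2.hm.sub d h3).2⟩
  · intro d hd hdW
    rcases mem_union.1 hd with h3 | h3
    · obtain ⟨h4, h5⟩ := h1.hm.sub d h3
      rcases mem_union.1 hdW with h6 | h6
      · exact mem_union_left _ (h1.hm.clo d h3 h6)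
      · exact mem_union_right _ ((fit d h4 h5 h6).1 h3)
    · obtain ⟨h4, h5⟩ := h2.hm.sub d h3
      rcases mem_union.1 hdW with h6 | h6
      · refine mem_union_left _ ((fit (G.al d) (G.al_mem d h4) h6 ?_).2 ?_)
        · rw [G.al_al d h4]
          exact h5
        · rw [G.al_al d h4]
          exact h3
      · exact mem_union_right _ (h2.hm.clo d h3 h6)
  · intro v hv
    rcases mem_union.1 hv with h3 | h3
    · rw [← h1.hm.one v h3]
      congr 1
      ext d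
      rw [mem_filter, mem_filter]
      constructor
      · rintro ⟨h4, h5⟩
        exact ⟨hn1 (h5 ▸ h3) h4, h5⟩
      · rintro ⟨h4, h5⟩
        exact ⟨mem_union_left _ h4, h5⟩
    · rw [← h2.hm.one v h3]
      congr 1
      ext d
      rw [mem_filter, mem_filter]
      constructor
      · rintro ⟨h4, h5⟩
        exact ⟨hn2 (h5 ▸ h3) h4, h5⟩
      · rintro ⟨h4, h5⟩
        exact ⟨mem_union_right _ h4, h5⟩
  · intro d hd
    rcases mem_union.1 hd with h3 | h3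
    · exact h1.pos d h3
    · exact h2.pos d h3
  · intro X hX hXW hcl
    refine ⟨?_, fun h3 => hj h3.1 (h3.2.trans hXW)⟩
    obtain ⟨a1, a2, hl⟩ := hl X hX hXW hcl
    have c1 : ∀ d ∈ G.bd (X ∩ W1), d ∈ M1 := by
      intro d hd
      obtain ⟨k1, k2, k3⟩ := mem_bd.1 hd
      obtain ⟨k4, k5⟩ := mem_inter.1 k2
      by_contra hn
      by_cases k6 : G.pi (G.al d) ∈ X
      · rcases mem_union.1 (hXW k6) with k7 | k7
        · exact k3 (mem_inter.2 ⟨k6, k7⟩)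
        · exact hl d k1 hn k4 k5 k6 k7
      · exact hn (hn1 k5 (hcl d (mem_bd.2 ⟨k1, k4, k6⟩)))
    have c2 : ∀ d ∈ G.bd (X ∩ W2), d ∈ M2 := by
      intro d hd
      obtain ⟨k1, k2, k3⟩ := mem_bd.1 hd
      obtain ⟨k4, k5⟩ := mem_inter.1 k2
      by_contra hn
      by_cases k6 : G.pi (G.al d) ∈ X
      · rcases mem_union.1 (hXW k6) with k7 | k7
        · refine hl (G.al d) (G.al_mem d k1) (fun h3 => hn ?_) k6 k7 (by
            rw [G.al_al d k1]; exact k4) (by rw [G.al_al d k1]; exact k5)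
          have := (fit (G.al d) (G.al_mem d k1) k7 (by rw [G.al_al d k1]; exact k5)).1 h3
          rwa [G.al_al d k1] at this
        · exact k3 (mem_inter.2 ⟨k6, k7⟩)
      · exact hn (hn2 k5 (hcl d (mem_bd.2 ⟨k1, k4, k6⟩)))
    have e1 := (h1.ok _ a1 inter_subset_right c1).1
    have e2 := (h2.ok _ a2 inter_subset_right c2).1
    have e3 : X = (X ∩ W1) ∪ (X ∩ W2) := by
      rw [← inter_union_distrib_left, inter_eq_left.2 hXW]
    rw [e3, card_union_of_disjoint (hdj.mono inter_subset_right inter_subset_right)]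
    exact e1.add e2

namespace ZD

variable (q : ZD G fr ∅ jm A e i j k Z z1 z2)
include q

/-- the F-darts which cross `Z` -/
theorem crossF (hF : G.FrS one1 fr F jm) (FA : ∀ d ∈ F, G.pi d ∈ A → G.pi (G.al d) ∈ A) {d : D}
    (hd : d ∈ F) (h1 : G.pi d ∈ Z) (h2 : G.pi (G.al d) ∉ Z) : d = z1 ∨ d = z2 := by
  have hdd := hF.Fsub hd
  refine q.cross hdd h1 (mem_sdiff.2 ⟨mem_sdiff.2 ⟨G.pi_mem _ (G.al_mem _ hdd), fun h3 => ?_⟩,
    h2⟩)
  have h4 := FA _ (hF.Fal d hd) h3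
  rw [G.al_al d hdd] at h4
  exact (mem_sdiff.1 (q.hZ h1)).2 h4

/-- both or none -/
theorem both (hF : G.FrS one1 fr F jm) (FA : ∀ d ∈ F, G.pi d ∈ A → G.pi (G.al d) ∈ A)
    (h1 : z1 ∈ F) : z2 ∈ F := by
  have h2 := hF.even_cross Z
  by_contra h3
  have h4 : (F.filter fun d => G.pi d ∈ Z ∧ G.pi (G.al d) ∉ Z) = {z1} := by
    ext d
    rw [mem_filter, mem_singleton]
    constructor
    · rintro ⟨k1, k2, k3⟩
      rcases q.crossF hF FA k1 k2 k3 with k4 | k4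
      · exact k4
      · exact absurd (k4 ▸ k1) h3
    · rintro rfl
      exact ⟨h1, (mem_bd.1 q.m1).2.1, (mem_bd.1 q.m1).2.2⟩
  rw [h4, card_singleton] at h2
  exact absurd h2 (by decide)

/-- the same circuit -/
theorem same (hF : G.FrS one1 fr F jm) (FA : ∀ d ∈ F, G.pi d ∈ A → G.pi (G.al d) ∈ A)
    (h1 : z1 ∈ F) (hX : G.Adm fr F X) (h2 : G.pi z1 ∈ X) : G.pi z2 ∈ X := by
  by_contra h3
  have h4 := hF.even_cross (X ∩ Z)
  have h5 : (F.filter fun d => G.pi d ∈ X ∩ Z ∧ G.pi (G.al d) ∉ X ∩ Z) = {z1} := by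
    ext d
    rw [mem_filter, mem_singleton]
    constructor
    · rintro ⟨k1, k2, k3⟩
      obtain ⟨k5, k6⟩ := mem_inter.1 k2
      have k7 : G.pi (G.al d) ∉ Z := fun k8 => k3 (mem_inter.2 ⟨hX.clo d k1 k5, k8⟩)
      rcases q.crossF hF FA k1 k6 k7 with k4 | k4
      · exact k4
      · exact absurd (k4 ▸ k5) h3
    · rintro rfl
      exact ⟨h1, mem_inter.2 ⟨h2, (mem_bd.1 q.m1).2.1⟩, fun k8 =>
        (mem_bd.1 q.m1).2.2 (mem_inter.1 k8).2⟩
  rw [h5, card_singleton] at h4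
  exact absurd h4 (by decide)

/-- unions without the circuit can be split -/
theorem splitX (hF : G.FrS one1 fr F jm) (FA : ∀ d ∈ F, G.pi d ∈ A → G.pi (G.al d) ∈ A)
    (f1 : z1 ∈ F) (f2 : z2 ∈ F)
    (hX : G.Adm fr F X) (hXW : X ⊆ Z ∪ (G.vs \ A) \ Z) (h1 : G.pi z1 ∉ X) (h2 : G.pi z2 ∉ X) :
    G.Adm fr F (X ∩ Z) ∧ G.Adm fr F (X ∩ ((G.vs \ A) \ Z)) ∧
      ∀ d ∈ G.ds, d ∉ M1 → G.pi d ∈ X → G.pi d ∈ Z → G.pi (G.al d) ∈ X →
        G.pi (G.al d) ∈ (G.vs \ A) \ Z → False := by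
  have c1 : ∀ d ∈ F, G.pi d ∈ X → G.pi d ∈ Z → G.pi (G.al d) ∈ Z := by
    intro d hd k1 k2
    by_contra k3
    rcases q.crossF hF FA hd k2 k3 with rfl | rfl
    · exact h1 k1
    · exact h2 k1
  refine ⟨⟨inter_subset_left.trans hX.sub, fun d hd k1 => ?_⟩,
    ⟨inter_subset_left.trans hX.sub, fun d hd k1 => ?_⟩, ?_⟩
  · obtain ⟨k2, k3⟩ := mem_inter.1 k1
    exact mem_inter.2 ⟨hX.clo d hd k2, c1 d hd k2 k3⟩
  · obtain ⟨k2, k3⟩ := mem_inter.1 k1
    have k4 := hX.clo d hd k2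
    refine mem_inter.2 ⟨k4, ?_⟩
    rcases mem_union.1 (hXW k4) with k5 | k5
    · exfalso
      have k6 := c1 _ (hF.Fal d hd) k4 k5
      rw [G.al_al d (hF.Fsub hd)] at k6
      exact (mem_sdiff.1 k3).2 k6
    · exact k5
  · intro d hd _ k1 k2 k3 k4
    rcases q.cross hd k2 k4 with rfl | rfl
    · exact h1 k1
    · exact h2 k1

/-- the part in `Z` of a closed union with the circuit: the J-darts are used -/
theorem partJ (f1 : z1 ∈ F) (f2 : z2 ∈ F) (h2 : G.HM ((G.vs \ A) \ Z) M2)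
    (hXW : X ⊆ Z ∪ (G.vs \ A) \ Z) (hcl : ∀ d ∈ G.bd X, d ∈ M1 ∪ M2) {d : D}
    (hd : d ∈ G.bd (X ∩ Z)) (h3 : d ∉ F) : d ∈ M1 := by
  obtain ⟨k1, k2, k3⟩ := mem_bd.1 hd
  obtain ⟨k4, k5⟩ := mem_inter.1 k2
  have k6 : G.pi (G.al d) ∉ X := by
    intro k6
    rcases mem_union.1 (hXW k6) with k7 | k7
    · exact k3 (mem_inter.2 ⟨k6, k7⟩)
    · rcases q.cross k1 k5 k7 with rfl | rfl
      · exact h3 f1
      · exact h3 f2
  rcases mem_union.1 (hcl d (mem_bd.2 ⟨k1, k4, k6⟩)) with k7 | k7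
  · exact k7
  · exact absurd k5 (mem_sdiff.1 (h2.sub d k7).2).2

/-- exactly one of `z1`, `z2` is used: the circuit is in no closed union -/
theorem parT (hF : G.FrS one1 fr F jm) (FA : ∀ d ∈ F, G.pi d ∈ A → G.pi (G.al d) ∈ A)
    (f1 : z1 ∈ F) (f2 : z2 ∈ F) (h1 : G.HM Z M1)
    (h2 : G.HM ((G.vs \ A) \ Z) M2) (u1 : z1 ∈ M1) (u2 : z2 ∉ M1)
    (hX : G.Adm fr F X) (hXW : X ⊆ Z ∪ (G.vs \ A) \ Z) (hcl : ∀ d ∈ G.bd X, d ∈ M1 ∪ M2)
    (h3 : G.pi z1 ∈ X) : False := by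
  have h4 := q.same hF FA f1 hX h3
  have jd : Disjoint jm Z := disjoint_left.2 fun v hv hv' =>
    (mem_sdiff.1 (q.hZ hv')).2 (q.jA hv)
  have p1 := h1.par (inter_subset_right : X ∩ Z ⊆ Z)
  have p2 := hF.nj_par (A := X ∩ Z) (inter_subset_left.trans hX.sub)
  have e0 : X ∩ Z ∩ jm = ∅ := by
    rw [← disjoint_iff_inter_eq_empty]
    exact (jd.mono_right inter_subset_right).symm
  rw [e0, card_empty] at p2
  unfold nj at p2
  have m1 : z1 ∈ G.bd (X ∩ Z) := by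
    obtain ⟨k1, k2, k3⟩ := mem_bd.1 q.m1
    exact mem_bd.2 ⟨k1, mem_inter.2 ⟨h3, k2⟩, fun k4 => k3 (mem_inter.1 k4).2⟩
  have e1 : (G.bd (X ∩ Z)).filter (fun d => d ∈ M1) =
      insert z1 ((G.bd (X ∩ Z)).filter fun d => d ∉ F) := by
    ext d
    rw [mem_filter, mem_insert, mem_filter]
    constructor
    · rintro ⟨k1, k2⟩
      by_cases k3 : d ∈ F
      · left
        obtain ⟨k4, k5, k6⟩ := mem_bd.1 k1
        obtain ⟨k7, k8⟩ := mem_inter.1 k5
        have k9 : G.pi (G.al d) ∉ Z := fun k10 => k6 (mem_inter.2 ⟨hX.clo d k3 k7, k10⟩)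
        rcases q.crossF hF FA k3 k8 k9 with k10 | k10
        · exact k10
        · exact absurd (k10 ▸ k2) u2
      · exact Or.inr ⟨k1, k3⟩
    · rintro (rfl | ⟨k1, k2⟩)
      · exact ⟨m1, u1⟩
      · exact ⟨k1, q.partJ f1 f2 h2 hXW hcl k1 k2⟩
  have k0 : z1 ∉ (G.bd (X ∩ Z)).filter fun d => d ∉ F := fun k1 => by
    exact (mem_filter.1 k1).2 f1
  rw [e1, card_insert_of_notMem k0] at p1
  omega

/-- the pattern `{e}` of the union -/
theorem sgU (h1 : G.HM Z M1) (p1 : ∀ d ∈ G.bd Z, d ∉ M1)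
    (h2 : G.HM ((G.vs \ A) \ Z) M2)
    (p2 : ∀ d ∈ G.bd ((G.vs \ A) \ Z), d ∈ M2 ↔ d = G.al e) :
    G.Sg (G.vs \ A) (M1 ∪ M2) (G.al e) := by
  refine ⟨bd_al q.hA q.me, fun d hd => ?_⟩
  rw [mem_union]
  by_cases hdZ : G.pi d ∈ Z
  · have hdn : d ≠ G.al e := fun h3 => q.ce (h3 ▸ hdZ)
    constructor
    · rintro (h3 | h3)
      · exact absurd h3 (p1 d (mem_bd.2 ⟨(mem_bd.1 hd).1, hdZ, fun h4 =>
          (mem_bd.1 hd).2.2 (q.hZ h4)⟩))
      · exact absurd hdZ (mem_sdiff.1 (h2.sub d h3).2).2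
    · intro h3
      exact absurd h3 hdn
  · have hdb : d ∈ G.bd ((G.vs \ A) \ Z) := mem_bd.2 ⟨(mem_bd.1 hd).1,
      mem_sdiff.2 ⟨(mem_bd.1 hd).2.1, hdZ⟩, fun h4 => (mem_bd.1 hd).2.2 (mem_sdiff.1 h4).1⟩
    rw [p2 d hdb]
    constructor
    · rintro (h3 | h3)
      · exact absurd (h1.sub d h3).2 hdZ
      · exact h3
    · exact fun h3 => Or.inr h3

/-- the pattern without `j` of the union -/
theorem trU (h1 : G.HM Z M1) (p1 : ∀ d ∈ G.bd Z, d ∈ M1 ↔ d = z1 ∨ d = G.al i)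
    (h2 : G.HM ((G.vs \ A) \ Z) M2)
    (p2 : ∀ d ∈ G.bd ((G.vs \ A) \ Z), d ∈ M2 ↔ d = G.al e ∨ d = G.al k ∨ d = G.al z1) :
    G.Tr (G.vs \ A) (M1 ∪ M2) (G.al j) := by
  obtain ⟨n1, n2, n3, n4, n5, n6⟩ := q.ne
  refine ⟨bd_al q.hA q.mj, fun d hd => ?_⟩
  rw [mem_union]
  by_cases hdZ : G.pi d ∈ Z
  · have hdb : d ∈ G.bd Z := mem_bd.2 ⟨(mem_bd.1 hd).1, hdZ, fun h4 =>
      (mem_bd.1 hd).2.2 (q.hZ h4)⟩
    have hd2 : d ∉ M2 := fun h3 => (mem_sdiff.1 (h2.sub d h3).2).2 hdZ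
    rcases q.exZ hd hdZ with rfl | rfl
    · exact ⟨fun _ => al_ne q.mi q.mj n4, fun _ => Or.inl ((p1 _ hdb).2 (Or.inr rfl))⟩
    · constructor
      · rintro (h3 | h3)
        · rcases (p1 _ hdb).1 h3 with h4 | h4
          · exact absurd h4.symm q.ne1.2
          · exact absurd h4 (al_ne q.mj q.mi n4.symm)
        · exact absurd h3 hd2
      · intro h3
        exact absurd rfl h3
  · have hdb : d ∈ G.bd ((G.vs \ A) \ Z) := mem_bd.2 ⟨(mem_bd.1 hd).1,
      mem_sdiff.2 ⟨(mem_bd.1 hd).2.1, hdZ⟩, fun h4 => (mem_bd.1 hd).2.2 (mem_sdiff.1 h4).1⟩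
    rcases q.exW hd hdZ with rfl | rfl
    · exact ⟨fun _ => al_ne q.me q.mj n2, fun _ => Or.inr ((p2 _ hdb).2 (Or.inl rfl))⟩
    · exact ⟨fun _ => al_ne q.xk q.mj n6.symm,
        fun _ => Or.inr ((p2 _ hdb).2 (Or.inr (Or.inl rfl)))⟩

/-- **the triple without `j`**, `Z` crossed by F-darts -/
theorem tinF (hF : G.FrS one1 fr F jm) (FA : ∀ d ∈ F, G.pi d ∈ A → G.pi (G.al d) ∈ A)
    (f1 : z1 ∈ F) (f2 : z2 ∈ F) (h1 : G.GHalf one1 fr F jm Z M1)
    (p1 : ∀ d ∈ G.bd Z, d ∈ M1 ↔ d = z1 ∨ d = G.al i)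
    (h2 : G.GHalf one1 fr F jm ((G.vs \ A) \ Z) M2)
    (p2 : ∀ d ∈ G.bd ((G.vs \ A) \ Z), d ∈ M2 ↔ d = G.al e ∨ d = G.al k ∨ d = G.al z1) :
    G.TIn fr F jm A j := by
  have z2n : z2 ∉ M1 := fun h3 => by
    rcases (p1 _ q.m2).1 h3 with h4 | h4
    · exact q.n12 h4.symm
    · exact q.symm.ne1.1 h4
  have z1m : z1 ∈ M1 := (p1 _ q.m1).2 (Or.inl rfl)
  have hu := GHalf.unionX h1 h2 (disjoint_sdiff : Disjoint Z ((G.vs \ A) \ Z)) (by
    intro d hd d1 d2
    rcases q.cross hd d1 d2 with rfl | rfl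
    · exact ⟨fun _ => (p2 _ q.bW1).2 (Or.inr (Or.inr rfl)), fun _ => z1m⟩
    · constructor
      · intro h3
        exact absurd h3 z2n
      · intro h3
        exfalso
        rcases (p2 _ q.symm.bW1).1 h3 with h4 | h4 | h4
        · exact q.symm.al1_ne' q.me h4
        · exact q.symm.al1_ne' q.xk h4
        · exact q.symm.al1_ne h4)
    (by
      rintro ⟨v, hv⟩ h3
      rw [q.union] at h3
      exact (mem_sdiff.1 (h3 hv)).2 (q.jA hv))
    (by
      intro X hX hXW hcl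
      have x1 : G.pi z1 ∉ X := fun x1 =>
        q.parT hF FA f1 f2 h1.hm h2.hm z1m z2n hX hXW hcl x1
      have x2 : G.pi z2 ∉ X := fun x2 => x1 (q.symm.same hF FA f2 hX x2)
      exact q.splitX hF FA f1 f2 hX hXW x1 x2)
  rw [q.union] at hu
  exact ⟨_, hu, q.trU h1.hm p1 h2.hm p2⟩

/-- **the single `e`**, `Z` crossed by F-darts -/
theorem sinF (hF : G.FrS one1 fr F jm) (FA : ∀ d ∈ F, G.pi d ∈ A → G.pi (G.al d) ∈ A)
    (f1 : z1 ∈ F) (f2 : z2 ∈ F) (h1 : G.GHalf one1 fr F jm Z M1)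
    (p1 : ∀ d ∈ G.bd Z, d ∉ M1)
    (l1 : ∀ Y ⊆ fr, Y ⊆ Z → (∀ d ∈ F, G.pi d ∈ Y → G.pi (G.al d) ∈ Y ∨ d = z1 ∨ d = z2) →
      G.pi z1 ∈ Y → G.pi z2 ∈ Y → G.pi (G.al i) ∉ Y → G.pi (G.al j) ∉ Y →
      (∀ d ∈ G.bd Y, d ≠ z1 → d ≠ z2 → d ∈ M1) → False)
    (h2 : G.GHalf one1 fr F jm ((G.vs \ A) \ Z) M2)
    (p2 : ∀ d ∈ G.bd ((G.vs \ A) \ Z), d ∈ M2 ↔ d = G.al e) :
    G.SIn fr F jm A e := by
  have hu := GHalf.unionX h1 h2 (disjoint_sdiff : Disjoint Z ((G.vs \ A) \ Z)) (by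
    intro d hd d1 d2
    constructor
    · intro h3
      exact absurd h3 (p1 d (mem_bd.2 ⟨hd, d1, (mem_sdiff.1 d2).2⟩))
    · intro h3
      exfalso
      rcases q.cross hd d1 d2 with rfl | rfl
      · exact q.al1_ne' q.me ((p2 _ q.bW1).1 h3)
      · exact q.symm.al1_ne' q.me ((p2 _ q.symm.bW1).1 h3))
    (by
      rintro ⟨v, hv⟩ h3
      rw [q.union] at h3
      exact (mem_sdiff.1 (h3 hv)).2 (q.jA hv))
    (by
      intro X hX hXW hcl
      have x1 : G.pi z1 ∉ X := by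
        intro x1
        have x2 := q.same hF FA f1 hX x1
        have ex : ∀ x ∈ G.bd A, G.pi (G.al x) ∈ Z → G.pi (G.al x) ∉ X := by
          intro x hx k1 k2
          obtain ⟨k3, k4, k5⟩ := mem_bd.1 hx
          have k6 : G.pi (G.al (G.al x)) ∉ Z ∪ (G.vs \ A) \ Z := by
            rw [G.al_al x k3, q.union]
            exact fun k6 => (mem_sdiff.1 k6).2 k4
          have k7 : G.al x ∈ G.bd X := mem_bd.2 ⟨G.al_mem _ k3, k2, fun k8 => k6 (hXW k8)⟩
          have k8 : G.al x ∈ G.bd Z := mem_bd.2 ⟨G.al_mem _ k3, k1, fun k8 =>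
            k6 (mem_union_left _ k8)⟩
          rcases mem_union.1 (hcl _ k7) with k9 | k9
          · exact p1 _ k8 k9
          · exact (mem_sdiff.1 (h2.hm.sub _ k9).2).2 k1
        refine l1 (X ∩ Z) (inter_subset_left.trans hX.sub) inter_subset_right ?_
          (mem_inter.2 ⟨x1, (mem_bd.1 q.m1).2.1⟩) (mem_inter.2 ⟨x2, (mem_bd.1 q.m2).2.1⟩)
          (fun k1 => ex i q.mi (mem_inter.1 k1).2 (mem_inter.1 k1).1)
          (fun k1 => ex j q.mj (mem_inter.1 k1).2 (mem_inter.1 k1).1) ?_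
        · intro d hd k1
          obtain ⟨k2, k3⟩ := mem_inter.1 k1
          by_cases k4 : G.pi (G.al d) ∈ Z
          · exact Or.inl (mem_inter.2 ⟨hX.clo d hd k2, k4⟩)
          · exact Or.inr (q.crossF hF FA hd k3 k4)
        · intro d hd k1 k2
          refine q.partJ f1 f2 h2.hm hXW hcl hd fun k3 => ?_
          obtain ⟨k4, k5, k6⟩ := mem_bd.1 hd
          obtain ⟨k7, k8⟩ := mem_inter.1 k5
          have k9 : G.pi (G.al d) ∉ Z := fun k10 => k6 (mem_inter.2 ⟨hX.clo d k3 k7, k10⟩)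
          rcases q.crossF hF FA k3 k8 k9 with k10 | k10
          · exact k1 k10
          · exact k2 k10
      have x2 : G.pi z2 ∉ X := fun x2 => x1 (q.symm.same hF FA f2 hX x2)
      exact q.splitX hF FA f1 f2 hX hXW x1 x2)
  rw [q.union] at hu
  exact ⟨_, hu, q.sgU h1.hm p1 h2.hm p2⟩

end ZD

namespace ZH

variable (q : ZH G t F jm A e i j k Z)
include q

/-- at least three fresh vertices are not in `Z` -/
theorem three (h : EK G 6 t fr F jm) (d : ZD G fr ∅ jm A e i j k Z z1 z2) (f1 : z1 ∈ F) (f2 : z2 ∈ F) :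
    (fr ∩ Z).card + 3 ≤ fr.card := by
  have hxx := h.end_ne' q.hv q.ev q.four q.val d.m1 d.m2 d.n12
  obtain ⟨c1, c2, -⟩ := q.cards h d
  obtain ⟨a1, a2, a3⟩ := mem_bd.1 d.m1
  obtain ⟨b1, b2, b3⟩ := mem_bd.1 d.m2
  have hxf : G.pi (G.al z1) ∈ fr := h.fresh.Ffr _ (h.fresh.Fal _ f1)
  have hxf' : G.pi (G.al z2) ∈ fr := h.fresh.Ffr _ (h.fresh.Fal _ f2)
  by_contra hcon
  have e1 := card_sdiff_add_card_inter fr Z
  have e2 : ({G.pi (G.al z1), G.pi (G.al z2)} : Finset V) ⊆ fr \ Z := by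
    intro v hv
    rcases mem_insert.1 hv with rfl | hv
    · exact mem_sdiff.2 ⟨hxf, a3⟩
    · rw [mem_singleton.1 hv]
      exact mem_sdiff.2 ⟨hxf', b3⟩
  have e3 : ({G.pi (G.al z1), G.pi (G.al z2)} : Finset V) = fr \ Z := by
    refine eq_of_subset_of_card_le e2 ?_
    rw [card_pair hxx]
    omega
  obtain ⟨g, hg, hgn⟩ := exists_mem_ne (s := F.filter fun d => G.pi d = G.pi (G.al z1)) (by
    rw [h.fresh.two _ hxf]
    norm_num) (G.al z1)
  obtain ⟨g1, g2⟩ := mem_filter.1 hg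
  have gd := h.fresh.Fsub g1
  have g3 := h.fresh.Fal _ g1
  have g4 := h.fresh.Ffr _ g3
  have g5 : G.pi (G.al g) ∉ Z := by
    intro g5
    rcases d.crossF h.fresh q.hF g3 g5 (by rw [G.al_al g gd, g2]; exact a3) with g6 | g6
    · exact hgn (by rw [← g6, G.al_al g gd])
    · refine hxx ?_
      rw [← g6, G.al_al g gd, g2]
  have g6 : G.pi (G.al g) = G.pi (G.al z2) := by
    have g7 : G.pi (G.al g) ∈ fr \ Z := mem_sdiff.2 ⟨g4, g5⟩
    rw [← e3, mem_insert, mem_singleton] at g7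
    rcases g7 with g7 | g7
    · exact absurd (g7.trans g2.symm) (G.noloop g gd)
    · exact g7
  have hxv : G.pi (G.al z1) ∈ G.vs := h.fresh.fsub hxf
  have hxv' : G.pi (G.al z2) ∈ G.vs := h.fresh.fsub hxf'
  have v1 := h.val_disjN (singleton_subset_iff.2 hxv) (singleton_subset_iff.2 hxv')
    (disjoint_singleton.2 hxx)
  rw [h.wt.val_single hxv, h.wt.val_single hxv'] at v1
  have v2 : (1 : ℝ) ≤ ((G.ed {G.pi (G.al z1)} {G.pi (G.al z2)}).card : ℝ) := by
    have : 1 ≤ (G.ed {G.pi (G.al z1)} {G.pi (G.al z2)}).card := card_pos.2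
      ⟨g, mem_ed.2 ⟨gd, mem_singleton.2 g2, mem_singleton.2 g6⟩⟩
    exact_mod_cast this
  have hsub : ({G.pi (G.al z1)} ∪ {G.pi (G.al z2)} : Finset V) ⊆ G.vs :=
    union_subset (singleton_subset_iff.2 hxv) (singleton_subset_iff.2 hxv')
  have hdj : Disjoint Z ({G.pi (G.al z1)} ∪ {G.pi (G.al z2)} : Finset V) :=
    disjoint_union_right.2 ⟨disjoint_singleton_right.2 a3, disjoint_singleton_right.2 b3⟩
  have v3 := h.val_disjN q.hv hsub hdj
  have v4 : ({z1, z2} : Finset D) ⊆ G.ed Z ({G.pi (G.al z1)} ∪ {G.pi (G.al z2)}) := by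
    intro x hx
    rcases mem_insert.1 hx with rfl | hx
    · exact mem_ed.2 ⟨a1, a2, mem_union_left _ (mem_singleton_self _)⟩
    · rw [mem_singleton.1 hx]
      exact mem_ed.2 ⟨b1, b2, mem_union_right _ (mem_singleton_self _)⟩
  have v5 := card_le_card v4
  rw [card_pair d.n12] at v5
  have v6 : (2 : ℝ) ≤ ((G.ed Z ({G.pi (G.al z1)} ∪ {G.pi (G.al z2)})).card : ℝ) := by
    exact_mod_cast v5
  have hsW : Z ∪ ({G.pi (G.al z1)} ∪ {G.pi (G.al z2)}) ⊆ G.vs \ A :=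
    union_subset q.hZ (union_subset (singleton_subset_iff.2 (mem_sdiff.1 d.w1).1)
      (singleton_subset_iff.2 (mem_sdiff.1 d.w2).1))
  have hev : Even (Z ∪ ({G.pi (G.al z1)} ∪ {G.pi (G.al z2)})).card := by
    rw [card_union_of_disjoint hdj, card_union_of_disjoint (disjoint_singleton.2 hxx),
      card_singleton, card_singleton]
    exact q.ev.add (by decide)
  have v7 := h.evn _ (hsW.trans sdiff_subset) hev ⟨_, mem_union_left _ a2⟩ (by
    intro k10
    obtain ⟨v, hv⟩ : A.Nonempty := card_pos.1 (by omega)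
    have k11 := q.hA hv
    rw [← k10] at k11
    exact (mem_sdiff.1 (hsW k11)).2 hv)
  have v8 : G.val one1 t (Z ∪ ({G.pi (G.al z1)} ∪ {G.pi (G.al z2)})) = 4 := by
    rw [q.val] at v3
    linarith
  exact a3 (q.max _ hsW hev subset_union_left v8
    (mem_union_right _ (mem_union_left _ (mem_singleton_self _))))

end ZH

/-- **the half of `Z` with the circuit linked** -/
theorem X6.kF [Infinite V] [Infinite D] (h : X6 G t fr F jm) (q : ZH G t F jm A e i j k Z)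
    (d : ZD G fr ∅ jm A e i j k Z z1 z2) (f1 : z1 ∈ F) (f2 : z2 ∈ F) :
    ∃ M1, G.GHalf one1 fr F jm Z M1 ∧ (∀ d ∈ G.bd Z, d ∉ M1) ∧
      ∀ Y ⊆ fr, Y ⊆ Z → (∀ d ∈ F, G.pi d ∈ Y → G.pi (G.al d) ∈ Y ∨ d = z1 ∨ d = z2) →
      G.pi z1 ∈ Y → G.pi z2 ∈ Y → G.pi (G.al i) ∉ Y → G.pi (G.al j) ∉ Y →
      (∀ d ∈ G.bd Y, d ≠ z1 → d ≠ z2 → d ∈ M1) → False := by
  have hE := h.toEK
  obtain ⟨c1, c2, -⟩ := q.cards hE d
  have hzz := hE.end_ne q.hv q.ev q.four q.val d.m1 d.m2 d.n12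
  have k1 := card_sdiff_add_card_eq_card q.hZ
  have k2 := card_sdiff_add_card_eq_card q.hA
  have hne : (G.vs \ Z).Nonempty :=
    ⟨_, mem_sdiff.2 ⟨(mem_sdiff.1 (mem_sdiff.1 d.w1).1).1, (mem_sdiff.1 d.w1).2⟩⟩
  have hb : IBlk G t Z 0 := by
    refine ⟨q.hv, Nat.even_iff.1 q.ev, hne, ?_⟩
    rw [q.val]
    norm_num
  have jd : ∀ v ∈ Z, v ∉ jm := fun v hv hv' => (mem_sdiff.1 (q.hZ hv)).2 (q.jA hv')
  by_cases hB : ∃ B ⊆ fr, B ⊆ Z ∧ (∀ d ∈ F, G.pi d ∈ B → G.pi (G.al d) ∈ B ∨ d = z1 ∨ d = z2) ∧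
      G.pi z1 ∈ B ∧ G.pi z2 ∈ B ∧ G.pi (G.al i) ∉ B ∧ G.pi (G.al j) ∉ B
  · obtain ⟨B, b1, b2, b3, b4, b5, b6, b7⟩ := hB
    have hmem : ∀ x, ![z1, z2] x ∈ G.bd Z := by
      intro x
      fin_cases x
      · exact d.m1
      · exact d.m2
    have hinj : Function.Injective ![z1, z2] := by
      have k5 := d.n12
      intro x y hxy
      fin_cases x <;> fin_cases y <;> simp_all
    have hAcl : ∀ {Y : Finset V}, (∀ d ∈ F, G.pi d ∈ Y → G.pi (G.al d) ∈ Y ∨ d = z1 ∨ d = z2) →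
        Acl G F ![z1, z2] {0, 1} Y := by
      intro Y hY d hd h1
      rcases hY d hd h1 with h2 | h2 | h2
      · exact Or.inl h2
      · exact Or.inr ⟨0, by simp, h2.symm⟩
      · exact Or.inr ⟨1, by simp, h2.symm⟩
    have hdrop : ∀ {x : D}, Drop G Z ![z1, z2] x → x = G.al i ∨ x = G.al j := by
      rintro x ⟨hx, hx'⟩
      rw [d.bdZ] at hx
      simp only [mem_insert, mem_singleton] at hx
      rcases hx with hx | hx | hx | hx
      · exact Or.inl hx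
      · exact Or.inr hx
      · exact absurd hx.symm (hx' 0)
      · exact absurd hx.symm (hx' 1)
    have hnd : ∀ {Y : Finset V}, Y ⊆ Z → G.pi (G.al i) ∉ Y → G.pi (G.al j) ∉ Y →
        ∀ v ∈ Y, v ∈ (∅ : Finset V) ∨ (v ∉ jm ∧ ∀ d, Drop G Z ![z1, z2] d → G.pi d ≠ v) := by
      intro Y hY h1 h2 v hv
      refine Or.inr ⟨jd v (hY hv), fun x hx hxv => ?_⟩
      rcases hdrop hx with rfl | rfl
      · exact h1 (hxv ▸ hv)
      · exact h2 (hxv ▸ hv)
    rcases h.tplA (Ts := ∅) q.hv hne Tpl.kf1_reg Tpl.kf1_tab Tpl.kf1_arc hmem hinj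
      (hb.fact hE (fun v _ => by
          unfold Tpl.one1S
          rw [mem_filter]
          refine ⟨mem_univ _, ?_⟩
          by_contra hc
          push Not at hc
          obtain ⟨x, hx, y, hy, hxy⟩ := one_lt_card.1 hc
          have k3 : G.pi (![z1, z2] x) = v := mem_singleton.1 (mem_filter.1 hx).2
          have k4 : G.pi (![z1, z2] y) = v := mem_singleton.1 (mem_filter.1 hy).2
          have k5 : G.pi (![z1, z2] x) = G.pi (![z1, z2] y) := k3.trans k4.symm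
          fin_cases x <;> fin_cases y
          · exact hxy rfl
          · exact hzz k5
          · exact hzz k5.symm
          · exact hxy rfl)
        (fun _ _ _ _ _ _ => mem_univ _) (fun _ _ _ _ _ _ => mem_univ _))
      (q.ev.add (by decide)) (by
        have k3 := drop_card hmem hinj
        rw [q.c4Z] at k3
        have k4 : (((G.bd Z).filter fun d => ∀ i, ![z1, z2] i ≠ d).card : ℝ) = 2 := by
          have : ((G.bd Z).filter fun d => ∀ i, ![z1, z2] i ≠ d).card = 2 := by omega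
          rw [this]
          norm_num
        have k5 : Tpl.kf1.nT univ = 4 := by decide
        rw [sum_eq_zero q.tZ, k4, k5]
        norm_num)
      (fun x _ => by
        fin_cases x
        · exact f1
        · exact f2)
      (fun v hv => absurd hv (notMem_empty v)) (Or.inl (by rw [card_empty, zero_add]; decide))
      ⟨B, b1, b2, hAcl b3, fun x _ => by
        fin_cases x
        · exact b4
        · exact b5, empty_subset _, hnd b2 b6 b7⟩
      (fun Y y1 y2 y3 y4 y5 => by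
        obtain ⟨n, n1, n2⟩ := hE.val_nat (y2.trans q.hv)
        have y6 : G.pi z1 ∈ Y := y4 0 (by simp)
        have y7 : G.pi z2 ∈ Y := y4 1 (by simp)
        have y8 : Y.card ≠ 1 := by
          intro y8
          obtain ⟨v, hv⟩ := card_eq_one.1 y8
          rw [hv, mem_singleton] at y6 y7
          exact hzz (y6.trans y7.symm)
        have y9 : Odd Y.card := by
          have : (({0, 1, 2} : Finset (Fin 4))).card = 3 := by decide
          rw [this, Nat.even_iff] at y5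
          rw [Nat.odd_iff]
          omega
        have y10 := hE.odd Y (y2.trans q.hv) y9 y8
        rw [n1] at y10
        have y11 : 5 ≤ n := by exact_mod_cast y10
        refine ⟨n, n1, ?_⟩
        have y12 : TOk.kap G ![z1, z2] Y = univ := by
          unfold TOk.kap
          rw [filter_eq_self]
          intro x _
          fin_cases x
          · exact y6
          · exact y7
        rw [y12, Tpl.nQ_univ]
        have y13 : Tpl.kf1.nP {0, 1, 2} = 2 := by decide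
        have y14 : Tpl.kf1.val {0, 1, 2} = 5 := by decide
        omega)
      (Or.inr ⟨by
        have k3 := q.three hE d f1 f2
        have k4 : (({0, 1, 2} : Finset (Fin 4))).card = 3 := by decide
        rw [k4, inter_comm]
        rw [inter_comm] at k3
        exact k3, by omega⟩) with ⟨M, m, h1, h2⟩ | ⟨p, c, -, -, -, h1, h2, -, -⟩
    · obtain ⟨h3, h4⟩ := Tpl.kf1_pat _ _ h2
      have hno : ∀ x ∈ G.bd Z, x ∉ M := by
        intro x hx hxM
        obtain ⟨y, hy⟩ := h1.ex x hx hxM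
        have h5 : y ∈ univ.filter fun i => ![z1, z2] i ∈ M := mem_filter.2 ⟨mem_univ _, by
          rw [hy]
          exact hxM⟩
        rw [h3] at h5
        exact notMem_empty _ h5
      have hbX : ∀ {X : Finset V}, X ⊆ Z → ∀ x ∈ G.bd Z, G.pi x ∈ X → x ∈ G.bd X := by
        intro X hX x hx hxX
        obtain ⟨k3, k4, k5⟩ := mem_bd.1 hx
        exact mem_bd.2 ⟨k3, hxX, fun k6 => k5 (hX k6)⟩
      refine ⟨M, ⟨h1.hm, fun _ _ => one_pos, fun X hX hXZ hcl => ⟨?_, ?_⟩⟩, hno, ?_⟩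
      · refine (h1.st X hX hXZ (fun x hx => Or.inl (hcl x hx)) (hnd hXZ ?_ ?_)).1
        · intro k3
          exact hno _ d.mi' (hcl _ (hbX hXZ _ d.mi' k3))
        · intro k3
          exact hno _ d.mj' (hcl _ (hbX hXZ _ d.mj' k3))
      · rintro ⟨⟨v, hv⟩, h5⟩
        exact jd v (hXZ (h5 hv)) hv
      · intro Y y1 y2 y3 y4 y5 y6 y7 y8
        refine (h1.ar Y y1 y2 (hAcl y3) (fun x _ => by
          fin_cases x
          · exact y4
          · exact y5) (fun x hx hx' => Or.inl (y8 x hx (fun k3 => hx' 0 (by simp) k3.symm)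
            fun k3 => hx' 1 (by simp) k3.symm)) (hnd y2 y6 y7) ?_ ?_).2
          ⟨Or.inr ⟨0, by simp⟩, empty_subset _⟩
        · intro x _ hx
          fin_cases x <;> simp at hx
        · intro x hx
          fin_cases x
          · exact absurd (by decide : Tpl.kf1.a 0 ∈ ({0, 1, 2} : Finset (Fin 4)) ↔
              Tpl.kf1.b 0 ∈ ({0, 1, 2} : Finset (Fin 4))) hx
          · exact absurd (by decide : Tpl.kf1.a 1 ∈ ({0, 1, 2} : Finset (Fin 4)) ↔
              Tpl.kf1.b 1 ∈ ({0, 1, 2} : Finset (Fin 4))) hx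
          · exact h4
    · exfalso
      have a0 : c 0 + c 1 ≤ 0 := h1 0 (by decide)
      have a5 : c 0 = 1 := h2 0 (by decide)
      have a6 : c 1 = 1 := h2 1 (by decide)
      linarith
  · -- the circuit contains the end of `i` or `j`: four tokens
    have hp0 : Function.Injective (Fin.elim0 : Fin 0 → D) := fun i => i.elim0
    have hfa : ((G.bd Z).filter fun d => ∀ i, (Fin.elim0 : Fin 0 → D) i ≠ d) = G.bd Z := by
      rw [filter_eq_self]
      exact fun x _ i => i.elim0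
    obtain ⟨M, m, h1, -⟩ := h.tpl4 (Ts := ∅) q.hv hne Tpl.emp_reg
      (Tpl.emp_tabF 0 4 univ (Tpl.iE univ) (Tpl.iO univ)) (pp := Fin.elim0)
      (fun i => i.elim0) hp0
      (hb.fact hE (fun _ _ => mem_univ _) (fun _ _ _ _ _ _ => mem_univ _)
        (fun _ _ _ _ _ _ => mem_univ _)) q.ev (by
        have k5 : Tpl.emp.nT univ = 0 := by decide
        rw [hfa, q.c4Z, sum_eq_zero q.tZ, k5]
        norm_num)
      (fun v hv => by
        rw [q.tZ v hv, zero_add]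
        have k5 : ((G.bd Z).filter fun x => (∀ i, (Fin.elim0 : Fin 0 → D) i ≠ x) ∧
            G.pi x = v).card ≤ 1 := by
          rw [card_le_one]
          intro x hx y hy
          obtain ⟨x1, -, x2⟩ := mem_filter.1 hx
          obtain ⟨y1, -, y2⟩ := mem_filter.1 hy
          by_contra hxy
          exact hE.end_ne q.hv q.ev q.four q.val x1 y1 hxy (x2.trans y2.symm)
        have k6 : ((((G.bd Z).filter fun x => (∀ i, (Fin.elim0 : Fin 0 → D) i ≠ x) ∧
            G.pi x = v).card : ℕ) : ℝ) ≤ ((1 : ℕ) : ℝ) := by exact_mod_cast k5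
        push_cast at k6
        linarith)
      (fun v => v.elim0) (Or.inl rfl) (fun v hv => absurd hv (notMem_empty v))
      (Or.inr (by omega))
    refine ⟨M, h1.half h.fresh h.jm2 ?_, fun x hx hxM => ?_, ?_⟩
    · by_cases hj0 : jm = ∅
      · exact Or.inr (Or.inl hj0)
      · obtain ⟨v, hv⟩ := nonempty_iff_ne_empty.2 hj0
        exact Or.inr (Or.inr fun h4 => jd v (h4 hv) hv)
    · obtain ⟨y, -⟩ := h1.ex x hx hxM
      exact y.elim0
    · intro Y y1 y2 y3 y4 y5 y6 y7 _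
      exact hB ⟨Y, y1, y2, y3, y4, y5, y6, y7⟩

/-- **(iv) with `Z` crossed or not** -/
theorem X6.inZ' [Infinite V] [Infinite D] (h : X6 G t fr F jm) (q : ZH G t F jm A e i j k Z) :
    G.TIn fr F jm A i ∨ G.TIn fr F jm A j ∨ G.SIn fr F jm A e := by
  by_cases FZ : ∀ d ∈ F, G.pi d ∈ Z → G.pi (G.al d) ∈ Z
  · exact h.inZ q FZ
  · push Not at FZ
    obtain ⟨g, g1, g2, g3⟩ := FZ
    have hF := h.fresh
    obtain ⟨z1, z2, d⟩ := q.zd h.toEK
    obtain ⟨f1, f2⟩ : z1 ∈ F ∧ z2 ∈ F := by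
      rcases d.crossF hF q.hF g1 g2 g3 with rfl | rfl
      · exact ⟨g1, d.both hF q.hF g1⟩
      · exact ⟨d.symm.both hF q.hF g1, g1⟩
    obtain ⟨M2, h2, p2 | ⟨s, hs, p2⟩⟩ := h.k6 q d
    · obtain ⟨M1, h1, p1, l1⟩ := h.kF q d f1 f2
      exact Or.inr (Or.inr (d.sinF hF q.hF f1 f2 h1 p1 l1 h2 p2))
    · rcases hs with rfl | rfl
      · obtain ⟨M1, h1, p1 | p1⟩ := h.zA q d
        · exact Or.inr (Or.inl (d.tinF hF q.hF f1 f2 h1 p1 h2 p2))
        · exact Or.inl (d.symm'.tinF hF q.hF f1 f2 h1 p1 h2 p2)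
      · obtain ⟨M1, h1, p1 | p1⟩ := h.zA q d.symm
        · exact Or.inr (Or.inl (d.symm.tinF hF q.hF f2 f1 h1 p1 h2 p2))
        · exact Or.inl (d.symm.symm'.tinF hF q.hF f2 f1 h1 p1 h2 p2)

end MG

end RH
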