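import Pool.Agent.Lib.RH.CE6F5
import Pool.Agent.Lib.RH.CE6Board

/-! # Row f5 of the board -/

set_option autoImplicit false

namespace RH

open Finset Classical

namespace MG

variable {V D : Type*} {G : MG V D} {t : V → ℝ} {fr : Finset V} {F : Finset D}
variable {jm W Z : Finset V} {y b : V} {a0 u e1 e2 i j k : D}

/-- the token of a real step -/
theorem RStp.t1 (h : EK G 6 t fr F jm) (r : RStp G t fr y b a0 u e1 e2) : t y = 1 := by
  have hy : y ∈ G.vs := r.sp.pa ▸ G.pi_mem a0 r.sp.a1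
  have h1 := h.deg y hy
  have h2 : G.st y = {a0, u} := by
    ext d
    rw [r.sp.sy, mem_insert, mem_singleton]
  rw [h2, card_pair r.sp.au] at h1
  push_cast at h1
  linarith

/-- the only token of a blocker with one token -/
theorem RStp.only (h : EK G 6 t fr F jm) (r : RStp G t fr y b a0 u e1 e2) (hW : W ⊆ G.vs)
    (hy : y ∈ W) (hT : ∑ v ∈ W, t v = 1) {v : V} (hv : v ∈ W) (hvy : v ≠ y) : t v = 0 := by
  have h1 := sum_erase_add W t hy
  rw [hT, r.t1 h] at h1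
  have h2 : ∑ v ∈ W.erase y, t v = 0 := by linarith
  exact (sum_eq_zero_iff_of_nonneg fun v hv => h.t0 v (hW (mem_erase.1 hv).2)).1 h2 v
    (mem_erase.2 ⟨hvy, hv⟩)

/-- the data of (iv) -/
theorem Bas.zh (h : Bas G t fr F jm) (r : RStp G t fr y b a0 u e1 e2)
    (w : MBlk G t y b u e1 e2 W) (hT : ∑ v ∈ W, t v = 1) (hc : ¬ FCut G F W)
    (hbd : G.bd (G.vs \ W) = {G.al e1, i, j, k}) (hnd : [G.al e1, i, j, k].Nodup)
    (hZ : Z ⊆ W) (he : Even Z.card) (h4 : 4 ≤ Z.card) (hv : G.val one1 t Z = 4)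
    (hi : G.pi (G.al i) ∈ Z) (hj : G.pi (G.al j) ∈ Z)
    (hmax : ∀ Z' ⊆ W, Z ⊆ Z' → Even Z'.card → G.val one1 t Z' = 4 → Z' = Z) :
    ZH G t F jm (G.vs \ W) (G.al e1) i j k Z := by
  have hE := h.toX6.toEK
  have hWA : G.vs \ (G.vs \ W) = W := Finset.sdiff_sdiff_eq_self w.sub
  have only := fun {v : V} (hv : v ∈ W) (hvy : v ≠ y) => r.only hE w.sub w.my hT hv hvy
  have c4 : (G.bd (G.vs \ W)).card = 4 := by
    have h2 : [G.al e1, i, j, k].toFinset = {G.al e1, i, j, k} := by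
      ext x
      simp
    rw [hbd, ← h2, List.toFinset_card_of_nodup hnd]
    rfl
  have hA3 : 3 ≤ (G.vs \ W).card := by
    have k1 := card_sdiff_add_card_eq_card w.sub
    have k2 := Nat.odd_iff.1 w.odd
    have k3 := Nat.even_iff.1 hE.even
    have k4 : (G.vs \ W).card ≠ 1 := by
      intro k4
      obtain ⟨v, hv⟩ := card_eq_one.1 k4
      have hvv : v ∈ G.vs := sdiff_subset (hv ▸ mem_singleton_self v : v ∈ G.vs \ W)
      have k5 := hE.wt.val_single hvv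
      have k6 := hE.t0 v hvv
      rw [hv] at c4
      rw [val_one, sum_singleton, c4] at k5
      push_cast at k5
      linarith
    omega
  have yZ : y ∉ Z := by
    intro yZ
    refine h.noE Z (hZ.trans w.sub) he h4 ?_ ⟨y, yZ, r.hy, (r.t1 hE).ge⟩ (fun _ => ?_) hv
    swap
    · rw [← hT]
      exact sum_subset hZ fun v hv hvZ => only hv fun k1 => hvZ (k1 ▸ yZ)
    have k1 := card_sdiff_add_card_eq_card w.sub
    have k2 := card_sdiff_add_card_eq_card (hZ.trans w.sub)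
    have k3 := card_le_card hZ
    have k4 := Nat.odd_iff.1 w.odd
    have k5 := Nat.even_iff.1 he
    omega
  refine ⟨sdiff_subset, by rw [hWA]; exact w.odd, by rw [hWA]; exact w.val, by rw [hWA]; exact hT,
    ?_, ?_, hbd, hnd, ?_, by rw [hWA]; exact hZ, he, h4, hv, fun v hv => only (hZ hv) fun k1 =>
      yZ (k1 ▸ hv), hi, hj, ?_⟩
  · intro d hd k1
    have k2 := hE.fresh.Fsub hd
    refine mem_sdiff.2 ⟨G.pi_mem _ (G.al_mem _ k2), fun k3 => hc ⟨G.al d, hE.fresh.Fal d hd, k3,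
      ?_⟩⟩
    rw [G.al_al d k2]
    exact (mem_sdiff.1 k1).2
  · intro v hv
    refine mem_sdiff.2 ⟨hE.fresh.fsub (hE.fresh.jms hv), fun k1 => ?_⟩
    have k2 := only k1 fun k3 => r.hy (k3 ▸ hE.fresh.jms hv)
    rw [hE.tok_fr (hE.fresh.jms hv), if_pos hv] at k2
    exact one_ne_zero k2
  · intro d hd
    obtain ⟨k1, k2, k3⟩ := mem_bd.1 hd
    have k4 : G.pi (G.al d) ∈ W := by
      by_contra k4
      exact k3 (mem_sdiff.2 ⟨G.pi_mem _ (G.al_mem _ k1), k4⟩)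
    refine only k4 fun k5 => ?_
    have k6 : G.al d ∈ G.st y := mem_st.2 ⟨G.al_mem _ k1, k5⟩
    have k7 : G.pi (G.al (G.al d)) ∉ W := by
      rw [G.al_al d k1]
      exact (mem_sdiff.1 k2).2
    rcases (r.sp.sy _).1 k6 with k8 | k8
    · rw [k8, r.sp.pb] at k7
      exact k7 w.mb
    · rw [k8] at k7
      exact k7 w.my2
  · intro X hX heX hZX hvX
    rw [hWA] at hX
    exact (hmax X hX hZX heX hvX).le

/-- **row f5** -/
theorem Bas.f5 {V D : Type*} [Infinite V] [Infinite D] {G : MG V D} {t : V → ℝ} {fr : Finset V}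
    {F : Finset D} {jm : Finset V} (h : Bas G t fr F jm) {y b : V} {a0 u e1 e2 : D}
    (r : RSo G t fr y b a0 u e1 e2) {W : Finset V} (w : MBlk G t y b u e1 e2 W)
    (hT : ∑ v ∈ W, t v = 1) (hc : ¬ FCut G F W) {i j k : D}
    (hbd : G.bd (G.vs \ W) = {G.al e1, i, j, k}) (hnd : [G.al e1, i, j, k].Nodup)
    (Z : Finset V) (hZ : Z ⊆ W) (he : Even Z.card) (h4 : 4 ≤ Z.card) (hv : G.val one1 t Z = 4)
    (hi : G.pi (G.al i) ∈ Z) (hj : G.pi (G.al j) ∈ Z)
    (hmax : ∀ Z' ⊆ W, Z ⊆ Z' → Even Z'.card → G.val one1 t Z' = 4 → Z' = Z) :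
    G.TIn fr F jm (G.vs \ W) i ∨ G.TIn fr F jm (G.vs \ W) j ∨
      G.SIn fr F jm (G.vs \ W) (G.al e1) :=
  h.toX6.inZ' (h.zh r.toRStp w hT hc hbd hnd hZ he h4 hv hi hj hmax)

/-- row f5 in the form of the board -/
theorem row_f5 {V D : Type} [Infinite V] [Infinite D] :
    ∀ {G : MG V D} {t fr F jm}, Bas G t fr F jm → ∀ {y b a0 u e1 e2},
    RSo G t fr y b a0 u e1 e2 → ∀ {W}, MBlk G t y b u e1 e2 W → ∑ v ∈ W, t v = 1 →
    ¬ FCut G F W → ∀ {i j k : D}, G.bd (G.vs \ W) = {G.al e1, i, j, k} →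
    [G.al e1, i, j, k].Nodup → ∀ Z ⊆ W, Even Z.card → 4 ≤ Z.card → G.val one1 t Z = 4 →
    G.pi (G.al i) ∈ Z → G.pi (G.al j) ∈ Z →
    (∀ Z' ⊆ W, Z ⊆ Z' → Even Z'.card → G.val one1 t Z' = 4 → Z' = Z) →
    G.TIn fr F jm (G.vs \ W) i ∨ G.TIn fr F jm (G.vs \ W) j ∨
      G.SIn fr F jm (G.vs \ W) (G.al e1) := by
  intro G t fr F jm h y b a0 u e1 e2 r W w hT hc i j k hbd hnd Z hZ he h4 hv hi hj hmax
  exact h.f5 r w hT hc hbd hnd Z hZ he h4 hv hi hj hmax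

end MG

end RH
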