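import Pool.Agent.Lib.RH.SStep

/-! Walks in a set of darts and their alternating weights (directions). -/

set_option autoImplicit false

namespace RH

open Finset Classical

namespace MG

variable {V D : Type*}

/-- `G.IsW S u l w`: the list `l` of darts is a walk from `u` to `w` with darts in `S` -/
def IsW (G : MG V D) (S : Finset D) : V → List D → V → Prop
  | u, [], w => u = w
  | u, d :: l, w => d ∈ S ∧ G.pi d = u ∧ G.IsW S (G.pi (G.al d)) l w

/-- alternating weight `+1, -1, ...` of a walk -/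
noncomputable def wa (G : MG V D) : List D → D → ℝ
  | [], _ => 0
  | d :: l, e => ((if e = d then 1 else 0) + (if e = G.al d then 1 else 0)) - G.wa l e

/-- token change of the walk: `sum over st v of wa + wb = 0` -/
noncomputable def wb (l : List D) (u w : V) (v : V) : ℝ :=
  (-1) ^ l.length * (if v = w then 1 else 0) - (if v = u then 1 else 0)

/-- support darts with both ends outside `A` -/
noncomputable def sd (G : MG V D) (z : D → ℝ) (A : Finset V) : Finset D :=
  G.ds.filter fun d => z d ≠ 0 ∧ G.pi d ∉ A ∧ G.pi (G.al d) ∉ A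

/-- a set of darts closed under `al` -/
structure Sy (G : MG V D) (S : Finset D) : Prop where
  sub : S ⊆ G.ds
  al : ∀ d ∈ S, G.al d ∈ S

variable {G : MG V D} {z : D → ℝ} {t : V → ℝ} {fr A : Finset V} {F S : Finset D}
variable {jm sx : Finset V} {ep : V → ℕ} {m : ℕ}

theorem mem_sd {d : D} : d ∈ G.sd z A ↔ d ∈ G.ds ∧ z d ≠ 0 ∧ G.pi d ∉ A ∧ G.pi (G.al d) ∉ A := by
  simp [sd]

theorem Wt.sy_sd (h : G.Wt z t) (A : Finset V) : G.Sy (G.sd z A) := by
  refine ⟨filter_subset _ _, fun d hd => ?_⟩
  obtain ⟨h1, h2, h3, h4⟩ := mem_sd.1 hd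
  refine mem_sd.2 ⟨G.al_mem _ h1, by rwa [h.sym d h1], h4, ?_⟩
  rwa [G.al_al _ h1]

/-- remove an edge -/
theorem Sy.del (hS : G.Sy S) (j : D) (hj : j ∈ G.ds) :
    G.Sy (S.filter fun d => d ≠ j ∧ d ≠ G.al j) := by
  refine ⟨(filter_subset _ _).trans hS.sub, fun d hd => ?_⟩
  obtain ⟨h1, h2, h3⟩ := mem_filter.1 hd
  have hd' := hS.sub h1
  refine mem_filter.2 ⟨hS.al d h1, fun h => h3 ?_, fun h => h2 ?_⟩
  · rw [← h, G.al_al _ hd']
  · rw [← G.al_al _ hd', h, G.al_al _ hj]

theorem IsW.append {u v w : V} {l l' : List D} (h : G.IsW S u l v) (h' : G.IsW S v l' w) :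
    G.IsW S u (l ++ l') w := by
  induction l generalizing u with
  | nil => have h1 : u = v := h; rw [h1]; exact h'
  | cons q P ih => exact ⟨h.1, h.2.1, ih h.2.2⟩

theorem IsW.snoc {u w : V} {l : List D} {d : D} (h : G.IsW S u l (G.pi d)) (hd : d ∈ S)
    (hw : G.pi (G.al d) = w) : G.IsW S u (l ++ [d]) w :=
  h.append ⟨hd, rfl, hw⟩

/-- cut a walk in two -/
theorem IsW.split {u w : V} {l l' : List D} (h : G.IsW S u (l ++ l') w) :
    ∃ v, G.IsW S u l v ∧ G.IsW S v l' w := by
  induction l generalizing u with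
  | nil => exact ⟨u, rfl, h⟩
  | cons q P ih =>
    obtain ⟨y, h1, h2⟩ := ih h.2.2
    exact ⟨y, ⟨h.1, h.2.1, h1⟩, h2⟩

theorem IsW.rev (hS : G.Sy S) {u w : V} {l : List D} (h : G.IsW S u l w) :
    G.IsW S w (l.reverse.map G.al) u := by
  induction l generalizing u with
  | nil => exact Eq.symm h
  | cons q P ih =>
    rw [List.reverse_cons, List.map_append, List.map_singleton]
    refine (ih h.2.2).append ⟨hS.al _ h.1, rfl, ?_⟩
    rw [G.al_al _ (hS.sub h.1)]
    exact h.2.1

theorem IsW.mono {S' : Finset D} (hS : S ⊆ S') {u w : V} {l : List D} (h : G.IsW S u l w) :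
    G.IsW S' u l w := by
  induction l generalizing u with
  | nil => exact h
  | cons q P ih => exact ⟨hS h.1, h.2.1, ih h.2.2⟩

theorem IsW.mem {u w : V} {l : List D} (h : G.IsW S u l w) : ∀ d ∈ l, d ∈ S := by
  induction l generalizing u with
  | nil => intro p hp; simp at hp
  | cons q P ih =>
    intro p hp
    rcases List.mem_cons.1 hp with h1 | h1
    · rw [h1]; exact h.1
    · exact ih h.2.2 p h1

/-- a walk whose darts lie in a smaller set -/
theorem IsW.restrict {S' : Finset D} {u w : V} {l : List D} (h : G.IsW S u l w)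
    (hl : ∀ d ∈ l, d ∈ S') : G.IsW S' u l w := by
  induction l generalizing u with
  | nil => exact h
  | cons q P ih =>
    exact ⟨hl q (List.mem_cons_self ..), h.2.1, ih h.2.2 fun d hd => hl d (List.mem_cons_of_mem _ hd)⟩

/-- a walk stays in a set without outgoing darts in `S` -/
theorem IsW.stay {X : Finset V} (hX : ∀ d ∈ S, G.pi d ∈ X → G.pi (G.al d) ∈ X) {u w : V}
    {l : List D} (h : G.IsW S u l w) (hu : u ∈ X) : w ∈ X := by
  induction l generalizing u with
  | nil => have h1 : u = w := h; rw [← h1]; exact hu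
  | cons q P ih => exact ih h.2.2 (hX q h.1 (by rw [h.2.1]; exact hu))

/-- a walk from inside `X` to the outside uses a boundary dart of `X` -/
theorem IsW.exists_bd (hS : S ⊆ G.ds) {u w : V} {l : List D} (h : G.IsW S u l w) {X : Finset V}
    (hx : u ∈ X) (hy : w ∉ X) : ∃ p ∈ l, p ∈ G.bd X := by
  induction l generalizing u with
  | nil => have h1 : u = w := h; exact absurd (h1 ▸ hx) hy
  | cons p P ih =>
    by_cases h1 : G.pi (G.al p) ∈ X
    · obtain ⟨q, hq, h2⟩ := ih h.2.2 h1
      exact ⟨q, List.mem_cons_of_mem _ hq, h2⟩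
    · exact ⟨p, List.mem_cons_self .., mem_bd.2 ⟨hS h.1, by rw [h.2.1]; exact hx, h1⟩⟩

theorem wa_nil (e : D) : G.wa [] e = 0 := rfl

theorem wa_cons (d : D) (l : List D) (e : D) :
    G.wa (d :: l) e = ((if e = d then 1 else 0) + (if e = G.al d then 1 else 0)) - G.wa l e := rfl

theorem wa_append (l l' : List D) (e : D) :
    G.wa (l ++ l') e = G.wa l e + (-1) ^ l.length * G.wa l' e := by
  induction l with
  | nil => simp [wa_nil]
  | cons q P ih =>
    rw [List.cons_append, wa_cons, wa_cons, ih, List.length_cons, pow_succ]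
    ring

theorem wa_sym (hS : S ⊆ G.ds) {l : List D} (hl : ∀ d ∈ l, d ∈ S) {e : D} (he : e ∈ G.ds) :
    G.wa l (G.al e) = G.wa l e := by
  induction l with
  | nil => rfl
  | cons q P ih =>
    have hq := hS (hl q (List.mem_cons_self ..))
    rw [wa_cons, wa_cons, ih fun p hp => hl p (List.mem_cons_of_mem _ hp)]
    have h1 : (G.al e = q) ↔ (e = G.al q) := by
      constructor
      · intro h; rw [← h, G.al_al _ he]
      · intro h; rw [h, G.al_al _ hq]
    have h2 : (G.al e = G.al q) ↔ (e = q) := by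
      constructor
      · intro h; rw [← G.al_al _ he, h, G.al_al _ hq]
      · intro h; rw [h]
    simp only [h1, h2]
    ring

/-- a dart which is not used in any of the two directions has weight 0 -/
theorem wa_zero' {l : List D} (hl : ∀ d ∈ l, d ∈ G.ds) {e : D} (h : e ∉ l) (h' : G.al e ∉ l) :
    G.wa l e = 0 := by
  induction l with
  | nil => rfl
  | cons q P ih =>
    have hq := hl q (List.mem_cons_self ..)
    rw [wa_cons, ih (fun p hp => hl p (List.mem_cons_of_mem _ hp))
      (fun h1 => h (List.mem_cons_of_mem _ h1)) (fun h1 => h' (List.mem_cons_of_mem _ h1)),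
      if_neg (fun h1 : e = q => h (h1 ▸ List.mem_cons_self ..)), if_neg ?_]
    · ring
    · intro h1
      apply h'
      rw [h1, G.al_al _ hq]
      exact List.mem_cons_self ..

theorem wa_zero (hS : G.Sy S) {l : List D} (hl : ∀ d ∈ l, d ∈ S) {e : D} (he : e ∉ S) :
    G.wa l e = 0 := by
  induction l with
  | nil => rfl
  | cons q P ih =>
    have hq := hl q (List.mem_cons_self ..)
    rw [wa_cons, ih fun p hp => hl p (List.mem_cons_of_mem _ hp),
      if_neg (fun h1 : e = q => he (h1 ▸ hq)),
      if_neg (fun h1 : e = G.al q => he (h1 ▸ hS.al _ hq))]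
    ring

theorem wa_deg (hS : G.Sy S) {u w : V} {l : List D} (h : G.IsW S u l w) (v : V) :
    ∑ d ∈ G.st v, G.wa l d + wb l u w v = 0 := by
  induction l generalizing u with
  | nil =>
    have h1 : u = w := h
    simp [wa_nil, wb, h1]
  | cons q P ih =>
    have hq := hS.sub h.1
    have ih := ih h.2.2
    have h1 : ∀ e ∈ G.ds, ∑ d ∈ G.st v, (if d = e then (1 : ℝ) else 0) =
        if v = G.pi e then 1 else 0 := by
      intro e he
      rw [Finset.sum_ite_eq' (G.st v) e fun _ => (1 : ℝ)]
      by_cases h : v = G.pi e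
      · rw [if_pos h, if_pos (mem_st.2 ⟨he, h.symm⟩)]
      · rw [if_neg h, if_neg fun h2 => h (mem_st.1 h2).2.symm]
    simp only [wa_cons, sum_sub_distrib, sum_add_distrib]
    rw [h1 q hq, h1 _ (G.al_mem _ hq), h.2.1]
    unfold wb at ih ⊢
    rw [List.length_cons, pow_succ]
    linarith

theorem sum_wb {l : List D} {u w : V} (hu : u ∈ G.vs) (hw : w ∈ G.vs) :
    ∑ v ∈ G.vs, wb l u w v = (-1) ^ l.length - 1 := by
  unfold wb
  rw [sum_sub_distrib, ← mul_sum, Finset.sum_ite_eq' G.vs u fun _ => (1 : ℝ),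
    Finset.sum_ite_eq' G.vs w fun _ => (1 : ℝ), if_pos hu, if_pos hw, mul_one]

/-- change of the value of a set -/
theorem wa_val (hS : G.Sy S) {u w : V} {l : List D} (h : G.IsW S u l w) {X : Finset V}
    (hX : X ⊆ G.vs) : G.val (G.wa l) (wb l u w) X = -∑ d ∈ G.ed X X, G.wa l d :=
  pert_val (G.wa l) (wb l u w) (fun v _ => wa_deg hS h v) hX

/-- shortest walks -/
theorem exists_short {u w : V} (h : ∃ l, G.IsW S u l w) :
    ∃ l, G.IsW S u l w ∧ ∀ l', G.IsW S u l' w → l.length ≤ l'.length := by
  have h1 : ∃ n, ∃ l, G.IsW S u l w ∧ l.length = n := by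
    obtain ⟨l, hl⟩ := h
    exact ⟨_, l, hl, rfl⟩
  obtain ⟨l, h2, h3⟩ := Nat.find_spec h1
  refine ⟨l, h2, fun l' hl' => ?_⟩
  rw [h3]
  exact Nat.find_min' h1 ⟨l', hl', rfl⟩

/-- an inner vertex of a shortest walk is not its end: a dart of the walk, except the last one,
does not end at `w`, and no dart of the walk starts at `w` -/
theorem short_ne {u w : V} {l : List D}
    (h : G.IsW S u l w) (hmin : ∀ l', G.IsW S u l' w → l.length ≤ l'.length) :
    (∀ d ∈ l, G.pi d ≠ w) ∧ ∀ l₁ d l₂, l = l₁ ++ d :: l₂ → l₂ ≠ [] → G.pi (G.al d) ≠ w := by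
  constructor
  · intro d hd hw
    obtain ⟨A, B, rfl⟩ := List.append_of_mem hd
    obtain ⟨y, h1, h2⟩ := h.split
    have h3 : y = w := by rw [← hw]; exact h2.2.1.symm
    have h4 := hmin A (h3 ▸ h1)
    simp only [List.length_append, List.length_cons] at h4
    omega
  · intro A d B hl hB hw
    subst hl
    obtain ⟨y, h1, h2⟩ := h.split
    have h3 : G.IsW S u (A ++ [d]) w := h1.append ⟨h2.1, h2.2.1, hw⟩
    have h4 := hmin _ h3
    have h5 := List.length_pos_iff.2 hB
    simp only [List.length_append, List.length_cons, List.length_nil] at h4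
    omega

/-- a dart at the end of a shortest walk which is not the last dart of the walk is not used -/
theorem short_out (hS : G.Sy S) {u w : V} {l : List D} {d e : D}
    (h : G.IsW S u (l ++ [d]) w) (hmin : ∀ l', G.IsW S u l' w → (l ++ [d]).length ≤ l'.length)
    (he : e ∈ S) (hp : G.pi e = w) (hne : e ≠ G.al d) : G.wa (l ++ [d]) e = 0 := by
  obtain ⟨h1, h2⟩ := short_ne h hmin
  refine wa_zero' (fun x hx => hS.sub (h.mem x hx)) (fun h3 => h1 e h3 hp) fun h3 => ?_
  have he' := hS.sub he
  rcases List.mem_append.1 h3 with h4 | h4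
  · obtain ⟨A, B, rfl⟩ := List.append_of_mem h4
    refine h2 A (G.al e) (B ++ [d]) (by simp) (by simp) ?_
    rw [G.al_al _ he', hp]
  · have h5 : G.al e = d := by simpa using h4
    exact hne (by rw [← h5, G.al_al _ he'])

/-- the last dart of a shortest walk has weight `(-1)^(length - 1)` -/
theorem short_last (hS : G.Sy S) {u w : V} {l : List D} {d : D}
    (h : G.IsW S u (l ++ [d]) w) (hmin : ∀ l', G.IsW S u l' w → (l ++ [d]).length ≤ l'.length) :
    G.wa (l ++ [d]) d = (-1) ^ l.length := by
  obtain ⟨h1, h2⟩ := short_ne h hmin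
  have hmem := fun x hx => hS.sub (h.mem x hx)
  have hd : d ∈ G.ds := hmem d (by simp)
  have hw : G.pi (G.al d) = w := by
    obtain ⟨y, _, h4⟩ := h.split
    exact h4.2.2
  have h3 : G.wa l d = 0 := by
    refine wa_zero' (fun x hx => hmem x (List.mem_append_left _ hx)) (fun h4 => ?_) fun h4 => ?_
    · obtain ⟨A, B, rfl⟩ := List.append_of_mem h4
      exact h2 A d (B ++ [d]) (by simp) (by simp) hw
    · exact h1 (G.al d) (List.mem_append_left _ h4) hw
  have h6 : d ≠ G.al d := fun h => G.noloop d hd (congrArg G.pi h).symm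
  rw [wa_append, wa_cons, wa_nil, h3, if_pos rfl, if_neg h6]
  ring

/-- weight of a dart which occurs exactly once (in one of the two directions) -/
theorem wa_once {l l' : List D} {e : D} (he : e ∈ G.ds) (hl : ∀ d ∈ l ++ l', d ∈ G.ds)
    (h2 : e ∉ l ++ l') (h3 : G.al e ∉ l ++ l') : G.wa (l ++ e :: l') e = (-1) ^ l.length := by
  have h4 : G.wa l e = 0 := wa_zero' (fun q hq => hl q (List.mem_append_left _ hq))
    (fun h => h2 (List.mem_append_left _ h)) fun h => h3 (List.mem_append_left _ h)
  have h5 : G.wa l' e = 0 := wa_zero' (fun q hq => hl q (List.mem_append_right _ hq))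
    (fun h => h2 (List.mem_append_right _ h)) fun h => h3 (List.mem_append_right _ h)
  have h6 : e ≠ G.al e := fun h => G.noloop e he (congrArg G.pi h).symm
  rw [wa_append, wa_cons, h4, h5, if_pos rfl, if_neg h6]
  ring

/-- no closed odd walk: two colours -/
theorem exists_col (hS : G.Sy S) (hno : ∀ u l, G.IsW S u l u → Even l.length) :
    ∃ c : V → Bool, (∀ d ∈ S, c (G.pi (G.al d)) ≠ c (G.pi d)) := by
  let rel : Setoid V :=
    { r := fun x y => ∃ l, G.IsW S x l y
      iseqv := ⟨fun x => ⟨[], rfl⟩, fun {x y} h => by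
          obtain ⟨l, hl⟩ := h
          exact ⟨_, hl.rev hS⟩,
        fun {x y w} h h' => by
          obtain ⟨l, hl⟩ := h
          obtain ⟨l', hl'⟩ := h'
          exact ⟨_, hl.append hl'⟩⟩ }
  let rep : V → V := fun v => (Quotient.mk rel v).out
  have hrep : ∀ v, ∃ l, G.IsW S (rep v) l v := by
    intro v
    have h := Quotient.exact (s := rel) (Quotient.out_eq (Quotient.mk rel v))
    exact h
  have hrep' : ∀ d ∈ S, rep (G.pi (G.al d)) = rep (G.pi d) := by
    intro d hd
    have h1 : Quotient.mk rel (G.pi (G.al d)) = Quotient.mk rel (G.pi d) := by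
      apply Quotient.sound
      refine ⟨[G.al d], hS.al d hd, rfl, ?_⟩
      rw [G.al_al _ (hS.sub hd)]
      exact rfl
    exact congrArg Quotient.out h1
  have key : ∀ v l l', G.IsW S (rep v) l v → G.IsW S (rep v) l' v →
      (Even l.length ↔ Even l'.length) := by
    intro v l l' h h'
    have h1 := hno _ _ (h.append (h'.rev hS))
    rw [List.length_append, List.length_map, List.length_reverse, Nat.even_add] at h1
    exact h1
  refine ⟨fun v => decide (∃ l, G.IsW S (rep v) l v ∧ Even l.length), ?_⟩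
  intro d hd
  obtain ⟨l, hl⟩ := hrep (G.pi d)
  have hl' : G.IsW S (rep (G.pi (G.al d))) (l ++ [d]) (G.pi (G.al d)) := by
    rw [hrep' d hd]
    exact hl.snoc hd rfl
  have h1 : (∃ l, G.IsW S (rep (G.pi d)) l (G.pi d) ∧ Even l.length) ↔ Even l.length := by
    constructor
    · rintro ⟨l1, h2, h3⟩
      exact (key _ _ _ h2 hl).1 h3
    · intro h2
      exact ⟨l, hl, h2⟩
  have h2 : (∃ l, G.IsW S (rep (G.pi (G.al d))) l (G.pi (G.al d)) ∧ Even l.length) ↔
      Even (l ++ [d]).length := by
    constructor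
    · rintro ⟨l1, h2, h3⟩
      exact (key _ _ _ h2 hl').1 h3
    · intro h2
      exact ⟨_, hl', h2⟩
  simp only [h1, h2, ne_eq, decide_eq_decide]
  rw [List.length_append, List.length_singleton, Nat.even_add_one]
  tauto

/-- in a coloured graph the colours decide the parity of a walk -/
theorem IsW.col {c : V → Bool} (hc : ∀ d ∈ S, c (G.pi (G.al d)) ≠ c (G.pi d)) {u w : V}
    {l : List D} (h : G.IsW S u l w) : (Even l.length ↔ c u = c w) := by
  induction l generalizing u with
  | nil => have h1 : u = w := h; simp [h1]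
  | cons q P ih =>
    have h1 := ih h.2.2
    have h2 := hc q h.1
    rw [h.2.1] at h2
    rw [List.length_cons, Nat.even_add_one, h1]
    revert h2
    generalize c (G.pi (G.al q)) = A
    generalize c u = B
    generalize c w = C
    cases A <;> cases B <;> cases C <;> simp

end MG

end RH
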