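import Pool.Agent.Lib.RH.SGrow
import Pool.Agent.Lib.RH.SWalk0

/-! Direct kill: kill the leg `j`, change the weights by a vector `a`; if this is not a step, some odd
set is violated (a blocker). -/

set_option autoImplicit false

namespace RH

open Finset Classical

namespace MG

variable {V D : Type*} {G : MG V D} {z z' : D → ℝ} {t t' : V → ℝ} {fr : Finset V} {F : Finset D}
variable {jm sx : Finset V} {ep : V → ℕ} {m : ℕ} {M : Finset D}

/-- the tokens after killing one edge of weight 1 -/
theorem kt_pair {j : D} (hj : j ∈ G.ds) (hz1 : z j = 1) (hz2 : z (G.al j) = 1) (v : V) :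
    kt G z t {j, G.al j} v =
      t v + (if v = G.pi j ∨ v = G.pi (G.al j) then 1 else 0) := by
  have hne : j ≠ G.al j := fun he => G.noloop j hj (by rw [← he])
  have hpe : G.pi j ≠ G.pi (G.al j) := fun he => G.noloop j hj he.symm
  unfold kt
  congr 1
  rw [sum_filter, sum_pair hne]
  by_cases h1 : v = G.pi j
  · subst h1
    rw [if_pos rfl, if_neg (Ne.symm hpe), if_pos (Or.inl rfl), hz1, add_zero]
  · by_cases h2 : v = G.pi (G.al j)
    · subst h2
      rw [if_neg (Ne.symm h1), if_pos rfl, if_pos (Or.inr rfl), hz2, zero_add]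
    · rw [if_neg (Ne.symm h1), if_neg (Ne.symm h2), if_neg, add_zero]
      rintro (h3 | h3)
      · exact h1 h3
      · exact h2 h3

/-- the weight of a killed pair inside a set -/
theorem ed_pair {j : D} (hj : j ∈ G.ds) (hz1 : z j = 1) (hz2 : z (G.al j) = 1) (W : Finset V) :
    ∑ d ∈ (G.ed W W).filter (fun d => d ∈ ({j, G.al j} : Finset D)), z d =
      if G.pi j ∈ W ∧ G.pi (G.al j) ∈ W then 2 else 0 := by
  have haj := G.al_mem j hj
  have haa := G.al_al j hj
  have hne : j ≠ G.al j := fun he => G.noloop j hj (by rw [← he])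
  by_cases h1 : G.pi j ∈ W ∧ G.pi (G.al j) ∈ W
  · rw [if_pos h1]
    have h2 : (G.ed W W).filter (fun d => d ∈ ({j, G.al j} : Finset D)) = {j, G.al j} := by
      ext d
      rw [mem_filter, mem_ed]
      constructor
      · rintro ⟨-, h3⟩
        exact h3
      · intro h3
        refine ⟨?_, h3⟩
        rcases mem_insert.1 h3 with rfl | h4
        · exact ⟨hj, h1.1, h1.2⟩
        · rw [mem_singleton] at h4
          subst h4
          exact ⟨haj, h1.2, by rw [haa]; exact h1.1⟩
    rw [h2, sum_pair hne, hz1, hz2]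
    norm_num
  · rw [if_neg h1]
    apply sum_eq_zero
    intro d hd
    exfalso
    obtain ⟨h2, h3⟩ := mem_filter.1 hd
    obtain ⟨-, h4, h5⟩ := mem_ed.1 h2
    apply h1
    rcases mem_insert.1 h3 with rfl | h6
    · exact ⟨h4, h5⟩
    · rw [mem_singleton] at h6
      subst h6
      rw [haa] at h5
      exact ⟨h5, h4⟩

/-- DIRECT KILL, general form: `j` from `x = pi j` on the circuit `C` to `w = pi (al j)` outside `fr`
(`IsStepS` with `z' = kz z {j, al j} + a`, `t' = kt .. + b`, `fr'` from `InstS.absorb_class`) -/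
theorem MCS.direct (h : G.MCS z t fr F jm sx ep m) {C : Finset V} (hC : G.Circ fr F C) {j : D}
    (hj : j ∈ G.ds) (hx : G.pi j ∈ C) (hw : G.pi (G.al j) ∉ fr) {a : D → ℝ} {b : V → ℝ}
    (hsym : ∀ d ∈ G.ds, a (G.al d) = a d)
    (hdeg : ∀ v ∈ G.vs, ∑ d ∈ G.st v, a d + b v = 0)
    (ha0 : ∀ d, a d ≠ 0 → d ∈ G.sd z (fr \ C)) (haj : a j = 0)
    (hz : ∀ d ∈ G.ds, 0 ≤ z d + a d)
    (hb : ∀ v ∈ G.vs, 0 ≤ t v + (if v = G.pi j ∨ v = G.pi (G.al j) then 1 else 0) + b v)
    (htau : ∑ v ∈ G.vs, t v + 2 + ∑ v ∈ G.vs, b v < 6) :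
    ∃ W ⊆ G.vs, Odd W.card ∧
      G.val z t W - 3 + (if G.pi j ∈ W ∧ G.pi (G.al j) ∈ W then 2 else 0) <
        ∑ d ∈ G.ed W W, a d := by
  by_contra hcon
  push Not at hcon
  have hI := h.inst
  have hF := hI.fresh
  have hW := hI.wt
  have hxfr : G.pi j ∈ fr := hC.adm.sub hx
  have haj' := G.al_mem j hj
  have haa := G.al_al j hj
  have hne : j ≠ G.al j := fun he => G.noloop j hj (by rw [← he])
  have hzj : z j = 1 := hF.unit j hj hxfr
  have hzaj : z (G.al j) = 1 := by rw [hW.sym j hj, hzj]
  have haal : a (G.al j) = 0 := by rw [hsym j hj, haj]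
  have hmemS : ∀ d, d ∈ ({j, G.al j} : Finset D) ↔ d = j ∨ d = G.al j := by
    intro d
    rw [mem_insert, mem_singleton]
  have hS : ({j, G.al j} : Finset D) ⊆ G.ds := by
    intro d hd
    rcases (hmemS d).1 hd with rfl | rfl
    · exact hj
    · exact haj'
  have hal : ∀ d ∈ ({j, G.al j} : Finset D), G.al d ∈ ({j, G.al j} : Finset D) := by
    intro d hd
    rcases (hmemS d).1 hd with rfl | rfl
    · exact (hmemS _).2 (Or.inr rfl)
    · exact (hmemS _).2 (Or.inl haa)
  have hk := hW.kill hS hal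
  obtain ⟨fr', f1, f2, f3, f4, f5, f6⟩ := hI.absorb_class hC hj hx hw
  refine h.no_step (z' := fun d => kz z {j, G.al j} d + a d)
    (t' := fun v => kt G z t {j, G.al j} v + b v) (fr' := fr')
    { wt :=
        { z0 := ?_
          t0 := ?_
          sym := ?_
          deg := ?_
          cut := ?_ }
      supp := ?_
      sub := f1
      ne := f2
      clo := f3
      unit := ?_
      kill := ?_
      star := f6
      tau := ?_ }
  · intro d hd
    show 0 ≤ kz z {j, G.al j} d + a d
    unfold kz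
    by_cases hdS : d ∈ ({j, G.al j} : Finset D)
    · rw [if_pos hdS]
      rcases (hmemS d).1 hdS with rfl | rfl
      · rw [haj, add_zero]
      · rw [haal, add_zero]
    · rw [if_neg hdS]
      exact hz d hd
  · intro v hv
    show 0 ≤ kt G z t {j, G.al j} v + b v
    rw [kt_pair hj hzj hzaj]
    exact hb v hv
  · intro d hd
    show kz z {j, G.al j} (G.al d) + a (G.al d) = kz z {j, G.al j} d + a d
    rw [hk.sym d hd, hsym d hd]
  · intro v hv
    show ∑ d ∈ G.st v, (kz z {j, G.al j} d + a d) + (kt G z t {j, G.al j} v + b v) = 3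
    rw [sum_add_distrib]
    have h1 := hk.deg v hv
    have h2 := hdeg v hv
    linarith
  · intro X hX ho
    have h1 := val_add G (kz z {j, G.al j}) a (kt G z t {j, G.al j}) b 1 X
    simp only [one_mul] at h1
    rw [h1, kill_val hW hS hal hX, pert_val a b hdeg hX, ed_pair hj hzj hzaj]
    have h2 := hcon X hX ho
    linarith
  · intro d hd hp
    rcases (hW.z0 d hd).lt_or_eq with h1 | h1
    · exact h1
    · exfalso
      have h2 : a d = 0 := by
        by_contra h3
        exact (mem_sd.1 (ha0 d h3)).2.1 h1.symm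
      simp only [h2, add_zero] at hp
      unfold kz at hp
      rw [← h1] at hp
      simp at hp
  · intro d hd hp
    show kz z {j, G.al j} d + a d = 1
    have h1 : d ∉ ({j, G.al j} : Finset D) := by
      intro hdS
      rcases (hmemS d).1 hdS with rfl | rfl
      · exact disjoint_left.1 f4 hp hx
      · exact hw (f1 hp)
    have h2 : a d = 0 := by
      by_contra h3
      exact (mem_sd.1 (ha0 d h3)).2.2.1 (mem_sdiff.2 ⟨f1 hp, disjoint_left.1 f4 hp⟩)
    unfold kz
    rw [if_neg h1, h2, add_zero]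
    exact hF.unit d hd (f1 hp)
  · intro X hX hev hn
    refine ⟨j, f5 X hX hev hn, ?_⟩
    show kz z {j, G.al j} j + a j = 0
    unfold kz
    rw [if_pos ((hmemS j).2 (Or.inl rfl)), haj, add_zero]
  · show ∑ v ∈ G.vs, (kt G z t {j, G.al j} v + b v) < 6
    rw [sum_add_distrib, kill_tau hW hS hal, sum_pair hne, hzj, hzaj]
    linarith

end MG

end RH
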