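import Pool.Agent.Lib.RH.T5Int
import Pool.Agent.Lib.RH.Res

/-! Minimal counterexamples in normal form with more than 4 tokens, part B: exactly 5 tokens, values
are integers, odd sets have value at least 4, even sets at least 2, parity, half edges exist. -/

set_option autoImplicit false

namespace RH

open Finset Classical

namespace MG

variable {V D : Type*} {G : MG V D} {z z' : D → ℝ} {t t' : V → ℝ} {fr : Finset V} {F : Finset D}
variable {jm sx : Finset V} {ep : V → ℕ} {m : ℕ} {M : Finset D}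

/-- a minimal counterexample in weak normal form is an `N5`, if the nontrivial tight sets are `Dig` sets
or there is a vertex with half of the tokens (`Cap`, `Atom`) -/
theorem MCS.toN5 (h : G.MCS z t fr F jm sx ep m)
    (nt : ∀ z' t', G.Alt z fr z' t' → ∀ W ⊆ G.vs, Odd W.card → G.val z' t' W = 3 → 3 ≤ W.card →
      3 ≤ (G.vs \ W).card → (∃ x p q, G.Dig z' t' fr W x p q) ∨
        ∃ v ∈ G.vs, 2 * t' v = ∑ w ∈ G.vs, t' w)
    (opt : ∀ z'' t'', G.Alt z fr z'' t'' → ∑ v ∈ G.vs, t v ≤ ∑ v ∈ G.vs, t'' v)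
    (nf : G.NFw z t fr) (tau : 4 < ∑ v ∈ G.vs, t v) : G.N5 z t fr F jm sx ep m where
  mc := h
  nt := fun z' t' ha W hW ho h3 h1 h2 => by
    rcases nt z' t' ha W hW ho h3 h1 h2 with h4 | ⟨v, hv, h4⟩
    · exact h4
    · exact absurd h4 ((h.alt ha).1.t_lt (lt_of_lt_of_le tau (opt z' t' ha)) hv).ne
  opt := opt
  nf := fun a b hab h0 _ => nf a b hab h0 (fun v hv h2 => absurd h2 (h.t_lt tau hv).ne)
    (Or.inr fun _ hv => (h.t_lt tau hv).ne)
  tau := tau

/-- sum of a symmetric integer function over a set of darts without fixed edge -/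
private theorem even_inv {S : Finset D} (hS : S ⊆ G.ds) (hcl : ∀ d ∈ S, G.al d ∈ S) (f : D → ℤ)
    (hf : ∀ d ∈ S, f (G.al d) = f d) : Even (∑ d ∈ S, f d) := by
  have h1 : ∑ d ∈ S, ((f d : ℤ) : ZMod 2) = 0 := by
    refine sum_involution (fun d _ => G.al d) ?_ ?_ ?_ ?_
    · intro d hd
      rw [hf d hd]
      exact CharTwo.add_self_eq_zero _
    · intro d hd _ he
      exact G.noloop d (hS hd) (by rw [he])
    · intro d hd
      exact hcl d hd
    · intro d hd
      exact G.al_al d (hS hd)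
  rw [← Int.cast_sum] at h1
  exact (ZMod.intCast_zmod_eq_zero_iff_dvd _ 2).1 h1 |>.elim fun k hk => ⟨k, by
    push_cast at hk
    omega⟩

/-- the weight of an edge which is not a half edge -/
theorem N5.z_int (_h : G.N5 z t fr F jm sx ep m) {d : D} (hd : d ∈ G.ds) (hn : d ∉ G.hd z) :
    ∃ k : ℤ, z d = k := by
  by_contra h1
  exact hn (mem_hd.2 ⟨hd, h1⟩)

/-- an edge with nonzero weight has weight at least `1 / 2` -/
theorem N5.z_half (h : G.N5 z t fr F jm sx ep m) {d : D} (hd : d ∈ G.ds) (h0 : z d ≠ 0) :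
    1 / 2 ≤ z d := by
  by_cases h1 : d ∈ G.hd z
  · obtain ⟨k, hk⟩ := h.hd_half h1
    rw [hk]
    have : (0 : ℝ) ≤ k := Nat.cast_nonneg k
    linarith
  · obtain ⟨k, hk⟩ := h.z_int hd h1
    have h2 : 0 < z d := lt_of_le_of_ne (h.mc.inst.wt.z0 d hd) (Ne.symm h0)
    rw [hk] at h2 ⊢
    have h3 : (0 : ℤ) < k := by exact_mod_cast h2
    have h5 : (1 : ℤ) ≤ k := by omega
    have h4 : (1 : ℝ) ≤ k := by exact_mod_cast h5
    linarith

/-- the sum of the weights inside a set -/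
theorem N5.ed_sum_par (h : G.N5 z t fr F jm sx ep m) (X : Finset V) :
    ∃ q : ℤ, ∑ d ∈ G.ed X X, z d =
      2 * (q : ℝ) + (((G.ed X X).filter fun d => d ∈ G.hd z).card / 2 : ℕ) ∧
      Even ((G.ed X X).filter fun d => d ∈ G.hd z).card := by
  set S : Finset D := G.ed X X with hS
  have hsub : S ⊆ G.ds := fun d hd => (mem_ed.1 hd).1
  have hal : ∀ d ∈ S, G.al d ∈ S := by
    intro d hd
    obtain ⟨h1, h2, h3⟩ := mem_ed.1 hd
    exact mem_ed.2 ⟨G.al_mem d h1, h3, by rw [G.al_al d h1]; exact h2⟩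
  set A : Finset D := S.filter fun d => d ∈ G.hd z with hA
  have hAal : ∀ d ∈ A, G.al d ∈ A := by
    intro d hd
    obtain ⟨h1, h2⟩ := mem_filter.1 hd
    exact mem_filter.2 ⟨hal d h1, (h.hd_out h2).2.1⟩
  have hAsub : A ⊆ G.ds := fun d hd => hsub (mem_filter.1 hd).1
  -- integer parts
  set f : D → ℤ := fun d => ⌊z d⌋ with hf
  have hfs : ∀ d ∈ S, f (G.al d) = f d := by
    intro d hd
    show ⌊z (G.al d)⌋ = ⌊z d⌋
    rw [h.mc.inst.wt.sym d (hsub hd)]
  obtain ⟨q, hq⟩ := even_inv hsub hal f hfs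
  have hAe : Even A.card := by
    have h1 := even_inv hAsub hAal (fun _ => 1) (fun _ _ => rfl)
    rw [sum_const, nsmul_eq_mul, mul_one] at h1
    exact_mod_cast h1
  have hz : ∀ d ∈ S, z d = (f d : ℝ) + if d ∈ G.hd z then 1 / 2 else 0 := by
    intro d hd
    by_cases h1 : d ∈ G.hd z
    · obtain ⟨k, hk⟩ := h.hd_half h1
      rw [if_pos h1]
      have h2 : ⌊z d⌋ = (k : ℤ) := by
        rw [Int.floor_eq_iff, hk]
        push_cast
        constructor <;> linarith
      show z d = ((⌊z d⌋ : ℤ) : ℝ) + 1 / 2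
      rw [h2, hk]
      push_cast
      ring
    · obtain ⟨k, hk⟩ := h.z_int (hsub hd) h1
      rw [if_neg h1, add_zero]
      show z d = ((⌊z d⌋ : ℤ) : ℝ)
      rw [hk, Int.floor_intCast]
  refine ⟨q, ?_, hAe⟩
  rw [sum_congr rfl hz, sum_add_distrib, ← sum_filter, sum_const, nsmul_eq_mul, ← Int.cast_sum, hq]
  obtain ⟨r, hr⟩ := hAe
  have h3 : (A.card / 2 : ℕ) = r := by omega
  rw [h3]
  have h4 : ((filter (fun d => d ∈ G.hd z) S).card : ℝ) = r + r := by
    rw [← hA, hr]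
    push_cast
    ring
  rw [h4]
  push_cast
  ring

/-- exactly 5 tokens -/
theorem N5.tau5 (h : G.N5 z t fr F jm sx ep m) : ∑ v ∈ G.vs, t v = 5 := by
  have h1 : ∃ k : ℕ, ∑ v ∈ G.vs, t v = k := by
    choose! f hf using fun v (hv : v ∈ G.vs) => h.tint hv
    refine ⟨∑ v ∈ G.vs, f v, ?_⟩
    rw [sum_congr rfl hf]
    push_cast
    rfl
  obtain ⟨k, hk⟩ := h1
  have h2 := h.tau
  have h3 := h.mc.inst.tau
  rw [hk] at h2 h3 ⊢
  have h4 : 4 < k := by exact_mod_cast h2
  have h5 : k < 6 := by exact_mod_cast h3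
  have h6 : k = 5 := by omega
  rw [h6]
  norm_num

/-- values are integers -/
theorem N5.val_int (h : G.N5 z t fr F jm sx ep m) {X : Finset V} (hX : X ⊆ G.vs) :
    ∃ k : ℕ, G.val z t X = k := by
  obtain ⟨q, hq, -⟩ := h.ed_sum_par X
  have h1 := h.mc.inst.wt.val_eq hX
  have h2 := h.mc.inst.wt.val_nonneg hX
  rw [hq] at h1
  generalize ((G.ed X X).filter fun d => d ∈ G.hd z).card / 2 = r at h1
  have h3 : G.val z t X = ((3 * (X.card : ℤ) - (2 * q + (r : ℤ)) : ℤ) : ℝ) := by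
    rw [h1]
    push_cast
    ring
  rw [h3] at h2
  have h4 : (0 : ℤ) ≤ 3 * (X.card : ℤ) - (2 * q + (r : ℤ)) := by exact_mod_cast h2
  obtain ⟨k, hk⟩ := Int.eq_ofNat_of_zero_le h4
  refine ⟨k, ?_⟩
  rw [h3, hk]
  exact Int.cast_natCast k

/-- at most two tokens at a vertex -/
theorem N5.t_le (h : G.N5 z t fr F jm sx ep m) {v : V} (hv : v ∈ G.vs) : t v ≤ 2 := by
  have h1 := h.mc.t_lt h.tau hv
  rw [h.tau5] at h1
  obtain ⟨k, hk⟩ := h.tint hv
  rw [hk] at h1 ⊢
  have h2 : 2 * k < 5 := by exact_mod_cast h1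
  have h3 : k ≤ 2 := by omega
  exact_mod_cast h3

/-- odd sets which are not single vertices have value at least 4, or they are `Dig` sets -/
theorem N5.v4 (h : G.N5 z t fr F jm sx ep m) {X : Finset V} (hX : X ⊆ G.vs)
    (ho : Odd X.card) (h1 : X.card ≠ 1) :
    4 ≤ G.val z t X ∨ ∃ x p q, G.Dig z t fr X x p q := by
  obtain ⟨k, hk⟩ := h.val_int hX
  have h3 := h.mc.inst.wt.cut X hX ho
  by_contra hno
  rw [not_or, not_le] at hno
  obtain ⟨h4, hno⟩ := hno
  have h5 : G.val z t X = 3 := by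
    rw [hk] at h3 h4 ⊢
    have h6 : 3 ≤ k := by exact_mod_cast h3
    have h7 : k < 4 := by exact_mod_cast h4
    have h8 : k = 3 := by omega
    rw [h8]
    norm_num
  rcases h.mc.inst.wt.tight_cases h.mc.inst.even hX ho h5 with ⟨v, -, rfl⟩ | ⟨v, hv, h6, -⟩ | ⟨h6, h7⟩
  · exact h1 (card_singleton v)
  · exact absurd h6 (h.mc.t_lt h.tau hv).ne
  · exact hno (h.nt z t h.mc.inst.alt_refl X hX ho h5 h6 h7)

theorem Dig.card {W : Finset V} {x p q : V} (h : G.Dig z t fr W x p q) : W.card = 3 := by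
  rw [h.W, card_insert_of_notMem, card_pair h.pq]
  rw [mem_insert, mem_singleton, not_or]
  exact ⟨fun h3 => h.pf (h3 ▸ h.xf), fun h3 => h.qf (h3 ▸ h.xf)⟩

/-- a `Dig` set inside `U` is a `Dig` set of the restriction to `U` -/
theorem Dig.res {U X : Finset V} {x p q : V} (h : G.Dig z t fr X x p q) (hX : X ⊆ U) :
    (G.res U).Dig z (G.tres z t U) fr X x p q where
  xf := h.xf
  pf := h.pf
  qf := h.qf
  pq := h.pq
  W := h.W
  xp := by
    obtain ⟨d, h1, h2, h3⟩ := h.xp
    exact ⟨d, mem_filter.2 ⟨h1, h2 ▸ hX (by rw [h.W]; simp), h3 ▸ hX (by rw [h.W]; simp)⟩, h2, h3⟩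
  xq := fun d hd => h.xq d (mem_filter.1 hd).1
  nb := fun d hd => h.nb d (mem_filter.1 hd).1
  tp := by
    unfold tres
    rw [h.tp, zero_add]
    refine sum_eq_zero fun d hd => ?_
    obtain ⟨h6, h7⟩ := mem_filter.1 hd
    obtain ⟨h8, h9⟩ := mem_st.1 h6
    by_contra h10
    rcases h.nb d h8 h9 h10 with h11 | h11
    · exact h7 (hX (by rw [h11, h.W]; simp))
    · exact h7 (hX (by rw [h11, h.W]; simp))

/-- odd sets with at least 5 vertices have value at least 4 -/
theorem N5.v4' (h : G.N5 z t fr F jm sx ep m) {X : Finset V} (hX : X ⊆ G.vs)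
    (ho : Odd X.card) (h1 : 5 ≤ X.card) : 4 ≤ G.val z t X := by
  rcases h.v4 hX ho (by omega) with h2 | ⟨x, p, q, h2⟩
  · exact h2
  · have := h2.card
    omega

/-- the pairs inside a `Dig` set have value at least 2 -/
theorem Dig.two_le {W X : Finset V} {x p q : V} (h : G.Dig z t fr W x p q) (hF : G.FrS z fr F jm)
    (hw : G.Wt z t) (hW : W ⊆ G.vs) (hX : X ⊆ W) (h2 : X.card = 2) : 2 ≤ G.val z t X := by
  have hpW : p ∈ W := by rw [h.W]; simp
  have hxW : x ∈ W := by rw [h.W]; simp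
  have hall : ∀ v ∈ W, v = x ∨ v = p ∨ v = q := by
    intro v hv
    rw [h.W] at hv
    simpa using hv
  by_cases hx : x ∈ X
  · -- the two `F`-darts at `x` leave `X`
    have h3 : ((F.filter fun d => G.pi d = x)) ⊆ G.bd X := by
      intro d hd
      obtain ⟨h4, h5⟩ := mem_filter.1 hd
      refine mem_bd.2 ⟨hF.Fsub h4, h5 ▸ hx, fun h6 => ?_⟩
      have h7 := hF.Ffr _ (hF.Fal d h4)
      rcases hall _ (hX h6) with h8 | h8 | h8
      · exact G.noloop d (hF.Fsub h4) (h8.trans h5.symm)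
      · exact h.pf (h8 ▸ h7)
      · exact h.qf (h8 ▸ h7)
    have h4 : ∑ d ∈ F.filter (fun d => G.pi d = x), z d = 2 := by
      have h5 : ∑ d ∈ F.filter (fun d => G.pi d = x), z d =
          ∑ _d ∈ F.filter (fun d => G.pi d = x), (1 : ℝ) :=
        sum_congr rfl fun d hd => hF.unit d (hF.Fsub (mem_filter.1 hd).1)
          ((mem_filter.1 hd).2 ▸ h.xf)
      rw [h5, sum_const, hF.two x h.xf]
      norm_num
    have h5 : ∑ d ∈ F.filter (fun d => G.pi d = x), z d ≤ ∑ d ∈ G.bd X, z d :=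
      sum_le_sum_of_subset_of_nonneg h3 fun d hd _ => hw.z0 d (mem_bd.1 hd).1
    have h6 : 0 ≤ ∑ v ∈ X, t v := sum_nonneg fun v hv => hw.t0 v (hW (hX hv))
    unfold val
    linarith
  · -- the J-edge of `x` is not inside `X`
    obtain ⟨j, hj, hjx, hjp⟩ := h.xp
    have hjz := hF.unit j hj (hjx ▸ h.xf)
    have hne : j ≠ G.al j := fun he => G.noloop j hj (congrArg G.pi he).symm
    have h3 := h.ed (a := z) hw.sym (fun _ _ h0 => h0)
    have h4 := hw.deg p (hW hpW)
    rw [h.tp, add_zero] at h4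
    rw [h4] at h3
    have h5 : ∑ d ∈ G.ed X X, z d + ∑ d ∈ ({j, G.al j} : Finset D), z d ≤
        ∑ d ∈ G.ed W W, z d := by
      rw [← sum_union]
      · refine sum_le_sum_of_subset_of_nonneg ?_ fun d hd _ => hw.z0 d (mem_ed.1 hd).1
        intro d hd
        rcases mem_union.1 hd with h6 | h6
        · obtain ⟨h7, h8, h9⟩ := mem_ed.1 h6
          exact mem_ed.2 ⟨h7, hX h8, hX h9⟩
        · rw [mem_insert, mem_singleton] at h6
          rcases h6 with rfl | rfl
          · exact mem_ed.2 ⟨hj, hjx ▸ hxW, hjp ▸ hpW⟩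
          · exact mem_ed.2 ⟨G.al_mem j hj, hjp ▸ hpW, by rw [G.al_al j hj, hjx]; exact hxW⟩
      · rw [disjoint_left]
        intro d h6 h7
        obtain ⟨-, h8, h9⟩ := mem_ed.1 h6
        rw [mem_insert, mem_singleton] at h7
        rcases h7 with rfl | rfl
        · exact hx (hjx ▸ h8)
        · rw [G.al_al j hj, hjx] at h9
          exact hx h9
    rw [sum_pair hne, hw.sym j hj, hjz, h3] at h5
    rw [hw.val_eq (hX.trans hW), h2]
    push_cast
    linarith

/-- even sets have value at least 2 -/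
theorem N5.v2 (h : G.N5 z t fr F jm sx ep m) {X : Finset V} (hX : X ⊆ G.vs)
    (he : Even X.card) (hne : X.Nonempty) (hne' : X ≠ G.vs) : 2 ≤ G.val z t X := by
  obtain ⟨k, hk⟩ := h.val_int hX
  by_contra h4
  rw [not_le] at h4
  have h5 : G.val z t X ≤ 1 := by
    rw [hk] at h4 ⊢
    have h7 : k < 2 := by exact_mod_cast h4
    have h8 : k ≤ 1 := by omega
    exact_mod_cast h8
  obtain ⟨d, hd, hd0⟩ := h.mc.conn hX hne hne'
  obtain ⟨hds, hp, hq⟩ := mem_bd.1 hd
  have hal := G.al_mem d hds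
  set e : V := G.pi (G.al d) with he'
  have hevs : e ∈ G.vs := G.pi_mem _ hal
  have h6 := h.mc.inst.wt.submod hX (singleton_subset_iff.2 hevs)
  have e1 : X ∩ {e} = ∅ := by
    rw [eq_empty_iff_forall_notMem]
    intro v hv
    obtain ⟨h7, h8⟩ := mem_inter.1 hv
    rw [mem_singleton] at h8
    exact hq (h8 ▸ h7)
  have e2 : G.val z t ∅ = 0 := by
    rw [h.mc.inst.wt.val_eq (empty_subset _)]
    have e4 : G.ed (∅ : Finset V) ∅ = ∅ := by
      rw [eq_empty_iff_forall_notMem]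
      intro c hc
      exact notMem_empty _ (mem_ed.1 hc).2.1
    rw [e4, card_empty, sum_empty]
    norm_num
  have h7 : z d ≤ ∑ c ∈ G.ed (X \ {e}) ({e} \ X), z c := by
    refine single_le_sum (f := z) (fun c hc => h.mc.inst.wt.z0 c (mem_ed.1 hc).1) ?_
    refine mem_ed.2 ⟨hds, mem_sdiff.2 ⟨hp, fun h8 => ?_⟩, mem_sdiff.2 ⟨mem_singleton_self _, hq⟩⟩
    rw [mem_singleton] at h8
    exact G.noloop d hds h8.symm
  rw [e1, e2, h.mc.inst.wt.val_single hevs] at h6
  have h8 := h.z_half hds hd0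
  have hcard : (X ∪ {e}).card = X.card + 1 := by
    rw [card_union_of_disjoint, card_singleton]
    rw [disjoint_singleton_right]
    exact hq
  have hXe : X ∪ {e} ⊆ G.vs := union_subset hX (singleton_subset_iff.2 hevs)
  rcases h.v4 (X := X ∪ {e}) hXe (by rw [hcard]; exact he.add_one) (by
      rw [hcard]
      have := card_pos.2 hne
      omega) with h9 | ⟨x, p, q, h9⟩
  · linarith
  · have h10 := h9.two_le h.mc.inst.fresh h.mc.inst.wt hXe subset_union_left (by
      have := h9.card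
      omega)
    linarith

/-- parity: the value is `|X|` plus the number of half edges inside, mod 2 -/
theorem N5.par (h : G.N5 z t fr F jm sx ep m) {X : Finset V} (hX : X ⊆ G.vs) {k : ℕ}
    (hk : G.val z t X = k) :
    Even (k + X.card + ((G.ed X X).filter fun d => d ∈ G.hd z).card / 2) := by
  obtain ⟨q, hq, -⟩ := h.ed_sum_par X
  have h1 := h.mc.inst.wt.val_eq hX
  rw [hq, hk] at h1
  set r : ℕ := ((G.ed X X).filter fun d => d ∈ G.hd z).card / 2 with hr
  have h2 : (k : ℤ) = 3 * (X.card : ℤ) - (2 * q + (r : ℤ)) := by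
    have h3 : ((k : ℤ) : ℝ) = ((3 * (X.card : ℤ) - (2 * q + (r : ℤ)) : ℤ) : ℝ) := by
      push_cast
      linarith
    exact_mod_cast h3
  rw [Nat.even_iff]
  omega

/-- there are half edges -/
theorem N5.hd_ne (h : G.N5 z t fr F jm sx ep m) : (G.hd z).Nonempty := by
  by_contra h0
  rw [not_nonempty_iff_eq_empty] at h0
  have h1 : G.val z t G.vs = ((5 : ℕ) : ℝ) := by
    unfold val
    have h2 : G.bd G.vs = ∅ := by
      rw [eq_empty_iff_forall_notMem]
      intro d hd
      obtain ⟨h3, -, h4⟩ := mem_bd.1 hd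
      exact h4 (G.pi_mem _ (G.al_mem d h3))
    rw [h2, sum_empty, h.tau5]
    norm_num
  have h2 := h.par (Subset.refl G.vs) h1
  rw [h0] at h2
  have h3 : ((G.ed G.vs G.vs).filter fun d => d ∈ (∅ : Finset D)) = ∅ := by
    rw [eq_empty_iff_forall_notMem]
    intro d hd
    exact notMem_empty _ (mem_filter.1 hd).2
  rw [h3, card_empty, Nat.zero_div] at h2
  have h4 := h.mc.inst.even
  rw [Nat.even_iff] at h2 h4
  omega

end MG

end RH
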