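import Pool.Agent.Lib.RH.T5PayA
import Pool.Agent.Lib.RH.T5IntB

/-! Payments, part B: every vertex of a component with half darts pays; uniqueness; star closure. -/

set_option autoImplicit false

namespace RH

open Finset Classical

namespace MG

variable {V D : Type*} {G : MG V D} {z z' : D → ℝ} {t t' : V → ℝ} {fr : Finset V} {F S : Finset D}
variable {jm sx : Finset V} {ep : V → ℕ} {m : ℕ} {M : Finset D}

/-- shortest walks to a set of vertices: every weight is at most 1, no dart starts in the set -/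
theorem short_set (hS : G.Sy S) {T : Finset V} {w u : V} (hu : u ∈ T) {l : List D}
    (hl : G.IsW S w l u)
    (hmin : ∀ u' ∈ T, ∀ l', G.IsW S w l' u' → l.length ≤ l'.length) :
    (∀ e ∈ G.ds, |G.wa l e| ≤ 1) ∧ ∀ e ∈ l, G.pi e ∉ T := by
  induction l generalizing w with
  | nil =>
    refine ⟨fun e _ => ?_, fun e he => by simp at he⟩
    rw [wa_nil, abs_zero]
    exact zero_le_one
  | cons d l ih =>
    have hmin' : ∀ u' ∈ T, ∀ l', G.IsW S (G.pi (G.al d)) l' u' → l.length ≤ l'.length := by
      intro u' hu' l' hl'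
      have h1 := hmin u' hu' (d :: l') ⟨hl.1, hl.2.1, hl'⟩
      simpa using h1
    obtain ⟨h1, h2⟩ := ih hl.2.2 hmin'
    have hlds : ∀ e ∈ l, e ∈ G.ds := fun e he => hS.sub (hl.2.2.mem e he)
    have hd : d ∈ G.ds := hS.sub hl.1
    -- the tail does not come back to `w`
    have h3 : d ∉ l := by
      intro h
      obtain ⟨A, B, rfl⟩ := List.append_of_mem h
      obtain ⟨y, _, h5⟩ := hl.2.2.split
      have h6 : G.IsW S w (d :: B) u := ⟨h5.1, hl.2.1, h5.2.2⟩
      have h7 := hmin u hu _ h6
      simp only [List.length_append, List.length_cons] at h7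
      omega
    have h4 : G.al d ∉ l := by
      intro h
      obtain ⟨A, B, rfl⟩ := List.append_of_mem h
      obtain ⟨y, _, h5⟩ := hl.2.2.split
      have h6 : G.IsW S w B u := by
        have := h5.2.2
        rwa [G.al_al _ hd, hl.2.1] at this
      have h7 := hmin u hu _ h6
      simp only [List.length_append, List.length_cons] at h7
      omega
    have h0 : G.wa l d = 0 := wa_zero' hlds h3 h4
    have h0' : G.wa l (G.al d) = 0 := wa_zero' hlds h4 (by rwa [G.al_al _ hd])
    have hne : d ≠ G.al d := fun h => G.noloop d hd (congrArg G.pi h).symm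
    refine ⟨fun e he => ?_, fun e he => ?_⟩
    · rw [wa_cons]
      by_cases k1 : e = d
      · rw [if_pos k1, if_neg (fun k => hne (k1.symm.trans k)), k1, h0]
        norm_num
      · by_cases k2 : e = G.al d
        · rw [if_neg k1, if_pos k2, k2, h0']
          norm_num
        · rw [if_neg k1, if_neg k2]
          have := h1 e he
          rw [abs_le] at this ⊢
          constructor <;> linarith [this.1, this.2]
    · rcases List.mem_cons.1 he with k | k
      · intro hT
        have h5 : G.IsW S w [] w := rfl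
        rw [k, hl.2.1] at hT
        have h7 := hmin w hT [] h5
        simp at h7
      · exact h2 e k

/-- every vertex of a component with half darts pays (shortest walk to the half circuits, then
around) -/
theorem N5.exists_pay (h : G.N5 z t fr F jm sx ep m) {w u : V} (hu : u ∈ G.hv z) {l : List D}
    (hl : G.IsW (G.sd z fr) w l u) : ∃ g, G.Pay z fr w g := by
  have hSy := h.mc.inst.wt.sy_sd fr
  -- shortest walk
  have hex : ∃ n, ∃ u' ∈ G.hv z, ∃ l', G.IsW (G.sd z fr) w l' u' ∧ l'.length = n :=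
    ⟨_, u, hu, l, hl, rfl⟩
  obtain ⟨u1, hu1, l1, hl1, hn⟩ := Nat.find_spec hex
  have hmin : ∀ u' ∈ G.hv z, ∀ l', G.IsW (G.sd z fr) w l' u' → l1.length ≤ l'.length := by
    intro u' hu' l' hl'
    rw [hn]
    exact Nat.find_min' hex ⟨u', hu', l', hl', rfl⟩
  obtain ⟨h1, h2⟩ := short_set hSy hu1 hl1 hmin
  obtain ⟨C, hC1, hC2, _⟩ := h.exists_hcirc hu1
  obtain ⟨g, hg, hg1, hg2⟩ := h.exists_payH hC2 hC1
  have hhd : ∀ e ∈ G.hd z, G.wa l1 e = 0 := by
    intro e he
    have he' := (mem_hd.1 he).1
    refine wa_zero' (fun d hd => hSy.sub (hl1.mem d hd)) (fun k => ?_) fun k => ?_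
    · exact h2 e k (mem_hv.2 ⟨e, he, rfl⟩)
    · exact h2 _ k (mem_hv.2 ⟨_, (h.hd_out he).2.1, rfl⟩)
  refine ⟨fun d => G.wa l1 d + (-1) ^ l1.length * g d, ⟨?_, ?_, ?_, ?_⟩⟩
  · intro d hd
    show G.wa l1 (G.al d) + _ * g (G.al d) = _
    rw [wa_sym hSy.sub hl1.mem hd, hg.sym d hd]
  · intro d hd
    show G.wa l1 d + _ * g d = 0
    rw [wa_zero hSy hl1.mem hd, hg.zero d hd]
    ring
  · intro v hv
    rw [sum_add_distrib, ← mul_sum, hg.deg v hv]
    have h3 := wa_deg hSy hl1 v
    unfold wb at h3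
    linarith
  · intro d hd
    have hz0 := h.mc.inst.wt.z0 d hd
    have habs : |(-1 : ℝ) ^ l1.length| = 1 := by
      rw [abs_pow, abs_neg, abs_one, one_pow]
    show |G.wa l1 d + _ * g d| ≤ z d
    by_cases k1 : d ∈ G.hd z
    · rw [hhd d k1, zero_add, abs_mul, habs, one_mul]
      exact hg.le d hd
    · have k2 : g d = 0 := by
        by_contra k
        exact k1 (hg1 d k).1
      rw [k2, mul_zero, add_zero]
      by_cases k3 : d ∈ G.sd z fr
      · refine (h1 d hd).trans ?_
        have k4 : ∃ k : ℤ, z d = k := by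
          by_contra k
          exact k1 (mem_hd.2 ⟨hd, k⟩)
        obtain ⟨k, hk⟩ := k4
        have k5 : z d ≠ 0 := (mem_sd.1 k3).2.1
        have k6 : (0 : ℝ) < k := by
          rw [← hk]
          exact lt_of_le_of_ne hz0 (Ne.symm k5)
        have k7 : (0 : ℤ) < k := by exact_mod_cast k6
        have k8 : (1 : ℤ) ≤ k := k7
        rw [hk]
        exact_mod_cast k8
      · rw [wa_zero hSy hl1.mem k3, abs_zero]
        exact hz0

/-- a payment is a direction -/
theorem Pay.dir {w : V} {g : D → ℝ} (hg : G.Pay z fr w g) :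
    G.Dir z fr g (fun v => if v = w then -1 else 0) where
  sym := hg.sym
  fr0 := fun d _ hf => hg.zero d fun k => (mem_sd.1 k).2.2.1 hf
  z0 := fun d _ hz => hg.zero d fun k => (mem_sd.1 k).2.1 hz
  deg := fun v hv => by
    rw [hg.deg v hv]
    by_cases k : v = w
    · rw [if_pos k, if_pos k]; norm_num
    · rw [if_neg k, if_neg k]; norm_num

/-- a vertex which pays has no tokens -/
theorem N5.pay_tok (h : G.N5 z t fr F jm sx ep m) {w : V} (hw : w ∈ G.vs) {g : D → ℝ}
    (hg : G.Pay z fr w g) : t w = 0 := by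
  by_contra h0
  have h1 := h.nf g _ hg.dir (fun v _ hv => by
    by_cases k : v = w
    · rw [k] at hv; exact absurd hv h0
    · rw [if_neg k]) (by
    rw [Finset.sum_ite_eq' G.vs w fun _ => (-1 : ℝ), if_pos hw]
    norm_num)
  have h2 := hg.deg w hw
  rw [if_pos rfl, sum_eq_zero fun d hd => h1 d (mem_st.1 hd).1] at h2
  exact zero_ne_one h2

/-- in such a component there are no tokens -/
theorem N5.no_tok (h : G.N5 z t fr F jm sx ep m) {w u : V} (hw : w ∈ G.vs) (hu : u ∈ G.hv z)
    {l : List D} (hl : G.IsW (G.sd z fr) w l u) : t w = 0 := by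
  obtain ⟨g, hg⟩ := h.exists_pay hu hl
  exact h.pay_tok hw hg

/-- two payments at the same vertex outside `fr` are equal (`N5.nf`) -/
theorem N5.pay_unique (h : G.N5 z t fr F jm sx ep m) {w : V} {g g' : D → ℝ}
    (hg : G.Pay z fr w g) (hg' : G.Pay z fr w g') : ∀ d ∈ G.ds, g d = g' d := by
  have h1 : G.Dir z fr (fun d => g d - g' d) (fun _ => 0) := by
    refine ⟨fun d hd => ?_, fun d hd hf => ?_, fun d hd hz => ?_, fun v hv => ?_⟩
    · show g (G.al d) - g' (G.al d) = g d - g' d
      rw [hg.sym d hd, hg'.sym d hd]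
    · show g d - g' d = 0
      rw [hg.dir.fr0 d hd hf, hg'.dir.fr0 d hd hf, sub_zero]
    · show g d - g' d = 0
      rw [hg.dir.z0 d hd hz, hg'.dir.z0 d hd hz, sub_zero]
    · rw [sum_sub_distrib, hg.deg v hv, hg'.deg v hv]
      ring
  intro d hd
  have h2 := h.nf _ _ h1 (fun _ _ _ => rfl) (by simp) d hd
  exact sub_eq_zero.1 h2

/-- sum of the vector of an edge over the darts at a vertex -/
theorem sum_edge {e : D} (he : e ∈ G.ds) (v : V) :
    ∑ d ∈ G.st v, (if d = e ∨ d = G.al e then (1 : ℝ) else 0) =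
      (if v = G.pi e then 1 else 0) + if v = G.pi (G.al e) then 1 else 0 := by
  have hne : e ≠ G.al e := fun h => G.noloop e he (congrArg G.pi h).symm
  have h2 : ∀ d, (if d = e ∨ d = G.al e then (1 : ℝ) else 0) =
      (if d = e then (1 : ℝ) else 0) + (if d = G.al e then 1 else 0) := by
    intro d
    by_cases k1 : d = e
    · rw [if_pos (Or.inl k1), if_pos k1, if_neg (fun k2 => hne (k1.symm.trans k2)), add_zero]
    · by_cases k2 : d = G.al e
      · rw [if_pos (Or.inr k2), if_neg k1, if_pos k2, zero_add]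
      · rw [if_neg (not_or.2 ⟨k1, k2⟩), if_neg k1, if_neg k2, zero_add]
  have h3 : e ∈ G.st v ↔ v = G.pi e :=
    ⟨fun k => (mem_st.1 k).2.symm, fun k => mem_st.2 ⟨he, k.symm⟩⟩
  have h4 : G.al e ∈ G.st v ↔ v = G.pi (G.al e) :=
    ⟨fun k => (mem_st.1 k).2.symm, fun k => mem_st.2 ⟨G.al_mem e he, k.symm⟩⟩
  rw [sum_congr rfl fun d _ => h2 d, sum_add_distrib, sum_ite_eq', sum_ite_eq']
  simp only [h3, h4]

/-- payments at neighbours: `g_w + g_w' = ` the vector of the edge `e` -/
theorem N5.pay_nbr (h : G.N5 z t fr F jm sx ep m) {e : D} (he : e ∈ G.sd z fr) {g g' : D → ℝ}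
    (hg : G.Pay z fr (G.pi e) g) (hg' : G.Pay z fr (G.pi (G.al e)) g') :
    ∀ d ∈ G.ds, g d + g' d = if d = e ∨ d = G.al e then 1 else 0 := by
  obtain ⟨he1, he2, he3, he4⟩ := mem_sd.1 he
  have hsy := h.mc.inst.wt.sym
  have h1 : G.Dir z fr (fun d => g d + g' d - if d = e ∨ d = G.al e then 1 else 0)
      (fun _ => 0) := by
    refine ⟨fun d hd => ?_, fun d hd hf => ?_, fun d hd hz => ?_, fun v hv => ?_⟩
    · have k : (G.al d = e ∨ G.al d = G.al e) ↔ (d = e ∨ d = G.al e) := by
        constructor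
        · rintro (k | k)
          · exact Or.inr (by rw [← k, G.al_al d hd])
          · exact Or.inl (by rw [← G.al_al d hd, k, G.al_al e he1])
        · rintro (k | k)
          · exact Or.inr (by rw [k])
          · exact Or.inl (by rw [k, G.al_al e he1])
      show g (G.al d) + g' (G.al d) - _ = g d + g' d - _
      rw [hg.sym d hd, hg'.sym d hd]
      simp only [k]
    · have k : ¬ (d = e ∨ d = G.al e) := by
        rintro (k | k)
        · exact he3 (k ▸ hf)
        · exact he4 (k ▸ hf)
      show g d + g' d - _ = 0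
      rw [hg.dir.fr0 d hd hf, hg'.dir.fr0 d hd hf, if_neg k]
      ring
    · have k : ¬ (d = e ∨ d = G.al e) := by
        rintro (k | k)
        · exact he2 (k ▸ hz)
        · rw [k, hsy e he1] at hz
          exact he2 hz
      show g d + g' d - _ = 0
      rw [hg.dir.z0 d hd hz, hg'.dir.z0 d hd hz, if_neg k]
      ring
    · rw [sum_sub_distrib, sum_add_distrib, hg.deg v hv, hg'.deg v hv, sum_edge he1]
      ring
  intro d hd
  have h2 := h.nf _ _ h1 (fun _ _ _ => rfl) (by simp) d hd
  exact sub_eq_zero.1 h2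

/-- STAR CLOSURE (helper43): follow the direction `-g` (token `+1` at `w`) up to the end; no tight set
may appear before (`N5.nt`), so the value of an odd set is at least 3 at the end -/
theorem N5.star (h : G.N5 z t fr F jm sx ep m) {w : V} (hwf : w ∉ fr) {g : D → ℝ}
    (hg : G.Pay z fr w g) {X : Finset V} (hX : X ⊆ G.vs) (ho : Odd X.card) :
    3 ≤ G.val z t X + ∑ d ∈ G.ed X X, g d := by
  have hw := h.mc.inst.wt
  by_cases hwv : w ∈ G.vs
  swap
  · -- the payment is not at a vertex: a direction without tokens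
    have h1 := h.nf g _ hg.dir (fun v hv _ => by rw [if_neg fun k : v = w => hwv (k ▸ hv)]) (by
      rw [Finset.sum_ite_eq' G.vs w fun _ => (-1 : ℝ), if_neg hwv])
    rw [sum_eq_zero fun d hd => h1 d (mem_ed.1 hd).1, add_zero]
    exact hw.cut X hX ho
  have htau := h.tau5
  have htw := h.pay_tok hwv hg
  have hdir : G.Dir z fr (fun d => -g d) (fun v => if v = w then 1 else 0) := by
    refine ⟨fun d hd => ?_, fun d hd hf => ?_, fun d hd hz => ?_, fun v hv => ?_⟩
    · show -g (G.al d) = -g d
      rw [hg.sym d hd]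
    · show -g d = 0
      rw [hg.dir.fr0 d hd hf, neg_zero]
    · show -g d = 0
      rw [hg.dir.z0 d hd hz, neg_zero]
    · rw [sum_neg_distrib, hg.deg v hv]
      by_cases k : v = w
      · rw [if_pos k]; norm_num
      · rw [if_neg k]; norm_num
  have hsum : ∀ s : ℝ, ∑ v ∈ G.vs, (t v + s * (if v = w then 1 else 0)) = 5 + s := by
    intro s
    rw [sum_add_distrib, htau, ← mul_sum, Finset.sum_ite_eq' G.vs w fun _ => (1 : ℝ), if_pos hwv,
      mul_one]
  have key : ∀ s : ℝ, 0 ≤ s → s < 1 → 3 ≤ G.val z t X + s * ∑ d ∈ G.ed X X, g d := by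
    intro s hs hs1
    have h1 : G.Alt z fr (fun d => z d + s * -g d) (fun v => t v + s * (if v = w then 1 else 0)) := by
      refine h.push hdir hs ?_ ?_ ?_
      · intro v hv
        have := hw.t0 v hv
        split_ifs <;> nlinarith
      · intro v hv
        rw [hsum]
        have h2 := h.mc.t_lt h.tau hv
        rw [htau] at h2
        by_cases k : v = w
        · rw [if_pos k, k, htw]; nlinarith
        · rw [if_neg k]; nlinarith
      · rw [hsum]; linarith
    have h2 := h1.wt.cut X hX ho
    rw [val_add] at h2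
    have h3 := pert_val (G := G) (fun d => -g d) (fun v => if v = w then 1 else 0) hdir.deg hX
    rw [h3, sum_neg_distrib, neg_neg] at h2
    exact h2
  by_contra hlt
  push Not at hlt
  set A := G.val z t X with hA
  set B := ∑ d ∈ G.ed X X, g d with hB
  have hA3 : 3 ≤ A := hw.cut X hX ho
  have hBneg : B < 0 := by linarith
  -- s = (1 + (A - 3) / (-B)) / 2
  have h1 := key ((1 + (A - 3) / (-B)) / 2) (by
    have : 0 ≤ (A - 3) / (-B) := div_nonneg (by linarith) (by linarith)
    linarith) (by
    have : (A - 3) / (-B) < 1 := by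
      rw [div_lt_one (by linarith)]
      linarith
    linarith)
  have h2 : (A - 3) / (-B) * B = -(A - 3) := by
    rw [div_neg, neg_mul, div_mul_cancel₀ _ (ne_of_lt hBneg)]
  nlinarith

/-- upper bound: at most `val - 3`, or `val - 1` if `X` contains the edge `e` at `w` -/
theorem N5.deep (h : G.N5 z t fr F jm sx ep m) {e : D} (he : e ∈ G.sd z fr) {g g' : D → ℝ}
    (hg : G.Pay z fr (G.pi e) g) (hg' : G.Pay z fr (G.pi (G.al e)) g')
    {X : Finset V} (hX : X ⊆ G.vs) (ho : Odd X.card) :
    ∑ d ∈ G.ed X X, g d ≤ G.val z t X - 3 +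
      (if G.pi e ∈ X ∧ G.pi (G.al e) ∈ X then 2 else 0) := by
  obtain ⟨he1, he2, he3, he4⟩ := mem_sd.1 he
  have hne : e ≠ G.al e := fun h => G.noloop e he1 (congrArg G.pi h).symm
  have h1 := h.star he4 hg' hX ho
  have h2 := h.pay_nbr he hg hg'
  have h3 : ∑ d ∈ G.ed X X, g d + ∑ d ∈ G.ed X X, g' d =
      if G.pi e ∈ X ∧ G.pi (G.al e) ∈ X then 2 else 0 := by
    rw [← sum_add_distrib, sum_congr rfl fun d hd => h2 d (mem_ed.1 hd).1]
    rw [← Finset.sum_filter]
    rw [Finset.sum_const, nsmul_eq_mul, mul_one]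
    by_cases k : G.pi e ∈ X ∧ G.pi (G.al e) ∈ X
    · rw [if_pos k]
      have h4 : ((G.ed X X).filter fun d => d = e ∨ d = G.al e) = {e, G.al e} := by
        ext d
        simp only [mem_filter, mem_ed, mem_insert, mem_singleton]
        constructor
        · exact fun k => k.2
        · rintro (k1 | k1)
          · rw [k1]; exact ⟨⟨he1, k.1, k.2⟩, Or.inl rfl⟩
          · rw [k1]
            refine ⟨⟨G.al_mem e he1, k.2, ?_⟩, Or.inr rfl⟩
            rw [G.al_al e he1]; exact k.1
      rw [h4, card_pair hne]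
      norm_num
    · rw [if_neg k]
      have h4 : ((G.ed X X).filter fun d => d = e ∨ d = G.al e) = ∅ := by
        refine filter_eq_empty_iff.2 fun d hd => ?_
        obtain ⟨_, k1, k2⟩ := mem_ed.1 hd
        rintro (k3 | k3)
        · rw [k3] at k1 k2; exact k ⟨k1, k2⟩
        · rw [k3] at k1 k2
          rw [G.al_al e he1] at k2
          exact k ⟨k2, k1⟩
      rw [h4]
      simp
  linarith

end MG

end RH
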