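import Pool.Agent.Lib.RH.St6U
import Pool.Agent.Lib.RH.T5Pay
import Pool.Agent.Lib.RH.T5KillA
import Pool.Agent.Lib.RH.SCap0

/-! Killing one leg (any minimal counterexample); payments with one half circuit: `z + g` is
integer valued, deep sets cut no F-edge. -/

set_option autoImplicit false

namespace RH

open Finset Classical

namespace MG

variable {V D : Type*} {G : MG V D} {z z' : D → ℝ} {t t' : V → ℝ} {fr fr' : Finset V}
variable {F : Finset D} {jm sx : Finset V} {ep : V → ℕ} {m a : ℕ} {W X : Finset V} {ω w : V}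

/-- the weights after killing one edge -/
theorem kz_pair (G : MG V D) (z : D → ℝ) (j : D) :
    kz z {j, G.al j} = fun d => if d = j ∨ d = G.al j then 0 else z d := by
  funext d
  unfold kz
  simp only [mem_insert, mem_singleton]

/-- the value after killing a leg -/
theorem val_kill1 (hW : G.Wt z t) {j : D} (hj : j ∈ G.ds) (hz1 : z j = 1) (hX : X ⊆ G.vs) :
    G.val (fun d => if d = j ∨ d = G.al j then 0 else z d)
      (fun v => t v + if v = G.pi j ∨ v = G.pi (G.al j) then 1 else 0) X =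
    G.val z t X + if G.pi j ∈ X ∧ G.pi (G.al j) ∈ X then 2 else 0 := by
  have hz2 : z (G.al j) = 1 := by rw [hW.sym j hj, hz1]
  have hmemS : ∀ d, d ∈ ({j, G.al j} : Finset D) ↔ d = j ∨ d = G.al j := by
    intro d
    rw [mem_insert, mem_singleton]
  have hS : ({j, G.al j} : Finset D) ⊆ G.ds := by
    intro d hd
    rcases (hmemS d).1 hd with rfl | rfl
    · exact hj
    · exact G.al_mem j hj
  have hal : ∀ d ∈ ({j, G.al j} : Finset D), G.al d ∈ ({j, G.al j} : Finset D) := by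
    intro d hd
    rcases (hmemS d).1 hd with rfl | rfl
    · exact (hmemS _).2 (Or.inr rfl)
    · exact (hmemS _).2 (Or.inl (G.al_al j hj))
  have h1 := kill_val hW hS hal hX
  rw [ed_pair hj hz1 hz2, kz_pair] at h1
  have h2 : kt G z t {j, G.al j} =
      fun v => t v + if v = G.pi j ∨ v = G.pi (G.al j) then 1 else 0 :=
    funext fun v => kt_pair hj hz1 hz2 v
  rw [h2] at h1
  exact h1

/-- the killed state of a leg -/
theorem MCS.kill1 (h : G.MCS z t fr F jm sx ep m) {C : Finset V} (hC : G.Circ fr F C) {j : D}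
    (hj : j ∈ G.ds) (hx : G.pi j ∈ C) (hw : G.pi (G.al j) ∉ fr) :
    ∃ fr1, fr1 ⊆ fr \ C ∧
      StkU G (fun d => if d = j ∨ d = G.al j then 0 else z d)
        (fun v => t v + if v = G.pi j ∨ v = G.pi (G.al j) then 1 else 0) fr1
        (F.filter fun d => G.pi d ∈ fr1) (jm ∩ fr1) ep m fr.card := by
  have hI := h.inst
  have hF := hI.fresh
  have hW := hI.wt
  have hxfr : G.pi j ∈ fr := hC.adm.sub hx
  have hz1 : z j = 1 := hF.unit j hj hxfr
  have hz2 : z (G.al j) = 1 := by rw [hW.sym j hj, hz1]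
  have hmemS : ∀ d, d ∈ ({j, G.al j} : Finset D) ↔ d = j ∨ d = G.al j := by
    intro d
    rw [mem_insert, mem_singleton]
  have hS : ({j, G.al j} : Finset D) ⊆ G.ds := by
    intro d hd
    rcases (hmemS d).1 hd with rfl | rfl
    · exact hj
    · exact G.al_mem j hj
  have hal : ∀ d ∈ ({j, G.al j} : Finset D), G.al d ∈ ({j, G.al j} : Finset D) := by
    intro d hd
    rcases (hmemS d).1 hd with rfl | rfl
    · exact (hmemS _).2 (Or.inr rfl)
    · exact (hmemS _).2 (Or.inl (G.al_al j hj))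
  have hk := hW.kill hS hal
  have h2 : kt G z t {j, G.al j} =
      fun v => t v + if v = G.pi j ∨ v = G.pi (G.al j) then 1 else 0 :=
    funext fun v => kt_pair hj hz1 hz2 v
  rw [kz_pair, h2] at hk
  obtain ⟨fr', f1, f2, f3, f4, f5, f6⟩ := hI.absorb_class hC hj hx hw
  refine ⟨fr', fun v hv => mem_sdiff.2 ⟨f1 hv, disjoint_left.1 f4 hv⟩, h.stkU (sx := sx)
    { wt := hk, supp := ?_, sub := f1, ne := f2, clo := f3, unit := ?_, kill := ?_, star := f6 }⟩
  · intro d _ hp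
    by_contra h3
    have h4 : (if d = j ∨ d = G.al j then 0 else z d) ≤ 0 := by
      split_ifs
      · exact le_rfl
      · exact not_lt.1 h3
    linarith
  · intro d hd hp
    have h3 : ¬ (d = j ∨ d = G.al j) := by
      rintro (rfl | rfl)
      · exact disjoint_left.1 f4 hp hx
      · exact hw (f1 hp)
    rw [if_neg h3]
    exact hF.unit d hd (f1 hp)
  · intro X hX hev hn
    exact ⟨j, f5 X hX hev hn, if_pos (Or.inl rfl)⟩

/-- the killed state of a leg (7 tokens); `IsStepT` from `InstS.absorb_class`, see `MCS.direct` -/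
theorem N5.kill (h : G.N5 z t fr F jm sx ep m) {C : Finset V} (hC : G.Circ fr F C) {j : D}
    (hj : j ∈ G.ds) (hx : G.pi j ∈ C) (hw : G.pi (G.al j) ∉ fr) :
    ∃ fr1, fr1 ⊆ fr \ C ∧
      StkU G (fun d => if d = j ∨ d = G.al j then 0 else z d)
        (fun v => t v + if v = G.pi j ∨ v = G.pi (G.al j) then 1 else 0) fr1
        (F.filter fun d => G.pi d ∈ fr1) (jm ∩ fr1) ep m fr.card :=
  h.mc.kill1 hC hj hx hw

theorem wa_int (l : List D) (d : D) : ∃ k : ℤ, G.wa l d = k := by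
  induction l with
  | nil => exact ⟨0, by rw [wa_nil]; simp⟩
  | cons q P ih =>
    obtain ⟨k, hk⟩ := ih
    rw [wa_cons, hk]
    by_cases h1 : d = q
    · by_cases h2 : d = G.al q
      · exact ⟨2 - k, by rw [if_pos h1, if_pos h2]; push_cast; ring⟩
      · exact ⟨1 - k, by rw [if_pos h1, if_neg h2]; push_cast; ring⟩
    · by_cases h2 : d = G.al q
      · exact ⟨1 - k, by rw [if_neg h1, if_pos h2]; push_cast; ring⟩
      · exact ⟨0 - k, by rw [if_neg h1, if_neg h2]; push_cast; ring⟩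

/-- with one half circuit the weights `z + g` are integers -/
theorem N5.zg_int (h : G.N5 z t fr F jm sx ep m) {w u : V} (hu : u ∈ G.hv z) {l : List D}
    (hl : G.IsW (G.sd z fr) w l u)
    (hone : ∀ v ∈ G.hv z, ∀ v' ∈ G.hv z, ∀ X, G.Circ (G.hv z) (G.hd z) X → (v ∈ X ↔ v' ∈ X))
    {g : D → ℝ} (hg : G.Pay z fr w g) {d : D} (hd : d ∈ G.ds) : ∃ k : ℤ, z d + g d = k := by
  have hSy := h.mc.inst.wt.sy_sd fr
  obtain ⟨C, hC1, hC2, _⟩ := h.exists_hcirc hu
  obtain ⟨c, hc, hc1, hc2⟩ := h.exists_payH hC2 hC1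
  have h1 : G.Dir z fr (fun d => g d - (G.wa l d + (-1) ^ l.length * c d)) (fun _ => 0) := by
    refine ⟨fun d hd => ?_, fun d hd hf => ?_, fun d hd hz => ?_, fun v hv => ?_⟩
    · show g (G.al d) - (G.wa l (G.al d) + _ * c (G.al d)) = g d - (G.wa l d + _ * c d)
      rw [hg.sym d hd, hc.sym d hd, wa_sym hSy.sub hl.mem hd]
    · have h2 : d ∉ G.sd z fr := fun h3 => (mem_sd.1 h3).2.2.1 hf
      show g d - (G.wa l d + _ * c d) = 0
      rw [hg.zero d h2, hc.zero d h2, wa_zero hSy hl.mem h2]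
      ring
    · have h2 : d ∉ G.sd z fr := fun h3 => (mem_sd.1 h3).2.1 hz
      show g d - (G.wa l d + _ * c d) = 0
      rw [hg.zero d h2, hc.zero d h2, wa_zero hSy hl.mem h2]
      ring
    · show ∑ d ∈ G.st v, (g d - (G.wa l d + (-1) ^ l.length * c d)) + 0 = 0
      rw [sum_sub_distrib, sum_add_distrib, ← mul_sum, hg.deg v hv, hc.deg v hv]
      have h3 := wa_deg hSy hl v
      unfold wb at h3
      linarith
  have h2 := h.nf _ _ h1 (fun _ _ _ => rfl) (by simp) d hd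
  have h3 : g d = G.wa l d + (-1) ^ l.length * c d := sub_eq_zero.1 h2
  obtain ⟨k, hk⟩ := wa_int (G := G) l d
  rw [h3, hk]
  by_cases h4 : d ∈ G.hd z
  · have h5 : G.pi d ∈ C := (hone u hu (G.pi d) (mem_hv.2 ⟨d, h4, rfl⟩) C hC2).1 hC1
    have h6 := hc2 d h4 h5
    obtain ⟨n, hn⟩ := h.hd_half h4
    have h7 : (-1 : ℝ) ^ l.length * c d = 1 / 2 ∨ (-1 : ℝ) ^ l.length * c d = -(1 / 2) := by
      have h8 : |(-1 : ℝ) ^ l.length * c d| = 1 / 2 := by
        rw [abs_mul, abs_pow, abs_neg, abs_one, one_pow, one_mul]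
        exact h6
      rcases abs_choice ((-1 : ℝ) ^ l.length * c d) with h9 | h9
      · left
        rw [← h9]
        exact h8
      · right
        rw [h9] at h8
        linarith
    rcases h7 with h7 | h7
    · exact ⟨n + k + 1, by rw [h7, hn]; push_cast; ring⟩
    · exact ⟨n + k, by rw [h7, hn]; push_cast; ring⟩
  · have h5 : c d = 0 := by
      by_contra h6
      exact h4 (hc1 d h6).1
    obtain ⟨n, hn⟩ := h.z_int hd h4
    exact ⟨n + k, by rw [h5, hn]; push_cast; ring⟩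

private theorem even_inv {S : Finset D} (hS : S ⊆ G.ds) (hcl : ∀ d ∈ S, G.al d ∈ S) (f : D → ℤ)
    (hf : ∀ d ∈ S, f (G.al d) = f d) : Even (∑ d ∈ S, f d) := by
  have h1 : ∑ d ∈ S, ((f d : ℤ) : ZMod 2) = 0 := by
    refine sum_involution (fun d _ => G.al d) ?_ ?_ ?_ ?_
    · intro d hd
      rw [hf d hd]
      exact CharTwo.add_self_eq_zero _
    · intro d hd _ he
      exact G.noloop d (hS hd) (by rw [he])
    · intro d hd
      exact hcl d hd
    · intro d hd
      exact G.al_al d (hS hd)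
  rw [← Int.cast_sum] at h1
  exact (ZMod.intCast_zmod_eq_zero_iff_dvd _ 2).1 h1 |>.elim fun k hk => ⟨k, by
    push_cast at hk
    omega⟩

/-- sum of a symmetric integer valued function inside a set -/
theorem ed_int {f : D → ℝ} (hs : ∀ d ∈ G.ds, f (G.al d) = f d) (hf : ∀ d ∈ G.ds, ∃ k : ℤ, f d = k)
    (X : Finset V) : ∃ k : ℤ, ∑ d ∈ G.ed X X, f d = 2 * k := by
  have hsub : G.ed X X ⊆ G.ds := fun d hd => (mem_ed.1 hd).1
  have hal : ∀ d ∈ G.ed X X, G.al d ∈ G.ed X X := by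
    intro d hd
    obtain ⟨h1, h2, h3⟩ := mem_ed.1 hd
    exact mem_ed.2 ⟨G.al_mem d h1, h3, by rw [G.al_al d h1]; exact h2⟩
  obtain ⟨k, hk⟩ := even_inv hsub hal (fun d => ⌊f d⌋) fun d hd => by
    show ⌊f (G.al d)⌋ = ⌊f d⌋
    rw [hs d (hsub hd)]
  refine ⟨k, ?_⟩
  have h1 : ∀ d ∈ G.ed X X, f d = ((⌊f d⌋ : ℤ) : ℝ) := by
    intro d hd
    obtain ⟨n, hn⟩ := hf d (hsub hd)
    rw [hn, Int.floor_intCast]
  rw [sum_congr rfl h1, ← Int.cast_sum, hk]
  push_cast
  ring

/-- an even number of F-darts leaves a set -/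
theorem FrS.bd_F_even (hF : G.FrS z fr F jm) (X : Finset V) :
    Even ((G.bd X).filter fun d => d ∈ F).card := by
  have h1 : (F.filter fun d => G.pi d ∈ X).card = ∑ v ∈ X ∩ fr, 2 := by
    rw [card_eq_sum_card_fiberwise (f := G.pi) (t := X ∩ fr)]
    · refine sum_congr rfl fun v hv => ?_
      obtain ⟨hv1, hv2⟩ := mem_inter.1 hv
      rw [← hF.two v hv2]
      congr 1
      ext d
      simp only [mem_filter]
      constructor
      · rintro ⟨⟨h1, -⟩, h2⟩
        exact ⟨h1, h2⟩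
      · rintro ⟨h1, h2⟩
        exact ⟨⟨h1, by rw [h2]; exact hv1⟩, h2⟩
    · intro d hd
      obtain ⟨h1, h2⟩ := mem_filter.1 (mem_coe.1 hd)
      exact mem_coe.2 (mem_inter.2 ⟨h2, hF.Ffr d h1⟩)
  have h2 : (F.filter fun d => G.pi d ∈ X) =
      ((G.bd X).filter fun d => d ∈ F) ∪ (G.ed X X).filter fun d => d ∈ F := by
    ext d
    simp only [mem_union, mem_filter, mem_bd, mem_ed]
    constructor
    · rintro ⟨h2, h3⟩
      by_cases h4 : G.pi (G.al d) ∈ X
      · exact Or.inr ⟨⟨hF.Fsub h2, h3, h4⟩, h2⟩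
      · exact Or.inl ⟨⟨hF.Fsub h2, h3, h4⟩, h2⟩
    · rintro (⟨⟨-, h3, -⟩, h4⟩ | ⟨⟨-, h3, -⟩, h4⟩)
      · exact ⟨h4, h3⟩
      · exact ⟨h4, h3⟩
  have h3 : Disjoint ((G.bd X).filter fun d => d ∈ F) ((G.ed X X).filter fun d => d ∈ F) := by
    rw [disjoint_left]
    intro d h4 h5
    exact (mem_bd.1 (mem_filter.1 h4).1).2.2 (mem_ed.1 (mem_filter.1 h5).1).2.2
  have h4 : Even ((G.ed X X).filter fun d => d ∈ F).card := by
    have h5 := even_inv (G := G) (S := (G.ed X X).filter fun d => d ∈ F)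
      (fun d hd => (mem_ed.1 (mem_filter.1 hd).1).1) (fun d hd => by
        obtain ⟨h6, h7⟩ := mem_filter.1 hd
        obtain ⟨h8, h9, h10⟩ := mem_ed.1 h6
        exact mem_filter.2 ⟨mem_ed.2 ⟨G.al_mem d h8, h10, by rw [G.al_al d h8]; exact h9⟩,
          hF.Fal d h7⟩) (fun _ => 1) (fun _ _ => rfl)
    rw [sum_const, nsmul_eq_mul, mul_one] at h5
    exact_mod_cast h5
  rw [h2, card_union_of_disjoint h3, sum_const, smul_eq_mul] at h1
  obtain ⟨k, hk⟩ := h4
  rw [Nat.even_iff]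
  omega

/-- with one half circuit: `val - (sum of g inside)` is odd -/
theorem N5.pay_par (h : G.N5 z t fr F jm sx ep m) {w u : V} (hu : u ∈ G.hv z) {l : List D}
    (hl : G.IsW (G.sd z fr) w l u)
    (hone : ∀ v ∈ G.hv z, ∀ v' ∈ G.hv z, ∀ X, G.Circ (G.hv z) (G.hd z) X → (v ∈ X ↔ v' ∈ X))
    {g : D → ℝ} (hg : G.Pay z fr w g) {X : Finset V} (hX : X ⊆ G.vs) (ho : Odd X.card) :
    ∃ k : ℤ, G.val z t X - ∑ d ∈ G.ed X X, g d = 2 * k + 1 := by
  have hw := h.mc.inst.wt
  obtain ⟨k, hk⟩ := ed_int (G := G) (f := fun d => z d + g d)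
    (fun d hd => by rw [hw.sym d hd, hg.sym d hd])
    (fun d hd => h.zg_int hu hl hone hg hd) X
  rw [sum_add_distrib] at hk
  rw [hw.val_eq hX]
  obtain ⟨n, hn⟩ := ho
  refine ⟨3 * n + 1 - k, ?_⟩
  rw [hn]
  push_cast
  linarith

/-- if a set contains `w` but not the other end of the leg `j` at `w` and cuts an F-edge, then the
sum of `g` inside differs from 1 by at most `val - 3` (two F-darts and `j` carry no payment) -/
theorem Pay.cross (hF : G.FrS z fr F jm) (hw : G.Wt z t) {j : D}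
    (hj : j ∈ G.ds) (hx : G.pi j ∈ fr) (hjF : j ∉ F) {g : D → ℝ}
    (hg : G.Pay z fr (G.pi (G.al j)) g) {X : Finset V} (hX : X ⊆ G.vs)
    (hwX : G.pi (G.al j) ∈ X) (hxX : G.pi j ∉ X) {d : D} (hdF : d ∈ F)
    (hdX : G.pi d ∈ X) (hdX' : G.pi (G.al d) ∉ X) :
    |1 - ∑ d ∈ G.ed X X, g d| ≤ G.val z t X - 3 := by
  have hcard : 3 ≤ (insert (G.al j) ((G.bd X).filter fun d => d ∈ F)).card := by
    rw [card_insert_of_notMem]
    · have h3 : 0 < ((G.bd X).filter fun d => d ∈ F).card :=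
        card_pos.2 ⟨d, mem_filter.2 ⟨mem_bd.2 ⟨hF.Fsub hdF, hdX, hdX'⟩, hdF⟩⟩
      obtain ⟨n, hn⟩ := hF.bd_F_even X
      omega
    · intro h3
      have h4 := hF.Fal _ (mem_filter.1 h3).2
      rw [G.al_al j hj] at h4
      exact hjF h4
  have hsub : insert (G.al j) ((G.bd X).filter fun d => d ∈ F) ⊆ G.bd X := by
    intro c hc
    rcases mem_insert.1 hc with rfl | hc
    · exact mem_bd.2 ⟨G.al_mem j hj, hwX, by rw [G.al_al j hj]; exact hxX⟩
    · exact (mem_filter.1 hc).1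
  have hval : ∀ c ∈ insert (G.al j) ((G.bd X).filter fun d => d ∈ F), z c - |g c| = 1 := by
    intro c hc
    rcases mem_insert.1 hc with rfl | hc
    · have h3 : g (G.al j) = 0 := hg.zero _ fun h4 => (mem_sd.1 h4).2.2.2 (by
        rw [G.al_al j hj]; exact hx)
      rw [h3, abs_zero, sub_zero, hw.sym j hj]
      exact hF.unit j hj hx
    · have h4 := (mem_filter.1 hc).2
      have h3 : g c = 0 := hg.zero _ fun h5 => (mem_sd.1 h5).2.2.1 (hF.Ffr c h4)
      rw [h3, abs_zero, sub_zero]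
      exact hF.unit c (hF.Fsub h4) (hF.Ffr c h4)
  have h3 : (3 : ℝ) ≤ ∑ c ∈ G.bd X, (z c - |g c|) := by
    have h4 : ∑ c ∈ insert (G.al j) ((G.bd X).filter fun d => d ∈ F), (z c - |g c|) ≤
        ∑ c ∈ G.bd X, (z c - |g c|) :=
      sum_le_sum_of_subset_of_nonneg hsub fun c hc _ => by
        have := hg.le c (mem_bd.1 hc).1
        linarith
    rw [sum_congr rfl hval, sum_const, nsmul_eq_mul, mul_one] at h4
    have h5 : (3 : ℝ) ≤ (insert (G.al j) ((G.bd X).filter fun d => d ∈ F)).card := by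
      exact_mod_cast hcard
    linarith
  rw [sum_sub_distrib] at h3
  have h4 := pert_val (G := G) g (fun v => if v = G.pi (G.al j) then -1 else 0)
    (fun v hv => by
      rw [hg.deg v hv]
      by_cases k : v = G.pi (G.al j)
      · rw [if_pos k, if_pos k]; norm_num
      · rw [if_neg k, if_neg k]; norm_num) hX
  unfold val at h4
  rw [Finset.sum_ite_eq' X (G.pi (G.al j)) fun _ => (-1 : ℝ), if_pos hwX] at h4
  have h5 : |∑ c ∈ G.bd X, g c| ≤ ∑ c ∈ G.bd X, |g c| := abs_sum_le_sum_abs _ _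
  have h6 : ∑ c ∈ G.bd X, z c ≤ G.val z t X := by
    unfold val
    have : 0 ≤ ∑ v ∈ X, t v := sum_nonneg fun v hv => hw.t0 v (hX hv)
    linarith
  have h7 : 1 - ∑ d ∈ G.ed X X, g d = ∑ c ∈ G.bd X, g c := by linarith
  rw [h7]
  linarith

/-- with one half circuit an odd set with `val - 3 < sum of g` which contains `w` but not the other
end of the leg `j` at `w` cuts no F-edge -/
theorem N5.deep_F (h : G.N5 z t fr F jm sx ep m) {u : V} (hu : u ∈ G.hv z) {j : D}
    (hj : j ∈ G.ds) (hx : G.pi j ∈ fr) (hjF : j ∉ F) {l : List D}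
    (hl : G.IsW (G.sd z fr) (G.pi (G.al j)) l u)
    (hone : ∀ v ∈ G.hv z, ∀ v' ∈ G.hv z, ∀ X, G.Circ (G.hv z) (G.hd z) X → (v ∈ X ↔ v' ∈ X))
    {g g' : D → ℝ} (hg : G.Pay z fr (G.pi (G.al j)) g) {e : D} (he : e ∈ G.sd z fr)
    (hpe : G.pi e = G.pi (G.al j)) (hg' : G.Pay z fr (G.pi (G.al e)) g')
    {X : Finset V} (hX : X ⊆ G.vs) (ho : Odd X.card) (hwX : G.pi (G.al j) ∈ X)
    (hxX : G.pi j ∉ X) (hd : G.val z t X - 3 < ∑ d ∈ G.ed X X, g d) {d : D} (hdF : d ∈ F)
    (hdX : G.pi d ∈ X) : G.pi (G.al d) ∈ X := by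
  by_contra hdX'
  obtain ⟨k, hk⟩ := h.pay_par hu hl hone hg hX ho
  have h1 := h.deep he (by rw [hpe]; exact hg) hg' hX ho
  have h2 : G.val z t X - ∑ d ∈ G.ed X X, g d = 1 := by
    have h3 : (if G.pi e ∈ X ∧ G.pi (G.al e) ∈ X then (2 : ℝ) else 0) ≤ 2 := by
      split_ifs <;> norm_num
    have h4 : (2 * k + 1 : ℝ) < 3 := by rw [← hk]; linarith
    have h5 : (1 : ℝ) ≤ 2 * k + 1 := by rw [← hk]; linarith
    have h6 : (k : ℝ) < 1 := by linarith
    have h7 : (0 : ℝ) ≤ k := by linarith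
    have h8 : k < 1 := by exact_mod_cast h6
    have h9 : 0 ≤ k := by exact_mod_cast h7
    have h10 : k = 0 := by omega
    rw [hk, h10]
    norm_num
  have h3 := Pay.cross h.mc.inst.fresh h.mc.inst.wt hj hx hjF hg hX hwX hxX hdF hdX hdX'
  have h4 := neg_le_abs (1 - ∑ d ∈ G.ed X X, g d)
  linarith

/-- an odd set, not a single vertex, which contains `w` but not the other end of the leg `j` at `w`
has value at least 4, if there is a payment at `w` -/
theorem N5.v4w (h : G.N5 z t fr F jm sx ep m) {j : D}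
    (hj : j ∈ G.ds) (hx : G.pi j ∈ fr) (hw : G.pi (G.al j) ∉ fr) {g : D → ℝ}
    (hg : G.Pay z fr (G.pi (G.al j)) g) {X : Finset V} (hX : X ⊆ G.vs) (ho : Odd X.card)
    (h1 : X.card ≠ 1) (hwX : G.pi (G.al j) ∈ X) (hxX : G.pi j ∉ X) : 4 ≤ G.val z t X := by
  have hF := h.mc.inst.fresh
  have hwt := h.mc.inst.wt
  have hjF : j ∉ F := fun h2 => hw (hF.Ffr _ (hF.Fal j h2))
  have h4 : 4 ≤ G.val z t X ∨ ∃ x p q, G.Dig z t fr X x p q := by
    first
      | exact h.v4 hX ho h1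
      | exact Or.inl (h.v4 hX ho h1)
  rcases h4 with h4 | ⟨x, p, q, hd⟩
  · exact h4
  exfalso
  have h5 : G.pi (G.al j) = x ∨ G.pi (G.al j) = p ∨ G.pi (G.al j) = q := by
    have h5 := hwX
    rw [hd.W] at h5
    simpa using h5
  have hxW : x ∈ X := by rw [hd.W]; simp
  have hpW : p ∈ X := by rw [hd.W]; simp
  have hz1 : z (G.al j) = 1 := by
    rw [hwt.sym j hj]
    exact hF.unit j hj hx
  rcases h5 with h5 | h5 | h5
  · exact hw (h5 ▸ hd.xf)
  · have h6 := hd.nb (G.al j) (G.al_mem j hj) h5 (by rw [hz1]; exact one_ne_zero)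
    rw [G.al_al j hj] at h6
    rcases h6 with h6 | h6
    · exact hxX (h6 ▸ hxW)
    · exact hd.qf (h6 ▸ hx)
  · have h6 : 0 < (F.filter fun d => G.pi d = x).card := by
      rw [hF.two x hd.xf]
      norm_num
    obtain ⟨c, hc⟩ := card_pos.1 h6
    obtain ⟨hc1, hc2⟩ := mem_filter.1 hc
    have hc3 : G.pi (G.al c) ∉ X := by
      intro h7
      have h8 := hF.Ffr _ (hF.Fal c hc1)
      rw [hd.W] at h7
      simp only [mem_insert, mem_singleton] at h7
      rcases h7 with h7 | h7 | h7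
      · exact G.noloop c (hF.Fsub hc1) (h7.trans hc2.symm)
      · exact hd.pf (h7 ▸ h8)
      · exact hd.qf (h7 ▸ h8)
    have h7 := Pay.cross hF hwt hj hx hjF hg hX hwX hxX hc1 (by rw [hc2]; exact hxW) hc3
    have h8 := hd.ed (a := g) hg.sym fun d hd hz => hg.zero d fun k => (mem_sd.1 k).2.1 hz
    have h9 := hd.ed (a := z) hwt.sym fun d _ hz => hz
    have h10 := hwt.deg p (hX hpW)
    have h11 := hg.deg p (hX hpW)
    rw [if_neg (fun k => hd.pq (k.trans h5))] at h11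
    rw [hd.tp] at h10
    have h12 := hwt.val_eq hX
    have h13 : X.card = 3 := by
      rw [hd.W, card_insert_of_notMem, card_pair hd.pq]
      simp only [mem_insert, mem_singleton, not_or]
      exact ⟨fun k => hd.pf (k ▸ hd.xf), fun k => hd.qf (k ▸ hd.xf)⟩
    rw [h13] at h12
    rw [h8, h11] at h7
    norm_num at h7
    have h14 : G.val z t X = 3 := by
      rw [h12, h9]
      push_cast
      linarith
    rw [h14] at h7
    norm_num at h7

end MG

end RH
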