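import Pool.Agent.Lib.RH.CE6Of
import Pool.Agent.Lib.RH.SFcut
import Pool.Agent.Lib.RH.MConn
import Pool.Agent.Lib.RH.AType
import Pool.Agent.Lib.RH.T5SixC0

/-! # Sets crossed by F-darts

`Bas.fc`: the exits of an F-crossed maximal blocker with one token. `FC.circ`: the circuit which is
cut; `FC.arc_min`, `FC.adm_of`: the parts of unions. `ArcC`: a part with the arc all of whose J-darts
are used, `ArcC.par`: parity. `X6.dec`: decomposition of a bad closed union over a cut; `X6.glueF`: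
gluing over an F-cut. -/

set_option autoImplicit false

namespace RH

open Finset Classical

namespace MG

variable {V D : Type*} {G : MG V D} {z : D → ℝ} {t : V → ℝ} {fr : Finset V} {F : Finset D}
variable {jm A C W X X1 X2 : Finset V} {y b : V} {a0 u e1 e2 g1 g2 : D} {M M1 M2 : Finset D}

/-- **exits of an F-crossed maximal blocker with one token** -/
theorem Bas.fc (h : Bas G t fr F jm) (r : RStp G t fr y b a0 u e1 e2)
    (m : MBlk G t y b u e1 e2 W) (hT : ∑ v ∈ W, t v = 1) (hF : FCut G F W) :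
    ∃ f g k, G.FC F W f g ∧ G.bd W = {e1, k, f, g} ∧ [e1, k, f, g].Nodup ∧ e1 ∉ F ∧ k ∉ F := by
  have hc : (G.bd W).card = 4 := by
    have h1 := m.val
    rw [val_one, hT] at h1
    have h2 : ((G.bd W).card : ℝ) = 4 := by linarith
    exact_mod_cast h2
  have me : e1 ∈ G.bd W := mem_bd.2 ⟨r.sp.f1, by rw [r.sp.pf]; exact m.mb, m.nb1⟩
  have hef : e1 ∉ F := fun h1 => r.hb (by
    have h2 := h.fresh.Ffr _ h1
    rwa [r.sp.pf] at h2)
  have hev := h.fresh.bd_F_even W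
  have hsum := card_filter_add_card_filter_not (s := G.bd W) (fun d => d ∈ F)
  have hne : e1 ∈ (G.bd W).filter fun d => ¬ d ∈ F := mem_filter.2 ⟨me, hef⟩
  have hn1 := card_pos.2 ⟨_, hne⟩
  have hf0 : 0 < ((G.bd W).filter fun d => d ∈ F).card := by
    obtain ⟨d, d1, d2, d3⟩ := hF
    exact card_pos.2 ⟨d, mem_filter.2 ⟨mem_bd.2 ⟨h.fresh.Fsub d1, d2, d3⟩, d1⟩⟩
  have hf2 : ((G.bd W).filter fun d => d ∈ F).card = 2 := by
    rw [Nat.even_iff] at hev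
    omega
  have hn2 : (((G.bd W).filter fun d => ¬ d ∈ F).erase e1).card = 1 := by
    rw [card_erase_of_mem hne]
    omega
  obtain ⟨f, g, hfg, hfe⟩ := card_eq_two.1 hf2
  obtain ⟨k, hk⟩ := card_eq_one.1 hn2
  have mf : f ∈ (G.bd W).filter fun d => d ∈ F := by rw [hfe]; simp
  have mg : g ∈ (G.bd W).filter fun d => d ∈ F := by rw [hfe]; simp
  have mk : k ∈ ((G.bd W).filter fun d => ¬ d ∈ F).erase e1 := by rw [hk]; simp
  obtain ⟨f1, f2⟩ := mem_filter.1 mf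
  obtain ⟨q1, q2⟩ := mem_filter.1 mg
  obtain ⟨k1, k2⟩ := mem_erase.1 mk
  obtain ⟨k3, k4⟩ := mem_filter.1 k2
  refine ⟨f, g, k, ⟨m.sub, hfg, f2, q2, (mem_bd.1 f1).2.1, (mem_bd.1 q1).2.1, (mem_bd.1 f1).2.2,
    (mem_bd.1 q1).2.2, ?_⟩, ?_, ?_, hef, k4⟩
  · intro d hd h1 h2
    have h3 : d ∈ (G.bd W).filter fun d => d ∈ F :=
      mem_filter.2 ⟨mem_bd.2 ⟨h.fresh.Fsub hd, h1, h2⟩, hd⟩
    rw [hfe, mem_insert, mem_singleton] at h3
    exact h3
  · ext d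
    constructor
    · intro hd
      by_cases h1 : d ∈ F
      · have h2 : d ∈ (G.bd W).filter fun d => d ∈ F := mem_filter.2 ⟨hd, h1⟩
        rw [hfe, mem_insert, mem_singleton] at h2
        rcases h2 with rfl | rfl <;> simp
      · by_cases h2 : d = e1
        · rw [h2]
          simp
        · have h3 : d ∈ ((G.bd W).filter fun d => ¬ d ∈ F).erase e1 :=
            mem_erase.2 ⟨h2, mem_filter.2 ⟨hd, h1⟩⟩
          rw [hk, mem_singleton] at h3
          rw [h3]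
          simp
    · intro hd
      simp only [mem_insert, mem_singleton] at hd
      rcases hd with rfl | rfl | rfl | rfl
      · exact me
      · exact k3
      · exact f1
      · exact q1
  · simp only [List.nodup_cons, List.mem_cons, List.not_mem_nil, or_false, not_or,
      not_false_iff, List.nodup_nil, and_true]
    exact ⟨⟨fun h1 => k1 h1.symm, fun h1 => hef (h1 ▸ f2), fun h1 => hef (h1 ▸ q2)⟩,
      ⟨fun h1 => k4 (h1 ▸ f2), fun h1 => k4 (h1 ▸ q2)⟩, hfg⟩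

namespace FC

variable (hc : G.FC F W g1 g2)
include hc

/-- a part without the arc is a union -/
theorem adm_of (hF : G.FrS z fr F jm) (hX : G.AdmZ fr F W X) (h1 : G.pi g1 ∉ X) :
    G.Adm fr F X := by
  have h2 : G.pi g2 ∉ X := fun h => h1 ((hc.both hF hX).2 h)
  refine ⟨hX.sub, fun d hd hp => hX.clo d hd hp ?_⟩
  by_contra h3
  rcases hc.only d hd (hX.subZ hp) h3 with rfl | rfl
  · exact h1 hp
  · exact h2 hp

omit hc in
theorem _root_.RH.MG.AdmZ.inter {Y : Finset V} (hX : G.AdmZ fr F W X) (hY : G.AdmZ fr F W Y) :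
    G.AdmZ fr F W (X ∩ Y) :=
  ⟨inter_subset_left.trans hX.sub, inter_subset_left.trans hX.subZ, fun d hd hp hZ =>
    mem_inter.2 ⟨hX.clo d hd (mem_inter.1 hp).1 hZ, hY.clo d hd (mem_inter.1 hp).2 hZ⟩⟩

omit hc in
theorem _root_.RH.MG.AdmZ.diff (hF : G.FrS z fr F jm) {Y : Finset V} (hX : G.AdmZ fr F W X)
    (hY : G.AdmZ fr F W Y) : G.AdmZ fr F W (X \ Y) := by
  refine ⟨sdiff_subset.trans hX.sub, sdiff_subset.trans hX.subZ, fun d hd hp hZ => ?_⟩
  obtain ⟨h1, h2⟩ := mem_sdiff.1 hp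
  refine mem_sdiff.2 ⟨hX.clo d hd h1 hZ, fun h3 => h2 ?_⟩
  have h4 := hY.clo (G.al d) (hF.Fal d hd) h3
  rw [G.al_al d (hF.Fsub hd)] at h4
  exact h4 (hX.subZ h1)

/-- the difference of two parts with the arc is a union -/
theorem adm_diff (hF : G.FrS z fr F jm) (hX : G.AdmZ fr F W X1) (hY : G.AdmZ fr F W X2)
    (h2 : G.pi g1 ∈ X2) : G.Adm fr F (X1 \ X2) :=
  hc.adm_of hF (hX.diff hF hY) fun h => (mem_sdiff.1 h).2 h2

/-- **the circuit which is cut** -/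
theorem circ (hF : G.FrS z fr F jm) : ∃ C, G.Circ fr F C ∧ G.pi g1 ∈ C ∧ G.pi g2 ∈ C ∧
    G.pi (G.al g1) ∈ C ∧ G.pi (G.al g2) ∈ C := by
  obtain ⟨C, h1, hC⟩ := hF.exists_circ (hF.Ffr g1 hc.f1)
  have h2 : G.pi g2 ∈ C := (mem_inter.1 ((hc.both hF (hC.adm.admZ W)).1
    (mem_inter.2 ⟨h1, hc.w1⟩))).1
  exact ⟨C, hC, h1, h2, hC.adm.clo _ hc.f1 h1, hC.adm.clo _ hc.f2 h2⟩

/-- a circuit with vertices on both sides is the circuit which is cut -/
theorem mem_circ (hF : G.FrS z fr F jm) (hC : G.Circ fr F C) (h1 : (C ∩ W).Nonempty)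
    (h2 : (C \ W).Nonempty) : G.pi g1 ∈ C ∧ G.pi g2 ∈ C := by
  have hZ := hC.adm.admZ W
  have h3 : G.pi g1 ∈ C ∩ W := by
    by_contra h4
    have h5 := hC.min _ (hc.adm_of hF hZ h4) inter_subset_left h1
    obtain ⟨v, hv⟩ := h2
    obtain ⟨h6, h7⟩ := mem_sdiff.1 hv
    rw [← h5] at h6
    exact h7 (mem_inter.1 h6).2
  exact ⟨(mem_inter.1 h3).1, (mem_inter.1 ((hc.both hF hZ).1 h3)).1⟩

/-- the arc is contained in every part which meets the end of the arc -/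
theorem arc_min (hF : G.FrS z fr F jm) (hC : G.Circ fr F C) (hg : G.pi g1 ∈ C)
    (hX : G.AdmZ fr F W X) (h1 : G.pi g1 ∈ X) : C ∩ W ⊆ X := by
  have h2 := hc.adm_diff hF (hC.adm.admZ W) hX h1
  by_contra h3
  have h4 : ((C ∩ W) \ X).Nonempty := by
    rw [nonempty_iff_ne_empty]
    intro h5
    exact h3 (sdiff_eq_empty_iff_subset.1 h5)
  have h5 := hC.min _ h2 (sdiff_subset.trans inter_subset_left) h4
  have h6 : G.pi g1 ∈ (C ∩ W) \ X := by rw [h5]; exact hg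
  exact (mem_sdiff.1 h6).2 h1

omit hc in
/-- a union contains the circuit or is disjoint from it -/
theorem _root_.RH.MG.Circ.dich (hC : G.Circ fr F C) (hX : G.Adm fr F X) : C ⊆ X ∨ Disjoint X C := by
  by_cases h1 : ∃ v ∈ X, v ∈ C
  · obtain ⟨v, h2, h3⟩ := h1
    exact Or.inl (hC.sub_of_meet hX h2 h3)
  · push Not at h1
    exact Or.inr (disjoint_left.2 h1)

end FC

/-- a part with the arc, all J-darts are used -/
structure ArcC (G : MG V D) (fr : Finset V) (F M : Finset D) (A X : Finset V) (g : D) : Prop where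
  adm : G.AdmZ fr F A X
  arc : G.pi g ∈ X
  cl : ∀ d ∈ G.bd X, d ∉ F → d ∈ M

/-- **parity of a part with the arc** -/
theorem FC.par (hc : G.FC F W g1 g2) (hF : G.FrS z fr F jm) (hM : G.HM W M)
    (hX : G.AdmZ fr F W X) (h1 : G.pi g1 ∈ X) :
    (((G.bd X).filter fun d => d ∉ F ∧ d ∉ M).card + (X ∩ jm).card +
      (if g1 ∈ M then 1 else 0) + (if g2 ∈ M then 1 else 0)) % 2 = 0 := by
  have h2 := hM.par hX.subZ
  have h3 := hF.nj_par hX.sub
  have hg2 := (hc.both hF hX).1 h1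
  unfold nj at h3
  have h4 := card_filter_add_card_filter_not (s := (G.bd X).filter fun d => d ∉ F)
    (fun d => d ∈ M)
  have h5 := card_filter_add_card_filter_not (s := (G.bd X).filter fun d => d ∈ M)
    (fun d => d ∈ F)
  have e1 : (((G.bd X).filter fun d => d ∉ F).filter fun d => ¬ d ∈ M) =
      (G.bd X).filter fun d => d ∉ F ∧ d ∉ M := by rw [filter_filter]
  have e3 : (((G.bd X).filter fun d => d ∉ F).filter fun d => d ∈ M) =
      (((G.bd X).filter fun d => d ∈ M).filter fun d => ¬ d ∈ F) := by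
    rw [filter_filter, filter_filter]
    exact filter_congr fun d _ => and_comm
  have e4 : (((G.bd X).filter fun d => d ∈ M).filter fun d => d ∈ F) =
      (({g1, g2} : Finset D).filter fun d => d ∈ M) := by
    ext d
    rw [mem_filter, mem_filter, mem_filter, mem_bd, mem_insert, mem_singleton]
    constructor
    · rintro ⟨⟨⟨k1, k2, k3⟩, k4⟩, k5⟩
      refine ⟨hc.only d k5 (hX.subZ k2) fun k6 => k3 (hX.clo d k5 k2 k6), k4⟩
    · rintro ⟨rfl | rfl, k4⟩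
      · exact ⟨⟨⟨hF.Fsub hc.f1, h1, fun k => hc.u1 (hX.subZ k)⟩, k4⟩, hc.f1⟩
      · exact ⟨⟨⟨hF.Fsub hc.f2, hg2, fun k => hc.u2 (hX.subZ k)⟩, k4⟩, hc.f2⟩
  have e5 : (({g1, g2} : Finset D).filter fun d => d ∈ M).card =
      (if g1 ∈ M then 1 else 0) + (if g2 ∈ M then 1 else 0) := by
    rw [card_filter, sum_pair hc.ne]
  rw [e1, e3] at h4
  rw [e4, e5] at h5
  omega

/-- an arc part with all J-darts used: parity of the star -/
theorem ArcC.par (hX : G.ArcC fr F M W X g1) (hc : G.FC F W g1 g2) (hF : G.FrS z fr F jm)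
    (hM : G.HM W M) :
    ((X ∩ jm).card + (if g1 ∈ M then 1 else 0) + (if g2 ∈ M then 1 else 0)) % 2 = 0 := by
  have h1 := hc.par hF hM hX.adm hX.arc
  have h2 : ((G.bd X).filter fun d => d ∉ F ∧ d ∉ M) = ∅ :=
    filter_eq_empty_iff.2 fun d hd h3 => h3.2 (hX.cl d hd h3.1)
  rw [h2, card_empty] at h1
  omega

/-- the difference of two arc parts is a closed union -/
theorem ArcC.diff (hX : G.ArcC fr F M W X1 g1) (hY : G.ArcC fr F M W X2 g1)
    (hc : G.FC F W g1 g2) (hF : G.FrS z fr F jm) (hM : G.HM W M) :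
    G.Adm fr F (X1 \ X2) ∧ ∀ d ∈ G.bd (X1 \ X2), d ∈ M := by
  have hA := hc.adm_diff hF hX.adm hY.adm hY.arc
  refine ⟨hA, fun d hd => ?_⟩
  obtain ⟨k1, k2, k3⟩ := mem_bd.1 hd
  obtain ⟨k4, k5⟩ := mem_sdiff.1 k2
  have k6 : d ∉ F := fun k6 => k3 (hA.clo d k6 k2)
  by_cases k7 : G.pi (G.al d) ∈ X1
  · have k8 : G.pi (G.al d) ∈ X2 := by
      by_contra k8
      exact k3 (mem_sdiff.2 ⟨k7, k8⟩)
    have k9 : G.al d ∈ M := by
      refine hY.cl _ (mem_bd.2 ⟨G.al_mem d k1, k8, ?_⟩) fun k => k6 ?_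
      · rw [G.al_al d k1]
        exact k5
      · have := hF.Fal _ k
        rwa [G.al_al d k1] at this
    have k10 := hM.clo _ k9 (by rw [G.al_al d k1]; exact hX.adm.subZ k4)
    rwa [G.al_al d k1] at k10
  · exact hX.cl d (mem_bd.2 ⟨k1, k4, k7⟩) k6

/-- **decomposition of a bad closed union over a cut** -/
theorem X6.dec (h : X6 G t fr F jm) (h1 : G.HM W M1) (h2 : G.HM (G.vs \ W) M2)
    (hx : ∀ d ∈ G.bd W, d ∈ M1 ↔ G.al d ∈ M2) :
    ∃ X, G.Adm fr F X ∧ (Odd X.card ∨ (jm.Nonempty ∧ jm ⊆ X)) ∧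
      (∀ d ∈ G.bd (X ∩ W), d ∉ F → d ∈ M1 ∨ (d ∈ G.bd W ∧ G.pi (G.al d) ∈ X)) ∧
      (∀ d ∈ G.bd (X \ W), d ∉ F → d ∈ M2 ∨ (d ∈ G.bd (G.vs \ W) ∧ G.pi (G.al d) ∈ X)) := by
  have hpm := HM.glue h1 h2 hx
  have hb : ¬ ∀ X, G.Adm fr F X → (Odd X.card ∨ (jm.Nonempty ∧ jm ⊆ X)) →
      ∃ d ∈ G.bd X, d ∉ M1 ∪ M2 := by
    intro hb
    exact h.bad ⟨M1 ∪ M2, hpm, fun d _ => zero_lt_one, hb⟩
  push Not at hb
  obtain ⟨X, hX, hodd, hcl⟩ := hb
  refine ⟨X, hX, hodd, ?_, ?_⟩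
  · intro d hd hF
    obtain ⟨k1, k2, k3⟩ := mem_bd.1 hd
    obtain ⟨k4, k5⟩ := mem_inter.1 k2
    by_cases k6 : G.pi (G.al d) ∈ X
    · by_cases k7 : d ∈ M1
      · exact Or.inl k7
      · exact Or.inr ⟨mem_bd.2 ⟨k1, k5, fun k8 => k3 (mem_inter.2 ⟨k6, k8⟩)⟩, k6⟩
    · left
      rcases mem_union.1 (hcl d (mem_bd.2 ⟨k1, k4, k6⟩)) with k7 | k7
      · exact k7
      · exact absurd k5 (mem_sdiff.1 (h2.sub d k7).2).2
  · intro d hd hF
    obtain ⟨k1, k2, k3⟩ := mem_bd.1 hd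
    obtain ⟨k4, k5⟩ := mem_sdiff.1 k2
    by_cases k6 : G.pi (G.al d) ∈ X
    · by_cases k7 : d ∈ M2
      · exact Or.inl k7
      · right
        refine ⟨mem_bd.2 ⟨k1, mem_sdiff.2 ⟨h.fresh.fsub (hX.sub k4), k5⟩, fun k8 => ?_⟩, k6⟩
        exact k3 (mem_sdiff.2 ⟨k6, (mem_sdiff.1 k8).2⟩)
    · left
      rcases mem_union.1 (hcl d (mem_bd.2 ⟨k1, k4, k6⟩)) with k7 | k7
      · exact absurd (h1.sub d k7).2 k5
      · exact k7

/-- closed unions on both sides: even and without the star -/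
theorem X6.two_sides (h : X6 G t fr F jm) (h1 : G.GHalf one1 fr F jm W M1)
    (h2 : G.GHalf one1 fr F jm (G.vs \ W) M2) (hX : G.Adm fr F X)
    (a1 : G.Adm fr F (X ∩ W)) (c1 : ∀ d ∈ G.bd (X ∩ W), d ∈ M1)
    (a2 : G.Adm fr F (X \ W)) (c2 : ∀ d ∈ G.bd (X \ W), d ∈ M2)
    (hodd : Odd X.card ∨ (jm.Nonempty ∧ jm ⊆ X)) : False := by
  have s2 : X \ W ⊆ G.vs \ W := fun v hv =>
    mem_sdiff.2 ⟨h.fresh.fsub (hX.sub (mem_sdiff.1 hv).1), (mem_sdiff.1 hv).2⟩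
  obtain ⟨k1, k2⟩ := h1.ok _ a1 inter_subset_right c1
  obtain ⟨k3, k4⟩ := h2.ok _ a2 s2 c2
  have hc : (X \ W).card + (X ∩ W).card = X.card := card_sdiff_add_card_inter X W
  rcases hodd with ho | ⟨hn, hj⟩
  · rw [Nat.even_iff] at k1 k3
    rw [Nat.odd_iff] at ho
    omega
  · have hj2 : jm.card = 2 := by
      rcases h.jm2 with h5 | h5
      · exact absurd h5 (nonempty_iff_ne_empty.1 hn)
      · exact h5
    have u1 := h1.hm.unused h.fresh a1 inter_subset_right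
    have e1 : (G.bd (X ∩ W)).filter (fun d => d ∉ M1) = ∅ :=
      filter_eq_empty_iff.2 fun d hd h3 => h3 (c1 d hd)
    rw [e1, card_empty] at u1
    have e2 : X ∩ W ∩ jm = jm ∩ W := by
      ext v
      simp only [mem_inter]
      exact ⟨fun k => ⟨k.2, k.1.2⟩, fun k => ⟨⟨hj k.1, k.2⟩, k.1⟩⟩
    rw [e2] at u1
    have e3 := card_sdiff_add_card_inter jm W
    have e4 : (jm ∩ W).card = 0 ∨ (jm ∩ W).card = 2 := by omega
    rcases e4 with e4 | e4
    · refine k4 ⟨hn, fun v hv => mem_sdiff.2 ⟨hj hv, fun hw => ?_⟩⟩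
      have e5 := card_eq_zero.1 e4
      have e6 : v ∈ jm ∩ W := mem_inter.2 ⟨hv, hw⟩
      rw [e5] at e6
      exact notMem_empty v e6
    · refine k2 ⟨hn, fun v hv => ?_⟩
      have e5 : jm ∩ W = jm := eq_of_subset_of_card_le inter_subset_left (by omega)
      rw [← e5] at hv
      exact mem_inter.2 ⟨hj (mem_inter.1 hv).1, (mem_inter.1 hv).2⟩

/-- **GLUING OVER AN F-CUT**: no unused J-exit has two fresh ends. Then there are arc parts on both
sides all of whose J-darts are used, of odd sum or with the star -/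
theorem X6.glueF (h : X6 G t fr F jm) (hc : G.FC F W g1 g2) (h1 : G.GHalf one1 fr F jm W M1)
    (h2 : G.GHalf one1 fr F jm (G.vs \ W) M2) (hx : ∀ d ∈ G.bd W, d ∈ M1 ↔ G.al d ∈ M2)
    (hJ : ∀ d ∈ G.bd W, d ∉ F → d ∉ M1 → G.pi d ∈ fr → G.pi (G.al d) ∉ fr) :
    ∃ X1 X2, G.ArcC fr F M1 W X1 g1 ∧ G.ArcC fr F M2 (G.vs \ W) X2 (G.al g1) ∧
      G.Adm fr F (X1 ∪ X2) ∧ (Odd (X1.card + X2.card) ∨ (jm.Nonempty ∧ jm ⊆ X1 ∪ X2)) := by
  obtain ⟨X, hX, hodd, c1, c2⟩ := h.dec h1.hm h2.hm hx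
  have hF := h.fresh
  have b1 : ∀ d ∈ G.bd (X ∩ W), d ∉ F → d ∈ M1 := by
    intro d hd hn
    rcases c1 d hd hn with k1 | ⟨k1, k2⟩
    · exact k1
    · by_contra k3
      exact hJ d k1 hn k3 (hX.sub (mem_inter.1 (mem_bd.1 hd).2.1).1) (hX.sub k2)
  have b2 : ∀ d ∈ G.bd (X \ W), d ∉ F → d ∈ M2 := by
    intro d hd hn
    rcases c2 d hd hn with k1 | ⟨k1, k2⟩
    · exact k1
    · by_contra k3
      have k4 := bd_al' hc.hW k1
      have k5 : G.al d ∉ F := fun k => hn (by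
        have := hF.Fal _ k
        rwa [G.al_al d (mem_bd.1 hd).1] at this)
      have k6 : G.al d ∉ M1 := fun k => k3 (by
        have := (hx _ k4).1 k
        rwa [G.al_al d (mem_bd.1 hd).1] at this)
      refine hJ _ k4 k5 k6 (hX.sub k2) ?_
      rw [G.al_al d (mem_bd.1 hd).1]
      exact hX.sub (mem_sdiff.1 (mem_bd.1 hd).2.1).1
  have hZ1 := hX.admZ W
  have hW2 : X \ W = X ∩ (G.vs \ W) := by
    ext v
    rw [mem_sdiff, mem_inter, mem_sdiff]
    exact ⟨fun k => ⟨k.1, hF.fsub (hX.sub k.1), k.2⟩, fun k => ⟨k.1, k.2.2⟩⟩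
  have hZ2 := hX.admZ (G.vs \ W)
  rw [← hW2] at hZ2
  have hcs := hc.symm hF
  have m2 : G.pi (G.al g1) ∉ W := hc.u1
  by_cases hg : G.pi g1 ∈ X
  · have hg' : G.pi (G.al g1) ∈ X := hX.clo _ hc.f1 hg
    refine ⟨X ∩ W, X \ W, ⟨hZ1, mem_inter.2 ⟨hg, hc.w1⟩, b1⟩,
      ⟨hZ2, mem_sdiff.2 ⟨hg', m2⟩, b2⟩, ?_, ?_⟩
    · have e1 : X ∩ W ∪ X \ W = X := by
        rw [union_comm]
        exact sdiff_union_inter X W
      rw [e1]
      exact hX
    · have e1 : X ∩ W ∪ X \ W = X := by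
        rw [union_comm]
        exact sdiff_union_inter X W
      rw [e1]
      rcases hodd with k1 | k1
      · left
        have := card_sdiff_add_card_inter X W
        rw [add_comm, this]
        exact k1
      · exact Or.inr k1
  · exfalso
    have a1 : G.Adm fr F (X ∩ W) := hc.adm_of hF hZ1 fun k => hg (mem_inter.1 k).1
    have a2 : G.Adm fr F (X \ W) := hcs.adm_of hF hZ2 fun k => by
      have k1 := hX.clo _ (hF.Fal _ hc.f1) (mem_sdiff.1 k).1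
      rw [G.al_al _ (hF.Fsub hc.f1)] at k1
      exact hg k1
    refine h.two_sides h1 h2 hX a1 ?_ a2 ?_ hodd
    · intro d hd
      exact b1 d hd fun k => (mem_bd.1 hd).2.2 (a1.clo d k (mem_bd.1 hd).2.1)
    · intro d hd
      exact b2 d hd fun k => (mem_bd.1 hd).2.2 (a2.clo d k (mem_bd.1 hd).2.1)

/-- no star vertex on a side with one real token -/
theorem Bas.dj (h : Bas G t fr F jm) (r : RStp G t fr y b a0 u e1 e2)
    (m : MBlk G t y b u e1 e2 W) (hT : ∑ v ∈ W, t v = 1) : Disjoint jm W := by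
  rw [disjoint_left]
  intro v hv hW
  have h1 := h.fresh.t_jm h.wt hv
  have hne : y ≠ v := fun h2 => r.hy (h2 ▸ h.fresh.jms hv)
  have h2 : t y + t v ≤ ∑ v ∈ W, t v := by
    rw [← sum_pair hne]
    refine sum_le_sum_of_subset_of_nonneg ?_ fun w hw _ => h.t0 w (m.sub hw)
    intro w hw
    rw [mem_insert, mem_singleton] at hw
    rcases hw with rfl | rfl
    · exact m.my
    · exact hW
  rw [hT, r.ty h.toEK, h1] at h2
  norm_num at h2

/-- **gluing, exactly one of the two F-exits is used** -/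
theorem X6.glueF1 (h : X6 G t fr F jm) (hc : G.FC F W g1 g2) (h1 : G.GHalf one1 fr F jm W M1)
    (h2 : G.GHalf one1 fr F jm (G.vs \ W) M2) (hx : ∀ d ∈ G.bd W, d ∈ M1 ↔ G.al d ∈ M2)
    (hJ : ∀ d ∈ G.bd W, d ∉ F → d ∉ M1 → G.pi d ∈ fr → G.pi (G.al d) ∉ fr)
    (hj : Disjoint jm W) (hg : g1 ∈ M1 ↔ g2 ∉ M1) : False := by
  obtain ⟨X1, X2, a1, -, -, -⟩ := h.glueF hc h1 h2 hx hJ
  have h3 := a1.par hc h.fresh h1.hm
  have h4 : X1 ∩ jm = ∅ := by
    rw [← disjoint_iff_inter_eq_empty]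
    exact (hj.mono_right a1.adm.subZ).symm
  rw [h4, card_empty] at h3
  by_cases h5 : g1 ∈ M1
  · rw [if_pos h5, if_neg (hg.1 h5)] at h3
    omega
  · have h6 : g2 ∈ M1 := by
      by_contra h6
      exact h5 (hg.2 h6)
    rw [if_neg h5, if_pos h6] at h3
    omega

/-- **gluing, the arc is linked inside** -/
theorem X6.glueFL (h : X6 G t fr F jm) (hc : G.FC F W g1 g2) (h1 : G.GHalf one1 fr F jm W M1)
    (h2 : G.GHalf one1 fr F jm (G.vs \ W) M2) (hx : ∀ d ∈ G.bd W, d ∈ M1 ↔ G.al d ∈ M2)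
    (hJ : ∀ d ∈ G.bd W, d ∉ F → d ∉ M1 → G.pi d ∈ fr → G.pi (G.al d) ∉ fr)
    (hl : ∀ X1, ¬ G.ArcC fr F M1 W X1 g1) : False := by
  obtain ⟨X1, X2, a1, -, -, -⟩ := h.glueF hc h1 h2 hx hJ
  exact hl X1 a1

/-- **gluing, the arc is linked outside** -/
theorem X6.glueFL' (h : X6 G t fr F jm) (hc : G.FC F W g1 g2) (h1 : G.GHalf one1 fr F jm W M1)
    (h2 : G.GHalf one1 fr F jm (G.vs \ W) M2) (hx : ∀ d ∈ G.bd W, d ∈ M1 ↔ G.al d ∈ M2)
    (hJ : ∀ d ∈ G.bd W, d ∉ F → d ∉ M1 → G.pi d ∈ fr → G.pi (G.al d) ∉ fr)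
    (hl : ∀ X2, ¬ G.ArcC fr F M2 (G.vs \ W) X2 (G.al g1)) : False := by
  obtain ⟨X1, X2, -, a2, -, -⟩ := h.glueF hc h1 h2 hx hJ
  exact hl X2 a2

end MG

end RH
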