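import Pool.Agent.Lib.RH.CountK

/-! Pattern gluing (helper60's link law). `W` is not crossed by F-darts, `M` is a perfect matching.
A closed union has an even number of unused J-darts from `W` to the outside, both ends in the union.
If it has none it splits into two closed unions. So, if at most one exit of `W` between fresh vertices
is unused, `M` is good as soon as both sides are. -/

set_option autoImplicit false

namespace RH

open Finset Classical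

namespace MG

variable {V D : Type*} {G : MG V D} {z : D → ℝ} {fr : Finset V} {F M : Finset D}
variable {jm X W : Finset V}

/-- unused J-darts of `X` which leave `W` -/
noncomputable def uX (G : MG V D) (F M : Finset D) (X W : Finset V) : Finset D :=
  (G.uJ F M X).filter fun d => G.pi d ∈ W ∧ G.pi (G.al d) ∉ W

theorem mem_uX {d : D} : d ∈ G.uX F M X W ↔ d ∈ G.ds ∧ d ∉ F ∧ d ∉ M ∧ G.pi d ∈ X ∧
    G.pi (G.al d) ∈ X ∧ G.pi d ∈ W ∧ G.pi (G.al d) ∉ W := by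
  unfold uX
  rw [mem_filter, mem_uJ]
  tauto

/-- a union is cut into two unions by a set which is not crossed by F-darts -/
theorem Adm.interW (hX : G.Adm fr F X) (hFW : ∀ d ∈ F, G.pi d ∈ W → G.pi (G.al d) ∈ W) :
    G.Adm fr F (X ∩ W) :=
  ⟨inter_subset_left.trans hX.sub, fun d hd hp => mem_inter.2
    ⟨hX.clo d hd (mem_inter.1 hp).1, hFW d hd (mem_inter.1 hp).2⟩⟩

theorem Adm.sdiffW (hF : G.FrS z fr F jm) (hX : G.Adm fr F X)
    (hFW : ∀ d ∈ F, G.pi d ∈ W → G.pi (G.al d) ∈ W) : G.Adm fr F (X \ W) :=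
  ⟨sdiff_subset.trans hX.sub, fun d hd hp => mem_sdiff.2
    ⟨hX.clo d hd (mem_sdiff.1 hp).1, fun h => (mem_sdiff.1 hp).2 (by
      have h1 := hFW _ (hF.Fal d hd) h
      rwa [G.al_al d (hF.Fsub hd)] at h1)⟩⟩

/-- **LINK LAW**: the number of unused exits inside a closed union is even (up to the star) -/
theorem FrS.uX_even (hF : G.FrS z fr F jm) (hM : G.IsPM M) (hX : G.Adm fr F X)
    (hcl : ∀ d ∈ G.bd X, d ∈ M) (hFW : ∀ d ∈ F, G.pi d ∈ W → G.pi (G.al d) ∈ W)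
    (hjm : jm ⊆ W ∨ Disjoint jm W) : Even (G.uX F M X W).card := by
  have h1 := hF.count_par hM hX hcl W
  have h2 : (G.uF F M X).filter (fun d => G.pi d ∈ W ∧ G.pi (G.al d) ∉ W) = ∅ := by
    rw [filter_eq_empty_iff]
    rintro d hd ⟨h3, h4⟩
    exact h4 (hFW d (mem_uF.1 hd).2.1 h3)
  have h3 : Even (X ∩ jm ∩ W).card := by
    rcases hjm with h4 | h4
    · rw [inter_eq_left.2 (inter_subset_right.trans h4)]
      exact hF.closed_jm hM hX hcl
    · have h5 : X ∩ jm ∩ W = ∅ := by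
        rw [eq_empty_iff_forall_notMem]
        intro v hv
        obtain ⟨h6, h7⟩ := mem_inter.1 hv
        exact disjoint_left.1 h4 (mem_inter.1 h6).2 h7
      rw [h5, card_empty]
      exact Even.zero
  rw [h2, card_empty] at h1
  rw [Nat.even_iff] at h3 ⊢
  unfold uX
  omega

/-- a closed union without unused exit inside splits -/
theorem Adm.split (hF : G.FrS z fr F jm) (hM : G.IsPM M) (hX : G.Adm fr F X)
    (hcl : ∀ d ∈ G.bd X, d ∈ M) (hFW : ∀ d ∈ F, G.pi d ∈ W → G.pi (G.al d) ∈ W)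
    (h0 : G.uX F M X W = ∅) :
    (G.Adm fr F (X ∩ W) ∧ ∀ d ∈ G.bd (X ∩ W), d ∈ M) ∧
      (G.Adm fr F (X \ W) ∧ ∀ d ∈ G.bd (X \ W), d ∈ M) := by
  refine ⟨⟨hX.interW hFW, ?_⟩, hX.sdiffW hF hFW, ?_⟩
  · intro d hd
    obtain ⟨h1, h2, h3⟩ := mem_bd.1 hd
    obtain ⟨h4, h5⟩ := mem_inter.1 h2
    by_cases h6 : G.pi (G.al d) ∈ X
    · have h7 : G.pi (G.al d) ∉ W := fun h => h3 (mem_inter.2 ⟨h6, h⟩)
      by_contra h8
      have h9 : d ∈ G.uX F M X W := mem_uX.2 ⟨h1, fun h => h7 (hFW d h h5), h8, h4, h6, h5, h7⟩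
      rw [h0] at h9
      exact notMem_empty _ h9
    · exact hcl d (mem_bd.2 ⟨h1, h4, h6⟩)
  · intro d hd
    obtain ⟨h1, h2, h3⟩ := mem_bd.1 hd
    obtain ⟨h4, h5⟩ := mem_sdiff.1 h2
    by_cases h6 : G.pi (G.al d) ∈ X
    · have h7 : G.pi (G.al d) ∈ W := by
        by_contra h
        exact h3 (mem_sdiff.2 ⟨h6, h⟩)
      by_contra h8
      have h1' := G.al_mem d h1
      have h9 : G.al d ∈ G.uX F M X W := mem_uX.2 ⟨h1', fun h => ?_, fun h => ?_, h6, by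
        rw [G.al_al d h1]; exact h4, h7, by rw [G.al_al d h1]; exact h5⟩
      · rw [h0] at h9
        exact notMem_empty _ h9
      · have h10 := hFW _ h h7
        rw [G.al_al d h1] at h10
        exact h5 h10
      · have h10 := hM.closed _ h
        rw [G.al_al d h1] at h10
        exact h8 h10
    · exact hcl d (mem_bd.2 ⟨h1, h4, h6⟩)

/-- **PATTERN GLUING**, general form: no closed union contains an unused exit of `W` -/
theorem glueP_gen (hF : G.FrS z fr F jm) (hM : G.IsPM M) (hMz : ∀ d ∈ M, 0 < z d)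
    (hFW : ∀ d ∈ F, G.pi d ∈ W → G.pi (G.al d) ∈ W)
    (hjm : jm ⊆ W ∨ Disjoint jm W)
    (hin : ∀ X, G.Adm fr F X → X ⊆ W → (∀ d ∈ G.bd X, d ∈ M) →
      Even X.card ∧ ¬ (jm.Nonempty ∧ jm ⊆ X))
    (hout : ∀ X, G.Adm fr F X → Disjoint X W → (∀ d ∈ G.bd X, d ∈ M) →
      Even X.card ∧ ¬ (jm.Nonempty ∧ jm ⊆ X))
    (h0 : ∀ X, G.Adm fr F X → (∀ d ∈ G.bd X, d ∈ M) → G.uX F M X W = ∅) :
    G.GoodS z fr F jm M where
  pm := hM
  pos := hMz
  hit := by
    intro X hX ho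
    by_contra hcon
    push Not at hcon
    obtain ⟨⟨a1, a2⟩, b1, b2⟩ := hX.split hF hM hcon hFW (h0 X hX hcon)
    have c1 := hin _ a1 inter_subset_right a2
    have c2 := hout _ b1 sdiff_disjoint b2
    have c3 := card_sdiff_add_card_inter X W
    rcases ho with ho | ⟨hn, ho⟩
    · have e1 := Nat.even_iff.1 c1.1
      have e2 := Nat.even_iff.1 c2.1
      rw [Nat.odd_iff] at ho
      omega
    · rcases hjm with h1 | h1
      · exact c1.2 ⟨hn, fun v hv => mem_inter.2 ⟨ho hv, h1 hv⟩⟩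
      · exact c2.2 ⟨hn, fun v hv => mem_sdiff.2 ⟨ho hv, disjoint_left.1 h1 hv⟩⟩

/-- at most one unused exit between fresh vertices: no closed union contains it -/
theorem FrS.uX_empty (hF : G.FrS z fr F jm) (hM : G.IsPM M)
    (hFW : ∀ d ∈ F, G.pi d ∈ W → G.pi (G.al d) ∈ W) (hjm : jm ⊆ W ∨ Disjoint jm W)
    (h1 : ∀ d ∈ G.ds, ∀ d' ∈ G.ds, d ∉ M → d' ∉ M → G.pi d ∈ W → G.pi (G.al d) ∉ W →
      G.pi d' ∈ W → G.pi (G.al d') ∉ W → G.pi d ∈ fr → G.pi (G.al d) ∈ fr →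
      G.pi d' ∈ fr → G.pi (G.al d') ∈ fr → d = d')
    (hX : G.Adm fr F X) (hcl : ∀ d ∈ G.bd X, d ∈ M) : G.uX F M X W = ∅ := by
  have h2 := hF.uX_even hM hX hcl hFW hjm
  have h3 : (G.uX F M X W).card ≤ 1 := by
    refine card_le_one.2 fun d hd d' hd' => ?_
    obtain ⟨a1, a2, a3, a4, a5, a6, a7⟩ := mem_uX.1 hd
    obtain ⟨b1, b2, b3, b4, b5, b6, b7⟩ := mem_uX.1 hd'
    exact h1 d a1 d' b1 a3 b3 a6 a7 b6 b7 (hX.sub a4) (hX.sub a5) (hX.sub b4) (hX.sub b5)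
  rw [Nat.even_iff] at h2
  exact card_eq_zero.1 (by omega)

/-- **PATTERN GLUING**: at most one unused exit between fresh vertices -/
theorem glueP (hF : G.FrS z fr F jm) (hM : G.IsPM M) (hMz : ∀ d ∈ M, 0 < z d)
    (hFW : ∀ d ∈ F, G.pi d ∈ W → G.pi (G.al d) ∈ W)
    (hjm : jm ⊆ W ∨ Disjoint jm W)
    (hin : ∀ X, G.Adm fr F X → X ⊆ W → (∀ d ∈ G.bd X, d ∈ M) →
      Even X.card ∧ ¬ (jm.Nonempty ∧ jm ⊆ X))
    (hout : ∀ X, G.Adm fr F X → Disjoint X W → (∀ d ∈ G.bd X, d ∈ M) →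
      Even X.card ∧ ¬ (jm.Nonempty ∧ jm ⊆ X))
    (h1 : ∀ d ∈ G.ds, ∀ d' ∈ G.ds, d ∉ M → d' ∉ M → G.pi d ∈ W → G.pi (G.al d) ∉ W →
      G.pi d' ∈ W → G.pi (G.al d') ∉ W → G.pi d ∈ fr → G.pi (G.al d) ∈ fr →
      G.pi d' ∈ fr → G.pi (G.al d') ∈ fr → d = d') :
    G.GoodS z fr F jm M :=
  glueP_gen hF hM hMz hFW hjm hin hout fun _ hX hcl => hF.uX_empty hM hFW hjm h1 hX hcl

/-- a union `Y` joins the exits `d` and `d'` (darts whose vertices lie in `Y`): all other boundary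
darts are used -/
structure Joins (G : MG V D) (fr : Finset V) (F M : Finset D) (Y : Finset V) (d d' : D) : Prop where
  adm : G.Adm fr F Y
  d1 : d ∈ G.bd Y
  d2 : d' ∈ G.bd Y
  cl : ∀ x ∈ G.bd Y, x ∉ M → x = d ∨ x = d'

/-- three exits: at most one pair is joined -/
theorem Joins.unique (hF : G.FrS z fr F ∅) (hM : G.IsPM M) {Y Y' : Finset V} {a b c : D}
    (hab : a ≠ b) (hac : a ≠ c) (hbc : b ≠ c) (haM : a ∉ M) (hbM : b ∉ M)
    (h1 : G.Joins fr F M Y a b) (h2 : G.Joins fr F M Y' a c)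
    (hb : G.pi (G.al b) ∉ Y') (hc : G.pi (G.al c) ∉ Y) : False := by
  have hA := h1.adm.inter h2.adm
  have h3 := hF.unused_par hM hA
  rw [inter_empty, card_empty] at h3
  obtain ⟨b1, b2, b3⟩ := mem_bd.1 h1.d2
  obtain ⟨c1, c2, c3⟩ := mem_bd.1 h2.d2
  have h4 : (G.bd (Y ∩ Y')).filter (fun d => d ∉ M) = {a} := by
    ext d
    rw [mem_filter, mem_singleton]
    constructor
    · rintro ⟨h5, h6⟩
      obtain ⟨k1, k2, k3⟩ := mem_bd.1 h5
      obtain ⟨k4, k5⟩ := mem_inter.1 k2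
      by_cases k6 : G.pi (G.al d) ∈ Y
      · have k7 : G.pi (G.al d) ∉ Y' := fun h => k3 (mem_inter.2 ⟨k6, h⟩)
        rcases h2.cl d (mem_bd.2 ⟨k1, k5, k7⟩) h6 with h | h
        · exact h
        · exact absurd (h ▸ k6) hc
      · rcases h1.cl d (mem_bd.2 ⟨k1, k4, k6⟩) h6 with h | h
        · exact h
        · rw [h] at k5
          rcases h2.cl b (mem_bd.2 ⟨b1, k5, hb⟩) hbM with h7 | h7
          · exact absurd h7.symm hab
          · exact absurd h7 hbc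
    · rintro rfl
      exact ⟨mem_bd.2 ⟨(mem_bd.1 h1.d1).1, mem_inter.2 ⟨(mem_bd.1 h1.d1).2.1,
        (mem_bd.1 h2.d1).2.1⟩, fun h => (mem_bd.1 h1.d1).2.2 (mem_inter.1 h).1⟩, haM⟩
  rw [h4, card_singleton] at h3
  omega

end MG

end RH
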