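import Pool.Agent.Lib.RH.SGA
import Pool.Agent.Lib.RH.SOps

/-! Gluing at an odd set which need not be tight (helper61, after helper65 and helper68): `InstC` is
the combinatorial part of an instance with star, `glueX` glues any weight of the outer graph
(contraction of `W`) with any weights of the inner graphs of the edges leaving `W`, `Wt.innN` is the
weight of the inner graph of an odd set of any value, `glueN` and `MCS.gn` are the near-tight
gluing. -/

set_option autoImplicit false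

namespace RH

open Finset Classical

namespace MG

variable {V D : Type*}

/-- the combinatorial part of an instance with star (the star is `jm`) -/
structure InstC (G : MG V D) (fr : Finset V) (F : Finset D) (jm : Finset V) (ep : V → ℕ)
    (m : ℕ) : Prop where
  even : Even G.vs.card
  fresh : G.FrS (fun _ => 1) fr F jm
  cc : ∀ X, G.Adm fr F X → Odd X.card → 5 ≤ (G.bd X).card + ∑ v ∈ X, ep v
  ev : ∀ X, G.Adm fr F X → Even X.card → X.Nonempty → m ≤ (G.bd X).card + ∑ v ∈ X, ep v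
  jm2 : jm = ∅ ∨ jm.card = 2
  b0 : ∀ X, G.Adm fr F X → Even X.card → jm.Nonempty → jm ⊆ X → 2 ≤ (G.bd X).card
  epj : ∀ v ∈ fr, ep v ≤ if v ∈ jm then 1 else 0

variable {G : MG V D} {z z' z1 : D → ℝ} {t t1 : V → ℝ} {fr fr' : Finset V} {F : Finset D}
variable {jm sx : Finset V} {ep : V → ℕ} {m : ℕ} {W : Finset V} {f : D}

/-- another weight at the same fresh vertices -/
theorem FrS.chg (h : G.FrS z fr F jm) (hu : ∀ d ∈ G.ds, G.pi d ∈ fr → z' d = 1) :
    G.FrS z' fr F jm :=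
  ⟨h.fsub, h.Fsub, h.Fal, h.Ffr, h.two, h.jms, h.jd, h.j0, hu⟩

theorem InstT.toC (h : G.InstT z t fr F jm sx ep m) : G.InstC fr F jm ep m := by
  have e := h.sx_eq
  refine ⟨h.even, h.fresh.chg fun _ _ _ => rfl, h.cc, h.ev, h.jm2, ?_, h.epj⟩
  intro X hX he hn hs
  exact h.b0 X hX he (by rw [e]; exact hn) (by rw [e]; exact hs)

theorem InstS.toC (h : G.InstS z t fr F jm sx ep m) : G.InstC fr F jm ep m :=
  h.toT.toC

/-- an instance from the combinatorial part and a weight -/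
theorem InstC.toS (h : G.InstC fr F jm ep m) (hw : G.Wt z t) (ht : ∑ v ∈ G.vs, t v < 6)
    (hu : ∀ d ∈ G.ds, G.pi d ∈ fr → z d = 1) : G.InstS z t fr F jm jm ep m := by
  have hF : G.FrS z fr F jm := h.fresh.chg hu
  refine ⟨h.even, hw, ht, hF, h.cc, h.ev, hF.jms, Or.inl rfl, h.jm2, ?_, h.b0, h.epj⟩
  intro hn
  have h1 : ∑ v ∈ jm, t v = ∑ _v ∈ jm, (1 : ℝ) := sum_congr rfl fun v hv => hF.t_jm hw hv
  have h2 : jm.card = 2 := by
    rcases h.jm2 with h2 | h2
    · rw [h2] at hn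
      exact absurd hn not_nonempty_empty
    · exact h2
  rw [h1, sum_const, h2]
  norm_num

/-- absorption: fewer fresh vertices, the star stays or goes -/
theorem InstC.absorb (h : G.InstC fr F jm ep m) (hs : fr' ⊆ fr)
    (hcl : ∀ d ∈ F, G.pi d ∈ fr' → G.pi (G.al d) ∈ fr') (hj : jm ⊆ fr' ∨ Disjoint jm fr') :
    G.InstC fr' (F.filter fun d => G.pi d ∈ fr') (jm ∩ fr') ep m := by
  have hup : ∀ X, G.Adm fr' (F.filter fun d => G.pi d ∈ fr') X → G.Adm fr F X := fun X hX =>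
    ⟨hX.sub.trans hs, fun d hd hp => hX.clo d (mem_filter.2 ⟨hd, hX.sub hp⟩) hp⟩
  have hF := h.fresh
  refine ⟨h.even, ⟨hs.trans hF.fsub, fun d hd => hF.Fsub (mem_filter.1 hd).1, ?_,
    fun d hd => (mem_filter.1 hd).2, ?_, inter_subset_right, ?_, ?_, fun _ _ _ => rfl⟩,
    fun X hX => h.cc X (hup X hX), fun X hX => h.ev X (hup X hX), ?_, ?_, ?_⟩
  · intro d hd
    obtain ⟨h1, h2⟩ := mem_filter.1 hd
    exact mem_filter.2 ⟨hF.Fal d h1, hcl d h1 h2⟩
  · intro v hv
    rw [← hF.two v (hs hv)]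
    congr 1
    ext d
    rw [mem_filter, mem_filter, mem_filter]
    constructor
    · rintro ⟨⟨h4, -⟩, h5⟩
      exact ⟨h4, h5⟩
    · rintro ⟨h4, h5⟩
      exact ⟨⟨h4, by rw [h5]; exact hv⟩, h5⟩
  · intro v hv hj'
    have e : ((G.st v).filter fun d => d ∉ F.filter fun d => G.pi d ∈ fr') =
        (G.st v).filter fun d => d ∉ F := by
      apply filter_congr
      intro d hd
      have hp : G.pi d = v := (mem_st.1 hd).2
      rw [mem_filter, hp]
      constructor
      · intro h4 h5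
        exact h4 ⟨h5, hv⟩
      · intro h4 h5
        exact h4 h5.1
    rw [e]
    exact hF.jd v (hs hv) fun h4 => hj' (mem_inter.2 ⟨h4, hv⟩)
  · intro v hv d hd
    obtain ⟨h1, h2⟩ := mem_inter.1 hv
    refine mem_filter.2 ⟨hF.j0 v h1 d hd, ?_⟩
    rw [(mem_st.1 hd).2]
    exact h2
  · rcases hj with hj | hj
    · rw [inter_eq_left.2 hj]
      exact h.jm2
    · exact Or.inl (disjoint_iff_inter_eq_empty.1 hj)
  · intro X hX he hn hsX
    rcases hj with hj | hj
    · rw [inter_eq_left.2 hj] at hn hsX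
      exact h.b0 X (hup X hX) he hn hsX
    · rw [disjoint_iff_inter_eq_empty.1 hj] at hn
      exact absurd hn not_nonempty_empty
  · intro v hv
    have h1 := h.epj v (hs hv)
    by_cases h2 : v ∈ jm
    · rw [if_pos h2] at h1
      rw [if_pos (mem_inter.2 ⟨h2, hv⟩)]
      exact h1
    · rw [if_neg h2] at h1
      rw [if_neg (fun h4 => h2 (mem_inter.1 h4).1)]
      exact h1

/-- a closed admissible set which meets the star contains it -/
theorem InstC.star_sub (h : G.InstC fr F jm ep m) {M : Finset D} (hM : G.IsPM M)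
    {X : Finset V} (hX : G.Adm fr F X) (hc : ∀ d ∈ G.bd X, d ∈ M) {v : V} (hv : v ∈ jm)
    (hvX : v ∈ X) : jm ⊆ X := by
  have h3 := h.fresh.closed_jm hM hX hc
  rcases h.jm2 with h4 | h4
  · rw [h4] at hv
    exact absurd hv (notMem_empty _)
  · have h5 : v ∈ X ∩ jm := mem_inter.2 ⟨hvX, hv⟩
    have h6 : 0 < (X ∩ jm).card := card_pos.2 ⟨v, h5⟩
    have h7 : (X ∩ jm).card ≤ jm.card := card_le_card inter_subset_right
    have h8 : X ∩ jm = jm := by
      refine eq_of_subset_of_card_le inter_subset_right ?_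
      obtain ⟨k, hk⟩ := h3
      omega
    rw [← h8]
    exact inter_subset_left

/-! ### the outer instance -/

section outer

variable {ω : V} (hω : ω ∈ W) (hW : W ⊆ G.vs)

/-- the outer instance (contraction of `W`), combinatorial part -/
theorem con_instC (h : G.InstC fr F jm ep m) (ho : Odd W.card)
    {fr1 B : Finset V} (hs : fr1 ⊆ fr)
    (hcl : ∀ d ∈ F, G.pi d ∈ fr1 → G.pi (G.al d) ∈ fr1) (hdB : Disjoint fr1 B) (hWB : W ⊆ B)
    (hj : jm ⊆ fr1 ∨ Disjoint jm fr1) :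
    (G.con W ω hω hW).InstC fr1 (F.filter fun d => G.pi d ∈ fr1) (jm ∩ fr1) ep m := by
  have h0 := h.absorb hs hcl hj
  have hF := h0.fresh
  have hdW : Disjoint fr1 W := disjoint_of_subset_right hWB hdB
  have hnW : ∀ v ∈ fr1, v ∉ W := fun v hv hv' => disjoint_left.1 hdW hv hv'
  have hne : ∀ v ∈ fr1, v ≠ ω := fun v hv e => hnW v hv (e ▸ hω)
  have hst : ∀ v ∈ fr1, (G.con W ω hω hW).st v = G.st v := fun v hv =>
    con_st hω hW (hne v hv) (hnW v hv)
  have hA : ∀ X, (G.con W ω hω hW).Adm fr1 (F.filter fun d => G.pi d ∈ fr1) X →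
      G.Adm fr1 (F.filter fun d => G.pi d ∈ fr1) X := fun X hX => (con_adm hω hW hdW hcl).1 hX
  have hbd : ∀ X, X ⊆ fr1 → (G.con W ω hω hW).bd X = G.bd X := fun X hX =>
    con_bd_out hω hW (hX.trans hF.fsub) (disjoint_of_subset_left hX hdW)
  refine ⟨con_even hω hW h.even ho, ⟨?_, ?_, hF.Fal, ?_, ?_, hF.jms, ?_, ?_, fun _ _ _ => rfl⟩,
    ?_, ?_, h0.jm2, ?_, h0.epj⟩
  · intro v hv
    exact mem_union_left _ (mem_sdiff.2 ⟨hF.fsub hv, hnW v hv⟩)
  · intro d hd
    obtain ⟨h1, h2⟩ := mem_filter.1 hd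
    exact mem_filter.2 ⟨hF.Fsub hd, fun h4 => hnW _ h2 h4.1⟩
  · intro d hd
    have h2 := hF.Ffr d hd
    rw [con_pi_not hω hW (hnW _ h2)]
    exact h2
  · intro v hv
    rw [← hF.two v hv]
    congr 1
    ext d
    simp only [mem_filter]
    constructor
    · rintro ⟨⟨h1, h2⟩, h4⟩
      rw [con_pi_not hω hW (hnW _ h2)] at h4
      exact ⟨⟨h1, h2⟩, h4⟩
    · rintro ⟨⟨h1, h2⟩, h4⟩
      refine ⟨⟨h1, h2⟩, ?_⟩
      rw [con_pi_not hω hW (hnW _ h2)]
      exact h4
  · intro v hv hj'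
    rw [hst v hv]
    exact hF.jd v hv hj'
  · intro v hv d hd
    rw [hst v (hF.jms hv)] at hd
    exact hF.j0 v hv d hd
  · intro X hX hoX
    rw [hbd X hX.sub]
    exact h0.cc X (hA X hX) hoX
  · intro X hX heX hneX
    rw [hbd X hX.sub]
    exact h0.ev X (hA X hX) heX hneX
  · intro X hX heX hne1 hsX
    rw [hbd X hX.sub]
    exact h0.b0 X (hA X hX) heX hne1 hsX

end outer

section inner

variable (hf : f ∈ G.ds) (hW : W ⊆ G.vs) (hfW : G.pi f ∈ W) (hfU : G.pi (G.al f) ∉ W)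

include hfU in
/-- the inner instance with any weight -/
theorem inn_instC (h : G.InstC fr F jm ep m) (hWo : Odd W.card)
    (hFW : ∀ d ∈ F, G.pi d ∈ W → G.pi (G.al d) ∈ W)
    {fr2 B jm2 : Finset V} (hs : fr2 ⊆ fr)
    (hcl : ∀ d ∈ F, G.pi d ∈ fr2 → G.pi (G.al d) ∈ fr2) (hdB : Disjoint fr2 B)
    (hWB : G.vs \ W ⊆ B) (hqB : G.lq fr W f ⊆ B)
    (hadm : ∀ X, G.Adm fr2 (F.filter fun d => G.pi d ∈ fr2) X ↔ G.Adm fr F X ∧ Disjoint X B)
    {P : Finset V} (hP : P = (jm ∩ W) ∪ G.lp fr W f)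
    (hk : (jm2 = P ∧ P.card = 2 ∧ P ⊆ fr2) ∨ (jm2 = ∅ ∧ Disjoint P fr2))
    {z2 : D → ℝ} {t2 : V → ℝ} (hw2 : (G.inn W f hf hW hfW).Wt z2 t2)
    (ht2 : ∑ v ∈ (G.inn W f hf hW hfW).vs, t2 v < 6)
    (hu2 : ∀ d ∈ (G.inn W f hf hW hfW).ds, G.pi d ∈ fr → G.pi d ∈ W → z2 d = 1)
    (hn : P.card = 2 → (G.lp fr W f).Nonempty → z2 f ≤ 1 ∨ 3 ≤ m) :
    (G.inn W f hf hW hfW).InstS z2 t2 fr2 (F.filter fun d => G.pi d ∈ fr2) jm2 jm2
      (fun v => ep v + if v ∈ G.lp fr W f then 1 else 0) m := by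
  have hF := h.fresh
  have hfr2W : fr2 ⊆ W := by
    intro v hv
    by_contra hn
    exact disjoint_left.1 hdB hv (hWB (mem_sdiff.2 ⟨hF.fsub (hs hv), hn⟩))
  have hjmP : ∀ v ∈ fr2, (v ∈ jm2 ↔ v ∈ P) := by
    intro v hv
    rcases hk with ⟨rfl, -⟩ | ⟨rfl, h1⟩
    · rfl
    · exact ⟨fun h2 => absurd h2 (notMem_empty _), fun h2 => absurd hv (disjoint_left.1 h1 h2)⟩
  have hjs : jm2 ⊆ fr2 := by
    rcases hk with ⟨rfl, -, h1⟩ | ⟨rfl, -⟩
    · exact h1
    · exact empty_subset _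
  have hA : ∀ X, (G.inn W f hf hW hfW).Adm fr2 (F.filter fun d => G.pi d ∈ fr2) X →
      G.Adm fr F X ∧ X ⊆ W ∧ Disjoint X (G.lq fr W f) := by
    intro X hX
    have h1 : G.Adm fr2 (F.filter fun d => G.pi d ∈ fr2) X := ⟨hX.sub, hX.clo⟩
    obtain ⟨h2, h4⟩ := (hadm X).1 h1
    exact ⟨h2, h1.sub.trans hfr2W, disjoint_of_subset_right hqB h4⟩
  have hfrS : (G.inn W f hf hW hfW).FrS z2 fr2 (F.filter fun d => G.pi d ∈ fr2) jm2 := by
    refine ⟨?_, ?_, ?_, ?_, ?_, hjs, ?_, ?_, ?_⟩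
    · intro v hv
      exact mem_insert_of_mem (hfr2W hv)
    · intro d hd
      obtain ⟨h1, h2⟩ := mem_filter.1 hd
      exact (mem_inn hf hW hfW).2 ⟨hF.Fsub h1, Or.inl ⟨hfr2W h2, hfr2W (hcl d h1 h2)⟩⟩
    · intro d hd
      obtain ⟨h1, h2⟩ := mem_filter.1 hd
      exact mem_filter.2 ⟨hF.Fal d h1, hcl d h1 h2⟩
    · intro d hd
      exact (mem_filter.1 hd).2
    · intro v hv
      rw [← hF.two v (hs hv)]
      congr 1
      ext d
      rw [mem_filter, mem_filter, mem_filter]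
      constructor
      · rintro ⟨⟨h1, -⟩, h4⟩
        exact ⟨h1, h4⟩
      · rintro ⟨h1, rfl⟩
        exact ⟨⟨h1, hv⟩, rfl⟩
    · intro v hv hj
      have hvP : v ∉ P := fun h1 => hj ((hjmP v hv).2 h1)
      have hvW := hfr2W hv
      have hvj : v ∉ jm := by
        intro h1
        exact hvP (by rw [hP]; exact mem_union_left _ (mem_inter.2 ⟨h1, hvW⟩))
      obtain ⟨j, j1, j2, j3, j4⟩ := hF.exists_jd (hs hv) hvj
      rw [card_eq_one]
      refine ⟨j, ?_⟩
      ext d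
      rw [mem_filter, mem_st, mem_singleton, mem_inn]
      constructor
      · rintro ⟨⟨⟨h1, -⟩, h2⟩, h4⟩
        have h2' : G.pi d = v := h2
        exact j4 d h1 h2' fun h5 => h4 (mem_filter.2 ⟨h5, h2' ▸ hv⟩)
      · rintro rfl
        refine ⟨⟨⟨j1, ?_⟩, j2⟩, fun h5 => j3 (mem_filter.1 h5).1⟩
        by_contra hn
        rw [not_or, not_or] at hn
        have hout : G.pi (G.al d) ∉ W := fun h5 => hn.1 ⟨j2 ▸ hvW, h5⟩
        by_cases h5 : G.pi (G.al d) ∈ fr
        · exact hvP (by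
            rw [hP]
            exact mem_union_right _ (mem_lp.2 ⟨⟨hs hv, hvW⟩, d, j1, j2, hout, hn.2.1, h5⟩))
        · exact disjoint_left.1 hdB hv (hqB (mem_lq.2 ⟨⟨hs hv, hvW⟩, d, j1, j2, hout, hn.2.1, h5⟩))
    · intro v hv d hd
      have hvf := hjs hv
      rw [mem_st, mem_inn] at hd
      obtain ⟨⟨h1, h2⟩, h4⟩ := hd
      have h4' : G.pi d = v := h4
      by_contra hn
      have hdF : d ∉ F := fun h5 => hn (mem_filter.2 ⟨h5, h4' ▸ hvf⟩)
      have hvP := (hjmP v hvf).1 hv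
      rw [hP] at hvP
      rcases mem_union.1 hvP with h5 | h5
      · exact hdF (hF.j0 v (mem_inter.1 h5).1 d (mem_st.2 ⟨h1, h4'⟩))
      · have hvj := lp_not_jm hF hFW h5
        obtain ⟨⟨h6, h7⟩, e, h8, h9, h10, h11, -⟩ := mem_lp.1 h5
        obtain ⟨j, -, -, -, j4⟩ := hF.exists_jd h6 hvj
        have e1 := j4 d h1 h4' hdF
        have e2 := j4 e h8 h9 (out_notF hFW (h9 ▸ h7) h10)
        rw [e1, ← e2] at h2
        rcases h2 with h2 | h2 | h2
        · exact h10 h2.2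
        · exact h11 h2
        · rw [h2] at h9
          exact hfU (h9 ▸ h7)
    · intro d hd hp
      exact hu2 d hd (hs hp) (hfr2W hp)
  have hsum : ∀ X, ∑ v ∈ X, (ep v + if v ∈ G.lp fr W f then 1 else 0) =
      ∑ v ∈ X, ep v + (X ∩ G.lp fr W f).card := by
    intro X
    rw [sum_add_distrib]
    congr 1
    rw [← sum_filter, card_eq_sum_ones]
    refine sum_congr ?_ fun _ _ => rfl
    ext v
    rw [mem_filter, mem_inter]
  have hev : ∀ X, (G.inn W f hf hW hfW).Adm fr2 (F.filter fun d => G.pi d ∈ fr2) X →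
      Even X.card → X.Nonempty → m ≤ ((G.inn W f hf hW hfW).bd X).card +
        ∑ v ∈ X, (ep v + if v ∈ G.lp fr W f then 1 else 0) := by
    intro X hX heX hneX
    obtain ⟨h1, h2, h4⟩ := hA X hX
    have h5 := h.ev X h1 heX hneX
    rw [inn_count hf hW hfW hfU hF hFW h1 h2 h4] at h5
    rw [hsum X]
    omega
  have hepj : ∀ v ∈ fr2, (ep v + if v ∈ G.lp fr W f then 1 else 0) ≤
      if v ∈ jm2 then 1 else 0 := by
    intro v hv
    have h1 := h.epj v (hs hv)
    by_cases h2 : v ∈ G.lp fr W f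
    · have h4 := lp_not_jm hF hFW h2
      rw [if_neg h4] at h1
      have h5 : v ∈ jm2 := (hjmP v hv).2 (by rw [hP]; exact mem_union_right _ h2)
      rw [if_pos h5, if_pos h2]
      omega
    · rw [if_neg h2]
      by_cases h4 : v ∈ jm
      · have h5 : v ∈ jm2 := (hjmP v hv).2
          (by rw [hP]; exact mem_union_left _ (mem_inter.2 ⟨h4, hfr2W hv⟩))
        rw [if_pos h4] at h1
        rw [if_pos h5]
        omega
      · rw [if_neg h4] at h1
        omega
  have ht2' : jm2.card = 2 → ∑ v ∈ jm2, t2 v = 2 := by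
    intro hc
    have h6 : ∑ v ∈ jm2, t2 v = ∑ _v ∈ jm2, (1 : ℝ) :=
      sum_congr rfl fun v hv => hfrS.t_jm hw2 hv
    rw [h6, sum_const, hc]
    norm_num
  refine ⟨?_, hw2, ht2, hfrS, ?_, hev, hjs, Or.inl rfl, ?_, ?_, ?_, hepj⟩
  · rw [inn_card hf hW hfW hfU]
    obtain ⟨k, hk'⟩ := hWo
    exact ⟨k + 1, by omega⟩
  · intro X hX hoX
    obtain ⟨h1, h2, h4⟩ := hA X hX
    have h5 := h.cc X h1 hoX
    rw [inn_count hf hW hfW hfU hF hFW h1 h2 h4] at h5
    rw [hsum X]
    omega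
  · rcases hk with ⟨e1, h5, -⟩ | ⟨e1, -⟩
    · exact Or.inr (by rw [e1]; exact h5)
    · exact Or.inl e1
  · intro hne
    rcases hk with ⟨e1, h5, -⟩ | ⟨e1, -⟩
    · exact (ht2' (by rw [e1]; exact h5)).ge
    · rw [e1] at hne
      exact absurd hne not_nonempty_empty
  · intro X hX heX hne hsX
    obtain ⟨h1, h2, h4⟩ := hA X hX
    rcases hk with ⟨e1, h5, h6⟩ | ⟨e1, -⟩
    · rcases (G.lp fr W f).eq_empty_or_nonempty with h0 | h0
      · -- the old star
        have h7 : P = jm := by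
          rw [hP, h0, union_empty]
          refine eq_of_subset_of_card_le inter_subset_left ?_
          rw [hP, h0, union_empty] at h5
          rcases h.jm2 with h8 | h8
          · rw [h8, card_empty]
            exact Nat.zero_le _
          · omega
        rw [e1, h7] at hne hsX
        have h8 := h.b0 X h1 heX hne hsX
        have h9 := inn_count hf hW hfW hfU hF hFW h1 h2 h4
        rw [h0, inter_empty, card_empty] at h9
        omega
      · -- a new star
        by_contra hlt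
        have hpar := hfrS.bd_par hX
        have hint : X ∩ jm2 = jm2 := inter_eq_right.2 hsX
        have hc2 : jm2.card = 2 := by rw [e1]; exact h5
        rw [hint, hc2] at hpar
        have hbd0 : ((G.inn W f hf hW hfW).bd X).card = 0 := by
          obtain ⟨k, hk'⟩ := heX
          omega
        rcases hn h5 h0 with hz2 | hm3
        · rw [card_eq_zero] at hbd0
          have hRo : Odd (W \ X).card := by
            have h7 := card_sdiff_add_card_eq_card h2
            rw [Nat.odd_iff] at hWo ⊢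
            rw [Nat.even_iff] at heX
            omega
          have h8 := hw2.cut (W \ X) (fun v hv => mem_insert_of_mem (mem_sdiff.1 hv).1) hRo
          have htX : 2 ≤ ∑ v ∈ X, t2 v := by
            have h9 : ∑ v ∈ jm2, t2 v ≤ ∑ v ∈ X, t2 v :=
              sum_le_sum_of_subset_of_nonneg hsX fun v hv _ =>
                hw2.t0 v (mem_insert_of_mem (h2 hv))
            have h10 := ht2' hc2
            linarith
          have hvs : (G.inn W f hf hW hfW).vs = insert (G.pi (G.al f)) W := rfl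
          rw [hvs, sum_insert hfU, ← sum_sdiff h2] at ht2
          -- the outer end of `f`
          have hst : (G.inn W f hf hW hfW).st (G.pi (G.al f)) = {G.al f} := by
            ext d
            rw [mem_st, mem_singleton]
            simp only [MG.inn, mem_filter]
            constructor
            · rintro ⟨⟨a, b | rfl | rfl⟩, c⟩
              · exact absurd b.1 (c ▸ hfU)
              · exact absurd (c ▸ hfW) hfU
              · rfl
            · rintro rfl
              exact ⟨⟨G.al_mem f hf, Or.inr (Or.inr rfl)⟩, rfl⟩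
          have hdeg := hw2.deg (G.pi (G.al f)) (mem_insert_self _ _)
          have hsym := hw2.sym f ((mem_inn hf hW hfW).2 ⟨hf, Or.inr (Or.inl rfl)⟩)
          have hsym' : z2 (G.al f) = z2 f := hsym
          rw [hst, sum_singleton, hsym'] at hdeg
          have hbd : (G.inn W f hf hW hfW).bd (W \ X) ⊆ {f} := by
            intro d hd
            obtain ⟨a, b, c⟩ := mem_bd.1 hd
            have b' : G.pi d ∈ W \ X := b
            have c' : G.pi (G.al d) ∉ W \ X := c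
            rw [mem_singleton]
            obtain ⟨a1, a2 | a2 | a2⟩ := (mem_inn hf hW hfW).1 a
            · exfalso
              have hX2 : G.pi (G.al d) ∈ X := by
                by_contra hn
                exact c' (mem_sdiff.2 ⟨a2.2, hn⟩)
              have hal : G.al d ∈ (G.inn W f hf hW hfW).bd X := by
                rw [mem_bd]
                refine ⟨(G.inn W f hf hW hfW).al_mem d a, hX2, ?_⟩
                have e1 : (G.inn W f hf hW hfW).al (G.al d) = d := G.al_al d a1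
                rw [e1]
                exact (mem_sdiff.1 b').2
              rw [hbd0] at hal
              exact absurd hal (notMem_empty _)
            · exact a2
            · exfalso
              rw [a2] at b'
              exact hfU (mem_sdiff.1 b').1
          have hzf : 0 ≤ z2 f := hw2.z0 f ((mem_inn hf hW hfW).2 ⟨hf, Or.inr (Or.inl rfl)⟩)
          have hsum2 : ∑ d ∈ (G.inn W f hf hW hfW).bd (W \ X), z2 d ≤ z2 f := by
            have h9 := sum_le_sum_of_subset_of_nonneg (f := z2) hbd fun d hd _ => by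
              rw [mem_singleton] at hd
              rw [hd]
              exact hzf
            rwa [sum_singleton] at h9
          unfold val at h8
          linarith
        · have hXne : X.Nonempty := by
            have : 0 < jm2.card := by omega
            obtain ⟨v, hv⟩ := card_pos.1 this
            exact ⟨v, hsX hv⟩
          have h7 := hev X hX heX hXne
          have h8 : ∑ v ∈ X, (ep v + if v ∈ G.lp fr W f then 1 else 0) ≤ 2 := by
            calc ∑ v ∈ X, (ep v + if v ∈ G.lp fr W f then 1 else 0)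
                ≤ ∑ v ∈ X, (if v ∈ jm2 then 1 else 0) := sum_le_sum fun v hv =>
                  hepj v (hX.sub hv)
              _ = (X ∩ jm2).card := by
                  rw [← sum_filter, card_eq_sum_ones]
                  refine sum_congr ?_ fun _ _ => rfl
                  ext v
                  rw [mem_filter, mem_inter]
              _ = 2 := by rw [hint, hc2]
          omega
    · rw [e1] at hne
      exact absurd hne not_nonempty_empty

end inner

private theorem inter_auxC {A J W L : Finset V} (h : A ⊆ W) :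
    A ∩ ((J ∩ W) ∪ L) = (A ∩ J) ∪ (A ∩ L) := by
  ext v
  simp only [mem_inter, mem_union]
  constructor
  · rintro ⟨h1, h2 | h2⟩
    · exact Or.inl ⟨h1, h2.1⟩
    · exact Or.inr ⟨h1, h2⟩
  · rintro (⟨h1, h2⟩ | ⟨h1, h2⟩)
    · exact ⟨h1, Or.inl ⟨h2, h h1⟩⟩
    · exact ⟨h1, Or.inr h2⟩

/-- **general gluing at an odd set** `W` (no F-edge leaves `W`): any weight `(z1, t1)` of the
contraction of `W` and, for every edge `f` leaving `W` with `z1 f > 0`, any weight `(z2, t2)` of the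
inner graph of `f`; both with less than 6 tokens and 1 at the fresh vertices. `Q` records what is
known about `z2`. -/
theorem glueX (h : G.InstC fr F jm ep m) {a b : ℕ} (ih : IHG a b m V D)
    (ha : fr.card ≤ a) (hb : G.vs.card ≤ b) (hW : W ⊆ G.vs) (hWo : Odd W.card)
    (hc1 : 3 ≤ W.card) (hc2 : 3 ≤ (G.vs \ W).card)
    (hFW : ∀ d ∈ F, G.pi d ∈ W → G.pi (G.al d) ∈ W) {ω : V} (hω : ω ∈ W)
    (hw1 : (G.con W ω hω hW).Wt z1 t1) (ht1 : ∑ v ∈ (G.con W ω hω hW).vs, t1 v < 6)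
    (hu1 : ∀ d ∈ G.ds, G.pi d ∈ fr → G.pi d ∉ W → z1 d = 1) {Q : D → (D → ℝ) → Prop}
    (hin : ∀ (f : D) (hf : f ∈ G.ds) (hfW : G.pi f ∈ W), G.pi (G.al f) ∉ W → 0 < z1 f →
      ((jm ∩ W) ∪ G.lp fr W f).card ≤ 2 ∧
      ∃ z2 t2, (G.inn W f hf hW hfW).Wt z2 t2 ∧
        ∑ v ∈ (G.inn W f hf hW hfW).vs, t2 v < 6 ∧
        (∀ d ∈ (G.inn W f hf hW hfW).ds, G.pi d ∈ fr → G.pi d ∈ W → z2 d = 1) ∧
        (((jm ∩ W) ∪ G.lp fr W f).card = 2 → (G.lp fr W f).Nonempty → z2 f ≤ 1 ∨ 3 ≤ m) ∧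
        Q f z2) :
    ∃ (M : Finset D) (f : D) (z2 : D → ℝ), G.IsPM M ∧
      (∀ X, G.Adm fr F X → (Odd X.card ∨ (jm.Nonempty ∧ jm ⊆ X)) → ∃ d ∈ G.bd X, d ∉ M) ∧
      f ∈ M ∧ G.pi f ∈ W ∧ G.pi (G.al f) ∉ W ∧ 0 < z1 f ∧ Q f z2 ∧
      (∀ d ∈ M, G.pi d ∈ W → G.pi (G.al d) ∉ W → d = f) ∧
      (∀ d ∈ M, ¬ (G.pi d ∈ W ∧ G.pi (G.al d) ∈ W) → 0 < z1 d) ∧
      (∀ d ∈ M, G.pi d ∈ W → G.pi (G.al d) ∈ W → 0 < z2 d) := by
  have hF := h.fresh
  have hcardW := card_sdiff_add_card_eq_card hW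
  have hFW' : ∀ d ∈ F, G.pi d ∉ W → G.pi (G.al d) ∉ W := by
    intro d hd h1 h2
    have h4 := hFW _ (hF.Fal d hd) h2
    rw [G.al_al d (hF.Fsub hd)] at h4
    exact h1 h4
  have hadmW : ∀ X, G.Adm fr F X → G.Adm fr F (X ∩ W) := fun X hX =>
    ⟨fun v hv => hX.sub (mem_inter.1 hv).1, fun d hd hp => mem_inter.2
      ⟨hX.clo d hd (mem_inter.1 hp).1, hFW d hd (mem_inter.1 hp).2⟩⟩
  have hadmU : ∀ X, G.Adm fr F X → G.Adm fr F (X \ W) := fun X hX =>
    ⟨fun v hv => hX.sub (mem_sdiff.1 hv).1, fun d hd hp => mem_sdiff.2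
      ⟨hX.clo d hd (mem_sdiff.1 hp).1, hFW' d hd (mem_sdiff.1 hp).2⟩⟩
  have hadmfr : G.Adm fr F fr := ⟨Finset.Subset.refl _, fun d hd _ => hF.Ffr _ (hF.Fal d hd)⟩
  -- outer instance
  obtain ⟨B1, hB1⟩ : ∃ B1 : Finset V, B1 = W ∪ if jm ⊆ G.vs \ W then ∅ else jm := ⟨_, rfl⟩
  obtain ⟨fr1, hs1, hcl1, hd1, hadm1⟩ := exists_avoid G fr F B1
  have hWB1 : W ⊆ B1 := by rw [hB1]; exact subset_union_left
  have hj1 : (jm ⊆ G.vs \ W → jm ⊆ fr1) ∧ (¬ jm ⊆ G.vs \ W → Disjoint jm fr1) := by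
    constructor
    · intro hout
      rw [if_pos hout, union_empty] at hB1
      have h4 : Disjoint (fr \ W) B1 := by
        rw [hB1]
        exact sdiff_disjoint
      have h5 := ((hadm1 (fr \ W)).2 ⟨hadmU fr hadmfr, h4⟩).sub
      exact fun v hv => h5 (mem_sdiff.2 ⟨hF.jms hv, (mem_sdiff.1 (hout hv)).2⟩)
    · intro hout
      rw [if_neg hout] at hB1
      have h4 : jm ⊆ B1 := by rw [hB1]; exact subset_union_right
      exact (disjoint_of_subset_right h4 hd1).symm
  have hj1' : jm ⊆ fr1 ∨ Disjoint jm fr1 := by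
    by_cases hout : jm ⊆ G.vs \ W
    · exact Or.inl (hj1.1 hout)
    · exact Or.inr (hj1.2 hout)
  have hC1 := con_instC hω hW h hWo hs1 hcl1 hd1 hWB1 hj1'
  have hu1' : ∀ d ∈ (G.con W ω hω hW).ds, (G.con W ω hω hW).pi d ∈ fr1 → z1 d = 1 := by
    intro d hd hp
    have h1 : d ∈ G.ds := mem_of_mem_filter d hd
    have hdW : Disjoint fr1 W := disjoint_of_subset_right hWB1 hd1
    by_cases h4 : G.pi d ∈ W
    · have h5 : (G.con W ω hω hW).pi d = ω := by simp [con, h4]
      rw [h5] at hp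
      exact absurd hω (disjoint_left.1 hdW hp)
    · rw [con_pi_not hω hW h4] at hp
      exact hu1 d h1 (hs1 hp) h4
  have hI1 := hC1.toS hw1 ht1 hu1'
  have hsz1 : (G.con W ω hω hW).vs.card < G.vs.card := by
    have h1 : (G.con W ω hω hW).vs.card ≤ (G.vs \ W).card + 1 := by
      have h4 : (G.con W ω hω hW).vs = (G.vs \ W) ∪ {ω} := rfl
      rw [h4]
      exact (card_union_le _ _).trans (by rw [card_singleton])
    omega
  obtain ⟨M1, hM1⟩ := ih _ _ _ _ _ _ _ _ ((card_le_card hs1).trans ha) (hsz1.trans_le hb) hI1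
  obtain ⟨f, hfM, hfW, hfU, huniq⟩ := con_one hω hW hM1.pm
  have hcon : ∀ d ∈ M1, d ∈ G.ds ∧ ¬ (G.pi d ∈ W ∧ G.pi (G.al d) ∈ W) := fun d hd =>
    mem_filter.1 (hM1.pm.sub hd)
  have hf := (hcon f hfM).1
  have hz : 0 < z1 f := hM1.pos f hfM
  have hafM1 : G.al f ∈ M1 := hM1.pm.closed f hfM
  -- ports
  obtain ⟨P, hP⟩ : ∃ P, P = (jm ∩ W) ∪ G.lp fr W f := ⟨_, rfl⟩
  obtain ⟨hPc, z2, t2, hw2, ht2, hu2, hn2, hQ⟩ := hin f hf hfW hfU hz
  rw [← hP] at hPc hn2
  obtain ⟨fr20, hs20, hcl20, hd20, hadm20⟩ := exists_avoid G fr F ((G.vs \ W) ∪ G.lq fr W f)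
  -- inner instance
  have hsz2 : (G.inn W f hf hW hfW).vs.card < G.vs.card := by
    rw [inn_card hf hW hfW hfU]
    omega
  obtain ⟨fr2, jm2, M2, hM2, hcase⟩ : ∃ fr2 jm2 M2,
      (G.inn W f hf hW hfW).GoodS z2 fr2 (F.filter fun d => G.pi d ∈ fr2) jm2 M2 ∧
      (((∀ X, G.Adm fr F X → X ⊆ W → Disjoint X (G.lq fr W f) →
          G.Adm fr2 (F.filter fun d => G.pi d ∈ fr2) X) ∧ jm2 = P ∧ P.card = 2) ∨
        ((∀ X, G.Adm fr F X → X ⊆ W → Disjoint X (G.lq fr W f) → Disjoint X P →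
          G.Adm fr2 (F.filter fun d => G.pi d ∈ fr2) X) ∧
          ¬ (P.card = 2 ∧ P ⊆ fr20))) := by
    by_cases hB : P.card = 2 ∧ P ⊆ fr20
    · obtain ⟨a2, a3⟩ := hB
      have hI2 := inn_instC hf hW hfW hfU h hWo hFW (jm2 := P) hs20 hcl20 hd20
        subset_union_left subset_union_right hadm20 hP (Or.inl ⟨rfl, a2, a3⟩) hw2 ht2 hu2 hn2
      obtain ⟨M2, hM2⟩ := ih _ _ _ _ _ _ _ _ ((card_le_card hs20).trans ha) (hsz2.trans_le hb) hI2
      refine ⟨fr20, P, M2, hM2, Or.inl ⟨?_, rfl, a2⟩⟩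
      intro X hX hXW hXq
      refine (hadm20 X).2 ⟨hX, ?_⟩
      rw [disjoint_union_right]
      exact ⟨disjoint_of_subset_left hXW disjoint_sdiff, hXq⟩
    · obtain ⟨fr2, hs2, hcl2, hd2, hadm2⟩ := exists_avoid G fr F
        (((G.vs \ W) ∪ G.lq fr W f) ∪ P)
      have hI2 := inn_instC hf hW hfW hfU h hWo hFW (jm2 := ∅) hs2 hcl2 hd2
        (subset_union_left.trans subset_union_left)
        (subset_union_right.trans subset_union_left) hadm2 hP
        (Or.inr ⟨rfl, (disjoint_of_subset_right subset_union_right hd2).symm⟩) hw2 ht2 hu2 hn2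
      obtain ⟨M2, hM2⟩ := ih _ _ _ _ _ _ _ _ ((card_le_card hs2).trans ha) (hsz2.trans_le hb) hI2
      refine ⟨fr2, ∅, M2, hM2, Or.inr ⟨?_, hB⟩⟩
      intro X hX hXW hXq hXP
      refine (hadm2 X).2 ⟨hX, ?_⟩
      rw [disjoint_union_right, disjoint_union_right]
      exact ⟨⟨disjoint_of_subset_left hXW disjoint_sdiff, hXq⟩, hXP⟩
  -- the matching
  obtain ⟨hfM2, hafM2⟩ := inn_pm_f hf hW hfW hfU hM2.pm
  obtain ⟨w1, w2, w3, w4⟩ := inn_pm_W hf hW hfW hfU hM2.pm
  set M2' := M2.filter fun d => G.pi d ∈ W ∧ G.pi (G.al d) ∈ W with hM2'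
  have hpm : G.IsPM (M1 ∪ M2') := con_glue hω hW hM1.pm hfM hfW w1 w2 w3 w4
  refine ⟨M1 ∪ M2', f, z2, hpm, ?_, mem_union_left _ hfM, hfW, hfU, hz, hQ, ?_, ?_, ?_⟩
  rotate_left
  · intro d hd h1 h2
    rcases mem_union.1 hd with h3 | h3
    · exact huniq d h3 h1
    · exact absurd (mem_filter.1 h3).2.2 h2
  · intro d hd h1
    rcases mem_union.1 hd with h2 | h2
    · exact hM1.pos d h2
    · exact absurd (mem_filter.1 h2).2 h1
  · intro d hd h1 h2
    rcases mem_union.1 hd with h3 | h3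
    · exact absurd ⟨h1, h2⟩ (hcon d h3).2
    · exact hM2.pos d (mem_filter.1 h3).1
  intro X hX hodd
  by_contra hcon'
  push Not at hcon'
  have hcl : ∀ d ∈ G.bd X, d ∈ M1 ∪ M2' := hcon'
  have hXW := hadmW X hX
  have hXU := hadmU X hX
  -- darts leaving `W`
  have hout : ∀ d ∈ G.ds, G.pi d ∈ W → G.pi (G.al d) ∉ W → (d ∈ M1 ∪ M2' ↔ d = f) := by
    intro d _ h1 h2
    constructor
    · intro h4
      rcases mem_union.1 h4 with h5 | h5
      · exact huniq d h5 h1
      · exact absurd (mem_filter.1 h5).2.2 h2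
    · rintro rfl
      exact mem_union_left _ hfM
  -- closed, so deleted darts at `X` go to `X`
  have hdel : ∀ d ∈ G.ds, G.pi d ∈ X → G.pi d ∈ W → G.pi (G.al d) ∉ W → d ≠ f →
      G.pi (G.al d) ∈ X := by
    intro d h1 h2 h4 h5 h6
    by_contra hn
    exact h6 ((hout d h1 h4 h5).1 (hcl d (mem_bd.2 ⟨h1, h2, hn⟩)))
  have hXq : Disjoint (X ∩ W) (G.lq fr W f) := by
    rw [disjoint_left]
    intro v hv hq
    obtain ⟨-, d, h1, h2, h4, h5, h6⟩ := mem_lq.1 hq
    obtain ⟨h7, h8⟩ := mem_inter.1 hv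
    exact h6 (hX.sub (hdel d h1 (h2 ▸ h7) (h2 ▸ h8) h4 h5))
  -- parity
  have hcnt := inn_count hf hW hfW hfU hF hFW hXW inter_subset_right hXq
  have hfilt : (G.bd (X ∩ W)).filter (fun d => d ∈ M1 ∪ M2') =
      (G.inn W f hf hW hfW).bd (X ∩ W) := by
    ext d
    rw [mem_filter, mem_inn_bd hf hW hfW hfU inter_subset_right]
    constructor
    · rintro ⟨h1, h2⟩
      refine ⟨h1, ?_⟩
      by_cases h4 : G.pi (G.al d) ∈ W
      · exact Or.inl h4
      · obtain ⟨a, b, -⟩ := mem_bd.1 h1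
        exact Or.inr ((hout d a (mem_inter.1 b).2 h4).1 h2)
    · rintro ⟨h1, h2⟩
      refine ⟨h1, ?_⟩
      rcases h2 with h2 | rfl
      · obtain ⟨a, b, c⟩ := mem_bd.1 h1
        exact hcl d (mem_bd.2 ⟨a, (mem_inter.1 b).1, fun h4 => c (mem_inter.2 ⟨h4, h2⟩)⟩)
      · exact mem_union_left _ hfM
  have hE := card_filter_add_card_filter_not (s := G.bd (X ∩ W)) (fun d => d ∈ M1 ∪ M2')
  have hpar := hF.unused_par hpm hXW
  have hPe : Even ((X ∩ W) ∩ P).card := by
    have h1 : (X ∩ W) ∩ P = ((X ∩ W) ∩ jm) ∪ ((X ∩ W) ∩ G.lp fr W f) := by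
      rw [hP]
      exact inter_auxC inter_subset_right
    have h2 : Disjoint ((X ∩ W) ∩ jm) ((X ∩ W) ∩ G.lp fr W f) := by
      rw [disjoint_left]
      intro v hv hv2
      exact lp_not_jm hF hFW (mem_inter.1 hv2).2 (mem_inter.1 hv).2
    rw [h1, card_union_of_disjoint h2, Nat.even_iff]
    rw [hfilt] at hE
    omega
  -- transfer
  have TW : G.Adm fr2 (F.filter fun d => G.pi d ∈ fr2) (X ∩ W) →
      (Odd (X ∩ W).card ∨ (jm2.Nonempty ∧ jm2 ⊆ X ∩ W)) → False := by
    intro h1 h2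
    obtain ⟨d, h4, h5⟩ := hM2.hit (X ∩ W) ⟨h1.sub, h1.clo⟩ h2
    obtain ⟨h6, h7⟩ := (mem_inn_bd hf hW hfW hfU inter_subset_right).1 h4
    rcases h7 with h7 | rfl
    · obtain ⟨a, b, c⟩ := mem_bd.1 h6
      have h8 := hcl d (mem_bd.2 ⟨a, (mem_inter.1 b).1, fun h9 => c (mem_inter.2 ⟨h9, h7⟩)⟩)
      rcases mem_union.1 h8 with h9 | h9
      · exact (hcon d h9).2 ⟨(mem_inter.1 b).2, h7⟩
      · exact h5 (mem_filter.1 h9).1
    · exact h5 hfM2
  have TU : G.Adm fr1 (F.filter fun d => G.pi d ∈ fr1) (X \ W) → Disjoint (X ∩ W) P →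
      (Odd (X \ W).card ∨ ((jm ∩ fr1).Nonempty ∧ jm ∩ fr1 ⊆ X \ W)) → False := by
    intro h1 h0 h2
    obtain ⟨d, h4, h5⟩ := hM1.hit (X \ W)
      ((con_adm hω hW (disjoint_of_subset_right hWB1 hd1) hcl1).2 h1) h2
    rw [con_bd_out hω hW (hXU.sub.trans hF.fsub) sdiff_disjoint] at h4
    obtain ⟨a, b, c⟩ := mem_bd.1 h4
    obtain ⟨b1, b2⟩ := mem_sdiff.1 b
    by_cases h6 : G.pi (G.al d) ∈ X
    · have h7 : G.pi (G.al d) ∈ W := by
        by_contra hn
        exact c (mem_sdiff.2 ⟨h6, hn⟩)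
      have haa := G.al_al d a
      by_cases h8 : G.al d = f
      · apply h5
        rw [← haa, h8]
        exact hafM1
      · refine disjoint_left.1 h0 (mem_inter.2 ⟨h6, h7⟩) ?_
        rw [hP]
        refine mem_union_right _ (mem_lp.2 ⟨⟨hX.sub h6, h7⟩, G.al d, G.al_mem d a, rfl, ?_, h8, ?_⟩)
        · rw [haa]
          exact b2
        · rw [haa]
          exact hX.sub b1
    · rcases mem_union.1 (hcl d (mem_bd.2 ⟨a, b1, h6⟩)) with h7 | h7
      · exact h5 h7
      · exact b2 (mem_filter.1 h7).2.1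
  have hsub20 : X ∩ W ⊆ fr20 := by
    refine ((hadm20 _).2 ⟨hXW, ?_⟩).sub
    rw [disjoint_union_right]
    exact ⟨disjoint_of_subset_left inter_subset_right disjoint_sdiff, hXq⟩
  have hstar : ∀ v ∈ jm, v ∈ X → jm ⊆ X := fun v hv hvX => h.star_sub hpm hX hcl hv hvX
  by_cases hq0 : Disjoint (X ∩ W) P
  · -- no link
    have hAW : G.Adm fr2 (F.filter fun d => G.pi d ∈ fr2) (X ∩ W) := by
      rcases hcase with ⟨h1, -⟩ | ⟨h1, -⟩
      · exact h1 _ hXW inter_subset_right hXq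
      · exact h1 _ hXW inter_subset_right hXq hq0
    -- a star in `X` lies outside `W`
    have hjo : ∀ u ∈ jm, u ∈ X → jm ⊆ G.vs \ W := by
      intro u hu huX w hw
      refine mem_sdiff.2 ⟨hF.fsub (hF.jms hw), fun hwW => ?_⟩
      refine disjoint_left.1 hq0 (mem_inter.2 ⟨hstar u hu huX hw, hwW⟩) ?_
      rw [hP]
      exact mem_union_left _ (mem_inter.2 ⟨hw, hwW⟩)
    have hAU : G.Adm fr1 (F.filter fun d => G.pi d ∈ fr1) (X \ W) := by
      refine (hadm1 _).2 ⟨hXU, ?_⟩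
      rw [hB1, disjoint_union_right]
      refine ⟨sdiff_disjoint, ?_⟩
      by_cases h1 : jm ⊆ G.vs \ W
      · rw [if_pos h1]
        exact disjoint_empty_right _
      · rw [if_neg h1, disjoint_left]
        intro v hv hvs
        exact h1 (hjo v hvs (mem_sdiff.1 hv).1)
    rcases hodd with ho | ⟨hne, hsX⟩
    · have h1 : (X ∩ W).card + (X \ W).card = X.card := by
        rw [add_comm]
        exact card_sdiff_add_card_inter X W
      rcases Nat.even_or_odd (X ∩ W).card with h2 | h2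
      · refine TU hAU hq0 (Or.inl ?_)
        rw [Nat.odd_iff] at ho ⊢
        rw [Nat.even_iff] at h2
        omega
      · exact TW hAW (Or.inl h2)
    · obtain ⟨u, hu⟩ := hne
      have h1 := hjo u hu (hsX hu)
      have h2 := hj1.1 h1
      refine TU hAU hq0 (Or.inr ?_)
      rw [inter_eq_left.2 h2]
      exact ⟨⟨u, hu⟩, fun v hv => mem_sdiff.2 ⟨hsX hv, (mem_sdiff.1 (h1 hv)).2⟩⟩
  · -- two links
    have h1 : 0 < ((X ∩ W) ∩ P).card := by
      rw [card_pos]
      rw [disjoint_iff_inter_eq_empty] at hq0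
      exact nonempty_iff_ne_empty.2 hq0
    have h2 : ((X ∩ W) ∩ P).card ≤ P.card := card_le_card inter_subset_right
    have h4 : P.card = 2 := by
      obtain ⟨k, hk⟩ := hPe
      omega
    have h5 : P ⊆ X ∩ W := by
      have h6 : (X ∩ W) ∩ P = P := by
        refine eq_of_subset_of_card_le inter_subset_right ?_
        obtain ⟨k, hk⟩ := hPe
        omega
      rw [← h6]
      exact inter_subset_left
    rcases hcase with ⟨h6, h8, -⟩ | ⟨-, h8⟩
    · refine TW (h6 _ hXW inter_subset_right hXq) (Or.inr ?_)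
      rw [h8]
      exact ⟨card_pos.1 (by omega), h5⟩
    · exact h8 ⟨h4, h5.trans hsub20⟩

/-! ### the weight of the inner graph of an odd set -/

/-- `f` gets the weight `y` -/
noncomputable def zN (G : MG V D) (z : D → ℝ) (f : D) (y : ℝ) (d : D) : ℝ :=
  if d = f ∨ d = G.al f then y else z d

/-- the tokens of the inner graph which belong to `zN` -/
noncomputable def tN (G : MG V D) (z : D → ℝ) (W : Finset V) (f : D) (hf : f ∈ G.ds)
    (hW : W ⊆ G.vs) (hfW : G.pi f ∈ W) (y : ℝ) (v : V) : ℝ :=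
  3 - ∑ d ∈ (G.inn W f hf hW hfW).st v, G.zN z f y d

/-- an even set: the edges and tokens at one vertex -/
theorem Wt.even_val (h : G.Wt z t) {S : Finset V} (hS : S ⊆ G.vs) (he : Even S.card) {d : D}
    (hd : d ∈ G.bd S) : 2 * (z d + t (G.pi d)) ≤ G.val z t S := by
  obtain ⟨h0, hb, ho⟩ := mem_bd.1 hd
  have h1 := h.posimod hS (singleton_subset_iff.2 (hS hb))
  have h2 : S ∩ {G.pi d} = {G.pi d} := inter_eq_right.2 (singleton_subset_iff.2 hb)
  have h3 : ({G.pi d} : Finset V) \ S = ∅ := sdiff_eq_empty_iff_subset.2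
    (singleton_subset_iff.2 hb)
  have h4 : S ∪ {G.pi d} = S := union_eq_left.2 (singleton_subset_iff.2 hb)
  have h5 : G.val z t ∅ = 0 := by
    unfold val bd
    simp
  rw [h2, h3, h4, h.val_single (hS hb), h5, sum_singleton] at h1
  have h6 : Odd (S \ {G.pi d}).card := by
    have h7 := card_sdiff_add_card_eq_card (singleton_subset_iff.2 hb)
    rw [card_singleton] at h7
    rw [Nat.odd_iff]
    rw [Nat.even_iff] at he
    omega
  have h7 := h.cut _ (sdiff_subset.trans hS) h6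
  have h8 : z d ≤ ∑ e ∈ G.ed {G.pi d} (G.vs \ S), z e :=
    single_le_sum (f := z) (fun e he => h.z0 e (mem_ed.1 he).1)
      (mem_ed.2 ⟨h0, mem_singleton_self _, mem_sdiff.2 ⟨G.pi_mem _ (G.al_mem _ h0), ho⟩⟩)
  linarith

section weight

variable (hf : f ∈ G.ds) (hW : W ⊆ G.vs) (hfW : G.pi f ∈ W) (hfU : G.pi (G.al f) ∉ W) {y : ℝ}

include hfU in
theorem zN_in {d : D} (h1 : G.pi d ∈ W) (h2 : G.pi (G.al d) ∈ W) : G.zN z f y d = z d := by
  unfold zN
  rw [if_neg]
  rintro (rfl | rfl)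
  · exact hfU h2
  · exact hfU h1

theorem zN_f : G.zN z f y f = y := by
  unfold zN
  rw [if_pos (Or.inl rfl)]

include hf hfW hfU in
private theorem inn_ed_sum {X : Finset V} (hX : X ⊆ insert (G.pi (G.al f)) W) :
    ∑ d ∈ (G.inn W f hf hW hfW).ed X X, G.zN z f y d =
      ∑ d ∈ G.ed (X.erase (G.pi (G.al f))) (X.erase (G.pi (G.al f))), z d +
        if G.pi f ∈ X ∧ G.pi (G.al f) ∈ X then 2 * y else 0 := by
  have hS : ∀ v ∈ X.erase (G.pi (G.al f)), v ∈ W := fun v hv =>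
    (mem_insert.1 (hX (mem_erase.1 hv).2)).resolve_left (mem_erase.1 hv).1
  have hne : f ≠ G.al f := by
    intro h
    have h1 := hfU
    rw [← h] at h1
    exact h1 hfW
  have e1 : ∑ d ∈ G.ed (X.erase (G.pi (G.al f))) (X.erase (G.pi (G.al f))), z d =
      ∑ d ∈ G.ed (X.erase (G.pi (G.al f))) (X.erase (G.pi (G.al f))), G.zN z f y d := by
    refine sum_congr rfl fun d hd => ?_
    obtain ⟨-, h2, h3⟩ := mem_ed.1 hd
    exact (zN_in hfU (hS _ h2) (hS _ h3)).symm
  rw [e1]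
  by_cases hc : G.pi f ∈ X ∧ G.pi (G.al f) ∈ X
  · rw [if_pos hc]
    have h1 : (G.inn W f hf hW hfW).ed X X =
        G.ed (X.erase (G.pi (G.al f))) (X.erase (G.pi (G.al f))) ∪ {f, G.al f} := by
      ext d
      rw [mem_ed, mem_inn, mem_union, mem_ed, mem_insert, mem_singleton]
      constructor
      · rintro ⟨⟨a, b | b | b⟩, c, e⟩
        · have c' : G.pi d ∈ X := c
          have e' : G.pi (G.al d) ∈ X := e
          refine Or.inl ⟨a, mem_erase.2 ⟨?_, c'⟩, mem_erase.2 ⟨?_, e'⟩⟩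
          · intro h
            exact hfU (h ▸ b.1)
          · intro h
            exact hfU (h ▸ b.2)
        · exact Or.inr (Or.inl b)
        · exact Or.inr (Or.inr b)
      · rintro (⟨a, b, c⟩ | rfl | rfl)
        · exact ⟨⟨a, Or.inl ⟨hS _ b, hS _ c⟩⟩, (mem_erase.1 b).2, (mem_erase.1 c).2⟩
        · exact ⟨⟨hf, Or.inr (Or.inl rfl)⟩, hc.1, hc.2⟩
        · refine ⟨⟨G.al_mem _ hf, Or.inr (Or.inr rfl)⟩, hc.2, ?_⟩
          have h2 : (G.inn W f hf hW hfW).al (G.al f) = f := G.al_al f hf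
          rw [h2]
          exact hc.1
    have h2 : Disjoint (G.ed (X.erase (G.pi (G.al f))) (X.erase (G.pi (G.al f))))
        {f, G.al f} := by
      rw [disjoint_left]
      intro d hd hd2
      obtain ⟨-, a, b⟩ := mem_ed.1 hd
      rw [mem_insert, mem_singleton] at hd2
      rcases hd2 with rfl | rfl
      · exact (mem_erase.1 b).1 rfl
      · exact (mem_erase.1 a).1 rfl
    rw [h1, sum_union h2, sum_pair hne]
    have e2 : G.zN z f y f = y := zN_f
    have e3 : G.zN z f y (G.al f) = y := by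
      unfold zN
      rw [if_pos (Or.inr rfl)]
    rw [e2, e3]
    ring
  · rw [if_neg hc, add_zero]
    refine sum_congr ?_ fun _ _ => rfl
    ext d
    rw [mem_ed, mem_inn, mem_ed]
    constructor
    · rintro ⟨⟨a, b | b | b⟩, c, e⟩
      · have c' : G.pi d ∈ X := c
        have e' : G.pi (G.al d) ∈ X := e
        refine ⟨a, mem_erase.2 ⟨?_, c'⟩, mem_erase.2 ⟨?_, e'⟩⟩
        · intro h
          exact hfU (h ▸ b.1)
        · intro h
          exact hfU (h ▸ b.2)
      · exfalso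
        subst b
        exact hc ⟨c, e⟩
      · exfalso
        subst b
        have h2 : (G.inn W f hf hW hfW).al (G.al f) = f := G.al_al f hf
        rw [h2] at e
        exact hc ⟨e, c⟩
    · rintro ⟨a, b, c⟩
      exact ⟨⟨a, Or.inl ⟨hS _ b, hS _ c⟩⟩, (mem_erase.1 b).2, (mem_erase.1 c).2⟩

include hfU in
/-- **the inner weight of an odd set of any value** -/
theorem Wt.innN (h : G.Wt z t) (hy0 : 0 ≤ y) (hy1 : y ≤ z f + t (G.pi f)) :
    (G.inn W f hf hW hfW).Wt (G.zN z f y) (G.tN z W f hf hW hfW y) := by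
  have hb := hW hfW
  have hstb : z f ≤ ∑ d ∈ G.st (G.pi f), z d :=
    single_le_sum (f := z) (fun d hd => h.z0 d (mem_st.1 hd).1) (mem_st.2 ⟨hf, rfl⟩)
  have hy3 : y ≤ 3 := by
    have h1 := h.deg _ hb
    linarith
  have hne : f ≠ G.al f := by
    intro h1
    have h2 := hfU
    rw [← h1] at h2
    exact h2 hfW
  have hal : G.al (G.al f) = f := G.al_al f hf
  refine Wt.of_ed ?_ ?_ ?_ ?_ ?_
  · intro d hd
    unfold zN
    split_ifs
    · exact hy0
    · exact h.z0 d (mem_filter.1 hd).1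
  · intro v hv
    have goal : ∑ d ∈ (G.inn W f hf hW hfW).st v, G.zN z f y d ≤ 3 := by
      rcases mem_insert.1 (show v ∈ insert (G.pi (G.al f)) W from hv) with rfl | hvW
      · have hst : (G.inn W f hf hW hfW).st (G.pi (G.al f)) = {G.al f} := by
          ext d
          rw [mem_st, mem_singleton]
          simp only [MG.inn, mem_filter]
          constructor
          · rintro ⟨⟨a, b | rfl | rfl⟩, c⟩
            · exact absurd b.1 (c ▸ hfU)
            · exact absurd (c ▸ hfW) hfU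
            · rfl
          · rintro rfl
            exact ⟨⟨G.al_mem f hf, Or.inr (Or.inr rfl)⟩, rfl⟩
        rw [hst, sum_singleton]
        unfold zN
        rw [if_pos (Or.inr rfl)]
        exact hy3
      · have hsub : (G.inn W f hf hW hfW).st v ⊆ G.st v := by
          intro d hd
          obtain ⟨h1, h2⟩ := mem_st.1 hd
          exact mem_st.2 ⟨(mem_filter.1 h1).1, h2⟩
        have hnal : ∀ d ∈ G.st v, d ≠ G.al f := by
          rintro d hd rfl
          exact hfU ((mem_st.1 hd).2 ▸ hvW)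
        have h1 : ∑ d ∈ (G.inn W f hf hW hfW).st v, G.zN z f y d ≤
            ∑ d ∈ G.st v, G.zN z f y d := by
          refine sum_le_sum_of_subset_of_nonneg hsub fun d hd _ => ?_
          unfold zN
          split_ifs
          · exact hy0
          · exact h.z0 d (mem_st.1 hd).1
        by_cases hvb : v = G.pi f
        · have hfs : f ∈ G.st v := mem_st.2 ⟨hf, hvb.symm⟩
          have h2 : ∑ d ∈ G.st v, G.zN z f y d = ∑ d ∈ G.st v, z d - z f + y := by
            rw [← add_sum_erase _ _ hfs, ← add_sum_erase _ z hfs, zN_f]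
            have h3 : ∑ d ∈ (G.st v).erase f, G.zN z f y d = ∑ d ∈ (G.st v).erase f, z d := by
              refine sum_congr rfl fun d hd => ?_
              obtain ⟨h4, h5⟩ := mem_erase.1 hd
              unfold zN
              rw [if_neg]
              rintro (h6 | h6)
              · exact h4 h6
              · exact hnal d h5 h6
            rw [h3]
            ring
          have h3 := h.deg v (hW hvW)
          rw [h2] at h1
          rw [← hvb] at hy1
          linarith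
        · have h2 : ∑ d ∈ G.st v, G.zN z f y d = ∑ d ∈ G.st v, z d := by
            refine sum_congr rfl fun d hd => ?_
            unfold zN
            rw [if_neg]
            rintro (h6 | h6)
            · exact hvb (by rw [← h6]; exact (mem_st.1 hd).2.symm)
            · exact hnal d hd h6
          have h3 := h.deg v (hW hvW)
          have h4 := h.t0 v (hW hvW)
          linarith
    unfold tN
    linarith
  · intro d hd
    have hd0 := (mem_filter.1 hd).1
    have e1 : (G.inn W f hf hW hfW).al d = G.al d := rfl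
    rw [e1]
    unfold zN
    by_cases h1 : d = f
    · subst h1
      rw [if_pos (Or.inr rfl), if_pos (Or.inl rfl)]
    · by_cases h2 : d = G.al f
      · subst h2
        rw [hal, if_pos (Or.inl rfl), if_pos (Or.inr rfl)]
      · rw [if_neg, if_neg]
        · exact h.sym d hd0
        · rintro (h3 | h3)
          · exact h1 h3
          · exact h2 h3
        · rintro (h3 | h3)
          · apply h2
            rw [← h3, G.al_al d hd0]
          · apply h1
            have h4 := congrArg G.al h3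
            rwa [G.al_al d hd0, hal] at h4
  · intro v _
    unfold tN
    ring
  · intro X hX ho
    have hX' : X ⊆ insert (G.pi (G.al f)) W := hX
    rw [inn_ed_sum hf hW hfW hfU hX']
    have hS : X.erase (G.pi (G.al f)) ⊆ W := fun v hv =>
      (mem_insert.1 (hX' (mem_erase.1 hv).2)).resolve_left (mem_erase.1 hv).1
    by_cases hc : G.pi (G.al f) ∈ X
    · have hcard : X.card = (X.erase (G.pi (G.al f))).card + 1 := (card_erase_add_one hc).symm
      have hSe : Even (X.erase (G.pi (G.al f))).card := by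
        rw [Nat.odd_iff] at ho
        rw [Nat.even_iff]
        omega
      have hcr : (X.card : ℝ) = (X.erase (G.pi (G.al f))).card + 1 := by exact_mod_cast hcard
      by_cases hb' : G.pi f ∈ X
      · rw [if_pos ⟨hb', hc⟩]
        have hbS : G.pi f ∈ X.erase (G.pi (G.al f)) :=
          mem_erase.2 ⟨fun e => G.noloop f hf e.symm, hb'⟩
        have h1 := h.even_val (hS.trans hW) hSe
          (mem_bd.2 ⟨hf, hbS, fun h2 => hfU (hS h2)⟩)
        rw [h.val_eq (hS.trans hW)] at h1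
        rw [hcr]
        linarith
      · rw [if_neg (fun h1 => hb' h1.1)]
        have h1 := h.ed_le (hS.trans hW)
        rw [hcr]
        linarith
    · rw [if_neg (fun h1 => hc h1.2), erase_eq_of_notMem hc]
      have hXW : X ⊆ W := by
        rw [erase_eq_of_notMem hc] at hS
        exact hS
      have h1 := h.ed_odd (hXW.trans hW) ho
      linarith

include hfU in
theorem innN_tau (h : G.Wt z t) (hy0 : 0 ≤ y) (hy1 : y ≤ z f + t (G.pi f)) :
    ∑ v ∈ (G.inn W f hf hW hfW).vs, G.tN z W f hf hW hfW y v = G.val z t W + 3 - 2 * y := by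
  have h1 := (h.innN hf hW hfW hfU hy0 hy1).tau_eq
  rw [h1, inn_card hf hW hfW hfU, h.val_eq hW]
  have h2 : (G.inn W f hf hW hfW).ds = (G.inn W f hf hW hfW).ed (insert (G.pi (G.al f)) W)
      (insert (G.pi (G.al f)) W) := by
    ext d
    rw [mem_ed]
    exact ⟨fun h3 => ⟨h3, (G.inn W f hf hW hfW).pi_mem d h3,
      (G.inn W f hf hW hfW).pi_mem _ ((G.inn W f hf hW hfW).al_mem d h3)⟩, fun h3 => h3.1⟩
  rw [h2, inn_ed_sum hf hW hfW hfU (Finset.Subset.refl _),
    if_pos ⟨mem_insert_of_mem hfW, mem_insert_self _ _⟩, erase_insert hfU]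
  push_cast
  ring

include hfU in
/-- unit weights stay -/
theorem innN_unit (hF : G.FrS z fr F jm) (hFW : ∀ d ∈ F, G.pi d ∈ W → G.pi (G.al d) ∈ W)
    (h : G.Wt z t) (hy : y = z f + t (G.pi f) ∨ y = min 1 (z f + t (G.pi f))) :
    ∀ d ∈ (G.inn W f hf hW hfW).ds, G.pi d ∈ fr → G.pi d ∈ W → G.zN z f y d = 1 := by
  intro d hd hp hpW
  have hd0 := (mem_filter.1 hd).1
  by_cases h1 : d = f
  · subst h1
    have hnF := out_notF hFW hfW hfU
    have hj : G.pi d ∉ jm := fun h8 => hnF (hF.j0 _ h8 d (mem_st.2 ⟨hf, rfl⟩))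
    have ht := hF.t_not_jm h hp hj
    have hz := hF.unit d hf hp
    rw [zN_f]
    rw [ht, hz, add_zero, min_self] at hy
    rcases hy with hy | hy
    · exact hy
    · exact hy
  · unfold zN
    rw [if_neg]
    · exact hF.unit d hd0 hp
    · rintro (h2 | h2)
      · exact h1 h2
      · rw [h2] at hpW
        exact hfU hpW

end weight

/-! ### near-tight gluing -/

/-- **near-tight gluing**: `W` is an odd set with any value such that
`val W < 3 + 2 z f + 2 t (pi f)` for every edge `f` leaving `W` which is used by the weight `z1` of the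
contraction -/
theorem glueN (h : G.InstC fr F jm ep m) (hw : G.Wt z t)
    (hu : ∀ d ∈ G.ds, G.pi d ∈ fr → z d = 1) {a b : ℕ} (ih : IHG a b m V D)
    (ha : fr.card ≤ a) (hb : G.vs.card ≤ b) (hW : W ⊆ G.vs) (hWo : Odd W.card)
    (hc1 : 3 ≤ W.card) (hc2 : 3 ≤ (G.vs \ W).card)
    (hFW : ∀ d ∈ F, G.pi d ∈ W → G.pi (G.al d) ∈ W) {ω : V} (hω : ω ∈ W)
    (hw1 : (G.con W ω hω hW).Wt z1 t1) (ht1 : ∑ v ∈ (G.con W ω hω hW).vs, t1 v < 6)
    (hz1 : ∀ d ∈ G.ds, z d = 0 → z1 d = 0)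
    (hu1 : ∀ d ∈ G.ds, G.pi d ∈ fr → G.pi d ∉ W → z1 d = 1)
    (hv : ∀ f ∈ G.bd W, 0 < z1 f → G.val z t W < 3 + 2 * z f + 2 * t (G.pi f))
    (hp : ∀ f ∈ G.bd W, 0 < z1 f → ((jm ∩ W) ∪ G.lp fr W f).card ≤ 2)
    (hn : ∀ f ∈ G.bd W, 0 < z1 f → ((jm ∩ W) ∪ G.lp fr W f).card = 2 →
      (G.lp fr W f).Nonempty → G.val z t W < 5 ∨ 3 ≤ m) :
    ∃ M, G.GoodS z fr F jm M := by
  have hF : G.FrS z fr F jm := h.fresh.chg hu
  have hposz : ∀ d ∈ G.ds, 0 < z1 d → 0 < z d := by
    intro d hd h1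
    rcases (hw.z0 d hd).lt_or_eq with h2 | h2
    · exact h2
    · rw [hz1 d hd h2.symm] at h1
      exact absurd h1 (lt_irrefl _)
  obtain ⟨M, f, z2, h1, h2, h3, h4, h5, h6, h7, h8, h9, h10⟩ :=
    glueX h ih ha hb hW hWo hc1 hc2 hFW hω hw1 ht1 hu1
      (Q := fun f z2 => ∀ d, G.pi d ∈ W → G.pi (G.al d) ∈ W → z2 d = z d) (by
        intro f hf hfW hfU hzf
        have hfb : f ∈ G.bd W := mem_bd.2 ⟨hf, hfW, hfU⟩
        refine ⟨hp f hfb hzf, ?_⟩
        have e1 := hv f hfb hzf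
        have e2 : 0 ≤ z f := hw.z0 f hf
        have e3 : 0 ≤ t (G.pi f) := hw.t0 _ (hW hfW)
        by_cases h5 : G.val z t W < 5
        · refine ⟨G.zN z f (min 1 (z f + t (G.pi f))), _, hw.innN hf hW hfW hfU
            (le_min zero_le_one (by linarith)) (min_le_right _ _), ?_,
            innN_unit hf hW hfW hfU hF hFW hw (Or.inr rfl), fun _ _ => Or.inl ?_,
            fun d d1 d2 => zN_in hfU d1 d2⟩
          · rw [innN_tau hf hW hfW hfU hw (le_min zero_le_one (by linarith)) (min_le_right _ _)]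
            rcases min_choice 1 (z f + t (G.pi f)) with e | e
            · rw [e]
              linarith
            · rw [e]
              linarith
          · rw [zN_f]
            exact min_le_left _ _
        · refine ⟨G.zN z f (z f + t (G.pi f)), _, hw.innN hf hW hfW hfU
            (by linarith) le_rfl, ?_,
            innN_unit hf hW hfW hfU hF hFW hw (Or.inl rfl), fun c1 c2 => Or.inr ?_,
            fun d d1 d2 => zN_in hfU d1 d2⟩
          · rw [innN_tau hf hW hfW hfU hw (by linarith) le_rfl]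
            linarith
          · exact (hn f hfb hzf c1 c2).resolve_left h5)
  refine ⟨M, h1, fun d hd => ?_, h2⟩
  by_cases hi : G.pi d ∈ W ∧ G.pi (G.al d) ∈ W
  · rw [← h7 d hi.1 hi.2]
    exact h10 d hd hi.1 hi.2
  · exact hposz d (h1.sub hd) (h9 d hd hi)

private theorem star_keep (h : G.MCS z t fr F jm sx ep m) {frb : Finset V}
    (hj : jm ⊆ frb ∨ Disjoint jm frb) :
    jm ∩ frb = sx ∨ (jm ∩ frb = ∅ ∧ Disjoint sx frb) := by
  rw [h.inst.sx_eq]
  rcases hj with hj | hj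
  · exact Or.inl (inter_eq_left.2 hj)
  · exact Or.inr ⟨disjoint_iff_inter_eq_empty.1 hj, hj⟩

/-- **near-tight gluing in a minimal counterexample**, after a step to `(zb, tb, frb)` (any number
of tokens). For a set of value 3 the conditions `hv` and `hn` hold. -/
theorem MCS.gn (h : G.MCS z t fr F jm sx ep m) {zb : D → ℝ} {tb : V → ℝ} {frb : Finset V}
    (hs : StepA G z fr F jm sx zb tb frb) (hW : W ⊆ G.vs) (hWo : Odd W.card)
    (hc1 : 3 ≤ W.card) (hc2 : 3 ≤ (G.vs \ W).card)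
    (hFW : ∀ d ∈ F, G.pi d ∈ frb → G.pi d ∈ W → G.pi (G.al d) ∈ W) {ω : V} (hω : ω ∈ W)
    (hw1 : (G.con W ω hω hW).Wt z1 t1) (ht1 : ∑ v ∈ (G.con W ω hω hW).vs, t1 v < 6)
    (hz1 : ∀ d ∈ G.ds, zb d = 0 → z1 d = 0)
    (hu1 : ∀ d ∈ G.ds, G.pi d ∈ frb → G.pi d ∉ W → z1 d = 1)
    (hv : ∀ f ∈ G.bd W, 0 < z1 f → G.val zb tb W < 3 + 2 * zb f + 2 * tb (G.pi f))
    (hp : ∀ f ∈ G.bd W, 0 < z1 f → ((jm ∩ frb ∩ W) ∪ G.lp frb W f).card ≤ 2)
    (hn : ∀ f ∈ G.bd W, 0 < z1 f → ((jm ∩ frb ∩ W) ∪ G.lp frb W f).card = 2 →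
      (G.lp frb W f).Nonempty → G.val zb tb W < 5 ∨ 3 ≤ m) : False := by
  have hj : jm ⊆ frb ∨ Disjoint jm frb := by
    rcases hs.star with ⟨-, h1⟩ | ⟨-, h1⟩
    · exact Or.inl h1
    · exact Or.inr h1
  obtain ⟨M, hM⟩ := glueN (h.inst.toC.absorb hs.sub hs.clo hj) hs.wt hs.unit h.ih.toG
    (card_le_card hs.sub) le_rfl hW hWo hc1 hc2
    (fun d hd hp => hFW d (mem_filter.1 hd).1 (mem_filter.1 hd).2 hp) hω hw1 ht1 hz1 hu1 hv hp hn
  exact h.bad ⟨M, hs.lift h.inst.toT (star_keep h hj) hM⟩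

/-- **general gluing in a minimal counterexample**: the outer weight `z1`, for every edge `f` leaving
`W` with `z1 f > 0` an inner weight `z2`; `frb` is the set of the fresh vertices which are kept,
`kill` says that the other unions are not closed -/
theorem MCS.gx (h : G.MCS z t fr F jm sx ep m) {frb : Finset V} (hsub : frb ⊆ fr)
    (hcl : ∀ d ∈ F, G.pi d ∈ frb → G.pi (G.al d) ∈ frb) (hj : jm ⊆ frb ∨ Disjoint jm frb)
    (hW : W ⊆ G.vs) (hWo : Odd W.card) (hc1 : 3 ≤ W.card) (hc2 : 3 ≤ (G.vs \ W).card)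
    (hFW : ∀ d ∈ F, G.pi d ∈ frb → G.pi d ∈ W → G.pi (G.al d) ∈ W) {ω : V} (hω : ω ∈ W)
    (hw1 : (G.con W ω hω hW).Wt z1 t1) (ht1 : ∑ v ∈ (G.con W ω hω hW).vs, t1 v < 6)
    (hu1 : ∀ d ∈ G.ds, G.pi d ∈ frb → G.pi d ∉ W → z1 d = 1)
    (hp1 : ∀ d ∈ G.ds, ¬ (G.pi d ∈ W ∧ G.pi (G.al d) ∈ W) → 0 < z1 d → 0 < z d)
    {Q : D → (D → ℝ) → Prop}
    (hin : ∀ (f : D) (hf : f ∈ G.ds) (hfW : G.pi f ∈ W), G.pi (G.al f) ∉ W → 0 < z1 f →
      ((jm ∩ frb ∩ W) ∪ G.lp frb W f).card ≤ 2 ∧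
      ∃ z2 t2, (G.inn W f hf hW hfW).Wt z2 t2 ∧
        ∑ v ∈ (G.inn W f hf hW hfW).vs, t2 v < 6 ∧
        (∀ d ∈ (G.inn W f hf hW hfW).ds, G.pi d ∈ frb → G.pi d ∈ W → z2 d = 1) ∧
        (((jm ∩ frb ∩ W) ∪ G.lp frb W f).card = 2 → (G.lp frb W f).Nonempty →
          z2 f ≤ 1 ∨ 3 ≤ m) ∧
        (∀ d ∈ G.ds, G.pi d ∈ W → G.pi (G.al d) ∈ W → 0 < z2 d → 0 < z d) ∧ Q f z2)
    (kill : ∀ (f : D) (z2 : D → ℝ) (M : Finset D), G.IsPM M → f ∈ M → G.pi f ∈ W →
      G.pi (G.al f) ∉ W → 0 < z1 f → Q f z2 →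
      (∀ d ∈ M, G.pi d ∈ W → G.pi (G.al d) ∉ W → d = f) →
      (∀ d ∈ M, ¬ (G.pi d ∈ W ∧ G.pi (G.al d) ∈ W) → 0 < z1 d) →
      (∀ d ∈ M, G.pi d ∈ W → G.pi (G.al d) ∈ W → 0 < z2 d) →
      ∀ X, G.Adm fr F X → ¬ X ⊆ frb → Even (X ∩ jm).card → ∃ d ∈ G.bd X, d ∉ M) : False := by
  obtain ⟨M, f, z2, h1, h2, h3, h4, h5, h6, ⟨h7, h7'⟩, h8, h9, h10⟩ :=
    glueX (h.inst.toC.absorb hsub hcl hj) h.ih.toG (card_le_card hsub) le_rfl hW hWo hc1 hc2
      (fun d hd hp => hFW d (mem_filter.1 hd).1 (mem_filter.1 hd).2 hp) hω hw1 ht1 hu1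
      (Q := fun f z2 => (∀ d ∈ G.ds, G.pi d ∈ W → G.pi (G.al d) ∈ W → 0 < z2 d → 0 < z d) ∧
        Q f z2) hin
  refine h.bad ⟨M, h1, fun d hd => ?_, fun X hX hodd => ?_⟩
  · by_cases hi : G.pi d ∈ W ∧ G.pi (G.al d) ∈ W
    · exact h7 d (h1.sub hd) hi.1 hi.2 (h10 d hd hi.1 hi.2)
    · exact hp1 d (h1.sub hd) hi (h9 d hd hi)
  by_contra hcon
  push Not at hcon
  have hev := h.inst.fresh.closed_jm h1 hX hcon
  by_cases hXf : X ⊆ frb
  · have hX' : G.Adm frb (F.filter fun d => G.pi d ∈ frb) X :=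
      ⟨hXf, fun d hd hp => hX.clo d (mem_filter.1 hd).1 hp⟩
    obtain ⟨d, hd, hdM⟩ := h2 X hX' (by
      rcases hodd with ho | ⟨e1, e2⟩
      · exact Or.inl ho
      · rw [h.inst.sx_eq] at e1 e2
        have e3 : jm ∩ frb = jm := inter_eq_left.2 (e2.trans hXf)
        rw [e3]
        exact Or.inr ⟨e1, e2⟩)
    exact hdM (hcon d hd)
  · obtain ⟨d, hd, hdM⟩ := kill f z2 M h1 h3 h4 h5 h6 h7' h8 h9 h10 X hX hXf hev
    exact hdM (hcon d hd)

end MG

end RH
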