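import Pool.Agent.Lib.RH.Gad2
import Pool.Agent.Lib.RH.GlueP
import Pool.Agent.Lib.RH.Pot
import Pool.Agent.Lib.RH.SNG

/-! # Gadgets, part 3: the fresh part, closed unions, gluing of two gadget matchings, potentials -/

set_option autoImplicit false

namespace RH

open Finset Classical

namespace MG

variable {V D : Type*} {G : MG V D} {g : GD V D} {z : D → ℝ} {t : V → ℝ}
variable {fr fr1 : Finset V} {F : Finset D} {jm sx : Finset V} {ep : V → ℕ} {m : ℕ}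

/-- the fresh vertices which are kept (whole classes inside `A`) -/
structure FOk (G : MG V D) (g : GD V D) (fr : Finset V) (F : Finset D) (fr1 : Finset V) :
    Prop where
  sub : fr1 ⊆ fr
  inA : fr1 ⊆ g.A
  clo : ∀ d ∈ F, G.pi d ∈ fr1 → G.pi (G.al d) ∈ fr1

/-- kept fresh vertices without J-dart -/
noncomputable def gjm (G : MG V D) (g : GD V D) (jm fr1 : Finset V) : Finset V :=
  fr1.filter fun v => v ∈ jm ∨ (gdp G g v).Nonempty

/-- virtual ports -/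
noncomputable def gep (G : MG V D) (g : GD V D) (ep : V → ℕ) (v : V) : ℕ :=
  ep v + (gdp G g v).card

theorem mem_gdp {v : V} {d : D} :
    d ∈ gdp G g v ↔ (d ∈ G.ds ∧ G.pi d ∈ g.A ∧ G.pi (G.al d) ∉ g.A) ∧ d ∉ g.P ∧ G.pi d = v := by
  unfold gdp
  rw [mem_filter, mem_bd]

/-- darts at a kept vertex -/
theorem gad_mem_st (h : GOk G g) {v : V} (hv : v ∈ g.A) {d : D} :
    d ∈ (gad G g h).st v ↔ (d ∈ G.ds ∧ G.pi d = v) ∧ d ∉ gdp G g v := by
  rw [mem_st, mem_gdp]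
  change d ∈ gds G g ∧ gpi G g d = v ↔ _
  constructor
  · rintro ⟨h1, h2⟩
    rcases mem_gds.1 h1 with ⟨h4, h5, h6⟩ | h4 | ⟨p, h4, rfl⟩ | h4
    · rw [h.gpiA h4 h5] at h2
      exact ⟨⟨h4, h2⟩, fun h7 => h7.1.2.2 h6⟩
    · rw [h.gpiA (h.P1 h4).1 (h.P1 h4).2.1] at h2
      exact ⟨⟨(h.P1 h4).1, h2⟩, fun h7 => h7.2.1 h4⟩
    · rw [h.gpiQ h4] at h2
      exact absurd hv (h2 ▸ h.dj _ (h.gaK _ h4))
    · rw [GOk.gpiE h4] at h2
      exact absurd hv (h2 ▸ h.dj _ (h.peK _ h4))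
  · rintro ⟨⟨h1, h2⟩, h3⟩
    have h4 : G.pi d ∈ g.A := by rw [h2]; exact hv
    refine ⟨mem_gds.2 ?_, by rw [h.gpiA h1 h4]; exact h2⟩
    by_cases h5 : G.pi (G.al d) ∈ g.A
    · exact Or.inl ⟨h1, h4, h5⟩
    · by_cases h6 : d ∈ g.P
      · exact Or.inr (Or.inl h6)
      · exact absurd ⟨⟨h1, h4, h5⟩, h6, h2⟩ h3

/-- boundary of a set of kept vertices -/
theorem gad_mem_bd (h : GOk G g) {X : Finset V} (hX : X ⊆ g.A) {d : D} :
    d ∈ (gad G g h).bd X ↔ d ∈ G.bd X ∧ ¬ (G.pi (G.al d) ∉ g.A ∧ d ∉ g.P) := by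
  rw [mem_bd, mem_bd]
  change d ∈ gds G g ∧ gpi G g d ∈ X ∧ gpi G g (gal G g d) ∉ X ↔ _
  constructor
  · rintro ⟨h1, h2, h3⟩
    rcases mem_gds.1 h1 with ⟨h4, h5, h6⟩ | h4 | ⟨p, h4, rfl⟩ | h4
    · rw [h.gpiA h4 h5] at h2
      rw [GOk.galN (h.innE h4 h5), h.gpiA (G.al_mem _ h4) h6] at h3
      exact ⟨⟨h4, h2, h3⟩, fun h7 => h7.1 h6⟩
    · obtain ⟨a, b, c⟩ := h.P1 h4
      rw [h.gpiA a b] at h2
      exact ⟨⟨a, h2, fun h8 => c (hX h8)⟩, fun h7 => h7.2 h4⟩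
    · rw [h.gpiQ h4] at h2
      exact absurd (hX h2) (h.dj _ (h.gaK _ h4))
    · rw [GOk.gpiE h4] at h2
      exact absurd (hX h2) (h.dj _ (h.peK _ h4))
  · rintro ⟨⟨h1, h2, h3⟩, h4⟩
    have h5 := hX h2
    have h6 : d ∈ gds G g := by
      refine mem_gds.2 ?_
      by_cases h6 : G.pi (G.al d) ∈ g.A
      · exact Or.inl ⟨h1, h5, h6⟩
      · by_cases h7 : d ∈ g.P
        · exact Or.inr (Or.inl h7)
        · exact absurd ⟨h6, h7⟩ h4
    refine ⟨h6, by rw [h.gpiA h1 h5]; exact h2, ?_⟩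
    rw [GOk.galN (h.innE h1 h5)]
    by_cases h7 : G.pi (G.al d) ∈ g.A
    · rw [h.gpiA (G.al_mem _ h1) h7]
      exact h3
    · have h8 : d ∈ g.P := by
        by_contra h8
        exact h4 ⟨h7, h8⟩
      rw [h.gpiQ h8]
      intro h9
      exact h.dj _ (h.gaK _ h8) (hX h9)

/-- boundary count -/
theorem gad_bd_card (h : GOk G g) {X : Finset V} (hX : X ⊆ g.A) :
    ((gad G g h).bd X).card + ∑ v ∈ X, (gdp G g v).card = (G.bd X).card := by
  have h1 : ∑ v ∈ X, (gdp G g v).card =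
      ((G.bd X).filter fun d => G.pi (G.al d) ∉ g.A ∧ d ∉ g.P).card := by
    rw [card_eq_sum_card_fiberwise (f := G.pi)
      (s := (G.bd X).filter fun d => G.pi (G.al d) ∉ g.A ∧ d ∉ g.P) (t := X)
      (fun d hd => mem_coe.2 (mem_bd.1 (mem_filter.1 (mem_coe.1 hd)).1).2.1)]
    refine sum_congr rfl fun v hv => ?_
    congr 1
    ext d
    rw [mem_gdp, mem_filter, mem_filter, mem_bd]
    constructor
    · rintro ⟨⟨a, b, c⟩, e, f⟩
      exact ⟨⟨⟨a, f ▸ hv, fun h2 => c (hX h2)⟩, c, e⟩, f⟩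
    · rintro ⟨⟨⟨a, b, c⟩, e, f⟩, k⟩
      exact ⟨⟨a, hX b, e⟩, f, k⟩
  have h2 : (gad G g h).bd X = (G.bd X).filter fun d => ¬ (G.pi (G.al d) ∉ g.A ∧ d ∉ g.P) := by
    ext d
    rw [gad_mem_bd h hX, mem_filter]
  rw [h1, h2, add_comm]
  exact card_filter_add_card_filter_not _

/-- admissible sets of the gadget graph -/
theorem gad_adm (h : GOk G g) (hF : G.FrS z fr F jm) (hf : FOk G g fr F fr1) {X : Finset V} :
    (gad G g h).Adm fr1 (F.filter fun d => G.pi d ∈ fr1) X ↔ G.Adm fr F X ∧ X ⊆ fr1 := by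
  constructor
  · intro hX
    refine ⟨⟨hX.sub.trans hf.sub, fun d hd hp => ?_⟩, hX.sub⟩
    have h1 := hX.sub hp
    have h2 := hF.Fsub hd
    have h3 := hf.clo d hd h1
    have h4 : gpi G g (gal G g d) ∈ X := by
      refine hX.clo d (mem_filter.2 ⟨hd, h1⟩) ?_
      change gpi G g d ∈ X
      rw [h.gpiA h2 (hf.inA h1)]
      exact hp
    rw [GOk.galN (h.innE h2 (hf.inA h1)), h.gpiA (G.al_mem _ h2) (hf.inA h3)] at h4
    exact h4
  · rintro ⟨hX, h1⟩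
    refine ⟨h1, fun d hd hp => ?_⟩
    obtain ⟨h2, h3⟩ := mem_filter.1 hd
    have h4 := hF.Fsub h2
    have h5 := hf.clo d h2 h3
    change gpi G g d ∈ X at hp
    change gpi G g (gal G g d) ∈ X
    rw [h.gpiA h4 (hf.inA h3)] at hp
    rw [GOk.galN (h.innE h4 (hf.inA h3)), h.gpiA (G.al_mem _ h4) (hf.inA h5)]
    exact hX.clo d h2 hp

/-- the fresh part of the gadget graph -/
theorem FrS.gad (hF : G.FrS z fr F jm) (h : GOk G g) (hf : FOk G g fr F fr1) (ze : D → ℝ) :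
    (gad G g h).FrS (gz g z ze) fr1 (F.filter fun d => G.pi d ∈ fr1) (gjm G g jm fr1) where
  fsub := fun _ hv => mem_union_left _ (hf.inA hv)
  Fsub := by
    intro d hd
    obtain ⟨h1, h2⟩ := mem_filter.1 hd
    exact mem_gds.2 (Or.inl ⟨hF.Fsub h1, hf.inA h2, hf.inA (hf.clo d h1 h2)⟩)
  Fal := by
    intro d hd
    obtain ⟨h1, h2⟩ := mem_filter.1 hd
    change gal G g d ∈ _
    rw [GOk.galN (h.innE (hF.Fsub h1) (hf.inA h2))]
    exact mem_filter.2 ⟨hF.Fal d h1, hf.clo d h1 h2⟩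
  Ffr := by
    intro d hd
    obtain ⟨h1, h2⟩ := mem_filter.1 hd
    change gpi G g d ∈ _
    rw [h.gpiA (hF.Fsub h1) (hf.inA h2)]
    exact h2
  two := by
    intro v hv
    rw [← hF.two v (hf.sub hv)]
    congr 1
    ext d
    change d ∈ (F.filter fun d => G.pi d ∈ fr1).filter (fun d => gpi G g d = v) ↔ _
    rw [mem_filter, mem_filter, mem_filter]
    constructor
    · rintro ⟨⟨h1, h2⟩, h3⟩
      rw [h.gpiA (hF.Fsub h1) (hf.inA h2)] at h3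
      exact ⟨h1, h3⟩
    · rintro ⟨h1, h2⟩
      have h3 : G.pi d ∈ fr1 := h2 ▸ hv
      exact ⟨⟨h1, h3⟩, by rw [h.gpiA (hF.Fsub h1) (hf.inA h3)]; exact h2⟩
  jms := filter_subset _ _
  jd := by
    intro v hv hnj
    have h1 : v ∉ jm ∧ ¬ (gdp G g v).Nonempty := by
      constructor
      · exact fun h2 => hnj (mem_filter.2 ⟨hv, Or.inl h2⟩)
      · exact fun h2 => hnj (mem_filter.2 ⟨hv, Or.inr h2⟩)
    rw [not_nonempty_iff_eq_empty] at h1
    rw [← hF.jd v (hf.sub hv) h1.1]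
    congr 1
    ext d
    rw [mem_filter, mem_filter, mem_filter, gad_mem_st h (hf.inA hv), h1.2, mem_st]
    constructor
    · rintro ⟨⟨h2, -⟩, h3⟩
      exact ⟨h2, fun h4 => h3 ⟨h4, h2.2 ▸ hv⟩⟩
    · rintro ⟨h2, h3⟩
      exact ⟨⟨h2, notMem_empty _⟩, fun h4 => h3 h4.1⟩
  j0 := by
    intro v hv d hd
    obtain ⟨h1, h2⟩ := mem_filter.1 hv
    obtain ⟨⟨h3, h4⟩, h5⟩ := (gad_mem_st h (hf.inA h1)).1 hd
    rw [mem_filter]
    refine ⟨?_, h4 ▸ h1⟩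
    by_cases h6 : v ∈ jm
    · exact hF.j0 v h6 d (mem_st.2 ⟨h3, h4⟩)
    · obtain ⟨p, hp⟩ := h2.resolve_left h6
      obtain ⟨⟨p1, p2, p3⟩, p4, p5⟩ := mem_gdp.1 hp
      have h7 : p ∉ F := fun h8 => p3 (hf.inA (hf.clo p h8 (p5 ▸ h1)))
      by_contra h8
      have h9 := hF.jd v (hf.sub h1) h6
      obtain ⟨x, hx⟩ := card_eq_one.1 h9
      have h10 : d ∈ ({x} : Finset D) := hx ▸ mem_filter.2 ⟨mem_st.2 ⟨h3, h4⟩, h8⟩
      have h11 : p ∈ ({x} : Finset D) := hx ▸ mem_filter.2 ⟨mem_st.2 ⟨p1, p5⟩, h7⟩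
      rw [mem_singleton] at h10 h11
      exact h5 (h10.trans h11.symm ▸ hp)
  unit := by
    intro d hd hp
    change d ∈ gds G g at hd
    change gpi G g d ∈ fr1 at hp
    rcases mem_gds.1 hd with ⟨h4, h5, h6⟩ | h4 | ⟨p, h4, rfl⟩ | h4
    · rw [h.gpiA h4 h5] at hp
      unfold gz
      rw [if_neg (h.innE h4 h5)]
      exact hF.unit d h4 (hf.sub hp)
    · rw [h.gpiA (h.P1 h4).1 (h.P1 h4).2.1] at hp
      unfold gz
      rw [if_neg (h.PE h4)]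
      exact hF.unit d (h.P1 h4).1 (hf.sub hp)
    · rw [h.gpiQ h4] at hp
      exact absurd (hf.inA hp) (h.dj _ (h.gaK _ h4))
    · rw [GOk.gpiE h4] at hp
      exact absurd (hf.inA hp) (h.dj _ (h.peK _ h4))

/-- a kept vertex with a dropped port is not a star vertex, and has only one dropped port -/
theorem gdp_le (hF : G.FrS z fr F jm) (hf : FOk G g fr F fr1) {v : V} (hv : v ∈ fr1) :
    (gdp G g v).card ≤ if v ∈ jm then 0 else 1 := by
  have hnF : ∀ d ∈ gdp G g v, d ∉ F ∧ d ∈ G.st v := by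
    intro d hd
    obtain ⟨⟨p1, p2, p3⟩, p4, p5⟩ := mem_gdp.1 hd
    exact ⟨fun h8 => p3 (hf.inA (hf.clo d h8 (p5 ▸ hv))), mem_st.2 ⟨p1, p5⟩⟩
  split_ifs with h1
  · rw [Nat.le_zero, card_eq_zero, eq_empty_iff_forall_notMem]
    intro d hd
    exact (hnF d hd).1 (hF.j0 v h1 d (hnF d hd).2)
  · rw [← hF.jd v (hf.sub hv) h1]
    exact card_le_card fun d hd => mem_filter.2 ⟨(hnF d hd).2, (hnF d hd).1⟩

/-- virtual ports of the gadget graph -/
theorem gep_le (hF : G.FrS z fr F jm) (hf : FOk G g fr F fr1)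
    (hep : ∀ v ∈ fr, ep v ≤ if v ∈ jm then 1 else 0) {v : V} (hv : v ∈ fr1) :
    gep G g ep v ≤ if v ∈ gjm G g jm fr1 then 1 else 0 := by
  unfold gep
  have h1 := hep v (hf.sub hv)
  have h2 := gdp_le hF hf hv
  by_cases h3 : v ∈ jm
  · rw [if_pos h3] at h1 h2
    rw [if_pos (show v ∈ gjm G g jm fr1 from mem_filter.2 ⟨hv, Or.inl h3⟩)]
    omega
  · rw [if_neg h3] at h1 h2
    by_cases h4 : (gdp G g v).Nonempty
    · rw [if_pos (show v ∈ gjm G g jm fr1 from mem_filter.2 ⟨hv, Or.inr h4⟩)]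
      omega
    · rw [not_nonempty_iff_eq_empty] at h4
      rw [h4, card_empty]
      split_ifs <;> omega

/-- the port counts do not change -/
theorem gad_count (h : GOk G g) {X : Finset V} (hX : X ⊆ g.A) :
    ((gad G g h).bd X).card + ∑ v ∈ X, gep G g ep v = (G.bd X).card + ∑ v ∈ X, ep v := by
  unfold gep
  rw [sum_add_distrib, ← gad_bd_card h hX]
  ring

/-- the combinatorial part of the gadget instance -/
theorem InstC.gad (hC : G.InstC fr F jm ep m) (h : GOk G g) (hf : FOk G g fr F fr1)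
    (he : Even (g.A.card + g.K.card))
    (h2 : gjm G g jm fr1 = ∅ ∨ (gjm G g jm fr1).card = 2)
    (hb : ∀ X, G.Adm fr F X → X ⊆ fr1 → Even X.card → (gjm G g jm fr1).Nonempty →
      gjm G g jm fr1 ⊆ X → 2 ≤ ((gad G g h).bd X).card) :
    (gad G g h).InstC fr1 (F.filter fun d => G.pi d ∈ fr1) (gjm G g jm fr1) (gep G g ep) m where
  even := by
    change Even (g.A ∪ g.K).card
    rw [card_union_of_disjoint (disjoint_left.2 fun v h3 h4 => h.dj _ h4 h3)]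
    exact he
  fresh := by
    have h3 := hC.fresh.gad h hf (fun _ => 1)
    refine h3.chg fun _ _ _ => rfl
  cc := by
    intro X hX ho
    obtain ⟨h3, h4⟩ := (gad_adm h hC.fresh hf).1 hX
    rw [gad_count h (h4.trans hf.inA)]
    exact hC.cc X h3 ho
  ev := by
    intro X hX ho hn
    obtain ⟨h3, h4⟩ := (gad_adm h hC.fresh hf).1 hX
    rw [gad_count h (h4.trans hf.inA)]
    exact hC.ev X h3 ho hn
  jm2 := h2
  b0 := by
    intro X hX ho hn hs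
    obtain ⟨h3, h4⟩ := (gad_adm h hC.fresh hf).1 hX
    exact hb X h3 h4 ho hn hs
  epj := fun v hv => gep_le hC.fresh hf hC.epj hv

/-- with `4 ≤ m` the star bound is automatic -/
theorem InstC.gad4 (hC : G.InstC fr F jm ep m) (hm : 4 ≤ m) (h : GOk G g) (hf : FOk G g fr F fr1)
    (he : Even (g.A.card + g.K.card))
    (h2 : gjm G g jm fr1 = ∅ ∨ (gjm G g jm fr1).card = 2) :
    (MG.gad G g h).InstC fr1 (F.filter fun d => G.pi d ∈ fr1) (gjm G g jm fr1) (gep G g ep) m := by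
  refine hC.gad h hf he h2 fun X hX h3 hev hn hs => ?_
  have h4 := gad_count (ep := ep) h (h3.trans hf.inA)
  have h5 := hC.ev X hX hev (hn.mono hs)
  have h6 : ∑ v ∈ X, gep G g ep v ≤ 2 := by
    calc ∑ v ∈ X, gep G g ep v ≤ ∑ v ∈ X, if v ∈ gjm G g jm fr1 then 1 else 0 :=
          sum_le_sum fun v hv => gep_le hC.fresh hf hC.epj (h3 hv)
      _ = (X ∩ gjm G g jm fr1).card := by
          rw [← sum_filter, filter_mem_eq_inter, ← card_eq_sum_ones]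
      _ ≤ (gjm G g jm fr1).card := card_le_card inter_subset_right
      _ ≤ 2 := by
          rcases h2 with h2 | h2
          · rw [h2, card_empty]
            omega
          · rw [h2]
  omega

/-- **CLOSED UNIONS inside `A`** are closed in the gadget graph -/
theorem gad_closed (h : GOk G g) (hF : G.FrS z fr F jm) (hf : FOk G g fr F fr1)
    (habs : ∀ X, G.Adm fr F X → X ⊆ g.A → (∀ v ∈ X, gdp G g v = ∅) → X ⊆ fr1) {y : D → ℝ}
    {M : Finset D}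
    (hM : (gad G g h).GoodS y fr1 (F.filter fun d => G.pi d ∈ fr1) sx M) {X : Finset V}
    (hX : G.Adm fr F X) (hXA : X ⊆ g.A) (hcl : ∀ d ∈ G.bd X, d ∈ M) :
    (∀ v ∈ X, gdp G g v = ∅) ∧ X ⊆ fr1 ∧ Even X.card ∧ ¬ (sx.Nonempty ∧ sx ⊆ X) := by
  have h1 : ∀ v ∈ X, gdp G g v = ∅ := by
    intro v hv
    rw [eq_empty_iff_forall_notMem]
    intro d hd
    obtain ⟨⟨p1, p2, p3⟩, p4, p5⟩ := mem_gdp.1 hd
    have h2 : d ∈ G.bd X := mem_bd.2 ⟨p1, p5 ▸ hv, fun h3 => p3 (hXA h3)⟩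
    exact p4 (gad_exit h hM.pm (mem_bd.2 ⟨p1, p2, p3⟩) (hcl d h2))
  have h2 := habs X hX hXA h1
  have h3 : (Odd X.card ∨ (sx.Nonempty ∧ sx ⊆ X)) → False := by
    intro h4
    obtain ⟨d, h5, h6⟩ := hM.hit X ((gad_adm h hF hf).2 ⟨hX, h2⟩) h4
    exact h6 (hcl d ((gad_mem_bd h hXA).1 h5).1)
  refine ⟨h1, h2, ?_, fun h4 => h3 (Or.inr h4)⟩
  rw [← Nat.not_odd_iff_even]
  exact fun h4 => h3 (Or.inl h4)

/-- the largest union of kept classes -/
theorem exists_keep (G : MG V D) (g : GD V D) (fr : Finset V) (F : Finset D) :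
    ∃ fr1, FOk G g fr F fr1 ∧ gjm G g ∅ fr1 = ∅ ∧
      ∀ X, G.Adm fr F X → X ⊆ g.A → (∀ v ∈ X, gdp G g v = ∅) → X ⊆ fr1 := by
  refine ⟨fr.filter fun v => ∃ X, G.Adm fr F X ∧ v ∈ X ∧ X ⊆ g.A ∧ ∀ v ∈ X, gdp G g v = ∅,
    ⟨filter_subset _ _, ?_, ?_⟩, ?_, ?_⟩
  · intro v hv
    obtain ⟨-, X, -, h2, h3, -⟩ := mem_filter.1 hv
    exact h3 h2
  · intro d hd hp
    obtain ⟨-, X, h1, h2, h3, h4⟩ := mem_filter.1 hp
    have h5 := h1.clo d hd h2
    exact mem_filter.2 ⟨h1.sub h5, X, h1, h5, h3, h4⟩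
  · unfold gjm
    rw [filter_eq_empty_iff]
    intro v hv h1
    obtain ⟨-, X, -, h2, h3, h4⟩ := mem_filter.1 hv
    rcases h1 with h1 | h1
    · exact notMem_empty _ h1
    · rw [h4 v h2] at h1
      exact not_nonempty_empty h1
  · intro X hX h1 h2 v hv
    exact mem_filter.2 ⟨hX.sub hv, X, hX, hv, h1, h2⟩

/-! ## Gluing -/

/-- a good matching of a gadget graph, seen in `G`: matching of `A` with closed unions inside `A`
even and without star -/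
structure GHalf (G : MG V D) (y : D → ℝ) (fr : Finset V) (F : Finset D) (jm A : Finset V)
    (M : Finset D) : Prop where
  hm : G.HM A M
  pos : ∀ d ∈ M, 0 < y d
  ok : ∀ X, G.Adm fr F X → X ⊆ A → (∀ d ∈ G.bd X, d ∈ M) →
    Even X.card ∧ ¬ (jm.Nonempty ∧ jm ⊆ X)

theorem gad_half (h : GOk G g) (hF : G.FrS z fr F jm) (hf : FOk G g fr F fr1)
    (habs : ∀ X, G.Adm fr F X → X ⊆ g.A → (∀ v ∈ X, gdp G g v = ∅) → X ⊆ fr1)
    (hs : jm.Nonempty → jm ⊆ fr1 → sx = jm) {y ye : D → ℝ} {M : Finset D}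
    (hM : (gad G g h).GoodS (gz g y ye) fr1 (F.filter fun d => G.pi d ∈ fr1) sx M) :
    G.GHalf y fr F jm g.A (G.resM g.A M) where
  hm := gad_HM h hM.pm
  pos := by
    intro d hd
    obtain ⟨h1, h2, h3⟩ := mem_resM.1 hd
    have h4 := hM.pos d h1
    unfold gz at h4
    rwa [if_neg (h.innE h2 h3)] at h4
  ok := by
    intro X hX hXA hcl
    obtain ⟨h1, h2, h3, h4⟩ := gad_closed h hF hf habs hM hX hXA
      fun d hd => (mem_resM.1 (hcl d hd)).1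
    refine ⟨h3, fun h5 => h4 ?_⟩
    rw [hs h5.1 (h5.2.trans h2)]
    exact h5

/-- **GLUING**: two halves with the same pattern; at most one unused fresh exit -/
theorem GHalf.glue (hF : G.FrS z fr F jm) {y : D → ℝ} {A : Finset V} {M1 M2 : Finset D}
    (h1 : G.GHalf y fr F jm A M1) (h2 : G.GHalf y fr F jm (G.vs \ A) M2)
    (hx : ∀ d ∈ G.bd A, d ∈ M1 ↔ G.al d ∈ M2)
    (hFA : ∀ d ∈ F, G.pi d ∈ A → G.pi (G.al d) ∈ A) (hjm : jm ⊆ A ∨ Disjoint jm A)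
    (hl : ∀ X, G.Adm fr F X → (∀ d ∈ G.bd X, d ∈ M1 ∪ M2) → G.uX F (M1 ∪ M2) X A = ∅) :
    G.GoodS y fr F jm (M1 ∪ M2) := by
  have hpm := HM.glue h1.hm h2.hm hx
  refine ⟨hpm, ?_, ?_⟩
  · intro d hd
    rcases mem_union.1 hd with h3 | h3
    · exact h1.pos d h3
    · exact h2.pos d h3
  · have hin : ∀ X, G.Adm fr F X → X ⊆ A → (∀ d ∈ G.bd X, d ∈ M1 ∪ M2) →
        Even X.card ∧ ¬ (jm.Nonempty ∧ jm ⊆ X) := by
      intro X hX hXA hcl
      refine h1.ok X hX hXA fun d hd => ?_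
      rcases mem_union.1 (hcl d hd) with h3 | h3
      · exact h3
      · exact absurd (hXA (mem_bd.1 hd).2.1) (mem_sdiff.1 (h2.hm.sub d h3).2).2
    have hout : ∀ X, G.Adm fr F X → Disjoint X A → (∀ d ∈ G.bd X, d ∈ M1 ∪ M2) →
        Even X.card ∧ ¬ (jm.Nonempty ∧ jm ⊆ X) := by
      intro X hX hXA hcl
      refine h2.ok X hX ?_ fun d hd => ?_
      · intro v hv
        exact mem_sdiff.2 ⟨hF.fsub (hX.sub hv), fun h3 => disjoint_left.1 hXA hv h3⟩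
      · rcases mem_union.1 (hcl d hd) with h3 | h3
        · exact absurd (h1.hm.sub d h3).2 fun h4 => disjoint_left.1 hXA (mem_bd.1 hd).2.1 h4
        · exact h3
    intro X hX ho
    by_contra hcon
    push Not at hcon
    obtain ⟨⟨a1, a2⟩, b1, b2⟩ := Adm.split hF hpm hX hcon hFA (hl X hX hcon)
    obtain ⟨a3, a4⟩ := hin _ a1 inter_subset_right a2
    obtain ⟨b3, b4⟩ := hout _ b1 sdiff_disjoint b2
    rcases ho with ho | ⟨hn, hs⟩
    · have h3 := card_inter_add_card_sdiff X A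
      rw [Nat.even_iff] at a3 b3
      rw [Nat.odd_iff] at ho
      omega
    · rcases hjm with h4 | h4
      · exact a4 ⟨hn, subset_inter hs h4⟩
      · exact b4 ⟨hn, fun v hv => mem_sdiff.2 ⟨hs hv, fun h5 => disjoint_left.1 h4 hv h5⟩⟩

/-! ## Potentials -/

/-- what a potential of a gadget graph gives for `G` -/
theorem gad_pot (h : GOk G g) (hw : G.Wt z t) {ze : D → ℝ} {tk : V → ℝ} {K1 E1 : Finset D}
    {p : V → ℝ} (hp : (gad G g h).Pot (gz g z ze) (gt G g z t tk) K1 E1 p) :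
    (∀ v ∈ g.A, t v ≠ 0 → p v = 1) ∧
    (∀ d ∈ G.bd g.A, d ∉ g.P → z d ≠ 0 → p (G.pi d) = 1) ∧
    (∀ d ∈ G.ds, G.pi d ∈ g.A → G.pi (G.al d) ∈ g.A → 0 < z d → d ∉ K1 → d ∉ E1 →
      p (G.pi d) + p (G.pi (G.al d)) = 0) ∧
    (∀ d ∈ K1, d ∈ G.ds → G.pi d ∈ g.A → G.pi (G.al d) ∈ g.A →
      p (G.pi d) + p (G.pi (G.al d)) ≤ 0) ∧
    (∀ d ∈ g.P, 0 < z d → d ∉ K1 → d ∉ E1 → p (G.pi d) + p (g.ga d) = 0) ∧
    (∀ v ∈ g.K, tk v ≠ 0 → p v = 1) ∧
    (∀ d ∈ g.E, 0 < ze d → d ∉ K1 → d ∉ E1 → p (g.pe d) + p (g.pe (g.be d)) = 0) := by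
  refine ⟨?_, ?_, ?_, ?_, ?_, ?_, ?_⟩
  · intro v hv ht
    refine hp.tok v (mem_union_left _ hv) ?_
    unfold gt
    rw [if_neg fun h1 => h.dj _ h1 hv]
    have h1 := hw.t0 v (h.hA hv)
    have h2 : 0 ≤ ∑ d ∈ gdp G g v, z d :=
      sum_nonneg fun d hd => hw.z0 d (mem_gdp.1 hd).1.1
    have h3 : 0 < t v := lt_of_le_of_ne h1 (Ne.symm ht)
    linarith
  · intro d hd hP hz
    obtain ⟨h1, h2, h3⟩ := mem_bd.1 hd
    refine hp.tok _ (mem_union_left _ h2) ?_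
    unfold gt
    rw [if_neg fun h4 => h.dj _ h4 h2]
    have h4 := hw.t0 _ (h.hA h2)
    have h5 : z d ≤ ∑ e ∈ gdp G g (G.pi d), z e :=
      single_le_sum (f := z) (fun e he => hw.z0 e (mem_gdp.1 he).1.1)
        (mem_gdp.2 ⟨⟨h1, h2, h3⟩, hP, rfl⟩)
    have h6 : 0 < z d := lt_of_le_of_ne (hw.z0 d h1) (Ne.symm hz)
    linarith
  · intro d hd h1 h2 hz hK hE
    have h3 : d ∈ gds G g := mem_gds.2 (Or.inl ⟨hd, h1, h2⟩)
    have h4 := h.innE hd h1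
    have h5 := hp.jq d h3 (by unfold gz; rw [if_neg h4]; exact hz) hK hE
    change p (gpi G g d) + p (gpi G g (gal G g d)) = 0 at h5
    rw [GOk.galN h4, h.gpiA hd h1, h.gpiA (G.al_mem _ hd) h2] at h5
    exact h5
  · intro d hK hd h1 h2
    have h4 := h.innE hd h1
    have h5 := hp.kk d hK
    change p (gpi G g d) + p (gpi G g (gal G g d)) ≤ 0 at h5
    rw [GOk.galN h4, h.gpiA hd h1, h.gpiA (G.al_mem _ hd) h2] at h5
    exact h5
  · intro d hd hz hK hE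
    have h3 : d ∈ gds G g := mem_gds.2 (Or.inr (Or.inl hd))
    have h4 := h.PE hd
    have h5 := hp.jq d h3 (by unfold gz; rw [if_neg h4]; exact hz) hK hE
    change p (gpi G g d) + p (gpi G g (gal G g d)) = 0 at h5
    rw [GOk.galN h4, h.gpiA (h.P1 hd).1 (h.P1 hd).2.1, h.gpiQ hd] at h5
    exact h5
  · intro v hv ht
    refine hp.tok v (mem_union_right _ hv) ?_
    unfold gt
    rw [if_pos hv]
    exact ht
  · intro d hd hz hK hE
    have h3 : d ∈ gds G g := mem_gds.2 (Or.inr (Or.inr (Or.inr hd)))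
    have h5 := hp.jq d h3 (by unfold gz; rw [if_pos hd]; exact hz) hK hE
    change p (gpi G g d) + p (gpi G g (gal G g d)) = 0 at h5
    rw [GOk.galE hd, GOk.gpiE hd, GOk.gpiE (h.beE _ hd)] at h5
    exact h5

/-- two potentials which fit along the cut -/
theorem pot_join {A : Finset V} {K : Finset D} {p1 p2 : V → ℝ}
    (hsym : ∀ d ∈ G.ds, z (G.al d) = z d) (hK : K ⊆ G.ds) (hKal : ∀ d ∈ K, G.al d ∈ K)
    (t1 : ∀ v ∈ A, t v ≠ 0 → p1 v = 1) (t2 : ∀ v ∈ G.vs \ A, t v ≠ 0 → p2 v = 1)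
    (j1 : ∀ d ∈ G.ds, G.pi d ∈ A → G.pi (G.al d) ∈ A → 0 < z d → d ∉ K →
      p1 (G.pi d) + p1 (G.pi (G.al d)) = 0)
    (k1 : ∀ d ∈ K, G.pi d ∈ A → G.pi (G.al d) ∈ A → p1 (G.pi d) + p1 (G.pi (G.al d)) ≤ 0)
    (j2 : ∀ d ∈ G.ds, G.pi d ∈ G.vs \ A → G.pi (G.al d) ∈ G.vs \ A → 0 < z d → d ∉ K →
      p2 (G.pi d) + p2 (G.pi (G.al d)) = 0)
    (k2 : ∀ d ∈ K, G.pi d ∈ G.vs \ A → G.pi (G.al d) ∈ G.vs \ A →
      p2 (G.pi d) + p2 (G.pi (G.al d)) ≤ 0)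
    (jx : ∀ d ∈ G.bd A, 0 < z d → d ∉ K → p1 (G.pi d) + p2 (G.pi (G.al d)) = 0)
    (kx : ∀ d ∈ G.bd A, d ∈ K → p1 (G.pi d) + p2 (G.pi (G.al d)) ≤ 0) :
    G.Pot z t K ∅ (fun v => if v ∈ A then p1 v else p2 v) where
  tok := by
    intro v hv ht
    by_cases h1 : v ∈ A
    · rw [if_pos h1]
      exact t1 v h1 ht
    · rw [if_neg h1]
      exact t2 v (mem_sdiff.2 ⟨hv, h1⟩) ht
  jq := by
    intro d hd hz hK0 _
    have ha := G.al_mem _ hd
    by_cases h1 : G.pi d ∈ A <;> by_cases h2 : G.pi (G.al d) ∈ A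
    · rw [if_pos h1, if_pos h2]
      exact j1 d hd h1 h2 hz hK0
    · rw [if_pos h1, if_neg h2]
      exact jx d (mem_bd.2 ⟨hd, h1, h2⟩) hz hK0
    · rw [if_neg h1, if_pos h2]
      have h3 := jx (G.al d) (mem_bd.2 ⟨ha, h2, by rw [G.al_al _ hd]; exact h1⟩)
        (by rw [hsym d hd]; exact hz)
        (fun h3 => hK0 (by rw [← G.al_al _ hd]; exact hKal _ h3))
      rw [G.al_al _ hd] at h3
      linarith
    · rw [if_neg h1, if_neg h2]
      exact j2 d hd (mem_sdiff.2 ⟨G.pi_mem _ hd, h1⟩) (mem_sdiff.2 ⟨G.pi_mem _ ha, h2⟩) hz hK0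
  kk := by
    intro d hd
    have hd' := hK hd
    have ha := G.al_mem _ hd'
    by_cases h1 : G.pi d ∈ A <;> by_cases h2 : G.pi (G.al d) ∈ A
    · rw [if_pos h1, if_pos h2]
      exact k1 d hd h1 h2
    · rw [if_pos h1, if_neg h2]
      exact kx d (mem_bd.2 ⟨hd', h1, h2⟩) hd
    · rw [if_neg h1, if_pos h2]
      have h3 := kx (G.al d) (mem_bd.2 ⟨ha, h2, by rw [G.al_al _ hd']; exact h1⟩) (hKal _ hd)
      rw [G.al_al _ hd'] at h3
      linarith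
    · rw [if_neg h1, if_neg h2]
      exact k2 d hd (mem_sdiff.2 ⟨G.pi_mem _ hd', h1⟩) (mem_sdiff.2 ⟨G.pi_mem _ ha, h2⟩)
  ee := fun d hd => absurd hd (notMem_empty _)
  Ksub := hK
  Esub := empty_subset _

end MG

end RH
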