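import Pool.Agent.Lib.RH.S6
import Pool.Agent.Lib.RH.Gad3

/-! # Gadget states of a strict 6-state

`S6.gad`: a gadget with unit weights whose finite tables are strict gives a good matching or a strict
6-state. `S6.gad_lt`: a gadget instance with less than 6 tokens has a good matching. -/

set_option autoImplicit false

namespace RH

open Finset Classical

namespace MG

variable {V D : Type*} {G : MG V D} {g : GD V D} {t tk : V → ℝ}
variable {fr fr1 : Finset V} {F : Finset D} {jm A X Y : Finset V} {a : ℕ}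

theorem gz_one : gz g one1 one1 = one1 := by
  funext d
  unfold gz one1
  split_ifs <;> rfl

/-- number of exits of `A` at `X` -/
noncomputable def qx (G : MG V D) (A X : Finset V) : ℕ := ((G.bd A).filter fun d => G.pi d ∈ X).card

theorem gpw_one : gpw G g one1 X Y = ((g.P.filter fun d => G.pi d ∈ X ∧ g.ga d ∈ Y).card : ℝ) := by
  unfold gpw one1
  rw [sum_const, nsmul_eq_mul, mul_one]

theorem gvk_one : gvk g one1 one1 tk Y = ((g.P.filter fun d => g.ga d ∈ Y).card : ℝ) +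
    ((g.E.filter fun d => g.pe d ∈ Y ∧ g.pe (g.be d) ∉ Y).card : ℝ) + ∑ v ∈ Y, tk v := by
  unfold gvk one1
  rw [sum_const, nsmul_eq_mul, mul_one, sum_const, nsmul_eq_mul, mul_one]

/-- the kept ports at `X` are exits at `X` -/
theorem gpw_le_qx (ok : GOk G g) : gpw G g one1 X Y ≤ qx G g.A X := by
  rw [gpw_one]
  unfold qx
  have h1 : (g.P.filter fun d => G.pi d ∈ X ∧ g.ga d ∈ Y).card ≤
      ((G.bd g.A).filter fun d => G.pi d ∈ X).card :=
    card_le_card fun d hd => mem_filter.2 ⟨ok.hP (mem_filter.1 hd).1, (mem_filter.1 hd).2.1⟩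
  exact_mod_cast h1

/-- the star of the gadget state is the old star, if this is kept -/
theorem gjm_eq (hj : jm = ∅ ∨ jm.card = 2) (h1 : jm ⊆ fr1) (hn : jm.Nonempty)
    (h2 : gjm G g jm fr1 = ∅ ∨ (gjm G g jm fr1).card = 2) : gjm G g jm fr1 = jm := by
  have h3 : jm ⊆ gjm G g jm fr1 := fun v hv => mem_filter.2 ⟨h1 hv, Or.inl hv⟩
  have h4 : jm.card = 2 := by
    rcases hj with hj | hj
    · rw [hj] at hn
      exact absurd hn not_nonempty_empty
    · exact hj
  refine (eq_of_subset_of_card_le h3 ?_).symm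
  rcases h2 with h2 | h2
  · rw [h2, card_empty]
    omega
  · omega

namespace S6

/-- union with the outside -/
theorem join (h : S6 G t fr F jm a) (hA : A ⊆ G.vs) (hX : X ⊆ A) :
    G.val one1 t (X ∪ (G.vs \ A)) = G.val one1 t X + G.val one1 t (G.vs \ A) - 2 * qx G A X := by
  rw [h.wt.val_join hA hX]
  unfold qx one1
  rw [sum_const, nsmul_eq_mul, mul_one]

theorem tabO (h : S6 G t fr F jm a) (hA : A ⊆ G.vs) (hX : X ⊆ A)
    (ho : Odd (X.card + (G.vs \ A).card)) (h1 : X.card + (G.vs \ A).card ≠ 1) :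
    5 ≤ G.val one1 t X + G.val one1 t (G.vs \ A) - 2 * qx G A X := by
  rw [← h.join hA hX]
  have hd : Disjoint X (G.vs \ A) :=
    disjoint_left.2 fun v hv hv' => (mem_sdiff.1 hv').2 (hX hv)
  refine h.odd _ (union_subset (hX.trans hA) sdiff_subset) ?_ ?_
  · rw [card_union_of_disjoint hd]
    exact ho
  · rw [card_union_of_disjoint hd]
    exact h1

theorem tabE (h : S6 G t fr F jm a) (hA : A ⊆ G.vs) (hX : X ⊆ A)
    (he : Even (X.card + (G.vs \ A).card)) (h0 : (G.vs \ A).Nonempty) (h1 : X ≠ A) :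
    4 ≤ G.val one1 t X + G.val one1 t (G.vs \ A) - 2 * qx G A X := by
  rw [← h.join hA hX]
  have hd : Disjoint X (G.vs \ A) :=
    disjoint_left.2 fun v hv hv' => (mem_sdiff.1 hv').2 (hX hv)
  refine h.evn _ (union_subset (hX.trans hA) sdiff_subset) ?_ (h0.mono subset_union_right) ?_
  · rw [card_union_of_disjoint hd]
    exact he
  · intro e
    refine h1 (subset_antisymm hX fun v hv => ?_)
    have h2 : v ∈ X ∪ (G.vs \ A) := by
      rw [e]
      exact hA hv
    rcases mem_union.1 h2 with h3 | h3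
    · exact h3
    · exact absurd hv (mem_sdiff.1 h3).2

/-- the combinatorial part of a gadget instance -/
theorem gadC (h : S6 G t fr F jm a) (ok : GOk G g) (hf : FOk G g fr F fr1)
    (he : Even (g.A.card + g.K.card))
    (h2 : gjm G g jm fr1 = ∅ ∨ (gjm G g jm fr1).card = 2) :
    (MG.gad G g ok).InstC fr1 (F.filter fun d => G.pi d ∈ fr1) (gjm G g jm fr1)
      (gep G g (epi jm)) 0 := by
  refine h.toC.gad ok hf he h2 fun X hX h3 hev hn hs => ?_
  have h4 := gad_count (ep := epi jm) ok (h3.trans hf.inA)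
  have h5 : 4 ≤ (G.bd X).card + ∑ v ∈ X, epi jm v := by
    have h6 := h.evn X (hX.sub.trans h.fresh.fsub) hev (hn.mono hs) (h.fr_ne hX.sub)
    rw [val_one, h.sum_tok_fr hX.sub] at h6
    have h7 : ∑ v ∈ X, epi jm v = (X ∩ jm).card := by
      unfold epi
      rw [← sum_filter, sum_const, smul_eq_mul, mul_one]
      congr 1
    rw [h7]
    exact_mod_cast h6
  have h6 : ∑ v ∈ X, gep G g (epi jm) v ≤ 2 := by
    calc ∑ v ∈ X, gep G g (epi jm) v ≤ ∑ v ∈ X, if v ∈ gjm G g jm fr1 then 1 else 0 :=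
          sum_le_sum fun v hv => gep_le h.fresh hf h.toC.epj (h3 hv)
      _ = (X ∩ gjm G g jm fr1).card := by
          rw [← sum_filter, filter_mem_eq_inter, ← card_eq_sum_ones]
      _ ≤ (gjm G g jm fr1).card := card_le_card inter_subset_right
      _ ≤ 2 := by
          rcases h2 with h2 | h2
          · rw [h2, card_empty]
            omega
          · rw [h2]
  omega

/-- **less than 6 tokens**: the gadget instance has a good matching -/
theorem gad_lt (h : S6 G t fr F jm a) (ok : GOk G g) (hf : FOk G g fr F fr1) {ze : D → ℝ}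
    (he : Even (g.A.card + g.K.card))
    (ze0 : ∀ d ∈ g.E, 0 ≤ ze d) (zes : ∀ d ∈ g.E, ze (g.be d) = ze d)
    (tk0 : ∀ v ∈ g.K, 0 ≤ tk v) (kd : ∀ v ∈ g.K, gvk g one1 ze tk {v} = 3)
    (h2 : gjm G g jm fr1 = ∅ ∨ (gjm G g jm fr1).card = 2)
    (ht : ∑ v ∈ g.A, t v + (((G.bd g.A).filter fun d => d ∉ g.P).card : ℝ) +
      ∑ v ∈ g.K, tk v < 6)
    (kc : ∀ X ⊆ g.A, ∀ Y ⊆ g.K, Odd (X.card + Y.card) →
      3 ≤ G.val one1 t X + gvk g one1 ze tk Y - 2 * gpw G g one1 X Y) :
    ∃ M, (MG.gad G g ok).GoodS (gz g one1 ze) fr1 (F.filter fun d => G.pi d ∈ fr1)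
      (gjm G g jm fr1) M := by
  have hw := gad_wt ok h.wt ze0 zes tk0 kd kc
  have h3 := gad_tau (t := t) ok ze h.wt.sym tk
  have h4 : ∑ d ∈ (G.bd g.A).filter (fun d => d ∉ g.P), one1 d =
      (((G.bd g.A).filter fun d => d ∉ g.P).card : ℝ) := by
    unfold one1
    rw [sum_const, nsmul_eq_mul, mul_one]
  rw [h4] at h3
  refine h.ih _ _ _ _ _ _ _ _ ((card_le_card hf.sub).trans_lt h.ha)
    ((h.gadC ok hf he h2).toS hw ?_ ?_)
  · rw [h3]
    exact ht
  · exact (h.fresh.gad ok hf ze).unit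

/-- **6 tokens**: the gadget state has a good matching, or it is a strict 6-state -/
theorem gad (h : S6 G t fr F jm a) (ok : GOk G g) (hf : FOk G g fr F fr1)
    (he : Even (g.A.card + g.K.card))
    (tk0 : ∀ v ∈ g.K, 0 ≤ tk v) (kd : ∀ v ∈ g.K, gvk g one1 one1 tk {v} = 3)
    (h2 : gjm G g jm fr1 = ∅ ∨ (gjm G g jm fr1).card = 2)
    (ht : ∑ v ∈ g.A, t v + (((G.bd g.A).filter fun d => d ∉ g.P).card : ℝ) +
      ∑ v ∈ g.K, tk v = 6)
    (ko : ∀ X ⊆ g.A, ∀ Y ⊆ g.K, Odd (X.card + Y.card) → X.card + Y.card ≠ 1 →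
      5 ≤ G.val one1 t X + gvk g one1 one1 tk Y - 2 * gpw G g one1 X Y)
    (ke : ∀ X ⊆ g.A, ∀ Y ⊆ g.K, Even (X.card + Y.card) → (X.Nonempty ∨ Y.Nonempty) →
      (X ≠ g.A ∨ Y ≠ g.K) →
      4 ≤ G.val one1 t X + gvk g one1 one1 tk Y - 2 * gpw G g one1 X Y) :
    (∃ M, (MG.gad G g ok).GoodS one1 fr1 (F.filter fun d => G.pi d ∈ fr1) (gjm G g jm fr1) M) ∨
      S6 (MG.gad G g ok) (gt G g one1 t tk) fr1 (F.filter fun d => G.pi d ∈ fr1)
        (gjm G g jm fr1) a := by
  have hg : gz g one1 one1 = (one1 : D → ℝ) := gz_one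
  have hval : ∀ X ⊆ g.A, ∀ Y ⊆ g.K, (MG.gad G g ok).val one1 (gt G g one1 t tk) (X ∪ Y) =
      G.val one1 t X + gvk g one1 one1 tk Y - 2 * gpw G g one1 X Y := by
    intro X hX Y hY
    have h3 := gad_val (t := t) ok h.wt.sym one1 tk hX hY
    rwa [hg] at h3
  have hsp : ∀ X ⊆ g.A ∪ g.K, X = (X ∩ g.A) ∪ (X ∩ g.K) ∧
      X.card = (X ∩ g.A).card + (X ∩ g.K).card := by
    intro X hX
    have h3 : X = (X ∩ g.A) ∪ (X ∩ g.K) := by
      rw [← inter_union_distrib_left, inter_eq_left.2 hX]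
    have h4 : Disjoint (X ∩ g.A) (X ∩ g.K) := disjoint_left.2 fun v h3 h4 =>
      ok.dj _ (mem_inter.1 h4).2 (mem_inter.1 h3).2
    refine ⟨h3, ?_⟩
    rw [← card_union_of_disjoint h4, ← h3]
  have hw : (MG.gad G g ok).Wt one1 (gt G g one1 t tk) := by
    have h3 := gad_wt (ze := one1) ok h.wt (fun _ _ => zero_le_one) (fun _ _ => rfl) tk0 kd
      (fun X hX Y hY ho => by
        by_cases h1 : X.card + Y.card = 1
        · rcases Nat.eq_zero_or_pos X.card with h4 | h4
          · rw [card_eq_zero] at h4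
            rw [h4, card_empty, zero_add] at h1
            obtain ⟨v, rfl⟩ := card_eq_one.1 h1
            rw [h4, val_empty', gpw_empty', kd v (hY (mem_singleton_self v))]
            norm_num
          · have h5 : Y.card = 0 := by omega
            rw [card_eq_zero] at h5
            have h6 : X.card = 1 := by omega
            obtain ⟨v, rfl⟩ := card_eq_one.1 h6
            rw [h5, gvk_empty, gpw_empty, h.wt.val_single (ok.hA (hX (mem_singleton_self v)))]
            norm_num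
        · have h4 := ko X hX Y hY ho h1
          linarith)
    rwa [hg] at h3
  by_cases hb : ∃ M, (MG.gad G g ok).GoodS one1 fr1 (F.filter fun d => G.pi d ∈ fr1)
    (gjm G g jm fr1) M
  · exact Or.inl hb
  · right
    refine ⟨(h.gadC ok hf he h2).even, ?_, h2, ?_, hw.t0, ?_, ?_, ?_,
      (card_le_card hf.sub).trans_lt h.ha, h.ih, hb⟩
    · have h3 := h.fresh.gad ok hf one1
      rwa [hg] at h3
    · intro v hv
      have h3 := hw.deg v hv
      rw [← h3]
      congr 1
      unfold one1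
      rw [sum_const, nsmul_eq_mul, mul_one]
    · have h3 := gad_tau (t := t) ok one1 h.wt.sym tk
      have h4 : ∑ d ∈ (G.bd g.A).filter (fun d => d ∉ g.P), one1 d =
          (((G.bd g.A).filter fun d => d ∉ g.P).card : ℝ) := by
        unfold one1
        rw [sum_const, nsmul_eq_mul, mul_one]
      rw [h3, h4]
      exact ht
    · intro X hX ho h1
      obtain ⟨h3, h4⟩ := hsp X hX
      rw [h4] at ho h1
      rw [h3, hval _ inter_subset_right _ inter_subset_right]
      exact ko _ inter_subset_right _ inter_subset_right ho h1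
    · intro X hX hev hn h1
      obtain ⟨h3, h4⟩ := hsp X hX
      rw [h4] at hev
      rw [h3, hval _ inter_subset_right _ inter_subset_right]
      refine ke _ inter_subset_right _ inter_subset_right hev ?_ ?_
      · rw [h3, union_nonempty] at hn
        exact hn
      · by_contra h5
        rw [not_or, not_not, not_not] at h5
        apply h1
        rw [h3, h5.1, h5.2]
        rfl

/-- a good matching of a gadget graph as a half -/
theorem half (h : S6 G t fr F jm a) (ok : GOk G g) (hf : FOk G g fr F fr1)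
    (habs : ∀ X, G.Adm fr F X → X ⊆ g.A → (∀ v ∈ X, gdp G g v = ∅) → X ⊆ fr1)
    (h2 : gjm G g jm fr1 = ∅ ∨ (gjm G g jm fr1).card = 2) {ze : D → ℝ} {M : Finset D}
    (hM : (MG.gad G g ok).GoodS (gz g one1 ze) fr1 (F.filter fun d => G.pi d ∈ fr1)
      (gjm G g jm fr1) M) :
    G.GHalf one1 fr F jm g.A (G.resM g.A M) :=
  gad_half ok h.fresh hf habs (fun hn h1 => gjm_eq h.jm2 h1 hn h2) hM

/-- two halves with the same pattern do not exist, if no closed union joins unused exits -/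
theorem no_glue (h : S6 G t fr F jm a) {M1 M2 : Finset D}
    (h1 : G.GHalf one1 fr F jm A M1) (h2 : G.GHalf one1 fr F jm (G.vs \ A) M2)
    (hx : ∀ d ∈ G.bd A, d ∈ M1 ↔ G.al d ∈ M2)
    (hFA : ∀ d ∈ F, G.pi d ∈ A → G.pi (G.al d) ∈ A) (hjm : jm ⊆ A ∨ Disjoint jm A)
    (hl : ∀ X, G.Adm fr F X → (∀ d ∈ G.bd X, d ∈ M1 ∪ M2) → G.uX F (M1 ∪ M2) X A = ∅) : False :=
  h.bad ⟨_, GHalf.glue h.fresh h1 h2 hx hFA hjm hl⟩

/-- the same, if at most one unused exit is fresh on both sides -/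
theorem no_glue1 (h : S6 G t fr F jm a) {M1 M2 : Finset D}
    (h1 : G.GHalf one1 fr F jm A M1) (h2 : G.GHalf one1 fr F jm (G.vs \ A) M2)
    (hx : ∀ d ∈ G.bd A, d ∈ M1 ↔ G.al d ∈ M2)
    (hFA : ∀ d ∈ F, G.pi d ∈ A → G.pi (G.al d) ∈ A) (hjm : jm ⊆ A ∨ Disjoint jm A)
    (hu : ∀ d ∈ G.bd A, ∀ d' ∈ G.bd A, d ∉ M1 → d' ∉ M1 → G.pi d ∈ fr → G.pi (G.al d) ∈ fr →
      G.pi d' ∈ fr → G.pi (G.al d') ∈ fr → d = d') : False := by
  refine h.no_glue h1 h2 hx hFA hjm fun X hX hcl => ?_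
  refine h.fresh.uX_empty (HM.glue h1.hm h2.hm hx) hFA hjm ?_ hX hcl
  intro d hd d' hd' n1 n2 a1 a2 b1 b2 c1 c2 e1 e2
  exact hu d (mem_bd.2 ⟨hd, a1, a2⟩) d' (mem_bd.2 ⟨hd', b1, b2⟩)
    (fun k => n1 (mem_union_left _ k)) (fun k => n2 (mem_union_left _ k)) c1 c2 e1 e2

end S6

end MG

end RH
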