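import Pool.Agent.Lib.RH.CE6
import Pool.Agent.Lib.RH.S6Gad

/-! Gadget states in the class CE6: `EK.gad` (strict tables), `EK.half`, `X6.no_glue`. -/

set_option autoImplicit false

namespace RH

open Finset Classical

namespace MG

variable {V D : Type*} {G : MG V D} {g : GD V D} {t tk : V → ℝ}
variable {fr fr1 : Finset V} {F : Finset D} {jm A X Y : Finset V} {k k' : ℝ}

namespace EK

/-- union with the outside -/
theorem join (h : EK G k t fr F jm) (hA : A ⊆ G.vs) (hX : X ⊆ A) :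
    G.val one1 t (X ∪ (G.vs \ A)) = G.val one1 t X + G.val one1 t (G.vs \ A) - 2 * qx G A X := by
  rw [h.wt.val_join hA hX]
  unfold qx one1
  rw [sum_const, nsmul_eq_mul, mul_one]

theorem tabO (h : EK G k t fr F jm) (hA : A ⊆ G.vs) (hX : X ⊆ A)
    (ho : Odd (X.card + (G.vs \ A).card)) (h1 : X.card + (G.vs \ A).card ≠ 1) :
    5 ≤ G.val one1 t X + G.val one1 t (G.vs \ A) - 2 * qx G A X := by
  rw [← h.join hA hX]
  have hd : Disjoint X (G.vs \ A) :=
    disjoint_left.2 fun v hv hv' => (mem_sdiff.1 hv').2 (hX hv)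
  refine h.odd _ (union_subset (hX.trans hA) sdiff_subset) ?_ ?_
  · rw [card_union_of_disjoint hd]
    exact ho
  · rw [card_union_of_disjoint hd]
    exact h1

theorem tabE (h : EK G k t fr F jm) (hA : A ⊆ G.vs) (hX : X ⊆ A)
    (he : Even (X.card + (G.vs \ A).card)) (h0 : (G.vs \ A).Nonempty) (h1 : X ≠ A) :
    4 ≤ G.val one1 t X + G.val one1 t (G.vs \ A) - 2 * qx G A X := by
  rw [← h.join hA hX]
  have hd : Disjoint X (G.vs \ A) :=
    disjoint_left.2 fun v hv hv' => (mem_sdiff.1 hv').2 (hX hv)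
  refine h.evn _ (union_subset (hX.trans hA) sdiff_subset) ?_ (h0.mono subset_union_right) ?_
  · rw [card_union_of_disjoint hd]
    exact he
  · intro e
    refine h1 (subset_antisymm hX fun v hv => ?_)
    have h2 : v ∈ X ∪ (G.vs \ A) := by
      rw [e]
      exact hA hv
    rcases mem_union.1 h2 with h3 | h3
    · exact h3
    · exact absurd hv (mem_sdiff.1 h3).2

/-- **the gadget state**: strict tables give a strict state with the tokens `k'` -/
theorem gad (h : EK G k t fr F jm) (hk : 2 < k) (ok : GOk G g) (hf : FOk G g fr F fr1)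
    (he : Even (g.A.card + g.K.card))
    (tk0 : ∀ v ∈ g.K, 0 ≤ tk v) (kd : ∀ v ∈ g.K, gvk g one1 one1 tk {v} = 3)
    (h2 : gjm G g jm fr1 = ∅ ∨ (gjm G g jm fr1).card = 2)
    (ht : ∑ v ∈ g.A, t v + (((G.bd g.A).filter fun d => d ∉ g.P).card : ℝ) +
      ∑ v ∈ g.K, tk v = k')
    (ko : ∀ X ⊆ g.A, ∀ Y ⊆ g.K, Odd (X.card + Y.card) → X.card + Y.card ≠ 1 →
      5 ≤ G.val one1 t X + gvk g one1 one1 tk Y - 2 * gpw G g one1 X Y)
    (ke : ∀ X ⊆ g.A, ∀ Y ⊆ g.K, Even (X.card + Y.card) → (X.Nonempty ∨ Y.Nonempty) →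
      (X ≠ g.A ∨ Y ≠ g.K) →
      4 ≤ G.val one1 t X + gvk g one1 one1 tk Y - 2 * gpw G g one1 X Y) :
    EK (MG.gad G g ok) k' (gt G g one1 t tk) fr1 (F.filter fun d => G.pi d ∈ fr1)
      (gjm G g jm fr1) := by
  have hg : gz g one1 one1 = (one1 : D → ℝ) := gz_one
  have hval : ∀ X ⊆ g.A, ∀ Y ⊆ g.K, (MG.gad G g ok).val one1 (gt G g one1 t tk) (X ∪ Y) =
      G.val one1 t X + gvk g one1 one1 tk Y - 2 * gpw G g one1 X Y := by
    intro X hX Y hY
    have h3 := gad_val (t := t) ok h.wt.sym one1 tk hX hY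
    rwa [hg] at h3
  have hsp : ∀ X ⊆ g.A ∪ g.K, X = (X ∩ g.A) ∪ (X ∩ g.K) ∧
      X.card = (X ∩ g.A).card + (X ∩ g.K).card := by
    intro X hX
    have h3 : X = (X ∩ g.A) ∪ (X ∩ g.K) := by
      rw [← inter_union_distrib_left, inter_eq_left.2 hX]
    have h4 : Disjoint (X ∩ g.A) (X ∩ g.K) := disjoint_left.2 fun v h3 h4 =>
      ok.dj _ (mem_inter.1 h4).2 (mem_inter.1 h3).2
    refine ⟨h3, ?_⟩
    rw [← card_union_of_disjoint h4, ← h3]
  have hw : (MG.gad G g ok).Wt one1 (gt G g one1 t tk) := by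
    have h3 := gad_wt (ze := one1) ok h.wt (fun _ _ => zero_le_one) (fun _ _ => rfl) tk0 kd
      (fun X hX Y hY ho => by
        by_cases h1 : X.card + Y.card = 1
        · rcases Nat.eq_zero_or_pos X.card with h4 | h4
          · rw [card_eq_zero] at h4
            rw [h4, card_empty, zero_add] at h1
            obtain ⟨v, rfl⟩ := card_eq_one.1 h1
            rw [h4, val_empty', gpw_empty', kd v (hY (mem_singleton_self v))]
            norm_num
          · have h5 : Y.card = 0 := by omega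
            rw [card_eq_zero] at h5
            have h6 : X.card = 1 := by omega
            obtain ⟨v, rfl⟩ := card_eq_one.1 h6
            rw [h5, gvk_empty, gpw_empty, h.wt.val_single (ok.hA (hX (mem_singleton_self v)))]
            norm_num
        · have h4 := ko X hX Y hY ho h1
          linarith)
    rwa [hg] at h3
  have hC := (h.toC6 hk).gad4 (by norm_num) ok hf he h2
  refine ⟨hC.even, ?_, h2, ?_, hw.t0, ?_, ?_, ?_, ?_⟩
  · have h3 := h.fresh.gad ok hf one1
    rwa [hg] at h3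
  · intro v hv
    have h3 := hw.deg v hv
    rw [← h3]
    congr 1
    unfold one1
    rw [sum_const, nsmul_eq_mul, mul_one]
  · have h3 := gad_tau (t := t) ok one1 h.wt.sym tk
    have h4 : ∑ d ∈ (G.bd g.A).filter (fun d => d ∉ g.P), one1 d =
        (((G.bd g.A).filter fun d => d ∉ g.P).card : ℝ) := by
      unfold one1
      rw [sum_const, nsmul_eq_mul, mul_one]
    rw [h3, h4]
    exact ht
  · intro X hX ho h1
    obtain ⟨h3, h4⟩ := hsp X hX
    rw [h4] at ho h1
    rw [h3, hval _ inter_subset_right _ inter_subset_right]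
    exact ko _ inter_subset_right _ inter_subset_right ho h1
  · intro X hX hev hn h1
    obtain ⟨h3, h4⟩ := hsp X hX
    rw [h4] at hev
    rw [h3, hval _ inter_subset_right _ inter_subset_right]
    refine ke _ inter_subset_right _ inter_subset_right hev ?_ ?_
    · rw [h3, union_nonempty] at hn
      exact hn
    · by_contra h5
      rw [not_or, not_not, not_not] at h5
      apply h1
      rw [h3, h5.1, h5.2]
      rfl
  · intro X hX hev hn
    have h3 := hC.ev X hX hev hn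
    have h4 : ∑ v ∈ X, gep G g (epi jm) v ≤ (X ∩ gjm G g jm fr1).card := by
      calc ∑ v ∈ X, gep G g (epi jm) v ≤ ∑ v ∈ X, if v ∈ gjm G g jm fr1 then 1 else 0 :=
            sum_le_sum fun v hv => gep_le h.fresh hf (h.toC6 hk).epj (hX.sub hv)
        _ = (X ∩ gjm G g jm fr1).card := by
            rw [← sum_filter, filter_mem_eq_inter, ← card_eq_sum_ones]
    omega

/-- a good matching of a gadget graph as a half -/
theorem half (h : EK G k t fr F jm) (ok : GOk G g) (hf : FOk G g fr F fr1)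
    (habs : ∀ X, G.Adm fr F X → X ⊆ g.A → (∀ v ∈ X, gdp G g v = ∅) → X ⊆ fr1)
    (h2 : gjm G g jm fr1 = ∅ ∨ (gjm G g jm fr1).card = 2) {ze : D → ℝ} {M : Finset D}
    (hM : (MG.gad G g ok).GoodS (gz g one1 ze) fr1 (F.filter fun d => G.pi d ∈ fr1)
      (gjm G g jm fr1) M) :
    G.GHalf one1 fr F jm g.A (G.resM g.A M) :=
  gad_half ok h.fresh hf habs (fun hn h1 => gjm_eq h.jm2 h1 hn h2) hM


end EK

namespace X6

/-- two halves with the same pattern do not exist, if no closed union joins unused exits -/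
theorem no_glue (h : X6 G t fr F jm) {M1 M2 : Finset D}
    (h1 : G.GHalf one1 fr F jm A M1) (h2 : G.GHalf one1 fr F jm (G.vs \ A) M2)
    (hx : ∀ d ∈ G.bd A, d ∈ M1 ↔ G.al d ∈ M2)
    (hFA : ∀ d ∈ F, G.pi d ∈ A → G.pi (G.al d) ∈ A) (hjm : jm ⊆ A ∨ Disjoint jm A)
    (hl : ∀ X, G.Adm fr F X → (∀ d ∈ G.bd X, d ∈ M1 ∪ M2) → G.uX F (M1 ∪ M2) X A = ∅) : False :=
  h.bad ⟨_, GHalf.glue h.fresh h1 h2 hx hFA hjm hl⟩

/-- the same, if at most one unused exit is fresh on both sides -/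
theorem no_glue1 (h : X6 G t fr F jm) {M1 M2 : Finset D}
    (h1 : G.GHalf one1 fr F jm A M1) (h2 : G.GHalf one1 fr F jm (G.vs \ A) M2)
    (hx : ∀ d ∈ G.bd A, d ∈ M1 ↔ G.al d ∈ M2)
    (hFA : ∀ d ∈ F, G.pi d ∈ A → G.pi (G.al d) ∈ A) (hjm : jm ⊆ A ∨ Disjoint jm A)
    (hu : ∀ d ∈ G.bd A, ∀ d' ∈ G.bd A, d ∉ M1 → d' ∉ M1 → G.pi d ∈ fr → G.pi (G.al d) ∈ fr →
      G.pi d' ∈ fr → G.pi (G.al d') ∈ fr → d = d') : False := by
  refine h.no_glue h1 h2 hx hFA hjm fun X hX hcl => ?_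
  refine h.fresh.uX_empty (HM.glue h1.hm h2.hm hx) hFA hjm ?_ hX hcl
  intro d hd d' hd' n1 n2 a1 a2 b1 b2 c1 c2 e1 e2
  exact hu d (mem_bd.2 ⟨hd, a1, a2⟩) d' (mem_bd.2 ⟨hd', b1, b2⟩)
    (fun k => n1 (mem_union_left _ k)) (fun k => n2 (mem_union_left _ k)) c1 c2 e1 e2


end X6

end MG

end RH
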