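import Pool.Agent.Lib.RH.CE6Out

/-! `Gam` and `Lam` in a smallest state of the class CE6 (helper30): a half matching of the outer side
with a given pattern, or half of a certificate with given values at the exits. -/

set_option autoImplicit false

namespace RH

open Finset Classical

namespace MG

variable {V D : Type*} {G : MG V D} {g : GD V D} {t tk : V → ℝ}
variable {fr fr1 : Finset V} {F : Finset D} {jm A X Y : Finset V}
variable {w1 w2 w3 : V} {x y s k' : ℝ}

/-- exactly the exit `d` is used -/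
def Sg (G : MG V D) (A : Finset V) (M : Finset D) (d : D) : Prop :=
  d ∈ G.bd A ∧ ∀ e ∈ G.bd A, e ∈ M ↔ e = d

/-- exactly the exit `d` is not used -/
def Tr (G : MG V D) (A : Finset V) (M : Finset D) (d : D) : Prop :=
  d ∈ G.bd A ∧ ∀ e ∈ G.bd A, e ∈ M ↔ e ≠ d

namespace Blk

variable (b : Blk G t fr F jm A)
include b

/-- a three-vertex gadget state: a half or a certificate -/
theorem k3_sol (h : X6 G t fr F jm) {g : GD V D} (ok : GOk G g) (hgA : g.A = A)
    (hK : g.K.card = 3)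
    (hE : EK (gad G g ok) 6 (gt G g one1 t tk) (fr ∩ A) (F.filter fun d => G.pi d ∈ fr ∩ A) jm)
    (hH : ∀ M, (gad G g ok).GoodS one1 (fr ∩ A) (F.filter fun d => G.pi d ∈ fr ∩ A) jm M →
      G.GHalf one1 fr F jm A (G.resM A M)) :
    (∃ M, (gad G g ok).IsPM M ∧ G.GHalf one1 fr F jm A (G.resM A M)) ∨
      ∃ p, (gad G g ok).Pot (gz g one1 one1) (gt G g one1 t tk)
        (F.filter fun d => G.pi d ∈ fr ∩ A) ∅ p := by
  have hs : (gad G g ok).vs.card < G.vs.card := by
    have h1 : (gad G g ok).vs.card ≤ A.card + 3 := by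
      change (g.A ∪ g.K).card ≤ _
      rw [← hgA, ← hK]
      exact card_union_le _ _
    have h2 := card_sdiff_add_card_eq_card b.hA
    have h3 := b.big
    omega
  rcases h.solve' (card_le_card inter_subset_left) hs hE with ⟨M, hM⟩ | ⟨p, hp⟩
  · exact Or.inl ⟨M, hM.pm, hH M hM⟩
  · refine Or.inr ⟨p, ?_⟩
    rw [gz_one]
    exact hp

/-- the half certificate of a gadget certificate -/
theorem hpot (h : X6 G t fr F jm) {g : GD V D} (ok : GOk G g) (hgA : g.A = A) {p : V → ℝ}
    (hp : (gad G g ok).Pot (gz g one1 one1) (gt G g one1 t tk)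
      (F.filter fun d => G.pi d ∈ fr ∩ A) ∅ p) : G.HPot one1 t F A p := by
  have h1 := gad_hpot (K := F) ok h.wt (filter_subset _ _) hp (fun _ _ => zero_lt_one)
    h.fresh.Fsub
  rwa [hgA] at h1

/-- an exit is not an F-dart -/
theorem nF {d : D} (hd : d ∈ G.bd A) : d ∉ F := fun hF =>
  (mem_bd.1 hd).2.2 (b.hF d hF (mem_bd.1 hd).2.1)

theorem nF' {d : D} (hd : d ∈ G.bd A) : d ∉ F.filter fun d => G.pi d ∈ fr ∩ A := fun hF =>
  b.nF hd (mem_filter.1 hF).1

end Blk

/-- the used ports at a gadget vertex are the used exits -/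
theorem resM_port {A : Finset V} {M : Finset D} {d : D} (hd : d ∈ G.bd A) :
    d ∈ G.resM A M ↔ d ∈ M := by
  rw [mem_resM]
  exact ⟨fun h => h.1, fun h => ⟨h, (mem_bd.1 hd).1, (mem_bd.1 hd).2.1⟩⟩

/-- one used exit -/
theorem sg_of_card {A : Finset V} {M : Finset D} (h1 : ((G.bd A).filter fun d => d ∈ M).card = 1) :
    ∃ d, G.Sg A (G.resM A M) d := by
  obtain ⟨d, hd⟩ := card_eq_one.1 h1
  have h2 : ∀ e ∈ G.bd A, e ∈ M ↔ e = d := by
    intro e he
    have h3 : e ∈ (G.bd A).filter (fun d => d ∈ M) ↔ e = d := by rw [hd, mem_singleton]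
    rw [mem_filter] at h3
    exact ⟨fun h => h3.1 ⟨he, h⟩, fun h => (h3.2 h).2⟩
  have h4 : d ∈ (G.bd A).filter (fun d => d ∈ M) := by rw [hd]; exact mem_singleton_self d
  exact ⟨d, (mem_filter.1 h4).1, fun e he => by rw [resM_port he]; exact h2 e he⟩

/-- **GAM(pq|ru)**: a single, or half of a certificate with the value 1 at all exits -/
theorem X6.gam [Infinite V] [Infinite D] (h : X6 G t fr F jm) (b : Blk G t fr F jm A)
    {p q r u : D} (hbd : G.bd A = {p, q, r, u}) (hnd : [p, q, r, u].Nodup)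
    (hpq : G.pi p ≠ G.pi q) (hru : G.pi r ≠ G.pi u)
    (epq : ∀ X ⊆ A, Even X.card → G.pi p ∈ X → G.pi q ∈ X → G.val one1 t X ≠ 4)
    (eru : ∀ X ⊆ A, Even X.card → G.pi r ∈ X → G.pi u ∈ X → G.val one1 t X ≠ 4) :
    (∃ M, G.GHalf one1 fr F jm A M ∧ ∃ d, G.Sg A M d) ∨
      ∃ f, G.HPot one1 t F A f ∧ ∀ d ∈ G.bd A, f (G.pi d) = 1 := by
  obtain ⟨wv, hwi, hwn⟩ := exists_new G.vs 3
  obtain ⟨wd, hdi, hdn⟩ := exists_new G.ds 4
  have nv : ∀ i j : Fin 3, i ≠ j → wv i ≠ wv j := fun i j hij he => hij (hwi he)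
  have nd : ∀ i j : Fin 4, i ≠ j → wd i ≠ wd j := fun i j hij he => hij (hdi he)
  have k : PthOk G A (G.bd A) (fun d => if d = p ∨ d = q then wv 0 else wv 2) (wv 0) (wv 1) (wv 2)
      (wd 0) (wd 1) (wd 2) (wd 3) := by
    refine ⟨b.hA, nv _ _ (by decide), nv _ _ (by decide), nv _ _ (by decide),
      fun h1 => hwn 0 (b.hA h1), fun h1 => hwn 1 (b.hA h1), fun h1 => hwn 2 (b.hA h1), Subset.rfl,
      fun d _ => ?_, nd _ _ (by decide), nd _ _ (by decide), nd _ _ (by decide),
      nd _ _ (by decide), nd _ _ (by decide), nd _ _ (by decide), ?_⟩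
    · by_cases h1 : d = p ∨ d = q
      · rw [if_pos h1]
        exact Or.inl rfl
      · rw [if_neg h1]
        exact Or.inr (Or.inr rfl)
    · rintro d (rfl | rfl | rfl | rfl) hd
      · exact absurd hd (hdn 0)
      · exact absurd hd (hdn 1)
      · exact absurd hd (hdn 2)
      · exact absurd hd (hdn 3)
  obtain ⟨hE, hH⟩ := h.toEK.gam b hbd hnd k hpq hru epq eru
  have hK : (pthG A (G.bd A) (fun d => if d = p ∨ d = q then wv 0 else wv 2) (wv 0) (wv 1) (wv 2)
      (wd 0) (wd 1) (wd 2) (wd 3)).K.card = 3 := by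
    change ({wv 0, wv 1, wv 2} : Finset V).card = 3
    rw [card_insert_of_notMem, card_insert_of_notMem, card_singleton]
    · rw [mem_singleton]
      exact k.n23
    · rw [mem_insert, mem_singleton, not_or]
      exact ⟨k.n12, k.n13⟩
  rcases b.k3_sol h k.ok rfl hK hE hH with ⟨M, hM, hG⟩ | ⟨f, hf⟩
  · left
    refine ⟨_, hG, ?_⟩
    apply sg_of_card
    obtain ⟨c1, c2, g1, g2, g3⟩ := k.pat hM
    have e2 : ((G.bd A).filter fun d => (if d = p ∨ d = q then wv 0 else wv 2) = wv 1 ∧ d ∈ M) =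
        ∅ := by
      rw [filter_eq_empty_iff]
      rintro d - ⟨h1, -⟩
      split_ifs at h1
      · exact k.n12 h1
      · exact k.n23 h1.symm
    rw [e2, card_empty] at g2
    have e3 : ((G.bd A).filter fun d => d ∈ M).card =
        ((G.bd A).filter fun d => (if d = p ∨ d = q then wv 0 else wv 2) = wv 0 ∧ d ∈ M).card +
        ((G.bd A).filter fun d => (if d = p ∨ d = q then wv 0 else wv 2) = wv 2 ∧ d ∈ M).card := by
      rw [← card_union_of_disjoint]
      · congr 1
        ext d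
        rw [mem_union, mem_filter, mem_filter, mem_filter]
        by_cases h1 : d = p ∨ d = q
        · simp only [if_pos h1, k.n13, true_and, false_and, and_false, or_false]
        · simp only [if_neg h1, k.n13.symm, true_and, false_and, and_false, false_or]
      · rw [disjoint_left]
        intro d h1 h2
        exact k.n13 ((mem_filter.1 h1).2.1.symm.trans (mem_filter.1 h2).2.1)
    rw [e3]
    omega
  · right
    refine ⟨f, b.hpot h k.ok rfl hf, fun d hd => ?_⟩
    have hz : ∀ d : D, (0 : ℝ) < one1 d := fun _ => zero_lt_one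
    have a1 := gad_port k.ok h.wt hf (d := d) hd (b.nF' hd) (hz d)
    obtain ⟨j1, j2, j3, j4, k1, k2, k3, k4⟩ := k.tab
    have nE : ∀ d, d ∈ (pthG A (G.bd A) (fun d => if d = p ∨ d = q then wv 0 else wv 2) (wv 0)
        (wv 1) (wv 2) (wd 0) (wd 1) (wd 2) (wd 3)).E → d ∉ F.filter fun d => G.pi d ∈ fr ∩ A := by
      intro d hd hF
      have h3 := h.fresh.Fsub (mem_filter.1 hF).1
      rcases k.memE.1 hd with rfl | rfl | rfl | rfl
      · exact hdn 0 h3
      · exact hdn 1 h3
      · exact hdn 2 h3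
      · exact hdn 3 h3
    have m1 := k.memE.2 (Or.inl (rfl : wd 0 = wd 0))
    have m3 := k.memE.2 (Or.inr (Or.inr (Or.inr (rfl : wd 3 = wd 3))))
    have a2 := gad_inn k.ok h.wt hf m1 (nE _ m1) (hz _)
    have a3 := gad_inn k.ok h.wt hf m3 (nE _ m3) (hz _)
    rw [j1, k1, k2] at a2
    rw [j4, k3, k4] at a3
    have a4 : f (wv 1) = 1 := by
      refine gad_tok k.ok h.wt hf (v := wv 1) ?_ ?_
      · change wv 1 ∈ ({wv 0, wv 1, wv 2} : Finset V)
        simp
      · unfold triT
        rw [if_neg k.n12.symm, if_pos rfl]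
        norm_num
    rw [a4] at a2 a3
    rw [a1]
    change - f (if d = p ∨ d = q then wv 0 else wv 2) = 1
    split_ifs
    · rw [a2]
      norm_num
    · rw [a3]
      norm_num

end MG

end RH
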