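import Pool.Agent.Lib.RH.CE6Board

/-! # Literals and lollipops (row of helper61, argument in the chat of S3)

`Lt G K A a s v s'`: the literal `(v, s')` (`true`: value 1, `false`: value -1) is forced by the
literal `(a, s)`, without the vertices of `A`. A real step at `y`: if every child has a certificate,
no other token forces anything at `y`, `b` or their neighbours, the only conflicts are conflicts of
`y` with itself, and there is no other token with a real step. -/

set_option autoImplicit false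

namespace RH

open Finset Classical

namespace MG

variable {V D : Type*}

/-- one step between literals -/
def LS (G : MG V D) (K : Finset D) (v : V) (s : Bool) (w : V) (s' : Bool) : Prop :=
  ∃ d ∈ G.ds, G.pi d = v ∧ G.pi (G.al d) = w ∧
    ((s = true ∧ s' = false) ∨ (s = false ∧ s' = true ∧ d ∉ K))

/-- forced literals, the vertices of `A` are forbidden -/
inductive Lt (G : MG V D) (K : Finset D) (A : Finset V) (a : V) (s : Bool) : V → Bool → Prop
  | refl : Lt G K A a s a s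
  | step {v w : V} {s1 s2 : Bool} : Lt G K A a s v s1 → LS G K v s1 w s2 → w ∉ A →
      Lt G K A a s w s2

/-- the literal holds -/
def Lit (p : V → ℝ) (v : V) (s : Bool) : Prop := if s then 1 ≤ p v else p v ≤ -1

/-- certificate conditions at the darts which do not meet `A` -/
structure PA (G : MG V D) (K : Finset D) (A : Finset V) (p : V → ℝ) : Prop where
  jq : ∀ d ∈ G.ds, G.pi d ∉ A → G.pi (G.al d) ∉ A → d ∉ K → p (G.pi d) + p (G.pi (G.al d)) = 0
  kk : ∀ d ∈ G.ds, G.pi d ∉ A → G.pi (G.al d) ∉ A → p (G.pi d) + p (G.pi (G.al d)) ≤ 0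

variable {G : MG V D} {K : Finset D} {A B : Finset V} {a b c v w x y : V} {s s' s1 s2 : Bool}
variable {p : V → ℝ}

theorem LS.skew (hK : ∀ d ∈ K, G.al d ∈ K) (h : LS G K v s w s') : LS G K w (!s') v (!s) := by
  obtain ⟨d, h1, h2, h3, h4⟩ := h
  refine ⟨G.al d, G.al_mem d h1, h3, by rw [G.al_al d h1, h2], ?_⟩
  rcases h4 with ⟨rfl, rfl⟩ | ⟨rfl, rfl, h5⟩
  · exact Or.inl ⟨rfl, rfl⟩
  · refine Or.inr ⟨rfl, rfl, fun h6 => h5 ?_⟩
    have := hK _ h6
    rwa [G.al_al d h1] at this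

namespace Lt

theorem trans (h : Lt G K A a s v s1) (h' : Lt G K A v s1 w s2) : Lt G K A a s w s2 := by
  induction h' with
  | refl => exact h
  | step _ h2 h3 ih => exact ih.step h2 h3

theorem notMem (ha : a ∉ A) (h : Lt G K A a s v s1) : v ∉ A := by
  cases h with
  | refl => exact ha
  | step _ _ h3 => exact h3

theorem one (h : LS G K a s v s1) (hv : v ∉ A) : Lt G K A a s v s1 := refl.step h hv

theorem skew (hK : ∀ d ∈ K, G.al d ∈ K) (ha : a ∉ A) (h : Lt G K A a s v s1) :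
    Lt G K A v (!s1) a (!s) := by
  induction h with
  | refl => exact refl
  | step h1 h2 _ ih => exact (one (h2.skew hK) (h1.notMem ha)).trans ih

theorem mono (hAB : B ⊆ A) (h : Lt G K A a s v s1) : Lt G K B a s v s1 := by
  induction h with
  | refl => exact refl
  | step _ h2 h3 ih => exact ih.step h2 fun h4 => h3 (hAB h4)

/-- first arrival at `x` -/
theorem cut (h : Lt G K A a s v s1) (hx : a ≠ x) :
    (Lt G K (insert x A) a s v s1 ∧ v ≠ x) ∨ ∃ w s2 s3, Lt G K (insert x A) a s w s2 ∧ w ≠ x ∧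
      LS G K w s2 x s3 ∧ Lt G K A x s3 v s1 := by
  induction h with
  | refl => exact Or.inl ⟨refl, hx⟩
  | @step v w s1 s2 h1 h2 h3 ih =>
    rcases ih with ⟨i1, i2⟩ | ⟨w', s3, s4, i1, i2, i3, i4⟩
    · by_cases hw : w = x
      · subst hw
        exact Or.inr ⟨v, s1, s2, i1, i2, h2, refl⟩
      · exact Or.inl ⟨i1.step h2 fun h4 => (mem_insert.1 h4).elim hw h3, hw⟩
    · exact Or.inr ⟨w', s3, s4, i1, i2, i3, i4.step h2 h3⟩

end Lt

theorem lit_true : Lit p v true ↔ 1 ≤ p v := by simp [Lit]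

theorem lit_false : Lit p v false ↔ p v ≤ -1 := by simp [Lit]

theorem Lit.not (h1 : Lit p v s) (h2 : Lit p v (!s)) : False := by
  cases s
  · rw [lit_false] at h1
    rw [Bool.not_false, lit_true] at h2
    linarith
  · rw [lit_true] at h1
    rw [Bool.not_true, lit_false] at h2
    linarith

theorem PA.mono (h : PA G K A p) (hAB : A ⊆ B) : PA G K B p where
  jq := fun d h1 h2 h3 => h.jq d h1 (fun h4 => h2 (hAB h4)) fun h4 => h3 (hAB h4)
  kk := fun d h1 h2 h3 => h.kk d h1 (fun h4 => h2 (hAB h4)) fun h4 => h3 (hAB h4)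

theorem PA.lit (h : PA G K A p) (ha : a ∉ A) (hl : Lit p a s) (h' : Lt G K A a s v s1) :
    Lit p v s1 := by
  induction h' with
  | refl => exact hl
  | step h1 h2 h3 ih =>
    obtain ⟨d, k1, k2, k3, k4⟩ := h2
    have hv := h1.notMem ha
    rcases k4 with ⟨rfl, rfl⟩ | ⟨rfl, rfl, k5⟩
    · rw [lit_true] at ih
      rw [lit_false]
      have := h.kk d k1 (by rw [k2]; exact hv) (by rw [k3]; exact h3)
      rw [k2, k3] at this
      linarith
    · rw [lit_false] at ih
      rw [lit_true]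
      have := h.jq d k1 (by rw [k2]; exact hv) (by rw [k3]; exact h3) k5
      rw [k2, k3] at this
      linarith

/-- **no conflict between the sources: a certificate** -/
theorem exists_pa (hK : ∀ d ∈ K, G.al d ∈ K) {Src : V → Bool → Prop}
    (hS : ∀ a s, Src a s → a ∉ A)
    (hno : ∀ a s b s', Src a s → Src b s' → ¬ Lt G K A a s b (!s')) :
    ∃ p, PA G K A p ∧ (∀ a, Src a true → p a = 1) ∧ ∀ a, Src a false → p a = -1 := by
  obtain ⟨R, hR⟩ : ∃ R : V → Bool → Prop, R = fun v s' => ∃ a s, Src a s ∧ Lt G K A a s v s' :=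
    ⟨_, rfl⟩
  have hcon : ∀ v, R v true → R v false → False := by
    intro v h1 h2
    rw [hR] at h1 h2
    obtain ⟨a, s, h3, h4⟩ := h1
    obtain ⟨b, s', h5, h6⟩ := h2
    have h7 := h6.skew hK (hS _ _ h5)
    exact hno a s b s' h3 h5 (h4.trans h7)
  have hup : ∀ d ∈ G.ds, G.pi (G.al d) ∉ A → R (G.pi d) true → R (G.pi (G.al d)) false := by
    intro d hd hA h1
    rw [hR] at h1 ⊢
    obtain ⟨a, s, h3, h4⟩ := h1
    exact ⟨a, s, h3, h4.step ⟨d, hd, rfl, rfl, Or.inl ⟨rfl, rfl⟩⟩ hA⟩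
  have hdn : ∀ d ∈ G.ds, d ∉ K → G.pi (G.al d) ∉ A → R (G.pi d) false →
      R (G.pi (G.al d)) true := by
    intro d hd hdK hA h1
    rw [hR] at h1 ⊢
    obtain ⟨a, s, h3, h4⟩ := h1
    exact ⟨a, s, h3, h4.step ⟨d, hd, rfl, rfl, Or.inr ⟨rfl, rfl, hdK⟩⟩ hA⟩
  refine ⟨fun v => if R v true then 1 else if R v false then -1 else 0, ?_, ?_, ?_⟩
  · constructor
    · intro d hd h1 h2 h3
      have e1 := hup d hd h2
      have e2 := hdn d hd h3 h2
      have h3' : G.al d ∉ K := fun h4 => h3 (by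
        have := hK _ h4
        rwa [G.al_al d hd] at this)
      have e3 := hup (G.al d) (G.al_mem d hd) (by rw [G.al_al d hd]; exact h1)
      have e4 := hdn (G.al d) (G.al_mem d hd) h3' (by rw [G.al_al d hd]; exact h1)
      rw [G.al_al d hd] at e3 e4
      have c1 := hcon (G.pi d)
      have c2 := hcon (G.pi (G.al d))
      by_cases k1 : R (G.pi d) true
      · have k2 := e1 k1
        have k3 : ¬ R (G.pi (G.al d)) true := fun k => c2 k k2
        simp only [k1, k2, k3, if_true, if_false]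
        norm_num
      · by_cases k2 : R (G.pi d) false
        · have k3 := e2 k2
          simp only [k1, k2, k3, if_true, if_false]
          norm_num
        · have k3 : ¬ R (G.pi (G.al d)) true := fun k => k2 (e3 k)
          have k4 : ¬ R (G.pi (G.al d)) false := fun k => k1 (e4 k)
          simp only [k1, k2, k3, k4, if_false]
          norm_num
    · intro d hd h1 h2
      have e1 := hup d hd h2
      have e3 := hup (G.al d) (G.al_mem d hd) (by rw [G.al_al d hd]; exact h1)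
      rw [G.al_al d hd] at e3
      have c1 := hcon (G.pi d)
      have c2 := hcon (G.pi (G.al d))
      by_cases k1 : R (G.pi d) true
      · have k2 := e1 k1
        have k3 : ¬ R (G.pi (G.al d)) true := fun k => c2 k k2
        simp only [k1, k2, k3, if_true, if_false]
        norm_num
      · by_cases k2 : R (G.pi (G.al d)) true
        · have k3 := e3 k2
          simp only [k1, k2, k3, if_true, if_false]
          norm_num
        · by_cases k3 : R (G.pi d) false <;> by_cases k4 : R (G.pi (G.al d)) false <;>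
            simp only [k1, k2, k3, k4, if_true, if_false] <;> norm_num
  · intro a ha
    have h1 : R a true := by rw [hR]; exact ⟨a, true, ha, Lt.refl⟩
    simp only [h1, if_true]
  · intro a ha
    have h1 : R a false := by rw [hR]; exact ⟨a, false, ha, Lt.refl⟩
    have h2 : ¬ R a true := fun k => hcon a k h1
    simp only [h1, h2, if_true, if_false]

/-! ## Real steps -/

variable {t : V → ℝ} {fr : Finset V} {F : Finset D} {jm : Finset V} {a0 u e1 e2 : D} {k : ℝ}

theorem RStp.my (r : RStp G t fr y b a0 u e1 e2) : y ∈ G.vs := r.sp.pa ▸ G.pi_mem a0 r.sp.a1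

theorem RStp.mb (r : RStp G t fr y b a0 u e1 e2) : b ∈ G.vs :=
  r.sp.pb ▸ G.pi_mem _ (G.al_mem a0 r.sp.a1)

theorem RStp.ty1 (r : RStp G t fr y b a0 u e1 e2) (h : EK G k t fr F jm) : t y = 1 := by
  obtain ⟨n, h1, h2⟩ := h.tnat r.my
  have h3 : G.st y = {a0, u} := by
    ext d
    rw [r.sp.sy d, mem_insert, mem_singleton]
  rw [h3, card_pair r.sp.au] at h2
  have : n = 1 := by omega
  rw [h1, this]
  norm_num

theorem RStp.tb0 (r : RStp G t fr y b a0 u e1 e2) (h : EK G k t fr F jm) : t b = 0 := by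
  obtain ⟨n, h1, h2⟩ := h.tnat r.mb
  have h3 : G.st b = {G.al a0, e1, e2} := by
    ext d
    rw [r.sp.sb d, mem_insert, mem_insert, mem_singleton]
  have h4 : ({G.al a0, e1, e2} : Finset D).card = 3 := by
    rw [card_insert_of_notMem, card_pair r.sp.ee]
    rw [mem_insert, mem_singleton]
    exact fun h5 => h5.elim r.sp.ae1 r.sp.ae2
  rw [h3, h4] at h2
  have : n = 0 := by omega
  rw [h1, this]
  norm_num

/-- the other exit -/
theorem RStp.sw (r : RStp G t fr y b a0 u e1 e2) (h : EK G k t fr F jm) :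
    RStp G t fr y b a0 u e2 e1 where
  sp :=
    { a1 := r.sp.a1
      u1 := r.sp.u1
      f1 := r.sp.g1
      g1 := r.sp.f1
      pb := r.sp.pb
      sy := r.sp.sy
      sb := fun d => by rw [r.sp.sb d]; tauto
      au := r.sp.au
      ae1 := r.sp.ae2
      ae2 := r.sp.ae1
      ee := fun e => r.sp.ee e.symm
      ub := r.sp.ub
      ue := by
        intro e
        refine h.no_tri (d := u) (e := G.al e1) (f := G.al a0) r.sp.u1 (G.al_mem _ r.sp.f1)
          (G.al_mem _ r.sp.a1) e.symm ?_ ?_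
        · rw [G.al_al _ r.sp.f1, r.sp.pf, r.sp.pb]
        · rw [G.al_al _ r.sp.a1, r.sp.pu, r.sp.pa] }
  hy := r.hy
  hb := r.hb

/-- an edge of a token outside the circuits: two real steps -/
theorem EK.mk_step (h : EK G 6 t fr F jm) {a0 u : D} (ha : a0 ∈ G.ds) (hu : u ∈ G.ds)
    (hau : a0 ≠ u) (hp : G.pi u = G.pi a0) (hy : G.pi a0 ∉ fr) (hb : G.pi (G.al a0) ∉ fr)
    (ty : t (G.pi a0) = 1) (tb : t (G.pi (G.al a0)) = 0) :
    ∃ e1 e2, RStp G t fr (G.pi a0) (G.pi (G.al a0)) a0 u e1 e2 := by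
  have hy' := G.pi_mem a0 ha
  have hb' := G.pi_mem _ (G.al_mem a0 ha)
  have c1 : (G.st (G.pi a0)).card + 1 = 3 := h.st_card hy' (n := 1) (by rw [ty]; norm_num)
  have c2 : (G.st (G.pi (G.al a0))).card + 0 = 3 := h.st_card hb' (n := 0) (by rw [tb]; norm_num)
  have m1 : G.al a0 ∈ G.st (G.pi (G.al a0)) := mem_st.2 ⟨G.al_mem a0 ha, rfl⟩
  have c3 : ((G.st (G.pi (G.al a0))).erase (G.al a0)).card = 2 := by
    rw [card_erase_of_mem m1]
    omega
  obtain ⟨e1, e2, he, hS⟩ := card_eq_two.1 c3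
  have hsy : G.st (G.pi a0) = {a0, u} := by
    symm
    refine eq_of_subset_of_card_le ?_ ?_
    · intro d hd
      rcases mem_insert.1 hd with h1 | h1
      · rw [h1]; exact mem_st.2 ⟨ha, rfl⟩
      · rw [mem_singleton.1 h1]; exact mem_st.2 ⟨hu, hp⟩
    · rw [card_pair hau]
      omega
  have k1 : e1 ∈ (G.st (G.pi (G.al a0))).erase (G.al a0) := by rw [hS]; simp
  have k2 : e2 ∈ (G.st (G.pi (G.al a0))).erase (G.al a0) := by rw [hS]; simp
  obtain ⟨l1, l2⟩ := mem_erase.1 k1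
  obtain ⟨l3, l4⟩ := mem_erase.1 k2
  obtain ⟨l5, l6⟩ := mem_st.1 l2
  obtain ⟨l7, l8⟩ := mem_st.1 l4
  refine ⟨e1, e2, ⟨⟨ha, hu, l5, l7, rfl, ?_, ?_, hau, fun e => l1 e.symm, fun e => l3 e.symm, he,
    ?_, ?_⟩, hy, hb⟩⟩
  · intro d
    rw [hsy, mem_insert, mem_singleton]
  · intro d
    have e3 : G.st (G.pi (G.al a0)) = insert (G.al a0) {e1, e2} := by
      rw [← hS, insert_erase m1]
    rw [e3, mem_insert, mem_insert, mem_singleton]
  · intro e
    exact hau (h.simple (by norm_num) ha hu hp.symm e.symm)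
  · intro e
    refine h.no_tri (d := u) (e := G.al e2) (f := G.al a0) hu (G.al_mem _ l7)
      (G.al_mem _ ha) e.symm ?_ ?_
    · rw [G.al_al _ l7, l8]
    · rw [G.al_al _ ha, hp]

/-- the certificate of a child, outside `y` and `b` -/
theorem ChC.pa (hc : ChC G t fr F jm) (h : EK G k t fr F jm)
    (r : RStp G t fr y b a0 u e1 e2) : ∃ p, PA G F {y, b} p ∧
      (∀ v ∈ G.vs, v ≠ y → v ≠ b → t v ≠ 0 → p v = 1) ∧ p (G.pi (G.al e1)) = 1 ∧
      p (G.pi (G.al u)) + p (G.pi (G.al e2)) = 0 := by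
  obtain ⟨fr', c1, c2, c3, c4, c5, p, hp⟩ := hc y b a0 u e1 e2 r
  have hA : ∀ v, v ∉ ({y, b} : Finset V) ↔ v ≠ y ∧ v ≠ b := by
    intro v
    rw [mem_insert, mem_singleton, not_or]
  have hds : ∀ d ∈ G.ds, G.pi d ∉ ({y, b} : Finset V) → G.pi (G.al d) ∉ ({y, b} : Finset V) →
      d ∈ r.sp.gr.ds ∧ r.sp.gr.al d = G.al d := by
    intro d hd h1 h2
    rw [hA] at h1 h2
    refine ⟨r.sp.gr_ds.2 ⟨hd, Or.inr (Or.inr ⟨h1.1, h1.2, h2.1, h2.2⟩)⟩, r.sp.al_o ?_ ?_⟩
    · intro e
      rw [e, G.al_al u r.sp.u1] at h2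
      exact h2.1 r.sp.pu
    · intro e
      rw [e, G.al_al e2 r.sp.g1] at h2
      exact h2.2 r.sp.pg
  refine ⟨p, ⟨?_, ?_⟩, ?_, ?_, ?_⟩
  · intro d hd h1 h2 h3
    obtain ⟨k1, k2⟩ := hds d hd h1 h2
    have := hp.jq d k1 zero_lt_one (fun h4 => h3 (mem_filter.1 h4).1) (notMem_empty d)
    rwa [k2] at this
  · intro d hd h1 h2
    obtain ⟨k1, k2⟩ := hds d hd h1 h2
    by_cases k3 : d ∈ F.filter fun d => G.pi d ∈ fr'
    · have := hp.kk d k3
      rwa [k2] at this
    · have := hp.jq d k1 zero_lt_one k3 (notMem_empty d)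
      rw [k2] at this
      exact this.le
  · intro v hv h1 h2 h3
    refine hp.tok v (r.sp.gr_vs.2 ⟨hv, h1, h2⟩) ?_
    have h4 := h.t0 v hv
    have h5 : 0 < t v := lt_of_le_of_ne h4 fun e => h3 e.symm
    unfold Sp.tk
    split_ifs <;> linarith
  · refine hp.tok _ (r.sp.gr_vs.2 ⟨G.pi_mem _ (G.al_mem e1 r.sp.f1), r.sp.paf, r.sp.paf'⟩) ?_
    have h4 := h.t0 _ (G.pi_mem _ (G.al_mem e1 r.sp.f1))
    unfold Sp.tk
    rw [if_pos rfl]
    linarith
  · have k1 : G.al u ∈ r.sp.gr.ds := r.sp.gr_ds.2 ⟨G.al_mem u r.sp.u1, Or.inl rfl⟩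
    have k2 : G.al u ∉ F.filter fun d => G.pi d ∈ fr' := by
      intro k3
      have k4 := h.fresh.Fal _ (mem_filter.1 k3).1
      rw [G.al_al u r.sp.u1] at k4
      exact r.hy (r.sp.pu ▸ h.fresh.Ffr u k4)
    have := hp.jq _ k1 zero_lt_one k2 (notMem_empty _)
    rwa [r.sp.al_u] at this

/-- rounded values -/
noncomputable def rnd (x : ℝ) : ℝ := if 1 ≤ x then 1 else if x ≤ -1 then -1 else 0

theorem rnd_neg {x x' : ℝ} (h : x + x' = 0) : rnd x + rnd x' = 0 := by
  unfold rnd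
  split_ifs <;> linarith

theorem rnd_le {x x' : ℝ} (h : x + x' ≤ 0) : rnd x + rnd x' ≤ 0 := by
  unfold rnd
  split_ifs <;> linarith

theorem rnd_one {x : ℝ} (h : 1 ≤ x) : rnd x = 1 := if_pos h

theorem rnd_neg_one {x : ℝ} (h : x ≤ -1) : rnd x = -1 := by
  unfold rnd
  rw [if_neg (by linarith), if_pos h]

/-- a certificate outside `y`, `b` with the right signs at the neighbours does not exist -/
theorem RStp.no_pa (r : RStp G t fr y b a0 u e1 e2) (h : EK G k t fr F jm)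
    (nc : ¬ ∃ p, G.Pot one1 t F ∅ p) {p : V → ℝ} (hp : PA G F {y, b} p)
    (ht : ∀ v ∈ G.vs, v ≠ y → v ≠ b → t v ≠ 0 → 1 ≤ p v)
    (h1 : 1 ≤ p (G.pi (G.al e1))) (h2 : 1 ≤ p (G.pi (G.al e2))) (h3 : p (G.pi (G.al u)) ≤ -1) :
    False := by
  have hA : ∀ v, v ∉ ({y, b} : Finset V) ↔ v ≠ y ∧ v ≠ b := by
    intro v
    rw [mem_insert, mem_singleton, not_or]
  obtain ⟨q, hq⟩ : ∃ q : V → ℝ, q = fun v => if v = y then 1 else if v = b then -1 else rnd (p v) :=
    ⟨_, rfl⟩
  have qy : q y = 1 := by rw [hq]; exact if_pos rfl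
  have qb : q b = -1 := by
    rw [hq]
    show (if b = y then (1 : ℝ) else if b = b then -1 else rnd (p b)) = -1
    rw [if_neg fun e => r.sp.yb e.symm, if_pos rfl]
  have qv : ∀ v, v ≠ y → v ≠ b → q v = rnd (p v) := by
    intro v k1 k2
    rw [hq]
    show (if v = y then (1 : ℝ) else if v = b then -1 else rnd (p v)) = _
    rw [if_neg k1, if_neg k2]
  have q1 : q (G.pi (G.al e1)) = 1 := by rw [qv _ r.sp.paf r.sp.paf', rnd_one h1]
  have q2 : q (G.pi (G.al e2)) = 1 := by rw [qv _ r.sp.pag r.sp.pag', rnd_one h2]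
  have q3 : q (G.pi (G.al u)) = -1 := by rw [qv _ r.sp.pau r.sp.ub, rnd_neg_one h3]
  -- darts at y or b
  have key : ∀ d ∈ G.ds, (G.pi d = y ∨ G.pi d = b) → q (G.pi d) + q (G.pi (G.al d)) = 0 := by
    rintro d hd (k | k)
    · rcases r.sp.at_y hd k with rfl | rfl
      · rw [k, r.sp.pb, qy, qb]; norm_num
      · rw [k, qy, q3]; norm_num
    · rcases r.sp.at_b hd k with rfl | rfl | rfl
      · rw [k, G.al_al _ r.sp.a1, r.sp.pa, qy, qb]; norm_num
      · rw [k, qb, q1]; norm_num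
      · rw [k, qb, q2]; norm_num
  have key2 : ∀ d ∈ G.ds, (G.pi (G.al d) = y ∨ G.pi (G.al d) = b) →
      q (G.pi d) + q (G.pi (G.al d)) = 0 := by
    intro d hd k
    have := key (G.al d) (G.al_mem d hd) k
    rw [G.al_al d hd] at this
    linarith
  refine nc ⟨q, ?_, ?_, ?_, ?_, h.fresh.Fsub, empty_subset _⟩
  · intro v hv hv0
    by_cases k1 : v = y
    · rw [k1, qy]
    · by_cases k2 : v = b
      · exact absurd (by rw [k2, r.tb0 h]) hv0
      · rw [qv v k1 k2, rnd_one (ht v hv k1 k2 hv0)]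
  · intro d hd _ hdF _
    by_cases k1 : G.pi d = y ∨ G.pi d = b
    · exact key d hd k1
    · by_cases k2 : G.pi (G.al d) = y ∨ G.pi (G.al d) = b
      · exact key2 d hd k2
      · rw [not_or] at k1 k2
        rw [qv _ k1.1 k1.2, qv _ k2.1 k2.2]
        exact rnd_neg (hp.jq d hd ((hA _).2 k1) ((hA _).2 k2) hdF)
  · intro d hdF
    have hd := h.fresh.Fsub hdF
    by_cases k1 : G.pi d = y ∨ G.pi d = b
    · exact (key d hd k1).le
    · by_cases k2 : G.pi (G.al d) = y ∨ G.pi (G.al d) = b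
      · exact (key2 d hd k2).le
      · rw [not_or] at k1 k2
        rw [qv _ k1.1 k1.2, qv _ k2.1 k2.2]
        exact rnd_le (hp.kk d hd ((hA _).2 k1) ((hA _).2 k2))
  · intro d hd
    exact absurd hd (notMem_empty d)

/-- the hypotheses of this file -/
structure Lol (G : MG V D) (t : V → ℝ) (fr : Finset V) (F : Finset D) (jm : Finset V) : Prop where
  ek : EK G 6 t fr F jm
  nc : ¬ ∃ p, G.Pot one1 t F ∅ p
  noAdj : NoAdj G t F
  noBQ : NoBQ G t fr
  chc : ChC G t fr F jm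

theorem Bas.lol (h : Bas G t fr F jm) (hc : ChC G t fr F jm) : Lol G t fr F jm :=
  ⟨h.toEK, h.nc, h.noAdj, h.noBQ, hc⟩

namespace Lol

theorem tok_ne (h : Lol G t fr F jm) (r : RStp G t fr y b a0 u e1 e2) (ht : t v ≠ 0)
    (hy : v ≠ y) : v ∉ ({y, b} : Finset V) := by
  rw [mem_insert, mem_singleton, not_or]
  exact ⟨hy, fun e => ht (by rw [e, r.tb0 h.ek])⟩

/-- a token different from `y` forces nothing at `b'` -/
theorem sep1 (h : Lol G t fr F jm) (r : RStp G t fr y b a0 u e1 e2) (hv : v ∈ G.vs)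
    (ht : t v ≠ 0) (hy : v ≠ y) : ¬ Lt G F {y, b} v true (G.pi (G.al e1)) s := by
  intro hl
  have hA := h.tok_ne r ht hy
  obtain ⟨p, p1, p2, p3, p4⟩ := h.chc.pa h.ek r
  obtain ⟨q, q1, q2, q3, q4⟩ := h.chc.pa h.ek (r.sw h.ek)
  have hA' := hA
  rw [mem_insert, mem_singleton, not_or] at hA'
  have pv : Lit p v true := lit_true.2 (p2 v hv hA'.1 hA'.2 ht).ge
  have qv : Lit q v true := lit_true.2 (q2 v hv hA'.1 hA'.2 ht).ge
  cases s
  · have := lit_false.1 (p1.lit hA pv hl)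
    linarith
  · have h1 := lit_true.1 (q1.lit hA qv hl)
    exact r.no_pa h.ek h.nc q1 (fun v k1 k2 k3 k4 => (q2 v k1 k2 k3 k4).ge) h1 q3.ge
      (by linarith)

/-- a token different from `y` forces nothing at `b''` -/
theorem sep2 (h : Lol G t fr F jm) (r : RStp G t fr y b a0 u e1 e2) (hv : v ∈ G.vs)
    (ht : t v ≠ 0) (hy : v ≠ y) : ¬ Lt G F {y, b} v true (G.pi (G.al e2)) s :=
  h.sep1 (r.sw h.ek) hv ht hy

/-- the other neighbour `u'` of `y`: value -1 -/
theorem sep3 (h : Lol G t fr F jm) (r : RStp G t fr y b a0 u e1 e2) (hv : v ∈ G.vs)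
    (ht : t v ≠ 0) (hy : v ≠ y) : ¬ Lt G F {y, b} v true (G.pi (G.al u)) false := by
  intro hl
  have hA := h.tok_ne r ht hy
  obtain ⟨p, p1, p2, p3, p4⟩ := h.chc.pa h.ek r
  have hA' := hA
  rw [mem_insert, mem_singleton, not_or] at hA'
  have pv : Lit p v true := lit_true.2 (p2 v hv hA'.1 hA'.2 ht).ge
  have h1 := lit_false.1 (p1.lit hA pv hl)
  exact r.no_pa h.ek h.nc p1 (fun v k1 k2 k3 k4 => (p2 v k1 k2 k3 k4).ge) p3.ge
    (by linarith) h1

/-- `u` is not in `F` -/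
theorem uF (h : Lol G t fr F jm) (r : RStp G t fr y b a0 u e1 e2) : u ∉ F := fun h1 =>
  r.hy (r.sp.pu ▸ h.ek.fresh.Ffr u h1)

/-- if `u'` is fresh, it is reached with the value 1 only by `u` -/
theorem fresh_u (h : Lol G t fr F jm) (r : RStp G t fr y b a0 u e1 e2)
    (hu : G.pi (G.al u) ∈ fr) (hv : v ∉ ({y, b} : Finset V)) (hne : v ≠ G.pi (G.al u) ∨ s = false) :
    ¬ Lt G F {y, b} v s (G.pi (G.al u)) true := by
  intro hl
  have hF := h.ek.fresh
  have huF := h.uF r
  have huF' : G.al u ∉ F := fun h1 => huF (by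
    have := hF.Fal _ h1
    rwa [G.al_al u r.sp.u1] at this)
  have hj : G.pi (G.al u) ∉ jm := fun hj => huF' (hF.j0 _ hj _ (mem_st.2
    ⟨G.al_mem u r.sp.u1, rfl⟩))
  obtain ⟨j, hj1, hj2, hj3, hj4⟩ := hF.exists_jd hu hj
  generalize hw : G.pi (G.al u) = w at *
  generalize hs : true = s2 at *
  cases hl with
  | refl =>
    rcases hne with h1 | h1
    · exact h1 rfl
    · rw [h1] at hs
      cases hs
  | @step v1 w1 s1 s3 h1 h2 h3 =>
    subst hs
    obtain ⟨d, k1, k2, k3, k4⟩ := h2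
    rcases k4 with ⟨_, k5⟩ | ⟨_, _, k5⟩
    · cases k5
    · have k6 : G.al d ∉ F := fun k => k5 (by
        have := hF.Fal _ k
        rwa [G.al_al d k1] at this)
      have e3 : G.al d = j := hj4 _ (G.al_mem d k1) k3 k6
      have e4 : G.al u = j := hj4 _ (G.al_mem u r.sp.u1) hw huF'
      have e5 : d = u := by rw [← G.al_al d k1, e3, ← e4, G.al_al u r.sp.u1]
      have := h1.notMem hv
      rw [← k2, e5, r.sp.pu] at this
      exact this (mem_insert_self _ _)

/-- the other neighbour `u'` of `y`: value 1 -/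
theorem sep4 (h : Lol G t fr F jm) (r : RStp G t fr y b a0 u e1 e2) (hv : v ∈ G.vs)
    (ht : t v ≠ 0) (hy : v ≠ y) : ¬ Lt G F {y, b} v true (G.pi (G.al u)) true := by
  intro hl
  have hA := h.tok_ne r ht hy
  have huF := h.uF r
  have hty : t y ≠ 0 := by rw [r.ty1 h.ek]; norm_num
  by_cases hu : G.pi (G.al u) ∈ fr
  · refine h.fresh_u r hu hA (Or.inl fun e => ht ?_) hl
    have h1 := h.ek.tok_fr hu
    have hj : G.pi (G.al u) ∉ jm := fun hj => huF (by
      have := h.ek.fresh.j0 _ hj _ (mem_st.2 ⟨G.al_mem u r.sp.u1, rfl⟩)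
      have := h.ek.fresh.Fal _ this
      rwa [G.al_al u r.sp.u1] at this)
    rw [if_neg hj] at h1
    rw [e, h1]
  · have tc : t (G.pi (G.al u)) = 0 := h.noAdj u r.sp.u1 huF (by rw [r.sp.pu]; exact hty)
    obtain ⟨f1, f2, r2⟩ := h.ek.mk_step r.sp.u1 r.sp.a1 (fun e => r.sp.au e.symm)
      (by rw [r.sp.pa, r.sp.pu]) (by rw [r.sp.pu]; exact r.hy) hu
      (by rw [r.sp.pu]; exact r.ty1 h.ek) tc
    rw [r.sp.pu] at r2
    obtain ⟨p, p1, p2, p3, p4⟩ := h.chc.pa h.ek r
    obtain ⟨g, g1, g2, g3, g4⟩ := h.chc.pa h.ek r2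
    obtain ⟨g', g1', g2', g3', g4'⟩ := h.chc.pa h.ek (r2.sw h.ek)
    have hA2 := h.tok_ne r2 ht hy
    have hA' := hA
    have hA2' := hA2
    rw [mem_insert, mem_singleton, not_or] at hA' hA2'
    have pv : Lit p v true := lit_true.2 (p2 v hv hA'.1 hA'.2 ht).ge
    have gv : Lit g v true := lit_true.2 (g2 v hv hA2'.1 hA2'.2 ht).ge
    have gv' : Lit g' v true := lit_true.2 (g2' v hv hA2'.1 hA2'.2 ht).ge
    rcases hl.cut hA2'.2 with ⟨_, k⟩ | ⟨w, s2, s3, k1, k2, k3, k4⟩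
    · exact k rfl
    · have hcA : G.pi (G.al u) ∉ ({y, b} : Finset V) := by
        rw [mem_insert, mem_singleton, not_or]
        exact ⟨r.sp.pau, r.sp.ub⟩
      have k5 : Lt G F {y, b} v true (G.pi (G.al u)) s3 :=
        (k1.mono (subset_insert _ _)).step k3 hcA
      cases s3
      · have l1 := p1.lit hA pv k5
        have l2 := p1.lit hcA l1 k4
        rw [lit_false] at l1
        rw [lit_true] at l2
        linarith
      · obtain ⟨d, d1, d2, d3, d4⟩ := k3
        rcases d4 with ⟨_, d5⟩ | ⟨d5, _, d6⟩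
        · cases d5
        · subst d5
          have hsub : ({y, G.pi (G.al u)} : Finset V) ⊆ insert (G.pi (G.al u)) {y, b} := by
            intro x hx
            rw [mem_insert, mem_singleton] at hx
            rw [mem_insert, mem_insert]
            tauto
          have k6 := k1.mono hsub
          rcases r2.sp.at_b (G.al_mem d d1) d3 with e | e | e
          · have e5 : d = u := by rw [← G.al_al d d1, e, G.al_al u r.sp.u1]
            have := k1.notMem (by
              rw [mem_insert, not_or]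
              exact ⟨hA2'.2, hA⟩)
            rw [← d2, e5, r.sp.pu] at this
            exact this (mem_insert_of_mem (mem_insert_self _ _))
          · have e5 : G.pi (G.al f1) = w := by rw [← e, G.al_al d d1, d2]
            have := lit_false.1 (g1.lit hA2 gv k6)
            rw [← e5] at this
            linarith
          · have e5 : G.pi (G.al f2) = w := by rw [← e, G.al_al d d1, d2]
            have := lit_false.1 (g1'.lit hA2 gv' k6)
            rw [← e5] at this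
            linarith

/-- **a token different from `y` forces nothing at `y` and `b`** -/
theorem sep (h : Lol G t fr F jm) (r : RStp G t fr y b a0 u e1 e2) (hv : v ∈ G.vs)
    (ht : t v ≠ 0) (hy : v ≠ y) (hl : Lt G F ∅ v true w s) : Lt G F {y, b} v true w s := by
  induction hl with
  | refl => exact Lt.refl
  | @step v1 w1 s1 s2 h1 h2 h3 ih =>
    refine ih.step h2 fun k => ?_
    have h4 := ih.notMem (h.tok_ne r ht hy)
    obtain ⟨d, d1, d2, d3, d4⟩ := h2
    rw [mem_insert, mem_singleton] at k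
    rcases k with k | k
    · rw [k] at d3
      rcases r.sp.at_y (G.al_mem d d1) d3 with e | e
      · have e5 : d = G.al a0 := by rw [← G.al_al d d1, e]
        rw [← d2, e5, r.sp.pb] at h4
        exact h4 (mem_insert_of_mem (mem_singleton_self _))
      · have e5 : G.pi (G.al u) = v1 := by rw [← e, G.al_al d d1, d2]
        rw [← e5] at ih
        cases s1
        · exact h.sep3 r hv ht hy ih
        · exact h.sep4 r hv ht hy ih
    · rw [k] at d3
      rcases r.sp.at_b (G.al_mem d d1) d3 with e | e | e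
      · have e5 : d = a0 := by rw [← G.al_al d d1, e, G.al_al a0 r.sp.a1]
        rw [← d2, e5, r.sp.pa] at h4
        exact h4 (mem_insert_self _ _)
      · have e5 : G.pi (G.al e1) = v1 := by rw [← e, G.al_al d d1, d2]
        rw [← e5] at ih
        exact h.sep1 r hv ht hy ih
      · have e5 : G.pi (G.al e2) = v1 := by rw [← e, G.al_al d d1, d2]
        rw [← e5] at ih
        exact h.sep2 r hv ht hy ih

/-- **a token different from `y` is in no conflict** -/
theorem no_conf (h : Lol G t fr F jm) (r : RStp G t fr y b a0 u e1 e2) (hv : v ∈ G.vs)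
    (ht : t v ≠ 0) (hy : v ≠ y) (hw : w ∈ G.vs) (hw0 : t w ≠ 0) :
    ¬ Lt G F ∅ v true w false := by
  intro hl
  have h1 := h.sep r hv ht hy hl
  have h2 := h1.notMem (h.tok_ne r ht hy)
  obtain ⟨p, p1, p2, p3, p4⟩ := h.chc.pa h.ek r
  have hA := h.tok_ne r ht hy
  have hA' := hA
  rw [mem_insert, mem_singleton, not_or] at hA' h2
  have := lit_false.1 (p1.lit hA (lit_true.2 (p2 v hv hA'.1 hA'.2 ht).ge) h1)
  rw [p2 w hw h2.1 h2.2 hw0] at this
  linarith

/-- there is a conflict between two tokens -/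
theorem conf (h : Lol G t fr F jm) : ∃ v ∈ G.vs, ∃ w ∈ G.vs, t v ≠ 0 ∧ t w ≠ 0 ∧
    Lt G F ∅ v true w false := by
  by_contra hno
  obtain ⟨p, p1, p2, -⟩ := exists_pa (G := G) (K := F) (A := ∅) h.ek.fresh.Fal
    (Src := fun a s => s = true ∧ a ∈ G.vs ∧ t a ≠ 0) (fun _ _ _ => notMem_empty _)
    (by
      rintro a s b s' ⟨rfl, k1, k2⟩ ⟨rfl, k3, k4⟩ hl
      exact hno ⟨a, k1, b, k3, k2, k4, hl⟩)
  refine h.nc ⟨p, fun v hv h0 => p2 v ⟨rfl, hv, h0⟩, ?_, ?_, ?_, h.ek.fresh.Fsub, empty_subset _⟩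
  · intro d hd _ hdF _
    exact p1.jq d hd (notMem_empty _) (notMem_empty _) hdF
  · intro d hdF
    exact p1.kk d (h.ek.fresh.Fsub hdF) (notMem_empty _) (notMem_empty _)
  · intro d hd
    exact absurd hd (notMem_empty d)

/-- **a token with a real step is in conflict with itself** -/
theorem self (h : Lol G t fr F jm) (r : RStp G t fr y b a0 u e1 e2) :
    Lt G F ∅ y true y false := by
  obtain ⟨v, hv, w, hw, hv0, hw0, hl⟩ := h.conf
  by_cases k1 : v = y
  · by_cases k2 : w = y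
    · rwa [k1, k2] at hl
    · have := hl.skew h.ek.fresh.Fal (notMem_empty _)
      exact absurd this (h.no_conf r hw hw0 k2 hv hv0)
  · exact absurd hl (h.no_conf r hv hv0 k1 hw hw0)

/-- **only one token has real steps** -/
theorem uniq (h : Lol G t fr F jm) (r : RStp G t fr y b a0 u e1 e2) {y' b' : V}
    {a' u' f1 f2 : D} (r' : RStp G t fr y' b' a' u' f1 f2) : y' = y := by
  by_contra hne
  have ty' : t y' ≠ 0 := by rw [r'.ty1 h.ek]; norm_num
  exact h.no_conf r r'.my ty' hne r'.my ty' (h.self r')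

/-- a real token with a neighbour outside the circuits has a real step -/
theorem step_of (h : Lol G t fr F jm) (hv0 : t v ≠ 0) (hvf : v ∉ fr) {d : D} (hd : d ∈ G.ds)
    (hdv : G.pi d = v) (hdf : G.pi (G.al d) ∉ fr) :
    ∃ b u e1 e2, RStp G t fr v b d u e1 e2 := by
  have hv : v ∈ G.vs := hdv ▸ G.pi_mem d hd
  obtain ⟨n, h1, h2⟩ := h.ek.tnat hv
  have h3 : d ∈ G.st v := mem_st.2 ⟨hd, hdv⟩
  have h4 : 0 < (G.st v).card := card_pos.2 ⟨d, h3⟩
  have h5 : n ≠ 0 := fun e => hv0 (by rw [h1, e]; norm_num)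
  have h6 : n ≠ 2 := fun e => hdf (h.noBQ d hd (by rw [hdv, h1, e]; norm_num))
  have h7 : n = 1 := by omega
  have h8 : ((G.st v).erase d).card = 1 := by
    rw [card_erase_of_mem h3]
    omega
  obtain ⟨u, hu⟩ := card_eq_one.1 h8
  have h9 : u ∈ (G.st v).erase d := by rw [hu]; exact mem_singleton_self u
  obtain ⟨k1, k2⟩ := mem_erase.1 h9
  obtain ⟨k3, k4⟩ := mem_st.1 k2
  have hdF : d ∉ F := fun k => hvf (hdv ▸ h.ek.fresh.Ffr d k)
  obtain ⟨e1, e2, r⟩ := h.ek.mk_step hd k3 (fun e => k1 e.symm) (by rw [k4, hdv])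
    (by rw [hdv]; exact hvf) hdf (by rw [hdv, h1, h7]; norm_num)
    (h.noAdj d hd hdF (by rw [hdv]; exact hv0))
  rw [hdv] at r
  exact ⟨_, u, e1, e2, r⟩

/-- **all neighbours of the other tokens are fresh** -/
theorem others (h : Lol G t fr F jm) (r : RStp G t fr y b a0 u e1 e2) (hv0 : t v ≠ 0)
    (hvf : v ∉ fr) (hy : v ≠ y) {d : D} (hd : d ∈ G.ds) (hdv : G.pi d = v) :
    G.pi (G.al d) ∈ fr := by
  by_contra hdf
  obtain ⟨b', u', f1, f2, r'⟩ := h.step_of hv0 hvf hd hdv hdf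
  exact hy (h.uniq r r')

/-- a real token without neighbour outside the circuits forces only its neighbours -/
theorem iso (h : Lol G t fr F jm) (hvf : v ∉ fr)
    (hN : ∀ d ∈ G.ds, G.pi d = v → G.pi (G.al d) ∈ fr) (hl : Lt G F ∅ v true w s) :
    (s = true → w = v) ∧ (s = false → w ∈ fr ∧ ∃ d ∈ G.ds, d ∉ F ∧ G.pi d = w ∧
      G.pi (G.al d) = v) := by
  have hF := h.ek.fresh
  induction hl with
  | refl => exact ⟨fun _ => rfl, fun e => absurd e (by decide)⟩
  | @step v1 w1 s1 s2 h1 h2 _ ih =>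
    obtain ⟨d, d1, d2, d3, d4⟩ := h2
    rcases d4 with ⟨rfl, rfl⟩ | ⟨rfl, rfl, d5⟩
    · refine ⟨fun e => absurd e (by decide), fun _ => ?_⟩
      have k1 := ih.1 rfl
      rw [k1] at d2
      have k2 := hN d d1 d2
      rw [d3] at k2
      refine ⟨k2, G.al d, G.al_mem d d1, fun k => hvf ?_, d3, by rw [G.al_al d d1, d2]⟩
      have k3 := hF.Fal _ k
      rw [G.al_al d d1] at k3
      exact d2 ▸ hF.Ffr d k3
    · refine ⟨fun _ => ?_, fun e => absurd e (by decide)⟩
      obtain ⟨k1, j, j1, j2, j3, j4⟩ := ih.2 rfl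
      have hj : v1 ∉ jm := fun hj => j2 (hF.j0 _ hj _ (mem_st.2 ⟨j1, j3⟩))
      obtain ⟨i, i1, i2, i3, i4⟩ := hF.exists_jd k1 hj
      rw [← d3, i4 d d1 d2 d5, ← i4 j j1 j3 j2, j4]

/-- **without star there is a real step** -/
theorem exists_step (h : Lol G t fr F ∅) : ∃ y b a0 u e1 e2, RStp G t fr y b a0 u e1 e2 := by
  obtain ⟨v, hv, w, hw, hv0, hw0, hl⟩ := h.conf
  have hfr : ∀ x, t x ≠ 0 → x ∉ fr := by
    intro x hx hxf
    have := h.ek.tok_fr hxf
    rw [if_neg (notMem_empty x)] at this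
    exact hx this
  by_cases hN : ∀ d ∈ G.ds, G.pi d = v → G.pi (G.al d) ∈ fr
  · exact absurd ((h.iso (hfr v hv0) hN hl).2 rfl).1 (hfr w hw0)
  · push Not at hN
    obtain ⟨d, hd, hdv, hdf⟩ := hN
    obtain ⟨b, u, e1, e2, r⟩ := h.step_of hv0 (hfr v hv0) hd hdv hdf
    exact ⟨v, b, d, u, e1, e2, r⟩

/-- **the conflict without `y` and `b`**: `b'` and `b''`, or with the other neighbour of `y` -/
theorem shape (h : Lol G t fr F jm) (r : RStp G t fr y b a0 u e1 e2) :
    Lt G F {y, b} (G.pi (G.al e1)) true (G.pi (G.al e2)) false ∨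
    (G.pi (G.al u) ∉ fr ∧ (Lt G F {y, b} (G.pi (G.al e1)) true (G.pi (G.al u)) true ∨
      Lt G F {y, b} (G.pi (G.al e2)) true (G.pi (G.al u)) true ∨
      Lt G F {y, b} (G.pi (G.al u)) false (G.pi (G.al u)) true)) := by
  by_contra hno
  rw [not_or, not_and_or] at hno
  obtain ⟨hno1, hno2⟩ := hno
  have hA : ∀ v, v ∉ ({y, b} : Finset V) ↔ v ≠ y ∧ v ≠ b := by
    intro v
    rw [mem_insert, mem_singleton, not_or]
  have A1 := (hA _).2 ⟨r.sp.paf, r.sp.paf'⟩
  have A2 := (hA _).2 ⟨r.sp.pag, r.sp.pag'⟩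
  have A3 := (hA _).2 ⟨r.sp.pau, r.sp.ub⟩
  have hFal := h.ek.fresh.Fal
  obtain ⟨p, p1, p2, p3, p4⟩ := h.chc.pa h.ek r
  obtain ⟨q, q1, q2, q3, q4⟩ := h.chc.pa h.ek (r.sw h.ek)
  -- the other neighbour of `y` is in no conflict
  have hu : ∀ v s, ((v = G.pi (G.al e1) ∧ s = true) ∨ (v = G.pi (G.al e2) ∧ s = true) ∨
      (v = G.pi (G.al u) ∧ s = false)) → ¬ Lt G F {y, b} v s (G.pi (G.al u)) true := by
    intro v s hvs hl
    rcases hno2 with k | k
    · rw [not_not] at k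
      have hv : v ∉ ({y, b} : Finset V) := by
        rcases hvs with ⟨rfl, _⟩ | ⟨rfl, _⟩ | ⟨rfl, _⟩ <;> assumption
      refine h.fresh_u r k hv ?_ hl
      rcases hvs with ⟨rfl, _⟩ | ⟨rfl, _⟩ | ⟨_, k2⟩
      · exact Or.inl fun e => (r.sw h.ek).sp.ue e.symm
      · exact Or.inl fun e => r.sp.ue e.symm
      · exact Or.inr k2
    · rw [not_or, not_or] at k
      rcases hvs with ⟨rfl, rfl⟩ | ⟨rfl, rfl⟩ | ⟨rfl, rfl⟩
      · exact k.1 hl
      · exact k.2.1 hl
      · exact k.2.2 hl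
  obtain ⟨g, g1, g2, g3⟩ := exists_pa (G := G) (K := F) (A := {y, b}) hFal
    (Src := fun a s => (s = true ∧ a ∈ G.vs ∧ t a ≠ 0 ∧ a ≠ y) ∨
      ((a = G.pi (G.al e1) ∧ s = true) ∨ (a = G.pi (G.al e2) ∧ s = true) ∨
      (a = G.pi (G.al u) ∧ s = false)))
    (by
      rintro a s (⟨_, _, k1, k2⟩ | ⟨rfl, _⟩ | ⟨rfl, _⟩ | ⟨rfl, _⟩)
      · exact h.tok_ne r k1 k2
      · exact A1
      · exact A2
      · exact A3)
    (by
      have key : ∀ a s c s', (s = true ∧ a ∈ G.vs ∧ t a ≠ 0 ∧ a ≠ y) →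
          ((s' = true ∧ c ∈ G.vs ∧ t c ≠ 0 ∧ c ≠ y) ∨
          ((c = G.pi (G.al e1) ∧ s' = true) ∨ (c = G.pi (G.al e2) ∧ s' = true) ∨
          (c = G.pi (G.al u) ∧ s' = false))) → ¬ Lt G F {y, b} a s c (!s') := by
        rintro a s c s' ⟨rfl, k1, k2, k3⟩ hc hl
        rcases hc with ⟨rfl, k4, k5, k6⟩ | ⟨rfl, rfl⟩ | ⟨rfl, rfl⟩ | ⟨rfl, rfl⟩
        · exact h.no_conf r k1 k2 k3 k4 k5 (hl.mono (empty_subset _))
        · exact h.sep1 r k1 k2 k3 hl
        · exact h.sep2 r k1 k2 k3 hl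
        · exact h.sep4 r k1 k2 k3 hl
      intro a s c s' ha hc hl
      rcases ha with ha | ha
      · exact key a s c s' ha hc hl
      · rcases hc with hc | hc
        · have hcA := h.tok_ne r hc.2.2.1 hc.2.2.2
          have haA : a ∉ ({y, b} : Finset V) := by
            rcases ha with ⟨rfl, _⟩ | ⟨rfl, _⟩ | ⟨rfl, _⟩ <;> assumption
          have h1 := hl.skew hFal haA
          rw [Bool.not_not] at h1
          exact key c s' a s hc (Or.inr ha) h1
        · rcases hc with ⟨rfl, rfl⟩ | ⟨rfl, rfl⟩ | ⟨rfl, rfl⟩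
          · rcases ha with ⟨rfl, rfl⟩ | ⟨rfl, rfl⟩ | ⟨rfl, rfl⟩
            · have := lit_false.1 (p1.lit A1 (lit_true.2 p3.ge) hl)
              linarith
            · have h1 := hl.skew hFal A2
              exact hno1 h1
            · have h1 := hl.skew hFal A3
              exact hu _ _ (Or.inl ⟨rfl, rfl⟩) h1
          · rcases ha with ⟨rfl, rfl⟩ | ⟨rfl, rfl⟩ | ⟨rfl, rfl⟩
            · exact hno1 hl
            · have := lit_false.1 (q1.lit A2 (lit_true.2 q3.ge) hl)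
              linarith
            · have h1 := hl.skew hFal A3
              exact hu _ _ (Or.inr (Or.inl ⟨rfl, rfl⟩)) h1
          · exact hu _ _ ha hl)
  refine r.no_pa h.ek h.nc g1 (fun v k1 k2 k3 k4 => (g2 v (Or.inl ⟨rfl, k1, k4, k2⟩)).ge) ?_ ?_ ?_
  · exact (g2 _ (Or.inr (Or.inl ⟨rfl, rfl⟩))).ge
  · exact (g2 _ (Or.inr (Or.inr (Or.inl ⟨rfl, rfl⟩)))).ge
  · exact (g3 _ (Or.inr (Or.inr (Or.inr ⟨rfl, rfl⟩)))).le

end Lol

theorem PA.rnd (h : PA G K A p) : PA G K A (fun v => MG.rnd (p v)) where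
  jq := fun d h1 h2 h3 h4 => rnd_neg (h.jq d h1 h2 h3 h4)
  kk := fun d h1 h2 h3 => rnd_le (h.kk d h1 h2 h3)

theorem rnd_or (x : ℝ) : rnd x = 1 ∨ rnd x = 0 ∨ rnd x = -1 := by
  unfold rnd
  split_ifs
  · exact Or.inl rfl
  · exact Or.inr (Or.inr rfl)
  · exact Or.inr (Or.inl rfl)

namespace Lol

/-- **TYPE A** (the other neighbour of `y` is fresh): the certificate `p1` of helper79 and lead:
values 1, -1, 1 at `b'`, `b''`, `u'` (`p2`: the same with `r.sw`) -/
theorem typeA (h : Lol G t fr F jm) (r : RStp G t fr y b a0 u e1 e2)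
    (hu : G.pi (G.al u) ∈ fr) : ∃ p : V → ℝ, PA G F {y, b} p ∧
      (∀ v, p v = 1 ∨ p v = 0 ∨ p v = -1) ∧
      (∀ v ∈ G.vs, v ≠ y → v ≠ b → t v ≠ 0 → p v = 1) ∧ p (G.pi (G.al e1)) = 1 ∧
      p (G.pi (G.al e2)) = -1 ∧ p (G.pi (G.al u)) = 1 := by
  obtain ⟨p, p1, p2, p3, p4⟩ := h.chc.pa h.ek r
  have A1 : G.pi (G.al e1) ∉ ({y, b} : Finset V) := by
    rw [mem_insert, mem_singleton, not_or]
    exact ⟨r.sp.paf, r.sp.paf'⟩
  have h1 : Lt G F {y, b} (G.pi (G.al e1)) true (G.pi (G.al e2)) false := by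
    rcases h.shape r with k | k
    · exact k
    · exact absurd hu k.1
  have h2 := lit_false.1 (p1.lit A1 (lit_true.2 p3.ge) h1)
  exact ⟨fun v => MG.rnd (p v), p1.rnd, fun v => rnd_or _,
    fun v k1 k2 k3 k4 => rnd_one (p2 v k1 k2 k3 k4).ge, rnd_one p3.ge, rnd_neg_one h2,
    rnd_one (by linarith)⟩

end Lol

end MG

end RH
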