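import Pool.Agent.Lib.RH.CE6W
import Pool.Agent.Lib.RH.CE6Step

/-! STAR STATES OF A SMALLEST CE6 COUNTEREXAMPLE, row (M0) (helper60). `Jo`: a perfect matching `M`
all whose odd closed unions contain the star, and a closed union `X` which contains the star (no
good matching, but it exists: forget the star circuits). `X6.exists_jo`: it exists. `Jo.no_hpot`:
then there is no half certificate on any side which contains `X`; `Jo.no_pot_step`: no child of a
real step has a certificate. `X6.star_step`: every real step of a smallest counterexample with star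
is blocked (a set of value 5 or 4, or an EV6-blocker). -/

set_option autoImplicit false

namespace RH

open Finset Classical

namespace MG

variable {V D : Type*} {G : MG V D} {t : V → ℝ} {fr fr1 : Finset V}
variable {F F1 M : Finset D} {jm W X : Finset V} {k : ℝ} {p f : V → ℝ}
variable {y b : V} {a0 u e1 e2 : D}

/-- a certificate for fewer fresh darts is a certificate -/
theorem Pot.more (h : G.Pot one1 t F1 ∅ p) (hF : F ⊆ G.ds) (h1 : F1 ⊆ F) :
    G.Pot one1 t F ∅ p where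
  tok := h.tok
  jq := fun d hd hz hK hE => h.jq d hd hz (fun hh => hK (h1 hh)) hE
  kk := fun d hd => by
    by_cases hd1 : d ∈ F1
    · exact h.kk d hd1
    · exact (h.jq d (hF hd) zero_lt_one hd1 (notMem_empty d)).le
  ee := h.ee
  Ksub := hF
  Esub := h.Esub

/-- **fewer fresh vertices**: the classes of `fr \ fr1` are forgotten -/
theorem EK.absorb (h : EK G k t fr F jm) (hs : fr1 ⊆ fr)
    (hcl : ∀ d ∈ F, G.pi d ∈ fr1 → G.pi (G.al d) ∈ fr1) (hj : jm ⊆ fr1 ∨ Disjoint jm fr1) :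
    EK G k t fr1 (F.filter fun d => G.pi d ∈ fr1) (jm ∩ fr1) := by
  have hF := h.fresh
  refine ⟨h.even, ?_, ?_, h.deg, h.t0, h.tau, h.odd, h.evn, ?_⟩
  · refine ⟨hs.trans hF.fsub, fun d hd' => hF.Fsub (mem_filter.1 hd').1, fun d hd' => ?_,
      fun d hd' => (mem_filter.1 hd').2, fun v hv => ?_, inter_subset_right, fun v hv hvj => ?_,
      fun v hv d hd' => ?_, fun _ _ _ => rfl⟩
    · obtain ⟨k1, k2⟩ := mem_filter.1 hd'
      exact mem_filter.2 ⟨hF.Fal d k1, hcl d k1 k2⟩
    · rw [← hF.two v (hs hv)]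
      congr 1
      ext d
      rw [mem_filter, mem_filter, mem_filter]
      constructor
      · rintro ⟨⟨k1, -⟩, k2⟩
        exact ⟨k1, k2⟩
      · rintro ⟨k1, k2⟩
        exact ⟨⟨k1, by rw [show G.pi d = v from k2]; exact hv⟩, k2⟩
    · rw [← hF.jd v (hs hv) (fun k1 => hvj (mem_inter.2 ⟨k1, hv⟩))]
      congr 1
      ext d
      rw [mem_filter, mem_filter, mem_filter]
      constructor
      · rintro ⟨k1, k2⟩
        exact ⟨k1, fun k3 => k2 ⟨k3, by rw [(mem_st.1 k1).2]; exact hv⟩⟩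
      · rintro ⟨k1, k2⟩
        exact ⟨k1, fun k3 => k2 k3.1⟩
    · obtain ⟨k1, k2⟩ := mem_inter.1 hv
      exact mem_filter.2 ⟨hF.j0 v k1 d hd', by rw [(mem_st.1 hd').2]; exact k2⟩
  · rcases hj with hj | hj
    · rw [inter_eq_left.2 hj]
      exact h.jm2
    · left
      exact disjoint_iff_inter_eq_empty.1 hj
  · intro X hX he hn
    have hX' : G.Adm fr F X := ⟨hX.sub.trans hs, fun d hd' hp =>
      hX.clo d (mem_filter.2 ⟨hd', hX.sub hp⟩) hp⟩
    have hj' : X ∩ (jm ∩ fr1) = X ∩ jm := by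
      ext v
      rw [mem_inter, mem_inter, mem_inter]
      exact ⟨fun k1 => ⟨k1.1, k1.2.1⟩, fun k1 => ⟨k1.1, k1.2, hX.sub k1.1⟩⟩
    rw [hj']
    exact h.c6 X hX' he hn

/-- a perfect matching with a closed union `X` which contains the star; every odd closed union
contains the star -/
structure Jo (G : MG V D) (fr : Finset V) (F : Finset D) (jm : Finset V) (M : Finset D)
    (X : Finset V) : Prop where
  ne : jm.Nonempty
  pm : G.IsPM M
  adm : G.Adm fr F X
  jX : jm ⊆ X
  cl : ∀ d ∈ G.bd X, d ∈ M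
  odd : ∀ Y, G.Adm fr F Y → Odd Y.card → (∀ d ∈ G.bd Y, d ∈ M) → jm ⊆ Y

namespace X6

/-- **(M0)**: a smallest state with star without good matching and certificate has a matching whose
closed unions contain the star -/
theorem exists_jo (h : X6 G t fr F jm) (hj : jm.Nonempty) : ∃ M X, Jo G fr F jm M X := by
  have hF := h.fresh
  have hc2 : jm.card = 2 := by
    rcases h.jm2 with h1 | h1
    · exact absurd h1 hj.ne_empty
    · exact h1
  obtain ⟨fr1, hs, hcl, hd, -, hl, -⟩ := exists_link G fr F jm jm h.jm2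
  have hEK := h.toEK.absorb hs hcl (Or.inr hd.symm)
  have hlt : fr1.card < fr.card := by
    refine card_lt_card ⟨hs, fun hh => ?_⟩
    obtain ⟨v, hv⟩ := hj
    exact disjoint_left.1 hd (hh (hF.jms hv)) hv
  -- a closed union which is not in `fr1` contains the star
  have key : ∀ M, G.IsPM M → ∀ X, G.Adm fr F X → (∀ d ∈ G.bd X, d ∈ M) → ¬ X ⊆ fr1 → jm ⊆ X := by
    intro M hM X hX hcX hn
    have hev := hF.closed_jm hM hX hcX
    have h1 := hl X hX hev hn
    have h2 := card_pos.2 h1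
    have h3 : (X ∩ jm).card ≤ jm.card := card_le_card inter_subset_right
    rw [Nat.even_iff] at hev
    have h4 : X ∩ jm = jm := eq_of_subset_of_card_le inter_subset_right (by omega)
    rw [← h4]
    exact inter_subset_left
  rcases h.solve (Or.inl hlt) hEK with ⟨M, hM⟩ | ⟨p, hp⟩
  · -- odd closed unions
    have hodd : ∀ Y, G.Adm fr F Y → Odd Y.card → (∀ d ∈ G.bd Y, d ∈ M) → jm ⊆ Y := by
      intro Y hY ho hcY
      by_contra hn
      by_cases hYf : Y ⊆ fr1
      · obtain ⟨d, hd1, hd2⟩ := hM.hit Y ⟨hYf, fun d hd' hp =>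
          hY.clo d (mem_filter.1 hd').1 hp⟩ (Or.inl ho)
        exact hd2 (hcY d hd1)
      · exact hn (key M hM.pm Y hY hcY hYf)
    by_contra hcon
    push Not at hcon
    refine h.bad ⟨M, hM.pm, fun _ _ => zero_lt_one, fun X hX ho => ?_⟩
    by_contra hc
    push Not at hc
    have hjX : jm ⊆ X := by
      rcases ho with ho | ⟨-, ho⟩
      · exact hodd X hX ho hc
      · exact ho
    exact hcon M X ⟨hj, hM.pm, hX, hjX, hc, hodd⟩
  · exact absurd ⟨p, hp.more hF.Fsub (filter_subset _ _)⟩ h.nc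

end X6

namespace Jo

/-- **no half certificate** on a side which contains the closed union -/
theorem no_hpot (o : Jo G fr F jm M X) (h : EK G k t fr F jm) (hW : W ⊆ G.vs) (hXW : X ⊆ W)
    (hf : G.HPot one1 t F W f) : False := by
  have h1 := h.link hf (o.pm.toHM hW) hXW o.adm fun d hd hn => absurd
    (mem_resM.2 ⟨o.cl d hd, (mem_bd.1 hd).1, hXW (mem_bd.1 hd).2.1⟩) hn
  obtain ⟨v, hv⟩ := o.ne
  have h2 : v ∈ X ∩ jm := mem_inter.2 ⟨o.jX hv, hv⟩
  rw [h1.2] at h2
  exact absurd h2 (notMem_empty v)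

/-- the child of a real step has no certificate, whatever its fresh darts are -/
theorem no_pot_step (o : Jo G fr F jm M X) (h : EK G k t fr F jm) (s : Sp G y b a0 u e1 e2)
    (hy : y ∉ fr) (hb : b ∉ fr) (hF1 : F1 ⊆ F) (hp : s.gr.Pot one1 (s.tk t) F1 ∅ p) : False := by
  have hF := h.fresh
  refine o.no_hpot h (W := s.gr.vs) (fun v hv => (s.gr_vs.1 hv).1) (fun v hv => s.gr_vs.2
    ⟨hF.fsub (o.adm.sub hv), fun e => hy (e ▸ o.adm.sub hv), fun e => hb (e ▸ o.adm.sub hv)⟩)
    (f := p) ⟨fun v hv ht => ?_, fun d hd h1 h2 _ hK => ?_, fun d hd h1 h2 => ?_⟩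
  · refine hp.tok v hv ?_
    unfold Sp.tk
    have h0 := h.t0 v (s.gr_vs.1 hv).1
    have h3 : 0 < t v := lt_of_le_of_ne h0 (Ne.symm ht)
    split_ifs
    · positivity
    · rw [add_zero]
      exact ht
  · have k1 : d ≠ G.al u := by
      rintro rfl
      rw [G.al_al u s.u1, s.pu] at h2
      exact (s.gr_vs.1 h2).2.1 rfl
    have k2 : d ≠ G.al e2 := by
      rintro rfl
      rw [G.al_al e2 s.g1, s.pg] at h2
      exact (s.gr_vs.1 h2).2.2 rfl
    have k3 : d ≠ G.al e1 := by
      rintro rfl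
      rw [G.al_al e1 s.f1, s.pf] at h2
      exact (s.gr_vs.1 h2).2.2 rfl
    have k4 : d ∈ s.gr.ds := s.gr_ds'.2 ⟨hd, (s.gr_vs.1 h1).2.1, (s.gr_vs.1 h1).2.2, k3⟩
    have k5 := hp.jq d k4 zero_lt_one (fun hh => hK (hF1 hh)) (notMem_empty d)
    rw [s.al_o k1 k2] at k5
    exact k5
  · have hd' := hF.Fsub hd
    have k1 : d ≠ G.al u := by
      rintro rfl
      rw [G.al_al u s.u1, s.pu] at h2
      exact (s.gr_vs.1 h2).2.1 rfl
    have k2 : d ≠ G.al e2 := by
      rintro rfl
      rw [G.al_al e2 s.g1, s.pg] at h2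
      exact (s.gr_vs.1 h2).2.2 rfl
    have k3 : d ≠ G.al e1 := by
      rintro rfl
      rw [G.al_al e1 s.f1, s.pf] at h2
      exact (s.gr_vs.1 h2).2.2 rfl
    have k4 : d ∈ s.gr.ds := s.gr_ds'.2 ⟨hd', (s.gr_vs.1 h1).2.1, (s.gr_vs.1 h1).2.2, k3⟩
    by_cases k6 : d ∈ F1
    · have k5 := hp.kk d k6
      rw [s.al_o k1 k2] at k5
      exact k5
    · have k5 := hp.jq d k4 zero_lt_one k6 (notMem_empty d)
      rw [s.al_o k1 k2] at k5
      exact k5.le

end Jo

/-- **STAR STATES**: every real step of a smallest counterexample with star is blocked -/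
theorem X6.star_step (h : X6 G t fr F jm) (hj : jm.Nonempty) (s : Sp G y b a0 u e1 e2)
    (hy : y ∉ fr) (hb : b ∉ fr) :
    (∃ W ⊆ G.vs, y ∈ W ∧ b ∈ W ∧ G.pi (G.al u) ∈ W ∧ G.pi (G.al e2) ∈ W ∧
      G.pi (G.al e1) ∉ W ∧ 4 ≤ W.card ∧ ((Odd W.card ∧ G.val one1 t W = 5) ∨
        (Even W.card ∧ G.val one1 t W = 4))) ∨
    ∃ X, G.Adm fr F X ∧ Even X.card ∧ G.pi (G.al u) ∈ X ∧ G.pi (G.al e2) ∈ X ∧
      G.pi (G.al e1) ∉ X ∧ (G.bd X).card + (X ∩ jm).card = 6 := by
  rcases h.toEK.step_or s hy hb with ⟨fr', h1, h2, h3, h4, h5, h6, h7⟩ | h8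
  · exfalso
    have hlt : s.gr.vs.card < G.vs.card := by
      have := s.gr_card
      omega
    rcases h.solve' (card_le_card h1) hlt h6 with ⟨M', hM'⟩ | ⟨p, hp⟩
    · exact h.bad ⟨_, h7 M' hM'⟩
    · obtain ⟨M, X, o⟩ := h.exists_jo hj
      exact o.no_pot_step h.toEK s hy hb (filter_subset _ _) hp
  · exact h8

end MG

end RH
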