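import Pool.Agent.Lib.RH.CE6M0
import Pool.Agent.Lib.RH.CE6Board

/-! The row (M0) of the board `CE6Board`. -/

set_option autoImplicit false

namespace RH

open Finset Classical

namespace MG

variable {V D : Type*} {G : MG V D} {t : V → ℝ} {fr : Finset V} {F : Finset D} {jm : Finset V}

/-- **row `m0`**: a star and a real step whose child has a certificate -/
theorem Bas.m0 (h : Bas G t fr F jm) (hj : jm.Nonempty) (hc : ChC G t fr F jm)
    (hs : ∃ y b a0 u e1 e2, RStp G t fr y b a0 u e1 e2) : False := by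
  obtain ⟨y, b, a0, u, e1, e2, r⟩ := hs
  obtain ⟨fr', -, -, -, -, -, p, hp⟩ := hc y b a0 u e1 e2 r
  obtain ⟨M, X, o⟩ := h.toX6.exists_jo hj
  exact o.no_pot_step h.toEK r.sp r.hy r.hb (filter_subset _ _) hp

end MG

end RH
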