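import Pool.Agent.Lib.RH.CE6Of
import Pool.Agent.Lib.RH.CE6D1
import Pool.Agent.Lib.RH.CE6E1

/-! # NO BLOCKERS, FROM THE ROWS

`Rows.noBlk`: no real step of a smallest bad state has a blocker. `final_of_rows`. -/

set_option autoImplicit false

namespace RH

open Finset Classical

namespace MG

section

variable {V D : Type*} [Infinite V] [Infinite D] {G : MG V D} {t : V → ℝ} {fr : Finset V}
variable {F : Finset D} {jm W : Finset V} {y b : V} {a0 u e1 e2 : D}

omit [Infinite V] [Infinite D] in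
/-- a natural number of tokens in a set -/
theorem EK.tsum (h : EK G 6 t fr F jm) {W : Finset V} (hW : W ⊆ G.vs) :
    ∃ n : ℕ, ∑ v ∈ W, t v = n := by
  have h1 : ∀ v ∈ W, ∃ n : ℕ, t v = n := fun v hv => by
    obtain ⟨n, h1, -⟩ := h.tnat (hW hv)
    exact ⟨n, h1⟩
  choose! f hf using h1
  refine ⟨∑ v ∈ W, f v, ?_⟩
  rw [sum_congr rfl hf]
  push_cast
  rfl

omit [Infinite V] [Infinite D] in
/-- a blocker lies in a maximal one -/
theorem Blk5.exists_max (h : Blk5 G t y b u e1 e2 W) :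
    ∃ W', W ⊆ W' ∧ MBlk G t y b u e1 e2 W' := by
  obtain ⟨Z, hZ, hZm⟩ := Finset.exists_maximal (s := G.vs.powerset.filter fun W' =>
    W ⊆ W' ∧ Blk5 G t y b u e1 e2 W')
    ⟨W, mem_filter.2 ⟨mem_powerset.2 h.sub, Subset.rfl, h⟩⟩
  obtain ⟨-, z1, z2⟩ := mem_filter.1 hZ
  refine ⟨Z, z1, z2, fun W' k1 k2 => ?_⟩
  exact subset_antisymm (hZm (mem_filter.2 ⟨mem_powerset.2 k1.sub, z1.trans k2, k1⟩) k2) k2

/-- **maximal blockers which are not crossed by F-darts**, except the pure ones with five vertices -/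
theorem Bas.no_max (h : Bas G t fr F jm) (r : RSo G t fr y b a0 u e1 e2)
    (m : MBlk G t y b u e1 e2 W) (hc : ¬ FCut G F W)
    (hf5 : ∑ v ∈ W, t v = 1 → ∀ {i j k : D}, G.bd (G.vs \ W) = {G.al e1, i, j, k} →
      [G.al e1, i, j, k].Nodup → ∀ Z ⊆ W, Even Z.card → 4 ≤ Z.card → G.val one1 t Z = 4 →
      G.pi (G.al i) ∈ Z → G.pi (G.al j) ∈ Z →
      (∀ Z' ⊆ W, Z ⊆ Z' → Even Z'.card → G.val one1 t Z' = 4 → Z' = Z) →
      G.TIn fr F jm (G.vs \ W) i ∨ G.TIn fr F jm (G.vs \ W) j ∨ G.SIn fr F jm (G.vs \ W) (G.al e1))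
    (hc5 : W.card = 5 → Disjoint fr W → False) : False := by
  have hEK := h.toEK
  have r0 := r.toRStp
  have b0 := Bas.bw h r0 m hc
  have s0 := Bas.std h r0 m
  have hWW : G.vs \ (G.vs \ W) = W := Finset.sdiff_sdiff_eq_self m.sub
  have hbig : 5 ≤ (G.vs \ (G.vs \ W)).card := by
    rw [hWW]
    exact m.big
  obtain ⟨n, hn⟩ := hEK.tsum m.sub
  have hn1 : 1 ≤ n := by
    have h1 := single_le_sum (f := t) (fun v hv => h.t0 v (m.sub hv)) m.my
    have h2 := r0.ty hEK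
    have h3 : (1 : ℝ) ≤ n := by linarith
    exact_mod_cast h3
  by_cases h1 : n = 1
  · have hT : ∑ v ∈ W, t v = 1 := by rw [hn, h1]; norm_num
    have h5 := Bas.five h r0 m r.ok hT
    have hT' : ∑ v ∈ G.vs \ (G.vs \ W), t v = 1 := by rw [hWW]; exact hT
    have hy1 : ∀ v ∈ W, v ≠ y → t v = 0 := by
      intro v hv hvy
      have k1 : t y + t v ≤ ∑ v ∈ W, t v := by
        rw [← sum_pair hvy.symm]
        refine sum_le_sum_of_subset_of_nonneg ?_ fun x hx _ => h.t0 x (m.sub hx)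
        intro x hx
        rw [mem_insert, mem_singleton] at hx
        rcases hx with rfl | rfl
        · exact m.my
        · exact hv
      rw [hT, r0.ty hEK] at k1
      exact le_antisymm (by linarith) (h.t0 v (m.sub hv))
    have h0 : ∀ d ∈ G.bd (G.vs \ W), t (G.pi (G.al d)) = 0 := by
      intro d hd
      obtain ⟨k1, k2, k3⟩ := mem_bd.1 (bd_al sdiff_subset hd)
      rw [hWW] at k2
      refine hy1 _ k2 fun k4 => ?_
      have k5 := (mem_bd.1 hd).2.1
      rcases r.sp.at_y k1 k4 with k6 | k6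
      · have k7 : d = G.al a0 := by rw [← k6, G.al_al d (mem_bd.1 hd).1]
        rw [k7, r.sp.pb] at k5
        exact (mem_sdiff.1 k5).2 m.mb
      · have k7 : d = G.al u := by rw [← k6, G.al_al d (mem_bd.1 hd).1]
        rw [k7] at k5
        exact (mem_sdiff.1 k5).2 m.my2
    by_cases hsm : (fr ∩ (G.vs \ W)).card < fr.card ∨ 5 < W.card
    · refine h.toX6.dead1 b0 s0 h.noE hT' h0 h5 hbig (by rw [hWW]; exact hsm) ?_
      rw [hWW]
      exact hf5 hT
    · rw [not_or, not_lt, not_lt] at hsm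
      refine hc5 (le_antisymm hsm.2 m.big) ?_
      have k1 : fr ∩ (G.vs \ W) = fr := eq_of_subset_of_card_le inter_subset_left hsm.1
      rw [disjoint_left]
      intro v hv1 hv2
      rw [← k1] at hv1
      exact (mem_sdiff.1 (mem_inter.1 hv1).2).2 hv2
  · have h2 : 2 ≤ n := by omega
    have h3 := b0.bd_tok
    rw [hWW, hn] at h3
    have h4 : (2 : ℝ) ≤ n := by exact_mod_cast h2
    have h5 : ((G.bd (G.vs \ W)).card : ℝ) ≤ ((3 : ℕ) : ℝ) := by
      push_cast
      linarith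
    exact h.toX6.dead2 b0 s0 hbig (by exact_mod_cast h5)

end

variable {V D : Type} [Infinite V] [Infinite D] {G : MG V D} {t : V → ℝ} {fr : Finset V}
variable {F : Finset D} {jm : Finset V}

/-- **no blockers** -/
theorem Rows.noBlk (R : Rows V D) (h : Bas G t fr F jm) : NoBlk G t fr := by
  intro y b a0 u e1 e2 r W w1 w2 w3 w4 w5 w6 w7 w8
  rcases w8 with ⟨w8, w9⟩ | ⟨w8, w9⟩
  · have hB : Blk5 G t y b u e1 e2 W := ⟨w1, w2, w3, w4, w5, w6, w8, by
      have := Nat.odd_iff.1 w8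
      omega, w9⟩
    obtain ⟨W', -, m⟩ := hB.exists_max
    by_cases hc : FCut G F W'
    · obtain ⟨n, hn⟩ := h.toEK.tsum m.sub
      have hn1 : 1 ≤ n := by
        have h1 := single_le_sum (f := t) (fun v hv => h.t0 v (m.sub hv)) m.my
        have h2 := r.toRStp.ty h.toEK
        have h3 : (1 : ℝ) ≤ n := by linarith
        exact_mod_cast h3
      by_cases h1 : n = 1
      · have hT : ∑ v ∈ W', t v = 1 := by rw [hn, h1]; norm_num
        by_cases h4 : ∃ d ∈ G.bd W', d ∉ F ∧ G.pi d ∈ fr ∧ G.pi (G.al d) ∈ fr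
        · exact R.f4 h r m hT hc h4
        · have h4' : ∀ d ∈ G.bd W', d ∉ F → ¬ (G.pi d ∈ fr ∧ G.pi (G.al d) ∈ fr) :=
            fun d d1 d2 d3 => h4 ⟨d, d1, d2, d3⟩
          obtain ⟨d, d1, d2, d3⟩ := hc
          obtain ⟨C, c1, c2⟩ := h.fresh.exists_circ (h.fresh.Ffr d d1)
          have c3 : G.pi (G.al d) ∈ C := c2.adm.clo d d1 c1
          rcases Nat.even_or_odd (C \ W').card with c4 | c4
          · exact R.f1 h r m hT h4' C c2 ⟨_, mem_inter.2 ⟨c1, d2⟩⟩ ⟨_, mem_sdiff.2 ⟨c3, d3⟩⟩ c4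
          · exact R.f2 h r m hT h4' C c2 ⟨_, mem_inter.2 ⟨c1, d2⟩⟩ ⟨_, mem_sdiff.2 ⟨c3, d3⟩⟩ c4
      · refine R.f0 h r m hc ?_
        rw [hn]
        have : 2 ≤ n := by omega
        exact_mod_cast this
    · exact Bas.no_max h r m hc (fun hT {i j k} => R.f5 h r m hT hc) (R.c5 h r m)
  · exact Bas.noN h r.toRStp w1 w8 w7 w2 w3 w6 w9

/-- **no smallest bad state, from the rows** -/
theorem Rows.no_x6 (R : Rows V D) (h : X6 G t fr F jm) : False :=
  R.noX6 (fun h => R.noBlk h) h (R.bas' h)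

end MG

/-- **THE FROZEN STATEMENT S11409 FROM THE ROWS** -/
theorem final_of_rows
    (R : ∀ (V D : Type) [Infinite V] [Infinite D], MG.Rows V D) :
    ∀ (V : Type) [Fintype V] (G : SimpleGraph V),
      (∀ v : V, (G.neighborSet v).ncard = 3) →
      (∀ v w : V, G.Adj v w → (G.deleteEdges {s(v, w)}).Reachable v w) →
      ∃ F₁ F₂ C : SimpleGraph V,
        F₁ ≤ G ∧ F₂ ≤ G ∧ C ≤ G ∧
        (∀ v : V, (F₁.neighborSet v).ncard = 2) ∧
        (∀ v : V, (F₂.neighborSet v).ncard = 2) ∧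
        (∀ v : V, Even ((C.neighborSet v).ncard)) ∧
        F₁ ⊔ F₂ ⊔ C = G :=
  final_of_noX6 fun V D _ _ _ _ _ _ _ h => (R V D).no_x6 h

end RH
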