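import Pool.Agent.Lib.RH.CE6Board
import Pool.Agent.Lib.RH.CE6D2
import Pool.Agent.Lib.RH.CE6SetL

/-! # From a blocker of a real step to the data of a blocked step

`Bas.bw`, `Bas.std`, `Bas.five`: a maximal blocker which is not crossed by F-darts. `Bas.noN`: there
is no even blocker. -/

set_option autoImplicit false

namespace RH

open Finset Classical

namespace MG

variable {V D : Type*} {G : MG V D} {t : V → ℝ} {fr : Finset V} {F : Finset D}
variable {jm A W X N : Finset V} {y b : V} {a0 u e1 e2 : D}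

namespace RStp

variable (r : RStp G t fr y b a0 u e1 e2)
include r

theorem stb : G.st b = {G.al a0, e1, e2} := by
  ext d
  rw [r.sp.sb d]
  simp

theorem sty : G.st y = {a0, u} := by
  ext d
  rw [r.sp.sy d]
  simp

theorem myv : y ∈ G.vs := r.sp.pa ▸ G.pi_mem a0 r.sp.a1

theorem mbv : b ∈ G.vs := r.sp.pb ▸ G.pi_mem _ (G.al_mem a0 r.sp.a1)

theorem mkv : G.pi (G.al e1) ∈ G.vs := G.pi_mem _ (G.al_mem e1 r.sp.f1)

theorem ty (h : EK G 6 t fr F jm) : t y = 1 := by
  have h1 := h.deg y r.myv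
  rw [r.sty, card_pair r.sp.au] at h1
  push_cast at h1
  linarith

theorem tb (h : EK G 6 t fr F jm) : t b = 0 := by
  have h1 := h.deg b r.mbv
  rw [r.stb, card_insert_of_notMem (by
    rw [mem_insert, mem_singleton, not_or]
    exact ⟨r.sp.ae1, r.sp.ae2⟩), card_pair r.sp.ee] at h1
  push_cast at h1
  linarith

end RStp

/-- natural number of tokens, at most two -/
theorem EK.t012 (h : EK G 6 t fr F jm) (h4 : 4 ≤ G.vs.card) {v : V} (hv : v ∈ G.vs) :
    t v = 0 ∨ t v = 1 ∨ t v = 2 := by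
  obtain ⟨n, h1, -⟩ := h.tnat hv
  have h2 := h.t_le_two h4 hv
  rw [h1] at h2 ⊢
  have h3 : n ≤ 2 := by exact_mod_cast h2
  interval_cases n
  · exact Or.inl (by norm_num)
  · exact Or.inr (Or.inl (by norm_num))
  · exact Or.inr (Or.inr (by norm_num))

/-- two vertices outside of a set of value 4: both have two tokens, or they are adjacent and have
one and two tokens -/
theorem EK.two_out (h : EK G 6 t fr F jm) (hX : X ⊆ G.vs) (h4 : 4 ≤ X.card) {p q : V}
    (hpq : p ≠ q) (hZ : G.vs \ X = {p, q}) (hv : G.val one1 t X = 4) :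
    (t p = 2 ∧ t q = 2) ∨ (((t p = 1 ∧ t q = 2) ∨ (t p = 2 ∧ t q = 1)) ∧
      ∃ d ∈ G.ds, G.pi d = p ∧ G.pi (G.al d) = q) := by
  have hp : p ∈ G.vs \ X := by rw [hZ]; simp
  have hq : q ∈ G.vs \ X := by rw [hZ]; simp
  have h40 : 4 ≤ G.vs.card := h4.trans (card_le_card hX)
  have hc := h.wt.val_compl hX
  have hs := sum_sdiff hX (f := t)
  have he := h.val_eq (X := G.vs \ X) sdiff_subset
  have h5 := h.evn (G.vs \ X) sdiff_subset (by rw [hZ, card_pair hpq]; exact even_two)
    ⟨p, hp⟩ (by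
    intro h6
    have h7 := card_sdiff_add_card_eq_card hX
    rw [h6] at h7
    omega)
  rw [hv, h.tau] at hc
  rw [hZ, sum_pair hpq, h.tau] at hs
  rw [hZ, card_pair hpq] at he
  rw [hZ] at hc h5
  have kp := h.t012 h40 (mem_sdiff.1 hp).1
  have kq := h.t012 h40 (mem_sdiff.1 hq).1
  have h3 : 3 ≤ t p + t q := by linarith
  by_cases h2 : t p = 2 ∧ t q = 2
  · exact Or.inl h2
  · right
    have h6 : (t p = 1 ∧ t q = 2) ∨ (t p = 2 ∧ t q = 1) := by
      rcases kp with k1 | k1 | k1 <;> rcases kq with k2 | k2 | k2 <;> rw [k1, k2] at h3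
      · norm_num at h3
      · norm_num at h3
      · norm_num at h3
      · norm_num at h3
      · norm_num at h3
      · exact Or.inl ⟨k1, k2⟩
      · norm_num at h3
      · exact Or.inr ⟨k1, k2⟩
      · exact absurd ⟨k1, k2⟩ h2
    refine ⟨h6, ?_⟩
    have h7 : t p + t q = 3 := by
      rcases h6 with ⟨k1, k2⟩ | ⟨k1, k2⟩ <;> rw [k1, k2] <;> norm_num
    have h8 : ((G.ed {p, q} {p, q}).card : ℝ) = 2 := by
      push_cast at he
      linarith
    have h9 : 0 < (G.ed {p, q} {p, q}).card := by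
      have : (0 : ℝ) < (G.ed {p, q} {p, q}).card := by
        rw [h8]
        norm_num
      exact_mod_cast this
    obtain ⟨d, hd⟩ := card_pos.1 h9
    obtain ⟨k1, k2, k3⟩ := mem_ed.1 hd
    rw [mem_insert, mem_singleton] at k2 k3
    rcases k2 with k2 | k2 <;> rcases k3 with k3 | k3
    · exact absurd (k3.trans k2.symm) (fun k => G.noloop d k1 k)
    · exact ⟨d, k1, k2, k3⟩
    · exact ⟨G.al d, G.al_mem d k1, k3, by rw [G.al_al d k1, k2]⟩
    · exact absurd (k3.trans k2.symm) (fun k => G.noloop d k1 k)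

namespace Bas

variable (h : Bas G t fr F jm) (r : RStp G t fr y b a0 u e1 e2)
include h r

theorem ty1 : 1 ≤ t y := le_of_eq (r.ty h.toEK).symm

/-- the killed end has no two tokens -/
theorem tk_ne : t (G.pi (G.al e1)) ≠ 2 := by
  intro h1
  have h2 := h.noBQ (G.al e1) (G.al_mem e1 r.sp.f1) h1
  rw [G.al_al e1 r.sp.f1, r.sp.pf] at h2
  exact r.hb h2

/-- even sets with the real token `y` and the vertex `b'` outside have value at least 6 -/
theorem evW (hX : X ⊆ G.vs) (he : Even X.card) (h4 : 4 ≤ X.card) (hy : y ∈ X) (hbX : b ∈ X)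
    (hb : G.pi (G.al e1) ∉ X) : 6 ≤ G.val one1 t X := by
  have hp : G.pi (G.al e1) ∈ G.vs \ X := mem_sdiff.2 ⟨r.mkv, hb⟩
  have hne : X ≠ G.vs := fun h1 => hb (h1 ▸ r.mkv)
  rcases h.evn_or hX he ⟨y, hy⟩ hne with h1 | h1
  · exfalso
    have h2 : (G.vs \ X).card % 2 = 0 := by
      rw [card_sdiff_of_subset hX]
      have h3 := Nat.even_iff.1 h.even
      have h4 := Nat.even_iff.1 he
      have h5 := card_le_card hX
      omega
    have h3 := card_pos.2 ⟨_, hp⟩
    rcases Nat.lt_or_ge (G.vs \ X).card 4 with h5 | h5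
    · have h6 : (G.vs \ X).card = 2 := by omega
      obtain ⟨q, hq, hpq⟩ : ∃ q, G.vs \ X = {G.pi (G.al e1), q} ∧ G.pi (G.al e1) ≠ q := by
        obtain ⟨a, c, hac, he⟩ := card_eq_two.1 h6
        rw [he, mem_insert, mem_singleton] at hp
        rcases hp with h7 | h7
        · exact ⟨c, by rw [he, h7], by rw [h7]; exact hac⟩
        · exact ⟨a, by rw [he, h7, pair_comm], by rw [h7]; exact hac.symm⟩
      have hk := Bas.tk_ne h r
      rcases h.toEK.two_out hX h4 hpq hq h1 with h7 | ⟨h7 | h7, d, d1, d2, d3⟩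
      · exact hk h7.1
      · have h8 := h.noAdj (G.al d) (G.al_mem d d1) (fun h9 => by
          have h10 := h.fresh.Ffr _ h9
          rw [d3] at h10
          exact h.toEK.two_nf h7.2 h10) (by
          rw [d3, h7.2]
          norm_num)
        rw [G.al_al d d1, d2, h7.1] at h8
        norm_num at h8
      · exact hk h7.1
    · refine h.noE X hX he h4 h5 ⟨y, hy, r.hy, Bas.ty1 h r⟩ (fun hc => ?_) h1
      exact h.toEK.one_tok hX h1 ⟨y, hy, Bas.ty1 h r⟩ (d := e1)
        (mem_bd.2 ⟨r.sp.f1, by rw [r.sp.pf]; exact hbX, hb⟩)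
        (fun k => r.hb (r.sp.pf ▸ h.fresh.Ffr _ k)) hc
  · exact h1

/-- **no even blocker** -/
theorem noN (hX : X ⊆ G.vs) (he : Even X.card) (h4 : 4 ≤ X.card) (hy : y ∈ X) (hbX : b ∈ X)
    (hb : G.pi (G.al e1) ∉ X) : G.val one1 t X ≠ 4 := by
  intro h1
  have h2 := Bas.evW h r hX he h4 hy hbX hb
  linarith

variable (m : MBlk G t y b u e1 e2 W)
include m

/-- the outer side has at least three vertices -/
theorem three : 3 ≤ (G.vs \ W).card := by
  have hW := m.sub
  have hk : G.pi (G.al e1) ∈ G.vs \ W := mem_sdiff.2 ⟨r.mkv, m.nb1⟩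
  have h1 := card_pos.2 ⟨_, hk⟩
  have h2 : (G.vs \ W).card % 2 = 1 := by
    rw [card_sdiff_of_subset hW]
    have h3 := Nat.even_iff.1 h.even
    have h4 := Nat.odd_iff.1 m.odd
    have h5 := card_le_card hW
    omega
  by_contra h3
  obtain ⟨v, hv⟩ := card_eq_one.1 (by omega : (G.vs \ W).card = 1)
  rw [hv, mem_singleton] at hk
  have h4 := h.wt.val_compl hW
  rw [h.tau, hv, h.wt.val_single (by rw [← hk]; exact r.mkv), m.val] at h4
  have h5 := sum_sdiff hW (f := t)
  rw [hv, sum_singleton, ← hk, h.tau] at h5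
  exact Bas.tk_ne h r (by linarith)

/-- **the step data** -/
theorem std : StD G t fr (G.vs \ W) (G.al e1) (G.al a0) := by
  have hW := m.sub
  have hWW : G.vs \ (G.vs \ W) = W := Finset.sdiff_sdiff_eq_self hW
  have a1 := G.al_al e1 r.sp.f1
  have a2 := G.al_al a0 r.sp.a1
  refine ⟨G.al_mem a0 r.sp.a1, ?_, ?_, ?_, ?_, ?_, ?_, ?_, Bas.three h r m⟩
  · rw [a1, r.sp.pf, r.sp.pb]
  · rw [a2, r.sp.pa, hWW]
    exact m.my
  · rw [a2, r.sp.pa, r.ty h.toEK]
    norm_num
  · rw [a2, r.sp.pa]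
    exact r.hy
  · rw [a1, r.sp.pf]
    exact r.hb
  · rw [a1, r.sp.pf]
    exact r.tb h.toEK
  · intro d hd h1
    rw [a1, r.sp.pf] at h1
    obtain ⟨k1, k2, k3⟩ := mem_bd.1 hd
    rcases r.sp.at_b (G.al_mem d k1) h1 with h2 | h2 | h2
    · exfalso
      have h3 : d = a0 := by rw [← G.al_al d k1, h2, a2]
      rw [h3, r.sp.pa] at k2
      exact (mem_sdiff.1 k2).2 m.my
    · rw [← G.al_al d k1, h2]
    · exfalso
      have h3 : d = G.al e2 := by rw [← G.al_al d k1, h2]
      rw [h3] at k2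
      exact (mem_sdiff.1 k2).2 m.mb2

variable (hF : ¬ FCut G F W)

include hF in
/-- **the blocked side** -/
theorem bw : BW G t F (G.vs \ W) (G.al e1) := by
  have hW := m.sub
  have hWW : G.vs \ (G.vs \ W) = W := Finset.sdiff_sdiff_eq_self hW
  have hk : G.pi (G.al e1) ∈ G.vs \ W := mem_sdiff.2 ⟨r.mkv, m.nb1⟩
  have h5 := m.big
  have hd : ∀ X ⊆ G.vs \ W, Disjoint X W := fun X hX =>
    disjoint_left.2 fun v hv hv' => (mem_sdiff.1 (hX hv)).2 hv'
  have hcu : ∀ X ⊆ G.vs \ W, (X ∪ W).card = X.card + W.card := fun X hX =>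
    card_union_of_disjoint (hd X hX)
  refine ⟨sdiff_subset, ?_, ?_, ?_, ?_, ?_, ?_, ?_, ?_⟩
  · rw [hWW]
    exact m.odd
  · rw [hWW]
    omega
  · rw [hWW]
    exact m.val
  · rw [hWW]
    have h1 := single_le_sum (f := t) (fun v hv => h.t0 v (hW hv)) m.my
    have h2 := r.ty h.toEK
    linarith
  · refine mem_bd.2 ⟨G.al_mem e1 r.sp.f1, hk, ?_⟩
    rw [G.al_al e1 r.sp.f1, r.sp.pf]
    exact fun h1 => (mem_sdiff.1 h1).2 m.mb
  · intro d hd h1
    by_contra h2
    refine hF ⟨G.al d, h.fresh.Fal d hd, ?_, ?_⟩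
    · by_contra h3
      exact h2 (mem_sdiff.2 ⟨G.pi_mem _ (G.al_mem d (h.fresh.Fsub hd)), h3⟩)
    · rw [G.al_al d (h.fresh.Fsub hd)]
      exact (mem_sdiff.1 h1).2
  · intro X hX he hne hb
    rw [hWW]
    have hXW : X ∪ W ⊆ G.vs := union_subset (hX.trans sdiff_subset) hW
    have ho : Odd (X ∪ W).card := by
      rw [hcu X hX]
      exact he.add_odd m.odd
    have hc1 : (X ∪ W).card ≠ 1 := by
      rw [hcu X hX]
      omega
    rcases h.odd_or hXW ho hc1 with h1 | h1
    · exfalso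
      have h2 := m.max (X ∪ W) ⟨hXW, mem_union_right _ m.my, mem_union_right _ m.mb,
        mem_union_right _ m.my2, mem_union_right _ m.mb2, by
          rw [mem_union, not_or]
          exact ⟨hb, m.nb1⟩, ho, by
          rw [hcu X hX]
          omega, h1⟩ subset_union_right
      have h3 := hcu X hX
      rw [h2] at h3
      have h4 := card_pos.2 hne
      omega
    · exact h1
  · intro X hX ho hb
    rw [hWW]
    refine Bas.evW h r (union_subset (hX.trans sdiff_subset) hW) ?_ ?_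
      (mem_union_right _ m.my) (mem_union_right _ m.mb) ?_
    · rw [hcu X hX]
      exact ho.add_odd m.odd
    · rw [hcu X hX]
      omega
    · rw [mem_union, not_or]
      exact ⟨hb, m.nb1⟩

/-- one token inside: the killed end has no token -/
theorem tk0 (ro : t (G.pi (G.al e1)) = 0 ∨ t (G.pi (G.al e2)) ≠ 0) (hT : ∑ v ∈ W, t v = 1) :
    t (G.pi (G.al e1)) = 0 := by
  rcases ro with h1 | h1
  · exact h1
  · exfalso
    have hW := m.sub
    have hne : y ≠ G.pi (G.al e2) := fun h2 => r.sp.pag h2.symm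
    have h2 : t y + t (G.pi (G.al e2)) ≤ ∑ v ∈ W, t v := by
      rw [← sum_pair hne]
      refine sum_le_sum_of_subset_of_nonneg ?_ fun v hv _ => h.t0 v (hW hv)
      intro v hv
      rw [mem_insert, mem_singleton] at hv
      rcases hv with rfl | rfl
      · exact m.my
      · exact m.mb2
    rw [hT, r.ty h.toEK] at h2
    have h3 := h.t0 _ (hW m.mb2)
    exact h1 (le_antisymm (by linarith) h3)

/-- **one token inside: at least five vertices outside** -/
theorem five (ro : t (G.pi (G.al e1)) = 0 ∨ t (G.pi (G.al e2)) ≠ 0) (hT : ∑ v ∈ W, t v = 1) :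
    5 ≤ (G.vs \ W).card := by
  have h0 := Bas.tk0 h r m ro hT
  have hW := m.sub
  have hk : G.pi (G.al e1) ∈ G.vs \ W := mem_sdiff.2 ⟨r.mkv, m.nb1⟩
  have h1 := Bas.three h r m
  have h2 : (G.vs \ W).card % 2 = 1 := by
    rw [card_sdiff_of_subset hW]
    have h3 := Nat.even_iff.1 h.even
    have h4 := Nat.odd_iff.1 m.odd
    have h5 := card_le_card hW
    omega
  by_contra h3
  have h4 : (G.vs \ W).card = 3 := by omega
  have h5 := sum_sdiff hW (f := t)
  rw [h.tau, hT] at h5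
  have h6 : ∑ v ∈ (G.vs \ W).erase (G.pi (G.al e1)), t v ≤
      ∑ v ∈ (G.vs \ W).erase (G.pi (G.al e1)), (2 : ℝ) := by
    refine sum_le_sum fun v hv => ?_
    refine h.toEK.t_le_two ?_ (mem_sdiff.1 (mem_of_mem_erase hv)).1
    have h7 := card_le_card hW
    have h8 := m.big
    omega
  rw [sum_const, nsmul_eq_mul, card_erase_of_mem hk, h4] at h6
  have h7 := add_sum_erase _ t hk
  rw [h0] at h7
  norm_num at h6
  linarith

end Bas

end MG

end RH
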