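import Pool.Agent.Lib.RH.GOut
import Pool.Agent.Lib.RH.CE6Gad
import Pool.Agent.Lib.RH.HPot

/-! The outer gadgets `Gam`, `Lam` in the class CE6: a half matching of `A = vs - W` with a
prescribed pattern, or half of a certificate with prescribed values at the exits. -/

set_option autoImplicit false

namespace RH

open Finset Classical

namespace MG

variable {V D : Type*} {G : MG V D} {g : GD V D} {t tk : V → ℝ}
variable {fr fr1 : Finset V} {F : Finset D} {jm A X Y : Finset V}
variable {w1 w2 w3 : V} {x y s k' : ℝ}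

theorem EK.fiveP (h : EK G k' t fr F jm) : FiveP G one1 t := fun X hX ho h3 =>
  h.odd X hX ho (by omega)

theorem EK.fourP (h : EK G k' t fr F jm) : FourP G one1 t := h.evn

namespace Blk

variable (b : Blk G t fr F jm A)
include b

/-- a three-vertex gadget with strict tables: the state; its good matchings give halves -/
theorem k3_ek (h : EK G 6 t fr F jm) (k : K3 G g one1 one1 tk w1 w2 w3 x y s) (hgA : g.A = A)
    (hP : g.P = G.bd g.A) (tk0 : ∀ v ∈ g.K, 0 ≤ tk v) (htk : ∑ v ∈ g.K, tk v = 1)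
    (h5 : FiveP (gad G g k.ok) (gz g one1 one1) (gt G g one1 t tk))
    (h4 : FourP (gad G g k.ok) (gz g one1 one1) (gt G g one1 t tk)) :
    EK (gad G g k.ok) 6 (gt G g one1 t tk) (fr ∩ A) (F.filter fun d => G.pi d ∈ fr ∩ A) jm ∧
      ∀ M, (gad G g k.ok).GoodS one1 (fr ∩ A) (F.filter fun d => G.pi d ∈ fr ∩ A) jm M →
        G.GHalf one1 fr F jm A (G.resM A M) := by
  have hf := b.keep h.fresh hgA
  have hj := b.gjm_all h.fresh hP
  have h2 : gjm G g jm (fr ∩ A) = ∅ ∨ (gjm G g jm (fr ∩ A)).card = 2 := by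
    rw [hj]
    exact h.jm2
  have kd : ∀ v ∈ g.K, gvk g one1 one1 tk {v} = 3 := by
    intro v hv
    rw [gvk_deg k.kd (singleton_subset_iff.2 hv), card_singleton]
    have h6 : g.E.filter (fun d => g.pe d ∈ ({v} : Finset V) ∧ g.pe (g.be d) ∈ ({v} : Finset V)) =
        ∅ := by
      rw [filter_eq_empty_iff]
      rintro d hd ⟨h7, h8⟩
      rw [mem_singleton] at h7 h8
      exact k.ok.nl d hd (h8.trans h7.symm)
    rw [h6, sum_empty]
    norm_num
  have hK3 : g.K.card = 3 := by
    rw [k.hK, card_insert_of_notMem, card_insert_of_notMem, card_singleton]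
    · rw [mem_singleton]; exact k.n23
    · rw [mem_insert, mem_singleton, not_or]; exact ⟨k.n12, k.n13⟩
  have he : Even (g.A.card + g.K.card) := by
    have h6 := b.cardA h.even
    rw [hgA, hK3, Nat.even_iff]
    omega
  have ht : ∑ v ∈ g.A, t v + (((G.bd g.A).filter fun d => d ∉ g.P).card : ℝ) +
      ∑ v ∈ g.K, tk v = 6 := by
    have h6 : (G.bd g.A).filter (fun d => d ∉ g.P) = ∅ := by
      rw [filter_eq_empty_iff, hP]
      exact fun d hd h7 => h7 hd
    rw [h6, htk, hgA, b.tok]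
    norm_num
  have hE := h.gad (by norm_num) k.ok hf he tk0 kd h2 ht (k.tabO h5) (k.tabE h4)
  rw [hj] at hE
  refine ⟨hE, fun M hM => ?_⟩
  have hM' : (MG.gad G g k.ok).GoodS (gz g one1 one1) (fr ∩ A)
      (F.filter fun d => G.pi d ∈ fr ∩ A) (gjm G g jm (fr ∩ A)) M := by
    rw [gz_one, hj]
    exact hM
  have h7 := h.half k.ok hf (fun X hX hXA _ => subset_inter hX.sub (hgA ▸ hXA)) h2 hM'
  rwa [hgA] at h7

/-- port table, any weights of the gadget -/
theorem fctE {ze : D → ℝ} (h : EK G 6 t fr F jm) (k : K3 G g one1 ze tk w1 w2 w3 x y s)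
    (hgA : g.A = A) (hP : g.P = G.bd g.A) :
    ∀ X ⊆ g.A, TriF G one1 t g.A g.P g.ga w1 w2 w3 X := by
  intro X hX
  have h1 := b.odd
  have h2 := b.big
  have h3 := b.val
  rw [← hgA] at h1 h2 h3
  exact k.facts h.wt h.fiveP h.fourP hP h1 (by omega) h3 hX

end Blk

/-- two different vertices in a set with one element -/
private theorem two_one {X : Finset V} {u v : V} (hX : X.card = 1) (huv : u ≠ v) :
    (if u ∈ X then (1 : ℝ) else 0) + (if v ∈ X then 1 else 0) ≤ 1 := by
  obtain ⟨c, rfl⟩ := card_eq_one.1 hX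
  by_cases h1 : u = c
  · have h2 : v ≠ c := fun h => huv (h1.trans h.symm)
    simp [h1, h2]
  · simp only [mem_singleton, h1, if_false, zero_add]
    split_ifs <;> norm_num

private theorem ite_le (c : Prop) [Decidable c] : (if c then (1 : ℝ) else 0) ≤ 1 := by
  split_ifs <;> norm_num

private theorem ite_nn (c : Prop) [Decidable c] : 0 ≤ (if c then (1 : ℝ) else 0) := by
  split_ifs <;> norm_num

/-- even sets which do not contain two given ends with value 4 -/
theorem EK.pair_le (h : EK G 6 t fr F jm) (b : Blk G t fr F jm A) {c d : D}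
    (hcd : ∀ X ⊆ A, Even X.card → G.pi c ∈ X → G.pi d ∈ X → G.val one1 t X ≠ 4)
    (hX : X ⊆ A) (he : Even X.card) (h2 : 2 ≤ X.card) :
    2 + 2 * ((if G.pi c ∈ X then 1 else 0) + (if G.pi d ∈ X then 1 else 0)) ≤
      G.val one1 t X := by
  have hne : X.Nonempty := card_pos.1 (by omega)
  have hX' : X ≠ G.vs := by
    rintro rfl
    have h3 := b.big
    rw [Subset.antisymm hX b.hA, Finset.sdiff_self, card_empty] at h3
    omega
  rcases h.evn_or (hX.trans b.hA) he hne hX' with h4 | h4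
  · have h5 : ¬ (G.pi c ∈ X ∧ G.pi d ∈ X) := fun h6 => hcd X hX he h6.1 h6.2 h4
    rw [h4]
    by_cases i1 : G.pi c ∈ X <;> by_cases i2 : G.pi d ∈ X
    · exact absurd ⟨i1, i2⟩ h5
    · simp only [i1, i2, if_true, if_false]; norm_num
    · simp only [i1, i2, if_true, if_false]; norm_num
    · simp only [i1, i2, if_false]; norm_num
  · have h5 := ite_le (G.pi c ∈ X)
    have h6 := ite_le (G.pi d ∈ X)
    linarith

/-- **Gam(pq|rs)** at the level of strict 6-states -/
theorem EK.gam (h : EK G 6 t fr F jm) (b : Blk G t fr F jm A) {p q r u : D}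
    (hbd : G.bd A = {p, q, r, u}) (hnd : [p, q, r, u].Nodup) {e1 e1' e2 e2' : D}
    (k : PthOk G A (G.bd A) (fun d => if d = p ∨ d = q then w1 else w3) w1 w2 w3 e1 e1' e2 e2')
    (hpq : G.pi p ≠ G.pi q) (hru : G.pi r ≠ G.pi u)
    (epq : ∀ X ⊆ A, Even X.card → G.pi p ∈ X → G.pi q ∈ X → G.val one1 t X ≠ 4)
    (eru : ∀ X ⊆ A, Even X.card → G.pi r ∈ X → G.pi u ∈ X → G.val one1 t X ≠ 4) :
    EK (MG.gad G _ k.ok) 6 (gt G (pthG A (G.bd A) (fun d => if d = p ∨ d = q then w1 else w3)
        w1 w2 w3 e1 e1' e2 e2') one1 t (triT w1 w2 0 1 0)) (fr ∩ A)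
        (F.filter fun d => G.pi d ∈ fr ∩ A) jm ∧
      ∀ M, (MG.gad G _ k.ok).GoodS one1 (fr ∩ A) (F.filter fun d => G.pi d ∈ fr ∩ A) jm M →
        G.GHalf one1 fr F jm A (G.resM A M) := by
  have hn : p ≠ q ∧ p ≠ r ∧ p ≠ u ∧ q ≠ r ∧ q ≠ u ∧ r ≠ u := by
    simp only [List.nodup_cons, List.mem_cons, List.not_mem_nil, or_false, not_or, not_false_iff,
      List.nodup_nil, and_true] at hnd
    obtain ⟨⟨h1, h2, h3⟩, ⟨h4, h5⟩, h6⟩ := hnd
    exact ⟨h1, h2, h3, h4, h5, h6⟩
  obtain ⟨n1, n2, n3, n4, n5, n6⟩ := hn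
  have f1 : (G.bd A).filter (fun d => (if d = p ∨ d = q then w1 else w3) = w1) = {p, q} := by
    ext d
    rw [mem_filter, hbd]
    simp only [mem_insert, mem_singleton]
    constructor
    · rintro ⟨-, h2⟩
      by_contra h3
      rw [if_neg h3] at h2
      exact k.n13 h2.symm
    · intro h2
      exact ⟨by tauto, if_pos h2⟩
  have f3 : (G.bd A).filter (fun d => (if d = p ∨ d = q then w1 else w3) = w3) = {r, u} := by
    ext d
    rw [mem_filter, hbd]
    simp only [mem_insert, mem_singleton]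
    constructor
    · rintro ⟨h1, h2⟩
      have h3 : ¬ (d = p ∨ d = q) := by
        intro h3
        rw [if_pos h3] at h2
        exact k.n13 h2
      tauto
    · intro h2
      have h3 : ¬ (d = p ∨ d = q) := by
        rcases h2 with rfl | rfl
        · exact fun h => h.elim (fun h => n2 h.symm) fun h => n4 h.symm
        · exact fun h => h.elim (fun h => n3 h.symm) fun h => n5 h.symm
      exact ⟨by tauto, if_neg h3⟩
  have f2 : (G.bd A).filter (fun d => (if d = p ∨ d = q then w1 else w3) = w2) = ∅ := by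
    rw [filter_eq_empty_iff]
    intro d _ h2
    split_ifs at h2
    · exact k.n12 h2
    · exact k.n23 h2.symm
  have p1 : pP (G.bd A) (fun d => if d = p ∨ d = q then w1 else w3) one1 w1 = 2 := by
    rw [pP_one, f1, card_pair n1]
    norm_num
  have p2 : pP (G.bd A) (fun d => if d = p ∨ d = q then w1 else w3) one1 w2 = 0 := by
    rw [pP_one, f2, card_empty]
    norm_num
  have p3 : pP (G.bd A) (fun d => if d = p ∨ d = q then w1 else w3) one1 w3 = 2 := by
    rw [pP_one, f3, card_pair n6]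
    norm_num
  have t1 : triT w1 w2 0 1 0 w1 = 0 := by unfold triT; rw [if_pos rfl]
  have t2 : triT w1 w2 0 1 0 w2 = 1 := by
    unfold triT; rw [if_neg k.n12.symm, if_pos rfl]
  have t3 : triT w1 w2 0 1 0 w3 = 0 := by
    unfold triT; rw [if_neg k.n13.symm, if_neg k.n23.symm]
  have K := k.k3 (z := one1) (tk := triT w1 w2 0 1 0) (by rw [p1]; norm_num : _ = (3 : ℝ))
    (by rw [p2]; norm_num : _ = (3 : ℝ)) (by rw [p3]; norm_num : _ = (3 : ℝ)) t1 t2 t3
  have hF := b.fctE h K rfl rfl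
  have hqq : ∀ X : Finset V, ∀ c d : D, G.pi c ≠ G.pi d → (∀ X ⊆ A, Even X.card → G.pi c ∈ X →
      G.pi d ∈ X → G.val one1 t X ≠ 4) → X ⊆ A → Even X.card → 2 ≤ X.card →
      2 + 2 * ((if G.pi c ∈ X then 1 else 0) + (if G.pi d ∈ X then 1 else 0)) ≤
        G.val one1 t X := by
    intro X c d _ hcd hX he h2
    have hne : X.Nonempty := card_pos.1 (by omega)
    have hX' : X ≠ G.vs := by
      rintro rfl
      have h3 := b.big
      rw [Subset.antisymm hX b.hA, Finset.sdiff_self, card_empty] at h3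
      omega
    rcases h.evn_or (hX.trans b.hA) he hne hX' with h4 | h4
    · have h5 : ¬ (G.pi c ∈ X ∧ G.pi d ∈ X) := fun h6 => hcd X hX he h6.1 h6.2 h4
      rw [h4]
      by_cases i1 : G.pi c ∈ X <;> by_cases i2 : G.pi d ∈ X
      · exact absurd ⟨i1, i2⟩ h5
      · simp only [i1, i2, if_true, if_false]; norm_num
      · simp only [i1, i2, if_true, if_false]; norm_num
      · simp only [i1, i2, if_false]; norm_num
    · have h5 := ite_le (G.pi c ∈ X)
      have h6 := ite_le (G.pi d ∈ X)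
      linarith
  have hs := K.gam (fun _ _ => rfl) hF p1 p2 p3 (by change 3 ≤ ∑ v ∈ A, t v; rw [b.tok]; norm_num)
    (fun X hX h1 => by
      constructor
      · change qP G (G.bd A) (fun d => if d = p ∨ d = q then w1 else w3) one1 X w1 ≤ 1
        rw [qP_pair n1 f1]
        exact two_one h1 hpq
      · change qP G (G.bd A) (fun d => if d = p ∨ d = q then w1 else w3) one1 X w3 ≤ 1
        rw [qP_pair n6 f3]
        exact two_one h1 hru)
    (fun X hX he h2 => by
      constructor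
      · change 2 + 2 * qP G (G.bd A) (fun d => if d = p ∨ d = q then w1 else w3) one1 X w1 ≤ _
        rw [qP_pair n1 f1]
        exact hqq X p q hpq epq hX he h2
      · change 2 + 2 * qP G (G.bd A) (fun d => if d = p ∨ d = q then w1 else w3) one1 X w3 ≤ _
        rw [qP_pair n6 f3]
        exact hqq X r u hru eru hX he h2)
  refine b.k3_ek h K rfl rfl ?_ ?_ hs.1 hs.2
  · intro v hv
    change v ∈ ({w1, w2, w3} : Finset V) at hv
    simp only [mem_insert, mem_singleton] at hv
    rcases hv with rfl | rfl | rfl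
    · rw [t1]
    · rw [t2]; norm_num
    · rw [t3]
  · change ∑ v ∈ ({w1, w2, w3} : Finset V), _ = _
    rw [sum_insert, sum_insert, sum_singleton, t1, t2, t3]
    · norm_num
    · rw [mem_singleton]; exact k.n23
    · rw [mem_insert, mem_singleton, not_or]; exact ⟨k.n12, k.n13⟩

/-- **Lam** at the level of strict 6-states: `p`, `q` at `w1`, `r` (the killed unit) at `w2`, `u` and
the token at `w3` -/
theorem EK.lam (h : EK G 6 t fr F jm) (b : Blk G t fr F jm A) {p q r u : D}
    (hbd : G.bd A = {p, q, r, u}) (hnd : [p, q, r, u].Nodup) {e1 e1' e2 e2' : D}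
    (k : PthOk G A (G.bd A) (ga3 p q r w1 w2 w3) w1 w2 w3 e1 e1' e2 e2')
    (hpq : G.pi p ≠ G.pi q) (hpr : G.pi p ≠ G.pi r) (hqr : G.pi q ≠ G.pi r)
    (hru : G.pi r ≠ G.pi u)
    (epq : ∀ X ⊆ A, Even X.card → G.pi p ∈ X → G.pi q ∈ X → G.val one1 t X ≠ 4)
    (o5 : ∀ X ⊆ A, Odd X.card → G.pi p ∈ X → G.pi q ∈ X → G.pi r ∈ X → G.val one1 t X ≠ 5) :
    EK (MG.gad G _ k.ok) 6 (gt G (pthG A (G.bd A) (ga3 p q r w1 w2 w3) w1 w2 w3 e1 e1' e2 e2')
        one1 t (triT w1 w2 0 0 1)) (fr ∩ A) (F.filter fun d => G.pi d ∈ fr ∩ A) jm ∧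
      ∀ M, (MG.gad G _ k.ok).GoodS one1 (fr ∩ A) (F.filter fun d => G.pi d ∈ fr ∩ A) jm M →
        G.GHalf one1 fr F jm A (G.resM A M) := by
  have hn : p ≠ q ∧ p ≠ r ∧ p ≠ u ∧ q ≠ r ∧ q ≠ u ∧ r ≠ u := by
    simp only [List.nodup_cons, List.mem_cons, List.not_mem_nil, or_false, not_or, not_false_iff,
      List.nodup_nil, and_true] at hnd
    obtain ⟨⟨h1, h2, h3⟩, ⟨h4, h5⟩, h6⟩ := hnd
    exact ⟨h1, h2, h3, h4, h5, h6⟩
  obtain ⟨n1, n2, n3, n4, n5, n6⟩ := hn
  have f1 := ga3_1 hbd n2 n4 k.n12 k.n13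
  have f2 := ga3_2 hbd n2 n4 k.n12 k.n23
  have f3 := ga3_3 hbd n3 n5 n6 k.n13 k.n23
  have p1 : pP (G.bd A) (ga3 p q r w1 w2 w3) one1 w1 = 2 := by
    rw [pP_one, f1, card_pair n1]
    norm_num
  have p2 : pP (G.bd A) (ga3 p q r w1 w2 w3) one1 w2 = 1 := by
    rw [pP_one, f2, card_singleton]
    norm_num
  have p3 : pP (G.bd A) (ga3 p q r w1 w2 w3) one1 w3 = 1 := by
    rw [pP_one, f3, card_singleton]
    norm_num
  have t1 : triT w1 w2 0 0 1 w1 = 0 := by unfold triT; rw [if_pos rfl]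
  have t2 : triT w1 w2 0 0 1 w2 = 0 := by
    unfold triT; rw [if_neg k.n12.symm, if_pos rfl]
  have t3 : triT w1 w2 0 0 1 w3 = 1 := by
    unfold triT; rw [if_neg k.n13.symm, if_neg k.n23.symm]
  have K := k.k3 (z := one1) (tk := triT w1 w2 0 0 1) (by rw [p1]; norm_num : _ = (3 : ℝ))
    (by rw [p2]; norm_num : _ = (3 : ℝ)) (by rw [p3]; norm_num : _ = (3 : ℝ)) t1 t2 t3
  have hF := b.fctE h K rfl rfl
  have hs := K.lam (fun _ _ => rfl) hF p1 p2 p3 (by change 1 ≤ ∑ v ∈ A, t v; rw [b.tok]; norm_num)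
    (fun X hX h1 => by
      constructor
      · change qP G (G.bd A) (ga3 p q r w1 w2 w3) one1 X w1 +
          qP G (G.bd A) (ga3 p q r w1 w2 w3) one1 X w2 ≤ 1
        rw [qP_pair n1 f1, qP_sing f2]
        obtain ⟨c, rfl⟩ := card_eq_one.1 h1
        simp only [mem_singleton]
        by_cases i1 : G.pi p = c
        · rw [if_pos i1, if_neg fun h => hpq (i1.trans h.symm),
            if_neg fun h => hpr (i1.trans h.symm)]
          norm_num
        · rw [if_neg i1]
          by_cases i2 : G.pi q = c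
          · rw [if_pos i2, if_neg fun h => hqr (i2.trans h.symm)]
            norm_num
          · rw [if_neg i2]
            have := ite_le (G.pi r = c)
            linarith
      · change qP G (G.bd A) (ga3 p q r w1 w2 w3) one1 X w2 +
          qP G (G.bd A) (ga3 p q r w1 w2 w3) one1 X w3 ≤ 1
        rw [qP_sing f2, qP_sing f3]
        exact two_one h1 hru)
    (fun X hX he h2 => by
      change 2 + 2 * qP G (G.bd A) (ga3 p q r w1 w2 w3) one1 X w1 ≤ _
      rw [qP_pair n1 f1]
      exact h.pair_le b epq hX he h2)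
    (fun X hX ho h2 => by
      change 1 + 2 * (qP G (G.bd A) (ga3 p q r w1 w2 w3) one1 X w1 +
        qP G (G.bd A) (ga3 p q r w1 w2 w3) one1 X w2) ≤ _
      rw [qP_pair n1 f1, qP_sing f2]
      have hXv : X ⊆ G.vs := hX.trans b.hA
      have h5 := ite_le (G.pi p ∈ X)
      have h6 := ite_le (G.pi q ∈ X)
      have h7 := ite_le (G.pi r ∈ X)
      rcases h.odd_or hXv ho (by omega) with h4 | h4
      · have h8 : ¬ (G.pi p ∈ X ∧ G.pi q ∈ X ∧ G.pi r ∈ X) := fun h9 =>
          o5 X hX ho h9.1 h9.2.1 h9.2.2 h4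
        rw [h4]
        by_cases i1 : G.pi p ∈ X
        · by_cases i2 : G.pi q ∈ X
          · have i3 : ¬ G.pi r ∈ X := fun i3 => h8 ⟨i1, i2, i3⟩
            rw [if_pos i1, if_pos i2, if_neg i3]
            norm_num
          · rw [if_neg i2]
            linarith
        · rw [if_neg i1]
          linarith
      · linarith)
  refine b.k3_ek h K rfl rfl ?_ ?_ hs.1 hs.2
  · intro v hv
    change v ∈ ({w1, w2, w3} : Finset V) at hv
    simp only [mem_insert, mem_singleton] at hv
    rcases hv with rfl | rfl | rfl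
    · rw [t1]
    · rw [t2]
    · rw [t3]; norm_num
  · change ∑ v ∈ ({w1, w2, w3} : Finset V), _ = _
    rw [sum_insert, sum_insert, sum_singleton, t1, t2, t3]
    · norm_num
    · rw [mem_singleton]; exact k.n23
    · rw [mem_insert, mem_singleton, not_or]; exact ⟨k.n12, k.n13⟩


end MG

end RH
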