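import Pool.Agent.Lib.RH.CE6W
import Pool.Agent.Lib.RH.TplX
import Pool.Agent.Lib.RH.Tpl4

/-! # The gadget hypotheses of `X6.w1`, `X6.w2`

`X6.hI1`, `X6.hIn`, `X6.hI3` (inner), `X6.hP` (outer, at most three exits). -/

set_option autoImplicit false

namespace RH

open Finset Classical

namespace MG

variable {V D : Type*} {G : MG V D} {t : V → ℝ} {fr : Finset V} {F : Finset D}
variable {jm A W X S Ts : Finset V} {e d dy : D} {T M : Finset D} {k : ℝ}

/-- the first step at a blocked side: `b = π (al e)` is not fresh, has no token, its only exit is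
`al e`; `y` is a neighbour of `b` in `W` with a token -/
structure Stp (G : MG V D) (t : V → ℝ) (fr : Finset V) (A : Finset V) (e dy : D) : Prop where
  bf : G.pi (G.al e) ∉ fr
  tb : t (G.pi (G.al e)) = 0
  one : ∀ d ∈ G.bd A, G.pi (G.al d) = G.pi (G.al e) → d = e
  dyG : dy ∈ G.ds
  dyb : G.pi dy = G.pi (G.al e)
  dyW : G.pi (G.al dy) ∉ A
  dyt : t (G.pi (G.al dy)) ≠ 0
  yfr : G.pi (G.al dy) ∉ fr

namespace BW

variable (b : BW G t F A e)
include b

theorem iblkP (hA : A.Nonempty) : IBlk G t (G.vs \ A) 1 where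
  hA := sdiff_subset
  par := Nat.odd_iff.1 b.odd
  ne := by
    obtain ⟨v, hv⟩ := hA
    exact ⟨v, mem_sdiff.2 ⟨b.hA hv, fun k => (mem_sdiff.1 k).2 hv⟩⟩
  val := by
    rw [b.val]
    norm_num

theorem oblkP : OBlk G t F A 1 where
  hA := b.hA
  par := Nat.odd_iff.1 b.odd
  two := by
    have := b.big
    omega
  val := by
    rw [b.val]
    norm_num
  hF := b.hF

theorem hJ (h : EK G k t fr F jm) : ∀ d ∈ G.bd (G.vs \ A), d ∉ F := by
  intro d hd hF
  have h1 := bd_al' b.hA hd
  obtain ⟨k1, k2, k3⟩ := mem_bd.1 h1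
  have h2 := b.hF _ (h.fresh.Fal d hF) k2
  exact k3 h2

/-- the admissible pairs of the glue are admissible stars inside -/
theorem spI (h : EK G 6 t fr F jm) (hy : ∃ y ∈ G.vs \ A, y ∉ fr ∧ 1 ≤ t y)
    (hs : G.Spc fr jm A T S) (hd : d ∈ G.bd A) (hdT : d ∉ T)
    (hi : ∀ x ∈ T, G.pi (G.al x) ∈ fr) : SpI G fr jm (G.vs \ A) (T.image G.al) S := by
  obtain ⟨s1, s2, s3⟩ := hs
  have hci : (T.image G.al).card = T.card := card_image_of_injOn fun x hx y hy hxy =>
    (al_eq (mem_bd.1 (s1 (mem_coe.1 hx))).1 (mem_bd.1 (s1 (mem_coe.1 hy))).1).1 hxy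
  refine ⟨?_, ?_, Or.inr (Or.inr ?_)⟩
  · intro x hx
    obtain ⟨y, hy, rfl⟩ := mem_image.1 hx
    exact bd_al b.hA (s1 hy)
  · intro x hx
    obtain ⟨y, hy, rfl⟩ := mem_image.1 hx
    exact hi y hy
  · have hjs : jm \ A = jm ∩ (G.vs \ A) := by
      ext v
      rw [mem_sdiff, mem_inter, mem_sdiff]
      exact ⟨fun k => ⟨k.1, h.fresh.fsub (h.fresh.jms k.1), k.2⟩, fun k => ⟨k.1, k.2.2⟩⟩
    rcases s3 with ⟨h1, h2⟩ | ⟨h1, h2, h3, h4⟩
    · left
      refine ⟨by rw [hci, h1], h2, ?_⟩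
      by_contra h5
      rw [not_or, not_not] at h5
      have h6 := b.real h hy
      have h7 : jm \ A = jm := by
        rw [hjs]
        exact inter_eq_left.2 h5.2
      have h8 : jm.card = 2 := h.jm2.resolve_left h5.1
      have h9 : (insert d T).card ≤ (G.bd A).card := card_le_card fun x hx => by
        rcases mem_insert.1 hx with rfl | hx
        · exact hd
        · exact s1 hx
      rw [card_insert_of_notMem hdT, h1] at h9
      rw [h7, h8] at h6
      omega
    · right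
      have h8 : jm.card = 2 := by
        rcases h.jm2 with h8 | h8
        · rw [h8, empty_inter] at h3
          exact absurd h3 not_nonempty_empty
        · exact h8
      have h9 := card_inter_add_card_sdiff jm A
      have h10 : 0 < (jm ∩ A).card := card_pos.2 h3
      have h11 : 0 < (jm \ A).card := card_pos.2 h4
      refine ⟨by rw [hci, h1], h2.trans hjs, ?_, h8⟩
      rw [h2]
      omega

/-- no pair: a star which is always admissible -/
theorem exS (G : MG V D) (fr jm A : Finset V) : ∃ S, SpI G fr jm (G.vs \ A) ∅ S :=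
  exists_spI G fr jm (G.vs \ A)

/-- `SAll` from the engine -/
theorem sall (h : EK G 6 t fr F jm) (hy : ∃ y ∈ G.vs \ A, y ∉ fr ∧ 1 ≤ t y) (hd : d ∈ G.bd A)
    (hT : ∀ T S, SpI G fr jm (G.vs \ A) T S → G.al d ∉ T →
      ∃ M, G.GHalf one1 fr F jm (G.vs \ A) M ∧ (T.Nonempty → G.LkS fr F (G.vs \ A) M T S) ∧
        G.Sg (G.vs \ A) M (G.al d)) : G.SAll fr F jm A d := by
  obtain ⟨S0, hS0⟩ := exists_spI G fr jm (G.vs \ A)
  obtain ⟨M0, m1, -, m3⟩ := hT ∅ S0 hS0 (notMem_empty _)
  refine ⟨⟨M0, m1, m3⟩, fun T S hs hdT => ?_⟩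
  by_cases hi : ∀ x ∈ T, G.pi (G.al x) ∈ fr
  · have h1 := b.spI h hy hs hd hdT hi
    obtain ⟨M, n1, n2, n3⟩ := hT _ _ h1 fun h2 => by
      obtain ⟨x, hx, hxd⟩ := mem_image.1 h2
      rw [al_eq (mem_bd.1 (hs.1 hx)).1 (mem_bd.1 hd).1] at hxd
      exact hdT (hxd ▸ hx)
    refine ⟨M, n1, n3, n2 ?_⟩
    have h2 : T.Nonempty := by
      rw [← card_pos]
      rcases hs.2.2 with ⟨h2, -⟩ | ⟨h2, -⟩
      · omega
      · omega
    exact h2.image _
  · push Not at hi
    obtain ⟨x, hx, hxf⟩ := hi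
    refine ⟨M0, m1, m3, fun X hX hXW hcl hall => hxf (hX.sub (hall.1 _ (mem_image_of_mem _ hx)))⟩

end BW

namespace X6

/-- **hI1** -/
theorem hI1 [Infinite V] [Infinite D] (h : X6 G t fr F jm) (b : BW G t F A e)
    (s : Stp G t fr A e dy) (hA : 2 ≤ A.card)
    (hy : ∃ y ∈ G.vs \ A, y ∉ fr ∧ 1 ≤ t y) :
    ∀ d ∈ G.bd A, d ≠ e → G.SAll fr F jm A d := by
  intro d hd hde
  have hi := b.iblkP (card_pos.1 (by omega))
  have hAA : G.vs \ (G.vs \ A) = A := Finset.sdiff_sdiff_eq_self b.hA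
  refine b.sall h.toEK hy hd fun T S hs hdT => ?_
  refine h.inI1 hi (b.hJ h.toEK) (by rw [hAA]; exact hA) (bd_al b.hA b.he) s.dyG s.dyb ?_ ?_
    s.dyt (bd_al b.hA hd) ?_ hs hdT
  · exact mem_sdiff.2 ⟨G.pi_mem _ (G.al_mem _ s.dyG), s.dyW⟩
  · intro hF
    exact s.bf (s.dyb ▸ h.fresh.Ffr _ hF)
  · intro h1
    rw [al_eq (mem_bd.1 hd).1 (mem_bd.1 b.he).1] at h1
    exact hde h1

/-- **hIn** -/
theorem hIn [Infinite V] [Infinite D] (h : X6 G t fr F jm) (b : BW G t F A e)
    (s : Stp G t fr A e dy) (hA : A.Nonempty)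
    (hy : ∃ y ∈ G.vs \ A, y ∉ fr ∧ 1 ≤ t y) :
    G.SAll fr F jm A e ∨ G.CIn t F A e (-1) 1 := by
  by_cases hc : G.CIn t F A e (-1) 1
  · exact Or.inr hc
  · left
    have hone : ∀ d ∈ G.bd (G.vs \ A), G.pi d = G.pi (G.al e) → d = G.al e := by
      intro d hd h1
      have h2 := bd_al' b.hA hd
      have h3 := s.one _ h2 (by rw [G.al_al _ (mem_bd.1 hd).1]; exact h1)
      rw [← h3, G.al_al _ (mem_bd.1 hd).1]
    refine b.sall h.toEK hy b.he fun T S hs hdT => ?_
    rcases h.inIn (b.iblkP hA) (b.hJ h.toEK) (bd_al b.hA b.he) hone s.tb s.bf hs hdT with h1 | h1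
    · exact h1
    · exfalso
      apply hc
      obtain ⟨f, f1, f2, f3⟩ := h1
      refine ⟨f, f1, f2, fun d hd hde => f3 _ (bd_al b.hA hd) fun h2 => hde ?_⟩
      rwa [al_eq (mem_bd.1 hd).1 (mem_bd.1 b.he).1] at h2

/-- the bad pairs -/
def Bad (G : MG V D) (t : V → ℝ) (A : Finset V) (p q : D) : Prop :=
  G.pi (G.al p) = G.pi (G.al q) ∨ ∃ X ⊆ G.vs \ A, Even X.card ∧ G.pi (G.al p) ∈ X ∧
    G.pi (G.al q) ∈ X ∧ G.val one1 t X = 4

theorem four_of {S : Finset D} (h4 : S.card = 4) {p q : D} (hp : p ∈ S) (hq : q ∈ S)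
    (hpq : p ≠ q) : ∃ r s, S = {p, q, r, s} ∧ [p, q, r, s].Nodup := by
  have h1 : ((S.erase p).erase q).card = 2 := by
    rw [card_erase_of_mem (mem_erase.2 ⟨hpq.symm, hq⟩), card_erase_of_mem hp, h4]
  obtain ⟨r, s, hrs, h2⟩ := card_eq_two.1 h1
  have mr : r ∈ (S.erase p).erase q := by rw [h2]; simp
  have ms : s ∈ (S.erase p).erase q := by rw [h2]; simp
  rw [mem_erase, mem_erase] at mr ms
  refine ⟨r, s, ?_, ?_⟩
  · rw [← insert_erase hp, ← insert_erase (mem_erase.2 ⟨hpq.symm, hq⟩), h2]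
  · simp only [List.nodup_cons, List.mem_cons, List.not_mem_nil, or_false, not_or,
      not_false_iff, List.nodup_nil, and_true]
    exact ⟨⟨hpq, mr.2.1.symm, ms.2.1.symm⟩, ⟨mr.1.symm, ms.1.symm⟩, hrs⟩

/-- **hI3** -/
theorem hI3 [Infinite V] [Infinite D] (h : X6 G t fr F jm) (b : BW G t F A e)
    (h4 : (G.bd A).card = 4) (hU : 4 ≤ A.card ∨ (fr ∩ (G.vs \ A)).card < fr.card) :
    ∀ p ∈ G.bd A, ∀ q ∈ G.bd A, p ≠ q → ¬ Bad G t A p q →
      G.TIn fr F jm A p ∨ G.TIn fr F jm A q ∨ G.CIn t F A e (-1) (-1) := by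
  intro p hp q hq hpq hbad
  have hA : A.Nonempty := by
    obtain ⟨k1, k2, k3⟩ := mem_bd.1 hp
    exact ⟨_, k2⟩
  have hAA : G.vs \ (G.vs \ A) = A := Finset.sdiff_sdiff_eq_self b.hA
  have hc4 : (G.bd (G.vs \ A)).card = 4 := by
    rw [← h4]
    symm
    refine card_bij (fun d _ => G.al d) (fun d hd => bd_al b.hA hd) ?_ ?_
    · intro d hd d' hd' hdd
      exact (al_eq (mem_bd.1 hd).1 (mem_bd.1 hd').1).1 hdd
    · intro d hd
      exact ⟨G.al d, bd_al' b.hA hd, G.al_al d (mem_bd.1 hd).1⟩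
  obtain ⟨r, s, hbd, hnd⟩ := four_of hc4 (bd_al b.hA hp) (bd_al b.hA hq)
    (fun k => hpq ((al_eq (mem_bd.1 hp).1 (mem_bd.1 hq).1).1 k))
  obtain ⟨S0, hS0⟩ := exists_spI G fr jm (G.vs \ A)
  unfold Bad at hbad
  rw [not_or] at hbad
  rcases h.inI3 (b.iblkP hA) (b.hJ h.toEK) (by rw [hAA]; exact hU) hbd hnd hbad.1
    (fun X hX he h1 h2 h3 => hbad.2 ⟨X, hX, he, h1, h2, h3⟩) hS0 with ⟨M, m1, m2 | m2⟩ | ⟨f, f1, f2⟩
  · exact Or.inl ⟨M, m1, m2⟩
  · exact Or.inr (Or.inl ⟨M, m1, m2⟩)
  · exact Or.inr (Or.inr ⟨f, f1, f2 _ (bd_al b.hA b.he), fun d hd _ => f2 _ (bd_al b.hA hd)⟩)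

theorem three_of {S : Finset D} (h3 : S.card = 3) {p : D} (hp : p ∈ S) :
    ∃ r s, S = {p, r, s} ∧ p ≠ r ∧ p ≠ s ∧ r ≠ s := by
  have h1 : (S.erase p).card = 2 := by rw [card_erase_of_mem hp, h3]
  obtain ⟨r, s, hrs, h2⟩ := card_eq_two.1 h1
  have mr : r ∈ S.erase p := by rw [h2]; simp
  have ms : s ∈ S.erase p := by rw [h2]; simp
  rw [mem_erase] at mr ms
  refine ⟨r, s, ?_, mr.1.symm, ms.1.symm, hrs⟩
  rw [← insert_erase hp, h2]

theorem _root_.RH.MG.sg_of_pat {n : ℕ} {pp : Fin n → D} (hpp : G.bd A = univ.image pp)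
    (hpi : Function.Injective pp) (h1 : (univ.filter fun i => pp i ∈ M).card = 1) :
    ∃ d, G.Sg A M d := by
  obtain ⟨i, hi⟩ := card_eq_one.1 h1
  refine ⟨pp i, by rw [hpp]; exact mem_image_of_mem _ (mem_univ _), fun x hx => ?_⟩
  rw [hpp] at hx
  obtain ⟨j, -, rfl⟩ := mem_image.1 hx
  have h2 : pp j ∈ M ↔ j ∈ univ.filter fun i => pp i ∈ M := by
    rw [mem_filter]
    exact ⟨fun k => ⟨mem_univ _, k⟩, fun k => k.2⟩
  rw [h2, hi, mem_singleton]
  exact ⟨fun k => by rw [k], fun k => hpi k⟩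

/-- **hP**: the paths with adjacent tokens -/
theorem hP [Infinite V] [Infinite D] (h : X6 G t fr F jm) (b : BW G t F A e)
    (h3 : (G.bd A).card ≤ 3) (hA : 3 ≤ A.card)
    (hW : (fr ∩ A).card < fr.card ∨ 3 < (G.vs \ A).card)
    (hinj : ∀ p ∈ G.bd A, ∀ q ∈ G.bd A, G.pi p = G.pi q → p = q) :
    ∃ d, G.SOut fr F jm A d := by
  have hAo : A.card % 2 = 1 := b.oblkP.cardA h.even
  have hq : ∀ X ⊆ A, G.val one1 t (X ∪ (G.vs \ A)) = G.val one1 t X + 5 - 2 * qx G A X := by
    intro X hX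
    rw [h.toEK.join b.hA hX, b.val]
  by_cases c3 : (G.bd A).card = 3
  · obtain ⟨r, s, hbd, n1, n2, n3⟩ := three_of c3 b.he
    have hpi : Function.Injective ![e, r, s] := by
      intro i j hij
      fin_cases i <;> fin_cases j <;> simp_all
    have hpp : G.bd A = univ.image ![e, r, s] := by
      rw [hbd]
      ext x
      rw [mem_image]
      constructor
      · intro hx
        simp only [mem_insert, mem_singleton] at hx
        rcases hx with rfl | rfl | rfl
        · exact ⟨0, mem_univ _, rfl⟩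
        · exact ⟨1, mem_univ _, rfl⟩
        · exact ⟨2, mem_univ _, rfl⟩
      · rintro ⟨i, -, rfl⟩
        fin_cases i <;> simp
    have hmem : ∀ i, ![e, r, s] i ∈ G.bd A := fun i => by
      rw [hpp]
      exact mem_image_of_mem _ (mem_univ _)
    obtain ⟨M, m, h1, h2⟩ := h.tplF b.oblkP Tpl.path2_reg Tpl.path2_tab (by decide) (by decide) rfl
      (fun c h1 h2 => Tpl.path2_noC c h1 h2) hpp hpi hW
      (fun v _ => by
        unfold Tpl.n12
        rw [mem_filter]
        refine ⟨mem_univ _, ?_⟩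
        rintro ⟨k1, k2⟩
        have k3 := mem_singleton.1 (mem_filter.1 k1).2
        have k4 := mem_singleton.1 (mem_filter.1 k2).2
        exact absurd (hpi (hinj _ (hmem 1) _ (hmem 2) (k3.trans k4.symm))) (by decide))
      (fun X hX he hXn hXA hv => by
        unfold Tpl.n12
        rw [mem_filter]
        refine ⟨mem_univ _, ?_⟩
        rintro ⟨k1, k2⟩
        have k3 := (mem_filter.1 k1).2
        have k4 := (mem_filter.1 k2).2
        have k5 := hq X hX
        have hd : Disjoint X (G.vs \ A) :=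
          disjoint_left.2 fun v hv hv' => (mem_sdiff.1 hv').2 (hX hv)
        have ho : Odd (X ∪ (G.vs \ A)).card := by
          rw [card_union_of_disjoint hd, Nat.odd_iff]
          have := b.odd
          rw [Nat.even_iff] at he
          rw [Nat.odd_iff] at this
          omega
        by_cases k6 : G.pi e ∈ X
        · have k7 : qx G A X = 3 := by
            unfold qx
            rw [← c3]
            congr 1
            rw [filter_eq_self]
            intro d hd
            rw [hbd, mem_insert, mem_insert, mem_singleton] at hd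
            rcases hd with rfl | rfl | rfl
            · exact k6
            · exact k3
            · exact k4
          have k8 := h.odd (X ∪ (G.vs \ A)) (union_subset (hX.trans b.hA) sdiff_subset) ho (by
            rw [card_union_of_disjoint hd]
            have := b.big
            omega)
          rw [k5, hv, k7] at k8
          norm_num at k8
        · have k7 := b.mO X hX he hXn k6
          have k8 : 2 ≤ qx G A X := by
            unfold qx
            have k9 : ({r, s} : Finset D) ⊆ (G.bd A).filter fun d => G.pi d ∈ X := by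
              intro d hd
              rw [mem_insert, mem_singleton] at hd
              rcases hd with rfl | rfl
              · exact mem_filter.2 ⟨hmem 1, k3⟩
              · exact mem_filter.2 ⟨hmem 2, k4⟩
            have k10 := card_le_card k9
            rwa [card_pair n3] at k10
          have k9 : (2 : ℝ) ≤ qx G A X := by exact_mod_cast k8
          rw [k5, hv] at k7
          linarith)
      (fun _ _ _ _ _ _ => mem_univ _)
    obtain ⟨d, hd⟩ := sg_of_pat hpp hpi (Tpl.path2_pat _ _ h2)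
    exact ⟨d, M, h1, hd⟩
  · by_cases c2 : (G.bd A).card = 2
    · obtain ⟨r, hr, hre⟩ : ∃ r ∈ G.bd A, r ≠ e := by
        have h1 : ((G.bd A).erase e).card = 1 := by rw [card_erase_of_mem b.he, c2]
        obtain ⟨r, hr⟩ := card_pos.1 (by rw [h1]; norm_num : 0 < ((G.bd A).erase e).card)
        exact ⟨r, (mem_erase.1 hr).2, (mem_erase.1 hr).1⟩
      have hbd : G.bd A = {e, r} := by
        symm
        refine eq_of_subset_of_card_le ?_ (by rw [c2, card_pair hre.symm])
        intro x hx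
        rw [mem_insert, mem_singleton] at hx
        rcases hx with rfl | rfl
        · exact b.he
        · exact hr
      have hpi : Function.Injective ![e, r] := by
        intro i j hij
        fin_cases i <;> fin_cases j <;> simp_all
      have hpp : G.bd A = univ.image ![e, r] := by
        rw [hbd]
        ext x
        rw [mem_image]
        constructor
        · intro hx
          simp only [mem_insert, mem_singleton] at hx
          rcases hx with rfl | rfl
          · exact ⟨0, mem_univ _, rfl⟩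
          · exact ⟨1, mem_univ _, rfl⟩
        · rintro ⟨i, -, rfl⟩
          fin_cases i <;> simp
      obtain ⟨M, m, h1, h2⟩ := h.tplF b.oblkP Tpl.path3_reg Tpl.path3_tab (by decide) (by decide)
        rfl (fun c h1 h2 => Tpl.path3_noC c h1 h2) hpp hpi hW
        (fun _ _ => mem_univ _) (fun _ _ _ _ _ _ => mem_univ _) (fun _ _ _ _ _ _ => mem_univ _)
      obtain ⟨d, hd⟩ := sg_of_pat hpp hpi (Tpl.path3_pat _ _ h2)
      exact ⟨d, M, h1, hd⟩
    · exfalso
      have h1 := h.odd A b.hA (Nat.odd_iff.2 hAo) (by omega)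
      have h2 := h.wt.val_compl b.hA
      rw [b.val, h.tau] at h2
      have h4 := val_one G t A
      have h5 : ((G.bd A).card : ℝ) ≤ (1 : ℕ) := by
        have : (G.bd A).card ≤ 1 := by omega
        exact_mod_cast this
      push_cast at h5
      linarith

end X6

end MG

end RH
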