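import Pool.Agent.Lib.RH.CE6P

/-! # The bad pairs (i) and (ii) of `X6.w1`

`X6.hB1`: the inner ends of the exits `i`, `j` coincide. `X6.hB2`: they are the ends of an F-edge, which
lies in no larger even set of value 4 inside `W`. -/

set_option autoImplicit false

namespace RH

open Finset Classical

namespace MG

variable {V D : Type*} {G : MG V D} {t : V → ℝ} {fr : Finset V} {F : Finset D}
variable {jm A W X S Ts : Finset V} {e d dy : D} {T M : Finset D} {k : ℝ}

namespace X6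

/-- **(i)** -/
theorem hB1 [Infinite V] [Infinite D] (h : X6 G t fr F jm) (b : BW G t F A e)
    (s : Stp G t fr A e dy) (h5 : 5 ≤ (G.vs \ A).card) (hA : 2 ≤ A.card)
    (hj : jm ⊆ A) {i j k : D}
    (hbd : G.bd A = {e, i, j, k}) (hnd : [e, i, j, k].Nodup)
    (hij : G.pi (G.al i) = G.pi (G.al j)) :
    G.TIn fr F jm A i ∨ G.CIn t F A e (-1) (-1) := by
  have hn : e ≠ i ∧ e ≠ j ∧ e ≠ k ∧ i ≠ j ∧ i ≠ k ∧ j ≠ k := by
    simp only [List.nodup_cons, List.mem_cons, List.not_mem_nil, or_false, not_or, not_false_iff,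
      List.nodup_nil, and_true] at hnd
    obtain ⟨⟨h1, h2, h3⟩, ⟨h4, h5⟩, h6⟩ := hnd
    exact ⟨h1, h2, h3, h4, h5, h6⟩
  obtain ⟨n1, n2, n3, n4, n5, n6⟩ := hn
  have me : e ∈ G.bd A := b.he
  have mi : i ∈ G.bd A := by rw [hbd]; simp
  have mj : j ∈ G.bd A := by rw [hbd]; simp
  have mk : k ∈ G.bd A := by rw [hbd]; simp
  have ai := bd_al b.hA mi
  have aj := bd_al b.hA mj
  have ak := bd_al b.hA mk
  have ae := bd_al b.hA me
  have ndal : ∀ {x y : D}, x ∈ G.bd A → y ∈ G.bd A → x ≠ y → G.al x ≠ G.al y := by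
    intro x y hx hy hxy k1
    exact hxy ((al_eq (mem_bd.1 hx).1 (mem_bd.1 hy).1).1 k1)
  have hJ := b.hJ h.toEK
  obtain ⟨W, hW⟩ : ∃ W, W = G.vs \ A := ⟨_, rfl⟩
  rw [← hW] at ai aj ak ae hJ h5
  obtain ⟨z0, hz0⟩ : ∃ z0, z0 = G.pi (G.al i) := ⟨_, rfl⟩
  have hz0j : G.pi (G.al j) = z0 := by rw [hz0, hij]
  have hz0i : G.pi (G.al i) = z0 := hz0.symm
  have zW : z0 ∈ W := hz0 ▸ (mem_bd.1 ai).2.1
  have hWv : W ⊆ G.vs := by rw [hW]; exact sdiff_subset
  have hbdW : ∀ x ∈ G.bd W, x = G.al e ∨ x = G.al i ∨ x = G.al j ∨ x = G.al k := by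
    intro x hx
    rw [hW] at hx
    have h1 := bd_al' b.hA hx
    rw [hbd] at h1
    simp only [mem_insert, mem_singleton] at h1
    have h2 := G.al_al x (mem_bd.1 hx).1
    rcases h1 with h1 | h1 | h1 | h1
    · left
      rw [← h1, h2]
    · right; left
      rw [← h1, h2]
    · right; right; left
      rw [← h1, h2]
    · right; right; right
      rw [← h1, h2]
  have zf : z0 ∉ fr := by
    intro k1
    refine ndal mi mj n4 (h.fresh.uniq (mem_bd.1 ai).1 (mem_bd.1 aj).1 hij ?_ (hJ _ ai) (hJ _ aj))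
    rw [hz0i]
    exact k1
  have ez : G.pi (G.al e) ≠ z0 := by
    intro k1
    exact n1 (s.one i mi (by rw [hz0i, k1])).symm
  have hWo : W.card % 2 = 1 := by rw [hW]; exact Nat.odd_iff.1 b.odd
  have hval : G.val one1 t W = 5 := by rw [hW]; exact b.val
  have hce := card_erase_of_mem zW
  have hev := h.evn (W.erase z0) ((erase_subset _ _).trans hWv) (by rw [Nat.even_iff]; omega)
    (card_pos.1 (by omega)) (fun k1 => by
      have : z0 ∈ W.erase z0 := by rw [k1]; exact hWv zW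
      exact (mem_erase.1 this).1 rfl)
  have hve := h.wt.val_erase hWv zW
  have hed : ({G.al i, G.al j} : Finset D) ⊆ G.ed {z0} (G.vs \ W) := by
    intro x hx
    rw [mem_insert, mem_singleton] at hx
    rcases hx with rfl | rfl
    · obtain ⟨k1, k2, k3⟩ := mem_bd.1 ai
      exact mem_ed.2 ⟨k1, mem_singleton.2 hz0i, mem_sdiff.2 ⟨G.pi_mem _ (G.al_mem _ k1), k3⟩⟩
    · obtain ⟨k1, k2, k3⟩ := mem_bd.1 aj
      exact mem_ed.2 ⟨k1, mem_singleton.2 hz0j, mem_sdiff.2 ⟨G.pi_mem _ (G.al_mem _ k1), k3⟩⟩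
  have hedc : 2 ≤ (G.ed {z0} (G.vs \ W)).card := by
    have := card_le_card hed
    rwa [card_pair (ndal mi mj n4)] at this
  have hsum : ∑ d ∈ G.ed {z0} (G.vs \ W), one1 d = ((G.ed {z0} (G.vs \ W)).card : ℝ) := by
    unfold one1
    rw [sum_const, nsmul_eq_mul, mul_one]
  have ht0 := h.t0 z0 (hWv zW)
  have hedc' : (2 : ℝ) ≤ (G.ed {z0} (G.vs \ W)).card := by exact_mod_cast hedc
  rw [hsum, hval] at hve
  have tz : t z0 = 0 := by linarith
  have hedc2 : ((G.ed {z0} (G.vs \ W)).card : ℝ) ≤ ((2 : ℕ) : ℝ) := by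
    push_cast
    linarith
  have hedc3 : (G.ed {z0} (G.vs \ W)).card = 2 := le_antisymm (by exact_mod_cast hedc2) hedc
  have hed2 : G.ed {z0} (G.vs \ W) = {G.al i, G.al j} := by
    symm
    refine eq_of_subset_of_card_le hed ?_
    rw [hedc3, card_pair (ndal mi mj n4)]
  have hval4 : G.val one1 t (W.erase z0) = 4 := by
    rw [hve, hedc3, tz]
    norm_num
  have hexz : ∀ x ∈ G.bd W, G.pi x = z0 → x = G.al i ∨ x = G.al j := by
    intro x hx hxz
    obtain ⟨k1, k2, k3⟩ := mem_bd.1 hx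
    have h1 : x ∈ G.ed {z0} (G.vs \ W) := mem_ed.2 ⟨k1, mem_singleton.2 hxz,
      mem_sdiff.2 ⟨G.pi_mem _ (G.al_mem _ k1), k3⟩⟩
    rw [hed2, mem_insert, mem_singleton] at h1
    exact h1
  have kz : G.pi (G.al k) ≠ z0 := by
    intro k1
    rcases hexz _ ak k1 with h1 | h1
    · exact ndal mk mi n5.symm h1
    · exact ndal mk mj n6.symm h1
  have hins : insert z0 (W.erase z0) = W := insert_erase zW
  have hbA : ∀ x ∈ G.bd W, G.pi x ≠ z0 → x ∈ G.bd (W.erase z0) := by
    intro x hx hxz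
    obtain ⟨k1, k2, k3⟩ := mem_bd.1 hx
    exact mem_bd.2 ⟨k1, mem_erase.2 ⟨hxz, k2⟩, fun k => k3 (mem_erase.1 k).2⟩
  have hpi : Function.Injective ![G.al e, G.al k] := by
    intro x y hxy
    have h0 := ndal me mk n3
    fin_cases x <;> fin_cases y
    · rfl
    · exact absurd (show G.al e = G.al k from hxy) h0
    · exact absurd (show G.al k = G.al e from hxy) h0.symm
    · rfl
  have hpb : ∀ x, ![G.al e, G.al k] x ∈ G.bd (W.erase z0) := by
    intro x
    fin_cases x
    · exact hbA _ ae ez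
    · exact hbA _ ak kz
  have ib : IBlk G t (W.erase z0) 0 := by
    refine ⟨(erase_subset _ _).trans hWv, by omega, ⟨z0, mem_sdiff.2 ⟨hWv zW, fun k =>
      (mem_erase.1 k).1 rfl⟩⟩, ?_⟩
    rw [hval4]
    norm_num
  have hsmall : 2 < (G.vs \ W.erase z0).card := by
    have h1 := card_sdiff_add_card_eq_card b.hA
    have h2 := card_sdiff_add_card_eq_card ib.hA
    rw [← hW] at h1
    omega
  have hjW : Disjoint jm W := by
    rw [disjoint_left]
    intro v hv hvW
    rw [hW] at hvW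
    exact (mem_sdiff.1 hvW).2 (hj hv)
  rcases h.tplI (Ts := ∅) ib Tpl.bb_reg Tpl.bb_tab (by decide) rfl hpb hpi (Or.inr hsmall)
    (Or.inl rfl) (fun v hv => absurd hv (notMem_empty v))
    (fun v hv => ib.one1 h.toEK (by omega) hpb hpi hv)
    (fun _ _ _ _ _ _ => mem_univ _) (fun _ _ _ _ _ _ => mem_univ _) with
    ⟨M, m, h1, h2⟩ | ⟨p, c, h1, h2, -, h3, h4⟩
  · left
    have h3 := h1.addQ h.fresh (notMem_erase _ _) zf (eb := G.al j) (by rwa [hins]) hz0j
      (by
        intro x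
        rw [hins]
        fin_cases x
        · exact ae
        · exact ak) (by rwa [hins]) (fun v hv => absurd hv (notMem_empty v))
    rw [hins] at h3
    have hs : SpI G fr jm W ∅ ∅ := by
      refine ⟨empty_subset _, fun d hd => absurd hd (notMem_empty d), ?_⟩
      by_cases hj0 : jm = ∅
      · exact Or.inl ⟨rfl, rfl, Or.inl hj0⟩
      · refine Or.inl ⟨rfl, rfl, Or.inr fun k1 => hj0 ?_⟩
        rw [eq_empty_iff_forall_notMem]
        intro v hv
        exact disjoint_left.1 hjW hv (k1 hv)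
    have h3' : ISol G fr F jm W ((∅ : Finset D).image G.pi ∪ ∅) (insert (G.al j) M) := by
      rw [image_empty, union_empty]
      exact h3
    obtain ⟨h6, -⟩ := h3'.out h.fresh h.jm2 hJ hs fun d hd => absurd hd (notMem_empty d)
    have hpat := Tpl.bb_pat _ _ h2
    have mE : G.al e ∈ M := by
      have : (0 : Fin 2) ∈ univ.filter fun i => ![G.al e, G.al k] i ∈ M := by
        rw [hpat]
        decide
      exact (mem_filter.1 this).2
    have mK : G.al k ∈ M := by
      have : (1 : Fin 2) ∈ univ.filter fun i => ![G.al e, G.al k] i ∈ M := by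
        rw [hpat]
        decide
      exact (mem_filter.1 this).2
    have mI : G.al i ∉ M := by
      intro k1
      have k2 := (h1.hm.sub _ k1).2
      rw [hz0i] at k2
      exact (mem_erase.1 k2).1 rfl
    subst hW
    refine ⟨_, h6, ai, fun x hx => ?_⟩
    rcases hbdW x hx with rfl | rfl | rfl | rfl
    · exact ⟨fun _ => ndal me mi n1, fun _ => mem_insert_of_mem mE⟩
    · refine ⟨fun k1 => ?_, fun k1 => absurd rfl k1⟩
      rcases mem_insert.1 k1 with k2 | k2
      · exact absurd k2 (ndal mi mj n4)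
      · exact absurd k2 mI
    · exact ⟨fun _ => ndal mj mi n4.symm, fun _ => mem_insert_self _ _⟩
    · exact ⟨fun _ => ndal mk mi n5.symm, fun _ => mem_insert_of_mem mK⟩
  · right
    have c0 : c (Tpl.bb.pt 0) = 1 := h3 0 (by decide)
    have c1 : c (Tpl.bb.pt 1) = 1 := h3 1 (by decide)
    have e0 := h4 0
    have e1 := h4 1
    rw [c0] at e0
    rw [c1] at e1
    change p (G.pi (G.al e)) + 1 = 0 at e0
    change p (G.pi (G.al k)) + 1 = 0 at e1
    have h5 : G.HPot one1 t F (insert z0 (W.erase z0)) (fun v => if v = z0 then -1 else p v) := by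
      refine h1.insert tz (fun d hd hdb => zf (hdb ▸ h.fresh.Ffr d hd)) h.fresh.Fal ?_
        (fun _ _ => rfl)
      intro d hd hdb hdA _
      have k1 : G.al d ∈ G.bd (W.erase z0) := by
        refine mem_bd.2 ⟨G.al_mem d hd, hdA, ?_⟩
        rw [G.al_al d hd, hdb]
        exact notMem_erase _ _
      refine h2 _ ⟨k1, fun x hx => ?_⟩
      have k2 : G.al d ∈ G.bd W := by
        rw [← hx]
        fin_cases x
        · exact ae
        · exact ak
      refine (mem_bd.1 k2).2.2 ?_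
      rw [G.al_al d hd, hdb]
      exact zW
    rw [hins] at h5
    subst hW
    refine ⟨_, h5, by rw [if_neg ez]; linarith, fun x hx hxe => ?_⟩
    rw [hbd] at hx
    simp only [mem_insert, mem_singleton] at hx
    rcases hx with rfl | rfl | rfl | rfl
    · exact absurd rfl hxe
    · rw [if_pos hz0i]
    · rw [if_pos hz0j]
    · rw [if_neg kz]
      linarith

end X6

/-! ### (ii) -/

/-- a vertex is added to a half matching -/
theorem HM.add {c : V} {x : D} (hM : G.HM A M) (hc : c ∉ A) (hx : x ∈ G.ds) (hxc : G.pi x = c)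
    (hx2 : G.pi (G.al x) ∈ A → G.al x ∈ M) (hcl : ∀ d ∈ M, G.pi (G.al d) = c → G.al d = x) :
    G.HM (insert c A) (insert x M) where
  sub := by
    intro d hd
    rcases mem_insert.1 hd with rfl | hd
    · exact ⟨hx, hxc ▸ mem_insert_self _ _⟩
    · exact ⟨(hM.sub d hd).1, mem_insert_of_mem (hM.sub d hd).2⟩
  clo := by
    intro d hd hd2
    rcases mem_insert.1 hd with rfl | hd
    · rcases mem_insert.1 hd2 with h1 | h1
      · exact absurd (h1.trans hxc.symm) (G.noloop d hx)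
      · exact mem_insert_of_mem (hx2 h1)
    · rcases mem_insert.1 hd2 with h1 | h1
      · exact mem_insert.2 (Or.inl (hcl d hd h1))
      · exact mem_insert_of_mem (hM.clo d hd h1)
  one := by
    intro v hv
    rcases mem_insert.1 hv with rfl | hv
    · rw [card_eq_one]
      refine ⟨x, ?_⟩
      ext d
      rw [mem_filter, mem_insert, mem_singleton]
      constructor
      · rintro ⟨rfl | h1, h2⟩
        · rfl
        · exact absurd (h2 ▸ (hM.sub d h1).2) hc
      · rintro rfl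
        exact ⟨Or.inl rfl, hxc⟩
    · rw [← hM.one v hv]
      congr 1
      ext d
      rw [mem_filter, mem_filter, mem_insert]
      constructor
      · rintro ⟨rfl | h1, h2⟩
        · exact absurd (hxc.symm.trans h2 ▸ hv) hc
        · exact ⟨h1, h2⟩
      · rintro ⟨h1, h2⟩
        exact ⟨Or.inr h1, h2⟩

/-- an F-edge `g` of `W` whose ends have the exits `x`, `y`; `hx`, `hy` are the other F-darts -/
structure FZ (G : MG V D) (fr : Finset V) (F : Finset D) (W : Finset V) (x y hx hy g : D) :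
    Prop where
  ax : x ∈ G.bd W
  ay : y ∈ G.bd W
  gF : g ∈ F
  gx : G.pi g = G.pi x
  gy : G.pi (G.al g) = G.pi y
  xF : hx ∈ F
  xx : G.pi hx = G.pi x
  xg : hx ≠ g
  yF : hy ∈ F
  yy : G.pi hy = G.pi y
  yg : hy ≠ G.al g

theorem FZ.symm {x y hx hy g : D} (z : FZ G fr F W x y hx hy g) (hF : G.FrS one1 fr F jm) :
    FZ G fr F W y x hy hx (G.al g) :=
  ⟨z.ay, z.ax, hF.Fal _ z.gF, z.gy, by rw [G.al_al _ (hF.Fsub z.gF)]; exact z.gx, z.yF, z.yy, z.yg,
    z.xF, z.xx, by rw [G.al_al _ (hF.Fsub z.gF)]; exact z.xg⟩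

/-- the lift -/
theorem FZ.lift {n : ℕ} {pp : Fin n → D} {x y hx hy g : D} (z : FZ G fr F W x y hx hy g)
    (hF : G.FrS one1 fr F jm) (hjW : Disjoint jm W)
    (hxy : G.pi (G.al hx) ≠ G.pi y)
    (h : TSol G fr F jm ((W.erase (G.pi x)).erase (G.pi y)) pp ∅ M)
    (hex : ∀ d ∈ M, G.pi (G.al d) = G.pi x ∨ G.pi (G.al d) = G.pi y → d = G.al hx)
    (hhx : G.al hx ∈ M) :
    G.GHalf one1 fr F jm W (insert y (insert hx M)) := by
  obtain ⟨a1, a2, a3⟩ := mem_bd.1 z.ax
  obtain ⟨b1, b2, b3⟩ := mem_bd.1 z.ay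
  have hne : G.pi x ≠ G.pi y := by
    rw [← z.gx, ← z.gy]
    exact fun k => G.noloop g (hF.Fsub z.gF) k.symm
  have gxW : G.pi hx ∈ fr := hF.Ffr _ z.xF
  have hxd := hF.Fsub z.xF
  have m1 : G.HM (insert (G.pi x) ((W.erase (G.pi x)).erase (G.pi y))) (insert hx M) := by
    refine h.hm.add (fun k => (mem_erase.1 (mem_erase.1 k).2).1 rfl) hxd z.xx
      (fun _ => hhx) fun d hd hdx => ?_
    rw [hex d hd (Or.inl hdx), G.al_al _ hxd]
  have e1 : insert (G.pi x) ((W.erase (G.pi x)).erase (G.pi y)) = W.erase (G.pi y) := by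
    rw [erase_right_comm, insert_erase (mem_erase.2 ⟨hne, a2⟩)]
  rw [e1] at m1
  have m2 : G.HM (insert (G.pi y) (W.erase (G.pi y))) (insert y (insert hx M)) := by
    refine m1.add (notMem_erase _ _) b1 rfl (fun k => absurd (mem_erase.1 k).2 b3) ?_
    intro d hd hdy
    rcases mem_insert.1 hd with rfl | hd
    · exact absurd hdy hxy
    · exfalso
      have h2 := hex d hd (Or.inr hdy)
      rw [h2, G.al_al _ hxd, z.xx] at hdy
      exact hne hdy
  rw [insert_erase b2] at m2
  refine ⟨m2, fun _ _ => one_pos, fun X hX hXW hcl => ?_⟩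
  have hxX : G.pi x ∉ X := by
    intro k
    have h2 := hcl x (mem_bd.2 ⟨a1, k, fun k2 => a3 (hXW k2)⟩)
    rcases mem_insert.1 h2 with h3 | h2
    · exact hne (by rw [h3])
    · rcases mem_insert.1 h2 with h3 | h2
      · rw [h3] at a3
        exact a3 (hXW (hX.clo _ z.xF (by rw [z.xx]; exact k)))
      · exact (mem_erase.1 (mem_erase.1 (h.hm.sub _ h2).2).2).1 rfl
  have hyX : G.pi y ∉ X := by
    intro k
    refine hxX ?_
    have h2 := hX.clo _ (hF.Fal _ z.gF) (by rw [z.gy]; exact k)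
    rwa [G.al_al _ (hF.Fsub z.gF), z.gx] at h2
  have hXA : X ⊆ (W.erase (G.pi x)).erase (G.pi y) := fun v hv =>
    mem_erase.2 ⟨fun k => hyX (k ▸ hv), mem_erase.2 ⟨fun k => hxX (k ▸ hv), hXW hv⟩⟩
  have hM' : ∀ d ∈ G.bd X, d ∈ M := by
    intro d hd
    have h2 := (mem_bd.1 hd).2.1
    rcases mem_insert.1 (hcl d hd) with h3 | h3
    · exact absurd (h3 ▸ h2) hyX
    · rcases mem_insert.1 h3 with h4 | h4
      · exact absurd (by rw [← z.xx, ← h4]; exact h2) hxX
      · exact h4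
  have h3 := h.st X hX hXA (fun d hd => Or.inl (hM' d hd)) fun v hv => by
    refine Or.inr ⟨fun k => disjoint_left.1 hjW k (hXW hv), fun d hd hdv => ?_⟩
    exact h.closed hXA hM' hv hd hdv
  refine ⟨h3.1, fun h4 => ?_⟩
  obtain ⟨⟨v, hv⟩, h5⟩ := h4
  exact disjoint_left.1 hjW hv (hXW (h5 hv))

/-- **(ii)** -/
theorem X6.hB2 [Infinite V] [Infinite D] (h : X6 G t fr F jm) (b : BW G t F A e)
    (h5 : 5 ≤ (G.vs \ A).card) (hj : jm ⊆ A) {i j k g : D}
    (hbd : G.bd A = {e, i, j, k}) (hnd : [e, i, j, k].Nodup)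
    (hg : g ∈ F) (hgi : G.pi g = G.pi (G.al i)) (hgj : G.pi (G.al g) = G.pi (G.al j))
    (hmax : ∀ X ⊆ G.vs \ A, Even X.card → G.pi (G.al i) ∈ X → G.pi (G.al j) ∈ X →
      G.val one1 t X = 4 → X = {G.pi (G.al i), G.pi (G.al j)}) :
    G.TIn fr F jm A i ∨ G.TIn fr F jm A j ∨ G.CIn t F A e (-1) (-1) := by
  have hn : e ≠ i ∧ e ≠ j ∧ e ≠ k ∧ i ≠ j ∧ i ≠ k ∧ j ≠ k := by
    simp only [List.nodup_cons, List.mem_cons, List.not_mem_nil, or_false, not_or, not_false_iff,
      List.nodup_nil, and_true] at hnd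
    obtain ⟨⟨h1, h2, h3⟩, ⟨h4, h5⟩, h6⟩ := hnd
    exact ⟨h1, h2, h3, h4, h5, h6⟩
  obtain ⟨n1, n2, n3, n4, n5, n6⟩ := hn
  have hE := h.toEK
  have hF := h.fresh
  have me : e ∈ G.bd A := b.he
  have mi : i ∈ G.bd A := by rw [hbd]; simp
  have mj : j ∈ G.bd A := by rw [hbd]; simp
  have mk : k ∈ G.bd A := by rw [hbd]; simp
  have ai := bd_al b.hA mi
  have aj := bd_al b.hA mj
  have ak := bd_al b.hA mk
  have ae := bd_al b.hA me
  have ndal : ∀ {x y : D}, x ∈ G.bd A → y ∈ G.bd A → x ≠ y → G.al x ≠ G.al y := by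
    intro x y hx hy hxy k1
    exact hxy ((al_eq (mem_bd.1 hx).1 (mem_bd.1 hy).1).1 k1)
  have hJ := b.hJ h.toEK
  have hWo := Nat.odd_iff.1 b.odd
  have hval := b.val
  have hbdW : ∀ x ∈ G.bd (G.vs \ A), x = G.al e ∨ x = G.al i ∨ x = G.al j ∨ x = G.al k := by
    intro x hx
    have h1 := bd_al' b.hA hx
    rw [hbd] at h1
    simp only [mem_insert, mem_singleton] at h1
    have h2 := G.al_al x (mem_bd.1 hx).1
    rcases h1 with h1 | h1 | h1 | h1
    · left
      rw [← h1, h2]
    · right; left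
      rw [← h1, h2]
    · right; right; left
      rw [← h1, h2]
    · right; right; right
      rw [← h1, h2]
  obtain ⟨W, hW⟩ : ∃ W, W = G.vs \ A := ⟨_, rfl⟩
  rw [← hW] at ai aj ak ae hJ h5 hWo hval hbdW hmax
  have hWv : W ⊆ G.vs := by rw [hW]; exact sdiff_subset
  have hjW : Disjoint jm W := by
    rw [disjoint_left]
    intro v hv hvW
    rw [hW] at hvW
    exact (mem_sdiff.1 hvW).2 (hj hv)
  have hWF : ∀ d ∈ F, G.pi d ∈ W → G.pi (G.al d) ∈ W := by
    intro d hd hdW
    rw [hW, mem_sdiff] at hdW ⊢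
    refine ⟨G.pi_mem _ (G.al_mem _ (hF.Fsub hd)), fun k1 => hdW.2 ?_⟩
    have := b.hF _ (hF.Fal d hd) k1
    rwa [G.al_al _ (hF.Fsub hd)] at this
  obtain ⟨ci, hci⟩ : ∃ ci, ci = G.pi (G.al i) := ⟨_, rfl⟩
  obtain ⟨cj, hcj⟩ : ∃ cj, cj = G.pi (G.al j) := ⟨_, rfl⟩
  rw [← hci] at hgi hmax
  rw [← hcj] at hgj hmax
  have gds := hF.Fsub hg
  have cif : ci ∈ fr := hgi ▸ hF.Ffr _ hg
  have cjf : cj ∈ fr := hgj ▸ hF.Ffr _ (hF.Fal _ hg)
  have ciW : ci ∈ W := hci ▸ (mem_bd.1 ai).2.1
  have cjW : cj ∈ W := hcj ▸ (mem_bd.1 aj).2.1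
  have hne : ci ≠ cj := by
    rw [← hgi, ← hgj]
    exact fun k1 => G.noloop g gds k1.symm
  -- the exits at the two vertices
  have hexi : ∀ x ∈ G.bd W, G.pi x = ci → x = G.al i := fun x hx k1 =>
    hF.uniq (mem_bd.1 hx).1 (mem_bd.1 ai).1 (by rw [k1, hci]) (by rw [k1]; exact cif) (hJ x hx)
      (hJ _ ai)
  have hexj : ∀ x ∈ G.bd W, G.pi x = cj → x = G.al j := fun x hx k1 =>
    hF.uniq (mem_bd.1 hx).1 (mem_bd.1 aj).1 (by rw [k1, hcj]) (by rw [k1]; exact cjf) (hJ x hx)
      (hJ _ aj)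
  -- the other F-darts
  have oth : ∀ v ∈ fr, ∀ g' ∈ F, G.pi g' = v → ∃ hi ∈ F, G.pi hi = v ∧ hi ≠ g' := by
    intro v hv g' hg' hgv
    have h1 := hF.two v hv
    have h2 : ((F.filter fun d => G.pi d = v).erase g').card = 1 := by
      rw [card_erase_of_mem (mem_filter.2 ⟨hg', hgv⟩), h1]
    obtain ⟨x, hx⟩ := card_pos.1 (by rw [h2]; norm_num :
      0 < ((F.filter fun d => G.pi d = v).erase g').card)
    obtain ⟨k1, k2⟩ := mem_erase.1 hx
    obtain ⟨k3, k4⟩ := mem_filter.1 k2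
    exact ⟨x, k3, k4, k1⟩
  obtain ⟨hi, hiF, hic, hig⟩ := oth ci cif g hg hgi
  obtain ⟨hjd, hjF, hjc, hjg⟩ := oth cj cjf (G.al g) (hF.Fal _ hg) hgj
  have hid := hF.Fsub hiF
  have hjdd := hF.Fsub hjF
  have xiW : G.pi (G.al hi) ∈ W := hWF hi hiF (hic ▸ ciW)
  have xjW : G.pi (G.al hjd) ∈ W := hWF hjd hjF (hjc ▸ cjW)
  have xici : G.pi (G.al hi) ≠ ci := fun k1 => G.noloop hi hid (k1.trans hic.symm)
  have xjcj : G.pi (G.al hjd) ≠ cj := fun k1 => G.noloop hjd hjdd (k1.trans hjc.symm)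
  have xicj : G.pi (G.al hi) ≠ cj := fun k1 =>
    hig (hE.simple (by norm_num) hid gds (hic.trans hgi.symm) (k1.trans hgj.symm))
  have xjci : G.pi (G.al hjd) ≠ ci := fun k1 =>
    hjg (hE.simple (by norm_num) hjdd (G.al_mem _ gds) (hjc.trans hgj.symm)
      (by rw [G.al_al _ gds, k1, hgi]))
  have xij : G.pi (G.al hi) ≠ G.pi (G.al hjd) := by
    intro k1
    refine hE.no_tri (d := g) (e := hjd) (f := G.al hi) gds hjdd (G.al_mem _ hid) ?_ k1 ?_
    · rw [hjc, hgj]
    · rw [G.al_al _ hid, hgi, hic]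
  -- values
  obtain ⟨Z, hZ⟩ : ∃ Z : Finset V, Z = {ci, cj} := ⟨_, rfl⟩
  have hZc : Z.card = 2 := by rw [hZ, card_pair hne]
  have hZW : Z ⊆ W := by
    rw [hZ]
    intro v hv
    rcases mem_insert.1 hv with rfl | hv
    · exact ciW
    · rw [mem_singleton.1 hv]
      exact cjW
  have WZ : (W.erase ci).erase cj = W \ Z := by
    ext v
    rw [mem_erase, mem_erase, mem_sdiff, hZ, mem_insert, mem_singleton]
    tauto
  have hAv : W ≠ G.vs := fun k1 => (mem_bd.1 ae).2.2 (by
    rw [k1]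
    exact G.pi_mem _ (G.al_mem _ (mem_bd.1 ae).1))
  have vZ : G.val one1 t Z = 4 := by
    have h1 := h.evn Z (hZW.trans hWv) (by rw [hZc]; exact even_two)
      (card_pos.1 (by omega)) (fun k1 => by
        have := card_le_card hZW
        have h3 : W.card ≤ G.vs.card := card_le_card hWv
        rw [← k1] at h3
        omega)
    have h2 := hE.val_eq (hZW.trans hWv)
    have h3 : ({g, G.al g} : Finset D) ⊆ G.ed Z Z := by
      intro d hd
      rw [mem_insert, mem_singleton] at hd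
      rw [mem_ed, hZ]
      rcases hd with rfl | rfl
      · exact ⟨gds, by rw [hgi]; exact mem_insert_self _ _,
          by rw [hgj]; exact mem_insert_of_mem (mem_singleton_self _)⟩
      · exact ⟨G.al_mem _ gds, by rw [hgj]; exact mem_insert_of_mem (mem_singleton_self _),
          by rw [G.al_al _ gds, hgi]; exact mem_insert_self _ _⟩
    have h4 := card_le_card h3
    rw [card_pair (fun k1 => G.noloop g gds (by rw [← k1]))] at h4
    have h5 : (2 : ℝ) ≤ (G.ed Z Z).card := by exact_mod_cast h4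
    rw [hZc] at h2
    push_cast at h2
    linarith
  have tZ : ∑ v ∈ Z, t v = 0 := by
    have h1 : Z ⊆ fr := by
      rw [hZ]
      intro v hv
      rcases mem_insert.1 hv with rfl | hv
      · exact cif
      · rw [mem_singleton.1 hv]
        exact cjf
    rw [hE.sum_tok_fr h1]
    have h2 : Z ∩ jm = ∅ := by
      rw [eq_empty_iff_forall_notMem]
      intro v hv
      exact disjoint_left.1 hjW (mem_inter.1 hv).2 (hZW (mem_inter.1 hv).1)
    rw [h2, card_empty]
    norm_num
  have vA : G.val one1 t (W \ Z) = 5 := by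
    have h1 := h.wt.posimod hWv (hZW.trans hWv)
    have e1 : W ∩ Z = Z := inter_eq_right.2 hZW
    have e2 : W ∪ Z = W := union_eq_left.2 hZW
    have e3 : Z \ W = ∅ := sdiff_eq_empty_iff_subset.2 hZW
    have e4 : G.ed Z (G.vs \ W) = {G.al i, G.al j} := by
      ext d
      rw [mem_ed, mem_sdiff, mem_insert, mem_singleton]
      constructor
      · rintro ⟨k1, k2, -, k3⟩
        have k4 : d ∈ G.bd W := mem_bd.2 ⟨k1, hZW k2, k3⟩
        rw [hZ, mem_insert, mem_singleton] at k2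
        rcases k2 with k2 | k2
        · exact Or.inl (hexi d k4 k2)
        · exact Or.inr (hexj d k4 k2)
      · rintro (rfl | rfl)
        · obtain ⟨k1, k2, k3⟩ := mem_bd.1 ai
          exact ⟨k1, by rw [← hci, hZ]; exact mem_insert_self _ _,
            G.pi_mem _ (G.al_mem _ k1), k3⟩
        · obtain ⟨k1, k2, k3⟩ := mem_bd.1 aj
          exact ⟨k1, by rw [← hcj, hZ]; exact mem_insert_of_mem (mem_singleton_self _),
            G.pi_mem _ (G.al_mem _ k1), k3⟩
    rw [e1, e2, e3, e4, val_empty', tZ, vZ, hval] at h1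
    have h2 : ∑ d ∈ ({G.al i, G.al j} : Finset D), one1 d = 2 := by
      unfold one1
      rw [sum_const, nsmul_eq_mul, mul_one, card_pair (ndal mi mj n4)]
      norm_num
    rw [h2] at h1
    linarith
  have cWZ : (W \ Z).card + 2 = W.card := by
    have := card_sdiff_add_card_eq_card hZW
    omega
  have ib : IBlk G t (W \ Z) 1 := by
    refine ⟨sdiff_subset.trans hWv, by omega, ⟨ci, mem_sdiff.2 ⟨hWv ciW, fun k1 => ?_⟩⟩, ?_⟩
    · refine (mem_sdiff.1 k1).2 ?_
      rw [hZ]
      exact mem_insert_self _ _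
    · rw [vA]
      norm_num
  -- the ports
  have nZ : ∀ v, v ≠ ci → v ≠ cj → v ∉ Z := by
    intro v k1 k2 k3
    rw [hZ, mem_insert, mem_singleton] at k3
    tauto
  have ciZ : ci ∈ Z := by rw [hZ]; exact mem_insert_self _ _
  have cjZ : cj ∈ Z := by rw [hZ]; exact mem_insert_of_mem (mem_singleton_self _)
  have bhi : G.al hi ∈ G.bd (W \ Z) := mem_bd.2 ⟨G.al_mem _ hid,
    mem_sdiff.2 ⟨xiW, nZ _ xici xicj⟩, by
      rw [G.al_al _ hid, hic]
      exact fun k1 => (mem_sdiff.1 k1).2 ciZ⟩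
  have bhj : G.al hjd ∈ G.bd (W \ Z) := mem_bd.2 ⟨G.al_mem _ hjdd,
    mem_sdiff.2 ⟨xjW, nZ _ xjci xjcj⟩, by
      rw [G.al_al _ hjdd, hjc]
      exact fun k1 => (mem_sdiff.1 k1).2 cjZ⟩
  have bex : ∀ x ∈ G.bd W, x ≠ G.al i → x ≠ G.al j → x ∈ G.bd (W \ Z) := by
    intro x hx k1 k2
    obtain ⟨k3, k4, k5⟩ := mem_bd.1 hx
    exact mem_bd.2 ⟨k3, mem_sdiff.2 ⟨k4, nZ _ (fun k6 => k1 (hexi x hx k6))
      (fun k6 => k2 (hexj x hx k6))⟩, fun k6 => k5 (mem_sdiff.1 k6).1⟩
  have be := bex _ ae (ndal me mi n1) (ndal me mj n2)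
  have bk := bex _ ak (ndal mk mi n5.symm) (ndal mk mj n6.symm)
  have q01 : G.al hi ≠ G.al hjd := fun k1 => xij (by rw [k1])
  have q02 : G.al hi ≠ G.al e := fun k1 => hJ _ ae (k1 ▸ hF.Fal _ hiF)
  have q03 : G.al hi ≠ G.al k := fun k1 => hJ _ ak (k1 ▸ hF.Fal _ hiF)
  have q12 : G.al hjd ≠ G.al e := fun k1 => hJ _ ae (k1 ▸ hF.Fal _ hjF)
  have q13 : G.al hjd ≠ G.al k := fun k1 => hJ _ ak (k1 ▸ hF.Fal _ hjF)
  have q23 := ndal me mk n3
  obtain ⟨pp, hpp⟩ : ∃ pp : Fin 4 → D, pp = ![G.al hi, G.al hjd, G.al e, G.al k] := ⟨_, rfl⟩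
  have p0 : pp 0 = G.al hi := by rw [hpp]; rfl
  have p1 : pp 1 = G.al hjd := by rw [hpp]; rfl
  have p2 : pp 2 = G.al e := by rw [hpp]; rfl
  have p3 : pp 3 = G.al k := by rw [hpp]; rfl
  have f4 : ∀ x : Fin 4, x = 0 ∨ x = 1 ∨ x = 2 ∨ x = 3 := by decide
  have hpi : Function.Injective pp := by
    intro x y hxy
    rcases f4 x with rfl | rfl | rfl | rfl <;> rcases f4 y with rfl | rfl | rfl | rfl <;>
      first
      | rfl
      | (exfalso
         simp only [p0, p1, p2, p3] at hxy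
         first
         | exact q01 hxy
         | exact q01 hxy.symm
         | exact q02 hxy
         | exact q02 hxy.symm
         | exact q03 hxy
         | exact q03 hxy.symm
         | exact q12 hxy
         | exact q12 hxy.symm
         | exact q13 hxy
         | exact q13 hxy.symm
         | exact q23 hxy
         | exact q23 hxy.symm)
  have hpb : ∀ x, pp x ∈ G.bd (W \ Z) := by
    intro x
    rcases f4 x with rfl | rfl | rfl | rfl
    · rw [p0]; exact bhi
    · rw [p1]; exact bhj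
    · rw [p2]; exact be
    · rw [p3]; exact bk
  have hsm : (fr ∩ (W \ Z)).card < fr.card := by
    refine card_lt_card ⟨inter_subset_left, fun k1 => ?_⟩
    exact (mem_sdiff.1 (mem_inter.1 (k1 cif)).2).2 ciZ
  rcases h.tplI (Ts := ∅) ib Tpl.abb_reg Tpl.abb_tab (by decide) rfl hpb hpi (Or.inl hsm)
    (Or.inl rfl) (fun v hv => absurd hv (notMem_empty v))
    (fun v _ => by
      rw [mem_filter]
      refine ⟨mem_univ _, ?_⟩
      rintro ⟨k1, k2⟩
      have k3 := mem_singleton.1 (mem_filter.1 k1).2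
      have k4 := mem_singleton.1 (mem_filter.1 k2).2
      rw [p0] at k3
      rw [p1] at k4
      exact xij (k3.trans k4.symm))
    (fun X hX he hXn _ hv4 => by
      rw [mem_filter]
      refine ⟨mem_univ _, ?_⟩
      rintro ⟨k1, k2⟩
      have k3 := (mem_filter.1 k1).2
      have k4 := (mem_filter.1 k2).2
      rw [p0] at k3
      rw [p1] at k4
      have k5 := h.wt.submod (hX.trans (sdiff_subset.trans hWv)) (hZW.trans hWv)
      have e1 : X ∩ Z = ∅ := by
        rw [eq_empty_iff_forall_notMem]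
        intro v hv
        exact (mem_sdiff.1 (hX (mem_inter.1 hv).1)).2 (mem_inter.1 hv).2
      have hd : Disjoint X Z := disjoint_iff_inter_eq_empty.2 e1
      have e2 : X \ Z = X := sdiff_eq_self_of_disjoint hd
      have e3 : Z \ X = Z := sdiff_eq_self_of_disjoint hd.symm
      have e4 : ({G.al hi, G.al hjd} : Finset D) ⊆ G.ed X Z := by
        intro d hd
        rw [mem_insert, mem_singleton] at hd
        rcases hd with rfl | rfl
        · exact mem_ed.2 ⟨G.al_mem _ hid, k3, by rw [G.al_al _ hid, hic]; exact ciZ⟩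
        · exact mem_ed.2 ⟨G.al_mem _ hjdd, k4, by rw [G.al_al _ hjdd, hjc]; exact cjZ⟩
      have e5 := card_le_card e4
      rw [card_pair q01] at e5
      have e6 : (2 : ℝ) ≤ (G.ed X Z).card := by exact_mod_cast e5
      have e7 : ∑ d ∈ G.ed X Z, one1 d = ((G.ed X Z).card : ℝ) := by
        unfold one1
        rw [sum_const, nsmul_eq_mul, mul_one]
      rw [e1, e2, e3, e7, val_empty', hv4, vZ] at k5
      have hXZ : X ∪ Z ⊆ W := union_subset (hX.trans sdiff_subset) hZW
      have hXZe : Even (X ∪ Z).card := by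
        rw [card_union_of_disjoint hd, hZc]
        exact he.add even_two
      have k6 := h.evn (X ∪ Z) (hXZ.trans hWv) hXZe (hXn.mono subset_union_left) (fun k7 =>
        hAv (subset_antisymm hWv (k7 ▸ hXZ)))
      have k7 := hmax (X ∪ Z) hXZ hXZe (mem_union_right _ ciZ) (mem_union_right _ cjZ)
        (by linarith)
      obtain ⟨v, hv⟩ := hXn
      have k8 : v ∈ X ∪ Z := mem_union_left _ hv
      rw [k7, ← hZ] at k8
      exact (mem_sdiff.1 (hX hv)).2 k8)
    (fun _ _ _ _ _ _ => mem_univ _) with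
    ⟨M, m, h1, h2⟩ | ⟨p, c, h1, h2, -, h3, h4⟩
  · have z : FZ G fr F W (G.al i) (G.al j) hi hjd g :=
      ⟨ai, aj, hg, by rw [← hci]; exact hgi, by rw [← hcj]; exact hgj, hiF,
        by rw [← hci]; exact hic, hig, hjF, by rw [← hcj]; exact hjc, hjg⟩
    have m0 : ∀ x, pp x ∈ M ↔ x ∈ univ.filter fun x => pp x ∈ M := fun x => by
      rw [mem_filter]
      exact ⟨fun k => ⟨mem_univ _, k⟩, fun k => k.2⟩
    have a0 := m0 0
    have a1 := m0 1
    have a2 := m0 2
    have a3 := m0 3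
    rw [p0] at a0
    rw [p1] at a1
    rw [p2] at a2
    rw [p3] at a3
    -- used darts into `Z`
    have hexM : ∀ d ∈ M, G.pi (G.al d) = ci ∨ G.pi (G.al d) = cj →
        d = G.al hi ∨ d = G.al hjd := by
      intro d hd hdc
      have k1 := h1.hm.sub d hd
      have k2 : G.pi (G.al d) ∈ Z := by
        rcases hdc with k2 | k2
        · rw [k2]; exact ciZ
        · rw [k2]; exact cjZ
      obtain ⟨x, hx⟩ := h1.ex d (mem_bd.2 ⟨k1.1, k1.2, fun k3 => (mem_sdiff.1 k3).2 k2⟩) hd
      rcases f4 x with rfl | rfl | rfl | rfl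
      · exact Or.inl (hx.symm.trans p0)
      · exact Or.inr (hx.symm.trans p1)
      · exfalso
        rw [← hx, p2] at k2
        exact (mem_bd.1 ae).2.2 (hZW k2)
      · exfalso
        rw [← hx, p3] at k2
        exact (mem_bd.1 ak).2.2 (hZW k2)
    have niM : G.al i ∉ M := fun k1 => by
      have k2 := (h1.hm.sub _ k1).2
      rw [← hci] at k2
      exact (mem_sdiff.1 k2).2 ciZ
    have njM : G.al j ∉ M := fun k1 => by
      have k2 := (h1.hm.sub _ k1).2
      rw [← hcj] at k2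
      exact (mem_sdiff.1 k2).2 cjZ
    have nF : ∀ {x : D}, x ∈ G.bd W → ∀ {y : D}, y ∈ F → x ≠ y := by
      intro x hx y hy k1
      exact hJ x hx (k1 ▸ hy)
    rcases Tpl.abb_pat _ _ h2 with h6 | h6
    · left
      rw [h6] at a0 a1 a2 a3
      have t0 : G.al hi ∈ M := a0.2 (by decide)
      have t1 : G.al hjd ∉ M := fun k1 => absurd (a1.1 k1) (by decide)
      have t2 : G.al e ∈ M := a2.2 (by decide)
      have t3 : G.al k ∈ M := a3.2 (by decide)
      have h7 := z.lift hF hjW (by rw [← hcj]; exact xicj) (pp := pp) (M := M) (by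
        rw [← hci, ← hcj, WZ]
        exact h1) (by
        intro d hd hdc
        rw [← hci, ← hcj] at hdc
        rcases hexM d hd hdc with k1 | k1
        · exact k1
        · exact absurd (k1 ▸ hd) t1) t0
      subst hW
      refine ⟨_, h7, ai, fun x hx => ?_⟩
      rw [mem_insert, mem_insert]
      rcases hbdW x hx with rfl | rfl | rfl | rfl
      · exact ⟨fun _ => ndal me mi n1, fun _ => Or.inr (Or.inr t2)⟩
      · refine ⟨fun k1 => ?_, fun k1 => absurd rfl k1⟩
        rcases k1 with k1 | k1 | k1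
        · exact absurd k1 (ndal mi mj n4)
        · exact absurd k1 (nF ai hiF)
        · exact absurd k1 niM
      · exact ⟨fun _ => ndal mj mi n4.symm, fun _ => Or.inl rfl⟩
      · exact ⟨fun _ => ndal mk mi n5.symm, fun _ => Or.inr (Or.inr t3)⟩
    · right
      left
      rw [h6] at a0 a1 a2 a3
      have t0 : G.al hi ∉ M := fun k1 => absurd (a0.1 k1) (by decide)
      have t1 : G.al hjd ∈ M := a1.2 (by decide)
      have t2 : G.al e ∈ M := a2.2 (by decide)
      have t3 : G.al k ∈ M := a3.2 (by decide)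
      have h7 := (z.symm hF).lift hF hjW (by rw [← hci]; exact xjci) (pp := pp) (M := M) (by
        rw [← hci, ← hcj, erase_right_comm, WZ]
        exact h1) (by
        intro d hd hdc
        rw [← hci, ← hcj] at hdc
        rcases hexM d hd hdc.symm with k1 | k1
        · exact absurd (k1 ▸ hd) t0
        · exact k1) t1
      subst hW
      refine ⟨_, h7, aj, fun x hx => ?_⟩
      rw [mem_insert, mem_insert]
      rcases hbdW x hx with rfl | rfl | rfl | rfl
      · exact ⟨fun _ => ndal me mj n2, fun _ => Or.inr (Or.inr t2)⟩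
      · exact ⟨fun _ => ndal mi mj n4, fun _ => Or.inl rfl⟩
      · refine ⟨fun k1 => ?_, fun k1 => absurd rfl k1⟩
        rcases k1 with k1 | k1 | k1
        · exact absurd k1 (ndal mj mi n4.symm)
        · exact absurd k1 (nF aj hjF)
        · exact absurd k1 njM
      · exact ⟨fun _ => ndal mk mj n6.symm, fun _ => Or.inr (Or.inr t3)⟩
  · right
    right
    have e0 := h4 0
    have e1 := h4 1
    have e2 := h4 2
    have e3 := h4 3
    rw [p0] at e0
    rw [p1] at e1
    rw [p2] at e2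
    rw [p3] at e3
    have c0 : c (Tpl.abb.pt 0) = 1 := h3 0 (by decide)
    have c1 : c (Tpl.abb.pt 1) = 1 := h3 0 (by decide)
    have c2 : c (Tpl.abb.pt 2) = 1 := h3 1 (by decide)
    have c3 : c (Tpl.abb.pt 3) = 1 := h3 2 (by decide)
    rw [c0] at e0
    rw [c1] at e1
    rw [c2] at e2
    rw [c3] at e3
    have hZfr : ∀ v ∈ Z, v ∈ fr := by
      rw [hZ]
      intro v hv
      rcases mem_insert.1 hv with rfl | hv
      · exact cif
      · rw [mem_singleton.1 hv]
        exact cjf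
    -- the darts of `W` at `Z` are in `F`, and their other ends have the value at most 1
    have hdZ : ∀ d ∈ G.ds, G.pi d ∈ Z → G.pi (G.al d) ∈ W → d ∈ F := by
      intro d hd hdz hdw
      by_contra hdF
      rw [hZ, mem_insert, mem_singleton] at hdz
      rcases hdz with hdz | hdz
      · have k1 := hF.uniq hd (mem_bd.1 ai).1 (by rw [hdz, hci]) (by rw [hdz]; exact cif) hdF
          (hJ _ ai)
        exact (mem_bd.1 ai).2.2 (k1 ▸ hdw)
      · have k1 := hF.uniq hd (mem_bd.1 aj).1 (by rw [hdz, hcj]) (by rw [hdz]; exact cjf) hdF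
          (hJ _ aj)
        exact (mem_bd.1 aj).2.2 (k1 ▸ hdw)
    have two : ∀ v ∈ fr, ∀ a ∈ F, ∀ b ∈ F, a ≠ b → G.pi a = v → G.pi b = v → ∀ d ∈ F,
        G.pi d = v → d = a ∨ d = b := by
      intro v hv a ha b hb hab hav hbv d hd hdv
      have k1 := hF.two v hv
      have k2 : ({a, b} : Finset D) ⊆ F.filter fun d => G.pi d = v := by
        intro x hx
        rcases mem_insert.1 hx with rfl | hx
        · exact mem_filter.2 ⟨ha, hav⟩
        · rw [mem_singleton.1 hx]
          exact mem_filter.2 ⟨hb, hbv⟩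
      have k3 := eq_of_subset_of_card_le k2 (by rw [k1, card_pair hab])
      have k4 : d ∈ F.filter fun d => G.pi d = v := mem_filter.2 ⟨hd, hdv⟩
      rw [← k3, mem_insert, mem_singleton] at k4
      exact k4
    have hle : ∀ d ∈ F, G.pi d ∈ Z → (if G.pi (G.al d) ∈ Z then (-1 : ℝ) else p (G.pi (G.al d))) ≤
        1 := by
      intro d hd hdz
      split_ifs with k1
      · norm_num
      · rw [hZ, mem_insert, mem_singleton] at hdz
        rcases hdz with hdz | hdz
        · rcases two ci cif g hg hi hiF hig.symm hgi hic d hd hdz with rfl | rfl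
          · exact absurd (by rw [hgj]; exact cjZ) k1
          · linarith
        · rcases two cj cjf (G.al g) (hF.Fal _ hg) hjd hjF hjg.symm hgj hjc d hd hdz with rfl | rfl
          · exact absurd (by rw [G.al_al _ gds, hgi]; exact ciZ) k1
          · linarith
    have h5 : G.HPot one1 t F W (fun v => if v ∈ Z then -1 else p v) := by
      refine ⟨?_, ?_, ?_⟩
      · intro v hv htv
        by_cases k1 : v ∈ Z
        · exfalso
          apply htv
          rw [hE.tok_fr (hZfr v k1), if_neg fun k2 => disjoint_left.1 hjW k2 hv]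
        · rw [if_neg k1]
          exact h1.tok v (mem_sdiff.2 ⟨hv, k1⟩) htv
      · intro d hd hd1 hd2 hz hdF
        by_cases k1 : G.pi d ∈ Z
        · exact absurd (hdZ d hd k1 hd2) hdF
        · by_cases k2 : G.pi (G.al d) ∈ Z
          · exfalso
            apply hdF
            have k3 := hdZ _ (G.al_mem _ hd) k2 (by rw [G.al_al _ hd]; exact hd1)
            have k4 := hF.Fal _ k3
            rwa [G.al_al _ hd] at k4
          · rw [if_neg k1, if_neg k2]
            exact h1.jq d hd (mem_sdiff.2 ⟨hd1, k1⟩) (mem_sdiff.2 ⟨hd2, k2⟩) hz hdF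
      · intro d hd hd1 hd2
        by_cases k1 : G.pi d ∈ Z
        · have k2 := hle d hd k1
          rw [if_pos k1]
          linarith
        · by_cases k2 : G.pi (G.al d) ∈ Z
          · have k3 := hle _ (hF.Fal _ hd) k2
            rw [G.al_al _ (hF.Fsub hd), if_neg k1] at k3
            rw [if_neg k1, if_pos k2]
            linarith
          · rw [if_neg k1, if_neg k2]
            exact h1.kk d hd (mem_sdiff.2 ⟨hd1, k1⟩) (mem_sdiff.2 ⟨hd2, k2⟩)
    subst hW
    have ne : G.pi (G.al e) ∉ Z := (mem_sdiff.1 (mem_bd.1 be).2.1).2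
    have nk : G.pi (G.al k) ∉ Z := (mem_sdiff.1 (mem_bd.1 bk).2.1).2
    refine ⟨_, h5, by rw [if_neg ne]; linarith, fun x hx hxe => ?_⟩
    rw [hbd] at hx
    simp only [mem_insert, mem_singleton] at hx
    rcases hx with rfl | rfl | rfl | rfl
    · exact absurd rfl hxe
    · rw [if_pos (by rw [← hci]; exact ciZ)]
    · rw [if_pos (by rw [← hcj]; exact cjZ)]
    · rw [if_neg nk]
      linarith

end MG

end RH
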