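import Pool.Agent.Lib.RH.CE6NoBlk
import Pool.Agent.Lib.RH.CE6F3
import Pool.Agent.Lib.RH.CE6F5B
import Pool.Agent.Lib.RH.CE6F0D
import Pool.Agent.Lib.RH.CE6M0R

/-! # THE ROWS WHICH ARE OPEN

`Rest V D`: the rows of `CE6Board` which are not proved; `Rest.rows`; `final_of_rest`. -/

set_option autoImplicit false

namespace RH

open Finset Classical

namespace MG

/-- the open rows -/
structure Rest (V D : Type) [Infinite V] [Infinite D] : Prop where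
  /-- (E0) adjacent tokens: blocking sets (7, 86) -/
  e0b : ∀ {G : MG V D} {t fr F jm}, X6 G t fr F jm → ∀ {a u e : D},
    Ad G (G.pi a) (G.pi (G.al a)) a u e → t (G.pi a) = 1 → t (G.pi (G.al a)) = 1 →
    G.pi a ∉ fr → G.pi (G.al a) ∉ fr → ∀ W ⊆ G.vs, G.pi a ∈ W → G.pi (G.al a) ∈ W →
    G.pi (G.al u) ∈ W → G.pi (G.al e) ∈ W → 4 ≤ W.card →
    ((Odd W.card ∧ G.val one1 t W = 5 ∧
        ((G.vs \ W).card ≠ 1 ∨ W \ {G.pi a, G.pi (G.al a)} ⊆ fr)) ∨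
      (Even W.card ∧ G.val one1 t W = 4 ∧ ∃ v ∈ G.vs \ W, t v ≠ 2)) → False
  /-- (E0) adjacent tokens: even union with six darts (96, 78) -/
  e0v : ∀ {G : MG V D} {t fr F jm}, X6 G t fr F jm → ∀ {a u e : D},
    Ad G (G.pi a) (G.pi (G.al a)) a u e → t (G.pi a) = 1 → t (G.pi (G.al a)) = 1 →
    G.pi a ∉ fr → G.pi (G.al a) ∉ fr → NoE0 G t fr a u e → ∀ X, G.Adm fr F X → Even X.card →
    G.pi (G.al u) ∈ X → G.pi (G.al e) ∈ X → (G.bd X).card + (X ∩ jm).card = 6 → False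
  /-- (H6) pure even sets with six vertices are two-coloured (S3, a token on an odd cycle) -/
  h6 : ∀ {G : MG V D} {t fr F jm}, X6 G t fr F jm → NoAdj G t F → NoBQ G t fr →
    ∀ Y, EvB G t F jm Y → Y.card = 6 → Disjoint Y fr → (G.bd Y).card = 3 →
      ∃ p, G.HPot one1 t F Y p ∧ ∀ v ∈ Y, p v = 1 ∨ p v = -1
  /-- (F0) maximal odd blockers with two or more tokens, crossed by F-darts: only a star vertex
  inside, or (X) an odd outer arc part of value 5 with `b'` (the rest: 80, `Bas.f0x`) -/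
  f0 : ∀ {G : MG V D} {t fr F jm}, Bas G t fr F jm → ∀ {y b a0 u e1 e2},
    RSo G t fr y b a0 u e1 e2 → ∀ {W}, MBlk G t y b u e1 e2 W → ∀ {f g},
    F0D G t F W e1 f g → (¬ Disjoint jm W ∨ ∃ Y, Arc2 G fr F (G.vs \ W) (G.al f) (G.al g) Y ∧
      Odd Y.card ∧ G.pi (G.al e1) ∈ Y ∧ G.val one1 t Y = 5) → False
  /-- (F1) one token, the outer arc is even, not (F4) (43, 25) -/
  f1 : ∀ {G : MG V D} {t fr F jm}, Bas G t fr F jm → ∀ {y b a0 u e1 e2},
    RSo G t fr y b a0 u e1 e2 → ∀ {W}, MBlk G t y b u e1 e2 W → ∑ v ∈ W, t v = 1 →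
    (∀ d ∈ G.bd W, d ∉ F → ¬ (G.pi d ∈ fr ∧ G.pi (G.al d) ∈ fr)) →
    ∀ C, Circ G fr F C → (C ∩ W).Nonempty → (C \ W).Nonempty → Even (C \ W).card → False
  /-- (F2) one token, the outer arc is odd, not (F4) (14, 46, 83) -/
  f2 : ∀ {G : MG V D} {t fr F jm}, Bas G t fr F jm → ∀ {y b a0 u e1 e2},
    RSo G t fr y b a0 u e1 e2 → ∀ {W}, MBlk G t y b u e1 e2 W → ∑ v ∈ W, t v = 1 →
    (∀ d ∈ G.bd W, d ∉ F → ¬ (G.pi d ∈ fr ∧ G.pi (G.al d) ∈ fr)) →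
    ∀ C, Circ G fr F C → (C ∩ W).Nonempty → (C \ W).Nonempty → Odd (C \ W).card → False
  /-- (F4) one token, a J-exit with two fresh ends (35) -/
  f4 : ∀ {G : MG V D} {t fr F jm}, Bas G t fr F jm → ∀ {y b a0 u e1 e2},
    RSo G t fr y b a0 u e1 e2 → ∀ {W}, MBlk G t y b u e1 e2 W → ∑ v ∈ W, t v = 1 →
    FCut G F W → (∃ d ∈ G.bd W, d ∉ F ∧ G.pi d ∈ fr ∧ G.pi (G.al d) ∈ fr) → False
  /-- (C5), pure blockers with five vertices: a token on an odd cycle outside the circuits -/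
  c5 : ∀ {G : MG V D} {t fr F jm}, Bas G t fr F jm → ∀ {y b a0 u e1 e2},
    RSo G t fr y b a0 u e1 e2 → ∀ {W}, MBlk G t y b u e1 e2 W → W.card = 5 →
    Disjoint fr W → False
  /-- (V) EV6-blockers (25, 20, 13, 36) -/
  v : ∀ {G : MG V D} {t fr F jm}, Bas G t fr F jm → NoBlk G t fr → EVC G t fr F jm
  /-- (L) no star, every child has a certificate (55, 79) -/
  l : ∀ {G : MG V D} {t fr F}, Bas G t fr F ∅ → ChC G t fr F ∅ → False
  /-- (P) star and no real step (60, 47) -/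
  p : ∀ {G : MG V D} {t fr F jm}, Bas G t fr F jm → jm.Nonempty →
    (¬ ∃ y b a0 u e1 e2, RStp G t fr y b a0 u e1 e2) → False

variable {V D : Type} [Infinite V] [Infinite D]

/-- **all rows from the open ones** -/
theorem Rest.rows (R : Rest V D) : Rows V D where
  e0b := R.e0b
  e0v := R.e0v
  f3 := fun h hna hbq Y y1 y2 y3 y4 y5 y6 y7 y8 =>
    h.f3 hna (fun Z z1 z2 z3 z4 _ z6 z7 z8 =>
      h.e1a hna (fun Y b k1 k2 k3 => R.h6 h hna hbq Y b k1 k2 k3) z1 z2 (by omega) z4 z6 z8 z7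
        (Or.inl z3)) y1 y2 y3 y4 y5 y6 y7 y8
  h6 := R.h6
  f0 := fun {_ _ _ _ jm} h _ _ _ _ _ _ r W m hc hT => by
    obtain ⟨f, g, q⟩ := Bas.f0d h r.toRStp m hc hT
    by_cases hj : Disjoint jm W
    · exact Bas.f0x h r.toRStp m q hj fun Y y1 y2 y3 y4 =>
        R.f0 h r m q (Or.inr ⟨Y, y1, y2, y3, y4⟩)
    · exact R.f0 h r m q (Or.inl hj)
  f1 := R.f1
  f2 := R.f2
  f4 := R.f4
  f5 := row_f5
  c5 := R.c5
  v := R.v
  l := R.l
  m0 := fun h hj hc hs => Bas.m0 h hj hc hs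
  p := R.p

end MG

/-- **THE FROZEN STATEMENT S11409 FROM THE OPEN ROWS** -/
theorem final_of_rest
    (R : ∀ (V D : Type) [Infinite V] [Infinite D], MG.Rest V D) :
    ∀ (V : Type) [Fintype V] (G : SimpleGraph V),
      (∀ v : V, (G.neighborSet v).ncard = 3) →
      (∀ v w : V, G.Adj v w → (G.deleteEdges {s(v, w)}).Reachable v w) →
      ∃ F₁ F₂ C : SimpleGraph V,
        F₁ ≤ G ∧ F₂ ≤ G ∧ C ≤ G ∧
        (∀ v : V, (F₁.neighborSet v).ncard = 2) ∧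
        (∀ v : V, (F₂.neighborSet v).ncard = 2) ∧
        (∀ v : V, Even ((C.neighborSet v).ncard)) ∧
        F₁ ⊔ F₂ ⊔ C = G :=
  final_of_rows fun V D _ _ => (R V D).rows

end RH
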