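import Pool.Agent.Lib.R5.KTwo
import Pool.Agent.Lib.JK.GluePM
import Pool.Agent.Lib.JK.EvenSub
import Pool.Agent.Lib.JK.OfSG

/-! P* (helper7): pairs of perfect matchings without an odd cut in the intersection, with prescribed
darts at one vertex, glue along 2-cuts and 3-cuts. So it is enough to have them for cubic graphs
without 2-cuts and without nontrivial 3-cuts; and they give the frozen statement S11409. -/

set_option autoImplicit false

namespace R5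

open Finset Classical

namespace K

variable {V D : Type*}

/-- P*: pairs with prescribed darts at one vertex -/
def PS (G : JK.CG V D) : Prop :=
  ∀ x ∈ G.ds, ∀ y ∈ G.ds, G.pi x = G.pi y → ∃ J N, Pair G J N ∧ x ∈ J ∧ y ∈ N

/-- one matching dart at a vertex -/
lemma ps_uniq {G : JK.CG V D} {M : Finset D} (hM : G.IsPM M) {x y : D} (hx : x ∈ M) (hy : y ∈ M)
    (h : G.pi x = G.pi y) : x = y := by
  have h1 := hM.one (G.pi x) (G.pi_mem x (hM.sub hx))
  exact card_le_one.1 h1.le x (mem_filter.2 ⟨hx, rfl⟩) y (mem_filter.2 ⟨hy, h.symm⟩)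

/-- another dart at the vertex of `h` -/
lemma ps_other {G : JK.CG V D} {h : D} (hh : h ∈ G.ds) :
    ∃ h' ∈ G.ds, G.pi h' = G.pi h ∧ h' ≠ h := by
  have h1 := G.cubic (G.pi h) (G.pi_mem h hh)
  have hm : h ∈ G.ds.filter fun d => G.pi d = G.pi h := mem_filter.2 ⟨hh, rfl⟩
  have h2 : 0 < ((G.ds.filter fun d => G.pi d = G.pi h).erase h).card := by
    rw [card_erase_of_mem hm, h1]
    norm_num
  obtain ⟨h', h3⟩ := card_pos.1 h2
  obtain ⟨h4, h5⟩ := mem_erase.1 h3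
  exact ⟨h', (mem_filter.1 h5).1, (mem_filter.1 h5).2, h4⟩

/-- P* gives P4 -/
theorem PS.p4 {G : JK.CG V D} (hP : PS G) : P4 G := by
  intro h hh a b
  obtain ⟨h', m', p', n'⟩ := ps_other hh
  have key : ∀ (c : Prop), ∃ x ∈ G.ds, G.pi x = G.pi h ∧
      ∀ M, G.IsPM M → x ∈ M → (h ∈ M ↔ c) := by
    intro c
    by_cases hc : c
    · exact ⟨h, hh, rfl, fun M _ hx => ⟨fun _ => hc, fun _ => hx⟩⟩
    · refine ⟨h', m', p', fun M hM hx => ⟨fun h1 => ?_, fun h1 => absurd h1 hc⟩⟩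
      exact absurd (ps_uniq hM hx h1 p') n'
  obtain ⟨x, hx, px, kx⟩ := key a
  obtain ⟨y, hy, py, ky⟩ := key b
  obtain ⟨J, N, hJN, h1, h2⟩ := hP x hx y hy (px.trans py.symm)
  exact ⟨J, N, hJN, kx J hJN.j h1, ky N hJN.n h2⟩

/-! ### 3-cuts -/

/-- the matching dart of the contraction vertex -/
lemma ps_one {G : JK.CG V D} {X : Finset V} {z : V} (h : G.CD X z ∅) {M : Finset D}
    (hM : h.con.IsPM M) : ∃ p ∈ G.bd X, ∀ d ∈ G.bd X, (d ∈ M ↔ d = p) := by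
  obtain ⟨g, hg⟩ := card_eq_one.1 (hM.one z (by rw [h.con_vs]; exact mem_insert_self _ _))
  have hg1 : g ∈ M.filter fun d => h.con.pi d = z := by rw [hg]; exact mem_singleton_self g
  obtain ⟨gM, gz⟩ := mem_filter.1 hg1
  have gX : G.pi g ∉ X := fun k => by
    rw [h.con_pi_mem k] at gz
    exact h.zX (gz ▸ k)
  obtain ⟨gds, g2, -, g4⟩ := h.gp_pm_mem hM gM
  have g3 : G.pi (G.al g) ∈ X := g2.resolve_left gX
  have gal : G.al (G.al g) = g := G.al_al g gds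
  have gbd : G.al g ∈ G.bd X := (G.mem_bd).2 ⟨G.al_mem g gds, g3, by rw [gal]; exact gX⟩
  refine ⟨G.al g, gbd, fun d hd => ⟨fun k => ?_, fun k => by rw [k]; exact g4⟩⟩
  rw [G.mem_bd] at hd
  have h5 := (h.gp_pm_mem hM k).2.2.2
  have h6 : G.al d ∈ M.filter fun d => h.con.pi d = z :=
    mem_filter.2 ⟨h5, h.con_pi_not hd.2.2⟩
  rw [hg, mem_singleton] at h6
  rw [← h6, G.al_al d hd.1]

/-- three edges -/
lemma ps_comb {B S O : Finset D} {p q d e : D} (hB : B.card = 3) (hp : p ∈ B) (hq : q ∈ B)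
    (hS : S ⊆ B) (hO : O ⊆ B) (hSO : Disjoint S O) (E1 : Even (S.erase p).card)
    (E2 : Even (S.erase q).card) (hd : d ∈ S) (hdp : d ≠ p) (he : e ∈ O)
    (hne : ¬ (e = p ∧ e = q)) : False := by
  have h1 : (S.erase p) ⊆ (B.erase p) := erase_subset_erase p hS
  have h2 : (B.erase p).card = 2 := by rw [card_erase_of_mem hp, hB]
  have h3 : 0 < (S.erase p).card := card_pos.2 ⟨d, mem_erase.2 ⟨hdp, hd⟩⟩
  have h4 : (S.erase p) = (B.erase p) := by
    refine eq_of_subset_of_card_le h1 ?_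
    obtain ⟨k, hk⟩ := E1
    omega
  have heS : e ∉ S := fun k => disjoint_left.1 hSO k he
  have hep : e = p := by
    by_contra k
    have h5 : e ∈ B.erase p := mem_erase.2 ⟨k, hO he⟩
    rw [← h4] at h5
    exact heS (mem_erase.1 h5).2
  have heq : e ≠ q := fun k => hne ⟨hep, k⟩
  have hpS : p ∉ S := hep ▸ heS
  rw [erase_eq_of_notMem hpS] at h4
  have hqS : q ∈ S := by
    rw [h4]
    exact mem_erase.2 ⟨fun k => heq (hep.trans k.symm), hq⟩
  rw [card_erase_of_mem hqS, h4, h2] at E2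
  exact absurd E2 (by decide)

/-- an odd set whose boundary is in both matchings, with all inner cut edges in both -/
lemma ps_three_a {G : JK.CG V D} {X : Finset V} {z z2 : V} (h1 : G.CD X z ∅)
    (h2 : G.CD (G.vs \ X) z2 ∅) {J1 N1 J2 N2 : Finset D} (P1 : Pair h1.con J1 N1)
    (P2 : Pair h2.con J2 N2) (hJ : ∀ d ∈ G.bd X, (d ∈ J1 ↔ d ∈ J2))
    (hN : ∀ d ∈ G.bd X, (d ∈ N1 ↔ d ∈ N2)) {Z : Finset V} (hZ : Z ⊆ G.vs) (ho : Odd Z.card)
    (hall : ∀ d ∈ G.bd Z, d ∈ J1 ∪ J2 ∧ d ∈ N1 ∪ N2)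
    (hS : ∀ d ∈ G.bd X, G.pi d ∈ Z → G.pi (G.al d) ∈ Z → d ∈ J1 ∪ J2 ∧ d ∈ N1 ∪ N2) : False := by
  obtain ⟨jpm, j1, j2⟩ := JK.CG.glue_pm h1 h2 P1.j P2.j hJ
  obtain ⟨npm, n1, n2⟩ := JK.CG.glue_pm h1 h2 P1.n P2.n hN
  have hc : (Z ∩ X).card + (Z \ X).card = Z.card := card_inter_add_card_sdiff Z X
  by_cases k1 : Odd (Z ∩ X).card
  · obtain ⟨d, hd, hn⟩ := P1.odd (Z ∩ X) (inter_subset_right.trans (subset_insert _ _)) k1
    rw [h1.bd_sub inter_subset_right, G.mem_bd, mem_inter, mem_inter] at hd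
    obtain ⟨a1, ⟨a2, a3⟩, a4⟩ := hd
    have a5 : d ∈ J1 ∪ J2 ∧ d ∈ N1 ∪ N2 := by
      by_cases a6 : G.pi (G.al d) ∈ Z
      · exact hS d ((G.mem_bd).2 ⟨a1, a3, fun k => a4 ⟨a6, k⟩⟩) a2 a6
      · exact hall d ((G.mem_bd).2 ⟨a1, a2, a6⟩)
    exact hn ⟨(j1 d a1 (Or.inl a3)).1 a5.1, (n1 d a1 (Or.inl a3)).1 a5.2⟩
  · have k2 : Odd (Z \ X).card := by
      rw [← hc, Nat.odd_add'] at ho
      exact ho.2 (Nat.not_odd_iff_even.1 k1)
    have k3 : Z \ X ⊆ G.vs \ X := fun v hv =>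
      mem_sdiff.2 ⟨hZ (mem_sdiff.1 hv).1, (mem_sdiff.1 hv).2⟩
    obtain ⟨d, hd, hn⟩ := P2.odd (Z \ X) (k3.trans (subset_insert _ _)) k2
    rw [h2.bd_sub k3, G.mem_bd, mem_sdiff, mem_sdiff] at hd
    obtain ⟨a1, ⟨a2, a3⟩, a4⟩ := hd
    have gal : G.al (G.al d) = d := G.al_al d a1
    have a5 : d ∈ J1 ∪ J2 ∧ d ∈ N1 ∪ N2 := by
      by_cases a6 : G.pi (G.al d) ∈ Z
      · have a7 : G.pi (G.al d) ∈ X := by
          by_contra k
          exact a4 ⟨a6, k⟩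
        have a8 := hS (G.al d) ((G.mem_bd).2 ⟨G.al_mem d a1, a7, by rw [gal]; exact a3⟩) a6
          (by rw [gal]; exact a2)
        have a9 := jpm.closed _ a8.1
        have b9 := npm.closed _ a8.2
        rw [gal] at a9 b9
        exact ⟨a9, b9⟩
      · exact hall d ((G.mem_bd).2 ⟨a1, a2, a6⟩)
    exact hn ⟨(j2 d a1 (Or.inl a3)).1 a5.1, (n2 d a1 (Or.inl a3)).1 a5.2⟩

/-- the inner edges of the cut: parity -/
lemma ps_par {G : JK.CG V D} (ht : G.tk G.vs = ∅) {X Z : Finset V} (hZ : Z ⊆ G.vs)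
    {M : Finset D} (hM : G.IsPM M) (hall : ∀ d ∈ G.bd Z, d ∈ M) {p : D}
    (hp : ∀ d ∈ G.bd X, (d ∈ M ↔ d = p)) :
    Even (((G.bd X).filter fun d => G.pi d ∈ Z ∧ G.pi (G.al d) ∈ Z).erase p).card := by
  have h1 := hM.even_compl (inter_subset_left.trans hZ : Z ∩ X ⊆ G.vs)
    (JK.CG.tk_eq_empty ht (Z ∩ X))
  have h2 : ((G.bd (Z ∩ X)).filter fun d => d ∉ M) =
      ((G.bd X).filter fun d => G.pi d ∈ Z ∧ G.pi (G.al d) ∈ Z).erase p := by
    ext d
    rw [mem_filter, mem_erase, mem_filter, G.mem_bd, G.mem_bd, mem_inter, mem_inter]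
    constructor
    · rintro ⟨⟨a1, ⟨a2, a3⟩, a4⟩, a5⟩
      have a6 : G.pi (G.al d) ∈ Z := by
        by_contra k
        exact a5 (hall d ((G.mem_bd).2 ⟨a1, a2, k⟩))
      have a7 : G.pi (G.al d) ∉ X := fun k => a4 ⟨a6, k⟩
      exact ⟨fun k => a5 ((hp d ((G.mem_bd).2 ⟨a1, a3, a7⟩)).2 k), ⟨a1, a3, a7⟩, a2, a6⟩
    · rintro ⟨a0, ⟨a1, a3, a7⟩, a2, a6⟩
      exact ⟨⟨a1, ⟨a2, a3⟩, fun k => a7 k.2⟩,
        fun k => a0 ((hp d ((G.mem_bd).2 ⟨a1, a3, a7⟩)).1 k)⟩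
  rwa [h2] at h1

/-- gluing along a 3-cut -/
lemma ps_three {G : JK.CG V D} (hev : Even G.vs.card) (ht : G.tk G.vs = ∅) {X : Finset V}
    {z z2 : V} (hX3 : (G.bd X).card = 3) (h1 : G.CD X z ∅) (h2 : G.CD (G.vs \ X) z2 ∅)
    (I1 : PS h1.con) (I2 : PS h2.con) {x y : D} (hx : x ∈ G.ds) (hy : y ∈ G.ds)
    (hxX : G.pi x ∈ X) (hxy : G.pi x = G.pi y) : ∃ J N, Pair G J N ∧ x ∈ J ∧ y ∈ N := by
  have hyX : G.pi y ∈ X := hxy ▸ hxX
  obtain ⟨J1, N1, P1, xJ, yN⟩ := I1 x (h1.mem_con_ds.2 (Or.inl ⟨hx, Or.inl hxX⟩)) y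
    (h1.mem_con_ds.2 (Or.inl ⟨hy, Or.inl hyX⟩)) (by
      rw [h1.con_pi_mem hxX, h1.con_pi_mem hyX, hxy])
  obtain ⟨p, pX, hp⟩ := ps_one h1 P1.j
  obtain ⟨q, qX, hq⟩ := ps_one h1 P1.n
  have hz2 : ∀ d ∈ G.bd X, d ∈ h2.con.ds ∧ h2.con.pi d = z2 := by
    intro d hd
    rw [G.mem_bd] at hd
    refine ⟨h2.mem_con_ds.2 (Or.inl ⟨hd.1, Or.inr ?_⟩), h2.con_pi_not fun k =>
      (mem_sdiff.1 k).2 hd.2.1⟩
    exact mem_sdiff.2 ⟨G.pi_mem _ (G.al_mem d hd.1), hd.2.2⟩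
  obtain ⟨J2, N2, P2, pJ, qN⟩ := I2 p (hz2 p pX).1 q (hz2 q qX).1
    ((hz2 p pX).2.trans (hz2 q qX).2.symm)
  have hJ : ∀ d ∈ G.bd X, (d ∈ J1 ↔ d ∈ J2) := by
    intro d hd
    rw [hp d hd]
    constructor
    · rintro rfl
      exact pJ
    · intro k
      exact ps_uniq P2.j k pJ ((hz2 d hd).2.trans (hz2 p pX).2.symm)
  have hN : ∀ d ∈ G.bd X, (d ∈ N1 ↔ d ∈ N2) := by
    intro d hd
    rw [hq d hd]
    constructor
    · rintro rfl
      exact qN
    · intro k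
      exact ps_uniq P2.n k qN ((hz2 d hd).2.trans (hz2 q qX).2.symm)
  obtain ⟨jpm, j1, j2⟩ := JK.CG.glue_pm h1 h2 P1.j P2.j hJ
  obtain ⟨npm, n1, n2⟩ := JK.CG.glue_pm h1 h2 P1.n P2.n hN
  have hpJ : ∀ d ∈ G.bd X, (d ∈ J1 ∪ J2 ↔ d = p) := fun d hd => by
    rw [j1 d ((G.mem_bd).1 hd).1 (Or.inl ((G.mem_bd).1 hd).2.1), hp d hd]
  have hqN : ∀ d ∈ G.bd X, (d ∈ N1 ∪ N2 ↔ d = q) := fun d hd => by
    rw [n1 d ((G.mem_bd).1 hd).1 (Or.inl ((G.mem_bd).1 hd).2.1), hq d hd]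
  refine ⟨J1 ∪ J2, N1 ∪ N2, ⟨jpm, npm, ?_⟩, mem_union_left _ xJ, mem_union_left _ yN⟩
  intro Z hZ ho
  by_contra hcon
  push Not at hcon
  have E1 := ps_par (X := X) ht hZ jpm (fun d hd => (hcon d hd).1) hpJ
  have E2 := ps_par (X := X) ht hZ npm (fun d hd => (hcon d hd).2) hqN
  set S := (G.bd X).filter fun d => G.pi d ∈ Z ∧ G.pi (G.al d) ∈ Z with hSdef
  set O := (G.bd X).filter fun d => G.pi d ∉ Z ∧ G.pi (G.al d) ∉ Z with hOdef
  have hSO : Disjoint S O := by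
    rw [disjoint_left]
    intro d k1 k2
    exact (mem_filter.1 k2).2.1 (mem_filter.1 k1).2.1
  have main : (∀ d ∈ S, d = p ∧ d = q) ∨ (∀ d ∈ O, d = p ∧ d = q) := by
    by_contra hc
    rw [not_or] at hc
    obtain ⟨c1, c2⟩ := hc
    push Not at c1 c2
    obtain ⟨d, hd, hd'⟩ := c1
    obtain ⟨e, he, he'⟩ := c2
    by_cases hdp : d = p
    · exact ps_comb hX3 qX pX (filter_subset _ _) (filter_subset _ _) hSO E2 E1 hd (hd' hdp) he
        fun k => he' k.2 k.1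
    · exact ps_comb hX3 pX qX (filter_subset _ _) (filter_subset _ _) hSO E1 E2 hd hdp he
        fun k => he' k.1 k.2
  rcases main with hm | hm
  · refine ps_three_a h1 h2 P1 P2 hJ hN hZ ho hcon ?_
    intro d hd k1 k2
    have k3 := hm d (mem_filter.2 ⟨hd, k1, k2⟩)
    exact ⟨(hpJ d hd).2 k3.1, (hqN d hd).2 k3.2⟩
  · refine ps_three_a h1 h2 P1 P2 hJ hN (sdiff_subset : G.vs \ Z ⊆ G.vs) ?_ ?_ ?_
    · have h3 := card_sdiff_add_card_eq_card hZ
      rw [← h3, Nat.even_add'] at hev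
      exact hev.2 ho
    · intro d hd
      rw [G.mem_bd, mem_sdiff, mem_sdiff] at hd
      obtain ⟨a1, ⟨a2, a3⟩, a4⟩ := hd
      have gal : G.al (G.al d) = d := G.al_al d a1
      have a5 : G.pi (G.al d) ∈ Z := by
        by_contra k
        exact a4 ⟨G.pi_mem _ (G.al_mem d a1), k⟩
      have a6 := hcon (G.al d) ((G.mem_bd).2 ⟨G.al_mem d a1, a5, by rw [gal]; exact a3⟩)
      have a7 := jpm.closed _ a6.1
      have a8 := npm.closed _ a6.2
      rw [gal] at a7 a8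
      exact ⟨a7, a8⟩
    · intro d hd k1 k2
      have k3 := hm d (mem_filter.2 ⟨hd, (mem_sdiff.1 k1).2, (mem_sdiff.1 k2).2⟩)
      exact ⟨(hpJ d hd).2 k3.1, (hqN d hd).2 k3.2⟩

/-- a side of a 3-cut is again in the class, and smaller -/
lemma ps_con {G : JK.CG V D} (ht : G.tk G.vs = ∅) (hb : G.B0) {X : Finset V} {z : V}
    (h : G.CD X z ∅) (ho : Odd X.card) :
    Even h.con.vs.card ∧ h.con.tk h.con.vs = ∅ ∧ h.con.B0 := by
  refine ⟨?_, ?_, ?_⟩
  · rw [h.vs_card]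
    exact ho.add_one
  · rw [← card_eq_zero, h.tk_vs, JK.CG.tk_eq_empty ht X]
    rfl
  · refine h.b0_eq hb ho ?_
    rw [JK.CG.tk_eq_empty ht X]

/-! ### 2-cuts -/

/-- the case of a 2-cut, darts in `R` -/
lemma ps_two {G : JK.CG V D} (hev : Even G.vs.card) (ht : G.tk G.vs = ∅) (hb : G.B0)
    (ih : ∀ G' : JK.CG V D, G'.vs.card < G.vs.card → Even G'.vs.card → G'.tk G'.vs = ∅ → G'.B0 →
      PS G') {R : Finset V} {p q : D} (h : G.RJ R p q) (he : Even R.card)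
    (hl : R.card < G.vs.card) (hl' : (G.vs \ R).card < G.vs.card) {x y : D} (hx : x ∈ G.ds)
    (hy : y ∈ G.ds) (hxR : G.pi x ∈ R) (hxy : G.pi x = G.pi y) :
    ∃ J N, Pair G J N ∧ x ∈ J ∧ y ∈ N := by
  have hyR : G.pi y ∈ R := hxy ▸ hxR
  have heR' : Even (G.vs \ R).card := by
    have h2 := card_sdiff_add_card_eq_card h.sub
    rw [← h2, Nat.even_add] at hev
    exact hev.2 he
  obtain ⟨g1, g2, g3⟩ := ktwo_gr ht hb h he
  obtain ⟨k1, k2, k3⟩ := ktwo_gr ht hb h.compl heR'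
  obtain ⟨J1, N1, hP1, ha, hbb⟩ := ih h.gr hl g1 g2 g3 x ((h.mem_gr_ds).2 ⟨hx, hxR⟩) y
    ((h.mem_gr_ds).2 ⟨hy, hyR⟩) hxy
  obtain ⟨J2, N2, hP2, hc, hd⟩ := (ih h.compl.gr hl' k1 k2 k3).p4 (G.al p)
    ((h.compl.mem_gr_ds).2 ⟨h.compl.mp.1, h.compl.mp.2.1⟩) (p ∈ J1) (p ∈ N1)
  have s1 : ∀ M, h.gr.IsPM M → ∀ d ∈ M, G.pi d ∈ R := fun M hM d hd =>
    ((h.mem_gr_ds).1 (hM.sub hd)).2
  have s2 : ∀ M, h.compl.gr.IsPM M → ∀ d ∈ M, G.pi d ∉ R := fun M hM d hd =>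
    (mem_sdiff.1 ((h.compl.mem_gr_ds).1 (hM.sub hd)).2).2
  refine ⟨J2 ∪ J1, N2 ∪ N1, ktwo_glue (X := R) (ktwo_pm h hP1.j hP2.j hc)
    (ktwo_pm h hP1.n hP2.n hd) (s1 _ hP1.j) (s1 _ hP1.n) (s2 _ hP2.j) (s2 _ hP2.n) ?_ ?_,
    mem_union_right _ ha, mem_union_right _ hbb⟩
  · intro Z hZ ho
    exact ktwo_side ht h hP1 hZ ho
  · intro Z hZ ho
    exact ktwo_side ht h.compl hP2 hZ ho

/-- the case of a 0-cut, darts in `X` -/
lemma ps_zero {G : JK.CG V D} (hev : Even G.vs.card) (ht : G.tk G.vs = ∅) (hb : G.B0)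
    (ih : ∀ G' : JK.CG V D, G'.vs.card < G.vs.card → Even G'.vs.card → G'.tk G'.vs = ∅ → G'.B0 →
      PS G') {X : Finset V} (hX : X ⊆ G.vs) (h0 : G.bd X = ∅) (he : Even X.card)
    (hl : X.card < G.vs.card) (hn : (G.vs \ X).Nonempty) (hl' : (G.vs \ X).card < G.vs.card)
    {x y : D} (hx : x ∈ G.ds) (hy : y ∈ G.ds) (hxX : G.pi x ∈ X) (hxy : G.pi x = G.pi y) :
    ∃ J N, Pair G J N ∧ x ∈ J ∧ y ∈ N := by
  have hyX : G.pi y ∈ X := hxy ▸ hxX
  have heX' : Even (G.vs \ X).card := by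
    have h2 := card_sdiff_add_card_eq_card hX
    rw [← h2, Nat.even_add] at hev
    exact hev.2 he
  have h0' : G.bd (G.vs \ X) = ∅ := by
    rw [G.bd_compl_eq hX, h0, image_empty]
  have gen : ∀ (Y : Finset V) (hY : Y ⊆ G.vs) (h1 : G.bd Y = ∅), Even Y.card →
      Y.card < G.vs.card → PS (kres G Y hY h1) := by
    intro Y hY h1 h2 h3
    have hbd : ∀ U ⊆ Y, (kres G Y hY h1).bd U = G.bd U := by
      intro U hU
      ext d
      rw [JK.CG.mem_bd, JK.CG.mem_bd]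
      show d ∈ G.ds.filter (fun d => G.pi d ∈ Y) ∧ G.pi d ∈ U ∧ G.pi (G.al d) ∉ U ↔ _
      rw [mem_filter]
      exact ⟨fun h4 => ⟨h4.1.1, h4.2.1, h4.2.2⟩, fun h4 => ⟨⟨h4.1, hU h4.2.1⟩, h4.2.1, h4.2.2⟩⟩
    have htk : ∀ U, (kres G Y hY h1).tk U = ∅ := by
      intro U
      rw [eq_empty_iff_forall_notMem]
      intro d hd
      rw [JK.CG.mem_tk] at hd
      have h4 : d ∈ G.tk G.vs := (G.mem_tk).2
        ⟨(mem_filter.1 hd.1).1, G.pi_mem d (mem_filter.1 hd.1).1, hd.2.2⟩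
      rw [ht] at h4
      exact absurd h4 (notMem_empty _)
    refine ih _ h3 h2 (htk _) ?_
    intro U hU ho
    unfold JK.CG.dg
    rw [htk, hbd U hU, card_empty, add_zero, ← JK.CG.dg_eq_bd ht]
    exact hb U (hU.trans hY) ho
  have side : ∀ (Y : Finset V) (hY : Y ⊆ G.vs) (h1 : G.bd Y = ∅) (J N : Finset D),
      Pair (kres G Y hY h1) J N → ∀ Z ⊆ Y, Odd Z.card →
      ∃ d ∈ G.bd Z, G.pi (G.al d) ∈ Y ∧ ¬ (d ∈ J ∧ d ∈ N) := by
    intro Y hY h1 J N hP Z hZ ho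
    obtain ⟨d, hd, hn⟩ := hP.odd Z hZ ho
    rw [JK.CG.mem_bd] at hd
    have hd1 := mem_filter.1 hd.1
    refine ⟨d, (G.mem_bd).2 ⟨hd1.1, hd.2.1, hd.2.2⟩, ?_, hn⟩
    by_contra hc
    have h2 : d ∈ G.bd Y := (G.mem_bd).2 ⟨hd1.1, hd1.2, hc⟩
    rw [h1] at h2
    exact absurd h2 (notMem_empty _)
  obtain ⟨J1, N1, hP1, ha, hbb⟩ := gen X hX h0 he hl x (mem_filter.2 ⟨hx, hxX⟩) y
    (mem_filter.2 ⟨hy, hyX⟩) hxy
  obtain ⟨v, hv⟩ := hn
  have hvd : ∃ y, y ∈ G.ds ∧ G.pi y = v := by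
    have h1 := G.cubic v (mem_sdiff.1 hv).1
    have h2 : (G.ds.filter fun d => G.pi d = v).Nonempty := by
      rw [← card_pos, h1]
      norm_num
    obtain ⟨y, hy⟩ := h2
    exact ⟨y, (mem_filter.1 hy).1, (mem_filter.1 hy).2⟩
  obtain ⟨w, hw, hwv⟩ := hvd
  have hwm : w ∈ (kres G (G.vs \ X) sdiff_subset h0').ds :=
    mem_filter.2 ⟨hw, by rw [hwv]; exact hv⟩
  obtain ⟨J2, N2, hP2, -, -⟩ := gen (G.vs \ X) sdiff_subset h0' heX' hl' w hwm w hwm rfl
  have s1 : ∀ M, (kres G X hX h0).IsPM M → ∀ d ∈ M, d ∈ G.ds ∧ G.pi d ∈ X := fun M hM d hd =>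
    mem_filter.1 (hM.sub hd)
  have s2 : ∀ M, (kres G (G.vs \ X) sdiff_subset h0').IsPM M → ∀ d ∈ M,
      d ∈ G.ds ∧ G.pi d ∉ X := fun M hM d hd =>
    ⟨(mem_filter.1 (hM.sub hd)).1, (mem_sdiff.1 (mem_filter.1 (hM.sub hd)).2).2⟩
  have pm : ∀ M1 M2, (kres G X hX h0).IsPM M1 →
      (kres G (G.vs \ X) sdiff_subset h0').IsPM M2 → G.IsPM (M2 ∪ M1) := by
    intro M1 M2 h1 h2
    apply JK.CG.pm_sides (X := X) (s2 M2 h2) (s1 M1 h1)
    · exact fun d hd => mem_union_left _ (h2.closed d hd)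
    · exact fun d hd => mem_union_right _ (h1.closed d hd)
    · exact fun d hd => h2.notok d hd
    · exact fun d hd => h1.notok d hd
    · intro v hv hvX
      exact h2.one v (mem_sdiff.2 ⟨hv, hvX⟩)
    · intro v _ hvX
      exact h1.one v hvX
  exact ⟨J2 ∪ J1, N2 ∪ N1, ktwo_glue (X := X) (pm _ _ hP1.j hP2.j) (pm _ _ hP1.n hP2.n)
    (fun d hd => (s1 _ hP1.j d hd).2) (fun d hd => (s1 _ hP1.n d hd).2)
    (fun d hd => (s2 _ hP2.j d hd).2) (fun d hd => (s2 _ hP2.n d hd).2)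
    (side X hX h0 J1 N1 hP1) (side (G.vs \ X) sdiff_subset h0' J2 N2 hP2),
    mem_union_right _ ha, mem_union_right _ hbb⟩

/-- **REDUCTION**: P* for graphs without 2-cuts and without nontrivial 3-cuts gives P* -/
theorem ps_all (hP : ∀ G : JK.CG V D, TEC G → NoThree G → PS G) :
    ∀ G : JK.CG V D, Even G.vs.card → G.tk G.vs = ∅ → G.B0 → PS G := by
  intro G
  induction hn : G.vs.card using Nat.strong_induction_on generalizing G with
  | _ n ih =>
    intro hev ht hb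
    have ih' : ∀ G' : JK.CG V D, G'.vs.card < G.vs.card → Even G'.vs.card →
        G'.tk G'.vs = ∅ → G'.B0 → PS G' := fun G' h1 h2 h3 h4 =>
      ih _ (by rw [← hn]; exact h1) G' rfl h2 h3 h4
    rw [← hn] at hev
    by_cases hT : ∀ X ⊆ G.vs, Even X.card → X.Nonempty → X ≠ G.vs → 4 ≤ (G.bd X).card
    · by_cases h3 : NoThree G
      · exact hP G ⟨hev, ht, hb, hT⟩ h3
      · unfold NoThree at h3
        push Not at h3
        obtain ⟨X, hX, ho, hc, n1, n2⟩ := h3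
        have hcard := card_sdiff_add_card_eq_card hX
        have ho' : Odd (G.vs \ X).card := by
          rw [← hcard, Nat.even_add'] at hev
          exact hev.2 ho
        obtain ⟨z, hz⟩ : (G.vs \ X).Nonempty := card_pos.1 ho'.pos
        obtain ⟨z2, hz2⟩ : X.Nonempty := card_pos.1 ho.pos
        have c1 : G.CD X z ∅ := ⟨hX, (mem_sdiff.1 hz).1, (mem_sdiff.1 hz).2, empty_subset _, by
          rw [hc, card_empty]⟩
        have c2 : G.CD (G.vs \ X) z2 ∅ := ⟨sdiff_subset, hX hz2, fun k => (mem_sdiff.1 k).2 hz2,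
          empty_subset _, by rw [G.bd_compl hX, hc, card_empty]⟩
        have l1 : c1.con.vs.card < G.vs.card := by
          rw [c1.vs_card]
          obtain ⟨k, hk⟩ := ho'
          omega
        have l2 : c2.con.vs.card < G.vs.card := by
          rw [c2.vs_card]
          obtain ⟨k, hk⟩ := ho
          omega
        obtain ⟨a1, a2, a3⟩ := ps_con ht hb c1 ho
        obtain ⟨b1, b2, b3⟩ := ps_con ht hb c2 ho'
        have I1 := ih' c1.con l1 a1 a2 a3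
        have I2 := ih' c2.con l2 b1 b2 b3
        intro x hx y hy hxy
        by_cases hxX : G.pi x ∈ X
        · exact ps_three hev ht hc c1 c2 I1 I2 hx hy hxX hxy
        · have hss : G.vs \ (G.vs \ X) = X := Finset.sdiff_sdiff_eq_self hX
          have c3 : G.CD (G.vs \ (G.vs \ X)) z ∅ := by rw [hss]; exact c1
          have I3 : PS c3.con := by
            refine ih' c3.con ?_ ?_ ?_ ?_
            · rw [c3.vs_card, hss, ← c1.vs_card]
              exact l1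
            · rw [c3.vs_card, hss, ← c1.vs_card]
              exact a1
            · exact (ps_con ht hb c3 (by rw [hss]; exact ho)).2.1
            · exact (ps_con ht hb c3 (by rw [hss]; exact ho)).2.2
          exact ps_three hev ht (by rw [G.bd_compl hX, hc]) c2 c3 I2 I3 hx hy
            (mem_sdiff.2 ⟨G.pi_mem x hx, hxX⟩) hxy
    · push Not at hT
      obtain ⟨X, hX, he, hne, hXne, hlt⟩ := hT
      have hpar : Even (G.bd X).card := by
        have h3 := G.dg_parity hX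
        rw [JK.CG.dg_eq_bd ht] at h3
        by_contra h4
        exact (Nat.not_odd_iff_even.2 he) (h3.1 (Nat.not_even_iff_odd.1 h4))
      have hXpos : 0 < X.card := card_pos.2 hne
      have hcard := card_sdiff_add_card_eq_card hX
      have hltX : X.card < G.vs.card := card_lt_card (Finset.ssubset_iff_subset_ne.2 ⟨hX, hXne⟩)
      have hl' : (G.vs \ X).card < G.vs.card := by omega
      have hne' : (G.vs \ X).Nonempty := by
        rw [← card_pos]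
        omega
      have hss : G.vs \ (G.vs \ X) = X := Finset.sdiff_sdiff_eq_self hX
      have heX' : Even (G.vs \ X).card := by
        rw [← hcard, Nat.even_add] at hev
        exact hev.2 he
      have hc : (G.bd X).card = 0 ∨ (G.bd X).card = 2 := by
        obtain ⟨k, hk⟩ := hpar
        omega
      intro x hx y hy hxy
      rcases hc with hc | hc
      · have h0 : G.bd X = ∅ := card_eq_zero.1 hc
        by_cases hxX : G.pi x ∈ X
        · exact ps_zero hev ht hb ih' hX h0 he hltX hne' hl' hx hy hxX hxy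
        · have h0' : G.bd (G.vs \ X) = ∅ := by
            rw [G.bd_compl_eq hX, h0, image_empty]
          refine ps_zero hev ht hb ih' sdiff_subset h0' heX' hl' ?_ ?_ hx hy
            (mem_sdiff.2 ⟨G.pi_mem x hx, hxX⟩) hxy
          · rw [hss]; exact hne
          · rw [hss]; exact hltX
      · obtain ⟨p, q, hpq, hbdX⟩ := card_eq_two.1 hc
        have hin : G.RJ X p q := by
          refine ⟨hX, hpq, ?_⟩
          intro d
          rw [hbdX, mem_insert, mem_singleton]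
        by_cases hxX : G.pi x ∈ X
        · exact ps_two hev ht hb ih' hin he hltX hl' hx hy hxX hxy
        · refine ps_two hev ht hb ih' hin.compl heX' hl' ?_ hx hy
            (mem_sdiff.2 ⟨G.pi_mem x hx, hxX⟩) hxy
          rw [hss]; exact hltX

/-! ### the frozen statement -/

/-- the complement of a perfect matching -/
private def pscompl {V : Type} [Fintype V] (G : SimpleGraph V)
    (hc : ∀ v : V, (G.neighborSet v).ncard = 3) (M : Finset (V × V))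
    (hM : (JK.ofSG G hc).IsPM M) : SimpleGraph V where
  Adj v w := G.Adj v w ∧ (v, w) ∉ M
  symm := ⟨fun v w h => ⟨h.1.symm, fun hw => h.2 (hM.closed (w, v) hw)⟩⟩
  loopless := ⟨fun v h => G.loopless.irrefl v h.1⟩

private lemma pscompl_le {V : Type} [Fintype V] (G : SimpleGraph V)
    (hc : ∀ v : V, (G.neighborSet v).ncard = 3) (M : Finset (V × V))
    (hM : (JK.ofSG G hc).IsPM M) : pscompl G hc M hM ≤ G := fun _ _ h => h.1

private lemma pscompl_card {V : Type} [Fintype V] (G : SimpleGraph V)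
    (hc : ∀ v : V, (G.neighborSet v).ncard = 3) (M : Finset (V × V))
    (hM : (JK.ofSG G hc).IsPM M) (v : V) : ((pscompl G hc M hM).neighborSet v).ncard = 2 := by
  obtain ⟨d, hd⟩ := Finset.card_eq_one.1 (hM.one v (Finset.mem_univ v))
  have hd1 : d ∈ M ∧ d.1 = v := by
    have : d ∈ M.filter fun d => (JK.ofSG G hc).pi d = v := by rw [hd]; simp
    rw [Finset.mem_filter] at this
    exact this
  obtain ⟨a, w⟩ := d
  obtain ⟨hm, rfl⟩ := hd1
  have hadj : G.Adj a w := by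
    have := hM.sub hm
    simpa [JK.ofSG] using this
  have hset : (pscompl G hc M hM).neighborSet a = G.neighborSet a \ {w} := by
    ext x
    simp only [SimpleGraph.mem_neighborSet, Set.mem_sdiff, Set.mem_singleton_iff]
    constructor
    · rintro ⟨h1, h2⟩
      refine ⟨h1, ?_⟩
      rintro rfl
      exact h2 hm
    · rintro ⟨h1, h2⟩
      refine ⟨h1, fun h3 => h2 ?_⟩
      have : (a, x) ∈ M.filter fun d => (JK.ofSG G hc).pi d = a := by
        rw [Finset.mem_filter]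
        exact ⟨h3, rfl⟩
      rw [hd, Finset.mem_singleton] at this
      exact (Prod.ext_iff.1 this).2
  rw [hset, Set.ncard_sdiff_singleton_of_mem (show w ∈ G.neighborSet a from hadj), hc]

/-- **S11409 from P* of the graphs without 2-cuts and without nontrivial 3-cuts** -/
theorem ps_final (h : ∀ (V D : Type) (G : JK.CG V D), TEC G → NoThree G → PS G) :
    ∀ (V : Type) [Fintype V] (G : SimpleGraph V),
      (∀ v : V, (G.neighborSet v).ncard = 3) →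
      (∀ v w : V, G.Adj v w → (G.deleteEdges {s(v, w)}).Reachable v w) →
      ∃ F₁ F₂ C : SimpleGraph V,
        F₁ ≤ G ∧ F₂ ≤ G ∧ C ≤ G ∧
        (∀ v : V, (F₁.neighborSet v).ncard = 2) ∧
        (∀ v : V, (F₂.neighborSet v).ncard = 2) ∧
        (∀ v : V, Even ((C.neighborSet v).ncard)) ∧
        F₁ ⊔ F₂ ⊔ C = G := by
  intro V _ G hc hb
  have hZ : ∃ M1 M2, (JK.ofSG G hc).IsPM M1 ∧ (JK.ofSG G hc).IsPM M2 ∧
      ∀ Z : Finset V, Odd Z.card → ∃ d ∈ (JK.ofSG G hc).bd Z, d ∉ M1 ∩ M2 := by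
    rcases isEmpty_or_nonempty V with hV | ⟨⟨v0⟩⟩
    · have hpm : (JK.ofSG G hc).IsPM ∅ :=
        ⟨empty_subset _, by simp, by simp, fun v _ => (hV.false v).elim⟩
      refine ⟨∅, ∅, hpm, hpm, ?_⟩
      intro Z hZ
      have : Z = ∅ := eq_empty_of_isEmpty Z
      subst this
      simp at hZ
    · have hcub := (JK.ofSG G hc).cubic v0 (mem_univ v0)
      have hne : ((JK.ofSG G hc).ds.filter fun d => (JK.ofSG G hc).pi d = v0).Nonempty := by
        rw [← card_pos, hcub]; norm_num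
      obtain ⟨d0, hd0⟩ := hne
      have hd0' := (mem_filter.1 hd0).1
      have hP : PS (JK.ofSG G hc) :=
        ps_all (fun G' hT h3 => h V (V × V) G' hT h3) (JK.ofSG G hc)
          (JK.ofSG_even G hc) (JK.ofSG_tk G hc) (JK.ofSG_b0 G hc hb)
      obtain ⟨J, N, hJN, -, -⟩ := hP d0 hd0' d0 hd0' rfl
      refine ⟨J, N, hJN.j, hJN.n, fun Z hodd => ?_⟩
      obtain ⟨d, hd, hd'⟩ := hJN.odd Z (subset_univ _) hodd
      exact ⟨d, hd, fun h => hd' (mem_inter.1 h)⟩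
  obtain ⟨M1, M2, h1, h2, hZ⟩ := hZ
  obtain ⟨C, hC, hT, hev⟩ := JK.exists_even G hc (M1 ∩ M2)
    (fun d hd => by
      have := h1.sub (Finset.mem_inter.1 hd).1
      simpa [JK.ofSG] using this)
    (fun d hd => Finset.mem_inter.2 ⟨h1.closed d (Finset.mem_inter.1 hd).1,
      h2.closed d (Finset.mem_inter.1 hd).2⟩)
    hZ
  refine ⟨pscompl G hc M1 h1, pscompl G hc M2 h2, C, pscompl_le G hc M1 h1, pscompl_le G hc M2 h2,
    hC, pscompl_card G hc M1 h1, pscompl_card G hc M2 h2, hev, ?_⟩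
  ext v w
  simp only [SimpleGraph.sup_adj]
  constructor
  · rintro ((h | h) | h)
    · exact h.1
    · exact h.1
    · exact hC h
  · intro h
    by_cases hm1 : (v, w) ∈ M1
    · by_cases hm2 : (v, w) ∈ M2
      · exact Or.inr (hT _ (Finset.mem_inter.2 ⟨hm1, hm2⟩))
      · exact Or.inl (Or.inr ⟨h, hm2⟩)
    · exact Or.inl (Or.inl ⟨h, hm1⟩)

end K

end R5
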