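import Pool.Agent.Lib.RH.S6
import Pool.Agent.Lib.RH.SSide
import Pool.Agent.Lib.RH.Top
import Pool.Agent.Lib.RH.PStar
import Pool.Agent.Lib.R5.KClean

/-! ROOT STATES (helper7, helper48). In a cubic graph without 2-cuts and nontrivial 3-cuts three edges
are killed such that the matching is forced at a given vertex: a strict state with 6 tokens, two of
them adjacent. A good matching of the state gives P* (`R5.K.PS`). -/

set_option autoImplicit false

namespace RH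

open Finset Classical

namespace MG

variable {V D : Type*}

/-- a strict state with 6 tokens, all weights 1 -/
structure St6c (G : MG V D) (t : V → ℝ) (fr : Finset V) (F : Finset D) (jm : Finset V) : Prop where
  even : Even G.vs.card
  fresh : G.FrS one1 fr F jm
  jm2 : jm = ∅ ∨ jm.card = 2
  deg : ∀ v ∈ G.vs, ((G.st v).card : ℝ) + t v = 3
  t0 : ∀ v ∈ G.vs, 0 ≤ t v
  tau : ∑ v ∈ G.vs, t v = 6
  odd : ∀ X ⊆ G.vs, Odd X.card → X.card ≠ 1 → 5 ≤ G.val one1 t X
  evn : ∀ X ⊆ G.vs, Even X.card → X.Nonempty → X ≠ G.vs → 4 ≤ G.val one1 t X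

/-- cubic, no 2-cut, no nontrivial 3-cut, at least 6 vertices -/
structure Str (G : MG V D) : Prop where
  even : Even G.vs.card
  six : 6 ≤ G.vs.card
  cubic : ∀ v ∈ G.vs, (G.st v).card = 3
  odd : ∀ X ⊆ G.vs, Odd X.card → X.card ≠ 1 → (G.vs \ X).card ≠ 1 → 5 ≤ (G.bd X).card
  evn : ∀ X ⊆ G.vs, Even X.card → X.Nonempty → X ≠ G.vs → 4 ≤ (G.bd X).card

variable {G : MG V D}

private lemma ali {d e : D} (hd : d ∈ G.ds) (he : e ∈ G.ds) (h : G.al d = G.al e) : d = e := by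
  rw [← G.al_al d hd, h, G.al_al e he]

namespace Str

/-- no parallel edges -/
theorem simple (h : Str G) {c1 c2 : D} (m1 : c1 ∈ G.ds) (m2 : c2 ∈ G.ds) (p : G.pi c1 = G.pi c2)
    (n : c1 ≠ c2) : G.pi (G.al c1) ≠ G.pi (G.al c2) := by
  intro q
  have hl1 := G.noloop c1 m1
  have hl2 := G.noloop c2 m2
  have hX : ({G.pi c1, G.pi (G.al c1)} : Finset V).card = 2 := card_pair hl1.symm
  have hsub : ({G.pi c1, G.pi (G.al c1)} : Finset V) ⊆ G.vs := by
    intro v hv
    rw [mem_insert, mem_singleton] at hv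
    rcases hv with rfl | rfl
    · exact G.pi_mem _ m1
    · exact G.pi_mem _ (G.al_mem _ m1)
  have h1 := h.evn {G.pi c1, G.pi (G.al c1)} hsub (by rw [hX]; exact even_two)
    ⟨_, mem_insert_self _ _⟩ (by
      intro k
      have := h.six
      rw [← k, hX] at this
      omega)
  have h2 : G.bd {G.pi c1, G.pi (G.al c1)} ⊆
      ((G.st (G.pi c1)).erase c1).erase c2 ∪
        ((G.st (G.pi (G.al c1))).erase (G.al c1)).erase (G.al c2) := by
    intro d hd
    rw [mem_bd, mem_insert, mem_singleton, mem_insert, mem_singleton, not_or] at hd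
    obtain ⟨k1, k2, k3, k4⟩ := hd
    rw [mem_union]
    rcases k2 with k2 | k2
    · left
      refine mem_erase.2 ⟨?_, mem_erase.2 ⟨?_, mem_st.2 ⟨k1, k2⟩⟩⟩
      · rintro rfl
        exact k4 q.symm
      · rintro rfl
        exact k4 rfl
    · right
      refine mem_erase.2 ⟨?_, mem_erase.2 ⟨?_, mem_st.2 ⟨k1, k2⟩⟩⟩
      · rintro rfl
        rw [G.al_al _ m2] at k3
        exact k3 p.symm
      · rintro rfl
        rw [G.al_al _ m1] at k3
        exact k3 rfl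
  have h3 := card_le_card h2
  have h4 := card_union_le (((G.st (G.pi c1)).erase c1).erase c2)
    (((G.st (G.pi (G.al c1))).erase (G.al c1)).erase (G.al c2))
  have h5 : (((G.st (G.pi c1)).erase c1).erase c2).card = 1 := by
    rw [card_erase_of_mem, card_erase_of_mem, h.cubic _ (G.pi_mem _ m1)]
    · exact mem_st.2 ⟨m1, rfl⟩
    · exact mem_erase.2 ⟨n.symm, mem_st.2 ⟨m2, p.symm⟩⟩
  have h6 : (((G.st (G.pi (G.al c1))).erase (G.al c1)).erase (G.al c2)).card = 1 := by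
    rw [card_erase_of_mem, card_erase_of_mem, h.cubic _ (G.pi_mem _ (G.al_mem _ m1))]
    · exact mem_st.2 ⟨G.al_mem _ m1, rfl⟩
    · exact mem_erase.2 ⟨fun k => n (ali m2 m1 k).symm, mem_st.2 ⟨G.al_mem _ m2, q.symm⟩⟩
  omega

/-- no triangle -/
theorem notri (h : Str G) {c a j : D} (m1 : c ∈ G.ds) (m2 : a ∈ G.ds) (m3 : j ∈ G.ds)
    (p1 : G.pi j = G.pi c) (p2 : G.pi a = G.pi (G.al c)) (q : G.pi (G.al a) = G.pi (G.al j))
    (n1 : j ≠ c) (n2 : a ≠ G.al c) : False := by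
  have hl1 := G.noloop c m1
  have hl2 := G.noloop a m2
  have hl3 := G.noloop j m3
  have w1 : G.pi c ≠ G.pi a := by rw [p2]; exact hl1.symm
  have w2 : G.pi c ≠ G.pi (G.al a) := by rw [q, ← p1]; exact hl3.symm
  have w3 : G.pi a ≠ G.pi (G.al a) := hl2.symm
  have hX : ({G.pi c, G.pi a, G.pi (G.al a)} : Finset V).card = 3 := by
    rw [card_insert_of_notMem, card_pair w3]
    rw [mem_insert, mem_singleton]
    tauto
  have hsub : ({G.pi c, G.pi a, G.pi (G.al a)} : Finset V) ⊆ G.vs := by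
    intro v hv
    rw [mem_insert, mem_insert, mem_singleton] at hv
    rcases hv with rfl | rfl | rfl
    · exact G.pi_mem _ m1
    · exact G.pi_mem _ m2
    · exact G.pi_mem _ (G.al_mem _ m2)
  have hs := h.six
  have h1 := h.odd {G.pi c, G.pi a, G.pi (G.al a)} hsub (by rw [hX]; decide) (by rw [hX]; decide)
    (by rw [card_sdiff_of_subset hsub, hX]; omega)
  have h2 : G.bd {G.pi c, G.pi a, G.pi (G.al a)} ⊆
      ((G.st (G.pi c)).erase c).erase j ∪ (((G.st (G.pi a)).erase a).erase (G.al c) ∪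
        ((G.st (G.pi (G.al a))).erase (G.al a)).erase (G.al j)) := by
    intro d hd
    rw [mem_bd, mem_insert, mem_insert, mem_singleton, mem_insert, mem_insert, mem_singleton,
      not_or, not_or] at hd
    obtain ⟨k1, k2, k3, k4, k5⟩ := hd
    rw [mem_union, mem_union]
    rcases k2 with k2 | k2 | k2
    · left
      refine mem_erase.2 ⟨?_, mem_erase.2 ⟨?_, mem_st.2 ⟨k1, k2⟩⟩⟩
      · rintro rfl
        exact k5 q.symm
      · rintro rfl
        exact k4 p2.symm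
    · right; left
      refine mem_erase.2 ⟨?_, mem_erase.2 ⟨?_, mem_st.2 ⟨k1, k2⟩⟩⟩
      · rintro rfl
        rw [G.al_al _ m1] at k3
        exact k3 rfl
      · rintro rfl
        exact k5 rfl
    · right; right
      refine mem_erase.2 ⟨?_, mem_erase.2 ⟨?_, mem_st.2 ⟨k1, k2⟩⟩⟩
      · rintro rfl
        rw [G.al_al _ m3] at k3
        exact k3 p1
      · rintro rfl
        rw [G.al_al _ m2] at k4
        exact k4 rfl
  have h3 := card_le_card h2
  have h4 := card_union_le (((G.st (G.pi c)).erase c).erase j)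
    (((G.st (G.pi a)).erase a).erase (G.al c) ∪
        ((G.st (G.pi (G.al a))).erase (G.al a)).erase (G.al j))
  have h4' := card_union_le (((G.st (G.pi a)).erase a).erase (G.al c))
    (((G.st (G.pi (G.al a))).erase (G.al a)).erase (G.al j))
  have h5 : (((G.st (G.pi c)).erase c).erase j).card = 1 := by
    rw [card_erase_of_mem, card_erase_of_mem, h.cubic _ (G.pi_mem _ m1)]
    · exact mem_st.2 ⟨m1, rfl⟩
    · exact mem_erase.2 ⟨n1, mem_st.2 ⟨m3, p1⟩⟩
  have h6 : (((G.st (G.pi a)).erase a).erase (G.al c)).card = 1 := by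
    rw [card_erase_of_mem, card_erase_of_mem, h.cubic _ (G.pi_mem _ m2)]
    · exact mem_st.2 ⟨m2, rfl⟩
    · exact mem_erase.2 ⟨n2.symm, mem_st.2 ⟨G.al_mem _ m1, p2.symm⟩⟩
  have h7 : (((G.st (G.pi (G.al a))).erase (G.al a)).erase (G.al j)).card = 1 := by
    rw [card_erase_of_mem, card_erase_of_mem, h.cubic _ (G.pi_mem _ (G.al_mem _ m2))]
    · exact mem_st.2 ⟨G.al_mem _ m2, rfl⟩
    · refine mem_erase.2 ⟨fun k => ?_, mem_st.2 ⟨G.al_mem _ m3, q.symm⟩⟩
      have h8 := ali m3 m2 k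
      rw [h8] at p1
      exact w1 p1.symm
  omega

end Str

/-- three edges `c1`, `c2` at `w` and `c3` not at `w` -/
structure K3e (G : MG V D) (c1 c2 c3 : D) : Prop where
  m1 : c1 ∈ G.ds
  m2 : c2 ∈ G.ds
  m3 : c3 ∈ G.ds
  p12 : G.pi c2 = G.pi c1
  n12 : c1 ≠ c2
  p3 : G.pi c3 ≠ G.pi c1
  p3' : G.pi (G.al c3) ≠ G.pi c1

/-- their darts -/
noncomputable def c6 (G : MG V D) (c1 c2 c3 : D) : Finset D :=
  {c1, G.al c1, c2, G.al c2, c3, G.al c3}

namespace K3e

variable {c1 c2 c3 : D}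

theorem mem {d : D} : d ∈ G.c6 c1 c2 c3 ↔
    d = c1 ∨ d = G.al c1 ∨ d = c2 ∨ d = G.al c2 ∨ d = c3 ∨ d = G.al c3 := by
  unfold c6
  simp only [mem_insert, mem_singleton]

theorem sub (k : K3e G c1 c2 c3) : G.c6 c1 c2 c3 ⊆ G.ds := by
  intro d hd
  rcases mem.1 hd with rfl | rfl | rfl | rfl | rfl | rfl
  · exact k.m1
  · exact G.al_mem _ k.m1
  · exact k.m2
  · exact G.al_mem _ k.m2
  · exact k.m3
  · exact G.al_mem _ k.m3

theorem cl (k : K3e G c1 c2 c3) : ∀ d ∈ G.c6 c1 c2 c3, G.al d ∈ G.c6 c1 c2 c3 := by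
  intro d hd
  rcases mem.1 hd with rfl | rfl | rfl | rfl | rfl | rfl
  · exact mem.2 (by tauto)
  · rw [G.al_al _ k.m1]; exact mem.2 (by tauto)
  · exact mem.2 (by tauto)
  · rw [G.al_al _ k.m2]; exact mem.2 (by tauto)
  · exact mem.2 (by tauto)
  · rw [G.al_al _ k.m3]; exact mem.2 (by tauto)

theorem card (k : K3e G c1 c2 c3) : (G.c6 c1 c2 c3).card = 6 := by
  have l1 := G.noloop c1 k.m1
  have l2 := G.noloop c2 k.m2
  have l3 := G.noloop c3 k.m3
  have a1 : G.al c1 ≠ c1 := fun h => l1 (by rw [h])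
  have a2 : G.al c2 ≠ c2 := fun h => l2 (by rw [h])
  have a3 : G.al c3 ≠ c3 := fun h => l3 (by rw [h])
  have b1 : c1 ≠ G.al c2 := fun h => l2 (by rw [← h, k.p12])
  have b2 : G.al c1 ≠ c2 := fun h => l1 (by rw [h, k.p12])
  have b3 : G.al c1 ≠ G.al c2 := fun h => k.n12 (ali k.m1 k.m2 h)
  have d1 : c1 ≠ c3 := fun h => k.p3 (by rw [← h])
  have d2 : c1 ≠ G.al c3 := fun h => k.p3' (by rw [← h])
  have d3 : G.al c1 ≠ c3 := fun h => d2 (by rw [← h, G.al_al _ k.m1])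
  have d4 : G.al c1 ≠ G.al c3 := fun h => d1 (ali k.m1 k.m3 h)
  have e1 : c2 ≠ c3 := fun h => k.p3 (by rw [← h, k.p12])
  have e2 : c2 ≠ G.al c3 := fun h => k.p3' (by rw [← h, k.p12])
  have e3 : G.al c2 ≠ c3 := fun h => e2 (by rw [← h, G.al_al _ k.m2])
  have e4 : G.al c2 ≠ G.al c3 := fun h => e1 (ali k.m2 k.m3 h)
  have n12 := k.n12
  unfold c6
  rw [card_insert_of_notMem, card_insert_of_notMem, card_insert_of_notMem, card_insert_of_notMem,
    card_pair a3.symm]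
  · simp only [mem_insert, mem_singleton, not_or]; exact ⟨e3, e4⟩
  · simp only [mem_insert, mem_singleton, not_or]; exact ⟨a2.symm, e1, e2⟩
  · simp only [mem_insert, mem_singleton, not_or]; exact ⟨b2, b3, d3, d4⟩
  · simp only [mem_insert, mem_singleton, not_or]; exact ⟨a1.symm, n12, b1, d1, d2⟩

/-- the state: the three edges are killed -/
noncomputable def gr (k : K3e G c1 c2 c3) : MG V D := G.delG (G.c6 c1 c2 c3) k.cl

/-- its tokens -/
noncomputable def tk (_ : K3e G c1 c2 c3) (v : V) : ℝ :=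
  (((G.c6 c1 c2 c3).filter fun d => G.pi d = v).card : ℝ)

theorem mem_ds (k : K3e G c1 c2 c3) {d : D} : d ∈ k.gr.ds ↔ d ∈ G.ds ∧ d ∉ G.c6 c1 c2 c3 :=
  mem_sdiff

theorem st_eq (k : K3e G c1 c2 c3) (v : V) :
    (k.gr.st v).card + ((G.c6 c1 c2 c3).filter fun d => G.pi d = v).card = (G.st v).card := by
  rw [← card_union_of_disjoint]
  · congr 1
    ext d
    rw [mem_union, mem_st, mem_st, mem_filter, k.mem_ds]
    change ((d ∈ G.ds ∧ d ∉ G.c6 c1 c2 c3) ∧ G.pi d = v) ∨ _ ↔ _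
    have hs : d ∈ G.c6 c1 c2 c3 → d ∈ G.ds := fun h => k.sub h
    tauto
  · rw [disjoint_left]
    intro d h1 h2
    exact (k.mem_ds.1 (mem_st.1 h1).1).2 (mem_filter.1 h2).1

theorem sum_tk (k : K3e G c1 c2 c3) (X : Finset V) :
    ∑ v ∈ X, k.tk v = (((G.c6 c1 c2 c3).filter fun d => G.pi d ∈ X).card : ℝ) := by
  unfold tk
  rw [← Nat.cast_sum]
  congr 1
  have h1 := Finset.card_eq_sum_card_fiberwise
    (s := (G.c6 c1 c2 c3).filter fun d => G.pi d ∈ X) (t := X) (f := G.pi) (by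
      intro d hd
      exact (mem_filter.1 (Finset.mem_coe.1 hd)).2)
  rw [h1]
  refine sum_congr rfl fun v hv => ?_
  congr 1
  ext d
  rw [mem_filter, mem_filter, mem_filter]
  constructor
  · rintro ⟨h2, h3⟩
    exact ⟨⟨h2, by rw [h3]; exact hv⟩, h3⟩
  · rintro ⟨⟨h2, -⟩, h3⟩
    exact ⟨h2, h3⟩

/-- value of a set: boundary plus killed darts with both ends inside -/
theorem val_eq (k : K3e G c1 c2 c3) (X : Finset V) :
    k.gr.val one1 k.tk X = ((G.bd X).card : ℝ) +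
      (((G.c6 c1 c2 c3).filter fun d => G.pi d ∈ X ∧ G.pi (G.al d) ∈ X).card : ℝ) := by
  rw [val_one, k.sum_tk, ← Nat.cast_add, ← Nat.cast_add]
  congr 1
  have h1 : (G.bd X).card = (k.gr.bd X).card +
      ((G.c6 c1 c2 c3).filter fun d => G.pi d ∈ X ∧ G.pi (G.al d) ∉ X).card := by
    rw [← card_union_of_disjoint]
    · congr 1
      ext d
      rw [mem_union, mem_bd, mem_bd, mem_filter, k.mem_ds]
      change _ ↔ ((d ∈ G.ds ∧ d ∉ G.c6 c1 c2 c3) ∧ G.pi d ∈ X ∧ G.pi (G.al d) ∉ X) ∨ _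
      have hs : d ∈ G.c6 c1 c2 c3 → d ∈ G.ds := fun h => k.sub h
      tauto
    · rw [disjoint_left]
      intro d h1 h2
      exact (k.mem_ds.1 (mem_bd.1 h1).1).2 (mem_filter.1 h2).1
  have h2 : ((G.c6 c1 c2 c3).filter fun d => G.pi d ∈ X).card =
      ((G.c6 c1 c2 c3).filter fun d => G.pi d ∈ X ∧ G.pi (G.al d) ∉ X).card +
      ((G.c6 c1 c2 c3).filter fun d => G.pi d ∈ X ∧ G.pi (G.al d) ∈ X).card := by
    rw [← card_union_of_disjoint]
    · congr 1
      ext d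
      rw [mem_union, mem_filter, mem_filter, mem_filter]
      tauto
    · rw [disjoint_left]
      intro d h1 h2
      exact (mem_filter.1 h1).2.2 (mem_filter.1 h2).2.2
  omega

/-- strictness of the state -/
theorem odd (k : K3e G c1 c2 c3) (h : Str G) {X : Finset V} (hX : X ⊆ G.vs) (ho : Odd X.card)
    (h1 : X.card ≠ 1) : 5 ≤ k.gr.val one1 k.tk X := by
  rw [k.val_eq]
  by_cases h2 : (G.vs \ X).card = 1
  · obtain ⟨w, hw⟩ := card_eq_one.1 h2
    have hmem : ∀ v, v ∈ G.vs → (v ∈ X ↔ v ≠ w) := by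
      intro v hv
      have h3 : v ∈ G.vs \ X ↔ v = w := by rw [hw, mem_singleton]
      rw [mem_sdiff] at h3
      tauto
    have hwv : w ∈ G.vs := by
      have : w ∈ G.vs \ X := by rw [hw]; exact mem_singleton_self w
      exact (mem_sdiff.1 this).1
    have h3 : (G.bd X).card = 3 := by
      rw [← h.cubic w hwv]
      refine card_bij' (fun d _ => G.al d) (fun d _ => G.al d) ?_ ?_ ?_ ?_
      · intro d hd
        obtain ⟨k1, k2, k3⟩ := mem_bd.1 hd
        refine mem_st.2 ⟨G.al_mem d k1, ?_⟩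
        by_contra k4
        exact k3 ((hmem _ (G.pi_mem _ (G.al_mem d k1))).2 k4)
      · intro d hd
        obtain ⟨k1, k2⟩ := mem_st.1 hd
        refine mem_bd.2 ⟨G.al_mem d k1, ?_, ?_⟩
        · rw [hmem _ (G.pi_mem _ (G.al_mem d k1)), ← k2]
          exact G.noloop d k1
        · rw [G.al_al d k1, k2]
          intro k3
          exact (hmem w hwv).1 k3 rfl
      · intro d hd
        exact G.al_al d (mem_bd.1 hd).1
      · intro d hd
        exact G.al_al d (mem_st.1 hd).1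
    -- a killed edge which is not at `w`
    obtain ⟨c, hc, hc1, hc2⟩ : ∃ c ∈ G.c6 c1 c2 c3, G.pi c ≠ w ∧ G.pi (G.al c) ≠ w := by
      by_cases k1 : w = G.pi c1
      · exact ⟨c3, mem.2 (by tauto), by rw [k1]; exact k.p3, by rw [k1]; exact k.p3'⟩
      · by_cases k2 : G.pi (G.al c1) = w
        · refine ⟨c2, mem.2 (by tauto), by rw [k.p12]; exact fun k3 => k1 k3.symm, ?_⟩
          intro k3
          exact h.simple k.m1 k.m2 k.p12.symm k.n12 (k2.trans k3.symm)
        · exact ⟨c1, mem.2 (by tauto), fun k3 => k1 k3.symm, k2⟩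
    have hcd := k.sub hc
    have h4 : ({c, G.al c} : Finset D) ⊆
        (G.c6 c1 c2 c3).filter fun d => G.pi d ∈ X ∧ G.pi (G.al d) ∈ X := by
      intro d hd
      have w1 : G.pi c ∈ X := (hmem _ (G.pi_mem _ hcd)).2 hc1
      have w2 : G.pi (G.al c) ∈ X := (hmem _ (G.pi_mem _ (G.al_mem _ hcd))).2 hc2
      rw [mem_insert, mem_singleton] at hd
      rcases hd with rfl | rfl
      · exact mem_filter.2 ⟨hc, w1, w2⟩
      · exact mem_filter.2 ⟨k.cl _ hc, w2, by rw [G.al_al _ hcd]; exact w1⟩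
    have h5 := card_le_card h4
    rw [card_pair (fun e => G.noloop c hcd (by rw [← e]))] at h5
    have h6 : (2 : ℝ) ≤ (((G.c6 c1 c2 c3).filter fun d => G.pi d ∈ X ∧
      G.pi (G.al d) ∈ X).card : ℝ) := by exact_mod_cast h5
    rw [h3]
    push_cast
    linarith
  · have h3 := h.odd X hX ho h1 h2
    have h4 : (5 : ℝ) ≤ ((G.bd X).card : ℝ) := by exact_mod_cast h3
    have h5 : (0 : ℝ) ≤ (((G.c6 c1 c2 c3).filter fun d => G.pi d ∈ X ∧
      G.pi (G.al d) ∈ X).card : ℝ) := Nat.cast_nonneg _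
    linarith

theorem evn (k : K3e G c1 c2 c3) (h : Str G) {X : Finset V} (hX : X ⊆ G.vs) (he : Even X.card)
    (hn : X.Nonempty) (h1 : X ≠ G.vs) : 4 ≤ k.gr.val one1 k.tk X := by
  rw [k.val_eq]
  have h3 := h.evn X hX he hn h1
  have h4 : (4 : ℝ) ≤ ((G.bd X).card : ℝ) := by exact_mod_cast h3
  have h5 : (0 : ℝ) ≤ (((G.c6 c1 c2 c3).filter fun d => G.pi d ∈ X ∧
    G.pi (G.al d) ∈ X).card : ℝ) := Nat.cast_nonneg _
  linarith

/-- **the root state**: `J` a perfect matching; the killed edges are tied together by edges outside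
`J` and killed edges. -/
theorem root (k : K3e G c1 c2 c3) (h : Str G) {J : Finset D} (hJ : G.IsPM J)
    (hcon : ∀ Z ⊆ G.vs, (∀ d ∈ G.ds, d ∉ J ∨ d ∈ G.c6 c1 c2 c3 →
      (G.pi d ∈ Z ↔ G.pi (G.al d) ∈ Z)) → ∀ d ∈ G.c6 c1 c2 c3, (G.pi d ∈ Z ↔ G.pi c1 ∈ Z)) :
    ∃ (fr : Finset V) (F : Finset D), St6c k.gr k.tk fr F ∅ ∧
      (∀ X, k.gr.Adm fr F X → k.gr.bd X = G.bd X ∧ ∀ d ∈ G.bd X, d ∈ J) ∧
      ∀ M, k.gr.GoodS one1 fr F ∅ M → G.IsPM M ∧ (∀ d ∈ M, d ∉ G.c6 c1 c2 c3) ∧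
        ∀ Z ⊆ G.vs, Odd Z.card → ∃ d ∈ G.bd Z, ¬ (d ∈ J ∧ d ∈ M) := by
  obtain ⟨B, hB⟩ : ∃ B, B = (G.c6 c1 c2 c3).image G.pi := ⟨_, rfl⟩
  obtain ⟨fr, hfs, hfc, hfd, hadm⟩ := exists_avoid G G.vs (G.ds \ J) B
  have hfB : ∀ d, G.pi d ∈ fr → d ∉ G.c6 c1 c2 c3 := by
    intro d h1 h2
    refine disjoint_left.1 hfd h1 ?_
    rw [hB]
    exact mem_image_of_mem _ h2
  have halJ : ∀ d ∈ G.ds, (d ∈ J ↔ G.al d ∈ J) := by
    intro d hd
    refine ⟨hJ.closed d, fun h1 => ?_⟩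
    have h2 := hJ.closed _ h1
    rwa [G.al_al d hd] at h2
  refine ⟨fr, (G.ds \ J).filter fun d => G.pi d ∈ fr, ⟨h.even, ?_, Or.inl rfl, ?_, ?_, ?_, ?_, ?_⟩,
    ?_, ?_⟩
  · refine ⟨hfs, ?_, ?_, ?_, ?_, empty_subset _, ?_, fun v hv => absurd hv (notMem_empty v),
      fun _ _ _ => rfl⟩
    · intro d hd
      obtain ⟨h1, h2⟩ := mem_filter.1 hd
      exact k.mem_ds.2 ⟨(mem_sdiff.1 h1).1, hfB d h2⟩
    · intro d hd
      obtain ⟨h1, h2⟩ := mem_filter.1 hd
      obtain ⟨h3, h4⟩ := mem_sdiff.1 h1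
      exact mem_filter.2 ⟨mem_sdiff.2 ⟨G.al_mem d h3, fun h5 => h4 ((halJ d h3).2 h5)⟩,
        hfc d h1 h2⟩
    · intro d hd
      exact (mem_filter.1 hd).2
    · intro v hv
      have h1 := h.cubic v (hfs hv)
      have h2 := hJ.one v (hfs hv)
      have h3 : (((G.ds \ J).filter fun d => G.pi d ∈ fr).filter fun d => k.gr.pi d = v).card +
          (J.filter fun d => G.pi d = v).card = (G.st v).card := by
        rw [← card_union_of_disjoint]
        · congr 1
          ext d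
          rw [mem_union, mem_filter, mem_filter, mem_filter, mem_st, mem_sdiff]
          change (((d ∈ G.ds ∧ d ∉ J) ∧ G.pi d ∈ fr) ∧ G.pi d = v) ∨ _ ↔ _
          constructor
          · rintro (⟨⟨⟨k1, -⟩, -⟩, k2⟩ | ⟨k1, k2⟩)
            · exact ⟨k1, k2⟩
            · exact ⟨hJ.sub k1, k2⟩
          · rintro ⟨k1, k2⟩
            by_cases k3 : d ∈ J
            · exact Or.inr ⟨k3, k2⟩
            · exact Or.inl ⟨⟨⟨k1, k3⟩, by rw [k2]; exact hv⟩, k2⟩
        · rw [disjoint_left]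
          intro d k1 k2
          exact (mem_sdiff.1 (mem_filter.1 (mem_filter.1 k1).1).1).2 (mem_filter.1 k2).1
      omega
    · intro v hv _
      rw [← hJ.one v (hfs hv)]
      congr 1
      ext d
      rw [mem_filter, mem_filter, mem_filter, mem_st, k.mem_ds, mem_sdiff]
      change ((d ∈ G.ds ∧ d ∉ G.c6 c1 c2 c3) ∧ G.pi d = v) ∧
        ¬ ((d ∈ G.ds ∧ d ∉ J) ∧ G.pi d ∈ fr) ↔ _
      constructor
      · rintro ⟨⟨⟨k1, k2⟩, k3⟩, k4⟩
        refine ⟨?_, k3⟩
        by_contra k5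
        exact k4 ⟨⟨k1, k5⟩, by rw [k3]; exact hv⟩
      · rintro ⟨k1, k2⟩
        exact ⟨⟨⟨hJ.sub k1, hfB d (by rw [k2]; exact hv)⟩, k2⟩, fun k3 => k3.1.2 k1⟩
  · intro v hv
    have h1 := k.st_eq v
    rw [h.cubic v hv] at h1
    unfold tk
    exact_mod_cast h1
  · intro v _
    exact Nat.cast_nonneg _
  · have h1 := k.sum_tk G.vs
    have h2 : ((G.c6 c1 c2 c3).filter fun d => G.pi d ∈ G.vs) = G.c6 c1 c2 c3 :=
      filter_true_of_mem fun d hd => G.pi_mem d (k.sub hd)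
    rw [h2, k.card] at h1
    change ∑ v ∈ G.vs, k.tk v = 6
    rw [h1]
    norm_num
  · intro X hX ho h1
    exact k.odd h hX ho h1
  · intro X hX he hn h1
    exact k.evn h hX he hn h1
  · intro X hX
    refine ⟨?_, ?_⟩
    · ext d
      rw [mem_bd, mem_bd, k.mem_ds]
      change (d ∈ G.ds ∧ d ∉ G.c6 c1 c2 c3) ∧ G.pi d ∈ X ∧ G.pi (G.al d) ∉ X ↔ _
      constructor
      · rintro ⟨⟨h1, -⟩, h2⟩
        exact ⟨h1, h2⟩
      · rintro ⟨h1, h2, h3⟩
        exact ⟨⟨h1, hfB d (hX.sub h2)⟩, h2, h3⟩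
    · intro d hd
      obtain ⟨h1, h2, h3⟩ := mem_bd.1 hd
      by_contra h4
      exact h3 (hX.clo d (mem_filter.2 ⟨mem_sdiff.2 ⟨h1, h4⟩, hX.sub h2⟩) h2)
  · intro M hM
    have hMs : ∀ d ∈ M, d ∈ G.ds ∧ d ∉ G.c6 c1 c2 c3 := fun d hd => k.mem_ds.1 (hM.pm.sub hd)
    have hpm : G.IsPM M := ⟨fun d hd => (hMs d hd).1, hM.pm.closed, hM.pm.one⟩
    refine ⟨hpm, fun d hd => (hMs d hd).2, ?_⟩
    have key : ∀ Z ⊆ G.vs, Odd Z.card → G.pi c1 ∉ Z → ¬ ∀ d ∈ G.bd Z, d ∈ J ∧ d ∈ M := by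
      intro Z hZ ho hcZ hall
      have hiff : ∀ d ∈ G.ds, d ∉ J ∨ d ∈ G.c6 c1 c2 c3 →
          (G.pi d ∈ Z ↔ G.pi (G.al d) ∈ Z) := by
        have h1 : ∀ d ∈ G.ds, d ∉ J ∨ d ∈ G.c6 c1 c2 c3 → G.pi d ∈ Z → G.pi (G.al d) ∈ Z := by
          intro d hd hor hp
          by_contra hq
          obtain ⟨h2, h3⟩ := hall d (mem_bd.2 ⟨hd, hp, hq⟩)
          rcases hor with h4 | h4
          · exact h4 h2
          · exact (hMs d h3).2 h4
        intro d hd hor
        refine ⟨h1 d hd hor, fun hp => ?_⟩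
        have h2 := h1 (G.al d) (G.al_mem d hd) (by
          rcases hor with h4 | h4
          · exact Or.inl fun h5 => h4 ((halJ d hd).2 h5)
          · exact Or.inr (k.cl d h4)) hp
        rwa [G.al_al d hd] at h2
      have hdis : Disjoint Z B := by
        rw [disjoint_left]
        intro v hv hvB
        rw [hB, mem_image] at hvB
        obtain ⟨d, hd, rfl⟩ := hvB
        exact hcZ ((hcon Z hZ hiff d hd).1 hv)
      have hA : G.Adm fr ((G.ds \ J).filter fun d => G.pi d ∈ fr) Z := by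
        refine (hadm Z).2 ⟨⟨hZ, fun d hd hp => ?_⟩, hdis⟩
        obtain ⟨h1, h2⟩ := mem_sdiff.1 hd
        exact (hiff d h1 (Or.inl h2)).1 hp
      have hA' : k.gr.Adm fr ((G.ds \ J).filter fun d => G.pi d ∈ fr) Z := ⟨hA.sub, hA.clo⟩
      obtain ⟨d, hd, hdM⟩ := hM.hit Z hA' (Or.inl ho)
      obtain ⟨h1, h2, h3⟩ := mem_bd.1 hd
      exact hdM (hall d (mem_bd.2 ⟨(k.mem_ds.1 h1).1, h2, h3⟩)).2
    intro Z hZ ho
    by_contra hcon'
    push Not at hcon'
    by_cases heZ : G.pi c1 ∈ Z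
    · refine key (G.vs \ Z) sdiff_subset ?_ (fun h1 => (mem_sdiff.1 h1).2 heZ) ?_
      · have h1 : (G.vs \ Z).card + Z.card = G.vs.card := card_sdiff_add_card_eq_card hZ
        obtain ⟨a, ha⟩ := ho
        obtain ⟨b, hb⟩ := h.even
        rw [Nat.odd_iff]
        omega
      · intro d hd
        obtain ⟨h1, h2, h3⟩ := mem_bd.1 hd
        have h4 : G.al d ∈ G.bd Z := by
          refine mem_bd.2 ⟨G.al_mem d h1, ?_, ?_⟩
          · by_contra h5
            exact h3 (mem_sdiff.2 ⟨G.pi_mem _ (G.al_mem d h1), h5⟩)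
          · rw [G.al_al d h1]
            exact (mem_sdiff.1 h2).2
        obtain ⟨h5, h6⟩ := hcon' _ h4
        have h7 := hJ.closed _ h5
        have h8 := hpm.closed _ h6
        rw [G.al_al d h1] at h7 h8
        exact ⟨h7, h8⟩
    · exact key Z hZ ho heZ hcon'

theorem tk_pos (k : K3e G c1 c2 c3) {d : D} (hd : d ∈ G.c6 c1 c2 c3) : 1 ≤ k.tk (G.pi d) := by
  unfold tk
  have h1 : 0 < ((G.c6 c1 c2 c3).filter fun e => G.pi e = G.pi d).card :=
    card_pos.2 ⟨d, mem_filter.2 ⟨hd, rfl⟩⟩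
  exact_mod_cast h1

end K3e

/-- the three darts at a vertex -/
theorem Str.three (h : Str G) {x : D} (hx : x ∈ G.ds) :
    ∃ a b, a ∈ G.ds ∧ b ∈ G.ds ∧ G.pi a = G.pi x ∧ G.pi b = G.pi x ∧ a ≠ b ∧ a ≠ x ∧ b ≠ x ∧
      ∀ d ∈ G.ds, G.pi d = G.pi x → d = x ∨ d = a ∨ d = b := by
  have h1 := h.cubic _ (G.pi_mem x hx)
  have h2 : x ∈ G.st (G.pi x) := mem_st.2 ⟨hx, rfl⟩
  have h3 : ((G.st (G.pi x)).erase x).card = 2 := by rw [card_erase_of_mem h2, h1]
  obtain ⟨a, b, hab, h4⟩ := card_eq_two.1 h3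
  have ha : a ∈ (G.st (G.pi x)).erase x := by rw [h4]; exact mem_insert_self _ _
  have hb : b ∈ (G.st (G.pi x)).erase x := by
    rw [h4]; exact mem_insert_of_mem (mem_singleton_self _)
  obtain ⟨a1, a2⟩ := mem_erase.1 ha
  obtain ⟨b1, b2⟩ := mem_erase.1 hb
  refine ⟨a, b, (mem_st.1 a2).1, (mem_st.1 b2).1, (mem_st.1 a2).2, (mem_st.1 b2).2, hab, a1, b1,
    fun d hd hp => ?_⟩
  by_cases h5 : d = x
  · exact Or.inl h5
  · have h6 : d ∈ (G.st (G.pi x)).erase x := mem_erase.2 ⟨h5, mem_st.2 ⟨hd, hp⟩⟩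
    rw [h4, mem_insert, mem_singleton] at h6
    exact Or.inr h6

private lemma pm_uniq {M : Finset D} (hM : G.IsPM M) {x y : D} (hx : x ∈ M) (hy : y ∈ M)
    (h : G.pi x = G.pi y) : x = y := by
  have h1 := hM.one (G.pi x) (G.pi_mem x (hM.sub hx))
  exact card_le_one.1 h1.le x (mem_filter.2 ⟨hx, rfl⟩) y (mem_filter.2 ⟨hy, h.symm⟩)

private lemma pm_ex {M : Finset D} (hM : G.IsPM M) {v : V} (hv : v ∈ G.vs) :
    ∃ d ∈ M, G.pi d = v := by
  obtain ⟨d, hd⟩ := card_eq_one.1 (hM.one v hv)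
  have h1 : d ∈ M.filter fun d => G.pi d = v := by rw [hd]; exact mem_singleton_self d
  exact ⟨d, (mem_filter.1 h1).1, (mem_filter.1 h1).2⟩

/-- no token at a fresh vertex -/
theorem St6c.nofr {t : V → ℝ} {fr : Finset V} {F : Finset D} (h : G.St6c t fr F ∅) {v : V}
    (hv : v ∈ fr) : t v = 0 := by
  have h1 := h.deg v (h.fresh.fsub hv)
  have h2 := h.fresh.two v hv
  have h3 := h.fresh.jd v hv (notMem_empty v)
  have h4 : (F.filter fun d => G.pi d = v).card + ((G.st v).filter fun d => d ∉ F).card =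
      (G.st v).card := by
    rw [← card_union_of_disjoint]
    · congr 1
      ext d
      rw [mem_union, mem_filter, mem_filter, mem_st]
      have hs : d ∈ F → d ∈ G.ds := fun k => h.fresh.Fsub k
      tauto
    · rw [disjoint_left]
      intro d k1 k2
      exact (mem_filter.1 k2).2 (mem_filter.1 k1).1
  rw [h2, h3] at h4
  rw [← h4] at h1
  norm_num at h1
  exact h1

/-- strict states with 6 tokens, two of them adjacent, no star, are solvable -/
def AdjSol (V D : Type*) : Prop :=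
  ∀ (G : MG V D) (t : V → ℝ) (fr : Finset V) (F : Finset D), G.St6c t fr F ∅ →
    (∃ d ∈ G.ds, 1 ≤ t (G.pi d) ∧ 1 ≤ t (G.pi (G.al d))) → ∃ M, G.GoodS one1 fr F ∅ M

/-- even unions of fresh circuits have at least 6 ports -/
def EV6 (G : MG V D) (fr : Finset V) (F : Finset D) (jm : Finset V) : Prop :=
  ∀ X, G.Adm fr F X → Even X.card → X.Nonempty → 6 ≤ (G.bd X).card + (X ∩ jm).card

/-- the same with the condition EV6 -/
def AdjSol6 (V D : Type*) : Prop :=
  ∀ (G : MG V D) (t : V → ℝ) (fr : Finset V) (F : Finset D), G.St6c t fr F ∅ → G.EV6 fr F ∅ →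
    (∃ d ∈ G.ds, 1 ≤ t (G.pi d) ∧ 1 ≤ t (G.pi (G.al d))) → ∃ M, G.GoodS one1 fr F ∅ M

theorem AdjSol.six (h : AdjSol V D) : AdjSol6 V D := fun G t fr F hS _ ha => h G t fr F hS ha

/-- EV6 for a root state -/
theorem Str.ev6 (h : Str G) {J : Finset D}
    (h4 : ∀ X ⊆ G.vs, Even X.card → (G.bd X).card = 4 → ∃ d ∈ G.bd X, d ∉ J)
    {G' : MG V D} {fr : Finset V} {F : Finset D} (hf : fr ⊆ G.vs) (hne : fr ≠ G.vs)
    (hX : ∀ X, G'.Adm fr F X → G'.bd X = G.bd X ∧ ∀ d ∈ G.bd X, d ∈ J) : G'.EV6 fr F ∅ := by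
  intro X hA he hn
  obtain ⟨h1, h2⟩ := hX X hA
  have hXs : X ⊆ G.vs := hA.sub.trans hf
  have h3 := h.evn X hXs he hn fun k => hne (Subset.antisymm hf (by rw [← k]; exact hA.sub))
  have h5 : (G.bd X).card ≠ 4 := by
    intro h6
    obtain ⟨d, hd, hd'⟩ := h4 X hXs he h6
    exact hd' (h2 d hd)
  have h6 : Even (G.bd X).card := by
    have h7 : (G.bd X).card + (G.ed X X).card = 3 * X.card := by
      have h8 : ∑ v ∈ X, (G.st v).card = 3 * X.card := by
        rw [sum_congr rfl fun v hv => h.cubic v (hXs hv), sum_const, smul_eq_mul, mul_comm]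
      rw [← h8, ← card_biUnion]
      · rw [← card_union_of_disjoint]
        · congr 1
          ext d
          rw [mem_union, mem_bd, mem_ed, mem_biUnion]
          constructor
          · rintro (⟨k1, k2, -⟩ | ⟨k1, k2, -⟩)
            · exact ⟨_, k2, mem_st.2 ⟨k1, rfl⟩⟩
            · exact ⟨_, k2, mem_st.2 ⟨k1, rfl⟩⟩
          · rintro ⟨v, hv, k1⟩
            obtain ⟨k2, rfl⟩ := mem_st.1 k1
            by_cases k3 : G.pi (G.al d) ∈ X
            · exact Or.inr ⟨k2, hv, k3⟩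
            · exact Or.inl ⟨k2, hv, k3⟩
        · rw [disjoint_left]
          intro d k1 k2
          exact (mem_bd.1 k1).2.2 (mem_ed.1 k2).2.2
      · intro u _ v _ huv
        change Disjoint (G.st u) (G.st v)
        rw [disjoint_left]
        intro d k1 k2
        exact huv ((mem_st.1 k1).2.symm.trans (mem_st.1 k2).2)
    have h9 := S6.ed_even G X
    obtain ⟨a, ha⟩ := h9
    obtain ⟨b, hb⟩ := he
    rw [Nat.even_iff]
    omega
  rw [h1]
  obtain ⟨k, hk⟩ := h6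
  omega

/-- **P* for strict graphs**, in the frame MG -/
theorem Str.ps (h : Str G) (hL : AdjSol6 V D) {J : Finset D} (hJ : G.IsPM J)
    (h4 : ∀ X ⊆ G.vs, Even X.card → (G.bd X).card = 4 → ∃ d ∈ G.bd X, d ∉ J)
    {x y : D} (hx : x ∈ J) (hy : y ∈ G.ds) (hxy : G.pi x = G.pi y) :
    ∃ N, G.IsPM N ∧ y ∈ N ∧ ∀ Z ⊆ G.vs, Odd Z.card → ∃ d ∈ G.bd Z, ¬ (d ∈ J ∧ d ∈ N) := by
  have hxd := hJ.sub hx
  have halJ : ∀ d ∈ G.ds, (d ∈ J ↔ G.al d ∈ J) := by
    intro d hd
    refine ⟨hJ.closed d, fun h1 => ?_⟩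
    have h2 := hJ.closed _ h1
    rwa [G.al_al d hd] at h2
  obtain ⟨f1, f2, m1, m2, p1, p2, n12, n1, n2, hall⟩ := h.three hxd
  by_cases hyJ : y ∈ J
  · -- `y = x`
    have hyx : y = x := pm_uniq hJ hyJ hx hxy.symm
    subst hyx
    have f1J : f1 ∉ J := fun k => n1 (pm_uniq hJ k hyJ p1)
    obtain ⟨a, b, ma, mb, pa, pb, nab, na, nb, hall2⟩ := h.three (G.al_mem _ m1)
    -- `a'` at the end of `f1`, not in `J`, other than `al f1`
    obtain ⟨a', ma', pa', na', aJ⟩ : ∃ a' ∈ G.ds, G.pi a' = G.pi (G.al f1) ∧ a' ≠ G.al f1 ∧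
        a' ∉ J := by
      by_cases k1 : a ∈ J
      · exact ⟨b, mb, pb, nb, fun k2 => nab (pm_uniq hJ k1 k2 (pa.trans pb.symm))⟩
      · exact ⟨a, ma, pa, na, k1⟩
    obtain ⟨g, gJ, pg⟩ := pm_ex hJ (G.pi_mem _ (G.al_mem _ ma'))
    have q3 : G.pi g ≠ G.pi f1 := by
      intro k1
      rw [pg] at k1
      have k2 : f1 ≠ G.al a' := fun k3 => na' (by rw [k3, G.al_al _ ma'])
      refine h.simple m1 (G.al_mem _ ma') k1.symm k2 ?_
      rw [G.al_al _ ma', pa']
    have q3' : G.pi (G.al g) ≠ G.pi f1 := by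
      intro k1
      have k2 : G.al g = y := pm_uniq hJ (hJ.closed _ gJ) hyJ (k1.trans p1)
      have k3 : G.al y = g := by rw [← k2, G.al_al _ (hJ.sub gJ)]
      exact h.notri m1 ma' hy p1.symm pa' (by rw [k3, pg]) n1.symm na'
    have k : K3e G f1 f2 g := ⟨m1, m2, hJ.sub gJ, p2.trans p1.symm, n12, q3, q3'⟩
    obtain ⟨fr, F, hS, hE, hM⟩ := k.root h hJ (by
      intro Z _ hZ d hd
      have e1 := hZ f1 m1 (Or.inr (K3e.mem.2 (by tauto)))
      have e2 := hZ f2 m2 (Or.inr (K3e.mem.2 (by tauto)))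
      have e3 := hZ g (hJ.sub gJ) (Or.inr (K3e.mem.2 (by tauto)))
      have e4 := hZ a' ma' (Or.inl aJ)
      rw [k.p12] at e2
      rw [pa', ← pg] at e4
      rcases K3e.mem.1 hd with rfl | rfl | rfl | rfl | rfl | rfl
      · exact Iff.rfl
      · exact e1.symm
      · rw [k.p12]
      · exact e2.symm
      · rw [← e4]; exact e1.symm
      · rw [← e3, ← e4]; exact e1.symm)
    have haC : a' ∉ G.c6 f1 f2 g := by
      intro k1
      rcases K3e.mem.1 k1 with k2 | k2 | k2 | k2 | k2 | k2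
      · refine G.noloop f1 m1 ?_
        rw [← pa', k2]
      · exact na' k2
      · refine G.noloop f1 m1 ?_
        rw [← pa', k2, p2, p1]
      · refine h.simple m1 m2 (p1.trans p2.symm) n12 ?_
        rw [← k2, pa']
      · exact aJ (by rw [k2]; exact gJ)
      · exact aJ (by rw [k2]; exact hJ.closed _ gJ)
    have hfrne : fr ≠ G.vs := by
      intro k1
      have k2 : G.pi f1 ∈ fr := by rw [k1]; exact G.pi_mem _ m1
      have k3 := k.tk_pos (d := f1) (K3e.mem.2 (by tauto))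
      rw [hS.nofr k2] at k3
      linarith
    obtain ⟨N, hN⟩ := hL k.gr k.tk fr F hS (h.ev6 h4 hS.fresh.fsub hfrne hE) ⟨a', k.mem_ds.2 ⟨ma', haC⟩, by
      change 1 ≤ k.tk (G.pi a')
      rw [pa']
      exact k.tk_pos (K3e.mem.2 (by tauto)), by
      change 1 ≤ k.tk (G.pi (G.al a'))
      rw [← pg]
      exact k.tk_pos (K3e.mem.2 (by tauto))⟩
    obtain ⟨w1, w2, w3⟩ := hM N hN
    refine ⟨N, w1, ?_, w3⟩
    obtain ⟨m, mN, pm⟩ := pm_ex w1 (G.pi_mem _ hy)
    rcases hall m (w1.sub mN) pm with k1 | k1 | k1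
    · rwa [← k1]
    · exact absurd (K3e.mem.2 (by tauto)) (w2 m mN)
    · exact absurd (K3e.mem.2 (by tauto)) (w2 m mN)
  · -- `y ∉ J`
    obtain ⟨f, mf, pf, nfx, nfy, hall3⟩ : ∃ f ∈ G.ds, G.pi f = G.pi x ∧ f ≠ x ∧ f ≠ y ∧
        ∀ d ∈ G.ds, G.pi d = G.pi x → d = x ∨ d = y ∨ d = f := by
      rcases hall y hy hxy.symm with k1 | k1 | k1
      · exact absurd (by rw [k1]; exact hx) hyJ
      · refine ⟨f2, m2, p2, n2, by rw [k1]; exact n12.symm, fun d hd hp => ?_⟩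
        rw [k1]
        exact hall d hd hp
      · refine ⟨f1, m1, p1, n1, by rw [k1]; exact n12, fun d hd hp => ?_⟩
        rw [k1]
        have := hall d hd hp
        tauto
    obtain ⟨g, gJ, pg⟩ := pm_ex hJ (G.pi_mem _ (G.al_mem _ hy))
    have q3 : G.pi g ≠ G.pi f := by
      rw [pg, pf, hxy]
      exact G.noloop y hy
    have q3' : G.pi (G.al g) ≠ G.pi f := by
      intro k1
      have k2 : G.al g = x := pm_uniq hJ (hJ.closed _ gJ) hx (k1.trans pf)
      have k3 : G.al x = g := by rw [← k2, G.al_al _ (hJ.sub gJ)]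
      refine h.simple hxd hy hxy (fun k4 => hyJ (by rw [← k4]; exact hx)) ?_
      rw [k3, pg]
    have k : K3e G f x g := ⟨mf, hxd, hJ.sub gJ, pf.symm, nfx, q3, q3'⟩
    obtain ⟨fr, F, hS, hE, hM⟩ := k.root h hJ (by
      intro Z _ hZ d hd
      have e1 := hZ f mf (Or.inr (K3e.mem.2 (by tauto)))
      have e2 := hZ x hxd (Or.inr (K3e.mem.2 (by tauto)))
      have e3 := hZ g (hJ.sub gJ) (Or.inr (K3e.mem.2 (by tauto)))
      have e4 := hZ y hy (Or.inl hyJ)
      rw [← pf] at e2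
      rw [← hxy, ← pf, ← pg] at e4
      rcases K3e.mem.1 hd with rfl | rfl | rfl | rfl | rfl | rfl
      · exact Iff.rfl
      · exact e1.symm
      · rw [pf]
      · exact e2.symm
      · exact e4.symm
      · rw [← e3]; exact e4.symm)
    have haC : y ∉ G.c6 f x g := by
      intro k1
      rcases K3e.mem.1 k1 with k2 | k2 | k2 | k2 | k2 | k2
      · exact nfy k2.symm
      · refine G.noloop f mf ?_
        rw [← k2, ← hxy, pf]
      · exact hyJ (by rw [k2]; exact hx)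
      · exact hyJ (by rw [k2]; exact hJ.closed _ hx)
      · exact hyJ (by rw [k2]; exact gJ)
      · exact hyJ (by rw [k2]; exact hJ.closed _ gJ)
    have hfrne : fr ≠ G.vs := by
      intro k1
      have k2 : G.pi f ∈ fr := by rw [k1]; exact G.pi_mem _ mf
      have k3 := k.tk_pos (d := f) (K3e.mem.2 (by tauto))
      rw [hS.nofr k2] at k3
      linarith
    obtain ⟨N, hN⟩ := hL k.gr k.tk fr F hS (h.ev6 h4 hS.fresh.fsub hfrne hE) ⟨y, k.mem_ds.2 ⟨hy, haC⟩, by
      change 1 ≤ k.tk (G.pi y)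
      rw [← hxy, ← pf]
      exact k.tk_pos (K3e.mem.2 (by tauto)), by
      change 1 ≤ k.tk (G.pi (G.al y))
      rw [← pg]
      exact k.tk_pos (K3e.mem.2 (by tauto))⟩
    obtain ⟨w1, w2, w3⟩ := hM N hN
    refine ⟨N, w1, ?_, w3⟩
    obtain ⟨m, mN, pm⟩ := pm_ex w1 (G.pi_mem _ hy)
    rcases hall3 m (w1.sub mN) (pm.trans hxy.symm) with k1 | k1 | k1
    · exact absurd (K3e.mem.2 (by tauto)) (w2 m mN)
    · rwa [← k1]
    · exact absurd (K3e.mem.2 (by tauto)) (w2 m mN)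

/-- `D(S) ≤ c` for a state: in the linear form (helper17) -/
def DLe (G : MG V D) (t : V → ℝ) (fr : Finset V) (c : ℝ) : Prop :=
  ∀ p : V → ℝ, (∀ v ∈ G.vs, |p v| ≤ 1) → (∀ v ∈ G.vs, t v ≠ 0 → p v = 1) →
    (∀ d ∈ G.ds, G.pi d ∉ fr → G.pi (G.al d) ∉ fr → p (G.pi d) + p (G.pi (G.al d)) = 0) →
    ∑ v ∈ G.vs \ fr, p v ≤ c

/-- two adjacent tokens: there is no such `p` at all -/
theorem St6c.dle {t : V → ℝ} {fr : Finset V} {F : Finset D} (h : G.St6c t fr F ∅) {d : D}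
    (hd : d ∈ G.ds) (h1 : 1 ≤ t (G.pi d)) (h2 : 1 ≤ t (G.pi (G.al d))) (c : ℝ) :
    G.DLe t fr c := by
  intro p _ hp hq
  exfalso
  have h3 := hp _ (G.pi_mem _ hd) (by linarith)
  have h4 := hp _ (G.pi_mem _ (G.al_mem _ hd)) (by linarith)
  have h5 := hq d hd (fun k => by rw [h.nofr k] at h1; linarith)
    (fun k => by rw [h.nofr k] at h2; linarith)
  linarith

end MG

/-! ### the frame JK.CG -/

/-- **P* for strict cubic graphs from the states with two adjacent tokens** -/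
theorem ps_of_adj6 {V D : Type*} (hL : MG.AdjSol6 V D) (G : JK.CG V D) (hT : R5.K.TEC G)
    (hN : R5.K.NoThree G) : R5.K.PS G := by
  have hnt : ∀ d ∈ G.ds, G.al d ≠ d := by
    intro d hd h
    have h1 : d ∈ G.tk G.vs := G.mem_tk.2 ⟨hd, G.pi_mem d hd, h⟩
    rw [hT.tok] at h1
    exact notMem_empty _ h1
  have hnl : ∀ d ∈ G.ds, G.al d ≠ d → G.pi (G.al d) ≠ G.pi d :=
    fun d hd h => hT.b0.no_loop hd h
  have hdg : ∀ X : Finset V, G.dg X = (G.bd X).card := by
    intro X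
    have h1 : G.tk X = ∅ := by
      rw [eq_empty_iff_forall_notMem]
      intro d hd
      obtain ⟨h1, -, h3⟩ := G.mem_tk.1 hd
      exact hnt d h1 h3
    unfold JK.CG.dg
    rw [h1]
    simp
  intro x hx y hy hxy
  obtain ⟨J, hJc, hxJ⟩ := R5.K.exists_clean G hT x hx
  have hJ := hJc.pm
  by_cases h6 : 6 ≤ G.vs.card
  · obtain ⟨G', hG'⟩ : ∃ G', G' = MG.ofCG G hnl := ⟨_, rfl⟩
    have hvs : G'.vs = G.vs := by rw [hG']; rfl
    have hpi : G'.pi = G.pi := by rw [hG']; rfl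
    have hal : G'.al = G.al := by rw [hG']; rfl
    have hds : ∀ d, d ∈ G'.ds ↔ d ∈ G.ds := by
      intro d
      rw [hG']
      constructor
      · exact fun h => (mem_filter.1 h).1
      · exact fun h => mem_filter.2 ⟨h, hnt d h⟩
    have hbd : ∀ X, G'.bd X = G.bd X := by
      intro X
      ext d
      unfold MG.bd JK.CG.bd
      rw [mem_filter, mem_filter, hds, hpi, hal]
    have hS : MG.Str G' := by
      refine ⟨by rw [hvs]; exact hT.evenvs, by rw [hvs]; exact h6, ?_, ?_, ?_⟩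
      · intro v hv
        rw [hvs] at hv
        rw [← G.cubic v hv]
        congr 1
        ext d
        rw [MG.mem_st, mem_filter, hds, hpi]
      · intro X hX ho h1 h2
        rw [hvs] at hX h2
        rw [hbd]
        have h3 : 3 ≤ (G.bd X).card := by
          rw [← hdg]
          exact hT.b0 X hX ho
        have h4 : Odd (G.bd X).card := by
          rw [← hdg]
          exact (G.dg_parity hX).2 ho
        have h5 : (G.bd X).card ≠ 3 := by
          intro h7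
          rcases hN X hX ho h7 with h8 | h8
          · exact h1 h8
          · exact h2 h8
        obtain ⟨k, hk⟩ := h4
        omega
      · intro X hX he hn h1
        rw [hvs] at hX h1
        rw [hbd]
        exact hT.evn X hX he hn h1
    have hJ' : G'.IsPM J := by
      refine ⟨fun d hd => (hds d).2 (hJ.sub hd), ?_, ?_⟩
      · intro d hd
        rw [hal]
        exact hJ.closed d hd
      · intro v hv
        rw [hvs] at hv
        rw [← hJ.one v hv, hpi]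
    have h4 : ∀ X ⊆ G'.vs, Even X.card → (G'.bd X).card = 4 → ∃ d ∈ G'.bd X, d ∉ J := by
      intro X hX he hc
      rw [hvs] at hX
      rw [hbd] at hc ⊢
      exact hJc.four X hX he hc
    obtain ⟨N, hN1, hyN, hN2⟩ := hS.ps hL hJ' h4 hxJ ((hds y).2 hy) (by rw [hpi]; exact hxy)
    refine ⟨J, N, ⟨hJ, ⟨fun d hd => (hds d).1 (hN1.sub hd), ?_,
      fun d hd => hnt d ((hds d).1 (hN1.sub hd)), ?_⟩, ?_⟩, hxJ, hyN⟩
    · intro d hd
      have h1 := hN1.closed d hd
      rwa [hal] at h1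
    · intro v hv
      have h1 := hN1.one v (by rw [hvs]; exact hv)
      rwa [hpi] at h1
    · intro Z hZ ho
      have h1 := hN2 Z (by rw [hvs]; exact hZ) ho
      rwa [hbd] at h1
  · -- at most four vertices: every odd set is a vertex or the complement of a vertex
    obtain ⟨N, hNc, hyN⟩ := R5.K.exists_clean G hT y hy
    refine ⟨J, N, ⟨hJ, hNc.pm, ?_⟩, hxJ, hyN⟩
    intro Z hZ ho
    by_contra hcon
    push Not at hcon
    have h1 : (G.vs \ Z).card + Z.card = G.vs.card := card_sdiff_add_card_eq_card hZ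
    have hev := hT.evenvs
    have h2 : Z.card = 1 ∨ (G.vs \ Z).card = 1 := by
      obtain ⟨a, ha⟩ := ho
      obtain ⟨b, hb⟩ := hev
      omega
    rcases h2 with h2 | h2
    · obtain ⟨w, rfl⟩ := card_eq_one.1 h2
      have hw := hZ (mem_singleton_self w)
      have h3 : (G.ds.filter fun d => G.pi d = w) ⊆ J.filter fun d => G.pi d = w := by
        intro d hd
        obtain ⟨k1, k2⟩ := mem_filter.1 hd
        refine mem_filter.2 ⟨(hcon d ((G.mem_bd).2 ⟨k1, ?_, ?_⟩)).1, k2⟩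
        · rw [mem_singleton]; exact k2
        · rw [mem_singleton, ← k2]; exact hnl d k1 (hnt d k1)
      have h4 := card_le_card h3
      rw [G.cubic w hw, hJ.one w hw] at h4
      omega
    · obtain ⟨w, hw⟩ := card_eq_one.1 h2
      have hwm : w ∈ G.vs \ Z := by rw [hw]; exact mem_singleton_self w
      obtain ⟨hwv, hwZ⟩ := mem_sdiff.1 hwm
      have h3 : (G.ds.filter fun d => G.pi d = w) ⊆ J.filter fun d => G.pi d = w := by
        intro d hd
        obtain ⟨k1, k2⟩ := mem_filter.1 hd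
        have k3 : G.pi (G.al d) ∈ Z := by
          by_contra k4
          have k5 : G.pi (G.al d) ∈ G.vs \ Z := mem_sdiff.2 ⟨G.pi_mem _ (G.al_mem _ k1), k4⟩
          rw [hw, mem_singleton, ← k2] at k5
          exact hnl d k1 (hnt d k1) k5
        have k6 := (hcon (G.al d) ((G.mem_bd).2 ⟨G.al_mem d k1, k3, by
          rw [G.al_al d k1, k2]; exact hwZ⟩)).1
        have k7 := hJ.closed _ k6
        rw [G.al_al d k1] at k7
        exact mem_filter.2 ⟨k7, k2⟩
      have h4 := card_le_card h3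
      rw [G.cubic w hwv, hJ.one w hwv] at h4
      omega

theorem ps_of_adj {V D : Type*} (hL : MG.AdjSol V D) (G : JK.CG V D) (hT : R5.K.TEC G)
    (hN : R5.K.NoThree G) : R5.K.PS G := ps_of_adj6 hL.six G hT hN

/-- **S11409 from the strict 6-states with two adjacent tokens and EV6** -/
theorem final_of_adj6 (hL : ∀ V D : Type, MG.AdjSol6 V D) :
    ∀ (V : Type) [Fintype V] (G : SimpleGraph V),
      (∀ v : V, (G.neighborSet v).ncard = 3) →
      (∀ v w : V, G.Adj v w → (G.deleteEdges {s(v, w)}).Reachable v w) →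
      ∃ F₁ F₂ C : SimpleGraph V,
        F₁ ≤ G ∧ F₂ ≤ G ∧ C ≤ G ∧
        (∀ v : V, (F₁.neighborSet v).ncard = 2) ∧
        (∀ v : V, (F₂.neighborSet v).ncard = 2) ∧
        (∀ v : V, Even ((C.neighborSet v).ncard)) ∧
        F₁ ⊔ F₂ ⊔ C = G :=
  R5.K.ps_final fun V D G hT hN => ps_of_adj6 (hL V D) G hT hN

/-- **S11409 from the strict 6-states with two adjacent tokens** -/
theorem final_of_adj (hL : ∀ V D : Type, MG.AdjSol V D) :
    ∀ (V : Type) [Fintype V] (G : SimpleGraph V),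
      (∀ v : V, (G.neighborSet v).ncard = 3) →
      (∀ v w : V, G.Adj v w → (G.deleteEdges {s(v, w)}).Reachable v w) →
      ∃ F₁ F₂ C : SimpleGraph V,
        F₁ ≤ G ∧ F₂ ≤ G ∧ C ≤ G ∧
        (∀ v : V, (F₁.neighborSet v).ncard = 2) ∧
        (∀ v : V, (F₂.neighborSet v).ncard = 2) ∧
        (∀ v : V, Even ((C.neighborSet v).ncard)) ∧
        F₁ ⊔ F₂ ⊔ C = G :=
  R5.K.ps_final fun V D G hT hN => ps_of_adj (hL V D) G hT hN

/-- **S11409 from (L)**: every strict state with 6 tokens, without star, and `D(S) ≤ 1` is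
solvable -/
theorem final_of_L (hL : ∀ (V D : Type) (G : MG V D) (t : V → ℝ) (fr : Finset V) (F : Finset D),
      G.St6c t fr F ∅ → G.DLe t fr 1 → ∃ M, G.GoodS MG.one1 fr F ∅ M) :
    ∀ (V : Type) [Fintype V] (G : SimpleGraph V),
      (∀ v : V, (G.neighborSet v).ncard = 3) →
      (∀ v w : V, G.Adj v w → (G.deleteEdges {s(v, w)}).Reachable v w) →
      ∃ F₁ F₂ C : SimpleGraph V,
        F₁ ≤ G ∧ F₂ ≤ G ∧ C ≤ G ∧
        (∀ v : V, (F₁.neighborSet v).ncard = 2) ∧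
        (∀ v : V, (F₂.neighborSet v).ncard = 2) ∧
        (∀ v : V, Even ((C.neighborSet v).ncard)) ∧
        F₁ ⊔ F₂ ⊔ C = G :=
  final_of_adj fun V D G t fr F hS ⟨_, hd, h1, h2⟩ => hL V D G t fr F hS (hS.dle hd h1 h2 1)

end RH
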