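import Pool.Agent.Lib.RH.CE6
import Pool.Agent.Lib.RH.PRoot

/-! The frozen statement S11409 from the theorem CE6 (states without star): the root states have two
adjacent tokens, so no certificate. -/

set_option autoImplicit false

namespace RH

open Finset Classical

namespace MG

variable {V D : Type*} {G : MG V D} {t : V → ℝ} {fr : Finset V} {F : Finset D} {jm : Finset V}

/-- a root state is in the class -/
theorem St6c.ek (h : G.St6c t fr F jm) (h6 : G.EV6 fr F jm) : G.EK 6 t fr F jm :=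
  ⟨h.even, h.fresh, h.jm2, h.deg, h.t0, h.tau, h.odd, h.evn, h6⟩

/-- CE6 solves the states with two adjacent tokens -/
theorem adjSol6_of (h : ∀ (G : MG V D) (t : V → ℝ) (fr : Finset V) (F : Finset D),
    G.EK 6 t fr F ∅ → G.Sol6 t fr F ∅) : AdjSol6 V D := by
  intro G t fr F hS hE ⟨d, hd, h1, h2⟩
  rcases h G t fr F (hS.ek hE) with h3 | ⟨p, hp⟩
  · exact h3
  · exfalso
    refine hp.no_adj hd (fun hF => ?_) (fun e => by rw [e] at h1; linarith)
      (fun e => by rw [e] at h2; linarith)
    have h4 := hS.nofr (hS.fresh.Ffr d hF)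
    rw [h4] at h1
    linarith

end MG

/-- **S11409 from CE6 without star** -/
theorem final_of_sol6 (h : ∀ (V D : Type) (G : MG V D) (t : V → ℝ) (fr : Finset V) (F : Finset D),
      G.EK 6 t fr F ∅ → G.Sol6 t fr F ∅) :
    ∀ (V : Type) [Fintype V] (G : SimpleGraph V),
      (∀ v : V, (G.neighborSet v).ncard = 3) →
      (∀ v w : V, G.Adj v w → (G.deleteEdges {s(v, w)}).Reachable v w) →
      ∃ F₁ F₂ C : SimpleGraph V,
        F₁ ≤ G ∧ F₂ ≤ G ∧ C ≤ G ∧
        (∀ v : V, (F₁.neighborSet v).ncard = 2) ∧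
        (∀ v : V, (F₂.neighborSet v).ncard = 2) ∧
        (∀ v : V, Even ((C.neighborSet v).ncard)) ∧
        F₁ ⊔ F₂ ⊔ C = G :=
  final_of_adj6 fun V D => MG.adjSol6_of (h V D)

end RH
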