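import Pool.Agent.Lib.RH.CE6W

/-! Sets crossed by F-darts (`MG.FCut`). -/

set_option autoImplicit false

namespace RH

open Finset Classical

namespace MG

variable {V D : Type*} {G : MG V D} {z : D → ℝ} {t : V → ℝ} {fr : Finset V} {F : Finset D}
variable {jm X N : Finset V} {k : ℝ} {d : D}

/-- an F-dart leaves `W` -/
def FCut (G : MG V D) (F : Finset D) (W : Finset V) : Prop :=
  ∃ d ∈ F, G.pi d ∈ W ∧ G.pi (G.al d) ∉ W

private theorem even_inv (S : Finset D) (hS : S ⊆ G.ds) (hcl : ∀ d ∈ S, G.al d ∈ S) :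
    Even S.card := by
  have h1 : ∑ _d ∈ S, (1 : ZMod 2) = 0 := by
    refine sum_involution (fun d _ => G.al d) ?_ ?_ ?_ ?_
    · intro d _
      decide
    · intro d hd _ he
      exact G.noloop d (hS hd) (by rw [he])
    · intro d hd
      exact hcl d hd
    · intro d hd
      exact G.al_al d (hS hd)
  rw [sum_const, nsmul_eq_mul, mul_one] at h1
  exact (ZMod.natCast_eq_zero_iff_even).1 h1

/-- an even number of F-darts leaves a set -/
theorem FrS.bdF_even (hF : G.FrS z fr F jm) (X : Finset V) :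
    Even ((G.bd X).filter fun d => d ∈ F).card := by
  have h1 : (F.filter fun d => G.pi d ∈ X).card = ∑ v ∈ X ∩ fr, 2 := by
    rw [card_eq_sum_card_fiberwise (f := G.pi) (t := X ∩ fr)]
    · refine sum_congr rfl fun v hv => ?_
      obtain ⟨hv1, hv2⟩ := mem_inter.1 hv
      rw [← hF.two v hv2]
      congr 1
      ext d
      simp only [mem_filter]
      constructor
      · rintro ⟨⟨h1, -⟩, h2⟩
        exact ⟨h1, h2⟩
      · rintro ⟨h1, h2⟩
        exact ⟨⟨h1, by rw [h2]; exact hv1⟩, h2⟩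
    · intro d hd
      obtain ⟨h1, h2⟩ := mem_filter.1 (mem_coe.1 hd)
      exact mem_coe.2 (mem_inter.2 ⟨h2, hF.Ffr d h1⟩)
  have h2 : (F.filter fun d => G.pi d ∈ X) =
      ((G.bd X).filter fun d => d ∈ F) ∪ (G.ed X X).filter fun d => d ∈ F := by
    ext d
    simp only [mem_union, mem_filter, mem_bd, mem_ed]
    constructor
    · rintro ⟨h2, h3⟩
      by_cases h4 : G.pi (G.al d) ∈ X
      · exact Or.inr ⟨⟨hF.Fsub h2, h3, h4⟩, h2⟩
      · exact Or.inl ⟨⟨hF.Fsub h2, h3, h4⟩, h2⟩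
    · rintro (⟨⟨-, h3, -⟩, h4⟩ | ⟨⟨-, h3, -⟩, h4⟩)
      · exact ⟨h4, h3⟩
      · exact ⟨h4, h3⟩
  have h3 : Disjoint ((G.bd X).filter fun d => d ∈ F) ((G.ed X X).filter fun d => d ∈ F) := by
    rw [disjoint_left]
    intro d h4 h5
    exact (mem_bd.1 (mem_filter.1 h4).1).2.2 (mem_ed.1 (mem_filter.1 h5).1).2.2
  have h4 : Even ((G.ed X X).filter fun d => d ∈ F).card := by
    refine even_inv (G := G) ((G.ed X X).filter fun d => d ∈ F)
      (fun d hd => (mem_ed.1 (mem_filter.1 hd).1).1) fun d hd => ?_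
    obtain ⟨h6, h7⟩ := mem_filter.1 hd
    obtain ⟨h8, h9, h10⟩ := mem_ed.1 h6
    exact mem_filter.2 ⟨mem_ed.2 ⟨G.al_mem d h8, h10, by rw [G.al_al d h8]; exact h9⟩,
      hF.Fal d h7⟩
  rw [h2, card_union_of_disjoint h3, sum_const, smul_eq_mul] at h1
  obtain ⟨k, hk⟩ := h4
  rw [Nat.even_iff]
  omega

/-- a fresh vertex has at most one dart outside the circuits -/
theorem FrS.uniqJ (hF : G.FrS z fr F jm) {d e : D} (hd : d ∈ G.ds) (he : e ∈ G.ds)
    (h1 : G.pi d = G.pi e) (hv : G.pi d ∈ fr) (hdF : d ∉ F) (heF : e ∉ F) : d = e := by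
  by_cases hj : G.pi d ∈ jm
  · exact absurd (hF.j0 _ hj d (mem_st.2 ⟨hd, rfl⟩)) hdF
  · obtain ⟨x, hx⟩ := card_eq_one.1 (hF.jd _ hv hj)
    have m1 : d ∈ (G.st (G.pi d)).filter fun e => e ∉ F :=
      mem_filter.2 ⟨mem_st.2 ⟨hd, rfl⟩, hdF⟩
    have m2 : e ∈ (G.st (G.pi d)).filter fun e => e ∉ F :=
      mem_filter.2 ⟨mem_st.2 ⟨he, h1.symm⟩, heF⟩
    rw [hx, mem_singleton] at m1 m2
    rw [m1, m2]

/-- a crossed set: at least two F-darts leave it -/
theorem FCut.two (hF : G.FrS z fr F jm) (hc : FCut G F X) :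
    2 ≤ ((G.bd X).filter fun d => d ∈ F).card := by
  obtain ⟨n, hn⟩ := hF.bdF_even X
  obtain ⟨d, d1, d2, d3⟩ := hc
  have h1 : 0 < ((G.bd X).filter fun d => d ∈ F).card :=
    card_pos.2 ⟨d, mem_filter.2 ⟨mem_bd.2 ⟨hF.Fsub d1, d2, d3⟩, d1⟩⟩
  omega

/-- with one more leaving dart: three -/
theorem FCut.three (hF : G.FrS z fr F jm) (hc : FCut G F X) (hd : d ∈ G.bd X) (hdF : d ∉ F) :
    3 ≤ (G.bd X).card := by
  have h1 := hc.two hF
  have h2 : insert d ((G.bd X).filter fun d => d ∈ F) ⊆ G.bd X :=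
    insert_subset hd (filter_subset _ _)
  have h3 := card_le_card h2
  rw [card_insert_of_notMem fun h4 => hdF (mem_filter.1 h4).2] at h3
  have h5 := h1
  refine le_trans (Nat.succ_le_succ h5) h3

/-- a crossed set of value 4 with a token and another leaving dart has exactly one token -/
theorem EK.one_tok (h : EK G k t fr F jm) (hN : N ⊆ G.vs) (hv : G.val one1 t N = 4)
    (hy : ∃ y ∈ N, 1 ≤ t y) (hd : d ∈ G.bd N) (hdF : d ∉ F) (hc : FCut G F N) :
    ∑ v ∈ N, t v = 1 := by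
  have h1 := hc.three h.fresh hd hdF
  have h2 : ((3 : ℕ) : ℝ) ≤ ((G.bd N).card : ℝ) := by exact_mod_cast h1
  push_cast at h2
  rw [val_one] at hv
  obtain ⟨y, y1, y2⟩ := hy
  have h3 : t y ≤ ∑ v ∈ N, t v := single_le_sum (fun v hv => h.t0 v (hN hv)) y1
  linarith

end MG

end RH
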