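import Pool.Agent.Lib.RH.CE6W
import Pool.Agent.Lib.RH.FCut
import Pool.Agent.Lib.RH.TplF

/-! Sets in the outer side `A` of a blocked step (`MG.BW`) with one token in `W = vs - A`: the exits
end in different vertices, `X6.gamB`, `X6.lamB`, `X6.penB` (any position of the star). `NoE`: there
is no even set of value 4 with a token and at least four vertices on both sides. -/

set_option autoImplicit false

namespace RH

open Finset Classical

namespace Tpl

/-- `lam`: no even 4-set with the ports 0, 1; no odd 5-set with the ports 0, 1, 3 -/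
theorem lam_tab2 : lam.Tab 1 9 (one1S 4) (oE lamE)
    (oO 1 (univ.filter fun κ => ¬ (0 ∈ κ ∧ 1 ∈ κ ∧ 3 ∈ κ))) where
  t0 := by decide +kernel
  t1 := by decide +kernel
  t2 := by decide +kernel
  t3 := by decide +kernel
  t4 := by decide +kernel

/-- `pen` with different ends -/
theorem pen_tab1 : pen.Tab 1 9 (one1S 4) (oE univ) (oO 1 univ) where
  t0 := by decide +kernel
  t1 := by decide +kernel
  t2 := by decide +kernel
  t3 := by decide +kernel
  t4 := by decide +kernel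

end Tpl

namespace MG

variable {V D : Type*} {G : MG V D} {t : V → ℝ} {fr : Finset V} {F : Finset D}
variable {jm A X Y : Finset V} {e d d' c c' : D} {k : ℝ}

/-- (E): no even set with a real token, of value 4, at least four vertices on both sides; if it is
crossed by F-darts: with exactly one token -/
def NoE (G : MG V D) (t : V → ℝ) (fr : Finset V) (F : Finset D) : Prop :=
  ∀ Y ⊆ G.vs, Even Y.card → 4 ≤ Y.card → 4 ≤ (G.vs \ Y).card → (∃ y ∈ Y, y ∉ fr ∧ 1 ≤ t y) →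
    (FCut G F Y → ∑ v ∈ Y, t v = 1) → G.val one1 t Y ≠ 4

theorem sdj (hX : X ⊆ A) : Disjoint X (G.vs \ A) :=
  disjoint_left.2 fun _ hv hv' => (mem_sdiff.1 hv').2 (hX hv)

theorem qx_two (hd : d ∈ G.bd A) (hd' : d' ∈ G.bd A) (hn : d ≠ d') (h1 : G.pi d ∈ X)
    (h2 : G.pi d' ∈ X) : 2 ≤ qx G A X := by
  unfold qx
  rw [← card_pair hn]
  refine card_le_card fun x hx => ?_
  rw [mem_insert, mem_singleton] at hx
  rcases hx with rfl | rfl
  · exact mem_filter.2 ⟨hd, h1⟩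
  · exact mem_filter.2 ⟨hd', h2⟩

theorem qx_three (hd : d ∈ G.bd A) (hd' : d' ∈ G.bd A) (hc : c ∈ G.bd A) (h12 : d ≠ d')
    (h13 : d ≠ c) (h23 : d' ≠ c) (h1 : G.pi d ∈ X) (h2 : G.pi d' ∈ X) (h3 : G.pi c ∈ X) :
    3 ≤ qx G A X := by
  have h0 : ({d, d', c} : Finset D).card = 3 := by
    rw [card_insert_of_notMem, card_pair h23]
    rw [mem_insert, mem_singleton, not_or]
    exact ⟨h12, h13⟩
  unfold qx
  rw [← h0]
  refine card_le_card fun x hx => ?_
  rw [mem_insert, mem_insert, mem_singleton] at hx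
  rcases hx with rfl | rfl | rfl
  · exact mem_filter.2 ⟨hd, h1⟩
  · exact mem_filter.2 ⟨hd', h2⟩
  · exact mem_filter.2 ⟨hc, h3⟩

/-- a set of value 4 with the end of `e` has a unit from this end to the rest -/
theorem EK.unit_in (h : EK G k t fr F jm) (hX : X ⊆ G.vs) (heX : Even X.card)
    (vX : G.val one1 t X = 4) {v : V} (hv : v ∈ X) :
    ∃ g ∈ G.st v, G.pi (G.al g) ∈ X := by
  by_contra hcon
  push Not at hcon
  have hs : X.erase v ⊆ G.vs := (erase_subset _ _).trans hX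
  have h1 := h.wt.val_disj (singleton_subset_iff.2 (hX hv)) hs
    (disjoint_left.2 fun w hw hw' => (mem_erase.1 hw').1 (mem_singleton.1 hw))
  have h2 : {v} ∪ X.erase v = X := by
    rw [← insert_eq, insert_erase hv]
  have h3 : G.ed {v} (X.erase v) = ∅ := by
    rw [eq_empty_iff_forall_notMem]
    intro g hg
    obtain ⟨k1, k2, k3⟩ := mem_ed.1 hg
    exact hcon g (mem_st.2 ⟨k1, mem_singleton.1 k2⟩) (mem_of_mem_erase k3)
  rw [h2, h3, sum_empty, vX, h.wt.val_single (hX hv)] at h1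
  have h4 : Odd (X.erase v).card := by
    rw [card_erase_of_mem hv]
    rw [Nat.even_iff] at heX
    rw [Nat.odd_iff]
    have : 0 < X.card := card_pos.2 ⟨v, hv⟩
    omega
  have h5 := h.wt.cut _ hs h4
  linarith

namespace BW

variable (b : BW G t F A e)
include b

theorem oblk : OBlk G t F A 1 where
  hA := b.hA
  par := Nat.odd_iff.1 b.odd
  two := by have := b.big; omega
  val := by rw [b.val]; norm_num
  hF := b.hF

theorem oddA (h : EK G k t fr F jm) : Odd A.card := by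
  have h1 := card_sdiff_add_card_eq_card b.hA
  have h2 := b.odd
  have h3 := h.even
  rw [Nat.odd_iff] at h2 ⊢
  rw [Nat.even_iff] at h3
  omega

/-- one token: four exits -/
theorem four (hT : ∑ v ∈ G.vs \ A, t v = 1) : (G.bd A).card = 4 := by
  have h1 := b.bd_tok
  rw [hT] at h1
  have : ((G.bd A).card : ℝ) = ((4 : ℕ) : ℝ) := by
    push_cast
    linarith
  exact_mod_cast this

/-- the exits -/
theorem exits (hT : ∑ v ∈ G.vs \ A, t v = 1) : ∃ u1 u2 u3, G.bd A = {e, u1, u2, u3} ∧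
    [e, u1, u2, u3].Nodup := by
  have h1 := b.four hT
  have h2 : ((G.bd A).erase e).card = 3 := by rw [card_erase_of_mem b.he, h1]
  obtain ⟨u1, u2, u3, n1, n2, n3, h3⟩ := card_eq_three.1 h2
  have h4 : ∀ u ∈ ({u1, u2, u3} : Finset D), e ≠ u := by
    intro u hu he
    rw [← h3, ← he] at hu
    exact (mem_erase.1 hu).1 rfl
  refine ⟨u1, u2, u3, ?_, ?_⟩
  · rw [← h3, insert_erase b.he]
  · simp only [List.nodup_cons, List.mem_cons, List.not_mem_nil, or_false, not_or, not_false_iff,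
      List.nodup_nil, and_true]
    exact ⟨⟨h4 u1 (by simp), h4 u2 (by simp), h4 u3 (by simp)⟩, ⟨n1, n2⟩, n3⟩

theorem join (h : EK G k t fr F jm) (hX : X ⊆ A) :
    G.val one1 t (X ∪ (G.vs \ A)) = G.val one1 t X + 5 - 2 * qx G A X := by
  rw [h.join b.hA hX, b.val]

theorem ne_vs (hX : X ⊆ A) : X ≠ G.vs := by
  rintro rfl
  have h1 := b.big
  have h2 : G.vs \ A = ∅ := sdiff_eq_empty_iff_subset.2 hX
  rw [h2, card_empty] at h1
  omega

omit b in
theorem jcard (hX : X ⊆ A) : (X ∪ (G.vs \ A)).card = X.card + (G.vs \ A).card :=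
  card_union_of_disjoint (sdj hX)

theorem jcomp (_hX : X ⊆ A) : G.vs \ (X ∪ (G.vs \ A)) = A \ X := by
  ext v
  rw [mem_sdiff, mem_union, mem_sdiff, mem_sdiff]
  constructor
  · rintro ⟨h1, h2⟩
    rw [not_or] at h2
    refine ⟨?_, h2.1⟩
    by_contra h3
    exact h2.2 ⟨h1, h3⟩
  · rintro ⟨h1, h2⟩
    exact ⟨b.hA h1, fun h3 => h3.elim h2 fun h4 => h4.2 h1⟩

/-- (E) for `X + W` -/
theorem joinE (h : EK G k t fr F jm) (hE : NoE G t fr F) (hy : ∃ y ∈ G.vs \ A, y ∉ fr ∧ 1 ≤ t y) (hX : X ⊆ A) (ho : Odd X.card)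
    (h4 : 4 ≤ (A \ X).card) (hex : ¬ FCut G F (X ∪ (G.vs \ A)) ∨ ∃ c ∈ G.bd A, G.pi c ∉ X) :
    6 ≤ G.val one1 t (X ∪ (G.vs \ A)) := by
  have hs : X ∪ (G.vs \ A) ⊆ G.vs := union_subset (hX.trans b.hA) sdiff_subset
  have h1 := jcard (G := G) hX
  have h2 := b.odd
  have h3 := b.big
  have he : Even (X ∪ (G.vs \ A)).card := by
    rw [h1]
    exact ho.add_odd h2
  have hn : (X ∪ (G.vs \ A)).Nonempty := card_pos.1 (by omega)
  have hc := b.jcomp hX
  have hv : X ∪ (G.vs \ A) ≠ G.vs := by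
    intro h5
    rw [h5, Finset.sdiff_self] at hc
    rw [← hc, card_empty] at h4
    omega
  rcases h.evn_or hs he hn hv with h5 | h5
  · exfalso
    refine hE _ hs he ?_ (by rw [hc]; exact h4) ?_ ?_ h5
    · rw [h1]
      have := ho.pos
      omega
    · obtain ⟨y, y1, y2⟩ := hy
      exact ⟨y, mem_union_right _ y1, y2⟩
    · intro hcut
      rcases hex with hex | ⟨c, c1, c2⟩
      · exact absurd hcut hex
      · obtain ⟨c3, c4, c5⟩ := mem_bd.1 (bd_al b.hA c1)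
        refine h.one_tok hs h5 (by
          obtain ⟨y, y1, y2⟩ := hy
          exact ⟨y, mem_union_right _ y1, y2.2⟩) (d := G.al c)
          (mem_bd.2 ⟨c3, mem_union_right _ c4, fun c6 => ?_⟩) (fun c6 => ?_) hcut
        · rw [G.al_al _ (mem_bd.1 c1).1] at c6
          rcases mem_union.1 c6 with c7 | c7
          · exact c2 c7
          · exact (mem_sdiff.1 c7).2 (mem_bd.1 c1).2.1
        · have c7 := h.fresh.Fal _ c6
          rw [G.al_al _ (mem_bd.1 c1).1] at c7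
          exact (mem_sdiff.1 c4).2 (b.hF _ c7 (mem_bd.1 c1).2.1)
  · exact h5

/-- **(a)** the exits end in different vertices -/
theorem inj (h : EK G k t fr F jm) (hE : NoE G t fr F) (hy : ∃ y ∈ G.vs \ A, y ∉ fr ∧ 1 ≤ t y) (h5 : 5 ≤ A.card) (hd : d ∈ G.bd A)
    (hd' : d' ∈ G.bd A) (hn : d ≠ d') : G.pi d ≠ G.pi d' := by
  intro he
  have hv : G.pi d ∈ A := (mem_bd.1 hd).2.1
  have hX : {G.pi d} ⊆ A := singleton_subset_iff.2 hv
  have h1 := b.joinE h hE hy hX (by rw [card_singleton]; exact odd_one) (by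
    rw [card_sdiff_of_subset hX, card_singleton]
    omega) (Or.inl (by
      have nF : ∀ {c}, c ∈ G.bd A → c ∉ F := fun {c} c1 c2 =>
        (mem_bd.1 c1).2.2 (b.hF _ c2 (mem_bd.1 c1).2.1)
      have hf : G.pi d ∉ fr := fun c1 => hn (h.fresh.uniqJ (mem_bd.1 hd).1 (mem_bd.1 hd').1 he c1
        (nF hd) (nF hd'))
      rintro ⟨x, x1, x2, x3⟩
      rcases mem_union.1 x2 with x4 | x4
      · rw [mem_singleton] at x4
        exact hf (x4 ▸ h.fresh.Ffr x x1)
      · have x5 : G.pi (G.al x) ∈ G.vs := G.pi_mem _ (G.al_mem _ (h.fresh.Fsub x1))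
        have x6 : G.pi (G.al x) ∈ A := by
          by_contra x6
          exact x3 (mem_union_right _ (mem_sdiff.2 ⟨x5, x6⟩))
        have x7 := b.hF _ (h.fresh.Fal _ x1) x6
        rw [G.al_al _ (h.fresh.Fsub x1)] at x7
        exact (mem_sdiff.1 x4).2 x7))
  rw [b.join h hX, h.wt.val_single (b.hA hv)] at h1
  have h2 := qx_two (X := {G.pi d}) hd hd' hn (mem_singleton_self _)
    (by rw [he]; exact mem_singleton_self _)
  have h3 : ((2 : ℕ) : ℝ) ≤ qx G A {G.pi d} := by exact_mod_cast h2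
  push_cast at h3
  linarith

/-- **(b)** an even set of value 4 contains at most one end of an exit different from `e` -/
theorem two4 (h : EK G k t fr F jm) (hX : X ⊆ A) (hev : Even X.card) (hd : d ∈ G.bd A)
    (hd' : d' ∈ G.bd A) (hn : d ≠ d') (de : d ≠ e) (de' : d' ≠ e) (h1 : G.pi d ∈ X)
    (h2 : G.pi d' ∈ X) : G.val one1 t X ≠ 4 := by
  intro h4
  have h3 := b.join h hX
  rw [h4] at h3
  by_cases h5 : G.pi e ∈ X
  · have h6 := qx_three hd hd' b.he hn de de' h1 h2 h5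
    have h7 : ((3 : ℕ) : ℝ) ≤ qx G A X := by exact_mod_cast h6
    push_cast at h7
    have h8 := h.tabO b.hA hX (hev.add_odd b.odd) (by have := b.big; omega)
    rw [h4, b.val] at h8
    linarith
  · have h6 := qx_two hd hd' hn h1 h2
    have h7 : ((2 : ℕ) : ℝ) ≤ qx G A X := by exact_mod_cast h6
    push_cast at h7
    have h8 := b.mO X hX hev ⟨_, h1⟩ h5
    linarith

/-- two bad sets meet in the end of `e` only -/
theorem bad_inter (h : EK G k t fr F jm) (hX : X ⊆ A) (hY : Y ⊆ A) (heX : Even X.card)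
    (heY : Even Y.card) (vX : G.val one1 t X = 4) (vY : G.val one1 t Y = 4) (hd : d ∈ G.bd A)
    (hd' : d' ∈ G.bd A) (hn : d ≠ d') (de : d ≠ e) (de' : d' ≠ e) (h1 : G.pi d ∈ X)
    (h2 : G.pi d' ∈ Y) (e1 : G.pi e ∈ X) (e2 : G.pi e ∈ Y) : X ∩ Y = {G.pi e} := by
  have hXv := hX.trans b.hA
  have hYv := hY.trans b.hA
  have hm := h.wt.submod hXv hYv
  rw [vX, vY] at hm
  have h0 := h.wt.ed_nonneg (X \ Y) (Y \ X)
  have hi : G.pi e ∈ X ∩ Y := mem_inter.2 ⟨e1, e2⟩
  have hiv : X ∩ Y ⊆ G.vs := inter_subset_left.trans hXv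
  have huA : X ∪ Y ⊆ A := union_subset hX hY
  have huv : X ∪ Y ⊆ G.vs := huA.trans b.hA
  have hc := card_union_add_card_inter X Y
  rw [Nat.even_iff] at heX heY
  rcases Nat.even_or_odd (X ∩ Y).card with hp | hp
  · exfalso
    have hp' := Nat.even_iff.1 hp
    have hu : Even (X ∪ Y).card := by
      rw [Nat.even_iff]
      omega
    have h3 := h.evn _ hiv hp ⟨_, hi⟩ (b.ne_vs (inter_subset_left.trans hX))
    have h4 := h.evn _ huv hu ⟨_, mem_union_left _ e1⟩ (b.ne_vs huA)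
    exact b.two4 h huA hu hd hd' hn de de' (mem_union_left _ h1) (mem_union_right _ h2)
      (by linarith)
  · have hp' := Nat.odd_iff.1 hp
    have hu : Odd (X ∪ Y).card := by
      rw [Nat.odd_iff]
      omega
    have h2c : 2 ≤ X.card := by
      have h3 : 0 < X.card := card_pos.2 ⟨_, e1⟩
      omega
    have h3 : X.card ≤ (X ∪ Y).card := card_le_card subset_union_left
    have h4 := h.odd _ huv hu (by omega)
    by_cases h5 : (X ∩ Y).card = 1
    · obtain ⟨v, hv⟩ := card_eq_one.1 h5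
      rw [hv] at hi ⊢
      rw [mem_singleton.1 hi]
    · exfalso
      have h6 := h.odd _ hiv hp h5
      linarith

end BW

/-- the exit `d` is not joined to `e` by an even set of value 4 -/
def Gd (G : MG V D) (t : V → ℝ) (A : Finset V) (e d : D) : Prop :=
  ∀ X ⊆ A, Even X.card → G.pi e ∈ X → G.pi d ∈ X → G.val one1 t X ≠ 4

namespace BW

variable (b : BW G t F A e)
include b

/-- **(c)** at most two of three exits are bad -/
theorem exists_gd (h : EK G k t fr F jm) {u1 u2 u3 : D} (h1 : u1 ∈ G.bd A) (h2 : u2 ∈ G.bd A)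
    (h3 : u3 ∈ G.bd A) (n1 : e ≠ u1) (n2 : e ≠ u2) (n3 : e ≠ u3) (n12 : u1 ≠ u2) (n13 : u1 ≠ u3)
    (n23 : u2 ≠ u3) : Gd G t A e u1 ∨ Gd G t A e u2 ∨ Gd G t A e u3 := by
  by_contra hcon
  rw [not_or, not_or] at hcon
  obtain ⟨c1, c2, c3⟩ := hcon
  unfold Gd at c1 c2 c3
  push Not at c1 c2 c3
  obtain ⟨X1, a1, b1, m1, l1, v1⟩ := c1
  obtain ⟨X2, a2, b2, m2, l2, v2⟩ := c2
  obtain ⟨X3, a3, b3, m3, l3, v3⟩ := c3
  have i12 := b.bad_inter h a1 a2 b1 b2 v1 v2 h1 h2 n12 (Ne.symm n1) (Ne.symm n2) l1 l2 m1 m2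
  have i13 := b.bad_inter h a1 a3 b1 b3 v1 v3 h1 h3 n13 (Ne.symm n1) (Ne.symm n3) l1 l3 m1 m3
  have i23 := b.bad_inter h a2 a3 b2 b3 v2 v3 h2 h3 n23 (Ne.symm n2) (Ne.symm n3) l2 l3 m2 m3
  obtain ⟨g1, s1, p1⟩ := h.unit_in (a1.trans b.hA) b1 v1 m1
  obtain ⟨g2, s2, p2⟩ := h.unit_in (a2.trans b.hA) b2 v2 m2
  obtain ⟨g3, s3, p3⟩ := h.unit_in (a3.trans b.hA) b3 v3 m3
  obtain ⟨k1, k2, k3⟩ := mem_bd.1 b.he
  have key : ∀ {X Y : Finset V} {g g' : D}, X ∩ Y = {G.pi e} → g ∈ G.st (G.pi e) →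
      G.pi (G.al g) ∈ X → G.pi (G.al g') ∈ Y → g ≠ g' := by
    intro X Y g g' hi hg hgX hgY hgg
    rw [← hgg] at hgY
    have h5 : G.pi (G.al g) ∈ X ∩ Y := mem_inter.2 ⟨hgX, hgY⟩
    rw [hi, mem_singleton] at h5
    obtain ⟨q1, q2⟩ := mem_st.1 hg
    exact G.noloop g q1 (h5.trans q2.symm)
  have ke : ∀ {X : Finset V} {g : D}, X ⊆ A → G.pi (G.al g) ∈ X → e ≠ g := by
    intro X g hX hg he
    rw [← he] at hg
    exact k3 (hX hg)
  have hc : ({e, g1, g2, g3} : Finset D).card = 4 := by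
    rw [card_insert_of_notMem, card_insert_of_notMem, card_pair (key i23 s2 p2 p3)]
    · rw [mem_insert, mem_singleton, not_or]
      exact ⟨key i12 s1 p1 p2, key i13 s1 p1 p3⟩
    · rw [mem_insert, mem_insert, mem_singleton, not_or, not_or]
      exact ⟨ke a1 p1, ke a2 p2, ke a3 p3⟩
  have hs : ({e, g1, g2, g3} : Finset D) ⊆ G.st (G.pi e) := by
    intro x hx
    rw [mem_insert, mem_insert, mem_insert, mem_singleton] at hx
    rcases hx with rfl | rfl | rfl | rfl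
    · exact mem_st.2 ⟨k1, rfl⟩
    · exact s1
    · exact s2
    · exact s3
  have h5 := card_le_card hs
  rw [hc] at h5
  obtain ⟨n, -, h7⟩ := h.tnat (b.hA k2)
  omega

/-- **(c)**, the data of `Gam`: `q` is joined with `e`, the others with each other -/
theorem gam_data (h : EK G k t fr F jm) (hE : NoE G t fr F) (hy : ∃ y ∈ G.vs \ A, y ∉ fr ∧ 1 ≤ t y) (h5 : 5 ≤ A.card)
    (hT : ∑ v ∈ G.vs \ A, t v = 1) : ∃ q r u, G.bd A = {e, q, r, u} ∧ [e, q, r, u].Nodup ∧
      G.pi e ≠ G.pi q ∧ G.pi r ≠ G.pi u ∧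
      (∀ X ⊆ A, Even X.card → G.pi e ∈ X → G.pi q ∈ X → G.val one1 t X ≠ 4) ∧
      (∀ X ⊆ A, Even X.card → G.pi r ∈ X → G.pi u ∈ X → G.val one1 t X ≠ 4) := by
  obtain ⟨u1, u2, u3, hbd, hnd⟩ := b.exits hT
  have m1 : u1 ∈ G.bd A := by rw [hbd]; simp
  have m2 : u2 ∈ G.bd A := by rw [hbd]; simp
  have m3 : u3 ∈ G.bd A := by rw [hbd]; simp
  simp only [List.nodup_cons, List.mem_cons, List.not_mem_nil, or_false, not_or, not_false_iff,
    List.nodup_nil, and_true] at hnd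
  obtain ⟨⟨n1, n2, n3⟩, ⟨n4, n5⟩, n6⟩ := hnd
  rcases b.exists_gd h m1 m2 m3 n1 n2 n3 n4 n5 n6 with hg | hg | hg
  · refine ⟨u1, u2, u3, hbd, ?_, b.inj h hE hy h5 b.he m1 n1, b.inj h hE hy h5 m2 m3 n6, hg,
      fun X hX hev => b.two4 h hX hev m2 m3 n6 (Ne.symm n2) (Ne.symm n3)⟩
    simp only [List.nodup_cons, List.mem_cons, List.not_mem_nil, or_false, not_or, not_false_iff,
      List.nodup_nil, and_true]
    exact ⟨⟨n1, n2, n3⟩, ⟨n4, n5⟩, n6⟩
  · refine ⟨u2, u1, u3, ?_, ?_, b.inj h hE hy h5 b.he m2 n2, b.inj h hE hy h5 m1 m3 n5, hg,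
      fun X hX hev => b.two4 h hX hev m1 m3 n5 (Ne.symm n1) (Ne.symm n3)⟩
    · rw [hbd]
      ext x
      simp only [mem_insert, mem_singleton]
      tauto
    · simp only [List.nodup_cons, List.mem_cons, List.not_mem_nil, or_false, not_or,
        not_false_iff, List.nodup_nil, and_true]
      exact ⟨⟨n2, n1, n3⟩, ⟨Ne.symm n4, n6⟩, n5⟩
  · refine ⟨u3, u1, u2, ?_, ?_, b.inj h hE hy h5 b.he m3 n3, b.inj h hE hy h5 m1 m2 n4, hg,
      fun X hX hev => b.two4 h hX hev m1 m2 n4 (Ne.symm n1) (Ne.symm n2)⟩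
    · rw [hbd]
      ext x
      simp only [mem_insert, mem_singleton]
      tauto
    · simp only [List.nodup_cons, List.mem_cons, List.not_mem_nil, or_false, not_or,
        not_false_iff, List.nodup_nil, and_true]
      exact ⟨⟨n3, n1, n2⟩, ⟨Ne.symm n5, Ne.symm n6⟩, n4⟩

end BW

/-! ### the inner side: bad pairs -/

/-- the pair `p`, `q` is bad: the inner ends are equal or in an even set of value 4 -/
def Bd (G : MG V D) (t : V → ℝ) (A : Finset V) (p q : D) : Prop :=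
  G.pi (G.al p) = G.pi (G.al q) ∨ ∃ Z ⊆ G.vs \ A, Even Z.card ∧ G.pi (G.al p) ∈ Z ∧
    G.pi (G.al q) ∈ Z ∧ G.val one1 t Z = 4

theorem Bd.symm {p q : D} (h : G.Bd t A p q) : G.Bd t A q p := by
  rcases h with h | ⟨Z, h1, h2, h3, h4, h5⟩
  · exact Or.inl h.symm
  · exact Or.inr ⟨Z, h1, h2, h4, h3, h5⟩

namespace BW

variable (b : BW G t F A e)
include b

theorem cardW : (G.bd (G.vs \ A)).card = (G.bd A).card := by
  have h1 := b.val
  rw [val_one] at h1
  have h2 := b.bd_tok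
  have : ((G.bd (G.vs \ A)).card : ℝ) = (G.bd A).card := by linarith
  exact_mod_cast this

/-- removing a subset of `W`: the value of the rest -/
theorem rem (h : EK G k t fr F jm) {Z : Finset V} (hZ : Z ⊆ G.vs \ A) :
    G.val one1 t ((G.vs \ A) \ Z) = G.val one1 t Z + 5 -
      2 * (((G.bd (G.vs \ A)).filter fun d => G.pi d ∈ Z).card : ℝ) - 2 * ∑ v ∈ Z, t v := by
  have hs : G.vs \ A ⊆ G.vs := sdiff_subset
  have h1 := h.wt.posimod hs (hZ.trans hs)
  have e1 : Z \ (G.vs \ A) = ∅ := sdiff_eq_empty_iff_subset.2 hZ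
  have e2 : (G.vs \ A) ∩ Z = Z := inter_eq_right.2 hZ
  have e3 : (G.vs \ A) ∪ Z = G.vs \ A := union_eq_left.2 hZ
  have e4 : ∑ d ∈ G.ed Z (G.vs \ (G.vs \ A)), one1 d =
      (((G.bd (G.vs \ A)).filter fun d => G.pi d ∈ Z).card : ℝ) := by
    have e5 : G.ed Z (G.vs \ (G.vs \ A)) = (G.bd (G.vs \ A)).filter fun d => G.pi d ∈ Z := by
      ext d
      rw [mem_ed, mem_filter, bd_eq_ed, mem_ed]
      exact ⟨fun k => ⟨⟨k.1, hZ k.2.1, k.2.2⟩, k.2.1⟩, fun k => ⟨k.1.1, k.2, k.1.2.2⟩⟩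
    rw [e5]
    unfold one1
    rw [sum_const, nsmul_eq_mul, mul_one]
  rw [e1, e2, e3, val_empty', b.val, e4] at h1
  linarith

/-- an even subset of `W` with value 4 does not contain three ends of exits, if no exit ends in a
token vertex -/
theorem three4 (h : EK G k t fr F jm) (hT : ∑ v ∈ G.vs \ A, t v = 1)
    (h0 : ∀ d ∈ G.bd A, t (G.pi (G.al d)) = 0) {Z : Finset V} (hZ : Z ⊆ G.vs \ A)
    (hev : Even Z.card) (h4 : G.val one1 t Z = 4) {p q r : D} (hp : p ∈ G.bd A)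
    (hq : q ∈ G.bd A) (hr : r ∈ G.bd A) (pq : p ≠ q) (pr : p ≠ r) (qr : q ≠ r)
    (mp : G.pi (G.al p) ∈ Z) (mq : G.pi (G.al q) ∈ Z) (mr : G.pi (G.al r) ∈ Z) : False := by
  have hA := b.hA
  have h1 := b.rem h hZ
  obtain ⟨E, hEd⟩ : ∃ E, E = (G.bd (G.vs \ A)).filter fun d => G.pi d ∈ Z := ⟨_, rfl⟩
  rw [← hEd, h4] at h1
  have ap : G.al p ∈ E := by rw [hEd]; exact mem_filter.2 ⟨bd_al hA hp, mp⟩
  have aq : G.al q ∈ E := by rw [hEd]; exact mem_filter.2 ⟨bd_al hA hq, mq⟩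
  have ar : G.al r ∈ E := by rw [hEd]; exact mem_filter.2 ⟨bd_al hA hr, mr⟩
  have dp := (mem_bd.1 hp).1
  have dq := (mem_bd.1 hq).1
  have dr := (mem_bd.1 hr).1
  have h3 : 3 ≤ E.card := by
    have : ({G.al p, G.al q, G.al r} : Finset D).card = 3 := by
      rw [card_insert_of_notMem, card_pair fun k => qr ((al_eq dq dr).1 k)]
      rw [mem_insert, mem_singleton, not_or]
      exact ⟨fun k => pq ((al_eq dp dq).1 k), fun k => pr ((al_eq dp dr).1 k)⟩
    rw [← this]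
    refine card_le_card fun x hx => ?_
    rw [mem_insert, mem_insert, mem_singleton] at hx
    rcases hx with rfl | rfl | rfl
    · exact ap
    · exact aq
    · exact ar
  have h3' : ((3 : ℕ) : ℝ) ≤ E.card := by exact_mod_cast h3
  push_cast at h3'
  have tz : 0 ≤ ∑ v ∈ Z, t v := sum_nonneg fun v hv => h.t0 v ((hZ.trans sdiff_subset) hv)
  have hRv : (G.vs \ A) \ Z ⊆ G.vs := sdiff_subset.trans sdiff_subset
  have hRo : Odd ((G.vs \ A) \ Z).card := by
    have h5 := card_sdiff_add_card_eq_card hZ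
    have h6 := b.odd
    rw [Nat.odd_iff] at h6 ⊢
    rw [Nat.even_iff] at hev
    omega
  have h7 := h.wt.cut _ hRv hRo
  have h8 : ((G.vs \ A) \ Z).card = 1 := by
    by_contra h8
    have := h.odd _ hRv hRo h8
    linarith
  obtain ⟨y, hy⟩ := card_eq_one.1 h8
  have hyR : y ∈ (G.vs \ A) \ Z := by rw [hy]; exact mem_singleton_self y
  have h9 : ∑ v ∈ Z, t v = 0 := by linarith
  have h10 : t y = 1 := by
    have h11 := sum_sdiff hZ (f := t)
    rw [hy, sum_singleton, h9, hT] at h11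
    linarith
  -- the fourth exit ends in y
  have h12 : (E.card : ℝ) = 3 := by linarith
  have h13 : E.card = 3 := by exact_mod_cast h12
  have h14 : (G.bd (G.vs \ A)).card = 4 := by rw [b.cardW, b.four hT]
  obtain ⟨d, d1, d2⟩ : ∃ d ∈ G.bd (G.vs \ A), G.pi d ∉ Z := by
    by_contra hcon
    push Not at hcon
    have : E = G.bd (G.vs \ A) := by
      rw [hEd]
      exact filter_true_of_mem hcon
    rw [this] at h13
    omega
  have d3 : G.pi d ∈ (G.vs \ A) \ Z := mem_sdiff.2 ⟨(mem_bd.1 d1).2.1, d2⟩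
  rw [hy, mem_singleton] at d3
  have h15 := h0 _ (bd_al' hA d1)
  rw [G.al_al d (mem_bd.1 d1).1, d3, h10] at h15
  exact one_ne_zero h15

/-- two sets of value 4 for `p`, `q` and `p`, `r` meet in the end of `p` -/
theorem bd_inter (h : EK G k t fr F jm) (hT : ∑ v ∈ G.vs \ A, t v = 1)
    (h0 : ∀ d ∈ G.bd A, t (G.pi (G.al d)) = 0) {Z Y : Finset V} (hZ : Z ⊆ G.vs \ A)
    (hY : Y ⊆ G.vs \ A) (evZ : Even Z.card) (evY : Even Y.card) (vZ : G.val one1 t Z = 4)
    (vY : G.val one1 t Y = 4) {p q r : D} (hp : p ∈ G.bd A)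
    (hq : q ∈ G.bd A) (hr : r ∈ G.bd A) (pq : p ≠ q) (pr : p ≠ r) (qr : q ≠ r)
    (p1 : G.pi (G.al p) ∈ Z) (p2 : G.pi (G.al q) ∈ Z) (p3 : G.pi (G.al p) ∈ Y)
    (p4 : G.pi (G.al r) ∈ Y) : Z ∩ Y = {G.pi (G.al p)} ∧ ∀ d ∈ G.ds, G.pi d ∈ Z \ Y →
      G.pi (G.al d) ∉ Y \ Z := by
  have hs : G.vs \ A ⊆ G.vs := sdiff_subset
  have hZv := hZ.trans hs
  have hYv := hY.trans hs
  have hm := h.wt.submod hZv hYv
  rw [vZ, vY] at hm
  have hn := h.wt.ed_nonneg (Z \ Y) (Y \ Z)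
  have hi : G.pi (G.al p) ∈ Z ∩ Y := mem_inter.2 ⟨p1, p3⟩
  have hiv : Z ∩ Y ⊆ G.vs := inter_subset_left.trans hZv
  have huW : Z ∪ Y ⊆ G.vs \ A := union_subset hZ hY
  have huv := huW.trans hs
  have hc := card_union_add_card_inter Z Y
  have hWo := b.odd
  have ne_vs : ∀ {X : Finset V}, X ⊆ G.vs \ A → X ≠ G.vs := by
    intro X hX hXe
    have h1 := (mem_bd.1 b.he).2.1
    have h2 := hX (hXe ▸ b.hA h1)
    exact (mem_sdiff.1 h2).2 h1
  rw [Nat.even_iff] at evZ evY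
  rcases Nat.even_or_odd (Z ∩ Y).card with hp' | hp'
  · exfalso
    have hp2 := Nat.even_iff.1 hp'
    have hu : Even (Z ∪ Y).card := by
      rw [Nat.even_iff]
      omega
    have h3 := h.evn _ hiv hp' ⟨_, hi⟩ (ne_vs (inter_subset_left.trans hZ))
    have h4 := h.evn _ huv hu ⟨_, mem_union_left _ p1⟩ (ne_vs huW)
    exact b.three4 h hT h0 huW hu (by linarith) hp hq hr pq pr qr (mem_union_left _ p1)
      (mem_union_left _ p2) (mem_union_right _ p4)
  · have hp2 := Nat.odd_iff.1 hp'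
    have hu : Odd (Z ∪ Y).card := by
      rw [Nat.odd_iff]
      omega
    have h2c : 2 ≤ Z.card := by
      have h3 : 0 < Z.card := card_pos.2 ⟨_, p1⟩
      omega
    have h3 : Z.card ≤ (Z ∪ Y).card := card_le_card subset_union_left
    have h4 := h.odd _ huv hu (by omega)
    have h5 : (Z ∩ Y).card = 1 := by
      by_contra h5
      have h6 := h.odd _ hiv hp' h5
      linarith
    obtain ⟨v, hv⟩ := card_eq_one.1 h5
    have hv' : v = G.pi (G.al p) := by
      rw [hv, mem_singleton] at hi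
      exact hi.symm
    refine ⟨by rw [hv, hv'], fun d hd d1 d2 => ?_⟩
    rw [hv, h.wt.val_single (hiv (by rw [hv]; exact mem_singleton_self v))] at hm
    have h7 : d ∈ G.ed (Z \ Y) (Y \ Z) := mem_ed.2 ⟨hd, d1, d2⟩
    have h8 : (1 : ℝ) ≤ ∑ d ∈ G.ed (Z \ Y) (Y \ Z), one1 d := by
      have h9 := single_le_sum (f := fun d => (one1 d : ℝ)) (fun x _ => zero_le_one) h7
      exact h9
    linarith

/-- two bad pairs with a common exit: the ends are different and the sets are pairs -/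
theorem bd_pair (h : EK G k t fr F jm) (hT : ∑ v ∈ G.vs \ A, t v = 1)
    (h0 : ∀ d ∈ G.bd A, t (G.pi (G.al d)) = 0) {Z : Finset V} (hZ : Z ⊆ G.vs \ A)
    (evZ : Even Z.card) (vZ : G.val one1 t Z = 4) {p q r : D} (hp : p ∈ G.bd A)
    (hq : q ∈ G.bd A) (hr : r ∈ G.bd A) (pq : p ≠ q) (pr : p ≠ r) (qr : q ≠ r)
    (p1 : G.pi (G.al p) ∈ Z) (p2 : G.pi (G.al q) ∈ Z) (hb : G.Bd t A p r) :
    Z = {G.pi (G.al p), G.pi (G.al q)} ∧ G.pi (G.al p) ≠ G.pi (G.al q) := by
  rcases hb with hb | ⟨Y, hY, evY, p3, p4, vY⟩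
  · exact (b.three4 h hT h0 hZ evZ vZ hp hq hr pq pr qr p1 p2 (hb ▸ p1)).elim
  have hs : G.vs \ A ⊆ G.vs := sdiff_subset
  obtain ⟨i1, -⟩ := b.bd_inter h hT h0 hZ hY evZ evY vZ vY hp hq hr pq pr qr p1 p2 p3 p4
  -- the end of p has a unit to the outside, one into Z, one into Y
  obtain ⟨g1, s1, m1⟩ := h.unit_in (hZ.trans hs) evZ vZ p1
  obtain ⟨g2, s2, m2⟩ := h.unit_in (hY.trans hs) evY vY p3
  have cp := G.pi_mem _ (G.al_mem p (mem_bd.1 hp).1)
  have hap : G.al p ∈ G.st (G.pi (G.al p)) := mem_st.2 ⟨G.al_mem p (mem_bd.1 hp).1, rfl⟩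
  have noA : ∀ {g : D} {X : Finset V}, X ⊆ G.vs \ A → G.pi (G.al g) ∈ X → G.al p ≠ g := by
    intro g X hX hg he
    rw [← he, G.al_al p (mem_bd.1 hp).1] at hg
    exact (mem_sdiff.1 (hX hg)).2 (mem_bd.1 hp).2.1
  have only : ∀ g ∈ G.st (G.pi (G.al p)), G.pi (G.al g) ∈ Z → g = g1 := by
    intro g hg hgZ
    by_contra hne
    have k1 : G.al p ≠ g := noA hZ hgZ
    have k2 : G.al p ≠ g1 := noA hZ m1
    have k3 : G.al p ≠ g2 := noA hY m2
    have k4 : ∀ x ∈ G.st (G.pi (G.al p)), G.pi (G.al x) ∈ Z → x ≠ g2 := by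
      intro x hx hxZ hxe
      rw [← hxe] at m2
      have : G.pi (G.al x) ∈ Z ∩ Y := mem_inter.2 ⟨hxZ, m2⟩
      rw [i1, mem_singleton] at this
      obtain ⟨q1, q2⟩ := mem_st.1 hx
      exact G.noloop x q1 (this.trans q2.symm)
    have hc : ({G.al p, g, g1, g2} : Finset D).card = 4 := by
      rw [card_insert_of_notMem, card_insert_of_notMem, card_pair (k4 g1 s1 m1)]
      · rw [mem_insert, mem_singleton, not_or]
        exact ⟨hne, k4 g hg hgZ⟩
      · rw [mem_insert, mem_insert, mem_singleton, not_or, not_or]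
        exact ⟨k1, k2, k3⟩
    have hsub : ({G.al p, g, g1, g2} : Finset D) ⊆ G.st (G.pi (G.al p)) := by
      intro x hx
      rw [mem_insert, mem_insert, mem_insert, mem_singleton] at hx
      rcases hx with rfl | rfl | rfl | rfl
      · exact hap
      · exact hg
      · exact s1
      · exact s2
    have h5 := card_le_card hsub
    rw [hc] at h5
    obtain ⟨n, -, h7⟩ := h.tnat cp
    omega
  -- the value of Z minus the end of p
  have hv := h.wt.val_disj (singleton_subset_iff.2 ((hZ.trans hs) p1))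
    ((erase_subset (G.pi (G.al p)) Z).trans (hZ.trans hs))
    (disjoint_left.2 fun w hw hw' => (mem_erase.1 hw').1 (mem_singleton.1 hw))
  have h2 : {G.pi (G.al p)} ∪ Z.erase (G.pi (G.al p)) = Z := by rw [← insert_eq, insert_erase p1]
  have h3 : ∑ d ∈ G.ed {G.pi (G.al p)} (Z.erase (G.pi (G.al p))), one1 d ≤ 1 := by
    have h4 : G.ed {G.pi (G.al p)} (Z.erase (G.pi (G.al p))) ⊆ {g1} := by
      intro g hg
      obtain ⟨k1, k2, k3⟩ := mem_ed.1 hg
      rw [mem_singleton]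
      exact only g (mem_st.2 ⟨k1, mem_singleton.1 k2⟩) (mem_of_mem_erase k3)
    unfold one1
    rw [sum_const, nsmul_eq_mul, mul_one]
    have h5 := card_le_card h4
    rw [card_singleton] at h5
    exact_mod_cast h5
  rw [h2, vZ, h.wt.val_single ((hZ.trans hs) p1)] at hv
  have ho : Odd (Z.erase (G.pi (G.al p))).card := by
    rw [card_erase_of_mem p1]
    rw [Nat.even_iff] at evZ
    rw [Nat.odd_iff]
    have : 0 < Z.card := card_pos.2 ⟨_, p1⟩
    omega
  have hc1 : (Z.erase (G.pi (G.al p))).card = 1 := by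
    by_contra hc
    have := h.odd _ ((erase_subset _ _).trans (hZ.trans hs)) ho hc
    linarith
  have hne : G.pi (G.al p) ≠ G.pi (G.al q) := by
    intro he
    -- then two units outside, one into Z, one into Y
    have k1 : G.al q ∈ G.st (G.pi (G.al p)) := mem_st.2 ⟨G.al_mem q (mem_bd.1 hq).1, he.symm⟩
    have k2 : G.al p ≠ G.al q := fun k => pq ((al_eq (mem_bd.1 hp).1 (mem_bd.1 hq).1).1 k)
    have noB : ∀ {g : D} {X : Finset V}, X ⊆ G.vs \ A → G.pi (G.al g) ∈ X → G.al q ≠ g := by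
      intro g X hX hg he
      rw [← he, G.al_al q (mem_bd.1 hq).1] at hg
      exact (mem_sdiff.1 (hX hg)).2 (mem_bd.1 hq).2.1
    have k4 : g1 ≠ g2 := by
      intro hxe
      rw [← hxe] at m2
      have : G.pi (G.al g1) ∈ Z ∩ Y := mem_inter.2 ⟨m1, m2⟩
      rw [i1, mem_singleton] at this
      obtain ⟨q1, q2⟩ := mem_st.1 s1
      exact G.noloop g1 q1 (this.trans q2.symm)
    have hc : ({G.al p, G.al q, g1, g2} : Finset D).card = 4 := by
      rw [card_insert_of_notMem, card_insert_of_notMem, card_pair k4]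
      · rw [mem_insert, mem_singleton, not_or]
        exact ⟨noB hZ m1, noB hY m2⟩
      · rw [mem_insert, mem_insert, mem_singleton, not_or, not_or]
        exact ⟨k2, noA hZ m1, noA hY m2⟩
    have hsub : ({G.al p, G.al q, g1, g2} : Finset D) ⊆ G.st (G.pi (G.al p)) := by
      intro x hx
      rw [mem_insert, mem_insert, mem_insert, mem_singleton] at hx
      rcases hx with rfl | rfl | rfl | rfl
      · exact hap
      · exact k1
      · exact s1
      · exact s2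
    have h5 := card_le_card hsub
    rw [hc] at h5
    obtain ⟨n, -, h7⟩ := h.tnat cp
    omega
  refine ⟨?_, hne⟩
  obtain ⟨w, hw⟩ := card_eq_one.1 hc1
  have h6 : G.pi (G.al q) ∈ Z.erase (G.pi (G.al p)) := mem_erase.2 ⟨hne.symm, p2⟩
  rw [hw, mem_singleton] at h6
  rw [← insert_erase p1, hw, h6]

/-- **PATH LEMMA**: no three exits are pairwise bad -/
theorem path (h : EK G k t fr F jm) (hT : ∑ v ∈ G.vs \ A, t v = 1)
    (h0 : ∀ d ∈ G.bd A, t (G.pi (G.al d)) = 0) {p q r : D} (hp : p ∈ G.bd A)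
    (hq : q ∈ G.bd A) (hr : r ∈ G.bd A) (pq : p ≠ q) (pr : p ≠ r) (qr : q ≠ r) :
    ¬ (G.Bd t A p q ∧ G.Bd t A p r ∧ G.Bd t A q r) := by
  rintro ⟨b1, b2, b3⟩
  have hs : G.vs \ A ⊆ G.vs := sdiff_subset
  -- equal ends
  have eq2 : ∀ {x y z : D}, x ∈ G.bd A → y ∈ G.bd A → z ∈ G.bd A → x ≠ y → x ≠ z → y ≠ z →
      G.Bd t A x z → G.Bd t A y z → G.pi (G.al x) = G.pi (G.al y) → False := by
    intro x y z hx hy hz xy xz yz c1 c2 he
    rcases c1 with c1 | ⟨Z, k1, k2, k3, k4, k5⟩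
    · rcases c2 with c2 | ⟨Z, k1, k2, k3, k4, k5⟩
      · -- three exits at one vertex
        have m1 : G.pi (G.al x) ∈ G.vs \ A := (mem_bd.1 (bd_al b.hA hx)).2.1
        have h1 := b.rem h (singleton_subset_iff.2 m1)
        rw [h.wt.val_single (hs m1), sum_singleton, h0 x hx] at h1
        have h2 : 3 ≤ ((G.bd (G.vs \ A)).filter fun d => G.pi d ∈ ({G.pi (G.al x)} :
            Finset V)).card := by
          have : ({G.al x, G.al y, G.al z} : Finset D).card = 3 := by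
            rw [card_insert_of_notMem, card_pair fun k => yz
              ((al_eq (mem_bd.1 hy).1 (mem_bd.1 hz).1).1 k)]
            rw [mem_insert, mem_singleton, not_or]
            exact ⟨fun k => xy ((al_eq (mem_bd.1 hx).1 (mem_bd.1 hy).1).1 k),
              fun k => xz ((al_eq (mem_bd.1 hx).1 (mem_bd.1 hz).1).1 k)⟩
          rw [← this]
          refine card_le_card fun w hw => ?_
          rw [mem_insert, mem_insert, mem_singleton] at hw
          rcases hw with rfl | rfl | rfl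
          · exact mem_filter.2 ⟨bd_al b.hA hx, mem_singleton_self _⟩
          · exact mem_filter.2 ⟨bd_al b.hA hy, mem_singleton.2 he.symm⟩
          · exact mem_filter.2 ⟨bd_al b.hA hz, mem_singleton.2 c1.symm⟩
        have h3 : ((3 : ℕ) : ℝ) ≤ _ := Nat.cast_le.2 h2
        push_cast at h3
        have h4 : ((G.vs \ A) \ {G.pi (G.al x)}) ⊆ G.vs := sdiff_subset.trans hs
        have h5 : Even ((G.vs \ A) \ {G.pi (G.al x)}).card := by
          rw [card_sdiff_of_subset (singleton_subset_iff.2 m1), card_singleton]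
          have := b.odd
          rw [Nat.odd_iff] at this
          rw [Nat.even_iff]
          omega
        have h6 : ((G.vs \ A) \ {G.pi (G.al x)}).Nonempty := by
          rw [← card_pos, card_sdiff_of_subset (singleton_subset_iff.2 m1), card_singleton]
          have := b.big
          omega
        have h7 := h.evn _ h4 h5 h6 fun k1 => by
          have : G.pi (G.al x) ∈ (G.vs \ A) \ {G.pi (G.al x)} := by
            rw [k1]
            exact hs m1
          exact (mem_sdiff.1 this).2 (mem_singleton_self _)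
        linarith
      · exact b.three4 h hT h0 k1 k2 k5 hx hy hz xy xz yz (he ▸ k3) k3 k4
    · exact b.three4 h hT h0 k1 k2 k5 hx hy hz xy xz yz k3 (he ▸ k3) k4
  rcases b1 with c1 | ⟨Z, z1, z2, z3, z4, z5⟩
  · exact eq2 hp hq hr pq pr qr b2 b3 c1
  rcases b2 with c2 | ⟨Y, y1, y2, y3, y4, y5⟩
  · exact eq2 hp hr hq pr pq qr.symm (Or.inr ⟨Z, z1, z2, z3, z4, z5⟩) b3.symm c2
  rcases b3 with c3 | ⟨X, x1, x2, x3, x4, x5⟩
  · exact eq2 hq hr hp qr pq.symm pr.symm (Or.inr ⟨Z, z1, z2, z4, z3, z5⟩)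
      (Or.inr ⟨Y, y1, y2, y4, y3, y5⟩) c3
  -- the set of q, r is a pair of neighbours
  obtain ⟨e1, n1⟩ := b.bd_pair h hT h0 x1 x2 x5 hq hr hp qr pq.symm pr.symm x3 x4
    (Or.inr ⟨Z, z1, z2, z4, z3, z5⟩)
  obtain ⟨e2, n2⟩ := b.bd_pair h hT h0 z1 z2 z5 hp hq hr pq pr qr z3 z4
    (Or.inr ⟨Y, y1, y2, y3, y4, y5⟩)
  obtain ⟨e3, n3⟩ := b.bd_pair h hT h0 y1 y2 y5 hp hr hq pr pq qr.symm y3 y4
    (Or.inr ⟨Z, z1, z2, z3, z4, z5⟩)
  obtain ⟨-, i2⟩ := b.bd_inter h hT h0 z1 y1 z2 y2 z5 y5 hp hq hr pq pr qr z3 z4 y3 y4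
  obtain ⟨g, s1, m1⟩ := h.unit_in (x1.trans hs) x2 x5 x3
  obtain ⟨g1, g2⟩ := mem_st.1 s1
  have h1 : G.pi (G.al g) = G.pi (G.al r) := by
    rw [e1, mem_insert, mem_singleton] at m1
    rcases m1 with m1 | m1
    · exact absurd (m1.trans g2.symm) (G.noloop g g1)
    · exact m1
  refine i2 g g1 ?_ ?_
  · rw [g2, e3]
    refine mem_sdiff.2 ⟨z4, ?_⟩
    rw [mem_insert, mem_singleton, not_or]
    exact ⟨n2.symm, n1⟩
  · rw [h1, e2]
    refine mem_sdiff.2 ⟨y4, ?_⟩
    rw [mem_insert, mem_singleton, not_or]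
    exact ⟨n3.symm, n1.symm⟩

/-- a large set for the bad pair `p`, `q`: the pair `p`, `r` is not bad -/
theorem not_bd (h : EK G k t fr F jm) (hT : ∑ v ∈ G.vs \ A, t v = 1)
    (h0 : ∀ d ∈ G.bd A, t (G.pi (G.al d)) = 0) {Z : Finset V} (hZ : Z ⊆ G.vs \ A)
    (evZ : Even Z.card) (vZ : G.val one1 t Z = 4) {p q r : D} (hp : p ∈ G.bd A)
    (hq : q ∈ G.bd A) (hr : r ∈ G.bd A) (pq : p ≠ q) (pr : p ≠ r) (qr : q ≠ r)
    (p1 : G.pi (G.al p) ∈ Z) (p2 : G.pi (G.al q) ∈ Z) (h4 : Z.card ≠ 2) : ¬ G.Bd t A p r := by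
  intro hb
  obtain ⟨e1, n1⟩ := b.bd_pair h hT h0 hZ evZ vZ hp hq hr pq pr qr p1 p2 hb
  rw [e1, card_pair n1] at h4
  exact h4 rfl

end BW

end MG

end RH
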