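import Pool.Agent.Lib.RH.CE6W

/-! # Gluing at an even union with six exits (row v)

`GHalf.glueC`: a half of a certificate on `U` (all fresh vertices of the outer side `A` are in `U`)
with the value 1 at all unused exits of `A`: every pair of halves with the same pattern can be glued. -/

set_option autoImplicit false

namespace RH

open Finset Classical

namespace MG

variable {V D : Type*} {G : MG V D} {t : V → ℝ} {k : ℝ}
variable {fr : Finset V} {F M1 M2 : Finset D} {jm A U W X Y : Finset V} {c : V → ℝ}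

/-- a smaller side: all its darts are matched -/
theorem HM.part {M : Finset D} (h : G.HM W M) (hU : U ⊆ W) :
    G.HM U (M.filter fun d => G.pi d ∈ U) where
  sub := fun d hd => ⟨(h.sub d (mem_filter.1 hd).1).1, (mem_filter.1 hd).2⟩
  clo := fun d hd h1 => mem_filter.2 ⟨h.clo d (mem_filter.1 hd).1 (hU h1), h1⟩
  one := fun v hv => by
    rw [← h.one v (hU hv), filter_filter]
    congr 1
    ext d
    rw [mem_filter, mem_filter]
    constructor
    · rintro ⟨h1, h2, h3⟩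
      exact ⟨h1, h3⟩
    · rintro ⟨h1, h2⟩
      exact ⟨h1, h2 ▸ hv, h2⟩

/-- **link law, quasi-closed unions of a side**: half of a certificate on `U ⊆ A`, all fresh vertices of
`A` are in `U`, the value 1 at all unused exits of `A`: no unused exit is at a union which is closed up
to exits -/
theorem EK.linkQ (h : EK G k t fr F jm) (hU : U ⊆ A) (hUf : ∀ v ∈ A, v ∈ fr → v ∈ U)
    (hc : G.HPot one1 t F U c) (hM : G.HM A M1)
    (h1 : ∀ d ∈ G.bd A, d ∉ M1 → G.pi d ∈ fr → c (G.pi d) = 1) (hY : G.QD fr F M1 A Y) :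
    (G.bd Y).filter (fun d => d ∉ M1) = ∅ ∧ Y ∩ jm = ∅ := by
  have hYU : Y ⊆ U := fun v hv => hUf v (hY.sub hv) (hY.adm.sub hv)
  have h2 := h.link hc (hM.part hU) hYU hY.adm fun d hd hn => by
    have h3 : d ∉ M1 := fun h4 => hn (mem_filter.2 ⟨h4, hYU (mem_bd.1 hd).2.1⟩)
    exact h1 d (mem_bd.2 ⟨(mem_bd.1 hd).1, hY.sub (mem_bd.1 hd).2.1, hY.cl d hd h3⟩) h3
      (hY.adm.sub (mem_bd.1 hd).2.1)
  refine ⟨?_, h2.2⟩
  rw [filter_eq_empty_iff]
  intro d hd hn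
  have h3 : d ∈ (G.bd Y).filter fun d => d ∉ M1.filter fun d => G.pi d ∈ U :=
    mem_filter.2 ⟨hd, fun h4 => hn (mem_filter.1 h4).1⟩
  rw [h2.1] at h3
  exact notMem_empty _ h3

/-- **gluing with half of a certificate** which has the value 1 at all unused fresh exits of one side -/
theorem GHalf.glueC (h : EK G k t fr F jm) {y : D → ℝ} (h1 : G.GHalf y fr F jm A M1)
    (h2 : G.GHalf y fr F jm (G.vs \ A) M2) (hx : ∀ d ∈ G.bd A, d ∈ M1 ↔ G.al d ∈ M2)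
    (hFA : ∀ d ∈ F, G.pi d ∈ A → G.pi (G.al d) ∈ A)
    (hU : U ⊆ A) (hUf : ∀ v ∈ A, v ∈ fr → v ∈ U) (hc : G.HPot one1 t F U c)
    (hv : ∀ d ∈ G.bd A, d ∉ M1 → G.pi d ∈ fr → c (G.pi d) = 1) :
    G.GoodS y fr F jm (M1 ∪ M2) := by
  refine GHalf.glueA h.fresh h.jm2 h1 h2 hx hFA fun X hX hcl => ?_
  by_contra hne
  obtain ⟨d, hd⟩ := nonempty_iff_ne_empty.2 hne
  obtain ⟨k1, k2, k3, k4, k5, k6, k7⟩ := mem_uX.1 hd
  have hQ : G.QD fr F M1 A (X ∩ A) := by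
    refine ⟨hX.interW hFA, inter_subset_right, fun x hx hxM hxA => ?_⟩
    obtain ⟨l1, l2, l3⟩ := mem_bd.1 hx
    obtain ⟨l4, l5⟩ := mem_inter.1 l2
    rcases mem_union.1 (hcl x (mem_bd.2 ⟨l1, l4, fun l6 => l3 (mem_inter.2 ⟨l6, hxA⟩)⟩)) with l6 | l6
    · exact hxM l6
    · exact (mem_sdiff.1 (h2.hm.sub x l6).2).2 l5
  have h3 := (h.linkQ hU hUf hc h1.hm hv hQ).1
  have h4 : d ∈ (G.bd (X ∩ A)).filter fun d => d ∉ M1 :=
    mem_filter.2 ⟨mem_bd.2 ⟨k1, mem_inter.2 ⟨k4, k6⟩, fun h5 => k7 (mem_inter.1 h5).2⟩,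
      fun h5 => k3 (mem_union_left _ h5)⟩
  rw [h3] at h4
  exact notMem_empty _ h4

/-- the smallest state has no two such halves -/
theorem X6.no_glueC (h : X6 G t fr F jm) (h1 : G.GHalf one1 fr F jm A M1)
    (h2 : G.GHalf one1 fr F jm (G.vs \ A) M2) (hx : ∀ d ∈ G.bd A, d ∈ M1 ↔ G.al d ∈ M2)
    (hFA : ∀ d ∈ F, G.pi d ∈ A → G.pi (G.al d) ∈ A)
    (hU : U ⊆ A) (hUf : ∀ v ∈ A, v ∈ fr → v ∈ U) (hc : G.HPot one1 t F U c)
    (hv : ∀ d ∈ G.bd A, d ∉ M1 → G.pi d ∈ fr → c (G.pi d) = 1) : False :=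
  h.bad ⟨_, h1.glueC h.toEK h2 hx hFA hU hUf hc hv⟩

end MG

end RH
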