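import Pool.Agent.Lib.RH.CE6W

/-! A set `W = vs - A` with four exits outside the circuits, all singles inside (no step, no
maximality): `X6.w1all`. -/

set_option autoImplicit false

namespace RH

open Finset Classical

namespace MG

variable {V D : Type*} {G : MG V D} {t : V → ℝ}
variable {fr : Finset V} {F M T : Finset D} {jm A W X S : Finset V} {e d : D}

/-- singles are not on both sides (no data of a step) -/
theorem X6.glueSg' (h : X6 G t fr F jm) (hA : A ⊆ G.vs)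
    (hF : ∀ d ∈ F, G.pi d ∈ A → G.pi (G.al d) ∈ A)
    (hc : (G.bd A).card ≤ 4) (hj : jm ⊆ A ∨ (G.bd A).card + (jm ∩ A).card ≤ 4)
    (h2 : G.SOut fr F jm A d) (h1 : G.SAll fr F jm A d) : False := by
  obtain ⟨M2, m1, m2⟩ := h2
  have c1 := m2.unused
  refine h.no_glueT m1 (by omega) ?_ hF ?_ ?_
  · rcases hj with hj | hj
    · exact Or.inl hj
    · right
      omega
  · obtain ⟨M1, n1, n2⟩ := h1.1
    exact ⟨M1, n1, m2.fit hA n2⟩
  · intro T S hT hu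
    obtain ⟨M1, n1, n2, n3⟩ := h1.2 T S hT fun hd => hu d hd ((m2.2 d m2.1).2 rfl)
    exact ⟨M1, n1, m2.fit hA n2, n3⟩

/-- triples are not on both sides (no data of a step) -/
theorem X6.glueTr' (h : X6 G t fr F jm) (hA : A ⊆ G.vs)
    (hF : ∀ d ∈ F, G.pi d ∈ A → G.pi (G.al d) ∈ A) (hj : jm ⊆ A)
    (h2 : G.TOut fr F jm A d) (h1 : G.TIn fr F jm A d) : False := by
  obtain ⟨M2, m1, m2⟩ := h2
  obtain ⟨M1, n1, n2⟩ := h1
  refine h.no_glueT m1 ?_ (Or.inl hj) hF ⟨M1, n1, m2.fit hA n2⟩ ?_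
  · rw [m2.unused, card_singleton]
    norm_num
  · intro T S hT hu
    exfalso
    have h5 : T ⊆ {d} := by
      rw [← m2.unused]
      exact fun x hx => mem_filter.2 ⟨hT.1 hx, hu x hx⟩
    have h6 := card_le_card h5
    rw [card_singleton] at h6
    rcases hT.2.2 with h7 | h7
    · omega
    · obtain ⟨v, hv⟩ := h7.2.2.2
      exact (mem_sdiff.1 hv).2 (hj (mem_sdiff.1 hv).1)

/-- **four exits, all singles inside** (in the sense of T1): no step, no maximality. `hG`: Gam (only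
singles, or all outer ends `+1`), `hPe`: Pent, `hI3`: I3 (all inner ends `-1`), `hPath`: path lemma -/
theorem X6.w1all (h : X6 G t fr F jm) (hA : A ⊆ G.vs)
    (hF : ∀ d ∈ F, G.pi d ∈ A → G.pi (G.al d) ∈ A) (hj : jm ⊆ A)
    (h4 : (G.bd A).card = 4) (he : e ∈ G.bd A)
    (hS : ∀ d ∈ G.bd A, G.SAll fr F jm A d)
    (hG : (∃ d, G.SOut fr F jm A d) ∨ G.COut t F A e 1 1)
    (hPe : ∀ p ∈ G.bd A, ∀ q ∈ G.bd A, p ≠ q →
      (∃ d, G.SOut fr F jm A d) ∨ G.TOut fr F jm A p ∨ G.TOut fr F jm A q)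
    (Bad : D → D → Prop)
    (hI3 : ∀ p ∈ G.bd A, ∀ q ∈ G.bd A, p ≠ q → ¬ Bad p q →
      G.TIn fr F jm A p ∨ G.TIn fr F jm A q ∨ G.CIn t F A e (-1) (-1))
    (hPath : ∀ p ∈ G.bd A, ∀ q ∈ G.bd A, ∀ r ∈ G.bd A, p ≠ q → p ≠ r → q ≠ r →
      ¬ (Bad p q ∧ Bad p r ∧ Bad q r)) : False := by
  have nT : ∀ d, G.TOut fr F jm A d → ¬ G.TIn fr F jm A d := fun d h1 h2 =>
    h.glueTr' hA hF hj h1 h2
  have noS : ¬ ∃ d, G.SOut fr F jm A d := by
    rintro ⟨d, hd⟩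
    have h2 : d ∈ G.bd A := by
      obtain ⟨M, -, m2⟩ := hd
      exact m2.1
    exact h.glueSg' hA hF h4.le (Or.inl hj) hd (hS d h2)
  have hm : G.COut t F A e 1 1 := hG.resolve_left noS
  have nc3 : ¬ G.CIn t F A e (-1) (-1) := fun h1 => h.no_cc h1 hm
  have hTo : ∀ p ∈ G.bd A, ∀ q ∈ G.bd A, p ≠ q → G.TOut fr F jm A p ∨ G.TOut fr F jm A q :=
    fun p hp q hq hpq => (hPe p hp q hq hpq).resolve_left noS
  obtain ⟨d0, hd0, hd1⟩ : ∃ d0 ∈ G.bd A, ∀ d ∈ G.bd A, d ≠ d0 → G.TOut fr F jm A d := by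
    by_cases hall : ∀ d ∈ G.bd A, G.TOut fr F jm A d
    · exact ⟨e, he, fun d hd _ => hall d hd⟩
    · push Not at hall
      obtain ⟨d0, h1, h2⟩ := hall
      exact ⟨d0, h1, fun d hd hne => (hTo d hd d0 h1 hne).resolve_right h2⟩
  have c1 : ((G.bd A).erase d0).card = 3 := by
    rw [card_erase_of_mem hd0, h4]
  obtain ⟨x, y, z, hxy, hxz, hyz, hxyz⟩ := card_eq_three.1 c1
  have mx : x ∈ (G.bd A).erase d0 := by rw [hxyz]; simp
  have my : y ∈ (G.bd A).erase d0 := by rw [hxyz]; simp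
  have mz : z ∈ (G.bd A).erase d0 := by rw [hxyz]; simp
  obtain ⟨x1, x2⟩ := mem_erase.1 mx
  obtain ⟨y1, y2⟩ := mem_erase.1 my
  obtain ⟨z1, z2⟩ := mem_erase.1 mz
  have hb : ∀ p ∈ G.bd A, ∀ q ∈ G.bd A, p ≠ d0 → q ≠ d0 → p ≠ q → Bad p q := by
    intro p hp q hq h1 h2 h3
    by_contra h5
    rcases hI3 p hp q hq h3 h5 with h6 | h6 | h6
    · exact nT p (hd1 p hp h1) h6
    · exact nT q (hd1 q hq h2) h6
    · exact nc3 h6
  exact hPath x x2 y y2 z z2 hxy hxz hyz ⟨hb x x2 y y2 x1 y1 hxy, hb x x2 z z2 x1 z1 hxz,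
    hb y y2 z z2 y1 z1 hyz⟩

end MG

end RH
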