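import Pool.Agent.Lib.RH.CountK

/-! Coloured states (helper52's classification). `CT G z t F I S E`: the vertices are `I` and `S`,
all tokens in `I`, every positive dart which starts in `I` ends in `S`, except the darts of `E` (both
ends in `I`), and every positive dart outside `F` which starts in `S` ends in `I`. So only fresh
F-darts join `S` and `S`. With `E` empty this is the form of a state without good matching; with one
edge in `E` it is such a state with the killed leg added again. -/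

set_option autoImplicit false

namespace RH

open Finset Classical

namespace MG

variable {V D : Type*}

/-- coloured state -/
structure CT (G : MG V D) (z : D → ℝ) (t : V → ℝ) (F : Finset D) (I S : Finset V)
    (E : Finset D) : Prop where
  cover : I ∪ S = G.vs
  disj : Disjoint I S
  tok : ∀ v ∈ S, t v = 0
  ind : ∀ d ∈ G.ds, 0 < z d → d ∉ E → G.pi d ∈ I → G.pi (G.al d) ∈ S
  js : ∀ d ∈ G.ds, 0 < z d → d ∉ F → G.pi d ∈ S → G.pi (G.al d) ∈ I
  Esub : E ⊆ G.ds
  EF : Disjoint E F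
  EI : ∀ d ∈ E, G.pi d ∈ I ∧ G.pi (G.al d) ∈ I

/-- the SS-darts -/
noncomputable def ssd (G : MG V D) (z : D → ℝ) (S : Finset V) : Finset D :=
  G.ds.filter fun d => 0 < z d ∧ G.pi d ∈ S ∧ G.pi (G.al d) ∈ S

variable {G : MG V D} {z : D → ℝ} {t : V → ℝ} {fr : Finset V} {F M E : Finset D}
variable {jm X I S : Finset V}

theorem mem_ssd {d : D} :
    d ∈ G.ssd z S ↔ d ∈ G.ds ∧ 0 < z d ∧ G.pi d ∈ S ∧ G.pi (G.al d) ∈ S := by
  unfold ssd
  rw [mem_filter]

/-- every vertex is in `I` or in `S` -/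
theorem CT.cov (h : CT G z t F I S E) {v : V} (hv : v ∈ G.vs) (hn : v ∉ I) : v ∈ S := by
  rw [← h.cover] at hv
  exact (mem_union.1 hv).resolve_left hn

theorem CT.notI (h : CT G z t F I S E) {v : V} (hv : v ∈ S) : v ∉ I :=
  fun h1 => disjoint_left.1 h.disj h1 hv

theorem CT.notS (h : CT G z t F I S E) {v : V} (hv : v ∈ I) : v ∉ S :=
  fun h1 => disjoint_left.1 h.disj hv h1

theorem CT.Isub (h : CT G z t F I S E) : I ⊆ G.vs := by
  rw [← h.cover]
  exact subset_union_left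

theorem CT.Ssub (h : CT G z t F I S E) : S ⊆ G.vs := by
  rw [← h.cover]
  exact subset_union_right

/-- SS-darts are fresh F-darts -/
theorem CT.ssF (h : CT G z t F I S E) {d : D} (hd : d ∈ G.ssd z S) : d ∈ F := by
  obtain ⟨h1, h2, h3, h4⟩ := mem_ssd.1 hd
  by_contra h5
  exact h.notI h4 (h.js d h1 h2 h5 h3)

/-- all darts at the vertices of a set -/
private theorem sum_at {Y : Finset V} {f : D → ℝ} :
    ∑ v ∈ Y, ∑ d ∈ G.st v, f d = ∑ d ∈ G.ds.filter (fun d => G.pi d ∈ Y), f d := by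
  rw [← sum_fiberwise_of_maps_to (s := G.ds.filter fun d => G.pi d ∈ Y) (t := Y) (g := G.pi)
    (fun d hd => (mem_filter.1 hd).2)]
  refine sum_congr rfl fun v hv => sum_congr ?_ fun _ _ => rfl
  ext d
  rw [mem_st, mem_filter, mem_filter]
  exact ⟨fun k => ⟨⟨k.1, k.2 ▸ hv⟩, k.2⟩, fun k => ⟨k.1.1, k.2⟩⟩

/-- **number of SS-darts** -/
theorem CT.ss_count (h : CT G z t F I S E) (hw : G.Wt z t) (hF1 : ∀ d ∈ F, z d = 1) :
    ((G.ssd z S).card : ℝ) = 3 * ((S.card : ℝ) - I.card) + ∑ v ∈ G.vs, t v + ∑ d ∈ E, z d := by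
  have hI : ∑ d ∈ G.ds.filter (fun d => G.pi d ∈ I), z d + ∑ v ∈ I, t v = 3 * (I.card : ℝ) := by
    rw [← sum_at, ← sum_add_distrib, sum_congr rfl fun v hv => hw.deg v (h.Isub hv), sum_const,
      nsmul_eq_mul, mul_comm]
  have hS : ∑ d ∈ G.ds.filter (fun d => G.pi d ∈ S), z d + ∑ v ∈ S, t v = 3 * (S.card : ℝ) := by
    rw [← sum_at, ← sum_add_distrib, sum_congr rfl fun v hv => hw.deg v (h.Ssub hv), sum_const,
      nsmul_eq_mul, mul_comm]
  have htS : ∑ v ∈ S, t v = 0 := sum_eq_zero h.tok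
  have ht : ∑ v ∈ G.vs, t v = ∑ v ∈ I, t v := by
    rw [← h.cover, sum_union h.disj, htS, add_zero]
  have eI : ∑ d ∈ G.ds.filter (fun d => G.pi d ∈ I), z d =
      ∑ d ∈ G.ed I S, z d + ∑ d ∈ E, z d := by
    have h1 : G.ds.filter (fun d => G.pi d ∈ I) =
        (G.ds.filter fun d => G.pi d ∈ I ∧ d ∉ E) ∪ E := by
      ext d
      rw [mem_union, mem_filter, mem_filter]
      constructor
      · rintro ⟨h2, h3⟩
        by_cases h4 : d ∈ E
        · exact Or.inr h4
        · exact Or.inl ⟨h2, h3, h4⟩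
      · rintro (h2 | h2)
        · exact ⟨h2.1, h2.2.1⟩
        · exact ⟨h.Esub h2, (h.EI d h2).1⟩
    have h2 : Disjoint (G.ds.filter fun d => G.pi d ∈ I ∧ d ∉ E) E := by
      rw [disjoint_left]
      intro d hd
      exact (mem_filter.1 hd).2.2
    rw [h1, sum_union h2]
    congr 1
    have h3 : G.ed I S ⊆ G.ds.filter fun d => G.pi d ∈ I ∧ d ∉ E := by
      intro d hd
      obtain ⟨h4, h5, h6⟩ := mem_ed.1 hd
      exact mem_filter.2 ⟨h4, h5, fun h7 => h.notI h6 (h.EI d h7).2⟩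
    refine (sum_subset h3 fun d hd hn => ?_).symm
    obtain ⟨h4, h5, h6⟩ := mem_filter.1 hd
    by_contra h7
    have h8 : 0 < z d := lt_of_le_of_ne (hw.z0 d h4) (Ne.symm h7)
    exact hn (mem_ed.2 ⟨h4, h5, h.ind d h4 h8 h6 h5⟩)
  have eS : ∑ d ∈ G.ds.filter (fun d => G.pi d ∈ S), z d =
      ∑ d ∈ G.ed S I, z d + ((G.ssd z S).card : ℝ) := by
    have h1 : ∑ d ∈ G.ssd z S, z d = ((G.ssd z S).card : ℝ) := by
      rw [sum_congr rfl fun d hd => hF1 d (h.ssF hd), sum_const, nsmul_eq_mul, mul_one]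
    rw [← h1, ← sum_union]
    · symm
      refine sum_subset ?_ fun d hd hn => ?_
      · intro d hd
        rcases mem_union.1 hd with h2 | h2
        · exact mem_filter.2 ⟨(mem_ed.1 h2).1, (mem_ed.1 h2).2.1⟩
        · exact mem_filter.2 ⟨(mem_ssd.1 h2).1, (mem_ssd.1 h2).2.2.1⟩
      · obtain ⟨h2, h3⟩ := mem_filter.1 hd
        by_contra h4
        have h5 : 0 < z d := lt_of_le_of_ne (hw.z0 d h2) (Ne.symm h4)
        have h6 := G.pi_mem _ (G.al_mem d h2)
        refine hn (mem_union.2 ?_)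
        by_cases h7 : G.pi (G.al d) ∈ I
        · exact Or.inl (mem_ed.2 ⟨h2, h3, h7⟩)
        · exact Or.inr (mem_ssd.2 ⟨h2, h5, h3, h.cov h6 h7⟩)
    · rw [disjoint_left]
      intro d h2 h3
      exact h.notI (mem_ssd.1 h3).2.2.2 (mem_ed.1 h2).2.2
  have e1 := hw.ed_symm I S
  rw [eI] at hI
  rw [eS, htS] at hS
  rw [ht]
  linarith

/-- **number of used SS-darts** of a perfect matching in the support -/
theorem CT.ss_used (h : CT G z t F I S E) (hM : G.IsPM M) (hMz : ∀ d ∈ M, 0 < z d) :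
    (M.filter fun d => d ∈ G.ssd z S).card + I.card =
      S.card + (M.filter fun d => d ∈ E).card := by
  have hcount : ∀ Y ⊆ G.vs, (M.filter fun d => G.pi d ∈ Y).card = Y.card := by
    intro Y hY
    rw [card_eq_sum_card_fiberwise (f := G.pi) (s := M.filter fun d => G.pi d ∈ Y) (t := Y)
      (fun d hd => (mem_filter.1 (mem_coe.1 hd)).2), card_eq_sum_ones Y]
    refine sum_congr rfl fun v hv => ?_
    rw [← hM.one v (hY hv), filter_filter]
    congr 1
    ext d
    rw [mem_filter, mem_filter]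
    exact ⟨fun k => ⟨k.1, k.2.2⟩, fun k => ⟨k.1, k.2 ▸ hv, k.2⟩⟩
  have c1 := hcount I h.Isub
  have c2 := hcount S h.Ssub
  have s1 : M.filter (fun d => G.pi d ∈ I) =
      (M.filter fun d => G.pi d ∈ I ∧ G.pi (G.al d) ∈ S) ∪ M.filter fun d => d ∈ E := by
    ext d
    rw [mem_union, mem_filter, mem_filter, mem_filter]
    constructor
    · rintro ⟨h1, h2⟩
      by_cases h3 : d ∈ E
      · exact Or.inr ⟨h1, h3⟩
      · exact Or.inl ⟨h1, h2, h.ind d (hM.sub h1) (hMz d h1) h3 h2⟩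
    · rintro (h1 | h1)
      · exact ⟨h1.1, h1.2.1⟩
      · exact ⟨h1.1, (h.EI d h1.2).1⟩
  have d1 : Disjoint (M.filter fun d => G.pi d ∈ I ∧ G.pi (G.al d) ∈ S)
      (M.filter fun d => d ∈ E) := by
    rw [disjoint_left]
    intro d hd hd'
    exact h.notI (mem_filter.1 hd).2.2 (h.EI d (mem_filter.1 hd').2).2
  have s2 : M.filter (fun d => G.pi d ∈ S) =
      (M.filter fun d => G.pi d ∈ S ∧ G.pi (G.al d) ∈ I) ∪ M.filter fun d => d ∈ G.ssd z S := by
    ext d
    rw [mem_union, mem_filter, mem_filter, mem_filter, mem_ssd]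
    constructor
    · rintro ⟨h1, h2⟩
      by_cases h3 : G.pi (G.al d) ∈ I
      · exact Or.inl ⟨h1, h2, h3⟩
      · exact Or.inr ⟨h1, hM.sub h1, hMz d h1, h2,
          h.cov (G.pi_mem _ (G.al_mem d (hM.sub h1))) h3⟩
    · rintro (h1 | h1)
      · exact ⟨h1.1, h1.2.1⟩
      · exact ⟨h1.1, h1.2.2.2.1⟩
  have d2 : Disjoint (M.filter fun d => G.pi d ∈ S ∧ G.pi (G.al d) ∈ I)
      (M.filter fun d => d ∈ G.ssd z S) := by
    rw [disjoint_left]
    intro d hd hd'
    exact h.notI (mem_ssd.1 (mem_filter.1 hd').2).2.2.2 (mem_filter.1 hd).2.2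
  have e : (M.filter fun d => G.pi d ∈ I ∧ G.pi (G.al d) ∈ S).card =
      (M.filter fun d => G.pi d ∈ S ∧ G.pi (G.al d) ∈ I).card := by
    refine card_bij (fun d _ => G.al d) ?_ ?_ ?_
    · intro d hd
      obtain ⟨h1, h2, h3⟩ := mem_filter.1 hd
      refine mem_filter.2 ⟨hM.closed d h1, h3, ?_⟩
      rw [G.al_al d (hM.sub h1)]
      exact h2
    · intro d hd e he hde
      have h1 := (mem_filter.1 hd).1
      have h2 := (mem_filter.1 he).1
      rw [← G.al_al d (hM.sub h1), hde, G.al_al e (hM.sub h2)]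
    · intro d hd
      obtain ⟨h1, h2, h3⟩ := mem_filter.1 hd
      refine ⟨G.al d, mem_filter.2 ⟨hM.closed d h1, h3, ?_⟩, G.al_al d (hM.sub h1)⟩
      rw [G.al_al d (hM.sub h1)]
      exact h2
  rw [s1, card_union_of_disjoint d1] at c1
  rw [s2, card_union_of_disjoint d2] at c2
  omega

/-- **closed unions** (star allowed): the unused II-darts in `X`, the used SS-darts of `X` and the
star vertices of `X` in `I` are together as many as the star vertices of `X` in `S` -/
theorem CT.closed (h : CT G z t F I S E) (hF : G.FrS z fr F jm) (hM : G.IsPM M)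
    (hX : G.Adm fr F X) (hcl : ∀ d ∈ G.bd X, d ∈ M) :
    ((G.uJ F M X).filter fun d => d ∈ E).card + (X ∩ jm ∩ I).card +
        ((G.uF F M X).filter fun d => d ∈ G.ssd z S).card = (X ∩ jm ∩ S).card := by
  have h1 := hF.count_col hM hX hcl I S
  have hpos : ∀ d ∈ G.ds, G.pi d ∈ X → 0 < z d := fun d hd hp => by
    rw [hF.unit d hd (hX.sub hp)]
    norm_num
  have e1 : (G.uJ F M X).filter (fun d => G.pi d ∈ I ∧ G.pi (G.al d) ∉ S) =
      (G.uJ F M X).filter fun d => d ∈ E := by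
    ext d
    rw [mem_filter, mem_filter]
    constructor
    · rintro ⟨h2, h3, h4⟩
      refine ⟨h2, ?_⟩
      by_contra h5
      obtain ⟨k1, k2, k3, k4, k5⟩ := mem_uJ.1 h2
      exact h4 (h.ind d k1 (hpos d k1 k4) h5 h3)
    · rintro ⟨h2, h3⟩
      exact ⟨h2, (h.EI d h3).1, h.notS (h.EI d h3).2⟩
  have e2 : (G.uJ F M X).filter (fun d => G.pi d ∈ S ∧ G.pi (G.al d) ∉ I) = ∅ := by
    rw [filter_eq_empty_iff]
    rintro d h2 ⟨h3, h4⟩
    obtain ⟨k1, k2, k3, k4, k5⟩ := mem_uJ.1 h2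
    exact h4 (h.js d k1 (hpos d k1 k4) k2 h3)
  have e3 : (G.uF F M X).filter (fun d => G.pi d ∈ I ∧ G.pi (G.al d) ∉ S) = ∅ := by
    rw [filter_eq_empty_iff]
    rintro d h2 ⟨h3, h4⟩
    obtain ⟨k1, k2, k3⟩ := mem_uF.1 h2
    exact h4 (h.ind d (hM.sub k1) (hpos d (hM.sub k1) k3)
      (fun h5 => disjoint_left.1 h.EF h5 k2) h3)
  have e4 : (G.uF F M X).filter (fun d => G.pi d ∈ S ∧ G.pi (G.al d) ∉ I) =
      (G.uF F M X).filter fun d => d ∈ G.ssd z S := by
    ext d
    rw [mem_filter, mem_filter, mem_ssd]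
    constructor
    · rintro ⟨h2, h3, h4⟩
      obtain ⟨k1, k2, k3⟩ := mem_uF.1 h2
      have k4 := hM.sub k1
      exact ⟨h2, k4, hpos d k4 k3, h3, h.cov (G.pi_mem _ (G.al_mem d k4)) h4⟩
    · rintro ⟨h2, -, -, h3, h4⟩
      exact ⟨h2, h3, h.notI h4⟩
  rw [e1, e2, e3, e4, card_empty] at h1
  omega

/-- **parity of a union**: `2|X ∩ S| = 2|X ∩ I| + #SS-darts at X` -/
theorem CT.parity (h : CT G z t F I S E) (hF : G.FrS z fr F jm) (hX : G.Adm fr F X) :
    2 * (X ∩ S).card = 2 * (X ∩ I).card + ((G.ssd z S).filter fun d => G.pi d ∈ X).card := by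
  have hpos : ∀ d ∈ G.ds, G.pi d ∈ X → 0 < z d := fun d hd hp => by
    rw [hF.unit d hd (hX.sub hp)]
    norm_num
  have hcount : ∀ Y ⊆ X, (F.filter fun d => G.pi d ∈ Y).card = 2 * Y.card := by
    intro Y hY
    rw [card_eq_sum_card_fiberwise (f := G.pi) (s := F.filter fun d => G.pi d ∈ Y) (t := Y)
      (fun d hd => (mem_filter.1 (mem_coe.1 hd)).2), mul_comm, ← smul_eq_mul, ← sum_const]
    refine sum_congr rfl fun v hv => ?_
    rw [← hF.two v (hX.sub (hY hv)), filter_filter]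
    congr 1
    ext d
    rw [mem_filter, mem_filter]
    exact ⟨fun k => ⟨k.1, k.2.2⟩, fun k => ⟨k.1, k.2 ▸ hv, k.2⟩⟩
  have c1 := hcount (X ∩ S) inter_subset_left
  have c2 := hcount (X ∩ I) inter_subset_left
  have s2 : F.filter (fun d => G.pi d ∈ X ∩ S) =
      (F.filter fun d => G.pi d ∈ X ∩ S ∧ G.pi (G.al d) ∈ X ∩ I) ∪
        (G.ssd z S).filter fun d => G.pi d ∈ X := by
    ext d
    rw [mem_union, mem_filter, mem_filter, mem_filter, mem_ssd, mem_inter, mem_inter]
    constructor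
    · rintro ⟨h1, h2, h3⟩
      have h4 := hX.clo d h1 h2
      have h5 := hF.Fsub h1
      by_cases h6 : G.pi (G.al d) ∈ I
      · exact Or.inl ⟨h1, ⟨h2, h3⟩, h4, h6⟩
      · exact Or.inr ⟨⟨h5, hpos d h5 h2, h3, h.cov (G.pi_mem _ (G.al_mem d h5)) h6⟩, h2⟩
    · rintro (h1 | ⟨h1, h2⟩)
      · exact ⟨h1.1, h1.2.1⟩
      · exact ⟨h.ssF (mem_ssd.2 h1), h2, h1.2.2.1⟩
  have d2 : Disjoint (F.filter fun d => G.pi d ∈ X ∩ S ∧ G.pi (G.al d) ∈ X ∩ I)
      ((G.ssd z S).filter fun d => G.pi d ∈ X) := by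
    rw [disjoint_left]
    intro d hd hd'
    exact h.notI (mem_ssd.1 (mem_filter.1 hd').1).2.2.2 (mem_inter.1 (mem_filter.1 hd).2.2).2
  have s1 : F.filter (fun d => G.pi d ∈ X ∩ I) =
      F.filter fun d => G.pi d ∈ X ∩ I ∧ G.pi (G.al d) ∈ X ∩ S := by
    ext d
    rw [mem_filter, mem_filter]
    constructor
    · rintro ⟨h1, h2⟩
      obtain ⟨h3, h4⟩ := mem_inter.1 h2
      have h5 := hF.Fsub h1
      exact ⟨h1, h2, mem_inter.2 ⟨hX.clo d h1 h3, h.ind d h5 (hpos d h5 h3)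
        (fun h6 => disjoint_left.1 h.EF h6 h1) h4⟩⟩
    · rintro ⟨h1, h2, -⟩
      exact ⟨h1, h2⟩
  have e : (F.filter fun d => G.pi d ∈ X ∩ S ∧ G.pi (G.al d) ∈ X ∩ I).card =
      (F.filter fun d => G.pi d ∈ X ∩ I ∧ G.pi (G.al d) ∈ X ∩ S).card := by
    refine card_bij (fun d _ => G.al d) ?_ ?_ ?_
    · intro d hd
      obtain ⟨h1, h2, h3⟩ := mem_filter.1 hd
      refine mem_filter.2 ⟨hF.Fal d h1, h3, ?_⟩
      rw [G.al_al d (hF.Fsub h1)]
      exact h2
    · intro d hd e he hde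
      have h1 := (mem_filter.1 hd).1
      have h2 := (mem_filter.1 he).1
      rw [← G.al_al d (hF.Fsub h1), hde, G.al_al e (hF.Fsub h2)]
    · intro d hd
      obtain ⟨h1, h2, h3⟩ := mem_filter.1 hd
      refine ⟨G.al d, mem_filter.2 ⟨hF.Fal d h1, h3, ?_⟩, G.al_al d (hF.Fsub h1)⟩
      rw [G.al_al d (hF.Fsub h1)]
      exact h2
  rw [s2, card_union_of_disjoint d2] at c1
  rw [s1] at c2
  omega

/-- a union has the parity of its number of SS-edges -/
theorem CT.even_iff (h : CT G z t F I S E) (hF : G.FrS z fr F jm) (hX : G.Adm fr F X) :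
    Even X.card ↔ 4 ∣ ((G.ssd z S).filter fun d => G.pi d ∈ X).card := by
  have h1 := h.parity hF hX
  have h2 : X.card = (X ∩ I).card + (X ∩ S).card := by
    have h3 : X = (X ∩ I) ∪ (X ∩ S) := by
      rw [← inter_union_distrib_left, h.cover, inter_eq_left.2 (hX.sub.trans hF.fsub)]
    conv_lhs => rw [h3]
    rw [card_union_of_disjoint (disjoint_of_subset_left inter_subset_right
      (disjoint_of_subset_right inter_subset_right h.disj))]
  rw [Nat.even_iff, h2]
  omega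

/-- closed unions without star: no unused II-dart inside, no used SS-dart -/
theorem CT.closed0 (h : CT G z t F I S E) (hF : G.FrS z fr F ∅) (hM : G.IsPM M)
    (hX : G.Adm fr F X) (hcl : ∀ d ∈ G.bd X, d ∈ M) :
    (∀ d ∈ E, G.pi d ∈ X → G.pi (G.al d) ∈ X → d ∈ M) ∧
      ∀ d ∈ G.ssd z S, G.pi d ∈ X → d ∉ M := by
  have h1 := h.closed hF hM hX hcl
  rw [inter_empty, empty_inter, empty_inter, card_empty, add_zero] at h1
  have h2 : ((G.uJ F M X).filter fun d => d ∈ E) = ∅ := card_eq_zero.1 (by omega)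
  have h3 : ((G.uF F M X).filter fun d => d ∈ G.ssd z S) = ∅ := card_eq_zero.1 (by omega)
  constructor
  · intro d hd hp hp'
    by_contra hn
    have h4 : d ∈ (G.uJ F M X).filter fun d => d ∈ E := mem_filter.2 ⟨mem_uJ.2
      ⟨h.Esub hd, fun h5 => disjoint_left.1 h.EF hd h5, hn, hp, hp'⟩, hd⟩
    rw [h2] at h4
    exact notMem_empty _ h4
  · intro d hd hp hn
    have h4 : d ∈ (G.uF F M X).filter fun d => d ∈ G.ssd z S := mem_filter.2 ⟨mem_uF.2
      ⟨hn, h.ssF hd, hp⟩, hd⟩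
    rw [h3] at h4
    exact notMem_empty _ h4

/-- without SS-darts every union is even -/
theorem CT.even_of_bip (h : CT G z t F I S E) (hF : G.FrS z fr F jm) (hX : G.Adm fr F X)
    (h0 : G.ssd z S = ∅) : Even X.card := by
  rw [h.even_iff hF hX, h0, filter_empty, card_empty]
  exact dvd_zero 4

/-- if a perfect matching uses an SS-dart and all SS-darts lie on one circuit, it is good -/
theorem CT.good_one (h : CT G z t F I S E) (hF : G.FrS z fr F ∅) (hM : G.IsPM M)
    (hMz : ∀ d ∈ M, 0 < z d) {s : D} (hs : s ∈ G.ssd z S) (hsM : s ∈ M)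
    (hone : ∀ X, G.Adm fr F X → ∀ d ∈ G.ssd z S, G.pi d ∈ X → G.pi s ∈ X) :
    G.GoodS z fr F ∅ M where
  pm := hM
  pos := hMz
  hit := by
    intro X hX ho
    by_contra hcon
    push Not at hcon
    have h1 : Odd X.card := by
      rcases ho with h1 | h1
      · exact h1
      · exact absurd h1.1 not_nonempty_empty
    have h2 : (G.ssd z S).filter (fun d => G.pi d ∈ X) ≠ ∅ := by
      intro h3
      have h4 := (h.even_iff hF hX).2 (by rw [h3, card_empty]; exact dvd_zero 4)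
      exact Nat.not_odd_iff_even.2 h4 h1
    obtain ⟨d, hd⟩ := nonempty_iff_ne_empty.2 h2
    obtain ⟨h3, h4⟩ := mem_filter.1 hd
    exact (h.closed0 hF hM hX hcon).2 s hs (hone X hX d h3 h4) hsM

/-- if there is no SS-dart, every perfect matching of the support is good -/
theorem CT.good_bip (h : CT G z t F I S E) (hF : G.FrS z fr F ∅) (hM : G.IsPM M)
    (hMz : ∀ d ∈ M, 0 < z d) (h0 : G.ssd z S = ∅) : G.GoodS z fr F ∅ M where
  pm := hM
  pos := hMz
  hit := by
    intro X hX ho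
    exfalso
    rcases ho with h1 | h1
    · exact Nat.not_odd_iff_even.2 (h.even_of_bip hF hX h0) h1
    · exact absurd h1.1 not_nonempty_empty

/-- **G = coloured state + one II-edge `j`**, four tokens: there are `3 (|S| - |I| + 2)` SS-darts,
and a perfect matching through `j` uses `|S| - |I| + 2` of them -/
theorem CT.with_edge {j : D} (h : CT G z t F I S {j, G.al j}) (hw : G.Wt z t)
    (hF1 : ∀ d ∈ F, z d = 1) (h4 : ∑ v ∈ G.vs, t v = 4) (hj : j ∈ G.ds) (hz : z j = 1) :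
    ((G.ssd z S).card : ℝ) = 3 * ((S.card : ℝ) - I.card + 2) ∧
      ∀ M, G.IsPM M → (∀ d ∈ M, 0 < z d) → j ∈ M →
        (M.filter fun d => d ∈ G.ssd z S).card + I.card = S.card + 2 := by
  have hne : j ≠ G.al j := fun h1 => G.noloop j hj (congrArg G.pi h1).symm
  constructor
  · have h1 := h.ss_count hw hF1
    rw [sum_pair hne, hw.sym j hj, hz, h4] at h1
    linarith
  · intro M hM hMz hjM
    have h1 := h.ss_used hM hMz
    have h2 : M.filter (fun d => d ∈ ({j, G.al j} : Finset D)) = {j, G.al j} := by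
      ext d
      rw [mem_filter, mem_insert, mem_singleton]
      constructor
      · exact fun k => k.2
      · rintro (rfl | rfl)
        · exact ⟨hjM, Or.inl rfl⟩
        · exact ⟨hM.closed _ hjM, Or.inr rfl⟩
    rw [h2, card_pair hne] at h1
    exact h1

/-- a coloured state with six tokens: `3 (|S| - |I| + 2)` SS-darts, every perfect matching of the
support uses `|S| - |I|` of them -/
theorem CT.state (h : CT G z t F I S ∅) (hw : G.Wt z t) (hF1 : ∀ d ∈ F, z d = 1)
    (h6 : ∑ v ∈ G.vs, t v = 6) :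
    ((G.ssd z S).card : ℝ) = 3 * ((S.card : ℝ) - I.card + 2) ∧
      ∀ M, G.IsPM M → (∀ d ∈ M, 0 < z d) →
        (M.filter fun d => d ∈ G.ssd z S).card + I.card = S.card := by
  constructor
  · have h1 := h.ss_count hw hF1
    rw [sum_empty, h6] at h1
    linarith
  · intro M hM hMz
    have h1 := h.ss_used hM hMz
    have h2 : M.filter (fun d => d ∈ (∅ : Finset D)) = ∅ := by
      rw [filter_eq_empty_iff]
      intro d _
      exact notMem_empty d
    rw [h2, card_empty] at h1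
    exact h1

end MG

end RH
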