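import Pool.Agent.Lib.RH.Count

/-! Colouring certificates (helper52's CT): `I` and `S` = the other vertices. F-edges do not join two
vertices of `I`, J-edges between fresh vertices do not join two vertices of `S`, star vertices are
in `I`. Then no closed union of circuits contains a used SS-edge, and no star vertex. -/

set_option autoImplicit false

namespace RH

open Finset Classical

namespace MG

variable {V D : Type*}

/-- colouring certificate for the fresh part -/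
structure Col (G : MG V D) (z : D → ℝ) (fr : Finset V) (F : Finset D) (jm I : Finset V) : Prop where
  star : jm ⊆ I
  ii : ∀ d ∈ F, G.pi d ∈ I → G.pi (G.al d) ∉ I
  ss : ∀ d ∈ G.ds, d ∉ F → G.pi d ∈ fr → G.pi (G.al d) ∈ fr → G.pi d ∉ I → G.pi (G.al d) ∈ I

variable {G : MG V D} {z : D → ℝ} {t : V → ℝ} {fr : Finset V} {F : Finset D} {jm I sx : Finset V}
variable {X : Finset V} {M : Finset D}

/-- the potential of a colouring -/
noncomputable def cpot (I : Finset V) (v : V) : ℝ := if v ∈ I then 1 else -1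

theorem cpot_in {v : V} (h : v ∈ I) : cpot I v = 1 := by
  unfold cpot
  rw [if_pos h]

theorem cpot_out {v : V} (h : v ∉ I) : cpot I v = -1 := by
  unfold cpot
  rw [if_neg h]

/-- **PI-IDENTITY**: a closed union contains no used SS F-edge, no unused II J-edge and no star
vertex -/
theorem Col.closed (h : G.Col z fr F jm I) (hF : G.FrS z fr F jm) (hM : G.IsPM M)
    (hX : G.Adm fr F X) (hcl : ∀ d ∈ G.bd X, d ∈ M) :
    (∀ d ∈ M, d ∈ F → G.pi d ∈ X → G.pi d ∈ I ∨ G.pi (G.al d) ∈ I) ∧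
      (∀ d ∈ G.ds, d ∉ F → d ∉ M → G.pi d ∈ X → G.pi d ∉ I ∨ G.pi (G.al d) ∉ I) ∧
      Disjoint X jm := by
  have h1 : ∀ d ∈ F, G.pi d ∈ X → cpot I (G.pi d) + cpot I (G.pi (G.al d)) ≤ 0 := by
    intro d hd _
    by_cases h2 : G.pi d ∈ I
    · rw [cpot_in h2, cpot_out (h.ii d hd h2)]
      norm_num
    · rw [cpot_out h2]
      unfold cpot
      split_ifs <;> norm_num
  have h2 : ∀ d ∈ G.ds, d ∉ F → G.pi d ∈ X → G.pi (G.al d) ∈ X →
      0 ≤ cpot I (G.pi d) + cpot I (G.pi (G.al d)) := by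
    intro d hd hdF h3 h4
    by_cases h5 : G.pi d ∈ I
    · rw [cpot_in h5]
      unfold cpot
      split_ifs <;> norm_num
    · rw [cpot_out h5, cpot_in (h.ss d hd hdF (hX.sub h3) (hX.sub h4) h5)]
      norm_num
  have h3 : ∀ v ∈ X, v ∈ jm → 0 ≤ cpot I v := by
    intro v _ hv
    rw [cpot_in (h.star hv)]
    norm_num
  obtain ⟨h4, h5, h6⟩ := hF.count_zero hM hX hcl (cpot I) h1 h2 h3
  refine ⟨?_, ?_, ?_⟩
  · intro d hdM hdF hdX
    by_contra hcon
    rw [not_or] at hcon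
    have h7 := h5 d (mem_uf.2 ⟨hF.Fsub hdF, hdX, hdF, hdM⟩)
    rw [cpot_out hcon.1, cpot_out hcon.2] at h7
    norm_num at h7
  · intro d hd hdF hdM hdX
    by_contra hcon
    rw [not_or, not_not, not_not] at hcon
    have h7 := h4 d (mem_uj.2 ⟨hd, hdX, hdF, hdM⟩)
    rw [cpot_in hcon.1, cpot_in hcon.2] at h7
    norm_num at h7
  · rw [disjoint_left]
    intro v hv hvj
    have h7 := h6 v hv hvj
    rw [cpot_in (h.star hvj)] at h7
    norm_num at h7

/-- an odd union contains an SS F-edge -/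
theorem Col.exists_ss (h : G.Col z fr F jm I) (hF : G.FrS z fr F jm) (hX : G.Adm fr F X)
    (ho : Odd X.card) : ∃ d ∈ F, G.pi d ∈ X ∧ G.pi d ∉ I ∧ G.pi (G.al d) ∉ I := by
  by_contra hcon
  push Not at hcon
  -- the F-darts at `X ∩ I` and at `X \ I` correspond to each other
  have hcard : ∀ Y ⊆ X, (F.filter fun d => G.pi d ∈ Y).card = 2 * Y.card := by
    intro Y hY
    rw [card_eq_sum_card_fiberwise (f := G.pi) (s := F.filter fun d => G.pi d ∈ Y) (t := Y)
      (fun d hd => mem_coe.2 (mem_filter.1 (mem_coe.1 hd)).2)]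
    have : ∀ v ∈ Y, ((F.filter fun d => G.pi d ∈ Y).filter fun d => G.pi d = v).card = 2 := by
      intro v hv
      rw [← hF.two v (hX.sub (hY hv))]
      congr 1
      ext d
      simp only [mem_filter]
      constructor
      · rintro ⟨⟨h1, -⟩, h2⟩
        exact ⟨h1, h2⟩
      · rintro ⟨h1, h2⟩
        exact ⟨⟨h1, h2 ▸ hv⟩, h2⟩
    rw [sum_congr rfl this, sum_const, smul_eq_mul, mul_comm]
  have hbij : (F.filter fun d => G.pi d ∈ X ∩ I).card = (F.filter fun d => G.pi d ∈ X \ I).card := by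
    refine card_bij (fun d _ => G.al d) ?_ ?_ ?_
    · intro d hd
      obtain ⟨h1, h2⟩ := mem_filter.1 hd
      obtain ⟨h3, h4⟩ := mem_inter.1 h2
      exact mem_filter.2 ⟨hF.Fal d h1, mem_sdiff.2 ⟨hX.clo d h1 h3, h.ii d h1 h4⟩⟩
    · intro d hd e he hde
      have h1 := G.al_al d (hF.Fsub (mem_filter.1 hd).1)
      have h2 := G.al_al e (hF.Fsub (mem_filter.1 he).1)
      have hde' : G.al d = G.al e := hde
      rw [← h1, hde', h2]
    · intro d hd
      obtain ⟨h1, h2⟩ := mem_filter.1 hd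
      obtain ⟨h3, h4⟩ := mem_sdiff.1 h2
      refine ⟨G.al d, mem_filter.2 ⟨hF.Fal d h1, mem_inter.2 ⟨hX.clo d h1 h3, hcon d h1 h3 h4⟩⟩,
        G.al_al d (hF.Fsub h1)⟩
  rw [hcard _ inter_subset_left, hcard _ sdiff_subset] at hbij
  have h5 := card_inter_add_card_sdiff X I
  obtain ⟨k, hk⟩ := ho
  omega

/-- a matching is good if every closed odd union contains a used SS F-edge -/
theorem Col.good (h : G.Col z fr F jm I) (hF : G.FrS z fr F jm) (hM : G.IsPM M)
    (hpos : ∀ d ∈ M, 0 < z d) (hsx : jm = sx ∨ sx = ∅)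
    (hu : ∀ X, G.Adm fr F X → Odd X.card → (∀ d ∈ G.bd X, d ∈ M) →
      ∃ d ∈ M, d ∈ F ∧ G.pi d ∈ X ∧ G.pi d ∉ I ∧ G.pi (G.al d) ∉ I) : G.GoodS z fr F sx M where
  pm := hM
  pos := hpos
  hit := fun X hX ho => by
    by_contra hcon
    push Not at hcon
    obtain ⟨h1, -, h3⟩ := h.closed hF hM hX hcon
    rcases ho with ho | ⟨⟨v, hv⟩, hs⟩
    · obtain ⟨d, h4, h5, h6, h7, h8⟩ := hu X hX ho hcon
      rcases h1 d h4 h5 h6 with h9 | h9
      · exact h7 h9
      · exact h8 h9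
    · rcases hsx with h4 | h4
      · exact disjoint_left.1 h3 (hs hv) (h4 ▸ hv)
      · rw [h4] at hv
        exact notMem_empty _ hv

/-- ALL SS F-EDGES ON ONE CLASS `C`: a matching which uses one of them is good -/
theorem Col.good_one (h : G.Col z fr F jm I) (hF : G.FrS z fr F jm) (hM : G.IsPM M)
    (hpos : ∀ d ∈ M, 0 < z d) (hsx : jm = sx ∨ sx = ∅) {C : Finset V}
    (hC : ∀ X, G.Adm fr F X → ¬ Disjoint X C → C ⊆ X)
    (hall : ∀ d ∈ F, G.pi d ∉ I → G.pi (G.al d) ∉ I → G.pi d ∈ C)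
    (hex : ∃ d ∈ M, d ∈ F ∧ G.pi d ∉ I ∧ G.pi (G.al d) ∉ I) : G.GoodS z fr F sx M := by
  refine h.good hF hM hpos hsx fun X hX ho _ => ?_
  obtain ⟨d, hd, hdX, h1, h2⟩ := h.exists_ss hF hX ho
  obtain ⟨e, heM, heF, h3, h4⟩ := hex
  refine ⟨e, heM, heF, hC X hX ?_ (hall e heF h3 h4), h3, h4⟩
  rw [not_disjoint_iff]
  exact ⟨_, hdX, hall d hd h1 h2⟩

/-- number of used II-darts minus number of used SS-darts -/
theorem IsPM.col_card (hM : G.IsPM M) (I : Finset V) :
    ((M.filter fun d => G.pi d ∈ I ∧ G.pi (G.al d) ∈ I).card : ℝ) -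
      (M.filter fun d => G.pi d ∉ I ∧ G.pi (G.al d) ∉ I).card =
      (G.vs ∩ I).card - (G.vs \ I).card := by
  have h1 : ∑ d ∈ M, cpot I (G.pi d) = ∑ v ∈ G.vs, cpot I v := by
    rw [← sum_fiberwise_of_maps_to (g := G.pi) (t := G.vs) (fun d hd => G.pi_mem d (hM.sub hd))]
    refine sum_congr rfl fun v hv => ?_
    rw [sum_congr rfl (g := fun _ => cpot I v) fun d hd => by rw [(mem_filter.1 hd).2],
      sum_const, hM.one v hv, one_smul]
  have h2 : ∑ d ∈ M, cpot I (G.pi (G.al d)) = ∑ d ∈ M, cpot I (G.pi d) := by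
    refine sum_bij (fun d _ => G.al d) (fun d hd => hM.closed d hd) ?_ ?_ (fun d _ => rfl)
    · intro d hd e he hde
      have h1 := G.al_al d (hM.sub hd)
      have h2 := G.al_al e (hM.sub he)
      have hde' : G.al d = G.al e := hde
      rw [← h1, hde', h2]
    · intro d hd
      exact ⟨G.al d, hM.closed d hd, G.al_al d (hM.sub hd)⟩
  have h3 : ∑ v ∈ G.vs, cpot I v = (G.vs ∩ I).card - (G.vs \ I).card := by
    have e1 : G.vs.filter (fun v => v ∈ I) = G.vs ∩ I := filter_mem_eq_inter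
    have e2 : G.vs.filter (fun v => v ∉ I) = G.vs \ I := by
      ext v
      simp
    unfold cpot
    rw [sum_ite, e1, e2, sum_const, sum_const]
    simp
    ring
  have h4 : ∑ d ∈ M, (cpot I (G.pi d) + cpot I (G.pi (G.al d))) =
      2 * ((M.filter fun d => G.pi d ∈ I ∧ G.pi (G.al d) ∈ I).card : ℝ) -
      2 * (M.filter fun d => G.pi d ∉ I ∧ G.pi (G.al d) ∉ I).card := by
    have e : ∀ d ∈ M, cpot I (G.pi d) + cpot I (G.pi (G.al d)) =
        (if G.pi d ∈ I ∧ G.pi (G.al d) ∈ I then 2 else 0) -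
          (if G.pi d ∉ I ∧ G.pi (G.al d) ∉ I then 2 else 0) := by
      intro d _
      unfold cpot
      by_cases c1 : G.pi d ∈ I <;> by_cases c2 : G.pi (G.al d) ∈ I <;> simp [c1, c2] <;> norm_num
    rw [sum_congr rfl e, sum_sub_distrib, ← sum_filter, ← sum_filter, sum_const, sum_const]
    simp
    ring
  rw [sum_add_distrib, h2, h1, h3] at h4
  linarith

end MG

end RH
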