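import Pool.Agent.Lib.RH.Contr

/-! Iterated contraction to the same vertex. -/

set_option autoImplicit false

namespace RH

open Finset Classical

namespace MG

variable {V D : Type*} {G : MG V D} {z : D → ℝ} {t : V → ℝ}

/-- two multigraphs with the same data are equal -/
theorem ext_data {G H : MG V D} (h1 : G.vs = H.vs) (h2 : G.ds = H.ds) (h3 : G.pi = H.pi)
    (h4 : G.al = H.al) : G = H := by
  cases G
  cases H
  simp only at h1 h2 h3 h4
  subst h1
  subst h2
  subst h3
  subst h4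
  rfl

variable {W : Finset V} {ω : V} (hω : ω ∈ W) (hW : W ⊆ G.vs)

/-- the union of the two contracted sets -/
theorem con_union_sub {X : Finset V} (hX : X ⊆ (G.con W ω hω hW).vs) : W ∪ X ⊆ G.vs := by
  intro v hv
  rcases mem_union.1 hv with h1 | h1
  · exact hW h1
  · rcases con_vs_mem hω hW hX h1 with h2 | h2
    · exact h2.1
    · exact hW (h2 ▸ hω)

/-- contracting a set of the contraction through the contracted vertex -/
theorem con_con {X : Finset V} (hωX : ω ∈ X) (hX : X ⊆ (G.con W ω hω hW).vs) :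
    (G.con W ω hω hW).con X ω hωX hX =
      G.con (W ∪ X) ω (mem_union_left X hω) (con_union_sub hω hW hX) := by
  have key : ∀ d, (G.con W ω hω hW).pi d ∈ X ↔ G.pi d ∈ W ∪ X := by
    intro d
    show (if G.pi d ∈ W then ω else G.pi d) ∈ X ↔ _
    by_cases h : G.pi d ∈ W
    · simp [h, hωX]
    · simp [h]
  refine ext_data ?_ ?_ ?_ rfl
  · ext v
    show v ∈ (((G.vs \ W) ∪ {ω}) \ X) ∪ {ω} ↔ v ∈ (G.vs \ (W ∪ X)) ∪ {ω}
    simp only [mem_union, mem_sdiff, mem_singleton, not_or]
    constructor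
    · rintro (⟨⟨h1, h2⟩ | h1, h3⟩ | h1)
      · exact Or.inl ⟨h1, h2, h3⟩
      · exact Or.inr h1
      · exact Or.inr h1
    · rintro (⟨h1, h2, h3⟩ | h1)
      · exact Or.inl ⟨Or.inl ⟨h1, h2⟩, h3⟩
      · exact Or.inr h1
  · ext d
    show d ∈ (G.ds.filter fun d => ¬ (G.pi d ∈ W ∧ G.pi (G.al d) ∈ W)).filter
        (fun d => ¬ ((G.con W ω hω hW).pi d ∈ X ∧ (G.con W ω hω hW).pi (G.al d) ∈ X)) ↔
      d ∈ G.ds.filter fun d => ¬ (G.pi d ∈ W ∪ X ∧ G.pi (G.al d) ∈ W ∪ X)
    rw [mem_filter, mem_filter, mem_filter, key, key]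
    constructor
    · rintro ⟨⟨h1, -⟩, h3⟩
      exact ⟨h1, h3⟩
    · rintro ⟨h1, h3⟩
      exact ⟨⟨h1, fun h4 => h3 ⟨mem_union_left _ h4.1, mem_union_left _ h4.2⟩⟩, h3⟩
  · funext d
    show (if (G.con W ω hω hW).pi d ∈ X then ω else (G.con W ω hω hW).pi d) =
      if G.pi d ∈ W ∪ X then ω else G.pi d
    by_cases h : G.pi d ∈ W ∪ X
    · rw [if_pos h, if_pos ((key d).2 h)]
    · rw [if_neg h, if_neg (fun h1 => h ((key d).1 h1))]
      show (if G.pi d ∈ W then ω else G.pi d) = G.pi d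
      rw [if_neg (fun h1 => h (mem_union_left _ h1))]

theorem tcon_con {X : Finset V} (hωX : ω ∈ X) (hX : X ⊆ (G.con W ω hω hW).vs) :
    tcon (tcon t W ω) X ω = tcon t (W ∪ X) ω := by
  funext v
  by_cases hv : v = ω
  · subst hv
    show (if v = v then ∑ u ∈ X, tcon t W v u else _) = if v = v then ∑ u ∈ W ∪ X, t u else _
    rw [if_pos rfl, if_pos rfl, con_sum hω hW hX]
    refine sum_congr ?_ fun _ _ => rfl
    simp only [pre, hωX, if_true]
    exact union_comm _ _
  · show (if v = ω then _ else (if v = ω then _ else t v)) = if v = ω then _ else t v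
    rw [if_neg hv, if_neg hv, if_neg hv]

/-- the set behind a set behind a set -/
theorem pre_pre {X Y : Finset V} (hωX : ω ∈ X) :
    pre W ω (pre X ω Y) = pre (W ∪ X) ω Y := by
  by_cases h : ω ∈ Y
  · simp only [pre, h, if_true, mem_union, true_or]
    rw [union_assoc, union_comm X W]
  · simp only [pre, h, if_false]

end MG

end RH
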