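import Pool.Agent.Lib.RH.SDefs

/-! # The count identity of a closed union (helper60, helper15, helper24)

`X` a closed union of fresh circuits for a perfect matching `M`. At every vertex `v` of `X` with a
J-dart: the J-dart is unused (then its other end is in `X`) exactly if `M` uses an F-dart at `v`.
Summed over `X` with any function `p`. -/

set_option autoImplicit false

namespace RH

open Finset Classical

namespace MG

variable {V D : Type*}

/-- unused J-darts inside `X` -/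
noncomputable def uJ (G : MG V D) (F M : Finset D) (X : Finset V) : Finset D :=
  G.ds.filter fun d => d ∉ F ∧ d ∉ M ∧ G.pi d ∈ X ∧ G.pi (G.al d) ∈ X

/-- used F-darts of `X` -/
noncomputable def uF (G : MG V D) (F M : Finset D) (X : Finset V) : Finset D :=
  M.filter fun d => d ∈ F ∧ G.pi d ∈ X

variable {G : MG V D} {z : D → ℝ} {t : V → ℝ} {fr : Finset V} {F M : Finset D}
variable {jm X W A B : Finset V}

theorem mem_uJ {d : D} :
    d ∈ G.uJ F M X ↔ d ∈ G.ds ∧ d ∉ F ∧ d ∉ M ∧ G.pi d ∈ X ∧ G.pi (G.al d) ∈ X := by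
  unfold uJ
  rw [mem_filter]

theorem mem_uF {d : D} : d ∈ G.uF F M X ↔ d ∈ M ∧ d ∈ F ∧ G.pi d ∈ X := by
  unfold uF
  rw [mem_filter]

theorem uJ_al (hF : G.FrS z fr F jm) (hM : G.IsPM M) {d : D} (hd : d ∈ G.uJ F M X) :
    G.al d ∈ G.uJ F M X := by
  obtain ⟨h1, h2, h3, h4, h5⟩ := mem_uJ.1 hd
  refine mem_uJ.2 ⟨G.al_mem d h1, fun h => h2 ?_, fun h => h3 ?_, h5, ?_⟩
  · have := hF.Fal _ h
    rwa [G.al_al d h1] at this
  · have := hM.closed _ h
    rwa [G.al_al d h1] at this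
  · rw [G.al_al d h1]
    exact h4

theorem uF_al (hF : G.FrS z fr F jm) (hM : G.IsPM M) (hX : G.Adm fr F X) {d : D}
    (hd : d ∈ G.uF F M X) : G.al d ∈ G.uF F M X := by
  obtain ⟨h1, h2, h3⟩ := mem_uF.1 hd
  exact mem_uF.2 ⟨hM.closed _ h1, hF.Fal _ h2, hX.clo d h2 h3⟩

/-- **(K)** -/
theorem FrS.countK (hF : G.FrS z fr F jm) (hM : G.IsPM M) (hX : G.Adm fr F X)
    (hcl : ∀ d ∈ G.bd X, d ∈ M) {R : Type*} [AddCommMonoid R] (p : V → R) :
    ∑ d ∈ G.uJ F M X, p (G.pi d) + ∑ v ∈ X ∩ jm, p v = ∑ d ∈ G.uF F M X, p (G.pi d) := by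
  have e1 : ∑ v ∈ X ∩ jm, p v = ∑ v ∈ X, if v ∈ jm then p v else 0 := by
    rw [← filter_mem_eq_inter, sum_filter]
  rw [← sum_fiberwise_of_maps_to (s := G.uJ F M X) (t := X) (g := G.pi)
      (fun d hd => (mem_uJ.1 hd).2.2.2.1), e1,
    ← sum_fiberwise_of_maps_to (s := G.uF F M X) (t := X) (g := G.pi)
      (fun d hd => (mem_uF.1 hd).2.2), ← sum_add_distrib]
  refine sum_congr rfl fun v hv => ?_
  have hvf := hX.sub hv
  obtain ⟨n, hn⟩ := card_eq_one.1 (hM.one v (hF.fsub hvf))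
  have hn1 : n ∈ M.filter fun d => G.pi d = v := by rw [hn]; exact mem_singleton_self n
  obtain ⟨hnM, hnv⟩ := mem_filter.1 hn1
  have huniq : ∀ d ∈ M, G.pi d = v → d = n := by
    intro d hd h
    have : d ∈ M.filter fun d => G.pi d = v := mem_filter.2 ⟨hd, h⟩
    rwa [hn, mem_singleton] at this
  have hF1 : n ∈ F → ((G.uF F M X).filter fun d => G.pi d = v) = {n} := by
    intro h
    ext d
    rw [mem_filter, mem_uF, mem_singleton]
    constructor
    · rintro ⟨⟨h1, -, -⟩, h2⟩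
      exact huniq d h1 h2
    · rintro rfl
      exact ⟨⟨hnM, h, by rw [hnv]; exact hv⟩, hnv⟩
  have hF0 : n ∉ F → ((G.uF F M X).filter fun d => G.pi d = v) = ∅ := by
    intro h
    rw [filter_eq_empty_iff]
    intro d hd h2
    obtain ⟨h1, h3, -⟩ := mem_uF.1 hd
    exact h (huniq d h1 h2 ▸ h3)
  by_cases hj : v ∈ jm
  · have hnF : n ∈ F := hF.j0 v hj n (mem_st.2 ⟨hM.sub hnM, hnv⟩)
    have hJ0 : ((G.uJ F M X).filter fun d => G.pi d = v) = ∅ := by
      rw [filter_eq_empty_iff]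
      intro d hd h2
      obtain ⟨h1, h3, -⟩ := mem_uJ.1 hd
      exact h3 (hF.j0 v hj d (mem_st.2 ⟨h1, h2⟩))
    rw [hJ0, sum_empty, if_pos hj, zero_add, hF1 hnF, sum_singleton, hnv]
  · obtain ⟨j, hj1, hj2, hj3, hj4⟩ := hF.exists_jd hvf hj
    rw [if_neg hj, add_zero]
    by_cases hjM : j ∈ M
    · have hnj : j = n := huniq j hjM hj2
      have hJ0 : ((G.uJ F M X).filter fun d => G.pi d = v) = ∅ := by
        rw [filter_eq_empty_iff]
        intro d hd h2
        obtain ⟨h1, h3, h4, -⟩ := mem_uJ.1 hd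
        exact h4 (hj4 d h1 h2 h3 ▸ hjM)
      rw [hJ0, sum_empty, hF0 (hnj ▸ hj3), sum_empty]
    · have hnF : n ∈ F := by
        by_contra h
        exact hjM (hj4 n (hM.sub hnM) hnv h ▸ hnM)
      have hjX : G.pi (G.al j) ∈ X := by
        by_contra h
        exact hjM (hcl j (mem_bd.2 ⟨hj1, by rw [hj2]; exact hv, h⟩))
      have hJ1 : ((G.uJ F M X).filter fun d => G.pi d = v) = {j} := by
        ext d
        rw [mem_filter, mem_uJ, mem_singleton]
        constructor
        · rintro ⟨⟨h1, h3, -⟩, h2⟩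
          exact hj4 d h1 h2 h3
        · rintro rfl
          exact ⟨⟨hj1, hj3, hjM, by rw [hj2]; exact hv, hjX⟩, hj2⟩
      rw [hJ1, hF1 hnF, sum_singleton, sum_singleton, hj2, hnv]

/-- (K) for the indicator of a set -/
theorem FrS.count_set (hF : G.FrS z fr F jm) (hM : G.IsPM M) (hX : G.Adm fr F X)
    (hcl : ∀ d ∈ G.bd X, d ∈ M) (A : Finset V) :
    ((G.uJ F M X).filter fun d => G.pi d ∈ A).card + (X ∩ jm ∩ A).card =
      ((G.uF F M X).filter fun d => G.pi d ∈ A).card := by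
  have h := hF.countK hM hX hcl (fun v => if v ∈ A then (1 : ℕ) else 0)
  have e1 : ∀ S : Finset D, ∑ d ∈ S, (if G.pi d ∈ A then (1 : ℕ) else 0) =
      (S.filter fun d => G.pi d ∈ A).card := by
    intro S
    rw [card_filter]
  have e2 : ∑ v ∈ X ∩ jm, (if v ∈ A then (1 : ℕ) else 0) = (X ∩ jm ∩ A).card := by
    rw [← filter_mem_eq_inter (s := X ∩ jm), card_filter]
  rw [e1, e1, e2] at h
  exact h

/-- darts of a symmetric set from `A` to `B` and from `B` to `A` -/
private theorem card_swap {S : Finset D} (hS : S ⊆ G.ds) (hal : ∀ d ∈ S, G.al d ∈ S) (A B : Finset V) :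
    (S.filter fun d => G.pi d ∈ A ∧ G.pi (G.al d) ∈ B).card =
      (S.filter fun d => G.pi d ∈ B ∧ G.pi (G.al d) ∈ A).card := by
  refine card_bij (fun d _ => G.al d) ?_ ?_ ?_
  · intro d hd
    obtain ⟨h1, h2, h3⟩ := mem_filter.1 hd
    refine mem_filter.2 ⟨hal d h1, h3, ?_⟩
    rw [G.al_al d (hS h1)]
    exact h2
  · intro d hd e he h
    have h1 := (mem_filter.1 hd).1
    have h2 := (mem_filter.1 he).1
    rw [← G.al_al d (hS h1), h, G.al_al e (hS h2)]
  · intro d hd
    obtain ⟨h1, h2, h3⟩ := mem_filter.1 hd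
    refine ⟨G.al d, mem_filter.2 ⟨hal d h1, h3, ?_⟩, G.al_al d (hS h1)⟩
    rw [G.al_al d (hS h1)]
    exact h2

/-- a symmetric set of darts is even -/
private theorem even_sym {S : Finset D} (hS : S ⊆ G.ds) (hal : ∀ d ∈ S, G.al d ∈ S) : Even S.card := by
  have h1 : ∑ _d ∈ S, (1 : ZMod 2) = 0 := by
    refine sum_involution (fun d _ => G.al d) ?_ ?_ ?_ ?_
    · intro d _
      decide
    · intro d hd _ he
      exact G.noloop d (hS hd) (by rw [he])
    · intro d hd
      exact hal d hd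
    · intro d hd
      exact G.al_al d (hS hd)
  rw [sum_const, nsmul_eq_mul, mul_one] at h1
  rwa [ZMod.natCast_eq_zero_iff_even] at h1

/-- (K), two colour classes: unused J-darts at `A` which do not go to `B`, minus those at `B` which
do not go to `A`, equals the same difference for the used F-darts (up to the star vertices) -/
theorem FrS.count_col (hF : G.FrS z fr F jm) (hM : G.IsPM M) (hX : G.Adm fr F X)
    (hcl : ∀ d ∈ G.bd X, d ∈ M) (A B : Finset V) :
    ((G.uJ F M X).filter fun d => G.pi d ∈ A ∧ G.pi (G.al d) ∉ B).card + (X ∩ jm ∩ A).card +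
        ((G.uF F M X).filter fun d => G.pi d ∈ B ∧ G.pi (G.al d) ∉ A).card =
      ((G.uJ F M X).filter fun d => G.pi d ∈ B ∧ G.pi (G.al d) ∉ A).card + (X ∩ jm ∩ B).card +
        ((G.uF F M X).filter fun d => G.pi d ∈ A ∧ G.pi (G.al d) ∉ B).card := by
  have hJs : G.uJ F M X ⊆ G.ds := fun d hd => (mem_uJ.1 hd).1
  have hFs : G.uF F M X ⊆ G.ds := fun d hd => hM.sub (mem_uF.1 hd).1
  have h1 := hF.count_set hM hX hcl A
  have h2 := hF.count_set hM hX hcl B
  have h3 := card_swap (G := G) hJs (fun d hd => uJ_al hF hM hd) A B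
  have h4 := card_swap (G := G) hFs (fun d hd => uF_al hF hM hX hd) A B
  have sp : ∀ (S : Finset D) (A B : Finset V), (S.filter fun d => G.pi d ∈ A).card =
      (S.filter fun d => G.pi d ∈ A ∧ G.pi (G.al d) ∈ B).card +
        (S.filter fun d => G.pi d ∈ A ∧ G.pi (G.al d) ∉ B).card := by
    intro S A B
    rw [← card_filter_add_card_filter_not (s := S.filter fun d => G.pi d ∈ A)
      (fun d => G.pi (G.al d) ∈ B), filter_filter, filter_filter]
  rw [sp _ A B, sp (G.uF F M X) A B] at h1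
  rw [sp _ B A, sp (G.uF F M X) B A] at h2
  omega

/-- (K) across a set `W` modulo 2: unused J-darts of `X` which cross `W`, used F-darts of `X` which
cross `W`, star vertices of `X` in `W` -/
theorem FrS.count_par (hF : G.FrS z fr F jm) (hM : G.IsPM M) (hX : G.Adm fr F X)
    (hcl : ∀ d ∈ G.bd X, d ∈ M) (W : Finset V) :
    (((G.uJ F M X).filter fun d => G.pi d ∈ W ∧ G.pi (G.al d) ∉ W).card +
        (X ∩ jm ∩ W).card) % 2 =
      ((G.uF F M X).filter fun d => G.pi d ∈ W ∧ G.pi (G.al d) ∉ W).card % 2 := by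
  have hJs : G.uJ F M X ⊆ G.ds := fun d hd => (mem_uJ.1 hd).1
  have hFs : G.uF F M X ⊆ G.ds := fun d hd => hM.sub (mem_uF.1 hd).1
  have h1 := hF.count_set hM hX hcl W
  have sp : ∀ (S : Finset D), (S.filter fun d => G.pi d ∈ W).card =
      (S.filter fun d => G.pi d ∈ W ∧ G.pi (G.al d) ∈ W).card +
        (S.filter fun d => G.pi d ∈ W ∧ G.pi (G.al d) ∉ W).card := by
    intro S
    rw [← card_filter_add_card_filter_not (s := S.filter fun d => G.pi d ∈ W)
      (fun d => G.pi (G.al d) ∈ W), filter_filter, filter_filter]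
  have ev : ∀ (S : Finset D), S ⊆ G.ds → (∀ d ∈ S, G.al d ∈ S) →
      Even (S.filter fun d => G.pi d ∈ W ∧ G.pi (G.al d) ∈ W).card := by
    intro S h2 h3
    refine even_sym (G := G) ((filter_subset _ _).trans h2) fun d hd => ?_
    obtain ⟨h4, h5, h6⟩ := mem_filter.1 hd
    refine mem_filter.2 ⟨h3 d h4, h6, ?_⟩
    rw [G.al_al d (h2 h4)]
    exact h5
  rw [sp, sp (G.uF F M X)] at h1
  obtain ⟨k1, hk1⟩ := ev _ hJs fun d hd => uJ_al hF hM hd
  obtain ⟨k2, hk2⟩ := ev _ hFs fun d hd => uF_al hF hM hX hd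
  omega

end MG

end RH
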