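import Pool.Agent.Lib.RH.St6U
import Pool.Agent.Lib.RH.CountK

/-! # Free absorption of a circuit cut by a tight set (helper43, helper68)

`W` odd, value 3, cut by two F-darts of a circuit, the third unit is one of tokens inside `W`: no
closed union contains the circuit. So in a stuck state the circuit can be dropped, and `W` can be
contracted. -/

set_option autoImplicit false

namespace RH

open Finset Classical

namespace MG

variable {V D : Type*} {G : MG V D} {z z' : D → ℝ} {t t' : V → ℝ} {fr fr' : Finset V}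
variable {F M : Finset D} {jm : Finset V} {ep : V → ℕ} {m a : ℕ} {W X : Finset V}

private theorem even_inv (S : Finset D) (hS : S ⊆ G.ds) (hcl : ∀ d ∈ S, G.al d ∈ S) :
    Even S.card := by
  have h1 : ∑ _d ∈ S, (1 : ZMod 2) = 0 := by
    refine sum_involution (fun d _ => G.al d) ?_ ?_ ?_ ?_
    · intro d _
      decide
    · intro d hd _ he
      exact G.noloop d (hS hd) (by rw [he])
    · intro d hd
      exact hcl d hd
    · intro d hd
      exact G.al_al d (hS hd)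
  rw [sum_const, nsmul_eq_mul, mul_one] at h1
  rwa [ZMod.natCast_eq_zero_iff_even] at h1

/-- the other boundary darts have weight 0 -/
theorem cut_zero (hw : G.Wt z t) (h3 : G.val z t W = 3)
    (ht : 1 ≤ ∑ v ∈ W, t v) {g1 g2 : D} (h1 : g1 ∈ G.bd W) (h2 : g2 ∈ G.bd W) (hne : g1 ≠ g2)
    (hz1 : z g1 = 1) (hz2 : z g2 = 1) {d : D} (hd : d ∈ G.bd W) (hd1 : d ≠ g1) (hd2 : d ≠ g2) :
    z d = 0 := by
  have hsub : ({g1, g2, d} : Finset D) ⊆ G.bd W := by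
    intro x hx
    simp only [mem_insert, mem_singleton] at hx
    rcases hx with rfl | rfl | rfl
    · exact h1
    · exact h2
    · exact hd
  have h4 : ∑ x ∈ ({g1, g2, d} : Finset D), z x ≤ ∑ x ∈ G.bd W, z x :=
    sum_le_sum_of_subset_of_nonneg hsub fun x hx _ => hw.z0 x (mem_bd.1 hx).1
  rw [sum_insert (by
      simp only [mem_insert, mem_singleton, not_or]
      exact ⟨hne, fun h => hd1 h.symm⟩),
    sum_insert (by
      simp only [mem_singleton]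
      exact fun h => hd2 h.symm), sum_singleton, hz1, hz2] at h4
  have h5 : ∑ x ∈ G.bd W, z x + ∑ v ∈ W, t v = 3 := h3
  have h6 := hw.z0 d (mem_bd.1 hd).1
  linarith

/-- **no closed union contains a circuit cut by such a set** -/
theorem FrS.no_closed_cross (hF : G.FrS z fr F jm) (hw : G.Wt z t) (hM : G.IsPM M)
    (hpos : ∀ d ∈ M, 0 < z d) (hW : W ⊆ G.vs) (hWo : Odd W.card) (h3 : G.val z t W = 3)
    (ht : 1 ≤ ∑ v ∈ W, t v) {g1 g2 : D} (h1 : g1 ∈ G.bd W) (h2 : g2 ∈ G.bd W) (hne : g1 ≠ g2)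
    (hg1 : g1 ∈ F) (hg2 : g2 ∈ F) (hX : G.Adm fr F X) (hcl : ∀ d ∈ G.bd X, d ∈ M)
    (hj : Even (X ∩ jm ∩ W).card) (hx1 : G.pi g1 ∈ X) (hx2 : G.pi g2 ∈ X) : False := by
  have hz1 := hF.unit g1 (hF.Fsub hg1) (hF.Ffr g1 hg1)
  have hz2 := hF.unit g2 (hF.Fsub hg2) (hF.Ffr g2 hg2)
  have hz := fun {d : D} => cut_zero (d := d) hw h3 ht h1 h2 hne hz1 hz2
  have hpar := hM.parity hW
  have hkey := hF.count_par hM hX hcl W
  -- no unused J-dart of `X` crosses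
  have e1 : ((G.uJ F M X).filter fun d => G.pi d ∈ W ∧ G.pi (G.al d) ∉ W) = ∅ := by
    rw [filter_eq_empty_iff]
    rintro d hd ⟨h4, h5⟩
    obtain ⟨h6, h7, -, h8, -⟩ := mem_uJ.1 hd
    have h9 := hz (mem_bd.2 ⟨h6, h4, h5⟩) (fun h => h7 (h ▸ hg1)) (fun h => h7 (h ▸ hg2))
    have h10 := hF.unit d h6 (hX.sub h8)
    rw [h9] at h10
    exact zero_ne_one h10
  -- the used F-darts of `X` which cross are the used darts of the boundary
  have e2 : ((G.uF F M X).filter fun d => G.pi d ∈ W ∧ G.pi (G.al d) ∉ W) =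
      (G.bd W).filter fun d => d ∈ M := by
    ext d
    rw [mem_filter, mem_uF, mem_filter, mem_bd]
    constructor
    · rintro ⟨⟨h4, h5, h6⟩, h7, h8⟩
      exact ⟨⟨hM.sub h4, h7, h8⟩, h4⟩
    · rintro ⟨⟨h4, h5, h6⟩, h7⟩
      have h8 : d = g1 ∨ d = g2 := by
        by_contra hcon
        rw [not_or] at hcon
        have h9 := hz (mem_bd.2 ⟨h4, h5, h6⟩) hcon.1 hcon.2
        have h10 := hpos d h7
        rw [h9] at h10
        exact lt_irrefl _ h10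
      rcases h8 with rfl | rfl
      · exact ⟨⟨h7, hg1, hx1⟩, h5, h6⟩
      · exact ⟨⟨h7, hg2, hx2⟩, h5, h6⟩
  rw [e1, e2, card_empty, zero_add, hpar] at hkey
  obtain ⟨k1, hk1⟩ := hj
  obtain ⟨k2, hk2⟩ := hWo
  omega

/-- fewer fresh vertices, same weights: no closed union leaves `fr'` -/
theorem StkU.shrink (h : StkU G z t fr F jm ep m a) (hsub : fr' ⊆ fr)
    (hcl : ∀ d ∈ F, G.pi d ∈ fr' → G.pi (G.al d) ∈ fr')
    (hj : jm ⊆ fr' ∨ Disjoint jm fr')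
    (hk : ∀ M, G.IsPM M → (∀ d ∈ M, 0 < z d) → ∀ X, G.Adm fr F X → Even (X ∩ jm).card →
      ¬ X ⊆ fr' → ∃ d ∈ G.bd X, d ∉ M) :
    StkU G z t fr' (F.filter fun d => G.pi d ∈ fr') (jm ∩ fr') ep m a := by
  refine ⟨h.comb.absorb hsub hcl hj, h.wt, fun d hd hp => h.unit d hd (hsub hp),
    (card_le_card hsub).trans_lt h.ha, h.ih, ?_⟩
  rintro ⟨M, hM⟩
  refine h.bad ⟨M, hM.pm, hM.pos, fun X hX ho => ?_⟩
  by_contra hcon
  push Not at hcon
  have hev := h.toT.fresh.closed_jm hM.pm hX hcon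
  by_cases hXf : X ⊆ fr'
  · have hX' : G.Adm fr' (F.filter fun d => G.pi d ∈ fr') X :=
      ⟨hXf, fun d hd hp => hX.clo d (mem_filter.1 hd).1 hp⟩
    have ho' : Odd X.card ∨ ((jm ∩ fr').Nonempty ∧ jm ∩ fr' ⊆ X) := by
      rcases ho with ho | ⟨h1, h2⟩
      · exact Or.inl ho
      · right
        rcases hj with hj | hj
        · rw [inter_eq_left.2 hj]
          exact ⟨h1, h2⟩
        · exfalso
          obtain ⟨v, hv⟩ := h1
          exact disjoint_left.1 hj hv (hXf (h2 hv))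
    obtain ⟨d, hd, hdM⟩ := hM.hit X hX' ho'
    exact hdM (hcon d hd)
  · obtain ⟨d, hd, hdM⟩ := hk M hM.pm hM.pos X hX hev hXf
    exact hdM (hcon d hd)

/-- a circuit leaves `W` as often as it enters it: both F-darts of the cut lie on one circuit -/
theorem FrS.cut_same (hF : G.FrS z fr F jm) (hw : G.Wt z t) (h3 : G.val z t W = 3)
    (ht : 1 ≤ ∑ v ∈ W, t v) {g1 g2 : D} (h1 : g1 ∈ G.bd W) (h2 : g2 ∈ G.bd W) (hne : g1 ≠ g2)
    (hg1 : g1 ∈ F) (hg2 : g2 ∈ F) (hX : G.Adm fr F X) (hx1 : G.pi g1 ∈ X) : G.pi g2 ∈ X := by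
  by_contra hx2
  have hz1 := hF.unit g1 (hF.Fsub hg1) (hF.Ffr g1 hg1)
  have hz2 := hF.unit g2 (hF.Fsub hg2) (hF.Ffr g2 hg2)
  have hz := fun {d : D} => cut_zero (d := d) hw h3 ht h1 h2 hne hz1 hz2
  have c1 : (F.filter fun d => G.pi d ∈ X ∩ W).card = (X ∩ W).card * 2 := by
    rw [card_eq_sum_card_fiberwise (f := G.pi) (s := F.filter fun d => G.pi d ∈ X ∩ W)
      (t := X ∩ W) (fun d hd => (mem_filter.1 (mem_coe.1 hd)).2), ← smul_eq_mul, ← sum_const]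
    refine sum_congr rfl fun v hv => ?_
    rw [← hF.two v (hX.sub (mem_inter.1 hv).1), filter_filter]
    congr 1
    apply filter_congr
    intro d _
    constructor
    · rintro ⟨-, h⟩
      exact h
    · intro h
      exact ⟨by rw [h]; exact hv, h⟩
  have c2 := card_filter_add_card_filter_not (s := F.filter fun d => G.pi d ∈ X ∩ W)
    (fun d => G.pi (G.al d) ∈ W)
  have c3 : ((F.filter fun d => G.pi d ∈ X ∩ W).filter fun d => ¬ G.pi (G.al d) ∈ W) = {g1} := by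
    ext d
    rw [mem_filter, mem_filter, mem_inter, mem_singleton]
    constructor
    · rintro ⟨⟨h4, h5, h6⟩, h7⟩
      by_contra hcon
      by_cases hd2 : d = g2
      · exact hx2 (hd2 ▸ h5)
      · have h8 := hz (mem_bd.2 ⟨hF.Fsub h4, h6, h7⟩) hcon hd2
        have h9 := hF.unit d (hF.Fsub h4) (hF.Ffr d h4)
        rw [h8] at h9
        exact zero_ne_one h9
    · rintro rfl
      obtain ⟨-, h5, h6⟩ := mem_bd.1 h1
      exact ⟨⟨hg1, hx1, h5⟩, h6⟩
  have c4 : Even ((F.filter fun d => G.pi d ∈ X ∩ W).filter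
      fun d => G.pi (G.al d) ∈ W).card := by
    refine even_inv (G := G) _ ((filter_subset _ _).trans ((filter_subset _ _).trans hF.Fsub)) ?_
    intro d hd
    obtain ⟨h4, h5⟩ := mem_filter.1 hd
    obtain ⟨h6, h7⟩ := mem_filter.1 h4
    obtain ⟨h8, h9⟩ := mem_inter.1 h7
    refine mem_filter.2 ⟨mem_filter.2 ⟨hF.Fal d h6, mem_inter.2 ⟨hX.clo d h6 h8, h5⟩⟩, ?_⟩
    rw [G.al_al d (hF.Fsub h6)]
    exact h9
  rw [c3, card_singleton, c1] at c2
  obtain ⟨k, hk⟩ := c4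
  omega

/-- **the circuit which is cut is absorbed** (with the star, if it contains a star vertex) -/
theorem StkU.absorb_cut (h : StkU G z t fr F jm ep m a) (hW : W ⊆ G.vs) (hWo : Odd W.card)
    (h3 : G.val z t W = 3) (ht : 1 ≤ ∑ v ∈ W, t v) {g1 g2 : D} (h1 : g1 ∈ G.bd W)
    (h2 : g2 ∈ G.bd W) (hne : g1 ≠ g2) (hg1 : g1 ∈ F) (hg2 : g2 ∈ F)
    (hj : Even (jm ∩ W).card) :
    ∃ fr1, fr1 ⊆ fr ∧ (∀ d ∈ F, G.pi d ∈ fr1 → G.pi (G.al d) ∈ fr1) ∧
      G.pi g1 ∉ fr1 ∧ G.pi g2 ∉ fr1 ∧ (jm ⊆ fr1 ∨ Disjoint jm fr1) ∧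
      (∀ X, G.Adm fr F X → G.pi g1 ∉ X → Disjoint X jm → X ⊆ fr1) ∧
      (∀ X, G.Adm fr F X → G.pi g1 ∈ X → Disjoint X jm → fr \ X ⊆ fr1) ∧
      StkU G z t fr1 (F.filter fun d => G.pi d ∈ fr1) (jm ∩ fr1) ep m a := by
  have hF := h.toT.fresh
  have hw := h.wt
  have hjW : ∀ X, G.Adm fr F X → Even (X ∩ jm).card → Even (X ∩ jm ∩ W).card := by
    intro X hX hev
    rcases h.comb.jm2 with h4 | h4
    · rw [h4, inter_empty, empty_inter, card_empty]
      exact Even.zero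
    · have h5 : (X ∩ jm).card ≤ 2 := (card_le_card inter_subset_right).trans h4.le
      obtain ⟨k, hk⟩ := hev
      have h6 : (X ∩ jm).card = 0 ∨ (X ∩ jm).card = 2 := by omega
      rcases h6 with h6 | h6
      · rw [card_eq_zero.1 h6, empty_inter, card_empty]
        exact Even.zero
      · have h7 : X ∩ jm = jm := eq_of_subset_of_card_le inter_subset_right (by omega)
        rw [h7]
        exact hj
  obtain ⟨B, hB⟩ : ∃ B : Finset V, B = insert (G.pi g1)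
      (if ∃ X, G.Adm fr F X ∧ G.pi g1 ∈ X ∧ Disjoint X jm then ∅ else jm) := ⟨_, rfl⟩
  obtain ⟨fr1, hs1, hcl1, hd1, hadm1⟩ := exists_avoid G fr F B
  have hg1B : G.pi g1 ∈ B := by rw [hB]; exact mem_insert_self _ _
  have hn1 : G.pi g1 ∉ fr1 := fun h4 => disjoint_left.1 hd1 h4 hg1B
  have hadf : G.Adm fr F fr1 := ⟨hs1, hcl1⟩
  have hn2 : G.pi g2 ∉ fr1 := fun h4 =>
    hn1 (hF.cut_same hw h3 ht h2 h1 (Ne.symm hne) hg2 hg1 hadf h4)
  have hmax : ∀ X, G.Adm fr F X → Disjoint X B → X ⊆ fr1 := fun X hX hXB =>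
    ((hadm1 X).2 ⟨hX, hXB⟩).sub
  have hA1 : ∀ X, G.Adm fr F X → G.pi g1 ∉ X → Disjoint X jm → X ⊆ fr1 := by
    intro X hX h4 h5
    refine hmax X hX ?_
    rw [hB, disjoint_insert_right]
    refine ⟨h4, ?_⟩
    split_ifs
    · exact disjoint_empty_right _
    · exact h5
  have hA2 : ∀ X, G.Adm fr F X → G.pi g1 ∈ X → Disjoint X jm → fr \ X ⊆ fr1 := by
    intro X hX h4 h5
    refine hmax _ (hF.adm_compl hX) ?_
    rw [hB, disjoint_insert_right, if_pos ⟨X, hX, h4, h5⟩]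
    exact ⟨fun h6 => (mem_sdiff.1 h6).2 h4, disjoint_empty_right _⟩
  have hj1 : jm ⊆ fr1 ∨ Disjoint jm fr1 := by
    by_cases hex : ∃ X, G.Adm fr F X ∧ G.pi g1 ∈ X ∧ Disjoint X jm
    · obtain ⟨X, hX, h4, h5⟩ := hex
      refine Or.inl fun v hv => hA2 X hX h4 h5 (mem_sdiff.2 ⟨hF.jms hv, fun h6 => ?_⟩)
      exact disjoint_left.1 h5 h6 hv
    · rw [if_neg hex] at hB
      have h4 : jm ⊆ B := by rw [hB]; exact subset_insert _ _
      exact Or.inr (disjoint_of_subset_right h4 hd1).symm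
  refine ⟨fr1, hs1, hcl1, hn1, hn2, hj1, hA1, hA2, h.shrink hs1 hcl1 hj1 ?_⟩
  intro M hM hpos X hX hev hXf
  by_contra hcon
  push Not at hcon
  have hmem : G.pi g1 ∈ X := by
    by_contra h4
    by_cases h5 : Disjoint X jm
    · exact hXf (hA1 X hX h4 h5)
    · -- the star lies in `X`
      have h6 : jm ⊆ X := by
        rcases h.comb.jm2 with h7 | h7
        · rw [h7]
          exact empty_subset _
        · rw [not_disjoint_iff] at h5
          obtain ⟨v, hv1, hv2⟩ := h5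
          have h8 : 0 < (X ∩ jm).card := card_pos.2 ⟨v, mem_inter.2 ⟨hv1, hv2⟩⟩
          have h9 : (X ∩ jm).card ≤ 2 := (card_le_card inter_subset_right).trans h7.le
          obtain ⟨k, hk⟩ := hev
          have h10 : X ∩ jm = jm := eq_of_subset_of_card_le inter_subset_right (by omega)
          exact inter_eq_right.1 h10
      by_cases hex : ∃ Y, G.Adm fr F Y ∧ G.pi g1 ∈ Y ∧ Disjoint Y jm
      · refine hXf (hmax X hX ?_)
        rw [hB, if_pos hex, disjoint_insert_right]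
        exact ⟨h4, disjoint_empty_right _⟩
      · exact hex ⟨fr \ X, hF.adm_compl hX,
          mem_sdiff.2 ⟨hF.Ffr g1 hg1, h4⟩,
          disjoint_left.2 fun v hv hv' => (mem_sdiff.1 hv).2 (h6 hv')⟩
  exact hF.no_closed_cross hw hM hpos hW hWo h3 ht h1 h2 hne hg1 hg2 hX hcon
    (hjW X hX hev) hmem (hF.cut_same hw h3 ht h1 h2 hne hg1 hg2 hX hmem)

/-- **CONTRACTION of such a set**: the outer side is stuck -/
theorem StkU.conT (h : StkU G z t fr F jm ep m a) (hW : W ⊆ G.vs) (hWo : Odd W.card)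
    (h3 : G.val z t W = 3) (ht : 1 ≤ ∑ v ∈ W, t v) {g1 g2 : D} (h1 : g1 ∈ G.bd W)
    (h2 : g2 ∈ G.bd W) (hne : g1 ≠ g2) (hg1 : g1 ∈ F) (hg2 : g2 ∈ F)
    (hj : Even (jm ∩ W).card) {ω : V} (hω : ω ∈ W) :
    ∃ fr1, fr1 ⊆ fr \ W ∧ (∀ d ∈ F, G.pi d ∈ fr1 → G.pi (G.al d) ∈ fr1) ∧
      G.pi (G.al g1) ∉ fr1 ∧ G.pi (G.al g2) ∉ fr1 ∧ (jm ⊆ fr1 ∨ Disjoint jm fr1) ∧
      (∀ X, G.Adm fr F X → Disjoint X W → Disjoint X jm → X ⊆ fr1) ∧
      StkU (G.con W ω hω hW) z (tcon t W ω) fr1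
        (F.filter fun d => G.pi d ∈ fr1) (jm ∩ fr1) ep m a := by
  have hF := h.toT.fresh
  have hw := h.wt
  obtain ⟨fr1, hs1, hcl1, hn1, hn2, hj1, hA1, -, hS⟩ :=
    h.absorb_cut hW hWo h3 ht h1 h2 hne hg1 hg2 hj
  have hz1 := hF.unit g1 (hF.Fsub hg1) (hF.Ffr g1 hg1)
  have hz2 := hF.unit g2 (hF.Fsub hg2) (hF.Ffr g2 hg2)
  have hFW : ∀ d ∈ F.filter fun d => G.pi d ∈ fr1, G.pi d ∈ W → G.pi (G.al d) ∈ W := by
    intro d hd h4
    by_contra h5
    obtain ⟨h6, h7⟩ := mem_filter.1 hd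
    have h8 := cut_zero hw h3 ht h1 h2 hne hz1 hz2 (mem_bd.2 ⟨hF.Fsub h6, h4, h5⟩)
      (fun h => hn1 (h ▸ h7)) (fun h => hn2 (h ▸ h7))
    have h9 := hF.unit d (hF.Fsub h6) (hF.Ffr d h6)
    rw [h8] at h9
    exact zero_ne_one h9
  obtain ⟨fr2, hs2, hcl2, ⟨hj2, hj3⟩, hmax2, hS2⟩ := hS.con hW hWo h3 hFW hω
  have hs21 : fr2 ⊆ fr1 := fun v hv => (mem_sdiff.1 (hs2 hv)).1
  have eF : ((F.filter fun d => G.pi d ∈ fr1).filter fun d => G.pi d ∈ fr2) =
      F.filter fun d => G.pi d ∈ fr2 := by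
    rw [filter_filter]
    apply filter_congr
    intro d _
    constructor
    · rintro ⟨-, h4⟩
      exact h4
    · intro h4
      exact ⟨hs21 h4, h4⟩
  have ej : jm ∩ fr1 ∩ fr2 = jm ∩ fr2 := by
    rw [inter_assoc, inter_eq_right.2 hs21]
  rw [eF, ej] at hS2
  have hout : ∀ {g}, g ∈ F → G.pi g ∉ fr1 → G.pi (G.al g) ∉ fr1 := by
    intro g hg h4 h5
    have h6 := hcl1 _ (hF.Fal g hg) h5
    rw [G.al_al g (hF.Fsub hg)] at h6
    exact h4 h6
  refine ⟨fr2, fun v hv => mem_sdiff.2 ⟨hs1 (hs21 hv), (mem_sdiff.1 (hs2 hv)).2⟩, ?_,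
    fun h4 => hout hg1 hn1 (hs21 h4), fun h4 => hout hg2 hn2 (hs21 h4), ?_, ?_, hS2⟩
  · intro d hd h4
    exact hcl2 d (mem_filter.2 ⟨hd, hs21 h4⟩) h4
  · rcases hj1 with hj1 | hj1
    · by_cases hjo : jm ∩ fr1 ⊆ G.vs \ W
      · rw [inter_eq_left.2 hj1] at hjo hj2
        exact Or.inl (hj2 hjo)
      · have h4 := hj3 hjo
        rw [inter_eq_left.2 hj1] at h4
        exact Or.inr h4
    · exact Or.inr (disjoint_of_subset_right hs21 hj1)
  · intro X hX hXW hXj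
    have h4 : X ⊆ fr1 := hA1 X hX
      (fun h5 => disjoint_left.1 hXW h5 (mem_bd.1 h1).2.1) hXj
    refine hmax2 X ⟨h4, fun d hd hp => hX.clo d (mem_filter.1 hd).1 hp⟩ hXW (Or.inl ?_)
    exact disjoint_of_subset_right inter_subset_left hXj

end MG

end RH
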