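import Pool.Agent.Lib.RH.SFcut

/-! The count of helper60: for a closed union `X` of circuits and any potential `π` on the vertices,
the sum over the unused J-edges inside `X` equals the sum over the used F-edges inside `X`. -/

set_option autoImplicit false

namespace RH

open Finset Classical

namespace MG

variable {V D : Type*}

variable {G : MG V D} {z : D → ℝ} {t : V → ℝ} {fr : Finset V} {F : Finset D} {jm : Finset V}
variable {X : Finset V} {M : Finset D}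

/-- unused J-darts at `X` -/
noncomputable def uj (G : MG V D) (F M : Finset D) (X : Finset V) : Finset D :=
  G.ds.filter fun d => G.pi d ∈ X ∧ d ∉ F ∧ d ∉ M

/-- used F-darts at `X` -/
noncomputable def uf (G : MG V D) (F M : Finset D) (X : Finset V) : Finset D :=
  G.ds.filter fun d => G.pi d ∈ X ∧ d ∈ F ∧ d ∈ M

theorem mem_uj {d : D} : d ∈ G.uj F M X ↔ d ∈ G.ds ∧ G.pi d ∈ X ∧ d ∉ F ∧ d ∉ M := mem_filter

theorem mem_uf {d : D} : d ∈ G.uf F M X ↔ d ∈ G.ds ∧ G.pi d ∈ X ∧ d ∈ F ∧ d ∈ M := mem_filter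

/-- the count, as sums over darts -/
theorem FrS.count (hF : G.FrS z fr F jm) (hM : G.IsPM M) (hX : X ⊆ fr) (π : V → ℝ) :
    ∑ d ∈ G.uj F M X, π (G.pi d) + ∑ v ∈ X ∩ jm, π v = ∑ d ∈ G.uf F M X, π (G.pi d) := by
  have h1 : ∑ d ∈ G.uf F M X, π (G.pi d) =
      ∑ v ∈ X, ∑ d ∈ (G.uf F M X).filter fun d => G.pi d = v, π (G.pi d) :=
    (sum_fiberwise_of_maps_to (fun d hd => (mem_uf.1 hd).2.1) _).symm
  have h2 : ∑ d ∈ G.uj F M X, π (G.pi d) =
      ∑ v ∈ X, ∑ d ∈ (G.uj F M X).filter fun d => G.pi d = v, π (G.pi d) :=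
    (sum_fiberwise_of_maps_to (fun d hd => (mem_uj.1 hd).2.1) _).symm
  have h3 : ∑ v ∈ X ∩ jm, π v = ∑ v ∈ X, if v ∈ jm then π v else 0 := by
    rw [← sum_filter, filter_mem_eq_inter]
  rw [h1, h2, h3, ← sum_add_distrib]
  refine sum_congr rfl fun v hv => ?_
  have hvf := hX hv
  obtain ⟨e, he⟩ := card_eq_one.1 (hM.one v (hF.fsub hvf))
  have he0 : e ∈ M.filter fun d => G.pi d = v := by rw [he]; exact mem_singleton_self e
  obtain ⟨heM, hev⟩ := mem_filter.1 he0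
  have heu : ∀ d ∈ M, G.pi d = v → d = e := by
    intro d h4 h5
    have h6 : d ∈ M.filter fun d => G.pi d = v := mem_filter.2 ⟨h4, h5⟩
    rw [he] at h6
    exact mem_singleton.1 h6
  have e1 : ∀ S : Finset D, ∑ d ∈ S.filter (fun d => G.pi d = v), π (G.pi d) =
      ∑ d ∈ S.filter (fun d => G.pi d = v), π v := fun S =>
    sum_congr rfl fun d hd => by rw [(mem_filter.1 hd).2]
  rw [e1, e1]
  have hR : e ∈ F → (G.uf F M X).filter (fun d => G.pi d = v) = {e} := by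
    intro h4
    ext d
    rw [mem_filter, mem_uf, mem_singleton]
    constructor
    · rintro ⟨⟨-, -, -, h5⟩, h6⟩
      exact heu d h5 h6
    · rintro rfl
      exact ⟨⟨hM.sub heM, by rw [hev]; exact hv, h4, heM⟩, hev⟩
  have hR' : e ∉ F → (G.uf F M X).filter (fun d => G.pi d = v) = ∅ := by
    intro h4
    rw [eq_empty_iff_forall_notMem]
    intro d hd
    rw [mem_filter, mem_uf] at hd
    exact h4 ((heu d hd.1.2.2.2 hd.2) ▸ hd.1.2.2.1)
  by_cases hj : v ∈ jm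
  · have h4 : e ∈ F := hF.j0 v hj e (mem_st.2 ⟨hM.sub heM, hev⟩)
    have h5 : (G.uj F M X).filter (fun d => G.pi d = v) = ∅ := by
      rw [eq_empty_iff_forall_notMem]
      intro d hd
      rw [mem_filter, mem_uj] at hd
      exact hd.1.2.2.1 (hF.j0 v hj d (mem_st.2 ⟨hd.1.1, hd.2⟩))
    rw [hR h4, h5, sum_empty, sum_singleton, if_pos hj]
    ring
  · obtain ⟨j, hjd, hjv, hjF, hju⟩ := hF.exists_jd hvf hj
    rw [if_neg hj]
    by_cases h4 : e ∈ F
    · have h5 : (G.uj F M X).filter (fun d => G.pi d = v) = {j} := by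
        ext d
        rw [mem_filter, mem_uj, mem_singleton]
        constructor
        · rintro ⟨⟨h5, -, h6, -⟩, h7⟩
          exact hju d h5 h7 h6
        · rintro rfl
          refine ⟨⟨hjd, by rw [hjv]; exact hv, hjF, fun h5 => hjF ?_⟩, hjv⟩
          rw [heu d h5 hjv]
          exact h4
      rw [hR h4, h5, sum_singleton, sum_singleton]
      ring
    · have h5 : (G.uj F M X).filter (fun d => G.pi d = v) = ∅ := by
        rw [eq_empty_iff_forall_notMem]
        intro d hd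
        rw [mem_filter, mem_uj] at hd
        have h6 := hju d hd.1.1 hd.2 hd.1.2.2.1
        have h7 := hju e (hM.sub heM) hev h4
        exact hd.1.2.2.2 (by rw [h6, ← h7]; exact heM)
      rw [hR' h4, h5, sum_empty]
      ring

/-- unused J-darts of a closed union have both ends inside -/
theorem uj_al (hF : G.FrS z fr F jm) (hM : G.IsPM M) (hcl : ∀ d ∈ G.bd X, d ∈ M) {d : D}
    (hd : d ∈ G.uj F M X) : G.al d ∈ G.uj F M X := by
  obtain ⟨h1, h2, h3, h4⟩ := mem_uj.1 hd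
  refine mem_uj.2 ⟨G.al_mem d h1, ?_, fun h5 => h3 ?_, fun h5 => h4 ?_⟩
  · by_contra h5
    exact h4 (hcl d (mem_bd.2 ⟨h1, h2, h5⟩))
  · rw [← G.al_al d h1]
    exact hF.Fal _ h5
  · rw [← G.al_al d h1]
    exact hM.closed _ h5

theorem uf_al (hF : G.FrS z fr F jm) (hM : G.IsPM M) (hX : G.Adm fr F X) {d : D}
    (hd : d ∈ G.uf F M X) : G.al d ∈ G.uf F M X := by
  obtain ⟨h1, h2, h3, h4⟩ := mem_uf.1 hd
  exact mem_uf.2 ⟨G.al_mem d h1, hX.clo d h3 h2, hF.Fal d h3, hM.closed d h4⟩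

private theorem sum_al_set {S : Finset D} (hS : S ⊆ G.ds) (ha : ∀ d ∈ S, G.al d ∈ S)
    (f : D → ℝ) : ∑ d ∈ S, f (G.al d) = ∑ d ∈ S, f d := by
  refine sum_bij (fun d _ => G.al d) (fun d hd => ha d hd) ?_ ?_ (fun d _ => rfl)
  · intro d hd e he hde
    have h1 := G.al_al d (hS hd)
    have h2 := G.al_al e (hS he)
    have hde' : G.al d = G.al e := hde
    rw [← h1, hde', h2]
  · intro d hd
    exact ⟨G.al d, ha d hd, G.al_al d (hS hd)⟩

/-- the count of helper60, as sums over edges (every edge is counted twice) -/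
theorem FrS.count_edge (hF : G.FrS z fr F jm) (hM : G.IsPM M) (hX : G.Adm fr F X)
    (hcl : ∀ d ∈ G.bd X, d ∈ M) (π : V → ℝ) :
    ∑ d ∈ G.uj F M X, (π (G.pi d) + π (G.pi (G.al d))) + 2 * ∑ v ∈ X ∩ jm, π v =
      ∑ d ∈ G.uf F M X, (π (G.pi d) + π (G.pi (G.al d))) := by
  have h1 := hF.count hM hX.sub π
  have h2 := sum_al_set (G := G) (S := G.uj F M X) (filter_subset _ _)
    (fun d hd => uj_al hF hM hcl hd) (fun d => π (G.pi d))
  have h3 := sum_al_set (G := G) (S := G.uf F M X) (filter_subset _ _)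
    (fun d hd => uf_al hF hM hX hd) (fun d => π (G.pi d))
  rw [sum_add_distrib, sum_add_distrib, h2, h3]
  linarith

/-- if the potential is at most 0 on the F-edges of a closed union and at least 0 on its inner
J-edges and on its star vertices, then every unused J-edge inside has potential 0 -/
theorem FrS.count_zero (hF : G.FrS z fr F jm) (hM : G.IsPM M) (hX : G.Adm fr F X)
    (hcl : ∀ d ∈ G.bd X, d ∈ M) (π : V → ℝ)
    (h1 : ∀ d ∈ F, G.pi d ∈ X → π (G.pi d) + π (G.pi (G.al d)) ≤ 0)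
    (h2 : ∀ d ∈ G.ds, d ∉ F → G.pi d ∈ X → G.pi (G.al d) ∈ X →
      0 ≤ π (G.pi d) + π (G.pi (G.al d)))
    (h3 : ∀ v ∈ X, v ∈ jm → 0 ≤ π v) :
    (∀ d ∈ G.uj F M X, π (G.pi d) + π (G.pi (G.al d)) = 0) ∧
      (∀ d ∈ G.uf F M X, π (G.pi d) + π (G.pi (G.al d)) = 0) ∧ ∀ v ∈ X, v ∈ jm → π v = 0 := by
  have h := hF.count_edge hM hX hcl π
  have a1 : ∀ d ∈ G.uj F M X, 0 ≤ π (G.pi d) + π (G.pi (G.al d)) := by
    intro d hd
    obtain ⟨k1, k2, k3, -⟩ := mem_uj.1 hd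
    exact h2 d k1 k3 k2 (mem_uj.1 (uj_al hF hM hcl hd)).2.1
  have a2 : ∀ d ∈ G.uf F M X, 0 ≤ -(π (G.pi d) + π (G.pi (G.al d))) := by
    intro d hd
    obtain ⟨k1, k2, k3, -⟩ := mem_uf.1 hd
    linarith [h1 d k3 k2]
  have a3 : ∀ v ∈ X ∩ jm, 0 ≤ π v := fun v hv => h3 v (mem_inter.1 hv).1 (mem_inter.1 hv).2
  have b1 := sum_nonneg a1
  have b2 := sum_nonneg a2
  have b3 := sum_nonneg a3
  rw [sum_neg_distrib] at b2
  have c1 : ∑ d ∈ G.uj F M X, (π (G.pi d) + π (G.pi (G.al d))) = 0 := by linarith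
  have c2 : ∑ d ∈ G.uf F M X, -(π (G.pi d) + π (G.pi (G.al d))) = 0 := by
    rw [sum_neg_distrib]
    linarith
  have c3 : ∑ v ∈ X ∩ jm, π v = 0 := by linarith
  refine ⟨fun d hd => (sum_eq_zero_iff_of_nonneg a1).1 c1 d hd, fun d hd => ?_, fun v h4 h5 =>
    (sum_eq_zero_iff_of_nonneg a3).1 c3 v (mem_inter.2 ⟨h4, h5⟩)⟩
  have := (sum_eq_zero_iff_of_nonneg a2).1 c2 d hd
  linarith

end MG

end RH
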