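import Mathlib

/-! The rho frame (S5, MP_c95763_co), line of helper52 and helper11: multigraphs in the dart model
with real weights on the edges and real tokens at the vertices.

`pi d` is the vertex of the dart `d`, `al d` is the other dart of its edge. No loops, no degree
condition. `z d` is the weight of the edge of `d`, `t v` the amount of tokens at `v`. -/

set_option autoImplicit false

namespace RH

open Finset Classical

/-- multigraph in the dart model, without loops -/
structure MG (V D : Type*) where
  vs : Finset V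
  ds : Finset D
  pi : D → V
  al : D → D
  pi_mem : ∀ d ∈ ds, pi d ∈ vs
  al_mem : ∀ d ∈ ds, al d ∈ ds
  al_al : ∀ d ∈ ds, al (al d) = d
  noloop : ∀ d ∈ ds, pi (al d) ≠ pi d

namespace MG

variable {V D : Type*} (G : MG V D)

/-- darts at `v` -/
noncomputable def st (v : V) : Finset D := G.ds.filter fun d => G.pi d = v

/-- darts (inside `X`) of the edges leaving `X` -/
noncomputable def bd (X : Finset V) : Finset D :=
  G.ds.filter fun d => G.pi d ∈ X ∧ G.pi (G.al d) ∉ X

/-- darts from `X` to `Y` -/
noncomputable def ed (X Y : Finset V) : Finset D :=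
  G.ds.filter fun d => G.pi d ∈ X ∧ G.pi (G.al d) ∈ Y

/-- the value of a set: weight of the boundary plus tokens inside -/
noncomputable def val (z : D → ℝ) (t : V → ℝ) (X : Finset V) : ℝ :=
  ∑ d ∈ G.bd X, z d + ∑ v ∈ X, t v

/-- weights: vertex sums 3, odd sets have value at least 3 -/
structure Wt (z : D → ℝ) (t : V → ℝ) : Prop where
  z0 : ∀ d ∈ G.ds, 0 ≤ z d
  t0 : ∀ v ∈ G.vs, 0 ≤ t v
  sym : ∀ d ∈ G.ds, z (G.al d) = z d
  deg : ∀ v ∈ G.vs, ∑ d ∈ G.st v, z d + t v = 3
  cut : ∀ X ⊆ G.vs, Odd X.card → 3 ≤ G.val z t X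

/-- perfect matching (a set of darts, closed under `al`) -/
structure IsPM (M : Finset D) : Prop where
  sub : M ⊆ G.ds
  closed : ∀ d ∈ M, G.al d ∈ M
  one : ∀ v ∈ G.vs, (M.filter fun d => G.pi d = v).card = 1

/-- fresh vertices `fr` with their `F`-edges: at a fresh vertex all weights are 1, exactly one dart is
not in `F` (the J-dart), and `F`-edges join fresh vertices. (A vertex with two `F`-darts and no
token lies on a circuit or inside a path; a vertex with one `F`-dart and token 1 is the end of a
path class: the next vertex of its circuit was deleted together with the prescribed edge.) -/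
structure Fr (z : D → ℝ) (fr : Finset V) (F : Finset D) : Prop where
  fsub : fr ⊆ G.vs
  Fsub : F ⊆ G.ds
  Fal : ∀ d ∈ F, G.al d ∈ F
  Ffr : ∀ d ∈ F, G.pi d ∈ fr
  one : ∀ v ∈ fr, ((G.st v).filter fun d => d ∉ F).card = 1
  unit : ∀ d ∈ G.ds, G.pi d ∈ fr → z d = 1

/-- unions of fresh classes -/
structure Adm (fr : Finset V) (F : Finset D) (X : Finset V) : Prop where
  sub : X ⊆ fr
  clo : ∀ d ∈ F, G.pi d ∈ X → G.pi (G.al d) ∈ X

/-- A rho instance. `par` is the weight of a vertex in the parity of a union (normally 1; 2 at one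
vertex of the path class), `ep` counts the ports of a class which are not in the graph (the J-edge
of a deleted vertex, always used by the matching; normally 0). -/
structure Inst (z : D → ℝ) (t : V → ℝ) (fr : Finset V) (F : Finset D) (par ep : V → ℕ) : Prop where
  even : Even G.vs.card
  wt : G.Wt z t
  tau : ∑ v ∈ G.vs, t v < 6
  fresh : G.Fr z fr F
  cc : ∀ X, G.Adm fr F X → Odd (∑ v ∈ X, par v) → 5 ≤ (G.bd X).card + ∑ v ∈ X, ep v

/-- a good matching: perfect, in the support of `z`, no odd union of fresh classes is closed -/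
structure Good (z : D → ℝ) (fr : Finset V) (F : Finset D) (par : V → ℕ) (M : Finset D) : Prop where
  pm : G.IsPM M
  pos : ∀ d ∈ M, 0 < z d
  hit : ∀ X, G.Adm fr F X → Odd (∑ v ∈ X, par v) → ∃ d ∈ G.bd X, d ∉ M

/-- size of an instance -/
def size (fr : Finset V) : ℕ := G.vs.card + fr.card

/-- induction hypothesis -/
def IH (n : ℕ) (V D : Type*) : Prop :=
  ∀ (G : MG V D) (z : D → ℝ) (t : V → ℝ) (fr : Finset V) (F : Finset D) (par ep : V → ℕ),
    G.size fr < n → G.Inst z t fr F par ep → ∃ M, G.Good z fr F par M

end MG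

/-- the rho theorem -/
def RhoThm : Prop :=
  ∀ (V D : Type) (G : MG V D) (z : D → ℝ) (t : V → ℝ) (fr : Finset V) (F : Finset D)
    (par ep : V → ℕ), G.Inst z t fr F par ep → ∃ M, G.Good z fr F par M

end RH
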