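import Pool.Agent.Lib.RH.A4B
import Pool.Agent.Lib.RH.E0

/-! # Adjacent tokens: the payment with the extended (A4)

(helper95) As `EK.paid` and `X6.adj` of `E0.lean`, but the paid state has to be solvable only in the
class `E4B`: a blocking set `W` which is crossed by the circuits (or which is even) must in addition
leave outside an edge which may be killed. Edges which are in every perfect matching of the paid
state (`FoD`: both neighbours on the circuit have a leg to a vertex with two tokens) do not count. -/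

set_option autoImplicit false

namespace RH

open Finset Classical

namespace MG

variable {V D : Type*}

/-- the J-dart `d` of a fresh vertex both whose neighbours on the circuit have a leg to a vertex with
two tokens -/
def FoD (G : MG V D) (t : V → ℝ) (fr : Finset V) (F : Finset D) (d : D) : Prop :=
  d ∉ F ∧ G.pi d ∈ fr ∧
    ∀ c ∈ F, G.pi c = G.pi d → ∃ j ∈ G.ds, G.pi j = G.pi (G.al c) ∧ t (G.pi (G.al j)) = 2

/-- the forced darts of the paid state -/
noncomputable def K0of (G : MG V D) (t : V → ℝ) (fr : Finset V) (F : Finset D) (jm : Finset V)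
    (y b : V) : Finset D :=
  if jm = ∅ then G.ds.filter fun d => (G.pi d ≠ y ∧ G.pi d ≠ b) ∧
    (FoD G t fr F d ∨ FoD G t fr F (G.al d)) else ∅

/-- all edges which may be killed have both ends in `W` -/
def KW (G : MG V D) (t : V → ℝ) (F K0 : Finset D) (W : Finset V) : Prop :=
  ∀ d ∈ G.ds, d ∉ F → d ∉ K0 → t (G.pi d) ≤ 1 → t (G.pi (G.al d)) ≤ 1 → G.pi d ∈ W

variable {G : MG V D} {t : V → ℝ} {fr : Finset V}
variable {F K0 : Finset D} {jm X : Finset V}
variable {y b : V} {a u e : D} {M : Finset D}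

/-- a fresh vertex has at most one dart outside the circuits -/
theorem FrS.uJ {z : D → ℝ} (hF : G.FrS z fr F jm) {d e : D} (hd : d ∈ G.ds) (he : e ∈ G.ds)
    (h1 : G.pi d = G.pi e) (hv : G.pi d ∈ fr) (hdF : d ∉ F) (heF : e ∉ F) : d = e := by
  by_cases hj : G.pi d ∈ jm
  · exact absurd (hF.j0 _ hj d (mem_st.2 ⟨hd, rfl⟩)) hdF
  · obtain ⟨x, hx⟩ := card_eq_one.1 (hF.jd _ hv hj)
    have m1 : d ∈ (G.st (G.pi d)).filter fun e => e ∉ F :=
      mem_filter.2 ⟨mem_st.2 ⟨hd, rfl⟩, hdF⟩
    have m2 : e ∈ (G.st (G.pi d)).filter fun e => e ∉ F :=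
      mem_filter.2 ⟨mem_st.2 ⟨he, h1.symm⟩, heF⟩
    rw [hx, mem_singleton] at m1 m2
    rw [m1, m2]

namespace Ad

/-- tokens at the two vertices -/
theorem t1 (s : Ad G y b a u e) (hdeg : ∀ v ∈ G.vs, ((G.st v).card : ℝ) + t v = 3) :
    t y = 1 ∧ t b = 1 := by
  have hyv : y ∈ G.vs := s.pa ▸ G.pi_mem a s.a1
  have hbv : b ∈ G.vs := s.pb ▸ G.pi_mem _ (G.al_mem a s.a1)
  constructor
  · have h1 := hdeg y hyv
    have h2 : G.st y = {a, u} := by
      ext d
      rw [s.sy, mem_insert, mem_singleton]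
    rw [h2, card_pair s.au] at h1
    push_cast at h1
    linarith
  · have h1 := hdeg b hbv
    have h2 : G.st b = {G.al a, e} := by
      ext d
      rw [s.sb, mem_insert, mem_singleton]
    rw [h2, card_pair s.ae] at h1
    push_cast at h1
    linarith

/-- a dart whose partner is not at `y`, `b` -/
theorem ne_of (s : Ad G y b a u e) {d : D} (h1 : G.pi (G.al d) ≠ y) (h2 : G.pi (G.al d) ≠ b) :
    d ≠ G.al u ∧ d ≠ G.al e := by
  constructor
  · intro e'
    exact h1 (by rw [e', G.al_al u s.u1, s.pu])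
  · intro e'
    exact h2 (by rw [e', G.al_al e s.g1, s.pg])

end Ad

/-- a forced dart is in every perfect matching of the paid state -/
theorem FoD.mem (h : EK G 6 t fr F jm) (s : Ad G y b a u e) (hy : y ∉ fr) (hb : b ∉ fr)
    (hM : s.gr.IsPM M) {d : D} (hd : d ∈ G.ds) (hf : FoD G t fr F d) : d ∈ M := by
  have hF := h.fresh
  obtain ⟨hty, htb⟩ := s.t1 h.deg
  obtain ⟨f1, f2, f3⟩ := hf
  have hv : G.pi d ∈ s.gr.vs :=
    s.gr_vs.2 ⟨hF.fsub f2, fun e' => hy (e' ▸ f2), fun e' => hb (e' ▸ f2)⟩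
  obtain ⟨m, hm⟩ := card_eq_one.1 (hM.one _ hv)
  have hm' : m ∈ M.filter fun x => s.gr.pi x = G.pi d := by
    rw [hm]
    exact mem_singleton_self m
  obtain ⟨hmM, hmp⟩ := mem_filter.1 hm'
  have hmp' : G.pi m = G.pi d := hmp
  have hmd := (s.gr_ds.1 (hM.sub hmM)).1
  by_cases hmF : m ∈ F
  · exfalso
    obtain ⟨j, hj, hj1, hj2⟩ := f3 m hmF hmp'
    have hw : G.pi (G.al m) ∈ fr := hF.Ffr _ (hF.Fal m hmF)
    have hz := G.pi_mem _ (G.al_mem j hj)
    have hzy : G.pi (G.al j) ≠ y := fun e' => by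
      rw [e', hty] at hj2
      norm_num at hj2
    have hzb : G.pi (G.al j) ≠ b := fun e' => by
      rw [e', htb] at hj2
      norm_num at hj2
    have hjf : G.pi j ∈ fr := hj1 ▸ hw
    -- the dart of `M` at the vertex with two tokens
    have hz' : G.pi (G.al j) ∈ s.gr.vs := s.gr_vs.2 ⟨hz, hzy, hzb⟩
    obtain ⟨x, hx⟩ := card_eq_one.1 (hM.one _ hz')
    have hx' : x ∈ M.filter fun x => s.gr.pi x = G.pi (G.al j) := by
      rw [hx]
      exact mem_singleton_self x
    obtain ⟨hxM, hxp⟩ := mem_filter.1 hx'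
    have hxp' : G.pi x = G.pi (G.al j) := hxp
    have hst : (G.st (G.pi (G.al j))).card = 1 := by
      have h1 := h.deg _ hz
      rw [hj2] at h1
      have h2 : ((G.st (G.pi (G.al j))).card : ℝ) = (1 : ℕ) := by
        push_cast
        linarith
      exact_mod_cast h2
    obtain ⟨w, hw'⟩ := card_eq_one.1 hst
    have m1 : x ∈ G.st (G.pi (G.al j)) := mem_st.2 ⟨(s.gr_ds.1 (hM.sub hxM)).1, hxp'⟩
    have m2 : G.al j ∈ G.st (G.pi (G.al j)) := mem_st.2 ⟨G.al_mem j hj, rfl⟩
    rw [hw', mem_singleton] at m1 m2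
    have hxj : x = G.al j := m1.trans m2.symm
    have hjM : j ∈ M := by
      have h1 := hM.closed _ hxM
      have h2 : G.pi (G.al x) ≠ y := by
        rw [hxj, G.al_al j hj]
        exact fun e' => hy (e' ▸ hjf)
      have h3 : G.pi (G.al x) ≠ b := by
        rw [hxj, G.al_al j hj]
        exact fun e' => hb (e' ▸ hjf)
      obtain ⟨h4, h5⟩ := s.ne_of h2 h3
      rw [s.al_o h4 h5, hxj, G.al_al j hj] at h1
      exact h1
    -- `al m` and `j` are at the same vertex
    have hamM : G.al m ∈ M := by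
      have h1 := hM.closed _ hmM
      obtain ⟨h4, h5⟩ := s.ne_of (d := m) (fun e' => hy (e' ▸ hw)) fun e' => hb (e' ▸ hw)
      rw [s.al_o h4 h5] at h1
      exact h1
    have hw2 : G.pi (G.al m) ∈ s.gr.vs :=
      s.gr_vs.2 ⟨hF.fsub hw, fun e' => hy (e' ▸ hw), fun e' => hb (e' ▸ hw)⟩
    obtain ⟨q, hq⟩ := card_eq_one.1 (hM.one _ hw2)
    have n1 : G.al m ∈ M.filter fun x => s.gr.pi x = G.pi (G.al m) :=
      mem_filter.2 ⟨hamM, rfl⟩
    have n2 : j ∈ M.filter fun x => s.gr.pi x = G.pi (G.al m) := mem_filter.2 ⟨hjM, hj1⟩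
    rw [hq, mem_singleton] at n1 n2
    have hjm : j = G.al m := n2.trans n1.symm
    rw [hjm, G.al_al m hmd, hmp'] at hj2
    have h7 := h.tok_fr f2
    rw [h7] at hj2
    split_ifs at hj2 <;> norm_num at hj2
  · have h1 := hF.uJ hmd hd hmp' (hmp' ▸ f2) hmF f1
    rw [← h1]
    exact hmM

/-- few forced darts leave a circuit -/
theorem K0_card (h : EK G 6 t fr F jm) (s : Ad G y b a u e) (hy : y ∉ fr) (hb : b ∉ fr)
    {C : Finset V} (hC : C ⊆ fr) :
    ((s.gr.bd C).filter fun d => FoD G t fr F d ∨ FoD G t fr F (G.al d)).card ≤ 2 := by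
  have hF := h.fresh
  obtain ⟨hty, htb⟩ := s.t1 h.deg
  have hyv : y ∈ G.vs := s.pa ▸ G.pi_mem a s.a1
  have hbv : b ∈ G.vs := s.pb ▸ G.pi_mem _ (G.al_mem a s.a1)
  -- vertices with two tokens
  have hZ : (G.vs.filter fun v => t v = 2).card ≤ 2 := by
    have h1 := h.tau
    have h2 : ({y, b} : Finset V) ⊆ G.vs := by
      intro x hx
      rw [mem_insert, mem_singleton] at hx
      rcases hx with rfl | rfl
      · exact hyv
      · exact hbv
    rw [← sum_sdiff h2, sum_pair s.yb, hty, htb] at h1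
    have h3 : (G.vs.filter fun v => t v = 2) ⊆ G.vs \ {y, b} := by
      intro v hv
      obtain ⟨k1, k2⟩ := mem_filter.1 hv
      refine mem_sdiff.2 ⟨k1, fun k3 => ?_⟩
      rw [mem_insert, mem_singleton] at k3
      rcases k3 with rfl | rfl
      · rw [hty] at k2
        norm_num at k2
      · rw [htb] at k2
        norm_num at k2
    have h4 := sum_le_sum_of_subset_of_nonneg h3 (f := t) fun v hv _ => h.t0 v (mem_sdiff.1 hv).1
    have h5 : ∑ v ∈ G.vs.filter (fun v => t v = 2), t v =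
        2 * ((G.vs.filter fun v => t v = 2).card : ℝ) := by
      rw [sum_congr rfl fun v hv => (mem_filter.1 hv).2, sum_const, nsmul_eq_mul]
      ring
    rw [h5] at h4
    have h6 : ((G.vs.filter fun v => t v = 2).card : ℝ) ≤ (2 : ℕ) := by
      push_cast
      linarith
    exact_mod_cast h6
  -- their legs
  have hJ : (G.ds.filter fun j => t (G.pi (G.al j)) = 2).card ≤ 2 := by
    refine le_trans (card_le_card_of_injOn (fun j => G.pi (G.al j)) ?_ ?_) hZ
    · intro j hj
      obtain ⟨k1, k2⟩ := mem_filter.1 (mem_coe.1 hj)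
      exact mem_coe.2 (mem_filter.2 ⟨G.pi_mem _ (G.al_mem j k1), k2⟩)
    · intro j hj j' hj' he
      obtain ⟨k1, k2⟩ := mem_filter.1 (mem_coe.1 hj)
      obtain ⟨k3, k4⟩ := mem_filter.1 (mem_coe.1 hj')
      have hst : (G.st (G.pi (G.al j))).card = 1 := by
        have h1 := h.deg _ (G.pi_mem _ (G.al_mem j k1))
        rw [k2] at h1
        have h2 : ((G.st (G.pi (G.al j))).card : ℝ) = (1 : ℕ) := by
          push_cast
          linarith
        exact_mod_cast h2
      obtain ⟨w, hw'⟩ := card_eq_one.1 hst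
      have m1 : G.al j' ∈ G.st (G.pi (G.al j)) := mem_st.2 ⟨G.al_mem j' k3, he.symm⟩
      have m2 : G.al j ∈ G.st (G.pi (G.al j)) := mem_st.2 ⟨G.al_mem j k1, rfl⟩
      rw [hw', mem_singleton] at m1 m2
      have h3 : G.al j = G.al j' := m2.trans m1.symm
      rw [← G.al_al j k1, h3, G.al_al j' k3]
  obtain ⟨B, hBd⟩ : ∃ B : Finset V, B = fr.filter fun v => ∃ j ∈ G.ds, G.pi j = v ∧
    t (G.pi (G.al j)) = 2 := ⟨_, rfl⟩
  have hB : B.card ≤ 2 := by
    have h1 : B ⊆ (G.ds.filter fun j => t (G.pi (G.al j)) = 2).image G.pi := by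
      intro v hv
      rw [hBd] at hv
      obtain ⟨-, j, k1, k2, k3⟩ := mem_filter.1 hv
      exact mem_image.2 ⟨j, mem_filter.2 ⟨k1, k3⟩, k2⟩
    exact le_trans (card_le_card h1) (le_trans card_image_le hJ)
  obtain ⟨K, hKd⟩ : ∃ K : Finset V, K = fr.filter fun v => ∀ c ∈ F, G.pi c = v →
    G.pi (G.al c) ∈ B := ⟨_, rfl⟩
  have hsum : ∀ S ⊆ fr, (F.filter fun c => G.pi c ∈ S).card = 2 * S.card := by
    intro S hS
    have h1 : (F.filter fun c => G.pi c ∈ S).card =
        ∑ v ∈ S, ((F.filter fun c => G.pi c ∈ S).filter fun c => G.pi c = v).card :=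
      card_eq_sum_card_fiberwise fun c hc => (mem_filter.1 (mem_coe.1 hc)).2
    rw [h1, sum_congr rfl (g := fun _ => 2), sum_const, smul_eq_mul, mul_comm]
    intro v hv
    rw [← hF.two v (hS hv)]
    congr 1
    ext c
    rw [mem_filter, mem_filter, mem_filter]
    constructor
    · rintro ⟨⟨k1, -⟩, k3⟩
      exact ⟨k1, k3⟩
    · rintro ⟨k1, k3⟩
      exact ⟨⟨k1, k3 ▸ hv⟩, k3⟩
  have hK : K.card ≤ 2 := by
    have h1 := hsum K (by rw [hKd]; exact filter_subset _ _)
    have h2 := hsum B (by rw [hBd]; exact filter_subset _ _)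
    have h3 : (F.filter fun c => G.pi c ∈ K).card ≤ (F.filter fun c => G.pi c ∈ B).card := by
      refine card_le_card_of_injOn G.al ?_ ?_
      · intro c hc
        obtain ⟨k1, k2⟩ := mem_filter.1 (mem_coe.1 hc)
        rw [hKd] at k2
        exact mem_coe.2 (mem_filter.2 ⟨hF.Fal c k1, (mem_filter.1 k2).2 c k1 rfl⟩)
      · intro c hc c' hc' he
        have k1 := hF.Fsub (mem_filter.1 (mem_coe.1 hc)).1
        have k2 := hF.Fsub (mem_filter.1 (mem_coe.1 hc')).1
        rw [← G.al_al c k1, he, G.al_al c' k2]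
    omega
  have hmK : ∀ d, FoD G t fr F d → G.pi d ∈ K := by
    intro d hd
    obtain ⟨k1, k2, k3⟩ := hd
    rw [hKd]
    refine mem_filter.2 ⟨k2, fun c hc hp => ?_⟩
    obtain ⟨j, k4, k5, k6⟩ := k3 c hc hp
    rw [hBd]
    exact mem_filter.2 ⟨hF.Ffr _ (hF.Fal c hc), j, k4, k5, k6⟩
  refine le_trans (card_le_card_of_injOn
    (fun d => if FoD G t fr F d then G.pi d else G.pi (G.al d)) ?_ ?_) hK
  · intro d hd
    obtain ⟨-, k2⟩ := mem_filter.1 (mem_coe.1 hd)
    show (if FoD G t fr F d then G.pi d else G.pi (G.al d)) ∈ (K : Set V)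
    split_ifs with k3
    · exact mem_coe.2 (hmK d k3)
    · exact mem_coe.2 (hmK _ (k2.resolve_left k3))
  · -- injective
    have hx : ∀ d ∈ s.gr.bd C, FoD G t fr F (G.al d) → G.pi (G.al d) ∉ C := by
      intro d hd hf
      obtain ⟨k1, k2, k3⟩ := mem_bd.1 hd
      obtain ⟨h4, h5⟩ := s.ne_of (d := d) (fun e' => hy (e' ▸ hf.2.1)) fun e' => hb (e' ▸ hf.2.1)
      rw [s.al_o h4 h5] at k3
      exact k3
    intro d hd d' hd' he
    obtain ⟨k1, k2⟩ := mem_filter.1 (mem_coe.1 hd)
    obtain ⟨k1', k2'⟩ := mem_filter.1 (mem_coe.1 hd')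
    have g1 := (s.gr_ds.1 (mem_bd.1 k1).1).1
    have g1' := (s.gr_ds.1 (mem_bd.1 k1').1).1
    have g2 : G.pi d ∈ C := (mem_bd.1 k1).2.1
    have g2' : G.pi d' ∈ C := (mem_bd.1 k1').2.1
    have he' : (if FoD G t fr F d then G.pi d else G.pi (G.al d)) =
      if FoD G t fr F d' then G.pi d' else G.pi (G.al d') := he
    split_ifs at he' with k3 k4 k4
    · exact hF.uJ g1 g1' he' (hC g2) k3.1 k4.1
    · exact absurd (he' ▸ g2) (hx d' k1' (k2'.resolve_left k4))
    · exact absurd (he' ▸ g2') (hx d k1 (k2.resolve_left k3))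
    · have f1 := k2.resolve_left k3
      have f2 := k2'.resolve_left k4
      have h3 := hF.uJ (G.al_mem d g1) (G.al_mem d' g1') he' f1.2.1 f1.1 f2.1
      rw [← G.al_al d g1, h3, G.al_al d' g1']

namespace EK

/-- **THE PAID STATE, extended**: blocking sets are allowed which contain all edges that may be
killed -/
theorem paidB (h : EK G 6 t fr F jm) (s : Ad G y b a u e) (hy : y ∉ fr) (hb : b ∉ fr)
    (hun : ∀ W ⊆ G.vs, y ∈ W → b ∈ W → G.pi (G.al u) ∈ W → G.pi (G.al e) ∈ W →
      (Odd W.card → ((G.vs \ W).card ≠ 1 ∨ W \ {y, b} ⊆ fr) → 7 ≤ G.val one1 t W ∨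
        (¬ G.Adm fr F (W \ {y, b}) ∧ KW G t F (K0of G t fr F jm y b) W)) ∧
        (Even W.card → (∃ v ∈ G.vs \ W, t v ≠ 2) → 6 ≤ G.val one1 t W ∨
          KW G t F (K0of G t fr F jm y b) W))
    (h8 : ∀ X, G.Adm fr F X → Even X.card → G.pi (G.al u) ∈ X → G.pi (G.al e) ∈ X →
      8 ≤ (G.bd X).card + (X ∩ jm).card) :
    E4B s.gr t fr F jm F (K0of G t fr F jm y b) := by
  have hF := h.fresh
  have hyv : y ∈ G.vs := s.pa ▸ G.pi_mem a s.a1
  have hbv : b ∈ G.vs := s.pb ▸ G.pi_mem _ (G.al_mem a s.a1)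
  obtain ⟨hty, htb⟩ := s.t1 h.deg
  have hfr : ∀ v ∈ fr, v ≠ y ∧ v ≠ b := fun v hv =>
    ⟨fun e' => hy (e' ▸ hv), fun e' => hb (e' ▸ hv)⟩
  have hXn : ∀ X ⊆ s.gr.vs, ∀ v ∈ X, v ≠ y ∧ v ≠ b := fun X hX v hv => (s.gr_vs.1 (hX hv)).2
  have hXv : ∀ X ⊆ s.gr.vs, X ⊆ G.vs := fun X hX v hv => (s.gr_vs.1 (hX hv)).1
  have hval : ∀ X ⊆ s.gr.vs, s.gr.val one1 t X = G.val one1 t X -
      if G.pi (G.al u) ∈ X ∧ G.pi (G.al e) ∈ X then 2 else 0 := fun X hX => s.gr_val (hXn X hX)
  have hsv : ∀ {v : V}, v ∈ G.vs → G.val one1 t {v} = 3 := by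
    intro v hv
    rw [val_one, sum_singleton, ← h.deg v hv]
    congr 2
    congr 1
    ext d
    rw [mem_bd, mem_st, mem_singleton, mem_singleton]
    constructor
    · rintro ⟨k1, k2, _⟩
      exact ⟨k1, k2⟩
    · rintro ⟨k1, k2⟩
      exact ⟨k1, k2, fun k3 => G.noloop d k1 (k3.trans k2.symm)⟩
  have hW : ∀ X ⊆ s.gr.vs, (insert y (insert b X)) ⊆ G.vs ∧
      (insert y (insert b X)).card = X.card + 2 ∧
      G.vs \ (insert y (insert b X)) = s.gr.vs \ X ∧
      (insert y (insert b X)) \ {y, b} = X := by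
    intro X hX
    have hyX : y ∉ insert b X := by
      rw [mem_insert, not_or]
      exact ⟨s.yb, fun k1 => (hXn X hX y k1).1 rfl⟩
    have hbX : b ∉ X := fun k1 => (hXn X hX b k1).2 rfl
    refine ⟨?_, ?_, ?_, ?_⟩
    · intro v hv
      rw [mem_insert, mem_insert] at hv
      rcases hv with rfl | rfl | hv
      · exact hyv
      · exact hbv
      · exact hXv X hX hv
    · rw [card_insert_of_notMem hyX, card_insert_of_notMem hbX]
    · ext v
      rw [mem_sdiff, mem_sdiff, mem_insert, mem_insert, s.gr_vs]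
      tauto
    · ext v
      rw [mem_sdiff, mem_insert, mem_insert, mem_insert, mem_singleton]
      constructor
      · rintro ⟨k1 | k1 | k1, k2⟩
        · exact absurd (Or.inl k1) k2
        · exact absurd (Or.inr k1) k2
        · exact k1
      · intro k1
        exact ⟨Or.inr (Or.inr k1), fun k2 => k2.elim (hXn X hX v k1).1 (hXn X hX v k1).2⟩
  have hWv : ∀ X ⊆ s.gr.vs, G.pi (G.al u) ∈ X → G.pi (G.al e) ∈ X →
      G.val one1 t (insert y (insert b X)) = G.val one1 t X := by
    intro X hX h1 h2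
    rw [s.val_yb (hXn X hX) h1 h2, hty, htb]
    ring
  -- symmetry of the forced darts
  have hKs : ∀ d ∈ s.gr.ds, G.al d ∈ K0of G t fr F jm y b → d ∈ K0of G t fr F jm y b := by
    intro d hd hk
    obtain ⟨d1, d2, d3⟩ := s.gr_ds.1 hd
    unfold K0of at hk ⊢
    split_ifs at hk ⊢ with hj
    · obtain ⟨k1, k2, k3⟩ := mem_filter.1 hk
      rw [G.al_al d d1] at k3
      exact mem_filter.2 ⟨d1, ⟨d2, d3⟩, k3.symm⟩
    · exact absurd hk (notMem_empty _)
  have hkin : ∀ X ⊆ s.gr.vs, G.pi (G.al u) ∈ X → G.pi (G.al e) ∈ X →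
      KW G t F (K0of G t fr F jm y b) (insert y (insert b X)) →
      Kin s.gr t F (K0of G t fr F jm y b) X := by
    intro X hX h1 h2 hk g hg hgF hgK g1 g2
    by_cases hu : g = G.al u
    · rw [hu, s.al_u]
      exact ⟨h1, h2⟩
    · by_cases he : g = G.al e
      · rw [he, s.al_g]
        exact ⟨h2, h1⟩
      · rw [s.al_o hu he] at g2 ⊢
        have hg2 : G.al g ∈ s.gr.ds := by
          have := s.gr.al_mem g hg
          rwa [s.al_o hu he] at this
        obtain ⟨d1, d2, d3⟩ := s.gr_ds.1 hg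
        obtain ⟨d1', d2', d3'⟩ := s.gr_ds.1 hg2
        have n1 : ∀ x : V, x ≠ y → x ≠ b → x ∈ insert y (insert b X) → x ∈ X := by
          intro x x1 x2 x3
          rw [mem_insert, mem_insert] at x3
          exact (x3.resolve_left x1).resolve_left x2
        refine ⟨n1 _ d2 d3 (hk g d1 hgF hgK g1 g2), n1 _ d2' d3' (hk _ d1' (fun k1 => hgF ?_)
          (fun k1 => hgK (hKs g hg k1)) g2 (by rw [G.al_al g d1]; exact g1))⟩
        have := hF.Fal _ k1
        rwa [G.al_al g d1] at this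
  have hodd : ∀ X ⊆ s.gr.vs, Odd X.card → X.card ≠ 1 →
      ((s.gr.vs \ X).card ≠ 1 ∨ X ⊆ fr) → 5 ≤ s.gr.val one1 t X ∨
        (¬ G.Adm fr F X ∧ Kin s.gr t F (K0of G t fr F jm y b) X) := by
    intro X hX ho h1 h2
    rw [hval X hX]
    split_ifs with h3
    · obtain ⟨w1, w2, w3, w4⟩ := hW X hX
      have ho' : Odd (insert y (insert b X)).card := by
        rw [w2]
        exact ho.add_even even_two
      have h4 := (hun _ w1 (mem_insert_self _ _)
        (mem_insert_of_mem (mem_insert_self _ _))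
        (mem_insert_of_mem (mem_insert_of_mem h3.1))
        (mem_insert_of_mem (mem_insert_of_mem h3.2))).1 ho' (by rw [w3, w4]; exact h2)
      rw [hWv X hX h3.1 h3.2, w4] at h4
      rcases h4 with h4 | ⟨h4, h5⟩
      · left
        linarith
      · right
        exact ⟨h4, hkin X hX h3.1 h3.2 h5⟩
    · left
      linarith [h.odd X (hXv X hX) ho h1]
  refine ⟨?_, ?_, h.jm2, ?_, ?_, ?_, ?_, ?_, ?_, ?_, ?_, ?_, ?_, Finset.Subset.refl _,
    fun d hd _ => hd, ?_, ?_, ?_⟩
  · have h1 := s.gr_card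
    have h2 := h.even
    rw [← h1] at h2
    exact (Nat.even_add.1 h2).2 even_two
  · refine ⟨fun v hv => s.gr_vs.2 ⟨hF.fsub hv, hfr v hv⟩, fun d hd' => ?_, fun d hd' => ?_,
      hF.Ffr, hF.two, hF.jms, fun v hv hvj => ?_, fun v hv d hd' => ?_, fun _ _ _ => rfl⟩
    · exact s.gr_ds.2 ⟨hF.Fsub hd', hfr _ (hF.Ffr d hd')⟩
    · have k1 : s.gr.al d = G.al d := by
        refine s.al_o (fun e' => hy ?_) (fun e' => hb ?_)
        · have h3 := hF.Ffr _ (hF.Fal d hd')
          rw [e', G.al_al u s.u1, s.pu] at h3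
          exact h3
        · have h3 := hF.Ffr _ (hF.Fal d hd')
          rw [e', G.al_al e s.g1, s.pg] at h3
          exact h3
      rw [k1]
      exact hF.Fal d hd'
    · rw [s.gr_st (hfr v hv).1 (hfr v hv).2]
      exact hF.jd v hv hvj
    · rw [s.gr_st (hfr v (hF.jms hv)).1 (hfr v (hF.jms hv)).2] at hd'
      exact hF.j0 v hv d hd'
  · intro v hv
    obtain ⟨h1, h2, h3⟩ := s.gr_vs.1 hv
    rw [s.gr_st h2 h3]
    exact h.deg v h1
  · exact fun v hv => h.t0 v (s.gr_vs.1 hv).1
  · intro v hv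
    obtain ⟨n, hn, hc⟩ := h.tnat (s.gr_vs.1 hv).1
    rw [hn]
    by_contra hcon
    have h3 : n = 3 := by
      have : ¬ n ≤ 2 := fun k1 => hcon (by exact_mod_cast k1)
      omega
    subst h3
    -- the two vertices `y`, `v`, and the vertex `b`
    have hst : G.st v = ∅ := card_eq_zero.1 (by omega)
    have hvy := (s.gr_vs.1 hv).2.1
    have hev : G.val one1 t (G.vs.erase v) = 3 := by
      have hbd : G.bd (G.vs.erase v) = ∅ := by
        rw [eq_empty_iff_forall_notMem]
        intro d hd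
        obtain ⟨k1, k2, k3⟩ := mem_bd.1 hd
        have k4 : G.pi (G.al d) = v := by
          by_contra k5
          exact k3 (mem_erase.2 ⟨k5, G.pi_mem _ (G.al_mem d k1)⟩)
        have k5 : G.al d ∈ G.st v := mem_st.2 ⟨G.al_mem d k1, k4⟩
        rw [hst] at k5
        exact absurd k5 (notMem_empty _)
      rw [val_one, hbd, card_empty]
      have h4 := h.tau
      rw [← add_sum_erase G.vs t (s.gr_vs.1 hv).1, hn] at h4
      push_cast at h4 ⊢
      linarith
    have ho : Odd (G.vs.erase v).card := by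
      have h5 := card_erase_add_one (s.gr_vs.1 hv).1
      have h6 := h.even
      rw [← h5] at h6
      exact Nat.not_even_iff_odd.1 fun k1 => by
        rw [Nat.even_add_one] at h6
        exact h6 k1
    have h7 : (G.vs.erase v).card ≠ 1 := by
      have h8 : ({y, b} : Finset V) ⊆ G.vs.erase v := by
        intro x hx
        rw [mem_insert, mem_singleton] at hx
        rcases hx with rfl | rfl
        · exact mem_erase.2 ⟨hvy.symm, hyv⟩
        · exact mem_erase.2 ⟨(s.gr_vs.1 hv).2.2.symm, hbv⟩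
      have h9 := card_le_card h8
      rw [card_pair s.yb] at h9
      omega
    linarith [h.odd _ (erase_subset _ _) ho h7]
  · have e1' : G.vs = insert y (insert b s.gr.vs) := by
      ext v
      rw [mem_insert, mem_insert, s.gr_vs]
      constructor
      · intro hv
        by_cases k1 : v = y
        · exact Or.inl k1
        · by_cases k2 : v = b
          · exact Or.inr (Or.inl k2)
          · exact Or.inr (Or.inr ⟨hv, k1, k2⟩)
      · rintro (rfl | rfl | k1)
        · exact hyv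
        · exact hbv
        · exact k1.1
    have h1 := h.tau
    have hyX : y ∉ insert b s.gr.vs := by
      rw [mem_insert, not_or]
      exact ⟨s.yb, fun k1 => (s.gr_vs.1 k1).2.1 rfl⟩
    have hbX : b ∉ s.gr.vs := fun k1 => (s.gr_vs.1 k1).2.2 rfl
    rw [e1', sum_insert hyX, sum_insert hbX, hty, htb] at h1
    linarith
  · -- odd sets have value at least 3
    intro X hX ho
    rw [hval X hX]
    by_cases h1 : X.card = 1
    · obtain ⟨v, rfl⟩ := card_eq_one.1 h1
      rw [if_neg, hsv (hXv _ hX (mem_singleton_self v))]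
      · norm_num
      · rintro ⟨k1, k2⟩
        rw [mem_singleton] at k1 k2
        exact s.ue (k1.trans k2.symm)
    · have h2 := h.odd X (hXv X hX) ho h1
      split_ifs <;> linarith
  · intro X hX ho h1 h2
    rcases hodd X hX ho h1 (Or.inl h2) with h3 | h3
    · exact Or.inl h3
    · exact Or.inr h3.2
  · intro X hX he hn h1
    rw [hval X hX]
    have h3 : X ≠ G.vs := fun e' => (hXn X hX y (by rw [e']; exact hyv)).1 rfl
    have h4 := h.evn X (hXv X hX) he hn h3
    split_ifs <;> linarith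
  · intro X hX he hn h1
    rw [hval X hX]
    have h3 : X ≠ G.vs := fun e' => (hXn X hX y (by rw [e']; exact hyv)).1 rfl
    have h4 := h.evn X (hXv X hX) he hn h3
    split_ifs with h5
    · obtain ⟨w1, w2, w3, w4⟩ := hW X hX
      have he' : Even (insert y (insert b X)).card := by
        rw [w2]
        exact he.add even_two
      by_cases hv : ∃ v ∈ s.gr.vs \ X, t v ≠ 2
      · have h6 := (hun _ w1 (mem_insert_self _ _)
          (mem_insert_of_mem (mem_insert_self _ _))
          (mem_insert_of_mem (mem_insert_of_mem h5.1))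
          (mem_insert_of_mem (mem_insert_of_mem h5.2))).2 he' (by rw [w3]; exact hv)
        rw [hWv X hX h5.1 h5.2] at h6
        rcases h6 with h6 | h6
        · left
          linarith
        · exact Or.inr (hkin X hX h5.1 h5.2 h6)
      · right
        push Not at hv
        intro g hg _ _ g1 g2
        constructor
        · by_contra hc
          have := hv _ (mem_sdiff.2 ⟨s.gr.pi_mem g hg, hc⟩)
          have g1' : t (s.gr.pi g) ≤ 1 := g1
          rw [this] at g1'
          norm_num at g1'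
        · by_contra hc
          have := hv _ (mem_sdiff.2 ⟨s.gr.pi_mem _ (s.gr.al_mem g hg), hc⟩)
          rw [this] at g2
          norm_num at g2
    · left
      linarith
  · intro X hX ho
    have hX' := (s.adm hF hy hb).1 hX
    have hXs : X ⊆ s.gr.vs := fun v hv => s.gr_vs.2 ⟨hF.fsub (hX.sub hv), hfr v (hX.sub hv)⟩
    have h1 : X.card ≠ 1 := by
      intro e'
      obtain ⟨v, rfl⟩ := card_eq_one.1 e'
      have hv := hX.sub (mem_singleton_self v)
      have h2 := h.fresh.two v hv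
      obtain ⟨d, hd⟩ := card_pos.1 (by rw [h2]; norm_num : 0 < (F.filter fun d => G.pi d = v).card)
      obtain ⟨h3, h4⟩ := mem_filter.1 hd
      have h5 := hX'.clo d h3 (by rw [h4]; exact mem_singleton_self v)
      exact G.noloop d (h.fresh.Fsub h3) (by rw [mem_singleton.1 h5, h4])
    have h2 := (hodd X hXs ho h1 (Or.inr hX.sub)).resolve_right fun k => k.1 hX'
    rw [val_one, h.sum_tok_fr hX.sub] at h2
    exact_mod_cast h2
  · intro X hX he hn
    have hX' := (s.adm hF hy hb).1 hX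
    have h1 := s.gr_bd_card (X := X) fun v hv => hfr v (hX.sub hv)
    split_ifs at h1 with h2
    · have h3 := h8 X hX' he h2.1 h2.2
      omega
    · have h3 := h.c6 X hX' he hn
      omega
  · -- forced darts
    intro M hM d hd
    unfold K0of at hd
    split_ifs at hd with hj
    · obtain ⟨k1, ⟨k2, k3⟩, k4⟩ := mem_filter.1 hd
      rcases k4 with k4 | k4
      · exact k4.mem h s hy hb hM k1
      · have h1 := k4.mem h s hy hb hM (G.al_mem d k1)
        have h2 := hM.closed _ h1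
        have h3 := k4.2.1
        obtain ⟨h4, h5⟩ := s.ne_of (d := d) (fun e' => hy (e' ▸ h3)) fun e' => hb (e' ▸ h3)
        obtain ⟨h6, h7⟩ := s.ne_of (d := G.al d) (by rw [G.al_al d k1]; exact k2)
          (by rw [G.al_al d k1]; exact k3)
        rw [s.al_o h6 h7, G.al_al d k1] at h2
        exact h2
    · exact absurd hd (notMem_empty _)
  · intro C hC
    by_cases hj : jm = ∅
    · refine le_trans (card_le_card ?_) (K0_card h s hy hb hC.adm.sub)
      intro d hd
      obtain ⟨k1, k2⟩ := mem_filter.1 hd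
      rw [K0of, if_pos hj] at k2
      exact mem_filter.2 ⟨k1, (mem_filter.1 k2).2.2⟩
    · rw [K0of, if_neg hj]
      rw [filter_false_of_mem fun d _ => notMem_empty d, card_empty]
      norm_num
  · by_cases hj : jm = ∅
    · exact Or.inl hj
    · right
      exact ⟨rfl, if_neg hj⟩

end EK

/-- an edge outside `W` which may be killed in the paid state -/
def HX (G : MG V D) (t : V → ℝ) (fr : Finset V) (F : Finset D) (jm : Finset V) (W : Finset V) :
    Prop :=
  ∃ d ∈ G.ds, d ∉ F ∧ G.pi d ∉ W ∧ t (G.pi d) ≤ 1 ∧ t (G.pi (G.al d)) ≤ 1 ∧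
    (jm = ∅ → ¬ FoD G t fr F d ∧ ¬ FoD G t fr F (G.al d))

theorem HX.mono {W W' : Finset V} (hs : W ⊆ W') (hx : HX G t fr F jm W') : HX G t fr F jm W := by
  obtain ⟨d, h1, h2, h3, h4⟩ := hx
  exact ⟨d, h1, h2, fun k => h3 (hs k), h4⟩

/-- no such edge: all edges which may be killed are inside -/
theorem kw_of_not_hx {W : Finset V} (hn : ¬ HX G t fr F jm W) :
    KW G t F (K0of G t fr F jm y b) W ∨ y ∉ W ∨ b ∉ W := by
  by_cases hy : y ∈ W
  · by_cases hb : b ∈ W
    · left
      intro d hd hdF hdK h1 h2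
      by_contra hW
      refine hn ⟨d, hd, hdF, hW, h1, h2, fun hj => ?_⟩
      rw [K0of, if_pos hj] at hdK
      have h3 : ¬ (FoD G t fr F d ∨ FoD G t fr F (G.al d)) := fun k =>
        hdK (mem_filter.2 ⟨hd, ⟨fun k1 => hW (k1 ▸ hy), fun k1 => hW (k1 ▸ hb)⟩, k⟩)
      exact not_or.1 h3
    · exact Or.inr (Or.inr hb)
  · exact Or.inr (Or.inl hy)

namespace X6

/-- **(E0), extended**: as `X6.adj`, but the blocking set leaves outside an edge which may be killed,
or it is odd and `y`, `b` and a union of circuits -/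
theorem adjB (h : X6 G t fr F jm) {a : D} (ha : a ∈ G.ds) (haF : a ∉ F)
    (ty : 1 ≤ t (G.pi a)) (tb : 1 ≤ t (G.pi (G.al a))) :
    ∃ u e, Ad G (G.pi a) (G.pi (G.al a)) a u e ∧ t (G.pi a) = 1 ∧ t (G.pi (G.al a)) = 1 ∧
      G.pi a ∉ fr ∧ G.pi (G.al a) ∉ fr ∧
      ((∃ W ⊆ G.vs, G.pi a ∈ W ∧ G.pi (G.al a) ∈ W ∧ G.pi (G.al u) ∈ W ∧ G.pi (G.al e) ∈ W ∧
        4 ≤ W.card ∧
        ((Odd W.card ∧ G.val one1 t W = 5 ∧
            ((G.vs \ W).card ≠ 1 ∨ W \ {G.pi a, G.pi (G.al a)} ⊆ fr) ∧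
            (G.Adm fr F (W \ {G.pi a, G.pi (G.al a)}) ∨ HX G t fr F jm W)) ∨
          (Even W.card ∧ G.val one1 t W = 4 ∧ (∃ v ∈ G.vs \ W, t v ≠ 2) ∧
            HX G t fr F jm W))) ∨
      ∃ X, G.Adm fr F X ∧ Even X.card ∧ G.pi (G.al u) ∈ X ∧ G.pi (G.al e) ∈ X ∧
        (G.bd X).card + (X ∩ jm).card = 6) := by
  obtain ⟨u, e, s, hty, htb, hyf, hbf, -⟩ := h.adj ha haF ty tb
  refine ⟨u, e, s, hty, htb, hyf, hbf, ?_⟩
  by_cases hun : ∀ W ⊆ G.vs, G.pi a ∈ W → G.pi (G.al a) ∈ W → G.pi (G.al u) ∈ W →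
      G.pi (G.al e) ∈ W →
      (Odd W.card → ((G.vs \ W).card ≠ 1 ∨ W \ {G.pi a, G.pi (G.al a)} ⊆ fr) →
        7 ≤ G.val one1 t W ∨ (¬ G.Adm fr F (W \ {G.pi a, G.pi (G.al a)}) ∧
          KW G t F (K0of G t fr F jm (G.pi a) (G.pi (G.al a))) W)) ∧
        (Even W.card → (∃ v ∈ G.vs \ W, t v ≠ 2) → 6 ≤ G.val one1 t W ∨
          KW G t F (K0of G t fr F jm (G.pi a) (G.pi (G.al a))) W)
  · by_cases h8 : ∀ X, G.Adm fr F X → Even X.card → G.pi (G.al u) ∈ X → G.pi (G.al e) ∈ X →
        8 ≤ (G.bd X).card + (X ∩ jm).card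
    · exfalso
      have hE := h.toEK.paidB s hyf hbf hun h8
      obtain ⟨M', hM'⟩ := h.solve4B (by
        have h6 := s.gr_card
        omega) hE
      exact h.bad ⟨_, s.up_good h.fresh hyf hbf hM'⟩
    · right
      push Not at h8
      obtain ⟨X, hX, he', h1, h3, h4⟩ := h8
      refine ⟨X, hX, he', h1, h3, ?_⟩
      have h5 := h.fresh.bd_par hX
      have h6 := h.c6 X hX he' ⟨_, h1⟩
      rw [Nat.even_iff] at he'
      omega
  · left
    simp only [not_forall] at hun
    obtain ⟨W, hW, w1, w2, w3, w4, w6⟩ := hun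
    have hc : 4 ≤ W.card := by
      have n2 : ({G.pi a, G.pi (G.al a), G.pi (G.al u), G.pi (G.al e)} : Finset V).card = 4 := by
        rw [card_insert_of_notMem (by simp [s.yb, s.pau.symm, s.pag.symm]),
          card_insert_of_notMem (by simp [s.ub.symm, s.pag'.symm]), card_pair s.ue]
      rw [← n2]
      refine card_le_card fun v hv => ?_
      simp only [mem_insert, mem_singleton] at hv
      rcases hv with rfl | rfl | rfl | rfl
      · exact w1
      · exact w2
      · exact w3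
      · exact w4
    refine ⟨W, hW, w1, w2, w3, w4, hc, ?_⟩
    have hkw : ¬ KW G t F (K0of G t fr F jm (G.pi a) (G.pi (G.al a))) W → HX G t fr F jm W := by
      intro k
      by_contra k1
      rcases kw_of_not_hx (y := G.pi a) (b := G.pi (G.al a)) k1 with k2 | k2 | k2
      · exact k k2
      · exact k2 w1
      · exact k2 w2
    rw [not_and_or] at w6
    rcases w6 with w6 | w6
    · left
      simp only [not_forall, not_or, not_and] at w6
      obtain ⟨ho, h9, h10, h11⟩ := w6
      refine ⟨ho, ?_, h9, ?_⟩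
      · rcases h.odd_or hW ho (by omega) with h1 | h1
        · exact h1
        · exact absurd h1 h10
      · by_cases k : G.Adm fr F (W \ {G.pi a, G.pi (G.al a)})
        · exact Or.inl k
        · exact Or.inr (hkw (h11 k))
    · right
      simp only [not_forall, not_or] at w6
      obtain ⟨ho, hv, h10, h11⟩ := w6
      refine ⟨ho, ?_, hv, hkw h11⟩
      have hne : W ≠ G.vs := by
        intro e'
        obtain ⟨v, hv', -⟩ := hv
        rw [e', sdiff_self] at hv'
        exact absurd hv' (notMem_empty _)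
      rcases h.evn_or hW ho ⟨_, w1⟩ hne with h1 | h1
      · exact h1
      · exact absurd h1 h10

end X6

end MG

end RH
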