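import Pool.Agent.Lib.RH.E0J
import Pool.Agent.Lib.RH.CE6Fc
import Pool.Agent.Lib.RH.TplK2

/-! # (E0), blocking sets which are crossed by F-darts, two exits

Adjacent vertices `y`, `b` with one token each. `X6.e0F_even`: even sets of value 4; `X6.e0F_three`:
odd sets of value 5 with three tokens. -/

set_option autoImplicit false

namespace RH

open Finset Classical

namespace MG

variable {V D : Type*} {G : MG V D} {t : V → ℝ} {fr : Finset V} {F : Finset D}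
variable {jm A W X Y N S : Finset V} {e d a u f g : D} {T M : Finset D} {k : ℝ}
variable {nv ne np : ℕ} {pp : Fin np → D} {s1 e4 o5 : Finset (Finset (Fin np))} {n0 w : ℕ}

/-- two exits, crossed: both exits are F-darts -/
theorem FCut.fc2 (hF : G.FrS one1 fr F jm) (hW : W ⊆ G.vs) (hc : FCut G F W)
    (h2 : (G.bd W).card ≤ 2) : ∃ f g, G.FC F W f g ∧ G.bd W = {f, g} := by
  have h3 := hc.two hF
  have h4 : (G.bd W).filter (fun d => d ∈ F) = G.bd W :=
    eq_of_subset_of_card_le (filter_subset _ _) (by omega)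
  rw [h4] at h3
  obtain ⟨f, g, hfg, hbd⟩ := card_eq_two.1 (le_antisymm h2 h3)
  have key : ∀ d ∈ G.bd W, d ∈ F := fun d hd => (mem_filter.1 (by rw [h4]; exact hd)).2
  have hf : f ∈ G.bd W := by rw [hbd]; exact mem_insert_self _ _
  have hg : g ∈ G.bd W := by rw [hbd]; exact mem_insert_of_mem (mem_singleton_self _)
  refine ⟨f, g, ⟨hW, hfg, key f hf, key g hg, (mem_bd.1 hf).2.1, (mem_bd.1 hg).2.1,
    (mem_bd.1 hf).2.2, (mem_bd.1 hg).2.2, fun d hd h5 h6 => ?_⟩, hbd⟩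
  have h7 : d ∈ G.bd W := mem_bd.2 ⟨hF.Fsub hd, h5, h6⟩
  rw [hbd, mem_insert, mem_singleton] at h7
  exact h7

theorem FC.mf (hc : G.FC F W f g) (hF : G.FrS one1 fr F jm) : f ∈ G.bd W :=
  mem_bd.2 ⟨hF.Fsub hc.f1, hc.w1, hc.u1⟩

theorem FC.mg (hc : G.FC F W f g) (hF : G.FrS one1 fr F jm) : g ∈ G.bd W :=
  mem_bd.2 ⟨hF.Fsub hc.f2, hc.w2, hc.u2⟩

theorem FC.arc2 (hc : G.FC F W f g) (hF : G.FrS one1 fr F jm) :
    Arc2 G fr F W f g (fr ∩ W) :=
  hF.arc2 ⟨Subset.refl _, fun d hd _ => hF.Ffr _ (hF.Fal d hd)⟩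
    (fun d hd h1 => hc.only d hd (mem_bd.1 h1).2.1 (mem_bd.1 h1).2.2) (hc.mf hF) hc.f1
    (hF.Ffr f hc.f1)

/-- an arc part all of whose J-darts are used -/
theorem ArcC.arcN (hc : G.FC F W f g) (hF : G.FrS one1 fr F jm) (hX : G.ArcC fr F M W X f) :
    Arc2 G fr F W f g X ∧ ∀ d ∈ G.bd X, d ≠ f → d ≠ g → d ∈ M := by
  have h1 : ∀ d ∈ F, G.pi d ∈ X → G.pi (G.al d) ∈ X ∨ d = f ∨ d = g := by
    intro d hd h2
    by_cases h3 : G.pi (G.al d) ∈ W
    · exact Or.inl (hX.adm.clo d hd h2 h3)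
    · exact Or.inr (hc.only d hd (hX.adm.subZ h2) h3)
  refine ⟨⟨hX.adm.sub, hX.adm.subZ, h1, hX.arc, (hc.both hF hX.adm).1 hX.arc⟩, ?_⟩
  intro d hd h2 h3
  refine hX.cl d hd fun h4 => ?_
  rcases h1 d h4 (mem_bd.1 hd).2.1 with h5 | h5 | h5
  · exact (mem_bd.1 hd).2.2 h5
  · exact h2 h5
  · exact h3 h5

theorem LkA.noC (hl : LkA G fr F W f g M) (hc : G.FC F W f g) (hF : G.FrS one1 fr F jm) :
    ∀ X, ¬ G.ArcC fr F M W X f := fun X hX => by
  obtain ⟨h1, h2⟩ := ArcC.arcN hc hF hX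
  exact hl X h1 h2

/-- **outer gadget states, crossed sets** (the crossing circuit is absorbed) -/
theorem X6.tplU [Infinite V] [Infinite D] (h : X6 G t fr F jm) (b : OBl G t A w)
    {T : Tpl nv ne np} (hreg : T.Reg) (hT : T.Tab w n0 s1 (Tpl.oE e4) (Tpl.oO w o5))
    (hn : n0 + w = 2 * np + 2) (hk : T.nT univ + np + 2 = 6 + w) (hnv : nv % 2 = w)
    (hnc : T.NoC) (hpp : G.bd A = univ.image pp) (hpi : Function.Injective pp)
    (hsm : (fr ∩ A).card < fr.card ∨ nv < (G.vs \ A).card)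
    (c1 : ∀ v ∈ A, TOk.kap G pp {v} ∈ s1)
    (c4 : ∀ X ⊆ A, Even X.card → X.Nonempty → X ≠ A → G.val one1 t X = 4 → TOk.kap G pp X ∈ e4)
    (c5 : ∀ X ⊆ A, Odd X.card → X.card ≠ 1 → X ≠ A → G.val one1 t X = 5 →
      TOk.kap G pp X ∈ o5) :
    ∃ M m, G.GHalf one1 fr F jm A M ∧ T.IsPat m (univ.filter fun i => pp i ∈ M) := by
  have hE := h.toEK
  have hf := b.fact hE hpp hpi hn c1 c4 c5
  have hev : Even (A.card + nv) := by
    have h1 := b.cardA h.even
    rw [Nat.even_iff]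
    omega
  have hpb : ∀ i, pp i ∈ G.bd A := fun i => by
    rw [hpp]
    exact mem_image_of_mem _ (mem_univ _)
  have hdr : (G.bd A).filter (fun d => ∀ i, pp i ≠ d) = ∅ := by
    rw [filter_eq_empty_iff]
    intro d hd h1
    rw [hpp] at hd
    obtain ⟨i, -, hi⟩ := mem_image.1 hd
    exact h1 i hi
  have ht : ∑ v ∈ A, t v + (((G.bd A).filter fun d => ∀ i, pp i ≠ d).card : ℝ) +
      T.nT univ = 6 := by
    rw [hdr, card_empty, (b.valA hE hpp hpi).2]
    have e4 : (T.nT univ : ℝ) + np + 2 = 6 + w := by exact_mod_cast hk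
    push_cast
    linarith
  have hsm' : (fr ∩ A).card < fr.card ∨ A.card + nv < G.vs.card := by
    rcases hsm with h1 | h1
    · exact Or.inl h1
    · right
      have := card_sdiff_add_card_eq_card b.hA
      omega
  have hne : (G.vs \ A).Nonempty := card_pos.1 (by have := b.two; omega)
  obtain ⟨Ts, k1, k2, k3⟩ : ∃ Ts : Finset V, (Ts = ∅ ∨ Ts.card = 2) ∧
      (∀ v ∈ Ts, v ∈ jm ∨ ∃ d, Drop G A pp d ∧ G.pi d = v) ∧ (Ts = jm ∨ jm = ∅ ∨ ¬ jm ⊆ A) := by
    by_cases h1 : jm ⊆ A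
    · exact ⟨jm, h.jm2, fun v hv => Or.inl hv, Or.inl rfl⟩
    · exact ⟨∅, Or.inl rfl, fun v hv => absurd hv (notMem_empty v), Or.inr (Or.inr h1)⟩
  rcases h.tplG b.hA hne hreg hT hpb hpi hf hev ht k1 k2 hsm' with ⟨M, m, h1, h2⟩ | h1
  · exact ⟨M, m, h1.half h.fresh h.jm2 k3, h2⟩
  · obtain ⟨p, c, -, -, h2, h3, -⟩ := h1
    exact (hnc c h2 h3).elim

/-- the ports of the outer side -/
theorem FC.outer (hc : G.FC F W f g) (hbd : G.bd W = {f, g}) (hF : G.FrS one1 fr F jm) :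
    G.bd (G.vs \ W) = univ.image ![G.al f, G.al g] ∧ Function.Injective ![G.al f, G.al g] := by
  have hf := (mem_bd.1 (hc.mf hF)).1
  have hg := (mem_bd.1 (hc.mg hF)).1
  refine ⟨?_, fin2_ne fun k => hc.ne ((al_eq hf hg).1 k)⟩
  ext d
  rw [bd_compl hc.hW, hbd, mem_insert, mem_singleton, mem_image]
  constructor
  · rintro ⟨k1 | k1, k2⟩
    · exact ⟨0, mem_univ _, by rw [← G.al_al d k2, k1]; rfl⟩
    · exact ⟨1, mem_univ _, by rw [← G.al_al d k2, k1]; rfl⟩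
  · rintro ⟨i, -, rfl⟩
    fin_cases i
    · exact ⟨Or.inl (G.al_al f hf), G.al_mem f hf⟩
    · exact ⟨Or.inr (G.al_al g hg), G.al_mem g hg⟩

/-- **even sets, two exits, crossed**, the outer side is not small -/
theorem X6.e0F_evenL [Infinite V] [Infinite D] (h : X6 G t fr F jm) (hc : G.FC F N f g)
    (hbd : G.bd N = {f, g}) (he : Even N.card) (hv : G.val one1 t N = 4) (h4 : 4 ≤ N.card)
    (hZ2 : 2 ≤ (G.vs \ N).card) (ha : a ∈ G.ds) (haF : a ∉ F) (ty : t (G.pi a) ≠ 0)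
    (tb : t (G.pi (G.al a)) ≠ 0) (hyN : G.pi a ∈ N) (hbN : G.pi (G.al a) ∈ N)
    (hj : Disjoint jm N)
    (hsm : (fr ∩ N).card + 3 < fr.card ∨
      ((fr ∩ N).card + 3 ≤ fr.card ∧ N.card + 4 < G.vs.card)) : False := by
  have hE := h.toEK
  have hF := h.fresh
  have hf := hc.mf hF
  have hg := hc.mg hF
  have b : IBlk G t N 0 := ⟨hc.hW, Nat.even_iff.1 he, card_pos.1 (by omega), by rw [hv]; norm_num⟩
  have hjN : jm = ∅ ∨ ¬ jm ⊆ N := by
    by_cases k : jm = ∅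
    · exact Or.inl k
    · obtain ⟨v, hv⟩ := nonempty_iff_ne_empty.2 k
      exact Or.inr fun k2 => disjoint_left.1 hj hv (k2 hv)
  have hno : ∀ d ∈ G.bd N, d ≠ f → d ≠ g → False := by
    intro d hd h1 h2
    rw [hbd, mem_insert, mem_singleton] at hd
    exact hd.elim h1 h2
  have hB : ∃ B, Arc2 G fr F N f g B ∧
      ∀ v ∈ B, v ∉ jm ∧ ∀ d ∈ G.bd N, d ≠ f → d ≠ g → G.pi d ≠ v :=
    ⟨_, hc.arc2 hF, fun v hv => ⟨fun k => disjoint_left.1 hj k (mem_inter.1 hv).2,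
      fun d hd h1 h2 => (hno d hd h1 h2).elim⟩⟩
  have hJ : ∀ M : Finset D, ∀ d ∈ G.bd N, d ∉ F → d ∉ M → G.pi d ∈ fr → G.pi (G.al d) ∉ fr := by
    intro M d hd hn
    exfalso
    rw [hbd, mem_insert, mem_singleton] at hd
    rcases hd with rfl | rfl
    · exact hn hc.f1
    · exact hn hc.f2
  obtain ⟨Ma, ga, na, la⟩ := h.k1 b h4 hf hg hc.ne hc.f1 hc.f2 hjN hB hsm
  rcases h.k2 b h4 hf hg hc.ne hc.f1 hc.f2 hjN hB hsm with ⟨Mb, gb, bf, bg, -, lb⟩ | ⟨p, hp, -⟩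
  · have hU : G.vs \ (G.vs \ N) = N := Finset.sdiff_sdiff_eq_self hc.hW
    have bo : OBl G t (G.vs \ N) 0 := ⟨sdiff_subset, by rw [hU]; exact Nat.even_iff.1 he,
      by rw [hU]; omega, by rw [hU, hv]; norm_num⟩
    obtain ⟨hpp, hpi⟩ := hc.outer hbd hF
    obtain ⟨M2, m, l1, l2⟩ := h.tplU bo Tpl.pq_reg Tpl.pq_tab (by norm_num) (by decide) rfl
      Tpl.pq_noC hpp hpi (Or.inr (by rw [hU]; omega))
      (fun v hv => bo.blk.one1 hE.forget hpp hpi hv)
      (fun _ _ _ _ _ _ => mem_univ _) (fun _ _ _ _ _ _ => mem_univ _)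
    have l3 : ∀ i : Fin 2, ![G.al f, G.al g] i ∈ M2 ↔
        i ∈ univ.filter fun i => ![G.al f, G.al g] i ∈ M2 := fun i => by
      rw [mem_filter]
      exact ⟨fun k => ⟨mem_univ _, k⟩, fun k => k.2⟩
    rcases Tpl.pq_pat _ _ l2 with l4 | l4
    · have l5 := l3 0
      have l6 := l3 1
      rw [l4] at l5 l6
      refine h.glueFL hc ga l1 ?_ (hJ _) (la.noC hc hF)
      intro d hd
      refine ⟨fun k => absurd k (na d hd), fun k => ?_⟩
      rw [hbd, mem_insert, mem_singleton] at hd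
      rcases hd with rfl | rfl
      · exact absurd (l5.1 k) (notMem_empty _)
      · exact absurd (l6.1 k) (notMem_empty _)
    · have l5 := (l3 0).2 (by rw [l4]; decide)
      have l6 := (l3 1).2 (by rw [l4]; decide)
      refine h.glueFL hc gb l1 ?_ (hJ _) (lb.noC hc hF)
      intro d hd
      rw [hbd, mem_insert, mem_singleton] at hd
      rcases hd with rfl | rfl
      · exact ⟨fun _ => l5, fun _ => bf⟩
      · exact ⟨fun _ => l6, fun _ => bg⟩
  · have h3 := hp.tok _ hyN ty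
    have h5 := hp.tok _ hbN tb
    have h6 := hp.jq a ha hyN hbN one_pos haF
    rw [h3, h5] at h6
    norm_num at h6

theorem bd_card_compl (hA : A ⊆ G.vs) : (G.bd (G.vs \ A)).card = (G.bd A).card := by
  symm
  refine card_bij (fun d _ => G.al d) (fun d hd => bd_al hA hd) ?_ ?_
  · intro d hd d' hd' hdd
    exact (al_eq (mem_bd.1 hd).1 (mem_bd.1 hd').1).1 hdd
  · intro d hd
    exact ⟨G.al d, bd_al' hA hd, G.al_al d (mem_bd.1 hd).1⟩

/-- **an odd set with two exits around two adjacent tokens**, not crossed -/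
theorem X6.e0_odd2 [Infinite V] [Infinite D] (h : X6 G t fr F jm) (ha : a ∈ G.ds) (haF : a ∉ F)
    (ty : t (G.pi a) = 1) (tb : t (G.pi (G.al a)) = 1) (hyf : G.pi a ∉ fr)
    (hW : W ⊆ G.vs) (hyW : G.pi a ∈ W) (hbW : G.pi (G.al a) ∈ W) (h3 : 3 ≤ (G.vs \ W).card)
    (ho : Odd W.card) (hv : G.val one1 t W = 5) (h2 : (G.bd W).card = 2)
    (hsm : (fr ∩ (G.vs \ W)).card < fr.card ∨ 3 < W.card)
    (hF : ∀ d ∈ F, G.pi d ∈ W → G.pi (G.al d) ∈ W) : False := by
  have hE := h.toEK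
  obtain ⟨A, hAd⟩ : ∃ A, A = G.vs \ W := ⟨_, rfl⟩
  have hA : A ⊆ G.vs := by rw [hAd]; exact sdiff_subset
  have hWA : G.vs \ A = W := by rw [hAd]; exact Finset.sdiff_sdiff_eq_self hW
  rw [← hAd] at h3 hsm
  have hcd := card_sdiff_add_card_eq_card hA
  rw [hWA] at hcd
  have hVe := Nat.even_iff.1 h.even
  have hWo := Nat.odd_iff.1 ho
  have hyb : G.pi a ≠ G.pi (G.al a) := fun e' => G.noloop a ha e'.symm
  have hW2 : 2 ≤ W.card := by
    have h5 := card_le_card (insert_subset hyW (singleton_subset_iff.2 hbW))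
    rw [card_pair hyb] at h5
    exact h5
  have ht := two_tok hE ha ty tb hW hyW hbW
  have hb2 : (G.bd A).card = 2 := by
    rw [← bd_card_compl hA, hWA]
    exact h2
  obtain ⟨e, he⟩ := card_pos.1 (by omega : 0 < (G.bd A).card)
  have hes := mem_bd.1 he
  have hq : ∀ X ⊆ A, G.pi e ∉ X →
      G.val one1 t X + 3 ≤ G.val one1 t (X ∪ (G.vs \ A)) := by
    intro X hX hXe
    have h5 := hE.join hA hX
    rw [hWA, hv] at h5
    rw [hWA, h5]
    have h6 : qx G A X ≤ 1 := by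
      unfold qx
      have h7 : ((G.bd A).filter fun d => G.pi d ∈ X) ⊆ (G.bd A).erase e := by
        intro d hd
        obtain ⟨k1, k2⟩ := mem_filter.1 hd
        exact mem_erase.2 ⟨fun k => hXe (k ▸ k2), k1⟩
      have h8 := card_le_card h7
      rw [card_erase_of_mem he, hb2] at h8
      exact h8
    have h7 : (qx G A X : ℝ) ≤ (1 : ℕ) := by exact_mod_cast h6
    push_cast at h7
    linarith
  have b : BW G t F A e := by
    refine ⟨hA, by rw [hWA]; exact ho, by rw [hWA]; omega, by rw [hWA]; exact hv,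
      by rw [hWA]; linarith, he, ?_, ?_, ?_⟩
    · intro d hd hdA
      by_contra hn
      have h5 : G.pi (G.al d) ∈ W := by
        rw [← hWA]
        exact mem_sdiff.2 ⟨G.pi_mem _ (G.al_mem d (h.fresh.Fsub hd)), hn⟩
      have h6 := hF _ (h.fresh.Fal d hd) h5
      rw [G.al_al d (h.fresh.Fsub hd), ← hWA] at h6
      exact (mem_sdiff.1 h6).2 hdA
    · intro X hX hXe hXn hXp
      have h5 := hq X hX hXp
      have h6 := hE.evn X (hX.trans hA) hXe hXn fun k => hXp (k ▸ hA hes.2.1)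
      linarith
    · intro X hX hXo hXp
      have h5 := hq X hX hXp
      have h6 : 3 ≤ G.val one1 t X := by
        by_cases h7 : X.card = 1
        · obtain ⟨x, hx⟩ := card_eq_one.1 h7
          rw [hx, hE.wt.val_single (hA (hX (by rw [hx]; exact mem_singleton_self x)))]
        · have := hE.odd X (hX.trans hA) hXo h7
          linarith
      linarith
  have hy : ∃ y ∈ G.vs \ A, y ∉ fr ∧ 1 ≤ t y := ⟨G.pi a, by rw [hWA]; exact hyW, hyf, by rw [ty]⟩
  obtain ⟨d, hd⟩ := h.hP0 b (by omega) h3 (by rw [hWA]; exact hsm) fun p hp q hq' hpe hqe _ => by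
    have h5 : ((G.bd A).erase e).card ≤ 1 := by rw [card_erase_of_mem he, hb2]
    exact card_le_one.1 h5 p (mem_erase.2 ⟨hpe, hp⟩) q (mem_erase.2 ⟨hqe, hq'⟩)
  obtain ⟨M, m1, m2⟩ := hd
  have hdb := m2.1
  refine h.glueSg b hy ⟨M, m1, m2⟩ (b.sall hE hy hdb fun T S hs hdT => ?_)
  exact h.inI0 (b.iblkP ⟨_, hes.2.1⟩) (b.hJ hE) (by
    rw [Finset.sdiff_sdiff_eq_self hA]
    omega) ha (by rw [hWA]; exact hyW) (by rw [hWA]; exact hbW) haF (by rw [ty]; norm_num)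
    (by rw [tb]; norm_num) (bd_al hA hdb) hs hdT

/-- star vertices in a set with two adjacent tokens -/
theorem jm_tok (h : EK G 6 t fr F jm) (ha : a ∈ G.ds) (ty : t (G.pi a) = 1)
    (tb : t (G.pi (G.al a)) = 1) (hyf : G.pi a ∉ fr) (hbf : G.pi (G.al a) ∉ fr) (hW : W ⊆ G.vs)
    (hyW : G.pi a ∈ W) (hbW : G.pi (G.al a) ∈ W) :
    2 + ((W ∩ jm).card : ℝ) ≤ ∑ v ∈ W, t v := by
  have hyb : G.pi a ≠ G.pi (G.al a) := fun e' => G.noloop a ha e'.symm
  have h1 : ∀ v ∈ W ∩ jm, t v = 1 := fun v hv => h.fresh.t_jm h.wt (mem_inter.1 hv).2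
  have h2 : G.pi a ∉ insert (G.pi (G.al a)) (W ∩ jm) := by
    rw [mem_insert, not_or]
    exact ⟨hyb, fun k => hyf (h.fresh.jms (mem_inter.1 k).2)⟩
  have h3 : G.pi (G.al a) ∉ W ∩ jm := fun k => hbf (h.fresh.jms (mem_inter.1 k).2)
  have h4 : ∑ v ∈ insert (G.pi a) (insert (G.pi (G.al a)) (W ∩ jm)), t v ≤ ∑ v ∈ W, t v :=
    sum_le_sum_of_subset_of_nonneg (insert_subset hyW (insert_subset hbW inter_subset_left))
      fun v hv _ => h.t0 v (hW hv)
  rw [sum_insert h2, sum_insert h3, ty, tb, sum_congr rfl h1, sum_const, nsmul_eq_mul,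
    mul_one] at h4
  linarith

/-- **odd sets, two exits, crossed, without star vertices** -/
theorem X6.e0F_threeN [Infinite V] [Infinite D] (h : X6 G t fr F jm) (hc : G.FC F W f g)
    (hbd : G.bd W = {f, g}) (ho : Odd W.card) (hv : G.val one1 t W = 5)
    (h3 : 3 ≤ (G.vs \ W).card) (ha : a ∈ G.ds) (haF : a ∉ F) (ty : t (G.pi a) ≠ 0)
    (tb : t (G.pi (G.al a)) ≠ 0) (hyW : G.pi a ∈ W) (hbW : G.pi (G.al a) ∈ W)
    (hj : Disjoint jm W) : False := by
  have hE := h.toEK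
  have hF := h.fresh
  have hf := hc.mf hF
  have hg := hc.mg hF
  have hyb : G.pi a ≠ G.pi (G.al a) := fun e' => G.noloop a ha e'.symm
  have hWo := Nat.odd_iff.1 ho
  have hW2 : 2 ≤ W.card := by
    have h5 := card_le_card (insert_subset hyW (singleton_subset_iff.2 hbW))
    rw [card_pair hyb] at h5
    exact h5
  have b : IBlk G t W 1 := ⟨hc.hW, hWo, card_pos.1 (by omega), by rw [hv]; norm_num⟩
  have hjW : jm = ∅ ∨ ¬ jm ⊆ W := by
    by_cases k : jm = ∅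
    · exact Or.inl k
    · obtain ⟨v, hv⟩ := nonempty_iff_ne_empty.2 k
      exact Or.inr fun k2 => disjoint_left.1 hj hv (k2 hv)
  -- every exit is used alone inside
  have hin : ∀ c ∈ G.bd W, ∃ M, G.GHalf one1 fr F jm W M ∧ c ∈ M ∧ ∀ d ∈ G.bd W, d ∈ M → d = c := by
    intro c hcb
    rcases h.tplI (Ts := ∅) b Tpl.bt_reg Tpl.bt_tab (by decide) rfl (pp := fun _ : Fin 1 => c)
      (fun _ => hcb) (fun i j _ => Subsingleton.elim i j) (Or.inr (by omega)) (Or.inl rfl)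
      (fun v hv => absurd hv (notMem_empty v))
      (fun _ _ => mem_univ _) (fun _ _ _ _ _ _ => mem_univ _) (fun _ _ _ _ _ _ => mem_univ _) with
      ⟨M, m, h1, h2⟩ | ⟨p, cc, h1, h2, -⟩
    · refine ⟨M, h1.half hF h.jm2 (Or.inr hjW), ?_, fun d hd hdM => ?_⟩
      · have h4 := Tpl.bt_pat _ _ h2
        have h5 : (0 : Fin 1) ∈ univ.filter fun _ : Fin 1 => c ∈ M := by
          rw [h4]
          exact mem_singleton_self _
        exact (mem_filter.1 h5).2
      · obtain ⟨i, hi⟩ := h1.ex d hd hdM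
        exact hi.symm
    · exfalso
      have h3 := h1.tok _ hyW ty
      have h4 := h1.tok _ hbW tb
      have h5 := h1.jq a ha hyW hbW one_pos haF
      rw [h3, h4] at h5
      norm_num at h5
  have hU : G.vs \ (G.vs \ W) = W := Finset.sdiff_sdiff_eq_self hc.hW
  have bo : OBl G t (G.vs \ W) 1 := ⟨sdiff_subset, by rw [hU]; exact hWo,
    by rw [hU]; omega, by rw [hU, hv]; norm_num⟩
  obtain ⟨hpp, hpi⟩ := hc.outer hbd hF
  have hfr : (fr ∩ (G.vs \ W)).card < fr.card := by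
    refine card_lt_card ⟨inter_subset_left, fun k => ?_⟩
    exact (mem_sdiff.1 (mem_inter.1 (k (hF.Ffr f hc.f1))).2).2 hc.w1
  obtain ⟨M2, m, l1, l2⟩ := h.tplU bo Tpl.path3_reg Tpl.path3_tab (by norm_num) (by decide) rfl
    (fun c h1 h2 => Tpl.path3_noC c h1 h2) hpp hpi (Or.inl hfr)
    (fun _ _ => mem_univ _) (fun _ _ _ _ _ _ => mem_univ _) (fun _ _ _ _ _ _ => mem_univ _)
  obtain ⟨i, hi⟩ := card_eq_one.1 (Tpl.path3_pat _ _ l2)
  have l3 : ∀ j : Fin 2, ![G.al f, G.al g] j ∈ M2 ↔ j = i := fun j => by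
    rw [← mem_singleton, ← hi, mem_filter]
    exact ⟨fun k => ⟨mem_univ _, k⟩, fun k => k.2⟩
  have hJ : ∀ M : Finset D, ∀ d ∈ G.bd W, d ∉ F → d ∉ M → G.pi d ∈ fr → G.pi (G.al d) ∉ fr := by
    intro M d hd hn
    exfalso
    rw [hbd, mem_insert, mem_singleton] at hd
    rcases hd with rfl | rfl
    · exact hn hc.f1
    · exact hn hc.f2
  have c0 := l3 0
  have c1 := l3 1
  change G.al f ∈ M2 ↔ _ at c0
  change G.al g ∈ M2 ↔ _ at c1
  fin_cases i
  · obtain ⟨M1, g1, g2, g3⟩ := hin f hf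
    have gM : g ∉ M1 := fun k => hc.ne (g3 g hg k).symm
    refine h.glueF1 hc g1 l1 ?_ (hJ _) hj ⟨fun _ => gM, fun _ => g2⟩
    intro d hd
    rw [hbd, mem_insert, mem_singleton] at hd
    rcases hd with rfl | rfl
    · exact ⟨fun _ => c0.2 rfl, fun _ => g2⟩
    · exact ⟨fun k => absurd k gM, fun k => absurd (c1.1 k) (by decide)⟩
  · obtain ⟨M1, g1, g2, g3⟩ := hin g hg
    have fM : f ∉ M1 := fun k => hc.ne (g3 f hf k)
    refine h.glueF1 hc g1 l1 ?_ (hJ _) hj ⟨fun k => absurd k fM, fun k => absurd g2 k⟩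
    intro d hd
    rw [hbd, mem_insert, mem_singleton] at hd
    rcases hd with rfl | rfl
    · exact ⟨fun k => absurd k fM, fun k => absurd (c0.1 k) (by decide)⟩
    · exact ⟨fun _ => c1.2 rfl, fun _ => g2⟩

theorem FC.sw2 (hc : G.FC F W f g) : G.FC F W g f :=
  ⟨hc.hW, hc.ne.symm, hc.f2, hc.f1, hc.w2, hc.w1, hc.u2, hc.u1,
    fun d hd h1 h2 => (hc.only d hd h1 h2).symm⟩

/-- **INSTANCE L with a star vertex `j` inside**: exactly `f` is used, no arc part with `j` is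
closed -/
theorem X6.lfS [Infinite V] [Infinite D] (h : X6 G t fr F jm) (hc : G.FC F W f g)
    (hbd : G.bd W = {f, g}) (b : IBlk G t W 1) (hfg : G.pi f ≠ G.pi g) {j : V}
    (hj : W ∩ jm = {j})
    (hE4 : ∀ Y, Arc2 G fr F W f g Y → Even Y.card → G.val one1 t Y ≠ 4)
    (hsm : (fr ∩ W).card + 2 < fr.card ∨ ((fr ∩ W).card + 2 ≤ fr.card ∧ W.card + 3 < G.vs.card))
    (ha : a ∈ G.ds) (haF : a ∉ F) (ty : t (G.pi a) ≠ 0)
    (tb : t (G.pi (G.al a)) ≠ 0) (hyW : G.pi a ∈ W) (hbW : G.pi (G.al a) ∈ W) :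
    ∃ M, G.GHalf one1 fr F jm W M ∧ f ∈ M ∧ (∀ d ∈ G.bd W, d ∈ M → d = f) ∧
      ∀ Y, Arc2 G fr F W f g Y → j ∈ Y → (∀ d ∈ G.bd Y, d ≠ f → d ≠ g → d ∈ M) → False := by
  have hE := h.toEK
  have hF := h.fresh
  have hf := hc.mf hF
  have hg := hc.mg hF
  have hne : f ≠ g := hc.ne
  have hjj : j ∈ W ∩ jm := by rw [hj]; exact mem_singleton_self j
  obtain ⟨jW, jjm⟩ := mem_inter.1 hjj
  have hjW : ¬ jm ⊆ W := by
    intro k
    have h1 : W ∩ jm = jm := inter_eq_right.2 k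
    rw [hj] at h1
    rcases h.jm2 with k2 | k2
    · rw [k2] at jjm
      exact notMem_empty _ jjm
    · rw [← h1, card_singleton] at k2
      omega
  have hpb : ∀ i, ![f, g] i ∈ G.bd W := by
    intro i
    fin_cases i
    · exact hf
    · exact hg
  have hs : ∀ v ∈ W, TOk.kap G ![f, g] {v} ∈ Tpl.one1S 2 := by
    intro v _
    unfold Tpl.one1S
    rw [mem_filter]
    refine ⟨mem_univ _, card_le_one.2 fun i hi j hj => ?_⟩
    unfold TOk.kap at hi hj
    have hi' := mem_singleton.1 (mem_filter.1 hi).2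
    have hj' := mem_singleton.1 (mem_filter.1 hj).2
    fin_cases i <;> fin_cases j
    · rfl
    · exact absurd (hi'.trans hj'.symm) hfg
    · exact absurd (hj'.trans hi'.symm) hfg
    · rfl
  have hfa := b.fact (pp := ![f, g]) (e4 := univ) (o5 := univ) hE hs (fun _ _ _ _ _ _ => mem_univ _)
    (fun _ _ _ _ _ _ => mem_univ _)
  have hev : Even (W.card + 3) := by
    have h1 := b.par
    rw [Nat.even_iff]
    omega
  have hnd : ∀ d, ¬ Drop G W ![f, g] d := by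
    intro d hd
    obtain ⟨k1, k2, k3⟩ := drop2.1 hd
    rw [hbd, mem_insert, mem_singleton] at k1
    exact k1.elim k2 k3
  have ht : ∑ v ∈ W, t v + (((G.bd W).filter fun d => ∀ i, ![f, g] i ≠ d).card : ℝ) +
      Tpl.lf.nT univ = 6 := by
    have h1 := b.val
    rw [val_one] at h1
    have h3 := drop_card hpb (fin2_ne hne)
    have h3' : ((((G.bd W).filter fun d => ∀ i, ![f, g] i ≠ d).card : ℕ) : ℝ) + 2 =
        ((G.bd W).card : ℕ) := by exact_mod_cast h3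
    have e4 : Tpl.lf.nT univ = 3 := by decide
    rw [e4]
    push_cast at h1 ⊢
    linarith
  have hF2 : ∀ i ∈ (univ : Finset (Fin 2)), ![f, g] i ∈ F := by
    intro i _
    fin_cases i
    · exact hc.f1
    · exact hc.f2
  have hB := hc.arc2 hF
  have hsp : ∀ Y ⊆ fr, Y ⊆ W → ∀ v ∈ Y, v ∈ ({j} : Finset V) ∨
      (v ∉ jm ∧ ∀ d, Drop G W ![f, g] d → G.pi d ≠ v) := by
    intro Y hY hYA v hv
    by_cases k : v = j
    · exact Or.inl (mem_singleton.2 k)
    · refine Or.inr ⟨fun k2 => k ?_, fun d hd _ => hnd d hd⟩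
      have k3 : v ∈ W ∩ jm := mem_inter.2 ⟨hYA hv, k2⟩
      rw [hj] at k3
      exact mem_singleton.1 k3
  rcases h.tplA (Ts := {j}) b.hA b.ne Tpl.lf_reg Tpl.lf_tab Tpl.lf_arc hpb (fin2_ne hne) hfa
    hev ht hF2 (fun v hv => Or.inl (by rw [mem_singleton.1 hv]; exact jjm))
    (Or.inl (by rw [card_singleton]; decide)) (by
      refine ⟨fr ∩ W, hB.sub, hB.inA, hB.acl, fun i _ => ?_, ?_, hsp _ hB.sub hB.inA⟩
      · fin_cases i
        · exact hB.mf
        · exact hB.mg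
      · exact singleton_subset_iff.2 (mem_inter.2 ⟨hF.jms jjm, jW⟩))
    (fun Y hY hYA hYc hYp he => by
      have hY2 : Arc2 G fr F W f g Y := ⟨hY, hYA, acl2.1 hYc, hYp 0 (mem_univ _),
        hYp 1 (mem_univ _)⟩
      have he' : Even Y.card := by
        have e1 : ({0, 1} : Finset (Fin 3)).card = 2 := by decide
        rw [e1] at he
        rw [Nat.even_iff] at he ⊢
        omega
      obtain ⟨n, h3, h4⟩ := hE.val_nat (hYA.trans b.hA)
      refine ⟨n, h3, ?_⟩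
      have h5 := hE4 Y hY2 he'
      have h6 := hE.evn Y (hYA.trans b.hA) he' ⟨_, hYp 0 (mem_univ _)⟩ fun k => by
        obtain ⟨v, hv⟩ := b.ne
        exact (mem_sdiff.1 hv).2 (hYA (k ▸ (mem_sdiff.1 hv).1))
      rw [h3] at h5 h6
      have h7 : 4 ≤ n := by exact_mod_cast h6
      have h8 : n ≠ 4 := fun k => h5 (by rw [k]; norm_num)
      have e2 : Tpl.lf.val {0, 1} = 4 := by decide
      have e3 : ∀ κ, Tpl.lf.nQ {0, 1} κ ≤ 2 := by decide
      have h9 := e3 (TOk.kap G ![f, g] Y)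
      rw [Nat.even_iff] at he'
      rw [e2]
      omega)
    (by
      have e1 : ({0, 1} : Finset (Fin 3)).card = 2 := by decide
      rw [e1]
      exact hsm) with ⟨M, m, h1, h2⟩ | ⟨p, c, h1, -⟩
  · obtain ⟨e1, e2⟩ := Tpl.lf_pat _ _ h2
    have fM : f ∈ M := by
      have h3 : (0 : Fin 2) ∈ (univ.filter fun i => ![f, g] i ∈ M) := by
        rw [e2]
        exact mem_singleton_self _
      exact (mem_filter.1 h3).2
    have hex : ∀ d ∈ G.bd W, d ∈ M → d = f := by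
      intro d hd hdM
      obtain ⟨i, rfl⟩ := h1.ex d hd hdM
      have h3 : i ∈ ({0} : Finset (Fin 2)) := by
        rw [← e2]
        exact mem_filter.2 ⟨mem_univ _, hdM⟩
      rw [mem_singleton.1 h3]
      rfl
    refine ⟨M, h1.tsol.half hF h.jm2 (Or.inr (Or.inr hjW)), fM, hex, ?_⟩
    intro Y hY hjY hcl
    refine (h1.ar Y hY.sub hY.inA hY.acl (fun i _ => ?_) (fun d hd hi => ?_)
      (hsp Y hY.sub hY.inA) (fun i _ hi => absurd (mem_univ i) hi) ?_).2 ⟨Or.inr (by decide),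
        singleton_subset_iff.2 hjY⟩
    · fin_cases i
      · exact hY.mf
      · exact hY.mg
    · exact Or.inl (hcl d hd (fun k => hi 0 (mem_univ _) k.symm)
        (fun k => hi 1 (mem_univ _) k.symm))
    · rw [e1]
      decide
  · exfalso
    have h3 := h1.tok _ hyW ty
    have h4 := h1.tok _ hbW tb
    have h5 := h1.jq a ha hyW hbW one_pos haF
    rw [h3, h4] at h5
    norm_num at h5

end MG

end RH
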