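import Pool.Agent.Lib.RH.E0F

/-! # (E0), blocking sets which are crossed by F-darts, two exits: the small cases

`hx`: some J-edge at vertices with at most one token has an end outside the set. `X6.e0F_even`: even
sets; `X6.e0F_three`: odd sets with two exits. -/

set_option autoImplicit false

namespace RH

open Finset Classical

namespace MG

variable {V D : Type*} {G : MG V D} {t : V → ℝ} {fr : Finset V} {F : Finset D}
variable {jm A W X Y N S : Finset V} {e d a u f g : D} {T M : Finset D} {k : ℝ}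

/-- the F-darts at the outer end of an F-exit -/
theorem FC.next (hc : G.FC F W f g) (hF : G.FrS one1 fr F jm)
    (hne : G.pi (G.al f) ≠ G.pi (G.al g)) :
    ∃ d ∈ F, G.pi d = G.pi (G.al f) ∧ d ≠ G.al f ∧ G.pi (G.al d) ∈ fr ∧ G.pi (G.al d) ∉ W := by
  have hfF := hF.Fal f hc.f1
  have h1 := hF.two _ (hF.Ffr _ hfF)
  have h2 : G.al f ∈ F.filter fun d => G.pi d = G.pi (G.al f) := mem_filter.2 ⟨hfF, rfl⟩
  have h3 : ((F.filter fun d => G.pi d = G.pi (G.al f)).erase (G.al f)).card = 1 := by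
    rw [card_erase_of_mem h2, h1]
  obtain ⟨d, hd⟩ := card_pos.1 (by omega :
    0 < ((F.filter fun d => G.pi d = G.pi (G.al f)).erase (G.al f)).card)
  obtain ⟨k1, k2⟩ := mem_erase.1 hd
  obtain ⟨k3, k4⟩ := mem_filter.1 k2
  refine ⟨d, k3, k4, k1, hF.Ffr _ (hF.Fal d k3), fun k5 => ?_⟩
  have k6 := G.al_al d (hF.Fsub k3)
  rcases hc.only _ (hF.Fal d k3) k5 (by rw [k6, k4]; exact hc.u1) with k7 | k7
  · exact k1 (by rw [← k6, k7])
  · refine hne ?_
    rw [← k4, ← k6, k7]

/-- two even sets: the outer ends of the F-exits are different -/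
theorem FC.ends (h : EK G 6 t fr F jm) (hc : G.FC F N f g) (he : Even N.card)
    (hN : N.Nonempty) (hv : G.val one1 t N = 4) : G.pi (G.al f) ≠ G.pi (G.al g) := by
  intro hfg
  have hF := h.fresh
  have hfb := bd_al hc.hW (hc.mf hF)
  have hgb := bd_al hc.hW (hc.mg hF)
  have hA : G.vs \ N ⊆ G.vs := sdiff_subset
  have hX : ({G.pi (G.al f)} : Finset V) ⊆ G.vs \ N := singleton_subset_iff.2 (mem_bd.1 hfb).2.1
  have h1 := h.join hA hX
  rw [Finset.sdiff_sdiff_eq_self hc.hW, hv,
    h.wt.val_single (hA (singleton_subset_iff.1 hX))] at h1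
  have h2 : 2 ≤ qx G (G.vs \ N) {G.pi (G.al f)} := by
    unfold qx
    have h3 : ({G.al f, G.al g} : Finset D) ⊆
        (G.bd (G.vs \ N)).filter fun d => G.pi d ∈ ({G.pi (G.al f)} : Finset V) := by
      intro d hd
      rw [mem_insert, mem_singleton] at hd
      rcases hd with rfl | rfl
      · exact mem_filter.2 ⟨hfb, mem_singleton_self _⟩
      · exact mem_filter.2 ⟨hgb, mem_singleton.2 hfg.symm⟩
    have h4 := card_le_card h3
    rwa [card_pair fun k => hc.ne ((al_eq (mem_bd.1 (hc.mf hF)).1 (mem_bd.1 (hc.mg hF)).1).1 k)]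
      at h4
  have h3 : (2 : ℝ) ≤ qx G (G.vs \ N) {G.pi (G.al f)} := by exact_mod_cast h2
  have hdis : Disjoint ({G.pi (G.al f)} : Finset V) N :=
    disjoint_left.2 fun v hv hv' => (mem_sdiff.1 (hX hv)).2 hv'
  have h4 := h.odd ({G.pi (G.al f)} ∪ N) (union_subset (hX.trans hA) hc.hW) (by
    rw [card_union_of_disjoint hdis, card_singleton, Nat.odd_iff]
    rw [Nat.even_iff] at he
    omega) (by
    rw [card_union_of_disjoint hdis, card_singleton]
    have := card_pos.2 hN
    omega)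
  linarith

/-- even sets of value 4 which contain `y` and `b` -/
structure PBlkN (G : MG V D) (t : V → ℝ) (a : D) (N : Finset V) : Prop where
  sub : N ⊆ G.vs
  my : G.pi a ∈ N
  mb : G.pi (G.al a) ∈ N
  big : 4 ≤ N.card
  ev : Even N.card
  val : G.val one1 t N = 4

/-- **(E0), crossed even sets** -/
theorem X6.e0F_evenN [Infinite V] [Infinite D] (h : X6 G t fr F jm) (ha : a ∈ G.ds)
    (ty : t (G.pi a) = 1)
    (tb : t (G.pi (G.al a)) = 1) (hyf : G.pi a ∉ fr) (hbf : G.pi (G.al a) ∉ fr)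
    (p : PBlkN G t a N) (hcut : FCut G F N)
    (hx : ∃ d ∈ G.ds, d ∉ F ∧ G.pi d ∉ N ∧ t (G.pi d) ≤ 1 ∧ t (G.pi (G.al d)) ≤ 1) : False := by
  have hE := h.toEK
  have hF := h.fresh
  have haF : a ∉ F := fun k => hyf (hF.Ffr _ k)
  have ht := two_tok hE ha ty tb p.sub p.my p.mb
  have hval := p.val
  rw [val_one] at hval
  have hb2 : (G.bd N).card ≤ 2 := by
    have : ((G.bd N).card : ℝ) ≤ (2 : ℕ) := by
      push_cast
      linarith
    exact_mod_cast this
  obtain ⟨f, g, hc, hbd⟩ := hcut.fc2 hF p.sub hb2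
  have hbc : (G.bd N).card = 2 := by rw [hbd, card_pair hc.ne]
  have htN : ∑ v ∈ N, t v = 2 := by
    rw [hbc] at hval
    push_cast at hval
    linarith
  have hj : Disjoint jm N := by
    have h1 := jm_tok hE ha ty tb hyf hbf p.sub p.my p.mb
    rw [htN] at h1
    have h2 : ((N ∩ jm).card : ℝ) ≤ 0 := by linarith
    have h3 : (N ∩ jm).card = 0 := by exact_mod_cast le_antisymm h2 (Nat.cast_nonneg _)
    rw [disjoint_iff_inter_eq_empty, inter_comm]
    exact card_eq_zero.1 h3
  have hcd := card_sdiff_add_card_eq_card p.sub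
  have hVe := Nat.even_iff.1 h.even
  have hNe := Nat.even_iff.1 p.ev
  have hfb := bd_al hc.hW (hc.mf hF)
  have hgb := bd_al hc.hW (hc.mg hF)
  have hfo := (mem_bd.1 hfb).2.1
  have hgo := (mem_bd.1 hgb).2.1
  have hZ2 : 2 ≤ (G.vs \ N).card := by
    have := card_pos.2 ⟨_, hfo⟩
    omega
  have htU : ∑ v ∈ G.vs \ N, t v = 4 := by
    have h1 := sum_sdiff p.sub (f := t)
    have h2 := h.tau
    linarith
  have hne := hc.ends hE p.ev ⟨_, p.my⟩ p.val
  have hof := hF.Ffr _ (hF.Fal f hc.f1)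
  have hog := hF.Ffr _ (hF.Fal g hc.f2)
  have hk := card_inter_add_card_sdiff fr N
  have hfrt : ∀ v ∈ fr, t v ≤ 1 := by
    intro v hv
    rw [hE.tok_fr hv]
    split_ifs <;> norm_num
  obtain ⟨dx, x1, x2, x3, x4, x5⟩ := hx
  have x6 : G.pi (G.al dx) ∉ N := by
    intro k
    have k1 : G.al dx ∈ G.bd N := mem_bd.2 ⟨G.al_mem dx x1, k, by rw [G.al_al dx x1]; exact x3⟩
    rw [hbd, mem_insert, mem_singleton] at k1
    have k2 : G.al dx ∈ F := by
      rcases k1 with k1 | k1
      · rw [k1]; exact hc.f1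
      · rw [k1]; exact hc.f2
    exact x2 (by rw [← G.al_al dx x1]; exact hF.Fal _ k2)
  have x7 : G.al dx ∉ F := fun k => x2 (by rw [← G.al_al dx x1]; exact hF.Fal _ k)
  by_cases hsm : (fr ∩ N).card + 3 < fr.card ∨
      ((fr ∩ N).card + 3 ≤ fr.card ∧ N.card + 4 < G.vs.card)
  · exact h.e0F_evenL hc hbd p.ev p.val p.big hZ2 ha haF (by rw [ty]; norm_num)
      (by rw [tb]; norm_num) p.my p.mb hj hsm
  have hpair : ({G.pi (G.al f), G.pi (G.al g)} : Finset V) ⊆ fr \ N := by
    intro v hv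
    rw [mem_insert, mem_singleton] at hv
    rcases hv with rfl | rfl
    · exact mem_sdiff.2 ⟨hof, (mem_sdiff.1 hfo).2⟩
    · exact mem_sdiff.2 ⟨hog, (mem_sdiff.1 hgo).2⟩
  have hp2 := card_le_card hpair
  rw [card_pair hne] at hp2
  by_cases hk2 : (fr \ N).card = 2
  · -- two fresh vertices outside
    have hfN : fr \ N = {G.pi (G.al f), G.pi (G.al g)} :=
      (eq_of_subset_of_card_le hpair (by rw [hk2, card_pair hne])).symm
    obtain ⟨X, hXd⟩ : ∃ X : Finset V, X = {G.pi (G.al f), G.pi (G.al g)} := ⟨_, rfl⟩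
    rw [← hXd] at hfN hpair
    have hXU : X ⊆ G.vs \ N := fun v hv => by
      obtain ⟨k1, k2⟩ := mem_sdiff.1 (hpair hv)
      exact mem_sdiff.2 ⟨hF.fsub k1, k2⟩
    have hXc : X.card = 2 := by rw [hXd, card_pair hne]
    have hjoin := hE.join sdiff_subset hXU
    rw [Finset.sdiff_sdiff_eq_self p.sub, p.val] at hjoin
    have hq : 2 ≤ qx G (G.vs \ N) X := by
      unfold qx
      have h3 : ({G.al f, G.al g} : Finset D) ⊆
          (G.bd (G.vs \ N)).filter fun d => G.pi d ∈ X := by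
        intro d hd
        rw [mem_insert, mem_singleton] at hd
        rcases hd with rfl | rfl
        · exact mem_filter.2 ⟨hfb, by rw [hXd]; exact mem_insert_self _ _⟩
        · exact mem_filter.2 ⟨hgb, by rw [hXd]; exact mem_insert_of_mem (mem_singleton_self _)⟩
      have h4 := card_le_card h3
      rwa [card_pair fun k => hc.ne ((al_eq (mem_bd.1 (hc.mf hF)).1
        (mem_bd.1 (hc.mg hF)).1).1 k)] at h4
    have hq' : (2 : ℝ) ≤ qx G (G.vs \ N) X := by exact_mod_cast hq
    -- the F-edge inside X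
    obtain ⟨d1, c1, c2, c3, c4, c5⟩ := hc.next hF hne
    have c6 : G.pi (G.al d1) ∈ X := by
      rw [← hfN]
      exact mem_sdiff.2 ⟨c4, c5⟩
    have c7 : G.pi d1 ∈ X := by rw [c2, hXd]; exact mem_insert_self _ _
    have d1s := hF.Fsub c1
    have hed : ({d1, G.al d1} : Finset D) ⊆ G.ed X X := by
      intro d hd
      rw [mem_insert, mem_singleton] at hd
      rcases hd with rfl | rfl
      · exact mem_ed.2 ⟨d1s, c7, c6⟩
      · exact mem_ed.2 ⟨G.al_mem _ d1s, c6, by rw [G.al_al _ d1s]; exact c7⟩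
    have hd1n : d1 ≠ G.al d1 := fun k => G.noloop d1 d1s (by rw [← k])
    have hv1 := hE.val_eq (hXU.trans sdiff_subset)
    rw [hXc] at hv1
    have hdis : Disjoint X N := disjoint_left.2 fun v hv hv' => (mem_sdiff.1 (hXU hv)).2 hv'
    have hNc : (X ∪ N).card = N.card + 2 := by rw [card_union_of_disjoint hdis, hXc, add_comm]
    have hsubN : X ∪ N ⊆ G.vs := union_subset (hXU.trans sdiff_subset) p.sub
    have hXt : ∑ v ∈ X, t v ≤ 2 := by
      have h3 : ∑ v ∈ X, t v ≤ ∑ _v ∈ X, (1 : ℝ) :=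
        sum_le_sum fun v hv => hfrt v (mem_sdiff.1 (hpair hv)).1
      rw [sum_const, hXc, nsmul_eq_mul] at h3
      push_cast at h3
      linarith
    have hnvs : X ∪ N ≠ G.vs := by
      intro k
      have h3 : G.vs \ N = X := by
        rw [← k, union_sdiff_right]
        exact sdiff_eq_self_of_disjoint hdis
      rw [h3] at htU
      linarith
    have h4 := hE.evn (X ∪ N) hsubN (by rw [hNc, Nat.even_iff]; omega)
      ⟨_, mem_union_right _ p.my⟩ hnvs
    by_cases hed4 : 4 ≤ (G.ed X X).card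
    · have : ((4 : ℕ) : ℝ) ≤ ((G.ed X X).card : ℝ) := by exact_mod_cast hed4
      push_cast at this hv1
      linarith
    have hed2 := card_le_card hed
    rw [card_pair hd1n] at hed2
    have hed2' : ((2 : ℕ) : ℝ) ≤ ((G.ed X X).card : ℝ) := by exact_mod_cast hed2
    have hval4 : G.val one1 t (X ∪ N) = 4 := by
      push_cast at hed2' hv1
      linarith
    by_cases hout : ∃ v ∈ G.vs \ (X ∪ N), t v ≠ 2
    · refine h.e0_even ha ty tb hyf hsubN (mem_union_right _ p.my) (mem_union_right _ p.mb)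
        (by rw [hNc]; have := p.big; omega) (by rw [hNc, Nat.even_iff]; omega) hval4 ?_ hout
      intro d hd _
      have h5 := hF.Ffr _ (hF.Fal d hd)
      by_cases h6 : G.pi (G.al d) ∈ N
      · exact mem_union_right _ h6
      · refine mem_union_left _ ?_
        rw [← hfN]
        exact mem_sdiff.2 ⟨h5, h6⟩
    · push Not at hout
      have hinX : ∀ v ∈ G.vs, v ∉ N → t v ≤ 1 → v ∈ X := by
        intro v h5 h6 h7
        by_contra h8
        have := hout v (mem_sdiff.2 ⟨h5, fun k => (mem_union.1 k).elim h8 h6⟩)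
        linarith
      have y1 := hinX _ (G.pi_mem dx x1) x3 x4
      have y2 := hinX _ (G.pi_mem _ (G.al_mem dx x1)) x6 x5
      apply hed4
      have hq4 : ({dx, G.al dx} : Finset D) ⊆ G.ed X X := by
        intro d hd
        rw [mem_insert, mem_singleton] at hd
        rcases hd with rfl | rfl
        · exact mem_ed.2 ⟨x1, y1, y2⟩
        · exact mem_ed.2 ⟨G.al_mem _ x1, y2, by rw [G.al_al _ x1]; exact y1⟩
      have hdd : Disjoint ({d1, G.al d1} : Finset D) {dx, G.al dx} := by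
        rw [disjoint_left]
        intro d hd hd'
        have k1 : d ∈ F := by
          rw [mem_insert, mem_singleton] at hd
          rcases hd with rfl | rfl
          · exact c1
          · exact hF.Fal _ c1
        rw [mem_insert, mem_singleton] at hd'
        rcases hd' with rfl | rfl
        · exact x2 k1
        · exact x7 k1
      have h5 := card_le_card (union_subset hed hq4)
      rw [card_union_of_disjoint hdd, card_pair hd1n,
        card_pair fun k => G.noloop dx x1 (by rw [← k])] at h5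
      exact h5
  · -- three fresh vertices outside, four vertices
    have hk3 : (fr \ N).card = 3 ∧ (G.vs \ N).card = 4 := by
      rw [not_or] at hsm
      have h3 := hsm.1
      have h4 : (fr \ N).card ≤ (G.vs \ N).card := card_le_card (sdiff_subset_sdiff hF.fsub
        (Subset.refl _))
      have h5 := hsm.2
      rw [not_and_or] at h5
      rcases h5 with h5 | h5
      · omega
      · omega
    obtain ⟨k3, k4⟩ := hk3
    have hsub : fr \ N ⊆ G.vs \ N := sdiff_subset_sdiff hF.fsub (Subset.refl _)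
    have h5 := card_sdiff_add_card_eq_card hsub
    have h6 : ((G.vs \ N) \ (fr \ N)).card = 1 := by omega
    obtain ⟨v, hv⟩ := card_eq_one.1 h6
    have hvm : v ∈ (G.vs \ N) \ (fr \ N) := by rw [hv]; exact mem_singleton_self v
    have h7 := sum_sdiff hsub (f := t)
    rw [hv, sum_singleton, htU] at h7
    have hvv := (mem_sdiff.1 (mem_sdiff.1 hvm).1).1
    have h8 := hE.t_le_two (by omega) hvv
    -- star vertices outside
    have h9 : ∑ v ∈ fr \ N, t v = (((fr \ N) ∩ jm).card : ℝ) := by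
      rw [sum_congr rfl fun w hw => hE.tok_fr (mem_sdiff.1 hw).1, ← sum_filter,
        filter_mem_eq_inter, sum_const, nsmul_eq_mul, mul_one]
    have h10 : 2 ≤ ((fr \ N) ∩ jm).card := by
      have : ((2 : ℕ) : ℝ) ≤ (((fr \ N) ∩ jm).card : ℝ) := by
        push_cast
        linarith
      exact_mod_cast this
    have h11 : ((fr \ N) ∩ jm).card ≤ 2 := by
      rcases h.jm2 with k | k
      · rw [k, inter_empty, card_empty]
        omega
      · rw [← k]
        exact card_le_card inter_subset_right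
    have h12 : t v = 2 := by
      have h13 : ((fr \ N) ∩ jm).card = 2 := le_antisymm h11 h10
      rw [h9, h13] at h7
      push_cast at h7
      linarith
    have h13 : ((fr \ N) \ jm).card = 1 := by
      have := card_inter_add_card_sdiff (fr \ N) jm
      omega
    have key : ∀ w ∈ G.vs, w ∉ N → t w ≤ 1 → w ∉ jm → w ∈ (fr \ N) \ jm := by
      intro w w1 w2 w3 w4
      refine mem_sdiff.2 ⟨?_, w4⟩
      by_contra w5
      have w6 : w ∈ (G.vs \ N) \ (fr \ N) := mem_sdiff.2 ⟨mem_sdiff.2 ⟨w1, w2⟩, w5⟩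
      rw [hv, mem_singleton] at w6
      rw [w6, h12] at w3
      norm_num at w3
    have nj : ∀ d ∈ G.ds, d ∉ F → G.pi d ∉ jm := fun d hd hdF k =>
      hdF (hF.j0 _ k d (mem_st.2 ⟨hd, rfl⟩))
    have y1 := key _ (G.pi_mem dx x1) x3 x4 (nj dx x1 x2)
    have y2 := key _ (G.pi_mem _ (G.al_mem dx x1)) x6 x5 (nj _ (G.al_mem dx x1) x7)
    obtain ⟨w, hw⟩ := card_eq_one.1 h13
    rw [hw, mem_singleton] at y1 y2
    exact G.noloop dx x1 (y2.trans y1.symm)

theorem X6.e0F_even [Infinite V] [Infinite D] (h : X6 G t fr F jm)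
    (s : Ad G (G.pi a) (G.pi (G.al a)) a u e) (ty : t (G.pi a) = 1)
    (tb : t (G.pi (G.al a)) = 1) (hyf : G.pi a ∉ fr) (hbf : G.pi (G.al a) ∉ fr)
    (p : PBlkE G t a u e N) (hcut : FCut G F N)
    (hx : ∃ d ∈ G.ds, d ∉ F ∧ G.pi d ∉ N ∧ t (G.pi d) ≤ 1 ∧ t (G.pi (G.al d)) ≤ 1) : False :=
  h.e0F_evenN s.a1 ty tb hyf hbf ⟨p.sub, p.my, p.mb, p.big, p.ev, p.val⟩ hcut hx

/-- an odd set without the vertex at both F-exits -/
theorem FC.same_in (h : EK G 6 t fr F jm) (hc : G.FC F W f g) (hv : G.val one1 t W = 5)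
    (ho : Odd W.card) (h3 : 3 ≤ W.card) (hfg : G.pi f = G.pi g) :
    t (G.pi f) = 0 ∧ G.val one1 t (W.erase (G.pi f)) = 4 ∧
      ∀ d ∈ F, G.pi d ∈ W.erase (G.pi f) → G.pi (G.al d) ∈ W.erase (G.pi f) := by
  have hF := h.fresh
  have k1 := hc.mf hF
  have k2 := hc.mg hF
  have h1 := h.wt.val_erase hc.hW hc.w1
  have h4 : ({f, g} : Finset D) ⊆ G.ed {G.pi f} (G.vs \ W) := by
    intro x hx
    rw [mem_insert, mem_singleton] at hx
    rcases hx with rfl | rfl
    · exact mem_ed.2 ⟨(mem_bd.1 k1).1, mem_singleton_self _,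
        mem_sdiff.2 ⟨G.pi_mem _ (G.al_mem _ (mem_bd.1 k1).1), (mem_bd.1 k1).2.2⟩⟩
    · exact mem_ed.2 ⟨(mem_bd.1 k2).1, mem_singleton.2 hfg.symm,
        mem_sdiff.2 ⟨G.pi_mem _ (G.al_mem _ (mem_bd.1 k2).1), (mem_bd.1 k2).2.2⟩⟩
  have h5 : ((2 : ℕ) : ℝ) ≤ ∑ d ∈ G.ed {G.pi f} (G.vs \ W), one1 d := by
    unfold one1
    rw [sum_const, nsmul_eq_mul, mul_one]
    have h8 := card_le_card h4
    rw [card_pair hc.ne] at h8
    exact_mod_cast h8
  have h6 := h.t0 _ (hc.hW hc.w1)
  have hcard : (W.erase (G.pi f)).card = W.card - 1 := card_erase_of_mem hc.w1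
  have h7 := h.evn (W.erase (G.pi f)) ((erase_subset _ _).trans hc.hW) (by
    rw [hcard, Nat.even_iff]
    rw [Nat.odd_iff] at ho
    omega) (card_pos.1 (by omega)) (fun k => by
      have : G.pi f ∈ W.erase (G.pi f) := by rw [k]; exact hc.hW hc.w1
      exact (mem_erase.1 this).1 rfl)
  push_cast at h5
  refine ⟨by linarith, by linarith, fun d hd hp => ?_⟩
  obtain ⟨h8, h9⟩ := mem_erase.1 hp
  have h10 : G.pi (G.al d) ∈ W := by
    by_contra k
    rcases hc.only d hd h9 k with k3 | k3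
    · exact h8 (by rw [k3])
    · exact h8 (by rw [k3, hfg])
  refine mem_erase.2 ⟨fun k => ?_, h10⟩
  -- the F-darts at the vertex are `f` and `g`
  have h11 := hF.two _ (hF.Ffr f hc.f1)
  have h12 : ({f, g} : Finset D) = F.filter fun e => G.pi e = G.pi f := by
    refine eq_of_subset_of_card_le ?_ (by rw [h11, card_pair hc.ne])
    intro x hx
    rw [mem_insert, mem_singleton] at hx
    rcases hx with rfl | rfl
    · exact mem_filter.2 ⟨hc.f1, rfl⟩
    · exact mem_filter.2 ⟨hc.f2, hfg.symm⟩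
  have h13 : G.al d ∈ F.filter fun e => G.pi e = G.pi f := mem_filter.2 ⟨hF.Fal d hd, k⟩
  rw [← h12, mem_insert, mem_singleton] at h13
  have h14 := G.al_al d (hF.Fsub hd)
  rcases h13 with k3 | k3
  · rw [k3] at h14
    exact hc.u1 (by rw [h14]; exact h9)
  · rw [k3] at h14
    exact hc.u2 (by rw [h14]; exact h9)

/-- **(E0), crossed odd sets with two exits** -/
theorem X6.e0F_three [Infinite V] [Infinite D] (h : X6 G t fr F jm)
    (s : Ad G (G.pi a) (G.pi (G.al a)) a u e) (ty : t (G.pi a) = 1)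
    (tb : t (G.pi (G.al a)) = 1) (hyf : G.pi a ∉ fr) (hbf : G.pi (G.al a) ∉ fr)
    (hW : W ⊆ G.vs) (hyW : G.pi a ∈ W) (hbW : G.pi (G.al a) ∈ W) (h3 : 3 ≤ (G.vs \ W).card)
    (ho : Odd W.card) (hv : G.val one1 t W = 5) (hb2 : (G.bd W).card ≤ 2)
    (hcut : FCut G F W)
    (hx : ∃ d ∈ G.ds, d ∉ F ∧ G.pi d ∉ W ∧ t (G.pi d) ≤ 1 ∧ t (G.pi (G.al d)) ≤ 1) : False := by
  have hE := h.toEK
  have hF := h.fresh
  have ha := s.a1
  have haF : a ∉ F := fun k => hyf (hF.Ffr _ k)
  have hval := hv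
  rw [val_one] at hval
  obtain ⟨f, g, hc, hbd⟩ := hcut.fc2 hF hW hb2
  have hbc : (G.bd W).card = 2 := by rw [hbd, card_pair hc.ne]
  have htW : ∑ v ∈ W, t v = 3 := by
    rw [hbc] at hval
    push_cast at hval
    linarith
  by_cases hj : Disjoint jm W
  · exact h.e0F_threeN hc hbd ho hv h3 ha haF (by rw [ty]; norm_num) (by rw [tb]; norm_num)
      hyW hbW hj
  -- one star vertex inside
  obtain ⟨j, hj⟩ : ∃ j, W ∩ jm = {j} := by
    have h1 := jm_tok hE ha ty tb hyf hbf hW hyW hbW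
    rw [htW] at h1
    have h2 : (W ∩ jm).card ≤ 1 := by
      have : ((W ∩ jm).card : ℝ) ≤ (1 : ℕ) := by
        push_cast
        linarith
      exact_mod_cast this
    have h4 : 0 < (W ∩ jm).card := by
      rw [card_pos, inter_comm, ← not_disjoint_iff_nonempty_inter]
      exact hj
    exact card_eq_one.1 (by omega)
  obtain ⟨jW, jjm⟩ := mem_inter.1 (by rw [hj]; exact mem_singleton_self j : j ∈ W ∩ jm)
  have tj : t j = 1 := hF.t_jm h.wt jjm
  have jfr := hF.jms jjm
  have hyb : G.pi a ≠ G.pi (G.al a) := fun e' => G.noloop a ha e'.symm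
  have hyj : G.pi a ≠ j := fun k => hyf (k ▸ jfr)
  have hbj : G.pi (G.al a) ≠ j := fun k => hbf (k ▸ jfr)
  have hWo := Nat.odd_iff.1 ho
  have hVe := Nat.even_iff.1 h.even
  have hcd := card_sdiff_add_card_eq_card hW
  have hW3 : 3 ≤ W.card := by
    have h1 : ({G.pi a, G.pi (G.al a), j} : Finset V) ⊆ W := by
      intro v hv
      rw [mem_insert, mem_insert, mem_singleton] at hv
      rcases hv with rfl | rfl | rfl
      · exact hyW
      · exact hbW
      · exact jW
    have h2 := card_le_card h1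
    rw [card_insert_of_notMem, card_pair hbj] at h2
    · exact h2
    · rw [mem_insert, mem_singleton, not_or]
      exact ⟨hyb, hyj⟩
  have htU : ∑ v ∈ G.vs \ W, t v = 3 := by
    have h1 := sum_sdiff hW (f := t)
    have h2 := h.tau
    linarith
  have hfb := bd_al hc.hW (hc.mf hF)
  have hgb := bd_al hc.hW (hc.mg hF)
  have hfo := (mem_bd.1 hfb).2.1
  have hgo := (mem_bd.1 hgb).2.1
  have hof := hF.Ffr _ (hF.Fal f hc.f1)
  have hog := hF.Ffr _ (hF.Fal g hc.f2)
  have hk := card_inter_add_card_sdiff fr W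
  -- the inner ends are different
  have hfg : G.pi f ≠ G.pi g := by
    intro hfg
    obtain ⟨k1, k2, k3⟩ := hc.same_in hE hv ho hW3 hfg
    have hcard : (W.erase (G.pi f)).card = W.card - 1 := card_erase_of_mem hc.w1
    have hfr := hF.Ffr f hc.f1
    have my : G.pi a ∈ W.erase (G.pi f) := mem_erase.2 ⟨fun k => hyf (k ▸ hfr), hyW⟩
    have mb : G.pi (G.al a) ∈ W.erase (G.pi f) := mem_erase.2 ⟨fun k => hbf (k ▸ hfr), hbW⟩
    have mj : j ∈ W.erase (G.pi f) := mem_erase.2 ⟨fun k => by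
      rw [← k, tj] at k1
      norm_num at k1, jW⟩
    have h4 : 3 ≤ (W.erase (G.pi f)).card := by
      have h1 : ({G.pi a, G.pi (G.al a), j} : Finset V) ⊆ W.erase (G.pi f) := by
        intro v hv
        rw [mem_insert, mem_insert, mem_singleton] at hv
        rcases hv with rfl | rfl | rfl
        · exact my
        · exact mb
        · exact mj
      have h2 := card_le_card h1
      rw [card_insert_of_notMem, card_pair hbj] at h2
      · exact h2
      · rw [mem_insert, mem_singleton, not_or]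
        exact ⟨hyb, hyj⟩
    exact h.e0_even ha ty tb hyf ((erase_subset _ _).trans hW) my mb (by omega)
      (by rw [hcard, Nat.even_iff]; omega) k2 k3
      ⟨G.pi f, mem_sdiff.2 ⟨hW hc.w1, fun k => (mem_erase.1 k).1 rfl⟩, by rw [k1]; norm_num⟩
  -- no even arc part of value 4
  have hE4 : ∀ Y, Arc2 G fr F W f g Y → Even Y.card → G.val one1 t Y ≠ 4 := by
    intro Y hY hYe hY4
    have hYvs := hY.inA.trans hW
    have hN : W \ Y ⊆ G.vs := sdiff_subset.trans hW
    have hA : G.vs \ (W \ Y) ⊆ G.vs := sdiff_subset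
    have hYA : Y ⊆ G.vs \ (W \ Y) := fun v hv =>
      mem_sdiff.2 ⟨hYvs hv, fun k => (mem_sdiff.1 k).2 hv⟩
    have h1 := hE.join hA hYA
    have h2 : Y ∪ (G.vs \ (G.vs \ (W \ Y))) = W := by
      rw [Finset.sdiff_sdiff_eq_self hN]
      exact union_sdiff_of_subset hY.inA
    rw [h2, Finset.sdiff_sdiff_eq_self hN, hv, hY4] at h1
    have h4 : (G.bd Y).card = 2 + qx G (G.vs \ (W \ Y)) Y := by
      unfold qx
      have e1 : G.bd Y = {f, g} ∪ (G.bd (G.vs \ (W \ Y))).filter fun d => G.pi d ∈ Y := by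
        ext d
        rw [mem_union, mem_filter, mem_bd, mem_bd]
        constructor
        · rintro ⟨k1, k2, k3⟩
          by_cases k4 : G.pi (G.al d) ∈ W
          · refine Or.inr ⟨⟨k1, hYA k2, fun k5 => ?_⟩, k2⟩
            exact (mem_sdiff.1 k5).2 (mem_sdiff.2 ⟨k4, k3⟩)
          · left
            rw [← hbd]
            exact mem_bd.2 ⟨k1, hY.inA k2, k4⟩
        · rintro (k1 | ⟨⟨k1, k2, k3⟩, k4⟩)
          · rw [mem_insert, mem_singleton] at k1
            rcases k1 with rfl | rfl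
            · exact ⟨(mem_bd.1 (hc.mf hF)).1, hY.mf, fun k => hc.u1 (hY.inA k)⟩
            · exact ⟨(mem_bd.1 (hc.mg hF)).1, hY.mg, fun k => hc.u2 (hY.inA k)⟩
          · exact ⟨k1, k4, fun k5 => k3 (hYA k5)⟩
      have e2 : Disjoint ({f, g} : Finset D)
          ((G.bd (G.vs \ (W \ Y))).filter fun d => G.pi d ∈ Y) := by
        rw [disjoint_left]
        intro d hd hd'
        have k1 := (mem_bd.1 (mem_filter.1 hd').1).2.2
        have k2 : G.pi (G.al d) ∉ W := by
          rw [mem_insert, mem_singleton] at hd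
          rcases hd with rfl | rfl
          · exact hc.u1
          · exact hc.u2
        exact k1 (mem_sdiff.2 ⟨G.pi_mem _ (G.al_mem d (mem_bd.1 (mem_filter.1 hd').1).1),
          fun k => k2 (mem_sdiff.1 k).1⟩)
      rw [e1, card_union_of_disjoint e2, card_pair hc.ne]
    have h5 := hY4
    rw [val_one, h4] at h5
    push_cast at h5
    have h6 : 0 ≤ ∑ v ∈ Y, t v := sum_nonneg fun v hv => hE.t0 v (hYvs hv)
    have hyY : G.pi a ∈ W \ Y := mem_sdiff.2 ⟨hyW, fun k => hyf (hY.sub k)⟩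
    have hbY : G.pi (G.al a) ∈ W \ Y := mem_sdiff.2 ⟨hbW, fun k => hbf (hY.sub k)⟩
    have h7 := card_sdiff_add_card_eq_card hY.inA
    have h8 : 2 ≤ (W \ Y).card := by
      have k1 : ({G.pi a, G.pi (G.al a)} : Finset V) ⊆ W \ Y :=
        insert_subset hyY (singleton_subset_iff.2 hbY)
      have k2 := card_le_card k1
      rwa [card_pair hyb] at k2
    have h9 : Odd (W \ Y).card := by
      rw [Nat.even_iff] at hYe
      rw [Nat.odd_iff]
      omega
    have h10 := hE.odd (W \ Y) hN h9 (by omega)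
    have h11 : ∑ v ∈ Y, t v = 0 := by linarith
    have h12 : G.val one1 t (W \ Y) = 5 := by linarith
    have h13 : ∑ v ∈ W \ Y, t v = 3 := by
      have k1 := sum_sdiff hY.inA (f := t)
      linarith
    have h14 : (G.bd (W \ Y)).card = 2 := by
      have k1 := h12
      rw [val_one, h13] at k1
      have k2 : ((G.bd (W \ Y)).card : ℝ) = (2 : ℕ) := by
        push_cast
        linarith
      exact_mod_cast k2
    have hjY : j ∉ Y := by
      intro k
      have k1 : t j ≤ ∑ v ∈ Y, t v := single_le_sum (fun v hv => hE.t0 v (hYvs hv)) k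
      rw [tj, h11] at k1
      norm_num at k1
    have h15 : (fr ∩ (G.vs \ (W \ Y))).card < fr.card := by
      refine card_lt_card ⟨inter_subset_left, fun k => ?_⟩
      exact (mem_sdiff.1 (mem_inter.1 (k jfr)).2).2 (mem_sdiff.2 ⟨jW, hjY⟩)
    have h16 : 3 ≤ (G.vs \ (W \ Y)).card :=
      h3.trans (card_le_card (sdiff_subset_sdiff (Subset.refl _) sdiff_subset))
    refine h.e0_odd2 ha haF ty tb hyf hN hyY hbY h16 h9 h12 h14 (Or.inl h15) ?_
    intro d hd hp
    obtain ⟨k1, k2⟩ := mem_sdiff.1 hp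
    have k3 : G.pi (G.al d) ∈ W := by
      by_contra k
      rcases hc.only d hd k1 k with k4 | k4
      · exact k2 (by rw [k4]; exact hY.mf)
      · exact k2 (by rw [k4]; exact hY.mg)
    refine mem_sdiff.2 ⟨k3, fun k4 => ?_⟩
    have k5 := G.al_al d (hF.Fsub hd)
    rcases hY.clo _ (hF.Fal d hd) k4 with k6 | k6 | k6
    · rw [k5] at k6
      exact k2 k6
    · rw [k6] at k5
      exact hc.u1 (by rw [k5]; exact k1)
    · rw [k6] at k5
      exact hc.u2 (by rw [k5]; exact k1)
  -- sizes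
  have hfrt : ∀ v ∈ fr, t v ≤ 1 := by
    intro v hv
    rw [hE.tok_fr hv]
    split_ifs <;> norm_num
  obtain ⟨dx, x1, x2, x3, x4, x5⟩ := hx
  have x6 : G.pi (G.al dx) ∉ W := by
    intro k
    have k1 : G.al dx ∈ G.bd W := mem_bd.2 ⟨G.al_mem dx x1, k, by rw [G.al_al dx x1]; exact x3⟩
    rw [hbd, mem_insert, mem_singleton] at k1
    have k2 : G.al dx ∈ F := by
      rcases k1 with k1 | k1
      · rw [k1]; exact hc.f1
      · rw [k1]; exact hc.f2
    exact x2 (by rw [← G.al_al dx x1]; exact hF.Fal _ k2)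
  have x7 : G.al dx ∉ F := fun k => x2 (by rw [← G.al_al dx x1]; exact hF.Fal _ k)
  have hsm : (fr ∩ W).card + 2 < fr.card ∨
      ((fr ∩ W).card + 2 ≤ fr.card ∧ W.card + 3 < G.vs.card) := by
    by_contra hsm
    have hmf : G.pi (G.al f) ∈ fr \ W := mem_sdiff.2 ⟨hof, (mem_sdiff.1 hfo).2⟩
    have hmg : G.pi (G.al g) ∈ fr \ W := mem_sdiff.2 ⟨hog, (mem_sdiff.1 hgo).2⟩
    have hk1 := card_pos.2 ⟨_, hmf⟩
    by_cases k1 : (fr \ W).card = 1
    · -- one fresh vertex outside
      obtain ⟨o, hoo⟩ := card_eq_one.1 k1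
      rw [hoo, mem_singleton] at hmf hmg
      have hoU : o ∈ G.vs \ W := hmf ▸ hfo
      have hofr : o ∈ fr := hmf ▸ hof
      have hX : ({o} : Finset V) ⊆ G.vs \ W := singleton_subset_iff.2 hoU
      have h4 := hE.join sdiff_subset hX
      rw [Finset.sdiff_sdiff_eq_self hW, hv, h.wt.val_single (mem_sdiff.1 hoU).1] at h4
      have h5 : 2 ≤ qx G (G.vs \ W) {o} := by
        unfold qx
        have h6 : ({G.al f, G.al g} : Finset D) ⊆
            (G.bd (G.vs \ W)).filter fun d => G.pi d ∈ ({o} : Finset V) := by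
          intro d hd
          rw [mem_insert, mem_singleton] at hd
          rcases hd with rfl | rfl
          · exact mem_filter.2 ⟨hfb, mem_singleton.2 hmf⟩
          · exact mem_filter.2 ⟨hgb, mem_singleton.2 hmg⟩
        have h7 := card_le_card h6
        rwa [card_pair fun k => hc.ne ((al_eq (mem_bd.1 (hc.mf hF)).1
          (mem_bd.1 (hc.mg hF)).1).1 k)] at h7
      have h5' : (2 : ℝ) ≤ qx G (G.vs \ W) {o} := by exact_mod_cast h5
      have hdis : Disjoint ({o} : Finset V) W :=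
        disjoint_left.2 fun v hv hv' => (mem_sdiff.1 (hX hv)).2 hv'
      have hNc : (({o} : Finset V) ∪ W).card = W.card + 1 := by
        rw [card_union_of_disjoint hdis, card_singleton, add_comm]
      have hNs : ({o} : Finset V) ∪ W ⊆ G.vs := union_subset (hX.trans sdiff_subset) hW
      have hNe : ({o} : Finset V) ∪ W ≠ G.vs := by
        intro k
        have := congrArg card k
        omega
      have h6 := hE.evn _ hNs (by rw [hNc, Nat.even_iff]; omega)
        ⟨_, mem_union_right _ hyW⟩ hNe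
      have h7 : G.val one1 t ({o} ∪ W) = 4 := by linarith
      have h8 : (G.vs \ ({o} ∪ W)).card + 1 = (G.vs \ W).card := by
        have := card_sdiff_add_card_eq_card hNs
        omega
      refine h.e0_even ha ty tb hyf hNs (mem_union_right _ hyW) (mem_union_right _ hbW)
        (by omega) (by rw [hNc, Nat.even_iff]; omega) h7 ?_ ?_
      · intro d hd _
        have h9 := hF.Ffr _ (hF.Fal d hd)
        by_cases h10 : G.pi (G.al d) ∈ W
        · exact mem_union_right _ h10
        · refine mem_union_left _ ?_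
          rw [← hoo]
          exact mem_sdiff.2 ⟨h9, h10⟩
      · by_contra hcon
        push Not at hcon
        have h9 : ∑ v ∈ G.vs \ ({o} ∪ W), t v = 2 * ((G.vs \ ({o} ∪ W)).card : ℝ) := by
          rw [sum_congr rfl hcon, sum_const, nsmul_eq_mul]
          ring
        have h10 : ∑ v ∈ G.vs \ ({o} ∪ W), t v ≤ ∑ v ∈ G.vs \ W, t v :=
          sum_le_sum_of_subset_of_nonneg (sdiff_subset_sdiff (Subset.refl _)
            subset_union_right) fun v hv _ => hE.t0 v (mem_sdiff.1 hv).1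
        have h11 : 2 ≤ (G.vs \ ({o} ∪ W)).card := by omega
        have h12 : ((2 : ℕ) : ℝ) ≤ ((G.vs \ ({o} ∪ W)).card : ℝ) := by exact_mod_cast h11
        push_cast at h12
        linarith
    · -- two fresh vertices outside, three vertices
      rw [not_or, not_and_or] at hsm
      obtain ⟨s1, s2⟩ := hsm
      have hk2 : (fr \ W).card = 2 ∧ (G.vs \ W).card = 3 := by
        rcases s2 with s2 | s2
        · omega
        · omega
      obtain ⟨q1, q2⟩ := hk2
      have hsub : fr \ W ⊆ G.vs \ W := sdiff_subset_sdiff hF.fsub (Subset.refl _)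
      have h5 := card_sdiff_add_card_eq_card hsub
      have h6 : ((G.vs \ W) \ (fr \ W)).card = 1 := by omega
      obtain ⟨v, hv'⟩ := card_eq_one.1 h6
      have hvm : v ∈ (G.vs \ W) \ (fr \ W) := by rw [hv']; exact mem_singleton_self v
      have h7 := sum_sdiff hsub (f := t)
      rw [hv', sum_singleton, htU] at h7
      have hvv := (mem_sdiff.1 (mem_sdiff.1 hvm).1).1
      have h8 := hE.t_le_two (by omega) hvv
      have h9 : ∑ v ∈ fr \ W, t v = (((fr \ W) ∩ jm).card : ℝ) := by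
        rw [sum_congr rfl fun w hw => hE.tok_fr (mem_sdiff.1 hw).1, ← sum_filter,
          filter_mem_eq_inter, sum_const, nsmul_eq_mul, mul_one]
      have h10 : ((fr \ W) ∩ jm).card ≤ 1 := by
        have k2 : ((fr \ W) ∩ jm) ⊆ jm.erase j := by
          intro w hw
          obtain ⟨k3, k4⟩ := mem_inter.1 hw
          exact mem_erase.2 ⟨fun k => (mem_sdiff.1 k3).2 (k ▸ jW), k4⟩
        have k3 := card_le_card k2
        rw [card_erase_of_mem jjm] at k3
        rcases h.jm2 with k4 | k4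
        · rw [k4] at jjm
          exact absurd jjm (notMem_empty _)
        · omega
      have h11 : (((fr \ W) ∩ jm).card : ℝ) ≤ (1 : ℕ) := by exact_mod_cast h10
      push_cast at h11
      have h12 : t v = 2 := by linarith
      have h13 : ((fr \ W) \ jm).card = 1 := by
        have k2 : ((fr \ W) ∩ jm).card = 1 := by
          have k3 : (1 : ℝ) ≤ (((fr \ W) ∩ jm).card : ℝ) := by linarith
          have k4 : 1 ≤ ((fr \ W) ∩ jm).card := by exact_mod_cast k3
          omega
        have := card_inter_add_card_sdiff (fr \ W) jm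
        omega
      have key : ∀ w ∈ G.vs, w ∉ W → t w ≤ 1 → w ∉ jm → w ∈ (fr \ W) \ jm := by
        intro w w1 w2 w3 w4
        refine mem_sdiff.2 ⟨?_, w4⟩
        by_contra w5
        have w6 : w ∈ (G.vs \ W) \ (fr \ W) := mem_sdiff.2 ⟨mem_sdiff.2 ⟨w1, w2⟩, w5⟩
        rw [hv', mem_singleton] at w6
        rw [w6, h12] at w3
        norm_num at w3
      have nj : ∀ d ∈ G.ds, d ∉ F → G.pi d ∉ jm := fun d hd hdF k =>
        hdF (hF.j0 _ k d (mem_st.2 ⟨hd, rfl⟩))
      have y1 := key _ (G.pi_mem dx x1) x3 x4 (nj dx x1 x2)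
      have y2 := key _ (G.pi_mem _ (G.al_mem dx x1)) x6 x5 (nj _ (G.al_mem dx x1) x7)
      obtain ⟨w, hw⟩ := card_eq_one.1 h13
      rw [hw, mem_singleton] at y1 y2
      exact G.noloop dx x1 (y2.trans y1.symm)
  -- inner side
  have b : IBlk G t W 1 := ⟨hW, hWo, card_pos.1 (by omega), by rw [hv]; norm_num⟩
  have hty : t (G.pi a) ≠ 0 := by rw [ty]; norm_num
  have htb : t (G.pi (G.al a)) ≠ 0 := by rw [tb]; norm_num
  obtain ⟨Mf, f1, f2, f3, f4⟩ := h.lfS hc hbd b hfg hj hE4 hsm ha haF hty htb hyW hbW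
  have hE4' : ∀ Y, Arc2 G fr F W g f Y → Even Y.card → G.val one1 t Y ≠ 4 := fun Y hY =>
    hE4 Y ⟨hY.sub, hY.inA, fun d hd h1 => (hY.clo d hd h1).imp_right Or.symm, hY.mg, hY.mf⟩
  obtain ⟨Mg, g1, g2, g3, g4⟩ := h.lfS hc.sw2 (by rw [hbd, pair_comm]) b hfg.symm hj hE4' hsm
    ha haF hty htb hyW hbW
  -- outer side
  have hU : G.vs \ (G.vs \ W) = W := Finset.sdiff_sdiff_eq_self hc.hW
  have bo : OBl G t (G.vs \ W) 1 := ⟨sdiff_subset, by rw [hU]; exact hWo,
    by rw [hU]; omega, by rw [hU, hv]; norm_num⟩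
  obtain ⟨hpp, hpi⟩ := hc.outer hbd hF
  have hfr : (fr ∩ (G.vs \ W)).card < fr.card := by
    refine card_lt_card ⟨inter_subset_left, fun k => ?_⟩
    exact (mem_sdiff.1 (mem_inter.1 (k (hF.Ffr f hc.f1))).2).2 hc.w1
  obtain ⟨M2, m, l1, l2⟩ := h.tplU bo Tpl.path3_reg Tpl.path3_tab (by norm_num) (by decide) rfl
    (fun c h1 h2 => Tpl.path3_noC c h1 h2) hpp hpi (Or.inl hfr)
    (fun _ _ => mem_univ _) (fun _ _ _ _ _ _ => mem_univ _) (fun _ _ _ _ _ _ => mem_univ _)
  obtain ⟨i, hi⟩ := card_eq_one.1 (Tpl.path3_pat _ _ l2)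
  have l3 : ∀ j : Fin 2, ![G.al f, G.al g] j ∈ M2 ↔ j = i := fun j => by
    rw [← mem_singleton, ← hi, mem_filter]
    exact ⟨fun k => ⟨mem_univ _, k⟩, fun k => k.2⟩
  have hJ : ∀ M : Finset D, ∀ d ∈ G.bd W, d ∉ F → d ∉ M → G.pi d ∈ fr → G.pi (G.al d) ∉ fr := by
    intro M d hd hn
    exfalso
    rw [hbd, mem_insert, mem_singleton] at hd
    rcases hd with rfl | rfl
    · exact hn hc.f1
    · exact hn hc.f2
  have c0 := l3 0
  have c1 := l3 1
  change G.al f ∈ M2 ↔ _ at c0
  change G.al g ∈ M2 ↔ _ at c1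
  -- the arc contains the star vertex
  have hpar : ∀ M1, G.HM W M1 → (f ∈ M1 ↔ g ∉ M1) → ∀ X1, G.ArcC fr F M1 W X1 f → j ∈ X1 := by
    intro M1 hM hex X1 hX
    have k1 := hX.par hc hF hM
    by_contra hjX
    have k2 : X1 ∩ jm = ∅ := by
      rw [eq_empty_iff_forall_notMem]
      intro v hv
      obtain ⟨k3, k4⟩ := mem_inter.1 hv
      have k5 : v ∈ W ∩ jm := mem_inter.2 ⟨hX.adm.subZ k3, k4⟩
      rw [hj, mem_singleton] at k5
      exact hjX (k5 ▸ k3)
    rw [k2, card_empty] at k1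
    by_cases k3 : f ∈ M1
    · rw [if_pos k3, if_neg (hex.1 k3)] at k1
      omega
    · have k4 : g ∈ M1 := by
        by_contra k4
        exact k3 (hex.2 k4)
      rw [if_neg k3, if_pos k4] at k1
      omega
  fin_cases i
  · have gM : g ∉ Mf := fun k => hc.ne (f3 g (hc.mg hF) k).symm
    refine h.glueFL hc f1 l1 ?_ (hJ _) fun X1 hX1 => ?_
    · intro d hd
      rw [hbd, mem_insert, mem_singleton] at hd
      rcases hd with rfl | rfl
      · exact ⟨fun _ => c0.2 rfl, fun _ => f2⟩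
      · exact ⟨fun k => absurd k gM, fun k => absurd (c1.1 k) (by decide)⟩
    · obtain ⟨k1, k2⟩ := ArcC.arcN hc hF hX1
      exact f4 X1 k1 (hpar Mf f1.hm ⟨fun _ => gM, fun _ => f2⟩ X1 hX1) k2
  · have fM : f ∉ Mg := fun k => hc.ne (g3 f (hc.mf hF) k)
    refine h.glueFL hc g1 l1 ?_ (hJ _) fun X1 hX1 => ?_
    · intro d hd
      rw [hbd, mem_insert, mem_singleton] at hd
      rcases hd with rfl | rfl
      · exact ⟨fun k => absurd k fM, fun k => absurd (c0.1 k) (by decide)⟩
      · exact ⟨fun _ => c1.2 rfl, fun _ => g2⟩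
    · obtain ⟨k1, k2⟩ := ArcC.arcN hc hF hX1
      exact g4 X1 ⟨k1.sub, k1.inA, fun d hd h1 => (k1.clo d hd h1).imp_right Or.symm, k1.mg, k1.mf⟩
        (hpar Mg g1.hm ⟨fun k => absurd k fM, fun k => absurd g2 k⟩ X1 hX1)
        fun d hd h1 h2 => k2 d hd h2 h1

end MG

end RH
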