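import Pool.Agent.Lib.RH.E0G0

/-! # (E0), odd crossed blocking sets with three exits: the data

`E1`: the set `W`, exits `f`, `g` (F) and `k` (J). `E1.ofg`: the outer ends of the F-exits are
different; `E1.cfg`, `E1.cfk`: the inner ends are different. -/

set_option autoImplicit false

namespace RH

open Finset Classical

namespace MG

variable {V D : Type*} {G : MG V D} {z : D → ℝ} {t : V → ℝ} {fr : Finset V} {F : Finset D}
variable {jm A W X Y N S U : Finset V} {e d d' a u f g k : D} {T M M1 M2 : Finset D}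
variable {kk : ℝ}

/-- both F-neighbours of the vertex of `d` are next to vertices with two tokens -/
def Fcd (G : MG V D) (t : V → ℝ) (fr : Finset V) (F : Finset D) (d : D) : Prop :=
  G.pi d ∈ fr ∧ ∀ e ∈ F, G.pi e = G.pi d →
    ∃ j ∈ G.ds, G.pi j = G.pi (G.al e) ∧ t (G.pi (G.al j)) = 2

/-- data -/
structure E1 (G : MG V D) (t : V → ℝ) (fr : Finset V) (F : Finset D) (jm W : Finset V)
    (a f g k : D) : Prop where
  hc : G.FC F W f g
  hbd : G.bd W = {f, g, k}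
  kF : k ∉ F
  odd : Odd W.card
  val : G.val one1 t W = 5
  out : 3 ≤ (G.vs \ W).card
  big : 5 ≤ W.card
  tw : ∑ v ∈ W, t v = 2
  ha : a ∈ G.ds
  haF : a ∉ F
  ty : t (G.pi a) = 1
  tb : t (G.pi (G.al a)) = 1
  hyf : G.pi a ∉ fr
  hbf : G.pi (G.al a) ∉ fr
  my : G.pi a ∈ W
  mb : G.pi (G.al a) ∈ W
  hj : Disjoint jm W
  hx : ∃ d ∈ G.ds, d ∉ F ∧ G.pi d ∉ W ∧ t (G.pi d) ≤ 1 ∧ t (G.pi (G.al d)) ≤ 1 ∧
    (jm = ∅ → ¬ Fcd G t fr F d ∧ ¬ Fcd G t fr F (G.al d))

theorem E1.sw (q : E1 G t fr F jm W a f g k) : E1 G t fr F jm W a g f k :=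
  { q with
    hc := q.hc.sw2
    hbd := by rw [q.hbd, insert_comm] }

theorem qx2o (h1 : d ∈ G.bd A) (h2 : d' ∈ G.bd A) (hne : d ≠ d') (p1 : G.pi d ∈ X)
    (p2 : G.pi d' ∈ X) : 2 ≤ qx G A X := by
  unfold qx
  have h3 : ({d, d'} : Finset D) ⊆ (G.bd A).filter fun d => G.pi d ∈ X := by
    intro x hx
    rw [mem_insert, mem_singleton] at hx
    rcases hx with rfl | rfl
    · exact mem_filter.2 ⟨h1, p1⟩
    · exact mem_filter.2 ⟨h2, p2⟩
  have h4 := card_le_card h3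
  rwa [card_pair hne] at h4

theorem qx3o (h1 : d ∈ G.bd A) (h2 : d' ∈ G.bd A) (h3 : e ∈ G.bd A) (hne : d ≠ d')
    (hn1 : d ≠ e) (hn2 : d' ≠ e) (p1 : G.pi d ∈ X) (p2 : G.pi d' ∈ X) (p3 : G.pi e ∈ X) :
    3 ≤ qx G A X := by
  unfold qx
  have h5 : ({d, d', e} : Finset D) ⊆ (G.bd A).filter fun d => G.pi d ∈ X := by
    intro x hx
    rw [mem_insert, mem_insert, mem_singleton] at hx
    rcases hx with rfl | rfl | rfl
    · exact mem_filter.2 ⟨h1, p1⟩
    · exact mem_filter.2 ⟨h2, p2⟩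
    · exact mem_filter.2 ⟨h3, p3⟩
  have h4 := card_le_card h5
  rwa [card_insert_of_notMem (by
    rw [mem_insert, mem_singleton, not_or]
    exact ⟨hne, hn1⟩), card_pair hn2] at h4

namespace E1

variable (q : E1 G t fr F jm W a f g k)
include q

theorem nfk : f ≠ k := fun h => q.kF (h ▸ q.hc.f1)

theorem ngk : g ≠ k := fun h => q.kF (h ▸ q.hc.f2)

theorem mkk : k ∈ G.bd W := by
  rw [q.hbd]
  exact mem_insert_of_mem (mem_insert_of_mem (mem_singleton_self _))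

theorem mf : f ∈ G.bd W := by
  rw [q.hbd]
  exact mem_insert_self _ _

theorem mg : g ∈ G.bd W := by
  rw [q.hbd]
  exact mem_insert_of_mem (mem_insert_self _ _)

theorem bdc : (G.bd W).card = 3 := by
  rw [q.hbd, card_insert_of_notMem, card_pair q.ngk]
  rw [mem_insert, mem_singleton, not_or]
  exact ⟨q.hc.ne, q.nfk⟩

theorem mf' : G.al f ∈ G.bd (G.vs \ W) := bd_al q.hc.hW q.mf
theorem mg' : G.al g ∈ G.bd (G.vs \ W) := bd_al q.hc.hW q.mg
theorem mk' : G.al k ∈ G.bd (G.vs \ W) := bd_al q.hc.hW q.mkk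

theorem ne1 : G.al f ≠ G.al g := fun k' =>
  q.hc.ne ((al_eq (mem_bd.1 q.mf).1 (mem_bd.1 q.mg).1).1 k')

theorem ne2 : G.al f ≠ G.al k := fun k' =>
  q.nfk ((al_eq (mem_bd.1 q.mf).1 (mem_bd.1 q.mkk).1).1 k')

theorem ne3 : G.al g ≠ G.al k := fun k' =>
  q.ngk ((al_eq (mem_bd.1 q.mg).1 (mem_bd.1 q.mkk).1).1 k')

theorem bd' : G.bd (G.vs \ W) = {G.al f, G.al g, G.al k} := by
  ext d
  rw [bd_compl q.hc.hW, q.hbd]
  simp only [mem_insert, mem_singleton]
  constructor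
  · rintro ⟨k1 | k1 | k1, k2⟩
    · exact Or.inl (by rw [← G.al_al d k2, k1])
    · exact Or.inr (Or.inl (by rw [← G.al_al d k2, k1]))
    · exact Or.inr (Or.inr (by rw [← G.al_al d k2, k1]))
  · rintro (rfl | rfl | rfl)
    · exact ⟨Or.inl (G.al_al f (mem_bd.1 q.mf).1), G.al_mem _ (mem_bd.1 q.mf).1⟩
    · exact ⟨Or.inr (Or.inl (G.al_al g (mem_bd.1 q.mg).1)), G.al_mem _ (mem_bd.1 q.mg).1⟩
    · exact ⟨Or.inr (Or.inr (G.al_al k (mem_bd.1 q.mkk).1)), G.al_mem _ (mem_bd.1 q.mkk).1⟩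

theorem uu : G.vs \ (G.vs \ W) = W := Finset.sdiff_sdiff_eq_self q.hc.hW

/-- values of unions with `W` -/
theorem jn (h : EK G 6 t fr F jm) (hX : X ⊆ G.vs \ W) :
    G.val one1 t (X ∪ W) = G.val one1 t X + 5 - 2 * qx G (G.vs \ W) X := by
  have h1 := h.join sdiff_subset hX
  rw [q.uu, q.val] at h1
  exact h1

theorem cu (hX : X ⊆ G.vs \ W) : (X ∪ W).card = X.card + W.card :=
  card_union_of_disjoint (disjoint_left.2 fun v hv hv' => (mem_sdiff.1 (hX hv)).2 hv')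

theorem su (hX : X ⊆ G.vs \ W) : X ∪ W ⊆ G.vs :=
  union_subset (hX.trans sdiff_subset) q.hc.hW

theorem uc (hX : X ⊆ G.vs \ W) : (G.vs \ (X ∪ W)).card + X.card = (G.vs \ W).card := by
  have h1 := card_sdiff_add_card_eq_card (q.su hX)
  have h2 := q.cu hX
  have h3 := card_sdiff_add_card_eq_card q.hc.hW
  omega

theorem oU (h : EK G 6 t fr F jm) : (G.vs \ W).card % 2 = 1 := by
  have h1 := Nat.even_iff.1 h.even
  have h2 := Nat.odd_iff.1 q.odd
  have h3 := card_sdiff_add_card_eq_card q.hc.hW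
  omega

theorem of' (h : EK G 6 t fr F jm) : G.pi (G.al f) ∈ fr :=
  h.fresh.Ffr _ (h.fresh.Fal f q.hc.f1)

theorem og' (h : EK G 6 t fr F jm) : G.pi (G.al g) ∈ fr :=
  h.fresh.Ffr _ (h.fresh.Fal g q.hc.f2)

/-- one outer vertex with two exits -/
theorem one2 (h : EK G 6 t fr F jm) {o : V} (ho : o ∈ G.vs \ W) (h2 : 2 ≤ qx G (G.vs \ W) {o}) :
    qx G (G.vs \ W) {o} = 2 ∧ G.val one1 t ({o} ∪ W) = 4 ∧ ({o} ∪ W).card = W.card + 1 := by
  have hX : ({o} : Finset V) ⊆ G.vs \ W := singleton_subset_iff.2 ho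
  have h3 := q.jn h hX
  rw [h.wt.val_single (mem_sdiff.1 ho).1] at h3
  have hc := q.cu hX
  rw [card_singleton] at hc
  have hu := q.uc hX
  rw [card_singleton] at hu
  have hWo := Nat.odd_iff.1 q.odd
  have hout := q.out
  have h4 := h.evn ({o} ∪ W) (q.su hX) (by rw [hc, Nat.even_iff]; omega)
    ⟨_, mem_union_right _ q.my⟩ (fun k1 => by
      rw [k1, sdiff_self, bot_eq_empty, card_empty] at hu
      omega)
  have h5 : (qx G (G.vs \ W) {o} : ℝ) ≤ (2 : ℕ) := by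
    push_cast
    linarith
  have h6 : qx G (G.vs \ W) {o} ≤ 2 := by exact_mod_cast h5
  have h7 := le_antisymm h6 h2
  refine ⟨h7, ?_, by omega⟩
  rw [h3, h7]
  norm_num

/-- the outer ends of the F-exits are different -/
theorem ofg [Infinite V] [Infinite D] (h : X6 G t fr F jm) :
    G.pi (G.al f) ≠ G.pi (G.al g) := by
  intro hfg
  have hE := h.toEK
  have hF := h.fresh
  have ho := (mem_bd.1 q.mf').2.1
  obtain ⟨h1, h1v, h1c⟩ := q.one2 hE ho (qx2o q.mf' q.mg' q.ne1 (mem_singleton_self _)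
    (mem_singleton.2 hfg.symm))
  have hX : ({G.pi (G.al f)} : Finset V) ⊆ G.vs \ W := singleton_subset_iff.2 ho
  have hWo := Nat.odd_iff.1 q.odd
  have hbig := q.big
  have h3 : G.pi (G.al k) ≠ G.pi (G.al f) := by
    intro k1
    have k2 := qx3o q.mf' q.mg' q.mk' q.ne1 q.ne2 q.ne3
      (mem_singleton_self (G.pi (G.al f))) (mem_singleton.2 hfg.symm) (mem_singleton.2 k1)
    omega
  by_cases hout : ∃ v ∈ G.vs \ ({G.pi (G.al f)} ∪ W), t v ≠ 2
  · refine h.e0_even q.ha q.ty q.tb q.hyf (q.su hX) (mem_union_right _ q.my)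
      (mem_union_right _ q.mb) (by omega) (by rw [h1c, Nat.even_iff]; omega) h1v ?_ hout
    intro d hd hp
    rcases mem_union.1 hp with hp | hp
    · rw [mem_singleton] at hp
      have h11 := hF.two _ (q.of' hE)
      have h12 : ({G.al f, G.al g} : Finset D) = F.filter fun e => G.pi e = G.pi (G.al f) := by
        refine eq_of_subset_of_card_le ?_ (by rw [h11, card_pair q.ne1])
        intro x hx
        rw [mem_insert, mem_singleton] at hx
        rcases hx with rfl | rfl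
        · exact mem_filter.2 ⟨hF.Fal f q.hc.f1, rfl⟩
        · exact mem_filter.2 ⟨hF.Fal g q.hc.f2, hfg.symm⟩
      have h13 : d ∈ F.filter fun e => G.pi e = G.pi (G.al f) := mem_filter.2 ⟨hd, hp⟩
      rw [← h12, mem_insert, mem_singleton] at h13
      refine mem_union_right _ ?_
      rcases h13 with k3 | k3
      · rw [k3, G.al_al f (mem_bd.1 q.mf).1]
        exact q.hc.w1
      · rw [k3, G.al_al g (mem_bd.1 q.mg).1]
        exact q.hc.w2
    · by_cases k1 : G.pi (G.al d) ∈ W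
      · exact mem_union_right _ k1
      · refine mem_union_left _ ?_
        rcases q.hc.only d hd hp k1 with k2 | k2
        · rw [k2]
          exact mem_singleton_self _
        · rw [k2, mem_singleton]
          exact hfg.symm
  push Not at hout
  obtain ⟨d, x1, x2, x3, x4, x5, -⟩ := q.hx
  have key : ∀ v ∈ G.vs, v ∉ W → t v ≤ 1 → v = G.pi (G.al f) := by
    intro v v1 v2 v3
    by_contra v4
    have v5 := hout v (mem_sdiff.2 ⟨v1, fun k1 => (mem_union.1 k1).elim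
      (fun k2 => v4 (mem_singleton.1 k2)) v2⟩)
    linarith
  have y1 := key _ (G.pi_mem d x1) x3 x4
  by_cases x6 : G.pi (G.al d) ∈ W
  · have k1 : G.al d ∈ G.bd W := mem_bd.2 ⟨G.al_mem d x1, x6, by rw [G.al_al d x1]; exact x3⟩
    rw [q.hbd] at k1
    simp only [mem_insert, mem_singleton] at k1
    have k3 : G.al d ∉ F := fun k => x2 (by rw [← G.al_al d x1]; exact h.fresh.Fal _ k)
    rcases k1 with k1 | k1 | k1
    · exact k3 (k1 ▸ q.hc.f1)
    · exact k3 (k1 ▸ q.hc.f2)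
    · refine h3 ?_
      rw [← k1, G.al_al d x1]
      exact y1
  · exact G.noloop d x1 ((key _ (G.pi_mem _ (G.al_mem d x1)) x6 x5).trans y1.symm)

/-- the inner ends of the F-exits are different -/
theorem cfg [Infinite V] [Infinite D] (h : X6 G t fr F jm) : G.pi f ≠ G.pi g := by
  intro hfg
  have hE := h.toEK
  have hF := h.fresh
  obtain ⟨k1, k2, k3⟩ := q.hc.same_in hE q.val q.odd (by have := q.big; omega) hfg
  have hcard : (W.erase (G.pi f)).card = W.card - 1 := card_erase_of_mem q.hc.w1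
  have hfr := hF.Ffr f q.hc.f1
  have hWo := Nat.odd_iff.1 q.odd
  have hbig := q.big
  exact h.e0_even q.ha q.ty q.tb q.hyf ((erase_subset _ _).trans q.hc.hW)
    (mem_erase.2 ⟨fun k => q.hyf (k ▸ hfr), q.my⟩)
    (mem_erase.2 ⟨fun k => q.hbf (k ▸ hfr), q.mb⟩) (by omega)
    (by rw [hcard, Nat.even_iff]; omega) k2 k3
    ⟨G.pi f, mem_sdiff.2 ⟨q.hc.hW q.hc.w1, fun k => (mem_erase.1 k).1 rfl⟩, by
      rw [k1]; norm_num⟩

/-- the inner ends of `f` and `k` are different -/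
theorem cfk [Infinite V] [Infinite D] (h : X6 G t fr F jm) : G.pi f ≠ G.pi k := by
  intro hfk
  have hE := h.toEK
  have hF := h.fresh
  have hcfg := q.cfg h
  have hfr := hF.Ffr f q.hc.f1
  have hWo := Nat.odd_iff.1 q.odd
  have hbig := q.big
  have hcard : (W.erase (G.pi f)).card = W.card - 1 := card_erase_of_mem q.hc.w1
  have h1 := hE.wt.val_erase q.hc.hW q.hc.w1
  have h4 : ({f, k} : Finset D) ⊆ G.ed {G.pi f} (G.vs \ W) := by
    intro x hx
    rw [mem_insert, mem_singleton] at hx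
    rcases hx with rfl | rfl
    · exact mem_ed.2 ⟨(mem_bd.1 q.mf).1, mem_singleton_self _, (mem_bd.1 q.mf').2.1⟩
    · exact mem_ed.2 ⟨(mem_bd.1 q.mkk).1, mem_singleton.2 hfk.symm, (mem_bd.1 q.mk').2.1⟩
  have h5 : ((2 : ℕ) : ℝ) ≤ ∑ d ∈ G.ed {G.pi f} (G.vs \ W), one1 d := by
    unfold one1
    rw [sum_const, nsmul_eq_mul, mul_one]
    have h8 := card_le_card h4
    rw [card_pair q.nfk] at h8
    exact_mod_cast h8
  have h6 := hE.t0 _ (q.hc.hW q.hc.w1)
  have h7 := hE.evn (W.erase (G.pi f)) ((erase_subset _ _).trans q.hc.hW) (by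
    rw [hcard, Nat.even_iff]
    omega) (card_pos.1 (by omega)) (fun k => by
      have : G.pi f ∈ W.erase (G.pi f) := by rw [k]; exact q.hc.hW q.hc.w1
      exact (mem_erase.1 this).1 rfl)
  push_cast at h5
  have hv := q.val
  obtain ⟨d, x1, x2, x3, x4, x5, -⟩ := q.hx
  refine h.e0F_evenN q.ha q.ty q.tb q.hyf q.hbf (N := W.erase (G.pi f))
    ⟨(erase_subset _ _).trans q.hc.hW, mem_erase.2 ⟨fun k => q.hyf (k ▸ hfr), q.my⟩,
      mem_erase.2 ⟨fun k => q.hbf (k ▸ hfr), q.mb⟩, by omega,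
      by rw [hcard, Nat.even_iff]; omega, by linarith⟩
    ⟨g, q.hc.f2, mem_erase.2 ⟨hcfg.symm, q.hc.w2⟩, fun k1 => q.hc.u2 (mem_erase.1 k1).2⟩
    ⟨d, x1, x2, fun k1 => x3 (mem_erase.1 k1).2, x4, x5⟩

end E1

end MG

end RH
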