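import Pool.Agent.Lib.RH.E0FB

/-! # Tools for (E0), odd crossed blocking sets with three exits

`EK.lawA`: count law for a part all of whose F-darts in the matching and all of whose unused J-darts
stay inside: no star vertex. `X6.tplUC`: outer engine with a certificate. `X6.glueK`: gluing over an
F-cut when one unused exit has two fresh ends. `X6.e0_bw`: J-bounded sets with a good port. `X6.btIn`:
one exit inside. -/

set_option autoImplicit false

namespace RH

open Finset Classical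

namespace MG

variable {V D : Type*} {G : MG V D} {z : D → ℝ} {t : V → ℝ} {fr : Finset V} {F : Finset D}
variable {jm A W X Y N S U : Finset V} {e d a u f g k : D} {T M M1 M2 : Finset D}
variable {nv ne np w n0 : ℕ} {s1 e4 o5 : Finset (Finset (Fin np))} {pp : Fin np → D}
variable {Kf : Finset (Fin nv)} {kk : ℝ}

/-- **COUNT LAW**: a part all of whose used F-darts and all of whose unused J-darts stay inside has
no star vertex, if there is a half of a certificate -/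
theorem EK.lawA {p : V → ℝ} (h : EK G kk t fr F jm) (hf : G.HPot one1 t F W p) (hM : G.HM W M)
    (hXf : X ⊆ fr) (hXW : X ⊆ W) (h1 : ∀ d ∈ M, d ∈ F → G.pi d ∈ X → G.pi (G.al d) ∈ X)
    (h2 : ∀ d ∈ G.ds, d ∉ F → d ∉ M → G.pi d ∈ X → G.pi (G.al d) ∈ X) : X ∩ jm = ∅ := by
  have hF := h.fresh
  have c : ∑ d ∈ G.uJ F M X, p (G.pi d) + ∑ v ∈ X ∩ jm, p v =
      ∑ d ∈ G.uF F M X, p (G.pi d) := by
    have e1 : ∑ v ∈ X ∩ jm, p v = ∑ v ∈ X, if v ∈ jm then p v else 0 := by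
      rw [← filter_mem_eq_inter, sum_filter]
    rw [← sum_fiberwise_of_maps_to (s := G.uJ F M X) (t := X) (g := G.pi)
        (fun d hd => (mem_uJ.1 hd).2.2.2.1), e1,
      ← sum_fiberwise_of_maps_to (s := G.uF F M X) (t := X) (g := G.pi)
        (fun d hd => (mem_uF.1 hd).2.2), ← sum_add_distrib]
    refine sum_congr rfl fun v hv => ?_
    have hvf := hXf hv
    obtain ⟨n, hn⟩ := card_eq_one.1 (hM.one v (hXW hv))
    have hn1 : n ∈ M.filter fun d => G.pi d = v := by rw [hn]; exact mem_singleton_self n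
    obtain ⟨hnM, hnv⟩ := mem_filter.1 hn1
    have huniq : ∀ d ∈ M, G.pi d = v → d = n := by
      intro d hd h
      have : d ∈ M.filter fun d => G.pi d = v := mem_filter.2 ⟨hd, h⟩
      rwa [hn, mem_singleton] at this
    have hF1 : n ∈ F → ((G.uF F M X).filter fun d => G.pi d = v) = {n} := by
      intro h
      ext d
      rw [mem_filter, mem_uF, mem_singleton]
      constructor
      · rintro ⟨⟨h1, -, -⟩, h2⟩
        exact huniq d h1 h2
      · rintro rfl
        exact ⟨⟨hnM, h, by rw [hnv]; exact hv⟩, hnv⟩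
    have hF0 : n ∉ F → ((G.uF F M X).filter fun d => G.pi d = v) = ∅ := by
      intro h
      rw [filter_eq_empty_iff]
      intro d hd h2
      obtain ⟨h1, h3, -⟩ := mem_uF.1 hd
      exact h (huniq d h1 h2 ▸ h3)
    by_cases hj : v ∈ jm
    · have hnF : n ∈ F := hF.j0 v hj n (mem_st.2 ⟨(hM.sub n hnM).1, hnv⟩)
      have hJ0 : ((G.uJ F M X).filter fun d => G.pi d = v) = ∅ := by
        rw [filter_eq_empty_iff]
        intro d hd h2
        obtain ⟨h1, h3, -⟩ := mem_uJ.1 hd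
        exact h3 (hF.j0 v hj d (mem_st.2 ⟨h1, h2⟩))
      rw [hJ0, sum_empty, if_pos hj, zero_add, hF1 hnF, sum_singleton, hnv]
    · obtain ⟨j, hj1, hj2, hj3, hj4⟩ := hF.exists_jd hvf hj
      rw [if_neg hj, add_zero]
      by_cases hjM : j ∈ M
      · have hnj : j = n := huniq j hjM hj2
        have hJ0 : ((G.uJ F M X).filter fun d => G.pi d = v) = ∅ := by
          rw [filter_eq_empty_iff]
          intro d hd h2
          obtain ⟨h1, h3, h4, -⟩ := mem_uJ.1 hd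
          exact h4 (hj4 d h1 h2 h3 ▸ hjM)
        rw [hJ0, sum_empty, hF0 (hnj ▸ hj3), sum_empty]
      · have hnF : n ∈ F := by
          by_contra h
          exact hjM (hj4 n (hM.sub n hnM).1 hnv h ▸ hnM)
        rw [hF1 hnF, sum_singleton, hnv]
        have hjX : G.pi (G.al j) ∈ X := h2 j hj1 hj3 hjM (by rw [hj2]; exact hv)
        have hJ1 : ((G.uJ F M X).filter fun d => G.pi d = v) = {j} := by
          ext d
          rw [mem_filter, mem_uJ, mem_singleton]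
          constructor
          · rintro ⟨⟨h1, h3, -⟩, h2⟩
            exact hj4 d h1 h2 h3
          · rintro rfl
            exact ⟨⟨hj1, hj3, hjM, by rw [hj2]; exact hv, hjX⟩, hj2⟩
        rw [hJ1, sum_singleton, hj2]
  have s1 := sum_symm (G := G) (S := G.uJ F M X) (z := fun _ => 1)
    (fun d hd => (mem_uJ.1 hd).1) (fun d hd => uJ_alH hF hM hXW hd) (fun _ _ => rfl) p
  have s2 := sum_symm (G := G) (S := G.uF F M X) (z := fun _ => 1)
    (fun d hd => (hM.sub d (mem_uF.1 hd).1).1) (fun d hd => by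
      obtain ⟨k1, k2, k3⟩ := mem_uF.1 hd
      have k4 := h1 d k1 k2 k3
      exact mem_uF.2 ⟨hM.clo _ k1 (hXW k4), hF.Fal _ k2, k4⟩)
    (fun _ _ => rfl) p
  simp only [one_mul] at s1 s2
  have e1 : ∑ d ∈ G.uJ F M X, (p (G.pi d) + p (G.pi (G.al d))) = 0 := by
    refine sum_eq_zero fun d hd => ?_
    obtain ⟨k1, k2, k3, k4, k5⟩ := mem_uJ.1 hd
    exact hf.jq d k1 (hXW k4) (hXW k5) zero_lt_one k2
  have e2 : ∑ d ∈ G.uF F M X, (p (G.pi d) + p (G.pi (G.al d))) ≤ 0 := by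
    refine sum_nonpos fun d hd => ?_
    obtain ⟨k1, k2, k3⟩ := mem_uF.1 hd
    exact hf.kk d k2 (hXW k3) (hXW (h1 d k1 k2 k3))
  have e3 : ∑ v ∈ X ∩ jm, p v = ((X ∩ jm).card : ℝ) := by
    rw [sum_congr rfl fun v hv => hf.tok v (hXW (mem_inter.1 hv).1) (by
      rw [h.tok_fr (hXf (mem_inter.1 hv).1), if_pos (mem_inter.1 hv).2]
      norm_num), sum_const, nsmul_eq_mul, mul_one]
  have n2 : (0 : ℝ) ≤ ((X ∩ jm).card : ℝ) := Nat.cast_nonneg _
  have h4 : ((X ∩ jm).card : ℝ) = 0 := by linarith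
  exact card_eq_zero.1 (by exact_mod_cast h4)

/-- three F-exits and J-exits -/
theorem FCut.fc3 (hF : G.FrS one1 fr F jm) (hW : W ⊆ G.vs) (hc : FCut G F W)
    (h3 : (G.bd W).card = 3) : ∃ f g k, G.FC F W f g ∧ G.bd W = {f, g, k} ∧ k ∉ F := by
  have h4 := hc.two hF
  have h5 := card_filter_add_card_filter_not (s := G.bd W) (fun d => d ∈ F)
  have hev := hF.bd_F_even W
  rw [Nat.even_iff] at hev
  have h6 : ((G.bd W).filter fun d => d ∈ F).card = 2 := by omega
  have h7 : ((G.bd W).filter fun d => ¬ d ∈ F).card = 1 := by omega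
  obtain ⟨f, g, hfg, hfe⟩ := card_eq_two.1 h6
  obtain ⟨k, hk⟩ := card_eq_one.1 h7
  have mf : f ∈ (G.bd W).filter fun d => d ∈ F := by rw [hfe]; simp
  have mg : g ∈ (G.bd W).filter fun d => d ∈ F := by rw [hfe]; simp
  have mk : k ∈ (G.bd W).filter fun d => ¬ d ∈ F := by rw [hk]; simp
  obtain ⟨f1, f2⟩ := mem_filter.1 mf
  obtain ⟨q1, q2⟩ := mem_filter.1 mg
  obtain ⟨k1, k2⟩ := mem_filter.1 mk
  refine ⟨f, g, k, ⟨hW, hfg, f2, q2, (mem_bd.1 f1).2.1, (mem_bd.1 q1).2.1, (mem_bd.1 f1).2.2,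
    (mem_bd.1 q1).2.2, ?_⟩, ?_, k2⟩
  · intro d hd h1 h2
    have h3 : d ∈ (G.bd W).filter fun d => d ∈ F :=
      mem_filter.2 ⟨mem_bd.2 ⟨hF.Fsub hd, h1, h2⟩, hd⟩
    rw [hfe, mem_insert, mem_singleton] at h3
    exact h3
  · ext d
    constructor
    · intro hd
      by_cases h1 : d ∈ F
      · have h2 : d ∈ (G.bd W).filter fun d => d ∈ F := mem_filter.2 ⟨hd, h1⟩
        rw [hfe, mem_insert, mem_singleton] at h2
        rcases h2 with rfl | rfl <;> simp
      · have h2 : d ∈ (G.bd W).filter fun d => ¬ d ∈ F := mem_filter.2 ⟨hd, h1⟩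
        rw [hk, mem_singleton] at h2
        rw [h2]
        simp
    · intro hd
      simp only [mem_insert, mem_singleton] at hd
      rcases hd with rfl | rfl | rfl
      · exact f1
      · exact q1
      · exact k1

/-- outer engine with a certificate -/
theorem X6.tplUC [Infinite V] [Infinite D] (h : X6 G t fr F jm) (b : OBl G t A w)
    {T : Tpl nv ne np} (hreg : T.Reg) (hT : T.Tab w n0 s1 (Tpl.oE e4) (Tpl.oO w o5))
    (hn : n0 + w = 2 * np + 2) (hk : T.nT univ + np + 2 = 6 + w) (hnv : nv % 2 = w)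
    (hpp : G.bd A = univ.image pp) (hpi : Function.Injective pp)
    (hsm : (fr ∩ A).card < fr.card ∨ nv < (G.vs \ A).card)
    (c1 : ∀ v ∈ A, TOk.kap G pp {v} ∈ s1)
    (c4 : ∀ X ⊆ A, Even X.card → X.Nonempty → X ≠ A → G.val one1 t X = 4 → TOk.kap G pp X ∈ e4)
    (c5 : ∀ X ⊆ A, Odd X.card → X.card ≠ 1 → X ≠ A → G.val one1 t X = 5 →
      TOk.kap G pp X ∈ o5) :
    (∃ M m, G.GHalf one1 fr F jm A M ∧ T.IsPat m (univ.filter fun i => pp i ∈ M)) ∨
      ∃ (p : V → ℝ) (c : Fin nv → ℝ), G.HPot one1 t F A p ∧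
        (∀ i, c (T.a i) + c (T.b i) = 0) ∧ (∀ v, T.tk v ≠ 0 → c v = 1) ∧
        ∀ i, p (G.pi (pp i)) + c (T.pt i) = 0 := by
  have hE := h.toEK
  have hf := b.fact hE hpp hpi hn c1 c4 c5
  have hev : Even (A.card + nv) := by
    have h1 := b.cardA h.even
    rw [Nat.even_iff]
    omega
  have hpb : ∀ i, pp i ∈ G.bd A := fun i => by
    rw [hpp]
    exact mem_image_of_mem _ (mem_univ _)
  have hdr : (G.bd A).filter (fun d => ∀ i, pp i ≠ d) = ∅ := by
    rw [filter_eq_empty_iff]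
    intro d hd h1
    rw [hpp] at hd
    obtain ⟨i, -, hi⟩ := mem_image.1 hd
    exact h1 i hi
  have ht : ∑ v ∈ A, t v + (((G.bd A).filter fun d => ∀ i, pp i ≠ d).card : ℝ) +
      T.nT univ = 6 := by
    rw [hdr, card_empty, (b.valA hE hpp hpi).2]
    have e4 : (T.nT univ : ℝ) + np + 2 = 6 + w := by exact_mod_cast hk
    push_cast
    linarith
  have hsm' : (fr ∩ A).card < fr.card ∨ A.card + nv < G.vs.card := by
    rcases hsm with h1 | h1
    · exact Or.inl h1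
    · right
      have := card_sdiff_add_card_eq_card b.hA
      omega
  have hne : (G.vs \ A).Nonempty := card_pos.1 (by have := b.two; omega)
  obtain ⟨Ts, k1, k2, k3⟩ : ∃ Ts : Finset V, (Ts = ∅ ∨ Ts.card = 2) ∧
      (∀ v ∈ Ts, v ∈ jm ∨ ∃ d, Drop G A pp d ∧ G.pi d = v) ∧ (Ts = jm ∨ jm = ∅ ∨ ¬ jm ⊆ A) := by
    by_cases h1 : jm ⊆ A
    · exact ⟨jm, h.jm2, fun v hv => Or.inl hv, Or.inl rfl⟩
    · exact ⟨∅, Or.inl rfl, fun v hv => absurd hv (notMem_empty v), Or.inr (Or.inr h1)⟩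
  rcases h.tplG b.hA hne hreg hT hpb hpi hf hev ht k1 k2 hsm' with ⟨M, m, h1, h2⟩ | h1
  · exact Or.inl ⟨M, m, h1.half h.fresh h.jm2 k3, h2⟩
  · obtain ⟨p, c, h0, -, h2, h3, h4⟩ := h1
    exact Or.inr ⟨p, c, h0, h2, h3, h4⟩

/-- **gluing over an F-cut, one F-exit is used; the unused exit `k` may have two fresh ends** -/
theorem X6.glueK (h : X6 G t fr F jm) (hc : G.FC F W f g) (h1 : G.GHalf one1 fr F jm W M1)
    (h2 : G.GHalf one1 fr F jm (G.vs \ W) M2) (hx : ∀ d ∈ G.bd W, d ∈ M1 ↔ G.al d ∈ M2)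
    (hj : Disjoint jm W) (hJ : ∀ d ∈ G.bd W, d ∉ F → d ∉ M1 → d = k)
    (hl : ∀ Y, Arc2 G fr F W f g Y → (∀ d ∈ G.bd Y, d ≠ f → d ≠ g → d ∈ M1 ∨ d = k) → False) :
    False := by
  obtain ⟨X, hX, hodd, c1, c2⟩ := h.dec h1.hm h2.hm hx
  have hF := h.fresh
  have b1 : ∀ d ∈ G.bd (X ∩ W), d ∉ F → d ∈ M1 ∨ d = k := by
    intro d hd hn
    rcases c1 d hd hn with k1 | ⟨k1, k2⟩
    · exact Or.inl k1
    · by_cases k3 : d ∈ M1
      · exact Or.inl k3
      · exact Or.inr (hJ d k1 hn k3)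
  have b2 : ∀ d ∈ G.bd (X \ W), d ∉ F → d ∉ M2 → G.al d ∈ G.bd (X ∩ W) ∧ G.al d ∉ M1 := by
    intro d hd hn k3
    rcases c2 d hd hn with k1 | ⟨k1, k2⟩
    · exact absurd k1 k3
    · have k4 := bd_al' hc.hW k1
      have k6 : G.al d ∉ M1 := fun k => k3 (by
        have := (hx _ k4).1 k
        rwa [G.al_al d (mem_bd.1 hd).1] at this)
      refine ⟨mem_bd.2 ⟨(mem_bd.1 k4).1, mem_inter.2 ⟨k2, (mem_bd.1 k4).2.1⟩, fun k7 => ?_⟩, k6⟩
      exact (mem_bd.1 k4).2.2 (mem_inter.1 k7).2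
  have hZ1 := hX.admZ W
  have hW2 : X \ W = X ∩ (G.vs \ W) := by
    ext v
    rw [mem_sdiff, mem_inter, mem_sdiff]
    exact ⟨fun k => ⟨k.1, hF.fsub (hX.sub k.1), k.2⟩, fun k => ⟨k.1, k.2.2⟩⟩
  have hZ2 := hX.admZ (G.vs \ W)
  rw [← hW2] at hZ2
  have hcs := hc.symm hF
  by_cases hg : G.pi f ∈ X
  · refine hl (X ∩ W) ⟨hZ1.sub, hZ1.subZ, ?_, mem_inter.2 ⟨hg, hc.w1⟩,
      (hc.both hF hZ1).1 (mem_inter.2 ⟨hg, hc.w1⟩)⟩ ?_
    · intro d hd hp
      by_cases k1 : G.pi (G.al d) ∈ W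
      · exact Or.inl (hZ1.clo d hd hp k1)
      · exact Or.inr (hc.only d hd (hZ1.subZ hp) k1)
    · intro d hd hdf hdg
      refine b1 d hd fun k1 => ?_
      obtain ⟨k2, k3, k4⟩ := mem_bd.1 hd
      have k5 : G.pi (G.al d) ∉ W := fun k5 => k4 (hZ1.clo d k1 k3 k5)
      rcases hc.only d k1 (hZ1.subZ k3) k5 with k6 | k6
      · exact hdf k6
      · exact hdg k6
  · have a1 : G.Adm fr F (X ∩ W) := hc.adm_of hF hZ1 fun k => hg (mem_inter.1 k).1
    have a2 : G.Adm fr F (X \ W) := hcs.adm_of hF hZ2 fun k => by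
      have k1 := hX.clo _ (hF.Fal _ hc.f1) (mem_sdiff.1 k).1
      rw [G.al_al _ (hF.Fsub hc.f1)] at k1
      exact hg k1
    have n1 : ∀ d ∈ G.bd (X ∩ W), d ∉ F := fun d hd k =>
      (mem_bd.1 hd).2.2 (a1.clo d k (mem_bd.1 hd).2.1)
    have n2 : ∀ d ∈ G.bd (X \ W), d ∉ F := fun d hd k =>
      (mem_bd.1 hd).2.2 (a2.clo d k (mem_bd.1 hd).2.1)
    have u1 := h1.hm.unused hF a1 inter_subset_right
    have u2 : X ∩ W ∩ jm = ∅ := by
      rw [eq_empty_iff_forall_notMem]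
      intro v hv
      obtain ⟨k1, k2⟩ := mem_inter.1 hv
      exact disjoint_left.1 hj k2 (mem_inter.1 k1).2
    rw [u2, card_empty] at u1
    have u3 : ((G.bd (X ∩ W)).filter fun d => d ∉ M1) ⊆ {k} := by
      intro d hd
      obtain ⟨k1, k2⟩ := mem_filter.1 hd
      rcases b1 d k1 (n1 d k1) with k3 | k3
      · exact absurd k3 k2
      · exact mem_singleton.2 k3
    have u4 : ((G.bd (X ∩ W)).filter fun d => d ∉ M1) = ∅ := by
      have k1 := card_le_card u3
      rw [card_singleton] at k1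
      exact card_eq_zero.1 (by omega)
    have v1 : ∀ d ∈ G.bd (X ∩ W), d ∈ M1 := by
      intro d hd
      by_contra k1
      have k2 : d ∈ (G.bd (X ∩ W)).filter fun d => d ∉ M1 := mem_filter.2 ⟨hd, k1⟩
      rw [u4] at k2
      exact notMem_empty d k2
    refine h.two_sides h1 h2 hX a1 v1 a2 ?_ hodd
    intro d hd
    by_contra k1
    obtain ⟨k2, k3⟩ := b2 d hd (n2 d hd) k1
    exact k3 (v1 _ k2)

/-- **J-bounded sets with a good port** -/
theorem X6.e0_bw [Infinite V] [Infinite D] (h : X6 G t fr F jm) (b : BW G t F A e)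
    (ha : a ∈ G.ds) (haF : a ∉ F) (ty : t (G.pi a) = 1) (tb : t (G.pi (G.al a)) = 1)
    (hyf : G.pi a ∉ fr) (hyW : G.pi a ∈ G.vs \ A) (hbW : G.pi (G.al a) ∈ G.vs \ A)
    (hb3 : (G.bd A).card ≤ 3) (h3 : 3 ≤ A.card)
    (hsm : (fr ∩ A).card < fr.card ∨ 3 < (G.vs \ A).card)
    (hinj : ∀ p ∈ G.bd A, ∀ q ∈ G.bd A, p ≠ e → q ≠ e → G.pi p = G.pi q → p = q) : False := by
  have hE := h.toEK
  have hA := b.hA
  have hes := (mem_bd.1 b.he)
  have hy : ∃ y ∈ G.vs \ A, y ∉ fr ∧ 1 ≤ t y := ⟨G.pi a, hyW, hyf, by rw [ty]⟩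
  obtain ⟨d, hd⟩ := h.hP0 b hb3 h3 hsm hinj
  obtain ⟨M, m1, m2⟩ := hd
  have hdb := m2.1
  refine h.glueSg b hy ⟨M, m1, m2⟩ (b.sall hE hy hdb fun T S hs hdT => ?_)
  exact h.inI0 (b.iblkP ⟨_, hes.2.1⟩) (b.hJ hE) (by
    rw [Finset.sdiff_sdiff_eq_self hA]
    omega) ha hyW hbW haF (by rw [ty]; norm_num)
    (by rw [tb]; norm_num) (bd_al hA hdb) hs hdT

/-- one exit inside -/
theorem X6.btIn [Infinite V] [Infinite D] (h : X6 G t fr F jm) (b : IBlk G t W 1)
    (hU : 2 ≤ (G.vs \ W).card) (hjW : jm = ∅ ∨ ¬ jm ⊆ W) (ha : a ∈ G.ds) (haF : a ∉ F)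
    (ty : t (G.pi a) ≠ 0) (tb : t (G.pi (G.al a)) ≠ 0) (hyW : G.pi a ∈ W)
    (hbW : G.pi (G.al a) ∈ W) {c : D} (hcb : c ∈ G.bd W) :
    ∃ M, G.GHalf one1 fr F jm W M ∧ c ∈ M ∧ ∀ d ∈ G.bd W, d ∈ M → d = c := by
  have hF := h.fresh
  rcases h.tplI (Ts := ∅) b Tpl.bt_reg Tpl.bt_tab (by decide) rfl (pp := fun _ : Fin 1 => c)
    (fun _ => hcb) (fun i j _ => Subsingleton.elim i j) (Or.inr (by omega)) (Or.inl rfl)
    (fun v hv => absurd hv (notMem_empty v))
    (fun _ _ => mem_univ _) (fun _ _ _ _ _ _ => mem_univ _) (fun _ _ _ _ _ _ => mem_univ _) with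
    ⟨M, m, h1, h2⟩ | ⟨p, cc, h1, h2, -⟩
  · refine ⟨M, h1.half hF h.jm2 (Or.inr hjW), ?_, fun d hd hdM => ?_⟩
    · have h4 := Tpl.bt_pat _ _ h2
      have h5 : (0 : Fin 1) ∈ univ.filter fun _ : Fin 1 => c ∈ M := by
        rw [h4]
        exact mem_singleton_self _
      exact (mem_filter.1 h5).2
    · obtain ⟨i, hi⟩ := h1.ex d hd hdM
      exact hi.symm
  · exfalso
    have h3 := h1.tok _ hyW ty
    have h4 := h1.tok _ hbW tb
    have h5 := h1.jq a ha hyW hbW one_pos haF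
    rw [h3, h4] at h5
    norm_num at h5

/-- two even sets of value 4 with a common vertex which has a dart out of both -/
theorem EK.two4 {X1 X2 : Finset V} {a1 a2 : V} (h : EK G 6 t fr F jm) (hX1 : X1 ⊆ G.vs)
    (hX2 : X2 ⊆ G.vs) (e1 : Even X1.card) (v1 : G.val one1 t X1 = 4) (v2 : G.val one1 t X2 = 4)
    (hd : d ∈ G.ds) (d1 : G.pi d ∈ X1) (d2 : G.pi d ∈ X2) (d3 : G.pi (G.al d) ∉ X1 ∪ X2)
    (m1 : a1 ∈ X1) (n1 : a1 ∉ X2) (m2 : a2 ∈ X2) (n2 : a2 ∉ X1) :
    X1 = {a1, G.pi d} ∧ ∃ x ∈ G.ds, G.pi x = a1 ∧ G.pi (G.al x) = G.pi d := by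
  have hp := h.wt.posimod hX1 hX2
  have hs := h.wt.submod hX1 hX2
  rw [v1, v2] at hp hs
  have dv := G.pi_mem _ (G.al_mem d hd)
  have o1 : (1 : ℝ) ≤ ∑ d ∈ G.ed (X1 ∩ X2) (G.vs \ (X1 ∪ X2)), one1 d := by
    unfold one1
    rw [sum_const, nsmul_eq_mul, mul_one]
    have : 0 < (G.ed (X1 ∩ X2) (G.vs \ (X1 ∪ X2))).card :=
      card_pos.2 ⟨d, mem_ed.2 ⟨hd, mem_inter.2 ⟨d1, d2⟩, mem_sdiff.2 ⟨dv, d3⟩⟩⟩
    exact_mod_cast this
  have o2 : 0 ≤ ∑ v ∈ X1 ∩ X2, t v := sum_nonneg fun v hv => h.t0 v (hX1 (mem_inter.1 hv).1)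
  have o3 : 0 ≤ ∑ d ∈ G.ed (X1 \ X2) (X2 \ X1), one1 d := sum_nonneg fun _ _ => zero_le_one
  have lb : ∀ X ⊆ X1 ∪ X2, X.Nonempty → 3 ≤ G.val one1 t X ∧
      (G.val one1 t X < 4 → X.card = 1) := by
    intro X hX hn
    have hXv : X ⊆ G.vs := hX.trans (union_subset hX1 hX2)
    have hnv : X ≠ G.vs := fun k1 => d3 (hX (by rw [k1]; exact dv))
    rcases Nat.even_or_odd X.card with k1 | k1
    · have := h.evn X hXv k1 hn hnv
      exact ⟨by linarith, fun k2 => by linarith⟩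
    · by_cases k2 : X.card = 1
      · obtain ⟨v, hv⟩ := card_eq_one.1 k2
        refine ⟨?_, fun _ => k2⟩
        rw [hv, h.wt.val_single (by
          apply hXv
          rw [hv]
          exact mem_singleton_self v)]
      · have := h.odd X hXv k1 k2
        exact ⟨by linarith, fun k3 => by linarith⟩
  obtain ⟨c1, c2⟩ := lb (X1 \ X2) (sdiff_subset.trans subset_union_left)
    ⟨_, mem_sdiff.2 ⟨m1, n1⟩⟩
  obtain ⟨b1, b2⟩ := lb (X2 \ X1) (sdiff_subset.trans subset_union_right)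
    ⟨_, mem_sdiff.2 ⟨m2, n2⟩⟩
  have f1 := c2 (by linarith)
  have f2 := card_sdiff_add_card_inter X1 X2
  have f3 := Nat.even_iff.1 e1
  have f4 : (X1 ∪ X2).card = X1.card + 1 := by
    have k1 := card_union_add_card_inter X1 X2
    have k2 := card_sdiff_add_card_inter X2 X1
    rw [inter_comm] at k2
    have k3 := b2 (by linarith)
    omega
  have f5 : 0 < (X1 ∩ X2).card := card_pos.2 ⟨_, mem_inter.2 ⟨d1, d2⟩⟩
  have f6 := h.odd (X1 ∪ X2) (union_subset hX1 hX2)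
    (by rw [f4, Nat.odd_iff]; omega) (by omega)
  have f7 : (X1 ∩ X2).card = 1 := by
    by_contra f7
    have f8 := h.odd (X1 ∩ X2) (inter_subset_left.trans hX1)
      (by rw [Nat.odd_iff]; omega) f7
    linarith
  have f8 : X1.card = 2 := by omega
  have f9 : ({a1, G.pi d} : Finset V) = X1 := by
    refine eq_of_subset_of_card_le ?_ ?_
    · intro v hv
      rw [mem_insert, mem_singleton] at hv
      rcases hv with rfl | rfl
      · exact m1
      · exact d1
    · rw [f8, card_pair fun k1 => n1 (by rw [k1]; exact d2)]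
  refine ⟨f9.symm, ?_⟩
  have g1 := h.val_eq hX1
  rw [v1, f8] at g1
  have g2 : (0 : ℝ) < ((G.ed X1 X1).card : ℝ) := by
    push_cast at g1
    linarith
  have g3 : 0 < (G.ed X1 X1).card := by exact_mod_cast g2
  obtain ⟨x, hx⟩ := card_pos.1 g3
  obtain ⟨x1, x2, x3⟩ := mem_ed.1 hx
  have x4 := G.noloop x x1
  rw [← f9, mem_insert, mem_singleton] at x2 x3
  rcases x2 with x2 | x2
  · rcases x3 with x3 | x3
    · exact absurd (x3.trans x2.symm) x4
    · exact ⟨x, x1, x2, x3⟩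
  · rcases x3 with x3 | x3
    · exact ⟨G.al x, G.al_mem x x1, x3, by rw [G.al_al x x1]; exact x2⟩
    · exact absurd (x3.trans x2.symm) x4

/-- a vertex with two edges to an even set of value 4 and one dart out -/
theorem EK.three4 {v a1 a2 : V} {x1 x2 : D} (h : EK G 6 t fr F jm) (hX : X ⊆ G.vs)
    (he : Even X.card) (hv : G.val one1 t X = 4) (vX : v ∉ X) (vv : v ∈ G.vs)
    (y1 : x1 ∈ G.ds) (y2 : G.pi x1 = a1) (y3 : G.pi (G.al x1) = v) (y4 : a1 ∈ X)
    (z1 : x2 ∈ G.ds) (z2 : G.pi x2 = a2) (z3 : G.pi (G.al x2) = v) (z4 : a2 ∈ X)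
    (hne : a1 ≠ a2) : False := by
  have hdis : Disjoint X {v} := by
    rw [disjoint_singleton_right]
    exact vX
  have h1 := h.wt.val_disj hX (singleton_subset_iff.2 vv) hdis
  have h2 : ((2 : ℕ) : ℝ) ≤ ∑ d ∈ G.ed X {v}, one1 d := by
    unfold one1
    rw [sum_const, nsmul_eq_mul, mul_one]
    have k1 : ({x1, x2} : Finset D) ⊆ G.ed X {v} := by
      intro x hx
      rw [mem_insert, mem_singleton] at hx
      rcases hx with rfl | rfl
      · exact mem_ed.2 ⟨y1, by rw [y2]; exact y4, mem_singleton.2 y3⟩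
      · exact mem_ed.2 ⟨z1, by rw [z2]; exact z4, mem_singleton.2 z3⟩
    have k2 := card_le_card k1
    rw [card_pair fun k => hne (by rw [← y2, k, z2])] at k2
    exact_mod_cast k2
  rw [hv, h.wt.val_single vv] at h1
  have h3 : (X ∪ {v}).card = X.card + 1 := by rw [card_union_of_disjoint hdis, card_singleton]
  have h4 := Nat.even_iff.1 he
  have h5 := card_pos.2 ⟨_, y4⟩
  have h6 := h.odd (X ∪ {v}) (union_subset hX (singleton_subset_iff.2 vv))
    (by rw [h3, Nat.odd_iff]; omega) (by omega)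
  push_cast at h2
  linarith

/-- **J-bounded odd sets of value 5, any**: one of the exits is a good port -/
theorem X6.e0_oddN [Infinite V] [Infinite D] (h : X6 G t fr F jm) (ha : a ∈ G.ds) (haF : a ∉ F)
    (ty : t (G.pi a) = 1) (tb : t (G.pi (G.al a)) = 1) (hyf : G.pi a ∉ fr)
    (hW : W ⊆ G.vs) (hyW : G.pi a ∈ W) (hbW : G.pi (G.al a) ∈ W) (h4 : 4 ≤ W.card)
    (h3 : 3 ≤ (G.vs \ W).card) (ho : Odd W.card) (hv : G.val one1 t W = 5)
    (hF : ∀ d ∈ F, G.pi d ∈ W → G.pi (G.al d) ∈ W) : False := by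
  have hE := h.toEK
  have hFr := h.fresh
  obtain ⟨A, hAd⟩ : ∃ A, A = G.vs \ W := ⟨_, rfl⟩
  have hA : A ⊆ G.vs := by rw [hAd]; exact sdiff_subset
  have hWA : G.vs \ A = W := by rw [hAd]; exact Finset.sdiff_sdiff_eq_self hW
  rw [← hAd] at h3
  have hcd := card_sdiff_add_card_eq_card hA
  rw [hWA] at hcd
  have hVe := Nat.even_iff.1 h.even
  have hWo := Nat.odd_iff.1 ho
  have hAo : Odd A.card := by
    rw [Nat.odd_iff]
    omega
  have ht := two_tok hE ha ty tb hW hyW hbW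
  have hbc : (G.bd A).card = (G.bd W).card := by rw [hAd, bd_card_compl hW]
  have hval := hv
  rw [val_one] at hval
  have hb3 : (G.bd A).card ≤ 3 := by
    have : ((G.bd W).card : ℝ) ≤ (3 : ℕ) := by
      push_cast
      linarith
    rw [hbc]
    exact_mod_cast this
  have hb0 : (G.bd A).Nonempty := by
    rw [nonempty_iff_ne_empty]
    intro k1
    rw [← hbc, k1, card_empty] at hval
    have k2 := hE.val_compl hW
    rw [← hAd, hv] at k2
    have k3 := hE.odd A hA hAo (by omega)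
    push_cast at hval
    linarith
  have hjn : ∀ X ⊆ A, G.val one1 t (X ∪ W) = G.val one1 t X + 5 - 2 * qx G A X := by
    intro X hX
    have k1 := hE.join hA hX
    rw [hWA, hv] at k1
    exact k1
  have hdj : ∀ X ⊆ A, Disjoint X W := by
    intro X hX
    refine disjoint_left.2 fun v hv hv' => ?_
    have := hX hv
    rw [hAd] at this
    exact (mem_sdiff.1 this).2 hv'
  have hcu : ∀ X ⊆ A, (X ∪ W).card = X.card + W.card := fun X hX =>
    card_union_of_disjoint (hdj X hX)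
  have hsu : ∀ X ⊆ A, X ∪ W ⊆ G.vs := fun X hX => union_subset (hX.trans hA) hW
  have hq2 : ∀ i ∈ G.bd A, ∀ X, G.pi i ∉ X → qx G A X + 1 ≤ (G.bd A).card := by
    intro i hi X hX
    unfold qx
    have k1 : ((G.bd A).filter fun d => G.pi d ∈ X) ⊆ (G.bd A).erase i := by
      intro d hd
      obtain ⟨k2, k3⟩ := mem_filter.1 hd
      exact mem_erase.2 ⟨fun k4 => hX (k4 ▸ k3), k2⟩
    have k2 := card_le_card k1
    rw [card_erase_of_mem hi] at k2
    have := card_pos.2 ⟨_, hi⟩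
    omega
  have hall : (G.bd A).card ≤ 3 → ∀ i ∈ G.bd A, ∀ X, G.pi i ∉ X → 2 ≤ qx G A X →
      ∀ j ∈ G.bd A, j ≠ i → G.pi j ∈ X := by
    intro hc i hi X hX hq j hj hji
    by_contra k0
    unfold qx at hq
    have k1 : ((G.bd A).filter fun d => G.pi d ∈ X) ⊆ ((G.bd A).erase i).erase j := by
      intro d hd
      obtain ⟨k2, k3⟩ := mem_filter.1 hd
      exact mem_erase.2 ⟨fun k4 => k0 (k4 ▸ k3), mem_erase.2 ⟨fun k4 => hX (k4 ▸ k3), k2⟩⟩
    have k2 := card_le_card k1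
    rw [card_erase_of_mem (mem_erase.2 ⟨hji, hj⟩), card_erase_of_mem hi] at k2
    omega
  -- a bad set for `i`
  have bad : ∀ i ∈ G.bd A, ¬ ((∀ X ⊆ A, Even X.card → X.Nonempty → G.pi i ∉ X →
      7 ≤ G.val one1 t (X ∪ W)) ∧ ∀ X ⊆ A, Odd X.card → G.pi i ∉ X →
      6 ≤ G.val one1 t (X ∪ W)) → ∃ X ⊆ A, G.pi i ∉ X ∧ (X.card = 1 ∨ (Even X.card ∧
      G.val one1 t X = 4)) ∧ ∀ j ∈ G.bd A, j ≠ i → G.pi j ∈ X := by
    intro i hi hn
    rw [not_and_or] at hn
    rcases hn with hn | hn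
    · push Not at hn
      obtain ⟨X, k1, k2, k3, k4, k5⟩ := hn
      have k6 := hcu X k1
      have k2' := Nat.even_iff.1 k2
      have hXv : X ≠ G.vs := fun k7 => k4 (by rw [k7]; exact hA (mem_bd.1 hi).2.1)
      have k7 := hE.evn X (k1.trans hA) k2 k3 hXv
      have k8 := hq2 i hi X k4
      have k8' : (qx G A X : ℝ) ≤ (2 : ℕ) := by
        have : qx G A X ≤ 2 := by omega
        exact_mod_cast this
      push_cast at k8'
      rcases hE.odd_or (hsu X k1) (by rw [k6, Nat.odd_iff]; omega) (by omega) with k9 | k9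
      · rw [hjn X k1] at k9
        have l1 : (2 : ℝ) ≤ (qx G A X : ℝ) := by linarith
        have l2 : 2 ≤ qx G A X := by exact_mod_cast l1
        exact ⟨X, k1, k4, Or.inr ⟨k2, by linarith⟩, hall hb3 i hi X k4 l2⟩
      · linarith
    · push Not at hn
      obtain ⟨X, k1, k2, k4, k5⟩ := hn
      have k6 := hcu X k1
      have k2' := Nat.odd_iff.1 k2
      have k8 := hq2 i hi X k4
      have k8' : (qx G A X : ℝ) ≤ (2 : ℕ) := by
        have : qx G A X ≤ 2 := by omega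
        exact_mod_cast this
      push_cast at k8'
      have k7 : X ∪ W ≠ G.vs := by
        intro k2
        have k3 := hA (mem_bd.1 hi).2.1
        rw [← k2] at k3
        rcases mem_union.1 k3 with k4' | k4'
        · exact k4 k4'
        · have := (mem_bd.1 hi).2.1
          rw [hAd] at this
          exact (mem_sdiff.1 this).2 k4'
      rcases hE.evn_or (hsu X k1) (by rw [k6, Nat.even_iff]; omega)
        ⟨_, mem_union_right _ hyW⟩ k7 with k9 | k9
      · rw [hjn X k1] at k9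
        by_cases l0 : X.card = 1
        · obtain ⟨v, hv⟩ := card_eq_one.1 l0
          rw [hv, hE.wt.val_single (by
            apply hA
            apply k1
            rw [hv]
            exact mem_singleton_self v)] at k9
          have l1 : (2 : ℝ) ≤ (qx G A X : ℝ) := by
            rw [hv]
            linarith
          have l2 : 2 ≤ qx G A X := by exact_mod_cast l1
          exact ⟨X, k1, k4, Or.inl l0, hall hb3 i hi X k4 l2⟩
        · have l1 := hE.odd X (k1.trans hA) k2 l0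
          linarith
      · linarith
  -- a good port
  by_cases hg : ∃ i ∈ G.bd A, (∀ X ⊆ A, Even X.card → X.Nonempty → G.pi i ∉ X →
      7 ≤ G.val one1 t (X ∪ W)) ∧ ∀ X ⊆ A, Odd X.card → G.pi i ∉ X →
      6 ≤ G.val one1 t (X ∪ W)
  · obtain ⟨i, hi, g1, g2⟩ := hg
    have b : BW G t F A i := by
      refine ⟨hA, by rw [hWA]; exact ho, by rw [hWA]; omega, by rw [hWA]; exact hv,
        by rw [hWA]; linarith, hi, ?_, by rw [hWA]; exact g1, by rw [hWA]; exact g2⟩
      intro d hd hdA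
      by_contra hn
      have h5 : G.pi (G.al d) ∈ W := by
        rw [← hWA]
        exact mem_sdiff.2 ⟨G.pi_mem _ (G.al_mem d (hFr.Fsub hd)), hn⟩
      have h6 := hF _ (hFr.Fal d hd) h5
      rw [G.al_al d (hFr.Fsub hd), ← hWA] at h6
      exact (mem_sdiff.1 h6).2 hdA
    refine h.e0_bw b ha haF ty tb hyf (by rw [hWA]; exact hyW) (by rw [hWA]; exact hbW) hb3 h3
      (Or.inr (by rw [hWA]; omega)) ?_
    intro p hp r hr p1 r1 hpr
    by_contra hne
    have hpA := (mem_bd.1 hp).2.1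
    have k1 : ({G.pi p} : Finset V) ⊆ A := singleton_subset_iff.2 hpA
    have k2 : 2 ≤ qx G A {G.pi p} := by
      unfold qx
      have k3 : ({p, r} : Finset D) ⊆ (G.bd A).filter fun d => G.pi d ∈ ({G.pi p} : Finset V) := by
        intro x hx
        rw [mem_insert, mem_singleton] at hx
        rcases hx with rfl | rfl
        · exact mem_filter.2 ⟨hp, mem_singleton_self _⟩
        · exact mem_filter.2 ⟨hr, mem_singleton.2 hpr.symm⟩
      have k4 := card_le_card k3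
      rwa [card_pair hne] at k4
    have k2' : ((2 : ℕ) : ℝ) ≤ (qx G A {G.pi p} : ℝ) := by exact_mod_cast k2
    have k3 := hjn _ k1
    rw [hE.wt.val_single (hA hpA)] at k3
    push_cast at k2'
    by_cases k4 : G.pi i ∈ ({G.pi p} : Finset V)
    · -- three exits at one vertex
      have k5 : ({p, r, i} : Finset D) ⊆ (G.bd A).filter fun d =>
          G.pi d ∈ ({G.pi p} : Finset V) := by
        intro x hx
        simp only [mem_insert, mem_singleton] at hx
        rcases hx with rfl | rfl | rfl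
        · exact mem_filter.2 ⟨hp, mem_singleton_self _⟩
        · exact mem_filter.2 ⟨hr, mem_singleton.2 hpr.symm⟩
        · exact mem_filter.2 ⟨hi, k4⟩
      have k6 := card_le_card k5
      rw [card_insert_of_notMem (by
        rw [mem_insert, mem_singleton, not_or]
        exact ⟨hne, p1⟩), card_pair r1] at k6
      have k7 : ((3 : ℕ) : ℝ) ≤ (qx G A {G.pi p} : ℝ) := by
        unfold qx
        exact_mod_cast k6
      push_cast at k7
      have k8 := hcu _ k1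
      rw [card_singleton] at k8
      have k9 := hE.evn _ (hsu _ k1) (by rw [k8, Nat.even_iff]; omega)
        ⟨_, mem_union_right _ hyW⟩ (fun k9 => by
          have := congrArg card k9
          omega)
      linarith
    · have k5 := g2 _ k1 (by rw [card_singleton]; exact odd_one) k4
      linarith
  -- no good port
  exfalso
  push Not at hg
  have hB : ∀ i ∈ G.bd A, ∃ X ⊆ A, G.pi i ∉ X ∧ (X.card = 1 ∨ (Even X.card ∧
      G.val one1 t X = 4)) ∧ ∀ j ∈ G.bd A, j ≠ i → G.pi j ∈ X := fun i hi =>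
    bad i hi fun k => by
      obtain ⟨X, x1, x2, x3, x4⟩ := hg i hi k.1
      exact absurd (k.2 X x1 x2 x3) (by linarith)
  have hc3 : (G.bd A).card = 3 := by
    obtain ⟨i, hi⟩ := hb0
    by_contra hc
    have hn : ¬ ((∀ X ⊆ A, Even X.card → X.Nonempty → G.pi i ∉ X →
      7 ≤ G.val one1 t (X ∪ W)) ∧ ∀ X ⊆ A, Odd X.card → G.pi i ∉ X →
      6 ≤ G.val one1 t (X ∪ W)) := fun k => by
      obtain ⟨X, x1, x2, x3, x4⟩ := hg i hi k.1
      exact absurd (k.2 X x1 x2 x3) (by linarith)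
    apply hn
    constructor
    · intro X k1 k2 k3 k4
      have hXv : X ≠ G.vs := fun k7 => k4 (by rw [k7]; exact hA (mem_bd.1 hi).2.1)
      have k7 := hE.evn X (k1.trans hA) k2 k3 hXv
      have k8 := hq2 i hi X k4
      have k8' : (qx G A X : ℝ) ≤ (1 : ℕ) := by
        have : qx G A X ≤ 1 := by omega
        exact_mod_cast this
      push_cast at k8'
      rw [hjn X k1]
      linarith
    · intro X k1 k2 k4
      have k8 := hq2 i hi X k4
      have k8' : (qx G A X : ℝ) ≤ (1 : ℕ) := by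
        have : qx G A X ≤ 1 := by omega
        exact_mod_cast this
      push_cast at k8'
      rw [hjn X k1]
      by_cases l0 : X.card = 1
      · obtain ⟨v, hv⟩ := card_eq_one.1 l0
        rw [hv, hE.wt.val_single (by
          apply hA
          apply k1
          rw [hv]
          exact mem_singleton_self v)]
        rw [hv] at k8'
        linarith
      · have l1 := hE.odd X (k1.trans hA) k2 l0
        linarith
  obtain ⟨p1, p2, p3, n12, n13, n23, hP⟩ := card_eq_three.1 hc3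
  have b1 : p1 ∈ G.bd A := by rw [hP]; simp
  have b2 : p2 ∈ G.bd A := by rw [hP]; simp
  have b3 : p3 ∈ G.bd A := by rw [hP]; simp
  obtain ⟨X1, s1, s2, s3, s4⟩ := hB p1 b1
  obtain ⟨X2, t1, t2, t3, t4⟩ := hB p2 b2
  obtain ⟨X3, u1, u2, u3, u4⟩ := hB p3 b3
  have s5 := s4 p2 b2 n12.symm
  have s6 := s4 p3 b3 n13.symm
  have t5 := t4 p1 b1 n12
  have t6 := t4 p3 b3 n23.symm
  have u5 := u4 p1 b1 n13
  have u6 := u4 p2 b2 n23
  have ev : ∀ X : Finset V, (X.card = 1 ∨ (Even X.card ∧ G.val one1 t X = 4)) → ∀ v ∈ X, ∀ w ∈ X,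
      v ≠ w → Even X.card ∧ G.val one1 t X = 4 := by
    intro X hX v hv w hw hvw
    rcases hX with hX | hX
    · obtain ⟨x, hx⟩ := card_eq_one.1 hX
      rw [hx, mem_singleton] at hv hw
      exact absurd (hv.trans hw.symm) hvw
    · exact hX
  have w23 : G.pi p2 ≠ G.pi p3 := fun k => t2 (by rw [k]; exact t6)
  have w13 : G.pi p1 ≠ G.pi p3 := fun k => s2 (by rw [k]; exact s6)
  have w12 : G.pi p1 ≠ G.pi p2 := fun k => s2 (by rw [k]; exact s5)
  obtain ⟨s7, s8⟩ := ev X1 s3 _ s5 _ s6 w23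
  obtain ⟨t7, t8⟩ := ev X2 t3 _ t5 _ t6 w13
  obtain ⟨u7, u8⟩ := ev X3 u3 _ u5 _ u6 w12
  have out : ∀ p ∈ G.bd A, ∀ X ⊆ A, ∀ Y ⊆ A, G.pi (G.al p) ∉ X ∪ Y := by
    intro p hp X hX Y hY k1
    rcases mem_union.1 k1 with k2 | k2
    · exact (mem_bd.1 hp).2.2 (hX k2)
    · exact (mem_bd.1 hp).2.2 (hY k2)
  obtain ⟨-, x, x1, x2, x3⟩ := hE.two4 (s1.trans hA) (t1.trans hA) s7 s8 t8 (mem_bd.1 b3).1 s6 t6
    (out p3 b3 X1 s1 X2 t1) s5 t2 t5 s2
  obtain ⟨-, y, y1, y2, y3⟩ := hE.two4 (t1.trans hA) (s1.trans hA) t7 t8 s8 (mem_bd.1 b3).1 t6 s6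
    (out p3 b3 X2 t1 X1 s1) t5 s2 s5 t2
  exact hE.three4 (u1.trans hA) u7 u8 u2 (hA (mem_bd.1 b3).2.1) x1 x2 x3 u6 y1 y2 y3 u5 w12.symm

end MG

end RH
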