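import Pool.Agent.Lib.RH.E0G

/-! # (E0), odd crossed blocking sets with three exits: no even arc part of value 4

`E1.dead1`, `E1.outK`, `E1.killK`: gluing; `E1.splitBW`: the part without the arc part has a good port;
`E1.fr3`: three fresh vertices outside; `E1.hE4`. -/

set_option autoImplicit false

namespace RH

open Finset Classical

namespace MG

variable {V D : Type*} {G : MG V D} {z : D → ℝ} {t : V → ℝ} {fr : Finset V} {F : Finset D}
variable {jm A W X Y N S U : Finset V} {e d d' a u f g k : D} {T M M1 M2 : Finset D}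
variable {kk : ℝ}

/-- a part of a half matching is replaced -/
theorem HM.repl {MY : Finset D} (h1 : G.HM W M1) (hY : Y ⊆ W) (h2 : G.HM Y MY)
    (hno : ∀ d ∈ G.bd Y, d ∉ MY) (hn1 : ∀ d ∈ M1, G.pi d ∈ W \ Y → G.pi (G.al d) ∉ Y) :
    G.HM W (MY ∪ M1.filter fun d => G.pi d ∈ W \ Y) where
  sub := by
    intro d hd
    rcases mem_union.1 hd with hd | hd
    · exact ⟨(h2.sub d hd).1, hY (h2.sub d hd).2⟩
    · exact h1.sub d (mem_filter.1 hd).1
  clo := by
    intro d hd hp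
    rcases mem_union.1 hd with hd | hd
    · have k1 : G.pi (G.al d) ∈ Y := by
        by_contra k1
        exact hno d (mem_bd.2 ⟨(h2.sub d hd).1, (h2.sub d hd).2, k1⟩) hd
      exact mem_union_left _ (h2.clo d hd k1)
    · obtain ⟨k1, k2⟩ := mem_filter.1 hd
      exact mem_union_right _ (mem_filter.2 ⟨h1.clo d k1 hp, mem_sdiff.2 ⟨hp, hn1 d k1 k2⟩⟩)
  one := by
    intro v hv
    by_cases k1 : v ∈ Y
    · rw [← h2.one v k1]
      congr 1
      ext d
      rw [mem_filter, mem_filter, mem_union, mem_filter]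
      constructor
      · rintro ⟨k2 | ⟨k2, k3⟩, k4⟩
        · exact ⟨k2, k4⟩
        · exact absurd (k4 ▸ k1) (mem_sdiff.1 k3).2
      · rintro ⟨k2, k4⟩
        exact ⟨Or.inl k2, k4⟩
    · rw [← h1.one v hv]
      congr 1
      ext d
      rw [mem_filter, mem_filter, mem_union, mem_filter]
      constructor
      · rintro ⟨k2 | ⟨k2, k3⟩, k4⟩
        · exact absurd (k4 ▸ (h2.sub d k2).2) k1
        · exact ⟨k2, k4⟩
      · rintro ⟨k2, k4⟩
        exact ⟨Or.inr ⟨k2, mem_sdiff.2 ⟨k4 ▸ hv, k4 ▸ k1⟩⟩, k4⟩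

namespace E1

variable (q : E1 G t fr F jm W a f g k)
include q

theorem iblk : IBlk G t W 1 :=
  ⟨q.hc.hW, Nat.odd_iff.1 q.odd, card_pos.1 (by have := q.out; omega), by
    rw [q.val]; norm_num⟩

theorem obl : OBl G t (G.vs \ W) 1 :=
  ⟨sdiff_subset, by rw [q.uu]; exact Nat.odd_iff.1 q.odd, by rw [q.uu]; have := q.big; omega,
    by rw [q.uu, q.val]; norm_num⟩

theorem hjW : jm = ∅ ∨ ¬ jm ⊆ W := by
  by_cases k : jm = ∅
  · exact Or.inl k
  · obtain ⟨v, hv⟩ := nonempty_iff_ne_empty.2 k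
    exact Or.inr fun k2 => disjoint_left.1 q.hj hv (k2 hv)

theorem frU (h : EK G 6 t fr F jm) : (fr ∩ (G.vs \ W)).card < fr.card := by
  refine card_lt_card ⟨inter_subset_left, fun k => ?_⟩
  exact (mem_sdiff.1 (mem_inter.1 (k (h.fresh.Ffr f q.hc.f1))).2).2 q.hc.w1

theorem btk [Infinite V] [Infinite D] (h : X6 G t fr F jm) {c : D} (hcb : c ∈ G.bd W) :
    ∃ M, G.GHalf one1 fr F jm W M ∧ c ∈ M ∧ ∀ d ∈ G.bd W, d ∈ M → d = c :=
  h.btIn q.iblk (by have := q.out; omega) q.hjW q.ha q.haF (by rw [q.ty]; norm_num)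
    (by rw [q.tb]; norm_num) q.my q.mb hcb

/-- the exit `k` does not have two fresh ends: no outer half with exactly `f` -/
theorem dead1 [Infinite V] [Infinite D] (h : X6 G t fr F jm)
    (hn : G.pi k ∉ fr ∨ G.pi (G.al k) ∉ fr) (h2 : G.GHalf one1 fr F jm (G.vs \ W) M2)
    (m1 : G.al f ∈ M2) (m2 : G.al g ∉ M2) (m3 : G.al k ∉ M2) : False := by
  obtain ⟨M1, g1, g2, g3⟩ := q.btk h q.mf
  have n2 : g ∉ M1 := fun k1 => q.hc.ne (g3 g q.mg k1).symm
  have n3 : k ∉ M1 := fun k1 => q.nfk (g3 k q.mkk k1).symm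
  refine h.glueF1 q.hc g1 h2 ?_ ?_ q.hj ⟨fun _ => n2, fun _ => g2⟩
  · intro d hd
    rw [q.hbd] at hd
    simp only [mem_insert, mem_singleton] at hd
    rcases hd with rfl | rfl | rfl
    · exact ⟨fun _ => m1, fun _ => g2⟩
    · exact ⟨fun k1 => absurd k1 n2, fun k1 => absurd k1 m2⟩
    · exact ⟨fun k1 => absurd k1 n3, fun k1 => absurd k1 m3⟩
  · intro d hd hdF _ hfr
    rw [q.hbd] at hd
    simp only [mem_insert, mem_singleton] at hd
    rcases hd with rfl | rfl | rfl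
    · exact absurd q.hc.f1 hdF
    · exact absurd q.hc.f2 hdF
    · rcases hn with hn | hn
      · exact absurd hfr hn
      · exact hn

/-- the outer side with exactly `k` -/
theorem outK [Infinite V] [Infinite D] (h : X6 G t fr F jm)
    (hfk : G.pi (G.al f) ≠ G.pi (G.al k)) (hng : G.pi (G.al g) ≠ G.pi (G.al k))
    (m0 : ∀ X ⊆ G.vs \ W, Even X.card → G.val one1 t X = 4 → G.pi (G.al k) ∈ X →
      G.pi (G.al g) ∉ X)
    (df : ∀ M2, G.GHalf one1 fr F jm (G.vs \ W) M2 → G.al f ∈ M2 → G.al g ∉ M2 →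
      G.al k ∉ M2 → False)
    (dg : ∀ M2, G.GHalf one1 fr F jm (G.vs \ W) M2 → G.al g ∈ M2 → G.al f ∉ M2 →
      G.al k ∉ M2 → False) :
    ∃ M2, G.GHalf one1 fr F jm (G.vs \ W) M2 ∧ G.al k ∈ M2 ∧ G.al f ∉ M2 ∧ G.al g ∉ M2 := by
  have hE := h.toEK
  have hpp : G.bd (G.vs \ W) = univ.image ![G.al f, G.al g, G.al k] := by
    rw [img3]
    exact q.bd'
  have hpi : Function.Injective ![G.al f, G.al g, G.al k] := fin3_ne q.ne1 q.ne2 q.ne3
  obtain ⟨M2, m, l1, l2⟩ := h.tplU q.obl Tpl.path2_reg Tpl.path2_tab (by norm_num) (by decide) rfl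
    (fun c h1 h2 => Tpl.path2_noC c h1 h2) hpp hpi (Or.inl (q.frU hE))
    (fun v _ => by
      unfold Tpl.n12
      rw [mem_filter]
      refine ⟨mem_univ _, fun k1 => hng ?_⟩
      unfold TOk.kap at k1
      have k2 := mem_singleton.1 (mem_filter.1 k1.1).2
      have k3 := mem_singleton.1 (mem_filter.1 k1.2).2
      exact k2.trans k3.symm)
    (fun X hX he _ _ hv => by
      unfold Tpl.n12
      rw [mem_filter]
      refine ⟨mem_univ _, fun k1 => ?_⟩
      unfold TOk.kap at k1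
      exact m0 X hX he hv (mem_filter.1 k1.2).2 (mem_filter.1 k1.1).2)
    (fun _ _ _ _ _ _ => mem_univ _)
  obtain ⟨i, hi⟩ := card_eq_one.1 (Tpl.path2_pat _ _ l2)
  have l3 : ∀ j : Fin 3, ![G.al f, G.al g, G.al k] j ∈ M2 ↔ j = i := fun j => by
    rw [← mem_singleton, ← hi, mem_filter]
    exact ⟨fun k => ⟨mem_univ _, k⟩, fun k => k.2⟩
  have c0 := l3 0
  have c1 := l3 1
  have c2 := l3 2
  change G.al f ∈ M2 ↔ _ at c0
  change G.al g ∈ M2 ↔ _ at c1
  change G.al k ∈ M2 ↔ _ at c2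
  fin_cases i
  · exact (df M2 l1 (c0.2 rfl) (fun k1 => absurd (c1.1 k1) (by decide))
      fun k1 => absurd (c2.1 k1) (by decide)).elim
  · exact (dg M2 l1 (c1.2 rfl) (fun k1 => absurd (c0.1 k1) (by decide))
      fun k1 => absurd (c2.1 k1) (by decide)).elim
  · exact ⟨M2, l1, c2.2 rfl, fun k1 => absurd (c0.1 k1) (by decide),
      fun k1 => absurd (c1.1 k1) (by decide)⟩

/-- exactly `k` on both sides, linked inside or outside -/
theorem killK (h : X6 G t fr F jm)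
    (h1 : G.GHalf one1 fr F jm W M1) (a1 : k ∈ M1) (a2 : f ∉ M1) (a3 : g ∉ M1)
    (h2 : G.GHalf one1 fr F jm (G.vs \ W) M2) (b1 : G.al k ∈ M2) (b2 : G.al f ∉ M2)
    (b3 : G.al g ∉ M2) (hl : (∀ X1, ¬ G.ArcC fr F M1 W X1 f) ∨
      ∀ X2, ¬ G.ArcC fr F M2 (G.vs \ W) X2 (G.al f)) : False := by
  have hx : ∀ d ∈ G.bd W, d ∈ M1 ↔ G.al d ∈ M2 := by
    intro d hd
    rw [q.hbd] at hd
    simp only [mem_insert, mem_singleton] at hd
    rcases hd with rfl | rfl | rfl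
    · exact ⟨fun k1 => absurd k1 a2, fun k1 => absurd k1 b2⟩
    · exact ⟨fun k1 => absurd k1 a3, fun k1 => absurd k1 b3⟩
    · exact ⟨fun _ => b1, fun _ => a1⟩
  have hJ : ∀ d ∈ G.bd W, d ∉ F → d ∉ M1 → G.pi d ∈ fr → G.pi (G.al d) ∉ fr := by
    intro d hd hdF hdM
    rw [q.hbd] at hd
    simp only [mem_insert, mem_singleton] at hd
    rcases hd with rfl | rfl | rfl
    · exact absurd q.hc.f1 hdF
    · exact absurd q.hc.f2 hdF
    · exact absurd a1 hdM
  rcases hl with hl | hl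
  · exact h.glueFL q.hc h1 h2 hx hJ hl
  · exact h.glueFL' q.hc h1 h2 hx hJ hl

/-- the part without an even arc part of value 4 -/
theorem split (h : EK G 6 t fr F jm) (hY : Arc2 G fr F W f g Y) (he : Even Y.card)
    (hv : G.val one1 t Y = 4) :
    G.val one1 t (W \ Y) = 5 ∧ ∑ v ∈ W \ Y, t v = 2 ∧ (G.bd (W \ Y)).card = 3 ∧
      qx G (G.vs \ (W \ Y)) Y = 2 ∧ G.pi k ∉ Y ∧ Odd (W \ Y).card ∧ 3 ≤ (W \ Y).card ∧
      G.pi a ∈ W \ Y ∧ G.pi (G.al a) ∈ W \ Y := by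
  have hYvs := hY.inA.trans q.hc.hW
  have hN : W \ Y ⊆ G.vs := sdiff_subset.trans q.hc.hW
  have hA : G.vs \ (W \ Y) ⊆ G.vs := sdiff_subset
  have hYA : Y ⊆ G.vs \ (W \ Y) := fun v hv =>
    mem_sdiff.2 ⟨hYvs hv, fun k => (mem_sdiff.1 k).2 hv⟩
  have h1 := h.join hA hYA
  have h2 : Y ∪ (G.vs \ (G.vs \ (W \ Y))) = W := by
    rw [Finset.sdiff_sdiff_eq_self hN]
    exact union_sdiff_of_subset hY.inA
  rw [h2, Finset.sdiff_sdiff_eq_self hN, q.val, hv] at h1
  have c1 : qx G W Y + qx G (G.vs \ (W \ Y)) Y ≤ (G.bd Y).card := by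
    unfold qx
    rw [← card_union_of_disjoint]
    · refine card_le_card fun d hd => ?_
      rcases mem_union.1 hd with hd | hd
      · obtain ⟨k1, k2⟩ := mem_filter.1 hd
        exact mem_bd.2 ⟨(mem_bd.1 k1).1, k2, fun k3 => (mem_bd.1 k1).2.2 (hY.inA k3)⟩
      · obtain ⟨k1, k2⟩ := mem_filter.1 hd
        exact mem_bd.2 ⟨(mem_bd.1 k1).1, k2, fun k3 => (mem_bd.1 k1).2.2 (hYA k3)⟩
    · rw [disjoint_left]
      intro d hd hd'
      have k1 := (mem_bd.1 (mem_filter.1 hd).1)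
      have k2 := (mem_bd.1 (mem_filter.1 hd').1)
      exact k2.2.2 (mem_sdiff.2 ⟨G.pi_mem _ (G.al_mem d k1.1), fun k3 =>
        k1.2.2 (mem_sdiff.1 k3).1⟩)
  have c2 : 2 ≤ qx G W Y := qx2o q.mf q.mg q.hc.ne hY.mf hY.mg
  have hyY : G.pi a ∈ W \ Y := mem_sdiff.2 ⟨q.my, fun k => q.hyf (hY.sub k)⟩
  have hbY : G.pi (G.al a) ∈ W \ Y := mem_sdiff.2 ⟨q.mb, fun k => q.hbf (hY.sub k)⟩
  have hyb : G.pi a ≠ G.pi (G.al a) := fun e' => G.noloop a q.ha e'.symm
  have h7 := card_sdiff_add_card_eq_card hY.inA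
  have h8 : 2 ≤ (W \ Y).card := by
    have k1 : ({G.pi a, G.pi (G.al a)} : Finset V) ⊆ W \ Y :=
      insert_subset hyY (singleton_subset_iff.2 hbY)
    have k2 := card_le_card k1
    rwa [card_pair hyb] at k2
  have h9 : Odd (W \ Y).card := by
    have k1 := Nat.odd_iff.1 q.odd
    rw [Nat.even_iff] at he
    rw [Nat.odd_iff]
    omega
  have h10 := h.odd (W \ Y) hN h9 (by omega)
  have h6 : 0 ≤ ∑ v ∈ Y, t v := sum_nonneg fun v hv => h.t0 v (hYvs hv)
  have h5 := hv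
  rw [val_one] at h5
  have c3 : (2 : ℝ) ≤ qx G (G.vs \ (W \ Y)) Y := by linarith
  have c4 : 2 ≤ qx G (G.vs \ (W \ Y)) Y := by exact_mod_cast c3
  have c5 : ((G.bd Y).card : ℝ) ≤ (4 : ℕ) := by
    push_cast
    linarith
  have c6 : (G.bd Y).card ≤ 4 := by exact_mod_cast c5
  have c7 : (G.bd Y).card = 4 := by omega
  have c8 : qx G (G.vs \ (W \ Y)) Y = 2 := by omega
  have c9 : qx G W Y = 2 := by omega
  rw [c7] at h5
  push_cast at h5
  have h11 : ∑ v ∈ Y, t v = 0 := by linarith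
  rw [c8] at h1
  push_cast at h1
  have h12 : G.val one1 t (W \ Y) = 5 := by linarith
  have h13 : ∑ v ∈ W \ Y, t v = 2 := by
    have k1 := sum_sdiff hY.inA (f := t)
    have k2 := q.tw
    linarith
  refine ⟨h12, h13, ?_, c8, fun hk => ?_, h9, ?_, hyY, hbY⟩
  · have k1 := h12
    rw [val_one, h13] at k1
    have k2 : ((G.bd (W \ Y)).card : ℝ) = (3 : ℕ) := by
      push_cast
      linarith
    exact_mod_cast k2
  · have := qx3o q.mf q.mg q.mkk q.hc.ne q.nfk q.ngk hY.mf hY.mg hk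
    omega
  · rw [Nat.odd_iff] at h9
    omega

/-- one of the two exits to `Y` is a good port of the J-bounded part -/
theorem splitBW [Infinite V] [Infinite D] (h : X6 G t fr F jm) (hY : Arc2 G fr F W f g Y)
    (he : Even Y.card) (hv : G.val one1 t Y = 4) :
    ∃ j1 j2, j1 ∈ G.bd (G.vs \ (W \ Y)) ∧ G.pi j1 ∈ Y ∧ G.pi j2 ∈ Y ∧ j1 ≠ j2 ∧
      G.bd (G.vs \ (W \ Y)) = {G.al k, j1, j2} ∧ BW G t F (G.vs \ (W \ Y)) j1 := by
  have hE := h.toEK
  have hF := h.fresh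
  obtain ⟨s1, s2, s3, s4, s5, s6, s7, s8, s9⟩ := q.split hE hY he hv
  obtain ⟨W1, hW1⟩ : ∃ W1, W1 = W \ Y := ⟨_, rfl⟩
  obtain ⟨A, hAd⟩ : ∃ A, A = G.vs \ W1 := ⟨_, rfl⟩
  rw [← hW1] at s1 s2 s3 s4 s6 s7 s8 s9 ⊢
  rw [← hAd] at s4 ⊢
  have hWW : W1 ⊆ W := by rw [hW1]; exact sdiff_subset
  have hN : W1 ⊆ G.vs := hWW.trans q.hc.hW
  have hA : A ⊆ G.vs := by rw [hAd]; exact sdiff_subset
  have hAA : G.vs \ A = W1 := by rw [hAd]; exact Finset.sdiff_sdiff_eq_self hN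
  have hYvs := hY.inA.trans q.hc.hW
  have hYA : Y ⊆ A := fun v hv => by
    rw [hAd, hW1]
    exact mem_sdiff.2 ⟨hYvs hv, fun k => (mem_sdiff.1 k).2 hv⟩
  have hUA : G.vs \ W ⊆ A := by
    rw [hAd]
    exact sdiff_subset_sdiff (Subset.refl _) hWW
  have hbc : (G.bd A).card = 3 := by
    rw [hAd, bd_card_compl hN, s3]
  have hkA : G.al k ∈ G.bd A := by
    refine mem_bd.2 ⟨(mem_bd.1 q.mk').1, hUA (mem_bd.1 q.mk').2.1, fun k1 => ?_⟩
    rw [G.al_al k (mem_bd.1 q.mkk).1, hAd] at k1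
    refine (mem_sdiff.1 k1).2 ?_
    rw [hW1]
    exact mem_sdiff.2 ⟨(mem_bd.1 q.mkk).2.1, s5⟩
  have hkY : G.pi (G.al k) ∉ Y := fun k1 => (mem_bd.1 q.mkk).2.2 (hY.inA k1)
  obtain ⟨i1, i2, hii, hie⟩ := card_eq_two.1 s4
  have mi1 : i1 ∈ (G.bd A).filter fun d => G.pi d ∈ Y := by rw [hie]; exact mem_insert_self _ _
  have mi2 : i2 ∈ (G.bd A).filter fun d => G.pi d ∈ Y := by
    rw [hie]
    exact mem_insert_of_mem (mem_singleton_self _)
  obtain ⟨i1b, i1Y⟩ := mem_filter.1 mi1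
  obtain ⟨i2b, i2Y⟩ := mem_filter.1 mi2
  have ne1 : G.al k ≠ i1 := fun k1 => hkY (k1 ▸ i1Y)
  have ne2 : G.al k ≠ i2 := fun k1 => hkY (k1 ▸ i2Y)
  have hbA : G.bd A = {G.al k, i1, i2} := by
    refine (eq_of_subset_of_card_le ?_ ?_).symm
    · intro x hx
      simp only [mem_insert, mem_singleton] at hx
      rcases hx with rfl | rfl | rfl
      · exact hkA
      · exact i1b
      · exact i2b
    · rw [hbc, card_insert_of_notMem, card_pair hii]
      rw [mem_insert, mem_singleton, not_or]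
      exact ⟨ne1, ne2⟩
  have hnF : ∀ i ∈ G.bd A, G.pi i ∈ Y → i ∉ F := by
    intro i hi hiY hiF
    have k1 : G.pi (G.al i) ∈ W1 := by
      rw [← hAA]
      exact mem_sdiff.2 ⟨G.pi_mem _ (G.al_mem i (mem_bd.1 hi).1), (mem_bd.1 hi).2.2⟩
    rw [hW1] at k1
    obtain ⟨k2, k3⟩ := mem_sdiff.1 k1
    rcases hY.clo i hiF hiY with k4 | k4 | k4
    · exact k3 k4
    · exact q.hc.u1 (k4 ▸ k2)
    · exact q.hc.u2 (k4 ▸ k2)
  have hpne : G.pi i1 ≠ G.pi i2 := by
    intro k1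
    have k2 : G.pi i1 ∉ jm := fun k2 => disjoint_left.1 q.hj k2 (hY.inA i1Y)
    obtain ⟨j, -, -, -, j4⟩ := hF.exists_jd (hY.sub i1Y) k2
    exact hii ((j4 i1 (mem_bd.1 i1b).1 rfl (hnF i1 i1b i1Y)).trans
      (j4 i2 (mem_bd.1 i2b).1 k1.symm (hnF i2 i2b i2Y)).symm)
  -- general facts
  have hWo := Nat.odd_iff.1 s6
  have hjn : ∀ X ⊆ A, G.val one1 t (X ∪ W1) = G.val one1 t X + 5 - 2 * qx G A X := by
    intro X hX
    have k1 := hE.join hA hX
    rw [hAA, s1] at k1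
    exact k1
  have hcu : ∀ X ⊆ A, (X ∪ W1).card = X.card + W1.card := by
    intro X hX
    refine card_union_of_disjoint (disjoint_left.2 fun v hv hv' => ?_)
    have := hX hv
    rw [hAd] at this
    exact (mem_sdiff.1 this).2 hv'
  have hsu : ∀ X ⊆ A, X ∪ W1 ⊆ G.vs := fun X hX => union_subset (hX.trans hA) hN
  have hq2 : ∀ i ∈ G.bd A, ∀ X, G.pi i ∉ X → qx G A X ≤ 2 := by
    intro i hi X hX
    unfold qx
    have k1 : ((G.bd A).filter fun d => G.pi d ∈ X) ⊆ (G.bd A).erase i := by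
      intro d hd
      obtain ⟨k2, k3⟩ := mem_filter.1 hd
      exact mem_erase.2 ⟨fun k4 => hX (k4 ▸ k3), k2⟩
    have k2 := card_le_card k1
    rw [card_erase_of_mem hi, hbc] at k2
    exact k2
  have hall : ∀ i ∈ G.bd A, ∀ X, G.pi i ∉ X → 2 ≤ qx G A X → ∀ j ∈ G.bd A, j ≠ i →
      G.pi j ∈ X := by
    intro i hi X hX hq j hj hji
    by_contra k0
    unfold qx at hq
    have k1 : ((G.bd A).filter fun d => G.pi d ∈ X) ⊆ ((G.bd A).erase i).erase j := by
      intro d hd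
      obtain ⟨k2, k3⟩ := mem_filter.1 hd
      exact mem_erase.2 ⟨fun k4 => k0 (k4 ▸ k3), mem_erase.2 ⟨fun k4 => hX (k4 ▸ k3), k2⟩⟩
    have k2 := card_le_card k1
    rw [card_erase_of_mem (mem_erase.2 ⟨hji, hj⟩), card_erase_of_mem hi, hbc] at k2
    omega
  -- the BW structure from the even sets
  have mkBW : ∀ i ∈ G.bd A, G.pi i ∈ Y → (∀ X ⊆ A, Even X.card → X.Nonempty → G.pi i ∉ X →
      7 ≤ G.val one1 t (X ∪ W1)) → BW G t F A i := by
    intro i hi hiY hmO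
    refine ⟨hA, by rw [hAA]; exact s6, by rw [hAA]; exact s7, by rw [hAA]; exact s1,
      by rw [hAA, s2]; norm_num, hi, ?_, by rw [hAA]; exact hmO, ?_⟩
    · intro d hd hdA
      by_contra hn
      have k1 : G.pi (G.al d) ∈ W1 := by
        rw [← hAA]
        exact mem_sdiff.2 ⟨G.pi_mem _ (G.al_mem d (hF.Fsub hd)), hn⟩
      have k2 : d ∈ G.bd A := mem_bd.2 ⟨hF.Fsub hd, hdA, hn⟩
      by_cases k3 : G.pi d ∈ Y
      · exact hnF d k2 k3 hd
      · have k4 : G.pi d ∉ W := by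
          intro k4
          rw [hAd] at hdA
          refine (mem_sdiff.1 hdA).2 ?_
          rw [hW1]
          exact mem_sdiff.2 ⟨k4, k3⟩
        have k5 := G.al_al d (hF.Fsub hd)
        have k6 := k1
        rw [hW1] at k6
        rcases q.hc.only _ (hF.Fal d hd) (hWW k1) (by rw [k5]; exact k4) with k7 | k7
        · rw [k7] at k6
          exact (mem_sdiff.1 k6).2 hY.mf
        · rw [k7] at k6
          exact (mem_sdiff.1 k6).2 hY.mg
    · intro X hX hXo hXi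
      rw [hAA]
      have k1 := hcu X hX
      have hXo' := Nat.odd_iff.1 hXo
      have k2 : X ∪ W1 ≠ G.vs := by
        intro k2
        have k3 := hA (mem_bd.1 hi).2.1
        rw [← k2] at k3
        rcases mem_union.1 k3 with k4 | k4
        · exact hXi k4
        · have := (mem_bd.1 hi).2.1
          rw [hAd] at this
          exact (mem_sdiff.1 this).2 k4
      rcases hE.evn_or (hsu X hX) (by rw [k1, Nat.even_iff]; omega)
        ⟨_, mem_union_right _ s8⟩ k2 with k3 | k3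
      · exfalso
        rw [hjn X hX] at k3
        have k4 := hq2 i hi X hXi
        have k4' : (qx G A X : ℝ) ≤ (2 : ℕ) := by exact_mod_cast k4
        push_cast at k4'
        by_cases k5 : X.card = 1
        · obtain ⟨v, hv⟩ := card_eq_one.1 k5
          rw [hv, hE.wt.val_single (by
            apply hA
            apply hX
            rw [hv]
            exact mem_singleton_self v)] at k3
          have k6 : (2 : ℝ) ≤ (qx G A X : ℝ) := by
            rw [hv]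
            linarith
          have k7 : 2 ≤ qx G A X := by exact_mod_cast k6
          have k8 := hall i hi X hXi k7
          by_cases k9 : i = i1
          · have l1 := k8 _ hkA (by rw [k9]; exact ne1)
            have l2 := k8 i2 i2b (by rw [k9]; exact hii.symm)
            rw [hv, mem_singleton] at l1 l2
            exact hkY (by rw [l1, ← l2]; exact i2Y)
          · have l1 := k8 _ hkA (fun l => hkY (l ▸ hiY))
            have l2 := k8 i1 i1b (Ne.symm k9)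
            rw [hv, mem_singleton] at l1 l2
            exact hkY (by rw [l1, ← l2]; exact i1Y)
        · have k6 := hE.odd X (hX.trans hA) hXo k5
          linarith
      · exact k3
  -- a bad even set for `i`
  have bad : ∀ i ∈ G.bd A, ¬ (∀ X ⊆ A, Even X.card → X.Nonempty → G.pi i ∉ X →
      7 ≤ G.val one1 t (X ∪ W1)) → ∃ X ⊆ A, Even X.card ∧ G.pi i ∉ X ∧ G.val one1 t X = 4 ∧
      ∀ j ∈ G.bd A, j ≠ i → G.pi j ∈ X := by
    intro i hi hn
    push Not at hn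
    obtain ⟨X, k1, k2, k3, k4, k5⟩ := hn
    have k6 := hcu X k1
    have k2' := Nat.even_iff.1 k2
    have hXv : X ≠ G.vs := fun k7 => k4 (by rw [k7]; exact hA (mem_bd.1 hi).2.1)
    have k7 := hE.evn X (k1.trans hA) k2 k3 hXv
    have k8 := hq2 i hi X k4
    have k8' : (qx G A X : ℝ) ≤ (2 : ℕ) := by exact_mod_cast k8
    push_cast at k8'
    rcases hE.odd_or (hsu X k1) (by rw [k6, Nat.odd_iff]; omega) (by omega) with k9 | k9
    · rw [hjn X k1] at k9
      have l1 : (2 : ℝ) ≤ (qx G A X : ℝ) := by linarith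
      have l2 : 2 ≤ qx G A X := by exact_mod_cast l1
      have l3 : qx G A X = 2 := le_antisymm k8 l2
      rw [l3] at k9
      push_cast at k9
      exact ⟨X, k1, k2, k4, by linarith, hall i hi X k4 l2⟩
    · linarith
  -- one of the two is good
  by_cases g1 : ∀ X ⊆ A, Even X.card → X.Nonempty → G.pi i1 ∉ X → 7 ≤ G.val one1 t (X ∪ W1)
  · exact ⟨i1, i2, i1b, i1Y, i2Y, hii, hbA, mkBW i1 i1b i1Y g1⟩
  by_cases g2 : ∀ X ⊆ A, Even X.card → X.Nonempty → G.pi i2 ∉ X → 7 ≤ G.val one1 t (X ∪ W1)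
  · exact ⟨i2, i1, i2b, i2Y, i1Y, hii.symm, by rw [hbA, pair_comm], mkBW i2 i2b i2Y g2⟩
  exfalso
  obtain ⟨X1, a1, a2, a3, a4, a5⟩ := bad i1 i1b g1
  obtain ⟨X2, b1, b2, b3, b4, b5⟩ := bad i2 i2b g2
  have ak := a5 _ hkA ne1
  have ai := a5 _ i2b hii.symm
  have bk := b5 _ hkA ne2
  have bi := b5 _ i1b hii
  have kW1 : G.pi (G.al (G.al k)) ∉ A := by
    rw [G.al_al k (mem_bd.1 q.mkk).1, hAd]
    intro k2
    rw [hW1] at k2
    exact (mem_sdiff.1 k2).2 (mem_sdiff.2 ⟨(mem_bd.1 q.mkk).2.1, s5⟩)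
  obtain ⟨-, x, x1, x2, x3⟩ := hE.two4 (a1.trans hA) (b1.trans hA) a2 a4 b4 (mem_bd.1 q.mk').1
    ak bk (fun k1 => kW1 ((mem_union.1 k1).elim (fun k2 => a1 k2) fun k2 => b1 k2)) ai b3 bi a3
  obtain ⟨-, y, y1, y2, y3⟩ := hE.two4 (b1.trans hA) (a1.trans hA) b2 b4 a4 (mem_bd.1 q.mk').1
    bk ak (fun k1 => kW1 ((mem_union.1 k1).elim (fun k2 => b1 k2) fun k2 => a1 k2)) bi a3 ai b3
  have fin : ∀ z ∈ G.ds, G.pi z ∈ Y → G.pi (G.al z) = G.pi (G.al k) → z = f ∨ z = g := by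
    intro z z1 z2 z3
    have k1 : z ∈ G.bd W := mem_bd.2 ⟨z1, hY.inA z2, by
      rw [z3]
      exact (mem_bd.1 q.mkk).2.2⟩
    rw [q.hbd] at k1
    simp only [mem_insert, mem_singleton] at k1
    rcases k1 with k1 | k1 | k1
    · exact Or.inl k1
    · exact Or.inr k1
    · exact absurd (k1 ▸ z2) s5
  have r1 := fin x x1 (by rw [x2]; exact i2Y) x3
  have r2 := fin y y1 (by rw [y2]; exact i1Y) y3
  have r3 : x ≠ y := fun k1 => hpne (by rw [← x2, ← y2, k1])
  rcases r1 with r1 | r1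
  · rcases r2 with r2 | r2
    · exact r3 (r1.trans r2.symm)
    · exact q.ofg h (by rw [← r1, ← r2, x3, y3])
  · rcases r2 with r2 | r2
    · exact q.ofg h (by rw [← r1, ← r2, x3, y3])
    · exact r3 (r1.trans r2.symm)

/-- at least three fresh vertices outside -/
theorem fr3 [Infinite V] [Infinite D] (h' : X6 G t fr F jm) :
    (fr ∩ W).card + 3 ≤ fr.card := by
  have h := h'.toEK
  have hF := h.fresh
  have hk := card_inter_add_card_sdiff fr W
  by_contra hcon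
  have hne := q.ofg h'
  have hpair : ({G.pi (G.al f), G.pi (G.al g)} : Finset V) ⊆ fr \ W := by
    intro v hv
    rw [mem_insert, mem_singleton] at hv
    rcases hv with rfl | rfl
    · exact mem_sdiff.2 ⟨q.of' h, q.hc.u1⟩
    · exact mem_sdiff.2 ⟨q.og' h, q.hc.u2⟩
  have hXd : ({G.pi (G.al f), G.pi (G.al g)} : Finset V) = fr \ W :=
    eq_of_subset_of_card_le hpair (by rw [card_pair hne]; omega)
  obtain ⟨X, hX⟩ : ∃ X : Finset V, X = {G.pi (G.al f), G.pi (G.al g)} := ⟨_, rfl⟩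
  rw [← hX] at hXd
  have hXc : X.card = 2 := by rw [hX, card_pair hne]
  have hXU : X ⊆ G.vs \ W := by
    rw [hXd]
    exact sdiff_subset_sdiff hF.fsub (Subset.refl _)
  have mf : G.pi (G.al f) ∈ X := by rw [hX]; exact mem_insert_self _ _
  have mg : G.pi (G.al g) ∈ X := by rw [hX]; exact mem_insert_of_mem (mem_singleton_self _)
  have hq := qx2o q.mf' q.mg' q.ne1 mf mg
  obtain ⟨d1, c1, c2, c3, c4, c5⟩ := q.hc.next hF hne
  have c6 : G.pi (G.al d1) ∈ X := by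
    rw [hXd]
    exact mem_sdiff.2 ⟨c4, c5⟩
  have d1s := hF.Fsub c1
  have hed : ({d1, G.al d1} : Finset D) ⊆ G.ed X X := by
    intro d hd
    rw [mem_insert, mem_singleton] at hd
    rcases hd with rfl | rfl
    · exact mem_ed.2 ⟨d1s, by rw [c2]; exact mf, c6⟩
    · exact mem_ed.2 ⟨G.al_mem _ d1s, c6, by rw [G.al_al _ d1s, c2]; exact mf⟩
  have hed2 := card_le_card hed
  rw [card_pair fun k => G.noloop d1 d1s (by rw [← k])] at hed2
  have hed2' : ((2 : ℕ) : ℝ) ≤ ((G.ed X X).card : ℝ) := by exact_mod_cast hed2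
  have hv1 := h.val_eq (hXU.trans sdiff_subset)
  rw [hXc] at hv1
  push_cast at hv1 hed2'
  have hcu := q.cu hXU
  have hbig := q.big
  have hWo := Nat.odd_iff.1 q.odd
  have h5 := h.odd _ (q.su hXU) (by rw [hcu, Nat.odd_iff]; omega) (by omega)
  have h6 := q.jn h hXU
  have hq' : (2 : ℝ) ≤ qx G (G.vs \ W) X := by exact_mod_cast hq
  have h7 : G.val one1 t (X ∪ W) = 5 := by linarith
  have hu := q.uc hXU
  have hout := q.out
  have hUo := q.oU h
  have h9 : (G.vs \ (X ∪ W)).card = 1 := by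
    by_contra h9
    refine h'.e0_oddN q.ha q.haF q.ty q.tb q.hyf (q.su hXU) (mem_union_right _ q.my)
      (mem_union_right _ q.mb) (by omega) (by omega) (by rw [hcu, Nat.odd_iff]; omega) h7 ?_
    intro d hd _
    have k1 := hF.Ffr _ (hF.Fal d hd)
    by_cases k2 : G.pi (G.al d) ∈ W
    · exact mem_union_right _ k2
    · refine mem_union_left _ ?_
      rw [hXd]
      exact mem_sdiff.2 ⟨k1, k2⟩
  obtain ⟨v, hv'⟩ := card_eq_one.1 h9
  have h12 : ({v} : Finset V) ⊆ G.vs := by rw [← hv']; exact sdiff_subset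
  have h13 := h.val_compl h12
  have h14 : G.vs \ {v} = X ∪ W := by
    rw [← hv']
    exact Finset.sdiff_sdiff_eq_self (q.su hXU)
  rw [h14, h7, h.wt.val_single (singleton_subset_iff.1 h12), sum_singleton] at h13
  have tv : t v = 2 := by linarith
  obtain ⟨d, x1, x2, x3, x4, x5, -⟩ := q.hx
  have hUX : G.vs \ W = insert v X := by
    ext w
    constructor
    · intro hw
      by_cases k1 : w ∈ X
      · exact mem_insert_of_mem k1
      · have k2 : w ∈ G.vs \ (X ∪ W) := mem_sdiff.2 ⟨(mem_sdiff.1 hw).1, fun k3 =>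
          (mem_union.1 k3).elim k1 (mem_sdiff.1 hw).2⟩
        rw [hv', mem_singleton] at k2
        rw [k2]
        exact mem_insert_self _ _
    · intro hw
      rcases mem_insert.1 hw with rfl | hw
      · have k2 : w ∈ G.vs \ (X ∪ W) := by rw [hv']; exact mem_singleton_self w
        exact mem_sdiff.2 ⟨(mem_sdiff.1 k2).1, fun k3 => (mem_sdiff.1 k2).2
          (mem_union_right _ k3)⟩
      · exact hXU hw
  have hvX : v ∉ X := by
    have k2 : v ∈ G.vs \ (X ∪ W) := by rw [hv']; exact mem_singleton_self v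
    exact fun k3 => (mem_sdiff.1 k2).2 (mem_union_left _ k3)
  have hs := sum_sdiff q.hc.hW (f := t)
  rw [hUX, sum_insert hvX, tv, q.tw, h.tau, hX, sum_pair hne] at hs
  have hfr1 : ∀ w ∈ fr, t w ≤ 1 ∧ (t w = 1 → w ∈ jm) := by
    intro w hw
    rw [h.tok_fr hw]
    split_ifs with k1
    · exact ⟨le_refl _, fun _ => k1⟩
    · exact ⟨zero_le_one, fun k2 => by norm_num at k2⟩
  obtain ⟨f1, f2⟩ := hfr1 _ (q.of' h)
  obtain ⟨g1, g2⟩ := hfr1 _ (q.og' h)
  have f3 := f2 (by linarith)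
  have g3 := g2 (by linarith)
  have y1 : G.pi d ∈ G.vs \ W := mem_sdiff.2 ⟨G.pi_mem d x1, x3⟩
  rw [hUX, mem_insert] at y1
  rcases y1 with y1 | y1
  · rw [y1, tv] at x4
    norm_num at x4
  · have y2 : G.pi d ∈ jm := by
      rw [hX, mem_insert, mem_singleton] at y1
      rcases y1 with y1 | y1
      · rw [y1]; exact f3
      · rw [y1]; exact g3
    exact x2 (hF.j0 _ y2 d (mem_st.2 ⟨x1, rfl⟩))

/-- **no even arc part of value 4** -/
theorem hE4 [Infinite V] [Infinite D] (h : X6 G t fr F jm)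
    (hK : G.pi k ∉ fr → ∃ M2, G.GHalf one1 fr F jm (G.vs \ W) M2 ∧ G.al k ∈ M2 ∧ G.al f ∉ M2 ∧
      G.al g ∉ M2) (hY : Arc2 G fr F W f g Y) (he : Even Y.card) : G.val one1 t Y ≠ 4 := by
  intro hv
  have hE := h.toEK
  have hF := h.fresh
  obtain ⟨s1, s2, s3, s4, s5, s6, s7, s8, s9⟩ := q.split hE hY he hv
  obtain ⟨j1, j2, i1, i2, i3, i4, i5, b⟩ := q.splitBW h hY he hv
  have hN : W \ Y ⊆ G.vs := sdiff_subset.trans q.hc.hW
  have hAA : G.vs \ (G.vs \ (W \ Y)) = W \ Y := Finset.sdiff_sdiff_eq_self hN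
  have hYvs := hY.inA.trans q.hc.hW
  have hkA : G.al k ∈ G.bd (G.vs \ (W \ Y)) := by rw [i5]; exact mem_insert_self _ _
  have hj2 : j2 ∈ G.bd (G.vs \ (W \ Y)) := by rw [i5]; simp
  have hkY : G.pi (G.al k) ∉ Y := fun k1 => (mem_bd.1 q.mkk).2.2 (hY.inA k1)
  have hUA : G.vs \ W ⊆ G.vs \ (W \ Y) := sdiff_subset_sdiff (Subset.refl _) sdiff_subset
  by_cases hsm : (fr ∩ (G.vs \ (W \ Y))).card < fr.card ∨ 3 < (G.vs \ (G.vs \ (W \ Y))).card
  · refine h.e0_bw b q.ha q.haF q.ty q.tb q.hyf (by rw [hAA]; exact s8) (by rw [hAA]; exact s9)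
      (by rw [bd_card_compl hN, s3]) (q.out.trans (card_le_card hUA)) hsm ?_
    intro p hp r hr p1 r1 hpr
    rw [i5] at hp hr
    simp only [mem_insert, mem_singleton] at hp hr
    rcases hp with rfl | rfl | rfl
    · rcases hr with rfl | rfl | rfl
      · rfl
      · exact absurd rfl r1
      · exact absurd (by rw [hpr]; exact i3) hkY
    · exact absurd rfl p1
    · rcases hr with rfl | rfl | rfl
      · exact absurd (by rw [← hpr]; exact i3) hkY
      · exact absurd rfl r1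
      · rfl
  rw [not_or, hAA] at hsm
  obtain ⟨m1, m2⟩ := hsm
  have w3 : (W \ Y).card = 3 := by omega
  have hfA : fr ⊆ G.vs \ (W \ Y) := by
    have k1 : fr ∩ (G.vs \ (W \ Y)) = fr :=
      eq_of_subset_of_card_le inter_subset_left (by omega)
    rw [← k1]
    exact inter_subset_right
  have hfY : ∀ v ∈ W, v ∈ fr → v ∈ Y := by
    intro v v1 v2
    by_contra v3
    exact (mem_sdiff.1 (hfA v2)).2 (mem_sdiff.2 ⟨v1, v3⟩)
  have hkW := (mem_bd.1 q.mkk).2.1
  have hkf : G.pi k ∉ fr := fun k1 => s5 (hfY _ hkW k1)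
  obtain ⟨M2, l1, l2, l3, l4⟩ := hK hkf
  obtain ⟨M1, g1, g2, g3⟩ := q.btk h q.mkk
  have f1 : f ∉ M1 := fun k1 => q.nfk (g3 f q.mf k1)
  have f2 : g ∉ M1 := fun k1 => q.ngk (g3 g q.mg k1)
  have hkW1 : k ∈ G.bd (W \ Y) := mem_bd.2 ⟨(mem_bd.1 q.mkk).1, mem_sdiff.2 ⟨hkW, s5⟩,
    fun k1 => (mem_bd.1 q.mkk).2.2 (mem_sdiff.1 k1).1⟩
  -- no dart of `M1` between the parts
  have hn1 : ∀ d ∈ M1, G.pi d ∈ W \ Y → G.pi (G.al d) ∉ Y := by
    intro d hd hdW hdY
    have k1 : d ∈ G.bd (W \ Y) := mem_bd.2 ⟨(g1.hm.sub d hd).1, hdW, fun k1 =>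
      (mem_sdiff.1 k1).2 hdY⟩
    have k2 : d ≠ k := fun k2 => hkY (k2 ▸ hdY)
    have k3 := g1.hm.par (Y := W \ Y) sdiff_subset
    have k4 : ({d, k} : Finset D) ⊆ (G.bd (W \ Y)).filter fun d => d ∈ M1 := by
      intro x hx
      rw [mem_insert, mem_singleton] at hx
      rcases hx with rfl | rfl
      · exact mem_filter.2 ⟨k1, hd⟩
      · exact mem_filter.2 ⟨hkW1, g2⟩
    have k5 := card_le_card k4
    rw [card_pair k2] at k5
    have k6 : (G.bd (W \ Y)).filter (fun d => d ∈ M1) = G.bd (W \ Y) :=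
      eq_of_subset_of_card_le (filter_subset _ _) (by omega)
    have k7 : ∀ x ∈ G.bd (W \ Y), x ∈ M1 := fun x hx =>
      (mem_filter.1 (by rw [k6]; exact hx : x ∈ (G.bd (W \ Y)).filter fun d => d ∈ M1)).2
    have k8 : (G.bd (W \ Y)).image G.pi = W \ Y := by
      refine eq_of_subset_of_card_le ?_ ?_
      · intro v hv
        obtain ⟨x, hx, rfl⟩ := mem_image.1 hv
        exact (mem_bd.1 hx).2.1
      · rw [card_image_of_injOn fun x hx y hy hxy => g1.hm.uniq (k7 x hx) (k7 y hy) hxy, s3, w3]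
    -- the two darts of an end of the edge
    have key : ∀ c ∈ G.ds, t (G.pi c) = 1 → G.pi c ∈ W \ Y → G.pi (G.al c) ∈ W \ Y →
        ∀ x ∈ G.ds, G.pi x = G.pi c → G.pi (G.al x) ∈ W \ Y → x = c := by
      intro c c1 c2 c3 c4 x x1 x2 x3
      rw [← k8] at c3
      obtain ⟨n, n1, n2⟩ := mem_image.1 c3
      have r1 := hE.deg _ (G.pi_mem c c1)
      rw [c2] at r1
      have r2 : (G.st (G.pi c)).card = 2 := by
        have : ((G.st (G.pi c)).card : ℝ) = (2 : ℕ) := by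
          push_cast
          linarith
        exact_mod_cast this
      have r3 : ({c, n} : Finset D) = G.st (G.pi c) := by
        refine eq_of_subset_of_card_le ?_ ?_
        · intro z hz
          rw [mem_insert, mem_singleton] at hz
          rcases hz with rfl | rfl
          · exact mem_st.2 ⟨c1, rfl⟩
          · exact mem_st.2 ⟨(mem_bd.1 n1).1, n2⟩
        · rw [r2, card_pair fun k => (mem_bd.1 n1).2.2 (by rw [← k]; exact c4)]
      have r4 : x ∈ G.st (G.pi c) := mem_st.2 ⟨x1, x2⟩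
      rw [← r3, mem_insert, mem_singleton] at r4
      rcases r4 with r4 | r4
      · exact r4
      · exact absurd (r4 ▸ x3) (mem_bd.1 n1).2.2
    have r1 := hE.val_eq hN
    rw [s1, w3] at r1
    have r2 : (2 : ℝ) < ((G.ed (W \ Y) (W \ Y)).card : ℝ) := by
      push_cast at r1
      linarith
    have r3 : 2 < (G.ed (W \ Y) (W \ Y)).card := by exact_mod_cast r2
    obtain ⟨x, hx, hxn⟩ : ∃ x ∈ G.ed (W \ Y) (W \ Y), x ∉ ({a, G.al a} : Finset D) := by
      by_contra r4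
      push Not at r4
      have r5 := card_le_card (show G.ed (W \ Y) (W \ Y) ⊆ {a, G.al a} from r4)
      have r6 := card_insert_le a {G.al a}
      rw [card_singleton] at r6
      omega
    rw [mem_insert, mem_singleton, not_or] at hxn
    obtain ⟨x1, x2, x3⟩ := mem_ed.1 hx
    have ha' := G.al_mem a q.ha
    have hyb : G.pi a ≠ G.pi (G.al a) := fun e' => G.noloop a q.ha e'.symm
    have n1 : G.pi x ≠ G.pi a := fun k => hxn.1 (key a q.ha q.ty s8 s9 x x1 k x3)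
    have n2 : G.pi x ≠ G.pi (G.al a) := fun k => hxn.2 (key _ ha' q.tb s9
      (by rw [G.al_al a q.ha]; exact s8) x x1 k x3)
    have n3 : G.pi (G.al x) ≠ G.pi a := fun k => hxn.2 (by
      have := key a q.ha q.ty s8 s9 (G.al x) (G.al_mem x x1) k (by rw [G.al_al x x1]; exact x2)
      rw [← this, G.al_al x x1])
    have n4 : G.pi (G.al x) ≠ G.pi (G.al a) := fun k => hxn.1 (by
      have := key _ ha' q.tb s9 (by rw [G.al_al a q.ha]; exact s8) (G.al x) (G.al_mem x x1) k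
        (by rw [G.al_al x x1]; exact x2)
      exact (al_eq x1 q.ha).1 this)
    have n5 : ((W \ Y) \ {G.pi a, G.pi (G.al a)}).card = 1 := by
      have r5 := card_sdiff_add_card_eq_card
        (insert_subset s8 (singleton_subset_iff.2 s9) : ({G.pi a, G.pi (G.al a)} : Finset V) ⊆ _)
      rw [card_pair hyb, w3] at r5
      omega
    obtain ⟨w, hw⟩ := card_eq_one.1 n5
    have n6 : G.pi x ∈ (W \ Y) \ {G.pi a, G.pi (G.al a)} := mem_sdiff.2 ⟨x2, by
      rw [mem_insert, mem_singleton, not_or]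
      exact ⟨n1, n2⟩⟩
    have n7 : G.pi (G.al x) ∈ (W \ Y) \ {G.pi a, G.pi (G.al a)} := mem_sdiff.2 ⟨x3, by
      rw [mem_insert, mem_singleton, not_or]
      exact ⟨n3, n4⟩⟩
    rw [hw, mem_singleton] at n6 n7
    exact G.noloop x x1 (n7.trans n6.symm)
  have hjY : jm = ∅ ∨ ¬ jm ⊆ Y := q.hjW.imp_right fun k1 k2 => k1 (k2.trans hY.inA)
  have hfbY : f ∈ G.bd Y := mem_bd.2 ⟨(mem_bd.1 q.mf).1, hY.mf, fun k1 => q.hc.u1 (hY.inA k1)⟩
  have hgbY : g ∈ G.bd Y := mem_bd.2 ⟨(mem_bd.1 q.mg).1, hY.mg, fun k1 => q.hc.u2 (hY.inA k1)⟩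
  by_cases hB : ∃ B, Arc2 G fr F Y f g B ∧
      ∀ v ∈ B, v ∉ jm ∧ ∀ d ∈ G.bd Y, d ≠ f → d ≠ g → G.pi d ≠ v
  · -- the arc is replaced
    obtain ⟨B, B1, B2⟩ := hB
    have jb : ∀ j ∈ G.bd (G.vs \ (W \ Y)), G.pi j ∈ Y → G.pi j ∉ B := by
      intro j k1 k2 k3
      have k4 : G.pi (G.al j) ∈ W \ Y := by
        rw [← hAA]
        exact mem_sdiff.2 ⟨G.pi_mem _ (G.al_mem j (mem_bd.1 k1).1), (mem_bd.1 k1).2.2⟩
      have k5 : j ∈ G.bd Y := mem_bd.2 ⟨(mem_bd.1 k1).1, k2, (mem_sdiff.1 k4).2⟩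
      exact (B2 _ k3).2 j k5 (fun k => q.hc.u1 (k ▸ (mem_sdiff.1 k4).1))
        (fun k => q.hc.u2 (k ▸ (mem_sdiff.1 k4).1)) rfl
    have jne : G.pi j1 ≠ G.pi j2 := by
      intro k1
      have k2 := b.hJ hE
      have k3 : G.pi j1 ∉ jm := fun k3 => disjoint_left.1 q.hj k3 (hY.inA i2)
      obtain ⟨j, -, -, -, j4⟩ := hF.exists_jd (hY.sub i2) k3
      have nf : ∀ j ∈ G.bd (G.vs \ (W \ Y)), G.pi j ∈ Y → j ∉ F := by
        intro j l1 l2 l3
        have l4 := b.hF j l3 (mem_bd.1 l1).2.1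
        exact (mem_bd.1 l1).2.2 l4
      exact i4 ((j4 j1 (mem_bd.1 i1).1 rfl (nf j1 i1 i2)).trans
        (j4 j2 (mem_bd.1 hj2).1 k1.symm (nf j2 hj2 i3)).symm)
    have hY4 : 4 ≤ Y.card := by
      have k1 : ({G.pi f, G.pi g} : Finset V) ⊆ B :=
        insert_subset B1.mf (singleton_subset_iff.2 B1.mg)
      have k2 : ({G.pi j1, G.pi j2} : Finset V) ⊆ Y \ B := by
        intro v hv
        rw [mem_insert, mem_singleton] at hv
        rcases hv with rfl | rfl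
        · exact mem_sdiff.2 ⟨i2, jb _ i1 i2⟩
        · exact mem_sdiff.2 ⟨i3, jb _ hj2 i3⟩
      have k3 := card_le_card k1
      have k4 := card_le_card k2
      rw [card_pair (q.cfg h)] at k3
      rw [card_pair jne] at k4
      have := card_sdiff_add_card_eq_card B1.inA
      omega
    have bY : IBlk G t Y 0 := ⟨hYvs, Nat.even_iff.1 he, ⟨_, mem_sdiff.2 ⟨q.hc.hW q.my,
      fun k => q.hyf (hY.sub k)⟩⟩, by rw [hv]; norm_num⟩
    have hsm : (fr ∩ Y).card + 3 < fr.card ∨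
        ((fr ∩ Y).card + 3 ≤ fr.card ∧ Y.card + 4 < G.vs.card) := by
      right
      have k1 := q.fr3 h
      have k2 : (fr ∩ Y).card ≤ (fr ∩ W).card :=
        card_le_card (inter_subset_inter (Subset.refl _) hY.inA)
      have k3 := card_sdiff_add_card_eq_card hY.inA
      have k4 := card_sdiff_add_card_eq_card q.hc.hW
      have k5 := q.out
      omega
    obtain ⟨MY, p1, p2, p3⟩ := h.k1 bY hY4 hfbY hgbY q.hc.ne q.hc.f1 q.hc.f2 hjY
      ⟨B, B1, B2⟩ hsm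
    have hm := g1.hm.repl hY.inA p1.hm p2 hn1
    have hsubY : ∀ X ⊆ fr, X ⊆ W → X ⊆ Y := fun X x1 x2 v hv => hfY v (x2 hv) (x1 hv)
    have hMY : ∀ X ⊆ Y, ∀ d ∈ G.bd X, d ∈ MY ∪ M1.filter (fun d => G.pi d ∈ W \ Y) → d ∈ MY := by
      intro X hX d hd hdM
      rcases mem_union.1 hdM with k1 | k1
      · exact k1
      · exact absurd (hX (mem_bd.1 hd).2.1) (mem_sdiff.1 (mem_filter.1 k1).2).2
    refine q.killK h (M1 := MY ∪ M1.filter fun d => G.pi d ∈ W \ Y)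
      ⟨hm, fun _ _ => one_pos, ?_⟩ ?_ ?_ ?_ l1 l2 l3 l4 (Or.inl ?_)
    · intro X hX hXW hcl
      have k1 := hsubY X hX.sub hXW
      exact p1.ok X hX k1 fun d hd => hMY X k1 d hd (hcl d hd)
    · exact mem_union_right _ (mem_filter.2 ⟨g2, mem_sdiff.2 ⟨hkW, s5⟩⟩)
    · intro k1
      rcases mem_union.1 k1 with k1 | k1
      · exact p2 f hfbY k1
      · exact f1 (mem_filter.1 k1).1
    · intro k1
      rcases mem_union.1 k1 with k1 | k1
      · exact p2 g hgbY k1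
      · exact f2 (mem_filter.1 k1).1
    · intro X1 hX
      obtain ⟨k1, k2⟩ := hX.arcN q.hc hF
      have k3 := hsubY X1 k1.sub k1.inA
      exact p3 X1 ⟨k1.sub, k3, k1.clo, k1.mf, k1.mg⟩ fun d hd d1 d2 =>
        hMY X1 k3 d hd (k2 d hd d1 d2)
  · refine q.killK h g1 g2 f1 f2 l1 l2 l3 l4 (Or.inl fun X1 hX => hB ?_)
    obtain ⟨k1, k2⟩ := hX.arcN q.hc hF
    have k3 : X1 ⊆ Y := fun v hv => hfY v (k1.inA hv) (k1.sub hv)
    refine ⟨X1, ⟨k1.sub, k3, k1.clo, k1.mf, k1.mg⟩, fun v hv => ⟨fun k4 =>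
      disjoint_left.1 q.hj k4 (k1.inA hv), fun d hd d1 d2 hdv => ?_⟩⟩
    obtain ⟨e1, e2, e3⟩ := mem_bd.1 hd
    have e4 : d ∈ G.bd X1 := mem_bd.2 ⟨e1, by rw [hdv]; exact hv, fun k => e3 (k3 k)⟩
    have e5 := k2 d e4 d1 d2
    by_cases e6 : G.pi (G.al d) ∈ W
    · have e7 := g1.hm.clo d e5 e6
      exact hn1 _ e7 (mem_sdiff.2 ⟨e6, e3⟩) (by rw [G.al_al d e1]; exact e2)
    · have e7 : d ∈ G.bd W := mem_bd.2 ⟨e1, hY.inA e2, e6⟩
      rw [q.hbd] at e7
      simp only [mem_insert, mem_singleton] at e7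
      rcases e7 with e7 | e7 | e7
      · exact d1 e7
      · exact d2 e7
      · exact s5 (e7 ▸ e2)

end E1

end MG

end RH
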