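import Pool.Agent.Lib.RH.TplK2

/-! # Three templates for (E0) -/

set_option autoImplicit false

namespace RH

open Finset Classical

namespace Tpl

/-- the middle vertex of the arc has the exit, its neighbours have two-token vertices -/
def in3 : Tpl 5 4 3 where
  a := ![0, 1, 0, 2]
  b := ![1, 2, 3, 4]
  pt := ![0, 2, 1]
  tk := ![0, 0, 0, 2, 2]

/-- adjacent star vertices on the arc, a two-token vertex at the third exit -/
def lk : Tpl 3 1 3 where
  a := ![0]
  b := ![1]
  pt := ![0, 1, 2]
  tk := ![1, 1, 2]

/-- path, one token at the ends, an exit at each vertex -/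
def ek : Tpl 3 2 3 where
  a := ![0, 1]
  b := ![1, 2]
  pt := ![0, 2, 1]
  tk := ![1, 0, 1]

theorem in3_reg : in3.Reg := by decide
theorem lk_reg : lk.Reg := by decide
theorem ek_reg : ek.Reg := by decide

/-- not all three ports -/
def nall : Finset (Finset (Fin 3)) := univ.filter fun κ => κ ≠ univ

theorem in3_tab : in3.Tab 1 5 (one1S 3) (iE nall) (iO univ) where
  t0 := by decide +kernel
  t1 := by decide +kernel
  t2 := by decide +kernel
  t3 := by decide +kernel
  t4 := by decide +kernel

theorem lk_tab : lk.Tab 1 5 (one1S 3) (iE univ) (iO univ) where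
  t0 := by decide +kernel
  t1 := by decide +kernel
  t2 := by decide +kernel
  t3 := by decide +kernel
  t4 := by decide +kernel

theorem ek_tab : ek.Tab 1 7 (one1S 3) (oE univ) (oO 1 univ) where
  t0 := by decide +kernel
  t1 := by decide +kernel
  t2 := by decide +kernel
  t3 := by decide +kernel
  t4 := by decide +kernel

theorem in3_arc : in3.Arc {0, 1, 2} ∅ {0, 1} {0, 1} where
  pe := by decide
  pk := by decide
  two := by decide
  con := by decide
  js := by decide
  one := by decide
  zer := by decide

theorem lk_arc : lk.Arc {0, 1} {0, 1} {0} {0, 1} where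
  pe := by decide
  pk := by decide
  two := by decide
  con := by decide
  js := by decide
  one := by decide
  zer := by decide

theorem in3_pat : ∀ m κ, in3.IsPat m κ → κ = {2} ∧ m = {2, 3} := by decide +kernel

theorem lk_pat : ∀ m κ, lk.IsPat m κ → κ = {2} ∨ κ = univ := by decide +kernel

theorem ek_pat : ∀ m κ, ek.IsPat m κ → κ = {0} ∨ κ = {1} ∨ κ = univ := by decide +kernel

end Tpl

end RH
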