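import Pool.Agent.Lib.RH.E0G1
import Pool.Agent.Lib.RH.E0GT

/-! # (E0), odd crossed blocking sets with three exits: the outer arc gadget

`E1.dead`: no outer half uses exactly `f`; `E1.outK2`: the outer half with exactly `k`; `E1.fw3`: three
fresh vertices inside. `E1.useK3`: the outer arc gadget kills, if no closed part has a star vertex.
`E1.ex6`: the exceptional outer side; `E1.ex6s`: it is not small. -/

set_option autoImplicit false

namespace RH

open Finset Classical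

namespace MG

variable {V D : Type*} {G : MG V D} {z : D → ℝ} {t : V → ℝ} {fr : Finset V} {F : Finset D}
variable {jm A W X Y N S U : Finset V} {e d d' a u f g k : D} {T M M1 M2 : Finset D}
variable {kk : ℝ}

/-- one vertex is added to a half matching -/
theorem HM.ins {A2 : Finset V} {o : V} {n : D} (h1 : G.HM A2 M) (ho : o ∉ A2) (n1 : n ∈ G.ds)
    (n2 : G.pi n = o) (n3 : G.pi (G.al n) ∈ A2 → G.al n ∈ M)
    (n4 : ∀ d ∈ M, G.pi (G.al d) = o → G.al d = n) : G.HM (insert o A2) (insert n M) where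
  sub := by
    intro d hd
    rcases mem_insert.1 hd with rfl | hd
    · exact ⟨n1, by rw [n2]; exact mem_insert_self _ _⟩
    · exact ⟨(h1.sub d hd).1, mem_insert_of_mem (h1.sub d hd).2⟩
  clo := by
    intro d hd hp
    rcases mem_insert.1 hd with rfl | hd
    · rcases mem_insert.1 hp with hp | hp
      · exact absurd (hp.trans n2.symm) (G.noloop d n1)
      · exact mem_insert_of_mem (n3 hp)
    · rcases mem_insert.1 hp with hp | hp
      · rw [n4 d hd hp]
        exact mem_insert_self _ _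
      · exact mem_insert_of_mem (h1.clo d hd hp)
  one := by
    intro v hv
    rcases mem_insert.1 hv with rfl | hv
    · rw [card_eq_one]
      refine ⟨n, ?_⟩
      ext d
      rw [mem_filter, mem_singleton, mem_insert]
      constructor
      · rintro ⟨k1 | k1, k2⟩
        · exact k1
        · exact absurd (by rw [← k2]; exact (h1.sub d k1).2) ho
      · rintro rfl
        exact ⟨Or.inl rfl, n2⟩
    · rw [← h1.one v hv]
      congr 1
      ext d
      rw [mem_filter, mem_filter, mem_insert]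
      constructor
      · rintro ⟨k1 | k1, k2⟩
        · refine absurd hv ?_
          rw [← k2, k1, n2]
          exact ho
        · exact ⟨k1, k2⟩
      · rintro ⟨k1, k2⟩
        exact ⟨Or.inr k1, k2⟩

namespace E1

variable (q : E1 G t fr F jm W a f g k)
include q

/-- no outer half with exactly `f` -/
theorem dead [Infinite V] [Infinite D] (h : X6 G t fr F jm)
    (h2 : G.GHalf one1 fr F jm (G.vs \ W) M2)
    (m1 : G.al f ∈ M2) (m2 : G.al g ∉ M2) (m3 : G.al k ∉ M2) : False := by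
  have hE := h.toEK
  by_cases hn : G.pi k ∉ fr ∨ G.pi (G.al k) ∉ fr
  · exact q.dead1 h hn h2 m1 m2 m3
  rw [not_or, not_not, not_not] at hn
  have hfr3 := q.fr3 h
  rcases h.lf q.iblk q.mf q.mg (q.cfg h) q.hc.f1 q.hc.f2 q.hj
    (fun d hd hdW => q.hc.only d hd (mem_bd.1 hdW).2.1 (mem_bd.1 hdW).2.2)
    q.mkk q.kF hn.1 (fun d hd d1 d2 _ => by
      rw [q.hbd] at hd
      simp only [mem_insert, mem_singleton] at hd
      rcases hd with hd | hd | hd
      · exact absurd hd d1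
      · exact absurd hd d2
      · exact hd)
    (fun Y hY he => q.hE4 h (fun k1 => absurd hn.1 k1) hY he)
    (Or.inl (by omega)) with ⟨M1, g1, g2, g3, g4⟩ | ⟨p, p1, -⟩
  · have n2 : g ∉ M1 := fun k1 => q.hc.ne (g3 g q.mg k1).symm
    have n3 : k ∉ M1 := fun k1 => q.nfk (g3 k q.mkk k1).symm
    refine h.glueK (k := k) q.hc g1 h2 ?_ q.hj ?_ g4
    · intro d hd
      rw [q.hbd] at hd
      simp only [mem_insert, mem_singleton] at hd
      rcases hd with rfl | rfl | rfl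
      · exact ⟨fun _ => m1, fun _ => g2⟩
      · exact ⟨fun k1 => absurd k1 n2, fun k1 => absurd k1 m2⟩
      · exact ⟨fun k1 => absurd k1 n3, fun k1 => absurd k1 m3⟩
    · intro d hd hdF _
      rw [q.hbd] at hd
      simp only [mem_insert, mem_singleton] at hd
      rcases hd with rfl | rfl | rfl
      · exact absurd q.hc.f1 hdF
      · exact absurd q.hc.f2 hdF
      · rfl
  · have h3 := p1.tok _ q.my (by rw [q.ty]; norm_num)
    have h4 := p1.tok _ q.mb (by rw [q.tb]; norm_num)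
    have h5 := p1.jq a q.ha q.my q.mb one_pos q.haF
    rw [h3, h4] at h5
    norm_num at h5

/-- **the outer ends of `f` and `k` are different** -/
theorem ofk [Infinite V] [Infinite D] (h : X6 G t fr F jm) :
    G.pi (G.al f) ≠ G.pi (G.al k) := by
  intro hfk
  have hE := h.toEK
  have hF := h.fresh
  obtain ⟨o, hod⟩ : ∃ o, o = G.pi (G.al f) := ⟨_, rfl⟩
  have ho : o ∈ G.vs \ W := by rw [hod]; exact (mem_bd.1 q.mf').2.1
  have hoW := (mem_sdiff.1 ho).2
  obtain ⟨h1, h1v, h1c⟩ := q.one2 hE ho (qx2o q.mf' q.mk' q.ne2 (mem_singleton.2 hod.symm)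
    (mem_singleton.2 (by rw [hod]; exact hfk.symm)))
  have hX : ({o} : Finset V) ⊆ G.vs \ W := singleton_subset_iff.2 ho
  obtain ⟨N, hN⟩ : ∃ N, N = {o} ∪ W := ⟨_, rfl⟩
  rw [← hN] at h1v h1c
  have hNv : N ⊆ G.vs := by rw [hN]; exact q.su hX
  have hWN : W ⊆ N := by rw [hN]; exact subset_union_right
  have oN : o ∈ N := by rw [hN]; exact mem_union_left _ (mem_singleton_self _)
  have mN : ∀ v, v ∈ N ↔ v = o ∨ v ∈ W := by
    intro v
    rw [hN, mem_union, mem_singleton]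
  have hWo := Nat.odd_iff.1 q.odd
  have hbig := q.big
  have hNe : Even N.card := by rw [Nat.even_iff]; omega
  have hofr : o ∈ fr := by rw [hod]; exact q.of' hE
  have alk : G.al k ∉ F := fun k1 => q.kF (by
    have := hF.Fal _ k1
    rwa [G.al_al k (mem_bd.1 q.mkk).1] at this)
  have hoj : o ∉ jm := fun k1 => alk (hF.j0 o k1 _ (mem_st.2 ⟨(mem_bd.1 q.mk').1, by
    rw [hod]; exact hfk.symm⟩))
  have to0 : t o = 0 := by rw [hE.tok_fr hofr, if_neg hoj]
  have tN : ∑ v ∈ N, t v = 2 := by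
    rw [hN, sum_union (disjoint_left.2 fun v hv hv' => by
      rw [mem_singleton] at hv
      exact hoW (hv ▸ hv')), sum_singleton, to0, q.tw]
    norm_num
  have bN : (G.bd N).card = 2 := by
    have k1 := h1v
    rw [val_one, tN] at k1
    have k2 : ((G.bd N).card : ℝ) = (2 : ℕ) := by
      push_cast
      linarith
    exact_mod_cast k2
  obtain ⟨d2, c1, c2, c3, c4, c5⟩ := q.hc.next hF (q.ofg h)
  rw [← hod] at c2
  have d2s := hF.Fsub c1
  have c6 : G.pi (G.al d2) ≠ o := fun k1 => G.noloop d2 d2s (by rw [k1, c2])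
  have c7 : G.pi (G.al d2) ∉ N := fun k1 => ((mN _).1 k1).elim c6 c5
  have gN : G.pi (G.al g) ∉ N := fun k1 => ((mN _).1 k1).elim
    (fun k2 => q.ofg h (by rw [← hod, k2])) q.hc.u2
  have m1 : g ∈ G.bd N := mem_bd.2 ⟨(mem_bd.1 q.mg).1, hWN q.hc.w2, gN⟩
  have m2 : d2 ∈ G.bd N := mem_bd.2 ⟨d2s, by rw [c2]; exact oN, c7⟩
  have gd : g ≠ d2 := fun k1 => hoW (by rw [← c2, ← k1]; exact q.hc.w2)
  have hbN : G.bd N = {g, d2} := by
    refine (eq_of_subset_of_card_le ?_ ?_).symm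
    · intro x hx
      rw [mem_insert, mem_singleton] at hx
      rcases hx with rfl | rfl
      · exact m1
      · exact m2
    · rw [bN, card_pair gd]
  have hcN : G.FC F N g d2 := ⟨hNv, gd, q.hc.f2, c1, hWN q.hc.w2, by rw [c2]; exact oN, gN, c7,
    fun d hd k1 k2 => by
      have k3 : d ∈ G.bd N := mem_bd.2 ⟨hF.Fsub hd, k1, k2⟩
      rw [hbN, mem_insert, mem_singleton] at k3
      exact k3⟩
  have hends := hcN.ends hE hNe ⟨o, oN⟩ h1v
  obtain ⟨hpp, hpi⟩ := hcN.outer hbN hF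
  have hU : G.vs \ (G.vs \ N) = N := Finset.sdiff_sdiff_eq_self hNv
  have bo : OBl G t (G.vs \ N) 0 := ⟨sdiff_subset, by rw [hU]; exact Nat.even_iff.1 hNe,
    by rw [hU]; omega, by rw [hU, h1v]; norm_num⟩
  obtain ⟨M, m, l1, l2⟩ := h.tplU bo Tpl.pq_reg Tpl.pq_tab (by norm_num) (by decide) rfl
    Tpl.pq_noC hpp hpi (Or.inr (by rw [hU]; omega))
    (fun v _ => by
      unfold Tpl.one1S
      rw [mem_filter]
      refine ⟨mem_univ _, card_le_one.2 fun i hi j hj => ?_⟩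
      unfold TOk.kap at hi hj
      have hi' := mem_singleton.1 (mem_filter.1 hi).2
      have hj' := mem_singleton.1 (mem_filter.1 hj).2
      fin_cases i <;> fin_cases j
      · rfl
      · exact absurd (hi'.trans hj'.symm) hends
      · exact absurd (hj'.trans hi'.symm) hends
      · rfl)
    (fun _ _ _ _ _ _ => mem_univ _) (fun _ _ _ _ _ _ => mem_univ _)
  have oA : o ∉ G.vs \ N := fun k1 => (mem_sdiff.1 k1).2 oN
  have hins : insert o (G.vs \ N) = G.vs \ W := by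
    ext v
    rw [mem_insert, mem_sdiff, mem_sdiff, mN]
    constructor
    · rintro (k1 | ⟨k1, k2⟩)
      · rw [k1]
        exact ⟨(mem_sdiff.1 ho).1, hoW⟩
      · exact ⟨k1, fun k3 => k2 (Or.inr k3)⟩
    · rintro ⟨k1, k2⟩
      by_cases k3 : v = o
      · exact Or.inl k3
      · exact Or.inr ⟨k1, fun k4 => k4.elim k3 k2⟩
  have nM : ∀ d ∈ M, G.pi d ≠ o := fun d hd k1 => oA (by rw [← k1]; exact (l1.hm.sub d hd).2)
  have toO : ∀ d ∈ M, G.pi (G.al d) = o → d = G.al d2 := by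
    intro d hd hp
    have k1 : d ∈ G.bd (G.vs \ N) := mem_bd.2 ⟨(l1.hm.sub d hd).1, (l1.hm.sub d hd).2, by
      rw [hp]; exact oA⟩
    rw [hpp, mem_image] at k1
    obtain ⟨i, -, hi⟩ := k1
    fin_cases i
    · exfalso
      have hi' : G.al g = d := hi
      rw [← hi', G.al_al g (mem_bd.1 q.mg).1] at hp
      exact hoW (by rw [← hp]; exact q.hc.w2)
    · exact hi.symm
  have okk : ∀ n, G.pi n = o → G.HM (insert o (G.vs \ N)) (insert n M) →
      G.GHalf one1 fr F jm (G.vs \ W) (insert n M) := by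
    intro n hn hm
    rw [hins] at hm
    refine ⟨hm, fun _ _ => one_pos, fun X hX hXU hcl => ?_⟩
    have k1 : o ∉ X := by
      intro k1
      have k2 := hX.clo _ (hF.Fal f q.hc.f1) (by rw [← hod]; exact k1)
      rw [G.al_al f (mem_bd.1 q.mf).1] at k2
      exact (mem_sdiff.1 (hXU k2)).2 q.hc.w1
    refine l1.ok X hX (fun v hv => ?_) fun d hd => ?_
    · have k2 := hXU hv
      rw [← hins] at k2
      rcases mem_insert.1 k2 with k3 | k3
      · exact absurd (k3 ▸ hv) k1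
      · exact k3
    · rcases mem_insert.1 (hcl d hd) with k2 | k2
      · exact absurd (by rw [← hn, ← k2]; exact (mem_bd.1 hd).2.1) k1
      · exact k2
  have alf : G.pi (G.al f) = o := hod.symm
  have alko : G.pi (G.al k) = o := by rw [hod]; exact hfk.symm
  have a1 := G.al_al f (mem_bd.1 q.mf).1
  have cc : ∀ i, ![G.al g, G.al d2] i ∈ M ↔ i ∈ univ.filter fun i => ![G.al g, G.al d2] i ∈ M :=
    fun i => by
      rw [mem_filter]
      exact ⟨fun k => ⟨mem_univ _, k⟩, fun k => k.2⟩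
  have cc0 := cc 0
  have cc1 := cc 1
  change G.al g ∈ M ↔ _ at cc0
  change G.al d2 ∈ M ↔ _ at cc1
  rcases Tpl.pq_pat _ _ l2 with l4 | l4
  · rw [l4] at cc0 cc1
    have g0 : G.al g ∉ M := fun k1 => notMem_empty _ (cc0.1 k1)
    have g1 : G.al d2 ∉ M := fun k1 => notMem_empty _ (cc1.1 k1)
    have hm := l1.hm.ins oA (mem_bd.1 q.mf').1 alf (fun k1 => by
      rw [a1] at k1
      exact absurd (hWN q.hc.w1) (mem_sdiff.1 k1).2) fun d hd hp => by
        exact absurd (toO d hd hp ▸ hd) g1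
    refine q.dead h (okk _ alf hm) (mem_insert_self _ _) (fun k1 => ?_) fun k1 => ?_
    · rcases mem_insert.1 k1 with k2 | k2
      · exact q.ne1 k2.symm
      · exact g0 k2
    · rcases mem_insert.1 k1 with k2 | k2
      · exact q.ne2 k2.symm
      · exact nM _ k2 alko
  · rw [l4] at cc0 cc1
    have g0 : G.al g ∈ M := cc0.2 (by decide)
    have g1 : G.al d2 ∈ M := cc1.2 (by decide)
    have hm := l1.hm.ins oA d2s c2 (fun _ => g1) fun d hd hp => by
      rw [toO d hd hp, G.al_al d2 d2s]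
    refine q.sw.dead h (okk _ c2 hm) (mem_insert_of_mem g0) (fun k1 => ?_) fun k1 => ?_
    · rcases mem_insert.1 k1 with k2 | k2
      · exact c3 k2.symm
      · exact nM _ k2 alf
    · rcases mem_insert.1 k1 with k2 | k2
      · exact alk (by rw [k2]; exact c1)
      · exact nM _ k2 alko

theorem outK2 [Infinite V] [Infinite D] (h : X6 G t fr F jm)
    (m0 : ∀ X ⊆ G.vs \ W, Even X.card → G.val one1 t X = 4 → G.pi (G.al k) ∈ X →
      G.pi (G.al g) ∉ X) :
    ∃ M2, G.GHalf one1 fr F jm (G.vs \ W) M2 ∧ G.al k ∈ M2 ∧ G.al f ∉ M2 ∧ G.al g ∉ M2 :=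
  q.outK h (q.ofk h) (q.sw.ofk h) m0 (fun M2 h2 m1 m2 m3 => q.dead h h2 m1 m2 m3)
    fun M2 h2 m1 m2 m3 => q.sw.dead h h2 m1 m2 m3

theorem noE4 [Infinite V] [Infinite D] (h : X6 G t fr F jm)
    (m0 : ∀ X ⊆ G.vs \ W, Even X.card → G.val one1 t X = 4 → G.pi (G.al k) ∈ X →
      G.pi (G.al g) ∉ X) (hY : Arc2 G fr F W f g Y)
    (he : Even Y.card) : G.val one1 t Y ≠ 4 :=
  q.hE4 h (fun _ => q.outK2 h m0) hY he

/-- three fresh vertices inside -/
theorem fw3 [Infinite V] [Infinite D] (h : X6 G t fr F jm)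
    (m0 : ∀ X ⊆ G.vs \ W, Even X.card → G.val one1 t X = 4 → G.pi (G.al k) ∈ X →
      G.pi (G.al g) ∉ X) : 3 ≤ (fr ∩ W).card := by
  have hE := h.toEK
  have hF := h.fresh
  by_contra hcon
  have hne := q.cfg h
  have hpair : ({G.pi f, G.pi g} : Finset V) ⊆ fr ∩ W := by
    intro v hv
    rw [mem_insert, mem_singleton] at hv
    rcases hv with rfl | rfl
    · exact mem_inter.2 ⟨hF.Ffr f q.hc.f1, q.hc.w1⟩
    · exact mem_inter.2 ⟨hF.Ffr g q.hc.f2, q.hc.w2⟩
  have hXd : ({G.pi f, G.pi g} : Finset V) = fr ∩ W :=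
    eq_of_subset_of_card_le hpair (by rw [card_pair hne]; omega)
  have hXc : (fr ∩ W).card = 2 := by rw [← hXd, card_pair hne]
  have mf : G.pi f ∈ fr ∩ W := by rw [← hXd]; exact mem_insert_self _ _
  have hcs := q.hc.symm hF
  have a1 := G.al_al f (mem_bd.1 q.mf).1
  have a2 := G.al_al g (mem_bd.1 q.mg).1
  obtain ⟨d1, c1, c2, c3, c4, c5⟩ := hcs.next hF (by rw [a1, a2]; exact hne)
  rw [a1] at c2
  have d1s := hF.Fsub c1
  have c6 : G.pi (G.al d1) ∈ fr ∩ W := by
    refine mem_inter.2 ⟨c4, ?_⟩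
    by_contra k1
    exact c5 (mem_sdiff.2 ⟨hF.fsub c4, k1⟩)
  have hed : ({d1, G.al d1} : Finset D) ⊆ G.ed (fr ∩ W) (fr ∩ W) := by
    intro d hd
    rw [mem_insert, mem_singleton] at hd
    rcases hd with rfl | rfl
    · exact mem_ed.2 ⟨d1s, by rw [c2]; exact mf, c6⟩
    · exact mem_ed.2 ⟨G.al_mem _ d1s, c6, by rw [G.al_al _ d1s, c2]; exact mf⟩
  have hed2 := card_le_card hed
  rw [card_pair fun k => G.noloop d1 d1s (by rw [← k])] at hed2
  have hed2' : ((2 : ℕ) : ℝ) ≤ ((G.ed (fr ∩ W) (fr ∩ W)).card : ℝ) := by exact_mod_cast hed2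
  have hv1 := hE.val_eq (X := fr ∩ W) (inter_subset_right.trans q.hc.hW)
  rw [hXc] at hv1
  push_cast at hv1 hed2'
  have he : Even (fr ∩ W).card := by rw [hXc]; exact even_two
  have h4 := hE.evn (fr ∩ W) (inter_subset_right.trans q.hc.hW) he ⟨_, mf⟩ (fun k1 => by
    have := q.hc.hW q.my
    rw [← k1] at this
    exact q.hyf (mem_inter.1 this).1)
  exact q.noE4 h m0 (q.hc.arc2 hF) he (by linarith)

/-- **the outer arc gadget** -/
theorem useK3 [Infinite V] [Infinite D] (h : X6 G t fr F jm)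
    (m0 : ∀ X ⊆ G.vs \ W, Even X.card → G.val one1 t X = 4 → G.pi (G.al k) ∈ X →
      G.pi (G.al g) ∉ X)
    (hl : ∀ M2, G.HM (G.vs \ W) M2 → ∀ X, G.Adm fr F X → X ⊆ G.vs \ W →
      (∀ d ∈ G.bd X, d ∈ M2) → X ∩ jm = ∅)
    (hl2 : ∀ M2, G.HM (G.vs \ W) M2 → G.al f ∉ M2 → G.al g ∉ M2 → ∀ X,
      G.ArcC fr F M2 (G.vs \ W) X (G.al f) → X ∩ jm = ∅)
    (hB : ∃ B, Arc2 G fr F (G.vs \ W) (G.al f) (G.al g) B ∧ ∀ v ∈ B, v ∉ jm)
    (h6 : ∀ Y, Arc2 G fr F (G.vs \ W) (G.al f) (G.al g) Y → Odd Y.card →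
      G.pi (G.al k) ∈ Y → G.val one1 t Y ≠ 5) : False := by
  have hE := h.toEK
  have hF := h.fresh
  have w3 := q.fw3 h m0
  have hcs := q.hc.symm hF
  have hsm : (fr ∩ (G.vs \ W)).card + 3 < fr.card ∨
      ((fr ∩ (G.vs \ W)).card + 3 ≤ fr.card ∧ (G.vs \ W).card + 3 < G.vs.card) := by
    right
    have k1 : fr ∩ (G.vs \ W) = fr \ W := by
      ext v
      rw [mem_inter, mem_sdiff, mem_sdiff]
      exact ⟨fun k => ⟨k.1, k.2.2⟩, fun k => ⟨k.1, hF.fsub k.1, k.2⟩⟩
    have k2 := card_inter_add_card_sdiff fr W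
    have k3 := card_sdiff_add_card_eq_card q.hc.hW
    have k4 := q.big
    rw [k1]
    omega
  obtain ⟨M, m1, ⟨d, d1, d2, d3⟩, m3⟩ := h.k3 q.obl q.bd' q.ne2 (hF.Fal f q.hc.f1)
    (hF.Fal g q.hc.f2) (q.ofg h) (q.sw.ofk h)
    (fun X hX he hv hg hk => m0 X hX he hv hk hg) h6 hB hsm
  have nodrop : ∀ d, ¬ Drop G (G.vs \ W) ![G.al f, G.al g, G.al k] d := by
    rintro d ⟨k1, k2⟩
    rw [q.bd'] at k1
    simp only [mem_insert, mem_singleton] at k1
    rcases k1 with rfl | rfl | rfl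
    · exact k2 0 rfl
    · exact k2 1 rfl
    · exact k2 2 rfl
  have hh : G.GHalf one1 fr F jm (G.vs \ W) M := by
    refine ⟨m1.hm, fun _ _ => one_pos, fun X hX hXU hcl => ?_⟩
    have k1 := hl M m1.hm X hX hXU hcl
    obtain ⟨k2, -⟩ := m1.st X hX hXU (fun d hd => Or.inl (hcl d hd)) fun v hv =>
      Or.inr ⟨fun k3 => by
        have : v ∈ X ∩ jm := mem_inter.2 ⟨hv, k3⟩
        rw [k1] at this
        exact notMem_empty v this, fun d hd => absurd hd (nodrop d)⟩
    refine ⟨k2, fun k3 => ?_⟩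
    obtain ⟨⟨v, hv⟩, k4⟩ := k3
    have : v ∈ X ∩ jm := mem_inter.2 ⟨k4 hv, hv⟩
    rw [k1] at this
    exact notMem_empty v this
  have nf : ∀ x ∈ G.bd (G.vs \ W), x ≠ d → x ∉ M := fun x hx hn hM => hn (d3 x hx hM)
  have d1' := d1
  rw [q.bd'] at d1'
  simp only [mem_insert, mem_singleton] at d1'
  rcases d1' with rfl | rfl | rfl
  · exact q.dead h hh d2 (nf _ q.mg' q.ne1.symm) (nf _ q.mk' q.ne2.symm)
  · exact q.sw.dead h hh d2 (nf _ q.mf' q.ne1) (nf _ q.mk' q.ne3.symm)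
  · have n1 := nf _ q.mf' q.ne2
    have n2 := nf _ q.mg' q.ne3
    obtain ⟨M1, g1, g2, g3⟩ := q.btk h q.mkk
    refine q.killK h g1 g2 (fun k1 => q.nfk (g3 f q.mf k1)) (fun k1 => q.ngk (g3 g q.mg k1))
      hh d2 n1 n2 (Or.inr fun X2 hX => ?_)
    obtain ⟨k1, k2⟩ := hX.arcN hcs hF
    have k3 := hl2 M m1.hm n1 n2 X2 hX
    exact m3 d2 X2 k1 (fun v hv k4 => by
      have : v ∈ X2 ∩ jm := mem_inter.2 ⟨hv, k4⟩
      rw [k3] at this
      exact notMem_empty v this) k2

/-- the exceptional outer side -/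
theorem ex6 [Infinite V] [Infinite D] (h' : X6 G t fr F jm)
    (hY : Arc2 G fr F (G.vs \ W) (G.al f) (G.al g) Y)
    (ho : Odd Y.card) (hk : G.pi (G.al k) ∈ Y) (hv : G.val one1 t Y = 5) :
    jm = ∅ ∧ (∀ v ∈ G.vs \ (Y ∪ W), t v = 2) ∧ (G.vs \ (Y ∪ W)).card = 2 ∧
      ∑ v ∈ Y, t v = 0 ∧ (G.bd Y).card = 5 := by
  have h := h'.toEK
  have hF := h.fresh
  have hq := qx3o q.mf' q.mg' q.mk' q.ne1 q.ne2 q.ne3 hY.mf hY.mg hk
  have hq' : ((3 : ℕ) : ℝ) ≤ (qx G (G.vs \ W) Y : ℝ) := by exact_mod_cast hq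
  push_cast at hq'
  have h1 := q.jn h hY.inA
  have hcu := q.cu hY.inA
  have hu := q.uc hY.inA
  have hYo := Nat.odd_iff.1 ho
  have hWo := Nat.odd_iff.1 q.odd
  have hUo := q.oU h
  have htU : ∑ v ∈ G.vs \ W, t v = 4 := by
    have k1 := sum_sdiff q.hc.hW (f := t)
    rw [q.tw, h.tau] at k1
    linarith
  have hne : Y ∪ W ≠ G.vs := by
    intro k1
    have k2 : G.vs \ W = Y := by
      rw [← k1, union_sdiff_right]
      exact sdiff_eq_self_of_disjoint (disjoint_left.2 fun v hv hv' =>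
        (mem_sdiff.1 (hY.inA hv)).2 hv')
    have k3 := hv
    rw [val_one, ← k2, htU, bd_card_compl q.hc.hW, q.bdc] at k3
    norm_num at k3
  have h4 := h.evn _ (q.su hY.inA) (by rw [hcu, Nat.even_iff]; omega)
    ⟨_, mem_union_right _ q.my⟩ hne
  have h5 : G.val one1 t (Y ∪ W) = 4 := by linarith
  have h6 : ∀ v ∈ G.vs \ (Y ∪ W), t v = 2 := by
    by_contra hout
    push Not at hout
    have hbig := q.big
    refine h'.e0_even q.ha q.ty q.tb q.hyf (q.su hY.inA) (mem_union_right _ q.my)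
      (mem_union_right _ q.mb) (by omega) (by rw [hcu, Nat.even_iff]; omega) h5 ?_ hout
    intro d hd hp
    rcases mem_union.1 hp with hp | hp
    · rcases hY.clo d hd hp with k1 | k1 | k1
      · exact mem_union_left _ k1
      · rw [k1, G.al_al f (mem_bd.1 q.mf).1]
        exact mem_union_right _ q.hc.w1
      · rw [k1, G.al_al g (mem_bd.1 q.mg).1]
        exact mem_union_right _ q.hc.w2
    · by_cases k1 : G.pi (G.al d) ∈ W
      · exact mem_union_right _ k1
      · rcases q.hc.only d hd hp k1 with k2 | k2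
        · rw [k2]
          exact mem_union_left _ hY.mf
        · rw [k2]
          exact mem_union_left _ hY.mg
  have hsub : G.vs \ (Y ∪ W) ⊆ G.vs \ W := sdiff_subset_sdiff (Subset.refl _) subset_union_right
  have hY2 : (G.vs \ W) \ (G.vs \ (Y ∪ W)) = Y := by
    ext v
    rw [mem_sdiff, mem_sdiff, mem_sdiff, mem_union]
    constructor
    · rintro ⟨⟨k1, k2⟩, k3⟩
      by_contra k4
      exact k3 ⟨k1, fun k5 => k5.elim k4 k2⟩
    · intro k1
      have := mem_sdiff.1 (hY.inA k1)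
      exact ⟨this, fun k2 => k2.2 (Or.inl k1)⟩
  have h7 := sum_sdiff hsub (f := t)
  rw [hY2, htU, sum_congr rfl h6, sum_const, nsmul_eq_mul] at h7
  have h8 : 0 ≤ ∑ v ∈ Y, t v := sum_nonneg fun v hv => h.t0 v (mem_sdiff.1 (hY.inA hv)).1
  have h9 : 0 < (G.vs \ (Y ∪ W)).card := by
    rw [card_pos, nonempty_iff_ne_empty]
    intro k1
    exact hne (Subset.antisymm (q.su hY.inA) (sdiff_eq_empty_iff_subset.1 k1))
  have h10 : ((G.vs \ (Y ∪ W)).card : ℝ) ≤ (2 : ℕ) := by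
    push_cast
    linarith
  have h11 : (G.vs \ (Y ∪ W)).card ≤ 2 := by exact_mod_cast h10
  have h12 : (G.vs \ (Y ∪ W)).card = 2 := by omega
  rw [h12] at h7
  push_cast at h7
  have h13 : ∑ v ∈ Y, t v = 0 := by linarith
  refine ⟨?_, h6, h12, h13, ?_⟩
  · by_contra hj
    obtain ⟨v, hv'⟩ := nonempty_iff_ne_empty.2 hj
    have k1 := hF.t_jm h.wt hv'
    have k2 : v ∉ Y := by
      intro k2
      have k3 : t v ≤ ∑ v ∈ Y, t v := single_le_sum
        (fun w hw => h.t0 w (mem_sdiff.1 (hY.inA hw)).1) k2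
      rw [k1, h13] at k3
      norm_num at k3
    have k3 : v ∉ W := fun k3 => disjoint_left.1 q.hj hv' k3
    have k4 := h6 v (mem_sdiff.2 ⟨hF.fsub (hF.jms hv'), fun k5 => (mem_union.1 k5).elim k2 k3⟩)
    rw [k1] at k4
    norm_num at k4
  · rw [val_one, h13] at hv
    have k2 : ((G.bd Y).card : ℝ) = (5 : ℕ) := by
      push_cast
      linarith
    exact_mod_cast k2

/-- the exceptional outer side is not small -/
theorem ex6s [Infinite V] [Infinite D] (h' : X6 G t fr F jm)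
    (hY : Arc2 G fr F (G.vs \ W) (G.al f) (G.al g) Y)
    (ho : Odd Y.card) (hk : G.pi (G.al k) ∈ Y) (hv : G.val one1 t Y = 5) : 5 ≤ Y.card := by
  have h := h'.toEK
  have hF := h.fresh
  obtain ⟨s1, s2, s3, s4, s5⟩ := q.ex6 h' hY ho hk hv
  have hYo := Nat.odd_iff.1 ho
  have hne := q.ofg h'
  have hY2 : 2 ≤ Y.card := by
    have k1 := card_le_card (insert_subset hY.mf (singleton_subset_iff.2 hY.mg))
    rwa [card_pair hne] at k1
  by_contra hcon
  have y3 : Y.card = 3 := by omega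
  have nfY : ∀ d ∈ G.bd Y, d ∈ F → d = G.al f ∨ d = G.al g := by
    intro d hd hdF
    rcases hY.clo d hdF (mem_bd.1 hd).2.1 with k1 | k1
    · exact absurd k1 (mem_bd.1 hd).2.2
    · exact k1
  -- all J-darts leave
  have jall : ∀ v ∈ Y, ∃ j ∈ G.bd Y, j ∉ F ∧ G.pi j = v := by
    have k1 := card_filter_add_card_filter_not (s := G.bd Y) (fun d => d ∈ F)
    have k2 : ((G.bd Y).filter fun d => d ∈ F).card ≤ 2 := by
      refine (card_le_card (fun d hd => ?_ : _ ⊆ ({G.al f, G.al g} : Finset D))).trans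
        (card_le_two)
      rw [mem_insert, mem_singleton]
      exact nfY d (mem_filter.1 hd).1 (mem_filter.1 hd).2
    have k3 : 3 ≤ ((G.bd Y).filter fun d => ¬ d ∈ F).card := by omega
    have k4 : (((G.bd Y).filter fun d => ¬ d ∈ F).image G.pi) = Y := by
      refine eq_of_subset_of_card_le ?_ ?_
      · intro v hv
        obtain ⟨x, hx, rfl⟩ := mem_image.1 hv
        exact (mem_bd.1 (mem_filter.1 hx).1).2.1
      · rw [card_image_of_injOn, y3]
        · exact k3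
        · intro x hx y hy hxy
          obtain ⟨x1, x2⟩ := mem_filter.1 (mem_coe.1 hx)
          obtain ⟨y1, y2⟩ := mem_filter.1 (mem_coe.1 hy)
          have l1 : G.pi x ∉ jm := by rw [s1]; exact notMem_empty _
          obtain ⟨j, -, -, -, j4⟩ := hF.exists_jd (hY.sub (mem_bd.1 x1).2.1) l1
          exact (j4 x (mem_bd.1 x1).1 rfl x2).trans (j4 y (mem_bd.1 y1).1 hxy.symm y2).symm
    intro v hv
    rw [← k4] at hv
    obtain ⟨x, hx, hxv⟩ := mem_image.1 hv
    exact ⟨x, (mem_filter.1 hx).1, (mem_filter.1 hx).2, hxv⟩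
  -- J-darts of `Y` are `al k` or go to two-token vertices
  have jd : ∀ d ∈ G.ds, d ∉ F → G.pi d ∈ Y → d ≠ G.al k → t (G.pi (G.al d)) = 2 := by
    intro d d1 d2 d3 d4
    obtain ⟨j, j1, j2, j3⟩ := jall _ d3
    have l1 : G.pi d ∉ jm := by rw [s1]; exact notMem_empty _
    obtain ⟨j', -, -, -, j4⟩ := hF.exists_jd (hY.sub d3) l1
    have l2 : d = j := (j4 d d1 rfl d2).trans (j4 j (mem_bd.1 j1).1 j3 j2).symm
    have l3 : G.pi (G.al d) ∉ Y := by rw [l2]; exact (mem_bd.1 j1).2.2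
    refine s2 _ (mem_sdiff.2 ⟨G.pi_mem _ (G.al_mem d d1), fun k1 => ?_⟩)
    rcases mem_union.1 k1 with k1 | k1
    · exact l3 k1
    · have l4 : d ∈ G.bd (G.vs \ W) := mem_bd.2 ⟨d1, hY.inA d3, fun k2 => (mem_sdiff.1 k2).2 k1⟩
      rw [q.bd'] at l4
      simp only [mem_insert, mem_singleton] at l4
      rcases l4 with l4 | l4 | l4
      · exact d2 (l4 ▸ hF.Fal f q.hc.f1)
      · exact d2 (l4 ▸ hF.Fal g q.hc.f2)
      · exact d4 l4
  obtain ⟨d, x1, x2, x3, x4, x5, x6⟩ := q.hx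
  have y1 : G.pi d ∈ Y := by
    by_contra y1
    have := s2 _ (mem_sdiff.2 ⟨G.pi_mem d x1, fun k1 => (mem_union.1 k1).elim y1 x3⟩)
    linarith
  have y2 : d = G.al k := by
    by_contra y2
    have := jd d x1 x2 y1 y2
    linarith
  refine (x6 s1).1 ⟨hY.sub y1, fun e he hpe => ?_⟩
  have e1 : G.pi (G.al e) ∈ Y := by
    rcases hY.clo e he (by rw [hpe]; exact y1) with k1 | k1 | k1
    · exact k1
    · exact absurd (by rw [← k1, hpe, y2]) (q.ofk h')
    · exact absurd (by rw [← k1, hpe, y2]) (q.sw.ofk h')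
  have e2 : G.pi (G.al e) ≠ G.pi (G.al k) := by
    intro k1
    refine G.noloop e (hF.Fsub he) ?_
    rw [k1, hpe, y2]
  obtain ⟨j, j1, j2, j3⟩ := jall _ e1
  exact ⟨j, (mem_bd.1 j1).1, j3, jd j (mem_bd.1 j1).1 j2 (by rw [j3]; exact e1) fun k1 =>
    e2 (by rw [← j3, k1])⟩

end E1

end MG

end RH
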