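import Pool.Agent.Lib.RH.E0G2

/-! # (E0), odd crossed blocking sets with three exits: no star outside

`E1.ex6dead`: the exceptional outer side; `E1.noStar`: no star. -/

set_option autoImplicit false

namespace RH

open Finset Classical

namespace MG

variable {V D : Type*} {G : MG V D} {z : D → ℝ} {t : V → ℝ} {fr : Finset V} {F : Finset D}
variable {jm A W X Y N S U : Finset V} {e d d' a u f g k : D} {T M M1 M2 : Finset D}
variable {kk : ℝ}

namespace E1

variable (q : E1 G t fr F jm W a f g k)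
include q

theorem pp3 : (∀ i, ![f, g, k] i ∈ G.bd W) ∧ Function.Injective ![f, g, k] ∧
    ∀ d, ¬ Drop G W ![f, g, k] d := by
  refine ⟨fun i => ?_, fin3_ne q.hc.ne q.nfk q.ngk, ?_⟩
  · fin_cases i
    · exact q.mf
    · exact q.mg
    · exact q.mkk
  · rintro d ⟨k1, k2⟩
    rw [q.hbd] at k1
    simp only [mem_insert, mem_singleton] at k1
    rcases k1 with rfl | rfl | rfl
    · exact k2 0 rfl
    · exact k2 1 rfl
    · exact k2 2 rfl

theorem one3 [Infinite V] [Infinite D] (h : X6 G t fr F jm) :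
    ∀ v ∈ W, TOk.kap G ![f, g, k] {v} ∈ Tpl.one1S 3 := by
  have n1 := q.cfg h
  have n2 := q.cfk h
  have n3 := q.sw.cfk h
  intro v _
  unfold Tpl.one1S
  rw [mem_filter]
  refine ⟨mem_univ _, card_le_one.2 fun i hi j hj => ?_⟩
  unfold TOk.kap at hi hj
  have hi' := mem_singleton.1 (mem_filter.1 hi).2
  have hj' := mem_singleton.1 (mem_filter.1 hj).2
  fin_cases i <;> fin_cases j
  · rfl
  · exact absurd (hi'.trans hj'.symm) n1
  · exact absurd (hi'.trans hj'.symm) n2
  · exact absurd (hj'.trans hi'.symm) n1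
  · rfl
  · exact absurd (hi'.trans hj'.symm) n3
  · exact absurd (hj'.trans hi'.symm) n2
  · exact absurd (hj'.trans hi'.symm) n3
  · rfl

/-- values of a part with all exits -/
theorem allx (h : EK G 6 t fr F jm) (hX : X ⊆ W) (h1 : G.pi f ∈ X) (h2 : G.pi g ∈ X)
    (h3 : G.pi k ∈ X) : (G.bd X).card = 3 + qx G (G.vs \ (W \ X)) X ∧
      G.val one1 t (W \ X) = 5 - G.val one1 t X + 2 * qx G (G.vs \ (W \ X)) X := by
  have hN : W \ X ⊆ G.vs := sdiff_subset.trans q.hc.hW
  have hA : G.vs \ (W \ X) ⊆ G.vs := sdiff_subset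
  have hXA : X ⊆ G.vs \ (W \ X) := fun v hv =>
    mem_sdiff.2 ⟨q.hc.hW (hX hv), fun k => (mem_sdiff.1 k).2 hv⟩
  have k1 := h.join hA hXA
  have k2 : X ∪ (G.vs \ (G.vs \ (W \ X))) = W := by
    rw [Finset.sdiff_sdiff_eq_self hN]
    exact union_sdiff_of_subset hX
  rw [k2, Finset.sdiff_sdiff_eq_self hN, q.val] at k1
  refine ⟨?_, by linarith⟩
  have e1 : G.bd X = {f, g, k} ∪ (G.bd (G.vs \ (W \ X))).filter fun d => G.pi d ∈ X := by
    ext d
    rw [mem_union, mem_filter, mem_bd, mem_bd]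
    constructor
    · rintro ⟨k1, k2, k3⟩
      by_cases k4 : G.pi (G.al d) ∈ W
      · refine Or.inr ⟨⟨k1, hXA k2, fun k5 => ?_⟩, k2⟩
        exact (mem_sdiff.1 k5).2 (mem_sdiff.2 ⟨k4, k3⟩)
      · left
        rw [← q.hbd]
        exact mem_bd.2 ⟨k1, hX k2, k4⟩
    · rintro (k1 | ⟨⟨k1, k2, k3⟩, k4⟩)
      · simp only [mem_insert, mem_singleton] at k1
        rcases k1 with rfl | rfl | rfl
        · exact ⟨(mem_bd.1 q.mf).1, h1, fun k => (mem_bd.1 q.mf).2.2 (hX k)⟩
        · exact ⟨(mem_bd.1 q.mg).1, h2, fun k => (mem_bd.1 q.mg).2.2 (hX k)⟩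
        · exact ⟨(mem_bd.1 q.mkk).1, h3, fun k => (mem_bd.1 q.mkk).2.2 (hX k)⟩
      · exact ⟨k1, k4, fun k5 => k3 (hXA k5)⟩
  have e2 : Disjoint ({f, g, k} : Finset D)
      ((G.bd (G.vs \ (W \ X))).filter fun d => G.pi d ∈ X) := by
    rw [disjoint_left]
    intro d hd hd'
    rw [← q.hbd] at hd
    exact (mem_bd.1 (mem_filter.1 hd').1).2.2 (mem_sdiff.2 ⟨G.pi_mem _ (G.al_mem d
      (mem_bd.1 hd).1), fun k => (mem_bd.1 hd).2.2 (mem_sdiff.1 k).1⟩)
  unfold qx
  rw [e1, card_union_of_disjoint e2, ← q.hbd, q.bdc]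

/-- no even set of value 4 contains all inner ends -/
theorem nall4 (h : EK G 6 t fr F jm) (hX : X ⊆ W) (he : Even X.card) (hv : G.val one1 t X = 4)
    (h1 : G.pi f ∈ X) (h2 : G.pi g ∈ X) (h3 : G.pi k ∈ X) : False := by
  obtain ⟨e1, e2⟩ := q.allx h hX h1 h2 h3
  have k1 := hv
  rw [val_one, e1] at k1
  push_cast at k1
  have k2 : 0 ≤ ∑ v ∈ X, t v := sum_nonneg fun v hv => h.t0 v (q.hc.hW (hX hv))
  have hXe := Nat.even_iff.1 he
  have hWo := Nat.odd_iff.1 q.odd
  have k3 := card_sdiff_add_card_eq_card hX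
  rw [hv] at e2
  have k4 : (qx G (G.vs \ (W \ X)) X : ℝ) ≤ (1 : ℕ) := by
    push_cast
    linarith
  push_cast at k4
  by_cases k5 : (W \ X).card = 1
  · obtain ⟨v, hv'⟩ := card_eq_one.1 k5
    have vW : v ∈ W := by
      have : v ∈ W \ X := by rw [hv']; exact mem_singleton_self v
      exact (mem_sdiff.1 this).1
    rw [hv', h.wt.val_single (q.hc.hW vW)] at e2
    have k6 : (1 : ℝ) ≤ (qx G (G.vs \ (W \ X)) X : ℝ) := by
      rw [hv']
      linarith
    have k7 : ∑ v ∈ X, t v = 0 := by linarith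
    have k8 := sum_sdiff hX (f := t)
    rw [hv', sum_singleton, k7, q.tw] at k8
    -- the token vertices
    have hyb : G.pi a ≠ G.pi (G.al a) := fun e' => G.noloop a q.ha e'.symm
    have nX : ∀ w ∈ W, t w = 1 → w = v := by
      intro w w1 w2
      by_contra w3
      have w4 : w ∈ X := by
        by_contra w5
        have : w ∈ W \ X := mem_sdiff.2 ⟨w1, w5⟩
        rw [hv', mem_singleton] at this
        exact w3 this
      have w5 : t w ≤ ∑ v ∈ X, t v := single_le_sum
        (fun x hx => h.t0 x (q.hc.hW (hX hx))) w4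
      rw [w2, k7] at w5
      norm_num at w5
    exact hyb ((nX _ q.my q.ty).trans (nX _ q.mb q.tb).symm)
  · have k6 := h.odd (W \ X) (sdiff_subset.trans q.hc.hW) (by rw [Nat.odd_iff]; omega) k5
    linarith

/-- the part without an arc part -/
theorem dead4 [Infinite V] [Infinite D] (h : X6 G t fr F jm) (hY : Arc2 G fr F W f g Y)
    (h4 : 4 ≤ (W \ Y).card) (he : Even (W \ Y).card) (hv : G.val one1 t (W \ Y) = 4) : False := by
  have hE := h.toEK
  have hF := h.fresh
  have tf : t (G.pi f) = 0 := by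
    rw [hE.tok_fr (hF.Ffr f q.hc.f1), if_neg fun k1 => disjoint_left.1 q.hj k1 q.hc.w1]
  refine h.e0_even q.ha q.ty q.tb q.hyf (sdiff_subset.trans q.hc.hW)
    (mem_sdiff.2 ⟨q.my, fun k => q.hyf (hY.sub k)⟩)
    (mem_sdiff.2 ⟨q.mb, fun k => q.hbf (hY.sub k)⟩) h4 he hv ?_
    ⟨G.pi f, mem_sdiff.2 ⟨q.hc.hW q.hc.w1, fun k => (mem_sdiff.1 k).2 hY.mf⟩, by
      rw [tf]; norm_num⟩
  intro d hd hp
  obtain ⟨k1, k2⟩ := mem_sdiff.1 hp
  have k3 : G.pi (G.al d) ∈ W := by
    by_contra k
    rcases q.hc.only d hd k1 k with k4 | k4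
    · exact k2 (by rw [k4]; exact hY.mf)
    · exact k2 (by rw [k4]; exact hY.mg)
  refine mem_sdiff.2 ⟨k3, fun k4 => ?_⟩
  have k5 := G.al_al d (hF.Fsub hd)
  rcases hY.clo _ (hF.Fal d hd) k4 with k6 | k6 | k6
  · rw [k5] at k6
    exact k2 k6
  · rw [k6] at k5
    exact q.hc.u1 (by rw [k5]; exact k1)
  · rw [k6] at k5
    exact q.hc.u2 (by rw [k5]; exact k1)

/-- **the exceptional outer side** -/
theorem ex6dead [Infinite V] [Infinite D] (h : X6 G t fr F jm)
    (m0 : ∀ X ⊆ G.vs \ W, Even X.card → G.val one1 t X = 4 → G.pi (G.al k) ∈ X →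
      G.pi (G.al g) ∉ X)
    (hY : Arc2 G fr F (G.vs \ W) (G.al f) (G.al g) Y)
    (ho : Odd Y.card) (hk : G.pi (G.al k) ∈ Y) (hv : G.val one1 t Y = 5) : False := by
  have hE := h.toEK
  have hF := h.fresh
  obtain ⟨s1, s2, s3, s4, s5⟩ := q.ex6 h hY ho hk hv
  have y5 := q.ex6s h hY ho hk hv
  have hfU : ∀ v ∈ fr, v ∉ W → v ∈ Y := by
    intro v v1 v2
    by_contra v3
    exact hE.two_nf (s2 v (mem_sdiff.2 ⟨hF.fsub v1, fun k1 => (mem_union.1 k1).elim v3 v2⟩)) v1
  have hfY : fr \ W = Y := by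
    ext v
    rw [mem_sdiff]
    exact ⟨fun k => hfU v k.1 k.2, fun k => ⟨hY.sub k, (mem_sdiff.1 (hY.inA k)).2⟩⟩
  have hfc := card_inter_add_card_sdiff fr W
  rw [hfY] at hfc
  obtain ⟨hpb, hpi, nodrop⟩ := q.pp3
  have hfa := q.iblk.fact (pp := ![f, g, k]) (e4 := Tpl.nall) (o5 := univ) hE (q.one3 h)
    (fun X hX he _ _ hv => by
      unfold Tpl.nall
      rw [mem_filter]
      refine ⟨mem_univ _, fun k1 => ?_⟩
      have k2 : ∀ i, G.pi (![f, g, k] i) ∈ X := fun i => by
        have : i ∈ TOk.kap G ![f, g, k] X := by rw [k1]; exact mem_univ i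
        unfold TOk.kap at this
        exact (mem_filter.1 this).2
      exact q.nall4 hE hX he hv (k2 0) (k2 1) (k2 2))
    (fun _ _ _ _ _ _ => mem_univ _)
  have hev : Even (W.card + 5) := by
    have h1 := Nat.odd_iff.1 q.odd
    rw [Nat.even_iff]
    omega
  have hdr : (G.bd W).filter (fun d => ∀ i, ![f, g, k] i ≠ d) = ∅ := by
    rw [filter_eq_empty_iff]
    exact fun d hd k1 => nodrop d ⟨hd, k1⟩
  have ht : ∑ v ∈ W, t v + (((G.bd W).filter fun d => ∀ i, ![f, g, k] i ≠ d).card : ℝ) +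
      Tpl.in3.nT univ = 6 := by
    have e4 : Tpl.in3.nT univ = 4 := by decide
    rw [hdr, card_empty, e4, q.tw]
    norm_num
  have hF2 : ∀ i ∈ ({0, 1} : Finset (Fin 3)), ![f, g, k] i ∈ F := by
    intro i hi
    rw [mem_insert, mem_singleton] at hi
    rcases hi with rfl | rfl
    · exact q.hc.f1
    · exact q.hc.f2
  have hBB := q.hc.arc2 hF
  have hnj : ∀ X ⊆ W, ∀ v ∈ X, v ∈ (∅ : Finset V) ∨
      (v ∉ jm ∧ ∀ d, Drop G W ![f, g, k] d → G.pi d ≠ v) := fun X hX v hv =>
    Or.inr ⟨fun k1 => disjoint_left.1 q.hj k1 (hX hv), fun d hd => absurd hd (nodrop d)⟩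
  rcases h.tplA (Ts := ∅) (Kf := {0, 1, 2}) (Js := ∅) (Fe := {0, 1}) (Fp := {0, 1})
    q.hc.hW q.iblk.ne Tpl.in3_reg Tpl.in3_tab Tpl.in3_arc hpb hpi hfa hev ht hF2
    (fun v hv => absurd hv (notMem_empty v)) (Or.inr ⟨rfl, rfl⟩) (by
      refine ⟨fr ∩ W, hBB.sub, hBB.inA, acl3.2 hBB.clo, fun i hi => ?_, empty_subset _,
        hnj _ hBB.inA⟩
      rw [mem_insert, mem_singleton] at hi
      rcases hi with rfl | rfl
      · exact hBB.mf
      · exact hBB.mg)
    (fun X hX hXW hXc hXp he => by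
      have hX2 : Arc2 G fr F W f g X := ⟨hX, hXW, acl3.1 hXc, hXp 0 (by simp), hXp 1 (by simp)⟩
      have e1 : ({0, 1, 2} : Finset (Fin 5)).card = 3 := by decide
      rw [e1] at he
      rw [Nat.even_iff] at he
      have hXo : Odd X.card := by
        rw [Nat.odd_iff]
        omega
      have hX1 : X.card ≠ 1 := by
        intro k1
        obtain ⟨v, hv⟩ := card_eq_one.1 k1
        have l1 := hX2.mf
        have l2 := hX2.mg
        rw [hv, mem_singleton] at l1 l2
        exact q.cfg h (l1.trans l2.symm)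
      obtain ⟨n, h3, h4⟩ := hE.val_nat (hXW.trans q.hc.hW)
      refine ⟨n, h3, ?_⟩
      have h5 := hE.odd X (hXW.trans q.hc.hW) hXo hX1
      rw [h3] at h5
      have h6 : 5 ≤ n := by exact_mod_cast h5
      have e2 : Tpl.in3.val {0, 1, 2} = 5 := by decide
      rw [e2]
      by_cases hkX : G.pi k ∈ X
      · have e3 : ∀ κ, Tpl.in3.nQ {0, 1, 2} κ ≤ 3 := by decide
        have h7 := e3 (TOk.kap G ![f, g, k] X)
        have h8 : n ≠ 5 := by
          intro h8
          rw [h8] at h3
          push_cast at h3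
          obtain ⟨b1, b2⟩ := q.allx hE hXW hX2.mf hX2.mg hkX
          have b3 := h3
          rw [val_one, b1] at b3
          push_cast at b3
          have b4 : 0 ≤ ∑ v ∈ X, t v := sum_nonneg fun v hv => hE.t0 v (q.hc.hW (hXW hv))
          have hcX := card_sdiff_add_card_eq_card hXW
          have hWo := Nat.odd_iff.1 q.odd
          have hXo' := Nat.odd_iff.1 hXo
          have hyX : G.pi a ∈ W \ X := mem_sdiff.2 ⟨q.my, fun k => q.hyf (hX k)⟩
          have hbX : G.pi (G.al a) ∈ W \ X := mem_sdiff.2 ⟨q.mb, fun k => q.hbf (hX k)⟩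
          have b5 := hE.evn (W \ X) (sdiff_subset.trans q.hc.hW) (by rw [Nat.even_iff]; omega)
            ⟨_, hyX⟩ (fun k1 => by
              have := q.hc.hW q.hc.w1
              rw [← k1] at this
              exact (mem_sdiff.1 this).2 hX2.mf)
          have b6 : G.val one1 t (W \ X) = 4 := by
            rw [h3] at b2
            linarith
          by_cases b7 : 4 ≤ (W \ X).card
          · exact q.dead4 h hX2 b7 (by rw [Nat.even_iff]; omega) b6
          have hyb : G.pi a ≠ G.pi (G.al a) := fun e' => G.noloop a q.ha e'.symm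
          have b8 : (W \ X).card = 2 := by
            have k1 := card_le_card (insert_subset hyX (singleton_subset_iff.2 hbX))
            rw [card_pair hyb] at k1
            omega
          have b9 : ({G.pi a, G.pi (G.al a)} : Finset V) = W \ X :=
            eq_of_subset_of_card_le (insert_subset hyX (singleton_subset_iff.2 hbX)) (by
              rw [b8, card_pair hyb])
          have b10 : fr ∩ W = X := by
            ext v
            rw [mem_inter]
            refine ⟨fun k1 => ?_, fun k1 => ⟨hX k1, hXW k1⟩⟩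
            by_contra k2
            have k3 : v ∈ W \ X := mem_sdiff.2 ⟨k1.2, k2⟩
            rw [← b9, mem_insert, mem_singleton] at k3
            rcases k3 with rfl | rfl
            · exact q.hyf k1.1
            · exact q.hbf k1.1
          have c1 := hE.c6 fr ⟨Subset.refl _, fun d hd _ => hF.Ffr _ (hF.Fal d hd)⟩ (by
            rw [b10] at hfc
            have := Nat.odd_iff.1 ho
            rw [Nat.even_iff]
            omega) ⟨_, hX hX2.mf⟩
          rw [s1, inter_empty, card_empty, ← bd_card_compl hF.fsub] at c1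
          have c2 : G.vs \ fr = (W \ X) ∪ (G.vs \ (Y ∪ W)) := by
            ext v
            rw [mem_union, mem_sdiff, mem_sdiff, mem_sdiff, mem_union]
            constructor
            · rintro ⟨k1, k2⟩
              by_cases k3 : v ∈ W
              · exact Or.inl ⟨k3, fun k4 => k2 (hX k4)⟩
              · exact Or.inr ⟨k1, fun k4 => k4.elim (fun k5 => k2 (hY.sub k5)) k3⟩
            · rintro (⟨k1, k2⟩ | ⟨k1, k2⟩)
              · refine ⟨q.hc.hW k1, fun k3 => k2 ?_⟩
                rw [← b10]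
                exact mem_inter.2 ⟨k3, k1⟩
              · exact ⟨k1, fun k3 => k2 (by
                  by_cases k4 : v ∈ W
                  · exact Or.inr k4
                  · exact Or.inl (hfU v k3 k4))⟩
          have c3 : Disjoint (W \ X) (G.vs \ (Y ∪ W)) := disjoint_left.2 fun v hv hv' =>
            (mem_sdiff.1 hv').2 (mem_union_right _ (mem_sdiff.1 hv).1)
          have c4 := hE.wt.val_disj (sdiff_subset.trans q.hc.hW) (sdiff_subset) c3
          rw [← c2, b6] at c4
          have c5 := hE.val_eq (X := G.vs \ (Y ∪ W)) sdiff_subset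
          rw [s3] at c5
          have c6 := val_one (G := G) (t := t) (G.vs \ fr)
          have c7 : ∑ v ∈ G.vs \ fr, t v = 6 := by
            have k1 := sum_sdiff hF.fsub (f := t)
            have k2 : ∑ v ∈ fr, t v = 0 := sum_eq_zero fun v hv => by
              rw [hE.tok_fr hv, s1, if_neg (notMem_empty v)]
            rw [hE.tau, k2] at k1
            linarith
          have c8 : (0 : ℝ) ≤ ((G.ed (G.vs \ (Y ∪ W)) (G.vs \ (Y ∪ W))).card : ℝ) :=
            Nat.cast_nonneg _
          have c9 : (0 : ℝ) ≤ ∑ d ∈ G.ed (W \ X) (G.vs \ (Y ∪ W)), one1 d :=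
            sum_nonneg fun _ _ => zero_le_one
          have c10 : ((6 : ℕ) : ℝ) ≤ ((G.bd (G.vs \ fr)).card : ℝ) := by exact_mod_cast c1
          push_cast at c5 c10
          rw [c7] at c6
          linarith
        omega
      · have e3 : ∀ κ : Finset (Fin 3), (2 : Fin 3) ∉ κ → Tpl.in3.nQ {0, 1, 2} κ ≤ 2 := by decide
        have h7 := e3 (TOk.kap G ![f, g, k] X) (fun k1 => hkX (by
          unfold TOk.kap at k1
          exact (mem_filter.1 k1).2))
        omega)
    (Or.inl (by
      have e1 : ({0, 1, 2} : Finset (Fin 5)).card = 3 := by decide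
      rw [e1]
      omega)) with ⟨M1, m, h1, h2⟩ | ⟨p, c, h1, -⟩
  · obtain ⟨e1, e2⟩ := Tpl.in3_pat _ _ h2
    have mem : ∀ i, ![f, g, k] i ∈ M1 ↔ i = 2 := fun i => by
      rw [← mem_singleton, ← e1, mem_filter]
      exact ⟨fun k => ⟨mem_univ _, k⟩, fun k => k.2⟩
    have kM : k ∈ M1 := (mem 2).2 rfl
    have fM : f ∉ M1 := fun k1 => absurd ((mem 0).1 k1) (by decide)
    have gM : g ∉ M1 := fun k1 => absurd ((mem 1).1 k1) (by decide)
    have hh1 : G.GHalf one1 fr F jm W M1 := h1.tsol.half hF h.jm2 (Or.inr (Or.inl s1))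
    obtain ⟨M2, l1, l2, l3, l4⟩ := q.outK2 h m0
    have hx : ∀ d ∈ G.bd W, d ∈ M1 ↔ G.al d ∈ M2 := by
      intro d hd
      rw [q.hbd] at hd
      simp only [mem_insert, mem_singleton] at hd
      rcases hd with rfl | rfl | rfl
      · exact ⟨fun k1 => absurd k1 fM, fun k1 => absurd k1 l3⟩
      · exact ⟨fun k1 => absurd k1 gM, fun k1 => absurd k1 l4⟩
      · exact ⟨fun _ => l2, fun _ => kM⟩
    obtain ⟨X1, X2, a1, a2, -, a4⟩ := h.glueF q.hc hh1 l1 hx (by
      intro d hd hdF hdM
      rw [q.hbd] at hd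
      simp only [mem_insert, mem_singleton] at hd
      rcases hd with rfl | rfl | rfl
      · exact absurd q.hc.f1 hdF
      · exact absurd q.hc.f2 hdF
      · exact absurd kM hdM)
    -- inside: odd
    obtain ⟨b1, b2⟩ := a1.arcN q.hc hF
    have o1 : Even (X1.card + 3) := by
      have e5 : ({0, 1, 2} : Finset (Fin 5)).card = 3 := by decide
      have k1 := (h1.ar X1 b1.sub b1.inA (acl3.2 b1.clo) (fun i hi => by
        rw [mem_insert, mem_singleton] at hi
        rcases hi with rfl | rfl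
        · exact b1.mf
        · exact b1.mg) (fun d hd hn => Or.inl (b2 d hd (fun k => hn 0 (by simp) k.symm)
          (fun k => hn 1 (by simp) k.symm))) (hnj _ b1.inA) (fun i _ hi => by
            fin_cases i
            · exact absurd (by simp) hi
            · exact absurd (by simp) hi
            · exact Or.inr kM) (by rw [e2]; decide)).1
      rwa [e5] at k1
    -- outside: odd
    have hcs := q.hc.symm hF
    have hYC : G.ArcC fr F M2 (G.vs \ W) Y (G.al f) := by
      refine ⟨⟨hY.sub, hY.inA, fun d hd hp hZ => ?_⟩, hY.mf, fun d hd hdF => ?_⟩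
      · rcases hY.clo d hd hp with k1 | k1 | k1
        · exact k1
        · rw [k1, G.al_al f (mem_bd.1 q.mf).1] at hZ
          exact absurd q.hc.w1 (mem_sdiff.1 hZ).2
        · rw [k1, G.al_al g (mem_bd.1 q.mg).1] at hZ
          exact absurd q.hc.w2 (mem_sdiff.1 hZ).2
      · obtain ⟨k1, k2, k3⟩ := mem_bd.1 hd
        by_cases k4 : G.pi (G.al d) ∈ W
        · have k5 : d ∈ G.bd (G.vs \ W) := mem_bd.2 ⟨k1, hY.inA k2, fun k => (mem_sdiff.1 k).2 k4⟩
          rw [q.bd'] at k5
          simp only [mem_insert, mem_singleton] at k5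
          rcases k5 with rfl | rfl | rfl
          · exact absurd (hF.Fal f q.hc.f1) hdF
          · exact absurd (hF.Fal g q.hc.f2) hdF
          · exact l2
        · have k5 := G.pi_mem _ (G.al_mem d k1)
          have k6 : G.pi (G.al d) ∈ G.vs \ W := mem_sdiff.2 ⟨k5, k4⟩
          have k7 := s2 _ (mem_sdiff.2 ⟨k5, fun k => (mem_union.1 k).elim k3 k4⟩)
          have k8 := hE.deg _ k5
          rw [k7] at k8
          have k9 : (G.st (G.pi (G.al d))).card = 1 := by
            have : ((G.st (G.pi (G.al d))).card : ℝ) = (1 : ℕ) := by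
              push_cast
              linarith
            exact_mod_cast this
          obtain ⟨n, hn⟩ := card_eq_one.1 (l1.hm.one _ k6)
          have n1 : n ∈ M2.filter fun x => G.pi x = G.pi (G.al d) := by
            rw [hn]
            exact mem_singleton_self n
          obtain ⟨n2, n3⟩ := mem_filter.1 n1
          obtain ⟨s, hs⟩ := card_eq_one.1 k9
          have n4 : n ∈ G.st (G.pi (G.al d)) := mem_st.2 ⟨(l1.hm.sub n n2).1, n3⟩
          have n5 : G.al d ∈ G.st (G.pi (G.al d)) := mem_st.2 ⟨G.al_mem d k1, rfl⟩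
          rw [hs, mem_singleton] at n4 n5
          have n6 : G.al d ∈ M2 := by
            rw [n5, ← n4]
            exact n2
          have n7 := l1.hm.clo _ n6 (by rw [G.al_al d k1]; exact hY.inA k2)
          rwa [G.al_al d k1] at n7
    obtain ⟨d1, d2⟩ := hYC.diff a2 hcs hF l1.hm
    have d3 := (l1.ok _ d1 (sdiff_subset.trans hY.inA) d2).1
    have d4 : X2 ⊆ Y := fun v hv => hfU v (a2.adm.sub hv) (mem_sdiff.1 (a2.adm.subZ hv)).2
    have d5 := card_sdiff_add_card_eq_card d4
    rcases a4 with a4 | a4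
    · rw [Nat.even_iff] at o1 d3
      rw [Nat.odd_iff] at a4 ho
      omega
    · rw [s1] at a4
      exact absurd a4.1 not_nonempty_empty
  · have h3 := h1.tok _ q.my (by rw [q.ty]; norm_num)
    have h4 := h1.tok _ q.mb (by rw [q.tb]; norm_num)
    have h5 := h1.jq a q.ha q.my q.mb one_pos q.haF
    rw [h3, h4] at h5
    norm_num at h5

/-- **no star** -/
theorem noStar [Infinite V] [Infinite D] (h : X6 G t fr F jm)
    (m0 : ∀ X ⊆ G.vs \ W, Even X.card → G.val one1 t X = 4 → G.pi (G.al k) ∈ X →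
      G.pi (G.al g) ∉ X)
    (hj : jm = ∅) : False := by
  have hF := h.fresh
  have hcs := q.hc.symm hF
  refine q.useK3 h m0 (fun _ _ _ _ _ _ => by rw [hj, inter_empty])
    (fun _ _ _ _ _ _ => by rw [hj, inter_empty]) ?_ fun Y hY ho hk hv => q.ex6dead h m0 hY ho hk hv
  exact ⟨fr ∩ (G.vs \ W), hcs.arc2 hF, fun v _ => by rw [hj]; exact notMem_empty v⟩

end E1

end MG

end RH
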