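import Pool.Agent.Lib.RH.E0G3

/-! # Row (E0) without maximality

`E1.star`: star outside; `E1.center`: both exit pairs with `k` are in even sets of value 4;
`E1.absurd`: odd crossed sets with three exits; `X6.e0B`: the row. -/

set_option autoImplicit false

namespace RH

open Finset Classical

namespace MG

variable {V D : Type*} {G : MG V D} {z : D → ℝ} {t : V → ℝ} {fr : Finset V} {F : Finset D}
variable {jm A W X Y N S U : Finset V} {e d d' a u f g k : D} {T M M1 M2 : Finset D}
variable {kk : ℝ}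

namespace E1

variable (q : E1 G t fr F jm W a f g k)
include q

/-- adjacent star vertices on the arc, a two-token vertex at `k` -/
theorem useLk [Infinite V] [Infinite D] (h : X6 G t fr F jm)
    (m0 : ∀ X ⊆ G.vs \ W, Even X.card → G.val one1 t X = 4 → G.pi (G.al k) ∈ X →
      G.pi (G.al g) ∉ X) :
    ∃ M1, G.GHalf one1 fr F jm W M1 ∧ k ∈ M1 ∧ (f ∈ M1 ↔ g ∈ M1) ∧
      ∀ X1, ¬ G.ArcC fr F M1 W X1 f := by
  have hE := h.toEK
  have hF := h.fresh
  obtain ⟨hpb, hpi, nodrop⟩ := q.pp3
  have hfa := q.iblk.fact (pp := ![f, g, k]) (e4 := univ) (o5 := univ) hE (q.one3 h)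
    (fun _ _ _ _ _ _ => mem_univ _) (fun _ _ _ _ _ _ => mem_univ _)
  have hev : Even (W.card + 3) := by
    have h1 := Nat.odd_iff.1 q.odd
    rw [Nat.even_iff]
    omega
  have hdr : (G.bd W).filter (fun d => ∀ i, ![f, g, k] i ≠ d) = ∅ := by
    rw [filter_eq_empty_iff]
    exact fun d hd k1 => nodrop d ⟨hd, k1⟩
  have ht : ∑ v ∈ W, t v + (((G.bd W).filter fun d => ∀ i, ![f, g, k] i ≠ d).card : ℝ) +
      Tpl.lk.nT univ = 6 := by
    have e4 : Tpl.lk.nT univ = 4 := by decide
    rw [hdr, card_empty, e4, q.tw]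
    norm_num
  have hF2 : ∀ i ∈ ({0, 1} : Finset (Fin 3)), ![f, g, k] i ∈ F := by
    intro i hi
    rw [mem_insert, mem_singleton] at hi
    rcases hi with rfl | rfl
    · exact q.hc.f1
    · exact q.hc.f2
  have hBB := q.hc.arc2 hF
  have hnj : ∀ X ⊆ W, ∀ v ∈ X, v ∈ (∅ : Finset V) ∨
      (v ∉ jm ∧ ∀ d, Drop G W ![f, g, k] d → G.pi d ≠ v) := fun X hX v hv =>
    Or.inr ⟨fun k1 => disjoint_left.1 q.hj k1 (hX hv), fun d hd => absurd hd (nodrop d)⟩
  have hfr3 := q.fr3 h
  rcases h.tplA (Ts := ∅) (Kf := {0, 1}) (Js := {0, 1}) (Fe := {0}) (Fp := {0, 1})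
    q.hc.hW q.iblk.ne Tpl.lk_reg Tpl.lk_tab Tpl.lk_arc hpb hpi hfa hev ht hF2
    (fun v hv => absurd hv (notMem_empty v)) (Or.inl (by rw [card_empty]; decide)) (by
      refine ⟨fr ∩ W, hBB.sub, hBB.inA, acl3.2 hBB.clo, fun i hi => ?_, empty_subset _,
        hnj _ hBB.inA⟩
      rw [mem_insert, mem_singleton] at hi
      rcases hi with rfl | rfl
      · exact hBB.mf
      · exact hBB.mg)
    (fun X hX hXW hXc hXp he => by
      have hX2 : Arc2 G fr F W f g X := ⟨hX, hXW, acl3.1 hXc, hXp 0 (by simp), hXp 1 (by simp)⟩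
      have e1 : ({0, 1} : Finset (Fin 3)).card = 2 := by decide
      rw [e1] at he
      have he' : Even X.card := by
        rw [Nat.even_iff] at he ⊢
        omega
      obtain ⟨n, h3, h4⟩ := hE.val_nat (hXW.trans q.hc.hW)
      refine ⟨n, h3, ?_⟩
      have h5 := q.noE4 h m0 hX2 he'
      have h6 := hE.evn X (hXW.trans q.hc.hW) he' ⟨_, hX2.mf⟩ fun k => by
        have := q.hc.hW q.my
        rw [← k] at this
        exact q.hyf (hX this)
      rw [h3] at h5 h6
      have h7 : 4 ≤ n := by exact_mod_cast h6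
      have h8 : n ≠ 4 := fun k => h5 (by rw [k]; norm_num)
      have e2 : Tpl.lk.val {0, 1} = 4 := by decide
      have e3 : ∀ κ, Tpl.lk.nQ {0, 1} κ ≤ 2 := by decide
      have h9 := e3 (TOk.kap G ![f, g, k] X)
      rw [Nat.even_iff] at he'
      rw [e2]
      omega)
    (Or.inl (by
      have e1 : ({0, 1} : Finset (Fin 3)).card = 2 := by decide
      rw [e1]
      omega)) with ⟨M1, m, h1, h2⟩ | ⟨p, c, h1, -⟩
  · have mem : ∀ i, ![f, g, k] i ∈ M1 ↔ i ∈ univ.filter fun i => ![f, g, k] i ∈ M1 := fun i => by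
      rw [mem_filter]
      exact ⟨fun k => ⟨mem_univ _, k⟩, fun k => k.2⟩
    have c0 := mem 0
    have c1 := mem 1
    have c2 := mem 2
    change f ∈ M1 ↔ _ at c0
    change g ∈ M1 ↔ _ at c1
    change k ∈ M1 ↔ _ at c2
    refine ⟨M1, h1.tsol.half hF h.jm2 (Or.inr q.hjW), ?_, ?_, fun X1 hX => ?_⟩
    · rcases Tpl.lk_pat _ _ h2 with k1 | k1
      · rw [k1] at c2
        exact c2.2 (by decide)
      · rw [k1] at c2
        exact c2.2 (by decide)
    · rcases Tpl.lk_pat _ _ h2 with k1 | k1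
      · rw [k1] at c0 c1
        exact ⟨fun k => absurd (c0.1 k) (by decide), fun k => absurd (c1.1 k) (by decide)⟩
      · rw [k1] at c0 c1
        exact ⟨fun _ => c1.2 (by decide), fun _ => c0.2 (by decide)⟩
    · obtain ⟨b1, b2⟩ := hX.arcN q.hc hF
      exact (h1.ar X1 b1.sub b1.inA (acl3.2 b1.clo) (fun i hi => by
        rw [mem_insert, mem_singleton] at hi
        rcases hi with rfl | rfl
        · exact b1.mf
        · exact b1.mg) (fun d hd hn => Or.inl (b2 d hd (fun k => hn 0 (by simp) k.symm)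
          (fun k => hn 1 (by simp) k.symm))) (hnj _ b1.inA) (fun i hi hi2 => by
            fin_cases i
            · exact absurd (by simp) hi2
            · exact absurd (by simp) hi2
            · exact absurd hi (by decide)) (fun i hi =>
              (hi (by fin_cases i; decide)).elim)).2
        ⟨Or.inr ⟨0, by simp⟩, empty_subset _⟩
  · exfalso
    have h3 := h1.tok _ q.my (by rw [q.ty]; norm_num)
    have h4 := h1.tok _ q.mb (by rw [q.tb]; norm_num)
    have h5 := h1.jq a q.ha q.my q.mb one_pos q.haF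
    rw [h3, h4] at h5
    norm_num at h5

/-- **star outside** -/
theorem star [Infinite V] [Infinite D] (h : X6 G t fr F jm)
    (m0 : ∀ X ⊆ G.vs \ W, Even X.card → G.val one1 t X = 4 → G.pi (G.al k) ∈ X →
      G.pi (G.al g) ∉ X) (hj : jm ≠ ∅) : False := by
  have hE := h.toEK
  have hF := h.fresh
  have hcs := q.hc.symm hF
  have o1 := q.ofg h
  have o2 := q.ofk h
  have o3 := q.sw.ofk h
  have hpp : G.bd (G.vs \ W) = univ.image ![G.al f, G.al g, G.al k] := by
    rw [img3]
    exact q.bd'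
  have hpi : Function.Injective ![G.al f, G.al g, G.al k] := fin3_ne q.ne1 q.ne2 q.ne3
  obtain ⟨M1, i1, i2, i3, i4⟩ := q.useLk h m0
  obtain ⟨MK, l1, l2, l3, l4⟩ := q.outK2 h m0
  by_cases hfM : f ∈ M1
  · have hgM := i3.1 hfM
    rcases h.tplUC q.obl Tpl.ek_reg Tpl.ek_tab (by norm_num) (by decide) rfl hpp hpi
      (Or.inl (q.frU hE))
      (fun v _ => by
        unfold Tpl.one1S
        rw [mem_filter]
        refine ⟨mem_univ _, card_le_one.2 fun i hi j hj => ?_⟩
        unfold TOk.kap at hi hj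
        have hi' := mem_singleton.1 (mem_filter.1 hi).2
        have hj' := mem_singleton.1 (mem_filter.1 hj).2
        fin_cases i <;> fin_cases j
        · rfl
        · exact absurd (hi'.trans hj'.symm) o1
        · exact absurd (hi'.trans hj'.symm) o2
        · exact absurd (hj'.trans hi'.symm) o1
        · rfl
        · exact absurd (hi'.trans hj'.symm) o3
        · exact absurd (hj'.trans hi'.symm) o2
        · exact absurd (hj'.trans hi'.symm) o3
        · rfl)
      (fun _ _ _ _ _ _ => mem_univ _) (fun _ _ _ _ _ _ => mem_univ _) with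
      ⟨M2, m, h1, h2⟩ | ⟨p, c, p1, p2, p3, p4⟩
    · have mem : ∀ i, ![G.al f, G.al g, G.al k] i ∈ M2 ↔
          i ∈ univ.filter fun i => ![G.al f, G.al g, G.al k] i ∈ M2 := fun i => by
        rw [mem_filter]
        exact ⟨fun k => ⟨mem_univ _, k⟩, fun k => k.2⟩
      have c0 := mem 0
      have c1 := mem 1
      have c2 := mem 2
      change G.al f ∈ M2 ↔ _ at c0
      change G.al g ∈ M2 ↔ _ at c1
      change G.al k ∈ M2 ↔ _ at c2
      rcases Tpl.ek_pat _ _ h2 with k1 | k1 | k1
      · rw [k1] at c0 c1 c2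
        exact q.dead h h1 (c0.2 (by decide)) (fun k => absurd (c1.1 k) (by decide))
          fun k => absurd (c2.1 k) (by decide)
      · rw [k1] at c0 c1 c2
        exact q.sw.dead h h1 (c1.2 (by decide)) (fun k => absurd (c0.1 k) (by decide))
          fun k => absurd (c2.1 k) (by decide)
      · rw [k1] at c0 c1 c2
        refine h.glueFL q.hc i1 h1 ?_ ?_ i4
        · intro d hd
          rw [q.hbd] at hd
          simp only [mem_insert, mem_singleton] at hd
          rcases hd with rfl | rfl | rfl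
          · exact ⟨fun _ => c0.2 (mem_univ _), fun _ => hfM⟩
          · exact ⟨fun _ => c1.2 (mem_univ _), fun _ => hgM⟩
          · exact ⟨fun _ => c2.2 (mem_univ _), fun _ => i2⟩
        · intro d hd hdF hdM
          rw [q.hbd] at hd
          simp only [mem_insert, mem_singleton] at hd
          rcases hd with rfl | rfl | rfl
          · exact absurd q.hc.f1 hdF
          · exact absurd q.hc.f2 hdF
          · exact absurd i2 hdM
    · -- half of a certificate outside
      have hl : ∀ M2, G.HM (G.vs \ W) M2 → ∀ X, G.Adm fr F X → X ⊆ G.vs \ W →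
          (∀ d ∈ G.bd X, d ∈ M2) → X ∩ jm = ∅ := fun M2 hM X hX hXU hcl =>
        hE.lawA p1 hM hX.sub hXU (fun d _ hdF hp => hX.clo d hdF hp) fun d hd _ hdM hp => by
          by_contra k1
          exact hdM (hcl d (mem_bd.2 ⟨hd, hp, k1⟩))
      have hl2 : ∀ M2, G.HM (G.vs \ W) M2 → G.al f ∉ M2 → G.al g ∉ M2 → ∀ X,
          G.ArcC fr F M2 (G.vs \ W) X (G.al f) → X ∩ jm = ∅ := fun M2 hM n1 n2 X hX =>
        hE.lawA p1 hM hX.adm.sub hX.adm.subZ (fun d hdM hdF hp => by
          by_cases k1 : G.pi (G.al d) ∈ G.vs \ W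
          · exact hX.adm.clo d hdF hp k1
          · rcases hcs.only d hdF (hX.adm.subZ hp) k1 with k2 | k2
            · exact absurd (k2 ▸ hdM) n1
            · exact absurd (k2 ▸ hdM) n2) fun d hd hdF hdM hp => by
          by_contra k1
          exact hdM (hX.cl d (mem_bd.2 ⟨hd, hp, k1⟩) hdF)
      by_cases hB : ∃ B, Arc2 G fr F (G.vs \ W) (G.al f) (G.al g) B ∧ ∀ v ∈ B, v ∉ jm
      · exact q.useK3 h m0 hl hl2 hB fun Y hY ho hk hv => hj (q.ex6 h hY ho hk hv).1
      · obtain ⟨M, g1, g2, g3⟩ := q.btk h q.mkk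
        refine q.killK h g1 g2 (fun k1 => q.nfk (g3 f q.mf k1)) (fun k1 => q.ngk (g3 g q.mg k1))
          l1 l2 l3 l4 (Or.inr fun X2 hX => hB ?_)
        have k1 := hl2 MK l1.hm l3 l4 X2 hX
        exact ⟨X2, (hX.arcN hcs hF).1, fun v hv hvj => by
          have : v ∈ X2 ∩ jm := mem_inter.2 ⟨hv, hvj⟩
          rw [k1] at this
          exact notMem_empty v this⟩
  · exact q.killK h i1 i2 hfM (fun k1 => hfM (i3.2 k1)) l1 l2 l3 l4 (Or.inl i4)

/-- an even set of value 4 outside does not contain all three ends -/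
theorem not3 (h : EK G 6 t fr F jm) (hX : X ⊆ G.vs \ W) (he : Even X.card)
    (hv : G.val one1 t X = 4) (h1 : G.pi (G.al f) ∈ X) (h2 : G.pi (G.al g) ∈ X)
    (h3 : G.pi (G.al k) ∈ X) : False := by
  have k1 := qx3o q.mf' q.mg' q.mk' q.ne1 q.ne2 q.ne3 h1 h2 h3
  have k1' : ((3 : ℕ) : ℝ) ≤ (qx G (G.vs \ W) X : ℝ) := by exact_mod_cast k1
  push_cast at k1'
  have k2 := q.jn h hX
  have k3 := q.cu hX
  have hbig := q.big
  have hWo := Nat.odd_iff.1 q.odd
  have hXe := Nat.even_iff.1 he
  have k4 := h.odd _ (q.su hX) (by rw [k3, Nat.odd_iff]; omega) (by omega)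
  linarith

/-- both pairs with `k` are in even sets of value 4 -/
theorem center [Infinite V] [Infinite D] (h : X6 G t fr F jm) {X1 X2 : Finset V}
    (s1 : X1 ⊆ G.vs \ W) (e1 : Even X1.card) (v1 : G.val one1 t X1 = 4)
    (k1 : G.pi (G.al k) ∈ X1) (f1 : G.pi (G.al f) ∈ X1)
    (s2 : X2 ⊆ G.vs \ W) (e2 : Even X2.card) (v2 : G.val one1 t X2 = 4)
    (k2 : G.pi (G.al k) ∈ X2) (g2 : G.pi (G.al g) ∈ X2) : False := by
  have hE := h.toEK
  have hF := h.fresh
  have o1 := q.ofg h
  have o2 := q.ofk h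
  have o3 := q.sw.ofk h
  have kk := G.al_al k (mem_bd.1 q.mkk).1
  have g1 : G.pi (G.al g) ∉ X1 := fun k3 => q.not3 hE s1 e1 v1 f1 k3 k1
  have f2 : G.pi (G.al f) ∉ X2 := fun k3 => q.not3 hE s2 e2 v2 k3 g2 k2
  have hout : ∀ X ⊆ G.vs \ W, ∀ Y ⊆ G.vs \ W, G.pi (G.al (G.al k)) ∉ X ∪ Y := by
    intro X hX Y hY k3
    rw [kk] at k3
    rcases mem_union.1 k3 with k4 | k4
    · exact (mem_sdiff.1 (hX k4)).2 (mem_bd.1 q.mkk).2.1
    · exact (mem_sdiff.1 (hY k4)).2 (mem_bd.1 q.mkk).2.1
  obtain ⟨-, x, x1, x2, x3⟩ := hE.two4 (s1.trans sdiff_subset) (s2.trans sdiff_subset) e1 v1 v2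
    (mem_bd.1 q.mk').1 k1 k2 (hout X1 s1 X2 s2) f1 f2 g2 g1
  obtain ⟨-, y, y1, y2, y3⟩ := hE.two4 (s2.trans sdiff_subset) (s1.trans sdiff_subset) e2 v2 v1
    (mem_bd.1 q.mk').1 k2 k1 (hout X2 s2 X1 s1) g2 g1 f1 f2
  have okU := (mem_bd.1 q.mk').2.1
  have ofU := (mem_bd.1 q.mf').2.1
  have ogU := (mem_bd.1 q.mg').2.1
  have alk : G.al k ∉ F := fun k1 => q.kF (by
    have := hF.Fal _ k1
    rwa [kk] at this)
  have ax := G.al_al x x1
  have ay := G.al_al y y1
  by_cases hkf : G.pi (G.al k) ∈ fr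
  · -- the middle vertex of the arc is `o_k`
    have n1 : G.al x ≠ G.al k := fun k3 => (mem_sdiff.1 ofU).2 (by
      rw [← x2, (al_eq x1 (mem_bd.1 q.mkk).1).1 k3]
      exact (mem_bd.1 q.mkk).2.1)
    have n2 : G.al y ≠ G.al k := fun k3 => (mem_sdiff.1 ogU).2 (by
      rw [← y2, (al_eq y1 (mem_bd.1 q.mkk).1).1 k3]
      exact (mem_bd.1 q.mkk).2.1)
    have n3 : G.al x ≠ G.al y := fun k3 => o1 (by
      rw [← x2, ← y2, (al_eq x1 y1).1 k3])
    have hst : ({G.al k, G.al x, G.al y} : Finset D) = G.st (G.pi (G.al k)) := by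
      refine eq_of_subset_of_card_le ?_ ?_
      · intro w hw
        simp only [mem_insert, mem_singleton] at hw
        rcases hw with rfl | rfl | rfl
        · exact mem_st.2 ⟨(mem_bd.1 q.mk').1, rfl⟩
        · exact mem_st.2 ⟨G.al_mem x x1, x3⟩
        · exact mem_st.2 ⟨G.al_mem y y1, y3⟩
      · rw [card_insert_of_notMem (by
          rw [mem_insert, mem_singleton, not_or]
          exact ⟨n1.symm, n2.symm⟩), card_pair n3]
        have k3 := hE.deg _ (mem_sdiff.1 okU).1
        have k4 := hE.t0 _ (mem_sdiff.1 okU).1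
        have k5 : ((G.st (G.pi (G.al k))).card : ℝ) ≤ (3 : ℕ) := by
          push_cast
          linarith
        exact_mod_cast k5
    have hfk : ∀ d ∈ F, G.pi d = G.pi (G.al k) → d = G.al x ∨ d = G.al y := by
      intro d hd hp
      have k3 : d ∈ G.st (G.pi (G.al k)) := mem_st.2 ⟨hF.Fsub hd, hp⟩
      rw [← hst] at k3
      simp only [mem_insert, mem_singleton] at k3
      rcases k3 with k3 | k3 | k3
      · exact absurd (k3 ▸ hd) alk
      · exact Or.inl k3
      · exact Or.inr k3
    have hsub : (F.filter fun d => G.pi d = G.pi (G.al k)) = {G.al x, G.al y} := by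
      refine eq_of_subset_of_card_le ?_ ?_
      · intro d hd
        rw [mem_insert, mem_singleton]
        exact hfk d (mem_filter.1 hd).1 (mem_filter.1 hd).2
      · rw [hF.two _ hkf, card_pair n3]
    have xF : x ∈ F := by
      have k3 : G.al x ∈ F.filter fun d => G.pi d = G.pi (G.al k) := by
        rw [hsub]
        exact mem_insert_self _ _
      have := hF.Fal _ (mem_filter.1 k3).1
      rwa [ax] at this
    have yF : y ∈ F := by
      have k3 : G.al y ∈ F.filter fun d => G.pi d = G.pi (G.al k) := by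
        rw [hsub]
        exact mem_insert_of_mem (mem_singleton_self _)
      have := hF.Fal _ (mem_filter.1 k3).1
      rwa [ay] at this
    -- F-darts at the two ends
    have two : ∀ c x' : D, c ∈ F → x' ∈ F → G.pi x' = G.pi c → c ≠ x' →
        ∀ d ∈ F, G.pi d = G.pi c → d = c ∨ d = x' := by
      intro c x' hc hx' hp hne d hd hdp
      have k3 : ({c, x'} : Finset D) = F.filter fun e => G.pi e = G.pi c := by
        refine eq_of_subset_of_card_le ?_ (by rw [hF.two _ (hF.Ffr c hc), card_pair hne])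
        intro w hw
        rw [mem_insert, mem_singleton] at hw
        rcases hw with rfl | rfl
        · exact mem_filter.2 ⟨hc, rfl⟩
        · exact mem_filter.2 ⟨hx', hp⟩
      have k4 : d ∈ F.filter fun e => G.pi e = G.pi c := mem_filter.2 ⟨hd, hdp⟩
      rw [← k3, mem_insert, mem_singleton] at k4
      exact k4
    have fx : G.al f ≠ x := fun k3 => (mem_sdiff.1 okU).2 (by
      rw [← x3, ← k3, G.al_al f (mem_bd.1 q.mf).1]
      exact q.hc.w1)
    have gy : G.al g ≠ y := fun k3 => (mem_sdiff.1 okU).2 (by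
      rw [← y3, ← k3, G.al_al g (mem_bd.1 q.mg).1]
      exact q.hc.w2)
    obtain ⟨Y, hY⟩ : ∃ Y : Finset V, Y = {G.pi (G.al f), G.pi (G.al g), G.pi (G.al k)} :=
      ⟨_, rfl⟩
    have mf : G.pi (G.al f) ∈ Y := by rw [hY]; simp
    have mg : G.pi (G.al g) ∈ Y := by rw [hY]; simp
    have mk : G.pi (G.al k) ∈ Y := by rw [hY]; simp
    have hYc : Y.card = 3 := by
      rw [hY, card_insert_of_notMem, card_pair o3]
      rw [mem_insert, mem_singleton, not_or]
      exact ⟨o1, o2⟩
    have hYU : Y ⊆ G.vs \ W := by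
      intro v hv
      rw [hY] at hv
      simp only [mem_insert, mem_singleton] at hv
      rcases hv with rfl | rfl | rfl
      · exact ofU
      · exact ogU
      · exact okU
    have hA : Arc2 G fr F (G.vs \ W) (G.al f) (G.al g) Y := by
      refine ⟨fun v hv => ?_, hYU, fun d hd hp => ?_, mf, mg⟩
      · rw [hY] at hv
        simp only [mem_insert, mem_singleton] at hv
        rcases hv with rfl | rfl | rfl
        · exact q.of' hE
        · exact q.og' hE
        · exact hkf
      · rw [hY] at hp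
        simp only [mem_insert, mem_singleton] at hp
        rcases hp with hp | hp | hp
        · rcases two (G.al f) x (hF.Fal f q.hc.f1) xF x2 fx d hd hp with k3 | k3
          · exact Or.inr (Or.inl k3)
          · left
            rw [k3, x3]
            exact mk
        · rcases two (G.al g) y (hF.Fal g q.hc.f2) yF y2 gy d hd hp with k3 | k3
          · exact Or.inr (Or.inr k3)
          · left
            rw [k3, y3]
            exact mk
        · left
          rcases hfk d hd hp with k3 | k3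
          · rw [k3, ax, x2]
            exact mf
          · rw [k3, ay, y2]
            exact mg
    have hYo : Odd Y.card := by rw [hYc]; decide
    have hYv : G.val one1 t Y = 5 := by
      have k3 := hE.val_eq (hYU.trans sdiff_subset)
      have k4 : 4 ≤ (G.ed Y Y).card := by
        have k5 : ({x, G.al x} ∪ {y, G.al y} : Finset D) ⊆ G.ed Y Y := by
          intro w hw
          rw [mem_union, mem_insert, mem_insert, mem_singleton, mem_singleton] at hw
          rcases hw with (rfl | rfl) | (rfl | rfl)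
          · exact mem_ed.2 ⟨x1, by rw [x2]; exact mf, by rw [x3]; exact mk⟩
          · exact mem_ed.2 ⟨G.al_mem x x1, by rw [x3]; exact mk, by rw [ax, x2]; exact mf⟩
          · exact mem_ed.2 ⟨y1, by rw [y2]; exact mg, by rw [y3]; exact mk⟩
          · exact mem_ed.2 ⟨G.al_mem y y1, by rw [y3]; exact mk, by rw [ay, y2]; exact mg⟩
        have k6 := card_le_card k5
        rw [card_union_of_disjoint, card_pair fun k => G.noloop x x1 (by rw [← k]),
          card_pair fun k => G.noloop y y1 (by rw [← k])] at k6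
        · exact k6
        · rw [disjoint_left]
          intro w hw hw'
          rw [mem_insert, mem_singleton] at hw hw'
          rcases hw with hw | hw
          · rcases hw' with hw' | hw'
            · exact o1 (by rw [← x2, ← y2, ← hw, hw'])
            · exact o2 (by rw [← x2, ← hw, hw', y3])
          · rcases hw' with hw' | hw'
            · exact o3 (by rw [← y2, ← hw', hw, x3])
            · exact n3 (hw.symm.trans hw')
      have k5 : ((4 : ℕ) : ℝ) ≤ ((G.ed Y Y).card : ℝ) := by exact_mod_cast k4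
      have k6 := hE.odd Y (hYU.trans sdiff_subset) hYo (by omega)
      rw [hYc] at k3
      push_cast at k3 k5
      linarith
    have := q.ex6s h hA hYo mk hYv
    omega
  · -- every outer half with exactly `k` is linked
    have hpp : G.bd (G.vs \ W) = univ.image ![G.al k, G.al f, G.al g] := by
      rw [img3, q.bd']
      ext w
      simp only [mem_insert, mem_singleton]
      tauto
    have hpi : Function.Injective ![G.al k, G.al f, G.al g] :=
      fin3_ne q.ne2.symm q.ne3.symm q.ne1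
    obtain ⟨M2, m, l1, l2⟩ := h.tplU q.obl Tpl.path2_reg Tpl.path2_tab (by norm_num)
      (by decide) rfl (fun c h1 h2 => Tpl.path2_noC c h1 h2) hpp hpi (Or.inl (q.frU hE))
      (fun v _ => by
        unfold Tpl.n12
        rw [mem_filter]
        refine ⟨mem_univ _, fun k1 => o1 ?_⟩
        unfold TOk.kap at k1
        have k2 := mem_singleton.1 (mem_filter.1 k1.1).2
        have k3 := mem_singleton.1 (mem_filter.1 k1.2).2
        exact k2.trans k3.symm)
      (fun X hX he _ _ hv => by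
        unfold Tpl.n12
        rw [mem_filter]
        refine ⟨mem_univ _, fun k3 => ?_⟩
        unfold TOk.kap at k3
        have k4 : G.pi (G.al f) ∈ X := (mem_filter.1 k3.1).2
        have k5 : G.pi (G.al g) ∈ X := (mem_filter.1 k3.2).2
        by_cases k6 : G.pi (G.al k) ∈ X
        · exact q.not3 hE hX he hv k4 k5 k6
        · exact hE.three4 (hX.trans sdiff_subset) he hv k6 (mem_sdiff.1 okU).1 x1 x2 x3 k4
            y1 y2 y3 k5 o1)
      (fun _ _ _ _ _ _ => mem_univ _)
    obtain ⟨i, hi⟩ := card_eq_one.1 (Tpl.path2_pat _ _ l2)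
    have l3 : ∀ j : Fin 3, ![G.al k, G.al f, G.al g] j ∈ M2 ↔ j = i := fun j => by
      rw [← mem_singleton, ← hi, mem_filter]
      exact ⟨fun k => ⟨mem_univ _, k⟩, fun k => k.2⟩
    have c0 := l3 0
    have c1 := l3 1
    have c2 := l3 2
    change G.al k ∈ M2 ↔ _ at c0
    change G.al f ∈ M2 ↔ _ at c1
    change G.al g ∈ M2 ↔ _ at c2
    fin_cases i
    · have b1 := c0.2 rfl
      have b2 : G.al f ∉ M2 := fun k1 => absurd (c1.1 k1) (by decide)
      have b3 : G.al g ∉ M2 := fun k1 => absurd (c2.1 k1) (by decide)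
      obtain ⟨M1, i1, i2, i3⟩ := q.btk h q.mkk
      refine q.killK h i1 i2 (fun k1 => q.nfk (i3 f q.mf k1)) (fun k1 => q.ngk (i3 g q.mg k1))
        l1 b1 b2 b3 (Or.inr fun X2 hX => ?_)
      have r1 : x ∉ F := fun k3 => hkf (by
        rw [← x3]
        exact hF.Ffr _ (hF.Fal x k3))
      have r2 : x ∈ G.bd X2 := mem_bd.2 ⟨x1, by rw [x2]; exact hX.arc, fun k3 => hkf (by
        rw [← x3]
        exact hX.adm.sub k3)⟩
      have r3 := hX.cl x r2 r1
      have r4 := l1.hm.clo x r3 (by rw [x3]; exact okU)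
      have r5 := l1.hm.uniq r4 b1 x3
      exact (mem_sdiff.1 ofU).2 (by
        rw [← x2, (al_eq x1 (mem_bd.1 q.mkk).1).1 r5]
        exact (mem_bd.1 q.mkk).2.1)
    · exact q.dead h l1 (c1.2 rfl) (fun k1 => absurd (c2.1 k1) (by decide))
        fun k1 => absurd (c0.1 k1) (by decide)
    · exact q.sw.dead h l1 (c2.2 rfl) (fun k1 => absurd (c1.1 k1) (by decide))
        fun k1 => absurd (c0.1 k1) (by decide)

theorem absurd1 [Infinite V] [Infinite D] (h : X6 G t fr F jm)
    (m0 : ∀ X ⊆ G.vs \ W, Even X.card → G.val one1 t X = 4 → G.pi (G.al k) ∈ X →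
      G.pi (G.al g) ∉ X) : False := by
  by_cases hj : jm = ∅
  · exact q.noStar h m0 hj
  · exact q.star h m0 hj

/-- **odd crossed sets with three exits** -/
theorem absurd [Infinite V] [Infinite D] (h : X6 G t fr F jm) : False := by
  by_cases h1 : ∀ X ⊆ G.vs \ W, Even X.card → G.val one1 t X = 4 → G.pi (G.al k) ∈ X →
      G.pi (G.al g) ∉ X
  · exact q.absurd1 h h1
  by_cases h2 : ∀ X ⊆ G.vs \ W, Even X.card → G.val one1 t X = 4 → G.pi (G.al k) ∈ X →
      G.pi (G.al f) ∉ X
  · exact q.sw.absurd1 h h2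
  push Not at h1 h2
  obtain ⟨X2, s2, e2, v2, k2, g2⟩ := h1
  obtain ⟨X1, s1, e1, v1, k1, f1⟩ := h2
  exact q.center h s1 e1 v1 k1 f1 s2 e2 v2 k2 g2

end E1

/-- the extra hypothesis: a J-edge with an end outside which can be removed -/
def Hx (G : MG V D) (t : V → ℝ) (fr : Finset V) (F : Finset D) (jm W : Finset V) : Prop :=
  ∃ d ∈ G.ds, d ∉ F ∧ G.pi d ∉ W ∧ t (G.pi d) ≤ 1 ∧ t (G.pi (G.al d)) ≤ 1 ∧
    (jm = ∅ → ¬ Fcd G t fr F d ∧ ¬ Fcd G t fr F (G.al d))

/-- **ROW (E0)** -/
theorem X6.e0B [Infinite V] [Infinite D] (h : X6 G t fr F jm)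
    (s : Ad G (G.pi a) (G.pi (G.al a)) a u e)
    (ty : t (G.pi a) = 1) (tb : t (G.pi (G.al a)) = 1) (hyf : G.pi a ∉ fr)
    (hbf : G.pi (G.al a) ∉ fr)
    (hW : W ⊆ G.vs) (hyW : G.pi a ∈ W) (hbW : G.pi (G.al a) ∈ W) (huW : G.pi (G.al u) ∈ W)
    (h4 : 4 ≤ W.card)
    (hc : (Odd W.card ∧ G.val one1 t W = 5 ∧
        ((G.vs \ W).card ≠ 1 ∨ W \ {G.pi a, G.pi (G.al a)} ⊆ fr)) ∨
      (Even W.card ∧ G.val one1 t W = 4 ∧ ∃ v ∈ G.vs \ W, t v ≠ 2))
    (hx : ¬ FCut G F W ∨ Hx G t fr F jm W) : False := by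
  have hE := h.toEK
  have hF := h.fresh
  have ha := s.a1
  have haF : a ∉ F := fun k => hyf (hF.Ffr _ k)
  have hVe := Nat.even_iff.1 h.even
  have hcd := card_sdiff_add_card_eq_card hW
  have nc : ¬ FCut G F W → ∀ d ∈ F, G.pi d ∈ W → G.pi (G.al d) ∈ W := by
    intro k1 d hd hp
    by_contra k2
    exact k1 ⟨d, hd, hp, k2⟩
  rcases hc with ⟨ho, hv, hc⟩ | ⟨he, hv, hc⟩
  · have hWo := Nat.odd_iff.1 ho
    by_cases h1 : (G.vs \ W).card = 1
    · rcases hc with hc | hc
      · exact hc h1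
      · exact h.e0_one s ty tb hyf hbf hW hyW hbW huW h1 ho hv hc
    have h3 : 3 ≤ (G.vs \ W).card := by omega
    by_cases hcut : FCut G F W
    · rcases hx with hx | hx
      · exact hx hcut
      have hx' := hx
      obtain ⟨d, x1, x2, x3, x4, x5, x6⟩ := hx
      by_cases hb : (G.bd W).card ≤ 2
      · exact h.e0F_three s ty tb hyf hbf hW hyW hbW h3 ho hv hb hcut ⟨d, x1, x2, x3, x4, x5⟩
      have htok := jm_tok hE ha ty tb hyf hbf hW hyW hbW
      have hval := hv
      rw [val_one] at hval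
      have hb3 : (3 : ℝ) ≤ ((G.bd W).card : ℝ) := by
        have : 3 ≤ (G.bd W).card := by omega
        exact_mod_cast this
      have hjc : (0 : ℝ) ≤ ((W ∩ jm).card : ℝ) := Nat.cast_nonneg _
      have htw : ∑ v ∈ W, t v = 2 := by linarith
      have hbc : (G.bd W).card = 3 := by
        have : ((G.bd W).card : ℝ) = (3 : ℕ) := by
          push_cast
          linarith
        exact_mod_cast this
      have hj0 : ((W ∩ jm).card : ℝ) = 0 := by linarith
      have hj : Disjoint jm W := by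
        rw [disjoint_iff_inter_eq_empty, inter_comm]
        exact card_eq_zero.1 (by exact_mod_cast hj0)
      obtain ⟨f, g, k, c1, c2, c3⟩ := hcut.fc3 hF hW hbc
      have q : E1 G t fr F jm W a f g k := ⟨c1, c2, c3, ho, hv, h3, by omega, htw, ha, haF, ty, tb,
        hyf, hbf, hyW, hbW, hj, hx'⟩
      exact q.absurd h
    · exact h.e0_oddN ha haF ty tb hyf hW hyW hbW h4 h3 ho hv (nc hcut)
  · by_cases hcut : FCut G F W
    · rcases hx with hx | hx
      · exact hx hcut
      obtain ⟨d, x1, x2, x3, x4, x5, -⟩ := hx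
      exact h.e0F_evenN ha ty tb hyf hbf ⟨hW, hyW, hbW, h4, he, hv⟩ hcut ⟨d, x1, x2, x3, x4, x5⟩
    · exact h.e0_even ha ty tb hyf hW hyW hbW h4 he hv (nc hcut) hc

end MG

end RH
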