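import Pool.Agent.Lib.RH.CE6P
import Pool.Agent.Lib.RH.CE6Even
import Pool.Agent.Lib.RH.CE6SetL
import Pool.Agent.Lib.RH.E0
import Pool.Agent.Lib.RH.T6

/-! # (E0), blocking sets which are not crossed by F-darts

Two adjacent vertices `y`, `b` with one token each. `X6.e0_even`: no even set of value 4 around them.
`X6.e0_odd`: no maximal odd set of value 5. `X6.e0_one`: the case of one outer vertex and only fresh
other vertices. -/

set_option autoImplicit false

namespace RH

open Finset Classical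

namespace MG

variable {V D : Type*} {G : MG V D} {t : V → ℝ} {fr : Finset V} {F : Finset D}
variable {jm A W X N S : Finset V} {e d a u : D} {T M : Finset D} {k : ℝ}

/-- **I1(c)**, two adjacent tokens inside: every exit `c` is used by a half -/
theorem X6.inI0 [Infinite V] [Infinite D] (h : X6 G t fr F jm) (b : IBlk G t W 1)
    (hJ : ∀ d ∈ G.bd W, d ∉ F) (hU : 2 ≤ (G.vs \ W).card) {dy c : D}
    (hdy : dy ∈ G.ds) (hbW : G.pi dy ∈ W) (hdW : G.pi (G.al dy) ∈ W) (hdF : dy ∉ F)
    (htb : t (G.pi dy) ≠ 0) (hty : t (G.pi (G.al dy)) ≠ 0) (hc : c ∈ G.bd W)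
    (hs : SpI G fr jm W T S) (hcT : c ∉ T) :
    ∃ M, G.GHalf one1 fr F jm W M ∧ (T.Nonempty → G.LkS fr F W M T S) ∧ G.Sg W M c := by
  have hT : ∀ d ∈ T, ∀ i : Fin 1, (fun _ => c) i ≠ d := fun d hd _ h1 => hcT (by
    have h2 : c = d := h1
    rw [h2]
    exact hd)
  rcases h.tplI b Tpl.bt_reg Tpl.bt_tab (by decide) rfl (pp := fun _ : Fin 1 => c)
    (fun _ => hc) (fun i j _ => Subsingleton.elim i j) (Or.inr (by omega))
    (hs.card h.fresh h.jm2 hJ) (hs.drop hT)
    (fun _ _ => mem_univ _) (fun _ _ _ _ _ _ => mem_univ _) (fun _ _ _ _ _ _ => mem_univ _) with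
    ⟨M, m, h1, h2⟩ | ⟨p, cc, h1, h2, -⟩
  · have h3 := h1.isol h.fresh hJ (hs.drop hT)
    have hcM : c ∈ M := by
      have h4 := Tpl.bt_pat _ _ h2
      have h5 : (0 : Fin 1) ∈ univ.filter fun _ : Fin 1 => c ∈ M := by
        rw [h4]
        exact mem_singleton_self _
      exact (mem_filter.1 h5).2
    have hiff : ∀ e ∈ G.bd W, e ∈ M ↔ e = c := by
      intro e he
      constructor
      · intro k
        obtain ⟨i, hi⟩ := h1.ex e he k
        exact hi.symm
      · rintro rfl
        exact hcM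
    obtain ⟨h6, h7⟩ := h3.out h.fresh h.jm2 hJ hs fun d hd hdM =>
      hcT (((hiff d (hs.1 hd)).1 hdM) ▸ hd)
    exact ⟨M, h6, h7, hc, hiff⟩
  · exfalso
    have h3 := h1.tok _ hbW htb
    have h4 := h1.tok _ hdW hty
    have h5 := h1.jq dy hdy hbW hdW one_pos hdF
    rw [h3, h4] at h5
    norm_num at h5

/-- **hP** with weak injectivity -/
theorem X6.hP0 [Infinite V] [Infinite D] (h : X6 G t fr F jm) (b : BW G t F A e)
    (h3 : (G.bd A).card ≤ 3) (hA : 3 ≤ A.card)
    (hW : (fr ∩ A).card < fr.card ∨ 3 < (G.vs \ A).card)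
    (hinj : ∀ p ∈ G.bd A, ∀ q ∈ G.bd A, p ≠ e → q ≠ e → G.pi p = G.pi q → p = q) :
    ∃ d, G.SOut fr F jm A d := by
  have hAo : A.card % 2 = 1 := b.oblkP.cardA h.even
  have hq : ∀ X ⊆ A, G.val one1 t (X ∪ (G.vs \ A)) = G.val one1 t X + 5 - 2 * qx G A X := by
    intro X hX
    rw [h.toEK.join b.hA hX, b.val]
  by_cases c3 : (G.bd A).card = 3
  · obtain ⟨r, s, hbd, n1, n2, n3⟩ := X6.three_of c3 b.he
    have hpi : Function.Injective ![e, r, s] := by
      intro i j hij
      fin_cases i <;> fin_cases j <;> simp_all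
    have hpp : G.bd A = univ.image ![e, r, s] := by
      rw [hbd]
      ext x
      rw [mem_image]
      constructor
      · intro hx
        simp only [mem_insert, mem_singleton] at hx
        rcases hx with rfl | rfl | rfl
        · exact ⟨0, mem_univ _, rfl⟩
        · exact ⟨1, mem_univ _, rfl⟩
        · exact ⟨2, mem_univ _, rfl⟩
      · rintro ⟨i, -, rfl⟩
        fin_cases i <;> simp
    have hmem : ∀ i, ![e, r, s] i ∈ G.bd A := fun i => by
      rw [hpp]
      exact mem_image_of_mem _ (mem_univ _)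
    obtain ⟨M, m, h1, h2⟩ := h.tplF b.oblkP Tpl.path2_reg Tpl.path2_tab (by decide) (by decide) rfl
      (fun c h1 h2 => Tpl.path2_noC c h1 h2) hpp hpi hW
      (fun v _ => by
        unfold Tpl.n12
        rw [mem_filter]
        refine ⟨mem_univ _, ?_⟩
        rintro ⟨k1, k2⟩
        have k3 := mem_singleton.1 (mem_filter.1 k1).2
        have k4 := mem_singleton.1 (mem_filter.1 k2).2
        exact absurd (hpi (hinj _ (hmem 1) _ (hmem 2) n1.symm n2.symm (k3.trans k4.symm)))
          (by decide))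
      (fun X hX he hXn hXA hv => by
        unfold Tpl.n12
        rw [mem_filter]
        refine ⟨mem_univ _, ?_⟩
        rintro ⟨k1, k2⟩
        have k3 := (mem_filter.1 k1).2
        have k4 := (mem_filter.1 k2).2
        have k5 := hq X hX
        have hd : Disjoint X (G.vs \ A) :=
          disjoint_left.2 fun v hv hv' => (mem_sdiff.1 hv').2 (hX hv)
        have ho : Odd (X ∪ (G.vs \ A)).card := by
          rw [card_union_of_disjoint hd, Nat.odd_iff]
          have := b.odd
          rw [Nat.even_iff] at he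
          rw [Nat.odd_iff] at this
          omega
        by_cases k6 : G.pi e ∈ X
        · have k7 : qx G A X = 3 := by
            unfold qx
            rw [← c3]
            congr 1
            rw [filter_eq_self]
            intro d hd
            rw [hbd, mem_insert, mem_insert, mem_singleton] at hd
            rcases hd with rfl | rfl | rfl
            · exact k6
            · exact k3
            · exact k4
          have k8 := h.odd (X ∪ (G.vs \ A)) (union_subset (hX.trans b.hA) sdiff_subset) ho (by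
            rw [card_union_of_disjoint hd]
            have := b.big
            omega)
          rw [k5, hv, k7] at k8
          norm_num at k8
        · have k7 := b.mO X hX he hXn k6
          have k8 : 2 ≤ qx G A X := by
            unfold qx
            have k9 : ({r, s} : Finset D) ⊆ (G.bd A).filter fun d => G.pi d ∈ X := by
              intro d hd
              rw [mem_insert, mem_singleton] at hd
              rcases hd with rfl | rfl
              · exact mem_filter.2 ⟨hmem 1, k3⟩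
              · exact mem_filter.2 ⟨hmem 2, k4⟩
            have k10 := card_le_card k9
            rwa [card_pair n3] at k10
          have k9 : (2 : ℝ) ≤ qx G A X := by exact_mod_cast k8
          rw [k5, hv] at k7
          linarith)
      (fun _ _ _ _ _ _ => mem_univ _)
    obtain ⟨d, hd⟩ := sg_of_pat hpp hpi (Tpl.path2_pat _ _ h2)
    exact ⟨d, M, h1, hd⟩
  · by_cases c2 : (G.bd A).card = 2
    · obtain ⟨r, hr, hre⟩ : ∃ r ∈ G.bd A, r ≠ e := by
        have h1 : ((G.bd A).erase e).card = 1 := by rw [card_erase_of_mem b.he, c2]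
        obtain ⟨r, hr⟩ := card_pos.1 (by rw [h1]; norm_num : 0 < ((G.bd A).erase e).card)
        exact ⟨r, (mem_erase.1 hr).2, (mem_erase.1 hr).1⟩
      have hbd : G.bd A = {e, r} := by
        symm
        refine eq_of_subset_of_card_le ?_ (by rw [c2, card_pair hre.symm])
        intro x hx
        rw [mem_insert, mem_singleton] at hx
        rcases hx with rfl | rfl
        · exact b.he
        · exact hr
      have hpi : Function.Injective ![e, r] := by
        intro i j hij
        fin_cases i <;> fin_cases j <;> simp_all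
      have hpp : G.bd A = univ.image ![e, r] := by
        rw [hbd]
        ext x
        rw [mem_image]
        constructor
        · intro hx
          simp only [mem_insert, mem_singleton] at hx
          rcases hx with rfl | rfl
          · exact ⟨0, mem_univ _, rfl⟩
          · exact ⟨1, mem_univ _, rfl⟩
        · rintro ⟨i, -, rfl⟩
          fin_cases i <;> simp
      obtain ⟨M, m, h1, h2⟩ := h.tplF b.oblkP Tpl.path3_reg Tpl.path3_tab (by decide) (by decide)
        rfl (fun c h1 h2 => Tpl.path3_noC c h1 h2) hpp hpi hW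
        (fun _ _ => mem_univ _) (fun _ _ _ _ _ _ => mem_univ _) (fun _ _ _ _ _ _ => mem_univ _)
      obtain ⟨d, hd⟩ := sg_of_pat hpp hpi (Tpl.path3_pat _ _ h2)
      exact ⟨d, M, h1, hd⟩
    · exfalso
      have h1 := h.odd A b.hA (Nat.odd_iff.2 hAo) (by omega)
      have h2 := h.wt.val_compl b.hA
      rw [b.val, h.tau] at h2
      have h4 := val_one G t A
      have h5 : ((G.bd A).card : ℝ) ≤ (1 : ℕ) := by
        have : (G.bd A).card ≤ 1 := by omega
        exact_mod_cast this
      push_cast at h5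
      linarith

/-- two vertices with one token each -/
theorem two_tok (h : EK G 6 t fr F jm) (ha : a ∈ G.ds) (ty : t (G.pi a) = 1)
    (tb : t (G.pi (G.al a)) = 1) (hW : W ⊆ G.vs) (hyW : G.pi a ∈ W)
    (hbW : G.pi (G.al a) ∈ W) : 2 ≤ ∑ v ∈ W, t v := by
  have hyb : G.pi a ≠ G.pi (G.al a) := fun e' => G.noloop a ha e'.symm
  have h1 : ∑ v ∈ ({G.pi a, G.pi (G.al a)} : Finset V), t v ≤ ∑ v ∈ W, t v :=
    sum_le_sum_of_subset_of_nonneg (insert_subset hyW (singleton_subset_iff.2 hbW))
      fun v hv _ => h.t0 v (hW hv)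
  rw [sum_pair hyb, ty, tb] at h1
  linarith

/-- **an even set around two adjacent tokens** -/
theorem X6.e0_even [Infinite V] [Infinite D] (h : X6 G t fr F jm) (ha : a ∈ G.ds)
    (ty : t (G.pi a) = 1) (tb : t (G.pi (G.al a)) = 1) (hyf : G.pi a ∉ fr)
    (hN : N ⊆ G.vs) (hyN : G.pi a ∈ N) (hbN : G.pi (G.al a) ∈ N) (h4 : 4 ≤ N.card)
    (he : Even N.card) (hv : G.val one1 t N = 4)
    (hF : ∀ d ∈ F, G.pi d ∈ N → G.pi (G.al d) ∈ N) (hc : ∃ v ∈ G.vs \ N, t v ≠ 2) : False := by
  have hE := h.toEK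
  obtain ⟨v, hvN, hv2⟩ := hc
  have hcd := card_sdiff_add_card_eq_card hN
  have hZe : Even (G.vs \ N).card := by
    have h5 := h.even
    rw [Nat.even_iff] at h5 he ⊢
    omega
  have hZ2 : 2 ≤ (G.vs \ N).card := by
    have h5 : 0 < (G.vs \ N).card := card_pos.2 ⟨v, hvN⟩
    rw [Nat.even_iff] at hZe
    omega
  have b : EvB G t F jm N := ⟨hN, he, h4, hZ2, hv, hF, G.pi a, hyN, by rw [ty]; norm_num,
    fun k => hyf (h.fresh.jms k)⟩
  have ht := two_tok hE ha ty tb hN hyN hbN
  have h5 := (b.tok hE).1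
  have hb2 : (G.bd N).card ≤ 2 := by
    have : ((G.bd N).card : ℝ) ≤ (2 : ℕ) := by
      push_cast
      linarith
    exact_mod_cast this
  have n0 := b.n0 h
  have n1 := b.n1 h
  have hb : (G.bd N).card = 2 := by omega
  by_cases hZ4 : 4 ≤ (G.vs \ N).card
  · exact b.n2 h hZ4 hb
  · have hZ : (G.vs \ N).card = 2 := by
      rw [Nat.even_iff] at hZe
      omega
    have h6 : ∑ v ∈ G.vs \ N, t v = 4 := by
      have h7 := sum_sdiff hN (f := t)
      have h8 := h.tau
      rw [hb] at h5
      push_cast at h5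
      linarith
    have h7 : ((G.vs \ N).erase v).card = 1 := by rw [card_erase_of_mem hvN, hZ]
    obtain ⟨w, hw⟩ := card_eq_one.1 h7
    have h8 := sum_erase_add (f := t) _ hvN
    rw [hw, sum_singleton, h6] at h8
    have hwZ : w ∈ G.vs \ N := mem_of_mem_erase (by rw [hw]; exact mem_singleton_self w)
    have c4 : 4 ≤ G.vs.card := by omega
    have h9 := hE.t_le_two c4 (mem_sdiff.1 hwZ).1
    have h10 := hE.t_le_two c4 (mem_sdiff.1 hvN).1
    exact hv2 (by linarith)

/-- the exit for the token port -/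
theorem exists_port (h : EK G 6 t fr F jm) (hA : A ⊆ G.vs) (hA3 : 3 ≤ A.card)
    (hAo : Odd A.card) (hv : G.val one1 t (G.vs \ A) = 5) (ht : 2 ≤ ∑ v ∈ G.vs \ A, t v)
    (_hW : (G.vs \ A).Nonempty) :
    (G.bd A).card ≤ 3 ∧ ∃ e ∈ G.bd A, t (G.pi e) ≠ 2 ∧
      ∀ p ∈ G.bd A, ∀ q ∈ G.bd A, p ≠ e → q ≠ e → G.pi p = G.pi q → p = q := by
  have hAA : G.vs \ (G.vs \ A) = A := Finset.sdiff_sdiff_eq_self hA
  -- the number of exits
  have hbt : ((G.bd A).card : ℝ) + ∑ v ∈ G.vs \ A, t v = 5 := by
    have h1 := h.val_compl hA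
    have h2 := sum_sdiff hA (f := t)
    have h3 := h.tau
    rw [hv, val_one] at h1
    linarith
  have h3 : (G.bd A).card ≤ 3 := by
    have : ((G.bd A).card : ℝ) ≤ (3 : ℕ) := by
      push_cast
      linarith
    exact_mod_cast this
  have h2 : 2 ≤ (G.bd A).card := by
    by_contra hc
    have h4 : ((G.bd A).card : ℝ) ≤ (1 : ℕ) := by exact_mod_cast (by omega : (G.bd A).card ≤ 1)
    push_cast at h4
    have h5 := h.odd A hA hAo (by omega)
    have h6 := sum_sdiff hA (f := t)
    have h7 := h.tau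
    rw [val_one] at h5
    linarith
  refine ⟨h3, ?_⟩
  by_cases hc : ∃ p ∈ G.bd A, ∃ q ∈ G.bd A, G.pi p = G.pi q ∧ p ≠ q
  · obtain ⟨p, hp, q, hq, hpq, hne⟩ := hc
    refine ⟨p, hp, ?_, ?_⟩
    · intro h4
      have h5 := h.st_two (hA (mem_bd.1 hp).2.1) h4
      have h6 : ({p, q} : Finset D) ⊆ G.st (G.pi p) := by
        intro x hx
        rw [mem_insert, mem_singleton] at hx
        rcases hx with rfl | rfl
        · exact mem_st.2 ⟨(mem_bd.1 hp).1, rfl⟩
        · exact mem_st.2 ⟨(mem_bd.1 hq).1, hpq.symm⟩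
      have h7 := card_le_card h6
      rw [card_pair hne, h5] at h7
      omega
    · intro r hr s hs hrp hsp hrs
      by_contra hne2
      have h4 : ({p, r, s} : Finset D) = G.bd A := by
        refine eq_of_subset_of_card_le ?_ ?_
        · intro x hx
          rw [mem_insert, mem_insert, mem_singleton] at hx
          rcases hx with rfl | rfl | rfl
          · exact hp
          · exact hr
          · exact hs
        · rw [card_insert_of_notMem, card_pair hne2]
          · exact h3
          · rw [mem_insert, mem_singleton, not_or]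
            exact ⟨hrp.symm, hsp.symm⟩
      have h5 : G.pi q = G.pi r := by
        have h6 := hq
        rw [← h4, mem_insert, mem_insert, mem_singleton] at h6
        rcases h6 with h6 | h6 | h6
        · exact absurd h6.symm hne
        · rw [h6]
        · rw [h6, hrs]
      have hX : ({G.pi p} : Finset V) ⊆ A := singleton_subset_iff.2 (mem_bd.1 hp).2.1
      have h6 := h.join hA hX
      have h7 : qx G A {G.pi p} = 3 := by
        unfold qx
        rw [filter_eq_self.2, ← h4, card_insert_of_notMem, card_pair hne2]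
        · rw [mem_insert, mem_singleton, not_or]
          exact ⟨hrp.symm, hsp.symm⟩
        · intro d hd
          rw [← h4, mem_insert, mem_insert, mem_singleton] at hd
          rw [mem_singleton]
          rcases hd with rfl | rfl | rfl
          · rfl
          · rw [← h5, hpq]
          · rw [← hrs, ← h5, hpq]
      have hdis : Disjoint ({G.pi p} : Finset V) (G.vs \ A) :=
        disjoint_left.2 fun v hv hv' => (mem_sdiff.1 hv').2 (hX hv)
      have hcd := card_sdiff_add_card_eq_card hA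
      have h8 := h.evn ({G.pi p} ∪ (G.vs \ A)) (union_subset (hX.trans hA) sdiff_subset) (by
        rw [card_union_of_disjoint hdis, card_singleton, Nat.even_iff]
        have h9 := h.even
        rw [Nat.even_iff] at h9
        rw [Nat.odd_iff] at hAo
        omega) ⟨G.pi p, mem_union_left _ (mem_singleton_self _)⟩ (fun h9 => by
          have h10 := congrArg card h9
          rw [card_union_of_disjoint hdis, card_singleton] at h10
          omega)
      rw [h6, h7, hv, h.wt.val_single (hA (mem_bd.1 hp).2.1)] at h8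
      norm_num at h8
  · push Not at hc
    have hn : ∃ e ∈ G.bd A, t (G.pi e) ≠ 2 := by
      by_contra hall
      push Not at hall
      have h4 : ((G.bd A).image G.pi).card = (G.bd A).card :=
        card_image_of_injOn fun p hp q hq hpq => hc p (mem_coe.1 hp) q (mem_coe.1 hq) hpq
      have h5 : (G.bd A).image G.pi ⊆ A := by
        intro v hv
        obtain ⟨d, hd, rfl⟩ := mem_image.1 hv
        exact (mem_bd.1 hd).2.1
      have h6 : ∑ v ∈ (G.bd A).image G.pi, t v ≤ ∑ v ∈ A, t v :=
        sum_le_sum_of_subset_of_nonneg h5 fun v hv _ => h.t0 v (hA hv)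
      have h7 : ∑ v ∈ (G.bd A).image G.pi, t v = 2 * ((G.bd A).card : ℝ) := by
        have h8 : ∀ v ∈ (G.bd A).image G.pi, t v = 2 := by
          intro v hv
          obtain ⟨d, hd, rfl⟩ := mem_image.1 hv
          exact hall d hd
        rw [sum_congr rfl h8, sum_const, h4, nsmul_eq_mul]
        ring
      have h8 := sum_sdiff hA (f := t)
      have h9 := h.tau
      have h10 : (2 : ℝ) ≤ ((G.bd A).card : ℝ) := by exact_mod_cast h2
      linarith
    obtain ⟨e, he, hte⟩ := hn
    exact ⟨e, he, hte, fun p hp q hq _ _ hpq => hc p hp q hq hpq⟩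

/-- **a maximal odd set around two adjacent tokens** -/
theorem X6.e0_odd [Infinite V] [Infinite D] (h : X6 G t fr F jm) (ha : a ∈ G.ds) (haF : a ∉ F)
    (ty : t (G.pi a) = 1) (tb : t (G.pi (G.al a)) = 1) (hyf : G.pi a ∉ fr)
    (hW : W ⊆ G.vs) (hyW : G.pi a ∈ W) (hbW : G.pi (G.al a) ∈ W) (h4 : 4 ≤ W.card)
    (h3 : 3 ≤ (G.vs \ W).card) (ho : Odd W.card) (hv : G.val one1 t W = 5)
    (hF : ∀ d ∈ F, G.pi d ∈ W → G.pi (G.al d) ∈ W)
    (hmax : ∀ W' ⊆ G.vs, W ⊆ W' → Odd W'.card → 3 ≤ (G.vs \ W').card →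
      G.val one1 t W' = 5 → W' = W)
    (hev : ∀ N ⊆ G.vs, W ⊆ N → Even N.card → G.val one1 t N = 4 → ∀ v ∈ G.vs \ N, t v = 2) :
    False := by
  have hE := h.toEK
  obtain ⟨A, hAd⟩ : ∃ A, A = G.vs \ W := ⟨_, rfl⟩
  have hA : A ⊆ G.vs := by rw [hAd]; exact sdiff_subset
  have hWA : G.vs \ A = W := by rw [hAd]; exact Finset.sdiff_sdiff_eq_self hW
  rw [← hAd] at h3
  have hcd := card_sdiff_add_card_eq_card hA
  rw [hWA] at hcd
  have hVe := Nat.even_iff.1 h.even
  have hWo := Nat.odd_iff.1 ho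
  have hAo : Odd A.card := by
    rw [Nat.odd_iff]
    omega
  have ht := two_tok hE ha ty tb hW hyW hbW
  obtain ⟨hb3, e, he, hte, hinj⟩ := exists_port hE hA h3 hAo (by rw [hWA]; exact hv)
    (by rw [hWA]; exact ht) (by rw [hWA]; exact ⟨_, hyW⟩)
  have hes := (mem_bd.1 he)
  have key : ∀ X ⊆ A, G.pi e ∉ X → X ∪ W ⊆ G.vs ∧ (X ∪ W).card = X.card + W.card ∧
      G.pi e ∈ G.vs \ (X ∪ W) ∧ (G.vs \ (X ∪ W)).card = A.card - X.card := by
    intro X hX hXe
    have k1 : X ∪ W ⊆ G.vs := union_subset (hX.trans hA) hW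
    have k2 : Disjoint X W := by
      rw [← hWA]
      exact disjoint_left.2 fun v hv hv' => (mem_sdiff.1 hv').2 (hX hv)
    have k3 : (X ∪ W).card = X.card + W.card := card_union_of_disjoint k2
    refine ⟨k1, k3, ?_, ?_⟩
    · refine mem_sdiff.2 ⟨hA hes.2.1, fun k4 => ?_⟩
      rcases mem_union.1 k4 with k4 | k4
      · exact hXe k4
      · rw [← hWA] at k4
        exact (mem_sdiff.1 k4).2 hes.2.1
    · have k4 := card_sdiff_add_card_eq_card k1
      omega
  have b : BW G t F A e := by
    refine ⟨hA, by rw [hWA]; exact ho, by rw [hWA]; omega, by rw [hWA]; exact hv,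
      by rw [hWA]; linarith, he, ?_, ?_, ?_⟩
    · intro d hd hdA
      by_contra hn
      have h5 : G.pi (G.al d) ∈ W := by
        rw [← hWA]
        exact mem_sdiff.2 ⟨G.pi_mem _ (G.al_mem d (h.fresh.Fsub hd)), hn⟩
      have h6 := hF _ (h.fresh.Fal d hd) h5
      rw [G.al_al d (h.fresh.Fsub hd), ← hWA] at h6
      exact (mem_sdiff.1 h6).2 hdA
    · intro X hX hXe hXn hXp
      rw [hWA]
      obtain ⟨k1, k2, k3, k4⟩ := key X hX hXp
      have hXe' := Nat.even_iff.1 hXe
      have k5 : Odd (X ∪ W).card := by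
        rw [Nat.odd_iff]
        omega
      have k6 : (X ∪ W).card ≠ 1 := by omega
      rcases hE.odd_or k1 k5 k6 with k7 | k7
      · exfalso
        have k8 : 0 < (G.vs \ (X ∪ W)).card := card_pos.2 ⟨_, k3⟩
        by_cases k9 : 3 ≤ (G.vs \ (X ∪ W)).card
        · have k10 := hmax _ k1 subset_union_right k5 k9 k7
          rw [k10] at k2
          have := card_pos.2 hXn
          omega
        · have k10 : (G.vs \ (X ∪ W)).card = 1 := by
            have := card_sdiff_add_card_eq_card k1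
            omega
          obtain ⟨v, hv'⟩ := card_eq_one.1 k10
          have k11 : G.pi e = v := by
            rw [hv'] at k3
            exact mem_singleton.1 k3
          have k12 : ({v} : Finset V) ⊆ G.vs := by rw [← hv']; exact sdiff_subset
          have k13 := hE.val_compl k12
          have k14 : G.vs \ {v} = X ∪ W := by
            rw [← hv']
            exact Finset.sdiff_sdiff_eq_self k1
          rw [k14, k7, h.wt.val_single (singleton_subset_iff.1 k12), sum_singleton, ← k11] at k13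
          exact hte (by linarith)
      · exact k7
    · intro X hX hXo hXp
      rw [hWA]
      obtain ⟨k1, k2, k3, k4⟩ := key X hX hXp
      have hXo' := Nat.odd_iff.1 hXo
      have k5 : Even (X ∪ W).card := by
        rw [Nat.even_iff]
        omega
      rcases hE.evn_or k1 k5 ⟨_, mem_union_right _ hyW⟩ (fun k6 => by
        rw [k6] at k3
        exact (mem_sdiff.1 k3).2 (mem_sdiff.1 k3).1) with k7 | k7
      · exact absurd (hev _ k1 subset_union_right k5 k7 _ k3) hte
      · exact k7
  have hy : ∃ y ∈ G.vs \ A, y ∉ fr ∧ 1 ≤ t y := ⟨G.pi a, by rw [hWA]; exact hyW, hyf, by rw [ty]⟩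
  obtain ⟨d, hd⟩ := h.hP0 b hb3 h3 (Or.inr (by rw [hWA]; omega)) hinj
  obtain ⟨M, m1, m2⟩ := hd
  have hdb := m2.1
  refine h.glueSg b hy ⟨M, m1, m2⟩ (b.sall hE hy hdb fun T S hs hdT => ?_)
  exact h.inI0 (b.iblkP ⟨_, hes.2.1⟩) (b.hJ hE) (by
    rw [Finset.sdiff_sdiff_eq_self hA]
    omega) ha (by rw [hWA]; exact hyW) (by rw [hWA]; exact hbW) haF (by rw [ty]; norm_num)
    (by rw [tb]; norm_num) (bd_al hA hdb) hs hdT

/-- the F-darts of a bipartite part -/
theorem even_fr (hF : G.FrS one1 fr F jm) (h1 : ∀ d ∈ F, G.pi d ∈ S ↔ G.pi (G.al d) ∉ S) :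
    Even fr.card := by
  have key : ∀ P : V → Prop, ((F.filter fun d => P (G.pi d)).card) = 2 * (fr.filter P).card := by
    intro P
    rw [card_eq_sum_card_fiberwise (f := G.pi) (t := fr.filter P)]
    · rw [sum_congr rfl (g := fun _ => 2), sum_const, smul_eq_mul, mul_comm]
      intro v hv
      obtain ⟨k1, k2⟩ := mem_filter.1 hv
      rw [← hF.two v k1]
      congr 1
      ext d
      rw [mem_filter, mem_filter, mem_filter]
      constructor
      · rintro ⟨⟨k3, -⟩, k4⟩
        exact ⟨k3, k4⟩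
      · rintro ⟨k3, k4⟩
        exact ⟨⟨k3, by rw [k4]; exact k2⟩, k4⟩
    · intro d hd
      obtain ⟨k1, k2⟩ := mem_filter.1 (mem_coe.1 hd)
      exact mem_coe.2 (mem_filter.2 ⟨hF.Ffr d k1, k2⟩)
  have h2 : (F.filter fun d => G.pi d ∈ S).card = (F.filter fun d => G.pi d ∉ S).card := by
    refine card_bij (fun d _ => G.al d) ?_ ?_ ?_
    · intro d hd
      obtain ⟨k1, k2⟩ := mem_filter.1 hd
      exact mem_filter.2 ⟨hF.Fal d k1, (h1 d k1).1 k2⟩
    · intro d hd d' hd' k
      rw [← G.al_al d (hF.Fsub (mem_filter.1 hd).1), k, G.al_al d' (hF.Fsub (mem_filter.1 hd').1)]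
    · intro d hd
      obtain ⟨k1, k2⟩ := mem_filter.1 hd
      have k3 := G.al_al d (hF.Fsub k1)
      refine ⟨G.al d, mem_filter.2 ⟨hF.Fal d k1, ?_⟩, k3⟩
      rw [h1 _ (hF.Fal d k1), k3]
      exact k2
  have h3 : (F.filter fun d => G.pi d ∈ S).card = 2 * (fr.filter fun v => v ∈ S).card := by
    convert key fun v => v ∈ S
  have h4 : (F.filter fun d => G.pi d ∉ S).card = 2 * (fr.filter fun v => v ∉ S).card := by
    convert key fun v => v ∉ S
  have h5 : (fr.filter fun v => v ∈ S).card + (fr.filter fun v => v ∉ S).card = fr.card := by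
    convert card_filter_add_card_filter_not (s := fr) (fun v => v ∈ S)
  exact ⟨(fr.filter fun v => v ∈ S).card, by omega⟩

/-- **one outer vertex, all other vertices are fresh** -/
theorem X6.e0_one [Infinite V] (h : X6 G t fr F jm)
    (s : Ad G (G.pi a) (G.pi (G.al a)) a u e)
    (ty : t (G.pi a) = 1) (tb : t (G.pi (G.al a)) = 1) (hyf : G.pi a ∉ fr)
    (hbf : G.pi (G.al a) ∉ fr) (hW : W ⊆ G.vs) (hyW : G.pi a ∈ W) (hbW : G.pi (G.al a) ∈ W)
    (huW : G.pi (G.al u) ∈ W) (h1 : (G.vs \ W).card = 1) (ho : Odd W.card)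
    (hv : G.val one1 t W = 5) (hs : W \ {G.pi a, G.pi (G.al a)} ⊆ fr) : False := by
  have hE := h.toEK
  have hF := h.fresh
  have hw := h.wt
  have ha := s.a1
  have ha' := G.al_mem a ha
  obtain ⟨y, hyd⟩ : ∃ y, y = G.pi a := ⟨_, rfl⟩
  obtain ⟨b, hbd⟩ : ∃ b, b = G.pi (G.al a) := ⟨_, rfl⟩
  rw [← hyd, ← hbd] at s hs
  rw [← hyd] at ty hyf hyW
  rw [← hbd] at tb hbf hbW
  obtain ⟨v, hvW⟩ := card_eq_one.1 h1
  have hvs : ({v} : Finset V) ⊆ G.vs := by rw [← hvW]; exact sdiff_subset
  have hvv := singleton_subset_iff.1 hvs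
  have hWv : G.vs \ {v} = W := by
    rw [← hvW]
    exact Finset.sdiff_sdiff_eq_self hW
  have hnvW : v ∉ W := by
    rw [← hWv]
    exact fun k => (mem_sdiff.1 k).2 (mem_singleton_self v)
  -- two tokens at `v`
  have tv : t v = 2 := by
    have k1 := hE.val_compl hvs
    rw [hWv, hv, hw.val_single hvv, sum_singleton] at k1
    linarith
  have hvf : v ∉ fr := hE.two_nf tv
  have hyv : y ∈ G.vs := hW hyW
  have hbv : b ∈ G.vs := hW hbW
  have hyb : y ≠ b := s.yb
  have mW : ∀ x, x ∈ G.vs → x ≠ v → x ∈ W := fun x k1 k2 => by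
    rw [← hWv]
    exact mem_sdiff.2 ⟨k1, fun k3 => k2 (mem_singleton.1 k3)⟩
  have hall : ∀ x ∈ G.vs, x ∈ fr ∨ x = y ∨ x = b ∨ x = v := by
    intro x hx
    by_cases k1 : x = v
    · exact Or.inr (Or.inr (Or.inr k1))
    by_cases k2 : x = y
    · exact Or.inr (Or.inl k2)
    by_cases k3 : x = b
    · exact Or.inr (Or.inr (Or.inl k3))
    refine Or.inl (hs (mem_sdiff.2 ⟨mW x hx k1, fun k4 => ?_⟩))
    rw [mem_insert, mem_singleton] at k4
    exact k4.elim k2 k3
  have hfrW : fr = W \ {y, b} := by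
    refine Subset.antisymm (fun x hx => ?_) hs
    refine mem_sdiff.2 ⟨mW x (hF.fsub hx) fun k => hvf (k ▸ hx), fun k => ?_⟩
    rw [mem_insert, mem_singleton] at k
    rcases k with k | k
    · exact hyf (k ▸ hx)
    · exact hbf (k ▸ hx)
  have hfo : Odd fr.card := by
    have k1 : ({y, b} : Finset V) ⊆ W := insert_subset hyW (singleton_subset_iff.2 hbW)
    have k2 := card_sdiff_add_card_eq_card k1
    rw [← hfrW, card_pair hyb] at k2
    rw [Nat.odd_iff] at ho ⊢
    omega
  -- the set without `y`, `b`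
  obtain ⟨Z, hZ⟩ : ∃ Z, Z = G.vs \ {y, b} := ⟨_, rfl⟩
  have hZs : Z ⊆ G.vs := by rw [hZ]; exact sdiff_subset
  have mZ : ∀ x, x ∈ Z ↔ x ∈ G.vs ∧ x ≠ y ∧ x ≠ b := by
    intro x
    rw [hZ, mem_sdiff, mem_insert, mem_singleton, not_or]
  have hsub : ({y, b} : Finset V) ⊆ G.vs := insert_subset hyv (singleton_subset_iff.2 hbv)
  have hVZ : G.vs \ Z = {y, b} := by
    rw [hZ]
    exact Finset.sdiff_sdiff_eq_self hsub
  have hfZ : fr ⊆ Z := fun x hx => (mZ x).2 ⟨hF.fsub hx, fun k => hyf (k ▸ hx),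
    fun k => hbf (k ▸ hx)⟩
  have hZc := card_sdiff_add_card_eq_card hsub
  rw [← hZ, card_pair hyb] at hZc
  have hZe : Even Z.card := by
    have k1 := h.even
    rw [Nat.even_iff] at k1 ⊢
    omega
  have hbZ : ∀ d, d ∈ G.bd Z ↔ d = G.al u ∨ d = G.al e := by
    intro d
    rw [mem_bd, mZ, mZ]
    constructor
    · rintro ⟨k1, ⟨k2, k3, k4⟩, k5⟩
      have k6 : G.pi (G.al d) = y ∨ G.pi (G.al d) = b := by
        by_contra k6
        rw [not_or] at k6
        exact k5 ⟨G.pi_mem _ (G.al_mem d k1), k6.1, k6.2⟩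
      rcases k6 with k6 | k6
      · rcases s.at_y (G.al_mem d k1) k6 with k7 | k7
        · exact absurd (by rw [← G.al_al d k1, k7, hbd]) k4
        · left
          rw [← k7, G.al_al d k1]
      · rcases s.at_b (G.al_mem d k1) k6 with k7 | k7
        · exact absurd (by rw [← G.al_al d k1, k7, G.al_al a ha, hyd]) k3
        · right
          rw [← k7, G.al_al d k1]
    · rintro (rfl | rfl)
      · refine ⟨G.al_mem u s.u1, ⟨G.pi_mem _ (G.al_mem u s.u1), s.pau, s.ub⟩, fun k => ?_⟩
        rw [G.al_al u s.u1, s.pu] at k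
        exact k.2.1 rfl
      · refine ⟨G.al_mem e s.g1, ⟨G.pi_mem _ (G.al_mem e s.g1), s.pag, s.pag'⟩, fun k => ?_⟩
        rw [G.al_al e s.g1, s.pg] at k
        exact k.2.2 rfl
  have hbc : (G.bd Z).card = 2 := by
    have : G.bd Z = {G.al u, G.al e} := by
      ext d
      rw [hbZ, mem_insert, mem_singleton]
    rw [this, card_pair s.ne_ug]
  have hvZ : G.val one1 t Z = 6 := by
    have k1 := sum_sdiff hsub (f := t)
    rw [← hZ, sum_pair hyb, ty, tb, h.tau] at k1
    rw [val_one, hbc]
    push_cast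
    linarith
  have hlt : Z.card < G.vs.card := by omega
  have hFZ : ∀ d ∈ F, G.pi d ∈ Z → G.pi (G.al d) ∈ Z := fun d hd _ =>
    hfZ (hF.Ffr _ (hF.Fal d hd))
  have hjZ : jm ⊆ Z := hF.jms.trans hfZ
  rcases h.res6 (T := jm) hZs hZe hlt hFZ hvZ h.jm2 (fun _ _ => rfl)
    (fun v hv hvj => absurd hv hvj) with ⟨M, k1, k2, -⟩ | ⟨p, hp, hp1⟩
  · -- the edge `y b` is added
    have hM2 : G.GHalf one1 fr F jm (G.vs \ Z) {a, G.al a} := by
      rw [hVZ]
      refine ⟨⟨?_, ?_, ?_⟩, fun _ _ => zero_lt_one, ?_⟩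
      · intro d hd
        rw [mem_insert, mem_singleton] at hd
        rcases hd with rfl | rfl
        · exact ⟨ha, by rw [← hyd]; exact mem_insert_self _ _⟩
        · exact ⟨ha', by rw [← hbd]; exact mem_insert_of_mem (mem_singleton_self _)⟩
      · intro d hd _
        rw [mem_insert, mem_singleton] at hd
        rcases hd with rfl | rfl
        · exact mem_insert_of_mem (mem_singleton_self _)
        · rw [G.al_al a ha]
          exact mem_insert_self _ _
      · intro x hx
        rw [mem_insert, mem_singleton] at hx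
        rw [card_eq_one]
        rcases hx with rfl | rfl
        · refine ⟨a, ?_⟩
          ext d
          simp only [mem_filter, mem_insert, mem_singleton]
          constructor
          · rintro ⟨rfl | rfl, k3⟩
            · rfl
            · exact absurd (k3.symm.trans hbd.symm) hyb
          · rintro rfl
            exact ⟨Or.inl rfl, hyd.symm⟩
        · refine ⟨G.al a, ?_⟩
          ext d
          simp only [mem_filter, mem_insert, mem_singleton]
          constructor
          · rintro ⟨rfl | rfl, k3⟩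
            · exact absurd (hyd.trans k3) hyb
            · rfl
          · rintro rfl
            exact ⟨Or.inr rfl, hbd.symm⟩
      · intro X hX hXA _
        have k3 : X = ∅ := by
          rw [eq_empty_iff_forall_notMem]
          intro x hx
          have k4 := hXA hx
          rw [mem_insert, mem_singleton] at k4
          rcases k4 with k4 | k4
          · exact hyf (k4 ▸ hX.sub hx)
          · exact hbf (k4 ▸ hX.sub hx)
        rw [k3]
        refine ⟨by rw [card_empty]; exact Even.zero, fun k4 => ?_⟩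
        obtain ⟨⟨x, hx⟩, k5⟩ := k4
        exact notMem_empty x (k5 hx)
    refine h.bad ⟨_, GHalf.glueA hF h.jm2 k1 hM2 ?_ hFZ ?_⟩
    · intro d hd
      refine ⟨fun k3 => absurd k3 (k2 d hd), fun k3 => ?_⟩
      exfalso
      obtain ⟨l1, l2, l3⟩ := mem_bd.1 hd
      rw [mem_insert, mem_singleton] at k3
      rcases k3 with k3 | k3
      · refine ((mZ _).1 l2).2.2 ?_
        rw [← G.al_al d l1, k3, hbd]
      · refine ((mZ _).1 l2).2.1 ?_
        rw [← G.al_al d l1, k3, G.al_al a ha, hyd]
    · intro X hX _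
      rw [eq_empty_iff_forall_notMem]
      intro d hd
      obtain ⟨-, -, -, -, l5, -, l7⟩ := mem_uX.1 hd
      exact l7 (hfZ (hX.sub l5))
  · -- no perfect matching
    have hno : ¬ ∃ M, (G.res Z).IsPM M ∧ ∀ d ∈ M, 0 < one1 d := by
      rintro ⟨M, hM, -⟩
      obtain ⟨m1, m2, m3, m4⟩ := res_pm hZs hM
      have hHM : G.HM Z M := ⟨fun d hd => ⟨m1 hd, m3 d hd⟩, fun d hd _ => m2 d hd, m4⟩
      have hX : G.Adm fr F fr := ⟨Subset.refl _, fun d hd _ => hF.Ffr _ (hF.Fal d hd)⟩
      have hl := (hE.link hp hHM hfZ hX fun d hd hdM => by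
        obtain ⟨l1, l2, l3⟩ := mem_bd.1 hd
        have l4 := G.al_mem d l1
        by_cases l5 : G.pi (G.al d) ∈ Z
        · exfalso
          obtain ⟨l6, l7, l8⟩ := (mZ _).1 l5
          have l9 : G.pi (G.al d) = v := by
            rcases hall _ l6 with k | k | k | k
            · exact absurd k l3
            · exact absurd k l7
            · exact absurd k l8
            · exact k
          obtain ⟨m, hm⟩ := card_eq_one.1 (m4 _ l5)
          have hm' : m ∈ M.filter fun c => G.pi c = G.pi (G.al d) := by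
            rw [hm]
            exact mem_singleton_self m
          obtain ⟨n1, n2⟩ := mem_filter.1 hm'
          obtain ⟨x, hx⟩ := card_eq_one.1 (hE.st_two hvv tv)
          have n3 : m ∈ G.st v := mem_st.2 ⟨m1 n1, n2.trans l9⟩
          have n4 : G.al d ∈ G.st v := mem_st.2 ⟨l4, l9⟩
          rw [hx, mem_singleton] at n3 n4
          rw [n3, ← n4] at n1
          have n5 := m2 _ n1
          rw [G.al_al d l1] at n5
          exact hdM n5
        · exact hp1 d (mem_bd.2 ⟨l1, hfZ l2, l5⟩)).1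
      have huf : G.pi (G.al u) ∈ fr := by
        rw [hfrW, mem_sdiff, mem_insert, mem_singleton, not_or]
        exact ⟨huW, s.pau, s.ub⟩
      have hmem : G.al u ∈ (G.bd fr).filter fun d => d ∉ M := by
        refine mem_filter.2 ⟨mem_bd.2 ⟨G.al_mem u s.u1, huf, ?_⟩, fun k => ?_⟩
        · rw [G.al_al u s.u1, s.pu]
          exact hyf
        · have k3 := m3 _ (m2 _ k)
          rw [G.al_al u s.u1, s.pu] at k3
          exact ((mZ _).1 k3).2.1 rfl
      rw [hl] at hmem
      exact notMem_empty _ hmem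
    have hrv : (G.res Z).vs = Z := inter_eq_right.2 hZs
    obtain ⟨S, C, c1, c2, c3, c4, c5, c6, c7⟩ := tutte6 (G.res Z) one1 (G.tres one1 t Z)
      (by rw [hrv]; exact hZe) (hw.res hZs) (by rw [res_tau hw hZs, hvZ]) hno
    rw [hrv] at c1 c3 c6
    have hC1 : ∀ X ∈ C, ∃ x, X = {x} := by
      intro X hX
      obtain ⟨x1, x2, x3, x4⟩ := c3 X hX
      rw [res_val hw hZs x1] at x4
      refine card_eq_one.1 ?_
      by_contra k
      have := h.odd X (x1.trans hZs) x2 k
      linarith
    -- no rest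
    have hR : ∀ x ∈ Z, x ∈ S ∨ ∃ X ∈ C, x ∈ X := by
      by_contra hcon
      push Not at hcon
      obtain ⟨x, hx, hxS, hxC⟩ := hcon
      obtain ⟨R, hRd⟩ : ∃ R, R = Z.filter fun x => x ∉ S ∧ ∀ X ∈ C, x ∉ X := ⟨_, rfl⟩
      have hRZ : R ⊆ Z := by rw [hRd]; exact filter_subset _ _
      have mR : ∀ x, x ∈ R ↔ x ∈ Z ∧ x ∉ S ∧ ∀ X ∈ C, x ∉ X := by
        intro x
        rw [hRd, mem_filter]
      have hRn : R.Nonempty := ⟨x, (mR x).2 ⟨hx, hxS, hxC⟩⟩
      have hb0 : (G.res Z).bd R = ∅ := by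
        rw [eq_empty_iff_forall_notMem]
        intro d hd
        obtain ⟨l1, l2, l3⟩ := mem_bd.1 hd
        obtain ⟨r1, r2, r3⟩ := (mR _).1 l2
        have l4 : (G.res Z).al d ∈ (G.res Z).ds := (G.res Z).al_mem d l1
        have l5 := (G.res Z).pi_mem _ l4
        rw [hrv] at l5
        have l6 : (G.res Z).al ((G.res Z).al d) = d := (G.res Z).al_al d l1
        by_cases r4 : (G.res Z).pi ((G.res Z).al d) ∈ S
        · obtain ⟨X, x1, x2⟩ := c7 _ l4 r4 zero_lt_one
          rw [l6] at x2
          exact r3 X x1 x2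
        · by_cases r5 : ∃ X ∈ C, (G.res Z).pi ((G.res Z).al d) ∈ X
          · obtain ⟨X, x1, x2⟩ := r5
            have x3 := c5 X x1 _ (mem_bd.2 ⟨l4, x2, by rw [l6]; exact r3 X x1⟩) zero_lt_one
            rw [l6] at x3
            exact r2 x3
          · push Not at r5
            exact l3 ((mR _).2 ⟨l5, r4, r5⟩)
      have ht0 : ∑ v ∈ R, G.tres one1 t Z v = 0 := by
        refine sum_eq_zero fun x hx => ?_
        by_contra k
        obtain ⟨X, x1, x2⟩ := c6 x (hRZ hx) k
        exact ((mR x).1 hx).2.2 X x1 x2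
      have hv0 : G.val one1 t R = 0 := by
        rw [← res_val hw hZs hRZ, val_one, hb0, ht0, card_empty]
        norm_num
      have hRs := hRZ.trans hZs
      by_cases hRc : R.card = 1
      · obtain ⟨r, hr⟩ := card_eq_one.1 hRc
        rw [hr, hw.val_single (hRs (by rw [hr]; exact mem_singleton_self r))] at hv0
        norm_num at hv0
      · rcases Nat.even_or_odd R.card with hRe | hRo
        · have := h.evn R hRs hRe hRn fun k => by
            have k3 : y ∈ R := by rw [k]; exact hyv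
            exact ((mZ _).1 (hRZ k3)).2.1 rfl
          linarith
        · have := h.odd R hRs hRo hRc
          linarith
    have hfin := even_fr (S := S) hF fun d hd => by
      have l1 := hF.Fsub hd
      have l2 := hfZ (hF.Ffr d hd)
      have l3 := hfZ (hF.Ffr _ (hF.Fal d hd))
      have l4 : d ∈ (G.res Z).ds := mem_filter.2 ⟨l1, l2, l3⟩
      constructor
      · intro k
        obtain ⟨X, x1, x2⟩ := c7 d l4 k zero_lt_one
        exact fun k3 => disjoint_left.1 (c3 X x1).2.2.1 x2 k3
      · intro k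
        rcases hR _ l3 with k3 | ⟨X, x1, x2⟩
        · exact absurd k3 k
        · obtain ⟨x, rfl⟩ := hC1 X x1
          have k3 := mem_singleton.1 x2
          have l5 : (G.res Z).al d ∈ (G.res Z).ds := (G.res Z).al_mem d l4
          have l6 : (G.res Z).al ((G.res Z).al d) = d := (G.res Z).al_al d l4
          have k4 := c5 _ x1 ((G.res Z).al d) (mem_bd.2 ⟨l5, x2, by
            rw [l6, mem_singleton]
            intro k5
            exact G.noloop d l1 (k3.trans k5.symm)⟩) zero_lt_one
          rw [l6] at k4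
          exact k4
    rw [Nat.even_iff] at hfin
    rw [Nat.odd_iff] at hfo
    omega

/-- a blocking even set of the payment at the edge `a` (`y = pi a`, `b = pi (al a)`) -/
structure PBlkE (G : MG V D) (t : V → ℝ) (a u e : D) (N : Finset V) : Prop where
  sub : N ⊆ G.vs
  my : G.pi a ∈ N
  mb : G.pi (G.al a) ∈ N
  my2 : G.pi (G.al u) ∈ N
  mb2 : G.pi (G.al e) ∈ N
  big : 4 ≤ N.card
  ev : Even N.card
  val : G.val one1 t N = 4
  two : ∃ v ∈ G.vs \ N, t v ≠ 2

/-- a maximal blocking odd set of the payment at the edge `a`; there is no blocking even set -/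
structure PBlkO (G : MG V D) (t : V → ℝ) (a u e : D) (W : Finset V) : Prop where
  sub : W ⊆ G.vs
  my : G.pi a ∈ W
  mb : G.pi (G.al a) ∈ W
  my2 : G.pi (G.al u) ∈ W
  mb2 : G.pi (G.al e) ∈ W
  big : 4 ≤ W.card
  out : 3 ≤ (G.vs \ W).card
  odd : Odd W.card
  val : G.val one1 t W = 5
  max : ∀ W' ⊆ G.vs, W ⊆ W' → Odd W'.card → 3 ≤ (G.vs \ W').card → G.val one1 t W' = 5 → W' = W
  noE : ∀ N ⊆ G.vs, W ⊆ N → Even N.card → G.val one1 t N = 4 → ∀ v ∈ G.vs \ N, t v = 2

/-- **(E0), blocking sets**: only sets which are crossed by F-darts remain -/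
theorem X6.e0 [Infinite V] [Infinite D] (h : X6 G t fr F jm)
    (s : Ad G (G.pi a) (G.pi (G.al a)) a u e)
    (ty : t (G.pi a) = 1) (tb : t (G.pi (G.al a)) = 1) (hyf : G.pi a ∉ fr)
    (hbf : G.pi (G.al a) ∉ fr)
    (hN : ∀ N, PBlkE G t a u e N → (∃ d ∈ F, G.pi d ∈ N ∧ G.pi (G.al d) ∉ N) → False)
    (hM : ∀ W, PBlkO G t a u e W → (∃ d ∈ F, G.pi d ∈ W ∧ G.pi (G.al d) ∉ W) → False)
    (hW : W ⊆ G.vs) (hyW : G.pi a ∈ W) (hbW : G.pi (G.al a) ∈ W) (huW : G.pi (G.al u) ∈ W)
    (heW : G.pi (G.al e) ∈ W) (h4 : 4 ≤ W.card)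
    (hc : (Odd W.card ∧ G.val one1 t W = 5 ∧
        ((G.vs \ W).card ≠ 1 ∨ W \ {G.pi a, G.pi (G.al a)} ⊆ fr)) ∨
      (Even W.card ∧ G.val one1 t W = 4 ∧ ∃ v ∈ G.vs \ W, t v ≠ 2)) : False := by
  have haF : a ∉ F := fun k => hyf (h.fresh.Ffr _ k)
  have key : ∀ N, PBlkE G t a u e N → False := by
    intro N p
    by_cases hF : ∀ d ∈ F, G.pi d ∈ N → G.pi (G.al d) ∈ N
    · exact h.e0_even s.a1 ty tb hyf p.sub p.my p.mb p.big p.ev p.val hF p.two
    · push Not at hF
      exact hN N p hF
  rcases hc with ⟨ho, hv, hc⟩ | ⟨he, hv, hc⟩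
  · by_cases h1 : (G.vs \ W).card = 1
    · exact h.e0_one s ty tb hyf hbf hW hyW hbW huW h1 ho hv
        (hc.resolve_left fun k => k h1)
    · have hcd := card_sdiff_add_card_eq_card hW
      have hVe := Nat.even_iff.1 h.even
      have hWo := Nat.odd_iff.1 ho
      have h3 : 3 ≤ (G.vs \ W).card := by omega
      obtain ⟨Q, hQ⟩ : ∃ Q, Q = G.vs.powerset.filter fun W' => W ⊆ W' ∧ Odd W'.card ∧
          3 ≤ (G.vs \ W').card ∧ G.val one1 t W' = 5 := ⟨_, rfl⟩
      have mQ : ∀ W', W' ∈ Q ↔ W' ⊆ G.vs ∧ W ⊆ W' ∧ Odd W'.card ∧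
          3 ≤ (G.vs \ W').card ∧ G.val one1 t W' = 5 := by
        intro W'
        rw [hQ, mem_filter, mem_powerset]
      obtain ⟨W0, m0, m1⟩ := exists_max_image Q card ⟨W, (mQ W).2 ⟨hW, Subset.refl _, ho, h3, hv⟩⟩
      obtain ⟨q1, q2, q3, q4, q5⟩ := (mQ W0).1 m0
      have p : PBlkO G t a u e W0 := by
        refine ⟨q1, q2 hyW, q2 hbW, q2 huW, q2 heW, h4.trans (card_le_card q2), q4, q3, q5,
          ?_, ?_⟩
        · intro W' r1 r2 r3 r4 r5
          exact (eq_of_subset_of_card_le r2 (m1 W' ((mQ W').2 ⟨r1, q2.trans r2, r3, r4, r5⟩))).symm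
        · intro N r1 r2 r3 r4 v hv'
          by_contra hv2
          exact key N ⟨r1, r2 (q2 hyW), r2 (q2 hbW), r2 (q2 huW), r2 (q2 heW),
            (h4.trans (card_le_card q2)).trans (card_le_card r2), r3, r4, v, hv', hv2⟩
      by_cases hF : ∀ d ∈ F, G.pi d ∈ W0 → G.pi (G.al d) ∈ W0
      · exact h.e0_odd s.a1 haF ty tb hyf p.sub p.my p.mb p.big p.out p.odd p.val hF p.max p.noE
      · push Not at hF
        exact hM W0 p hF
  · exact key W ⟨hW, hyW, hbW, huW, heW, h4, he, hv, hc⟩

end MG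

end RH
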