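import Pool.Agent.Lib.RH.E0FB
import Pool.Agent.Lib.RH.E0B
import Pool.Agent.Lib.RH.FCut

/-! # Row e0b, the frame with the extended payment

(helper95) `X6.e0_oddJ`: an odd set of value 5 around two adjacent tokens which is not crossed by the
circuits does not exist (no maximality is used: one of the three 2-paths is strict). `X6.e0X`: row e0b
is reduced to crossed sets with three exits which are maximal among the sets with an edge outside
which may be killed. -/

set_option autoImplicit false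

namespace RH

open Finset Classical

namespace MG

variable {V D : Type*} {G : MG V D} {t : V → ℝ} {fr : Finset V} {F : Finset D}
variable {jm A W X Y N S : Finset V} {e d a u p q r : D} {T M : Finset D}

/-- two even sets of value 4 which contain two of the three ends each -/
theorem pair_sets (h : EK G 6 t fr F jm) (hA : A ⊆ G.vs) (ho : Odd (G.vs \ A).card)
    (hb : 3 ≤ (G.vs \ A).card) (hv : G.val one1 t (G.vs \ A) = 5) (hbd : G.bd A = {p, q, r})
    (npq : p ≠ q) (npr : p ≠ r) (nqr : q ≠ r)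
    (hX : X ⊆ A) (hXe : Even X.card) (hXp : G.pi p ∈ X) (hXr : G.pi r ∈ X)
    (hXv : G.val one1 t X = 4)
    (hY : Y ⊆ A) (hYe : Even Y.card) (hYq : G.pi q ∈ Y) (hYr : G.pi r ∈ Y)
    (hYv : G.val one1 t Y = 4) : X.card = 2 ∧ Y.card = 2 := by
  have hw := h.wt
  have hr : r ∈ G.bd A := by
    rw [hbd]
    simp
  have hIs : X ∩ Y ⊆ G.vs := inter_subset_left.trans (hX.trans hA)
  have hUA : X ∪ Y ⊆ A := union_subset hX hY
  have hUs : X ∪ Y ⊆ G.vs := hUA.trans hA
  have hs1 := hw.submod (hX.trans hA) (hY.trans hA)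
  have hs2 := hw.posimod (hX.trans hA) (hY.trans hA)
  have hnn := hw.ed_nonneg (X \ Y) (Y \ X)
  have hcI := card_union_add_card_inter X Y
  have hc1 := card_sdiff_add_card_inter X Y
  have hc2 := card_sdiff_add_card_inter Y X
  rw [inter_comm Y X] at hc2
  have hXe' := Nat.even_iff.1 hXe
  have hYe' := Nat.even_iff.1 hYe
  have ho' := Nat.odd_iff.1 ho
  have hrI : G.pi r ∈ X ∩ Y := mem_inter.2 ⟨hXr, hYr⟩
  have hIn : (X ∩ Y).Nonempty := ⟨_, hrI⟩
  have hq : qx G A (X ∪ Y) = 3 := by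
    unfold qx
    have h1 : ((G.bd A).filter fun d => G.pi d ∈ X ∪ Y) = G.bd A := by
      rw [filter_eq_self]
      intro d hd
      rw [hbd, mem_insert, mem_insert, mem_singleton] at hd
      rcases hd with rfl | rfl | rfl
      · exact mem_union_left _ hXp
      · exact mem_union_right _ hYq
      · exact mem_union_left _ hXr
    rw [h1, hbd, card_insert_of_notMem, card_pair nqr]
    rw [mem_insert, mem_singleton, not_or]
    exact ⟨npq, npr⟩
  have hj := h.join hA hUA
  rw [hv, hq] at hj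
  push_cast at hj
  have hd : Disjoint (X ∪ Y) (G.vs \ A) :=
    disjoint_left.2 fun v hv hv' => (mem_sdiff.1 hv').2 (hUA hv)
  have hUW : (X ∪ Y ∪ (G.vs \ A)) ⊆ G.vs := union_subset hUs sdiff_subset
  have hUWc : (X ∪ Y ∪ (G.vs \ A)).card = (X ∪ Y).card + (G.vs \ A).card :=
    card_union_of_disjoint hd
  have hone : 1 ≤ ∑ d ∈ G.ed (X ∩ Y) (G.vs \ (X ∪ Y)), one1 d := by
    obtain ⟨k1, k2, k3⟩ := mem_bd.1 hr
    have h1 : r ∈ G.ed (X ∩ Y) (G.vs \ (X ∪ Y)) := mem_ed.2 ⟨k1, hrI,
      mem_sdiff.2 ⟨G.pi_mem _ (G.al_mem r k1), fun k => k3 (hUA k)⟩⟩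
    have h2 := single_le_sum (f := fun d => one1 d) (fun d hd => hw.z0 d (mem_ed.1 hd).1) h1
    have h3 : one1 r = 1 := rfl
    have h4 : one1 r ≤ ∑ d ∈ G.ed (X ∩ Y) (G.vs \ (X ∪ Y)), one1 d := h2
    linarith
  have htI : 0 ≤ ∑ v ∈ X ∩ Y, t v := sum_nonneg fun v hv => h.t0 v (hIs hv)
  have hodd3 : ∀ Z ⊆ G.vs, Odd Z.card → 3 ≤ G.val one1 t Z ∧ (Z.card ≠ 1 → 5 ≤ G.val one1 t Z) := by
    intro Z hZ hZo
    refine ⟨?_, h.odd Z hZ hZo⟩
    by_cases h1 : Z.card = 1
    · obtain ⟨x, hx⟩ := card_eq_one.1 h1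
      rw [hx, hw.val_single (hZ (by rw [hx]; exact mem_singleton_self x))]
    · linarith [h.odd Z hZ hZo h1]
  -- the intersection is odd
  have hIo : Odd (X ∩ Y).card := by
    by_contra hc
    rw [Nat.not_odd_iff_even] at hc
    have hc' := Nat.even_iff.1 hc
    have h1 := h.evn _ hIs hc hIn fun k => (mem_bd.1 hr).2.2 (hX (by
      have h2 : G.pi (G.al r) ∈ X ∩ Y := by
        rw [k]
        exact G.pi_mem _ (G.al_mem r (mem_bd.1 hr).1)
      exact (mem_inter.1 h2).1))
    have h2 := h.odd _ hUW (by rw [hUWc, Nat.odd_iff]; omega) (by omega)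
    rw [hj] at h2
    linarith
  have hIo' := Nat.odd_iff.1 hIo
  have h3 := hodd3 _ hIs hIo
  have h4 := hodd3 (X \ Y) (sdiff_subset.trans (hX.trans hA)) (by rw [Nat.odd_iff]; omega)
  have h5 := hodd3 (Y \ X) (sdiff_subset.trans (hY.trans hA)) (by rw [Nat.odd_iff]; omega)
  have h6 : (X \ Y).card = 1 := by
    by_contra hc
    linarith [h4.2 hc, h5.1]
  have h7 : (Y \ X).card = 1 := by
    by_contra hc
    linarith [h5.2 hc, h4.1]
  have h8 : (X ∩ Y).card = 1 := by
    by_contra hc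
    have h9 := h3.2 hc
    have h10 : 5 ≤ G.val one1 t (X ∪ Y) := by
      by_cases h11 : X ∪ Y ∪ (G.vs \ A) = G.vs
      · have h12 : X ∪ Y = A := by
          refine Subset.antisymm hUA fun v hv => ?_
          have h13 : v ∈ X ∪ Y ∪ (G.vs \ A) := by
            rw [h11]
            exact hA hv
          rcases mem_union.1 h13 with h14 | h14
          · exact h14
          · exact absurd hv (mem_sdiff.1 h14).2
        exact h.odd _ hUs (by rw [Nat.odd_iff]; omega) (by omega)
      · have h12 := h.evn _ hUW (by rw [hUWc, Nat.even_iff]; omega) ⟨_, mem_union_left _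
          (mem_union_left _ hXr)⟩ h11
        rw [hj] at h12
        linarith
    linarith
  exact ⟨by omega, by omega⟩

/-- an odd set of value 5 with three exits which is not crossed: the data at one of the exits -/
theorem exists_BW3 (h : EK G 6 t fr F jm) (hA : A ⊆ G.vs) (ho : Odd (G.vs \ A).card)
    (hb : 3 ≤ (G.vs \ A).card) (h3 : 3 ≤ A.card) (hv : G.val one1 t (G.vs \ A) = 5)
    (ht : 1 ≤ ∑ v ∈ G.vs \ A, t v) (hc3 : (G.bd A).card = 3)
    (hF : ∀ d ∈ F, G.pi d ∈ A → G.pi (G.al d) ∈ A) :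
    ∃ e, BW G t F A e ∧
      ∀ p ∈ G.bd A, ∀ q ∈ G.bd A, p ≠ e → q ≠ e → G.pi p = G.pi q → p = q := by
  have hw := h.wt
  have ho' := Nat.odd_iff.1 ho
  -- good exits
  have good : ∀ p q r, G.bd A = {p, q, r} → p ≠ q → p ≠ r → q ≠ r → G.pi q ≠ G.pi r →
      (∀ X ⊆ A, Even X.card → G.pi q ∈ X → G.pi r ∈ X → G.pi p ∉ X → G.val one1 t X ≠ 4) →
      ∃ e, BW G t F A e ∧
        ∀ p ∈ G.bd A, ∀ q ∈ G.bd A, p ≠ e → q ≠ e → G.pi p = G.pi q → p = q := by
    intro p q r hbd npq npr nqr hne hX4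
    have hp : p ∈ G.bd A := by
      rw [hbd]
      simp
    have hqx : ∀ X ⊆ A, G.pi p ∉ X → qx G A X ≤ 2 ∧ (2 ≤ qx G A X → G.pi q ∈ X ∧ G.pi r ∈ X) := by
      intro X hX hpX
      have h1 : ((G.bd A).filter fun d => G.pi d ∈ X) ⊆ {q, r} := by
        intro d hd
        obtain ⟨k1, k2⟩ := mem_filter.1 hd
        rw [hbd, mem_insert] at k1
        rcases k1 with rfl | k1
        · exact absurd k2 hpX
        · exact k1
      have h2 := card_le_card h1
      rw [card_pair nqr] at h2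
      refine ⟨h2, fun h4 => ?_⟩
      have h5 := eq_of_subset_of_card_le h1 (by
        rw [card_pair nqr]
        exact h4)
      constructor
      · have : q ∈ (G.bd A).filter fun d => G.pi d ∈ X := by
          rw [h5]
          simp
        exact (mem_filter.1 this).2
      · have : r ∈ (G.bd A).filter fun d => G.pi d ∈ X := by
          rw [h5]
          simp
        exact (mem_filter.1 this).2
    refine ⟨p, ⟨hA, ho, hb, hv, ht, hp, hF, ?_, ?_⟩, ?_⟩
    · intro X hX hXe hXn hpX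
      rw [h.join hA hX, hv]
      obtain ⟨k1, k2⟩ := hqx X hX hpX
      have k3 : X ≠ G.vs := fun k => hpX (by rw [k]; exact G.pi_mem p (mem_bd.1 hp).1)
      rcases h.evn_or (hX.trans hA) hXe hXn k3 with k4 | k4
      · have k5 : qx G A X ≤ 1 := by
          by_contra hc
          obtain ⟨k6, k7⟩ := k2 (by omega)
          exact hX4 X hX hXe k6 k7 hpX k4
        have k6 : (qx G A X : ℝ) ≤ (1 : ℕ) := by exact_mod_cast k5
        push_cast at k6
        linarith
      · have k6 : (qx G A X : ℝ) ≤ (2 : ℕ) := by exact_mod_cast k1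
        push_cast at k6
        linarith
    · intro X hX hXo hpX
      rw [h.join hA hX, hv]
      obtain ⟨k1, k2⟩ := hqx X hX hpX
      by_cases h1 : X.card = 1
      · obtain ⟨x, hx⟩ := card_eq_one.1 h1
        have k5 : qx G A X ≤ 1 := by
          by_contra hc
          obtain ⟨k6, k7⟩ := k2 (by omega)
          rw [hx, mem_singleton] at k6 k7
          exact hne (k6.trans k7.symm)
        have k6 : (qx G A X : ℝ) ≤ (1 : ℕ) := by exact_mod_cast k5
        push_cast at k6
        have k7 : G.val one1 t X = 3 := by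
          rw [hx, hw.val_single ((hX.trans hA) (by rw [hx]; exact mem_singleton_self x))]
        linarith
      · have k6 : (qx G A X : ℝ) ≤ (2 : ℕ) := by exact_mod_cast k1
        push_cast at k6
        have k7 := h.odd X (hX.trans hA) hXo h1
        linarith
    · intro x hx y hy nx ny hxy
      rw [hbd, mem_insert, mem_insert, mem_singleton] at hx hy
      rcases hx with hx | hx | hx
      · exact absurd hx nx
      · rcases hy with hy | hy | hy
        · exact absurd hy ny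
        · rw [hx, hy]
        · rw [hx, hy] at hxy
          exact absurd hxy hne
      · rcases hy with hy | hy | hy
        · exact absurd hy ny
        · rw [hx, hy] at hxy
          exact absurd hxy.symm hne
        · rw [hx, hy]
  obtain ⟨e, he⟩ := card_pos.1 (by omega : 0 < (G.bd A).card)
  obtain ⟨r, s, hbd, n1, n2, n3⟩ := X6.three_of hc3 he
  -- permutations of the three exits
  have hbd2 : G.bd A = {r, e, s} := by
    rw [hbd]
    ext x
    simp only [mem_insert, mem_singleton]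
    tauto
  have hbd3 : G.bd A = {s, e, r} := by
    rw [hbd]
    ext x
    simp only [mem_insert, mem_singleton]
    tauto
  have hbd1' : G.bd A = {e, s, r} := by
    rw [hbd]
    ext x
    simp only [mem_insert, mem_singleton]
    tauto
  have hbd2' : G.bd A = {r, s, e} := by
    rw [hbd]
    ext x
    simp only [mem_insert, mem_singleton]
    tauto
  -- not all three ends are the same
  have hall : ¬ (G.pi e = G.pi r ∧ G.pi e = G.pi s) := by
    rintro ⟨k1, k2⟩
    have hx : ({G.pi e} : Finset V) ⊆ A := singleton_subset_iff.2 (mem_bd.1 he).2.1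
    have hq : qx G A {G.pi e} = 3 := by
      unfold qx
      have h1 : ((G.bd A).filter fun d => G.pi d ∈ ({G.pi e} : Finset V)) = G.bd A := by
        rw [filter_eq_self]
        intro d hd
        rw [hbd, mem_insert, mem_insert, mem_singleton] at hd
        rw [mem_singleton]
        rcases hd with rfl | rfl | rfl
        · rfl
        · exact k1.symm
        · exact k2.symm
      rw [h1, hc3]
    have hj := h.join hA hx
    rw [hv, hq, hw.val_single (hA (mem_bd.1 he).2.1)] at hj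
    have hd : Disjoint ({G.pi e} : Finset V) (G.vs \ A) :=
      disjoint_left.2 fun v hv hv' => (mem_sdiff.1 hv').2 (hx hv)
    have hc : (({G.pi e} : Finset V) ∪ (G.vs \ A)).card = 1 + (G.vs \ A).card := by
      rw [card_union_of_disjoint hd, card_singleton]
    have hcd := card_sdiff_add_card_eq_card hA
    have h5 := h.evn _ (union_subset (hx.trans hA) sdiff_subset)
      (by rw [hc, Nat.even_iff]; omega) ⟨_, mem_union_left _ (mem_singleton_self _)⟩ (fun k => by
        rw [k] at hc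
        omega)
    rw [hj] at h5
    norm_num at h5
  -- a coincidence of two ends
  have coin : ∀ p q r, G.bd A = {p, q, r} → p ≠ q → p ≠ r → q ≠ r → G.pi p = G.pi q →
      G.pi q ≠ G.pi r → ∃ e, BW G t F A e ∧
        ∀ p ∈ G.bd A, ∀ q ∈ G.bd A, p ≠ e → q ≠ e → G.pi p = G.pi q → p = q := by
    intro p q r hbd npq npr nqr hpq hqr
    refine good p q r hbd npq npr nqr hqr fun X _ _ k1 _ k2 => ?_
    exact absurd (by rw [hpq]; exact k1) k2
  by_cases c1 : G.pi e = G.pi r
  · have c2 : G.pi r ≠ G.pi s := fun k => hall ⟨c1, c1.trans k⟩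
    exact coin e r s hbd n1 n2 n3 c1 c2
  by_cases c2 : G.pi e = G.pi s
  · exact coin e s r hbd1' n2 n1 n3.symm c2 fun k => c1 (c2.trans k)
  by_cases c3 : G.pi r = G.pi s
  · exact coin r s e hbd2' n3 n1.symm n2.symm c3 fun k => c2 k.symm
  by_contra hcon
  have b1 : ∃ X ⊆ A, Even X.card ∧ G.pi r ∈ X ∧ G.pi s ∈ X ∧ G.pi e ∉ X ∧
      G.val one1 t X = 4 := by
    by_contra hn
    push Not at hn
    exact hcon (good e r s hbd n1 n2 n3 c3 fun X k1 k2 k3 k4 k5 => hn X k1 k2 k3 k4 k5)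
  have b2 : ∃ X ⊆ A, Even X.card ∧ G.pi e ∈ X ∧ G.pi s ∈ X ∧ G.pi r ∉ X ∧
      G.val one1 t X = 4 := by
    by_contra hn
    push Not at hn
    exact hcon (good r e s hbd2 n1.symm n3 n2 c2 fun X k1 k2 k3 k4 k5 => hn X k1 k2 k3 k4 k5)
  have b3 : ∃ X ⊆ A, Even X.card ∧ G.pi e ∈ X ∧ G.pi r ∈ X ∧ G.pi s ∉ X ∧
      G.val one1 t X = 4 := by
    by_contra hn
    push Not at hn
    exact hcon (good s e r hbd3 n2.symm n3.symm n1 c1 fun X k1 k2 k3 k4 k5 => hn X k1 k2 k3 k4 k5)
  obtain ⟨X, x1, x2, x3, x4, x5, x6⟩ := b1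
  obtain ⟨Y, y1, y2, y3, y4, y5, y6⟩ := b2
  obtain ⟨Z, z1, z2, z3, z4, z5, z6⟩ := b3
  obtain ⟨cX, cY⟩ := pair_sets h hA ho hb hv (p := r) (q := e) (r := s) hbd2 n1.symm n3 n2
    x1 x2 x3 x4 x6 y1 y2 y3 y4 y6
  obtain ⟨cZ, -⟩ := pair_sets h hA ho hb hv (p := r) (q := s) (r := e) hbd2' n3 n1.symm n2.symm
    z1 z2 z4 z3 z6 y1 y2 y4 y3 y6
  have eX : X = {G.pi r, G.pi s} := (eq_of_subset_of_card_le
    (insert_subset x3 (singleton_subset_iff.2 x4)) (by rw [card_pair c3, cX])).symm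
  have eY : Y = {G.pi e, G.pi s} := (eq_of_subset_of_card_le
    (insert_subset y3 (singleton_subset_iff.2 y4)) (by rw [card_pair c2, cY])).symm
  have eZ : Z = {G.pi e, G.pi r} := (eq_of_subset_of_card_le
    (insert_subset z3 (singleton_subset_iff.2 z4)) (by rw [card_pair c1, cZ])).symm
  have me := hA (y1 y3)
  have mr := hA (x1 x3)
  have ms := hA (x1 x4)
  -- the edge between the ends of `e` and `r`
  have s1 := hw.submod (X := {G.pi e}) (Y := {G.pi r}) (singleton_subset_iff.2 me)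
    (singleton_subset_iff.2 mr)
  have i1 : ({G.pi e} : Finset V) ∩ {G.pi r} = ∅ := by
    rw [← disjoint_iff_inter_eq_empty, disjoint_singleton]
    exact c1
  have i2 : ({G.pi e} : Finset V) \ {G.pi r} = {G.pi e} := by
    rw [Finset.sdiff_eq_self_iff_disjoint, disjoint_singleton]
    exact c1
  have i3 : ({G.pi r} : Finset V) \ {G.pi e} = {G.pi r} := by
    rw [Finset.sdiff_eq_self_iff_disjoint, disjoint_singleton]
    exact fun k => c1 k.symm
  have i4 : ({G.pi e} : Finset V) ∪ {G.pi r} = Z := by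
    rw [eZ]
    rfl
  have i5 : G.val one1 t ∅ = 0 := by
    rw [val_one, sum_empty]
    have : G.bd ∅ = ∅ := by
      rw [eq_empty_iff_forall_notMem]
      intro d hd
      exact notMem_empty _ (mem_bd.1 hd).2.1
    rw [this, card_empty]
    norm_num
  rw [hw.val_single me, hw.val_single mr, i1, i2, i3, i4, i5, z6] at s1
  -- the triangle
  have s2 := hw.submod (X := X) (Y := Y) (x1.trans hA) (y1.trans hA)
  have j1 : X ∩ Y = {G.pi s} := by
    rw [eX, eY]
    ext x
    simp only [mem_inter, mem_insert, mem_singleton]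
    constructor
    · rintro ⟨k1 | k1, k2 | k2⟩
      · exact absurd (k2.symm.trans k1) c1
      · exact k2
      · exact k1
      · exact k1
    · rintro rfl
      exact ⟨Or.inr rfl, Or.inr rfl⟩
  have j2 : X \ Y = {G.pi r} := by
    rw [eX, eY]
    ext x
    simp only [mem_sdiff, mem_insert, mem_singleton, not_or]
    constructor
    · rintro ⟨k1 | k1, k2, k3⟩
      · exact k1
      · exact absurd k1 k3
    · rintro rfl
      exact ⟨Or.inl rfl, fun k => c1 k.symm, c3⟩
  have j3 : Y \ X = {G.pi e} := by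
    rw [eX, eY]
    ext x
    simp only [mem_sdiff, mem_insert, mem_singleton, not_or]
    constructor
    · rintro ⟨k1 | k1, k2, k3⟩
      · exact k1
      · exact absurd k1 k3
    · rintro rfl
      exact ⟨Or.inl rfl, c1, c2⟩
  rw [x6, y6, j1, j2, j3, hw.val_single ms, ← hw.ed_symm {G.pi e} {G.pi r}] at s2
  have hT : (X ∪ Y).card = 3 := by
    have k1 := card_union_add_card_inter X Y
    rw [cX, cY, j1, card_singleton] at k1
    omega
  have k2 := h.odd (X ∪ Y) (union_subset (x1.trans hA) (y1.trans hA)) (by rw [hT]; decide)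
    (by omega)
  linarith

/-- **an odd set around two adjacent tokens, not crossed, three exits** -/
theorem X6.e0_odd3 [Infinite V] [Infinite D] (h : X6 G t fr F jm) (ha : a ∈ G.ds) (haF : a ∉ F)
    (ty : t (G.pi a) = 1) (tb : t (G.pi (G.al a)) = 1) (hyf : G.pi a ∉ fr)
    (hW : W ⊆ G.vs) (hyW : G.pi a ∈ W) (hbW : G.pi (G.al a) ∈ W) (h4 : 4 ≤ W.card)
    (h3 : 3 ≤ (G.vs \ W).card)
    (ho : Odd W.card) (hv : G.val one1 t W = 5) (h2 : (G.bd W).card = 3)
    (hF : ∀ d ∈ F, G.pi d ∈ W → G.pi (G.al d) ∈ W) : False := by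
  have hE := h.toEK
  obtain ⟨A, hAd⟩ : ∃ A, A = G.vs \ W := ⟨_, rfl⟩
  have hA : A ⊆ G.vs := by rw [hAd]; exact sdiff_subset
  have hWA : G.vs \ A = W := by rw [hAd]; exact Finset.sdiff_sdiff_eq_self hW
  rw [← hAd] at h3
  have ht := two_tok hE ha ty tb hW hyW hbW
  have hb3 : (G.bd A).card = 3 := by
    rw [← bd_card_compl hA, hWA]
    exact h2
  obtain ⟨e, b, hinj⟩ := exists_BW3 hE hA (by rw [hWA]; exact ho) (by rw [hWA]; omega) h3
    (by rw [hWA]; exact hv) (by rw [hWA]; linarith) hb3 (fun d hd hdA => by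
      by_contra hn
      have h5 : G.pi (G.al d) ∈ W := by
        rw [← hWA]
        exact mem_sdiff.2 ⟨G.pi_mem _ (G.al_mem d (h.fresh.Fsub hd)), hn⟩
      have h6 := hF _ (h.fresh.Fal d hd) h5
      rw [G.al_al d (h.fresh.Fsub hd), ← hWA] at h6
      exact (mem_sdiff.1 h6).2 hdA)
  have hy : ∃ y ∈ G.vs \ A, y ∉ fr ∧ 1 ≤ t y := ⟨G.pi a, by rw [hWA]; exact hyW, hyf, by rw [ty]⟩
  obtain ⟨d, hd⟩ := h.hP0 b (by omega) h3 (Or.inr (by rw [hWA]; omega)) hinj
  obtain ⟨M, m1, m2⟩ := hd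
  have hdb := m2.1
  refine h.glueSg b hy ⟨M, m1, m2⟩ (b.sall hE hy hdb fun T S hs hdT => ?_)
  exact h.inI0 (b.iblkP ⟨_, (mem_bd.1 b.he).2.1⟩) (b.hJ hE) (by
    rw [Finset.sdiff_sdiff_eq_self hA]
    omega) ha (by rw [hWA]; exact hyW) (by rw [hWA]; exact hbW) haF (by rw [ty]; norm_num)
    (by rw [tb]; norm_num) (bd_al hA hdb) hs hdT

/-- **an odd set around two adjacent tokens, not crossed** -/
theorem X6.e0_oddJ [Infinite V] [Infinite D] (h : X6 G t fr F jm) (ha : a ∈ G.ds) (haF : a ∉ F)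
    (ty : t (G.pi a) = 1) (tb : t (G.pi (G.al a)) = 1) (hyf : G.pi a ∉ fr)
    (hW : W ⊆ G.vs) (hyW : G.pi a ∈ W) (hbW : G.pi (G.al a) ∈ W) (h4 : 4 ≤ W.card)
    (h3 : 3 ≤ (G.vs \ W).card)
    (ho : Odd W.card) (hv : G.val one1 t W = 5)
    (hF : ∀ d ∈ F, G.pi d ∈ W → G.pi (G.al d) ∈ W) : False := by
  have hE := h.toEK
  have ht := two_tok hE ha ty tb hW hyW hbW
  have hval := hv
  rw [val_one] at hval
  have h5 : (G.bd W).card ≤ 3 := by
    have : ((G.bd W).card : ℝ) ≤ (3 : ℕ) := by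
      push_cast
      linarith
    exact_mod_cast this
  by_cases c3 : (G.bd W).card = 3
  · exact h.e0_odd3 ha haF ty tb hyf hW hyW hbW h4 h3 ho hv c3 hF
  by_cases c2 : (G.bd W).card = 2
  · exact h.e0_odd2 ha haF ty tb hyf hW hyW hbW h3 ho hv c2 (Or.inr (by omega)) hF
  have h6 : ((G.bd W).card : ℝ) ≤ (1 : ℕ) := by
    have : (G.bd W).card ≤ 1 := by omega
    exact_mod_cast this
  push_cast at h6
  have hVe := Nat.even_iff.1 h.even
  have hWo := Nat.odd_iff.1 ho
  have hcd := card_sdiff_add_card_eq_card hW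
  have h7 := h.odd (G.vs \ W) sdiff_subset (by rw [Nat.odd_iff]; omega) (by omega)
  have h8 := hE.val_compl hW
  linarith

/-- a blocking odd set, crossed by the circuits, with an edge outside which may be killed, and maximal
with this property -/
structure PBlkX (G : MG V D) (t : V → ℝ) (fr : Finset V) (F : Finset D) (jm : Finset V)
    (a u e : D) (W : Finset V) : Prop where
  sub : W ⊆ G.vs
  my : G.pi a ∈ W
  mb : G.pi (G.al a) ∈ W
  my2 : G.pi (G.al u) ∈ W
  mb2 : G.pi (G.al e) ∈ W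
  big : 4 ≤ W.card
  out : 3 ≤ (G.vs \ W).card
  odd : Odd W.card
  val : G.val one1 t W = 5
  cut : FCut G F W
  hx : HX G t fr F jm W
  /-- larger blocking sets are crossed and contain all edges which may be killed -/
  max : ∀ W' ⊆ G.vs, W ⊆ W' → W' ≠ W → Odd W'.card → 3 ≤ (G.vs \ W').card →
    G.val one1 t W' = 5 → FCut G F W' ∧ ¬ HX G t fr F jm W'
  /-- larger even sets are crossed and contain all edges which may be killed -/
  noE : ∀ N ⊆ G.vs, W ⊆ N → Even N.card → G.val one1 t N = 4 → (∃ v ∈ G.vs \ N, t v ≠ 2) →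
    FCut G F N ∧ ¬ HX G t fr F jm N

/-- **row e0b**: only crossed odd sets with three exits remain -/
theorem X6.e0X [Infinite V] [Infinite D] (h : X6 G t fr F jm)
    (s : Ad G (G.pi a) (G.pi (G.al a)) a u e)
    (ty : t (G.pi a) = 1) (tb : t (G.pi (G.al a)) = 1) (hyf : G.pi a ∉ fr)
    (hbf : G.pi (G.al a) ∉ fr)
    (hM : ∀ W, PBlkX G t fr F jm a u e W → (G.bd W).card = 3 → False)
    (hW : W ⊆ G.vs) (hyW : G.pi a ∈ W) (hbW : G.pi (G.al a) ∈ W) (huW : G.pi (G.al u) ∈ W)
    (heW : G.pi (G.al e) ∈ W) (h4 : 4 ≤ W.card)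
    (hc : (Odd W.card ∧ G.val one1 t W = 5 ∧
        ((G.vs \ W).card ≠ 1 ∨ W \ {G.pi a, G.pi (G.al a)} ⊆ fr) ∧
        (G.Adm fr F (W \ {G.pi a, G.pi (G.al a)}) ∨ HX G t fr F jm W)) ∨
      (Even W.card ∧ G.val one1 t W = 4 ∧ (∃ v ∈ G.vs \ W, t v ≠ 2) ∧ HX G t fr F jm W)) :
    False := by
  have hE := h.toEK
  have haF : a ∉ F := fun k => hyf (h.fresh.Ffr _ k)
  have hx1 : ∀ N, HX G t fr F jm N →
      ∃ d ∈ G.ds, d ∉ F ∧ G.pi d ∉ N ∧ t (G.pi d) ≤ 1 ∧ t (G.pi (G.al d)) ≤ 1 := by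
    rintro N ⟨d, k1, k2, k3, k4, k5, -⟩
    exact ⟨d, k1, k2, k3, k4, k5⟩
  have hF' : ∀ N, ¬ FCut G F N → ∀ d ∈ F, G.pi d ∈ N → G.pi (G.al d) ∈ N := by
    intro N hn d hd hp
    by_contra k
    exact hn ⟨d, hd, hp, k⟩
  -- even sets
  have key : ∀ N, PBlkE G t a u e N → FCut G F N ∧ ¬ HX G t fr F jm N := by
    intro N p
    by_cases hF : FCut G F N
    · exact ⟨hF, fun hx => h.e0F_even s ty tb hyf hbf p hF (hx1 N hx)⟩
    · exact (h.e0_even s.a1 ty tb hyf p.sub p.my p.mb p.big p.ev p.val (hF' N hF) p.two).elim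
  rcases hc with ⟨ho, hv, hc, hx⟩ | ⟨he, hv, hc, hx⟩
  · by_cases h1 : (G.vs \ W).card = 1
    · exact h.e0_one s ty tb hyf hbf hW hyW hbW huW h1 ho hv
        (hc.resolve_left fun k => k h1)
    · have hcd := card_sdiff_add_card_eq_card hW
      have hVe := Nat.even_iff.1 h.even
      have hWo := Nat.odd_iff.1 ho
      have h3 : 3 ≤ (G.vs \ W).card := by omega
      -- sets which are not crossed do not exist
      have keyJ : ∀ W' ⊆ G.vs, W ⊆ W' → Odd W'.card → 3 ≤ (G.vs \ W').card →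
          G.val one1 t W' = 5 → FCut G F W' := by
        intro W' r1 r2 r3 r4 r5
        by_contra hF
        exact h.e0_oddJ s.a1 haF ty tb hyf r1 (r2 hyW) (r2 hbW) (h4.trans (card_le_card r2)) r4 r3
          r5 (hF' W' hF)
      have hcutW := keyJ W hW (Subset.refl _) ho h3 hv
      have hxW : HX G t fr F jm W := by
        refine hx.resolve_left fun k => ?_
        obtain ⟨d, hd, hp, hn⟩ := hcutW
        refine hn (sdiff_subset (k.clo d hd (mem_sdiff.2 ⟨hp, fun k1 => ?_⟩)))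
        rw [mem_insert, mem_singleton] at k1
        rcases k1 with k1 | k1
        · exact hyf (k1 ▸ h.fresh.Ffr d hd)
        · exact hbf (k1 ▸ h.fresh.Ffr d hd)
      obtain ⟨Q, hQ⟩ : ∃ Q, Q = G.vs.powerset.filter fun W' => W ⊆ W' ∧ Odd W'.card ∧
          3 ≤ (G.vs \ W').card ∧ G.val one1 t W' = 5 ∧ HX G t fr F jm W' := ⟨_, rfl⟩
      have mQ : ∀ W', W' ∈ Q ↔ W' ⊆ G.vs ∧ W ⊆ W' ∧ Odd W'.card ∧
          3 ≤ (G.vs \ W').card ∧ G.val one1 t W' = 5 ∧ HX G t fr F jm W' := by
        intro W'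
        rw [hQ, mem_filter, mem_powerset]
      obtain ⟨W0, m0, m1⟩ := exists_max_image Q card
        ⟨W, (mQ W).2 ⟨hW, Subset.refl _, ho, h3, hv, hxW⟩⟩
      obtain ⟨q1, q2, q3, q4, q5, q6⟩ := (mQ W0).1 m0
      have p : PBlkX G t fr F jm a u e W0 := by
        refine ⟨q1, q2 hyW, q2 hbW, q2 huW, q2 heW, h4.trans (card_le_card q2), q4, q3, q5,
          keyJ W0 q1 q2 q3 q4 q5, q6, ?_, ?_⟩
        · intro W' r1 r2 r6 r3 r4 r5
          refine ⟨keyJ W' r1 (q2.trans r2) r3 r4 r5, fun hx' => r6 ?_⟩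
          exact (eq_of_subset_of_card_le r2
            (m1 W' ((mQ W').2 ⟨r1, q2.trans r2, r3, r4, r5, hx'⟩))).symm
        · intro N r1 r2 r3 r4 r5
          exact key N ⟨r1, r2 (q2 hyW), r2 (q2 hbW), r2 (q2 huW), r2 (q2 heW),
            (h4.trans (card_le_card q2)).trans (card_le_card r2), r3, r4, r5⟩
      by_cases c3 : (G.bd W0).card = 3
      · exact hM W0 p c3
      · have ht := two_tok hE s.a1 ty tb p.sub p.my p.mb
        have hval := p.val
        rw [val_one] at hval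
        have h5 : (G.bd W0).card ≤ 3 := by
          have : ((G.bd W0).card : ℝ) ≤ (3 : ℕ) := by
            push_cast
            linarith
          exact_mod_cast this
        exact h.e0F_three s ty tb hyf hbf p.sub p.my p.mb p.out p.odd p.val (by omega) p.cut
          (hx1 W0 p.hx)
  · exact (key W ⟨hW, hyW, hbW, huW, heW, h4, he, hv, hc⟩).2 hx

end MG

end RH
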