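import Pool.Agent.Lib.RH.E0G4
import Pool.Agent.Lib.RH.E0B

/-! # Row (E0), complete

`X6.e0R`: no blocker of the adjacent pair in the form of `X6.adjB`. `X6.adjR`: adjacent token vertices
are non-fresh with one token, and there is an even union with six darts which contains the two other
neighbours. -/

set_option autoImplicit false

namespace RH

open Finset Classical

namespace MG

variable {V D : Type*} {G : MG V D} {t : V → ℝ} {fr : Finset V} {F : Finset D}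
variable {jm W : Finset V} {a u e : D}

theorem HX.toHx (h : HX G t fr F jm W) (hF : G.FrS one1 fr F jm) : Hx G t fr F jm W := by
  obtain ⟨d, x1, x2, x3, x4, x5, x6⟩ := h
  have x7 : G.al d ∉ F := fun k => x2 (by rw [← G.al_al d x1]; exact hF.Fal _ k)
  exact ⟨d, x1, x2, x3, x4, x5, fun hj => ⟨fun k => (x6 hj).1 ⟨x2, k.1, k.2⟩,
    fun k => (x6 hj).2 ⟨x7, k.1, k.2⟩⟩⟩

/-- **ROW (E0b)** in the form of `X6.adjB` -/
theorem X6.e0R [Infinite V] [Infinite D] (h : X6 G t fr F jm)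
    (s : Ad G (G.pi a) (G.pi (G.al a)) a u e)
    (ty : t (G.pi a) = 1) (tb : t (G.pi (G.al a)) = 1) (hyf : G.pi a ∉ fr)
    (hbf : G.pi (G.al a) ∉ fr)
    (hW : W ⊆ G.vs) (hyW : G.pi a ∈ W) (hbW : G.pi (G.al a) ∈ W) (huW : G.pi (G.al u) ∈ W)
    (h4 : 4 ≤ W.card)
    (hc : (Odd W.card ∧ G.val one1 t W = 5 ∧
        ((G.vs \ W).card ≠ 1 ∨ W \ {G.pi a, G.pi (G.al a)} ⊆ fr) ∧
        (G.Adm fr F (W \ {G.pi a, G.pi (G.al a)}) ∨ HX G t fr F jm W)) ∨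
      (Even W.card ∧ G.val one1 t W = 4 ∧ (∃ v ∈ G.vs \ W, t v ≠ 2) ∧ HX G t fr F jm W)) :
    False := by
  have hF := h.fresh
  refine h.e0B s ty tb hyf hbf hW hyW hbW huW h4 ?_ ?_
  · rcases hc with ⟨h1, h2, h3, -⟩ | ⟨h1, h2, h3, -⟩
    · exact Or.inl ⟨h1, h2, h3⟩
    · exact Or.inr ⟨h1, h2, h3⟩
  · rcases hc with ⟨-, -, -, h1 | h1⟩ | ⟨-, -, -, h1⟩
    · left
      rintro ⟨d, d1, d2, d3⟩
      have k1 : G.pi d ∈ W \ {G.pi a, G.pi (G.al a)} := by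
        refine mem_sdiff.2 ⟨d2, fun k => ?_⟩
        rw [mem_insert, mem_singleton] at k
        rcases k with k | k
        · exact hyf (k ▸ hF.Ffr d d1)
        · exact hbf (k ▸ hF.Ffr d d1)
      exact d3 (mem_sdiff.1 (h1.clo d d1 k1)).1
    · exact Or.inr (h1.toHx hF)
    · exact Or.inr (h1.toHx hF)

/-- adjacent token vertices: only the even unions with six darts are left -/
theorem X6.adjR [Infinite V] [Infinite D] (h : X6 G t fr F jm) (ha : a ∈ G.ds) (haF : a ∉ F)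
    (ty : 1 ≤ t (G.pi a)) (tb : 1 ≤ t (G.pi (G.al a))) :
    ∃ u e, Ad G (G.pi a) (G.pi (G.al a)) a u e ∧ t (G.pi a) = 1 ∧ t (G.pi (G.al a)) = 1 ∧
      G.pi a ∉ fr ∧ G.pi (G.al a) ∉ fr ∧
      ∃ X, G.Adm fr F X ∧ Even X.card ∧ G.pi (G.al u) ∈ X ∧ G.pi (G.al e) ∈ X ∧
        (G.bd X).card + (X ∩ jm).card = 6 := by
  obtain ⟨u, e, s, t1, t2, t3, t4, hc⟩ := h.adjB ha haF ty tb
  refine ⟨u, e, s, t1, t2, t3, t4, ?_⟩
  rcases hc with ⟨W, w1, w2, w3, w4, w5, w6, w7⟩ | hc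
  · exact (h.e0R s t1 t2 t3 t4 w1 w2 w3 w4 w6 w7).elim
  · exact hc

end MG

end RH
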