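import Pool.Agent.Lib.RH.CE6Board
import Pool.Agent.Lib.RH.CE6Eq
import Pool.Agent.Lib.RH.CE6P

/-! # EV6-blockers (row v), setup

`EvX`: a real step `(y, b, b')` and an even union `X` of fresh circuits with six darts (star vertices
count one) which contains `y2` and `b''`. `N = X + {y, b}`, `U = vs - N`. Values, boundary of `U`,
half matchings of `N`, gluing at `U`. -/

set_option autoImplicit false

namespace RH

open Finset Classical

namespace MG

variable {V D : Type*} {G : MG V D} {t : V → ℝ} {fr : Finset V} {F : Finset D}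
variable {jm X Y U : Finset V} {y b : V} {a0 u e1 e2 d : D} {k : ℝ} {p f : V → ℝ}
variable {M M1 M2 MX : Finset D}

/-- an even union of circuits which blocks the step -/
structure EvX (G : MG V D) (t : V → ℝ) (fr : Finset V) (F : Finset D) (jm : Finset V) (y b : V)
    (a0 u e1 e2 : D) (X : Finset V) : Prop extends RSo G t fr y b a0 u e1 e2 where
  adm : G.Adm fr F X
  ev : Even X.card
  m2 : G.pi (G.al u) ∈ X
  mb : G.pi (G.al e2) ∈ X
  nb : G.pi (G.al e1) ∉ X
  six : (G.bd X).card + (X ∩ jm).card = 6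

/-- the union with the two vertices of the step -/
noncomputable def NN (X : Finset V) (y b : V) : Finset V := insert b (insert y X)

/-- half of the sum over the boundary, star vertices allowed -/
theorem EK.sum_bdS (h : EK G k t fr F jm) (hX : G.Adm fr F X) (hp : G.HPot one1 t F X p) :
    ∑ d ∈ G.bd X, p (G.pi d) + ∑ v ∈ X ∩ jm, p v ≤ 0 := by
  have hF := h.fresh
  have h1 := hF.sumF hX p
  have h2 : ∑ d ∈ G.ds.filter (fun d => d ∉ F ∧ G.pi d ∈ X), p (G.pi d) =
      ∑ v ∈ X \ jm, p v := by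
    rw [← sum_fiberwise_of_maps_to (s := G.ds.filter fun d => d ∉ F ∧ G.pi d ∈ X) (t := X \ jm)
      (g := G.pi) (fun d hd => by
        obtain ⟨a, b, c⟩ := mem_filter.1 hd
        exact mem_sdiff.2 ⟨c, fun hj => b (hF.j0 _ hj d (mem_st.2 ⟨a, rfl⟩))⟩)]
    refine sum_congr rfl fun v hv => ?_
    obtain ⟨hv1, hv2⟩ := mem_sdiff.1 hv
    have h1 : ((G.ds.filter fun d => d ∉ F ∧ G.pi d ∈ X).filter fun d => G.pi d = v) =
        (G.st v).filter fun d => d ∉ F := by
      ext d
      rw [mem_filter, mem_filter, mem_filter, mem_st]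
      constructor
      · rintro ⟨⟨a, b, -⟩, c⟩
        exact ⟨⟨a, c⟩, b⟩
      · rintro ⟨⟨a, c⟩, b⟩
        exact ⟨⟨a, b, by rw [c]; exact hv1⟩, c⟩
    rw [h1, sum_congr rfl fun d hd => by rw [(mem_st.1 (mem_filter.1 hd).1).2], sum_const,
      hF.jd v (hX.sub hv1) hv2, one_smul]
  have h3 : (G.ds.filter fun d => d ∉ F ∧ G.pi d ∈ X) =
      G.bd X ∪ G.ds.filter fun d => d ∉ F ∧ G.pi d ∈ X ∧ G.pi (G.al d) ∈ X := by
    ext d
    rw [mem_union, mem_filter, mem_filter, mem_bd]
    constructor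
    · rintro ⟨a, b, c⟩
      by_cases e : G.pi (G.al d) ∈ X
      · exact Or.inr ⟨a, b, c, e⟩
      · exact Or.inl ⟨a, c, e⟩
    · rintro (⟨a, c, e⟩ | ⟨a, b, c, e⟩)
      · exact ⟨a, fun hd => e (hX.clo d hd c), c⟩
      · exact ⟨a, b, c⟩
  have h4 : Disjoint (G.bd X) (G.ds.filter fun d => d ∉ F ∧ G.pi d ∈ X ∧ G.pi (G.al d) ∈ X) := by
    rw [disjoint_left]
    intro d h5 h6
    exact (mem_bd.1 h5).2.2 (mem_filter.1 h6).2.2.2
  rw [h3, sum_union h4] at h2
  have h5 := sum_symm (G := G)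
    (S := G.ds.filter fun d => d ∉ F ∧ G.pi d ∈ X ∧ G.pi (G.al d) ∈ X) (z := fun _ => 1)
    (filter_subset _ _) (fun d hd => by
      obtain ⟨a, b, c, e⟩ := mem_filter.1 hd
      refine mem_filter.2 ⟨G.al_mem d a, fun hh => b ?_, e, by rw [G.al_al d a]; exact c⟩
      rw [← G.al_al d a]
      exact hF.Fal _ hh) (fun _ _ => rfl) p
  have h6 := sum_symm (G := G) (S := F.filter fun d => G.pi d ∈ X) (z := fun _ => 1)
    ((filter_subset _ _).trans hF.Fsub) (fun d hd => by
      obtain ⟨a, b⟩ := mem_filter.1 hd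
      exact mem_filter.2 ⟨hF.Fal d a, hX.clo d a b⟩) (fun _ _ => rfl) p
  simp only [one_mul] at h5 h6
  have h7 : ∑ d ∈ G.ds.filter (fun d => d ∉ F ∧ G.pi d ∈ X ∧ G.pi (G.al d) ∈ X),
      (p (G.pi d) + p (G.pi (G.al d))) = 0 := by
    refine sum_eq_zero fun d hd => ?_
    obtain ⟨a, b, c, e⟩ := mem_filter.1 hd
    exact hp.jq d a c e zero_lt_one b
  have h8 : ∑ d ∈ F.filter (fun d => G.pi d ∈ X), (p (G.pi d) + p (G.pi (G.al d))) ≤ 0 := by
    refine sum_nonpos fun d hd => ?_
    obtain ⟨a, b⟩ := mem_filter.1 hd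
    exact hp.kk d a b (hX.clo d a b)
  have h9 := sum_sdiff (inter_subset_left : X ∩ jm ⊆ X) (f := p)
  rw [sdiff_inter_self_left] at h9
  linarith

/-- **GLUING AT A LINKED SIDE**: `A` is not crossed by F-darts and no union of `A` which is closed up
to exits leading to fresh vertices has an unused exit -/
theorem X6.glueLk (h : X6 G t fr F jm) (hFA : ∀ d ∈ F, G.pi d ∈ U → G.pi (G.al d) ∈ U)
    (h1 : G.GHalf one1 fr F jm U M1) (h2 : G.GHalf one1 fr F jm (G.vs \ U) M2)
    (hx : ∀ d ∈ G.bd U, d ∈ M1 ↔ G.al d ∈ M2)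
    (hl : ∀ Y, G.Adm fr F Y → Y ⊆ U →
      (∀ d ∈ G.bd Y, d ∉ M1 → d ∈ G.bd U ∧ G.pi (G.al d) ∈ fr) →
      ∀ d ∈ G.bd Y, d ∈ M1) : False := by
  refine h.bad ⟨M1 ∪ M2, h1.glueA h.fresh h.jm2 h2 hx hFA fun X hX hcl => ?_⟩
  have hY : G.Adm fr F (X ∩ U) := ⟨inter_subset_left.trans hX.sub, fun d hd hdX => by
    obtain ⟨k1, k2⟩ := mem_inter.1 hdX
    exact mem_inter.2 ⟨hX.clo d hd k1, hFA d hd k2⟩⟩
  have hM : ∀ d ∈ G.bd (X ∩ U), d ∉ M1 → d ∈ G.bd U ∧ G.pi (G.al d) ∈ X := by
    intro d hd hdM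
    obtain ⟨k1, k2, k3⟩ := mem_bd.1 hd
    obtain ⟨k4, k5⟩ := mem_inter.1 k2
    by_cases k6 : G.pi (G.al d) ∈ X
    · exact ⟨mem_bd.2 ⟨k1, k5, fun k7 => k3 (mem_inter.2 ⟨k6, k7⟩)⟩, k6⟩
    · exfalso
      rcases mem_union.1 (hcl d (mem_bd.2 ⟨k1, k4, k6⟩)) with k7 | k7
      · exact hdM k7
      · exact (mem_sdiff.1 (h2.hm.sub d k7).2).2 k5
  have h3 := hl _ hY inter_subset_right fun d hd hdM => ⟨(hM d hd hdM).1, hX.sub (hM d hd hdM).2⟩
  rw [eq_empty_iff_forall_notMem]
  intro d hd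
  obtain ⟨k1, k2, k3, k4, k5, k6, k7⟩ := mem_uX.1 hd
  exact k3 (mem_union_left _ (h3 d (mem_bd.2 ⟨k1, mem_inter.2 ⟨k4, k6⟩, fun k8 =>
    k7 (mem_inter.1 k8).2⟩)))

/-- a potential with the value 1 at the exits links them -/
theorem X6.glueP (h : X6 G t fr F jm) (hFA : ∀ d ∈ F, G.pi d ∈ U → G.pi (G.al d) ∈ U)
    (hf : G.HPot one1 t F U f) (hf1 : ∀ d ∈ G.bd U, f (G.pi d) = 1)
    (h1 : G.GHalf one1 fr F jm U M1) (h2 : G.GHalf one1 fr F jm (G.vs \ U) M2)
    (hx : ∀ d ∈ G.bd U, d ∈ M1 ↔ G.al d ∈ M2) : False := by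
  refine h.glueLk hFA h1 h2 hx fun Y hY hYU hc d hd => ?_
  by_contra hn
  have h3 := (h.toEK.link hf h1.hm hYU hY fun x hx hxM => hf1 x (hc x hx hxM).1).1
  have h4 : d ∈ (G.bd Y).filter fun x => x ∉ M1 := mem_filter.2 ⟨hd, hn⟩
  rw [h3] at h4
  exact notMem_empty d h4

namespace EvX

variable (s : EvX G t fr F jm y b a0 u e1 e2 X)
include s

theorem yX : y ∉ X := fun h => s.hy (s.adm.sub h)

theorem bX : b ∉ X := fun h => s.hb (s.adm.sub h)

theorem yv : y ∈ G.vs := s.sp.pa ▸ G.pi_mem a0 s.sp.a1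

theorem bv : b ∈ G.vs := s.sp.pb ▸ G.pi_mem _ (G.al_mem a0 s.sp.a1)

theorem Xv (h : EK G 6 t fr F jm) : X ⊆ G.vs := s.adm.sub.trans h.fresh.fsub

theorem Nv (h : EK G 6 t fr F jm) : NN X y b ⊆ G.vs :=
  insert_subset s.bv (insert_subset s.yv (s.Xv h))

theorem byX : b ∉ insert y X := by
  rw [mem_insert]
  rintro (h | h)
  · exact s.sp.yb h.symm
  · exact s.bX h

theorem cardN : (NN X y b).card = X.card + 2 := by
  unfold NN
  rw [card_insert_of_notMem s.byX, card_insert_of_notMem s.yX]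

theorem ty (h : EK G 6 t fr F jm) : t y = 1 := by
  have h1 := h.deg y s.yv
  have h2 : G.st y = {a0, u} := by
    ext d
    rw [s.sp.sy, mem_insert, mem_singleton]
  rw [h2, card_pair s.sp.au] at h1
  push_cast at h1
  linarith

theorem tb (h : EK G 6 t fr F jm) : t b = 0 := by
  have h1 := h.deg b s.bv
  have h2 : G.st b = {G.al a0, e1, e2} := by
    ext d
    rw [s.sp.sb, mem_insert, mem_insert, mem_singleton]
  have h3 : ({G.al a0, e1, e2} : Finset D).card = 3 := by
    rw [card_insert_of_notMem, card_pair s.sp.ee]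
    rw [mem_insert, mem_singleton]
    rintro (h | h)
    · exact s.sp.ae1 h
    · exact s.sp.ae2 h
  rw [h2, h3] at h1
  push_cast at h1
  linarith

theorem tokX (h : EK G 6 t fr F jm) : ∑ v ∈ X, t v = ((X ∩ jm).card : ℝ) :=
  h.sum_tok_fr s.adm.sub

theorem valX (h : EK G 6 t fr F jm) : G.val one1 t X = 6 := by
  rw [val_one, s.tokX h]
  have := s.six
  exact_mod_cast this

theorem tokN (h : EK G 6 t fr F jm) : ∑ v ∈ NN X y b, t v = ((X ∩ jm).card : ℝ) + 1 := by
  unfold NN
  rw [sum_insert s.byX, sum_insert s.yX, s.tokX h, s.ty h, s.tb h]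
  ring

/-- the exits of `X` lead to `y`, `b` or out of `N` -/
theorem exits (hd : d ∈ G.bd X) : d = G.al u ∨ d = G.al e2 ∨
    (d ≠ G.al u ∧ d ≠ G.al e2 ∧ G.pi (G.al d) ∉ NN X y b) := by
  obtain ⟨h1, h2, h3⟩ := mem_bd.1 hd
  by_cases hy : G.pi (G.al d) = y
  · left
    rcases s.sp.at_y (G.al_mem d h1) hy with h4 | h4
    · exfalso
      have h5 : d = G.al a0 := by rw [← h4, G.al_al d h1]
      rw [h5, s.sp.pb] at h2
      exact s.bX h2
    · rw [← h4, G.al_al d h1]
  · by_cases hb : G.pi (G.al d) = b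
    · right
      left
      rcases s.sp.at_b (G.al_mem d h1) hb with h4 | h4 | h4
      · exfalso
        have h5 : d = a0 := by rw [← G.al_al d h1, h4, G.al_al a0 s.sp.a1]
        rw [h5, s.sp.pa] at h2
        exact s.yX h2
      · exfalso
        have h5 : d = G.al e1 := by rw [← h4, G.al_al d h1]
        rw [h5] at h2
        exact s.nb h2
      · rw [← h4, G.al_al d h1]
    · refine Or.inr (Or.inr ⟨?_, ?_, ?_⟩)
      · rintro rfl
        rw [G.al_al u s.sp.u1] at hy
        exact hy s.sp.pu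
      · rintro rfl
        rw [G.al_al e2 s.sp.g1] at hb
        exact hb s.sp.pg
      · unfold NN
        rw [mem_insert, mem_insert]
        rintro (h4 | h4 | h4)
        · exact hb h4
        · exact hy h4
        · exact h3 h4

theorem mp : G.al u ∈ G.bd X := mem_bd.2 ⟨G.al_mem u s.sp.u1, s.m2, by
  rw [G.al_al u s.sp.u1, s.sp.pu]
  exact s.yX⟩

theorem mq : G.al e2 ∈ G.bd X := mem_bd.2 ⟨G.al_mem e2 s.sp.g1, s.mb, by
  rw [G.al_al e2 s.sp.g1, s.sp.pg]
  exact s.bX⟩

/-- `b'` is outside -/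
theorem nbN : G.pi (G.al e1) ∉ NN X y b := by
  unfold NN
  rw [mem_insert, mem_insert]
  rintro (h | h | h)
  · exact s.sp.paf' h
  · exact s.sp.paf h
  · exact s.nb h

/-- the exits of `U = vs - N` -/
theorem bdU (h : EK G 6 t fr F jm) : G.bd (G.vs \ NN X y b) =
    insert (G.al e1) ((((G.bd X).erase (G.al u)).erase (G.al e2)).image G.al) := by
  ext d
  rw [mem_insert, mem_image, mem_bd, mem_sdiff, mem_sdiff, not_and, not_not]
  constructor
  · rintro ⟨h1, ⟨h2, h3⟩, h4⟩
    have h5 := h4 (G.pi_mem _ (G.al_mem d h1))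
    unfold NN at h5
    rw [mem_insert, mem_insert] at h5
    have h3' : G.pi d ≠ b ∧ G.pi d ≠ y ∧ G.pi d ∉ X := by
      unfold NN at h3
      rw [mem_insert, mem_insert, not_or, not_or] at h3
      exact h3
    rcases h5 with h5 | h5 | h5
    · rcases s.sp.at_b (G.al_mem d h1) h5 with h6 | h6 | h6
      · exfalso
        have h7 : d = a0 := by rw [← G.al_al d h1, h6, G.al_al a0 s.sp.a1]
        exact h3'.2.1 (by rw [h7, s.sp.pa])
      · left
        rw [← h6, G.al_al d h1]
      · exfalso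
        have h7 : d = G.al e2 := by rw [← h6, G.al_al d h1]
        exact h3'.2.2 (by rw [h7]; exact s.mb)
    · exfalso
      rcases s.sp.at_y (G.al_mem d h1) h5 with h6 | h6
      · have h7 : d = G.al a0 := by rw [← h6, G.al_al d h1]
        exact h3'.1 (by rw [h7, s.sp.pb])
      · have h7 : d = G.al u := by rw [← h6, G.al_al d h1]
        exact h3'.2.2 (by rw [h7]; exact s.m2)
    · right
      refine ⟨G.al d, ?_, G.al_al d h1⟩
      rw [mem_erase, mem_erase, mem_bd, G.al_al d h1]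
      refine ⟨fun h6 => h3'.1 ?_, fun h6 => h3'.2.1 ?_, G.al_mem d h1, h5, h3'.2.2⟩
      · rw [← G.al_al d h1, h6, G.al_al e2 s.sp.g1, s.sp.pg]
      · rw [← G.al_al d h1, h6, G.al_al u s.sp.u1, s.sp.pu]
  · rintro (rfl | ⟨x, hx, rfl⟩)
    · refine ⟨G.al_mem _ s.sp.f1, ⟨G.pi_mem _ (G.al_mem _ s.sp.f1), s.nbN⟩, fun _ => ?_⟩
      rw [G.al_al e1 s.sp.f1, s.sp.pf]
      exact mem_insert_self _ _
    · rw [mem_erase, mem_erase] at hx
      obtain ⟨h1, h2, h3⟩ := mem_bd.1 hx.2.2
      rcases s.exits hx.2.2 with h4 | h4 | h4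
      · exact absurd h4 hx.2.1
      · exact absurd h4 hx.1
      · refine ⟨G.al_mem x h1, ⟨G.pi_mem _ (G.al_mem x h1), h4.2.2⟩, fun _ => ?_⟩
        rw [G.al_al x h1]
        exact mem_insert_of_mem (mem_insert_of_mem h2)

/-- **half matchings of `N`** from half matchings of `X` and one dart at `y`, one at `b` -/
theorem halfN (h : EK G 6 t fr F jm) (hM : G.GHalf one1 fr F jm X MX) {dy db : D}
    (hdy : dy = a0 ∨ dy = u) (hdb : db = G.al a0 ∨ db = e1 ∨ db = e2)
    (hu : G.al u ∈ MX ↔ dy = u) (he : G.al e2 ∈ MX ↔ db = e2) (ha : dy = a0 ↔ db = G.al a0) :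
    G.GHalf one1 fr F jm (NN X y b) (insert dy (insert db MX)) := by
  have ey : dy ∈ G.ds ∧ G.pi dy = y := by
    rcases hdy with rfl | rfl
    · exact ⟨s.sp.a1, s.sp.pa⟩
    · exact ⟨s.sp.u1, s.sp.pu⟩
  have eb : db ∈ G.ds ∧ G.pi db = b := by
    rcases hdb with rfl | rfl | rfl
    · exact ⟨G.al_mem a0 s.sp.a1, s.sp.pb⟩
    · exact ⟨s.sp.f1, s.sp.pf⟩
    · exact ⟨s.sp.g1, s.sp.pg⟩
  have hXn : ∀ d ∈ MX, G.pi d ≠ y ∧ G.pi d ≠ b := fun d hd =>
    ⟨fun e => s.yX (e ▸ (hM.hm.sub d hd).2), fun e => s.bX (e ▸ (hM.hm.sub d hd).2)⟩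
  have hmem : ∀ v, v ∈ NN X y b ↔ v = b ∨ v = y ∨ v ∈ X := fun v => by
    unfold NN
    rw [mem_insert, mem_insert]
  refine ⟨⟨?_, ?_, ?_⟩, fun _ _ => one_pos, ?_⟩
  · intro d hd
    rw [mem_insert, mem_insert] at hd
    rcases hd with rfl | rfl | hd
    · exact ⟨ey.1, (hmem _).2 (Or.inr (Or.inl ey.2))⟩
    · exact ⟨eb.1, (hmem _).2 (Or.inl eb.2)⟩
    · exact ⟨(hM.hm.sub d hd).1, (hmem _).2 (Or.inr (Or.inr (hM.hm.sub d hd).2))⟩
  · intro d hd hN
    rw [mem_insert, mem_insert] at hd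
    rw [mem_insert, mem_insert]
    rcases hd with rfl | rfl | hd
    · rcases hdy with rfl | rfl
      · exact Or.inr (Or.inl (ha.1 rfl).symm)
      · exact Or.inr (Or.inr (hu.2 rfl))
    · rcases hdb with rfl | rfl | rfl
      · rw [G.al_al a0 s.sp.a1]
        exact Or.inl (ha.2 rfl).symm
      · exact absurd hN s.nbN
      · exact Or.inr (Or.inr (he.2 rfl))
    · obtain ⟨h1, h2⟩ := hM.hm.sub d hd
      rcases (hmem _).1 hN with h3 | h3 | h3
      · rcases s.sp.at_b (G.al_mem d h1) h3 with h4 | h4 | h4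
        · exfalso
          have h5 : d = a0 := by rw [← G.al_al d h1, h4, G.al_al a0 s.sp.a1]
          exact (hXn d hd).1 (by rw [h5, s.sp.pa])
        · exfalso
          have h5 : d = G.al e1 := by rw [← h4, G.al_al d h1]
          rw [h5] at h2
          exact s.nb h2
        · have h5 : d = G.al e2 := by rw [← h4, G.al_al d h1]
          rw [h4]
          exact Or.inr (Or.inl (he.1 (h5 ▸ hd)).symm)
      · rcases s.sp.at_y (G.al_mem d h1) h3 with h4 | h4
        · exfalso
          have h5 : d = G.al a0 := by rw [← h4, G.al_al d h1]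
          exact (hXn d hd).2 (by rw [h5, s.sp.pb])
        · have h5 : d = G.al u := by rw [← h4, G.al_al d h1]
          rw [h4]
          exact Or.inl (hu.1 (h5 ▸ hd)).symm
      · exact Or.inr (Or.inr (hM.hm.clo d hd h3))
  · intro v hv
    rcases (hmem _).1 hv with h3 | h3 | h3
    · have h4 : ((insert dy (insert db MX)).filter fun d => G.pi d = v) = {db} := by
        ext d
        rw [mem_filter, mem_insert, mem_insert, mem_singleton]
        constructor
        · rintro ⟨rfl | h5 | h5, h6⟩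
          · exact absurd (ey.2.symm.trans (h6.trans h3)) s.sp.yb
          · exact h5
          · exact absurd (h6.trans h3) (hXn d h5).2
        · rintro rfl
          exact ⟨Or.inr (Or.inl rfl), eb.2.trans h3.symm⟩
      rw [h4, card_singleton]
    · have h4 : ((insert dy (insert db MX)).filter fun d => G.pi d = v) = {dy} := by
        ext d
        rw [mem_filter, mem_insert, mem_insert, mem_singleton]
        constructor
        · rintro ⟨h5 | rfl | h5, h6⟩
          · exact h5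
          · exact absurd (eb.2.symm.trans (h6.trans h3)) s.sp.yb.symm
          · exact absurd (h6.trans h3) (hXn d h5).1
        · rintro rfl
          exact ⟨Or.inl rfl, ey.2.trans h3.symm⟩
      rw [h4, card_singleton]
    · have h4 : ((insert dy (insert db MX)).filter fun d => G.pi d = v) =
          MX.filter fun d => G.pi d = v := by
        ext d
        rw [mem_filter, mem_filter, mem_insert, mem_insert]
        constructor
        · rintro ⟨rfl | rfl | h5, h6⟩
          · exact absurd (by rw [← ey.2, h6]; exact h3) s.yX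
          · exact absurd (by rw [← eb.2, h6]; exact h3) s.bX
          · exact ⟨h5, h6⟩
        · rintro ⟨h5, h6⟩
          exact ⟨Or.inr (Or.inr h5), h6⟩
      rw [h4]
      exact hM.hm.one v h3
  · intro Y hY hYN hc
    have hYX : Y ⊆ X := by
      intro v hv
      rcases (hmem v).1 (hYN hv) with h3 | h3 | h3
      · exact absurd (h3 ▸ hY.sub hv) s.hb
      · exact absurd (h3 ▸ hY.sub hv) s.hy
      · exact h3
    refine hM.ok Y hY hYX fun d hd => ?_
    have h4 := hc d hd
    rw [mem_insert, mem_insert] at h4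
    rcases h4 with rfl | rfl | h4
    · exact absurd (by rw [← ey.2]; exact hYX (mem_bd.1 hd).2.1) s.yX
    · exact absurd (by rw [← eb.2]; exact hYX (mem_bd.1 hd).2.1) s.bX
    · exact h4

theorem compl (h : EK G 6 t fr F jm) : G.vs \ (G.vs \ NN X y b) = NN X y b :=
  Finset.sdiff_sdiff_eq_self (s.Nv h)

theorem hFU (h : EK G 6 t fr F jm) :
    ∀ d ∈ F, G.pi d ∈ G.vs \ NN X y b → G.pi (G.al d) ∈ G.vs \ NN X y b := by
  intro d hd h1
  have hds := h.fresh.Fsub hd
  refine mem_sdiff.2 ⟨G.pi_mem _ (G.al_mem d hds), fun h2 => (mem_sdiff.1 h1).2 ?_⟩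
  unfold NN at h2 ⊢
  rw [mem_insert, mem_insert] at h2 ⊢
  have h3 := h.fresh.Ffr _ (h.fresh.Fal d hd)
  rcases h2 with h2 | h2 | h2
  · exact absurd (h2 ▸ h3) s.hb
  · exact absurd (h2 ▸ h3) s.hy
  · have h4 := s.adm.clo _ (h.fresh.Fal d hd) h2
    rw [G.al_al d hds] at h4
    exact Or.inr (Or.inr h4)

/-- the patterns at `U` -/
theorem fit (h : EK G 6 t fr F jm) {dy db : D} (hdy : dy = a0 ∨ dy = u)
    (hdb : db = G.al a0 ∨ db = e1 ∨ db = e2) (hMX : ∀ d ∈ MX, d ∈ G.ds ∧ G.pi d ∈ X)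
    (h1 : G.al e1 ∈ M1 ↔ db = e1)
    (h2 : ∀ x ∈ G.bd X, x ≠ G.al u → x ≠ G.al e2 → (G.al x ∈ M1 ↔ x ∈ MX)) :
    ∀ d ∈ G.bd (G.vs \ NN X y b), d ∈ M1 ↔ G.al d ∈ insert dy (insert db MX) := by
  intro d hd
  rw [s.bdU h, mem_insert, mem_image] at hd
  rcases hd with rfl | ⟨x, hx, rfl⟩
  · rw [h1, G.al_al e1 s.sp.f1, mem_insert, mem_insert]
    constructor
    · exact fun h3 => Or.inr (Or.inl h3.symm)
    · rintro (h3 | h3 | h3)
      · exfalso
        have h4 : G.pi e1 = y := by
          rcases hdy with h5 | h5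
          · rw [h3, h5, s.sp.pa]
          · rw [h3, h5, s.sp.pu]
        exact s.sp.yb (h4.symm.trans s.sp.pf)
      · exact h3.symm
      · exact absurd (by rw [← s.sp.pf]; exact (hMX e1 h3).2) s.bX
  · rw [mem_erase, mem_erase] at hx
    have h3 := mem_bd.1 hx.2.2
    rw [h2 x hx.2.2 hx.2.1 hx.1, G.al_al x h3.1, mem_insert, mem_insert]
    constructor
    · exact fun h4 => Or.inr (Or.inr h4)
    · rintro (h4 | h4 | h4)
      · exfalso
        have h5 : G.pi x = y := by
          rcases hdy with h5 | h5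
          · rw [h4, h5, s.sp.pa]
          · rw [h4, h5, s.sp.pu]
        exact s.yX (h5 ▸ h3.2.1)
      · exfalso
        have h5 : G.pi x = b := by
          rcases hdb with h5 | h5 | h5
          · rw [h4, h5, s.sp.pb]
          · rw [h4, h5, s.sp.pf]
          · rw [h4, h5, s.sp.pg]
        exact s.bX (h5 ▸ h3.2.1)
      · exact h4

/-- half of a certificate on `N` from one on `X` -/
theorem potN (h : EK G 6 t fr F jm) (hp : G.HPot one1 t F X p) (h1 : p (G.pi (G.al u)) = -1)
    (h2 : p (G.pi (G.al e2)) = 1) :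
    G.HPot one1 t F (NN X y b) fun v => if v = y then 1 else if v = b then -1 else p v := by
  have hmem : ∀ v, v ∈ NN X y b ↔ v = b ∨ v = y ∨ v ∈ X := fun v => by
    unfold NN
    rw [mem_insert, mem_insert]
  have hX : ∀ v ∈ X, (if v = y then (1 : ℝ) else if v = b then -1 else p v) = p v := by
    intro v hv
    rw [if_neg (fun e : v = y => s.yX (e ▸ hv)), if_neg (fun e : v = b => s.bX (e ▸ hv))]
  have hy' : (if y = y then (1 : ℝ) else if y = b then -1 else p y) = 1 := if_pos rfl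
  have hb' : (if b = y then (1 : ℝ) else if b = b then -1 else p b) = -1 := by
    rw [if_neg s.sp.yb.symm, if_pos rfl]
  have key : ∀ d ∈ G.ds, G.pi d = y → G.pi (G.al d) ∈ NN X y b →
      (if G.pi d = y then (1 : ℝ) else if G.pi d = b then -1 else p (G.pi d)) +
        (if G.pi (G.al d) = y then (1 : ℝ) else if G.pi (G.al d) = b then -1 else
          p (G.pi (G.al d))) = 0 := by
    intro d hd h3 h4
    rw [h3, hy']
    rcases s.sp.at_y hd h3 with rfl | rfl
    · rw [s.sp.pb, hb']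
      norm_num
    · rw [hX _ s.m2, h1]
      norm_num
  have keb : ∀ d ∈ G.ds, G.pi d = b → G.pi (G.al d) ∈ X →
      (if G.pi d = y then (1 : ℝ) else if G.pi d = b then -1 else p (G.pi d)) +
        (if G.pi (G.al d) = y then (1 : ℝ) else if G.pi (G.al d) = b then -1 else
          p (G.pi (G.al d))) = 0 := by
    intro d hd h3 h4
    rw [h3, hb', hX _ h4]
    rcases s.sp.at_b hd h3 with rfl | rfl | rfl
    · rw [G.al_al a0 s.sp.a1, s.sp.pa] at h4
      exact absurd h4 s.yX
    · exact absurd h4 s.nb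
    · rw [h2]
      norm_num
  refine ⟨?_, ?_, ?_⟩
  · intro v hv ht
    rcases (hmem v).1 hv with rfl | rfl | hv
    · exact absurd (s.tb h) ht
    · exact hy'
    · show (if v = y then (1 : ℝ) else if v = b then -1 else p v) = 1
      rw [hX v hv]
      exact hp.tok v hv ht
  · intro d hd h3 h4 _ hdF
    show (if G.pi d = y then (1 : ℝ) else if G.pi d = b then -1 else p (G.pi d)) +
        (if G.pi (G.al d) = y then (1 : ℝ) else if G.pi (G.al d) = b then -1 else
          p (G.pi (G.al d))) = 0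
    by_cases a : G.pi d = y
    · exact key d hd a h4
    · by_cases b1 : G.pi (G.al d) = y
      · have h5 := key (G.al d) (G.al_mem d hd) b1 (by rw [G.al_al d hd]; exact h3)
        rw [G.al_al d hd] at h5
        linarith
      · by_cases a' : G.pi d = b
        · rcases (hmem _).1 h4 with b2 | b2 | b2
          · exact absurd (a'.trans b2.symm) (G.noloop d hd).symm
          · exact absurd b2 b1
          · exact keb d hd a' b2
        · by_cases b2 : G.pi (G.al d) = b
          · have h5 : G.pi d ∈ X := by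
              rcases (hmem _).1 h3 with c | c | c
              · exact absurd c a'
              · exact absurd c a
              · exact c
            have h6 := keb (G.al d) (G.al_mem d hd) b2 (by rw [G.al_al d hd]; exact h5)
            rw [G.al_al d hd] at h6
            linarith
          · have h5 : G.pi d ∈ X := by
              rcases (hmem _).1 h3 with c | c | c
              · exact absurd c a'
              · exact absurd c a
              · exact c
            have h6 : G.pi (G.al d) ∈ X := by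
              rcases (hmem _).1 h4 with c | c | c
              · exact absurd c b2
              · exact absurd c b1
              · exact c
            rw [hX _ h5, hX _ h6]
            exact hp.jq d hd h5 h6 one_pos hdF
  · intro d hdF h3 h4
    have h5 : G.pi d ∈ X := by
      rcases (hmem _).1 h3 with c | c | c
      · exact absurd (c ▸ h.fresh.Ffr d hdF) s.hb
      · exact absurd (c ▸ h.fresh.Ffr d hdF) s.hy
      · exact c
    have h6 := s.adm.clo d hdF h5
    show (if G.pi d = y then (1 : ℝ) else if G.pi d = b then -1 else p (G.pi d)) +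
        (if G.pi (G.al d) = y then (1 : ℝ) else if G.pi (G.al d) = b then -1 else
          p (G.pi (G.al d))) ≤ 0
    rw [hX _ h5, hX _ h6]
    exact hp.kk d hdF h5 h6

/-- values of `N` and `U` -/
theorem valN (h : EK G 6 t fr F jm) : G.val one1 t (NN X y b) = 6 ∧
    G.val one1 t (G.vs \ NN X y b) = 10 - 2 * ((X ∩ jm).card : ℝ) ∧
    ∑ v ∈ G.vs \ NN X y b, t v = 5 - ((X ∩ jm).card : ℝ) ∧
    ((G.bd (G.vs \ NN X y b)).card : ℝ) = 5 - ((X ∩ jm).card : ℝ) := by
  have e1' : G.al e1 ∉ (((G.bd X).erase (G.al u)).erase (G.al e2)).image G.al := by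
    intro h1
    obtain ⟨x, hx, hxe⟩ := mem_image.1 h1
    rw [mem_erase, mem_erase] at hx
    have h3 := mem_bd.1 hx.2.2
    have h4 : x = e1 := by rw [← G.al_al x h3.1, hxe, G.al_al e1 s.sp.f1]
    exact s.bX (by rw [← s.sp.pf, ← h4]; exact h3.2.1)
  have c1 : (((((G.bd X).erase (G.al u)).erase (G.al e2)).image G.al)).card + 2 =
      (G.bd X).card := by
    rw [card_image_of_injOn, ← card_erase_add_one s.mp,
      ← card_erase_add_one (mem_erase.2 ⟨s.sp.ne_ug.symm, s.mq⟩)]
    intro x hx x' hx' hxx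
    have k1 := (mem_bd.1 (mem_of_mem_erase (mem_of_mem_erase (mem_coe.1 hx)))).1
    have k2 := (mem_bd.1 (mem_of_mem_erase (mem_of_mem_erase (mem_coe.1 hx')))).1
    rw [← G.al_al x k1, hxx, G.al_al x' k2]
  have c2 : (G.bd (G.vs \ NN X y b)).card + 1 = (G.bd X).card := by
    rw [s.bdU h, card_insert_of_notMem e1']
    omega
  have c3 := s.six
  have c4 : ((G.bd (G.vs \ NN X y b)).card : ℝ) = 5 - ((X ∩ jm).card : ℝ) := by
    have : (G.bd (G.vs \ NN X y b)).card + (X ∩ jm).card = 5 := by omega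
    have : ((G.bd (G.vs \ NN X y b)).card : ℝ) + ((X ∩ jm).card : ℝ) = 5 := by exact_mod_cast this
    linarith
  have c5 : ∑ v ∈ G.vs \ NN X y b, t v = 5 - ((X ∩ jm).card : ℝ) := by
    have h1 := sum_sdiff (s.Nv h) (f := t)
    rw [h.tau, s.tokN h] at h1
    linarith
  have c6 : G.val one1 t (G.vs \ NN X y b) = 10 - 2 * ((X ∩ jm).card : ℝ) := by
    rw [val_one, c4, c5]
    ring
  refine ⟨?_, c6, c5, c4⟩
  have h1 := h.wt.val_compl (s.Nv h)
  rw [c6, h.tau, s.tokN h] at h1
  linarith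


end EvX

end MG

end RH
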