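import Pool.Agent.Lib.RH.EvS
import Pool.Agent.Lib.RH.CE6Of

/-! # EV6-blockers which contain both star vertices do not exist -/

set_option autoImplicit false

namespace RH

open Finset Classical

/-- alpha and beta at an even set of value 6 -/
theorem Tpl.ab_tab6 : Tpl.ab.Tab 0 6 (Tpl.one1S 3)
    (Tpl.iE (univ.filter fun κ => ¬ (0 ∈ κ ∧ 1 ∈ κ))) (Tpl.iO univ) where
  t0 := by decide +kernel
  t1 := by decide +kernel
  t2 := by decide +kernel
  t3 := by decide +kernel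
  t4 := by decide +kernel

namespace MG

variable {V D : Type*} {G : MG V D} {t : V → ℝ} {fr : Finset V} {F : Finset D}
variable {jm X Y U A Z Z1 Z2 Z3 Ts : Finset V} {y b : V} {a0 u e1 e2 d i j k x1 x2 : D}
variable {p f : V → ℝ} {M M1 M2 MX MU : Finset D}

theorem EK.natE (h : EK G 6 t fr F jm) (hX : X ⊆ G.vs) (he : Even X.card) (hn : X.Nonempty)
    (hv : X ≠ G.vs) : ∃ n : ℕ, G.val one1 t X = n ∧ 4 ≤ n := by
  obtain ⟨n, h1, -⟩ := h.val_nat hX
  have h2 := h.evn X hX he hn hv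
  rw [h1] at h2
  exact ⟨n, h1, by exact_mod_cast h2⟩

theorem EK.natO (h : EK G 6 t fr F jm) (hX : X ⊆ G.vs) (ho : Odd X.card) (h1 : X.card ≠ 1) :
    ∃ n : ℕ, G.val one1 t X = n ∧ 5 ≤ n := by
  obtain ⟨n, h3, -⟩ := h.val_nat hX
  have h2 := h.odd X hX ho h1
  rw [h3] at h2
  exact ⟨n, h3, by exact_mod_cast h2⟩

theorem EK.ne_vs (hA : A ⊆ G.vs) (hne : (G.vs \ A).Nonempty) (hX : X ⊆ A) : X ≠ G.vs := by
  obtain ⟨v, hv⟩ := hne
  obtain ⟨h1, h2⟩ := mem_sdiff.1 hv
  rintro rfl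
  exact h2 (hX h1)

/-- all exits are killed -/
theorem X6.kill [Infinite V] [Infinite D] (h : X6 G t fr F jm) (hA : A ⊆ G.vs)
    (hne : (G.vs \ A).Nonempty) (hev : Even A.card) (hval : G.val one1 t A = 6)
    (h2 : Ts = ∅ ∨ Ts.card = 2) (hTs : ∀ v ∈ Ts, v ∈ jm ∨ ∃ d ∈ G.bd A, G.pi d = v) :
    (∃ M, TSol G fr F jm A (Fin.elim0 : Fin 0 → D) Ts M) ∨
      ∃ p, G.HPot one1 t F A p ∧ ∀ d ∈ G.bd A, p (G.pi d) = 1 := by
  have hE := h.toEK
  have hdr : ∀ d, Drop G A (Fin.elim0 : Fin 0 → D) d ↔ d ∈ G.bd A := fun d =>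
    ⟨fun h => h.1, fun h => ⟨h, fun i => i.elim0⟩⟩
  have hf : TOk.TFact G t A (Fin.elim0 : Fin 0 → D) 0 6 univ (fun _ => 4) (fun _ => 5) := by
    refine ⟨fun _ _ => mem_univ _, fun X hX he hn _ => ?_, fun X hX ho h1 _ => ?_, ?_,
      Nat.even_iff.1 hev⟩
    · exact hE.natE (hX.trans hA) he hn (EK.ne_vs hA hne hX)
    · exact hE.natO (hX.trans hA) ho h1
    · rw [hval]
      norm_num
  rcases h.tplG hA hne Tpl.emp_reg (Tpl.emp_tab 0 6 univ (fun _ => 4) (fun _ => 5))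
    (pp := (Fin.elim0 : Fin 0 → D)) (fun i => i.elim0) (fun i => i.elim0) hf
    (by rw [add_zero]; exact hev) (by
      have h3 : (G.bd A).filter (fun d => ∀ i : Fin 0, (Fin.elim0 : Fin 0 → D) i ≠ d) =
          G.bd A := filter_true_of_mem fun d _ i => i.elim0
      rw [h3]
      have h4 : Tpl.emp.nT univ = 0 := by decide
      rw [h4, ← hval, val_one]
      push_cast
      ring) h2 (fun v hv => by
      rcases hTs v hv with h3 | ⟨d, h3, h4⟩
      · exact Or.inl h3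
      · exact Or.inr ⟨d, (hdr d).2 h3, h4⟩) (Or.inr (by
      have h3 := card_sdiff_add_card_eq_card hA
      have h4 := card_pos.2 hne
      omega)) with ⟨M, m, h3, -⟩ | ⟨p, c, h3, h4, -⟩
  · exact Or.inl ⟨M, h3⟩
  · exact Or.inr ⟨p, h3, fun d hd => h4 d ((hdr d).2 hd)⟩

theorem TSol.none (h : TSol G fr F jm A (Fin.elim0 : Fin 0 → D) Ts M) (hd : d ∈ G.bd A) :
    d ∉ M := fun h1 => by
  obtain ⟨i, -⟩ := h.ex d hd h1
  exact i.elim0

namespace EvX

variable (s : EvX G t fr F jm y b a0 u e1 e2 X)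
include s

theorem nF (h : EK G 6 t fr F jm) (hd : d ∈ G.bd X) : d ∉ F := fun h1 =>
  (mem_bd.1 hd).2.2 (s.adm.clo d h1 (mem_bd.1 hd).2.1)

/-- different exits have different ends in `X` -/
theorem inj (h : EK G 6 t fr F jm) (hi : i ∈ G.bd X) (hj : j ∈ G.bd X)
    (hij : G.pi i = G.pi j) : i = j :=
  h.fresh.uniqJ (mem_bd.1 hi).1 (mem_bd.1 hj).1 hij (s.adm.sub (mem_bd.1 hi).2.1) (s.nF h hi)
    (s.nF h hj)

/-- an even set of value 4 in `X` has at most two ends of exits -/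
theorem ends2 (h : EK G 6 t fr F jm) (hZ : Z ⊆ X) (he : Even Z.card) (hn : Z.Nonempty)
    (h4 : G.val one1 t Z = 4) (hi : i ∈ G.bd X) (hj : j ∈ G.bd X) (hk : k ∈ G.bd X)
    (hij : i ≠ j) (hik : i ≠ k) (hjk : j ≠ k) (zi : G.pi i ∈ Z) (zj : G.pi j ∈ Z)
    (zk : G.pi k ∈ Z) : False := by
  have hbd : ∀ d ∈ G.bd X, G.pi d ∈ Z → d ∈ (G.bd Z).filter fun d => d ∉ F := fun d hd hz =>
    mem_filter.2 ⟨mem_bd.2 ⟨(mem_bd.1 hd).1, hz, fun h1 => (mem_bd.1 hd).2.2 (hZ h1)⟩, s.nF h hd⟩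
  have h3 : ({i, j, k} : Finset D).card = 3 := by
    rw [card_insert_of_notMem, card_pair hjk]
    rw [mem_insert, mem_singleton, not_or]
    exact ⟨hij, hik⟩
  have h5 : ({i, j, k} : Finset D) ⊆ (G.bd Z).filter fun d => d ∉ F := by
    intro d hd
    rw [mem_insert, mem_insert, mem_singleton] at hd
    rcases hd with rfl | rfl | rfl
    · exact hbd _ hi zi
    · exact hbd _ hj zj
    · exact hbd _ hk zk
  have h6 := card_le_card h5
  have h7 := card_filter_add_card_filter_not (s := G.bd Z) (p := fun d => d ∈ F)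
  have h8 : 0 ≤ ∑ v ∈ Z, t v := sum_nonneg fun v hv => h.t0 v (s.Xv h (hZ hv))
  have h9 : ((G.bd Z).card : ℝ) ≤ 4 := by
    rw [val_one] at h4
    linarith
  have h10 : (G.bd Z).card ≤ 4 := by exact_mod_cast h9
  by_cases hc : FCut G F Z
  · have := FCut.two h.fresh hc
    omega
  · have hZa : G.Adm fr F Z := ⟨hZ.trans s.adm.sub, fun d hd hz => by
      by_contra h11
      exact hc ⟨d, hd, hz, h11⟩⟩
    have h11 := h.c6 Z hZa he hn
    rw [val_one, h.sum_tok_fr hZa.sub] at h4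
    have h12 : (G.bd Z).card + (Z ∩ jm).card = 4 := by exact_mod_cast h4
    omega

/-- two bad pairs with a common end are pairs of vertices -/
theorem bad2 (h : EK G 6 t fr F jm) (z1 : Z1 ⊆ X) (v1 : Even Z1.card) (w1 : G.val one1 t Z1 = 4)
    (z2 : Z2 ⊆ X) (v2 : Even Z2.card) (w2 : G.val one1 t Z2 = 4) (hi : i ∈ G.bd X)
    (hj : j ∈ G.bd X) (hk : k ∈ G.bd X) (hij : i ≠ j) (hik : i ≠ k) (hjk : j ≠ k)
    (i1 : G.pi i ∈ Z1) (j1 : G.pi j ∈ Z1) (i2 : G.pi i ∈ Z2) (k2 : G.pi k ∈ Z2) :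
    Z2 = {G.pi i, G.pi k} ∧ ∑ d ∈ G.ed {G.pi j} {G.pi k}, one1 d = 0 := by
  have hw := h.wt
  have hX := s.Xv h
  have y1 := z1.trans hX
  have y2 := z2.trans hX
  have n1 : Z1.Nonempty := ⟨_, i1⟩
  have n2 : Z2.Nonempty := ⟨_, i2⟩
  have j2 : G.pi j ∉ Z2 := fun h1 =>
    s.ends2 h z2 v2 n2 w2 hi hj hk hij hik hjk i2 h1 k2
  have k1 : G.pi k ∉ Z1 := fun h1 =>
    s.ends2 h z1 v1 n1 w1 hi hj hk hij hik hjk i1 j1 h1
  have hne : (G.vs \ X).Nonempty := ⟨y, mem_sdiff.2 ⟨s.yv, s.yX⟩⟩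
  have hsub := hw.submod y1 y2
  have hpos := hw.posimod y1 y2
  have hin : (Z1 ∩ Z2).Nonempty := ⟨_, mem_inter.2 ⟨i1, i2⟩⟩
  have huX : Z1 ∪ Z2 ⊆ X := union_subset z1 z2
  have hcd := card_union_add_card_inter Z1 Z2
  have c1 := card_sdiff_add_card_inter Z1 Z2
  have c2 := card_sdiff_add_card_inter Z2 Z1
  rw [inter_comm Z2 Z1] at c2
  have e0 : 0 ≤ ∑ d ∈ G.ed (Z1 \ Z2) (Z2 \ Z1), one1 d := sum_nonneg fun d _ => zero_le_one
  have m1 : G.pi j ∈ Z1 \ Z2 := mem_sdiff.2 ⟨j1, j2⟩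
  have m2 : G.pi k ∈ Z2 \ Z1 := mem_sdiff.2 ⟨k2, k1⟩
  rcases Nat.even_or_odd (Z1 ∩ Z2).card with he | ho
  · exfalso
    have h3 := h.evn _ (inter_subset_left.trans y1) he hin (EK.ne_vs hX hne
      (inter_subset_left.trans z1))
    have hu : Even (Z1 ∪ Z2).card := by
      rw [Nat.even_iff] at *
      omega
    have h4 := h.evn _ (huX.trans hX) hu (hin.mono (inter_subset_union)) (EK.ne_vs hX hne huX)
    refine s.ends2 h huX hu (hin.mono (inter_subset_union)) (by linarith) hi hj hk hij hik hjk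
      (mem_union_left _ i1) (mem_union_left _ j1) (mem_union_right _ k2)
  · have ho1 : Odd (Z1 \ Z2).card := by
      rw [Nat.even_iff] at *
      rw [Nat.odd_iff] at *
      omega
    have ho2 : Odd (Z2 \ Z1).card := by
      rw [Nat.even_iff] at *
      rw [Nat.odd_iff] at *
      omega
    have hou : Odd (Z1 ∪ Z2).card := by
      rw [Nat.even_iff] at *
      rw [Nat.odd_iff] at *
      omega
    have hi3 := mem_bd.1 hi
    have q1 : (1 : ℝ) ≤ ∑ d ∈ G.ed (Z1 ∩ Z2) (G.vs \ (Z1 ∪ Z2)), one1 d := by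
      have h3 : i ∈ G.ed (Z1 ∩ Z2) (G.vs \ (Z1 ∪ Z2)) := mem_ed.2 ⟨hi3.1,
        mem_inter.2 ⟨i1, i2⟩, mem_sdiff.2 ⟨G.pi_mem _ (G.al_mem i hi3.1), fun h4 =>
          hi3.2.2 (huX h4)⟩⟩
      exact single_le_sum (f := one1) (fun d _ => zero_le_one) h3
    have q2 : 0 ≤ ∑ v ∈ Z1 ∩ Z2, t v := sum_nonneg fun v hv => h.t0 v (y1 (mem_inter.1 hv).1)
    have g3 : ∀ {W : Finset V}, W ⊆ G.vs → Odd W.card → 3 ≤ G.val one1 t W ∧
        (G.val one1 t W < 5 → W.card = 1) := by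
      intro W hW hWo
      by_cases h1 : W.card = 1
      · obtain ⟨v, rfl⟩ := card_eq_one.1 h1
        rw [hw.val_single (hW (mem_singleton_self v))]
        exact ⟨le_refl _, fun _ => h1⟩
      · have h5 := h.odd W hW hWo h1
        exact ⟨by linarith, fun h6 => by linarith⟩
    obtain ⟨r1, r2⟩ := g3 (sdiff_subset.trans y1) ho1
    obtain ⟨r3, r4⟩ := g3 (sdiff_subset.trans y2) ho2
    obtain ⟨r5, r6⟩ := g3 (inter_subset_left.trans y1) ho
    have p1 := r2 (by linarith)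
    have p2 := r4 (by linarith)
    have hou1 : (Z1 ∪ Z2).card ≠ 1 := by
      intro h1
      have h2 := card_pos.2 ⟨_, m1⟩
      have h3 := card_pos.2 ⟨_, m2⟩
      have h4 := card_pos.2 hin
      omega
    have p3 := h.odd _ (huX.trans hX) hou hou1
    have p4 := r6 (by linarith)
    have s1 : Z1 \ Z2 = {G.pi j} := by
      obtain ⟨v, hv⟩ := card_eq_one.1 p1
      rw [hv] at m1 ⊢
      rw [mem_singleton.1 m1]
    have s2 : Z2 \ Z1 = {G.pi k} := by
      obtain ⟨v, hv⟩ := card_eq_one.1 p2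
      rw [hv] at m2 ⊢
      rw [mem_singleton.1 m2]
    have s3 : Z1 ∩ Z2 = {G.pi i} := by
      obtain ⟨v, hv⟩ := card_eq_one.1 p4
      have h3 : G.pi i ∈ Z1 ∩ Z2 := mem_inter.2 ⟨i1, i2⟩
      rw [hv] at h3 ⊢
      rw [mem_singleton.1 h3]
    refine ⟨?_, ?_⟩
    · have h3 : (Z2 \ Z1) ∪ (Z1 ∩ Z2) = Z2 := by
        rw [inter_comm, sdiff_union_inter]
      rw [← h3, s2, s3]
      ext v
      rw [mem_union, mem_singleton, mem_singleton, mem_insert, mem_singleton, or_comm]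
    · rw [s1, s2] at hsub e0
      linarith

/-- among three exits there is a good pair -/
theorem no_tri (h : EK G 6 t fr F jm) (z1 : Z1 ⊆ X) (v1 : Even Z1.card)
    (w1 : G.val one1 t Z1 = 4)
    (z2 : Z2 ⊆ X) (v2 : Even Z2.card) (w2 : G.val one1 t Z2 = 4) (z3 : Z3 ⊆ X)
    (v3 : Even Z3.card) (w3 : G.val one1 t Z3 = 4) (hi : i ∈ G.bd X)
    (hj : j ∈ G.bd X) (hk : k ∈ G.bd X) (hij : i ≠ j) (hik : i ≠ k) (hjk : j ≠ k)
    (i1 : G.pi i ∈ Z1) (j1 : G.pi j ∈ Z1) (i2 : G.pi i ∈ Z2) (k2 : G.pi k ∈ Z2)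
    (j3 : G.pi j ∈ Z3) (k3 : G.pi k ∈ Z3) : False := by
  obtain ⟨-, h2⟩ := s.bad2 h z1 v1 w1 z2 v2 w2 hi hj hk hij hik hjk i1 j1 i2 k2
  obtain ⟨h3, -⟩ := s.bad2 h z1 v1 w1 z3 v3 w3 hj hi hk hij.symm hjk hik j1 i1 j3 k3
  have hne : G.pi j ≠ G.pi k := fun h4 => hjk (s.inj h hj hk h4)
  have hjv := s.Xv h (mem_bd.1 hj).2.1
  have hkv := s.Xv h (mem_bd.1 hk).2.1
  have h5 := h.wt.submod (singleton_subset_iff.2 hjv) (singleton_subset_iff.2 hkv)
  have d1 : Disjoint ({G.pi j} : Finset V) {G.pi k} := disjoint_singleton.2 hne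
  rw [disjoint_iff_inter_eq_empty.1 d1, sdiff_eq_self_of_disjoint d1,
    sdiff_eq_self_of_disjoint d1.symm, show G.val one1 t ∅ = 0 by unfold val bd; simp, h.wt.val_single hjv, h.wt.val_single hkv, h2]
    at h5
  have h6 : ({G.pi j} : Finset V) ∪ {G.pi k} = Z3 := by
    rw [h3]
    rfl
  rw [h6, w3] at h5
  norm_num at h5

theorem neU : (G.vs \ (G.vs \ NN X y b)).Nonempty := ⟨y, mem_sdiff.2 ⟨s.yv, fun h1 =>
  (mem_sdiff.1 h1).2 (mem_insert_of_mem (mem_insert_self _ _))⟩⟩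

theorem neX : (G.vs \ X).Nonempty := ⟨y, mem_sdiff.2 ⟨s.yv, s.yX⟩⟩

theorem evU (h : EK G 6 t fr F jm) : Even (G.vs \ NN X y b).card := by
  have h1 := card_sdiff_add_card_eq_card (s.Nv h)
  have h2 := s.cardN
  have h3 := h.even
  have h4 := s.ev
  rw [Nat.even_iff] at *
  omega

/-- **gluing at `N` with a potential which links the outer side** -/
theorem no_glue (h : X6 G t fr F jm) (hf : G.HPot one1 t F (G.vs \ NN X y b) f)
    (hf1 : ∀ d ∈ G.bd (G.vs \ NN X y b), f (G.pi d) = 1)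
    (h1 : G.GHalf one1 fr F jm (G.vs \ NN X y b) MU) (hM : G.GHalf one1 fr F jm X MX)
    (hq : G.al e2 ∉ MX) (he : G.al e1 ∈ MU ↔ G.al u ∈ MX)
    (hx : ∀ x ∈ G.bd X, x ≠ G.al u → x ≠ G.al e2 → (G.al x ∈ MU ↔ x ∈ MX)) : False := by
  have hE := h.toEK
  have hMX : ∀ d ∈ MX, d ∈ G.ds ∧ G.pi d ∈ X := hM.hm.sub
  by_cases hu : G.al u ∈ MX
  · have h2 := s.halfN hE hM (dy := u) (db := e1) (Or.inr rfl) (Or.inr (Or.inl rfl))
      (iff_of_true hu rfl) (iff_of_false hq s.sp.ee)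
      (iff_of_false (fun h3 => s.sp.au h3.symm) (fun h3 => s.sp.ae1 h3.symm))
    refine h.glueP (s.hFU hE) hf hf1 h1 (by rw [s.compl hE]; exact h2)
      (s.fit hE (Or.inr rfl) (Or.inr (Or.inl rfl)) hMX (iff_of_true (he.2 hu) rfl) hx)
  · have h2 := s.halfN hE hM (dy := a0) (db := G.al a0) (Or.inl rfl) (Or.inl rfl)
      (iff_of_false hu s.sp.au) (iff_of_false hq s.sp.ae2) (iff_of_true rfl rfl)
    refine h.glueP (s.hFU hE) hf hf1 h1 (by rw [s.compl hE]; exact h2)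
      (s.fit hE (Or.inl rfl) (Or.inl rfl) hMX (iff_of_false (fun h3 => hu (he.1 h3)) s.sp.ae1) hx)

/-- the exits of `U` if `X` has four darts -/
theorem bdU4 (h : EK G 6 t fr F jm) (hX : G.bd X = {G.al u, G.al e2, x1, x2})
    (hn : [G.al u, G.al e2, x1, x2].Nodup) :
    G.bd (G.vs \ NN X y b) = {G.al e1, G.al x1, G.al x2} := by
  simp only [List.nodup_cons, List.mem_cons, List.not_mem_nil, or_false, not_or] at hn
  rw [s.bdU h, hX]
  congr 1
  ext d
  rw [mem_image, mem_insert, mem_singleton]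
  constructor
  · rintro ⟨x, hx, rfl⟩
    rw [mem_erase, mem_erase, mem_insert, mem_insert, mem_insert, mem_singleton] at hx
    rcases hx with ⟨h1, h2, h3 | h3 | h3 | h3⟩
    · exact absurd h3 h2
    · exact absurd h3 h1
    · exact Or.inl (by rw [h3])
    · exact Or.inr (by rw [h3])
  · rintro (rfl | rfl)
    · refine ⟨x1, ?_, rfl⟩
      rw [mem_erase, mem_erase, mem_insert, mem_insert, mem_insert, mem_singleton]
      exact ⟨fun e => hn.2.1.1 e.symm, fun e => hn.1.2.1 e.symm, Or.inr (Or.inr (Or.inl rfl))⟩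
    · refine ⟨x2, ?_, rfl⟩
      rw [mem_erase, mem_erase, mem_insert, mem_insert, mem_insert, mem_singleton]
      exact ⟨fun e => hn.2.1.2 e.symm, fun e => hn.1.2.2 e.symm, Or.inr (Or.inr (Or.inr rfl))⟩

/-- with both star vertices inside, the outer side has a potential which is 1 at all exits -/
theorem out0 [Infinite V] [Infinite D] (h : X6 G t fr F jm) (hj : (X ∩ jm).card = 2)
    (hX : G.bd X = {G.al u, G.al e2, x1, x2}) (hn : [G.al u, G.al e2, x1, x2].Nodup)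
    (hM : G.GHalf one1 fr F jm X MX) (hMX : ∀ d ∈ G.bd X, d ∉ MX) :
    ∃ f, G.HPot one1 t F (G.vs \ NN X y b) f ∧
      ∀ d ∈ G.bd (G.vs \ NN X y b), f (G.pi d) = 1 := by
  have hE := h.toEK
  have hbU := s.bdU4 hE hX hn
  have hn' := hn
  simp only [List.nodup_cons, List.mem_cons, List.not_mem_nil, or_false, not_or] at hn'
  have hjc : X ∩ jm = jm := by
    refine eq_of_subset_of_card_le inter_subset_right ?_
    rcases h.jm2 with h1 | h1
    · rw [h1, card_empty]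
      omega
    · omega
  have hjX : jm ⊆ X := inter_eq_right.1 hjc
  have hUX : ∀ v ∈ G.vs \ NN X y b, v ∉ X := fun v hv hvX =>
    (mem_sdiff.1 hv).2 (mem_insert_of_mem (mem_insert_of_mem hvX))
  have hx1 : x1 ∈ G.bd X := by
    rw [hX]
    simp
  have hx2 : x2 ∈ G.bd X := by
    rw [hX]
    simp
  have m1 := mem_bd.1 hx1
  have m2 := mem_bd.1 hx2
  have hne : x1 ≠ x2 := hn'.2.2.1
  have hal : G.al x1 ≠ G.al x2 := fun h1 => hne (by rw [← G.al_al x1 m1.1, h1, G.al_al x2 m2.1])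
  have hnF : ∀ d ∈ G.bd (G.vs \ NN X y b), d ∉ F := fun d hd hdF =>
    (mem_bd.1 hd).2.2 (s.hFU hE d hdF (mem_bd.1 hd).2.1)
  obtain ⟨Ts, hTs⟩ : ∃ Ts : Finset V, Ts = if G.pi (G.al x1) ∈ fr ∧ G.pi (G.al x2) ∈ fr then
      {G.pi (G.al x1), G.pi (G.al x2)} else ∅ := ⟨_, rfl⟩
  have b1 : G.al x1 ∈ G.bd (G.vs \ NN X y b) := by
    rw [hbU]
    simp
  have b2 : G.al x2 ∈ G.bd (G.vs \ NN X y b) := by
    rw [hbU]
    simp
  have hval : G.val one1 t (G.vs \ NN X y b) = 6 := by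
    rw [(s.valN hE).2.1, hj]
    norm_num
  rcases h.kill (A := G.vs \ NN X y b) (Ts := Ts) sdiff_subset s.neU (s.evU hE) hval (by
      rw [hTs]
      split_ifs with h1
      · right
        refine card_pair fun h2 => hal ?_
        exact hE.fresh.uniqJ (mem_bd.1 b1).1 (mem_bd.1 b2).1 h2 h1.1 (hnF _ b1) (hnF _ b2)
      · exact Or.inl rfl) (by
      intro v hv
      right
      rw [hTs] at hv
      split_ifs at hv with h1
      · rw [mem_insert, mem_singleton] at hv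
        rcases hv with rfl | rfl
        · exact ⟨_, b1, rfl⟩
        · exact ⟨_, b2, rfl⟩
      · exact absurd hv (notMem_empty v)) with ⟨MU, hMU⟩ | hf
  · exfalso
    have hU : G.GHalf one1 fr F jm (G.vs \ NN X y b) MU := hMU.half h.fresh h.jm2
      (Or.inr (Or.inr fun h1 => by
        have h2 : jm.Nonempty := by
          rw [← card_pos, ← hjc]
          omega
        obtain ⟨v, hv⟩ := h2
        exact hUX v (h1 hv) (hjX hv)))
    have h2 := s.halfN hE hM (dy := a0) (db := G.al a0) (Or.inl rfl) (Or.inl rfl)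
      (iff_of_false (hMX _ s.mp) s.sp.au) (iff_of_false (hMX _ s.mq) s.sp.ae2)
      (iff_of_true rfl rfl)
    refine h.glueLk (s.hFU hE) hU (by rw [s.compl hE]; exact h2)
      (s.fit hE (Or.inl rfl) (Or.inl rfl) hM.hm.sub
        (iff_of_false (hMU.none (by rw [hbU]; simp)) s.sp.ae1) fun x hx hx1' hx2' => ?_) ?_
    · refine iff_of_false (hMU.none ?_) (hMX x hx)
      rw [hX, mem_insert, mem_insert, mem_insert, mem_singleton] at hx
      rcases hx with h3 | h3 | h3 | h3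
      · exact absurd h3 hx1'
      · exact absurd h3 hx2'
      · rw [h3]
        exact b1
      · rw [h3]
        exact b2
    · intro Y hY hYU hc d0 hd0
      by_contra hd0M
      have hex : ∀ d ∈ G.bd Y, d ∉ MU → d = G.al x1 ∨ d = G.al x2 := by
        intro d hd hdM
        obtain ⟨h3, h4⟩ := hc d hd hdM
        rw [hbU, mem_insert, mem_insert, mem_singleton] at h3
        rcases h3 with h3 | h3
        · exfalso
          rw [h3, G.al_al e1 s.sp.f1, s.sp.pf] at h4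
          exact s.hb h4
        · exact h3
      have hjY : Y ∩ jm = ∅ := by
        rw [eq_empty_iff_forall_notMem]
        intro v hv
        obtain ⟨h3, h4⟩ := mem_inter.1 hv
        exact hUX v (hYU h3) (hjX h4)
      have hpar := hMU.hm.unused h.fresh hY hYU
      rw [hjY, card_empty] at hpar
      obtain ⟨T, hT⟩ : ∃ T : Finset D, T = (G.bd Y).filter fun d => d ∉ MU := ⟨_, rfl⟩
      rw [← hT] at hpar
      have hTn : d0 ∈ T := by
        rw [hT]
        exact mem_filter.2 ⟨hd0, hd0M⟩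
      have hTs2 : T ⊆ {G.al x1, G.al x2} := by
        intro d hd
        rw [hT] at hd
        obtain ⟨h3, h4⟩ := mem_filter.1 hd
        rw [mem_insert, mem_singleton]
        exact hex d h3 h4
      have hTc := card_le_card hTs2
      rw [card_pair hal] at hTc
      have hTp := card_pos.2 ⟨_, hTn⟩
      have hTe : T = {G.al x1, G.al x2} := eq_of_subset_of_card_le hTs2 (by
        rw [card_pair hal]
        omega)
      have hmT : ∀ d, d = G.al x1 ∨ d = G.al x2 → d ∈ G.bd Y := by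
        intro d hd
        have h3 : d ∈ T := by
          rw [hTe, mem_insert, mem_singleton]
          exact hd
        rw [hT] at h3
        exact (mem_filter.1 h3).1
      have q1 := (mem_bd.1 (hmT _ (Or.inl rfl))).2.1
      have q2 := (mem_bd.1 (hmT _ (Or.inr rfl))).2.1
      have hTs3 : Ts = {G.pi (G.al x1), G.pi (G.al x2)} := by
        rw [hTs, if_pos ⟨hY.sub q1, hY.sub q2⟩]
      refine (hMU.st Y hY hYU (fun d hd => ?_) (fun v hv => ?_)).2 ⟨?_, ?_⟩
      · by_cases h3 : d ∈ MU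
        · exact Or.inl h3
        · exact Or.inr ⟨(hc d hd h3).1, fun i => i.elim0⟩
      · by_cases h3 : ∃ d, Drop G (G.vs \ NN X y b) (Fin.elim0 : Fin 0 → D) d ∧ G.pi d = v
        · left
          obtain ⟨d, h4, h5⟩ := h3
          have h6 : d ∈ G.bd Y := mem_bd.2 ⟨(mem_bd.1 h4.1).1, by rw [h5]; exact hv, fun h7 =>
            (mem_bd.1 h4.1).2.2 (hYU h7)⟩
          rw [hTs3, mem_insert, mem_singleton]
          rcases hex d h6 (hMU.none h4.1) with h7 | h7
          · exact Or.inl (by rw [← h5, h7])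
          · exact Or.inr (by rw [← h5, h7])
        · right
          refine ⟨fun h4 => hUX v (hYU hv) (hjX h4), fun d h4 h5 => h3 ⟨d, h4, h5⟩⟩
      · rw [hTs3]
        exact insert_nonempty _ _
      · rw [hTs3]
        intro v hv
        rw [mem_insert, mem_singleton] at hv
        rcases hv with rfl | rfl
        · exact q1
        · exact q2
  · exact hf


/-- adjacent tokens at two exits of `U` -/
theorem outP [Infinite V] [Infinite D] (h : X6 G t fr F jm) (hj : (X ∩ jm).card = 2)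
    {d1 d2 : D} (b1 : d1 ∈ G.bd (G.vs \ NN X y b)) (b2 : d2 ∈ G.bd (G.vs \ NN X y b))
    (hne : G.pi d1 ≠ G.pi d2)
    (h0 : ¬ ∃ MU, G.GHalf one1 fr F jm (G.vs \ NN X y b) MU ∧
      ∀ d ∈ G.bd (G.vs \ NN X y b), d ∉ MU) :
    ∃ MU, G.GHalf one1 fr F jm (G.vs \ NN X y b) MU ∧ d1 ∈ MU ∧ d2 ∈ MU ∧
      ∀ d ∈ G.bd (G.vs \ NN X y b), d ∈ MU → d = d1 ∨ d = d2 := by
  have hE := h.toEK
  have hd : d1 ≠ d2 := fun h1 => hne (by rw [h1])
  have hjc : X ∩ jm = jm := by
    refine eq_of_subset_of_card_le inter_subset_right ?_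
    rcases h.jm2 with h1 | h1
    · rw [h1, card_empty]
      omega
    · omega
  have hjX : jm ⊆ X := inter_eq_right.1 hjc
  have hUX : ∀ v ∈ G.vs \ NN X y b, v ∉ X := fun v hv hvX =>
    (mem_sdiff.1 hv).2 (mem_insert_of_mem (mem_insert_of_mem hvX))
  obtain ⟨pp, hpp⟩ : ∃ pp : Fin 2 → D, pp = ![d1, d2] := ⟨_, rfl⟩
  have p0 : pp 0 = d1 := by rw [hpp]; rfl
  have p1 : pp 1 = d2 := by rw [hpp]; rfl
  have hpb : ∀ i, pp i ∈ G.bd (G.vs \ NN X y b) := by
    intro i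
    fin_cases i
    · exact p0 ▸ b1
    · exact p1 ▸ b2
  have hpi : Function.Injective pp := by
    intro i j hij
    fin_cases i <;> fin_cases j
    · rfl
    · exact absurd (p0.symm.trans (hij.trans p1)) hd
    · exact absurd (p0.symm.trans (hij.symm.trans p1)) hd
    · rfl
  have hval : G.val one1 t (G.vs \ NN X y b) = 6 := by
    rw [(s.valN hE).2.1, hj]
    norm_num
  have hf : TOk.TFact G t (G.vs \ NN X y b) pp 0 6 (Tpl.one1S 2) (Tpl.oE univ)
      (Tpl.oO 0 univ) := by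
    refine ⟨fun v hv => ?_, fun Z hZ he hn _ => ?_, fun Z hZ ho h1 _ => ?_, ?_,
      Nat.even_iff.1 (s.evU hE)⟩
    · refine mem_filter.2 ⟨mem_univ _, ?_⟩
      refine card_le_one.2 fun i hi j hj => ?_
      have h1 : G.pi (pp i) = v := mem_singleton.1 (mem_filter.1 hi).2
      have h2 : G.pi (pp j) = v := mem_singleton.1 (mem_filter.1 hj).2
      fin_cases i <;> fin_cases j
      · rfl
      · exact absurd (by rw [← p0, ← p1]; exact h1.trans h2.symm) hne
      · exact absurd (by rw [← p0, ← p1]; exact h2.trans h1.symm) hne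
      · rfl
    · obtain ⟨n, h1, h2⟩ := hE.natE (hZ.trans sdiff_subset) he hn
        (EK.ne_vs sdiff_subset s.neU hZ)
      refine ⟨n, h1, le_trans ?_ h2⟩
      have h3 : (TOk.kap G pp Z).card ≤ 2 := by
        refine le_trans (card_le_univ _) ?_
        rw [Fintype.card_fin]
      unfold Tpl.oE
      rw [if_pos (mem_univ _)]
      omega
    · obtain ⟨n, h3, h4⟩ := hE.natO (hZ.trans sdiff_subset) ho h1
      refine ⟨n, h3, le_trans ?_ h4⟩
      have h5 : (TOk.kap G pp Z).card ≤ 2 := by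
        refine le_trans (card_le_univ _) ?_
        rw [Fintype.card_fin]
      unfold Tpl.oO
      rw [if_pos (mem_univ _)]
      omega
    · rw [hval]
      norm_num
  have hdc := drop_card hpb hpi
  have hbc : (G.bd (G.vs \ NN X y b)).card = 3 := by
    have h1 := (s.valN hE).2.2.2
    rw [hj] at h1
    have h2 : ((G.bd (G.vs \ NN X y b)).card : ℝ) = 3 := by
      rw [h1]
      norm_num
    exact_mod_cast h2
  rcases h.tplG sdiff_subset s.neU Tpl.pq_reg Tpl.pq_tab hpb hpi hf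
    (by
      have h1 := s.evU hE
      rw [Nat.even_iff] at *
      omega) (by
      have h3 : ((G.bd (G.vs \ NN X y b)).filter fun d => ∀ i, pp i ≠ d).card = 1 := by omega
      rw [h3, (s.valN hE).2.2.1, hj]
      have h4 : Tpl.pq.nT univ = 2 := by decide
      rw [h4]
      norm_num) (Ts := ∅) (Or.inl rfl) (fun v hv => absurd hv (notMem_empty v)) (Or.inl (by
      refine card_lt_card ⟨inter_subset_left, fun h1 => ?_⟩
      have h2 := s.m2
      exact hUX _ (mem_inter.1 (h1 (s.adm.sub h2))).2 h2)) with ⟨MU, m, hMU, hm⟩ | ⟨p, c, -, -, h5, h6, -⟩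
  · have hU : G.GHalf one1 fr F jm (G.vs \ NN X y b) MU := hMU.half h.fresh h.jm2
      (Or.inr (Or.inr fun h1 => by
        have h2 : jm.Nonempty := by
          rw [← card_pos, ← hjc]
          omega
        obtain ⟨v, hv⟩ := h2
        exact hUX v (h1 hv) (hjX hv)))
    rcases Tpl.pq_pat _ _ hm with h1 | h1
    · exfalso
      refine h0 ⟨MU, hU, fun d hd hdM => ?_⟩
      obtain ⟨i, hi⟩ := hMU.ex d hd hdM
      have h2 : i ∈ (univ.filter fun i => pp i ∈ MU) := mem_filter.2 ⟨mem_univ _, by rw [hi]; exact hdM⟩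
      rw [h1] at h2
      exact notMem_empty i h2
    · have h2 : ∀ i, pp i ∈ MU := by
        intro i
        have h3 : i ∈ (univ.filter fun i => pp i ∈ MU) := by
          rw [h1]
          fin_cases i <;> simp
        exact (mem_filter.1 h3).2
      refine ⟨MU, hU, p0 ▸ h2 0, p1 ▸ h2 1, fun d hd hdM => ?_⟩
      obtain ⟨i, hi⟩ := hMU.ex d hd hdM
      rw [← hi]
      fin_cases i
      · exact Or.inl p0
      · exact Or.inr p1
  · exact (Tpl.pq_noC c h5 h6).elim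

/-- alpha and beta at three exits of `X`, the exit to `b` is killed -/
theorem inAB [Infinite V] [Infinite D] (h : X6 G t fr F jm) (hj : (X ∩ jm).card = 2)
    (hX : G.bd X = {G.al e2, i, j, k}) (hn : [G.al e2, i, j, k].Nodup)
    (good : ∀ Z ⊆ X, Even Z.card → G.val one1 t Z = 4 → ¬ (G.pi i ∈ Z ∧ G.pi j ∈ Z)) :
    (∃ MX, G.GHalf one1 fr F jm X MX ∧ G.al e2 ∉ MX ∧ k ∈ MX ∧
      ((i ∈ MX ∧ j ∉ MX) ∨ (j ∈ MX ∧ i ∉ MX))) ∨
      ∃ p, G.HPot one1 t F X p ∧ p (G.pi (G.al e2)) = 1 ∧ p (G.pi i) = -1 ∧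
        p (G.pi j) = -1 ∧ p (G.pi k) = -1 := by
  have hE := h.toEK
  simp only [List.nodup_cons, List.mem_cons, List.not_mem_nil, or_false, not_or] at hn
  have hjc : X ∩ jm = jm := by
    refine eq_of_subset_of_card_le inter_subset_right ?_
    rcases h.jm2 with h1 | h1
    · rw [h1, card_empty]
      omega
    · omega
  have hjX : jm ⊆ X := inter_eq_right.1 hjc
  have bi : i ∈ G.bd X := by rw [hX]; simp
  have bj : j ∈ G.bd X := by rw [hX]; simp
  have bk : k ∈ G.bd X := by rw [hX]; simp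
  obtain ⟨pp, hpp⟩ : ∃ pp : Fin 3 → D, pp = ![i, j, k] := ⟨_, rfl⟩
  have p0 : pp 0 = i := by rw [hpp]; rfl
  have p1 : pp 1 = j := by rw [hpp]; rfl
  have p2 : pp 2 = k := by rw [hpp]; rfl
  have hpb : ∀ x, pp x ∈ G.bd X := by
    intro x
    fin_cases x
    · exact p0 ▸ bi
    · exact p1 ▸ bj
    · exact p2 ▸ bk
  have hpi : Function.Injective pp := by
    intro x x' hxx
    fin_cases x <;> fin_cases x'
    · rfl
    · exact absurd (p0.symm.trans (hxx.trans p1)) hn.2.1.1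
    · exact absurd (p0.symm.trans (hxx.trans p2)) hn.2.1.2
    · exact absurd (p0.symm.trans (hxx.symm.trans p1)) hn.2.1.1
    · rfl
    · exact absurd (p1.symm.trans (hxx.trans p2)) hn.2.2.1
    · exact absurd (p0.symm.trans (hxx.symm.trans p2)) hn.2.1.2
    · exact absurd (p1.symm.trans (hxx.symm.trans p2)) hn.2.2.1
    · rfl
  have hv4 : ∀ Z ⊆ X, Even Z.card → Z.Nonempty → ∃ n : ℕ, G.val one1 t Z = n ∧
      (n = 4 ∨ 6 ≤ n) := by
    intro Z hZ he hn'
    obtain ⟨n, h1, h2⟩ := hE.val_nat (hZ.trans (s.Xv hE))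
    have h3 := hE.evn Z (hZ.trans (s.Xv hE)) he hn' (EK.ne_vs (s.Xv hE) s.neX hZ)
    rw [h1] at h3
    have h4 : 4 ≤ n := by exact_mod_cast h3
    rw [Nat.even_iff] at he
    refine ⟨n, h1, ?_⟩
    omega
  have hf : TOk.TFact G t X pp 0 6 (Tpl.one1S 3)
      (Tpl.iE (univ.filter fun κ => ¬ (0 ∈ κ ∧ 1 ∈ κ))) (Tpl.iO univ) := by
    refine ⟨fun v hv => ?_, fun Z hZ he hn' _ => ?_, fun Z hZ ho h1 _ => ?_, ?_,
      Nat.even_iff.1 s.ev⟩
    · refine mem_filter.2 ⟨mem_univ _, card_le_one.2 fun x hx x' hx' => hpi ?_⟩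
      refine s.inj hE (hpb x) (hpb x') ?_
      rw [mem_singleton.1 (mem_filter.1 hx).2, mem_singleton.1 (mem_filter.1 hx').2]
    · obtain ⟨n, h1, h2⟩ := hv4 Z hZ he hn'
      refine ⟨n, h1, ?_⟩
      unfold Tpl.iE
      split_ifs with h3
      · omega
      · rcases h2 with h2 | h2
        · exfalso
          rw [mem_filter, not_and, not_not] at h3
          have h4 := h3 (mem_univ _)
          refine good Z hZ he (by rw [h1, h2]; norm_num) ⟨?_, ?_⟩
          · exact p0 ▸ (mem_filter.1 h4.1).2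
          · exact p1 ▸ (mem_filter.1 h4.2).2
        · exact h2
    · obtain ⟨n, h3, h4⟩ := hE.natO (hZ.trans (s.Xv hE)) ho h1
      refine ⟨n, h3, ?_⟩
      unfold Tpl.iO
      rw [if_pos (mem_univ _)]
      exact h4
    · rw [s.valX hE]
      norm_num
  have hdc := drop_card hpb hpi
  have hbc : (G.bd X).card = 4 := by
    have := s.six
    omega
  have hdr : Drop G X pp (G.al e2) := ⟨s.mq, fun x => by
    fin_cases x
    · exact fun h1 => hn.1.1 (h1.symm.trans p0)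
    · exact fun h1 => hn.1.2.1 (h1.symm.trans p1)
    · exact fun h1 => hn.1.2.2 (h1.symm.trans p2)⟩
  rcases h.tplG (s.Xv hE) s.neX Tpl.ab_reg Tpl.ab_tab6 hpb hpi hf
    (by
      have h1 := s.ev
      rw [Nat.even_iff] at *
      omega) (by
      have h3 : ((G.bd X).filter fun d => ∀ i, pp i ≠ d).card = 1 := by omega
      rw [h3, s.tokX hE, hj]
      have h4 : Tpl.ab.nT univ = 3 := by decide
      rw [h4]
      norm_num) (Ts := jm) (Or.inr (by rw [← hjc]; exact hj)) (fun v hv => Or.inl hv) (Or.inr (by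
      have h3 := card_sdiff_add_card_eq_card (s.Nv hE)
      have h4 := s.cardN
      have h5 : 0 < (G.vs \ NN X y b).card := card_pos.2 ⟨G.pi (G.al e1),
        mem_sdiff.2 ⟨G.pi_mem _ (G.al_mem _ s.sp.f1), s.nbN⟩⟩
      omega)) with ⟨MX, m, hMX, hm⟩ | ⟨p, c, q1, q2, -, q4, q5⟩
  · left
    have hU : G.GHalf one1 fr F jm X MX := hMX.half h.fresh h.jm2 (Or.inl rfl)
    have hq : G.al e2 ∉ MX := fun h1 => by
      obtain ⟨x, hx⟩ := hMX.ex _ s.mq h1
      exact hdr.2 x hx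
    have hin : ∀ x, pp x ∈ MX ↔ x ∈ (univ.filter fun i => pp i ∈ MX) := fun x => by
      rw [mem_filter]
      exact ⟨fun h1 => ⟨mem_univ _, h1⟩, fun h1 => h1.2⟩
    have t0 := hin 0
    have t1 := hin 1
    have t2 := hin 2
    rw [p0] at t0
    rw [p1] at t1
    rw [p2] at t2
    rcases Tpl.ab_pat _ _ hm with h1 | h1
    · rw [h1] at t0 t1 t2
      exact ⟨MX, hU, hq, t2.2 (by decide), Or.inl ⟨t0.2 (by decide), fun h2 =>
        absurd (t1.1 h2) (by decide)⟩⟩
    · rw [h1] at t0 t1 t2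
      exact ⟨MX, hU, hq, t2.2 (by decide), Or.inr ⟨t1.2 (by decide), fun h2 =>
        absurd (t0.1 h2) (by decide)⟩⟩
  · right
    have c0 : c 0 = 1 := q4 0 (by decide)
    have c1 : c 1 = 1 := q4 1 (by decide)
    have r0 := q5 0
    have r1 := q5 1
    have r2 := q5 2
    rw [p0, show Tpl.ab.pt 0 = 0 from rfl, c0] at r0
    rw [p1, show Tpl.ab.pt 1 = 0 from rfl, c0] at r1
    rw [p2, show Tpl.ab.pt 2 = 1 from rfl, c1] at r2
    exact ⟨p, q1, q2 _ hdr, by linarith, by linarith, by linarith⟩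


/-- two inner exits and two outer exits with distinct ends -/
theorem glue2 [Infinite V] [Infinite D] {M0 : Finset D} (h : X6 G t fr F jm)
    (hj : (X ∩ jm).card = 2)
    (hf : G.HPot one1 t F (G.vs \ NN X y b) f)
    (hf1 : ∀ d ∈ G.bd (G.vs \ NN X y b), f (G.pi d) = 1)
    (hM0 : G.GHalf one1 fr F jm X M0) (h00 : ∀ d ∈ G.bd X, d ∉ M0)
    {d1 d2 : D} (b1 : d1 ∈ G.bd (G.vs \ NN X y b)) (b2 : d2 ∈ G.bd (G.vs \ NN X y b))
    (hne : G.pi d1 ≠ G.pi d2) (hM : G.GHalf one1 fr F jm X MX) (hq : G.al e2 ∉ MX)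
    (he : (G.al e1 = d1 ∨ G.al e1 = d2) ↔ G.al u ∈ MX)
    (hx : ∀ x ∈ G.bd X, x ≠ G.al u → x ≠ G.al e2 → ((G.al x = d1 ∨ G.al x = d2) ↔ x ∈ MX)) :
    False := by
  have hE := h.toEK
  have hxU : ∀ x ∈ G.bd X, x ≠ G.al u → x ≠ G.al e2 → G.al x ∈ G.bd (G.vs \ NN X y b) := by
    intro x hx1 hx2 hx3
    rw [s.bdU hE]
    refine mem_insert_of_mem (mem_image_of_mem _ (mem_erase.2 ⟨hx3, mem_erase.2 ⟨hx2, hx1⟩⟩))
  have heU : G.al e1 ∈ G.bd (G.vs \ NN X y b) := by
    rw [s.bdU hE]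
    exact mem_insert_self _ _
  have h0 : ¬ ∃ MU, G.GHalf one1 fr F jm (G.vs \ NN X y b) MU ∧
      ∀ d ∈ G.bd (G.vs \ NN X y b), d ∉ MU := by
    rintro ⟨MU, h1, h2⟩
    refine s.no_glue h hf hf1 h1 hM0 (h00 _ s.mq) (iff_of_false (h2 _ heU) (h00 _ s.mp)) ?_
    intro x hx1 hx2 hx3
    exact iff_of_false (h2 _ (hxU x hx1 hx2 hx3)) (h00 _ hx1)
  obtain ⟨MU, h1, h2, h3, h4⟩ := s.outP h hj b1 b2 hne h0
  have key : ∀ d ∈ G.bd (G.vs \ NN X y b), d ∈ MU ↔ (d = d1 ∨ d = d2) := by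
    intro d hd
    refine ⟨h4 d hd, ?_⟩
    rintro (rfl | rfl)
    · exact h2
    · exact h3
  refine s.no_glue h hf hf1 h1 hM hq ((key _ heU).trans he) ?_
  intro x hx1 hx2 hx3
  exact (key _ (hxU x hx1 hx2 hx3)).trans (hx x hx1 hx2 hx3)

omit s in
/-- two darts to a new vertex -/
theorem _root_.RH.MG.EK.ins2 (h : EK G 6 t fr F jm) (hZ : Z ⊆ G.vs) {c : V} (hc : c ∈ G.vs)
    (hcZ : c ∉ Z) {S : Finset D} (hS : ∀ d ∈ S, d ∈ G.ds ∧ G.pi d ∈ Z ∧ G.pi (G.al d) = c) :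
    G.val one1 t (Z ∪ {c}) ≤ G.val one1 t Z + 3 - 2 * (S.card : ℝ) := by
  have hins : G.val one1 t (Z ∪ {c}) = G.val one1 t Z + 3 - 2 * ∑ d ∈ G.ed Z {c}, one1 d := by
    have h1 := h.wt.submod hZ (singleton_subset_iff.2 hc)
    have hd1 : Disjoint Z {c} := disjoint_singleton_right.2 hcZ
    rw [disjoint_iff_inter_eq_empty.1 hd1, sdiff_eq_self_of_disjoint hd1,
      sdiff_eq_self_of_disjoint hd1.symm,
      show G.val one1 t ∅ = 0 by unfold val bd; simp, h.wt.val_single hc] at h1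
    linarith
  rw [hins]
  have h1 : S ⊆ G.ed Z {c} := fun d hd => by
    obtain ⟨h2, h3, h4⟩ := hS d hd
    exact mem_ed.2 ⟨h2, h3, by rw [h4]; exact mem_singleton_self _⟩
  have h2 : ∑ d ∈ S, one1 d ≤ ∑ d ∈ G.ed Z {c}, one1 d :=
    sum_le_sum_of_subset_of_nonneg h1 fun d _ _ => zero_le_one
  have h3 : ∑ d ∈ S, (one1 d : ℝ) = S.card := by
    unfold one1
    rw [sum_const, nsmul_eq_mul, mul_one]
  linarith

/-- the outer ends are distinct -/
theorem disj (h : EK G 6 t fr F jm) (hb : NoBlk G t fr) (hi : i ∈ G.bd X) (hj : j ∈ G.bd X)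
    (iu : i ≠ G.al u) (ie : i ≠ G.al e2) (ju : j ≠ G.al u) (je : j ≠ G.al e2) (hij : i ≠ j) :
    G.pi (G.al i) ≠ G.pi (G.al j) := by
  intro h1
  have m1 := mem_bd.1 hi
  have m2 := mem_bd.1 hj
  obtain ⟨o, ho⟩ : ∃ o, o = G.pi (G.al i) := ⟨_, rfl⟩
  have hoN : o ∉ NN X y b := by
    rcases s.exits hi with h2 | h2 | h2
    · exact absurd h2 iu
    · exact absurd h2 ie
    · rw [ho]
      exact h2.2.2
  have hov : o ∈ G.vs := by
    rw [ho]
    exact G.pi_mem _ (G.al_mem _ m1.1)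
  have hXN : X ⊆ NN X y b := fun v hv => mem_insert_of_mem (mem_insert_of_mem hv)
  have hc := s.cardN
  have hev := s.ev
  have hodd : Odd (NN X y b ∪ {o}).card := by
    rw [card_union_of_disjoint (disjoint_singleton_right.2 hoN), card_singleton, hc]
    rw [Nat.even_iff] at hev
    rw [Nat.odd_iff]
    omega
  have hne1 : (NN X y b ∪ {o}).card ≠ 1 := by
    rw [card_union_of_disjoint (disjoint_singleton_right.2 hoN), card_singleton, hc]
    omega
  have hsub : NN X y b ∪ {o} ⊆ G.vs := union_subset (s.Nv h) (singleton_subset_iff.2 hov)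
  have h5 := h.odd _ hsub hodd hne1
  have hvN := (s.valN h).1
  by_cases hob : o = G.pi (G.al e1)
  · have h6 := h.ins2 (s.Nv h) hov hoN (S := {i, j, e1}) (by
      intro d hd
      rw [mem_insert, mem_insert, mem_singleton] at hd
      rcases hd with rfl | rfl | rfl
      · exact ⟨m1.1, hXN m1.2.1, ho.symm⟩
      · exact ⟨m2.1, hXN m2.2.1, h1.symm.trans ho.symm⟩
      · exact ⟨s.sp.f1, by rw [s.sp.pf]; exact mem_insert_self _ _, hob.symm⟩)
    have h7 : ({i, j, e1} : Finset D).card = 3 := by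
      rw [card_insert_of_notMem, card_pair]
      · rintro rfl
        exact s.bX (by rw [← s.sp.pf]; exact m2.2.1)
      · rw [mem_insert, mem_singleton, not_or]
        refine ⟨hij, ?_⟩
        rintro rfl
        exact s.bX (by rw [← s.sp.pf]; exact m1.2.1)
    rw [h7, hvN] at h6
    push_cast at h6
    linarith
  · have h6 := h.ins2 (s.Nv h) hov hoN (S := {i, j}) (by
      intro d hd
      rw [mem_insert, mem_singleton] at hd
      rcases hd with rfl | rfl
      · exact ⟨m1.1, hXN m1.2.1, ho.symm⟩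
      · exact ⟨m2.1, hXN m2.2.1, h1.symm.trans ho.symm⟩)
    rw [card_pair hij, hvN] at h6
    push_cast at h6
    refine hb _ _ _ _ _ _ s.toRSo _ hsub ?_ ?_ ?_ ?_ ?_ ?_ (Or.inl ⟨hodd, by linarith⟩)
    · exact mem_union_left _ (mem_insert_of_mem (mem_insert_self _ _))
    · exact mem_union_left _ (mem_insert_self _ _)
    · exact mem_union_left _ (hXN s.m2)
    · exact mem_union_left _ (hXN s.mb)
    · rw [mem_union, not_or, mem_singleton]
      exact ⟨s.nbN, fun h7 => hob h7.symm⟩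
    · have h7 : 0 < X.card := card_pos.2 ⟨_, s.m2⟩
      rw [Nat.even_iff] at hev
      rw [card_union_of_disjoint (disjoint_singleton_right.2 hoN), card_singleton, hc]
      omega

/-- if `b'` is the outer end of `x`, then the pair `al u`, `x` is good -/
theorem goodb (h : EK G 6 t fr F jm) (hb : NoBlk G t fr) (hx : i ∈ G.bd X)
    (hib : G.pi (G.al i) = G.pi (G.al e1)) (hZ : Z ⊆ X) (he : Even Z.card)
    (h4 : G.val one1 t Z = 4) (hp : G.pi (G.al u) ∈ Z) (hi : G.pi i ∈ Z) : False := by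
  have hZv := hZ.trans (s.Xv h)
  have yZ : y ∉ Z := fun h1 => s.yX (hZ h1)
  have bZ : b ∉ Z := fun h1 => s.bX (hZ h1)
  have hcn : 0 < Z.card := card_pos.2 ⟨_, hp⟩
  have hby : b ∉ Z ∪ {y} := by
    rw [mem_union, not_or, mem_singleton]
    exact ⟨bZ, s.sp.yb.symm⟩
  have c1 : (Z ∪ {y}).card = Z.card + 1 := by
    rw [card_union_of_disjoint (disjoint_singleton_right.2 yZ), card_singleton]
  have c2 : (Z ∪ {y} ∪ {b}).card = Z.card + 2 := by
    rw [card_union_of_disjoint (disjoint_singleton_right.2 hby), card_singleton, c1]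
  have hyv : Z ∪ {y} ⊆ G.vs := union_subset hZv (singleton_subset_iff.2 s.yv)
  have hbv : Z ∪ {y} ∪ {b} ⊆ G.vs := union_subset hyv (singleton_subset_iff.2 s.bv)
  have v1 := h.ins2 hZv s.yv yZ (S := {G.al u}) (by
    intro d hd
    rw [mem_singleton] at hd
    rw [hd]
    exact ⟨G.al_mem _ s.sp.u1, hp, by rw [G.al_al _ s.sp.u1, s.sp.pu]⟩)
  rw [card_singleton, h4] at v1
  push_cast at v1
  by_cases hbZ : G.pi (G.al e2) ∈ Z
  · have v2 := h.ins2 hyv s.bv hby (S := {a0, G.al e2}) (by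
      intro d hd
      rw [mem_insert, mem_singleton] at hd
      rcases hd with rfl | rfl
      · exact ⟨s.sp.a1, by rw [s.sp.pa]; exact mem_union_right _ (mem_singleton_self _), s.sp.pb⟩
      · exact ⟨G.al_mem _ s.sp.g1, mem_union_left _ hbZ, by rw [G.al_al _ s.sp.g1, s.sp.pg]⟩)
    have hne : a0 ≠ G.al e2 := by
      intro h1
      apply s.yX
      rw [← s.sp.pa, h1]
      exact s.mb
    rw [card_pair hne] at v2
    push_cast at v2
    have hev : Even (Z ∪ {y} ∪ {b}).card := by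
      rw [c2]
      rw [Nat.even_iff] at *
      omega
    have hnv : Z ∪ {y} ∪ {b} ≠ G.vs := by
      intro h1
      have h2 : G.pi (G.al e1) ∈ Z ∪ {y} ∪ {b} := by
        rw [h1]
        exact G.pi_mem _ (G.al_mem _ s.sp.f1)
      have h3 := s.nbN
      apply h3
      rw [mem_union, mem_union, mem_singleton, mem_singleton] at h2
      rcases h2 with (h2 | h2) | h2
      · exact mem_insert_of_mem (mem_insert_of_mem (hZ h2))
      · rw [h2]
        exact mem_insert_of_mem (mem_insert_self _ _)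
      · rw [h2]
        exact mem_insert_self _ _
    have v3 := h.evn _ hbv hev ⟨_, mem_union_left _ (mem_union_left _ hp)⟩ hnv
    refine hb _ _ _ _ _ _ s.toRSo _ hbv ?_ ?_ ?_ ?_ ?_ ?_ (Or.inr ⟨hev, by linarith⟩)
    · exact mem_union_left _ (mem_union_right _ (mem_singleton_self _))
    · exact mem_union_right _ (mem_singleton_self _)
    · exact mem_union_left _ (mem_union_left _ hp)
    · exact mem_union_left _ (mem_union_left _ hbZ)
    · intro h2
      have h3 := s.nbN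
      apply h3
      rw [mem_union, mem_union, mem_singleton, mem_singleton] at h2
      rcases h2 with (h2 | h2) | h2
      · exact mem_insert_of_mem (mem_insert_of_mem (hZ h2))
      · rw [h2]
        exact mem_insert_of_mem (mem_insert_self _ _)
      · rw [h2]
        exact mem_insert_self _ _
    · rw [c2]
      rw [Nat.even_iff] at he
      omega
  · have v2 := h.ins2 hyv s.bv hby (S := {a0}) (by
      intro d hd
      rw [mem_singleton] at hd
      rw [hd]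
      exact ⟨s.sp.a1, by rw [s.sp.pa]; exact mem_union_right _ (mem_singleton_self _), s.sp.pb⟩)
    rw [card_singleton] at v2
    push_cast at v2
    have hob : G.pi (G.al e1) ∉ Z ∪ {y} ∪ {b} := by
      intro h2
      have h3 := s.nbN
      apply h3
      rw [mem_union, mem_union, mem_singleton, mem_singleton] at h2
      rcases h2 with (h2 | h2) | h2
      · exact mem_insert_of_mem (mem_insert_of_mem (hZ h2))
      · rw [h2]
        exact mem_insert_of_mem (mem_insert_self _ _)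
      · rw [h2]
        exact mem_insert_self _ _
    have hov : G.pi (G.al e1) ∈ G.vs := G.pi_mem _ (G.al_mem _ s.sp.f1)
    have m1 := mem_bd.1 hx
    have v3 := h.ins2 hbv hov hob (S := {i, e1}) (by
      intro d hd
      rw [mem_insert, mem_singleton] at hd
      rcases hd with rfl | rfl
      · exact ⟨m1.1, mem_union_left _ (mem_union_left _ hi), hib⟩
      · exact ⟨s.sp.f1, by rw [s.sp.pf]; exact mem_union_right _ (mem_singleton_self _), rfl⟩)
    have hne : i ≠ e1 := by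
      rintro rfl
      exact s.bX (by rw [← s.sp.pf]; exact m1.2.1)
    rw [card_pair hne] at v3
    push_cast at v3
    have hsub : Z ∪ {y} ∪ {b} ∪ {G.pi (G.al e1)} ⊆ G.vs :=
      union_subset hbv (singleton_subset_iff.2 hov)
    have c3 : (Z ∪ {y} ∪ {b} ∪ {G.pi (G.al e1)}).card = Z.card + 3 := by
      rw [card_union_of_disjoint (disjoint_singleton_right.2 hob), card_singleton, c2]
    have hodd : Odd (Z ∪ {y} ∪ {b} ∪ {G.pi (G.al e1)}).card := by
      rw [c3]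
      rw [Nat.even_iff] at he
      rw [Nat.odd_iff]
      omega
    have v4 := h.odd _ hsub hodd (by
      rw [c3]
      omega)
    have tb2 : t (G.pi (G.al e2)) = 0 := by
      rw [h.tok_fr (s.adm.sub s.mb), if_neg]
      intro h1
      exact s.nF h s.mq (h.fresh.j0 _ h1 _ (mem_st.2 ⟨(mem_bd.1 s.mq).1, rfl⟩))
    refine hb _ _ _ _ _ _ ⟨s.toRStp.swap h, Or.inl tb2⟩ _ hsub ?_ ?_ ?_ ?_ ?_ ?_
      (Or.inl ⟨hodd, by linarith⟩)
    · exact mem_union_left _ (mem_union_left _ (mem_union_right _ (mem_singleton_self _)))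
    · exact mem_union_left _ (mem_union_right _ (mem_singleton_self _))
    · exact mem_union_left _ (mem_union_left _ (mem_union_left _ hp))
    · exact mem_union_right _ (mem_singleton_self _)
    · rw [mem_union, mem_union, mem_union, mem_singleton, mem_singleton, mem_singleton]
      rintro (((h1 | h1) | h1) | h1)
      · exact hbZ h1
      · apply s.yX
        rw [← h1]
        exact s.mb
      · apply s.bX
        rw [← h1]
        exact s.mb
      · apply s.nbN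
        rw [← h1]
        exact mem_insert_of_mem (mem_insert_of_mem s.mb)
    · rw [c3]
      rw [Nat.even_iff] at he
      omega

/-- the closings for `noEv2` -/
theorem pre2 [Infinite V] [Infinite D] (h : X6 G t fr F jm) (hb : NoBlk G t fr)
    (hj : (X ∩ jm).card = 2) (hX : G.bd X = {G.al u, G.al e2, x1, x2})
    (hn : [G.al u, G.al e2, x1, x2].Nodup) :
    G.pi (G.al x1) ≠ G.pi (G.al x2) ∧
    (∀ MX, G.GHalf one1 fr F jm X MX → G.al e2 ∉ MX → G.al u ∉ MX → x1 ∈ MX →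
      x2 ∈ MX → False) ∧
    (G.pi (G.al e1) ≠ G.pi (G.al x1) → ∀ MX, G.GHalf one1 fr F jm X MX →
      G.al e2 ∉ MX → G.al u ∈ MX → x1 ∈ MX → x2 ∉ MX → False) ∧
    (G.pi (G.al e1) ≠ G.pi (G.al x2) → ∀ MX, G.GHalf one1 fr F jm X MX →
      G.al e2 ∉ MX → G.al u ∈ MX → x2 ∈ MX → x1 ∉ MX → False) ∧
    ∀ p, G.HPot one1 t F X p → p (G.pi (G.al e2)) = 1 → p (G.pi (G.al u)) = -1 →
      p (G.pi x1) = -1 → p (G.pi x2) = -1 → False := by
  have hE := h.toEK
  have hc4 : (G.bd X).card = 4 := by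
    have := s.six
    omega
  have hn' := hn
  simp only [List.nodup_cons, List.mem_cons, List.not_mem_nil, or_false, not_or] at hn'
  obtain ⟨⟨-, n1, n2⟩, ⟨n3, n4⟩, n5, -⟩ := hn'
  have hjc : X ∩ jm = jm := by
    refine eq_of_subset_of_card_le inter_subset_right ?_
    rcases h.jm2 with h1 | h1
    · rw [h1, card_empty]
      omega
    · omega
  have x1X : x1 ∈ G.bd X := by rw [hX]; simp
  have x2X : x2 ∈ G.bd X := by rw [hX]; simp
  -- the inner half without exits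
  obtain ⟨M0, hM0, h00⟩ : ∃ M0, G.GHalf one1 fr F jm X M0 ∧ ∀ d ∈ G.bd X, d ∉ M0 := by
    rcases h.kill (A := X) (Ts := jm) (s.Xv hE) s.neX s.ev (s.valX hE)
      (Or.inr (by rw [← hjc]; exact hj)) (fun v hv => Or.inl hv) with ⟨M, hM⟩ | ⟨p, h1, h2⟩
    · exact ⟨M, hM.half h.fresh h.jm2 (Or.inl rfl), fun d hd => hM.none hd⟩
    · exfalso
      have h3 := hE.sum_bdS s.adm h1
      rw [sum_congr rfl h2, sum_const, hc4, nsmul_eq_mul] at h3
      have h4 : 0 ≤ ∑ v ∈ X ∩ jm, p v := by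
        refine sum_nonneg fun v hv => ?_
        obtain ⟨h5, h6⟩ := mem_inter.1 hv
        have h7 := h1.tok v h5 (by
          rw [hE.tok_fr (s.adm.sub h5), if_pos h6]
          norm_num)
        rw [h7]
        norm_num
      push_cast at h3
      linarith
  obtain ⟨f, hf, hf1⟩ := s.out0 h hj hX hn hM0 h00
  have hbU := s.bdU4 hE hX hn
  have bU1 : G.al x1 ∈ G.bd (G.vs \ NN X y b) := by rw [hbU]; simp
  have bU2 : G.al x2 ∈ G.bd (G.vs \ NN X y b) := by rw [hbU]; simp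
  have bUe : G.al e1 ∈ G.bd (G.vs \ NN X y b) := by rw [hbU]; simp
  have o12 : G.pi (G.al x1) ≠ G.pi (G.al x2) := s.disj hE hb x1X x2X (Ne.symm n1) (Ne.symm n3)
    (Ne.symm n2) (Ne.symm n4) n5
  have a12 : G.al x1 ≠ G.al x2 := fun h1 => o12 (by rw [h1])
  have ae1 : ∀ x ∈ G.bd X, G.al e1 ≠ G.al x := by
    intro x hx h1
    have h2 : e1 = x := by
      rw [← G.al_al _ s.sp.f1, h1, G.al_al _ (mem_bd.1 hx).1]
    apply s.bX
    rw [← s.sp.pf, h2]
    exact (mem_bd.1 hx).2.1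
  have hall : ∀ x ∈ G.bd X, x ≠ G.al u → x ≠ G.al e2 → x = x1 ∨ x = x2 := by
    intro x hx h1 h2
    rw [hX, mem_insert, mem_insert, mem_insert, mem_singleton] at hx
    rcases hx with h3 | h3 | h3 | h3
    · exact absurd h3 h1
    · exact absurd h3 h2
    · exact Or.inl h3
    · exact Or.inr h3
  refine ⟨o12, ?_, ?_, ?_, ?_⟩
  · intro MX g1 g2 g3 g4 g5
    refine s.glue2 h hj hf hf1 hM0 h00 bU1 bU2 o12 g1 g2 (iff_of_false ?_ g3) ?_
    · rintro (g6 | g6)
      · exact ae1 _ x1X g6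
      · exact ae1 _ x2X g6
    · intro x hx hx1 hx2
      rcases hall x hx hx1 hx2 with rfl | rfl
      · exact iff_of_true (Or.inl rfl) g4
      · exact iff_of_true (Or.inr rfl) g5
  · intro g0 MX g1 g2 g3 g4 g5
    refine s.glue2 h hj hf hf1 hM0 h00 bUe bU1 g0 g1 g2 (iff_of_true (Or.inl rfl) g3) ?_
    intro x hx hx1 hx2
    rcases hall x hx hx1 hx2 with rfl | rfl
    · exact iff_of_true (Or.inr rfl) g4
    · refine iff_of_false ?_ g5
      rintro (g6 | g6)
      · exact ae1 _ x2X g6.symm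
      · exact a12 g6.symm
  · intro g0 MX g1 g2 g3 g4 g5
    refine s.glue2 h hj hf hf1 hM0 h00 bUe bU2 g0 g1 g2 (iff_of_true (Or.inl rfl) g3) ?_
    intro x hx hx1 hx2
    rcases hall x hx hx1 hx2 with rfl | rfl
    · refine iff_of_false ?_ g5
      rintro (g6 | g6)
      · exact ae1 _ x1X g6.symm
      · exact a12 g6
    · exact iff_of_true (Or.inr rfl) g4
  · intro p g1 g2 g3 g4 g5
    have g6 := s.potN hE g1 g3 g2
    rw [← s.compl hE] at g6
    refine h.no_join hf g6 ?_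
    intro d hd
    rw [hf1 d hd]
    rw [hbU, mem_insert, mem_insert, mem_singleton] at hd
    have gX : ∀ x ∈ G.bd X, G.pi x ≠ y ∧ G.pi x ≠ b := fun x hx =>
      ⟨fun g7 => s.yX (g7 ▸ (mem_bd.1 hx).2.1), fun g7 => s.bX (g7 ▸ (mem_bd.1 hx).2.1)⟩
    rcases hd with rfl | rfl | rfl
    · rw [G.al_al _ s.sp.f1, s.sp.pf, if_neg s.sp.yb.symm, if_pos rfl]
      norm_num
    · rw [G.al_al _ (mem_bd.1 x1X).1, if_neg (gX _ x1X).1, if_neg (gX _ x1X).2, g4]
      norm_num
    · rw [G.al_al _ (mem_bd.1 x2X).1, if_neg (gX _ x2X).1, if_neg (gX _ x2X).2, g5]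
      norm_num

/-- a good pair gives a solution or a certificate -/
theorem run2 [Infinite V] [Infinite D] (h : X6 G t fr F jm) (hj : (X ∩ jm).card = 2)
    (cert : ∀ p, G.HPot one1 t F X p → p (G.pi (G.al e2)) = 1 → p (G.pi i) = -1 →
      p (G.pi j) = -1 → p (G.pi k) = -1 → False)
    (g1 : G.bd X = {G.al e2, i, j, k}) (g2 : [G.al e2, i, j, k].Nodup)
    (g3 : ∀ Z ⊆ X, Even Z.card → G.val one1 t Z = 4 → G.pi i ∈ Z → G.pi j ∈ Z → False)
    (g4 : ∀ MX, G.GHalf one1 fr F jm X MX → G.al e2 ∉ MX → k ∈ MX → i ∈ MX → j ∉ MX → False)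
    (g5 : ∀ MX, G.GHalf one1 fr F jm X MX → G.al e2 ∉ MX → k ∈ MX → j ∈ MX → i ∉ MX → False) :
    False := by
  rcases s.inAB h hj g1 g2 (fun Z z1 z2 z3 z4 => g3 Z z1 z2 z3 z4.1 z4.2) with
    ⟨MX, g6, g7, g8, g9 | g9⟩ | ⟨p, g6, g7, g8, g9, g10⟩
  · exact g4 MX g6 g7 g8 g9.1 g9.2
  · exact g5 MX g6 g7 g8 g9.1 g9.2
  · exact cert p g6 g7 g8 g9 g10

/-- **no EV6-blocker contains both star vertices** -/
theorem noEv2 [Infinite V] [Infinite D] (h : X6 G t fr F jm) (hb : NoBlk G t fr)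
    (hj : (X ∩ jm).card = 2) : False := by
  have hE := h.toEK
  have hc4 : (G.bd X).card = 4 := by
    have := s.six
    omega
  have hpq : G.al u ≠ G.al e2 := fun h1 => s.sp.ue (by rw [h1])
  obtain ⟨x1, x2, hX, hn⟩ := X6.four_of hc4 s.mp s.mq hpq
  obtain ⟨o12, c12, cu1, cu2, cert⟩ := s.pre2 h hb hj hX hn
  simp only [List.nodup_cons, List.mem_cons, List.not_mem_nil, or_false, not_or] at hn
  obtain ⟨⟨-, n1, n2⟩, ⟨n3, n4⟩, n5, -⟩ := hn
  have x1X : x1 ∈ G.bd X := by rw [hX]; simp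
  have x2X : x2 ∈ G.bd X := by rw [hX]; simp
  have bdA : G.bd X = {G.al e2, G.al u, x1, x2} := by
    rw [hX]
    exact insert_comm _ _ _
  have bdB : G.bd X = {G.al e2, G.al u, x2, x1} := by
    rw [bdA, pair_comm x1 x2]
  have bdC : G.bd X = {G.al e2, x1, x2, G.al u} := by
    rw [bdA, insert_comm (G.al u) x1, pair_comm (G.al u) x2]
  have ndA : [G.al e2, G.al u, x1, x2].Nodup := by
    simp only [List.nodup_cons, List.mem_cons, List.not_mem_nil, or_false, not_or,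
      not_false_iff, List.nodup_nil, and_true]
    exact ⟨⟨hpq.symm, n3, n4⟩, ⟨n1, n2⟩, n5⟩
  have ndB : [G.al e2, G.al u, x2, x1].Nodup := by
    simp only [List.nodup_cons, List.mem_cons, List.not_mem_nil, or_false, not_or,
      not_false_iff, List.nodup_nil, and_true]
    exact ⟨⟨hpq.symm, n4, n3⟩, ⟨n2, n1⟩, fun h1 => n5 h1.symm⟩
  have ndC : [G.al e2, x1, x2, G.al u].Nodup := by
    simp only [List.nodup_cons, List.mem_cons, List.not_mem_nil, or_false, not_or,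
      not_false_iff, List.nodup_nil, and_true]
    exact ⟨⟨n3, n4, hpq.symm⟩, ⟨n5, fun h1 => n1 h1.symm⟩, fun h1 => n2 h1.symm⟩
  have certB : ∀ p, G.HPot one1 t F X p → p (G.pi (G.al e2)) = 1 → p (G.pi (G.al u)) = -1 →
      p (G.pi x2) = -1 → p (G.pi x1) = -1 → False := fun p h1 h2 h3 h4 h5 =>
    cert p h1 h2 h3 h5 h4
  have certC : ∀ p, G.HPot one1 t F X p → p (G.pi (G.al e2)) = 1 → p (G.pi x1) = -1 →
      p (G.pi x2) = -1 → p (G.pi (G.al u)) = -1 → False := fun p h1 h2 h3 h4 h5 =>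
    cert p h1 h2 h5 h3 h4
  by_cases ha : G.pi (G.al x1) = G.pi (G.al e1)
  · exact s.run2 h hj cert bdA ndA (fun Z hZ he h4 p1 q1 => s.goodb hE hb x1X ha hZ he h4 p1 q1)
      (fun MX g1 g2 g3 g4 g5 => cu2 (fun g6 => o12 (ha.trans g6)) MX g1 g2 g4 g3 g5)
      (fun MX g1 g2 g3 g4 g5 => c12 MX g1 g2 g5 g4 g3)
  by_cases hc : G.pi (G.al x2) = G.pi (G.al e1)
  · exact s.run2 h hj certB bdB ndB (fun Z hZ he h4 p1 q1 =>
      s.goodb hE hb x2X hc hZ he h4 p1 q1)
      (fun MX g1 g2 g3 g4 g5 => cu1 (fun g6 => o12 (g6.symm.trans hc.symm)) MX g1 g2 g4 g3 g5)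
      (fun MX g1 g2 g3 g4 g5 => c12 MX g1 g2 g5 g3 g4)
  by_cases g1 : ∀ Z ⊆ X, Even Z.card → G.val one1 t Z = 4 → G.pi (G.al u) ∈ Z →
      G.pi x1 ∈ Z → False
  · exact s.run2 h hj cert bdA ndA g1
      (fun MX g1 g2 g3 g4 g5 => cu2 (fun g6 => hc g6.symm) MX g1 g2 g4 g3 g5)
      (fun MX g1 g2 g3 g4 g5 => c12 MX g1 g2 g5 g4 g3)
  by_cases g2 : ∀ Z ⊆ X, Even Z.card → G.val one1 t Z = 4 → G.pi (G.al u) ∈ Z →
      G.pi x2 ∈ Z → False
  · exact s.run2 h hj certB bdB ndB g2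
      (fun MX g1 g2 g3 g4 g5 => cu1 (fun g6 => ha g6.symm) MX g1 g2 g4 g3 g5)
      (fun MX g1 g2 g3 g4 g5 => c12 MX g1 g2 g5 g3 g4)
  by_cases g3 : ∀ Z ⊆ X, Even Z.card → G.val one1 t Z = 4 → G.pi x1 ∈ Z → G.pi x2 ∈ Z → False
  · exact s.run2 h hj certC bdC ndC g3
      (fun MX g1 g2 g3 g4 g5 => cu1 (fun g6 => ha g6.symm) MX g1 g2 g3 g4 g5)
      (fun MX g1 g2 g3 g4 g5 => cu2 (fun g6 => hc g6.symm) MX g1 g2 g3 g4 g5)
  push Not at g1 g2 g3
  obtain ⟨Z1, z1, v1, w1, p1, q1, -⟩ := g1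
  obtain ⟨Z2, z2, v2, w2, p2, q2, -⟩ := g2
  obtain ⟨Z3, z3, v3, w3, p3, q3, -⟩ := g3
  exact s.no_tri hE z1 v1 w1 z2 v2 w2 z3 v3 w3 s.mp x1X x2X n1 n2 n5 p1 q1 p2 q2 p3 q3

end EvX

end MG

end RH
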