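import Pool.Agent.Lib.RH.TplA
import Pool.Agent.Lib.RH.Tpl4

/-! # Arc closings: tables K1, K2, L, W

`k1`: fresh `a1`, `a2`, `a3` between the ports, star `a1`, `a2`, `a3` joined to a vertex with two
tokens: both ports unused, no colouring. `k2`: star `a1`, `a3`, `a2` joined to a vertex with two tokens:
both ports used. `lf`: fresh `a1`, `a2`, star at `a1`, `a2` joined to a vertex with two tokens: only the
port at `a1`. `X6.k1`, `X6.k2`, `X6.lf`: the instances. -/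

set_option autoImplicit false

namespace RH

open Finset Classical

namespace Tpl

/-- `a1` 0, `a2` 1, `a3` 2, the vertex with two tokens 3 -/
def k1 : Tpl 4 3 2 where
  a := ![0, 1, 2]
  b := ![1, 2, 3]
  pt := ![0, 2]
  tk := ![1, 1, 0, 2]

def k2 : Tpl 4 3 2 where
  a := ![0, 1, 1]
  b := ![1, 2, 3]
  pt := ![0, 2]
  tk := ![1, 0, 1, 2]

def lf : Tpl 3 2 2 where
  a := ![0, 1]
  b := ![1, 2]
  pt := ![0, 1]
  tk := ![1, 0, 2]

theorem k1_reg : k1.Reg := by decide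
theorem k2_reg : k2.Reg := by decide
theorem lf_reg : lf.Reg := by decide

theorem k1_tab : k1.Tab 0 4 (one1S 2) (iE univ) (iO univ) where
  t0 := by decide +kernel
  t1 := by decide +kernel
  t2 := by decide +kernel
  t3 := by decide +kernel
  t4 := by decide +kernel

theorem k2_tab : k2.Tab 0 4 (one1S 2) (iE univ) (iO univ) where
  t0 := by decide +kernel
  t1 := by decide +kernel
  t2 := by decide +kernel
  t3 := by decide +kernel
  t4 := by decide +kernel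

theorem lf_tab : lf.Tab 1 5 (one1S 2) (iE univ) (iO univ) where
  t0 := by decide +kernel
  t1 := by decide +kernel
  t2 := by decide +kernel
  t3 := by decide +kernel
  t4 := by decide +kernel

theorem k1_arc : k1.Arc {0, 1, 2} {0, 1} {0, 1} univ where
  pe := by decide
  pk := by decide
  two := by decide
  con := by decide
  js := by decide
  one := by decide
  zer := by decide

theorem k2_arc : k2.Arc {0, 1, 2} {0, 2} {0, 1} univ where
  pe := by decide
  pk := by decide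
  two := by decide
  con := by decide
  js := by decide
  one := by decide
  zer := by decide

theorem lf_arc : lf.Arc {0, 1} {0} {0} univ where
  pe := by decide
  pk := by decide
  two := by decide
  con := by decide
  js := by decide
  one := by decide
  zer := by decide

theorem k1_pat : ∀ m κ, k1.IsPat m κ → m = {0, 2} ∧ κ = ∅ := by decide +kernel
theorem k2_pat : ∀ m κ, k2.IsPat m κ → m = {2} ∧ κ = {0, 1} := by decide +kernel
theorem lf_pat : ∀ m κ, lf.IsPat m κ → m = {1} ∧ κ = {0} := by decide +kernel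

/-- no colouring -/
theorem k1_noC (c : Fin 4 → ℝ) (h1 : ∀ i ∈ ({0, 1} : Finset (Fin 3)), c (k1.a i) + c (k1.b i) ≤ 0)
    (h2 : ∀ v, k1.tk v ≠ 0 → c v = 1) : False := by
  have e1 := h1 0 (by decide)
  have e2 := h2 0 (by decide)
  have e3 := h2 1 (by decide)
  change c 0 + c 1 ≤ 0 at e1
  linarith

end Tpl

namespace MG

variable {V D : Type*} {G : MG V D} {t : V → ℝ} {fr : Finset V} {F K : Finset D}
variable {jm A X Y : Finset V} {f g u : D} {M : Finset D} {z : D → ℝ} {p : V → ℝ}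

/-- sign -/
noncomputable def sg1 (x : ℝ) : ℝ := if 0 < x then 1 else if x < 0 then -1 else 0

theorem sg1_pos {x : ℝ} (h : 0 < x) : sg1 x = 1 := if_pos h

theorem sg1_one : sg1 1 = 1 := if_pos one_pos

theorem sg1_neg {x : ℝ} (h : x < 0) : sg1 x = -1 := by
  unfold sg1
  rw [if_neg (not_lt.2 h.le), if_pos h]

theorem sg1_zero : sg1 0 = 0 := by
  unfold sg1
  rw [if_neg (lt_irrefl _), if_neg (lt_irrefl _)]

theorem sg1_add0 {x y : ℝ} (h : x + y = 0) : sg1 x + sg1 y = 0 := by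
  rcases lt_trichotomy x 0 with h1 | h1 | h1
  · rw [sg1_neg h1, sg1_pos (by linarith)]
    norm_num
  · have h2 : y = 0 := by linarith
    rw [h1, h2, sg1_zero]
    norm_num
  · rw [sg1_pos h1, sg1_neg (by linarith)]
    norm_num

theorem sg1_addle {x y : ℝ} (h : x + y ≤ 0) : sg1 x + sg1 y ≤ 0 := by
  rcases lt_trichotomy x 0 with h1 | h1 | h1
  · rw [sg1_neg h1]
    rcases lt_trichotomy y 0 with h2 | h2 | h2
    · rw [sg1_neg h2]
      norm_num
    · rw [h2, sg1_zero]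
      norm_num
    · rw [sg1_pos h2]
      norm_num
  · rw [h1, sg1_zero]
    rcases lt_trichotomy y 0 with h2 | h2 | h2
    · rw [sg1_neg h2]
      norm_num
    · rw [h2, sg1_zero]
      norm_num
    · linarith
  · rw [sg1_pos h1, sg1_neg (by linarith)]
    norm_num

theorem sg1_le (x : ℝ) : sg1 x ≤ 1 ∧ -1 ≤ sg1 x := by
  rcases lt_trichotomy x 0 with h1 | h1 | h1
  · rw [sg1_neg h1]
    norm_num
  · rw [h1, sg1_zero]
    norm_num
  · rw [sg1_pos h1]
    norm_num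

/-- half certificates with values in -1, 0, 1 -/
theorem HPot.sgn (h : G.HPot z t K A p) : G.HPot z t K A fun v => sg1 (p v) where
  tok := fun v hv ht => by
    rw [h.tok v hv ht, sg1_one]
  jq := fun d hd h1 h2 h3 h4 => sg1_add0 (h.jq d hd h1 h2 h3 h4)
  kk := fun d hd h1 h2 => sg1_addle (h.kk d hd h1 h2)

private theorem even_inv4 (S : Finset D) (hS : S ⊆ G.ds) (hcl : ∀ d ∈ S, G.al d ∈ S) :
    Even S.card := by
  have h1 : ∑ _d ∈ S, (1 : ZMod 2) = 0 := by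
    refine sum_involution (fun d _ => G.al d) ?_ ?_ ?_ ?_
    · intro d _
      decide
    · intro d hd _ he
      exact G.noloop d (hS hd) (by rw [he])
    · intro d hd
      exact hcl d hd
    · intro d hd
      exact G.al_al d (hS hd)
  rw [sum_const, nsmul_eq_mul, mul_one] at h1
  rwa [ZMod.natCast_eq_zero_iff_even] at h1

/-- darts at a fresh vertex -/
theorem FrS.st3 (hF : G.FrS z fr F jm) {v : V} (hv : v ∈ fr) :
    (G.st v).card + (if v ∈ jm then 1 else 0) = 3 := by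
  have h1 : (G.st v).filter (fun d => ¬ d ∉ F) = F.filter fun d => G.pi d = v := by
    ext d
    rw [mem_filter, mem_filter, mem_st, not_not]
    exact ⟨fun h => ⟨h.2, h.1.2⟩, fun h => ⟨⟨hF.Fsub h.1, h.2⟩, h.1⟩⟩
  have h2 := card_filter_add_card_filter_not (s := G.st v) (fun d => d ∉ F)
  rw [h1, hF.two v hv] at h2
  by_cases h3 : v ∈ jm
  · have h4 : (G.st v).filter (fun d => d ∉ F) = ∅ := by
      rw [filter_eq_empty_iff]
      exact fun d hd hn => hn (hF.j0 v h3 d hd)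
    rw [h4, card_empty] at h2
    rw [if_pos h3]
    omega
  · have h4 := hF.jd v hv h3
    rw [if_neg h3]
    omega

/-- parity of the boundary of any set of fresh vertices -/
theorem FrS.bd_parA (hF : G.FrS z fr F jm) (hX : X ⊆ fr) :
    ((G.bd X).card + (X ∩ jm).card) % 2 = X.card % 2 := by
  set S : Finset D := G.ds.filter fun d => G.pi d ∈ X with hS
  have h1 : S.card + (X ∩ jm).card = 3 * X.card := by
    have e1 : S.card = ∑ v ∈ X, (G.st v).card := by
      rw [card_eq_sum_card_fiberwise (f := G.pi) (s := S) (t := X)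
        (fun d hd => (mem_filter.1 (mem_coe.1 hd)).2)]
      refine sum_congr rfl fun v hv => ?_
      congr 1
      ext d
      rw [mem_filter, mem_filter, mem_st]
      exact ⟨fun h => ⟨h.1.1, h.2⟩, fun h => ⟨⟨h.1, h.2 ▸ hv⟩, h.2⟩⟩
    have e2 : (X ∩ jm).card = ∑ v ∈ X, if v ∈ jm then 1 else 0 := by
      rw [← sum_filter, sum_const, smul_eq_mul, mul_one, filter_mem_eq_inter]
    rw [e1, e2, ← sum_add_distrib, sum_congr rfl fun v hv => hF.st3 (hX hv), sum_const,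
      smul_eq_mul, mul_comm]
  have h2 : S = G.bd X ∪ S.filter fun d => G.pi (G.al d) ∈ X := by
    ext d
    simp only [mem_union, mem_filter, hS, mem_bd]
    constructor
    · rintro ⟨h, h3⟩
      by_cases h4 : G.pi (G.al d) ∈ X
      · exact Or.inr ⟨⟨h, h3⟩, h4⟩
      · exact Or.inl ⟨h, h3, h4⟩
    · rintro (⟨h, h3, h4⟩ | ⟨h, h3⟩)
      · exact ⟨h, h3⟩
      · exact h
  have h3 : Disjoint (G.bd X) (S.filter fun d => G.pi (G.al d) ∈ X) := by
    rw [disjoint_left]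
    intro d h4 h5
    exact (mem_bd.1 h4).2.2 (mem_filter.1 h5).2
  have h4 : Even (S.filter fun d => G.pi (G.al d) ∈ X).card := by
    refine even_inv4 (G := G) _ ((filter_subset _ _).trans (filter_subset _ _)) ?_
    intro d hd
    rw [mem_filter, hS, mem_filter] at hd ⊢
    obtain ⟨⟨h5, h6⟩, h8⟩ := hd
    refine ⟨⟨G.al_mem d h5, h8⟩, ?_⟩
    rw [G.al_al d h5]
    exact h6
  rw [h2, card_union_of_disjoint h3] at h1
  obtain ⟨k, hk⟩ := h4
  omega

/-- parity law for any set of fresh vertices -/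
theorem HM.unusedA (hF : G.FrS z fr F jm) (hM : G.HM A M) (hY : Y ⊆ fr) (hYA : Y ⊆ A) :
    ((G.bd Y).filter fun d => d ∉ M).card % 2 = (Y ∩ jm).card % 2 := by
  have h1 := hM.par hYA
  have h2 := hF.bd_parA hY
  have h3 := card_filter_add_card_filter_not (s := G.bd Y) (fun d => d ∈ M)
  omega

/-- a union of arcs of `A` which contains the ends of the F-exits `f`, `g` -/
structure Arc2 (G : MG V D) (fr : Finset V) (F : Finset D) (A : Finset V) (f g : D)
    (Y : Finset V) : Prop where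
  sub : Y ⊆ fr
  inA : Y ⊆ A
  clo : ∀ d ∈ F, G.pi d ∈ Y → G.pi (G.al d) ∈ Y ∨ d = f ∨ d = g
  mf : G.pi f ∈ Y
  mg : G.pi g ∈ Y

/-- the circuit through `f`, `g` is linked inside `A` if `f`, `g` are both used or both unused -/
def LkA (G : MG V D) (fr : Finset V) (F : Finset D) (A : Finset V) (f g : D) (M : Finset D) :
    Prop :=
  ∀ Y, Arc2 G fr F A f g Y → (∀ d ∈ G.bd Y, d ≠ f → d ≠ g → d ∈ M) → False

/-- the part in `A` of a union which contains the ends of `f` -/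
theorem FrS.arc2 (hF : G.FrS z fr F jm) (hX : G.Adm fr F X)
    (hfg : ∀ d ∈ F, d ∈ G.bd A → d = f ∨ d = g) (hf : f ∈ G.bd A) (fF : f ∈ F)
    (hp : G.pi f ∈ X) : Arc2 G fr F A f g (X ∩ A) := by
  have hA : ∀ d ∈ F, G.pi d ∈ X ∩ A → G.pi (G.al d) ∈ X ∩ A ∨ d = f ∨ d = g := by
    intro d hd h1
    obtain ⟨h2, h3⟩ := mem_inter.1 h1
    by_cases h4 : G.pi (G.al d) ∈ A
    · exact Or.inl (mem_inter.2 ⟨hX.clo d hd h2, h4⟩)
    · exact Or.inr (hfg d hd (mem_bd.2 ⟨hF.Fsub hd, h3, h4⟩))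
  refine ⟨inter_subset_left.trans hX.sub, inter_subset_right, hA,
    mem_inter.2 ⟨hp, (mem_bd.1 hf).2.1⟩, ?_⟩
  by_contra hg
  -- F-darts at `X ∩ A`
  have h1 : Even (F.filter fun d => G.pi d ∈ X ∩ A).card := by
    have e1 : (F.filter fun d => G.pi d ∈ X ∩ A).card = ∑ v ∈ X ∩ A, 2 := by
      rw [card_eq_sum_card_fiberwise (f := G.pi) (s := F.filter fun d => G.pi d ∈ X ∩ A)
        (t := X ∩ A) (fun d hd => (mem_filter.1 (mem_coe.1 hd)).2)]
      refine sum_congr rfl fun v hv => ?_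
      rw [← hF.two v (hX.sub (mem_inter.1 hv).1)]
      congr 1
      ext d
      rw [mem_filter, mem_filter, mem_filter]
      exact ⟨fun h => ⟨h.1.1, h.2⟩, fun h => ⟨⟨h.1, h.2 ▸ hv⟩, h.2⟩⟩
    rw [e1, sum_const, smul_eq_mul]
    exact even_two.mul_left _
  have h2 : Even ((F.filter fun d => G.pi d ∈ X ∩ A).erase f).card := by
    refine even_inv4 (G := G) _ (fun d hd => hF.Fsub (mem_filter.1 (mem_erase.1 hd).2).1) ?_
    intro d hd
    obtain ⟨h3, h4⟩ := mem_erase.1 hd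
    obtain ⟨h5, h6⟩ := mem_filter.1 h4
    have h7 : G.pi (G.al d) ∈ X ∩ A := by
      rcases hA d h5 h6 with h8 | h8 | h8
      · exact h8
      · exact absurd h8 h3
      · rw [h8] at h6
        exact absurd h6 hg
    refine mem_erase.2 ⟨fun h8 => ?_, mem_filter.2 ⟨hF.Fal d h5, h7⟩⟩
    have h9 : G.pi (G.al f) ∈ A := by
      rw [← h8, G.al_al d (hF.Fsub h5)]
      exact (mem_inter.1 h6).2
    exact (mem_bd.1 hf).2.2 h9
  have h3 : f ∈ F.filter fun d => G.pi d ∈ X ∩ A :=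
    mem_filter.2 ⟨fF, mem_inter.2 ⟨hp, (mem_bd.1 hf).2.1⟩⟩
  rw [card_erase_of_mem h3] at h2
  have h4 : 0 < (F.filter fun d => G.pi d ∈ X ∩ A).card := card_pos.2 ⟨f, h3⟩
  rw [Nat.even_iff] at h1 h2
  omega

variable {nv ne np : ℕ} {T : Tpl nv ne np} {Kf Js : Finset (Fin nv)} {Ts : Finset V}
variable {m : Finset (Fin ne)} {Fp : Finset (Fin np)} {pp : Fin np → D}

/-- the solution of an arc state as a solution without star -/
theorem ASol.tsol (h : ASol G fr F jm A T pp Kf Js Fp Ts M m) :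
    TSol G fr F jm A pp ∅ M where
  hm := h.hm
  ex := h.ex
  st := by
    intro X hX hXA hcl hsp
    exact ⟨(h.st X hX hXA hcl fun v hv => (hsp v hv).elim (fun h1 => absurd h1 (notMem_empty v))
      Or.inr).1, fun h1 => not_nonempty_empty h1.1⟩

/-- the two ports -/
theorem fin2_ne {f g : D} (h : f ≠ g) : Function.Injective ![f, g] := by
  intro i j hij
  fin_cases i <;> fin_cases j
  · rfl
  · exact absurd hij h
  · exact absurd hij.symm h
  · rfl

theorem drop2 {d : D} : Drop G A ![f, g] d ↔ d ∈ G.bd A ∧ d ≠ f ∧ d ≠ g := by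
  unfold Drop
  constructor
  · rintro ⟨h1, h2⟩
    exact ⟨h1, fun h3 => h2 0 h3.symm, fun h3 => h2 1 h3.symm⟩
  · rintro ⟨h1, h2, h3⟩
    refine ⟨h1, fun i h4 => ?_⟩
    fin_cases i
    · exact h2 h4.symm
    · exact h3 h4.symm

theorem acl2 : Acl G F ![f, g] univ X ↔
    ∀ d ∈ F, G.pi d ∈ X → G.pi (G.al d) ∈ X ∨ d = f ∨ d = g := by
  unfold Acl
  refine forall_congr' fun d => forall_congr' fun _ => forall_congr' fun _ => ?_
  constructor
  · rintro (h1 | ⟨i, -, h1⟩)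
    · exact Or.inl h1
    · fin_cases i
      · exact Or.inr (Or.inl h1.symm)
      · exact Or.inr (Or.inr h1.symm)
  · rintro (h1 | h1 | h1)
    · exact Or.inl h1
    · exact Or.inr ⟨0, mem_univ _, h1.symm⟩
    · exact Or.inr ⟨1, mem_univ _, h1.symm⟩

theorem Arc2.acl (h : Arc2 G fr F A f g Y) : Acl G F ![f, g] univ Y := acl2.2 h.clo

/-- value of the arc of an even set of value 4 -/
theorem kc5 {T : Tpl nv ne 2} (h : EK G 6 t fr F jm) (hA : A ⊆ G.vs)
    (hs : ∀ v ∈ A, TOk.kap G ![f, g] {v} ∈ Tpl.one1S 2)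
    {Kf : Finset (Fin nv)} (hk : Kf.card = 3) (hv : T.val Kf = 5) (hq : ∀ κ, T.nQ Kf κ ≤ 2)
    (hYA : Y ⊆ A) (h1 : G.pi f ∈ Y) (h2 : G.pi g ∈ Y) (he : Even (Y.card + Kf.card)) :
    ∃ n : ℕ, G.val one1 t Y = n ∧ 6 + 2 * T.nQ Kf (TOk.kap G ![f, g] Y) ≤ T.val Kf + n := by
  obtain ⟨n, h3, h4⟩ := h.val_nat (hYA.trans hA)
  refine ⟨n, h3, ?_⟩
  have ho : Odd Y.card := by
    rw [hk, Nat.even_iff] at he
    rw [Nat.odd_iff]
    omega
  have h5 : Y.card ≠ 1 := by
    intro h5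
    obtain ⟨v, rfl⟩ := card_eq_one.1 h5
    have h6 := hs v (hYA (mem_singleton_self v))
    unfold Tpl.one1S at h6
    have h7 := (mem_filter.1 h6).2
    have h8 : TOk.kap G ![f, g] {v} = univ := by
      ext i
      unfold TOk.kap
      rw [mem_filter]
      refine ⟨fun _ => mem_univ _, fun _ => ⟨mem_univ _, ?_⟩⟩
      fin_cases i
      · exact h1
      · exact h2
    rw [h8, card_univ, Fintype.card_fin] at h7
    omega
  have h6 := h.odd Y (hYA.trans hA) ho h5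
  rw [h3] at h6
  have h7 : 5 ≤ n := by exact_mod_cast h6
  have h8 := hq (TOk.kap G ![f, g] Y)
  omega

/-- **even sets of value 4, arc closed by three vertices** -/
theorem X6.kA [Infinite V] [Infinite D] (h : X6 G t fr F jm) (b : IBlk G t A 0)
    (h4 : 4 ≤ A.card) (hf : f ∈ G.bd A) (hg : g ∈ G.bd A) (hfg : f ≠ g) (fF : f ∈ F) (gF : g ∈ F)
    {T : Tpl 4 ne 2} {Kf Js : Finset (Fin 4)} {Fe : Finset (Fin ne)} (hreg : T.Reg)
    (hT : T.Tab 0 4 (Tpl.one1S 2) (Tpl.iE univ) (Tpl.iO univ)) (hArc : T.Arc Kf Js Fe univ)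
    (hnT : T.nT univ = 4) (hk : Kf.card = 3) (hv : T.val Kf = 5) (hq : ∀ κ, T.nQ Kf κ ≤ 2)
    (hJs : Js.card = 2)
    (hB : ∃ B, Arc2 G fr F A f g B ∧ ∀ v ∈ B, v ∉ jm ∧ ∀ d ∈ G.bd A, d ≠ f → d ≠ g → G.pi d ≠ v)
    (hsm : (fr ∩ A).card + 3 < fr.card ∨
      ((fr ∩ A).card + 3 ≤ fr.card ∧ A.card + 4 < G.vs.card)) :
    (∃ M m, ASol G fr F jm A T ![f, g] Kf Js univ ∅ M m ∧
      T.IsPat m (univ.filter fun i => ![f, g] i ∈ M)) ∨
      ∃ (p : V → ℝ) (c : Fin 4 → ℝ), G.HPot one1 t F A p ∧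
        (∀ d ∈ G.bd A, d ≠ f → d ≠ g → p (G.pi d) = 1) ∧
        (∀ i, i ∉ Fe → c (T.a i) + c (T.b i) = 0) ∧ (∀ i ∈ Fe, c (T.a i) + c (T.b i) ≤ 0) ∧
        (∀ v, T.tk v ≠ 0 → c v = 1) ∧ p (G.pi f) + c (T.pt 0) ≤ 0 ∧
        p (G.pi g) + c (T.pt 1) ≤ 0 := by
  have hE := h.toEK
  have hpb : ∀ i, ![f, g] i ∈ G.bd A := by
    intro i
    fin_cases i
    · exact hf
    · exact hg
  have hs : ∀ v ∈ A, TOk.kap G ![f, g] {v} ∈ Tpl.one1S 2 := fun v hv => b.one1 hE h4 hpb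
    (fin2_ne hfg) hv
  have hfa := b.fact (pp := ![f, g]) (e4 := univ) (o5 := univ) hE hs (fun _ _ _ _ _ _ => mem_univ _)
    (fun _ _ _ _ _ _ => mem_univ _)
  have hev : Even (A.card + 4) := by
    have h1 := b.par
    rw [Nat.even_iff]
    omega
  have ht : ∑ v ∈ A, t v + (((G.bd A).filter fun d => ∀ i, ![f, g] i ≠ d).card : ℝ) +
      T.nT univ = 6 := by
    have h1 := b.val
    rw [val_one] at h1
    have h3 := drop_card hpb (fin2_ne hfg)
    have h3' : ((((G.bd A).filter fun d => ∀ i, ![f, g] i ≠ d).card : ℕ) : ℝ) + 2 =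
        ((G.bd A).card : ℕ) := by exact_mod_cast h3
    rw [hnT]
    push_cast at h1 ⊢
    linarith
  have hF2 : ∀ i ∈ (univ : Finset (Fin 2)), ![f, g] i ∈ F := by
    intro i _
    fin_cases i
    · exact fF
    · exact gF
  rcases h.tplA (Ts := ∅) b.hA b.ne hreg hT hArc hpb (fin2_ne hfg) hfa hev ht
    hF2 (fun v hv => absurd hv (notMem_empty v)) (Or.inl (by rw [card_empty, hJs])) (by
      obtain ⟨B, b1, b2⟩ := hB
      refine ⟨B, b1.sub, b1.inA, b1.acl, fun i _ => ?_, empty_subset _, fun v hv => Or.inr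
        ⟨(b2 v hv).1, fun d hd => ?_⟩⟩
      · fin_cases i
        · exact b1.mf
        · exact b1.mg
      · obtain ⟨h5, h6, h7⟩ := drop2.1 hd
        exact (b2 v hv).2 d h5 h6 h7)
    (fun Y _ hYA _ hYp he => kc5 hE b.hA hs hk hv hq hYA
      (hYp 0 (mem_univ _)) (hYp 1 (mem_univ _)) he)
    (by rw [hk]; exact hsm) with h1 | ⟨p, c, h1, h2, h3, h5, h6, h7, h8⟩
  · exact Or.inl h1
  · exact Or.inr ⟨p, c, h1, fun d hd k1 k2 => h2 d (drop2.2 ⟨hd, k1, k2⟩), h3, h5, h6,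
      h8 0 (mem_univ _), h8 1 (mem_univ _)⟩

/-- no star vertex in a set with an even number of them -/
theorem jm_even (j2 : jm = ∅ ∨ jm.card = 2) (hj : jm = ∅ ∨ ¬ jm ⊆ A) (hY : Y ⊆ A)
    (he : (Y ∩ jm).card % 2 = 0) : Y ∩ jm = ∅ := by
  rcases hj with hj | hj
  · rw [hj, inter_empty]
  · have h3 : (Y ∩ jm).card < jm.card := by
      refine card_lt_card ⟨inter_subset_right, fun h4 => hj fun v hv => ?_⟩
      exact hY (mem_inter.1 (h4 hv)).1
    rcases j2 with j2 | j2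
    · rw [j2, inter_empty]
    · rw [← card_eq_zero]
      omega

/-- arcs are linked -/
theorem ASol.lkA (hF : G.FrS z fr F jm) (j2 : jm = ∅ ∨ jm.card = 2) {T : Tpl nv ne 2}
    (h : ASol G fr F jm A T ![f, g] Kf Js univ ∅ M m) (hf : f ∈ G.bd A) (hg : g ∈ G.bd A)
    (hfg : f ≠ g) (hj : jm = ∅ ∨ ¬ jm ⊆ A) (hJ : Js.Nonempty) (hex : f ∈ M ↔ g ∈ M)
    (hm : ∀ i, ¬ (T.a i ∈ Kf ↔ T.b i ∈ Kf) → i ∈ m) : LkA G fr F A f g M := by
  intro Y hY hcl
  have hfY : f ∈ G.bd Y := mem_bd.2 ⟨(mem_bd.1 hf).1, hY.mf, fun k => (mem_bd.1 hf).2.2 (hY.inA k)⟩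
  have hgY : g ∈ G.bd Y := mem_bd.2 ⟨(mem_bd.1 hg).1, hY.mg, fun k => (mem_bd.1 hg).2.2 (hY.inA k)⟩
  have hpar := h.hm.unusedA hF hY.sub hY.inA
  have h0 : Y ∩ jm = ∅ := by
    refine jm_even j2 hj hY.inA ?_
    rw [← hpar]
    by_cases k : f ∈ M
    · have hun : (G.bd Y).filter (fun d => d ∉ M) = ∅ := by
        rw [filter_eq_empty_iff]
        intro d hd hn
        by_cases k1 : d = f
        · exact hn (k1 ▸ k)
        · by_cases k2 : d = g
          · exact hn (k2 ▸ hex.1 k)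
          · exact hn (hcl d hd k1 k2)
      rw [hun, card_empty]
    · have hun : (G.bd Y).filter (fun d => d ∉ M) = {f, g} := by
        ext d
        rw [mem_filter, mem_insert, mem_singleton]
        constructor
        · rintro ⟨k1, k2⟩
          by_contra k3
          push Not at k3
          exact k2 (hcl d k1 k3.1 k3.2)
        · rintro (rfl | rfl)
          · exact ⟨hfY, k⟩
          · exact ⟨hgY, fun k3 => k (hex.2 k3)⟩
      rw [hun, card_pair hfg]
  have hdr : ∀ v ∈ Y, ∀ d, Drop G A ![f, g] d → G.pi d ≠ v := by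
    rintro v hv d hd rfl
    obtain ⟨k1, k2, k3⟩ := drop2.1 hd
    obtain ⟨i, hi⟩ := h.ex d k1 (hcl d (mem_bd.2 ⟨(mem_bd.1 k1).1, hv,
      fun k => (mem_bd.1 k1).2.2 (hY.inA k)⟩) k2 k3)
    exact hd.2 i hi
  refine (h.ar Y hY.sub hY.inA hY.acl (fun i _ => ?_) (fun d hd hi => ?_) (fun v hv => ?_)
    (fun i _ hi => absurd (mem_univ i) hi) hm).2 ⟨Or.inr hJ, empty_subset _⟩
  · fin_cases i
    · exact hY.mf
    · exact hY.mg
  · exact Or.inl (hcl d hd (fun k => hi 0 (mem_univ _) k.symm) (fun k => hi 1 (mem_univ _) k.symm))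
  · refine Or.inr ⟨fun k => ?_, hdr v hv⟩
    have k2 : v ∈ Y ∩ jm := mem_inter.2 ⟨hv, k⟩
    rw [h0] at k2
    exact notMem_empty v k2

/-- **INSTANCE K1**: no exit is used, the circuit of `f`, `g` is linked inside -/
theorem X6.k1 [Infinite V] [Infinite D] (h : X6 G t fr F jm) (b : IBlk G t A 0)
    (h4 : 4 ≤ A.card) (hf : f ∈ G.bd A) (hg : g ∈ G.bd A) (hfg : f ≠ g) (fF : f ∈ F) (gF : g ∈ F)
    (hj : jm = ∅ ∨ ¬ jm ⊆ A)
    (hB : ∃ B, Arc2 G fr F A f g B ∧ ∀ v ∈ B, v ∉ jm ∧ ∀ d ∈ G.bd A, d ≠ f → d ≠ g → G.pi d ≠ v)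
    (hsm : (fr ∩ A).card + 3 < fr.card ∨
      ((fr ∩ A).card + 3 ≤ fr.card ∧ A.card + 4 < G.vs.card)) :
    ∃ M, G.GHalf one1 fr F jm A M ∧ (∀ d ∈ G.bd A, d ∉ M) ∧ LkA G fr F A f g M := by
  rcases h.kA b h4 hf hg hfg fF gF Tpl.k1_reg Tpl.k1_tab Tpl.k1_arc (by decide) (by decide)
    (by decide) (by decide) (by decide) hB hsm with ⟨M, m, h1, h2⟩ | ⟨p, c, -, -, -, h5, h6, -, -⟩
  · obtain ⟨e1, e2⟩ := Tpl.k1_pat _ _ h2
    have hno : ∀ d ∈ G.bd A, d ∉ M := by
      intro d hd hdM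
      obtain ⟨i, rfl⟩ := h1.ex d hd hdM
      have h3 : i ∈ (∅ : Finset (Fin 2)) := by
        rw [← e2]
        exact mem_filter.2 ⟨mem_univ _, hdM⟩
      exact notMem_empty i h3
    refine ⟨M, h1.tsol.half h.fresh h.jm2 (Or.inr hj), hno, h1.lkA h.fresh h.jm2 hf hg hfg hj
      (by decide) ⟨fun k => absurd k (hno f hf), fun k => absurd k (hno g hg)⟩ ?_⟩
    rw [e1]
    decide
  · exact (Tpl.k1_noC c h5 h6).elim

/-- **INSTANCE K2**: exactly `f`, `g` are used and their circuit is linked inside, or a half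
certificate -/
theorem X6.k2 [Infinite V] [Infinite D] (h : X6 G t fr F jm) (b : IBlk G t A 0)
    (h4 : 4 ≤ A.card) (hf : f ∈ G.bd A) (hg : g ∈ G.bd A) (hfg : f ≠ g) (fF : f ∈ F) (gF : g ∈ F)
    (hj : jm = ∅ ∨ ¬ jm ⊆ A)
    (hB : ∃ B, Arc2 G fr F A f g B ∧ ∀ v ∈ B, v ∉ jm ∧ ∀ d ∈ G.bd A, d ≠ f → d ≠ g → G.pi d ≠ v)
    (hsm : (fr ∩ A).card + 3 < fr.card ∨
      ((fr ∩ A).card + 3 ≤ fr.card ∧ A.card + 4 < G.vs.card)) :
    (∃ M, G.GHalf one1 fr F jm A M ∧ f ∈ M ∧ g ∈ M ∧ (∀ d ∈ G.bd A, d ∈ M → d = f ∨ d = g) ∧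
      LkA G fr F A f g M) ∨
      ∃ p, G.HPot one1 t F A p ∧ (∀ v, p v ≤ 1 ∧ -1 ≤ p v) ∧
        (∀ d ∈ G.bd A, d ≠ f → d ≠ g → p (G.pi d) = 1) ∧ p (G.pi f) = -1 ∧ p (G.pi g) = -1 := by
  rcases h.kA b h4 hf hg hfg fF gF Tpl.k2_reg Tpl.k2_tab Tpl.k2_arc (by decide) (by decide)
    (by decide) (by decide) (by decide) hB hsm with ⟨M, m, h1, h2⟩ | ⟨p, c, h1, h2, -, -, h6, h7, h8⟩
  · left
    obtain ⟨e1, e2⟩ := Tpl.k2_pat _ _ h2
    have hiM : ∀ i : Fin 2, ![f, g] i ∈ M := by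
      intro i
      have h3 : i ∈ (univ.filter fun i => ![f, g] i ∈ M) := by
        rw [e2]
        revert i
        decide
      exact (mem_filter.1 h3).2
    have fM : f ∈ M := hiM 0
    have gM : g ∈ M := hiM 1
    refine ⟨M, h1.tsol.half h.fresh h.jm2 (Or.inr hj), fM, gM, ?_, h1.lkA h.fresh h.jm2 hf hg hfg
      hj (by decide) ⟨fun _ => gM, fun _ => fM⟩ ?_⟩
    · intro d hd hdM
      obtain ⟨i, rfl⟩ := h1.ex d hd hdM
      fin_cases i
      · exact Or.inl rfl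
      · exact Or.inr rfl
    · rw [e1]
      decide
  · right
    have c0 := h6 0 (by decide)
    have c2 := h6 2 (by decide)
    have e0 : p (G.pi f) + c 0 ≤ 0 := h7
    have e2 : p (G.pi g) + c 2 ≤ 0 := h8
    refine ⟨_, h1.sgn, fun v => sg1_le _, fun d hd k1 k2 => ?_, sg1_neg (by linarith),
      sg1_neg (by linarith)⟩
    rw [h2 d hd k1 k2, sg1_one]

/-- **INSTANCE L**: odd sets of value 5; exactly `f` is used, its circuit is linked inside even if
`u` is unused; or a half certificate -/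
theorem X6.lf [Infinite V] [Infinite D] (h : X6 G t fr F jm) (b : IBlk G t A 1)
    (hf : f ∈ G.bd A) (hg : g ∈ G.bd A) (hfg : G.pi f ≠ G.pi g) (fF : f ∈ F) (gF : g ∈ F)
    (hj : Disjoint jm A) (hfF : ∀ d ∈ F, d ∈ G.bd A → d = f ∨ d = g)
    (hu : u ∈ G.bd A) (huF : u ∉ F) (huf : G.pi u ∈ fr)
    (hdr : ∀ d ∈ G.bd A, d ≠ f → d ≠ g → G.pi d ∈ fr → d = u)
    (hE4 : ∀ Y, Arc2 G fr F A f g Y → Even Y.card → G.val one1 t Y ≠ 4)
    (hsm : (fr ∩ A).card + 2 < fr.card ∨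
      ((fr ∩ A).card + 2 ≤ fr.card ∧ A.card + 3 < G.vs.card)) :
    (∃ M, G.GHalf one1 fr F jm A M ∧ f ∈ M ∧ (∀ d ∈ G.bd A, d ∈ M → d = f) ∧
      ∀ Y, Arc2 G fr F A f g Y → (∀ d ∈ G.bd Y, d ≠ f → d ≠ g → d ∈ M ∨ d = u) → False) ∨
      ∃ p, G.HPot one1 t F A p ∧ (∀ v, p v ≤ 1 ∧ -1 ≤ p v) ∧
        (∀ d ∈ G.bd A, d ≠ f → d ≠ g → p (G.pi d) = 1) ∧ p (G.pi f) = -1 := by
  have hE := h.toEK
  have hne : f ≠ g := fun k => hfg (by rw [k])
  have ufg : u ≠ f ∧ u ≠ g := ⟨fun k => huF (k ▸ fF), fun k => huF (k ▸ gF)⟩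
  have hpb : ∀ i, ![f, g] i ∈ G.bd A := by
    intro i
    fin_cases i
    · exact hf
    · exact hg
  have hs : ∀ v ∈ A, TOk.kap G ![f, g] {v} ∈ Tpl.one1S 2 := by
    intro v _
    unfold Tpl.one1S
    rw [mem_filter]
    refine ⟨mem_univ _, card_le_one.2 fun i hi j hj => ?_⟩
    unfold TOk.kap at hi hj
    have hi' := mem_singleton.1 (mem_filter.1 hi).2
    have hj' := mem_singleton.1 (mem_filter.1 hj).2
    fin_cases i <;> fin_cases j
    · rfl
    · exact absurd (hi'.trans hj'.symm) hfg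
    · exact absurd (hj'.trans hi'.symm) hfg
    · rfl
  have hfa := b.fact (pp := ![f, g]) (e4 := univ) (o5 := univ) hE hs (fun _ _ _ _ _ _ => mem_univ _)
    (fun _ _ _ _ _ _ => mem_univ _)
  have hev : Even (A.card + 3) := by
    have h1 := b.par
    rw [Nat.even_iff]
    omega
  have ht : ∑ v ∈ A, t v + (((G.bd A).filter fun d => ∀ i, ![f, g] i ≠ d).card : ℝ) +
      Tpl.lf.nT univ = 6 := by
    have h1 := b.val
    rw [val_one] at h1
    have h3 := drop_card hpb (fin2_ne hne)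
    have h3' : ((((G.bd A).filter fun d => ∀ i, ![f, g] i ≠ d).card : ℕ) : ℝ) + 2 =
        ((G.bd A).card : ℕ) := by exact_mod_cast h3
    have e4 : Tpl.lf.nT univ = 3 := by decide
    rw [e4]
    push_cast at h1 ⊢
    linarith
  have hF2 : ∀ i ∈ (univ : Finset (Fin 2)), ![f, g] i ∈ F := by
    intro i _
    fin_cases i
    · exact fF
    · exact gF
  have uA : G.pi u ∈ A := (mem_bd.1 hu).2.1
  have hB : Arc2 G fr F A f g (fr ∩ A) :=
    h.fresh.arc2 ⟨subset_refl _, fun d hd _ => h.fresh.Ffr _ (h.fresh.Fal d hd)⟩ hfF hf fF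
      (h.fresh.Ffr f fF)
  have hsp : ∀ Y ⊆ fr, Y ⊆ A → ∀ v ∈ Y, v ∈ ({G.pi u} : Finset V) ∨
      (v ∉ jm ∧ ∀ d, Drop G A ![f, g] d → G.pi d ≠ v) := by
    intro Y hY hYA v hv
    by_cases k : v = G.pi u
    · exact Or.inl (mem_singleton.2 k)
    · refine Or.inr ⟨fun k2 => disjoint_left.1 hj k2 (hYA hv), fun d hd k3 => k ?_⟩
      obtain ⟨k4, k5, k6⟩ := drop2.1 hd
      rw [← k3, hdr d k4 k5 k6 (k3 ▸ hY hv)]
  rcases h.tplA (Ts := {G.pi u}) b.hA b.ne Tpl.lf_reg Tpl.lf_tab Tpl.lf_arc hpb (fin2_ne hne) hfa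
    hev ht hF2 (fun v hv => Or.inr ⟨u, drop2.2 ⟨hu, ufg.1, ufg.2⟩, (mem_singleton.1 hv).symm⟩)
    (Or.inl (by rw [card_singleton]; decide)) (by
      refine ⟨fr ∩ A, hB.sub, hB.inA, hB.acl, fun i _ => ?_, ?_, hsp _ hB.sub hB.inA⟩
      · fin_cases i
        · exact hB.mf
        · exact hB.mg
      · exact singleton_subset_iff.2 (mem_inter.2 ⟨huf, uA⟩))
    (fun Y hY hYA hYc hYp he => by
      have hY2 : Arc2 G fr F A f g Y := ⟨hY, hYA, acl2.1 hYc, hYp 0 (mem_univ _),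
        hYp 1 (mem_univ _)⟩
      have he' : Even Y.card := by
        have e1 : ({0, 1} : Finset (Fin 3)).card = 2 := by decide
        rw [e1] at he
        rw [Nat.even_iff] at he ⊢
        omega
      obtain ⟨n, h3, h4⟩ := hE.val_nat (hYA.trans b.hA)
      refine ⟨n, h3, ?_⟩
      have h5 := hE4 Y hY2 he'
      have h6 := hE.evn Y (hYA.trans b.hA) he' ⟨_, hYp 0 (mem_univ _)⟩ fun k => by
        obtain ⟨v, hv⟩ := b.ne
        exact (mem_sdiff.1 hv).2 (hYA (k ▸ (mem_sdiff.1 hv).1))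
      rw [h3] at h5 h6
      have h7 : 4 ≤ n := by exact_mod_cast h6
      have h8 : n ≠ 4 := fun k => h5 (by rw [k]; norm_num)
      have e2 : Tpl.lf.val {0, 1} = 4 := by decide
      have e3 : ∀ κ, Tpl.lf.nQ {0, 1} κ ≤ 2 := by decide
      have h9 := e3 (TOk.kap G ![f, g] Y)
      rw [Nat.even_iff] at he'
      rw [e2]
      omega)
    (by
      have e1 : ({0, 1} : Finset (Fin 3)).card = 2 := by decide
      rw [e1]
      exact hsm) with ⟨M, m, h1, h2⟩ | ⟨p, c, h1, h2, -, -, h6, h7, h8⟩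
  · left
    obtain ⟨e1, e2⟩ := Tpl.lf_pat _ _ h2
    have fM : f ∈ M := by
      have h3 : (0 : Fin 2) ∈ (univ.filter fun i => ![f, g] i ∈ M) := by
        rw [e2]
        exact mem_singleton_self _
      exact (mem_filter.1 h3).2
    have hex : ∀ d ∈ G.bd A, d ∈ M → d = f := by
      intro d hd hdM
      obtain ⟨i, rfl⟩ := h1.ex d hd hdM
      have h3 : i ∈ ({0} : Finset (Fin 2)) := by
        rw [← e2]
        exact mem_filter.2 ⟨mem_univ _, hdM⟩
      rw [mem_singleton.1 h3]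
      rfl
    have gM : g ∉ M := fun k => hne (hex g hg k).symm
    have uM : u ∉ M := fun k => ufg.1 (hex u hu k)
    refine ⟨M, h1.tsol.half h.fresh h.jm2 (Or.inr ?_), fM, hex, ?_⟩
    · by_cases k : jm = ∅
      · exact Or.inl k
      · obtain ⟨v, hv⟩ := nonempty_iff_ne_empty.2 k
        exact Or.inr fun k2 => disjoint_left.1 hj hv (k2 hv)
    intro Y hY hcl
    have hfY : f ∈ G.bd Y :=
      mem_bd.2 ⟨(mem_bd.1 hf).1, hY.mf, fun k => (mem_bd.1 hf).2.2 (hY.inA k)⟩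
    have hgY : g ∈ G.bd Y :=
      mem_bd.2 ⟨(mem_bd.1 hg).1, hY.mg, fun k => (mem_bd.1 hg).2.2 (hY.inA k)⟩
    have h0 : Y ∩ jm = ∅ := by
      rw [inter_comm, ← disjoint_iff_inter_eq_empty]
      exact hj.mono_right hY.inA
    have hpar := h1.hm.unusedA h.fresh hY.sub hY.inA
    rw [h0, card_empty] at hpar
    have huY : G.pi u ∈ Y := by
      by_contra k
      have hun : (G.bd Y).filter (fun d => d ∉ M) = {g} := by
        ext d
        rw [mem_filter, mem_singleton]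
        constructor
        · rintro ⟨k1, k2⟩
          by_contra k3
          rcases hcl d k1 (fun k4 => k2 (k4 ▸ fM)) k3 with k4 | k4
          · exact k2 k4
          · exact k (k4 ▸ (mem_bd.1 k1).2.1)
        · rintro rfl
          exact ⟨hgY, gM⟩
      rw [hun, card_singleton] at hpar
      omega
    refine (h1.ar Y hY.sub hY.inA hY.acl (fun i _ => ?_) (fun d hd hi => ?_)
      (hsp Y hY.sub hY.inA) (fun i _ hi => absurd (mem_univ i) hi) ?_).2 ⟨Or.inr (by decide),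
        singleton_subset_iff.2 huY⟩
    · fin_cases i
      · exact hY.mf
      · exact hY.mg
    · rcases hcl d hd (fun k => hi 0 (mem_univ _) k.symm) (fun k => hi 1 (mem_univ _) k.symm)
        with k | k
      · exact Or.inl k
      · exact Or.inr (k ▸ drop2.2 ⟨hu, ufg.1, ufg.2⟩)
    · rw [e1]
      decide
  · right
    have c0 := h6 0 (by decide)
    have e0 : p (G.pi f) + c 0 ≤ 0 := h8 0 (mem_univ _)
    refine ⟨_, h1.sgn, fun v => sg1_le _, fun d hd k1 k2 => ?_, sg1_neg (by linarith)⟩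
    rw [h2 d (drop2.2 ⟨hd, k1, k2⟩), sg1_one]

end MG

end RH
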