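import Pool.Agent.Lib.RH.EvT
import Pool.Agent.Lib.RH.TplK

/-! # EV6-blockers: unused exits, meets of certificates, gadgets -/

set_option autoImplicit false

namespace RH

open Finset Classical

namespace MG

variable {V D : Type*} {G : MG V D} {t : V → ℝ} {fr : Finset V} {F : Finset D}
variable {jm X Y U A Z W : Finset V} {y b : V} {a0 u e1 e2 d i j k x : D} {kk : ℝ}
variable {p q f : V → ℝ} {M M1 M2 MX MU : Finset D}

/-- unused boundary darts and star vertices of a union -/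
theorem EK.unus (h : EK G kk t fr F jm) (hf : G.HPot one1 t F W f) (hM : G.HM W M)
    (hXW : X ⊆ W) (hX : G.Adm fr F X) :
    ∑ d ∈ (G.bd X).filter (fun d => d ∉ M), f (G.pi d) + ((X ∩ jm).card : ℝ) ≤ 0 := by
  have hF := h.fresh
  have c := hF.countH hM hXW hX f
  have s1 := sum_symm (G := G) (S := G.uJ F M X) (z := fun _ => 1)
    (fun d hd => (mem_uJ.1 hd).1) (fun d hd => uJ_alH hF hM hXW hd) (fun _ _ => rfl) f
  have s2 := sum_symm (G := G) (S := G.uF F M X) (z := fun _ => 1)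
    (fun d hd => (hM.sub d (mem_uF.1 hd).1).1) (fun d hd => uF_alH hF hM hXW hX hd)
    (fun _ _ => rfl) f
  simp only [one_mul] at s1 s2
  have e1 : ∑ d ∈ G.uJ F M X, (f (G.pi d) + f (G.pi (G.al d))) = 0 := by
    refine sum_eq_zero fun d hd => ?_
    obtain ⟨k1, k2, k3, k4, k5⟩ := mem_uJ.1 hd
    exact hf.jq d k1 (hXW k4) (hXW k5) zero_lt_one k2
  have e2 : ∑ d ∈ G.uF F M X, (f (G.pi d) + f (G.pi (G.al d))) ≤ 0 := by
    refine sum_nonpos fun d hd => ?_
    obtain ⟨k1, k2, k3⟩ := mem_uF.1 hd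
    exact hf.kk d k2 (hXW k3) (hXW (hX.clo d k2 k3))
  have e3 : ∑ v ∈ X ∩ jm, f v = ((X ∩ jm).card : ℝ) := by
    rw [sum_congr rfl fun v hv => hf.tok v (hXW (mem_inter.1 hv).1) (by
      rw [h.tok_fr (hX.sub (mem_inter.1 hv).1), if_pos (mem_inter.1 hv).2]
      norm_num), sum_const, nsmul_eq_mul, mul_one]
  linarith

/-- the common part of two half certificates -/
noncomputable def mt (p q : V → ℝ) (v : V) : ℝ := if sg1 (p v) = sg1 (q v) then sg1 (p v) else 0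

theorem mt_eq {v : V} {c : ℝ} (h1 : sg1 (p v) = c) (h2 : sg1 (q v) = c) : mt p q v = c := by
  unfold mt
  rw [if_pos (h1.trans h2.symm), h1]

theorem mt_ne {v : V} (h : sg1 (p v) ≠ sg1 (q v)) : mt p q v = 0 := if_neg h

theorem sg1_cases (x : ℝ) : sg1 x = -1 ∨ sg1 x = 0 ∨ sg1 x = 1 := by
  rcases lt_trichotomy x 0 with h | h | h
  · exact Or.inl (sg1_neg h)
  · exact Or.inr (Or.inl (by rw [h, sg1_zero]))
  · exact Or.inr (Or.inr (sg1_pos h))

theorem HPot.mt (h1 : G.HPot one1 t F A p) (h2 : G.HPot one1 t F A q) :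
    G.HPot one1 t F A (MG.mt p q) where
  tok := fun v hv ht => mt_eq (by rw [h1.tok v hv ht, sg1_one]) (by rw [h2.tok v hv ht, sg1_one])
  jq := fun d hd k1 k2 k3 k4 => by
    have g1 := sg1_add0 (h1.jq d hd k1 k2 k3 k4)
    have g2 := sg1_add0 (h2.jq d hd k1 k2 k3 k4)
    unfold MG.mt
    by_cases hc : sg1 (p (G.pi d)) = sg1 (q (G.pi d))
    · rw [if_pos hc, if_pos (by linarith)]
      exact g1
    · rw [if_neg hc, if_neg (fun h => hc (by linarith))]
      norm_num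
  kk := fun d hd k1 k2 => by
    have g1 := sg1_addle (h1.kk d hd k1 k2)
    have g2 := sg1_addle (h2.kk d hd k1 k2)
    unfold MG.mt
    rcases sg1_cases (p (G.pi d)) with a1 | a1 | a1 <;>
      rcases sg1_cases (q (G.pi d)) with a2 | a2 | a2 <;>
      rcases sg1_cases (p (G.pi (G.al d))) with a3 | a3 | a3 <;>
      rcases sg1_cases (q (G.pi (G.al d))) with a4 | a4 | a4 <;>
      rw [a1, a3] at g1 <;> rw [a2, a4] at g2 <;> rw [a1, a2, a3, a4] <;>
      first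
        | (exfalso; linarith)
        | norm_num

namespace EvX

variable (s : EvX G t fr F jm y b a0 u e1 e2 X)
include s

/-- gluing when the outer potential is 1 at all ends of exits of `X` -/
theorem no_glueF (h : X6 G t fr F jm) (hf : G.HPot one1 t F (G.vs \ NN X y b) f)
    (hf1 : ∀ x ∈ G.bd X, x ≠ G.al u → x ≠ G.al e2 → f (G.pi (G.al x)) = 1)
    (h1 : G.GHalf one1 fr F jm (G.vs \ NN X y b) MU) (hM : G.GHalf one1 fr F jm X MX)
    (he : (G.al e2 ∉ MX ∧ (G.al e1 ∈ MU ↔ G.al u ∈ MX)) ∨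
      (G.al e2 ∈ MX ∧ G.al u ∈ MX ∧ G.al e1 ∉ MU))
    (hx : ∀ x ∈ G.bd X, x ≠ G.al u → x ≠ G.al e2 → (G.al x ∈ MU ↔ x ∈ MX)) : False := by
  have hE := h.toEK
  have hMX : ∀ d ∈ MX, d ∈ G.ds ∧ G.pi d ∈ X := hM.hm.sub
  have hl : ∀ Y, G.Adm fr F Y → Y ⊆ G.vs \ NN X y b →
      (∀ d ∈ G.bd Y, d ∉ MU → d ∈ G.bd (G.vs \ NN X y b) ∧ G.pi (G.al d) ∈ fr) →
      ∀ d ∈ G.bd Y, d ∈ MU := by
    intro Y hY hYU hc d hd
    by_contra hn
    have h3 := (hE.link hf h1.hm hYU hY fun x hx hxM => by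
      obtain ⟨g1, g2⟩ := hc x hx hxM
      rw [s.bdU hE, mem_insert] at g1
      rcases g1 with g1 | g1
      · exfalso
        rw [g1, G.al_al e1 s.sp.f1, s.sp.pf] at g2
        exact s.hb g2
      · obtain ⟨z, hz, rfl⟩ := mem_image.1 g1
        rw [mem_erase, mem_erase] at hz
        exact hf1 z hz.2.2 hz.2.1 hz.1).1
    have h4 : d ∈ (G.bd Y).filter fun x => x ∉ MU := mem_filter.2 ⟨hd, hn⟩
    rw [h3] at h4
    exact notMem_empty d h4
  rcases he with ⟨hq, he⟩ | ⟨hq, hu, he⟩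
  · by_cases hu : G.al u ∈ MX
    · have h2 := s.halfN hE hM (dy := u) (db := e1) (Or.inr rfl) (Or.inr (Or.inl rfl))
        (iff_of_true hu rfl) (iff_of_false hq s.sp.ee)
        (iff_of_false (fun h3 => s.sp.au h3.symm) (fun h3 => s.sp.ae1 h3.symm))
      refine h.glueLk (s.hFU hE) h1 (by rw [s.compl hE]; exact h2)
        (s.fit hE (Or.inr rfl) (Or.inr (Or.inl rfl)) hMX (iff_of_true (he.2 hu) rfl) hx) hl
    · have h2 := s.halfN hE hM (dy := a0) (db := G.al a0) (Or.inl rfl) (Or.inl rfl)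
        (iff_of_false hu s.sp.au) (iff_of_false hq s.sp.ae2) (iff_of_true rfl rfl)
      refine h.glueLk (s.hFU hE) h1 (by rw [s.compl hE]; exact h2)
        (s.fit hE (Or.inl rfl) (Or.inl rfl) hMX (iff_of_false (fun h3 => hu (he.1 h3))
          s.sp.ae1) hx) hl
  · have h2 := s.halfN hE hM (dy := u) (db := e2) (Or.inr rfl) (Or.inr (Or.inr rfl))
      (iff_of_true hu rfl) (iff_of_true hq rfl)
      (iff_of_false (fun h3 => s.sp.au h3.symm) (fun h3 => s.sp.ae2 h3.symm))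
    refine h.glueLk (s.hFU hE) h1 (by rw [s.compl hE]; exact h2)
      (s.fit hE (Or.inr rfl) (Or.inr (Or.inr rfl)) hMX (iff_of_false he
        (fun h3 => s.sp.ee h3.symm)) hx) hl

/-- no even 4-set of `X` with the ends of both exits to `y` and `b` -/
theorem noPQ4 (h : EK G 6 t fr F jm) (hb : NoBlk G t fr) (hZ : Z ⊆ X) (he : Even Z.card)
    (h4 : G.val one1 t Z = 4) (hp : G.pi (G.al u) ∈ Z) (hbZ : G.pi (G.al e2) ∈ Z) : False := by
  have hZv := hZ.trans (s.Xv h)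
  have yZ : y ∉ Z := fun h1 => s.yX (hZ h1)
  have bZ : b ∉ Z := fun h1 => s.bX (hZ h1)
  have hcn : 0 < Z.card := card_pos.2 ⟨_, hp⟩
  have hby : b ∉ Z ∪ {y} := by
    rw [mem_union, not_or, mem_singleton]
    exact ⟨bZ, s.sp.yb.symm⟩
  have c2 : (Z ∪ {y} ∪ {b}).card = Z.card + 2 := by
    rw [card_union_of_disjoint (disjoint_singleton_right.2 hby), card_singleton,
      card_union_of_disjoint (disjoint_singleton_right.2 yZ), card_singleton]
  have hyv : Z ∪ {y} ⊆ G.vs := union_subset hZv (singleton_subset_iff.2 s.yv)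
  have hbv : Z ∪ {y} ∪ {b} ⊆ G.vs := union_subset hyv (singleton_subset_iff.2 s.bv)
  have v1 := h.ins2 hZv s.yv yZ (S := {G.al u}) (by
    intro d hd
    rw [mem_singleton] at hd
    rw [hd]
    exact ⟨G.al_mem _ s.sp.u1, hp, by rw [G.al_al _ s.sp.u1, s.sp.pu]⟩)
  rw [card_singleton, h4] at v1
  push_cast at v1
  have v2 := h.ins2 hyv s.bv hby (S := {a0, G.al e2}) (by
    intro d hd
    rw [mem_insert, mem_singleton] at hd
    rcases hd with rfl | rfl
    · exact ⟨s.sp.a1, by rw [s.sp.pa]; exact mem_union_right _ (mem_singleton_self _), s.sp.pb⟩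
    · exact ⟨G.al_mem _ s.sp.g1, mem_union_left _ hbZ, by rw [G.al_al _ s.sp.g1, s.sp.pg]⟩)
  have hne : a0 ≠ G.al e2 := by
    intro h1
    apply s.yX
    rw [← s.sp.pa, h1]
    exact s.mb
  rw [card_pair hne] at v2
  push_cast at v2
  have hev : Even (Z ∪ {y} ∪ {b}).card := by
    rw [c2]
    rw [Nat.even_iff] at *
    omega
  have hnb : G.pi (G.al e1) ∉ Z ∪ {y} ∪ {b} := by
    intro h2
    apply s.nbN
    rw [mem_union, mem_union, mem_singleton, mem_singleton] at h2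
    rcases h2 with (h2 | h2) | h2
    · exact mem_insert_of_mem (mem_insert_of_mem (hZ h2))
    · rw [h2]
      exact mem_insert_of_mem (mem_insert_self _ _)
    · rw [h2]
      exact mem_insert_self _ _
  have hnv : Z ∪ {y} ∪ {b} ≠ G.vs := fun h1 => hnb (by
    rw [h1]
    exact G.pi_mem _ (G.al_mem _ s.sp.f1))
  have v3 := h.evn _ hbv hev ⟨_, mem_union_left _ (mem_union_left _ hp)⟩ hnv
  refine hb _ _ _ _ _ _ s.toRSo _ hbv ?_ ?_ ?_ ?_ hnb ?_ (Or.inr ⟨hev, by linarith⟩)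
  · exact mem_union_left _ (mem_union_right _ (mem_singleton_self _))
  · exact mem_union_right _ (mem_singleton_self _)
  · exact mem_union_left _ (mem_union_left _ hp)
  · exact mem_union_left _ (mem_union_left _ hbZ)
  · rw [c2]
    rw [Nat.even_iff] at he
    omega

/-- no odd 5-set of `X` with the ends of both exits to `y` and `b` -/
theorem noPQ5 (h : EK G 6 t fr F jm) (hb : NoBlk G t fr) (hZ : Z ⊆ X) (ho : Odd Z.card)
    (h4 : G.val one1 t Z = 5) (hp : G.pi (G.al u) ∈ Z) (hbZ : G.pi (G.al e2) ∈ Z) : False := by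
  have hZv := hZ.trans (s.Xv h)
  have yZ : y ∉ Z := fun h1 => s.yX (hZ h1)
  have bZ : b ∉ Z := fun h1 => s.bX (hZ h1)
  have hcn : 1 < Z.card := one_lt_card.2 ⟨_, hp, _, hbZ, s.sp.ue⟩
  have hby : b ∉ Z ∪ {y} := by
    rw [mem_union, not_or, mem_singleton]
    exact ⟨bZ, s.sp.yb.symm⟩
  have c2 : (Z ∪ {y} ∪ {b}).card = Z.card + 2 := by
    rw [card_union_of_disjoint (disjoint_singleton_right.2 hby), card_singleton,
      card_union_of_disjoint (disjoint_singleton_right.2 yZ), card_singleton]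
  have hyv : Z ∪ {y} ⊆ G.vs := union_subset hZv (singleton_subset_iff.2 s.yv)
  have hbv : Z ∪ {y} ∪ {b} ⊆ G.vs := union_subset hyv (singleton_subset_iff.2 s.bv)
  have v1 := h.ins2 hZv s.yv yZ (S := {G.al u}) (by
    intro d hd
    rw [mem_singleton] at hd
    rw [hd]
    exact ⟨G.al_mem _ s.sp.u1, hp, by rw [G.al_al _ s.sp.u1, s.sp.pu]⟩)
  rw [card_singleton, h4] at v1
  push_cast at v1
  have v2 := h.ins2 hyv s.bv hby (S := {a0, G.al e2}) (by
    intro d hd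
    rw [mem_insert, mem_singleton] at hd
    rcases hd with rfl | rfl
    · exact ⟨s.sp.a1, by rw [s.sp.pa]; exact mem_union_right _ (mem_singleton_self _), s.sp.pb⟩
    · exact ⟨G.al_mem _ s.sp.g1, mem_union_left _ hbZ, by rw [G.al_al _ s.sp.g1, s.sp.pg]⟩)
  have hne : a0 ≠ G.al e2 := by
    intro h1
    apply s.yX
    rw [← s.sp.pa, h1]
    exact s.mb
  rw [card_pair hne] at v2
  push_cast at v2
  have hodd : Odd (Z ∪ {y} ∪ {b}).card := by
    rw [c2]
    rw [Nat.odd_iff] at *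
    omega
  have hnb : G.pi (G.al e1) ∉ Z ∪ {y} ∪ {b} := by
    intro h2
    apply s.nbN
    rw [mem_union, mem_union, mem_singleton, mem_singleton] at h2
    rcases h2 with (h2 | h2) | h2
    · exact mem_insert_of_mem (mem_insert_of_mem (hZ h2))
    · rw [h2]
      exact mem_insert_of_mem (mem_insert_self _ _)
    · rw [h2]
      exact mem_insert_self _ _
  have v3 := h.odd _ hbv hodd (by
    rw [c2]
    omega)
  refine hb _ _ _ _ _ _ s.toRSo _ hbv ?_ ?_ ?_ ?_ hnb ?_ (Or.inl ⟨hodd, by linarith⟩)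
  · exact mem_union_left _ (mem_union_right _ (mem_singleton_self _))
  · exact mem_union_right _ (mem_singleton_self _)
  · exact mem_union_left _ (mem_union_left _ hp)
  · exact mem_union_left _ (mem_union_left _ hbZ)
  · rw [c2]
    omega

/-- values of the even subsets of `X` -/
theorem vE (h : EK G 6 t fr F jm) (hZ : Z ⊆ X) (he : Even Z.card) (hn : Z.Nonempty) :
    ∃ n : ℕ, G.val one1 t Z = n ∧ (n = 4 ∨ 6 ≤ n) := by
  obtain ⟨n, h1, h2⟩ := h.val_nat (hZ.trans (s.Xv h))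
  have h3 := h.evn Z (hZ.trans (s.Xv h)) he hn (EK.ne_vs (s.Xv h) s.neX hZ)
  rw [h1] at h3
  have h4 : 4 ≤ n := by exact_mod_cast h3
  rw [Nat.even_iff] at he
  refine ⟨n, h1, ?_⟩
  omega

theorem vO (h : EK G 6 t fr F jm) (hZ : Z ⊆ X) (ho : Odd Z.card) (h1 : Z.card ≠ 1) :
    ∃ n : ℕ, G.val one1 t Z = n ∧ (n = 5 ∨ 7 ≤ n) := by
  obtain ⟨n, h2, h3⟩ := h.val_nat (hZ.trans (s.Xv h))
  have h4 := h.odd Z (hZ.trans (s.Xv h)) ho h1
  rw [h2] at h4
  have h5 : 5 ≤ n := by exact_mod_cast h4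
  rw [Nat.odd_iff] at ho
  refine ⟨n, h2, ?_⟩
  omega

/-- an even set with more than two ends of exits has value at least 6 -/
theorem kap2 (h : EK G 6 t fr F jm) {np : ℕ} {pp : Fin np → D} (hpb : ∀ i, pp i ∈ G.bd X)
    (hpi : Function.Injective pp) (hZ : Z ⊆ X) (he : Even Z.card) (hn : Z.Nonempty)
    (h4 : G.val one1 t Z = 4) : (TOk.kap G pp Z).card ≤ 2 := by
  by_contra hc
  obtain ⟨i, j, k, hi, hj, hk, hij, hik, hjk⟩ := two_lt_card_iff.1 (not_le.1 hc)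
  exact s.ends2 h hZ he hn h4 (hpb i) (hpb j) (hpb k) (fun e => hij (hpi e))
    (fun e => hik (hpi e)) (fun e => hjk (hpi e)) (mem_filter.1 hi).2 (mem_filter.1 hj).2
    (mem_filter.1 hk).2

/-- a template at exits of `X` -/
theorem inT [Infinite V] [Infinite D] (h : X6 G t fr F jm) (hj : ¬ jm ⊆ X) {nv ne np : ℕ}
    {T : Tpl nv ne np} {bE bO : Finset (Fin np) → ℕ} (hreg : T.Reg)
    (hT : T.Tab 0 6 (Tpl.one1S np) bE bO) (hnT : T.nT univ = np) (hnv : nv % 2 = 0)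
    {pp : Fin np → D} (hpb : ∀ i, pp i ∈ G.bd X) (hpi : Function.Injective pp)
    (hE1 : ∀ Z ⊆ X, Even Z.card → Z.Nonempty → ∀ n : ℕ, G.val one1 t Z = n →
      (n = 4 ∨ 6 ≤ n) → bE (TOk.kap G pp Z) ≤ n)
    (hO1 : ∀ Z ⊆ X, Odd Z.card → Z.card ≠ 1 → ∀ n : ℕ, G.val one1 t Z = n →
      (n = 5 ∨ 7 ≤ n) → bO (TOk.kap G pp Z) ≤ n) :
    (∃ MX m, G.GHalf one1 fr F jm X MX ∧ (∀ d ∈ G.bd X, d ∈ MX → ∃ i, pp i = d) ∧
      T.IsPat m (univ.filter fun i => pp i ∈ MX)) ∨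
    ∃ (p : V → ℝ) (c : Fin nv → ℝ), G.HPot one1 t F X p ∧ (∀ d ∈ G.bd X, (∀ i, pp i ≠ d) → p (G.pi d) = 1) ∧
      (∀ i, c (T.a i) + c (T.b i) = 0) ∧ (∀ v, T.tk v ≠ 0 → c v = 1) ∧
      ∀ i, p (G.pi (pp i)) + c (T.pt i) = 0 := by
  have hE := h.toEK
  have hf : TOk.TFact G t X pp 0 6 (Tpl.one1S np) bE bO := by
    refine ⟨fun v hv => ?_, fun Z hZ he hn _ => ?_, fun Z hZ ho h1 _ => ?_, ?_,
      Nat.even_iff.1 s.ev⟩
    · refine mem_filter.2 ⟨mem_univ _, card_le_one.2 fun x hx x' hx' => hpi ?_⟩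
      refine s.inj hE (hpb x) (hpb x') ?_
      rw [mem_singleton.1 (mem_filter.1 hx).2, mem_singleton.1 (mem_filter.1 hx').2]
    · obtain ⟨n, h1, h2⟩ := s.vE hE hZ he hn
      exact ⟨n, h1, hE1 Z hZ he hn n h1 h2⟩
    · obtain ⟨n, h3, h4⟩ := s.vO hE hZ ho h1
      exact ⟨n, h3, hO1 Z hZ ho h1 n h3 h4⟩
    · rw [s.valX hE]
      norm_num
  have hdc := drop_card hpb hpi
  have h6 := s.six
  rcases h.tplG (s.Xv hE) s.neX hreg hT hpb hpi hf
    (by
      have h1 := s.ev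
      rw [Nat.even_iff] at *
      omega) (by
      have h3 : (((G.bd X).filter fun d => ∀ i, pp i ≠ d).card : ℝ) + (np : ℝ) =
          (G.bd X).card := by exact_mod_cast hdc
      have h4 : ((G.bd X).card : ℝ) + ((X ∩ jm).card : ℝ) = 6 := by exact_mod_cast h6
      rw [s.tokX hE, hnT]
      linarith) (Ts := ∅) (Or.inl rfl) (fun v hv => absurd hv (notMem_empty v)) (Or.inl (by
      refine card_lt_card ⟨inter_subset_left, fun h1 => hj fun v hv => ?_⟩
      exact (mem_inter.1 (h1 (h.fresh.jms hv))).2)) with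
    ⟨MX, m, hMX, hm⟩ | ⟨p, c, q1, q2, q3, q4, q5⟩
  · exact Or.inl ⟨MX, m, hMX.half h.fresh h.jm2 (Or.inr (Or.inr hj)), hMX.ex, hm⟩
  · exact Or.inr ⟨p, c, q1, fun d hd hn => q2 d ⟨hd, hn⟩, q3, q4, q5⟩

end EvX

end MG

end RH
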