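import Pool.Agent.Lib.RH.EvS3

/-! # EV6-blockers which contain one star vertex do not exist -/

set_option autoImplicit false

namespace RH

open Finset Classical

namespace MG

variable {V D : Type*} {G : MG V D} {t : V → ℝ} {fr : Finset V} {F : Finset D}
variable {jm X Y U A Z W : Finset V} {y b : V} {a0 u e1 e2 d i j k x m e : D} {kk : ℝ}
variable {p q f : V → ℝ} {M M1 M2 MX MU : Finset D}

/-- the five exits of `X` -/
structure X3 (G : MG V D) (u e2 : D) (X : Finset V) (i j k : D) : Prop where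
  mi : i ∈ G.bd X
  mj : j ∈ G.bd X
  m3 : k ∈ G.bd X
  iu : i ≠ G.al u
  ie : i ≠ G.al e2
  ju : j ≠ G.al u
  je : j ≠ G.al e2
  ku : k ≠ G.al u
  ke : k ≠ G.al e2
  ij : i ≠ j
  ik : i ≠ k
  jk : j ≠ k
  all : ∀ d ∈ G.bd X, d = G.al u ∨ d = G.al e2 ∨ d = i ∨ d = j ∨ d = k

theorem X3.swap (h : X3 G u e2 X i j k) : X3 G u e2 X j i k :=
  ⟨h.mj, h.mi, h.m3, h.ju, h.je, h.iu, h.ie, h.ku, h.ke, h.ij.symm, h.jk, h.ik, fun d hd => by
    rcases h.all d hd with h1 | h1 | h1 | h1 | h1 <;> simp [h1]⟩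

theorem X3.rot (h : X3 G u e2 X i j k) : X3 G u e2 X j k i :=
  ⟨h.mj, h.m3, h.mi, h.ju, h.je, h.ku, h.ke, h.iu, h.ie, h.jk, h.ij.symm, h.ik.symm,
    fun d hd => by
    rcases h.all d hd with h1 | h1 | h1 | h1 | h1 <;> simp [h1]⟩

theorem X3.swap2 (h : X3 G u e2 X i j k) : X3 G u e2 X i k j := h.rot.rot.swap

theorem X3.sum (h : X3 G u e2 X i j k) (hu : G.al u ∈ G.bd X) (he : G.al e2 ∈ G.bd X)
    (hue : G.al u ≠ G.al e2) (g : D → ℝ) :
    ∑ d ∈ G.bd X, g d = g (G.al u) + g (G.al e2) + g i + g j + g k := by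
  have h1 : G.bd X = {G.al u, G.al e2, i, j, k} := by
    ext d
    simp only [mem_insert, mem_singleton]
    constructor
    · exact h.all d
    · rintro (rfl | rfl | rfl | rfl | rfl)
      · exact hu
      · exact he
      · exact h.mi
      · exact h.mj
      · exact h.m3
  rw [h1, sum_insert, sum_insert, sum_insert, sum_insert, sum_singleton]
  · ring
  · rw [mem_singleton]
    exact h.jk
  · simp only [mem_insert, mem_singleton, not_or]
    exact ⟨h.ij, h.ik⟩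
  · simp only [mem_insert, mem_singleton, not_or]
    exact ⟨h.ie.symm, h.je.symm, h.ke.symm⟩
  · simp only [mem_insert, mem_singleton, not_or]
    exact ⟨hue, h.iu.symm, h.ju.symm, h.ku.symm⟩

namespace EvX

variable (s : EvX G t fr F jm y b a0 u e1 e2 X)
include s

theorem ue2 : G.al u ≠ G.al e2 := fun h1 => s.sp.ue (by rw [h1])

/-- port law -/
theorem port3 (h : EK G 6 t fr F jm) (hj : (X ∩ jm).card = 1) (h3 : X3 G u e2 X i j k)
    (hp : G.HPot one1 t F X p) : p (G.pi (G.al u)) + p (G.pi (G.al e2)) + p (G.pi i) +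
      p (G.pi j) + p (G.pi k) + 1 ≤ 0 := by
  have h1 := h.sum_bdS s.adm hp
  rw [h3.sum s.mp s.mq s.ue2 (fun d => p (G.pi d))] at h1
  have h2 : ∑ v ∈ X ∩ jm, p v = 1 := by
    rw [sum_congr rfl fun v hv => hp.tok v (mem_inter.1 hv).1 (by
      rw [h.tok_fr (s.adm.sub (mem_inter.1 hv).1), if_pos (mem_inter.1 hv).2]
      norm_num), sum_const, hj]
    norm_num
  linarith

/-- law of the unused exits -/
theorem law3 (h : EK G 6 t fr F jm) (hj : (X ∩ jm).card = 1) (h3 : X3 G u e2 X i j k)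
    (hp : G.HPot one1 t F X p) (hM : G.GHalf one1 fr F jm X MX) :
    (if G.al u ∈ MX then 0 else p (G.pi (G.al u))) +
      (if G.al e2 ∈ MX then 0 else p (G.pi (G.al e2))) + (if i ∈ MX then 0 else p (G.pi i)) +
      (if j ∈ MX then 0 else p (G.pi j)) + (if k ∈ MX then 0 else p (G.pi k)) + 1 ≤ 0 := by
  have h1 := h.unus hp hM.hm (Subset.refl X) s.adm
  rw [hj, sum_filter, h3.sum s.mp s.mq s.ue2 (fun d => if d ∉ MX then p (G.pi d) else 0)] at h1
  simp only [ite_not] at h1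
  push_cast at h1
  exact h1

/-- **gadget P**: path `(y2, token) - (m) - (e, token)`, `beta(j)`, the exit to `b` killed -/
theorem gP [Infinite V] [Infinite D] (h : X6 G t fr F jm) (hj : ¬ jm ⊆ X)
    (h3 : X3 G u e2 X m e j) :
    (∃ MX, G.GHalf one1 fr F jm X MX ∧ G.al e2 ∉ MX ∧ j ∈ MX ∧
      ((G.al u ∉ MX ∧ m ∉ MX ∧ e ∈ MX) ∨ (G.al u ∈ MX ∧ m ∉ MX ∧ e ∉ MX) ∨
        (G.al u ∈ MX ∧ m ∈ MX ∧ e ∈ MX))) ∨
    ∃ p, G.HPot one1 t F X p ∧ p (G.pi (G.al e2)) = 1 ∧ p (G.pi (G.al u)) = -1 ∧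
      p (G.pi m) = 1 ∧ p (G.pi e) = -1 ∧ p (G.pi j) = -1 := by
  have hE := h.toEK
  obtain ⟨pp, hpp⟩ : ∃ pp : Fin 4 → D, pp = ![G.al u, m, e, j] := ⟨_, rfl⟩
  have p0 : pp 0 = G.al u := by rw [hpp]; rfl
  have p1 : pp 1 = m := by rw [hpp]; rfl
  have p2 : pp 2 = e := by rw [hpp]; rfl
  have p3 : pp 3 = j := by rw [hpp]; rfl
  have hpb : ∀ x, pp x ∈ G.bd X := by
    intro x
    fin_cases x
    · exact p0 ▸ s.mp
    · exact p1 ▸ h3.mi
    · exact p2 ▸ h3.mj
    · exact p3 ▸ h3.m3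
  have hpi : Function.Injective pp := by
    intro x x' hxx
    fin_cases x <;> fin_cases x'
    · rfl
    · exact absurd (p0.symm.trans (hxx.trans p1)) h3.iu.symm
    · exact absurd (p0.symm.trans (hxx.trans p2)) h3.ju.symm
    · exact absurd (p0.symm.trans (hxx.trans p3)) h3.ku.symm
    · exact absurd (p1.symm.trans (hxx.trans p0)) h3.iu
    · rfl
    · exact absurd (p1.symm.trans (hxx.trans p2)) h3.ij
    · exact absurd (p1.symm.trans (hxx.trans p3)) h3.ik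
    · exact absurd (p2.symm.trans (hxx.trans p0)) h3.ju
    · exact absurd (p2.symm.trans (hxx.trans p1)) h3.ij.symm
    · rfl
    · exact absurd (p2.symm.trans (hxx.trans p3)) h3.jk
    · exact absurd (p3.symm.trans (hxx.trans p0)) h3.ku
    · exact absurd (p3.symm.trans (hxx.trans p1)) h3.ik.symm
    · exact absurd (p3.symm.trans (hxx.trans p2)) h3.jk.symm
    · rfl
  rcases s.inT h hj Tpl.evP_reg Tpl.evP_tab (by decide) rfl hpb hpi (fun Z hZ he hn n h1 h2 => by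
      unfold Tpl.e2E
      split_ifs with g1
      · omega
      · rcases h2 with h2 | h2
        · exact absurd (s.kap2 hE hpb hpi hZ he hn (by rw [h1, h2]; norm_num)) g1
        · exact h2) (fun Z hZ ho h1 n h2 h4 => by omega) with
    ⟨MX, mm, hM, hex, hm⟩ | ⟨p, c, q1, q2, q3, q4, q5⟩
  · left
    have hin : ∀ x, pp x ∈ MX ↔ x ∈ (univ.filter fun i => pp i ∈ MX) := fun x => by
      rw [mem_filter]
      exact ⟨fun h1 => ⟨mem_univ _, h1⟩, fun h1 => h1.2⟩
    have t0 := hin 0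
    have t1 := hin 1
    have t2 := hin 2
    have t3 := hin 3
    rw [p0] at t0
    rw [p1] at t1
    rw [p2] at t2
    rw [p3] at t3
    have hq : G.al e2 ∉ MX := fun h1 => by
      obtain ⟨x, hx⟩ := hex _ s.mq h1
      fin_cases x
      · exact s.ue2 (p0.symm.trans hx)
      · exact h3.ie (p1.symm.trans hx)
      · exact h3.je (p2.symm.trans hx)
      · exact h3.ke (p3.symm.trans hx)
    rcases Tpl.evP_pat _ _ hm with h1 | h1 | h1 <;> rw [h1] at t0 t1 t2 t3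
    · exact ⟨MX, hM, hq, t3.2 (by decide), Or.inl ⟨fun g => absurd (t0.1 g) (by decide),
        fun g => absurd (t1.1 g) (by decide), t2.2 (by decide)⟩⟩
    · exact ⟨MX, hM, hq, t3.2 (by decide), Or.inr (Or.inl ⟨t0.2 (by decide),
        fun g => absurd (t1.1 g) (by decide), fun g => absurd (t2.1 g) (by decide)⟩)⟩
    · exact ⟨MX, hM, hq, t3.2 (by decide), Or.inr (Or.inr ⟨t0.2 (by decide),
        t1.2 (by decide), t2.2 (by decide)⟩)⟩
  · right
    have a1 : c 0 + c 1 = 0 := q3 0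
    have c0 : c 0 = 1 := q4 0 (by decide)
    have c2 : c 2 = 1 := q4 2 (by decide)
    have c3 : c 3 = 1 := q4 3 (by decide)
    have r0 : p (G.pi (pp 0)) + c 0 = 0 := q5 0
    have r1 : p (G.pi (pp 1)) + c 1 = 0 := q5 1
    have r2 : p (G.pi (pp 2)) + c 2 = 0 := q5 2
    have r3 : p (G.pi (pp 3)) + c 3 = 0 := q5 3
    rw [p0] at r0
    rw [p1] at r1
    rw [p2] at r2
    rw [p3] at r3
    refine ⟨p, q1, q2 _ s.mq fun x hx => ?_, by linarith, by linarith, by linarith, by linarith⟩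
    fin_cases x
    · exact s.ue2 (p0.symm.trans hx)
    · exact h3.ie (p1.symm.trans hx)
    · exact h3.je (p2.symm.trans hx)
    · exact h3.ke (p3.symm.trans hx)

/-- **gadget Q**: 4-cycle `(b2) - (y2) - (k) - (token) - (b2)`, `beta(i)`, `beta(j)` -/
theorem gQ [Infinite V] [Infinite D] (h : X6 G t fr F jm) (hb : NoBlk G t fr) (hj : ¬ jm ⊆ X)
    (h3 : X3 G u e2 X i j k) :
    (∃ MX, G.GHalf one1 fr F jm X MX ∧ i ∈ MX ∧ j ∈ MX ∧
      ((G.al e2 ∉ MX ∧ G.al u ∉ MX ∧ k ∉ MX) ∨ (G.al e2 ∉ MX ∧ G.al u ∈ MX ∧ k ∈ MX) ∨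
        (G.al e2 ∈ MX ∧ G.al u ∈ MX ∧ k ∉ MX))) ∨
    ∃ p, G.HPot one1 t F X p ∧ p (G.pi (G.al e2)) = 1 ∧ p (G.pi (G.al u)) = -1 ∧
      p (G.pi k) = 1 ∧ p (G.pi i) = -1 ∧ p (G.pi j) = -1 := by
  have hE := h.toEK
  obtain ⟨pp, hpp⟩ : ∃ pp : Fin 5 → D, pp = ![G.al e2, G.al u, k, i, j] := ⟨_, rfl⟩
  have p0 : pp 0 = G.al e2 := by rw [hpp]; rfl
  have p1 : pp 1 = G.al u := by rw [hpp]; rfl
  have p2 : pp 2 = k := by rw [hpp]; rfl
  have p3 : pp 3 = i := by rw [hpp]; rfl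
  have p4 : pp 4 = j := by rw [hpp]; rfl
  have hpb : ∀ x, pp x ∈ G.bd X := by
    intro x
    fin_cases x
    · exact p0 ▸ s.mq
    · exact p1 ▸ s.mp
    · exact p2 ▸ h3.m3
    · exact p3 ▸ h3.mi
    · exact p4 ▸ h3.mj
  have hpi : Function.Injective pp := by
    intro x x' hxx
    fin_cases x <;> fin_cases x'
    · rfl
    · exact absurd (p0.symm.trans (hxx.trans p1)) s.ue2.symm
    · exact absurd (p0.symm.trans (hxx.trans p2)) h3.ke.symm
    · exact absurd (p0.symm.trans (hxx.trans p3)) h3.ie.symm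
    · exact absurd (p0.symm.trans (hxx.trans p4)) h3.je.symm
    · exact absurd (p1.symm.trans (hxx.trans p0)) s.ue2
    · rfl
    · exact absurd (p1.symm.trans (hxx.trans p2)) h3.ku.symm
    · exact absurd (p1.symm.trans (hxx.trans p3)) h3.iu.symm
    · exact absurd (p1.symm.trans (hxx.trans p4)) h3.ju.symm
    · exact absurd (p2.symm.trans (hxx.trans p0)) h3.ke
    · exact absurd (p2.symm.trans (hxx.trans p1)) h3.ku
    · rfl
    · exact absurd (p2.symm.trans (hxx.trans p3)) h3.ik.symm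
    · exact absurd (p2.symm.trans (hxx.trans p4)) h3.jk.symm
    · exact absurd (p3.symm.trans (hxx.trans p0)) h3.ie
    · exact absurd (p3.symm.trans (hxx.trans p1)) h3.iu
    · exact absurd (p3.symm.trans (hxx.trans p2)) h3.ik
    · rfl
    · exact absurd (p3.symm.trans (hxx.trans p4)) h3.ij
    · exact absurd (p4.symm.trans (hxx.trans p0)) h3.je
    · exact absurd (p4.symm.trans (hxx.trans p1)) h3.ju
    · exact absurd (p4.symm.trans (hxx.trans p2)) h3.jk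
    · exact absurd (p4.symm.trans (hxx.trans p3)) h3.ij.symm
    · rfl
  have hk0 : ∀ {Z : Finset V}, 0 ∈ TOk.kap G pp Z → G.pi (G.al e2) ∈ Z := fun hz =>
    p0 ▸ (mem_filter.1 hz).2
  have hk1 : ∀ {Z : Finset V}, 1 ∈ TOk.kap G pp Z → G.pi (G.al u) ∈ Z := fun hz =>
    p1 ▸ (mem_filter.1 hz).2
  rcases s.inT h hj Tpl.evQ_reg Tpl.evQ_tab (by decide) rfl hpb hpi (fun Z hZ he hn n h1 h2 => by
      unfold Tpl.pqE
      split_ifs with g1
      · omega
      · rcases h2 with h2 | h2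
        · exfalso
          have h4 : G.val one1 t Z = 4 := by rw [h1, h2]; norm_num
          refine g1 ⟨s.kap2 hE hpb hpi hZ he hn h4, fun g2 => ?_⟩
          exact s.noPQ4 hE hb hZ he h4 (hk1 g2.2) (hk0 g2.1)
        · exact h2) (fun Z hZ ho h1 n h2 h4 => by
      unfold Tpl.pqO
      split_ifs with g1
      · rcases h4 with h4 | h4
        · exact (s.noPQ5 hE hb hZ ho (by rw [h2, h4]; norm_num) (hk1 g1.2) (hk0 g1.1)).elim
        · exact h4
      · omega) with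
    ⟨MX, mm, hM, hex, hm⟩ | ⟨p, c, q1, q2, q3, q4, q5⟩
  · left
    have hin : ∀ x, pp x ∈ MX ↔ x ∈ (univ.filter fun i => pp i ∈ MX) := fun x => by
      rw [mem_filter]
      exact ⟨fun h1 => ⟨mem_univ _, h1⟩, fun h1 => h1.2⟩
    have t0 := hin 0
    have t1 := hin 1
    have t2 := hin 2
    have t3 := hin 3
    have t4 := hin 4
    rw [p0] at t0
    rw [p1] at t1
    rw [p2] at t2
    rw [p3] at t3
    rw [p4] at t4
    rcases Tpl.evQ_pat _ _ hm with h1 | h1 | h1 <;> rw [h1] at t0 t1 t2 t3 t4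
    · exact ⟨MX, hM, t3.2 (by decide), t4.2 (by decide), Or.inl
        ⟨fun g => absurd (t0.1 g) (by decide), fun g => absurd (t1.1 g) (by decide),
          fun g => absurd (t2.1 g) (by decide)⟩⟩
    · exact ⟨MX, hM, t3.2 (by decide), t4.2 (by decide), Or.inr (Or.inl
        ⟨fun g => absurd (t0.1 g) (by decide), t1.2 (by decide), t2.2 (by decide)⟩)⟩
    · exact ⟨MX, hM, t3.2 (by decide), t4.2 (by decide), Or.inr (Or.inr
        ⟨t0.2 (by decide), t1.2 (by decide), fun g => absurd (t2.1 g) (by decide)⟩)⟩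
  · right
    have a0 : c 0 + c 1 = 0 := q3 0
    have a1 : c 1 + c 2 = 0 := q3 1
    have a2 : c 2 + c 3 = 0 := q3 2
    have c3 : c 3 = 1 := q4 3 (by decide)
    have c4 : c 4 = 1 := q4 4 (by decide)
    have c5 : c 5 = 1 := q4 5 (by decide)
    have r0 : p (G.pi (pp 0)) + c 0 = 0 := q5 0
    have r1 : p (G.pi (pp 1)) + c 1 = 0 := q5 1
    have r2 : p (G.pi (pp 2)) + c 2 = 0 := q5 2
    have r3 : p (G.pi (pp 3)) + c 4 = 0 := q5 3
    have r4 : p (G.pi (pp 4)) + c 5 = 0 := q5 4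
    rw [p0] at r0
    rw [p1] at r1
    rw [p2] at r2
    rw [p3] at r3
    rw [p4] at r4
    exact ⟨p, q1, by linarith, by linarith, by linarith, by linarith, by linarith⟩

/-- lemma B -/
theorem lemB [Infinite V] [Infinite D] (h : X6 G t fr F jm) (hj1 : (X ∩ jm).card = 1)
    (hj : ¬ jm ⊆ X) (h3 : X3 G u e2 X i j k) (hp : G.HPot one1 t F X p)
    (vp : p (G.pi (G.al u)) = 0) (vq : p (G.pi (G.al e2)) = 1) (vi : p (G.pi i) = -1)
    (vj : p (G.pi j) = -1) (vk : p (G.pi k) = 0) : False := by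
  have hE := h.toEK
  have h4 : X3 G u e2 X i k j := h3.swap2
  rcases s.gP h hj h4 with ⟨MX, g1, g2, g3, g4⟩ | ⟨q, g1, g2, g3, g4, g5, g6⟩
  · have g5 := s.law3 hE hj1 h3 hp g1
    rw [if_neg g2, if_pos g3, vp, vq, vi, vk] at g5
    rcases g4 with ⟨k1, k2, k3⟩ | ⟨k1, k2, k3⟩ | ⟨k1, k2, k3⟩
    · rw [if_neg k1, if_neg k2, if_pos k3] at g5
      norm_num at g5
    · rw [if_pos k1, if_neg k2, if_neg k3] at g5
      norm_num at g5
    · rw [if_pos k1, if_pos k2, if_pos k3] at g5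
      norm_num at g5
  · have h5 := s.port3 hE hj1 h3 (hp.mt g1)
    have n1 : sg1 (-1) = -1 := sg1_neg (by norm_num)
    rw [mt_ne (v := G.pi (G.al u)) (by rw [vp, g3, sg1_zero, n1]; norm_num),
      mt_eq (v := G.pi (G.al e2)) (c := 1) (by rw [vq, sg1_one]) (by rw [g2, sg1_one]),
      mt_ne (v := G.pi i) (by rw [vi, g4, sg1_one, n1]; norm_num),
      mt_eq (v := G.pi j) (c := -1) (by rw [vj, n1]) (by rw [g6, n1]),
      mt_ne (v := G.pi k) (by rw [vk, g5, sg1_zero, n1]; norm_num)] at h5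
    norm_num at h5

/-- the certificate of the other child, in two parts -/
def S2 (G : MG V D) (t : V → ℝ) (F : Finset D) (y b : V) (u e1 e2 : D) (X : Finset V) : Prop :=
  ∃ pX pU : V → ℝ, G.HPot one1 t F X pX ∧ G.HPot one1 t F (G.vs \ NN X y b) pU ∧
    pX (G.pi (G.al e2)) = 1 ∧ pX (G.pi (G.al u)) + pU (G.pi (G.al e1)) = 0 ∧
    ∀ x ∈ G.bd X, x ≠ G.al u → x ≠ G.al e2 → pX (G.pi x) + pU (G.pi (G.al x)) = 0

/-- value of `N` with a set of the outer side -/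
theorem bigZ (h : EK G 6 t fr F jm) (hZ : Z ⊆ G.vs \ NN X y b) {S : Finset D}
    (hS : ∀ d ∈ S, d ∈ G.ds ∧ G.pi d ∈ NN X y b ∧ G.pi (G.al d) ∈ Z) :
    G.val one1 t (NN X y b ∪ Z) ≤ 6 + G.val one1 t Z - 2 * (S.card : ℝ) := by
  have h1 := h.wt.submod (s.Nv h) (hZ.trans sdiff_subset)
  have hd1 : Disjoint (NN X y b) Z := disjoint_left.2 fun v hv hz => (mem_sdiff.1 (hZ hz)).2 hv
  rw [disjoint_iff_inter_eq_empty.1 hd1, sdiff_eq_self_of_disjoint hd1,
    sdiff_eq_self_of_disjoint hd1.symm,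
    show G.val one1 t ∅ = 0 by unfold val bd; simp, (s.valN h).1] at h1
  have h2 : S ⊆ G.ed (NN X y b) Z := fun d hd => by
    obtain ⟨h2, h3, h4⟩ := hS d hd
    exact mem_ed.2 ⟨h2, h3, h4⟩
  have h3 : ∑ d ∈ S, one1 d ≤ ∑ d ∈ G.ed (NN X y b) Z, one1 d :=
    sum_le_sum_of_subset_of_nonneg h2 fun d _ _ => zero_le_one
  have h4 : ∑ d ∈ S, (one1 d : ℝ) = S.card := by
    unfold one1
    rw [sum_const, nsmul_eq_mul, mul_one]
  linarith

/-- **outer 6-cycle** `(e) - (i) - (token) - (j) - (k) - (token) - (e)` -/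
theorem outC [Infinite V] [Infinite D] (h : X6 G t fr F jm) (hj1 : (X ∩ jm).card = 1)
    (h3 : X3 G u e2 X i j k) (oij : G.pi (G.al i) ≠ G.pi (G.al j))
    (oik : G.pi (G.al i) ≠ G.pi (G.al k)) (ojk : G.pi (G.al j) ≠ G.pi (G.al k))
    (oi : G.pi (G.al e1) ≠ G.pi (G.al i)) (oj : G.pi (G.al e1) ≠ G.pi (G.al j)) :
    ∃ MU, G.GHalf one1 fr F jm (G.vs \ NN X y b) MU ∧
      ((G.al e1 ∉ MU ∧ G.al i ∉ MU ∧ G.al j ∉ MU ∧ G.al k ∉ MU) ∨
        (G.al e1 ∈ MU ∧ G.al i ∈ MU ∧ G.al j ∉ MU ∧ G.al k ∉ MU) ∨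
        (G.al e1 ∉ MU ∧ G.al i ∉ MU ∧ G.al j ∈ MU ∧ G.al k ∈ MU) ∨
        (G.al e1 ∈ MU ∧ G.al i ∉ MU ∧ G.al j ∈ MU ∧ G.al k ∉ MU) ∨
        (G.al e1 ∉ MU ∧ G.al i ∈ MU ∧ G.al j ∉ MU ∧ G.al k ∈ MU)) := by
  have hE := h.toEK
  have hXN : X ⊆ NN X y b := fun v hv => mem_insert_of_mem (mem_insert_of_mem hv)
  have hUX : ∀ v ∈ G.vs \ NN X y b, v ∉ X := fun v hv hvX => (mem_sdiff.1 hv).2 (hXN hvX)
  have hjU : ¬ jm ⊆ G.vs \ NN X y b := by
    intro h1
    obtain ⟨v, hv⟩ := card_pos.1 (show 0 < (X ∩ jm).card by omega)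
    obtain ⟨h2, h4⟩ := mem_inter.1 hv
    exact hUX v (h1 h4) h2
  have mi := mem_bd.1 h3.mi
  have mj := mem_bd.1 h3.mj
  have mk := mem_bd.1 h3.m3
  have bm : ∀ x ∈ G.bd X, x ≠ G.al u → x ≠ G.al e2 → G.al x ∈ G.bd (G.vs \ NN X y b) := by
    intro x hx1 hx2 hx3
    rw [s.bdU hE]
    refine mem_insert_of_mem (mem_image_of_mem _ (mem_erase.2 ⟨hx3, mem_erase.2 ⟨hx2, hx1⟩⟩))
  have bI := bm _ h3.mi h3.iu h3.ie
  have bJ := bm _ h3.mj h3.ju h3.je
  have bK := bm _ h3.m3 h3.ku h3.ke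
  have bE : G.al e1 ∈ G.bd (G.vs \ NN X y b) := by
    rw [s.bdU hE]
    exact mem_insert_self _ _
  obtain ⟨pp, hpp⟩ : ∃ pp : Fin 4 → D, pp = ![G.al e1, G.al i, G.al j, G.al k] := ⟨_, rfl⟩
  have p0 : pp 0 = G.al e1 := by rw [hpp]; rfl
  have p1 : pp 1 = G.al i := by rw [hpp]; rfl
  have p2 : pp 2 = G.al j := by rw [hpp]; rfl
  have p3 : pp 3 = G.al k := by rw [hpp]; rfl
  have hpb : ∀ x, pp x ∈ G.bd (G.vs \ NN X y b) := by
    intro x
    fin_cases x
    · exact p0 ▸ bE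
    · exact p1 ▸ bI
    · exact p2 ▸ bJ
    · exact p3 ▸ bK
  have ae : ∀ x ∈ G.bd X, G.al e1 ≠ G.al x := by
    intro x hx h1
    have h2 : e1 = x := by
      rw [← G.al_al _ s.sp.f1, h1, G.al_al _ (mem_bd.1 hx).1]
    apply s.bX
    rw [← s.sp.pf, h2]
    exact (mem_bd.1 hx).2.1
  have hpi : Function.Injective pp := by
    intro x x' hxx
    fin_cases x <;> fin_cases x'
    · rfl
    · exact absurd (p0.symm.trans (hxx.trans p1)) (ae _ h3.mi)
    · exact absurd (p0.symm.trans (hxx.trans p2)) (ae _ h3.mj)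
    · exact absurd (p0.symm.trans (hxx.trans p3)) (ae _ h3.m3)
    · exact absurd (p1.symm.trans (hxx.trans p0)) (ae _ h3.mi).symm
    · rfl
    · exact absurd (p1.symm.trans (hxx.trans p2)) (fun g => oij (by rw [g]))
    · exact absurd (p1.symm.trans (hxx.trans p3)) (fun g => oik (by rw [g]))
    · exact absurd (p2.symm.trans (hxx.trans p0)) (ae _ h3.mj).symm
    · exact absurd (p2.symm.trans (hxx.trans p1)) (fun g => oij (by rw [g]))
    · rfl
    · exact absurd (p2.symm.trans (hxx.trans p3)) (fun g => ojk (by rw [g]))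
    · exact absurd (p3.symm.trans (hxx.trans p0)) (ae _ h3.m3).symm
    · exact absurd (p3.symm.trans (hxx.trans p1)) (fun g => oik (by rw [g]))
    · exact absurd (p3.symm.trans (hxx.trans p2)) (fun g => ojk (by rw [g]))
    · rfl
  have hS4 : ({e1, i, j, k} : Finset D).card = 4 := by
    have n1 : ∀ x ∈ G.bd X, e1 ≠ x := fun x hx g => ae x hx (by rw [g])
    rw [card_insert_of_notMem, card_insert_of_notMem, card_pair h3.jk]
    · rw [mem_insert, mem_singleton, not_or]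
      exact ⟨h3.ij, h3.ik⟩
    · rw [mem_insert, mem_insert, mem_singleton, not_or, not_or]
      exact ⟨n1 _ h3.mi, n1 _ h3.mj, n1 _ h3.m3⟩
  have hall : ∀ Z ⊆ G.vs \ NN X y b, (TOk.kap G pp Z).card = 4 →
      G.val one1 t (NN X y b ∪ Z) ≤ 6 + G.val one1 t Z - 8 := by
    intro Z hZ hc
    have h1 : TOk.kap G pp Z = univ := by
      rw [← card_eq_iff_eq_univ, hc]
      rfl
    have h2 : ∀ x, G.pi (pp x) ∈ Z := fun x => by
      have h4 : x ∈ TOk.kap G pp Z := by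
        rw [h1]
        exact mem_univ _
      exact (mem_filter.1 h4).2
    have h4 := s.bigZ hE hZ (S := {e1, i, j, k}) (by
      intro d hd
      rw [mem_insert, mem_insert, mem_insert, mem_singleton] at hd
      rcases hd with rfl | rfl | rfl | rfl
      · exact ⟨s.sp.f1, by rw [s.sp.pf]; exact mem_insert_self _ _, p0 ▸ h2 0⟩
      · exact ⟨mi.1, hXN mi.2.1, p1 ▸ h2 1⟩
      · exact ⟨mj.1, hXN mj.2.1, p2 ▸ h2 2⟩
      · exact ⟨mk.1, hXN mk.2.1, p3 ▸ h2 3⟩)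
    rw [hS4] at h4
    push_cast at h4
    linarith
  have hdj : ∀ Z ⊆ G.vs \ NN X y b, (NN X y b ∪ Z).card = X.card + 2 + Z.card := by
    intro Z hZ
    rw [card_union_of_disjoint (disjoint_left.2 fun v hv hz => (mem_sdiff.1 (hZ hz)).2 hv),
      s.cardN]
  have hval : G.val one1 t (G.vs \ NN X y b) = 8 := by
    rw [(s.valN hE).2.1, hj1]
    norm_num
  have hf : TOk.TFact G t (G.vs \ NN X y b) pp 0 8 Tpl.s03 Tpl.a4E Tpl.a4O := by
    refine ⟨fun v hv => ?_, fun Z hZ he hn hne => ?_, fun Z hZ ho h1 hne => ?_, ?_,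
      Nat.even_iff.1 (s.evU hE)⟩
    · refine mem_filter.2 ⟨mem_univ _, ?_⟩
      have hm : ∀ x, x ∈ TOk.kap G pp {v} ↔ G.pi (pp x) = v := fun x => by
        unfold TOk.kap
        rw [mem_filter, mem_singleton]
        exact ⟨fun g => g.2, fun g => ⟨mem_univ _, g⟩⟩
      have m0 := hm 0
      have m1 := hm 1
      have m2 := hm 2
      have m3 := hm 3
      rw [p0] at m0
      rw [p1] at m1
      rw [p2] at m2
      rw [p3] at m3
      by_cases h03 : G.pi (G.al e1) = v ∧ G.pi (G.al k) = v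
      · right
        ext x
        fin_cases x
        · exact iff_of_true (m0.2 h03.1) (by decide)
        · exact iff_of_false (fun g => oi (h03.1.trans (m1.1 g).symm)) (by decide)
        · exact iff_of_false (fun g => oj (h03.1.trans (m2.1 g).symm)) (by decide)
        · exact iff_of_true (m3.2 h03.2) (by decide)
      · left
        refine card_le_one.2 fun x hx x' hx' => ?_
        fin_cases x <;> fin_cases x'
        · rfl
        · exact absurd ((m0.1 hx).trans (m1.1 hx').symm) oi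
        · exact absurd ((m0.1 hx).trans (m2.1 hx').symm) oj
        · exact absurd ⟨m0.1 hx, m3.1 hx'⟩ h03
        · exact absurd ((m0.1 hx').trans (m1.1 hx).symm) oi
        · rfl
        · exact absurd ((m1.1 hx).trans (m2.1 hx').symm) oij
        · exact absurd ((m1.1 hx).trans (m3.1 hx').symm) oik
        · exact absurd ((m0.1 hx').trans (m2.1 hx).symm) oj
        · exact absurd ((m1.1 hx').trans (m2.1 hx).symm) oij
        · rfl
        · exact absurd ((m2.1 hx).trans (m3.1 hx').symm) ojk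
        · exact absurd ⟨m0.1 hx', m3.1 hx⟩ h03
        · exact absurd ((m1.1 hx').trans (m3.1 hx).symm) oik
        · exact absurd ((m2.1 hx').trans (m3.1 hx).symm) ojk
        · rfl
    · obtain ⟨n, h1, h2⟩ := hE.natE (hZ.trans sdiff_subset) he hn
        (EK.ne_vs sdiff_subset s.neU hZ)
      refine ⟨n, h1, ?_⟩
      unfold Tpl.a4E
      split_ifs with g1
      · have g2 := hall Z hZ g1
        have g3 := hE.evn (NN X y b ∪ Z) (union_subset (s.Nv hE) (hZ.trans sdiff_subset)) (by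
          rw [hdj Z hZ]
          have := s.ev
          rw [Nat.even_iff] at *
          omega) ⟨y, mem_union_left _ (mem_insert_of_mem (mem_insert_self _ _))⟩ (by
          intro g4
          apply hne
          refine Subset.antisymm hZ fun v hv => ?_
          have g5 := (mem_sdiff.1 hv).1
          rw [← g4, mem_union] at g5
          rcases g5 with g5 | g5
          · exact absurd g5 (mem_sdiff.1 hv).2
          · exact g5)
        rw [h1] at g2
        have g6 : (6 : ℝ) ≤ (n : ℝ) := by linarith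
        exact_mod_cast g6
      · exact h2
    · obtain ⟨n, h2, h4⟩ := hE.natO (hZ.trans sdiff_subset) ho h1
      refine ⟨n, h2, ?_⟩
      unfold Tpl.a4O
      split_ifs with g1
      · have g2 := hall Z hZ g1
        have g3 := hE.odd (NN X y b ∪ Z) (union_subset (s.Nv hE) (hZ.trans sdiff_subset)) (by
          rw [hdj Z hZ]
          have := s.ev
          rw [Nat.even_iff] at *
          rw [Nat.odd_iff] at *
          omega) (by
          rw [hdj Z hZ]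
          omega)
        rw [h2] at g2
        have g6 : (7 : ℝ) ≤ (n : ℝ) := by linarith
        exact_mod_cast g6
      · exact h4
    · rw [hval]
      norm_num
  have hdc := drop_card hpb hpi
  have hbc : (G.bd (G.vs \ NN X y b)).card = 4 := by
    have h1 := (s.valN hE).2.2.2
    rw [hj1] at h1
    have h2 : ((G.bd (G.vs \ NN X y b)).card : ℝ) = 4 := by
      rw [h1]
      norm_num
    exact_mod_cast h2
  rcases h.tplG sdiff_subset s.neU Tpl.evC_reg Tpl.evC_tab hpb hpi hf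
    (by
      have h1 := s.evU hE
      rw [Nat.even_iff] at *
      omega) (by
      have h4 : ((G.bd (G.vs \ NN X y b)).filter fun d => ∀ i, pp i ≠ d).card = 0 := by omega
      rw [h4, (s.valN hE).2.2.1, hj1]
      have h5 : Tpl.evC.nT univ = 2 := by decide
      rw [h5]
      norm_num) (Ts := ∅) (Or.inl rfl) (fun v hv => absurd hv (notMem_empty v)) (Or.inl (by
      refine card_lt_card ⟨inter_subset_left, fun h1 => ?_⟩
      have h2 := s.m2
      exact hUX _ (mem_inter.1 (h1 (s.adm.sub h2))).2 h2)) with ⟨MU, m, hMU, hm⟩ | ⟨p, c, -, -, h5, h6, -⟩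
  · refine ⟨MU, hMU.half h.fresh h.jm2 (Or.inr (Or.inr hjU)), ?_⟩
    have hin : ∀ x, pp x ∈ MU ↔ x ∈ (univ.filter fun i => pp i ∈ MU) := fun x => by
      rw [mem_filter]
      exact ⟨fun h1 => ⟨mem_univ _, h1⟩, fun h1 => h1.2⟩
    have t0 := hin 0
    have t1 := hin 1
    have t2 := hin 2
    have t3 := hin 3
    rw [p0] at t0
    rw [p1] at t1
    rw [p2] at t2
    rw [p3] at t3
    rcases Tpl.evC_pat _ _ hm with h1 | h1 | h1 | h1 | h1 <;> rw [h1] at t0 t1 t2 t3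
    · exact Or.inl ⟨fun g => absurd (t0.1 g) (by decide), fun g => absurd (t1.1 g) (by decide),
        fun g => absurd (t2.1 g) (by decide), fun g => absurd (t3.1 g) (by decide)⟩
    · exact Or.inr (Or.inl ⟨t0.2 (by decide), t1.2 (by decide),
        fun g => absurd (t2.1 g) (by decide), fun g => absurd (t3.1 g) (by decide)⟩)
    · exact Or.inr (Or.inr (Or.inl ⟨fun g => absurd (t0.1 g) (by decide),
        fun g => absurd (t1.1 g) (by decide), t2.2 (by decide), t3.2 (by decide)⟩))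
    · exact Or.inr (Or.inr (Or.inr (Or.inl ⟨t0.2 (by decide),
        fun g => absurd (t1.1 g) (by decide), t2.2 (by decide),
        fun g => absurd (t3.1 g) (by decide)⟩)))
    · exact Or.inr (Or.inr (Or.inr (Or.inr ⟨fun g => absurd (t0.1 g) (by decide),
        t1.2 (by decide), fun g => absurd (t2.1 g) (by decide), t3.2 (by decide)⟩)))
  · exact (Tpl.evC_noC c h5 h6).elim

/-- inner pattern `{y2, j}` -/
theorem inP [Infinite V] [Infinite D] (h : X6 G t fr F jm) (hj1 : (X ∩ jm).card = 1)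
    (hj : ¬ jm ⊆ X) (h3 : X3 G u e2 X m e j) (hp : G.HPot one1 t F X p)
    (vq : p (G.pi (G.al e2)) = 1) (vp : 0 ≤ p (G.pi (G.al u))) (vm : p (G.pi m) = -1)
    (noK : ∀ q, G.HPot one1 t F X q → q (G.pi (G.al e2)) = 1 → q (G.pi (G.al u)) = -1 →
      q (G.pi m) = 1 → q (G.pi e) = -1 → q (G.pi j) = -1 → False) :
    ∃ MX, G.GHalf one1 fr F jm X MX ∧ G.al e2 ∉ MX ∧ G.al u ∈ MX ∧ j ∈ MX ∧ m ∉ MX ∧
      e ∉ MX := by
  rcases s.gP h hj h3 with ⟨MX, g1, g2, g3, g4⟩ | ⟨q, g1, g2, g3, g4, g5, g6⟩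
  · have g5 := s.law3 h.toEK hj1 h3 hp g1
    rw [if_neg g2, if_pos g3, vq, vm] at g5
    rcases g4 with ⟨k1, k2, k3⟩ | ⟨k1, k2, k3⟩ | ⟨k1, k2, k3⟩
    · rw [if_neg k1, if_neg k2, if_pos k3] at g5
      linarith
    · exact ⟨MX, g1, g2, k1, g3, k2, k3⟩
    · rw [if_pos k1, if_pos k2, if_pos k3] at g5
      norm_num at g5
  · exact (noK q g1 g2 g3 g4 g5 g6).elim

/-- inner pattern `{y2, b2, i, j}` -/
theorem inQ [Infinite V] [Infinite D] (h : X6 G t fr F jm) (hb : NoBlk G t fr)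
    (hj1 : (X ∩ jm).card = 1)
    (hj : ¬ jm ⊆ X) (h3 : X3 G u e2 X i j k) (hp : G.HPot one1 t F X p)
    (vq : p (G.pi (G.al e2)) = 1) (vp : 0 ≤ p (G.pi (G.al u))) (vk : p (G.pi k) = -1)
    (noK : ∀ q, G.HPot one1 t F X q → q (G.pi (G.al e2)) = 1 → q (G.pi (G.al u)) = -1 →
      q (G.pi k) = 1 → q (G.pi i) = -1 → q (G.pi j) = -1 → False) :
    ∃ MX, G.GHalf one1 fr F jm X MX ∧ G.al e2 ∈ MX ∧ G.al u ∈ MX ∧ i ∈ MX ∧ j ∈ MX ∧
      k ∉ MX := by
  rcases s.gQ h hb hj h3 with ⟨MX, g1, g2, g3, g4⟩ | ⟨q, g1, g2, g3, g4, g5, g6⟩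
  · have g5 := s.law3 h.toEK hj1 h3 hp g1
    rw [if_pos g2, if_pos g3, vq, vk] at g5
    rcases g4 with ⟨k1, k2, k3⟩ | ⟨k1, k2, k3⟩ | ⟨k1, k2, k3⟩
    · rw [if_neg k1, if_neg k2, if_neg k3] at g5
      linarith
    · rw [if_neg k1, if_pos k2, if_pos k3] at g5
      norm_num at g5
    · exact ⟨MX, g1, k1, k2, g2, g3, k3⟩
  · exact (noK q g1 g2 g3 g4 g5 g6).elim

/-- lemma K -/
theorem lemK [Infinite V] [Infinite D] (h : X6 G t fr F jm) (hj1 : (X ∩ jm).card = 1)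
    (hj : ¬ jm ⊆ X) (h3 : X3 G u e2 X i j k) (hp : G.HPot one1 t F X p)
    (vq : p (G.pi (G.al e2)) = 1) (vp : p (G.pi (G.al u)) = 0 ∨ p (G.pi (G.al u)) = 1)
    (vi : p (G.pi i) = -1) (vj : p (G.pi j) = -1) (vk : p (G.pi k) = -1)
    (hq : G.HPot one1 t F X q) (wq : q (G.pi (G.al e2)) = 1) (wp : q (G.pi (G.al u)) = -1)
    (wk : q (G.pi k) = 1) (wi : q (G.pi i) = -1) (wj : q (G.pi j) = -1) : False := by
  have n1 : sg1 (-1) = -1 := sg1_neg (by norm_num)
  refine s.lemB h hj1 hj h3 (hp.mt hq) (mt_ne ?_) (mt_eq (c := 1) ?_ ?_) (mt_eq (c := -1) ?_ ?_)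
    (mt_eq (c := -1) ?_ ?_) (mt_ne ?_)
  · rw [wp, n1]
    rcases vp with vp | vp <;> rw [vp]
    · rw [sg1_zero]
      norm_num
    · rw [sg1_one]
      norm_num
  · rw [vq, sg1_one]
  · rw [wq, sg1_one]
  · rw [vi, n1]
  · rw [wi, n1]
  · rw [vj, n1]
  · rw [wj, n1]
  · rw [vk, wk, n1, sg1_one]
    norm_num

/-- the last step of `noEv1` -/
theorem fin1 [Infinite V] [Infinite D] (h : X6 G t fr F jm) (hb : NoBlk G t fr)
    (hj1 : (X ∩ jm).card = 1) (hj : ¬ jm ⊆ X) (h3 : X3 G u e2 X i j k)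
    (hp : G.HPot one1 t F X p) (hf : G.HPot one1 t F (G.vs \ NN X y b) f)
    (vq : p (G.pi (G.al e2)) = 1) (vp : p (G.pi (G.al u)) = 0 ∨ p (G.pi (G.al u)) = 1)
    (vi : p (G.pi i) = -1) (vj : p (G.pi j) = -1) (vk : p (G.pi k) = -1)
    (wi : f (G.pi (G.al i)) = 1) (wj : f (G.pi (G.al j)) = 1) (wk : f (G.pi (G.al k)) = 1)
    (oi : G.pi (G.al e1) ≠ G.pi (G.al i)) (oj : G.pi (G.al e1) ≠ G.pi (G.al j)) : False := by
  have hE := h.toEK
  have vp0 : 0 ≤ p (G.pi (G.al u)) := by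
    rcases vp with g | g <;> rw [g]
    norm_num
  have kK := fun (q : V → ℝ) hq wq wp wk wi wj => s.lemK (q := q) h hj1 hj h3 hp vq vp vi vj vk
    hq wq wp wk wi wj
  have kI := fun (q : V → ℝ) hq wq wp wk wi wj => s.lemK (q := q) h hj1 hj h3.rot hp vq vp vj vk vi
    hq wq wp wk wi wj
  have kJ := fun (q : V → ℝ) hq wq wp wk wi wj => s.lemK (q := q) h hj1 hj h3.swap2 hp vq vp vi vk
    vj hq wq wp wk wi wj
  have hf1 : ∀ x ∈ G.bd X, x ≠ G.al u → x ≠ G.al e2 → f (G.pi (G.al x)) = 1 := by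
    intro x hx g1 g2
    rcases h3.all x hx with g | g | g | g | g
    · exact absurd g g1
    · exact absurd g g2
    · rw [g]
      exact wi
    · rw [g]
      exact wj
    · rw [g]
      exact wk
  have hxx : ∀ {MU MX : Finset D}, (G.al i ∈ MU ↔ i ∈ MX) → (G.al j ∈ MU ↔ j ∈ MX) →
      (G.al k ∈ MU ↔ k ∈ MX) → ∀ x ∈ G.bd X, x ≠ G.al u → x ≠ G.al e2 →
      (G.al x ∈ MU ↔ x ∈ MX) := by
    intro MU MX g3 g4 g5 x hx g1 g2
    rcases h3.all x hx with g | g | g | g | g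
    · exact absurd g g1
    · exact absurd g g2
    · rw [g]
      exact g3
    · rw [g]
      exact g4
    · rw [g]
      exact g5
  have oij := s.disj hE hb h3.mi h3.mj h3.iu h3.ie h3.ju h3.je h3.ij
  have oik := s.disj hE hb h3.mi h3.m3 h3.iu h3.ie h3.ku h3.ke h3.ik
  have ojk := s.disj hE hb h3.mj h3.m3 h3.ju h3.je h3.ku h3.ke h3.jk
  obtain ⟨MU, hU, hc⟩ := s.outC h hj1 h3 oij oik ojk oi oj
  rcases hc with ⟨g0, g1, g2, g3⟩ | ⟨g0, g1, g2, g3⟩ | ⟨g0, g1, g2, g3⟩ | ⟨g0, g1, g2, g3⟩ |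
    ⟨g0, g1, g2, g3⟩
  · -- no exit
    rcases h.kill (A := X) (Ts := ∅) (s.Xv hE) s.neX s.ev (s.valX hE) (Or.inl rfl)
      (fun v hv => absurd hv (notMem_empty v)) with ⟨M, hM⟩ | ⟨q, h1, h2⟩
    · have h1 : G.GHalf one1 fr F jm X M := hM.half h.fresh h.jm2 (Or.inr (Or.inr hj))
      exact s.no_glueF h hf hf1 hU h1 (Or.inl ⟨hM.none s.mq, iff_of_false g0 (hM.none s.mp)⟩)
        (hxx (iff_of_false g1 (hM.none h3.mi)) (iff_of_false g2 (hM.none h3.mj))
          (iff_of_false g3 (hM.none h3.m3)))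
    · have h4 := s.port3 hE hj1 h3 h1
      rw [h2 _ s.mp, h2 _ s.mq, h2 _ h3.mi, h2 _ h3.mj, h2 _ h3.m3] at h4
      norm_num at h4
  · -- e, i
    obtain ⟨MX, m1, m2, m3, m4, m5, m6⟩ := s.inP h hj1 hj h3.rot hp vq vp0 vj
      (fun q hq wq wp wk wi wj => kJ q hq wq wp wk wj wi)
    exact s.no_glueF h hf hf1 hU m1 (Or.inl ⟨m2, iff_of_true g0 m3⟩)
      (hxx (iff_of_true g1 m4) (iff_of_false g2 m5) (iff_of_false g3 m6))
  · -- j, k
    obtain ⟨MX, m1, m2, m3, m4, m5, m6⟩ := s.inQ h hb hj1 hj h3.rot hp vq vp0 vi kI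
    exact s.no_glueF h hf hf1 hU m1 (Or.inr ⟨m2, m3, g0⟩)
      (hxx (iff_of_false g1 m6) (iff_of_true g2 m4) (iff_of_true g3 m5))
  · -- e, j
    obtain ⟨MX, m1, m2, m3, m4, m5, m6⟩ := s.inP h hj1 hj h3.swap2 hp vq vp0 vi
      (fun q hq wq wp wk wi wj => kI q hq wq wp wk wj wi)
    exact s.no_glueF h hf hf1 hU m1 (Or.inl ⟨m2, iff_of_true g0 m3⟩)
      (hxx (iff_of_false g1 m5) (iff_of_true g2 m4) (iff_of_false g3 m6))
  · -- i, k
    obtain ⟨MX, m1, m2, m3, m4, m5, m6⟩ := s.inQ h hb hj1 hj h3.swap2 hp vq vp0 vj kJ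
    exact s.no_glueF h hf hf1 hU m1 (Or.inr ⟨m2, m3, g0⟩)
      (hxx (iff_of_true g1 m4) (iff_of_false g2 m6) (iff_of_true g3 m5))

/-- **no EV6-blocker with exactly one star vertex**, if the other child has a certificate -/
theorem noEv1 [Infinite V] [Infinite D] (h : X6 G t fr F jm) (hb : NoBlk G t fr)
    (hj1 : (X ∩ jm).card = 1) (hS : S2 G t F y b u e1 e2 X) : False := by
  have hE := h.toEK
  have hj : ¬ jm ⊆ X := fun h1 => by
    rw [inter_eq_right.2 h1] at hj1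
    rcases h.jm2 with h2 | h2
    · rw [h2, card_empty] at hj1
      omega
    · omega
  obtain ⟨i, j, k, h3⟩ : ∃ i j k, X3 G u e2 X i j k := by
    have h5 : (((G.bd X).erase (G.al u)).erase (G.al e2)).card = 3 := by
      rw [card_erase_of_mem (mem_erase.2 ⟨s.ue2.symm, s.mq⟩), card_erase_of_mem s.mp]
      have := s.six
      omega
    obtain ⟨i, j, k, ij, ik, jk, h6⟩ := card_eq_three.1 h5
    have hm : ∀ x, x = i ∨ x = j ∨ x = k ↔ x ≠ G.al e2 ∧ x ≠ G.al u ∧ x ∈ G.bd X := fun x => by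
      rw [← mem_erase, ← mem_erase, h6, mem_insert, mem_insert, mem_singleton]
    obtain ⟨i1, i2, i3⟩ := (hm i).1 (Or.inl rfl)
    obtain ⟨j1, j2, j3⟩ := (hm j).1 (Or.inr (Or.inl rfl))
    obtain ⟨k1, k2, k3⟩ := (hm k).1 (Or.inr (Or.inr rfl))
    refine ⟨i, j, k, i3, j3, k3, i2, i1, j2, j1, k2, k1, ij, ik, jk, fun d hd => ?_⟩
    by_cases g1 : d = G.al u
    · exact Or.inl g1
    by_cases g2 : d = G.al e2
    · exact Or.inr (Or.inl g2)
    · exact Or.inr (Or.inr ((hm d).2 ⟨g2, g1, hd⟩))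
  obtain ⟨pX0, pU0, g1, g2, g3, g4, g5⟩ := hS
  obtain ⟨pX, hpX⟩ : ∃ pX : V → ℝ, pX = fun v => sg1 (pX0 v) := ⟨_, rfl⟩
  obtain ⟨pU, hpU⟩ : ∃ pU : V → ℝ, pU = fun v => sg1 (pU0 v) := ⟨_, rfl⟩
  have k1 : G.HPot one1 t F X pX := hpX ▸ g1.sgn
  have k2 : G.HPot one1 t F (G.vs \ NN X y b) pU := hpU ▸ g2.sgn
  have k3 : pX (G.pi (G.al e2)) = 1 := by
    rw [hpX]
    show sg1 (pX0 (G.pi (G.al e2))) = 1
    rw [g3, sg1_one]
  have k4 : pX (G.pi (G.al u)) + pU (G.pi (G.al e1)) = 0 := by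
    rw [hpX, hpU]
    exact sg1_add0 g4
  have k5 : ∀ x ∈ G.bd X, x ≠ G.al u → x ≠ G.al e2 → pX (G.pi x) + pU (G.pi (G.al x)) = 0 := by
    intro x hx hx1 hx2
    rw [hpX, hpU]
    exact sg1_add0 (g5 x hx hx1 hx2)
  have k6 : ∀ v, pX v = -1 ∨ pX v = 0 ∨ pX v = 1 := fun v => by
    rw [hpX]
    exact sg1_cases _
  have kp : pX (G.pi (G.al u)) ≠ -1 := by
    intro n1
    have n2 := s.potN hE k1 n1 k3
    rw [← s.compl hE] at n2
    refine h.no_join k2 n2 ?_
    intro d hd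
    have gX : ∀ x ∈ G.bd X, G.pi x ≠ y ∧ G.pi x ≠ b := fun x hx =>
      ⟨fun g7 => s.yX (g7 ▸ (mem_bd.1 hx).2.1), fun g7 => s.bX (g7 ▸ (mem_bd.1 hx).2.1)⟩
    rw [s.bdU hE, mem_insert] at hd
    rcases hd with rfl | hd
    · rw [G.al_al _ s.sp.f1, s.sp.pf, if_neg s.sp.yb.symm, if_pos rfl]
      linarith
    · obtain ⟨x, hx, rfl⟩ := mem_image.1 hd
      rw [mem_erase, mem_erase] at hx
      rw [G.al_al _ (mem_bd.1 hx.2.2).1, if_neg (gX _ hx.2.2).1, if_neg (gX _ hx.2.2).2]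
      have := k5 x hx.2.2 hx.2.1 hx.1
      linarith
  have vp : pX (G.pi (G.al u)) = 0 ∨ pX (G.pi (G.al u)) = 1 := by
    rcases k6 (G.pi (G.al u)) with n | n | n
    · exact absurd n kp
    · exact Or.inl n
    · exact Or.inr n
  have pl := s.port3 hE hj1 h3 k1
  rw [k3] at pl
  have all1 : pX (G.pi i) = -1 ∧ pX (G.pi j) = -1 ∧ pX (G.pi k) = -1 := by
    rcases k6 (G.pi i) with a | a | a <;> rcases k6 (G.pi j) with b' | b' | b' <;>
      rcases k6 (G.pi k) with c | c | c <;> rcases vp with v | v <;> rw [a, b', c, v] at pl <;>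
      first
        | exact ⟨a, b', c⟩
        | (exfalso; linarith)
        | exact (s.lemB h hj1 hj h3 k1 v k3 a b' c).elim
        | exact (s.lemB h hj1 hj h3.swap2 k1 v k3 a c b').elim
        | exact (s.lemB h hj1 hj h3.rot k1 v k3 b' c a).elim
  obtain ⟨vi, vj, vk⟩ := all1
  have wi : pU (G.pi (G.al i)) = 1 := by
    have := k5 i h3.mi h3.iu h3.ie
    linarith
  have wj : pU (G.pi (G.al j)) = 1 := by
    have := k5 j h3.mj h3.ju h3.je
    linarith
  have wk : pU (G.pi (G.al k)) = 1 := by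
    have := k5 k h3.m3 h3.ku h3.ke
    linarith
  have oij := s.disj hE hb h3.mi h3.mj h3.iu h3.ie h3.ju h3.je h3.ij
  have oik := s.disj hE hb h3.mi h3.m3 h3.iu h3.ie h3.ku h3.ke h3.ik
  have ojk := s.disj hE hb h3.mj h3.m3 h3.ju h3.je h3.ku h3.ke h3.jk
  by_cases c1 : G.pi (G.al e1) = G.pi (G.al i)
  · exact s.fin1 h hb hj1 hj h3.rot k1 k2 k3 vp vj vk vi wj wk wi (fun g => oij (c1.symm.trans g))
      (fun g => oik (c1.symm.trans g))
  by_cases c2 : G.pi (G.al e1) = G.pi (G.al j)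
  · exact s.fin1 h hb hj1 hj h3.swap2 k1 k2 k3 vp vi vk vj wi wk wj c1
      (fun g => ojk (c2.symm.trans g))
  · exact s.fin1 h hb hj1 hj h3 k1 k2 k3 vp vi vj vk wi wj wk c1 c2

end EvX

end MG

end RH
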