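import Pool.Agent.Lib.RH.EvS2

/-! # Templates for EV6-blockers: every port on its own vertex -/

set_option autoImplicit false

namespace RH

open Finset

namespace Tpl

/-- path `(0, token) - (1) - (2, token)`, `beta(3)` -/
def evP : Tpl 4 2 4 where
  a := ![0, 1]
  b := ![1, 2]
  pt := ![0, 1, 2, 3]
  tk := ![1, 0, 1, 2]

/-- 4-cycle `(0) - (1) - (2) - (token) - (0)`, `beta(3)`, `beta(4)` -/
def evQ : Tpl 6 4 5 where
  a := ![0, 1, 2, 3]
  b := ![1, 2, 3, 0]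
  pt := ![0, 1, 2, 4, 5]
  tk := ![0, 0, 0, 1, 2, 2]

/-- 6-cycle `(0) - (1) - (token) - (2) - (3) - (token) - (0)` -/
def evC : Tpl 6 6 4 where
  a := ![0, 1, 2, 3, 4, 5]
  b := ![1, 2, 3, 4, 5, 0]
  pt := ![0, 1, 3, 4]
  tk := ![0, 0, 1, 0, 0, 1]

/-- even sets with more than two ends have value 6 -/
def e2E {np : ℕ} (κ : Finset (Fin np)) : ℕ := if κ.card ≤ 2 then 4 else 6

/-- no even 4-set and no odd 5-set with the ends of the ports 0 and 1 -/
def pqE (κ : Finset (Fin 5)) : ℕ := if κ.card ≤ 2 ∧ ¬ (0 ∈ κ ∧ 1 ∈ κ) then 4 else 6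

def pqO (κ : Finset (Fin 5)) : ℕ := if 0 ∈ κ ∧ 1 ∈ κ then 7 else 5

/-- sets with all ends -/
def a4E (κ : Finset (Fin 4)) : ℕ := if κ.card = 4 then 6 else 4

def a4O (κ : Finset (Fin 4)) : ℕ := if κ.card = 4 then 7 else 5

/-- the ends of 0 and 3 may be equal -/
def s03 : Finset (Finset (Fin 4)) := univ.filter fun κ => κ.card ≤ 1 ∨ κ = {0, 3}

theorem evP_reg : evP.Reg := by decide
theorem evQ_reg : evQ.Reg := by decide
theorem evC_reg : evC.Reg := by decide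

theorem evP_tab : evP.Tab 0 6 (one1S 4) e2E (fun _ => 5) where
  t0 := by decide +kernel
  t1 := by decide +kernel
  t2 := by decide +kernel
  t3 := by decide +kernel
  t4 := by decide +kernel

theorem evQ_tab : evQ.Tab 0 6 (one1S 5) pqE pqO where
  t0 := by decide +kernel
  t1 := by decide +kernel
  t2 := by decide +kernel
  t3 := by decide +kernel
  t4 := by decide +kernel

theorem evC_tab : evC.Tab 0 8 s03 a4E a4O where
  t0 := by decide +kernel
  t1 := by decide +kernel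
  t2 := by decide +kernel
  t3 := by decide +kernel
  t4 := by decide +kernel

theorem evP_pat : ∀ m κ, evP.IsPat m κ → κ = {2, 3} ∨ κ = {0, 3} ∨ κ = {0, 1, 2, 3} := by
  decide +kernel

theorem evQ_pat : ∀ m κ, evQ.IsPat m κ → κ = {3, 4} ∨ κ = {1, 2, 3, 4} ∨ κ = {0, 1, 3, 4} := by
  decide +kernel

theorem evC_pat : ∀ m κ, evC.IsPat m κ → κ = ∅ ∨ κ = {0, 1} ∨ κ = {2, 3} ∨ κ = {0, 2} ∨
    κ = {1, 3} := by
  decide +kernel

theorem evC_noC (c : Fin 6 → ℝ) (h : ∀ i, c (evC.a i) + c (evC.b i) = 0)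
    (h1 : ∀ v, evC.tk v ≠ 0 → c v = 1) : False := by
  have a0 : c 0 + c 1 = 0 := h 0
  have a1 : c 1 + c 2 = 0 := h 1
  have a5 : c 5 + c 0 = 0 := h 5
  have b1 : c 2 = 1 := h1 2 (by decide)
  have b2 : c 5 = 1 := h1 5 (by decide)
  linarith

end Tpl

end RH
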