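import Pool.Agent.Lib.RH.Glue2C

/-! Two-cuts (helper42), last part: no even set of value 2 without F-edges in its boundary and with a
boundary edge of weight 1. -/

set_option autoImplicit false

namespace RH

open Finset Classical

namespace MG

variable {V D : Type*}
variable {G G' : MG V D} {z z' : D → ℝ} {t : V → ℝ} {Z Y W T X P : Finset V} {Del : Finset D}
variable {fr fr' : Finset V} {F F' : Finset D} {jm jm' sx B : Finset V} {ω x y : V} {e g : D}
variable {ep : V → ℕ} {m : ℕ} {M M1 M2 : Finset D}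

/-- the boundary is never used by the matching and avoided by the unions -/
theorem avoid_bd (hX : G.Adm fr F X) (hpm : G.IsPM M) (hcl : ∀ d ∈ G.bd X, d ∈ M)
    (hun : ∀ d ∈ G.bd Z, d ∉ M)
    (hN : ∀ d ∈ G.bd Z, ¬ (G.pi d ∈ X ∧ G.pi (G.al d) ∈ X)) :
    Disjoint (X ∩ Z) ((G.bd Z).image G.pi) := by
  rw [disjoint_left]
  intro v hv hvB
  obtain ⟨d, hd, rfl⟩ := mem_image.1 hvB
  have h1 := (mem_inter.1 hv).1
  exact hN d hd ⟨h1, (un_iff hpm hcl (mem_bd.1 hd).1 (hun d hd)).1 h1⟩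

/-- two-cuts, the star is not in `Z` -/
theorem MCS.no_c2_B (h : G.MCS z t fr F jm sx ep 0) (c : G.C2 z t F Z e) (hjZ : ∀ v ∈ Z, v ∉ jm)
    (hsz : 4 ≤ Z.card ∨ (fr ∩ Z).Nonempty) (hsy : 4 ≤ (G.vs \ Z).card ∨ (fr \ Z).Nonempty) :
    False := by
  have hF := h.inst.fresh
  have hw := h.inst.wt
  have hFY := FY_of hF.Fsub hF.Fal c.FZ
  have hsx := h.inst.sx_eq
  obtain ⟨M1, half1, hpos1, hor, hhit1⟩ := h.out1 c hjZ hsz
  have hjY : jm ⊆ G.vs \ Z := fun v hv => mem_sdiff.2 ⟨hF.fsub (hF.jms hv), fun h1 => hjZ v h1 hv⟩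
  have hfin : ∀ {M}, G.IsPM M → (∀ d ∈ M, 0 < z d) →
      (∀ X, G.Adm fr F X → (∀ d ∈ G.bd X, d ∈ M) → Even (X ∩ Z).card ∧
        (Even (X ∩ (G.vs \ Z)).card ∧ ¬ (jm.Nonempty ∧ jm ⊆ X ∩ (G.vs \ Z)))) → False := by
    intro M hM hpos hX
    refine h.finish hM hpos fun X hXa hcl => ?_
    obtain ⟨h1, h2, h3⟩ := hX X hXa hcl
    refine ⟨?_, fun h4 => h3 ⟨h4.1, fun v hv => mem_inter.2 ⟨h4.2 hv, hjY hv⟩⟩⟩
    rw [card_split (Z := Z) (hXa.sub.trans hF.fsub)]
    exact h1.add h2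
  -- crossing darts with two fresh ends
  have hz1 : ∀ d ∈ G.ds, G.pi d ∈ fr → z d = 1 := hF.unit
  rcases hor with hun1 | ⟨g, hg, hge, hzg, heM, hgM, hcr1⟩
  · -- unused
    by_cases hS : ∃ g ∈ G.bd Z, g ≠ e ∧ G.pi e ∈ fr ∧ G.pi (G.al e) ∈ fr ∧ G.pi g ∈ fr ∧
        G.pi (G.al g) ∈ fr
    · obtain ⟨g, hg, hge, f1, f2, f3, f4⟩ := hS
      obtain ⟨g1, g2, g3⟩ := mem_bd.1 hg
      have hzg : z g = 1 := hz1 g g1 f3
      have hother : ∀ d ∈ G.bd Z, G.pi d ∈ fr → d = e ∨ d = g := by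
        intro d hd hp
        by_contra h1
        rw [not_or] at h1
        have h2 := c.rest_le hw hg hge hd h1.1 h1.2
        rw [hzg, hz1 d (mem_bd.1 hd).1 hp] at h2
        norm_num at h2
      have hne : G.pi e ≠ G.pi g := by
        intro h1
        have h2 := (c.one_in hw).2.1 g hg h1.symm hge
        rw [hzg] at h2
        norm_num at h2
      obtain ⟨M2, half2, hpos2, hcr2, hhit2⟩ := h.in0 (jm' := {G.pi e, G.pi g}) (B := ∅) c.hZ c.he
        (by rw [c.hv]; norm_num) c.FZ (card_lt_card (Finset.ssubset_iff_subset_ne.2 ⟨c.hZ,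
          fun h1 => c.eY (by rw [h1]; exact G.pi_mem _ (G.al_mem e c.ed))⟩))
        (by
          intro v hv
          rw [mem_insert, mem_singleton] at hv
          rcases hv with rfl | rfl
          · exact mem_inter.2 ⟨f1, c.eZ⟩
          · exact mem_inter.2 ⟨f3, g2⟩)
        (Or.inr (card_pair hne))
        (by
          intro d hd hp
          right
          rcases hother d hd hp with rfl | rfl
          · exact mem_insert_self _ _
          · exact mem_insert_of_mem (mem_singleton_self _))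
        (by
          intro v hv
          rw [mem_insert, mem_singleton] at hv
          right
          rcases hv with rfl | rfl
          · exact ⟨e, c.e_bd, rfl⟩
          · exact ⟨g, hg, rfl⟩)
        (fun v hv h1 => absurd hv (hjZ v h1))
        (by
          intro X hX hXZ _ hev _ hjX
          by_contra hlt
          have hd1 : ∀ d ∈ G.bd X, G.pi (G.al d) ∉ Z → d = e ∨ d = g := by
            intro d hd h1
            obtain ⟨h2, h3, h4⟩ := mem_bd.1 hd
            exact hother d (mem_bd.2 ⟨h2, hXZ h3, h1⟩) (hX.sub h3)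
          have heX : G.pi e ∈ X := hjX (mem_insert_self _ _)
          have hgX : G.pi g ∈ X := hjX (mem_insert_of_mem (mem_singleton_self _))
          have hd2 : (G.bd X).filter (fun d => G.pi (G.al d) ∉ Z) = {e, g} := by
            ext d
            rw [mem_filter, mem_insert, mem_singleton]
            constructor
            · exact fun h1 => hd1 d h1.1 h1.2
            · rintro (rfl | rfl)
              · exact ⟨mem_bd.2 ⟨c.ed, heX, fun h1 => c.eY (hXZ h1)⟩, c.eY⟩
              · exact ⟨mem_bd.2 ⟨g1, hgX, fun h1 => g3 (hXZ h1)⟩, g3⟩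
          have hd3 : (G.res Z).bd X = (G.bd X).filter fun d => ¬ G.pi (G.al d) ∉ Z := by
            ext d
            rw [mem_filter, mem_bd, mem_bd, not_not]
            constructor
            · rintro ⟨h1, h2, h3⟩
              obtain ⟨h4, h5, h6⟩ := mem_filter.1 h1
              exact ⟨⟨h4, h2, h3⟩, h6⟩
            · rintro ⟨⟨h1, h2, h3⟩, h4⟩
              exact ⟨mem_filter.2 ⟨h1, hXZ h2, h4⟩, h2, h3⟩
          have h1 := card_filter_add_card_filter_not (s := G.bd X) (fun d => G.pi (G.al d) ∉ Z)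
          rw [hd2, ← hd3, card_pair hge.symm] at h1
          have h2 := hF.bd_par hX
          have h3 : (X ∩ jm).card = 0 := by
            rw [card_eq_zero, ← disjoint_iff_inter_eq_empty, disjoint_left]
            exact fun v hv => hjZ v (hXZ hv)
          rw [h3] at h2
          obtain ⟨k, hk⟩ := hev
          have h4 : ((G.res Z).bd X).card = 0 := by omega
          rw [card_eq_zero] at h4
          have h5 : G.bd X = {e, g} := by
            rw [← hd2, eq_comm, filter_eq_self]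
            intro d hd h6
            have h7 : d ∈ (G.res Z).bd X := by
              rw [hd3]
              exact mem_filter.2 ⟨hd, not_not.2 h6⟩
            rw [h4] at h7
            exact notMem_empty d h7
          refine h.no_c2_fresh hX ⟨k, hk⟩ ?_ h5 hge (Or.inr ⟨G.pi (G.al e), mem_sdiff.2
            ⟨f2, fun h6 => c.eY (hXZ h6)⟩⟩)
          rw [disjoint_left]
          exact fun v hv => hjZ v (hXZ hv))
      obtain ⟨hpm, hun⟩ := glue_un c.hZ half1 half2 hun1 hcr2
      refine hfin hpm (fun d hd => (mem_union.1 hd).elim (hpos1 d) (hpos2 d)) ?_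
      intro X hX hcl
      have hu := hit_use (M2 := M2) (B := ∅) (jm' := {G.pi e, G.pi g}) hX c.FZ hcl
        (fun d hd hp => half_in half1 hd hp) (disjoint_empty_right _) hhit2
      have ue := un_iff hpm hcl c.ed (hun e c.e_bd)
      have ug := un_iff hpm hcl g1 (hun g hg)
      have hpar := unused_part hF hpm hX c.FZ hcl hun
      have h0 : ((X ∩ Z) ∩ jm).card = 0 := by
        rw [card_eq_zero, ← disjoint_iff_inter_eq_empty, disjoint_left]
        exact fun v hv => hjZ v (mem_inter.1 hv).2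
      rw [h0] at hpar
      have hN : ∀ d ∈ G.bd Z, ¬ (G.pi d ∈ X ∧ G.pi (G.al d) ∈ X) := by
        have hsub : (G.bd Z).filter (fun d => G.pi d ∈ X ∧ G.pi (G.al d) ∈ X) ⊆ {e, g} := by
          intro d hd
          obtain ⟨h1, h2, h3⟩ := mem_filter.1 hd
          rw [mem_insert, mem_singleton]
          exact hother d h1 (hX.sub h2)
        have hle := card_le_card hsub
        rw [card_pair hge.symm] at hle
        intro d hd hdX
        have h1 : d ∈ (G.bd Z).filter (fun d => G.pi d ∈ X ∧ G.pi (G.al d) ∈ X) :=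
          mem_filter.2 ⟨hd, hdX⟩
        have h2 := card_pos.2 ⟨d, h1⟩
        have h3 := eq_of_subset_of_card_le hsub (by rw [card_pair hge.symm]; omega)
        refine hu.2 ⟨⟨G.pi e, mem_insert_self _ _⟩, ?_⟩
        intro v hv
        rw [mem_insert, mem_singleton] at hv
        have h4 : e ∈ (G.bd Z).filter (fun d => G.pi d ∈ X ∧ G.pi (G.al d) ∈ X) := by
          rw [h3]
          exact mem_insert_self _ _
        have h5 : g ∈ (G.bd Z).filter (fun d => G.pi d ∈ X ∧ G.pi (G.al d) ∈ X) := by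
          rw [h3]
          exact mem_insert_of_mem (mem_singleton_self _)
        rcases hv with rfl | rfl
        · exact mem_inter.2 ⟨(mem_filter.1 h4).2.1, c.eZ⟩
        · exact mem_inter.2 ⟨(mem_filter.1 h5).2.1, g2⟩
      refine ⟨hu.1, out_use (M1 := M1) hX hFY hcl (fun d hd hp => half_out half2 hd hp) ?_ hhit1⟩
      intro d hd h1 h2 h3 h4
      exact absurd ⟨h3, by rw [G.al_al d hd]; exact h1⟩ (hN (G.al d) (mem_bd.2
        ⟨G.al_mem d hd, h4, by rw [G.al_al d hd]; exact h2⟩))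
    · obtain ⟨M2, half2, hpos2, hcr2, hhit2⟩ := h.in0 (jm' := ∅) (B := (G.bd Z).image G.pi) c.hZ
        c.he (by rw [c.hv]; norm_num) c.FZ (card_lt_card (Finset.ssubset_iff_subset_ne.2 ⟨c.hZ,
          fun h1 => c.eY (by rw [h1]; exact G.pi_mem _ (G.al_mem e c.ed))⟩)) (empty_subset _)
        (Or.inl rfl) (fun d hd _ => Or.inl (mem_image.2 ⟨d, hd, rfl⟩))
        (fun v hv => absurd hv (notMem_empty v)) (fun v hv h1 => absurd hv (hjZ v h1))
        (fun X _ _ _ _ h1 => absurd h1 not_nonempty_empty)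
      obtain ⟨hpm, hun⟩ := glue_un c.hZ half1 half2 hun1 hcr2
      refine hfin hpm (fun d hd => (mem_union.1 hd).elim (hpos1 d) (hpos2 d)) ?_
      intro X hX hcl
      have hpar := unused_part hF hpm hX c.FZ hcl hun
      have h0 : ((X ∩ Z) ∩ jm).card = 0 := by
        rw [card_eq_zero, ← disjoint_iff_inter_eq_empty, disjoint_left]
        exact fun v hv => hjZ v (mem_inter.1 hv).2
      rw [h0] at hpar
      have hN : ∀ d ∈ G.bd Z, ¬ (G.pi d ∈ X ∧ G.pi (G.al d) ∈ X) := by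
        intro d hd hdX
        have h1 : d ∈ (G.bd Z).filter (fun d => G.pi d ∈ X ∧ G.pi (G.al d) ∈ X) :=
          mem_filter.2 ⟨hd, hdX⟩
        have h2 : 1 < ((G.bd Z).filter (fun d => G.pi d ∈ X ∧ G.pi (G.al d) ∈ X)).card := by
          have h3 := card_pos.2 ⟨d, h1⟩
          omega
        obtain ⟨d1, k1, d2, k2, hne⟩ := one_lt_card.1 h2
        obtain ⟨k3, k4, k5⟩ := mem_filter.1 k1
        obtain ⟨k6, k7, k8⟩ := mem_filter.1 k2
        by_cases ee : d1 = e
        · subst ee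
          exact hS ⟨d2, k6, hne.symm, hX.sub k4, hX.sub k5, hX.sub k7, hX.sub k8⟩
        · by_cases ee2 : d2 = e
          · subst ee2
            exact hS ⟨d1, k3, hne, hX.sub k7, hX.sub k8, hX.sub k4, hX.sub k5⟩
          · have h4 := c.rest_le hw k3 ee k6 ee2 hne.symm
            rw [hz1 d1 (mem_bd.1 k3).1 (hX.sub k4), hz1 d2 (mem_bd.1 k6).1 (hX.sub k7)] at h4
            norm_num at h4
      refine ⟨(hit_use (M2 := M2) (B := (G.bd Z).image G.pi) (jm' := ∅) hX c.FZ hcl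
        (fun d hd hp => half_in half1 hd hp) (avoid_bd hX hpm hcl hun hN) hhit2).1,
        out_use (M1 := M1) hX hFY hcl (fun d hd hp => half_out half2 hd hp) ?_ hhit1⟩
      intro d hd h1 h2 h3 h4
      exact absurd ⟨h3, by rw [G.al_al d hd]; exact h1⟩ (hN (G.al d) (mem_bd.2
        ⟨G.al_mem d hd, h4, by rw [G.al_al d hd]; exact h2⟩))
  · -- used
    obtain ⟨g1, g2, g3⟩ := mem_bd.1 hg
    obtain ⟨M2, half2, hpos2, heM2, hgM2, hcr2, hhit2⟩ := h.in2 c hg hge hzg hsy
    have hother : ∀ d ∈ G.bd Z, G.pi d ∈ fr → d = e ∨ d = g := by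
      intro d hd hp
      by_contra h1
      rw [not_or] at h1
      have h2 := c.rest_le hw hg hge hd h1.1 h1.2
      rw [hz1 d (mem_bd.1 hd).1 hp] at h2
      linarith
    have hpm : G.IsPM (M1 ∪ M2) := by
      refine half1.glue half2 sdiff_disjoint (sdiff_union_of_subset c.hZ).symm ?_
      intro d hd hp hq
      constructor
      · intro h1
        rcases hcr2 d h1 (mem_sdiff.1 hq).2 with rfl | rfl
        · exact heM
        · exact hgM
      · intro h1
        rcases hcr1 _ h1 (by rw [G.al_al d hd]; exact hp) with h2 | h2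
        · rw [← G.al_al d hd, h2, G.al_al e c.ed]
          exact heM2
        · rw [← G.al_al d hd, h2, G.al_al g g1]
          exact hgM2
    refine hfin hpm (fun d hd => (mem_union.1 hd).elim (hpos1 d) (hpos2 d)) ?_
    intro X hX hcl
    constructor
    · rw [← Nat.not_odd_iff_even]
      intro ho
      obtain ⟨d, h4, h5⟩ := hhit2 (X ∩ Z) (hX.interZ c.FZ) inter_subset_right ho
      obtain ⟨h6, h7, h8⟩ := mem_bd.1 h4
      obtain ⟨h9, h10⟩ := mem_inter.1 h7
      by_cases h11 : G.pi (G.al d) ∈ Z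
      · exact h5 (half_in half1 (hcl d (mem_bd.2 ⟨h6, h9, fun h12 =>
          h8 (mem_inter.2 ⟨h12, h11⟩)⟩)) h10)
      · rcases hother d (mem_bd.2 ⟨h6, h10, h11⟩) (hX.sub h9) with rfl | rfl
        · exact h5 heM2
        · exact h5 hgM2
    · refine out_use (M1 := M1) hX hFY hcl (fun d hd hp => half_out half2 hd hp) ?_ hhit1
      intro d hd h1 h2 h3 h4
      rcases hother (G.al d) (mem_bd.2 ⟨G.al_mem d hd, h4, by rw [G.al_al d hd]; exact h2⟩)
        (hX.sub h3) with h5 | h5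
      · rw [← G.al_al d hd, h5]
        exact heM
      · rw [← G.al_al d hd, h5]
        exact hgM

/-! ### the star is cut -/

/-- a cut with one dart of positive weight, one star vertex on each side -/
structure Cr (G : MG V D) (z : D → ℝ) (t : V → ℝ) (F : Finset D) (jm P : Finset V) (e : D)
    (x y : V) : Prop where
  hP : P ⊆ G.vs
  he : Even P.card
  hv : G.val z t P < 6
  hv2 : G.val z t (G.vs \ P) < 6
  FP : ∀ d ∈ F, G.pi d ∈ P → G.pi (G.al d) ∈ P
  ed : e ∈ G.ds
  eP : G.pi e ∈ P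
  eY : G.pi (G.al e) ∉ P
  uq : ∀ d ∈ G.bd P, 0 < z d → d = e
  xP : x ∈ P
  yP : y ∈ G.vs \ P
  hj : jm = {x, y}

theorem Cr.symm (k : G.Cr z t F jm P e x y) (hev : Even G.vs.card) (hw : G.Wt z t)
    (hF : G.FrS z fr F jm) : G.Cr z t F jm (G.vs \ P) (G.al e) y x := by
  have hss : G.vs \ (G.vs \ P) = P := by
    rw [sdiff_sdiff_right_self]
    exact inter_eq_right.2 k.hP
  refine ⟨sdiff_subset, ?_, k.hv2, by rw [hss]; exact k.hv, FY_of hF.Fsub hF.Fal k.FP,
    G.al_mem e k.ed, mem_sdiff.2 ⟨G.pi_mem _ (G.al_mem e k.ed), k.eY⟩, ?_, ?_, k.yP,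
    by rw [hss]; exact k.xP, by rw [k.hj, pair_comm]⟩
  · have h1 := card_sdiff_add_card_eq_card k.hP
    obtain ⟨a, ha⟩ := hev
    obtain ⟨b, hb⟩ := k.he
    rw [Nat.even_iff]
    omega
  · rw [G.al_al e k.ed]
    exact fun h1 => (mem_sdiff.1 h1).2 k.eP
  · intro d hd hz
    obtain ⟨h1, h2, h3⟩ := mem_bd.1 hd
    have h4 : G.pi (G.al d) ∈ P := by
      by_contra h5
      exact h3 (mem_sdiff.2 ⟨G.pi_mem _ (G.al_mem d h1), h5⟩)
    have h5 := k.uq (G.al d) (mem_bd.2 ⟨G.al_mem d h1, h4, by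
      rw [G.al_al d h1]; exact (mem_sdiff.1 h2).2⟩) (by rw [hw.sym d h1]; exact hz)
    rw [← h5, G.al_al d h1]

theorem Cr.e_bd (k : G.Cr z t F jm P e x y) : e ∈ G.bd P := mem_bd.2 ⟨k.ed, k.eP, k.eY⟩

theorem Cr.only (k : G.Cr z t F jm P e x y) (hF : G.FrS z fr F jm) {d : D} (hd : d ∈ G.bd P)
    (hp : G.pi d ∈ fr) : d = e :=
  k.uq d hd (by rw [hF.unit d (mem_bd.1 hd).1 hp]; norm_num)

theorem Cr.x_jm (k : G.Cr z t F jm P e x y) : x ∈ jm := by
  rw [k.hj]
  exact mem_insert_self _ _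

theorem Cr.jmP (k : G.Cr z t F jm P e x y) {v : V} (hv : v ∈ jm) (hP : v ∈ P) : v = x := by
  rw [k.hj, mem_insert, mem_singleton] at hv
  rcases hv with h1 | h1
  · exact h1
  · exact absurd hP (by rw [h1]; exact (mem_sdiff.1 k.yP).2)

theorem Cr.lt (k : G.Cr z t F jm P e x y) : P.card < G.vs.card :=
  card_lt_card (Finset.ssubset_iff_subset_ne.2 ⟨k.hP,
    fun h1 => k.eY (by rw [h1]; exact G.pi_mem _ (G.al_mem e k.ed))⟩)

theorem Cr.jcard (k : G.Cr z t F jm P e x y) (X : Finset V) :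
    ((X ∩ P) ∩ jm).card = if x ∈ X then 1 else 0 := by
  split_ifs with h1
  · rw [card_eq_one]
    refine ⟨x, ?_⟩
    ext v
    rw [mem_inter, mem_inter, mem_singleton]
    constructor
    · rintro ⟨⟨-, h2⟩, h3⟩
      exact k.jmP h3 h2
    · rintro rfl
      exact ⟨⟨h1, k.xP⟩, k.x_jm⟩
  · rw [card_eq_zero, eq_empty_iff_forall_notMem]
    intro v hv
    obtain ⟨h2, h3⟩ := mem_inter.1 hv
    obtain ⟨h4, h5⟩ := mem_inter.1 h2
    exact h1 (by rw [← k.jmP h3 h5]; exact h4)

theorem Cr.xe (k : G.Cr z t F jm P e x y) (hF : G.FrS z fr F jm) : x ≠ G.pi e := by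
  intro h1
  have h2 := hF.j0 x k.x_jm e (mem_st.2 ⟨k.ed, h1.symm⟩)
  exact k.eY (k.FP e h2 k.eP)

/-- no union contains the ends of `e` and the matching is not closed there: x is not in X -/
theorem Cr.x_not (k : G.Cr z t F jm P e x y) (hF : G.FrS z fr F jm) (hpm : G.IsPM M)
    (hX : G.Adm fr F X) (hcl : ∀ d ∈ G.bd X, d ∈ M) (hun : ∀ d ∈ G.bd P, d ∉ M) :
    x ∈ X ↔ G.pi e ∈ X := by
  have hpar := unused_part hF hpm hX k.FP hcl hun
  rw [k.jcard X] at hpar
  have ue := un_iff hpm hcl k.ed (hun e k.e_bd)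
  have hN : (G.bd P).filter (fun d => G.pi d ∈ X ∧ G.pi (G.al d) ∈ X) =
      if G.pi e ∈ X then {e} else ∅ := by
    ext d
    rw [mem_filter]
    constructor
    · rintro ⟨h1, h2, h3⟩
      have h4 := k.only hF h1 (hX.sub h2)
      rw [h4] at h2
      rw [if_pos h2, h4]
      exact mem_singleton_self _
    · intro h1
      split_ifs at h1 with h2
      · rw [mem_singleton] at h1
        rw [h1]
        exact ⟨k.e_bd, h2, ue.1 h2⟩
      · exact absurd h1 (notMem_empty _)
  rw [hN] at hpar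
  by_cases h1 : x ∈ X <;> by_cases h2 : G.pi e ∈ X
  · exact ⟨fun _ => h2, fun _ => h1⟩
  · rw [if_pos h1, if_neg h2] at hpar
    norm_num at hpar
  · rw [if_neg h1, if_pos h2] at hpar
    norm_num at hpar
  · exact ⟨fun h3 => absurd h3 h1, fun h3 => absurd h3 h2⟩

theorem un_symm (hpm : G.IsPM M) (hun : ∀ d ∈ G.bd P, d ∉ M) : ∀ d ∈ G.bd (G.vs \ P), d ∉ M := by
  intro d hd h1
  obtain ⟨h2, h3, h4⟩ := mem_bd.1 hd
  refine hun (G.al d) (mem_bd.2 ⟨G.al_mem d h2, ?_, ?_⟩) (hpm.closed d h1)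
  · by_contra h5
    exact h4 (mem_sdiff.2 ⟨G.pi_mem _ (G.al_mem d h2), h5⟩)
  · rw [G.al_al d h2]
    exact (mem_sdiff.1 h3).2

/-- the star is cut, `e` has an end which is not fresh -/
theorem MCS.cr_plain (h : G.MCS z t fr F jm sx ep 0) (k : G.Cr z t F jm P e x y)
    (hn : G.pi e ∉ fr ∨ G.pi (G.al e) ∉ fr) : False := by
  have hF := h.inst.fresh
  have hw := h.inst.wt
  have k' := k.symm h.inst.even hw hF
  obtain ⟨M2, half2, hpos2, hcr2, hhit2⟩ := h.in0 (jm' := ∅) (B := insert x ((G.bd P).image G.pi))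
    k.hP k.he k.hv k.FP k.lt (empty_subset _) (Or.inl rfl)
    (fun d hd _ => Or.inl (mem_insert_of_mem (mem_image.2 ⟨d, hd, rfl⟩)))
    (fun v hv => absurd hv (notMem_empty v))
    (fun v hv h1 => Or.inr (by rw [k.jmP hv h1]; exact mem_insert_self _ _))
    (fun X _ _ _ _ h1 => absurd h1 not_nonempty_empty)
  obtain ⟨M1, half1, hpos1, hcr1, hhit1⟩ := h.in0 (jm' := ∅)
    (B := insert y ((G.bd (G.vs \ P)).image G.pi)) k'.hP k'.he k'.hv k'.FP k'.lt (empty_subset _)
    (Or.inl rfl)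
    (fun d hd _ => Or.inl (mem_insert_of_mem (mem_image.2 ⟨d, hd, rfl⟩)))
    (fun v hv => absurd hv (notMem_empty v))
    (fun v hv h1 => Or.inr (by rw [k'.jmP hv h1]; exact mem_insert_self _ _))
    (fun X _ _ _ _ h1 => absurd h1 not_nonempty_empty)
  obtain ⟨hpm, hun⟩ := glue_un k.hP half1 half2 (fun d hd => (mem_sdiff.1 (hcr1 d hd)).2) hcr2
  have hun' := un_symm hpm hun
  refine h.finish hpm (fun d hd => (mem_union.1 hd).elim (hpos1 d) (hpos2 d)) ?_
  intro X hX hcl
  have ue := un_iff hpm hcl k.ed (hun e k.e_bd)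
  have h1 : G.pi e ∉ X := by
    intro h1
    rcases hn with h2 | h2
    · exact h2 (hX.sub h1)
    · exact h2 (hX.sub (ue.1 h1))
  have hx : x ∉ X := fun h2 => h1 ((k.x_not hF hpm hX hcl hun).1 h2)
  have hy : y ∉ X := fun h2 => h1 (ue.2 ((k'.x_not hF hpm hX hcl hun').1 h2))
  have hN : ∀ d ∈ G.bd P, ¬ (G.pi d ∈ X ∧ G.pi (G.al d) ∈ X) := by
    rintro d hd ⟨h2, h3⟩
    have h4 := k.only hF hd (hX.sub h2)
    exact h1 (by rw [← h4]; exact h2)
  have hN' : ∀ d ∈ G.bd (G.vs \ P), ¬ (G.pi d ∈ X ∧ G.pi (G.al d) ∈ X) := by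
    rintro d hd ⟨h2, h3⟩
    have h4 := k'.only hF hd (hX.sub h2)
    exact h1 (ue.2 (by rw [← h4]; exact h2))
  have a2 := hit_use (M2 := M2) (B := insert x ((G.bd P).image G.pi)) (jm' := ∅) hX k.FP hcl
    (fun d hd hp => half_in half1 hd hp) (by
      rw [disjoint_left]
      intro v hv hvB
      rcases mem_insert.1 hvB with rfl | h2
      · exact hx (mem_inter.1 hv).1
      · exact disjoint_left.1 (avoid_bd hX hpm hcl hun hN) hv h2) hhit2
  have a1 := hit_use (M2 := M1) (B := insert y ((G.bd (G.vs \ P)).image G.pi)) (jm' := ∅) hX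
    k'.FP hcl (fun d hd hp => half_out half2 hd (mem_sdiff.1 hp).2) (by
      rw [disjoint_left]
      intro v hv hvB
      rcases mem_insert.1 hvB with rfl | h2
      · exact hy (mem_inter.1 hv).1
      · exact disjoint_left.1 (avoid_bd hX hpm hcl hun' hN') hv h2) hhit1
  refine ⟨?_, fun h2 => hx (h2.2 k.x_jm)⟩
  rw [card_split (Z := P) (hX.sub.trans hF.fsub)]
  exact a2.1.add a1.1

/-- the star is cut, `e` is fresh-fresh, new star on the side `P` -/
theorem MCS.cr_star (h : G.MCS z t fr F jm sx ep 0) (k : G.Cr z t F jm P e x y)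
    (f1 : G.pi e ∈ fr) (hb0 : ∀ X, G.Adm fr F X → X ⊆ P → Even X.card → {x, G.pi e} ⊆ X →
      2 ≤ ((G.res P).bd X).card) : False := by
  have hF := h.inst.fresh
  have hw := h.inst.wt
  have k' := k.symm h.inst.even hw hF
  obtain ⟨M2, half2, hpos2, hcr2, hhit2⟩ := h.in0 (jm' := {x, G.pi e}) (B := ∅)
    k.hP k.he k.hv k.FP k.lt
    (by
      intro v hv
      rw [mem_insert, mem_singleton] at hv
      rcases hv with rfl | rfl
      · exact mem_inter.2 ⟨hF.jms k.x_jm, k.xP⟩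
      · exact mem_inter.2 ⟨f1, k.eP⟩)
    (Or.inr (card_pair (k.xe hF)))
    (by
      intro d hd hp
      right
      rw [k.only hF hd hp]
      exact mem_insert_of_mem (mem_singleton_self _))
    (by
      intro v hv
      rw [mem_insert, mem_singleton] at hv
      rcases hv with rfl | rfl
      · exact Or.inl k.x_jm
      · exact Or.inr ⟨e, k.e_bd, rfl⟩)
    (fun v hv h1 => Or.inl (by rw [k.jmP hv h1]; exact mem_insert_self _ _))
    (fun X hX hXP _ hev _ hjX => hb0 X hX hXP hev hjX)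
  obtain ⟨M1, half1, hpos1, hcr1, hhit1⟩ := h.in0 (jm' := ∅)
    (B := {y, G.pi (G.al e)}) k'.hP k'.he k'.hv k'.FP k'.lt (empty_subset _)
    (Or.inl rfl)
    (by
      intro d hd hp
      left
      rw [k'.only hF hd hp]
      exact mem_insert_of_mem (mem_singleton_self _))
    (fun v hv => absurd hv (notMem_empty v))
    (fun v hv h1 => Or.inr (by rw [k'.jmP hv h1]; exact mem_insert_self _ _))
    (fun X _ _ _ _ h1 => absurd h1 not_nonempty_empty)
  obtain ⟨hpm, hun⟩ := glue_un k.hP half1 half2 (fun d hd => (mem_sdiff.1 (hcr1 d hd)).2) hcr2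
  have hun' := un_symm hpm hun
  refine h.finish hpm (fun d hd => (mem_union.1 hd).elim (hpos1 d) (hpos2 d)) ?_
  intro X hX hcl
  have ue := un_iff hpm hcl k.ed (hun e k.e_bd)
  have a2 := hit_use (M2 := M2) (B := ∅) (jm' := {x, G.pi e}) hX k.FP hcl
    (fun d hd hp => half_in half1 hd hp) (disjoint_empty_right _) hhit2
  have hx : x ∉ X := by
    intro h2
    refine a2.2 ⟨⟨x, mem_insert_self _ _⟩, ?_⟩
    intro v hv
    rw [mem_insert, mem_singleton] at hv
    rcases hv with rfl | rfl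
    · exact mem_inter.2 ⟨h2, k.xP⟩
    · exact mem_inter.2 ⟨(k.x_not hF hpm hX hcl hun).1 h2, k.eP⟩
  have h1 : G.pi e ∉ X := fun h2 => hx ((k.x_not hF hpm hX hcl hun).2 h2)
  have hy : y ∉ X := fun h2 => h1 (ue.2 ((k'.x_not hF hpm hX hcl hun').1 h2))
  have a1 := hit_use (M2 := M1) (B := {y, G.pi (G.al e)}) (jm' := ∅) hX
    k'.FP hcl (fun d hd hp => half_out half2 hd (mem_sdiff.1 hp).2) (by
      rw [disjoint_left]
      intro v hv hvB
      rw [mem_insert, mem_singleton] at hvB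
      rcases hvB with rfl | rfl
      · exact hy (mem_inter.1 hv).1
      · exact h1 (ue.2 (mem_inter.1 hv).1)) hhit1
  refine ⟨?_, fun h2 => hx (h2.2 k.x_jm)⟩
  rw [card_split (Z := P) (hX.sub.trans hF.fsub)]
  exact a2.1.add a1.1

/-- failure of (B0) on one side -/
theorem Cr.fail (k : G.Cr z t F jm P e x y) (hF : G.FrS z fr F jm) (hX : G.Adm fr F X)
    (hXP : X ⊆ P) (hev : Even X.card) (hjX : {x, G.pi e} ⊆ X)
    (hlt : ¬ 2 ≤ ((G.res P).bd X).card) : ∀ d ∈ G.bd X, d = e := by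
  have heX : G.pi e ∈ X := hjX (mem_insert_of_mem (mem_singleton_self _))
  have hxX : x ∈ X := hjX (mem_insert_self _ _)
  have hd2 : (G.bd X).filter (fun d => G.pi (G.al d) ∉ P) = {e} := by
    ext d
    rw [mem_filter, mem_singleton]
    constructor
    · rintro ⟨h1, h2⟩
      obtain ⟨h3, h4, h5⟩ := mem_bd.1 h1
      exact k.only hF (mem_bd.2 ⟨h3, hXP h4, h2⟩) (hX.sub h4)
    · rintro rfl
      exact ⟨mem_bd.2 ⟨k.ed, heX, fun h1 => k.eY (hXP h1)⟩, k.eY⟩
  have hd3 : (G.res P).bd X = (G.bd X).filter fun d => ¬ G.pi (G.al d) ∉ P := by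
    ext d
    rw [mem_filter, mem_bd, mem_bd, not_not]
    constructor
    · rintro ⟨h1, h2, h3⟩
      obtain ⟨h4, h5, h6⟩ := mem_filter.1 h1
      exact ⟨⟨h4, h2, h3⟩, h6⟩
    · rintro ⟨⟨h1, h2, h3⟩, h4⟩
      exact ⟨mem_filter.2 ⟨h1, hXP h2, h4⟩, h2, h3⟩
  have h1 := card_filter_add_card_filter_not (s := G.bd X) (fun d => G.pi (G.al d) ∉ P)
  rw [hd2, ← hd3, card_singleton] at h1
  have h2 := hF.bd_par hX
  have h3 := k.jcard X
  rw [if_pos hxX, inter_eq_left.2 hXP] at h3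
  rw [h3] at h2
  obtain ⟨a, ha⟩ := hev
  have h4 : ((G.res P).bd X).card = 0 := by omega
  rw [card_eq_zero] at h4
  intro d hd
  by_cases h6 : G.pi (G.al d) ∉ P
  · have h7 : d ∈ ({e} : Finset D) := by
      rw [← hd2]
      exact mem_filter.2 ⟨hd, h6⟩
    exact mem_singleton.1 h7
  · have h7 : d ∈ (G.res P).bd X := by
      rw [hd3]
      exact mem_filter.2 ⟨hd, h6⟩
    rw [h4] at h7
    exact absurd h7 (notMem_empty d)

theorem MCS.no_cr (h : G.MCS z t fr F jm sx ep 0) (k : G.Cr z t F jm P e x y) : False := by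
  have hF := h.inst.fresh
  have hw := h.inst.wt
  have k' := k.symm h.inst.even hw hF
  by_cases f1 : G.pi e ∈ fr
  swap
  · exact h.cr_plain k (Or.inl f1)
  by_cases f2 : G.pi (G.al e) ∈ fr
  swap
  · exact h.cr_plain k (Or.inr f2)
  by_cases b1 : ∀ X, G.Adm fr F X → X ⊆ P → Even X.card → {x, G.pi e} ⊆ X →
      2 ≤ ((G.res P).bd X).card
  · exact h.cr_star k f1 b1
  by_cases b2 : ∀ X, G.Adm fr F X → X ⊆ G.vs \ P → Even X.card → {y, G.pi (G.al e)} ⊆ X →
      2 ≤ ((G.res (G.vs \ P)).bd X).card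
  · exact h.cr_star k' f2 b2
  push Not at b1 b2
  obtain ⟨X1, hX1, h1P, h1e, h1j, h1l⟩ := b1
  obtain ⟨X2, hX2, h2P, h2e, h2j, h2l⟩ := b2
  have q1 := k.fail hF hX1 h1P h1e h1j (by omega)
  have q2 := k'.fail hF hX2 h2P h2e h2j (by omega)
  have hd : Disjoint X1 X2 := disjoint_left.2 fun v hv hv2 => (mem_sdiff.1 (h2P hv2)).2 (h1P hv)
  have hs := h.inst.sx_eq
  have hb := h.inst.b0 (X1 ∪ X2) ⟨union_subset hX1.sub hX2.sub, fun d hd hp => by
      rcases mem_union.1 hp with h1 | h1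
      · exact mem_union_left _ (hX1.clo d hd h1)
      · exact mem_union_right _ (hX2.clo d hd h1)⟩
    (by
      rw [card_union_of_disjoint hd]
      exact h1e.add h2e)
    (by
      rw [hs]
      exact ⟨x, k.x_jm⟩)
    (by
      rw [hs, k.hj]
      intro v hv
      rw [mem_insert, mem_singleton] at hv
      rcases hv with rfl | rfl
      · exact mem_union_left _ (h1j (mem_insert_self _ _))
      · exact mem_union_right _ (h2j (mem_insert_self _ _)))
  have hz : G.bd (X1 ∪ X2) = ∅ := by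
    rw [eq_empty_iff_forall_notMem]
    intro d hd
    obtain ⟨h1, h2, h3⟩ := mem_bd.1 hd
    rw [mem_union, not_or] at h3
    rcases mem_union.1 h2 with h4 | h4
    · have h5 := q1 d (mem_bd.2 ⟨h1, h4, h3.1⟩)
      exact h3.2 (h2j (by rw [h5]; exact mem_insert_of_mem (mem_singleton_self _)))
    · have h5 := q2 d (mem_bd.2 ⟨h1, h4, h3.2⟩)
      refine h3.1 (h1j ?_)
      rw [h5, G.al_al e k.ed]
      exact mem_insert_of_mem (mem_singleton_self _)
  rw [hz, card_empty] at hb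
  omega

/-- TWO-CUTS: a minimal counterexample has no even set of value 2 without F-edges in its boundary and
with a boundary edge of weight 1 -/
theorem MCS.no_c2 (h : G.MCS z t fr F jm sx ep 0) (c : G.C2 z t F Z e)
    (hsz : 4 ≤ Z.card ∨ (fr ∩ Z).Nonempty) (hsy : 4 ≤ (G.vs \ Z).card ∨ (fr \ Z).Nonempty) :
    False := by
  have hF := h.inst.fresh
  have hw := h.inst.wt
  by_cases hjZ : ∀ v ∈ Z, v ∉ jm
  · exact h.no_c2_B c hjZ hsz hsy
  push Not at hjZ
  obtain ⟨x, hxZ, hxj⟩ := hjZ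
  have hj2 : jm.card = 2 := by
    rcases h.inst.jm2 with h1 | h1
    · rw [h1] at hxj
      exact absurd hxj (notMem_empty x)
    · exact h1
  have h1 := c.sum_rest
  have htx := hF.t_jm hw hxj
  have h2 := add_sum_erase Z t hxZ
  rw [htx] at h2
  have h3 : 0 ≤ ∑ d ∈ (G.bd Z).erase e, z d :=
    sum_nonneg fun d hd => hw.z0 d (mem_bd.1 (mem_erase.1 hd).2).1
  have h4 : 0 ≤ ∑ v ∈ Z.erase x, t v := sum_nonneg fun v hv => hw.t0 v (c.hZ (mem_erase.1 hv).2)
  have h5 : ∑ d ∈ (G.bd Z).erase e, z d = 0 := by linarith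
  have h6 : ∑ v ∈ Z.erase x, t v = 0 := by linarith
  have h7 : ∑ v ∈ Z, t v = 1 := by linarith
  obtain ⟨y, hy⟩ : ∃ y, jm = {x, y} ∧ y ∉ Z := by
    have h8 : (jm.erase x).card = 1 := by
      rw [card_erase_of_mem hxj, hj2]
    obtain ⟨y, hy⟩ := card_eq_one.1 h8
    refine ⟨y, ?_, ?_⟩
    · rw [← insert_erase hxj, hy]
    · intro hyZ
      have h9 : y ∈ jm.erase x := by rw [hy]; exact mem_singleton_self y
      obtain ⟨h10, h11⟩ := mem_erase.1 h9
      have h12 := single_le_sum (f := t) (s := Z.erase x)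
        (fun v hv => hw.t0 v (c.hZ (mem_erase.1 hv).2)) (mem_erase.2 ⟨h10, hyZ⟩)
      rw [hF.t_jm hw h11, h6] at h12
      norm_num at h12
  obtain ⟨hjm, hyZ⟩ := hy
  have hyj : y ∈ jm := by rw [hjm]; exact mem_insert_of_mem (mem_singleton_self _)
  refine h.no_cr (P := Z) (e := e) (x := x) (y := y) ⟨c.hZ, c.he, by rw [c.hv]; norm_num, ?_,
    c.FZ, c.ed, c.eZ, c.eY, ?_, hxZ, mem_sdiff.2 ⟨hF.fsub (hF.jms hyj), hyZ⟩, hjm⟩
  · have h8 := hw.val_compl c.hZ
    have h9 := h.inst.tau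
    rw [c.hv, h7] at h8
    linarith
  · intro d hd hz
    by_contra hne
    have h8 := single_le_sum (f := z) (s := (G.bd Z).erase e)
      (fun d hd => hw.z0 d (mem_bd.1 (mem_erase.1 hd).2).1) (mem_erase.2 ⟨hne, hd⟩)
    linarith

end MG

end RH
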