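import Pool.Agent.Lib.RH.SGA

/-! Glue above 6 with a direction on the outer graph: a tight set `W` of a step `(zb, tb)` with at
most 6 tokens, and a direction `(a, b)` on the graph with `W` contracted, which lowers the number of
tokens, contradict minimality. -/

set_option autoImplicit false

namespace RH

open Finset Classical

namespace MG

variable {V D : Type*} {G : MG V D} {z : D → ℝ} {t : V → ℝ} {fr : Finset V} {F : Finset D}
variable {jm sx : Finset V} {ep : V → ℕ} {m : ℕ} {W : Finset V}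

theorem tcon_add (t b : V → ℝ) (e : ℝ) (W : Finset V) (ω : V) :
    tcon (fun v => t v + e * b v) W ω = fun v => tcon t W ω v + e * tcon b W ω v := by
  funext v
  unfold tcon
  split_ifs
  · rw [sum_add_distrib, ← mul_sum]
  · rfl

theorem MCS.ga_push (h : G.MCS z t fr F jm sx ep m) {zb : D → ℝ} {tb : V → ℝ} {frb : Finset V}
    (hs : StepA G z fr F jm sx zb tb frb) (h6 : ∑ v ∈ G.vs, tb v ≤ 6) (hW : W ⊆ G.vs)
    (hWo : Odd W.card) (h3 : G.val zb tb W = 3) (hc1 : 3 ≤ W.card) (hc2 : 3 ≤ (G.vs \ W).card)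
    (hFW : ∀ d ∈ F, G.pi d ∈ frb → G.pi d ∈ W → G.pi (G.al d) ∈ W)
    (a : D → ℝ) (b : V → ℝ)
    (hsym : ∀ d ∈ G.ds, a (G.al d) = a d)
    (hdeg : ∀ v ∈ G.vs, v ∉ W → ∑ d ∈ G.st v, a d + b v = 0)
    (hdegW : G.val a b W = 0)
    (hz : ∀ d ∈ G.ds, zb d = 0 → a d = 0)
    (hfr : ∀ d ∈ G.ds, G.pi d ∈ frb → G.pi d ∉ W → a d = 0)
    (ht : ∀ v ∈ G.vs, v ∉ W → tb v = 0 → 0 ≤ b v)
    (htW : ∑ v ∈ W, tb v = 0 → 0 ≤ ∑ v ∈ W, b v)
    (hcut : ∀ X ⊆ G.vs, Odd X.card → G.val zb tb X = 3 → (Disjoint X W ∨ W ⊆ X) →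
      0 ≤ G.val a b X)
    (hneg : ∑ v ∈ G.vs, b v < 0) : False := by
  obtain ⟨ω, hω⟩ : W.Nonempty := by
    rw [← card_pos]
    omega
  have hw1 := hs.wt.con hω hW hWo h3
  have hdc : ∀ v ∈ (G.con W ω hω hW).vs,
      ∑ d ∈ (G.con W ω hω hW).st v, a d + tcon b W ω v = 0 := by
    intro v hv
    have hv' := con_vs_mem hω hW (X := (G.con W ω hω hW).vs) (Finset.Subset.refl _) hv
    by_cases h1 : v = ω
    · subst h1
      rw [con_st_omega hω hW]
      simp only [tcon, if_true]
      exact hdegW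
    · have h2 := hv'.resolve_right h1
      rw [con_st hω hW h1 h2.2]
      simp only [tcon, h1, if_false]
      exact hdeg v h2.1 h2.2
  obtain ⟨ε, hε, H⟩ := hw1.pert a (tcon b W ω)
    (fun d hd => hsym d (mem_of_mem_filter d hd)) hdc
    (fun d hd h0 => (hz d (mem_of_mem_filter d hd) h0).ge)
    (by
      intro v hv h0
      have hv' := con_vs_mem hω hW (X := (G.con W ω hω hW).vs) (Finset.Subset.refl _) hv
      by_cases h1 : v = ω
      · subst h1
        simp only [tcon, if_true] at h0 ⊢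
        exact htW h0
      · have h2 := hv'.resolve_right h1
        simp only [tcon, h1, if_false] at h0 ⊢
        exact ht v h2.1 h2.2 h0)
    (by
      intro X hX ho hv
      rw [con_val hω hW hX] at hv ⊢
      refine hcut _ (pre_sub hω hW hX) ((pre_odd hω hW hX hWo).2 ho) hv ?_
      by_cases hx : ω ∈ X
      · right
        rw [pre_eq_union hω hx]
        exact subset_union_right
      · left
        rw [disjoint_left]
        intro v hv1 hv2
        simp only [pre, hx, if_false] at hv1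
        exact con_disj hω hW hX hx hv1 hv2)
  have hH := H ε hε.le le_rfl
  refine h.ga hs hW hWo h3 hc1 hc2 hFW hω hH ?_ ?_ ?_
  · rw [sum_add_distrib, ← mul_sum, con_tau hω hW, con_tau hω hW]
    have := mul_neg_of_pos_of_neg hε hneg
    linarith
  · intro d hd h0
    rw [h0, hz d hd h0]
    ring
  · intro d hd h1 h2
    rw [hfr d hd h1 h2, hs.unit d hd h1]
    ring

end MG

end RH
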