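import Pool.Agent.Lib.RH.Gad3

/-! # Inner gadgets (no gadget darts)

Every gadget vertex carries one or two kept ports of weight 1 and tokens up to degree 3; all other
ports are dropped. At most one gadget vertex `a` has two kept ports. Value table, `Wt`, strictness,
number of tokens, patterns, colours. Special cases: `in1` (one port), `in2` (two ports, two
vertices), `in2a` (alpha with two ports and one port), `in3` (alpha with two ports, two ports). -/

set_option autoImplicit false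

namespace RH

open Finset Classical

namespace MG

variable {V D : Type*} {G : MG V D} {g : GD V D} {z ze : D → ℝ} {t tk : V → ℝ} {a : V}

/-- kept ports at a gadget vertex -/
noncomputable def gpv (g : GD V D) (v : V) : Finset D := g.P.filter fun d => g.ga d = v

/-- a gadget without gadget darts, ports of weight 1, full degrees -/
structure IGb (g : GD V D) (z : D → ℝ) (tk : V → ℝ) : Prop where
  E0 : g.E = ∅
  one : ∀ d ∈ g.P, z d = 1
  tkv : ∀ v ∈ g.K, tk v = 3 - ((gpv g v).card : ℝ)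
  c3 : ∀ v ∈ g.K, (gpv g v).card ≤ 3

/-- one port at every gadget vertex, at most two at `a` -/
structure IGk (g : GD V D) (z : D → ℝ) (tk : V → ℝ) (a : V) : Prop extends IGb g z tk where
  c1 : ∀ v ∈ g.K, v ≠ a → (gpv g v).card ≤ 1
  c2 : (gpv g a).card ≤ 2

theorem mem_gpv {v : V} {d : D} : d ∈ gpv g v ↔ d ∈ g.P ∧ g.ga d = v := by
  unfold gpv
  rw [mem_filter]

/-- number of the kept ports at `v` which start in `X` -/
noncomputable def gnx (G : MG V D) (g : GD V D) (X : Finset V) (v : V) : ℕ :=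
  ((gpv g v).filter fun d => G.pi d ∈ X).card

/-- contribution of the gadget vertices `Y` next to `X` -/
noncomputable def gsv (G : MG V D) (g : GD V D) (X Y : Finset V) : ℝ :=
  ∑ v ∈ Y, (3 - 2 * (gnx G g X v : ℝ))

theorem IGb.cont (hI : IGb g z tk) {X Y : Finset V} (hY : Y ⊆ g.K) :
    gvk g z ze tk Y - 2 * gpw G g z X Y = gsv G g X Y := by
  have e1 : ∑ d ∈ g.P.filter (fun d => g.ga d ∈ Y), z d = ∑ v ∈ Y, ((gpv g v).card : ℝ) := by
    have h1 : ∑ d ∈ g.P.filter (fun d => g.ga d ∈ Y), z d =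
        ((g.P.filter fun d => g.ga d ∈ Y).card : ℝ) := by
      rw [card_eq_sum_ones, Nat.cast_sum]
      refine sum_congr rfl fun d hd => ?_
      rw [hI.one d (mem_filter.1 hd).1, Nat.cast_one]
    rw [h1, card_eq_sum_card_fiberwise (f := g.ga) (s := g.P.filter fun d => g.ga d ∈ Y) (t := Y)
      (fun d hd => mem_coe.2 (mem_filter.1 (mem_coe.1 hd)).2), Nat.cast_sum]
    refine sum_congr rfl fun v hv => ?_
    congr 2
    ext d
    rw [mem_filter, mem_filter, mem_gpv]
    constructor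
    · rintro ⟨⟨h2, -⟩, h3⟩
      exact ⟨h2, h3⟩
    · rintro ⟨h2, h3⟩
      exact ⟨⟨h2, h3 ▸ hv⟩, h3⟩
  have e2 : gpw G g z X Y = ∑ v ∈ Y, (gnx G g X v : ℝ) := by
    unfold gpw
    have h1 : ∑ d ∈ g.P.filter (fun d => G.pi d ∈ X ∧ g.ga d ∈ Y), z d =
        ((g.P.filter fun d => G.pi d ∈ X ∧ g.ga d ∈ Y).card : ℝ) := by
      rw [card_eq_sum_ones, Nat.cast_sum]
      refine sum_congr rfl fun d hd => ?_
      rw [hI.one d (mem_filter.1 hd).1, Nat.cast_one]
    rw [h1, card_eq_sum_card_fiberwise (f := g.ga)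
      (s := g.P.filter fun d => G.pi d ∈ X ∧ g.ga d ∈ Y) (t := Y)
      (fun d hd => mem_coe.2 (mem_filter.1 (mem_coe.1 hd)).2.2), Nat.cast_sum]
    refine sum_congr rfl fun v hv => ?_
    unfold gnx
    congr 2
    ext d
    rw [mem_filter, mem_filter, mem_filter, mem_gpv]
    constructor
    · rintro ⟨⟨h2, h3, -⟩, h4⟩
      exact ⟨⟨h2, h4⟩, h3⟩
    · rintro ⟨⟨h2, h3⟩, h4⟩
      exact ⟨⟨h2, h4, h3 ▸ hv⟩, h3⟩
  have e3 : ∑ v ∈ Y, tk v = ∑ v ∈ Y, (3 - ((gpv g v).card : ℝ)) :=
    sum_congr rfl fun v hv => hI.tkv v (hY hv)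
  unfold gvk
  rw [hI.E0, filter_empty, sum_empty, e1, e2, e3, mul_sum]
  unfold gsv
  rw [add_zero, ← sum_add_distrib, ← sum_sub_distrib]
  refine sum_congr rfl fun v _ => ?_
  ring

theorem gnx_le (X : Finset V) (v : V) : gnx G g X v ≤ (gpv g v).card := card_filter_le _ _

theorem gnx_empty (v : V) : gnx G g ∅ v = 0 := by
  unfold gnx
  rw [card_eq_zero, filter_eq_empty_iff]
  exact fun d _ => notMem_empty _

theorem gsv_empty (Y : Finset V) : gsv G g ∅ Y = 3 * (Y.card : ℝ) := by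
  unfold gsv
  rw [sum_congr rfl fun v _ => by rw [gnx_empty v], sum_const, nsmul_eq_mul]
  push_cast
  ring

/-- lower bound for the contribution -/
theorem IGk.gsv_ge (hI : IGk g z tk a) {X Y : Finset V} (hY : Y ⊆ g.K) :
    (Y.card : ℝ) ≤ gsv G g X Y ∨ (a ∈ Y ∧ (gpv g a).card = 2 ∧ (∀ d ∈ gpv g a, G.pi d ∈ X) ∧
      (Y.card : ℝ) - 2 ≤ gsv G g X Y) := by
  have h1 : ∀ v ∈ Y, v ≠ a → (1 : ℝ) ≤ 3 - 2 * (gnx G g X v : ℝ) := by
    intro v hv ha
    have h2 := (gnx_le (G := G) X v).trans (hI.c1 v (hY hv) ha)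
    have h3 : (gnx G g X v : ℝ) ≤ 1 := by exact_mod_cast h2
    linarith
  by_cases h2 : a ∈ Y ∧ 2 ≤ gnx G g X a
  · obtain ⟨h3, h4⟩ := h2
    have h5 : gnx G g X a = 2 := le_antisymm ((gnx_le X a).trans hI.c2) h4
    have h6 : (gpv g a).card = 2 := le_antisymm hI.c2 (h4.trans (gnx_le X a))
    refine Or.inr ⟨h3, h6, ?_, ?_⟩
    · have h7 : (gpv g a).filter (fun d => G.pi d ∈ X) = gpv g a :=
        eq_of_subset_of_card_le (filter_subset _ _) (by
          unfold gnx at h5
          rw [h5, h6])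
      intro d hd
      rw [← h7] at hd
      exact (mem_filter.1 hd).2
    · unfold gsv
      rw [← add_sum_erase Y _ h3, h5]
      have h7 : ((Y.erase a).card : ℝ) ≤ ∑ v ∈ Y.erase a, (3 - 2 * (gnx G g X v : ℝ)) := by
        rw [card_eq_sum_ones, Nat.cast_sum]
        refine sum_le_sum fun v hv => ?_
        rw [Nat.cast_one]
        exact h1 v (mem_of_mem_erase hv) (ne_of_mem_erase hv)
      have h8 : (Y.erase a).card + 1 = Y.card := card_erase_add_one h3
      have h9 : ((Y.erase a).card : ℝ) + 1 = Y.card := by exact_mod_cast h8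
      push_cast
      linarith
  · left
    unfold gsv
    rw [card_eq_sum_ones, Nat.cast_sum]
    refine sum_le_sum fun v hv => ?_
    rw [Nat.cast_one]
    by_cases h3 : v = a
    · subst h3
      have h4 : gnx G g X v ≤ 1 := by
        by_contra h5
        exact h2 ⟨hv, by omega⟩
      have h5 : (gnx G g X v : ℝ) ≤ 1 := by exact_mod_cast h4
      linarith
    · exact h1 v hv h3

/-- the exceptions of the value table (for the vertex with two ports) -/
structure IGx (G : MG V D) (g : GD V D) (z : D → ℝ) (t : V → ℝ) (a : V) : Prop where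
  x1 : (gpv g a).card = 2 → ∀ d ∈ gpv g a, ∀ d' ∈ gpv g a, G.pi d = G.pi d' → d = d'
  x2 : (gpv g a).card = 2 → ∀ X ⊆ g.A, Even X.card → (∀ d ∈ gpv g a, G.pi d ∈ X) →
    6 ≤ G.val z t X

/-- the two ports are not both at one vertex -/
theorem IGx.ne1 (hx : IGx G g z t a) (h8 : (gpv g a).card = 2) {X : Finset V}
    (h9 : ∀ d ∈ gpv g a, G.pi d ∈ X) : X.card ≠ 1 := by
  intro h14
  obtain ⟨v, hv⟩ := card_eq_one.1 h14
  obtain ⟨d, d', hdd, hd⟩ := card_eq_two.1 h8
  have h15 : d ∈ gpv g a := by rw [hd]; exact mem_insert_self _ _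
  have h16 : d' ∈ gpv g a := by rw [hd]; exact mem_insert_of_mem (mem_singleton_self _)
  have h17 := h9 d h15
  have h18 := h9 d' h16
  rw [hv, mem_singleton] at h17 h18
  exact hdd (hx.x1 h8 d h15 d' h16 (h17.trans h18.symm))

theorem IGb.valc (hI : IGb g z tk) {X Y : Finset V} (hY : Y ⊆ g.K) :
    G.val z t X + gvk g z ze tk Y - 2 * gpw G g z X Y = G.val z t X + gsv G g X Y := by
  have h1 := hI.cont (G := G) (ze := ze) (X := X) hY
  linarith

/-- odd sets have value at least 3 -/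
theorem IGk.odd3 (hI : IGk g z tk a) (hw : G.Wt z t) (h : GOk G g)
    (he : ∀ X ⊆ g.A, Even X.card → X.Nonempty → 2 ≤ G.val z t X)
    (he4 : (gpv g a).card = 2 → ∀ X ⊆ g.A, Even X.card → (∀ d ∈ gpv g a, G.pi d ∈ X) →
      4 ≤ G.val z t X) {X Y : Finset V}
    (hX : X ⊆ g.A) (hY : Y ⊆ g.K) (ho : Odd (X.card + Y.card)) :
    3 ≤ G.val z t X + gsv G g X Y := by
  rcases X.eq_empty_or_nonempty with h1 | h1
  · subst h1
    rw [val_empty', gsv_empty]
    have h2 : 1 ≤ Y.card := by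
      rw [card_empty, zero_add] at ho
      exact ho.pos
    have h3 : (1 : ℝ) ≤ Y.card := by exact_mod_cast h2
    linarith
  · rcases Nat.even_or_odd X.card with h2 | h2
    · have h3 := he X hX h2 h1
      have h4 : Odd Y.card := by
        rw [Nat.odd_add] at ho
        rw [← Nat.not_even_iff_odd] at ho ⊢
        tauto
      have h5 : (1 : ℝ) ≤ Y.card := by exact_mod_cast h4.pos
      rcases hI.gsv_ge (G := G) (X := X) hY with h6 | ⟨-, h7, h8, h6⟩
      · linarith
      · have h9 := he4 h7 X hX h2 h8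
        linarith
    · have h3 := hw.cut X (hX.trans h.hA) h2
      have h4 : Even Y.card := by
        rw [Nat.odd_add] at ho
        exact ho.1 h2
      rcases hI.gsv_ge (G := G) (X := X) hY with h6 | ⟨h7, -, -, h6⟩
      · have h5 : (0 : ℝ) ≤ Y.card := Nat.cast_nonneg _
        linarith
      · have h5 : 2 ≤ Y.card := by
          have h8 : 1 ≤ Y.card := card_pos.2 ⟨a, h7⟩
          rcases h4 with ⟨k, hk⟩
          omega
        have h8 : (2 : ℝ) ≤ Y.card := by exact_mod_cast h5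
        linarith

/-- weights, general form -/
theorem IGb.wt (hI : IGb g z tk) (hw : G.Wt z t) (h : GOk G g)
    (ho : ∀ X ⊆ g.A, ∀ Y ⊆ g.K, Odd (X.card + Y.card) → 3 ≤ G.val z t X + gsv G g X Y) :
    (gad G g h).Wt (gz g z ze) (gt G g z t tk) := by
  refine gad_wt h hw ?_ ?_ ?_ ?_ ?_
  · intro d hd
    rw [hI.E0] at hd
    exact absurd hd (notMem_empty _)
  · intro d hd
    rw [hI.E0] at hd
    exact absurd hd (notMem_empty _)
  · intro v hv
    rw [hI.tkv v hv]
    have h2 : ((gpv g v).card : ℝ) ≤ 3 := by exact_mod_cast hI.c3 v hv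
    linarith
  · intro v hv
    have h1 := hI.cont (G := G) (ze := ze) (X := ∅) (singleton_subset_iff.2 hv)
    rw [gpw_empty', gsv_empty, card_singleton] at h1
    push_cast at h1
    linarith
  · intro X hX Y hY hodd
    rw [hI.valc hY]
    exact ho X hX Y hY hodd

/-- **weights** -/
theorem IGk.wt (hI : IGk g z tk a) (hw : G.Wt z t) (h : GOk G g)
    (he : ∀ X ⊆ g.A, Even X.card → X.Nonempty → 2 ≤ G.val z t X)
    (he4 : (gpv g a).card = 2 → ∀ X ⊆ g.A, Even X.card → (∀ d ∈ gpv g a, G.pi d ∈ X) →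
      4 ≤ G.val z t X) :
    (gad G g h).Wt (gz g z ze) (gt G g z t tk) :=
  hI.toIGb.wt hw h fun _ hX _ hY ho => hI.odd3 hw h he he4 hX hY ho

/-- values of the gadget graph -/
theorem IGb.val_eq (hI : IGb g z tk) (hw : G.Wt z t) (h : GOk G g) {X' : Finset V}
    (hX' : X' ⊆ g.A ∪ g.K) :
    (gad G g h).val (gz g z ze) (gt G g z t tk) X' =
      G.val z t (X' ∩ g.A) + gsv G g (X' ∩ g.A) (X' ∩ g.K) := by
  have h1 : X' = (X' ∩ g.A) ∪ (X' ∩ g.K) := by
    rw [← inter_union_distrib_left, inter_eq_left.2 hX']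
  conv_lhs => rw [h1]
  rw [gad_val h hw.sym ze tk inter_subset_right inter_subset_right]
  exact hI.valc inter_subset_right

theorem gad_card_split (h : GOk G g) {X' : Finset V} (hX' : X' ⊆ g.A ∪ g.K) :
    (X' ∩ g.A).card + (X' ∩ g.K).card = X'.card := by
  have h2 : Disjoint (X' ∩ g.A) (X' ∩ g.K) := disjoint_left.2 fun v h3 h4 =>
    h.dj _ (mem_inter.1 h4).2 (mem_inter.1 h3).2
  rw [← card_union_of_disjoint h2, ← inter_union_distrib_left, inter_eq_left.2 hX']

/-- **strictness**: odd sets, table form -/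
theorem IGk.odd5xy (hI : IGk g z tk a) (hx : IGx G g z t a) (hw : G.Wt z t) (h : GOk G g)
    (ho : ∀ X ⊆ g.A, Odd X.card → X.card ≠ 1 → 5 ≤ G.val z t X)
    (he : ∀ X ⊆ g.A, Even X.card → X.Nonempty → 4 ≤ G.val z t X) {X Y : Finset V}
    (hX : X ⊆ g.A) (hY : Y ⊆ g.K) (hodd : Odd (X.card + Y.card)) (h1 : X.card + Y.card ≠ 1) :
    5 ≤ G.val z t X + gsv G g X Y := by
  rcases X.eq_empty_or_nonempty with h2 | h2
  · rw [h2, val_empty', gsv_empty]
    rw [h2, card_empty, zero_add] at h1 hodd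
    have h3 : 3 ≤ Y.card := by
      rcases hodd with ⟨k, hk⟩
      omega
    have h4 : (3 : ℝ) ≤ Y.card := by exact_mod_cast h3
    linarith
  · rcases Nat.even_or_odd X.card with h3 | h3
    · have h4 := he X hX h3 h2
      have h5 : 1 ≤ Y.card := by
        rcases hodd with ⟨k, hk⟩
        rcases h3 with ⟨l, hl⟩
        omega
      have h6 : (1 : ℝ) ≤ Y.card := by exact_mod_cast h5
      rcases hI.gsv_ge (G := G) (X := X) hY with h7 | ⟨-, h8, h9, h7⟩
      · linarith
      · have h10 := hx.x2 h8 X hX h3 h9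
        linarith
    · have h4 := hw.cut X (hX.trans h.hA) h3
      have h6 : (0 : ℝ) ≤ Y.card := Nat.cast_nonneg _
      have hev : Even Y.card := by
        rcases hodd with ⟨k, hk⟩
        rcases h3 with ⟨l, hl⟩
        exact ⟨k - l, by omega⟩
      rcases hI.gsv_ge (G := G) (X := X) hY with h7 | ⟨h7, h8, h9, h10⟩
      · by_cases h5 : X.card = 1
        · have h8 : 2 ≤ Y.card := by
            rcases hev with ⟨k, hk⟩
            omega
          have h9 : (2 : ℝ) ≤ Y.card := by exact_mod_cast h8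
          linarith
        · have h8 := ho X hX h3 h5
          linarith
      · have h11 : 2 ≤ Y.card := by
          have h12 : 1 ≤ Y.card := card_pos.2 ⟨a, h7⟩
          rcases hev with ⟨k, hk⟩
          omega
        have h12 : (2 : ℝ) ≤ Y.card := by exact_mod_cast h11
        have h13 : X.card ≠ 1 := hx.ne1 h8 h9
        have h14 := ho X hX h3 h13
        linarith

/-- **strictness**: even sets, table form -/
theorem IGk.even4xy (hI : IGk g z tk a) (hx : IGx G g z t a) (hw : G.Wt z t) (h : GOk G g)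
    (ho : ∀ X ⊆ g.A, Odd X.card → X.card ≠ 1 → 5 ≤ G.val z t X)
    (he : ∀ X ⊆ g.A, Even X.card → X.Nonempty → 4 ≤ G.val z t X) {X Y : Finset V}
    (hX : X ⊆ g.A) (hY : Y ⊆ g.K) (hev : Even (X.card + Y.card)) (h1 : 1 ≤ X.card + Y.card) :
    4 ≤ G.val z t X + gsv G g X Y := by
  rcases X.eq_empty_or_nonempty with h2 | h2
  · rw [h2, val_empty', gsv_empty]
    rw [h2, card_empty, zero_add] at h1 hev
    have h3 : 2 ≤ Y.card := by
      rcases hev with ⟨k, hk⟩
      omega
    have h4 : (2 : ℝ) ≤ Y.card := by exact_mod_cast h3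
    linarith
  · rcases Nat.even_or_odd X.card with h3 | h3
    · have h4 := he X hX h3 h2
      have h6 : (0 : ℝ) ≤ Y.card := Nat.cast_nonneg _
      rcases hI.gsv_ge (G := G) (X := X) hY with h7 | ⟨h7, h8, h9, h10⟩
      · linarith
      · have h11 : 2 ≤ Y.card := by
          have h12 : 1 ≤ Y.card := card_pos.2 ⟨a, h7⟩
          rcases hev with ⟨k, hk⟩
          rcases h3 with ⟨l, hl⟩
          omega
        have h12 : (2 : ℝ) ≤ Y.card := by exact_mod_cast h11
        linarith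
    · have h4 := hw.cut X (hX.trans h.hA) h3
      have h5 : 1 ≤ Y.card := by
        rcases hev with ⟨k, hk⟩
        rcases h3 with ⟨l, hl⟩
        omega
      have h6 : (1 : ℝ) ≤ Y.card := by exact_mod_cast h5
      rcases hI.gsv_ge (G := G) (X := X) hY with h7 | ⟨h7, h8, h9, h10⟩
      · linarith
      · have h13 : X.card ≠ 1 := hx.ne1 h8 h9
        have h14 := ho X hX h3 h13
        linarith

/-- **strictness**: odd sets -/
theorem IGk.odd5 (hI : IGk g z tk a) (hx : IGx G g z t a) (hw : G.Wt z t) (h : GOk G g)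
    (ho : ∀ X ⊆ g.A, Odd X.card → X.card ≠ 1 → 5 ≤ G.val z t X)
    (he : ∀ X ⊆ g.A, Even X.card → X.Nonempty → 4 ≤ G.val z t X) :
    ∀ X' ⊆ (gad G g h).vs, Odd X'.card → X'.card ≠ 1 →
      5 ≤ (gad G g h).val (gz g z ze) (gt G g z t tk) X' := by
  intro X' hX' hodd h1
  rw [hI.val_eq hw h hX']
  have hc := gad_card_split h hX'
  exact hI.odd5xy hx hw h ho he inter_subset_right inter_subset_right (hc ▸ hodd) (hc ▸ h1)

/-- **strictness**: even sets -/
theorem IGk.even4 (hI : IGk g z tk a) (hx : IGx G g z t a) (hw : G.Wt z t) (h : GOk G g)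
    (ho : ∀ X ⊆ g.A, Odd X.card → X.card ≠ 1 → 5 ≤ G.val z t X)
    (he : ∀ X ⊆ g.A, Even X.card → X.Nonempty → 4 ≤ G.val z t X) :
    ∀ X' ⊆ (gad G g h).vs, Even X'.card → X'.Nonempty →
      4 ≤ (gad G g h).val (gz g z ze) (gt G g z t tk) X' := by
  intro X' hX' hev h1
  rw [hI.val_eq hw h hX']
  have hc := gad_card_split h hX'
  exact hI.even4xy hx hw h ho he inter_subset_right inter_subset_right (hc ▸ hev)
    (hc ▸ card_pos.2 h1)

/-- **number of tokens** -/
theorem IGb.tau (hI : IGb g z tk) (hw : G.Wt z t) (h : GOk G g) :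
    ∑ v ∈ (gad G g h).vs, gt G g z t tk v =
      G.val z t g.A + 3 * (g.K.card : ℝ) - 2 * (g.P.card : ℝ) := by
  rw [gad_tau h (fun _ => 0) hw.sym tk]
  have h1 : ∑ d ∈ G.bd g.A, z d = ∑ d ∈ g.P, z d +
      ∑ d ∈ (G.bd g.A).filter (fun d => d ∉ g.P), z d := by
    rw [← sum_filter_add_sum_filter_not (G.bd g.A) (fun d => d ∈ g.P), filter_mem_eq_inter,
      inter_eq_right.2 h.hP]
  have h2 : ∑ d ∈ g.P, z d = (g.P.card : ℝ) := by
    rw [card_eq_sum_ones, Nat.cast_sum]
    exact sum_congr rfl fun d hd => by rw [hI.one d hd, Nat.cast_one]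
  have h3 : ∑ v ∈ g.K, tk v = 3 * (g.K.card : ℝ) - (g.P.card : ℝ) := by
    rw [sum_congr rfl fun v hv => hI.tkv v hv, sum_sub_distrib, sum_const, nsmul_eq_mul]
    have h4 : (g.P.card : ℝ) = ∑ v ∈ g.K, ((gpv g v).card : ℝ) := by
      rw [card_eq_sum_card_fiberwise (f := g.ga) (s := g.P) (t := g.K)
        (fun d hd => mem_coe.2 (h.gaK d (mem_coe.1 hd))), Nat.cast_sum]
      rfl
    rw [h4]
    ring
  have h4 : G.val z t g.A = ∑ d ∈ G.bd g.A, z d + ∑ v ∈ g.A, t v := rfl
  linarith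

/-- **patterns**: exactly one port of every gadget vertex is used -/
theorem IGb.pat (hI : IGb g z tk) (h : GOk G g) {M : Finset D} (hM : (gad G g h).IsPM M)
    {v : V} (hv : v ∈ g.K) : ((gpv g v).filter fun d => d ∈ M).card = 1 := by
  have h1 := gad_one h hM hv
  rw [hI.E0, filter_empty, card_empty, add_zero] at h1
  rw [← h1]
  congr 1
  ext d
  rw [mem_filter, mem_gpv, mem_filter]
  tauto

/-- colours, general form -/
theorem IGb.pot (hI : IGb g z tk) (hw : G.Wt z t) (h : GOk G g) {K1 E1 : Finset D}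
    {p : V → ℝ} (hp : (gad G g h).Pot (gz g z ze) (gt G g z t tk) K1 E1 p) :
    (∀ d ∈ g.P, d ∉ K1 → d ∉ E1 → p (G.pi d) + p (g.ga d) = 0) ∧
      (∀ d ∈ G.bd g.A, d ∉ g.P → z d ≠ 0 → p (G.pi d) = 1) ∧
      (∀ v ∈ g.K, (gpv g v).card ≤ 2 → p v = 1) := by
  obtain ⟨-, h2, -, -, h5, h6, -⟩ := gad_pot h hw hp
  refine ⟨fun d hd hK hE => h5 d hd (by rw [hI.one d hd]; norm_num) hK hE, h2, ?_⟩
  intro v hv hc
  refine h6 v hv ?_
  rw [hI.tkv v hv]
  have h10 : ((gpv g v).card : ℝ) ≤ 2 := by exact_mod_cast hc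
  intro h11
  linarith

/-- **colours** -/
theorem IGk.pot (hI : IGk g z tk a) (hw : G.Wt z t) (h : GOk G g) {K1 E1 : Finset D}
    {p : V → ℝ} (hp : (gad G g h).Pot (gz g z ze) (gt G g z t tk) K1 E1 p) :
    (∀ d ∈ g.P, d ∉ K1 → d ∉ E1 → p (G.pi d) = -1) ∧
      (∀ d ∈ G.bd g.A, d ∉ g.P → z d ≠ 0 → p (G.pi d) = 1) := by
  obtain ⟨h5, h2, h6⟩ := hI.toIGb.pot hw h hp
  refine ⟨?_, h2⟩
  intro d hd hK hE
  have h7 := h5 d hd hK hE
  have h8 := h6 _ (h.gaK d hd) (by
    by_cases h10 : g.ga d = a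
    · rw [h10]
      exact hI.c2
    · exact (hI.c1 _ (h.gaK d hd) h10).trans (by norm_num))
  linarith

/-! ## Outer gadgets with one vertex -/

/-- weight of the dropped ports at `X` -/
noncomputable def gdx (G : MG V D) (g : GD V D) (z : D → ℝ) (X : Finset V) : ℝ :=
  ∑ d ∈ (G.bd g.A).filter (fun d => G.pi d ∈ X ∧ d ∉ g.P), z d

theorem gdx_nonneg (hw : G.Wt z t) (X : Finset V) : 0 ≤ gdx G g z X :=
  sum_nonneg fun d hd => hw.z0 d (mem_bd.1 (mem_filter.1 hd).1).1

/-- **values** of a gadget with one vertex -/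
theorem IGb.val_out (hI : IGb g z tk) (hw : G.Wt z t) (h : GOk G g) {ω : V} (hK : g.K = {ω})
    {X : Finset V} (hX : X ⊆ g.A) :
    G.val z t X + gsv G g X {ω} = G.val z t (X ∪ (G.vs \ g.A)) - G.val z t (G.vs \ g.A) + 3 +
      2 * gdx G g z X := by
  unfold gdx
  have h1 := hw.val_join h.hA hX
  have h2 : ∑ d ∈ (G.bd g.A).filter (fun d => G.pi d ∈ X), z d =
      (gnx G g X ω : ℝ) + ∑ d ∈ (G.bd g.A).filter (fun d => G.pi d ∈ X ∧ d ∉ g.P), z d := by
    rw [← sum_filter_add_sum_filter_not ((G.bd g.A).filter fun d => G.pi d ∈ X)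
      (fun d => d ∈ g.P), filter_filter, filter_filter]
    congr 1
    have h3 : (G.bd g.A).filter (fun d => G.pi d ∈ X ∧ d ∈ g.P) =
        (gpv g ω).filter fun d => G.pi d ∈ X := by
      ext d
      rw [mem_filter, mem_filter, mem_gpv]
      constructor
      · rintro ⟨-, h4, h5⟩
        have h6 := h.gaK d h5
        rw [hK, mem_singleton] at h6
        exact ⟨⟨h5, h6⟩, h4⟩
      · rintro ⟨⟨h4, -⟩, h5⟩
        exact ⟨h.hP h4, h5, h4⟩
    rw [h3]
    unfold gnx
    rw [card_eq_sum_ones, Nat.cast_sum]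
    exact sum_congr rfl fun d hd => by
      rw [hI.one d (mem_gpv.1 (mem_filter.1 hd).1).1, Nat.cast_one]
  unfold gsv
  rw [sum_singleton]
  linarith

/-- weights of a gadget with one vertex: the other side `W` has the smallest value among the odd
sets around it -/
theorem IGb.wt_out (hI : IGb g z tk) (hw : G.Wt z t) (h : GOk G g) {ω : V} (hK : g.K = {ω})
    (hm : ∀ X ⊆ g.A, Even X.card → G.val z t (G.vs \ g.A) ≤ G.val z t (X ∪ (G.vs \ g.A))) :
    (gad G g h).Wt (gz g z ze) (gt G g z t tk) := by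
  refine hI.wt hw h fun X hX Y hY ho => ?_
  rw [hK, subset_singleton_iff] at hY
  rcases hY with h1 | h1
  · rw [h1, card_empty, add_zero] at ho
    rw [h1]
    unfold gsv
    rw [sum_empty, add_zero]
    exact hw.cut X (hX.trans h.hA) ho
  · rw [h1, hI.val_out hw h hK hX]
    rw [h1, card_singleton] at ho
    have h2 := hm X hX (by
      rcases ho with ⟨k, hk⟩
      exact ⟨k, by omega⟩)
    have h3 := gdx_nonneg (g := g) hw X
    linarith

/-- strictness of a gadget with one vertex: odd sets -/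
theorem IGb.odd5_out (hI : IGb g z tk) (hw : G.Wt z t) (h : GOk G g) {ω : V} (hK : g.K = {ω})
    (ho : ∀ X ⊆ g.A, Odd X.card → X.card ≠ 1 → 5 ≤ G.val z t X)
    (hm : ∀ X ⊆ g.A, Even X.card → X.Nonempty →
      G.val z t (G.vs \ g.A) + 2 ≤ G.val z t (X ∪ (G.vs \ g.A)) + 2 * gdx G g z X) :
    ∀ X' ⊆ (gad G g h).vs, Odd X'.card → X'.card ≠ 1 →
      5 ≤ (gad G g h).val (gz g z ze) (gt G g z t tk) X' := by
  intro X' hX' hodd h1
  rw [hI.val_eq hw h hX']
  have hc := gad_card_split h hX'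
  have hX : X' ∩ g.A ⊆ g.A := inter_subset_right
  have hY : X' ∩ g.K ⊆ g.K := inter_subset_right
  rw [hK, subset_singleton_iff] at hY
  rw [hK] at hc ⊢
  rcases hY with h2 | h2
  · rw [h2, card_empty, add_zero] at hc
    rw [h2]
    unfold gsv
    rw [sum_empty, add_zero]
    exact ho _ hX (hc ▸ hodd) (hc ▸ h1)
  · rw [h2, card_singleton] at hc
    rw [h2, hI.val_out hw h hK hX]
    have h3 := hm _ hX (by
      rcases hodd with ⟨k, hk⟩
      exact ⟨k, by omega⟩) (card_pos.1 (by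
      rcases hodd with ⟨k, hk⟩
      omega))
    linarith

/-- strictness of a gadget with one vertex: even sets -/
theorem IGb.even4_out (hI : IGb g z tk) (hw : G.Wt z t) (h : GOk G g) {ω : V} (hK : g.K = {ω})
    (he : ∀ X ⊆ g.A, Even X.card → X.Nonempty → 4 ≤ G.val z t X)
    (hm : ∀ X ⊆ g.A, Odd X.card →
      G.val z t (G.vs \ g.A) + 1 ≤ G.val z t (X ∪ (G.vs \ g.A)) + 2 * gdx G g z X) :
    ∀ X' ⊆ (gad G g h).vs, Even X'.card → X'.Nonempty →
      4 ≤ (gad G g h).val (gz g z ze) (gt G g z t tk) X' := by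
  intro X' hX' hev h1
  rw [hI.val_eq hw h hX']
  have hc := gad_card_split h hX'
  have hX : X' ∩ g.A ⊆ g.A := inter_subset_right
  have hY : X' ∩ g.K ⊆ g.K := inter_subset_right
  rw [hK, subset_singleton_iff] at hY
  rw [hK] at hc ⊢
  rcases hY with h2 | h2
  · rw [h2, card_empty, add_zero] at hc
    rw [h2]
    unfold gsv
    rw [sum_empty, add_zero]
    exact he _ hX (hc ▸ hev) (card_pos.1 (hc ▸ card_pos.2 h1))
  · rw [h2, card_singleton] at hc
    rw [h2, hI.val_out hw h hK hX]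
    have h3 := hm _ hX (by
      rcases hev with ⟨k, hk⟩
      exact ⟨k - 1, by omega⟩)
    linarith

/-! ## Concrete gadgets -/

/-- a gadget without gadget darts -/
def gk (A K : Finset V) (P : Finset D) (ga : D → V) : GD V D where
  A := A
  K := K
  P := P
  E := ∅
  ga := ga
  be := fun d => d
  pe := ga

theorem gk_ok {A K : Finset V} {P : Finset D} {ga : D → V} (hA : A ⊆ G.vs)
    (hK : ∀ v ∈ K, v ∉ A) (hP : P ⊆ G.bd A) (hga : ∀ d ∈ P, ga d ∈ K) : GOk G (gk A K P ga) where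
  hA := hA
  dj := hK
  hP := hP
  gaK := hga
  hE := fun _ hd => absurd hd (notMem_empty _)
  beE := fun _ hd => absurd hd (notMem_empty _)
  bb := fun _ hd => absurd hd (notMem_empty _)
  peK := fun _ hd => absurd hd (notMem_empty _)
  nl := fun _ hd => absurd hd (notMem_empty _)

/-- the natural tokens of the gadget vertices -/
noncomputable def gkt (g : GD V D) (v : V) : ℝ := 3 - ((gpv g v).card : ℝ)

theorem gk_igb {A K : Finset V} {P : Finset D} {ga : D → V} (h1 : ∀ d ∈ P, z d = 1)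
    (h3 : ∀ v ∈ K, (P.filter fun d => ga d = v).card ≤ 3) :
    IGb (gk A K P ga) z (gkt (gk A K P ga)) where
  E0 := rfl
  one := h1
  tkv := fun _ _ => rfl
  c3 := h3

/-- one vertex `ω` with the ports `P` -/
def gOne (A : Finset V) (P : Finset D) (ω : V) : GD V D := gk A {ω} P fun _ => ω

theorem gOne_pv {A : Finset V} {P : Finset D} {ω : V} : gpv (gOne A P ω) ω = P := by
  ext d
  rw [mem_gpv]
  exact ⟨fun h => h.1, fun h => ⟨h, rfl⟩⟩

theorem gOne_ok {A : Finset V} {P : Finset D} {ω : V} (hA : A ⊆ G.vs) (hω : ω ∉ A)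
    (hP : P ⊆ G.bd A) : GOk G (gOne A P ω) :=
  gk_ok hA (fun _ hv => by rw [mem_singleton.1 hv]; exact hω) hP
    fun _ _ => mem_singleton_self _

theorem gOne_igb {A : Finset V} {P : Finset D} {ω : V} (h1 : ∀ d ∈ P, z d = 1)
    (h3 : P.card ≤ 3) : IGb (gOne A P ω) z (gkt (gOne A P ω)) :=
  gk_igb h1 fun v _ => (card_filter_le _ _).trans h3

/-- at most two ports -/
theorem gOne_igk {A : Finset V} {P : Finset D} {ω : V} (h1 : ∀ d ∈ P, z d = 1)
    (h3 : P.card ≤ 2) : IGk (gOne A P ω) z (gkt (gOne A P ω)) ω where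
  toIGb := gOne_igb h1 (h3.trans (by norm_num))
  c1 := fun _ hv hn => absurd (mem_singleton.1 hv) hn
  c2 := by
    rw [gOne_pv]
    exact h3

theorem gOne_x1 {A : Finset V} {f : D} {ω : V} : IGx G (gOne A {f} ω) z t ω where
  x1 := by
    rw [gOne_pv, card_singleton]
    intro h
    norm_num at h
  x2 := by
    rw [gOne_pv, card_singleton]
    intro h
    norm_num at h

theorem gOne_tau {A : Finset V} {P : Finset D} {ω : V} (hw : G.Wt z t) (h1 : ∀ d ∈ P, z d = 1)
    (h3 : P.card ≤ 3) (h : GOk G (gOne A P ω)) :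
    ∑ v ∈ (gad G (gOne A P ω) h).vs, gt G (gOne A P ω) z t (gkt (gOne A P ω)) v =
      G.val z t A + 3 - 2 * (P.card : ℝ) := by
  rw [(gOne_igb h1 h3).tau hw h]
  change G.val z t A + 3 * (({ω} : Finset V).card : ℝ) - 2 * (P.card : ℝ) = _
  rw [card_singleton]
  push_cast
  ring

/-- pattern of a gadget with one vertex: exactly one port is used -/
theorem gOne_pat {A : Finset V} {P : Finset D} {ω : V} (h1 : ∀ d ∈ P, z d = 1)
    (h3 : P.card ≤ 3) (h : GOk G (gOne A P ω)) {M : Finset D}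
    (hM : (gad G (gOne A P ω) h).IsPM M) : ∃ f ∈ P, ∀ d ∈ G.bd A, d ∈ M ↔ d = f := by
  have h2 := (gOne_igb (A := A) (ω := ω) h1 h3).pat h hM (mem_singleton_self ω)
  rw [gOne_pv] at h2
  obtain ⟨f, hf⟩ := card_eq_one.1 h2
  have h4 : f ∈ P.filter fun d => d ∈ M := by rw [hf]; exact mem_singleton_self f
  refine ⟨f, (mem_filter.1 h4).1, fun d hd => ⟨fun h5 => ?_, fun h5 => ?_⟩⟩
  · have h6 := gad_exit h hM hd h5
    have h7 : d ∈ P.filter fun d => d ∈ M := mem_filter.2 ⟨h6, h5⟩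
    rwa [hf, mem_singleton] at h7
  · rw [h5]
    exact (mem_filter.1 h4).2

/-- two vertices `a`, `b`; `r` at `b`, all other ports at `a` -/
noncomputable def gTwo (A : Finset V) (P : Finset D) (r : D) (a b : V) : GD V D :=
  gk A {a, b} P fun d => if d = r then b else a

theorem gTwo_ok {A : Finset V} {P : Finset D} {r : D} {a b : V} (hA : A ⊆ G.vs) (ha : a ∉ A)
    (hb : b ∉ A) (hP : P ⊆ G.bd A) : GOk G (gTwo A P r a b) := by
  refine gk_ok hA ?_ hP ?_
  · intro v hv
    rw [mem_insert, mem_singleton] at hv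
    rcases hv with rfl | rfl
    · exact ha
    · exact hb
  · intro d _
    change (if d = r then b else a) ∈ ({a, b} : Finset V)
    split_ifs
    · exact mem_insert_of_mem (mem_singleton_self b)
    · exact mem_insert_self a _

theorem gTwo_a {A : Finset V} {P : Finset D} {r : D} {a b : V} (hab : a ≠ b) :
    gpv (gTwo A P r a b) a = P.erase r := by
  ext d
  rw [mem_gpv, mem_erase]
  change (d ∈ P ∧ (if d = r then b else a) = a) ↔ _
  by_cases h : d = r
  · rw [if_pos h]
    exact ⟨fun h1 => absurd h1.2 (Ne.symm hab), fun h1 => absurd h h1.1⟩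
  · rw [if_neg h]
    exact ⟨fun h1 => ⟨h, h1.1⟩, fun h1 => ⟨h1.2, rfl⟩⟩

theorem gTwo_b {A : Finset V} {P : Finset D} {r : D} {a b : V} (hab : a ≠ b) (hr : r ∈ P) :
    gpv (gTwo A P r a b) b = {r} := by
  ext d
  rw [mem_gpv, mem_singleton]
  change (d ∈ P ∧ (if d = r then b else a) = b) ↔ _
  by_cases h : d = r
  · rw [if_pos h]
    exact ⟨fun _ => h, fun _ => ⟨h ▸ hr, rfl⟩⟩
  · rw [if_neg h]
    exact ⟨fun h1 => absurd h1.2 hab, fun h1 => absurd h1 h⟩

theorem gTwo_igk {A : Finset V} {P : Finset D} {r : D} {a b : V} (hab : a ≠ b) (hr : r ∈ P)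
    (h1 : ∀ d ∈ P, z d = 1) (h3 : P.card ≤ 3) :
    IGk (gTwo A P r a b) z (gkt (gTwo A P r a b)) a where
  E0 := rfl
  one := h1
  tkv := fun _ _ => rfl
  c3 := fun v _ => (card_filter_le _ _).trans h3
  c1 := by
    intro v hv hn
    have h2 : v = b := by
      rcases mem_insert.1 hv with h2 | h2
      · exact absurd h2 hn
      · exact mem_singleton.1 h2
    rw [h2, gTwo_b hab hr, card_singleton]
  c2 := by
    rw [gTwo_a hab, card_erase_of_mem hr]
    omega

theorem gTwo_tau {A : Finset V} {P : Finset D} {r : D} {a b : V} (hab : a ≠ b) (hr : r ∈ P)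
    (hw : G.Wt z t) (h1 : ∀ d ∈ P, z d = 1) (h3 : P.card ≤ 3) (h : GOk G (gTwo A P r a b)) :
    ∑ v ∈ (gad G (gTwo A P r a b) h).vs, gt G (gTwo A P r a b) z t (gkt (gTwo A P r a b)) v =
      G.val z t A + 6 - 2 * (P.card : ℝ) := by
  rw [(gTwo_igk hab hr h1 h3).toIGb.tau hw h]
  change G.val z t A + 3 * (({a, b} : Finset V).card : ℝ) - 2 * (P.card : ℝ) = _
  rw [card_pair hab]
  push_cast
  ring

/-- pattern: `r` and exactly one other port -/
theorem gTwo_pat {A : Finset V} {P : Finset D} {r : D} {a b : V} (hab : a ≠ b) (hr : r ∈ P)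
    (h1 : ∀ d ∈ P, z d = 1) (h3 : P.card ≤ 3) (h : GOk G (gTwo A P r a b)) {M : Finset D}
    (hM : (gad G (gTwo A P r a b) h).IsPM M) :
    ∃ f ∈ P, f ≠ r ∧ ∀ d ∈ G.bd A, d ∈ M ↔ d = f ∨ d = r := by
  have hI := (gTwo_igk (A := A) hab hr h1 h3).toIGb
  have h2 := hI.pat h hM (mem_insert_self a _)
  have h4 := hI.pat h hM (mem_insert_of_mem (mem_singleton_self b))
  rw [gTwo_a hab] at h2
  rw [gTwo_b hab hr] at h4
  obtain ⟨f, hf⟩ := card_eq_one.1 h2
  obtain ⟨e, he⟩ := card_eq_one.1 h4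
  have h5 : f ∈ (P.erase r).filter fun d => d ∈ M := by rw [hf]; exact mem_singleton_self f
  have h6 : e ∈ ({r} : Finset D).filter fun d => d ∈ M := by rw [he]; exact mem_singleton_self e
  obtain ⟨h7, h8⟩ := mem_filter.1 h5
  obtain ⟨h9, h10⟩ := mem_filter.1 h6
  rw [mem_singleton] at h9
  subst h9
  refine ⟨f, (mem_erase.1 h7).2, (mem_erase.1 h7).1, fun d hd => ⟨fun h11 => ?_, ?_⟩⟩
  · have h12 := gad_exit h hM hd h11
    by_cases h13 : d = e
    · exact Or.inr h13
    · have h14 : d ∈ (P.erase e).filter fun d => d ∈ M :=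
        mem_filter.2 ⟨mem_erase.2 ⟨h13, h12⟩, h11⟩
      rw [hf, mem_singleton] at h14
      exact Or.inl h14
  · rintro (h11 | h11)
    · rw [h11]
      exact h8
    · rw [h11]
      exact h10

/-- three vertices `a`, `b`, `c`; `r` at `b`, `s` at `c`, all other ports at `a` -/
noncomputable def gThr (A : Finset V) (P : Finset D) (r s : D) (a b c : V) : GD V D :=
  gk A {a, b, c} P fun d => if d = r then b else if d = s then c else a

/-- the three new vertices, the two single ports -/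
structure ThrOk (P : Finset D) (r s : D) (a b c : V) : Prop where
  ab : a ≠ b
  ac : a ≠ c
  bc : b ≠ c
  rs : r ≠ s
  hr : r ∈ P
  hs : s ∈ P
  h4 : P.card ≤ 4

theorem gThr_ok {A : Finset V} {P : Finset D} {r s : D} {a b c : V} (hA : A ⊆ G.vs) (ha : a ∉ A)
    (hb : b ∉ A) (hc : c ∉ A) (hP : P ⊆ G.bd A) : GOk G (gThr A P r s a b c) := by
  refine gk_ok hA ?_ hP ?_
  · intro v hv
    rw [mem_insert, mem_insert, mem_singleton] at hv
    rcases hv with rfl | rfl | rfl
    · exact ha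
    · exact hb
    · exact hc
  · intro d _
    change (if d = r then b else if d = s then c else a) ∈ ({a, b, c} : Finset V)
    rw [mem_insert, mem_insert, mem_singleton]
    split_ifs
    · exact Or.inr (Or.inl rfl)
    · exact Or.inr (Or.inr rfl)
    · exact Or.inl rfl

theorem gThr_a {A : Finset V} {P : Finset D} {r s : D} {a b c : V}
    (q : ThrOk P r s a b c) : gpv (gThr A P r s a b c) a = (P.erase r).erase s := by
  ext d
  rw [mem_gpv, mem_erase, mem_erase]
  change (d ∈ P ∧ (if d = r then b else if d = s then c else a) = a) ↔ _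
  by_cases h : d = r
  · rw [if_pos h]
    exact ⟨fun h1 => absurd h1.2 (Ne.symm q.ab), fun h1 => absurd h h1.2.1⟩
  · rw [if_neg h]
    by_cases h2 : d = s
    · rw [if_pos h2]
      exact ⟨fun h1 => absurd h1.2 (Ne.symm q.ac), fun h1 => absurd h2 h1.1⟩
    · rw [if_neg h2]
      exact ⟨fun h1 => ⟨h2, h, h1.1⟩, fun h1 => ⟨h1.2.2, rfl⟩⟩

theorem gThr_b {A : Finset V} {P : Finset D} {r s : D} {a b c : V}
    (q : ThrOk P r s a b c) : gpv (gThr A P r s a b c) b = {r} := by
  ext d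
  rw [mem_gpv, mem_singleton]
  change (d ∈ P ∧ (if d = r then b else if d = s then c else a) = b) ↔ _
  by_cases h : d = r
  · rw [if_pos h]
    exact ⟨fun _ => h, fun _ => ⟨h ▸ q.hr, rfl⟩⟩
  · rw [if_neg h]
    refine ⟨fun h1 => ?_, fun h1 => absurd h1 h⟩
    have h2 := h1.2
    split_ifs at h2
    · exact absurd h2 (Ne.symm q.bc)
    · exact absurd h2 q.ab

theorem gThr_c {A : Finset V} {P : Finset D} {r s : D} {a b c : V}
    (q : ThrOk P r s a b c) : gpv (gThr A P r s a b c) c = {s} := by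
  ext d
  rw [mem_gpv, mem_singleton]
  change (d ∈ P ∧ (if d = r then b else if d = s then c else a) = c) ↔ _
  by_cases h : d = r
  · rw [if_pos h]
    exact ⟨fun h1 => absurd h1.2 q.bc, fun h1 => absurd (h.symm.trans h1) q.rs⟩
  · rw [if_neg h]
    by_cases h2 : d = s
    · rw [if_pos h2]
      exact ⟨fun _ => h2, fun _ => ⟨h2 ▸ q.hs, rfl⟩⟩
    · rw [if_neg h2]
      exact ⟨fun h1 => absurd h1.2 q.ac, fun h1 => absurd h1 h2⟩

theorem gThr_acard {A : Finset V} {P : Finset D} {r s : D} {a b c : V}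
    (q : ThrOk P r s a b c) : (gpv (gThr A P r s a b c) a).card + 2 = P.card := by
  rw [gThr_a q]
  have h1 := card_erase_add_one q.hr
  have h2 := card_erase_add_one (mem_erase.2 ⟨Ne.symm q.rs, q.hs⟩ : s ∈ P.erase r)
  omega

theorem gThr_igk {A : Finset V} {P : Finset D} {r s : D} {a b c : V}
    (q : ThrOk P r s a b c) (h1 : ∀ d ∈ P, z d = 1) :
    IGk (gThr A P r s a b c) z (gkt (gThr A P r s a b c)) a where
  E0 := rfl
  one := h1
  tkv := fun _ _ => rfl
  c3 := by
    intro v hv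
    rcases mem_insert.1 hv with h2 | h2
    · rw [h2]
      have h3 := gThr_acard (A := A) q
      have h4 := q.h4
      omega
    · rcases mem_insert.1 h2 with h3 | h3
      · rw [h3, gThr_b q, card_singleton]
        norm_num
      · rw [mem_singleton.1 h3, gThr_c q, card_singleton]
        norm_num
  c1 := by
    intro v hv hn
    rcases mem_insert.1 hv with h2 | h2
    · exact absurd h2 hn
    · rcases mem_insert.1 h2 with h3 | h3
      · rw [h3, gThr_b q, card_singleton]
      · rw [mem_singleton.1 h3, gThr_c q, card_singleton]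
  c2 := by
    have h3 := gThr_acard (A := A) q
    have h4 := q.h4
    omega

theorem gThr_tau {A : Finset V} {P : Finset D} {r s : D} {a b c : V} (q : ThrOk P r s a b c)
    (hw : G.Wt z t) (h1 : ∀ d ∈ P, z d = 1) (h : GOk G (gThr A P r s a b c)) :
    ∑ v ∈ (gad G (gThr A P r s a b c) h).vs,
      gt G (gThr A P r s a b c) z t (gkt (gThr A P r s a b c)) v =
      G.val z t A + 9 - 2 * (P.card : ℝ) := by
  rw [(gThr_igk q h1).toIGb.tau hw h]
  change G.val z t A + 3 * (({a, b, c} : Finset V).card : ℝ) - 2 * (P.card : ℝ) = _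
  rw [card_eq_three.2 ⟨a, b, c, q.ab, q.ac, q.bc, rfl⟩]
  push_cast
  ring

/-- pattern: `r`, `s` and exactly one other port -/
theorem gThr_pat {A : Finset V} {P : Finset D} {r s : D} {a b c : V} (q : ThrOk P r s a b c)
    (h1 : ∀ d ∈ P, z d = 1) (h : GOk G (gThr A P r s a b c)) {M : Finset D}
    (hM : (gad G (gThr A P r s a b c) h).IsPM M) :
    ∃ f ∈ P, f ≠ r ∧ f ≠ s ∧ ∀ d ∈ G.bd A, d ∈ M ↔ d = f ∨ d = r ∨ d = s := by
  have hI := (gThr_igk (A := A) q h1).toIGb
  have h2 := hI.pat h hM (mem_insert_self a _)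
  have h3 := hI.pat h hM (mem_insert_of_mem (mem_insert_self b _))
  have h4 := hI.pat h hM (mem_insert_of_mem (mem_insert_of_mem (mem_singleton_self c)))
  rw [gThr_a q] at h2
  rw [gThr_b q] at h3
  rw [gThr_c q] at h4
  obtain ⟨f, hf⟩ := card_eq_one.1 h2
  obtain ⟨e, he⟩ := card_eq_one.1 h3
  obtain ⟨e', he'⟩ := card_eq_one.1 h4
  have h5 : f ∈ ((P.erase r).erase s).filter fun d => d ∈ M := by
    rw [hf]; exact mem_singleton_self f
  have h6 : e ∈ ({r} : Finset D).filter fun d => d ∈ M := by rw [he]; exact mem_singleton_self e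
  have h6' : e' ∈ ({s} : Finset D).filter fun d => d ∈ M := by
    rw [he']; exact mem_singleton_self e'
  obtain ⟨h7, h8⟩ := mem_filter.1 h5
  obtain ⟨h9, h10⟩ := mem_filter.1 h6
  obtain ⟨h9', h10'⟩ := mem_filter.1 h6'
  rw [mem_singleton] at h9 h9'
  rw [mem_erase, mem_erase] at h7
  refine ⟨f, h7.2.2, h7.2.1, h7.1, fun d hd => ⟨fun h11 => ?_, ?_⟩⟩
  · have h12 := gad_exit h hM hd h11
    by_cases h13 : d = r
    · exact Or.inr (Or.inl h13)
    · by_cases h14 : d = s
      · exact Or.inr (Or.inr h14)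
      · have h15 : d ∈ ((P.erase r).erase s).filter fun d => d ∈ M :=
          mem_filter.2 ⟨mem_erase.2 ⟨h14, mem_erase.2 ⟨h13, h12⟩⟩, h11⟩
        rw [hf, mem_singleton] at h15
        exact Or.inl h15
  · rintro (h11 | h11 | h11)
    · rw [h11]
      exact h8
    · rw [h11, ← h9]
      exact h10
    · rw [h11, ← h9']
      exact h10'

end MG

end RH
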