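import Pool.Agent.Lib.RH.GTri
import Pool.Agent.Lib.RH.S6Gad

/-! The outer gadgets of a set `W` of value 5 with one token, at the level of strict 6-states
(helper30's `Gam`, `Lam`, `O3`): a half matching of `A = vs - W` with a prescribed pattern, or a
smaller strict 6-state. -/

set_option autoImplicit false

namespace RH

open Finset Classical

namespace MG

variable {V D : Type*} {G : MG V D} {g : GD V D} {t tk : V → ℝ}
variable {fr fr1 : Finset V} {F : Finset D} {jm A X Y : Finset V} {a : ℕ}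
variable {w1 w2 w3 : V} {x y s : ℝ}

/-- the table of a gadget graph from its strictness, odd sets -/
theorem K3.tabO (k : K3 G g one1 one1 tk w1 w2 w3 x y s)
    (h5 : FiveP (gad G g k.ok) (gz g one1 one1) (gt G g one1 t tk)) :
    ∀ X ⊆ g.A, ∀ Y ⊆ g.K, Odd (X.card + Y.card) → X.card + Y.card ≠ 1 →
      5 ≤ G.val one1 t X + gvk g one1 one1 tk Y - 2 * gpw G g one1 X Y := by
  intro X hX Y hY ho h1
  have hd : Disjoint X Y := disjoint_left.2 fun v h2 h3 => k.ok.dj _ (hY h3) (hX h2)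
  have h2 := h5 (X ∪ Y) (union_subset_union hX hY) (by rw [card_union_of_disjoint hd]; exact ho)
    (by rw [card_union_of_disjoint hd]; have := Nat.odd_iff.1 ho; omega)
  rwa [gad_val k.ok (fun _ _ => rfl) one1 tk hX hY] at h2

/-- the table of a gadget graph from its strictness, even sets -/
theorem K3.tabE (k : K3 G g one1 one1 tk w1 w2 w3 x y s)
    (h4 : FourP (gad G g k.ok) (gz g one1 one1) (gt G g one1 t tk)) :
    ∀ X ⊆ g.A, ∀ Y ⊆ g.K, Even (X.card + Y.card) → (X.Nonempty ∨ Y.Nonempty) →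
      (X ≠ g.A ∨ Y ≠ g.K) →
      4 ≤ G.val one1 t X + gvk g one1 one1 tk Y - 2 * gpw G g one1 X Y := by
  intro X hX Y hY ho h1 h3
  have hd : Disjoint X Y := disjoint_left.2 fun v h2 h3 => k.ok.dj _ (hY h3) (hX h2)
  have h2 := h4 (X ∪ Y) (union_subset_union hX hY) (by rw [card_union_of_disjoint hd]; exact ho)
    (union_nonempty.2 h1) ?_
  · rwa [gad_val k.ok (fun _ _ => rfl) one1 tk hX hY] at h2
  · intro he
    change X ∪ Y = g.A ∪ g.K at he
    rcases h3 with h3 | h3
    · refine h3 (Subset.antisymm hX fun v hv => ?_)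
      have h5 : v ∈ X ∪ Y := by rw [he]; exact mem_union_left _ hv
      rcases mem_union.1 h5 with h6 | h6
      · exact h6
      · exact absurd hv (k.ok.dj _ (hY h6))
    · refine h3 (Subset.antisymm hY fun v hv => ?_)
      have h5 : v ∈ X ∪ Y := by rw [he]; exact mem_union_right _ hv
      rcases mem_union.1 h5 with h6 | h6
      · exact absurd (hX h6) (k.ok.dj _ hv)
      · exact h6

theorem S6.fiveP (h : S6 G t fr F jm a) : FiveP G one1 t := fun X hX ho h3 =>
  h.odd X hX ho (by omega)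

theorem S6.fourP (h : S6 G t fr F jm a) : FourP G one1 t := h.evn

/-- no port is dropped -/
theorem gdp_all (hP : g.P = G.bd g.A) (v : V) : gdp G g v = ∅ := by
  unfold gdp
  rw [filter_eq_empty_iff, hP]
  rintro d hd ⟨h1, -⟩
  exact h1 hd

/-- data of a set `W = vs - A` of value 5 with one token and four exits, not crossed by F-darts, the
star outside -/
structure Blk (G : MG V D) (t : V → ℝ) (fr : Finset V) (F : Finset D) (jm A : Finset V) : Prop where
  hA : A ⊆ G.vs
  odd : Odd (G.vs \ A).card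
  big : 5 ≤ (G.vs \ A).card
  val : G.val one1 t (G.vs \ A) = 5
  tok : ∑ v ∈ A, t v = 5
  hF : ∀ d ∈ F, G.pi d ∈ A → G.pi (G.al d) ∈ A
  hj : jm ⊆ A

namespace Blk

variable (b : Blk G t fr F jm A)
include b

theorem keep {z : D → ℝ} (hS : G.FrS z fr F jm) (hg : g.A = A) : FOk G g fr F (fr ∩ A) where
  sub := inter_subset_left
  inA := by rw [hg]; exact inter_subset_right
  clo := fun d hd hp => mem_inter.2 ⟨hS.Ffr _ (hS.Fal d hd), b.hF d hd (mem_inter.1 hp).2⟩

theorem gjm_all {z : D → ℝ} (hS : G.FrS z fr F jm) (hP : g.P = G.bd g.A) :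
    gjm G g jm (fr ∩ A) = jm := by
  unfold gjm
  ext v
  rw [mem_filter, mem_inter, gdp_all hP]
  constructor
  · rintro ⟨-, h1 | h1⟩
    · exact h1
    · exact absurd h1 not_nonempty_empty
  · intro h1
    exact ⟨⟨hS.jms h1, b.hj h1⟩, Or.inl h1⟩

theorem cardA (he : Even G.vs.card) : A.card % 2 = 1 := by
  have h1 := card_sdiff_add_card_eq_card b.hA
  have h2 := Nat.odd_iff.1 b.odd
  have h3 := Nat.even_iff.1 he
  omega

/-- a three-vertex gadget with strict tables: a half matching of `A` from a good matching of the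
gadget graph, or a strict 6-state -/
theorem k3_or (h : S6 G t fr F jm a) (k : K3 G g one1 one1 tk w1 w2 w3 x y s) (hgA : g.A = A)
    (hP : g.P = G.bd g.A) (tk0 : ∀ v ∈ g.K, 0 ≤ tk v) (htk : ∑ v ∈ g.K, tk v = 1)
    (h5 : FiveP (gad G g k.ok) (gz g one1 one1) (gt G g one1 t tk))
    (h4 : FourP (gad G g k.ok) (gz g one1 one1) (gt G g one1 t tk)) :
    (∃ M, (gad G g k.ok).IsPM M ∧ G.GHalf one1 fr F jm A (G.resM A M)) ∨
      S6 (gad G g k.ok) (gt G g one1 t tk) (fr ∩ A) (F.filter fun d => G.pi d ∈ fr ∩ A) jm a := by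
  have hf := b.keep h.fresh hgA
  have hj := b.gjm_all h.fresh hP
  have h2 : gjm G g jm (fr ∩ A) = ∅ ∨ (gjm G g jm (fr ∩ A)).card = 2 := by
    rw [hj]
    exact h.jm2
  have kd : ∀ v ∈ g.K, gvk g one1 one1 tk {v} = 3 := by
    intro v hv
    rw [gvk_deg k.kd (singleton_subset_iff.2 hv), card_singleton]
    have h6 : g.E.filter (fun d => g.pe d ∈ ({v} : Finset V) ∧ g.pe (g.be d) ∈ ({v} : Finset V)) =
        ∅ := by
      rw [filter_eq_empty_iff]
      rintro d hd ⟨h7, h8⟩
      rw [mem_singleton] at h7 h8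
      exact k.ok.nl d hd (h8.trans h7.symm)
    rw [h6, sum_empty]
    norm_num
  have hK3 : g.K.card = 3 := by
    rw [k.hK, card_insert_of_notMem, card_insert_of_notMem, card_singleton]
    · rw [mem_singleton]; exact k.n23
    · rw [mem_insert, mem_singleton, not_or]; exact ⟨k.n12, k.n13⟩
  have he : Even (g.A.card + g.K.card) := by
    have h6 := b.cardA h.even
    rw [hgA, hK3, Nat.even_iff]
    omega
  have ht : ∑ v ∈ g.A, t v + (((G.bd g.A).filter fun d => d ∉ g.P).card : ℝ) +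
      ∑ v ∈ g.K, tk v = 6 := by
    have h6 : (G.bd g.A).filter (fun d => d ∉ g.P) = ∅ := by
      rw [filter_eq_empty_iff, hP]
      exact fun d hd h7 => h7 hd
    rw [h6, htk, hgA, b.tok]
    norm_num
  rcases h.gad k.ok hf he tk0 kd h2 ht (k.tabO h5) (k.tabE h4) with ⟨M, hM⟩ | h6
  · left
    refine ⟨M, hM.pm, ?_⟩
    have hM' : (MG.gad G g k.ok).GoodS (gz g one1 one1) (fr ∩ A)
        (F.filter fun d => G.pi d ∈ fr ∩ A) (gjm G g jm (fr ∩ A)) M := by
      rw [gz_one]
      exact hM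
    have h7 := h.half k.ok hf (fun X hX hXA _ => subset_inter hX.sub (hgA ▸ hXA)) h2 hM'
    rwa [hgA] at h7
  · right
    rwa [hj] at h6

/-- port table -/
theorem fct (h : S6 G t fr F jm a) (k : K3 G g one1 one1 tk w1 w2 w3 x y s) (hgA : g.A = A)
    (hP : g.P = G.bd g.A) : ∀ X ⊆ g.A, TriF G one1 t g.A g.P g.ga w1 w2 w3 X := by
  intro X hX
  have h1 := b.odd
  have h2 := b.big
  have h3 := b.val
  rw [← hgA] at h1 h2 h3
  exact k.facts h.wt h.fiveP h.fourP hP h1 (by omega) h3 hX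

/-- port table, any weights of the gadget -/
theorem fct' {ze : D → ℝ} (h : S6 G t fr F jm a) (k : K3 G g one1 ze tk w1 w2 w3 x y s)
    (hgA : g.A = A) (hP : g.P = G.bd g.A) :
    ∀ X ⊆ g.A, TriF G one1 t g.A g.P g.ga w1 w2 w3 X := by
  intro X hX
  have h1 := b.odd
  have h2 := b.big
  have h3 := b.val
  rw [← hgA] at h1 h2 h3
  exact k.facts h.wt h.fiveP h.fourP hP h1 (by omega) h3 hX

end Blk

/-- weights 1: number of ports -/
theorem qP_one {P : Finset D} {ga : D → V} {X : Finset V} {w : V} :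
    qP G P ga one1 X w = ((P.filter fun d => G.pi d ∈ X ∧ ga d = w).card : ℝ) := by
  unfold qP one1
  rw [sum_const, nsmul_eq_mul, mul_one]

theorem pP_one {P : Finset D} {ga : D → V} {w : V} :
    pP P ga one1 w = ((P.filter fun d => ga d = w).card : ℝ) := by
  unfold pP one1
  rw [sum_const, nsmul_eq_mul, mul_one]

theorem qP_pair {P : Finset D} {ga : D → V} {X : Finset V} {w : V} {p q : D} (hpq : p ≠ q)
    (hw : P.filter (fun d => ga d = w) = {p, q}) :
    qP G P ga one1 X w = (if G.pi p ∈ X then 1 else 0) + (if G.pi q ∈ X then 1 else 0) := by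
  unfold qP one1
  have h1 : P.filter (fun d => G.pi d ∈ X ∧ ga d = w) =
      ({p, q} : Finset D).filter fun d => G.pi d ∈ X := by
    rw [← hw, filter_filter]
    refine filter_congr fun d _ => ?_
    exact and_comm
  rw [h1, sum_filter, sum_insert (by rw [mem_singleton]; exact hpq), sum_singleton]

theorem qP_sing {P : Finset D} {ga : D → V} {X : Finset V} {w : V} {p : D}
    (hw : P.filter (fun d => ga d = w) = {p}) :
    qP G P ga one1 X w = if G.pi p ∈ X then 1 else 0 := by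
  unfold qP one1
  have h1 : P.filter (fun d => G.pi d ∈ X ∧ ga d = w) =
      ({p} : Finset D).filter fun d => G.pi d ∈ X := by
    rw [← hw, filter_filter]
    refine filter_congr fun d _ => ?_
    exact and_comm
  rw [h1, sum_filter, sum_singleton]

/-- two different vertices in a set with one element -/
private theorem two_one {X : Finset V} {u v : V} (hX : X.card = 1) (huv : u ≠ v) :
    (if u ∈ X then (1 : ℝ) else 0) + (if v ∈ X then 1 else 0) ≤ 1 := by
  obtain ⟨c, rfl⟩ := card_eq_one.1 hX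
  by_cases h1 : u = c
  · have h2 : v ≠ c := fun h => huv (h1.trans h.symm)
    simp [h1, h2]
  · simp only [mem_singleton, h1, if_false, zero_add]
    split_ifs <;> norm_num

private theorem ite_le (c : Prop) [Decidable c] : (if c then (1 : ℝ) else 0) ≤ 1 := by
  split_ifs <;> norm_num

private theorem ite_nn (c : Prop) [Decidable c] : 0 ≤ (if c then (1 : ℝ) else 0) := by
  split_ifs <;> norm_num

/-- **Gam(pq|rs)** at the level of strict 6-states -/
theorem S6.gam (h : S6 G t fr F jm a) (b : Blk G t fr F jm A) {p q r u : D}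
    (hbd : G.bd A = {p, q, r, u}) (hnd : [p, q, r, u].Nodup) {e1 e1' e2 e2' : D}
    (k : PthOk G A (G.bd A) (fun d => if d = p ∨ d = q then w1 else w3) w1 w2 w3 e1 e1' e2 e2')
    (hpq : G.pi p ≠ G.pi q) (hru : G.pi r ≠ G.pi u)
    (epq : ∀ X ⊆ A, Even X.card → G.pi p ∈ X → G.pi q ∈ X → G.val one1 t X ≠ 4)
    (eru : ∀ X ⊆ A, Even X.card → G.pi r ∈ X → G.pi u ∈ X → G.val one1 t X ≠ 4) :
    (∃ M, (MG.gad G _ k.ok).IsPM M ∧ G.GHalf one1 fr F jm A (G.resM A M)) ∨
      S6 (MG.gad G _ k.ok) (gt G (pthG A (G.bd A) (fun d => if d = p ∨ d = q then w1 else w3)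
        w1 w2 w3 e1 e1' e2 e2') one1 t (triT w1 w2 0 1 0)) (fr ∩ A)
        (F.filter fun d => G.pi d ∈ fr ∩ A) jm a := by
  have hn : p ≠ q ∧ p ≠ r ∧ p ≠ u ∧ q ≠ r ∧ q ≠ u ∧ r ≠ u := by
    simp only [List.nodup_cons, List.mem_cons, List.not_mem_nil, or_false, not_or, not_false_iff,
      List.nodup_nil, and_true] at hnd
    obtain ⟨⟨h1, h2, h3⟩, ⟨h4, h5⟩, h6⟩ := hnd
    exact ⟨h1, h2, h3, h4, h5, h6⟩
  obtain ⟨n1, n2, n3, n4, n5, n6⟩ := hn
  have f1 : (G.bd A).filter (fun d => (if d = p ∨ d = q then w1 else w3) = w1) = {p, q} := by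
    ext d
    rw [mem_filter, hbd]
    simp only [mem_insert, mem_singleton]
    constructor
    · rintro ⟨-, h2⟩
      by_contra h3
      rw [if_neg h3] at h2
      exact k.n13 h2.symm
    · intro h2
      exact ⟨by tauto, if_pos h2⟩
  have f3 : (G.bd A).filter (fun d => (if d = p ∨ d = q then w1 else w3) = w3) = {r, u} := by
    ext d
    rw [mem_filter, hbd]
    simp only [mem_insert, mem_singleton]
    constructor
    · rintro ⟨h1, h2⟩
      have h3 : ¬ (d = p ∨ d = q) := by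
        intro h3
        rw [if_pos h3] at h2
        exact k.n13 h2
      tauto
    · intro h2
      have h3 : ¬ (d = p ∨ d = q) := by
        rcases h2 with rfl | rfl
        · exact fun h => h.elim (fun h => n2 h.symm) fun h => n4 h.symm
        · exact fun h => h.elim (fun h => n3 h.symm) fun h => n5 h.symm
      exact ⟨by tauto, if_neg h3⟩
  have f2 : (G.bd A).filter (fun d => (if d = p ∨ d = q then w1 else w3) = w2) = ∅ := by
    rw [filter_eq_empty_iff]
    intro d _ h2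
    split_ifs at h2
    · exact k.n12 h2
    · exact k.n23 h2.symm
  have p1 : pP (G.bd A) (fun d => if d = p ∨ d = q then w1 else w3) one1 w1 = 2 := by
    rw [pP_one, f1, card_pair n1]
    norm_num
  have p2 : pP (G.bd A) (fun d => if d = p ∨ d = q then w1 else w3) one1 w2 = 0 := by
    rw [pP_one, f2, card_empty]
    norm_num
  have p3 : pP (G.bd A) (fun d => if d = p ∨ d = q then w1 else w3) one1 w3 = 2 := by
    rw [pP_one, f3, card_pair n6]
    norm_num
  have t1 : triT w1 w2 0 1 0 w1 = 0 := by unfold triT; rw [if_pos rfl]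
  have t2 : triT w1 w2 0 1 0 w2 = 1 := by
    unfold triT; rw [if_neg k.n12.symm, if_pos rfl]
  have t3 : triT w1 w2 0 1 0 w3 = 0 := by
    unfold triT; rw [if_neg k.n13.symm, if_neg k.n23.symm]
  have K := k.k3 (z := one1) (tk := triT w1 w2 0 1 0) (by rw [p1]; norm_num : _ = (3 : ℝ))
    (by rw [p2]; norm_num : _ = (3 : ℝ)) (by rw [p3]; norm_num : _ = (3 : ℝ)) t1 t2 t3
  have hF := b.fct' h K rfl rfl
  have hqq : ∀ X : Finset V, ∀ c d : D, G.pi c ≠ G.pi d → (∀ X ⊆ A, Even X.card → G.pi c ∈ X →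
      G.pi d ∈ X → G.val one1 t X ≠ 4) → X ⊆ A → Even X.card → 2 ≤ X.card →
      2 + 2 * ((if G.pi c ∈ X then 1 else 0) + (if G.pi d ∈ X then 1 else 0)) ≤
        G.val one1 t X := by
    intro X c d _ hcd hX he h2
    have hne : X.Nonempty := card_pos.1 (by omega)
    have hX' : X ≠ G.vs := by
      rintro rfl
      have h3 := b.big
      rw [Subset.antisymm hX b.hA, Finset.sdiff_self, card_empty] at h3
      omega
    rcases h.evn_or (hX.trans b.hA) he hne hX' with h4 | h4
    · have h5 : ¬ (G.pi c ∈ X ∧ G.pi d ∈ X) := fun h6 => hcd X hX he h6.1 h6.2 h4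
      rw [h4]
      by_cases i1 : G.pi c ∈ X <;> by_cases i2 : G.pi d ∈ X
      · exact absurd ⟨i1, i2⟩ h5
      · simp only [i1, i2, if_true, if_false]; norm_num
      · simp only [i1, i2, if_true, if_false]; norm_num
      · simp only [i1, i2, if_false]; norm_num
    · have h5 := ite_le (G.pi c ∈ X)
      have h6 := ite_le (G.pi d ∈ X)
      linarith
  have hs := K.gam (fun _ _ => rfl) hF p1 p2 p3 (by change 3 ≤ ∑ v ∈ A, t v; rw [b.tok]; norm_num)
    (fun X hX h1 => by
      constructor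
      · change qP G (G.bd A) (fun d => if d = p ∨ d = q then w1 else w3) one1 X w1 ≤ 1
        rw [qP_pair n1 f1]
        exact two_one h1 hpq
      · change qP G (G.bd A) (fun d => if d = p ∨ d = q then w1 else w3) one1 X w3 ≤ 1
        rw [qP_pair n6 f3]
        exact two_one h1 hru)
    (fun X hX he h2 => by
      constructor
      · change 2 + 2 * qP G (G.bd A) (fun d => if d = p ∨ d = q then w1 else w3) one1 X w1 ≤ _
        rw [qP_pair n1 f1]
        exact hqq X p q hpq epq hX he h2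
      · change 2 + 2 * qP G (G.bd A) (fun d => if d = p ∨ d = q then w1 else w3) one1 X w3 ≤ _
        rw [qP_pair n6 f3]
        exact hqq X r u hru eru hX he h2)
  refine b.k3_or h K rfl rfl ?_ ?_ hs.1 hs.2
  · intro v hv
    change v ∈ ({w1, w2, w3} : Finset V) at hv
    simp only [mem_insert, mem_singleton] at hv
    rcases hv with rfl | rfl | rfl
    · rw [t1]
    · rw [t2]; norm_num
    · rw [t3]
  · change ∑ v ∈ ({w1, w2, w3} : Finset V), _ = _
    rw [sum_insert, sum_insert, sum_singleton, t1, t2, t3]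
    · norm_num
    · rw [mem_singleton]; exact k.n23
    · rw [mem_insert, mem_singleton, not_or]; exact ⟨k.n12, k.n13⟩

/-- even sets which do not contain two given ends with value 4 -/
theorem S6.pair_le (h : S6 G t fr F jm a) (b : Blk G t fr F jm A) {c d : D}
    (hcd : ∀ X ⊆ A, Even X.card → G.pi c ∈ X → G.pi d ∈ X → G.val one1 t X ≠ 4)
    (hX : X ⊆ A) (he : Even X.card) (h2 : 2 ≤ X.card) :
    2 + 2 * ((if G.pi c ∈ X then 1 else 0) + (if G.pi d ∈ X then 1 else 0)) ≤
      G.val one1 t X := by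
  have hne : X.Nonempty := card_pos.1 (by omega)
  have hX' : X ≠ G.vs := by
    rintro rfl
    have h3 := b.big
    rw [Subset.antisymm hX b.hA, Finset.sdiff_self, card_empty] at h3
    omega
  rcases h.evn_or (hX.trans b.hA) he hne hX' with h4 | h4
  · have h5 : ¬ (G.pi c ∈ X ∧ G.pi d ∈ X) := fun h6 => hcd X hX he h6.1 h6.2 h4
    rw [h4]
    by_cases i1 : G.pi c ∈ X <;> by_cases i2 : G.pi d ∈ X
    · exact absurd ⟨i1, i2⟩ h5
    · simp only [i1, i2, if_true, if_false]; norm_num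
    · simp only [i1, i2, if_true, if_false]; norm_num
    · simp only [i1, i2, if_false]; norm_num
  · have h5 := ite_le (G.pi c ∈ X)
    have h6 := ite_le (G.pi d ∈ X)
    linarith

/-- port map of `Lam` and `O3`: `p`, `q` at `w1`, `r` at `w2`, `u` at `w3` -/
noncomputable def ga3 (p q r : D) (w1 w2 w3 : V) (d : D) : V :=
  if d = p ∨ d = q then w1 else if d = r then w2 else w3

theorem ga3_1 {p q r u : D} (hbd : G.bd A = {p, q, r, u}) (n2 : p ≠ r) (n4 : q ≠ r)
    (n12 : w1 ≠ w2) (n13 : w1 ≠ w3) :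
    (G.bd A).filter (fun d => ga3 p q r w1 w2 w3 d = w1) = {p, q} := by
  have _ := n2
  have _ := n4
  ext d
  rw [mem_filter, hbd]
  unfold ga3
  simp only [mem_insert, mem_singleton]
  constructor
  · rintro ⟨-, h2⟩
    by_contra h3
    rw [if_neg h3] at h2
    split_ifs at h2
    · exact n12 h2.symm
    · exact n13 h2.symm
  · intro h2
    exact ⟨by tauto, if_pos h2⟩

theorem ga3_2 {p q r u : D} (hbd : G.bd A = {p, q, r, u}) (n2 : p ≠ r) (n4 : q ≠ r)
    (n12 : w1 ≠ w2) (n23 : w2 ≠ w3) :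
    (G.bd A).filter (fun d => ga3 p q r w1 w2 w3 d = w2) = {r} := by
  ext d
  rw [mem_filter, hbd]
  unfold ga3
  simp only [mem_insert, mem_singleton]
  constructor
  · rintro ⟨-, h2⟩
    split_ifs at h2 with i1 i2
    · exact absurd h2 n12
    · exact i2
    · exact absurd h2 n23.symm
  · rintro rfl
    refine ⟨by tauto, ?_⟩
    rw [if_neg fun h => h.elim (fun h => n2 h.symm) fun h => n4 h.symm, if_pos rfl]

theorem ga3_3 {p q r u : D} (hbd : G.bd A = {p, q, r, u}) (n3 : p ≠ u) (n5 : q ≠ u)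
    (n6 : r ≠ u) (n13 : w1 ≠ w3) (n23 : w2 ≠ w3) :
    (G.bd A).filter (fun d => ga3 p q r w1 w2 w3 d = w3) = {u} := by
  ext d
  rw [mem_filter, hbd]
  unfold ga3
  simp only [mem_insert, mem_singleton]
  constructor
  · rintro ⟨h1, h2⟩
    split_ifs at h2 with i1 i2
    · exact absurd h2 n13
    · exact absurd h2 n23
    · tauto
  · rintro rfl
    refine ⟨by tauto, ?_⟩
    rw [if_neg fun h => h.elim (fun h => n3 h.symm) fun h => n5 h.symm, if_neg n6.symm]

/-- **Lam** at the level of strict 6-states: `p`, `q` at `w1`, `r` (the killed unit) at `w2`, `u` and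
the token at `w3` -/
theorem S6.lam (h : S6 G t fr F jm a) (b : Blk G t fr F jm A) {p q r u : D}
    (hbd : G.bd A = {p, q, r, u}) (hnd : [p, q, r, u].Nodup) {e1 e1' e2 e2' : D}
    (k : PthOk G A (G.bd A) (ga3 p q r w1 w2 w3) w1 w2 w3 e1 e1' e2 e2')
    (hpq : G.pi p ≠ G.pi q) (hpr : G.pi p ≠ G.pi r) (hqr : G.pi q ≠ G.pi r)
    (hru : G.pi r ≠ G.pi u)
    (epq : ∀ X ⊆ A, Even X.card → G.pi p ∈ X → G.pi q ∈ X → G.val one1 t X ≠ 4)
    (o5 : ∀ X ⊆ A, Odd X.card → G.pi p ∈ X → G.pi q ∈ X → G.pi r ∈ X → G.val one1 t X ≠ 5) :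
    (∃ M, (MG.gad G _ k.ok).IsPM M ∧ G.GHalf one1 fr F jm A (G.resM A M)) ∨
      S6 (MG.gad G _ k.ok) (gt G (pthG A (G.bd A) (ga3 p q r w1 w2 w3) w1 w2 w3 e1 e1' e2 e2')
        one1 t (triT w1 w2 0 0 1)) (fr ∩ A) (F.filter fun d => G.pi d ∈ fr ∩ A) jm a := by
  have hn : p ≠ q ∧ p ≠ r ∧ p ≠ u ∧ q ≠ r ∧ q ≠ u ∧ r ≠ u := by
    simp only [List.nodup_cons, List.mem_cons, List.not_mem_nil, or_false, not_or, not_false_iff,
      List.nodup_nil, and_true] at hnd
    obtain ⟨⟨h1, h2, h3⟩, ⟨h4, h5⟩, h6⟩ := hnd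
    exact ⟨h1, h2, h3, h4, h5, h6⟩
  obtain ⟨n1, n2, n3, n4, n5, n6⟩ := hn
  have f1 := ga3_1 hbd n2 n4 k.n12 k.n13
  have f2 := ga3_2 hbd n2 n4 k.n12 k.n23
  have f3 := ga3_3 hbd n3 n5 n6 k.n13 k.n23
  have p1 : pP (G.bd A) (ga3 p q r w1 w2 w3) one1 w1 = 2 := by
    rw [pP_one, f1, card_pair n1]
    norm_num
  have p2 : pP (G.bd A) (ga3 p q r w1 w2 w3) one1 w2 = 1 := by
    rw [pP_one, f2, card_singleton]
    norm_num
  have p3 : pP (G.bd A) (ga3 p q r w1 w2 w3) one1 w3 = 1 := by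
    rw [pP_one, f3, card_singleton]
    norm_num
  have t1 : triT w1 w2 0 0 1 w1 = 0 := by unfold triT; rw [if_pos rfl]
  have t2 : triT w1 w2 0 0 1 w2 = 0 := by
    unfold triT; rw [if_neg k.n12.symm, if_pos rfl]
  have t3 : triT w1 w2 0 0 1 w3 = 1 := by
    unfold triT; rw [if_neg k.n13.symm, if_neg k.n23.symm]
  have K := k.k3 (z := one1) (tk := triT w1 w2 0 0 1) (by rw [p1]; norm_num : _ = (3 : ℝ))
    (by rw [p2]; norm_num : _ = (3 : ℝ)) (by rw [p3]; norm_num : _ = (3 : ℝ)) t1 t2 t3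
  have hF := b.fct' h K rfl rfl
  have hs := K.lam (fun _ _ => rfl) hF p1 p2 p3 (by change 1 ≤ ∑ v ∈ A, t v; rw [b.tok]; norm_num)
    (fun X hX h1 => by
      constructor
      · change qP G (G.bd A) (ga3 p q r w1 w2 w3) one1 X w1 +
          qP G (G.bd A) (ga3 p q r w1 w2 w3) one1 X w2 ≤ 1
        rw [qP_pair n1 f1, qP_sing f2]
        obtain ⟨c, rfl⟩ := card_eq_one.1 h1
        simp only [mem_singleton]
        by_cases i1 : G.pi p = c
        · rw [if_pos i1, if_neg fun h => hpq (i1.trans h.symm),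
            if_neg fun h => hpr (i1.trans h.symm)]
          norm_num
        · rw [if_neg i1]
          by_cases i2 : G.pi q = c
          · rw [if_pos i2, if_neg fun h => hqr (i2.trans h.symm)]
            norm_num
          · rw [if_neg i2]
            have := ite_le (G.pi r = c)
            linarith
      · change qP G (G.bd A) (ga3 p q r w1 w2 w3) one1 X w2 +
          qP G (G.bd A) (ga3 p q r w1 w2 w3) one1 X w3 ≤ 1
        rw [qP_sing f2, qP_sing f3]
        exact two_one h1 hru)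
    (fun X hX he h2 => by
      change 2 + 2 * qP G (G.bd A) (ga3 p q r w1 w2 w3) one1 X w1 ≤ _
      rw [qP_pair n1 f1]
      exact h.pair_le b epq hX he h2)
    (fun X hX ho h2 => by
      change 1 + 2 * (qP G (G.bd A) (ga3 p q r w1 w2 w3) one1 X w1 +
        qP G (G.bd A) (ga3 p q r w1 w2 w3) one1 X w2) ≤ _
      rw [qP_pair n1 f1, qP_sing f2]
      have hXv : X ⊆ G.vs := hX.trans b.hA
      have h5 := ite_le (G.pi p ∈ X)
      have h6 := ite_le (G.pi q ∈ X)
      have h7 := ite_le (G.pi r ∈ X)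
      rcases h.odd_or hXv ho (by omega) with h4 | h4
      · have h8 : ¬ (G.pi p ∈ X ∧ G.pi q ∈ X ∧ G.pi r ∈ X) := fun h9 =>
          o5 X hX ho h9.1 h9.2.1 h9.2.2 h4
        rw [h4]
        by_cases i1 : G.pi p ∈ X
        · by_cases i2 : G.pi q ∈ X
          · have i3 : ¬ G.pi r ∈ X := fun i3 => h8 ⟨i1, i2, i3⟩
            rw [if_pos i1, if_pos i2, if_neg i3]
            norm_num
          · rw [if_neg i2]
            linarith
        · rw [if_neg i1]
          linarith
      · linarith)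
  refine b.k3_or h K rfl rfl ?_ ?_ hs.1 hs.2
  · intro v hv
    change v ∈ ({w1, w2, w3} : Finset V) at hv
    simp only [mem_insert, mem_singleton] at hv
    rcases hv with rfl | rfl | rfl
    · rw [t1]
    · rw [t2]
    · rw [t3]; norm_num
  · change ∑ v ∈ ({w1, w2, w3} : Finset V), _ = _
    rw [sum_insert, sum_insert, sum_singleton, t1, t2, t3]
    · norm_num
    · rw [mem_singleton]; exact k.n23
    · rw [mem_insert, mem_singleton, not_or]; exact ⟨k.n12, k.n13⟩

/-- **O3(pq)**: always solvable (5 tokens) -/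
theorem S6.o3 (h : S6 G t fr F jm a) (b : Blk G t fr F jm A) {p q r u : D}
    (hbd : G.bd A = {p, q, r, u}) (hnd : [p, q, r, u].Nodup) {d1 d1' d2 d2' d3 d3' : D}
    (k : TriOk G A (G.bd A) (ga3 p q r w1 w2 w3) w1 w2 w3 d1 d1' d2 d2' d3 d3')
    (hru : G.pi r ≠ G.pi u) :
    ∃ M, (MG.gad G _ k.ok).IsPM M ∧ G.GHalf one1 fr F jm A (G.resM A M) := by
  have hn : p ≠ q ∧ p ≠ r ∧ p ≠ u ∧ q ≠ r ∧ q ≠ u ∧ r ≠ u := by
    simp only [List.nodup_cons, List.mem_cons, List.not_mem_nil, or_false, not_or, not_false_iff,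
      List.nodup_nil, and_true] at hnd
    obtain ⟨⟨h1, h2, h3⟩, ⟨h4, h5⟩, h6⟩ := hnd
    exact ⟨h1, h2, h3, h4, h5, h6⟩
  obtain ⟨n1, n2, n3, n4, n5, n6⟩ := hn
  have f1 := ga3_1 hbd n2 n4 k.n12 k.n13
  have f2 := ga3_2 hbd n2 n4 k.n12 k.n23
  have f3 := ga3_3 hbd n3 n5 n6 k.n13 k.n23
  have p1 : pP (G.bd A) (ga3 p q r w1 w2 w3) one1 w1 = 2 := by
    rw [pP_one, f1, card_pair n1]
    norm_num
  have p2 : pP (G.bd A) (ga3 p q r w1 w2 w3) one1 w2 = 1 := by
    rw [pP_one, f2, card_singleton]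
    norm_num
  have p3 : pP (G.bd A) (ga3 p q r w1 w2 w3) one1 w3 = 1 := by
    rw [pP_one, f3, card_singleton]
    norm_num
  have t1 : (fun _ : V => (0 : ℝ)) w1 = 0 := rfl
  have K := k.k3 (z := one1) (tk := fun _ : V => (0 : ℝ)) (x := 1 / 2) (y := 3 / 2) (s := 1 / 2)
    (by rw [p1]; norm_num : _ = (3 : ℝ)) (by rw [p2]; norm_num : _ = (3 : ℝ))
    (by rw [p3]; norm_num : _ = (3 : ℝ)) t1 rfl rfl
  have hF := b.fct' h K rfl rfl
  have hc := K.o3 (t := t) (fun _ _ => rfl) hF p1 p2 p3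
    (by change 0 ≤ ∑ v ∈ A, t v; rw [b.tok]; norm_num)
    (fun X hX h1 => by
      change qP G (G.bd A) (ga3 p q r w1 w2 w3) one1 X w2 +
        qP G (G.bd A) (ga3 p q r w1 w2 w3) one1 X w3 ≤ 1
      rw [qP_sing f2, qP_sing f3]
      exact two_one h1 hru)
  have hf := b.keep (g := triG A (G.bd A) (ga3 p q r w1 w2 w3) w1 w2 w3 d1 d1' d2 d2' d3 d3')
    h.fresh rfl
  have hj := b.gjm_all (g := triG A (G.bd A) (ga3 p q r w1 w2 w3) w1 w2 w3 d1 d1' d2 d2' d3 d3')
    h.fresh rfl
  have h2 : gjm G (triG A (G.bd A) (ga3 p q r w1 w2 w3) w1 w2 w3 d1 d1' d2 d2' d3 d3') jm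
      (fr ∩ A) = ∅ ∨ (gjm G (triG A (G.bd A) (ga3 p q r w1 w2 w3) w1 w2 w3 d1 d1' d2 d2' d3 d3')
        jm (fr ∩ A)).card = 2 := by
    rw [hj]
    exact h.jm2
  obtain ⟨j1, j2, j3, j4, j5, j6, k1, k2, k3, k4, k5, k6⟩ := k.tab
  obtain ⟨z1, z2, z3, z4, z5, z6⟩ := k.zTab (1 / 2) (3 / 2) (1 / 2)
  have hE : ∀ d ∈ (triG A (G.bd A) (ga3 p q r w1 w2 w3) w1 w2 w3 d1 d1' d2 d2' d3 d3').E,
      d = d1 ∨ d = d1' ∨ d = d2 ∨ d = d2' ∨ d = d3 ∨ d = d3' := fun d hd => k.memE.1 hd
  obtain ⟨M, hM⟩ := h.gad_lt k.ok hf (ze := triZ d1 d1' d2 d2' (1 / 2) (3 / 2) (1 / 2))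
    (tk := fun _ => 0) (by
      have h6 := b.cardA h.even
      change Even (A.card + ({w1, w2, w3} : Finset V).card)
      rw [card_insert_of_notMem, card_insert_of_notMem, card_singleton, Nat.even_iff]
      · omega
      · rw [mem_singleton]; exact k.n23
      · rw [mem_insert, mem_singleton, not_or]; exact ⟨k.n12, k.n13⟩)
    (by
      intro d hd
      rcases hE d hd with rfl | rfl | rfl | rfl | rfl | rfl
      · rw [z1]; norm_num
      · rw [z2]; norm_num
      · rw [z3]; norm_num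
      · rw [z4]; norm_num
      · rw [z5]; norm_num
      · rw [z6]; norm_num)
    (by
      intro d hd
      change triZ d1 d1' d2 d2' (1 / 2) (3 / 2) (1 / 2) (triB d1 d1' d2 d2' d3 d3' d) = _
      rcases hE d hd with rfl | rfl | rfl | rfl | rfl | rfl
      · rw [j1, z1, z2]
      · rw [j2, z1, z2]
      · rw [j3, z3, z4]
      · rw [j4, z3, z4]
      · rw [j5, z5, z6]
      · rw [j6, z5, z6])
    (fun _ _ => le_refl _)
    (by
      intro v hv
      rw [gvk_deg K.kd (singleton_subset_iff.2 hv), card_singleton]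
      have h6 : (triG A (G.bd A) (ga3 p q r w1 w2 w3) w1 w2 w3 d1 d1' d2 d2' d3 d3').E.filter
          (fun d => (triG A (G.bd A) (ga3 p q r w1 w2 w3) w1 w2 w3 d1 d1' d2 d2' d3 d3').pe d ∈
            ({v} : Finset V) ∧
            (triG A (G.bd A) (ga3 p q r w1 w2 w3) w1 w2 w3 d1 d1' d2 d2' d3 d3').pe
              ((triG A (G.bd A) (ga3 p q r w1 w2 w3) w1 w2 w3 d1 d1' d2 d2' d3 d3').be d) ∈
              ({v} : Finset V)) = ∅ := by
        rw [filter_eq_empty_iff]
        rintro d hd ⟨h7, h8⟩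
        rw [mem_singleton] at h7 h8
        exact k.ok.nl d hd (h8.trans h7.symm)
      rw [h6, sum_empty]
      norm_num)
    h2
    (by
      have h6 : (G.bd (triG A (G.bd A) (ga3 p q r w1 w2 w3) w1 w2 w3 d1 d1' d2 d2' d3 d3').A).filter
          (fun d => d ∉ (triG A (G.bd A) (ga3 p q r w1 w2 w3) w1 w2 w3 d1 d1' d2 d2' d3 d3').P) =
          ∅ := by
        rw [filter_eq_empty_iff]
        exact fun d hd h7 => h7 hd
      rw [h6, card_empty, sum_const_zero]
      change ∑ v ∈ A, t v + _ + _ < 6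
      rw [b.tok]
      norm_num)
    (by
      intro X hX Y hY ho
      have hd : Disjoint X Y := disjoint_left.2 fun v h2 h3 => k.ok.dj _ (hY h3) (hX h2)
      have h9 := hc (X ∪ Y) (union_subset_union hX hY)
        (by rw [card_union_of_disjoint hd]; exact ho)
      rwa [gad_val k.ok (fun _ _ => rfl) _ _ hX hY] at h9)
  refine ⟨M, hM.pm, ?_⟩
  exact h.half k.ok hf (fun X hX hXA _ => subset_inter hX.sub hXA) h2 hM

end MG

end RH
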