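import Pool.Agent.Lib.RH.Gad3

/-! Gadgets with three vertices (helper30's outer gadgets `Gam`, `Lam`, `O3`), on helper58's `Gad`:
the set `W = vs - A` is replaced by three vertices `w1`, `w2`, `w3` with three edges of weights
`x` (`w1 w2`), `y` (`w2 w3`), `s` (`w1 w3`). `K3` is the abstract gadget, `PthOk` the path, `TriOk`
the triangle. -/

set_option autoImplicit false

namespace RH

open Finset Classical

namespace MG

variable {V D : Type*} {G : MG V D} {g : GD V D} {z ze : D → ℝ} {t tk : V → ℝ}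

/-- value of a set of gadget vertices, if the vertex sums are 3 -/
theorem gvk_deg (hd : ∀ v ∈ g.K, ∑ d ∈ g.P.filter (fun d => g.ga d = v), z d +
      ∑ d ∈ g.E.filter (fun d => g.pe d = v), ze d + tk v = 3) {Y : Finset V} (hY : Y ⊆ g.K) :
    gvk g z ze tk Y = 3 * Y.card -
      ∑ d ∈ g.E.filter (fun d => g.pe d ∈ Y ∧ g.pe (g.be d) ∈ Y), ze d := by
  have h1 : ∑ v ∈ Y, (∑ d ∈ g.P.filter (fun d => g.ga d = v), z d +
      ∑ d ∈ g.E.filter (fun d => g.pe d = v), ze d + tk v) = 3 * Y.card := by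
    rw [sum_congr rfl fun v hv => hd v (hY hv), sum_const, nsmul_eq_mul, mul_comm]
  have h2 : ∑ v ∈ Y, ∑ d ∈ g.P.filter (fun d => g.ga d = v), z d =
      ∑ d ∈ g.P.filter (fun d => g.ga d ∈ Y), z d := by
    rw [← sum_fiberwise_of_maps_to (s := g.P.filter fun d => g.ga d ∈ Y) (t := Y) (g := g.ga)
      fun d hd => (mem_filter.1 hd).2]
    refine sum_congr rfl fun v hv => sum_congr ?_ fun _ _ => rfl
    ext d
    rw [mem_filter, mem_filter, mem_filter]
    exact ⟨fun h => ⟨⟨h.1, h.2 ▸ hv⟩, h.2⟩, fun h => ⟨h.1.1, h.2⟩⟩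
  have h3 : ∑ v ∈ Y, ∑ d ∈ g.E.filter (fun d => g.pe d = v), ze d =
      ∑ d ∈ g.E.filter (fun d => g.pe d ∈ Y), ze d := by
    rw [← sum_fiberwise_of_maps_to (s := g.E.filter fun d => g.pe d ∈ Y) (t := Y) (g := g.pe)
      fun d hd => (mem_filter.1 hd).2]
    refine sum_congr rfl fun v hv => sum_congr ?_ fun _ _ => rfl
    ext d
    rw [mem_filter, mem_filter, mem_filter]
    exact ⟨fun h => ⟨⟨h.1, h.2 ▸ hv⟩, h.2⟩, fun h => ⟨h.1.1, h.2⟩⟩
  have h4 : ∑ d ∈ g.E.filter (fun d => g.pe d ∈ Y), ze d =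
      ∑ d ∈ g.E.filter (fun d => g.pe d ∈ Y ∧ g.pe (g.be d) ∉ Y), ze d +
        ∑ d ∈ g.E.filter (fun d => g.pe d ∈ Y ∧ g.pe (g.be d) ∈ Y), ze d := by
    rw [← sum_filter_add_sum_filter_not (g.E.filter fun d => g.pe d ∈ Y)
      (fun d => g.pe (g.be d) ∉ Y), filter_filter, filter_filter]
    simp only [not_not]
  rw [sum_add_distrib, sum_add_distrib, h2, h3, h4] at h1
  unfold gvk
  linarith

/-- a gadget with three vertices: weights `x`, `y`, `s` between `w1 w2`, `w2 w3`, `w1 w3` -/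
structure K3 (G : MG V D) (g : GD V D) (z ze : D → ℝ) (tk : V → ℝ) (w1 w2 w3 : V) (x y s : ℝ) :
    Prop where
  ok : GOk G g
  hK : g.K = {w1, w2, w3}
  n12 : w1 ≠ w2
  n13 : w1 ≠ w3
  n23 : w2 ≠ w3
  kd : ∀ v ∈ g.K, ∑ d ∈ g.P.filter (fun d => g.ga d = v), z d +
    ∑ d ∈ g.E.filter (fun d => g.pe d = v), ze d + tk v = 3
  inn : ∀ S : Finset V, ∑ d ∈ g.E.filter (fun d => g.pe d ∈ S ∧ g.pe (g.be d) ∈ S), ze d =
    (if w1 ∈ S ∧ w2 ∈ S then 2 * x else 0) + (if w2 ∈ S ∧ w3 ∈ S then 2 * y else 0) +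
      (if w1 ∈ S ∧ w3 ∈ S then 2 * s else 0)

variable {w1 w2 w3 : V} {x y s : ℝ}

/-- weight of the ports of `X` at the gadget vertex `w` -/
noncomputable def qP (G : MG V D) (P : Finset D) (ga : D → V) (z : D → ℝ) (X : Finset V) (w : V) :
    ℝ := ∑ d ∈ P.filter (fun d => G.pi d ∈ X ∧ ga d = w), z d

/-- weight of all ports at the gadget vertex `w` -/
noncomputable def pP (P : Finset D) (ga : D → V) (z : D → ℝ) (w : V) : ℝ :=
  ∑ d ∈ P.filter (fun d => ga d = w), z d

namespace K3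

variable (k : K3 G g z ze tk w1 w2 w3 x y s)
include k

theorem m1 : w1 ∈ g.K := by rw [k.hK]; simp
theorem m2 : w2 ∈ g.K := by rw [k.hK]; simp
theorem m3 : w3 ∈ g.K := by rw [k.hK]; simp

theorem d1 : w1 ∉ g.A := k.ok.dj _ k.m1
theorem d2 : w2 ∉ g.A := k.ok.dj _ k.m2
theorem d3 : w3 ∉ g.A := k.ok.dj _ k.m3

theorem ga3 {d : D} (hd : d ∈ g.P) : g.ga d = w1 ∨ g.ga d = w2 ∨ g.ga d = w3 := by
  have h1 := k.ok.gaK d hd
  rw [k.hK] at h1
  simpa using h1

theorem cardK (S : Finset V) : (S ∩ g.K).card = (if w1 ∈ S then 1 else 0) +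
    (if w2 ∈ S then 1 else 0) + (if w3 ∈ S then 1 else 0) := by
  rw [k.hK, inter_comm, ← filter_mem_eq_inter, card_filter, sum_insert, sum_insert, sum_singleton]
  · ring
  · rw [mem_singleton]; exact k.n23
  · rw [mem_insert, mem_singleton, not_or]; exact ⟨k.n12, k.n13⟩

/-- **values of the sets of the gadget graph** -/
theorem val (hsym : ∀ d ∈ G.ds, z (G.al d) = z d) {S : Finset V} (hS : S ⊆ g.A ∪ g.K) :
    (gad G g k.ok).val (gz g z ze) (gt G g z t tk) S =
    G.val z t (S ∩ g.A) + (if w1 ∈ S then 3 - 2 * qP G g.P g.ga z (S ∩ g.A) w1 else 0) +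
      (if w2 ∈ S then 3 - 2 * qP G g.P g.ga z (S ∩ g.A) w2 else 0) +
      (if w3 ∈ S then 3 - 2 * qP G g.P g.ga z (S ∩ g.A) w3 else 0) -
      (if w1 ∈ S ∧ w2 ∈ S then 2 * x else 0) - (if w2 ∈ S ∧ w3 ∈ S then 2 * y else 0) -
      (if w1 ∈ S ∧ w3 ∈ S then 2 * s else 0) := by
  have hSe : S = (S ∩ g.A) ∪ (S ∩ g.K) := by
    rw [← inter_union_distrib_left]
    exact (inter_eq_left.2 hS).symm
  have hv := gad_val (G := G) (t := t) k.ok hsym ze tk (X := S ∩ g.A) (Y := S ∩ g.K)
    inter_subset_right inter_subset_right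
  rw [← hSe] at hv
  rw [hv, gvk_deg k.kd inter_subset_right, k.inn]
  have c1 : ((S ∩ g.K).card : ℝ) = (if w1 ∈ S then 1 else 0) +
      (if w2 ∈ S then 1 else 0) + (if w3 ∈ S then 1 else 0) := by
    rw [k.cardK]
    push_cast
    ring
  have i1 : w1 ∈ S ∩ g.K ↔ w1 ∈ S := by
    rw [mem_inter]; exact ⟨fun h => h.1, fun h => ⟨h, k.m1⟩⟩
  have i2 : w2 ∈ S ∩ g.K ↔ w2 ∈ S := by
    rw [mem_inter]; exact ⟨fun h => h.1, fun h => ⟨h, k.m2⟩⟩
  have i3 : w3 ∈ S ∩ g.K ↔ w3 ∈ S := by
    rw [mem_inter]; exact ⟨fun h => h.1, fun h => ⟨h, k.m3⟩⟩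
  have c3 : gpw G g z (S ∩ g.A) (S ∩ g.K) =
      (if w1 ∈ S then qP G g.P g.ga z (S ∩ g.A) w1 else 0) +
      (if w2 ∈ S then qP G g.P g.ga z (S ∩ g.A) w2 else 0) +
      (if w3 ∈ S then qP G g.P g.ga z (S ∩ g.A) w3 else 0) := by
    unfold gpw qP
    rw [sum_filter, sum_filter, sum_filter, sum_filter]
    have j1 : ∀ (p : Prop) [Decidable p] (f : D → ℝ), (if p then ∑ d ∈ g.P, f d else 0) =
        ∑ d ∈ g.P, if p then f d else 0 := by
      intro p _ f
      split_ifs
      · rfl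
      · rw [sum_const_zero]
    rw [j1, j1, j1, ← sum_add_distrib, ← sum_add_distrib]
    refine sum_congr rfl fun d hd => ?_
    rcases k.ga3 hd with e | e | e
    · simp only [e, i1, k.n12, k.n13, and_false, and_true, if_false, ite_self, add_zero]
      by_cases q1 : w1 ∈ S <;> simp [q1]
    · simp only [e, i2, k.n12.symm, k.n23, and_false, and_true, if_false, ite_self, add_zero,
        zero_add]
      by_cases q1 : w2 ∈ S <;> simp [q1]
    · simp only [e, i3, k.n13.symm, k.n23.symm, and_false, and_true, if_false, ite_self, add_zero,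
        zero_add]
      by_cases q1 : w3 ∈ S <;> simp [q1]
  rw [c1, c3]
  simp only [i1, i2, i3]
  by_cases a1 : w1 ∈ S <;> by_cases a2 : w2 ∈ S <;> by_cases a3 : w3 ∈ S <;>
    simp only [a1, a2, a3, and_self, and_true, and_false, true_and, false_and, if_true,
      if_false] <;> ring

/-- the number of elements of a set of the gadget graph -/
theorem card_S {S : Finset V} (hS : S ⊆ g.A ∪ g.K) : S.card = (S ∩ g.A).card +
    (if w1 ∈ S then 1 else 0) + (if w2 ∈ S then 1 else 0) + (if w3 ∈ S then 1 else 0) := by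
  have hSe : S = (S ∩ g.A) ∪ (S ∩ g.K) := by
    rw [← inter_union_distrib_left]
    exact (inter_eq_left.2 hS).symm
  have hdis : Disjoint (S ∩ g.A) (S ∩ g.K) := disjoint_left.2 fun v h1 h2 =>
    k.ok.dj _ (mem_inter.1 h2).2 (mem_inter.1 h1).2
  have h1 := card_union_of_disjoint hdis
  rw [← hSe, k.cardK] at h1
  omega

end K3

variable {A : Finset V} {P : Finset D} {ga : D → V}

/-- nontrivial odd sets have value at least 5 -/
def FiveP (G : MG V D) (z : D → ℝ) (t : V → ℝ) : Prop :=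
  ∀ X ⊆ G.vs, Odd X.card → 3 ≤ X.card → 5 ≤ G.val z t X

/-- nonempty proper even sets have value at least 4 -/
def FourP (G : MG V D) (z : D → ℝ) (t : V → ℝ) : Prop :=
  ∀ X ⊆ G.vs, Even X.card → X.Nonempty → X ≠ G.vs → 4 ≤ G.val z t X

theorem val_emptyG (G : MG V D) (z : D → ℝ) (t : V → ℝ) : G.val z t ∅ = 0 := by
  unfold val bd
  rw [sum_empty, add_zero]
  refine sum_eq_zero fun d hd => ?_
  exact absurd (mem_filter.1 hd).2.1 (notMem_empty _)

theorem Wt.val_disj (h : G.Wt z t) {X Y : Finset V} (hX : X ⊆ G.vs) (hY : Y ⊆ G.vs)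
    (hd : Disjoint X Y) :
    G.val z t (X ∪ Y) = G.val z t X + G.val z t Y - 2 * ∑ d ∈ G.ed X Y, z d := by
  have h1 := h.submod hX hY
  rw [disjoint_iff_inter_eq_empty.1 hd, val_emptyG, sdiff_eq_self_of_disjoint hd,
    sdiff_eq_self_of_disjoint hd.symm] at h1
  linarith

theorem qP_nonneg (hz : ∀ d ∈ P, 0 ≤ z d) (X : Finset V) (w : V) : 0 ≤ qP G P ga z X w :=
  sum_nonneg fun d hd => hz d (mem_filter.1 hd).1

theorem qP_le (hz : ∀ d ∈ P, 0 ≤ z d) (X : Finset V) (w : V) : qP G P ga z X w ≤ pP P ga z w :=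
  sum_le_sum_of_subset_of_nonneg
    (fun d hd => mem_filter.2 ⟨(mem_filter.1 hd).1, (mem_filter.1 hd).2.2⟩)
    fun d hd _ => hz d (mem_filter.1 hd).1

theorem qP_empty (w : V) : qP G P ga z ∅ w = 0 :=
  sum_eq_zero fun d hd => absurd (mem_filter.1 hd).2.1 (notMem_empty _)

theorem qP_full (hP : P ⊆ G.bd A) (w : V) : qP G P ga z A w = pP P ga z w := by
  unfold qP pP
  refine sum_congr ?_ fun _ _ => rfl
  ext d
  rw [mem_filter, mem_filter]
  exact ⟨fun h => ⟨h.1, h.2.2⟩, fun h => ⟨h.1, (mem_bd.1 (hP h.1)).2.1, h.2⟩⟩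

/-- facts about the kept sets `X`: `q1`, `q2`, `q3` are the weights of the ports of `X` at the three
gadget vertices -/
structure TriF (G : MG V D) (z : D → ℝ) (t : V → ℝ) (A : Finset V) (P : Finset D) (ga : D → V)
    (w1 w2 w3 : V) (X : Finset V) : Prop where
  g1 : 0 ≤ qP G P ga z X w1
  g2 : 0 ≤ qP G P ga z X w2
  g3 : 0 ≤ qP G P ga z X w3
  l1 : qP G P ga z X w1 ≤ pP P ga z w1
  l2 : qP G P ga z X w2 ≤ pP P ga z w2
  l3 : qP G P ga z X w3 ≤ pP P ga z w3
  o1 : X.card = 1 → G.val z t X = 3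
  o3 : Odd X.card → 3 ≤ X.card → 5 ≤ G.val z t X
  e4 : Even X.card → X.Nonempty → 4 ≤ G.val z t X
  w5 : Even X.card → 2 * (qP G P ga z X w1 + qP G P ga z X w2 + qP G P ga z X w3) ≤ G.val z t X
  w4 : Odd X.card → X ≠ A →
    2 * (qP G P ga z X w1 + qP G P ga z X w2 + qP G P ga z X w3) ≤ G.val z t X + 1
  f1 : X = A → qP G P ga z X w1 = pP P ga z w1 ∧ qP G P ga z X w2 = pP P ga z w2 ∧
    qP G P ga z X w3 = pP P ga z w3 ∧
    G.val z t X = pP P ga z w1 + pP P ga z w2 + pP P ga z w3 + ∑ v ∈ A, t v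
  m0 : X.card = 0 → G.val z t X = 0 ∧ qP G P ga z X w1 = 0 ∧ qP G P ga z X w2 = 0 ∧
    qP G P ga z X w3 = 0

namespace K3

/-- sum of the ports of a kept set -/
theorem q_sum (k : K3 G g z ze tk w1 w2 w3 x y s) (hPA : g.P = G.bd g.A) {X : Finset V}
    (hX : X ⊆ g.A) : ∑ d ∈ G.ed X (G.vs \ g.A), z d =
      qP G g.P g.ga z X w1 + qP G g.P g.ga z X w2 + qP G g.P g.ga z X w3 := by
  have e1 : G.ed X (G.vs \ g.A) = g.P.filter fun d => G.pi d ∈ X := by
    rw [hPA]
    ext d
    rw [mem_ed, mem_filter, mem_bd, mem_sdiff]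
    exact ⟨fun h1 => ⟨⟨h1.1, hX h1.2.1, h1.2.2.2⟩, h1.2.1⟩,
      fun h1 => ⟨h1.1.1, h1.2, G.pi_mem _ (G.al_mem _ h1.1.1), h1.1.2.2⟩⟩
  rw [e1]
  unfold qP
  rw [sum_filter, sum_filter, sum_filter, sum_filter, ← sum_add_distrib, ← sum_add_distrib]
  refine sum_congr rfl fun d hd => ?_
  rcases k.ga3 hd with e | e | e
  · simp only [e, k.n12, k.n13, and_false, and_true, if_false, add_zero]
  · simp only [e, k.n12.symm, k.n23, and_false, and_true, if_false, add_zero, zero_add]
  · simp only [e, k.n13.symm, k.n23.symm, and_false, and_true, if_false, add_zero, zero_add]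

/-- the facts, from a strict state -/
theorem facts (k : K3 G g z ze tk w1 w2 w3 x y s) (hw : G.Wt z t)
    (h5 : FiveP G z t) (h4 : FourP G z t) (hPA : g.P = G.bd g.A) (hWo : Odd (G.vs \ g.A).card)
    (hW3 : 3 ≤ (G.vs \ g.A).card) (hv : G.val z t (G.vs \ g.A) = 5) {X : Finset V}
    (hX : X ⊆ g.A) : TriF G z t g.A g.P g.ga w1 w2 w3 X := by
  have hzP : ∀ d ∈ g.P, 0 ≤ z d := fun d hd => hw.z0 d (mem_bd.1 (k.ok.hP hd)).1
  have hXv := hX.trans k.ok.hA
  have hdis : Disjoint X (G.vs \ g.A) := disjoint_left.2 fun v h1 h2 => (mem_sdiff.1 h2).2 (hX h1)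
  have hU := hw.val_disj hXv sdiff_subset hdis
  rw [k.q_sum hPA hX, hv] at hU
  have hc : (X ∪ (G.vs \ g.A)).card = X.card + (G.vs \ g.A).card := card_union_of_disjoint hdis
  refine ⟨qP_nonneg hzP _ _, qP_nonneg hzP _ _, qP_nonneg hzP _ _, qP_le hzP _ _, qP_le hzP _ _,
    qP_le hzP _ _, ?_, h5 X hXv, ?_, ?_, ?_, ?_, ?_⟩
  · intro h1
    obtain ⟨v, rfl⟩ := card_eq_one.1 h1
    exact hw.val_single (hXv (mem_singleton_self v))
  · intro h1 h2
    refine h4 X hXv h1 h2 ?_
    rintro rfl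
    have : (G.vs \ g.A).card = 0 := by
      rw [card_eq_zero, sdiff_eq_empty_iff_subset]
      exact hX
    omega
  · intro h1
    have h2 := h5 (X ∪ (G.vs \ g.A)) (union_subset hXv sdiff_subset)
      (by rw [hc]; exact h1.add_odd hWo) (by rw [hc]; omega)
    linarith
  · intro h1 h2
    have h3 := h4 (X ∪ (G.vs \ g.A)) (union_subset hXv sdiff_subset)
      (by rw [hc]; exact h1.add_odd hWo) ?_ ?_
    · linarith
    · refine Finset.card_pos.1 ?_
      rw [hc]
      omega
    · intro h3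
      refine h2 (Subset.antisymm hX fun v hvA => ?_)
      have h4 : v ∈ X ∪ (G.vs \ g.A) := by
        rw [h3]
        exact k.ok.hA hvA
      rcases mem_union.1 h4 with h5 | h5
      · exact h5
      · exact absurd hvA (mem_sdiff.1 h5).2
  · rintro rfl
    refine ⟨qP_full k.ok.hP _, qP_full k.ok.hP _, qP_full k.ok.hP _, ?_⟩
    have h1 := k.q_sum (z := z) hPA hX
    rw [← bd_eq_ed, qP_full k.ok.hP, qP_full k.ok.hP, qP_full k.ok.hP] at h1
    unfold MG.val
    rw [h1]
  · intro h1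
    rw [card_eq_zero] at h1
    subst h1
    exact ⟨val_emptyG _ _ _, qP_empty _, qP_empty _, qP_empty _⟩

end K3

/-- the four cases for a kept set -/
theorem TriF.num {X : Finset V} (F : TriF G z t A P ga w1 w2 w3 X) :
    (X.card = 0 ∧ G.val z t X = 0 ∧ qP G P ga z X w1 = 0 ∧ qP G P ga z X w2 = 0 ∧
      qP G P ga z X w3 = 0) ∨
    (X.card = 1 ∧ G.val z t X = 3 ∧ (X = A ∨
      2 * (qP G P ga z X w1 + qP G P ga z X w2 + qP G P ga z X w3) ≤ G.val z t X + 1)) ∨
    (2 ≤ X.card ∧ X.card % 2 = 0 ∧ 4 ≤ G.val z t X ∧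
      2 * (qP G P ga z X w1 + qP G P ga z X w2 + qP G P ga z X w3) ≤ G.val z t X) ∨
    (3 ≤ X.card ∧ X.card % 2 = 1 ∧ 5 ≤ G.val z t X ∧ (X = A ∨
      2 * (qP G P ga z X w1 + qP G P ga z X w2 + qP G P ga z X w3) ≤ G.val z t X + 1)) := by
  rcases Nat.even_or_odd X.card with h1 | h1
  · by_cases h2 : X.card = 0
    · exact Or.inl ⟨h2, F.m0 h2⟩
    · have h3 := Nat.even_iff.1 h1
      exact Or.inr (Or.inr (Or.inl ⟨by omega, h3, F.e4 h1 (card_pos.1 (by omega)), F.w5 h1⟩))
  · have h3 := Nat.odd_iff.1 h1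
    have h4 : X = A ∨ 2 * (qP G P ga z X w1 + qP G P ga z X w2 + qP G P ga z X w3) ≤
        G.val z t X + 1 := by
      by_cases h5 : X = A
      · exact Or.inl h5
      · exact Or.inr (F.w4 h1 h5)
    by_cases h2 : X.card = 1
    · exact Or.inr (Or.inl ⟨h2, F.o1 h2, h4⟩)
    · exact Or.inr (Or.inr (Or.inr ⟨by omega, h3, F.o3 h1 (by omega), h4⟩))

namespace K3

/-- **Gam(pq|rs)**: `p`, `q` at `w1`, `r`, `s` at `w3`, the token at `w2`; strict -/
theorem gam (k : K3 G g z ze tk w1 w2 w3 1 1 0) (hsym : ∀ d ∈ G.ds, z (G.al d) = z d)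
    (hF : ∀ X ⊆ g.A, TriF G z t g.A g.P g.ga w1 w2 w3 X) (p1 : pP g.P g.ga z w1 = 2)
    (p2 : pP g.P g.ga z w2 = 0) (p3 : pP g.P g.ga z w3 = 2) (htA : 3 ≤ ∑ v ∈ g.A, t v)
    (s1 : ∀ X ⊆ g.A, X.card = 1 → qP G g.P g.ga z X w1 ≤ 1 ∧ qP G g.P g.ga z X w3 ≤ 1)
    (s2 : ∀ X ⊆ g.A, Even X.card → 2 ≤ X.card → 2 + 2 * qP G g.P g.ga z X w1 ≤ G.val z t X ∧
      2 + 2 * qP G g.P g.ga z X w3 ≤ G.val z t X) :
    FiveP (gad G g k.ok) (gz g z ze)
      (gt G g z t tk) ∧
    FourP (gad G g k.ok) (gz g z ze)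
      (gt G g z t tk) := by
  constructor
  · intro S hS ho hc
    change S ⊆ g.A ∪ g.K at hS
    have cs := k.card_S hS
    rw [k.val hsym hS]
    have F := hF (S ∩ g.A) inter_subset_right
    have k1 := s1 (S ∩ g.A) inter_subset_right
    have k2 := s2 (S ∩ g.A) inter_subset_right
    have f1 := F.f1
    have ho' := Nat.odd_iff.1 ho
    have g1 := F.g1
    have g2 := F.g2
    have g3 := F.g3
    have l1 := F.l1
    have l2 := F.l2
    have l3 := F.l3
    rw [p1] at l1
    rw [p2] at l2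
    rw [p3] at l3
    rcases F.num with ⟨c0, v0, r1, r2, r3⟩ | ⟨c1, v1, wX⟩ | ⟨c2, ev, v2, wX⟩ | ⟨c3, od, v3, wX⟩
    · by_cases a1 : w1 ∈ S <;> by_cases a2 : w2 ∈ S <;> by_cases a3 : w3 ∈ S <;>
        simp only [a1, a2, a3, and_self, and_true, and_false, true_and, false_and, if_true,
          if_false, sub_zero, add_zero] at cs ⊢ <;> first | (exfalso; omega) | linarith
    · have k3 := k1 c1
      rcases wX with wX | wX
      · have f2 := f1 wX
        rw [p1, p2, p3] at f2
        by_cases a1 : w1 ∈ S <;> by_cases a2 : w2 ∈ S <;> by_cases a3 : w3 ∈ S <;>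
          simp only [a1, a2, a3, and_self, and_true, and_false, true_and, false_and, if_true,
            if_false, sub_zero, add_zero] at cs ⊢ <;> first | (exfalso; omega) | linarith
      · by_cases a1 : w1 ∈ S <;> by_cases a2 : w2 ∈ S <;> by_cases a3 : w3 ∈ S <;>
          simp only [a1, a2, a3, and_self, and_true, and_false, true_and, false_and, if_true,
            if_false, sub_zero, add_zero] at cs ⊢ <;> first | (exfalso; omega) | linarith
    · have k3 := k2 (Nat.even_iff.2 ev) c2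
      by_cases a1 : w1 ∈ S <;> by_cases a2 : w2 ∈ S <;> by_cases a3 : w3 ∈ S <;>
        simp only [a1, a2, a3, and_self, and_true, and_false, true_and, false_and, if_true,
          if_false, sub_zero, add_zero] at cs ⊢ <;> first | (exfalso; omega) | linarith
    · rcases wX with wX | wX
      · have f2 := f1 wX
        rw [p1, p2, p3] at f2
        by_cases a1 : w1 ∈ S <;> by_cases a2 : w2 ∈ S <;> by_cases a3 : w3 ∈ S <;>
          simp only [a1, a2, a3, and_self, and_true, and_false, true_and, false_and, if_true,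
            if_false, sub_zero, add_zero] at cs ⊢ <;> first | (exfalso; omega) | linarith
      · by_cases a1 : w1 ∈ S <;> by_cases a2 : w2 ∈ S <;> by_cases a3 : w3 ∈ S <;>
          simp only [a1, a2, a3, and_self, and_true, and_false, true_and, false_and, if_true,
            if_false, sub_zero, add_zero] at cs ⊢ <;> first | (exfalso; omega) | linarith
  · intro S hS he hne hne2
    change S ⊆ g.A ∪ g.K at hS
    have cs := k.card_S hS
    rw [k.val hsym hS]
    have F := hF (S ∩ g.A) inter_subset_right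
    have k1 := s1 (S ∩ g.A) inter_subset_right
    have f1 := F.f1
    have ho' := Nat.even_iff.1 he
    have hpos := hne.card_pos
    have hall : ¬ (S ∩ g.A = g.A ∧ w1 ∈ S ∧ w2 ∈ S ∧ w3 ∈ S) := by
      rintro ⟨i1, i2, i3, i4⟩
      refine hne2 (Subset.antisymm hS ?_)
      intro v hv
      rcases mem_union.1 hv with hv | hv
      · rw [← i1] at hv
        exact (mem_inter.1 hv).1
      · rw [k.hK] at hv
        simp only [mem_insert, mem_singleton] at hv
        rcases hv with rfl | rfl | rfl <;> assumption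
    have g1 := F.g1
    have g2 := F.g2
    have g3 := F.g3
    have l1 := F.l1
    have l2 := F.l2
    have l3 := F.l3
    rw [p1] at l1
    rw [p2] at l2
    rw [p3] at l3
    rcases F.num with ⟨c0, v0, r1, r2, r3⟩ | ⟨c1, v1, wX⟩ | ⟨c2, ev, v2, wX⟩ | ⟨c3, od, v3, wX⟩
    · by_cases a1 : w1 ∈ S <;> by_cases a2 : w2 ∈ S <;> by_cases a3 : w3 ∈ S <;>
        simp only [a1, a2, a3, and_self, and_true, and_false, true_and, false_and, if_true,
          if_false, sub_zero, add_zero] at cs ⊢ <;> first | (exfalso; omega) | linarith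
    · have k3 := k1 c1
      rcases wX with wX | wX
      · have f2 := f1 wX
        rw [p1, p2, p3] at f2
        by_cases a1 : w1 ∈ S <;> by_cases a2 : w2 ∈ S <;> by_cases a3 : w3 ∈ S <;>
          simp only [a1, a2, a3, and_self, and_true, and_false, true_and, false_and, if_true,
            if_false, sub_zero, add_zero] at cs ⊢ <;>
          first | (exfalso; omega) | linarith | exact absurd ⟨wX, a1, a2, a3⟩ hall
      · by_cases a1 : w1 ∈ S <;> by_cases a2 : w2 ∈ S <;> by_cases a3 : w3 ∈ S <;>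
          simp only [a1, a2, a3, and_self, and_true, and_false, true_and, false_and, if_true,
            if_false, sub_zero, add_zero] at cs ⊢ <;> first | (exfalso; omega) | linarith
    · by_cases a1 : w1 ∈ S <;> by_cases a2 : w2 ∈ S <;> by_cases a3 : w3 ∈ S <;>
        simp only [a1, a2, a3, and_self, and_true, and_false, true_and, false_and, if_true,
          if_false, sub_zero, add_zero] at cs ⊢ <;> first | (exfalso; omega) | linarith
    · rcases wX with wX | wX
      · have f2 := f1 wX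
        rw [p1, p2, p3] at f2
        by_cases a1 : w1 ∈ S <;> by_cases a2 : w2 ∈ S <;> by_cases a3 : w3 ∈ S <;>
          simp only [a1, a2, a3, and_self, and_true, and_false, true_and, false_and, if_true,
            if_false, sub_zero, add_zero] at cs ⊢ <;>
          first | (exfalso; omega) | linarith | exact absurd ⟨wX, a1, a2, a3⟩ hall
      · by_cases a1 : w1 ∈ S <;> by_cases a2 : w2 ∈ S <;> by_cases a3 : w3 ∈ S <;>
          simp only [a1, a2, a3, and_self, and_true, and_false, true_and, false_and, if_true,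
            if_false, sub_zero, add_zero] at cs ⊢ <;> first | (exfalso; omega) | linarith


/-- **Lam(k)**: two ports at `w1`, `e` at `w2`, `u_k` and the token at `w3`; strict -/
theorem lam (k : K3 G g z ze tk w1 w2 w3 1 1 0) (hsym : ∀ d ∈ G.ds, z (G.al d) = z d)
    (hF : ∀ X ⊆ g.A, TriF G z t g.A g.P g.ga w1 w2 w3 X) (p1 : pP g.P g.ga z w1 = 2)
    (p2 : pP g.P g.ga z w2 = 1) (p3 : pP g.P g.ga z w3 = 1) (htA : 1 ≤ ∑ v ∈ g.A, t v)
    (s1 : ∀ X ⊆ g.A, X.card = 1 → qP G g.P g.ga z X w1 + qP G g.P g.ga z X w2 ≤ 1 ∧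
      qP G g.P g.ga z X w2 + qP G g.P g.ga z X w3 ≤ 1)
    (s2 : ∀ X ⊆ g.A, Even X.card → 2 ≤ X.card → 2 + 2 * qP G g.P g.ga z X w1 ≤ G.val z t X)
    (s3 : ∀ X ⊆ g.A, Odd X.card → 3 ≤ X.card →
      1 + 2 * (qP G g.P g.ga z X w1 + qP G g.P g.ga z X w2) ≤ G.val z t X) :
    FiveP (gad G g k.ok) (gz g z ze)
      (gt G g z t tk) ∧
    FourP (gad G g k.ok) (gz g z ze)
      (gt G g z t tk) := by
  constructor
  · intro S hS ho hc
    change S ⊆ g.A ∪ g.K at hS
    have cs := k.card_S hS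
    rw [k.val hsym hS]
    have F := hF (S ∩ g.A) inter_subset_right
    have k1 := s1 (S ∩ g.A) inter_subset_right
    have k2 := s2 (S ∩ g.A) inter_subset_right
    have k3 := s3 (S ∩ g.A) inter_subset_right
    have f1 := F.f1
    have ho' := Nat.odd_iff.1 ho
    have g1 := F.g1
    have g2 := F.g2
    have g3 := F.g3
    have l1 := F.l1
    have l2 := F.l2
    have l3 := F.l3
    rw [p1] at l1
    rw [p2] at l2
    rw [p3] at l3
    rcases F.num with ⟨c0, v0, r1, r2, r3⟩ | ⟨c1, v1, wX⟩ | ⟨c2, ev, v2, wX⟩ | ⟨c3, od, v3, wX⟩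
    · by_cases a1 : w1 ∈ S <;> by_cases a2 : w2 ∈ S <;> by_cases a3 : w3 ∈ S <;>
        simp only [a1, a2, a3, and_self, and_true, and_false, true_and, false_and, if_true,
          if_false, sub_zero, add_zero] at cs ⊢ <;> first | (exfalso; omega) | linarith
    · obtain ⟨k4, k5⟩ := k1 c1
      rcases wX with wX | wX
      · have f2 := f1 wX
        rw [p1, p2, p3] at f2
        by_cases a1 : w1 ∈ S <;> by_cases a2 : w2 ∈ S <;> by_cases a3 : w3 ∈ S <;>
          simp only [a1, a2, a3, and_self, and_true, and_false, true_and, false_and, if_true,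
            if_false, sub_zero, add_zero] at cs ⊢ <;> first | (exfalso; omega) | linarith
      · by_cases a1 : w1 ∈ S <;> by_cases a2 : w2 ∈ S <;> by_cases a3 : w3 ∈ S <;>
          simp only [a1, a2, a3, and_self, and_true, and_false, true_and, false_and, if_true,
            if_false, sub_zero, add_zero] at cs ⊢ <;> first | (exfalso; omega) | linarith
    · have k4 := k2 (Nat.even_iff.2 ev) c2
      by_cases a1 : w1 ∈ S <;> by_cases a2 : w2 ∈ S <;> by_cases a3 : w3 ∈ S <;>
        simp only [a1, a2, a3, and_self, and_true, and_false, true_and, false_and, if_true,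
          if_false, sub_zero, add_zero] at cs ⊢ <;> first | (exfalso; omega) | linarith
    · have k4 := k3 (Nat.odd_iff.2 od) c3
      rcases wX with wX | wX
      · have f2 := f1 wX
        rw [p1, p2, p3] at f2
        by_cases a1 : w1 ∈ S <;> by_cases a2 : w2 ∈ S <;> by_cases a3 : w3 ∈ S <;>
          simp only [a1, a2, a3, and_self, and_true, and_false, true_and, false_and, if_true,
            if_false, sub_zero, add_zero] at cs ⊢ <;> first | (exfalso; omega) | linarith
      · by_cases a1 : w1 ∈ S <;> by_cases a2 : w2 ∈ S <;> by_cases a3 : w3 ∈ S <;>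
          simp only [a1, a2, a3, and_self, and_true, and_false, true_and, false_and, if_true,
            if_false, sub_zero, add_zero] at cs ⊢ <;> first | (exfalso; omega) | linarith
  · intro S hS he hne hne2
    change S ⊆ g.A ∪ g.K at hS
    have cs := k.card_S hS
    rw [k.val hsym hS]
    have F := hF (S ∩ g.A) inter_subset_right
    have k1 := s1 (S ∩ g.A) inter_subset_right
    have f1 := F.f1
    have ho' := Nat.even_iff.1 he
    have hpos := hne.card_pos
    have hall : ¬ (S ∩ g.A = g.A ∧ w1 ∈ S ∧ w2 ∈ S ∧ w3 ∈ S) := by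
      rintro ⟨i1, i2, i3, i4⟩
      refine hne2 (Subset.antisymm hS ?_)
      intro v hv
      rcases mem_union.1 hv with hv | hv
      · rw [← i1] at hv
        exact (mem_inter.1 hv).1
      · rw [k.hK] at hv
        simp only [mem_insert, mem_singleton] at hv
        rcases hv with rfl | rfl | rfl <;> assumption
    have g1 := F.g1
    have g2 := F.g2
    have g3 := F.g3
    have l1 := F.l1
    have l2 := F.l2
    have l3 := F.l3
    rw [p1] at l1
    rw [p2] at l2
    rw [p3] at l3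
    rcases F.num with ⟨c0, v0, r1, r2, r3⟩ | ⟨c1, v1, wX⟩ | ⟨c2, ev, v2, wX⟩ | ⟨c3, od, v3, wX⟩
    · by_cases a1 : w1 ∈ S <;> by_cases a2 : w2 ∈ S <;> by_cases a3 : w3 ∈ S <;>
        simp only [a1, a2, a3, and_self, and_true, and_false, true_and, false_and, if_true,
          if_false, sub_zero, add_zero] at cs ⊢ <;> first | (exfalso; omega) | linarith
    · obtain ⟨k4, k5⟩ := k1 c1
      rcases wX with wX | wX
      · have f2 := f1 wX
        rw [p1, p2, p3] at f2
        by_cases a1 : w1 ∈ S <;> by_cases a2 : w2 ∈ S <;> by_cases a3 : w3 ∈ S <;>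
          simp only [a1, a2, a3, and_self, and_true, and_false, true_and, false_and, if_true,
            if_false, sub_zero, add_zero] at cs ⊢ <;>
          first | (exfalso; omega) | linarith | exact absurd ⟨wX, a1, a2, a3⟩ hall
      · by_cases a1 : w1 ∈ S <;> by_cases a2 : w2 ∈ S <;> by_cases a3 : w3 ∈ S <;>
          simp only [a1, a2, a3, and_self, and_true, and_false, true_and, false_and, if_true,
            if_false, sub_zero, add_zero] at cs ⊢ <;> first | (exfalso; omega) | linarith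
    · by_cases a1 : w1 ∈ S <;> by_cases a2 : w2 ∈ S <;> by_cases a3 : w3 ∈ S <;>
        simp only [a1, a2, a3, and_self, and_true, and_false, true_and, false_and, if_true,
          if_false, sub_zero, add_zero] at cs ⊢ <;> first | (exfalso; omega) | linarith
    · rcases wX with wX | wX
      · have f2 := f1 wX
        rw [p1, p2, p3] at f2
        by_cases a1 : w1 ∈ S <;> by_cases a2 : w2 ∈ S <;> by_cases a3 : w3 ∈ S <;>
          simp only [a1, a2, a3, and_self, and_true, and_false, true_and, false_and, if_true,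
            if_false, sub_zero, add_zero] at cs ⊢ <;>
          first | (exfalso; omega) | linarith | exact absurd ⟨wX, a1, a2, a3⟩ hall
      · by_cases a1 : w1 ∈ S <;> by_cases a2 : w2 ∈ S <;> by_cases a3 : w3 ∈ S <;>
          simp only [a1, a2, a3, and_self, and_true, and_false, true_and, false_and, if_true,
            if_false, sub_zero, add_zero] at cs ⊢ <;> first | (exfalso; omega) | linarith

/-- **O3(pq)**: half triangle, `p`, `q` at `w1`, `r` at `w2`, `s` at `w3`, no token -/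
theorem o3 (k : K3 G g z ze tk w1 w2 w3 (1 / 2) (3 / 2) (1 / 2)) (hsym : ∀ d ∈ G.ds, z (G.al d) = z d)
    (hF : ∀ X ⊆ g.A, TriF G z t g.A g.P g.ga w1 w2 w3 X) (p1 : pP g.P g.ga z w1 = 2)
    (p2 : pP g.P g.ga z w2 = 1) (p3 : pP g.P g.ga z w3 = 1) (htA : 0 ≤ ∑ v ∈ g.A, t v)
    (s1 : ∀ X ⊆ g.A, X.card = 1 → qP G g.P g.ga z X w2 + qP G g.P g.ga z X w3 ≤ 1) :
    ∀ S ⊆ (gad G g k.ok).vs, Odd S.card →
      3 ≤ (gad G g k.ok).val (gz g z ze)
      (gt G g z t tk) S := by
  intro S hS ho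
  change S ⊆ g.A ∪ g.K at hS
  have cs := k.card_S hS
  rw [k.val hsym hS]
  have F := hF (S ∩ g.A) inter_subset_right
  have k1 := s1 (S ∩ g.A) inter_subset_right
  have f1 := F.f1
  have ho' := Nat.odd_iff.1 ho
  have g1 := F.g1
  have g2 := F.g2
  have g3 := F.g3
  have l1 := F.l1
  have l2 := F.l2
  have l3 := F.l3
  rw [p1] at l1
  rw [p2] at l2
  rw [p3] at l3
  rcases F.num with ⟨c0, v0, r1, r2, r3⟩ | ⟨c1, v1, wX⟩ | ⟨c2, ev, v2, wX⟩ | ⟨c3, od, v3, wX⟩
  · by_cases a1 : w1 ∈ S <;> by_cases a2 : w2 ∈ S <;> by_cases a3 : w3 ∈ S <;>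
      simp only [a1, a2, a3, and_self, and_true, and_false, true_and, false_and, if_true,
        if_false, sub_zero, add_zero] at cs ⊢ <;> first | (exfalso; omega) | linarith
  · have k4 := k1 c1
    rcases wX with wX | wX
    · have f2 := f1 wX
      rw [p1, p2, p3] at f2
      by_cases a1 : w1 ∈ S <;> by_cases a2 : w2 ∈ S <;> by_cases a3 : w3 ∈ S <;>
        simp only [a1, a2, a3, and_self, and_true, and_false, true_and, false_and, if_true,
          if_false, sub_zero, add_zero] at cs ⊢ <;> first | (exfalso; omega) | linarith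
    · by_cases a1 : w1 ∈ S <;> by_cases a2 : w2 ∈ S <;> by_cases a3 : w3 ∈ S <;>
        simp only [a1, a2, a3, and_self, and_true, and_false, true_and, false_and, if_true,
          if_false, sub_zero, add_zero] at cs ⊢ <;> first | (exfalso; omega) | linarith
  · by_cases a1 : w1 ∈ S <;> by_cases a2 : w2 ∈ S <;> by_cases a3 : w3 ∈ S <;>
      simp only [a1, a2, a3, and_self, and_true, and_false, true_and, false_and, if_true,
        if_false, sub_zero, add_zero] at cs ⊢ <;> first | (exfalso; omega) | linarith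
  · rcases wX with wX | wX
    · have f2 := f1 wX
      rw [p1, p2, p3] at f2
      by_cases a1 : w1 ∈ S <;> by_cases a2 : w2 ∈ S <;> by_cases a3 : w3 ∈ S <;>
        simp only [a1, a2, a3, and_self, and_true, and_false, true_and, false_and, if_true,
          if_false, sub_zero, add_zero] at cs ⊢ <;> first | (exfalso; omega) | linarith
    · by_cases a1 : w1 ∈ S <;> by_cases a2 : w2 ∈ S <;> by_cases a3 : w3 ∈ S <;>
        simp only [a1, a2, a3, and_self, and_true, and_false, true_and, false_and, if_true,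
          if_false, sub_zero, add_zero] at cs ⊢ <;> first | (exfalso; omega) | linarith

end K3

/-! ## the path: `a`, `a'` between `w1` and `w2`, `b`, `b'` between `w2` and `w3` -/

/-- data of the path gadget -/
structure PthOk (G : MG V D) (A : Finset V) (P : Finset D) (ga : D → V) (w1 w2 w3 : V)
    (a a' b b' : D) : Prop where
  hA : A ⊆ G.vs
  n12 : w1 ≠ w2
  n13 : w1 ≠ w3
  n23 : w2 ≠ w3
  d1 : w1 ∉ A
  d2 : w2 ∉ A
  d3 : w3 ∉ A
  hP : P ⊆ G.bd A
  ga3 : ∀ d ∈ P, ga d = w1 ∨ ga d = w2 ∨ ga d = w3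
  n1 : a ≠ a'
  n2 : a ≠ b
  n3 : a ≠ b'
  n4 : a' ≠ b
  n5 : a' ≠ b'
  n6 : b ≠ b'
  new : ∀ d, d = a ∨ d = a' ∨ d = b ∨ d = b' → d ∈ G.ds → G.pi d ∉ A ∧ G.pi (G.al d) ∉ A

/-- the path gadget -/
noncomputable def pthG (A : Finset V) (P : Finset D) (ga : D → V) (w1 w2 w3 : V)
    (a a' b b' : D) : GD V D where
  A := A
  K := {w1, w2, w3}
  P := P
  E := {a, a', b, b'}
  ga := ga
  be := fun d => if d = a then a' else if d = a' then a else if d = b then b' else b
  pe := fun d => if d = a then w1 else if d = a' then w2 else if d = b then w2 else w3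

section Pth

variable {a a' b b' : D} (h : PthOk G A P ga w1 w2 w3 a a' b b')
include h

theorem PthOk.tab : (pthG A P ga w1 w2 w3 a a' b b').be a = a' ∧
    (pthG A P ga w1 w2 w3 a a' b b').be a' = a ∧ (pthG A P ga w1 w2 w3 a a' b b').be b = b' ∧
    (pthG A P ga w1 w2 w3 a a' b b').be b' = b ∧ (pthG A P ga w1 w2 w3 a a' b b').pe a = w1 ∧
    (pthG A P ga w1 w2 w3 a a' b b').pe a' = w2 ∧ (pthG A P ga w1 w2 w3 a a' b b').pe b = w2 ∧
    (pthG A P ga w1 w2 w3 a a' b b').pe b' = w3 := by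
  refine ⟨?_, ?_, ?_, ?_, ?_, ?_, ?_, ?_⟩ <;>
    simp only [pthG, if_true, h.n1.symm, h.n2.symm, h.n3.symm, h.n4.symm, h.n5.symm, h.n6.symm,
      if_false]

theorem PthOk.memE {d : D} : d ∈ (pthG A P ga w1 w2 w3 a a' b b').E ↔
    d = a ∨ d = a' ∨ d = b ∨ d = b' := by
  change d ∈ ({a, a', b, b'} : Finset D) ↔ _
  simp only [mem_insert, mem_singleton]

theorem PthOk.ok : GOk G (pthG A P ga w1 w2 w3 a a' b b') := by
  obtain ⟨j1, j2, j3, j4, k1, k2, k3, k4⟩ := h.tab
  refine ⟨h.hA, ?_, h.hP, ?_, ?_, ?_, ?_, ?_, ?_⟩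
  · intro v hv
    change v ∈ ({w1, w2, w3} : Finset V) at hv
    simp only [mem_insert, mem_singleton] at hv
    rcases hv with rfl | rfl | rfl
    · exact h.d1
    · exact h.d2
    · exact h.d3
  · intro d hd
    change ga d ∈ ({w1, w2, w3} : Finset V)
    simp only [mem_insert, mem_singleton]
    exact h.ga3 d hd
  · exact fun d hd hds => h.new d (h.memE.1 hd) hds
  · intro d hd
    rw [h.memE] at hd ⊢
    rcases hd with rfl | rfl | rfl | rfl
    · rw [j1]; tauto
    · rw [j2]; tauto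
    · rw [j3]; tauto
    · rw [j4]; tauto
  · intro d hd
    rw [h.memE] at hd
    rcases hd with rfl | rfl | rfl | rfl
    · rw [j1, j2]
    · rw [j2, j1]
    · rw [j3, j4]
    · rw [j4, j3]
  · intro d hd
    rw [h.memE] at hd
    change (pthG A P ga w1 w2 w3 a a' b b').pe d ∈ ({w1, w2, w3} : Finset V)
    simp only [mem_insert, mem_singleton]
    rcases hd with rfl | rfl | rfl | rfl
    · rw [k1]; tauto
    · rw [k2]; tauto
    · rw [k3]; tauto
    · rw [k4]; tauto
  · intro d hd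
    rw [h.memE] at hd
    rcases hd with rfl | rfl | rfl | rfl
    · rw [j1, k1, k2]; exact h.n12.symm
    · rw [j2, k1, k2]; exact h.n12
    · rw [j3, k3, k4]; exact h.n23.symm
    · rw [j4, k3, k4]; exact h.n23

theorem PthOk.sumE (f : D → ℝ) :
    ∑ d ∈ (pthG A P ga w1 w2 w3 a a' b b').E, f d = f a + (f a' + (f b + f b')) := by
  change ∑ d ∈ ({a, a', b, b'} : Finset D), f d = _
  rw [sum_insert, sum_insert, sum_insert, sum_singleton]
  all_goals simp only [mem_insert, mem_singleton, not_or]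
  · exact h.n6
  · exact ⟨h.n4, h.n5⟩
  · exact ⟨h.n1, h.n2, h.n3⟩

/-- the path gadget with weights 1 -/
theorem PthOk.k3 {t1 t2 t3 : ℝ} (e1 : pP P ga z w1 + 1 + t1 = 3)
    (e2 : pP P ga z w2 + 1 + 1 + t2 = 3) (e3 : pP P ga z w3 + 1 + t3 = 3)
    (ht1 : tk w1 = t1) (ht2 : tk w2 = t2) (ht3 : tk w3 = t3) :
    K3 G (pthG A P ga w1 w2 w3 a a' b b') z (fun _ => 1) tk w1 w2 w3 1 1 0 := by
  obtain ⟨j1, j2, j3, j4, k1, k2, k3, k4⟩ := h.tab
  refine ⟨h.ok, rfl, h.n12, h.n13, h.n23, ?_, ?_⟩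
  · intro v hv
    change v ∈ ({w1, w2, w3} : Finset V) at hv
    rw [sum_filter (s := (pthG A P ga w1 w2 w3 a a' b b').E), h.sumE, k1, k2, k3, k4]
    change pP P ga z v + _ + _ = 3
    simp only [mem_insert, mem_singleton] at hv
    rcases hv with rfl | rfl | rfl
    · simp only [h.n12.symm, h.n13.symm, if_true, if_false, ht1]
      linarith
    · simp only [h.n12, h.n23.symm, if_true, if_false, ht2]
      linarith
    · simp only [h.n13, h.n23, if_true, if_false, ht3]
      linarith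
  · intro S
    rw [sum_filter, h.sumE, j1, j2, j3, j4, k1, k2, k3, k4]
    by_cases a1 : w1 ∈ S <;> by_cases a2 : w2 ∈ S <;> by_cases a3 : w3 ∈ S <;>
      simp only [a1, a2, a3, and_self, and_true, and_false, true_and, false_and, if_true,
        if_false] <;> ring

/-- **patterns of the path gadget**: with `u1`, `u2`, `u3` the numbers of used ports at the three
vertices, `u1 + eps = 1`, `u2 + eps + eps' = 1`, `u3 + eps' = 1` -/
theorem PthOk.pat {M : Finset D} (hM : (gad G _ h.ok).IsPM M) :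
    ∃ e1 e2 : ℕ, (P.filter fun d => ga d = w1 ∧ d ∈ M).card + e1 = 1 ∧
      (P.filter fun d => ga d = w2 ∧ d ∈ M).card + e1 + e2 = 1 ∧
      (P.filter fun d => ga d = w3 ∧ d ∈ M).card + e2 = 1 := by
  obtain ⟨j1, j2, j3, j4, k1, k2, k3, k4⟩ := h.tab
  have g1 := gad_one h.ok hM (v := w1) (by change w1 ∈ ({w1, w2, w3} : Finset V); simp)
  have g2 := gad_one h.ok hM (v := w2) (by change w2 ∈ ({w1, w2, w3} : Finset V); simp)
  have g3 := gad_one h.ok hM (v := w3) (by change w3 ∈ ({w1, w2, w3} : Finset V); simp)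
  have hal : ∀ d ∈ (pthG A P ga w1 w2 w3 a a' b b').E, d ∈ M →
      (pthG A P ga w1 w2 w3 a a' b b').be d ∈ M := by
    intro d hd hdM
    have h1 := hM.closed d hdM
    change gal G _ d ∈ M at h1
    rwa [GOk.galE hd] at h1
  have ha : a ∈ M ↔ a' ∈ M := by
    constructor
    · intro h1
      have h2 := hal a (h.memE.2 (Or.inl rfl)) h1
      rwa [j1] at h2
    · intro h1
      have h2 := hal a' (h.memE.2 (Or.inr (Or.inl rfl))) h1
      rwa [j2] at h2
  have hb : b ∈ M ↔ b' ∈ M := by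
    constructor
    · intro h1
      have h2 := hal b (h.memE.2 (Or.inr (Or.inr (Or.inl rfl)))) h1
      rwa [j3] at h2
    · intro h1
      have h2 := hal b' (h.memE.2 (Or.inr (Or.inr (Or.inr rfl)))) h1
      rwa [j4] at h2
  have cE : ∀ v : V, (((pthG A P ga w1 w2 w3 a a' b b').E.filter fun d =>
      (pthG A P ga w1 w2 w3 a a' b b').pe d = v ∧ d ∈ M).card : ℝ) =
      (if w1 = v ∧ a ∈ M then 1 else 0) + ((if w2 = v ∧ a' ∈ M then 1 else 0) +
        ((if w2 = v ∧ b ∈ M then 1 else 0) + (if w3 = v ∧ b' ∈ M then 1 else 0))) := by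
    intro v
    rw [card_filter]
    push_cast
    rw [h.sumE, k1, k2, k3, k4]
  have cE' : ∀ v : V, ((pthG A P ga w1 w2 w3 a a' b b').E.filter fun d =>
      (pthG A P ga w1 w2 w3 a a' b b').pe d = v ∧ d ∈ M).card =
      (if w1 = v ∧ a ∈ M then 1 else 0) + ((if w2 = v ∧ a' ∈ M then 1 else 0) +
        ((if w2 = v ∧ b ∈ M then 1 else 0) + (if w3 = v ∧ b' ∈ M then 1 else 0))) := by
    intro v
    have h1 := cE v
    exact_mod_cast h1
  rw [cE'] at g1 g2 g3
  have ha' : (a' ∈ M) = (a ∈ M) := propext ha.symm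
  have hb' : (b' ∈ M) = (b ∈ M) := propext hb.symm
  simp only [ha', hb', h.n12, h.n12.symm, h.n13, h.n13.symm, h.n23, h.n23.symm, false_and, true_and,
    if_false, add_zero, zero_add] at g1 g2 g3
  refine ⟨if a ∈ M then 1 else 0, if b ∈ M then 1 else 0, g1, ?_, g3⟩
  rw [add_assoc]
  exact g2

end Pth

/-! ## the triangle: `a`, `a'` between `w1` and `w2`, `b`, `b'` between `w2` and `w3`, `c`, `c'`
between `w3` and `w1` -/

/-- data of a gadget with three vertices -/
structure TriOk (G : MG V D) (A : Finset V) (P : Finset D) (ga : D → V) (w1 w2 w3 : V)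
    (a a' b b' c c' : D) : Prop where
  hA : A ⊆ G.vs
  n12 : w1 ≠ w2
  n13 : w1 ≠ w3
  n23 : w2 ≠ w3
  d1 : w1 ∉ A
  d2 : w2 ∉ A
  d3 : w3 ∉ A
  hP : P ⊆ G.bd A
  ga3 : ∀ d ∈ P, ga d = w1 ∨ ga d = w2 ∨ ga d = w3
  nd : [a, a', b, b', c, c'].Nodup
  new : ∀ d ∈ [a, a', b, b', c, c'], d ∈ G.ds → G.pi d ∉ A ∧ G.pi (G.al d) ∉ A

variable {a a' b b' c c' : D}

/-- the other dart of a gadget edge -/
noncomputable def triB (a a' b b' c c' : D) (d : D) : D :=
  if d = a then a' else if d = a' then a else if d = b then b' else if d = b' then b else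
    if d = c then c' else c

/-- the vertex of a gadget dart -/
noncomputable def triP (w1 w2 w3 : V) (a a' b b' c c' : D) (d : D) : V :=
  if d = a then w1 else if d = a' then w2 else if d = b then w2 else if d = b' then w3 else
    if d = c then w3 else w1

/-- the gadget -/
noncomputable def triG (A : Finset V) (P : Finset D) (ga : D → V) (w1 w2 w3 : V)
    (a a' b b' c c' : D) : GD V D where
  A := A
  K := {w1, w2, w3}
  P := P
  E := {a, a', b, b', c, c'}
  ga := ga
  be := triB a a' b b' c c'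
  pe := triP w1 w2 w3 a a' b b' c c'

namespace TriOk

variable (h : TriOk G A P ga w1 w2 w3 a a' b b' c c')
include h

theorem nds : a ≠ a' ∧ a ≠ b ∧ a ≠ b' ∧ a ≠ c ∧ a ≠ c' ∧ a' ≠ b ∧ a' ≠ b' ∧ a' ≠ c ∧ a' ≠ c' ∧
    b ≠ b' ∧ b ≠ c ∧ b ≠ c' ∧ b' ≠ c ∧ b' ≠ c' ∧ c ≠ c' := by
  have h1 := h.nd
  simp only [List.nodup_cons, List.mem_cons, List.not_mem_nil, or_false, not_or, not_false_iff,
    List.nodup_nil, and_true] at h1
  obtain ⟨⟨h1, h2, h3, h4, h5⟩, ⟨h6, h7, h8, h9⟩, ⟨h10, h11, h12⟩, ⟨h13, h14⟩, h15⟩ := h1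
  exact ⟨h1, h2, h3, h4, h5, h6, h7, h8, h9, h10, h11, h12, h13, h14, h15⟩

theorem tab : triB a a' b b' c c' a = a' ∧ triB a a' b b' c c' a' = a ∧
    triB a a' b b' c c' b = b' ∧ triB a a' b b' c c' b' = b ∧ triB a a' b b' c c' c = c' ∧
    triB a a' b b' c c' c' = c ∧ triP w1 w2 w3 a a' b b' c c' a = w1 ∧
    triP w1 w2 w3 a a' b b' c c' a' = w2 ∧ triP w1 w2 w3 a a' b b' c c' b = w2 ∧
    triP w1 w2 w3 a a' b b' c c' b' = w3 ∧ triP w1 w2 w3 a a' b b' c c' c = w3 ∧
    triP w1 w2 w3 a a' b b' c c' c' = w1 := by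
  obtain ⟨h1, h2, h3, h4, h5, h6, h7, h8, h9, h10, h11, h12, h13, h14, h15⟩ := h.nds
  refine ⟨?_, ?_, ?_, ?_, ?_, ?_, ?_, ?_, ?_, ?_, ?_, ?_⟩ <;>
    simp only [triB, triP, if_true, h1, h2, h3, h4, h5, h6, h7, h8, h9, h10, h11, h12, h13, h14,
      h15, h1.symm, h2.symm, h3.symm, h4.symm, h5.symm, h6.symm, h7.symm, h8.symm, h9.symm,
      h10.symm, h11.symm, h12.symm, h13.symm, h14.symm, h15.symm, if_false]

theorem ok : GOk G (triG A P ga w1 w2 w3 a a' b b' c c') where
  hA := h.hA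
  dj := by
    intro v hv
    change v ∈ ({w1, w2, w3} : Finset V) at hv
    simp only [mem_insert, mem_singleton] at hv
    rcases hv with rfl | rfl | rfl
    · exact h.d1
    · exact h.d2
    · exact h.d3
  hP := h.hP
  gaK := by
    intro d hd
    change ga d ∈ ({w1, w2, w3} : Finset V)
    simp only [mem_insert, mem_singleton]
    exact h.ga3 d hd
  hE := by
    intro d hd hds
    change d ∈ ({a, a', b, b', c, c'} : Finset D) at hd
    simp only [mem_insert, mem_singleton] at hd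
    refine h.new d ?_ hds
    simp only [List.mem_cons, List.not_mem_nil, or_false]
    exact hd
  beE := by
    intro d hd
    change d ∈ ({a, a', b, b', c, c'} : Finset D) at hd
    change triB a a' b b' c c' d ∈ ({a, a', b, b', c, c'} : Finset D)
    obtain ⟨k1, k2, k3, k4, k5, k6, -⟩ := h.tab
    simp only [mem_insert, mem_singleton] at hd ⊢
    rcases hd with rfl | rfl | rfl | rfl | rfl | rfl
    · rw [k1]; tauto
    · rw [k2]; tauto
    · rw [k3]; tauto
    · rw [k4]; tauto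
    · rw [k5]; tauto
    · rw [k6]; tauto
  bb := by
    intro d hd
    change d ∈ ({a, a', b, b', c, c'} : Finset D) at hd
    change triB a a' b b' c c' (triB a a' b b' c c' d) = d
    obtain ⟨k1, k2, k3, k4, k5, k6, -⟩ := h.tab
    simp only [mem_insert, mem_singleton] at hd
    rcases hd with rfl | rfl | rfl | rfl | rfl | rfl
    · rw [k1, k2]
    · rw [k2, k1]
    · rw [k3, k4]
    · rw [k4, k3]
    · rw [k5, k6]
    · rw [k6, k5]
  peK := by
    intro d hd
    change d ∈ ({a, a', b, b', c, c'} : Finset D) at hd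
    change triP w1 w2 w3 a a' b b' c c' d ∈ ({w1, w2, w3} : Finset V)
    obtain ⟨-, -, -, -, -, -, k1, k2, k3, k4, k5, k6⟩ := h.tab
    simp only [mem_insert, mem_singleton] at hd ⊢
    rcases hd with rfl | rfl | rfl | rfl | rfl | rfl
    · rw [k1]; tauto
    · rw [k2]; tauto
    · rw [k3]; tauto
    · rw [k4]; tauto
    · rw [k5]; tauto
    · rw [k6]; tauto
  nl := by
    intro d hd
    change d ∈ ({a, a', b, b', c, c'} : Finset D) at hd
    change triP w1 w2 w3 a a' b b' c c' (triB a a' b b' c c' d) ≠ triP w1 w2 w3 a a' b b' c c' d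
    obtain ⟨j1, j2, j3, j4, j5, j6, k1, k2, k3, k4, k5, k6⟩ := h.tab
    simp only [mem_insert, mem_singleton] at hd
    rcases hd with rfl | rfl | rfl | rfl | rfl | rfl
    · rw [j1, k1, k2]; exact h.n12.symm
    · rw [j2, k1, k2]; exact h.n12
    · rw [j3, k3, k4]; exact h.n23.symm
    · rw [j4, k3, k4]; exact h.n23
    · rw [j5, k5, k6]; exact h.n13
    · rw [j6, k5, k6]; exact h.n13.symm

end TriOk

/-- weights of the gadget edges -/
noncomputable def triZ (a a' b b' : D) (x y s : ℝ) (d : D) : ℝ :=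
  if d = a ∨ d = a' then x else if d = b ∨ d = b' then y else s

/-- tokens of the gadget vertices -/
noncomputable def triT (w1 w2 : V) (t1 t2 t3 : ℝ) (v : V) : ℝ :=
  if v = w1 then t1 else if v = w2 then t2 else t3


namespace TriOk

theorem zTab (h : TriOk G A P ga w1 w2 w3 a a' b b' c c') (x y s : ℝ) :
    triZ a a' b b' x y s a = x ∧ triZ a a' b b' x y s a' = x ∧
    triZ a a' b b' x y s b = y ∧ triZ a a' b b' x y s b' = y ∧ triZ a a' b b' x y s c = s ∧
    triZ a a' b b' x y s c' = s := by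
  obtain ⟨h1, h2, h3, h4, h5, h6, h7, h8, h9, h10, h11, h12, h13, h14, h15⟩ := h.nds
  refine ⟨?_, ?_, ?_, ?_, ?_, ?_⟩ <;>
    simp only [triZ, true_or, or_true, or_false, false_or, if_true, h1, h2, h3, h4, h5, h6, h7,
      h8, h9, h10, h11, h12, h13, h14, h15, h1.symm, h2.symm, h3.symm, h4.symm, h5.symm, h6.symm,
      h7.symm, h8.symm, h9.symm, h10.symm, h11.symm, h12.symm, h13.symm, h14.symm, h15.symm,
      if_false]

/-- sum over the gadget darts -/
theorem sumE (h : TriOk G A P ga w1 w2 w3 a a' b b' c c') (f : D → ℝ) :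
    ∑ d ∈ (triG A P ga w1 w2 w3 a a' b b' c c').E, f d =
      f a + (f a' + (f b + (f b' + (f c + f c')))) := by
  obtain ⟨h1, h2, h3, h4, h5, h6, h7, h8, h9, h10, h11, h12, h13, h14, h15⟩ := h.nds
  change ∑ d ∈ ({a, a', b, b', c, c'} : Finset D), f d = _
  rw [sum_insert, sum_insert, sum_insert, sum_insert, sum_insert, sum_singleton]
  all_goals simp only [mem_insert, mem_singleton, not_or]
  · exact h15
  · exact ⟨h13, h14⟩
  · exact ⟨h10, h11, h12⟩
  · exact ⟨h6, h7, h8, h9⟩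
  · exact ⟨h1, h2, h3, h4, h5⟩

theorem memE (h : TriOk G A P ga w1 w2 w3 a a' b b' c c') {d : D} :
    d ∈ (triG A P ga w1 w2 w3 a a' b b' c c').E ↔
    d = a ∨ d = a' ∨ d = b ∨ d = b' ∨ d = c ∨ d = c' := by
  have _ := h.n12
  change d ∈ ({a, a', b, b', c, c'} : Finset D) ↔ _
  simp only [mem_insert, mem_singleton]

/-- the triangle gadget -/
theorem k3 (h : TriOk G A P ga w1 w2 w3 a a' b b' c c') {x y s t1 t2 t3 : ℝ}
    (e1 : pP P ga z w1 + x + s + t1 = 3) (e2 : pP P ga z w2 + x + y + t2 = 3)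
    (e3 : pP P ga z w3 + y + s + t3 = 3)
    (ht1 : tk w1 = t1) (ht2 : tk w2 = t2) (ht3 : tk w3 = t3) :
    K3 G (triG A P ga w1 w2 w3 a a' b b' c c') z (triZ a a' b b' x y s) tk w1 w2 w3 x y s := by
  obtain ⟨j1, j2, j3, j4, j5, j6, k1, k2, k3, k4, k5, k6⟩ := h.tab
  obtain ⟨z1, z2, z3, z4, z5, z6⟩ := h.zTab x y s
  refine ⟨h.ok, rfl, h.n12, h.n13, h.n23, ?_, ?_⟩
  · intro v hv
    change v ∈ ({w1, w2, w3} : Finset V) at hv
    rw [sum_filter (s := (triG A P ga w1 w2 w3 a a' b b' c c').E), h.sumE]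
    change pP P ga z v + ((if triP w1 w2 w3 a a' b b' c c' a = v then triZ a a' b b' x y s a
      else 0) + ((if triP w1 w2 w3 a a' b b' c c' a' = v then triZ a a' b b' x y s a' else 0) +
      ((if triP w1 w2 w3 a a' b b' c c' b = v then triZ a a' b b' x y s b else 0) +
      ((if triP w1 w2 w3 a a' b b' c c' b' = v then triZ a a' b b' x y s b' else 0) +
      ((if triP w1 w2 w3 a a' b b' c c' c = v then triZ a a' b b' x y s c else 0) +
      (if triP w1 w2 w3 a a' b b' c c' c' = v then triZ a a' b b' x y s c' else 0)))))) +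
      tk v = 3
    rw [z1, z2, z3, z4, z5, z6, k1, k2, k3, k4, k5, k6]
    simp only [mem_insert, mem_singleton] at hv
    rcases hv with rfl | rfl | rfl
    · simp only [h.n12.symm, h.n13.symm, if_true, if_false, ht1]
      linarith
    · simp only [h.n12, h.n23.symm, if_true, if_false, ht2]
      linarith
    · simp only [h.n13, h.n23, if_true, if_false, ht3]
      linarith
  · intro S
    rw [sum_filter, h.sumE]
    change (if triP w1 w2 w3 a a' b b' c c' a ∈ S ∧
        triP w1 w2 w3 a a' b b' c c' (triB a a' b b' c c' a) ∈ S then _ else _) +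
      ((if triP w1 w2 w3 a a' b b' c c' a' ∈ S ∧
        triP w1 w2 w3 a a' b b' c c' (triB a a' b b' c c' a') ∈ S then _ else _) +
      ((if triP w1 w2 w3 a a' b b' c c' b ∈ S ∧
        triP w1 w2 w3 a a' b b' c c' (triB a a' b b' c c' b) ∈ S then _ else _) +
      ((if triP w1 w2 w3 a a' b b' c c' b' ∈ S ∧
        triP w1 w2 w3 a a' b b' c c' (triB a a' b b' c c' b') ∈ S then _ else _) +
      ((if triP w1 w2 w3 a a' b b' c c' c ∈ S ∧
        triP w1 w2 w3 a a' b b' c c' (triB a a' b b' c c' c) ∈ S then _ else _) +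
      (if triP w1 w2 w3 a a' b b' c c' c' ∈ S ∧
        triP w1 w2 w3 a a' b b' c c' (triB a a' b b' c c' c') ∈ S then _ else _))))) = _
    rw [j1, j2, j3, j4, j5, j6, k1, k2, k3, k4, k5, k6, z1, z2, z3, z4, z5, z6]
    by_cases a1 : w1 ∈ S <;> by_cases a2 : w2 ∈ S <;> by_cases a3 : w3 ∈ S <;>
      simp only [a1, a2, a3, and_self, and_true, and_false, true_and, false_and, if_true,
        if_false] <;> ring

/-- **patterns of the triangle** -/
theorem pat (h : TriOk G A P ga w1 w2 w3 a a' b b' c c') {M : Finset D}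
    (hM : (gad G _ h.ok).IsPM M) :
    ∃ e1 e2 e3 : ℕ, (P.filter fun d => ga d = w1 ∧ d ∈ M).card + e1 + e3 = 1 ∧
      (P.filter fun d => ga d = w2 ∧ d ∈ M).card + e1 + e2 = 1 ∧
      (P.filter fun d => ga d = w3 ∧ d ∈ M).card + e2 + e3 = 1 := by
  obtain ⟨j1, j2, j3, j4, j5, j6, k1, k2, k3, k4, k5, k6⟩ := h.tab
  have g1 := gad_one h.ok hM (v := w1) (by change w1 ∈ ({w1, w2, w3} : Finset V); simp)
  have g2 := gad_one h.ok hM (v := w2) (by change w2 ∈ ({w1, w2, w3} : Finset V); simp)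
  have g3 := gad_one h.ok hM (v := w3) (by change w3 ∈ ({w1, w2, w3} : Finset V); simp)
  have hal : ∀ d ∈ (triG A P ga w1 w2 w3 a a' b b' c c').E, d ∈ M →
      triB a a' b b' c c' d ∈ M := by
    intro d hd hdM
    have h1 := hM.closed d hdM
    change gal G _ d ∈ M at h1
    rw [GOk.galE hd] at h1
    exact h1
  have ha : a ∈ M ↔ a' ∈ M := by
    constructor
    · intro h1
      have h2 := hal a (h.memE.2 (by tauto)) h1
      rwa [j1] at h2
    · intro h1
      have h2 := hal a' (h.memE.2 (by tauto)) h1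
      rwa [j2] at h2
  have hb : b ∈ M ↔ b' ∈ M := by
    constructor
    · intro h1
      have h2 := hal b (h.memE.2 (by tauto)) h1
      rwa [j3] at h2
    · intro h1
      have h2 := hal b' (h.memE.2 (by tauto)) h1
      rwa [j4] at h2
  have hc : c ∈ M ↔ c' ∈ M := by
    constructor
    · intro h1
      have h2 := hal c (h.memE.2 (by tauto)) h1
      rwa [j5] at h2
    · intro h1
      have h2 := hal c' (h.memE.2 (by tauto)) h1
      rwa [j6] at h2
  have cE : ∀ v : V, (((triG A P ga w1 w2 w3 a a' b b' c c').E.filter fun d =>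
      (triG A P ga w1 w2 w3 a a' b b' c c').pe d = v ∧ d ∈ M).card : ℝ) =
      (if w1 = v ∧ a ∈ M then 1 else 0) + ((if w2 = v ∧ a' ∈ M then 1 else 0) +
        ((if w2 = v ∧ b ∈ M then 1 else 0) + ((if w3 = v ∧ b' ∈ M then 1 else 0) +
        ((if w3 = v ∧ c ∈ M then 1 else 0) + (if w1 = v ∧ c' ∈ M then 1 else 0))))) := by
    intro v
    rw [card_filter]
    push_cast
    have q1 : (triG A P ga w1 w2 w3 a a' b b' c c').pe a = w1 := k1
    have q2 : (triG A P ga w1 w2 w3 a a' b b' c c').pe a' = w2 := k2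
    have q3 : (triG A P ga w1 w2 w3 a a' b b' c c').pe b = w2 := k3
    have q4 : (triG A P ga w1 w2 w3 a a' b b' c c').pe b' = w3 := k4
    have q5 : (triG A P ga w1 w2 w3 a a' b b' c c').pe c = w3 := k5
    have q6 : (triG A P ga w1 w2 w3 a a' b b' c c').pe c' = w1 := k6
    rw [h.sumE, q1, q2, q3, q4, q5, q6]
  have cE' : ∀ v : V, ((triG A P ga w1 w2 w3 a a' b b' c c').E.filter fun d =>
      (triG A P ga w1 w2 w3 a a' b b' c c').pe d = v ∧ d ∈ M).card =
      (if w1 = v ∧ a ∈ M then 1 else 0) + ((if w2 = v ∧ a' ∈ M then 1 else 0) +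
        ((if w2 = v ∧ b ∈ M then 1 else 0) + ((if w3 = v ∧ b' ∈ M then 1 else 0) +
        ((if w3 = v ∧ c ∈ M then 1 else 0) + (if w1 = v ∧ c' ∈ M then 1 else 0))))) := by
    intro v
    have h1 := cE v
    exact_mod_cast h1
  rw [cE'] at g1 g2 g3
  have ha' : (a' ∈ M) = (a ∈ M) := propext ha.symm
  have hb' : (b' ∈ M) = (b ∈ M) := propext hb.symm
  have hc' : (c' ∈ M) = (c ∈ M) := propext hc.symm
  simp only [ha', hb', hc', h.n12, h.n12.symm, h.n13, h.n13.symm, h.n23, h.n23.symm, false_and,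
    true_and, if_false, add_zero, zero_add] at g1 g2 g3
  refine ⟨if a ∈ M then 1 else 0, if b ∈ M then 1 else 0, if c ∈ M then 1 else 0, ?_, ?_, ?_⟩
  · rw [add_assoc]
    exact g1
  · rw [add_assoc]
    exact g2
  · rw [add_assoc]
    exact g3

end TriOk

end MG

end RH
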