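import Pool.Agent.Lib.RH.SDefs

/-! # Gadgets: keep a set `A` of vertices, replace the rest by a small weighted graph `K`

Kept ports `P` (darts at `A` which leave `A`) are attached to gadget vertices by `ga`; the other
ports are dropped, their weights become tokens at their ends in `A`. -/

set_option autoImplicit false

namespace RH

open Finset Classical

/-- data of a gadget -/
structure GD (V D : Type*) where
  A : Finset V
  K : Finset V
  P : Finset D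
  E : Finset D
  ga : D → V
  be : D → D
  pe : D → V

namespace MG

variable {V D : Type*}

/-- a gadget fits to `G` -/
structure GOk (G : MG V D) (g : GD V D) : Prop where
  hA : g.A ⊆ G.vs
  dj : ∀ v ∈ g.K, v ∉ g.A
  hP : g.P ⊆ G.bd g.A
  gaK : ∀ d ∈ g.P, g.ga d ∈ g.K
  hE : ∀ d ∈ g.E, d ∈ G.ds → G.pi d ∉ g.A ∧ G.pi (G.al d) ∉ g.A
  beE : ∀ d ∈ g.E, g.be d ∈ g.E
  bb : ∀ d ∈ g.E, g.be (g.be d) = d
  peK : ∀ d ∈ g.E, g.pe d ∈ g.K
  nl : ∀ d ∈ g.E, g.pe (g.be d) ≠ g.pe d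

variable {G : MG V D} {g : GD V D}

theorem GOk.P1 (h : GOk G g) {d : D} (hd : d ∈ g.P) :
    d ∈ G.ds ∧ G.pi d ∈ g.A ∧ G.pi (G.al d) ∉ g.A := mem_bd.1 (h.hP hd)

theorem GOk.PE (h : GOk G g) {d : D} (hd : d ∈ g.P) : d ∉ g.E := fun he =>
  (h.hE d he (h.P1 hd).1).1 (h.P1 hd).2.1

theorem GOk.QE (h : GOk G g) {d : D} (hd : d ∈ g.P) : G.al d ∉ g.E := fun he => by
  have h1 := (h.hE _ he (G.al_mem _ (h.P1 hd).1)).2
  rw [G.al_al _ (h.P1 hd).1] at h1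
  exact h1 (h.P1 hd).2.1

/-- the darts of the gadget graph -/
noncomputable def gds (G : MG V D) (g : GD V D) : Finset D :=
  ((G.ds.filter fun d => G.pi d ∈ g.A ∧ G.pi (G.al d) ∈ g.A) ∪ (g.P ∪ g.P.image G.al)) ∪ g.E

noncomputable def gpi (G : MG V D) (g : GD V D) (d : D) : V :=
  if d ∈ g.E then g.pe d else if G.pi d ∈ g.A then G.pi d else g.ga (G.al d)

noncomputable def gal (G : MG V D) (g : GD V D) (d : D) : D :=
  if d ∈ g.E then g.be d else G.al d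

theorem mem_gds {d : D} : d ∈ gds G g ↔ (d ∈ G.ds ∧ G.pi d ∈ g.A ∧ G.pi (G.al d) ∈ g.A) ∨
    d ∈ g.P ∨ (∃ p ∈ g.P, G.al p = d) ∨ d ∈ g.E := by
  unfold gds
  rw [mem_union, mem_union, mem_union, mem_filter, mem_image, or_assoc, or_assoc]

theorem GOk.innE (h : GOk G g) {d : D} (hd : d ∈ G.ds) (h1 : G.pi d ∈ g.A) : d ∉ g.E :=
  fun he => (h.hE d he hd).1 h1

theorem GOk.gpiE {d : D} (hd : d ∈ g.E) : gpi G g d = g.pe d := by
  unfold gpi
  rw [if_pos hd]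

theorem GOk.gpiA (h : GOk G g) {d : D} (hd : d ∈ G.ds) (h1 : G.pi d ∈ g.A) :
    gpi G g d = G.pi d := by
  unfold gpi
  rw [if_neg (h.innE hd h1), if_pos h1]

theorem GOk.gpiQ (h : GOk G g) {d : D} (hd : d ∈ g.P) : gpi G g (G.al d) = g.ga d := by
  unfold gpi
  rw [if_neg (h.QE hd), if_neg (h.P1 hd).2.2, G.al_al _ (h.P1 hd).1]

theorem GOk.galE {d : D} (hd : d ∈ g.E) : gal G g d = g.be d := by
  unfold gal
  rw [if_pos hd]

theorem GOk.galN {d : D} (hd : d ∉ g.E) : gal G g d = G.al d := by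
  unfold gal
  rw [if_neg hd]

theorem GOk.Qds (h : GOk G g) {d : D} (hd : d ∈ g.P) : G.al d ∈ G.ds := G.al_mem _ (h.P1 hd).1

/-- the gadget graph -/
noncomputable def gad (G : MG V D) (g : GD V D) (h : GOk G g) : MG V D where
  vs := g.A ∪ g.K
  ds := gds G g
  pi := gpi G g
  al := gal G g
  pi_mem := by
    intro d hd
    rcases mem_gds.1 hd with ⟨h1, h2, h3⟩ | h1 | ⟨p, h1, rfl⟩ | h1
    · rw [h.gpiA h1 h2]
      exact mem_union_left _ h2
    · rw [h.gpiA (h.P1 h1).1 (h.P1 h1).2.1]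
      exact mem_union_left _ (h.P1 h1).2.1
    · rw [h.gpiQ h1]
      exact mem_union_right _ (h.gaK _ h1)
    · rw [GOk.gpiE h1]
      exact mem_union_right _ (h.peK _ h1)
  al_mem := by
    intro d hd
    rcases mem_gds.1 hd with ⟨h1, h2, h3⟩ | h1 | ⟨p, h1, rfl⟩ | h1
    · rw [GOk.galN (h.innE h1 h2)]
      refine mem_gds.2 (Or.inl ⟨G.al_mem _ h1, h3, ?_⟩)
      rw [G.al_al _ h1]
      exact h2
    · rw [GOk.galN (h.PE h1)]
      exact mem_gds.2 (Or.inr (Or.inr (Or.inl ⟨d, h1, rfl⟩)))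
    · rw [GOk.galN (h.QE h1), G.al_al _ (h.P1 h1).1]
      exact mem_gds.2 (Or.inr (Or.inl h1))
    · rw [GOk.galE h1]
      exact mem_gds.2 (Or.inr (Or.inr (Or.inr (h.beE _ h1))))
  al_al := by
    intro d hd
    rcases mem_gds.1 hd with ⟨h1, h2, h3⟩ | h1 | ⟨p, h1, rfl⟩ | h1
    · rw [GOk.galN (h.innE h1 h2), GOk.galN (h.innE (G.al_mem _ h1) h3), G.al_al _ h1]
    · rw [GOk.galN (h.PE h1), GOk.galN (h.QE h1), G.al_al _ (h.P1 h1).1]
    · rw [GOk.galN (h.QE h1), G.al_al _ (h.P1 h1).1, GOk.galN (h.PE h1)]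
    · rw [GOk.galE h1, GOk.galE (h.beE _ h1), h.bb _ h1]
  noloop := by
    intro d hd
    rcases mem_gds.1 hd with ⟨h1, h2, h3⟩ | h1 | ⟨p, h1, rfl⟩ | h1
    · rw [GOk.galN (h.innE h1 h2), h.gpiA (G.al_mem _ h1) h3, h.gpiA h1 h2]
      exact G.noloop d h1
    · rw [GOk.galN (h.PE h1), h.gpiQ h1, h.gpiA (h.P1 h1).1 (h.P1 h1).2.1]
      intro e
      exact h.dj _ (h.gaK _ h1) (e ▸ (h.P1 h1).2.1)
    · rw [GOk.galN (h.QE h1), G.al_al _ (h.P1 h1).1, h.gpiA (h.P1 h1).1 (h.P1 h1).2.1, h.gpiQ h1]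
      intro e
      exact h.dj _ (h.gaK _ h1) (e ▸ (h.P1 h1).2.1)
    · rw [GOk.galE h1, GOk.gpiE (h.beE _ h1), GOk.gpiE h1]
      exact h.nl _ h1

variable {z : D → ℝ} {t : V → ℝ}

/-- weights of the gadget graph -/
noncomputable def gz (g : GD V D) (z ze : D → ℝ) (d : D) : ℝ := if d ∈ g.E then ze d else z d

/-- dropped ports at `v` -/
noncomputable def gdp (G : MG V D) (g : GD V D) (v : V) : Finset D :=
  (G.bd g.A).filter fun d => d ∉ g.P ∧ G.pi d = v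

/-- tokens of the gadget graph -/
noncomputable def gt (G : MG V D) (g : GD V D) (z : D → ℝ) (t tk : V → ℝ) (v : V) : ℝ :=
  if v ∈ g.K then tk v else t v + ∑ d ∈ gdp G g v, z d

/-- weight of the ports from `X` to `Y` -/
noncomputable def gpw (G : MG V D) (g : GD V D) (z : D → ℝ) (X Y : Finset V) : ℝ :=
  ∑ d ∈ g.P.filter (fun d => G.pi d ∈ X ∧ g.ga d ∈ Y), z d

/-- value of a set of gadget vertices -/
noncomputable def gvk (g : GD V D) (z ze : D → ℝ) (tk : V → ℝ) (Y : Finset V) : ℝ :=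
  ∑ d ∈ g.P.filter (fun d => g.ga d ∈ Y), z d +
    ∑ d ∈ g.E.filter (fun d => g.pe d ∈ Y ∧ g.pe (g.be d) ∉ Y), ze d + ∑ v ∈ Y, tk v

/-- **value formula** -/
theorem gad_val (h : GOk G g) (hsym : ∀ d ∈ G.ds, z (G.al d) = z d) (ze : D → ℝ) (tk : V → ℝ)
    {X Y : Finset V} (hX : X ⊆ g.A) (hY : Y ⊆ g.K) :
    (gad G g h).val (gz g z ze) (gt G g z t tk) (X ∪ Y) =
      G.val z t X + gvk g z ze tk Y - 2 * gpw G g z X Y := by
  have hXA : ∀ v, v ∈ X → v ∈ g.A := fun v hv => hX hv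
  have hXK : ∀ v ∈ g.A, (v ∈ X ∪ Y ↔ v ∈ X) := by
    intro v hv
    rw [mem_union]
    exact ⟨fun h1 => h1.resolve_right fun h2 => h.dj _ (hY h2) hv, Or.inl⟩
  have hYK : ∀ v ∈ g.K, (v ∈ X ∪ Y ↔ v ∈ Y) := by
    intro v hv
    rw [mem_union]
    exact ⟨fun h1 => h1.resolve_left fun h2 => h.dj _ hv (hX h2), Or.inr⟩
  have hz : ∀ d ∉ g.E, gz g z ze d = z d := fun d hd => by
    unfold gz
    rw [if_neg hd]
  -- the boundary of `X ∪ Y`
  have e1 : ∑ d ∈ (gad G g h).bd (X ∪ Y), gz g z ze d =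
      ∑ d ∈ G.ds.filter (fun d => G.pi d ∈ X ∧ G.pi (G.al d) ∈ g.A ∧ G.pi (G.al d) ∉ X), z d +
      (∑ d ∈ g.P.filter (fun d => G.pi d ∈ X ∧ g.ga d ∉ Y), z d +
        ∑ d ∈ g.P.filter (fun d => G.pi d ∉ X ∧ g.ga d ∈ Y), z d) +
      ∑ d ∈ g.E.filter (fun d => g.pe d ∈ Y ∧ g.pe (g.be d) ∉ Y), ze d := by
    have e2 : ∑ d ∈ g.P.filter (fun d => G.pi d ∉ X ∧ g.ga d ∈ Y), z d =
        ∑ d ∈ (g.P.filter (fun d => G.pi d ∉ X ∧ g.ga d ∈ Y)).image G.al, z d := by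
      rw [sum_image]
      · refine sum_congr rfl fun d hd => (hsym d (h.P1 (mem_filter.1 hd).1).1).symm
      · intro a ha b hb hab
        have h1 := G.al_al a (h.P1 (mem_filter.1 (mem_coe.1 ha)).1).1
        have h2 := G.al_al b (h.P1 (mem_filter.1 (mem_coe.1 hb)).1).1
        have h3 : G.al a = G.al b := hab
        rw [← h1, h3, h2]
    have e3 : (gad G g h).bd (X ∪ Y) =
        ((G.ds.filter (fun d => G.pi d ∈ X ∧ G.pi (G.al d) ∈ g.A ∧ G.pi (G.al d) ∉ X) ∪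
          g.P.filter (fun d => G.pi d ∈ X ∧ g.ga d ∉ Y)) ∪
          (g.P.filter (fun d => G.pi d ∉ X ∧ g.ga d ∈ Y)).image G.al) ∪
          g.E.filter (fun d => g.pe d ∈ Y ∧ g.pe (g.be d) ∉ Y) := by
      ext d
      rw [mem_bd]
      change d ∈ gds G g ∧ gpi G g d ∈ X ∪ Y ∧ gpi G g (gal G g d) ∉ X ∪ Y ↔ _
      rw [mem_gds]
      refine Iff.trans ?_ (show (((d ∈ G.ds ∧ G.pi d ∈ X ∧ G.pi (G.al d) ∈ g.A ∧
          G.pi (G.al d) ∉ X) ∨ (d ∈ g.P ∧ G.pi d ∈ X ∧ g.ga d ∉ Y)) ∨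
          (∃ p ∈ g.P.filter (fun d => G.pi d ∉ X ∧ g.ga d ∈ Y), G.al p = d)) ∨
          (d ∈ g.E ∧ g.pe d ∈ Y ∧ g.pe (g.be d) ∉ Y) ↔ _ from ?_)
      rotate_left
      · rw [mem_union, mem_union, mem_union, mem_filter, mem_filter, mem_filter, mem_image]
      constructor
      · rintro ⟨⟨h1, h2, h3⟩ | h1 | ⟨p, h1, rfl⟩ | h1, h4, h5⟩
        · rw [h.gpiA h1 h2, hXK _ h2] at h4
          rw [GOk.galN (h.innE h1 h2), h.gpiA (G.al_mem _ h1) h3, hXK _ h3] at h5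
          exact Or.inl (Or.inl (Or.inl ⟨h1, h4, h3, h5⟩))
        · obtain ⟨a, b, c⟩ := h.P1 h1
          rw [h.gpiA a b, hXK _ b] at h4
          rw [GOk.galN (h.PE h1), h.gpiQ h1, hYK _ (h.gaK _ h1)] at h5
          exact Or.inl (Or.inl (Or.inr ⟨h1, h4, h5⟩))
        · obtain ⟨a, b, c⟩ := h.P1 h1
          rw [h.gpiQ h1, hYK _ (h.gaK _ h1)] at h4
          rw [GOk.galN (h.QE h1), G.al_al _ a, h.gpiA a b, hXK _ b] at h5
          exact Or.inl (Or.inr ⟨p, mem_filter.2 ⟨h1, h5, h4⟩, rfl⟩)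
        · rw [GOk.gpiE h1, hYK _ (h.peK _ h1)] at h4
          rw [GOk.galE h1, GOk.gpiE (h.beE _ h1), hYK _ (h.peK _ (h.beE _ h1))] at h5
          exact Or.inr ⟨h1, h4, h5⟩
      · rintro (((⟨h1, h2, h3, h4⟩ | ⟨h1, h2, h3⟩) | ⟨p, h1, rfl⟩) | ⟨h1, h2, h3⟩)
        · have h5 := hXA _ h2
          refine ⟨Or.inl ⟨h1, h5, h3⟩, ?_, ?_⟩
          · rw [h.gpiA h1 h5, hXK _ h5]
            exact h2
          · rw [GOk.galN (h.innE h1 h5), h.gpiA (G.al_mem _ h1) h3, hXK _ h3]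
            exact h4
        · obtain ⟨a, b, c⟩ := h.P1 h1
          refine ⟨Or.inr (Or.inl h1), ?_, ?_⟩
          · rw [h.gpiA a b, hXK _ b]
            exact h2
          · rw [GOk.galN (h.PE h1), h.gpiQ h1, hYK _ (h.gaK _ h1)]
            exact h3
        · obtain ⟨h1, h2, h3⟩ := mem_filter.1 h1
          obtain ⟨a, b, c⟩ := h.P1 h1
          refine ⟨Or.inr (Or.inr (Or.inl ⟨p, h1, rfl⟩)), ?_, ?_⟩
          · rw [h.gpiQ h1, hYK _ (h.gaK _ h1)]
            exact h3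
          · rw [GOk.galN (h.QE h1), G.al_al _ a, h.gpiA a b, hXK _ b]
            exact h2
        · refine ⟨Or.inr (Or.inr (Or.inr h1)), ?_, ?_⟩
          · rw [GOk.gpiE h1, hYK _ (h.peK _ h1)]
            exact h2
          · rw [GOk.galE h1, GOk.gpiE (h.beE _ h1), hYK _ (h.peK _ (h.beE _ h1))]
            exact h3
    rw [e3, sum_union, sum_union, sum_union, e2]
    · rw [sum_congr rfl fun d hd => hz d (h.innE (mem_filter.1 hd).1 (hXA _ (mem_filter.1 hd).2.1)),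
        sum_congr rfl fun d hd => hz d (h.PE (mem_filter.1 hd).1)]
      have e4 : ∑ d ∈ (g.P.filter (fun d => G.pi d ∉ X ∧ g.ga d ∈ Y)).image G.al, gz g z ze d =
          ∑ d ∈ (g.P.filter (fun d => G.pi d ∉ X ∧ g.ga d ∈ Y)).image G.al, z d := by
        refine sum_congr rfl fun d hd => ?_
        obtain ⟨p, hp, rfl⟩ := mem_image.1 hd
        exact hz _ (h.QE (mem_filter.1 hp).1)
      have e5 : ∑ d ∈ g.E.filter (fun d => g.pe d ∈ Y ∧ g.pe (g.be d) ∉ Y), gz g z ze d =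
          ∑ d ∈ g.E.filter (fun d => g.pe d ∈ Y ∧ g.pe (g.be d) ∉ Y), ze d := by
        refine sum_congr rfl fun d hd => ?_
        unfold gz
        rw [if_pos (mem_filter.1 hd).1]
      rw [e4, e5]
      ring
    · rw [disjoint_left]
      intro d h1 h2
      exact (h.P1 (mem_filter.1 h2).1).2.2 (mem_filter.1 h1).2.2.1
    · rw [disjoint_left]
      intro d h1 h2
      obtain ⟨p, hp, rfl⟩ := mem_image.1 h2
      have h3 := (h.P1 (mem_filter.1 hp).1).2.2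
      rcases mem_union.1 h1 with h1 | h1
      · exact h3 (hXA _ (mem_filter.1 h1).2.1)
      · exact h3 (h.P1 (mem_filter.1 h1).1).2.1
    · rw [disjoint_left]
      intro d h1 h2
      have h3 := (mem_filter.1 h2).1
      rcases mem_union.1 h1 with h1 | h1
      · rcases mem_union.1 h1 with h1 | h1
        · exact h.innE (mem_filter.1 h1).1 (hXA _ (mem_filter.1 h1).2.1) h3
        · exact h.PE (mem_filter.1 h1).1 h3
      · obtain ⟨p, hp, rfl⟩ := mem_image.1 h1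
        exact h.QE (mem_filter.1 hp).1 h3
  -- the boundary of `X` in `G`
  have e6 : ∑ d ∈ G.bd X, z d =
      ∑ d ∈ G.ds.filter (fun d => G.pi d ∈ X ∧ G.pi (G.al d) ∈ g.A ∧ G.pi (G.al d) ∉ X), z d +
      (∑ d ∈ g.P.filter (fun d => G.pi d ∈ X), z d +
        ∑ d ∈ (G.bd g.A).filter (fun d => d ∉ g.P ∧ G.pi d ∈ X), z d) := by
    have e7 : G.bd X =
        G.ds.filter (fun d => G.pi d ∈ X ∧ G.pi (G.al d) ∈ g.A ∧ G.pi (G.al d) ∉ X) ∪
          (g.P.filter (fun d => G.pi d ∈ X) ∪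
            (G.bd g.A).filter (fun d => d ∉ g.P ∧ G.pi d ∈ X)) := by
      ext d
      rw [mem_bd, mem_union, mem_union, mem_filter, mem_filter, mem_filter, mem_bd]
      constructor
      · rintro ⟨h1, h2, h3⟩
        by_cases h4 : G.pi (G.al d) ∈ g.A
        · exact Or.inl ⟨h1, h2, h4, h3⟩
        · by_cases h5 : d ∈ g.P
          · exact Or.inr (Or.inl ⟨h5, h2⟩)
          · exact Or.inr (Or.inr ⟨⟨h1, hXA _ h2, h4⟩, h5, h2⟩)
      · rintro (⟨h1, h2, h3, h4⟩ | ⟨h1, h2⟩ | ⟨⟨h1, h2, h3⟩, h4, h5⟩)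
        · exact ⟨h1, h2, h4⟩
        · exact ⟨(h.P1 h1).1, h2, fun h3 => (h.P1 h1).2.2 (hXA _ h3)⟩
        · exact ⟨h1, h5, fun h6 => h3 (hXA _ h6)⟩
    rw [e7, sum_union, sum_union]
    · rw [disjoint_left]
      intro d h1 h2
      exact (mem_filter.1 h2).2.1 (mem_filter.1 h1).1
    · rw [disjoint_left]
      intro d h1 h2
      have h3 := (mem_filter.1 h1).2.2.1
      rcases mem_union.1 h2 with h2 | h2
      · exact (h.P1 (mem_filter.1 h2).1).2.2 h3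
      · exact (mem_bd.1 (mem_filter.1 h2).1).2.2 h3
  -- tokens
  have e8 : ∑ v ∈ X ∪ Y, gt G g z t tk v = ∑ v ∈ X, t v +
      ∑ d ∈ (G.bd g.A).filter (fun d => d ∉ g.P ∧ G.pi d ∈ X), z d + ∑ v ∈ Y, tk v := by
    rw [sum_union (disjoint_left.2 fun v h1 h2 => h.dj _ (hY h2) (hX h1))]
    have e9 : ∑ v ∈ X, gt G g z t tk v = ∑ v ∈ X, (t v + ∑ d ∈ gdp G g v, z d) := by
      refine sum_congr rfl fun v hv => ?_
      unfold gt
      rw [if_neg fun h1 => h.dj _ h1 (hX hv)]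
    have e10 : ∑ v ∈ Y, gt G g z t tk v = ∑ v ∈ Y, tk v := by
      refine sum_congr rfl fun v hv => ?_
      unfold gt
      rw [if_pos (hY hv)]
    have e11 : ∑ v ∈ X, ∑ d ∈ gdp G g v, z d =
        ∑ d ∈ (G.bd g.A).filter (fun d => d ∉ g.P ∧ G.pi d ∈ X), z d := by
      rw [← sum_biUnion]
      · refine sum_congr ?_ fun _ _ => rfl
        ext d
        rw [mem_biUnion, mem_filter]
        constructor
        · rintro ⟨v, hv, hd⟩
          obtain ⟨h1, h2, h3⟩ := mem_filter.1 hd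
          exact ⟨h1, h2, h3 ▸ hv⟩
        · rintro ⟨h1, h2, h3⟩
          exact ⟨_, h3, mem_filter.2 ⟨h1, h2, rfl⟩⟩
      · intro v _ w _ hvw
        change Disjoint (gdp G g v) (gdp G g w)
        rw [disjoint_left]
        intro d h3 h4
        exact hvw ((mem_filter.1 h3).2.2.symm.trans (mem_filter.1 h4).2.2)
    rw [e9, e10, sum_add_distrib, e11]
  have e12 : ∑ d ∈ g.P.filter (fun d => G.pi d ∈ X ∧ g.ga d ∉ Y), z d +
        ∑ d ∈ g.P.filter (fun d => G.pi d ∉ X ∧ g.ga d ∈ Y), z d =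
      ∑ d ∈ g.P.filter (fun d => G.pi d ∈ X), z d + ∑ d ∈ g.P.filter (fun d => g.ga d ∈ Y), z d -
        2 * ∑ d ∈ g.P.filter (fun d => G.pi d ∈ X ∧ g.ga d ∈ Y), z d := by
    rw [sum_filter, sum_filter, sum_filter, sum_filter, sum_filter, ← sum_add_distrib,
      ← sum_add_distrib, mul_sum, ← sum_sub_distrib]
    refine sum_congr rfl fun d _ => ?_
    by_cases a : G.pi d ∈ X <;> by_cases b : g.ga d ∈ Y <;> simp [a, b] <;> ring
  unfold gpw gvk
  change ∑ d ∈ (gad G g h).bd (X ∪ Y), gz g z ze d + ∑ v ∈ X ∪ Y, gt G g z t tk v =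
    (∑ d ∈ G.bd X, z d + ∑ v ∈ X, t v) + _ - _
  rw [e1, e6, e8, e12]
  ring

end MG

end RH
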