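import Pool.Agent.Lib.RH.Gad

/-! # Gadgets, part 2: weights, tokens, matchings, fresh part of a gadget graph -/

set_option autoImplicit false

namespace RH

open Finset Classical

namespace MG

variable {V D : Type*} {G : MG V D} {g : GD V D} {z : D → ℝ} {t : V → ℝ}

theorem st_eq_bd {v : V} : G.st v = G.bd {v} := by
  ext d
  rw [mem_st, mem_bd, mem_singleton, mem_singleton]
  constructor
  · rintro ⟨h1, h2⟩
    exact ⟨h1, h2, fun h3 => G.noloop d h1 (h3.trans h2.symm)⟩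
  · rintro ⟨h1, h2, -⟩
    exact ⟨h1, h2⟩

theorem val_empty' : G.val z t ∅ = 0 := by
  unfold val
  have h1 : G.bd ∅ = ∅ := by
    rw [Finset.eq_empty_iff_forall_notMem]
    intro d hd
    exact notMem_empty _ (mem_bd.1 hd).2.1
  rw [h1, sum_empty, sum_empty, add_zero]

theorem gvk_empty {ze : D → ℝ} {tk : V → ℝ} : gvk g z ze tk ∅ = 0 := by
  unfold gvk
  simp

theorem gpw_empty {X : Finset V} : gpw G g z X ∅ = 0 := by
  unfold gpw
  simp

theorem gpw_empty' {Y : Finset V} : gpw G g z ∅ Y = 0 := by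
  unfold gpw
  simp

/-- `gvk` as sums over all ports, gadget darts, gadget vertices -/
theorem gvk_eq {ze : D → ℝ} {tk : V → ℝ} {Y : Finset V} (hY : Y ⊆ g.K) :
    gvk g z ze tk Y = (∑ d ∈ g.P, if g.ga d ∈ Y then z d else 0) +
      (∑ d ∈ g.E, if g.pe d ∈ Y ∧ g.pe (g.be d) ∉ Y then ze d else 0) +
      ∑ v ∈ g.K, if v ∈ Y then tk v else 0 := by
  unfold gvk
  rw [sum_filter, sum_filter, ← sum_filter (s := g.K), filter_mem_eq_inter, inter_eq_right.2 hY]

theorem gpw_eq {X Y : Finset V} :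
    gpw G g z X Y = ∑ d ∈ g.P, if G.pi d ∈ X ∧ g.ga d ∈ Y then z d else 0 := by
  unfold gpw
  rw [sum_filter]

theorem card_eq_ite {K Y : Finset V} (hY : Y ⊆ K) : Y.card = ∑ v ∈ K, if v ∈ Y then 1 else 0 := by
  rw [card_eq_sum_ones, ← sum_filter, filter_mem_eq_inter, inter_eq_right.2 hY]

/-- weights of the gadget graph -/
theorem gad_wt (h : GOk G g) (hw : G.Wt z t) {ze : D → ℝ} {tk : V → ℝ}
    (ze0 : ∀ d ∈ g.E, 0 ≤ ze d) (zes : ∀ d ∈ g.E, ze (g.be d) = ze d)
    (tk0 : ∀ v ∈ g.K, 0 ≤ tk v) (kd : ∀ v ∈ g.K, gvk g z ze tk {v} = 3)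
    (kc : ∀ X ⊆ g.A, ∀ Y ⊆ g.K, Odd (X.card + Y.card) →
      3 ≤ G.val z t X + gvk g z ze tk Y - 2 * gpw G g z X Y) :
    (gad G g h).Wt (gz g z ze) (gt G g z t tk) where
  z0 := by
    intro d hd
    change d ∈ gds G g at hd
    unfold gz
    split_ifs with h0
    · exact ze0 d h0
    · rcases mem_gds.1 hd with ⟨h1, -⟩ | h1 | ⟨p, h1, rfl⟩ | h1
      · exact hw.z0 d h1
      · exact hw.z0 d (h.P1 h1).1
      · exact hw.z0 _ (h.Qds h1)
      · exact absurd h1 h0
  t0 := by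
    intro v hv
    change v ∈ g.A ∪ g.K at hv
    unfold gt
    split_ifs with h0
    · exact tk0 v h0
    · have hvA := (mem_union.1 hv).resolve_right h0
      refine add_nonneg (hw.t0 v (h.hA hvA)) (sum_nonneg fun d hd => ?_)
      exact hw.z0 d (mem_bd.1 (mem_filter.1 hd).1).1
  sym := by
    intro d hd
    change d ∈ gds G g at hd
    change gz g z ze (gal G g d) = gz g z ze d
    by_cases h0 : d ∈ g.E
    · rw [GOk.galE h0]
      unfold gz
      rw [if_pos (h.beE _ h0), if_pos h0, zes _ h0]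
    · rw [GOk.galN h0]
      have h2 : G.al d ∉ g.E ∧ d ∈ G.ds := by
        rcases mem_gds.1 hd with ⟨h1, h2, h3⟩ | h1 | ⟨p, h1, rfl⟩ | h1
        · exact ⟨h.innE (G.al_mem _ h1) h3, h1⟩
        · exact ⟨h.QE h1, (h.P1 h1).1⟩
        · rw [G.al_al _ (h.P1 h1).1]
          exact ⟨h.PE h1, h.Qds h1⟩
        · exact absurd h1 h0
      unfold gz
      rw [if_neg h2.1, if_neg h0, hw.sym _ h2.2]
  deg := by
    intro v hv
    change v ∈ g.A ∪ g.K at hv
    rw [st_eq_bd]
    have e1 : ∑ d ∈ (gad G g h).bd {v}, gz g z ze d + gt G g z t tk v =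
        (gad G g h).val (gz g z ze) (gt G g z t tk) {v} := by
      unfold val
      rw [sum_singleton]
    rw [e1]
    rcases mem_union.1 hv with h1 | h1
    · have h2 := gad_val (t := t) h hw.sym ze tk (singleton_subset_iff.2 h1) (empty_subset g.K)
      rw [union_empty, gvk_empty, gpw_empty, hw.val_single (h.hA h1)] at h2
      rw [h2]
      ring
    · have h2 := gad_val (t := t) h hw.sym ze tk (empty_subset g.A) (singleton_subset_iff.2 h1)
      rw [empty_union, kd v h1, gpw_empty', val_empty'] at h2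
      rw [h2]
      ring
  cut := by
    intro X hX ho
    change X ⊆ g.A ∪ g.K at hX
    have h1 : X = (X ∩ g.A) ∪ (X ∩ g.K) := by
      rw [← inter_union_distrib_left, inter_eq_left.2 hX]
    have h2 : Disjoint (X ∩ g.A) (X ∩ g.K) := disjoint_left.2 fun v h3 h4 =>
      h.dj _ (mem_inter.1 h4).2 (mem_inter.1 h3).2
    rw [h1, card_union_of_disjoint h2] at ho
    rw [h1, gad_val h hw.sym ze tk inter_subset_right inter_subset_right]
    exact kc _ inter_subset_right _ inter_subset_right ho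

/-- number of tokens -/
theorem gad_tau (h : GOk G g) (ze : D → ℝ) (hsym : ∀ d ∈ G.ds, z (G.al d) = z d) (tk : V → ℝ) :
    ∑ v ∈ (gad G g h).vs, gt G g z t tk v =
      ∑ v ∈ g.A, t v + ∑ d ∈ (G.bd g.A).filter (fun d => d ∉ g.P), z d + ∑ v ∈ g.K, tk v := by
  have h1 := gad_val (t := t) h hsym ze tk (subset_refl g.A) (subset_refl g.K)
  have h2 : (gad G g h).bd (g.A ∪ g.K) = ∅ := by
    rw [Finset.eq_empty_iff_forall_notMem]
    intro d hd
    obtain ⟨h3, -, h4⟩ := mem_bd.1 hd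
    exact h4 ((gad G g h).pi_mem _ ((gad G g h).al_mem _ h3))
  have h3 : g.P.filter (fun d => g.ga d ∈ g.K) = g.P := filter_true_of_mem fun d hd => h.gaK d hd
  have h4 : g.P.filter (fun d => G.pi d ∈ g.A ∧ g.ga d ∈ g.K) = g.P :=
    filter_true_of_mem fun d hd => ⟨(h.P1 hd).2.1, h.gaK d hd⟩
  have h5 : g.E.filter (fun d => g.pe d ∈ g.K ∧ g.pe (g.be d) ∉ g.K) = ∅ := by
    rw [filter_eq_empty_iff]
    rintro d hd ⟨-, h6⟩
    exact h6 (h.peK _ (h.beE _ hd))
  have h6 : ∑ d ∈ G.bd g.A, z d = ∑ d ∈ g.P, z d +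
      ∑ d ∈ (G.bd g.A).filter (fun d => d ∉ g.P), z d := by
    rw [← sum_filter_add_sum_filter_not (G.bd g.A) (fun d => d ∈ g.P), filter_mem_eq_inter,
      inter_eq_right.2 h.hP]
  unfold gvk gpw at h1
  rw [h3, h4, h5, sum_empty] at h1
  unfold val at h1
  rw [h2, sum_empty, h6] at h1
  change ∑ v ∈ g.A ∪ g.K, gt G g z t tk v = _
  linarith

/-- adding the complement of `A` to a subset of `A` -/
theorem Wt.val_join (hw : G.Wt z t) {A X : Finset V} (hA : A ⊆ G.vs) (hX : X ⊆ A) :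
    G.val z t (X ∪ (G.vs \ A)) = G.val z t X + G.val z t (G.vs \ A) -
      2 * ∑ d ∈ (G.bd A).filter (fun d => G.pi d ∈ X), z d := by
  have h1 := hw.submod (hX.trans hA) (sdiff_subset : G.vs \ A ⊆ G.vs)
  have h2 : X ∩ (G.vs \ A) = ∅ := by
    rw [Finset.eq_empty_iff_forall_notMem]
    intro v hv
    exact (mem_sdiff.1 (mem_inter.1 hv).2).2 (hX (mem_inter.1 hv).1)
  have h3 : G.ed (X \ (G.vs \ A)) ((G.vs \ A) \ X) = (G.bd A).filter (fun d => G.pi d ∈ X) := by
    ext d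
    rw [mem_ed, mem_filter, mem_bd, mem_sdiff, mem_sdiff, mem_sdiff, mem_sdiff]
    constructor
    · rintro ⟨h4, ⟨h5, -⟩, ⟨-, h6⟩, -⟩
      exact ⟨⟨h4, hX h5, h6⟩, h5⟩
    · rintro ⟨⟨h4, h5, h6⟩, h7⟩
      exact ⟨h4, ⟨h7, fun h8 => h8.2 h5⟩, ⟨G.pi_mem _ (G.al_mem _ h4), h6⟩, fun h8 => h6 (hX h8)⟩
  rw [h2, h3, val_empty'] at h1
  linarith

/-! ## matchings -/

/-- a matching of `A` (the darts at `A`), exits allowed -/
structure HM (G : MG V D) (A : Finset V) (M : Finset D) : Prop where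
  sub : ∀ d ∈ M, d ∈ G.ds ∧ G.pi d ∈ A
  clo : ∀ d ∈ M, G.pi (G.al d) ∈ A → G.al d ∈ M
  one : ∀ v ∈ A, (M.filter fun d => G.pi d = v).card = 1

/-- the part at `A` -/
noncomputable def resM (G : MG V D) (A : Finset V) (M : Finset D) : Finset D :=
  M.filter fun d => d ∈ G.ds ∧ G.pi d ∈ A

theorem mem_resM {A : Finset V} {M : Finset D} {d : D} :
    d ∈ G.resM A M ↔ d ∈ M ∧ d ∈ G.ds ∧ G.pi d ∈ A := by
  unfold resM
  rw [mem_filter]

theorem IsPM.toHM {A : Finset V} {M : Finset D} (hM : G.IsPM M) (hA : A ⊆ G.vs) :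
    G.HM A (G.resM A M) where
  sub := fun _ hd => (mem_resM.1 hd).2
  clo := fun d hd h1 => mem_resM.2 ⟨hM.closed d (mem_resM.1 hd).1,
    G.al_mem _ (mem_resM.1 hd).2.1, h1⟩
  one := by
    intro v hv
    rw [← hM.one v (hA hv)]
    congr 1
    ext d
    rw [mem_filter, mem_filter, mem_resM]
    constructor
    · rintro ⟨⟨h1, -⟩, h2⟩
      exact ⟨h1, h2⟩
    · rintro ⟨h1, h2⟩
      exact ⟨⟨h1, hM.sub h1, h2 ▸ hv⟩, h2⟩

theorem gad_HM (h : GOk G g) {M : Finset D} (hM : (gad G g h).IsPM M) :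
    G.HM g.A (G.resM g.A M) where
  sub := fun _ hd => (mem_resM.1 hd).2
  clo := by
    intro d hd h1
    obtain ⟨h2, h3, h4⟩ := mem_resM.1 hd
    have h5 := hM.closed d h2
    change gal G g d ∈ M at h5
    rw [GOk.galN (h.innE h3 h4)] at h5
    exact mem_resM.2 ⟨h5, G.al_mem _ h3, h1⟩
  one := by
    intro v hv
    rw [← hM.one v (mem_union_left _ hv)]
    congr 1
    ext d
    change _ ↔ d ∈ M.filter fun d => gpi G g d = v
    rw [mem_filter, mem_filter, mem_resM]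
    constructor
    · rintro ⟨⟨h1, h2, h3⟩, h4⟩
      exact ⟨h1, by rw [h.gpiA h2 h3]; exact h4⟩
    · rintro ⟨h1, h2⟩
      have h3 : d ∈ gds G g := hM.sub h1
      rcases mem_gds.1 h3 with ⟨h4, h5, h6⟩ | h4 | ⟨p, h4, rfl⟩ | h4
      · rw [h.gpiA h4 h5] at h2
        exact ⟨⟨h1, h4, h5⟩, h2⟩
      · rw [h.gpiA (h.P1 h4).1 (h.P1 h4).2.1] at h2
        exact ⟨⟨h1, h.P1 h4 |>.1, (h.P1 h4).2.1⟩, h2⟩
      · rw [h.gpiQ h4] at h2
        exact absurd hv (h2 ▸ h.dj _ (h.gaK _ h4))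
      · rw [GOk.gpiE h4] at h2
        exact absurd hv (h2 ▸ h.dj _ (h.peK _ h4))

/-- used exits are kept ports -/
theorem gad_exit (h : GOk G g) {M : Finset D} (hM : (gad G g h).IsPM M) {d : D}
    (hd : d ∈ G.bd g.A) (h1 : d ∈ M) : d ∈ g.P := by
  obtain ⟨h2, h3, h4⟩ := mem_bd.1 hd
  have h5 : d ∈ gds G g := hM.sub h1
  rcases mem_gds.1 h5 with ⟨-, -, h6⟩ | h6 | ⟨p, h6, rfl⟩ | h6
  · exact absurd h6 h4
  · exact h6
  · exact absurd h3 (h.P1 h6).2.2
  · exact absurd h6 (h.innE h2 h3)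

/-- the pattern of the gadget matching is the pattern of the matching of `A` -/
theorem gad_pat (h : GOk G g) {M : Finset D} {d : D} (hd : d ∈ g.P) :
    d ∈ G.resM g.A M ↔ d ∈ M :=
  ⟨fun h1 => (mem_resM.1 h1).1, fun h1 => mem_resM.2 ⟨h1, (h.P1 hd).1, (h.P1 hd).2.1⟩⟩

/-- each gadget vertex uses one dart: a port or a gadget dart -/
theorem gad_one (h : GOk G g) {M : Finset D} (hM : (gad G g h).IsPM M) {v : V} (hv : v ∈ g.K) :
    (g.P.filter fun d => g.ga d = v ∧ d ∈ M).card +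
      (g.E.filter fun d => g.pe d = v ∧ d ∈ M).card = 1 := by
  rw [← hM.one v (mem_union_right _ hv)]
  have h1 : (g.P.filter fun d => g.ga d = v ∧ d ∈ M).card =
      ((g.P.filter fun d => g.ga d = v ∧ d ∈ M).image G.al).card := by
    rw [card_image_of_injOn]
    intro a ha b hb hab
    have h1 := G.al_al a (h.P1 (mem_filter.1 (mem_coe.1 ha)).1).1
    have h2 := G.al_al b (h.P1 (mem_filter.1 (mem_coe.1 hb)).1).1
    have h3 : G.al a = G.al b := hab
    rw [← h1, h3, h2]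
  rw [h1, ← card_union_of_disjoint]
  · congr 1
    ext d
    change _ ↔ d ∈ M.filter fun d => gpi G g d = v
    rw [mem_union, mem_image, mem_filter, mem_filter]
    constructor
    · rintro (⟨p, hp, rfl⟩ | ⟨h2, h3, h4⟩)
      · obtain ⟨h2, h3, h4⟩ := mem_filter.1 hp
        have h5 := hM.closed p h4
        change gal G g p ∈ M at h5
        rw [GOk.galN (h.PE h2)] at h5
        exact ⟨h5, by rw [h.gpiQ h2]; exact h3⟩
      · exact ⟨h4, by rw [GOk.gpiE h2]; exact h3⟩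
    · rintro ⟨h2, h3⟩
      have h4 : d ∈ gds G g := hM.sub h2
      rcases mem_gds.1 h4 with ⟨h5, h6, h7⟩ | h5 | ⟨p, h5, rfl⟩ | h5
      · rw [h.gpiA h5 h6] at h3
        exact absurd h6 (h3 ▸ h.dj _ hv)
      · rw [h.gpiA (h.P1 h5).1 (h.P1 h5).2.1] at h3
        exact absurd (h.P1 h5).2.1 (h3 ▸ h.dj _ hv)
      · rw [h.gpiQ h5] at h3
        have h6 := hM.closed _ h2
        change gal G g (G.al p) ∈ M at h6
        rw [GOk.galN (h.QE h5), G.al_al _ (h.P1 h5).1] at h6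
        exact Or.inl ⟨p, mem_filter.2 ⟨h5, h3, h6⟩, rfl⟩
      · rw [GOk.gpiE h5] at h3
        exact Or.inr ⟨h5, h3, h2⟩
  · rw [disjoint_left]
    intro d h2 h3
    obtain ⟨p, hp, rfl⟩ := mem_image.1 h2
    exact h.QE (mem_filter.1 hp).1 (mem_filter.1 h3).1

/-- the number of used ports has the parity of `A` -/
theorem HM.parity {A : Finset V} {M : Finset D} (hM : G.HM A M) :
    (M.filter fun d => d ∈ G.bd A).card % 2 = A.card % 2 := by
  have h1 : M.card = A.card := by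
    rw [card_eq_sum_card_fiberwise (f := G.pi) (s := M) (t := A)
      (fun d hd => mem_coe.2 (hM.sub d (mem_coe.1 hd)).2)]
    rw [sum_congr rfl fun v hv => hM.one v hv, sum_const, smul_eq_mul, mul_one]
  have h2 : Even (M.filter fun d => ¬ d ∈ G.bd A).card := by
    have h3 : ∑ _d ∈ M.filter (fun d => ¬ d ∈ G.bd A), (1 : ZMod 2) = 0 := by
      refine sum_involution (fun d _ => G.al d) ?_ ?_ ?_ ?_
      · intro d _
        decide
      · intro d hd _ he
        exact G.noloop d (hM.sub d (mem_filter.1 hd).1).1 (by rw [he])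
      · intro d hd
        obtain ⟨h4, h5⟩ := mem_filter.1 hd
        obtain ⟨h6, h7⟩ := hM.sub d h4
        have h8 : G.pi (G.al d) ∈ A := by
          by_contra h9
          exact h5 (mem_bd.2 ⟨h6, h7, h9⟩)
        refine mem_filter.2 ⟨hM.clo d h4 h8, fun h9 => ?_⟩
        have h10 := (mem_bd.1 h9).2.2
        rw [G.al_al d h6] at h10
        exact h10 h7
      · intro d hd
        exact G.al_al d (hM.sub d (mem_filter.1 hd).1).1
    rw [sum_const, nsmul_eq_mul, mul_one] at h3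
    rwa [ZMod.natCast_eq_zero_iff_even] at h3
  have h3 := card_filter_add_card_filter_not (s := M) (fun d => d ∈ G.bd A)
  rw [h1] at h3
  obtain ⟨k, hk⟩ := h2
  omega

/-- **GLUEING** two matchings with the same pattern -/
theorem HM.glue {A : Finset V} {M1 M2 : Finset D} (h1 : G.HM A M1) (h2 : G.HM (G.vs \ A) M2)
    (hx : ∀ d ∈ G.bd A, d ∈ M1 ↔ G.al d ∈ M2) : G.IsPM (M1 ∪ M2) where
  sub := by
    intro d hd
    rcases mem_union.1 hd with h3 | h3
    · exact (h1.sub d h3).1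
    · exact (h2.sub d h3).1
  closed := by
    intro d hd
    rcases mem_union.1 hd with h3 | h3
    · obtain ⟨h4, h5⟩ := h1.sub d h3
      by_cases h6 : G.pi (G.al d) ∈ A
      · exact mem_union_left _ (h1.clo d h3 h6)
      · exact mem_union_right _ ((hx d (mem_bd.2 ⟨h4, h5, h6⟩)).1 h3)
    · obtain ⟨h4, h5⟩ := h2.sub d h3
      by_cases h6 : G.pi (G.al d) ∈ A
      · refine mem_union_left _ ((hx (G.al d) (mem_bd.2 ⟨G.al_mem _ h4, h6, ?_⟩)).2 ?_)
        · rw [G.al_al _ h4]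
          exact (mem_sdiff.1 h5).2
        · rw [G.al_al _ h4]
          exact h3
      · exact mem_union_right _ (h2.clo d h3
          (mem_sdiff.2 ⟨G.pi_mem _ (G.al_mem _ h4), h6⟩))
  one := by
    intro v hv
    by_cases h3 : v ∈ A
    · rw [← h1.one v h3]
      congr 1
      ext d
      rw [mem_filter, mem_filter, mem_union]
      constructor
      · rintro ⟨h4 | h4, h5⟩
        · exact ⟨h4, h5⟩
        · exact absurd h3 (h5 ▸ (mem_sdiff.1 (h2.sub d h4).2).2)
      · rintro ⟨h4, h5⟩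
        exact ⟨Or.inl h4, h5⟩
    · rw [← h2.one v (mem_sdiff.2 ⟨hv, h3⟩)]
      congr 1
      ext d
      rw [mem_filter, mem_filter, mem_union]
      constructor
      · rintro ⟨h4 | h4, h5⟩
        · exact absurd (h1.sub d h4).2 (h5 ▸ h3)
        · exact ⟨h4, h5⟩
      · rintro ⟨h4, h5⟩
        exact ⟨Or.inr h4, h5⟩

end MG

end RH
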