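import Pool.Agent.Lib.RH.CE6Gam

/-! GLUING WITH ONE STAR (helper36, helper96: for a fixed outer half at most one inner pair of unused
exits is bad). `HM.par`: parity of a union on one side; `exists_bad`: the unused exits of the
quasi-closed unions of a half matching with at most three unused exits are always the same pair;
`X6.no_glueS`: the inner half has to exclude this pair only. -/

set_option autoImplicit false

namespace RH

open Finset Classical

namespace MG

variable {V D : Type*} {G : MG V D} {z : D → ℝ} {t : V → ℝ}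
variable {fr : Finset V} {F M M1 M2 T : Finset D} {jm A W X Y Y' : Finset V}

private theorem even_inv (S : Finset D) (hS : S ⊆ G.ds) (hcl : ∀ d ∈ S, G.al d ∈ S) :
    Even S.card := by
  have h1 : ∑ _d ∈ S, (1 : ZMod 2) = 0 := by
    refine sum_involution (fun d _ => G.al d) ?_ ?_ ?_ ?_
    · intro d _
      decide
    · intro d hd _ he
      exact G.noloop d (hS hd) (by rw [he])
    · intro d hd
      exact hcl d hd
    · intro d hd
      exact G.al_al d (hS hd)
  rw [sum_const, nsmul_eq_mul, mul_one] at h1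
  rwa [ZMod.natCast_eq_zero_iff_even] at h1

/-- parity: vertices and used boundary darts -/
theorem HM.par (hM : G.HM A M) (hY : Y ⊆ A) :
    (Y.card + ((G.bd Y).filter fun d => d ∈ M).card) % 2 = 0 := by
  have h1 : (M.filter fun d => G.pi d ∈ Y).card = Y.card := by
    rw [card_eq_sum_card_fiberwise (f := G.pi) (s := M.filter fun d => G.pi d ∈ Y) (t := Y)
      (fun d hd => mem_coe.2 (mem_filter.1 (mem_coe.1 hd)).2), card_eq_sum_ones]
    refine sum_congr rfl fun v hv => ?_
    rw [← hM.one v (hY hv)]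
    congr 1
    ext d
    rw [mem_filter, mem_filter, mem_filter]
    constructor
    · rintro ⟨⟨h1, -⟩, h2⟩
      exact ⟨h1, h2⟩
    · rintro ⟨h1, h2⟩
      exact ⟨⟨h1, h2 ▸ hv⟩, h2⟩
  have h2 : (M.filter fun d => G.pi d ∈ Y).card =
      (M.filter fun d => G.pi d ∈ Y ∧ G.pi (G.al d) ∈ Y).card +
        ((G.bd Y).filter fun d => d ∈ M).card := by
    rw [← card_union_of_disjoint]
    · congr 1
      ext d
      rw [mem_union, mem_filter, mem_filter, mem_filter, mem_bd]
      constructor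
      · rintro ⟨h3, h4⟩
        by_cases h5 : G.pi (G.al d) ∈ Y
        · exact Or.inl ⟨h3, h4, h5⟩
        · exact Or.inr ⟨⟨(hM.sub d h3).1, h4, h5⟩, h3⟩
      · rintro (⟨h3, h4, -⟩ | ⟨⟨-, h4, -⟩, h3⟩)
        · exact ⟨h3, h4⟩
        · exact ⟨h3, h4⟩
    · rw [disjoint_left]
      intro d h3 h4
      exact (mem_bd.1 (mem_filter.1 h4).1).2.2 (mem_filter.1 h3).2.2
  have h3 : Even (M.filter fun d => G.pi d ∈ Y ∧ G.pi (G.al d) ∈ Y).card := by
    refine even_inv (G := G) _ (fun d hd => (hM.sub d (mem_filter.1 hd).1).1) fun d hd => ?_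
    obtain ⟨h4, h5, h6⟩ := mem_filter.1 hd
    have h7 := (hM.sub d h4).1
    exact mem_filter.2 ⟨hM.clo d h4 (hY h6), h6, by rw [G.al_al d h7]; exact h5⟩
  rw [Nat.even_iff] at h3
  omega

/-- parity: unused boundary darts and star vertices -/
theorem HM.unused (hF : G.FrS z fr F jm) (hM : G.HM A M) (hY : G.Adm fr F Y) (hYA : Y ⊆ A) :
    ((G.bd Y).filter fun d => d ∉ M).card % 2 = (Y ∩ jm).card % 2 := by
  have h1 := hM.par hYA
  have h2 := hF.bd_par hY
  have h3 := card_filter_add_card_filter_not (s := G.bd Y) (fun d => d ∈ M)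
  omega

/-- a quasi-closed union on the side `A`: all boundary darts are used or are exits; the star is
inside or outside -/
structure QC (G : MG V D) (fr : Finset V) (F M : Finset D) (jm A Y : Finset V) : Prop where
  adm : G.Adm fr F Y
  sub : Y ⊆ A
  cl : ∀ d ∈ G.bd Y, d ∉ M → G.pi (G.al d) ∉ A
  star : jm ⊆ Y ∨ Disjoint jm Y

theorem QC.inter (h1 : G.QC fr F M jm A Y) (h2 : G.QC fr F M jm A Y') :
    G.QC fr F M jm A (Y ∩ Y') where
  adm := h1.adm.inter h2.adm
  sub := inter_subset_left.trans h1.sub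
  cl := by
    intro d hd hn
    obtain ⟨k1, k2, k3⟩ := mem_bd.1 hd
    obtain ⟨k4, k5⟩ := mem_inter.1 k2
    by_cases k6 : G.pi (G.al d) ∈ Y
    · exact h2.cl d (mem_bd.2 ⟨k1, k5, fun k7 => k3 (mem_inter.2 ⟨k6, k7⟩)⟩) hn
    · exact h1.cl d (mem_bd.2 ⟨k1, k4, k6⟩) hn
  star := by
    rcases h1.star with h3 | h3
    · rcases h2.star with h4 | h4
      · exact Or.inl (subset_inter h3 h4)
      · exact Or.inr (h4.mono_right inter_subset_right)
    · exact Or.inr (h3.mono_right inter_subset_left)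

/-- the number of unused exits of a quasi-closed union is even -/
theorem QC.even (hF : G.FrS z fr F jm) (hj2 : jm = ∅ ∨ jm.card = 2) (hM : G.HM A M)
    (h : G.QC fr F M jm A Y) : Even ((G.bd Y).filter fun d => d ∉ M).card := by
  have h1 := hM.unused hF h.adm h.sub
  rw [Nat.even_iff, h1]
  rcases h.star with h2 | h2
  · rw [inter_eq_right.2 h2]
    rcases hj2 with h3 | h3
    · rw [h3, card_empty]
    · rw [h3]
  · rw [disjoint_iff_inter_eq_empty.1 h2.symm, card_empty]

/-- the unused exits of a union are unused exits of the side -/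
theorem QC.sub_exits (h : G.QC fr F M jm A Y) :
    ((G.bd Y).filter fun d => d ∉ M) ⊆ (G.bd A).filter fun d => d ∉ M := by
  intro d hd
  obtain ⟨h1, h2⟩ := mem_filter.1 hd
  obtain ⟨k1, k2, k3⟩ := mem_bd.1 h1
  exact mem_filter.2 ⟨mem_bd.2 ⟨k1, h.sub k2, h.cl d h1 h2⟩, h2⟩

/-- **ONE BAD PAIR**: at most three unused exits -/
theorem exists_bad (hF : G.FrS z fr F jm) (hj2 : jm = ∅ ∨ jm.card = 2) (hM : G.HM A M)
    (h3 : ((G.bd A).filter fun d => d ∉ M).card ≤ 3) :
    (∀ Y, G.QC fr F M jm A Y → (G.bd Y).filter (fun d => d ∉ M) = ∅) ∨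
      ∃ T ⊆ (G.bd A).filter (fun d => d ∉ M), T.card = 2 ∧ (∀ d ∈ T, G.pi d ∈ fr) ∧
        ∀ Y, G.QC fr F M jm A Y → (G.bd Y).filter (fun d => d ∉ M) = ∅ ∨
          (G.bd Y).filter (fun d => d ∉ M) = T := by
  by_cases hc : ∀ Y, G.QC fr F M jm A Y → (G.bd Y).filter (fun d => d ∉ M) = ∅
  · exact Or.inl hc
  · right
    push Not at hc
    obtain ⟨Y, hY, hne0⟩ := hc
    have hne : (G.bd Y).filter (fun d => d ∉ M) ≠ ∅ := nonempty_iff_ne_empty.1 hne0
    have hcard : ∀ Y, G.QC fr F M jm A Y → (G.bd Y).filter (fun d => d ∉ M) ≠ ∅ →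
        ((G.bd Y).filter (fun d => d ∉ M)).card = 2 := by
      intro Y hY hne
      have h4 := hY.even hF hj2 hM
      have h5 := card_le_card hY.sub_exits
      have h6 : 0 < ((G.bd Y).filter (fun d => d ∉ M)).card :=
        card_pos.2 (nonempty_iff_ne_empty.2 hne)
      rw [Nat.even_iff] at h4
      omega
    refine ⟨_, hY.sub_exits, hcard Y hY hne, fun d hd => hY.adm.sub
      (mem_bd.1 (mem_filter.1 hd).1).2.1, fun Y' hY' => ?_⟩
    by_cases hne' : (G.bd Y').filter (fun d => d ∉ M) = ∅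
    · exact Or.inl hne'
    · right
      have c1 := hcard Y hY hne
      have c2 := hcard Y' hY' hne'
      have hi := (hY.inter hY').even hF hj2 hM
      have e1 : (G.bd (Y ∩ Y')).filter (fun d => d ∉ M) =
          (G.bd Y).filter (fun d => d ∉ M) ∩ (G.bd Y').filter (fun d => d ∉ M) := by
        ext d
        rw [mem_inter, mem_filter, mem_filter, mem_filter]
        constructor
        · rintro ⟨k1, k2⟩
          have k3 := (hY.inter hY').cl d k1 k2
          obtain ⟨k4, k5, k6⟩ := mem_bd.1 k1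
          obtain ⟨k7, k8⟩ := mem_inter.1 k5
          exact ⟨⟨mem_bd.2 ⟨k4, k7, fun k => k3 (hY.sub k)⟩, k2⟩,
            ⟨mem_bd.2 ⟨k4, k8, fun k => k3 (hY'.sub k)⟩, k2⟩⟩
        · rintro ⟨⟨k1, k2⟩, k3, -⟩
          obtain ⟨k4, k5, k6⟩ := mem_bd.1 k1
          obtain ⟨k7, k8, k9⟩ := mem_bd.1 k3
          exact ⟨mem_bd.2 ⟨k4, mem_inter.2 ⟨k5, k8⟩, fun k => k6 (mem_inter.1 k).1⟩, k2⟩
      rw [e1, Nat.even_iff] at hi
      have c3 := card_union_add_card_inter ((G.bd Y).filter (fun d => d ∉ M))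
        ((G.bd Y').filter (fun d => d ∉ M))
      have c4 : ((G.bd Y).filter (fun d => d ∉ M) ∪ (G.bd Y').filter (fun d => d ∉ M)).card ≤ 3 :=
        (card_le_card (union_subset hY.sub_exits hY'.sub_exits)).trans h3
      have c5 : ((G.bd Y).filter (fun d => d ∉ M) ∩ (G.bd Y').filter (fun d => d ∉ M)).card = 2 := by
        have c6 := card_le_card (inter_subset_left (s₁ := (G.bd Y).filter (fun d => d ∉ M))
          (s₂ := (G.bd Y').filter (fun d => d ∉ M)))
        omega
      have c6 : (G.bd Y).filter (fun d => d ∉ M) ∩ (G.bd Y').filter (fun d => d ∉ M) =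
          (G.bd Y').filter (fun d => d ∉ M) :=
        eq_of_subset_of_card_le inter_subset_right (by omega)
      have c7 : (G.bd Y).filter (fun d => d ∉ M) ∩ (G.bd Y').filter (fun d => d ∉ M) =
          (G.bd Y).filter (fun d => d ∉ M) :=
        eq_of_subset_of_card_le inter_subset_left (by omega)
      rw [← c6, c7]

/-- no union of the side `W` which is closed up to the exits of `T` contains all their ends -/
def Lk (G : MG V D) (fr : Finset V) (F : Finset D) (W : Finset V) (M T : Finset D) : Prop :=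
  ∀ X, G.Adm fr F X → X ⊆ W → (∀ d ∈ G.bd X, d ∈ M ∨ d ∈ T) → ¬ ∀ d ∈ T, G.pi d ∈ X

/-- it is enough that one end is not fresh -/
theorem Lk.of_not_fr {d : D} (hd : d ∈ T) (hn : G.pi d ∉ fr) : G.Lk fr F W M T :=
  fun _ hX _ _ h => hn (hX.sub (h d hd))

/-- **GLUING WITH ONE STAR**: for the outer half `M2` there is for every pair `T` of unused exits with
fresh ends an inner half with the same pattern which excludes `T` -/
theorem X6.no_glueS (h : X6 G t fr F jm) {M2 : Finset D}
    (h2 : G.GHalf one1 fr F jm A M2) (h3 : ((G.bd A).filter fun d => d ∉ M2).card ≤ 3)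
    (hFA : ∀ d ∈ F, G.pi d ∈ A → G.pi (G.al d) ∈ A) (hj : jm ⊆ A)
    (h0 : ∃ M1, G.GHalf one1 fr F jm (G.vs \ A) M1 ∧ ∀ d ∈ G.bd A, d ∈ M2 ↔ G.al d ∈ M1)
    (hT : ∀ T ⊆ (G.bd A).filter (fun d => d ∉ M2), T.card = 2 → (∀ d ∈ T, G.pi d ∈ fr) →
      ∃ M1, G.GHalf one1 fr F jm (G.vs \ A) M1 ∧ (∀ d ∈ G.bd A, d ∈ M2 ↔ G.al d ∈ M1) ∧
        G.Lk fr F (G.vs \ A) M1 (T.image G.al)) : False := by
  have hq : ∀ M1, G.GHalf one1 fr F jm (G.vs \ A) M1 → (∀ d ∈ G.bd A, d ∈ M2 ↔ G.al d ∈ M1) →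
      ∀ X, G.Adm fr F X → (∀ d ∈ G.bd X, d ∈ M2 ∪ M1) → G.QC fr F M2 jm A (X ∩ A) ∧
        (G.bd (X ∩ A)).filter (fun d => d ∉ M2) = G.uX F (M2 ∪ M1) X A := by
    intro M1 h1 hx X hX hcl
    have hpm := HM.glue h2.hm h1.hm hx
    have hone : ∀ d, G.pi d ∈ A → d ∈ M2 ∪ M1 → d ∈ M2 := by
      intro d hd hm
      rcases mem_union.1 hm with hm | hm
      · exact hm
      · exact absurd hd (mem_sdiff.1 (h1.hm.sub d hm).2).2
    refine ⟨⟨hX.interW hFA, inter_subset_right, ?_, ?_⟩, ?_⟩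
    · intro d hd hn hA'
      obtain ⟨k1, k2, k3⟩ := mem_bd.1 hd
      obtain ⟨k4, k5⟩ := mem_inter.1 k2
      have k6 : G.pi (G.al d) ∉ X := fun k => k3 (mem_inter.2 ⟨k, hA'⟩)
      exact hn (hone d k5 (hcl d (mem_bd.2 ⟨k1, k4, k6⟩)))
    · have h4 := h.fresh.closed_jm hpm hX hcl
      rcases h.jm2 with h5 | h5
      · left
        rw [h5]
        exact empty_subset _
      · have h6 : (X ∩ jm).card ≤ 2 := (card_le_card inter_subset_right).trans h5.le
        rw [Nat.even_iff] at h4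
        by_cases h7 : (X ∩ jm).card = 0
        · right
          rw [disjoint_right]
          intro v hv hvj
          rw [card_eq_zero] at h7
          have h8 : v ∈ X ∩ jm := mem_inter.2 ⟨(mem_inter.1 hv).1, hvj⟩
          rw [h7] at h8
          exact notMem_empty _ h8
        · left
          have h8 : X ∩ jm = jm := eq_of_subset_of_card_le inter_subset_right (by omega)
          intro v hv
          have h9 : v ∈ X ∩ jm := by
            rw [h8]
            exact hv
          exact mem_inter.2 ⟨(mem_inter.1 h9).1, hj hv⟩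
    · ext d
      rw [mem_filter, mem_uX, mem_bd, mem_inter]
      constructor
      · rintro ⟨⟨k1, ⟨k2, k3⟩, k4⟩, k5⟩
        have k6 : d ∉ M2 ∪ M1 := fun k => k5 (hone d k3 k)
        have k7 : G.pi (G.al d) ∈ X := by
          by_contra k7
          exact k6 (hcl d (mem_bd.2 ⟨k1, k2, k7⟩))
        have k8 : G.pi (G.al d) ∉ A := fun k => k4 (mem_inter.2 ⟨k7, k⟩)
        exact ⟨k1, fun k => k8 (hFA d k k3), k6, k2, k7, k3, k8⟩
      · rintro ⟨k1, k2, k3, k4, k5, k6, k7⟩
        exact ⟨⟨k1, ⟨k4, k6⟩, fun k => k7 (mem_inter.1 k).2⟩,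
          fun k => k3 (mem_union_left _ k)⟩
  have hp : ∀ M1, G.GHalf one1 fr F jm (G.vs \ A) M1 → (∀ d ∈ G.bd A, d ∈ M2 ↔ G.al d ∈ M1) →
      (∀ X, G.Adm fr F X → (∀ d ∈ G.bd X, d ∈ M2 ∪ M1) → G.uX F (M2 ∪ M1) X A = ∅) → False :=
    fun M1 h1 hx h0 => h.bad ⟨_, GHalf.glue h.fresh h2 h1 hx hFA (Or.inl hj) h0⟩
  rcases exists_bad h.fresh h.jm2 h2.hm h3 with hb | ⟨T, hTs, hT2, hTf, hb⟩
  · obtain ⟨M1, h1, hx⟩ := h0
    refine hp M1 h1 hx fun X hX hcl => ?_
    obtain ⟨q1, q2⟩ := hq M1 h1 hx X hX hcl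
    rw [← q2]
    exact hb _ q1
  · obtain ⟨M1, h1, hx, hl⟩ := hT T hTs hT2 hTf
    refine hp M1 h1 hx fun X hX hcl => ?_
    obtain ⟨q1, q2⟩ := hq M1 h1 hx X hX hcl
    rw [← q2]
    rcases hb _ q1 with h4 | h4
    · exact h4
    · exfalso
      rw [q2] at h4
      have hpm := HM.glue h2.hm h1.hm hx
      have e1 : X ∩ (G.vs \ A) = X \ A := by
        ext v
        rw [mem_inter, mem_sdiff, mem_sdiff]
        constructor
        · rintro ⟨k1, -, k2⟩
          exact ⟨k1, k2⟩
        · rintro ⟨k1, k2⟩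
          exact ⟨k1, h.fresh.fsub (hX.sub k1), k2⟩
      refine hl (X \ A) (hX.sdiffW h.fresh hFA) (fun v hv => ?_) ?_ ?_
      · exact mem_sdiff.2 ⟨h.fresh.fsub (hX.sub (mem_sdiff.1 hv).1), (mem_sdiff.1 hv).2⟩
      · intro d hd
        obtain ⟨k1, k2, k3⟩ := mem_bd.1 hd
        obtain ⟨k4, k5⟩ := mem_sdiff.1 k2
        by_cases k6 : d ∈ M2 ∪ M1
        · rcases mem_union.1 k6 with k7 | k7
          · exact absurd (h2.hm.sub d k7).2 k5
          · exact Or.inl k7
        · right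
          have k7 : G.pi (G.al d) ∈ X := by
            by_contra k7
            exact k6 (hcl d (mem_bd.2 ⟨k1, k4, k7⟩))
          have k8 : G.pi (G.al d) ∈ A := by
            by_contra k8
            exact k3 (mem_sdiff.2 ⟨k7, k8⟩)
          have k9 : G.al d ∈ T := by
            rw [← h4, mem_uX, G.al_al d k1]
            refine ⟨G.al_mem d k1, fun k => ?_, fun k => ?_, k7, k4, k8, k5⟩
            · have := hFA _ k k8
              rw [G.al_al d k1] at this
              exact k5 this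
            · have := hpm.closed _ k
              rw [G.al_al d k1] at this
              exact k6 this
          exact mem_image.2 ⟨G.al d, k9, G.al_al d k1⟩
      · intro d hd
        obtain ⟨e, he, rfl⟩ := mem_image.1 hd
        rw [← h4] at he
        obtain ⟨k1, k2, k3, k4, k5, k6, k7⟩ := mem_uX.1 he
        exact mem_sdiff.2 ⟨k5, k7⟩

end MG

end RH
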