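import Pool.Agent.Lib.RH.SFcut
import Pool.Agent.Lib.RH.Pole

/-! Two-cuts (helper42): an even set `Z` of value 2 without F-edges in its boundary and with a
boundary edge `e` of weight 1. First part: weights at the cut, the restriction to `Z`, the inner
instance with two prescribed edges. -/

set_option autoImplicit false

namespace RH

open Finset Classical

namespace MG

variable {V D : Type*}

/-- an even set `Z` of value 2 without F-edges in its boundary, with a boundary dart `e` of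
weight 1 -/
structure C2 (G : MG V D) (z : D → ℝ) (t : V → ℝ) (F : Finset D) (Z : Finset V) (e : D) :
    Prop where
  hZ : Z ⊆ G.vs
  he : Even Z.card
  hv : G.val z t Z = 2
  ed : e ∈ G.ds
  eZ : G.pi e ∈ Z
  eY : G.pi (G.al e) ∉ Z
  ze : z e = 1
  FZ : ∀ d ∈ F, G.pi d ∈ Z → G.pi (G.al d) ∈ Z

variable {G G' : MG V D} {z z' : D → ℝ} {t : V → ℝ} {Z Y W : Finset V} {Del : Finset D}
variable {fr fr' : Finset V} {F F' : Finset D} {jm jm' sx B : Finset V} {ω : V} {e g : D}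
variable {ep : V → ℕ} {m : ℕ} {M : Finset D}

theorem C2.e_bd (c : G.C2 z t F Z e) : e ∈ G.bd Z := mem_bd.2 ⟨c.ed, c.eZ, c.eY⟩

theorem erase_odd (he : Even Z.card) {v : V} (hv : v ∈ Z) : Odd (Z.erase v).card := by
  rw [card_erase_of_mem hv]
  have h5 : 0 < Z.card := card_pos.2 ⟨_, hv⟩
  obtain ⟨k, hk⟩ := he
  exact ⟨k - 1, by omega⟩

/-- the inner end of `e` -/
theorem C2.one_in (c : G.C2 z t F Z e) (hw : G.Wt z t) : t (G.pi e) = 0 ∧
    (∀ d ∈ G.bd Z, G.pi d = G.pi e → d ≠ e → z d = 0) ∧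
      G.val z t (Z.erase (G.pi e)) = 3 := by
  have h1 := hw.val_erase c.hZ c.eZ
  rw [c.hv] at h1
  have h2 := hw.cut (Z.erase (G.pi e)) ((erase_subset _ _).trans c.hZ) (erase_odd c.he c.eZ)
  have hmem : ∀ d ∈ G.bd Z, G.pi d = G.pi e → d ∈ G.ed {G.pi e} (G.vs \ Z) := by
    intro d hd hp
    obtain ⟨h3, h4, h5⟩ := mem_bd.1 hd
    exact mem_ed.2 ⟨h3, mem_singleton.2 hp, mem_sdiff.2 ⟨G.pi_mem _ (G.al_mem _ h3), h5⟩⟩
  have h3 := add_sum_erase (G.ed {G.pi e} (G.vs \ Z)) z (hmem e c.e_bd rfl)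
  rw [c.ze] at h3
  have h4 : 0 ≤ ∑ d ∈ (G.ed {G.pi e} (G.vs \ Z)).erase e, z d :=
    sum_nonneg fun d hd => hw.z0 d (mem_ed.1 (mem_erase.1 hd).2).1
  have h5 := hw.t0 _ (c.hZ c.eZ)
  refine ⟨by linarith, fun d hd hp hne => ?_, by linarith⟩
  have h6 := single_le_sum (f := z) (s := (G.ed {G.pi e} (G.vs \ Z)).erase e)
    (fun d hd => hw.z0 d (mem_ed.1 (mem_erase.1 hd).2).1) (mem_erase.2 ⟨hne, hmem d hd hp⟩)
  have h7 := hw.z0 d (mem_bd.1 hd).1
  linarith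

/-- the outer end of `e` -/
theorem C2.one_out (c : G.C2 z t F Z e) (hw : G.Wt z t) {d : D} (hd : d ∈ G.bd Z)
    (hp : G.pi (G.al d) = G.pi (G.al e)) (hne : d ≠ e) : z d = 0 := by
  have hcv : G.pi (G.al e) ∈ G.vs := G.pi_mem _ (G.al_mem _ c.ed)
  have h1 := hw.submod c.hZ (singleton_subset_iff.2 hcv)
  have hd1 : Disjoint Z {G.pi (G.al e)} := disjoint_singleton_right.2 c.eY
  have h2 : Z ∩ {G.pi (G.al e)} = ∅ := disjoint_iff_inter_eq_empty.1 hd1
  have h3 : Z \ {G.pi (G.al e)} = Z := sdiff_eq_self_of_disjoint hd1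
  have h4 : ({G.pi (G.al e)} : Finset V) \ Z = {G.pi (G.al e)} :=
    sdiff_eq_self_of_disjoint hd1.symm
  have h6 : G.val z t ∅ = 0 := by
    unfold val bd
    simp
  rw [h2, h3, h4, h6, c.hv, hw.val_single hcv] at h1
  have h5 := hw.cut (Z ∪ {G.pi (G.al e)}) (union_subset c.hZ (singleton_subset_iff.2 hcv)) (by
    rw [card_union_of_disjoint hd1, card_singleton]
    exact c.he.add_one)
  have hmem : ∀ d ∈ G.bd Z, G.pi (G.al d) = G.pi (G.al e) → d ∈ G.ed Z {G.pi (G.al e)} := by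
    intro d hd hp
    obtain ⟨h3, h4, h5⟩ := mem_bd.1 hd
    exact mem_ed.2 ⟨h3, h4, mem_singleton.2 hp⟩
  have h7 := add_sum_erase (G.ed Z {G.pi (G.al e)}) z (hmem e c.e_bd rfl)
  rw [c.ze] at h7
  have h8 := single_le_sum (f := z) (s := (G.ed Z {G.pi (G.al e)}).erase e)
    (fun d hd => hw.z0 d (mem_ed.1 (mem_erase.1 hd).2).1) (mem_erase.2 ⟨hne, hmem d hd hp⟩)
  have h9 := hw.z0 d (mem_bd.1 hd).1
  linarith

theorem C2.sum_rest (c : G.C2 z t F Z e) :
    ∑ d ∈ (G.bd Z).erase e, z d + ∑ v ∈ Z, t v = 1 := by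
  have h1 := c.hv
  unfold val at h1
  have h2 := add_sum_erase (G.bd Z) z c.e_bd
  rw [c.ze] at h2
  linarith

/-- at most one more unit -/
theorem C2.rest_le (c : G.C2 z t F Z e) (hw : G.Wt z t) (hg : g ∈ G.bd Z) (hge : g ≠ e) {d : D}
    (hd : d ∈ G.bd Z) (hde : d ≠ e) (hdg : d ≠ g) : z g + z d ≤ 1 := by
  have h1 := c.sum_rest
  have h2 := add_sum_erase ((G.bd Z).erase e) z (mem_erase.2 ⟨hge, hg⟩)
  have h3 := single_le_sum (f := z) (s := ((G.bd Z).erase e).erase g)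
    (fun d hd => hw.z0 d (mem_bd.1 (mem_erase.1 (mem_erase.1 hd).2).2).1)
    (mem_erase.2 ⟨hdg, mem_erase.2 ⟨hde, hd⟩⟩)
  have h4 : 0 ≤ ∑ v ∈ Z, t v := sum_nonneg fun v hv => hw.t0 v (c.hZ hv)
  linarith

theorem C2.t_le (c : G.C2 z t F Z e) (hw : G.Wt z t) (hg : g ∈ G.bd Z) (hge : g ≠ e) :
    z g + ∑ v ∈ Z, t v ≤ 1 := by
  have h1 := c.sum_rest
  have h3 := single_le_sum (f := z) (s := (G.bd Z).erase e)
    (fun d hd => hw.z0 d (mem_bd.1 (mem_erase.1 hd).2).1) (mem_erase.2 ⟨hge, hg⟩)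
  linarith

theorem C2.outF (c : G.C2 z t F Z e) {d : D} (hd : d ∈ G.bd Z) : d ∉ F := fun h =>
  (mem_bd.1 hd).2.2 (c.FZ d h (mem_bd.1 hd).2.1)

/-! ### closed sets on a side -/

theorem Side.closed (s : Side G G' Y Del) {M' : Finset D} {X : Finset V}
    (hcl : ∀ d ∈ G.bd X, d ∈ M) (hag : ∀ d ∈ M, G.pi d ∈ Y → d ∈ M')
    (hlink : ∀ d ∈ G.ds, G.pi d ∈ X → G.pi d ∈ Y → G.pi (G.al d) ∉ Y → G.pi (G.al d) ∈ X →
      d ∉ Del → d ∈ M') : ∀ d ∈ G'.bd (X ∩ Y), d ∈ M' := by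
  intro d hd
  rw [s.bd inter_subset_right] at hd
  obtain ⟨h1, h2⟩ := mem_sdiff.1 hd
  obtain ⟨h3, h4, h5⟩ := mem_bd.1 h1
  obtain ⟨h6, h7⟩ := mem_inter.1 h4
  by_cases h8 : G.pi (G.al d) ∈ X
  · exact hlink d h3 h6 h7 (fun h9 => h5 (mem_inter.2 ⟨h8, h9⟩)) h8 h2
  · exact hag d (hcl d (mem_bd.2 ⟨h3, h6, h8⟩)) h7

theorem Side.mono (s : Side G G' Z ∅) (hY : Y ⊆ Z) : Side G G' Y ∅ := by
  refine ⟨hY.trans s.ZG, hY.trans s.Zs, fun d hd => absurd hd (notMem_empty d), ?_, ?_, ?_⟩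
  · exact fun d hd hp h => s.up d hd (hY hp) h
  · exact fun d hd hp => s.dn d hd (hY hp)
  · intro d hd hp h h2
    by_cases h3 : G.pi (G.al d) ∈ Z
    · obtain ⟨-, -, -, -, h4⟩ := s.inn hd (hY hp) h3
      rw [h4]
      exact h2
    · exact fun h4 => s.out d hd (hY hp) h h3 (hY h4)

/-- the restriction as a side -/
theorem side_resZ (hZ : Z ⊆ G.vs) : Side G (G.res Z) Z (G.bd Z) := by
  refine ⟨hZ, fun v hv => mem_inter.2 ⟨hZ hv, hv⟩, fun d hd => mem_bd.1 hd, ?_, ?_, ?_⟩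
  · intro d hd hp h
    have h1 : G.pi (G.al d) ∈ Z := by
      by_contra h2
      exact h (mem_bd.2 ⟨hd, hp, h2⟩)
    exact ⟨mem_filter.2 ⟨hd, hp, h1⟩, rfl, rfl⟩
  · intro d hd _
    obtain ⟨h1, h2, h3⟩ := mem_filter.1 hd
    exact ⟨h1, rfl, fun h4 => (mem_bd.1 h4).2.2 h3⟩
  · intro d hd hp h h2
    exact h2

/-- admissible sets of a side are admissible -/
theorem adm_side (s : Side G G' Z Del) (hF : G.FrS z fr F jm)
    (hDF : ∀ d ∈ Del, d ∉ F) {X : Finset V}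
    (hX : G'.Adm (fr ∩ Z) (F.filter fun d => G.pi d ∈ Z) X) : G.Adm fr F X := by
  refine ⟨hX.sub.trans inter_subset_left, fun d hd hp => ?_⟩
  have hZ : G.pi d ∈ Z := (mem_inter.1 (hX.sub hp)).2
  obtain ⟨h1, h2, h3⟩ := s.up d (hF.Fsub hd) hZ (fun h => hDF d h hd)
  have h4 := hX.clo d (mem_filter.2 ⟨hd, hZ⟩) (by rw [h2]; exact hp)
  have h5 : G'.pi (G'.al d) ∈ Z := (mem_inter.1 (hX.sub h4)).2
  have h6 := (s.pi_al h1 (by rw [h2]; exact hZ) h5).1 rfl
  rw [h6]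
  exact h4

theorem side_adm (s : Side G G' Z Del) (hFZ : ∀ d ∈ F, G.pi d ∈ Z → G.pi (G.al d) ∈ Z)
    (hF : G.FrS z fr F jm) {X : Finset V} (hX : G.Adm fr F X) (hXZ : X ⊆ Z) :
    G'.Adm (fr ∩ Z) (F.filter fun d => G.pi d ∈ Z) X := by
  refine ⟨fun v hv => mem_inter.2 ⟨hX.sub hv, hXZ hv⟩, fun d hd hp => ?_⟩
  obtain ⟨h1, h2⟩ := mem_filter.1 hd
  have h3 := hF.Fsub h1
  obtain ⟨h4, h5, h6, h7, h8⟩ := s.inn h3 h2 (hFZ d h1 h2)
  rw [h6, h8]
  exact hX.clo d h1 (by rw [← h5]; exact hp)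

theorem InstS.ep_le (h : G.InstS z t fr F jm sx ep m) {X : Finset V} (hX : X ⊆ fr) :
    ∑ v ∈ X, ep v ≤ (X ∩ jm).card := by
  rw [← sum_ite_card]
  exact sum_le_sum fun v hv => h.epj v (hX hv)

/-- the restriction to `Z` as a raw instance -/
theorem InstS.res_raw (h : G.InstS z t fr F jm sx ep 0) (hZ : Z ⊆ G.vs) (he : Even Z.card)
    (hv : G.val z t Z < 6) (hFZ : ∀ d ∈ F, G.pi d ∈ Z → G.pi (G.al d) ∈ Z)
    (hj' : jm' ⊆ fr ∩ Z) (hc : jm' = ∅ ∨ jm'.card = 2)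
    (hDel : ∀ d ∈ G.bd Z, G.pi d ∈ fr → G.pi d ∈ B ∨ G.pi d ∈ jm')
    (hj1 : ∀ v ∈ jm', v ∈ jm ∨ ∃ d ∈ G.bd Z, G.pi d = v)
    (hj2 : ∀ v ∈ jm, v ∈ Z → v ∈ jm' ∨ v ∈ B)
    (hb0 : ∀ X, G.Adm fr F X → X ⊆ Z → Disjoint X B → Even X.card → jm'.Nonempty → jm' ⊆ X →
      2 ≤ ((G.res Z).bd X).card) :
    (G.res Z).RawI z (G.tres z t Z) (fr ∩ Z) (F.filter fun d => G.pi d ∈ Z) jm' B 0 := by
  have hF := h.fresh
  have s := side_resZ (G := G) hZ
  have hDF : ∀ d ∈ G.bd Z, d ∉ F := fun d hd hdF =>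
    (mem_bd.1 hd).2.2 (hFZ d hdF (mem_bd.1 hd).2.1)
  have hbdle : ∀ X, G.Adm fr F X → X ⊆ Z → Disjoint X B →
      (G.bd X).card + (X ∩ jm).card ≤ ((G.res Z).bd X).card + (X ∩ jm').card := by
    intro X hX hXZ hXB
    have h1 : (G.bd X).card = ((G.res Z).bd X).card +
        ((G.bd X).filter fun d => G.pi (G.al d) ∉ Z).card := by
      rw [res_bd hXZ, card_union_of_disjoint]
      · rw [← res_bd hXZ]
      · rw [disjoint_left]
        intro d hd hd'
        have h1 : d ∈ (G.res Z).ds := (mem_filter.1 hd).1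
        exact (mem_filter.1 hd').2 (mem_filter.1 h1).2.2
    have h2 : ((G.bd X).filter fun d => G.pi (G.al d) ∉ Z).card ≤ ((X ∩ jm') \ jm).card := by
      refine card_le_card_of_injOn G.pi ?_ ?_
      · intro d hd
        obtain ⟨h3, h4⟩ := mem_filter.1 (mem_coe.1 hd)
        obtain ⟨h5, h6, h7⟩ := mem_bd.1 h3
        have h8 : d ∈ G.bd Z := mem_bd.2 ⟨h5, hXZ h6, h4⟩
        have h9 : G.pi d ∈ jm' := (hDel d h8 (hX.sub h6)).resolve_left
          fun h => disjoint_left.1 hXB h6 h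
        exact mem_coe.2 (mem_sdiff.2 ⟨mem_inter.2 ⟨h6, h9⟩, fun h10 =>
          hDF d h8 (hF.j0 _ h10 d (mem_st.2 ⟨h5, rfl⟩))⟩)
      · intro d hd d' hd' hp
        obtain ⟨h3, h4⟩ := mem_filter.1 (mem_coe.1 hd)
        obtain ⟨h5, h6, h7⟩ := mem_bd.1 h3
        obtain ⟨h3', h4'⟩ := mem_filter.1 (mem_coe.1 hd')
        obtain ⟨h5', h6', h7'⟩ := mem_bd.1 h3'
        have h8 : d ∈ G.bd Z := mem_bd.2 ⟨h5, hXZ h6, h4⟩
        have h8' : d' ∈ G.bd Z := mem_bd.2 ⟨h5', hXZ h6', h4'⟩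
        have h9 : G.pi d ∉ jm := fun h10 => hDF d h8 (hF.j0 _ h10 d (mem_st.2 ⟨h5, rfl⟩))
        obtain ⟨j, -, -, -, j4⟩ := hF.exists_jd (hX.sub h6) h9
        rw [j4 d h5 rfl (hDF d h8), j4 d' h5' hp.symm (hDF d' h8')]
    have h3 : (X ∩ jm).card ≤ ((X ∩ jm') ∩ jm).card := by
      refine card_le_card fun v hv => ?_
      obtain ⟨h4, h5⟩ := mem_inter.1 hv
      have h6 := (hj2 v h5 (hXZ h4)).resolve_right fun h => disjoint_left.1 hXB h4 h
      exact mem_inter.2 ⟨mem_inter.2 ⟨h4, h6⟩, h5⟩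
    have h4 := card_sdiff_add_card_inter (X ∩ jm') jm
    omega
  refine ⟨?_, h.wt.res hZ, ?_, ?_, hc, ?_, ?_, ?_⟩
  · have : (G.res Z).vs = Z := inter_eq_right.2 hZ
    rw [this]
    exact he
  · rw [res_tau h.wt hZ]
    exact hv
  · refine s.frB (B := B) hF ?_ ?_ ?_ hj' (fun v hv _ => (mem_inter.1 hv).1) ?_
      (fun d _ _ _ => rfl) ?_ ?_ ?_ ?_ ?_ ?_ ?_
    · exact fun v hv => mem_inter.2 ⟨hF.fsub (mem_inter.1 hv).1, (mem_inter.1 hv).2⟩
    · intro d hd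
      obtain ⟨h1, h2⟩ := mem_filter.1 hd
      exact mem_filter.2 ⟨hF.Fsub h1, h2, hFZ d h1 h2⟩
    · intro d hd
      obtain ⟨h1, h2⟩ := mem_filter.1 hd
      exact mem_filter.2 ⟨hF.Fal d h1, hFZ d h1 h2⟩
    · intro d _ hp _ _
      rw [mem_filter]
      exact ⟨fun h => h.1, fun h => ⟨h, hp⟩⟩
    · intro d hd hp
      rcases hDel d hd (mem_inter.1 hp).1 with h1 | h1
      · exact Or.inl h1
      · exact Or.inr ⟨h1, hDF d hd⟩
    · intro v _ hv
      rcases hj1 v hv with h1 | ⟨d, h1, h2⟩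
      · exact Or.inl h1
      · exact Or.inr ⟨d, h1, h2, hDF d h1⟩
    · exact fun v hv _ hvj => hj2 v hvj hv
    · exact fun v hv hn _ => absurd (mem_inter.1 hv).2 hn
    · exact fun v hv hn _ _ => absurd (mem_inter.1 hv).2 hn
    · exact fun v hv hn _ => absurd (mem_inter.1 (hj' hv)).2 hn
    · exact fun d _ hp hn _ => absurd (mem_inter.1 hp).2 hn
  · intro X hX hXB ho
    have hX1 := adm_side s hF hDF hX
    have h1 := hbdle X hX1 (fun v hv => (mem_inter.1 (hX.sub hv)).2) hXB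
    have h2 := h.cc X hX1 ho
    have h3 := h.ep_le hX1.sub
    omega
  · exact fun X _ _ _ _ => Nat.zero_le _
  · intro X hX hXB he' hn hjX
    exact hb0 X (adm_side s hF hDF hX) (fun v hv => (mem_inter.1 (hX.sub hv)).2) hXB he' hn hjX

/-! ### subgraphs -/

/-- subgraph with vertex set `U` and dart set `E` -/
def subG (G : MG V D) (U : Finset V) (E : Finset D)
    (hE : ∀ d ∈ E, d ∈ G.ds ∧ G.pi d ∈ U ∧ G.al d ∈ E) : MG V D where
  vs := U
  ds := E
  pi := G.pi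
  al := G.al
  pi_mem := fun d hd => (hE d hd).2.1
  al_mem := fun d hd => (hE d hd).2.2
  al_al := fun d hd => G.al_al d (hE d hd).1
  noloop := fun d hd => G.noloop d (hE d hd).1

/-- tokens of a subgraph -/
noncomputable def tsub (G : MG V D) (z : D → ℝ) (E : Finset D) (v : V) : ℝ :=
  3 - ∑ d ∈ E.filter fun d => G.pi d = v, z d

theorem Wt.subG (hw : G.Wt z t) {U : Finset V} {E : Finset D} (hU : U ⊆ G.vs)
    (hE : ∀ d ∈ E, d ∈ G.ds ∧ G.pi d ∈ U ∧ G.al d ∈ E) :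
    (G.subG U E hE).Wt z (G.tsub z E) := by
  refine Wt.of_ed (fun d hd => hw.z0 d (hE d hd).1) ?_ (fun d hd => hw.sym d (hE d hd).1) ?_ ?_
  · intro v hv
    have h1 := hw.deg v (hU hv)
    have h2 := hw.t0 v (hU hv)
    have h3 : ∑ d ∈ E.filter (fun d => G.pi d = v), z d ≤ ∑ d ∈ G.st v, z d := by
      refine sum_le_sum_of_subset_of_nonneg ?_ fun d hd _ => hw.z0 d (mem_st.1 hd).1
      intro d hd
      obtain ⟨h4, h5⟩ := mem_filter.1 hd
      exact mem_st.2 ⟨(hE d h4).1, h5⟩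
    unfold tsub
    linarith
  · intro v _
    have h1 : (G.subG U E hE).st v = E.filter fun d => G.pi d = v := rfl
    rw [h1]
    unfold tsub
    ring
  · intro X hX ho
    refine le_trans ?_ (hw.ed_odd (hX.trans hU) ho)
    refine sum_le_sum_of_subset_of_nonneg ?_ fun d hd _ => hw.z0 d (mem_ed.1 hd).1
    intro d hd
    obtain ⟨h1, h2, h3⟩ := mem_ed.1 hd
    exact mem_ed.2 ⟨(hE d h1).1, h2, h3⟩

/-! ### the inner instance with two prescribed edges -/

theorem C2.in2_aux (c : G.C2 z t F Z e) (hg : g ∈ G.bd Z) :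
    ∀ d ∈ G.ds.filter (fun d => (G.pi d ∈ Z ∧ G.pi (G.al d) ∈ Z) ∨ d = e ∨ d = G.al e ∨ d = g ∨
      d = G.al g), d ∈ G.ds ∧ G.pi d ∈ insert (G.pi (G.al e)) (insert (G.pi (G.al g)) Z) ∧
      G.al d ∈ G.ds.filter (fun d => (G.pi d ∈ Z ∧ G.pi (G.al d) ∈ Z) ∨ d = e ∨ d = G.al e ∨
        d = g ∨ d = G.al g) := by
  intro d hd
  obtain ⟨h1, h2⟩ := mem_filter.1 hd
  obtain ⟨g1, g2, g3⟩ := mem_bd.1 hg
  refine ⟨h1, ?_, mem_filter.2 ⟨G.al_mem d h1, ?_⟩⟩
  · rcases h2 with h2 | rfl | rfl | rfl | rfl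
    · exact mem_insert_of_mem (mem_insert_of_mem h2.1)
    · exact mem_insert_of_mem (mem_insert_of_mem c.eZ)
    · exact mem_insert_self _ _
    · exact mem_insert_of_mem (mem_insert_of_mem g2)
    · exact mem_insert_of_mem (mem_insert_self _ _)
  · rcases h2 with h2 | rfl | rfl | rfl | rfl
    · left
      rw [G.al_al d h1]
      exact ⟨h2.2, h2.1⟩
    · exact Or.inr (Or.inr (Or.inl rfl))
    · exact Or.inr (Or.inl (G.al_al e c.ed))
    · exact Or.inr (Or.inr (Or.inr (Or.inr rfl)))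
    · exact Or.inr (Or.inr (Or.inr (Or.inl (G.al_al g g1))))

theorem MCS.in2 (h : G.MCS z t fr F jm sx ep 0) (c : G.C2 z t F Z e) (hg : g ∈ G.bd Z)
    (hge : g ≠ e) (hzg : 0 < z g) (hsy : 4 ≤ (G.vs \ Z).card ∨ (fr \ Z).Nonempty) :
    ∃ M2, G.Half Z M2 ∧ (∀ d ∈ M2, 0 < z d) ∧ e ∈ M2 ∧ g ∈ M2 ∧
      (∀ d ∈ M2, G.pi (G.al d) ∉ Z → d = e ∨ d = g) ∧
      ∀ X, G.Adm fr F X → X ⊆ Z → Odd X.card → ∃ d ∈ G.bd X, d ∉ M2 := by
  have hF := h.inst.fresh
  have hw := h.inst.wt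
  obtain ⟨g1, g2, g3⟩ := mem_bd.1 hg
  have hE := c.in2_aux hg
  obtain ⟨E, hEd⟩ : ∃ E, E = G.ds.filter (fun d => (G.pi d ∈ Z ∧ G.pi (G.al d) ∈ Z) ∨ d = e ∨
    d = G.al e ∨ d = g ∨ d = G.al g) := ⟨_, rfl⟩
  obtain ⟨U, hUd⟩ : ∃ U, U = insert (G.pi (G.al e)) (insert (G.pi (G.al g)) Z) := ⟨_, rfl⟩
  rw [← hEd, ← hUd] at hE
  have hmE : ∀ d, d ∈ E ↔ d ∈ G.ds ∧ ((G.pi d ∈ Z ∧ G.pi (G.al d) ∈ Z) ∨ d = e ∨
    d = G.al e ∨ d = g ∨ d = G.al g) := by
    intro d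
    rw [hEd, mem_filter]
  have hae := G.al_mem e c.ed
  have hag := G.al_mem g g1
  have hcne : G.pi (G.al e) ≠ G.pi (G.al g) := by
    intro h1
    have h2 := c.one_out hw hg h1.symm hge
    linarith
  have hUs : U ⊆ G.vs := by
    rw [hUd]
    intro v hv
    rw [mem_insert, mem_insert] at hv
    rcases hv with rfl | rfl | hv
    · exact G.pi_mem _ hae
    · exact G.pi_mem _ hag
    · exact c.hZ hv
  have hUc : U.card = Z.card + 2 := by
    rw [hUd, card_insert_of_notMem, card_insert_of_notMem g3]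
    rw [mem_insert, not_or]
    exact ⟨hcne, c.eY⟩
  have hZU : Z ⊆ U := by
    rw [hUd]
    exact (subset_insert _ _).trans (subset_insert _ _)
  -- no fresh inner ends except those of `e` and `g`
  have hfr : ∀ d ∈ G.bd Z, d ≠ e → d ≠ g → G.pi d ∉ fr := by
    intro d hd h1 h2 h3
    have h4 := c.rest_le hw hg hge hd h1 h2
    rw [hF.unit d (mem_bd.1 hd).1 h3] at h4
    linarith
  have hjZ : ∀ v ∈ Z, v ∉ jm := by
    intro v hv hj
    have h1 := c.t_le hw hg hge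
    have h2 := single_le_sum (f := t) (s := Z) (fun u hu => hw.t0 u (c.hZ hu)) hv
    rw [hF.t_jm hw hj] at h2
    linarith
  have s : Side G (G.subG U E hE) Z ((G.bd Z) \ {e, g}) := by
    refine ⟨c.hZ, hZU, fun d hd => mem_bd.1 (mem_sdiff.1 hd).1, ?_, ?_, ?_⟩
    · intro d hd hp hn
      refine ⟨(hmE d).2 ⟨hd, ?_⟩, rfl, rfl⟩
      by_cases h1 : G.pi (G.al d) ∈ Z
      · exact Or.inl ⟨hp, h1⟩
      · have h2 : d ∈ ({e, g} : Finset D) := by
          by_contra h3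
          exact hn (mem_sdiff.2 ⟨mem_bd.2 ⟨hd, hp, h1⟩, h3⟩)
        rw [mem_insert, mem_singleton] at h2
        rcases h2 with h2 | h2
        · exact Or.inr (Or.inl h2)
        · exact Or.inr (Or.inr (Or.inr (Or.inl h2)))
    · intro d hd hp
      obtain ⟨h1, h2⟩ := (hmE d).1 hd
      refine ⟨h1, rfl, fun h3 => ?_⟩
      obtain ⟨h4, h5⟩ := mem_sdiff.1 h3
      rw [mem_insert, mem_singleton, not_or] at h5
      have hp' : G.pi d ∈ Z := hp
      rcases h2 with h2 | h2 | h2 | h2 | h2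
      · exact (mem_bd.1 h4).2.2 h2.2
      · exact h5.1 h2
      · exact c.eY (by rw [← h2]; exact hp')
      · exact h5.2 h2
      · exact g3 (by rw [← h2]; exact hp')
    · intro d _ _ _ h1
      exact h1
  have hwt := hw.subG hUs hE
  have htau : ∑ v ∈ (G.subG U E hE).vs, G.tsub z E v < 6 := by
    rw [hwt.tau_eq]
    change 3 * (U.card : ℝ) - ∑ d ∈ E, z d < 6
    have h1 : E = G.ed Z Z ∪ ({e, G.al e} ∪ {g, G.al g}) := by
      ext d
      rw [hmE, mem_union, mem_ed, mem_union, mem_insert, mem_singleton, mem_insert, mem_singleton]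
      constructor
      · rintro ⟨a, b | b | b | b | b⟩
        · exact Or.inl ⟨a, b.1, b.2⟩
        · exact Or.inr (Or.inl (Or.inl b))
        · exact Or.inr (Or.inl (Or.inr b))
        · exact Or.inr (Or.inr (Or.inl b))
        · exact Or.inr (Or.inr (Or.inr b))
      · rintro (⟨a, b, b'⟩ | (rfl | rfl) | (rfl | rfl))
        · exact ⟨a, Or.inl ⟨b, b'⟩⟩
        · exact ⟨c.ed, Or.inr (Or.inl rfl)⟩
        · exact ⟨hae, Or.inr (Or.inr (Or.inl rfl))⟩
        · exact ⟨g1, Or.inr (Or.inr (Or.inr (Or.inl rfl)))⟩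
        · exact ⟨hag, Or.inr (Or.inr (Or.inr (Or.inr rfl)))⟩
    have n1 : e ≠ G.al e := fun h2 => c.eY (by rw [← h2]; exact c.eZ)
    have n2 : g ≠ G.al g := fun h2 => g3 (by rw [← h2]; exact g2)
    have n3 : e ≠ G.al g := fun h2 => g3 (by rw [← h2]; exact c.eZ)
    have n4 : g ≠ G.al e := fun h2 => c.eY (by rw [← h2]; exact g2)
    have n5 : G.al e ≠ G.al g := by
      intro h2
      apply hge
      rw [← G.al_al e c.ed, h2, G.al_al g g1]
    have hd1 : Disjoint ({e, G.al e} : Finset D) {g, G.al g} := by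
      rw [disjoint_left]
      intro d hd hd'
      rw [mem_insert, mem_singleton] at hd hd'
      rcases hd with rfl | rfl <;> rcases hd' with h2 | h2
      · exact hge h2.symm
      · exact n3 h2
      · exact n4 h2.symm
      · exact n5 h2
    have hd2 : Disjoint (G.ed Z Z) ({e, G.al e} ∪ {g, G.al g}) := by
      rw [disjoint_left]
      intro d hd hd'
      obtain ⟨h3, h4, h5⟩ := mem_ed.1 hd
      rw [mem_union, mem_insert, mem_singleton, mem_insert, mem_singleton] at hd'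
      rcases hd' with (rfl | rfl) | (rfl | rfl)
      · exact c.eY h5
      · exact c.eY h4
      · exact g3 h5
      · exact g3 h4
    have h2 : ∑ d ∈ E, z d = ∑ d ∈ G.ed Z Z, z d + (2 + 2 * z g) := by
      rw [h1, sum_union hd2, sum_union hd1, sum_pair n1, sum_pair n2, hw.sym e c.ed,
        hw.sym g g1, c.ze]
      ring
    have h3 := hw.val_eq c.hZ
    rw [c.hv] at h3
    rw [h2, hUc]
    push_cast
    linarith
  have hDX : ∀ X, X ⊆ fr → X ⊆ Z → G.bd X \ ((G.bd Z) \ {e, g}) = G.bd X := by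
    intro X hX hXZ
    rw [Finset.sdiff_eq_self_iff_disjoint, disjoint_left]
    intro d hd hd'
    obtain ⟨h3, h4⟩ := mem_sdiff.1 hd'
    rw [mem_insert, mem_singleton, not_or] at h4
    exact hfr d h3 h4.1 h4.2 (hX (mem_bd.1 hd).2.1)
  have hDF : ∀ d ∈ (G.bd Z) \ {e, g}, d ∉ F := fun d hd => c.outF (mem_sdiff.1 hd).1
  have hr : (G.subG U E hE).RawI z (G.tsub z E) (fr ∩ Z) (F.filter fun d => G.pi d ∈ Z) ∅ ∅ 0 := by
    refine ⟨?_, hwt, htau, ?_, Or.inl rfl, ?_, fun X _ _ _ _ => Nat.zero_le _, ?_⟩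
    · change Even U.card
      rw [hUc]
      exact c.he.add (by decide)
    · refine s.frB hF ?_ ?_ ?_ (empty_subset _) (fun v hv _ => (mem_inter.1 hv).1) ?_
        (fun d _ _ _ => rfl) ?_ ?_ ?_ ?_ ?_ ?_ ?_
      · exact fun v hv => hZU (mem_inter.1 hv).2
      · intro d hd
        obtain ⟨h1, h2⟩ := mem_filter.1 hd
        exact (hmE d).2 ⟨hF.Fsub h1, Or.inl ⟨h2, c.FZ d h1 h2⟩⟩
      · intro d hd
        obtain ⟨h1, h2⟩ := mem_filter.1 hd
        exact mem_filter.2 ⟨hF.Fal d h1, c.FZ d h1 h2⟩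
      · intro d _ hp _ _
        rw [mem_filter]
        exact ⟨fun h => h.1, fun h => ⟨h, hp⟩⟩
      · intro d hd hp
        obtain ⟨h3, h4⟩ := mem_sdiff.1 hd
        rw [mem_insert, mem_singleton, not_or] at h4
        exact absurd (mem_inter.1 hp).1 (hfr d h3 h4.1 h4.2)
      · exact fun v _ hv => absurd hv (notMem_empty v)
      · exact fun v hv _ hvj => absurd hvj (hjZ v hv)
      · exact fun v hv hn _ => absurd (mem_inter.1 hv).2 hn
      · exact fun v hv hn _ _ => absurd (mem_inter.1 hv).2 hn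
      · exact fun v hv => absurd hv (notMem_empty v)
      · exact fun d _ hp hn _ => absurd (mem_inter.1 hp).2 hn
    · intro X hX _ ho
      have hXZ : X ⊆ Z := fun v hv => (mem_inter.1 (hX.sub hv)).2
      have hX1 := adm_side s hF hDF hX
      rw [s.bd hXZ, hDX X hX1.sub hXZ]
      have h2 := h.inst.cc X hX1 ho
      have h3 := h.inst.ep_le hX1.sub
      have h4 : (X ∩ jm).card = 0 := by
        rw [card_eq_zero, ← disjoint_iff_inter_eq_empty, disjoint_left]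
        exact fun v hv => hjZ v (hXZ hv)
      omega
    · exact fun X _ _ _ hn _ => absurd hn not_nonempty_empty
  have hsz : (fr ∩ Z).card < fr.card ∨ ((fr ∩ Z).card = fr.card ∧
      ((G.subG U E hE).vs.card < G.vs.card ∨ ((G.subG U E hE).vs.card = G.vs.card ∧
        (G.subG U E hE).sup z < G.sup z))) := by
    have h1 := card_inter_add_card_sdiff fr Z
    rcases hsy with h2 | h2
    · have h3 := card_sdiff_add_card_eq_card c.hZ
      have h4 : (G.subG U E hE).vs.card < G.vs.card := by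
        change U.card < _
        omega
      rcases Nat.eq_zero_or_pos (fr \ Z).card with h5 | h5
      · exact Or.inr ⟨by omega, Or.inl h4⟩
      · exact Or.inl (by omega)
    · have h5 := card_pos.2 h2
      exact Or.inl (by omega)
  obtain ⟨M', hM', hpos, hhit⟩ := h.solve hr hsz
  have hsub : ∀ d ∈ M', d ∈ E := fun d hd => hM'.sub hd
  have heM : e ∈ M' := by
    have hc1 : G.pi (G.al e) ∈ U := by
      rw [hUd]
      exact mem_insert_self _ _
    obtain ⟨d, hd⟩ := card_eq_one.1 (hM'.one _ hc1)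
    have h1 : d ∈ M'.filter fun d => (G.subG U E hE).pi d = G.pi (G.al e) := by
      rw [hd]
      exact mem_singleton_self d
    obtain ⟨h2, h3⟩ := mem_filter.1 h1
    have h3' : G.pi d = G.pi (G.al e) := h3
    obtain ⟨h4, h5⟩ := (hmE d).1 (hsub d h2)
    have h6 : d = G.al e := by
      rcases h5 with h5 | h5 | h5 | h5 | h5
      · exact absurd h5.1 (by rw [h3']; exact c.eY)
      · exact absurd c.eZ (by rw [← h5, h3']; exact c.eY)
      · exact h5
      · exact absurd g2 (by rw [← h5, h3']; exact c.eY)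
      · exact absurd (h3'.symm.trans (by rw [h5])) hcne
    rw [h6] at h2
    have h7 := hM'.closed _ h2
    have h8 : (G.subG U E hE).al (G.al e) = e := G.al_al e c.ed
    rwa [h8] at h7
  have hgM : g ∈ M' := by
    have hc1 : G.pi (G.al g) ∈ U := by
      rw [hUd]
      exact mem_insert_of_mem (mem_insert_self _ _)
    obtain ⟨d, hd⟩ := card_eq_one.1 (hM'.one _ hc1)
    have h1 : d ∈ M'.filter fun d => (G.subG U E hE).pi d = G.pi (G.al g) := by
      rw [hd]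
      exact mem_singleton_self d
    obtain ⟨h2, h3⟩ := mem_filter.1 h1
    have h3' : G.pi d = G.pi (G.al g) := h3
    obtain ⟨h4, h5⟩ := (hmE d).1 (hsub d h2)
    have h6 : d = G.al g := by
      rcases h5 with h5 | h5 | h5 | h5 | h5
      · exact absurd h5.1 (by rw [h3']; exact g3)
      · exact absurd c.eZ (by rw [← h5, h3']; exact g3)
      · exact absurd ((by rw [h5] : G.pi (G.al e) = G.pi d).trans h3') hcne
      · exact absurd g2 (by rw [← h5, h3']; exact g3)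
      · exact h5
    rw [h6] at h2
    have h7 := hM'.closed _ h2
    have h8 : (G.subG U E hE).al (G.al g) = g := G.al_al g g1
    rwa [h8] at h7
  refine ⟨M'.filter fun d => (G.subG U E hE).pi d ∈ Z, s.half hM',
    fun d hd => hpos d (mem_filter.1 hd).1, mem_filter.2 ⟨heM, c.eZ⟩, mem_filter.2 ⟨hgM, g2⟩,
    ?_, ?_⟩
  · intro d hd hn
    obtain ⟨h1, h2⟩ := mem_filter.1 hd
    have h2' : G.pi d ∈ Z := h2
    obtain ⟨h4, h5⟩ := (hmE d).1 (hsub d h1)
    rcases h5 with h5 | h5 | h5 | h5 | h5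
    · exact absurd h5.2 hn
    · exact Or.inl h5
    · exact absurd h2' (by rw [h5]; exact c.eY)
    · exact Or.inr h5
    · exact absurd h2' (by rw [h5]; exact g3)
  · intro X hX hXZ ho
    obtain ⟨d, h1, h2⟩ := hhit X (side_adm s c.FZ hF hX hXZ) (disjoint_empty_right _) (Or.inl ho)
    rw [s.bd hXZ] at h1
    exact ⟨d, (mem_sdiff.1 h1).1, fun h3 => h2 (mem_filter.1 h3).1⟩

end MG

end RH
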