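import Pool.Agent.Lib.RH.Glue2B

/-! Two-cuts (helper42), third part: fresh closed sets with two boundary edges. -/

set_option autoImplicit false

namespace RH

open Finset Classical

namespace MG

variable {V D : Type*}
variable {G G' : MG V D} {z z' : D → ℝ} {t : V → ℝ} {Z Y W T X P : Finset V} {Del : Finset D}
variable {fr fr' : Finset V} {F F' : Finset D} {jm jm' sx B : Finset V} {ω : V} {e g : D}
variable {ep : V → ℕ} {m : ℕ} {M M1 M2 : Finset D}

theorem MCS.finish (h : G.MCS z t fr F jm sx ep m) (hM : G.IsPM M) (hpos : ∀ d ∈ M, 0 < z d)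
    (hX : ∀ X, G.Adm fr F X → (∀ d ∈ G.bd X, d ∈ M) →
      Even X.card ∧ ¬ (jm.Nonempty ∧ jm ⊆ X)) : False := by
  refine h.bad ⟨M, hM, hpos, fun X hXa ho => ?_⟩
  by_contra hcon
  push Not at hcon
  obtain ⟨h1, h2⟩ := hX X hXa hcon
  rw [h.inst.sx_eq] at ho
  rcases ho with h3 | h3
  · exact (Nat.not_even_iff_odd.2 h3) h1
  · exact h2 h3

theorem un_iff (hM : G.IsPM M) (hcl : ∀ d ∈ G.bd X, d ∈ M) {d : D} (hd : d ∈ G.ds)
    (hn : d ∉ M) : G.pi d ∈ X ↔ G.pi (G.al d) ∈ X := by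
  constructor
  · intro h1
    by_contra h2
    exact hn (hcl d (mem_bd.2 ⟨hd, h1, h2⟩))
  · intro h1
    by_contra h2
    have h3 := hM.closed _ (hcl (G.al d) (mem_bd.2 ⟨G.al_mem d hd, h1, by
      rw [G.al_al d hd]; exact h2⟩))
    rw [G.al_al d hd] at h3
    exact hn h3

theorem Adm.interZ (hX : G.Adm fr F X) (hFZ : ∀ d ∈ F, G.pi d ∈ Z → G.pi (G.al d) ∈ Z) :
    G.Adm fr F (X ∩ Z) :=
  ⟨inter_subset_left.trans hX.sub, fun d hd hp =>
    mem_inter.2 ⟨hX.clo d hd (mem_inter.1 hp).1, hFZ d hd (mem_inter.1 hp).2⟩⟩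

/-- F-edges do not cross, other side -/
theorem FY_of (hFs : F ⊆ G.ds) (hFal : ∀ d ∈ F, G.al d ∈ F)
    (hFZ : ∀ d ∈ F, G.pi d ∈ Z → G.pi (G.al d) ∈ Z) :
    ∀ d ∈ F, G.pi d ∈ G.vs \ Z → G.pi (G.al d) ∈ G.vs \ Z := by
  intro d hd hp
  have hds := hFs hd
  refine mem_sdiff.2 ⟨G.pi_mem _ (G.al_mem _ hds), fun h1 => (mem_sdiff.1 hp).2 ?_⟩
  have h2 := hFZ _ (hFal d hd) h1
  rwa [G.al_al d hds] at h2

theorem card_split (hX : X ⊆ G.vs) : X.card = (X ∩ Z).card + (X ∩ (G.vs \ Z)).card := by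
  have h1 : X ∩ (G.vs \ Z) = X \ Z := by
    ext v
    rw [mem_inter, mem_sdiff, mem_sdiff]
    constructor
    · rintro ⟨h1, -, h2⟩
      exact ⟨h1, h2⟩
    · rintro ⟨h1, h2⟩
      exact ⟨h1, hX h1, h2⟩
  rw [h1, card_inter_add_card_sdiff]

/-- gluing of half matchings without crossing darts -/
theorem glue_un (hZ : Z ⊆ G.vs) (h1 : G.Half (G.vs \ Z) M1) (h2 : G.Half Z M2)
    (hc1 : ∀ d ∈ M1, G.pi (G.al d) ∉ Z) (hc2 : ∀ d ∈ M2, G.pi (G.al d) ∈ Z) :
    G.IsPM (M1 ∪ M2) ∧ ∀ d ∈ G.bd Z, d ∉ M1 ∪ M2 := by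
  refine ⟨h1.glue h2 sdiff_disjoint (sdiff_union_of_subset hZ).symm ?_, ?_⟩
  · intro d hd hp hq
    constructor
    · intro h3
      exact absurd (hc2 d h3) (mem_sdiff.1 hq).2
    · intro h3
      exact absurd (by rw [G.al_al d hd]; exact hp) (hc1 _ h3)
  · intro d hd hM
    obtain ⟨h3, h4, h5⟩ := mem_bd.1 hd
    rcases mem_union.1 hM with h6 | h6
    · exact (mem_sdiff.1 (h1.sub d h6).2).2 h4
    · exact h5 (hc2 d h6)

theorem half_in (h1 : G.Half (G.vs \ Z) M1) {d : D} (hd : d ∈ M1 ∪ M2) (hp : G.pi d ∈ Z) :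
    d ∈ M2 := by
  rcases mem_union.1 hd with h3 | h3
  · exact absurd hp (mem_sdiff.1 (h1.sub d h3).2).2
  · exact h3

theorem half_out (h2 : G.Half Z M2) {d : D} (hd : d ∈ M1 ∪ M2) (hp : G.pi d ∉ Z) :
    d ∈ M1 := by
  rcases mem_union.1 hd with h3 | h3
  · exact h3
  · exact absurd (h2.sub d h3).2 hp

/-- use of the hits of a restriction -/
theorem hit_use (hX : G.Adm fr F X) (hFP : ∀ d ∈ F, G.pi d ∈ P → G.pi (G.al d) ∈ P)
    (hcl : ∀ d ∈ G.bd X, d ∈ M) (hM : ∀ d ∈ M, G.pi d ∈ P → d ∈ M2) (hB : Disjoint (X ∩ P) B)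
    (hhit : ∀ X, G.Adm fr F X → X ⊆ P → Disjoint X B → (Odd X.card ∨ (jm'.Nonempty ∧ jm' ⊆ X)) →
        ∃ d ∈ G.bd X, G.pi (G.al d) ∈ P ∧ d ∉ M2) :
    Even (X ∩ P).card ∧ ¬ (jm'.Nonempty ∧ jm' ⊆ X ∩ P) := by
  have h0 : ¬ (Odd (X ∩ P).card ∨ (jm'.Nonempty ∧ jm' ⊆ X ∩ P)) := by
    intro h1
    obtain ⟨d, h2, h3, h4⟩ := hhit (X ∩ P) (hX.interZ hFP) inter_subset_right hB h1
    obtain ⟨h5, h6, h7⟩ := mem_bd.1 h2
    obtain ⟨h8, h9⟩ := mem_inter.1 h6
    exact h4 (hM d (hcl d (mem_bd.2 ⟨h5, h8, fun h10 => h7 (mem_inter.2 ⟨h10, h3⟩)⟩)) h9)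
  rw [not_or] at h0
  exact ⟨Nat.not_odd_iff_even.1 h0.1, h0.2⟩

/-- use of the hits of the outer matching -/
theorem out_use (hX : G.Adm fr F X) (hFY : ∀ d ∈ F, G.pi d ∈ G.vs \ Z → G.pi (G.al d) ∈ G.vs \ Z)
    (hcl : ∀ d ∈ G.bd X, d ∈ M) (hM : ∀ d ∈ M, G.pi d ∉ Z → d ∈ M1)
    (hcr : ∀ d ∈ G.ds, G.pi d ∈ X → G.pi d ∉ Z → G.pi (G.al d) ∈ X → G.pi (G.al d) ∈ Z → d ∈ M1)
    (hhit : ∀ X, G.Adm fr F X → X ⊆ G.vs \ Z → (Odd X.card ∨ (jm.Nonempty ∧ jm ⊆ X)) →
        ∃ d ∈ G.bd X, d ∉ M1) :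
    Even (X ∩ (G.vs \ Z)).card ∧ ¬ (jm.Nonempty ∧ jm ⊆ X ∩ (G.vs \ Z)) := by
  have h0 : ¬ (Odd (X ∩ (G.vs \ Z)).card ∨ (jm.Nonempty ∧ jm ⊆ X ∩ (G.vs \ Z))) := by
    intro h1
    obtain ⟨d, h2, h4⟩ := hhit (X ∩ (G.vs \ Z)) (hX.interZ hFY) inter_subset_right h1
    obtain ⟨h5, h6, h7⟩ := mem_bd.1 h2
    obtain ⟨h8, h9⟩ := mem_inter.1 h6
    have h10 := (mem_sdiff.1 h9).2
    by_cases h11 : G.pi (G.al d) ∈ X
    · refine h4 (hcr d h5 h8 h10 h11 ?_)
      by_contra h12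
      exact h7 (mem_inter.2 ⟨h11, mem_sdiff.2 ⟨G.pi_mem _ (G.al_mem d h5), h12⟩⟩)
    · exact h4 (hM d (hcl d (mem_bd.2 ⟨h5, h8, h11⟩)) h10)
  rw [not_or] at h0
  exact ⟨Nat.not_odd_iff_even.1 h0.1, h0.2⟩

/-! ### a closed set with two boundary edges -/

/-- the fresh set `T` with the two boundary darts `e`, `g` as a pole -/
theorem pole_of (hF : G.FrS z fr F jm) (hw : G.Wt z t) (hT : G.Adm fr F T) (he : Even T.card)
    (hj : Disjoint T jm) (hb : G.bd T = {e, g}) (hge : g ≠ e) :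
    G.Pole z t ∅ T (G.al e) (G.al g) := by
  have h1 : e ∈ G.bd T := by rw [hb]; exact mem_insert_self _ _
  have h2 : g ∈ G.bd T := by rw [hb]; exact mem_insert_of_mem (mem_singleton_self _)
  obtain ⟨e1, e2, e3⟩ := mem_bd.1 h1
  obtain ⟨g1, g2, g3⟩ := mem_bd.1 h2
  refine ⟨hT.sub.trans hF.fsub, he, disjoint_empty_right _,
    fun v hv => hF.t_not_jm hw (hT.sub hv) (disjoint_left.1 hj hv), G.al_mem e e1, G.al_mem g g1,
    e3, g3, by rw [G.al_al e e1]; exact e2, by rw [G.al_al g g1]; exact g2, ?_, ?_, ?_, ?_⟩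
  · intro h3
    apply hge
    rw [← G.al_al g g1, ← h3, G.al_al e e1]
  · rw [hw.sym e e1]
    exact hF.unit e e1 (hT.sub e2)
  · rw [hw.sym g g1]
    exact hF.unit g g1 (hT.sub g2)
  · intro d hd hp hq hne hng
    exfalso
    have h3 : G.al d ∈ G.bd T := mem_bd.2 ⟨G.al_mem d hd, hq, by rw [G.al_al d hd]; exact hp⟩
    rw [hb, mem_insert, mem_singleton] at h3
    rcases h3 with h3 | h3
    · exact hne (by rw [← h3, G.al_al d hd])
    · exact hng (by rw [← h3, G.al_al d hd])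

theorem out_pole (h : G.InstS z t fr F jm sx ep 0) (hT : G.Adm fr F T) (he : Even T.card)
    (hj : Disjoint T jm) (hb : G.bd T = {e, g}) (hge : g ≠ e)
    (q : G.PL T (G.al e) (G.al g)) :
    (G.pole q).RawI z t (fr \ T) (F.filter fun d => G.pi d ∉ T) jm ∅ 0 := by
  have hF := h.fresh
  have hw := h.wt
  have p := pole_of hF hw hT he hj hb hge
  have hFT : ∀ d ∈ F, G.pi d ∉ T → G.pi (G.al d) ∉ T := by
    intro d hd hp h1
    apply hp
    have h2 := hT.clo _ (hF.Fal d hd) h1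
    rwa [G.al_al d (hF.Fsub hd)] at h2
  have hst : ∀ v ∈ G.vs, v ∉ T → (G.pole q).st v = G.st v := by
    intro v _ hvT
    ext d
    rw [mem_st, mem_st, mem_pole_ds]
    constructor
    · rintro ⟨⟨h1, -⟩, h2⟩
      exact ⟨h1, h2⟩
    · rintro ⟨h1, h2⟩
      have h3 : G.pi d ∉ T := by rw [h2]; exact hvT
      refine ⟨⟨h1, h3, ?_⟩, h2⟩
      by_contra h4
      rw [not_or, not_or, not_not] at h4
      have h5 : G.al d ∈ G.bd T := mem_bd.2 ⟨G.al_mem d h1, h4.2.2, by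
        rw [G.al_al d h1]; exact h3⟩
      rw [hb, mem_insert, mem_singleton] at h5
      rcases h5 with h5 | h5
      · exact h4.1 (by rw [← h5, G.al_al d h1])
      · exact h4.2.1 (by rw [← h5, G.al_al d h1])
  have hbd : ∀ S, Disjoint S T → ¬ (G.pi (G.al e) ∈ S ∧ G.pi (G.al g) ∈ S) →
      (G.pole q).bd S = G.bd S := by
    intro S hd hab
    rw [pole_bd q hd hab, filter_true_of_mem]
    intro d hd1
    obtain ⟨h1, h2, h3⟩ := mem_bd.1 hd1
    by_contra h4
    rw [not_or, not_or, not_not] at h4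
    have h5 : G.al d ∈ G.bd T := mem_bd.2 ⟨G.al_mem d h1, h4.2.2, by
      rw [G.al_al d h1]; exact disjoint_left.1 hd h2⟩
    rw [hb, mem_insert, mem_singleton] at h5
    rcases h5 with h5 | h5
    · exact h4.1 (by rw [← h5, G.al_al d h1])
    · exact h4.2.1 (by rw [← h5, G.al_al d h1])
  have hbd2 : ∀ S, Disjoint S T → G.pi (G.al e) ∈ S → G.pi (G.al g) ∈ S →
      (G.pole q).bd S = G.bd (S ∪ T) := by
    intro S hd ha hb'
    rw [pole_bd2 q hd ha hb']
    ext d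
    rw [mem_filter, mem_bd, mem_bd, mem_union, mem_union]
    constructor
    · rintro ⟨⟨h1, h2, h3⟩, h4⟩
      exact ⟨h1, Or.inl h2, fun h5 => h5.elim h3 h4⟩
    · rintro ⟨h1, h2, h3⟩
      rw [not_or] at h3
      rcases h2 with h2 | h2
      · exact ⟨⟨h1, h2, h3.1⟩, h3.2⟩
      · exfalso
        have h4 : d ∈ G.bd T := mem_bd.2 ⟨h1, h2, h3.2⟩
        rw [hb, mem_insert, mem_singleton] at h4
        rcases h4 with h4 | h4
        · exact h3.1 (by rw [h4]; exact ha)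
        · exact h3.1 (by rw [h4]; exact hb')
  have hadm : ∀ X, (G.pole q).Adm (fr \ T) (F.filter fun d => G.pi d ∉ T) X →
      G.Adm fr F X ∧ Disjoint X T := by
    intro X hX
    have hd : Disjoint X T := disjoint_left.2 fun v hv => (mem_sdiff.1 (hX.sub hv)).2
    refine ⟨⟨fun v hv => (mem_sdiff.1 (hX.sub hv)).1, fun d hd1 hp => ?_⟩, hd⟩
    have h1 : G.pi d ∉ T := disjoint_left.1 hd hp
    have h2 := hX.clo d (mem_filter.2 ⟨hd1, h1⟩) hp
    rwa [pole_al_out q (hFT d hd1 h1)] at h2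
  have hun : ∀ X, G.Adm fr F X → G.Adm fr F (X ∪ T) := fun X hX =>
    ⟨union_subset hX.sub hT.sub, fun d hd hp => by
      rcases mem_union.1 hp with h1 | h1
      · exact mem_union_left _ (hX.clo d hd h1)
      · exact mem_union_right _ (hT.clo d hd h1)⟩
  refine ⟨?_, p.wt hw q, ?_, ?_, h.jm2, ?_, fun X _ _ _ _ => Nat.zero_le _, ?_⟩
  · have h1 : (G.vs \ T).card + T.card = G.vs.card := card_sdiff_add_card_eq_card p.sub
    obtain ⟨k, hk⟩ := h.even
    obtain ⟨l, hl⟩ := he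
    change Even (G.vs \ T).card
    rw [Nat.even_iff]
    omega
  · rw [p.tau q]
    exact h.tau
  · have hcount : ∀ v, v ∉ T → ((F.filter fun d => G.pi d ∉ T).filter fun d => G.pi d = v) =
        F.filter fun d => G.pi d = v := by
      intro v hv
      ext d
      rw [mem_filter, mem_filter, mem_filter]
      constructor
      · rintro ⟨⟨h1, -⟩, h2⟩
        exact ⟨h1, h2⟩
      · rintro ⟨h1, h2⟩
        exact ⟨⟨h1, by rw [h2]; exact hv⟩, h2⟩
    refine ⟨?_, ?_, ?_, ?_, ?_, ?_, ?_, ?_⟩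
    · exact fun v hv => mem_sdiff.2 ⟨hF.fsub (mem_sdiff.1 hv).1, (mem_sdiff.1 hv).2⟩
    · intro d hd
      obtain ⟨h1, h2⟩ := mem_filter.1 hd
      exact (mem_pole_ds q).2 ⟨hF.Fsub h1, h2, Or.inr (Or.inr (hFT d h1 h2))⟩
    · intro d hd
      obtain ⟨h1, h2⟩ := mem_filter.1 hd
      rw [pole_al_out q (hFT d h1 h2)]
      exact mem_filter.2 ⟨hF.Fal d h1, hFT d h1 h2⟩
    · exact fun v hv => mem_sdiff.2 ⟨hF.jms hv, fun h1 => disjoint_left.1 hj h1 hv⟩
    · intro v hv _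
      have h1 := hF.two v (mem_sdiff.1 hv).1
      rw [← hcount v (mem_sdiff.1 hv).2] at h1
      exact h1
    · intro v hv _ hvj
      obtain ⟨h1, h2⟩ := mem_sdiff.1 hv
      rw [hst v (hF.fsub h1) h2, ← hF.jd v h1 hvj]
      congr 1
      apply filter_congr
      intro d hd
      have hp : G.pi d = v := (mem_st.1 hd).2
      rw [mem_filter, hp]
      constructor
      · exact fun h3 h4 => h3 ⟨h4, h2⟩
      · exact fun h3 h4 => h3 h4.1
    · intro v hv _ d hd
      have h1 := hF.jms hv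
      have h2 : v ∉ T := fun h3 => disjoint_left.1 hj h3 hv
      rw [hst v (hF.fsub h1) h2] at hd
      refine mem_filter.2 ⟨hF.j0 v hv d hd, ?_⟩
      rw [(mem_st.1 hd).2]
      exact h2
    · exact fun d hd hp _ => hF.unit d ((mem_pole_ds q).1 hd).1 (mem_sdiff.1 hp).1
  · intro X hX _ ho
    obtain ⟨h1, h2⟩ := hadm X hX
    by_cases hab : G.pi (G.al e) ∈ X ∧ G.pi (G.al g) ∈ X
    · rw [hbd2 X h2 hab.1 hab.2]
      have h3 := hun X h1
      have h4 : Odd (X ∪ T).card := by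
        rw [card_union_of_disjoint h2]
        exact ho.add_even he
      have h5 := h.cc _ h3 h4
      have h6 := h.ep_le h3.sub
      have h7 : (X ∪ T) ∩ jm = X ∩ jm := by
        rw [union_inter_distrib_right, disjoint_iff_inter_eq_empty.1 hj, union_empty]
      rw [h7] at h6
      omega
    · rw [hbd X h2 hab]
      have h5 := h.cc _ h1 ho
      have h6 := h.ep_le h1.sub
      omega
  · intro X hX _ hev hn hjX
    obtain ⟨h1, h2⟩ := hadm X hX
    have hs := h.sx_eq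
    by_cases hab : G.pi (G.al e) ∈ X ∧ G.pi (G.al g) ∈ X
    · rw [hbd2 X h2 hab.1 hab.2]
      refine h.b0 _ (hun X h1) ?_ (by rw [hs]; exact hn)
        (by rw [hs]; exact hjX.trans subset_union_left)
      rw [card_union_of_disjoint h2]
      exact hev.add he
    · rw [hbd X h2 hab]
      exact h.b0 _ h1 hev (by rw [hs]; exact hn) (by rw [hs]; exact hjX)

/-- NO closed set with two boundary edges, away from the star -/
theorem MCS.no_c2_fresh (h : G.MCS z t fr F jm sx ep 0) (hT : G.Adm fr F T) (he : Even T.card)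
    (hj : Disjoint T jm) (hb : G.bd T = {e, g}) (hge : g ≠ e)
    (hsy : 4 ≤ (G.vs \ T).card ∨ (fr \ T).Nonempty) : False := by
  have hF := h.inst.fresh
  have hw := h.inst.wt
  have p := pole_of hF hw hT he hj hb hge
  have q := p.pl hw
  have hr := out_pole h.inst hT he hj hb hge q
  have b1 : e ∈ G.bd T := by rw [hb]; exact mem_insert_self _ _
  have b2 : g ∈ G.bd T := by rw [hb]; exact mem_insert_of_mem (mem_singleton_self _)
  obtain ⟨e1, e2, e3⟩ := mem_bd.1 b1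
  obtain ⟨g1, g2, g3⟩ := mem_bd.1 b2
  have hTs : T ⊆ G.vs := hT.sub.trans hF.fsub
  have hFT : ∀ d ∈ F, G.pi d ∈ T → G.pi (G.al d) ∈ T := fun d hd hp => hT.clo d hd hp
  have hFY := FY_of hF.Fsub hF.Fal hFT
  have hze : z e = 1 := hF.unit e e1 (hT.sub e2)
  have hzg : z g = 1 := hF.unit g g1 (hT.sub g2)
  have c : G.C2 z t F T e := by
    refine ⟨hTs, he, ?_, e1, e2, e3, hze, hFT⟩
    rw [hF.val_fr hw hT.sub hj, hb, card_pair hge.symm]
    norm_num
  have hsz : (fr \ T).card < fr.card ∨ ((fr \ T).card = fr.card ∧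
      ((G.pole q).vs.card < G.vs.card ∨ ((G.pole q).vs.card = G.vs.card ∧
        (G.pole q).sup z < G.sup z))) := by
    left
    refine card_lt_card (Finset.ssubset_iff_subset_ne.2 ⟨sdiff_subset, fun h2 => ?_⟩)
    have h3 := hT.sub e2
    rw [← h2] at h3
    exact (mem_sdiff.1 h3).2 e2
  obtain ⟨M1, hM1, hpos1, hhit1⟩ := h.solve hr hsz
  have hMds : ∀ d ∈ M1, d ∈ G.ds ∧ G.pi d ∉ T ∧ (d = G.al e ∨ d = G.al g ∨ G.pi (G.al d) ∉ T) :=
    fun d hd => (mem_pole_ds q).1 (hM1.sub hd)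
  have hba : G.al g ∈ M1 ↔ G.al e ∈ M1 := by
    constructor
    · intro h1
      have h2 := hM1.closed _ h1
      rwa [pole_al_b] at h2
    · intro h1
      have h2 := hM1.closed _ h1
      rwa [pole_al_a] at h2
  have half1 : G.Half (G.vs \ T) M1 := by
    refine ⟨fun d hd => ⟨(hMds d hd).1, mem_sdiff.2 ⟨G.pi_mem d (hMds d hd).1, (hMds d hd).2.1⟩⟩,
      ?_, fun v hv => hM1.one v hv⟩
    intro d hd hp
    have h1 := hM1.closed d hd
    rwa [pole_al_out q (mem_sdiff.1 hp).2] at h1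
  have hjY : ∀ v ∈ jm, v ∉ T := fun v hv h1 => disjoint_left.1 hj h1 hv
  -- admissible sets of the outer side
  have hadm : ∀ X, G.Adm fr F X → (G.pole q).Adm (fr \ T) (F.filter fun d => G.pi d ∉ T)
      (X ∩ (G.vs \ T)) := by
    intro X hX
    refine ⟨fun v hv => ?_, fun d hd hp => ?_⟩
    · obtain ⟨h1, h2⟩ := mem_inter.1 hv
      exact mem_sdiff.2 ⟨hX.sub h1, (mem_sdiff.1 h2).2⟩
    · obtain ⟨h1, h2⟩ := mem_filter.1 hd
      obtain ⟨h3, h4⟩ := mem_inter.1 hp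
      have h5 := hFY d h1 h4
      change G.pi ((G.pole q).al d) ∈ _
      rw [pole_al_out q (mem_sdiff.1 h5).2]
      exact mem_inter.2 ⟨hX.clo d h1 h3, h5⟩
  have huse : ∀ M2, G.Half T M2 → ∀ X, G.Adm fr F X → (∀ d ∈ G.bd X, d ∈ M1 ∪ M2) →
      (G.al e ∉ M1 → (G.pi (G.al e) ∈ X ↔ G.pi (G.al g) ∈ X)) →
      Even (X ∩ (G.vs \ T)).card ∧ ¬ (jm.Nonempty ∧ jm ⊆ X) := by
    intro M2 half2 X hX hcl hab
    have h0 : ¬ (Odd (X ∩ (G.vs \ T)).card ∨ (jm.Nonempty ∧ jm ⊆ X ∩ (G.vs \ T))) := by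
      intro h1
      obtain ⟨d, h2, h3⟩ := hhit1 _ (hadm X hX) (disjoint_empty_right _) h1
      obtain ⟨h4, h5, h6⟩ := mem_bd.1 h2
      obtain ⟨h7, h8, h9⟩ := (mem_pole_ds q).1 h4
      have h5' : G.pi d ∈ X ∩ (G.vs \ T) := h5
      obtain ⟨h10, h11⟩ := mem_inter.1 h5'
      have h6' : G.pi ((G.pole q).al d) ∉ X ∩ (G.vs \ T) := h6
      rcases h9 with rfl | rfl | h9
      · rw [pole_al_a] at h6'
        have h12 := (hab h3).1 h10
        exact h6' (mem_inter.2 ⟨h12, mem_sdiff.2 ⟨G.pi_mem _ (G.al_mem g g1), g3⟩⟩)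
      · rw [pole_al_b] at h6'
        have h12 := (hab fun h13 => h3 (hba.2 h13)).2 h10
        exact h6' (mem_inter.2 ⟨h12, mem_sdiff.2 ⟨G.pi_mem _ (G.al_mem e e1), e3⟩⟩)
      · rw [pole_al_out q h9] at h6'
        refine h3 (half_out half2 (hcl d (mem_bd.2 ⟨h7, h10, fun h12 => h6' ?_⟩)) h8)
        exact mem_inter.2 ⟨h12, mem_sdiff.2 ⟨G.pi_mem _ (G.al_mem d h7), h9⟩⟩
    rw [not_or] at h0
    refine ⟨Nat.not_odd_iff_even.1 h0.1, ?_⟩
    rintro ⟨h1, h2⟩
    exact h0.2 ⟨h1, fun v hv => mem_inter.2 ⟨h2 hv, mem_sdiff.2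
      ⟨hF.fsub (hF.jms hv), hjY v hv⟩⟩⟩
  by_cases haM : G.al e ∈ M1
  · -- used
    obtain ⟨M2, half2, hpos2, heM, hgM, hcr2, hhit2⟩ := h.in2 c b2 hge (by rw [hzg]; norm_num) hsy
    have hpm : G.IsPM (M1 ∪ M2) := by
      refine half1.glue half2 sdiff_disjoint (sdiff_union_of_subset hTs).symm ?_
      intro d hd hp hq
      have h1 : d ∈ G.bd T := mem_bd.2 ⟨hd, hp, (mem_sdiff.1 hq).2⟩
      rw [hb, mem_insert, mem_singleton] at h1
      rcases h1 with rfl | rfl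
      · exact ⟨fun _ => haM, fun _ => heM⟩
      · exact ⟨fun _ => hba.2 haM, fun _ => hgM⟩
    refine h.finish hpm (fun d hd => (mem_union.1 hd).elim (hpos1 d) (hpos2 d)) ?_
    intro X hX hcl
    obtain ⟨h1, h2⟩ := huse M2 half2 X hX hcl (fun h3 => absurd haM h3)
    refine ⟨?_, h2⟩
    have h3 : Even (X ∩ T).card := by
      rw [← Nat.not_odd_iff_even]
      intro ho
      obtain ⟨d, h4, h5⟩ := hhit2 (X ∩ T) (hX.interZ hFT) inter_subset_right ho
      obtain ⟨h6, h7, h8⟩ := mem_bd.1 h4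
      obtain ⟨h9, h10⟩ := mem_inter.1 h7
      by_cases h11 : G.pi (G.al d) ∈ T
      · exact h5 (half_in half1 (hcl d (mem_bd.2 ⟨h6, h9, fun h12 =>
          h8 (mem_inter.2 ⟨h12, h11⟩)⟩)) h10)
      · have h12 : d ∈ G.bd T := mem_bd.2 ⟨h6, h10, h11⟩
        rw [hb, mem_insert, mem_singleton] at h12
        rcases h12 with rfl | rfl
        · exact h5 heM
        · exact h5 hgM
    rw [card_split (Z := T) (hX.sub.trans hF.fsub)]
    exact h3.add h1
  · -- unused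
    obtain ⟨M2, half2, hpos2, hcr2, hhit2⟩ := h.in0 (jm' := ∅) (B := {G.pi e, G.pi g}) hTs he
      (by rw [c.hv]; norm_num) hFT (card_lt_card (Finset.ssubset_iff_subset_ne.2 ⟨hTs,
        fun h1 => e3 (by rw [h1]; exact G.pi_mem _ (G.al_mem e e1))⟩)) (empty_subset _)
      (Or.inl rfl) (by
        intro d hd _
        rw [hb, mem_insert, mem_singleton] at hd
        left
        rcases hd with rfl | rfl
        · exact mem_insert_self _ _
        · exact mem_insert_of_mem (mem_singleton_self _))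
      (fun v hv => absurd hv (notMem_empty v)) (fun v hv h1 => absurd h1 (hjY v hv))
      (fun X _ _ _ _ h1 => absurd h1 not_nonempty_empty)
    have hc1 : ∀ d ∈ M1, G.pi (G.al d) ∉ T := by
      intro d hd
      obtain ⟨-, -, h3⟩ := hMds d hd
      rcases h3 with h3 | h3 | h3
      · exact absurd (h3 ▸ hd) haM
      · exact absurd (hba.1 (h3 ▸ hd)) haM
      · exact h3
    obtain ⟨hpm, hun⟩ := glue_un hTs half1 half2 hc1 hcr2
    refine h.finish hpm (fun d hd => (mem_union.1 hd).elim (hpos1 d) (hpos2 d)) ?_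
    intro X hX hcl
    have ue := un_iff hpm hcl e1 (hun e b1)
    have ug := un_iff hpm hcl g1 (hun g b2)
    have hpar := unused_part hF hpm hX hFT hcl hun
    have h0 : ((X ∩ T) ∩ jm).card = 0 := by
      rw [card_eq_zero, ← disjoint_iff_inter_eq_empty]
      exact disjoint_of_subset_left inter_subset_right hj
    rw [h0] at hpar
    have hN : (G.bd T).filter (fun d => G.pi d ∈ X ∧ G.pi (G.al d) ∈ X) =
        ({e, g} : Finset D).filter fun d => G.pi d ∈ X := by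
      rw [hb]
      apply filter_congr
      intro d hd
      rw [mem_insert, mem_singleton] at hd
      rcases hd with rfl | rfl
      · exact ⟨fun h1 => h1.1, fun h1 => ⟨h1, ue.1 h1⟩⟩
      · exact ⟨fun h1 => h1.1, fun h1 => ⟨h1, ug.1 h1⟩⟩
    rw [hN] at hpar
    have heg : G.pi e ∈ X ↔ G.pi g ∈ X := by
      constructor
      · intro h1
        by_contra h2
        have h3 : ({e, g} : Finset D).filter (fun d => G.pi d ∈ X) = {e} := by
          ext d
          rw [mem_filter, mem_insert, mem_singleton, mem_singleton]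
          constructor
          · rintro ⟨rfl | rfl, h3⟩
            · rfl
            · exact absurd h3 h2
          · rintro rfl
            exact ⟨Or.inl rfl, h1⟩
        rw [h3, card_singleton] at hpar
        norm_num at hpar
      · intro h1
        by_contra h2
        have h3 : ({e, g} : Finset D).filter (fun d => G.pi d ∈ X) = {g} := by
          ext d
          rw [mem_filter, mem_insert, mem_singleton]
          constructor
          · rintro ⟨rfl | rfl, h3⟩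
            · exact absurd h3 h2
            · rfl
          · rintro rfl
            exact ⟨Or.inr rfl, h1⟩
        rw [h3, card_singleton] at hpar
        norm_num at hpar
    obtain ⟨h1, h2⟩ := huse M2 half2 X hX hcl fun _ => by rw [← ue, ← ug, heg]
    refine ⟨?_, h2⟩
    have hinM2 : ∀ d ∈ M1 ∪ M2, G.pi d ∈ T → d ∈ M2 := fun d hd hp => half_in half1 hd hp
    rw [card_split (Z := T) (hX.sub.trans hF.fsub)]
    refine Even.add ?_ h1
    by_cases hee : G.pi e ∈ X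
    · -- complement
      have hgg := heg.1 hee
      have hXc : G.Adm fr F (T \ X) := by
        refine ⟨sdiff_subset.trans hT.sub, fun d hd hp => ?_⟩
        obtain ⟨h3, h4⟩ := mem_sdiff.1 hp
        refine mem_sdiff.2 ⟨hT.clo d hd h3, fun h5 => h4 ?_⟩
        have h6 := hX.clo _ (hF.Fal d hd) h5
        rwa [G.al_al d (hF.Fsub hd)] at h6
      have hev : Even (T \ X).card := by
        rw [← Nat.not_odd_iff_even]
        intro ho
        obtain ⟨d, h3, h4, h5⟩ := hhit2 (T \ X) hXc sdiff_subset (by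
          rw [disjoint_left]
          intro v hv hvB
          rw [mem_insert, mem_singleton] at hvB
          rcases hvB with rfl | rfl
          · exact (mem_sdiff.1 hv).2 hee
          · exact (mem_sdiff.1 hv).2 hgg) (Or.inl ho)
        obtain ⟨h6, h7, h8⟩ := mem_bd.1 h3
        obtain ⟨h9, h10⟩ := mem_sdiff.1 h7
        have h11 : G.pi (G.al d) ∈ X := by
          by_contra h12
          exact h8 (mem_sdiff.2 ⟨h4, h12⟩)
        have h12 := hpm.closed _ (hcl (G.al d) (mem_bd.2 ⟨G.al_mem d h6, h11, by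
          rw [G.al_al d h6]; exact h10⟩))
        rw [G.al_al d h6] at h12
        exact h5 (hinM2 d h12 h9)
      have h3 := card_inter_add_card_sdiff T X
      rw [inter_comm] at h3
      obtain ⟨k, hk⟩ := he
      obtain ⟨l, hl⟩ := hev
      rw [Nat.even_iff]
      omega
    · refine (hit_use (M2 := M2) (B := {G.pi e, G.pi g}) (jm' := ∅) hX hFT hcl hinM2 ?_ hhit2).1
      rw [disjoint_left]
      intro v hv hvB
      rw [mem_insert, mem_singleton] at hvB
      rcases hvB with rfl | rfl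
      · exact hee (mem_inter.1 hv).1
      · exact hee (heg.2 (mem_inter.1 hv).1)

end MG

end RH
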