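import Pool.Agent.Lib.RH.SNG

/-! Gluing at an odd set without crossing F-edges, the outer matching is given (helper40, a copy of
helper61's `glueX`): used for stuck states, where the outer side has 6 tokens. -/

set_option autoImplicit false

namespace RH

open Finset Classical

namespace MG

variable {V D : Type*}
variable {G : MG V D} {z z' z1 : D → ℝ} {t t1 : V → ℝ} {fr fr' : Finset V} {F : Finset D}
variable {jm sx : Finset V} {ep : V → ℕ} {m : ℕ} {W : Finset V} {f : D}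

private theorem inter_auxO {A J W L : Finset V} (h : A ⊆ W) :
    A ∩ ((J ∩ W) ∪ L) = (A ∩ J) ∪ (A ∩ L) := by
  ext v
  simp only [mem_inter, mem_union]
  constructor
  · rintro ⟨h1, h2 | h2⟩
    · exact Or.inl ⟨h1, h2.1⟩
    · exact Or.inr ⟨h1, h2⟩
  · rintro (⟨h1, h2⟩ | ⟨h1, h2⟩)
    · exact ⟨h1, Or.inl ⟨h2, h h1⟩⟩
    · exact ⟨h1, Or.inr h2⟩

/-- an instance (any number of tokens) from the combinatorial part and a weight -/
theorem InstC.toT (h : G.InstC fr F jm ep m) (hw : G.Wt z t)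
    (hu : ∀ d ∈ G.ds, G.pi d ∈ fr → z d = 1) : G.InstT z t fr F jm jm ep m := by
  have hF : G.FrS z fr F jm := h.fresh.chg hu
  refine ⟨h.even, hw, hF, h.cc, h.ev, hF.jms, Or.inl rfl, h.jm2, ?_, h.b0, h.epj⟩
  intro hn
  have h1 : ∑ v ∈ jm, t v = ∑ _v ∈ jm, (1 : ℝ) := sum_congr rfl fun v hv => hF.t_jm hw hv
  have h2 : jm.card = 2 := by
    rcases h.jm2 with h2 | h2
    · rw [h2] at hn
      exact absurd hn not_nonempty_empty
    · exact h2
  rw [h1, sum_const, h2]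
  norm_num

/-- **gluing with a given outer matching** `M1` at an odd set `W` (no F-edge leaves `W`) -/
theorem glueO (h : G.InstC fr F jm ep m) {a : ℕ}
    (ih : ∀ (G : MG V D) (z : D → ℝ) (t : V → ℝ) (fr : Finset V) (F : Finset D)
      (jm sx : Finset V) (ep : V → ℕ), fr.card < a → G.InstS z t fr F jm sx ep m →
        ∃ M, G.GoodS z fr F sx M)
    (ha : fr.card < a) (hW : W ⊆ G.vs) (hWo : Odd W.card)
    (hFW : ∀ d ∈ F, G.pi d ∈ W → G.pi (G.al d) ∈ W) {ω : V} (hω : ω ∈ W)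
    {B1 fr1 : Finset V} (hB1 : B1 = W ∪ if jm ⊆ G.vs \ W then ∅ else jm)
    (hcl1 : ∀ d ∈ F, G.pi d ∈ fr1 → G.pi (G.al d) ∈ fr1) (hd1 : Disjoint fr1 B1)
    (hadm1 : ∀ X, G.Adm fr1 (F.filter fun d => G.pi d ∈ fr1) X ↔ G.Adm fr F X ∧ Disjoint X B1)
    {M1 : Finset D}
    (hM1 : (G.con W ω hω hW).GoodS z1 fr1 (F.filter fun d => G.pi d ∈ fr1) (jm ∩ fr1) M1)
    {Q : D → (D → ℝ) → Prop}
    (hin : ∀ (f : D) (hf : f ∈ G.ds) (hfW : G.pi f ∈ W), G.pi (G.al f) ∉ W → 0 < z1 f →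
      ((jm ∩ W) ∪ G.lp fr W f).card ≤ 2 ∧
      ∃ z2 t2, (G.inn W f hf hW hfW).Wt z2 t2 ∧
        ∑ v ∈ (G.inn W f hf hW hfW).vs, t2 v < 6 ∧
        (∀ d ∈ (G.inn W f hf hW hfW).ds, G.pi d ∈ fr → G.pi d ∈ W → z2 d = 1) ∧
        (((jm ∩ W) ∪ G.lp fr W f).card = 2 → (G.lp fr W f).Nonempty → z2 f ≤ 1 ∨ 3 ≤ m) ∧
        Q f z2) :
    ∃ (M : Finset D) (f : D) (z2 : D → ℝ), G.IsPM M ∧
      (∀ X, G.Adm fr F X → (Odd X.card ∨ (jm.Nonempty ∧ jm ⊆ X)) → ∃ d ∈ G.bd X, d ∉ M) ∧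
      f ∈ M ∧ G.pi f ∈ W ∧ G.pi (G.al f) ∉ W ∧ 0 < z1 f ∧ Q f z2 ∧
      (∀ d ∈ M, G.pi d ∈ W → G.pi (G.al d) ∉ W → d = f) ∧
      (∀ d ∈ M, ¬ (G.pi d ∈ W ∧ G.pi (G.al d) ∈ W) → 0 < z1 d) ∧
      (∀ d ∈ M, G.pi d ∈ W → G.pi (G.al d) ∈ W → 0 < z2 d) := by
  have hF := h.fresh
  have hFW' : ∀ d ∈ F, G.pi d ∉ W → G.pi (G.al d) ∉ W := by
    intro d hd h1 h2
    have h4 := hFW _ (hF.Fal d hd) h2
    rw [G.al_al d (hF.Fsub hd)] at h4
    exact h1 h4
  have hadmW : ∀ X, G.Adm fr F X → G.Adm fr F (X ∩ W) := fun X hX =>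
    ⟨fun v hv => hX.sub (mem_inter.1 hv).1, fun d hd hp => mem_inter.2
      ⟨hX.clo d hd (mem_inter.1 hp).1, hFW d hd (mem_inter.1 hp).2⟩⟩
  have hadmU : ∀ X, G.Adm fr F X → G.Adm fr F (X \ W) := fun X hX =>
    ⟨fun v hv => hX.sub (mem_sdiff.1 hv).1, fun d hd hp => mem_sdiff.2
      ⟨hX.clo d hd (mem_sdiff.1 hp).1, hFW' d hd (mem_sdiff.1 hp).2⟩⟩
  have hadmfr : G.Adm fr F fr := ⟨Finset.Subset.refl _, fun d hd _ => hF.Ffr _ (hF.Fal d hd)⟩
  -- outer instance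
  have hWB1 : W ⊆ B1 := by rw [hB1]; exact subset_union_left
  have hj1 : (jm ⊆ G.vs \ W → jm ⊆ fr1) ∧ (¬ jm ⊆ G.vs \ W → Disjoint jm fr1) := by
    constructor
    · intro hout
      rw [if_pos hout, union_empty] at hB1
      have h4 : Disjoint (fr \ W) B1 := by
        rw [hB1]
        exact sdiff_disjoint
      have h5 := ((hadm1 (fr \ W)).2 ⟨hadmU fr hadmfr, h4⟩).sub
      exact fun v hv => h5 (mem_sdiff.2 ⟨hF.jms hv, (mem_sdiff.1 (hout hv)).2⟩)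
    · intro hout
      rw [if_neg hout] at hB1
      have h4 : jm ⊆ B1 := by rw [hB1]; exact subset_union_right
      exact (disjoint_of_subset_right h4 hd1).symm
  obtain ⟨f, hfM, hfW, hfU, huniq⟩ := con_one hω hW hM1.pm
  have hcon : ∀ d ∈ M1, d ∈ G.ds ∧ ¬ (G.pi d ∈ W ∧ G.pi (G.al d) ∈ W) := fun d hd =>
    mem_filter.1 (hM1.pm.sub hd)
  have hf := (hcon f hfM).1
  have hz : 0 < z1 f := hM1.pos f hfM
  have hafM1 : G.al f ∈ M1 := hM1.pm.closed f hfM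
  -- ports
  obtain ⟨P, hP⟩ : ∃ P, P = (jm ∩ W) ∪ G.lp fr W f := ⟨_, rfl⟩
  obtain ⟨hPc, z2, t2, hw2, ht2, hu2, hn2, hQ⟩ := hin f hf hfW hfU hz
  rw [← hP] at hPc hn2
  obtain ⟨fr20, hs20, hcl20, hd20, hadm20⟩ := exists_avoid G fr F ((G.vs \ W) ∪ G.lq fr W f)
  -- inner instance
  obtain ⟨fr2, jm2, M2, hM2, hcase⟩ : ∃ fr2 jm2 M2,
      (G.inn W f hf hW hfW).GoodS z2 fr2 (F.filter fun d => G.pi d ∈ fr2) jm2 M2 ∧
      (((∀ X, G.Adm fr F X → X ⊆ W → Disjoint X (G.lq fr W f) →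
          G.Adm fr2 (F.filter fun d => G.pi d ∈ fr2) X) ∧ jm2 = P ∧ P.card = 2) ∨
        ((∀ X, G.Adm fr F X → X ⊆ W → Disjoint X (G.lq fr W f) → Disjoint X P →
          G.Adm fr2 (F.filter fun d => G.pi d ∈ fr2) X) ∧
          ¬ (P.card = 2 ∧ P ⊆ fr20))) := by
    by_cases hB : P.card = 2 ∧ P ⊆ fr20
    · obtain ⟨a2, a3⟩ := hB
      have hI2 := inn_instC hf hW hfW hfU h hWo hFW (jm2 := P) hs20 hcl20 hd20
        subset_union_left subset_union_right hadm20 hP (Or.inl ⟨rfl, a2, a3⟩) hw2 ht2 hu2 hn2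
      obtain ⟨M2, hM2⟩ := ih _ _ _ _ _ _ _ _ ((card_le_card hs20).trans_lt ha) hI2
      refine ⟨fr20, P, M2, hM2, Or.inl ⟨?_, rfl, a2⟩⟩
      intro X hX hXW hXq
      refine (hadm20 X).2 ⟨hX, ?_⟩
      rw [disjoint_union_right]
      exact ⟨disjoint_of_subset_left hXW disjoint_sdiff, hXq⟩
    · obtain ⟨fr2, hs2, hcl2, hd2, hadm2⟩ := exists_avoid G fr F
        (((G.vs \ W) ∪ G.lq fr W f) ∪ P)
      have hI2 := inn_instC hf hW hfW hfU h hWo hFW (jm2 := ∅) hs2 hcl2 hd2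
        (subset_union_left.trans subset_union_left)
        (subset_union_right.trans subset_union_left) hadm2 hP
        (Or.inr ⟨rfl, (disjoint_of_subset_right subset_union_right hd2).symm⟩) hw2 ht2 hu2 hn2
      obtain ⟨M2, hM2⟩ := ih _ _ _ _ _ _ _ _ ((card_le_card hs2).trans_lt ha) hI2
      refine ⟨fr2, ∅, M2, hM2, Or.inr ⟨?_, hB⟩⟩
      intro X hX hXW hXq hXP
      refine (hadm2 X).2 ⟨hX, ?_⟩
      rw [disjoint_union_right, disjoint_union_right]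
      exact ⟨⟨disjoint_of_subset_left hXW disjoint_sdiff, hXq⟩, hXP⟩
  -- the matching
  obtain ⟨hfM2, hafM2⟩ := inn_pm_f hf hW hfW hfU hM2.pm
  obtain ⟨w1, w2, w3, w4⟩ := inn_pm_W hf hW hfW hfU hM2.pm
  set M2' := M2.filter fun d => G.pi d ∈ W ∧ G.pi (G.al d) ∈ W with hM2'
  have hpm : G.IsPM (M1 ∪ M2') := con_glue hω hW hM1.pm hfM hfW w1 w2 w3 w4
  refine ⟨M1 ∪ M2', f, z2, hpm, ?_, mem_union_left _ hfM, hfW, hfU, hz, hQ, ?_, ?_, ?_⟩
  rotate_left
  · intro d hd h1 h2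
    rcases mem_union.1 hd with h3 | h3
    · exact huniq d h3 h1
    · exact absurd (mem_filter.1 h3).2.2 h2
  · intro d hd h1
    rcases mem_union.1 hd with h2 | h2
    · exact hM1.pos d h2
    · exact absurd (mem_filter.1 h2).2 h1
  · intro d hd h1 h2
    rcases mem_union.1 hd with h3 | h3
    · exact absurd ⟨h1, h2⟩ (hcon d h3).2
    · exact hM2.pos d (mem_filter.1 h3).1
  intro X hX hodd
  by_contra hcon'
  push Not at hcon'
  have hcl : ∀ d ∈ G.bd X, d ∈ M1 ∪ M2' := hcon'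
  have hXW := hadmW X hX
  have hXU := hadmU X hX
  -- darts leaving `W`
  have hout : ∀ d ∈ G.ds, G.pi d ∈ W → G.pi (G.al d) ∉ W → (d ∈ M1 ∪ M2' ↔ d = f) := by
    intro d _ h1 h2
    constructor
    · intro h4
      rcases mem_union.1 h4 with h5 | h5
      · exact huniq d h5 h1
      · exact absurd (mem_filter.1 h5).2.2 h2
    · rintro rfl
      exact mem_union_left _ hfM
  -- closed, so deleted darts at `X` go to `X`
  have hdel : ∀ d ∈ G.ds, G.pi d ∈ X → G.pi d ∈ W → G.pi (G.al d) ∉ W → d ≠ f →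
      G.pi (G.al d) ∈ X := by
    intro d h1 h2 h4 h5 h6
    by_contra hn
    exact h6 ((hout d h1 h4 h5).1 (hcl d (mem_bd.2 ⟨h1, h2, hn⟩)))
  have hXq : Disjoint (X ∩ W) (G.lq fr W f) := by
    rw [disjoint_left]
    intro v hv hq
    obtain ⟨-, d, h1, h2, h4, h5, h6⟩ := mem_lq.1 hq
    obtain ⟨h7, h8⟩ := mem_inter.1 hv
    exact h6 (hX.sub (hdel d h1 (h2 ▸ h7) (h2 ▸ h8) h4 h5))
  -- parity
  have hcnt := inn_count hf hW hfW hfU hF hFW hXW inter_subset_right hXq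
  have hfilt : (G.bd (X ∩ W)).filter (fun d => d ∈ M1 ∪ M2') =
      (G.inn W f hf hW hfW).bd (X ∩ W) := by
    ext d
    rw [mem_filter, mem_inn_bd hf hW hfW hfU inter_subset_right]
    constructor
    · rintro ⟨h1, h2⟩
      refine ⟨h1, ?_⟩
      by_cases h4 : G.pi (G.al d) ∈ W
      · exact Or.inl h4
      · obtain ⟨a, b, -⟩ := mem_bd.1 h1
        exact Or.inr ((hout d a (mem_inter.1 b).2 h4).1 h2)
    · rintro ⟨h1, h2⟩
      refine ⟨h1, ?_⟩
      rcases h2 with h2 | rfl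
      · obtain ⟨a, b, c⟩ := mem_bd.1 h1
        exact hcl d (mem_bd.2 ⟨a, (mem_inter.1 b).1, fun h4 => c (mem_inter.2 ⟨h4, h2⟩)⟩)
      · exact mem_union_left _ hfM
  have hE := card_filter_add_card_filter_not (s := G.bd (X ∩ W)) (fun d => d ∈ M1 ∪ M2')
  have hpar := hF.unused_par hpm hXW
  have hPe : Even ((X ∩ W) ∩ P).card := by
    have h1 : (X ∩ W) ∩ P = ((X ∩ W) ∩ jm) ∪ ((X ∩ W) ∩ G.lp fr W f) := by
      rw [hP]
      exact inter_auxO inter_subset_right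
    have h2 : Disjoint ((X ∩ W) ∩ jm) ((X ∩ W) ∩ G.lp fr W f) := by
      rw [disjoint_left]
      intro v hv hv2
      exact lp_not_jm hF hFW (mem_inter.1 hv2).2 (mem_inter.1 hv).2
    rw [h1, card_union_of_disjoint h2, Nat.even_iff]
    rw [hfilt] at hE
    omega
  -- transfer
  have TW : G.Adm fr2 (F.filter fun d => G.pi d ∈ fr2) (X ∩ W) →
      (Odd (X ∩ W).card ∨ (jm2.Nonempty ∧ jm2 ⊆ X ∩ W)) → False := by
    intro h1 h2
    obtain ⟨d, h4, h5⟩ := hM2.hit (X ∩ W) ⟨h1.sub, h1.clo⟩ h2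
    obtain ⟨h6, h7⟩ := (mem_inn_bd hf hW hfW hfU inter_subset_right).1 h4
    rcases h7 with h7 | rfl
    · obtain ⟨a, b, c⟩ := mem_bd.1 h6
      have h8 := hcl d (mem_bd.2 ⟨a, (mem_inter.1 b).1, fun h9 => c (mem_inter.2 ⟨h9, h7⟩)⟩)
      rcases mem_union.1 h8 with h9 | h9
      · exact (hcon d h9).2 ⟨(mem_inter.1 b).2, h7⟩
      · exact h5 (mem_filter.1 h9).1
    · exact h5 hfM2
  have TU : G.Adm fr1 (F.filter fun d => G.pi d ∈ fr1) (X \ W) → Disjoint (X ∩ W) P →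
      (Odd (X \ W).card ∨ ((jm ∩ fr1).Nonempty ∧ jm ∩ fr1 ⊆ X \ W)) → False := by
    intro h1 h0 h2
    obtain ⟨d, h4, h5⟩ := hM1.hit (X \ W)
      ((con_adm hω hW (disjoint_of_subset_right hWB1 hd1) hcl1).2 h1) h2
    rw [con_bd_out hω hW (hXU.sub.trans hF.fsub) sdiff_disjoint] at h4
    obtain ⟨a, b, c⟩ := mem_bd.1 h4
    obtain ⟨b1, b2⟩ := mem_sdiff.1 b
    by_cases h6 : G.pi (G.al d) ∈ X
    · have h7 : G.pi (G.al d) ∈ W := by
        by_contra hn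
        exact c (mem_sdiff.2 ⟨h6, hn⟩)
      have haa := G.al_al d a
      by_cases h8 : G.al d = f
      · apply h5
        rw [← haa, h8]
        exact hafM1
      · refine disjoint_left.1 h0 (mem_inter.2 ⟨h6, h7⟩) ?_
        rw [hP]
        refine mem_union_right _ (mem_lp.2 ⟨⟨hX.sub h6, h7⟩, G.al d, G.al_mem d a, rfl, ?_, h8, ?_⟩)
        · rw [haa]
          exact b2
        · rw [haa]
          exact hX.sub b1
    · rcases mem_union.1 (hcl d (mem_bd.2 ⟨a, b1, h6⟩)) with h7 | h7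
      · exact h5 h7
      · exact b2 (mem_filter.1 h7).2.1
  have hsub20 : X ∩ W ⊆ fr20 := by
    refine ((hadm20 _).2 ⟨hXW, ?_⟩).sub
    rw [disjoint_union_right]
    exact ⟨disjoint_of_subset_left inter_subset_right disjoint_sdiff, hXq⟩
  have hstar : ∀ v ∈ jm, v ∈ X → jm ⊆ X := fun v hv hvX => h.star_sub hpm hX hcl hv hvX
  by_cases hq0 : Disjoint (X ∩ W) P
  · -- no link
    have hAW : G.Adm fr2 (F.filter fun d => G.pi d ∈ fr2) (X ∩ W) := by
      rcases hcase with ⟨h1, -⟩ | ⟨h1, -⟩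
      · exact h1 _ hXW inter_subset_right hXq
      · exact h1 _ hXW inter_subset_right hXq hq0
    -- a star in `X` lies outside `W`
    have hjo : ∀ u ∈ jm, u ∈ X → jm ⊆ G.vs \ W := by
      intro u hu huX w hw
      refine mem_sdiff.2 ⟨hF.fsub (hF.jms hw), fun hwW => ?_⟩
      refine disjoint_left.1 hq0 (mem_inter.2 ⟨hstar u hu huX hw, hwW⟩) ?_
      rw [hP]
      exact mem_union_left _ (mem_inter.2 ⟨hw, hwW⟩)
    have hAU : G.Adm fr1 (F.filter fun d => G.pi d ∈ fr1) (X \ W) := by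
      refine (hadm1 _).2 ⟨hXU, ?_⟩
      rw [hB1, disjoint_union_right]
      refine ⟨sdiff_disjoint, ?_⟩
      by_cases h1 : jm ⊆ G.vs \ W
      · rw [if_pos h1]
        exact disjoint_empty_right _
      · rw [if_neg h1, disjoint_left]
        intro v hv hvs
        exact h1 (hjo v hvs (mem_sdiff.1 hv).1)
    rcases hodd with ho | ⟨hne, hsX⟩
    · have h1 : (X ∩ W).card + (X \ W).card = X.card := by
        rw [add_comm]
        exact card_sdiff_add_card_inter X W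
      rcases Nat.even_or_odd (X ∩ W).card with h2 | h2
      · refine TU hAU hq0 (Or.inl ?_)
        rw [Nat.odd_iff] at ho ⊢
        rw [Nat.even_iff] at h2
        omega
      · exact TW hAW (Or.inl h2)
    · obtain ⟨u, hu⟩ := hne
      have h1 := hjo u hu (hsX hu)
      have h2 := hj1.1 h1
      refine TU hAU hq0 (Or.inr ?_)
      rw [inter_eq_left.2 h2]
      exact ⟨⟨u, hu⟩, fun v hv => mem_sdiff.2 ⟨hsX hv, (mem_sdiff.1 (h1 hv)).2⟩⟩
  · -- two links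
    have h1 : 0 < ((X ∩ W) ∩ P).card := by
      rw [card_pos]
      rw [disjoint_iff_inter_eq_empty] at hq0
      exact nonempty_iff_ne_empty.2 hq0
    have h2 : ((X ∩ W) ∩ P).card ≤ P.card := card_le_card inter_subset_right
    have h4 : P.card = 2 := by
      obtain ⟨k, hk⟩ := hPe
      omega
    have h5 : P ⊆ X ∩ W := by
      have h6 : (X ∩ W) ∩ P = P := by
        refine eq_of_subset_of_card_le inter_subset_right ?_
        obtain ⟨k, hk⟩ := hPe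
        omega
      rw [← h6]
      exact inter_subset_left
    rcases hcase with ⟨h6, h8, -⟩ | ⟨-, h8⟩
    · refine TW (h6 _ hXW inter_subset_right hXq) (Or.inr ?_)
      rw [h8]
      exact ⟨card_pos.1 (by omega), h5⟩
    · exact h8 ⟨h4, h5.trans hsub20⟩

end MG

end RH
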