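import Pool.Agent.Lib.RH.Kill
import Pool.Agent.Lib.RH.Odd

/-! The growth lemma: an odd circuit with a J-edge to an absorbed vertex. -/

set_option autoImplicit false

namespace RH

open Finset Classical

namespace MG

variable {V D : Type*} {G : MG V D} {z : D → ℝ} {t : V → ℝ}
variable {fr : Finset V} {F : Finset D} {par ep : V → ℕ}

/-- GROWTH. `tau ≤ 4`, `C` an odd circuit class, `j` a dart at `x ∈ C` to an absorbed vertex `w`; no
tight odd set contains exactly one or... (i) a tight odd set containing `C` contains `w`,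
(ii) a tight odd set which is not a single vertex does not cut `C`. Then there is a step absorbing
`C`. Here `hw` says `w` is not fresh. (The remark of helper84: the complement of a single vertex can
be tight, it is covered by (i).) -/
theorem grow_odd (h : G.Inst z t fr F par ep) (ht : ∑ v ∈ G.vs, t v ≤ 4)
    {C : Finset V} (hC : G.Circ fr F C) (ho : Odd C.card) {j : D} (hj : j ∈ G.ds)
    (hx : G.pi j ∈ C) (hw : G.pi (G.al j) ∉ fr)
    (h1 : ∀ X ⊆ G.vs, Odd X.card → G.val z t X = 3 → C ⊆ X → G.pi (G.al j) ∈ X)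
    (h2 : ∀ X ⊆ G.vs, Odd X.card → G.val z t X = 3 → 1 < X.card → C ⊆ X ∨ Disjoint C X) :
    ∃ z' t', G.IsStep z fr F z' t' (fr \ C) := by
  have hF := h.fresh
  have hxfr : G.pi j ∈ fr := hC.adm.sub hx
  have hne : G.al j ≠ j := fun e => hw (by rw [e]; exact hxfr)
  have haj := G.al_mem j hj
  have haa := G.al_al j hj
  obtain ⟨δ, d1, d2, d3, -⟩ := exists_alt hF hC ho hx
  have hzj : z j = 1 := hF.unit j hj hxfr
  have hzaj : z (G.al j) = 1 := by rw [h.wt.sym j hj, hzj]
  have hjF : j ∉ F := fun hh => hw (hF.Ffr _ (hF.Fal j hh))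
  have hajF : G.al j ∉ F := fun hh => hw (hF.Ffr _ hh)
  have hmemS : ∀ d, d ∈ ({j, G.al j} : Finset D) ↔ d = j ∨ d = G.al j := by
    intro d
    rw [mem_insert, mem_singleton]
  refine step_of_dir h (S := {j, G.al j}) ?_ ?_ ?_ ?_ sdiff_subset ?_ ?_ ?_ ?_ δ
    (fun v => if v = G.pi j then -1 else 0) d2 ?_ ?_ ?_ ?_ ?_ ?_ ?_
  · intro d hd
    rcases (hmemS d).1 hd with rfl | rfl
    · exact hj
    · exact haj
  · intro d hd
    rcases (hmemS d).1 hd with rfl | rfl
    · exact (hmemS _).2 (Or.inr rfl)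
    · exact (hmemS _).2 (Or.inl haa)
  · intro d hd
    rcases (hmemS d).1 hd with rfl | rfl
    · exact hzj
    · exact hzaj
  · have hc : ((({j, G.al j} : Finset D).card : ℕ) : ℝ) ≤ 2 := by
      exact_mod_cast card_le_two
    linarith
  · intro he
    have : G.pi j ∈ fr \ C := by rw [he]; exact hxfr
    exact (mem_sdiff.1 this).2 hx
  · intro d hd hp
    obtain ⟨p1, p2⟩ := mem_sdiff.1 hp
    refine mem_sdiff.2 ⟨hF.Ffr _ (hF.Fal d hd), fun hh => p2 ?_⟩
    have h3 := hC.adm.clo _ (hF.Fal d hd) hh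
    rwa [G.al_al d (hF.Fsub hd)] at h3
  · intro d hd
    rcases (hmemS d).1 hd with rfl | rfl
    · exact fun hh => (mem_sdiff.1 hh).2 hx
    · exact fun hh => hw (mem_sdiff.1 hh).1
  · intro X hX hn
    have hXC : (X ∩ C).Nonempty := by
      rw [nonempty_iff_ne_empty]
      intro he
      apply hn
      intro v hv
      refine mem_sdiff.2 ⟨hX.sub hv, fun hvC => ?_⟩
      have : v ∈ X ∩ C := mem_inter.2 ⟨hv, hvC⟩
      rw [he] at this
      exact absurd this (notMem_empty _)
    have hadm : G.Adm fr F (X ∩ C) := by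
      refine ⟨fun v hv => hX.sub (mem_inter.1 hv).1, fun d hd hp => ?_⟩
      obtain ⟨p1, p2⟩ := mem_inter.1 hp
      exact mem_inter.2 ⟨hX.clo d hd p1, hC.adm.clo d hd p2⟩
    have heq := hC.min _ hadm inter_subset_right hXC
    have hxX : G.pi j ∈ X := by
      rw [← heq] at hx
      exact (mem_inter.1 hx).1
    exact ⟨j, mem_bd.2 ⟨hj, hxX, fun hh => hw (hX.sub hh)⟩, (hmemS _).2 (Or.inl rfl)⟩
  · intro v hv
    rw [d3 v hv]
    by_cases e : v = G.pi j
    · rw [if_pos e, if_pos e]; norm_num
    · rw [if_neg e, if_neg e]; norm_num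
  · intro d _ hp
    by_contra hne'
    exact (mem_sdiff.1 hp).2 (d1 d hne').2
  · intro d hd
    by_contra hne'
    rcases (hmemS d).1 hd with rfl | rfl
    · exact hjF (d1 _ hne').1
    · exact hajF (d1 _ hne').1
  · intro d hd hz0
    by_contra hne'
    have h3 := hF.unit d hd (hC.adm.sub (d1 d hne').2)
    rw [hz0] at h3
    norm_num at h3
  · intro v hv hk
    by_cases e : v = G.pi j
    · exfalso
      have h3 : kt G z t {j, G.al j} v = t v + ∑ d ∈ ({j, G.al j} : Finset D).filter
        (fun d => G.pi d = v), z d := rfl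
      have h4 : (1 : ℝ) ≤ ∑ d ∈ ({j, G.al j} : Finset D).filter (fun d => G.pi d = v), z d := by
        have h5 : j ∈ ({j, G.al j} : Finset D).filter (fun d => G.pi d = v) :=
          mem_filter.2 ⟨(hmemS _).2 (Or.inl rfl), e.symm⟩
        have h6 : ∀ d ∈ ({j, G.al j} : Finset D).filter (fun d => G.pi d = v), 0 ≤ z d := by
          intro d hd
          rcases (hmemS d).1 (mem_filter.1 hd).1 with rfl | rfl
          · rw [hzj]; norm_num
          · rw [hzaj]; norm_num
        have h7 := single_le_sum h6 h5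
        rwa [hzj] at h7
      have h5 := h.wt.t0 v hv
      rw [h3] at hk
      linarith
    · rw [if_neg e]
  · intro X hX hoX hv3 hS
    by_cases hc : 1 < X.card
    · rcases h2 X hX hoX hv3 hc with h3 | h3
      · exfalso
        have h4 := h1 X hX hoX hv3 h3
        exact hS j (mem_ed.2 ⟨hj, h3 hx, h4⟩) ((hmemS _).2 (Or.inl rfl))
      · refine le_of_eq (sum_eq_zero fun d hd => ?_)
        by_contra hne'
        exact disjoint_left.1 h3 (d1 d hne').2 (mem_ed.1 hd).2.1
    · have hX1 : X.card = 1 := by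
        obtain ⟨k, hk⟩ := hoX
        omega
      obtain ⟨v, rfl⟩ := card_eq_one.1 hX1
      refine le_of_eq (sum_eq_zero fun d hd => ?_)
      exfalso
      obtain ⟨e1, e2, e3⟩ := mem_ed.1 hd
      rw [mem_singleton] at e2 e3
      exact G.noloop d e1 (e3.trans e2.symm)
  · rw [sum_ite_eq', if_pos (G.pi_mem j hj)]
    norm_num

end MG

end RH
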