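import Pool.Agent.Lib.RH.I4F2Cut
import Pool.Agent.Lib.RH.Even2

/-! Even sets of value 2, integral class (copy of Even2, helper78). -/

set_option autoImplicit false

namespace RH

open Finset Classical

namespace MG

variable {V D : Type*} {G : MG V D} {z : D → ℝ} {t : V → ℝ} {fr : Finset V} {F : Finset D}
variable {jm sx : Finset V} {ep : V → ℕ} {m : ℕ} {M : Finset D} {Z : Finset V}

/-- **even sets of value 2 do not cut circuits** -/
theorem MCI.even2_closed [Infinite V] [Infinite D] (h : G.MCI z t fr F jm sx ep 0)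
    (hZ : Z ⊆ G.vs) (he : Even Z.card) (hv : G.val z t Z = 2) :
    ∀ d ∈ F, G.pi d ∈ Z → G.pi (G.al d) ∈ Z := by
  intro g hg h1
  by_contra h2
  obtain ⟨g2, c⟩ := F2Z.of_dart h.inst.fresh hZ he hv hg h1 h2
  exact h.no_F2cut c

/-- **even sets of value 2**: either there is no boundary edge of weight 1, or one side consists of
two vertices outside the circuits -/
theorem MCI.even2 [Infinite V] [Infinite D] (h : G.MCI z t fr F jm sx ep 0)
    (hZ : Z ⊆ G.vs) (he : Even Z.card) (hv : G.val z t Z = 2) {e : D} (hee : e ∈ G.bd Z)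
    (hz : z e = 1) (hsz : 4 ≤ Z.card ∨ (fr ∩ Z).Nonempty)
    (hsy : 4 ≤ (G.vs \ Z).card ∨ (fr \ Z).Nonempty) : False := by
  obtain ⟨h1, h2, h3⟩ := mem_bd.1 hee
  exact h.no_c2 ⟨hZ, he, hv, h1, h2, h3, hz, h.even2_closed hZ he hv⟩ hsz hsy

end MG

end RH
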