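import Pool.Agent.Lib.RH.I4Glue2A

/-! Two-cuts inside the class `Int4` (helper87; copy of helper42's Glue2C and Glue2): fresh closed
sets with two boundary edges; no even set of value 2 without F-edges in its boundary and with a
boundary edge of weight 1. -/

set_option autoImplicit false

namespace RH

open Finset Classical

namespace MG

variable {V D : Type*}
variable {G G' : MG V D} {z z' : D → ℝ} {t : V → ℝ} {Z Y W T X P : Finset V} {Del : Finset D}
variable {fr fr' : Finset V} {F F' : Finset D} {jm jm' sx B : Finset V} {ω x y : V} {e g : D}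
variable {ep : V → ℕ} {m : ℕ} {M M1 M2 : Finset D}

theorem MCI.finish (h : G.MCI z t fr F jm sx ep m) (hM : G.IsPM M) (hpos : ∀ d ∈ M, 0 < z d)
    (hX : ∀ X, G.Adm fr F X → (∀ d ∈ G.bd X, d ∈ M) →
      Even X.card ∧ ¬ (jm.Nonempty ∧ jm ⊆ X)) : False := by
  refine h.bad ⟨M, hM, hpos, fun X hXa ho => ?_⟩
  by_contra hcon
  push Not at hcon
  obtain ⟨h1, h2⟩ := hX X hXa hcon
  rw [h.inst.sx_eq] at ho
  rcases ho with h3 | h3
  · exact (Nat.not_even_iff_odd.2 h3) h1
  · exact h2 h3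

/-- NO closed set with two boundary edges, away from the star -/
theorem MCI.no_c2_fresh (h : G.MCI z t fr F jm sx ep 0) (hT : G.Adm fr F T) (he : Even T.card)
    (hj : Disjoint T jm) (hb : G.bd T = {e, g}) (hge : g ≠ e)
    (hsy : 4 ≤ (G.vs \ T).card ∨ (fr \ T).Nonempty) : False := by
  have hF := h.inst.fresh
  have hw := h.inst.wt
  have p := pole_of hF hw hT he hj hb hge
  have q := p.pl hw
  have hr := out_pole h.inst hT he hj hb hge q
  have b1 : e ∈ G.bd T := by rw [hb]; exact mem_insert_self _ _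
  have b2 : g ∈ G.bd T := by rw [hb]; exact mem_insert_of_mem (mem_singleton_self _)
  obtain ⟨e1, e2, e3⟩ := mem_bd.1 b1
  obtain ⟨g1, g2, g3⟩ := mem_bd.1 b2
  have hTs : T ⊆ G.vs := hT.sub.trans hF.fsub
  have hFT : ∀ d ∈ F, G.pi d ∈ T → G.pi (G.al d) ∈ T := fun d hd hp => hT.clo d hd hp
  have hFY := FY_of hF.Fsub hF.Fal hFT
  have hze : z e = 1 := hF.unit e e1 (hT.sub e2)
  have hzg : z g = 1 := hF.unit g g1 (hT.sub g2)
  have c : G.C2 z t F T e := by
    refine ⟨hTs, he, ?_, e1, e2, e3, hze, hFT⟩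
    rw [hF.val_fr hw hT.sub hj, hb, card_pair hge.symm]
    norm_num
  have hsz : (fr \ T).card < fr.card ∨ ((fr \ T).card = fr.card ∧
      ((G.pole q).vs.card < G.vs.card ∨ ((G.pole q).vs.card = G.vs.card ∧
        (G.pole q).sup z < G.sup z))) := by
    left
    refine card_lt_card (Finset.ssubset_iff_subset_ne.2 ⟨sdiff_subset, fun h2 => ?_⟩)
    have h3 := hT.sub e2
    rw [← h2] at h3
    exact (mem_sdiff.1 h3).2 e2
  obtain ⟨M1, hM1, hpos1, hhit1⟩ := h.solve hr (Int4.of_raw hr fun d hd => h.i4.zi d ((mem_pole_ds q).1 hd).1) hsz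
  have hMds : ∀ d ∈ M1, d ∈ G.ds ∧ G.pi d ∉ T ∧ (d = G.al e ∨ d = G.al g ∨ G.pi (G.al d) ∉ T) :=
    fun d hd => (mem_pole_ds q).1 (hM1.sub hd)
  have hba : G.al g ∈ M1 ↔ G.al e ∈ M1 := by
    constructor
    · intro h1
      have h2 := hM1.closed _ h1
      rwa [pole_al_b] at h2
    · intro h1
      have h2 := hM1.closed _ h1
      rwa [pole_al_a] at h2
  have half1 : G.Half (G.vs \ T) M1 := by
    refine ⟨fun d hd => ⟨(hMds d hd).1, mem_sdiff.2 ⟨G.pi_mem d (hMds d hd).1, (hMds d hd).2.1⟩⟩,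
      ?_, fun v hv => hM1.one v hv⟩
    intro d hd hp
    have h1 := hM1.closed d hd
    rwa [pole_al_out q (mem_sdiff.1 hp).2] at h1
  have hjY : ∀ v ∈ jm, v ∉ T := fun v hv h1 => disjoint_left.1 hj h1 hv
  -- admissible sets of the outer side
  have hadm : ∀ X, G.Adm fr F X → (G.pole q).Adm (fr \ T) (F.filter fun d => G.pi d ∉ T)
      (X ∩ (G.vs \ T)) := by
    intro X hX
    refine ⟨fun v hv => ?_, fun d hd hp => ?_⟩
    · obtain ⟨h1, h2⟩ := mem_inter.1 hv
      exact mem_sdiff.2 ⟨hX.sub h1, (mem_sdiff.1 h2).2⟩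
    · obtain ⟨h1, h2⟩ := mem_filter.1 hd
      obtain ⟨h3, h4⟩ := mem_inter.1 hp
      have h5 := hFY d h1 h4
      change G.pi ((G.pole q).al d) ∈ _
      rw [pole_al_out q (mem_sdiff.1 h5).2]
      exact mem_inter.2 ⟨hX.clo d h1 h3, h5⟩
  have huse : ∀ M2, G.Half T M2 → ∀ X, G.Adm fr F X → (∀ d ∈ G.bd X, d ∈ M1 ∪ M2) →
      (G.al e ∉ M1 → (G.pi (G.al e) ∈ X ↔ G.pi (G.al g) ∈ X)) →
      Even (X ∩ (G.vs \ T)).card ∧ ¬ (jm.Nonempty ∧ jm ⊆ X) := by
    intro M2 half2 X hX hcl hab
    have h0 : ¬ (Odd (X ∩ (G.vs \ T)).card ∨ (jm.Nonempty ∧ jm ⊆ X ∩ (G.vs \ T))) := by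
      intro h1
      obtain ⟨d, h2, h3⟩ := hhit1 _ (hadm X hX) (disjoint_empty_right _) h1
      obtain ⟨h4, h5, h6⟩ := mem_bd.1 h2
      obtain ⟨h7, h8, h9⟩ := (mem_pole_ds q).1 h4
      have h5' : G.pi d ∈ X ∩ (G.vs \ T) := h5
      obtain ⟨h10, h11⟩ := mem_inter.1 h5'
      have h6' : G.pi ((G.pole q).al d) ∉ X ∩ (G.vs \ T) := h6
      rcases h9 with rfl | rfl | h9
      · rw [pole_al_a] at h6'
        have h12 := (hab h3).1 h10
        exact h6' (mem_inter.2 ⟨h12, mem_sdiff.2 ⟨G.pi_mem _ (G.al_mem g g1), g3⟩⟩)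
      · rw [pole_al_b] at h6'
        have h12 := (hab fun h13 => h3 (hba.2 h13)).2 h10
        exact h6' (mem_inter.2 ⟨h12, mem_sdiff.2 ⟨G.pi_mem _ (G.al_mem e e1), e3⟩⟩)
      · rw [pole_al_out q h9] at h6'
        refine h3 (half_out half2 (hcl d (mem_bd.2 ⟨h7, h10, fun h12 => h6' ?_⟩)) h8)
        exact mem_inter.2 ⟨h12, mem_sdiff.2 ⟨G.pi_mem _ (G.al_mem d h7), h9⟩⟩
    rw [not_or] at h0
    refine ⟨Nat.not_odd_iff_even.1 h0.1, ?_⟩
    rintro ⟨h1, h2⟩
    exact h0.2 ⟨h1, fun v hv => mem_inter.2 ⟨h2 hv, mem_sdiff.2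
      ⟨hF.fsub (hF.jms hv), hjY v hv⟩⟩⟩
  by_cases haM : G.al e ∈ M1
  · -- used
    obtain ⟨M2, half2, hpos2, heM, hgM, hcr2, hhit2⟩ := h.in2 c b2 hge (by rw [hzg]; norm_num) hsy
    have hpm : G.IsPM (M1 ∪ M2) := by
      refine half1.glue half2 sdiff_disjoint (sdiff_union_of_subset hTs).symm ?_
      intro d hd hp hq
      have h1 : d ∈ G.bd T := mem_bd.2 ⟨hd, hp, (mem_sdiff.1 hq).2⟩
      rw [hb, mem_insert, mem_singleton] at h1
      rcases h1 with rfl | rfl
      · exact ⟨fun _ => haM, fun _ => heM⟩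
      · exact ⟨fun _ => hba.2 haM, fun _ => hgM⟩
    refine h.finish hpm (fun d hd => (mem_union.1 hd).elim (hpos1 d) (hpos2 d)) ?_
    intro X hX hcl
    obtain ⟨h1, h2⟩ := huse M2 half2 X hX hcl (fun h3 => absurd haM h3)
    refine ⟨?_, h2⟩
    have h3 : Even (X ∩ T).card := by
      rw [← Nat.not_odd_iff_even]
      intro ho
      obtain ⟨d, h4, h5⟩ := hhit2 (X ∩ T) (hX.interZ hFT) inter_subset_right ho
      obtain ⟨h6, h7, h8⟩ := mem_bd.1 h4
      obtain ⟨h9, h10⟩ := mem_inter.1 h7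
      by_cases h11 : G.pi (G.al d) ∈ T
      · exact h5 (half_in half1 (hcl d (mem_bd.2 ⟨h6, h9, fun h12 =>
          h8 (mem_inter.2 ⟨h12, h11⟩)⟩)) h10)
      · have h12 : d ∈ G.bd T := mem_bd.2 ⟨h6, h10, h11⟩
        rw [hb, mem_insert, mem_singleton] at h12
        rcases h12 with rfl | rfl
        · exact h5 heM
        · exact h5 hgM
    rw [card_split (Z := T) (hX.sub.trans hF.fsub)]
    exact h3.add h1
  · -- unused
    obtain ⟨M2, half2, hpos2, hcr2, hhit2⟩ := h.in0 (jm' := ∅) (B := {G.pi e, G.pi g}) hTs he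
      (by rw [c.hv]; norm_num) hFT (card_lt_card (Finset.ssubset_iff_subset_ne.2 ⟨hTs,
        fun h1 => e3 (by rw [h1]; exact G.pi_mem _ (G.al_mem e e1))⟩)) (empty_subset _)
      (Or.inl rfl) (by
        intro d hd _
        rw [hb, mem_insert, mem_singleton] at hd
        left
        rcases hd with rfl | rfl
        · exact mem_insert_self _ _
        · exact mem_insert_of_mem (mem_singleton_self _))
      (fun v hv => absurd hv (notMem_empty v)) (fun v hv h1 => absurd h1 (hjY v hv))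
      (fun X _ _ _ _ h1 => absurd h1 not_nonempty_empty)
    have hc1 : ∀ d ∈ M1, G.pi (G.al d) ∉ T := by
      intro d hd
      obtain ⟨-, -, h3⟩ := hMds d hd
      rcases h3 with h3 | h3 | h3
      · exact absurd (h3 ▸ hd) haM
      · exact absurd (hba.1 (h3 ▸ hd)) haM
      · exact h3
    obtain ⟨hpm, hun⟩ := glue_un hTs half1 half2 hc1 hcr2
    refine h.finish hpm (fun d hd => (mem_union.1 hd).elim (hpos1 d) (hpos2 d)) ?_
    intro X hX hcl
    have ue := un_iff hpm hcl e1 (hun e b1)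
    have ug := un_iff hpm hcl g1 (hun g b2)
    have hpar := unused_part hF hpm hX hFT hcl hun
    have h0 : ((X ∩ T) ∩ jm).card = 0 := by
      rw [card_eq_zero, ← disjoint_iff_inter_eq_empty]
      exact disjoint_of_subset_left inter_subset_right hj
    rw [h0] at hpar
    have hN : (G.bd T).filter (fun d => G.pi d ∈ X ∧ G.pi (G.al d) ∈ X) =
        ({e, g} : Finset D).filter fun d => G.pi d ∈ X := by
      rw [hb]
      apply filter_congr
      intro d hd
      rw [mem_insert, mem_singleton] at hd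
      rcases hd with rfl | rfl
      · exact ⟨fun h1 => h1.1, fun h1 => ⟨h1, ue.1 h1⟩⟩
      · exact ⟨fun h1 => h1.1, fun h1 => ⟨h1, ug.1 h1⟩⟩
    rw [hN] at hpar
    have heg : G.pi e ∈ X ↔ G.pi g ∈ X := by
      constructor
      · intro h1
        by_contra h2
        have h3 : ({e, g} : Finset D).filter (fun d => G.pi d ∈ X) = {e} := by
          ext d
          rw [mem_filter, mem_insert, mem_singleton, mem_singleton]
          constructor
          · rintro ⟨rfl | rfl, h3⟩
            · rfl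
            · exact absurd h3 h2
          · rintro rfl
            exact ⟨Or.inl rfl, h1⟩
        rw [h3, card_singleton] at hpar
        norm_num at hpar
      · intro h1
        by_contra h2
        have h3 : ({e, g} : Finset D).filter (fun d => G.pi d ∈ X) = {g} := by
          ext d
          rw [mem_filter, mem_insert, mem_singleton]
          constructor
          · rintro ⟨rfl | rfl, h3⟩
            · exact absurd h3 h2
            · rfl
          · rintro rfl
            exact ⟨Or.inr rfl, h1⟩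
        rw [h3, card_singleton] at hpar
        norm_num at hpar
    obtain ⟨h1, h2⟩ := huse M2 half2 X hX hcl fun _ => by rw [← ue, ← ug, heg]
    refine ⟨?_, h2⟩
    have hinM2 : ∀ d ∈ M1 ∪ M2, G.pi d ∈ T → d ∈ M2 := fun d hd hp => half_in half1 hd hp
    rw [card_split (Z := T) (hX.sub.trans hF.fsub)]
    refine Even.add ?_ h1
    by_cases hee : G.pi e ∈ X
    · -- complement
      have hgg := heg.1 hee
      have hXc : G.Adm fr F (T \ X) := by
        refine ⟨sdiff_subset.trans hT.sub, fun d hd hp => ?_⟩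
        obtain ⟨h3, h4⟩ := mem_sdiff.1 hp
        refine mem_sdiff.2 ⟨hT.clo d hd h3, fun h5 => h4 ?_⟩
        have h6 := hX.clo _ (hF.Fal d hd) h5
        rwa [G.al_al d (hF.Fsub hd)] at h6
      have hev : Even (T \ X).card := by
        rw [← Nat.not_odd_iff_even]
        intro ho
        obtain ⟨d, h3, h4, h5⟩ := hhit2 (T \ X) hXc sdiff_subset (by
          rw [disjoint_left]
          intro v hv hvB
          rw [mem_insert, mem_singleton] at hvB
          rcases hvB with rfl | rfl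
          · exact (mem_sdiff.1 hv).2 hee
          · exact (mem_sdiff.1 hv).2 hgg) (Or.inl ho)
        obtain ⟨h6, h7, h8⟩ := mem_bd.1 h3
        obtain ⟨h9, h10⟩ := mem_sdiff.1 h7
        have h11 : G.pi (G.al d) ∈ X := by
          by_contra h12
          exact h8 (mem_sdiff.2 ⟨h4, h12⟩)
        have h12 := hpm.closed _ (hcl (G.al d) (mem_bd.2 ⟨G.al_mem d h6, h11, by
          rw [G.al_al d h6]; exact h10⟩))
        rw [G.al_al d h6] at h12
        exact h5 (hinM2 d h12 h9)
      have h3 := card_inter_add_card_sdiff T X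
      rw [inter_comm] at h3
      obtain ⟨k, hk⟩ := he
      obtain ⟨l, hl⟩ := hev
      rw [Nat.even_iff]
      omega
    · refine (hit_use (M2 := M2) (B := {G.pi e, G.pi g}) (jm' := ∅) hX hFT hcl hinM2 ?_ hhit2).1
      rw [disjoint_left]
      intro v hv hvB
      rw [mem_insert, mem_singleton] at hvB
      rcases hvB with rfl | rfl
      · exact hee (mem_inter.1 hv).1
      · exact hee (heg.2 (mem_inter.1 hv).1)

/-- two-cuts, the star is not in `Z` -/
theorem MCI.no_c2_B (h : G.MCI z t fr F jm sx ep 0) (c : G.C2 z t F Z e) (hjZ : ∀ v ∈ Z, v ∉ jm)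
    (hsz : 4 ≤ Z.card ∨ (fr ∩ Z).Nonempty) (hsy : 4 ≤ (G.vs \ Z).card ∨ (fr \ Z).Nonempty) :
    False := by
  have hF := h.inst.fresh
  have hw := h.inst.wt
  have hFY := FY_of hF.Fsub hF.Fal c.FZ
  have hsx := h.inst.sx_eq
  obtain ⟨M1, half1, hpos1, hor, hhit1⟩ := h.out1 c hjZ hsz
  have hjY : jm ⊆ G.vs \ Z := fun v hv => mem_sdiff.2 ⟨hF.fsub (hF.jms hv), fun h1 => hjZ v h1 hv⟩
  have hfin : ∀ {M}, G.IsPM M → (∀ d ∈ M, 0 < z d) →
      (∀ X, G.Adm fr F X → (∀ d ∈ G.bd X, d ∈ M) → Even (X ∩ Z).card ∧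
        (Even (X ∩ (G.vs \ Z)).card ∧ ¬ (jm.Nonempty ∧ jm ⊆ X ∩ (G.vs \ Z)))) → False := by
    intro M hM hpos hX
    refine h.finish hM hpos fun X hXa hcl => ?_
    obtain ⟨h1, h2, h3⟩ := hX X hXa hcl
    refine ⟨?_, fun h4 => h3 ⟨h4.1, fun v hv => mem_inter.2 ⟨h4.2 hv, hjY hv⟩⟩⟩
    rw [card_split (Z := Z) (hXa.sub.trans hF.fsub)]
    exact h1.add h2
  -- crossing darts with two fresh ends
  have hz1 : ∀ d ∈ G.ds, G.pi d ∈ fr → z d = 1 := hF.unit
  rcases hor with hun1 | ⟨g, hg, hge, hzg, heM, hgM, hcr1⟩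
  · -- unused
    by_cases hS : ∃ g ∈ G.bd Z, g ≠ e ∧ G.pi e ∈ fr ∧ G.pi (G.al e) ∈ fr ∧ G.pi g ∈ fr ∧
        G.pi (G.al g) ∈ fr
    · obtain ⟨g, hg, hge, f1, f2, f3, f4⟩ := hS
      obtain ⟨g1, g2, g3⟩ := mem_bd.1 hg
      have hzg : z g = 1 := hz1 g g1 f3
      have hother : ∀ d ∈ G.bd Z, G.pi d ∈ fr → d = e ∨ d = g := by
        intro d hd hp
        by_contra h1
        rw [not_or] at h1
        have h2 := c.rest_le hw hg hge hd h1.1 h1.2
        rw [hzg, hz1 d (mem_bd.1 hd).1 hp] at h2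
        norm_num at h2
      have hne : G.pi e ≠ G.pi g := by
        intro h1
        have h2 := (c.one_in hw).2.1 g hg h1.symm hge
        rw [hzg] at h2
        norm_num at h2
      obtain ⟨M2, half2, hpos2, hcr2, hhit2⟩ := h.in0 (jm' := {G.pi e, G.pi g}) (B := ∅) c.hZ c.he
        (by rw [c.hv]; norm_num) c.FZ (card_lt_card (Finset.ssubset_iff_subset_ne.2 ⟨c.hZ,
          fun h1 => c.eY (by rw [h1]; exact G.pi_mem _ (G.al_mem e c.ed))⟩))
        (by
          intro v hv
          rw [mem_insert, mem_singleton] at hv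
          rcases hv with rfl | rfl
          · exact mem_inter.2 ⟨f1, c.eZ⟩
          · exact mem_inter.2 ⟨f3, g2⟩)
        (Or.inr (card_pair hne))
        (by
          intro d hd hp
          right
          rcases hother d hd hp with rfl | rfl
          · exact mem_insert_self _ _
          · exact mem_insert_of_mem (mem_singleton_self _))
        (by
          intro v hv
          rw [mem_insert, mem_singleton] at hv
          right
          rcases hv with rfl | rfl
          · exact ⟨e, c.e_bd, rfl⟩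
          · exact ⟨g, hg, rfl⟩)
        (fun v hv h1 => absurd hv (hjZ v h1))
        (by
          intro X hX hXZ _ hev _ hjX
          by_contra hlt
          have hd1 : ∀ d ∈ G.bd X, G.pi (G.al d) ∉ Z → d = e ∨ d = g := by
            intro d hd h1
            obtain ⟨h2, h3, h4⟩ := mem_bd.1 hd
            exact hother d (mem_bd.2 ⟨h2, hXZ h3, h1⟩) (hX.sub h3)
          have heX : G.pi e ∈ X := hjX (mem_insert_self _ _)
          have hgX : G.pi g ∈ X := hjX (mem_insert_of_mem (mem_singleton_self _))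
          have hd2 : (G.bd X).filter (fun d => G.pi (G.al d) ∉ Z) = {e, g} := by
            ext d
            rw [mem_filter, mem_insert, mem_singleton]
            constructor
            · exact fun h1 => hd1 d h1.1 h1.2
            · rintro (rfl | rfl)
              · exact ⟨mem_bd.2 ⟨c.ed, heX, fun h1 => c.eY (hXZ h1)⟩, c.eY⟩
              · exact ⟨mem_bd.2 ⟨g1, hgX, fun h1 => g3 (hXZ h1)⟩, g3⟩
          have hd3 : (G.res Z).bd X = (G.bd X).filter fun d => ¬ G.pi (G.al d) ∉ Z := by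
            ext d
            rw [mem_filter, mem_bd, mem_bd, not_not]
            constructor
            · rintro ⟨h1, h2, h3⟩
              obtain ⟨h4, h5, h6⟩ := mem_filter.1 h1
              exact ⟨⟨h4, h2, h3⟩, h6⟩
            · rintro ⟨⟨h1, h2, h3⟩, h4⟩
              exact ⟨mem_filter.2 ⟨h1, hXZ h2, h4⟩, h2, h3⟩
          have h1 := card_filter_add_card_filter_not (s := G.bd X) (fun d => G.pi (G.al d) ∉ Z)
          rw [hd2, ← hd3, card_pair hge.symm] at h1
          have h2 := hF.bd_par hX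
          have h3 : (X ∩ jm).card = 0 := by
            rw [card_eq_zero, ← disjoint_iff_inter_eq_empty, disjoint_left]
            exact fun v hv => hjZ v (hXZ hv)
          rw [h3] at h2
          obtain ⟨k, hk⟩ := hev
          have h4 : ((G.res Z).bd X).card = 0 := by omega
          rw [card_eq_zero] at h4
          have h5 : G.bd X = {e, g} := by
            rw [← hd2, eq_comm, filter_eq_self]
            intro d hd h6
            have h7 : d ∈ (G.res Z).bd X := by
              rw [hd3]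
              exact mem_filter.2 ⟨hd, not_not.2 h6⟩
            rw [h4] at h7
            exact notMem_empty d h7
          refine h.no_c2_fresh hX ⟨k, hk⟩ ?_ h5 hge (Or.inr ⟨G.pi (G.al e), mem_sdiff.2
            ⟨f2, fun h6 => c.eY (hXZ h6)⟩⟩)
          rw [disjoint_left]
          exact fun v hv => hjZ v (hXZ hv))
      obtain ⟨hpm, hun⟩ := glue_un c.hZ half1 half2 hun1 hcr2
      refine hfin hpm (fun d hd => (mem_union.1 hd).elim (hpos1 d) (hpos2 d)) ?_
      intro X hX hcl
      have hu := hit_use (M2 := M2) (B := ∅) (jm' := {G.pi e, G.pi g}) hX c.FZ hcl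
        (fun d hd hp => half_in half1 hd hp) (disjoint_empty_right _) hhit2
      have ue := un_iff hpm hcl c.ed (hun e c.e_bd)
      have ug := un_iff hpm hcl g1 (hun g hg)
      have hpar := unused_part hF hpm hX c.FZ hcl hun
      have h0 : ((X ∩ Z) ∩ jm).card = 0 := by
        rw [card_eq_zero, ← disjoint_iff_inter_eq_empty, disjoint_left]
        exact fun v hv => hjZ v (mem_inter.1 hv).2
      rw [h0] at hpar
      have hN : ∀ d ∈ G.bd Z, ¬ (G.pi d ∈ X ∧ G.pi (G.al d) ∈ X) := by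
        have hsub : (G.bd Z).filter (fun d => G.pi d ∈ X ∧ G.pi (G.al d) ∈ X) ⊆ {e, g} := by
          intro d hd
          obtain ⟨h1, h2, h3⟩ := mem_filter.1 hd
          rw [mem_insert, mem_singleton]
          exact hother d h1 (hX.sub h2)
        have hle := card_le_card hsub
        rw [card_pair hge.symm] at hle
        intro d hd hdX
        have h1 : d ∈ (G.bd Z).filter (fun d => G.pi d ∈ X ∧ G.pi (G.al d) ∈ X) :=
          mem_filter.2 ⟨hd, hdX⟩
        have h2 := card_pos.2 ⟨d, h1⟩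
        have h3 := eq_of_subset_of_card_le hsub (by rw [card_pair hge.symm]; omega)
        refine hu.2 ⟨⟨G.pi e, mem_insert_self _ _⟩, ?_⟩
        intro v hv
        rw [mem_insert, mem_singleton] at hv
        have h4 : e ∈ (G.bd Z).filter (fun d => G.pi d ∈ X ∧ G.pi (G.al d) ∈ X) := by
          rw [h3]
          exact mem_insert_self _ _
        have h5 : g ∈ (G.bd Z).filter (fun d => G.pi d ∈ X ∧ G.pi (G.al d) ∈ X) := by
          rw [h3]
          exact mem_insert_of_mem (mem_singleton_self _)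
        rcases hv with rfl | rfl
        · exact mem_inter.2 ⟨(mem_filter.1 h4).2.1, c.eZ⟩
        · exact mem_inter.2 ⟨(mem_filter.1 h5).2.1, g2⟩
      refine ⟨hu.1, out_use (M1 := M1) hX hFY hcl (fun d hd hp => half_out half2 hd hp) ?_ hhit1⟩
      intro d hd h1 h2 h3 h4
      exact absurd ⟨h3, by rw [G.al_al d hd]; exact h1⟩ (hN (G.al d) (mem_bd.2
        ⟨G.al_mem d hd, h4, by rw [G.al_al d hd]; exact h2⟩))
    · obtain ⟨M2, half2, hpos2, hcr2, hhit2⟩ := h.in0 (jm' := ∅) (B := (G.bd Z).image G.pi) c.hZ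
        c.he (by rw [c.hv]; norm_num) c.FZ (card_lt_card (Finset.ssubset_iff_subset_ne.2 ⟨c.hZ,
          fun h1 => c.eY (by rw [h1]; exact G.pi_mem _ (G.al_mem e c.ed))⟩)) (empty_subset _)
        (Or.inl rfl) (fun d hd _ => Or.inl (mem_image.2 ⟨d, hd, rfl⟩))
        (fun v hv => absurd hv (notMem_empty v)) (fun v hv h1 => absurd hv (hjZ v h1))
        (fun X _ _ _ _ h1 => absurd h1 not_nonempty_empty)
      obtain ⟨hpm, hun⟩ := glue_un c.hZ half1 half2 hun1 hcr2
      refine hfin hpm (fun d hd => (mem_union.1 hd).elim (hpos1 d) (hpos2 d)) ?_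
      intro X hX hcl
      have hpar := unused_part hF hpm hX c.FZ hcl hun
      have h0 : ((X ∩ Z) ∩ jm).card = 0 := by
        rw [card_eq_zero, ← disjoint_iff_inter_eq_empty, disjoint_left]
        exact fun v hv => hjZ v (mem_inter.1 hv).2
      rw [h0] at hpar
      have hN : ∀ d ∈ G.bd Z, ¬ (G.pi d ∈ X ∧ G.pi (G.al d) ∈ X) := by
        intro d hd hdX
        have h1 : d ∈ (G.bd Z).filter (fun d => G.pi d ∈ X ∧ G.pi (G.al d) ∈ X) :=
          mem_filter.2 ⟨hd, hdX⟩
        have h2 : 1 < ((G.bd Z).filter (fun d => G.pi d ∈ X ∧ G.pi (G.al d) ∈ X)).card := by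
          have h3 := card_pos.2 ⟨d, h1⟩
          omega
        obtain ⟨d1, k1, d2, k2, hne⟩ := one_lt_card.1 h2
        obtain ⟨k3, k4, k5⟩ := mem_filter.1 k1
        obtain ⟨k6, k7, k8⟩ := mem_filter.1 k2
        by_cases ee : d1 = e
        · subst ee
          exact hS ⟨d2, k6, hne.symm, hX.sub k4, hX.sub k5, hX.sub k7, hX.sub k8⟩
        · by_cases ee2 : d2 = e
          · subst ee2
            exact hS ⟨d1, k3, hne, hX.sub k7, hX.sub k8, hX.sub k4, hX.sub k5⟩
          · have h4 := c.rest_le hw k3 ee k6 ee2 hne.symm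
            rw [hz1 d1 (mem_bd.1 k3).1 (hX.sub k4), hz1 d2 (mem_bd.1 k6).1 (hX.sub k7)] at h4
            norm_num at h4
      refine ⟨(hit_use (M2 := M2) (B := (G.bd Z).image G.pi) (jm' := ∅) hX c.FZ hcl
        (fun d hd hp => half_in half1 hd hp) (avoid_bd hX hpm hcl hun hN) hhit2).1,
        out_use (M1 := M1) hX hFY hcl (fun d hd hp => half_out half2 hd hp) ?_ hhit1⟩
      intro d hd h1 h2 h3 h4
      exact absurd ⟨h3, by rw [G.al_al d hd]; exact h1⟩ (hN (G.al d) (mem_bd.2
        ⟨G.al_mem d hd, h4, by rw [G.al_al d hd]; exact h2⟩))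
  · -- used
    obtain ⟨g1, g2, g3⟩ := mem_bd.1 hg
    obtain ⟨M2, half2, hpos2, heM2, hgM2, hcr2, hhit2⟩ := h.in2 c hg hge hzg hsy
    have hother : ∀ d ∈ G.bd Z, G.pi d ∈ fr → d = e ∨ d = g := by
      intro d hd hp
      by_contra h1
      rw [not_or] at h1
      have h2 := c.rest_le hw hg hge hd h1.1 h1.2
      rw [hz1 d (mem_bd.1 hd).1 hp] at h2
      linarith
    have hpm : G.IsPM (M1 ∪ M2) := by
      refine half1.glue half2 sdiff_disjoint (sdiff_union_of_subset c.hZ).symm ?_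
      intro d hd hp hq
      constructor
      · intro h1
        rcases hcr2 d h1 (mem_sdiff.1 hq).2 with rfl | rfl
        · exact heM
        · exact hgM
      · intro h1
        rcases hcr1 _ h1 (by rw [G.al_al d hd]; exact hp) with h2 | h2
        · rw [← G.al_al d hd, h2, G.al_al e c.ed]
          exact heM2
        · rw [← G.al_al d hd, h2, G.al_al g g1]
          exact hgM2
    refine hfin hpm (fun d hd => (mem_union.1 hd).elim (hpos1 d) (hpos2 d)) ?_
    intro X hX hcl
    constructor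
    · rw [← Nat.not_odd_iff_even]
      intro ho
      obtain ⟨d, h4, h5⟩ := hhit2 (X ∩ Z) (hX.interZ c.FZ) inter_subset_right ho
      obtain ⟨h6, h7, h8⟩ := mem_bd.1 h4
      obtain ⟨h9, h10⟩ := mem_inter.1 h7
      by_cases h11 : G.pi (G.al d) ∈ Z
      · exact h5 (half_in half1 (hcl d (mem_bd.2 ⟨h6, h9, fun h12 =>
          h8 (mem_inter.2 ⟨h12, h11⟩)⟩)) h10)
      · rcases hother d (mem_bd.2 ⟨h6, h10, h11⟩) (hX.sub h9) with rfl | rfl
        · exact h5 heM2
        · exact h5 hgM2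
    · refine out_use (M1 := M1) hX hFY hcl (fun d hd hp => half_out half2 hd hp) ?_ hhit1
      intro d hd h1 h2 h3 h4
      rcases hother (G.al d) (mem_bd.2 ⟨G.al_mem d hd, h4, by rw [G.al_al d hd]; exact h2⟩)
        (hX.sub h3) with h5 | h5
      · rw [← G.al_al d hd, h5]
        exact heM
      · rw [← G.al_al d hd, h5]
        exact hgM

/-- the star is cut, `e` has an end which is not fresh -/
theorem MCI.cr_plain (h : G.MCI z t fr F jm sx ep 0) (k : G.Cr z t F jm P e x y)
    (hn : G.pi e ∉ fr ∨ G.pi (G.al e) ∉ fr) : False := by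
  have hF := h.inst.fresh
  have hw := h.inst.wt
  have k' := k.symm h.inst.even hw hF
  obtain ⟨M2, half2, hpos2, hcr2, hhit2⟩ := h.in0 (jm' := ∅) (B := insert x ((G.bd P).image G.pi))
    k.hP k.he k.hv k.FP k.lt (empty_subset _) (Or.inl rfl)
    (fun d hd _ => Or.inl (mem_insert_of_mem (mem_image.2 ⟨d, hd, rfl⟩)))
    (fun v hv => absurd hv (notMem_empty v))
    (fun v hv h1 => Or.inr (by rw [k.jmP hv h1]; exact mem_insert_self _ _))
    (fun X _ _ _ _ h1 => absurd h1 not_nonempty_empty)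
  obtain ⟨M1, half1, hpos1, hcr1, hhit1⟩ := h.in0 (jm' := ∅)
    (B := insert y ((G.bd (G.vs \ P)).image G.pi)) k'.hP k'.he k'.hv k'.FP k'.lt (empty_subset _)
    (Or.inl rfl)
    (fun d hd _ => Or.inl (mem_insert_of_mem (mem_image.2 ⟨d, hd, rfl⟩)))
    (fun v hv => absurd hv (notMem_empty v))
    (fun v hv h1 => Or.inr (by rw [k'.jmP hv h1]; exact mem_insert_self _ _))
    (fun X _ _ _ _ h1 => absurd h1 not_nonempty_empty)
  obtain ⟨hpm, hun⟩ := glue_un k.hP half1 half2 (fun d hd => (mem_sdiff.1 (hcr1 d hd)).2) hcr2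
  have hun' := un_symm hpm hun
  refine h.finish hpm (fun d hd => (mem_union.1 hd).elim (hpos1 d) (hpos2 d)) ?_
  intro X hX hcl
  have ue := un_iff hpm hcl k.ed (hun e k.e_bd)
  have h1 : G.pi e ∉ X := by
    intro h1
    rcases hn with h2 | h2
    · exact h2 (hX.sub h1)
    · exact h2 (hX.sub (ue.1 h1))
  have hx : x ∉ X := fun h2 => h1 ((k.x_not hF hpm hX hcl hun).1 h2)
  have hy : y ∉ X := fun h2 => h1 (ue.2 ((k'.x_not hF hpm hX hcl hun').1 h2))
  have hN : ∀ d ∈ G.bd P, ¬ (G.pi d ∈ X ∧ G.pi (G.al d) ∈ X) := by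
    rintro d hd ⟨h2, h3⟩
    have h4 := k.only hF hd (hX.sub h2)
    exact h1 (by rw [← h4]; exact h2)
  have hN' : ∀ d ∈ G.bd (G.vs \ P), ¬ (G.pi d ∈ X ∧ G.pi (G.al d) ∈ X) := by
    rintro d hd ⟨h2, h3⟩
    have h4 := k'.only hF hd (hX.sub h2)
    exact h1 (ue.2 (by rw [← h4]; exact h2))
  have a2 := hit_use (M2 := M2) (B := insert x ((G.bd P).image G.pi)) (jm' := ∅) hX k.FP hcl
    (fun d hd hp => half_in half1 hd hp) (by
      rw [disjoint_left]
      intro v hv hvB
      rcases mem_insert.1 hvB with rfl | h2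
      · exact hx (mem_inter.1 hv).1
      · exact disjoint_left.1 (avoid_bd hX hpm hcl hun hN) hv h2) hhit2
  have a1 := hit_use (M2 := M1) (B := insert y ((G.bd (G.vs \ P)).image G.pi)) (jm' := ∅) hX
    k'.FP hcl (fun d hd hp => half_out half2 hd (mem_sdiff.1 hp).2) (by
      rw [disjoint_left]
      intro v hv hvB
      rcases mem_insert.1 hvB with rfl | h2
      · exact hy (mem_inter.1 hv).1
      · exact disjoint_left.1 (avoid_bd hX hpm hcl hun' hN') hv h2) hhit1
  refine ⟨?_, fun h2 => hx (h2.2 k.x_jm)⟩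
  rw [card_split (Z := P) (hX.sub.trans hF.fsub)]
  exact a2.1.add a1.1

/-- the star is cut, `e` is fresh-fresh, new star on the side `P` -/
theorem MCI.cr_star (h : G.MCI z t fr F jm sx ep 0) (k : G.Cr z t F jm P e x y)
    (f1 : G.pi e ∈ fr) (hb0 : ∀ X, G.Adm fr F X → X ⊆ P → Even X.card → {x, G.pi e} ⊆ X →
      2 ≤ ((G.res P).bd X).card) : False := by
  have hF := h.inst.fresh
  have hw := h.inst.wt
  have k' := k.symm h.inst.even hw hF
  obtain ⟨M2, half2, hpos2, hcr2, hhit2⟩ := h.in0 (jm' := {x, G.pi e}) (B := ∅)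
    k.hP k.he k.hv k.FP k.lt
    (by
      intro v hv
      rw [mem_insert, mem_singleton] at hv
      rcases hv with rfl | rfl
      · exact mem_inter.2 ⟨hF.jms k.x_jm, k.xP⟩
      · exact mem_inter.2 ⟨f1, k.eP⟩)
    (Or.inr (card_pair (k.xe hF)))
    (by
      intro d hd hp
      right
      rw [k.only hF hd hp]
      exact mem_insert_of_mem (mem_singleton_self _))
    (by
      intro v hv
      rw [mem_insert, mem_singleton] at hv
      rcases hv with rfl | rfl
      · exact Or.inl k.x_jm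
      · exact Or.inr ⟨e, k.e_bd, rfl⟩)
    (fun v hv h1 => Or.inl (by rw [k.jmP hv h1]; exact mem_insert_self _ _))
    (fun X hX hXP _ hev _ hjX => hb0 X hX hXP hev hjX)
  obtain ⟨M1, half1, hpos1, hcr1, hhit1⟩ := h.in0 (jm' := ∅)
    (B := {y, G.pi (G.al e)}) k'.hP k'.he k'.hv k'.FP k'.lt (empty_subset _)
    (Or.inl rfl)
    (by
      intro d hd hp
      left
      rw [k'.only hF hd hp]
      exact mem_insert_of_mem (mem_singleton_self _))
    (fun v hv => absurd hv (notMem_empty v))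
    (fun v hv h1 => Or.inr (by rw [k'.jmP hv h1]; exact mem_insert_self _ _))
    (fun X _ _ _ _ h1 => absurd h1 not_nonempty_empty)
  obtain ⟨hpm, hun⟩ := glue_un k.hP half1 half2 (fun d hd => (mem_sdiff.1 (hcr1 d hd)).2) hcr2
  have hun' := un_symm hpm hun
  refine h.finish hpm (fun d hd => (mem_union.1 hd).elim (hpos1 d) (hpos2 d)) ?_
  intro X hX hcl
  have ue := un_iff hpm hcl k.ed (hun e k.e_bd)
  have a2 := hit_use (M2 := M2) (B := ∅) (jm' := {x, G.pi e}) hX k.FP hcl
    (fun d hd hp => half_in half1 hd hp) (disjoint_empty_right _) hhit2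
  have hx : x ∉ X := by
    intro h2
    refine a2.2 ⟨⟨x, mem_insert_self _ _⟩, ?_⟩
    intro v hv
    rw [mem_insert, mem_singleton] at hv
    rcases hv with rfl | rfl
    · exact mem_inter.2 ⟨h2, k.xP⟩
    · exact mem_inter.2 ⟨(k.x_not hF hpm hX hcl hun).1 h2, k.eP⟩
  have h1 : G.pi e ∉ X := fun h2 => hx ((k.x_not hF hpm hX hcl hun).2 h2)
  have hy : y ∉ X := fun h2 => h1 (ue.2 ((k'.x_not hF hpm hX hcl hun').1 h2))
  have a1 := hit_use (M2 := M1) (B := {y, G.pi (G.al e)}) (jm' := ∅) hX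
    k'.FP hcl (fun d hd hp => half_out half2 hd (mem_sdiff.1 hp).2) (by
      rw [disjoint_left]
      intro v hv hvB
      rw [mem_insert, mem_singleton] at hvB
      rcases hvB with rfl | rfl
      · exact hy (mem_inter.1 hv).1
      · exact h1 (ue.2 (mem_inter.1 hv).1)) hhit1
  refine ⟨?_, fun h2 => hx (h2.2 k.x_jm)⟩
  rw [card_split (Z := P) (hX.sub.trans hF.fsub)]
  exact a2.1.add a1.1

theorem MCI.no_cr (h : G.MCI z t fr F jm sx ep 0) (k : G.Cr z t F jm P e x y) : False := by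
  have hF := h.inst.fresh
  have hw := h.inst.wt
  have k' := k.symm h.inst.even hw hF
  by_cases f1 : G.pi e ∈ fr
  swap
  · exact h.cr_plain k (Or.inl f1)
  by_cases f2 : G.pi (G.al e) ∈ fr
  swap
  · exact h.cr_plain k (Or.inr f2)
  by_cases b1 : ∀ X, G.Adm fr F X → X ⊆ P → Even X.card → {x, G.pi e} ⊆ X →
      2 ≤ ((G.res P).bd X).card
  · exact h.cr_star k f1 b1
  by_cases b2 : ∀ X, G.Adm fr F X → X ⊆ G.vs \ P → Even X.card → {y, G.pi (G.al e)} ⊆ X →
      2 ≤ ((G.res (G.vs \ P)).bd X).card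
  · exact h.cr_star k' f2 b2
  push Not at b1 b2
  obtain ⟨X1, hX1, h1P, h1e, h1j, h1l⟩ := b1
  obtain ⟨X2, hX2, h2P, h2e, h2j, h2l⟩ := b2
  have q1 := k.fail hF hX1 h1P h1e h1j (by omega)
  have q2 := k'.fail hF hX2 h2P h2e h2j (by omega)
  have hd : Disjoint X1 X2 := disjoint_left.2 fun v hv hv2 => (mem_sdiff.1 (h2P hv2)).2 (h1P hv)
  have hs := h.inst.sx_eq
  have hb := h.inst.b0 (X1 ∪ X2) ⟨union_subset hX1.sub hX2.sub, fun d hd hp => by
      rcases mem_union.1 hp with h1 | h1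
      · exact mem_union_left _ (hX1.clo d hd h1)
      · exact mem_union_right _ (hX2.clo d hd h1)⟩
    (by
      rw [card_union_of_disjoint hd]
      exact h1e.add h2e)
    (by
      rw [hs]
      exact ⟨x, k.x_jm⟩)
    (by
      rw [hs, k.hj]
      intro v hv
      rw [mem_insert, mem_singleton] at hv
      rcases hv with rfl | rfl
      · exact mem_union_left _ (h1j (mem_insert_self _ _))
      · exact mem_union_right _ (h2j (mem_insert_self _ _)))
  have hz : G.bd (X1 ∪ X2) = ∅ := by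
    rw [eq_empty_iff_forall_notMem]
    intro d hd
    obtain ⟨h1, h2, h3⟩ := mem_bd.1 hd
    rw [mem_union, not_or] at h3
    rcases mem_union.1 h2 with h4 | h4
    · have h5 := q1 d (mem_bd.2 ⟨h1, h4, h3.1⟩)
      exact h3.2 (h2j (by rw [h5]; exact mem_insert_of_mem (mem_singleton_self _)))
    · have h5 := q2 d (mem_bd.2 ⟨h1, h4, h3.2⟩)
      refine h3.1 (h1j ?_)
      rw [h5, G.al_al e k.ed]
      exact mem_insert_of_mem (mem_singleton_self _)
  rw [hz, card_empty] at hb
  omega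

/-- TWO-CUTS: a minimal counterexample has no even set of value 2 without F-edges in its boundary and
with a boundary edge of weight 1 -/
theorem MCI.no_c2 (h : G.MCI z t fr F jm sx ep 0) (c : G.C2 z t F Z e)
    (hsz : 4 ≤ Z.card ∨ (fr ∩ Z).Nonempty) (hsy : 4 ≤ (G.vs \ Z).card ∨ (fr \ Z).Nonempty) :
    False := by
  have hF := h.inst.fresh
  have hw := h.inst.wt
  by_cases hjZ : ∀ v ∈ Z, v ∉ jm
  · exact h.no_c2_B c hjZ hsz hsy
  push Not at hjZ
  obtain ⟨x, hxZ, hxj⟩ := hjZ
  have hj2 : jm.card = 2 := by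
    rcases h.inst.jm2 with h1 | h1
    · rw [h1] at hxj
      exact absurd hxj (notMem_empty x)
    · exact h1
  have h1 := c.sum_rest
  have htx := hF.t_jm hw hxj
  have h2 := add_sum_erase Z t hxZ
  rw [htx] at h2
  have h3 : 0 ≤ ∑ d ∈ (G.bd Z).erase e, z d :=
    sum_nonneg fun d hd => hw.z0 d (mem_bd.1 (mem_erase.1 hd).2).1
  have h4 : 0 ≤ ∑ v ∈ Z.erase x, t v := sum_nonneg fun v hv => hw.t0 v (c.hZ (mem_erase.1 hv).2)
  have h5 : ∑ d ∈ (G.bd Z).erase e, z d = 0 := by linarith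
  have h6 : ∑ v ∈ Z.erase x, t v = 0 := by linarith
  have h7 : ∑ v ∈ Z, t v = 1 := by linarith
  obtain ⟨y, hy⟩ : ∃ y, jm = {x, y} ∧ y ∉ Z := by
    have h8 : (jm.erase x).card = 1 := by
      rw [card_erase_of_mem hxj, hj2]
    obtain ⟨y, hy⟩ := card_eq_one.1 h8
    refine ⟨y, ?_, ?_⟩
    · rw [← insert_erase hxj, hy]
    · intro hyZ
      have h9 : y ∈ jm.erase x := by rw [hy]; exact mem_singleton_self y
      obtain ⟨h10, h11⟩ := mem_erase.1 h9
      have h12 := single_le_sum (f := t) (s := Z.erase x)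
        (fun v hv => hw.t0 v (c.hZ (mem_erase.1 hv).2)) (mem_erase.2 ⟨h10, hyZ⟩)
      rw [hF.t_jm hw h11, h6] at h12
      norm_num at h12
  obtain ⟨hjm, hyZ⟩ := hy
  have hyj : y ∈ jm := by rw [hjm]; exact mem_insert_of_mem (mem_singleton_self _)
  refine h.no_cr (P := Z) (e := e) (x := x) (y := y) ⟨c.hZ, c.he, by rw [c.hv]; norm_num, ?_,
    c.FZ, c.ed, c.eZ, c.eY, ?_, hxZ, mem_sdiff.2 ⟨hF.fsub (hF.jms hyj), hyZ⟩, hjm⟩
  · have h8 := hw.val_compl c.hZ
    have h9 := h.inst.tau
    rw [c.hv, h7] at h8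
    linarith
  · intro d hd hz
    by_contra hne
    have h8 := single_le_sum (f := z) (s := (G.bd Z).erase e)
      (fun d hd => hw.z0 d (mem_bd.1 (mem_erase.1 hd).2).1) (mem_erase.2 ⟨hne, hd⟩)
    linarith

end MG

end RH
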