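import Pool.Agent.Lib.RH.I4Conn
import Pool.Agent.Lib.RH.MFree

/-! Minimal counterexamples of the integral class: no step, free absorption, REST, at least 4
tokens (copies of SStep, SRest, MFree, MConn; helper78). -/

set_option autoImplicit false

namespace RH

open Finset Classical

namespace MG

variable {V D : Type*} {G : MG V D} {z z' : D → ℝ} {t t' : V → ℝ} {fr fr' : Finset V} {F : Finset D}
variable {jm sx : Finset V} {ep : V → ℕ} {m : ℕ} {M : Finset D}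

/-- there is no step with integral weights in a minimal counterexample -/
theorem MCI.no_step (h : G.MCI z t fr F jm sx ep m) (hs : IsStepS G z fr F jm sx z' t' fr')
    (hz : ∀ d ∈ G.ds, ∃ n : ℕ, z' d = n) : False := by
  have hlt : fr'.card < fr.card := Finset.card_lt_card (hs.sub.ssubset_of_ne hs.ne)
  obtain ⟨jm', sx', h1, h2⟩ := hs.inst h.inst
  obtain ⟨M, hM⟩ := h.ih G z' t' fr' (F.filter fun d => G.pi d ∈ fr') jm' sx' ep (Or.inl hlt)
    (Int4.of_inst h1 hz) h1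
  exact h.bad ⟨M, hs.toIsStepT.lift h.inst.fresh h2 hM⟩

/-- Free absorption of the class of `v` (no star): some matching `M` is good for the unions avoiding
`v`; it is bad only because of closed odd unions `X` containing `v`, and then, if `|fr|` is even, `M`
misses a port of `fr` outside `X`. -/
theorem MCI.free0 (h : G.MCI z t fr F ∅ ∅ ep m) {v : V}
    (hv : v ∈ fr) :
    ∃ M, G.IsPM M ∧ (∀ d ∈ M, 0 < z d) ∧
      (∀ X, G.Adm fr F X → Odd X.card → v ∉ X → ∃ d ∈ G.bd X, d ∉ M) ∧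
      (Even fr.card → ∀ X, G.Adm fr F X → Odd X.card → (∀ d ∈ G.bd X, d ∈ M) →
        v ∈ X ∧ ∃ d ∈ G.bd fr, G.pi d ∉ X ∧ d ∉ M) := by
  obtain ⟨fr1, hs, hcl, hd, hadm⟩ := exists_avoid G fr F {v}
  have hlt : fr1.card < fr.card := by
    refine card_lt_card (Finset.ssubset_iff_subset_ne.2 ⟨hs, fun he => ?_⟩)
    rw [he] at hd
    exact disjoint_left.1 hd hv (mem_singleton_self v)
  have hI := h.inst.absorb hs hcl (jm1 := ∅) (sx1 := ∅)
    (Or.inr ⟨disjoint_empty_left _, rfl, rfl⟩)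
  obtain ⟨M, hM⟩ := h.ih G z t fr1 _ ∅ ∅ ep (Or.inl hlt) h.i4 hI
  have key : ∀ X, G.Adm fr F X → Odd X.card → v ∉ X → ∃ d ∈ G.bd X, d ∉ M := by
    intro X hX ho hvX
    exact hM.hit X ((hadm X).2 ⟨hX, disjoint_singleton_right.2 hvX⟩) (Or.inl ho)
  refine ⟨M, hM.pm, hM.pos, key, fun he X hX ho hcX => ?_⟩
  have hvX : v ∈ X := by
    by_contra h1
    obtain ⟨d, h2, h3⟩ := key X hX ho h1
    exact h3 (hcX d h2)
  refine ⟨hvX, ?_⟩
  have hoc : Odd (fr \ X).card := by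
    have h1 : (fr \ X).card + X.card = fr.card := card_sdiff_add_card_eq_card hX.sub
    obtain ⟨a, ha⟩ := ho
    obtain ⟨b, hb⟩ := he
    rw [Nat.odd_iff]
    omega
  obtain ⟨d, h1, h2⟩ := key (fr \ X) (h.inst.fresh.adm_compl hX) hoc
    (fun h1 => (mem_sdiff.1 h1).2 hvX)
  exact ⟨d, bd_compl_fr hM.pm hcX h1 h2,
    (mem_sdiff.1 (mem_bd.1 h1).2.1).2, h2⟩

/-- REST (helper4): every perfect matching of the support contains all ports of `fr`, `|fr|` even -/
theorem MCI.rest0 (h : G.MCI z t fr F ∅ ∅ ep m)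
    (he : Even fr.card) (hne : fr.Nonempty)
    (hall : ∀ M, G.IsPM M → (∀ d ∈ M, 0 < z d) → ∀ d ∈ G.bd fr, d ∈ M) :
    ∃ M, G.GoodS z fr F ∅ M := by
  obtain ⟨v, hv⟩ := hne
  obtain ⟨M, hM, hpos, h1, h2⟩ := h.free0 hv
  refine ⟨M, hM, hpos, fun X hX hor => ?_⟩
  have ho : Odd X.card := by
    rcases hor with h3 | ⟨h3, -⟩
    · exact h3
    · exact absurd h3 not_nonempty_empty
  by_contra hcon
  push Not at hcon
  obtain ⟨-, d, h3, -, h4⟩ := h2 he X hX ho hcon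
  exact h4 (hall M hM hpos d h3)

/-- in a minimal counterexample without star and with `|fr|` even some port of `fr` is missed by
some perfect matching of the support -/
theorem MCI.rest (h : G.MCI z t fr F ∅ ∅ ep m) (he : Even fr.card) (hne : fr.Nonempty) :
    ∃ M, G.IsPM M ∧ (∀ d ∈ M, 0 < z d) ∧ ∃ d ∈ G.bd fr, d ∉ M := by
  by_contra hcon
  push Not at hcon
  exact h.bad (h.rest0 he hne hcon)

/-- in a minimal counterexample without star: for every fresh `v` there are a perfect matching `M` of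
the support and a closed odd union `X` containing `v`, no odd union avoiding `v` is closed, and if
`|fr|` is even then `M` misses a port of `fr` outside `X` -/
theorem MCI.free (h : G.MCI z t fr F ∅ ∅ ep m) {v : V} (hv : v ∈ fr) :
    ∃ M X, G.IsPM M ∧ (∀ d ∈ M, 0 < z d) ∧
      (∀ Y, G.Adm fr F Y → Odd Y.card → v ∉ Y → ∃ d ∈ G.bd Y, d ∉ M) ∧
      G.Adm fr F X ∧ Odd X.card ∧ v ∈ X ∧ (∀ d ∈ G.bd X, d ∈ M) ∧
      (Even fr.card → ∃ d ∈ G.bd fr, G.pi d ∉ X ∧ d ∉ M) := by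
  obtain ⟨M, hM, hpos, h1, h2⟩ := h.free0 hv
  have h3 : ∃ X, G.Adm fr F X ∧ Odd X.card ∧ ∀ d ∈ G.bd X, d ∈ M := by
    by_contra hcon
    push Not at hcon
    refine h.bad ⟨M, hM, hpos, fun X hX hor => ?_⟩
    rcases hor with h4 | ⟨h4, -⟩
    · exact hcon X hX h4
    · exact absurd h4 not_nonempty_empty
  obtain ⟨X, hX, ho, hcX⟩ := h3
  have hvX : v ∈ X := by
    by_contra h4
    obtain ⟨d, h5, h6⟩ := h1 X hX ho h4
    exact h6 (hcX d h5)
  exact ⟨M, X, hM, hpos, h1, hX, ho, hvX, hcX, fun he => (h2 he X hX ho hcX).2⟩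

/-- absorb the union `Y` (no kill, same weights): the good matching of the smaller instance is bad
only because of a closed union meeting `Y` -/
theorem MCI.absorb (h : G.MCI z t fr F jm sx ep m) {Y : Finset V} (hY : G.Adm fr F Y)
    (hne : Y.Nonempty) (hs : (Disjoint Y sx ∧ Disjoint Y jm) ∨ (sx ⊆ Y ∧ jm ⊆ Y)) :
    ∃ M, G.IsPM M ∧ (∀ d ∈ M, 0 < z d) ∧
      (∀ X, G.Adm fr F X → Disjoint X Y → (Odd X.card ∨ (sx.Nonempty ∧ sx ⊆ X)) →
        ∃ d ∈ G.bd X, d ∉ M) ∧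
      ∃ X, G.Adm fr F X ∧ (X ∩ Y).Nonempty ∧ (Odd X.card ∨ (sx.Nonempty ∧ sx ⊆ X)) ∧
        ∀ d ∈ G.bd X, d ∈ M := by
  have hlt : (fr \ Y).card < fr.card := card_lt_card (sdiff_ssubset hY.sub hne)
  have hcl : ∀ d ∈ F, G.pi d ∈ fr \ Y → G.pi (G.al d) ∈ fr \ Y :=
    (h.inst.fresh.adm_compl hY).clo
  have hdis : ∀ {A : Finset V}, A ⊆ fr → Disjoint Y A → A ⊆ fr \ Y := by
    intro A h1 h2 v hv
    exact mem_sdiff.2 ⟨h1 hv, fun h3 => disjoint_left.1 h2 h3 hv⟩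
  have key : ∃ M, G.IsPM M ∧ (∀ d ∈ M, 0 < z d) ∧
      (∀ X, G.Adm fr F X → Disjoint X Y → (Odd X.card ∨ (sx.Nonempty ∧ sx ⊆ X)) →
        ∃ d ∈ G.bd X, d ∉ M) := by
    rcases hs with ⟨h1, h2⟩ | ⟨h1, h2⟩
    · obtain ⟨M, hM⟩ := h.ih G z t (fr \ Y) (F.filter fun d => G.pi d ∈ fr \ Y) jm sx ep
        (Or.inl hlt) h.i4 (h.inst.absorb sdiff_subset hcl
          (Or.inl ⟨hdis h.inst.sxs h1, hdis h.inst.fresh.jms h2, rfl, rfl⟩))
      exact ⟨M, hM.pm, hM.pos, fun X hX hXY hO => hM.hit X (Adm.ab_iff.2 ⟨hX, hXY⟩) hO⟩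
    · obtain ⟨M, hM⟩ := h.ih G z t (fr \ Y) (F.filter fun d => G.pi d ∈ fr \ Y) ∅ ∅ ep
        (Or.inl hlt) h.i4 (h.inst.absorb sdiff_subset hcl
          (Or.inr ⟨disjoint_left.2 fun v hv hv' => (mem_sdiff.1 hv').2 (h2 hv), rfl, rfl⟩))
      refine ⟨M, hM.pm, hM.pos, fun X hX hXY hO => hM.hit X (Adm.ab_iff.2 ⟨hX, hXY⟩) ?_⟩
      rcases hO with hO | ⟨⟨v, hv⟩, hO⟩
      · exact Or.inl hO
      · exact absurd (h1 hv) (disjoint_left.1 hXY (hO hv))
  obtain ⟨M, h1, h2, h3⟩ := key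
  refine ⟨M, h1, h2, h3, ?_⟩
  by_contra hcon
  refine h.bad ⟨M, h1, h2, fun X hX hO => ?_⟩
  by_contra hh
  push Not at hh
  by_cases hXY : Disjoint X Y
  · obtain ⟨d, hd, hdM⟩ := h3 X hX hXY hO
    exact hdM (hh d hd)
  · rw [disjoint_iff_inter_eq_empty, ← not_nonempty_iff_eq_empty, not_not] at hXY
    exact hcon ⟨X, hX, hXY, hO, hh⟩

/-- FREE ABSORPTION, full form: the matching contains all edges between the class `C` and the
absorbed part, hits everything which is disjoint from `C` and closes a union around `C` -/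
theorem MCI.free_abs' (h : G.MCI z t fr F jm sx ep m) {C : Finset V} (hC : G.Adm fr F C)
    (hne : C.Nonempty) (hmin : ∀ X, G.Adm fr F X → (X ∩ C).Nonempty → C ⊆ X)
    (hs : (Disjoint C sx ∧ Disjoint C jm) ∨ (sx ⊆ C ∧ jm ⊆ C)) :
    ∃ M, G.IsPM M ∧ (∀ d ∈ M, 0 < z d) ∧ (∀ d ∈ G.ed C (G.vs \ fr), d ∈ M) ∧
      (∀ X, G.Adm fr F X → Disjoint X C → (Odd X.card ∨ (sx.Nonempty ∧ sx ⊆ X)) →
        ∃ d ∈ G.bd X, d ∉ M) ∧
      ∃ X, G.Adm fr F X ∧ C ⊆ X ∧ (Odd X.card ∨ (sx.Nonempty ∧ sx ⊆ X)) ∧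
        ∀ d ∈ G.bd X, d ∈ M := by
  obtain ⟨M, h1, h2, h3, X, hX, hXC, hO, hcl⟩ := h.absorb hC hne hs
  have hCX := hmin X hX hXC
  refine ⟨M, h1, h2, fun d hd => hcl d ?_, h3, X, hX, hCX, hO, hcl⟩
  obtain ⟨h4, h5, h6⟩ := mem_filter.1 hd
  exact mem_bd.2 ⟨h4, hCX h5, fun h7 => (mem_sdiff.1 h6).2 (hX.sub h7)⟩

/-- FREE ABSORPTION: some perfect matching of the support contains all edges between the class `C`
and the absorbed part -/
theorem MCI.free_abs (h : G.MCI z t fr F jm sx ep m) {C : Finset V} (hC : G.Adm fr F C)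
    (hne : C.Nonempty) (hmin : ∀ X, G.Adm fr F X → (X ∩ C).Nonempty → C ⊆ X)
    (hs : (Disjoint C sx ∧ Disjoint C jm) ∨ (sx ⊆ C ∧ jm ⊆ C)) :
    ∃ M, G.IsPM M ∧ (∀ d ∈ M, 0 < z d) ∧ ∀ d ∈ G.ed C (G.vs \ fr), d ∈ M := by
  obtain ⟨M, h1, h2, h3, -⟩ := h.free_abs' hC hne hmin hs
  exact ⟨M, h1, h2, h3⟩

/-- some vertex is absorbed -/
theorem MCI.ne_vs (h : G.MCI z t fr F ∅ ∅ ep m) (hne : fr.Nonempty) : fr ≠ G.vs := by
  intro he
  obtain ⟨M, -, -, d, hd, -⟩ := h.rest (by rw [he]; exact h.inst.even) hne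
  obtain ⟨h1, h2, h3⟩ := mem_bd.1 hd
  rw [he] at h3
  exact h3 (G.pi_mem _ (G.al_mem d h1))

/-- some vertex is not fresh -/
theorem MCI.fr_ne_vs (h : G.MCI z t fr F jm sx ep m) : fr ≠ G.vs := by
  intro he
  have hI := h.inst
  by_cases hj : jm = ∅
  · have h1 : sx = ∅ := hI.sx_eq.trans hj
    subst hj
    subst h1
    exact h.ne_vs h.fr_ne he
  · have hn : sx.Nonempty := by
      rw [hI.sx_eq]
      exact nonempty_iff_ne_empty.2 hj
    have hA : G.Adm fr F fr := ⟨Subset.refl _, fun d hd _ => hI.fresh.Ffr _ (hI.fresh.Fal d hd)⟩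
    have h2 := hI.b0 fr hA (by rw [he]; exact hI.even) hn hI.sxs
    have h3 : G.bd fr = ∅ := by
      rw [eq_empty_iff_forall_notMem]
      intro d hd
      obtain ⟨h4, h5, h6⟩ := mem_bd.1 hd
      rw [he] at h6
      exact h6 (G.pi_mem _ (G.al_mem d h4))
    rw [h3, card_empty] at h2
    omega

/-- some J-edge leaves the fresh vertices -/
theorem MCI.exists_leg (h : G.MCI z t fr F jm sx ep m) :
    ∃ j ∈ G.ds, G.pi j ∈ fr ∧ G.pi (G.al j) ∉ fr := by
  obtain ⟨j, hj, -⟩ := h.conn h.inst.fresh.fsub h.fr_ne h.fr_ne_vs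
  obtain ⟨h1, h2, h3⟩ := mem_bd.1 hj
  exact ⟨j, h1, h2, h3⟩

/-- at least 4 tokens: otherwise any edge leaving a circuit can be killed -/
theorem MCI.tau_ge (h : G.MCI z t fr F jm sx ep m) : 4 ≤ ∑ v ∈ G.vs, t v := by
  by_contra hlt
  rw [not_le] at hlt
  obtain ⟨j, hj, hx, hw⟩ := h.exists_leg
  have hI := h.inst
  have hF := hI.fresh
  obtain ⟨C, hxC, hC⟩ := hF.exists_circ hx
  obtain ⟨fr', f1, f2, f3, f4, f5, f6⟩ := hI.absorb_class hC hj hxC hw
  have hzj : z j = 1 := hF.unit j hj hx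
  have haj := G.al_mem j hj
  have haa := G.al_al j hj
  have hS : ({j, G.al j} : Finset D) ⊆ G.ds := by
    intro d hd
    rw [mem_insert, mem_singleton] at hd
    rcases hd with rfl | rfl
    · exact hj
    · exact haj
  have hal : ∀ d ∈ ({j, G.al j} : Finset D), G.al d ∈ ({j, G.al j} : Finset D) := by
    intro d hd
    rw [mem_insert, mem_singleton] at hd ⊢
    rcases hd with rfl | rfl
    · exact Or.inr rfl
    · exact Or.inl haa
  have hzS : ∑ d ∈ ({j, G.al j} : Finset D), z d ≤ 2 := by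
    have h1 : ∀ d ∈ ({j, G.al j} : Finset D), z d ≤ 1 := by
      intro d hd
      rw [mem_insert, mem_singleton] at hd
      rcases hd with rfl | rfl
      · exact hzj.le
      · rw [hI.wt.sym j hj, hzj]
    have h2 := sum_le_card_nsmul _ _ _ h1
    have h3 : ((({j, G.al j} : Finset D).card : ℕ) : ℝ) ≤ 2 := by exact_mod_cast card_le_two
    rw [nsmul_eq_mul, mul_one] at h2
    linarith
  refine h.no_step (z' := kz z {j, G.al j}) (t' := kt G z t {j, G.al j}) (fr' := fr')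
    { wt := hI.wt.kill hS hal
      tau := ?_
      supp := ?_
      sub := f1
      ne := f2
      clo := f3
      unit := ?_
      kill := ?_
      star := f6 } ?_
  · intro d hd hp
    by_contra hn
    have hz : z d = 0 := le_antisymm (not_lt.1 hn) (hI.wt.z0 d hd)
    unfold kz at hp
    rw [hz] at hp
    simp at hp
  · intro d hd hp
    have h1 : d ∉ ({j, G.al j} : Finset D) := by
      intro h2
      rw [mem_insert, mem_singleton] at h2
      rcases h2 with rfl | rfl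
      · exact disjoint_left.1 f4 hp hxC
      · exact hw (f1 hp)
    unfold kz
    rw [if_neg h1]
    exact hF.unit d hd (f1 hp)
  · intro X hX hev hn
    refine ⟨j, f5 X hX hev hn, ?_⟩
    unfold kz
    rw [if_pos (mem_insert_self _ _)]
  · rw [kill_tau hI.wt hS hal]
    linarith
  · intro d hd
    unfold kz
    split_ifs
    · exact ⟨0, Nat.cast_zero.symm⟩
    · exact h.i4.zi d hd

end MG

end RH
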