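import Pool.Agent.Lib.RH.I4T1

/-! F-cut gluing for the class `Int4` (helper94; copy of helper42's files): inner matchings of a
(t1) set for a used F-edge. -/

set_option autoImplicit false

namespace RH

open Finset Classical

namespace MG

variable {V D : Type*}

variable {G : MG V D} {z : D → ℝ} {t : V → ℝ} {fr : Finset V} {F : Finset D} {jm sx : Finset V}
variable {G3 : MG V D} {ep : V → ℕ} {m : ℕ} {W Y Z A X B : Finset V} {f g j : D}
variable {g1 g2 : D} {M M1 M2 : Finset D} {ω s q : V} {e e' h h' : D}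

theorem MCI.inT1_S (hh : G.MCI z t fr F jm sx ep 0)
    (hc : G.FC F W g1 g2) (hWo : Odd W.card) (h3 : G.val z t W = 3)
    (hj : Disjoint jm W) (hrd : rd G F W = {j}) (hj1 : G.pi j ∈ fr)
    (hfb : f ∈ G.bd W) (hfF : f ∈ F) (hzf : 0 < z f)
    (hd : G.pi g1 = G.pi g2) (hne : G.pi j ≠ G.pi g1)
    (hB2 : ∀ X, G.Adm fr F X → X ⊆ W → Even X.card → G.pi j ∈ X → (G.bd X).card ≠ 2) :
    InT1 G z fr F W g1 j f := by
  have hF := hh.inst.fresh
  have hw := hh.inst.wt
  have hW := hc.hW
  obtain ⟨hfd, hfW, hfU⟩ := mem_bd.1 hfb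
  have hjrd : j ∈ rd G F W := by rw [hrd]; exact mem_singleton_self j
  obtain ⟨hjb, hjF⟩ := mem_filter.1 hjrd
  obtain ⟨hjd, hjW, hjU⟩ := mem_bd.1 hjb
  obtain ⟨c, hcdef⟩ : ∃ c, c = G.pi g1 := ⟨_, rfl⟩
  have hc1 : G.pi g1 = c := hcdef.symm
  have hc2 : G.pi g2 = c := by rw [← hd, hc1]
  have hcW : c ∈ W := hc1 ▸ hc.w1
  have hcfr : c ∈ fr := hc1 ▸ hF.Ffr g1 hc.f1
  have hcj : c ∉ jm := fun h1 => disjoint_left.1 hj h1 hcW
  have hg1d := hF.Fsub hc.f1
  have hg2d := hF.Fsub hc.f2
  rw [hc1] at hne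
  have hfc : G.pi f = c := by
    rcases hc.only f hfF hfW hfU with h1 | h1
    · rw [h1, hc1]
    · rw [h1, hc2]
  obtain ⟨i, hid, hic, hiF, hiu⟩ := hF.exists_jd hcfr hcj
  have haid := G.al_mem i hid
  have hai := G.al_al i hid
  have hyW : G.pi (G.al i) ∈ W := by
    by_contra h1
    have h2 : i ∈ rd G F W := mem_filter.2 ⟨mem_bd.2 ⟨hid, by rw [hic]; exact hcW, h1⟩, hiF⟩
    rw [hrd, mem_singleton] at h2
    exact hne (by rw [← h2]; exact hic)
  obtain ⟨y, hy⟩ : ∃ y, y = G.pi (G.al i) := ⟨_, rfl⟩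
  rw [← hy] at hyW
  have hyc : y ≠ c := by
    rw [hy, ← hic]
    exact G.noloop i hid
  -- darts at `c`
  have hFc : ∀ d ∈ F, G.pi d = c → d = g1 ∨ d = g2 := by
    intro d h1 h2
    have h4 := hF.two c hcfr
    have h5 : {g1, g2} ⊆ F.filter fun d => G.pi d = c := by
      intro e he
      rw [mem_insert, mem_singleton] at he
      rcases he with rfl | rfl
      · exact mem_filter.2 ⟨hc.f1, hc1⟩
      · exact mem_filter.2 ⟨hc.f2, hc2⟩
    have h6 : {g1, g2} = F.filter fun d => G.pi d = c := by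
      refine eq_of_subset_of_card_le h5 ?_
      rw [h4, card_pair hc.ne]
    have h7 : d ∈ F.filter fun d => G.pi d = c := mem_filter.2 ⟨h1, h2⟩
    rw [← h6, mem_insert, mem_singleton] at h7
    exact h7
  set W' := W.erase c with hW'
  have hW's : W' ⊆ G.vs := (erase_subset _ _).trans hW
  have hW'W : W' ⊆ W := erase_subset _ _
  have hyW' : y ∈ W' := mem_erase.2 ⟨hyc, hyW⟩
  have hxW' : G.pi j ∈ W' := mem_erase.2 ⟨hne, hjW⟩
  have hcW' : c ∉ W' := notMem_erase c W
  have hbdW' : ∀ d, d ∈ G.bd W' ↔ d = G.al i ∨ d = j := by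
    intro d
    rw [mem_bd]
    constructor
    · rintro ⟨h1, h2, h4⟩
      have h5 := G.al_al d h1
      by_cases h6 : G.pi (G.al d) ∈ W
      · have h7 : G.pi (G.al d) = c := by
          by_contra h8
          exact h4 (mem_erase.2 ⟨h8, h6⟩)
        left
        by_cases h8 : G.al d ∈ F
        · exfalso
          rcases hFc _ h8 h7 with h9 | h9
          · apply hc.u1
            rw [← h9, h5]
            exact hW'W h2
          · apply hc.u2
            rw [← h9, h5]
            exact hW'W h2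
        · rw [← h5, hiu _ (G.al_mem d h1) h7 h8]
      · right
        have h7 : d ∈ G.bd W := mem_bd.2 ⟨h1, hW'W h2, h6⟩
        by_cases h8 : d ∈ F
        · exfalso
          rcases hc.only d h8 (hW'W h2) h6 with h9 | h9
          · exact hcW' (by rw [← hc1, ← h9]; exact h2)
          · exact hcW' (by rw [← hc2, ← h9]; exact h2)
        · have h9 : d ∈ rd G F W := mem_filter.2 ⟨h7, h8⟩
          rw [hrd] at h9
          exact mem_singleton.1 h9
    · rintro (h1 | h1)
      · rw [h1, hai, ← hy, hic]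
        exact ⟨haid, hyW', hcW'⟩
      · rw [h1]
        exact ⟨hjd, hxW', fun h2 => hjU (hW'W h2)⟩
  have haiF : G.al i ∉ F := fun h1 => hiF (by rw [← hai]; exact hF.Fal _ h1)
  have hyx : y ∈ fr → y ≠ G.pi j := by
    intro h1 h2
    have h4 : y ∉ jm := fun h5 => disjoint_left.1 hj h5 hyW
    obtain ⟨k, -, -, -, k4⟩ := hF.exists_jd h1 h4
    have h5 := k4 _ haid hy.symm haiF
    have h6 := k4 j hjd h2.symm hjF
    have h7 : G.al i = j := h5.trans h6.symm
    apply hjU
    rw [← h7, hai, hic]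
    exact hcW
  obtain ⟨jm', B', hcase⟩ : ∃ jm' B' : Finset V, (y ∈ fr ∧ jm' = {y, G.pi j} ∧ B' = ∅) ∨
      (y ∉ fr ∧ jm' = ∅ ∧ B' = {G.pi j}) := by
    by_cases h1 : y ∈ fr
    · exact ⟨_, _, Or.inl ⟨h1, rfl, rfl⟩⟩
    · exact ⟨_, _, Or.inr ⟨h1, rfl, rfl⟩⟩
  have s := side_res hW's
  set F' := F.filter fun d => G.pi d ∈ W' ∧ G.pi (G.al d) ∈ W' with hF'
  have hstay : ∀ d ∈ F, G.pi d ∈ W' → G.pi (G.al d) ∈ W' := by
    intro d h1 h2
    by_contra h4
    rcases (hbdW' d).1 (mem_bd.2 ⟨hF.Fsub h1, h2, h4⟩) with h5 | h5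
    · exact haiF (h5 ▸ h1)
    · exact hjF (h5 ▸ h1)
  have hfrB : (G.res W').FrB z (fr ∩ W') F' jm' B' := by
    refine s.frB hF ?_ ?_ ?_ ?_ (fun v hv _ => (mem_inter.1 hv).1) ?_ (fun _ _ _ _ => rfl)
      ?_ ?_ ?_ ?_ ?_ ?_ ?_
    · intro v hv
      exact mem_inter.2 ⟨hF.fsub (mem_inter.1 hv).1, (mem_inter.1 hv).2⟩
    · intro d hd
      obtain ⟨h1, h2⟩ := mem_filter.1 hd
      exact mem_filter.2 ⟨hF.Fsub h1, h2⟩
    · intro d hd
      obtain ⟨h1, h2, h4⟩ := mem_filter.1 hd
      change G.al d ∈ _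
      exact mem_filter.2 ⟨hF.Fal d h1, h4, by rw [G.al_al d (hF.Fsub h1)]; exact h2⟩
    · intro v hv
      rcases hcase with ⟨h1, h2, -⟩ | ⟨-, h2, -⟩
      · rw [h2, mem_insert, mem_singleton] at hv
        rcases hv with rfl | rfl
        · exact mem_inter.2 ⟨h1, hyW'⟩
        · exact mem_inter.2 ⟨hj1, hxW'⟩
      · rw [h2] at hv
        exact absurd hv (notMem_empty v)
    · intro d _ hp _ _
      rw [hF', mem_filter]
      exact ⟨fun h1 => h1.1, fun h1 => ⟨h1, hp, hstay d h1 hp⟩⟩
    · intro d hd' hp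
      rcases (hbdW' d).1 hd' with h1 | h1
      · have h4 : G.pi d = y := by rw [h1, hy]
        rcases hcase with ⟨-, h2, -⟩ | ⟨h5, -, -⟩
        · refine Or.inr ⟨?_, by rw [h1]; exact haiF⟩
          rw [h4, h2]
          exact mem_insert_self _ _
        · rw [h4] at hp
          exact absurd (mem_inter.1 hp).1 h5
      · rcases hcase with ⟨-, h2, -⟩ | ⟨-, -, h2⟩
        · refine Or.inr ⟨?_, by rw [h1]; exact hjF⟩
          rw [h1, h2]
          exact mem_insert_of_mem (mem_singleton_self _)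
        · left
          rw [h1, h2]
          exact mem_singleton_self _
    · intro v _ hv
      right
      rcases hcase with ⟨-, h2, -⟩ | ⟨-, h2, -⟩
      · rw [h2, mem_insert, mem_singleton] at hv
        rcases hv with h4 | h4
        · exact ⟨G.al i, (hbdW' _).2 (Or.inl rfl), by rw [h4, hy], haiF⟩
        · exact ⟨j, (hbdW' _).2 (Or.inr rfl), h4.symm, hjF⟩
      · rw [h2] at hv
        exact absurd hv (notMem_empty v)
    · intro v hv _ hvj
      exact absurd (hW'W hv) (disjoint_left.1 hj hvj)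
    · intro v hv hn
      exact absurd (mem_inter.1 hv).2 hn
    · intro v hv hn
      exact absurd (mem_inter.1 hv).2 hn
    · intro v hv hn
      rcases hcase with ⟨-, h2, -⟩ | ⟨-, h2, -⟩
      · rw [h2, mem_insert, mem_singleton] at hv
        rcases hv with rfl | rfl
        · exact absurd hyW' hn
        · exact absurd hxW' hn
      · rw [h2] at hv
        exact absurd hv (notMem_empty v)
    · intro d _ hp hn
      exact absurd (mem_inter.1 hp).2 hn
  have hAd : ∀ X, (G.res W').Adm (fr ∩ W') F' X → G.Adm fr F X ∧ X ⊆ W' := by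
    intro X hX
    have hXW : X ⊆ W' := fun v hv => (mem_inter.1 (hX.sub hv)).2
    exact ⟨⟨fun v hv => (mem_inter.1 (hX.sub hv)).1, fun d h1 h2 =>
      hX.clo d (mem_filter.2 ⟨h1, hXW h2, hstay d h1 (hXW h2)⟩) h2⟩, hXW⟩
  have hX0 : ∀ X, X ⊆ W → (X ∩ jm).card = 0 := by
    intro X hX
    rw [card_eq_zero, ← disjoint_iff_inter_eq_empty]
    exact disjoint_of_subset_left hX hj.symm
  have hbd' : ∀ X, X ⊆ W' → (G.bd X).card ≤ ((G.res W').bd X).card +
      ((if y ∈ X then 1 else 0) + (if G.pi j ∈ X then 1 else 0)) := by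
    intro X hX
    have h1 := s.bd hX
    have h2 : G.bd X ⊆ (G.res W').bd X ∪ ((if y ∈ X then {G.al i} else ∅) ∪
        (if G.pi j ∈ X then {j} else ∅)) := by
      intro d h4
      by_cases h5 : d ∈ G.bd W'
      · refine mem_union_right _ ?_
        have h6 := (mem_bd.1 h4).2.1
        rcases (hbdW' d).1 h5 with h7 | h7
        · refine mem_union_left _ ?_
          rw [h7, ← hy] at h6
          rw [if_pos h6, h7]
          exact mem_singleton_self _
        · refine mem_union_right _ ?_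
          rw [h7] at h6
          rw [if_pos h6, h7]
          exact mem_singleton_self _
      · refine mem_union_left _ ?_
        rw [h1]
        exact mem_sdiff.2 ⟨h4, h5⟩
    refine (card_le_card h2).trans ((card_union_le _ _).trans ?_)
    refine Nat.add_le_add_left ((card_union_le _ _).trans ?_) _
    refine Nat.add_le_add ?_ ?_
    · split_ifs
      · exact le_of_eq (card_singleton _)
      · exact le_of_eq card_empty
    · split_ifs
      · exact le_of_eq (card_singleton _)
      · exact le_of_eq card_empty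
  have hcnt : ∀ X, X ⊆ fr → X ⊆ W' → Disjoint X B' → (G.bd X).card ≤ ((G.res W').bd X).card +
      (X ∩ jm').card := by
    intro X hXf hX hXB
    refine (hbd' X hX).trans (Nat.add_le_add_left ?_ _)
    rcases hcase with ⟨h1, h2, -⟩ | ⟨h1, h2, h4⟩
    · have h5 : X ∩ jm' = (if y ∈ X then {y} else ∅) ∪ (if G.pi j ∈ X then {G.pi j} else ∅) := by
        ext v
        rw [h2, mem_inter, mem_insert, mem_singleton, mem_union]
        constructor
        · rintro ⟨k1, rfl | rfl⟩
          · exact Or.inl (by rw [if_pos k1]; exact mem_singleton_self _)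
          · exact Or.inr (by rw [if_pos k1]; exact mem_singleton_self _)
        · rintro (k1 | k1)
          · split_ifs at k1 with k2
            · rw [mem_singleton] at k1
              exact ⟨k1 ▸ k2, Or.inl k1⟩
            · exact absurd k1 (notMem_empty _)
          · split_ifs at k1 with k2
            · rw [mem_singleton] at k1
              exact ⟨k1 ▸ k2, Or.inr k1⟩
            · exact absurd k1 (notMem_empty _)
      rw [h5, card_union_of_disjoint]
      · refine Nat.add_le_add ?_ ?_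
        · split_ifs
          · exact le_of_eq (card_singleton _).symm
          · exact Nat.zero_le _
        · split_ifs
          · exact le_of_eq (card_singleton _).symm
          · exact Nat.zero_le _
      · split_ifs
        · exact disjoint_singleton.2 (hyx h1)
        · exact disjoint_empty_right _
        · exact disjoint_empty_left _
        · exact disjoint_empty_left _
    · have h5 : y ∉ X := fun k => h1 (hXf k)
      have h6 : G.pi j ∉ X := fun k => disjoint_left.1 hXB k (by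
        rw [h4]
        exact mem_singleton_self _)
      rw [if_neg h5, if_neg h6]
      exact Nat.zero_le _
  have hval' : G.val z t W' ≤ 2 := by
    have h1 := hw.submod (X := W') (Y := {c}) hW's (singleton_subset_iff.2 (hW hcW))
    have h2 : W' ∩ {c} = ∅ := by
      rw [← disjoint_iff_inter_eq_empty, disjoint_singleton_right]
      exact hcW'
    have h4 : W' ∪ {c} = W := by
      rw [union_comm, ← insert_eq, hW']
      exact insert_erase hcW
    have h5 : G.val z t ∅ = 0 := by
      unfold val bd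
      simp
    have h6 : W' \ {c} = W' := by
      rw [sdiff_singleton_eq_erase, erase_eq_of_notMem hcW']
    have h7 : ({c} : Finset V) \ W' = {c} := by
      ext v
      rw [mem_sdiff, mem_singleton]
      exact ⟨fun k => k.1, fun k => ⟨k, k ▸ hcW'⟩⟩
    rw [h2, h4, h5, h6, h7, h3, hw.val_single (hW hcW), hw.ed_symm] at h1
    have h8 : ∑ d ∈ G.ed {c} W', z d + ∑ d ∈ {g1, g2}, z d ≤ ∑ d ∈ G.st c, z d := by
      rw [← sum_union]
      · refine sum_le_sum_of_subset_of_nonneg ?_ fun d k1 _ => hw.z0 d (mem_st.1 k1).1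
        intro d k1
        rcases mem_union.1 k1 with k2 | k2
        · obtain ⟨k4, k5, -⟩ := mem_ed.1 k2
          exact mem_st.2 ⟨k4, mem_singleton.1 k5⟩
        · rw [mem_insert, mem_singleton] at k2
          rcases k2 with rfl | rfl
          · exact mem_st.2 ⟨hg1d, hc1⟩
          · exact mem_st.2 ⟨hg2d, hc2⟩
      · rw [disjoint_left]
        intro d k1 k2
        have k4 := hW'W (mem_ed.1 k1).2.2
        rw [mem_insert, mem_singleton] at k2
        rcases k2 with rfl | rfl
        · exact hc.u1 k4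
        · exact hc.u2 k4
    rw [sum_pair hc.ne, hF.unit g1 hg1d (hF.Ffr g1 hc.f1),
      hF.unit g2 hg2d (hF.Ffr g2 hc.f2)] at h8
    have h9 := hw.deg c (hW hcW)
    have h10 := hw.t0 c (hW hcW)
    linarith
  have hcard : W'.card + 1 = W.card := card_erase_add_one hcW
  have hraw : (G.res W').RawI z (G.tres z t W') (fr ∩ W') F' jm' B' 0 := by
    refine ⟨?_, hw.res hW's, ?_, hfrB, ?_, ?_, fun _ _ _ _ _ => Nat.zero_le _, ?_⟩
    · have h1 : (G.res W').vs = W' := inter_eq_right.2 hW's
      rw [h1]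
      rw [Nat.odd_iff] at hWo
      rw [Nat.even_iff]
      omega
    · rw [res_tau hw hW's]
      linarith
    · rcases hcase with ⟨h1, h2, -⟩ | ⟨-, h2, -⟩
      · right
        rw [h2, card_pair (hyx h1)]
      · exact Or.inl h2
    · intro X hX hXB ho
      obtain ⟨h1, h2⟩ := hAd X hX
      have h4 := hh.inst.cc0 h1 ho
      rw [hX0 X (h2.trans hW'W), add_zero] at h4
      exact h4.trans (hcnt X h1.sub h2 hXB)
    · intro X hX hXB he hn hjX
      obtain ⟨h1, h2⟩ := hAd X hX
      rcases hcase with ⟨h4, h5, -⟩ | ⟨-, h5, -⟩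
      · have h6 : y ∈ X := hjX (by rw [h5]; exact mem_insert_self _ _)
        have h7 : G.pi j ∈ X := hjX (by rw [h5]; exact mem_insert_of_mem (mem_singleton_self _))
        have h8 := hF.bd_par h1
        rw [hX0 X (h2.trans hW'W), add_zero] at h8
        have h9 := hB2 X h1 (h2.trans hW'W) he h7
        have h10 := hbd' X h2
        rw [if_pos h6, if_pos h7] at h10
        have h11 : 2 ≤ (G.bd X).card := by
          have k1 : {G.al i, j} ⊆ G.bd X := by
            intro d k2
            rw [mem_insert, mem_singleton] at k2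
            rcases k2 with rfl | rfl
            · refine mem_bd.2 ⟨haid, by rw [← hy]; exact h6, ?_⟩
              rw [hai, hic]
              exact fun k => hcW' (h2 k)
            · exact mem_bd.2 ⟨hjd, h7, fun k => hjU (hW'W (h2 k))⟩
          have k2 := card_le_card k1
          have k4 : G.al i ≠ j := by
            intro k5
            apply hjU
            rw [← k5, hai, hic]
            exact hcW
          rwa [card_pair k4] at k2
        rw [Nat.even_iff] at he
        omega
      · rw [h5] at hn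
        exact absurd hn not_nonempty_empty
  obtain ⟨M', hM', hpos, hhit⟩ := hh.solve hraw
    (Int4.of_raw hraw fun d hd => hh.i4.zi d (mem_filter.1 hd).1) (by
    have h1 : (fr ∩ W').card < fr.card := by
      refine card_lt_card ⟨inter_subset_left, fun h2 => ?_⟩
      exact hcW' (mem_inter.1 (h2 hcfr)).2
    exact Or.inl h1)
  have hM'W : ∀ d ∈ M', d ∈ G.ds ∧ G.pi d ∈ W' ∧ G.pi (G.al d) ∈ W' := fun d h1 =>
    mem_filter.1 (hM'.sub h1)
  refine ⟨insert f M', ⟨?_, ?_, ?_⟩, ?_, ?_, ?_, ?_⟩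
  · intro d h1
    rcases mem_insert.1 h1 with rfl | h1
    · exact ⟨hfd, hfW⟩
    · exact ⟨(hM'W d h1).1, hW'W (hM'W d h1).2.1⟩
  · intro d h1 h2
    rcases mem_insert.1 h1 with rfl | h1
    · exact absurd h2 hfU
    · exact mem_insert_of_mem (hM'.closed d h1)
  · intro v hv
    by_cases h1 : v = c
    · rw [card_eq_one]
      refine ⟨f, ?_⟩
      ext d
      rw [mem_filter, mem_singleton, mem_insert]
      constructor
      · rintro ⟨rfl | h2, h4⟩
        · rfl
        · exact absurd (by rw [← h1, ← h4]; exact (hM'W d h2).2.1) hcW'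
      · rintro rfl
        exact ⟨Or.inl rfl, hfc.trans h1.symm⟩
    · have h2 : v ∈ (G.res W').vs := mem_inter.2 ⟨hW hv, mem_erase.2 ⟨h1, hv⟩⟩
      rw [← hM'.one v h2]
      congr 1
      ext d
      rw [mem_filter, mem_filter, mem_insert]
      constructor
      · rintro ⟨rfl | h4, h5⟩
        · exact absurd (h5.symm.trans hfc) h1
        · exact ⟨h4, h5⟩
      · rintro ⟨h4, h5⟩
        exact ⟨Or.inr h4, h5⟩
  · intro d h1
    rcases mem_insert.1 h1 with rfl | h1
    · exact hzf
    · exact hpos d h1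
  · intro d h1
    rw [mem_insert]
    constructor
    · rintro (h2 | h2)
      · exact h2
      · exact absurd (hW'W (hM'W d h2).2.2) (mem_bd.1 h1).2.2
    · exact fun h2 => Or.inl h2
  · intro X hX hXW hg hx ho
    rw [hc1] at hg
    have hXW' : X ⊆ W' := fun v hv => mem_erase.2 ⟨fun h1 => hg (h1 ▸ hv), hXW hv⟩
    by_cases hyX : y ∈ X
    · refine ⟨G.al i, mem_bd.2 ⟨haid, by rw [← hy]; exact hyX, by rw [hai, hic]; exact hg⟩, ?_⟩
      intro h1
      rcases mem_insert.1 h1 with h2 | h2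
      · apply hyc
        rw [← hfc, ← h2]
        exact hy
      · have h4 := (hM'W _ h2).2.2
        rw [hai, hic] at h4
        exact hcW' h4
    · have h1 : (G.res W').Adm (fr ∩ W') F' X := by
        refine ⟨fun v hv => mem_inter.2 ⟨hX.sub hv, hXW' hv⟩, fun d hd' hp => ?_⟩
        exact hX.clo d (mem_filter.1 hd').1 hp
      have h2 : Disjoint X B' := by
        rcases hcase with ⟨-, -, h4⟩ | ⟨-, -, h4⟩
        · rw [h4]
          exact disjoint_empty_right _
        · rw [h4, disjoint_singleton_right]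
          exact hx
      obtain ⟨d, h4, h5⟩ := hhit X h1 h2 (Or.inl ho)
      rw [s.bd hXW'] at h4
      obtain ⟨h6, h7⟩ := mem_sdiff.1 h4
      refine ⟨d, h6, fun h8 => ?_⟩
      rcases mem_insert.1 h8 with h9 | h9
      · have h10 := (mem_bd.1 h6).2.1
        rw [h9, hfc] at h10
        exact hg h10
      · exact h5 h9
  · intro A hA hg hx _
    rw [hc1] at hg
    by_cases hyA : y ∈ A
    · have hyf := hA.sub hyA
      rcases hcase with ⟨-, h2, h4⟩ | ⟨h1, -, -⟩
      · set A0 := A.erase c with hA0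
        have hA0W : A0 ⊆ W' := fun v hv => mem_erase.2 ⟨(mem_erase.1 hv).1,
          hA.subZ (mem_erase.1 hv).2⟩
        have h1 : (G.res W').Adm (fr ∩ W') F' A0 := by
          refine ⟨fun v hv => mem_inter.2 ⟨hA.sub (mem_erase.1 hv).2, hA0W hv⟩,
            fun d hd' hp => ?_⟩
          obtain ⟨k1, k2, k3⟩ := mem_filter.1 hd'
          refine mem_erase.2 ⟨fun k4 => hcW' (k4 ▸ k3), ?_⟩
          exact hA.clo d k1 (mem_erase.1 hp).2 (hW'W k3)
        obtain ⟨d, h5, h6⟩ := hhit A0 h1 (by rw [h4]; exact disjoint_empty_right _) (Or.inr ⟨by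
          rw [h2]; exact ⟨y, mem_insert_self _ _⟩, by
          intro v hv
          rw [h2, mem_insert, mem_singleton] at hv
          rcases hv with rfl | rfl
          · exact mem_erase.2 ⟨hyc, hyA⟩
          · exact mem_erase.2 ⟨hne, hx⟩⟩)
        rw [s.bd hA0W] at h5
        obtain ⟨h7, h8⟩ := mem_sdiff.1 h5
        obtain ⟨k1, k2, k3⟩ := mem_bd.1 h7
        have k4 : d ≠ j := fun k => h8 ((hbdW' d).2 (Or.inr k))
        have k5 : d ≠ G.al i := fun k => h8 ((hbdW' d).2 (Or.inl k))
        have k6 : G.pi (G.al d) ∈ W' := by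
          by_contra k7
          exact h8 (mem_bd.2 ⟨k1, hA0W k2, k7⟩)
        refine ⟨d, mem_bd.2 ⟨k1, (mem_erase.1 k2).2, fun k7 => k3 (mem_erase.2 ⟨fun k8 =>
          hcW' (k8 ▸ k6), k7⟩)⟩, fun k7 => k3 ?_, k4, fun k7 => ?_⟩
        · exact h1.clo d (mem_filter.2 ⟨k7, hA0W k2, k6⟩) k2
        · rcases mem_insert.1 k7 with k8 | k8
          · rw [k8, hfc] at k2
            exact hcW' (hA0W k2)
          · exact h6 k8
      · exact absurd hyf h1
    · refine ⟨i, mem_bd.2 ⟨hid, by rw [hic]; exact hg, by rw [← hy]; exact hyA⟩, hiF,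
        fun h1 => hne (by rw [← h1]; exact hic), fun h1 => ?_⟩
      rcases mem_insert.1 h1 with h2 | h2
      · exact hiF (h2 ▸ hfF)
      · have h4 := (hM'W _ h2).2.1
        rw [hic] at h4
        exact hcW' h4

/-- the inner matching of a (t1) set for the F-edge `f` -/
theorem MCI.inT1_F' [Infinite V] [Infinite D] (hh : G.MCI z t fr F jm sx ep 0)
    (hc : G.FC F W f g) (hWo : Odd W.card) (h3 : G.val z t W = 3)
    (hj : Disjoint jm W) (hrd : rd G F W = {j}) (hj1 : G.pi j ∈ fr)
    (hs : 3 ≤ (fr \ W).card ∨ (2 ≤ (fr \ W).card ∧ 4 ≤ (G.vs \ W).card))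
    (hK : ∀ A, G.AdmZ fr F W A → G.pi f ∈ A → Odd A.card → G.nj F A ≠ 1) :
    InT1 G z fr F W f j f := by
  have hF := hh.inst.fresh
  have hw := hh.inst.wt
  have hW := hc.hW
  have hjrd : j ∈ rd G F W := by rw [hrd]; exact mem_singleton_self j
  obtain ⟨hjb, hjF⟩ := mem_filter.1 hjrd
  obtain ⟨hjd, hjW, hjU⟩ := mem_bd.1 hjb
  obtain ⟨G3, e, e', h, h', ω, s, q, t3, y, hw3, htau⟩ := exists_XF hw hF hc hWo h3 hrd hj1
  have hfrB := y.frB hF hc hrd hj hj1
  obtain ⟨nG1, nG2, nG3, nG4⟩ := y.nG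
  have hωj : ω ≠ G.pi j := fun h1 => y.ωW (h1 ▸ hjW)
  have hsj : s ≠ G.pi j := fun h1 => y.sW (h1 ▸ hjW)
  have hjA : ∀ A, A ⊆ W → A ∩ jm = ∅ := fun A hA => by
    rw [← disjoint_iff_inter_eq_empty]
    exact (disjoint_of_subset_right hA hj).symm
  have hcardA : ∀ A, A ⊆ W → (insert ω (insert s A)).card = A.card + 2 := by
    intro A hA
    have h1 : s ∉ A := fun h2 => y.sW (hA h2)
    have h2 : ω ∉ insert s A := by
      rw [mem_insert, not_or]
      exact ⟨y.ωs, fun h4 => y.ωW (hA h4)⟩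
    rw [card_insert_of_notMem h2, card_insert_of_notMem h1]
  have hbdA : ∀ A, G.AdmZ fr F W A → G.pi f ∈ A →
      (G3.bd (insert ω (insert s A))).card + (if G.pi j ∈ A then 1 else 0) = G.nj F A + 1 := by
    intro A hA hg
    rw [y.bd hF hc hrd hA hg]
    have h1 : h ∉ ((G.bd A).filter fun d => d ∉ F).erase j := fun h2 =>
      nG3 (mem_bd.1 (mem_filter.1 (mem_erase.1 h2).2).1).1
    rw [card_insert_of_notMem h1]
    unfold nj
    split_ifs with h2
    · have h4 : j ∈ (G.bd A).filter fun d => d ∉ F :=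
        mem_filter.2 ⟨mem_bd.2 ⟨hjd, h2, fun h5 => hjU (hA.subZ h5)⟩, hjF⟩
      rw [card_erase_of_mem h4]
      have h5 := card_pos.2 ⟨_, h4⟩
      omega
    · rw [erase_eq_of_notMem]
      exact fun h4 => h2 (mem_bd.1 (mem_filter.1 h4).1).2.1
  have hjm3 : ∀ A, A ⊆ W → (insert ω (insert s A) ∩ {ω, G.pi j}).card =
      1 + (if G.pi j ∈ A then 1 else 0) := by
    intro A hA
    split_ifs with h1
    · have h2 : insert ω (insert s A) ∩ {ω, G.pi j} = {ω, G.pi j} := by
        rw [inter_eq_right]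
        intro v hv
        rw [mem_insert, mem_singleton] at hv
        rcases hv with h4 | h4
        · rw [h4]; exact mem_insert_self _ _
        · rw [h4]; exact mem_insert_of_mem (mem_insert_of_mem h1)
      rw [h2, card_pair hωj]
    · have h2 : insert ω (insert s A) ∩ {ω, G.pi j} = {ω} := by
        ext v
        rw [mem_inter, mem_insert, mem_insert, mem_insert, mem_singleton, mem_singleton]
        constructor
        · rintro ⟨h4, h5 | h5⟩
          · exact h5
          · rcases h4 with h4 | h4 | h4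
            · exact h4
            · exact absurd (h4.symm.trans h5) hsj
            · exact absurd (h5 ▸ h4) h1
        · exact fun h4 => ⟨Or.inl h4, Or.inl h4⟩
      rw [h2, card_singleton]
  have hbdX : ∀ X, X ⊆ W → (G.bd X).card = (G3.bd X).card + (X ∩ {ω, G.pi j}).card := by
    intro X hX
    rw [y.side.bd hX]
    have h0 : ω ∉ X := fun h1 => y.ωW (hX h1)
    by_cases h1 : G.pi j ∈ X
    · have h2 : j ∈ G.bd X := mem_bd.2 ⟨hjd, h1, fun h5 => hjU (hX h5)⟩
      have h4 : X ∩ {ω, G.pi j} = {G.pi j} := by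
        ext v
        rw [mem_inter, mem_insert, mem_singleton]
        constructor
        · rintro ⟨h5, h6 | h6⟩
          · exact absurd (h6 ▸ h5) h0
          · exact h6
        · exact fun h5 => ⟨h5 ▸ h1, Or.inr h5⟩
      rw [h4, card_singleton, sdiff_singleton_eq_erase, card_erase_of_mem h2]
      have h5 := card_pos.2 ⟨_, h2⟩
      omega
    · have h4 : X ∩ {ω, G.pi j} = ∅ := by
        rw [eq_empty_iff_forall_notMem]
        intro v hv
        rw [mem_inter, mem_insert, mem_singleton] at hv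
        rcases hv with ⟨h5, h6 | h6⟩
        · exact h0 (h6 ▸ h5)
        · exact h1 (h6 ▸ h5)
      rw [h4, card_empty, sdiff_singleton_eq_erase, erase_eq_of_notMem, add_zero]
      exact fun h5 => h1 (mem_bd.1 h5).2.1
  have hvsc : G3.vs.card = W.card + 3 := by
    rw [y.vs]
    have k1 : Disjoint W {ω} := disjoint_singleton_right.2 y.ωW
    have k2 : q ∉ W ∪ {ω} := by
      rw [mem_union, mem_singleton, not_or]
      exact ⟨y.qW, y.ωq.symm⟩
    have k4 : s ∉ insert q (W ∪ {ω}) := by
      rw [mem_insert, mem_union, mem_singleton, not_or, not_or]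
      exact ⟨y.sq, y.sW, y.ωs.symm⟩
    rw [card_insert_of_notMem k4, card_insert_of_notMem k2, card_union_of_disjoint k1,
      card_singleton]
  have hraw : G3.RawI (exZ z 1 e e' h h') t3 (insert ω (insert s (fr ∩ W))) (xF G F W e e')
      {ω, G.pi j} ∅ 0 := by
    refine ⟨?_, hw3, by rw [htau]; norm_num, hfrB, Or.inr (card_pair hωj), ?_,
      fun _ _ _ _ _ => Nat.zero_le _, ?_⟩
    · rw [hvsc]
      obtain ⟨k, hk⟩ := hWo
      exact ⟨k + 2, by omega⟩
    · intro X hX _ ho
      by_cases hωX : ω ∈ X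
      · obtain ⟨h1, h2, h4⟩ := y.adm_in hF hc hrd hX hωX
        set A := X ∩ W with hA
        rw [h1, hcardA A h2.subZ] at ho
        have hAo : Odd A.card := by
          rw [Nat.odd_iff] at ho ⊢
          omega
        have h5 := hF.nj_par h2.sub
        rw [hjA A h2.subZ, card_empty, add_zero] at h5
        have h6 := hK A h2 h4 hAo
        have h7 := hbdA A h2 h4
        rw [h1, hjm3 A h2.subZ]
        rw [Nat.odd_iff] at hAo
        omega
      · obtain ⟨h1, h2⟩ := y.adm_out hF hrd hX hωX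
        have h4 := hh.inst.cc0 h2 ho
        rw [hjA X h1, card_empty, hbdX X h1] at h4
        exact h4
    · intro X hX _ he _ hjX
      have hωX : ω ∈ X := hjX (mem_insert_self _ _)
      have hxX : G.pi j ∈ X := hjX (mem_insert_of_mem (mem_singleton_self _))
      obtain ⟨h1, h2, h4⟩ := y.adm_in hF hc hrd hX hωX
      set A := X ∩ W with hA
      have hxA : G.pi j ∈ A := mem_inter.2 ⟨hxX, hjW⟩
      rw [h1, hcardA A h2.subZ] at he
      have h5 := hF.nj_par h2.sub
      rw [hjA A h2.subZ, card_empty, add_zero] at h5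
      have h7 := hbdA A h2 h4
      rw [if_pos hxA] at h7
      have h8 : 0 < G.nj F A :=
        card_pos.2 ⟨j, mem_filter.2 ⟨mem_bd.2 ⟨hjd, hxA, fun h5 => hjU (h2.subZ h5)⟩, hjF⟩⟩
      rw [h1]
      rw [Nat.even_iff] at he
      omega
  have hfrc : (insert ω (insert s (fr ∩ W))).card = (fr ∩ W).card + 2 :=
    hcardA _ inter_subset_right
  obtain ⟨M', hM', hpos, hhit⟩ := hh.solve hraw
    (Int4.of_raw hraw fun d hd => exZ_nat ⟨1, by norm_num⟩ fun k1 k2 k3 k4 => by
      by_cases k5 : G3.pi d ∈ W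
      · exact hh.i4.zi d (y.side.dn d hd k5).1
      · rcases y.out d hd k5 with k6 | k6 | k6 | k6 | k6 | k6
        · exact absurd k6 k1
        · exact absurd k6 k2
        · exact absurd k6 k3
        · exact absurd k6 k4
        · rw [k6]
          exact hh.i4.zi _ (G.al_mem f (hF.Fsub hc.f1))
        · rw [k6]
          exact hh.i4.zi _ (G.al_mem g (hF.Fsub hc.f2))) (by
    rw [hfrc, hvsc]
    have k2 : (fr \ W).card + (fr ∩ W).card = fr.card := card_sdiff_add_card_inter fr W
    have k4 : (G.vs \ W).card + W.card = G.vs.card := card_sdiff_add_card_eq_card hW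
    omega)
  have hdj : ∀ d ∈ F, d ∉ ({j} : Finset D) := fun d hd h3 => hjF ((mem_singleton.1 h3) ▸ hd)
  have hfu := y.side.up f (hF.Fsub hc.f1) hc.w1 (hdj f hc.f1)
  have hgu := y.side.up g (hF.Fsub hc.f2) hc.w2 (hdj g hc.f2)
  have hone : ∀ d k, d ∈ M' → k ∈ M' → G3.pi d = G3.pi k → d = k := by
    intro d k hd hk hp
    obtain ⟨c, hc'⟩ := card_eq_one.1 (hM'.one _ (G3.pi_mem k (hM'.sub hk)))
    have k1 : d ∈ M'.filter fun d => G3.pi d = G3.pi k := mem_filter.2 ⟨hd, hp⟩
    have k2 : k ∈ M'.filter fun d => G3.pi d = G3.pi k := mem_filter.2 ⟨hk, rfl⟩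
    rw [hc', mem_singleton] at k1 k2
    rw [k1, k2]
  have hsvs : s ∈ G3.vs := by rw [y.vs]; exact mem_insert_self _ _
  have hqvs : q ∈ G3.vs := by rw [y.vs]; exact mem_insert_of_mem (mem_insert_self _ _)
  have hωvs : ω ∈ G3.vs := by rw [y.vs]; simp
  have hex : ∀ v ∈ G3.vs, ∃ d ∈ M', G3.pi d = v := by
    intro v hv
    obtain ⟨c, hc'⟩ := card_eq_one.1 (hM'.one v hv)
    have k1 : c ∈ M'.filter fun d => G3.pi d = v := by rw [hc']; exact mem_singleton_self c
    exact ⟨c, (mem_filter.1 k1).1, (mem_filter.1 k1).2⟩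
  have hhM : h ∈ M' := by
    obtain ⟨d, h1, h2⟩ := hex q hqvs
    have h4 : d = h' := by
      rcases y.out d (hM'.sub h1) (by rw [h2]; exact y.qW) with h5 | h5 | h5 | h5 | h5 | h5
      · rw [h5, y.pi_e] at h2; exact absurd h2 y.ωq
      · rw [h5, y.pi_e'] at h2; exact absurd h2 y.sq
      · rw [h5, y.pi_h] at h2; exact absurd h2 y.sq
      · exact h5
      · rw [h5, y.pi_f] at h2; exact absurd h2 y.ωq
      · rw [h5, y.pi_g] at h2; exact absurd h2 y.sq
    have h5 := hM'.closed d h1
    rwa [h4, y.al_h'] at h5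
  have hhe : h ≠ e' := by
    intro h1
    have h2 := y.al_e'
    have h4 := y.al_h
    rw [h1, h2] at h4
    have h5 := y.pi_e
    rw [h4, y.pi_h'] at h5
    exact y.ωq h5.symm
  have hgM : G.al g ∉ M' := by
    intro h1
    have h2 := hone _ _ h1 hhM (by rw [y.pi_g, y.pi_h])
    exact nG3 (h2 ▸ G.al_mem g (hF.Fsub hc.f2))
  have heM' : e' ∉ M' := by
    intro h1
    exact hhe (hone _ _ h1 hhM (by rw [y.pi_e', y.pi_h])).symm
  have heM : e ∉ M' := by
    intro h1
    have h2 := hM'.closed e h1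
    rw [y.al_e] at h2
    exact heM' h2
  have hfM : f ∈ M' := by
    obtain ⟨d, h1, h2⟩ := hex ω hωvs
    have h4 : d = G.al f := by
      rcases y.out d (hM'.sub h1) (by rw [h2]; exact y.ωW) with h5 | h5 | h5 | h5 | h5 | h5
      · exact absurd (h5 ▸ h1) heM
      · exact absurd (h5 ▸ h1) heM'
      · rw [h5, y.pi_h] at h2; exact absurd h2.symm y.ωs
      · rw [h5, y.pi_h'] at h2; exact absurd h2.symm y.ωq
      · exact h5
      · exact absurd (h5 ▸ h1) hgM
    have h5 := hM'.closed d h1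
    rwa [h4, y.al_f] at h5
  have hgM2 : g ∉ M' := by
    intro h1
    have h2 := hM'.closed g h1
    rw [hgu.2.2] at h2
    exact hgM h2
  refine ⟨M'.filter fun d => G3.pi d ∈ W, y.side.half hM', ?_, ?_, ?_, ?_⟩
  · intro d hd
    obtain ⟨k1, k2⟩ := mem_filter.1 hd
    have k3 := hpos d k1
    have k4 := (y.side.dn d (hM'.sub k1) k2).1
    unfold exZ at k3
    rw [if_neg, if_neg] at k3
    · exact k3
    · rintro (k5 | k5)
      · exact nG3 (k5 ▸ k4)
      · exact nG4 (k5 ▸ k4)
    · rintro (k5 | k5)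
      · exact nG1 (k5 ▸ k4)
      · exact nG2 (k5 ▸ k4)
  · intro d hd
    obtain ⟨k1, k2, k3⟩ := mem_bd.1 hd
    rw [mem_filter]
    constructor
    · rintro ⟨k4, k5⟩
      obtain ⟨-, -, k6⟩ := y.side.dn d (hM'.sub k4) k5
      by_cases k7 : d ∈ F
      · rcases hc.only d k7 k2 k3 with k8 | k8
        · exact k8
        · exact absurd (k8 ▸ k4) hgM2
      · have k8 : d ∈ rd G F W := mem_filter.2 ⟨hd, k7⟩
        rw [hrd] at k8
        exact absurd k8 k6
    · intro k4
      rw [k4]
      exact ⟨hfM, by rw [hfu.2.1]; exact hc.w1⟩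
  · intro X hX hXW _ hx ho
    obtain ⟨d, hd, hdM⟩ := hhit X (y.adm_up hF hc hrd hX hXW) (disjoint_empty_right _) (Or.inl ho)
    rw [y.side.bd hXW] at hd
    exact ⟨d, (mem_sdiff.1 hd).1, fun k1 => hdM (mem_filter.1 k1).1⟩
  · intro A hA hg hx _
    obtain ⟨d, hd, hdM⟩ := hhit _ (y.adm_ins hF hc hrd hA hg) (disjoint_empty_right _)
      (Or.inr ⟨⟨ω, mem_insert_self _ _⟩, by
        intro v hv
        rw [mem_insert, mem_singleton] at hv
        rcases hv with k1 | k1
        · rw [k1]; exact mem_insert_self _ _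
        · rw [k1]; exact mem_insert_of_mem (mem_insert_of_mem hx)⟩)
    rw [y.bd hF hc hrd hA hg] at hd
    rcases mem_insert.1 hd with k1 | k1
    · exact absurd (k1 ▸ hhM) hdM
    · obtain ⟨k2, k3⟩ := mem_erase.1 k1
      obtain ⟨k4, k5⟩ := mem_filter.1 k3
      exact ⟨d, k4, k5, k2, fun k6 => hdM (mem_filter.1 k6).1⟩

/-- the inner matching of a (t1) set for a used F-edge -/
theorem MCI.inT1_F [Infinite V] [Infinite D] (hh : G.MCI z t fr F jm sx ep 0)
    (hc : G.FC F W g1 g2) (hWo : Odd W.card) (h3 : G.val z t W = 3)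
    (hj : Disjoint jm W) (hrd : rd G F W = {j}) (hj1 : G.pi j ∈ fr)
    (hfb : f ∈ G.bd W) (hfF : f ∈ F)
    (hs : 3 ≤ (fr \ W).card ∨ (2 ≤ (fr \ W).card ∧ 4 ≤ (G.vs \ W).card))
    (hK : ∀ A, G.AdmZ fr F W A → G.pi g1 ∈ A → Odd A.card → G.nj F A ≠ 1) :
    InT1 G z fr F W g1 j f := by
  have hF := hh.inst.fresh
  obtain ⟨hfd, hfW, hfU⟩ := mem_bd.1 hfb
  rcases hc.only f hfF hfW hfU with h1 | h1
  · rw [h1]
    exact hh.inT1_F' hc hWo h3 hj hrd hj1 hs hK
  · rw [h1]
    obtain ⟨M2, k1, k2, k3, k4, k5⟩ := hh.inT1_F' hc.swap hWo h3 hj hrd hj1 hs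
      (fun A hA hg => hK A hA ((hc.both hF hA).2 hg))
    refine ⟨M2, k1, k2, k3, ?_, ?_⟩
    · intro X hX hXW _ hx ho
      exact k4 X hX hXW (fun k6 => hc.u2 (hXW (hX.clo g2 hc.f2 k6))) hx ho
    · intro A hA hg hx ho
      exact k5 A hA ((hc.both hF hA).1 hg) hx ho

end MG

end RH
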