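import Pool.Agent.Lib.RH.I4FcC

/-! F-cut gluing for the class `Int4` (helper94; copy of helper42's files): no tight set of kind
(t2). -/

set_option autoImplicit false

namespace RH

open Finset Classical

namespace MG

variable {V D : Type*}

variable {G : MG V D} {z : D → ℝ} {t : V → ℝ} {fr : Finset V} {F : Finset D} {jm sx : Finset V}
variable {ep : V → ℕ} {m : ℕ} {W Y Z A X B : Finset V} {f : D}
variable {g1 g2 : D} {M : Finset D}

/-- a glued matching of a minimal counterexample has a closed union -/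
theorem MCI.closed (hh : G.MCI z t fr F jm sx ep m) (hM : G.IsPM M) (hpos : ∀ d ∈ M, 0 < z d) :
    ∃ X, G.Adm fr F X ∧ (Odd X.card ∨ (jm.Nonempty ∧ jm ⊆ X)) ∧ ∀ d ∈ G.bd X, d ∈ M := by
  by_contra hcon
  push Not at hcon
  refine hh.bad ⟨M, hM, hpos, fun X hX ho => ?_⟩
  rw [hh.inst.sx_eq] at ho
  exact hcon X hX ho

theorem MCI.no_t2 [Infinite V] [Infinite D] (hh : G.MCI z t fr F jm sx ep 0)
    (hc : G.FC F W g1 g2) (hWo : Odd W.card) (h3 : G.val z t W = 3) (hj : Disjoint jm W)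
    (hff : ∀ d ∈ G.bd W, d ∉ F → ¬ (G.pi d ∈ fr ∧ G.pi (G.al d) ∈ fr))
    (hs1 : 2 ≤ (fr ∩ W).card ∨ 4 ≤ W.card) (hs2 : 2 ≤ (fr \ W).card ∨ 4 ≤ (G.vs \ W).card)
    (hC : ∀ A, G.AdmZ fr F (G.vs \ W) A → G.pi (G.al g1) ∈ A → Even A.card →
      G.val z t (A ∪ W) ≠ 3) : False := by
  have hF := hh.inst.fresh
  have hw := hh.inst.wt
  have hW := hc.hW
  have hc' := hc.symm hF
  obtain ⟨M1, hM1, hp1, f, hfb, hzf, hcr1, hA1, hZ1⟩ := hh.solveC hc hWo h3 hj hs1 hC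
  obtain ⟨hfd, hfW, hfU⟩ := mem_bd.1 hfb
  have hUc : 2 ≤ (G.vs \ W).card := by
    have h1 : (fr \ W).card ≤ (G.vs \ W).card := card_le_card (sdiff_subset_sdiff hF.fsub subset_rfl)
    omega
  -- inner matching
  obtain ⟨M2, hM2, hp2, hcr2, hA2, hZ2⟩ : ∃ M2, G.Half W M2 ∧ (∀ d ∈ M2, 0 < z d) ∧
      (∀ d ∈ G.bd W, (d ∈ M2 ↔ d = f)) ∧
      (∀ X, G.Adm fr F X → X ⊆ W →
        (f ∈ F → Disjoint X ((G.bd W).image G.pi)) →
        (f ∉ F → ∀ v ∈ X, ¬ (G.pi f ∉ fr ∧ ∃ d ∈ G.ds, G.pi d = v ∧ G.pi (G.al d) = G.pi f)) →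
        Odd X.card → ∃ d ∈ G.bd X, d ∉ M2) ∧
      (f ∉ F → ∀ A, G.AdmZ fr F W A → G.pi g1 ∈ A →
        (∀ v ∈ A, ¬ (G.pi f ∉ fr ∧ ∃ d ∈ G.ds, G.pi d = v ∧ G.pi (G.al d) = G.pi f)) →
        Even A.card → ∃ d ∈ G.bd A, d ∉ F ∧ d ∉ M2) := by
    by_cases hfF : f ∈ F
    · obtain ⟨M2, k1, k2, k3, k4⟩ := hh.solveE hW hWo h3 hfb hzf hUc
      exact ⟨M2, k1, k2, k3, fun X hX hXW h1 _ ho => k4 X hX hXW (h1 hfF)
        (disjoint_of_subset_left hXW hj.symm) ho, fun h1 => absurd hfF h1⟩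
    · obtain ⟨M2, k1, k2, k3, k4, k5⟩ := hh.solveD hc hWo h3 hj hfb hfF hzf hs2
      exact ⟨M2, k1, k2, k3, fun X hX hXW _ h1 ho => k4 X hX hXW (h1 hfF) ho,
        fun _ A hA hg hb he => k5 A hA hg hb he⟩
  have hdj : Disjoint (G.vs \ W) W := sdiff_disjoint
  have hpm : G.IsPM (M1 ∪ M2) := by
    refine hM1.glue hM2 hdj (sdiff_union_of_subset hW).symm ?_
    intro d hd h1 h2
    have h4 : d ∈ G.bd W := mem_bd.2 ⟨hd, h1, (mem_sdiff.1 h2).2⟩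
    rw [hcr2 d h4, hcr1 d h4]
  have hpos : ∀ d ∈ M1 ∪ M2, 0 < z d := by
    intro d hd
    rcases mem_union.1 hd with h1 | h1
    · exact hp1 d h1
    · exact hp2 d h1
  have hMW : ∀ d ∈ M1 ∪ M2, G.pi d ∈ W → d ∈ M2 := by
    intro d hd h1
    rcases mem_union.1 hd with h2 | h2
    · exact absurd h1 (mem_sdiff.1 (hM1.sub d h2).2).2
    · exact h2
  have hMU : ∀ d ∈ M1 ∪ M2, G.pi d ∉ W → d ∈ M1 := by
    intro d hd h1
    rcases mem_union.1 hd with h2 | h2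
    · exact h2
    · exact absurd (hM2.sub d h2).2 h1
  have hcross : ∀ d ∈ G.bd W, (d ∈ M1 ∪ M2 ↔ d = f) := by
    intro d hd
    constructor
    · intro h1
      exact (hcr2 d hd).1 (hMW d h1 (mem_bd.1 hd).2.1)
    · intro h1
      exact mem_union_right _ ((hcr2 d hd).2 h1)
  have hfM : f ∈ M1 ∪ M2 := (hcross f hfb).2 rfl
  obtain ⟨X, hX, hodd, hcl⟩ := hh.closed hpm hpos
  set U := G.vs \ W with hU
  have hXs := hX.sub.trans hF.fsub
  have hXU : ∀ v ∈ X, v ∉ W → v ∈ X ∩ U := fun v h1 h2 =>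
    mem_inter.2 ⟨h1, mem_sdiff.2 ⟨hXs h1, h2⟩⟩
  have hcard : (X ∩ W).card + (X ∩ U).card = X.card := by
    have h1 : X ∩ U = X \ W := by
      ext v
      rw [mem_inter, mem_sdiff, mem_sdiff]
      exact ⟨fun k => ⟨k.1, k.2.2⟩, fun k => ⟨k.1, hXs k.1, k.2⟩⟩
    rw [h1, add_comm]
    exact card_sdiff_add_card_inter X W
  have cl1 : ∀ d ∈ G.bd (X ∩ W), d ∉ F → d ∈ M1 ∪ M2 := by
    intro d hd hdF
    obtain ⟨k1, k2, k3⟩ := mem_bd.1 hd
    obtain ⟨k4, k5⟩ := mem_inter.1 k2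
    by_cases k6 : G.pi (G.al d) ∈ X
    · have k7 : G.pi (G.al d) ∉ W := fun k8 => k3 (mem_inter.2 ⟨k6, k8⟩)
      exact absurd ⟨hX.sub k4, hX.sub k6⟩ (hff d (mem_bd.2 ⟨k1, k5, k7⟩) hdF)
    · exact hcl d (mem_bd.2 ⟨k1, k4, k6⟩)
  have cl2 : ∀ d ∈ G.bd (X ∩ U), d ∉ F → d ∈ M1 ∪ M2 := by
    intro d hd hdF
    obtain ⟨k1, k2, k3⟩ := mem_bd.1 hd
    obtain ⟨k4, k5⟩ := mem_inter.1 k2
    have k9 := G.al_al d k1
    by_cases k6 : G.pi (G.al d) ∈ X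
    · have k7 : G.pi (G.al d) ∈ W := by
        by_contra k8
        exact k3 (hXU _ k6 k8)
      exact absurd ⟨hX.sub k6, by rw [k9]; exact hX.sub k4⟩ (hff (G.al d)
        (mem_bd.2 ⟨G.al_mem d k1, k7, by rw [k9]; exact (mem_sdiff.1 k5).2⟩)
        (fun k8 => hdF (by rw [← k9]; exact hF.Fal _ k8)))
    · exact hcl d (mem_bd.2 ⟨k1, k4, k6⟩)
  have hb : ∀ v ∈ X ∩ W, ¬ (G.pi f ∉ fr ∧ ∃ d ∈ G.ds, G.pi d = v ∧ G.pi (G.al d) = G.pi f) := by
    rintro v hv ⟨k1, d, k2, k3, k4⟩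
    obtain ⟨k5, k6⟩ := mem_inter.1 hv
    have k7 : d ∈ M1 ∪ M2 := hcl d (mem_bd.2 ⟨k2, by rw [k3]; exact k5, fun k8 => k1 (by
      rw [← k4]; exact hX.sub k8)⟩)
    have k8 := hpm.closed d k7
    obtain ⟨d', hd'⟩ := card_eq_one.1 (hpm.one _ (hW hfW))
    have k9 : G.al d ∈ (M1 ∪ M2).filter fun d => G.pi d = G.pi f := mem_filter.2 ⟨k8, k4⟩
    have k10 : f ∈ (M1 ∪ M2).filter fun d => G.pi d = G.pi f := mem_filter.2 ⟨hfM, rfl⟩
    rw [hd', mem_singleton] at k9 k10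
    have k11 : G.al f = d := by
      rw [k10, ← k9]
      exact G.al_al d k2
    exact hfU (by rw [k11, k3]; exact k6)
  have hjX : jm ⊆ X → jm ⊆ X ∩ U := by
    intro k1 v hv
    exact hXU v (k1 hv) (disjoint_left.1 hj hv)
  by_cases hg : G.pi g1 ∈ X
  · have hAZ := hX.admZ W
    have hCZ := hX.admZ U
    have hgA : G.pi g1 ∈ X ∩ W := mem_inter.2 ⟨hg, hc.w1⟩
    have hgC : G.pi (G.al g1) ∈ X ∩ U :=
      hXU _ (hX.clo g1 hc.f1 hg) hc.u1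
    have hgA2 : G.pi g2 ∈ X ∩ W := (hc.both hF hAZ).1 hgA
    have hlaw := hF.law hpm hAZ.sub
    have e1 : ((G.bd (X ∩ W)).filter fun d => d ∉ F ∧ d ∉ M1 ∪ M2) = ∅ := by
      rw [eq_empty_iff_forall_notMem]
      intro d hd
      obtain ⟨k1, k2, k3⟩ := mem_filter.1 hd
      exact k3 (cl1 d k1 k2)
    have e2 : (X ∩ W) ∩ jm = ∅ := by
      rw [← disjoint_iff_inter_eq_empty]
      exact disjoint_of_subset_left inter_subset_right hj.symm
    have hfF : f ∉ F := by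
      intro hfF
      have e3 : ((G.bd (X ∩ W)).filter fun d => d ∈ F ∧ d ∈ M1 ∪ M2) = {f} := by
        ext d
        rw [mem_filter, mem_singleton]
        constructor
        · rintro ⟨k1, k2, k3⟩
          obtain ⟨k4, k5, k6⟩ := mem_bd.1 k1
          obtain ⟨k7, k8⟩ := mem_inter.1 k5
          have k9 : G.pi (G.al d) ∉ W := fun k10 => k6 (mem_inter.2 ⟨hX.clo d k2 k7, k10⟩)
          exact (hcross d (mem_bd.2 ⟨k4, k8, k9⟩)).1 k3
        · rintro rfl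
          refine ⟨mem_bd.2 ⟨hfd, ?_, fun k1 => hfU (mem_inter.1 k1).2⟩, hfF, hfM⟩
          rcases hc.only d hfF hfW hfU with k1 | k1
          · rw [k1]; exact hgA
          · rw [k1]; exact hgA2
      rw [e1, e2, e3, card_empty, card_empty, card_singleton] at hlaw
      obtain ⟨k, hk⟩ := hlaw
      omega
    have hAo : ¬ Even (X ∩ W).card := by
      intro k1
      obtain ⟨d, k2, k3, k4⟩ := hZ2 hfF _ hAZ hgA hb k1
      exact k4 (hMW d (cl1 d k2 k3) (mem_inter.1 (mem_bd.1 k2).2.1).2)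
    have hCo : ¬ (Even (X ∩ U).card ∨ (jm.Nonempty ∧ jm ⊆ X ∩ U)) := by
      intro k1
      obtain ⟨d, k2, k3, k4⟩ := hZ1 hfF _ hCZ hgC k1
      exact k4 (hMU d (cl2 d k2 k3) (mem_sdiff.1 (mem_inter.1 (mem_bd.1 k2).2.1).2).2)
    rw [not_or] at hCo
    rcases hodd with ho | ⟨ho1, ho2⟩
    · rw [Nat.not_even_iff_odd] at hAo
      have k1 := hCo.1
      rw [Nat.not_even_iff_odd] at k1
      rw [Nat.odd_iff] at ho hAo k1
      omega
    · exact hCo.2 ⟨ho1, hjX ho2⟩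
  · have hAA := hc.adm_in hF hX hg
    have hCC := hc.adm_out hF hX hg
    rw [← hU] at hCC
    have cA : ∀ d ∈ G.bd (X ∩ W), d ∈ M1 ∪ M2 := by
      intro d hd
      refine cl1 d hd fun k1 => ?_
      obtain ⟨k4, k5, k6⟩ := mem_bd.1 hd
      exact k6 (hAA.clo d k1 k5)
    have cC : ∀ d ∈ G.bd (X ∩ U), d ∈ M1 ∪ M2 := by
      intro d hd
      refine cl2 d hd fun k1 => ?_
      obtain ⟨k4, k5, k6⟩ := mem_bd.1 hd
      exact k6 (hCC.clo d k1 k5)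
    have hAe : ¬ Odd (X ∩ W).card := by
      intro k1
      obtain ⟨d, k2, k3⟩ := hA2 _ hAA inter_subset_right (fun hfF => by
        rw [disjoint_left]
        intro v k4 k5
        obtain ⟨d, k6, rfl⟩ := mem_image.1 k5
        obtain ⟨k7, k8, k9⟩ := mem_bd.1 k6
        obtain ⟨k10, -⟩ := mem_inter.1 k4
        by_cases k11 : d ∈ F
        · exact k9 (mem_inter.1 (hAA.clo d k11 k4)).2
        · by_cases k12 : G.pi (G.al d) ∈ X
          · exact hff d k6 k11 ⟨hX.sub k10, hX.sub k12⟩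
          · have k13 := (hcross d k6).1 (hcl d (mem_bd.2 ⟨k7, k10, k12⟩))
            exact k11 (k13 ▸ hfF)) (fun _ => hb) k1
      exact k3 (hMW d (cA d k2) (mem_inter.1 (mem_bd.1 k2).2.1).2)
    have hCo : ¬ (Odd (X ∩ U).card ∨ (jm.Nonempty ∧ jm ⊆ X ∩ U)) := by
      intro k1
      obtain ⟨d, k2, k3⟩ := hA1 _ hCC inter_subset_right k1
      exact k3 (hMU d (cC d k2) (mem_sdiff.1 (mem_inter.1 (mem_bd.1 k2).2.1).2).2)
    rw [not_or] at hCo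
    rcases hodd with ho | ⟨ho1, ho2⟩
    · have k1 := hCo.1
      rw [Nat.odd_iff] at ho hAe k1
      omega
    · exact hCo.2 ⟨ho1, hjX ho2⟩

end MG

end RH
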