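import Pool.Agent.Lib.RH.SCapA
import Pool.Agent.Lib.RH.I4T1F
import Pool.Agent.Lib.RH.I4T2
import Pool.Agent.Lib.RH.I4Even2
import Pool.Agent.Lib.RH.I4MFree
import Pool.Agent.Lib.RH.I4Glue2

/-! Tight sets, part 1, class I4 (helper87; copy of SCapA). -/

set_option autoImplicit false

namespace RH

open Finset Classical

namespace MG

variable {V D : Type*}

variable {G : MG V D} {z : D → ℝ} {t : V → ℝ} {fr : Finset V} {F : Finset D} {jm sx : Finset V}
variable {ep : V → ℕ} {m : ℕ} {W Y Z A X : Finset V} {f j : D} {S : Finset D}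
variable {g1 g2 : D} {M : Finset D}

/-- the value of a set is a natural number with the parity of the set -/
theorem Int4.val_nat (hi : Int4 G z t) (hw : G.Wt z t) (hX : X ⊆ G.vs) :
    ∃ k : ℕ, G.val z t X = k ∧ k % 2 = X.card % 2 := by
  have hzi := hi.zi
  choose! n hn using hzi
  have hal : ∀ d ∈ G.ds, n (G.al d) = n d := by
    intro d hd
    have h1 := hw.sym d hd
    rw [hn d hd, hn _ (G.al_mem d hd)] at h1
    exact_mod_cast h1
  have hev : Even (∑ d ∈ G.ed X X, n d) := by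
    have h1 : ∑ d ∈ G.ed X X, ((n d : ℕ) : ZMod 2) = 0 := by
      refine sum_involution (fun d _ => G.al d) ?_ ?_ ?_ ?_
      · intro d hd
        rw [hal d (mem_ed.1 hd).1]
        exact CharTwo.add_self_eq_zero _
      · intro d hd _ he
        exact G.noloop d (mem_ed.1 hd).1 (by rw [he])
      · intro d hd
        obtain ⟨h2, h3, h4⟩ := mem_ed.1 hd
        exact mem_ed.2 ⟨G.al_mem d h2, h4, by rw [G.al_al d h2]; exact h3⟩
      · intro d hd
        exact G.al_al d (mem_ed.1 hd).1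
    rw [← Nat.cast_sum] at h1
    exact (ZMod.natCast_eq_zero_iff_even).1 h1
  have h2 := hw.val_eq hX
  have h3 : ∑ d ∈ G.ed X X, z d = ((∑ d ∈ G.ed X X, n d : ℕ) : ℝ) := by
    rw [Nat.cast_sum]
    exact sum_congr rfl fun d hd => hn d (mem_ed.1 hd).1
  rw [h3] at h2
  have h4 := hw.val_nonneg hX
  have h5 : ∑ d ∈ G.ed X X, n d ≤ 3 * X.card := by
    have h6 : ((∑ d ∈ G.ed X X, n d : ℕ) : ℝ) ≤ ((3 * X.card : ℕ) : ℝ) := by
      push_cast
      push_cast at h2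
      linarith
    exact_mod_cast h6
  refine ⟨3 * X.card - ∑ d ∈ G.ed X X, n d, ?_, ?_⟩
  · rw [h2, Nat.cast_sub h5]
    push_cast
    ring
  · obtain ⟨k, hk⟩ := hev
    omega

/-- an odd set which is not tight has value at least 5 -/
theorem Int4.odd_lt (hi : Int4 G z t) (hw : G.Wt z t) (hX : X ⊆ G.vs) (ho : Odd X.card)
    (h5 : G.val z t X < 5) : G.val z t X = 3 := by
  obtain ⟨k, h1, h2⟩ := hi.val_nat hw hX
  have h3 := hw.cut X hX ho
  rw [h1] at h3 h5 ⊢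
  have h4 : 3 ≤ k := by exact_mod_cast h3
  have h6 : k < 5 := by exact_mod_cast h5
  rw [Nat.odd_iff] at ho
  have h7 : k = 3 := by omega
  rw [h7]
  norm_num

/-- four tokens -/
theorem MCI.tau_eq (h : G.MCI z t fr F jm sx ep m) : ∑ v ∈ G.vs, t v = 4 :=
  le_antisymm h.i4.tau h.tau_ge

/-- zero darts can be deleted from a minimal counterexample -/
theorem MCI.del0 (h : G.MCI z t fr F jm sx ep m) (hS : ∀ d ∈ S, G.al d ∈ S)
    (h0 : ∀ d ∈ S, z d = 0) : (G.delG S hS).MCI z t fr F jm sx ep m := by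
  have hI := h.inst
  have hF := hI.fresh
  have hw := hI.wt
  have hds : ∀ d, d ∈ (G.delG S hS).ds ↔ d ∈ G.ds ∧ d ∉ S := fun d => mem_sdiff
  have hfrS : ∀ d ∈ G.ds, G.pi d ∈ fr → d ∉ S := by
    intro d hd hp h1
    have h2 := hF.unit d hd hp
    rw [h0 d h1] at h2
    norm_num at h2
  have hFS : ∀ d ∈ F, d ∉ S := fun d hd => hfrS d (hF.Fsub hd) (hF.Ffr d hd)
  have hval : ∀ X, (G.delG S hS).val z t X = G.val z t X := by
    intro X
    unfold val
    rw [sum_subset (s₁ := (G.delG S hS).bd X) (s₂ := G.bd X)]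
    · intro d hd
      obtain ⟨h1, h2⟩ := mem_bd.1 hd
      exact mem_bd.2 ⟨((hds d).1 h1).1, h2⟩
    · intro d hd hn
      obtain ⟨h1, h2⟩ := mem_bd.1 hd
      by_contra h3
      exact hn (mem_bd.2 ⟨(hds d).2 ⟨h1, fun h4 => h3 (h0 d h4)⟩, h2⟩)
  have hbd : ∀ X ⊆ fr, (G.delG S hS).bd X = G.bd X := by
    intro X hX
    ext d
    rw [mem_bd, mem_bd, hds]
    constructor
    · rintro ⟨⟨h1, -⟩, h2⟩
      exact ⟨h1, h2⟩
    · rintro ⟨h1, h2⟩
      exact ⟨⟨h1, hfrS d h1 (hX h2.1)⟩, h2⟩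
  have hst : ∀ v ∈ fr, (G.delG S hS).st v = G.st v := by
    intro v hv
    ext d
    rw [mem_st, mem_st, hds]
    constructor
    · rintro ⟨⟨h1, -⟩, h2⟩
      exact ⟨h1, h2⟩
    · rintro ⟨h1, h2⟩
      exact ⟨⟨h1, hfrS d h1 (h2 ▸ hv)⟩, h2⟩
  have hadm : ∀ X, (G.delG S hS).Adm fr F X ↔ G.Adm fr F X := fun X =>
    ⟨fun h1 => ⟨h1.sub, h1.clo⟩, fun h1 => ⟨h1.sub, h1.clo⟩⟩
  have hwt : (G.delG S hS).Wt z t := by
    refine ⟨fun d hd => hw.z0 d ((hds d).1 hd).1, hw.t0, fun d hd => hw.sym d ((hds d).1 hd).1,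
      ?_, ?_⟩
    · intro v hv
      have h2 := hw.deg v hv
      rw [← h2]
      congr 1
      refine sum_subset ?_ ?_
      · intro d hd
        obtain ⟨h1, h2⟩ := mem_st.1 hd
        exact mem_st.2 ⟨((hds d).1 h1).1, h2⟩
      · intro d hd hn
        obtain ⟨h1, h2⟩ := mem_st.1 hd
        by_contra h3
        exact hn (mem_st.2 ⟨(hds d).2 ⟨h1, fun h4 => h3 (h0 d h4)⟩, h2⟩)
    · intro X hX ho
      rw [hval]
      exact hw.cut X hX ho
  have hinst : (G.delG S hS).InstS z t fr F jm sx ep m := by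
    refine ⟨hI.even, hwt, hI.tau, ?_, ?_, ?_, hI.sxs, ?_, hI.jm2, hI.st2, ?_, hI.epj⟩
    · refine ⟨hF.fsub, ?_, hF.Fal, hF.Ffr, hF.two, hF.jms, ?_, ?_, ?_⟩
      · intro d hd
        exact (hds d).2 ⟨hF.Fsub hd, hFS d hd⟩
      · intro v hv hj
        rw [hst v hv]
        exact hF.jd v hv hj
      · intro v hv d hd
        rw [hst v (hF.jms hv)] at hd
        exact hF.j0 v hv d hd
      · intro d hd hp
        exact hF.unit d ((hds d).1 hd).1 hp
    · intro X hX ho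
      rw [hbd X hX.sub]
      exact hI.cc X ((hadm X).1 hX) ho
    · intro X hX he hn
      rw [hbd X hX.sub]
      exact hI.ev X ((hadm X).1 hX) he hn
    · rcases hI.kind with h1 | ⟨h1, h2⟩
      · exact Or.inl h1
      · exact Or.inr ⟨h1, fun X hX => h2 X ((hadm X).1 hX)⟩
    · intro X hX he hn hs
      rw [hbd X hX.sub]
      exact hI.b0 X ((hadm X).1 hX) he hn hs
  have hsup : (G.delG S hS).sup z = G.sup z := by
    unfold sup
    congr 1
    ext d
    rw [mem_filter, mem_filter, hds]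
    constructor
    · rintro ⟨⟨h1, -⟩, h2⟩
      exact ⟨h1, h2⟩
    · rintro ⟨h1, h2⟩
      exact ⟨⟨h1, fun h3 => h2 (h0 d h3)⟩, h2⟩
  refine ⟨hinst, Int4.of_inst hinst fun d hd => h.i4.zi d ((hds d).1 hd).1, ?_, ?_⟩
  · rw [hsup]
    exact h.ih
  · rintro ⟨M, hM⟩
    refine h.bad ⟨M, ⟨fun d hd => ((hds d).1 (hM.pm.sub hd)).1, hM.pm.closed, hM.pm.one⟩, hM.pos, ?_⟩
    intro X hX ho
    obtain ⟨d, h1, h2⟩ := hM.hit X ((hadm X).2 hX) ho
    rw [hbd X hX.sub] at h1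
    exact ⟨d, h1, h2⟩

/-- a tight set which is not J-bounded is cut by exactly two F-edges -/
theorem MCI.exists_fc (h : G.MCI z t fr F jm sx ep m) (hW : W ⊆ G.vs) (hWo : Odd W.card)
    (h3 : G.val z t W = 3) (hc1 : 3 ≤ W.card) (hc2 : 3 ≤ (G.vs \ W).card) :
    ∃ g1 g2, G.FC F W g1 g2 := by
  have hF := h.inst.fresh
  have hw := h.inst.wt
  set C : Finset D := F.filter fun d => G.pi d ∈ W ∧ G.pi (G.al d) ∉ W with hC
  have h1 : Even C.card := hF.even_cross W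
  have h2 : (C.card : ℝ) ≤ 3 := by
    have h4 : ∑ d ∈ C, z d = C.card := by
      rw [sum_congr rfl (g := fun _ => (1 : ℝ)), sum_const, nsmul_eq_mul, mul_one]
      intro d hd
      obtain ⟨h5, -⟩ := mem_filter.1 hd
      exact hF.unit d (hF.Fsub h5) (hF.Ffr d h5)
    have h5 : ∑ d ∈ C, z d ≤ ∑ d ∈ G.bd W, z d := by
      refine sum_le_sum_of_subset_of_nonneg ?_ fun d hd _ => hw.z0 d (mem_bd.1 hd).1
      intro d hd
      obtain ⟨h6, h7, h8⟩ := mem_filter.1 hd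
      exact mem_bd.2 ⟨hF.Fsub h6, h7, h8⟩
    have h6 : 0 ≤ ∑ v ∈ W, t v := sum_nonneg fun v hv => hw.t0 v (hW hv)
    unfold val at h3
    linarith
  have h2' : C.card ≤ 3 := by exact_mod_cast h2
  have h4 : C.card ≠ 0 := by
    intro h5
    refine h.no_tight hW hWo h3 hc1 hc2 fun d hd hp => ?_
    by_contra h6
    have h7 : d ∈ C := mem_filter.2 ⟨hd, hp, h6⟩
    rw [card_eq_zero.1 h5] at h7
    exact notMem_empty d h7
  have h5 : C.card = 2 := by
    obtain ⟨k, hk⟩ := h1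
    omega
  obtain ⟨g1, g2, h6, h7⟩ := card_eq_two.1 h5
  have m1 : g1 ∈ C := by rw [h7]; exact mem_insert_self _ _
  have m2 : g2 ∈ C := by rw [h7]; exact mem_insert_of_mem (mem_singleton_self _)
  obtain ⟨a1, a2, a3⟩ := mem_filter.1 m1
  obtain ⟨b1, b2, b3⟩ := mem_filter.1 m2
  refine ⟨g1, g2, hW, h6, a1, b1, a2, b2, a3, b3, fun d hd hp hn => ?_⟩
  have h8 : d ∈ C := mem_filter.2 ⟨hd, hp, hn⟩
  rw [h7, mem_insert, mem_singleton] at h8
  exact h8

/-- condition (C) of the gluing theorems, no star -/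
theorem MCI.fcC (h : G.MCI z t fr F ∅ ∅ ep m) (hc : G.FC F W g1 g2) (hWo : Odd W.card)
    (h3 : G.val z t W = 3) (hc1 : 3 ≤ W.card) :
    ∀ A, G.AdmZ fr F (G.vs \ W) A → G.pi (G.al g1) ∈ A → Even A.card →
      G.val z t (A ∪ W) ≠ 3 := by
  intro A hA hg he hv
  have hF := h.inst.fresh
  have hw := h.inst.wt
  have hd : Disjoint A W := by
    rw [disjoint_left]
    intro v hv
    exact (mem_sdiff.1 (hA.subZ hv)).2
  have hg2 : G.pi (G.al g2) ∈ A := ((hc.symm hF).both hF hA).1 hg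
  have hAs : A ⊆ G.vs := hA.sub.trans hF.fsub
  have hX : A ∪ W ⊆ G.vs := union_subset hAs hc.hW
  have hXo : Odd (A ∪ W).card := by
    rw [card_union_of_disjoint hd]
    exact he.add_odd hWo
  have hX1 : 3 ≤ (A ∪ W).card := hc1.trans (card_le_card subset_union_right)
  have htA := hF.sum_t hw hA.sub
  rw [inter_empty, card_empty, Nat.cast_zero] at htA
  have htW := hc.t_le hF hw h3
  have htau := h.tau_ge
  rcases hw.tight_cases h.inst.even hX hXo hv with ⟨v, -, h4⟩ | ⟨v, h4, h5, h6⟩ | ⟨h4, h5⟩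
  · rw [h4, card_singleton] at hX1
    omega
  · have h7 := sum_sdiff hX (f := t)
    rw [h6, sdiff_sdiff_right_self, inf_eq_inter, inter_eq_right.2 (singleton_subset_iff.2 h4),
      sum_singleton, ← h6, sum_union hd] at h7
    linarith
  · refine h.no_tight hX hXo hv h4 h5 fun d hdF hp => ?_
    have hds := hF.Fsub hdF
    have hpv := G.pi_mem _ (G.al_mem d hds)
    by_contra hn
    rw [mem_union, not_or] at hn
    rcases mem_union.1 hp with h6 | h6
    · exact hn.1 (hA.clo d hdF h6 (mem_sdiff.2 ⟨hpv, hn.2⟩))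
    · rcases hc.only d hdF h6 hn.2 with h7 | h7
      · exact hn.1 (h7 ▸ hg)
      · exact hn.1 (h7 ▸ hg2)

/-- condition (B) of the gluing theorems, no star -/
theorem MCI.fcB (h : G.MCI z t fr F ∅ ∅ ep m) (hc : G.FC F W g1 g2)
    (h3 : G.val z t W = 3) :
    ∀ A, G.AdmZ fr F (G.vs \ W) A → G.pi (G.al g1) ∈ A → Odd A.card → G.bd (A ∪ W) ≠ ∅ := by
  intro A hA hg ho hb
  have hF := h.inst.fresh
  have hw := h.inst.wt
  have hd : Disjoint A W := by
    rw [disjoint_left]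
    intro v hv
    exact (mem_sdiff.1 (hA.subZ hv)).2
  have hAs : A ⊆ G.vs := hA.sub.trans hF.fsub
  have hX : A ∪ W ⊆ G.vs := union_subset hAs hc.hW
  by_cases he : A ∪ W = G.vs
  · have htA := hF.sum_t hw hA.sub
    rw [inter_empty, card_empty, Nat.cast_zero] at htA
    have htW := hc.t_le hF hw h3
    have htau := h.tau_ge
    rw [← he, sum_union hd] at htau
    linarith
  · obtain ⟨d, h1, h2⟩ := h.conn hX ⟨G.pi g1, mem_union_right _ hc.w1⟩ he
    rw [hb] at h1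
    exact notMem_empty d h1

/-- no tight set of fresh vertices -/
theorem MCI.no_fcK [Infinite V] [Infinite D] (h : G.MCI z t fr F ∅ ∅ ep 0) (hc : G.FC F A g1 g2)
    (hAo : Odd A.card) (h3 : G.val z t A = 3) (hc1 : 3 ≤ A.card) (hAf : A ⊆ fr)
    (hrd : rd G F A = {j}) (hs : 2 ≤ (fr \ A).card) : False := by
  have hF := h.inst.fresh
  have hjrd : j ∈ rd G F A := by rw [hrd]; exact mem_singleton_self j
  obtain ⟨hjb, hjF⟩ := mem_filter.1 hjrd
  obtain ⟨hjd, hjA, hjn⟩ := mem_bd.1 hjb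
  have hUc : 2 ≤ (G.vs \ A).card :=
    hs.trans (card_le_card (sdiff_subset_sdiff hF.fsub subset_rfl))
  have hdis : Disjoint (∅ : Finset V) A := disjoint_empty_left A
  by_cases hj2 : G.pi (G.al j) ∈ fr
  · exact h.no_t1_core hc hAo h3 (by omega) hdis hrd (hAf hjA) hj2 (Or.inl hs)
      (h.fcC hc hAo h3 hc1) (h.fcB hc h3)
      fun f hf _ hz => h.inT1_K hc hAo h3 hAf hUc hdis hrd hf hz
  · refine h.no_t2 hc hAo h3 hdis ?_ (Or.inl ?_) (Or.inl hs) (h.fcC hc hAo h3 hc1)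
    · rintro d hd hdF ⟨-, h5⟩
      have h6 : d ∈ rd G F A := mem_filter.2 ⟨hd, hdF⟩
      rw [hrd, mem_singleton] at h6
      exact hj2 (h6 ▸ h5)
    · rw [inter_eq_right.2 hAf]
      omega

/-- the third unit of a tight set is not a fresh-fresh J-edge (no zero darts) -/
theorem MCI.no_ff0 [Infinite V] [Infinite D] (h : G.MCI z t fr F ∅ ∅ ep 0)
    (hz : ∀ d ∈ G.ds, z d ≠ 0) (hc : G.FC F W g1 g2) (hWo : Odd W.card) (h3 : G.val z t W = 3)
    (hc1 : 3 ≤ W.card) (hc2 : 3 ≤ (G.vs \ W).card) (hjb : j ∈ G.bd W) (hjF : j ∉ F)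
    (hj1 : G.pi j ∈ fr) (hj2 : G.pi (G.al j) ∈ fr) : False := by
  have hF := h.inst.fresh
  have hw := h.inst.wt
  have hW := hc.hW
  obtain ⟨hjd, hjW, hjU⟩ := mem_bd.1 hjb
  have hajd := G.al_mem j hjd
  have haj := G.al_al j hjd
  have hzj := hF.unit j hjd hj1
  have hjrd : j ∈ rd G F W := mem_filter.2 ⟨hjb, hjF⟩
  have hthird := hc.third hF h3
  change ∑ d ∈ rd G F W, z d + _ = 1 at hthird
  have hadd := add_sum_erase (rd G F W) z hjrd
  have hn1 : 0 ≤ ∑ d ∈ (rd G F W).erase j, z d :=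
    sum_nonneg fun d hd => hw.z0 d (mem_bd.1 (mem_filter.1 (mem_erase.1 hd).2).1).1
  have hn2 : 0 ≤ ∑ v ∈ W, t v := sum_nonneg fun v hv => hw.t0 v (hW hv)
  have htW : ∑ v ∈ W, t v = 0 := by linarith
  have hrd : rd G F W = {j} := by
    rw [eq_singleton_iff_unique_mem]
    refine ⟨hjrd, fun d hd => ?_⟩
    by_contra hne
    have h5 := single_le_sum (f := z) (s := (rd G F W).erase j)
      (fun d hd => hw.z0 d (mem_bd.1 (mem_filter.1 (mem_erase.1 hd).2).1).1)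
      (mem_erase.2 ⟨hne, hd⟩)
    have h6 := (mem_bd.1 (mem_filter.1 hd).1).1
    have h7 := hw.z0 d h6
    exact hz d h6 (by linarith)
  have hon : ∀ d ∈ G.bd W, d = g1 ∨ d = g2 ∨ d = j := by
    intro d hd
    by_cases h1 : d ∈ F
    · rcases hc.only d h1 (mem_bd.1 hd).2.1 (mem_bd.1 hd).2.2 with h2 | h2
      · exact Or.inl h2
      · exact Or.inr (Or.inl h2)
    · have h2 : d ∈ rd G F W := mem_filter.2 ⟨hd, h1⟩
      rw [hrd, mem_singleton] at h2
      exact Or.inr (Or.inr h2)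
  have hdis : Disjoint (∅ : Finset V) W := disjoint_empty_left W
  have hg1d := hF.Fsub hc.f1
  have hg2d := hF.Fsub hc.f2
  have ha1 := G.al_al g1 hg1d
  have ha2 := G.al_al g2 hg2d
  -- two fresh vertices outside
  have hfr2 : 2 ≤ (fr \ W).card := by
    by_contra hlt
    have hle : (fr \ W).card ≤ 1 := by omega
    rw [card_le_one] at hle
    have m1 : G.pi (G.al g1) ∈ fr \ W := mem_sdiff.2 ⟨hF.Ffr _ (hF.Fal g1 hc.f1), hc.u1⟩
    have m2 : G.pi (G.al g2) ∈ fr \ W := mem_sdiff.2 ⟨hF.Ffr _ (hF.Fal g2 hc.f2), hc.u2⟩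
    have m3 : G.pi (G.al j) ∈ fr \ W := mem_sdiff.2 ⟨hj2, hjU⟩
    obtain ⟨u, hu⟩ : ∃ u, u = G.pi (G.al g1) := ⟨_, rfl⟩
    have e2 : G.pi (G.al g2) = u := (hle _ m2 _ m1).trans hu.symm
    have e3 : G.pi (G.al j) = u := (hle _ m3 _ m1).trans hu.symm
    have huW : u ∉ W := by rw [hu]; exact hc.u1
    have hall := hF.at_fresh (c := u) (by rw [hu]; exact (mem_sdiff.1 m1).1) (notMem_empty _)
      (hF.Fal g1 hc.f1) (hF.Fal g2 hc.f2)
      (fun h1 => hc.ne (by rw [← ha1, h1, ha2])) hu.symm e2 hajd e3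
      (fun h1 => hjF (by rw [← haj]; exact hF.Fal _ h1))
    have hne : ((G.vs \ W).erase u).Nonempty := by
      rw [← card_pos]
      have h1 := pred_card_le_card_erase (s := G.vs \ W) (a := u)
      omega
    obtain ⟨d, hd, -⟩ := h.conn ((erase_subset _ _).trans sdiff_subset) hne (by
      intro h1
      have h2 : G.pi g1 ∈ (G.vs \ W).erase u := by rw [h1]; exact hW hc.w1
      exact (mem_sdiff.1 (mem_erase.1 h2).2).2 hc.w1)
    obtain ⟨d1, d2, d3⟩ := mem_bd.1 hd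
    obtain ⟨d4, d5⟩ := mem_erase.1 d2
    have d6 := (mem_sdiff.1 d5).2
    have d7 := G.al_mem d d1
    have d8 := G.al_al d d1
    by_cases d9 : G.pi (G.al d) = u
    · rcases hall _ d7 d9 with k | k | k
      · have k1 : d = g1 := by rw [← d8, k, ha1]
        exact d6 (k1 ▸ hc.w1)
      · have k1 : d = g2 := by rw [← d8, k, ha2]
        exact d6 (k1 ▸ hc.w2)
      · have k1 : d = j := by rw [← d8, k, haj]
        exact d6 (k1 ▸ hjW)
    · have d10 : G.pi (G.al d) ∈ W := by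
        by_contra hn
        exact d3 (mem_erase.2 ⟨d9, mem_sdiff.2 ⟨G.pi_mem _ d7, hn⟩⟩)
      rcases hon (G.al d) (mem_bd.2 ⟨d7, d10, by rw [d8]; exact d6⟩) with k | k | k
      · exact d4 (by rw [← d8, k]; exact hu.symm)
      · exact d4 (by rw [← d8, k]; exact e2)
      · exact d4 (by rw [← d8, k]; exact e3)
  -- two more vertices outside
  have hB : 2 ≤ ((G.vs \ W) \ fr).card := by
    have h1 := h.tau_ge
    have h2 := sum_sdiff hW (f := t)
    have h4 : ∑ v ∈ (G.vs \ W) \ fr, t v = ∑ v ∈ G.vs \ W, t v := by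
      refine sum_subset sdiff_subset fun v hv hn => ?_
      have h5 : v ∈ fr := by
        by_contra h6
        exact hn (mem_sdiff.2 ⟨hv, h6⟩)
      exact hF.t_not_jm hw h5 (notMem_empty v)
    have h5 : ∑ v ∈ (G.vs \ W) \ fr, t v ≤ ∑ _v ∈ (G.vs \ W) \ fr, (3 : ℝ) := by
      refine sum_le_sum fun v hv => ?_
      have h6 := hw.deg v (mem_sdiff.1 (mem_sdiff.1 hv).1).1
      have h7 : 0 ≤ ∑ d ∈ G.st v, z d := sum_nonneg fun d hd => hw.z0 d (mem_st.1 hd).1
      linarith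
    rw [sum_const, nsmul_eq_mul] at h5
    have h6 : (4 : ℝ) ≤ ((G.vs \ W) \ fr).card * 3 := by linarith
    have h7 : 4 ≤ ((G.vs \ W) \ fr).card * 3 := by exact_mod_cast h6
    omega
  have hU4 : 4 ≤ (G.vs \ W).card := by
    have h1 : fr \ W ⊆ G.vs \ W := sdiff_subset_sdiff hF.fsub subset_rfl
    have h2 : Disjoint (fr \ W) ((G.vs \ W) \ fr) := by
      rw [disjoint_left]
      intro v hv hv2
      exact (mem_sdiff.1 hv2).2 (mem_sdiff.1 hv).1
    have h4 := card_le_card (union_subset h1 (sdiff_subset : (G.vs \ W) \ fr ⊆ G.vs \ W))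
    rw [card_union_of_disjoint h2] at h4
    omega
  refine h.no_t1_core hc hWo h3 (by omega) hdis hrd hj1 hj2 (Or.inl hfr2)
    (h.fcC hc hWo h3 hc1) (h.fcB hc h3) fun f hf hfF hzf => ?_
  by_cases hK : ∀ A, G.AdmZ fr F W A → G.pi g1 ∈ A → Odd A.card → G.nj F A ≠ 1
  · exact h.inT1_F hc hWo h3 hdis hrd hj1 hf hfF (Or.inr ⟨hfr2, hU4⟩) hK
  push Not at hK
  obtain ⟨A, hA, hgA, hAo, hnj⟩ := hK
  obtain ⟨hcA, h3A⟩ := hc.part hF hw hA hgA hnj
  by_cases hA1 : A.card = 1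
  · obtain ⟨c, hcA1⟩ := card_eq_one.1 hA1
    have e1 : G.pi g1 = c := by
      rw [hcA1, mem_singleton] at hgA
      exact hgA
    have e2 : G.pi g2 = c := by
      have h5 := hcA.w2
      rw [hcA1, mem_singleton] at h5
      exact h5
    have hne : G.pi j ≠ G.pi g1 := by
      intro h5
      have e3 : G.pi j = c := h5.trans e1
      have hall := hF.at_fresh (c := c) (e3 ▸ hj1) (notMem_empty _) hc.f1 hc.f2 hc.ne e1 e2 hjd e3
        hjF
      have hne : (W.erase c).Nonempty := by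
        rw [← card_pos]
        have h1 := pred_card_le_card_erase (s := W) (a := c)
        omega
      obtain ⟨d, hd, -⟩ := h.conn ((erase_subset _ _).trans hW) hne (by
        intro h1
        have h2 : G.pi (G.al g1) ∈ W.erase c := by
          rw [h1]
          exact G.pi_mem _ (G.al_mem g1 hg1d)
        exact hc.u1 (mem_erase.1 h2).2)
      obtain ⟨d1, d2, d3⟩ := mem_bd.1 hd
      obtain ⟨d4, d5⟩ := mem_erase.1 d2
      have d7 := G.al_mem d d1
      have d8 := G.al_al d d1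
      by_cases d9 : G.pi (G.al d) = c
      · have key : ∀ e, e ∈ G.ds → G.al d = e → G.pi (G.al e) ∉ W → False := by
          intro e he k k2
          rw [← k, d8] at k2
          exact k2 d5
        rcases hall _ d7 d9 with k | k | k
        · exact key g1 hg1d k hc.u1
        · exact key g2 hg2d k hc.u2
        · exact key j hjd k hjU
      · have d10 : G.pi (G.al d) ∉ W := fun hn => d3 (mem_erase.2 ⟨d9, hn⟩)
        rcases hon d (mem_bd.2 ⟨d1, d5, d10⟩) with k | k | k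
        · exact d4 (k ▸ e1)
        · exact d4 (k ▸ e2)
        · exact d4 (k ▸ e3)
    refine h.inT1_S hc hWo h3 hdis hrd hj1 hf hfF hzf (e1.trans e2.symm) hne ?_
    intro X hX hXW he hjX hcard
    have hXs := hX.sub.trans hF.fsub
    refine h.no_c2 (Z := X) (e := j) ⟨hXs, he, ?_, hjd, hjX, fun h5 => hjU (hXW h5), hzj,
      hX.clo⟩ (Or.inr ⟨G.pi j, mem_inter.2 ⟨hj1, hjX⟩⟩)
      (Or.inr ⟨G.pi (G.al j), mem_sdiff.2 ⟨hj2, fun h5 => hjU (hXW h5)⟩⟩)
    have h6 := hF.sum_t hw hX.sub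
    rw [inter_empty, card_empty, Nat.cast_zero] at h6
    have h7 : ∑ d ∈ G.bd X, z d = (G.bd X).card := by
      rw [sum_congr rfl (g := fun _ => (1 : ℝ)), sum_const, nsmul_eq_mul, mul_one]
      intro d hd
      obtain ⟨h8, h9, -⟩ := mem_bd.1 hd
      exact hF.unit d h8 (hX.sub h9)
    unfold val
    rw [h6, h7, hcard]
    norm_num
  · exfalso
    obtain ⟨j', hj'⟩ := card_eq_one.1 (hnj : ((G.bd A).filter fun d => d ∉ F).card = 1)
    have hA3 : 3 ≤ A.card := by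
      obtain ⟨k, hk⟩ := hAo
      omega
    refine h.no_fcK (j := j') hcA hAo h3A hA3 hA.sub hj' ?_
    exact hfr2.trans (card_le_card (sdiff_subset_sdiff subset_rfl hA.subZ))

/-- the third unit of a tight set is not a fresh-fresh J-edge -/
theorem MCI.no_ff [Infinite V] [Infinite D] (h : G.MCI z t fr F ∅ ∅ ep 0)
    (hc : G.FC F W g1 g2) (hWo : Odd W.card) (h3 : G.val z t W = 3)
    (hc1 : 3 ≤ W.card) (hc2 : 3 ≤ (G.vs \ W).card) (hjb : j ∈ G.bd W) (hjF : j ∉ F)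
    (hj1 : G.pi j ∈ fr) (hj2 : G.pi (G.al j) ∈ fr) : False := by
  have hF := h.inst.fresh
  have hw := h.inst.wt
  have hS : ∀ d ∈ G.ds.filter (fun d => z d = 0), G.al d ∈ G.ds.filter (fun d => z d = 0) := by
    intro d hd
    obtain ⟨h1, h2⟩ := mem_filter.1 hd
    exact mem_filter.2 ⟨G.al_mem d h1, by rw [hw.sym d h1]; exact h2⟩
  have h0 : ∀ d ∈ G.ds.filter (fun d => z d = 0), z d = 0 := fun d hd => (mem_filter.1 hd).2
  have hh := h.del0 hS h0
  have hds : ∀ d, d ∈ (G.delG _ hS).ds ↔ d ∈ G.ds ∧ d ∉ G.ds.filter (fun d => z d = 0) :=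
    fun d => mem_sdiff
  obtain ⟨hjd, hjW, hjU⟩ := mem_bd.1 hjb
  have hzj := hF.unit j hjd hj1
  refine hh.no_ff0 (W := W) (g1 := g1) (g2 := g2) (j := j) ?_ ?_ hWo ?_ hc1 hc2 ?_ hjF hj1 hj2
  · intro d hd h5
    obtain ⟨h6, h7⟩ := (hds d).1 hd
    exact h7 (mem_filter.2 ⟨h6, h5⟩)
  · exact ⟨hc.hW, hc.ne, hc.f1, hc.f2, hc.w1, hc.w2, hc.u1, hc.u2, hc.only⟩
  · have h1 : ∑ d ∈ (G.delG _ hS).bd W, z d = ∑ d ∈ G.bd W, z d := by
      refine sum_subset ?_ ?_
      · intro d hd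
        obtain ⟨h1, h2⟩ := mem_bd.1 hd
        exact mem_bd.2 ⟨((hds d).1 h1).1, h2⟩
      · intro d hd hn
        obtain ⟨h1, h2⟩ := mem_bd.1 hd
        by_contra h3
        exact hn (mem_bd.2 ⟨(hds d).2 ⟨h1, fun h4 => h3 (h0 d h4)⟩, h2⟩)
    unfold val at h3 ⊢
    rw [h1]
    exact h3
  · refine mem_bd.2 ⟨(hds j).2 ⟨hjd, fun h5 => ?_⟩, hjW, hjU⟩
    rw [h0 j h5] at hzj
    norm_num at hzj

end MG

end RH
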