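import Pool.Agent.Lib.RH.SCapS
import Pool.Agent.Lib.RH.I4Cap

/-! Tight sets with star, class I4 (helper87; copy of SCapS). -/

set_option autoImplicit false

namespace RH

open Finset Classical

namespace MG

variable {V D : Type*}

variable {G : MG V D} {z : D → ℝ} {t : V → ℝ} {fr : Finset V} {F : Finset D} {jm sx : Finset V}
variable {ep : V → ℕ} {m : ℕ} {W Y Z A X B : Finset V} {f j : D} {S : Finset D}
variable {g1 g2 : D} {M : Finset D}

/-- condition (C) of the gluing theorems with star -/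
theorem MCI.fcCS (h : G.MCI z t fr F jm sx ep m) (hat : ∀ y, ¬ G.Atom t fr W y)
    (hW : W ⊆ G.vs) (htW : ∑ v ∈ W, t v ≤ 1) (hBW : B ⊆ W) (hc : G.FC F B g1 g2)
    (hBo : Odd B.card) (hc1 : 3 ≤ B.card) :
    ∀ A, G.AdmZ fr F (G.vs \ B) A → G.pi (G.al g1) ∈ A → Even A.card →
      G.val z t (A ∪ B) ≠ 3 := by
  intro A hA hg he hv
  have hF := h.inst.fresh
  have hw := h.inst.wt
  have hd : Disjoint A B := by
    rw [disjoint_left]
    intro v hv
    exact (mem_sdiff.1 (hA.subZ hv)).2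
  have hg2 : G.pi (G.al g2) ∈ A := ((hc.symm hF).both hF hA).1 hg
  have hX : A ∪ B ⊆ G.vs := union_subset (hA.sub.trans hF.fsub) hc.hW
  have hXo : Odd (A ∪ B).card := by
    rw [card_union_of_disjoint hd]
    exact he.add_odd hBo
  have hX1 : 3 ≤ (A ∪ B).card := hc1.trans (card_le_card subset_union_right)
  have htau := h.tau_ge
  rcases hw.tight_cases h.inst.even hX hXo hv with ⟨v, -, h4⟩ | ⟨y, h4, h5, h6⟩ | ⟨h4, h5⟩
  · rw [h4, card_singleton] at hX1
    omega
  · have hyX : y ∉ A ∪ B := by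
      rw [h6, mem_sdiff, mem_singleton, not_and, not_not]
      exact fun _ => rfl
    refine hat y ⟨h4, fun k => ?_, fun k => ?_, fun v hv k1 k2 => ?_, h5⟩
    · have := hF.t_fr_le hw k
      linarith
    · have := single_le_sum (f := t) (s := W) (fun v hv => hw.t0 v (hW hv)) k
      linarith
    · have k3 : v ∈ A ∪ B := by
        rw [h6]
        exact mem_sdiff.2 ⟨hv, fun k4 => k2 (mem_singleton.1 k4)⟩
      rcases mem_union.1 k3 with k4 | k4
      · exact hA.sub k4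
      · exact absurd (hBW k4) k1
  · refine h.no_tight hX hXo hv h4 h5 fun d hdF hp => ?_
    have hds := hF.Fsub hdF
    have hpv := G.pi_mem _ (G.al_mem d hds)
    by_contra hn
    rw [mem_union, not_or] at hn
    rcases mem_union.1 hp with h6 | h6
    · exact hn.1 (hA.clo d hdF h6 (mem_sdiff.2 ⟨hpv, hn.2⟩))
    · rcases hc.only d hdF h6 hn.2 with h7 | h7
      · exact hn.1 (h7 ▸ hg)
      · exact hn.1 (h7 ▸ hg2)

/-- condition (B) of the gluing theorems with star -/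
theorem MCI.fcBS (h : G.MCI z t fr F jm sx ep m) (hjc : jm.card ≤ 2) (hc : G.FC F B g1 g2)
    (h3 : G.val z t B = 3) :
    ∀ A, G.AdmZ fr F (G.vs \ B) A → G.pi (G.al g1) ∈ A → Odd A.card → G.bd (A ∪ B) ≠ ∅ := by
  intro A hA hg ho hb
  have hF := h.inst.fresh
  have hw := h.inst.wt
  have hd : Disjoint A B := by
    rw [disjoint_left]
    intro v hv
    exact (mem_sdiff.1 (hA.subZ hv)).2
  have hX : A ∪ B ⊆ G.vs := union_subset (hA.sub.trans hF.fsub) hc.hW
  by_cases he : A ∪ B = G.vs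
  · have htA := hF.sum_t hw hA.sub
    have h4 : ((A ∩ jm).card : ℝ) ≤ 2 := by
      exact_mod_cast (card_le_card inter_subset_right).trans hjc
    have htW := hc.t_le hF hw h3
    have htau := h.tau_ge
    rw [← he, sum_union hd] at htau
    linarith
  · obtain ⟨d, h1, h2⟩ := h.conn hX ⟨G.pi g1, mem_union_right _ hc.w1⟩ he
    rw [hb] at h1
    exact notMem_empty d h1

/-- no tight set of fresh vertices -/
theorem MCI.no_fcKS [Infinite V] [Infinite D] (h : G.MCI z t fr F jm sx ep 0) (hc : G.FC F A g1 g2)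
    (hat : ∀ y, ¬ G.Atom t fr W y) (hW : W ⊆ G.vs) (htW : ∑ v ∈ W, t v ≤ 1) (hAW : A ⊆ W)
    (hdis : Disjoint jm A) (hjc : jm.card = 2)
    (hAo : Odd A.card) (h3 : G.val z t A = 3) (hc1 : 3 ≤ A.card) (hAf : A ⊆ fr)
    (hrd : rd G F A = {j}) (hs : 2 ≤ (fr \ A).card) : False := by
  have hF := h.inst.fresh
  have hjrd : j ∈ rd G F A := by rw [hrd]; exact mem_singleton_self j
  obtain ⟨hjb, hjF⟩ := mem_filter.1 hjrd
  obtain ⟨hjd, hjA, hjn⟩ := mem_bd.1 hjb
  have hUc : 2 ≤ (G.vs \ A).card :=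
    hs.trans (card_le_card (sdiff_subset_sdiff hF.fsub subset_rfl))
  by_cases hj2 : G.pi (G.al j) ∈ fr
  · exact h.no_t1_core hc hAo h3 (by omega) hdis hrd (hAf hjA) hj2 (Or.inl hs)
      (h.fcCS hat hW htW hAW hc hAo hc1) (h.fcBS hjc.le hc h3)
      fun f hf _ hz => h.inT1_K hc hAo h3 hAf hUc hdis hrd hf hz
  · refine h.no_t2 hc hAo h3 hdis ?_ (Or.inl ?_) (Or.inl hs) (h.fcCS hat hW htW hAW hc hAo hc1)
    · rintro d hd hdF ⟨-, h5⟩
      have h6 : d ∈ rd G F A := mem_filter.2 ⟨hd, hdF⟩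
      rw [hrd, mem_singleton] at h6
      exact hj2 (h6 ▸ h5)
    · rw [inter_eq_right.2 hAf]
      omega

/-- the third unit of a tight set is not a fresh-fresh J-edge (no zero darts) -/
theorem MCI.no_ffS0 [Infinite V] [Infinite D] (h : G.MCI z t fr F jm sx ep 0)
    (hz : ∀ d ∈ G.ds, z d ≠ 0) (hc : G.FC F W g1 g2) (hWo : Odd W.card) (h3 : G.val z t W = 3)
    (hc1 : 3 ≤ W.card) (hc2 : 3 ≤ (G.vs \ W).card) (hjb : j ∈ G.bd W) (hjF : j ∉ F)
    (hj1 : G.pi j ∈ fr) (hj2 : G.pi (G.al j) ∈ fr) (hdis : Disjoint jm W) (hjc : jm.card = 2)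
    (hat : ∀ y, ¬ G.Atom t fr W y) : False := by
  have hF := h.inst.fresh
  have hw := h.inst.wt
  have hW := hc.hW
  obtain ⟨hjd, hjW, hjU⟩ := mem_bd.1 hjb
  have hajd := G.al_mem j hjd
  have haj := G.al_al j hjd
  have hzj := hF.unit j hjd hj1
  have hjrd : j ∈ rd G F W := mem_filter.2 ⟨hjb, hjF⟩
  have hthird := hc.third hF h3
  change ∑ d ∈ rd G F W, z d + _ = 1 at hthird
  have hadd := add_sum_erase (rd G F W) z hjrd
  have hn1 : 0 ≤ ∑ d ∈ (rd G F W).erase j, z d :=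
    sum_nonneg fun d hd => hw.z0 d (mem_bd.1 (mem_filter.1 (mem_erase.1 hd).2).1).1
  have hn2 : 0 ≤ ∑ v ∈ W, t v := sum_nonneg fun v hv => hw.t0 v (hW hv)
  have htW : ∑ v ∈ W, t v = 0 := by linarith
  have hrd : rd G F W = {j} := by
    rw [eq_singleton_iff_unique_mem]
    refine ⟨hjrd, fun d hd => ?_⟩
    by_contra hne
    have h5 := single_le_sum (f := z) (s := (rd G F W).erase j)
      (fun d hd => hw.z0 d (mem_bd.1 (mem_filter.1 (mem_erase.1 hd).2).1).1)
      (mem_erase.2 ⟨hne, hd⟩)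
    have h6 := (mem_bd.1 (mem_filter.1 hd).1).1
    have h7 := hw.z0 d h6
    exact hz d h6 (by linarith)
  have hon : ∀ d ∈ G.bd W, d = g1 ∨ d = g2 ∨ d = j := by
    intro d hd
    by_cases h1 : d ∈ F
    · rcases hc.only d h1 (mem_bd.1 hd).2.1 (mem_bd.1 hd).2.2 with h2 | h2
      · exact Or.inl h2
      · exact Or.inr (Or.inl h2)
    · have h2 : d ∈ rd G F W := mem_filter.2 ⟨hd, h1⟩
      rw [hrd, mem_singleton] at h2
      exact Or.inr (Or.inr h2)
  have hg1d := hF.Fsub hc.f1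
  have hg2d := hF.Fsub hc.f2
  -- three fresh vertices outside
  have hfr3 : 3 ≤ (fr \ W).card := by
    have h1 : insert (G.pi (G.al j)) jm ⊆ fr \ W := by
      intro v hv
      rcases mem_insert.1 hv with rfl | hv
      · exact mem_sdiff.2 ⟨hj2, hjU⟩
      · exact mem_sdiff.2 ⟨hF.jms hv, fun h2 => disjoint_left.1 hdis hv h2⟩
    have h2 := card_le_card h1
    rw [card_insert_of_notMem, hjc] at h2
    · exact h2
    · intro h4
      have h5 := hF.j0 _ h4 (G.al j) (mem_st.2 ⟨hajd, rfl⟩)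
      exact hjF (by rw [← haj]; exact hF.Fal _ h5)
  have hfr2 : 2 ≤ (fr \ W).card := by omega
  refine h.no_t1_core hc hWo h3 (by omega) hdis hrd hj1 hj2 (Or.inl hfr2)
    (h.fcCS hat hW (by rw [htW]; norm_num) Subset.rfl hc hWo hc1)
    (h.fcBS hjc.le hc h3) fun f hf hfF hzf => ?_
  by_cases hK : ∀ A, G.AdmZ fr F W A → G.pi g1 ∈ A → Odd A.card → G.nj F A ≠ 1
  · exact h.inT1_F hc hWo h3 hdis hrd hj1 hf hfF (Or.inl hfr3) hK
  push Not at hK
  obtain ⟨A, hA, hgA, hAo, hnj⟩ := hK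
  obtain ⟨hcA, h3A⟩ := hc.partS hF hdis hw hA hgA hnj
  by_cases hA1 : A.card = 1
  · obtain ⟨c, hcA1⟩ := card_eq_one.1 hA1
    have e1 : G.pi g1 = c := by
      rw [hcA1, mem_singleton] at hgA
      exact hgA
    have e2 : G.pi g2 = c := by
      have h5 := hcA.w2
      rw [hcA1, mem_singleton] at h5
      exact h5
    have hne : G.pi j ≠ G.pi g1 := by
      intro h5
      have e3 : G.pi j = c := h5.trans e1
      have hall := hF.at_fresh (c := c) (e3 ▸ hj1)
        (fun k => disjoint_left.1 hdis k (e3 ▸ hjW)) hc.f1 hc.f2 hc.ne e1 e2 hjd e3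
        hjF
      have hne : (W.erase c).Nonempty := by
        rw [← card_pos]
        have h1 := pred_card_le_card_erase (s := W) (a := c)
        omega
      obtain ⟨d, hd, -⟩ := h.conn ((erase_subset _ _).trans hW) hne (by
        intro h1
        have h2 : G.pi (G.al g1) ∈ W.erase c := by
          rw [h1]
          exact G.pi_mem _ (G.al_mem g1 hg1d)
        exact hc.u1 (mem_erase.1 h2).2)
      obtain ⟨d1, d2, d3⟩ := mem_bd.1 hd
      obtain ⟨d4, d5⟩ := mem_erase.1 d2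
      have d7 := G.al_mem d d1
      have d8 := G.al_al d d1
      by_cases d9 : G.pi (G.al d) = c
      · have key : ∀ e, e ∈ G.ds → G.al d = e → G.pi (G.al e) ∉ W → False := by
          intro e he k k2
          rw [← k, d8] at k2
          exact k2 d5
        rcases hall _ d7 d9 with k | k | k
        · exact key g1 hg1d k hc.u1
        · exact key g2 hg2d k hc.u2
        · exact key j hjd k hjU
      · have d10 : G.pi (G.al d) ∉ W := fun hn => d3 (mem_erase.2 ⟨d9, hn⟩)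
        rcases hon d (mem_bd.2 ⟨d1, d5, d10⟩) with k | k | k
        · exact d4 (k ▸ e1)
        · exact d4 (k ▸ e2)
        · exact d4 (k ▸ e3)
    refine h.inT1_S hc hWo h3 hdis hrd hj1 hf hfF hzf (e1.trans e2.symm) hne ?_
    intro X hX hXW he hjX hcard
    have hXs := hX.sub.trans hF.fsub
    refine h.no_c2 (Z := X) (e := j) ⟨hXs, he, ?_, hjd, hjX, fun h5 => hjU (hXW h5), hzj,
      hX.clo⟩ (Or.inr ⟨G.pi j, mem_inter.2 ⟨hj1, hjX⟩⟩)
      (Or.inr ⟨G.pi (G.al j), mem_sdiff.2 ⟨hj2, fun h5 => hjU (hXW h5)⟩⟩)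
    have h6 := hF.sum_t hw hX.sub
    rw [disjoint_iff_inter_eq_empty.1 (disjoint_of_subset_left hXW hdis.symm), card_empty,
      Nat.cast_zero] at h6
    have h7 : ∑ d ∈ G.bd X, z d = (G.bd X).card := by
      rw [sum_congr rfl (g := fun _ => (1 : ℝ)), sum_const, nsmul_eq_mul, mul_one]
      intro d hd
      obtain ⟨h8, h9, -⟩ := mem_bd.1 hd
      exact hF.unit d h8 (hX.sub h9)
    unfold val
    rw [h6, h7, hcard]
    norm_num
  · exfalso
    obtain ⟨j', hj'⟩ := card_eq_one.1 (hnj : ((G.bd A).filter fun d => d ∉ F).card = 1)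
    have hA3 : 3 ≤ A.card := by
      obtain ⟨k, hk⟩ := hAo
      omega
    refine h.no_fcKS (j := j') hcA hat hW (by rw [htW]; norm_num) hA.subZ
      (disjoint_of_subset_right hA.subZ hdis) hjc hAo h3A hA3 hA.sub hj' ?_
    exact hfr2.trans (card_le_card (sdiff_subset_sdiff subset_rfl hA.subZ))

/-- the third unit of a tight set is not a fresh-fresh J-edge -/
theorem MCI.no_ffS [Infinite V] [Infinite D] (h : G.MCI z t fr F jm sx ep 0)
    (hc : G.FC F W g1 g2) (hWo : Odd W.card) (h3 : G.val z t W = 3)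
    (hc1 : 3 ≤ W.card) (hc2 : 3 ≤ (G.vs \ W).card) (hjb : j ∈ G.bd W) (hjF : j ∉ F)
    (hj1 : G.pi j ∈ fr) (hj2 : G.pi (G.al j) ∈ fr) (hdis : Disjoint jm W) (hjc : jm.card = 2)
    (hat : ∀ y, ¬ G.Atom t fr W y) : False := by
  have hF := h.inst.fresh
  have hw := h.inst.wt
  have hS : ∀ d ∈ G.ds.filter (fun d => z d = 0), G.al d ∈ G.ds.filter (fun d => z d = 0) := by
    intro d hd
    obtain ⟨h1, h2⟩ := mem_filter.1 hd
    exact mem_filter.2 ⟨G.al_mem d h1, by rw [hw.sym d h1]; exact h2⟩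
  have h0 : ∀ d ∈ G.ds.filter (fun d => z d = 0), z d = 0 := fun d hd => (mem_filter.1 hd).2
  have hh := h.del0 hS h0
  have hds : ∀ d, d ∈ (G.delG _ hS).ds ↔ d ∈ G.ds ∧ d ∉ G.ds.filter (fun d => z d = 0) :=
    fun d => mem_sdiff
  obtain ⟨hjd, hjW, hjU⟩ := mem_bd.1 hjb
  have hzj := hF.unit j hjd hj1
  refine hh.no_ffS0 (W := W) (g1 := g1) (g2 := g2) (j := j) ?_ ?_ hWo ?_ hc1 hc2 ?_ hjF hj1 hj2
    hdis hjc fun y k => hat y ⟨k.yv, k.yf, k.yW, k.sub, k.ty⟩
  · intro d hd h5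
    obtain ⟨h6, h7⟩ := (hds d).1 hd
    exact h7 (mem_filter.2 ⟨h6, h5⟩)
  · exact ⟨hc.hW, hc.ne, hc.f1, hc.f2, hc.w1, hc.w2, hc.u1, hc.u2, hc.only⟩
  · have h1 : ∑ d ∈ (G.delG _ hS).bd W, z d = ∑ d ∈ G.bd W, z d := by
      refine sum_subset ?_ ?_
      · intro d hd
        obtain ⟨h1, h2⟩ := mem_bd.1 hd
        exact mem_bd.2 ⟨((hds d).1 h1).1, h2⟩
      · intro d hd hn
        obtain ⟨h1, h2⟩ := mem_bd.1 hd
        by_contra h3
        exact hn (mem_bd.2 ⟨(hds d).2 ⟨h1, fun h4 => h3 (h0 d h4)⟩, h2⟩)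
    unfold val at h3 ⊢
    rw [h1]
    exact h3
  · refine mem_bd.2 ⟨(hds j).2 ⟨hjd, fun h5 => ?_⟩, hjW, hjU⟩
    rw [h0 j h5] at hzj
    norm_num at hzj

/-- `MCI.dig_of` with star -/
theorem MCI.dig_ofS (h : G.MCI z t fr F jm sx ep 0) (hdis : Disjoint jm W) (hc : G.FC F W g1 g2)
    (h3 : G.val z t W = 3) (hWc : W.card = 3) (hf : (fr ∩ W).card ≤ 1) :
    ∃ x p q, G.Dig z t fr W x p q := by
  have hF := h.inst.fresh
  have hw := h.inst.wt
  have hW := hc.hW
  have hg1d := hF.Fsub hc.f1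
  have hg2d := hF.Fsub hc.f2
  rw [card_le_one] at hf
  obtain ⟨x, hx⟩ : ∃ x, x = G.pi g1 := ⟨_, rfl⟩
  have hxW : x ∈ W := hx ▸ hc.w1
  have hxf : x ∈ fr := hx ▸ hF.Ffr g1 hc.f1
  have hxi : x ∈ fr ∩ W := mem_inter.2 ⟨hxf, hxW⟩
  have e2 : G.pi g2 = x := hf _ (mem_inter.2 ⟨hF.Ffr g2 hc.f2, hc.w2⟩) _ hxi
  have huniq : ∀ v ∈ W, v ≠ x → v ∉ fr := fun v hv hne h1 =>
    hne (hf v (mem_inter.2 ⟨h1, hv⟩) x hxi)
  have hxj : x ∉ jm := fun k => disjoint_left.1 hdis k hxW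
  obtain ⟨j, hjd, hjx, hjF, -⟩ := hF.exists_jd hxf hxj
  have hzj := hF.unit j hjd (hjx ▸ hxf)
  have hall := hF.at_fresh hxf hxj hc.f1 hc.f2 hc.ne hx.symm e2 hjd hjx hjF
  by_cases hJ : G.pi (G.al j) ∈ W
  · have hpx : G.pi (G.al j) ≠ x := fun h1 => G.noloop j hjd (h1.trans hjx.symm)
    obtain ⟨p, hp⟩ : ∃ p, p = G.pi (G.al j) := ⟨_, rfl⟩
    rw [← hp] at hJ hpx
    have hc1 : ((W.erase x).erase p).card = 1 := by
      rw [card_erase_of_mem (mem_erase.2 ⟨hpx, hJ⟩), card_erase_of_mem hxW, hWc]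
    obtain ⟨q, hq⟩ := card_eq_one.1 hc1
    have hqm : q ∈ (W.erase x).erase p := by rw [hq]; exact mem_singleton_self q
    obtain ⟨hqp, hq2⟩ := mem_erase.1 hqm
    obtain ⟨hqx, hqW⟩ := mem_erase.1 hq2
    have hWe : W = {x, p, q} := by
      rw [← insert_erase hxW, ← insert_erase (mem_erase.2 ⟨hpx, hJ⟩), hq]
    have hxq : ∀ d ∈ G.ds, G.pi d = x → G.pi (G.al d) ≠ q := by
      intro d hd hpd h1
      rcases hall d hd hpd with k | k | k
      · exact hc.u1 (by rw [← k, h1]; exact hqW)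
      · exact hc.u2 (by rw [← k, h1]; exact hqW)
      · exact hqp (by rw [← h1, k, hp])
    have h5 := hw.val_eq hW
    rw [h3, hWc] at h5
    have h6 : ∑ d ∈ G.ed W W, z d = 2 * ∑ d ∈ G.ed {p} W, z d := by
      refine ed_center hw.sym hJ ?_
      intro d hd h1 h2 h3 h4
      exfalso
      rw [hWe, mem_insert, mem_insert, mem_singleton] at h1 h2
      have hne := G.noloop d hd
      have haa := G.al_al d hd
      have had := G.al_mem d hd
      rcases h1 with h1 | h1 | h1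
      · rcases h2 with h2 | h2 | h2
        · exact hne (h2.trans h1.symm)
        · exact h4 h2
        · exact hxq d hd h1 h2
      · exact h3 h1
      · rcases h2 with h2 | h2 | h2
        · exact hxq (G.al d) had h2 (by rw [haa]; exact h1)
        · exact h4 h2
        · exact hne (h2.trans h1.symm)
    have h7 : ∑ d ∈ G.ed {p} W, z d = 3 := by
      push_cast at h5
      linarith
    have h8 := hw.deg p (hW hJ)
    have h9 := hw.t0 p (hW hJ)
    have h10 : G.ed {p} W ⊆ G.st p := by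
      intro d hd
      obtain ⟨k1, k2, -⟩ := mem_ed.1 hd
      exact mem_st.2 ⟨k1, mem_singleton.1 k2⟩
    have h11 := sum_le_sum_of_subset_of_nonneg (f := z) h10
      (fun d hd _ => hw.z0 d (mem_st.1 hd).1)
    refine ⟨x, p, q, hxf, huniq p hJ hpx, huniq q hqW hqx, Ne.symm hqp, hWe,
      ⟨j, hjd, hjx, hp.symm⟩, hxq, ?_, by linarith⟩
    intro d hd hpd hz
    have h12 : G.pi (G.al d) ∈ W := by
      by_contra hn
      have h13 : insert d (G.ed {p} W) ⊆ G.st p :=
        insert_subset (mem_st.2 ⟨hd, hpd⟩) h10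
      have h14 := sum_le_sum_of_subset_of_nonneg (f := z) h13
        (fun d hd _ => hw.z0 d (mem_st.1 hd).1)
      rw [sum_insert fun h15 => hn (mem_ed.1 h15).2.2] at h14
      have h15 := hw.z0 d hd
      exact hz (by linarith)
    rw [hWe, mem_insert, mem_insert, mem_singleton] at h12
    rcases h12 with k | k | k
    · exact Or.inl k
    · exact absurd (k.trans hpd.symm) (G.noloop d hd)
    · exact Or.inr k
  · exfalso
    have hjb : j ∈ G.bd W := mem_bd.2 ⟨hjd, hjx ▸ hxW, hJ⟩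
    have hne : (W.erase x).Nonempty := by
      rw [← card_pos, card_erase_of_mem hxW, hWc]
      norm_num
    obtain ⟨d, hd, hz⟩ := h.conn ((erase_subset _ _).trans hW) hne (by
      intro h1
      have h2 : G.pi (G.al g1) ∈ W.erase x := by
        rw [h1]
        exact G.pi_mem _ (G.al_mem g1 hg1d)
      exact hc.u1 (mem_erase.1 h2).2)
    obtain ⟨d1, d2, d3⟩ := mem_bd.1 hd
    obtain ⟨d4, d5⟩ := mem_erase.1 d2
    have d7 := G.al_mem d d1
    have d8 := G.al_al d d1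
    by_cases d9 : G.pi (G.al d) = x
    · have key : ∀ e, G.al d = e → G.pi (G.al e) ∉ W → False := by
        intro e k k2
        rw [← k, d8] at k2
        exact k2 d5
      rcases hall _ d7 d9 with k | k | k
      · exact key g1 k hc.u1
      · exact key g2 k hc.u2
      · exact key j k hJ
    · have d10 : G.pi (G.al d) ∉ W := fun hn => d3 (mem_erase.2 ⟨d9, hn⟩)
      have d11 : d ∉ F := by
        intro k
        rcases hc.only d k d5 d10 with k | k
        · exact d4 (k ▸ hx.symm)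
        · exact d4 (k ▸ e2)
      refine hz (hc.unit_only hF hw h3 hjb hjF hzj (mem_bd.2 ⟨d1, d5, d10⟩) d11 ?_)
      rintro rfl
      exact d4 hjx

/-- THE LIST of the nontrivial tight sets of a minimal counterexample with star -/
theorem MCI.tight_star [Infinite V] [Infinite D] (h : G.MCI z t fr F jm sx ep 0)
    (hjc : jm.card = 2) (hW : W ⊆ G.vs) (hWo : Odd W.card) (h3 : G.val z t W = 3)
    (hc1 : 3 ≤ W.card) (hc2 : 3 ≤ (G.vs \ W).card) :
    (∃ x p q, G.Dig z t fr W x p q) ∨ ∃ y, G.Atom t fr W y := by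
  by_cases hat : ∃ y, G.Atom t fr W y
  · exact Or.inr hat
  left
  push Not at hat
  obtain ⟨g1, g2, hc⟩ := h.exists_fc hW hWo h3 hc1 hc2
  have hF := h.inst.fresh
  have hw := h.inst.wt
  have htW := hc.t_le hF hw h3
  have hC := h.fcCS hat hW htW Subset.rfl hc hWo hc1
  have hB := h.fcBS hjc.le hc h3
  by_cases hdis : Disjoint jm W
  · by_cases hff : ∀ d ∈ G.bd W, d ∉ F → ¬ (G.pi d ∈ fr ∧ G.pi (G.al d) ∈ fr)
    · have hs2 : 2 ≤ (fr \ W).card := by
        rw [← hjc]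
        exact card_le_card fun v hv => mem_sdiff.2 ⟨hF.jms hv, fun k => disjoint_left.1 hdis hv k⟩
      by_cases hs1 : 2 ≤ (fr ∩ W).card ∨ 4 ≤ W.card
      · exact (h.no_t2 hc hWo h3 hdis hff hs1 (Or.inl hs2) hC).elim
      · rw [not_or] at hs1
        exact h.dig_ofS hdis hc h3 (by omega) (by omega)
    · push Not at hff
      obtain ⟨j, h4, h5, h6, h7⟩ := hff
      exact (h.no_ffS hc hWo h3 hc1 hc2 h4 h5 h6 h7 hdis hjc hat).elim
  · exfalso
    rw [not_disjoint_iff] at hdis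
    obtain ⟨x, hxj, hxW⟩ := hdis
    have htx := hF.t_jm hw hxj
    have h4 := add_sum_erase W t hxW
    have h5 : 0 ≤ ∑ v ∈ W.erase x, t v :=
      sum_nonneg fun v hv => hw.t0 v (hW (mem_erase.1 hv).2)
    have hjW : (jm ∩ W).card = 1 := by
      rw [card_eq_one]
      refine ⟨x, ?_⟩
      rw [eq_singleton_iff_unique_mem]
      refine ⟨mem_inter.2 ⟨hxj, hxW⟩, fun v hv => ?_⟩
      obtain ⟨h6, h7⟩ := mem_inter.1 hv
      by_contra hne
      have h8 := single_le_sum (f := t) (s := W.erase x)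
        (fun v hv => hw.t0 v (hW (mem_erase.1 hv).2)) (mem_erase.2 ⟨hne, h7⟩)
      rw [hF.t_jm hw h6] at h8
      linarith
    have hthird := hc.third hF h3
    -- delete the zero darts
    have hS : ∀ d ∈ G.ds.filter (fun d => z d = 0), G.al d ∈ G.ds.filter (fun d => z d = 0) := by
      intro d hd
      obtain ⟨h1, h2⟩ := mem_filter.1 hd
      exact mem_filter.2 ⟨G.al_mem d h1, by rw [hw.sym d h1]; exact h2⟩
    have h0 : ∀ d ∈ G.ds.filter (fun d => z d = 0), z d = 0 := fun d hd => (mem_filter.1 hd).2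
    have hh := h.del0 hS h0
    have hds : ∀ d, d ∈ (G.delG _ hS).ds ↔ d ∈ G.ds ∧ d ∉ G.ds.filter (fun d => z d = 0) :=
      fun d => mem_sdiff
    have hc' : (G.delG _ hS).FC F W g1 g2 :=
      ⟨hc.hW, hc.ne, hc.f1, hc.f2, hc.w1, hc.w2, hc.u1, hc.u2, hc.only⟩
    have h3' : (G.delG _ hS).val z t W = 3 := by
      have h1 : ∑ d ∈ (G.delG _ hS).bd W, z d = ∑ d ∈ G.bd W, z d := by
        refine sum_subset ?_ ?_
        · intro d hd
          obtain ⟨h1, h2⟩ := mem_bd.1 hd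
          exact mem_bd.2 ⟨((hds d).1 h1).1, h2⟩
        · intro d hd hn
          obtain ⟨h1, h2⟩ := mem_bd.1 hd
          by_contra h3
          exact hn (mem_bd.2 ⟨(hds d).2 ⟨h1, fun h4 => h3 (h0 d h4)⟩, h2⟩)
      unfold val at h3 ⊢
      rw [h1]
      exact h3
    have hat' : ∀ y, ¬ (G.delG _ hS).Atom t fr W y := fun y k =>
      hat y ⟨k.yv, k.yf, k.yW, k.sub, k.ty⟩
    refine hh.no_t1' hc' hWo h3' (by omega) (by change 2 ≤ (G.vs \ W).card; omega) hjW ?_
      (hh.fcCS hat' hW htW Subset.rfl hc' hWo hc1) (hh.fcBS hjc.le hc' h3')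
    rw [eq_empty_iff_forall_notMem]
    intro d hd
    obtain ⟨h6, h7⟩ := mem_filter.1 hd
    obtain ⟨h8, h9, h10⟩ := mem_bd.1 h6
    obtain ⟨h11, h12⟩ := (hds d).1 h8
    refine h12 (mem_filter.2 ⟨h11, ?_⟩)
    have h13 : d ∈ (G.bd W).filter fun d => d ∉ F := mem_filter.2 ⟨mem_bd.2 ⟨h11, h9, h10⟩, h7⟩
    have h14 := single_le_sum (f := z) (s := (G.bd W).filter fun d => d ∉ F)
      (fun d hd => hw.z0 d (mem_bd.1 (mem_filter.1 hd).1).1) h13
    have h15 := hw.z0 d h11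
    linarith

/-- the list in all cases -/
theorem MCI.tight_all [Infinite V] [Infinite D] (h : G.MCI z t fr F jm sx ep 0)
    (hW : W ⊆ G.vs) (hWo : Odd W.card) (h3 : G.val z t W = 3)
    (hc1 : 3 ≤ W.card) (hc2 : 3 ≤ (G.vs \ W).card) :
    (∃ x p q, G.Dig z t fr W x p q) ∨ (∃ u a b, G.Cap z t fr W u a b) ∨
      ∃ y, G.Atom t fr W y := by
  have hsx := h.inst.sx_eq
  subst hsx
  rcases h.inst.jm2 with hj | hj
  · subst hj
    rcases h.tight_list hW hWo h3 hc1 hc2 with h4 | h4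
    · exact Or.inl h4
    · exact Or.inr (Or.inl h4)
  · rcases h.tight_star hj hW hWo h3 hc1 hc2 with h4 | h4
    · exact Or.inl h4
    · exact Or.inr (Or.inr h4)

/-- the list in all cases, all weights -/
theorem MCI.tightAll [Infinite V] [Infinite D] (h : G.MCI z t fr F jm sx ep 0) {z' : D → ℝ}
    {t' : V → ℝ} (ha : G.Alt z fr z' t') (hz : ∀ d ∈ G.ds, ∃ n : ℕ, z' d = n)
    (hW : W ⊆ G.vs) (hWo : Odd W.card)
    (h3 : G.val z' t' W = 3) (hc1 : 3 ≤ W.card) (hc2 : 3 ≤ (G.vs \ W).card) :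
    (∃ x p q, G.Dig z' t' fr W x p q) ∨ (∃ u a b, G.Cap z' t' fr W u a b) ∨
      ∃ y, G.Atom t' fr W y :=
  (h.alt ha hz).1.tight_all hW hWo h3 hc1 hc2

end MG

end RH
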