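import Pool.Agent.Lib.RH.I4GlueJ
import Pool.Agent.Lib.RH.SSolve
import Pool.Agent.Lib.RH.SOps

/-! The class `Int4` (helper78): integral weights are enough. The tokens are then integral, their
sum is even, and less than 6 means at most 4. -/

set_option autoImplicit false

namespace RH

open Finset Classical

namespace MG

variable {V D : Type*} {G : MG V D} {z : D → ℝ} {t : V → ℝ}

theorem nat_of_int {x : ℝ} {n : ℤ} (h : x = n) (h0 : 0 ≤ x) : ∃ k : ℕ, x = k := by
  have h1 : (0 : ℤ) ≤ n := by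
    rw [h] at h0
    exact_mod_cast h0
  obtain ⟨k, hk⟩ := Int.eq_ofNat_of_zero_le h1
  exact ⟨k, by rw [h, hk]; norm_num⟩

/-- symmetric natural weights have an even sum over all darts -/
theorem even_sum_ds (hs : ∀ d ∈ G.ds, z (G.al d) = z d) (hz : ∀ d ∈ G.ds, ∃ n : ℕ, z d = n) :
    ∃ k : ℕ, ∑ d ∈ G.ds, z d = 2 * (k : ℝ) := by
  choose! g hg using hz
  have h1 : ((∑ d ∈ G.ds, g d : ℕ) : ZMod 2) = 0 := by
    push_cast
    refine Finset.sum_involution (fun d _ => G.al d) ?_ ?_ ?_ ?_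
    · intro d hd
      have h2 : g (G.al d) = g d := by
        have h3 := hs d hd
        rw [hg _ (G.al_mem d hd), hg d hd] at h3
        exact_mod_cast h3
      rw [h2]
      exact CharTwo.add_self_eq_zero _
    · intro d hd _ h2
      have h3 := G.noloop d hd
      rw [h2] at h3
      exact h3 rfl
    · intro d hd
      exact G.al_mem d hd
    · intro d hd
      exact G.al_al d hd
  obtain ⟨k, hk⟩ := even_iff_exists_two_mul.1 ((ZMod.natCast_eq_zero_iff_even).1 h1)
  refine ⟨k, ?_⟩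
  rw [sum_congr rfl hg]
  exact_mod_cast hk

theorem Int4.of_zi (he : Even G.vs.card) (hw : G.Wt z t) (ht : ∑ v ∈ G.vs, t v < 6)
    (hz : ∀ d ∈ G.ds, ∃ n : ℕ, z d = n) : Int4 G z t where
  zi := hz
  ti := fun v hv => by
    obtain ⟨n, hn⟩ := nat_sum (s := G.st v) (f := z) fun d hd => hz d (mem_st.1 hd).1
    have h1 := hw.deg v hv
    rw [hn] at h1
    exact nat_of_int (n := 3 - n) (by push_cast; linarith) (hw.t0 v hv)
  tau := by
    obtain ⟨k, hk⟩ := even_sum_ds hw.sym hz
    obtain ⟨l, hl⟩ := he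
    have h1 : ∑ v ∈ G.vs, (∑ d ∈ G.st v, z d + t v) = 3 * (G.vs.card : ℝ) := by
      rw [sum_congr rfl hw.deg, sum_const, nsmul_eq_mul, mul_comm]
    have h2 : ∑ v ∈ G.vs, ∑ d ∈ G.st v, z d = ∑ d ∈ G.ds, z d := by
      unfold MG.st
      rw [← sum_fiberwise_of_maps_to (s := G.ds) (t := G.vs) (g := G.pi) (fun d hd => G.pi_mem d hd)]
    rw [sum_add_distrib, h2, hk, hl] at h1
    have h3 : ∑ v ∈ G.vs, t v = ((2 * (3 * (l : ℤ) - k) : ℤ) : ℝ) := by
      push_cast at h1 ⊢
      linarith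
    rw [h3] at ht ⊢
    have h4 : 2 * (3 * (l : ℤ) - k) < 6 := by exact_mod_cast ht
    have h5 : 2 * (3 * (l : ℤ) - k) ≤ 4 := by omega
    exact_mod_cast h5

/-- every instance with integral weights is in the class -/
theorem Int4.of_inst {fr : Finset V} {F : Finset D} {jm sx : Finset V} {ep : V → ℕ} {m : ℕ}
    (h : G.InstS z t fr F jm sx ep m) (hz : ∀ d ∈ G.ds, ∃ n : ℕ, z d = n) : Int4 G z t :=
  Int4.of_zi h.even h.wt h.tau hz

/-- every raw instance with integral weights is in the class -/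
theorem Int4.of_raw {fr : Finset V} {F : Finset D} {jm B : Finset V} {m : ℕ}
    (h : G.RawI z t fr F jm B m) (hz : ∀ d ∈ G.ds, ∃ n : ℕ, z d = n) : Int4 G z t :=
  Int4.of_zi h.even h.wt h.tau hz

end MG

end RH
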