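import Pool.Agent.Lib.RH.SGlue

/-! Gluing of J-bounded tight sets with one star, for an induction hypothesis that is restricted
to a class of weightings (helper68; copy of helper42's `glueJ`). The class used in the end is
`Int4`: integral weights, integral tokens, at most 4 tokens. -/

set_option autoImplicit false

namespace RH

open Finset Classical

namespace MG

variable {V D : Type*} {G : MG V D} {z : D → ℝ} {t : V → ℝ} {fr : Finset V} {F : Finset D}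
variable {jm sx : Finset V} {ep : V → ℕ} {m : ℕ}

/-- the induction hypothesis of a gluing inside a class of weighted graphs -/
def IHC (Cls : MG V D → (D → ℝ) → (V → ℝ) → Prop) (a b m : ℕ) : Prop :=
  ∀ (G : MG V D) (z : D → ℝ) (t : V → ℝ) (fr : Finset V) (F : Finset D) (jm sx : Finset V)
    (ep : V → ℕ), fr.card ≤ a → G.vs.card < b → Cls G z t →
      G.InstS z t fr F jm sx ep m → ∃ M, G.GoodS z fr F sx M

/-- integral weights, at most 4 tokens -/
structure Int4 (G : MG V D) (z : D → ℝ) (t : V → ℝ) : Prop where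
  zi : ∀ d ∈ G.ds, ∃ n : ℕ, z d = n
  ti : ∀ v ∈ G.vs, ∃ n : ℕ, t v = n
  tau : ∑ v ∈ G.vs, t v ≤ 4

theorem nat_sum {ι : Type*} {s : Finset ι} {f : ι → ℝ} (h : ∀ i ∈ s, ∃ n : ℕ, f i = n) :
    ∃ n : ℕ, ∑ i ∈ s, f i = n := by
  choose! g hg using h
  exact ⟨∑ i ∈ s, g i, by rw [sum_congr rfl hg]; push_cast; rfl⟩

theorem Int4.con {W : Finset V} {ω : V} (hω : ω ∈ W) (hW : W ⊆ G.vs) (h : Int4 G z t) :
    Int4 (G.con W ω hω hW) z (tcon t W ω) where
  zi := fun d hd => h.zi d (mem_filter.1 hd).1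
  ti := fun v hv => by
    unfold tcon
    by_cases h1 : v = ω
    · rw [if_pos h1]
      exact nat_sum fun u hu => h.ti u (hW hu)
    · rw [if_neg h1]
      have hv' : v ∈ (G.vs \ W) ∪ {ω} := hv
      rcases mem_union.1 hv' with h2 | h2
      · exact h.ti v (mem_sdiff.1 h2).1
      · exact absurd (mem_singleton.1 h2) h1
  tau := by
    rw [con_tau hω hW]
    exact h.tau

theorem Int4.inn {W : Finset V} {f : D} (hf : f ∈ G.ds) (hW : W ⊆ G.vs) (hfW : G.pi f ∈ W)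
    (hfU : G.pi (G.al f) ∉ W) (h3 : G.val z t W = 3) (hz : 0 < z f) (hz3 : z f ≤ 3)
    (h : Int4 G z t) : Int4 (G.inn W f hf hW hfW) z (G.tinn z t W f) where
  zi := fun d hd => h.zi d (mem_filter.1 hd).1
  ti := fun v hv => by
    obtain ⟨n, hn⟩ := h.zi f hf
    unfold tinn
    by_cases h1 : v = G.pi (G.al f)
    · rw [if_pos h1]
      have h4 : n ≤ 3 := by
        rw [hn] at hz3
        exact_mod_cast hz3
      exact ⟨3 - n, by rw [hn, Nat.cast_sub h4]; norm_num⟩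
    · rw [if_neg h1]
      have hv' : v ∈ insert (G.pi (G.al f)) W := hv
      have hvW : v ∈ W := by
        rcases mem_insert.1 hv' with h2 | h2
        · exact absurd h2 h1
        · exact h2
      obtain ⟨a, ha⟩ := h.ti v (hW hvW)
      obtain ⟨b, hb⟩ := nat_sum (s := (G.st v).filter fun d => G.pi (G.al d) ∉ W ∧ d ≠ f)
        (f := z) fun d hd => h.zi d (mem_st.1 (mem_filter.1 hd).1).1
      exact ⟨a + b, by rw [ha, hb]; push_cast; rfl⟩
  tau := by
    rw [inn_tau hf hW hfW hfU h3]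
    obtain ⟨n, hn⟩ := h.zi f hf
    have h1 : (1 : ℝ) ≤ z f := by
      rw [hn] at hz ⊢
      have h2 : 0 < n := by exact_mod_cast hz
      exact_mod_cast h2
    linarith

private theorem inter_aux {A J W L : Finset V} (h : A ⊆ W) :
    A ∩ ((J ∩ W) ∪ L) = (A ∩ J) ∪ (A ∩ L) := by
  ext v
  simp only [mem_inter, mem_union]
  constructor
  · rintro ⟨h1, h2 | h2⟩
    · exact Or.inl ⟨h1, h2.1⟩
    · exact Or.inr ⟨h1, h2⟩
  · rintro (⟨h1, h2⟩ | ⟨h1, h2⟩)
    · exact ⟨h1, Or.inl ⟨h2, h h1⟩⟩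
    · exact ⟨h1, Or.inr h2⟩

/-- **gluing of a J-bounded tight set**, induction hypothesis for a class -/
theorem glueJC (Cls : MG V D → (D → ℝ) → (V → ℝ) → Prop) (h : G.InstS z t fr F jm sx ep m)
    (ih : IHC Cls fr.card G.vs.card m) {W : Finset V}
    (hW : W ⊆ G.vs) (hWo : Odd W.card) (h3 : G.val z t W = 3) (hc1 : 3 ≤ W.card)
    (hc2 : 3 ≤ (G.vs \ W).card) (hFW : ∀ d ∈ F, G.pi d ∈ W → G.pi (G.al d) ∈ W)
    (hCon : ∀ (ω : V) (hω : ω ∈ W), Cls (G.con W ω hω hW) z (tcon t W ω))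
    (hInn : ∀ (f : D) (hf : f ∈ G.ds) (hfW : G.pi f ∈ W), G.pi (G.al f) ∉ W → 0 < z f →
      Cls (G.inn W f hf hW hfW) z (G.tinn z t W f)) :
    ∃ M, G.GoodS z fr F sx M := by
  have hF := h.fresh
  have hcardW := card_sdiff_add_card_eq_card hW
  obtain ⟨ω, hω⟩ : W.Nonempty := card_pos.1 (by omega)
  have hFW' : ∀ d ∈ F, G.pi d ∉ W → G.pi (G.al d) ∉ W := by
    intro d hd h1 h2
    have h4 := hFW _ (hF.Fal d hd) h2
    rw [G.al_al d (hF.Fsub hd)] at h4
    exact h1 h4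
  have hadmW : ∀ X, G.Adm fr F X → G.Adm fr F (X ∩ W) := fun X hX =>
    ⟨fun v hv => hX.sub (mem_inter.1 hv).1, fun d hd hp => mem_inter.2
      ⟨hX.clo d hd (mem_inter.1 hp).1, hFW d hd (mem_inter.1 hp).2⟩⟩
  have hadmU : ∀ X, G.Adm fr F X → G.Adm fr F (X \ W) := fun X hX =>
    ⟨fun v hv => hX.sub (mem_sdiff.1 hv).1, fun d hd hp => mem_sdiff.2
      ⟨hX.clo d hd (mem_sdiff.1 hp).1, hFW' d hd (mem_sdiff.1 hp).2⟩⟩
  have hadmfr : G.Adm fr F fr := ⟨Finset.Subset.refl _, fun d hd _ => hF.Ffr _ (hF.Fal d hd)⟩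
  -- outer instance
  obtain ⟨B1, hB1⟩ : ∃ B1 : Finset V, B1 = W ∪ if sx ⊆ G.vs \ W then ∅ else sx := ⟨_, rfl⟩
  obtain ⟨fr1, hs1, hcl1, hd1, hadm1⟩ := exists_avoid G fr F B1
  have hWB1 : W ⊆ B1 := by rw [hB1]; exact subset_union_left
  obtain ⟨jm1, sx1, hk1⟩ : ∃ jm1 sx1 : Finset V, (sx ⊆ G.vs \ W → sx1 = sx) ∧
      ((sx ⊆ fr1 ∧ jm ⊆ fr1 ∧ sx1 = sx ∧ jm1 = jm) ∨ (Disjoint jm fr1 ∧ sx1 = ∅ ∧ jm1 = ∅)) := by
    by_cases hout : sx ⊆ G.vs \ W
    · have h1 : sx ⊆ fr1 := by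
        rw [if_pos hout, union_empty] at hB1
        have h4 : Disjoint (fr \ W) B1 := by
          rw [hB1]
          exact sdiff_disjoint
        have h5 := ((hadm1 (fr \ W)).2 ⟨hadmU fr hadmfr, h4⟩).sub
        exact fun v hv => h5 (mem_sdiff.2 ⟨h.sxs hv, (mem_sdiff.1 (hout hv)).2⟩)
      exact ⟨jm, sx, fun _ => rfl, Or.inl ⟨h1, h.jm_sub.trans h1, rfl, rfl⟩⟩
    · refine ⟨∅, ∅, fun h1 => absurd h1 hout, Or.inr ⟨?_, rfl, rfl⟩⟩
      rw [if_neg hout] at hB1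
      have h4 : sx ⊆ B1 := by rw [hB1]; exact subset_union_right
      exact (disjoint_of_subset_right (h.jm_sub.trans h4) hd1).symm
  have hI1 := con_inst hω hW h hWo h3 hs1 hcl1 hd1 hWB1 hadm1 hk1.2
  have hsz1 : (G.con W ω hω hW).vs.card < G.vs.card := by
    have h1 : (G.con W ω hω hW).vs.card ≤ (G.vs \ W).card + 1 := by
      have h4 : (G.con W ω hω hW).vs = (G.vs \ W) ∪ {ω} := rfl
      rw [h4]
      exact (card_union_le _ _).trans (by rw [card_singleton])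
    omega
  obtain ⟨M1, hM1⟩ := ih _ _ _ _ _ _ _ _ (card_le_card hs1) hsz1 (hCon ω hω) hI1
  obtain ⟨f, hfM, hfW, hfU, huniq⟩ := con_one hω hW hM1.pm
  have hcon : ∀ d ∈ M1, d ∈ G.ds ∧ ¬ (G.pi d ∈ W ∧ G.pi (G.al d) ∈ W) := fun d hd =>
    mem_filter.1 (hM1.pm.sub hd)
  have hf := (hcon f hfM).1
  have hz := hM1.pos f hfM
  have hafM1 : G.al f ∈ M1 := hM1.pm.closed f hfM
  -- ports
  obtain ⟨L, hL⟩ : ∃ L, L = G.lp fr W f := ⟨_, rfl⟩
  obtain ⟨P, hP⟩ : ∃ P, P = (jm ∩ W) ∪ G.lp fr W f := ⟨_, rfl⟩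
  have hdjL : Disjoint (jm ∩ W) (G.lp fr W f) := by
    rw [disjoint_left]
    intro v hv hv2
    exact lp_not_jm hF hFW hv2 (mem_inter.1 hv).1
  have hPcard : P.card ≤ 2 := by
    have h1 := lp_bound hf hW hfW hfU h h3 hz (T := jm ∩ W) inter_subset_right
    have h2 : ∑ v ∈ jm ∩ W, t v = (jm ∩ W).card := by
      have h4 : ∑ v ∈ jm ∩ W, t v = ∑ _v ∈ jm ∩ W, (1 : ℝ) :=
        sum_congr rfl fun v hv => hF.t_jm h.wt (mem_inter.1 hv).1
      rw [h4, sum_const, nsmul_eq_mul, mul_one]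
    rw [h2] at h1
    have h5 : (((G.lp fr W f).card + (jm ∩ W).card : ℕ) : ℝ) < (3 : ℕ) := by
      push_cast
      exact h1
    have h6 := Nat.cast_lt.1 h5
    rw [hP, card_union_of_disjoint hdjL]
    omega
  have hsxL : sx.Nonempty → sx ⊆ W → G.lp fr W f = ∅ ∧ P = jm := by
    intro hne hsW
    have h1 := lp_bound hf hW hfW hfU h h3 hz hsW
    have h2 := h.st2 hne
    have h4 : (((G.lp fr W f).card : ℕ) : ℝ) < (1 : ℕ) := by
      push_cast
      linarith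
    have h5 := Nat.cast_lt.1 h4
    have h6 : G.lp fr W f = ∅ := card_eq_zero.1 (by omega)
    refine ⟨h6, ?_⟩
    rw [hP, h6, union_empty]
    exact inter_eq_left.2 (h.jm_sub.trans hsW)
  obtain ⟨fr20, hs20, hcl20, hd20, hadm20⟩ := exists_avoid G fr F ((G.vs \ W) ∪ G.lq fr W f)
  -- inner instance
  obtain ⟨fr2, sx2, M2, hs2W, hM2, hcase⟩ : ∃ fr2 sx2 M2, fr2 ⊆ W ∧
      (G.inn W f hf hW hfW).GoodS z fr2 (F.filter fun d => G.pi d ∈ fr2) sx2 M2 ∧
      (((∀ X, G.Adm fr F X → X ⊆ W → Disjoint X (G.lq fr W f) →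
          G.Adm fr2 (F.filter fun d => G.pi d ∈ fr2) X) ∧
          ((sx.Nonempty ∧ sx ⊆ W ∧ sx2 = sx) ∨ (¬ (sx.Nonempty ∧ sx ⊆ W) ∧ sx2 = P ∧
            P.card = 2))) ∨
        ((∀ X, G.Adm fr F X → X ⊆ W → Disjoint X (G.lq fr W f) → Disjoint X P →
          (sx ⊆ W → Disjoint X sx) → G.Adm fr2 (F.filter fun d => G.pi d ∈ fr2) X) ∧
          ¬ (sx.Nonempty ∧ sx ⊆ W ∧ sx ⊆ fr20) ∧
          ¬ (¬ (sx.Nonempty ∧ sx ⊆ W) ∧ P.card = 2 ∧ P ⊆ fr20))) := by
    have hsz2 : (G.inn W f hf hW hfW).vs.card < G.vs.card := by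
      rw [inn_card hf hW hfW hfU]
      omega
    have hin : ∀ fr2 B : Finset V, fr2 ⊆ fr → Disjoint fr2 B → G.vs \ W ⊆ B → fr2 ⊆ W := by
      intro fr2 B h1 h2 h4 v hv
      by_contra hn
      exact disjoint_left.1 h2 hv (h4 (mem_sdiff.2 ⟨hF.fsub (h1 hv), hn⟩))
    have hadm20' : ∀ X, G.Adm fr F X → X ⊆ W → Disjoint X (G.lq fr W f) →
        G.Adm fr20 (F.filter fun d => G.pi d ∈ fr20) X := by
      intro X hX hXW hXq
      refine (hadm20 X).2 ⟨hX, ?_⟩
      rw [disjoint_union_right]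
      exact ⟨disjoint_of_subset_left hXW disjoint_sdiff, hXq⟩
    by_cases hA : sx.Nonempty ∧ sx ⊆ W ∧ sx ⊆ fr20
    · obtain ⟨a1, a2, a3⟩ := hA
      obtain ⟨b1, b2⟩ := hsxL a1 a2
      have hI2 := inn_inst hf hW hfW hfU h hWo h3 hz hFW (jm2 := P) (sx2 := sx) hs20 hcl20 hd20
        subset_union_left subset_union_right hadm20 hP
        (Or.inr (Or.inl ⟨rfl, rfl, b1, b2, a3, by rw [b2]; exact h.jm_sub.trans a3⟩))
      obtain ⟨M2, hM2⟩ := ih _ _ _ _ _ _ _ _ (card_le_card hs20) hsz2 (hInn f hf hfW hfU hz) hI2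
      exact ⟨fr20, sx, M2, hin _ _ hs20 hd20 subset_union_left, hM2,
        Or.inl ⟨hadm20', Or.inl ⟨a1, a2, rfl⟩⟩⟩
    · by_cases hB : ¬ (sx.Nonempty ∧ sx ⊆ W) ∧ P.card = 2 ∧ P ⊆ fr20
      · obtain ⟨a1, a2, a3⟩ := hB
        have hI2 := inn_inst hf hW hfW hfU h hWo h3 hz hFW (jm2 := P) (sx2 := P) hs20 hcl20 hd20
          subset_union_left subset_union_right hadm20 hP (Or.inl ⟨rfl, rfl, a2, a3⟩)
        obtain ⟨M2, hM2⟩ := ih _ _ _ _ _ _ _ _ (card_le_card hs20) hsz2 (hInn f hf hfW hfU hz) hI2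
        exact ⟨fr20, P, M2, hin _ _ hs20 hd20 subset_union_left, hM2,
          Or.inl ⟨hadm20', Or.inr ⟨a1, rfl, a2⟩⟩⟩
      · obtain ⟨fr2, hs2, hcl2, hd2, hadm2⟩ := exists_avoid G fr F
          (((G.vs \ W) ∪ G.lq fr W f) ∪ (P ∪ if sx ⊆ W then sx else ∅))
        have hI2 := inn_inst hf hW hfW hfU h hWo h3 hz hFW (jm2 := ∅) (sx2 := ∅) hs2 hcl2 hd2
          (subset_union_left.trans subset_union_left)
          (subset_union_right.trans subset_union_left) hadm2 hP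
          (Or.inr (Or.inr ⟨rfl, rfl, (disjoint_of_subset_right
            (subset_union_left.trans subset_union_right) hd2).symm⟩))
        obtain ⟨M2, hM2⟩ := ih _ _ _ _ _ _ _ _ (card_le_card hs2) hsz2 (hInn f hf hfW hfU hz) hI2
        refine ⟨fr2, ∅, M2, hin _ _ hs2 hd2 (subset_union_left.trans subset_union_left), hM2,
          Or.inr ⟨?_, hA, hB⟩⟩
        intro X hX hXW hXq hXP hXs
        refine (hadm2 X).2 ⟨hX, ?_⟩
        rw [disjoint_union_right, disjoint_union_right, disjoint_union_right]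
        refine ⟨⟨disjoint_of_subset_left hXW disjoint_sdiff, hXq⟩, hXP, ?_⟩
        by_cases h1 : sx ⊆ W
        · rw [if_pos h1]
          exact hXs h1
        · rw [if_neg h1]
          exact disjoint_empty_right _
  -- the matching
  obtain ⟨hfM2, hafM2⟩ := inn_pm_f hf hW hfW hfU hM2.pm
  obtain ⟨w1, w2, w3, w4⟩ := inn_pm_W hf hW hfW hfU hM2.pm
  set M2' := M2.filter fun d => G.pi d ∈ W ∧ G.pi (G.al d) ∈ W with hM2'
  have hpm : G.IsPM (M1 ∪ M2') := con_glue hω hW hM1.pm hfM hfW w1 w2 w3 w4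
  refine ⟨M1 ∪ M2', hpm, ?_, ?_⟩
  · intro d hd
    rcases mem_union.1 hd with h1 | h1
    · exact hM1.pos d h1
    · exact hM2.pos d (mem_filter.1 h1).1
  intro X hX hodd
  by_contra hcon'
  push Not at hcon'
  have hcl : ∀ d ∈ G.bd X, d ∈ M1 ∪ M2' := hcon'
  have hXW := hadmW X hX
  have hXU := hadmU X hX
  -- darts leaving `W`
  have hout : ∀ d ∈ G.ds, G.pi d ∈ W → G.pi (G.al d) ∉ W → (d ∈ M1 ∪ M2' ↔ d = f) := by
    intro d _ h1 h2
    constructor
    · intro h4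
      rcases mem_union.1 h4 with h5 | h5
      · exact huniq d h5 h1
      · exact absurd (mem_filter.1 h5).2.2 h2
    · rintro rfl
      exact mem_union_left _ hfM
  -- closed, so deleted darts at `X` go to `X`
  have hdel : ∀ d ∈ G.ds, G.pi d ∈ X → G.pi d ∈ W → G.pi (G.al d) ∉ W → d ≠ f →
      G.pi (G.al d) ∈ X := by
    intro d h1 h2 h4 h5 h6
    by_contra hn
    exact h6 ((hout d h1 h4 h5).1 (hcl d (mem_bd.2 ⟨h1, h2, hn⟩)))
  have hXq : Disjoint (X ∩ W) (G.lq fr W f) := by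
    rw [disjoint_left]
    intro v hv hq
    obtain ⟨-, d, h1, h2, h4, h5, h6⟩ := mem_lq.1 hq
    obtain ⟨h7, h8⟩ := mem_inter.1 hv
    exact h6 (hX.sub (hdel d h1 (h2 ▸ h7) (h2 ▸ h8) h4 h5))
  -- parity
  have hcnt := inn_count hf hW hfW hfU hF hFW hXW inter_subset_right hXq
  have hfilt : (G.bd (X ∩ W)).filter (fun d => d ∈ M1 ∪ M2') =
      (G.inn W f hf hW hfW).bd (X ∩ W) := by
    ext d
    rw [mem_filter, mem_inn_bd hf hW hfW hfU inter_subset_right]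
    constructor
    · rintro ⟨h1, h2⟩
      refine ⟨h1, ?_⟩
      by_cases h4 : G.pi (G.al d) ∈ W
      · exact Or.inl h4
      · obtain ⟨a, b, -⟩ := mem_bd.1 h1
        exact Or.inr ((hout d a (mem_inter.1 b).2 h4).1 h2)
    · rintro ⟨h1, h2⟩
      refine ⟨h1, ?_⟩
      rcases h2 with h2 | rfl
      · obtain ⟨a, b, c⟩ := mem_bd.1 h1
        exact hcl d (mem_bd.2 ⟨a, (mem_inter.1 b).1, fun h4 => c (mem_inter.2 ⟨h4, h2⟩)⟩)
      · exact mem_union_left _ hfM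
  have hE := card_filter_add_card_filter_not (s := G.bd (X ∩ W)) (fun d => d ∈ M1 ∪ M2')
  have hpar := hF.unused_par hpm hXW
  have hPe : Even ((X ∩ W) ∩ P).card := by
    have h1 : (X ∩ W) ∩ P = ((X ∩ W) ∩ jm) ∪ ((X ∩ W) ∩ G.lp fr W f) := by
      rw [hP]
      exact inter_aux inter_subset_right
    have h2 : Disjoint ((X ∩ W) ∩ jm) ((X ∩ W) ∩ G.lp fr W f) := by
      rw [disjoint_left]
      intro v hv hv2
      exact lp_not_jm hF hFW (mem_inter.1 hv2).2 (mem_inter.1 hv).2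
    rw [h1, card_union_of_disjoint h2, Nat.even_iff]
    rw [hfilt] at hE
    omega
  -- transfer
  have TW : G.Adm fr2 (F.filter fun d => G.pi d ∈ fr2) (X ∩ W) →
      (Odd (X ∩ W).card ∨ (sx2.Nonempty ∧ sx2 ⊆ X ∩ W)) → False := by
    intro h1 h2
    obtain ⟨d, h4, h5⟩ := hM2.hit (X ∩ W) ⟨h1.sub, h1.clo⟩ h2
    obtain ⟨h6, h7⟩ := (mem_inn_bd hf hW hfW hfU inter_subset_right).1 h4
    rcases h7 with h7 | rfl
    · obtain ⟨a, b, c⟩ := mem_bd.1 h6
      have h8 := hcl d (mem_bd.2 ⟨a, (mem_inter.1 b).1, fun h9 => c (mem_inter.2 ⟨h9, h7⟩)⟩)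
      rcases mem_union.1 h8 with h9 | h9
      · exact (hcon d h9).2 ⟨(mem_inter.1 b).2, h7⟩
      · exact h5 (mem_filter.1 h9).1
    · exact h5 hfM2
  have TU : G.Adm fr1 (F.filter fun d => G.pi d ∈ fr1) (X \ W) → Disjoint (X ∩ W) P →
      (Odd (X \ W).card ∨ (sx1.Nonempty ∧ sx1 ⊆ X \ W)) → False := by
    intro h1 h0 h2
    obtain ⟨d, h4, h5⟩ := hM1.hit (X \ W)
      ((con_adm hω hW (disjoint_of_subset_right hWB1 hd1) hcl1).2 h1) h2
    rw [con_bd_out hω hW (hXU.sub.trans hF.fsub) sdiff_disjoint] at h4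
    obtain ⟨a, b, c⟩ := mem_bd.1 h4
    obtain ⟨b1, b2⟩ := mem_sdiff.1 b
    by_cases h6 : G.pi (G.al d) ∈ X
    · have h7 : G.pi (G.al d) ∈ W := by
        by_contra hn
        exact c (mem_sdiff.2 ⟨h6, hn⟩)
      have haa := G.al_al d a
      by_cases h8 : G.al d = f
      · apply h5
        rw [← haa, h8]
        exact hafM1
      · refine disjoint_left.1 h0 (mem_inter.2 ⟨h6, h7⟩) ?_
        rw [hP]
        refine mem_union_right _ (mem_lp.2 ⟨⟨hX.sub h6, h7⟩, G.al d, G.al_mem d a, rfl, ?_, h8, ?_⟩)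
        · rw [haa]
          exact b2
        · rw [haa]
          exact hX.sub b1
    · rcases mem_union.1 (hcl d (mem_bd.2 ⟨a, b1, h6⟩)) with h7 | h7
      · exact h5 h7
      · exact b2 (mem_filter.1 h7).2.1
  have hsub20 : X ∩ W ⊆ fr20 := by
    refine ((hadm20 _).2 ⟨hXW, ?_⟩).sub
    rw [disjoint_union_right]
    exact ⟨disjoint_of_subset_left inter_subset_right disjoint_sdiff, hXq⟩
  have hstar : ∀ v ∈ sx, v ∈ X → sx ⊆ X := fun v hv hvX => h.star_sub hpm hX hcl hv hvX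
  by_cases hq0 : Disjoint (X ∩ W) P
  · -- no link
    have hAW : G.Adm fr2 (F.filter fun d => G.pi d ∈ fr2) (X ∩ W) := by
      rcases hcase with ⟨h1, -⟩ | ⟨h1, h2, -⟩
      · exact h1 _ hXW inter_subset_right hXq
      · refine h1 _ hXW inter_subset_right hXq hq0 fun hsW => ?_
        rw [disjoint_left]
        intro v hv hvs
        have h4 := hstar v hvs (mem_inter.1 hv).1
        exact h2 ⟨⟨v, hvs⟩, hsW, fun u hu => hsub20 (mem_inter.2 ⟨h4 hu, hsW hu⟩)⟩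
    have hAU : G.Adm fr1 (F.filter fun d => G.pi d ∈ fr1) (X \ W) := by
      refine (hadm1 _).2 ⟨hXU, ?_⟩
      rw [hB1, disjoint_union_right]
      refine ⟨sdiff_disjoint, ?_⟩
      by_cases h1 : sx ⊆ G.vs \ W
      · rw [if_pos h1]
        exact disjoint_empty_right _
      · rw [if_neg h1, disjoint_left]
        intro v hv hvs
        obtain ⟨h2, h4⟩ := mem_sdiff.1 hv
        have h5 := hstar v hvs h2
        -- some star vertex lies in `W`
        obtain ⟨u, hu, huW⟩ : ∃ u ∈ sx, u ∈ W := by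
          by_contra hn
          push Not at hn
          exact h1 fun u hu => mem_sdiff.2 ⟨hF.fsub (h.sxs hu), hn u hu⟩
        rcases h.kind with h6 | ⟨-, h6⟩
        · refine disjoint_left.1 hq0 (mem_inter.2 ⟨h5 hu, huW⟩) ?_
          rw [hP]
          exact mem_union_left _ (mem_inter.2 ⟨h6 ▸ hu, huW⟩)
        · have h7 := h6 (fr ∩ W) (hadmW fr hadmfr) u hu (mem_inter.2 ⟨h.sxs hu, huW⟩)
          exact h4 (mem_inter.1 (h7 hvs)).2
    rcases hodd with ho | ⟨hne, hsX⟩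
    · have h1 : (X ∩ W).card + (X \ W).card = X.card := by
        rw [add_comm]
        exact card_sdiff_add_card_inter X W
      rcases Nat.even_or_odd (X ∩ W).card with h2 | h2
      · refine TU hAU hq0 (Or.inl ?_)
        rw [Nat.odd_iff] at ho ⊢
        rw [Nat.even_iff] at h2
        omega
      · exact TW hAW (Or.inl h2)
    · by_cases h1 : sx ⊆ G.vs \ W
      · refine TU hAU hq0 (Or.inr ?_)
        rw [hk1.1 h1]
        exact ⟨hne, fun v hv => mem_sdiff.2 ⟨hsX hv, (mem_sdiff.1 (h1 hv)).2⟩⟩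
      · obtain ⟨u, hu, huW⟩ : ∃ u ∈ sx, u ∈ W := by
          by_contra hn
          push Not at hn
          exact h1 fun u hu => mem_sdiff.2 ⟨hF.fsub (h.sxs hu), hn u hu⟩
        rcases h.kind with h6 | ⟨-, h6⟩
        · refine disjoint_left.1 hq0 (mem_inter.2 ⟨hsX hu, huW⟩) ?_
          rw [hP]
          exact mem_union_left _ (mem_inter.2 ⟨h6 ▸ hu, huW⟩)
        · have h7 := h6 (fr ∩ W) (hadmW fr hadmfr) u hu (mem_inter.2 ⟨h.sxs hu, huW⟩)
          have hsW : sx ⊆ W := h7.trans inter_subset_right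
          have hsXW : sx ⊆ X ∩ W := fun v hv => mem_inter.2 ⟨hsX hv, hsW hv⟩
          rcases hcase with ⟨-, ⟨-, -, h8⟩ | ⟨h8, -, -⟩⟩ | ⟨-, h8, -⟩
          · refine TW hAW (Or.inr ?_)
            rw [h8]
            exact ⟨hne, hsXW⟩
          · exact h8 ⟨hne, hsW⟩
          · exact h8 ⟨hne, hsW, hsXW.trans hsub20⟩
  · -- two links
    have h1 : 0 < ((X ∩ W) ∩ P).card := by
      rw [card_pos]
      rw [disjoint_iff_inter_eq_empty] at hq0
      exact nonempty_iff_ne_empty.2 hq0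
    have h2 : ((X ∩ W) ∩ P).card ≤ P.card := card_le_card inter_subset_right
    have h4 : P.card = 2 := by
      obtain ⟨k, hk⟩ := hPe
      omega
    have h5 : P ⊆ X ∩ W := by
      have h6 : (X ∩ W) ∩ P = P := by
        refine eq_of_subset_of_card_le inter_subset_right ?_
        obtain ⟨k, hk⟩ := hPe
        omega
      rw [← h6]
      exact inter_subset_left
    have hPne : P.Nonempty := card_pos.1 (by omega)
    -- if the old star lies in `W` it is `P`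
    have hold : sx.Nonempty → sx ⊆ W → sx = P := by
      intro hne hsW
      obtain ⟨-, h6⟩ := hsxL hne hsW
      rcases h.kind with h7 | ⟨h7, -⟩
      · rw [h6, h7]
      · rw [h6, h7, card_empty] at h4
        omega
    rcases hcase with ⟨h6, ⟨h7, h8, h9⟩ | ⟨-, h8, -⟩⟩ | ⟨-, h7, h8⟩
    · refine TW (h6 _ hXW inter_subset_right hXq) (Or.inr ?_)
      rw [h9]
      exact ⟨h7, by rw [hold h7 h8]; exact h5⟩
    · refine TW (h6 _ hXW inter_subset_right hXq) (Or.inr ?_)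
      rw [h8]
      exact ⟨hPne, h5⟩
    · by_cases h9 : sx.Nonempty ∧ sx ⊆ W
      · exact h7 ⟨h9.1, h9.2, by rw [hold h9.1 h9.2]; exact h5.trans hsub20⟩
      · exact h8 ⟨h9, h4, h5.trans hsub20⟩

/-- **gluing of a J-bounded tight set**, integral weights with at most 4 tokens -/
theorem glueJ4 (h : G.InstS z t fr F jm sx ep m) (h4 : Int4 G z t)
    (ih : IHC (V := V) (D := D) Int4 fr.card G.vs.card m) {W : Finset V}
    (hW : W ⊆ G.vs) (hWo : Odd W.card) (h3 : G.val z t W = 3) (hc1 : 3 ≤ W.card)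
    (hc2 : 3 ≤ (G.vs \ W).card) (hFW : ∀ d ∈ F, G.pi d ∈ W → G.pi (G.al d) ∈ W) :
    ∃ M, G.GoodS z fr F sx M := by
  refine glueJC Int4 h ih hW hWo h3 hc1 hc2 hFW (fun ω hω => h4.con hω hW)
    fun f hf hfW hfU hz => h4.inn hf hW hfW hfU h3 hz ?_
  have h5 : f ∈ G.st (G.pi f) := mem_st.2 ⟨hf, rfl⟩
  have h6 := h.wt.deg (G.pi f) (G.pi_mem f hf)
  have h7 : z f ≤ ∑ d ∈ G.st (G.pi f), z d :=
    single_le_sum (f := z) (fun d hd => h.wt.z0 d (mem_st.1 hd).1) h5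
  have h8 := h.wt.t0 (G.pi f) (G.pi_mem f hf)
  linarith

end MG

end RH
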