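import Pool.Agent.Lib.RH.I4Cls
import Pool.Agent.Lib.RH.I4GlueJ

/-! Minimal counterexamples inside the class `Int4` (integral weights, at most 4 tokens): copy of
MC and SSolve (helper87, 78, 94; helper42's originals). Every lemma `MCS.xyz` whose proof calls the
induction hypothesis gets a copy `MCI.xyz`; at every call one extra goal: the new weights are
integral (`Int4.of_raw`, `Int4.of_inst`). -/

set_option autoImplicit false

namespace RH

open Finset Classical

namespace MG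

variable {V D : Type*} (G : MG V D)

/-- induction hypothesis of the class `Int4`, lexicographic order -/
def IHMI (a b c m : ℕ) (V D : Type*) : Prop :=
  ∀ (G : MG V D) (z : D → ℝ) (t : V → ℝ) (fr : Finset V) (F : Finset D) (jm sx : Finset V)
    (ep : V → ℕ),
    (fr.card < a ∨ (fr.card = a ∧ (G.vs.card < b ∨ (G.vs.card = b ∧ G.sup z < c)))) →
      Int4 G z t → G.InstS z t fr F jm sx ep m → ∃ M, G.GoodS z fr F sx M

/-- minimal counterexample in the class `Int4` -/
structure MCI (z : D → ℝ) (t : V → ℝ) (fr : Finset V) (F : Finset D) (jm sx : Finset V)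
    (ep : V → ℕ) (m : ℕ) : Prop where
  inst : G.InstS z t fr F jm sx ep m
  i4 : Int4 G z t
  ih : IHMI fr.card G.vs.card (G.sup z) m V D
  bad : ¬ ∃ M, G.GoodS z fr F sx M

variable {G} {z z' : D → ℝ} {t t' : V → ℝ} {fr : Finset V} {F : Finset D} {jm sx : Finset V}
variable {ep : V → ℕ} {m : ℕ} {M : Finset D}

/-- the part used by a gluing -/
theorem IHMI.toG {a b c m : ℕ} {V D : Type*} (h : IHMI a b c m V D) :
    IHC (V := V) (D := D) Int4 a b m :=
  fun G z t fr F jm sx ep h1 h2 h3 hI => h G z t fr F jm sx ep (by omega) h3 hI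

/-- the induction hypothesis of a minimal counterexample, with absorption -/
theorem MCI.solve {G : MG V D} {z : D → ℝ} {t : V → ℝ} {fr : Finset V} {F : Finset D}
    {jm sx : Finset V} {ep : V → ℕ} {m : ℕ} (h : G.MCI z t fr F jm sx ep m) {G' : MG V D}
    {z' : D → ℝ} {t' : V → ℝ} {fr' : Finset V} {F' : Finset D} {jm' B' : Finset V}
    (hr : G'.RawI z' t' fr' F' jm' B' m) (hi : Int4 G' z' t')
    (hsz : fr'.card < fr.card ∨ (fr'.card = fr.card ∧ (G'.vs.card < G.vs.card ∨
      (G'.vs.card = G.vs.card ∧ G'.sup z' < G.sup z)))) :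
    ∃ M, G'.IsPM M ∧ (∀ d ∈ M, 0 < z' d) ∧ ∀ X, G'.Adm fr' F' X → Disjoint X B' →
      (Odd X.card ∨ (jm'.Nonempty ∧ jm' ⊆ X)) → ∃ d ∈ G'.bd X, d ∉ M :=
  solveAV hr fun fr2 hs F2 jm2 sx2 ep2 hI => by
    refine h.ih G' z' t' fr2 F2 jm2 sx2 ep2 ?_ hi hI
    have h1 := card_le_card hs
    omega

/-- the same with integral weights as hypothesis -/
theorem MCI.solveZ {G : MG V D} {z : D → ℝ} {t : V → ℝ} {fr : Finset V} {F : Finset D}
    {jm sx : Finset V} {ep : V → ℕ} {m : ℕ} (h : G.MCI z t fr F jm sx ep m) {G' : MG V D}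
    {z' : D → ℝ} {t' : V → ℝ} {fr' : Finset V} {F' : Finset D} {jm' B' : Finset V}
    (hr : G'.RawI z' t' fr' F' jm' B' m) (hz : ∀ d ∈ G'.ds, ∃ n : ℕ, z' d = n)
    (hsz : fr'.card < fr.card ∨ (fr'.card = fr.card ∧ (G'.vs.card < G.vs.card ∨
      (G'.vs.card = G.vs.card ∧ G'.sup z' < G.sup z)))) :
    ∃ M, G'.IsPM M ∧ (∀ d ∈ M, 0 < z' d) ∧ ∀ X, G'.Adm fr' F' X → Disjoint X B' →
      (Odd X.card ∨ (jm'.Nonempty ∧ jm' ⊆ X)) → ∃ d ∈ G'.bd X, d ∉ M :=
  h.solve hr (Int4.of_raw hr hz) hsz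

/-- another integral weight of the same instance: it is again a minimal counterexample and no zero
edge appears -/
theorem MCI.alt (h : G.MCI z t fr F jm sx ep m) (ha : G.Alt z fr z' t')
    (hz : ∀ d ∈ G.ds, ∃ n : ℕ, z' d = n) :
    G.MCI z' t' fr F jm sx ep m ∧ ∀ d ∈ G.ds, z' d = 0 → z d = 0 := by
  have hi := ha.inst h.inst
  have hi4 := Int4.of_inst hi hz
  have hbad : ¬ ∃ M, G.GoodS z' fr F sx M := fun ⟨M, hM⟩ => h.bad ⟨M, ha.good h.inst hM⟩
  have hsub : (G.ds.filter fun d => z' d ≠ 0) ⊆ G.ds.filter fun d => z d ≠ 0 := by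
    intro d hd
    obtain ⟨h1, h2⟩ := mem_filter.1 hd
    exact mem_filter.2 ⟨h1, fun h3 => h2 (ha.supp d h1 h3)⟩
  have hle : G.sup z' ≤ G.sup z := card_le_card hsub
  have heq : G.sup z' = G.sup z := by
    rcases hle.lt_or_eq with h1 | h1
    · exact absurd (h.ih G z' t' fr F jm sx ep (Or.inr ⟨rfl, Or.inr ⟨rfl, h1⟩⟩) hi4 hi) hbad
    · exact h1
  refine ⟨⟨hi, hi4, by rw [heq]; exact h.ih, hbad⟩, fun d hd h0 => ?_⟩
  by_contra h1
  have h2 := eq_of_subset_of_card_le hsub (le_of_eq heq.symm)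
  have h3 : d ∈ G.ds.filter fun d => z d ≠ 0 := mem_filter.2 ⟨hd, h1⟩
  rw [← h2] at h3
  exact (mem_filter.1 h3).2 h0

/-- no J-bounded tight set -/
theorem MCI.no_tight (h : G.MCI z t fr F jm sx ep m) {W : Finset V} (hW : W ⊆ G.vs)
    (hWo : Odd W.card) (h3 : G.val z t W = 3) (hc1 : 3 ≤ W.card) (hc2 : 3 ≤ (G.vs \ W).card)
    (hFW : ∀ d ∈ F, G.pi d ∈ W → G.pi (G.al d) ∈ W) : False :=
  h.bad (glueJ4 h.inst h.i4 h.ih.toG hW hWo h3 hc1 hc2 hFW)

/-- the theorem of the class `Int4` follows if there are no minimal counterexamples -/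
theorem exists_goodI {m : ℕ} {V D : Type*}
    (hno : ∀ (G : MG V D) (z : D → ℝ) (t : V → ℝ) (fr : Finset V) (F : Finset D)
      (jm sx : Finset V) (ep : V → ℕ), ¬ G.MCI z t fr F jm sx ep m) :
    ∀ (G : MG V D) (z : D → ℝ) (t : V → ℝ) (fr : Finset V) (F : Finset D) (jm sx : Finset V)
      (ep : V → ℕ), Int4 G z t → G.InstS z t fr F jm sx ep m → ∃ M, G.GoodS z fr F sx M := by
  have key : ∀ a b c : ℕ, IHMI a b c m V D := by
    intro a
    induction a using Nat.strong_induction_on with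
    | _ a iha =>
      intro b
      induction b using Nat.strong_induction_on with
      | _ b ihb =>
        intro c
        induction c using Nat.strong_induction_on with
        | _ c ihc =>
          intro G z t fr F jm sx ep hlt h4 hI
          by_contra hbad
          refine hno G z t fr F jm sx ep ⟨hI, h4, ?_, hbad⟩
          rcases hlt with h1 | ⟨h1, h2 | ⟨h2, h3⟩⟩
          · exact iha _ h1 _ _
          · rw [h1]
            exact ihb _ h2 _
          · rw [h1, h2]
            exact ihc _ h3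
  intro G z t fr F jm sx ep h4 hI
  exact key (fr.card + 1) 0 0 G z t fr F jm sx ep (Or.inl (Nat.lt_succ_self _)) h4 hI

end MG

end RH
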