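import Pool.Agent.Lib.TL.Vert

/-! # The all-even greedy (S5, REACH, row I4Even; helper73, in the form of helper97 [68557] (A))

A system of darts with a root `q`, targets `O` and pair nodes. (U+): every set of nodes (not empty, not
everything) has degree at least 4. If the root has degree at most 5, then **every** edge at the root
is the first edge of a chain to `O` whose splitting keeps (U+); a virtual edge from the root to the
target may be one of the edges (it is not used if it is not the first edge). The remaining edges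
at vertex level: sets which cut no pair keep 4, a set which cuts one pair keeps 2 besides the inner
edge of the pair (`Out.zero`, `Out.one`), where the two ends of the chain count. -/

set_option autoImplicit false

namespace TL

open Finset Classical ThmQ KT

variable {V N D : Type*}
variable {al0 : D → D} {ds0 : Finset D} {pi : D → V} {bl : V → N} {PN' ns0 : Finset N}
variable {al : D → D} {ds : Finset D} {nd : D → N} {q : N} {O : Finset N} {col : D → Bool}

/-- a node of pair type or without darts has even degree -/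
theorem even_of_pair (hqd : ∃ d ∈ ds, nd d = q)
    (hPN : ∀ d ∈ ds, nd d ≠ q → nd d ∉ O → PN ds nd col (nd d))
    (hu4 : ∀ W : Finset N, (∃ d ∈ ds, nd d ∈ W) → (∃ d ∈ ds, nd d ∉ W) → 4 ≤ dct al nd ds W) :
    ∀ v, v ≠ q → v ∉ O → Even (dct al nd ds {v}) := by
  intro v hvq hvO
  obtain ⟨dq, hdq, hq⟩ := hqd
  by_cases h1 : ∃ d ∈ ds, nd d = v
  · obtain ⟨d, hd, rfl⟩ := h1
    have h2 := hPN d hd hvq hvO
    have h4 := hu4 {nd d} ⟨d, hd, mem_singleton_self _⟩
      ⟨dq, hdq, fun h1 => hvq (by rw [← mem_singleton.1 h1, hq])⟩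
    have h5 : dct al nd ds {nd d} ≤ 4 := by
      have h6 : (ds.filter fun e => nd e ∈ ({nd d} : Finset N) ∧ nd (al e) ∉ ({nd d} : Finset N)) ⊆
          cdt ds nd col (nd d) true ∪ cdt ds nd col (nd d) false := by
        intro e he
        obtain ⟨h7, h8, -⟩ := mem_filter.1 he
        rw [mem_union, mem_cdt, mem_cdt]
        have h9 := mem_singleton.1 h8
        cases col e <;> tauto
      refine (card_le_card h6).trans ((card_union_le _ _).trans ?_)
      rw [h2 true, h2 false]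
    have h6 : dct al nd ds {nd d} = 4 := le_antisymm h5 h4
    rw [h6]
    decide
  · have h2 : dct al nd ds {v} = 0 := by
      unfold dct
      rw [card_eq_zero, filter_eq_empty_iff]
      rintro d hd ⟨h3, -⟩
      exact h1 ⟨d, hd, mem_singleton.1 h3⟩
    rw [h2]
    decide

/-- all cuts between the root and the targets have the parity of the root -/
theorem par_root (hS : Sys al ds) (hEv : ∀ v, v ≠ q → v ∉ O → Even (dct al nd ds {v})) :
    ∀ W : Finset N, q ∈ W → Disjoint W O → dct al nd ds W % 2 = dct al nd ds {q} % 2 := by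
  intro W h1 h2
  have h3 : (dct al nd ds W : ZMod 2) = (dct al nd ds {q} : ZMod 2) := by
    rw [hS.parity W, ← sum_erase_add _ _ h1, sum_eq_zero, zero_add]
    intro v hv
    rw [mem_erase] at hv
    rw [← even_iff_zmod]
    exact hEv v hv.1 (disjoint_left.1 h2 hv.2)
  exact (ZMod.natCast_eq_natCast_iff' _ _ _).1 h3

/-- **the root is a minimum cut if it has degree at most 5** -/
theorem root_min (hS : Sys al ds) (hqd : ∃ d ∈ ds, nd d = q) (hOd : ∀ u ∈ O, ∃ d ∈ ds, nd d = u)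
    (hOn : O.Nonempty) (hEv : ∀ v, v ≠ q → v ∉ O → Even (dct al nd ds {v}))
    (hu4 : ∀ W : Finset N, (∃ d ∈ ds, nd d ∈ W) → (∃ d ∈ ds, nd d ∉ W) → 4 ≤ dct al nd ds W)
    (h5 : dct al nd ds {q} ≤ 5) :
    ∀ W : Finset N, q ∈ W → Disjoint W O → dct al nd ds {q} ≤ dct al nd ds W := by
  intro W h1 h2
  obtain ⟨dq, hdq, hq⟩ := hqd
  obtain ⟨u, hu⟩ := hOn
  obtain ⟨du, hdu, hdu'⟩ := hOd u hu
  have h3 := hu4 W ⟨dq, hdq, by rw [hq]; exact h1⟩
    ⟨du, hdu, by rw [hdu']; exact fun h3 => disjoint_left.1 h2 h3 hu⟩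
  have h4 := par_root hS hEv W h1 h2
  omega

/-- **ALL-EVEN GREEDY, node level**: root of degree at most 5, every edge at the root starts a chain
to the targets whose splitting keeps (U+) -/
theorem exists_grown_root (hS : Sys al ds) (hOd : ∀ u ∈ O, ∃ d ∈ ds, nd d = u) (hqO : q ∉ O)
    (hOn : O.Nonempty) (hPN : ∀ d ∈ ds, nd d ≠ q → nd d ∉ O → PN ds nd col (nd d))
    (hu4 : ∀ W : Finset N, (∃ d ∈ ds, nd d ∈ W) → (∃ d ∈ ds, nd d ∉ W) → 4 ≤ dct al nd ds W)
    (h5 : dct al nd ds {q} ≤ 5) {e0 : D} (he0 : e0 ∈ ds) (h6 : nd e0 = q) (h7 : nd (al e0) ≠ q) :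
    ∃ S al' ds' T, Grown al ds nd q O col S al' ds' T e0 ∧
      Req al' ds' nd q O (dct al nd ds {q}) := by
  have hqd : ∃ d ∈ ds, nd d = q := ⟨e0, he0, h6⟩
  have hEv := even_of_pair hqd hPN hu4
  obtain ⟨S, al', ds', T, c, hG, hR, hm⟩ := exists_grown_at (col := col) hS hqd hOd hqO hOn hPN hu4
    (mem_singleton_self q) (disjoint_singleton_left.2 hqO)
    (root_min hS hqd hOd hOn hEv hu4 h5) he0 (mem_singleton.2 h6)
    (fun h8 => h7 (mem_singleton.1 h8))
  have hc : c = e0 := by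
    obtain ⟨l, hl⟩ := hG.cons hG.cd
    rw [hl] at hm
    rcases List.mem_cons.1 hm with h8 | h8
    · exact h8.symm
    · have h9 := (hG.tail hG.cd hl h8).2
      rw [h6] at h9
      exact absurd h9 hG.Sq
  rw [hc] at hG
  exact ⟨S, al', ds', T, hG, hR⟩

variable {P : Finset D} {ns : Finset N} {w x : D}

/-- **ALL-EVEN GREEDY, vertex level**: the chain starts at the given edge `e0` of the root -/
theorem Bs.exists_out_root (hb : Bs al0 ds0 pi bl PN' ns0) (hq : q ∈ ns0) (hqP : q ∉ PN')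
    (hO : O ⊆ ns0) (hOn : O.Nonempty) (hOP : Disjoint O PN') (hqO : q ∉ O)
    (hter : ∀ p ∈ ns0, p ∉ PN' → p = q ∨ p ∈ O)
    (h4 : ∀ W ⊆ ns0, W.Nonempty → W ≠ ns0 → 4 ≤ dct al0 (nn pi bl) ds0 W)
    (h5 : dct al0 (nn pi bl) ds0 {q} ≤ 5)
    {e0 : D} (he0 : e0 ∈ ds0) (h6 : bl (pi e0) = q) (h7 : bl (pi (al0 e0)) ≠ q) :
    ∃ al ns P x, Out al0 ds0 pi bl PN' ns0 al ns P e0 x ∧
      Rq al (rd ds0 pi bl ns) (nn pi bl) ns {q} O (dct al0 (nn pi bl) ds0 {q}) ∧
      bl (pi x) ∈ O := by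
  obtain ⟨r, hr⟩ := hb.exists_col (pi e0)
  -- every node has a dart
  have hdart : ∀ p ∈ ns0, ∃ d ∈ ds0, bl (pi d) = p := by
    intro p hp
    obtain ⟨u, hu⟩ := hOn
    have hne : ({p} : Finset N) ≠ ns0 := by
      intro h1
      rw [← h1, mem_singleton] at hq
      have h2 := hO hu
      rw [← h1, mem_singleton] at h2
      exact hqO (by rw [hq, ← h2]; exact hu)
    have h1 := h4 {p} (singleton_subset_iff.2 hp) (singleton_nonempty p) hne
    obtain ⟨d, hd⟩ : (ds0.filter fun d => nn pi bl d ∈ ({p} : Finset N) ∧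
        nn pi bl (al0 d) ∉ ({p} : Finset N)).Nonempty := by
      rw [← card_pos]
      have h2 : dct al0 (nn pi bl) ds0 {p} = (ds0.filter fun d => nn pi bl d ∈ ({p} : Finset N) ∧
        nn pi bl (al0 d) ∉ ({p} : Finset N)).card := rfl
      omega
    obtain ⟨h2, h3, -⟩ := mem_filter.1 hd
    exact ⟨d, h2, mem_singleton.1 h3⟩
  have hres : ∀ W : Finset N, dct al0 (nn pi bl) ds0 W = dct al0 (nn pi bl) ds0 (W ∩ ns0) := by
    intro W
    unfold dct
    congr 1
    refine filter_congr fun d hd => ?_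
    rw [mem_inter, mem_inter]
    have m1 := hb.mem d hd
    have m2 := hb.mem _ (hb.sys.mem d hd)
    show (bl (pi d) ∈ W ∧ bl (pi (al0 d)) ∉ W) ↔
      ((bl (pi d) ∈ W ∧ bl (pi d) ∈ ns0) ∧ ¬ (bl (pi (al0 d)) ∈ W ∧ bl (pi (al0 d)) ∈ ns0))
    tauto
  have hu4 : ∀ W : Finset N, (∃ d ∈ ds0, nn pi bl d ∈ W) → (∃ d ∈ ds0, nn pi bl d ∉ W) →
      4 ≤ dct al0 (nn pi bl) ds0 W := by
    rintro W ⟨d, hd, hdW⟩ ⟨e, he, heW⟩
    rw [hres]
    refine h4 _ inter_subset_right ⟨_, mem_inter.2 ⟨hdW, hb.mem d hd⟩⟩ fun h1 => heW ?_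
    have h2 := hb.mem e he
    rw [← h1] at h2
    exact (mem_inter.1 h2).1
  obtain ⟨S, al, ds, T, hG, hR⟩ := exists_grown_root (col := cl pi bl r) hb.sys
    (fun u hu => hdart u (hO hu)) hqO hOn (fun d hd h1 h2 => hr _ (by
      by_contra h3
      rcases hter _ (hb.mem d hd) h3 with h7 | h7
      · exact h1 h7
      · exact h2 h7)) hu4 h5 he0 h6 h7
  have hds := hG.rd_eq hb
  refine ⟨al, ns0 \ S, KK al0 T e0, al e0, hG.out hb hter hq hqP hO hOP, ?_, hG.cO⟩
  rw [← hds]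
  refine ⟨fun W hW hWn hWne => ?_, fun W _ h1 h2 => hR.lm W (singleton_subset_iff.1 h1) h2,
    fun W _ h1 h2 => hR.lp W (singleton_subset_iff.1 h1) h2⟩
  obtain ⟨p, hp⟩ := hWn
  obtain ⟨p', hp', hpW'⟩ : ∃ p' ∈ ns0 \ S, p' ∉ W := by
    by_contra h1
    push Not at h1
    exact hWne (Finset.Subset.antisymm hW h1)
  obtain ⟨d, hd, hdp⟩ := hdart p (mem_sdiff.1 (hW hp)).1
  obtain ⟨e, he, hep⟩ := hdart p' (mem_sdiff.1 hp').1
  refine hR.u4 W ⟨d, (hG.mem d).2 ⟨hd, ?_⟩, ?_⟩ ⟨e, (hG.mem e).2 ⟨he, ?_⟩, ?_⟩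
  · show bl (pi d) ∉ S
    rw [hdp]
    exact (mem_sdiff.1 (hW hp)).2
  · show bl (pi d) ∈ W
    rw [hdp]
    exact hp
  · show bl (pi e) ∉ S
    rw [hep]
    exact (mem_sdiff.1 hp').2
  · show bl (pi e) ∉ W
    rw [hep]
    exact hpW'

/-- an edge at the root which is not the first edge is not used (the virtual edge) -/
theorem Out.notMem_root (ho : Out al0 ds0 pi bl PN' ns0 al ns P w x) {d : D}
    (h1 : bl (pi d) = bl (pi w)) (h2 : bl (pi x) ≠ bl (pi w)) (h3 : d ≠ w) : d ∉ P := by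
  intro h4
  rcases ho.ends d h4 (by rw [h1]; exact ho.wn) with h5 | h5
  · exact h3 h5
  · rw [h5] at h1
    exact h2 h1

end TL
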