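import Pool.Agent.Lib.RH.I4Conn
import Pool.Agent.Lib.RH.I4Glue2
import Pool.Agent.Lib.RH.F2Cut

/-! Even sets with value 2 whose boundary consists of two F-edges, integral class
(copy of F2Cut, helper78). -/

set_option autoImplicit false

namespace RH

open Finset Classical

namespace MG

variable {V D : Type*}
variable {G : MG V D} {z : D → ℝ} {t : V → ℝ} {fr : Finset V} {F : Finset D}
variable {jm sx : Finset V} {ep : V → ℕ} {m : ℕ} {M : Finset D}

namespace F2Z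

variable {Z : Finset V} {g1 g2 : D}

/-- the matching of the outer side -/
theorem solve_outerI (c : G.F2Z z t F Z g1 g2) (h : G.MCI z t fr F jm sx ep 0) :
    ∃ M, (G.pole (c.plo h.inst.wt h.inst.fresh)).IsPM M ∧ (∀ d ∈ M, 0 < z d) ∧
      ∀ X, G.Adm fr F X → G.pi g1 ∉ X → (∀ d ∈ G.bd X, G.pi d ∉ Z → d ∈ M) →
        ¬ (Odd (X \ Z).card ∨ (jm.Nonempty ∧ jm ⊆ X)) := by
  have hw := h.inst.wt
  have hF := h.inst.fresh
  set q := c.plo hw hF with hq
  have p := c.outer hw hF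
  have hsx := h.inst.sx_eq
  -- admissible sets which avoid the circuit
  have hbd : ∀ X ⊆ fr \ Z, (G.pole q).bd X ⊆ G.bd X ∧
      (G.pi (G.al g1) ∉ X → G.bd X ⊆ (G.pole q).bd X) := by
    intro X hX
    have hd : Disjoint X Z := disjoint_left.2 fun v hv => (mem_sdiff.1 (hX hv)).2
    constructor
    · by_cases hab : G.pi (G.al g1) ∈ X ∧ G.pi (G.al g2) ∈ X
      · rw [pole_bd2 q hd hab.1 hab.2]
        exact filter_subset _ _
      · rw [pole_bd q hd hab]
        exact filter_subset _ _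
    · intro h1
      rw [pole_bd q hd fun h => h1 h.1]
      intro d hd1
      refine mem_filter.2 ⟨hd1, ?_⟩
      obtain ⟨m1, m2, m3⟩ := mem_bd.1 hd1
      by_cases e1 : d = G.al g1
      · exact Or.inl e1
      · by_cases e2 : d = G.al g2
        · exact Or.inr (Or.inl e2)
        · obtain ⟨k1, k2⟩ := mem_sdiff.1 (hX m2)
          exact Or.inr (Or.inr (c.Fin' hw hF m1 (z1 hF m1 k1) k2 e1 e2))
  have hadm : ∀ X, (G.pole q).Adm (fr \ Z) (F.filter fun d => G.pi d ∉ Z) X →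
      Disjoint X {G.pi (G.al g1)} → G.Adm fr F X := by
    intro X hX hB
    have hc1 : G.pi (G.al g1) ∉ X := fun h1 => disjoint_left.1 hB h1 (mem_singleton_self _)
    have hZ : ∀ v ∈ X, v ∉ Z := fun v hv => (mem_sdiff.1 (hX.sub hv)).2
    have hF2 : G.al g2 ∈ F.filter fun d => G.pi d ∉ Z :=
      mem_filter.2 ⟨hF.Fal g2 c.F2, (mem_bd.1 c.b2).2.2⟩
    have hc2 : G.pi (G.al g2) ∉ X := by
      intro h1
      have h2 := hX.clo (G.al g2) hF2 h1
      rw [pole_al_b] at h2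
      exact hc1 h2
    refine ⟨fun v hv => (mem_sdiff.1 (hX.sub hv)).1, fun d hd hp => ?_⟩
    have hds := hF.Fsub hd
    have hdZ := hZ _ hp
    have e1 : d ≠ G.al g1 := fun h1 => hc1 (h1 ▸ hp)
    have e2 : d ≠ G.al g2 := fun h1 => hc2 (h1 ▸ hp)
    have h3 := hX.clo d (mem_filter.2 ⟨hd, hdZ⟩) hp
    rwa [pole_al q e1 e2] at h3
  have hep : ∀ X ⊆ fr, ∑ v ∈ X, ep v ≤ (X ∩ jm).card := by
    intro X hX
    rw [← sum_ite_card]
    exact sum_le_sum fun v hv => h.inst.epj v (hX hv)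
  have hR : (G.pole q).RawI z t (fr \ Z) (F.filter fun d => G.pi d ∉ Z) jm
      {G.pi (G.al g1)} 0 := by
    refine ⟨?_, p.wt hw q, ?_, ?_, h.inst.jm2, ?_, fun X _ _ _ _ => Nat.zero_le _, ?_⟩
    · have h1 := card_sdiff_add_card_eq_card c.sub
      have h2 := c.even
      have h3 := h.inst.even
      have h4 : (G.pole q).vs.card = (G.vs \ Z).card := rfl
      rw [Nat.even_iff] at h2 h3 ⊢
      omega
    · rw [p.tau q]
      exact h.inst.tau
    · exact c.frB_out hw hF q _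
    · intro X hX hB ho
      have h1 := hadm X hX hB
      have h2 : G.pi (G.al g1) ∉ X := fun h1 => disjoint_left.1 hB h1 (mem_singleton_self _)
      rw [(hbd X hX.sub).1.antisymm ((hbd X hX.sub).2 h2)]
      exact (h.inst.cc X h1 ho).trans (Nat.add_le_add_left (hep X h1.sub) _)
    · intro X hX hB he hn hj
      have h1 := hadm X hX hB
      have h2 : G.pi (G.al g1) ∉ X := fun h1 => disjoint_left.1 hB h1 (mem_singleton_self _)
      rw [(hbd X hX.sub).1.antisymm ((hbd X hX.sub).2 h2)]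
      refine h.inst.b0 X h1 he ?_ ?_
      · rw [hsx]; exact hn
      · rw [hsx]; exact hj
  obtain ⟨M, hM, hpos, hhit⟩ := h.solve hR (Int4.of_raw hR fun d hd => h.i4.zi d ((mem_pole_ds _).1 hd).1) (Or.inl (by
    refine card_lt_card ⟨sdiff_subset, fun h1 => ?_⟩
    exact (mem_sdiff.1 (h1 (hF.Ffr g1 c.F1))).2 (mem_bd.1 c.b1).2.1))
  refine ⟨M, hM, hpos, fun X hX h1 hcl hodd => ?_⟩
  obtain ⟨s1, s2, s3⟩ := c.same_iff hw hF hX
  have n1 : G.pi (G.al g1) ∉ X := fun h2 => h1 (s2.2 h2)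
  have n2 : G.pi (G.al g2) ∉ X := fun h2 => h1 (s3.2 h2)
  have hcr : ∀ d ∈ G.ds, G.pi d ∈ X → G.pi d ∉ Z → G.pi (G.al d) ∉ Z := fun d hd hp hz =>
    c.Fin' hw hF hd (z1 hF hd (hX.sub hp)) hz (fun e => n1 (e ▸ hp)) (fun e => n2 (e ▸ hp))
  have hXY : (G.pole q).Adm (fr \ Z) (F.filter fun d => G.pi d ∉ Z) (X \ Z) := by
    refine ⟨sdiff_subset_sdiff hX.sub (Finset.Subset.refl _), fun d hd hp => ?_⟩
    obtain ⟨k1, k2⟩ := mem_filter.1 hd
    obtain ⟨k3, k4⟩ := mem_sdiff.1 hp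
    rw [pole_al q (fun e => n1 (e ▸ k3)) (fun e => n2 (e ▸ k3))]
    exact mem_sdiff.2 ⟨hX.clo d k1 k3, hcr d (hF.Fsub k1) k3 k4⟩
  obtain ⟨d, hd, hdM⟩ := hhit (X \ Z) hXY
    (disjoint_singleton_right.2 fun h2 => n1 (mem_sdiff.1 h2).1) (by
      rcases hodd with h2 | ⟨h2, h3⟩
      · exact Or.inl h2
      · exact Or.inr ⟨h2, fun v hv => mem_sdiff.2 ⟨h3 hv, c.jm_dis hw hF hv⟩⟩)
  have hd1 := (hbd _ hXY.sub).1 hd
  obtain ⟨m1, m2, m3⟩ := mem_bd.1 hd1
  obtain ⟨m4, m5⟩ := mem_sdiff.1 m2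
  refine hdM (hcl d (mem_bd.2 ⟨m1, m4, fun h2 => m3 (mem_sdiff.2 ⟨h2, hcr d m1 m4 m5⟩)⟩) m5)

theorem solve_innerI [Infinite V] [Infinite D] (c : G.F2Z z t F Z g1 g2)
    (h : G.MCI z t fr F jm sx ep 0)
    (hJ0 : ∀ S ⊆ Z, Even S.card → S.Nonempty → G.val z t S ≠ 0)
    (hJ : ∀ S ⊆ Z, Even S.card → (∀ d ∈ F, G.pi d ∈ S → G.pi (G.al d) ∈ S) →
      (∃ e ∈ G.ds, G.pi e ∈ S ∧ G.pi e ∈ fr ∧ G.pi (G.al e) ∉ S ∧ G.pi (G.al e) ∈ fr) →
      G.val z t S ≠ 2)
    (hQ : ∃ v ∈ Z, v ∉ fr) {f : D} (hf : f ∈ F) (hfa : G.pi f = G.pi g1) :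
    ∃ N ⊆ G.ds, (∀ d ∈ N, G.pi d ∈ Z) ∧ f ∉ N ∧ (∀ d ∈ N, 0 < z d) ∧ (g1 ∈ N ↔ g2 ∈ N) ∧
      (∀ d ∈ N, d ≠ g1 → d ≠ g2 → G.al d ∈ N) ∧
      (∀ v ∈ Z, (N.filter fun d => G.pi d = v).card = 1) ∧
      (∀ d ∈ N, G.pi d = G.pi g1 → d ∈ F) ∧
      ∀ X, G.Adm fr F X → (∀ d ∈ G.bd X, G.pi d ∈ Z → d ∈ N) →
        G.pi g1 ∉ X ∧ ¬ Odd (X ∩ Z).card := by
  have hw := h.inst.wt
  have hF := h.inst.fresh
  have he := h.inst.even
  have m1 := mem_bd.1 c.b1
  have m2 := mem_bd.1 c.b2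
  set a0 := G.pi g1 with ha0
  have hda : a0 ≠ G.pi g2 := c.d_ne hw hF
  have ha0Z : a0 ∈ Z := m1.2.1
  have ha0f : a0 ∈ fr := hF.Ffr g1 c.F1
  have ha0j : a0 ∉ jm := fun hh => c.jm_dis hw hF hh ha0Z
  obtain ⟨j, hj, hja, hjF, hju⟩ := hF.exists_jd ha0f ha0j
  have hj1 : j ≠ g1 := fun e => hjF (e ▸ c.F1)
  have hj2 : j ≠ g2 := fun e => hjF (e ▸ c.F2)
  have hFal' : ∀ d ∈ G.ds, G.al d ∈ F → d ∈ F := by
    intro d hd h1
    rw [← G.al_al d hd]
    exact hF.Fal _ h1
  have hajF : G.al j ∉ F := fun h1 => hjF (hFal' j hj h1)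
  have haj1 : G.al j ≠ g1 := fun e => hajF (e ▸ c.F1)
  have haj2 : G.al j ≠ g2 := fun e => hajF (e ▸ c.F2)
  have hajds := G.al_mem j hj
  set y := G.pi (G.al j) with hy
  have hya : y ≠ a0 := by
    have := G.noloop j hj
    rwa [hja] at this
  have hzj : z j = 1 := hF.unit j hj (by rw [hja]; exact ha0f)
  have hyZ : y ∈ Z := c.Fout hw hF hj (by rw [hzj]; norm_num) (by rw [hja]; exact ha0Z) hj1 hj2
  -- the graph with the edge `d1 d2`
  set qi := c.pli hw hF he with hqi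
  have hvs1 : (G.pole qi).vs = Z := Finset.sdiff_sdiff_eq_self c.sub
  have hw1 := c.wti hw hF he
  have hds1 : ∀ d, d ∈ (G.pole qi).ds ↔
      d ∈ G.ds ∧ G.pi d ∈ Z ∧ (d = g1 ∨ d = g2 ∨ G.pi (G.al d) ∈ Z) := by
    intro d
    rw [mem_pole_ds]
    constructor
    · rintro ⟨h1, h2, h3⟩
      have k1 : G.pi d ∈ Z := by
        by_contra hn
        exact h2 (mem_sdiff.2 ⟨G.pi_mem d h1, hn⟩)
      refine ⟨h1, k1, ?_⟩
      rcases h3 with h3 | h3 | h3
      · exact Or.inl h3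
      · exact Or.inr (Or.inl h3)
      · refine Or.inr (Or.inr ?_)
        by_contra hn
        exact h3 (mem_sdiff.2 ⟨G.pi_mem _ (G.al_mem d h1), hn⟩)
    · rintro ⟨h1, h2, h3⟩
      refine ⟨h1, fun hn => (mem_sdiff.1 hn).2 h2, ?_⟩
      rcases h3 with h3 | h3 | h3
      · exact Or.inl h3
      · exact Or.inr (Or.inl h3)
      · exact Or.inr (Or.inr fun hn => (mem_sdiff.1 hn).2 h3)
  have hal1 : ∀ d, d ≠ g1 → d ≠ g2 → (G.pole qi).al d = G.al d := fun d n1 n2 => pole_al qi n1 n2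
  -- deletion of the edge `a y`
  set K : Finset D := {j, G.al j} with hKdef
  have hKm : ∀ d, d ∈ K ↔ d = j ∨ d = G.al j := by
    intro d
    rw [hKdef, mem_insert, mem_singleton]
  have hK : ∀ d ∈ K, (G.pole qi).al d ∈ K := by
    intro d hd
    rcases (hKm d).1 hd with rfl | rfl
    · rw [hal1 _ hj1 hj2]
      exact (hKm _).2 (Or.inr rfl)
    · rw [hal1 _ haj1 haj2, G.al_al j hj]
      exact (hKm _).2 (Or.inl rfl)
  have hKs : K ⊆ (G.pole qi).ds := by
    intro d hd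
    rcases (hKm d).1 hd with rfl | rfl
    · exact (hds1 _).2 ⟨hj, by rw [hja]; exact ha0Z, Or.inr (Or.inr hyZ)⟩
    · refine (hds1 _).2 ⟨hajds, hyZ, Or.inr (Or.inr ?_)⟩
      rw [G.al_al j hj, hja]
      exact ha0Z
  have hKF : ∀ d ∈ K, d ∉ F := by
    intro d hd
    rcases (hKm d).1 hd with rfl | rfl
    · exact hjF
    · exact hajF
  have hjne : j ≠ G.al j := by
    intro e
    apply hya
    rw [hy, ← e, hja]
  have hzaj : z (G.al j) = 1 := by rw [hw.sym j hj, hzj]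
  have hKsum : ∑ d ∈ K, z d = 2 := by
    rw [hKdef, sum_pair hjne, hzj, hzaj]
    norm_num
  clear_value K
  have hw2 := hw1.delM hKs hK
  set G2 := (G.pole qi).delM K hK with hG2
  set t2 := kt (G.pole qi) z (fun _ => 0) K with ht2
  have hds2 : ∀ d, d ∈ G2.ds ↔ (d ∈ G.ds ∧ G.pi d ∈ Z ∧
      (d = g1 ∨ d = g2 ∨ G.pi (G.al d) ∈ Z)) ∧ d ∉ K := by
    intro d
    rw [hG2, mem_delM_ds, hds1]
  have hvs2 : G2.vs = Z := hvs1
  have hpi2 : ∀ d, G2.pi d = G.pi d := fun d => rfl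
  have hF2 : ∀ d ∈ F, G.pi d ∈ Z → d ∈ G2.ds := by
    intro d hd hp
    have hds := hF.Fsub hd
    refine (hds2 d).2 ⟨⟨hds, hp, ?_⟩, fun hk => hKF d hk hd⟩
    by_cases e1 : d = g1
    · exact Or.inl e1
    · by_cases e2 : d = g2
      · exact Or.inr (Or.inl e2)
      · exact Or.inr (Or.inr (c.Fout hw hF hds (z1 hF hds (hF.Ffr d hd)) hp e1 e2))
  have ht2a : t2 a0 = 1 := by
    have : K.filter (fun d => G.pi d = a0) = {j} := by
      ext d
      rw [mem_filter, hKm, mem_singleton]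
      constructor
      · rintro ⟨rfl | rfl, h2⟩
        · rfl
        · exact absurd h2 hya
      · rintro rfl
        exact ⟨Or.inl rfl, hja⟩
    change (0 : ℝ) + ∑ d ∈ K.filter (fun d => G.pi d = a0), z d = 1
    rw [this, sum_singleton, hzj, zero_add]
  have hfds : f ∈ G2.ds := hF2 f hf (by rw [hfa]; exact ha0Z)
  have hfg2 : f ≠ g2 := by
    intro e
    apply hda
    rw [← hfa, e]
  have hfG := hF.Fsub hf
  -- new vertices and darts
  obtain ⟨s, hs⟩ := Infinite.exists_notMem_finset G.vs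
  obtain ⟨r, hr⟩ := Infinite.exists_notMem_finset (insert s G.vs)
  obtain ⟨e, hee⟩ := Infinite.exists_notMem_finset G.ds
  obtain ⟨e', hee'⟩ := Infinite.exists_notMem_finset (insert e G.ds)
  obtain ⟨k, hk⟩ := Infinite.exists_notMem_finset (insert e' (insert e G.ds))
  obtain ⟨k', hk'⟩ := Infinite.exists_notMem_finset (insert k (insert e' (insert e G.ds)))
  simp only [mem_insert, not_or] at hr hee' hk hk'
  have hG2G : ∀ d ∈ G2.ds, d ∈ G.ds := fun d hd => ((hds2 d).1 hd).1.1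
  have hZs : s ∉ Z := fun h1 => hs (c.sub h1)
  have hZr : r ∉ Z := fun h1 => hr.2 (c.sub h1)
  have x : ExD G2 a0 s r s {f} e e' k k' :=
    { hw := by rw [hvs2]; exact ha0Z
      ha := by rw [hvs2]; exact hZs
      hb := by rw [hvs2]; exact hZr
      hab := fun e1 => hr.1 e1.symm
      hc := Or.inl rfl
      hR := fun d hd => by
        rw [mem_singleton] at hd
        rw [hd]
        exact ⟨hfds, hfa⟩
      he := fun h1 => hee (hG2G _ h1)
      he' := fun h1 => hee'.2 (hG2G _ h1)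
      hh := fun h1 => hk.2.2 (hG2G _ h1)
      hh' := fun h1 => hk'.2.2.2 (hG2G _ h1)
      n1 := fun e1 => hee'.1 e1.symm
      n2 := fun e1 => hk.2.1 e1.symm
      n3 := fun e1 => hk'.2.2.1 e1.symm
      n4 := fun e1 => hk.1 e1.symm
      n5 := fun e1 => hk'.2.1 e1.symm
      n6 := fun e1 => hk'.1 e1.symm }
  have hwx := x.wt_sub (z := z) (t := t2) hw2 (by rw [sum_singleton]; exact hF.unit f hfG (by rw [hfa]; exact ha0f))
    (by rw [ht2a])
  set G3 := exG x with hG3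
  set z3 := exZ z 1 e e' k k' with hz3
  set t3 := exT t2 a0 s r 0 2 (t2 a0) with ht3
  have hds3 : ∀ d, d ∈ G3.ds ↔ d = e ∨ d = e' ∨ d = k ∨ d = k' ∨ d ∈ G2.ds := by
    intro d
    change d ∈ insert e (insert e' (insert k (insert k' G2.ds))) ↔ _
    simp only [mem_insert]
  have hvs3 : ∀ v, v ∈ G3.vs ↔ v = s ∨ v = r ∨ v ∈ Z := by
    intro v
    change v ∈ insert s (insert r G2.vs) ↔ _
    simp only [mem_insert, hvs2]
  have hpe : G3.pi e = a0 := x.pi_e
  have hpe' : G3.pi e' = s := x.pi_e'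
  have hpk : G3.pi k = s := x.pi_h
  have hpk' : G3.pi k' = r := x.pi_h'
  have hpo : ∀ d ∈ G2.ds, G3.pi d = if d = f then s else G.pi d := by
    intro d hd
    have h1 : G3.pi d = if d ∈ ({f} : Finset D) then s else G2.pi d := x.pi_old hd
    simp only [mem_singleton] at h1
    exact h1
  have hae : G3.al e = e' := x.al_e
  have hae' : G3.al e' = e := x.al_e'
  have hak : G3.al k = k' := x.al_h
  have hak' : G3.al k' = k := x.al_h'
  have hao : ∀ d ∈ G2.ds, G3.al d = (G.pole qi).al d := fun d hd => x.al_old hd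
  have hpf : G3.pi f = s := by rw [hpo f hfds, if_pos rfl]
  have hpn : ∀ d ∈ G2.ds, d ≠ f → G3.pi d = G.pi d := fun d hd hn => by rw [hpo d hd, if_neg hn]
  have hzo : ∀ d ∈ G2.ds, z3 d = z d := fun d hd => x.z_old hd
  have hz3i : ∀ d ∈ G3.ds, ∃ n : ℕ, z3 d = n := by
    intro d hd
    rcases (hds3 d).1 hd with h1 | h1 | h1 | h1 | h1
    · exact ⟨1, by rw [h1, Nat.cast_one]; exact x.z_e⟩
    · exact ⟨1, by rw [h1, Nat.cast_one]; exact x.z_e'⟩
    · exact ⟨1, by rw [h1, Nat.cast_one]; exact x.z_h⟩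
    · exact ⟨1, by rw [h1, Nat.cast_one]; exact x.z_h'⟩
    · rw [hzo d h1]
      exact h.i4.zi d (hG2G d h1)
  have hG2Z : ∀ d ∈ G2.ds, G.pi d ∈ Z := fun d hd => ((hds2 d).1 hd).1.2.1
  have hsr : s ≠ r := x.hab
  -- the new fresh vertices and F-darts
  set fr3 : Finset V := insert s (fr ∩ Z) with hfr3
  set F3 : Finset D := insert e (insert e' (F.filter fun d => G.pi d ∈ Z)) with hF3
  have mfr3 : ∀ v, v ∈ fr3 ↔ v = s ∨ (v ∈ fr ∧ v ∈ Z) := by
    intro v
    rw [hfr3, mem_insert, mem_inter]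
  have mF3 : ∀ d, d ∈ F3 ↔ d = e ∨ d = e' ∨ (d ∈ F ∧ G.pi d ∈ Z) := by
    intro d
    rw [hF3, mem_insert, mem_insert, mem_filter]
  have mF3o : ∀ d ∈ G.ds, d ∈ F3 ↔ (d ∈ F ∧ G.pi d ∈ Z) := by
    intro d hd
    rw [mF3]
    constructor
    · rintro (rfl | rfl | h1)
      · exact absurd hd hee
      · exact absurd hd hee'.2
      · exact h1
    · exact fun h1 => Or.inr (Or.inr h1)
  have hs3 : s ∉ fr := fun h1 => hs (hF.fsub h1)
  clear_value F3 fr3
  -- the involution on old F-darts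
  have hFal3 : ∀ d ∈ F, G.pi d ∈ Z → (G.pole qi).al d ∈ F ∧ G.pi ((G.pole qi).al d) ∈ Z := by
    intro d hd hp
    by_cases e1 : d = g1
    · rw [e1, pole_al_a]
      exact ⟨c.F2, m2.2.1⟩
    · by_cases e2 : d = g2
      · rw [e2, pole_al_b]
        exact ⟨c.F1, m1.2.1⟩
      · rw [hal1 d e1 e2]
        exact ⟨hF.Fal d hd, c.Fout hw hF (hF.Fsub hd) (z1 hF (hF.Fsub hd) (hF.Ffr d hd)) hp e1 e2⟩
  obtain ⟨jm3, B3, hcase⟩ : ∃ jm3 B3 : Finset V, (y ∈ fr ∧ jm3 = {a0, y} ∧ B3 = ∅) ∨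
      (y ∉ fr ∧ jm3 = ∅ ∧ B3 = {a0}) := by
    by_cases hyf : y ∈ fr
    · exact ⟨_, _, Or.inl ⟨hyf, rfl, rfl⟩⟩
    · exact ⟨_, _, Or.inr ⟨hyf, rfl, rfl⟩⟩
  have hsa0 : s ≠ a0 := fun e1 => hZs (e1 ▸ ha0Z)
  have hsy : s ≠ y := fun e1 => hZs (e1 ▸ hyZ)
  -- darts at old vertices
  have hst3 : ∀ v ∈ Z, v ≠ a0 → ∀ d, (d ∈ G3.ds ∧ G3.pi d = v) ↔ (d ∈ G2.ds ∧ G.pi d = v) := by
    intro v hv hva d
    constructor
    · rintro ⟨h1, h2⟩
      rcases (hds3 d).1 h1 with rfl | rfl | rfl | rfl | h3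
      · rw [hpe] at h2; exact absurd h2.symm hva
      · rw [hpe'] at h2; exact absurd (h2 ▸ hv) hZs
      · rw [hpk] at h2; exact absurd (h2 ▸ hv) hZs
      · rw [hpk'] at h2; exact absurd (h2 ▸ hv) hZr
      · refine ⟨h3, ?_⟩
        by_cases e1 : d = f
        · rw [e1, hpf] at h2; exact absurd (h2 ▸ hv) hZs
        · rwa [hpn d h3 e1] at h2
    · rintro ⟨h1, h2⟩
      refine ⟨(hds3 d).2 (Or.inr (Or.inr (Or.inr (Or.inr h1)))), ?_⟩
      have e1 : d ≠ f := by
        intro e1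
        rw [e1, hfa] at h2
        exact hva h2.symm
      rw [hpn d h1 e1]
      exact h2
  have hsta : ∀ d, (d ∈ G3.ds ∧ G3.pi d = a0) ↔ (d = e ∨ (d ∈ G2.ds ∧ G.pi d = a0 ∧ d ≠ f)) := by
    intro d
    constructor
    · rintro ⟨h1, h2⟩
      rcases (hds3 d).1 h1 with rfl | rfl | rfl | rfl | h3
      · exact Or.inl rfl
      · rw [hpe'] at h2; exact absurd h2 hsa0
      · rw [hpk] at h2; exact absurd h2 hsa0
      · rw [hpk'] at h2; exact absurd (h2 ▸ ha0Z) hZr
      · by_cases e1 : d = f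
        · rw [e1, hpf] at h2; exact absurd h2 hsa0
        · rw [hpn d h3 e1] at h2
          exact Or.inr ⟨h3, h2, e1⟩
    · rintro (rfl | ⟨h1, h2, h3⟩)
      · exact ⟨(hds3 _).2 (Or.inl rfl), hpe⟩
      · exact ⟨(hds3 d).2 (Or.inr (Or.inr (Or.inr (Or.inr h1)))), by rw [hpn d h1 h3]; exact h2⟩
  have hsts : ∀ d, (d ∈ G3.ds ∧ G3.pi d = s) ↔ (d = e' ∨ d = k ∨ d = f) := by
    intro d
    constructor
    · rintro ⟨h1, h2⟩
      rcases (hds3 d).1 h1 with rfl | rfl | rfl | rfl | h3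
      · rw [hpe] at h2; exact absurd h2.symm hsa0
      · exact Or.inl rfl
      · exact Or.inr (Or.inl rfl)
      · rw [hpk'] at h2; exact absurd h2.symm hsr
      · by_cases e1 : d = f
        · exact Or.inr (Or.inr e1)
        · rw [hpn d h3 e1] at h2
          exact absurd (h2 ▸ hG2Z d h3) hZs
    · rintro (rfl | rfl | rfl)
      · exact ⟨(hds3 _).2 (Or.inr (Or.inl rfl)), hpe'⟩
      · exact ⟨(hds3 _).2 (Or.inr (Or.inr (Or.inl rfl))), hpk⟩
      · exact ⟨(hds3 _).2 (Or.inr (Or.inr (Or.inr (Or.inr hfds)))), hpf⟩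
  have hstr : ∀ d, d ∈ G3.ds → G3.pi d = r → d = k' := by
    intro d h1 h2
    rcases (hds3 d).1 h1 with rfl | rfl | rfl | rfl | h3
    · rw [hpe] at h2; exact absurd (h2 ▸ ha0Z) hZr
    · rw [hpe'] at h2; exact absurd h2 hsr
    · rw [hpk] at h2; exact absurd h2 hsr
    · rfl
    · by_cases e1 : d = f
      · rw [e1, hpf] at h2; exact absurd h2 hsr
      · rw [hpn d h3 e1] at h2
        exact absurd (h2 ▸ hG2Z d h3) hZr
  have hy0 : y ∈ fr → ∀ d ∈ G2.ds, G.pi d = y → d ∈ F := by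
    intro hyf d hd hp
    obtain ⟨j', hj', -, -, hju'⟩ := hF.exists_jd hyf (fun hh => c.jm_dis hw hF hh hyZ)
    by_contra hn
    have h1 := hju' d (hG2G d hd) hp hn
    have h2 := hju' (G.al j) hajds rfl hajF
    exact ((hds2 d).1 hd).2 ((hKm d).2 (Or.inr (h1.trans h2.symm)))
  have ha00 : ∀ d ∈ G2.ds, G.pi d = a0 → d ∈ F := by
    intro d hd hp
    by_contra hn
    exact ((hds2 d).1 hd).2 ((hKm d).2 (Or.inl (hju d (hG2G d hd) hp hn)))
  have hFrB : G3.FrB z3 fr3 F3 jm3 B3 := by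
    refine ⟨?_, ?_, ?_, ?_, ?_, ?_, ?_, ?_⟩
    · intro v hv
      rcases (mfr3 v).1 hv with h1 | ⟨h1, h2⟩
      · exact (hvs3 _).2 (Or.inl h1)
      · exact (hvs3 _).2 (Or.inr (Or.inr h2))
    · intro d hd
      rcases (mF3 d).1 hd with h1 | h1 | ⟨h1, h2⟩
      · exact (hds3 _).2 (Or.inl h1)
      · exact (hds3 _).2 (Or.inr (Or.inl h1))
      · exact (hds3 _).2 (Or.inr (Or.inr (Or.inr (Or.inr (hF2 d h1 h2)))))
    · intro d hd
      rcases (mF3 d).1 hd with h1 | h1 | ⟨h1, h2⟩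
      · rw [h1, hae]; exact (mF3 _).2 (Or.inr (Or.inl rfl))
      · rw [h1, hae']; exact (mF3 _).2 (Or.inl rfl)
      · rw [hao d (hF2 d h1 h2)]
        exact (mF3 _).2 (Or.inr (Or.inr (hFal3 d h1 h2)))
    · intro v hv
      rcases hcase with ⟨h1, h2, -⟩ | ⟨-, h2, -⟩
      · rw [h2, mem_insert, mem_singleton] at hv
        rcases hv with h3 | h3
        · rw [h3]; exact (mfr3 _).2 (Or.inr ⟨ha0f, ha0Z⟩)
        · rw [h3]; exact (mfr3 _).2 (Or.inr ⟨h1, hyZ⟩)
      · rw [h2] at hv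
        exact absurd hv (notMem_empty _)
    · intro v hv _
      have hmem : ∀ d, (d ∈ F3 ∧ G3.pi d = v) ↔ (d ∈ F3 ∧ d ∈ G3.ds ∧ G3.pi d = v) := by
        intro d
        constructor
        · rintro ⟨h1, h2⟩
          refine ⟨h1, ?_, h2⟩
          rcases (mF3 d).1 h1 with h3 | h3 | ⟨h3, h4⟩
          · exact (hds3 _).2 (Or.inl h3)
          · exact (hds3 _).2 (Or.inr (Or.inl h3))
          · exact (hds3 _).2 (Or.inr (Or.inr (Or.inr (Or.inr (hF2 d h3 h4)))))
        · rintro ⟨h1, -, h2⟩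
          exact ⟨h1, h2⟩
      rcases (mfr3 v).1 hv with h1 | ⟨h1, h2⟩
      · have h3 : (F3.filter fun d => G3.pi d = v) = {e', f} := by
          ext d
          rw [mem_filter, hmem, h1, hsts, mem_insert, mem_singleton]
          constructor
          · rintro ⟨k1, rfl | rfl | rfl⟩
            · exact Or.inl rfl
            · rcases (mF3 _).1 k1 with k2 | k2 | k2
              · exact absurd k2 hk.2.1
              · exact absurd k2 hk.1
              · exact absurd (hF.Fsub k2.1) hk.2.2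
            · exact Or.inr rfl
          · rintro (rfl | rfl)
            · exact ⟨(mF3 _).2 (Or.inr (Or.inl rfl)), Or.inl rfl⟩
            · exact ⟨(mF3 _).2 (Or.inr (Or.inr ⟨hf, by rw [hfa]; exact ha0Z⟩)),
                Or.inr (Or.inr rfl)⟩
        rw [h3, card_pair]
        intro e1
        exact hee'.2 (e1 ▸ hfG)
      · by_cases hva : v = a0
        · have h3 : (F3.filter fun d => G3.pi d = v) =
              insert e ((F.filter fun d => G.pi d = a0).erase f) := by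
            ext d
            rw [mem_filter, hmem, hva, hsta, mem_insert, mem_erase, mem_filter]
            constructor
            · rintro ⟨k1, k2 | ⟨k2, k3, k4⟩⟩
              · exact Or.inl k2
              · exact Or.inr ⟨k4, ((mF3o d (hG2G d k2)).1 k1).1, k3⟩
            · rintro (k1 | ⟨k1, k2, k3⟩)
              · exact ⟨(mF3 _).2 (Or.inl k1), Or.inl k1⟩
              · exact ⟨(mF3 _).2 (Or.inr (Or.inr ⟨k2, by rw [k3]; exact ha0Z⟩)),
                  Or.inr ⟨hF2 d k2 (by rw [k3]; exact ha0Z), k3, k1⟩⟩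
          rw [h3, card_insert_of_notMem, card_erase_of_mem (mem_filter.2 ⟨hf, hfa⟩),
            hF.two a0 ha0f]
          intro k1
          exact hee (hF.Fsub (mem_filter.1 (mem_erase.1 k1).2).1)
        · rw [← hF.two v h1]
          congr 1
          ext d
          rw [mem_filter, hmem, hst3 v h2 hva, mem_filter]
          constructor
          · rintro ⟨k1, k2, k3⟩
            exact ⟨((mF3o d (hG2G d k2)).1 k1).1, k3⟩
          · rintro ⟨k1, k2⟩
            exact ⟨(mF3 _).2 (Or.inr (Or.inr ⟨k1, by rw [k2]; exact h2⟩)),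
              hF2 d k1 (by rw [k2]; exact h2), k2⟩
    · intro v hv hvB hvj
      rcases (mfr3 v).1 hv with h1 | ⟨h1, h2⟩
      · have h3 : ((G3.st v).filter fun d => d ∉ F3) = {k} := by
          ext d
          rw [mem_filter, mem_st, h1, hsts, mem_singleton]
          constructor
          · rintro ⟨rfl | rfl | rfl, k1⟩
            · exact absurd ((mF3 _).2 (Or.inr (Or.inl rfl))) k1
            · rfl
            · exact absurd ((mF3 _).2 (Or.inr (Or.inr ⟨hf, by rw [hfa]; exact ha0Z⟩))) k1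
          · rintro rfl
            refine ⟨Or.inr (Or.inl rfl), fun k1 => ?_⟩
            rcases (mF3 _).1 k1 with k2 | k2 | k2
            · exact absurd k2 hk.2.1
            · exact absurd k2 hk.1
            · exact absurd (hF.Fsub k2.1) hk.2.2
        rw [h3, card_singleton]
      · have hva : v ≠ a0 := by
          intro e1
          rcases hcase with ⟨-, k1, -⟩ | ⟨-, -, k1⟩
          · exact hvj (by rw [k1, e1]; exact mem_insert_self _ _)
          · exact hvB (by rw [k1, e1]; exact mem_singleton_self _)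
        have hvy : v ≠ y := by
          intro e1
          rcases hcase with ⟨-, k1, -⟩ | ⟨k1, -, -⟩
          · exact hvj (by rw [k1, e1]; exact mem_insert_of_mem (mem_singleton_self _))
          · exact k1 (e1 ▸ h1)
        rw [← hF.jd v h1 (fun hh => c.jm_dis hw hF hh h2)]
        congr 1
        ext d
        rw [mem_filter, mem_st, hst3 v h2 hva, mem_filter, mem_st]
        constructor
        · rintro ⟨⟨k1, k2⟩, k3⟩
          refine ⟨⟨hG2G d k1, k2⟩, fun k4 => k3 ?_⟩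
          exact (mF3 _).2 (Or.inr (Or.inr ⟨k4, by rw [k2]; exact h2⟩))
        · rintro ⟨⟨k1, k2⟩, k3⟩
          refine ⟨⟨(hds2 d).2 ⟨⟨k1, by rw [k2]; exact h2, ?_⟩, fun k4 => ?_⟩, k2⟩, fun k4 =>
            k3 ((mF3o d k1).1 k4).1⟩
          · by_cases e1 : d = g1
            · exact Or.inl e1
            · by_cases e2 : d = g2
              · exact Or.inr (Or.inl e2)
              · exact Or.inr (Or.inr (c.Fout hw hF k1 (z1 hF k1 (by rw [k2]; exact h1))
                  (by rw [k2]; exact h2) e1 e2))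
          · rcases (hKm d).1 k4 with e1 | e1
            · rw [e1, hja] at k2
              exact hva k2.symm
            · rw [e1] at k2
              exact hvy k2.symm
    · intro v hv hvB d hd
      obtain ⟨k1, k2⟩ := mem_st.1 hd
      rcases hcase with ⟨h1, h2, -⟩ | ⟨-, h2, -⟩
      · rw [h2, mem_insert, mem_singleton] at hv
        rcases hv with h3 | h3
        · rw [h3] at k2
          rcases (hsta d).1 ⟨k1, k2⟩ with h4 | ⟨h4, h5, -⟩
          · exact (mF3 _).2 (Or.inl h4)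
          · exact (mF3 _).2 (Or.inr (Or.inr ⟨ha00 d h4 h5, by rw [h5]; exact ha0Z⟩))
        · rw [h3] at k2
          obtain ⟨h4, h5⟩ := (hst3 y hyZ hya d).1 ⟨k1, k2⟩
          exact (mF3 _).2 (Or.inr (Or.inr ⟨hy0 h1 d h4 h5, by rw [h5]; exact hyZ⟩))
      · rw [h2] at hv
        exact absurd hv (notMem_empty _)
    · intro d hd hp _
      rcases (hds3 d).1 hd with h3 | h3 | h3 | h3 | h3
      · rw [h3]; exact x.z_e
      · rw [h3]; exact x.z_e'
      · rw [h3]; exact x.z_h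
      · rw [h3]; exact x.z_h'
      · rw [hzo d h3]
        by_cases e1 : d = f
        · rw [e1]
          exact hF.unit f hfG (by rw [hfa]; exact ha0f)
        · rw [hpn d h3 e1] at hp
          rcases (mfr3 _).1 hp with h4 | h4
          · exact absurd (h4 ▸ hG2Z d h3) hZs
          · exact hF.unit d (hG2G d h3) h4.1
  -- admissible sets
  have hsa : ∀ X, G3.Adm fr3 F3 X → (s ∈ X ↔ a0 ∈ X) := by
    intro X hX
    have k1 : e ∈ F3 := (mF3 _).2 (Or.inl rfl)
    have k2 : e' ∈ F3 := (mF3 _).2 (Or.inr (Or.inl rfl))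
    constructor
    · intro h1
      have h2 := hX.clo e' k2 (by rw [hpe']; exact h1)
      rwa [hae', hpe] at h2
    · intro h1
      have h2 := hX.clo e k1 (by rw [hpe]; exact h1)
      rwa [hae, hpe'] at h2
  have hp3 : ∀ X : Finset V, (s ∈ X ↔ a0 ∈ X) → ∀ d ∈ G2.ds, (G3.pi d ∈ X ↔ G.pi d ∈ X) := by
    intro X hX d hd
    by_cases e1 : d = f
    · rw [e1, hpf, hfa]; exact hX
    · rw [hpn d hd e1]
  have hFc : ∀ X, G3.Adm fr3 F3 X → ∀ d ∈ F, G.pi d ∈ Z →
      (G.pi d ∈ X ↔ G.pi ((G.pole qi).al d) ∈ X) := by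
    intro X hX
    have key : ∀ d ∈ F, G.pi d ∈ Z → G.pi d ∈ X → G.pi ((G.pole qi).al d) ∈ X := by
      intro d hd hp h1
      have hds := hF2 d hd hp
      have h2 := hX.clo d ((mF3 _).2 (Or.inr (Or.inr ⟨hd, hp⟩))) ((hp3 X (hsa X hX) d hds).2 h1)
      rw [hao d hds] at h2
      obtain ⟨k1, k2⟩ := hFal3 d hd hp
      exact (hp3 X (hsa X hX) _ (hF2 _ k1 k2)).1 h2
    intro d hd hp
    refine ⟨key d hd hp, fun h1 => ?_⟩
    obtain ⟨k1, k2⟩ := hFal3 d hd hp
    have h2 := key _ k1 k2 h1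
    have h3 : (G.pole qi).al ((G.pole qi).al d) = d :=
      (G.pole qi).al_al d ((hds1 d).2 ((hds2 d).1 (hF2 d hd hp)).1)
    rwa [h3] at h2
  have hd2c : ∀ X, G3.Adm fr3 F3 X → (a0 ∈ X ↔ G.pi g2 ∈ X) := by
    intro X hX
    have h1 := hFc X hX g1 c.F1 ha0Z
    rwa [pole_al_a] at h1
  have hXZ : ∀ X, G3.Adm fr3 F3 X → ∀ v ∈ X, v ≠ s → v ∈ fr ∧ v ∈ Z := by
    intro X hX v hv hvs
    exact ((mfr3 v).1 (hX.sub hv)).resolve_left hvs
  have hrX : ∀ X, G3.Adm fr3 F3 X → r ∉ X := by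
    intro X hX h1
    exact hZr (hXZ X hX r h1 hsr.symm).2
  -- the boundary of an admissible set
  have hbd3 : ∀ X, G3.Adm fr3 F3 X → ∀ d, d ∈ G3.bd X ↔
      (s ∈ X ∧ d = k) ∨ (d ∈ G.ed (X ∩ Z) (Z \ X) ∧ d ∉ K) := by
    intro X hX d
    have hs' := hsa X hX
    constructor
    · intro hd
      obtain ⟨h1, h2, h3⟩ := mem_bd.1 hd
      rcases (hds3 d).1 h1 with h4 | h4 | h4 | h4 | h4
      · rw [h4] at h2 h3
        rw [hpe] at h2
        rw [hae, hpe'] at h3
        exact absurd (hs'.2 h2) h3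
      · rw [h4] at h2 h3
        rw [hpe'] at h2
        rw [hae', hpe] at h3
        exact absurd (hs'.1 h2) h3
      · rw [h4, hpk] at h2
        exact Or.inl ⟨h2, h4⟩
      · rw [h4, hpk'] at h2
        exact absurd h2 (hrX X hX)
      · have hdF : d ∉ F := fun h5 => h3 (hX.clo d ((mF3o d (hG2G d h4)).2 ⟨h5, hG2Z d h4⟩) h2)
        have n1 : d ≠ g1 := fun h5 => hdF (h5 ▸ c.F1)
        have n2 : d ≠ g2 := fun h5 => hdF (h5 ▸ c.F2)
        obtain ⟨⟨k1, k2, k3⟩, k4⟩ := (hds2 d).1 h4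
        have k5 : G.pi (G.al d) ∈ Z := by
          rcases k3 with k3 | k3 | k3
          · exact absurd k3 n1
          · exact absurd k3 n2
          · exact k3
        have h5 := (hp3 X hs' d h4).1 h2
        have h6 : G.al d ∈ G2.ds := by
          rw [← hal1 d n1 n2]
          exact G2.al_mem d h4
        rw [hao d h4, hal1 d n1 n2] at h3
        have h7 : G.pi (G.al d) ∉ X := fun h8 => h3 ((hp3 X hs' _ h6).2 h8)
        exact Or.inr ⟨mem_ed.2 ⟨k1, mem_inter.2 ⟨h5, k2⟩, mem_sdiff.2 ⟨k5, h7⟩⟩, k4⟩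
    · rintro (⟨h1, h2⟩ | ⟨h1, h2⟩)
      · rw [h2]
        refine mem_bd.2 ⟨(hds3 k).2 (Or.inr (Or.inr (Or.inl rfl))), by rw [hpk]; exact h1, ?_⟩
        rw [hak, hpk']
        exact hrX X hX
      · obtain ⟨k1, k2, k3⟩ := mem_ed.1 h1
        obtain ⟨k4, k5⟩ := mem_inter.1 k2
        obtain ⟨k6, k7⟩ := mem_sdiff.1 k3
        have n1 : d ≠ g1 := fun h5 => m1.2.2 (h5 ▸ k6)
        have n2 : d ≠ g2 := fun h5 => m2.2.2 (h5 ▸ k6)
        have h4 : d ∈ G2.ds := (hds2 d).2 ⟨⟨k1, k5, Or.inr (Or.inr k6)⟩, h2⟩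
        have h6 : G.al d ∈ G2.ds := by
          rw [← hal1 d n1 n2]
          exact G2.al_mem d h4
        refine mem_bd.2 ⟨(hds3 d).2 (Or.inr (Or.inr (Or.inr (Or.inr h4)))),
          (hp3 X hs' d h4).2 k4, ?_⟩
        rw [hao d h4, hal1 d n1 n2]
        exact fun h8 => k7 ((hp3 X hs' _ h6).1 h8)
  have hjE : ∀ X : Finset V, (j ∈ G.ed (X ∩ Z) (Z \ X) ↔ a0 ∈ X ∧ y ∉ X) := by
    intro X
    rw [mem_ed, hja, mem_inter, mem_sdiff]
    exact ⟨fun hh => ⟨hh.2.1.1, hh.2.2.2⟩, fun hh => ⟨hj, ⟨hh.1, ha0Z⟩, hyZ, hh.2⟩⟩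
  have hajE : ∀ X : Finset V, (G.al j ∈ G.ed (X ∩ Z) (Z \ X) ↔ y ∈ X ∧ a0 ∉ X) := by
    intro X
    rw [mem_ed, G.al_al j hj, hja, mem_inter, mem_sdiff]
    exact ⟨fun hh => ⟨hh.2.1.1, hh.2.2.2⟩, fun hh => ⟨hajds, ⟨hh.1, hyZ⟩, ha0Z, hh.2⟩⟩
  have hkE : ∀ X : Finset V, k ∉ G.ed (X ∩ Z) (Z \ X) := fun X h1 => hk.2.2 (mem_ed.1 h1).1
  have hout : ∀ X, G3.Adm fr3 F3 X → a0 ∉ X →
      G.Adm fr F X ∧ G.ed (X ∩ Z) (Z \ X) = G.bd X := by
    intro X hX ha
    have hsX : s ∉ X := fun h1 => ha ((hsa X hX).1 h1)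
    have hd2 : G.pi g2 ∉ X := fun h1 => ha ((hd2c X hX).2 h1)
    have hfz : ∀ v ∈ X, v ∈ fr ∧ v ∈ Z := fun v hv => hXZ X hX v hv (fun e1 => hsX (e1 ▸ hv))
    have q1 : ∀ d, G.pi d ∈ X → d ≠ g1 := fun d hp e1 => ha (by rw [e1] at hp; exact hp)
    have q2 : ∀ d, G.pi d ∈ X → d ≠ g2 := fun d hp e1 => hd2 (by rw [e1] at hp; exact hp)
    constructor
    · refine ⟨fun v hv => (hfz v hv).1, fun d hd hp => ?_⟩
      have h1 := (hFc X hX d hd (hfz _ hp).2).1 hp
      rwa [hal1 d (q1 d hp) (q2 d hp)] at h1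
    · ext d
      rw [mem_ed, mem_bd, mem_inter, mem_sdiff]
      constructor
      · rintro ⟨h1, h2, h3⟩
        exact ⟨h1, h2.1, h3.2⟩
      · rintro ⟨h1, h2, h3⟩
        exact ⟨h1, ⟨h2, (hfz _ h2).2⟩, c.Fout hw hF h1 (z1 hF h1 (hfz _ h2).1) (hfz _ h2).2
          (q1 d h2) (q2 d h2), h3⟩
  have hval : ∀ X, G3.Adm fr3 F3 X → a0 ∈ X →
      G.val z t (Z \ X) = ((G.ed (X ∩ Z) (Z \ X)).card : ℝ) := by
    intro X hX ha
    have hd2 := (hd2c X hX).1 ha
    have h1 : ∑ d ∈ G.ed (X ∩ Z) (Z \ X), z d = ((G.ed (X ∩ Z) (Z \ X)).card : ℝ) := by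
      rw [card_eq_sum_ones, Nat.cast_sum]
      refine sum_congr rfl fun d hd => ?_
      obtain ⟨k1, k2, k3⟩ := mem_ed.1 hd
      obtain ⟨k4, k5⟩ := mem_inter.1 k2
      rw [hF.unit d k1 (hXZ X hX _ k4 (fun e1 => hZs (e1 ▸ k5))).1, Nat.cast_one]
    have h2 : ∑ d ∈ G.bd (Z \ X), z d = ∑ d ∈ G.ed (Z \ X) (X ∩ Z), z d := by
      refine (sum_subset ?_ ?_).symm
      · intro d hd
        obtain ⟨k1, k2, k3⟩ := mem_ed.1 hd
        exact mem_bd.2 ⟨k1, k2, fun h5 => (mem_sdiff.1 h5).2 (mem_inter.1 k3).1⟩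
      · intro d hd hn
        obtain ⟨k1, k2, k3⟩ := mem_bd.1 hd
        obtain ⟨k4, k5⟩ := mem_sdiff.1 k2
        have k6 : G.pi (G.al d) ∉ Z := by
          intro h5
          by_cases h6 : G.pi (G.al d) ∈ X
          · exact hn (mem_ed.2 ⟨k1, k2, mem_inter.2 ⟨h6, h5⟩⟩)
          · exact k3 (mem_sdiff.2 ⟨h5, h6⟩)
        exact c.out hw hF d (mem_bd.2 ⟨k1, k4, k6⟩) (fun e1 => k5 (by rw [e1]; exact ha))
          (fun e1 => k5 (by rw [e1]; exact hd2))
    have h3 : ∑ v ∈ Z \ X, t v = 0 := sum_eq_zero fun v hv => c.tok hw hF v (mem_sdiff.1 hv).1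
    unfold MG.val
    rw [h2, h3, add_zero, hw.ed_symm, h1]
  have hcX : ∀ X, G3.Adm fr3 F3 X → s ∈ X → X.card = (X ∩ Z).card + 1 := by
    intro X hX hsX
    have h1 : X ∩ Z = X.erase s := by
      ext v
      rw [mem_inter, mem_erase]
      constructor
      · rintro ⟨h1, h2⟩
        exact ⟨fun e1 => hZs (e1 ▸ h2), h1⟩
      · rintro ⟨h1, h2⟩
        exact ⟨h2, (hXZ X hX v h2 h1).2⟩
    rw [h1]
    exact (card_erase_add_one hsX).symm
  have hcount : ∀ X, G3.Adm fr3 F3 X → Disjoint X B3 → a0 ∈ X →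
      (y ∈ X → (G3.bd X).card = (G.ed (X ∩ Z) (Z \ X)).card + 1 ∧ (X ∩ jm3).card = 2) ∧
      (y ∉ X → (G3.bd X).card = (G.ed (X ∩ Z) (Z \ X)).card ∧ (X ∩ jm3).card = 1) := by
    intro X hX hB ha
    have hsX := (hsa X hX).2 ha
    rcases hcase with ⟨c1, c2, c3⟩ | ⟨c1, c2, c3⟩
    · constructor
      · intro hyX
        have h1 : G3.bd X = insert k (G.ed (X ∩ Z) (Z \ X)) := by
          ext d
          rw [hbd3 X hX d, mem_insert]
          constructor
          · rintro (⟨-, h1⟩ | ⟨h1, -⟩)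
            · exact Or.inl h1
            · exact Or.inr h1
          · rintro (h1 | h1)
            · exact Or.inl ⟨hsX, h1⟩
            · refine Or.inr ⟨h1, fun h2 => ?_⟩
              rcases (hKm d).1 h2 with h3 | h3
              · rw [h3] at h1
                exact ((hjE X).1 h1).2 hyX
              · rw [h3] at h1
                exact ((hajE X).1 h1).2 ha
        have h2 : X ∩ jm3 = {a0, y} := by
          rw [c2]
          refine inter_eq_right.2 fun v hv => ?_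
          rw [mem_insert, mem_singleton] at hv
          rcases hv with h3 | h3
          · rw [h3]; exact ha
          · rw [h3]; exact hyX
        rw [h1, h2, card_insert_of_notMem (hkE X), card_pair hya.symm]
        exact ⟨rfl, rfl⟩
      · intro hyX
        have hjm := (hjE X).2 ⟨ha, hyX⟩
        have h1 : G3.bd X = insert k ((G.ed (X ∩ Z) (Z \ X)).erase j) := by
          ext d
          rw [hbd3 X hX d, mem_insert, mem_erase]
          constructor
          · rintro (⟨-, h1⟩ | ⟨h1, h2⟩)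
            · exact Or.inl h1
            · exact Or.inr ⟨fun h3 => h2 ((hKm d).2 (Or.inl h3)), h1⟩
          · rintro (h1 | ⟨h1, h2⟩)
            · exact Or.inl ⟨hsX, h1⟩
            · refine Or.inr ⟨h2, fun h3 => ?_⟩
              rcases (hKm d).1 h3 with h4 | h4
              · exact h1 h4
              · rw [h4] at h2
                exact ((hajE X).1 h2).2 ha
        have h2 : X ∩ jm3 = {a0} := by
          rw [c2]
          ext v
          rw [mem_inter, mem_insert, mem_singleton, mem_singleton]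
          constructor
          · rintro ⟨h3, h4 | h4⟩
            · exact h4
            · exact absurd (h4 ▸ h3) hyX
          · intro h3
            exact ⟨by rw [h3]; exact ha, Or.inl h3⟩
        rw [h1, h2, card_insert_of_notMem fun h3 => hkE X (mem_erase.1 h3).2,
          card_erase_add_one hjm, card_singleton]
        exact ⟨rfl, rfl⟩
    · exfalso
      rw [c3] at hB
      exact disjoint_left.1 hB ha (mem_singleton_self _)
  have hcount0 : ∀ X, G3.Adm fr3 F3 X → a0 ∉ X →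
      (G.bd X).card ≤ (G3.bd X).card + (X ∩ jm3).card := by
    intro X hX ha
    obtain ⟨hXG, hE⟩ := hout X hX ha
    rw [← hE]
    by_cases hyX : y ∈ X
    · have hyf := hXG.sub hyX
      have c2 : jm3 = {a0, y} := by
        rcases hcase with ⟨-, c2, -⟩ | ⟨c1, -, -⟩
        · exact c2
        · exact absurd hyf c1
      have h1 : G.ed (X ∩ Z) (Z \ X) ⊆ insert (G.al j) (G3.bd X) := by
        intro d hd
        rw [mem_insert, hbd3 X hX d]
        by_cases h2 : d = G.al j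
        · exact Or.inl h2
        · refine Or.inr (Or.inr ⟨hd, fun h3 => ?_⟩)
          rcases (hKm d).1 h3 with h4 | h4
          · rw [h4] at hd
            exact ha ((hjE X).1 hd).1
          · exact h2 h4
      have h2 := (card_le_card h1).trans (card_insert_le _ _)
      have h3 : 0 < (X ∩ jm3).card := by
        refine card_pos.2 ⟨y, mem_inter.2 ⟨hyX, ?_⟩⟩
        rw [c2]
        exact mem_insert_of_mem (mem_singleton_self _)
      omega
    · have h1 : G.ed (X ∩ Z) (Z \ X) ⊆ G3.bd X := by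
        intro d hd
        rw [hbd3 X hX d]
        refine Or.inr ⟨hd, fun h3 => ?_⟩
        rcases (hKm d).1 h3 with h4 | h4
        · rw [h4] at hd
          exact ha ((hjE X).1 hd).1
        · rw [h4] at hd
          exact hyX ((hajE X).1 hd).1
      exact (card_le_card h1).trans (Nat.le_add_right _ _)
  have hjm3 : jm3 = ∅ ∨ jm3.card = 2 := by
    rcases hcase with ⟨-, c2, -⟩ | ⟨-, c2, -⟩
    · exact Or.inr (by rw [c2, card_pair hya.symm])
    · exact Or.inl c2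
  have htau3 : ∑ v ∈ G3.vs, t3 v = 4 := by
    have e1 : ∀ v ∈ G2.vs, t3 v = t2 v := by
      intro v hv
      rw [hvs2] at hv
      have n1 : v ≠ s := fun e1 => hZs (e1 ▸ hv)
      have n2 : v ≠ r := fun e1 => hZr (e1 ▸ hv)
      rw [ht3]
      unfold exT
      rw [if_neg n1, if_neg n2]
      split_ifs with h1
      · rw [h1]
      · rfl
    have e2 : s ∉ insert r G2.vs := by
      rw [mem_insert, not_or, hvs2]
      exact ⟨hsr, hZs⟩
    have e3 : r ∉ G2.vs := by
      rw [hvs2]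
      exact hZr
    change ∑ v ∈ insert s (insert r G2.vs), t3 v = 4
    rw [sum_insert e2, sum_insert e3, sum_congr rfl e1]
    have e4 := delM_tau hw1 hKs hK
    rw [sum_const_zero, hKsum] at e4
    have e5 : t3 s = 0 := by rw [ht3]; unfold exT; rw [if_pos rfl]
    have e6 : t3 r = 2 := by rw [ht3]; unfold exT; rw [if_neg hsr.symm, if_pos rfl]
    rw [e5, e6]
    have e7 : ∑ v ∈ G2.vs, t2 v = 0 + 2 := e4
    rw [e7]
    norm_num
  have hvc3 : G3.vs.card = Z.card + 2 := by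
    have e2 : s ∉ insert r G2.vs := by
      rw [mem_insert, not_or, hvs2]
      exact ⟨hsr, hZs⟩
    have e3 : r ∉ G2.vs := by
      rw [hvs2]
      exact hZr
    change (insert s (insert r G2.vs)).card = _
    rw [card_insert_of_notMem e2, card_insert_of_notMem e3, hvs2]
  have hE3 : ∀ X, G3.Adm fr3 F3 X → a0 ∈ X → Odd (Z \ X).card →
      3 ≤ (G.ed (X ∩ Z) (Z \ X)).card := by
    intro X hX ha ho
    have h1 := hw.cut (Z \ X) (sdiff_subset.trans c.sub) ho
    rw [hval X hX ha] at h1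
    exact_mod_cast h1
  have hcZ : ∀ X : Finset V, (X ∩ Z).card + (Z \ X).card = Z.card := by
    intro X
    rw [inter_comm, add_comm]
    exact card_sdiff_add_card_inter Z X
  have hZe := c.even
  have hR : G3.RawI z3 t3 fr3 F3 jm3 B3 0 := by
    refine ⟨?_, hwx, ?_, hFrB, hjm3, ?_, fun X _ _ _ _ => Nat.zero_le _, ?_⟩
    · rw [hvc3]
      rw [Nat.even_iff] at hZe ⊢
      omega
    · rw [htau3]
      norm_num
    · intro X hX hB ho
      by_cases ha : a0 ∈ X
      · have hpar := hFrB.par_raw hX hB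
        have hsX := (hsa X hX).2 ha
        have h1 := hcX X hX hsX
        have h2 := hcZ X
        have hev : Even (Z \ X).card := by
          rw [Nat.even_iff] at hZe ⊢
          rw [Nat.odd_iff] at ho
          omega
        have hd2 := (hd2c X hX).1 ha
        obtain ⟨v, hv, hvf⟩ := hQ
        have hQS : ∀ v ∈ Z, v ∉ fr → v ∈ Z \ X := by
          intro v hv hvf
          refine mem_sdiff.2 ⟨hv, fun h3 => hvf ?_⟩
          exact (hXZ X hX v h3 (fun e1 => hZs (e1 ▸ hv))).1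
        have hcl : ∀ d ∈ F, G.pi d ∈ Z \ X → G.pi (G.al d) ∈ Z \ X := by
          intro d hd hp
          obtain ⟨k1, k2⟩ := mem_sdiff.1 hp
          have n1 : d ≠ g1 := fun e1 => k2 (by rw [e1]; exact ha)
          have n2 : d ≠ g2 := fun e1 => k2 (by rw [e1]; exact hd2)
          obtain ⟨k3, k4⟩ := hFal3 d hd k1
          have k5 := fun h3 => k2 ((hFc X hX d hd k1).2 h3)
          rw [hal1 d n1 n2] at k4 k5
          exact mem_sdiff.2 ⟨k4, k5⟩
        have j0 := hJ0 (Z \ X) sdiff_subset hev ⟨v, hQS v hv hvf⟩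
        rw [hval X hX ha] at j0
        have i0 : (G.ed (X ∩ Z) (Z \ X)).card ≠ 0 := fun hh => j0 (by rw [hh]; norm_num)
        obtain ⟨l1, l2⟩ := hcount X hX hB ha
        rw [Nat.odd_iff] at ho
        by_cases hyX : y ∈ X
        · obtain ⟨l3, l4⟩ := l1 hyX
          omega
        · have hyf : y ∈ fr := by
            rcases hcase with ⟨c1, -, -⟩ | ⟨-, -, c3⟩
            · exact c1
            · rw [c3] at hB
              exact absurd (mem_singleton_self _) (disjoint_left.1 hB ha)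
          have j2 := hJ (Z \ X) sdiff_subset hev hcl ⟨G.al j, hajds,
            mem_sdiff.2 ⟨hyZ, hyX⟩, hyf, by
              rw [G.al_al j hj, hja]
              exact fun h3 => (mem_sdiff.1 h3).2 ha, by rw [G.al_al j hj, hja]; exact ha0f⟩
          rw [hval X hX ha] at j2
          have i2 : (G.ed (X ∩ Z) (Z \ X)).card ≠ 2 := fun hh => j2 (by rw [hh]; norm_num)
          obtain ⟨l3, l4⟩ := l2 hyX
          omega
      · obtain ⟨hXG, -⟩ := hout X hX ha
        have h1 := h.inst.cc X hXG ho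
        have h2 : ∑ v ∈ X, ep v = 0 := by
          refine sum_eq_zero fun v hv => ?_
          have h3 := h.inst.epj v (hXG.sub hv)
          have h4 : v ∉ jm := fun h5 => by
            have hvs : v ≠ s := fun e1 => hs (e1 ▸ hF.fsub (hXG.sub hv))
            exact c.jm_dis hw hF h5 (hXZ X hX v hv hvs).2
          rw [if_neg h4] at h3
          omega
        rw [h2, add_zero] at h1
        exact h1.trans (hcount0 X hX ha)
    · intro X hX hB hev hn hj3
      have c2 : jm3 = {a0, y} := by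
        rcases hcase with ⟨-, c2, -⟩ | ⟨-, c2, -⟩
        · exact c2
        · rw [c2] at hn
          exact absurd hn not_nonempty_empty
      rw [c2] at hj3
      have ha : a0 ∈ X := hj3 (mem_insert_self _ _)
      have hyX : y ∈ X := hj3 (mem_insert_of_mem (mem_singleton_self _))
      have h1 := hcX X hX ((hsa X hX).2 ha)
      have h2 := hcZ X
      have h3 := hE3 X hX ha (by
        rw [Nat.even_iff] at hZe hev
        rw [Nat.odd_iff]
        omega)
      obtain ⟨l3, -⟩ := (hcount X hX hB ha).1 hyX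
      omega
  obtain ⟨N3, hN3, hpos3, hhit3⟩ := h.solve hR (Int4.of_raw hR hz3i) (Or.inl (by
    have h1 : fr3.card = (fr ∩ Z).card + 1 := by
      rw [hfr3, card_insert_of_notMem]
      exact fun h1 => hs3 (mem_inter.1 h1).1
    have h2 : ({G.pi (G.al g1), G.pi (G.al g2)} : Finset V) ⊆ fr \ Z := by
      intro v hv
      rw [mem_insert, mem_singleton] at hv
      rcases hv with h3 | h3
      · rw [h3]
        exact mem_sdiff.2 ⟨hF.Ffr _ (hF.Fal g1 c.F1), m1.2.2⟩
      · rw [h3]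
        exact mem_sdiff.2 ⟨hF.Ffr _ (hF.Fal g2 c.F2), m2.2.2⟩
    have h3 := card_le_card h2
    rw [card_pair ((c.outer hw hF).ne_out hw)] at h3
    have h4 := card_sdiff_add_card_inter fr Z
    omega))
  have hN3s : ∀ d ∈ N3, d ∈ G3.ds := fun d hd => hN3.sub hd
  -- the edge `s r` is used
  have hk'N : k' ∈ N3 := by
    have h1 := hN3.one r ((hvs3 r).2 (Or.inr (Or.inl rfl)))
    obtain ⟨d, hd⟩ := card_pos.1 (by rw [h1]; exact one_pos :
      0 < (N3.filter fun d => G3.pi d = r).card)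
    obtain ⟨h2, h3⟩ := mem_filter.1 hd
    rw [← hstr d (hN3s d h2) h3]
    exact h2
  have hkN : k ∈ N3 := by
    have h1 := hN3.closed _ hk'N
    rwa [hak'] at h1
  have huniq : ∀ v ∈ G3.vs, ∀ d ∈ N3, ∀ d' ∈ N3, G3.pi d = v → G3.pi d' = v → d = d' := by
    intro v hv d hd d' hd' h1 h2
    have h3 := hN3.one v hv
    rw [card_eq_one] at h3
    obtain ⟨u, hu⟩ := h3
    have h4 : d ∈ ({u} : Finset D) := hu ▸ mem_filter.2 ⟨hd, h1⟩
    have h5 : d' ∈ ({u} : Finset D) := hu ▸ mem_filter.2 ⟨hd', h2⟩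
    rw [mem_singleton] at h4 h5
    rw [h4, h5]
  have hfN : f ∉ N3 := by
    intro h1
    have h2 := huniq s ((hvs3 s).2 (Or.inl rfl)) f h1 k hkN hpf hpk
    exact hk.2.2 (h2 ▸ hfG)
  have he'N : e' ∉ N3 := by
    intro h1
    have h2 := huniq s ((hvs3 s).2 (Or.inl rfl)) e' h1 k hkN hpe' hpk
    exact hk.1 h2.symm
  have heN : e ∉ N3 := by
    intro h1
    have h2 := hN3.closed _ h1
    rw [hae] at h2
    exact he'N h2
  have hold : ∀ d ∈ N3, d ∈ G.ds → d ∈ G2.ds := by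
    intro d hd hdG
    rcases (hds3 d).1 (hN3s d hd) with h4 | h4 | h4 | h4 | h4
    · exact absurd (h4 ▸ hdG) hee
    · exact absurd (h4 ▸ hdG) hee'.2
    · exact absurd (h4 ▸ hdG) hk.2.2
    · exact absurd (h4 ▸ hdG) hk'.2.2.2
    · exact h4
  set N := N3.filter fun d => d ∈ G.ds with hN
  have mN : ∀ d, d ∈ N ↔ d ∈ N3 ∧ d ∈ G2.ds := by
    intro d
    rw [hN, mem_filter]
    exact ⟨fun hh => ⟨hh.1, hold d hh.1 hh.2⟩, fun hh => ⟨hh.1, hG2G d hh.2⟩⟩
  clear_value N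
  have hNpi : ∀ d ∈ N, G3.pi d = G.pi d := by
    intro d hd
    obtain ⟨h1, h2⟩ := (mN d).1 hd
    exact hpn d h2 (fun e1 => hfN (e1 ▸ h1))
  refine ⟨N, fun d hd => hG2G d ((mN d).1 hd).2, fun d hd => hG2Z d ((mN d).1 hd).2,
    fun h1 => hfN ((mN f).1 h1).1, ?_, ?_, ?_, ?_, ?_, ?_⟩
  · intro d hd
    obtain ⟨h1, h2⟩ := (mN d).1 hd
    have h3 := hpos3 d h1
    rwa [hzo d h2] at h3
  · have k1 : g1 ∈ G2.ds := hF2 g1 c.F1 ha0Z
    have k2 : g2 ∈ G2.ds := hF2 g2 c.F2 m2.2.1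
    rw [mN, mN]
    constructor
    · rintro ⟨h1, -⟩
      have h2 := hN3.closed _ h1
      rw [hao g1 k1, pole_al_a] at h2
      exact ⟨h2, k2⟩
    · rintro ⟨h1, -⟩
      have h2 := hN3.closed _ h1
      rw [hao g2 k2, pole_al_b] at h2
      exact ⟨h2, k1⟩
  · intro d hd n1 n2
    obtain ⟨h1, h2⟩ := (mN d).1 hd
    have h3 := hN3.closed _ h1
    rw [hao d h2, hal1 d n1 n2] at h3
    exact (mN _).2 ⟨h3, hold _ h3 (G.al_mem d (hG2G d h2))⟩
  · intro v hv
    rw [← hN3.one v ((hvs3 v).2 (Or.inr (Or.inr hv)))]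
    congr 1
    ext d
    rw [mem_filter, mem_filter]
    constructor
    · rintro ⟨h1, h2⟩
      exact ⟨((mN d).1 h1).1, by rw [hNpi d h1]; exact h2⟩
    · rintro ⟨h1, h2⟩
      have h3 : d ∈ N := by
        refine (mN d).2 ⟨h1, ?_⟩
        rcases (hds3 d).1 (hN3s d h1) with h4 | h4 | h4 | h4 | h4
        · exact absurd (h4 ▸ h1) heN
        · exact absurd (h4 ▸ h1) he'N
        · rw [h4, hpk] at h2
          exact absurd (h2 ▸ hv) hZs
        · rw [h4, hpk'] at h2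
          exact absurd (h2 ▸ hv) hZr
        · exact h4
      exact ⟨h3, by rw [← hNpi d h3]; exact h2⟩
  · intro d hd hp
    exact ha00 d ((mN d).1 hd).2 hp
  · intro X hX hcl
    obtain ⟨s1, s2, s3⟩ := c.same_iff hw hF hX
    have hjN : j ∉ N := fun h1 => ((hds2 j).1 ((mN j).1 h1).2).2 ((hKm j).2 (Or.inl rfl))
    have hna : a0 ∉ X := by
      intro ha
      have hyX : y ∈ X := by
        by_contra hn
        exact hjN (hcl j (mem_bd.2 ⟨hj, by rw [hja]; exact ha, hn⟩) (by rw [hja]; exact ha0Z))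
      have hyf := hX.sub hyX
      obtain ⟨c2, c3⟩ : jm3 = {a0, y} ∧ B3 = ∅ := by
        rcases hcase with ⟨-, c2, c3⟩ | ⟨c1, -, -⟩
        · exact ⟨c2, c3⟩
        · exact absurd hyf c1
      have hX3s : s ∈ insert s (X ∩ Z) ↔ a0 ∈ insert s (X ∩ Z) :=
        ⟨fun _ => mem_insert_of_mem (mem_inter.2 ⟨ha, ha0Z⟩), fun _ => mem_insert_self _ _⟩
      have hmem : ∀ v ∈ Z, v ∈ insert s (X ∩ Z) ↔ v ∈ X := by
        intro v hv
        rw [mem_insert, mem_inter]
        constructor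
        · rintro (h1 | h1)
          · exact absurd (h1 ▸ hv) hZs
          · exact h1.1
        · exact fun h1 => Or.inr ⟨h1, hv⟩
      have hX3 : G3.Adm fr3 F3 (insert s (X ∩ Z)) := by
        constructor
        · intro v hv
          rw [mem_insert, mem_inter] at hv
          rcases hv with h1 | ⟨h1, h2⟩
          · exact (mfr3 v).2 (Or.inl h1)
          · exact (mfr3 v).2 (Or.inr ⟨hX.sub h1, h2⟩)
        · intro d hd hp
          rcases (mF3 d).1 hd with h1 | h1 | ⟨h1, h2⟩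
          · rw [h1, hae, hpe']
            exact mem_insert_self _ _
          · rw [h1, hae', hpe]
            exact hX3s.1 (mem_insert_self _ _)
          · have h3 := hF2 d h1 h2
            obtain ⟨k1, k2⟩ := hFal3 d h1 h2
            rw [hao d h3]
            rw [hp3 _ hX3s _ (hF2 _ k1 k2), hmem _ k2]
            have h4 := (hmem _ h2).1 ((hp3 _ hX3s d h3).1 hp)
            by_cases e1 : d = g1
            · rw [e1, pole_al_a]
              exact s1.1 ha
            · by_cases e2 : d = g2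
              · rw [e2, pole_al_b]
                exact ha
              · rw [hal1 d e1 e2]
                exact hX.clo d h1 h4
      obtain ⟨d, hd, hdN⟩ := hhit3 _ hX3 (by rw [c3]; exact disjoint_empty_right _) (Or.inr (by
        rw [c2]
        refine ⟨⟨a0, mem_insert_self _ _⟩, fun v hv => ?_⟩
        rw [mem_insert, mem_singleton] at hv
        rcases hv with h1 | h1
        · rw [h1]
          exact mem_insert_of_mem (mem_inter.2 ⟨ha, ha0Z⟩)
        · rw [h1]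
          exact mem_insert_of_mem (mem_inter.2 ⟨hyX, hyZ⟩)))
      rcases (hbd3 _ hX3 d).1 hd with ⟨-, h1⟩ | ⟨h1, -⟩
      · exact hdN (h1 ▸ hkN)
      · obtain ⟨k1, k2, k3⟩ := mem_ed.1 h1
        obtain ⟨k4, k5⟩ := mem_inter.1 k2
        obtain ⟨k6, k7⟩ := mem_sdiff.1 k3
        have h2 : d ∈ G.bd X := mem_bd.2 ⟨k1, (hmem _ k5).1 k4, fun h3 => k7 ((hmem _ k6).2 h3)⟩
        exact hdN ((mN d).1 (hcl d h2 k5)).1
    refine ⟨hna, fun ho => ?_⟩
    have hn2 : G.pi g2 ∉ X := fun h1 => hna (s1.2 h1)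
    have hsX : s ∉ X ∩ Z := fun h1 => hZs (mem_inter.1 h1).2
    have hX3s : s ∈ X ∩ Z ↔ a0 ∈ X ∩ Z :=
      ⟨fun h1 => absurd h1 hsX, fun h1 => absurd (mem_inter.1 h1).1 hna⟩
    have q1 : ∀ d, G.pi d ∈ X → d ≠ g1 := fun d hp e1 => hna (by rw [e1] at hp; exact hp)
    have q2 : ∀ d, G.pi d ∈ X → d ≠ g2 := fun d hp e1 => hn2 (by rw [e1] at hp; exact hp)
    have hX3 : G3.Adm fr3 F3 (X ∩ Z) := by
      constructor
      · intro v hv
        obtain ⟨h1, h2⟩ := mem_inter.1 hv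
        exact (mfr3 v).2 (Or.inr ⟨hX.sub h1, h2⟩)
      · intro d hd hp
        rcases (mF3 d).1 hd with h1 | h1 | ⟨h1, h2⟩
        · rw [h1, hpe] at hp
          exact absurd (mem_inter.1 hp).1 hna
        · rw [h1, hpe'] at hp
          exact absurd hp hsX
        · have h3 := hF2 d h1 h2
          obtain ⟨k1, k2⟩ := hFal3 d h1 h2
          rw [hao d h3]
          rw [hp3 _ hX3s _ (hF2 _ k1 k2)]
          have h4 := (mem_inter.1 ((hp3 _ hX3s d h3).1 hp)).1
          rw [hal1 d (q1 d h4) (q2 d h4)] at k2 ⊢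
          exact mem_inter.2 ⟨hX.clo d h1 h4, k2⟩
    obtain ⟨d, hd, hdN⟩ := hhit3 _ hX3 (by
      rcases hcase with ⟨-, -, c3⟩ | ⟨-, -, c3⟩
      · rw [c3]; exact disjoint_empty_right _
      · rw [c3]; exact disjoint_singleton_right.2 fun h1 => hna (mem_inter.1 h1).1) (Or.inl ho)
    rcases (hbd3 _ hX3 d).1 hd with ⟨h1, -⟩ | ⟨h1, -⟩
    · exact hsX h1
    · obtain ⟨k1, k2, k3⟩ := mem_ed.1 h1
      obtain ⟨k4, k5⟩ := mem_inter.1 k2
      obtain ⟨k6, k7⟩ := mem_sdiff.1 k3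
      obtain ⟨k8, -⟩ := mem_inter.1 k4
      have h2 : d ∈ G.bd X := mem_bd.2 ⟨k1, k8, fun h3 => k7 (mem_inter.2 ⟨h3, k6⟩)⟩
      exact hdN ((mN d).1 (hcl d h2 k5)).1

/-- **F-type 2-cuts do not exist in a minimal counterexample** (`Q` inside `Z`) -/
theorem no_F2QI [Infinite V] [Infinite D] (c : G.F2Z z t F Z g1 g2)
    (h : G.MCI z t fr F jm sx ep 0)
    (hJ0 : ∀ S ⊆ Z, Even S.card → S.Nonempty → G.val z t S ≠ 0)
    (hJ : ∀ S ⊆ Z, Even S.card → (∀ d ∈ F, G.pi d ∈ S → G.pi (G.al d) ∈ S) →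
      (∃ e ∈ G.ds, G.pi e ∈ S ∧ G.pi e ∈ fr ∧ G.pi (G.al e) ∉ S ∧ G.pi (G.al e) ∈ fr) →
      G.val z t S ≠ 2)
    (hQ : ∃ v ∈ Z, v ∉ fr) : False := by
  have hw := h.inst.wt
  have hF := h.inst.fresh
  have m1 := mem_bd.1 c.b1
  have m2 := mem_bd.1 c.b2
  have hsx := h.inst.sx_eq
  obtain ⟨M1, hM1, hpos1, hhit1⟩ := c.solve_outerI h
  obtain ⟨f', hf', hf'a, huF⟩ : ∃ f' ∈ F, G.pi f' = G.pi g1 ∧
      ∀ d ∈ F, G.pi d = G.pi g1 → d = g1 ∨ d = f' := by
    obtain ⟨u, v, huv, he⟩ := card_eq_two.1 (hF.two (G.pi g1) (hF.Ffr g1 c.F1))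
    have hmem : ∀ d, (d ∈ F ∧ G.pi d = G.pi g1) ↔ d = u ∨ d = v := by
      intro d
      have h1 : d ∈ (F.filter fun d => G.pi d = G.pi g1) ↔ d ∈ ({u, v} : Finset D) := by rw [he]
      rwa [mem_filter, mem_insert, mem_singleton] at h1
    rcases (hmem g1).1 ⟨c.F1, rfl⟩ with h1 | h1
    · obtain ⟨h2, h3⟩ := (hmem v).2 (Or.inr rfl)
      exact ⟨v, h2, h3, fun d hd hp => by rw [h1]; exact (hmem d).1 ⟨hd, hp⟩⟩
    · obtain ⟨h2, h3⟩ := (hmem u).2 (Or.inl rfl)
      exact ⟨u, h2, h3, fun d hd hp => by rw [h1]; exact ((hmem d).1 ⟨hd, hp⟩).symm⟩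
  obtain ⟨f, hf, hfa, hfc⟩ : ∃ f ∈ F, G.pi f = G.pi g1 ∧
      ((G.al g1 ∈ M1 ∧ f = f') ∨ (G.al g1 ∉ M1 ∧ f = g1)) := by
    by_cases h1 : G.al g1 ∈ M1
    · exact ⟨f', hf', hf'a, Or.inl ⟨h1, rfl⟩⟩
    · exact ⟨g1, c.F1, rfl, Or.inr ⟨h1, rfl⟩⟩
  obtain ⟨N, hNs, hNZ, hfN, hNpos, hN12, hNcl, hNone, hNF, hNhit⟩ :=
    c.solve_innerI h hJ0 hJ hQ hf hfa
  set q := c.plo hw hF with hq
  have hg1 : g1 ∈ N ↔ G.al g1 ∈ M1 := by
    rcases hfc with ⟨h1, h2⟩ | ⟨h1, h2⟩
    · refine ⟨fun _ => h1, fun _ => ?_⟩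
      have h3 := hNone _ m1.2.1
      obtain ⟨d, hd⟩ := card_pos.1 (by rw [h3]; exact one_pos :
        0 < (N.filter fun d => G.pi d = G.pi g1).card)
      obtain ⟨h4, h5⟩ := mem_filter.1 hd
      rcases huF d (hNF d h4 h5) h5 with h6 | h6
      · exact h6 ▸ h4
      · exact absurd (by rw [h2, ← h6]; exact h4) hfN
    · exact ⟨fun h3 => absurd (by rw [h2]; exact h3) hfN, fun h3 => absurd h3 h1⟩
  have hM12 : G.al g1 ∈ M1 ↔ G.al g2 ∈ M1 := by
    constructor
    · intro h1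
      have h2 := hM1.closed _ h1
      rwa [pole_al_a] at h2
    · intro h1
      have h2 := hM1.closed _ h1
      rwa [pole_al_b] at h2
  have hM1s : ∀ d ∈ M1, d ∈ G.ds ∧ G.pi d ∉ Z ∧
      (d = G.al g1 ∨ d = G.al g2 ∨ G.pi (G.al d) ∉ Z) := fun d hd =>
    (mem_pole_ds q).1 (hM1.sub hd)
  have hpm : G.IsPM (M1 ∪ N) := by
    refine ⟨?_, ?_, ?_⟩
    · intro d hd
      rcases mem_union.1 hd with h1 | h1
      · exact (hM1s d h1).1
      · exact hNs h1
    · intro d hd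
      rw [mem_union]
      rcases mem_union.1 hd with h1 | h1
      · by_cases e1 : d = G.al g1
        · rw [e1, G.al_al _ m1.1]
          exact Or.inr (hg1.2 (e1 ▸ h1))
        · by_cases e2 : d = G.al g2
          · rw [e2, G.al_al _ m2.1]
            exact Or.inr (hN12.1 (hg1.2 (hM12.2 (e2 ▸ h1))))
          · have h2 := hM1.closed _ h1
            rw [pole_al q e1 e2] at h2
            exact Or.inl h2
      · by_cases e1 : d = g1
        · rw [e1]
          exact Or.inl (hg1.1 (e1 ▸ h1))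
        · by_cases e2 : d = g2
          · rw [e2]
            exact Or.inl (hM12.1 (hg1.1 (hN12.2 (e2 ▸ h1))))
          · exact Or.inr (hNcl d h1 e1 e2)
    · intro v hv
      by_cases hvZ : v ∈ Z
      · rw [← hNone v hvZ]
        congr 1
        ext d
        rw [mem_filter, mem_filter, mem_union]
        constructor
        · rintro ⟨h1 | h1, h2⟩
          · exact absurd (by rw [h2]; exact hvZ) (hM1s d h1).2.1
          · exact ⟨h1, h2⟩
        · rintro ⟨h1, h2⟩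
          exact ⟨Or.inr h1, h2⟩
      · rw [← hM1.one v (mem_sdiff.2 ⟨hv, hvZ⟩)]
        congr 1
        ext d
        rw [mem_filter, mem_filter, mem_union]
        constructor
        · rintro ⟨h1 | h1, h2⟩
          · exact ⟨h1, h2⟩
          · exact absurd (by rw [← h2]; exact hNZ d h1) hvZ
        · rintro ⟨h1, h2⟩
          exact ⟨Or.inl h1, h2⟩
  refine h.bad ⟨M1 ∪ N, hpm, ?_, ?_⟩
  · intro d hd
    rcases mem_union.1 hd with h1 | h1
    · exact hpos1 d h1
    · exact hNpos d h1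
  · intro X hX ho
    by_contra hcon
    push Not at hcon
    have hc1 : ∀ d ∈ G.bd X, G.pi d ∉ Z → d ∈ M1 := by
      intro d hd hp
      rcases mem_union.1 (hcon d hd) with h1 | h1
      · exact h1
      · exact absurd (hNZ d h1) hp
    have hc2 : ∀ d ∈ G.bd X, G.pi d ∈ Z → d ∈ N := by
      intro d hd hp
      rcases mem_union.1 (hcon d hd) with h1 | h1
      · exact absurd hp (hM1s d h1).2.1
      · exact h1
    obtain ⟨k1, k2⟩ := hNhit X hX hc2
    have k3 := hhit1 X hX k1 hc1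
    rw [not_or] at k3
    rcases ho with ho | ⟨h1, h2⟩
    · have h3 := card_sdiff_add_card_inter X Z
      rw [Nat.odd_iff] at ho k2
      have h4 := k3.1
      rw [Nat.odd_iff] at h4
      omega
    · rw [hsx] at h1 h2
      exact k3.2 ⟨h1, h2⟩

/-- the matching inside `Z` (without the two ends, if `T` is not empty) -/
theorem solve_resI (c : G.F2Z z t F Z g1 g2) (h : G.MCI z t fr F jm sx ep 0) {T : Finset V}
    (hT : T = ∅ ∨ T = {G.pi g1, G.pi g2}) :
    ∃ N, (G.res (Z \ T)).IsPM N ∧ (∀ d ∈ N, 0 < z d) ∧ ∀ X, G.Adm fr F X → X ⊆ Z →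
      G.pi g1 ∉ X → (∀ d ∈ G.bd X, d ∈ N) → ¬ Odd X.card := by
  have hw := h.inst.wt
  have hF := h.inst.fresh
  have m1 := mem_bd.1 c.b1
  have m2 := mem_bd.1 c.b2
  set U := Z \ T with hU
  have hUZ : U ⊆ Z := sdiff_subset
  have hUs : U ⊆ G.vs := hUZ.trans c.sub
  have hvs : (G.res U).vs = U := inter_eq_right.2 hUs
  have mds : ∀ d, d ∈ (G.res U).ds ↔ d ∈ G.ds ∧ G.pi d ∈ U ∧ G.pi (G.al d) ∈ U := fun d =>
    mem_filter
  have hTc : T = ∅ ∨ (G.pi g1 ∈ T ∧ G.pi g2 ∈ T) := by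
    rcases hT with h1 | h1
    · exact Or.inl h1
    · right
      rw [h1]
      exact ⟨mem_insert_self _ _, mem_insert_of_mem (mem_singleton_self _)⟩
  have hTs : ∀ v ∈ T, v = G.pi g1 ∨ v = G.pi g2 := by
    intro v hv
    rcases hT with h1 | h1
    · rw [h1] at hv
      exact absurd hv (notMem_empty _)
    · rw [h1, mem_insert, mem_singleton] at hv
      exact hv
  set B : Finset V := (U.filter fun v => ∃ d ∈ G.ds, G.pi d = v ∧ G.pi (G.al d) ∈ T) ∪
    {G.pi g1, G.pi g2} with hB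
  have mB : ∀ v ∈ U, v ∉ B → (∀ d ∈ G.ds, G.pi d = v → G.pi (G.al d) ∉ T) ∧
      v ≠ G.pi g1 ∧ v ≠ G.pi g2 := by
    intro v hv hvB
    rw [hB, mem_union, not_or, mem_filter, mem_insert, mem_singleton, not_or] at hvB
    refine ⟨fun d hd hp hT' => hvB.1 ⟨hv, d, hd, hp, hT'⟩, hvB.2⟩
  have hstay : ∀ d ∈ G.ds, G.pi d ∈ fr → G.pi d ∈ U → G.pi d ∉ B → G.pi (G.al d) ∈ U := by
    intro d hd hf hu hb
    obtain ⟨k1, k2, k3⟩ := mB _ hu hb
    refine mem_sdiff.2 ⟨c.Fout hw hF hd (z1 hF hd hf) (hUZ hu) (fun e1 => k2 (by rw [e1]))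
      (fun e1 => k3 (by rw [e1])), k1 d hd rfl⟩
  clear_value B
  have hst : ∀ v ∈ fr, v ∈ U → v ∉ B → (G.res U).st v = G.st v := by
    intro v hv hvU hvB
    ext d
    rw [mem_st, mem_st, mds]
    constructor
    · rintro ⟨⟨a, -, -⟩, b⟩
      exact ⟨a, b⟩
    · rintro ⟨a, b⟩
      refine ⟨⟨a, by rw [b]; exact hvU, ?_⟩, b⟩
      exact hstay d a (by rw [b]; exact hv) (by rw [b]; exact hvU) (by rw [b]; exact hvB)
  have hbd : ∀ X ⊆ fr ∩ U, Disjoint X B → (G.res U).bd X = G.bd X := by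
    intro X hX hd
    ext d
    rw [mem_bd, mem_bd, mds]
    constructor
    · rintro ⟨⟨a, -, -⟩, b, c'⟩
      exact ⟨a, b, c'⟩
    · rintro ⟨a, b, c'⟩
      obtain ⟨h1, h2⟩ := mem_inter.1 (hX b)
      exact ⟨⟨a, h2, hstay d a h1 h2 (disjoint_left.1 hd b)⟩, b, c'⟩
  set F' : Finset D := F.filter fun d => G.pi d ∈ U ∧ G.pi (G.al d) ∈ U with hF'
  have mF' : ∀ d, d ∈ F' ↔ d ∈ F ∧ G.pi d ∈ U ∧ G.pi (G.al d) ∈ U := fun d => mem_filter
  clear_value F'
  have hadm : ∀ X, Disjoint X B → ((G.res U).Adm (fr ∩ U) F' X ↔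
      G.Adm fr F X ∧ X ⊆ U) := by
    intro X hd
    constructor
    · intro hX
      refine ⟨⟨fun v hv => (mem_inter.1 (hX.sub hv)).1, fun d hdF hp => ?_⟩,
        fun v hv => (mem_inter.1 (hX.sub hv)).2⟩
      obtain ⟨h1, h2⟩ := mem_inter.1 (hX.sub hp)
      exact hX.clo d ((mF' d).2 ⟨hdF, h2, hstay d (hF.Fsub hdF) h1 h2 (disjoint_left.1 hd hp)⟩) hp
    · rintro ⟨hX, hXU⟩
      exact ⟨fun v hv => mem_inter.2 ⟨hX.sub hv, hXU hv⟩, fun d hd hp =>
        hX.clo d ((mF' d).1 hd).1 hp⟩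
  have hR : (G.res U).RawI z (G.tres z t U) (fr ∩ U) F' ∅ B 0 := by
    refine ⟨?_, hw.res hUs, ?_, ?_, Or.inl rfl, ?_, fun X _ _ _ _ => Nat.zero_le _, ?_⟩
    · rw [hvs]
      have h1 := c.even
      rcases hT with h2 | h2
      · rw [hU, h2, sdiff_empty]
        exact h1
      · have h3 : ({G.pi g1, G.pi g2} : Finset V) ⊆ Z := by
          intro v hv
          rw [mem_insert, mem_singleton] at hv
          rcases hv with h3 | h3
          · rw [h3]; exact m1.2.1
          · rw [h3]; exact m2.2.1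
        have h4 := card_sdiff_add_card_eq_card h3
        rw [card_pair (c.d_ne hw hF)] at h4
        rw [hU, h2]
        rw [Nat.even_iff] at h1 ⊢
        omega
    · rw [res_tau hw hUs]
      rcases hT with h2 | h2
      · rw [hU, h2, sdiff_empty, c.val]
        norm_num
      · rw [hU, h2]
        exact c.edge_val hw hF
    · refine ⟨?_, ?_, ?_, empty_subset _, ?_, ?_, ?_, ?_⟩
      · intro v hv
        obtain ⟨h1, h2⟩ := mem_inter.1 hv
        exact mem_inter.2 ⟨hF.fsub h1, h2⟩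
      · intro d hd
        obtain ⟨h1, h2, h3⟩ := (mF' d).1 hd
        exact (mds d).2 ⟨hF.Fsub h1, h2, h3⟩
      · intro d hd
        obtain ⟨h1, h2, h3⟩ := (mF' d).1 hd
        refine (mF' _).2 ⟨hF.Fal d h1, h3, ?_⟩
        change G.pi (G.al (G.al d)) ∈ U
        rw [G.al_al d (hF.Fsub h1)]
        exact h2
      · intro v hv hvB
        obtain ⟨h1, h2⟩ := mem_inter.1 hv
        rw [← hF.two v h1]
        congr 1
        ext d
        rw [mem_filter, mem_filter, mF']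
        change (_ ∧ G.pi d = v) ↔ _
        constructor
        · rintro ⟨⟨a, -⟩, b⟩
          exact ⟨a, b⟩
        · rintro ⟨a, b⟩
          exact ⟨⟨a, by rw [b]; exact h2, hstay d (hF.Fsub a) (by rw [b]; exact h1)
            (by rw [b]; exact h2) (by rw [b]; exact hvB)⟩, b⟩
      · intro v hv hvB _
        obtain ⟨h1, h2⟩ := mem_inter.1 hv
        rw [hst v h1 h2 hvB, ← hF.jd v h1 (fun h3 => c.jm_dis hw hF h3 (hUZ h2))]
        congr 1
        apply filter_congr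
        intro d hd
        obtain ⟨k1, k2⟩ := mem_st.1 hd
        have k3 := hstay d k1 (by rw [k2]; exact h1) (by rw [k2]; exact h2)
          (by rw [k2]; exact hvB)
        rw [mF', k2]
        tauto
      · intro v hv
        exact absurd hv (notMem_empty _)
      · intro d hd hp _
        exact hF.unit d ((mds d).1 hd).1 (mem_inter.1 hp).1
    · intro X hX hdB ho
      obtain ⟨h1, h2⟩ := (hadm X hdB).1 hX
      rw [hbd X hX.sub hdB, inter_empty, card_empty]
      have h3 := h.inst.cc X h1 ho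
      have h4 : ∑ v ∈ X, ep v = 0 := by
        refine sum_eq_zero fun v hv => ?_
        have h5 := h.inst.epj v (h1.sub hv)
        rw [if_neg fun h6 => c.jm_dis hw hF h6 (hUZ (h2 hv))] at h5
        omega
      rw [h4] at h3
      exact h3
    · intro X _ _ _ hn
      exact absurd hn not_nonempty_empty
  obtain ⟨N, hN, hpos, hhit⟩ := h.solve hR (Int4.of_raw hR fun d hd => h.i4.zi d (mem_filter.1 hd).1) (Or.inl (by
    refine card_lt_card ⟨inter_subset_left, fun h1 => ?_⟩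
    exact m1.2.2 (hUZ (mem_inter.1 (h1 (hF.Ffr _ (hF.Fal g1 c.F1)))).2)))
  refine ⟨N, hN, hpos, fun X hX hXZ hg hcl ho => ?_⟩
  have hg2 : G.pi g2 ∉ X := fun h1 => hg ((c.same_iff hw hF hX).1.2 h1)
  have hXT : ∀ v ∈ X, v ∉ T := by
    intro v hv hvT
    rcases hTs v hvT with h1 | h1
    · exact hg (h1 ▸ hv)
    · exact hg2 (h1 ▸ hv)
  have hXU : X ⊆ U := fun v hv => mem_sdiff.2 ⟨hXZ hv, hXT v hv⟩
  have hXB : Disjoint X B := by
    rw [disjoint_left]
    intro v hv hvB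
    rw [hB, mem_union, mem_filter, mem_insert, mem_singleton] at hvB
    rcases hvB with ⟨-, d, hd, hp, hT'⟩ | h1 | h1
    · have h1 : d ∈ G.bd X := mem_bd.2 ⟨hd, by rw [hp]; exact hv, fun h2 => hXT _ h2 hT'⟩
      have h2 := (mds d).1 (hN.sub (hcl d h1))
      exact (mem_sdiff.1 h2.2.2).2 hT'
    · exact hg (h1 ▸ hv)
    · exact hg2 (h1 ▸ hv)
  have hXr := (hadm X hXB).2 ⟨hX, hXU⟩
  obtain ⟨d, hd, hdN⟩ := hhit X hXr hXB (Or.inl ho)
  rw [hbd X hXr.sub hXB] at hd
  exact hdN (hcl d hd)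

/-- the matching of the outer side if `Z` consists of fresh vertices -/
theorem solve_outer_freeI (c : G.F2Z z t F Z g1 g2) (h : G.MCI z t fr F jm sx ep 0)
    (hZf : Z ⊆ fr) :
    ∃ M, (G.pole (c.plo h.inst.wt h.inst.fresh)).IsPM M ∧ (∀ d ∈ M, 0 < z d) ∧
      ∀ X, G.Adm fr F X → (∀ d ∈ G.bd X, G.pi d ∉ Z → d ∈ M) →
        ¬ (Odd (X \ Z).card ∨ (jm.Nonempty ∧ jm ⊆ X)) := by
  have hw := h.inst.wt
  have hF := h.inst.fresh
  set q := c.plo hw hF with hq
  have p := c.outer hw hF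
  have hsx := h.inst.sx_eq
  have m1 := mem_bd.1 c.b1
  have m2 := mem_bd.1 c.b2
  have hep : ∀ X ⊆ fr, ∀ Y : Finset V, (∀ v ∈ X, v ∈ jm → v ∈ Y) →
      ∑ v ∈ X, ep v ≤ (Y ∩ jm).card := by
    intro X hX Y hY
    refine le_trans ?_ (card_le_card (s := X ∩ jm) (fun v hv => mem_inter.2
      ⟨hY v (mem_inter.1 hv).1 (mem_inter.1 hv).2, (mem_inter.1 hv).2⟩))
    rw [← sum_ite_card]
    exact sum_le_sum fun v hv => h.inst.epj v (hX hv)
  -- lift of an admissible set
  have hlift : ∀ X, (G.pole q).Adm (fr \ Z) (F.filter fun d => G.pi d ∉ Z) X →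
      ∃ Y, G.Adm fr F Y ∧ (Y.card % 2 = X.card % 2) ∧ (G.bd Y).card = ((G.pole q).bd X).card ∧
        (∀ v ∈ Y, v ∈ jm → v ∈ X) ∧ X ⊆ Y := by
    intro X hX
    have hd : Disjoint X Z := disjoint_left.2 fun v hv => (mem_sdiff.1 (hX.sub hv)).2
    have hXf : ∀ v ∈ X, v ∈ fr := fun v hv => (mem_sdiff.1 (hX.sub hv)).1
    have hXZ : ∀ v ∈ X, v ∉ Z := fun v hv => (mem_sdiff.1 (hX.sub hv)).2
    have hc12 : G.pi (G.al g1) ∈ X ↔ G.pi (G.al g2) ∈ X := by
      constructor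
      · intro h1
        have h2 := hX.clo (G.al g1) (mem_filter.2 ⟨hF.Fal g1 c.F1, m1.2.2⟩) h1
        rwa [pole_al_a] at h2
      · intro h1
        have h2 := hX.clo (G.al g2) (mem_filter.2 ⟨hF.Fal g2 c.F2, m2.2.2⟩) h1
        rwa [pole_al_b] at h2
    by_cases hc1 : G.pi (G.al g1) ∈ X
    · have hc2 := hc12.1 hc1
      refine ⟨X ∪ Z, ⟨union_subset hXf hZf, fun d hdF hp => ?_⟩, ?_, ?_, ?_, subset_union_left⟩
      · have hds := hF.Fsub hdF
        rcases mem_union.1 hp with h1 | h1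
        · by_cases h2 : G.pi (G.al d) ∈ Z
          · exact mem_union_right _ h2
          · refine mem_union_left _ ?_
            have h3 := hX.clo d (mem_filter.2 ⟨hdF, hXZ _ h1⟩) h1
            rwa [pole_al_out q h2] at h3
        · by_cases e1 : d = g1
          · rw [e1]
            exact mem_union_left _ hc1
          · by_cases e2 : d = g2
            · rw [e2]
              exact mem_union_left _ hc2
            · exact mem_union_right _ (c.Fout hw hF hds (z1 hF hds (hF.Ffr d hdF)) h1 e1 e2)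
      · rw [card_union_of_disjoint hd]
        have := c.even
        rw [Nat.even_iff] at this
        omega
      · congr 1
        rw [pole_bd2 q hd hc1 hc2]
        ext d
        rw [mem_bd, mem_filter, mem_bd, mem_union, mem_union, not_or]
        constructor
        · rintro ⟨k1, k2 | k2, k3, k4⟩
          · exact ⟨⟨k1, k2, k3⟩, k4⟩
          · exfalso
            have e1 : d ≠ g1 := fun e1 => k3 (by rw [e1]; exact hc1)
            have e2 : d ≠ g2 := fun e2 => k3 (by rw [e2]; exact hc2)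
            exact k4 (c.Fout hw hF k1 (z1 hF k1 (hZf k2)) k2 e1 e2)
        · rintro ⟨⟨k1, k2, k3⟩, k4⟩
          exact ⟨k1, Or.inl k2, k3, k4⟩
      · intro v hv hj
        rcases mem_union.1 hv with h1 | h1
        · exact h1
        · exact absurd h1 (c.jm_dis hw hF hj)
    · have hc2 : G.pi (G.al g2) ∉ X := fun h1 => hc1 (hc12.2 h1)
      refine ⟨X, ⟨hXf, fun d hdF hp => ?_⟩, rfl, ?_, fun v hv _ => hv, Finset.Subset.refl _⟩
      · have h3 := hX.clo d (mem_filter.2 ⟨hdF, hXZ _ hp⟩) hp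
        rwa [pole_al q (fun e1 => hc1 (e1 ▸ hp)) (fun e1 => hc2 (e1 ▸ hp))] at h3
      · congr 1
        rw [pole_bd q hd fun h1 => hc1 h1.1, filter_true_of_mem]
        intro d hd1
        obtain ⟨k1, k2, k3⟩ := mem_bd.1 hd1
        exact Or.inr (Or.inr (c.Fin' hw hF k1 (z1 hF k1 (hXf _ k2)) (hXZ _ k2)
          (fun e1 => hc1 (e1 ▸ k2)) (fun e1 => hc2 (e1 ▸ k2))))
  have hR : (G.pole q).RawI z t (fr \ Z) (F.filter fun d => G.pi d ∉ Z) jm ∅ 0 := by
    refine ⟨?_, p.wt hw q, ?_, ?_, h.inst.jm2, ?_, fun X _ _ _ _ => Nat.zero_le _, ?_⟩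
    · have h1 := card_sdiff_add_card_eq_card c.sub
      have h2 := c.even
      have h3 := h.inst.even
      have h4 : (G.pole q).vs.card = (G.vs \ Z).card := rfl
      rw [Nat.even_iff] at h2 h3 ⊢
      omega
    · rw [p.tau q]
      exact h.inst.tau
    · exact c.frB_out hw hF q ∅
    · intro X hX _ ho
      obtain ⟨Y, hY, hc, hb, hj, -⟩ := hlift X hX
      have h1 := h.inst.cc Y hY (by rw [Nat.odd_iff] at ho ⊢; omega)
      rw [← hb]
      exact h1.trans (Nat.add_le_add_left (hep Y hY.sub X hj) _)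
    · intro X hX _ he hn hj
      obtain ⟨Y, hY, hc, hb, -, hXY⟩ := hlift X hX
      rw [← hb]
      refine h.inst.b0 Y hY (by rw [Nat.even_iff] at he ⊢; omega) ?_ ?_
      · rw [hsx]; exact hn
      · rw [hsx]; exact hj.trans hXY
  obtain ⟨M, hM, hpos, hhit⟩ := h.solve hR (Int4.of_raw hR fun d hd => h.i4.zi d ((mem_pole_ds _).1 hd).1) (Or.inl (by
    refine card_lt_card ⟨sdiff_subset, fun h1 => ?_⟩
    exact (mem_sdiff.1 (h1 (hF.Ffr g1 c.F1))).2 m1.2.1))
  refine ⟨M, hM, hpos, fun X hX hcl hodd => ?_⟩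
  obtain ⟨s1, s2, s3⟩ := c.same_iff hw hF hX
  have hcr : ∀ d ∈ G.ds, G.pi d ∈ X → G.pi d ∉ Z → d ≠ G.al g1 → d ≠ G.al g2 →
      G.pi (G.al d) ∉ Z := fun d hd hp hz e1 e2 =>
    c.Fin' hw hF hd (z1 hF hd (hX.sub hp)) hz e1 e2
  have hXY : (G.pole q).Adm (fr \ Z) (F.filter fun d => G.pi d ∉ Z) (X \ Z) := by
    refine ⟨sdiff_subset_sdiff hX.sub (Finset.Subset.refl _), fun d hd hp => ?_⟩
    obtain ⟨k1, k2⟩ := mem_filter.1 hd
    obtain ⟨k3, k4⟩ := mem_sdiff.1 hp
    by_cases e1 : d = G.al g1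
    · rw [e1, pole_al_a]
      refine mem_sdiff.2 ⟨s3.1 (s2.2 (by rw [← e1]; exact k3)), m2.2.2⟩
    · by_cases e2 : d = G.al g2
      · rw [e2, pole_al_b]
        refine mem_sdiff.2 ⟨s2.1 (s3.2 (by rw [← e2]; exact k3)), m1.2.2⟩
      · rw [pole_al q e1 e2]
        exact mem_sdiff.2 ⟨hX.clo d k1 k3, hcr d (hF.Fsub k1) k3 k4 e1 e2⟩
  obtain ⟨d, hd, hdM⟩ := hhit (X \ Z) hXY (disjoint_empty_right _) (by
      rcases hodd with h2 | ⟨h2, h3⟩
      · exact Or.inl h2
      · exact Or.inr ⟨h2, fun v hv => mem_sdiff.2 ⟨h3 hv, c.jm_dis hw hF hv⟩⟩)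
  obtain ⟨m3, m4, m5⟩ := mem_bd.1 hd
  have m6 := ((mem_pole_ds q).1 m3)
  obtain ⟨m7, m8⟩ := mem_sdiff.1 m4
  have e1 : d ≠ G.al g1 := by
    intro e1
    apply m5
    rw [e1, pole_al_a]
    exact mem_sdiff.2 ⟨s3.1 (s2.2 (by rw [← e1]; exact m7)), m2.2.2⟩
  have e2 : d ≠ G.al g2 := by
    intro e2
    apply m5
    rw [e2, pole_al_b]
    exact mem_sdiff.2 ⟨s2.1 (s3.2 (by rw [← e2]; exact m7)), m1.2.2⟩
  rw [pole_al q e1 e2] at m5
  refine hdM (hcl d (mem_bd.2 ⟨m6.1, m7, fun h2 => m5 (mem_sdiff.2 ⟨h2, ?_⟩)⟩) m8)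
  exact hcr d m6.1 m7 m8 e1 e2

/-- F-type 2-cuts, `Z` without vertices outside the circuits -/
theorem no_F2freeI (c : G.F2Z z t F Z g1 g2) (h : G.MCI z t fr F jm sx ep 0) (hZf : Z ⊆ fr) :
    False := by
  have hw := h.inst.wt
  have hF := h.inst.fresh
  have m1 := mem_bd.1 c.b1
  have m2 := mem_bd.1 c.b2
  have hsx := h.inst.sx_eq
  obtain ⟨M1, hM1, hpos1, hhit1⟩ := c.solve_outer_freeI h hZf
  obtain ⟨T, hT, hTM, hTM'⟩ : ∃ T : Finset V, (T = ∅ ∨ T = {G.pi g1, G.pi g2}) ∧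
      (G.al g1 ∈ M1 → T = {G.pi g1, G.pi g2}) ∧ (G.al g1 ∉ M1 → T = ∅) := by
    by_cases h1 : G.al g1 ∈ M1
    · exact ⟨_, Or.inr rfl, fun _ => rfl, fun h2 => absurd h1 h2⟩
    · exact ⟨_, Or.inl rfl, fun h2 => absurd h2 h1, fun _ => rfl⟩
  obtain ⟨N, hN, hNpos, hNhit⟩ := c.solve_resI h hT
  obtain ⟨a1, a2, a3, a4⟩ := res_pm (sdiff_subset.trans c.sub) hN
  set q := c.plo hw hF with hq
  have hM12 : G.al g1 ∈ M1 ↔ G.al g2 ∈ M1 := by
    constructor
    · intro h1
      have h2 := hM1.closed _ h1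
      rwa [pole_al_a] at h2
    · intro h1
      have h2 := hM1.closed _ h1
      rwa [pole_al_b] at h2
  have hM1s : ∀ d ∈ M1, d ∈ G.ds ∧ G.pi d ∉ Z ∧
      (d = G.al g1 ∨ d = G.al g2 ∨ G.pi (G.al d) ∉ Z) := fun d hd =>
    (mem_pole_ds q).1 (hM1.sub hd)
  -- the two cut edges
  obtain ⟨P, hP⟩ : ∃ P : Finset D, ∀ d, d ∈ P ↔ (G.al g1 ∈ M1 ∧ (d = g1 ∨ d = g2)) := by
    by_cases h1 : G.al g1 ∈ M1
    · exact ⟨{g1, g2}, fun d => by rw [mem_insert, mem_singleton]; tauto⟩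
    · exact ⟨∅, fun d => ⟨fun h2 => absurd h2 (notMem_empty _), fun h2 => absurd h2.1 h1⟩⟩
  have hPT : ∀ d ∈ P, G.pi d ∈ Z ∧ G.pi d ∈ T := by
    intro d hd
    obtain ⟨h1, h2⟩ := (hP d).1 hd
    rw [hTM h1, mem_insert, mem_singleton]
    rcases h2 with h2 | h2
    · rw [h2]; exact ⟨m1.2.1, Or.inl rfl⟩
    · rw [h2]; exact ⟨m2.2.1, Or.inr rfl⟩
  have hmem : ∀ d, d ∈ M1 ∪ (N ∪ P) ↔ d ∈ M1 ∨ d ∈ N ∨ d ∈ P := by
    intro d
    rw [mem_union, mem_union]
  have hpm : G.IsPM (M1 ∪ (N ∪ P)) := by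
    refine ⟨?_, ?_, ?_⟩
    · intro d hd
      rcases (hmem d).1 hd with h1 | h1 | h1
      · exact (hM1s d h1).1
      · exact a1 h1
      · rcases ((hP d).1 h1).2 with h2 | h2
        · rw [h2]; exact m1.1
        · rw [h2]; exact m2.1
    · intro d hd
      rw [hmem]
      rcases (hmem d).1 hd with h1 | h1 | h1
      · by_cases e1 : d = G.al g1
        · rw [e1, G.al_al _ m1.1]
          exact Or.inr (Or.inr ((hP _).2 ⟨e1 ▸ h1, Or.inl rfl⟩))
        · by_cases e2 : d = G.al g2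
          · rw [e2, G.al_al _ m2.1]
            exact Or.inr (Or.inr ((hP _).2 ⟨hM12.2 (e2 ▸ h1), Or.inr rfl⟩))
          · have h2 := hM1.closed _ h1
            rw [pole_al q e1 e2] at h2
            exact Or.inl h2
      · exact Or.inr (Or.inl (a2 d h1))
      · obtain ⟨h2, h3⟩ := (hP d).1 h1
        rcases h3 with h3 | h3
        · rw [h3]; exact Or.inl h2
        · rw [h3]; exact Or.inl (hM12.1 h2)
    · intro v hv
      by_cases hvZ : v ∈ Z
      · by_cases hvT : v ∈ T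
        · -- an end of the cut edges
          have hM1' : G.al g1 ∈ M1 := by
            by_contra h1
            rw [hTM' h1] at hvT
            exact absurd hvT (notMem_empty _)
          have hvg : v = G.pi g1 ∨ v = G.pi g2 := by
            rw [hTM hM1', mem_insert, mem_singleton] at hvT
            exact hvT
          obtain ⟨g, hg, hgv, hgu⟩ : ∃ g, (g = g1 ∨ g = g2) ∧ G.pi g = v ∧
              ∀ d, (d = g1 ∨ d = g2) → G.pi d = v → d = g := by
            have hne := c.d_ne hw hF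
            rcases hvg with h1 | h1
            · refine ⟨g1, Or.inl rfl, h1.symm, fun d hd hp => ?_⟩
              rcases hd with h2 | h2
              · exact h2
              · rw [h2, h1] at hp
                exact absurd hp.symm hne
            · refine ⟨g2, Or.inr rfl, h1.symm, fun d hd hp => ?_⟩
              rcases hd with h2 | h2
              · rw [h2, h1] at hp
                exact absurd hp hne
              · exact h2
          rw [card_eq_one]
          refine ⟨g, ?_⟩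
          ext d
          rw [mem_filter, hmem, mem_singleton]
          constructor
          · rintro ⟨h1 | h1 | h1, h2⟩
            · exact absurd (by rw [h2]; exact hvZ) (hM1s d h1).2.1
            · exact absurd hvT (by rw [← h2]; exact (mem_sdiff.1 (a3 d h1)).2)
            · exact hgu d ((hP d).1 h1).2 h2
          · intro h1
            rw [h1]
            exact ⟨Or.inr (Or.inr ((hP g).2 ⟨hM1', hg⟩)), hgv⟩
        · rw [← a4 v (mem_sdiff.2 ⟨hvZ, hvT⟩)]
          congr 1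
          ext d
          rw [mem_filter, mem_filter, hmem]
          constructor
          · rintro ⟨h1 | h1 | h1, h2⟩
            · exact absurd (by rw [h2]; exact hvZ) (hM1s d h1).2.1
            · exact ⟨h1, h2⟩
            · exact absurd (by rw [← h2]; exact (hPT d h1).2) hvT
          · rintro ⟨h1, h2⟩
            exact ⟨Or.inr (Or.inl h1), h2⟩
      · rw [← hM1.one v (mem_sdiff.2 ⟨hv, hvZ⟩)]
        congr 1
        ext d
        rw [mem_filter, mem_filter, hmem]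
        constructor
        · rintro ⟨h1 | h1 | h1, h2⟩
          · exact ⟨h1, h2⟩
          · exact absurd (by rw [← h2]; exact (mem_sdiff.1 (a3 d h1)).1) hvZ
          · exact absurd (by rw [← h2]; exact (hPT d h1).1) hvZ
        · rintro ⟨h1, h2⟩
          exact ⟨Or.inl h1, h2⟩
  refine h.bad ⟨M1 ∪ (N ∪ P), hpm, ?_, ?_⟩
  · intro d hd
    rcases (hmem d).1 hd with h1 | h1 | h1
    · exact hpos1 d h1
    · exact hNpos d h1
    · rcases ((hP d).1 h1).2 with h2 | h2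
      · rw [h2, hF.unit g1 m1.1 (hF.Ffr g1 c.F1)]
        norm_num
      · rw [h2, hF.unit g2 m2.1 (hF.Ffr g2 c.F2)]
        norm_num
  · intro X hX ho
    by_contra hcon
    push Not at hcon
    obtain ⟨s1, s2, s3⟩ := c.same_iff hw hF hX
    have hc1 : ∀ d ∈ G.bd X, G.pi d ∉ Z → d ∈ M1 := by
      intro d hd hp
      rcases (hmem d).1 (hcon d hd) with h1 | h1 | h1
      · exact h1
      · exact absurd (mem_sdiff.1 (a3 d h1)).1 hp
      · exact absurd (hPT d h1).1 hp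
    have hc2 : ∀ d ∈ G.bd X, G.pi d ∈ Z → d ∈ N := by
      intro d hd hp
      rcases (hmem d).1 (hcon d hd) with h1 | h1 | h1
      · exact absurd hp (hM1s d h1).2.1
      · exact h1
      · exfalso
        obtain ⟨k1, k2, k3⟩ := mem_bd.1 hd
        rcases ((hP d).1 h1).2 with h2 | h2
        · rw [h2] at k2 k3
          exact k3 (s2.1 k2)
        · rw [h2] at k2 k3
          exact k3 (s3.1 (s1.2 k2))
    have k3 := hhit1 X hX hc1
    rw [not_or] at k3
    have hFZ : ∀ d ∈ G.ds, G.pi d ∈ Z → d ≠ g1 → d ≠ g2 → G.pi (G.al d) ∈ Z :=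
      fun d hd hp e1 e2 => c.Fout hw hF hd (z1 hF hd (hZf hp)) hp e1 e2
    -- the part in `Z` is even
    have heven : ¬ Odd (X ∩ Z).card := by
      by_cases hg : G.pi g1 ∈ X
      · have hg2 := s1.1 hg
        have hR1 : G.Adm fr F (Z \ X) := by
          refine ⟨sdiff_subset.trans hZf, fun d hd hp => ?_⟩
          obtain ⟨l1, l2⟩ := mem_sdiff.1 hp
          refine mem_sdiff.2 ⟨hFZ d (hF.Fsub hd) l1 (fun e1 => l2 (by rw [e1]; exact hg))
            (fun e1 => l2 (by rw [e1]; exact hg2)), fun l3 => l2 ?_⟩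
          have l4 := hX.clo _ (hF.Fal d hd) l3
          rwa [G.al_al d (hF.Fsub hd)] at l4
        have h1 := hNhit (Z \ X) hR1 sdiff_subset (fun h1 => (mem_sdiff.1 h1).2 hg) (by
          intro d hd
          obtain ⟨l1, l2, l3⟩ := mem_bd.1 hd
          obtain ⟨l4, l5⟩ := mem_sdiff.1 l2
          have l6 := hFZ d l1 l4 (fun e1 => l5 (by rw [e1]; exact hg))
            (fun e1 => l5 (by rw [e1]; exact hg2))
          have l7 : G.pi (G.al d) ∈ X := by
            by_contra l8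
            exact l3 (mem_sdiff.2 ⟨l6, l8⟩)
          have l8 := hc2 (G.al d) (mem_bd.2 ⟨G.al_mem d l1, l7, by rw [G.al_al d l1]; exact l5⟩) l6
          have l9 := a2 _ l8
          rwa [G.al_al d l1] at l9)
        have h2 : (X ∩ Z).card + (Z \ X).card = Z.card := by
          rw [inter_comm, add_comm]
          exact card_sdiff_add_card_inter Z X
        have h3 := c.even
        rw [Nat.even_iff] at h3
        rw [Nat.odd_iff] at h1 ⊢
        omega
      · have hg2 : G.pi g2 ∉ X := fun h1 => hg (s1.2 h1)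
        have q1 : ∀ d, G.pi d ∈ X → d ≠ g1 := fun d hp e1 => hg (by rw [e1] at hp; exact hp)
        have q2 : ∀ d, G.pi d ∈ X → d ≠ g2 := fun d hp e1 => hg2 (by rw [e1] at hp; exact hp)
        have hR1 : G.Adm fr F (X ∩ Z) := by
          refine ⟨inter_subset_left.trans hX.sub, fun d hd hp => ?_⟩
          obtain ⟨l1, l2⟩ := mem_inter.1 hp
          exact mem_inter.2 ⟨hX.clo d hd l1, hFZ d (hF.Fsub hd) l2 (q1 d l1) (q2 d l1)⟩
        refine hNhit (X ∩ Z) hR1 inter_subset_right (fun h1 => hg (mem_inter.1 h1).1) ?_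
        intro d hd
        obtain ⟨l1, l2, l3⟩ := mem_bd.1 hd
        obtain ⟨l4, l5⟩ := mem_inter.1 l2
        have l6 := hFZ d l1 l5 (q1 d l4) (q2 d l4)
        exact hc2 d (mem_bd.2 ⟨l1, l4, fun l7 => l3 (mem_inter.2 ⟨l7, l6⟩)⟩) l5
    rcases ho with ho | ⟨h1, h2⟩
    · have h3 := card_sdiff_add_card_inter X Z
      have h4 := k3.1
      rw [Nat.odd_iff] at ho heven h4
      omega
    · rw [hsx] at h1 h2
      exact k3.2 ⟨h1, h2⟩

end F2Z

/-- **F-type 2-cuts do not exist in a minimal counterexample**: `Z` is even, has value 2 and two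
F-edges in its boundary. -/
theorem MCI.no_F2cut [Infinite V] [Infinite D] (h : G.MCI z t fr F jm sx ep 0)
    {Z : Finset V} {g1 g2 : D} (c : G.F2Z z t F Z g1 g2) : False := by
  have hw := h.inst.wt
  have hF := h.inst.fresh
  by_cases hQ : ∃ v ∈ Z, v ∉ fr
  · refine c.no_F2QI h (fun S hS he hn h0 => ?_) (fun S hS he hcl hex hv => ?_) hQ
    · have h1 : ∀ d ∈ G.bd S, 0 ≤ z d := fun d hd => hw.z0 d (mem_bd.1 hd).1
      have h2 : 0 ≤ ∑ v ∈ S, t v := sum_nonneg fun v hv => hw.t0 v (c.sub (hS hv))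
      unfold val at h0
      have h3 := sum_nonneg h1
      obtain ⟨d, hd, hz⟩ := h.conn (hS.trans c.sub) hn (by
        intro h4
        have h5 := (mem_bd.1 c.b1).2.2
        exact h5 (hS (by rw [h4]; exact G.pi_mem _ (G.al_mem _ (mem_bd.1 c.b1).1))))
      exact hz ((sum_eq_zero_iff_of_nonneg h1).1 (by linarith) d hd)
    · obtain ⟨e, h1, h2, h3, h4, h5⟩ := hex
      exact h.no_c2 ⟨hS.trans c.sub, he, hv, h1, h2, h4, hF.unit e h1 h3, hcl⟩
        (Or.inr ⟨_, mem_inter.2 ⟨h3, h2⟩⟩) (Or.inr ⟨_, mem_sdiff.2 ⟨h5, h4⟩⟩)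
  · push Not at hQ
    exact c.no_F2freeI h hQ

end MG

end RH
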