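import Pool.Agent.Lib.RH.I4FcE

/-! F-cut gluing for the class `Int4` (helper94; copy of helper42's files): outer matchings with the
contracted vertex on the circuit. -/

set_option autoImplicit false

namespace RH

open Finset Classical

namespace MG

variable {V D : Type*}

variable {G : MG V D} {z : D → ℝ} {t : V → ℝ} {fr : Finset V} {F : Finset D} {jm sx : Finset V}
variable {ep : V → ℕ} {m : ℕ} {W Y Z A X B jw : Finset V} {f : D}
variable {ω : V} {c1 c2 g1 g2 : D} {M : Finset D}

set_option maxHeartbeats 1000000 in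
/-- outer matchings, `ω` on the circuit: `jw = ∅` for a fresh-fresh third edge, `jw = {ω}` if the
third unit is a star token -/
theorem MCI.solveA (hh : G.MCI z t fr F jm sx ep 0)
    (hc : G.FC F W g1 g2) (hWo : Odd W.card) (h3 : G.val z t W = 3) (hWc : 2 ≤ W.card)
    (hω : ω ∈ W) (hωe : ω = G.pi g1) (hu : ∀ d ∈ G.bd W, z d = 1)
    (hjw : (jw = ∅ ∧ (rd G F W).card = 1 ∧ Disjoint jm W) ∨
      (jw = {ω} ∧ rd G F W = ∅ ∧ (jm ∩ W).card = 1))
    (ht : ∑ v ∈ W, t v = jw.card)
    (hC : ∀ A, G.AdmZ fr F (G.vs \ W) A → G.pi (G.al g1) ∈ A → Even A.card →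
      G.val z t (A ∪ W) ≠ 3)
    (hB : ∀ A, G.AdmZ fr F (G.vs \ W) A → G.pi (G.al g1) ∈ A → Odd A.card →
      G.bd (A ∪ W) ≠ ∅) :
    ∃ M1, G.Half (G.vs \ W) M1 ∧ (∀ d ∈ M1, 0 < z d) ∧ ∃ f ∈ G.bd W, 0 < z f ∧
      (∀ d ∈ G.bd W, (G.al d ∈ M1 ↔ d = f)) ∧
      (∀ X, G.Adm fr F X → X ⊆ G.vs \ W →
        (Odd X.card ∨ (jw = ∅ ∧ jm.Nonempty ∧ jm ⊆ X)) → ∃ d ∈ G.bd X, d ∉ M1) ∧
      (∀ A, G.AdmZ fr F (G.vs \ W) A → G.pi (G.al g1) ∈ A →
        (Even A.card ∨ (jm.Nonempty ∧ jm ∩ (G.vs \ W) ⊆ A)) →
        (∃ d ∈ G.bd A, d ∉ F ∧ G.pi (G.al d) ∉ W ∧ d ∉ M1) ∨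
        (∃ d ∈ G.bd W, d ∉ F ∧ G.pi (G.al d) ∉ A ∧ d ≠ f)) := by
  have hF := hh.inst.fresh
  have hw := hh.inst.wt
  have hW := hc.hW
  set U := G.vs \ W with hUdef
  have hUs : U ⊆ G.vs := sdiff_subset
  have hUi : ∀ v ∈ G.vs, (v ∈ U ↔ v ∉ W) := fun v hv => by
    rw [hUdef, mem_sdiff]
    exact ⟨fun h1 => h1.2, fun h1 => ⟨hv, h1⟩⟩
  have hc' : G.FC F U (G.al g1) (G.al g2) := hc.symm hF
  have hw0 : (G.con W ω hω hW).Wt z (tcon t W ω) := hw.con hω hW hWo h3
  have hjw' : (jw = ∅ ∧ (rd G F W).card = 1) ∨ (jw = {ω} ∧ rd G F W = ∅) := by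
    rcases hjw with h1 | h1
    · exact Or.inl ⟨h1.1, h1.2.1⟩
    · exact Or.inr ⟨h1.1, h1.2.1⟩
  have hfrB := ca_frB (B := ∅) hω hW hUdef hF hc' hu hjw'
  have hωU : ω ∉ U := fun h1 => (mem_sdiff.1 h1).2 hω
  have hUc : U.card + W.card = G.vs.card := card_sdiff_add_card_eq_card hW
  have hev := hh.inst.even
  have hvsc : (G.con W ω hω hW).vs.card = U.card + 1 := by
    change (U ∪ {ω}).card = _
    rw [card_union_of_disjoint (disjoint_singleton_right.2 hωU), card_singleton]
  set jm' := (jm ∩ U) ∪ jw with hjm'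
  have hjU : ∀ v ∈ jm, v ∉ W → v ∈ U := fun v h1 h2 => mem_sdiff.2 ⟨hF.fsub (hF.jms h1), h2⟩
  have hjm2 : jm' = ∅ ∨ jm'.card = 2 := by
    rcases hjw with ⟨h1, -, h2⟩ | ⟨h1, -, h2⟩
    · have h4 : jm' = jm := by
        rw [hjm', h1, union_empty, inter_eq_left]
        exact fun v hv => hjU v hv (disjoint_left.1 h2 hv)
      rw [h4]
      exact hh.inst.jm2
    · right
      have h4 : (jm ∩ U).card + (jm ∩ W).card = jm.card := by
        have k0 : jm ∩ U = jm \ W := by
          ext v
          rw [mem_inter, mem_sdiff, mem_sdiff]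
          exact ⟨fun k => ⟨k.1, k.2.2⟩, fun k => ⟨k.1, hF.fsub (hF.jms k.1), k.2⟩⟩
        rw [k0]
        exact card_sdiff_add_card_inter jm W
      have h5 : jm.card = 2 := by
        rcases hh.inst.jm2 with k1 | k1
        · rw [k1, empty_inter, card_empty] at h2
          omega
        · exact k1
      rw [hjm', h1, card_union_of_disjoint, card_singleton]
      · omega
      · rw [disjoint_singleton_right]
        exact fun k => hωU (mem_inter.1 k).2
  have hXj : ∀ A, A ⊆ U → (insert ω A ∩ jm').card = (A ∩ jm).card + jw.card := by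
    intro A hA
    have h1 : insert ω A ∩ jm' = (A ∩ jm) ∪ jw := by
      ext v
      rw [mem_inter, mem_insert, mem_union, mem_inter, mem_union, mem_inter]
      constructor
      · rintro ⟨k1 | k1, k2 | k2⟩
        · exact absurd (k1 ▸ k2.2) hωU
        · exact Or.inr k2
        · exact Or.inl ⟨k1, k2.1⟩
        · exact Or.inr k2
      · rintro (⟨k1, k2⟩ | k1)
        · exact ⟨Or.inr k1, Or.inl ⟨k2, hA k1⟩⟩
        · refine ⟨Or.inl ?_, Or.inr k1⟩
          rcases hjw with ⟨k2, -⟩ | ⟨k2, -⟩
          · rw [k2] at k1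
            exact absurd k1 (notMem_empty v)
          · rw [k2] at k1
            exact mem_singleton.1 k1
    rw [h1, card_union_of_disjoint]
    rw [disjoint_left]
    intro v k1 k2
    rcases hjw with ⟨k3, -⟩ | ⟨k3, -⟩
    · rw [k3] at k2
      exact notMem_empty v k2
    · rw [k3, mem_singleton] at k2
      exact hωU (k2 ▸ hA (mem_inter.1 k1).1)
  -- value of a union through `ω`
  have hval : ∀ A, G.AdmZ fr F U A → G.pi (G.al g1) ∈ A →
      G.val z t (A ∪ W) = ((G.con W ω hω hW).bd (insert ω A)).card +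
        (insert ω A ∩ jm').card := by
    intro A hA hg
    have hdAW : Disjoint A W := by
      rw [disjoint_left]
      exact fun v k1 => (mem_sdiff.1 (hA.subZ k1)).2
    have hsub : insert ω A ⊆ (G.con W ω hω hW).vs := by
      intro v hv
      change v ∈ U ∪ {ω}
      rcases mem_insert.1 hv with rfl | hv
      · exact mem_union_right _ (mem_singleton_self _)
      · exact mem_union_left _ (hA.subZ hv)
    have h1 : G.bd (A ∪ W) = (G.con W ω hω hW).bd (insert ω A) := by
      rw [con_bd hω hW hsub]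
      congr 1
      unfold pre
      rw [if_pos (mem_insert_self _ _)]
      ext v
      rw [mem_union, mem_union, mem_insert]
      constructor
      · rintro (k1 | k1)
        · exact Or.inl (Or.inr k1)
        · exact Or.inr k1
      · rintro ((k1 | k1) | k1)
        · exact Or.inr (k1 ▸ hω)
        · exact Or.inl k1
        · exact Or.inr k1
    have h2 : ∑ d ∈ G.bd (A ∪ W), z d = ((G.con W ω hω hW).bd (insert ω A)).card := by
      rw [h1]
      have h4 : ∑ d ∈ (G.con W ω hω hW).bd (insert ω A), z d =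
          ∑ _d ∈ (G.con W ω hω hW).bd (insert ω A), (1 : ℝ) := by
        refine sum_congr rfl fun d hd => ?_
        rcases (ca_bd hω hW hUdef hF hc' hA hg).1 hd with ⟨k1, -, -⟩ | ⟨k1, -, -⟩
        · obtain ⟨k2, k3, -⟩ := mem_bd.1 k1
          exact hF.unit d k2 (hA.sub k3)
        · exact hu d k1
      rw [h4, sum_const, nsmul_eq_mul, mul_one]
    have h5 := hF.sum_t hw hA.sub
    unfold val
    rw [h2, sum_union hdAW, h5, ht, hXj A hA.subZ]
    push_cast
    ring
  have hraw : (G.con W ω hω hW).RawI z (tcon t W ω) (insert ω (fr ∩ U))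
      (F.filter fun d => G.pi d ∈ U ∨ G.pi (G.al d) ∈ U) jm' ∅ 0 := by
    refine ⟨con_even hω hW hev hWo, hw0, by rw [con_tau hω hW]; exact hh.inst.tau, hfrB, hjm2,
      ?_, fun _ _ _ _ _ => Nat.zero_le _, ?_⟩
    · intro X hX hXB ho
      by_cases hωX : ω ∈ X
      · obtain ⟨h1, h2, h4⟩ := ca_adm_in hω hW hUdef hF hc' hX hωX
        have hXc : X.card = (X.erase ω).card + 1 := (card_erase_add_one hωX).symm
        have hAe : Even (X.erase ω).card := by
          rw [Nat.odd_iff] at ho
          rw [Nat.even_iff]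
          omega
        have hdAW : Disjoint (X.erase ω) W := by
          rw [disjoint_left]
          exact fun v k1 => (mem_sdiff.1 (h2.subZ k1)).2
        have hAe' := Nat.even_iff.1 hAe
        have hodd : Odd (X.erase ω ∪ W).card := by
          rw [card_union_of_disjoint hdAW]
          rw [Nat.odd_iff] at hWo ⊢
          omega
        have h6 := hw.cut _ (union_subset (h2.subZ.trans hUs) hW) hodd
        have h7 := hval _ h2 h4
        rw [← h1] at h7
        have h8 : 3 < G.val z t (X.erase ω ∪ W) := lt_of_le_of_ne h6 (Ne.symm (hC _ h2 h4 hAe))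
        rw [h7] at h8
        have h9 : 3 < ((G.con W ω hω hW).bd X).card + (X ∩ jm').card := by exact_mod_cast h8
        have h10 := hfrB.bd_par hX hXB
        rw [Nat.odd_iff] at ho
        omega
      · obtain ⟨h1, h2⟩ := ca_adm_out hω hW hUdef hF hX hωX
        rw [ca_bd_out hω hW hUdef h1]
        have h4 := hh.inst.cc0 h2 ho
        have h5 : X ∩ jm = X ∩ jm' := by
          ext v
          rw [mem_inter, mem_inter, hjm', mem_union, mem_inter]
          constructor
          · rintro ⟨k1, k2⟩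
            exact ⟨k1, Or.inl ⟨k2, h1 k1⟩⟩
          · rintro ⟨k1, k2 | k2⟩
            · exact ⟨k1, k2.1⟩
            · exfalso
              rcases hjw with ⟨k3, -⟩ | ⟨k3, -⟩
              · rw [k3] at k2
                exact notMem_empty v k2
              · rw [k3, mem_singleton] at k2
                exact hωX (k2 ▸ k1)
        rw [← h5]
        exact h4
    · intro X hX hXB heX hne hjX
      by_cases hωX : ω ∈ X
      · obtain ⟨h1, h2, h4⟩ := ca_adm_in hω hW hUdef hF hc' hX hωX
        have hXc : X.card = (X.erase ω).card + 1 := (card_erase_add_one hωX).symm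
        have hAe : Odd (X.erase ω).card := by
          rw [Nat.even_iff] at heX
          rw [Nat.odd_iff]
          omega
        have h10 := hfrB.bd_par hX hXB
        have h11 : X ∩ jm' = jm' := inter_eq_right.2 hjX
        have h12 : jm'.card = 2 := by
          rcases hjm2 with k1 | k1
          · rw [k1] at hne
            exact absurd hne not_nonempty_empty
          · exact k1
        have h13 := hB _ h2 h4 hAe
        have h14 : ((G.con W ω hω hW).bd X).card ≠ 0 := by
          intro k1
          apply h13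
          have hsub : X ⊆ (G.con W ω hω hW).vs := fun v hv => hfrB.fsub (hX.sub hv)
          rw [card_eq_zero, con_bd hω hW hsub] at k1
          rw [← k1]
          congr 1
          rw [pre_eq_union hω hωX]
        rw [h11, h12] at h10
        rw [Nat.even_iff] at heX
        omega
      · rcases hjw with ⟨k1, -, k2⟩ | ⟨k1, -⟩
        · obtain ⟨h1, h2⟩ := ca_adm_out hω hW hUdef hF hX hωX
          have k3 : jm' = jm := by
            rw [hjm', k1, union_empty, inter_eq_left]
            exact fun v hv => hjU v hv (disjoint_left.1 k2 hv)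
          rw [ca_bd_out hω hW hUdef h1]
          rw [k3] at hne hjX
          exact hh.inst.b00 h2 heX hne hjX
        · exfalso
          refine hωX (hjX ?_)
          rw [hjm', k1]
          exact mem_union_right _ (mem_singleton_self _)
  have hszz : (insert ω (fr ∩ U)).card < fr.card ∨ ((insert ω (fr ∩ U)).card = fr.card ∧
      ((G.con W ω hω hW).vs.card < G.vs.card ∨ ((G.con W ω hω hW).vs.card = G.vs.card ∧
      (G.con W ω hω hW).sup z < G.sup z))) := by
    have k1 : ω ∉ fr ∩ U := fun k2 => hωU (mem_inter.1 k2).2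
    rw [card_insert_of_notMem k1, hvsc]
    have k2 : (fr \ W).card + (fr ∩ W).card = fr.card := card_sdiff_add_card_inter fr W
    have k5 : fr ∩ U = fr \ W := by
      ext v
      rw [mem_inter, mem_sdiff, mem_sdiff]
      exact ⟨fun k => ⟨k.1, k.2.2⟩, fun k => ⟨k.1, hF.fsub k.1, k.2⟩⟩
    have k3 : 1 ≤ (fr ∩ W).card := by
      refine card_pos.2 ⟨ω, mem_inter.2 ⟨?_, hω⟩⟩
      rw [hωe]
      exact hF.Ffr _ hc.f1
    rw [k5]
    omega
  obtain ⟨M', hM', hpos, hhit⟩ := hh.solve hraw
    (Int4.of_raw hraw fun d hd => hh.i4.zi d (mem_filter.1 hd).1) hszz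
  have side : Side G (G.con W ω hω hW) U ∅ := side_con hω hW
  obtain ⟨f, hfM, hfW, hfU, huniq⟩ := con_one hω hW hM'
  have hfd := ((ca_ds hω hW).1 (hM'.sub hfM)).1
  have hfb : f ∈ G.bd W := mem_bd.2 ⟨hfd, hfW, hfU⟩
  have hj0 : jw = ∅ → jm' = jm := by
    intro k1
    rcases hjw with ⟨-, -, k2⟩ | ⟨k3, -⟩
    · rw [hjm', k1, union_empty, inter_eq_left]
      exact fun v hv => hjU v hv (disjoint_left.1 k2 hv)
    · rw [k3] at k1
      exact absurd k1 (singleton_ne_empty ω)
  refine ⟨M'.filter fun d => (G.con W ω hω hW).pi d ∈ U, side.half hM', fun d hd =>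
    hpos d (mem_filter.1 hd).1, f, hfb, hpos f hfM, ?_, ?_, ?_⟩
  · intro d hd
    obtain ⟨k1, k2, k3⟩ := mem_bd.1 hd
    have k4 := G.al_mem d k1
    have k5 := G.al_al d k1
    rw [mem_filter]
    constructor
    · rintro ⟨k8, -⟩
      have k9 := hM'.closed _ k8
      change G.al (G.al d) ∈ M' at k9
      rw [k5] at k9
      exact huniq d k9 k2
    · rintro rfl
      have k9 := hM'.closed _ hfM
      refine ⟨k9, ?_⟩
      rw [ca_piZ hω hW k3]
      exact (hUi _ (G.pi_mem _ k4)).2 k3
  · intro X hX hXU ho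
    have h1 := ca_adm_up hω hW hUdef hX hXU
    obtain ⟨d, hd, hdM⟩ := hhit X h1 (disjoint_empty_right _) (by
      rcases ho with ho | ⟨ho1, ho2, ho4⟩
      · exact Or.inl ho
      · rw [hj0 ho1]
        exact Or.inr ⟨ho2, ho4⟩)
    rw [ca_bd_out hω hW hUdef hXU] at hd
    exact ⟨d, hd, fun h4 => hdM (mem_filter.1 h4).1⟩
  · intro A hA hg ho
    have h1 := ca_adm_ins hω hW hUdef hF hc' hA hg
    have hωA : ω ∉ A := fun h2 => hωU (hA.subZ h2)
    have h4 : Odd (insert ω A).card ∨ (jm'.Nonempty ∧ jm' ⊆ insert ω A) := by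
      rcases ho with ho | ⟨ho1, ho2⟩
      · left
        rw [card_insert_of_notMem hωA]
        exact ho.add_one
      · right
        refine ⟨?_, ?_⟩
        · rcases hjm2 with k1 | k1
          · exfalso
            rcases hjw with ⟨k2, -, -⟩ | ⟨k2, -, -⟩
            · rw [hj0 k2] at k1
              rw [k1] at ho1
              exact not_nonempty_empty ho1
            · have k3 : ω ∈ jm' := by
                rw [hjm', k2]
                exact mem_union_right _ (mem_singleton_self _)
              rw [k1] at k3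
              exact notMem_empty _ k3
          · exact card_pos.1 (by omega)
        · intro v hv
          rw [hjm'] at hv
          rcases mem_union.1 hv with k1 | k1
          · exact mem_insert_of_mem (ho2 k1)
          · rcases hjw with ⟨k2, -⟩ | ⟨k2, -⟩
            · rw [k2] at k1
              exact absurd k1 (notMem_empty v)
            · rw [k2] at k1
              rw [mem_singleton.1 k1]
              exact mem_insert_self _ _
    obtain ⟨d, hd, hdM⟩ := hhit _ h1 (disjoint_empty_right _) h4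
    rcases (ca_bd hω hW hUdef hF hc' hA hg).1 hd with ⟨h5, h6, h7⟩ | ⟨h5, h6, h7⟩
    · exact Or.inl ⟨d, h5, h6, h7, fun h8 => hdM (mem_filter.1 h8).1⟩
    · exact Or.inr ⟨d, h5, h6, h7, fun h8 => hdM (h8 ▸ hfM)⟩

end MG

end RH
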