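import Pool.Agent.Lib.RH.I4FcD

/-! F-cut gluing for the class `Int4` (helper94; copy of helper42's files): the outer matching with
the expanded vertex. -/

set_option autoImplicit false

namespace RH

open Finset Classical

namespace MG

variable {V D : Type*}

variable {G : MG V D} {z : D → ℝ} {t : V → ℝ} {fr : Finset V} {F : Finset D} {jm sx : Finset V}
variable {ep : V → ℕ} {m : ℕ} {W Y Z A X B : Finset V} {f : D}
variable {ω p p' : V} {e e' h h' c1 c2 g1 g2 : D} {S : Finset D} {M : Finset D}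

set_option maxHeartbeats 1000000 in
/-- outer matchings, expanded vertex -/
theorem MCI.solveC [Infinite V] [Infinite D] (hh : G.MCI z t fr F jm sx ep 0)
    (hc : G.FC F W g1 g2) (hWo : Odd W.card) (h3 : G.val z t W = 3) (hj : Disjoint jm W)
    (hsz : 2 ≤ (fr ∩ W).card ∨ 4 ≤ W.card)
    (hC : ∀ A, G.AdmZ fr F (G.vs \ W) A → G.pi (G.al g1) ∈ A → Even A.card →
      G.val z t (A ∪ W) ≠ 3) :
    ∃ M1, G.Half (G.vs \ W) M1 ∧ (∀ d ∈ M1, 0 < z d) ∧ ∃ f ∈ G.bd W, 0 < z f ∧
      (∀ d ∈ G.bd W, (G.al d ∈ M1 ↔ d = f)) ∧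
      (∀ X, G.Adm fr F X → X ⊆ G.vs \ W → (Odd X.card ∨ (jm.Nonempty ∧ jm ⊆ X)) →
        ∃ d ∈ G.bd X, d ∉ M1) ∧
      (f ∉ F → ∀ A, G.AdmZ fr F (G.vs \ W) A → G.pi (G.al g1) ∈ A →
        (Even A.card ∨ (jm.Nonempty ∧ jm ⊆ A)) → ∃ d ∈ G.bd A, d ∉ F ∧ d ∉ M1) := by
  have hF := hh.inst.fresh
  have hw := hh.inst.wt
  have hW := hc.hW
  set U := G.vs \ W with hUdef
  have hUs : U ⊆ G.vs := sdiff_subset
  have hUi : ∀ v ∈ G.vs, (v ∈ U ↔ v ∉ W) := fun v hv => by
    rw [hUdef, mem_sdiff]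
    exact ⟨fun h1 => h1.2, fun h1 => ⟨hv, h1⟩⟩
  obtain ⟨p, p', e, e', h, h', ha, hb, hab, he, he', hhh, hhh', n1, n2, n3, n4, n5, n6⟩ :=
    exists_names G.vs G.ds
  have hg1d := hF.Fsub hc.f1
  have hag1 := G.al_al g1 hg1d
  have hag2 := G.al_al g2 (hF.Fsub hc.f2)
  have hc' : G.FC F U (G.al g1) (G.al g2) := hc.symm hF
  obtain ⟨ω, hωe⟩ : ∃ ω, ω = G.pi g1 := ⟨_, rfl⟩
  have hω : ω ∈ W := hωe ▸ hc.w1
  have x := exD_con (F := F) hω hW ha hb hab he he' hhh hhh' n1 n2 n3 n4 n5 n6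
  have hthird := hc.third hF h3
  have hrdW : ∑ d ∈ rd G F W, z d + ∑ v ∈ W, t v = 1 := hthird
  have hS : ∀ d ∈ (∅ : Finset D), (exG x).al d ∈ (∅ : Finset D) := fun d hd =>
    absurd hd (notMem_empty d)
  have hdl : Dl G fr F W h h' ∅ := ⟨fun d hd => absurd hd (notMem_empty d)⟩
  have hn : e ∉ G.ds ∧ e' ∉ G.ds ∧ h ∉ G.ds ∧ h' ∉ G.ds := ⟨he, he', hhh, hhh'⟩
  have hw0 : (G.con W ω hω hW).Wt z (tcon t W ω) := hw.con hω hW hWo h3
  have htω : tcon t W ω ω = ∑ v ∈ W, t v := by
    unfold tcon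
    rw [if_pos rfl]
  have hw1 := x.wt_exp hw0 (by rw [htω]; exact hrdW)
  have hw2 := hw1.del (empty_subset _) hS
  have hexz : ∀ d ∈ G.ds, exZ z 2 e e' h h' d = z d := by
    intro d hd
    unfold exZ
    rw [if_neg, if_neg]
    · rintro (h1 | h1)
      · exact hhh (h1 ▸ hd)
      · exact hhh' (h1 ▸ hd)
    · rintro (h1 | h1)
      · exact he (h1 ▸ hd)
      · exact he' (h1 ▸ hd)
  have htau : ∑ v ∈ ((exG x).delG ∅ hS).vs, kt (exG x) (exZ z 2 e e' h h')
      (exT (tcon t W ω) ω p p' 0 (tcon t W ω ω) 0) ∅ v = ∑ v ∈ G.vs, t v := by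
    have h1 := kill_tau hw1 (empty_subset _) hS
    change ∑ v ∈ (exG x).vs, _ = _
    rw [h1, x.tau, con_tau hω hW, sum_empty]
    ring
  have hpp : p ∉ G.vs ∧ p' ∉ G.vs := ⟨ha, hb⟩
  have hfrB := gx_frB (B := ∅) hω hW x hS hn hdl hUdef hpp hF hc'
  have hjU : jm ∩ U = jm := by
    rw [inter_eq_left]
    intro v hv
    exact mem_sdiff.2 ⟨hF.fsub (hF.jms hv), disjoint_left.1 hj hv⟩
  rw [hjU] at hfrB
  have hωU : ω ∉ U := fun h1 => (mem_sdiff.1 h1).2 hω
  have hωj : ω ∉ jm := fun h1 => disjoint_left.1 hj h1 hω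
  have hvsc : ((exG x).delG ∅ hS).vs.card = U.card + 3 := by
    rw [gx_vs, ← hUdef]
    have k1 : Disjoint U {ω} := disjoint_singleton_right.2 hωU
    have k2 : p' ∉ U ∪ {ω} := by
      rw [mem_union, mem_singleton, not_or]
      exact ⟨fun k3 => hb (hUs k3), fun k3 => hb (k3 ▸ hW hω)⟩
    have k4 : p ∉ insert p' (U ∪ {ω}) := by
      rw [mem_insert, mem_union, mem_singleton, not_or, not_or]
      exact ⟨hab, fun k3 => ha (hUs k3), fun k3 => ha (k3 ▸ hW hω)⟩
    rw [card_insert_of_notMem k4, card_insert_of_notMem k2, card_union_of_disjoint k1,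
      card_singleton]
  have hUc : U.card + W.card = G.vs.card := card_sdiff_add_card_eq_card hW
  have hev := hh.inst.even
  have hraw : ((exG x).delG ∅ hS).RawI (exZ z 2 e e' h h') (kt (exG x) (exZ z 2 e e' h h')
      (exT (tcon t W ω) ω p p' 0 (tcon t W ω ω) 0) ∅) (insert ω (fr ∩ U))
      (F.filter fun d => G.pi d ∈ U ∨ G.pi (G.al d) ∈ U) jm ∅ 0 := by
    refine ⟨?_, hw2, ?_, hfrB, hh.inst.jm2, ?_, fun _ _ _ _ _ => Nat.zero_le _, ?_⟩
    · rw [hvsc]
      rw [Nat.odd_iff] at hWo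
      rw [Nat.even_iff] at hev ⊢
      omega
    · rw [htau]
      exact hh.inst.tau
    · intro X hX _ ho
      by_cases hωX : ω ∈ X
      · obtain ⟨h1, h2, h4⟩ := gx_adm_in hω hW x hS hUdef hF hc' hX hωX
        set A := X.erase ω with hA
        have hXc : X.card = A.card + 1 := (card_erase_add_one hωX).symm
        have hAe : Even A.card := by
          rw [Nat.odd_iff] at ho
          rw [Nat.even_iff]
          omega
        have hXj : (X ∩ jm).card = (A ∩ jm).card := by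
          congr 1
          ext v
          rw [mem_inter, mem_inter, mem_erase]
          constructor
          · rintro ⟨k1, k2⟩
            exact ⟨⟨fun k3 => hωj (k3 ▸ k2), k1⟩, k2⟩
          · rintro ⟨⟨-, k1⟩, k2⟩
            exact ⟨k1, k2⟩
        rw [hXj, h1, gx_bd_card hω hW x hS hn hdl hUdef hpp hF hc' h2 h4]
        have h5 := hF.nj_par h2.sub
        have hAe' := Nat.even_iff.1 hAe
        have hdAW : Disjoint A W := by
          rw [disjoint_left]
          exact fun v k1 => (mem_sdiff.1 (h2.subZ k1)).2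
        have hodd : Odd (A ∪ W).card := by
          rw [card_union_of_disjoint hdAW]
          rw [Nat.odd_iff] at hWo ⊢
          omega
        have h6 := hw.cut (A ∪ W) (union_subset (h2.subZ.trans hUs) hW) hodd
        have h7 := hc.val_le hF hw h3 h2 h4
        have h8 : 3 < G.val z t (A ∪ W) := lt_of_le_of_ne h6 (Ne.symm (hC A h2 h4 hAe))
        have h9 : (2 : ℝ) < G.nj F A + (A ∩ jm).card := by linarith
        have h10 : 2 < G.nj F A + (A ∩ jm).card := by exact_mod_cast h9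
        omega
      · obtain ⟨h1, h2⟩ := gx_adm_out hω hW x hS hUdef hF hX hωX
        rw [gx_bd_out hω hW x hS hn hdl hUdef hpp h2.sub h1]
        exact hh.inst.cc0 h2 ho
    · intro X hX _ heX hne hjX
      by_cases hωX : ω ∈ X
      · obtain ⟨h1, h2, h4⟩ := gx_adm_in hω hW x hS hUdef hF hc' hX hωX
        set A := X.erase ω with hA
        have hXc : X.card = A.card + 1 := (card_erase_add_one hωX).symm
        rw [h1, gx_bd_card hω hW x hS hn hdl hUdef hpp hF hc' h2 h4]
        have h5 := hF.nj_par h2.sub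
        have h6 : A ∩ jm = jm := by
          rw [inter_eq_right]
          intro v hv
          exact mem_erase.2 ⟨fun k3 => hωj (k3 ▸ hv), hjX hv⟩
        have h7 : jm.card = 2 := by
          rcases hh.inst.jm2 with k1 | k1
          · rw [k1] at hne
            exact absurd hne not_nonempty_empty
          · exact k1
        rw [h6, h7] at h5
        rw [Nat.even_iff] at heX
        omega
      · obtain ⟨h1, h2⟩ := gx_adm_out hω hW x hS hUdef hF hX hωX
        rw [gx_bd_out hω hW x hS hn hdl hUdef hpp h2.sub h1]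
        exact hh.inst.b00 h2 heX hne hjX
  have hszz : (insert ω (fr ∩ U)).card < fr.card ∨ ((insert ω (fr ∩ U)).card = fr.card ∧
      (((exG x).delG ∅ hS).vs.card < G.vs.card ∨ (((exG x).delG ∅ hS).vs.card = G.vs.card ∧
      ((exG x).delG ∅ hS).sup (exZ z 2 e e' h h') < G.sup z))) := by
    have k1 : ω ∉ fr ∩ U := fun k2 => hωU (mem_inter.1 k2).2
    rw [card_insert_of_notMem k1, hvsc]
    have k2 : (fr \ W).card + (fr ∩ W).card = fr.card := card_sdiff_add_card_inter fr W
    have k5 : fr ∩ U = fr \ W := by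
      ext v
      rw [mem_inter, mem_sdiff, mem_sdiff]
      exact ⟨fun k => ⟨k.1, k.2.2⟩, fun k => ⟨k.1, hF.fsub k.1, k.2⟩⟩
    have k3 : 1 ≤ (fr ∩ W).card := by
      refine card_pos.2 ⟨ω, mem_inter.2 ⟨?_, hω⟩⟩
      rw [hωe]
      exact hF.Ffr _ hc.f1
    rw [k5]
    omega
  obtain ⟨M', hM', hpos, hhit⟩ := hh.solve hraw
    (Int4.of_raw hraw fun d hd => exZ_nat ⟨2, by norm_num⟩ fun k1 k2 k3 k4 => by
      rcases ((gx_ds hω hW x hS).1 hd).1 with k5 | k5 | k5 | k5 | ⟨k5, -⟩
      · exact absurd k5 k1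
      · exact absurd k5 k2
      · exact absurd k5 k3
      · exact absurd k5 k4
      · exact hh.i4.zi d k5) hszz
  have side := gx_side hω hW x hS hn hdl hUdef hpp
  have hpi : ∀ d ∈ G.ds, G.pi d ∉ W → ((exG x).delG ∅ hS).pi d = G.pi d := fun d h1 h2 =>
    gx_piZ hω hW x hS h1 h2
  -- uniqueness at the new vertices
  have huni : ∀ v ∈ ((exG x).delG ∅ hS).vs, ∀ d1 ∈ M', ∀ d2 ∈ M',
      ((exG x).delG ∅ hS).pi d1 = v → ((exG x).delG ∅ hS).pi d2 = v → d1 = d2 := by
    intro v hv d1 k1 d2 k2 k3 k4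
    obtain ⟨d', hd'⟩ := card_eq_one.1 (hM'.one v hv)
    have k5 : d1 ∈ M'.filter fun d => ((exG x).delG ∅ hS).pi d = v := mem_filter.2 ⟨k1, k3⟩
    have k6 : d2 ∈ M'.filter fun d => ((exG x).delG ∅ hS).pi d = v := mem_filter.2 ⟨k2, k4⟩
    rw [hd', mem_singleton] at k5 k6
    rw [k5, k6]
  have hvω : ω ∈ ((exG x).delG ∅ hS).vs := by rw [gx_vs]; simp
  have hvp : p ∈ ((exG x).delG ∅ hS).vs := by rw [gx_vs]; simp
  have hvp' : p' ∈ ((exG x).delG ∅ hS).vs := by rw [gx_vs]; simp
  have pe : ((exG x).delG ∅ hS).pi e = ω := x.pi_e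
  have pe' : ((exG x).delG ∅ hS).pi e' = p := x.pi_e'
  have ph : ((exG x).delG ∅ hS).pi h = p := x.pi_h
  have ph' : ((exG x).delG ∅ hS).pi h' = p' := x.pi_h'
  have ae : ((exG x).delG ∅ hS).al e = e' := x.al_e
  have ae' : ((exG x).delG ∅ hS).al e' = e := x.al_e'
  have ah : ((exG x).delG ∅ hS).al h = h' := x.al_h
  have ah' : ((exG x).delG ∅ hS).al h' = h := x.al_h'
  have hnW : ∀ d ∈ G.bd W, ¬ (G.pi d ∈ W ∧ G.pi (G.al d) ∈ W) := fun d hd k =>
    (mem_bd.1 hd).2.2 k.2
  have hpF : ∀ d ∈ G.bd W, d ∈ F → ((exG x).delG ∅ hS).pi d = ω := fun d hd k => by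
    obtain ⟨k1, k2, k3⟩ := mem_bd.1 hd
    exact gx_piF hω hW x hS k1 k2 k3 k
  have hpR : ∀ d ∈ G.bd W, d ∉ F → ((exG x).delG ∅ hS).pi d = p' := fun d hd k => by
    obtain ⟨k1, k2, k3⟩ := mem_bd.1 hd
    exact gx_piR hω hW x hS k1 k2 k3 k
  -- the crossing edge
  obtain ⟨f, hfb, hfM, huniq, hfe⟩ : ∃ f ∈ G.bd W, f ∈ M' ∧ (∀ d ∈ G.bd W, d ∈ M' → d = f) ∧
      (f ∉ F → e ∈ M') := by
    by_cases heM : e ∈ M'
    · have k1 : e' ∈ M' := by
        have := hM'.closed e heM
        rwa [ae] at this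
      obtain ⟨d, hd⟩ := card_eq_one.1 (hM'.one _ hvp')
      have k2 : d ∈ M'.filter fun d => ((exG x).delG ∅ hS).pi d = p' := by
        rw [hd]
        exact mem_singleton_self d
      obtain ⟨k3, k4⟩ := mem_filter.1 k2
      obtain ⟨k5, -⟩ := (gx_ds hω hW x hS).1 (hM'.sub k3)
      have k6 : d ∈ G.bd W ∧ d ∉ F := by
        rcases k5 with k5 | k5 | k5 | k5 | ⟨k5, k8⟩
        · rw [k5, pe] at k4
          exact absurd (hW hω) (k4 ▸ hb)
        · rw [k5, pe'] at k4
          exact absurd k4 hab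
        · rw [k5, ph] at k4
          exact absurd k4 hab
        · rw [k5] at k3
          have k9 := hM'.closed h' k3
          rw [ah'] at k9
          have k10 := huni p hvp e' k1 h k9 pe' ph
          exact absurd k10 n4
        · rw [gx_pi hω hW x hS k5 k8] at k4
          by_cases k9 : d ∈ rd G F W
          · exact mem_filter.1 k9
          · rw [if_neg k9] at k4
            by_cases k10 : G.pi d ∈ W
            · rw [if_pos k10] at k4
              exact absurd (hW hω) (k4 ▸ hb)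
            · rw [if_neg k10] at k4
              exact absurd (G.pi_mem d k5) (k4 ▸ hb)
      refine ⟨d, k6.1, k3, ?_, fun _ => heM⟩
      intro d' k7 k8
      by_cases k9 : d' ∈ F
      · have k10 := huni ω hvω d' k8 e heM (hpF d' k7 k9) pe
        exact absurd (mem_bd.1 k7).1 (k10 ▸ he)
      · exact huni p' hvp' d' k8 d k3 (hpR d' k7 k9) k4
    · obtain ⟨d, hd⟩ := card_eq_one.1 (hM'.one _ hvω)
      have k2 : d ∈ M'.filter fun d => ((exG x).delG ∅ hS).pi d = ω := by
        rw [hd]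
        exact mem_singleton_self d
      obtain ⟨k3, k4⟩ := mem_filter.1 k2
      obtain ⟨k5, -⟩ := (gx_ds hω hW x hS).1 (hM'.sub k3)
      have k6 : d ∈ G.bd W ∧ d ∈ F := by
        rcases k5 with k5 | k5 | k5 | k5 | ⟨k5, k8⟩
        · exact absurd (k5 ▸ k3) heM
        · rw [k5, pe'] at k4
          exact absurd (hW hω) (k4 ▸ ha)
        · rw [k5, ph] at k4
          exact absurd (hW hω) (k4 ▸ ha)
        · rw [k5, ph'] at k4
          exact absurd (hW hω) (k4 ▸ hb)
        · rw [gx_pi hω hW x hS k5 k8] at k4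
          by_cases k9 : d ∈ rd G F W
          · rw [if_pos k9] at k4
            exact absurd (hW hω) (k4 ▸ hb)
          · rw [if_neg k9] at k4
            by_cases k10 : G.pi d ∈ W
            · have k11 : d ∈ G.bd W := mem_bd.2 ⟨k5, k10, fun k12 => k8 ⟨k10, k12⟩⟩
              refine ⟨k11, ?_⟩
              by_contra k12
              exact k9 (mem_filter.2 ⟨k11, k12⟩)
            · rw [if_neg k10] at k4
              exact absurd hω (k4 ▸ k10)
      -- then `p` is matched to `p'`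
      have k7 : h' ∈ M' := by
        obtain ⟨d', hd'⟩ := card_eq_one.1 (hM'.one _ hvp)
        have j2 : d' ∈ M'.filter fun d => ((exG x).delG ∅ hS).pi d = p := by
          rw [hd']
          exact mem_singleton_self d'
        obtain ⟨j3, j4⟩ := mem_filter.1 j2
        obtain ⟨j5, -⟩ := (gx_ds hω hW x hS).1 (hM'.sub j3)
        have j6 : d' = h := by
          rcases j5 with j5 | j5 | j5 | j5 | ⟨j5, j8⟩
          · exact absurd (j5 ▸ j3) heM
          · have j9 := hM'.closed d' j3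
            rw [j5, ae'] at j9
            exact absurd j9 heM
          · exact j5
          · rw [j5, ph'] at j4
            exact absurd j4.symm hab
          · rw [gx_pi hω hW x hS j5 j8] at j4
            by_cases k9 : d' ∈ rd G F W
            · rw [if_pos k9] at j4
              exact absurd j4.symm hab
            · rw [if_neg k9] at j4
              by_cases k10 : G.pi d' ∈ W
              · rw [if_pos k10] at j4
                exact absurd (hW hω) (j4 ▸ ha)
              · rw [if_neg k10] at j4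
                exact absurd (G.pi_mem d' j5) (j4 ▸ ha)
        have j7 := hM'.closed d' j3
        rwa [j6, ah] at j7
      refine ⟨d, k6.1, k3, ?_, fun k8 => absurd k6.2 k8⟩
      intro d' k8 k9
      by_cases k10 : d' ∈ F
      · exact huni ω hvω d' k9 d k3 (hpF d' k8 k10) k4
      · have k11 := huni p' hvp' d' k9 h' k7 (hpR d' k8 k10) ph'
        exact absurd (mem_bd.1 k8).1 (k11 ▸ hhh')
  have hfd := (mem_bd.1 hfb).1
  refine ⟨M'.filter fun d => ((exG x).delG ∅ hS).pi d ∈ U, side.half hM', ?_, f, hfb, ?_, ?_, ?_,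
    ?_⟩
  · intro d hd
    obtain ⟨k1, k2⟩ := mem_filter.1 hd
    have k3 := hpos d k1
    rwa [hexz d (side.dn d (hM'.sub k1) k2).1] at k3
  · have k1 := hpos f hfM
    rwa [hexz f hfd] at k1
  · intro d hd
    obtain ⟨k1, k2, k3⟩ := mem_bd.1 hd
    have k4 := G.al_mem d k1
    have k5 := G.al_al d k1
    have k6 : ((exG x).delG ∅ hS).al d = G.al d := gx_al hω hW x hS k1 (hnW d hd)
    have k7 : ((exG x).delG ∅ hS).al (G.al d) = d := by
      rw [gx_al hω hW x hS k4 (fun k8 => k3 k8.1)]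
      exact k5
    rw [mem_filter]
    constructor
    · rintro ⟨k8, -⟩
      have k9 := hM'.closed _ k8
      rw [k7] at k9
      exact huniq d hd k9
    · rintro rfl
      have k9 := hM'.closed _ hfM
      rw [k6] at k9
      refine ⟨k9, ?_⟩
      rw [hpi _ k4 k3]
      exact (hUi _ (G.pi_mem _ k4)).2 k3
  · intro X hX hXU ho
    have h1 := gx_adm_up hω hW x hS hUdef hF hX hXU
    obtain ⟨d, hd, hdM⟩ := hhit X h1 (disjoint_empty_right _) ho
    rw [gx_bd_out hω hW x hS hn hdl hUdef hpp hX.sub hXU] at hd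
    exact ⟨d, hd, fun h4 => hdM (mem_filter.1 h4).1⟩
  · intro hfF A hA hg ho
    have h1 := gx_adm_ins hω hW x hS hUdef hF hc' hA hg
    have hωA : ω ∉ A := fun h2 => hωU (hA.subZ h2)
    have h4 : Odd (insert ω A).card ∨ (jm.Nonempty ∧ jm ⊆ insert ω A) := by
      rcases ho with ho | ⟨ho1, ho2⟩
      · left
        rw [card_insert_of_notMem hωA]
        exact ho.add_one
      · exact Or.inr ⟨ho1, ho2.trans (subset_insert _ _)⟩
    obtain ⟨d, hd, hdM⟩ := hhit _ h1 (disjoint_empty_right _) h4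
    rcases (gx_bd hω hW x hS hn hdl hUdef hpp hF hc' hA hg).1 hd with h5 | ⟨h5, h6⟩
    · exact absurd (h5 ▸ hfe hfF) hdM
    · exact ⟨d, h5, h6, fun h7 => hdM (mem_filter.1 h7).1⟩

end MG

end RH
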