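import Pool.Agent.Lib.RH.I4FcE

/-! F-cut gluing for the class `Int4` (helper94; copy of helper42's files): inner matchings with
prescribed edge in the third unit. -/

set_option autoImplicit false

namespace RH

open Finset Classical

namespace MG

variable {V D : Type*}

variable {G : MG V D} {z : D → ℝ} {t : V → ℝ} {fr : Finset V} {F : Finset D} {jm sx : Finset V}
variable {ep : V → ℕ} {m : ℕ} {W Y Z A X B : Finset V} {f : D}
variable {ω p p' : V} {e e' h h' c1 c2 g1 g2 : D} {S : Finset D} {M : Finset D}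

theorem MCI.noJT (hh : G.MCI z t fr F jm sx ep m) : NoJT G z t F :=
  fun _ h1 h2 h3 h4 h5 h6 => hh.no_tight h1 h2 h3 h5 h6 h4

set_option maxHeartbeats 1000000 in
/-- inner matchings with prescribed edge in the third unit -/
theorem MCI.solveD [Infinite V] [Infinite D] (hh : G.MCI z t fr F jm sx ep 0)
    (hc : G.FC F W g1 g2) (hWo : Odd W.card) (h3 : G.val z t W = 3) (hj : Disjoint jm W)
    (hf : f ∈ G.bd W) (hfF : f ∉ F) (hz : 0 < z f)
    (hsz : 2 ≤ (fr \ W).card ∨ 4 ≤ (G.vs \ W).card) :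
    ∃ M2, G.Half W M2 ∧ (∀ d ∈ M2, 0 < z d) ∧ (∀ d ∈ G.bd W, (d ∈ M2 ↔ d = f)) ∧
      (∀ X, G.Adm fr F X → X ⊆ W →
        (∀ v ∈ X, ¬ (G.pi f ∉ fr ∧ ∃ d ∈ G.ds, G.pi d = v ∧ G.pi (G.al d) = G.pi f)) →
        Odd X.card → ∃ d ∈ G.bd X, d ∉ M2) ∧
      (∀ A, G.AdmZ fr F W A → G.pi g1 ∈ A →
        (∀ v ∈ A, ¬ (G.pi f ∉ fr ∧ ∃ d ∈ G.ds, G.pi d = v ∧ G.pi (G.al d) = G.pi f)) →
        Even A.card → ∃ d ∈ G.bd A, d ∉ F ∧ d ∉ M2) := by
  have hF := hh.inst.fresh
  have hw := hh.inst.wt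
  have hW := hc.hW
  obtain ⟨hfd, hfW, hfU⟩ := mem_bd.1 hf
  have hafd := G.al_mem f hfd
  have haf := G.al_al f hfd
  set U := G.vs \ W with hUdef
  have hUU : W = G.vs \ U := (Finset.sdiff_sdiff_eq_self hW).symm
  have hUs : U ⊆ G.vs := sdiff_subset
  have hUi : ∀ v ∈ G.vs, (v ∈ U ↔ v ∉ W) := fun v hv => by
    rw [hUdef, mem_sdiff]
    exact ⟨fun h1 => h1.2, fun h1 => ⟨hv, h1⟩⟩
  obtain ⟨p, p', e, e', h, h', ha, hb, hab, he, he', hhh, hhh', n1, n2, n3, n4, n5, n6⟩ :=
    exists_names G.vs G.ds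
  have hg1d := hF.Fsub hc.f1
  have hω : G.pi (G.al g1) ∈ U := mem_sdiff.2 ⟨G.pi_mem _ (G.al_mem _ hg1d), hc.u1⟩
  obtain ⟨ω, hωe⟩ : ∃ ω, ω = G.pi (G.al g1) := ⟨_, rfl⟩
  rw [← hωe] at hω
  have x := exD_con (F := F) hω hUs ha hb hab he he' hhh hhh' n1 n2 n3 n4 n5 n6
  have hthird := hc.third hF h3
  have hrdW : ∑ d ∈ rd G F W, z d + ∑ v ∈ W, t v = 1 := hthird
  have htW : 0 ≤ ∑ v ∈ W, t v := sum_nonneg fun v hv => hw.t0 v (hW hv)
  have hfrd : f ∈ rd G F W := mem_filter.2 ⟨hf, hfF⟩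
  have hnofr : ∀ d ∈ rd G F W, d ≠ f → G.pi d ∉ fr := by
    intro d hd hne hfr
    have h1 : z d = 1 := hF.unit d (mem_bd.1 (mem_filter.1 hd).1).1 hfr
    have h2 : ∑ e ∈ {d, f}, z e ≤ ∑ e ∈ rd G F W, z e := by
      refine sum_le_sum_of_subset_of_nonneg ?_ fun e he _ =>
        hw.z0 e (mem_bd.1 (mem_filter.1 he).1).1
      intro e he
      rw [mem_insert, mem_singleton] at he
      rcases he with rfl | rfl
      · exact hd
      · exact hfrd
    rw [sum_pair hne, h1] at h2
    linarith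
  -- deleted darts
  set S0 := G.ds.filter fun d => d ∉ F ∧ ((G.pi d ∈ U ∧ G.pi (G.al d) ∉ U) ∨
    (G.pi d ∉ U ∧ G.pi (G.al d) ∈ U)) ∧ d ≠ f ∧ d ≠ G.al f with hS0
  set S := insert h (insert h' S0) with hSdef
  have hSi : ∀ d, d ∈ S ↔ d = h ∨ d = h' ∨ d ∈ S0 := fun d => by
    rw [hSdef, mem_insert, mem_insert]
  have hS : ∀ d ∈ S, (exG x).al d ∈ S := by
    intro d hd
    change exAl (G.con U ω hω hUs) e e' h h' d ∈ S
    rcases (hSi d).1 hd with h1 | h1 | h1
    · rw [h1, x.al_h]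
      exact (hSi _).2 (Or.inr (Or.inl rfl))
    · rw [h1, x.al_h']
      exact (hSi _).2 (Or.inl rfl)
    · obtain ⟨k1, k2, k3, k4, k5⟩ := mem_filter.1 h1
      have k6 := G.al_al d k1
      have k7 : d ∈ (G.con U ω hω hUs).ds := by
        refine mem_filter.2 ⟨k1, fun k8 => ?_⟩
        rcases k3 with k3 | k3
        · exact k3.2 k8.2
        · exact k3.1 k8.1
      rw [x.al_old k7]
      change G.al d ∈ S
      refine (hSi _).2 (Or.inr (Or.inr (mem_filter.2 ⟨G.al_mem d k1, ?_, ?_, ?_, ?_⟩)))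
      · exact fun k8 => k2 (by rw [← k6]; exact hF.Fal _ k8)
      · rw [k6]
        rcases k3 with k3 | k3
        · exact Or.inr ⟨k3.2, k3.1⟩
        · exact Or.inl ⟨k3.2, k3.1⟩
      · exact fun k8 => k5 (by rw [← k8, k6])
      · intro k8
        apply k4
        rw [← k6, k8, haf]
  have hdl : Dl G fr F U h h' S := by
    refine ⟨fun d hd => ?_⟩
    rcases (hSi d).1 hd with h1 | h1 | h1
    · exact Or.inl h1
    · exact Or.inr (Or.inl h1)
    · obtain ⟨k1, k2, k3, k4, k5⟩ := mem_filter.1 h1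
      refine Or.inr (Or.inr ⟨k1, k2, ?_⟩)
      rcases k3 with k3 | k3
      · exact Or.inl k3
      · refine Or.inr ⟨k3.1, k3.2, hnofr d (mem_filter.2 ⟨mem_bd.2 ⟨k1, ?_, ?_⟩, k2⟩) k4⟩
        · by_contra k6
          exact k3.1 ((hUi _ (G.pi_mem d k1)).2 k6)
        · exact (hUi _ (G.pi_mem _ (G.al_mem d k1))).1 k3.2
  have hn : e ∉ G.ds ∧ e' ∉ G.ds ∧ h ∉ G.ds ∧ h' ∉ G.ds := ⟨he, he', hhh, hhh'⟩
  have hSs : S ⊆ (exG x).ds := by
    intro d hd
    change d ∈ insert e (insert e' (insert h (insert h' (G.con U ω hω hUs).ds)))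
    simp only [mem_insert]
    rcases (hSi d).1 hd with h1 | h1 | h1
    · exact Or.inr (Or.inr (Or.inl h1))
    · exact Or.inr (Or.inr (Or.inr (Or.inl h1)))
    · obtain ⟨k1, k2, k3, k4, k5⟩ := mem_filter.1 h1
      refine Or.inr (Or.inr (Or.inr (Or.inr (mem_filter.2 ⟨k1, fun k8 => ?_⟩))))
      rcases k3 with k3 | k3
      · exact k3.2 k8.2
      · exact k3.1 k8.1
  have hw0 : (G.con U ω hω hUs).Wt z (G.tmir t U ω) :=
    Wt.mir hω hUs hw (by rw [← hUU]; exact hWo) (by rw [← hUU]; exact h3)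
  have htω : G.tmir t U ω ω = ∑ v ∈ W, t v := by
    unfold tmir
    rw [if_pos rfl, ← hUU]
  have hrs := rd_symm hw hF hW
  rw [← hUdef] at hrs
  have hw1 := x.wt_exp hw0 (by rw [htω, hrs]; exact hrdW)
  have hw2 := hw1.del hSs hS
  have hexz : ∀ d ∈ G.ds, exZ z 2 e e' h h' d = z d := by
    intro d hd
    unfold exZ
    rw [if_neg, if_neg]
    · rintro (h1 | h1)
      · exact hhh (h1 ▸ hd)
      · exact hhh' (h1 ▸ hd)
    · rintro (h1 | h1)
      · exact he (h1 ▸ hd)
      · exact he' (h1 ▸ hd)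
  have htau : ∑ v ∈ ((exG x).delG S hS).vs, kt (exG x) (exZ z 2 e e' h h')
      (exT (G.tmir t U ω) ω p p' 0 (G.tmir t U ω ω) 0) S v = 6 - 2 * z f := by
    have h1 := kill_tau hw1 hSs hS
    change ∑ v ∈ (exG x).vs, _ = _
    rw [h1, x.tau, mir_tau hω hUs, htω, ← hUU]
    have h2 : h' ∉ S0 := fun h3 => hhh' (mem_filter.1 h3).1
    have h4 : h ∉ insert h' S0 := by
      rw [mem_insert, not_or]
      exact ⟨n6, fun h3 => hhh (mem_filter.1 h3).1⟩
    rw [hSdef, sum_insert h4, sum_insert h2, x.z_h, x.z_h']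
    have h5 : ∑ d ∈ S0, exZ z 2 e e' h h' d = ∑ d ∈ S0, z d :=
      sum_congr rfl fun d hd => hexz d (mem_filter.1 hd).1
    have h6 : S0 = (rd G F W).erase f ∪ (rd G F U).erase (G.al f) := by
      ext d
      rw [mem_union, mem_erase, mem_erase, hS0, mem_filter]
      constructor
      · rintro ⟨k1, k2, k3 | k3, k4, k5⟩
        · exact Or.inr ⟨k5, mem_filter.2 ⟨mem_bd.2 ⟨k1, k3.1, k3.2⟩, k2⟩⟩
        · refine Or.inl ⟨k4, mem_filter.2 ⟨mem_bd.2 ⟨k1, ?_, ?_⟩, k2⟩⟩
          · by_contra k6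
            exact k3.1 ((hUi _ (G.pi_mem d k1)).2 k6)
          · exact (hUi _ (G.pi_mem _ (G.al_mem d k1))).1 k3.2
      · rintro (⟨k1, k2⟩ | ⟨k1, k2⟩)
        · obtain ⟨k3, k4⟩ := mem_filter.1 k2
          obtain ⟨k5, k6, k7⟩ := mem_bd.1 k3
          refine ⟨k5, k4, Or.inr ⟨fun k8 => (mem_sdiff.1 k8).2 k6,
            (hUi _ (G.pi_mem _ (G.al_mem d k5))).2 k7⟩, k1, fun k8 => hfU (k8 ▸ k6)⟩
        · obtain ⟨k3, k4⟩ := mem_filter.1 k2
          obtain ⟨k5, k6, k7⟩ := mem_bd.1 k3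
          exact ⟨k5, k4, Or.inl ⟨k6, k7⟩, fun k8 => (mem_sdiff.1 k6).2 (k8 ▸ hfW), k1⟩
    have h7 : Disjoint ((rd G F W).erase f) ((rd G F U).erase (G.al f)) := by
      rw [disjoint_left]
      intro d k1 k2
      have k3 := (mem_bd.1 (mem_filter.1 (mem_erase.1 k1).2).1).2.1
      have k4 := (mem_bd.1 (mem_filter.1 (mem_erase.1 k2).2).1).2.1
      exact (mem_sdiff.1 k4).2 k3
    have h8 : G.al f ∈ rd G F U := by
      refine mem_filter.2 ⟨mem_bd.2 ⟨hafd, (hUi _ (G.pi_mem _ hafd)).2 hfU, ?_⟩, fun k1 => hfF ?_⟩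
      · rw [haf]
        exact fun k1 => (mem_sdiff.1 k1).2 hfW
      · rw [← haf]
        exact hF.Fal _ k1
    have h9 := add_sum_erase (rd G F W) z hfrd
    have h10 := add_sum_erase (rd G F U) z h8
    rw [hw.sym f hfd] at h10
    rw [h5, h6, sum_union h7]
    linarith
  set Bs := (fr ∩ W).filter fun v => G.pi f ∉ fr ∧ ∃ d ∈ G.ds, G.pi d = v ∧
    G.pi (G.al d) = G.pi f with hBs
  have hpp : p ∉ G.vs ∧ p' ∉ G.vs := ⟨ha, hb⟩
  have hfrB := gx_frB (B := Bs) hω hUs x hS hn hdl hUU hpp hF hc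
  have hjW : jm ∩ W = ∅ := disjoint_iff_inter_eq_empty.1 hj
  rw [hjW] at hfrB
  have hωW : ω ∉ W := (mem_sdiff.1 hω).2
  have hX0 : ∀ X, X ⊆ W → (X ∩ jm).card = 0 := by
    intro X hX
    rw [card_eq_zero, ← disjoint_iff_inter_eq_empty]
    exact disjoint_of_subset_left hX hj.symm
  have hvsc : ((exG x).delG S hS).vs.card = W.card + 3 := by
    rw [gx_vs, ← hUU]
    have k1 : Disjoint W {ω} := disjoint_singleton_right.2 hωW
    have k2 : p' ∉ W ∪ {ω} := by
      rw [mem_union, mem_singleton, not_or]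
      exact ⟨fun k3 => hb (hW k3), fun k3 => hb (k3 ▸ hUs hω)⟩
    have k4 : p ∉ insert p' (W ∪ {ω}) := by
      rw [mem_insert, mem_union, mem_singleton, not_or, not_or]
      exact ⟨hab, fun k3 => ha (hW k3), fun k3 => ha (k3 ▸ hUs hω)⟩
    rw [card_insert_of_notMem k4, card_insert_of_notMem k2, card_union_of_disjoint k1,
      card_singleton]
  have hraw : ((exG x).delG S hS).RawI (exZ z 2 e e' h h') (kt (exG x) (exZ z 2 e e' h h')
      (exT (G.tmir t U ω) ω p p' 0 (G.tmir t U ω ω) 0) S) (insert ω (fr ∩ W))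
      (F.filter fun d => G.pi d ∈ W ∨ G.pi (G.al d) ∈ W) ∅ Bs 0 := by
    refine ⟨?_, hw2, ?_, hfrB, Or.inl rfl, ?_, fun _ _ _ _ _ => Nat.zero_le _, ?_⟩
    · rw [hvsc]
      obtain ⟨k, hk⟩ := hWo
      exact ⟨k + 2, by omega⟩
    · rw [htau]
      linarith
    · intro X hX hXB ho
      rw [inter_empty, card_empty, add_zero]
      by_cases hωX : ω ∈ X
      · obtain ⟨h1, h2, h4⟩ := gx_adm_in hω hUs x hS hUU hF hc hX hωX
        set A := X.erase ω with hA
        have hXc : X.card = A.card + 1 := (card_erase_add_one hωX).symm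
        have hAe : Even A.card := by
          rw [Nat.odd_iff] at ho
          rw [Nat.even_iff]
          omega
        rw [h1, gx_bd_card hω hUs x hS hn hdl hUU hpp hF hc h2 h4]
        have h5 := hF.nj_par h2.sub
        rw [hX0 A h2.subZ, add_zero] at h5
        have hAe' := Nat.even_iff.1 hAe
        have hrest : Odd (W \ A).card := by
          have k1 := card_sdiff_add_card_eq_card h2.subZ
          rw [Nat.odd_iff] at hWo ⊢
          omega
        have h6 := hw.cut (W \ A) (sdiff_subset.trans hW) hrest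
        have h7 := hc.val_rest hF hw h3 h2 h4
        rw [hX0 A h2.subZ] at h7
        by_contra hlt
        have h8 : G.nj F A ≤ 2 := by omega
        have h9 : (G.nj F A : ℝ) ≤ 2 := by exact_mod_cast h8
        set ρ := ((G.bd W).filter fun d => d ∉ F ∧ G.pi d ∈ A).card with hρ
        have h10 : (0 : ℝ) ≤ ρ := Nat.cast_nonneg _
        have h11 : G.val z t (W \ A) = 3 := by
          push_cast at h7
          linarith
        have h12 : (ρ : ℝ) = 0 := by
          push_cast at h7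
          linarith
        have h13 : (G.nj F A : ℝ) = 2 := by
          push_cast at h7
          linarith
        have h14 : ρ = 0 := by exact_mod_cast h12
        have h15 : G.nj F A = 2 := by exact_mod_cast h13
        have hg2 : G.pi g2 ∈ A := (hc.both hF h2).1 h4
        have hclo : ∀ d ∈ F, G.pi d ∈ W \ A → G.pi (G.al d) ∈ W \ A := by
          intro d hd hp
          obtain ⟨k1, k2⟩ := mem_sdiff.1 hp
          have k3 := hF.Fsub hd
          refine mem_sdiff.2 ⟨?_, fun k4 => k2 ?_⟩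
          · by_contra k4
            rcases hc.only d hd k1 k4 with k5 | k5
            · exact k2 (k5 ▸ h4)
            · exact k2 (k5 ▸ hg2)
          · have k5 := h2.clo (G.al d) (hF.Fal d hd) k4 (by rw [G.al_al d k3]; exact k1)
            rwa [G.al_al d k3] at k5
        have hAc : 2 ≤ A.card := by
          have k1 : 0 < A.card := card_pos.2 ⟨_, h4⟩
          omega
        have hUc : 1 ≤ U.card := card_pos.2 ⟨_, hω⟩
        have hone : (W \ A).card = 1 := by
          by_contra k1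
          have k2 := Nat.odd_iff.1 hrest
          refine hh.noJT (W \ A) (sdiff_subset.trans hW) hrest h11 hclo (by omega) ?_
          have k3 : U ∪ A ⊆ G.vs \ (W \ A) := by
            intro v hv
            rcases mem_union.1 hv with k4 | k4
            · exact mem_sdiff.2 ⟨hUs k4, fun k5 => (mem_sdiff.1 k4).2 (mem_sdiff.1 k5).1⟩
            · exact mem_sdiff.2 ⟨hW (h2.subZ k4), fun k5 => (mem_sdiff.1 k5).2 k4⟩
          have k4 := card_le_card k3
          rw [card_union_of_disjoint (by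
            rw [disjoint_left]
            exact fun v k5 k6 => (mem_sdiff.1 k5).2 (h2.subZ k6))] at k4
          omega
        obtain ⟨y, hy⟩ := card_eq_one.1 hone
        have hyW : y ∈ W \ A := by rw [hy]; exact mem_singleton_self y
        have hfy : G.pi f = y := by
          have k1 : G.pi f ∉ A := by
            intro k2
            have k3 : f ∈ (G.bd W).filter fun d => d ∉ F ∧ G.pi d ∈ A :=
              mem_filter.2 ⟨hf, hfF, k2⟩
            rw [card_eq_zero.1 h14] at k3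
            exact notMem_empty _ k3
          have k2 : G.pi f ∈ W \ A := mem_sdiff.2 ⟨hfW, k1⟩
          rw [hy] at k2
          exact mem_singleton.1 k2
        have hyfr : y ∉ fr := by
          intro k1
          have k2 := hF.two y k1
          have k3 : 0 < (F.filter fun d => G.pi d = y).card := by omega
          obtain ⟨d, hd⟩ := card_pos.1 k3
          obtain ⟨k4, k5⟩ := mem_filter.1 hd
          have k6 := hclo d k4 (by rw [k5]; exact hyW)
          rw [hy, mem_singleton] at k6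
          exact G.noloop d (hF.Fsub k4) (k6.trans k5.symm)
        have hnjp : 0 < ((G.bd A).filter fun d => d ∉ F).card := by
          have k1 : G.nj F A = ((G.bd A).filter fun d => d ∉ F).card := rfl
          omega
        obtain ⟨d, hd⟩ := card_pos.1 hnjp
        obtain ⟨k1, k2⟩ := mem_filter.1 hd
        obtain ⟨k3, k4, k5⟩ := mem_bd.1 k1
        have k6 : G.pi (G.al d) = y := by
          have k7 : G.pi (G.al d) ∈ W := by
            by_contra k8
            have k9 : d ∈ (G.bd W).filter fun d => d ∉ F ∧ G.pi d ∈ A :=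
              mem_filter.2 ⟨mem_bd.2 ⟨k3, h2.subZ k4, k8⟩, k2, k4⟩
            rw [card_eq_zero.1 h14] at k9
            exact notMem_empty _ k9
          have k8 : G.pi (G.al d) ∈ W \ A := mem_sdiff.2 ⟨k7, k5⟩
          rw [hy] at k8
          exact mem_singleton.1 k8
        have k7 : G.pi d ∈ Bs := by
          refine mem_filter.2 ⟨mem_inter.2 ⟨h2.sub k4, h2.subZ k4⟩, by rw [hfy]; exact hyfr,
            d, k3, rfl, by rw [k6, hfy]⟩
        exact disjoint_left.1 hXB (mem_erase.1 k4).2 k7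
      · obtain ⟨h1, h2⟩ := gx_adm_out hω hUs x hS hUU hF hX hωX
        rw [gx_bd_out hω hUs x hS hn hdl hUU hpp h2.sub h1]
        have h4 := hh.inst.cc0 h2 ho
        rw [hX0 X h1] at h4
        exact h4
    · intro X _ _ _ hne
      exact absurd hne not_nonempty_empty
  have hszz : (insert ω (fr ∩ W)).card < fr.card ∨ ((insert ω (fr ∩ W)).card = fr.card ∧
      (((exG x).delG S hS).vs.card < G.vs.card ∨ (((exG x).delG S hS).vs.card = G.vs.card ∧
      ((exG x).delG S hS).sup (exZ z 2 e e' h h') < G.sup z))) := by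
    have k1 : ω ∉ fr ∩ W := fun k2 => hωW (mem_inter.1 k2).2
    rw [card_insert_of_notMem k1, hvsc]
    have k2 : (fr \ W).card + (fr ∩ W).card = fr.card := card_sdiff_add_card_inter fr W
    have k3 : 1 ≤ (fr \ W).card := by
      refine card_pos.2 ⟨ω, mem_sdiff.2 ⟨?_, hωW⟩⟩
      rw [hωe]
      exact hF.Ffr _ (hF.Fal _ hc.f1)
    have k4 : U.card + W.card = G.vs.card := card_sdiff_add_card_eq_card hW
    omega
  obtain ⟨M', hM', hpos, hhit⟩ := hh.solve hraw
    (Int4.of_raw hraw fun d hd => exZ_nat ⟨2, by norm_num⟩ fun k1 k2 k3 k4 => by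
      rcases ((gx_ds hω hUs x hS).1 hd).1 with k5 | k5 | k5 | k5 | ⟨k5, -⟩
      · exact absurd k5 k1
      · exact absurd k5 k2
      · exact absurd k5 k3
      · exact absurd k5 k4
      · exact hh.i4.zi d k5) hszz
  have side := gx_side hω hUs x hS hn hdl hUU hpp
  have hpi : ∀ d ∈ G.ds, G.pi d ∈ W → ((exG x).delG S hS).pi d = G.pi d := fun d h1 h2 =>
    gx_piZ hω hUs x hS h1 (fun h4 => (mem_sdiff.1 h4).2 h2)
  have heM : e ∈ M' := by
    have k1 : p ∈ ((exG x).delG S hS).vs := by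
      rw [gx_vs]
      exact mem_insert_self _ _
    obtain ⟨d, hd⟩ := card_eq_one.1 (hM'.one _ k1)
    have k2 : d ∈ M'.filter fun d => ((exG x).delG S hS).pi d = p := by
      rw [hd]
      exact mem_singleton_self d
    obtain ⟨k3, k4⟩ := mem_filter.1 k2
    obtain ⟨k5, k6⟩ := (gx_ds hω hUs x hS).1 (hM'.sub k3)
    have k7 : d = e' := by
      rcases k5 with k5 | k5 | k5 | k5 | ⟨k5, k8⟩
      · rw [k5] at k4
        have k9 : ((exG x).delG S hS).pi e = ω := x.pi_e
        rw [k9] at k4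
        exact absurd (hUs hω) (k4 ▸ ha)
      · exact k5
      · exact absurd ((hSi d).2 (Or.inl k5)) k6
      · exact absurd ((hSi d).2 (Or.inr (Or.inl k5))) k6
      · rw [gx_pi hω hUs x hS k5 k8] at k4
        by_cases k9 : d ∈ rd G F U
        · rw [if_pos k9] at k4
          exact absurd k4.symm hab
        · rw [if_neg k9] at k4
          by_cases k10 : G.pi d ∈ U
          · rw [if_pos k10] at k4
            exact absurd (hUs hω) (k4 ▸ ha)
          · rw [if_neg k10] at k4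
            exact absurd (G.pi_mem d k5) (k4 ▸ ha)
    have k8 := hM'.closed d k3
    rw [k7] at k8
    have k9 : ((exG x).delG S hS).al e' = e := x.al_e'
    rwa [k9] at k8
  have hfM : f ∈ M' := by
    have k1 : p' ∈ ((exG x).delG S hS).vs := by
      rw [gx_vs]
      exact mem_insert_of_mem (mem_insert_self _ _)
    obtain ⟨d, hd⟩ := card_eq_one.1 (hM'.one _ k1)
    have k2 : d ∈ M'.filter fun d => ((exG x).delG S hS).pi d = p' := by
      rw [hd]
      exact mem_singleton_self d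
    obtain ⟨k3, k4⟩ := mem_filter.1 k2
    obtain ⟨k5, k6⟩ := (gx_ds hω hUs x hS).1 (hM'.sub k3)
    have k7 : d = G.al f := by
      rcases k5 with k5 | k5 | k5 | k5 | ⟨k5, k8⟩
      · rw [k5] at k4
        have k9 : ((exG x).delG S hS).pi e = ω := x.pi_e
        rw [k9] at k4
        exact absurd (hUs hω) (k4 ▸ hb)
      · rw [k5] at k4
        have k9 : ((exG x).delG S hS).pi e' = p := x.pi_e'
        rw [k9] at k4
        exact absurd k4 hab
      · exact absurd ((hSi d).2 (Or.inl k5)) k6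
      · exact absurd ((hSi d).2 (Or.inr (Or.inl k5))) k6
      · rw [gx_pi hω hUs x hS k5 k8] at k4
        by_cases k9 : d ∈ rd G F U
        · by_contra k10
          obtain ⟨k11, k12⟩ := mem_filter.1 k9
          obtain ⟨k13, k14, k15⟩ := mem_bd.1 k11
          exact k6 ((hSi d).2 (Or.inr (Or.inr (mem_filter.2 ⟨k5, k12, Or.inl ⟨k14, k15⟩,
            fun k16 => (mem_sdiff.1 k14).2 (k16 ▸ hfW), k10⟩))))
        · rw [if_neg k9] at k4
          by_cases k10 : G.pi d ∈ U
          · rw [if_pos k10] at k4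
            exact absurd (hUs hω) (k4 ▸ hb)
          · rw [if_neg k10] at k4
            exact absurd (G.pi_mem d k5) (k4 ▸ hb)
    have k8 := hM'.closed d k3
    rw [k7, gx_al hω hUs x hS hafd (fun k9 => by
      rw [haf] at k9
      exact (mem_sdiff.1 k9.2).2 hfW), haf] at k8
    exact k8
  have hωone : ∀ d ∈ M', ((exG x).delG S hS).pi d = ω → d = e := by
    intro d hd hp
    have k1 : ω ∈ ((exG x).delG S hS).vs := by
      rw [gx_vs]
      simp
    obtain ⟨d', hd'⟩ := card_eq_one.1 (hM'.one _ k1)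
    have k2 : d ∈ M'.filter fun d => ((exG x).delG S hS).pi d = ω := mem_filter.2 ⟨hd, hp⟩
    have k3 : e ∈ M'.filter fun d => ((exG x).delG S hS).pi d = ω :=
      mem_filter.2 ⟨heM, x.pi_e⟩
    rw [hd', mem_singleton] at k2 k3
    rw [k2, k3]
  refine ⟨M'.filter fun d => ((exG x).delG S hS).pi d ∈ W, side.half hM', ?_, ?_, ?_, ?_⟩
  · intro d hd
    obtain ⟨k1, k2⟩ := mem_filter.1 hd
    have k3 := hpos d k1
    rwa [hexz d (side.dn d (hM'.sub k1) k2).1] at k3
  · intro d hd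
    obtain ⟨k1, k2, k3⟩ := mem_bd.1 hd
    rw [mem_filter]
    constructor
    · rintro ⟨k4, -⟩
      by_contra k5
      have k6 : d ∈ F := by
        by_contra k7
        have k8 := ((gx_ds hω hUs x hS).1 (hM'.sub k4)).2
        refine k8 ((hSi d).2 (Or.inr (Or.inr (mem_filter.2 ⟨k1, k7, Or.inr ⟨fun k9 =>
          (mem_sdiff.1 k9).2 k2, (hUi _ (G.pi_mem _ (G.al_mem d k1))).2 k3⟩, k5, ?_⟩))))
        exact fun k9 => hfU (k9 ▸ k2)
      have k7 := hM'.closed d k4
      have k8 : ¬ (G.pi d ∈ U ∧ G.pi (G.al d) ∈ U) := fun k9 => (mem_sdiff.1 k9.1).2 k2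
      rw [gx_al hω hUs x hS k1 k8] at k7
      have k9 := hωone _ k7 (gx_piF hω hUs x hS (G.al_mem d k1)
        ((hUi _ (G.pi_mem _ (G.al_mem d k1))).2 k3) (by
          rw [G.al_al d k1]
          exact fun k9 => (mem_sdiff.1 k9).2 k2) (hF.Fal d k6))
      exact he (k9 ▸ G.al_mem d k1)
    · rintro rfl
      exact ⟨hfM, by rw [hpi d k1 k2]; exact k2⟩
  · intro X hX hXW hXb ho
    have h1 := gx_adm_up hω hUs x hS hUU hF hX hXW
    have h2 : Disjoint X Bs := by
      rw [disjoint_left]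
      intro v hv hv2
      exact hXb v hv (mem_filter.1 hv2).2
    obtain ⟨d, hd, hdM⟩ := hhit X h1 h2 (Or.inl ho)
    rw [gx_bd_out hω hUs x hS hn hdl hUU hpp hX.sub hXW] at hd
    exact ⟨d, hd, fun h4 => hdM (mem_filter.1 h4).1⟩
  · intro A hA hg hAb hAe
    have h1 := gx_adm_ins hω hUs x hS hUU hF hc hA hg
    have hωA : ω ∉ A := fun h2 => hωW (hA.subZ h2)
    have h2 : Disjoint (insert ω A) Bs := by
      rw [disjoint_left]
      intro v hv hv2
      rcases mem_insert.1 hv with h4 | h4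
      · rw [h4] at hv2
        exact hωW (mem_inter.1 (mem_filter.1 hv2).1).2
      · exact hAb v h4 (mem_filter.1 hv2).2
    have h4 : Odd (insert ω A).card := by
      rw [card_insert_of_notMem hωA]
      exact hAe.add_one
    obtain ⟨d, hd, hdM⟩ := hhit _ h1 h2 (Or.inl h4)
    rcases (gx_bd hω hUs x hS hn hdl hUU hpp hF hc hA hg).1 hd with h5 | ⟨h5, h6⟩
    · exact absurd (h5 ▸ heM) hdM
    · exact ⟨d, h5, h6, fun h7 => hdM (mem_filter.1 h7).1⟩

end MG

end RH
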