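import Pool.Agent.Lib.RH.SGlueT1S

/-! Inner matchings of a (t1) set for a used F-edge `f`, general case: the third unit `j` is
deleted (tokens at the contracted vertex `ω` and at its inner end), the other F-edge is
subdivided at `s` with a leaf `q` of two tokens. -/

set_option autoImplicit false

namespace RH

open Finset Classical

namespace MG

variable {V D : Type*}

variable {G G3 : MG V D} {z : D → ℝ} {t : V → ℝ} {fr : Finset V} {F : Finset D} {jm sx : Finset V}
variable {ep : V → ℕ} {m : ℕ} {W Y Z A X B : Finset V} {f g j : D}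
variable {g1 g2 : D} {M M1 M2 : Finset D} {ω s q : V} {e e' h h' : D}

theorem FC.swap (hc : G.FC F W g1 g2) : G.FC F W g2 g1 :=
  ⟨hc.hW, hc.ne.symm, hc.f2, hc.f1, hc.w2, hc.w1, hc.u2, hc.u1,
    fun d h1 h2 h3 => (hc.only d h1 h2 h3).symm⟩

/-- the inner graph -/
structure XF (G G3 : MG V D) (W : Finset V) (f g j e e' h h' : D) (ω s q : V) : Prop where
  side : Side G G3 W {j}
  vs : G3.vs = insert s (insert q (W ∪ {ω}))
  ωW : ω ∉ W
  sW : s ∉ W
  qW : q ∉ W
  ωs : ω ≠ s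
  ωq : ω ≠ q
  sq : s ≠ q
  n1 : e ≠ e'
  nG : e ∉ G.ds ∧ e' ∉ G.ds ∧ h ∉ G.ds ∧ h' ∉ G.ds
  eds : e ∈ G3.ds
  eds' : e' ∈ G3.ds
  hds : h ∈ G3.ds
  fds : G.al f ∈ G3.ds
  gds : G.al g ∈ G3.ds
  pi_e : G3.pi e = ω
  pi_e' : G3.pi e' = s
  pi_h : G3.pi h = s
  pi_h' : G3.pi h' = q
  pi_f : G3.pi (G.al f) = ω
  pi_g : G3.pi (G.al g) = s
  al_e : G3.al e = e'
  al_e' : G3.al e' = e
  al_h : G3.al h = h'
  al_h' : G3.al h' = h
  al_f : G3.al (G.al f) = f
  al_g : G3.al (G.al g) = g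
  out : ∀ d ∈ G3.ds, G3.pi d ∉ W → d = e ∨ d = e' ∨ d = h ∨ d = h' ∨ d = G.al f ∨ d = G.al g

/-- F-darts of the inner graph -/
noncomputable def xF (G : MG V D) (F : Finset D) (W : Finset V) (e e' : D) : Finset D :=
  insert e (insert e' (F.filter fun d => G.pi d ∈ W ∨ G.pi (G.al d) ∈ W))

theorem mem_xF {d : D} : d ∈ xF G F W e e' ↔ d = e ∨ d = e' ∨
    (d ∈ F ∧ (G.pi d ∈ W ∨ G.pi (G.al d) ∈ W)) := by
  unfold xF
  rw [mem_insert, mem_insert, mem_filter]

variable (y : XF G G3 W f g j e e' h h' ω s q)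
variable (hF : G.FrS z fr F jm) (hc : G.FC F W f g) (hrd : rd G F W = {j})
variable (hj : Disjoint jm W) (hj1 : G.pi j ∈ fr)

include hF hc in
/-- F-darts outside `W` -/
theorem XF.Fout {d : D} (hd : d ∈ F) (h1 : G.pi d ∉ W) (h2 : G.pi (G.al d) ∈ W) :
    d = G.al f ∨ d = G.al g := by
  have h3 := G.al_al d (hF.Fsub hd)
  rcases hc.only (G.al d) (hF.Fal d hd) h2 (by rw [h3]; exact h1) with h4 | h4
  · exact Or.inl (by rw [← h4, h3])
  · exact Or.inr (by rw [← h4, h3])

include y hF hc hrd hj hj1 in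
theorem XF.frB : G3.FrB (exZ z 1 e e' h h') (insert ω (insert s (fr ∩ W))) (xF G F W e e')
    {ω, G.pi j} ∅ := by
  have hjrd : j ∈ rd G F W := by rw [hrd]; exact mem_singleton_self j
  obtain ⟨hjb, hjF⟩ := mem_filter.1 hjrd
  obtain ⟨hjd, hjW, hjU⟩ := mem_bd.1 hjb
  obtain ⟨nG1, nG2, nG3, nG4⟩ := y.nG
  have af := G.al_al f (hF.Fsub hc.f1)
  have ag := G.al_al g (hF.Fsub hc.f2)
  have hefr : ∀ d ∈ F, d ≠ e ∧ d ≠ e' ∧ d ≠ h ∧ d ≠ h' := fun d h1 =>
    ⟨fun h2 => nG1 (h2 ▸ hF.Fsub h1), fun h2 => nG2 (h2 ▸ hF.Fsub h1),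
      fun h2 => nG3 (h2 ▸ hF.Fsub h1), fun h2 => nG4 (h2 ▸ hF.Fsub h1)⟩
  have hfx : G.al f ∈ xF G F W e e' :=
    mem_xF.2 (Or.inr (Or.inr ⟨hF.Fal f hc.f1, Or.inr (by rw [af]; exact hc.w1)⟩))
  have hgx : G.al g ∈ xF G F W e e' :=
    mem_xF.2 (Or.inr (Or.inr ⟨hF.Fal g hc.f2, Or.inr (by rw [ag]; exact hc.w2)⟩))
  have hex : e ∈ xF G F W e e' := mem_xF.2 (Or.inl rfl)
  have hex' : e' ∈ xF G F W e e' := mem_xF.2 (Or.inr (Or.inl rfl))
  have hdj : ∀ d ∈ F, d ∉ ({j} : Finset D) := fun d h1 h2 =>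
    hjF ((mem_singleton.1 h2) ▸ h1)
  have hxF : ∀ d ∈ xF G F W e e', d ∈ G3.ds := by
    intro d hd
    rcases mem_xF.1 hd with h1 | h1 | ⟨h1, h2⟩
    · rw [h1]; exact y.eds
    · rw [h1]; exact y.eds'
    · by_cases h4 : G.pi d ∈ W
      · exact (y.side.up d (hF.Fsub h1) h4 (hdj d h1)).1
      · rcases XF.Fout hF hc h1 h4 (h2.resolve_left h4) with h5 | h5
        · rw [h5]; exact y.fds
        · rw [h5]; exact y.gds
  refine y.side.frB hF ?_ hxF ?_ ?_ ?_ ?_ ?_ ?_ ?_ ?_ ?_ ?_ ?_ ?_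
  · intro v hv
    rw [y.vs]
    rcases mem_insert.1 hv with h1 | h1
    · rw [h1]; simp
    · rcases mem_insert.1 h1 with h2 | h2
      · rw [h2]; exact mem_insert_self _ _
      · exact mem_insert_of_mem (mem_insert_of_mem (mem_union_left _ (mem_inter.1 h2).2))
  · intro d hd
    rcases mem_xF.1 hd with h1 | h1 | ⟨h1, h2⟩
    · rw [h1, y.al_e]; exact hex'
    · rw [h1, y.al_e']; exact hex
    · by_cases h4 : G.pi d ∈ W
      · rw [(y.side.up d (hF.Fsub h1) h4 (hdj d h1)).2.2]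
        refine mem_xF.2 (Or.inr (Or.inr ⟨hF.Fal d h1, Or.inr ?_⟩))
        rw [G.al_al d (hF.Fsub h1)]
        exact h4
      · rcases XF.Fout hF hc h1 h4 (h2.resolve_left h4) with h5 | h5
        · rw [h5, y.al_f]
          exact mem_xF.2 (Or.inr (Or.inr ⟨hc.f1, Or.inl hc.w1⟩))
        · rw [h5, y.al_g]
          exact mem_xF.2 (Or.inr (Or.inr ⟨hc.f2, Or.inl hc.w2⟩))
  · intro v hv
    rw [mem_insert, mem_singleton] at hv
    rcases hv with h1 | h1
    · rw [h1]; exact mem_insert_self _ _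
    · rw [h1]
      exact mem_insert_of_mem (mem_insert_of_mem (mem_inter.2 ⟨hj1, hjW⟩))
  · intro v hv hvW
    rcases mem_insert.1 hv with h1 | h1
    · exact absurd (h1 ▸ hvW) y.ωW
    · rcases mem_insert.1 h1 with h2 | h2
      · exact absurd (h2 ▸ hvW) y.sW
      · exact (mem_inter.1 h2).1
  · intro d hd hp _ _
    rw [mem_xF]
    constructor
    · rintro (h1 | h1 | h1)
      · exact absurd (h1 ▸ hd) nG1
      · exact absurd (h1 ▸ hd) nG2
      · exact h1.1
    · exact fun h1 => Or.inr (Or.inr ⟨h1, Or.inl hp⟩)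
  · intro d hd _ _
    unfold exZ
    rw [if_neg, if_neg]
    · rintro (h1 | h1)
      · exact nG3 (h1 ▸ hd)
      · exact nG4 (h1 ▸ hd)
    · rintro (h1 | h1)
      · exact nG1 (h1 ▸ hd)
      · exact nG2 (h1 ▸ hd)
  · intro d hd _
    rw [mem_singleton] at hd
    rw [hd]
    exact Or.inr ⟨mem_insert_of_mem (mem_singleton_self _), hjF⟩
  · intro v hvW hv
    rw [mem_insert, mem_singleton] at hv
    rcases hv with h1 | h1
    · exact absurd (h1 ▸ hvW) y.ωW
    · exact Or.inr ⟨j, mem_singleton_self j, h1.symm, hjF⟩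
  · intro v hvW _ hv
    exact absurd hvW (disjoint_left.1 hj hv)
  · intro v hv hvW _
    have hv2 : v = ω ∨ v = s := by
      rcases mem_insert.1 hv with h1 | h1
      · exact Or.inl h1
      · rcases mem_insert.1 h1 with h2 | h2
        · exact Or.inr h2
        · exact absurd (mem_inter.1 h2).2 hvW
    have hall : ∀ d ∈ xF G F W e e', G3.pi d = v → d = e ∨ d = e' ∨ d = G.al f ∨ d = G.al g := by
      intro d hd hp
      rcases mem_xF.1 hd with h1 | h1 | ⟨h1, h2⟩
      · exact Or.inl h1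
      · exact Or.inr (Or.inl h1)
      · by_cases h4 : G.pi d ∈ W
        · have h5 := (y.side.up d (hF.Fsub h1) h4 (hdj d h1)).2.1
          rw [hp] at h5
          exact absurd (h5 ▸ h4) hvW
        · exact Or.inr (Or.inr (XF.Fout hF hc h1 h4 (h2.resolve_left h4)))
    rcases hv2 with h1 | h1
    · have h2 : ((xF G F W e e').filter fun d => G3.pi d = v) = {e, G.al f} := by
        ext d
        rw [mem_filter, mem_insert, mem_singleton]
        constructor
        · rintro ⟨h4, h5⟩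
          rcases hall d h4 h5 with h6 | h6 | h6 | h6
          · exact Or.inl h6
          · rw [h6, y.pi_e', h1] at h5
            exact absurd h5.symm y.ωs
          · exact Or.inr h6
          · rw [h6, y.pi_g, h1] at h5
            exact absurd h5.symm y.ωs
        · rintro (h4 | h4)
          · rw [h4, h1]; exact ⟨hex, y.pi_e⟩
          · rw [h4, h1]; exact ⟨hfx, y.pi_f⟩
      rw [h2, card_pair]
      exact fun h4 => nG1 (h4 ▸ hF.Fsub (hF.Fal f hc.f1))
    · have h2 : ((xF G F W e e').filter fun d => G3.pi d = v) = {e', G.al g} := by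
        ext d
        rw [mem_filter, mem_insert, mem_singleton]
        constructor
        · rintro ⟨h4, h5⟩
          rcases hall d h4 h5 with h6 | h6 | h6 | h6
          · rw [h6, y.pi_e, h1] at h5
            exact absurd h5 y.ωs
          · exact Or.inl h6
          · rw [h6, y.pi_f, h1] at h5
            exact absurd h5 y.ωs
          · exact Or.inr h6
        · rintro (h4 | h4)
          · rw [h4, h1]; exact ⟨hex', y.pi_e'⟩
          · rw [h4, h1]; exact ⟨hgx, y.pi_g⟩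
      rw [h2, card_pair]
      exact fun h4 => nG2 (h4 ▸ hF.Fsub (hF.Fal g hc.f2))
  · intro v hv hvW _ hvj
    have hv2 : v = s := by
      rcases mem_insert.1 hv with h1 | h1
      · exact absurd (h1 ▸ mem_insert_self _ _) hvj
      · rcases mem_insert.1 h1 with h2 | h2
        · exact h2
        · exact absurd (mem_inter.1 h2).2 hvW
    rw [card_eq_one]
    refine ⟨h, ?_⟩
    ext d
    rw [mem_filter, mem_singleton, mem_st]
    constructor
    · rintro ⟨⟨h1, h2⟩, h4⟩
      rcases y.out d h1 (by rw [h2]; exact hvW) with h5 | h5 | h5 | h5 | h5 | h5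
      · exact absurd (h5 ▸ hex) h4
      · exact absurd (h5 ▸ hex') h4
      · exact h5
      · rw [h5, y.pi_h', hv2] at h2
        exact absurd h2.symm y.sq
      · exact absurd (h5 ▸ hfx) h4
      · exact absurd (h5 ▸ hgx) h4
    · intro h1
      rw [h1, hv2]
      refine ⟨⟨y.hds, y.pi_h⟩, fun h2 => ?_⟩
      rcases mem_xF.1 h2 with h4 | h4 | h4
      · have h5 := y.pi_e
        rw [← h4, y.pi_h] at h5
        exact y.ωs h5.symm
      · have h5 := y.al_e'
        have h6 := y.al_h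
        rw [h4, h5] at h6
        have h7 := y.pi_e
        rw [h6, y.pi_h'] at h7
        exact y.ωq h7.symm
      · exact nG3 (hF.Fsub h4.1)
  · intro v hv hvW _ d hd
    rw [mem_insert, mem_singleton] at hv
    have hv2 : v = ω := by
      rcases hv with h1 | h1
      · exact h1
      · exact absurd (h1 ▸ hjW) hvW
    obtain ⟨h1, h2⟩ := mem_st.1 hd
    rcases y.out d h1 (by rw [h2]; exact hvW) with h5 | h5 | h5 | h5 | h5 | h5
    · rw [h5]; exact hex
    · rw [h5]; exact hex'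
    · rw [h5, y.pi_h, hv2] at h2
      exact absurd h2.symm y.ωs
    · rw [h5, y.pi_h', hv2] at h2
      exact absurd h2.symm y.ωq
    · rw [h5]; exact hfx
    · rw [h5]; exact hgx
  · intro d hd hp hpW _
    have hold : ∀ k ∈ F, exZ z 1 e e' h h' k = 1 := by
      intro k hk
      obtain ⟨k1, k2, k3, k4⟩ := hefr k hk
      unfold exZ
      rw [if_neg (not_or.2 ⟨k1, k2⟩), if_neg (not_or.2 ⟨k3, k4⟩)]
      exact hF.unit k (hF.Fsub hk) (hF.Ffr k hk)
    rcases y.out d hd hpW with h5 | h5 | h5 | h5 | h5 | h5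
    · rw [h5]; unfold exZ; rw [if_pos (Or.inl rfl)]
    · rw [h5]; unfold exZ; rw [if_pos (Or.inr rfl)]
    · rw [h5]
      unfold exZ
      by_cases k1 : h = e ∨ h = e'
      · rw [if_pos k1]
      · rw [if_neg k1, if_pos (Or.inl rfl)]
    · rw [h5]
      unfold exZ
      by_cases k1 : h' = e ∨ h' = e'
      · rw [if_pos k1]
      · rw [if_neg k1, if_pos (Or.inr rfl)]
    · rw [h5]; exact hold _ (hF.Fal f hc.f1)
    · rw [h5]; exact hold _ (hF.Fal g hc.f2)

include y hF hrd in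
theorem XF.adm_out {X : Finset V}
    (hX : G3.Adm (insert ω (insert s (fr ∩ W))) (xF G F W e e') X) (ho : ω ∉ X) :
    X ⊆ W ∧ G.Adm fr F X := by
  have hjrd : j ∈ rd G F W := by rw [hrd]; exact mem_singleton_self j
  have hjF := (mem_filter.1 hjrd).2
  have hs : s ∉ X := by
    intro h1
    have h2 := hX.clo e' (mem_xF.2 (Or.inr (Or.inl rfl))) (by rw [y.pi_e']; exact h1)
    rw [y.al_e', y.pi_e] at h2
    exact ho h2
  have hsub : ∀ v ∈ X, v ∈ fr ∧ v ∈ W := fun v hv => by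
    rcases mem_insert.1 (hX.sub hv) with h1 | h1
    · exact absurd (h1 ▸ hv) ho
    · rcases mem_insert.1 h1 with h2 | h2
      · exact absurd (h2 ▸ hv) hs
      · exact mem_inter.1 h2
  refine ⟨fun v hv => (hsub v hv).2, fun v hv => (hsub v hv).1, fun d hd hpd => ?_⟩
  have h1 := hF.Fsub hd
  have h2 := (hsub _ hpd).2
  have hdj : d ∉ ({j} : Finset D) := fun h3 => hjF ((mem_singleton.1 h3) ▸ hd)
  obtain ⟨h3, h4, h5⟩ := y.side.up d h1 h2 hdj
  have h6 := hX.clo d (mem_xF.2 (Or.inr (Or.inr ⟨hd, Or.inl h2⟩))) (by rw [h4]; exact hpd)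
  have h7 := (y.side.pi_al h3 (by rw [h4]; exact h2) (v := G3.pi (G3.al d)) (hsub _ h6).2).1 rfl
  rw [h7]
  exact h6

include y hF hc hrd in
theorem XF.adm_in {X : Finset V}
    (hX : G3.Adm (insert ω (insert s (fr ∩ W))) (xF G F W e e') X) (ho : ω ∈ X) :
    X = insert ω (insert s (X ∩ W)) ∧ G.AdmZ fr F W (X ∩ W) ∧ G.pi f ∈ X ∩ W := by
  have hjrd : j ∈ rd G F W := by rw [hrd]; exact mem_singleton_self j
  have hjF := (mem_filter.1 hjrd).2
  have hs : s ∈ X := by
    have h2 := hX.clo e (mem_xF.2 (Or.inl rfl)) (by rw [y.pi_e]; exact ho)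
    rwa [y.al_e, y.pi_e'] at h2
  have hsub : ∀ v ∈ X ∩ W, v ∈ fr := fun v hv => by
    obtain ⟨h0, h0'⟩ := mem_inter.1 hv
    rcases mem_insert.1 (hX.sub h0) with h1 | h1
    · exact absurd (h1 ▸ h0') y.ωW
    · rcases mem_insert.1 h1 with h2 | h2
      · exact absurd (h2 ▸ h0') y.sW
      · exact (mem_inter.1 h2).1
  have hdj : ∀ d ∈ F, d ∉ ({j} : Finset D) := fun d hd h3 => hjF ((mem_singleton.1 h3) ▸ hd)
  refine ⟨?_, ⟨hsub, inter_subset_right, fun d hd hpd hpW => ?_⟩, ?_⟩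
  · ext v
    rw [mem_insert, mem_insert, mem_inter]
    constructor
    · intro h1
      rcases mem_insert.1 (hX.sub h1) with h2 | h2
      · exact Or.inl h2
      · rcases mem_insert.1 h2 with h3 | h3
        · exact Or.inr (Or.inl h3)
        · exact Or.inr (Or.inr ⟨h1, (mem_inter.1 h3).2⟩)
    · rintro (h1 | h1 | h1)
      · rw [h1]; exact ho
      · rw [h1]; exact hs
      · exact h1.1
  · have h1 := hF.Fsub hd
    obtain ⟨h0, h2⟩ := mem_inter.1 hpd
    obtain ⟨h3, h4, h5⟩ := y.side.up d h1 h2 (hdj d hd)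
    have h6 := hX.clo d (mem_xF.2 (Or.inr (Or.inr ⟨hd, Or.inl h2⟩))) (by rw [h4]; exact h0)
    have h7 := (y.side.pi_al h3 (by rw [h4]; exact h2) (v := G.pi (G.al d)) hpW).2 rfl
    rw [h7] at h6
    exact mem_inter.2 ⟨h6, hpW⟩
  · have h1 := hF.Fsub hc.f1
    have h2 := G.al_al f h1
    obtain ⟨h3, h4, h5⟩ := y.side.up f h1 hc.w1 (hdj f hc.f1)
    have h6 := hX.clo (G.al f) (mem_xF.2 (Or.inr (Or.inr ⟨hF.Fal f hc.f1, Or.inr (by
      rw [h2]; exact hc.w1)⟩))) (by rw [y.pi_f]; exact ho)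
    rw [y.al_f, h4] at h6
    exact mem_inter.2 ⟨h6, hc.w1⟩

include y hF hc hrd in
theorem XF.adm_up {X : Finset V} (hX : G.Adm fr F X) (hXW : X ⊆ W) :
    G3.Adm (insert ω (insert s (fr ∩ W))) (xF G F W e e') X := by
  have hjrd : j ∈ rd G F W := by rw [hrd]; exact mem_singleton_self j
  have hjF := (mem_filter.1 hjrd).2
  refine ⟨fun v hv => mem_insert_of_mem (mem_insert_of_mem
    (mem_inter.2 ⟨hX.sub hv, hXW hv⟩)), fun d hd hpd => ?_⟩
  have hpW := hXW hpd
  rcases mem_xF.1 hd with h1 | h1 | ⟨h1, h2⟩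
  · rw [h1, y.pi_e] at hpW
    exact absurd hpW y.ωW
  · rw [h1, y.pi_e'] at hpW
    exact absurd hpW y.sW
  · by_cases h4 : G.pi d ∈ W
    · have hdj : d ∉ ({j} : Finset D) := fun h3 => hjF ((mem_singleton.1 h3) ▸ h1)
      obtain ⟨h5, h6, h7⟩ := y.side.up d (hF.Fsub h1) h4 hdj
      rw [h6] at hpd
      have h8 := hX.clo d h1 hpd
      have h9 := (y.side.pi_al h5 (by rw [h6]; exact h4) (v := G.pi (G.al d)) (hXW h8)).2 rfl
      rw [h9]
      exact h8
    · rcases XF.Fout hF hc h1 h4 (h2.resolve_left h4) with h5 | h5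
      · rw [h5, y.pi_f] at hpW
        exact absurd hpW y.ωW
      · rw [h5, y.pi_g] at hpW
        exact absurd hpW y.sW

include y hF hc hrd in
theorem XF.adm_ins {A : Finset V} (hA : G.AdmZ fr F W A) (hg : G.pi f ∈ A) :
    G3.Adm (insert ω (insert s (fr ∩ W))) (xF G F W e e') (insert ω (insert s A)) := by
  have hjrd : j ∈ rd G F W := by rw [hrd]; exact mem_singleton_self j
  have hjF := (mem_filter.1 hjrd).2
  have hg2 : G.pi g ∈ A := (hc.both hF hA).1 hg
  have hdj : ∀ d ∈ F, d ∉ ({j} : Finset D) := fun d hd h3 => hjF ((mem_singleton.1 h3) ▸ hd)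
  have hfu := y.side.up f (hF.Fsub hc.f1) hc.w1 (hdj f hc.f1)
  have hgu := y.side.up g (hF.Fsub hc.f2) hc.w2 (hdj g hc.f2)
  refine ⟨?_, fun d hd hpd => ?_⟩
  · intro v hv
    rcases mem_insert.1 hv with h1 | h1
    · rw [h1]; exact mem_insert_self _ _
    · rcases mem_insert.1 h1 with h2 | h2
      · rw [h2]; exact mem_insert_of_mem (mem_insert_self _ _)
      · exact mem_insert_of_mem (mem_insert_of_mem (mem_inter.2 ⟨hA.sub h2, hA.subZ h2⟩))
  · rcases mem_xF.1 hd with h1 | h1 | ⟨h1, h2⟩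
    · rw [h1, y.al_e, y.pi_e']
      exact mem_insert_of_mem (mem_insert_self _ _)
    · rw [h1, y.al_e', y.pi_e]
      exact mem_insert_self _ _
    · by_cases h4 : G.pi d ∈ W
      · obtain ⟨h5, h6, h7⟩ := y.side.up d (hF.Fsub h1) h4 (hdj d h1)
        have h8 : G.pi d ∈ A := by
          rw [h6] at hpd
          rcases mem_insert.1 hpd with h9 | h9
          · exact absurd (h9 ▸ h4) y.ωW
          · rcases mem_insert.1 h9 with h10 | h10
            · exact absurd (h10 ▸ h4) y.sW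
            · exact h10
        by_cases h9 : G.pi (G.al d) ∈ W
        · have h10 := (y.side.pi_al h5 (by rw [h6]; exact h4) (v := G.pi (G.al d)) h9).2 rfl
          rw [h10]
          exact mem_insert_of_mem (mem_insert_of_mem (hA.clo d h1 h8 h9))
        · rcases hc.only d h1 h4 h9 with h10 | h10
          · rw [h10, hfu.2.2, y.pi_f]
            exact mem_insert_self _ _
          · rw [h10, hgu.2.2, y.pi_g]
            exact mem_insert_of_mem (mem_insert_self _ _)
      · rcases XF.Fout hF hc h1 h4 (h2.resolve_left h4) with h5 | h5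
        · rw [h5, y.al_f, hfu.2.1]
          exact mem_insert_of_mem (mem_insert_of_mem hg)
        · rw [h5, y.al_g, hgu.2.1]
          exact mem_insert_of_mem (mem_insert_of_mem hg2)

include y hF hc hrd in
theorem XF.bd {A : Finset V} (hA : G.AdmZ fr F W A) (hg : G.pi f ∈ A) :
    G3.bd (insert ω (insert s A)) = insert h (((G.bd A).filter fun d => d ∉ F).erase j) := by
  have hjrd : j ∈ rd G F W := by rw [hrd]; exact mem_singleton_self j
  have hjF := (mem_filter.1 hjrd).2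
  have hadm := y.adm_ins hF hc hrd hA hg
  have hg2 : G.pi g ∈ A := (hc.both hF hA).1 hg
  have hdj : ∀ d ∈ F, d ∉ ({j} : Finset D) := fun d hd h3 => hjF ((mem_singleton.1 h3) ▸ hd)
  have hfu := y.side.up f (hF.Fsub hc.f1) hc.w1 (hdj f hc.f1)
  have hgu := y.side.up g (hF.Fsub hc.f2) hc.w2 (hdj g hc.f2)
  have hq : q ∉ insert ω (insert s A) := by
    rw [mem_insert, mem_insert, not_or, not_or]
    exact ⟨y.ωq.symm, y.sq.symm, fun h1 => y.qW (hA.subZ h1)⟩
  have hAW : ∀ v, v ∈ W → (v ∈ insert ω (insert s A) ↔ v ∈ A) := by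
    intro v hv
    rw [mem_insert, mem_insert]
    constructor
    · rintro (h1 | h1 | h1)
      · exact absurd (h1 ▸ hv) y.ωW
      · exact absurd (h1 ▸ hv) y.sW
      · exact h1
    · exact fun h1 => Or.inr (Or.inr h1)
  ext d
  have e0 : d ∈ insert h (((G.bd A).filter fun d => d ∉ F).erase j) ↔ d = h ∨ (d ≠ j ∧
      (d ∈ G.ds ∧ G.pi d ∈ A ∧ G.pi (G.al d) ∉ A) ∧ d ∉ F) := by
    rw [mem_insert, mem_erase, mem_filter, mem_bd]
  rw [e0, mem_bd]
  constructor
  · rintro ⟨h1, h2, h3⟩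
    by_cases h4 : G3.pi d ∈ W
    · right
      obtain ⟨h5, h6, h7⟩ := y.side.dn d h1 h4
      have h8 : G.pi d ∈ A := by
        rw [h6]
        exact (hAW _ h4).1 h2
      have h9 : d ∉ F := fun h10 =>
        h3 (hadm.clo d (mem_xF.2 (Or.inr (Or.inr ⟨h10, Or.inl (hA.subZ h8)⟩))) h2)
      refine ⟨fun h10 => h7 (mem_singleton.2 h10), ⟨h5, h8, fun h10 => h3 ?_⟩, h9⟩
      have h11 := (y.side.pi_al h1 h4 (v := G.pi (G.al d)) (hA.subZ h10)).2 rfl
      rw [h11]
      exact mem_insert_of_mem (mem_insert_of_mem h10)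
    · rcases y.out d h1 h4 with h5 | h5 | h5 | h5 | h5 | h5
      · rw [h5, y.al_e, y.pi_e'] at h3
        exact absurd (mem_insert_of_mem (mem_insert_self _ _)) h3
      · rw [h5, y.al_e', y.pi_e] at h3
        exact absurd (mem_insert_self _ _) h3
      · exact Or.inl h5
      · rw [h5, y.pi_h'] at h2
        exact absurd h2 hq
      · rw [h5, y.al_f, hfu.2.1] at h3
        exact absurd (mem_insert_of_mem (mem_insert_of_mem hg)) h3
      · rw [h5, y.al_g, hgu.2.1] at h3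
        exact absurd (mem_insert_of_mem (mem_insert_of_mem hg2)) h3
  · rintro (h1 | ⟨h1, ⟨h2, h3, h4⟩, h5⟩)
    · rw [h1]
      refine ⟨y.hds, by rw [y.pi_h]; exact mem_insert_of_mem (mem_insert_self _ _), ?_⟩
      rw [y.al_h, y.pi_h']
      exact hq
    · have h6 := hA.subZ h3
      obtain ⟨h7, h8, h9⟩ := y.side.up d h2 h6 (fun h10 => h1 (mem_singleton.1 h10))
      have h10 : G.pi (G.al d) ∈ W := by
        by_contra h11
        have h12 : d ∈ rd G F W := mem_filter.2 ⟨mem_bd.2 ⟨h2, h6, h11⟩, h5⟩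
        rw [hrd, mem_singleton] at h12
        exact h1 h12
      have h11 := (y.side.pi_al h7 (by rw [h8]; exact h6) (v := G.pi (G.al d)) h10).2 rfl
      refine ⟨h7, by rw [h8]; exact (hAW _ h6).2 h3, ?_⟩
      rw [h11]
      exact fun h12 => h4 ((hAW _ h10).1 h12)

theorem exists_XF [Infinite V] [Infinite D] (hw : G.Wt z t) (hF : G.FrS z fr F jm)
    (hc : G.FC F W f g) (hWo : Odd W.card) (h3 : G.val z t W = 3) (hrd : rd G F W = {j})
    (hj1 : G.pi j ∈ fr) :
    ∃ (G3 : MG V D) (e e' h h' : D) (ω s q : V) (t3 : V → ℝ), XF G G3 W f g j e e' h h' ω s q ∧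
      G3.Wt (exZ z 1 e e' h h') t3 ∧ ∑ v ∈ G3.vs, t3 v = 4 := by
  have hW := hc.hW
  have hjrd : j ∈ rd G F W := by rw [hrd]; exact mem_singleton_self j
  obtain ⟨hjb, hjF⟩ := mem_filter.1 hjrd
  obtain ⟨hjd, hjW, hjU⟩ := mem_bd.1 hjb
  have hajd := G.al_mem j hjd
  have haj := G.al_al j hjd
  have hfd := hF.Fsub hc.f1
  have hgd := hF.Fsub hc.f2
  have hafd := G.al_mem f hfd
  have hagd := G.al_mem g hgd
  have af := G.al_al f hfd
  have ag := G.al_al g hgd
  set U := G.vs \ W with hUdef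
  have hUU : W = G.vs \ U := (Finset.sdiff_sdiff_eq_self hW).symm
  have hUs : U ⊆ G.vs := sdiff_subset
  have hUi : ∀ v ∈ G.vs, (v ∈ U ↔ v ∉ W) := fun v hv => by
    rw [hUdef, mem_sdiff]
    exact ⟨fun h1 => h1.2, fun h1 => ⟨hv, h1⟩⟩
  obtain ⟨s, q, e, e', h, h', hs, hq, hsq, he, he', hh, hh', n1, n2, n3, n4, n5, n6⟩ :=
    exists_names G.vs G.ds
  obtain ⟨ω, hωe⟩ : ∃ ω, ω = G.pi (G.al f) := ⟨_, rfl⟩
  have hω : ω ∈ U := by
    rw [hωe]
    exact (hUi _ (G.pi_mem _ hafd)).2 hc.u1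
  have hωW : ω ∉ W := (mem_sdiff.1 hω).2
  set G0 := G.con U ω hω hUs with hG0
  have hds0 : ∀ d, d ∈ G0.ds ↔ d ∈ G.ds ∧ ¬ (G.pi d ∈ U ∧ G.pi (G.al d) ∈ U) := fun d => by
    rw [hG0]
    exact mem_filter
  have hpi0 : ∀ d, G0.pi d = if G.pi d ∈ U then ω else G.pi d := fun d => rfl
  have hal0 : ∀ d, G0.al d = G.al d := fun d => rfl
  have hw0 : G0.Wt z (G.tmir t U ω) :=
    Wt.mir hω hUs hw (by rw [← hUU]; exact hWo) (by rw [← hUU]; exact h3)
  set S : Finset D := {j, G.al j} with hSdef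
  have hSs : S ⊆ G0.ds := by
    intro d hd
    rw [hSdef, mem_insert, mem_singleton] at hd
    rw [hds0]
    rcases hd with h1 | h1
    · rw [h1]
      exact ⟨hjd, fun h2 => (mem_sdiff.1 h2.1).2 hjW⟩
    · rw [h1]
      exact ⟨hajd, fun h2 => by
        rw [haj] at h2
        exact (mem_sdiff.1 h2.2).2 hjW⟩
  have hS : ∀ d ∈ S, G0.al d ∈ S := by
    intro d hd
    rw [hSdef, mem_insert, mem_singleton] at hd ⊢
    rw [hal0]
    rcases hd with h1 | h1
    · exact Or.inr (by rw [h1])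
    · exact Or.inl (by rw [h1, haj])
  have hw1 := hw0.del hSs hS
  have hSF : ∀ d ∈ F, d ∉ S := by
    intro d hd h1
    rw [hSdef, mem_insert, mem_singleton] at h1
    rcases h1 with h2 | h2
    · exact hjF (h2 ▸ hd)
    · apply hjF
      rw [← haj, ← h2]
      exact hF.Fal d hd
  have hds1 : ∀ d, d ∈ (G0.delG S hS).ds ↔ (d ∈ G.ds ∧ ¬ (G.pi d ∈ U ∧ G.pi (G.al d) ∈ U)) ∧
      d ∉ S := fun d => by
    change d ∈ G0.ds \ S ↔ _
    rw [mem_sdiff, hds0]
  have hpi1 : ∀ d, (G0.delG S hS).pi d = if G.pi d ∈ U then ω else G.pi d := fun d => rfl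
  have hal1 : ∀ d, (G0.delG S hS).al d = G.al d := fun d => rfl
  have hvs1 : ∀ v, v ∈ (G0.delG S hS).vs → v ∈ G.vs := by
    intro v hv
    have h1 : v ∈ (G.vs \ U) ∪ {ω} := hv
    rcases mem_union.1 h1 with h2 | h2
    · exact (mem_sdiff.1 h2).1
    · rw [mem_singleton.1 h2]
      exact hUs hω
  have hal1d : ∀ d ∈ F, G.pi d ∈ W → G.al d ∈ (G0.delG S hS).ds := by
    intro d hd h1
    refine (hds1 _).2 ⟨⟨G.al_mem d (hF.Fsub hd), fun h2 => ?_⟩, hSF _ (hF.Fal d hd)⟩
    rw [G.al_al d (hF.Fsub hd)] at h2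
    exact (mem_sdiff.1 h2.2).2 h1
  have hgU : G.pi (G.al g) ∈ U := (hUi _ (G.pi_mem _ hagd)).2 hc.u2
  have hfU : G.pi (G.al f) ∈ U := (hUi _ (G.pi_mem _ hafd)).2 hc.u1
  have x : ExD (G0.delG S hS) ω s q s {G.al g} e e' h h' := by
    refine ⟨mem_union_right _ (mem_singleton_self _), fun h1 => hs (hvs1 _ h1),
      fun h1 => hq (hvs1 _ h1), hsq, Or.inl rfl, ?_, fun h1 => he ((hds1 _).1 h1).1.1,
      fun h1 => he' ((hds1 _).1 h1).1.1, fun h1 => hh ((hds1 _).1 h1).1.1,
      fun h1 => hh' ((hds1 _).1 h1).1.1, n1, n2, n3, n4, n5, n6⟩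
    intro d hd
    rw [mem_singleton] at hd
    rw [hd]
    exact ⟨hal1d g hc.f2 hc.w2, by rw [hpi1, if_pos hgU]⟩
  have hkt : 1 ≤ kt G0 z (G.tmir t U ω) S ω := by
    have h1 : 0 ≤ G.tmir t U ω ω := hw0.t0 ω (mem_union_right _ (mem_singleton_self _))
    have h2 : z (G.al j) ≤ ∑ d ∈ S.filter (fun d => G0.pi d = ω), z d := by
      refine single_le_sum (f := z) (fun d hd => hw0.z0 d (hSs (mem_filter.1 hd).1)) ?_
      refine mem_filter.2 ⟨by rw [hSdef]; exact mem_insert_of_mem (mem_singleton_self _), ?_⟩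
      rw [hpi0, if_pos ((hUi _ (G.pi_mem _ hajd)).2 hjU)]
    rw [hw.sym j hjd, hF.unit j hjd hj1] at h2
    unfold kt
    linarith
  have hzg : ∑ d ∈ ({G.al g} : Finset D), z d = 1 := by
    rw [sum_singleton]
    exact hF.unit _ hagd (hF.Ffr _ (hF.Fal g hc.f2))
  have hw2 := x.wt_sub hw1 hzg hkt
  have htau : ∑ v ∈ (exG x).vs, exT (kt G0 z (G.tmir t U ω) S) ω s q 0 2
      (kt G0 z (G.tmir t U ω) S ω) v = 4 := by
    rw [x.tau]
    have h1 := kill_tau hw0 hSs hS
    change ∑ v ∈ G0.vs, _ - _ + _ + _ + _ = _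
    rw [h1, mir_tau hω hUs, ← hUU]
    have h2 := hc.third hF h3
    change ∑ d ∈ rd G F W, z d + _ = 1 at h2
    rw [hrd, sum_singleton, hF.unit j hjd hj1] at h2
    have h4 : j ≠ G.al j := fun h5 => hjU (by rw [← h5]; exact hjW)
    rw [hSdef, sum_pair h4, hw.sym j hjd, hF.unit j hjd hj1]
    linarith
  refine ⟨exG x, e, e', h, h', ω, s, q, _, ?_, hw2, htau⟩
  have s0 : Side G G0 W ∅ := by
    have := side_con (G := G) hω hUs
    rwa [← hUU] at this
  have s1 : Side G (G0.delG S hS) W (∅ ∪ S.filter fun d => G0.pi d ∈ W) := by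
    refine s0.delG hS hSs ?_
    intro d hd hp
    rw [hSdef, mem_insert, mem_singleton] at hd
    rcases hd with h1 | h1
    · rw [h1, hal0, hpi0, if_pos ((hUi _ (G.pi_mem _ hajd)).2 hjU)]
      exact hωW
    · rw [h1, hpi0, if_pos ((hUi _ (G.pi_mem _ hajd)).2 hjU)] at hp
      exact absurd hp hωW
  have hDel : ∅ ∪ S.filter (fun d => G0.pi d ∈ W) = {j} := by
    ext d
    rw [empty_union, mem_filter, hSdef, mem_insert, mem_singleton, mem_singleton]
    constructor
    · rintro ⟨h1 | h1, h2⟩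
      · exact h1
      · rw [h1, hpi0, if_pos ((hUi _ (G.pi_mem _ hajd)).2 hjU)] at h2
        exact absurd h2 hωW
    · intro h1
      refine ⟨Or.inl h1, ?_⟩
      rw [h1, hpi0, if_neg fun h2 => (mem_sdiff.1 h2).2 hjW]
      exact hjW
  rw [hDel] at s1
  have s2 : Side G (exG x) W {j} := s1.exG x hωW ⟨he, he', hh, hh'⟩
  have hin : ∀ d ∈ (G0.delG S hS).ds, d ∈ (exG x).ds := fun d hd => by
    change d ∈ insert e (insert e' (insert h (insert h' (G0.delG S hS).ds)))
    simp only [mem_insert]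
    exact Or.inr (Or.inr (Or.inr (Or.inr hd)))
  have hne : G.al f ≠ G.al g := fun h1 => hc.ne (by rw [← af, h1, ag])
  refine ⟨s2, ?_, hωW, fun h1 => hs (hW h1), fun h1 => hq (hW h1), fun h1 => hs (h1 ▸ hUs hω),
    fun h1 => hq (h1 ▸ hUs hω), hsq, n1, ⟨he, he', hh, hh'⟩, ?_, ?_, ?_,
    hin _ (hal1d f hc.f1 hc.w1), hin _ (hal1d g hc.f2 hc.w2), x.pi_e, x.pi_e', x.pi_h, x.pi_h',
    ?_, ?_, x.al_e, x.al_e', x.al_h, x.al_h', ?_, ?_, ?_⟩
  · change insert s (insert q ((G.vs \ U) ∪ {ω})) = _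
    rw [← hUU]
  · exact mem_insert_self _ _
  · exact mem_insert_of_mem (mem_insert_self _ _)
  · exact mem_insert_of_mem (mem_insert_of_mem (mem_insert_self _ _))
  · change exPi _ ω s q s {G.al g} e e' h h' (G.al f) = ω
    rw [x.pi_old (hal1d f hc.f1 hc.w1), if_neg (show ¬ G.al f ∈ ({G.al g} : Finset D) from
      fun h1 => hne (mem_singleton.1 h1)), hpi1, if_pos hfU]
  · change exPi _ ω s q s {G.al g} e e' h h' (G.al g) = s
    rw [x.pi_old (hal1d g hc.f2 hc.w2), if_pos (mem_singleton_self _)]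
  · change exAl _ e e' h h' (G.al f) = f
    rw [x.al_old (hal1d f hc.f1 hc.w1), hal1, af]
  · change exAl _ e e' h h' (G.al g) = g
    rw [x.al_old (hal1d g hc.f2 hc.w2), hal1, ag]
  · intro d hd hp
    change d ∈ insert e (insert e' (insert h (insert h' (G0.delG S hS).ds))) at hd
    change exPi _ ω s q s {G.al g} e e' h h' d ∉ W at hp
    simp only [mem_insert] at hd
    rcases hd with h1 | h1 | h1 | h1 | h1
    · exact Or.inl h1
    · exact Or.inr (Or.inl h1)
    · exact Or.inr (Or.inr (Or.inl h1))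
    · exact Or.inr (Or.inr (Or.inr (Or.inl h1)))
    · rw [x.pi_old h1] at hp
      obtain ⟨⟨h2, h4⟩, h5⟩ := (hds1 d).1 h1
      by_cases h6 : d ∈ ({G.al g} : Finset D)
      · exact Or.inr (Or.inr (Or.inr (Or.inr (Or.inr (mem_singleton.1 h6)))))
      · rw [if_neg h6, hpi1] at hp
        have h7 : G.pi d ∈ U := by
          by_contra h8
          rw [if_neg h8] at hp
          exact h8 ((hUi _ (G.pi_mem d h2)).2 hp)
        have h8 : G.pi (G.al d) ∈ W := by
          by_contra h9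
          exact h4 ⟨h7, (hUi _ (G.pi_mem _ (G.al_mem d h2))).2 h9⟩
        have h9 := G.al_al d h2
        have h10 : G.al d ∈ G.bd W := mem_bd.2 ⟨G.al_mem d h2, h8, by
          rw [h9]
          exact (mem_sdiff.1 h7).2⟩
        have h11 : d ∈ F := by
          by_contra h12
          have h13 : G.al d ∈ rd G F W := mem_filter.2 ⟨h10, fun h14 => h12 (by
            rw [← h9]; exact hF.Fal _ h14)⟩
          rw [hrd, mem_singleton] at h13
          apply h5
          rw [hSdef, mem_insert, mem_singleton]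
          exact Or.inr (by rw [← h13, h9])
        rcases XF.Fout hF hc h11 (mem_sdiff.1 h7).2 h8 with h12 | h12
        · exact Or.inr (Or.inr (Or.inr (Or.inr (Or.inl h12))))
        · exact Or.inr (Or.inr (Or.inr (Or.inr (Or.inr h12))))

/-- the inner matching of a (t1) set for the F-edge `f` -/
theorem MCS.inT1_F' [Infinite V] [Infinite D] (hh : G.MCS z t fr F jm sx ep 0)
    (hc : G.FC F W f g) (hWo : Odd W.card) (h3 : G.val z t W = 3)
    (hj : Disjoint jm W) (hrd : rd G F W = {j}) (hj1 : G.pi j ∈ fr)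
    (hs : 3 ≤ (fr \ W).card ∨ (2 ≤ (fr \ W).card ∧ 4 ≤ (G.vs \ W).card))
    (hK : ∀ A, G.AdmZ fr F W A → G.pi f ∈ A → Odd A.card → G.nj F A ≠ 1) :
    InT1 G z fr F W f j f := by
  have hF := hh.inst.fresh
  have hw := hh.inst.wt
  have hW := hc.hW
  have hjrd : j ∈ rd G F W := by rw [hrd]; exact mem_singleton_self j
  obtain ⟨hjb, hjF⟩ := mem_filter.1 hjrd
  obtain ⟨hjd, hjW, hjU⟩ := mem_bd.1 hjb
  obtain ⟨G3, e, e', h, h', ω, s, q, t3, y, hw3, htau⟩ := exists_XF hw hF hc hWo h3 hrd hj1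
  have hfrB := y.frB hF hc hrd hj hj1
  obtain ⟨nG1, nG2, nG3, nG4⟩ := y.nG
  have hωj : ω ≠ G.pi j := fun h1 => y.ωW (h1 ▸ hjW)
  have hsj : s ≠ G.pi j := fun h1 => y.sW (h1 ▸ hjW)
  have hjA : ∀ A, A ⊆ W → A ∩ jm = ∅ := fun A hA => by
    rw [← disjoint_iff_inter_eq_empty]
    exact (disjoint_of_subset_right hA hj).symm
  have hcardA : ∀ A, A ⊆ W → (insert ω (insert s A)).card = A.card + 2 := by
    intro A hA
    have h1 : s ∉ A := fun h2 => y.sW (hA h2)
    have h2 : ω ∉ insert s A := by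
      rw [mem_insert, not_or]
      exact ⟨y.ωs, fun h4 => y.ωW (hA h4)⟩
    rw [card_insert_of_notMem h2, card_insert_of_notMem h1]
  have hbdA : ∀ A, G.AdmZ fr F W A → G.pi f ∈ A →
      (G3.bd (insert ω (insert s A))).card + (if G.pi j ∈ A then 1 else 0) = G.nj F A + 1 := by
    intro A hA hg
    rw [y.bd hF hc hrd hA hg]
    have h1 : h ∉ ((G.bd A).filter fun d => d ∉ F).erase j := fun h2 =>
      nG3 (mem_bd.1 (mem_filter.1 (mem_erase.1 h2).2).1).1
    rw [card_insert_of_notMem h1]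
    unfold nj
    split_ifs with h2
    · have h4 : j ∈ (G.bd A).filter fun d => d ∉ F :=
        mem_filter.2 ⟨mem_bd.2 ⟨hjd, h2, fun h5 => hjU (hA.subZ h5)⟩, hjF⟩
      rw [card_erase_of_mem h4]
      have h5 := card_pos.2 ⟨_, h4⟩
      omega
    · rw [erase_eq_of_notMem]
      exact fun h4 => h2 (mem_bd.1 (mem_filter.1 h4).1).2.1
  have hjm3 : ∀ A, A ⊆ W → (insert ω (insert s A) ∩ {ω, G.pi j}).card =
      1 + (if G.pi j ∈ A then 1 else 0) := by
    intro A hA
    split_ifs with h1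
    · have h2 : insert ω (insert s A) ∩ {ω, G.pi j} = {ω, G.pi j} := by
        rw [inter_eq_right]
        intro v hv
        rw [mem_insert, mem_singleton] at hv
        rcases hv with h4 | h4
        · rw [h4]; exact mem_insert_self _ _
        · rw [h4]; exact mem_insert_of_mem (mem_insert_of_mem h1)
      rw [h2, card_pair hωj]
    · have h2 : insert ω (insert s A) ∩ {ω, G.pi j} = {ω} := by
        ext v
        rw [mem_inter, mem_insert, mem_insert, mem_insert, mem_singleton, mem_singleton]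
        constructor
        · rintro ⟨h4, h5 | h5⟩
          · exact h5
          · rcases h4 with h4 | h4 | h4
            · exact h4
            · exact absurd (h4.symm.trans h5) hsj
            · exact absurd (h5 ▸ h4) h1
        · exact fun h4 => ⟨Or.inl h4, Or.inl h4⟩
      rw [h2, card_singleton]
  have hbdX : ∀ X, X ⊆ W → (G.bd X).card = (G3.bd X).card + (X ∩ {ω, G.pi j}).card := by
    intro X hX
    rw [y.side.bd hX]
    have h0 : ω ∉ X := fun h1 => y.ωW (hX h1)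
    by_cases h1 : G.pi j ∈ X
    · have h2 : j ∈ G.bd X := mem_bd.2 ⟨hjd, h1, fun h5 => hjU (hX h5)⟩
      have h4 : X ∩ {ω, G.pi j} = {G.pi j} := by
        ext v
        rw [mem_inter, mem_insert, mem_singleton]
        constructor
        · rintro ⟨h5, h6 | h6⟩
          · exact absurd (h6 ▸ h5) h0
          · exact h6
        · exact fun h5 => ⟨h5 ▸ h1, Or.inr h5⟩
      rw [h4, card_singleton, sdiff_singleton_eq_erase, card_erase_of_mem h2]
      have h5 := card_pos.2 ⟨_, h2⟩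
      omega
    · have h4 : X ∩ {ω, G.pi j} = ∅ := by
        rw [eq_empty_iff_forall_notMem]
        intro v hv
        rw [mem_inter, mem_insert, mem_singleton] at hv
        rcases hv with ⟨h5, h6 | h6⟩
        · exact h0 (h6 ▸ h5)
        · exact h1 (h6 ▸ h5)
      rw [h4, card_empty, sdiff_singleton_eq_erase, erase_eq_of_notMem, add_zero]
      exact fun h5 => h1 (mem_bd.1 h5).2.1
  have hvsc : G3.vs.card = W.card + 3 := by
    rw [y.vs]
    have k1 : Disjoint W {ω} := disjoint_singleton_right.2 y.ωW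
    have k2 : q ∉ W ∪ {ω} := by
      rw [mem_union, mem_singleton, not_or]
      exact ⟨y.qW, y.ωq.symm⟩
    have k4 : s ∉ insert q (W ∪ {ω}) := by
      rw [mem_insert, mem_union, mem_singleton, not_or, not_or]
      exact ⟨y.sq, y.sW, y.ωs.symm⟩
    rw [card_insert_of_notMem k4, card_insert_of_notMem k2, card_union_of_disjoint k1,
      card_singleton]
  have hraw : G3.RawI (exZ z 1 e e' h h') t3 (insert ω (insert s (fr ∩ W))) (xF G F W e e')
      {ω, G.pi j} ∅ 0 := by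
    refine ⟨?_, hw3, by rw [htau]; norm_num, hfrB, Or.inr (card_pair hωj), ?_,
      fun _ _ _ _ _ => Nat.zero_le _, ?_⟩
    · rw [hvsc]
      obtain ⟨k, hk⟩ := hWo
      exact ⟨k + 2, by omega⟩
    · intro X hX _ ho
      by_cases hωX : ω ∈ X
      · obtain ⟨h1, h2, h4⟩ := y.adm_in hF hc hrd hX hωX
        set A := X ∩ W with hA
        rw [h1, hcardA A h2.subZ] at ho
        have hAo : Odd A.card := by
          rw [Nat.odd_iff] at ho ⊢
          omega
        have h5 := hF.nj_par h2.sub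
        rw [hjA A h2.subZ, card_empty, add_zero] at h5
        have h6 := hK A h2 h4 hAo
        have h7 := hbdA A h2 h4
        rw [h1, hjm3 A h2.subZ]
        rw [Nat.odd_iff] at hAo
        omega
      · obtain ⟨h1, h2⟩ := y.adm_out hF hrd hX hωX
        have h4 := hh.inst.cc0 h2 ho
        rw [hjA X h1, card_empty, hbdX X h1] at h4
        exact h4
    · intro X hX _ he _ hjX
      have hωX : ω ∈ X := hjX (mem_insert_self _ _)
      have hxX : G.pi j ∈ X := hjX (mem_insert_of_mem (mem_singleton_self _))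
      obtain ⟨h1, h2, h4⟩ := y.adm_in hF hc hrd hX hωX
      set A := X ∩ W with hA
      have hxA : G.pi j ∈ A := mem_inter.2 ⟨hxX, hjW⟩
      rw [h1, hcardA A h2.subZ] at he
      have h5 := hF.nj_par h2.sub
      rw [hjA A h2.subZ, card_empty, add_zero] at h5
      have h7 := hbdA A h2 h4
      rw [if_pos hxA] at h7
      have h8 : 0 < G.nj F A :=
        card_pos.2 ⟨j, mem_filter.2 ⟨mem_bd.2 ⟨hjd, hxA, fun h5 => hjU (h2.subZ h5)⟩, hjF⟩⟩
      rw [h1]
      rw [Nat.even_iff] at he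
      omega
  have hfrc : (insert ω (insert s (fr ∩ W))).card = (fr ∩ W).card + 2 :=
    hcardA _ inter_subset_right
  obtain ⟨M', hM', hpos, hhit⟩ := hh.solve hraw (by
    rw [hfrc, hvsc]
    have k2 : (fr \ W).card + (fr ∩ W).card = fr.card := card_sdiff_add_card_inter fr W
    have k4 : (G.vs \ W).card + W.card = G.vs.card := card_sdiff_add_card_eq_card hW
    omega)
  have hdj : ∀ d ∈ F, d ∉ ({j} : Finset D) := fun d hd h3 => hjF ((mem_singleton.1 h3) ▸ hd)
  have hfu := y.side.up f (hF.Fsub hc.f1) hc.w1 (hdj f hc.f1)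
  have hgu := y.side.up g (hF.Fsub hc.f2) hc.w2 (hdj g hc.f2)
  have hone : ∀ d k, d ∈ M' → k ∈ M' → G3.pi d = G3.pi k → d = k := by
    intro d k hd hk hp
    obtain ⟨c, hc'⟩ := card_eq_one.1 (hM'.one _ (G3.pi_mem k (hM'.sub hk)))
    have k1 : d ∈ M'.filter fun d => G3.pi d = G3.pi k := mem_filter.2 ⟨hd, hp⟩
    have k2 : k ∈ M'.filter fun d => G3.pi d = G3.pi k := mem_filter.2 ⟨hk, rfl⟩
    rw [hc', mem_singleton] at k1 k2
    rw [k1, k2]
  have hsvs : s ∈ G3.vs := by rw [y.vs]; exact mem_insert_self _ _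
  have hqvs : q ∈ G3.vs := by rw [y.vs]; exact mem_insert_of_mem (mem_insert_self _ _)
  have hωvs : ω ∈ G3.vs := by rw [y.vs]; simp
  have hex : ∀ v ∈ G3.vs, ∃ d ∈ M', G3.pi d = v := by
    intro v hv
    obtain ⟨c, hc'⟩ := card_eq_one.1 (hM'.one v hv)
    have k1 : c ∈ M'.filter fun d => G3.pi d = v := by rw [hc']; exact mem_singleton_self c
    exact ⟨c, (mem_filter.1 k1).1, (mem_filter.1 k1).2⟩
  have hhM : h ∈ M' := by
    obtain ⟨d, h1, h2⟩ := hex q hqvs
    have h4 : d = h' := by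
      rcases y.out d (hM'.sub h1) (by rw [h2]; exact y.qW) with h5 | h5 | h5 | h5 | h5 | h5
      · rw [h5, y.pi_e] at h2; exact absurd h2 y.ωq
      · rw [h5, y.pi_e'] at h2; exact absurd h2 y.sq
      · rw [h5, y.pi_h] at h2; exact absurd h2 y.sq
      · exact h5
      · rw [h5, y.pi_f] at h2; exact absurd h2 y.ωq
      · rw [h5, y.pi_g] at h2; exact absurd h2 y.sq
    have h5 := hM'.closed d h1
    rwa [h4, y.al_h'] at h5
  have hhe : h ≠ e' := by
    intro h1
    have h2 := y.al_e'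
    have h4 := y.al_h
    rw [h1, h2] at h4
    have h5 := y.pi_e
    rw [h4, y.pi_h'] at h5
    exact y.ωq h5.symm
  have hgM : G.al g ∉ M' := by
    intro h1
    have h2 := hone _ _ h1 hhM (by rw [y.pi_g, y.pi_h])
    exact nG3 (h2 ▸ G.al_mem g (hF.Fsub hc.f2))
  have heM' : e' ∉ M' := by
    intro h1
    exact hhe (hone _ _ h1 hhM (by rw [y.pi_e', y.pi_h])).symm
  have heM : e ∉ M' := by
    intro h1
    have h2 := hM'.closed e h1
    rw [y.al_e] at h2
    exact heM' h2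
  have hfM : f ∈ M' := by
    obtain ⟨d, h1, h2⟩ := hex ω hωvs
    have h4 : d = G.al f := by
      rcases y.out d (hM'.sub h1) (by rw [h2]; exact y.ωW) with h5 | h5 | h5 | h5 | h5 | h5
      · exact absurd (h5 ▸ h1) heM
      · exact absurd (h5 ▸ h1) heM'
      · rw [h5, y.pi_h] at h2; exact absurd h2.symm y.ωs
      · rw [h5, y.pi_h'] at h2; exact absurd h2.symm y.ωq
      · exact h5
      · exact absurd (h5 ▸ h1) hgM
    have h5 := hM'.closed d h1
    rwa [h4, y.al_f] at h5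
  have hgM2 : g ∉ M' := by
    intro h1
    have h2 := hM'.closed g h1
    rw [hgu.2.2] at h2
    exact hgM h2
  refine ⟨M'.filter fun d => G3.pi d ∈ W, y.side.half hM', ?_, ?_, ?_, ?_⟩
  · intro d hd
    obtain ⟨k1, k2⟩ := mem_filter.1 hd
    have k3 := hpos d k1
    have k4 := (y.side.dn d (hM'.sub k1) k2).1
    unfold exZ at k3
    rw [if_neg, if_neg] at k3
    · exact k3
    · rintro (k5 | k5)
      · exact nG3 (k5 ▸ k4)
      · exact nG4 (k5 ▸ k4)
    · rintro (k5 | k5)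
      · exact nG1 (k5 ▸ k4)
      · exact nG2 (k5 ▸ k4)
  · intro d hd
    obtain ⟨k1, k2, k3⟩ := mem_bd.1 hd
    rw [mem_filter]
    constructor
    · rintro ⟨k4, k5⟩
      obtain ⟨-, -, k6⟩ := y.side.dn d (hM'.sub k4) k5
      by_cases k7 : d ∈ F
      · rcases hc.only d k7 k2 k3 with k8 | k8
        · exact k8
        · exact absurd (k8 ▸ k4) hgM2
      · have k8 : d ∈ rd G F W := mem_filter.2 ⟨hd, k7⟩
        rw [hrd] at k8
        exact absurd k8 k6
    · intro k4
      rw [k4]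
      exact ⟨hfM, by rw [hfu.2.1]; exact hc.w1⟩
  · intro X hX hXW _ hx ho
    obtain ⟨d, hd, hdM⟩ := hhit X (y.adm_up hF hc hrd hX hXW) (disjoint_empty_right _) (Or.inl ho)
    rw [y.side.bd hXW] at hd
    exact ⟨d, (mem_sdiff.1 hd).1, fun k1 => hdM (mem_filter.1 k1).1⟩
  · intro A hA hg hx _
    obtain ⟨d, hd, hdM⟩ := hhit _ (y.adm_ins hF hc hrd hA hg) (disjoint_empty_right _)
      (Or.inr ⟨⟨ω, mem_insert_self _ _⟩, by
        intro v hv
        rw [mem_insert, mem_singleton] at hv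
        rcases hv with k1 | k1
        · rw [k1]; exact mem_insert_self _ _
        · rw [k1]; exact mem_insert_of_mem (mem_insert_of_mem hx)⟩)
    rw [y.bd hF hc hrd hA hg] at hd
    rcases mem_insert.1 hd with k1 | k1
    · exact absurd (k1 ▸ hhM) hdM
    · obtain ⟨k2, k3⟩ := mem_erase.1 k1
      obtain ⟨k4, k5⟩ := mem_filter.1 k3
      exact ⟨d, k4, k5, k2, fun k6 => hdM (mem_filter.1 k6).1⟩

/-- the inner matching of a (t1) set for a used F-edge -/
theorem MCS.inT1_F [Infinite V] [Infinite D] (hh : G.MCS z t fr F jm sx ep 0)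
    (hc : G.FC F W g1 g2) (hWo : Odd W.card) (h3 : G.val z t W = 3)
    (hj : Disjoint jm W) (hrd : rd G F W = {j}) (hj1 : G.pi j ∈ fr)
    (hfb : f ∈ G.bd W) (hfF : f ∈ F)
    (hs : 3 ≤ (fr \ W).card ∨ (2 ≤ (fr \ W).card ∧ 4 ≤ (G.vs \ W).card))
    (hK : ∀ A, G.AdmZ fr F W A → G.pi g1 ∈ A → Odd A.card → G.nj F A ≠ 1) :
    InT1 G z fr F W g1 j f := by
  have hF := hh.inst.fresh
  obtain ⟨hfd, hfW, hfU⟩ := mem_bd.1 hfb
  rcases hc.only f hfF hfW hfU with h1 | h1
  · rw [h1]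
    exact hh.inT1_F' hc hWo h3 hj hrd hj1 hs hK
  · rw [h1]
    obtain ⟨M2, k1, k2, k3, k4, k5⟩ := hh.inT1_F' hc.swap hWo h3 hj hrd hj1 hs
      (fun A hA hg => hK A hA ((hc.both hF hA).2 hg))
    refine ⟨M2, k1, k2, k3, ?_, ?_⟩
    · intro X hX hXW _ hx ho
      exact k4 X hX hXW (fun k6 => hc.u2 (hXW (hX.clo g2 hc.f2 k6))) hx ho
    · intro A hA hg hx ho
      exact k5 A hA ((hc.both hF hA).1 hg) hx ho

end MG

end RH
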