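import Pool.Agent.Lib.RH.I4Def
import Pool.Agent.Lib.RH.SGlueT1F

/-! F-cut gluing for the class `Int4` (helper94; copy of helper42's files): the inner graph with one
crossing edge kept. -/

set_option autoImplicit false

namespace RH

open Finset Classical

namespace MG

variable {V D : Type*}

variable {G : MG V D} {z : D → ℝ} {t : V → ℝ} {fr : Finset V} {F : Finset D} {jm sx : Finset V}
variable {ep : V → ℕ} {m : ℕ} {W : Finset V} {f : D}

theorem exZ_nat {lam : ℝ} {e e' h h' d : D} (hl : ∃ n : ℕ, lam = n)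
    (hd : d ≠ e → d ≠ e' → d ≠ h → d ≠ h' → ∃ n : ℕ, z d = n) :
    ∃ n : ℕ, exZ z lam e e' h h' d = n := by
  unfold exZ
  by_cases h1 : d = e ∨ d = e'
  · rw [if_pos h1]
    exact ⟨1, by norm_num⟩
  · rw [if_neg h1]
    by_cases h2 : d = h ∨ d = h'
    · rw [if_pos h2]
      exact hl
    · rw [if_neg h2]
      rw [not_or] at h1 h2
      exact hd h1.1 h1.2 h2.1 h2.2

theorem MCI.solveE (h : G.MCI z t fr F jm sx ep m) (hW : W ⊆ G.vs) (hWo : Odd W.card)
    (h3 : G.val z t W = 3) (hf : f ∈ G.bd W) (hz : 0 < z f) (hU : 2 ≤ (G.vs \ W).card) :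
    ∃ M2, G.Half W M2 ∧ (∀ d ∈ M2, 0 < z d) ∧ (∀ d ∈ G.bd W, (d ∈ M2 ↔ d = f)) ∧
      ∀ X, G.Adm fr F X → X ⊆ W → Disjoint X ((G.bd W).image G.pi) → Disjoint X jm →
        Odd X.card → ∃ d ∈ G.bd X, d ∉ M2 := by
  have hF := h.inst.fresh
  have hw := h.inst.wt
  obtain ⟨hfd, hfW, hfU⟩ := mem_bd.1 hf
  have hafd := G.al_mem f hfd
  have haf := G.al_al f hfd
  set U := G.vs \ W with hUdef
  have hUU : G.vs \ U = W := Finset.sdiff_sdiff_eq_self hW
  have hω : G.pi (G.al f) ∈ U := mem_sdiff.2 ⟨G.pi_mem _ hafd, hfU⟩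
  have hUs : U ⊆ G.vs := sdiff_subset
  have hUi : ∀ v ∈ G.vs, (v ∈ U ↔ v ∉ W) := fun v hv => by
    rw [hUdef, mem_sdiff]
    exact ⟨fun h1 => h1.2, fun h1 => ⟨hv, h1⟩⟩
  set G0 := G.con U (G.pi (G.al f)) hω hUs with hG0
  have hw0 : G0.Wt z (G.tmir t U (G.pi (G.al f))) :=
    Wt.mir hω hUs hw (by rw [hUU]; exact hWo) (by rw [hUU]; exact h3)
  have hds0 : ∀ d, d ∈ G0.ds ↔ d ∈ G.ds ∧ ¬ (G.pi d ∈ U ∧ G.pi (G.al d) ∈ U) := fun d => by
    rw [hG0]
    exact mem_filter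
  have hpi0 : ∀ d, G0.pi d = if G.pi d ∈ U then G.pi (G.al f) else G.pi d := fun d => rfl
  have hal0 : ∀ d, G0.al d = G.al d := fun d => rfl
  set S := G0.ds.filter fun d => (G.pi d ∉ W ∨ G.pi (G.al d) ∉ W) ∧ d ≠ f ∧ d ≠ G.al f with hSdef
  have hS : ∀ d ∈ S, G0.al d ∈ S := by
    intro d hd
    obtain ⟨h1, h2, h4, h5⟩ := mem_filter.1 hd
    have h6 := ((hds0 d).1 h1).1
    have h7 := G.al_al d h6
    refine mem_filter.2 ⟨G0.al_mem d h1, ?_, fun h8 => h5 ?_, fun h8 => h4 ?_⟩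
    · rw [hal0, h7]
      exact h2.symm
    · rw [hal0] at h8
      rw [← h8, h7]
    · rw [hal0] at h8
      rw [← h7, h8, haf]
  have hSs : S ⊆ G0.ds := filter_subset _ _
  set G2 := G0.delG S hS with hG2
  have hw2 := hw0.del hSs hS
  have hds2 : ∀ d, d ∈ G2.ds ↔ d ∈ G.ds ∧ ((G.pi d ∈ W ∧ G.pi (G.al d) ∈ W) ∨ d = f ∨
      d = G.al f) := by
    intro d
    change d ∈ G0.ds \ S ↔ _
    rw [mem_sdiff, hSdef, mem_filter, hds0]
    constructor
    · rintro ⟨⟨h1, h2⟩, h4⟩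
      refine ⟨h1, ?_⟩
      by_contra h5
      rw [not_or, not_or, not_and_or] at h5
      exact h4 ⟨⟨h1, h2⟩, h5.1, h5.2.1, h5.2.2⟩
    · rintro ⟨h1, h2⟩
      refine ⟨⟨h1, fun h4 => ?_⟩, fun h4 => ?_⟩
      · rcases h2 with h5 | h5 | h5
        · exact ((hUi _ (G.pi_mem d h1)).1 h4.1) h5.1
        · rw [h5] at h4
          exact ((hUi _ (G.pi_mem f hfd)).1 h4.1) hfW
        · rw [h5, haf] at h4
          exact ((hUi _ (G.pi_mem f hfd)).1 h4.2) hfW
      · obtain ⟨-, h5, h6, h7⟩ := h4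
        rcases h2 with h8 | h8 | h8
        · rcases h5 with h9 | h9
          · exact h9 h8.1
          · exact h9 h8.2
        · exact h6 h8
        · exact h7 h8
  have hpi2 : ∀ d, G2.pi d = if G.pi d ∈ U then G.pi (G.al f) else G.pi d := fun d => rfl
  have hal2 : ∀ d, G2.al d = G.al d := fun d => rfl
  have hpiW : ∀ d, G.pi d ∈ W → G2.pi d = G.pi d := by
    intro d hd
    rw [hpi2, if_neg (fun h1 => ((hUi _ (hW hd)).1 h1) hd)]
  have hvs2 : G2.vs = W ∪ {G.pi (G.al f)} := by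
    change (G.vs \ U) ∪ {G.pi (G.al f)} = _
    rw [hUU]
  have s0 : Side G G0 W ∅ := by
    have := side_con (G := G) hω hUs
    rwa [hUU] at this
  have s2 : Side G G2 W (∅ ∪ S.filter fun d => G0.pi d ∈ W) := by
    refine s0.delG hS hSs ?_
    intro d hd hp
    obtain ⟨h1, h2, h4, h5⟩ := mem_filter.1 hd
    have h6 := ((hds0 d).1 h1).1
    have h7 : G.pi d ∈ W := by
      rw [hpi0] at hp
      by_cases h8 : G.pi d ∈ U
      · rw [if_pos h8] at hp
        exact absurd hp hfU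
      · rwa [if_neg h8] at hp
    have h8 : G.pi (G.al d) ∉ W := by
      rcases h2 with h9 | h9
      · exact absurd h7 h9
      · exact h9
    have h9 : G.pi (G.al d) ∈ U := (hUi _ (G.pi_mem _ (G.al_mem d h6))).2 h8
    rw [hal0, hpi0, if_pos h9]
    exact hfU
  set Del := ∅ ∪ S.filter fun d => G0.pi d ∈ W with hDel
  have hDelb : ∀ d ∈ Del, d ∈ G.bd W := fun d hd => by
    obtain ⟨h1, h2, h4⟩ := s2.del d hd
    exact mem_bd.2 ⟨h1, h2, h4⟩
  have hcard : (W ∪ {G.pi (G.al f)}).card = W.card + 1 := by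
    rw [card_union_of_disjoint (disjoint_singleton_right.2 hfU), card_singleton]
  have htau : ∑ v ∈ G2.vs, kt G0 z (G.tmir t U (G.pi (G.al f))) S v = 6 - 2 * z f := by
    rw [hw2.tau_eq, hvs2, hcard]
    have h5 : G2.ds = G.ed W W ∪ {f, G.al f} := by
      ext d
      rw [hds2, mem_union, mem_ed, mem_insert, mem_singleton]
      constructor
      · rintro ⟨h1, h2 | h2⟩
        · exact Or.inl ⟨h1, h2⟩
        · exact Or.inr h2
      · rintro (⟨h1, h2⟩ | h2 | h2)
        · exact ⟨h1, Or.inl h2⟩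
        · exact ⟨h2 ▸ hfd, Or.inr (Or.inl h2)⟩
        · exact ⟨h2 ▸ hafd, Or.inr (Or.inr h2)⟩
    have h6 : f ≠ G.al f := fun h7 => hfU (by rw [← h7]; exact hfW)
    have h7 : Disjoint (G.ed W W) {f, G.al f} := by
      rw [disjoint_left]
      intro d h8 h9
      obtain ⟨-, h10, h11⟩ := mem_ed.1 h8
      rw [mem_insert, mem_singleton] at h9
      rcases h9 with rfl | rfl
      · exact hfU h11
      · exact hfU h10
    have h8 := hw.val_eq hW
    rw [h3] at h8
    rw [h5, sum_union h7, sum_pair h6, hw.sym f hfd]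
    push_cast
    linarith
  set B := (G.bd W).image G.pi ∪ jm with hB
  set F2 := F.filter fun d => G.pi d ∈ W ∧ G.pi (G.al d) ∈ W with hF2
  have hfrB : G2.FrB z (fr ∩ W) F2 ∅ B := by
    refine s2.frB hF ?_ ?_ ?_ (empty_subset _) (fun v hv _ => (mem_inter.1 hv).1) ?_
      (fun _ _ _ _ => rfl) ?_ (fun v _ hv => absurd hv (notMem_empty v)) ?_ ?_ ?_ ?_ ?_
    · intro v hv
      rw [hvs2]
      exact mem_union_left _ (mem_inter.1 hv).2
    · intro d hd
      obtain ⟨h1, h2⟩ := mem_filter.1 hd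
      exact (hds2 d).2 ⟨hF.Fsub h1, Or.inl h2⟩
    · intro d hd
      obtain ⟨h1, h2, h4⟩ := mem_filter.1 hd
      rw [hal2]
      refine mem_filter.2 ⟨hF.Fal d h1, h4, ?_⟩
      rw [G.al_al d (hF.Fsub h1)]
      exact h2
    · intro d hd hp _ hnB
      rw [hF2, mem_filter]
      constructor
      · exact fun h1 => h1.1
      · intro h1
        refine ⟨h1, hp, ?_⟩
        by_contra h2
        exact hnB (mem_union_left _ (mem_image.2 ⟨d, mem_bd.2 ⟨hd, hp, h2⟩, rfl⟩))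
    · intro d hd _
      exact Or.inl (mem_union_left _ (mem_image.2 ⟨d, hDelb d hd, rfl⟩))
    · intro v _ _ hv
      exact Or.inr (mem_union_right _ hv)
    · intro v hv hn
      exact absurd (mem_inter.1 hv).2 hn
    · intro v hv hn
      exact absurd (mem_inter.1 hv).2 hn
    · intro v hv
      exact absurd hv (notMem_empty v)
    · intro d _ hp hn
      exact absurd (mem_inter.1 hp).2 hn
  have hA : ∀ X, G2.Adm (fr ∩ W) F2 X → Disjoint X B → G.Adm fr F X ∧ X ⊆ W := by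
    intro X hX hXB
    have hXW : X ⊆ W := fun v hv => (mem_inter.1 (hX.sub hv)).2
    refine ⟨⟨fun v hv => (mem_inter.1 (hX.sub hv)).1, fun d hd hp => ?_⟩, hXW⟩
    have h1 : G.pi (G.al d) ∈ W := by
      by_contra h2
      exact disjoint_left.1 hXB hp (mem_union_left _
        (mem_image.2 ⟨d, mem_bd.2 ⟨hF.Fsub hd, hXW hp, h2⟩, rfl⟩))
    have h2 := hX.clo d (mem_filter.2 ⟨hd, hXW hp, h1⟩) (by rw [hpiW d (hXW hp)]; exact hp)
    rwa [hal2, hpiW _ h1] at h2
  have hbd : ∀ X, X ⊆ W → Disjoint X ((G.bd W).image G.pi) → G2.bd X = G.bd X := by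
    intro X hXW hXB
    rw [s2.bd hXW]
    refine sdiff_eq_self_of_disjoint ?_
    rw [disjoint_left]
    intro d h1 h2
    exact disjoint_left.1 hXB (mem_bd.1 h1).2.1 (mem_image.2 ⟨d, hDelb d h2, rfl⟩)
  have hX0 : ∀ X, Disjoint X B → (X ∩ jm).card = 0 := by
    intro X hX
    rw [card_eq_zero, ← disjoint_iff_inter_eq_empty]
    exact disjoint_of_subset_right subset_union_right hX
  have hraw : G2.RawI z (kt G0 z (G.tmir t U (G.pi (G.al f))) S) (fr ∩ W) F2 ∅ B m := by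
    refine ⟨?_, hw2, ?_, hfrB, Or.inl rfl, ?_, ?_, ?_⟩
    · rw [hvs2, hcard]
      exact hWo.add_one
    · rw [htau]
      linarith
    · intro X hX hXB ho
      obtain ⟨h1, h2⟩ := hA X hX hXB
      have h4 := h.inst.cc0 h1 ho
      rw [hX0 X hXB] at h4
      rw [hbd X h2 (disjoint_of_subset_right subset_union_left hXB)]
      omega
    · intro X hX hXB ho hn
      obtain ⟨h1, h2⟩ := hA X hX hXB
      have h4 := h.inst.ev0 h1 ho hn
      rw [hX0 X hXB] at h4
      rw [hbd X h2 (disjoint_of_subset_right subset_union_left hXB)]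
      omega
    · intro X _ _ _ hn
      exact absurd hn not_nonempty_empty
  have hsz : (fr ∩ W).card < fr.card ∨ ((fr ∩ W).card = fr.card ∧ (G2.vs.card < G.vs.card ∨
      (G2.vs.card = G.vs.card ∧ G2.sup z < G.sup z))) := by
    have h1 : (fr ∩ W).card ≤ fr.card := card_le_card inter_subset_left
    have h2 : G2.vs.card < G.vs.card := by
      rw [hvs2, hcard]
      have h4 : U.card + W.card = G.vs.card := card_sdiff_add_card_eq_card hW
      omega
    omega
  obtain ⟨M', hM', hpos, hhit⟩ := h.solve hraw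
    (Int4.of_raw hraw fun d hd => h.i4.zi d ((hds2 d).1 hd).1) hsz
  have hfM : f ∈ M' := by
    have h1 : G.pi (G.al f) ∈ G2.vs := by
      rw [hvs2]
      exact mem_union_right _ (mem_singleton_self _)
    obtain ⟨d, hd⟩ := card_eq_one.1 (hM'.one _ h1)
    have h2 : d ∈ M'.filter fun d => G2.pi d = G.pi (G.al f) := by
      rw [hd]
      exact mem_singleton_self d
    obtain ⟨h4, h5⟩ := mem_filter.1 h2
    obtain ⟨h6, h7⟩ := (hds2 d).1 (hM'.sub h4)
    have h8 : d = G.al f := by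
      rcases h7 with h7 | h7 | h7
      · rw [hpiW d h7.1] at h5
        exact absurd (h5 ▸ h7.1) hfU
      · rw [h7, hpiW f hfW] at h5
        exact absurd (h5 ▸ hfW) hfU
      · exact h7
    have h9 := hM'.closed d h4
    rw [hal2, h8, haf] at h9
    exact h9
  refine ⟨M'.filter fun d => G2.pi d ∈ W, s2.half hM', fun d hd => hpos d (mem_filter.1 hd).1,
    ?_, ?_⟩
  · intro d hd
    obtain ⟨h1, h2, h4⟩ := mem_bd.1 hd
    rw [mem_filter]
    constructor
    · rintro ⟨h5, -⟩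
      rcases ((hds2 d).1 (hM'.sub h5)).2 with h7 | h7 | h7
      · exact absurd h7.2 h4
      · exact h7
      · rw [h7] at h2
        exact absurd h2 hfU
    · rintro rfl
      exact ⟨hfM, by rw [hpiW d hfW]; exact hfW⟩
  · intro X hX hXW hXb hXj ho
    have h1 : G2.Adm (fr ∩ W) F2 X := by
      refine ⟨fun v hv => mem_inter.2 ⟨hX.sub hv, hXW hv⟩, fun d hd hp => ?_⟩
      obtain ⟨h2, h4, h5⟩ := mem_filter.1 hd
      rw [hpiW d h4] at hp
      rw [hal2, hpiW _ h5]
      exact hX.clo d h2 hp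
    obtain ⟨d, hd, hdM⟩ := hhit X h1 (disjoint_union_right.2 ⟨hXb, hXj⟩) (Or.inl ho)
    rw [hbd X hXW hXb] at hd
    exact ⟨d, hd, fun h2 => hdM (mem_filter.1 h2).1⟩

end MG

end RH
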