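import Pool.Agent.Lib.RH.CE6Fin
import Pool.Agent.Lib.RH.I4GlueJ

/-! The frozen statement S11409 from the integral instances with at most four tokens (helper76):
in a root state with 6 tokens two of them are adjacent; one unit of each is moved to their edge,
which gets weight 2. -/

set_option autoImplicit false

namespace RH

open Finset Classical

namespace MG

variable {V D : Type*} {G : MG V D} {t : V → ℝ} {fr : Finset V} {F : Finset D} {M : Finset D}

/-- a state of the class without star is a root state -/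
theorem EK.st6c (h : G.EK 6 t fr F ∅) : G.St6c t fr F ∅ :=
  ⟨h.even, h.fresh, h.jm2, h.deg, h.t0, h.tau, h.odd, h.evn⟩

/-- weight 2 on the edge of `d`, weight 1 on the others -/
noncomputable def z2 (G : MG V D) (d e : D) : ℝ := if e = d ∨ e = G.al d then 2 else 1

/-- one token less at both ends of the edge of `d` -/
noncomputable def t2 (G : MG V D) (t : V → ℝ) (d : D) (v : V) : ℝ :=
  if v = G.pi d ∨ v = G.pi (G.al d) then t v - 1 else t v

theorem one1_le_z2 (G : MG V D) (d e : D) : one1 e ≤ G.z2 d e := by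
  unfold z2 one1
  split_ifs <;> norm_num

theorem sum_t2 (G : MG V D) (t : V → ℝ) {d : D} (hd : d ∈ G.ds) (X : Finset V) :
    ∑ v ∈ X, G.t2 t d v = ∑ v ∈ X, t v - ((if G.pi d ∈ X then 1 else 0) +
      if G.pi (G.al d) ∈ X then 1 else 0) := by
  have h1 : ∀ v ∈ X, G.t2 t d v = t v - ((if G.pi d = v then 1 else 0) +
      if G.pi (G.al d) = v then 1 else 0) := by
    intro v _
    unfold t2
    have hn := G.noloop d hd
    by_cases h2 : v = G.pi d
    · rw [if_pos (Or.inl h2), if_pos h2.symm, if_neg (by rw [h2]; exact hn)]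
      ring
    · by_cases h3 : v = G.pi (G.al d)
      · rw [if_pos (Or.inr h3), if_pos h3.symm, if_neg (fun h4 => h2 h4.symm)]
        ring
      · rw [if_neg (by tauto), if_neg (fun h4 => h2 h4.symm), if_neg (fun h4 => h3 h4.symm)]
        ring
  rw [sum_congr rfl h1, sum_sub_distrib, sum_add_distrib, sum_ite_eq, sum_ite_eq]

theorem sum_z2_st (G : MG V D) {d : D} (hd : d ∈ G.ds) (v : V) :
    ∑ e ∈ G.st v, G.z2 d e = (G.st v).card + ((if G.pi d = v then 1 else 0) +
      if G.pi (G.al d) = v then 1 else 0) := by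
  have hne : G.al d ≠ d := fun h => G.noloop d hd (by rw [h])
  have h1 : ∀ e ∈ G.st v, G.z2 d e = 1 + ((if d = e then 1 else 0) +
      if G.al d = e then 1 else 0) := by
    intro e _
    unfold z2
    by_cases h2 : e = d
    · rw [if_pos (Or.inl h2), if_pos h2.symm, if_neg (by rw [h2]; exact hne)]
      norm_num
    · by_cases h3 : e = G.al d
      · rw [if_pos (Or.inr h3), if_pos h3.symm, if_neg (fun h4 => h2 h4.symm)]
        norm_num
      · rw [if_neg (by tauto), if_neg (fun h4 => h2 h4.symm), if_neg (fun h4 => h3 h4.symm)]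
        norm_num
  rw [sum_congr rfl h1, sum_add_distrib, sum_add_distrib, sum_ite_eq, sum_ite_eq, sum_const,
    nsmul_eq_mul, mul_one]
  have h2 : (d ∈ G.st v) ↔ G.pi d = v := by rw [mem_st]; exact ⟨fun h => h.2, fun h => ⟨hd, h⟩⟩
  have h3 : (G.al d ∈ G.st v) ↔ G.pi (G.al d) = v := by
    rw [mem_st]; exact ⟨fun h => h.2, fun h => ⟨G.al_mem d hd, h⟩⟩
  simp only [h2, h3]

/-- the value of a set falls by at most 2, and does not fall if the set does not contain both ends -/
theorem val_z2 (G : MG V D) (t : V → ℝ) {d : D} (hd : d ∈ G.ds) (X : Finset V) :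
    G.val one1 t X - 2 ≤ G.val (G.z2 d) (G.t2 t d) X := by
  unfold val
  rw [sum_t2 G t hd X]
  have h1 : ∑ e ∈ G.bd X, one1 e ≤ ∑ e ∈ G.bd X, G.z2 d e :=
    sum_le_sum fun e _ => one1_le_z2 G d e
  have h2 : ((if G.pi d ∈ X then (1 : ℝ) else 0) + if G.pi (G.al d) ∈ X then 1 else 0) ≤ 2 := by
    split_ifs <;> norm_num
  linarith

/-- the weights of the instance with four tokens -/
theorem St6c.wt2 (h : G.St6c t fr F ∅) {d : D} (hd : d ∈ G.ds) (h1 : 1 ≤ t (G.pi d))
    (h2 : 1 ≤ t (G.pi (G.al d))) : G.Wt (G.z2 d) (G.t2 t d) where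
  z0 := fun e _ => by
    have := one1_le_z2 G d e
    unfold one1 at this
    linarith
  t0 := fun v hv => by
    unfold t2
    split_ifs with h3
    · rcases h3 with h3 | h3
      · rw [h3]; linarith
      · rw [h3]; linarith
    · exact h.t0 v hv
  sym := fun e he => by
    unfold z2
    have h3 : (G.al e = d ∨ G.al e = G.al d) ↔ (e = d ∨ e = G.al d) := by
      constructor
      · rintro (h4 | h4)
        · right; rw [← h4, G.al_al e he]
        · left; rw [← G.al_al e he, h4, G.al_al d hd]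
      · rintro (h4 | h4)
        · right; rw [h4]
        · left; rw [h4, G.al_al d hd]
    simp only [h3]
  deg := fun v hv => by
    have h3 := sum_t2 G t hd {v}
    rw [sum_singleton, sum_singleton] at h3
    simp only [mem_singleton] at h3
    rw [sum_z2_st G hd v, h3]
    have h4 := h.deg v hv
    linarith
  cut := fun X hX ho => by
    by_cases hc : X.card = 1
    · obtain ⟨v, rfl⟩ := card_eq_one.1 hc
      have hv : v ∈ G.vs := hX (mem_singleton_self v)
      have h3 := sum_t2 G t hd {v}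
      have h4 : G.bd {v} = G.st v := by
        ext e
        rw [mem_bd, mem_st, mem_singleton, mem_singleton]
        constructor
        · rintro ⟨k1, k2, -⟩
          exact ⟨k1, k2⟩
        · rintro ⟨k1, k2⟩
          exact ⟨k1, k2, by rw [← k2]; exact G.noloop e k1⟩
      unfold val
      rw [h3, h4, sum_z2_st G hd v, sum_singleton]
      simp only [mem_singleton]
      have h5 := h.deg v hv
      linarith
    · have h3 := h.odd X hX ho hc
      have h4 := val_z2 G t hd X
      linarith

/-- the instance with four tokens -/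
theorem St6c.inst2 (h : G.St6c t fr F ∅) {m : ℕ}
    (hm : ∀ X, G.Adm fr F X → Even X.card → X.Nonempty → m ≤ (G.bd X).card) {d : D}
    (hd : d ∈ G.ds) (h1 : 1 ≤ t (G.pi d)) (h2 : 1 ≤ t (G.pi (G.al d))) :
    G.InstS (G.z2 d) (G.t2 t d) fr F ∅ ∅ (fun _ => 0) m where
  even := h.even
  wt := h.wt2 hd h1 h2
  tau := by
    rw [sum_t2 G t hd, h.tau, if_pos (G.pi_mem d hd), if_pos (G.pi_mem _ (G.al_mem d hd))]
    norm_num
  fresh := { h.fresh with
    unit := fun e he hf => by
      unfold z2
      rw [if_neg]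
      rintro (h3 | h3)
      · rw [h3] at hf
        rw [h.nofr hf] at h1
        linarith
      · rw [h3] at hf
        rw [h.nofr hf] at h2
        linarith }
  cc := fun X hX ho => by
    have h3 : X.card ≠ 1 := by
      intro hc
      obtain ⟨v, rfl⟩ := card_eq_one.1 hc
      have hv : v ∈ fr := hX.sub (mem_singleton_self v)
      have h4 := h.fresh.two v hv
      have h5 : 0 < (F.filter fun d => G.pi d = v).card := by rw [h4]; norm_num
      obtain ⟨e, he⟩ := card_pos.1 h5
      obtain ⟨h6, h7⟩ := mem_filter.1 he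
      have h8 := hX.clo e h6 (by rw [h7]; exact mem_singleton_self v)
      exact G.noloop e (h.fresh.Fsub h6) ((mem_singleton.1 h8).trans h7.symm)
    have h4 := h.odd X (hX.sub.trans h.fresh.fsub) ho h3
    have h5 : ∑ v ∈ X, t v = 0 := sum_eq_zero fun v hv => h.nofr (hX.sub hv)
    unfold val at h4
    rw [h5] at h4
    have h6 : ∑ e ∈ G.bd X, one1 e = ((G.bd X).card : ℝ) := by
      unfold one1
      rw [sum_const, nsmul_eq_mul, mul_one]
    rw [h6] at h4
    have h7 : (5 : ℝ) ≤ ((G.bd X).card : ℝ) := by linarith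
    have h8 : 5 ≤ (G.bd X).card := by exact_mod_cast h7
    omega
  ev := fun X hX he hn => le_trans (hm X hX he hn) (Nat.le_add_right _ _)
  sxs := empty_subset _
  kind := Or.inl rfl
  jm2 := Or.inl rfl
  st2 := fun hn => absurd hn not_nonempty_empty
  b0 := fun _ _ _ hn => absurd hn not_nonempty_empty
  epj := fun _ _ => Nat.zero_le _

/-- it is integral -/
theorem St6c.int4 (h : G.St6c t fr F ∅) {d : D} (hd : d ∈ G.ds) (h1 : 1 ≤ t (G.pi d))
    (h2 : 1 ≤ t (G.pi (G.al d))) : Int4 G (G.z2 d) (G.t2 t d) where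
  zi := fun e _ => by
    unfold z2
    split_ifs
    · exact ⟨2, by norm_num⟩
    · exact ⟨1, by norm_num⟩
  ti := fun v hv => by
    have h3 := h.deg v hv
    have h4 := (h.wt2 hd h1 h2).t0 v hv
    have h5 := (h.wt2 hd h1 h2).deg v hv
    rw [sum_z2_st G hd v] at h5
    have h6 : (3 : ℝ) = ((G.st v).card : ℝ) + ((if G.pi d = v then 1 else 0) +
      if G.pi (G.al d) = v then 1 else 0) + G.t2 t d v := h5.symm
    obtain ⟨k, hk⟩ : ∃ k : ℕ, ((G.st v).card : ℝ) + ((if G.pi d = v then 1 else 0) +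
        if G.pi (G.al d) = v then 1 else 0) = k := by
      refine ⟨(G.st v).card + ((if G.pi d = v then 1 else 0) +
        if G.pi (G.al d) = v then 1 else 0), ?_⟩
      push_cast
      rfl
    rw [hk] at h6
    have h7 : (k : ℝ) ≤ 3 := by linarith
    have h8 : k ≤ 3 := by exact_mod_cast h7
    refine ⟨3 - k, ?_⟩
    rw [Nat.cast_sub h8]
    push_cast
    linarith
  tau := by
    rw [sum_t2 G t hd, h.tau, if_pos (G.pi_mem d hd), if_pos (G.pi_mem _ (G.al_mem d hd))]
    norm_num

/-- a good matching of the instance is good for the state -/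
theorem GoodS.of_z2 {z : D → ℝ} (h : G.GoodS z fr F ∅ M) : G.GoodS one1 fr F ∅ M :=
  ⟨h.pm, fun _ _ => zero_lt_one, h.hit⟩

/-- the integral instances with at most four tokens are solved -/
def I4Sol (V D : Type*) (m : ℕ) : Prop :=
  ∀ (G : MG V D) (z : D → ℝ) (t : V → ℝ) (fr : Finset V) (F : Finset D) (jm sx : Finset V)
    (ep : V → ℕ), Int4 G z t → G.InstS z t fr F jm sx ep m → ∃ M, G.GoodS z fr F sx M

/-- root states over infinite types -/
theorem I4Sol.root {m : ℕ} (hm : m ≤ 6) (h : I4Sol V D m) (hS : G.St6c t fr F ∅)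
    (hE : G.EV6 fr F ∅) (ha : ∃ d ∈ G.ds, 1 ≤ t (G.pi d) ∧ 1 ≤ t (G.pi (G.al d))) :
    ∃ M, G.GoodS one1 fr F ∅ M := by
  obtain ⟨d, hd, h1, h2⟩ := ha
  obtain ⟨M, hM⟩ := h G (G.z2 d) (G.t2 t d) fr F ∅ ∅ (fun _ => 0) (hS.int4 hd h1 h2)
    (hS.inst2 (fun X hX he hn => by
      have h3 := hE X hX he hn
      rw [inter_empty, card_empty, add_zero] at h3
      omega) hd h1 h2)
  exact ⟨M, hM.of_z2⟩

/-- root states over all types -/
theorem adjSol6_of_I4 {m : ℕ} (hm : m ≤ 6)
    (h : ∀ (V D : Type) [Infinite V] [Infinite D], I4Sol V D m) (V D : Type) : AdjSol6 V D := by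
  intro G t fr F hS hE ⟨d, hd, h1, h2⟩
  have hk := (hS.ek hE).emb
  have h0 : cp (∅ : Finset V) = ∅ := rfl
  rw [h0] at hk
  have h3 : ∃ M, G.emb.GoodS one1 (cp fr) (cp F) ∅ M := by
    refine (h (V ⊕ ℕ) (D ⊕ ℕ)).root hm hk.st6c ?_ ⟨Sum.inl d, inl_mem_cp.2 hd, ?_, ?_⟩
    · exact fun X hX he hn => hk.c6 X hX he hn
    · exact h1
    · exact h2
  have h4 : G.emb.Sol6 (etok t) (cp fr) (cp F) (cp ∅) := Or.inl h3
  rcases Sol6.of_emb h4 with h5 | ⟨p, hp⟩
  · exact h5
  · exfalso
    refine hp.no_adj hd (fun hF => ?_) (fun e => by rw [e] at h1; linarith)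
      (fun e => by rw [e] at h2; linarith)
    have h6 := hS.nofr (hS.fresh.Ffr d hF)
    rw [h6] at h1
    linarith

end MG

/-- **S11409 from the integral instances with at most four tokens** (even unions of fresh circuits
have at least `m` ports, `m ≤ 6`) -/
theorem final_of_I4 {m : ℕ} (hm : m ≤ 6)
    (h : ∀ (V D : Type) [Infinite V] [Infinite D], MG.I4Sol V D m) :
    ∀ (V : Type) [Fintype V] (G : SimpleGraph V),
      (∀ v : V, (G.neighborSet v).ncard = 3) →
      (∀ v w : V, G.Adj v w → (G.deleteEdges {s(v, w)}).Reachable v w) →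
      ∃ F₁ F₂ C : SimpleGraph V,
        F₁ ≤ G ∧ F₂ ≤ G ∧ C ≤ G ∧
        (∀ v : V, (F₁.neighborSet v).ncard = 2) ∧
        (∀ v : V, (F₂.neighborSet v).ncard = 2) ∧
        (∀ v : V, Even ((C.neighborSet v).ncard)) ∧
        F₁ ⊔ F₂ ⊔ C = G :=
  final_of_adj6 (MG.adjSol6_of_I4 hm h)

end RH
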