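import Pool.Agent.Lib.RH.I4Reach
import Pool.Agent.Lib.RH.I4Root

/-! The frozen statement S11409 if there is no minimal counterexample in the class `Int4`
(helper76). -/

set_option autoImplicit false

namespace RH

open Finset Classical

/-- **S11409 if the class `Int4` has no minimal counterexample** (over infinite types; even unions of
fresh circuits have at least `m` ports, any `m ≤ 6`) -/
theorem final_of_noMCI {m : ℕ} (hm : m ≤ 6)
    (h : ∀ (V D : Type) [Infinite V] [Infinite D] (G : MG V D) (z : D → ℝ) (t : V → ℝ)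
      (fr : Finset V) (F : Finset D) (jm sx : Finset V) (ep : V → ℕ),
      ¬ G.MCI z t fr F jm sx ep m) :
    ∀ (V : Type) [Fintype V] (G : SimpleGraph V),
      (∀ v : V, (G.neighborSet v).ncard = 3) →
      (∀ v w : V, G.Adj v w → (G.deleteEdges {s(v, w)}).Reachable v w) →
      ∃ F₁ F₂ C : SimpleGraph V,
        F₁ ≤ G ∧ F₂ ≤ G ∧ C ≤ G ∧
        (∀ v : V, (F₁.neighborSet v).ncard = 2) ∧
        (∀ v : V, (F₂.neighborSet v).ncard = 2) ∧
        (∀ v : V, Even ((C.neighborSet v).ncard)) ∧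
        F₁ ⊔ F₂ ⊔ C = G :=
  final_of_I4 hm fun V D _ _ => MG.exists_goodI (h V D)

/-- **S11409 from (INT)** for the class `Int4` -/
theorem final_of_REACHI {m : ℕ} (hm : m ≤ 6)
    (h : ∀ (V D : Type) [Infinite V] [Infinite D], MG.REACHI V D m) :
    ∀ (V : Type) [Fintype V] (G : SimpleGraph V),
      (∀ v : V, (G.neighborSet v).ncard = 3) →
      (∀ v w : V, G.Adj v w → (G.deleteEdges {s(v, w)}).Reachable v w) →
      ∃ F₁ F₂ C : SimpleGraph V,
        F₁ ≤ G ∧ F₂ ≤ G ∧ C ≤ G ∧
        (∀ v : V, (F₁.neighborSet v).ncard = 2) ∧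
        (∀ v : V, (F₂.neighborSet v).ncard = 2) ∧
        (∀ v : V, Even ((C.neighborSet v).ncard)) ∧
        F₁ ⊔ F₂ ⊔ C = G :=
  final_of_noMCI hm fun V D _ _ => (h V D).no_mci

end RH
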