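import Pool.Agent.Lib.RH.Glue2
import Pool.Agent.Lib.RH.I4Cls
import Pool.Agent.Lib.RH.I4Def

/-! Two-cuts inside the class `Int4` (helper87; copy of helper42's Glue2A and Glue2B): the inner
instance with two prescribed edges, the restriction without crossing edges, the outer instance. -/

set_option autoImplicit false

namespace RH

open Finset Classical

namespace MG

variable {V D : Type*}
variable {G G' : MG V D} {z z' : D → ℝ} {t : V → ℝ} {Z Y W X T P : Finset V} {Del : Finset D}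
variable {fr fr' : Finset V} {F F' : Finset D} {jm jm' sx B : Finset V} {ω : V} {e g : D}
variable {ep : V → ℕ} {m : ℕ} {M : Finset D}

/-! ### the inner instance with two prescribed edges -/

theorem MCI.in2 (h : G.MCI z t fr F jm sx ep 0) (c : G.C2 z t F Z e) (hg : g ∈ G.bd Z)
    (hge : g ≠ e) (hzg : 0 < z g) (hsy : 4 ≤ (G.vs \ Z).card ∨ (fr \ Z).Nonempty) :
    ∃ M2, G.Half Z M2 ∧ (∀ d ∈ M2, 0 < z d) ∧ e ∈ M2 ∧ g ∈ M2 ∧
      (∀ d ∈ M2, G.pi (G.al d) ∉ Z → d = e ∨ d = g) ∧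
      ∀ X, G.Adm fr F X → X ⊆ Z → Odd X.card → ∃ d ∈ G.bd X, d ∉ M2 := by
  have hF := h.inst.fresh
  have hw := h.inst.wt
  obtain ⟨g1, g2, g3⟩ := mem_bd.1 hg
  have hE := c.in2_aux hg
  obtain ⟨E, hEd⟩ : ∃ E, E = G.ds.filter (fun d => (G.pi d ∈ Z ∧ G.pi (G.al d) ∈ Z) ∨ d = e ∨
    d = G.al e ∨ d = g ∨ d = G.al g) := ⟨_, rfl⟩
  obtain ⟨U, hUd⟩ : ∃ U, U = insert (G.pi (G.al e)) (insert (G.pi (G.al g)) Z) := ⟨_, rfl⟩
  rw [← hEd, ← hUd] at hE
  have hmE : ∀ d, d ∈ E ↔ d ∈ G.ds ∧ ((G.pi d ∈ Z ∧ G.pi (G.al d) ∈ Z) ∨ d = e ∨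
    d = G.al e ∨ d = g ∨ d = G.al g) := by
    intro d
    rw [hEd, mem_filter]
  have hae := G.al_mem e c.ed
  have hag := G.al_mem g g1
  have hcne : G.pi (G.al e) ≠ G.pi (G.al g) := by
    intro h1
    have h2 := c.one_out hw hg h1.symm hge
    linarith
  have hUs : U ⊆ G.vs := by
    rw [hUd]
    intro v hv
    rw [mem_insert, mem_insert] at hv
    rcases hv with rfl | rfl | hv
    · exact G.pi_mem _ hae
    · exact G.pi_mem _ hag
    · exact c.hZ hv
  have hUc : U.card = Z.card + 2 := by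
    rw [hUd, card_insert_of_notMem, card_insert_of_notMem g3]
    rw [mem_insert, not_or]
    exact ⟨hcne, c.eY⟩
  have hZU : Z ⊆ U := by
    rw [hUd]
    exact (subset_insert _ _).trans (subset_insert _ _)
  -- no fresh inner ends except those of `e` and `g`
  have hfr : ∀ d ∈ G.bd Z, d ≠ e → d ≠ g → G.pi d ∉ fr := by
    intro d hd h1 h2 h3
    have h4 := c.rest_le hw hg hge hd h1 h2
    rw [hF.unit d (mem_bd.1 hd).1 h3] at h4
    linarith
  have hjZ : ∀ v ∈ Z, v ∉ jm := by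
    intro v hv hj
    have h1 := c.t_le hw hg hge
    have h2 := single_le_sum (f := t) (s := Z) (fun u hu => hw.t0 u (c.hZ hu)) hv
    rw [hF.t_jm hw hj] at h2
    linarith
  have s : Side G (G.subG U E hE) Z ((G.bd Z) \ {e, g}) := by
    refine ⟨c.hZ, hZU, fun d hd => mem_bd.1 (mem_sdiff.1 hd).1, ?_, ?_, ?_⟩
    · intro d hd hp hn
      refine ⟨(hmE d).2 ⟨hd, ?_⟩, rfl, rfl⟩
      by_cases h1 : G.pi (G.al d) ∈ Z
      · exact Or.inl ⟨hp, h1⟩
      · have h2 : d ∈ ({e, g} : Finset D) := by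
          by_contra h3
          exact hn (mem_sdiff.2 ⟨mem_bd.2 ⟨hd, hp, h1⟩, h3⟩)
        rw [mem_insert, mem_singleton] at h2
        rcases h2 with h2 | h2
        · exact Or.inr (Or.inl h2)
        · exact Or.inr (Or.inr (Or.inr (Or.inl h2)))
    · intro d hd hp
      obtain ⟨h1, h2⟩ := (hmE d).1 hd
      refine ⟨h1, rfl, fun h3 => ?_⟩
      obtain ⟨h4, h5⟩ := mem_sdiff.1 h3
      rw [mem_insert, mem_singleton, not_or] at h5
      have hp' : G.pi d ∈ Z := hp
      rcases h2 with h2 | h2 | h2 | h2 | h2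
      · exact (mem_bd.1 h4).2.2 h2.2
      · exact h5.1 h2
      · exact c.eY (by rw [← h2]; exact hp')
      · exact h5.2 h2
      · exact g3 (by rw [← h2]; exact hp')
    · intro d _ _ _ h1
      exact h1
  have hwt := hw.subG hUs hE
  have htau : ∑ v ∈ (G.subG U E hE).vs, G.tsub z E v < 6 := by
    rw [hwt.tau_eq]
    change 3 * (U.card : ℝ) - ∑ d ∈ E, z d < 6
    have h1 : E = G.ed Z Z ∪ ({e, G.al e} ∪ {g, G.al g}) := by
      ext d
      rw [hmE, mem_union, mem_ed, mem_union, mem_insert, mem_singleton, mem_insert, mem_singleton]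
      constructor
      · rintro ⟨a, b | b | b | b | b⟩
        · exact Or.inl ⟨a, b.1, b.2⟩
        · exact Or.inr (Or.inl (Or.inl b))
        · exact Or.inr (Or.inl (Or.inr b))
        · exact Or.inr (Or.inr (Or.inl b))
        · exact Or.inr (Or.inr (Or.inr b))
      · rintro (⟨a, b, b'⟩ | (rfl | rfl) | (rfl | rfl))
        · exact ⟨a, Or.inl ⟨b, b'⟩⟩
        · exact ⟨c.ed, Or.inr (Or.inl rfl)⟩
        · exact ⟨hae, Or.inr (Or.inr (Or.inl rfl))⟩
        · exact ⟨g1, Or.inr (Or.inr (Or.inr (Or.inl rfl)))⟩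
        · exact ⟨hag, Or.inr (Or.inr (Or.inr (Or.inr rfl)))⟩
    have n1 : e ≠ G.al e := fun h2 => c.eY (by rw [← h2]; exact c.eZ)
    have n2 : g ≠ G.al g := fun h2 => g3 (by rw [← h2]; exact g2)
    have n3 : e ≠ G.al g := fun h2 => g3 (by rw [← h2]; exact c.eZ)
    have n4 : g ≠ G.al e := fun h2 => c.eY (by rw [← h2]; exact g2)
    have n5 : G.al e ≠ G.al g := by
      intro h2
      apply hge
      rw [← G.al_al e c.ed, h2, G.al_al g g1]
    have hd1 : Disjoint ({e, G.al e} : Finset D) {g, G.al g} := by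
      rw [disjoint_left]
      intro d hd hd'
      rw [mem_insert, mem_singleton] at hd hd'
      rcases hd with rfl | rfl <;> rcases hd' with h2 | h2
      · exact hge h2.symm
      · exact n3 h2
      · exact n4 h2.symm
      · exact n5 h2
    have hd2 : Disjoint (G.ed Z Z) ({e, G.al e} ∪ {g, G.al g}) := by
      rw [disjoint_left]
      intro d hd hd'
      obtain ⟨h3, h4, h5⟩ := mem_ed.1 hd
      rw [mem_union, mem_insert, mem_singleton, mem_insert, mem_singleton] at hd'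
      rcases hd' with (rfl | rfl) | (rfl | rfl)
      · exact c.eY h5
      · exact c.eY h4
      · exact g3 h5
      · exact g3 h4
    have h2 : ∑ d ∈ E, z d = ∑ d ∈ G.ed Z Z, z d + (2 + 2 * z g) := by
      rw [h1, sum_union hd2, sum_union hd1, sum_pair n1, sum_pair n2, hw.sym e c.ed,
        hw.sym g g1, c.ze]
      ring
    have h3 := hw.val_eq c.hZ
    rw [c.hv] at h3
    rw [h2, hUc]
    push_cast
    linarith
  have hDX : ∀ X, X ⊆ fr → X ⊆ Z → G.bd X \ ((G.bd Z) \ {e, g}) = G.bd X := by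
    intro X hX hXZ
    rw [Finset.sdiff_eq_self_iff_disjoint, disjoint_left]
    intro d hd hd'
    obtain ⟨h3, h4⟩ := mem_sdiff.1 hd'
    rw [mem_insert, mem_singleton, not_or] at h4
    exact hfr d h3 h4.1 h4.2 (hX (mem_bd.1 hd).2.1)
  have hDF : ∀ d ∈ (G.bd Z) \ {e, g}, d ∉ F := fun d hd => c.outF (mem_sdiff.1 hd).1
  have hr : (G.subG U E hE).RawI z (G.tsub z E) (fr ∩ Z) (F.filter fun d => G.pi d ∈ Z) ∅ ∅ 0 := by
    refine ⟨?_, hwt, htau, ?_, Or.inl rfl, ?_, fun X _ _ _ _ => Nat.zero_le _, ?_⟩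
    · change Even U.card
      rw [hUc]
      exact c.he.add (by decide)
    · refine s.frB hF ?_ ?_ ?_ (empty_subset _) (fun v hv _ => (mem_inter.1 hv).1) ?_
        (fun d _ _ _ => rfl) ?_ ?_ ?_ ?_ ?_ ?_ ?_
      · exact fun v hv => hZU (mem_inter.1 hv).2
      · intro d hd
        obtain ⟨h1, h2⟩ := mem_filter.1 hd
        exact (hmE d).2 ⟨hF.Fsub h1, Or.inl ⟨h2, c.FZ d h1 h2⟩⟩
      · intro d hd
        obtain ⟨h1, h2⟩ := mem_filter.1 hd
        exact mem_filter.2 ⟨hF.Fal d h1, c.FZ d h1 h2⟩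
      · intro d _ hp _ _
        rw [mem_filter]
        exact ⟨fun h => h.1, fun h => ⟨h, hp⟩⟩
      · intro d hd hp
        obtain ⟨h3, h4⟩ := mem_sdiff.1 hd
        rw [mem_insert, mem_singleton, not_or] at h4
        exact absurd (mem_inter.1 hp).1 (hfr d h3 h4.1 h4.2)
      · exact fun v _ hv => absurd hv (notMem_empty v)
      · exact fun v hv _ hvj => absurd hvj (hjZ v hv)
      · exact fun v hv hn _ => absurd (mem_inter.1 hv).2 hn
      · exact fun v hv hn _ _ => absurd (mem_inter.1 hv).2 hn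
      · exact fun v hv => absurd hv (notMem_empty v)
      · exact fun d _ hp hn _ => absurd (mem_inter.1 hp).2 hn
    · intro X hX _ ho
      have hXZ : X ⊆ Z := fun v hv => (mem_inter.1 (hX.sub hv)).2
      have hX1 := adm_side s hF hDF hX
      rw [s.bd hXZ, hDX X hX1.sub hXZ]
      have h2 := h.inst.cc X hX1 ho
      have h3 := h.inst.ep_le hX1.sub
      have h4 : (X ∩ jm).card = 0 := by
        rw [card_eq_zero, ← disjoint_iff_inter_eq_empty, disjoint_left]
        exact fun v hv => hjZ v (hXZ hv)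
      omega
    · exact fun X _ _ _ hn _ => absurd hn not_nonempty_empty
  have hsz : (fr ∩ Z).card < fr.card ∨ ((fr ∩ Z).card = fr.card ∧
      ((G.subG U E hE).vs.card < G.vs.card ∨ ((G.subG U E hE).vs.card = G.vs.card ∧
        (G.subG U E hE).sup z < G.sup z))) := by
    have h1 := card_inter_add_card_sdiff fr Z
    rcases hsy with h2 | h2
    · have h3 := card_sdiff_add_card_eq_card c.hZ
      have h4 : (G.subG U E hE).vs.card < G.vs.card := by
        change U.card < _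
        omega
      rcases Nat.eq_zero_or_pos (fr \ Z).card with h5 | h5
      · exact Or.inr ⟨by omega, Or.inl h4⟩
      · exact Or.inl (by omega)
    · have h5 := card_pos.2 h2
      exact Or.inl (by omega)
  obtain ⟨M', hM', hpos, hhit⟩ := h.solve hr (Int4.of_raw hr fun d hd => h.i4.zi d (hE d hd).1) hsz
  have hsub : ∀ d ∈ M', d ∈ E := fun d hd => hM'.sub hd
  have heM : e ∈ M' := by
    have hc1 : G.pi (G.al e) ∈ U := by
      rw [hUd]
      exact mem_insert_self _ _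
    obtain ⟨d, hd⟩ := card_eq_one.1 (hM'.one _ hc1)
    have h1 : d ∈ M'.filter fun d => (G.subG U E hE).pi d = G.pi (G.al e) := by
      rw [hd]
      exact mem_singleton_self d
    obtain ⟨h2, h3⟩ := mem_filter.1 h1
    have h3' : G.pi d = G.pi (G.al e) := h3
    obtain ⟨h4, h5⟩ := (hmE d).1 (hsub d h2)
    have h6 : d = G.al e := by
      rcases h5 with h5 | h5 | h5 | h5 | h5
      · exact absurd h5.1 (by rw [h3']; exact c.eY)
      · exact absurd c.eZ (by rw [← h5, h3']; exact c.eY)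
      · exact h5
      · exact absurd g2 (by rw [← h5, h3']; exact c.eY)
      · exact absurd (h3'.symm.trans (by rw [h5])) hcne
    rw [h6] at h2
    have h7 := hM'.closed _ h2
    have h8 : (G.subG U E hE).al (G.al e) = e := G.al_al e c.ed
    rwa [h8] at h7
  have hgM : g ∈ M' := by
    have hc1 : G.pi (G.al g) ∈ U := by
      rw [hUd]
      exact mem_insert_of_mem (mem_insert_self _ _)
    obtain ⟨d, hd⟩ := card_eq_one.1 (hM'.one _ hc1)
    have h1 : d ∈ M'.filter fun d => (G.subG U E hE).pi d = G.pi (G.al g) := by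
      rw [hd]
      exact mem_singleton_self d
    obtain ⟨h2, h3⟩ := mem_filter.1 h1
    have h3' : G.pi d = G.pi (G.al g) := h3
    obtain ⟨h4, h5⟩ := (hmE d).1 (hsub d h2)
    have h6 : d = G.al g := by
      rcases h5 with h5 | h5 | h5 | h5 | h5
      · exact absurd h5.1 (by rw [h3']; exact g3)
      · exact absurd c.eZ (by rw [← h5, h3']; exact g3)
      · exact absurd ((by rw [h5] : G.pi (G.al e) = G.pi d).trans h3') hcne
      · exact absurd g2 (by rw [← h5, h3']; exact g3)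
      · exact h5
    rw [h6] at h2
    have h7 := hM'.closed _ h2
    have h8 : (G.subG U E hE).al (G.al g) = g := G.al_al g g1
    rwa [h8] at h7
  refine ⟨M'.filter fun d => (G.subG U E hE).pi d ∈ Z, s.half hM',
    fun d hd => hpos d (mem_filter.1 hd).1, mem_filter.2 ⟨heM, c.eZ⟩, mem_filter.2 ⟨hgM, g2⟩,
    ?_, ?_⟩
  · intro d hd hn
    obtain ⟨h1, h2⟩ := mem_filter.1 hd
    have h2' : G.pi d ∈ Z := h2
    obtain ⟨h4, h5⟩ := (hmE d).1 (hsub d h1)
    rcases h5 with h5 | h5 | h5 | h5 | h5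
    · exact absurd h5.2 hn
    · exact Or.inl h5
    · exact absurd h2' (by rw [h5]; exact c.eY)
    · exact Or.inr h5
    · exact absurd h2' (by rw [h5]; exact g3)
  · intro X hX hXZ ho
    obtain ⟨d, h1, h2⟩ := hhit X (side_adm s c.FZ hF hX hXZ) (disjoint_empty_right _) (Or.inl ho)
    rw [s.bd hXZ] at h1
    exact ⟨d, (mem_sdiff.1 h1).1, fun h3 => h2 (mem_filter.1 h3).1⟩

/-- the matching of the restriction -/
theorem MCI.in0 (h : G.MCI z t fr F jm sx ep 0) (hZ : Z ⊆ G.vs) (he : Even Z.card)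
    (hv : G.val z t Z < 6) (hFZ : ∀ d ∈ F, G.pi d ∈ Z → G.pi (G.al d) ∈ Z)
    (hlt : Z.card < G.vs.card)
    (hj' : jm' ⊆ fr ∩ Z) (hc : jm' = ∅ ∨ jm'.card = 2)
    (hDel : ∀ d ∈ G.bd Z, G.pi d ∈ fr → G.pi d ∈ B ∨ G.pi d ∈ jm')
    (hj1 : ∀ v ∈ jm', v ∈ jm ∨ ∃ d ∈ G.bd Z, G.pi d = v)
    (hj2 : ∀ v ∈ jm, v ∈ Z → v ∈ jm' ∨ v ∈ B)
    (hb0 : ∀ X, G.Adm fr F X → X ⊆ Z → Disjoint X B → Even X.card → jm'.Nonempty → jm' ⊆ X →
      2 ≤ ((G.res Z).bd X).card) :
    ∃ M2, G.Half Z M2 ∧ (∀ d ∈ M2, 0 < z d) ∧ (∀ d ∈ M2, G.pi (G.al d) ∈ Z) ∧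
      ∀ X, G.Adm fr F X → X ⊆ Z → Disjoint X B → (Odd X.card ∨ (jm'.Nonempty ∧ jm' ⊆ X)) →
        ∃ d ∈ G.bd X, G.pi (G.al d) ∈ Z ∧ d ∉ M2 := by
  have hr := h.inst.res_raw hZ he hv hFZ hj' hc hDel hj1 hj2 hb0
  have s := side_resZ (G := G) hZ
  have hvs : (G.res Z).vs = Z := inter_eq_right.2 hZ
  have hsz : (fr ∩ Z).card < fr.card ∨ ((fr ∩ Z).card = fr.card ∧
      ((G.res Z).vs.card < G.vs.card ∨ ((G.res Z).vs.card = G.vs.card ∧
        (G.res Z).sup z < G.sup z))) := by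
    rw [hvs]
    have h1 := card_le_card (inter_subset_left : fr ∩ Z ⊆ fr)
    rcases h1.lt_or_eq with h2 | h2
    · exact Or.inl h2
    · exact Or.inr ⟨h2, Or.inl hlt⟩
  obtain ⟨M', hM', hpos, hhit⟩ := h.solve hr (Int4.of_raw hr fun d hd => h.i4.zi d (mem_filter.1 hd).1) hsz
  have hmem : ∀ d ∈ M', G.pi d ∈ Z ∧ G.pi (G.al d) ∈ Z := fun d hd =>
    (mem_filter.1 (hM'.sub hd)).2
  refine ⟨M'.filter fun d => (G.res Z).pi d ∈ Z, s.half hM',
    fun d hd => hpos d (mem_filter.1 hd).1, fun d hd => (hmem d (mem_filter.1 hd).1).2, ?_⟩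
  intro X hX hXZ hXB ho
  obtain ⟨d, h1, h2⟩ := hhit X (side_adm s hFZ h.inst.fresh hX hXZ) hXB ho
  rw [s.bd hXZ] at h1
  obtain ⟨h3, h4⟩ := mem_sdiff.1 h1
  obtain ⟨h5, h6, h7⟩ := mem_bd.1 h3
  refine ⟨d, h3, ?_, fun h8 => h2 (mem_filter.1 h8).1⟩
  by_contra h8
  exact h4 (mem_bd.2 ⟨h5, hXZ h6, h8⟩)

/-- the outer matching -/
theorem MCI.out1 (h : G.MCI z t fr F jm sx ep 0) (c : G.C2 z t F Z e) (hjZ : ∀ v ∈ Z, v ∉ jm)
    (hsz : 4 ≤ Z.card ∨ (fr ∩ Z).Nonempty) :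
    ∃ M1, G.Half (G.vs \ Z) M1 ∧ (∀ d ∈ M1, 0 < z d) ∧
      ((∀ d ∈ M1, G.pi (G.al d) ∉ Z) ∨ (∃ g ∈ G.bd Z, g ≠ e ∧ 0 < z g ∧ G.al e ∈ M1 ∧
        G.al g ∈ M1 ∧ ∀ d ∈ M1, G.pi (G.al d) ∈ Z → d = G.al e ∨ d = G.al g)) ∧
      ∀ X, G.Adm fr F X → X ⊆ G.vs \ Z → (Odd X.card ∨ (jm.Nonempty ∧ jm ⊆ X)) →
        ∃ d ∈ G.bd X, d ∉ M1 := by
  have hF := h.inst.fresh
  have hw := h.inst.wt
  obtain ⟨-, k2, k3⟩ := c.one_in hw
  obtain ⟨W, hWd⟩ : ∃ W, W = Z.erase (G.pi e) := ⟨_, rfl⟩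
  have hWo : Odd W.card := by
    rw [hWd]
    exact erase_odd c.he c.eZ
  rw [← hWd] at k3
  have hWZ : W ⊆ Z := by
    rw [hWd]
    exact erase_subset _ _
  have hWs : W ⊆ G.vs := hWZ.trans c.hZ
  have hd1W : G.pi e ∉ W := by
    rw [hWd]
    exact notMem_erase _ _
  have hZW : ∀ v ∈ Z, v ∉ W → v = G.pi e := by
    intro v hv hn
    by_contra h1
    exact hn (by rw [hWd]; exact mem_erase.2 ⟨h1, hv⟩)
  obtain ⟨ω, hω⟩ : W.Nonempty := by
    rw [← card_pos]
    exact hWo.pos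
  have hYs : G.vs \ Z ⊆ G.vs \ W := sdiff_subset_sdiff (Finset.Subset.refl _) hWZ
  have s : Side G (G.con W ω hω hWs) (G.vs \ Z) ∅ := (side_con hω hWs).mono hYs
  have hFY : ∀ d ∈ F, G.pi d ∈ G.vs \ Z → G.pi (G.al d) ∈ G.vs \ Z := by
    intro d hd hp
    have hds := hF.Fsub hd
    refine mem_sdiff.2 ⟨G.pi_mem _ (G.al_mem _ hds), fun h1 => (mem_sdiff.1 hp).2 ?_⟩
    have h2 := c.FZ _ (hF.Fal d hd) h1
    rwa [G.al_al d hds] at h2
  have hjY : ∀ v ∈ jm, v ∈ G.vs \ Z := fun v hv => mem_sdiff.2 ⟨hF.fsub (hF.jms hv),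
    fun h1 => hjZ v h1 hv⟩
  have hDF : ∀ d ∈ (∅ : Finset D), d ∉ F := fun d hd => absurd hd (notMem_empty d)
  have hbd : ∀ X, X ⊆ G.vs \ Z → (G.con W ω hω hWs).bd X = G.bd X := by
    intro X hX
    rw [s.bd hX, sdiff_empty]
  have hr : (G.con W ω hω hWs).RawI z (tcon t W ω) (fr ∩ (G.vs \ Z))
      (F.filter fun d => G.pi d ∈ G.vs \ Z) jm ∅ 0 := by
    refine ⟨con_even hω hWs h.inst.even hWo, hw.con hω hWs hWo k3, ?_, ?_, h.inst.jm2, ?_,
      fun X _ _ _ _ => Nat.zero_le _, ?_⟩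
    · rw [con_tau hω hWs]
      exact h.inst.tau
    · refine s.frB hF ?_ ?_ ?_ ?_ (fun v hv _ => (mem_inter.1 hv).1) ?_
        (fun d _ _ _ => rfl) ?_ ?_ ?_ ?_ ?_ ?_ ?_
      · exact fun v hv => s.Zs (mem_inter.1 hv).2
      · intro d hd
        obtain ⟨h1, h2⟩ := mem_filter.1 hd
        exact mem_filter.2 ⟨hF.Fsub h1, fun h3 => (mem_sdiff.1 h2).2 (hWZ h3.1)⟩
      · intro d hd
        obtain ⟨h1, h2⟩ := mem_filter.1 hd
        exact mem_filter.2 ⟨hF.Fal d h1, hFY d h1 h2⟩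
      · exact fun v hv => mem_inter.2 ⟨hF.jms hv, hjY v hv⟩
      · intro d _ hp _ _
        rw [mem_filter]
        exact ⟨fun h => h.1, fun h => ⟨h, hp⟩⟩
      · exact fun d hd => absurd hd (notMem_empty d)
      · exact fun v _ hv => Or.inl hv
      · exact fun v _ _ hv => Or.inl hv
      · exact fun v hv hn _ => absurd (mem_inter.1 hv).2 hn
      · exact fun v hv hn _ _ => absurd (mem_inter.1 hv).2 hn
      · exact fun v hv hn _ => absurd (hjY v hv) hn
      · exact fun d _ hp hn _ => absurd (mem_inter.1 hp).2 hn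
    · intro X hX _ ho
      have hXY : X ⊆ G.vs \ Z := fun v hv => (mem_inter.1 (hX.sub hv)).2
      have hX1 := adm_side s hF hDF hX
      rw [hbd X hXY]
      have h2 := h.inst.cc X hX1 ho
      have h3 := h.inst.ep_le hX1.sub
      omega
    · intro X hX _ he' hn hjX
      have hXY : X ⊆ G.vs \ Z := fun v hv => (mem_inter.1 (hX.sub hv)).2
      have hX1 := adm_side s hF hDF hX
      rw [hbd X hXY]
      have h1 := h.inst.sx_eq
      exact h.inst.b0 X hX1 he' (by rw [h1]; exact hn) (by rw [h1]; exact hjX)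
  have hszz : (fr ∩ (G.vs \ Z)).card < fr.card ∨ ((fr ∩ (G.vs \ Z)).card = fr.card ∧
      ((G.con W ω hω hWs).vs.card < G.vs.card ∨ ((G.con W ω hω hWs).vs.card = G.vs.card ∧
        (G.con W ω hω hWs).sup z < G.sup z))) := by
    have h1 := card_le_card (inter_subset_left : fr ∩ (G.vs \ Z) ⊆ fr)
    rcases hsz with h2 | ⟨v, hv⟩
    · have h3 : (G.con W ω hω hWs).vs.card < G.vs.card := by
        have h4 : (G.con W ω hω hWs).vs = (G.vs \ W) ∪ {ω} := rfl
        have h5 : (G.con W ω hω hWs).vs.card ≤ (G.vs \ W).card + 1 := by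
          rw [h4]
          exact (card_union_le _ _).trans (by rw [card_singleton])
        have h6 := card_sdiff_add_card_eq_card hWs
        have h7 : W.card + 1 = Z.card := by
          rw [hWd]
          exact card_erase_add_one c.eZ
        omega
      rcases h1.lt_or_eq with h4 | h4
      · exact Or.inl h4
      · exact Or.inr ⟨h4, Or.inl h3⟩
    · left
      refine card_lt_card (Finset.ssubset_iff_subset_ne.2 ⟨inter_subset_left, fun h2 => ?_⟩)
      obtain ⟨h3, h4⟩ := mem_inter.1 hv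
      rw [← h2] at h3
      exact (mem_sdiff.1 (mem_inter.1 h3).2).2 h4
  obtain ⟨M', hM', hpos, hhit⟩ := h.solve hr (Int4.of_raw hr fun d hd => h.i4.zi d (mem_filter.1 hd).1) hszz
  obtain ⟨f, hfM, hfW, hfU, huniq⟩ := con_one hω hWs hM'
  have hMds : ∀ d ∈ M', d ∈ G.ds := fun d hd => (mem_filter.1 (hM'.sub hd)).1
  have hcl : ∀ d ∈ M', G.al d ∈ M' := fun d hd => hM'.closed d hd
  have hpi : ∀ d, G.pi d ∉ W → (G.con W ω hω hWs).pi d = G.pi d := by
    intro d hd
    simp [con, hd]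
  have hd1v : G.pi e ∈ (G.con W ω hω hWs).vs := mem_union_left _ (mem_sdiff.2
    ⟨G.pi_mem e c.ed, hd1W⟩)
  obtain ⟨q, hq⟩ := card_eq_one.1 (hM'.one _ hd1v)
  have hq1 : q ∈ M'.filter fun d => (G.con W ω hω hWs).pi d = G.pi e := by
    rw [hq]
    exact mem_singleton_self q
  have hone : ∀ d ∈ M', G.pi d = G.pi e → d = q := by
    intro d hd hp
    have h1 : d ∈ M'.filter fun d => (G.con W ω hω hWs).pi d = G.pi e := by
      refine mem_filter.2 ⟨hd, ?_⟩
      rw [hpi d (by rw [hp]; exact hd1W)]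
      exact hp
    rwa [hq, mem_singleton] at h1
  obtain ⟨hqM, hqp⟩ := mem_filter.1 hq1
  have hqe : G.pi q = G.pi e := by
    by_cases h1 : G.pi q ∈ W
    · have h2 : (G.con W ω hω hWs).pi q = ω := by simp [con, h1]
      rw [h2] at hqp
      rw [← hqp] at hd1W
      exact absurd hω hd1W
    · rwa [hpi q h1] at hqp
  have hM1 := s.half hM'
  have hmem : ∀ d ∈ M', G.pi d ∈ G.vs \ Z → d ∈ M'.filter fun d =>
      (G.con W ω hω hWs).pi d ∈ G.vs \ Z := by
    intro d hd hp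
    refine mem_filter.2 ⟨hd, ?_⟩
    rw [hpi d fun h1 => (mem_sdiff.1 hp).2 (hWZ h1)]
    exact hp
  refine ⟨M'.filter fun d => (G.con W ω hω hWs).pi d ∈ G.vs \ Z, hM1,
    fun d hd => hpos d (mem_filter.1 hd).1, ?_, ?_⟩
  · by_cases hfZ : G.pi (G.al f) ∈ Z
    · left
      intro d hd hdZ
      obtain ⟨hd1, -⟩ := mem_filter.1 hd
      have hdY := (hM1.sub d hd).2
      have haa := G.al_al d (hMds d hd1)
      have h1 := hcl d hd1
      by_cases h2 : G.pi (G.al d) ∈ W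
      · have h3 := huniq _ h1 h2
        rw [← h3, haa] at hfZ
        exact (mem_sdiff.1 hdY).2 hfZ
      · have h3 := hone _ h1 (hZW _ hdZ h2)
        have h4 := hone _ (hcl f hfM) (hZW _ hfZ hfU)
        have h5 : d = f := by rw [← haa, h3, ← h4, G.al_al f (hMds f hfM)]
        rw [h5] at hdY
        exact (mem_sdiff.1 hdY).2 (hWZ hfW)
    · right
      have hfds := hMds f hfM
      have hfb : f ∈ G.bd Z := mem_bd.2 ⟨hfds, hWZ hfW, hfZ⟩
      have hfe : f ≠ e := fun h1 => hd1W (by rw [← h1]; exact hfW)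
      have hqds := hMds q hqM
      have h1 : G.pi (G.al q) ∉ Z := by
        intro h2
        by_cases h3 : G.pi (G.al q) ∈ W
        · have h4 := huniq _ (hcl q hqM) h3
          apply hfZ
          rw [← h4, G.al_al q hqds, hqe]
          exact c.eZ
        · exact G.noloop q hqds ((hZW _ h2 h3).trans hqe.symm)
      have hqe' : q = e := by
        by_contra h2
        have h3 := k2 q (mem_bd.2 ⟨hqds, by rw [hqe]; exact c.eZ, h1⟩) hqe h2
        have h4 := hpos q hqM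
        rw [h3] at h4
        exact lt_irrefl _ h4
      have heM : e ∈ M' := by
        rw [← hqe']
        exact hqM
      have hout : ∀ d ∈ G.ds, G.pi d ∉ Z → G.pi d ∈ G.vs \ Z := fun d hd h2 =>
        mem_sdiff.2 ⟨G.pi_mem d hd, h2⟩
      refine ⟨f, hfb, hfe, hpos f hfM, hmem _ (hcl e heM) (hout _ (G.al_mem e c.ed) c.eY),
        hmem _ (hcl f hfM) (hout _ (G.al_mem f hfds) hfZ), ?_⟩
      intro d hd hdZ
      obtain ⟨hd1, -⟩ := mem_filter.1 hd
      have haa := G.al_al d (hMds d hd1)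
      have h2 := hcl d hd1
      by_cases h3 : G.pi (G.al d) ∈ W
      · right
        rw [← huniq _ h2 h3, haa]
      · left
        rw [← hqe', ← hone _ h2 (hZW _ hdZ h3), haa]
  · intro X hX hXY ho
    obtain ⟨d, h1, h2⟩ := hhit X (side_adm s hFY hF hX hXY) (disjoint_empty_right _) ho
    rw [hbd X hXY] at h1
    exact ⟨d, h1, fun h3 => h2 (mem_filter.1 h3).1⟩


end MG

end RH
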