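import Pool.Agent.Lib.RH.MC

/-! Glue above 6 (helper63): the gluing of a J-bounded tight set for weights with arbitrary total
`tau`, when the outer instance has another weight with total less than 6. `InstT` is `InstS` without
the field `tau`. -/

set_option autoImplicit false

namespace RH

open Finset Classical

namespace MG

variable {V D : Type*}

/-- `InstS` without the condition on the number of tokens -/
structure InstT (G : MG V D) (z : D → ℝ) (t : V → ℝ) (fr : Finset V) (F : Finset D)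
    (jm sx : Finset V) (ep : V → ℕ) (m : ℕ) : Prop where
  even : Even G.vs.card
  wt : G.Wt z t
  fresh : G.FrS z fr F jm
  cc : ∀ X, G.Adm fr F X → Odd X.card → 5 ≤ (G.bd X).card + ∑ v ∈ X, ep v
  ev : ∀ X, G.Adm fr F X → Even X.card → X.Nonempty → m ≤ (G.bd X).card + ∑ v ∈ X, ep v
  sxs : sx ⊆ fr
  kind : jm = sx ∨ (jm = ∅ ∧ ∀ X, G.Adm fr F X → ∀ v ∈ sx, v ∈ X → sx ⊆ X)
  jm2 : jm = ∅ ∨ jm.card = 2
  st2 : sx.Nonempty → 2 ≤ ∑ v ∈ sx, t v
  b0 : ∀ X, G.Adm fr F X → Even X.card → sx.Nonempty → sx ⊆ X → 2 ≤ (G.bd X).card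
  epj : ∀ v ∈ fr, ep v ≤ if v ∈ jm then 1 else 0

variable {G : MG V D} {z z1 : D → ℝ} {t t1 : V → ℝ} {fr : Finset V} {F : Finset D}
variable {jm sx : Finset V} {ep : V → ℕ} {m : ℕ} {W : Finset V} {f : D}

theorem InstS.toT (h : G.InstS z t fr F jm sx ep m) : G.InstT z t fr F jm sx ep m :=
  ⟨h.even, h.wt, h.fresh, h.cc, h.ev, h.sxs, h.kind, h.jm2, h.st2, h.b0, h.epj⟩

theorem InstT.toS (h : G.InstT z t fr F jm sx ep m) (ht : ∑ v ∈ G.vs, t v < 6) :
    G.InstS z t fr F jm sx ep m :=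
  ⟨h.even, h.wt, ht, h.fresh, h.cc, h.ev, h.sxs, h.kind, h.jm2, h.st2, h.b0, h.epj⟩

theorem InstT.sx_eq (h : G.InstT z t fr F jm sx ep m) : sx = jm := by
  rcases h.kind with h1 | ⟨h1, -⟩
  · exact h1.symm
  · by_contra hne
    have h2 : sx.Nonempty := by
      rw [nonempty_iff_ne_empty]
      intro h3
      exact hne (h3.trans h1.symm)
    have h3 := h.st2 h2
    have h4 : ∑ v ∈ sx, t v = 0 := sum_eq_zero fun v hv =>
      h.fresh.t_not_jm h.wt (h.sxs hv) (by rw [h1]; exact notMem_empty v)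
    rw [h4] at h3
    norm_num at h3

theorem InstT.jm_sub (h : G.InstT z t fr F jm sx ep m) : jm ⊆ sx := by
  rw [h.sx_eq]

/-- a closed admissible set which meets the star contains it -/
theorem InstT.star_sub (h : G.InstT z t fr F jm sx ep m) {M : Finset D} (hM : G.IsPM M)
    {X : Finset V} (hX : G.Adm fr F X) (hc : ∀ d ∈ G.bd X, d ∈ M) {v : V} (hv : v ∈ sx)
    (hvX : v ∈ X) : sx ⊆ X := by
  rcases h.kind with h1 | ⟨-, h2⟩
  · have h3 := h.fresh.closed_jm hM hX hc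
    rcases h.jm2 with h4 | h4
    · rw [← h1, h4] at hv
      exact absurd hv (notMem_empty _)
    · have h5 : v ∈ X ∩ jm := mem_inter.2 ⟨hvX, h1 ▸ hv⟩
      have h6 : 0 < (X ∩ jm).card := card_pos.2 ⟨v, h5⟩
      have h7 : (X ∩ jm).card ≤ jm.card := card_le_card inter_subset_right
      have h8 : X ∩ jm = jm := by
        refine eq_of_subset_of_card_le inter_subset_right ?_
        obtain ⟨k, hk⟩ := h3
        omega
      rw [← h1, ← h8]
      exact inter_subset_left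
  · exact h2 X hX v hv hvX

/-! ### the outer instance -/

section outer

variable {ω : V} (hω : ω ∈ W) (hW : W ⊆ G.vs)

/-- the outer instance with another weight -/
theorem con_instT (h : G.InstT z t fr F jm sx ep m) (ho : Odd W.card)
    (hw1 : (G.con W ω hω hW).Wt z1 t1) (ht1 : ∑ v ∈ (G.con W ω hω hW).vs, t1 v < 6)
    (hu1 : ∀ d ∈ G.ds, G.pi d ∈ fr → G.pi d ∉ W → z1 d = 1)
    {fr1 B jm1 sx1 : Finset V} (hs : fr1 ⊆ fr)
    (hcl : ∀ d ∈ F, G.pi d ∈ fr1 → G.pi (G.al d) ∈ fr1) (hdB : Disjoint fr1 B) (hWB : W ⊆ B)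
    (hadm : ∀ X, G.Adm fr1 (F.filter fun d => G.pi d ∈ fr1) X ↔ G.Adm fr F X ∧ Disjoint X B)
    (hk : (sx ⊆ fr1 ∧ jm ⊆ fr1 ∧ sx1 = sx ∧ jm1 = jm) ∨
      (Disjoint jm fr1 ∧ sx1 = ∅ ∧ jm1 = ∅)) :
    (G.con W ω hω hW).InstS z1 t1 fr1 (F.filter fun d => G.pi d ∈ fr1) jm1 sx1 ep m := by
  have hF := h.fresh
  have hdW : Disjoint fr1 W := disjoint_of_subset_right hWB hdB
  have hnW : ∀ v ∈ fr1, v ∉ W := fun v hv hv' => disjoint_left.1 hdW hv hv'
  have hne : ∀ v ∈ fr1, v ≠ ω := fun v hv e => hnW v hv (e ▸ hω)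
  have hst : ∀ v ∈ fr1, (G.con W ω hω hW).st v = G.st v := fun v hv =>
    con_st hω hW (hne v hv) (hnW v hv)
  have hfv : fr1 ⊆ G.vs := hs.trans hF.fsub
  have hA : ∀ X, (G.con W ω hω hW).Adm fr1 (F.filter fun d => G.pi d ∈ fr1) X →
      G.Adm fr F X ∧ X ⊆ fr1 := by
    intro X hX
    have h1 := (con_adm hω hW hdW hcl).1 hX
    exact ⟨((hadm X).1 h1).1, h1.sub⟩
  have hbd : ∀ X, X ⊆ fr1 → (G.con W ω hω hW).bd X = G.bd X := fun X hX =>
    con_bd_out hω hW (hX.trans hfv) (disjoint_of_subset_left hX hdW)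
  have hjm1 : ∀ v ∈ fr1, (v ∈ jm1 ↔ v ∈ jm) := by
    intro v hv
    rcases hk with ⟨-, -, -, rfl⟩ | ⟨h1, -, rfl⟩
    · rfl
    · exact ⟨fun h2 => absurd h2 (notMem_empty _), fun h2 => absurd hv (disjoint_left.1 h1 h2)⟩
  have hjs : jm1 ⊆ fr1 := by
    rcases hk with ⟨-, h1, -, rfl⟩ | ⟨h1, -, rfl⟩
    · exact h1
    · exact empty_subset _
  have hfrS : (G.con W ω hω hW).FrS z1 fr1 (F.filter fun d => G.pi d ∈ fr1) jm1 := by
    refine ⟨?_, ?_, ?_, ?_, ?_, hjs, ?_, ?_, ?_⟩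
    · intro v hv
      exact mem_union_left _ (mem_sdiff.2 ⟨hfv hv, hnW v hv⟩)
    · intro d hd
      obtain ⟨h1, h2⟩ := mem_filter.1 hd
      exact mem_filter.2 ⟨hF.Fsub h1, fun h4 => hnW _ h2 h4.1⟩
    · intro d hd
      obtain ⟨h1, h2⟩ := mem_filter.1 hd
      exact mem_filter.2 ⟨hF.Fal d h1, hcl d h1 h2⟩
    · intro d hd
      obtain ⟨h1, h2⟩ := mem_filter.1 hd
      rw [con_pi_not hω hW (hnW _ h2)]
      exact h2
    · intro v hv
      rw [← hF.two v (hs hv)]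
      congr 1
      ext d
      rw [mem_filter, mem_filter, mem_filter]
      constructor
      · rintro ⟨⟨h1, h2⟩, h4⟩
        rw [con_pi_not hω hW (hnW _ h2)] at h4
        exact ⟨h1, h4⟩
      · rintro ⟨h1, rfl⟩
        exact ⟨⟨h1, hv⟩, con_pi_not hω hW (hnW _ hv)⟩
    · intro v hv hj
      rw [hst v hv, ← hF.jd v (hs hv) (fun h1 => hj ((hjm1 v hv).2 h1))]
      congr 1
      apply filter_congr
      intro d hd
      have hp : G.pi d = v := (mem_st.1 hd).2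
      rw [mem_filter, hp]
      constructor
      · intro h1 h2
        exact h1 ⟨h2, hv⟩
      · intro h1 h2
        exact h1 h2.1
    · intro v hv d hd
      have hvf := hjs hv
      rw [hst v hvf] at hd
      refine mem_filter.2 ⟨hF.j0 v ((hjm1 v hvf).1 hv) d hd, ?_⟩
      rw [(mem_st.1 hd).2]
      exact hvf
    · intro d hd hp
      obtain ⟨h1, h2⟩ := mem_filter.1 hd
      by_cases h4 : G.pi d ∈ W
      · have h5 : (G.con W ω hω hW).pi d = ω := by simp [con, h4]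
        rw [h5] at hp
        exact absurd hω (hnW _ hp)
      · rw [con_pi_not hω hW h4] at hp
        exact hu1 d h1 (hs hp) h4
  refine ⟨con_even hω hW h.even ho, hw1, ht1, hfrS, ?_, ?_, ?_, ?_, ?_, ?_, ?_, ?_⟩
  · intro X hX hoX
    obtain ⟨h1, h2⟩ := hA X hX
    rw [hbd X h2]
    exact h.cc X h1 hoX
  · intro X hX heX hneX
    obtain ⟨h1, h2⟩ := hA X hX
    rw [hbd X h2]
    exact h.ev X h1 heX hneX
  · rcases hk with ⟨h1, -, rfl, -⟩ | ⟨-, rfl, -⟩
    · exact h1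
    · exact empty_subset _
  · rcases hk with ⟨-, -, rfl, rfl⟩ | ⟨-, rfl, rfl⟩
    · rcases h.kind with h1 | ⟨h1, h2⟩
      · exact Or.inl h1
      · exact Or.inr ⟨h1, fun X hX => h2 X (hA X hX).1⟩
    · exact Or.inl rfl
  · rcases hk with ⟨-, -, -, rfl⟩ | ⟨-, -, rfl⟩
    · exact h.jm2
    · exact Or.inl rfl
  · intro hne1
    rcases hk with ⟨h1, -, e1, e2⟩ | ⟨-, e1, -⟩
    · have h5 : sx1 = jm1 := by rw [e1, e2, h.sx_eq]
      have h6 : jm1.card = 2 := by
        rcases h.jm2 with h7 | h7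
        · rw [h5, e2, h7] at hne1
          exact absurd hne1 not_nonempty_empty
        · rw [e2]
          exact h7
      have h4 : ∑ v ∈ sx1, t1 v = 2 := by
        rw [h5]
        have h7 : ∑ v ∈ jm1, t1 v = ∑ _v ∈ jm1, (1 : ℝ) :=
          sum_congr rfl fun v hv => hfrS.t_jm hw1 hv
        rw [h7, sum_const, h6]
        norm_num
      exact h4.ge
    · rw [e1] at hne1
      exact absurd hne1 not_nonempty_empty
  · intro X hX heX hne1 hsX
    rcases hk with ⟨-, -, rfl, -⟩ | ⟨-, rfl, -⟩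
    · obtain ⟨h1, h2⟩ := hA X hX
      rw [hbd X h2]
      exact h.b0 X h1 heX hne1 hsX
    · exact absurd hne1 not_nonempty_empty
  · intro v hv
    have h1 := h.epj v (hs hv)
    by_cases h2 : v ∈ jm
    · rw [if_pos h2] at h1
      rw [if_pos ((hjm1 v hv).2 h2)]
      exact h1
    · rw [if_neg h2] at h1
      rw [if_neg (fun h4 => h2 ((hjm1 v hv).1 h4))]
      exact h1

end outer

section inner

variable (hf : f ∈ G.ds) (hW : W ⊆ G.vs) (hfW : G.pi f ∈ W) (hfU : G.pi (G.al f) ∉ W)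

include hf hW hfW hfU in
/-- counting the units of a tight set -/
theorem lp_boundT (h : G.InstT z t fr F jm sx ep m) (h3 : G.val z t W = 3) (hz : 0 < z f)
    {T : Finset V} (hTW : T ⊆ W) : ((G.lp fr W f).card : ℝ) + ∑ v ∈ T, t v < 3 := by
  have hw := h.wt
  have hF := h.fresh
  have hfb : f ∈ G.bd W := mem_bd.2 ⟨hf, hfW, hfU⟩
  set R := (G.bd W).filter fun d => d ≠ f ∧ G.pi (G.al d) ∈ fr ∧ G.pi d ∈ fr with hR
  have h1 : (G.lp fr W f).card ≤ R.card := by
    have h2 : G.lp fr W f ⊆ R.image G.pi := by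
      intro v hv
      obtain ⟨⟨a, b⟩, d, c, rfl, e, g, i⟩ := mem_lp.1 hv
      exact mem_image.2 ⟨d, mem_filter.2 ⟨mem_bd.2 ⟨c, b, e⟩, g, i, a⟩, rfl⟩
    exact (card_le_card h2).trans card_image_le
  have h2 : ∑ d ∈ R, z d = R.card := by
    have h4 : ∑ d ∈ R, z d = ∑ _d ∈ R, (1 : ℝ) := by
      refine sum_congr rfl fun d hd => ?_
      obtain ⟨a, -, -, b⟩ := mem_filter.1 hd
      exact hF.unit d (mem_bd.1 a).1 b
    rw [h4, sum_const, nsmul_eq_mul, mul_one]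
  have hfR : f ∉ R := fun h4 => (mem_filter.1 h4).2.1 rfl
  have h4 : z f + ∑ d ∈ R, z d ≤ ∑ d ∈ G.bd W, z d := by
    rw [← sum_insert hfR]
    refine sum_le_sum_of_subset_of_nonneg ?_ ?_
    · intro d hd
      rcases mem_insert.1 hd with rfl | hd
      · exact hfb
      · exact (mem_filter.1 hd).1
    · intro d hd _
      exact hw.z0 d (mem_bd.1 hd).1
  have h5 : ∑ v ∈ T, t v ≤ ∑ v ∈ W, t v :=
    sum_le_sum_of_subset_of_nonneg hTW fun v hv _ => hw.t0 v (hW hv)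
  have h6 : (((G.lp fr W f).card : ℕ) : ℝ) ≤ R.card := by exact_mod_cast h1
  unfold val at h3
  rw [h2] at h4
  linarith

include hfU in
/-- the inner instance -/
theorem inn_instT (h : G.InstT z t fr F jm sx ep m) (hWo : Odd W.card) (h3 : G.val z t W = 3)
    (hz : 0 < z f) (hFW : ∀ d ∈ F, G.pi d ∈ W → G.pi (G.al d) ∈ W)
    {fr2 B jm2 sx2 : Finset V} (hs : fr2 ⊆ fr)
    (hcl : ∀ d ∈ F, G.pi d ∈ fr2 → G.pi (G.al d) ∈ fr2) (hdB : Disjoint fr2 B)
    (hWB : G.vs \ W ⊆ B) (hqB : G.lq fr W f ⊆ B)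
    (hadm : ∀ X, G.Adm fr2 (F.filter fun d => G.pi d ∈ fr2) X ↔ G.Adm fr F X ∧ Disjoint X B)
    {P : Finset V} (hP : P = (jm ∩ W) ∪ G.lp fr W f)
    (hk : (sx2 = P ∧ jm2 = P ∧ P.card = 2 ∧ P ⊆ fr2) ∨
      (sx2 = sx ∧ jm2 = P ∧ G.lp fr W f = ∅ ∧ P = jm ∧ sx ⊆ fr2 ∧ P ⊆ fr2) ∨
      (sx2 = ∅ ∧ jm2 = ∅ ∧ Disjoint P fr2)) :
    (G.inn W f hf hW hfW).InstS z (G.tinn z t W f) fr2 (F.filter fun d => G.pi d ∈ fr2) jm2 sx2
      (fun v => ep v + if v ∈ G.lp fr W f then 1 else 0) m := by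
  have hF := h.fresh
  have hfr2W : fr2 ⊆ W := by
    intro v hv
    by_contra hn
    exact disjoint_left.1 hdB hv (hWB (mem_sdiff.2 ⟨hF.fsub (hs hv), hn⟩))
  have hjmP : ∀ v ∈ fr2, (v ∈ jm2 ↔ v ∈ P) := by
    intro v hv
    rcases hk with ⟨-, rfl, -⟩ | ⟨-, rfl, -⟩ | ⟨-, rfl, h1⟩
    · rfl
    · rfl
    · exact ⟨fun h2 => absurd h2 (notMem_empty _), fun h2 => absurd hv (disjoint_left.1 h1 h2)⟩
  have hjs : jm2 ⊆ fr2 := by
    rcases hk with ⟨-, rfl, -, h1⟩ | ⟨-, rfl, -, -, -, h1⟩ | ⟨-, rfl, -⟩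
    · exact h1
    · exact h1
    · exact empty_subset _
  have hA : ∀ X, (G.inn W f hf hW hfW).Adm fr2 (F.filter fun d => G.pi d ∈ fr2) X →
      G.Adm fr F X ∧ X ⊆ W ∧ Disjoint X (G.lq fr W f) := by
    intro X hX
    have h1 : G.Adm fr2 (F.filter fun d => G.pi d ∈ fr2) X := ⟨hX.sub, hX.clo⟩
    obtain ⟨h2, h4⟩ := (hadm X).1 h1
    exact ⟨h2, h1.sub.trans hfr2W, disjoint_of_subset_right hqB h4⟩
  have hwt := h.wt.inn hf hW hfW hfU hWo h3
  have hfrS : (G.inn W f hf hW hfW).FrS z fr2 (F.filter fun d => G.pi d ∈ fr2) jm2 := by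
    refine ⟨?_, ?_, ?_, ?_, ?_, hjs, ?_, ?_, ?_⟩
    · intro v hv
      exact mem_insert_of_mem (hfr2W hv)
    · intro d hd
      obtain ⟨h1, h2⟩ := mem_filter.1 hd
      exact (mem_inn hf hW hfW).2 ⟨hF.Fsub h1, Or.inl ⟨hfr2W h2, hfr2W (hcl d h1 h2)⟩⟩
    · intro d hd
      obtain ⟨h1, h2⟩ := mem_filter.1 hd
      exact mem_filter.2 ⟨hF.Fal d h1, hcl d h1 h2⟩
    · intro d hd
      exact (mem_filter.1 hd).2
    · intro v hv
      rw [← hF.two v (hs hv)]
      congr 1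
      ext d
      rw [mem_filter, mem_filter, mem_filter]
      constructor
      · rintro ⟨⟨h1, -⟩, h4⟩
        exact ⟨h1, h4⟩
      · rintro ⟨h1, rfl⟩
        exact ⟨⟨h1, hv⟩, rfl⟩
    · intro v hv hj
      have hvP : v ∉ P := fun h1 => hj ((hjmP v hv).2 h1)
      have hvW := hfr2W hv
      have hvj : v ∉ jm := by
        intro h1
        exact hvP (by rw [hP]; exact mem_union_left _ (mem_inter.2 ⟨h1, hvW⟩))
      obtain ⟨j, j1, j2, j3, j4⟩ := hF.exists_jd (hs hv) hvj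
      rw [card_eq_one]
      refine ⟨j, ?_⟩
      ext d
      rw [mem_filter, mem_st, mem_singleton, mem_inn]
      constructor
      · rintro ⟨⟨⟨h1, -⟩, h2⟩, h4⟩
        have h2' : G.pi d = v := h2
        exact j4 d h1 h2' fun h5 => h4 (mem_filter.2 ⟨h5, h2' ▸ hv⟩)
      · rintro rfl
        refine ⟨⟨⟨j1, ?_⟩, j2⟩, fun h5 => j3 (mem_filter.1 h5).1⟩
        by_contra hn
        rw [not_or, not_or] at hn
        have hout : G.pi (G.al d) ∉ W := fun h5 => hn.1 ⟨j2 ▸ hvW, h5⟩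
        by_cases h5 : G.pi (G.al d) ∈ fr
        · exact hvP (by
            rw [hP]
            exact mem_union_right _ (mem_lp.2 ⟨⟨hs hv, hvW⟩, d, j1, j2, hout, hn.2.1, h5⟩))
        · exact disjoint_left.1 hdB hv (hqB (mem_lq.2 ⟨⟨hs hv, hvW⟩, d, j1, j2, hout, hn.2.1, h5⟩))
    · intro v hv d hd
      have hvf := hjs hv
      rw [mem_st, mem_inn] at hd
      obtain ⟨⟨h1, h2⟩, h4⟩ := hd
      have h4' : G.pi d = v := h4
      by_contra hn
      have hdF : d ∉ F := fun h5 => hn (mem_filter.2 ⟨h5, h4' ▸ hvf⟩)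
      have hvP := (hjmP v hvf).1 hv
      rw [hP] at hvP
      rcases mem_union.1 hvP with h5 | h5
      · exact hdF (hF.j0 v (mem_inter.1 h5).1 d (mem_st.2 ⟨h1, h4'⟩))
      · have hvj := lp_not_jm hF hFW h5
        obtain ⟨⟨h6, h7⟩, e, h8, h9, h10, h11, -⟩ := mem_lp.1 h5
        obtain ⟨j, -, -, -, j4⟩ := hF.exists_jd h6 hvj
        have e1 := j4 d h1 h4' hdF
        have e2 := j4 e h8 h9 (out_notF hFW (h9 ▸ h7) h10)
        rw [e1, ← e2] at h2
        rcases h2 with h2 | h2 | h2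
        · exact h10 h2.2
        · exact h11 h2
        · rw [h2] at h9
          exact hfU (h9 ▸ h7)
    · intro d hd hp
      exact hF.unit d ((mem_inn hf hW hfW).1 hd).1 (hs hp)
  have hsum : ∀ X, ∑ v ∈ X, (ep v + if v ∈ G.lp fr W f then 1 else 0) =
      ∑ v ∈ X, ep v + (X ∩ G.lp fr W f).card := by
    intro X
    rw [sum_add_distrib]
    congr 1
    rw [← sum_filter, card_eq_sum_ones]
    refine sum_congr ?_ fun _ _ => rfl
    ext v
    rw [mem_filter, mem_inter]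
  refine ⟨?_, hwt, ?_, hfrS, ?_, ?_, ?_, ?_, ?_, ?_, ?_, ?_⟩
  · rw [inn_card hf hW hfW hfU]
    obtain ⟨k, hk'⟩ := hWo
    exact ⟨k + 1, by omega⟩
  · rw [inn_tau hf hW hfW hfU h3]
    linarith
  · intro X hX hoX
    obtain ⟨h1, h2, h4⟩ := hA X hX
    have h5 := h.cc X h1 hoX
    rw [inn_count hf hW hfW hfU hF hFW h1 h2 h4] at h5
    rw [hsum X]
    omega
  · intro X hX heX hneX
    obtain ⟨h1, h2, h4⟩ := hA X hX
    have h5 := h.ev X h1 heX hneX
    rw [inn_count hf hW hfW hfU hF hFW h1 h2 h4] at h5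
    rw [hsum X]
    omega
  · rcases hk with ⟨rfl, -, -, h1⟩ | ⟨rfl, -, -, -, h1, -⟩ | ⟨rfl, -, -⟩
    · exact h1
    · exact h1
    · exact empty_subset _
  · rcases hk with ⟨rfl, rfl, -, h1⟩ | ⟨rfl, rfl, h0, h00, h1, -⟩ | ⟨rfl, rfl, -⟩
    · exact Or.inl rfl
    · rcases h.kind with h5 | ⟨h5, h6⟩
      · exact Or.inl (h00.trans h5)
      · exact Or.inr ⟨h00.trans h5, fun X hX => h6 X (hA X hX).1⟩
    · exact Or.inl rfl
  · rcases hk with ⟨rfl, rfl, h5, h1⟩ | ⟨rfl, rfl, h0, h00, h1, -⟩ | ⟨rfl, rfl, -⟩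
    · exact Or.inr h5
    · rw [h00]
      exact h.jm2
    · exact Or.inl rfl
  · intro hne
    rcases hk with ⟨e1, e2, h5, h1⟩ | ⟨e1, e2, h0, h00, h1, -⟩ | ⟨e1, e2, -⟩
    · rw [← e2] at e1 h5
      rw [e1]
      have h6 : ∑ v ∈ jm2, G.tinn z t W f v = ∑ _v ∈ jm2, (1 : ℝ) :=
        sum_congr rfl fun v hv => hfrS.t_jm hwt hv
      rw [h6, sum_const, h5]
      norm_num
    · rw [e1] at hne ⊢
      have h6 : ∑ v ∈ sx, t v ≤ ∑ v ∈ sx, G.tinn z t W f v := by
        refine sum_le_sum fun v hv => ?_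
        have hvW := hfr2W (h1 hv)
        have hne' : v ≠ G.pi (G.al f) := fun e => hfU (e ▸ hvW)
        unfold tinn
        rw [if_neg hne']
        have h7 : 0 ≤ ∑ d ∈ (G.st v).filter (fun d => G.pi (G.al d) ∉ W ∧ d ≠ f), z d :=
          sum_nonneg fun d hd => h.wt.z0 d (mem_st.1 (mem_filter.1 hd).1).1
        linarith
      exact (h.st2 hne).trans h6
    · rw [e1] at hne
      exact absurd hne not_nonempty_empty
  · intro X hX heX hne hsX
    obtain ⟨h1, h2, h4⟩ := hA X hX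
    rcases hk with ⟨e1, e2, h5, h6⟩ | ⟨e1, e2, h0, h00, h6, -⟩ | ⟨e1, e2, -⟩
    · rw [← e2] at e1 h5
      rw [e1] at hsX
      by_contra hlt
      have hpar := hfrS.bd_par hX
      have hint : X ∩ jm2 = jm2 := inter_eq_right.2 hsX
      rw [hint, h5] at hpar
      have h0 : ((G.inn W f hf hW hfW).bd X).card = 0 := by
        obtain ⟨k, hk'⟩ := heX
        omega
      rw [card_eq_zero] at h0
      -- the rest of `W`
      have hRo : Odd (W \ X).card := by
        have h7 := card_sdiff_add_card_eq_card h2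
        rw [Nat.odd_iff] at hWo ⊢
        rw [Nat.even_iff] at heX
        omega
      have h8 := hwt.cut (W \ X) (fun v hv => mem_insert_of_mem (mem_sdiff.1 hv).1) hRo
      have htX : 2 ≤ ∑ v ∈ X, G.tinn z t W f v := by
        have h9 : ∑ v ∈ jm2, G.tinn z t W f v ≤ ∑ v ∈ X, G.tinn z t W f v :=
          sum_le_sum_of_subset_of_nonneg hsX fun v hv _ =>
            hwt.t0 v (mem_insert_of_mem (h2 hv))
        have h10 : ∑ v ∈ jm2, G.tinn z t W f v = 2 := by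
          have h6 : ∑ v ∈ jm2, G.tinn z t W f v = ∑ _v ∈ jm2, (1 : ℝ) :=
            sum_congr rfl fun v hv => hfrS.t_jm hwt hv
          rw [h6, sum_const, h5]
          norm_num
        linarith
      have htau := inn_tau (z := z) (t := t) hf hW hfW hfU h3
      have hvs : (G.inn W f hf hW hfW).vs = insert (G.pi (G.al f)) W := rfl
      rw [hvs, sum_insert hfU, ← sum_sdiff h2] at htau
      have htc : G.tinn z t W f (G.pi (G.al f)) = 3 - z f := by
        unfold tinn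
        rw [if_pos rfl]
      have hbd : (G.inn W f hf hW hfW).bd (W \ X) ⊆ {f} := by
        intro d hd
        obtain ⟨a, b, c⟩ := mem_bd.1 hd
        have b' : G.pi d ∈ W \ X := b
        have c' : G.pi (G.al d) ∉ W \ X := c
        rw [mem_singleton]
        obtain ⟨a1, a2 | a2 | a2⟩ := (mem_inn hf hW hfW).1 a
        · exfalso
          have hX2 : G.pi (G.al d) ∈ X := by
            by_contra hn
            exact c' (mem_sdiff.2 ⟨a2.2, hn⟩)
          have hal : G.al d ∈ (G.inn W f hf hW hfW).bd X := by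
            rw [mem_bd]
            refine ⟨(G.inn W f hf hW hfW).al_mem d a, hX2, ?_⟩
            have e1 : (G.inn W f hf hW hfW).al (G.al d) = d := G.al_al d a1
            rw [e1]
            exact (mem_sdiff.1 b').2
          rw [h0] at hal
          exact absurd hal (notMem_empty _)
        · exact a2
        · exfalso
          rw [a2] at b'
          exact hfU (mem_sdiff.1 b').1
      have hsum2 : ∑ d ∈ (G.inn W f hf hW hfW).bd (W \ X), z d ≤ z f := by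
        have h9 := sum_le_sum_of_subset_of_nonneg (f := z) hbd fun d hd _ => by
          rw [mem_singleton] at hd
          rw [hd]
          exact hz.le
        rwa [sum_singleton] at h9
      unfold val at h8
      rw [htc] at htau
      linarith
    · rw [e1] at hne hsX
      have h7 := h.b0 X h1 heX hne hsX
      have h8 := inn_count hf hW hfW hfU hF hFW h1 h2 h4
      rw [h0, inter_empty, card_empty] at h8
      omega
    · rw [e1] at hne
      exact absurd hne not_nonempty_empty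
  · intro v hv
    have h1 := h.epj v (hs hv)
    by_cases h2 : v ∈ G.lp fr W f
    · have h4 := lp_not_jm hF hFW h2
      rw [if_neg h4] at h1
      have h5 : v ∈ jm2 := (hjmP v hv).2 (by rw [hP]; exact mem_union_right _ h2)
      rw [if_pos h5, if_pos h2]
      omega
    · rw [if_neg h2]
      by_cases h4 : v ∈ jm
      · have h5 : v ∈ jm2 := (hjmP v hv).2
          (by rw [hP]; exact mem_union_left _ (mem_inter.2 ⟨h4, hfr2W hv⟩))
        rw [if_pos h4] at h1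
        rw [if_pos h5]
        omega
      · rw [if_neg h4] at h1
        omega

end inner

private theorem inter_auxT {A J W L : Finset V} (h : A ⊆ W) :
    A ∩ ((J ∩ W) ∪ L) = (A ∩ J) ∪ (A ∩ L) := by
  ext v
  simp only [mem_inter, mem_union]
  constructor
  · rintro ⟨h1, h2 | h2⟩
    · exact Or.inl ⟨h1, h2.1⟩
    · exact Or.inr ⟨h1, h2⟩
  · rintro (⟨h1, h2⟩ | ⟨h1, h2⟩)
    · exact ⟨h1, Or.inl ⟨h2, h h1⟩⟩
    · exact ⟨h1, Or.inr h2⟩

/-- **glue above 6**: a J-bounded tight set of `(z, t)`, any number of tokens, the outer instance has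
another weight `(z1, t1)` with less than 6 tokens -/
theorem glueA (h : G.InstT z t fr F jm sx ep m) {a b : ℕ} (ih : IHG a b m V D)
    (ha : fr.card ≤ a) (hb : G.vs.card ≤ b) (hW : W ⊆ G.vs) (hWo : Odd W.card)
    (h3 : G.val z t W = 3) (hc1 : 3 ≤ W.card) (hc2 : 3 ≤ (G.vs \ W).card)
    (hFW : ∀ d ∈ F, G.pi d ∈ W → G.pi (G.al d) ∈ W) {ω : V} (hω : ω ∈ W)
    (hw1 : (G.con W ω hω hW).Wt z1 t1) (ht1 : ∑ v ∈ (G.con W ω hω hW).vs, t1 v < 6)
    (hz1 : ∀ d ∈ G.ds, z d = 0 → z1 d = 0)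
    (hu1 : ∀ d ∈ G.ds, G.pi d ∈ fr → G.pi d ∉ W → z1 d = 1) :
    ∃ M, G.GoodS z fr F sx M := by
  have hF := h.fresh
  have hcardW := card_sdiff_add_card_eq_card hW
  have hFW' : ∀ d ∈ F, G.pi d ∉ W → G.pi (G.al d) ∉ W := by
    intro d hd h1 h2
    have h4 := hFW _ (hF.Fal d hd) h2
    rw [G.al_al d (hF.Fsub hd)] at h4
    exact h1 h4
  have hadmW : ∀ X, G.Adm fr F X → G.Adm fr F (X ∩ W) := fun X hX =>
    ⟨fun v hv => hX.sub (mem_inter.1 hv).1, fun d hd hp => mem_inter.2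
      ⟨hX.clo d hd (mem_inter.1 hp).1, hFW d hd (mem_inter.1 hp).2⟩⟩
  have hadmU : ∀ X, G.Adm fr F X → G.Adm fr F (X \ W) := fun X hX =>
    ⟨fun v hv => hX.sub (mem_sdiff.1 hv).1, fun d hd hp => mem_sdiff.2
      ⟨hX.clo d hd (mem_sdiff.1 hp).1, hFW' d hd (mem_sdiff.1 hp).2⟩⟩
  have hadmfr : G.Adm fr F fr := ⟨Finset.Subset.refl _, fun d hd _ => hF.Ffr _ (hF.Fal d hd)⟩
  -- outer instance
  obtain ⟨B1, hB1⟩ : ∃ B1 : Finset V, B1 = W ∪ if sx ⊆ G.vs \ W then ∅ else sx := ⟨_, rfl⟩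
  obtain ⟨fr1, hs1, hcl1, hd1, hadm1⟩ := exists_avoid G fr F B1
  have hWB1 : W ⊆ B1 := by rw [hB1]; exact subset_union_left
  obtain ⟨jm1, sx1, hk1⟩ : ∃ jm1 sx1 : Finset V, (sx ⊆ G.vs \ W → sx1 = sx) ∧
      ((sx ⊆ fr1 ∧ jm ⊆ fr1 ∧ sx1 = sx ∧ jm1 = jm) ∨ (Disjoint jm fr1 ∧ sx1 = ∅ ∧ jm1 = ∅)) := by
    by_cases hout : sx ⊆ G.vs \ W
    · have h1 : sx ⊆ fr1 := by
        rw [if_pos hout, union_empty] at hB1
        have h4 : Disjoint (fr \ W) B1 := by
          rw [hB1]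
          exact sdiff_disjoint
        have h5 := ((hadm1 (fr \ W)).2 ⟨hadmU fr hadmfr, h4⟩).sub
        exact fun v hv => h5 (mem_sdiff.2 ⟨h.sxs hv, (mem_sdiff.1 (hout hv)).2⟩)
      exact ⟨jm, sx, fun _ => rfl, Or.inl ⟨h1, h.jm_sub.trans h1, rfl, rfl⟩⟩
    · refine ⟨∅, ∅, fun h1 => absurd h1 hout, Or.inr ⟨?_, rfl, rfl⟩⟩
      rw [if_neg hout] at hB1
      have h4 : sx ⊆ B1 := by rw [hB1]; exact subset_union_right
      exact (disjoint_of_subset_right (h.jm_sub.trans h4) hd1).symm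
  have hI1 := con_instT hω hW h hWo hw1 ht1 hu1 hs1 hcl1 hd1 hWB1 hadm1 hk1.2
  have hsz1 : (G.con W ω hω hW).vs.card < G.vs.card := by
    have h1 : (G.con W ω hω hW).vs.card ≤ (G.vs \ W).card + 1 := by
      have h4 : (G.con W ω hω hW).vs = (G.vs \ W) ∪ {ω} := rfl
      rw [h4]
      exact (card_union_le _ _).trans (by rw [card_singleton])
    omega
  obtain ⟨M1, hM1⟩ := ih _ _ _ _ _ _ _ _ ((card_le_card hs1).trans ha) (hsz1.trans_le hb) hI1
  obtain ⟨f, hfM, hfW, hfU, huniq⟩ := con_one hω hW hM1.pm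
  have hcon : ∀ d ∈ M1, d ∈ G.ds ∧ ¬ (G.pi d ∈ W ∧ G.pi (G.al d) ∈ W) := fun d hd =>
    mem_filter.1 (hM1.pm.sub hd)
  have hf := (hcon f hfM).1
  have hposz : ∀ d ∈ G.ds, 0 < z1 d → 0 < z d := by
    intro d hd h1
    rcases (h.wt.z0 d hd).lt_or_eq with h2 | h2
    · exact h2
    · rw [hz1 d hd h2.symm] at h1
      exact absurd h1 (lt_irrefl _)
  have hz : 0 < z f := hposz f hf (hM1.pos f hfM)
  have hafM1 : G.al f ∈ M1 := hM1.pm.closed f hfM
  -- ports
  obtain ⟨L, hL⟩ : ∃ L, L = G.lp fr W f := ⟨_, rfl⟩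
  obtain ⟨P, hP⟩ : ∃ P, P = (jm ∩ W) ∪ G.lp fr W f := ⟨_, rfl⟩
  have hdjL : Disjoint (jm ∩ W) (G.lp fr W f) := by
    rw [disjoint_left]
    intro v hv hv2
    exact lp_not_jm hF hFW hv2 (mem_inter.1 hv).1
  have hPcard : P.card ≤ 2 := by
    have h1 := lp_boundT hf hW hfW hfU h h3 hz (T := jm ∩ W) inter_subset_right
    have h2 : ∑ v ∈ jm ∩ W, t v = (jm ∩ W).card := by
      have h4 : ∑ v ∈ jm ∩ W, t v = ∑ _v ∈ jm ∩ W, (1 : ℝ) :=
        sum_congr rfl fun v hv => hF.t_jm h.wt (mem_inter.1 hv).1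
      rw [h4, sum_const, nsmul_eq_mul, mul_one]
    rw [h2] at h1
    have h5 : (((G.lp fr W f).card + (jm ∩ W).card : ℕ) : ℝ) < (3 : ℕ) := by
      push_cast
      exact h1
    have h6 := Nat.cast_lt.1 h5
    rw [hP, card_union_of_disjoint hdjL]
    omega
  have hsxL : sx.Nonempty → sx ⊆ W → G.lp fr W f = ∅ ∧ P = jm := by
    intro hne hsW
    have h1 := lp_boundT hf hW hfW hfU h h3 hz hsW
    have h2 := h.st2 hne
    have h4 : (((G.lp fr W f).card : ℕ) : ℝ) < (1 : ℕ) := by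
      push_cast
      linarith
    have h5 := Nat.cast_lt.1 h4
    have h6 : G.lp fr W f = ∅ := card_eq_zero.1 (by omega)
    refine ⟨h6, ?_⟩
    rw [hP, h6, union_empty]
    exact inter_eq_left.2 (h.jm_sub.trans hsW)
  obtain ⟨fr20, hs20, hcl20, hd20, hadm20⟩ := exists_avoid G fr F ((G.vs \ W) ∪ G.lq fr W f)
  -- inner instance
  obtain ⟨fr2, sx2, M2, hs2W, hM2, hcase⟩ : ∃ fr2 sx2 M2, fr2 ⊆ W ∧
      (G.inn W f hf hW hfW).GoodS z fr2 (F.filter fun d => G.pi d ∈ fr2) sx2 M2 ∧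
      (((∀ X, G.Adm fr F X → X ⊆ W → Disjoint X (G.lq fr W f) →
          G.Adm fr2 (F.filter fun d => G.pi d ∈ fr2) X) ∧
          ((sx.Nonempty ∧ sx ⊆ W ∧ sx2 = sx) ∨ (¬ (sx.Nonempty ∧ sx ⊆ W) ∧ sx2 = P ∧
            P.card = 2))) ∨
        ((∀ X, G.Adm fr F X → X ⊆ W → Disjoint X (G.lq fr W f) → Disjoint X P →
          (sx ⊆ W → Disjoint X sx) → G.Adm fr2 (F.filter fun d => G.pi d ∈ fr2) X) ∧
          ¬ (sx.Nonempty ∧ sx ⊆ W ∧ sx ⊆ fr20) ∧
          ¬ (¬ (sx.Nonempty ∧ sx ⊆ W) ∧ P.card = 2 ∧ P ⊆ fr20))) := by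
    have hsz2 : (G.inn W f hf hW hfW).vs.card < G.vs.card := by
      rw [inn_card hf hW hfW hfU]
      omega
    have hin : ∀ fr2 B : Finset V, fr2 ⊆ fr → Disjoint fr2 B → G.vs \ W ⊆ B → fr2 ⊆ W := by
      intro fr2 B h1 h2 h4 v hv
      by_contra hn
      exact disjoint_left.1 h2 hv (h4 (mem_sdiff.2 ⟨hF.fsub (h1 hv), hn⟩))
    have hadm20' : ∀ X, G.Adm fr F X → X ⊆ W → Disjoint X (G.lq fr W f) →
        G.Adm fr20 (F.filter fun d => G.pi d ∈ fr20) X := by
      intro X hX hXW hXq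
      refine (hadm20 X).2 ⟨hX, ?_⟩
      rw [disjoint_union_right]
      exact ⟨disjoint_of_subset_left hXW disjoint_sdiff, hXq⟩
    by_cases hA : sx.Nonempty ∧ sx ⊆ W ∧ sx ⊆ fr20
    · obtain ⟨a1, a2, a3⟩ := hA
      obtain ⟨b1, b2⟩ := hsxL a1 a2
      have hI2 := inn_instT hf hW hfW hfU h hWo h3 hz hFW (jm2 := P) (sx2 := sx) hs20 hcl20 hd20
        subset_union_left subset_union_right hadm20 hP
        (Or.inr (Or.inl ⟨rfl, rfl, b1, b2, a3, by rw [b2]; exact h.jm_sub.trans a3⟩))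
      obtain ⟨M2, hM2⟩ := ih _ _ _ _ _ _ _ _ ((card_le_card hs20).trans ha) (hsz2.trans_le hb) hI2
      exact ⟨fr20, sx, M2, hin _ _ hs20 hd20 subset_union_left, hM2,
        Or.inl ⟨hadm20', Or.inl ⟨a1, a2, rfl⟩⟩⟩
    · by_cases hB : ¬ (sx.Nonempty ∧ sx ⊆ W) ∧ P.card = 2 ∧ P ⊆ fr20
      · obtain ⟨a1, a2, a3⟩ := hB
        have hI2 := inn_instT hf hW hfW hfU h hWo h3 hz hFW (jm2 := P) (sx2 := P) hs20 hcl20 hd20
          subset_union_left subset_union_right hadm20 hP (Or.inl ⟨rfl, rfl, a2, a3⟩)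
        obtain ⟨M2, hM2⟩ := ih _ _ _ _ _ _ _ _ ((card_le_card hs20).trans ha) (hsz2.trans_le hb) hI2
        exact ⟨fr20, P, M2, hin _ _ hs20 hd20 subset_union_left, hM2,
          Or.inl ⟨hadm20', Or.inr ⟨a1, rfl, a2⟩⟩⟩
      · obtain ⟨fr2, hs2, hcl2, hd2, hadm2⟩ := exists_avoid G fr F
          (((G.vs \ W) ∪ G.lq fr W f) ∪ (P ∪ if sx ⊆ W then sx else ∅))
        have hI2 := inn_instT hf hW hfW hfU h hWo h3 hz hFW (jm2 := ∅) (sx2 := ∅) hs2 hcl2 hd2
          (subset_union_left.trans subset_union_left)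
          (subset_union_right.trans subset_union_left) hadm2 hP
          (Or.inr (Or.inr ⟨rfl, rfl, (disjoint_of_subset_right
            (subset_union_left.trans subset_union_right) hd2).symm⟩))
        obtain ⟨M2, hM2⟩ := ih _ _ _ _ _ _ _ _ ((card_le_card hs2).trans ha) (hsz2.trans_le hb) hI2
        refine ⟨fr2, ∅, M2, hin _ _ hs2 hd2 (subset_union_left.trans subset_union_left), hM2,
          Or.inr ⟨?_, hA, hB⟩⟩
        intro X hX hXW hXq hXP hXs
        refine (hadm2 X).2 ⟨hX, ?_⟩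
        rw [disjoint_union_right, disjoint_union_right, disjoint_union_right]
        refine ⟨⟨disjoint_of_subset_left hXW disjoint_sdiff, hXq⟩, hXP, ?_⟩
        by_cases h1 : sx ⊆ W
        · rw [if_pos h1]
          exact hXs h1
        · rw [if_neg h1]
          exact disjoint_empty_right _
  -- the matching
  obtain ⟨hfM2, hafM2⟩ := inn_pm_f hf hW hfW hfU hM2.pm
  obtain ⟨w1, w2, w3, w4⟩ := inn_pm_W hf hW hfW hfU hM2.pm
  set M2' := M2.filter fun d => G.pi d ∈ W ∧ G.pi (G.al d) ∈ W with hM2'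
  have hpm : G.IsPM (M1 ∪ M2') := con_glue hω hW hM1.pm hfM hfW w1 w2 w3 w4
  refine ⟨M1 ∪ M2', hpm, ?_, ?_⟩
  · intro d hd
    rcases mem_union.1 hd with h1 | h1
    · exact hposz d (hcon d h1).1 (hM1.pos d h1)
    · exact hM2.pos d (mem_filter.1 h1).1
  intro X hX hodd
  by_contra hcon'
  push Not at hcon'
  have hcl : ∀ d ∈ G.bd X, d ∈ M1 ∪ M2' := hcon'
  have hXW := hadmW X hX
  have hXU := hadmU X hX
  -- darts leaving `W`
  have hout : ∀ d ∈ G.ds, G.pi d ∈ W → G.pi (G.al d) ∉ W → (d ∈ M1 ∪ M2' ↔ d = f) := by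
    intro d _ h1 h2
    constructor
    · intro h4
      rcases mem_union.1 h4 with h5 | h5
      · exact huniq d h5 h1
      · exact absurd (mem_filter.1 h5).2.2 h2
    · rintro rfl
      exact mem_union_left _ hfM
  -- closed, so deleted darts at `X` go to `X`
  have hdel : ∀ d ∈ G.ds, G.pi d ∈ X → G.pi d ∈ W → G.pi (G.al d) ∉ W → d ≠ f →
      G.pi (G.al d) ∈ X := by
    intro d h1 h2 h4 h5 h6
    by_contra hn
    exact h6 ((hout d h1 h4 h5).1 (hcl d (mem_bd.2 ⟨h1, h2, hn⟩)))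
  have hXq : Disjoint (X ∩ W) (G.lq fr W f) := by
    rw [disjoint_left]
    intro v hv hq
    obtain ⟨-, d, h1, h2, h4, h5, h6⟩ := mem_lq.1 hq
    obtain ⟨h7, h8⟩ := mem_inter.1 hv
    exact h6 (hX.sub (hdel d h1 (h2 ▸ h7) (h2 ▸ h8) h4 h5))
  -- parity
  have hcnt := inn_count hf hW hfW hfU hF hFW hXW inter_subset_right hXq
  have hfilt : (G.bd (X ∩ W)).filter (fun d => d ∈ M1 ∪ M2') =
      (G.inn W f hf hW hfW).bd (X ∩ W) := by
    ext d
    rw [mem_filter, mem_inn_bd hf hW hfW hfU inter_subset_right]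
    constructor
    · rintro ⟨h1, h2⟩
      refine ⟨h1, ?_⟩
      by_cases h4 : G.pi (G.al d) ∈ W
      · exact Or.inl h4
      · obtain ⟨a, b, -⟩ := mem_bd.1 h1
        exact Or.inr ((hout d a (mem_inter.1 b).2 h4).1 h2)
    · rintro ⟨h1, h2⟩
      refine ⟨h1, ?_⟩
      rcases h2 with h2 | rfl
      · obtain ⟨a, b, c⟩ := mem_bd.1 h1
        exact hcl d (mem_bd.2 ⟨a, (mem_inter.1 b).1, fun h4 => c (mem_inter.2 ⟨h4, h2⟩)⟩)
      · exact mem_union_left _ hfM
  have hE := card_filter_add_card_filter_not (s := G.bd (X ∩ W)) (fun d => d ∈ M1 ∪ M2')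
  have hpar := hF.unused_par hpm hXW
  have hPe : Even ((X ∩ W) ∩ P).card := by
    have h1 : (X ∩ W) ∩ P = ((X ∩ W) ∩ jm) ∪ ((X ∩ W) ∩ G.lp fr W f) := by
      rw [hP]
      exact inter_auxT inter_subset_right
    have h2 : Disjoint ((X ∩ W) ∩ jm) ((X ∩ W) ∩ G.lp fr W f) := by
      rw [disjoint_left]
      intro v hv hv2
      exact lp_not_jm hF hFW (mem_inter.1 hv2).2 (mem_inter.1 hv).2
    rw [h1, card_union_of_disjoint h2, Nat.even_iff]
    rw [hfilt] at hE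
    omega
  -- transfer
  have TW : G.Adm fr2 (F.filter fun d => G.pi d ∈ fr2) (X ∩ W) →
      (Odd (X ∩ W).card ∨ (sx2.Nonempty ∧ sx2 ⊆ X ∩ W)) → False := by
    intro h1 h2
    obtain ⟨d, h4, h5⟩ := hM2.hit (X ∩ W) ⟨h1.sub, h1.clo⟩ h2
    obtain ⟨h6, h7⟩ := (mem_inn_bd hf hW hfW hfU inter_subset_right).1 h4
    rcases h7 with h7 | rfl
    · obtain ⟨a, b, c⟩ := mem_bd.1 h6
      have h8 := hcl d (mem_bd.2 ⟨a, (mem_inter.1 b).1, fun h9 => c (mem_inter.2 ⟨h9, h7⟩)⟩)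
      rcases mem_union.1 h8 with h9 | h9
      · exact (hcon d h9).2 ⟨(mem_inter.1 b).2, h7⟩
      · exact h5 (mem_filter.1 h9).1
    · exact h5 hfM2
  have TU : G.Adm fr1 (F.filter fun d => G.pi d ∈ fr1) (X \ W) → Disjoint (X ∩ W) P →
      (Odd (X \ W).card ∨ (sx1.Nonempty ∧ sx1 ⊆ X \ W)) → False := by
    intro h1 h0 h2
    obtain ⟨d, h4, h5⟩ := hM1.hit (X \ W)
      ((con_adm hω hW (disjoint_of_subset_right hWB1 hd1) hcl1).2 h1) h2
    rw [con_bd_out hω hW (hXU.sub.trans hF.fsub) sdiff_disjoint] at h4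
    obtain ⟨a, b, c⟩ := mem_bd.1 h4
    obtain ⟨b1, b2⟩ := mem_sdiff.1 b
    by_cases h6 : G.pi (G.al d) ∈ X
    · have h7 : G.pi (G.al d) ∈ W := by
        by_contra hn
        exact c (mem_sdiff.2 ⟨h6, hn⟩)
      have haa := G.al_al d a
      by_cases h8 : G.al d = f
      · apply h5
        rw [← haa, h8]
        exact hafM1
      · refine disjoint_left.1 h0 (mem_inter.2 ⟨h6, h7⟩) ?_
        rw [hP]
        refine mem_union_right _ (mem_lp.2 ⟨⟨hX.sub h6, h7⟩, G.al d, G.al_mem d a, rfl, ?_, h8, ?_⟩)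
        · rw [haa]
          exact b2
        · rw [haa]
          exact hX.sub b1
    · rcases mem_union.1 (hcl d (mem_bd.2 ⟨a, b1, h6⟩)) with h7 | h7
      · exact h5 h7
      · exact b2 (mem_filter.1 h7).2.1
  have hsub20 : X ∩ W ⊆ fr20 := by
    refine ((hadm20 _).2 ⟨hXW, ?_⟩).sub
    rw [disjoint_union_right]
    exact ⟨disjoint_of_subset_left inter_subset_right disjoint_sdiff, hXq⟩
  have hstar : ∀ v ∈ sx, v ∈ X → sx ⊆ X := fun v hv hvX => h.star_sub hpm hX hcl hv hvX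
  by_cases hq0 : Disjoint (X ∩ W) P
  · -- no link
    have hAW : G.Adm fr2 (F.filter fun d => G.pi d ∈ fr2) (X ∩ W) := by
      rcases hcase with ⟨h1, -⟩ | ⟨h1, h2, -⟩
      · exact h1 _ hXW inter_subset_right hXq
      · refine h1 _ hXW inter_subset_right hXq hq0 fun hsW => ?_
        rw [disjoint_left]
        intro v hv hvs
        have h4 := hstar v hvs (mem_inter.1 hv).1
        exact h2 ⟨⟨v, hvs⟩, hsW, fun u hu => hsub20 (mem_inter.2 ⟨h4 hu, hsW hu⟩)⟩
    have hAU : G.Adm fr1 (F.filter fun d => G.pi d ∈ fr1) (X \ W) := by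
      refine (hadm1 _).2 ⟨hXU, ?_⟩
      rw [hB1, disjoint_union_right]
      refine ⟨sdiff_disjoint, ?_⟩
      by_cases h1 : sx ⊆ G.vs \ W
      · rw [if_pos h1]
        exact disjoint_empty_right _
      · rw [if_neg h1, disjoint_left]
        intro v hv hvs
        obtain ⟨h2, h4⟩ := mem_sdiff.1 hv
        have h5 := hstar v hvs h2
        -- some star vertex lies in `W`
        obtain ⟨u, hu, huW⟩ : ∃ u ∈ sx, u ∈ W := by
          by_contra hn
          push Not at hn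
          exact h1 fun u hu => mem_sdiff.2 ⟨hF.fsub (h.sxs hu), hn u hu⟩
        rcases h.kind with h6 | ⟨-, h6⟩
        · refine disjoint_left.1 hq0 (mem_inter.2 ⟨h5 hu, huW⟩) ?_
          rw [hP]
          exact mem_union_left _ (mem_inter.2 ⟨h6 ▸ hu, huW⟩)
        · have h7 := h6 (fr ∩ W) (hadmW fr hadmfr) u hu (mem_inter.2 ⟨h.sxs hu, huW⟩)
          exact h4 (mem_inter.1 (h7 hvs)).2
    rcases hodd with ho | ⟨hne, hsX⟩
    · have h1 : (X ∩ W).card + (X \ W).card = X.card := by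
        rw [add_comm]
        exact card_sdiff_add_card_inter X W
      rcases Nat.even_or_odd (X ∩ W).card with h2 | h2
      · refine TU hAU hq0 (Or.inl ?_)
        rw [Nat.odd_iff] at ho ⊢
        rw [Nat.even_iff] at h2
        omega
      · exact TW hAW (Or.inl h2)
    · by_cases h1 : sx ⊆ G.vs \ W
      · refine TU hAU hq0 (Or.inr ?_)
        rw [hk1.1 h1]
        exact ⟨hne, fun v hv => mem_sdiff.2 ⟨hsX hv, (mem_sdiff.1 (h1 hv)).2⟩⟩
      · obtain ⟨u, hu, huW⟩ : ∃ u ∈ sx, u ∈ W := by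
          by_contra hn
          push Not at hn
          exact h1 fun u hu => mem_sdiff.2 ⟨hF.fsub (h.sxs hu), hn u hu⟩
        rcases h.kind with h6 | ⟨-, h6⟩
        · refine disjoint_left.1 hq0 (mem_inter.2 ⟨hsX hu, huW⟩) ?_
          rw [hP]
          exact mem_union_left _ (mem_inter.2 ⟨h6 ▸ hu, huW⟩)
        · have h7 := h6 (fr ∩ W) (hadmW fr hadmfr) u hu (mem_inter.2 ⟨h.sxs hu, huW⟩)
          have hsW : sx ⊆ W := h7.trans inter_subset_right
          have hsXW : sx ⊆ X ∩ W := fun v hv => mem_inter.2 ⟨hsX hv, hsW hv⟩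
          rcases hcase with ⟨-, ⟨-, -, h8⟩ | ⟨h8, -, -⟩⟩ | ⟨-, h8, -⟩
          · refine TW hAW (Or.inr ?_)
            rw [h8]
            exact ⟨hne, hsXW⟩
          · exact h8 ⟨hne, hsW⟩
          · exact h8 ⟨hne, hsW, hsXW.trans hsub20⟩
  · -- two links
    have h1 : 0 < ((X ∩ W) ∩ P).card := by
      rw [card_pos]
      rw [disjoint_iff_inter_eq_empty] at hq0
      exact nonempty_iff_ne_empty.2 hq0
    have h2 : ((X ∩ W) ∩ P).card ≤ P.card := card_le_card inter_subset_right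
    have h4 : P.card = 2 := by
      obtain ⟨k, hk⟩ := hPe
      omega
    have h5 : P ⊆ X ∩ W := by
      have h6 : (X ∩ W) ∩ P = P := by
        refine eq_of_subset_of_card_le inter_subset_right ?_
        obtain ⟨k, hk⟩ := hPe
        omega
      rw [← h6]
      exact inter_subset_left
    have hPne : P.Nonempty := card_pos.1 (by omega)
    -- if the old star lies in `W` it is `P`
    have hold : sx.Nonempty → sx ⊆ W → sx = P := by
      intro hne hsW
      obtain ⟨-, h6⟩ := hsxL hne hsW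
      rcases h.kind with h7 | ⟨h7, -⟩
      · rw [h6, h7]
      · rw [h6, h7, card_empty] at h4
        omega
    rcases hcase with ⟨h6, ⟨h7, h8, h9⟩ | ⟨-, h8, -⟩⟩ | ⟨-, h7, h8⟩
    · refine TW (h6 _ hXW inter_subset_right hXq) (Or.inr ?_)
      rw [h9]
      exact ⟨h7, by rw [hold h7 h8]; exact h5⟩
    · refine TW (h6 _ hXW inter_subset_right hXq) (Or.inr ?_)
      rw [h8]
      exact ⟨hPne, h5⟩
    · by_cases h9 : sx.Nonempty ∧ sx ⊆ W
      · exact h7 ⟨h9.1, h9.2, by rw [hold h9.1 h9.2]; exact h5.trans hsub20⟩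
      · exact h8 ⟨h9, h4, h5.trans hsub20⟩

/-! ### steps without the condition on the number of tokens -/

/-- the data of a step (helper40's `IsStepT`, no bound for the tokens) where `fr' = fr` is allowed: from a step `hs` one gets it by the fields wt, supp, sub, clo, unit, kill, star -/
structure StepA (G : MG V D) (z : D → ℝ) (fr : Finset V) (F : Finset D) (jm sx : Finset V)
    (z' : D → ℝ) (t' : V → ℝ) (fr' : Finset V) : Prop where
  wt : G.Wt z' t'
  supp : ∀ d ∈ G.ds, 0 < z' d → 0 < z d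
  sub : fr' ⊆ fr
  clo : ∀ d ∈ F, G.pi d ∈ fr' → G.pi (G.al d) ∈ fr'
  unit : ∀ d ∈ G.ds, G.pi d ∈ fr' → z' d = 1
  kill : ∀ X, G.Adm fr F X → Even (X ∩ jm).card → ¬ X ⊆ fr' → ∃ d ∈ G.bd X, z' d = 0
  star : (sx ⊆ fr' ∧ jm ⊆ fr') ∨ (Disjoint sx fr' ∧ Disjoint jm fr')

variable {z' : D → ℝ} {t' : V → ℝ} {fr' : Finset V} {M : Finset D}

theorem StepA.adm_up (hs : StepA G z fr F jm sx z' t' fr') {X : Finset V}
    (hX : G.Adm fr' (F.filter fun d => G.pi d ∈ fr') X) : G.Adm fr F X where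
  sub := fun _ hv => hs.sub (hX.sub hv)
  clo := fun d hd hp => hX.clo d (mem_filter.2 ⟨hd, hX.sub hp⟩) hp

private theorem frA_new (hs : StepA G z fr F jm sx z' t' fr') (h : G.FrS z fr F jm)
    {jm' : Finset V} (h1 : jm' ⊆ jm) (h2 : jm' ⊆ fr') (h3 : ∀ v ∈ fr', v ∈ jm → v ∈ jm') :
    G.FrS z' fr' (F.filter fun d => G.pi d ∈ fr') jm' where
  fsub := fun _ hv => h.fsub (hs.sub hv)
  Fsub := fun _ hd => h.Fsub (mem_filter.1 hd).1
  Fal := fun d hd => by
    obtain ⟨h1, h2⟩ := mem_filter.1 hd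
    exact mem_filter.2 ⟨h.Fal d h1, hs.clo d h1 h2⟩
  Ffr := fun _ hd => (mem_filter.1 hd).2
  two := fun v hv => by
    rw [← h.two v (hs.sub hv)]
    congr 1
    ext d
    rw [mem_filter, mem_filter, mem_filter]
    constructor
    · rintro ⟨⟨h4, -⟩, h5⟩
      exact ⟨h4, h5⟩
    · rintro ⟨h4, h5⟩
      exact ⟨⟨h4, by rw [h5]; exact hv⟩, h5⟩
  jms := h2
  jd := fun v hv hj => by
    have e : ((G.st v).filter fun d => d ∉ F.filter fun d => G.pi d ∈ fr') =
        (G.st v).filter fun d => d ∉ F := by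
      apply filter_congr
      intro d hd
      have hp : G.pi d = v := (mem_st.1 hd).2
      rw [mem_filter, hp]
      constructor
      · intro h4 h5
        exact h4 ⟨h5, hv⟩
      · intro h4 h5
        exact h4 h5.1
    rw [e]
    exact h.jd v (hs.sub hv) (fun h4 => hj (h3 v hv h4))
  j0 := fun v hv d hd => by
    refine mem_filter.2 ⟨h.j0 v (h1 hv) d hd, ?_⟩
    rw [(mem_st.1 hd).2]
    exact h2 hv
  unit := hs.unit

/-- the new instance (any number of tokens) -/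
theorem StepA.inst (hs : StepA G z fr F jm sx z' t' fr') (h : G.InstT z t fr F jm sx ep m) :
    ∃ jm' sx', G.InstT z' t' fr' (F.filter fun d => G.pi d ∈ fr') jm' sx' ep m ∧
      (sx' = sx ∨ (sx' = ∅ ∧ Disjoint sx fr')) := by
  rcases hs.star with ⟨s1, s2⟩ | ⟨s1, s2⟩
  · have hfr := frA_new hs h.fresh (Finset.Subset.refl _) s2 (fun v _ hv => hv)
    refine ⟨jm, sx, ⟨h.even, hs.wt, hfr, fun X hX => h.cc X (hs.adm_up hX),
      fun X hX => h.ev X (hs.adm_up hX), s1, ?_, h.jm2, ?_,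
      fun X hX => h.b0 X (hs.adm_up hX), fun v hv => h.epj v (hs.sub hv)⟩, Or.inl rfl⟩
    · rcases h.kind with h1 | ⟨h1, h2⟩
      · exact Or.inl h1
      · exact Or.inr ⟨h1, fun X hX v hv hvX => h2 X (hs.adm_up hX) v hv hvX⟩
    · intro hne
      rw [h.sx_eq] at hne ⊢
      have h1 : ∑ v ∈ jm, t' v = ∑ _v ∈ jm, (1 : ℝ) :=
        sum_congr rfl fun v hv => hfr.t_jm hs.wt hv
      rcases h.jm2 with h2 | h2
      · rw [h2] at hne
        exact absurd hne not_nonempty_empty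
      · rw [h1, sum_const, h2]
        norm_num
  · have hfr := frA_new hs h.fresh (empty_subset _) (empty_subset _)
      (fun v hv hj => absurd hv (fun hv => disjoint_left.1 s2 hj hv))
    refine ⟨∅, ∅, ⟨h.even, hs.wt, hfr, fun X hX => h.cc X (hs.adm_up hX),
      fun X hX => h.ev X (hs.adm_up hX), empty_subset _, Or.inl rfl, Or.inl rfl,
      fun hne => absurd hne not_nonempty_empty, fun _ _ _ hne => absurd hne not_nonempty_empty,
      ?_⟩, Or.inr ⟨rfl, s1⟩⟩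
    intro v hv
    have h1 := h.epj v (hs.sub hv)
    rw [if_neg (fun h2 => disjoint_left.1 s2 h2 hv)] at h1
    rw [if_neg (notMem_empty v)]
    exact h1

/-- lifting -/
theorem StepA.lift (hs : StepA G z fr F jm sx z' t' fr') (h : G.InstT z t fr F jm sx ep m)
    {sx' : Finset V} (hsx : sx' = sx ∨ (sx' = ∅ ∧ Disjoint sx fr'))
    (hM : G.GoodS z' fr' (F.filter fun d => G.pi d ∈ fr') sx' M) : G.GoodS z fr F sx M where
  pm := hM.pm
  pos := fun d hd => hs.supp d (hM.pm.sub hd) (hM.pos d hd)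
  hit := fun X hX ho => by
    by_contra hcon
    push Not at hcon
    have hev := h.fresh.closed_jm hM.pm hX hcon
    by_cases hXf : X ⊆ fr'
    · have hX' : G.Adm fr' (F.filter fun d => G.pi d ∈ fr') X :=
        ⟨hXf, fun d hd hp => hX.clo d (mem_filter.1 hd).1 hp⟩
      have ho' : Odd X.card ∨ (sx'.Nonempty ∧ sx' ⊆ X) := by
        rcases ho with ho | ⟨h1, h2⟩
        · exact Or.inl ho
        · rcases hsx with rfl | ⟨rfl, h3⟩
          · exact Or.inr ⟨h1, h2⟩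
          · exfalso
            obtain ⟨v, hv⟩ := h1
            exact disjoint_left.1 h3 hv (hXf (h2 hv))
      obtain ⟨d, hd, hdM⟩ := hM.hit X hX' ho'
      exact hdM (hcon d hd)
    · obtain ⟨d, hd, hz⟩ := hs.kill X hX hev hXf
      have h1 := hM.pos d (hcon d hd)
      rw [hz] at h1
      exact lt_irrefl _ h1

/-- a step without kills: another weight -/
theorem StepA.of_wt (h : G.InstS z t fr F jm sx ep m) (hw : G.Wt z' t')
    (hsupp : ∀ d ∈ G.ds, 0 < z' d → 0 < z d) (hu : ∀ d ∈ G.ds, G.pi d ∈ fr → z' d = 1) :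
    StepA G z fr F jm sx z' t' fr where
  wt := hw
  supp := hsupp
  sub := Finset.Subset.refl _
  clo := fun d hd _ => h.fresh.Ffr _ (h.fresh.Fal d hd)
  unit := hu
  kill := fun _ hX _ h1 => absurd hX.sub h1
  star := Or.inl ⟨h.sxs, h.fresh.jms⟩

/-- **glue above 6 in a minimal counterexample**: after a step to `(zb, tb, frb)` (any number of
tokens) with a J-bounded tight set `W` the outer instance has no weight with less than 6 tokens -/
theorem MCS.ga (h : G.MCS z t fr F jm sx ep m) {zb : D → ℝ} {tb : V → ℝ} {frb : Finset V}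
    (hs : StepA G z fr F jm sx zb tb frb) (hW : W ⊆ G.vs) (hWo : Odd W.card)
    (h3 : G.val zb tb W = 3) (hc1 : 3 ≤ W.card) (hc2 : 3 ≤ (G.vs \ W).card)
    (hFW : ∀ d ∈ F, G.pi d ∈ frb → G.pi d ∈ W → G.pi (G.al d) ∈ W) {ω : V} (hω : ω ∈ W)
    (hw1 : (G.con W ω hω hW).Wt z1 t1) (ht1 : ∑ v ∈ (G.con W ω hω hW).vs, t1 v < 6)
    (hz1 : ∀ d ∈ G.ds, zb d = 0 → z1 d = 0)
    (hu1 : ∀ d ∈ G.ds, G.pi d ∈ frb → G.pi d ∉ W → z1 d = 1) : False := by
  obtain ⟨jm', sx', h1, h2⟩ := hs.inst h.inst.toT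
  obtain ⟨M, hM⟩ := glueA h1 h.ih.toG (card_le_card hs.sub) le_rfl hW hWo h3 hc1 hc2
    (fun d hd hp => hFW d (mem_filter.1 hd).1 (mem_filter.1 hd).2 hp) hω hw1 ht1 hz1 hu1
  exact h.bad ⟨M, hs.lift h.inst.toT h2 hM⟩

end MG

end RH
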