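import Pool.Agent.Lib.RH.I4GlueJ
import Pool.Agent.Lib.RH.SGA

/-! The reset lemma of helper88 (helper68): an integral weighting `z'` with at most one unit on
every J-edge is reset to 1 on all circuits which are not joined to Q by dead darts. The result is
a step to a smaller instance; nothing about links is needed. -/

set_option autoImplicit false

namespace RH

open Finset Classical

namespace MG

variable {V D : Type*} {G : MG V D} {z z' : D → ℝ} {t t' : V → ℝ} {fr : Finset V} {F : Finset D}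
variable {jm sx : Finset V} {ep : V → ℕ} {m : ℕ}

/-- a symmetric natural function has an even sum over a set of darts closed under `al` -/
theorem sum_even_sym {g : D → ℕ} {S : Finset D} (hS : S ⊆ G.ds) (hcl : ∀ d ∈ S, G.al d ∈ S)
    (hg : ∀ d ∈ S, g (G.al d) = g d) : Even (∑ d ∈ S, g d) := by
  have h1 : ∑ d ∈ S, (g d : ZMod 2) = 0 := by
    refine sum_involution (fun d _ => G.al d) ?_ ?_ ?_ ?_
    · intro d hd
      rw [hg d hd]
      exact CharTwo.add_self_eq_zero _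
    · intro d hd _ he
      exact G.noloop d (hS hd) (by rw [he])
    · intro d hd
      exact hcl d hd
    · intro d hd
      exact G.al_al d (hS hd)
  rw [← ZMod.natCast_eq_zero_iff_even]
  push_cast
  exact h1

/-- the value of a set in terms of the inner weight; only the vertex sums are used -/
theorem val_eq_deg {X : Finset V} (hdeg : ∀ v ∈ X, ∑ d ∈ G.st v, z d + t v = 3) :
    G.val z t X + ∑ d ∈ G.ed X X, z d = 3 * X.card := by
  have h1 : ∑ v ∈ X, (∑ d ∈ G.st v, z d + t v) = 3 * (X.card : ℝ) := by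
    rw [sum_congr rfl fun v hv => hdeg v hv, sum_const, nsmul_eq_mul, mul_comm]
  have h2 : ∑ v ∈ X, ∑ d ∈ G.st v, z d = ∑ d ∈ G.bd X, z d + ∑ d ∈ G.ed X X, z d := by
    rw [← sum_biUnion, ← sum_union]
    · refine sum_congr ?_ fun _ _ => rfl
      ext d
      rw [mem_biUnion, mem_union, mem_bd, mem_ed]
      constructor
      · rintro ⟨v, hv, hd⟩
        rw [mem_st] at hd
        by_cases h3 : G.pi (G.al d) ∈ X
        · exact Or.inr ⟨hd.1, hd.2 ▸ hv, h3⟩
        · exact Or.inl ⟨hd.1, hd.2 ▸ hv, h3⟩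
      · rintro (hd | hd)
        · exact ⟨_, hd.2.1, mem_st.2 ⟨hd.1, rfl⟩⟩
        · exact ⟨_, hd.2.1, mem_st.2 ⟨hd.1, rfl⟩⟩
    · rw [disjoint_left]
      intro d h3 h4
      exact (mem_bd.1 h3).2.2 (mem_ed.1 h4).2.2
    · intro v _ w _ hvw
      change Disjoint (G.st v) (G.st w)
      rw [disjoint_left]
      intro d h3 h4
      exact hvw ((mem_st.1 h3).2.symm.trans (mem_st.1 h4).2)
  rw [sum_add_distrib, h2] at h1
  unfold val
  linarith

/-- for natural weights and tokens the value is a natural number of the parity of the set -/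
theorem val_par {X : Finset V} (hdeg : ∀ v ∈ X, ∑ d ∈ G.st v, z d + t v = 3)
    (hsym : ∀ d ∈ G.ds, z (G.al d) = z d) (hz : ∀ d ∈ G.ds, ∃ n : ℕ, z d = n)
    (ht : ∀ v ∈ X, ∃ n : ℕ, t v = n) :
    ∃ n : ℕ, G.val z t X = n ∧ n % 2 = X.card % 2 := by
  obtain ⟨a, ha⟩ := nat_sum (s := G.bd X) (f := z) fun d hd => hz d (mem_bd.1 hd).1
  obtain ⟨b, hb⟩ := nat_sum (s := X) (f := t) ht
  choose! g hg using hz
  have h1 : ∑ d ∈ G.ed X X, z d = ((∑ d ∈ G.ed X X, g d : ℕ) : ℝ) := by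
    rw [sum_congr rfl fun d hd => hg d (mem_ed.1 hd).1]
    push_cast
    rfl
  have h2 : Even (∑ d ∈ G.ed X X, g d) := by
    refine sum_even_sym (G := G) (fun d hd => (mem_ed.1 hd).1) ?_ ?_
    · intro d hd
      obtain ⟨h3, h4, h5⟩ := mem_ed.1 hd
      exact mem_ed.2 ⟨G.al_mem d h3, h5, by rw [G.al_al d h3]; exact h4⟩
    · intro d hd
      obtain ⟨h3, -, -⟩ := mem_ed.1 hd
      have h4 := hsym d h3
      rw [hg d h3, hg _ (G.al_mem d h3)] at h4
      exact_mod_cast h4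
  have h3 := val_eq_deg (G := G) (z := z) (t := t) hdeg
  refine ⟨a + b, by unfold val; rw [ha, hb]; push_cast; rfl, ?_⟩
  have h4 : G.val z t X = ((a + b : ℕ) : ℝ) := by
    unfold val
    rw [ha, hb]
    push_cast
    rfl
  rw [h4, h1] at h3
  have h5 : (a + b) + ∑ d ∈ G.ed X X, g d = 3 * X.card := by exact_mod_cast h3
  obtain ⟨k, hk⟩ := h2
  omega

/-- integral weights on the same graph, at most 1 on the J-edges -/
structure IntW (G : MG V D) (z : D → ℝ) (fr : Finset V) (F : Finset D) (z' : D → ℝ)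
    (t' : V → ℝ) : Prop where
  wt : G.Wt z' t'
  zi : ∀ d ∈ G.ds, ∃ n : ℕ, z' d = n
  supp : ∀ d ∈ G.ds, 0 < z' d → 0 < z d
  jle : ∀ d ∈ G.ds, d ∉ F → G.pi d ∈ fr → G.pi (G.al d) ∈ fr → z' d ≤ 1

/-- the tokens of integral weights are integral -/
theorem IntW.ti (h : IntW G z fr F z' t') : ∀ v ∈ G.vs, ∃ n : ℕ, t' v = n := by
  intro v hv
  obtain ⟨a, ha⟩ := nat_sum (s := G.st v) (f := z') fun d hd => h.zi d (mem_st.1 hd).1
  have h1 := h.wt.deg v hv
  have h2 := h.wt.t0 v hv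
  rw [ha] at h1
  have h3 : (a : ℝ) ≤ 3 := by linarith
  have h4 : a ≤ 3 := by exact_mod_cast h3
  refine ⟨3 - a, ?_⟩
  rw [Nat.cast_sub h4]
  push_cast
  linarith

/-- unions of classes which no dead dart leaves -/
def DeadC (G : MG V D) (fr : Finset V) (F : Finset D) (jm : Finset V) (z' : D → ℝ)
    (X : Finset V) : Prop :=
  G.Adm fr F X ∧ (jm ⊆ X ∨ Disjoint jm X) ∧ ∀ d ∈ G.bd X, z' d ≠ 0

/-- **reset lemma** (helper88) -/
theorem reset (h : G.InstS z t fr F jm sx ep m) (hi : IntW G z fr F z' t')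
    (hclean : ∀ X, DeadC G fr F jm z' X → (∀ d ∈ G.bd X, z' d = 1) ∧ ∀ v ∈ X, t' v = t v) :
    ∃ fr' z'', StepA G z fr F jm sx z'' t' fr' ∧ (∀ d ∈ G.ds, ∃ n : ℕ, z'' d = n) ∧
      DeadC G fr F jm z' fr' := by
  have hF := h.fresh
  obtain ⟨V', hV'⟩ : ∃ V' : Finset V, V' = fr.filter fun v => ∃ X, DeadC G fr F jm z' X ∧ v ∈ X :=
    ⟨_, rfl⟩
  have hmem : ∀ v, v ∈ V' ↔ ∃ X, DeadC G fr F jm z' X ∧ v ∈ X := by
    intro v
    rw [hV', mem_filter]
    constructor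
    · exact fun h1 => h1.2
    · rintro ⟨X, h1, h2⟩
      exact ⟨h1.1.sub h2, X, h1, h2⟩
  have hmax : ∀ X, DeadC G fr F jm z' X → X ⊆ V' := fun X hX v hv => (hmem v).2 ⟨X, hX, hv⟩
  have hadm : G.Adm fr F V' := by
    refine ⟨fun v hv => ?_, fun d hd hp => ?_⟩
    · obtain ⟨X, h1, h2⟩ := (hmem v).1 hv
      exact h1.1.sub h2
    · obtain ⟨X, h1, h2⟩ := (hmem _).1 hp
      exact (hmem _).2 ⟨X, h1, h1.1.clo d hd h2⟩
  have hbd : ∀ d ∈ G.bd V', z' d ≠ 0 := by
    intro d hd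
    obtain ⟨h1, h2, h3⟩ := mem_bd.1 hd
    obtain ⟨X, h4, h5⟩ := (hmem _).1 h2
    exact h4.2.2 d (mem_bd.2 ⟨h1, h5, fun h6 => h3 (hmax X h4 h6)⟩)
  have hjm : jm ⊆ V' ∨ Disjoint jm V' := by
    by_cases h1 : ∃ v ∈ jm, v ∈ V'
    · obtain ⟨v, h2, h3⟩ := h1
      obtain ⟨X, h4, h5⟩ := (hmem v).1 h3
      rcases h4.2.1 with h6 | h6
      · exact Or.inl (h6.trans (hmax X h4))
      · exact absurd h5 (disjoint_left.1 h6 h2)
    · right
      rw [disjoint_left]
      intro v h2 h3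
      exact h1 ⟨v, h2, h3⟩
  have hD : DeadC G fr F jm z' V' := ⟨hadm, hjm, hbd⟩
  obtain ⟨hone, htok⟩ := hclean V' hD
  have hVfr : V' ⊆ fr := hadm.sub
  obtain ⟨z2, hz2⟩ : ∃ z2 : D → ℝ, z2 = fun d =>
    if G.pi d ∈ V' ∧ G.pi (G.al d) ∈ V' then 1 else z' d := ⟨_, rfl⟩
  have hin : ∀ d, G.pi d ∈ V' → G.pi (G.al d) ∈ V' → z2 d = 1 := by
    intro d h1 h2
    rw [hz2]
    exact if_pos ⟨h1, h2⟩
  have hout : ∀ d, ¬ (G.pi d ∈ V' ∧ G.pi (G.al d) ∈ V') → z2 d = z' d := by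
    intro d h1
    rw [hz2]
    exact if_neg h1
  have hunit : ∀ d ∈ G.ds, G.pi d ∈ V' → z2 d = 1 := by
    intro d hd hp
    by_cases h1 : G.pi (G.al d) ∈ V'
    · exact hin d hp h1
    · rw [hout d fun h2 => h1 h2.2]
      exact hone d (mem_bd.2 ⟨hd, hp, h1⟩)
  have hsym : ∀ d ∈ G.ds, z2 (G.al d) = z2 d := by
    intro d hd
    by_cases h1 : G.pi d ∈ V' ∧ G.pi (G.al d) ∈ V'
    · rw [hin d h1.1 h1.2, hin (G.al d) h1.2 (by rw [G.al_al d hd]; exact h1.1)]
    · rw [hout d h1, hout (G.al d) (by rw [G.al_al d hd]; exact fun h2 => h1 ⟨h2.2, h2.1⟩)]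
      exact hi.wt.sym d hd
  have hnat : ∀ d ∈ G.ds, ∃ n : ℕ, z2 d = n := by
    intro d hd
    by_cases h1 : G.pi d ∈ V' ∧ G.pi (G.al d) ∈ V'
    · exact ⟨1, by rw [hin d h1.1 h1.2]; norm_num⟩
    · rw [hout d h1]
      exact hi.zi d hd
  have hdeg : ∀ v ∈ G.vs, ∑ d ∈ G.st v, z2 d + t' v = 3 := by
    intro v hv
    by_cases h1 : v ∈ V'
    · have h2 : ∑ d ∈ G.st v, z2 d = ∑ d ∈ G.st v, z d := by
        refine sum_congr rfl fun d hd => ?_
        obtain ⟨h3, h4⟩ := mem_st.1 hd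
        rw [hunit d h3 (h4 ▸ h1), hF.unit d h3 (h4 ▸ hVfr h1)]
      rw [h2, htok v h1]
      exact h.wt.deg v hv
    · have h2 : ∑ d ∈ G.st v, z2 d = ∑ d ∈ G.st v, z' d := by
        refine sum_congr rfl fun d hd => ?_
        obtain ⟨-, h4⟩ := mem_st.1 hd
        exact hout d fun h5 => h1 (h4 ▸ h5.1)
      rw [h2]
      exact hi.wt.deg v hv
  have hcut : ∀ W ⊆ G.vs, Odd W.card → 3 ≤ G.val z2 t' W := by
    intro W hW hWo
    by_contra hlt
    push Not at hlt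
    obtain ⟨n, hn, hpar⟩ := val_par (G := G) (z := z2) (t := t') (X := W)
      (fun v hv => hdeg v (hW hv)) hsym hnat (fun v hv => hi.ti v (hW hv))
    have hn1 : n = 1 := by
      rw [hn] at hlt
      have h1 : n < 3 := by exact_mod_cast hlt
      rw [Nat.odd_iff] at hWo
      omega
    have hval1 : G.val z2 t' W = 1 := by rw [hn, hn1]; norm_num
    have hnn : ∀ d ∈ G.bd W, 0 ≤ z2 d := by
      intro d hd
      obtain ⟨k, hk⟩ := hnat d (mem_bd.1 hd).1
      rw [hk]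
      exact Nat.cast_nonneg k
    have htn : 0 ≤ ∑ v ∈ W, t' v := sum_nonneg fun v hv => hi.wt.t0 v (hW hv)
    -- no F-dart inside `V'` crosses
    have hnoF : ∀ d ∈ G.bd W, d ∈ F → G.pi d ∈ V' → False := by
      intro d0 hd0 hd0F hd0V
      obtain ⟨S, hS⟩ : ∃ S : Finset D, S = (G.bd W).filter fun d => d ∈ F ∧ G.pi d ∈ V' := ⟨_, rfl⟩
      have hd0S : d0 ∈ S := by
        rw [hS]
        exact mem_filter.2 ⟨hd0, hd0F, hd0V⟩
      have hA : (F.filter fun d => G.pi d ∈ W ∩ V').card = 2 * (W ∩ V').card := by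
        rw [card_eq_sum_card_fiberwise (f := G.pi) (s := F.filter fun d => G.pi d ∈ W ∩ V')
          (t := W ∩ V') (fun d hd => (mem_filter.1 (mem_coe.1 hd)).2)]
        rw [sum_congr rfl fun v hv => ?_, sum_const, smul_eq_mul, mul_comm]
        have h1 := hF.two v (hVfr (mem_inter.1 hv).2)
        rw [← h1]
        congr 1
        ext d
        rw [mem_filter, mem_filter, mem_filter]
        constructor
        · rintro ⟨⟨h2, -⟩, h3⟩
          exact ⟨h2, h3⟩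
        · rintro ⟨h2, h3⟩
          exact ⟨⟨h2, h3 ▸ hv⟩, h3⟩
      have hI : Even ((F.filter fun d => G.pi d ∈ W ∩ V').filter
          fun d => G.pi (G.al d) ∈ W ∩ V').card := by
        have h1 := sum_even_sym (G := G) (g := fun _ => 1)
          (S := (F.filter fun d => G.pi d ∈ W ∩ V').filter fun d => G.pi (G.al d) ∈ W ∩ V')
          (fun d hd => hF.Fsub (mem_filter.1 (mem_filter.1 hd).1).1) ?_ (fun _ _ => rfl)
        · rwa [sum_const, smul_eq_mul, mul_one] at h1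
        · intro d hd
          obtain ⟨h2, h3⟩ := mem_filter.1 hd
          obtain ⟨h4, h5⟩ := mem_filter.1 h2
          refine mem_filter.2 ⟨mem_filter.2 ⟨hF.Fal d h4, h3⟩, ?_⟩
          rw [G.al_al d (hF.Fsub h4)]
          exact h5
      have hSeq : S = (F.filter fun d => G.pi d ∈ W ∩ V').filter
          fun d => ¬ G.pi (G.al d) ∈ W ∩ V' := by
        ext d
        rw [hS, mem_filter, mem_filter, mem_filter, mem_bd, mem_inter, mem_inter]
        constructor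
        · rintro ⟨⟨-, h2, h3⟩, h4, h5⟩
          exact ⟨⟨h4, h2, h5⟩, fun h6 => h3 h6.1⟩
        · rintro ⟨⟨h2, h3, h4⟩, h5⟩
          exact ⟨⟨hF.Fsub h2, h3, fun h6 => h5 ⟨h6, hadm.clo d h2 h4⟩⟩, h2, h4⟩
      have hsum := card_filter_add_card_filter_not
        (s := F.filter fun d => G.pi d ∈ W ∩ V') (fun d => G.pi (G.al d) ∈ W ∩ V')
      have hpos : 0 < S.card := card_pos.2 ⟨d0, hd0S⟩
      have h2 : 2 ≤ S.card := by
        rw [← hSeq] at hsum
        obtain ⟨k, hk⟩ := hI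
        omega
      have h3 : ∑ d ∈ S, z2 d = S.card := by
        rw [sum_congr rfl fun d hd => ?_, sum_const, nsmul_eq_mul, mul_one]
        rw [hS] at hd
        obtain ⟨h4, h5, h6⟩ := mem_filter.1 hd
        exact hunit d (mem_bd.1 h4).1 h6
      have h4 : ∑ d ∈ S, z2 d ≤ ∑ d ∈ G.bd W, z2 d := by
        refine sum_le_sum_of_subset_of_nonneg ?_ fun d hd _ => hnn d hd
        rw [hS]
        exact filter_subset _ _
      have h5 : (2 : ℝ) ≤ S.card := by exact_mod_cast h2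
      unfold val at hval1
      linarith
    have hle : ∑ d ∈ G.bd W, z' d ≤ ∑ d ∈ G.bd W, z2 d := by
      refine sum_le_sum fun d hd => ?_
      by_cases h1 : G.pi d ∈ V' ∧ G.pi (G.al d) ∈ V'
      · rw [hin d h1.1 h1.2]
        exact hi.jle d (mem_bd.1 hd).1 (fun h2 => hnoF d hd h2 h1.1) (hVfr h1.1) (hVfr h1.2)
      · rw [hout d h1]
    have h1 := hi.wt.cut W hW hWo
    unfold val at h1 hval1
    linarith
  refine ⟨V', z2, ⟨⟨?_, hi.wt.t0, hsym, hdeg, hcut⟩, ?_, hVfr, fun d hd hp => hadm.clo d hd hp,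
    hunit, ?_, ?_⟩, hnat, hD⟩
  · intro d hd
    obtain ⟨k, hk⟩ := hnat d hd
    rw [hk]
    exact Nat.cast_nonneg k
  · intro d hd hp
    by_cases h1 : G.pi d ∈ V' ∧ G.pi (G.al d) ∈ V'
    · rw [hF.unit d hd (hVfr h1.1)]
      norm_num
    · rw [hout d h1] at hp
      exact hi.supp d hd hp
  · intro X hX hev hXV
    have hXjm : jm ⊆ X ∨ Disjoint jm X := by
      rcases h.jm2 with h1 | h1
      · rw [h1]
        exact Or.inl (empty_subset _)
      · have h2 : (X ∩ jm).card ≤ 2 := by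
          rw [← h1]
          exact card_le_card inter_subset_right
        obtain ⟨k, hk⟩ := hev
        rcases Nat.eq_zero_or_pos (X ∩ jm).card with h3 | h3
        · right
          rw [card_eq_zero] at h3
          rw [disjoint_comm, disjoint_iff_inter_eq_empty]
          exact h3
        · left
          have h4 : (X ∩ jm) = jm := eq_of_subset_of_card_le inter_subset_right (by omega)
          rw [← h4]
          exact inter_subset_left
    have hYjm : jm ⊆ X ∪ V' ∨ Disjoint jm (X ∪ V') := by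
      rcases hXjm with h1 | h1
      · exact Or.inl (h1.trans subset_union_left)
      · rcases hjm with h2 | h2
        · exact Or.inl (h2.trans subset_union_right)
        · exact Or.inr (disjoint_union_right.2 ⟨h1, h2⟩)
    have hYadm : G.Adm fr F (X ∪ V') := by
      refine ⟨union_subset hX.sub hVfr, fun d hd hp => ?_⟩
      rcases mem_union.1 hp with h1 | h1
      · exact mem_union_left _ (hX.clo d hd h1)
      · exact mem_union_right _ (hadm.clo d hd h1)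
    have hnot : ¬ ∀ d ∈ G.bd (X ∪ V'), z' d ≠ 0 := fun h1 =>
      hXV (subset_union_left.trans (hmax _ ⟨hYadm, hYjm, h1⟩))
    push Not at hnot
    obtain ⟨d, hd, hd0⟩ := hnot
    obtain ⟨h1, h2, h3⟩ := mem_bd.1 hd
    have h4 : G.pi d ∉ V' := fun h5 =>
      hbd d (mem_bd.2 ⟨h1, h5, fun h6 => h3 (mem_union_right _ h6)⟩) hd0
    have h5 : G.pi d ∈ X := by
      rcases mem_union.1 h2 with h6 | h6
      · exact h6
      · exact absurd h6 h4
    refine ⟨d, mem_bd.2 ⟨h1, h5, fun h6 => h3 (mem_union_left _ h6)⟩, ?_⟩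
    rw [hout d fun h6 => h4 h6.1]
    exact hd0
  · rcases h.kind with h1 | ⟨h1, h2⟩
    · rw [← h1]
      rcases hjm with h3 | h3
      · exact Or.inl ⟨h3, h3⟩
      · exact Or.inr ⟨h3, h3⟩
    · rw [h1]
      by_cases h3 : ∃ v ∈ sx, v ∈ V'
      · obtain ⟨v, h4, h5⟩ := h3
        exact Or.inl ⟨h2 V' hadm v h4 h5, empty_subset _⟩
      · right
        refine ⟨?_, disjoint_empty_left _⟩
        rw [disjoint_left]
        intro v h4 h5
        exact h3 ⟨v, h4, h5⟩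

/-- comparison of the parities of two integral weightings of the same graph -/
theorem par_eq {X : Finset V} (hX : X ⊆ G.vs) (hw : G.Wt z t) (hw' : G.Wt z' t')
    (hz : ∀ d ∈ G.ds, ∃ n : ℕ, z d = n) (ht : ∀ v ∈ G.vs, ∃ n : ℕ, t v = n)
    (hz' : ∀ d ∈ G.ds, ∃ n : ℕ, z' d = n) (ht' : ∀ v ∈ G.vs, ∃ n : ℕ, t' v = n) :
    ∃ a b : ℕ, G.val z t X = a ∧ G.val z' t' X = b ∧ a % 2 = b % 2 := by
  obtain ⟨a, h1, h2⟩ := val_par (G := G) (X := X) (fun v hv => hw.deg v (hX hv)) hw.sym hz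
    (fun v hv => ht v (hX hv))
  obtain ⟨b, h3, h4⟩ := val_par (G := G) (X := X) (fun v hv => hw'.deg v (hX hv)) hw'.sym hz'
    (fun v hv => ht' v (hX hv))
  exact ⟨a, b, h1, h3, by omega⟩

/-- a boundary dart of an admissible set is not in `F` and lies at a fresh vertex -/
theorem adm_bd_notF {X : Finset V} (hX : G.Adm fr F X) {d : D} (hd : d ∈ G.bd X) : d ∉ F := by
  obtain ⟨-, h2, h3⟩ := mem_bd.1 hd
  exact fun h4 => h3 (hX.clo d h4 h2)

/-- value of an admissible set under the unit weights -/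
theorem adm_bd_sum (hF : G.FrS z fr F jm) {X : Finset V} (hX : G.Adm fr F X) :
    ∑ d ∈ G.bd X, z d = (G.bd X).card := by
  rw [sum_congr rfl fun d hd => ?_, sum_const, nsmul_eq_mul, mul_one]
  obtain ⟨h1, h2, -⟩ := mem_bd.1 hd
  exact hF.unit d h1 (hX.sub h2)

/-- clean sets for a start at a leg `e0` with two units -/
theorem clean_leg (h : G.InstS z t fr F jm sx ep m) (h4 : Int4 G z t)
    (hi : IntW G z fr F z' t') (htf : ∀ v ∈ fr, t' v = t v) {e0 : D} (he0 : e0 ∈ G.ds)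
    (hx : G.pi e0 ∈ fr) (hv : G.pi (G.al e0) ∉ fr) (h2 : z' e0 = 2)
    (hle : ∀ d ∈ G.ds, d ∉ F → G.pi d ∈ fr → d ≠ e0 → z' d ≤ 1) {X : Finset V}
    (hX : DeadC G fr F jm z' X) :
    ((∀ d ∈ G.bd X, z' d = 1) ∧ ∀ v ∈ X, t' v = t v) ∧ G.pi e0 ∉ X := by
  have hF := h.fresh
  have hXv : X ⊆ G.vs := hX.1.sub.trans hF.fsub
  have h1 : ∀ d ∈ G.bd X, d ≠ e0 → z' d = 1 := by
    intro d hd hne
    obtain ⟨a, b, -⟩ := mem_bd.1 hd
    obtain ⟨n, hn⟩ := hi.zi d a
    have h5 := hle d a (adm_bd_notF hX.1 hd) (hX.1.sub b) hne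
    have h6 := hX.2.2 d hd
    rw [hn] at h5 h6 ⊢
    have h7 : n ≤ 1 := by exact_mod_cast h5
    have h8 : n ≠ 0 := by exact_mod_cast h6
    have h9 : n = 1 := by omega
    rw [h9]
    norm_num
  have h0 : G.pi e0 ∉ X := by
    intro hxX
    have hb : e0 ∈ G.bd X := mem_bd.2 ⟨he0, hxX, fun h5 => hv (hX.1.sub h5)⟩
    have hs1 := adm_bd_sum hF hX.1
    have hs2 : ∑ d ∈ G.bd X, z' d = (G.bd X).card + 1 := by
      rw [← add_sum_erase _ _ hb, h2, sum_congr rfl fun d hd =>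
        h1 d (mem_of_mem_erase hd) (ne_of_mem_erase hd), sum_const, nsmul_eq_mul, mul_one,
        card_erase_of_mem hb]
      have h5 : 1 ≤ (G.bd X).card := card_pos.2 ⟨e0, hb⟩
      rw [Nat.cast_sub h5]
      push_cast
      ring
    obtain ⟨a, b, ha, hb', hab⟩ := par_eq hXv h.wt hi.wt h4.zi h4.ti hi.zi hi.ti
    have hs3 : ∑ v ∈ X, t' v = ∑ v ∈ X, t v := sum_congr rfl fun v hv => htf v (hX.1.sub hv)
    unfold val at ha hb'
    rw [hs1] at ha
    rw [hs2, hs3] at hb'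
    have h5 : (b : ℝ) = a + 1 := by linarith
    have h6 : b = a + 1 := by exact_mod_cast h5
    omega
  refine ⟨⟨fun d hd => h1 d hd ?_, fun v hv => htf v (hX.1.sub hv)⟩, h0⟩
  rintro rfl
  exact h0 (mem_bd.1 hd).2.1

/-- clean sets for a start at a star vertex `x1` whose token is removed -/
theorem clean_star (h : G.InstS z t fr F jm sx ep m) (h4 : Int4 G z t)
    (hi : IntW G z fr F z' t') {x1 : V} (hx1 : x1 ∈ jm) (hx0 : t' x1 = 0)
    (htf : ∀ v ∈ fr, v ≠ x1 → t' v = t v)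
    (hle : ∀ d ∈ G.ds, d ∉ F → G.pi d ∈ fr → z' d ≤ 1) {X : Finset V}
    (hX : DeadC G fr F jm z' X) :
    ((∀ d ∈ G.bd X, z' d = 1) ∧ ∀ v ∈ X, t' v = t v) ∧ Disjoint jm X := by
  have hF := h.fresh
  have hXv : X ⊆ G.vs := hX.1.sub.trans hF.fsub
  have h1 : ∀ d ∈ G.bd X, z' d = 1 := by
    intro d hd
    obtain ⟨a, b, -⟩ := mem_bd.1 hd
    obtain ⟨n, hn⟩ := hi.zi d a
    have h5 := hle d a (adm_bd_notF hX.1 hd) (hX.1.sub b)
    have h6 := hX.2.2 d hd
    rw [hn] at h5 h6 ⊢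
    have h7 : n ≤ 1 := by exact_mod_cast h5
    have h8 : n ≠ 0 := by exact_mod_cast h6
    have h9 : n = 1 := by omega
    rw [h9]
    norm_num
  have h0 : x1 ∉ X := by
    intro hxX
    have hs1 := adm_bd_sum hF hX.1
    have hs2 : ∑ d ∈ G.bd X, z' d = (G.bd X).card := by
      rw [sum_congr rfl h1, sum_const, nsmul_eq_mul, mul_one]
    obtain ⟨a, b, ha, hb', hab⟩ := par_eq hXv h.wt hi.wt h4.zi h4.ti hi.zi hi.ti
    have ht1 : t x1 = 1 := hF.t_jm h.wt hx1
    have hs3 : ∑ v ∈ X, t v = ∑ v ∈ X, t' v + 1 := by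
      rw [← add_sum_erase _ _ hxX, ← add_sum_erase _ _ hxX, ht1, hx0, sum_congr rfl fun v hv =>
        htf v (hX.1.sub (mem_of_mem_erase hv)) (ne_of_mem_erase hv)]
      ring
    unfold val at ha hb'
    rw [hs1, hs3] at ha
    rw [hs2] at hb'
    have h5 : (a : ℝ) = b + 1 := by linarith
    have h6 : a = b + 1 := by exact_mod_cast h5
    omega
  refine ⟨⟨h1, fun v hv => htf v (hX.1.sub hv) ?_⟩, ?_⟩
  · rintro rfl
    exact h0 hv
  · rcases hX.2.1 with h5 | h5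
    · exact absurd (h5 hx1) h0
    · exact h5

/-- **end of the argument, start at a leg**: integral weights as in (INT) give a smaller instance
of the class `Int4`; `ih` is the induction hypothesis for fewer fresh vertices -/
theorem int_leg (h : G.InstS z t fr F jm sx ep m) (h4 : Int4 G z t)
    (hi : IntW G z fr F z' t') (htf : ∀ v ∈ fr, t' v = t v) (ht4 : ∑ v ∈ G.vs, t' v ≤ 4)
    {e0 : D} (he0 : e0 ∈ G.ds) (hx : G.pi e0 ∈ fr) (hv : G.pi (G.al e0) ∉ fr) (h2 : z' e0 = 2)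
    (hle : ∀ d ∈ G.ds, d ∉ F → G.pi d ∈ fr → d ≠ e0 → z' d ≤ 1)
    (ih : ∀ (z'' : D → ℝ) (t'' : V → ℝ) (fr'' : Finset V) (F'' : Finset D) (jm'' sx'' : Finset V),
      fr''.card < fr.card → Int4 G z'' t'' → G.InstS z'' t'' fr'' F'' jm'' sx'' ep m →
        ∃ M, G.GoodS z'' fr'' F'' sx'' M) :
    ∃ M, G.GoodS z fr F sx M := by
  have hc := fun X hX => clean_leg h h4 hi htf he0 hx hv h2 hle (X := X) hX
  obtain ⟨fr', z'', hs, hnat, hD⟩ := reset h hi fun X hX => (hc X hX).1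
  have hcard : fr'.card < fr.card := by
    refine card_lt_card ((ssubset_iff_of_subset hs.sub).2 ⟨_, hx, (hc fr' hD).2⟩)
  obtain ⟨jm', sx', h5, h6⟩ := hs.inst h.toT
  obtain ⟨M, hM⟩ := ih z'' t' fr' _ jm' sx' hcard ⟨hnat, hi.ti, ht4⟩ (h5.toS (by linarith))
  exact ⟨M, hs.lift h.toT h6 hM⟩

/-- **end of the argument, start at a star vertex** -/
theorem int_star (h : G.InstS z t fr F jm sx ep m) (h4 : Int4 G z t)
    (hi : IntW G z fr F z' t') (ht4 : ∑ v ∈ G.vs, t' v ≤ 4) {x1 : V} (hx1 : x1 ∈ jm)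
    (hx0 : t' x1 = 0) (htf : ∀ v ∈ fr, v ≠ x1 → t' v = t v)
    (hle : ∀ d ∈ G.ds, d ∉ F → G.pi d ∈ fr → z' d ≤ 1)
    (ih : ∀ (z'' : D → ℝ) (t'' : V → ℝ) (fr'' : Finset V) (F'' : Finset D) (jm'' sx'' : Finset V),
      fr''.card < fr.card → Int4 G z'' t'' → G.InstS z'' t'' fr'' F'' jm'' sx'' ep m →
        ∃ M, G.GoodS z'' fr'' F'' sx'' M) :
    ∃ M, G.GoodS z fr F sx M := by
  have hc := fun X hX => clean_star h h4 hi hx1 hx0 htf hle (X := X) hX
  obtain ⟨fr', z'', hs, hnat, hD⟩ := reset h hi fun X hX => (hc X hX).1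
  have hcard : fr'.card < fr.card := by
    refine card_lt_card ((ssubset_iff_of_subset hs.sub).2 ⟨x1, h.fresh.jms hx1, fun h5 => ?_⟩)
    exact disjoint_left.1 (hc fr' hD).2 hx1 h5
  obtain ⟨jm', sx', h5, h6⟩ := hs.inst h.toT
  obtain ⟨M, hM⟩ := ih z'' t' fr' _ jm' sx' hcard ⟨hnat, hi.ti, ht4⟩ (h5.toS (by linarith))
  exact ⟨M, hs.lift h.toT h6 hM⟩

end MG

end RH
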