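import Pool.Agent.Lib.RH.I4Def
import Pool.Agent.Lib.RH.I4Reset

/-! The interface (INT) of the class `Int4` (helper92, statement of helper88): integral weights with
start condition and at most one unit on every other J-edge. A minimal counterexample has no such
weights (helper68's reset lemma), so the rho theorem for `Int4` follows from their existence. -/

set_option autoImplicit false

namespace RH

open Finset Classical

namespace MG

variable {V D : Type*} {G : MG V D} {z z' : D → ℝ} {t t' : V → ℝ} {fr : Finset V} {F : Finset D}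
variable {jm sx : Finset V} {ep : V → ℕ} {m : ℕ}

/-- (INT), start at a leg `e0` (two units on it) -/
structure IntL (G : MG V D) (z : D → ℝ) (t : V → ℝ) (fr : Finset V) (F : Finset D)
    (z' : D → ℝ) (t' : V → ℝ) (e0 : D) : Prop where
  int : IntW G z fr F z' t'
  tf : ∀ v ∈ fr, t' v = t v
  tau : ∑ v ∈ G.vs, t' v ≤ 4
  ed : e0 ∈ G.ds
  ex : G.pi e0 ∈ fr
  ev : G.pi (G.al e0) ∉ fr
  two : z' e0 = 2
  le : ∀ d ∈ G.ds, d ∉ F → G.pi d ∈ fr → d ≠ e0 → z' d ≤ 1

/-- (INT), start at a star vertex `x1` (its token is removed) -/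
structure IntS (G : MG V D) (z : D → ℝ) (t : V → ℝ) (fr : Finset V) (F : Finset D) (jm : Finset V)
    (z' : D → ℝ) (t' : V → ℝ) (x1 : V) : Prop where
  int : IntW G z fr F z' t'
  tau : ∑ v ∈ G.vs, t' v ≤ 4
  ex : x1 ∈ jm
  zero : t' x1 = 0
  tf : ∀ v ∈ fr, v ≠ x1 → t' v = t v
  le : ∀ d ∈ G.ds, d ∉ F → G.pi d ∈ fr → z' d ≤ 1

/-- **a minimal counterexample has no weights as in (INT), start at a leg** -/
theorem MCI.no_intL (h : G.MCI z t fr F jm sx ep m) {e0 : D}
    (hi : IntL G z t fr F z' t' e0) : False :=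
  h.bad (int_leg h.inst h.i4 hi.int hi.tf hi.tau hi.ed hi.ex hi.ev hi.two hi.le
    fun z'' t'' fr'' F'' jm'' sx'' hlt h4 hI => h.ih G z'' t'' fr'' F'' jm'' sx'' ep (Or.inl hlt) h4 hI)

/-- **a minimal counterexample has no weights as in (INT), start at a star vertex** -/
theorem MCI.no_intS (h : G.MCI z t fr F jm sx ep m) {x1 : V}
    (hi : IntS G z t fr F jm z' t' x1) : False :=
  h.bad (int_star h.inst h.i4 hi.int hi.tau hi.ex hi.zero hi.tf hi.le
    fun z'' t'' fr'' F'' jm'' sx'' hlt h4 hI => h.ih G z'' t'' fr'' F'' jm'' sx'' ep (Or.inl hlt) h4 hI)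

/-- the statement (INT): every minimal counterexample of the class has such weights -/
def REACHI (V D : Type*) (m : ℕ) : Prop :=
  ∀ (G : MG V D) (z : D → ℝ) (t : V → ℝ) (fr : Finset V) (F : Finset D) (jm sx : Finset V)
    (ep : V → ℕ), G.MCI z t fr F jm sx ep m →
    (∃ z' t' e0, IntL G z t fr F z' t' e0) ∨ ∃ z' t' x1, IntS G z t fr F jm z' t' x1

theorem REACHI.no_mci {V D : Type*} {m : ℕ} (h : REACHI V D m) (G : MG V D) (z : D → ℝ)
    (t : V → ℝ) (fr : Finset V) (F : Finset D) (jm sx : Finset V) (ep : V → ℕ) :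
    ¬ G.MCI z t fr F jm sx ep m := by
  intro hm
  rcases h G z t fr F jm sx ep hm with ⟨z', t', e0, h1⟩ | ⟨z', t', x1, h1⟩
  · exact hm.no_intL h1
  · exact hm.no_intS h1

/-- the rho theorem for the class `Int4` from (INT) -/
theorem REACHI.sol {V D : Type*} {m : ℕ} (h : REACHI V D m) (G : MG V D) (z : D → ℝ)
    (t : V → ℝ) (fr : Finset V) (F : Finset D) (jm sx : Finset V) (ep : V → ℕ)
    (h4 : Int4 G z t) (hI : G.InstS z t fr F jm sx ep m) : ∃ M, G.GoodS z fr F sx M :=
  exists_goodI h.no_mci G z t fr F jm sx ep h4 hI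

end MG

end RH
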