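import Pool.Agent.Lib.RH.I4StrictB
import Pool.Agent.Lib.RH.I4Reach

/-! Normal form of a minimal counterexample of the class `Int4` (helper6, statement of helper88):
a vertex with a token outside the circuits has no neighbour outside the circuits. A unit of the
tokens of `v` is moved over `w` to `u`: the edge `v w` gains one unit, the edge `w u` loses one. -/

set_option autoImplicit false

namespace RH

open Finset Classical

namespace MG

variable {V D : Type*} {G : MG V D} {z : D → ℝ} {t : V → ℝ} {fr : Finset V} {F : Finset D}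
variable {jm sx : Finset V} {ep : V → ℕ} {m : ℕ} {e g : D}

/-- one unit more on the edge of `e`, one unit less on the edge of `g` -/
noncomputable def mvz (G : MG V D) (z : D → ℝ) (e g : D) (d : D) : ℝ :=
  z d + (if d = e then 1 else 0) + (if d = G.al e then 1 else 0) - (if d = g then 1 else 0) -
    (if d = G.al g then 1 else 0)

/-- one token from `v` to `u` -/
noncomputable def mvt (t : V → ℝ) (v u : V) (x : V) : ℝ :=
  t x - (if x = v then 1 else 0) + (if x = u then 1 else 0)

theorem ne_al (he : e ∈ G.ds) : e ≠ G.al e := fun h => G.noloop e he (by rw [← h])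

theorem sum_mvz (S : Finset D) : ∑ d ∈ S, mvz G z e g d = ∑ d ∈ S, z d + (if e ∈ S then 1 else 0) +
    (if G.al e ∈ S then 1 else 0) - (if g ∈ S then 1 else 0) - (if G.al g ∈ S then 1 else 0) := by
  unfold mvz
  rw [sum_sub_distrib, sum_sub_distrib, sum_add_distrib, sum_add_distrib, sum_ite_eq',
    sum_ite_eq', sum_ite_eq', sum_ite_eq']

theorem sum_mvt (S : Finset V) (v u : V) : ∑ x ∈ S, mvt t v u x = ∑ x ∈ S, t x -
    (if v ∈ S then 1 else 0) + (if u ∈ S then 1 else 0) := by
  unfold mvt
  rw [sum_add_distrib, sum_sub_distrib, sum_ite_eq', sum_ite_eq']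

/-- the values after a move -/
theorem val_mv (he : e ∈ G.ds) (hg : g ∈ G.ds) (X : Finset V) {v w u : V} (h1 : G.pi e = v)
    (h2 : G.pi (G.al e) = w) (h3 : G.pi g = w) (h4 : G.pi (G.al g) = u) :
    G.val (mvz G z e g) (mvt t v u) X = G.val z t X -
      (if v ∈ X ∧ w ∈ X ∧ u ∉ X then 2 else 0) + (if v ∉ X ∧ w ∈ X ∧ u ∈ X then 2 else 0) := by
  have hae := G.al_mem e he
  have haae := G.al_al e he
  have hag := G.al_mem g hg
  have haag := G.al_al g hg
  unfold val
  rw [sum_mvz, sum_mvt]
  have k1 : e ∈ G.bd X ↔ v ∈ X ∧ w ∉ X := by rw [mem_bd, h1, h2]; exact ⟨fun h => h.2, fun h => ⟨he, h⟩⟩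
  have k2 : G.al e ∈ G.bd X ↔ w ∈ X ∧ v ∉ X := by
    rw [mem_bd, haae, h1, h2]; exact ⟨fun h => h.2, fun h => ⟨hae, h⟩⟩
  have k3 : g ∈ G.bd X ↔ w ∈ X ∧ u ∉ X := by rw [mem_bd, h3, h4]; exact ⟨fun h => h.2, fun h => ⟨hg, h⟩⟩
  have k4 : G.al g ∈ G.bd X ↔ u ∈ X ∧ w ∉ X := by
    rw [mem_bd, haag, h3, h4]; exact ⟨fun h => h.2, fun h => ⟨hag, h⟩⟩
  simp only [k1, k2, k3, k4]
  by_cases a : v ∈ X <;> by_cases b : w ∈ X <;> by_cases c : u ∈ X <;> simp [a, b, c] <;> ring

/-- tight sets contain no token outside the circuits -/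
theorem MCI.odd_tok [Infinite V] [Infinite D] (h : G.MCI z t fr F jm sx ep 0) {W : Finset V}
    (hW : W ⊆ G.vs) (hWo : Odd W.card) (hc1 : 3 ≤ W.card) (hc2 : 3 ≤ (G.vs \ W).card) {v : V}
    (hv : v ∈ W) (hvf : v ∉ fr) (htv : 1 ≤ t v) : 5 ≤ G.val z t W := by
  by_contra hlt
  rw [not_le] at hlt
  have h3 := h.i4.odd_lt h.inst.wt hW hWo hlt
  have hF := h.inst.fresh
  have hw := h.inst.wt
  have htau := h.tau_eq
  have star : jm.Nonempty → ∀ y ∈ G.vs, y ∉ fr → t y = 2 → y ≠ v → False := by
    intro hjn y hy hyf hty hyv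
    have hjc : jm.card = 2 := h.inst.jm2.resolve_left fun h1 => by
      rw [h1] at hjn
      exact not_nonempty_empty hjn
    have h5 : ∑ x ∈ fr, t x = 2 := by
      have h6 := hF.sum_t hw (Subset.refl fr)
      rw [inter_eq_right.2 hF.jms, hjc] at h6
      rw [h6]
      norm_num
    have h7 : ∑ x ∈ fr, t x + (t y + t v) ≤ ∑ x ∈ G.vs, t x := by
      rw [← sum_pair hyv, ← sum_union]
      · refine sum_le_sum_of_subset_of_nonneg ?_ fun x hx _ => hw.t0 x hx
        intro x hx
        rcases mem_union.1 hx with hx | hx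
        · exact hF.fsub hx
        · rcases mem_insert.1 hx with rfl | hx
          · exact hy
          · rw [mem_singleton.1 hx]
            exact hW hv
      · rw [disjoint_right]
        intro x hx
        rcases mem_insert.1 hx with rfl | hx
        · exact hyf
        · rw [mem_singleton.1 hx]
          exact hvf
    rw [h5, hty, htau] at h7
    linarith
  rcases h.odd_list hW hWo h3 hc1 hc2 with ⟨-, u, a, b, c, ha, hb⟩ | ⟨hjn, y, k, hy⟩ |
    ⟨hjn, x, p, q, k, y, hyv, hyf, hy, hyu⟩
  · -- two vertices with two tokens outside `W`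
    have haW : a ∈ G.vs \ W := by rw [c.U]; simp
    have hbW : b ∈ G.vs \ W := by rw [c.U]; simp
    have h5 : t a + (t b + t v) ≤ ∑ x ∈ G.vs, t x := by
      have hav : a ≠ v := fun h6 => (mem_sdiff.1 haW).2 (h6 ▸ hv)
      have hbv : b ≠ v := fun h6 => (mem_sdiff.1 hbW).2 (h6 ▸ hv)
      rw [← sum_pair hbv, ← sum_insert (a := a) (s := {b, v}) (by
        rw [mem_insert, mem_singleton]
        rintro (h6 | h6)
        · exact c.ab h6
        · exact hav h6)]
      refine sum_le_sum_of_subset_of_nonneg ?_ fun x hx _ => hw.t0 x hx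
      intro x hx
      rcases mem_insert.1 hx with rfl | hx
      · exact (mem_sdiff.1 haW).1
      · rcases mem_insert.1 hx with rfl | hx
        · exact (mem_sdiff.1 hbW).1
        · rw [mem_singleton.1 hx]
          exact hW hv
    rw [ha, hb, htau] at h5
    linarith
  · exact star hjn y k.yv k.yf hy fun h6 => k.yW (h6 ▸ hv)
  · refine star hjn y hyv hyf hy fun h6 => ?_
    subst h6
    have h7 : y ∈ ({y} : Finset V) := mem_singleton_self y
    rw [← hyu] at h7
    have h8 := (mem_sdiff.1 h7).2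
    rw [k.W] at hv
    rcases mem_insert.1 hv with rfl | hv
    · exact hvf k.xf
    · exact h8 (mem_union_right _ hv)

/-- **a move is valid**: only sets with `v`, `w` inside and `u` outside lose value, and they carry
the token of `v` -/
theorem MCI.mv [Infinite V] [Infinite D] (h : G.MCI z t fr F jm sx ep 0) {v w u : V}
    (he : e ∈ G.ds) (hg : g ∈ G.ds) (h1 : G.pi e = v) (h2 : G.pi (G.al e) = w) (h3 : G.pi g = w)
    (h4 : G.pi (G.al g) = u) (hvu : v ≠ u) (hvf : v ∉ fr) (htv : 1 ≤ t v) (htu : t u ≤ 1)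
    (hzg : 1 ≤ z g) :
    G.Wt (mvz G z e g) (mvt t v u) ∧ ∑ x ∈ G.vs, mvt t v u x = 4 ∧
      ∀ d ∈ G.ds, ∃ n : ℕ, mvz G z e g d = n := by
  have hw := h.inst.wt
  have hF := h.inst.fresh
  have htau := h.tau_eq
  have hae := G.al_mem e he
  have haae := G.al_al e he
  have hag := G.al_mem g hg
  have haag := G.al_al g hg
  have hvv : v ∈ G.vs := h1 ▸ G.pi_mem e he
  have huv : u ∈ G.vs := h4 ▸ G.pi_mem _ hag
  have hgg : g ≠ G.al g := ne_al hg
  have hzag : 1 ≤ z (G.al g) := by rw [hw.sym g hg]; exact hzg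
  have z0 : ∀ d ∈ G.ds, 0 ≤ mvz G z e g d := by
    intro d hd
    have k1 : (0 : ℝ) ≤ if d = e then 1 else 0 := by split_ifs <;> norm_num
    have k2 : (0 : ℝ) ≤ if d = G.al e then 1 else 0 := by split_ifs <;> norm_num
    have k3 := hw.z0 d hd
    unfold mvz
    by_cases a : d = g
    · subst a
      rw [if_pos rfl, if_neg hgg]
      linarith
    · rw [if_neg a]
      by_cases b : d = G.al g
      · rw [if_pos b, b]
        rw [b] at k1 k2
        linarith
      · rw [if_neg b]
        linarith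
  refine ⟨{ z0 := z0, t0 := ?_, sym := ?_, deg := ?_, cut := ?_ }, ?_, ?_⟩
  · intro x hx
    have k1 := hw.t0 x hx
    have k2 : (0 : ℝ) ≤ if x = u then 1 else 0 := by split_ifs <;> norm_num
    unfold mvt
    by_cases a : x = v
    · rw [if_pos a]
      rw [← a] at htv
      linarith
    · rw [if_neg a]
      linarith
  · intro d hd
    have hadd := G.al_al d hd
    have k1 : G.al d = e ↔ d = G.al e :=
      ⟨fun k => by rw [← k, hadd], fun k => by rw [k, haae]⟩
    have k2 : G.al d = G.al e ↔ d = e :=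
      ⟨fun k => by rw [← hadd, k, haae], fun k => by rw [k]⟩
    have k3 : G.al d = g ↔ d = G.al g :=
      ⟨fun k => by rw [← k, hadd], fun k => by rw [k, haag]⟩
    have k4 : G.al d = G.al g ↔ d = g :=
      ⟨fun k => by rw [← hadd, k, haag], fun k => by rw [k]⟩
    unfold mvz
    simp only [k1, k2, k3, k4, hw.sym d hd]
    ring
  · intro x hx
    have k0 := hw.deg x hx
    have k1 : e ∈ G.st x ↔ x = v := by
      rw [mem_st, h1]; exact ⟨fun k => k.2.symm, fun k => ⟨he, k.symm⟩⟩
    have k2 : G.al e ∈ G.st x ↔ x = w := by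
      rw [mem_st, h2]; exact ⟨fun k => k.2.symm, fun k => ⟨hae, k.symm⟩⟩
    have k3 : g ∈ G.st x ↔ x = w := by
      rw [mem_st, h3]; exact ⟨fun k => k.2.symm, fun k => ⟨hg, k.symm⟩⟩
    have k4 : G.al g ∈ G.st x ↔ x = u := by
      rw [mem_st, h4]; exact ⟨fun k => k.2.symm, fun k => ⟨hag, k.symm⟩⟩
    rw [sum_mvz]
    unfold mvt
    simp only [k1, k2, k3, k4]
    linarith
  · intro X hX hXo
    rw [val_mv he hg X h1 h2 h3 h4]
    have k1 := hw.cut X hX hXo
    have k2 : (0 : ℝ) ≤ if v ∉ X ∧ w ∈ X ∧ u ∈ X then 2 else 0 := by split_ifs <;> norm_num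
    by_cases a : v ∈ X ∧ w ∈ X ∧ u ∉ X
    · rw [if_pos a]
      obtain ⟨a1, a2, a3⟩ := a
      have hvw : v ≠ w := by
        rintro rfl
        exact G.noloop e he (h2.trans h1.symm)
      have k5 : 2 ≤ X.card := by
        have k6 : ({v, w} : Finset V) ⊆ X := by
          intro x hx
          rcases mem_insert.1 hx with rfl | hx
          · exact a1
          · rw [mem_singleton.1 hx]
            exact a2
        rw [← card_pair hvw]
        exact card_le_card k6
      have k7 : 3 ≤ X.card := by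
        obtain ⟨n, hn⟩ := hXo
        omega
      have hu' : u ∈ G.vs \ X := mem_sdiff.2 ⟨huv, a3⟩
      by_cases k8 : 3 ≤ (G.vs \ X).card
      · have k9 := h.odd_tok hX hXo k7 k8 a1 hvf htv
        linarith
      · have k9 := card_sdiff_add_card_eq_card hX
        have k10 : (G.vs \ X).card = 1 := by
          obtain ⟨n, hn⟩ := hXo
          obtain ⟨n', hn'⟩ := h.inst.even
          have k11 : 0 < (G.vs \ X).card := card_pos.2 ⟨u, hu'⟩
          omega
        obtain ⟨y, hy⟩ := card_eq_one.1 k10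
        have hyu : y = u := by
          rw [hy] at hu'
          exact (mem_singleton.1 hu').symm
        subst hyu
        have k12 := hw.val_compl (X := {y}) (singleton_subset_iff.2 huv)
        rw [hw.val_single huv, sum_singleton, ← hy, Finset.sdiff_sdiff_eq_self hX, htau] at k12
        linarith
    · rw [if_neg a]
      linarith
  · rw [sum_mvt, htau, if_pos hvv, if_pos huv]
    ring
  · intro d hd
    obtain ⟨n, hn⟩ := h.i4.zi d hd
    refine nat_of_int (n := n + (if d = e then 1 else 0) + (if d = G.al e then 1 else 0) -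
      (if d = g then 1 else 0) - (if d = G.al g then 1 else 0)) ?_ (z0 d hd)
    unfold mvz
    rw [hn]
    push_cast
    rfl

/-- support of a move -/
theorem mvz_supp (hw : G.Wt z t) (he : e ∈ G.ds) (hg : g ∈ G.ds) (hze : z e ≠ 0) (hzg : 1 ≤ z g)
    {d : D} (h0 : z d = 0) : mvz G z e g d = 0 := by
  have k1 : d ≠ e := fun k => hze (k ▸ h0)
  have k2 : d ≠ G.al e := fun k => hze (by rw [← hw.sym e he, ← k, h0])
  have k3 : d ≠ g := fun k => by rw [← k, h0] at hzg; linarith
  have k4 : d ≠ G.al g := fun k => by rw [← hw.sym g hg, ← k, h0] at hzg; linarith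
  unfold mvz
  rw [if_neg k1, if_neg k2, if_neg k3, if_neg k4, h0]
  ring

/-- no move with `w u` of weight 1, `u` outside the circuits (the support drops) -/
theorem MCI.mv_q [Infinite V] [Infinite D] (h : G.MCI z t fr F jm sx ep 0) {v w u : V}
    (he : e ∈ G.ds) (hg : g ∈ G.ds) (h1 : G.pi e = v) (h2 : G.pi (G.al e) = w) (h3 : G.pi g = w)
    (h4 : G.pi (G.al g) = u) (hvu : v ≠ u) (hvf : v ∉ fr) (hwf : w ∉ fr) (huf : u ∉ fr)
    (htv : 1 ≤ t v) (htu : t u ≤ 1) (hze : z e ≠ 0) (hzg : z g = 1) : False := by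
  have hw := h.inst.wt
  obtain ⟨m1, m2, m3⟩ := h.mv he hg h1 h2 h3 h4 hvu hvf htv htu hzg.ge
  have hae := G.al_mem e he
  have hag := G.al_mem g hg
  have ha : G.Alt z fr (mvz G z e g) (mvt t v u) :=
    { wt := m1
      tau := by rw [m2]; norm_num
      supp := fun d _ h0 => mvz_supp hw he hg hze hzg.ge h0
      unit := by
        intro d hd hdf
        have k1 : d ≠ e := fun k => hvf (by rw [← h1, ← k]; exact hdf)
        have k2 : d ≠ G.al e := fun k => hwf (by rw [← h2, ← k]; exact hdf)
        have k3 : d ≠ g := fun k => hwf (by rw [← h3, ← k]; exact hdf)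
        have k4 : d ≠ G.al g := fun k => huf (by rw [← h4, ← k]; exact hdf)
        unfold mvz
        rw [if_neg k1, if_neg k2, if_neg k3, if_neg k4, h.inst.fresh.unit d hd hdf]
        ring }
  have k5 := (h.alt ha m3).2 g hg (by
    have k1 : g ≠ e := fun k => hvu.symm (by
      have k6 : w = v := by rw [← h3, k, h1]
      exact absurd (h2.trans (k6.trans h1.symm)) (G.noloop e he))
    have k2 : g ≠ G.al e := fun k => hvu (by rw [← h1, ← h4, k, G.al_al e he])
    unfold mvz
    rw [if_neg k1, if_neg k2, if_pos rfl, if_neg (ne_al hg), hzg]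
    ring)
  rw [k5] at hzg
  exact zero_ne_one hzg

/-- no move with `u` fresh (the leg `w u` is killed) -/
theorem MCI.mv_f [Infinite V] [Infinite D] (h : G.MCI z t fr F jm sx ep 0) {v w u : V}
    (he : e ∈ G.ds) (hg : g ∈ G.ds) (h1 : G.pi e = v) (h2 : G.pi (G.al e) = w) (h3 : G.pi g = w)
    (h4 : G.pi (G.al g) = u) (hvf : v ∉ fr) (hwf : w ∉ fr) (huf : u ∈ fr)
    (htv : 1 ≤ t v) (hze : z e ≠ 0) : False := by
  have hI := h.inst
  have hw := hI.wt
  have hF := hI.fresh
  have hag := G.al_mem g hg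
  have hvu : v ≠ u := fun k => hvf (k ▸ huf)
  have hzg : z g = 1 := by
    rw [← hw.sym g hg]
    exact hF.unit _ hag (by rw [h4]; exact huf)
  have htu : t u ≤ 1 := by
    have k1 := hF.sum_t hw (singleton_subset_iff.2 huf)
    rw [sum_singleton] at k1
    rw [k1]
    have k2 : (({u} ∩ jm : Finset V).card) ≤ 1 := (card_le_card inter_subset_left).trans (by simp)
    exact_mod_cast k2
  obtain ⟨m1, m2, m3⟩ := h.mv he hg h1 h2 h3 h4 hvu hvf htv htu hzg.ge
  obtain ⟨C, hxC, hC⟩ := hF.exists_circ huf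
  have hj1 : G.pi (G.al g) ∈ C := by rw [h4]; exact hxC
  have hj2 : G.pi (G.al (G.al g)) ∉ fr := by rw [G.al_al g hg, h3]; exact hwf
  obtain ⟨fr', f1, f2, f3, f4, f5, f6⟩ := hI.absorb_class hC hag hj1 hj2
  refine h.no_step (z' := mvz G z e g) (t' := mvt t v u) (fr' := fr')
    { wt := m1
      tau := by rw [m2]; norm_num
      supp := ?_
      sub := f1
      ne := f2
      clo := f3
      unit := ?_
      kill := ?_
      star := f6 } m3
  · intro d hd hpos
    have k0 := hw.z0 d hd
    rcases k0.eq_or_lt with k1 | k1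
    · rw [mvz_supp hw he hg hze hzg.ge k1.symm] at hpos
      exact absurd hpos (lt_irrefl 0)
    · exact k1
  · intro d hd hdf
    have k0 := f1 hdf
    have k1 : d ≠ e := fun k => hvf (by rw [← h1, ← k]; exact k0)
    have k2 : d ≠ G.al e := fun k => hwf (by rw [← h2, ← k]; exact k0)
    have k3 : d ≠ g := fun k => hwf (by rw [← h3, ← k]; exact k0)
    have k4 : d ≠ G.al g := fun k => disjoint_left.1 f4 hdf (by rw [k]; exact hj1)
    unfold mvz
    rw [if_neg k1, if_neg k2, if_neg k3, if_neg k4, hF.unit d hd k0]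
    ring
  · intro X hX hev hn
    refine ⟨G.al g, f5 X hX hev hn, ?_⟩
    have k1 : G.al g ≠ e := fun k => hvu.symm (by rw [← h4, k, h1])
    have k2 : G.al g ≠ G.al e := fun k => hwf (by rw [← h2, ← k, h4]; exact huf)
    have k3 : G.al g ≠ g := (ne_al hg).symm
    unfold mvz
    rw [if_neg k1, if_neg k2, if_neg k3, if_pos rfl, hw.sym g hg, hzg]
    ring

/-- a vertex with exhausted capacity has no other support edges -/
theorem full_at (hw : G.Wt z t) {x : V} (hx : x ∈ G.vs) {S : Finset D} (hS : S ⊆ G.st x)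
    (h3 : 3 ≤ ∑ d ∈ S, z d + t x) {d : D} (hd : d ∈ G.ds) (hp : G.pi d = x) (hz : z d ≠ 0) :
    d ∈ S := by
  by_contra hdS
  have h1 := hw.deg x hx
  have h2 : ∑ c ∈ insert d S, z c ≤ ∑ c ∈ G.st x, z c := by
    refine sum_le_sum_of_subset_of_nonneg ?_ fun c hc _ => hw.z0 c (mem_st.1 hc).1
    intro c hc
    rcases mem_insert.1 hc with rfl | hc
    · exact mem_st.2 ⟨hd, hp⟩
    · exact hS hc
  rw [sum_insert hdS] at h2
  have h4 : 0 < z d := lt_of_le_of_ne (hw.z0 d hd) (Ne.symm hz)
  linarith

/-- two darts at a vertex -/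
theorem two_at (hw : G.Wt z t) {x : V} (hx : x ∈ G.vs) {a b : D} (ha : a ∈ G.ds)
    (hb : b ∈ G.ds) (hap : G.pi a = x) (hbp : G.pi b = x) (hab : a ≠ b) :
    z a + z b + t x ≤ 3 := by
  have h1 := hw.deg x hx
  have h2 : ∑ c ∈ ({a, b} : Finset D), z c ≤ ∑ c ∈ G.st x, z c := by
    refine sum_le_sum_of_subset_of_nonneg ?_ fun c hc _ => hw.z0 c (mem_st.1 hc).1
    intro c hc
    rcases mem_insert.1 hc with rfl | hc
    · exact mem_st.2 ⟨ha, hap⟩
    · rw [mem_singleton.1 hc]
      exact mem_st.2 ⟨hb, hbp⟩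
  rw [sum_pair hab] at h2
  linarith

/-- a token vertex `v`, a neighbour `w`, another neighbour `u` of `w` -/
theorem MCI.mv_A [Infinite V] [Infinite D] (h : G.MCI z t fr F jm sx ep 0) {v w u : V}
    (he : e ∈ G.ds) (hg : g ∈ G.ds) (h1 : G.pi e = v) (h2 : G.pi (G.al e) = w) (h3 : G.pi g = w)
    (h4 : G.pi (G.al g) = u) (hvu : v ≠ u) (hvf : v ∉ fr) (hwf : w ∉ fr)
    (htv : 1 ≤ t v) (hze : z e ≠ 0) (hzg : z g ≠ 0) : False := by
  have hI := h.inst
  have hw := hI.wt
  have hF := hI.fresh
  have htau := h.tau_eq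
  have hae := G.al_mem e he
  have haae := G.al_al e he
  have hag := G.al_mem g hg
  have haag := G.al_al g hg
  have hvv : v ∈ G.vs := h1 ▸ G.pi_mem e he
  have hwv : w ∈ G.vs := h2 ▸ G.pi_mem _ hae
  have huv : u ∈ G.vs := h4 ▸ G.pi_mem _ hag
  have hvw : v ≠ w := fun k => G.noloop e he (by rw [h1, h2, k])
  have huw : u ≠ w := fun k => G.noloop g hg (by rw [h3, h4, k])
  by_cases huf : u ∈ fr
  · exact h.mv_f he hg h1 h2 h3 h4 hvf hwf huf htv hze
  have nat_z : ∀ d ∈ G.ds, z d ≠ 0 → z d = 1 ∨ 2 ≤ z d := by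
    intro d hd hz
    obtain ⟨n, hn⟩ := h.i4.zi d hd
    rw [hn] at hz ⊢
    have k1 : n ≠ 0 := fun k => hz (by rw [k]; norm_num)
    rcases Nat.lt_or_ge 1 n with k2 | k2
    · right
      exact_mod_cast k2
    · left
      have k3 : n = 1 := by omega
      rw [k3]
      norm_num
  have nat_t : ∀ x ∈ G.vs, t x = 0 ∨ t x = 1 ∨ t x = 2 := by
    intro x hx
    obtain ⟨n, hn⟩ := h.i4.ti x hx
    have k1 := hI.t_le_half hx
    rw [htau, hn] at k1
    have k2 : n ≤ 2 := by
      have k3 : (n : ℝ) ≤ 2 := by linarith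
      exact_mod_cast k3
    rw [hn]
    interval_cases n
    · left; norm_num
    · right; left; norm_num
    · right; right; norm_num
  have hne : G.al e ≠ g := fun k => hvu (by rw [← h1, ← h4, ← k, haae])
  have hsumw := two_at hw hwv hae hg h2 h3 hne
  rw [hw.sym e he] at hsumw
  have hsumv : z e + t v ≤ 3 := by
    have k1 := hw.deg v hvv
    have k2 := single_le_sum (f := z) (s := G.st v) (fun d hd => hw.z0 d (mem_st.1 hd).1)
      (mem_st.2 ⟨he, h1⟩)
    linarith
  have hsumu : z g + t u ≤ 3 := by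
    have k1 := hw.deg u huv
    have k2 := single_le_sum (f := z) (s := G.st u) (fun d hd => hw.z0 d (mem_st.1 hd).1)
      (mem_st.2 ⟨hag, h4⟩)
    rw [hw.sym g hg] at k2
    linarith
  have hze1 : 1 ≤ z e := by
    rcases nat_z e he hze with k | k
    · rw [k]
    · linarith
  have hzg1 : 1 ≤ z g := by
    rcases nat_z g hg hzg with k | k
    · rw [k]
    · linarith
  have htw0 := hw.t0 w hwv
  have hX : ({v, w, u} : Finset V) ⊆ G.vs := by
    intro x hx
    rcases mem_insert.1 hx with rfl | hx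
    · exact hvv
    · rcases mem_insert.1 hx with rfl | hx
      · exact hwv
      · rw [mem_singleton.1 hx]
        exact huv
  have hXc : ({v, w, u} : Finset V).card = 3 := card_eq_three.2 ⟨v, w, u, hvw, hvu, huw.symm, rfl⟩
  have hXf : Disjoint ({v, w, u} : Finset V) fr := by
    rw [disjoint_left]
    intro x hx
    rcases mem_insert.1 hx with rfl | hx
    · exact hvf
    · rcases mem_insert.1 hx with rfl | hx
      · exact hwf
      · rw [mem_singleton.1 hx]
        exact huf
  have hfr := h.fr_ne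
  -- the three vertices are not a component
  have comp : 3 ≤ z e + t v → 3 ≤ z e + z g + t w → 3 ≤ z g + t u → False := by
    intro c1 c2 c3
    have hne' : ({v, w, u} : Finset V) ≠ G.vs := by
      intro k
      obtain ⟨x, hx⟩ := hfr
      exact disjoint_left.1 hXf (k ▸ hF.fsub hx) hx
    obtain ⟨d, hd, hzd⟩ := h.conn hX ⟨v, mem_insert_self _ _⟩ hne'
    obtain ⟨hd1, hd2, hd3⟩ := mem_bd.1 hd
    apply hd3
    rcases mem_insert.1 hd2 with k | k
    · have k1 := full_at hw hvv (S := {e}) (singleton_subset_iff.2 (mem_st.2 ⟨he, h1⟩))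
        (by rw [sum_singleton]; exact c1) hd1 k hzd
      rw [mem_singleton.1 k1, h2]
      simp
    · rcases mem_insert.1 k with k | k
      · have k1 := full_at hw hwv (S := {G.al e, g}) (by
          intro c hc
          rcases mem_insert.1 hc with rfl | hc
          · exact mem_st.2 ⟨hae, h2⟩
          · rw [mem_singleton.1 hc]
            exact mem_st.2 ⟨hg, h3⟩)
          (by rw [sum_pair hne, hw.sym e he]; exact c2) hd1 k hzd
        rcases mem_insert.1 k1 with k2 | k2
        · rw [k2, haae, h1]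
          simp
        · rw [mem_singleton.1 k2, h4]
          simp
      · have k1 := full_at hw huv (S := {G.al g}) (singleton_subset_iff.2 (mem_st.2 ⟨hag, h4⟩))
          (by rw [sum_singleton, hw.sym g hg]; exact c3) hd1 (mem_singleton.1 k) hzd
        rw [mem_singleton.1 k1, haag, h3]
        simp
  -- weight inside the three vertices
  have inner : G.val z t {v, w, u} ≤ 9 - 2 * (z e + z g) := by
    rw [hw.val_eq hX, hXc]
    have k1 : ({e, G.al e, g, G.al g} : Finset D) ⊆ G.ed {v, w, u} {v, w, u} := by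
      intro c hc
      simp only [mem_insert, mem_singleton] at hc
      rcases hc with rfl | rfl | rfl | rfl
      · exact mem_ed.2 ⟨he, by rw [h1]; simp, by rw [h2]; simp⟩
      · exact mem_ed.2 ⟨hae, by rw [h2]; simp, by rw [haae, h1]; simp⟩
      · exact mem_ed.2 ⟨hg, by rw [h3]; simp, by rw [h4]; simp⟩
      · exact mem_ed.2 ⟨hag, by rw [h4]; simp, by rw [haag, h3]; simp⟩
    have k2 := sum_le_sum_of_subset_of_nonneg (f := z) k1 fun c hc _ => hw.z0 c (mem_ed.1 hc).1
    have n1 : e ∉ ({G.al e, g, G.al g} : Finset D) := by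
      simp only [mem_insert, mem_singleton, not_or]
      refine ⟨ne_al he, fun k => hvw ?_, fun k => hvu ?_⟩
      · rw [← h1, ← h3, k]
      · rw [← h1, ← h4, ← k]
    have n2 : G.al e ∉ ({g, G.al g} : Finset D) := by
      simp only [mem_insert, mem_singleton, not_or]
      exact ⟨hne, fun k => huw (by rw [← h4, ← k, h2])⟩
    have n3 : g ∉ ({G.al g} : Finset D) := by
      rw [mem_singleton]
      exact ne_al hg
    rw [sum_insert n1, sum_insert n2, sum_insert n3, sum_singleton, hw.sym e he, hw.sym g hg] at k2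
    push_cast
    linarith
  have hcomp3 : 3 ≤ (G.vs \ {v, w, u}).card := by
    have k1 : fr ⊆ G.vs \ {v, w, u} := fun x hx =>
      mem_sdiff.2 ⟨hF.fsub hx, fun k => disjoint_left.1 hXf k hx⟩
    have k2 : 2 ≤ fr.card := by
      obtain ⟨x, hx⟩ := hfr
      have k3 : (F.filter fun d => G.pi d = x).Nonempty := by
        rw [← card_pos, hF.two x hx]
        norm_num
      obtain ⟨d, hd⟩ := k3
      obtain ⟨k4, k5⟩ := mem_filter.1 hd
      have k6 : x ≠ G.pi (G.al d) := fun k => G.noloop d (hF.Fsub k4) (by rw [k5]; exact k.symm)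
      rw [← card_pair k6]
      refine card_le_card fun y hy => ?_
      rcases mem_insert.1 hy with rfl | hy
      · exact hx
      · rw [mem_singleton.1 hy]
        exact hF.Ffr _ (hF.Fal d k4)
    have k7 := card_sdiff_add_card_eq_card hX
    have k8 := card_le_card k1
    obtain ⟨n, hn⟩ := hI.even
    rw [hXc] at k7
    omega
  by_cases htu : t u ≤ 1
  · rcases nat_z g hg hzg with k | k
    · exact h.mv_q he hg h1 h2 h3 h4 hvu hvf hwf huf htv htu hze k
    · -- weight two on `w u`
      have c1 : z e = 1 := by linarith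
      have c2 : z g = 2 := by linarith
      have c3 : t w = 0 := by linarith
      rcases nat_t u huv with k1 | k1 | k1
      · rcases nat_t v hvv with k2 | k2 | k2
        · linarith
        · have k3 := h.odd_tok hX (by rw [hXc]; decide) hXc.ge hcomp3 (mem_insert_self _ _) hvf htv
          linarith
        · -- move twice
          obtain ⟨m1, m2, m3⟩ := h.mv he hg h1 h2 h3 h4 hvu hvf htv htu hzg1
          have ha : G.Alt z fr (mvz G z e g) (mvt t v u) :=
            { wt := m1
              tau := by rw [m2]; norm_num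
              supp := fun d _ h0 => mvz_supp hw he hg hze hzg1 h0
              unit := by
                intro d hd hdf
                have k1 : d ≠ e := fun k => hvf (by rw [← h1, ← k]; exact hdf)
                have k2 : d ≠ G.al e := fun k => hwf (by rw [← h2, ← k]; exact hdf)
                have k3 : d ≠ g := fun k => hwf (by rw [← h3, ← k]; exact hdf)
                have k4 : d ≠ G.al g := fun k => huf (by rw [← h4, ← k]; exact hdf)
                unfold mvz
                rw [if_neg k1, if_neg k2, if_neg k3, if_neg k4, hF.unit d hd hdf]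
                ring }
          have n1 : e ≠ g := fun k => hvw (by rw [← h1, ← h3, k])
          have n2 : e ≠ G.al g := fun k => hvu (by rw [← h1, ← h4, ← k])
          refine (h.alt ha m3).1.mv_q he hg h1 h2 h3 h4 hvu hvf hwf huf ?_ ?_ ?_ ?_
          · unfold mvt
            rw [if_pos rfl, if_neg hvu, k2]
            norm_num
          · unfold mvt
            rw [if_pos rfl, if_neg hvu.symm, k1]
            norm_num
          · unfold mvz
            rw [if_pos rfl, if_neg (ne_al he), if_neg n1, if_neg n2, c1]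
            norm_num
          · unfold mvz
            rw [if_neg n1.symm, if_neg hne.symm, if_pos rfl, if_neg (ne_al hg), c2]
            norm_num
      · by_cases k2 : t v ≤ 1
        · exact h.mv_q hag hae h4 (by rw [haag, h3]) h2 (by rw [haae, h1]) hvu.symm huf hwf hvf
            k1.ge k2 (by rw [hw.sym g hg]; exact hzg) (by rw [hw.sym e he]; exact c1)
        · rcases nat_t v hvv with k3 | k3 | k3
          · exact k2 (by rw [k3]; norm_num)
          · exact k2 (by rw [k3])
          · exact comp (by rw [c1, k3]; norm_num) (by rw [c1, c2, c3]; norm_num)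
              (by rw [c2, k1]; norm_num)
      · rw [k1] at htu
        norm_num at htu
  · have k1 : t u = 2 := by
      rcases nat_t u huv with k | k | k
      · exact absurd (by rw [k]; norm_num) htu
      · exact absurd (by rw [k]) htu
      · exact k
    by_cases k2 : t v ≤ 1
    · rcases nat_z e he hze with k3 | k3
      · exact h.mv_q hag hae h4 (by rw [haag, h3]) h2 (by rw [haae, h1]) hvu.symm huf hwf hvf
          (by rw [k1]; norm_num) k2 (by rw [hw.sym g hg]; exact hzg) (by rw [hw.sym e he]; exact k3)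
      · exact comp (by linarith) (by linarith) (by linarith)
    · have k3 : t v = 2 := by
        rcases nat_t v hvv with k | k | k
        · exact absurd (by rw [k]; norm_num) k2
        · exact absurd (by rw [k]) k2
        · exact k
      have k4 := hw.val_compl hX
      have k5 : t v + (t w + t u) = ∑ x ∈ ({v, w, u} : Finset V), t x := by
        rw [sum_insert (by
          rw [mem_insert, mem_singleton]
          rintro (k | k)
          · exact hvw k
          · exact hvu k), sum_pair huw.symm]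
      have k6 := hw.cut (G.vs \ {v, w, u}) sdiff_subset (by
        have k7 := card_sdiff_add_card_eq_card hX
        rw [hXc] at k7
        obtain ⟨n, hn⟩ := hI.even
        exact ⟨n - 2, by omega⟩)
      rw [k4, ← k5, htau, k1, k3] at k6
      linarith

/-- **NORMAL FORM: a vertex with a token outside the circuits has no neighbour outside the
circuits** -/
theorem MCI.tok_iso [Infinite V] [Infinite D] (h : G.MCI z t fr F jm sx ep 0) (he : e ∈ G.ds)
    (hze : z e ≠ 0) (hvf : G.pi e ∉ fr) (hwf : G.pi (G.al e) ∉ fr) : t (G.pi e) = 0 := by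
  have hI := h.inst
  have hw := hI.wt
  have hF := hI.fresh
  have hae := G.al_mem e he
  have haae := G.al_al e he
  have hvv := G.pi_mem e he
  have hwv := G.pi_mem _ hae
  have hvw : G.pi e ≠ G.pi (G.al e) := fun k => G.noloop e he k.symm
  by_contra ht
  have htv : 1 ≤ t (G.pi e) := by
    obtain ⟨n, hn⟩ := h.i4.ti _ hvv
    rw [hn] at ht ⊢
    have k1 : n ≠ 0 := fun k => ht (by rw [k]; norm_num)
    have k2 : 1 ≤ n := by omega
    exact_mod_cast k2
  by_cases hex : ∃ g ∈ G.ds, G.pi g = G.pi (G.al e) ∧ z g ≠ 0 ∧ G.pi (G.al g) ≠ G.pi e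
  · obtain ⟨g, hg, h3, h5, h4⟩ := hex
    exact h.mv_A he hg rfl rfl h3 rfl (Ne.symm h4) hvf hwf htv hze h5
  · push Not at hex
    have hZ : ({G.pi e, G.pi (G.al e)} : Finset V) ⊆ G.vs := by
      intro x hx
      rcases mem_insert.1 hx with rfl | hx
      · exact hvv
      · rw [mem_singleton.1 hx]
        exact hwv
    have hne' : ({G.pi e, G.pi (G.al e)} : Finset V) ≠ G.vs := by
      intro k
      obtain ⟨x, hx⟩ := h.fr_ne
      have k1 := hF.fsub hx
      rw [← k] at k1
      rcases mem_insert.1 k1 with rfl | k1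
      · exact hvf hx
      · exact hwf (mem_singleton.1 k1 ▸ hx)
    -- the darts at `w` all go to `v`
    have h6 : ∑ d ∈ G.st (G.pi (G.al e)), z d ≤ ∑ d ∈ G.st (G.pi e), z d := by
      have k1 : ∑ d ∈ G.st (G.pi (G.al e)), z d =
          ∑ d ∈ G.ed {G.pi (G.al e)} {G.pi e}, z d := by
        refine (sum_subset ?_ ?_).symm
        · intro d hd
          obtain ⟨k2, k3, -⟩ := mem_ed.1 hd
          exact mem_st.2 ⟨k2, mem_singleton.1 k3⟩
        · intro d hd hnd
          obtain ⟨k2, k3⟩ := mem_st.1 hd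
          by_contra k4
          exact hnd (mem_ed.2 ⟨k2, mem_singleton.2 k3, mem_singleton.2 (hex d k2 k3 k4)⟩)
      rw [k1, hw.ed_symm]
      refine sum_le_sum_of_subset_of_nonneg ?_ fun d hd _ => hw.z0 d (mem_st.1 hd).1
      intro d hd
      obtain ⟨k2, k3, -⟩ := mem_ed.1 hd
      exact mem_st.2 ⟨k2, mem_singleton.1 k3⟩
    have h7 := hw.deg _ hvv
    have h8 := hw.deg _ hwv
    have h9 : 1 ≤ t (G.pi (G.al e)) := by linarith
    obtain ⟨d, hd, hzd⟩ := h.conn hZ ⟨_, mem_insert_self _ _⟩ hne'
    obtain ⟨hd1, hd2, hd3⟩ := mem_bd.1 hd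
    rcases mem_insert.1 hd2 with k | k
    · refine h.mv_A (v := G.pi (G.al e)) (w := G.pi e) (u := G.pi (G.al d)) hae hd1 rfl
        (by rw [haae]) k rfl (fun k1 => hd3 ?_) hwf hvf h9 (by rw [hw.sym e he]; exact hze) hzd
      rw [← k1]
      simp
    · refine hd3 ?_
      rw [hex d hd1 (mem_singleton.1 k) hzd]
      simp

/-- the support edges at a token vertex outside the circuits are legs -/
theorem MCI.tok_leg [Infinite V] [Infinite D] (h : G.MCI z t fr F jm sx ep 0) (he : e ∈ G.ds)
    (hvf : G.pi e ∉ fr) (ht : t (G.pi e) ≠ 0) (hze : z e ≠ 0) :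
    G.pi (G.al e) ∈ fr ∧ z e = 1 := by
  have h1 : G.pi (G.al e) ∈ fr := by
    by_contra h2
    exact ht (h.tok_iso he hze hvf h2)
  refine ⟨h1, ?_⟩
  rw [← h.inst.wt.sym e he]
  exact h.inst.fresh.unit _ (G.al_mem e he) h1

/-- the tokens are 0, 1 or 2 -/
theorem MCI.tok_vals (h : G.MCI z t fr F jm sx ep m) {v : V} (hv : v ∈ G.vs) :
    t v = 0 ∨ t v = 1 ∨ t v = 2 := by
  obtain ⟨n, hn⟩ := h.i4.ti v hv
  have k1 := h.inst.t_le_half hv
  rw [h.tau_eq, hn] at k1
  have k2 : n ≤ 2 := by
    have k3 : (n : ℝ) ≤ 2 := by linarith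
    exact_mod_cast k3
  rw [hn]
  interval_cases n
  · left; norm_num
  · right; left; norm_num
  · right; right; norm_num

/-- a token vertex outside the circuits has `3 - t` legs -/
theorem MCI.legs_card [Infinite V] [Infinite D] (h : G.MCI z t fr F jm sx ep 0) {v : V}
    (hv : v ∈ G.vs) (hvf : v ∉ fr) (ht : t v ≠ 0) :
    (((G.st v).filter fun d => z d ≠ 0).card : ℝ) = 3 - t v := by
  have h1 := h.inst.wt.deg v hv
  have h2 : ∑ d ∈ G.st v, z d = ∑ d ∈ (G.st v).filter fun d => z d ≠ 0, (1 : ℝ) := by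
    rw [sum_filter]
    refine sum_congr rfl fun d hd => ?_
    obtain ⟨h3, h4⟩ := mem_st.1 hd
    by_cases hz : z d = 0
    · rw [if_neg (not_not.2 hz), hz]
    · rw [if_pos hz]
      exact (h.tok_leg h3 (by rw [h4]; exact hvf) (by rw [h4]; exact ht) hz).2
  rw [h2, sum_const, nsmul_eq_mul, mul_one] at h1
  linarith

/-- **the start of (INT)**: a star, or a leg at a vertex with one or two tokens -/
theorem MCI.start [Infinite V] [Infinite D] (h : G.MCI z t fr F jm sx ep 0) :
    jm.Nonempty ∨ ∃ e0 ∈ G.ds, G.pi e0 ∈ fr ∧ G.pi (G.al e0) ∉ fr ∧ z e0 = 1 ∧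
      (t (G.pi (G.al e0)) = 1 ∨ t (G.pi (G.al e0)) = 2) := by
  rcases Finset.eq_empty_or_nonempty jm with hj | hj
  · right
    subst hj
    have hF := h.inst.fresh
    have hw := h.inst.wt
    have h1 : ∑ v ∈ fr, t v = 0 := by
      have h2 := hF.sum_t hw (Subset.refl fr)
      rw [h2]
      simp
    have h3 := sum_sdiff hF.fsub (f := t)
    rw [h1, h.tau_eq, add_zero] at h3
    obtain ⟨v, hv, hvt⟩ : ∃ v ∈ G.vs \ fr, t v ≠ 0 := by
      by_contra h4
      push Not at h4
      rw [sum_eq_zero h4] at h3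
      norm_num at h3
    obtain ⟨hv1, hv2⟩ := mem_sdiff.1 hv
    have h5 := h.legs_card hv1 hv2 hvt
    have h6 := h.tok_vals hv1
    have h7 : ((G.st v).filter fun d => z d ≠ 0).Nonempty := by
      rw [← card_pos]
      have h8 : (0 : ℝ) < (((G.st v).filter fun d => z d ≠ 0).card : ℝ) := by
        rw [h5]
        rcases h6 with k | k | k <;> rw [k] <;> norm_num
      exact_mod_cast h8
    obtain ⟨d, hd⟩ := h7
    obtain ⟨h8, h9⟩ := mem_filter.1 hd
    obtain ⟨h10, h11⟩ := mem_st.1 h8
    obtain ⟨h12, h13⟩ := h.tok_leg h10 (by rw [h11]; exact hv2) (by rw [h11]; exact hvt) h9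
    refine ⟨G.al d, G.al_mem d h10, h12, ?_, ?_, ?_⟩
    · rw [G.al_al d h10, h11]
      exact hv2
    · rw [hw.sym d h10]
      exact h13
    · rw [G.al_al d h10, h11]
      rcases h6 with k | k | k
      · exact absurd k hvt
      · exact Or.inl k
      · exact Or.inr k
  · exact Or.inl hj

end MG

end RH
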