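import Pool.Agent.Lib.RH.Pole
import Pool.Agent.Lib.RH.I4Def

/-! No 2-poles in a minimal counterexample without star, class I4 (helper87; copy from Pole). -/

set_option autoImplicit false

namespace RH

open Finset Classical

namespace MG

variable {V D : Type*}

variable {G : MG V D} {z : D → ℝ} {t : V → ℝ} {fr : Finset V} {F : Finset D}
variable {jm sx : Finset V} {ep : V → ℕ} {m : ℕ} {M : Finset D} {T : Finset V} {a b : D}

section

variable (q : G.PL T a b)

end

/-- NO 2-POLES in a minimal counterexample without star -/
theorem MCI.no_pole (h : G.MCI z t fr F ∅ ∅ ep 0) (ht : 0 < ∑ v ∈ G.vs, t v)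
    (p : G.Pole z t fr T a b) : False := by
  have hF := h.inst.fresh
  have hw := h.inst.wt
  have q := p.pl hw
  have hI : (G.pole q).InstS z t fr F ∅ ∅ ep 0 := by
    refine p.inst h.inst q ?_ ?_ ?_
    · intro X hX ho hXa hXb
      have hep : ∑ v ∈ X, ep v = 0 := sum_eq_zero fun v hv => by
        have h1 := h.inst.epj v (hX.sub hv)
        rw [if_neg (notMem_empty v)] at h1
        omega
      have h5 := h.inst.cc X hX ho
      have h6 := hF.bd_par hX
      rw [inter_empty, card_empty, add_zero] at h6
      rw [hep] at h5 ⊢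
      by_contra hlt
      obtain ⟨k, hk⟩ := ho
      have h7 : (G.bd X).card = 5 := by omega
      have hd : Disjoint X T := disjoint_left.2 fun v hv hvT => disjoint_left.1 p.dis hvT
        (hX.sub hv)
      have hTx : ∀ v ∈ X ∪ T, t v = 0 := by
        intro v hv
        rcases mem_union.1 hv with h8 | h8
        · exact hF.t_not_jm hw (hX.sub h8) (notMem_empty v)
        · exact p.tok v h8
      have hWs : X ∪ T ⊆ G.vs := union_subset (hX.sub.trans hF.fsub) p.sub
      have h8 : G.val z t (X ∪ T) = 3 := by
        rw [p.val_union hw hd hXa hXb, hF.val_fr hw hX.sub (disjoint_empty_right _), h7]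
        norm_num
      have hTc : 2 ≤ T.card := by
        have h9 : 0 < T.card := card_pos.2 ⟨_, p.aT'⟩
        obtain ⟨l, hl⟩ := p.even
        omega
      have hWc : (X ∪ T).card = X.card + T.card := card_union_of_disjoint hd
      have hWo : Odd (X ∪ T).card := by
        rw [hWc]
        obtain ⟨l, hl⟩ := p.even
        exact ⟨k + l, by omega⟩
      have hcc' : (G.vs \ (X ∪ T)).card + (X ∪ T).card = G.vs.card :=
        card_sdiff_add_card_eq_card hWs
      have h10 := hw.val_compl hWs
      rw [h8, sum_eq_zero hTx] at h10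
      have hc2 : 3 ≤ (G.vs \ (X ∪ T)).card := by
        by_contra hlt2
        have h11 : (G.vs \ (X ∪ T)).card = 1 := by
          obtain ⟨l, hl⟩ := h.inst.even
          obtain ⟨k', hk'⟩ := hWo
          omega
        obtain ⟨v, hv⟩ := card_eq_one.1 h11
        have h12 : v ∈ G.vs := by
          have : v ∈ G.vs \ (X ∪ T) := by rw [hv]; exact mem_singleton_self v
          exact (mem_sdiff.1 this).1
        rw [hv, hw.val_single h12] at h10
        linarith
      refine h.no_tight hWs hWo h8 ?_ hc2 ?_
      · rw [hWc]
        omega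
      · intro d hd1 hp
        rcases mem_union.1 hp with h11 | h11
        · exact mem_union_left _ (hX.clo d hd1 h11)
        · exact absurd (hF.Ffr d hd1) (disjoint_left.1 p.dis h11)
    · intro X hX he hXa hXb
      have h1 := (p.bd_adm2 hF q hX.sub hXa hXb).1
      omega
    · intro X hX he hne
      exact absurd hne not_nonempty_empty
  have hlt : (G.pole q).vs.card < G.vs.card := by
    have h1 : (G.vs \ T).card + T.card = G.vs.card := card_sdiff_add_card_eq_card p.sub
    have h9 : 0 < T.card := card_pos.2 ⟨_, p.aT'⟩
    change (G.vs \ T).card < G.vs.card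
    omega
  obtain ⟨N, hN⟩ := h.ih (G.pole q) z t fr F ∅ ∅ ep (Or.inr ⟨rfl, Or.inl hlt⟩)
    (Int4.of_inst hI fun d hd => h.i4.zi d ((mem_pole_ds q).1 hd).1) hI
  exact h.bad (p.good hw hF q hN)

end MG

end RH
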