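import Pool.Agent.Lib.RH.I4Fin

/-! (INT+) of helper33 (message 69007): the reset lemma with the weakest hypotheses (helper76).

`z'`, `t'` are integral weights on the same graph, at most four tokens. Let `R` be the union of the
fresh classes which are linked by dead J-edges to a dead leg. REQUIRED ONLY: every set of classes
which no dead dart leaves (so every subset of the complement of `R` of this kind) is CLEAN: weight 1
on its boundary, weight at most 1 on its inner J-edges, tokens as before. Inside `R` everything is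
free: raised J-edges, raised legs, tokens at fresh vertices. -/

set_option autoImplicit false

namespace RH

open Finset Classical

namespace MG

variable {V D : Type*} {G : MG V D} {z z' : D → ℝ} {t t' : V → ℝ} {fr : Finset V} {F : Finset D}
variable {jm sx : Finset V} {ep : V → ℕ} {m : ℕ} {M : Finset D}

/-- integral weights on the same graph -/
structure IntP (G : MG V D) (z : D → ℝ) (z' : D → ℝ) (t' : V → ℝ) : Prop where
  wt : G.Wt z' t'
  zi : ∀ d ∈ G.ds, ∃ n : ℕ, z' d = n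
  supp : ∀ d ∈ G.ds, 0 < z' d → 0 < z d

/-- the tokens of integral weights are integral -/
theorem IntP.ti (h : IntP G z z' t') : ∀ v ∈ G.vs, ∃ n : ℕ, t' v = n := by
  intro v hv
  obtain ⟨a, ha⟩ := nat_sum (s := G.st v) (f := z') fun d hd => h.zi d (mem_st.1 hd).1
  have h1 := h.wt.deg v hv
  have h2 := h.wt.t0 v hv
  rw [ha] at h1
  have h3 : (a : ℝ) ≤ 3 := by linarith
  have h4 : a ≤ 3 := by exact_mod_cast h3
  refine ⟨3 - a, ?_⟩
  rw [Nat.cast_sub h4]
  push_cast
  linarith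

/-- clean sets: weight 1 on the boundary, tokens as before, at most 1 on the inner J-edges -/
def CleanP (G : MG V D) (F : Finset D) (t : V → ℝ) (z' : D → ℝ) (t' : V → ℝ)
    (X : Finset V) : Prop :=
  (∀ d ∈ G.bd X, z' d = 1) ∧ (∀ v ∈ X, t' v = t v) ∧
    ∀ d ∈ G.ds, d ∉ F → G.pi d ∈ X → G.pi (G.al d) ∈ X → z' d ≤ 1

/-- **reset lemma, general form** -/
theorem resetP (h : G.InstS z t fr F jm sx ep m) (hi : IntP G z z' t')
    (hclean : ∀ X, DeadC G fr F jm z' X → CleanP G F t z' t' X) :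
    ∃ fr' z'', StepA G z fr F jm sx z'' t' fr' ∧ (∀ d ∈ G.ds, ∃ n : ℕ, z'' d = n) ∧
      DeadC G fr F jm z' fr' := by
  have hF := h.fresh
  obtain ⟨V', hV'⟩ : ∃ V' : Finset V, V' = fr.filter fun v => ∃ X, DeadC G fr F jm z' X ∧ v ∈ X :=
    ⟨_, rfl⟩
  have hmem : ∀ v, v ∈ V' ↔ ∃ X, DeadC G fr F jm z' X ∧ v ∈ X := by
    intro v
    rw [hV', mem_filter]
    constructor
    · exact fun h1 => h1.2
    · rintro ⟨X, h1, h2⟩
      exact ⟨h1.1.sub h2, X, h1, h2⟩
  have hmax : ∀ X, DeadC G fr F jm z' X → X ⊆ V' := fun X hX v hv => (hmem v).2 ⟨X, hX, hv⟩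
  have hadm : G.Adm fr F V' := by
    refine ⟨fun v hv => ?_, fun d hd hp => ?_⟩
    · obtain ⟨X, h1, h2⟩ := (hmem v).1 hv
      exact h1.1.sub h2
    · obtain ⟨X, h1, h2⟩ := (hmem _).1 hp
      exact (hmem _).2 ⟨X, h1, h1.1.clo d hd h2⟩
  have hbd : ∀ d ∈ G.bd V', z' d ≠ 0 := by
    intro d hd
    obtain ⟨h1, h2, h3⟩ := mem_bd.1 hd
    obtain ⟨X, h4, h5⟩ := (hmem _).1 h2
    exact h4.2.2 d (mem_bd.2 ⟨h1, h5, fun h6 => h3 (hmax X h4 h6)⟩)
  have hjm : jm ⊆ V' ∨ Disjoint jm V' := by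
    by_cases h1 : ∃ v ∈ jm, v ∈ V'
    · obtain ⟨v, h2, h3⟩ := h1
      obtain ⟨X, h4, h5⟩ := (hmem v).1 h3
      rcases h4.2.1 with h6 | h6
      · exact Or.inl (h6.trans (hmax X h4))
      · exact absurd h5 (disjoint_left.1 h6 h2)
    · right
      rw [disjoint_left]
      intro v h2 h3
      exact h1 ⟨v, h2, h3⟩
  have hD : DeadC G fr F jm z' V' := ⟨hadm, hjm, hbd⟩
  obtain ⟨hone, htok, hjl⟩ := hclean V' hD
  have hVfr : V' ⊆ fr := hadm.sub
  obtain ⟨z2, hz2⟩ : ∃ z2 : D → ℝ, z2 = fun d =>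
    if G.pi d ∈ V' ∧ G.pi (G.al d) ∈ V' then 1 else z' d := ⟨_, rfl⟩
  have hin : ∀ d, G.pi d ∈ V' → G.pi (G.al d) ∈ V' → z2 d = 1 := by
    intro d h1 h2
    rw [hz2]
    exact if_pos ⟨h1, h2⟩
  have hout : ∀ d, ¬ (G.pi d ∈ V' ∧ G.pi (G.al d) ∈ V') → z2 d = z' d := by
    intro d h1
    rw [hz2]
    exact if_neg h1
  have hunit : ∀ d ∈ G.ds, G.pi d ∈ V' → z2 d = 1 := by
    intro d hd hp
    by_cases h1 : G.pi (G.al d) ∈ V'
    · exact hin d hp h1
    · rw [hout d fun h2 => h1 h2.2]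
      exact hone d (mem_bd.2 ⟨hd, hp, h1⟩)
  have hsym : ∀ d ∈ G.ds, z2 (G.al d) = z2 d := by
    intro d hd
    by_cases h1 : G.pi d ∈ V' ∧ G.pi (G.al d) ∈ V'
    · rw [hin d h1.1 h1.2, hin (G.al d) h1.2 (by rw [G.al_al d hd]; exact h1.1)]
    · rw [hout d h1, hout (G.al d) (by rw [G.al_al d hd]; exact fun h2 => h1 ⟨h2.2, h2.1⟩)]
      exact hi.wt.sym d hd
  have hnat : ∀ d ∈ G.ds, ∃ n : ℕ, z2 d = n := by
    intro d hd
    by_cases h1 : G.pi d ∈ V' ∧ G.pi (G.al d) ∈ V'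
    · exact ⟨1, by rw [hin d h1.1 h1.2]; norm_num⟩
    · rw [hout d h1]
      exact hi.zi d hd
  have hdeg : ∀ v ∈ G.vs, ∑ d ∈ G.st v, z2 d + t' v = 3 := by
    intro v hv
    by_cases h1 : v ∈ V'
    · have h2 : ∑ d ∈ G.st v, z2 d = ∑ d ∈ G.st v, z d := by
        refine sum_congr rfl fun d hd => ?_
        obtain ⟨h3, h4⟩ := mem_st.1 hd
        rw [hunit d h3 (h4 ▸ h1), hF.unit d h3 (h4 ▸ hVfr h1)]
      rw [h2, htok v h1]
      exact h.wt.deg v hv
    · have h2 : ∑ d ∈ G.st v, z2 d = ∑ d ∈ G.st v, z' d := by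
        refine sum_congr rfl fun d hd => ?_
        obtain ⟨-, h4⟩ := mem_st.1 hd
        exact hout d fun h5 => h1 (h4 ▸ h5.1)
      rw [h2]
      exact hi.wt.deg v hv
  have hcut : ∀ W ⊆ G.vs, Odd W.card → 3 ≤ G.val z2 t' W := by
    intro W hW hWo
    by_contra hlt
    push Not at hlt
    obtain ⟨n, hn, hpar⟩ := val_par (G := G) (z := z2) (t := t') (X := W)
      (fun v hv => hdeg v (hW hv)) hsym hnat (fun v hv => hi.ti v (hW hv))
    have hn1 : n = 1 := by
      rw [hn] at hlt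
      have h1 : n < 3 := by exact_mod_cast hlt
      rw [Nat.odd_iff] at hWo
      omega
    have hval1 : G.val z2 t' W = 1 := by rw [hn, hn1]; norm_num
    have hnn : ∀ d ∈ G.bd W, 0 ≤ z2 d := by
      intro d hd
      obtain ⟨k, hk⟩ := hnat d (mem_bd.1 hd).1
      rw [hk]
      exact Nat.cast_nonneg k
    have htn : 0 ≤ ∑ v ∈ W, t' v := sum_nonneg fun v hv => hi.wt.t0 v (hW hv)
    -- no F-dart inside `V'` crosses
    have hnoF : ∀ d ∈ G.bd W, d ∈ F → G.pi d ∈ V' → False := by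
      intro d0 hd0 hd0F hd0V
      obtain ⟨S, hS⟩ : ∃ S : Finset D, S = (G.bd W).filter fun d => d ∈ F ∧ G.pi d ∈ V' := ⟨_, rfl⟩
      have hd0S : d0 ∈ S := by
        rw [hS]
        exact mem_filter.2 ⟨hd0, hd0F, hd0V⟩
      have hA : (F.filter fun d => G.pi d ∈ W ∩ V').card = 2 * (W ∩ V').card := by
        rw [card_eq_sum_card_fiberwise (f := G.pi) (s := F.filter fun d => G.pi d ∈ W ∩ V')
          (t := W ∩ V') (fun d hd => (mem_filter.1 (mem_coe.1 hd)).2)]
        rw [sum_congr rfl fun v hv => ?_, sum_const, smul_eq_mul, mul_comm]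
        have h1 := hF.two v (hVfr (mem_inter.1 hv).2)
        rw [← h1]
        congr 1
        ext d
        rw [mem_filter, mem_filter, mem_filter]
        constructor
        · rintro ⟨⟨h2, -⟩, h3⟩
          exact ⟨h2, h3⟩
        · rintro ⟨h2, h3⟩
          exact ⟨⟨h2, h3 ▸ hv⟩, h3⟩
      have hI : Even ((F.filter fun d => G.pi d ∈ W ∩ V').filter
          fun d => G.pi (G.al d) ∈ W ∩ V').card := by
        have h1 := sum_even_sym (G := G) (g := fun _ => 1)
          (S := (F.filter fun d => G.pi d ∈ W ∩ V').filter fun d => G.pi (G.al d) ∈ W ∩ V')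
          (fun d hd => hF.Fsub (mem_filter.1 (mem_filter.1 hd).1).1) ?_ (fun _ _ => rfl)
        · rwa [sum_const, smul_eq_mul, mul_one] at h1
        · intro d hd
          obtain ⟨h2, h3⟩ := mem_filter.1 hd
          obtain ⟨h4, h5⟩ := mem_filter.1 h2
          refine mem_filter.2 ⟨mem_filter.2 ⟨hF.Fal d h4, h3⟩, ?_⟩
          rw [G.al_al d (hF.Fsub h4)]
          exact h5
      have hSeq : S = (F.filter fun d => G.pi d ∈ W ∩ V').filter
          fun d => ¬ G.pi (G.al d) ∈ W ∩ V' := by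
        ext d
        rw [hS, mem_filter, mem_filter, mem_filter, mem_bd, mem_inter, mem_inter]
        constructor
        · rintro ⟨⟨-, h2, h3⟩, h4, h5⟩
          exact ⟨⟨h4, h2, h5⟩, fun h6 => h3 h6.1⟩
        · rintro ⟨⟨h2, h3, h4⟩, h5⟩
          exact ⟨⟨hF.Fsub h2, h3, fun h6 => h5 ⟨h6, hadm.clo d h2 h4⟩⟩, h2, h4⟩
      have hsum := card_filter_add_card_filter_not
        (s := F.filter fun d => G.pi d ∈ W ∩ V') (fun d => G.pi (G.al d) ∈ W ∩ V')
      have hpos : 0 < S.card := card_pos.2 ⟨d0, hd0S⟩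
      have h2 : 2 ≤ S.card := by
        rw [← hSeq] at hsum
        obtain ⟨k, hk⟩ := hI
        omega
      have h3 : ∑ d ∈ S, z2 d = S.card := by
        rw [sum_congr rfl fun d hd => ?_, sum_const, nsmul_eq_mul, mul_one]
        rw [hS] at hd
        obtain ⟨h4, h5, h6⟩ := mem_filter.1 hd
        exact hunit d (mem_bd.1 h4).1 h6
      have h4 : ∑ d ∈ S, z2 d ≤ ∑ d ∈ G.bd W, z2 d := by
        refine sum_le_sum_of_subset_of_nonneg ?_ fun d hd _ => hnn d hd
        rw [hS]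
        exact filter_subset _ _
      have h5 : (2 : ℝ) ≤ S.card := by exact_mod_cast h2
      unfold val at hval1
      linarith
    have hle : ∑ d ∈ G.bd W, z' d ≤ ∑ d ∈ G.bd W, z2 d := by
      refine sum_le_sum fun d hd => ?_
      by_cases h1 : G.pi d ∈ V' ∧ G.pi (G.al d) ∈ V'
      · rw [hin d h1.1 h1.2]
        exact hjl d (mem_bd.1 hd).1 (fun h2 => hnoF d hd h2 h1.1) h1.1 h1.2
      · rw [hout d h1]
    have h1 := hi.wt.cut W hW hWo
    unfold val at h1 hval1
    linarith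
  refine ⟨V', z2, ⟨⟨?_, hi.wt.t0, hsym, hdeg, hcut⟩, ?_, hVfr, fun d hd hp => hadm.clo d hd hp,
    hunit, ?_, ?_⟩, hnat, hD⟩
  · intro d hd
    obtain ⟨k, hk⟩ := hnat d hd
    rw [hk]
    exact Nat.cast_nonneg k
  · intro d hd hp
    by_cases h1 : G.pi d ∈ V' ∧ G.pi (G.al d) ∈ V'
    · rw [hF.unit d hd (hVfr h1.1)]
      norm_num
    · rw [hout d h1] at hp
      exact hi.supp d hd hp
  · intro X hX hev hXV
    have hXjm : jm ⊆ X ∨ Disjoint jm X := by
      rcases h.jm2 with h1 | h1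
      · rw [h1]
        exact Or.inl (empty_subset _)
      · have h2 : (X ∩ jm).card ≤ 2 := by
          rw [← h1]
          exact card_le_card inter_subset_right
        obtain ⟨k, hk⟩ := hev
        rcases Nat.eq_zero_or_pos (X ∩ jm).card with h3 | h3
        · right
          rw [card_eq_zero] at h3
          rw [disjoint_comm, disjoint_iff_inter_eq_empty]
          exact h3
        · left
          have h4 : (X ∩ jm) = jm := eq_of_subset_of_card_le inter_subset_right (by omega)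
          rw [← h4]
          exact inter_subset_left
    have hYjm : jm ⊆ X ∪ V' ∨ Disjoint jm (X ∪ V') := by
      rcases hXjm with h1 | h1
      · exact Or.inl (h1.trans subset_union_left)
      · rcases hjm with h2 | h2
        · exact Or.inl (h2.trans subset_union_right)
        · exact Or.inr (disjoint_union_right.2 ⟨h1, h2⟩)
    have hYadm : G.Adm fr F (X ∪ V') := by
      refine ⟨union_subset hX.sub hVfr, fun d hd hp => ?_⟩
      rcases mem_union.1 hp with h1 | h1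
      · exact mem_union_left _ (hX.clo d hd h1)
      · exact mem_union_right _ (hadm.clo d hd h1)
    have hnot : ¬ ∀ d ∈ G.bd (X ∪ V'), z' d ≠ 0 := fun h1 =>
      hXV (subset_union_left.trans (hmax _ ⟨hYadm, hYjm, h1⟩))
    push Not at hnot
    obtain ⟨d, hd, hd0⟩ := hnot
    obtain ⟨h1, h2, h3⟩ := mem_bd.1 hd
    have h4 : G.pi d ∉ V' := fun h5 =>
      hbd d (mem_bd.2 ⟨h1, h5, fun h6 => h3 (mem_union_right _ h6)⟩) hd0
    have h5 : G.pi d ∈ X := by
      rcases mem_union.1 h2 with h6 | h6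
      · exact h6
      · exact absurd h6 h4
    refine ⟨d, mem_bd.2 ⟨h1, h5, fun h6 => h3 (mem_union_left _ h6)⟩, ?_⟩
    rw [hout d fun h6 => h4 h6.1]
    exact hd0
  · rcases h.kind with h1 | ⟨h1, h2⟩
    · rw [← h1]
      rcases hjm with h3 | h3
      · exact Or.inl ⟨h3, h3⟩
      · exact Or.inr ⟨h3, h3⟩
    · rw [h1]
      by_cases h3 : ∃ v ∈ sx, v ∈ V'
      · obtain ⟨v, h4, h5⟩ := h3
        exact Or.inl ⟨h2 V' hadm v h4 h5, empty_subset _⟩
      · right
        refine ⟨?_, disjoint_empty_left _⟩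
        rw [disjoint_left]
        intro v h4 h5
        exact h3 ⟨v, h4, h5⟩

/-- **end of the argument for (INT+)** -/
theorem int_plus (h : G.InstS z t fr F jm sx ep m)
    (hi : IntP G z z' t') (ht4 : ∑ v ∈ G.vs, t' v ≤ 4)
    (hclean : ∀ X, DeadC G fr F jm z' X → CleanP G F t z' t' X)
    {x : V} (hx : x ∈ fr) (hxX : ∀ X, DeadC G fr F jm z' X → x ∉ X)
    (ih : ∀ (z'' : D → ℝ) (t'' : V → ℝ) (fr'' : Finset V) (F'' : Finset D) (jm'' sx'' : Finset V),
      fr''.card < fr.card → Int4 G z'' t'' → G.InstS z'' t'' fr'' F'' jm'' sx'' ep m →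
        ∃ M, G.GoodS z'' fr'' F'' sx'' M) :
    ∃ M, G.GoodS z fr F sx M := by
  obtain ⟨fr', z'', hs, hnat, hD⟩ := resetP h hi hclean
  have hcard : fr'.card < fr.card := by
    refine card_lt_card ((ssubset_iff_of_subset hs.sub).2 ⟨_, hx, hxX fr' hD⟩)
  obtain ⟨jm', sx', h5, h6⟩ := hs.inst h.toT
  obtain ⟨M, hM⟩ := ih z'' t' fr' _ jm' sx' hcard ⟨hnat, hi.ti, ht4⟩ (h5.toS (by linarith))
  exact ⟨M, hs.lift h.toT h6 hM⟩

/-- (INT+): `x` is a fresh vertex which lies in no set of classes that no dead dart leaves -/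
structure IntQ (G : MG V D) (z : D → ℝ) (t : V → ℝ) (fr : Finset V) (F : Finset D)
    (jm : Finset V) (z' : D → ℝ) (t' : V → ℝ) (x : V) : Prop where
  int : IntP G z z' t'
  tau : ∑ v ∈ G.vs, t' v ≤ 4
  clean : ∀ X, DeadC G fr F jm z' X → CleanP G F t z' t' X
  mx : x ∈ fr
  nx : ∀ X, DeadC G fr F jm z' X → x ∉ X

/-- **a minimal counterexample has no weights as in (INT+)** -/
theorem MCI.no_intQ (h : G.MCI z t fr F jm sx ep m) {x : V}
    (hi : IntQ G z t fr F jm z' t' x) : False :=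
  h.bad (int_plus h.inst hi.int hi.tau hi.clean hi.mx hi.nx
    fun z'' t'' fr'' F'' jm'' sx'' hlt h4 hI => h.ih G z'' t'' fr'' F'' jm'' sx'' ep (Or.inl hlt) h4 hI)

/-- an instance where no dead dart leaves a clean set: the leg form (INT) is a special case -/
theorem IntL.toQ (h : G.InstS z t fr F jm sx ep m) (h4 : Int4 G z t) {e0 : D}
    (hi : IntL G z t fr F z' t' e0) : IntQ G z t fr F jm z' t' (G.pi e0) where
  int := ⟨hi.int.wt, hi.int.zi, hi.int.supp⟩
  tau := hi.tau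
  clean := fun X hX => by
    have hc := clean_leg h h4 hi.int hi.tf hi.ed hi.ex hi.ev hi.two hi.le hX
    exact ⟨hc.1.1, hc.1.2, fun d hd hdF h1 h2 =>
      hi.int.jle d hd hdF (hX.1.sub h1) (hX.1.sub h2)⟩
  mx := hi.ex
  nx := fun X hX => (clean_leg h h4 hi.int hi.tf hi.ed hi.ex hi.ev hi.two hi.le hX).2

/-- the statement (INT+): every minimal counterexample of the class has such weights -/
def REACHP (V D : Type*) (m : ℕ) : Prop :=
  ∀ (G : MG V D) (z : D → ℝ) (t : V → ℝ) (fr : Finset V) (F : Finset D) (jm sx : Finset V)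
    (ep : V → ℕ), G.MCI z t fr F jm sx ep m → ∃ z' t' x, IntQ G z t fr F jm z' t' x

theorem REACHP.no_mci {V D : Type*} {m : ℕ} (h : REACHP V D m) (G : MG V D) (z : D → ℝ)
    (t : V → ℝ) (fr : Finset V) (F : Finset D) (jm sx : Finset V) (ep : V → ℕ) :
    ¬ G.MCI z t fr F jm sx ep m := by
  intro hm
  obtain ⟨z', t', x, h1⟩ := h G z t fr F jm sx ep hm
  exact hm.no_intQ h1

end MG

/-- **S11409 from (INT+)** for the class `Int4` -/
theorem final_of_REACHP {m : ℕ} (hm : m ≤ 6)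
    (h : ∀ (V D : Type) [Infinite V] [Infinite D], MG.REACHP V D m) :
    ∀ (V : Type) [Fintype V] (G : SimpleGraph V),
      (∀ v : V, (G.neighborSet v).ncard = 3) →
      (∀ v w : V, G.Adj v w → (G.deleteEdges {s(v, w)}).Reachable v w) →
      ∃ F₁ F₂ C : SimpleGraph V,
        F₁ ≤ G ∧ F₂ ≤ G ∧ C ≤ G ∧
        (∀ v : V, (F₁.neighborSet v).ncard = 2) ∧
        (∀ v : V, (F₂.neighborSet v).ncard = 2) ∧
        (∀ v : V, Even ((C.neighborSet v).ncard)) ∧
        F₁ ⊔ F₂ ⊔ C = G :=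
  final_of_noMCI hm fun V D _ _ => (h V D).no_mci

end RH
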