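import Pool.Agent.Lib.RH.I4Pole
import Pool.Agent.Lib.RH.I4CapS
import Pool.Agent.Lib.RH.I4Glue2

/-! Strictness of minimal counterexamples of the class `Int4` (helper87), REACH.md 2.3: the exact
list of tight odd sets and of even sets of value 2. -/

set_option autoImplicit false

namespace RH

open Finset Classical

namespace MG

variable {V D : Type*}
variable {G : MG V D} {z : D → ℝ} {t : V → ℝ} {fr : Finset V} {F : Finset D}
variable {jm sx : Finset V} {ep : V → ℕ} {m : ℕ} {M : Finset D} {T W X Z : Finset V} {a b e : D}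

/-- the two ends of an edge as a half matching -/
theorem half_edge (he : e ∈ G.ds) (hne : G.pi e ≠ G.pi (G.al e)) :
    G.Half {G.pi e, G.pi (G.al e)} {e, G.al e} where
  sub := by
    intro d hd
    rw [mem_insert, mem_singleton] at hd
    rcases hd with rfl | rfl
    · exact ⟨he, mem_insert_self _ _⟩
    · exact ⟨G.al_mem e he, mem_insert_of_mem (mem_singleton_self _)⟩
  cl := by
    intro d hd _
    rw [mem_insert, mem_singleton] at hd
    rcases hd with rfl | rfl
    · exact mem_insert_of_mem (mem_singleton_self _)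
    · rw [G.al_al e he]
      exact mem_insert_self _ _
  one := by
    intro v hv
    rw [mem_insert, mem_singleton] at hv
    rw [card_eq_one]
    rcases hv with rfl | rfl
    · refine ⟨e, ?_⟩
      rw [eq_singleton_iff_unique_mem, mem_filter]
      refine ⟨⟨mem_insert_self _ _, rfl⟩, fun d hd => ?_⟩
      obtain ⟨h1, h2⟩ := mem_filter.1 hd
      rw [mem_insert, mem_singleton] at h1
      rcases h1 with h1 | h1
      · exact h1
      · exact absurd (by rw [← h2, h1]) hne
    · refine ⟨G.al e, ?_⟩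
      rw [eq_singleton_iff_unique_mem, mem_filter]
      refine ⟨⟨mem_insert_of_mem (mem_singleton_self _), rfl⟩, fun d hd => ?_⟩
      obtain ⟨h1, h2⟩ := mem_filter.1 hd
      rw [mem_insert, mem_singleton] at h1
      rcases h1 with h1 | h1
      · exact absurd (by rw [← h2, h1]) hne
      · exact h1

/-- **adjacent vertices outside the circuits**: the rest has value at least 6 (otherwise match them
and solve the rest) -/
theorem MCI.pair_ge (h : G.MCI z t fr F jm sx ep 0) (he : e ∈ G.ds) (hz : z e ≠ 0)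
    (hp : G.pi e ∉ fr) (hq : G.pi (G.al e) ∉ fr) :
    6 ≤ G.val z t (G.vs \ {G.pi e, G.pi (G.al e)}) := by
  by_contra hlt
  push Not at hlt
  have hF := h.inst.fresh
  have hw := h.inst.wt
  have hae := G.al_mem e he
  have haa := G.al_al e he
  have hne : G.pi e ≠ G.pi (G.al e) := fun h1 => G.noloop e he h1.symm
  have hT : ({G.pi e, G.pi (G.al e)} : Finset V) ⊆ G.vs := by
    intro v hv
    rw [mem_insert, mem_singleton] at hv
    rcases hv with rfl | rfl
    · exact G.pi_mem e he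
    · exact G.pi_mem _ hae
  obtain ⟨Z, hZd⟩ : ∃ Z, Z = G.vs \ {G.pi e, G.pi (G.al e)} := ⟨_, rfl⟩
  rw [← hZd] at hlt
  have hZ : Z ⊆ G.vs := by
    rw [hZd]
    exact sdiff_subset
  have hcc : Z.card + 2 = G.vs.card := by
    have h1 := card_sdiff_add_card_eq_card hT
    rw [card_pair hne] at h1
    rw [hZd]
    exact h1
  have hev : Even Z.card := by
    obtain ⟨k, hk⟩ := h.inst.even
    exact ⟨k - 1, by omega⟩
  have hfrZ : fr ⊆ Z := by
    intro v hv
    rw [hZd, mem_sdiff, mem_insert, mem_singleton, not_or]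
    exact ⟨hF.fsub hv, fun h1 => hp (h1 ▸ hv), fun h1 => hq (h1 ▸ hv)⟩
  have hsx := h.inst.sx_eq
  have hnf : ∀ d ∈ G.bd Z, G.pi (G.al d) ∉ fr := fun d hd h1 => (mem_bd.1 hd).2.2 (hfrZ h1)
  obtain ⟨M2, half2, hpos2, hcr2, hhit2⟩ := h.in0 (jm' := jm) (B := (G.bd Z).image G.pi) hZ hev hlt
    (fun d hd _ => hfrZ (hF.Ffr _ (hF.Fal d hd))) (by omega)
    (fun v hv => mem_inter.2 ⟨hF.jms hv, hfrZ (hF.jms hv)⟩) h.inst.jm2
    (fun d hd _ => Or.inl (mem_image.2 ⟨d, hd, rfl⟩)) (fun v hv => Or.inl hv)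
    (fun v hv _ => Or.inl hv)
    (by
      intro X hX hXZ hXB hXe hn hjX
      have h1 : (G.res Z).bd X = G.bd X := by
        ext d
        rw [mem_bd, mem_bd]
        constructor
        · rintro ⟨h1, h2, h3⟩
          exact ⟨(mem_filter.1 h1).1, h2, h3⟩
        · rintro ⟨h1, h2, h3⟩
          refine ⟨mem_filter.2 ⟨h1, hXZ h2, ?_⟩, h2, h3⟩
          by_contra h4
          exact disjoint_left.1 hXB h2 (mem_image.2 ⟨d, mem_bd.2 ⟨h1, hXZ h2, h4⟩, rfl⟩)
      rw [h1]
      exact h.inst.b0 X hX hXe (by rw [hsx]; exact hn) (by rw [hsx]; exact hjX))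
  have hvZ : G.vs \ Z = {G.pi e, G.pi (G.al e)} := by
    rw [hZd, sdiff_sdiff_right_self]
    exact inter_eq_right.2 hT
  have half1 : G.Half (G.vs \ Z) {e, G.al e} := by
    rw [hvZ]
    exact half_edge he hne
  have hc1 : ∀ d ∈ ({e, G.al e} : Finset D), G.pi (G.al d) ∉ Z := by
    intro d hd h1
    have h2 : G.pi (G.al d) ∈ G.vs \ Z := by
      rw [hvZ]
      rw [mem_insert, mem_singleton] at hd
      rcases hd with rfl | rfl
      · exact mem_insert_of_mem (mem_singleton_self _)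
      · rw [haa]
        exact mem_insert_self _ _
    exact (mem_sdiff.1 h2).2 h1
  obtain ⟨hpm, hun⟩ := glue_un hZ half1 half2 hc1 hcr2
  refine h.finish hpm (fun d hd => ?_) ?_
  · rcases mem_union.1 hd with h1 | h1
    · have h2 : z d = z e := by
        rw [mem_insert, mem_singleton] at h1
        rcases h1 with rfl | rfl
        · rfl
        · exact hw.sym e he
      rw [h2]
      exact lt_of_le_of_ne (hw.z0 e he) (Ne.symm hz)
    · exact hpos2 d h1
  intro X hX hcl
  have hXZ : X ⊆ Z := hX.sub.trans hfrZ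
  have hXB : Disjoint X ((G.bd Z).image G.pi) := by
    rw [disjoint_left]
    intro v hv hvB
    obtain ⟨d, hd, rfl⟩ := mem_image.1 hvB
    exact hun d hd (hcl d (mem_bd.2 ⟨(mem_bd.1 hd).1, hv, fun h1 => hnf d hd (hX.sub h1)⟩))
  have hno : ¬ (Odd X.card ∨ (jm.Nonempty ∧ jm ⊆ X)) := by
    intro h1
    obtain ⟨d, h2, -, h3⟩ := hhit2 X hX hXZ hXB h1
    exact h3 (half_in half1 (hcl d h2) (hXZ (mem_bd.1 h2).2.1))
  rw [not_or] at hno
  exact ⟨Nat.not_odd_iff_even.1 hno.1, hno.2⟩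

/-- the value of two vertices in terms of the inner weight -/
theorem val_two (hw : G.Wt z t) {p q : V} (hT : ({p, q} : Finset V) ⊆ G.vs) (hpq : p ≠ q)
    (hz : ∀ d ∈ G.ds, G.pi d = p → G.pi (G.al d) = q → z d = 0) : G.val z t {p, q} = 6 := by
  rw [hw.val_eq hT, card_pair hpq]
  have h1 : ∑ d ∈ G.ed {p, q} {p, q}, z d = 0 := by
    refine sum_eq_zero fun d hd => ?_
    obtain ⟨h1, h2, h3⟩ := mem_ed.1 hd
    rw [mem_insert, mem_singleton] at h2 h3
    have hne := G.noloop d h1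
    rcases h2 with h2 | h2 <;> rcases h3 with h3 | h3
    · exact absurd (h3.trans h2.symm) hne
    · exact hz d h1 h2 h3
    · rw [← hw.sym d h1]
      exact hz _ (G.al_mem d h1) h3 (by rw [G.al_al d h1]; exact h2)
    · exact absurd (h3.trans h2.symm) hne
  rw [h1]
  norm_num

/-- a vertex has at most half of the tokens -/
theorem InstS.t_le_half (h : G.InstS z t fr F jm sx ep m) {v : V} (hv : v ∈ G.vs) :
    2 * t v ≤ ∑ w ∈ G.vs, t w := by
  have h1 := h.wt.val_compl (singleton_subset_iff.2 hv)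
  rw [h.wt.val_single hv, sum_singleton] at h1
  have h2 := h.wt.cut (G.vs \ {v}) sdiff_subset (by
    have h3 := card_sdiff_add_card_eq_card (singleton_subset_iff.2 hv)
    rw [card_singleton] at h3
    obtain ⟨k, hk⟩ := h.even
    exact ⟨k - 1, by omega⟩)
  linarith

/-- EVEN SETS OF VALUE 2, general form: one side consists of two vertices outside the circuits -/
theorem MCI.even_two [Infinite V] [Infinite D] (h : G.MCI z t fr F jm sx ep 0) (hZ : Z ⊆ G.vs)
    (he : Even Z.card) (hn : Z.Nonempty) (hn' : Z ≠ G.vs) (hv : G.val z t Z = 2) :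
    (Z.card = 2 ∧ Disjoint Z fr) ∨ ((G.vs \ Z).card = 2 ∧ Disjoint (G.vs \ Z) fr) := by
  have hF := h.inst.fresh
  have hw := h.inst.wt
  have hcc := card_sdiff_add_card_eq_card hZ
  -- a boundary dart of weight 1
  obtain ⟨d, hd, hzd⟩ := h.conn hZ hn hn'
  obtain ⟨d1, d2, d3⟩ := mem_bd.1 hd
  have hsum : ∑ d ∈ G.bd Z, z d + ∑ v ∈ Z, t v = 2 := hv
  have hadd := add_sum_erase (G.bd Z) z hd
  have hr : 0 ≤ ∑ d ∈ (G.bd Z).erase d, z d :=
    sum_nonneg fun d hd => hw.z0 d (mem_bd.1 (mem_erase.1 hd).2).1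
  have ht : 0 ≤ ∑ v ∈ Z, t v := sum_nonneg fun v hv => hw.t0 v (hZ hv)
  have hone : z d = 1 := by
    obtain ⟨n, hn⟩ := h.i4.zi d d1
    have hn0 : n ≠ 0 := fun k => hzd (by rw [hn, k]; norm_num)
    have hn2 : (n : ℝ) ≤ ((2 : ℕ) : ℝ) := by
      push_cast
      linarith
    have hn2' : n ≤ 2 := by exact_mod_cast hn2
    have hn1 : n = 1 ∨ n = 2 := by omega
    rcases hn1 with k | k
    · rw [hn, k]
      norm_num
    · exfalso
      rw [hn, k] at hadd
      push_cast at hadd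
      have h1 : ∑ d ∈ (G.bd Z).erase d, z d = 0 := by linarith
      have h2 : ∑ v ∈ Z, t v = 0 := by linarith
      have h3 := hw.cut (Z.erase (G.pi d)) ((erase_subset _ _).trans hZ) (erase_odd he d2)
      have h4 := hw.val_erase hZ d2
      have h5 : d ∈ G.ed {G.pi d} (G.vs \ Z) := mem_ed.2 ⟨d1, mem_singleton_self _,
        mem_sdiff.2 ⟨G.pi_mem _ (G.al_mem d d1), d3⟩⟩
      have h6 := single_le_sum (f := z) (s := G.ed {G.pi d} (G.vs \ Z))
        (fun d hd => hw.z0 d (mem_ed.1 hd).1) h5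
      have h7 := single_le_sum (f := t) (s := Z) (fun v hv => hw.t0 v (hZ hv)) d2
      have h8 := hw.t0 _ (hZ d2)
      rw [hn, k] at h6
      push_cast at h6
      rw [hv] at h4
      linarith
  by_contra hcon
  rw [not_or, not_and, not_and] at hcon
  obtain ⟨c1, c2⟩ := hcon
  have key : ∀ S : Finset V, S ⊆ G.vs → Even S.card → S.Nonempty →
      (S.card = 2 → ¬ Disjoint S fr) → 4 ≤ S.card ∨ (fr ∩ S).Nonempty := by
    intro S _ hSe hSn hS
    by_cases h1 : S.card = 2
    · right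
      have h2 := hS h1
      rw [not_disjoint_iff] at h2
      obtain ⟨v, h3, h4⟩ := h2
      exact ⟨v, mem_inter.2 ⟨h4, h3⟩⟩
    · left
      have h2 := card_pos.2 hSn
      obtain ⟨k, hk⟩ := hSe
      omega
  have hn'' : (G.vs \ Z).Nonempty := by
    rw [sdiff_nonempty]
    exact fun h1 => hn' (Finset.Subset.antisymm hZ h1)
  have he' : Even (G.vs \ Z).card := by
    obtain ⟨k, hk⟩ := he
    obtain ⟨l, hl⟩ := h.inst.even
    exact ⟨l - k, by omega⟩
  have hfr2 : (fr ∩ (G.vs \ Z)).Nonempty → (fr \ Z).Nonempty := by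
    rintro ⟨v, h1⟩
    obtain ⟨h2, h3⟩ := mem_inter.1 h1
    exact ⟨v, mem_sdiff.2 ⟨h2, (mem_sdiff.1 h3).2⟩⟩
  exact h.even2 hZ he hv hd hone (key Z hZ he hn c1)
    ((key _ sdiff_subset he' hn'' c2).imp id hfr2)

/-- two vertices outside the circuits with value 2: a 2-pole -/
theorem MCI.pole_of_two [Infinite V] [Infinite D] (h : G.MCI z t fr F jm sx ep 0) (hZ : Z ⊆ G.vs)
    (hc : Z.card = 2) (hd : Disjoint Z fr) (hv : G.val z t Z = 2) :
    ∃ a b, G.Pole z t fr Z a b := by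
  have hF := h.inst.fresh
  have hw := h.inst.wt
  obtain ⟨p, q, hpq, hZe⟩ := card_eq_two.1 hc
  have htau := h.tau_eq
  have hn : Z.Nonempty := card_pos.1 (by omega)
  have he : Even Z.card := by rw [hc]; exact ⟨1, rfl⟩
  have hn' : Z ≠ G.vs := by
    intro h1
    obtain ⟨v, hv⟩ := h.fr_ne
    exact disjoint_left.1 hd (by rw [h1]; exact hF.fsub hv) hv
  -- the two vertices are adjacent
  have hadj : ∃ e ∈ G.ds, G.pi e = p ∧ G.pi (G.al e) = q ∧ z e ≠ 0 := by
    by_contra hcon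
    push Not at hcon
    have h1 := val_two hw (p := p) (q := q) (hZe ▸ hZ) hpq hcon
    rw [← hZe, hv] at h1
    norm_num at h1
  obtain ⟨e, he1, he2, he3, he4⟩ := hadj
  have hpZ : p ∈ Z := by rw [hZe]; exact mem_insert_self _ _
  have hqZ : q ∈ Z := by rw [hZe]; exact mem_insert_of_mem (mem_singleton_self _)
  have h6 := h.pair_ge he1 he4 (by rw [he2]; exact disjoint_left.1 hd hpZ)
    (by rw [he3]; exact disjoint_left.1 hd hqZ)
  rw [he2, he3, ← hZe, hw.val_compl hZ, hv, htau] at h6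
  have ht0 : 0 ≤ ∑ v ∈ Z, t v := sum_nonneg fun v hv => hw.t0 v (hZ hv)
  have ht : ∑ v ∈ Z, t v = 0 := by linarith
  have htv : ∀ v ∈ Z, t v = 0 := by
    intro v hv
    have h7 := single_le_sum (f := t) (s := Z) (fun v hv => hw.t0 v (hZ hv)) hv
    have h8 := hw.t0 v (hZ hv)
    linarith
  have hsum : ∑ d ∈ G.bd Z, z d = 2 := by
    unfold val at hv
    linarith
  -- no vertex takes the whole boundary
  have hle : ∀ d ∈ G.bd Z, z d ≤ 1 := by
    intro d hd'
    obtain ⟨d1, d2, d3⟩ := mem_bd.1 hd'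
    have h3 := hw.cut (Z.erase (G.pi d)) ((erase_subset _ _).trans hZ) (erase_odd he d2)
    have h4 := hw.val_erase hZ d2
    have h5 : d ∈ G.ed {G.pi d} (G.vs \ Z) := mem_ed.2 ⟨d1, mem_singleton_self _,
      mem_sdiff.2 ⟨G.pi_mem _ (G.al_mem d d1), d3⟩⟩
    have h6 := single_le_sum (f := z) (s := G.ed {G.pi d} (G.vs \ Z))
      (fun d hd => hw.z0 d (mem_ed.1 hd).1) h5
    rw [hv, htv _ d2] at h4
    linarith
  obtain ⟨d, hdb, hdz⟩ := h.conn hZ hn hn'
  have hnat : ∀ d ∈ G.bd Z, z d ≠ 0 → z d = 1 := by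
    intro d hd' hz
    obtain ⟨n, hn⟩ := h.i4.zi d (mem_bd.1 hd').1
    have h7 := hle d hd'
    have h8 : n ≠ 0 := fun k => hz (by rw [hn, k]; norm_num)
    rw [hn] at h7
    have h9 : n ≤ 1 := by exact_mod_cast h7
    have h10 : n = 1 := by omega
    rw [hn, h10]
    norm_num
  have hd1 := hnat d hdb hdz
  have hadd := add_sum_erase (G.bd Z) z hdb
  have hs1 : ∑ c ∈ (G.bd Z).erase d, z c = 1 := by linarith
  obtain ⟨g, hg, hgz⟩ : ∃ g ∈ (G.bd Z).erase d, z g ≠ 0 := by
    by_contra hcon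
    push Not at hcon
    rw [sum_eq_zero hcon] at hs1
    norm_num at hs1
  obtain ⟨hgd, hgb⟩ := mem_erase.1 hg
  have hg1 := hnat g hgb hgz
  have hadd2 := add_sum_erase ((G.bd Z).erase d) z hg
  have hs2 : ∑ c ∈ ((G.bd Z).erase d).erase g, z c = 0 := by linarith
  obtain ⟨a1, a2, a3⟩ := mem_bd.1 hdb
  obtain ⟨b1, b2, b3⟩ := mem_bd.1 hgb
  have haa := G.al_al d a1
  have hbb := G.al_al g b1
  refine ⟨G.al d, G.al g, hZ, he, hd, htv, G.al_mem d a1, G.al_mem g b1, a3, b3,
    by rw [haa]; exact a2, by rw [hbb]; exact b2, ?_, by rw [hw.sym d a1]; exact hd1,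
    by rw [hw.sym g b1]; exact hg1, ?_⟩
  · intro h1
    exact hgd (by rw [← hbb, ← h1, haa])
  · intro c hc1 hc2 hc3 hc4 hc5
    have hcc := G.al_al c hc1
    have h1 : G.al c ∈ ((G.bd Z).erase d).erase g := by
      refine mem_erase.2 ⟨fun h1 => hc5 (by rw [← h1, hcc]), mem_erase.2
        ⟨fun h1 => hc4 (by rw [← h1, hcc]), mem_bd.2 ⟨G.al_mem c hc1, hc3, by
          rw [hcc]; exact hc2⟩⟩⟩
    have h2 := (sum_eq_zero_iff_of_nonneg (s := ((G.bd Z).erase d).erase g) (f := z)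
      fun d hd => hw.z0 d (mem_bd.1 (mem_erase.1 (mem_erase.1 hd).2).2).1).1 hs2 _ h1
    rw [← hw.sym c hc1]
    exact h2

/-- **EVEN SETS OF VALUE 2**: a 2-pole with two vertices, or the complement of two vertices with two
tokens each -/
theorem MCI.even_list [Infinite V] [Infinite D] (h : G.MCI z t fr F jm sx ep 0) (hZ : Z ⊆ G.vs)
    (he : Even Z.card) (hn : Z.Nonempty) (hn' : Z ≠ G.vs) (hv : G.val z t Z = 2) :
    (Z.card = 2 ∧ ∃ a b, G.Pole z t fr Z a b) ∨
      ∃ p q, p ≠ q ∧ G.vs \ Z = {p, q} ∧ p ∉ fr ∧ q ∉ fr ∧ t p = 2 ∧ t q = 2 := by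
  have hw := h.inst.wt
  rcases h.even_two hZ he hn hn' hv with ⟨h1, h2⟩ | ⟨h1, h2⟩
  · exact Or.inl ⟨h1, h.pole_of_two hZ h1 h2 hv⟩
  · right
    obtain ⟨p, q, hpq, hZe⟩ := card_eq_two.1 h1
    have hpm : p ∈ G.vs \ Z := by rw [hZe]; exact mem_insert_self _ _
    have hqm : q ∈ G.vs \ Z := by rw [hZe]; exact mem_insert_of_mem (mem_singleton_self _)
    have hss : G.vs \ (G.vs \ Z) = Z := by
      rw [sdiff_sdiff_right_self]
      exact inter_eq_right.2 hZ
    have h6 : G.val z t {p, q} = 6 := by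
      refine val_two hw (hZe ▸ sdiff_subset) hpq fun d hd hp hq => ?_
      by_contra hz
      have h3 := h.pair_ge hd hz (by rw [hp]; exact disjoint_left.1 h2 hpm)
        (by rw [hq]; exact disjoint_left.1 h2 hqm)
      rw [hp, hq, ← hZe, hss, hv] at h3
      norm_num at h3
    have htau := h.tau_eq
    have h7 := hw.val_compl hZ
    rw [hZe, h6, hv, htau] at h7
    have h8 : ∑ v ∈ Z, t v = 0 := by linarith
    have h9 := sum_sdiff hZ (f := t)
    rw [h8, htau, hZe, sum_pair hpq, add_zero] at h9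
    have h10 := h.inst.t_le_half (mem_sdiff.1 hpm).1
    have h11 := h.inst.t_le_half (mem_sdiff.1 hqm).1
    rw [htau] at h10 h11
    exact ⟨p, q, hpq, hZe, disjoint_left.1 h2 hpm, disjoint_left.1 h2 hqm, by linarith, by linarith⟩

/-- **EVEN SETS OF VALUE 2 without star**: only the complement of two vertices with two tokens -/
theorem MCI.even_strict [Infinite V] [Infinite D] (h : G.MCI z t fr F ∅ ∅ ep 0) (hZ : Z ⊆ G.vs)
    (he : Even Z.card) (hn : Z.Nonempty) (hn' : Z ≠ G.vs) (hv : G.val z t Z = 2) :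
    ∃ p q, p ≠ q ∧ G.vs \ Z = {p, q} ∧ p ∉ fr ∧ q ∉ fr ∧ t p = 2 ∧ t q = 2 := by
  rcases h.even_list hZ he hn hn' hv with ⟨-, a, b, h1⟩ | h1
  · exact (h.no_pole (by rw [h.tau_eq]; norm_num) h1).elim
  · exact h1

end MG

end RH
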