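import Pool.Agent.Lib.RH.I4Strict

/-! Strictness of minimal counterexamples of the class `Int4` (helper87), part 2: 2-poles with star,
digons, the odd tight sets. -/

set_option autoImplicit false

namespace RH

open Finset Classical

namespace MG

variable {V D : Type*}
variable {G : MG V D} {z : D → ℝ} {t : V → ℝ} {fr : Finset V} {F : Finset D}
variable {jm sx : Finset V} {ep : V → ℕ} {m : ℕ} {M : Finset D} {T W X Z : Finset V} {a b e : D} {x p q u : V}

/-- all star vertices count as ports -/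
theorem InstS.ep_ind (h : G.InstS z t fr F jm sx ep 0) :
    G.InstS z t fr F jm sx (fun v => if v ∈ jm then 1 else 0) 0 := by
  refine { h with cc := ?_, ev := fun _ _ _ _ => Nat.zero_le _, epj := fun v _ => le_rfl }
  intro X hX ho
  have h1 := h.cc X hX ho
  have h2 := h.ep_le hX.sub
  rw [sum_ite_card]
  omega

/-- **2-POLES**: only in the star world with one more vertex outside the circuits -/
theorem MCI.pole_star (h : G.MCI z t fr F jm sx ep 0) (p : G.Pole z t fr T a b) :
    jm.Nonempty ∧ ∃ v ∈ G.vs, v ∉ fr ∧ t v = 2 ∧ G.vs \ (fr ∪ T) = {v} := by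
  have hF := h.inst.fresh
  have hw := h.inst.wt
  have htau := h.tau_eq
  rcases Finset.eq_empty_or_nonempty jm with hj0 | hjn
  · exfalso
    have hsx := h.inst.sx_eq
    subst hsx
    subst hj0
    exact h.no_pole (by rw [htau]; norm_num) p
  refine ⟨hjn, ?_⟩
  have hjc : jm.card = 2 := h.inst.jm2.resolve_left fun h1 => by
    rw [h1] at hjn
    exact not_nonempty_empty hjn
  have hsx := h.inst.sx_eq
  by_contra hex
  have q := p.pl hw
  have hval : ∀ X, G.Adm fr F X → G.val z t X = ((G.bd X).card + (X ∩ jm).card : ℕ) := by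
    intro X hX
    unfold val
    rw [sum_congr rfl fun d hd => hF.unit d (mem_bd.1 hd).1 (hX.sub (mem_bd.1 hd).2.1), sum_const,
      nsmul_eq_mul, mul_one, hF.sum_t hw hX.sub]
    push_cast
    rfl
  have hXT : ∀ X, G.Adm fr F X → Disjoint X T := fun X hX =>
    disjoint_left.2 fun v hv hvT => disjoint_left.1 p.dis hvT (hX.sub hv)
  have hI : (G.pole q).InstS z t fr F jm sx (fun v => if v ∈ jm then 1 else 0) 0 := by
    refine p.inst h.inst.ep_ind q ?_ ?_ ?_
    · intro X hX ho hXa hXb
      rw [sum_ite_card]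
      have h5 := h.inst.ep_ind.cc X hX ho
      rw [sum_ite_card] at h5
      have h6 := hF.bd_par hX
      by_contra hlt
      have ho' := Nat.odd_iff.1 ho
      have h7 : (G.bd X).card + (X ∩ jm).card = 5 := by omega
      have hd := hXT X hX
      have hWs : X ∪ T ⊆ G.vs := union_subset (hX.sub.trans hF.fsub) p.sub
      have h8 : G.val z t (X ∪ T) = 3 := by
        rw [p.val_union hw hd hXa hXb, hval X hX, h7]
        norm_num
      have hTc : 2 ≤ T.card := by
        have h9 : 0 < T.card := card_pos.2 ⟨_, p.aT'⟩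
        obtain ⟨l, hl⟩ := p.even
        omega
      have hWc : (X ∪ T).card = X.card + T.card := card_union_of_disjoint hd
      have hWo : Odd (X ∪ T).card := by
        rw [hWc]
        exact ho.add_even p.even
      have hWo' := Nat.odd_iff.1 hWo
      rcases hw.tight_cases h.inst.even hWs hWo h8 with ⟨v, -, k1⟩ | ⟨v, k1, k2, k3⟩ | ⟨k1, k2⟩
      · rw [k1, card_singleton] at hWc
        omega
      · rw [htau] at k2
        have k4 : t v = 2 := by linarith
        have k5 : v ∉ fr := by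
          intro k6
          by_cases k7 : v ∈ jm
          · rw [hF.t_jm hw k7] at k4
            norm_num at k4
          · rw [hF.t_not_jm hw k6 k7] at k4
            norm_num at k4
        have k6 : X = fr := by
          refine Finset.Subset.antisymm hX.sub fun u hu => ?_
          have k7 : u ∈ X ∪ T := by
            rw [k3, mem_sdiff, mem_singleton]
            exact ⟨hF.fsub hu, fun k8 => k5 (k8 ▸ hu)⟩
          rcases mem_union.1 k7 with k8 | k8
          · exact k8
          · exact absurd hu (disjoint_left.1 p.dis k8)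
        refine hex ⟨v, k1, k5, k4, ?_⟩
        rw [← k6, k3, sdiff_sdiff_right_self]
        exact inter_eq_right.2 (singleton_subset_iff.2 k1)
      · refine h.no_tight hWs hWo h8 k1 k2 fun d hd1 hp => ?_
        rcases mem_union.1 hp with h11 | h11
        · exact mem_union_left _ (hX.clo d hd1 h11)
        · exact absurd (hF.Ffr d hd1) (disjoint_left.1 p.dis h11)
    · intro X hX he hXa hXb
      have h1 := (p.bd_adm2 hF q hX.sub hXa hXb).1
      omega
    · intro X hX he hne hs hXa hXb
      have h1 := h.inst.b0 X hX he hne hs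
      have h6 := hF.bd_par hX
      rw [hsx] at hs
      have h7 : (X ∩ jm).card = 2 := by
        rw [inter_eq_right.2 hs]
        exact hjc
      rw [h7] at h6
      by_contra hlt
      have he' := Nat.even_iff.1 he
      have h8 : (G.bd X).card = 2 := by omega
      have ha : a ∈ G.bd X := mem_bd.2 ⟨p.ad, hXa, fun k =>
        disjoint_left.1 p.dis p.aT' (hX.sub k)⟩
      have hb : b ∈ G.bd X := mem_bd.2 ⟨p.bd, hXb, fun k =>
        disjoint_left.1 p.dis p.bT' (hX.sub k)⟩
      have h9 : G.bd X = {a, b} := by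
        refine (eq_of_subset_of_card_le ?_ ?_).symm
        · intro d hd
          rw [mem_insert, mem_singleton] at hd
          rcases hd with rfl | rfl
          · exact ha
          · exact hb
        · rw [h8, card_pair p.ne]
      have hWs : X ∪ T ⊆ G.vs := union_subset (hX.sub.trans hF.fsub) p.sub
      have hall : X ∪ T = G.vs := by
        by_contra hne'
        obtain ⟨d, hd, hz⟩ := h.conn hWs ⟨_, mem_union_left _ hXa⟩ hne'
        obtain ⟨d1, d2, d3⟩ := mem_bd.1 hd
        rw [mem_union, not_or] at d3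
        rcases mem_union.1 d2 with d4 | d4
        · have d5 : d ∈ G.bd X := mem_bd.2 ⟨d1, d4, d3.1⟩
          rw [h9, mem_insert, mem_singleton] at d5
          rcases d5 with rfl | rfl
          · exact d3.2 p.aT'
          · exact d3.2 p.bT'
        · have d5 := G.al_al d d1
          apply hz
          rw [← hw.sym d d1]
          refine p.out _ (G.al_mem d d1) d3.2 (by rw [d5]; exact d4) ?_ ?_
          · intro k
            exact d3.1 (by rw [k]; exact hXa)
          · intro k
            exact d3.1 (by rw [k]; exact hXb)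
      have h10 : ∑ v ∈ X ∪ T, t v = 2 := by
        rw [sum_union (hXT X hX), hF.sum_t hw hX.sub, h7, sum_eq_zero p.tok]
        norm_num
      rw [hall, htau] at h10
      norm_num at h10
  have hlt : (G.pole q).vs.card < G.vs.card := by
    have h1 : (G.vs \ T).card + T.card = G.vs.card := card_sdiff_add_card_eq_card p.sub
    have h9 : 0 < T.card := card_pos.2 ⟨_, p.aT'⟩
    change (G.vs \ T).card < G.vs.card
    omega
  obtain ⟨N, hN⟩ := h.ih (G.pole q) z t fr F jm sx _ (Or.inr ⟨rfl, Or.inl hlt⟩)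
    (Int4.of_inst hI fun d hd => h.i4.zi d ((mem_pole_ds q).1 hd).1) hI
  exact h.bad (p.good hw hF q hN)

/-- the digon of a `Dig` set has value 2 -/
theorem Dig.val_two (k : G.Dig z t fr W x p q) (hF : G.FrS z fr F jm) (hw : G.Wt z t)
    (hW : W ⊆ G.vs) (h3 : G.val z t W = 3) :
    {p, q} ⊆ G.vs ∧ ({p, q} : Finset V).card = 2 ∧ Disjoint ({p, q} : Finset V) fr ∧
      G.val z t {p, q} = 2 := by
  obtain ⟨j, j1, j2, j3⟩ := k.xp
  have hWe := k.W
  have hpW : p ∈ W := by rw [hWe]; simp
  have hqW : q ∈ W := by rw [hWe]; simp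
  have hxW : x ∈ W := by rw [hWe]; simp
  have hxp : x ≠ p := fun h1 => k.pf (h1 ▸ k.xf)
  have hxq : x ≠ q := fun h1 => k.qf (h1 ▸ k.xf)
  have hjF : j ∉ F := fun h1 => k.pf (j3 ▸ hF.Ffr _ (hF.Fal j h1))
  have hxj : x ∉ jm := fun h1 => hjF (hF.j0 x h1 j (mem_st.2 ⟨j1, j2⟩))
  obtain ⟨j', -, -, -, hju⟩ := hF.exists_jd k.xf hxj
  have hjj := hju j j1 j2 hjF
  have he : W.erase x = {p, q} := by
    rw [hWe, erase_insert]
    rw [mem_insert, mem_singleton, not_or]
    exact ⟨hxp, hxq⟩
  have h4 := hw.val_erase hW hxW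
  have h5 : G.ed {x} (G.vs \ W) = F.filter fun d => G.pi d = x := by
    ext d
    rw [mem_ed, mem_filter, mem_singleton, mem_sdiff]
    constructor
    · rintro ⟨d1, d2, -, d4⟩
      refine ⟨?_, d2⟩
      by_contra hdF
      rw [hju d d1 d2 hdF, ← hjj, j3] at d4
      exact d4 hpW
    · rintro ⟨d1, d2⟩
      have d3 := hF.Ffr _ (hF.Fal d d1)
      have d4 := hF.Fsub d1
      refine ⟨d4, d2, hF.fsub d3, ?_⟩
      rw [hWe, mem_insert, mem_insert, mem_singleton, not_or, not_or]
      exact ⟨fun h1 => G.noloop d d4 (h1.trans d2.symm), fun h1 => k.pf (h1 ▸ d3),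
        fun h1 => k.qf (h1 ▸ d3)⟩
  have h6 : ∑ d ∈ G.ed {x} (G.vs \ W), z d = 2 := by
    rw [h5, sum_congr rfl (g := fun _ => (1 : ℝ)), sum_const, hF.two x k.xf]
    · norm_num
    · intro d hd
      obtain ⟨d1, d2⟩ := mem_filter.1 hd
      exact hF.unit d (hF.Fsub d1) (by rw [d2]; exact k.xf)
  rw [he, h3, h6, hF.t_not_jm hw k.xf hxj] at h4
  refine ⟨?_, card_pair k.pq, ?_, by rw [h4]; norm_num⟩
  · intro v hv
    rw [mem_insert, mem_singleton] at hv
    rcases hv with rfl | rfl
    · exact hW hpW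
    · exact hW hqW
  · rw [disjoint_left]
    intro v hv
    rw [mem_insert, mem_singleton] at hv
    rcases hv with rfl | rfl
    · exact k.pf
    · exact k.qf

/-- a digon in a minimal counterexample: only in the star world with one more vertex outside -/
theorem MCI.dig_star [Infinite V] [Infinite D] (h : G.MCI z t fr F jm sx ep 0) (hW : W ⊆ G.vs)
    (h3 : G.val z t W = 3) (k : G.Dig z t fr W x p q) :
    jm.Nonempty ∧ ∃ v ∈ G.vs, v ∉ fr ∧ t v = 2 ∧ G.vs \ (fr ∪ {p, q}) = {v} := by
  obtain ⟨h1, h2, h4, h5⟩ := k.val_two h.inst.fresh h.inst.wt hW h3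
  obtain ⟨a, b, hp⟩ := h.pole_of_two h1 h2 h4 h5
  exact h.pole_star hp

/-- the complement of a capped set: two vertices with two tokens each and the end of a leg -/
theorem Cap.tokens {a b : V} (c : G.Cap z t fr W u a b) (hF : G.FrS z fr F jm) (hw : G.Wt z t)
    (ht : ∑ v ∈ G.vs, t v = 4) : t a = 2 ∧ t b = 2 := by
  have hb := c.tb
  rw [ht] at hb
  refine ⟨?_, by linarith⟩
  obtain ⟨j, j1, j2, j3⟩ := c.ua
  have hjF : j ∉ F := fun h1 => c.af (j3 ▸ hF.Ffr _ (hF.Fal j h1))
  have huj : u ∉ jm := fun h1 => hjF (hF.j0 u h1 j (mem_st.2 ⟨j1, j2⟩))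
  obtain ⟨j', -, -, -, hju⟩ := hF.exists_jd c.uf huj
  have hjj := hju j j1 j2 hjF
  have haU : a ∈ G.vs \ W := by rw [c.U]; simp
  have hav := (mem_sdiff.1 haU).1
  have hja := G.al_al j j1
  have h1 : ∑ d ∈ G.st a, z d = z (G.al j) := by
    refine sum_eq_single_of_mem (G.al j) (mem_st.2 ⟨G.al_mem j j1, j3⟩) fun d hd hne => ?_
    obtain ⟨d1, d2⟩ := mem_st.1 hd
    by_contra hz
    have d3 := c.nb d d1 d2 hz
    have d4 := G.al_al d d1
    have d5 : G.al d ∉ F := fun h2 => by
      have h3 := hF.Ffr _ (hF.Fal _ h2)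
      rw [d4, d2] at h3
      exact c.af h3
    have d6 := hju _ (G.al_mem d d1) d3 d5
    exact hne (by rw [← d4, d6, hjj])
  have h2 := hw.deg a hav
  rw [h1, hw.sym j j1, hF.unit j j1 (by rw [j2]; exact c.uf)] at h2
  linarith

/-- **THE TIGHT SETS OF A MINIMAL COUNTEREXAMPLE OF THE CLASS**: (1) the complement consists of two
vertices with two tokens each and the end `u` of the leg of one of them (no star); (2) star, atom:
the complement is a vertex with two tokens and fresh vertices; (3) star, the vertices outside the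
circuits are a vertex with two tokens and a digon `p q`, and `W` is the digon with the end of one
of its legs -/
theorem MCI.odd_list [Infinite V] [Infinite D] (h : G.MCI z t fr F jm sx ep 0)
    (hW : W ⊆ G.vs) (hWo : Odd W.card) (h3 : G.val z t W = 3)
    (hc1 : 3 ≤ W.card) (hc2 : 3 ≤ (G.vs \ W).card) :
    (jm = ∅ ∧ ∃ u a b, G.Cap z t fr W u a b ∧ t a = 2 ∧ t b = 2) ∨
    (jm.Nonempty ∧ ∃ y, G.Atom t fr W y ∧ t y = 2) ∨
    (jm.Nonempty ∧ ∃ x p q, G.Dig z t fr W x p q ∧ ∃ v ∈ G.vs, v ∉ fr ∧ t v = 2 ∧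
      G.vs \ (fr ∪ {p, q}) = {v}) := by
  have hF := h.inst.fresh
  have hw := h.inst.wt
  have hsx := h.inst.sx_eq
  subst hsx
  rcases h.inst.jm2 with hj | hj
  · subst hj
    rcases h.tight_list hW hWo h3 hc1 hc2 with ⟨x, p, q, k⟩ | ⟨u, a, b, c⟩
    · exact absurd (h.dig_star hW h3 k).1 not_nonempty_empty
    · exact Or.inl ⟨rfl, u, a, b, c, c.tokens hF hw h.tau_eq⟩
  · have hjn : sx.Nonempty := card_pos.1 (by omega)
    rcases h.tight_star hj hW hWo h3 hc1 hc2 with ⟨x, p, q, k⟩ | ⟨y, k⟩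
    · exact Or.inr (Or.inr ⟨hjn, x, p, q, k, (h.dig_star hW h3 k).2⟩)
    · have h4 := k.ty
      rw [h.tau_eq] at h4
      exact Or.inr (Or.inl ⟨hjn, y, k, by linarith⟩)

/-- **strictness without star**: every tight set is the complement of two vertices with two tokens
and the end of the leg of one of them -/
theorem MCI.odd_strict [Infinite V] [Infinite D] (h : G.MCI z t fr F ∅ ∅ ep 0)
    (hW : W ⊆ G.vs) (hWo : Odd W.card) (hv : G.val z t W < 5)
    (hc1 : 3 ≤ W.card) (hc2 : 3 ≤ (G.vs \ W).card) :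
    ∃ u a b, G.Cap z t fr W u a b ∧ t a = 2 ∧ t b = 2 := by
  rcases h.odd_list hW hWo (h.i4.odd_lt h.inst.wt hW hWo hv) hc1 hc2 with ⟨-, h1⟩ | ⟨h1, -⟩ | ⟨h1, -⟩
  · exact h1
  · exact absurd h1 not_nonempty_empty
  · exact absurd h1 not_nonempty_empty

/-- **even sets**: value at least 4, except (1) the complement of two vertices with two tokens each
(no star), (2) star, a digon, one more vertex outside the circuits -/
theorem MCI.even_ge [Infinite V] [Infinite D] (h : G.MCI z t fr F jm sx ep 0) (hZ : Z ⊆ G.vs)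
    (he : Even Z.card) (hn : Z.Nonempty) (hn' : Z ≠ G.vs) (hv : G.val z t Z < 4) :
    (jm = ∅ ∧ ∃ p q, p ≠ q ∧ G.vs \ Z = {p, q} ∧ p ∉ fr ∧ q ∉ fr ∧ t p = 2 ∧ t q = 2) ∨
    (jm.Nonempty ∧ Z.card = 2 ∧ Disjoint Z fr ∧ ∃ v ∈ G.vs, v ∉ fr ∧ t v = 2 ∧
      G.vs \ (fr ∪ Z) = {v}) := by
  have hF := h.inst.fresh
  have hw := h.inst.wt
  have htau := h.tau_eq
  have hv2 : G.val z t Z = 2 := by
    obtain ⟨k, h1, h2⟩ := h.i4.val_nat hw hZ
    have h3 : G.val z t Z ≠ 0 := by
      intro h4
      obtain ⟨d, hd, hz⟩ := h.conn hZ hn hn'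
      have h5 : 0 ≤ ∑ v ∈ Z, t v := sum_nonneg fun v hv => hw.t0 v (hZ hv)
      have h6 := single_le_sum (f := z) (s := G.bd Z) (fun d hd => hw.z0 d (mem_bd.1 hd).1) hd
      have h7 := hw.z0 d (mem_bd.1 hd).1
      unfold val at h4
      exact hz (by linarith)
    rw [h1] at hv h3 ⊢
    have h4 : k < 4 := by exact_mod_cast hv
    have h5 : k ≠ 0 := fun h6 => h3 (by rw [h6]; norm_num)
    have h6 := Nat.even_iff.1 he
    have h7 : k = 2 := by omega
    rw [h7]
    norm_num
  rcases h.even_list hZ he hn hn' hv2 with ⟨h1, a, b, hp⟩ | ⟨p, q, h1, h2, h3, h4, h5, h6⟩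
  · right
    obtain ⟨h7, h8⟩ := h.pole_star hp
    exact ⟨h7, h1, hp.dis, h8⟩
  · left
    refine ⟨?_, p, q, h1, h2, h3, h4, h5, h6⟩
    by_contra hj
    have hjn := nonempty_iff_ne_empty.2 hj
    obtain ⟨x, hx⟩ := hjn
    have h7 := hF.t_jm hw hx
    have hxf := hF.jms hx
    have h8 : x ∈ Z := by
      by_contra h9
      have h10 : x ∈ G.vs \ Z := mem_sdiff.2 ⟨hF.fsub hxf, h9⟩
      rw [h2, mem_insert, mem_singleton] at h10
      rcases h10 with h10 | h10
      · exact h3 (h10 ▸ hxf)
      · exact h4 (h10 ▸ hxf)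
    have h9 := single_le_sum (f := t) (s := Z) (fun v hv => hw.t0 v (hZ hv)) h8
    have h10 := sum_sdiff hZ (f := t)
    rw [h2, sum_pair h1, h5, h6, htau] at h10
    linarith

end MG

end RH
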