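import Pool.Agent.Lib.RH.MC

/-! The step in the star frame. -/

set_option autoImplicit false

namespace RH

open Finset Classical

namespace MG

variable {V D : Type*} {G : MG V D} {z z' : D → ℝ} {t t' : V → ℝ} {M : Finset D}
variable {fr fr' : Finset V} {F : Finset D} {jm sx : Finset V} {ep : V → ℕ} {m : ℕ}

/-- data of a step in the star frame: new weights in the support of the old ones, the classes
outside `fr'` are absorbed; every union which contains an even number of vertices without J-dart and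
contains an absorbed class has a killed edge in its boundary; the star is kept or disappears.
No bound for the new number of tokens -/
structure IsStepT (G : MG V D) (z : D → ℝ) (fr : Finset V) (F : Finset D) (jm sx : Finset V)
    (z' : D → ℝ) (t' : V → ℝ) (fr' : Finset V) : Prop where
  wt : G.Wt z' t'
  supp : ∀ d ∈ G.ds, 0 < z' d → 0 < z d
  sub : fr' ⊆ fr
  ne : fr' ≠ fr
  clo : ∀ d ∈ F, G.pi d ∈ fr' → G.pi (G.al d) ∈ fr'
  unit : ∀ d ∈ G.ds, G.pi d ∈ fr' → z' d = 1
  kill : ∀ X, G.Adm fr F X → Even (X ∩ jm).card → ¬ X ⊆ fr' → ∃ d ∈ G.bd X, z' d = 0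
  star : (sx ⊆ fr' ∧ jm ⊆ fr') ∨ (Disjoint sx fr' ∧ Disjoint jm fr')

/-- a step: the new number of tokens is less than 6 -/
structure IsStepS (G : MG V D) (z : D → ℝ) (fr : Finset V) (F : Finset D) (jm sx : Finset V)
    (z' : D → ℝ) (t' : V → ℝ) (fr' : Finset V) : Prop
    extends IsStepT G z fr F jm sx z' t' fr' where
  tau : ∑ v ∈ G.vs, t' v < 6

/-- admissible sets of the new instance are admissible in the old one -/
theorem IsStepT.adm_up (hs : IsStepT G z fr F jm sx z' t' fr') {X : Finset V}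
    (hX : G.Adm fr' (F.filter fun d => G.pi d ∈ fr') X) : G.Adm fr F X where
  sub := fun _ hv => hs.sub (hX.sub hv)
  clo := fun d hd hp => hX.clo d (Finset.mem_filter.2 ⟨hd, hX.sub hp⟩) hp

/-- admissible sets of the old instance inside `fr'` are admissible in the new one -/
theorem IsStepT.adm_down (_hs : IsStepT G z fr F jm sx z' t' fr') {X : Finset V}
    (hX : G.Adm fr F X) (hXf : X ⊆ fr') :
    G.Adm fr' (F.filter fun d => G.pi d ∈ fr') X where
  sub := hXf
  clo := fun d hd hp => hX.clo d (Finset.mem_filter.1 hd).1 hp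


/-- at a vertex which stays fresh the tokens do not change -/
theorem tok_eq (hw : G.Wt z t) (hw' : G.Wt z' t') (hv : ∀ d ∈ G.ds, G.pi d ∈ fr → z d = 1)
    (hv' : ∀ d ∈ G.ds, G.pi d ∈ fr' → z' d = 1) (hs : fr' ⊆ fr) (hsub : fr ⊆ G.vs) {v : V}
    (h : v ∈ fr') : t' v = t v := by
  have h1 := hw.deg v (hsub (hs h))
  have h2 := hw'.deg v (hsub (hs h))
  have h3 : ∑ d ∈ G.st v, z' d = ∑ d ∈ G.st v, z d := by
    refine sum_congr rfl fun d hd => ?_
    obtain ⟨h4, h5⟩ := mem_st.1 hd
    rw [hv d h4 (by rw [h5]; exact hs h), hv' d h4 (by rw [h5]; exact h)]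
  linarith

theorem IsStepT.fr_new (hs : IsStepT G z fr F jm sx z' t' fr') (h : G.FrS z fr F jm)
    {jm' : Finset V} (h1 : jm' ⊆ jm) (h2 : jm' ⊆ fr') (h3 : ∀ v ∈ fr', v ∈ jm → v ∈ jm') :
    G.FrS z' fr' (F.filter fun d => G.pi d ∈ fr') jm' where
  fsub := fun _ hv => h.fsub (hs.sub hv)
  Fsub := fun _ hd => h.Fsub (Finset.mem_filter.1 hd).1
  Fal := fun d hd => by
    obtain ⟨h1, h2⟩ := Finset.mem_filter.1 hd
    exact Finset.mem_filter.2 ⟨h.Fal d h1, hs.clo d h1 h2⟩
  Ffr := fun _ hd => (Finset.mem_filter.1 hd).2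
  two := fun v hv => by
    rw [← h.two v (hs.sub hv)]
    congr 1
    ext d
    simp only [Finset.mem_filter]
    constructor
    · rintro ⟨⟨h4, -⟩, h5⟩
      exact ⟨h4, h5⟩
    · rintro ⟨h4, h5⟩
      exact ⟨⟨h4, by rw [h5]; exact hv⟩, h5⟩
  jms := h2
  jd := fun v hv hj => by
    have e : ((G.st v).filter fun d => d ∉ F.filter fun d => G.pi d ∈ fr') =
        (G.st v).filter fun d => d ∉ F := by
      apply Finset.filter_congr
      intro d hd
      have hp : G.pi d = v := (mem_st.1 hd).2
      simp only [Finset.mem_filter, not_and, hp, hv, not_true_eq_false, imp_false]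
    rw [e]
    exact h.jd v (hs.sub hv) (fun h4 => hj (h3 v hv h4))
  j0 := fun v hv d hd => by
    refine Finset.mem_filter.2 ⟨h.j0 v (h1 hv) d hd, ?_⟩
    rw [(mem_st.1 hd).2]
    exact h2 hv
  unit := hs.unit

/-- the new instance -/
theorem IsStepS.inst (hs : IsStepS G z fr F jm sx z' t' fr')
    (h : G.InstS z t fr F jm sx ep m) :
    ∃ jm' sx', G.InstS z' t' fr' (F.filter fun d => G.pi d ∈ fr') jm' sx' ep m ∧
      (sx' = sx ∨ (sx' = ∅ ∧ Disjoint sx fr')) := by
  rcases hs.star with ⟨s1, s2⟩ | ⟨s1, s2⟩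
  · refine ⟨jm, sx, ?_, Or.inl rfl⟩
    exact
      { even := h.even
        wt := hs.wt
        tau := hs.tau
        fresh := hs.toIsStepT.fr_new h.fresh (Subset.refl _) s2 (fun v _ hv => hv)
        cc := fun X hX ho => h.cc X (hs.adm_up hX) ho
        ev := fun X hX ho hne => h.ev X (hs.adm_up hX) ho hne
        sxs := s1
        kind := by
          rcases h.kind with h1 | ⟨h1, h2⟩
          · exact Or.inl h1
          · exact Or.inr ⟨h1, fun X hX v hv hvX => h2 X (hs.adm_up hX) v hv hvX⟩
        jm2 := h.jm2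
        st2 := fun hne => by
          have h1 := h.st2 hne
          have h2 : ∑ v ∈ sx, t' v = ∑ v ∈ sx, t v :=
            sum_congr rfl fun v hv => tok_eq h.wt hs.wt h.fresh.unit hs.unit hs.sub
              h.fresh.fsub (s1 hv)
          rw [h2]
          exact h1
        b0 := fun X hX he hne hsx => h.b0 X (hs.adm_up hX) he hne hsx
        epj := fun v hv => h.epj v (hs.sub hv) }
  · refine ⟨∅, ∅, ?_, Or.inr ⟨rfl, s1⟩⟩
    exact
      { even := h.even
        wt := hs.wt
        tau := hs.tau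
        fresh := hs.toIsStepT.fr_new h.fresh (empty_subset _) (empty_subset _)
          (fun v hv hj => absurd hv (fun hv => disjoint_left.1 s2 hj hv))
        cc := fun X hX ho => h.cc X (hs.adm_up hX) ho
        ev := fun X hX ho hne => h.ev X (hs.adm_up hX) ho hne
        sxs := empty_subset _
        kind := Or.inl rfl
        jm2 := Or.inl rfl
        st2 := fun hne => absurd hne (by simp)
        b0 := fun X hX he hne hsx => absurd hne (by simp)
        epj := fun v hv => by
          have h1 := h.epj v (hs.sub hv)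
          rw [if_neg (fun hj => disjoint_left.1 s2 hj hv)] at h1
          rw [if_neg (notMem_empty v)]
          exact h1 }

/-- lifting -/
theorem IsStepT.lift (hs : IsStepT G z fr F jm sx z' t' fr')
    (hF : G.FrS z fr F jm) {sx' : Finset V}
    (hsx : sx' = sx ∨ (sx' = ∅ ∧ Disjoint sx fr'))
    (hM : G.GoodS z' fr' (F.filter fun d => G.pi d ∈ fr') sx' M) : G.GoodS z fr F sx M where
  pm := hM.pm
  pos := fun d hd => hs.supp d (hM.pm.sub hd) (hM.pos d hd)
  hit := fun X hX ho => by
    by_contra hcon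
    push Not at hcon
    have hev := hF.closed_jm hM.pm hX hcon
    by_cases hXf : X ⊆ fr'
    · have hX' := hs.adm_down hX hXf
      have ho' : Odd X.card ∨ (sx'.Nonempty ∧ sx' ⊆ X) := by
        rcases ho with ho | ⟨h1, h2⟩
        · exact Or.inl ho
        · rcases hsx with rfl | ⟨rfl, h3⟩
          · exact Or.inr ⟨h1, h2⟩
          · exfalso
            obtain ⟨v, hv⟩ := h1
            exact disjoint_left.1 h3 hv (hXf (h2 hv))
      obtain ⟨d, hd, hdM⟩ := hM.hit X hX' ho'
      exact hdM (hcon d hd)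
    · obtain ⟨d, hd, hz⟩ := hs.kill X hX hev hXf
      have h1 := hM.pos d (hcon d hd)
      rw [hz] at h1
      exact lt_irrefl _ h1

/-- a step solves the instance (sum order) -/
theorem IsStepS.solve (hs : IsStepS G z fr F jm sx z' t' fr')
    (h : G.InstS z t fr F jm sx ep m) (ih : IHS (G.size fr) m V D) :
    ∃ M, G.GoodS z fr F sx M := by
  have hlt : G.size fr' < G.size fr := by
    have : fr'.card < fr.card := Finset.card_lt_card (hs.sub.ssubset_of_ne hs.ne)
    simp only [size]
    omega
  obtain ⟨jm', sx', h1, h2⟩ := hs.inst h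
  obtain ⟨M, hM⟩ := ih G z' t' fr' (F.filter fun d => G.pi d ∈ fr') jm' sx' ep hlt h1
  exact ⟨M, hs.toIsStepT.lift h.fresh h2 hM⟩

/-- a step solves the instance (lexicographic order) -/
theorem IsStepS.solveL (hs : IsStepS G z fr F jm sx z' t' fr')
    (h : G.InstS z t fr F jm sx ep m) (ih : IHL fr.card G.vs.card m V D) :
    ∃ M, G.GoodS z fr F sx M := by
  have hlt : fr'.card < fr.card := Finset.card_lt_card (hs.sub.ssubset_of_ne hs.ne)
  obtain ⟨jm', sx', h1, h2⟩ := hs.inst h
  obtain ⟨M, hM⟩ := ih G z' t' fr' (F.filter fun d => G.pi d ∈ fr') jm' sx' ep (Or.inl hlt) h1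
  exact ⟨M, hs.toIsStepT.lift h.fresh h2 hM⟩

/-- there is no step in a minimal counterexample -/
theorem MCS.no_step (h : G.MCS z t fr F jm sx ep m) (hs : IsStepS G z fr F jm sx z' t' fr') :
    False :=
  h.bad (hs.solveL h.inst h.ih.toL)

end MG

end RH
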