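import Pool.Agent.Lib.RH.GlueO
import Pool.Agent.Lib.RH.SStep
import Pool.Agent.Lib.RH.MConn

/-! Stuck states with any number of tokens: the combinatorial part of an instance, weights, no good
matching, induction hypothesis below `a` fresh vertices (helper68, helper87). `StkU.con`: the outer
side of a tight set without crossing F-edges is again such a state (glue above 6). -/

set_option autoImplicit false

namespace RH

open Finset Classical

namespace MG

variable {V D : Type*}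

/-- induction hypothesis for instances with fewer than `a` fresh vertices -/
def IHa (a m : ℕ) (V D : Type*) : Prop :=
  ∀ (G : MG V D) (z : D → ℝ) (t : V → ℝ) (fr : Finset V) (F : Finset D) (jm sx : Finset V)
    (ep : V → ℕ), fr.card < a → G.InstS z t fr F jm sx ep m → ∃ M, G.GoodS z fr F sx M

/-- a stuck state, any number of tokens -/
structure StkU (G : MG V D) (z : D → ℝ) (t : V → ℝ) (fr : Finset V) (F : Finset D)
    (jm : Finset V) (ep : V → ℕ) (m a : ℕ) : Prop where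
  comb : G.InstC fr F jm ep m
  wt : G.Wt z t
  unit : ∀ d ∈ G.ds, G.pi d ∈ fr → z d = 1
  ha : fr.card < a
  ih : IHa a m V D
  bad : ¬ ∃ M, G.GoodS z fr F jm M

variable {G : MG V D} {z z' : D → ℝ} {t t' : V → ℝ} {fr fr' : Finset V} {F : Finset D}
variable {jm sx : Finset V} {ep : V → ℕ} {m a : ℕ} {M : Finset D} {W : Finset V}

theorem MCS.iha (h : G.MCS z t fr F jm sx ep m) : IHa fr.card m V D :=
  fun G z t fr' F jm sx ep h1 hI => h.ih G z t fr' F jm sx ep (Or.inl h1) hI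

/-- the instance (any number of tokens) -/
theorem StkU.toT (h : StkU G z t fr F jm ep m a) : G.InstT z t fr F jm jm ep m :=
  h.comb.toT h.wt h.unit

/-- at least 6 tokens -/
theorem StkU.tau_ge (h : StkU G z t fr F jm ep m a) : 6 ≤ ∑ v ∈ G.vs, t v := by
  by_contra hlt
  exact h.bad (h.ih G z t fr F jm jm ep h.ha (h.comb.toS h.wt (not_le.1 hlt) h.unit))

private theorem good_lift (hw : ∀ d ∈ G.ds, 0 < z' d → 0 < z d)
    (hF : G.FrS z fr F jm) (hj : jm ⊆ fr' ∨ Disjoint jm fr')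
    (hk : ∀ X, G.Adm fr F X → Even (X ∩ jm).card → ¬ X ⊆ fr' → ∃ d ∈ G.bd X, z' d = 0)
    (hM : G.GoodS z' fr' (F.filter fun d => G.pi d ∈ fr') (jm ∩ fr') M) :
    G.GoodS z fr F jm M where
  pm := hM.pm
  pos := fun d hd => hw d (hM.pm.sub hd) (hM.pos d hd)
  hit := fun X hX ho => by
    by_contra hcon
    push Not at hcon
    have hev := hF.closed_jm hM.pm hX hcon
    by_cases hXf : X ⊆ fr'
    · have hX' : G.Adm fr' (F.filter fun d => G.pi d ∈ fr') X :=
        ⟨hXf, fun d hd hp => hX.clo d (mem_filter.1 hd).1 hp⟩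
      have ho' : Odd X.card ∨ ((jm ∩ fr').Nonempty ∧ jm ∩ fr' ⊆ X) := by
        rcases ho with ho | ⟨h1, h2⟩
        · exact Or.inl ho
        · right
          rcases hj with hj | hj
          · rw [inter_eq_left.2 hj]
            exact ⟨h1, h2⟩
          · exfalso
            obtain ⟨v, hv⟩ := h1
            exact disjoint_left.1 hj hv (hXf (h2 hv))
      obtain ⟨d, hd, hdM⟩ := hM.hit X hX' ho'
      exact hdM (hcon d hd)
    · obtain ⟨d, hd, hz⟩ := hk X hX hev hXf
      have h1 := hM.pos d (hcon d hd)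
      rw [hz] at h1
      exact lt_irrefl _ h1

/-- the first stuck state: a step without bound for the number of tokens -/
theorem MCS.stkU (h : G.MCS z t fr F jm sx ep m) (hs : IsStepT G z fr F jm sx z' t' fr') :
    StkU G z' t' fr' (F.filter fun d => G.pi d ∈ fr') (jm ∩ fr') ep m fr.card := by
  have hj : jm ⊆ fr' ∨ Disjoint jm fr' := by
    rcases hs.star with ⟨-, h1⟩ | ⟨-, h1⟩
    · exact Or.inl h1
    · exact Or.inr h1
  refine ⟨h.inst.toC.absorb hs.sub hs.clo hj, hs.wt, hs.unit,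
    card_lt_card (hs.sub.ssubset_of_ne hs.ne), h.iha, ?_⟩
  rintro ⟨M, hM⟩
  have hg := good_lift hs.supp h.inst.fresh hj hs.kill hM
  rw [← h.inst.sx_eq] at hg
  exact h.bad ⟨M, hg⟩

/-- a step from a stuck state: new weights and absorbed classes together -/
theorem StkU.step (h : StkU G z t fr F jm ep m a) (hw : G.Wt z' t')
    (hs : ∀ d ∈ G.ds, 0 < z' d → 0 < z d) (hsub : fr' ⊆ fr)
    (hcl : ∀ d ∈ F, G.pi d ∈ fr' → G.pi (G.al d) ∈ fr')
    (hj : jm ⊆ fr' ∨ Disjoint jm fr')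
    (hk : ∀ X, G.Adm fr F X → Even (X ∩ jm).card → ¬ X ⊆ fr' → ∃ d ∈ G.bd X, z' d = 0)
    (hu : ∀ d ∈ G.ds, G.pi d ∈ fr' → z' d = 1) :
    StkU G z' t' fr' (F.filter fun d => G.pi d ∈ fr') (jm ∩ fr') ep m a := by
  refine ⟨h.comb.absorb hsub hcl hj, hw, hu, (card_le_card hsub).trans_lt h.ha, h.ih, ?_⟩
  rintro ⟨M, hM⟩
  exact h.bad ⟨M, good_lift hs h.toT.fresh hj hk hM⟩

/-- another weight in the support -/
theorem StkU.alt (h : StkU G z t fr F jm ep m a) (hw : G.Wt z' t')
    (hs : ∀ d ∈ G.ds, 0 < z' d → 0 < z d) (hu : ∀ d ∈ G.ds, G.pi d ∈ fr → z' d = 1) :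
    StkU G z' t' fr F jm ep m a :=
  ⟨h.comb, hw, hu, h.ha, h.ih, fun ⟨M, hM⟩ =>
    h.bad ⟨M, hM.pm, fun d hd => hs d (hM.pm.sub hd) (hM.pos d hd), hM.hit⟩⟩

/-- **CONTRACTION**: the outer side of a tight set without crossing F-edges is stuck. `fr1` is the
largest union outside `W` (outside `W` and the star, if the star is not outside `W`) -/
theorem StkU.con (h : StkU G z t fr F jm ep m a) (hW : W ⊆ G.vs) (hWo : Odd W.card)
    (h3 : G.val z t W = 3)
    (hFW : ∀ d ∈ F, G.pi d ∈ W → G.pi (G.al d) ∈ W) {ω : V} (hω : ω ∈ W) :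
    ∃ fr1, fr1 ⊆ fr \ W ∧ (∀ d ∈ F, G.pi d ∈ fr1 → G.pi (G.al d) ∈ fr1) ∧
      ((jm ⊆ G.vs \ W → jm ⊆ fr1) ∧ (¬ jm ⊆ G.vs \ W → Disjoint jm fr1)) ∧
      (∀ X, G.Adm fr F X → Disjoint X W → (Disjoint X jm ∨ jm ⊆ G.vs \ W) → X ⊆ fr1) ∧
      StkU (G.con W ω hω hW) z (tcon t W ω) fr1
        (F.filter fun d => G.pi d ∈ fr1) (jm ∩ fr1) ep m a := by
  have hC := h.comb
  have hw := h.wt
  have hT := h.toT
  have hF := hT.fresh
  obtain ⟨B1, hB1⟩ : ∃ B1 : Finset V, B1 = W ∪ if jm ⊆ G.vs \ W then ∅ else jm := ⟨_, rfl⟩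
  obtain ⟨fr1, hs1, hcl1, hd1, hadm1⟩ := exists_avoid G fr F B1
  have hWB1 : W ⊆ B1 := by rw [hB1]; exact subset_union_left
  have hdW : Disjoint fr1 W := disjoint_of_subset_right hWB1 hd1
  have hFW' : ∀ d ∈ F, G.pi d ∉ W → G.pi (G.al d) ∉ W := by
    intro d hd h1 h2
    have h4 := hFW _ (hF.Fal d hd) h2
    rw [G.al_al d (hF.Fsub hd)] at h4
    exact h1 h4
  have hadmU : G.Adm fr F (fr \ W) :=
    ⟨sdiff_subset, fun d hd hp => mem_sdiff.2
      ⟨hF.Ffr _ (hF.Fal d hd), hFW' d hd (mem_sdiff.1 hp).2⟩⟩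
  have hj1 : (jm ⊆ G.vs \ W → jm ⊆ fr1) ∧ (¬ jm ⊆ G.vs \ W → Disjoint jm fr1) := by
    constructor
    · intro hout
      rw [if_pos hout, union_empty] at hB1
      have h4 : Disjoint (fr \ W) B1 := by
        rw [hB1]
        exact sdiff_disjoint
      have h5 := ((hadm1 (fr \ W)).2 ⟨hadmU, h4⟩).sub
      exact fun v hv => h5 (mem_sdiff.2 ⟨hF.jms hv, (mem_sdiff.1 (hout hv)).2⟩)
    · intro hout
      rw [if_neg hout] at hB1
      have h4 : jm ⊆ B1 := by rw [hB1]; exact subset_union_right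
      exact (disjoint_of_subset_right h4 hd1).symm
  have hj1' : jm ⊆ fr1 ∨ Disjoint jm fr1 := by
    by_cases hout : jm ⊆ G.vs \ W
    · exact Or.inl (hj1.1 hout)
    · exact Or.inr (hj1.2 hout)
  refine ⟨fr1, fun v hv => mem_sdiff.2 ⟨hs1 hv, fun h1 => disjoint_left.1 hdW hv h1⟩, hcl1, hj1,
    ?_, con_instC hω hW hC hWo hs1 hcl1 hd1 hWB1 hj1', hw.con hω hW hWo h3, ?_,
    (card_le_card hs1).trans_lt h.ha, h.ih, ?_⟩
  · intro X hX hXW hXj
    refine ((hadm1 X).2 ⟨hX, ?_⟩).sub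
    rw [hB1, disjoint_union_right]
    refine ⟨hXW, ?_⟩
    split_ifs with hout
    · exact disjoint_empty_right _
    · exact hXj.resolve_right hout
  · intro d hd hp
    have h1 : d ∈ G.ds := mem_of_mem_filter d hd
    by_cases h4 : G.pi d ∈ W
    · have h5 : (G.con W ω hω hW).pi d = ω := by simp [MG.con, h4]
      rw [h5] at hp
      exact absurd hω (disjoint_left.1 hdW hp)
    · rw [con_pi_not hω hW h4] at hp
      exact h.unit d h1 (hs1 hp)
  · rintro ⟨M1, hM1⟩
    apply h.bad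
    obtain ⟨M, f, z2, h1, h2, h3', h4, h5, h6, h7, h8, h9, h10⟩ :=
      glueO hC h.ih h.ha hW hWo hFW hω hB1 hcl1 hd1 hadm1 hM1
        (Q := fun f z2 => ∀ d, G.pi d ∈ W → G.pi (G.al d) ∈ W → z2 d = z d) (by
          intro f hf hfW hfU hzf
          have e2 : 0 ≤ z f := hw.z0 f hf
          have e3 : 0 ≤ t (G.pi f) := hw.t0 _ (hW hfW)
          have hP : ((jm ∩ W) ∪ G.lp fr W f).card ≤ 2 := by
            have h1 := lp_boundT hf hW hfW hfU hT h3 hzf (T := jm ∩ W) inter_subset_right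
            have h2 : ∑ v ∈ jm ∩ W, t v = (jm ∩ W).card := by
              have h4 : ∑ v ∈ jm ∩ W, t v = ∑ _v ∈ jm ∩ W, (1 : ℝ) :=
                sum_congr rfl fun v hv => hF.t_jm hw (mem_inter.1 hv).1
              rw [h4, sum_const, nsmul_eq_mul, mul_one]
            rw [h2] at h1
            have h5 : (((G.lp fr W f).card + (jm ∩ W).card : ℕ) : ℝ) < (3 : ℕ) := by
              push_cast
              exact h1
            have h6 := Nat.cast_lt.1 h5
            have h7 := card_union_le (jm ∩ W) (G.lp fr W f)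
            omega
          refine ⟨hP, G.zN z f (min 1 (z f + t (G.pi f))), _, hw.innN hf hW hfW hfU
            (le_min zero_le_one (by linarith)) (min_le_right _ _), ?_,
            innN_unit hf hW hfW hfU hF hFW hw (Or.inr rfl), fun _ _ => Or.inl ?_,
            fun d d1 d2 => zN_in hfU d1 d2⟩
          · rw [innN_tau hf hW hfW hfU hw (le_min zero_le_one (by linarith)) (min_le_right _ _),
              h3]
            have : 0 < min 1 (z f + t (G.pi f)) := lt_min zero_lt_one (by linarith)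
            linarith
          · rw [zN_f]
            exact min_le_left _ _)
    refine ⟨M, h1, fun d hd => ?_, h2⟩
    by_cases hi : G.pi d ∈ W ∧ G.pi (G.al d) ∈ W
    · rw [← h7 d hi.1 hi.2]
      exact h10 d hd hi.1 hi.2
    · exact h9 d hd hi

end MG

end RH
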