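import Pool.Agent.Lib.RH.Gad3
import Pool.Agent.Lib.RH.St6U

/-! # The `K4` gadget (helper30)

`A` is a set of vertices of `G` with exactly three boundary darts, all of weight 1. The rest of the
graph (an even set of value 4 with one token, for instance `{y, b}` with a token at `y` and a free
edge `yb`) is replaced by a `K4` without tokens: weights 1/2 on the triangle of the three ports, 1
at the fourth vertex. -/

set_option autoImplicit false

namespace RH

open Finset Classical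

namespace K4

/-- end of dart `k` of `K4` -/
def ti : Fin 12 → Fin 4 := ![0, 1, 0, 2, 1, 2, 0, 3, 1, 3, 2, 3]

/-- the other dart -/
def si : Fin 12 → Fin 12 := ![1, 0, 3, 2, 5, 4, 7, 6, 9, 8, 11, 10]

/-- twice the weight -/
def wi : Fin 12 → ℕ := ![1, 1, 1, 1, 1, 1, 2, 2, 2, 2, 2, 2]

/-- twice the weight of the boundary inside `K4` -/
def cutK (S : Finset (Fin 4)) : ℕ := ∑ k : Fin 12, if ti k ∈ S ∧ ti (si k) ∉ S then wi k else 0

/-- number of ports at `S` -/
def nP (S : Finset (Fin 4)) : ℕ := ∑ i : Fin 3, if i.castSucc ∈ S then 1 else 0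

/-- number of ports at `S` with outer end given by `κ` -/
def nQ (S : Finset (Fin 4)) (κ : Finset (Fin 3)) : ℕ :=
  ∑ i : Fin 3, if i.castSucc ∈ S ∧ i ∈ κ then 1 else 0

theorem si_si : ∀ k, si (si k) = k := by decide

theorem ti_si : ∀ k, ti (si k) ≠ ti k := by decide

theorem wi_si : ∀ k, wi (si k) = wi k := by decide

theorem tab1 : ∀ S : Finset (Fin 4), S ≠ univ → ∀ κ : Finset (Fin 3),
    4 * nQ S κ ≤ 2 * nP S + cutK S := by decide

theorem tab2 : ∀ S : Finset (Fin 4), Odd S.card → 6 ≤ 2 * nP S + cutK S := by decide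

theorem tab3 : nP univ = 3 ∧ cutK univ = 0 := by decide

theorem tab4 : ∀ i : Fin 4, 2 * nP {i} + cutK {i} = 6 := by decide

theorem tab5 : ∀ S : Finset (Fin 4), nQ S ∅ = 0 := by decide

theorem tab6 : ∀ κ : Finset (Fin 3), nQ univ κ = κ.card := by decide

end K4

namespace MG

variable {V D : Type*}

/-- data for the replacement of `vs - A` by `K4` -/
structure K4D (G : MG V D) (A : Finset V) (pp : Fin 3 → D) (hh : Fin 4 → V) (cc : Fin 12 → D) :
    Prop where
  hA : A ⊆ G.vs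
  bdA : G.bd A = univ.image pp
  pinj : Function.Injective pp
  hinj : Function.Injective hh
  hnew : ∀ i, hh i ∉ A
  cinj : Function.Injective cc
  cnew : ∀ k, cc k ∈ G.ds → G.pi (cc k) ∉ A ∧ G.pi (G.al (cc k)) ∉ A

/-- the gadget -/
noncomputable def k4g (A : Finset V) (pp : Fin 3 → D) (hh : Fin 4 → V) (cc : Fin 12 → D) :
    GD V D where
  A := A
  K := univ.image hh
  P := univ.image pp
  E := univ.image cc
  ga := fun d => hh (Function.invFun pp d).castSucc
  be := fun d => cc (K4.si (Function.invFun cc d))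
  pe := fun d => hh (K4.ti (Function.invFun cc d))

/-- weights of the new edges -/
noncomputable def k4w (cc : Fin 12 → D) (d : D) : ℝ := (K4.wi (Function.invFun cc d) : ℝ) / 2

variable {G : MG V D} {A : Finset V} {pp : Fin 3 → D} {hh : Fin 4 → V} {cc : Fin 12 → D}
variable {z : D → ℝ} {t : V → ℝ}

theorem mem_hh (hinj : Function.Injective hh) {S : Finset (Fin 4)} {i : Fin 4} :
    hh i ∈ S.image hh ↔ i ∈ S := hinj.mem_finset_image

namespace K4D

variable (h : K4D G A pp hh cc)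

include h

theorem inv_cc (k : Fin 12) : Function.invFun cc (cc k) = k :=
  Function.leftInverse_invFun h.cinj k

theorem inv_pp (i : Fin 3) : Function.invFun pp (pp i) = i :=
  Function.leftInverse_invFun h.pinj i

theorem p_bd (i : Fin 3) : pp i ∈ G.bd A := by
  rw [h.bdA]
  exact mem_image_of_mem _ (mem_univ _)

theorem ga_p (i : Fin 3) : (k4g A pp hh cc).ga (pp i) = hh i.castSucc := by
  change hh (Function.invFun pp (pp i)).castSucc = _
  rw [h.inv_pp]

theorem pe_c (k : Fin 12) : (k4g A pp hh cc).pe (cc k) = hh (K4.ti k) := by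
  change hh (K4.ti (Function.invFun cc (cc k))) = _
  rw [h.inv_cc]

theorem be_c (k : Fin 12) : (k4g A pp hh cc).be (cc k) = cc (K4.si k) := by
  change cc (K4.si (Function.invFun cc (cc k))) = _
  rw [h.inv_cc]

theorem w_c (k : Fin 12) : k4w cc (cc k) = (K4.wi k : ℝ) / 2 := by
  unfold k4w
  rw [h.inv_cc]

theorem gok : GOk G (k4g A pp hh cc) where
  hA := h.hA
  dj := by
    intro v hv hA
    obtain ⟨i, -, rfl⟩ := mem_image.1 hv
    exact h.hnew i hA
  hP := h.bdA.symm.subset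
  gaK := by
    intro d hd
    obtain ⟨i, -, rfl⟩ := mem_image.1 hd
    rw [h.ga_p]
    exact mem_image_of_mem _ (mem_univ _)
  hE := by
    intro d hd h1
    obtain ⟨k, -, rfl⟩ := mem_image.1 hd
    exact h.cnew k h1
  beE := fun d _ => mem_image_of_mem _ (mem_univ _)
  bb := by
    intro d hd
    obtain ⟨k, -, rfl⟩ := mem_image.1 hd
    rw [h.be_c, h.be_c, K4.si_si]
  peK := fun d _ => mem_image_of_mem _ (mem_univ _)
  nl := by
    intro d hd
    obtain ⟨k, -, rfl⟩ := mem_image.1 hd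
    rw [h.be_c, h.pe_c, h.pe_c]
    exact fun e => K4.ti_si k (h.hinj e)

/-- value of a set of gadget vertices -/
theorem gvkS (z1 : ∀ i, z (pp i) = 1) (S : Finset (Fin 4)) :
    2 * gvk (k4g A pp hh cc) z (k4w cc) (fun _ => 0) (S.image hh) =
      2 * (K4.nP S : ℝ) + (K4.cutK S : ℝ) := by
  unfold gvk
  have e1' : ∑ d ∈ (k4g A pp hh cc).P.filter
      (fun d => (k4g A pp hh cc).ga d ∈ S.image hh), z d = (K4.nP S : ℝ) := by
    rw [sum_filter]
    change ∑ d ∈ univ.image pp, _ = _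
    rw [sum_image fun i _ j _ hij => h.pinj hij]
    unfold K4.nP
    push_cast
    refine sum_congr rfl fun i _ => ?_
    rw [h.ga_p]
    have m1 := @mem_hh V hh h.hinj S i.castSucc
    by_cases c2 : i.castSucc ∈ S
    · rw [if_pos (m1.2 c2), if_pos c2, z1]
    · rw [if_neg (fun e => c2 (m1.1 e)), if_neg c2]
  have e2' : ∑ d ∈ (k4g A pp hh cc).E.filter
      (fun d => (k4g A pp hh cc).pe d ∈ S.image hh ∧
        (k4g A pp hh cc).pe ((k4g A pp hh cc).be d) ∉ S.image hh), k4w cc d =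
      (K4.cutK S : ℝ) / 2 := by
    rw [sum_filter]
    change ∑ d ∈ univ.image cc, _ = _
    rw [sum_image fun i _ j _ hij => h.cinj hij]
    unfold K4.cutK
    push_cast
    rw [sum_div]
    refine sum_congr rfl fun k _ => ?_
    rw [h.be_c, h.pe_c, h.pe_c, h.w_c]
    have m1 := @mem_hh V hh h.hinj S (K4.ti k)
    have m2 := @mem_hh V hh h.hinj S (K4.ti (K4.si k))
    by_cases c1 : K4.ti k ∈ S
    · by_cases c2 : K4.ti (K4.si k) ∈ S
      · rw [if_neg (fun e => e.2 (m2.2 c2)), if_neg (fun e => e.2 c2), zero_div]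
      · rw [if_pos ⟨m1.2 c1, fun e => c2 (m2.1 e)⟩, if_pos ⟨c1, c2⟩]
    · rw [if_neg (fun e => c1 (m1.1 e.1)), if_neg (fun e => c1 e.1), zero_div]
  rw [e1', e2']
  simp
  ring

/-- the ports which end in `X` -/
theorem gpwS (z1 : ∀ i, z (pp i) = 1) (X : Finset V) (S : Finset (Fin 4)) :
    gpw G (k4g A pp hh cc) z X (S.image hh) =
      (K4.nQ S (univ.filter fun i => G.pi (pp i) ∈ X) : ℝ) := by
  unfold gpw
  rw [sum_filter]
  change ∑ d ∈ univ.image pp, _ = _
  rw [sum_image fun i _ j _ hij => h.pinj hij]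
  unfold K4.nQ
  push_cast
  refine sum_congr rfl fun i _ => ?_
  rw [h.ga_p]
  have m1 := @mem_hh V hh h.hinj S i.castSucc
  by_cases c1 : G.pi (pp i) ∈ X
  · by_cases c2 : i.castSucc ∈ S
    · rw [if_pos ⟨c1, m1.2 c2⟩, if_pos ⟨c2, mem_filter.2 ⟨mem_univ _, c1⟩⟩, z1]
    · rw [if_neg (fun e => c2 (m1.1 e.2)), if_neg (fun e => c2 e.1)]
  · rw [if_neg (fun e => c1 e.1), if_neg (fun e => c1 (by simpa using e.2))]

/-- no port is dropped -/
theorem gdp0 (v : V) : gdp G (k4g A pp hh cc) v = ∅ := by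
  rw [eq_empty_iff_forall_notMem]
  intro d hd
  obtain ⟨⟨h1, h2, h3⟩, h4, -⟩ := mem_gdp.1 hd
  refine h4 ?_
  have h5 : d ∈ G.bd A := mem_bd.2 ⟨h1, h2, h3⟩
  rw [h.bdA] at h5
  exact h5

/-- the finite check -/
theorem kcS (hw : G.Wt z t) (z1 : ∀ i, z (pp i) = 1)
    (hev : ∀ X ⊆ A, Even X.card → X.Nonempty → 3 ≤ G.val z t X)
    (hod : ∀ X ⊆ A, Odd X.card →
      2 * ((univ.filter fun i => G.pi (pp i) ∈ X).card : ℝ) ≤ G.val z t X)
    {X : Finset V} (hXA : X ⊆ A) {Y : Finset V} (hY : Y ⊆ univ.image hh)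
    (ho : Odd (X.card + Y.card)) :
    3 ≤ G.val z t X + gvk (k4g A pp hh cc) z (k4w cc) (fun _ => 0) Y -
      2 * gpw G (k4g A pp hh cc) z X Y := by
  set S : Finset (Fin 4) := univ.filter fun i => hh i ∈ Y with hS
  have hYS : Y = S.image hh := by
    ext v
    rw [mem_image]
    constructor
    · intro hv
      obtain ⟨i, -, rfl⟩ := mem_image.1 (hY hv)
      exact ⟨i, mem_filter.2 ⟨mem_univ _, hv⟩, rfl⟩
    · rintro ⟨i, h2, rfl⟩
      exact (mem_filter.1 h2).2
  have hc : Y.card = S.card := by rw [hYS, card_image_of_injective _ h.hinj]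
  have h1 := h.gvkS z1 S
  have h2 := h.gpwS z1 X S
  rw [← hYS] at h1 h2
  rw [h2]
  set κ : Finset (Fin 3) := univ.filter fun i => G.pi (pp i) ∈ X with hκ
  rw [hc] at ho
  rcases Nat.even_or_odd X.card with hXe | hXo
  · have hSo : Odd S.card := by
      by_contra h2
      rw [Nat.not_odd_iff_even] at h2
      exact (Nat.not_odd_iff_even.2 (hXe.add h2)) ho
    have hSn : S ≠ univ := by
      rintro h2
      rw [h2] at hSo
      revert hSo
      decide
    have h3 : 4 * (K4.nQ S κ : ℝ) ≤ 2 * (K4.nP S : ℝ) + (K4.cutK S : ℝ) := by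
      exact_mod_cast K4.tab1 S hSn κ
    rcases X.eq_empty_or_nonempty with hX0 | hX0
    · have h4 : κ = ∅ := by
        rw [hκ, hX0]
        simp
      have h5 : (6 : ℝ) ≤ 2 * (K4.nP S : ℝ) + (K4.cutK S : ℝ) := by
        exact_mod_cast K4.tab2 S hSo
      have h6 : G.val z t X = 0 := by rw [hX0, val_empty']
      rw [h4, K4.tab5, h6]
      push_cast
      linarith
    · have h4 := hev X hXA hXe hX0
      linarith
  · have h4 := hw.cut X (hXA.trans h.hA) hXo
    by_cases hSn : S = univ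
    · have h5 := hod X hXA hXo
      rw [hSn, K4.tab3.1, K4.tab3.2] at h1
      rw [hSn, K4.tab6]
      push_cast at h1
      linarith
    · have h3 : 4 * (K4.nQ S κ : ℝ) ≤ 2 * (K4.nP S : ℝ) + (K4.cutK S : ℝ) := by
        exact_mod_cast K4.tab1 S hSn κ
      linarith

/-- **the weights of the gadget graph** -/
theorem wt (hw : G.Wt z t) (z1 : ∀ i, z (pp i) = 1)
    (hev : ∀ X ⊆ A, Even X.card → X.Nonempty → 3 ≤ G.val z t X)
    (hod : ∀ X ⊆ A, Odd X.card →
      2 * ((univ.filter fun i => G.pi (pp i) ∈ X).card : ℝ) ≤ G.val z t X) :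
    (gad G (k4g A pp hh cc) h.gok).Wt (gz (k4g A pp hh cc) z (k4w cc))
      (gt G (k4g A pp hh cc) z t (fun _ => 0)) := by
  refine gad_wt h.gok hw ?_ ?_ (fun _ _ => le_refl _) ?_ ?_
  · intro d _
    unfold k4w
    positivity
  · intro d hd
    obtain ⟨k, -, rfl⟩ := mem_image.1 hd
    rw [h.be_c, h.w_c, h.w_c, K4.wi_si]
  · intro v hv
    obtain ⟨i, -, rfl⟩ := mem_image.1 hv
    have h1 := h.gvkS z1 {i}
    rw [image_singleton] at h1
    have h2 : 2 * (K4.nP {i} : ℝ) + (K4.cutK {i} : ℝ) = 6 := by exact_mod_cast K4.tab4 i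
    linarith
  · intro X hX Y hY ho
    exact h.kcS hw z1 hev hod hX hY ho

/-- the tokens of the gadget graph -/
theorem tau_eq (hw : G.Wt z t) : ∑ v ∈ (gad G (k4g A pp hh cc) h.gok).vs,
    gt G (k4g A pp hh cc) z t (fun _ => 0) v = ∑ v ∈ A, t v := by
  rw [gad_tau h.gok (k4w cc) hw.sym]
  have h1 : (G.bd (k4g A pp hh cc).A).filter (fun d => d ∉ (k4g A pp hh cc).P) = ∅ := by
    rw [filter_eq_empty_iff]
    intro d hd h2
    refine h2 ?_
    have h3 : d ∈ G.bd A := hd
    rw [h.bdA] at h3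
    exact h3
  rw [h1, sum_empty, sum_const_zero, add_zero, add_zero]
  rfl

end K4D

variable {fr : Finset V} {F : Finset D} {jm : Finset V} {ep : V → ℕ} {m a : ℕ}

/-- **THE `K4` GADGET**: a good matching of `A` which uses no port or exactly two of the three -/
theorem K4D.solve (h : K4D G A pp hh cc) (ih : IHa a m V D) (hC : G.InstC fr F jm ep m)
    (hw : G.Wt z t) (hu : ∀ d ∈ G.ds, G.pi d ∈ fr → z d = 1) (ha : fr.card < a)
    (hAe : Even A.card) (ht : ∑ v ∈ A, t v < 6)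
    (hFA : ∀ d ∈ F, G.pi d ∈ A → G.pi (G.al d) ∈ A) (hjm : jm ⊆ A ∨ Disjoint jm A)
    (z1 : ∀ i, z (pp i) = 1)
    (hev : ∀ X ⊆ A, Even X.card → X.Nonempty → 3 ≤ G.val z t X)
    (hod : ∀ X ⊆ A, Odd X.card →
      2 * ((univ.filter fun i => G.pi (pp i) ∈ X).card : ℝ) ≤ G.val z t X) :
    ∃ M, G.GHalf z fr F jm A M ∧
      ((∀ i, pp i ∉ M) ∨ ∃ i, pp i ∉ M ∧ ∀ j, j ≠ i → pp j ∈ M) := by
  have hF : G.FrS z fr F jm := hC.fresh.chg hu
  have hf : FOk G (k4g A pp hh cc) fr F (fr ∩ A) := by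
    refine ⟨inter_subset_left, inter_subset_right, fun d hd hp => ?_⟩
    exact mem_inter.2 ⟨hF.Ffr _ (hF.Fal d hd), hFA d hd (mem_inter.1 hp).2⟩
  have habs : ∀ X, G.Adm fr F X → X ⊆ (k4g A pp hh cc).A →
      (∀ v ∈ X, gdp G (k4g A pp hh cc) v = ∅) → X ⊆ fr ∩ A :=
    fun X hX hXA _ => subset_inter hX.sub hXA
  have hg : gjm G (k4g A pp hh cc) jm (fr ∩ A) = jm ∩ A := by
    ext v
    unfold gjm
    rw [mem_filter, mem_inter, mem_inter, h.gdp0]
    constructor
    · rintro ⟨⟨-, h1⟩, h2 | h2⟩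
      · exact ⟨h2, h1⟩
      · exact absurd h2 not_nonempty_empty
    · rintro ⟨h1, h2⟩
      exact ⟨⟨hF.jms h1, h2⟩, Or.inl h1⟩
  have hj2 : gjm G (k4g A pp hh cc) jm (fr ∩ A) = ∅ ∨
      (gjm G (k4g A pp hh cc) jm (fr ∩ A)).card = 2 := by
    rw [hg]
    rcases hjm with h1 | h1
    · rw [inter_eq_left.2 h1]
      exact hC.jm2
    · exact Or.inl (disjoint_iff_inter_eq_empty.1 h1)
  have hC' := hC.gad h.gok hf (by
    change Even (A.card + (univ.image hh).card)
    rw [card_image_of_injective _ h.hinj]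
    exact hAe.add (by decide)) hj2 (by
    intro X hX h1 h2 h3 h4
    have h5 := gad_bd_card h.gok (h1.trans inter_subset_right : X ⊆ (k4g A pp hh cc).A)
    have h6 : ∑ v ∈ X, (gdp G (k4g A pp hh cc) v).card = 0 :=
      sum_eq_zero fun v _ => by rw [h.gdp0, card_empty]
    rw [h6, add_zero] at h5
    rw [h5]
    rw [hg] at h3 h4
    have h7 : jm ∩ A = jm := by
      rcases hjm with h8 | h8
      · exact inter_eq_left.2 h8
      · rw [disjoint_iff_inter_eq_empty.1 h8] at h3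
        exact absurd h3 not_nonempty_empty
    rw [h7] at h3 h4
    exact hC.b0 X hX h2 h3 h4)
  have hW := h.wt hw z1 hev hod
  have hI := hC'.toS hW (by rw [h.tau_eq hw]; exact ht) (hF.gad h.gok hf (k4w cc)).unit
  obtain ⟨M, hM⟩ := ih _ _ _ _ _ _ _ _ (lt_of_le_of_lt (card_le_card inter_subset_left) ha) hI
  have hH := gad_half h.gok hF hf habs (fun h1 h2 => by
    rw [hg]
    exact inter_eq_left.2 (h2.trans inter_subset_right)) hM
  refine ⟨_, hH, ?_⟩
  set M1 := G.resM (k4g A pp hh cc).A M with hM1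
  have hpar : (M1.filter fun d => d ∈ G.bd A).card % 2 = A.card % 2 := hH.hm.parity
  have h2 : (M1.filter fun d => d ∈ G.bd A).card = (univ.filter fun i => pp i ∈ M1).card := by
    rw [← card_image_of_injective (univ.filter fun i => pp i ∈ M1) h.pinj]
    congr 1
    ext d
    rw [mem_filter, h.bdA, mem_image, mem_image]
    constructor
    · rintro ⟨h3, i, -, rfl⟩
      exact ⟨i, mem_filter.2 ⟨mem_univ _, h3⟩, rfl⟩
    · rintro ⟨i, h3, rfl⟩
      exact ⟨(mem_filter.1 h3).2, i, mem_univ _, rfl⟩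
  rw [h2, Nat.even_iff.1 hAe] at hpar
  have h3 : ∀ T : Finset (Fin 3), T.card % 2 = 0 →
      (∀ i, i ∉ T) ∨ ∃ i, i ∉ T ∧ ∀ j, j ≠ i → j ∈ T := by decide
  rcases h3 _ hpar with h4 | ⟨i, h4, h5⟩
  · exact Or.inl fun i hi => h4 i (mem_filter.2 ⟨mem_univ _, hi⟩)
  · exact Or.inr ⟨i, fun hi => h4 (mem_filter.2 ⟨mem_univ _, hi⟩),
      fun j hj => (mem_filter.1 (h5 j hj)).2⟩

/-! ## The pair `{y, b}` -/

/-- `y` with one token and a second edge `u`, `b` with the exits `e1`, `e2` -/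
structure YB (G : MG V D) (y b : V) (a u e1 e2 : D) : Prop where
  yb : y ≠ b
  sty : G.st y = {a, u}
  stb : G.st b = {G.al a, e1, e2}
  au : a ≠ u
  ae1 : G.al a ≠ e1
  ae2 : G.al a ≠ e2
  e12 : e1 ≠ e2
  pub : G.pi (G.al u) ≠ b
  p1y : G.pi (G.al e1) ≠ y
  p2y : G.pi (G.al e2) ≠ y

namespace YB

variable {y b : V} {d0 u e1 e2 : D} (h : YB G y b d0 u e1 e2)

include h

theorem a_mem : d0 ∈ G.ds ∧ G.pi d0 = y := mem_st.1 (by rw [h.sty]; exact mem_insert_self _ _)

theorem u_mem : u ∈ G.ds ∧ G.pi u = y := mem_st.1 (by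
  rw [h.sty]; exact mem_insert_of_mem (mem_singleton_self _))

theorem aa_mem : G.al d0 ∈ G.ds ∧ G.pi (G.al d0) = b := mem_st.1 (by
  rw [h.stb]; exact mem_insert_self _ _)

theorem e1_mem : e1 ∈ G.ds ∧ G.pi e1 = b := mem_st.1 (by
  rw [h.stb]; exact mem_insert_of_mem (mem_insert_self _ _))

theorem e2_mem : e2 ∈ G.ds ∧ G.pi e2 = b := mem_st.1 (by
  rw [h.stb]; exact mem_insert_of_mem (mem_insert_of_mem (mem_singleton_self _)))

theorem hy : y ∈ G.vs := by
  rw [← h.a_mem.2]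
  exact G.pi_mem _ h.a_mem.1

theorem hb : b ∈ G.vs := by
  rw [← h.aa_mem.2]
  exact G.pi_mem _ h.aa_mem.1

/-- the three units of `{y, b}` (darts inside) -/
def uu (u e1 e2 : D) : Fin 3 → D := ![e1, e2, u]

theorem uu_mem (i : Fin 3) : uu u e1 e2 i ∈ G.ds ∧ G.pi (uu u e1 e2 i) ∈ ({y, b} : Finset V) ∧
    G.pi (G.al (uu u e1 e2 i)) ∉ ({y, b} : Finset V) := by
  rw [mem_insert, mem_singleton, mem_insert, mem_singleton, not_or]
  fin_cases i
  · exact ⟨h.e1_mem.1, Or.inr h.e1_mem.2, h.p1y,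
      fun e => G.noloop _ h.e1_mem.1 (e.trans h.e1_mem.2.symm)⟩
  · exact ⟨h.e2_mem.1, Or.inr h.e2_mem.2, h.p2y,
      fun e => G.noloop _ h.e2_mem.1 (e.trans h.e2_mem.2.symm)⟩
  · exact ⟨h.u_mem.1, Or.inl h.u_mem.2,
      fun e => G.noloop _ h.u_mem.1 (e.trans h.u_mem.2.symm), h.pub⟩

theorem uu_inj : Function.Injective (uu u e1 e2) := by
  have hu1 : u ≠ e1 := fun e => h.yb (by rw [← h.u_mem.2, e, h.e1_mem.2])
  have hu2 : u ≠ e2 := fun e => h.yb (by rw [← h.u_mem.2, e, h.e2_mem.2])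
  intro i j hij
  have h12 := h.e12
  fin_cases i <;> fin_cases j <;>
    first
    | rfl
    | (exfalso; revert hij; simp [uu, h12, h12.symm, hu1, hu2, hu1.symm, hu2.symm])

/-- the ports of `vs - {y, b}` -/
theorem bd_eq : G.bd (G.vs \ {y, b}) = univ.image fun i => G.al (uu u e1 e2 i) := by
  ext d
  constructor
  · intro hd
    obtain ⟨h1, h2, h3⟩ := mem_bd.1 hd
    have h4 : G.pi (G.al d) = y ∨ G.pi (G.al d) = b := by
      by_contra h5
      rw [not_or] at h5
      exact h3 (mem_sdiff.2 ⟨G.pi_mem _ (G.al_mem _ h1), by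
        rw [mem_insert, mem_singleton, not_or]; exact h5⟩)
    have h6 : G.al (G.al d) = d := G.al_al _ h1
    rw [mem_sdiff, mem_insert, mem_singleton, not_or] at h2
    rcases h4 with h4 | h4
    · have h5 : G.al d ∈ G.st y := mem_st.2 ⟨G.al_mem _ h1, h4⟩
      rw [h.sty, mem_insert, mem_singleton] at h5
      rcases h5 with h5 | h5
      · rw [h5] at h6
        exact absurd (by rw [← h6, h.aa_mem.2]) h2.2.2
      · rw [h5] at h6
        exact mem_image.2 ⟨2, mem_univ _, h6⟩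
    · have h5 : G.al d ∈ G.st b := mem_st.2 ⟨G.al_mem _ h1, h4⟩
      rw [h.stb, mem_insert, mem_insert, mem_singleton] at h5
      rcases h5 with h5 | h5 | h5
      · rw [h5, G.al_al _ h.a_mem.1] at h6
        exact absurd (by rw [← h6, h.a_mem.2]) h2.2.1
      · rw [h5] at h6
        exact mem_image.2 ⟨0, mem_univ _, h6⟩
      · rw [h5] at h6
        exact mem_image.2 ⟨1, mem_univ _, h6⟩
  · intro hd
    obtain ⟨i, -, rfl⟩ := mem_image.1 hd
    obtain ⟨h1, h2, h3⟩ := h.uu_mem i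
    refine mem_bd.2 ⟨G.al_mem _ h1, mem_sdiff.2 ⟨G.pi_mem _ (G.al_mem _ h1), h3⟩, ?_⟩
    rw [G.al_al _ h1, mem_sdiff]
    exact fun h4 => h4.2 h2

theorem alinj : Function.Injective fun i => G.al (uu u e1 e2 i) := by
  intro i j hij
  have h1 := G.al_al _ (h.uu_mem i).1
  have h2 := G.al_al _ (h.uu_mem j).1
  have h3 : G.al (uu u e1 e2 i) = G.al (uu u e1 e2 j) := hij
  refine h.uu_inj ?_
  rw [← h1, h3, h2]

theorem k4d [Infinite V] [Infinite D] : ∃ hh cc,
    K4D G (G.vs \ {y, b}) (fun i => G.al (uu u e1 e2 i)) hh cc := by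
  obtain ⟨hh, hh1⟩ : ∃ f : Fin 4 ↪ V, ∀ i, f i ∉ G.vs := by
    have : Infinite {v : V // v ∉ G.vs} := Set.infinite_coe_iff.2
      (G.vs.finite_toSet.infinite_compl)
    obtain ⟨f⟩ : Nonempty (Fin 4 ↪ {v : V // v ∉ G.vs}) :=
      ⟨(Fin.valEmbedding).trans (Infinite.natEmbedding _)⟩
    exact ⟨f.trans (Function.Embedding.subtype _), fun i => (f i).2⟩
  obtain ⟨cc, cc1⟩ : ∃ f : Fin 12 ↪ D, ∀ i, f i ∉ G.ds := by
    have : Infinite {v : D // v ∉ G.ds} := Set.infinite_coe_iff.2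
      (G.ds.finite_toSet.infinite_compl)
    obtain ⟨f⟩ : Nonempty (Fin 12 ↪ {v : D // v ∉ G.ds}) :=
      ⟨(Fin.valEmbedding).trans (Infinite.natEmbedding _)⟩
    exact ⟨f.trans (Function.Embedding.subtype _), fun i => (f i).2⟩
  exact ⟨hh, cc, sdiff_subset, h.bd_eq, h.alinj, hh.injective,
    fun i hi => hh1 i (mem_sdiff.1 hi).1, cc.injective, fun k hk => absurd hk (cc1 k)⟩

/-- the matching of the pair -/
theorem hm2 {p q : D} (hp : p ∈ G.ds ∧ G.pi p = y) (hq : q ∈ G.ds ∧ G.pi q = b)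
    (hcl : ∀ d ∈ ({p, q} : Finset D), G.pi (G.al d) ∈ ({y, b} : Finset V) →
      G.al d ∈ ({p, q} : Finset D)) : G.HM {y, b} {p, q} := by
  refine ⟨?_, hcl, ?_⟩
  · intro d hd
    rw [mem_insert, mem_singleton] at hd
    rcases hd with rfl | rfl
    · exact ⟨hp.1, by rw [hp.2]; exact mem_insert_self _ _⟩
    · exact ⟨hq.1, by rw [hq.2]; exact mem_insert_of_mem (mem_singleton_self _)⟩
  · intro v hv
    rw [mem_insert, mem_singleton] at hv
    rw [card_eq_one]
    rcases hv with rfl | rfl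
    · refine ⟨p, ?_⟩
      ext d
      rw [mem_filter, mem_insert, mem_singleton, mem_singleton]
      constructor
      · rintro ⟨h1 | h1, h2⟩
        · exact h1
        · rw [h1, hq.2] at h2
          exact absurd h2.symm h.yb
      · intro h1
        rw [h1]
        exact ⟨Or.inl rfl, hp.2⟩
    · refine ⟨q, ?_⟩
      ext d
      simp only [mem_filter, mem_insert, mem_singleton]
      constructor
      · rintro ⟨h1 | h1, h2⟩
        · rw [h1, hp.2] at h2
          exact absurd h2 h.yb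
        · exact h1
      · intro h1
        rw [h1]
        exact ⟨Or.inr rfl, hq.2⟩

theorem val_pair (hw : G.Wt z t) (zd : z d0 = 1) : G.val z t {y, b} = 4 := by
  have hsub : ({y, b} : Finset V) ⊆ G.vs := by
    intro v hv
    rw [mem_insert, mem_singleton] at hv
    rcases hv with rfl | rfl
    · exact h.hy
    · exact h.hb
  have h1 := hw.val_eq hsub
  have h2 : G.ed {y, b} {y, b} = {d0, G.al d0} := by
    ext d
    rw [mem_ed, mem_insert, mem_singleton, mem_insert, mem_singleton, mem_insert, mem_singleton]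
    constructor
    · rintro ⟨h3, h4, h5⟩
      rcases h4 with h4 | h4
      · have h6 : d ∈ G.st y := mem_st.2 ⟨h3, h4⟩
        rw [h.sty, mem_insert, mem_singleton] at h6
        rcases h6 with h6 | h6
        · exact Or.inl h6
        · exfalso
          rw [h6] at h5
          rcases h5 with h5 | h5
          · exact G.noloop _ h.u_mem.1 (h5.trans h.u_mem.2.symm)
          · exact h.pub h5
      · have h6 : d ∈ G.st b := mem_st.2 ⟨h3, h4⟩
        rw [h.stb, mem_insert, mem_insert, mem_singleton] at h6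
        rcases h6 with h6 | h6 | h6
        · exact Or.inr h6
        · exfalso
          rw [h6] at h5
          rcases h5 with h5 | h5
          · exact h.p1y h5
          · exact G.noloop _ h.e1_mem.1 (h5.trans h.e1_mem.2.symm)
        · exfalso
          rw [h6] at h5
          rcases h5 with h5 | h5
          · exact h.p2y h5
          · exact G.noloop _ h.e2_mem.1 (h5.trans h.e2_mem.2.symm)
    · rintro (h3 | h3)
      · rw [h3]
        exact ⟨h.a_mem.1, Or.inl h.a_mem.2, Or.inr h.aa_mem.2⟩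
      · rw [h3, G.al_al _ h.a_mem.1]
        exact ⟨h.aa_mem.1, Or.inr h.aa_mem.2, Or.inl h.a_mem.2⟩
  have h3 : d0 ≠ G.al d0 := by
    intro e
    have h4 := h.aa_mem.2
    rw [← e, h.a_mem.2] at h4
    exact h.yb h4
  rw [h2, sum_pair h3, hw.sym _ h.a_mem.1, zd, card_pair h.yb] at h1
  rw [h1]
  norm_num

/-- **THE `K4` GADGET AT A PAIR**: the state is good, or there is a good matching of the rest which
uses both exits of `b` and not the one of `y` -/
theorem k4 [Infinite V] [Infinite D] (ih : IHa a m V D) (hC : G.InstC fr F jm ep m)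
    (hw : G.Wt z t) (hu : ∀ d ∈ G.ds, G.pi d ∈ fr → z d = 1) (ha : fr.card < a)
    (hyf : y ∉ fr) (hbf : b ∉ fr) (ty : t y = 1) (zu : z u = 1) (z1 : z e1 = 1)
    (z2 : z e2 = 1) (htau : ∑ v ∈ G.vs, t v < 7)
    (hev : ∀ X ⊆ G.vs \ {y, b}, Even X.card → X.Nonempty → 3 ≤ G.val z t X)
    (hod : ∀ X ⊆ G.vs \ {y, b}, Odd X.card → 4 ≤ G.val z t (X ∪ {y, b})) :
    (∃ M, G.GoodS z fr F jm M) ∨ ∃ M, G.GHalf z fr F jm (G.vs \ {y, b}) M ∧
      G.al e1 ∈ M ∧ G.al e2 ∈ M ∧ G.al u ∉ M := by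
  have hF : G.FrS z fr F jm := hC.fresh.chg hu
  have hsub : ({y, b} : Finset V) ⊆ G.vs := by
    intro v hv
    rw [mem_insert, mem_singleton] at hv
    rcases hv with rfl | rfl
    · exact h.hy
    · exact h.hb
  have hcomp : G.vs \ (G.vs \ {y, b}) = {y, b} := Finset.sdiff_sdiff_eq_self hsub
  have hfr : ∀ v ∈ fr, v ∉ ({y, b} : Finset V) := by
    intro v hv h1
    rw [mem_insert, mem_singleton] at h1
    rcases h1 with rfl | rfl
    · exact hyf hv
    · exact hbf hv
  -- the weight of `yb`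
  have zd : z d0 = 1 := by
    have h1 := hw.deg y h.hy
    rw [h.sty, sum_pair h.au, zu, ty] at h1
    linarith
  -- the three ports
  have zp : ∀ i, z (G.al (uu u e1 e2 i)) = 1 := by
    intro i
    rw [hw.sym _ (h.uu_mem i).1]
    fin_cases i
    · exact z1
    · exact z2
    · exact zu
  have tsum : ∑ v ∈ G.vs \ {y, b}, t v < 6 := by
    have h1 := sum_sdiff hsub (f := t)
    rw [sum_pair h.yb, ty] at h1
    have h2 := hw.t0 b h.hb
    linarith
  have hcard : Even (G.vs \ {y, b}).card := by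
    have h1 := card_sdiff_add_card_eq_card hsub
    rw [card_pair h.yb] at h1
    have h2 := hC.even
    rw [Nat.even_iff] at h2 ⊢
    omega
  obtain ⟨hh, cc, hk⟩ := h.k4d
  obtain ⟨M1, hM1, hpat⟩ := hk.solve ih hC hw hu ha hcard tsum
    (fun d hd _ => mem_sdiff.2 ⟨G.pi_mem _ (G.al_mem _ (hF.Fsub hd)),
      hfr _ (hF.Ffr _ (hF.Fal d hd))⟩)
    (Or.inl fun v hv => mem_sdiff.2 ⟨hF.fsub (hF.jms hv), hfr v (hF.jms hv)⟩) zp hev (by
    intro X hX ho
    have h1 := hw.val_join (A := G.vs \ {y, b}) sdiff_subset hX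
    rw [hcomp, h.val_pair hw zd] at h1
    have h2 := hod X hX ho
    have h3 : ∑ d ∈ (G.bd (G.vs \ {y, b})).filter (fun d => G.pi d ∈ X), z d =
        ((univ.filter fun i => G.pi (G.al (uu u e1 e2 i)) ∈ X).card : ℝ) := by
      rw [h.bd_eq, sum_filter, sum_image fun i _ j _ hij => h.alinj hij, card_eq_sum_ones,
        sum_filter]
      push_cast
      refine sum_congr rfl fun i _ => ?_
      rw [zp]
    rw [h3] at h1
    linarith)
  -- the half at the pair
  have key : ∀ p q : D, (p ∈ G.ds ∧ G.pi p = y) → (q ∈ G.ds ∧ G.pi q = b) → 0 < z p → 0 < z q →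
      (∀ d ∈ ({p, q} : Finset D), G.pi (G.al d) ∈ ({y, b} : Finset V) →
        G.al d ∈ ({p, q} : Finset D)) →
      (∀ i, G.al (uu u e1 e2 i) ∈ M1 ↔ uu u e1 e2 i ∈ ({p, q} : Finset D)) →
      ∃ M, G.GoodS z fr F jm M := by
    intro p q hp hq zp' zq' hcl hx
    refine ⟨M1 ∪ {p, q}, GHalf.glue hF hM1 ?_ ?_ ?_ ?_ ?_⟩
    · rw [hcomp]
      refine ⟨h.hm2 hp hq hcl, ?_, ?_⟩
      · intro d hd
        rw [mem_insert, mem_singleton] at hd
        rcases hd with rfl | rfl
        · exact zp'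
        · exact zq'
      · intro X hX hXA _
        have h1 : X = ∅ := by
          rw [eq_empty_iff_forall_notMem]
          intro v hv
          exact hfr v (hX.sub hv) (hXA hv)
        rw [h1]
        refine ⟨by simp, fun h2 => ?_⟩
        obtain ⟨v, hv⟩ := h2.1
        exact notMem_empty v (h2.2 hv)
    · intro d hd
      rw [h.bd_eq] at hd
      obtain ⟨i, -, rfl⟩ := mem_image.1 hd
      rw [G.al_al _ (h.uu_mem i).1]
      exact hx i
    · intro d hd _
      exact mem_sdiff.2 ⟨G.pi_mem _ (G.al_mem _ (hF.Fsub hd)), hfr _ (hF.Ffr _ (hF.Fal d hd))⟩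
    · exact Or.inl fun v hv => mem_sdiff.2 ⟨hF.fsub (hF.jms hv), hfr v (hF.jms hv)⟩
    · intro X hX _
      rw [eq_empty_iff_forall_notMem]
      intro d hd
      obtain ⟨h1, -, -, -, h2, -, h3⟩ := mem_uX.1 hd
      exact h3 (mem_sdiff.2 ⟨G.pi_mem _ (G.al_mem _ h1), hfr _ (hX.sub h2)⟩)
  have hu1 : u ≠ e1 := fun e => h.yb (by rw [← h.u_mem.2, e, h.e1_mem.2])
  have hu2 : u ≠ e2 := fun e => h.yb (by rw [← h.u_mem.2, e, h.e2_mem.2])
  have hd1 : d0 ≠ e1 := fun e => h.yb (by rw [← h.a_mem.2, e, h.e1_mem.2])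
  have hd2 : d0 ≠ e2 := fun e => h.yb (by rw [← h.a_mem.2, e, h.e2_mem.2])
  have hdu : u ≠ G.al d0 := fun e => h.yb (by rw [← h.u_mem.2, e, h.aa_mem.2])
  rcases hpat with h0 | ⟨i, hi, hj⟩
  · left
    refine key d0 (G.al d0) h.a_mem h.aa_mem (by rw [zd]; norm_num)
      (by rw [hw.sym _ h.a_mem.1, zd]; norm_num) ?_ ?_
    · intro d hd _
      rw [mem_insert, mem_singleton] at hd ⊢
      rcases hd with rfl | rfl
      · exact Or.inr rfl
      · exact Or.inl (G.al_al _ h.a_mem.1)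
    · intro i
      refine iff_of_false (h0 i) ?_
      rw [mem_insert, mem_singleton, not_or]
      fin_cases i
      · exact ⟨hd1.symm, h.ae1.symm⟩
      · exact ⟨hd2.symm, h.ae2.symm⟩
      · exact ⟨h.au.symm, hdu⟩
  · have nout : ∀ i, G.pi (G.al (uu u e1 e2 i)) ∉ ({y, b} : Finset V) := fun i =>
      (h.uu_mem i).2.2
    fin_cases i
    · left
      refine key u e2 h.u_mem h.e2_mem (by rw [zu]; norm_num) (by rw [z2]; norm_num) ?_ ?_
      · intro d hd hd'
        rw [mem_insert, mem_singleton] at hd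
        rcases hd with rfl | rfl
        · exact absurd hd' (nout 2)
        · exact absurd hd' (nout 1)
      · intro i
        rw [mem_insert, mem_singleton]
        fin_cases i
        · exact iff_of_false hi (by rw [not_or]; exact ⟨hu1.symm, h.e12⟩)
        · exact iff_of_true (hj 1 (by decide)) (Or.inr rfl)
        · exact iff_of_true (hj 2 (by decide)) (Or.inl rfl)
    · left
      refine key u e1 h.u_mem h.e1_mem (by rw [zu]; norm_num) (by rw [z1]; norm_num) ?_ ?_
      · intro d hd hd'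
        rw [mem_insert, mem_singleton] at hd
        rcases hd with rfl | rfl
        · exact absurd hd' (nout 2)
        · exact absurd hd' (nout 0)
      · intro i
        rw [mem_insert, mem_singleton]
        fin_cases i
        · exact iff_of_true (hj 0 (by decide)) (Or.inr rfl)
        · exact iff_of_false hi (by rw [not_or]; exact ⟨hu2.symm, h.e12.symm⟩)
        · exact iff_of_true (hj 2 (by decide)) (Or.inl rfl)
    · exact Or.inr ⟨M1, hM1, hj 0 (by decide), hj 1 (by decide), hi⟩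

end YB

end MG

end RH
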