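import Pool.Agent.Lib.RH.Step

/-! Killing edges with tokens at their ends, and small perturbations. -/

set_option autoImplicit false

namespace RH

open Finset Classical

namespace MG

variable {V D : Type*} {G : MG V D} {z : D → ℝ} {t : V → ℝ}

/-- weights after killing the edges of `S` -/
noncomputable def kz (z : D → ℝ) (S : Finset D) (d : D) : ℝ := if d ∈ S then 0 else z d

/-- tokens after killing the edges of `S`: the lost weight becomes tokens -/
noncomputable def kt (G : MG V D) (z : D → ℝ) (t : V → ℝ) (S : Finset D) (v : V) : ℝ :=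
  t v + ∑ d ∈ S.filter fun d => G.pi d = v, z d

theorem sum_kz (z : D → ℝ) (S A : Finset D) :
    ∑ d ∈ A, kz z S d + ∑ d ∈ A.filter (fun d => d ∈ S), z d = ∑ d ∈ A, z d := by
  rw [Finset.sum_filter, ← Finset.sum_add_distrib]
  apply Finset.sum_congr rfl
  intro d _
  unfold kz
  split_ifs <;> simp

/-- sum over the darts at the vertices of a set -/
theorem sum_pi_mem (G : MG V D) (S : Finset D) (f : D → ℝ) (X : Finset V) :
    ∑ v ∈ X, ∑ d ∈ S.filter (fun d => G.pi d = v), f d =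
      ∑ d ∈ S.filter (fun d => G.pi d ∈ X), f d := by
  rw [← Finset.sum_fiberwise_of_maps_to (s := S.filter (fun d => G.pi d ∈ X)) (t := X)
    (g := G.pi) (fun d hd => (Finset.mem_filter.1 hd).2)]
  apply Finset.sum_congr rfl
  intro v hv
  apply Finset.sum_congr
  · ext d
    simp only [Finset.mem_filter]
    constructor
    · rintro ⟨h1, h2⟩
      exact ⟨⟨h1, h2 ▸ hv⟩, h2⟩
    · rintro ⟨⟨h1, _⟩, h2⟩
      exact ⟨h1, h2⟩
  · intro _ _
    rfl

/-- the darts at a set: boundary and inside -/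
theorem sum_bd_ed (G : MG V D) (f : D → ℝ) (X : Finset V) :
    ∑ d ∈ G.ds.filter (fun d => G.pi d ∈ X), f d =
      ∑ d ∈ G.bd X, f d + ∑ d ∈ G.ed X X, f d := by
  have h1 := Finset.sum_filter_add_sum_filter_not (G.ds.filter (fun d => G.pi d ∈ X))
    (fun d => G.pi (G.al d) ∉ X) f
  rw [← h1]
  congr 1
  · apply Finset.sum_congr
    · ext d
      simp only [Finset.mem_filter, bd, and_assoc]
    · intro _ _
      rfl
  · apply Finset.sum_congr
    · ext d
      simp only [Finset.mem_filter, ed, and_assoc, not_not]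
    · intro _ _
      rfl

theorem kill_val (_h : G.Wt z t) {S : Finset D} (hS : S ⊆ G.ds) (_hal : ∀ d ∈ S, G.al d ∈ S)
    {X : Finset V} (_hX : X ⊆ G.vs) :
    G.val (kz z S) (kt G z t S) X =
      G.val z t X + ∑ d ∈ (G.ed X X).filter fun d => d ∈ S, z d := by
  have h1 := sum_kz z S (G.bd X)
  have h2 : ∑ v ∈ X, kt G z t S v =
      ∑ v ∈ X, t v + ∑ d ∈ S.filter (fun d => G.pi d ∈ X), z d := by
    rw [← sum_pi_mem G S z X, ← Finset.sum_add_distrib]
    rfl
  have h3 : ∑ d ∈ S.filter (fun d => G.pi d ∈ X), z d =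
      ∑ d ∈ (G.bd X).filter (fun d => d ∈ S), z d +
        ∑ d ∈ (G.ed X X).filter (fun d => d ∈ S), z d := by
    rw [← Finset.sum_filter_add_sum_filter_not (S.filter (fun d => G.pi d ∈ X))
      (fun d => G.pi (G.al d) ∉ X) z]
    congr 1
    · apply Finset.sum_congr
      · ext d
        simp only [Finset.mem_filter, bd]
        constructor
        · rintro ⟨⟨h1, h2⟩, h3⟩
          exact ⟨⟨hS h1, h2, h3⟩, h1⟩
        · rintro ⟨⟨_, h2, h3⟩, h1⟩
          exact ⟨⟨h1, h2⟩, h3⟩
      · intro _ _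
        rfl
    · apply Finset.sum_congr
      · ext d
        simp only [Finset.mem_filter, ed, not_not]
        constructor
        · rintro ⟨⟨h1, h2⟩, h3⟩
          exact ⟨⟨hS h1, h2, h3⟩, h1⟩
        · rintro ⟨⟨_, h2, h3⟩, h1⟩
          exact ⟨⟨h1, h2⟩, h3⟩
      · intro _ _
        rfl
  unfold val
  linarith

/-- killing with tokens at both ends never decreases the value of a set -/
theorem Wt.kill (h : G.Wt z t) {S : Finset D} (hS : S ⊆ G.ds) (hal : ∀ d ∈ S, G.al d ∈ S) :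
    G.Wt (kz z S) (kt G z t S) where
  z0 := fun d hd => by
    unfold kz
    split_ifs
    · exact le_rfl
    · exact h.z0 d hd
  t0 := fun v hv => by
    unfold kt
    have h1 := h.t0 v hv
    have h2 : 0 ≤ ∑ d ∈ S.filter fun d => G.pi d = v, z d :=
      Finset.sum_nonneg fun d hd => h.z0 d (hS (Finset.mem_filter.1 hd).1)
    linarith
  sym := fun d hd => by
    unfold kz
    have hiff : G.al d ∈ S ↔ d ∈ S := by
      constructor
      · intro h1
        have := hal _ h1
        rwa [G.al_al d hd] at this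
      · exact hal d
    by_cases hdS : d ∈ S
    · rw [if_pos hdS, if_pos (hiff.2 hdS)]
    · rw [if_neg hdS, if_neg (fun hh => hdS (hiff.1 hh))]
      exact h.sym d hd
  deg := fun v hv => by
    have h1 := sum_kz z S (G.st v)
    have h2 := h.deg v hv
    have h3 : (G.st v).filter (fun d => d ∈ S) = S.filter fun d => G.pi d = v := by
      ext d
      simp only [Finset.mem_filter, st]
      constructor
      · rintro ⟨⟨_, h2⟩, h3⟩
        exact ⟨h3, h2⟩
      · rintro ⟨h2, h3⟩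
        exact ⟨⟨hS h2, h3⟩, h2⟩
    rw [h3] at h1
    unfold kt
    linarith
  cut := fun X hX ho => by
    rw [kill_val h hS hal hX]
    have h1 := h.cut X hX ho
    have h2 : 0 ≤ ∑ d ∈ (G.ed X X).filter fun d => d ∈ S, z d :=
      Finset.sum_nonneg fun d hd => h.z0 d (hS (Finset.mem_filter.1 hd).2)
    linarith

theorem kill_tau (_h : G.Wt z t) {S : Finset D} (hS : S ⊆ G.ds) (_hal : ∀ d ∈ S, G.al d ∈ S) :
    ∑ v ∈ G.vs, kt G z t S v = ∑ v ∈ G.vs, t v + ∑ d ∈ S, z d := by
  have h1 : ∑ v ∈ G.vs, kt G z t S v =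
      ∑ v ∈ G.vs, t v + ∑ d ∈ S.filter (fun d => G.pi d ∈ G.vs), z d := by
    rw [← sum_pi_mem G S z G.vs, ← Finset.sum_add_distrib]
    rfl
  rw [h1, Finset.filter_true_of_mem fun d hd => G.pi_mem d (hS hd)]

/-- finitely many linear constraints -/
theorem exists_eps {ι : Type*} (s : Finset ι) (f g : ι → ℝ) (h0 : ∀ i ∈ s, 0 ≤ f i)
    (h1 : ∀ i ∈ s, f i = 0 → 0 ≤ g i) :
    ∃ ε : ℝ, 0 < ε ∧ ∀ e : ℝ, 0 ≤ e → e ≤ ε → ∀ i ∈ s, 0 ≤ f i + e * g i := by
  induction s using Finset.induction_on with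
  | empty =>
    exact ⟨1, one_pos, fun e _ _ i hi => absurd hi (Finset.notMem_empty i)⟩
  | insert i s hi ih =>
    obtain ⟨ε, hε, hh⟩ := ih (fun j hj => h0 j (Finset.mem_insert_of_mem hj))
      (fun j hj => h1 j (Finset.mem_insert_of_mem hj))
    have hf := h0 i (Finset.mem_insert_self i s)
    have hg := h1 i (Finset.mem_insert_self i s)
    rcases le_or_gt 0 (g i) with hgi | hgi
    · refine ⟨ε, hε, fun e he0 he1 j hj => ?_⟩
      rcases Finset.mem_insert.1 hj with rfl | hj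
      · have := mul_nonneg he0 hgi
        linarith
      · exact hh e he0 he1 j hj
    · have hfi : 0 < f i := lt_of_le_of_ne hf fun hh => absurd (hg hh.symm) (not_le.2 hgi)
      refine ⟨min ε (f i / (-g i)), lt_min hε (div_pos hfi (neg_pos.2 hgi)),
        fun e he0 he1 j hj => ?_⟩
      rcases Finset.mem_insert.1 hj with rfl | hj
      · have h2 : e ≤ f j / (-g j) := le_trans he1 (min_le_right _ _)
        rw [le_div_iff₀ (neg_pos.2 hgi)] at h2
        linarith
      · exact hh e he0 (le_trans he1 (min_le_left _ _)) j hj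

theorem val_add (G : MG V D) (z a : D → ℝ) (t b : V → ℝ) (e : ℝ) (X : Finset V) :
    G.val (fun d => z d + e * a d) (fun v => t v + e * b v) X =
      G.val z t X + e * G.val a b X := by
  unfold val
  rw [Finset.sum_add_distrib, Finset.sum_add_distrib, ← Finset.mul_sum, ← Finset.mul_sum]
  ring

/-- small perturbations: only the tight sets matter -/
theorem Wt.pert (h : G.Wt z t) (a : D → ℝ) (b : V → ℝ)
    (hsym : ∀ d ∈ G.ds, a (G.al d) = a d)
    (hdeg : ∀ v ∈ G.vs, ∑ d ∈ G.st v, a d + b v = 0)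
    (hz : ∀ d ∈ G.ds, z d = 0 → 0 ≤ a d) (ht : ∀ v ∈ G.vs, t v = 0 → 0 ≤ b v)
    (hcut : ∀ X ⊆ G.vs, Odd X.card → G.val z t X = 3 → 0 ≤ G.val a b X) :
    ∃ ε : ℝ, 0 < ε ∧ ∀ e : ℝ, 0 ≤ e → e ≤ ε →
      G.Wt (fun d => z d + e * a d) (fun v => t v + e * b v) := by
  obtain ⟨ε1, hε1, H1⟩ := exists_eps G.ds z a h.z0 hz
  obtain ⟨ε2, hε2, H2⟩ := exists_eps G.vs t b h.t0 ht
  obtain ⟨ε3, hε3, H3⟩ := exists_eps (G.vs.powerset.filter fun X => Odd X.card)
    (fun X => G.val z t X - 3) (fun X => G.val a b X)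
    (fun X hX => by
      obtain ⟨hX1, hX2⟩ := Finset.mem_filter.1 hX
      have := h.cut X (Finset.mem_powerset.1 hX1) hX2
      linarith)
    (fun X hX h0 => by
      obtain ⟨hX1, hX2⟩ := Finset.mem_filter.1 hX
      exact hcut X (Finset.mem_powerset.1 hX1) hX2 (by linarith))
  refine ⟨min ε1 (min ε2 ε3), lt_min hε1 (lt_min hε2 hε3), fun e he0 he => ?_⟩
  have he1 : e ≤ ε1 := le_trans he (min_le_left _ _)
  have he2 : e ≤ ε2 := le_trans he (le_trans (min_le_right _ _) (min_le_left _ _))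
  have he3 : e ≤ ε3 := le_trans he (le_trans (min_le_right _ _) (min_le_right _ _))
  exact
    { z0 := H1 e he0 he1
      t0 := H2 e he0 he2
      sym := fun d hd => by
        show z (G.al d) + e * a (G.al d) = z d + e * a d
        rw [h.sym d hd, hsym d hd]
      deg := fun v hv => by
        show ∑ d ∈ G.st v, (z d + e * a d) + (t v + e * b v) = 3
        rw [Finset.sum_add_distrib, ← Finset.mul_sum]
        have h1 := h.deg v hv
        have h2 := hdeg v hv
        have h3 : e * (∑ d ∈ G.st v, a d + b v) = 0 := by rw [h2, mul_zero]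
        rw [mul_add] at h3
        linarith
      cut := fun X hX ho => by
        rw [val_add]
        have := H3 e he0 he3 X (Finset.mem_filter.2 ⟨Finset.mem_powerset.2 hX, ho⟩)
        linarith }

/-- the value of a perturbation with vertex sums zero -/
theorem pert_val (a : D → ℝ) (b : V → ℝ) (hdeg : ∀ v ∈ G.vs, ∑ d ∈ G.st v, a d + b v = 0)
    {X : Finset V} (hX : X ⊆ G.vs) : G.val a b X = - ∑ d ∈ G.ed X X, a d := by
  have h1 : ∑ v ∈ X, (∑ d ∈ G.st v, a d + b v) = 0 :=
    Finset.sum_eq_zero fun v hv => hdeg v (hX hv)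
  rw [Finset.sum_add_distrib] at h1
  have h2 : ∑ v ∈ X, ∑ d ∈ G.st v, a d = ∑ d ∈ G.ds.filter (fun d => G.pi d ∈ X), a d :=
    sum_pi_mem G G.ds a X
  have h3 := sum_bd_ed G a X
  unfold val
  linarith

/-- Kill the J-edges of `S` (all of weight 1) and perturb: if `tau + |S| ≤ 6` (every edge of `S`
counts twice in `S.card`) and some direction lowers the number of tokens, there is a step. -/
theorem step_of_dir {fr fr' : Finset V} {F : Finset D} {par ep : V → ℕ}
    (h : G.Inst z t fr F par ep) {S : Finset D} (hS : S ⊆ G.ds) (hal : ∀ d ∈ S, G.al d ∈ S)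
    (hS1 : ∀ d ∈ S, z d = 1) (htau : ∑ v ∈ G.vs, t v + S.card ≤ 6)
    (hsub : fr' ⊆ fr) (hne : fr' ≠ fr)
    (hclo : ∀ d ∈ F, G.pi d ∈ fr' → G.pi (G.al d) ∈ fr')
    (hSfr : ∀ d ∈ S, G.pi d ∉ fr')
    (hkill : ∀ X, G.Adm fr F X → ¬ X ⊆ fr' → ∃ d ∈ G.bd X, d ∈ S)
    (a : D → ℝ) (b : V → ℝ)
    (hsym : ∀ d ∈ G.ds, a (G.al d) = a d)
    (hdeg : ∀ v ∈ G.vs, ∑ d ∈ G.st v, a d + b v = 0)
    (hafr : ∀ d ∈ G.ds, G.pi d ∈ fr' → a d = 0)
    (haS : ∀ d ∈ S, a d = 0) (haz : ∀ d ∈ G.ds, z d = 0 → a d = 0)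
    (hb : ∀ v ∈ G.vs, kt G z t S v = 0 → 0 ≤ b v)
    (hcut : ∀ X ⊆ G.vs, Odd X.card → G.val z t X = 3 → (∀ d ∈ G.ed X X, d ∉ S) →
      ∑ d ∈ G.ed X X, a d ≤ 0)
    (hneg : ∑ v ∈ G.vs, b v < 0) :
    ∃ z' t', G.IsStep z fr F z' t' fr' := by
  have hw := h.wt
  have hw1 := hw.kill hS hal
  have hz1 : ∀ d ∈ G.ds, kz z S d = 0 → 0 ≤ a d := by
    intro d hd h0
    by_cases hdS : d ∈ S
    · exact (haS d hdS).ge
    · have : z d = 0 := by
        unfold kz at h0
        rwa [if_neg hdS] at h0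
      exact (haz d hd this).ge
  have hc1 : ∀ X ⊆ G.vs, Odd X.card → G.val (kz z S) (kt G z t S) X = 3 →
      0 ≤ G.val a b X := by
    intro X hX ho hv
    rw [kill_val hw hS hal hX] at hv
    have h1 := hw.cut X hX ho
    have h2 : ∀ d ∈ (G.ed X X).filter fun d => d ∈ S, 0 ≤ z d := fun d hd =>
      hw.z0 d (hS (Finset.mem_filter.1 hd).2)
    have h3 := Finset.sum_nonneg h2
    have h4 : ∑ d ∈ (G.ed X X).filter fun d => d ∈ S, z d = 0 := by linarith
    have h5 := (Finset.sum_eq_zero_iff_of_nonneg h2).1 h4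
    have h6 : ∀ d ∈ G.ed X X, d ∉ S := by
      intro d hd hdS
      have := h5 d (Finset.mem_filter.2 ⟨hd, hdS⟩)
      rw [hS1 d hdS] at this
      exact one_ne_zero this
    have h7 := hcut X hX ho (by linarith) h6
    rw [pert_val a b hdeg hX]
    linarith
  obtain ⟨ε, hε, H⟩ := hw1.pert a b hsym hdeg hz1 hb hc1
  have hW := H ε hε.le le_rfl
  refine ⟨fun d => kz z S d + ε * a d, fun v => kt G z t S v + ε * b v,
    { wt := hW
      tau := ?_
      supp := ?_
      sub := hsub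
      ne := hne
      clo := hclo
      unit := ?_
      kill := ?_ }⟩
  · rw [Finset.sum_add_distrib, ← Finset.mul_sum, kill_tau hw hS hal]
    have h1 : ∑ d ∈ S, z d = S.card := by
      rw [Finset.sum_congr rfl hS1]
      simp
    rw [h1]
    have h2 := mul_neg_of_pos_of_neg hε hneg
    linarith
  · intro d hd hp
    by_contra hn
    have hz : z d = 0 := le_antisymm (not_lt.1 hn) (hw.z0 d hd)
    have ha := haz d hd hz
    simp only [ha, mul_zero, add_zero] at hp
    unfold kz at hp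
    rw [hz] at hp
    simp at hp
  · intro d hd hp
    show kz z S d + ε * a d = 1
    have h1 : d ∉ S := fun hdS => hSfr d hdS hp
    rw [hafr d hd hp, mul_zero, add_zero]
    unfold kz
    rw [if_neg h1]
    exact h.fresh.unit d hd (hsub hp)
  · intro X hX hn
    obtain ⟨d, hd, hdS⟩ := hkill X hX hn
    refine ⟨d, hd, ?_⟩
    show kz z S d + ε * a d = 0
    rw [haS d hdS, mul_zero, add_zero]
    unfold kz
    rw [if_pos hdS]

end MG

end RH
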