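import Pool.Agent.Lib.RH.MC

/-! Absorbing classes without a kill (helper63, helper4): `InstS.absorb` (classes may be absorbed for
free), `MCS.free` (what a matching that is good for the rest looks like) and REST: if the number of
fresh vertices is even and every perfect matching of the support contains all ports of `fr`, then
one class can be absorbed for free. -/

set_option autoImplicit false

namespace RH

open Finset Classical

namespace MG

variable {V D : Type*} {G : MG V D} {z : D → ℝ} {t : V → ℝ} {fr : Finset V} {F : Finset D}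
variable {jm sx : Finset V} {ep : V → ℕ} {m : ℕ} {M : Finset D}

/-- absorbing classes without a kill; the star is kept (`sx ⊆ fr1`) or disappears -/
theorem InstS.absorb (h : G.InstS z t fr F jm sx ep m) {fr1 jm1 sx1 : Finset V} (hs : fr1 ⊆ fr)
    (hcl : ∀ d ∈ F, G.pi d ∈ fr1 → G.pi (G.al d) ∈ fr1)
    (hk : (sx ⊆ fr1 ∧ jm ⊆ fr1 ∧ sx1 = sx ∧ jm1 = jm) ∨
      (Disjoint jm fr1 ∧ sx1 = ∅ ∧ jm1 = ∅)) :
    G.InstS z t fr1 (F.filter fun d => G.pi d ∈ fr1) jm1 sx1 ep m := by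
  have hF := h.fresh
  have hA : ∀ X, G.Adm fr1 (F.filter fun d => G.pi d ∈ fr1) X → G.Adm fr F X := by
    intro X hX
    exact ⟨hX.sub.trans hs, fun d hd hp => hX.clo d (mem_filter.2 ⟨hd, hX.sub hp⟩) hp⟩
  have hjm1 : ∀ v ∈ fr1, (v ∈ jm1 ↔ v ∈ jm) := by
    intro v hv
    rcases hk with ⟨-, -, -, rfl⟩ | ⟨h1, -, rfl⟩
    · rfl
    · exact ⟨fun h2 => absurd h2 (notMem_empty _), fun h2 => absurd hv (disjoint_left.1 h1 h2)⟩
  have hjs : jm1 ⊆ fr1 := by
    rcases hk with ⟨-, h1, -, rfl⟩ | ⟨h1, -, rfl⟩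
    · exact h1
    · exact empty_subset _
  refine ⟨h.even, h.wt, h.tau, ?_, fun X hX => h.cc X (hA X hX), fun X hX => h.ev X (hA X hX),
    ?_, ?_, ?_, ?_, ?_, ?_⟩
  · refine ⟨hs.trans hF.fsub, (filter_subset _ _).trans hF.Fsub, ?_, ?_, ?_, hjs, ?_, ?_, ?_⟩
    · intro d hd
      obtain ⟨h1, h2⟩ := mem_filter.1 hd
      exact mem_filter.2 ⟨hF.Fal d h1, hcl d h1 h2⟩
    · intro d hd
      exact (mem_filter.1 hd).2
    · intro v hv
      rw [← hF.two v (hs hv)]
      congr 1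
      ext d
      rw [mem_filter, mem_filter, mem_filter]
      constructor
      · rintro ⟨⟨h1, -⟩, h4⟩
        exact ⟨h1, h4⟩
      · rintro ⟨h1, rfl⟩
        exact ⟨⟨h1, hv⟩, rfl⟩
    · intro v hv hj
      rw [← hF.jd v (hs hv) (fun h1 => hj ((hjm1 v hv).2 h1))]
      congr 1
      apply filter_congr
      intro d hd
      have hp : G.pi d = v := (mem_st.1 hd).2
      rw [mem_filter, hp]
      constructor
      · intro h1 h2
        exact h1 ⟨h2, hv⟩
      · intro h1 h2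
        exact h1 h2.1
    · intro v hv d hd
      have hvf := hjs hv
      refine mem_filter.2 ⟨hF.j0 v ((hjm1 v hvf).1 hv) d hd, ?_⟩
      rw [(mem_st.1 hd).2]
      exact hvf
    · intro d hd hp
      exact hF.unit d hd (hs hp)
  · rcases hk with ⟨h1, -, rfl, -⟩ | ⟨-, rfl, -⟩
    · exact h1
    · exact empty_subset _
  · rcases hk with ⟨-, -, rfl, rfl⟩ | ⟨-, rfl, rfl⟩
    · rcases h.kind with h1 | ⟨h1, h2⟩
      · exact Or.inl h1
      · exact Or.inr ⟨h1, fun X hX => h2 X (hA X hX)⟩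
    · exact Or.inl rfl
  · rcases hk with ⟨-, -, -, rfl⟩ | ⟨-, -, rfl⟩
    · exact h.jm2
    · exact Or.inl rfl
  · intro hne
    rcases hk with ⟨-, -, rfl, -⟩ | ⟨-, rfl, -⟩
    · exact h.st2 hne
    · exact absurd hne not_nonempty_empty
  · intro X hX he hne hsX
    rcases hk with ⟨-, -, rfl, -⟩ | ⟨-, rfl, -⟩
    · exact h.b0 X (hA X hX) he hne hsX
    · exact absurd hne not_nonempty_empty
  · intro v hv
    have h1 := h.epj v (hs hv)
    by_cases h2 : v ∈ jm
    · rw [if_pos h2] at h1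
      rw [if_pos ((hjm1 v hv).2 h2)]
      exact h1
    · rw [if_neg h2] at h1
      rw [if_neg (fun h4 => h2 ((hjm1 v hv).1 h4))]
      exact h1

/-- the complement of an admissible set inside `fr` -/
theorem FrS.adm_compl (hF : G.FrS z fr F jm) {X : Finset V} (hX : G.Adm fr F X) :
    G.Adm fr F (fr \ X) := by
  refine ⟨sdiff_subset, fun d hd hp => ?_⟩
  have h1 := hF.Fal d hd
  refine mem_sdiff.2 ⟨hF.Ffr _ h1, fun h2 => (mem_sdiff.1 hp).2 ?_⟩
  have h3 := hX.clo _ h1 h2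
  rwa [G.al_al d (hF.Fsub hd)] at h3

/-- ports of the complement -/
theorem bd_compl_fr (hM : G.IsPM M) {X : Finset V}
    (hX : ∀ d ∈ G.bd X, d ∈ M) {d : D} (hd : d ∈ G.bd (fr \ X)) (hdM : d ∉ M) :
    d ∈ G.bd fr := by
  obtain ⟨h1, h2, h3⟩ := mem_bd.1 hd
  refine mem_bd.2 ⟨h1, (mem_sdiff.1 h2).1, fun h4 => hdM ?_⟩
  have h5 : G.pi (G.al d) ∈ X := by
    by_contra h6
    exact h3 (mem_sdiff.2 ⟨h4, h6⟩)
  have h6 : G.al d ∈ G.bd X := by
    refine mem_bd.2 ⟨G.al_mem d h1, h5, ?_⟩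
    rw [G.al_al d h1]
    exact (mem_sdiff.1 h2).2
  have h7 := hM.closed _ (hX _ h6)
  rwa [G.al_al d h1] at h7

/-- Free absorption of the class of `v` (no star): some matching `M` is good for the unions avoiding
`v`; it is bad only because of closed odd unions `X` containing `v`, and then, if `|fr|` is even, `M`
misses a port of `fr` outside `X`. -/
theorem InstS.free (h : G.InstS z t fr F ∅ ∅ ep m) (ih : IHL fr.card G.vs.card m V D) {v : V}
    (hv : v ∈ fr) :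
    ∃ M, G.IsPM M ∧ (∀ d ∈ M, 0 < z d) ∧
      (∀ X, G.Adm fr F X → Odd X.card → v ∉ X → ∃ d ∈ G.bd X, d ∉ M) ∧
      (Even fr.card → ∀ X, G.Adm fr F X → Odd X.card → (∀ d ∈ G.bd X, d ∈ M) →
        v ∈ X ∧ ∃ d ∈ G.bd fr, G.pi d ∉ X ∧ d ∉ M) := by
  obtain ⟨fr1, hs, hcl, hd, hadm⟩ := exists_avoid G fr F {v}
  have hlt : fr1.card < fr.card := by
    refine card_lt_card (Finset.ssubset_iff_subset_ne.2 ⟨hs, fun he => ?_⟩)
    rw [he] at hd
    exact disjoint_left.1 hd hv (mem_singleton_self v)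
  have hI := h.absorb hs hcl (jm1 := ∅) (sx1 := ∅)
    (Or.inr ⟨disjoint_empty_left _, rfl, rfl⟩)
  obtain ⟨M, hM⟩ := ih G z t fr1 _ ∅ ∅ ep (Or.inl hlt) hI
  have key : ∀ X, G.Adm fr F X → Odd X.card → v ∉ X → ∃ d ∈ G.bd X, d ∉ M := by
    intro X hX ho hvX
    exact hM.hit X ((hadm X).2 ⟨hX, disjoint_singleton_right.2 hvX⟩) (Or.inl ho)
  refine ⟨M, hM.pm, hM.pos, key, fun he X hX ho hcX => ?_⟩
  have hvX : v ∈ X := by
    by_contra h1
    obtain ⟨d, h2, h3⟩ := key X hX ho h1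
    exact h3 (hcX d h2)
  refine ⟨hvX, ?_⟩
  have hoc : Odd (fr \ X).card := by
    have h1 : (fr \ X).card + X.card = fr.card := card_sdiff_add_card_eq_card hX.sub
    obtain ⟨a, ha⟩ := ho
    obtain ⟨b, hb⟩ := he
    rw [Nat.odd_iff]
    omega
  obtain ⟨d, h1, h2⟩ := key (fr \ X) (h.fresh.adm_compl hX) hoc
    (fun h1 => (mem_sdiff.1 h1).2 hvX)
  exact ⟨d, bd_compl_fr hM.pm hcX h1 h2,
    (mem_sdiff.1 (mem_bd.1 h1).2.1).2, h2⟩

/-- REST (helper4): every perfect matching of the support contains all ports of `fr`, `|fr|` even -/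
theorem InstS.rest (h : G.InstS z t fr F ∅ ∅ ep m) (ih : IHL fr.card G.vs.card m V D)
    (he : Even fr.card) (hne : fr.Nonempty)
    (hall : ∀ M, G.IsPM M → (∀ d ∈ M, 0 < z d) → ∀ d ∈ G.bd fr, d ∈ M) :
    ∃ M, G.GoodS z fr F ∅ M := by
  obtain ⟨v, hv⟩ := hne
  obtain ⟨M, hM, hpos, h1, h2⟩ := h.free ih hv
  refine ⟨M, hM, hpos, fun X hX hor => ?_⟩
  have ho : Odd X.card := by
    rcases hor with h3 | ⟨h3, -⟩
    · exact h3
    · exact absurd h3 not_nonempty_empty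
  by_contra hcon
  push Not at hcon
  obtain ⟨-, d, h3, -, h4⟩ := h2 he X hX ho hcon
  exact h4 (hall M hM hpos d h3)

/-- in a minimal counterexample without star and with `|fr|` even some port of `fr` is missed by
some perfect matching of the support -/
theorem MCS.rest (h : G.MCS z t fr F ∅ ∅ ep m) (he : Even fr.card) (hne : fr.Nonempty) :
    ∃ M, G.IsPM M ∧ (∀ d ∈ M, 0 < z d) ∧ ∃ d ∈ G.bd fr, d ∉ M := by
  by_contra hcon
  push Not at hcon
  exact h.bad (h.inst.rest h.ih.toL he hne hcon)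

/-- in a minimal counterexample without star: for every fresh `v` there are a perfect matching `M` of
the support and a closed odd union `X` containing `v`, no odd union avoiding `v` is closed, and if
`|fr|` is even then `M` misses a port of `fr` outside `X` -/
theorem MCS.free (h : G.MCS z t fr F ∅ ∅ ep m) {v : V} (hv : v ∈ fr) :
    ∃ M X, G.IsPM M ∧ (∀ d ∈ M, 0 < z d) ∧
      (∀ Y, G.Adm fr F Y → Odd Y.card → v ∉ Y → ∃ d ∈ G.bd Y, d ∉ M) ∧
      G.Adm fr F X ∧ Odd X.card ∧ v ∈ X ∧ (∀ d ∈ G.bd X, d ∈ M) ∧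
      (Even fr.card → ∃ d ∈ G.bd fr, G.pi d ∉ X ∧ d ∉ M) := by
  obtain ⟨M, hM, hpos, h1, h2⟩ := h.inst.free h.ih.toL hv
  have h3 : ∃ X, G.Adm fr F X ∧ Odd X.card ∧ ∀ d ∈ G.bd X, d ∈ M := by
    by_contra hcon
    push Not at hcon
    refine h.bad ⟨M, hM, hpos, fun X hX hor => ?_⟩
    rcases hor with h4 | ⟨h4, -⟩
    · exact hcon X hX h4
    · exact absurd h4 not_nonempty_empty
  obtain ⟨X, hX, ho, hcX⟩ := h3
  have hvX : v ∈ X := by
    by_contra h4
    obtain ⟨d, h5, h6⟩ := h1 X hX ho h4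
    exact h6 (hcX d h5)
  exact ⟨M, X, hM, hpos, h1, hX, ho, hvX, hcX, fun he => (h2 he X hX ho hcX).2⟩

end MG

end RH
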