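import Pool.Agent.Lib.RH.Supp
import Pool.Agent.Lib.RH.SOdd
import Pool.Agent.Lib.RH.SRest

/-! Suppression of an even fresh circuit in a minimal counterexample (helper93, Lemma 1): if
`z + 1 on P1, - 1 on P2` keeps all odd sets at least 3, then there are an odd union `X` of the other
classes and a union `S` of `P1`-pairs such that the value of `X ∪ S` is 3 with the new weights. -/

set_option autoImplicit false

namespace RH

open Finset Classical

namespace MG

variable {V D : Type*}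

/-- the two perfect matchings of an even circuit -/
structure Two (G : MG V D) (F : Finset D) (C : Finset V) (P1 P2 : Finset D) : Prop where
  un : P1 ∪ P2 = F.filter fun d => G.pi d ∈ C
  dis : Disjoint P1 P2
  al1 : ∀ d ∈ P1, G.al d ∈ P1
  al2 : ∀ d ∈ P2, G.al d ∈ P2
  one1 : ∀ v ∈ C, (P1.filter fun d => G.pi d = v).card = 1
  one2 : ∀ v ∈ C, (P2.filter fun d => G.pi d = v).card = 1

/-- shifted weights -/
noncomputable def sz (z : D → ℝ) (P1 P2 : Finset D) (d : D) : ℝ :=
  z d + (if d ∈ P1 then 1 else 0) - (if d ∈ P2 then 1 else 0)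

variable {G : MG V D} {z : D → ℝ} {t : V → ℝ} {fr : Finset V} {F : Finset D}
variable {jm sx : Finset V} {ep : V → ℕ} {m : ℕ} {C : Finset V} {P1 P2 : Finset D}

theorem Two.symm (h : G.Two F C P1 P2) : G.Two F C P2 P1 :=
  ⟨by rw [union_comm]; exact h.un, h.dis.symm, h.al2, h.al1, h.one2, h.one1⟩

theorem exists_two (hF : G.FA F) (hC : G.Circ fr F C) (he : Even C.card) :
    ∃ P1 P2, G.Two F C P1 P2 := by
  obtain ⟨x0, hx0⟩ := hC.ne
  obtain ⟨a, haF, hax⟩ := hC.exists_dart hx0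
  obtain ⟨r, hr, -⟩ := exists_cyA hF hC haF (by rw [hax]; exact hx0)
  have : NeZero C.card := ⟨by
    have := card_pos.2 hC.ne
    omega⟩
  obtain ⟨k, hk⟩ := he
  have hpar : ∀ i : ZMod C.card, (Even (i + 1).val ↔ ¬ Even i.val) := by
    intro i
    have hpos := card_pos.2 hC.ne
    have hlt := ZMod.val_lt i
    have hone : (1 : ZMod C.card).val = 1 % C.card := ZMod.val_one_eq_one_mod _
    rw [ZMod.val_add, hone]
    have h1 : (i.val + 1 % C.card) % C.card = (i.val + 1) % C.card := by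
      rw [Nat.add_mod, Nat.mod_mod, ← Nat.add_mod]
    rw [h1]
    rw [Nat.even_iff, Nat.even_iff]
    rcases lt_or_ge (i.val + 1) C.card with h2 | h2
    · rw [Nat.mod_eq_of_lt h2]
      omega
    · have h3 : i.val + 1 = C.card := by omega
      rw [h3, Nat.mod_self]
      omega
  obtain ⟨δ, h1, h2, h3, h4, h5, h6⟩ := hr.exists_funA hF
    (fun i => if Even i.val then (1 : ℝ) else -1)
  have hcov := fun d hd hdC => hr.coverA hF hC (d := d) hd hdC
  have hval : ∀ d ∈ F, G.pi d ∈ C → δ d = 1 ∨ δ d = -1 := by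
    intro d hd hdC
    obtain ⟨i, hi⟩ := hcov d hd hdC
    have h7 : δ d = if Even i.val then (1 : ℝ) else -1 := by
      rcases hi with rfl | rfl
      · exact h1 i
      · exact h2 i
    rw [h7]
    split_ifs
    · exact Or.inl rfl
    · exact Or.inr rfl
  have hst : ∀ v ∈ C, ∃ d e : D, d ≠ e ∧ δ d = 1 ∧ δ e = -1 ∧
      (F.filter fun x => G.pi x = v) = {d, e} := by
    intro v hv
    obtain ⟨i, hi⟩ := hr.sur v hv
    have hi1 : i - 1 + 1 = i := sub_add_cancel i 1
    have hp : G.pi (G.al (r (i - 1))) = v := by rw [hr.nxt, hi1, hi]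
    have hne : r i ≠ G.al (r (i - 1)) := by
      have h7 := hr.ne (i - 1)
      rw [hi1] at h7
      exact fun e => h7 e.symm
    have hset : (F.filter fun x => G.pi x = v) = {r i, G.al (r (i - 1))} := by
      symm
      apply eq_of_subset_of_card_le
      · intro e he
        rw [mem_insert, mem_singleton] at he
        rcases he with rfl | rfl
        · exact mem_filter.2 ⟨hr.memF i, hi⟩
        · exact mem_filter.2 ⟨hF.Fal _ (hr.memF _), hp⟩
      · rw [hC.two v hv, card_pair hne]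
    have hp1 := hpar (i - 1)
    rw [hi1] at hp1
    have e1 := h1 i
    have e2 := h2 (i - 1)
    by_cases hev : Even i.val
    · rw [if_pos hev] at e1
      rw [if_neg (hp1.1 hev)] at e2
      exact ⟨_, _, hne, e1, e2, hset⟩
    · rw [if_neg hev] at e1
      have hev' : Even (i - 1).val := by
        by_contra h7
        exact hev (hp1.2 h7)
      rw [if_pos hev'] at e2
      exact ⟨_, _, hne.symm, e2, e1, by rw [hset, pair_comm]⟩
  refine ⟨F.filter fun d => G.pi d ∈ C ∧ δ d = 1, F.filter fun d => G.pi d ∈ C ∧ δ d = -1,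
    ?_, ?_, ?_, ?_, ?_, ?_⟩
  · ext d
    rw [mem_union, mem_filter, mem_filter, mem_filter]
    constructor
    · rintro (⟨h7, h8, -⟩ | ⟨h7, h8, -⟩)
      · exact ⟨h7, h8⟩
      · exact ⟨h7, h8⟩
    · rintro ⟨h7, h8⟩
      rcases hval d h7 h8 with h9 | h9
      · exact Or.inl ⟨h7, h8, h9⟩
      · exact Or.inr ⟨h7, h8, h9⟩
  · rw [disjoint_left]
    intro d h7 h8
    have h9 := (mem_filter.1 h7).2.2
    rw [(mem_filter.1 h8).2.2] at h9
    norm_num at h9
  · intro d hd
    obtain ⟨h7, h8, h9⟩ := mem_filter.1 hd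
    exact mem_filter.2 ⟨hF.Fal d h7, hC.adm.clo d h7 h8, by rw [h4 d (hF.Fsub h7)]; exact h9⟩
  · intro d hd
    obtain ⟨h7, h8, h9⟩ := mem_filter.1 hd
    exact mem_filter.2 ⟨hF.Fal d h7, hC.adm.clo d h7 h8, by rw [h4 d (hF.Fsub h7)]; exact h9⟩
  · intro v hv
    obtain ⟨d, e, h7, h8, h9, h10⟩ := hst v hv
    rw [card_eq_one]
    refine ⟨d, ?_⟩
    have hd : d ∈ F.filter fun x => G.pi x = v := by
      rw [h10]
      exact mem_insert_self _ _
    ext x
    rw [mem_filter, mem_filter, mem_singleton]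
    constructor
    · rintro ⟨⟨h11, h12, h13⟩, h14⟩
      have h15 : x ∈ ({d, e} : Finset D) := by
        rw [← h10]
        exact mem_filter.2 ⟨h11, h14⟩
      rw [mem_insert, mem_singleton] at h15
      rcases h15 with h15 | h15
      · exact h15
      · rw [h15, h9] at h13
        norm_num at h13
    · rintro rfl
      obtain ⟨h11, h12⟩ := mem_filter.1 hd
      exact ⟨⟨h11, by rw [h12]; exact hv, h8⟩, h12⟩
  · intro v hv
    obtain ⟨d, e, h7, h8, h9, h10⟩ := hst v hv
    rw [card_eq_one]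
    refine ⟨e, ?_⟩
    have hd : e ∈ F.filter fun x => G.pi x = v := by
      rw [h10]
      exact mem_insert_of_mem (mem_singleton_self _)
    ext x
    rw [mem_filter, mem_filter, mem_singleton]
    constructor
    · rintro ⟨⟨h11, h12, h13⟩, h14⟩
      have h15 : x ∈ ({d, e} : Finset D) := by
        rw [← h10]
        exact mem_filter.2 ⟨h11, h14⟩
      rw [mem_insert, mem_singleton] at h15
      rcases h15 with h15 | h15
      · rw [h15, h8] at h13
        norm_num at h13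
      · exact h15
    · rintro rfl
      obtain ⟨h11, h12⟩ := mem_filter.1 hd
      exact ⟨⟨h11, by rw [h12]; exact hv, h9⟩, h12⟩

private theorem even_inv (S : Finset D) (hS : S ⊆ G.ds) (hcl : ∀ d ∈ S, G.al d ∈ S) :
    Even S.card := by
  have h1 : ∑ _d ∈ S, (1 : ZMod 2) = 0 := by
    refine sum_involution (fun d _ => G.al d) ?_ ?_ ?_ ?_
    · intro d _
      decide
    · intro d hd _ he
      exact G.noloop d (hS hd) (by rw [he])
    · intro d hd
      exact hcl d hd
    · intro d hd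
      exact G.al_al d (hS hd)
  rw [sum_const, nsmul_eq_mul, mul_one] at h1
  rwa [ZMod.natCast_eq_zero_iff_even] at h1

/-- the number of J-darts leaving a set of fresh vertices (no star) -/
theorem FrS.jpar (hF : G.FrS z fr F ∅) {Y : Finset V} (hY : Y ⊆ fr) :
    ((G.bd Y).filter fun d => d ∉ F).card % 2 = Y.card % 2 := by
  set S : Finset D := G.ds.filter fun d => G.pi d ∈ Y ∧ d ∉ F with hS
  have h1 : S.card = Y.card := by
    rw [card_eq_sum_card_fiberwise (f := G.pi) (s := S) (t := Y)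
      (fun d hd => (mem_filter.1 (mem_coe.1 hd)).2.1)]
    rw [card_eq_sum_ones Y]
    refine sum_congr rfl fun v hv => ?_
    rw [← hF.jd v (hY hv) (notMem_empty v)]
    congr 1
    ext d
    rw [mem_filter, mem_filter, mem_filter, mem_st]
    constructor
    · rintro ⟨⟨h, h2, h3⟩, h4⟩
      exact ⟨⟨h, h4⟩, h3⟩
    · rintro ⟨⟨h, h4⟩, h3⟩
      exact ⟨⟨h, h4 ▸ hv, h3⟩, h4⟩
  have h2 : S = ((G.bd Y).filter fun d => d ∉ F) ∪ S.filter fun d => G.pi (G.al d) ∈ Y := by
    ext d
    simp only [mem_union, mem_filter, hS, mem_bd]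
    constructor
    · rintro ⟨h, h3, h5⟩
      by_cases h4 : G.pi (G.al d) ∈ Y
      · exact Or.inr ⟨⟨h, h3, h5⟩, h4⟩
      · exact Or.inl ⟨⟨h, h3, h4⟩, h5⟩
    · rintro (⟨⟨h, h3, h4⟩, h5⟩ | ⟨h, h3⟩)
      · exact ⟨h, h3, h5⟩
      · exact h
  have h3 : Disjoint ((G.bd Y).filter fun d => d ∉ F) (S.filter fun d => G.pi (G.al d) ∈ Y) := by
    rw [disjoint_left]
    intro d h4 h5
    exact (mem_bd.1 (mem_filter.1 h4).1).2.2 (mem_filter.1 h5).2
  have h4 : Even (S.filter fun d => G.pi (G.al d) ∈ Y).card := by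
    refine even_inv (G := G) _ ((filter_subset _ _).trans (filter_subset _ _)) ?_
    intro d hd
    rw [mem_filter, hS, mem_filter] at hd ⊢
    obtain ⟨⟨h5, h6, h7⟩, h8⟩ := hd
    refine ⟨⟨G.al_mem d h5, h8, fun h9 => h7 ?_⟩, ?_⟩
    · have h10 := hF.Fal _ h9
      rwa [G.al_al d h5] at h10
    · rw [G.al_al d h5]
      exact h6
  rw [h2, card_union_of_disjoint h3] at h1
  obtain ⟨k, hk⟩ := h4
  omega

theorem Two.sub1 (h : G.Two F C P1 P2) {d : D} (hd : d ∈ P1) : d ∈ F ∧ G.pi d ∈ C := by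
  have h1 : d ∈ P1 ∪ P2 := mem_union_left _ hd
  rw [h.un] at h1
  exact mem_filter.1 h1

theorem Two.sub2 (h : G.Two F C P1 P2) {d : D} (hd : d ∈ P2) : d ∈ F ∧ G.pi d ∈ C := by
  have h1 : d ∈ P1 ∪ P2 := mem_union_right _ hd
  rw [h.un] at h1
  exact mem_filter.1 h1

theorem Two.sz1 (h : G.Two F C P1 P2) {d : D} (hd : d ∈ P1) : sz z P1 P2 d = z d + 1 := by
  unfold sz
  rw [if_pos hd, if_neg (disjoint_left.1 h.dis hd)]
  ring

theorem Two.sz2 (h : G.Two F C P1 P2) {d : D} (hd : d ∈ P2) : sz z P1 P2 d = z d - 1 := by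
  unfold sz
  rw [if_pos hd, if_neg (disjoint_right.1 h.dis hd)]
  ring

theorem sz0 {d : D} (h1 : d ∉ P1) (h2 : d ∉ P2) : sz z P1 P2 d = z d := by
  unfold sz
  rw [if_neg h1, if_neg h2]
  ring

theorem Two.sz_out (h : G.Two F C P1 P2) {d : D} (hd : G.pi d ∉ C) : sz z P1 P2 d = z d :=
  sz0 (fun h1 => hd (h.sub1 h1).2) (fun h1 => hd (h.sub2 h1).2)

theorem Two.sz_not (h : G.Two F C P1 P2) {d : D} (hd : d ∉ F) : sz z P1 P2 d = z d :=
  sz0 (fun h1 => hd (h.sub1 h1).1) (fun h1 => hd (h.sub2 h1).1)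

/-- the shifted weights keep all vertex sums -/
theorem Two.wt (h : G.Two F C P1 P2) (hF : G.FrS z fr F jm) (hw : G.Wt z t) (hC : C ⊆ fr)
    (hcut : ∀ W ⊆ G.vs, Odd W.card → 3 ≤ G.val (sz z P1 P2) t W) :
    G.Wt (sz z P1 P2) t where
  z0 := by
    intro d hd
    by_cases h1 : d ∈ P1
    · rw [h.sz1 h1]
      have := hw.z0 d hd
      linarith
    · by_cases h2 : d ∈ P2
      · rw [h.sz2 h2, hF.unit d hd (hC (h.sub2 h2).2)]
        norm_num
      · rw [sz0 h1 h2]
        exact hw.z0 d hd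
  t0 := hw.t0
  sym := by
    intro d hd
    have e1 : G.al d ∈ P1 ↔ d ∈ P1 := by
      constructor
      · intro h1
        have := h.al1 _ h1
        rwa [G.al_al d hd] at this
      · exact h.al1 d
    have e2 : G.al d ∈ P2 ↔ d ∈ P2 := by
      constructor
      · intro h1
        have := h.al2 _ h1
        rwa [G.al_al d hd] at this
      · exact h.al2 d
    unfold sz
    rw [hw.sym d hd]
    simp only [e1, e2]
  deg := by
    intro v hv
    have h1 : ∑ d ∈ G.st v, sz z P1 P2 d = ∑ d ∈ G.st v, z d +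
        (((G.st v).filter fun d => d ∈ P1).card : ℝ) -
        (((G.st v).filter fun d => d ∈ P2).card : ℝ) := by
      unfold sz
      rw [sum_sub_distrib, sum_add_distrib, sum_boole, sum_boole]
    have hsub1 : (G.st v).filter (fun d => d ∈ P1) = P1.filter fun d => G.pi d = v := by
      ext d
      rw [mem_filter, mem_filter, mem_st]
      constructor
      · rintro ⟨⟨-, h2⟩, h3⟩
        exact ⟨h3, h2⟩
      · rintro ⟨h2, h3⟩
        exact ⟨⟨hF.Fsub (h.sub1 h2).1, h3⟩, h2⟩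
    have hsub2 : (G.st v).filter (fun d => d ∈ P2) = P2.filter fun d => G.pi d = v := by
      ext d
      rw [mem_filter, mem_filter, mem_st]
      constructor
      · rintro ⟨⟨-, h2⟩, h3⟩
        exact ⟨h3, h2⟩
      · rintro ⟨h2, h3⟩
        exact ⟨⟨hF.Fsub (h.sub2 h2).1, h3⟩, h2⟩
    rw [h1, hsub1, hsub2]
    have h2 := hw.deg v hv
    by_cases hvC : v ∈ C
    · rw [h.one1 v hvC, h.one2 v hvC]
      push_cast
      linarith
    · have e1 : (P1.filter fun d => G.pi d = v) = ∅ := by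
        rw [eq_empty_iff_forall_notMem]
        intro d hd
        obtain ⟨h3, h4⟩ := mem_filter.1 hd
        exact hvC (h4 ▸ (h.sub1 h3).2)
      have e2 : (P2.filter fun d => G.pi d = v) = ∅ := by
        rw [eq_empty_iff_forall_notMem]
        intro d hd
        obtain ⟨h3, h4⟩ := mem_filter.1 hd
        exact hvC (h4 ▸ (h.sub2 h3).2)
      rw [e1, e2, card_empty]
      push_cast
      linarith
  cut := hcut

/-- the value of a union of classes and pairs of the circuit -/
theorem Two.val (h : G.Two F C P1 P2) (hF : G.FrS z fr F ∅) (hw : G.Wt z t) (hC : C ⊆ fr)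
    {X S : Finset V} (hX : G.Adm fr F X) (hS : S ⊆ C)
    (hcl : ∀ d ∈ P1, G.pi d ∈ S → G.pi (G.al d) ∈ S) :
    G.val (sz z P1 P2) t (X ∪ S) = ((G.bd (X ∪ S)).filter fun d => d ∉ F).card := by
  have hY : X ∪ S ⊆ fr := union_subset hX.sub (hS.trans hC)
  unfold MG.val
  rw [sum_eq_zero (s := X ∪ S) fun v hv => hF.t_not_jm hw (hY hv) (notMem_empty v), add_zero]
  rw [← sum_filter_add_sum_filter_not (G.bd (X ∪ S)) (fun d => d ∉ F)]
  have h1 : ∑ d ∈ (G.bd (X ∪ S)).filter (fun d => d ∉ F), sz z P1 P2 d =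
      ((G.bd (X ∪ S)).filter fun d => d ∉ F).card := by
    rw [sum_congr rfl (g := fun _ => (1 : ℝ)), sum_const, nsmul_eq_mul, mul_one]
    intro d hd
    obtain ⟨h2, h3⟩ := mem_filter.1 hd
    obtain ⟨h4, h5, -⟩ := mem_bd.1 h2
    rw [h.sz_not h3]
    exact hF.unit d h4 (hY h5)
  have h2 : ∑ d ∈ (G.bd (X ∪ S)).filter (fun d => ¬ d ∉ F), sz z P1 P2 d = 0 := by
    refine sum_eq_zero fun d hd => ?_
    obtain ⟨h2, h3⟩ := mem_filter.1 hd
    rw [not_not] at h3
    obtain ⟨h4, h5, h6⟩ := mem_bd.1 h2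
    rcases mem_union.1 h5 with h7 | h7
    · exact absurd (mem_union_left _ (hX.clo d h3 h7)) h6
    · have h8 : d ∈ P1 ∪ P2 := by
        rw [h.un]
        exact mem_filter.2 ⟨h3, hS h7⟩
      rcases mem_union.1 h8 with h9 | h9
      · exact absurd (mem_union_right _ (hcl d h9 h7)) h6
      · rw [h.sz2 h9, hF.unit d h4 (hY h5)]
        norm_num
  rw [h1, h2, add_zero]

/-- SUPPRESSION of an even class in a minimal counterexample: if the shifted weights keep all odd
sets at least 3, then there is an odd union `X` of other classes and a union `S` of `P1`-pairs such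
that exactly three J-edges leave `X ∪ S` -/
theorem MCS.supp (h : G.MCS z t fr F ∅ ∅ ep m) (hCa : G.Adm fr F C) (hCn : C.Nonempty)
    (hT : G.Two F C P1 P2) (hm : m = 0)
    (hcut : ∀ W ⊆ G.vs, Odd W.card → 3 ≤ G.val (sz z P1 P2) t W) :
    ∃ X S, G.Adm fr F X ∧ Disjoint X C ∧ S ⊆ C ∧
      (∀ d ∈ P1, G.pi d ∈ S → G.pi (G.al d) ∈ S) ∧ Odd (X ∪ S).card ∧
      ((G.bd (X ∪ S)).filter fun d => d ∉ F).card = 3 ∧
      G.val (sz z P1 P2) t (X ∪ S) = 3 := by
  subst hm
  have hF := h.inst.fresh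
  have hw := h.inst.wt
  have hw' := hT.wt hF hw hCa.sub hcut
  by_contra hcon
  push Not at hcon
  set fr1 := fr \ C with hfr1
  set F1 := F.filter fun d => G.pi d ∈ fr1 with hF1
  have hs : fr1 ⊆ fr := sdiff_subset
  have hcl : ∀ d ∈ F, G.pi d ∈ fr1 → G.pi (G.al d) ∈ fr1 := by
    intro d hd hp
    have h1 := hF.adm_compl hCa
    exact h1.clo d hd hp
  have hI1 := h.inst.absorb hs hcl (jm1 := ∅) (sx1 := ∅)
    (Or.inr ⟨disjoint_empty_left _, rfl, rfl⟩)
  have hfresh : G.FrS (sz z P1 P2) fr1 F1 ∅ :=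
    { hI1.fresh with
      unit := fun d hd hp => by
        rw [hT.sz_out (mem_sdiff.1 hp).2]
        exact hF.unit d hd (hs hp) }
  have hA : ∀ X, G.Adm fr1 F1 X → G.Adm fr F X := by
    intro X hX
    exact ⟨hX.sub.trans hs, fun d hd hp => hX.clo d (mem_filter.2 ⟨hd, hX.sub hp⟩) hp⟩
  have hR : G.InstR (sz z P1 P2) t fr1 F1 C P1 := by
    refine ⟨h.inst.even, hw', h.inst.tau, hfresh, hCa.sub.trans hF.fsub, disjoint_sdiff,
      fun v hv => hF.t_not_jm hw (hCa.sub hv) (notMem_empty v),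
      fun d hd => hF.Fsub (hT.sub1 hd).1, hT.al1, fun d hd => (hT.sub1 hd).2, ?_, ?_, ?_, ?_⟩
    · intro v hv
      obtain ⟨d, hd⟩ := card_eq_one.1 (hT.one1 v hv)
      have h1 : d ∈ P1.filter fun d => G.pi d = v := by
        rw [hd]
        exact mem_singleton_self d
      exact ⟨d, (mem_filter.1 h1).1, (mem_filter.1 h1).2⟩
    · intro d hd
      rw [hT.sz1 hd, hF.unit d (hF.Fsub (hT.sub1 hd).1) (hCa.sub (hT.sub1 hd).2)]
      norm_num
    · intro v hv
      obtain ⟨j, h1, h2, h3, -⟩ := hF.exists_jd (hCa.sub hv) (notMem_empty v)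
      refine ⟨j, h1, h2, ?_⟩
      rw [hT.sz_not h3]
      exact hF.unit j h1 (by rw [h2]; exact hCa.sub hv)
    · intro X S hX hS hclS ho
      have hX1 := hA X hX
      have hdX : Disjoint X C := disjoint_left.2 fun v hv hvC => (mem_sdiff.1 (hX.sub hv)).2 hvC
      have hY : X ∪ S ⊆ fr := union_subset hX1.sub (hS.trans hCa.sub)
      have h1 := hT.val hF hw hCa.sub hX1 hS hclS
      have h2 := hcut (X ∪ S) (hY.trans hF.fsub) ho
      have h3 := hF.jpar hY
      rw [h1] at h2 ⊢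
      by_contra h4
      push Not at h4
      have h5 : 3 ≤ ((G.bd (X ∪ S)).filter fun d => d ∉ F).card := by exact_mod_cast h2
      have h6 : ((G.bd (X ∪ S)).filter fun d => d ∉ F).card < 5 := by exact_mod_cast h4
      obtain ⟨k, hk⟩ := ho
      have h7 : ((G.bd (X ∪ S)).filter fun d => d ∉ F).card = 3 := by omega
      refine hcon X S hX1 hdX hS hclS ⟨k, hk⟩ h7 ?_
      rw [h1, h7]
      norm_num
  have hlt : fr1.card < fr.card := by
    refine card_lt_card (Finset.ssubset_iff_subset_ne.2 ⟨hs, fun he => ?_⟩)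
    obtain ⟨v, hv⟩ := hCn
    have h1 : v ∈ fr1 := by
      rw [he]
      exact hCa.sub hv
    exact (mem_sdiff.1 h1).2 hv
  obtain ⟨N, hN⟩ := InstR.solve hlt
    (fun G' h1 h2 => h.ih G' (sz z P1 P2) t fr1 F1 ∅ ∅ (fun _ => 0) (Or.inl h1) h2)
    _ G C P1 rfl hR
  refine h.bad ⟨N, hN.pm, ?_, ?_⟩
  · intro d hd
    have h1 := hN.pos d hd
    have h2 := hN.pm.sub hd
    by_cases h3 : d ∈ P1
    · rw [hF.unit d h2 (hCa.sub (hT.sub1 h3).2)]
      exact one_pos
    · by_cases h4 : d ∈ P2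
      · rw [hF.unit d h2 (hCa.sub (hT.sub2 h4).2)]
        exact one_pos
      · rwa [sz0 h3 h4] at h1
  · intro X hX hor
    have ho : Odd X.card := by
      rcases hor with h1 | ⟨h1, -⟩
      · exact h1
      · exact absurd h1 not_nonempty_empty
    have hXX : X \ C ∪ X ∩ C = X := sdiff_union_inter X C
    have hX1 : G.Adm fr1 F1 (X \ C) := by
      refine ⟨sdiff_subset_sdiff hX.sub (Subset.refl _), ?_⟩
      intro d hd hp
      have h1 := (mem_filter.1 hd).1
      exact mem_sdiff.2 ⟨hX.clo d h1 (mem_sdiff.1 hp).1, (mem_sdiff.1 (hcl d h1 (mem_filter.1 hd).2)).2⟩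
    have hclS : ∀ d ∈ P1, G.pi d ∈ X ∩ C → G.pi (G.al d) ∈ X ∩ C := by
      intro d hd hp
      have h1 := (hT.sub1 hd).1
      exact mem_inter.2 ⟨hX.clo d h1 (mem_inter.1 hp).1, hCa.clo d h1 (mem_inter.1 hp).2⟩
    obtain ⟨d, h1, -, h2⟩ := hN.hit (X \ C) (X ∩ C) hX1 inter_subset_right hclS
      (by rw [hXX]; exact ho)
    rw [hXX] at h1
    exact ⟨d, h1, h2⟩

end MG

end RH
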