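import Pool.Agent.Lib.RH.GAPush
import Pool.Agent.Lib.RH.SuppM
import Pool.Agent.Lib.RH.SCap0

/-! Lemma A of helper93 (c4_93.md), part 1: the point `zb` (kill the leg `j`, shift the even circuit),
its values and its tight sets. Star-free, 4 tokens, no nontrivial tight set. -/

set_option autoImplicit false

namespace RH

open Finset Classical

namespace MG

variable {V D : Type*}

/-- darts of `P` leaving `W` -/
noncomputable def bc (G : MG V D) (P : Finset D) (W : Finset V) : ℕ :=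
  ((G.bd W).filter fun d => d ∈ P).card

/-- hypotheses of Lemma A -/
structure LA (G : MG V D) (z : D → ℝ) (t : V → ℝ) (fr : Finset V) (F : Finset D) (ep : V → ℕ)
    (m : ℕ) (C : Finset V) (P1 P2 : Finset D) (j : D) : Prop where
  mc : G.MCS z t fr F ∅ ∅ ep m
  tau : ∑ v ∈ G.vs, t v = 4
  odd : ∀ X ⊆ G.vs, Odd X.card → ∃ k : ℕ, G.val z t X = 2 * k + 1
  nt : ∀ X ⊆ G.vs, Odd X.card → G.val z t X = 3 → 3 ≤ X.card → 3 ≤ (G.vs \ X).card →
    (G.pi j ∈ X ∧ G.pi (G.al j) ∈ X) ∨ ∃ x p q, G.Dig z t fr X x p q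
  circ : G.Circ fr F C
  two : G.Two F C P1 P2
  jd : j ∈ G.ds
  jx : G.pi j ∈ C
  jw : G.pi (G.al j) ∉ fr
  tw : t (G.pi (G.al j)) ≤ 1

variable {G : MG V D} {z : D → ℝ} {t : V → ℝ} {fr : Finset V} {F : Finset D}
variable {ep : V → ℕ} {m : ℕ} {C : Finset V} {P1 P2 : Finset D} {j : D}

private theorem even_inv (S : Finset D) (hS : S ⊆ G.ds) (hcl : ∀ d ∈ S, G.al d ∈ S) :
    Even S.card := by
  have h1 : ∑ _d ∈ S, (1 : ZMod 2) = 0 := by
    refine sum_involution (fun d _ => G.al d) ?_ ?_ ?_ ?_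
    · intro d _
      decide
    · intro d hd _ he
      exact G.noloop d (hS hd) (by rw [he])
    · intro d hd
      exact hcl d hd
    · intro d hd
      exact G.al_al d (hS hd)
  rw [sum_const, nsmul_eq_mul, mul_one] at h1
  rwa [ZMod.natCast_eq_zero_iff_even] at h1

/-- parity of the number of darts of a closed set `P` leaving `W` -/
theorem bc_par (P : Finset D) (hP : P ⊆ G.ds) (hal : ∀ d ∈ P, G.al d ∈ P) (W : Finset V) :
    bc G P W % 2 = (P.filter fun d => G.pi d ∈ W).card % 2 := by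
  have h1 : (P.filter fun d => G.pi d ∈ W) = ((G.bd W).filter fun d => d ∈ P) ∪
      (P.filter fun d => G.pi d ∈ W ∧ G.pi (G.al d) ∈ W) := by
    ext d
    rw [mem_union, mem_filter, mem_filter, mem_filter, mem_bd]
    constructor
    · rintro ⟨h1, h2⟩
      by_cases h3 : G.pi (G.al d) ∈ W
      · exact Or.inr ⟨h1, h2, h3⟩
      · exact Or.inl ⟨⟨hP h1, h2, h3⟩, h1⟩
    · rintro (⟨⟨-, h1, -⟩, h2⟩ | ⟨h1, h2, -⟩)
      · exact ⟨h2, h1⟩
      · exact ⟨h1, h2⟩
  have h2 : Disjoint ((G.bd W).filter fun d => d ∈ P)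
      (P.filter fun d => G.pi d ∈ W ∧ G.pi (G.al d) ∈ W) := by
    rw [disjoint_left]
    intro d h3 h4
    exact (mem_bd.1 (mem_filter.1 h3).1).2.2 (mem_filter.1 h4).2.2
  have h3 : Even (P.filter fun d => G.pi d ∈ W ∧ G.pi (G.al d) ∈ W).card := by
    refine even_inv (G := G) _ ((filter_subset _ _).trans hP) ?_
    intro d hd
    obtain ⟨h4, h5, h6⟩ := mem_filter.1 hd
    refine mem_filter.2 ⟨hal d h4, h6, ?_⟩
    rw [G.al_al d (hP h4)]
    exact h5
  rw [h1, card_union_of_disjoint h2]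
  unfold bc
  obtain ⟨k, hk⟩ := h3
  omega

/-- a perfect matching of the circuit leaves `W` with the parity of `W ∩ C` -/
theorem Two.par (h : G.Two F C P1 P2) (hF : F ⊆ G.ds) (W : Finset V) :
    bc G P1 W % 2 = (W ∩ C).card % 2 := by
  rw [bc_par P1 (fun d hd => hF (h.sub1 hd).1) h.al1 W]
  have h1 : (P1.filter fun d => G.pi d ∈ W).card = (W ∩ C).card := by
    rw [card_eq_sum_card_fiberwise (f := G.pi) (s := P1.filter fun d => G.pi d ∈ W) (t := W ∩ C)
      (fun d hd => by
        obtain ⟨h2, h3⟩ := mem_filter.1 (mem_coe.1 hd)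
        exact mem_coe.2 (mem_inter.2 ⟨h3, (h.sub1 h2).2⟩))]
    rw [card_eq_sum_ones (W ∩ C)]
    refine sum_congr rfl fun v hv => ?_
    rw [← h.one1 v (mem_inter.1 hv).2, filter_filter]
    congr 1
    ext d
    rw [mem_filter, mem_filter]
    constructor
    · rintro ⟨h2, -, h3⟩
      exact ⟨h2, h3⟩
    · rintro ⟨h2, h3⟩
      exact ⟨h2, h3 ▸ (mem_inter.1 hv).1, h3⟩
  rw [h1]

/-- both matchings leave `W` with the same parity -/
theorem Two.par2 (h : G.Two F C P1 P2) (hF : F ⊆ G.ds) (W : Finset V) :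
    bc G P1 W % 2 = bc G P2 W % 2 := by
  rw [h.par hF W, h.symm.par hF W]

/-- the other circuits cross `W` an even number of times -/
theorem par_other (hF : G.FrS z fr F ∅) (hC : G.Adm fr F C) (W : Finset V) :
    Even (bc G (F.filter fun d => G.pi d ∉ C) W) := by
  have hcl : ∀ d ∈ F, G.pi d ∉ C → G.pi (G.al d) ∉ C := by
    intro d hd h1 h2
    have h3 := hC.clo _ (hF.Fal d hd) h2
    rw [G.al_al d (hF.Fsub hd)] at h3
    exact h1 h3
  rw [Nat.even_iff, bc_par (F.filter fun d => G.pi d ∉ C)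
    (fun d hd => hF.Fsub (mem_filter.1 hd).1)
    (fun d hd => mem_filter.2 ⟨hF.Fal d (mem_filter.1 hd).1,
      hcl d (mem_filter.1 hd).1 (mem_filter.1 hd).2⟩) W]
  have h1 : ((F.filter fun d => G.pi d ∉ C).filter fun d => G.pi d ∈ W).card =
      2 * ((W ∩ fr) \ C).card := by
    rw [card_eq_sum_card_fiberwise (f := G.pi)
      (s := (F.filter fun d => G.pi d ∉ C).filter fun d => G.pi d ∈ W) (t := (W ∩ fr) \ C)
      (fun d hd => by
        obtain ⟨h2, h3⟩ := mem_filter.1 (mem_coe.1 hd)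
        obtain ⟨h4, h5⟩ := mem_filter.1 h2
        exact mem_coe.2 (mem_sdiff.2 ⟨mem_inter.2 ⟨h3, hF.Ffr d h4⟩, h5⟩))]
    rw [sum_congr rfl (g := fun _ => 2), sum_const, smul_eq_mul, mul_comm]
    intro v hv
    obtain ⟨h2, h3⟩ := mem_sdiff.1 hv
    rw [← hF.two v (mem_inter.1 h2).2]
    congr 1
    ext d
    rw [mem_filter, mem_filter, mem_filter, mem_filter]
    constructor
    · rintro ⟨⟨⟨h4, -⟩, -⟩, h5⟩
      exact ⟨h4, h5⟩
    · rintro ⟨h4, h5⟩
      exact ⟨⟨⟨h4, by rw [h5]; exact h3⟩, by rw [h5]; exact (mem_inter.1 h2).1⟩, h5⟩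
  rw [h1]
  omega

/-- the value without the circuit is at least the number of other darts which are cut -/
theorem cval_ge (hF : G.FrS z fr F ∅) (hw : G.Wt z t) (h : G.Two F C P1 P2) {W : Finset V} (hW : W ⊆ G.vs) :
    (bc G P1 W : ℝ) + bc G P2 W + bc G (F.filter fun d => G.pi d ∉ C) W ≤ G.val z t W := by
  have hd1 : Disjoint ((G.bd W).filter fun d => d ∈ P1) ((G.bd W).filter fun d => d ∈ P2) := by
    rw [disjoint_left]
    intro d h1 h2
    exact disjoint_left.1 h.dis (mem_filter.1 h1).2 (mem_filter.1 h2).2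
  have hd2 : Disjoint (((G.bd W).filter fun d => d ∈ P1) ∪ ((G.bd W).filter fun d => d ∈ P2))
      ((G.bd W).filter fun d => d ∈ F.filter fun d => G.pi d ∉ C) := by
    rw [disjoint_left]
    intro d h1 h2
    have h3 := (mem_filter.1 (mem_filter.1 h2).2).2
    rcases mem_union.1 h1 with h4 | h4
    · exact h3 (h.sub1 (mem_filter.1 h4).2).2
    · exact h3 (h.sub2 (mem_filter.1 h4).2).2
  have h1 : ∑ d ∈ (((G.bd W).filter fun d => d ∈ P1) ∪ ((G.bd W).filter fun d => d ∈ P2)) ∪
      ((G.bd W).filter fun d => d ∈ F.filter fun d => G.pi d ∉ C), z d ≤ ∑ d ∈ G.bd W, z d := by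
    refine sum_le_sum_of_subset_of_nonneg ?_ (fun d hd _ => hw.z0 d (mem_bd.1 hd).1)
    exact union_subset (union_subset (filter_subset _ _) (filter_subset _ _)) (filter_subset _ _)
  have h2 : ∀ d ∈ (((G.bd W).filter fun d => d ∈ P1) ∪ ((G.bd W).filter fun d => d ∈ P2)) ∪
      ((G.bd W).filter fun d => d ∈ F.filter fun d => G.pi d ∉ C), z d = 1 := by
    intro d hd
    have h3 : d ∈ F := by
      rcases mem_union.1 hd with h4 | h4
      · rcases mem_union.1 h4 with h5 | h5
        · exact (h.sub1 (mem_filter.1 h5).2).1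
        · exact (h.sub2 (mem_filter.1 h5).2).1
      · exact (mem_filter.1 (mem_filter.1 h4).2).1
    exact hF.unit d (hF.Fsub h3) (hF.Ffr d h3)
  rw [sum_congr rfl h2, sum_const, nsmul_eq_mul, mul_one, card_union_of_disjoint hd2,
    card_union_of_disjoint hd1] at h1
  have h3 : 0 ≤ ∑ v ∈ W, t v := sum_nonneg fun v hv => hw.t0 v (hW hv)
  unfold MG.val bc
  push_cast at h1
  linarith

/-- shift direction: `+1` on `P1`, `-1` on `P2` -/
noncomputable def dl (P1 P2 : Finset D) (d : D) : ℝ :=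
  (if d ∈ P1 then 1 else 0) - (if d ∈ P2 then 1 else 0)

theorem Two.dl_sym (h : G.Two F C P1 P2) {d : D} (hd : d ∈ G.ds) :
    dl P1 P2 (G.al d) = dl P1 P2 d := by
  have e1 : G.al d ∈ P1 ↔ d ∈ P1 := by
    constructor
    · intro h1
      have := h.al1 _ h1
      rwa [G.al_al d hd] at this
    · exact h.al1 d
  have e2 : G.al d ∈ P2 ↔ d ∈ P2 := by
    constructor
    · intro h1
      have := h.al2 _ h1
      rwa [G.al_al d hd] at this
    · exact h.al2 d
  unfold dl
  simp only [e1, e2]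

/-- sum of the shift direction over the boundary -/
theorem sum_dl (W : Finset V) :
    ∑ d ∈ G.bd W, dl P1 P2 d = (bc G P1 W : ℝ) - bc G P2 W := by
  unfold dl bc
  rw [sum_sub_distrib, sum_boole, sum_boole]

/-- vertex sums of the shift direction -/
theorem Two.dl_deg (h : G.Two F C P1 P2) (hF : F ⊆ G.ds) (v : V) :
    ∑ d ∈ G.st v, dl P1 P2 d = 0 := by
  unfold dl
  rw [sum_sub_distrib, sum_boole, sum_boole]
  have hsub1 : (G.st v).filter (fun d => d ∈ P1) = P1.filter fun d => G.pi d = v := by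
    ext d
    rw [mem_filter, mem_filter, mem_st]
    constructor
    · rintro ⟨⟨-, h2⟩, h3⟩
      exact ⟨h3, h2⟩
    · rintro ⟨h2, h3⟩
      exact ⟨⟨hF (h.sub1 h2).1, h3⟩, h2⟩
  have hsub2 : (G.st v).filter (fun d => d ∈ P2) = P2.filter fun d => G.pi d = v := by
    ext d
    rw [mem_filter, mem_filter, mem_st]
    constructor
    · rintro ⟨⟨-, h2⟩, h3⟩
      exact ⟨h3, h2⟩
    · rintro ⟨h2, h3⟩
      exact ⟨⟨hF (h.sub2 h2).1, h3⟩, h2⟩
  rw [hsub1, hsub2]
  by_cases hvC : v ∈ C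
  · rw [h.one1 v hvC, h.one2 v hvC]
    ring
  · have e1 : (P1.filter fun d => G.pi d = v) = ∅ := by
      rw [eq_empty_iff_forall_notMem]
      intro d hd
      obtain ⟨h3, h4⟩ := mem_filter.1 hd
      exact hvC (h4 ▸ (h.sub1 h3).2)
    have e2 : (P2.filter fun d => G.pi d = v) = ∅ := by
      rw [eq_empty_iff_forall_notMem]
      intro d hd
      obtain ⟨h3, h4⟩ := mem_filter.1 hd
      exact hvC (h4 ▸ (h.sub2 h3).2)
    rw [e1, e2, card_empty]
    norm_num

/-- the killed edge -/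
noncomputable def je (G : MG V D) (j : D) : Finset D := {j, G.al j}

/-- weights of the point -/
noncomputable def zA (G : MG V D) (z : D → ℝ) (P1 P2 : Finset D) (j : D) (l : ℝ) (d : D) : ℝ :=
  kz z (G.je j) d + l * dl P1 P2 d

/-- tokens of the point -/
noncomputable def tA (G : MG V D) (z : D → ℝ) (t : V → ℝ) (j : D) : V → ℝ := kt G z t (G.je j)

theorem je_sub (hj : j ∈ G.ds) : G.je j ⊆ G.ds := by
  intro d hd
  unfold je at hd
  rw [mem_insert, mem_singleton] at hd
  rcases hd with rfl | rfl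
  · exact hj
  · exact G.al_mem _ hj

theorem je_al (hj : j ∈ G.ds) : ∀ d ∈ G.je j, G.al d ∈ G.je j := by
  intro d hd
  unfold je at hd ⊢
  rw [mem_insert, mem_singleton] at hd ⊢
  rcases hd with rfl | rfl
  · exact Or.inr rfl
  · exact Or.inl (G.al_al _ hj)

theorem LA.zj (h : G.LA z t fr F ep m C P1 P2 j) : z j = 1 :=
  h.mc.inst.fresh.unit j h.jd (h.circ.adm.sub h.jx)

theorem LA.jnF (h : G.LA z t fr F ep m C P1 P2 j) : j ∉ F := fun h1 =>
  h.jw (h.mc.inst.fresh.Ffr _ (h.mc.inst.fresh.Fal _ h1))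

theorem LA.ajnF (h : G.LA z t fr F ep m C P1 P2 j) : G.al j ∉ F := fun h1 =>
  h.jw (h.mc.inst.fresh.Ffr _ h1)

theorem LA.wne (h : G.LA z t fr F ep m C P1 P2 j) : G.pi j ≠ G.pi (G.al j) := fun h1 =>
  h.jw (h1 ▸ h.circ.adm.sub h.jx)

/-- tokens at the ends of the leg and elsewhere -/
theorem LA.tA_eq (h : G.LA z t fr F ep m C P1 P2 j) (v : V) :
    G.tA z t j v = t v + (if v = G.pi j ∨ v = G.pi (G.al j) then 1 else 0) := by
  have hz := h.zj
  have hz' : z (G.al j) = 1 := by rw [h.mc.inst.wt.sym j h.jd, hz]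
  have hne := h.wne
  have hjj : j ≠ G.al j := fun h1 => G.noloop j h.jd (by rw [← h1])
  unfold tA kt je
  congr 1
  rw [filter_insert, filter_singleton]
  by_cases h1 : G.pi j = v
  · have h2 : G.pi (G.al j) ≠ v := fun h2 => hne (h1.trans h2.symm)
    rw [if_pos h1, if_neg h2, if_pos (Or.inl h1.symm), insert_empty_eq, sum_singleton, hz]
  · rw [if_neg h1]
    by_cases h2 : G.pi (G.al j) = v
    · rw [if_pos h2, if_pos (Or.inr h2.symm), sum_singleton, hz']
    · rw [if_neg h2, if_neg (fun h3 => h3.elim (fun h4 => h1 h4.symm) fun h4 => h2 h4.symm),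
        sum_empty]

/-- the value of a set at the point -/
theorem LA.val (h : G.LA z t fr F ep m C P1 P2 j) (l : ℝ) {W : Finset V} (hW : W ⊆ G.vs) :
    G.val (G.zA z P1 P2 j l) (G.tA z t j) W = G.val z t W +
      (if G.pi j ∈ W ∧ G.pi (G.al j) ∈ W then 2 else 0) +
      l * ((bc G P1 W : ℝ) - bc G P2 W) := by
  have hw := h.mc.inst.wt
  have h1 := val_add G (kz z (G.je j)) (dl P1 P2) (kt G z t (G.je j)) (fun _ => 0) l W
  have h2 := kill_val hw (je_sub h.jd) (je_al h.jd) hW
  have h3 : G.val (dl P1 P2) (fun _ => 0) W = (bc G P1 W : ℝ) - bc G P2 W := by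
    unfold MG.val
    rw [sum_dl, sum_const_zero, add_zero]
  have hz := h.zj
  have hz' : z (G.al j) = 1 := by rw [hw.sym j h.jd, hz]
  have hjj : j ≠ G.al j := fun h1 => G.noloop j h.jd (by rw [← h1])
  have h4 : ∑ d ∈ (G.ed W W).filter (fun d => d ∈ G.je j), z d =
      if G.pi j ∈ W ∧ G.pi (G.al j) ∈ W then 2 else 0 := by
    split_ifs with h5
    · have h6 : (G.ed W W).filter (fun d => d ∈ G.je j) = {j, G.al j} := by
        ext d
        rw [mem_filter, mem_ed]
        unfold je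
        constructor
        · exact fun h6 => h6.2
        · intro h6
          refine ⟨?_, h6⟩
          rw [mem_insert, mem_singleton] at h6
          rcases h6 with rfl | rfl
          · exact ⟨h.jd, h5.1, h5.2⟩
          · exact ⟨G.al_mem _ h.jd, h5.2, by rw [G.al_al _ h.jd]; exact h5.1⟩
      rw [h6, sum_pair hjj, hz, hz']
      norm_num
    · have h6 : (G.ed W W).filter (fun d => d ∈ G.je j) = ∅ := by
        rw [eq_empty_iff_forall_notMem]
        intro d h6
        obtain ⟨h7, h8⟩ := mem_filter.1 h6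
        obtain ⟨-, h9, h10⟩ := mem_ed.1 h7
        unfold je at h8
        rw [mem_insert, mem_singleton] at h8
        rcases h8 with rfl | rfl
        · exact h5 ⟨h9, h10⟩
        · rw [G.al_al _ h.jd] at h10
          exact h5 ⟨h10, h9⟩
      rw [h6, sum_empty]
  rw [h4] at h2
  rw [h2, h3] at h1
  have h5 : (fun v => kt G z t (G.je j) v + l * (fun _ => (0 : ℝ)) v) = kt G z t (G.je j) := by
    funext v
    simp
  rw [h5] at h1
  exact h1

theorem LA.tau_b (h : G.LA z t fr F ep m C P1 P2 j) : ∑ v ∈ G.vs, G.tA z t j v = 6 := by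
  have h1 := kill_tau h.mc.inst.wt (je_sub h.jd) (je_al h.jd)
  have hz := h.zj
  have hz' : z (G.al j) = 1 := by rw [h.mc.inst.wt.sym j h.jd, hz]
  have hjj : j ≠ G.al j := fun h1 => G.noloop j h.jd (by rw [← h1])
  unfold tA
  rw [h1, h.tau]
  unfold je
  rw [sum_pair hjj, hz, hz']
  norm_num

/-- the value without the circuit -/
noncomputable def cvv (G : MG V D) (z : D → ℝ) (t : V → ℝ) (P1 P2 : Finset D) (W : Finset V) : ℝ :=
  G.val z t W - bc G P1 W - bc G P2 W

/-- it is 1 or at least 3 -/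
theorem LA.cv_or (h : G.LA z t fr F ep m C P1 P2 j) {W : Finset V} (hW : W ⊆ G.vs)
    (ho : Odd W.card) : G.cvv z t P1 P2 W = 1 ∨ 3 ≤ G.cvv z t P1 P2 W := by
  have hF := h.mc.inst.fresh
  obtain ⟨k, hk⟩ := h.odd W hW ho
  have h1 := h.two.par2 hF.Fsub W
  have h2 := cval_ge hF h.mc.inst.wt h.two hW
  have h3 : (0 : ℝ) ≤ bc G (F.filter fun d => G.pi d ∉ C) W := Nat.cast_nonneg _
  have h4 : (bc G P1 W : ℝ) + bc G P2 W ≤ 2 * k + 1 := by linarith
  have h5 : bc G P1 W + bc G P2 W ≤ 2 * k + 1 := by exact_mod_cast h4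
  unfold cvv
  rw [hk]
  have h6 : bc G P1 W + bc G P2 W = 2 * k ∨ bc G P1 W + bc G P2 W + 2 ≤ 2 * k := by omega
  rcases h6 with h6 | h6
  · left
    have h7 : (bc G P1 W : ℝ) + bc G P2 W = 2 * k := by exact_mod_cast h6
    linarith
  · right
    have h7 : (bc G P1 W : ℝ) + bc G P2 W + 2 ≤ 2 * k := by exact_mod_cast h6
    linarith

theorem LA.tx (h : G.LA z t fr F ep m C P1 P2 j) {v : V} (hv : v ∈ fr) : t v = 0 :=
  h.mc.inst.fresh.t_not_jm h.mc.inst.wt hv (notMem_empty v)

/-- sets of value 3 are vertices or contain both ends of the leg or are harmless -/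
theorem LA.triv (h : G.LA z t fr F ep m C P1 P2 j) {W : Finset V} (hW : W ⊆ G.vs)
    (ho : Odd W.card) (h3 : G.val z t W = 3) :
    (∃ v ∈ G.vs, W = {v}) ∨ (G.pi j ∈ W ∧ G.pi (G.al j) ∈ W) ∨
      ∃ x p q, G.Dig z t fr W x p q := by
  have h1 := h.nt W hW ho h3
  have h2 : (G.vs \ W).card + W.card = G.vs.card := card_sdiff_add_card_eq_card hW
  obtain ⟨k, hk⟩ := h.mc.inst.even
  obtain ⟨l, hl⟩ := ho
  by_cases hc1 : 3 ≤ W.card
  · right
    by_cases hc3 : 3 ≤ (G.vs \ W).card
    · exact h1 hc1 hc3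
    have hc2 : (G.vs \ W).card = 1 := by omega
    obtain ⟨v, hv⟩ := card_eq_one.1 hc2
    have hv1 : v ∈ G.vs := by
      have : v ∈ G.vs \ W := by rw [hv]; exact mem_singleton_self v
      exact (mem_sdiff.1 this).1
    have h5 : W = G.vs \ {v} := by rw [← hv, Finset.sdiff_sdiff_eq_self hW]
    have htv : t v = 2 := by
      have h6 := h.mc.inst.wt.val_compl (singleton_subset_iff.2 hv1)
      rw [← h5, h3, h.mc.inst.wt.val_single hv1, h.tau, sum_singleton] at h6
      linarith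
    rw [h5]
    left
    constructor
    · refine mem_sdiff.2 ⟨G.pi_mem _ h.jd, fun h10 => ?_⟩
      rw [mem_singleton] at h10
      have h11 := h.tx (h.circ.adm.sub h.jx)
      rw [h10, htv] at h11
      norm_num at h11
    · refine mem_sdiff.2 ⟨G.pi_mem _ (G.al_mem _ h.jd), fun h10 => ?_⟩
      rw [mem_singleton] at h10
      have h11 := h.tw
      rw [h10, htv] at h11
      norm_num at h11
  · left
    have h4 : W.card = 1 := by omega
    obtain ⟨v, hv⟩ := card_eq_one.1 h4
    exact ⟨v, hW (by rw [hv]; exact mem_singleton_self v), hv⟩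

/-- the sets of Lemma A -/
structure TB (G : MG V D) (z : D → ℝ) (t : V → ℝ) (P1 P2 : Finset D) (j : D) (W : Finset V) :
    Prop where
  sub : W ⊆ G.vs
  odd : Odd W.card
  nb : ¬ (G.pi j ∈ W ∧ G.pi (G.al j) ∈ W)
  c1 : G.cvv z t P1 P2 W = 1
  b1 : G.bc P1 W = 0

/-- a harmless set is left by at most one dart of the circuit in `P2` -/
theorem LA.dig_bc (h : G.LA z t fr F ep m C P1 P2 j) {W : Finset V} {x p q : V}
    (hD : G.Dig z t fr W x p q) {W' : Finset V} (hW' : W' ⊆ W) : G.bc P2 W' ≤ 1 := by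
  unfold bc
  by_cases hx : x ∈ C
  · rw [← h.two.one2 x hx]
    refine card_le_card fun d hd => ?_
    obtain ⟨h1, h2⟩ := mem_filter.1 hd
    have h3 := hW' (mem_bd.1 h1).2.1
    have h4 := h.circ.adm.sub (h.two.sub2 h2).2
    rw [hD.W, mem_insert, mem_insert, mem_singleton] at h3
    rcases h3 with h3 | h3 | h3
    · exact mem_filter.2 ⟨h2, h3⟩
    · exact absurd (h3 ▸ h4) hD.pf
    · exact absurd (h3 ▸ h4) hD.qf
  · have h0 : (G.bd W').filter (fun d => d ∈ P2) = ∅ := by
      rw [filter_eq_empty_iff]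
      intro d h1 h2
      have h3 := hW' (mem_bd.1 h1).2.1
      have h4 := (h.two.sub2 h2).2
      have h5 := h.circ.adm.sub h4
      rw [hD.W, mem_insert, mem_insert, mem_singleton] at h3
      rcases h3 with h3 | h3 | h3
      · exact hx (h3 ▸ h4)
      · exact hD.pf (h3 ▸ h5)
      · exact hD.qf (h3 ▸ h5)
    rw [h0, card_empty]
    exact Nat.zero_le _

/-- such a set cuts at least 4 edges of `P2` -/
theorem LA.b4 (h : G.LA z t fr F ep m C P1 P2 j) {W : Finset V} (hW : G.TB z t P1 P2 j W) :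
    4 ≤ G.bc P2 W ∧ Even (G.bc P2 W) := by
  have hF := h.mc.inst.fresh
  have h1 := h.two.par2 hF.Fsub W
  have h2 := h.mc.inst.wt.cut W hW.sub hW.odd
  have h3 := hW.c1
  unfold cvv at h3
  rw [hW.b1] at h1 h3
  have h4 : Even (G.bc P2 W) := by
    rw [Nat.even_iff]
    omega
  refine ⟨?_, h4⟩
  have h5 : (2 : ℝ) ≤ G.bc P2 W := by
    push_cast at h3
    linarith
  have h6 : 2 ≤ G.bc P2 W := by exact_mod_cast h5
  by_contra h7
  have h8 : G.bc P2 W = 2 := by
    obtain ⟨k, hk⟩ := h4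
    omega
  rw [h8] at h3
  have h9 : G.val z t W = 3 := by
    push_cast at h3
    linarith
  rcases h.triv hW.sub hW.odd h9 with ⟨v, hv, rfl⟩ | h10 | ⟨x, p, q, hD⟩
  · by_cases hvC : v ∈ C
    · have h10 := h.two.par hF.Fsub {v}
      rw [hW.b1, inter_eq_left.2 (singleton_subset_iff.2 hvC), card_singleton] at h10
      omega
    · have h10 : G.bc P2 {v} = 0 := by
        unfold bc
        rw [card_eq_zero, eq_empty_iff_forall_notMem]
        intro d hd
        obtain ⟨h11, h12⟩ := mem_filter.1 hd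
        have h13 := (mem_bd.1 h11).2.1
        rw [mem_singleton] at h13
        exact hvC (h13 ▸ (h.two.sub2 h12).2)
      omega
  · exact hW.nb h10
  · have := h.dig_bc hD (Finset.Subset.refl W)
    omega

/-- all odd sets at the point, and the tight ones -/
theorem LA.low (h : G.LA z t fr F ep m C P1 P2 j) {b : ℕ} (hb : 4 ≤ b)
    (hmin : ∀ W, G.TB z t P1 P2 j W → b ≤ G.bc P2 W) {W : Finset V} (hW : W ⊆ G.vs)
    (ho : Odd W.card) :
    3 ≤ G.val (G.zA z P1 P2 j (1 - 2 / b)) (G.tA z t j) W ∧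
      (G.val (G.zA z P1 P2 j (1 - 2 / b)) (G.tA z t j) W = 3 →
        ((∃ v ∈ G.vs, W = {v}) ∨ ∃ x p q, G.Dig z t fr W x p q) ∨
          (G.TB z t P1 P2 j W ∧ G.bc P2 W = b)) := by
  have hF := h.mc.inst.fresh
  have hbr : (4 : ℝ) ≤ b := by exact_mod_cast hb
  have hbp : (0 : ℝ) < b := by linarith
  set q : ℝ := 2 / b with hq
  have hq0 : 0 < q := div_pos two_pos hbp
  have hq1 : q ≤ 1 / 2 := by
    rw [hq, div_le_div_iff₀ hbp two_pos]
    linarith
  have hqb : q * b = 2 := by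
    rw [hq]
    field_simp
  have hval := h.val (1 - q) hW
  have hcv : G.val z t W = G.cvv z t P1 P2 W + G.bc P1 W + G.bc P2 W := by
    unfold cvv
    ring
  have hpar := h.two.par2 hF.Fsub W
  have hcut := h.mc.inst.wt.cut W hW ho
  have hor := h.cv_or hW ho
  have hn1 : (0 : ℝ) ≤ G.bc P1 W := Nat.cast_nonneg _
  have hn2 : (0 : ℝ) ≤ G.bc P2 W := Nat.cast_nonneg _
  have hm1 : 0 ≤ (G.bc P1 W : ℝ) * (2 - q) := mul_nonneg hn1 (by linarith)
  have hm2 : 0 ≤ (G.bc P2 W : ℝ) * q := mul_nonneg hn2 hq0.le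
  have hexp : G.val (G.zA z P1 P2 j (1 - q)) (G.tA z t j) W = G.cvv z t P1 P2 W +
      (if G.pi j ∈ W ∧ G.pi (G.al j) ∈ W then 2 else 0) + G.bc P1 W * (2 - q) +
      G.bc P2 W * q := by
    rw [hval, hcv]
    ring
  rw [hexp]
  have hcv1 : 1 ≤ G.cvv z t P1 P2 W := by
    rcases hor with h1 | h1
    · rw [h1]
    · linarith
  by_cases hboth : G.pi j ∈ W ∧ G.pi (G.al j) ∈ W
  · rw [if_pos hboth]
    refine ⟨by linarith, fun h3 => ?_⟩
    exfalso
    have h4 : (G.bc P1 W : ℝ) * (2 - q) = 0 := by linarith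
    have h5 : (G.bc P2 W : ℝ) * q = 0 := by linarith
    have h6 : (G.bc P1 W : ℝ) = 0 := by
      rcases mul_eq_zero.1 h4 with h7 | h7
      · exact h7
      · linarith
    have h7 : (G.bc P2 W : ℝ) = 0 := by
      rcases mul_eq_zero.1 h5 with h8 | h8
      · exact h8
      · linarith
    rw [h6, h7] at hcv
    linarith
  · rw [if_neg hboth]
    have htri : G.val z t W = 3 → (∃ v ∈ G.vs, W = {v}) ∨ ∃ x p q, G.Dig z t fr W x p q := by
      intro h3
      rcases h.triv hW ho h3 with h4 | h4 | h4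
      · exact Or.inl h4
      · exact absurd h4 hboth
      · exact Or.inr h4
    rcases hor with h1 | h1
    · rcases Nat.lt_trichotomy (G.bc P1 W) 1 with h2 | h2 | h2
      · have h2' : G.bc P1 W = 0 := by omega
        have hTB : G.TB z t P1 P2 j W := ⟨hW, ho, hboth, h1, h2'⟩
        have h3 : (b : ℝ) ≤ G.bc P2 W := by exact_mod_cast hmin W hTB
        have h4 : (2 : ℝ) ≤ G.bc P2 W * q := by
          have := mul_le_mul_of_nonneg_right h3 hq0.le
          linarith
        refine ⟨by linarith, fun h5 => Or.inr ⟨hTB, ?_⟩⟩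
        rw [h2', h1] at h5
        push_cast at h5
        have h6 : (G.bc P2 W : ℝ) * q = b * q := by linarith
        have h7 := mul_right_cancel₀ hq0.ne' h6
        exact_mod_cast h7
      · have h3 : 1 ≤ G.bc P2 W := by omega
        have h3' : (1 : ℝ) ≤ G.bc P2 W := by exact_mod_cast h3
        have h4 : q ≤ G.bc P2 W * q := by
          have := mul_le_mul_of_nonneg_right h3' hq0.le
          linarith
        rw [h2, h1]
        push_cast
        refine ⟨by linarith, fun h5 => Or.inl (htri ?_)⟩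
        have h6 : (G.bc P2 W : ℝ) * q = 1 * q := by linarith
        have h7 := mul_right_cancel₀ hq0.ne' h6
        rw [hcv, h1, h2, h7]
        norm_num
      · have h3 : (2 : ℝ) ≤ G.bc P1 W := by exact_mod_cast h2
        have h4 : 3 ≤ (G.bc P1 W : ℝ) * (2 - q) := by nlinarith
        refine ⟨by linarith, fun h5 => ?_⟩
        exfalso
        linarith
    · refine ⟨by linarith, fun h3 => Or.inl (htri ?_)⟩
      have h4 : (G.bc P1 W : ℝ) * (2 - q) = 0 := by linarith
      have h5 : (G.bc P2 W : ℝ) * q = 0 := by linarith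
      have h6 : (G.bc P1 W : ℝ) = 0 := by
        rcases mul_eq_zero.1 h4 with h7 | h7
        · exact h7
        · linarith
      have h7 : (G.bc P2 W : ℝ) = 0 := by
        rcases mul_eq_zero.1 h5 with h8 | h8
        · exact h8
        · linarith
      rw [hcv, h6, h7]
      linarith

/-- the point is feasible -/
theorem LA.wt (h : G.LA z t fr F ep m C P1 P2 j) {b : ℕ} (hb : 4 ≤ b)
    (hmin : ∀ W, G.TB z t P1 P2 j W → b ≤ G.bc P2 W) :
    G.Wt (G.zA z P1 P2 j (1 - 2 / b)) (G.tA z t j) where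
  z0 := by
    intro d hd
    have hw := h.mc.inst.wt.kill (je_sub h.jd) (je_al h.jd)
    have hbr : (4 : ℝ) ≤ b := by exact_mod_cast hb
    have hq : (2 : ℝ) / b ≤ 1 / 2 := by
      rw [div_le_div_iff₀ (by linarith) two_pos]
      linarith
    have hq0 : 0 < (2 : ℝ) / b := div_pos two_pos (by linarith)
    unfold zA dl
    by_cases h1 : d ∈ P1
    · rw [if_pos h1, if_neg (disjoint_left.1 h.two.dis h1)]
      have h2 := hw.z0 d hd
      linarith
    · by_cases h2 : d ∈ P2
      · rw [if_neg h1, if_pos h2]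
        have h3 : d ∉ G.je j := by
          unfold je
          rw [mem_insert, mem_singleton]
          rintro (h4 | h4)
          · exact h.jnF (h4 ▸ (h.two.sub2 h2).1)
          · exact h.ajnF (h4 ▸ (h.two.sub2 h2).1)
        unfold kz
        rw [if_neg h3, h.mc.inst.fresh.unit d hd (h.circ.adm.sub (h.two.sub2 h2).2)]
        linarith
      · rw [if_neg h1, if_neg h2]
        have h3 := hw.z0 d hd
        linarith
  t0 := (h.mc.inst.wt.kill (je_sub h.jd) (je_al h.jd)).t0
  sym := by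
    intro d hd
    have hw := h.mc.inst.wt.kill (je_sub h.jd) (je_al h.jd)
    unfold zA
    rw [hw.sym d hd, h.two.dl_sym hd]
  deg := by
    intro v hv
    have hw := h.mc.inst.wt.kill (je_sub h.jd) (je_al h.jd)
    unfold zA
    rw [sum_add_distrib, ← mul_sum, h.two.dl_deg h.mc.inst.fresh.Fsub, mul_zero, add_zero]
    exact hw.deg v hv
  cut := fun W hW ho => (h.low hb hmin hW ho).1

/-- the point is a step -/
theorem LA.step (h : G.LA z t fr F ep m C P1 P2 j) {b : ℕ} (hb : 4 ≤ b)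
    (hmin : ∀ W, G.TB z t P1 P2 j W → b ≤ G.bc P2 W) :
    StepA G z fr F ∅ ∅ (G.zA z P1 P2 j (1 - 2 / b)) (G.tA z t j) (fr \ C) where
  wt := h.wt hb hmin
  supp := by
    intro d hd h0
    have hF := h.mc.inst.fresh
    by_cases h1 : d ∈ P1
    · rw [hF.unit d hd (h.circ.adm.sub (h.two.sub1 h1).2)]
      exact one_pos
    · by_cases h2 : d ∈ P2
      · rw [hF.unit d hd (h.circ.adm.sub (h.two.sub2 h2).2)]
        exact one_pos
      · unfold zA dl kz at h0
        rw [if_neg h1, if_neg h2] at h0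
        split_ifs at h0
        · norm_num at h0
        · simpa using h0
  sub := sdiff_subset
  clo := by
    intro d hd hp
    exact (h.mc.inst.fresh.adm_compl h.circ.adm).clo d hd hp
  unit := by
    intro d hd hp
    obtain ⟨h1, h2⟩ := mem_sdiff.1 hp
    have h3 : d ∉ G.je j := by
      unfold je
      rw [mem_insert, mem_singleton]
      rintro (h4 | h4)
      · exact h2 (h4 ▸ h.jx)
      · exact h.jw (h4 ▸ h1)
    unfold zA dl kz
    rw [if_neg h3, if_neg (fun h4 => h2 (h.two.sub1 h4).2), if_neg (fun h4 => h2 (h.two.sub2 h4).2),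
      h.mc.inst.fresh.unit d hd h1]
    ring
  kill := by
    intro X hX _ hn
    obtain ⟨v, hv, hv2⟩ := not_subset.1 hn
    have hvC : v ∈ C := by
      by_contra h1
      exact hv2 (mem_sdiff.2 ⟨hX.sub hv, h1⟩)
    have hCX : X ∩ C = C := h.circ.min (X ∩ C)
      ⟨fun u hu => hX.sub (mem_inter.1 hu).1, fun d hd hp => mem_inter.2
        ⟨hX.clo d hd (mem_inter.1 hp).1, h.circ.adm.clo d hd (mem_inter.1 hp).2⟩⟩
      inter_subset_right ⟨v, mem_inter.2 ⟨hv, hvC⟩⟩
    have hjX : G.pi j ∈ X := by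
      have h1 := h.jx
      rw [← hCX] at h1
      exact (mem_inter.1 h1).1
    refine ⟨j, mem_bd.2 ⟨h.jd, hjX, fun h1 => h.jw (hX.sub h1)⟩, ?_⟩
    unfold zA dl kz je
    rw [if_pos (mem_insert_self _ _), if_neg (fun h4 => h.jnF (h.two.sub1 h4).1),
      if_neg (fun h4 => h.jnF (h.two.sub2 h4).1)]
    ring
  star := Or.inl ⟨empty_subset _, empty_subset _⟩

/-- no other circuit crosses such a set -/
theorem LA.nocross (h : G.LA z t fr F ep m C P1 P2 j) {W : Finset V}
    (hW : G.TB z t P1 P2 j W) : ∀ d ∈ F, G.pi d ∈ fr \ C → G.pi d ∈ W → G.pi (G.al d) ∈ W := by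
  intro d hd h1 h2
  by_contra h3
  have hF := h.mc.inst.fresh
  have h4 := cval_ge hF h.mc.inst.wt h.two hW.sub
  have h5 := par_other hF h.circ.adm W
  have h6 : 0 < G.bc (F.filter fun d => G.pi d ∉ C) W := by
    unfold bc
    rw [card_pos]
    exact ⟨d, mem_filter.2 ⟨mem_bd.2 ⟨hF.Fsub hd, h2, h3⟩,
      mem_filter.2 ⟨hd, (mem_sdiff.1 h1).2⟩⟩⟩
  have h7 : 2 ≤ G.bc (F.filter fun d => G.pi d ∉ C) W := by
    obtain ⟨k, hk⟩ := h5
    omega
  have h8 : (2 : ℝ) ≤ G.bc (F.filter fun d => G.pi d ∉ C) W := by exact_mod_cast h7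
  have h9 := hW.c1
  unfold cvv at h9
  linarith

/-- such a set and its complement have at least 3 vertices -/
theorem LA.sizes (h : G.LA z t fr F ep m C P1 P2 j) {W : Finset V}
    (hW : G.TB z t P1 P2 j W) : 3 ≤ W.card ∧ 3 ≤ (G.vs \ W).card := by
  have hF := h.mc.inst.fresh
  obtain ⟨h1, -⟩ := h.b4 hW
  have h2 : (G.vs \ W).card + W.card = G.vs.card := card_sdiff_add_card_eq_card hW.sub
  obtain ⟨k, hk⟩ := h.mc.inst.even
  obtain ⟨l, hl⟩ := hW.odd
  have h3 : ∀ v, v ∈ G.vs → ((∀ d ∈ (G.bd W).filter (fun d => d ∈ P2), G.pi d = v) ∨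
      ∀ d ∈ (G.bd W).filter (fun d => d ∈ P2), G.pi (G.al d) = v) → False := by
    intro v hv h4
    have h5 : G.bc P2 W ≤ (P2.filter fun d => G.pi d = v).card := by
      unfold bc
      rcases h4 with h4 | h4
      · refine card_le_card fun d hd => mem_filter.2 ⟨(mem_filter.1 hd).2, h4 d hd⟩
      · refine card_le_card_of_injOn G.al (fun d hd => ?_) ?_
        · have hd' := mem_coe.1 hd
          exact mem_coe.2 (mem_filter.2 ⟨h.two.al2 d (mem_filter.1 hd').2, h4 d hd'⟩)
        · intro d hd d' hd' he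
          have h6 := mem_bd.1 (mem_filter.1 (mem_coe.1 hd)).1
          have h7 := mem_bd.1 (mem_filter.1 (mem_coe.1 hd')).1
          rw [← G.al_al d h6.1, he, G.al_al d' h7.1]
    by_cases hvC : v ∈ C
    · rw [h.two.one2 v hvC] at h5
      omega
    · have h6 : (P2.filter fun d => G.pi d = v) = ∅ := by
        rw [eq_empty_iff_forall_notMem]
        intro d hd
        obtain ⟨h7, h8⟩ := mem_filter.1 hd
        exact hvC (h8 ▸ (h.two.sub2 h7).2)
      rw [h6, card_empty] at h5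
      omega
  constructor
  · by_contra h4
    have h5 : W.card = 1 := by omega
    obtain ⟨v, hv⟩ := card_eq_one.1 h5
    refine h3 v (hW.sub (by rw [hv]; exact mem_singleton_self v)) (Or.inl fun d hd => ?_)
    have h6 := (mem_bd.1 (mem_filter.1 hd).1).2.1
    rw [hv, mem_singleton] at h6
    exact h6
  · by_contra h4
    have h5 : (G.vs \ W).card = 1 := by omega
    obtain ⟨v, hv⟩ := card_eq_one.1 h5
    have hv1 : v ∈ G.vs := by
      have : v ∈ G.vs \ W := by rw [hv]; exact mem_singleton_self v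
      exact (mem_sdiff.1 this).1
    refine h3 v hv1 (Or.inr fun d hd => ?_)
    obtain ⟨h6, h7, h8⟩ := mem_bd.1 (mem_filter.1 hd).1
    have h9 : G.pi (G.al d) ∈ G.vs \ W := mem_sdiff.2 ⟨G.pi_mem _ (G.al_mem _ h6), h8⟩
    rw [hv, mem_singleton] at h9
    exact h9

end MG

end RH
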