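import Pool.Agent.Lib.RH.LemA

/-! Lemma A of helper93, part 2: the two directions on the outer graph. -/

set_option autoImplicit false

namespace RH

open Finset Classical

namespace MG

variable {V D : Type*} {G : MG V D} {z : D → ℝ} {t : V → ℝ} {fr : Finset V} {F : Finset D}
variable {ep : V → ℕ} {m : ℕ} {C : Finset V} {P1 P2 : Finset D} {j : D}

/-- the cut sum of a direction is the sum of the vertex sums minus the inner part -/
theorem sum_bd_eq (G : MG V D) (a : D → ℝ) (X : Finset V) :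
    ∑ d ∈ G.bd X, a d = ∑ v ∈ X, ∑ d ∈ G.st v, a d - ∑ d ∈ G.ed X X, a d := by
  have h1 := sum_bd_ed G a X
  have h2 : ∑ v ∈ X, ∑ d ∈ G.st v, a d = ∑ d ∈ G.ds.filter (fun d => G.pi d ∈ X), a d :=
    sum_pi_mem G G.ds a X
  linarith

/-- the value of a direction on a vertex -/
theorem valA_one (a : D → ℝ) (b : V → ℝ) {v : V} (hdeg : ∑ d ∈ G.st v, a d + b v = 0) :
    G.val a b {v} = 0 := by
  unfold MG.val
  rw [sum_bd_eq, sum_singleton, sum_singleton]
  have h1 : G.ed {v} {v} = ∅ := by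
    rw [eq_empty_iff_forall_notMem]
    intro d hd
    rw [mem_ed, mem_singleton, mem_singleton] at hd
    exact G.noloop d hd.1 (hd.2.2.trans hd.2.1.symm)
  rw [h1, sum_empty]
  linarith

/-- a harmless set is no obstacle for a direction at the point of `LA.step` -/
theorem LA.dig_ok (h : G.LA z t fr F ep m C P1 P2 j) {b : ℕ} (hb : 4 ≤ b)
    (hmin : ∀ W, G.TB z t P1 P2 j W → b ≤ G.bc P2 W) {W X : Finset V}
    (hTB : G.TB z t P1 P2 j W) {a : D → ℝ} {e : V → ℝ}
    (hs : ∀ d ∈ G.ds, a (G.al d) = a d)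
    (hdeg : ∀ v ∈ G.vs, v ∉ W → ∑ d ∈ G.st v, a d + e v = 0)
    (hz : ∀ d ∈ G.ds, G.zA z P1 P2 j (1 - 2 / b) d = 0 → a d = 0)
    (he : ∀ v ∈ G.vs, v ∉ W → G.tA z t j v = 0 → 0 ≤ e v)
    (hX : X ⊆ G.vs) (hD : ∃ x p q, G.Dig z t fr X x p q)
    (hX3 : G.val (G.zA z P1 P2 j (1 - 2 / b)) (G.tA z t j) X = 3)
    (hor : Disjoint X W ∨ W ⊆ X) : 0 ≤ G.val a e X := by
  obtain ⟨x, p, q, hD⟩ := hD
  have hw := h.wt hb hmin
  have hst := h.step hb hmin
  have hp : p ∈ X := by
    rw [hD.W]
    simp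
  have h0 : ∀ d ∈ G.ds, z d = 0 → G.zA z P1 P2 j (1 - 2 / b) d = 0 := by
    intro d hd hz0
    by_contra h1
    have h2 := hst.supp d hd (lt_of_le_of_ne (hw.z0 d hd) (Ne.symm h1))
    rw [hz0] at h2
    exact lt_irrefl _ h2
  rcases hor with h1 | h1
  · have h2 := hD.val_wt hX hw.sym h0 hw.deg
    rw [hX3] at h2
    have h3 : G.tA z t j p = 0 := by linarith
    have hpW : p ∉ W := disjoint_left.1 h1 hp
    have h4 := he p (hX hp) hpW h3
    have h5 := hD.ed hs fun d hd h6 => hz d hd (h0 d hd h6)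
    have h6 := hdeg p (hX hp) hpW
    have h7 : ∑ v ∈ X, ∑ d ∈ G.st v, a d + ∑ v ∈ X, e v = 0 := by
      rw [← sum_add_distrib]
      exact sum_eq_zero fun v hv => hdeg v (hX hv) (disjoint_left.1 h1 hv)
    unfold MG.val
    rw [sum_bd_eq, h5]
    linarith
  · exfalso
    have h2 := h.dig_bc hD h1
    have h3 := (h.b4 hTB).1
    omega

/-- CASE I: the direction `P2 - P1` outside `W` -/
noncomputable def a1 (G : MG V D) (P1 P2 : Finset D) (W : Finset V) (d : D) : ℝ :=
  if G.pi d ∈ W ∧ G.pi (G.al d) ∈ W then 0 else - dl P1 P2 d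

/-- CASE I: a tight set which contains the circuit end `x` of the leg -/
theorem LA.caseI (h : G.LA z t fr F ep m C P1 P2 j) {b : ℕ} (hb : 4 ≤ b)
    (hmin : ∀ W, G.TB z t P1 P2 j W → b ≤ G.bc P2 W)
    {W0 : Finset V} (hW0 : G.TB z t P1 P2 j W0) (hb0 : G.bc P2 W0 = b) (hx0 : G.pi j ∈ W0) :
    False := by
  have hF := h.mc.inst.fresh
  obtain ⟨W, hW, hmax⟩ := exists_max_image
    (G.vs.powerset.filter fun W => G.TB z t P1 P2 j W ∧ G.bc P2 W = b ∧ G.pi j ∈ W)
    (fun W => W.card)
    ⟨W0, mem_filter.2 ⟨mem_powerset.2 hW0.sub, hW0, hb0, hx0⟩⟩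
  obtain ⟨hWs, hTB, hbW, hxW⟩ := mem_filter.1 hW
  rw [mem_powerset] at hWs
  obtain ⟨hc1, hc2⟩ := h.sizes hTB
  have hstep := h.step hb hmin
  have h3 : G.val (G.zA z P1 P2 j (1 - 2 / b)) (G.tA z t j) W = 3 := by
    rw [h.val _ hWs, if_neg hTB.nb, hTB.b1, hbW]
    have h4 := hTB.c1
    unfold cvv at h4
    rw [hTB.b1, hbW] at h4
    have hbr : (4 : ℝ) ≤ b := by exact_mod_cast hb
    have h5 : (2 : ℝ) / b * b = 2 := by
      field_simp
    push_cast at h4 ⊢
    have h6 : G.val z t W = 1 + b := by linarith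
    rw [h6]
    have h7 : (1 - 2 / (b : ℝ)) * (0 - b) = - b + 2 / b * b := by ring
    rw [h7, h5]
    ring
  have hcutW : ∀ X : Finset V, Disjoint X W → ∑ d ∈ G.bd X, a1 G P1 P2 W d =
      (G.bc P2 X : ℝ) - G.bc P1 X := by
    intro X hd
    have h4 : ∑ d ∈ G.bd X, a1 G P1 P2 W d = ∑ d ∈ G.bd X, - dl P1 P2 d := by
      refine sum_congr rfl fun d hd1 => ?_
      unfold a1
      rw [if_neg fun h5 => disjoint_left.1 hd (mem_bd.1 hd1).2.1 h5.1]
    rw [h4, sum_neg_distrib, sum_dl]
    ring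
  have hcutW2 : ∑ d ∈ G.bd W, a1 G P1 P2 W d = (G.bc P2 W : ℝ) - G.bc P1 W := by
    have h4 : ∑ d ∈ G.bd W, a1 G P1 P2 W d = ∑ d ∈ G.bd W, - dl P1 P2 d := by
      refine sum_congr rfl fun d hd1 => ?_
      unfold a1
      rw [if_neg fun h5 => (mem_bd.1 hd1).2.2 h5.2]
    rw [h4, sum_neg_distrib, sum_dl]
    ring
  have g1 : ∀ d ∈ G.ds, a1 G P1 P2 W (G.al d) = a1 G P1 P2 W d := by
    intro d hd
    unfold a1
    rw [G.al_al d hd, h.two.dl_sym hd]
    simp only [and_comm]
  have g2 : ∀ v ∈ G.vs, v ∉ W →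
      ∑ d ∈ G.st v, a1 G P1 P2 W d + (if v = G.pi j then -(b : ℝ) else 0) = 0 := by
    intro v hv hvW
    have hvx : v ≠ G.pi j := fun h4 => hvW (by rw [h4]; exact hxW)
    rw [if_neg hvx, add_zero]
    have h4 : ∑ d ∈ G.st v, a1 G P1 P2 W d = ∑ d ∈ G.st v, - dl P1 P2 d := by
      refine sum_congr rfl fun d hd => ?_
      unfold a1
      rw [if_neg fun h5 => hvW ((mem_st.1 hd).2 ▸ h5.1)]
    rw [h4, sum_neg_distrib, h.two.dl_deg hF.Fsub, neg_zero]
  have g4 : ∀ d ∈ G.ds, G.zA z P1 P2 j (1 - 2 / b) d = 0 → a1 G P1 P2 W d = 0 := by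
    intro d hd h0
    unfold a1
    split_ifs with h4
    · rfl
    · have h5 : d ∉ P1 := by
        intro h5
        have h6 := (h.mc.inst.wt.kill (je_sub h.jd) (je_al h.jd)).z0 d hd
        unfold zA dl at h0
        rw [if_pos h5, if_neg (disjoint_left.1 h.two.dis h5)] at h0
        have hbr : (4 : ℝ) ≤ b := by exact_mod_cast hb
        have hq : (2 : ℝ) / b ≤ 1 / 2 := by
          rw [div_le_div_iff₀ (by linarith) two_pos]
          linarith
        linarith
      have h6 : d ∉ P2 := by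
        intro h6
        unfold zA dl at h0
        rw [if_neg h5, if_pos h6] at h0
        have h3 : d ∉ G.je j := by
          unfold je
          rw [mem_insert, mem_singleton]
          rintro (h4 | h4)
          · exact h.jnF (h4 ▸ (h.two.sub2 h6).1)
          · exact h.ajnF (h4 ▸ (h.two.sub2 h6).1)
        unfold kz at h0
        rw [if_neg h3, hF.unit d hd (h.circ.adm.sub (h.two.sub2 h6).2)] at h0
        have hbr : (4 : ℝ) ≤ b := by exact_mod_cast hb
        have hq0 : 0 < (2 : ℝ) / b := div_pos two_pos (by linarith)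
        linarith
      unfold dl
      rw [if_neg h5, if_neg h6]
      norm_num
  have g6 : ∀ v ∈ G.vs, v ∉ W → G.tA z t j v = 0 →
      (0 : ℝ) ≤ (if v = G.pi j then -(b : ℝ) else 0) := by
    intro v hv hvW _
    have hvx : v ≠ G.pi j := fun h4 => hvW (by rw [h4]; exact hxW)
    rw [if_neg hvx]
  refine h.mc.ga_push hstep h.tau_b.le hWs hTB.odd h3 hc1 hc2 (h.nocross hTB)
    (a1 G P1 P2 W) (fun v => if v = G.pi j then -(b : ℝ) else 0) g1 g2 ?_ g4 ?_ g6 ?_ ?_ ?_
  · unfold MG.val
    rw [hcutW2, hbW, hTB.b1, sum_ite_eq' W (G.pi j) (fun _ => -(b : ℝ)), if_pos hxW]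
    push_cast
    ring
  · intro d hd h1 _
    unfold a1
    split_ifs
    · rfl
    · have h2 := (mem_sdiff.1 h1).2
      unfold dl
      rw [if_neg (fun h4 => h2 (h.two.sub1 h4).2), if_neg (fun h4 => h2 (h.two.sub2 h4).2)]
      norm_num
  · intro h0
    exfalso
    have h4 := (sum_eq_zero_iff_of_nonneg (fun v hv => (h.wt hb hmin).t0 v (hWs hv))).1 h0 _ hxW
    rw [h.tA_eq, if_pos (Or.inl rfl), h.tx (h.circ.adm.sub h.jx)] at h4
    norm_num at h4
  · intro X hX ho hX3 hor
    rcases (h.low hb hmin hX ho).2 hX3 with (⟨v, hv, rfl⟩ | hDig) | ⟨hXT, hXb⟩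
    rotate_left
    · exact h.dig_ok hb hmin hTB g1 g2 g4 g6 hX hDig hX3 hor
    rotate_right
    · rcases hor with h4 | h4
      · rw [valA_one]
        have hvW : v ∉ W := disjoint_singleton_left.1 h4
        have hvx : v ≠ G.pi j := fun h4 => hvW (by rw [h4]; exact hxW)
        rw [if_neg hvx, add_zero]
        have h5 : ∑ d ∈ G.st v, a1 G P1 P2 W d = ∑ d ∈ G.st v, - dl P1 P2 d := by
          refine sum_congr rfl fun d hd => ?_
          unfold a1
          rw [if_neg fun h5 => hvW ((mem_st.1 hd).2 ▸ h5.1)]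
        rw [h5, sum_neg_distrib, h.two.dl_deg hF.Fsub, neg_zero]
      · exfalso
        have h5 := card_le_card h4
        rw [card_singleton] at h5
        omega
    · rcases hor with h4 | h4
      · unfold MG.val
        rw [hcutW X h4, hXT.b1, hXb]
        have h5 : ∑ v ∈ X, (if v = G.pi j then -(b : ℝ) else 0) = 0 := by
          refine sum_eq_zero fun v hv => ?_
          have hvx : v ≠ G.pi j := fun h5 => disjoint_left.1 h4 hv (by rw [h5]; exact hxW)
          rw [if_neg hvx]
        rw [h5]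
        push_cast
        have : (0 : ℝ) ≤ b := Nat.cast_nonneg _
        linarith
      · have h5 : X = W := by
          have h6 := hmax X (mem_filter.2 ⟨mem_powerset.2 hX, hXT, hXb, h4 hxW⟩)
          exact (eq_of_subset_of_card_le h4 h6).symm
        rw [h5]
        unfold MG.val
        rw [hcutW2, hbW, hTB.b1, sum_ite_eq' W (G.pi j) (fun _ => -(b : ℝ)), if_pos hxW]
        push_cast
        linarith
  · rw [sum_ite_eq' G.vs (G.pi j) (fun _ => -(b : ℝ)), if_pos (G.pi_mem _ h.jd)]
    have hbr : (4 : ℝ) ≤ b := by exact_mod_cast hb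
    linarith

/-- the edges of an even circuit alternate -/
theorem Two.alt (h : G.Two F C P1 P2) {n : ℕ} {r : ZMod n → D} (hr : Cy G F C n r)
    (h0 : r 0 ∈ P1) (i : ℕ) : (Even i → r (i : ZMod n) ∈ P1) ∧ (Odd i → r (i : ZMod n) ∈ P2) := by
  have hun : ∀ i, r i ∈ P1 ∨ r i ∈ P2 := by
    intro i
    have h1 : r i ∈ P1 ∪ P2 := by
      rw [h.un]
      exact mem_filter.2 ⟨hr.memF i, hr.memC i⟩
    exact mem_union.1 h1
  have key : ∀ (Q : Finset D), (∀ d ∈ Q, G.al d ∈ Q) →
      (∀ v ∈ C, (Q.filter fun d => G.pi d = v).card = 1) → ∀ i, r i ∈ Q → r (i + 1) ∉ Q := by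
    intro Q hal hone i hi hi1
    obtain ⟨e, he⟩ := card_eq_one.1 (hone _ (hr.memC (i + 1)))
    have h1 : G.al (r i) ∈ Q.filter fun d => G.pi d = G.pi (r (i + 1)) :=
      mem_filter.2 ⟨hal _ hi, hr.nxt i⟩
    have h2 : r (i + 1) ∈ Q.filter fun d => G.pi d = G.pi (r (i + 1)) :=
      mem_filter.2 ⟨hi1, rfl⟩
    rw [he, mem_singleton] at h1 h2
    exact hr.ne i (h1.trans h2.symm)
  induction i with
  | zero =>
    refine ⟨fun _ => by simpa using h0, fun h1 => ?_⟩
    exact absurd h1 (by decide)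
  | succ k ih =>
    constructor
    · intro h1
      have h2 : Odd k := by
        rcases Nat.even_or_odd k with h3 | h3
        · exfalso
          exact (Nat.not_even_iff_odd.2 (Even.add_one h3)) h1
        · exact h3
      have h3 := key P2 h.al2 h.one2 _ (ih.2 h2)
      push_cast
      exact (hun _).resolve_right h3
    · intro h1
      have h2 : Even k := by
        rcases Nat.even_or_odd k with h3 | h3
        · exact h3
        · exfalso
          exact (Nat.not_even_iff_odd.2 h1) (Odd.add_one h3)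
      have h3 := key P1 h.al1 h.one1 _ (ih.1 h2)
      push_cast
      exact (hun _).resolve_left h3

/-- a set which cuts no edge of `P1` -/
theorem bc_zero {P : Finset D} (hP : P ⊆ G.ds) {W : Finset V} (h : G.bc P W = 0) {d : D}
    (hd : d ∈ P) (hp : G.pi d ∈ W) : G.pi (G.al d) ∈ W := by
  by_contra h1
  unfold bc at h
  rw [card_eq_zero, eq_empty_iff_forall_notMem] at h
  exact h d (mem_filter.2 ⟨mem_bd.2 ⟨hP hd, hp, h1⟩, hd⟩)

/-- CASE II: no tight set contains the circuit end `x` of the leg -/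
theorem LA.caseII (h : G.LA z t fr F ep m C P1 P2 j) {b : ℕ} (hb : 4 ≤ b)
    (hmin : ∀ W, G.TB z t P1 P2 j W → b ≤ G.bc P2 W)
    {W0 : Finset V} (hW0 : G.TB z t P1 P2 j W0) (hb0 : G.bc P2 W0 = b)
    (hnx : ∀ W, G.TB z t P1 P2 j W → G.bc P2 W = b → G.pi j ∉ W) : False := by
  have hF := h.mc.inst.fresh
  have hstep := h.step hb hmin
  obtain ⟨a0, ha0⟩ := card_eq_one.1 (h.two.one1 _ h.jx)
  have ha0' : a0 ∈ P1.filter fun d => G.pi d = G.pi j := by
    rw [ha0]
    exact mem_singleton_self _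
  obtain ⟨ha1, ha2⟩ := mem_filter.1 ha0'
  obtain ⟨n, hn, r, hr, hr0⟩ : ∃ n, n = C.card ∧ ∃ r : ZMod n → D, Cy G F C n r ∧ r 0 = a0 :=
    ⟨_, rfl, exists_cyA hF.toFA h.circ (h.two.sub1 ha1).1 (h.two.sub1 ha1).2⟩
  have hnpos : 0 < n := by
    rw [hn]
    exact card_pos.2 h.circ.ne
  have hnz : NeZero n := ⟨hnpos.ne'⟩
  have halt := h.two.alt hr (by rw [hr0]; exact ha1)
  have hneven : Even n := by
    rcases Nat.even_or_odd n with h1 | h1
    · exact h1
    · exfalso
      have h2 := (halt n).2 h1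
      rw [ZMod.natCast_self, hr0] at h2
      exact disjoint_left.1 h.two.dis ha1 h2
  have hval : ∀ i : ℕ, i < n → ((i : ZMod n)).val = i := fun i hi => ZMod.val_cast_of_lt hi
  -- vertices
  obtain ⟨u, hu⟩ : ∃ u : ℕ → V, ∀ i, u i = G.pi (r (i : ZMod n)) := ⟨_, fun _ => rfl⟩
  have hunx : ∀ i : ℕ, G.pi (G.al (r (i : ZMod n))) = u (i + 1) := by
    intro i
    rw [hr.nxt, hu]
    push_cast
    rfl
  have hu0 : u 0 = G.pi j := by
    rw [hu, Nat.cast_zero, hr0, ha2]
  have hun : u n = G.pi j := by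
    rw [hu, ZMod.natCast_self, hr0, ha2]
  have hsur : ∀ v ∈ C, ∃ i < n, u i = v := by
    intro v hv
    obtain ⟨i, hi⟩ := hr.sur v hv
    refine ⟨i.val, ZMod.val_lt i, ?_⟩
    rw [hu, ZMod.natCast_zmod_val]
    exact hi
  have hinj : ∀ i < n, ∀ k < n, u i = u k → i = k := by
    intro i hi k hk he
    rw [hu, hu] at he
    have h1 := congrArg ZMod.val (hr.inj _ _ he)
    rwa [hval i hi, hval k hk] at h1
  have hP1s : P1 ⊆ G.ds := fun d hd => hF.Fsub (h.two.sub1 hd).1
  have hpair : ∀ W, G.bc P1 W = 0 → ∀ i, Even i → (u i ∈ W ↔ u (i + 1) ∈ W) := by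
    intro W hW i hi
    have h1 := (halt i).1 hi
    constructor
    · intro h2
      rw [hu] at h2
      have h3 := bc_zero hP1s hW h1 h2
      rwa [hunx] at h3
    · intro h2
      rw [← hunx] at h2
      have h3 := bc_zero hP1s hW (h.two.al1 _ h1) h2
      rw [G.al_al _ (hP1s h1)] at h3
      rwa [hu]
  -- the set which is hit first
  have hex : ∃ i, ∃ W, G.TB z t P1 P2 j W ∧ G.bc P2 W = b ∧ u i ∈ W := by
    have h1 : 0 < G.bc P2 W0 := by omega
    unfold bc at h1
    obtain ⟨d, hd⟩ := card_pos.1 h1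
    obtain ⟨h2, h3⟩ := mem_filter.1 hd
    obtain ⟨i, -, hi⟩ := hsur _ (h.two.sub2 h3).2
    exact ⟨i, W0, hW0, hb0, by rw [hi]; exact (mem_bd.1 h2).2.1⟩
  set A := Nat.find hex with hA
  obtain ⟨W, hTB, hbW, huA⟩ := Nat.find_spec hex
  rw [← hA] at huA
  have hAmin : ∀ i < A, ∀ X, G.TB z t P1 P2 j X → G.bc P2 X = b → u i ∉ X := by
    intro i hi X hX hXb hiX
    exact Nat.find_min hex hi ⟨X, hX, hXb, hiX⟩
  have hA0 : 1 ≤ A := by
    by_contra h1
    have h2 : A = 0 := by omega
    rw [h2, hu0] at huA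
    exact hnx W hTB hbW huA
  have hAev : Even A := by
    by_contra h1
    obtain ⟨k, hk⟩ := Nat.not_even_iff_odd.1 h1
    have h2 := hpair W hTB.b1 (A - 1) ⟨k, by omega⟩
    have h3 : A - 1 + 1 = A := by omega
    rw [h3] at h2
    exact hAmin (A - 1) (by omega) W hTB hbW (h2.2 huA)
  have hAn : A < n := by
    obtain ⟨i, hi, hiu⟩ := hsur (u A) (by rw [hu]; exact hr.memC _)
    by_contra h1
    refine hAmin i (by omega) W hTB hbW ?_
    rw [hiu]
    exact huA
  -- the last vertex of the set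
  obtain ⟨B, hB, hBmax⟩ := exists_max_image ((range n).filter fun i => u i ∈ W) (fun i => i)
    ⟨A, mem_filter.2 ⟨mem_range.2 hAn, huA⟩⟩
  obtain ⟨hBn, huB⟩ := mem_filter.1 hB
  rw [mem_range] at hBn
  have hBm : ∀ i < n, u i ∈ W → i ≤ B := fun i hi hiW =>
    hBmax i (mem_filter.2 ⟨mem_range.2 hi, hiW⟩)
  have hBodd : Odd B := by
    by_contra h1
    have h2 : Even B := Nat.not_odd_iff_even.1 h1
    have h3 := (hpair W hTB.b1 B h2).1 huB
    have h4 : B + 1 < n := by
      obtain ⟨k, hk⟩ := h2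
      obtain ⟨l, hl⟩ := hneven
      omega
    have h5 := hBm _ h4 h3
    omega
  have hAB : A < B := by
    have h1 := hBm A hAn huA
    rcases h1.lt_or_eq with h2 | h2
    · exact h2
    · exfalso
      rw [h2] at hAev
      exact (Nat.not_even_iff_odd.2 hBodd) hAev
  -- the direction
  obtain ⟨g, hg⟩ : ∃ g : ℕ → ℝ, ∀ i, g i = if i < A then (-1) ^ i else
      if B ≤ i then - (-1) ^ i else 0 := ⟨_, fun _ => rfl⟩
  obtain ⟨δ, d1, d2, d3, d4, d5, d6⟩ := hr.exists_funA hF.toFA (fun i => g i.val)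
  have d1' : ∀ i < n, δ (r (i : ZMod n)) = g i := by
    intro i hi
    rw [d1, hval i hi]
  have d2' : ∀ i < n, δ (G.al (r (i : ZMod n))) = g i := by
    intro i hi
    rw [d2, hval i hi]
  have s0 : ∑ d ∈ G.st (u 0), δ d = 2 := by
    have h1 := d5 0
    rw [hu, Nat.cast_zero, h1, ZMod.val_zero, zero_sub]
    have h2 : (-1 : ZMod n).val = n - 1 := by
      clear * - hnpos
      obtain ⟨k, rfl⟩ : ∃ k, n = k + 1 := ⟨n - 1, by omega⟩
      exact ZMod.val_neg_one k
    rw [h2, hg, hg, if_pos (by omega), if_neg (by omega), if_pos (by omega), pow_zero]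
    have h3 : Odd (n - 1) := by
      obtain ⟨l, hl⟩ := hneven
      exact ⟨l - 1, by omega⟩
    rw [h3.neg_one_pow]
    norm_num
  have si : ∀ i, 1 ≤ i → i < n → ∑ d ∈ G.st (u i), δ d = g i + g (i - 1) := by
    intro i hi1 hin
    have h1 := d5 (i : ZMod n)
    rw [hu, h1, hval i hin]
    have h2 : (i : ZMod n) - 1 = ((i - 1 : ℕ) : ZMod n) := by
      rw [Nat.cast_sub hi1, Nat.cast_one]
    rw [h2, hval (i - 1) (by omega)]
  have hpow : ∀ i : ℕ, 1 ≤ i → (-1 : ℝ) ^ i + (-1) ^ (i - 1) = 0 := by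
    intro i hi
    obtain ⟨k, rfl⟩ : ∃ k, i = k + 1 := ⟨i - 1, by omega⟩
    rw [Nat.add_sub_cancel, pow_succ]
    ring
  have sz : ∀ i, 1 ≤ i → i < n → i ≠ A → i ≠ B → ∑ d ∈ G.st (u i), δ d = 0 := by
    intro i hi1 hin hiA hiB
    rw [si i hi1 hin, hg, hg]
    have h1 := hpow i hi1
    by_cases h2 : i < A
    · rw [if_pos h2, if_pos (by omega)]
      exact h1
    · by_cases h3 : B ≤ i
      · rw [if_neg h2, if_pos h3, if_neg (by omega), if_pos (by omega)]
        linarith
      · rw [if_neg h2, if_neg h3, if_neg (by omega), if_neg (by omega)]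
        norm_num
  have sA : ∑ d ∈ G.st (u A), δ d = -1 := by
    rw [si A hA0 hAn, hg, hg, if_neg (lt_irrefl _), if_neg (by omega), if_pos (by omega)]
    have h1 : Odd (A - 1) := by
      obtain ⟨l, hl⟩ := hAev
      exact ⟨l - 1, by omega⟩
    rw [h1.neg_one_pow]
    norm_num
  have sB : ∑ d ∈ G.st (u B), δ d = 1 := by
    rw [si B (by omega) hBn, hg, hg, if_neg (by omega), if_pos le_rfl, if_neg (by omega),
      if_neg (by omega), hBodd.neg_one_pow]
    norm_num
  have hcov : ∀ d, δ d ≠ 0 → ∃ i < n, d = r (i : ZMod n) ∨ d = G.al (r (i : ZMod n)) := by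
    intro d hd
    obtain ⟨h1, h2⟩ := d3 d hd
    obtain ⟨i, hi⟩ := hr.coverA hF.toFA h.circ h1 h2
    refine ⟨i.val, ZMod.val_lt i, ?_⟩
    rw [ZMod.natCast_zmod_val]
    exact hi
  have hjW : G.pi j ∉ W := hnx W hTB hbW
  obtain ⟨hc1, hc2⟩ := h.sizes hTB
  have h3 : G.val (G.zA z P1 P2 j (1 - 2 / b)) (G.tA z t j) W = 3 := by
    rw [h.val _ hTB.sub, if_neg hTB.nb, hTB.b1, hbW]
    have h4 := hTB.c1
    unfold cvv at h4
    rw [hTB.b1, hbW] at h4
    have hbr : (4 : ℝ) ≤ b := by exact_mod_cast hb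
    have h5 : (2 : ℝ) / b * b = 2 := by
      field_simp
    push_cast at h4 ⊢
    have h6 : G.val z t W = 1 + b := by linarith
    rw [h6]
    have h7 : (1 - 2 / (b : ℝ)) * (0 - b) = - b + 2 / b * b := by ring
    rw [h7, h5]
    ring
  have hβ : ∀ X : Finset V, G.pi j ∉ X →
      ∑ v ∈ X, (if v = G.pi j then -(2 : ℝ) else 0) = 0 := by
    intro X hX
    refine sum_eq_zero fun v hv => ?_
    have hvx : v ≠ G.pi j := fun h5 => hX (by rw [← h5]; exact hv)
    rw [if_neg hvx]
  -- crossing darts of a tight set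
  have hcross : ∀ X, G.TB z t P1 P2 j X → G.bc P2 X = b → ∀ d ∈ G.bd X, δ d < 0 →
      d = G.al (r ((A - 1 : ℕ) : ZMod n)) ∧ u A ∈ X := by
    intro X hX hXb d hd hneg
    obtain ⟨i, hi, hdi⟩ := hcov d hneg.ne
    obtain ⟨e1, e2, e3⟩ := mem_bd.1 hd
    have hδ : δ d = g i := by
      rcases hdi with rfl | rfl
      · exact d1' i hi
      · exact d2' i hi
    have hodd : Odd i := by
      rw [← Nat.not_even_iff_odd]
      intro hev
      have h4 := (halt i).1 hev
      have h5 : d ∈ P1 := by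
        rcases hdi with rfl | rfl
        · exact h4
        · exact h.two.al1 _ h4
      exact e3 (bc_zero hP1s hX.b1 h5 e2)
    rw [hδ, hg] at hneg
    by_cases h4 : i < A
    · have h5 : u i ∉ X := hAmin i h4 X hX hXb
      rcases hdi with rfl | rfl
      · rw [hu] at h5
        exact absurd e2 h5
      · rw [hunx] at e2
        have h6 : i + 1 = A := by
          by_contra h7
          exact hAmin (i + 1) (by omega) X hX hXb e2
        have h7 : A - 1 = i := by omega
        rw [h7, ← h6]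
        exact ⟨rfl, e2⟩
    · rw [if_neg h4] at hneg
      by_cases h5 : B ≤ i
      · rw [if_pos h5, hodd.neg_one_pow] at hneg
        norm_num at hneg
      · rw [if_neg h5] at hneg
        exact absurd hneg (lt_irrefl _)
  have g2 : ∀ v ∈ G.vs, v ∉ W →
      ∑ d ∈ G.st v, δ d + (if v = G.pi j then -(2 : ℝ) else 0) = 0 := by
    intro v hv hvW
    by_cases hvC : v ∈ C
    · obtain ⟨i, hi, rfl⟩ := hsur v hvC
      by_cases hi0 : i = 0
      · rw [hi0, s0, hu0, if_pos rfl]
        norm_num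
      · have h4 : u i ≠ G.pi j := by
          intro h4
          rw [← hu0] at h4
          exact hi0 (hinj i hi 0 hnpos h4)
        rw [if_neg h4, add_zero]
        refine sz i (by omega) hi ?_ ?_
        · intro h5
          exact hvW (by rw [h5]; exact huA)
        · intro h5
          exact hvW (by rw [h5]; exact huB)
    · have h4 : v ≠ G.pi j := fun h5 => hvC (by rw [h5]; exact h.jx)
      rw [if_neg h4, add_zero]
      exact d6 v hvC
  have g4 : ∀ d ∈ G.ds, G.zA z P1 P2 j (1 - 2 / b) d = 0 → δ d = 0 := by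
    intro d hd h0
    by_contra h4
    obtain ⟨h5, h6⟩ := d3 d h4
    have h7 : d ∈ P1 ∪ P2 := by
      rw [h.two.un]
      exact mem_filter.2 ⟨h5, h6⟩
    have h8 : d ∉ G.je j := by
      unfold je
      rw [mem_insert, mem_singleton]
      rintro (h9 | h9)
      · exact h.jnF (h9 ▸ h5)
      · exact h.ajnF (h9 ▸ h5)
    have hbr : (4 : ℝ) ≤ b := by exact_mod_cast hb
    have hq0 : 0 < (2 : ℝ) / b := div_pos two_pos (by linarith)
    have hq : (2 : ℝ) / b ≤ 1 / 2 := by
      rw [div_le_div_iff₀ (by linarith) two_pos]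
      linarith
    unfold zA dl kz at h0
    rw [if_neg h8, hF.unit d hd (h.circ.adm.sub h6)] at h0
    rcases mem_union.1 h7 with h9 | h9
    · rw [if_pos h9, if_neg (disjoint_left.1 h.two.dis h9)] at h0
      linarith
    · rw [if_neg (disjoint_right.1 h.two.dis h9), if_pos h9] at h0
      linarith
  have g6 : ∀ v ∈ G.vs, v ∉ W → G.tA z t j v = 0 →
      (0 : ℝ) ≤ (if v = G.pi j then -(2 : ℝ) else 0) := by
    intro v hv hvW h0
    by_cases h4 : v = G.pi j
    · exfalso
      rw [h4, h.tA_eq, if_pos (Or.inl rfl), h.tx (h.circ.adm.sub h.jx)] at h0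
      norm_num at h0
    · rw [if_neg h4]
  refine h.mc.ga_push hstep h.tau_b.le hTB.sub hTB.odd h3 hc1 hc2 (h.nocross hTB)
    δ (fun v => if v = G.pi j then -(2 : ℝ) else 0) d4 g2 ?_ g4 ?_ g6 ?_ ?_ ?_
  · unfold MG.val
    rw [hβ W hjW, add_zero, sum_bd_eq]
    have h4 : ∑ d ∈ G.ed W W, δ d = 0 := by
      refine sum_eq_zero fun d hd => ?_
      by_contra h5
      obtain ⟨i, hi, hdi⟩ := hcov d h5
      obtain ⟨e1, e2, e3⟩ := mem_ed.1 hd
      have hi1 : u i ∈ W ∧ u (i + 1) ∈ W := by
        rcases hdi with rfl | rfl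
        · rw [← hu] at e2
          rw [hunx] at e3
          exact ⟨e2, e3⟩
        · rw [hunx] at e2
          rw [G.al_al _ (hF.Fsub (hr.memF _)), ← hu] at e3
          exact ⟨e3, e2⟩
      have hδ : δ d = g i := by
        rcases hdi with rfl | rfl
        · exact d1' i hi
        · exact d2' i hi
      have h6 : ¬ i < A := fun h7 => hAmin i h7 W hTB hbW hi1.1
      have h7 : ¬ B ≤ i := by
        intro h8
        have h9 := hBm i hi hi1.1
        have h10 : i = B := le_antisymm h9 h8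
        by_cases h11 : i + 1 < n
        · have h12 := hBm _ h11 hi1.2
          omega
        · have h12 : i + 1 = n := by omega
          rw [h12, hun] at hi1
          exact hjW hi1.2
      rw [hδ, hg, if_neg h6, if_neg h7] at h5
      exact h5 rfl
    have h5 : ∑ v ∈ W, ∑ d ∈ G.st v, δ d = 0 := by
      have h6 : ({u A, u B} : Finset V) ⊆ W := by
        intro v hv
        rw [mem_insert, mem_singleton] at hv
        rcases hv with rfl | rfl
        · exact huA
        · exact huB
      have h7 : u A ≠ u B := fun h8 => by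
        have := hinj A hAn B hBn h8
        omega
      rw [← sum_subset h6, sum_pair h7, sA, sB]
      · norm_num
      · intro v hv hv2
        rw [mem_insert, mem_singleton, not_or] at hv2
        by_cases hvC : v ∈ C
        · obtain ⟨i, hi, rfl⟩ := hsur v hvC
          refine sz i ?_ hi ?_ ?_
          · by_contra h8
            have h9 : i = 0 := by omega
            rw [h9, hu0] at hv
            exact hjW hv
          · intro h8
            exact hv2.1 (by rw [h8])
          · intro h8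
            exact hv2.2 (by rw [h8])
        · exact d6 v hvC
    rw [h4, h5, sub_zero]
  · intro d hd h1 _
    by_contra h4
    exact (mem_sdiff.1 h1).2 (d3 d h4).2
  · intro _
    rw [hβ W hjW]
  · intro X hX ho hX3 hor
    rcases (h.low hb hmin hX ho).2 hX3 with (⟨v, hv, rfl⟩ | hDig) | ⟨hXT, hXb⟩
    rotate_left
    · exact h.dig_ok hb hmin hTB d4 g2 g4 g6 hX hDig hX3 hor
    rotate_right
    · rcases hor with h4 | h4
      · rw [valA_one]
        have hvW : v ∉ W := disjoint_singleton_left.1 h4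
        by_cases hvC : v ∈ C
        · obtain ⟨i, hi, rfl⟩ := hsur v hvC
          by_cases hi0 : i = 0
          · rw [hi0, s0, hu0, if_pos rfl]
            norm_num
          · have h4 : u i ≠ G.pi j := by
              intro h4
              rw [← hu0] at h4
              exact hi0 (hinj i hi 0 hnpos h4)
            rw [if_neg h4, add_zero]
            refine sz i (by omega) hi ?_ ?_
            · intro h5
              exact hvW (by rw [h5]; exact huA)
            · intro h5
              exact hvW (by rw [h5]; exact huB)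
        · have h4 : v ≠ G.pi j := fun h5 => hvC (by rw [h5]; exact h.jx)
          rw [if_neg h4, add_zero]
          exact d6 v hvC
      · exfalso
        have h5 := card_le_card h4
        rw [card_singleton] at h5
        omega
    · unfold MG.val
      rw [hβ X (hnx X hXT hXb), add_zero]
      rcases hor with h4 | h4
      · refine sum_nonneg fun d hd => ?_
        by_contra h5
        push Not at h5
        exact disjoint_left.1 h4 (hcross X hXT hXb d hd h5).2 huA
      · -- the circuit leaves `X` after `u B`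
        have hex2 : ∃ k, B ≤ k ∧ u k ∉ X := ⟨n, hBn.le, by rw [hun]; exact hnx X hXT hXb⟩
        set k := Nat.find hex2 with hk
        obtain ⟨hk1, hk2⟩ := Nat.find_spec hex2
        rw [← hk] at hk1 hk2
        have hkn : k ≤ n := Nat.find_min' hex2 ⟨hBn.le, by rw [hun]; exact hnx X hXT hXb⟩
        have hkB : k ≠ B := fun h5 => hk2 (by rw [h5]; exact h4 huB)
        have hk3 : u (k - 1) ∈ X := by
          by_contra h5
          exact Nat.find_min hex2 (show k - 1 < k by omega) ⟨by omega, h5⟩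
        set d2 := r ((k - 1 : ℕ) : ZMod n) with hd2
        have hk4 : k - 1 + 1 = k := by omega
        have hd2b : d2 ∈ G.bd X := by
          refine mem_bd.2 ⟨hF.Fsub (hr.memF _), ?_, ?_⟩
          · rw [hd2, ← hu]
            exact hk3
          · rw [hd2, hunx, hk4]
            exact hk2
        have hodd : Odd (k - 1) := by
          rw [← Nat.not_even_iff_odd]
          intro hev
          have h5 := (halt (k - 1)).1 hev
          exact (mem_bd.1 hd2b).2.2 (bc_zero hP1s hXT.b1 h5 (mem_bd.1 hd2b).2.1)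
        have hδ2 : δ d2 = 1 := by
          rw [hd2, d1' (k - 1) (by omega), hg, if_neg (by omega), if_pos (by omega),
            hodd.neg_one_pow]
          norm_num
        set d1 := G.al (r ((A - 1 : ℕ) : ZMod n)) with hd1
        have hδ1 : δ d1 = -1 := by
          rw [hd1, d2' (A - 1) (by omega), hg, if_pos (by omega)]
          have h1 : Odd (A - 1) := by
            obtain ⟨l, hl⟩ := hAev
            exact ⟨l - 1, by omega⟩
          exact h1.neg_one_pow
        have hA1 : A - 1 + 1 = A := by omega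
        have hd1b : d1 ∈ G.bd X := by
          refine mem_bd.2 ⟨G.al_mem _ (hF.Fsub (hr.memF _)), ?_, ?_⟩
          · rw [hd1, hunx, hA1]
            exact h4 huA
          · rw [hd1, G.al_al _ (hF.Fsub (hr.memF _)), ← hu]
            exact hAmin (A - 1) (by omega) X hXT hXb
        have hne : d1 ≠ d2 := by
          intro h5
          rw [h5, hδ2] at hδ1
          norm_num at hδ1
        have hsub : ({d1, d2} : Finset D) ⊆ G.bd X := by
          intro d hd
          rw [mem_insert, mem_singleton] at hd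
          rcases hd with rfl | rfl
          · exact hd1b
          · exact hd2b
        rw [← sum_sdiff hsub, sum_pair hne, hδ1, hδ2]
        have h5 : 0 ≤ ∑ d ∈ G.bd X \ {d1, d2}, δ d := by
          refine sum_nonneg fun d hd => ?_
          obtain ⟨h6, h7⟩ := mem_sdiff.1 hd
          by_contra h8
          push Not at h8
          apply h7
          rw [(hcross X hXT hXb d h6 h8).1]
          exact mem_insert_self _ _
        linarith
  · rw [sum_ite_eq' G.vs (G.pi j) (fun _ => -(2 : ℝ)), if_pos (G.pi_mem _ h.jd)]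
    norm_num

/-- **LEMMA A** (helper93): a set `W` with one unit outside the circuit which cuts no edge of `P1`
contains both ends of the leg -/
theorem LA.main (h : G.LA z t fr F ep m C P1 P2 j) {W : Finset V} (hW : W ⊆ G.vs)
    (ho : Odd W.card) (hc : G.cvv z t P1 P2 W = 1) (h1 : G.bc P1 W = 0) :
    G.pi j ∈ W ∧ G.pi (G.al j) ∈ W := by
  by_contra hnb
  have hTB : G.TB z t P1 P2 j W := ⟨hW, ho, hnb, hc, h1⟩
  obtain ⟨W0, hW0, hmin⟩ := exists_min_image
    (G.vs.powerset.filter fun W => G.TB z t P1 P2 j W) (fun W => G.bc P2 W)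
    ⟨W, mem_filter.2 ⟨mem_powerset.2 hW, hTB⟩⟩
  have hT0 := (mem_filter.1 hW0).2
  have hmin' : ∀ W, G.TB z t P1 P2 j W → G.bc P2 W0 ≤ G.bc P2 W := fun W hW =>
    hmin W (mem_filter.2 ⟨mem_powerset.2 hW.sub, hW⟩)
  have hb := (h.b4 hT0).1
  by_cases hx : ∃ W1, G.TB z t P1 P2 j W1 ∧ G.bc P2 W1 = G.bc P2 W0 ∧ G.pi j ∈ W1
  · obtain ⟨W1, h2, h3, h4⟩ := hx
    exact h.caseI hb hmin' h2 h3 h4
  · push Not at hx
    exact h.caseII hb hmin' hT0 rfl hx

end MG

end RH
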