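import Pool.Agent.Lib.RH.T6
import Pool.Agent.Lib.RH.Contr

/-! # Two exits (helper8, Lemma X; helper72)

`N` is a perfect matching of the support, `b` a vertex, `d1`, `d2` two darts at `b` outside `N`. Two
sets `W1`, `W2` of value 5 with one token, `b` inside, `d1` resp. `d2` leaving, the end of the other
dart inside, such that all other units leaving them are in `N`, cannot exist. -/

set_option autoImplicit false

namespace RH

open Finset Classical

namespace MG

variable {V D : Type*} {G : MG V D} {z : D → ℝ} {t : V → ℝ} {N : Finset D} {W W1 W2 : Finset V}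
variable {d1 d2 : D}

/-- the matching has one dart at a vertex -/
private theorem card_bd_single (hN : G.IsPM N) {v : V} (hv : v ∈ G.vs) :
    ((G.bd {v}).filter fun d => d ∈ N).card ≤ 1 := by
  rw [← hN.one v hv]
  refine card_le_card fun d hd => ?_
  obtain ⟨h1, h2⟩ := mem_filter.1 hd
  exact mem_filter.2 ⟨h2, mem_singleton.1 (mem_bd.1 h1).2.1⟩

/-- the case where `W1 \ W2` has value less than 5 -/
private theorem lemX_aux (hw : G.Wt z t) (hN : G.IsPM N) (he : Even G.vs.card)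
    (h1 : W1 ⊆ G.vs) (h2 : W2 ⊆ G.vs)
    (hd1 : d1 ∈ G.bd W1) (hd2 : d2 ∈ G.bd W2) (hb : G.pi d1 = G.pi d2)
    (he1 : G.pi (G.al d1) ∈ W2) (he2 : G.pi (G.al d2) ∈ W1) (z2 : z d2 = 1)
    (u1 : ∀ d ∈ G.bd W1, z d ≠ 0 → d ≠ d1 → d ∈ N ∧ z d = 1)
    (u2 : ∀ d ∈ G.bd W2, z d ≠ 0 → d ≠ d2 → d ∈ N ∧ z d = 1)
    (t0 : ∀ v ∈ W1 \ W2, t v = 0)
    (h5 : ∀ X ⊆ G.vs, Odd X.card → 3 ≤ X.card → 3 ≤ (G.vs \ X).card → 5 ≤ G.val z t X)
    (ho : Odd (W1 \ W2).card) (hlt : G.val z t (W1 \ W2) < 5) : False := by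
  obtain ⟨g1, g2, g3⟩ := mem_bd.1 hd1
  obtain ⟨k1, k2, k3⟩ := mem_bd.1 hd2
  have hP : W1 \ W2 ⊆ G.vs := sdiff_subset.trans h1
  have hb2 : G.pi (G.al d2) ∈ W1 \ W2 := mem_sdiff.2 ⟨he2, k3⟩
  have hcard : (W1 \ W2).card = 1 := by
    by_contra hne
    obtain ⟨k, hk⟩ := ho
    have hc : 3 ≤ (G.vs \ (W1 \ W2)).card := by
      have h6 := card_sdiff_add_card_eq_card hP
      obtain ⟨l, hl⟩ := he
      have h7 : 1 < (G.vs \ (W1 \ W2)).card := by
        rw [one_lt_card]
        refine ⟨G.pi d1, ?_, G.pi (G.al d1), ?_, ?_⟩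
        · refine mem_sdiff.2 ⟨h1 g2, fun h => ?_⟩
          rw [hb] at h
          exact (mem_sdiff.1 h).2 k2
        · exact mem_sdiff.2 ⟨h2 he1, fun h => (mem_sdiff.1 h).2 he1⟩
        · exact fun h => g3 (h ▸ g2)
      omega
    have := h5 _ hP ⟨k, hk⟩ (by omega) hc
    linarith
  obtain ⟨a, ha⟩ := card_eq_one.1 hcard
  have hab : a = G.pi (G.al d2) := by
    rw [ha, mem_singleton] at hb2
    exact hb2.symm
  have hav : a ∈ G.vs := hP (by rw [ha]; exact mem_singleton_self a)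
  have haP : ∀ v, v ∈ W1 → v ∉ W2 → v = a := by
    intro v hv1 hv2
    have h6 : v ∈ W1 \ W2 := mem_sdiff.2 ⟨hv1, hv2⟩
    rwa [ha, mem_singleton] at h6
  have hta : t a = 0 := t0 a (by rw [ha]; exact mem_singleton_self a)
  have hva : ∑ d ∈ G.bd {a}, z d = 3 := by
    have h6 := hw.val_single hav
    unfold val at h6
    rw [sum_singleton, hta, add_zero] at h6
    exact h6
  have ha1 : a ∈ W1 := by rw [hab]; exact he2
  have ha2 : a ∉ W2 := by rw [hab]; exact k3
  have hle : ∑ d ∈ G.bd {a}, z d ≤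
      ∑ d ∈ G.bd {a}, ((if d ∈ N then (1 : ℝ) else 0) + if d = G.al d2 then (1 : ℝ) else 0) := by
    refine sum_le_sum fun d hd => ?_
    obtain ⟨f1, f2, f3⟩ := mem_bd.1 hd
    rw [mem_singleton] at f2 f3
    by_cases hz : z d = 0
    · rw [hz]
      split_ifs <;> norm_num
    by_cases hW : G.pi (G.al d) ∈ W1
    · have hW2 : G.pi (G.al d) ∈ W2 := by
        by_contra h6
        exact f3 (haP _ hW h6)
      have h6 : G.al d ∈ G.bd W2 := by
        refine mem_bd.2 ⟨G.al_mem d f1, hW2, ?_⟩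
        rw [G.al_al d f1, f2]
        exact ha2
      by_cases h7 : G.al d = d2
      · have h8 : d = G.al d2 := by rw [← h7, G.al_al d f1]
        have h9 : z d = 1 := by rw [← hw.sym d f1, h7, z2]
        rw [if_pos h8, h9]
        split_ifs <;> norm_num
      · obtain ⟨h8, h9⟩ := u2 _ h6 (by rw [hw.sym d f1]; exact hz) h7
        have h10 : d ∈ N := by
          have := hN.closed _ h8
          rwa [G.al_al d f1] at this
        rw [hw.sym d f1] at h9
        rw [if_pos h10, h9]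
        split_ifs <;> norm_num
    · have h6 : d ∈ G.bd W1 := mem_bd.2 ⟨f1, by rw [f2]; exact ha1, hW⟩
      have h7 : d ≠ d1 := by
        rintro rfl
        rw [hb] at f2
        exact ha2 (f2 ▸ k2)
      obtain ⟨h8, h9⟩ := u1 _ h6 hz h7
      rw [if_pos h8, h9]
      split_ifs <;> norm_num
  rw [sum_add_distrib, ← sum_filter, ← sum_filter, sum_const, sum_const, nsmul_eq_mul,
    nsmul_eq_mul, mul_one, mul_one, hva] at hle
  have h6 := card_bd_single hN hav
  have h7 : ((G.bd {a}).filter fun d => d = G.al d2).card ≤ 1 := by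
    rw [card_le_one]
    intro x hx y hy
    rw [(mem_filter.1 hx).2, (mem_filter.1 hy).2]
  have h8 : (((G.bd {a}).filter fun d => d ∈ N).card : ℝ) ≤ 1 := by exact_mod_cast h6
  have h9 : (((G.bd {a}).filter fun d => d = G.al d2).card : ℝ) ≤ 1 := by exact_mod_cast h7
  linarith

/-- **LEMMA X (two exits)** -/
theorem lemX (hw : G.Wt z t) (hN : G.IsPM N) (hNz : ∀ d ∈ N, 0 < z d) (he : Even G.vs.card)
    (h6t : ∑ v ∈ G.vs, t v = 6)
    (h1 : W1 ⊆ G.vs) (h2 : W2 ⊆ G.vs) (o1 : Odd W1.card) (o2 : Odd W2.card)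
    (v1 : G.val z t W1 = 5) (v2 : G.val z t W2 = 5)
    (hd1 : d1 ∈ G.bd W1) (hd2 : d2 ∈ G.bd W2) (hb : G.pi d1 = G.pi d2)
    (he1 : G.pi (G.al d1) ∈ W2) (he2 : G.pi (G.al d2) ∈ W1)
    (z1 : z d1 = 1) (z2 : z d2 = 1) (n1 : d1 ∉ N) (n2 : d2 ∉ N)
    (u1 : ∀ d ∈ G.bd W1, z d ≠ 0 → d ≠ d1 → d ∈ N ∧ z d = 1)
    (u2 : ∀ d ∈ G.bd W2, z d ≠ 0 → d ≠ d2 → d ∈ N ∧ z d = 1)
    (t1 : ∑ v ∈ W1, t v = 1) (t2 : ∑ v ∈ W2, t v = 1) (t12 : ∑ v ∈ W1 ∩ W2, t v = 1)
    (h5 : ∀ X ⊆ G.vs, Odd X.card → 3 ≤ X.card → 3 ≤ (G.vs \ X).card → 5 ≤ G.val z t X) :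
    False := by
  obtain ⟨g1, g2, g3⟩ := mem_bd.1 hd1
  obtain ⟨k1, k2, k3⟩ := mem_bd.1 hd2
  have hD : W1 ∩ W2 ⊆ G.vs := inter_subset_left.trans h1
  have hU : W1 ∪ W2 ⊆ G.vs := union_subset h1 h2
  have hcu := card_union_add_card_inter W1 W2
  have h12 : G.pi (G.al d1) ≠ G.pi (G.al d2) := fun h => k3 (h ▸ he1)
  have hdd : d1 ≠ d2 := by
    rintro rfl
    exact h12 rfl
  rcases Nat.even_or_odd (W1 ∩ W2).card with hev | hod
  · -- the intersection is even
    have hp := hw.posimod h1 h2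
    have h7 : 0 ≤ ∑ d ∈ G.ed (W1 ∩ W2) (G.vs \ (W1 ∪ W2)), z d := hw.ed_nonneg _ _
    rw [v1, v2, t12] at hp
    have hs1 : ∀ v ∈ W1 \ W2, t v = 0 := by
      have h8 := sum_inter_add_sum_sdiff W1 W2 t
      have h9 : ∑ v ∈ W1 \ W2, t v = 0 := by linarith
      exact (sum_eq_zero_iff_of_nonneg fun v hv => hw.t0 v (h1 (mem_sdiff.1 hv).1)).1 h9
    have hs2 : ∀ v ∈ W2 \ W1, t v = 0 := by
      have h8 := sum_inter_add_sum_sdiff W2 W1 t
      rw [inter_comm] at h8
      have h9 : ∑ v ∈ W2 \ W1, t v = 0 := by linarith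
      exact (sum_eq_zero_iff_of_nonneg fun v hv => hw.t0 v (h2 (mem_sdiff.1 hv).1)).1 h9
    have c1 := card_sdiff_add_card_inter W1 W2
    have c2 := card_sdiff_add_card_inter W2 W1
    rw [inter_comm W2 W1] at c2
    have p1 : Odd (W1 \ W2).card := by
      rw [Nat.odd_iff] at o1 ⊢
      rw [Nat.even_iff] at hev
      omega
    have p2 : Odd (W2 \ W1).card := by
      rw [Nat.odd_iff] at o2 ⊢
      rw [Nat.even_iff] at hev
      omega
    by_cases hlt : G.val z t (W1 \ W2) < 5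
    · exact lemX_aux hw hN he h1 h2 hd1 hd2 hb he1 he2 z2 u1 u2 hs1 h5 p1 hlt
    · have hlt2 : G.val z t (W2 \ W1) < 5 := by
        rw [not_lt] at hlt
        linarith
      exact lemX_aux hw hN he h2 h1 hd2 hd1 hb.symm he2 he1 z1 u2 u1 hs2 h5 p2 hlt2
  · -- the intersection is odd
    have hsum : ∑ d ∈ G.bd (W1 ∩ W2), z d =
        (((G.bd (W1 ∩ W2)).filter fun d => d ∈ N).card : ℝ) + 2 := by
      have h7 : ∑ d ∈ G.bd (W1 ∩ W2), z d = ∑ d ∈ G.bd (W1 ∩ W2),
          ((if d ∈ N then (1 : ℝ) else 0) +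
            ((if d = d1 then (1 : ℝ) else 0) + if d = d2 then (1 : ℝ) else 0)) := by
        refine sum_congr rfl fun d hd => ?_
        obtain ⟨f1, f2, f3⟩ := mem_bd.1 hd
        obtain ⟨f4, f5⟩ := mem_inter.1 f2
        by_cases e1 : d = d1
        · subst e1
          rw [if_neg n1, if_pos rfl, if_neg hdd, z1]
          norm_num
        by_cases e2 : d = d2
        · subst e2
          rw [if_neg n2, if_neg e1, if_pos rfl, z2]
          norm_num
        rw [if_neg e1, if_neg e2]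
        by_cases hz : z d = 0
        · have h8 : d ∉ N := by
            intro h9
            have := hNz d h9
            rw [hz] at this
            exact lt_irrefl _ this
          rw [if_neg h8, hz]
          norm_num
        have h8 : d ∈ N ∧ z d = 1 := by
          by_cases h9 : G.pi (G.al d) ∈ W1
          · refine u2 d (mem_bd.2 ⟨f1, f5, fun h10 => f3 (mem_inter.2 ⟨h9, h10⟩)⟩) hz e2
          · exact u1 d (mem_bd.2 ⟨f1, f4, h9⟩) hz e1
        rw [if_pos h8.1, h8.2]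
        norm_num
      have hm1 : d1 ∈ G.bd (W1 ∩ W2) :=
        mem_bd.2 ⟨g1, mem_inter.2 ⟨g2, by rw [hb]; exact k2⟩, fun h => g3 (mem_inter.1 h).1⟩
      have hm2 : d2 ∈ G.bd (W1 ∩ W2) :=
        mem_bd.2 ⟨k1, mem_inter.2 ⟨by rw [← hb]; exact g2, k2⟩, fun h => k3 (mem_inter.1 h).2⟩
      rw [h7, sum_add_distrib, sum_add_distrib, ← sum_filter, sum_const, nsmul_eq_mul, mul_one,
        sum_ite_eq' , sum_ite_eq', if_pos hm1, if_pos hm2]
      norm_num
    have hpar := hN.parity hD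
    have hval : G.val z t (W1 ∩ W2) =
        (((G.bd (W1 ∩ W2)).filter fun d => d ∈ N).card : ℝ) + 3 := by
      unfold val
      rw [hsum, t12]
      ring
    have hUo : Odd (W1 ∪ W2).card := by
      rw [Nat.odd_iff] at o1 o2 hod ⊢
      omega
    by_cases hc : (W1 ∩ W2).card = 1
    · obtain ⟨a, ha⟩ := card_eq_one.1 hc
      have hav : a ∈ G.vs := hD (by rw [ha]; exact mem_singleton_self a)
      rw [ha, hw.val_single hav] at hval
      rw [ha, card_singleton] at hpar
      have h7 : ((G.bd {a}).filter fun d => d ∈ N).card = 0 := by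
        have h8 : (((G.bd {a}).filter fun d => d ∈ N).card : ℝ) = 0 := by linarith
        exact_mod_cast h8
      rw [h7] at hpar
      omega
    · have hD3 : 3 ≤ (W1 ∩ W2).card := by
        obtain ⟨k, hk⟩ := hod
        omega
      have hDc : 3 ≤ (G.vs \ (W1 ∩ W2)).card := by
        have h7 := card_sdiff_add_card_eq_card hD
        have h8 : 1 < (G.vs \ (W1 ∩ W2)).card := by
          rw [one_lt_card]
          exact ⟨_, mem_sdiff.2 ⟨h2 he1, fun h => g3 (mem_inter.1 h).1⟩, _,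
            mem_sdiff.2 ⟨h1 he2, fun h => k3 (mem_inter.1 h).2⟩, h12⟩
        rw [Nat.even_iff] at he
        rw [Nat.odd_iff] at hod
        omega
      have hUc : 3 ≤ (G.vs \ (W1 ∪ W2)).card := by
        have h7 := card_sdiff_add_card_eq_card hU
        by_contra hcon
        have h8 : (G.vs \ (W1 ∪ W2)).card = 1 := by
          rw [Nat.even_iff] at he
          rw [Nat.odd_iff] at hUo
          omega
        obtain ⟨a, ha⟩ := card_eq_one.1 h8
        have hav : a ∈ G.vs := by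
          have : a ∈ G.vs \ (W1 ∪ W2) := by rw [ha]; exact mem_singleton_self a
          exact (mem_sdiff.1 this).1
        have h9 := sum_sdiff hU (f := t)
        rw [ha, sum_singleton] at h9
        have h10 := sum_union_inter (s₁ := W1) (s₂ := W2) (f := t)
        have h11 := hw.deg a hav
        have h12 : 0 ≤ ∑ d ∈ G.st a, z d := sum_nonneg fun d hd => hw.z0 d (mem_st.1 hd).1
        linarith
      have h7 := h5 _ hD hod hD3 hDc
      have h8 := h5 _ hU hUo (hD3.trans (card_le_card (inter_subset_left.trans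
        subset_union_left))) hUc
      have h9 := hw.submod h1 h2
      have h10 : 0 ≤ ∑ d ∈ G.ed (W1 \ W2) (W2 \ W1), z d := hw.ed_nonneg _ _
      rw [v1, v2] at h9
      have h11 : G.val z t (W1 ∩ W2) = 5 := by linarith
      rw [h11] at hval
      have h13 : ((G.bd (W1 ∩ W2)).filter fun d => d ∈ N).card = 2 := by
        have h14 : (((G.bd (W1 ∩ W2)).filter fun d => d ∈ N).card : ℝ) = 2 := by linarith
        exact_mod_cast h14
      rw [h13] at hpar
      rw [Nat.odd_iff] at hod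
      omega

end MG

end RH
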