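import Pool.Agent.Lib.RH.St6U

/-! One step of the walk in a stuck state: the token of `y` goes over `b` to `b'` (helper64, 18). -/

set_option autoImplicit false

namespace RH

open Finset Classical

namespace MG

variable {V D : Type*} {G : MG V D} {z z' : D → ℝ} {t t' : V → ℝ} {fr fr' : Finset V}
variable {F : Finset D} {jm sx : Finset V} {ep : V → ℕ} {m a : ℕ} {W X : Finset V}

/-- the vector of the edge of the dart `e` -/
noncomputable def evec (G : MG V D) (e d : D) : ℝ := if d = e ∨ d = G.al e then 1 else 0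

theorem evec_self (e : D) : G.evec e e = 1 := if_pos (Or.inl rfl)

theorem evec_of_ne {e d : D} (h1 : d ≠ e) (h2 : d ≠ G.al e) : G.evec e d = 0 :=
  if_neg (not_or.2 ⟨h1, h2⟩)

theorem evec_nonneg (e d : D) : 0 ≤ G.evec e d := by
  unfold evec
  split_ifs <;> norm_num

theorem evec_sym {e d : D} (he : e ∈ G.ds) (hd : d ∈ G.ds) :
    G.evec e (G.al d) = G.evec e d := by
  unfold evec
  have h1 : (G.al d = e ∨ G.al d = G.al e) ↔ (d = e ∨ d = G.al e) := by
    constructor
    · rintro (h | h)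
      · right
        rw [← h, G.al_al d hd]
      · left
        rw [← G.al_al d hd, h, G.al_al e he]
    · rintro (h | h)
      · right
        rw [h]
      · left
        rw [h, G.al_al e he]
  simp only [h1]

/-- vertex sums of the vector of an edge -/
theorem evec_st {e : D} (he : e ∈ G.ds) (v : V) :
    ∑ d ∈ G.st v, G.evec e d =
      (if v = G.pi e then 1 else 0) + if v = G.pi (G.al e) then 1 else 0 := by
  have hne : e ≠ G.al e := fun h => G.noloop e he (congrArg G.pi h).symm
  have h2 : ∀ d, G.evec e d = (if d = e then (1 : ℝ) else 0) + (if d = G.al e then 1 else 0) := by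
    intro d
    unfold evec
    by_cases k1 : d = e
    · rw [if_pos (Or.inl k1), if_pos k1, if_neg (fun k2 => hne (k1.symm.trans k2)), add_zero]
    · by_cases k2 : d = G.al e
      · rw [if_pos (Or.inr k2), if_neg k1, if_pos k2, zero_add]
      · rw [if_neg (not_or.2 ⟨k1, k2⟩), if_neg k1, if_neg k2, zero_add]
  have h3 : e ∈ G.st v ↔ v = G.pi e :=
    ⟨fun k => (mem_st.1 k).2.symm, fun k => mem_st.2 ⟨he, k.symm⟩⟩
  have h4 : G.al e ∈ G.st v ↔ v = G.pi (G.al e) :=
    ⟨fun k => (mem_st.1 k).2.symm, fun k => mem_st.2 ⟨G.al_mem e he, k.symm⟩⟩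
  rw [sum_congr rfl fun d _ => h2 d, sum_add_distrib, sum_ite_eq', sum_ite_eq']
  simp only [h3, h4]

/-- boundary sums of the vector of an edge -/
theorem evec_bd {e : D} (he : e ∈ G.ds) (W : Finset V) :
    ∑ d ∈ G.bd W, G.evec e d =
      (if G.pi e ∈ W ∧ G.pi (G.al e) ∉ W then 1 else 0) +
        if G.pi (G.al e) ∈ W ∧ G.pi e ∉ W then 1 else 0 := by
  have hne : e ≠ G.al e := fun h => G.noloop e he (congrArg G.pi h).symm
  have h2 : ∀ d, G.evec e d = (if d = e then (1 : ℝ) else 0) + (if d = G.al e then 1 else 0) := by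
    intro d
    unfold evec
    by_cases k1 : d = e
    · rw [if_pos (Or.inl k1), if_pos k1, if_neg (fun k2 => hne (k1.symm.trans k2)), add_zero]
    · by_cases k2 : d = G.al e
      · rw [if_pos (Or.inr k2), if_neg k1, if_pos k2, zero_add]
      · rw [if_neg (not_or.2 ⟨k1, k2⟩), if_neg k1, if_neg k2, zero_add]
  have h3 : e ∈ G.bd W ↔ G.pi e ∈ W ∧ G.pi (G.al e) ∉ W :=
    ⟨fun k => (mem_bd.1 k).2, fun k => mem_bd.2 ⟨he, k⟩⟩
  have h4 : G.al e ∈ G.bd W ↔ G.pi (G.al e) ∈ W ∧ G.pi e ∉ W := by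
    rw [mem_bd, G.al_al e he]
    exact ⟨fun k => k.2, fun k => ⟨G.al_mem e he, k⟩⟩
  rw [sum_congr rfl fun d _ => h2 d, sum_add_distrib, sum_ite_eq', sum_ite_eq']
  simp only [h3, h4]

/-- the weights after the step: the edge of `e` (from `y` to `b`) is raised, the edge of `f` (from
`b` to `b'`) is lowered by 1 -/
noncomputable def wz (G : MG V D) (z : D → ℝ) (e f d : D) : ℝ := z d + G.evec e d - G.evec f d

/-- the tokens after the step -/
noncomputable def wtok (G : MG V D) (t : V → ℝ) (e f : D) (v : V) : ℝ :=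
  t v - (if v = G.pi e then 1 else 0) + if v = G.pi (G.al f) then 1 else 0

/-- the number of tokens does not change -/
theorem wtok_sum {e f : D} (he : e ∈ G.ds) (hf : f ∈ G.ds) :
    ∑ v ∈ G.vs, G.wtok t e f v = ∑ v ∈ G.vs, t v := by
  unfold wtok
  rw [sum_add_distrib, sum_sub_distrib, sum_ite_eq' G.vs (G.pi e) fun _ => (1 : ℝ),
    sum_ite_eq' G.vs (G.pi (G.al f)) fun _ => (1 : ℝ), if_pos (G.pi_mem e he),
    if_pos (G.pi_mem _ (G.al_mem f hf))]
  ring

/-- the values after the step -/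
theorem walk_val {e f : D} (he : e ∈ G.ds) (hf : f ∈ G.ds) (hef : G.pi f = G.pi (G.al e))
    (W : Finset V) :
    G.val (G.wz z e f) (G.wtok t e f) W = G.val z t W -
      (if G.pi e ∈ W ∧ G.pi f ∈ W ∧ G.pi (G.al f) ∉ W then 2 else 0) +
      if G.pi e ∉ W ∧ G.pi f ∈ W ∧ G.pi (G.al f) ∈ W then 2 else 0 := by
  unfold val wz wtok
  rw [sum_sub_distrib, sum_add_distrib, evec_bd he, evec_bd hf, sum_add_distrib,
    sum_sub_distrib, sum_ite_eq' W (G.pi e) fun _ => (1 : ℝ),
    sum_ite_eq' W (G.pi (G.al f)) fun _ => (1 : ℝ), ← hef]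
  by_cases h1 : G.pi e ∈ W <;> by_cases h2 : G.pi f ∈ W <;> by_cases h3 : G.pi (G.al f) ∈ W <;>
    simp [h1, h2, h3] <;> ring

/-- the weights after the step are valid if the sets with `y`, `b` inside and `b'` outside have
value at least 5 -/
theorem walk_wt (hw : G.Wt z t) {e f : D} (he : e ∈ G.ds) (hf : f ∈ G.ds)
    (hef : G.pi f = G.pi (G.al e)) (hzf : 1 ≤ z f) (ht : 1 ≤ t (G.pi e))
    (h5 : ∀ W ⊆ G.vs, Odd W.card → G.pi e ∈ W → G.pi f ∈ W → G.pi (G.al f) ∉ W →
      5 ≤ G.val z t W) :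
    G.Wt (G.wz z e f) (G.wtok t e f) where
  z0 := fun d hd => by
    have h0 := hw.z0 d hd
    have h1 := evec_nonneg (G := G) e d
    unfold wz
    by_cases h2 : d = f ∨ d = G.al f
    · have h3 : 1 ≤ z d := by
        rcases h2 with h2 | h2
        · rw [h2]
          exact hzf
        · rw [h2, hw.sym f hf]
          exact hzf
      have h4 : G.evec f d = 1 := if_pos h2
      linarith
    · have h4 : G.evec f d = 0 := if_neg h2
      linarith
  t0 := fun v hv => by
    have h0 := hw.t0 v hv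
    unfold wtok
    split_ifs with h1 h2 h2
    · rw [h1]
      linarith
    · rw [h1]
      linarith
    · linarith
    · linarith
  sym := fun d hd => by
    unfold wz
    rw [evec_sym he hd, evec_sym hf hd, hw.sym d hd]
  deg := fun v hv => by
    have h1 := hw.deg v hv
    unfold wz wtok
    rw [sum_sub_distrib, sum_add_distrib, evec_st he, evec_st hf, ← hef]
    linarith
  cut := fun W hW ho => by
    rw [walk_val he hf hef W]
    have h1 := hw.cut W hW ho
    by_cases h2 : G.pi e ∈ W ∧ G.pi f ∈ W ∧ G.pi (G.al f) ∉ W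
    · have h3 := h5 W hW ho h2.1 h2.2.1 h2.2.2
      rw [if_pos h2]
      split_ifs <;> linarith
    · rw [if_neg h2]
      split_ifs <;> linarith

/-- ONE STEP inside the part outside `fr` -/
theorem StkU.walk (h : StkU G z t fr F jm ep m a) {e f : D} (he : e ∈ G.ds) (hf : f ∈ G.ds)
    (hef : G.pi f = G.pi (G.al e)) (hy : G.pi e ∉ fr) (hb : G.pi f ∉ fr)
    (hb' : G.pi (G.al f) ∉ fr) (hze : 0 < z e) (hzf : 1 ≤ z f) (ht : 1 ≤ t (G.pi e))
    (h5 : ∀ W ⊆ G.vs, Odd W.card → G.pi e ∈ W → G.pi f ∈ W → G.pi (G.al f) ∉ W →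
      5 ≤ G.val z t W) :
    StkU G (G.wz z e f) (G.wtok t e f) fr F jm ep m a := by
  refine h.alt (walk_wt h.wt he hf hef hzf ht h5) ?_ ?_
  · intro d hd hz
    by_cases h1 : d = e ∨ d = G.al e
    · rcases h1 with h1 | h1
      · rwa [h1]
      · rw [h1, h.wt.sym e he]
        exact hze
    · have h2 : G.evec e d = 0 := if_neg h1
      have h3 := evec_nonneg (G := G) f d
      have h4 : 0 < z d + G.evec e d - G.evec f d := hz
      linarith
  · intro d hd hp
    have h1 : G.evec e d = 0 := evec_of_ne (fun k => hy (k ▸ hp))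
      (fun k => hb (by rw [hef, ← k]; exact hp))
    have h2 : G.evec f d = 0 := evec_of_ne (fun k => hb (k ▸ hp)) (fun k => hb' (k ▸ hp))
    show z d + G.evec e d - G.evec f d = 1
    rw [h1, h2, h.unit d hd hp]
    ring

/-- ONE STEP into a fresh class `C`: the leg `f` is killed, the class is absorbed (with the star,
if the star meets `C`) -/
theorem StkU.walkF (h : StkU G z t fr F jm ep m a) {e f : D} (he : e ∈ G.ds) (hf : f ∈ G.ds)
    (hef : G.pi f = G.pi (G.al e)) (hy : G.pi e ∉ fr) (hb : G.pi f ∉ fr)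
    (hze : 0 < z e) (ht : 1 ≤ t (G.pi e))
    (h5 : ∀ W ⊆ G.vs, Odd W.card → G.pi e ∈ W → G.pi f ∈ W → G.pi (G.al f) ∉ W →
      5 ≤ G.val z t W)
    {C : Finset V} (hb' : G.pi (G.al f) ∈ C) (hC : G.Adm fr F C)
    (hmin : ∀ X, G.Adm fr F X → (X ∩ C).Nonempty → C ⊆ X) :
    ∃ fr', fr' ⊆ fr \ C ∧ (∀ d ∈ F, G.pi d ∈ fr' → G.pi (G.al d) ∈ fr') ∧
      ((Disjoint jm C → jm ⊆ fr') ∧ (¬ Disjoint jm C → Disjoint jm fr')) ∧
      (∀ X, G.Adm fr F X → Disjoint X C → (Disjoint X jm ∨ Disjoint jm C) → X ⊆ fr') ∧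
      StkU G (G.wz z e f) (G.wtok t e f) fr' (F.filter fun d => G.pi d ∈ fr') (jm ∩ fr')
        ep m a := by
  have hFr := h.toT.fresh
  have haf := G.al_mem f hf
  have hb'fr := hC.sub hb'
  have hzaf : z (G.al f) = 1 := h.unit _ haf hb'fr
  have hzf : z f = 1 := by rw [← hzaf, h.wt.sym f hf]
  obtain ⟨B, hB⟩ : ∃ B : Finset V, B = C ∪ if Disjoint jm C then ∅ else jm := ⟨_, rfl⟩
  have hCB : C ⊆ B := by
    rw [hB]
    exact subset_union_left
  obtain ⟨fr', hs, hcl, hd, hadm⟩ := exists_avoid G fr F B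
  -- which unions are inside
  have hin : ∀ X, G.Adm fr F X → Disjoint X B → X ⊆ fr' := fun X hX hXB =>
    ((hadm X).2 ⟨hX, hXB⟩).sub
  have hsub : fr' ⊆ fr \ C := fun v hv => mem_sdiff.2
    ⟨hs hv, fun h1 => disjoint_left.1 hd hv (hCB h1)⟩
  have hj1 : Disjoint jm C → jm ⊆ fr' := by
    intro h1 v hv
    refine hin _ (hFr.adm_compl hC) ?_ (mem_sdiff.2
      ⟨hFr.jms hv, fun h3 => disjoint_left.1 h1 hv h3⟩)
    rw [hB, if_pos h1, union_empty]
    exact sdiff_disjoint
  have hj2 : ¬ Disjoint jm C → Disjoint jm fr' := by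
    intro h1
    rw [disjoint_left]
    intro v hv hv'
    refine disjoint_left.1 hd hv' ?_
    rw [hB, if_neg h1]
    exact mem_union_right _ hv
  refine ⟨fr', hsub, hcl, ⟨hj1, hj2⟩, ?_, ?_⟩
  · intro X hX hXC hXj
    refine hin X hX ?_
    rw [hB, disjoint_union_right]
    refine ⟨hXC, ?_⟩
    split_ifs with h1
    · exact disjoint_empty_right _
    · rcases hXj with h2 | h2
      · exact h2
      · exact absurd h2 h1
  · refine h.step (walk_wt h.wt he hf hef hzf.ge ht h5) ?_ hs hcl ?_ ?_ ?_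
    · intro d hd' hz
      by_cases h1 : d = e ∨ d = G.al e
      · rcases h1 with h1 | h1
        · rwa [h1]
        · rw [h1, h.wt.sym e he]
          exact hze
      · have h2 : G.evec e d = 0 := if_neg h1
        have h3 := evec_nonneg (G := G) f d
        have h4 : 0 < z d + G.evec e d - G.evec f d := hz
        linarith
    · by_cases h1 : Disjoint jm C
      · exact Or.inl (hj1 h1)
      · exact Or.inr (hj2 h1)
    · intro X hX hev hXf
      have hXB : ¬ Disjoint X B := fun h1 => hXf (hin X hX h1)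
      have hXC : (X ∩ C).Nonempty := by
        rw [not_disjoint_iff] at hXB
        obtain ⟨v, hv, hvB⟩ := hXB
        rw [hB, mem_union] at hvB
        rcases hvB with h1 | h1
        · exact ⟨v, mem_inter.2 ⟨hv, h1⟩⟩
        · by_cases h2 : Disjoint jm C
          · rw [if_pos h2] at h1
            exact absurd h1 (notMem_empty _)
          · rw [if_neg h2] at h1
            -- the star is inside `X`
            have h3 : 0 < (X ∩ jm).card := card_pos.2 ⟨v, mem_inter.2 ⟨hv, h1⟩⟩
            have h4 : jm.card = 2 := by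
              rcases h.comb.jm2 with h4 | h4
              · rw [h4] at h1
                exact absurd h1 (notMem_empty _)
              · exact h4
            have h5 : (X ∩ jm).card ≤ jm.card := card_le_card inter_subset_right
            rw [Nat.even_iff] at hev
            have h6 : X ∩ jm = jm := eq_of_subset_of_card_le inter_subset_right (by omega)
            rw [not_disjoint_iff] at h2
            obtain ⟨u, hu, huC⟩ := h2
            rw [← h6] at hu
            exact ⟨u, mem_inter.2 ⟨(mem_inter.1 hu).1, huC⟩⟩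
      have hCX := hmin X hX hXC
      refine ⟨G.al f, mem_bd.2 ⟨haf, hCX hb', ?_⟩, ?_⟩
      · rw [G.al_al f hf]
        exact fun h1 => hb (hX.sub h1)
      · have h1 : G.evec e (G.al f) = 0 := evec_of_ne (fun k => hy (by rw [← k]; exact hb'fr))
          (fun k => hb (by rw [hef, ← k]; exact hb'fr))
        have h2 : G.evec f (G.al f) = 1 := if_pos (Or.inr rfl)
        show z (G.al f) + G.evec e (G.al f) - G.evec f (G.al f) = 0
        rw [h1, h2, hzaf]
        ring
    · intro d hd' hp
      have hp' := hs hp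
      have h1 : G.evec e d = 0 := evec_of_ne (fun k => hy (k ▸ hp'))
        (fun k => hb (by rw [hef, ← k]; exact hp'))
      have h2 : G.evec f d = 0 := evec_of_ne (fun k => hb (k ▸ hp')) (fun k => by
        rw [k] at hp
        exact disjoint_left.1 hd hp (hCB hb'))
      show z d + G.evec e d - G.evec f d = 1
      rw [h1, h2, h.unit d hd' hp']
      ring

/-- the weights stay integers -/
theorem wz_int {e f : D} (hz : ∀ d ∈ G.ds, ∃ k : ℤ, z d = k) :
    ∀ d ∈ G.ds, ∃ k : ℤ, G.wz z e f d = k := by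
  intro d hd
  obtain ⟨k, hk⟩ := hz d hd
  unfold wz evec
  rw [hk]
  split_ifs
  · exact ⟨k + 1 - 1, by push_cast; ring⟩
  · exact ⟨k + 1, by push_cast; ring⟩
  · exact ⟨k - 1, by push_cast; ring⟩
  · exact ⟨k, by ring⟩

end MG

end RH
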