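import Pool.Agent.Lib.RH.LemX
import Pool.Agent.Lib.RH.StWalk

/-! # Two exits: the walk step (helper8, Lemma X; helper72)

`Term`: terminal states. `term_shape`: the shape of a tight set whose contraction is terminal.
`two_exits`: of two steps `(y, b, b1)`, `(y, b, b2)` which both avoid a perfect matching of the support
at most one leads to a terminal contraction. -/

set_option autoImplicit false

namespace RH

open Finset Classical

namespace MG

variable {V D : Type*}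

/-- terminal: the support is bipartite, `|I| = |S| + 2`, all tokens are in `I` -/
def Term (G : MG V D) (z : D → ℝ) (t : V → ℝ) : Prop :=
  ∃ I S : Finset V, I ∪ S = G.vs ∧ Disjoint I S ∧ I.card = S.card + 2 ∧
    (∀ d ∈ G.ds, 0 < z d → (G.pi d ∈ I ↔ G.pi (G.al d) ∈ S)) ∧ ∀ v ∈ S, t v = 0

variable {G : MG V D} {z z' : D → ℝ} {t t' : V → ℝ} {N : Finset D} {W W1 W2 : Finset V} {ω : V}

/-- six tokens, no tight sets, connected: a perfect matching or terminal -/
theorem pm_or_term (he : Even G.vs.card) (hw : G.Wt z t) (ht : ∑ v ∈ G.vs, t v ≤ 6)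
    (hnt : ∀ X ⊆ G.vs, Odd X.card → 3 ≤ X.card → G.val z t X ≠ 3)
    (hcon : ∀ X ⊆ G.vs, Even X.card → X.Nonempty → X ≠ G.vs → G.val z t X ≠ 0) :
    (∃ M, G.IsPM M ∧ ∀ d ∈ M, 0 < z d) ∨ G.Term z t := by
  by_cases h : ∃ M, G.IsPM M ∧ ∀ d ∈ M, 0 < z d
  · exact Or.inl h
  · exact Or.inr (terminal G z t he hw ht h hnt hcon)

/-- terminal states have no perfect matching in the support -/
theorem Term.no_pm (h : G.Term z t) : ¬ ∃ M, G.IsPM M ∧ ∀ d ∈ M, 0 < z d := by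
  rintro ⟨M, hM, hp⟩
  obtain ⟨I, S, hIS, hd, hc, hb, -⟩ := h
  have hI : I ⊆ G.vs := by
    rw [← hIS]
    exact subset_union_left
  have hS : S ⊆ G.vs := by
    rw [← hIS]
    exact subset_union_right
  have h1 : (M.filter fun d => G.pi d ∈ I).card = I.card := by
    rw [card_eq_sum_card_fiberwise (f := G.pi) (s := M.filter fun d => G.pi d ∈ I) (t := I)
      (fun d hd => (mem_filter.1 (mem_coe.1 hd)).2)]
    rw [card_eq_sum_ones]
    refine sum_congr rfl fun v hv => ?_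
    rw [← hM.one v (hI hv), filter_filter]
    congr 1
    ext d
    rw [mem_filter, mem_filter]
    constructor
    · rintro ⟨h2, -, h3⟩
      exact ⟨h2, h3⟩
    · rintro ⟨h2, h3⟩
      exact ⟨h2, by rw [h3]; exact hv, h3⟩
  have h2 : (M.filter fun d => G.pi d ∈ S).card = S.card := by
    rw [card_eq_sum_card_fiberwise (f := G.pi) (s := M.filter fun d => G.pi d ∈ S) (t := S)
      (fun d hd => (mem_filter.1 (mem_coe.1 hd)).2)]
    rw [card_eq_sum_ones]
    refine sum_congr rfl fun v hv => ?_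
    rw [← hM.one v (hS hv), filter_filter]
    congr 1
    ext d
    rw [mem_filter, mem_filter]
    constructor
    · rintro ⟨h2, -, h3⟩
      exact ⟨h2, h3⟩
    · rintro ⟨h2, h3⟩
      exact ⟨h2, by rw [h3]; exact hv, h3⟩
  have h3 : (M.filter fun d => G.pi d ∈ I).card ≤ (M.filter fun d => G.pi d ∈ S).card := by
    refine card_le_card_of_injOn G.al ?_ ?_
    · intro d hd
      obtain ⟨h4, h5⟩ := mem_filter.1 (mem_coe.1 hd)
      exact mem_coe.2 (mem_filter.2 ⟨hM.closed d h4, (hb d (hM.sub h4) (hp d h4)).1 h5⟩)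
    · intro d hd d' hd' h4
      have h5 := hM.sub (mem_filter.1 (mem_coe.1 hd)).1
      have h6 := hM.sub (mem_filter.1 (mem_coe.1 hd')).1
      rw [← G.al_al d h5, ← G.al_al d' h6, h4]
  omega

/-- **the shape of a tight set whose contraction is terminal** -/
theorem term_shape (hω : ω ∈ W) (hW : W ⊆ G.vs) (hw : G.Wt z' t')
    (h3 : G.val z' t' W = 3) (hN : G.IsPM N) (hN1 : ∀ d ∈ N, 1 ≤ z' d)
    (hT : (G.con W ω hω hW).Term z' (tcon t' W ω)) :
    (∀ v ∈ W, t' v = 0) ∧ ∀ d ∈ G.bd W, z' d ≠ 0 → d ∈ N ∧ z' d = 1 := by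
  obtain ⟨I, S, hIS, hdis, hc, hb, ht⟩ := hT
  obtain ⟨H, hH⟩ : ∃ H : MG V D, H = G.con W ω hω hW := ⟨_, rfl⟩
  rw [← hH] at hIS hb
  have hpi : ∀ d, H.pi d = if G.pi d ∈ W then ω else G.pi d := fun d => by rw [hH]; rfl
  have hal : ∀ d, H.al d = G.al d := fun d => by rw [hH]; rfl
  have hds : ∀ d, d ∈ H.ds ↔ d ∈ G.ds ∧ ¬ (G.pi d ∈ W ∧ G.pi (G.al d) ∈ W) := by
    intro d
    rw [hH]
    exact mem_filter
  have hvs : ∀ v, v ∈ H.vs ↔ (v ∈ G.vs ∧ v ∉ W) ∨ v = ω := by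
    intro v
    rw [hH]
    simp only [con, mem_union, mem_sdiff, mem_singleton]
  obtain ⟨N', hN'⟩ : ∃ N' : Finset D, N' = N.filter fun d => ¬ (G.pi d ∈ W ∧ G.pi (G.al d) ∈ W) :=
    ⟨_, rfl⟩
  have mN : ∀ d, d ∈ N' ↔ d ∈ N ∧ ¬ (G.pi d ∈ W ∧ G.pi (G.al d) ∈ W) := by
    intro d
    rw [hN', mem_filter]
  have hNH : ∀ d ∈ N', d ∈ H.ds := fun d hd => (hds d).2 ⟨hN.sub ((mN d).1 hd).1, ((mN d).1 hd).2⟩
  have hNal : ∀ d ∈ N', G.al d ∈ N' := by
    intro d hd
    obtain ⟨h1, h2⟩ := (mN d).1 hd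
    refine (mN _).2 ⟨hN.closed d h1, fun h4 => h2 ?_⟩
    rw [G.al_al d (hN.sub h1)] at h4
    exact ⟨h4.2, h4.1⟩
  have hpos : ∀ d ∈ N', 0 < z' d := fun d hd => by
    have := hN1 d ((mN d).1 hd).1
    linarith
  obtain ⟨k, hk⟩ : ∃ k : ℕ, k = ((G.bd W).filter fun d => d ∈ N).card := ⟨_, rfl⟩
  -- number of matching darts at a vertex of the contraction
  have hfib : ∀ v ∈ H.vs, (N'.filter fun d => H.pi d = v).card = if v = ω then k else 1 := by
    intro v hv
    by_cases hvω : v = ω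
    · rw [if_pos hvω, hk, hvω]
      congr 1
      ext d
      rw [mem_filter, mem_filter, mem_bd, mN, hpi]
      constructor
      · rintro ⟨⟨h1, h2⟩, h4⟩
        have h5 : G.pi d ∈ W := by
          by_contra h6
          rw [if_neg h6] at h4
          exact h6 (h4 ▸ hω)
        exact ⟨⟨hN.sub h1, h5, fun h6 => h2 ⟨h5, h6⟩⟩, h1⟩
      · rintro ⟨⟨h1, h2, h4⟩, h5⟩
        exact ⟨⟨h5, fun h6 => h4 h6.2⟩, by rw [if_pos h2]⟩
    · rw [if_neg hvω]
      rcases (hvs v).1 hv with ⟨h1, h2⟩ | h1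
      · rw [← hN.one v h1]
        congr 1
        ext d
        rw [mem_filter, mem_filter, mN, hpi]
        constructor
        · rintro ⟨⟨h4, h5⟩, h6⟩
          by_cases h7 : G.pi d ∈ W
          · rw [if_pos h7] at h6
            exact absurd h6.symm hvω
          · rw [if_neg h7] at h6
            exact ⟨h4, h6⟩
        · rintro ⟨h4, h5⟩
          have h6 : G.pi d ∉ W := by rw [h5]; exact h2
          exact ⟨⟨h4, fun h7 => h6 h7.1⟩, by rw [if_neg h6]; exact h5⟩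
      · exact absurd h1 hvω
  have hcount : ∀ X ⊆ H.vs, (N'.filter fun d => H.pi d ∈ X).card =
      ∑ v ∈ X, if v = ω then k else 1 := by
    intro X hX
    rw [card_eq_sum_card_fiberwise (f := H.pi) (s := N'.filter fun d => H.pi d ∈ X) (t := X)
      (fun d hd => (mem_filter.1 (mem_coe.1 hd)).2)]
    refine sum_congr rfl fun v hv => ?_
    rw [← hfib v (hX hv), filter_filter]
    congr 1
    ext d
    rw [mem_filter, mem_filter]
    constructor
    · rintro ⟨h2, -, h3⟩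
      exact ⟨h2, h3⟩
    · rintro ⟨h2, h3⟩
      exact ⟨h2, by rw [h3]; exact hv, h3⟩
  have hIH : I ⊆ H.vs := by
    rw [← hIS]
    exact subset_union_left
  have hSH : S ⊆ H.vs := by
    rw [← hIS]
    exact subset_union_right
  have hequal : (N'.filter fun d => H.pi d ∈ I).card = (N'.filter fun d => H.pi d ∈ S).card := by
    refine card_bij (fun d _ => G.al d) ?_ ?_ ?_
    · intro d hd
      obtain ⟨h4, h5⟩ := mem_filter.1 hd
      refine mem_filter.2 ⟨hNal d h4, ?_⟩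
      have h6 := (hb d (hNH d h4) (hpos d h4)).1 h5
      rwa [hal] at h6
    · intro d hd d' hd' h4
      have h5 := hN.sub ((mN d).1 (mem_filter.1 hd).1).1
      have h6 := hN.sub ((mN d').1 (mem_filter.1 hd').1).1
      rw [← G.al_al d h5, ← G.al_al d' h6, h4]
    · intro d hd
      obtain ⟨h4, h5⟩ := mem_filter.1 hd
      refine ⟨G.al d, mem_filter.2 ⟨hNal d h4, ?_⟩, G.al_al d (hN.sub ((mN d).1 h4).1)⟩
      have h6 := (hb (G.al d) (hNH _ (hNal d h4)) (hpos _ (hNal d h4))).2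
      rw [hal, G.al_al d (hN.sub ((mN d).1 h4).1)] at h6
      exact h6 h5
  rw [hcount I hIH, hcount S hSH] at hequal
  have hωH : ω ∈ H.vs := (hvs ω).2 (Or.inr rfl)
  have hsumX : ∀ X : Finset V, (∑ v ∈ X, if v = ω then k else 1) =
      (X.erase ω).card + if ω ∈ X then k else 0 := by
    intro X
    by_cases h4 : ω ∈ X
    · rw [if_pos h4, ← sum_erase_add X _ h4, if_pos rfl]
      congr 1
      rw [card_eq_sum_ones]
      exact sum_congr rfl fun v hv => if_neg (ne_of_mem_erase hv)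
    · rw [if_neg h4, erase_eq_of_notMem h4, add_zero, card_eq_sum_ones]
      refine sum_congr rfl fun v hv => if_neg ?_
      rintro rfl
      exact h4 hv
  rw [hsumX, hsumX] at hequal
  have hkey : ω ∈ S ∧ k = 3 := by
    rw [← hIS, mem_union] at hωH
    rcases hωH with h4 | h4
    · exfalso
      have h5 : ω ∉ S := fun h6 => disjoint_left.1 hdis h4 h6
      rw [if_pos h4, if_neg h5, erase_eq_of_notMem h5, card_erase_of_mem h4] at hequal
      have h6 := card_pos.2 ⟨ω, h4⟩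
      omega
    · have h5 : ω ∉ I := fun h6 => disjoint_left.1 hdis h6 h4
      rw [if_neg h5, if_pos h4, erase_eq_of_notMem h5, card_erase_of_mem h4] at hequal
      have h6 := card_pos.2 ⟨ω, h4⟩
      exact ⟨h4, by omega⟩
  obtain ⟨hωS, hk3⟩ := hkey
  have ht0 := ht ω hωS
  unfold tcon at ht0
  rw [if_pos rfl] at ht0
  have htW := (sum_eq_zero_iff_of_nonneg fun v hv => hw.t0 v (hW hv)).1 ht0
  refine ⟨htW, ?_⟩
  have hsum : ∑ d ∈ G.bd W, z' d = 3 := by
    unfold val at h3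
    rw [ht0, add_zero] at h3
    exact h3
  -- compare with the indicator of `N`
  have hge : ∀ d ∈ G.bd W, 0 ≤ z' d - if d ∈ N then 1 else 0 := by
    intro d hd
    split_ifs with h4
    · have := hN1 d h4
      linarith
    · have := hw.z0 d (mem_bd.1 hd).1
      linarith
  have hz : ∑ d ∈ G.bd W, (z' d - if d ∈ N then 1 else 0) = 0 := by
    rw [sum_sub_distrib, ← sum_filter, sum_const, nsmul_eq_mul, mul_one, ← hk, hk3, hsum]
    norm_num
  intro d hd hne
  have h4 := (sum_eq_zero_iff_of_nonneg hge).1 hz d hd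
  by_cases h5 : d ∈ N
  · rw [if_pos h5] at h4
    exact ⟨h5, by linarith⟩
  · rw [if_neg h5, sub_zero] at h4
    exact absurd h4 hne

/-- the weights after a step are valid -/
theorem walk_wt6 (hw : G.Wt z t) (he : Even G.vs.card) (h6 : ∑ v ∈ G.vs, t v = 6)
    (h5 : ∀ X ⊆ G.vs, Odd X.card → 3 ≤ X.card → 3 ≤ (G.vs \ X).card → 5 ≤ G.val z t X)
    {e f : D} (hee : e ∈ G.ds) (hf : f ∈ G.ds) (hef : G.pi f = G.pi (G.al e)) (hzf : 1 ≤ z f)
    (ht : 1 ≤ t (G.pi e)) : G.Wt (G.wz z e f) (G.wtok t e f) := by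
  refine walk_wt hw hee hf hef hzf ht fun W hW ho hy hb hb' => ?_
  have hne : G.pi e ≠ G.pi f := by
    rw [hef]
    exact fun h => G.noloop e hee h.symm
  have h3 : 3 ≤ W.card := by
    have h7 : 1 < W.card := one_lt_card.2 ⟨_, hy, _, hb, hne⟩
    obtain ⟨k, hk⟩ := ho
    omega
  have hbv : G.pi (G.al f) ∈ G.vs := G.pi_mem _ (G.al_mem f hf)
  have hpos : 0 < (G.vs \ W).card := card_pos.2 ⟨_, mem_sdiff.2 ⟨hbv, hb'⟩⟩
  have hcc := card_sdiff_add_card_eq_card hW
  by_cases h8 : (G.vs \ W).card = 1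
  · obtain ⟨a, ha⟩ := card_eq_one.1 h8
    have hab : a = G.pi (G.al f) := by
      have h9 : G.pi (G.al f) ∈ G.vs \ W := mem_sdiff.2 ⟨hbv, hb'⟩
      rw [ha, mem_singleton] at h9
      exact h9.symm
    have h9 := sum_sdiff hW (f := t)
    rw [ha, sum_singleton, h6] at h9
    have h10 := hw.val_compl hW
    rw [ha, h6] at h10
    rw [hw.val_single (by rw [hab]; exact hbv)] at h10
    have h11 := hw.deg a (by rw [hab]; exact hbv)
    have h12 : z (G.al f) ≤ ∑ d ∈ G.st a, z d :=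
      single_le_sum (f := z) (fun d hd => hw.z0 d (mem_st.1 hd).1)
        (mem_st.2 ⟨G.al_mem f hf, hab.symm⟩)
    rw [hw.sym f hf] at h12
    linarith
  · refine h5 W hW ho h3 ?_
    obtain ⟨k, hk⟩ := ho
    obtain ⟨l, hl⟩ := he
    omega

/-- **TWO EXITS** (helper8, Lemma X; helper72, Lemma 2): two steps over `b` which avoid a perfect
matching of the support cannot both lead to terminal contractions -/
theorem two_exits (hw : G.Wt z t) (he : Even G.vs.card) (h6 : ∑ v ∈ G.vs, t v = 6)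
    (h5 : ∀ X ⊆ G.vs, Odd X.card → 3 ≤ X.card → 3 ≤ (G.vs \ X).card → 5 ≤ G.val z t X)
    (hN : G.IsPM N) (hN1 : ∀ d ∈ N, 1 ≤ z d) {e f1 f2 : D} (hee : e ∈ G.ds) (hf1 : f1 ∈ G.ds)
    (hf2 : f2 ∈ G.ds) (hef1 : G.pi f1 = G.pi (G.al e)) (hef2 : G.pi f2 = G.pi (G.al e))
    (hff : f1 ≠ f2) (n1 : f1 ∉ N) (n2 : f2 ∉ N) (hz1 : 1 ≤ z f1) (hz2 : 1 ≤ z f2)
    (ht : 1 ≤ t (G.pi e))
    {ω1 ω2 : V} (hW1 : W1 ⊆ G.vs) (hW2 : W2 ⊆ G.vs) (hω1 : ω1 ∈ W1) (hω2 : ω2 ∈ W2)
    (o1 : Odd W1.card) (o2 : Odd W2.card) (c1 : 3 ≤ W1.card) (c2 : 3 ≤ W2.card)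
    (c1' : 3 ≤ (G.vs \ W1).card) (c2' : 3 ≤ (G.vs \ W2).card)
    (v1 : G.val (G.wz z e f1) (G.wtok t e f1) W1 = 3)
    (v2 : G.val (G.wz z e f2) (G.wtok t e f2) W2 = 3)
    (T1 : (G.con W1 ω1 hω1 hW1).Term (G.wz z e f1) (tcon (G.wtok t e f1) W1 ω1))
    (T2 : (G.con W2 ω2 hω2 hW2).Term (G.wz z e f2) (tcon (G.wtok t e f2) W2 ω2)) : False := by
  -- facts about one exit
  have key : ∀ (f : D) (W : Finset V) (ω : V) (hW : W ⊆ G.vs) (hω : ω ∈ W), f ∈ G.ds →
      G.pi f = G.pi (G.al e) → f ∉ N → 1 ≤ z f → Odd W.card → 3 ≤ W.card →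
      3 ≤ (G.vs \ W).card → G.val (G.wz z e f) (G.wtok t e f) W = 3 →
      (G.con W ω hω hW).Term (G.wz z e f) (tcon (G.wtok t e f) W ω) →
      G.val z t W = 5 ∧ G.pi e ∈ W ∧ f ∈ G.bd W ∧ z f = 1 ∧
      (∀ d ∈ G.bd W, z d ≠ 0 → d ≠ f → d ∈ N ∧ z d = 1) ∧ ∑ v ∈ W, t v = 1 ∧
      ∀ v ∈ W, t v = if v = G.pi e then 1 else 0 := by
    intro f W ω hW hω hf hef hn hz ho hc hc' hv hT
    have hval := walk_val (z := z) (t := t) hee hf hef W
    have h7 := h5 W hW ho hc hc'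
    have hin : G.pi e ∈ W ∧ G.pi f ∈ W ∧ G.pi (G.al f) ∉ W := by
      by_contra hcon
      rw [hv, if_neg hcon] at hval
      have h8 : (0 : ℝ) ≤ if G.pi e ∉ W ∧ G.pi f ∈ W ∧ G.pi (G.al f) ∈ W then 2 else 0 := by
        split_ifs <;> norm_num
      linarith
    have hv5 : G.val z t W = 5 := by
      rw [hv, if_pos hin, if_neg (fun h8 => h8.1 hin.1)] at hval
      linarith
    have hfb : f ∈ G.bd W := mem_bd.2 ⟨hf, hin.2.1, hin.2.2⟩
    have hw' := walk_wt6 hw he h6 h5 hee hf hef hz ht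
    have hNf : ∀ d ∈ N, d ≠ f ∧ d ≠ G.al f := by
      intro d hd
      constructor
      · rintro rfl
        exact hn hd
      · rintro rfl
        have h8 := hN.closed _ hd
        rw [G.al_al f hf] at h8
        exact hn h8
    have hN1' : ∀ d ∈ N, 1 ≤ G.wz z e f d := by
      intro d hd
      unfold wz
      rw [evec_of_ne (hNf d hd).1 (hNf d hd).2]
      have h8 := hN1 d hd
      have h9 := evec_nonneg (G := G) e d
      linarith
    obtain ⟨ht0, hbd⟩ := term_shape hω hW hw' hv hN hN1' hT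
    have hwz : ∀ d ∈ G.bd W, d ≠ f → G.wz z e f d = z d := by
      intro d hd hdf
      obtain ⟨g1, g2, g3⟩ := mem_bd.1 hd
      unfold wz
      rw [evec_of_ne (e := f) hdf, evec_of_ne (e := e)]
      · ring
      · rintro rfl
        exact g3 (by rw [← hef]; exact hin.2.1)
      · rintro rfl
        refine g3 ?_
        rw [G.al_al e hee]
        exact hin.1
      · rintro rfl
        exact hin.2.2 g2
    have hzf : z f = 1 := by
      have h8 : G.wz z e f f = z f - 1 := by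
        unfold wz
        rw [evec_self, evec_of_ne (e := e)]
        · ring
        · rintro rfl
          exact G.noloop f hf hef.symm
        · intro h9
          refine hin.2.2 ?_
          rw [h9, G.al_al e hee]
          exact hin.1
      by_contra h9
      have h10 : G.wz z e f f ≠ 0 := by
        rw [h8]
        exact sub_ne_zero.2 h9
      exact hn (hbd f hfb h10).1
    have htv : ∀ v ∈ W, t v = if v = G.pi e then 1 else 0 := by
      intro v hv'
      have h8 := ht0 v hv'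
      unfold wtok at h8
      rw [if_neg (show v ≠ G.pi (G.al f) by rintro rfl; exact hin.2.2 hv')] at h8
      linarith
    refine ⟨hv5, hin.1, hfb, hzf, ?_, ?_, htv⟩
    · intro d hd hz0 hdf
      have h8 := hwz d hd hdf
      have h9 := hbd d hd (by rw [h8]; exact hz0)
      rw [h8] at h9
      exact h9
    · rw [sum_congr rfl htv, sum_ite_eq', if_pos hin.1]
  obtain ⟨a1, a2, a3, a4, a5, a6, a7⟩ := key f1 W1 ω1 hW1 hω1 hf1 hef1 n1 hz1 o1 c1 c1' v1 T1
  obtain ⟨b1, b2, b3, b4, b5, b6, b7⟩ := key f2 W2 ω2 hW2 hω2 hf2 hef2 n2 hz2 o2 c2 c2' v2 T2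
  have hb1 := mem_bd.1 a3
  have hb2 := mem_bd.1 b3
  have e1 : G.pi (G.al f1) ∈ W2 := by
    by_contra h7
    have h8 : f1 ∈ G.bd W2 := mem_bd.2 ⟨hf1, by rw [hef1, ← hef2]; exact hb2.2.1, h7⟩
    exact n1 (b5 f1 h8 (by rw [a4]; norm_num) hff).1
  have e2 : G.pi (G.al f2) ∈ W1 := by
    by_contra h7
    have h8 : f2 ∈ G.bd W1 := mem_bd.2 ⟨hf2, by rw [hef2, ← hef1]; exact hb1.2.1, h7⟩
    exact n2 (a5 f2 h8 (by rw [b4]; norm_num) hff.symm).1
  refine lemX hw hN (fun d hd => lt_of_lt_of_le one_pos (hN1 d hd)) he h6 hW1 hW2 o1 o2 a1 b1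
    a3 b3 (hef1.trans hef2.symm) e1 e2 a4 b4 n1 n2 a5 b5 a6 b6 ?_ h5
  rw [sum_congr rfl (fun v hv => a7 v (mem_inter.1 hv).1), sum_ite_eq',
    if_pos (mem_inter.2 ⟨a2, b2⟩)]

end MG

end RH
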