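import Pool.Agent.Lib.RH.SGlue

/-! Minimal counterexamples of the rho frame with star: every lemma of the paper becomes
`theorem MCS.xyz (h : G.MCS z t fr F jm sx ep m) : property`. The order of the induction is
lexicographic: fresh vertices, all vertices, support of `z`. -/

set_option autoImplicit false

namespace RH

open Finset Classical

namespace MG

variable {V D : Type*} (G : MG V D)

/-- size of the support -/
noncomputable def sup (z : D → ℝ) : ℕ := (G.ds.filter fun d => z d ≠ 0).card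

/-- induction hypothesis, lexicographic order (fresh vertices, all vertices, support) -/
def IHM (a b c m : ℕ) (V D : Type*) : Prop :=
  ∀ (G : MG V D) (z : D → ℝ) (t : V → ℝ) (fr : Finset V) (F : Finset D) (jm sx : Finset V)
    (ep : V → ℕ),
    (fr.card < a ∨ (fr.card = a ∧ (G.vs.card < b ∨ (G.vs.card = b ∧ G.sup z < c)))) →
      G.InstS z t fr F jm sx ep m → ∃ M, G.GoodS z fr F sx M

theorem IHM.toG {a b c m : ℕ} {V D : Type*} (h : IHM a b c m V D) : IHG a b m V D :=
  fun G z t fr F jm sx ep h1 h2 hI => h G z t fr F jm sx ep (by omega) hI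

theorem IHM.toL {a b c m : ℕ} {V D : Type*} (h : IHM a b c m V D) : IHL a b m V D :=
  fun G z t fr F jm sx ep h1 hI => h G z t fr F jm sx ep (by omega) hI

/-- minimal counterexample -/
structure MCS (z : D → ℝ) (t : V → ℝ) (fr : Finset V) (F : Finset D) (jm sx : Finset V)
    (ep : V → ℕ) (m : ℕ) : Prop where
  inst : G.InstS z t fr F jm sx ep m
  ih : IHM fr.card G.vs.card (G.sup z) m V D
  bad : ¬ ∃ M, G.GoodS z fr F sx M

/-- another weight of the same instance: support inside the old one, 1 at the fresh vertices -/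
structure Alt (z : D → ℝ) (fr : Finset V) (z' : D → ℝ) (t' : V → ℝ) : Prop where
  wt : G.Wt z' t'
  tau : ∑ v ∈ G.vs, t' v < 6
  supp : ∀ d ∈ G.ds, z d = 0 → z' d = 0
  unit : ∀ d ∈ G.ds, G.pi d ∈ fr → z' d = 1

variable {G} {z z' : D → ℝ} {t t' : V → ℝ} {fr : Finset V} {F : Finset D} {jm sx : Finset V}
variable {ep : V → ℕ} {m : ℕ} {M : Finset D}

/-- tokens at fresh vertices do not change -/
theorem Alt.t_eq (hw : G.Wt z t) (hF : G.FrS z fr F jm) (ha : G.Alt z fr z' t') {v : V}
    (hv : v ∈ fr) : t' v = t v := by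
  have h1 := hw.deg v (hF.fsub hv)
  have h2 := ha.wt.deg v (hF.fsub hv)
  have h3 : ∑ d ∈ G.st v, z' d = ∑ d ∈ G.st v, z d := by
    refine sum_congr rfl fun d hd => ?_
    obtain ⟨h4, h5⟩ := mem_st.1 hd
    rw [hF.unit d h4 (by rw [h5]; exact hv), ha.unit d h4 (by rw [h5]; exact hv)]
  linarith

theorem Alt.inst (h : G.InstS z t fr F jm sx ep m) (ha : G.Alt z fr z' t') :
    G.InstS z' t' fr F jm sx ep m where
  even := h.even
  wt := ha.wt
  tau := ha.tau
  fresh := { h.fresh with unit := ha.unit }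
  cc := h.cc
  ev := h.ev
  sxs := h.sxs
  kind := h.kind
  jm2 := h.jm2
  st2 := fun hn => by
    rw [sum_congr rfl fun v hv => Alt.t_eq h.wt h.fresh ha (h.sxs hv)]
    exact h.st2 hn
  b0 := h.b0
  epj := h.epj

theorem Alt.good (h : G.InstS z t fr F jm sx ep m) (ha : G.Alt z fr z' t')
    (hM : G.GoodS z' fr F sx M) : G.GoodS z fr F sx M where
  pm := hM.pm
  pos := fun d hd => by
    have hds := hM.pm.sub hd
    rcases (h.wt.z0 d hds).lt_or_eq with h1 | h1
    · exact h1
    · have h2 := ha.supp d hds h1.symm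
      have h3 := hM.pos d hd
      rw [h2] at h3
      exact absurd h3 (lt_irrefl _)
  hit := hM.hit

/-- STAR property, first half: no zero edge appears -/
theorem MCS.alt (h : G.MCS z t fr F jm sx ep m) (ha : G.Alt z fr z' t') :
    G.MCS z' t' fr F jm sx ep m ∧ ∀ d ∈ G.ds, z' d = 0 → z d = 0 := by
  have hi := ha.inst h.inst
  have hbad : ¬ ∃ M, G.GoodS z' fr F sx M := fun ⟨M, hM⟩ => h.bad ⟨M, ha.good h.inst hM⟩
  have hsub : (G.ds.filter fun d => z' d ≠ 0) ⊆ G.ds.filter fun d => z d ≠ 0 := by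
    intro d hd
    obtain ⟨h1, h2⟩ := mem_filter.1 hd
    exact mem_filter.2 ⟨h1, fun h3 => h2 (ha.supp d h1 h3)⟩
  have hle : G.sup z' ≤ G.sup z := card_le_card hsub
  have heq : G.sup z' = G.sup z := by
    rcases hle.lt_or_eq with h1 | h1
    · exact absurd (h.ih G z' t' fr F jm sx ep (Or.inr ⟨rfl, Or.inr ⟨rfl, h1⟩⟩) hi) hbad
    · exact h1
  refine ⟨⟨hi, by rw [heq]; exact h.ih, hbad⟩, fun d hd h0 => ?_⟩
  by_contra h1
  have h2 := eq_of_subset_of_card_le hsub (le_of_eq heq.symm)
  have h3 : d ∈ G.ds.filter fun d => z d ≠ 0 := mem_filter.2 ⟨hd, h1⟩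
  rw [← h2] at h3
  exact (mem_filter.1 h3).2 h0

/-- no J-bounded tight set -/
theorem MCS.no_tight (h : G.MCS z t fr F jm sx ep m) {W : Finset V} (hW : W ⊆ G.vs)
    (hWo : Odd W.card) (h3 : G.val z t W = 3) (hc1 : 3 ≤ W.card) (hc2 : 3 ≤ (G.vs \ W).card)
    (hFW : ∀ d ∈ F, G.pi d ∈ W → G.pi (G.al d) ∈ W) : False :=
  h.bad (glueJ h.inst h.ih.toG hW hWo h3 hc1 hc2 hFW)

/-- the theorem follows if there are no minimal counterexamples -/
theorem exists_goodS {m : ℕ} {V D : Type*}
    (hno : ∀ (G : MG V D) (z : D → ℝ) (t : V → ℝ) (fr : Finset V) (F : Finset D)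
      (jm sx : Finset V) (ep : V → ℕ), ¬ G.MCS z t fr F jm sx ep m) :
    ∀ (G : MG V D) (z : D → ℝ) (t : V → ℝ) (fr : Finset V) (F : Finset D) (jm sx : Finset V)
      (ep : V → ℕ), G.InstS z t fr F jm sx ep m → ∃ M, G.GoodS z fr F sx M := by
  have key : ∀ a b c : ℕ, IHM a b c m V D := by
    intro a
    induction a using Nat.strong_induction_on with
    | _ a iha =>
      intro b
      induction b using Nat.strong_induction_on with
      | _ b ihb =>
        intro c
        induction c using Nat.strong_induction_on with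
        | _ c ihc =>
          intro G z t fr F jm sx ep hlt hI
          by_contra hbad
          refine hno G z t fr F jm sx ep ⟨hI, ?_, hbad⟩
          rcases hlt with h1 | ⟨h1, h2 | ⟨h2, h3⟩⟩
          · exact iha _ h1 _ _
          · rw [h1]
            exact ihb _ h2 _
          · rw [h1, h2]
            exact ihc _ h3
  intro G z t fr F jm sx ep hI
  exact key (fr.card + 1) 0 0 G z t fr F jm sx ep (Or.inl (Nat.lt_succ_self _)) hI

end MG

end RH
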