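import Pool.Agent.Lib.RH.SGrow
import Pool.Agent.Lib.RH.SCap0

/-! LP facts: an optimal weight exists (compactness); following a direction; normal form. -/

set_option autoImplicit false

namespace RH

open Finset Classical

namespace MG

variable {V D : Type*} {G : MG V D} {z z' : D → ℝ} {t t' : V → ℝ} {fr : Finset V} {F : Finset D}
variable {jm sx : Finset V} {ep : V → ℕ} {m : ℕ} {M : Finset D}

/-- weights depend only on the darts and vertices of the graph -/
theorem Wt.congr (h : G.Wt z t) (hz : ∀ d ∈ G.ds, z' d = z d) (ht : ∀ v ∈ G.vs, t' v = t v) :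
    G.Wt z' t' where
  z0 := fun d hd => by rw [hz d hd]; exact h.z0 d hd
  t0 := fun v hv => by rw [ht v hv]; exact h.t0 v hv
  sym := fun d hd => by rw [hz d hd, hz _ (G.al_mem d hd)]; exact h.sym d hd
  deg := fun v hv => by
    rw [ht v hv, sum_congr rfl fun d hd => hz d (mem_st.1 hd).1]
    exact h.deg v hv
  cut := fun X hX ho => by
    have h1 : G.val z' t' X = G.val z t X := by
      unfold val
      rw [sum_congr rfl fun d hd => hz d (mem_bd.1 hd).1, sum_congr rfl fun v hv => ht v (hX hv)]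
    rw [h1]
    exact h.cut X hX ho

theorem isClosed_wt (G : MG V D) : IsClosed {p : (D → ℝ) × (V → ℝ) | G.Wt p.1 p.2} := by
  have e : {p : (D → ℝ) × (V → ℝ) | G.Wt p.1 p.2} =
      (⋂ d ∈ G.ds, {p | 0 ≤ p.1 d}) ∩ ((⋂ v ∈ G.vs, {p | 0 ≤ p.2 v}) ∩
      ((⋂ d ∈ G.ds, {p | p.1 (G.al d) = p.1 d}) ∩
      ((⋂ v ∈ G.vs, {p | ∑ d ∈ G.st v, p.1 d + p.2 v = 3}) ∩
      (⋂ X ∈ G.vs.powerset, ⋂ (_ : Odd X.card), {p | 3 ≤ G.val p.1 p.2 X})))) := by
    ext p
    simp only [Set.mem_setOf_eq, Set.mem_inter_iff, Set.mem_iInter]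
    constructor
    · intro h
      exact ⟨h.z0, h.t0, h.sym, h.deg, fun X hX ho => h.cut X (mem_powerset.1 hX) ho⟩
    · rintro ⟨h1, h2, h3, h4, h5⟩
      exact ⟨h1, h2, h3, h4, fun X hX ho => h5 X (mem_powerset.2 hX) ho⟩
  rw [e]
  refine IsClosed.inter ?_ (IsClosed.inter ?_ (IsClosed.inter ?_ (IsClosed.inter ?_ ?_)))
  · exact isClosed_biInter fun d _ => isClosed_le continuous_const (by fun_prop)
  · exact isClosed_biInter fun v _ => isClosed_le continuous_const (by fun_prop)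
  · exact isClosed_biInter fun d _ => isClosed_eq (by fun_prop) (by fun_prop)
  · exact isClosed_biInter fun v _ => isClosed_eq (by fun_prop) continuous_const
  · refine isClosed_biInter fun X _ => isClosed_iInter fun _ => isClosed_le continuous_const ?_
    unfold val
    fun_prop

theorem Wt.z_le (h : G.Wt z t) {d : D} (hd : d ∈ G.ds) : z d ≤ 3 := by
  have hv := G.pi_mem d hd
  have h1 := h.deg _ hv
  have h2 := h.t0 _ hv
  have h3 : z d ≤ ∑ e ∈ G.st (G.pi d), z e :=
    single_le_sum (f := z) (fun e he => h.z0 e (mem_st.1 he).1) (mem_st.2 ⟨hd, rfl⟩)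
  linarith

theorem Wt.t_le (h : G.Wt z t) {v : V} (hv : v ∈ G.vs) : t v ≤ 3 := by
  have h1 := h.deg _ hv
  have h3 : 0 ≤ ∑ e ∈ G.st v, z e := sum_nonneg (fun e he => h.z0 e (mem_st.1 he).1)
  linarith

/-- a weight with the minimal number of tokens exists (compactness) -/
theorem exists_opt (hw : G.Wt z t) (htau : ∑ v ∈ G.vs, t v < 6)
    (hu : ∀ d ∈ G.ds, G.pi d ∈ fr → z d = 1) :
    ∃ z' t', G.Alt z fr z' t' ∧
      ∀ z'' t'', G.Alt z fr z'' t'' → ∑ v ∈ G.vs, t' v ≤ ∑ v ∈ G.vs, t'' v := by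
  set K : Set ((D → ℝ) × (V → ℝ)) := {p | G.Wt p.1 p.2} ∩
    ((⋂ d ∈ G.ds, ⋂ (_ : z d = 0), {p | p.1 d = 0}) ∩
    ((⋂ d ∈ G.ds, ⋂ (_ : G.pi d ∈ fr), {p | p.1 d = 1}) ∩
    ((Set.univ.pi fun _ => Set.Icc (0 : ℝ) 3) ×ˢ (Set.univ.pi fun _ => Set.Icc (0 : ℝ) 3))))
    with hK
  have hcomp : IsCompact K := by
    have h1 : IsCompact ((Set.univ.pi fun _ : D => Set.Icc (0 : ℝ) 3) ×ˢ
        (Set.univ.pi fun _ : V => Set.Icc (0 : ℝ) 3)) :=
      (isCompact_univ_pi fun _ => isCompact_Icc).prod (isCompact_univ_pi fun _ => isCompact_Icc)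
    have h2 : IsClosed (⋂ d ∈ G.ds, ⋂ (_ : z d = 0),
        {p : (D → ℝ) × (V → ℝ) | p.1 d = 0}) :=
      isClosed_biInter fun d _ => isClosed_iInter fun _ => isClosed_eq (by fun_prop)
        continuous_const
    have h3 : IsClosed (⋂ d ∈ G.ds, ⋂ (_ : G.pi d ∈ fr),
        {p : (D → ℝ) × (V → ℝ) | p.1 d = 1}) :=
      isClosed_biInter fun d _ => isClosed_iInter fun _ => isClosed_eq (by fun_prop)
        continuous_const
    exact ((h1.inter_left h3).inter_left h2).inter_left (isClosed_wt G)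
  have hmem : ∀ z'' t'', G.Wt z'' t'' → (∀ d ∈ G.ds, z d = 0 → z'' d = 0) →
      (∀ d ∈ G.ds, G.pi d ∈ fr → z'' d = 1) →
      ((fun d => if d ∈ G.ds then z'' d else 0), fun v => if v ∈ G.vs then t'' v else 0) ∈ K := by
    intro z'' t'' h1 h2 h3
    refine ⟨h1.congr (fun d hd => if_pos hd) (fun v hv => if_pos hv), ?_, ?_, ?_⟩
    · simp only [Set.mem_iInter, Set.mem_setOf_eq]
      intro d hd h0
      rw [if_pos hd]
      exact h2 d hd h0
    · simp only [Set.mem_iInter, Set.mem_setOf_eq]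
      intro d hd h0
      rw [if_pos hd]
      exact h3 d hd h0
    · refine Set.mem_prod.2 ⟨?_, ?_⟩
      · intro d _
        show (if d ∈ G.ds then z'' d else 0) ∈ Set.Icc (0 : ℝ) 3
        split_ifs with hd
        · exact ⟨h1.z0 d hd, h1.z_le hd⟩
        · exact ⟨le_refl _, by norm_num⟩
      · intro v _
        show (if v ∈ G.vs then t'' v else 0) ∈ Set.Icc (0 : ℝ) 3
        split_ifs with hv
        · exact ⟨h1.t0 v hv, h1.t_le hv⟩
        · exact ⟨le_refl _, by norm_num⟩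
  have hsum : ∀ t'' : V → ℝ, ∑ v ∈ G.vs, (if v ∈ G.vs then t'' v else 0) = ∑ v ∈ G.vs, t'' v :=
    fun t'' => sum_congr rfl fun v hv => if_pos hv
  have hne : K.Nonempty := ⟨_, hmem z t hw (fun _ _ h => h) hu⟩
  have hcont : ContinuousOn (fun p : (D → ℝ) × (V → ℝ) => ∑ v ∈ G.vs, p.2 v) K := by
    apply Continuous.continuousOn
    fun_prop
  obtain ⟨p, hp, hmin⟩ := hcomp.exists_isMinOn hne hcont
  have hle : ∀ z'' t'', G.Wt z'' t'' → (∀ d ∈ G.ds, z d = 0 → z'' d = 0) →
      (∀ d ∈ G.ds, G.pi d ∈ fr → z'' d = 1) → ∑ v ∈ G.vs, p.2 v ≤ ∑ v ∈ G.vs, t'' v := by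
    intro z'' t'' h1 h2 h3
    have h4 := hmin (hmem z'' t'' h1 h2 h3)
    simp only [Set.mem_setOf_eq] at h4
    rw [hsum] at h4
    exact h4
  refine ⟨p.1, p.2, ⟨hp.1, (hle z t hw (fun _ _ h => h) hu).trans_lt htau, ?_, ?_⟩,
    fun z'' t'' ha => hle z'' t'' ha.wt ha.supp ha.unit⟩
  · have h1 := hp.2.1
    simp only [Set.mem_iInter, Set.mem_setOf_eq] at h1
    exact h1
  · have h1 := hp.2.2.1
    simp only [Set.mem_iInter, Set.mem_setOf_eq] at h1
    exact h1

/-- a direction: symmetric, zero at zero edges and at fresh vertices, degree sums zero -/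
structure Dir (G : MG V D) (z : D → ℝ) (fr : Finset V) (a : D → ℝ) (b : V → ℝ) : Prop where
  sym : ∀ d ∈ G.ds, a (G.al d) = a d
  fr0 : ∀ d ∈ G.ds, G.pi d ∈ fr → a d = 0
  z0 : ∀ d ∈ G.ds, z d = 0 → a d = 0
  deg : ∀ v ∈ G.vs, ∑ d ∈ G.st v, a d + b v = 0

/-- every tight set (not a vertex, not the complement of a vertex) has fresh boundary edges only (in
the support) and no tokens outside `fr` (with star there are tight sets with a star token), or it is
one of the harmless sets `Dig`, `Cap`, `Atom` of helper61 -/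
def Rigid (G : MG V D) (z : D → ℝ) (fr : Finset V) : Prop :=
  ∀ z' t', G.Alt z fr z' t' → ∀ W ⊆ G.vs, Odd W.card → G.val z' t' W = 3 → 3 ≤ W.card →
    3 ≤ (G.vs \ W).card →
    ((∀ d ∈ G.bd W, z' d ≠ 0 → G.pi d ∈ fr ∨ G.pi (G.al d) ∈ fr) ∧
      ∀ v ∈ W, v ∉ fr → t' v = 0) ∨
    (∃ x p q, G.Dig z' t' fr W x p q) ∨ (∃ u a b, G.Cap z' t' fr W u a b) ∨
      ∃ y, G.Atom t' fr W y

/-- normal form: no nonzero direction which does not increase the number of tokens and moves only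
tokens at vertices with `0 < t v`, `2 t v ≠ tau` -/
def NF (G : MG V D) (z : D → ℝ) (t : V → ℝ) (fr : Finset V) : Prop :=
  ∀ a b, G.Dir z fr a b → (∀ v ∈ G.vs, t v = 0 → b v = 0) →
    (∀ v ∈ G.vs, 2 * t v = ∑ w ∈ G.vs, t w → b v = 0) →
    ∑ v ∈ G.vs, b v ≤ 0 → ∀ d ∈ G.ds, a d = 0

/-- weak normal form: as `NF`, but only for directions which keep the number of tokens, if some
vertex has `2 t v = tau` -/
def NFw (G : MG V D) (z : D → ℝ) (t : V → ℝ) (fr : Finset V) : Prop :=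
  ∀ a b, G.Dir z fr a b → (∀ v ∈ G.vs, t v = 0 → b v = 0) →
    (∀ v ∈ G.vs, 2 * t v = ∑ w ∈ G.vs, t w → b v = 0) →
    (∑ v ∈ G.vs, b v = 0 ∨ ∀ v ∈ G.vs, 2 * t v ≠ ∑ w ∈ G.vs, t w) → ∀ d ∈ G.ds, a d = 0

theorem Dir.neg {a : D → ℝ} {b : V → ℝ} (h : G.Dir z fr a b) :
    G.Dir z fr (fun d => - a d) (fun v => - b v) where
  sym := fun d hd => by
    show - a (G.al d) = - a d
    rw [h.sym d hd]
  fr0 := fun d hd hp => by
    show - a d = 0
    rw [h.fr0 d hd hp, neg_zero]
  z0 := fun d hd h0 => by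
    show - a d = 0
    rw [h.z0 d hd h0, neg_zero]
  deg := fun v hv => by
    show ∑ d ∈ G.st v, - a d + - b v = 0
    rw [sum_neg_distrib]
    have := h.deg v hv
    linarith

/-- the same direction for another weight with the same support -/
theorem Dir.supp {a : D → ℝ} {b : V → ℝ} (h : G.Dir z fr a b)
    (hs : ∀ d ∈ G.ds, z' d = 0 → z d = 0) : G.Dir z' fr a b :=
  ⟨h.sym, h.fr0, fun d hd h0 => h.z0 d hd (hs d hd h0), h.deg⟩

/-- a direction at a vertex -/
theorem Dir.val_single {a : D → ℝ} {b : V → ℝ} (h : G.Dir z fr a b) {v : V} (hv : v ∈ G.vs) :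
    G.val a b {v} = 0 := by
  rw [pert_val a b h.deg (singleton_subset_iff.2 hv)]
  have h1 : G.ed {v} {v} = ∅ := by
    rw [Finset.eq_empty_iff_forall_notMem]
    intro d hd
    rw [mem_ed, mem_singleton, mem_singleton] at hd
    exact G.noloop d hd.1 (hd.2.2.trans hd.2.1.symm)
  rw [h1, sum_empty, neg_zero]

/-- a direction at the complement of a set -/
theorem Dir.val_compl {a : D → ℝ} {b : V → ℝ} (h : G.Dir z fr a b) {X : Finset V}
    (hX : X ⊆ G.vs) :
    G.val a b (G.vs \ X) = G.val a b X + ∑ v ∈ G.vs, b v - 2 * ∑ v ∈ X, b v := by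
  have h1 : ∑ d ∈ G.bd (G.vs \ X), a d = ∑ d ∈ G.bd X, a d := by
    refine sum_bij' (fun d _ => G.al d) (fun d _ => G.al d) ?_ ?_ ?_ ?_ ?_
    · intro d hd
      rw [mem_bd, mem_sdiff, mem_sdiff] at hd
      obtain ⟨h2, ⟨-, h3⟩, h4⟩ := hd
      rw [mem_bd, G.al_al d h2]
      refine ⟨G.al_mem d h2, ?_, h3⟩
      by_contra h5
      exact h4 ⟨G.pi_mem _ (G.al_mem d h2), h5⟩
    · intro d hd
      rw [mem_bd] at hd
      obtain ⟨h2, h3, h4⟩ := hd
      rw [mem_bd, G.al_al d h2, mem_sdiff, mem_sdiff]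
      exact ⟨G.al_mem d h2, ⟨G.pi_mem _ (G.al_mem d h2), h4⟩, fun h5 => h5.2 h3⟩
    · intro d hd
      exact G.al_al d (mem_bd.1 hd).1
    · intro d hd
      exact G.al_al d (mem_bd.1 hd).1
    · intro d hd
      exact (h.sym d (mem_bd.1 hd).1).symm
  have h2 := sum_sdiff hX (f := b)
  unfold val
  linarith

/-- tight sets: vertices, complements of vertices, nontrivial sets -/
theorem Wt.tight_cases (hw : G.Wt z t) (he : Even G.vs.card) {X : Finset V} (hX : X ⊆ G.vs)
    (ho : Odd X.card) (h3 : G.val z t X = 3) :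
    (∃ v ∈ G.vs, X = {v}) ∨ (∃ v ∈ G.vs, 2 * t v = ∑ w ∈ G.vs, t w ∧ X = G.vs \ {v}) ∨
      (3 ≤ X.card ∧ 3 ≤ (G.vs \ X).card) := by
  have hc := card_sdiff_add_card_eq_card hX
  by_cases h1 : X.card = 1
  · obtain ⟨v, rfl⟩ := card_eq_one.1 h1
    exact Or.inl ⟨v, singleton_subset_iff.1 hX, rfl⟩
  by_cases h2 : (G.vs \ X).card = 1
  · obtain ⟨v, hv⟩ := card_eq_one.1 h2
    have hvs : v ∈ G.vs := by
      have : v ∈ G.vs \ X := by rw [hv]; exact mem_singleton_self v
      exact (mem_sdiff.1 this).1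
    have hXe : X = G.vs \ {v} := by
      rw [← hv, Finset.sdiff_sdiff_eq_self hX]
    refine Or.inr (Or.inl ⟨v, hvs, ?_, hXe⟩)
    have h4 := hw.val_compl (singleton_subset_iff.2 hvs)
    rw [← hXe, h3, hw.val_single hvs, sum_singleton] at h4
    linarith
  · obtain ⟨k, hk⟩ := ho
    obtain ⟨l, hl⟩ := he
    exact Or.inr (Or.inr ⟨by omega, by omega⟩)

/-- a direction does not move tokens at fresh vertices -/
theorem Dir.b_fr {a : D → ℝ} {b : V → ℝ} (h : G.Dir z fr a b) {v : V} (hv : v ∈ G.vs)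
    (hf : v ∈ fr) : b v = 0 := by
  have h1 := h.deg v hv
  rw [sum_eq_zero fun d hd => h.fr0 d (mem_st.1 hd).1 (by rw [(mem_st.1 hd).2]; exact hf),
    zero_add] at h1
  exact h1

/-- a direction at a nontrivial tight set: it is not hurt, or its condition is the one of the
complement of a vertex with half of the tokens -/
theorem Dir.val_tight {a : D → ℝ} {b : V → ℝ} (h : G.Dir z fr a b) (hR : G.Rigid z fr)
    (ha : G.Alt z fr z' t') (hzz : ∀ d ∈ G.ds, z' d = 0 → z d = 0) {X : Finset V}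
    (hX : X ⊆ G.vs) (ho : Odd X.card)
    (h3 : G.val z' t' X = 3) (hc1 : 3 ≤ X.card) (hc2 : 3 ≤ (G.vs \ X).card)
    (h0 : ∀ v ∈ G.vs, t' v = 0 → 0 ≤ b v) :
    0 ≤ G.val a b X ∨ ((¬ ∃ x p q, G.Dig z' t' fr X x p q) ∧
      ∃ y ∈ G.vs, 2 * t' y = ∑ v ∈ G.vs, t' v ∧ G.val a b X = ∑ v ∈ G.vs, b v - 2 * b y) := by
  have hz0 : ∀ d ∈ G.ds, z' d = 0 → a d = 0 := fun d hd hz => h.z0 d hd (hzz d hd hz)
  by_cases hD : ∃ x p q, G.Dig z' t' fr X x p q
  · obtain ⟨x, p, q, h1⟩ := hD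
    left
    have hp : p ∈ X := by rw [h1.W]; simp
    rw [h1.val_dir hX h.sym hz0 h.deg]
    have := h0 p (hX hp) h1.tp
    linarith
  rcases hR z' t' ha X hX ho h3 hc1 hc2 with ⟨h1, h2⟩ | h1 | ⟨u, a', b', h1⟩ | ⟨y, h1⟩
  · left
    unfold val
    rw [sum_eq_zero, zero_add]
    · refine sum_nonneg fun v hv => ?_
      by_cases hf : v ∈ fr
      · exact (h.b_fr (hX hv) hf).ge
      · exact h0 v (hX hv) (h2 v hv hf)
    · intro d hd
      have hds := (mem_bd.1 hd).1
      by_cases hz : z' d = 0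
      · exact hz0 d hds hz
      · rcases h1 d hd hz with h4 | h4
        · exact h.fr0 d hds h4
        · rw [← h.sym d hds]
          exact h.fr0 _ (G.al_mem d hds) h4
  · exact absurd h1 hD
  · right
    have hm : ∀ v ∈ ({u, a', b'} : Finset V), v ∈ G.vs := by
      intro v hv
      rw [← h1.U] at hv
      exact (mem_sdiff.1 hv).1
    refine ⟨hD, b', hm b' (by simp), h1.tb, ?_⟩
    rw [h1.val_dir hX h.sym hz0 h.deg, h.b_fr (hm u (by simp)) h1.uf]
    ring
  · right
    exact ⟨hD, y, h1.yv, h1.ty, h1.val_dir hX h.sym h.fr0 h.deg⟩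

/-- a direction which does not hurt tokens can be followed a little -/
theorem Dir.small {a : D → ℝ} {b : V → ℝ} (h : G.Dir z fr a b) (he : Even G.vs.card)
    (hR : G.Rigid z fr) (ha : G.Alt z fr z' t')
    (h0 : ∀ v ∈ G.vs, t' v = 0 → 0 ≤ b v)
    (h2 : ∀ v ∈ G.vs, 2 * t' v = ∑ w ∈ G.vs, t' w → 2 * b v ≤ ∑ w ∈ G.vs, b w)
    (hzz : ∀ d ∈ G.ds, z' d = 0 → z d = 0) :
    ∃ ε : ℝ, 0 < ε ∧ ∀ e : ℝ, 0 ≤ e → e ≤ ε →
      G.Wt (fun d => z' d + e * a d) (fun v => t' v + e * b v) := by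
  refine ha.wt.pert a b h.sym h.deg (fun d hd hz => (h.z0 d hd (hzz d hd hz)).ge) h0 ?_
  intro X hX ho h3
  rcases ha.wt.tight_cases he hX ho h3 with ⟨v, hv, rfl⟩ | ⟨v, hv, h4, rfl⟩ | ⟨h4, h5⟩
  · exact (h.val_single hv).ge
  · rw [h.val_compl (singleton_subset_iff.2 hv), h.val_single hv, sum_singleton]
    have := h2 v hv h4
    linarith
  · rcases h.val_tight hR ha hzz hX ho h3 h4 h5 h0 with h6 | ⟨-, y, hy, h6, h7⟩
    · exact h6
    · have := h2 y hy h6
      rw [h7]
      linarith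

/-- a direction in an optimal weight of a minimal counterexample does not lower the number of
tokens -/
theorem MCS.opt_dir (h : G.MCS z t fr F jm sx ep m) (hR : G.Rigid z fr)
    (hopt : ∀ z'' t'', G.Alt z fr z'' t'' → ∑ v ∈ G.vs, t v ≤ ∑ v ∈ G.vs, t'' v)
    {a : D → ℝ} {b : V → ℝ} (hab : G.Dir z fr a b) (h0 : ∀ v ∈ G.vs, t v = 0 → 0 ≤ b v)
    (h2 : ∀ v ∈ G.vs, 2 * t v = ∑ w ∈ G.vs, t w → 2 * b v ≤ ∑ w ∈ G.vs, b w) :
    0 ≤ ∑ v ∈ G.vs, b v := by
  have hself : G.Alt z fr z t := ⟨h.inst.wt, h.inst.tau, fun _ _ h => h, h.inst.fresh.unit⟩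
  obtain ⟨ε, hε, H⟩ := hab.small h.inst.even hR hself h0 h2 (fun _ _ h => h)
  by_contra hneg
  rw [not_le] at hneg
  have hW := H ε hε.le le_rfl
  have hsum : ∑ v ∈ G.vs, (t v + ε * b v) = ∑ v ∈ G.vs, t v + ε * ∑ v ∈ G.vs, b v := by
    rw [sum_add_distrib, ← mul_sum]
  have hm := mul_neg_of_pos_of_neg hε hneg
  have h3 := hopt _ _ (⟨hW, by rw [hsum]; linarith [h.inst.tau], ?_, ?_⟩ :
    G.Alt z fr (fun d => z d + ε * a d) (fun v => t v + ε * b v))
  · rw [hsum] at h3
    linarith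
  · intro d hd hz
    show z d + ε * a d = 0
    rw [hz, hab.z0 d hd hz]
    ring
  · intro d hd hp
    show z d + ε * a d = 1
    rw [h.inst.fresh.unit d hd hp, hab.fr0 d hd hp]
    ring

/-- PUSH: a direction of a minimal counterexample can be followed as long as the tokens allow it -/
theorem MCS.push (h : G.MCS z t fr F jm sx ep m) (hR : G.Rigid z fr)
    {a : D → ℝ} {b : V → ℝ} (hab : G.Dir z fr a b) {s : ℝ} (hs : 0 ≤ s)
    (h0 : ∀ v ∈ G.vs, 0 ≤ t v + s * b v)
    (h2 : ∀ v ∈ G.vs, 2 * (t v + s * b v) ≤ ∑ w ∈ G.vs, (t w + s * b w))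
    (h6 : ∑ v ∈ G.vs, (t v + s * b v) < 6) :
    G.Alt z fr (fun d => z d + s * a d) (fun v => t v + s * b v) := by
  have hw := h.inst.wt
  have hsum : ∀ r : ℝ, ∑ v ∈ G.vs, (t v + r * b v) =
      ∑ v ∈ G.vs, t v + r * ∑ v ∈ G.vs, b v := by
    intro r
    rw [sum_add_distrib, ← mul_sum]
  -- everything affine
  have htau : ∀ r ∈ Set.Icc (0 : ℝ) s, ∑ v ∈ G.vs, (t v + r * b v) < 6 := by
    intro r hr
    rw [hsum] at h6 ⊢
    rcases le_or_gt 0 (∑ v ∈ G.vs, b v) with h3 | h3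
    · have := mul_le_mul_of_nonneg_right hr.2 h3
      linarith
    · have := mul_nonpos_of_nonneg_of_nonpos hr.1 h3.le
      linarith [h.inst.tau]
  have hA : ∀ r ∈ Set.Icc (0 : ℝ) s, G.Wt (fun d => z d + r * a d) (fun v => t v + r * b v) →
      G.Alt z fr (fun d => z d + r * a d) (fun v => t v + r * b v) := by
    intro r hr hW
    refine ⟨hW, htau r hr, ?_, ?_⟩
    · intro d hd hz
      show z d + r * a d = 0
      rw [hz, hab.z0 d hd hz]
      ring
    · intro d hd hp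
      show z d + r * a d = 1
      rw [h.inst.fresh.unit d hd hp, hab.fr0 d hd hp]
      ring
  have ht2 : ∀ v ∈ G.vs, 2 * t v ≤ ∑ w ∈ G.vs, t w := by
    intro v hv
    have hX : G.vs \ {v} ⊆ G.vs := sdiff_subset
    have ho : Odd (G.vs \ {v}).card := by
      have h3 := card_sdiff_add_card_eq_card (singleton_subset_iff.2 hv)
      rw [card_singleton] at h3
      obtain ⟨k, hk⟩ := h.inst.even
      have : 0 < G.vs.card := card_pos.2 ⟨v, hv⟩
      exact ⟨k - 1, by omega⟩
    have h3 := hw.cut _ hX ho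
    rw [hw.val_compl (singleton_subset_iff.2 hv), hw.val_single hv, sum_singleton] at h3
    linarith
  set S : Set ℝ := {r | G.Wt (fun d => z d + r * a d) (fun v => t v + r * b v)} with hS
  have hcl : IsClosed S := by
    have h3 : Continuous fun r : ℝ => ((fun d => z d + r * a d, fun v => t v + r * b v) :
        (D → ℝ) × (V → ℝ)) := by fun_prop
    exact (isClosed_wt G).preimage h3
  have h00 : (0 : ℝ) ∈ S := by
    refine hw.congr (fun d _ => ?_) (fun v _ => ?_)
    · show z d + 0 * a d = z d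
      ring
    · show t v + 0 * b v = t v
      ring
  have hsub : Set.Icc (0 : ℝ) s ⊆ S := by
    refine IsClosed.Icc_subset_of_forall_exists_gt (hcl.inter isClosed_Icc) h00 ?_
    rintro x ⟨hxS, hx⟩ y hy
    have hxI : x ∈ Set.Icc (0 : ℝ) s := ⟨hx.1, hx.2.le⟩
    have hax := hA x hxI hxS
    have hsup := (h.alt hax).2
    obtain ⟨ε, hε, H⟩ := hab.small h.inst.even hR hax
      (by
        intro v hv h3
        have h4 := h0 v hv
        have h5 : t v + x * b v = 0 := h3
        by_contra h7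
        rw [not_le] at h7
        have h8 := mul_neg_of_pos_of_neg (sub_pos.2 hx.2) h7
        have h9 : (s - x) * b v = (t v + s * b v) - (t v + x * b v) := by ring
        linarith)
      (by
        intro v hv h3
        have h4 := h2 v hv
        have h5 : 2 * (t v + x * b v) = ∑ w ∈ G.vs, (t w + x * b w) := h3
        rw [hsum] at h4 h5
        by_contra h7
        rw [not_le] at h7
        have h8 := mul_pos (sub_pos.2 hx.2) (sub_pos.2 h7)
        have h9 : (s - x) * (2 * b v - ∑ w ∈ G.vs, b w) =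
          (2 * (t v + s * b v) - (∑ w ∈ G.vs, t w + s * ∑ w ∈ G.vs, b w)) -
          (2 * (t v + x * b v) - (∑ w ∈ G.vs, t w + x * ∑ w ∈ G.vs, b w)) := by ring
        linarith)
      hsup
    have hy' : x < y := hy
    set e := min ε (y - x) with he
    have he0 : 0 < e := lt_min hε (sub_pos.2 hy')
    refine ⟨x + e, ?_, by linarith, ?_⟩
    · refine (H e he0.le (min_le_left _ _)).congr (fun d _ => ?_) (fun v _ => ?_)
      · show z d + (x + e) * a d = z d + x * a d + e * a d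
        ring
      · show t v + (x + e) * b v = t v + x * b v + e * b v
        ring
    · have := min_le_right ε (y - x)
      linarith
  have hsI : s ∈ Set.Icc (0 : ℝ) s := ⟨hs, le_refl _⟩
  exact hA s hsI (hsub hsI)

/-- the class of a fresh vertex is a circuit -/
private theorem exists_circ0 (hF : G.FrS z fr F jm) {v : V} (hv : v ∈ fr) :
    ∃ C, v ∈ C ∧ G.Circ fr F C := by
  set C : Finset V := fr.filter fun u => ∀ X, G.Adm fr F X → v ∈ X → u ∈ X with hC
  have hvC : v ∈ C := mem_filter.2 ⟨hv, fun X _ h => h⟩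
  have hadm : G.Adm fr F C := by
    refine ⟨filter_subset _ _, fun d hd hu => ?_⟩
    rw [hC, mem_filter] at hu ⊢
    exact ⟨hF.Ffr _ (hF.Fal d hd), fun X hX hvX => hX.clo d hd (hu.2 X hX hvX)⟩
  have hle : ∀ X, G.Adm fr F X → v ∈ X → C ⊆ X := fun X hX hvX u hu =>
    (mem_filter.1 hu).2 X hX hvX
  refine ⟨C, hvC, hadm, ⟨v, hvC⟩, ?_, fun u hu => hF.two u (hadm.sub hu)⟩
  intro X hX hXC hne
  by_cases hvX : v ∈ X
  · exact Subset.antisymm hXC (hle X hX hvX)
  · exfalso
    have h1 : G.Adm fr F (C \ X) := by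
      refine ⟨sdiff_subset.trans hadm.sub, fun d hd hu => ?_⟩
      rw [mem_sdiff] at hu ⊢
      refine ⟨hadm.clo d hd hu.1, fun h2 => hu.2 ?_⟩
      have h3 := hX.clo _ (hF.Fal d hd) h2
      rwa [G.al_al d (hF.Fsub hd)] at h3
    obtain ⟨u, hu⟩ := hne
    have h2 := hle _ h1 (mem_sdiff.2 ⟨hvC, hvX⟩) (hXC hu)
    exact (mem_sdiff.1 h2).2 hu

theorem Cap.mem {W : Finset V} {u a b : V} (h : G.Cap z t fr W u a b) :
    u ∈ G.vs ∧ a ∈ G.vs ∧ b ∈ G.vs := by
  have h1 : ∀ v ∈ ({u, a, b} : Finset V), v ∈ G.vs := by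
    intro v hv
    rw [← h.U] at hv
    exact (mem_sdiff.1 hv).1
  exact ⟨h1 u (by simp), h1 a (by simp), h1 b (by simp)⟩

/-- the J-dart of `u` and the tokens at `a` -/
theorem Cap.ta {W : Finset V} {u a b : V} (h : G.Cap z t fr W u a b)
    (hF : G.FrS z fr F jm) (hw : G.Wt z t) :
    t a = 2 ∧ ∀ j ∈ G.ds, G.pi j = u → G.pi (G.al j) ∉ fr → G.pi (G.al j) = a := by
  obtain ⟨huv, hav, hbv⟩ := h.mem
  obtain ⟨e, he, heu, hea⟩ := h.ua
  have heF : e ∉ F := fun h1 => h.af (hea ▸ hF.Ffr _ (hF.Fal e h1))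
  have hujm : u ∉ jm := fun h1 => heF (hF.j0 u h1 e (mem_st.2 ⟨he, heu⟩))
  obtain ⟨i, hi, hiu, hiF, huniq⟩ := hF.exists_jd h.uf hujm
  have hei : e = i := huniq e he heu heF
  constructor
  · have h1 := hw.deg a hav
    have h2 : ∑ d ∈ G.st a, z d = z (G.al e) := by
      refine sum_eq_single (G.al e) (fun d hd hne => ?_) (fun h3 => ?_)
      · obtain ⟨h3, h4⟩ := mem_st.1 hd
        by_contra hz
        have h5 := h.nb d h3 h4 hz
        have h6 : G.al d ∉ F := fun h7 => by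
          have h8 := hF.Ffr _ (hF.Fal _ h7)
          rw [G.al_al d h3, h4] at h8
          exact h.af h8
        have h7 := huniq (G.al d) (G.al_mem d h3) h5 h6
        apply hne
        rw [hei, ← h7, G.al_al d h3]
      · exact absurd (mem_st.2 ⟨G.al_mem e he, hea⟩) h3
    rw [h2, hw.sym e he, hF.unit e he (by rw [heu]; exact h.uf)] at h1
    linarith
  · intro j hj hju hjf
    have hjF : j ∉ F := fun h2 => hjf (hF.Ffr _ (hF.Fal j h2))
    rw [huniq j hj hju hjF, ← hei, hea]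

/-- legs and capped sets -/
theorem Cap.leg_in0 {W : Finset V} {u a b : V} (h : G.Cap z t fr W u a b)
    (hF : G.FrS z fr F jm) (hw : G.Wt z t) {j : D} (hj : j ∈ G.ds)
    (hx : G.pi j ∈ fr) (hwf : G.pi (G.al j) ∉ fr) (ha : G.pi (G.al j) ≠ a)
    (hb : G.pi (G.al j) ≠ b) : G.pi j ∈ W ∧ G.pi (G.al j) ∈ W := by
  constructor
  · by_contra hn
    have h1 : G.pi j ∈ G.vs \ W := mem_sdiff.2 ⟨G.pi_mem _ hj, hn⟩
    rw [h.U, mem_insert, mem_insert, mem_singleton] at h1
    rcases h1 with h1 | h1 | h1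
    · exact ha ((h.ta hF hw).2 j hj h1 hwf)
    · exact h.af (h1 ▸ hx)
    · exact h.bf (h1 ▸ hx)
  · by_contra hn
    have h1 : G.pi (G.al j) ∈ G.vs \ W := mem_sdiff.2 ⟨G.pi_mem _ (G.al_mem j hj), hn⟩
    rw [h.U, mem_insert, mem_insert, mem_singleton] at h1
    rcases h1 with h1 | h1 | h1
    · exact hwf (h1 ▸ h.uf)
    · exact ha h1
    · exact hb h1

/-- a capped set contains both ends of a leg at a vertex without half of the tokens -/
theorem Cap.leg_in {W : Finset V} {u a b : V} (h : G.Cap z t fr W u a b)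
    (hF : G.FrS z fr F jm) (hw : G.Wt z t) (htau : ∑ v ∈ G.vs, t v ≤ 4) {j : D} (hj : j ∈ G.ds)
    (hx : G.pi j ∈ fr) (hwf : G.pi (G.al j) ∉ fr)
    (ht : 2 * t (G.pi (G.al j)) ≠ ∑ v ∈ G.vs, t v) :
    G.pi j ∈ W ∧ G.pi (G.al j) ∈ W := by
  obtain ⟨huv, hav, hbv⟩ := h.mem
  have hta := (h.ta hF hw).1
  have hab2 : t a + t b ≤ ∑ v ∈ G.vs, t v := by
    have h1 : ({a, b} : Finset V) ⊆ G.vs := by
      intro v hv
      rw [mem_insert, mem_singleton] at hv
      rcases hv with rfl | rfl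
      · exact hav
      · exact hbv
    have h2 := sum_le_sum_of_subset_of_nonneg (f := t) h1 (fun v hv _ => hw.t0 v hv)
    rwa [sum_pair h.ab] at h2
  have htb := h.tb
  refine h.leg_in0 hF hw hj hx hwf ?_ ?_
  · intro h1
    apply ht
    rw [h1, hta]
    linarith
  · intro h1
    apply ht
    rw [h1]
    exact htb

/-- at least 4 tokens: a capped set contains both ends of a leg at a vertex without two tokens -/
theorem Cap.legin {W : Finset V} {u a b : V} (h : G.Cap z t fr W u a b)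
    (hF : G.FrS z fr F jm) (hw : G.Wt z t) (htau : 4 ≤ ∑ v ∈ G.vs, t v) {j : D} (hj : j ∈ G.ds)
    (hx : G.pi j ∈ fr) (hwf : G.pi (G.al j) ∉ fr) (ht : t (G.pi (G.al j)) ≠ 2) :
    G.pi j ∈ W ∧ G.pi (G.al j) ∈ W := by
  refine h.leg_in0 hF hw hj hx hwf ?_ ?_
  · intro h1
    apply ht
    rw [h1]
    exact (h.ta hF hw).1
  · intro h1
    have h2 := hw.deg _ (G.pi_mem _ (G.al_mem j hj))
    have h3 : z (G.al j) = 1 := by
      rw [hw.sym j hj]
      exact hF.unit j hj hx
    have h4 := single_le_sum (f := z) (fun e he => hw.z0 e (mem_st.1 he).1)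
      (mem_st.2 ⟨G.al_mem j hj, rfl⟩ : G.al j ∈ G.st (G.pi (G.al j)))
    have h5 := h.tb
    apply ht
    rw [h1] at h2 h4 ⊢
    linarith

/-- at most 4 tokens and a leg at a vertex `w` with `2 t w ≠ tau`: no direction lowers the number of
tokens, also if some vertex has `2 t v = tau` (kill the leg; then the direction can be used) -/
theorem MCS.no_neg (h : G.MCS z t fr F jm sx ep m) (hR : G.Rigid z fr)
    (htau : ∑ v ∈ G.vs, t v ≤ 4) {j : D} (hj : j ∈ G.ds) (hx : G.pi j ∈ fr)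
    (hw : G.pi (G.al j) ∉ fr) (ht : 2 * t (G.pi (G.al j)) ≠ ∑ v ∈ G.vs, t v)
    (hL : ∀ W ⊆ G.vs, Odd W.card → G.val z t W = 3 → 3 ≤ W.card → 3 ≤ (G.vs \ W).card →
      (G.pi j ∈ W ∧ G.pi (G.al j) ∈ W) ∨ ∃ x p q, G.Dig z t fr W x p q)
    {a : D → ℝ} {b : V → ℝ} (hab : G.Dir z fr a b) (h0 : ∀ v ∈ G.vs, t v = 0 → 0 ≤ b v) :
    0 ≤ ∑ v ∈ G.vs, b v := by
  by_contra hneg
  rw [not_le] at hneg
  have hF := h.inst.fresh
  have hwt := h.inst.wt
  obtain ⟨C, hxC, hC⟩ := exists_circ0 hF hx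
  obtain ⟨fr', hsub, hne, hclo, hdis, hkill, hstar⟩ := h.inst.absorb_class hC hj hxC hw
  have haj := G.al_mem j hj
  have hmemS : ∀ d, d ∈ ({j, G.al j} : Finset D) ↔ d = j ∨ d = G.al j := by
    intro d
    rw [mem_insert, mem_singleton]
  have hzj : z j = 1 := hF.unit j hj hx
  have hjne : j ≠ G.al j := fun he => G.noloop j hj (by rw [← he])
  have hself : G.Alt z fr z t := ⟨hwt, h.inst.tau, fun _ _ h => h, hF.unit⟩
  have haj0 : a j = 0 := hab.fr0 j hj hx
  obtain ⟨z', t', hs⟩ := step_of_dirS h.inst (S := {j, G.al j}) (fr' := fr')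
    (by
      intro d hd
      rcases (hmemS d).1 hd with rfl | rfl
      · exact hj
      · exact haj)
    (by
      intro d hd
      rcases (hmemS d).1 hd with rfl | rfl
      · exact (hmemS _).2 (Or.inr rfl)
      · rw [G.al_al j hj]
        exact (hmemS _).2 (Or.inl rfl))
    (by
      intro d hd
      rcases (hmemS d).1 hd with rfl | rfl
      · exact hzj
      · rw [hwt.sym j hj]
        exact hzj)
    (by
      rw [card_pair hjne]
      push_cast
      linarith)
    hsub hne hclo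
    (by
      intro d hd
      rcases (hmemS d).1 hd with rfl | rfl
      · exact fun h1 => disjoint_left.1 hdis h1 hxC
      · exact fun h1 => hw (hsub h1))
    (fun X hX he hn => ⟨j, hkill X hX he hn, (hmemS _).2 (Or.inl rfl)⟩)
    hstar a b hab.sym hab.deg (fun d hd hp => hab.fr0 d hd (hsub hp))
    (by
      intro d hd
      rcases (hmemS d).1 hd with rfl | rfl
      · exact haj0
      · rw [hab.sym j hj]
        exact haj0)
    hab.z0
    (by
      intro v hv hk
      refine h0 v hv ?_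
      have h3 : kt G z t {j, G.al j} v = t v + ∑ d ∈ ({j, G.al j} : Finset D).filter
        (fun d => G.pi d = v), z d := rfl
      have h6 : ∀ d ∈ ({j, G.al j} : Finset D).filter (fun d => G.pi d = v), 0 ≤ z d := by
        intro d hd
        rcases (hmemS d).1 (mem_filter.1 hd).1 with rfl | rfl
        · rw [hzj]; norm_num
        · rw [hwt.sym j hj, hzj]; norm_num
      have h8 := sum_nonneg h6
      have h9 := hwt.t0 v hv
      linarith)
    (by
      intro X hX ho h3 hS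
      have h4 := pert_val a b hab.deg hX
      suffices h5 : 0 ≤ G.val a b X by linarith
      rcases hwt.tight_cases h.inst.even hX ho h3 with ⟨v, hv, rfl⟩ | ⟨v, hv, h6, rfl⟩ |
        ⟨h6, h7⟩
      · exact (hab.val_single hv).ge
      · exfalso
        have hxv : G.pi j ≠ v := by
          rintro rfl
          have hjF : j ∉ F := fun h7 => hw (hF.Ffr _ (hF.Fal j h7))
          have hjm : G.pi j ∉ jm := fun h7 => hjF (hF.j0 _ h7 j (mem_st.2 ⟨hj, rfl⟩))
          have h7 := hF.t_not_jm hwt hx hjm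
          rw [h7, mul_zero] at h6
          have h8 := (sum_eq_zero_iff_of_nonneg hwt.t0).1 h6.symm
          have h9 := sum_nonneg fun u hu => h0 u hu (h8 u hu)
          linarith
        have hwv : G.pi (G.al j) ≠ v := by
          rintro rfl
          exact ht h6
        refine hS j (mem_ed.2 ⟨hj, ?_, ?_⟩) ((hmemS _).2 (Or.inl rfl))
        · exact mem_sdiff.2 ⟨G.pi_mem j hj, fun h7 => hxv (mem_singleton.1 h7)⟩
        · exact mem_sdiff.2 ⟨G.pi_mem _ haj, fun h7 => hwv (mem_singleton.1 h7)⟩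
      · rcases hab.val_tight hR hself (fun _ _ h => h) hX ho h3 h6 h7 h0 with h8 | ⟨h8, -⟩
        · exact h8
        · exfalso
          rcases hL X hX ho h3 h6 h7 with h9 | h9
          · exact hS j (mem_ed.2 ⟨hj, h9.1, h9.2⟩) ((hmemS _).2 (Or.inl rfl))
          · exact h8 h9)
    hneg
  exact h.no_step hs

/-- the strong normal form from the weak one and a leg -/
theorem MCS.nf_of_leg (h : G.MCS z t fr F jm sx ep m) (hR : G.Rigid z fr)
    (htau : ∑ v ∈ G.vs, t v ≤ 4) (hn : G.NFw z t fr) {j : D} (hj : j ∈ G.ds) (hx : G.pi j ∈ fr)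
    (hw : G.pi (G.al j) ∉ fr) (ht : 2 * t (G.pi (G.al j)) ≠ ∑ v ∈ G.vs, t v)
    (hL : ∀ W ⊆ G.vs, Odd W.card → G.val z t W = 3 → 3 ≤ W.card → 3 ≤ (G.vs \ W).card →
      (G.pi j ∈ W ∧ G.pi (G.al j) ∈ W) ∨ ∃ x p q, G.Dig z t fr W x p q) : G.NF z t fr := by
  intro a b hab h0 h2 hle
  refine hn a b hab h0 h2 (Or.inl (le_antisymm hle ?_))
  exact h.no_neg hR htau hj hx hw ht hL hab fun v hv h3 => (h0 v hv h3).ge

/-- the first constraint which becomes tight -/
theorem exists_first {ι : Type*} (s : Finset ι) (f g : ι → ℝ) (h0 : ∀ i ∈ s, 0 ≤ f i)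
    (h1 : ∀ i ∈ s, g i < 0 → 0 < f i) (hex : ∃ i ∈ s, g i < 0) :
    ∃ r : ℝ, 0 < r ∧ (∀ i ∈ s, 0 ≤ f i + r * g i) ∧ ∃ i ∈ s, g i < 0 ∧ f i + r * g i = 0 := by
  have hne : (s.filter fun i => g i < 0).Nonempty := by
    obtain ⟨i, hi, hg⟩ := hex
    exact ⟨i, mem_filter.2 ⟨hi, hg⟩⟩
  obtain ⟨i, hi, hmin⟩ := exists_min_image _ (fun i => f i / (- g i)) hne
  obtain ⟨his, hgi⟩ := mem_filter.1 hi
  have hgi' : 0 < - g i := neg_pos.2 hgi
  refine ⟨f i / (- g i), div_pos (h1 i his hgi) hgi', fun k hk => ?_, i, his, hgi, ?_⟩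
  · rcases le_or_gt 0 (g k) with h2 | h2
    · have := mul_nonneg (div_pos (h1 i his hgi) hgi').le h2
      linarith [h0 k hk]
    · have h3 := hmin k (mem_filter.2 ⟨hk, h2⟩)
      have h4 : 0 < - g k := neg_pos.2 h2
      have h5 : f i / (- g i) * (- g k) ≤ f k := by
        rw [← le_div_iff₀ h4]
        exact h3
      linarith
  · have : f i / (- g i) * (- g i) = f i := div_mul_cancel₀ _ hgi'.ne'
    linarith

/-- NORMAL FORM: in a minimal counterexample with rigid tight sets some optimal weight is in (weak)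
normal form: take an optimal weight with the fewest token vertices, then with the most vertices with
`2 t v = tau` -/
theorem MCS.exists_nf (h : G.MCS z t fr F jm sx ep m) (hR : G.Rigid z fr) :
    ∃ z' t', G.Alt z fr z' t' ∧ G.MCS z' t' fr F jm sx ep m ∧
      (∀ z'' t'', G.Alt z' fr z'' t'' → ∑ v ∈ G.vs, t' v ≤ ∑ v ∈ G.vs, t'' v) ∧
      G.NFw z' t' fr := by
  set n : (V → ℝ) → ℕ := fun t' =>
    (G.vs.filter fun v => t' v ≠ 0).card * (G.vs.card + 1) +
      (G.vs.card - (G.vs.filter fun v => 2 * t' v = ∑ w ∈ G.vs, t' w).card) with hn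
  -- an optimal weight with minimal `n`
  have hex : ∃ k : ℕ, ∃ z' t', G.Alt z fr z' t' ∧
      (∀ z'' t'', G.Alt z fr z'' t'' → ∑ v ∈ G.vs, t' v ≤ ∑ v ∈ G.vs, t'' v) ∧ n t' = k := by
    obtain ⟨z', t', h1, h2⟩ := exists_opt h.inst.wt h.inst.tau h.inst.fresh.unit
    exact ⟨n t', z', t', h1, h2, rfl⟩
  obtain ⟨z', t', ha, hopt, hk⟩ := Nat.find_spec hex
  have hmin : ∀ z'' t'', G.Alt z fr z'' t'' →
      (∀ z3 t3, G.Alt z fr z3 t3 → ∑ v ∈ G.vs, t'' v ≤ ∑ v ∈ G.vs, t3 v) → n t' ≤ n t'' := by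
    intro z'' t'' h1 h2
    rw [hk]
    exact Nat.find_min' hex ⟨z'', t'', h1, h2, rfl⟩
  obtain ⟨hm', hs'⟩ := h.alt ha
  have hcomp : ∀ z'' t'', G.Alt z' fr z'' t'' → G.Alt z fr z'' t'' := fun z'' t'' h1 =>
    ⟨h1.wt, h1.tau, fun d hd h2 => h1.supp d hd (ha.supp d hd h2), h1.unit⟩
  have hR' : G.Rigid z' fr := fun z'' t'' h1 => hR z'' t'' (hcomp z'' t'' h1)
  refine ⟨z', t', ha, hm', fun z'' t'' h1 => hopt z'' t'' (hcomp z'' t'' h1), ?_⟩
  intro a b hab h0 h2 hor
  have hopt' : ∀ z'' t'', G.Alt z' fr z'' t'' → ∑ v ∈ G.vs, t' v ≤ ∑ v ∈ G.vs, t'' v :=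
    fun z'' t'' h1 => hopt z'' t'' (hcomp z'' t'' h1)
  have hsum0 : ∑ v ∈ G.vs, b v = 0 := by
    rcases hor with h3 | h3
    · exact h3
    · refine le_antisymm ?_ ?_
      · have h4 := hm'.opt_dir hR' hopt' hab.neg
          (fun v hv h5 => by rw [h0 v hv h5, neg_zero])
          (fun v hv h5 => absurd h5 (h3 v hv))
        rw [sum_neg_distrib] at h4
        linarith
      · exact hm'.opt_dir hR' hopt' hab (fun v hv h5 => (h0 v hv h5).ge)
          (fun v hv h5 => absurd h5 (h3 v hv))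
  have hsum : ∀ r : ℝ, ∑ v ∈ G.vs, (t' v + r * b v) = ∑ v ∈ G.vs, t' v := by
    intro r
    rw [sum_add_distrib, ← mul_sum, hsum0, mul_zero, add_zero]
  have hw' := hm'.inst.wt
  have ht2 : ∀ v ∈ G.vs, 2 * t' v ≤ ∑ w ∈ G.vs, t' w := by
    intro v hv
    have ho : Odd (G.vs \ {v}).card := by
      have h3 := card_sdiff_add_card_eq_card (singleton_subset_iff.2 hv)
      rw [card_singleton] at h3
      obtain ⟨k, hk⟩ := h.inst.even
      have : 0 < G.vs.card := card_pos.2 ⟨v, hv⟩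
      exact ⟨k - 1, by omega⟩
    have h3 := hw'.cut _ sdiff_subset ho
    rw [hw'.val_compl (singleton_subset_iff.2 hv), hw'.val_single hv, sum_singleton] at h3
    linarith
  by_cases hb : ∀ v ∈ G.vs, b v = 0
  · -- no tokens move: the direction can be followed for ever
    have hall : ∀ (c : ℝ) (a' : D → ℝ) (b' : V → ℝ), G.Dir z' fr a' b' →
        (∀ v ∈ G.vs, b' v = 0) → 0 ≤ c → ∀ d ∈ G.ds, 0 ≤ z' d + c * a' d := by
      intro c a' b' hab' hb' hc d hd
      have h3 := hm'.push hR' hab' hc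
        (fun v hv => by rw [hb' v hv, mul_zero, add_zero]; exact hw'.t0 v hv)
        (fun v hv => by
          rw [hb' v hv, mul_zero, add_zero,
            sum_congr rfl fun w hw => show t' w + c * b' w = t' w by
              rw [hb' w hw, mul_zero, add_zero]]
          exact ht2 v hv)
        (by
          rw [sum_congr rfl fun w hw => show t' w + c * b' w = t' w by
              rw [hb' w hw, mul_zero, add_zero]]
          exact hm'.inst.tau)
      exact h3.wt.z0 d hd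
    intro d hd
    by_contra hne
    rcases lt_or_gt_of_ne hne with h3 | h3
    · have h4 := hall ((z' d + 1) / (- a d)) a b hab hb
        (div_nonneg (by linarith [hw'.z0 d hd]) (by linarith)) d hd
      have h5 : (z' d + 1) / (- a d) * (- a d) = z' d + 1 :=
        div_mul_cancel₀ _ (by linarith : - a d ≠ 0)
      linarith
    · have h4 := hall ((z' d + 1) / (a d)) _ _ hab.neg
        (fun v hv => by rw [hb v hv, neg_zero])
        (div_nonneg (by linarith [hw'.z0 d hd]) (by linarith)) d hd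
      have h5 : (z' d + 1) / (a d) * (a d) = z' d + 1 := div_mul_cancel₀ _ hne
      linarith
  · exfalso
    push Not at hb
    obtain ⟨v0, hv0, hb0⟩ := hb
    -- the first constraint
    obtain ⟨r, hr, hge, i, hi, hgi, hfi⟩ := exists_first (G.vs ×ˢ (Finset.univ : Finset Bool))
      (fun i => if i.2 then ∑ w ∈ G.vs, t' w - 2 * t' i.1 else t' i.1)
      (fun i => if i.2 then - 2 * b i.1 else b i.1)
      (by
        rintro ⟨v, e⟩ hi
        have hv := (mem_product.1 hi).1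
        cases e
        · simpa using hw'.t0 v hv
        · simpa using ht2 v hv)
      (by
        rintro ⟨v, e⟩ hi hg
        have hv := (mem_product.1 hi).1
        cases e
        · simp only [Bool.false_eq_true, if_false] at hg ⊢
          rcases (hw'.t0 v hv).lt_or_eq with h3 | h3
          · exact h3
          · rw [h0 v hv h3.symm] at hg
            exact absurd hg (lt_irrefl _)
        · simp only [if_true] at hg ⊢
          rcases (ht2 v hv).lt_or_eq with h3 | h3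
          · linarith
          · rw [h2 v hv h3, mul_zero] at hg
            exact absurd hg (lt_irrefl _))
      (by
        rcases lt_or_gt_of_ne hb0 with h3 | h3
        · exact ⟨(v0, false), mem_product.2 ⟨hv0, mem_univ _⟩, by simpa using h3⟩
        · exact ⟨(v0, true), mem_product.2 ⟨hv0, mem_univ _⟩, by
            simp only [if_true]; linarith⟩)
    have hge0 : ∀ v ∈ G.vs, 0 ≤ t' v + r * b v := by
      intro v hv
      have h3 := hge (v, false) (mem_product.2 ⟨hv, mem_univ _⟩)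
      simpa using h3
    have hge2 : ∀ v ∈ G.vs, 2 * (t' v + r * b v) ≤ ∑ w ∈ G.vs, (t' w + r * b w) := by
      intro v hv
      have h3 := hge (v, true) (mem_product.2 ⟨hv, mem_univ _⟩)
      simp only [if_true] at h3
      rw [hsum]
      linarith
    have hpush := hm'.push hR' hab hr.le hge0 hge2 (by rw [hsum]; exact hm'.inst.tau)
    have hlt := hmin _ _ (hcomp _ _ hpush) (by
      intro z3 t3 h3
      rw [hsum]
      exact hopt z3 t3 h3)
    -- compare
    set t'' : V → ℝ := fun v => t' v + r * b v with ht''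
    have hsum'' : ∑ w ∈ G.vs, t'' w = ∑ w ∈ G.vs, t' w := hsum r
    have hsub1 : (G.vs.filter fun v => t'' v ≠ 0) ⊆ G.vs.filter fun v => t' v ≠ 0 := by
      intro v hv
      obtain ⟨h3, h4⟩ := mem_filter.1 hv
      refine mem_filter.2 ⟨h3, fun h5 => h4 ?_⟩
      show t' v + r * b v = 0
      rw [h5, h0 v h3 h5, mul_zero, add_zero]
    have hsub2 : (G.vs.filter fun v => 2 * t' v = ∑ w ∈ G.vs, t' w) ⊆
        G.vs.filter fun v => 2 * t'' v = ∑ w ∈ G.vs, t'' w := by
      intro v hv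
      obtain ⟨h3, h4⟩ := mem_filter.1 hv
      refine mem_filter.2 ⟨h3, ?_⟩
      rw [hsum'']
      show 2 * (t' v + r * b v) = _
      rw [h2 v h3 h4, mul_zero, add_zero]
      exact h4
    have hc1 := card_le_card hsub1
    have hc2 := card_le_card hsub2
    have hc3 : (G.vs.filter fun v => 2 * t'' v = ∑ w ∈ G.vs, t'' w).card ≤ G.vs.card :=
      card_le_card (filter_subset _ _)
    have hv := (mem_product.1 hi).1
    obtain ⟨v, e⟩ := i
    simp only at hv
    rw [hn] at hlt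
    simp only at hlt
    cases e
    · simp only [Bool.false_eq_true, if_false] at hgi hfi
      have h3 : v ∉ G.vs.filter fun v => t'' v ≠ 0 := fun h4 => (mem_filter.1 h4).2 hfi
      have h4 : v ∈ G.vs.filter fun v => t' v ≠ 0 := by
        refine mem_filter.2 ⟨hv, fun h5 => ?_⟩
        rw [h0 v hv h5] at hgi
        exact lt_irrefl _ hgi
      have h5 : (G.vs.filter fun v => t'' v ≠ 0).card < (G.vs.filter fun v => t' v ≠ 0).card :=
        card_lt_card ((ssubset_iff_of_subset hsub1).2 ⟨v, h4, h3⟩)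
      have h6 : ((G.vs.filter fun v => t'' v ≠ 0).card + 1) * (G.vs.card + 1) ≤
          (G.vs.filter fun v => t' v ≠ 0).card * (G.vs.card + 1) :=
        Nat.mul_le_mul_right _ h5
      have h7 : ((G.vs.filter fun v => t'' v ≠ 0).card + 1) * (G.vs.card + 1) =
        (G.vs.filter fun v => t'' v ≠ 0).card * (G.vs.card + 1) + (G.vs.card + 1) := by ring
      omega
    · simp only [if_true] at hgi hfi
      have h3 : v ∈ G.vs.filter fun v => 2 * t'' v = ∑ w ∈ G.vs, t'' w := by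
        refine mem_filter.2 ⟨hv, ?_⟩
        rw [hsum'']
        show 2 * (t' v + r * b v) = _
        linarith
      have h4 : v ∉ G.vs.filter fun v => 2 * t' v = ∑ w ∈ G.vs, t' w := by
        intro h5
        rw [h2 v hv (mem_filter.1 h5).2, mul_zero] at hgi
        exact lt_irrefl _ hgi
      have h5 : (G.vs.filter fun v => 2 * t' v = ∑ w ∈ G.vs, t' w).card <
          (G.vs.filter fun v => 2 * t'' v = ∑ w ∈ G.vs, t'' w).card :=
        card_lt_card ((ssubset_iff_of_subset hsub2).2 ⟨v, h3, h4⟩)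
      have h6 : (G.vs.filter fun v => t'' v ≠ 0).card * (G.vs.card + 1) ≤
          (G.vs.filter fun v => t' v ≠ 0).card * (G.vs.card + 1) :=
        Nat.mul_le_mul_right _ hc1
      omega

end MG

end RH
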