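import Pool.Agent.Lib.RH.Pot

/-! Medians of potentials (helper65, helper22, helper16): an odd monotone function of certificates is
a certificate; the median of three certificates of `G - j₁`, `G - j₂`, `G - j₃` is a certificate of
`G` itself as soon as they agree at the legs of the others. -/

set_option autoImplicit false

namespace RH

open Finset Classical

/-- the median of three reals -/
noncomputable def med (a b c : ℝ) : ℝ := max (min a b) (min (max a b) c)

theorem med_mono {a b c a' b' c' : ℝ} (h1 : a ≤ a') (h2 : b ≤ b') (h3 : c ≤ c') :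
    med a b c ≤ med a' b' c' :=
  max_le_max (min_le_min h1 h2) (min_le_min (max_le_max h1 h2) h3)

theorem med_neg (a b c : ℝ) : med (-a) (-b) (-c) = -med a b c := by
  unfold med
  rcases le_total a b with h1 | h1 <;> rcases le_total b c with h2 | h2 <;>
    rcases le_total a c with h3 | h3 <;>
    simp only [max_def, min_def] <;> split_ifs <;> linarith

theorem med_comm (a b c : ℝ) : med a b c = med b a c := by
  unfold med
  rw [min_comm a b, max_comm a b]

theorem med_rot (a b c : ℝ) : med a b c = med b c a := by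
  unfold med
  simp only [max_def, min_def]
  split_ifs <;> linarith

/-- two equal entries decide -/
theorem med_self (a b : ℝ) : med a a b = a := by
  unfold med
  rw [min_self, max_self]
  exact max_eq_left (min_le_left _ _)

theorem med_self_right (a b : ℝ) : med b a a = a := by
  rw [med_rot, med_self]

theorem med_self_mid (a b : ℝ) : med a b a = a := by
  rw [med_rot, med_rot, med_self]

/-- the median is one of the three -/
theorem med_mem (a b c : ℝ) : med a b c = a ∨ med a b c = b ∨ med a b c = c := by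
  unfold med
  simp only [max_def, min_def]
  split_ifs <;> simp

namespace MG

variable {V D : Type*} {G : MG V D} {z : D → ℝ} {t : V → ℝ} {fr : Finset V} {F K M : Finset D}
variable {jm X : Finset V}

/-- **an odd monotone function of potentials is a potential** (the exceptional darts are those
where the values of the ends do not cancel) -/
theorem Pot.oddMono {ι : Type*} [Nonempty ι] {E : ι → Finset D} {p : ι → V → ℝ}
    (h : ∀ i, G.Pot z t K (E i) (p i)) {f : (ι → ℝ) → ℝ} (hf : Monotone f)
    (hodd : ∀ q, f (fun i => -q i) = -f q) (hone : f (fun _ => 1) = 1)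
    (hE : ∀ i, ∀ d ∈ E i, 0 < z d →
      f (fun j => p j (G.pi (G.al d))) = f (fun j => -p j (G.pi d))) :
    G.Pot z t K ∅ (fun v => f fun i => p i v) where
  tok v hv ht := by
    rw [← hone]
    congr 1
    ext i
    exact (h i).tok v hv ht
  jq d hd hz hK _ := by
    by_cases he : ∃ i, d ∈ E i
    · obtain ⟨i, hi⟩ := he
      rw [hE i d hi hz, hodd]
      ring
    · have h1 : (fun i => p i (G.pi (G.al d))) = fun i => -p i (G.pi d) := by
        ext i
        have := (h i).jq d hd hz hK fun k => he ⟨i, k⟩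
        linarith
      rw [h1, hodd]
      ring
  kk d hd := by
    have h1 : (fun i => p i (G.pi (G.al d))) ≤ fun i => -p i (G.pi d) := fun i => by
      have := (h i).kk d hd
      simp only
      linarith
    have h2 := hf h1
    rw [hodd] at h2
    linarith
  ee d hd := absurd hd (notMem_empty d)
  Ksub := (h (Classical.arbitrary ι)).Ksub
  Esub := empty_subset _

/-- **the median of three potentials**: at the exceptional darts of one of them the two others
agree and have no exception -/
theorem Pot.median {E₁ E₂ E₃ : Finset D} {p q r : V → ℝ} (h₁ : G.Pot z t K E₁ p)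
    (h₂ : G.Pot z t K E₂ q) (h₃ : G.Pot z t K E₃ r)
    (a₁ : ∀ d ∈ E₁, d ∉ E₂ ∧ d ∉ E₃ ∧ q (G.pi d) = r (G.pi d))
    (a₂ : ∀ d ∈ E₂, d ∉ E₁ ∧ d ∉ E₃ ∧ p (G.pi d) = r (G.pi d))
    (a₃ : ∀ d ∈ E₃, d ∉ E₁ ∧ d ∉ E₂ ∧ p (G.pi d) = q (G.pi d)) :
    G.Pot z t K ∅ (fun v => med (p v) (q v) (r v)) where
  tok v hv ht := by
    rw [h₁.tok v hv ht, h₂.tok v hv ht, med_self]
  jq d hd hz hK _ := by
    by_cases e1 : d ∈ E₁
    · obtain ⟨k1, k2, k3⟩ := a₁ d e1
      have u1 := h₂.jq d hd hz hK k1
      have u2 := h₃.jq d hd hz hK k2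
      have u3 : q (G.pi (G.al d)) = r (G.pi (G.al d)) := by linarith
      rw [← k3, ← u3, med_self_right, med_self_right]
      exact u1
    by_cases e2 : d ∈ E₂
    · obtain ⟨k1, k2, k3⟩ := a₂ d e2
      have u1 := h₁.jq d hd hz hK k1
      have u2 := h₃.jq d hd hz hK k2
      have u3 : p (G.pi (G.al d)) = r (G.pi (G.al d)) := by linarith
      rw [← k3, ← u3, med_self_mid, med_self_mid]
      exact u1
    by_cases e3 : d ∈ E₃
    · obtain ⟨k1, k2, k3⟩ := a₃ d e3
      have u1 := h₁.jq d hd hz hK k1
      have u2 := h₂.jq d hd hz hK k2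
      have u3 : p (G.pi (G.al d)) = q (G.pi (G.al d)) := by linarith
      rw [← k3, ← u3, med_self, med_self]
      exact u1
    have u1 := h₁.jq d hd hz hK e1
    have u2 := h₂.jq d hd hz hK e2
    have u3 := h₃.jq d hd hz hK e3
    have v1 : p (G.pi (G.al d)) = -p (G.pi d) := by linarith
    have v2 : q (G.pi (G.al d)) = -q (G.pi d) := by linarith
    have v3 : r (G.pi (G.al d)) = -r (G.pi d) := by linarith
    rw [v1, v2, v3, med_neg]
    ring
  kk d hd := by
    have u1 := h₁.kk d hd
    have u2 := h₂.kk d hd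
    have u3 := h₃.kk d hd
    have h := med_mono (a := p (G.pi (G.al d))) (b := q (G.pi (G.al d)))
      (c := r (G.pi (G.al d))) (a' := -p (G.pi d)) (b' := -q (G.pi d)) (c' := -r (G.pi d))
      (by linarith) (by linarith) (by linarith)
    rw [med_neg] at h
    linarith
  ee d hd := absurd hd (notMem_empty d)
  Ksub := h₁.Ksub
  Esub := empty_subset _

/-- the median of values in `{-1, 0, 1}` is in `{-1, 0, 1}` -/
theorem med_tri {a b c : ℝ} (ha : a = 1 ∨ a = 0 ∨ a = -1) (hb : b = 1 ∨ b = 0 ∨ b = -1)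
    (hc : c = 1 ∨ c = 0 ∨ c = -1) :
    med a b c = 1 ∨ med a b c = 0 ∨ med a b c = -1 := by
  rcases med_mem a b c with h | h | h <;> rw [h] <;> assumption

/-- values in `{-1, 0, 1}` -/
def Tri (p : V → ℝ) : Prop := ∀ v, p v = 1 ∨ p v = 0 ∨ p v = -1

theorem Tri.le {p : V → ℝ} (h : Tri p) (v : V) : p v ≤ 1 := by
  rcases h v with h | h | h <;> rw [h] <;> norm_num

theorem Tri.ge {p : V → ℝ} (h : Tri p) (v : V) : -1 ≤ p v := by
  rcases h v with h | h | h <;> rw [h] <;> norm_num

theorem Tri.med {p q r : V → ℝ} (h₁ : Tri p) (h₂ : Tri q) (h₃ : Tri r) :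
    Tri fun v => med (p v) (q v) (r v) := fun v => med_tri (h₁ v) (h₂ v) (h₃ v)

/-- `p` where it is not zero, else `q` (helper17) -/
noncomputable def mrg (p q : V → ℝ) (v : V) : ℝ := if p v = 0 then q v else p v

theorem mrg_of_ne {p q : V → ℝ} {v : V} (h : p v ≠ 0) : mrg p q v = p v := if_neg h

theorem mrg_of_eq {p q : V → ℝ} {v : V} (h : p v = 0) : mrg p q v = q v := if_pos h

theorem mrg_eq_zero {p q : V → ℝ} {v : V} : mrg p q v = 0 ↔ p v = 0 ∧ q v = 0 := by
  by_cases h : p v = 0
  · rw [mrg_of_eq h]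
    exact ⟨fun k => ⟨h, k⟩, fun k => k.2⟩
  · rw [mrg_of_ne h]
    exact ⟨fun k => absurd k h, fun k => k.1⟩

theorem Tri.mrg {p q : V → ℝ} (h₁ : Tri p) (h₂ : Tri q) : Tri (mrg p q) := fun v => by
  by_cases h : p v = 0
  · rw [mrg_of_eq h]
    exact h₂ v
  · rw [mrg_of_ne h]
    exact h₁ v

/-- both ends of an exceptional dart have value one -/
theorem Pot.ee_one {E : Finset D} {p : V → ℝ} (h : G.Pot z t K E p) (h1 : Tri p) {d : D}
    (hd : d ∈ E) : p (G.pi d) = 1 ∧ p (G.pi (G.al d)) = 1 := by
  have a := h.ee d hd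
  have b := h1.le (G.pi d)
  have c := h1.le (G.pi (G.al d))
  constructor <;> linarith

/-- **merging two potentials** (helper17): the zero set becomes the common zero set -/
theorem Pot.merge {E₁ E₂ : Finset D} {p q : V → ℝ} (h₁ : G.Pot z t K E₁ p)
    (h₂ : G.Pot z t K E₂ q) (t₁ : Tri p) (t₂ : Tri q)
    (hE : ∀ d ∈ E₂, p (G.pi d) ≠ 0 ∨ p (G.pi (G.al d)) ≠ 0) :
    G.Pot z t K E₁ (mrg p q) where
  tok v hv ht := by
    have h := h₁.tok v hv ht
    rw [mrg_of_ne (by rw [h]; norm_num), h]
  jq d hd hz hK hE1 := by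
    have h := h₁.jq d hd hz hK hE1
    by_cases h3 : p (G.pi d) = 0
    · have h4 : p (G.pi (G.al d)) = 0 := by linarith
      rw [mrg_of_eq h3, mrg_of_eq h4]
      refine h₂.jq d hd hz hK fun k => ?_
      rcases hE d k with k1 | k1
      · exact k1 h3
      · exact k1 h4
    · have h4 : p (G.pi (G.al d)) ≠ 0 := fun k => h3 (by linarith)
      rw [mrg_of_ne h3, mrg_of_ne h4]
      exact h
  kk d hd := by
    have h := h₁.kk d hd
    have b1 := t₂.le (G.pi d)
    have b2 := t₂.le (G.pi (G.al d))
    by_cases h3 : p (G.pi d) = 0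
    · by_cases h4 : p (G.pi (G.al d)) = 0
      · rw [mrg_of_eq h3, mrg_of_eq h4]
        exact h₂.kk d hd
      · rw [mrg_of_eq h3, mrg_of_ne h4]
        rcases t₁ (G.pi (G.al d)) with k | k | k
        · rw [k, h3] at h
          norm_num at h
        · exact absurd k h4
        · linarith
    · by_cases h4 : p (G.pi (G.al d)) = 0
      · rw [mrg_of_ne h3, mrg_of_eq h4]
        rcases t₁ (G.pi d) with k | k | k
        · rw [k, h4] at h
          norm_num at h
        · exact absurd k h3
        · linarith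
      · rw [mrg_of_ne h3, mrg_of_ne h4]
        exact h
  ee d hd := by
    obtain ⟨k1, k2⟩ := h₁.ee_one t₁ hd
    rw [mrg_of_ne (by rw [k1]; norm_num), mrg_of_ne (by rw [k2]; norm_num), k1, k2]
    norm_num
  Ksub := h₁.Ksub
  Esub := h₁.Esub

end MG

end RH
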