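import Pool.Agent.Lib.RH.N4Tok
import Pool.Agent.Lib.RH.SuppM
import Pool.Agent.Lib.RH.Pole

/-! Sets with one unit outside a bad even circuit (helper93, c4_93.md, sections 3 and 4): bookkeeping
and uncrossing. -/

set_option autoImplicit false

namespace RH

open Finset Classical

namespace MG

variable {V D : Type*} {G : MG V D} {z : D → ℝ} {t : V → ℝ} {fr : Finset V} {F : Finset D}
variable {ep : V → ℕ} {m : ℕ} {C C' : Finset V} {P1 P2 P1' P2' : Finset D}

private theorem even_inv (S : Finset D) (hS : S ⊆ G.ds) (hcl : ∀ d ∈ S, G.al d ∈ S) :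
    Even S.card := by
  have h1 : ∑ _d ∈ S, (1 : ZMod 2) = 0 := by
    refine sum_involution (fun d _ => G.al d) ?_ ?_ ?_ ?_
    · intro d _
      decide
    · intro d hd _ he
      exact G.noloop d (hS hd) (by rw [he])
    · intro d hd
      exact hcl d hd
    · intro d hd
      exact G.al_al d (hS hd)
  rw [sum_const, nsmul_eq_mul, mul_one] at h1
  rwa [ZMod.natCast_eq_zero_iff_even] at h1

/-- two circuits are equal or disjoint -/
theorem Circ.eq_or_disj (hC : G.Circ fr F C) (hC' : G.Circ fr F C') : C = C' ∨ Disjoint C C' := by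
  by_cases hd : Disjoint C C'
  · exact Or.inr hd
  · refine Or.inl ?_
    rw [disjoint_iff_inter_eq_empty, ← not_nonempty_iff_eq_empty, not_not] at hd
    have h1 := hC.adm.inter hC'.adm
    exact (hC.min _ h1 inter_subset_left hd).symm.trans (hC'.min _ h1 inter_subset_right hd)

/-- the number of F-darts of a class which leave a set is even -/
theorem FrS.cut_even (hF : G.FrS z fr F ∅) {X : Finset V} (hX : G.Adm fr F X) (W : Finset V) :
    Even ((G.bd W).filter fun d => d ∈ F ∧ G.pi d ∈ X).card := by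
  set S : Finset D := F.filter fun d => G.pi d ∈ X ∩ W with hS
  have h1 : S.card = ∑ v ∈ X ∩ W, 2 := by
    rw [card_eq_sum_card_fiberwise (f := G.pi) (s := S) (t := X ∩ W)
      (fun d hd => mem_coe.2 (mem_filter.1 (mem_coe.1 hd)).2)]
    refine sum_congr rfl fun v hv => ?_
    rw [← hF.two v (hX.sub (mem_inter.1 hv).1)]
    congr 1
    ext d
    rw [mem_filter, mem_filter, mem_filter]
    constructor
    · rintro ⟨⟨h2, -⟩, h3⟩
      exact ⟨h2, h3⟩
    · rintro ⟨h2, rfl⟩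
      exact ⟨⟨h2, hv⟩, rfl⟩
  have h2 : Even (S.filter fun d => G.pi (G.al d) ∈ W).card := by
    refine even_inv (G := G) _ (fun d hd => hF.Fsub (mem_filter.1 (mem_filter.1 hd).1).1) ?_
    intro d hd
    rw [mem_filter, mem_filter, mem_inter] at hd ⊢
    obtain ⟨⟨h3, h4, h5⟩, h6⟩ := hd
    refine ⟨⟨hF.Fal d h3, hX.clo d h3 h4, h6⟩, ?_⟩
    rw [G.al_al d (hF.Fsub h3)]
    exact h5
  have h3 : ((G.bd W).filter fun d => d ∈ F ∧ G.pi d ∈ X) =
      S.filter fun d => ¬ G.pi (G.al d) ∈ W := by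
    ext d
    rw [mem_filter, mem_bd, mem_filter, mem_filter, mem_inter]
    constructor
    · rintro ⟨⟨h4, h5, h6⟩, h7, h8⟩
      exact ⟨⟨h7, h8, h5⟩, h6⟩
    · rintro ⟨⟨h4, h5, h6⟩, h7⟩
      exact ⟨⟨hF.Fsub h4, h6, h7⟩, h4, h5⟩
  have h4 := card_filter_add_card_filter_not (s := S) (fun d => G.pi (G.al d) ∈ W)
  rw [h3]
  rw [sum_const, smul_eq_mul] at h1
  obtain ⟨k, hk⟩ := h2
  rw [Nat.even_iff]
  omega

/-- a set `W` of the family `B_1(C)`, with its unit `U` outside `C` (`U` is empty if the unit is a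
token) -/
structure Bs (G : MG V D) (z : D → ℝ) (t : V → ℝ) (P1 P2 : Finset D) (W : Finset V)
    (U : Finset D) : Prop where
  sub : W ⊆ G.vs
  odd : Odd W.card
  p1 : ∀ d ∈ P1, d ∉ G.bd W
  Ub : U ⊆ G.bd W
  Uz : ∀ d ∈ U, z d = 1
  U2 : ∀ d ∈ U, d ∉ P2
  out : ∀ d ∈ G.bd W, d ∉ P2 → d ∉ U → z d = 0
  tok : ∑ v ∈ W, t v + U.card = 1

/-- the family `B_1(C)` in terms of values -/
def BV (G : MG V D) (z : D → ℝ) (t : V → ℝ) (P1 P2 : Finset D) (W : Finset V) : Prop :=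
  W ⊆ G.vs ∧ Odd W.card ∧ (∀ d ∈ P1, d ∉ G.bd W) ∧
    G.val z t W - ((G.bd W).filter fun d => d ∈ P2).card = 1

theorem Two.z1 (hT : G.Two F C P1 P2) (hF : G.FrS z fr F ∅) (hC : C ⊆ fr) {d : D} (hd : d ∈ P2) :
    z d = 1 :=
  hF.unit d (hF.Fsub (hT.sub2 hd).1) (hC (hT.sub2 hd).2)

/-- splitting the value -/
theorem Two.val_split (hT : G.Two F C P1 P2) (hF : G.FrS z fr F ∅) (hC : C ⊆ fr) (W : Finset V) :
    G.val z t W = ((G.bd W).filter fun d => d ∈ P2).card +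
      ∑ d ∈ (G.bd W).filter (fun d => d ∉ P2), z d + ∑ v ∈ W, t v := by
  unfold MG.val
  rw [← sum_filter_add_sum_filter_not (G.bd W) (fun d => d ∈ P2)]
  have h1 : ∑ d ∈ (G.bd W).filter (fun d => d ∈ P2), z d =
      ((G.bd W).filter fun d => d ∈ P2).card := by
    rw [sum_congr rfl (g := fun _ => (1 : ℝ)) (fun d hd => hT.z1 hF hC (mem_filter.1 hd).2),
      sum_const, nsmul_eq_mul, mul_one]
  rw [h1]

theorem Bs.bv {W : Finset V} {U : Finset D} (h : G.Bs z t P1 P2 W U) (hT : G.Two F C P1 P2)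
    (hF : G.FrS z fr F ∅) (hC : C ⊆ fr) : G.BV z t P1 P2 W := by
  refine ⟨h.sub, h.odd, h.p1, ?_⟩
  rw [hT.val_split hF hC W]
  have h1 : ∑ d ∈ (G.bd W).filter (fun d => d ∉ P2), z d = U.card := by
    have h2 : U ⊆ (G.bd W).filter fun d => d ∉ P2 := fun d hd =>
      mem_filter.2 ⟨h.Ub hd, h.U2 d hd⟩
    rw [← sum_subset h2 fun d hd hn => h.out d (mem_filter.1 hd).1 (mem_filter.1 hd).2 hn]
    rw [sum_congr rfl (g := fun _ => (1 : ℝ)) h.Uz, sum_const, nsmul_eq_mul, mul_one]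
  rw [h1]
  have h3 := h.tok
  linarith

/-- the unit exists (integrality) -/
theorem N4.exists_bs (h : G.N4 z t fr F ∅ ∅ ep m) (hT : G.Two F C P1 P2) (hC : C ⊆ fr)
    {W : Finset V} (hW : G.BV z t P1 P2 W) : ∃ U, G.Bs z t P1 P2 W U := by
  have hF := h.mc.inst.fresh
  have hw := h.mc.inst.wt
  obtain ⟨hs, ho, hp, hv⟩ := hW
  rw [hT.val_split hF hC W] at hv
  set S := (G.bd W).filter fun d => d ∉ P2 with hS
  have hSd : ∀ d ∈ S, d ∈ G.ds := fun d hd => (mem_bd.1 (mem_filter.1 hd).1).1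
  have hv' : ∑ d ∈ S, z d + ∑ v ∈ W, t v = 1 := by linarith
  have hz0 : 0 ≤ ∑ d ∈ S, z d := sum_nonneg fun d hd => hw.z0 d (hSd d hd)
  have ht0 : 0 ≤ ∑ v ∈ W, t v := sum_nonneg fun v hv => hw.t0 v (hs hv)
  by_cases hex : ∃ g ∈ S, z g ≠ 0
  · obtain ⟨g, hg, hg0⟩ := hex
    obtain ⟨k, hk⟩ := h.zint (hSd g hg)
    have hk1 : (1 : ℝ) ≤ z g := by
      rw [hk] at hg0 ⊢
      have : k ≠ 0 := fun h0 => hg0 (by rw [h0]; norm_num)
      exact_mod_cast Nat.one_le_iff_ne_zero.2 this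
    have h1 : z g + ∑ d ∈ S.erase g, z d = ∑ d ∈ S, z d := add_sum_erase _ _ hg
    have h2 : 0 ≤ ∑ d ∈ S.erase g, z d :=
      sum_nonneg fun d hd => hw.z0 d (hSd d (mem_of_mem_erase hd))
    have h3 : ∑ d ∈ S.erase g, z d = 0 := by linarith
    have h4 : z g = 1 := by linarith
    have h5 := (sum_eq_zero_iff_of_nonneg
      (fun d hd => hw.z0 d (hSd d (mem_of_mem_erase hd)))).1 h3
    refine ⟨{g}, hs, ho, hp, ?_, ?_, ?_, ?_, ?_⟩
    · rw [singleton_subset_iff]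
      exact (mem_filter.1 hg).1
    · intro d hd
      rw [mem_singleton.1 hd]
      exact h4
    · intro d hd
      rw [mem_singleton.1 hd]
      exact (mem_filter.1 hg).2
    · intro d hd h6 h7
      exact h5 d (mem_erase.2 ⟨fun h8 => h7 (mem_singleton.2 h8), mem_filter.2 ⟨hd, h6⟩⟩)
    · rw [card_singleton]
      push_cast
      linarith
  · push Not at hex
    have h1 : ∑ d ∈ S, z d = 0 := sum_eq_zero hex
    refine ⟨∅, hs, ho, hp, empty_subset _, fun d hd => absurd hd (notMem_empty d),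
      fun d hd => absurd hd (notMem_empty d), fun d hd h6 _ => hex d (mem_filter.2 ⟨hd, h6⟩), ?_⟩
    rw [card_empty]
    push_cast
    linarith

/-- F-darts leave the set only in `P2` -/
theorem Bs.noF {W : Finset V} {U : Finset D} (h : G.Bs z t P1 P2 W U) (hT : G.Two F C P1 P2)
    (hF : G.FrS z fr F ∅) (hw : G.Wt z t) (hC : G.Circ fr F C) {d : D} (hd : d ∈ G.bd W)
    (hdF : d ∈ F) : d ∈ P2 := by
  by_contra hn
  have hdf : G.pi d ∈ fr := hF.Ffr d hdF
  have hz : z d = 1 := hF.unit d (hF.Fsub hdF) hdf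
  have hU : d ∈ U := by
    by_contra h1
    rw [h.out d hd hn h1] at hz
    norm_num at hz
  have hvC : G.pi d ∉ C := by
    intro h1
    have h2 : d ∈ P1 ∪ P2 := by
      rw [hT.un]
      exact mem_filter.2 ⟨hdF, h1⟩
    rcases mem_union.1 h2 with h3 | h3
    · exact h.p1 d h3 hd
    · exact hn h3
  have hfa : G.Adm fr F fr := ⟨Finset.Subset.refl _, fun d hd _ => hF.Ffr _ (hF.Fal d hd)⟩
  obtain ⟨X, -, hX1, hX2, hX3⟩ := hF.exists_class hfa hdf
  have hdis : Disjoint X C := by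
    by_contra h1
    rw [disjoint_iff_inter_eq_empty, ← not_nonempty_iff_eq_empty, not_not] at h1
    exact hvC (hX3 C hC.adm (by rwa [inter_comm]) hX1)
  have h1 := hF.cut_even hX2 W
  have h2 : d ∈ (G.bd W).filter fun d => d ∈ F ∧ G.pi d ∈ X := mem_filter.2 ⟨hd, hdF, hX1⟩
  have h3 : 1 < ((G.bd W).filter fun d => d ∈ F ∧ G.pi d ∈ X).card := by
    have h4 : 0 < ((G.bd W).filter fun d => d ∈ F ∧ G.pi d ∈ X).card := card_pos.2 ⟨d, h2⟩
    obtain ⟨k, hk⟩ := h1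
    omega
  obtain ⟨d', h4, h5⟩ := exists_mem_ne h3 d
  obtain ⟨h6, h7, h8⟩ := mem_filter.1 h4
  have hz' : z d' = 1 := hF.unit d' (hF.Fsub h7) (hF.Ffr d' h7)
  have hUc : U.card ≤ 1 := by
    have h9 := h.tok
    have h10 : 0 ≤ ∑ v ∈ W, t v := sum_nonneg fun v hv => hw.t0 v (h.sub hv)
    have h11 : (U.card : ℝ) ≤ 1 := by linarith
    exact_mod_cast h11
  have h9 : d' ∉ U := fun h10 => h5 (card_le_one.1 hUc d' h10 d hU)
  have h10 : d' ∉ P2 := fun h11 => disjoint_left.1 hdis h8 (hT.sub2 h11).2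
  rw [h.out d' h6 h10 h9] at hz'
  norm_num at hz'

/-- other circuits are not cut -/
theorem Bs.nocut {W : Finset V} {U : Finset D} (h : G.Bs z t P1 P2 W U) (hT : G.Two F C P1 P2)
    (hF : G.FrS z fr F ∅) (hw : G.Wt z t) (hC : G.Circ fr F C) (hC' : G.Circ fr F C')
    (hdis : Disjoint C C') {v : V} (hv : v ∈ C') (hvW : v ∈ W) : C' ⊆ W := by
  have h1 : G.Adm fr F (C' ∩ W) := by
    refine ⟨inter_subset_left.trans hC'.adm.sub, fun d hd hp => ?_⟩
    obtain ⟨h2, h3⟩ := mem_inter.1 hp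
    refine mem_inter.2 ⟨hC'.adm.clo d hd h2, ?_⟩
    by_contra h4
    have h5 := h.noF hT hF hw hC (mem_bd.2 ⟨hF.Fsub hd, h3, h4⟩) hd
    exact disjoint_left.1 hdis (hT.sub2 h5).2 h2
  have h2 := hC'.min _ h1 inter_subset_left ⟨v, mem_inter.2 ⟨hv, hvW⟩⟩
  rw [← h2]
  exact inter_subset_right

end MG

end RH
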