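import Pool.Agent.Lib.RH.N4Tok
import Pool.Agent.Lib.RH.Pole

/-! No `Dig` sets in the normal form with 4 tokens, without star: the rest of `q` is one token (then
the leg at `p` is killed with the walk `p - q`) or one edge (then `{p, q}` is a 2-pole). Hence every
nontrivial tight set contains both ends of every leg at a vertex without two tokens. -/

set_option autoImplicit false

namespace RH

open Finset Classical

namespace MG

variable {V D : Type*} {G : MG V D} {z z' : D → ℝ} {t t' : V → ℝ} {fr : Finset V} {F : Finset D}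
variable {jm sx : Finset V} {ep : V → ℕ} {m : ℕ} {M : Finset D} {W : Finset V} {x p q : V}

/-- the darts at the vertices of a `Dig` set -/
theorem Dig.sum_pq (h : G.Dig z t fr W x p q) (hF : G.FrS z fr F jm) (hw : G.Wt z t)
    (hW : W ⊆ G.vs) : ∃ e ∈ G.ds, G.pi e = x ∧ G.pi (G.al e) = p ∧ z e = 1 ∧
      (∀ d ∈ G.ds, G.pi d = p → G.pi (G.al d) = x → z d ≠ 0 → d = G.al e) ∧
      ∑ d ∈ (G.st p).filter (fun d => G.pi (G.al d) = q), z d = 2 ∧
      ∑ d ∈ (G.st q).filter (fun d => G.pi (G.al d) ≠ p), z d + t q = 1 := by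
  have hm : ∀ v ∈ ({x, p, q} : Finset V), v ∈ G.vs := by
    intro v hv
    rw [← h.W] at hv
    exact hW hv
  have hpv : p ∈ G.vs := hm p (by simp)
  have hqv : q ∈ G.vs := hm q (by simp)
  obtain ⟨e, he, hex, hep⟩ := h.xp
  have heF : e ∉ F := fun h1 => h.pf (hep ▸ hF.Ffr _ (hF.Fal e h1))
  have hxjm : x ∉ jm := fun h1 => heF (hF.j0 x h1 e (mem_st.2 ⟨he, hex⟩))
  obtain ⟨i, hi, hix, hiF, huniq⟩ := hF.exists_jd h.xf hxjm
  have hei : e = i := huniq e he hex heF
  have hze : z e = 1 := hF.unit e he (by rw [hex]; exact h.xf)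
  have hone : ∀ d ∈ G.ds, G.pi d = p → G.pi (G.al d) = x → d = G.al e := by
    intro d hd hdp hdx
    have h6 : G.al d ∉ F := fun h7 => by
      have h8 := hF.Ffr _ (hF.Fal _ h7)
      rw [G.al_al d hd, hdp] at h8
      exact h.pf h8
    rw [hei, ← huniq (G.al d) (G.al_mem d hd) hdx h6, G.al_al d hd]
  have hpq : ∑ d ∈ (G.st p).filter (fun d => G.pi (G.al d) = q), z d = 2 := by
    have h1 := hw.deg p hpv
    rw [h.tp, add_zero] at h1
    have h2 := sum_filter_add_sum_filter_not (G.st p) (fun d => G.pi (G.al d) = q) z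
    have h3 : ∑ d ∈ (G.st p).filter (fun d => ¬ G.pi (G.al d) = q), z d = z (G.al e) := by
      refine sum_eq_single_of_mem (G.al e) ?_ fun d hd hne => ?_
      · refine mem_filter.2 ⟨mem_st.2 ⟨G.al_mem e he, hep⟩, ?_⟩
        rw [G.al_al e he, hex]
        rintro rfl
        exact h.qf h.xf
      · obtain ⟨h3, h4⟩ := mem_filter.1 hd
        obtain ⟨h5, h6⟩ := mem_st.1 h3
        by_contra hz
        rcases h.nb d h5 h6 hz with h7 | h7
        · exact hne (hone d h5 h6 h7)
        · exact h4 h7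
    rw [h3, hw.sym e he, hze] at h2
    linarith
  refine ⟨e, he, hex, hep, hze, fun d hd h1 h2 _ => hone d hd h1 h2, hpq, ?_⟩
  have h1 := hw.deg q hqv
  have h2 := sum_filter_add_sum_filter_not (G.st q) (fun d => G.pi (G.al d) = p) z
  have h3 : ∑ d ∈ (G.st q).filter (fun d => G.pi (G.al d) = p), z d =
      ∑ d ∈ (G.st p).filter (fun d => G.pi (G.al d) = q), z d := by
    refine sum_bij' (fun d _ => G.al d) (fun d _ => G.al d) ?_ ?_ ?_ ?_ ?_
    · intro d hd
      obtain ⟨h3, h4⟩ := mem_filter.1 hd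
      obtain ⟨h5, h6⟩ := mem_st.1 h3
      exact mem_filter.2 ⟨mem_st.2 ⟨G.al_mem d h5, h4⟩, by rw [G.al_al d h5]; exact h6⟩
    · intro d hd
      obtain ⟨h3, h4⟩ := mem_filter.1 hd
      obtain ⟨h5, h6⟩ := mem_st.1 h3
      exact mem_filter.2 ⟨mem_st.2 ⟨G.al_mem d h5, h4⟩, by rw [G.al_al d h5]; exact h6⟩
    · intro d hd
      exact G.al_al d (mem_st.1 (mem_filter.1 hd).1).1
    · intro d hd
      exact G.al_al d (mem_st.1 (mem_filter.1 hd).1).1
    · intro d hd
      exact (hw.sym d (mem_st.1 (mem_filter.1 hd).1).1).symm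
  rw [h3, hpq] at h2
  linarith

/-- no `Dig` sets at 4 tokens without star -/
theorem N4.no_dig (h : G.N4 z t fr F ∅ ∅ ep 0) (hW : W ⊆ G.vs) (hd : G.Dig z t fr W x p q) :
    False := by
  have hF := h.mc.inst.fresh
  have hw := h.mc.inst.wt
  have hm : ∀ v ∈ ({x, p, q} : Finset V), v ∈ G.vs := by
    intro v hv
    rw [← hd.W] at hv
    exact hW hv
  have hpv : p ∈ G.vs := hm p (by simp)
  have hqv : q ∈ G.vs := hm q (by simp)
  obtain ⟨e, he, hex, hep, hze, hone, hpq, hq1⟩ := hd.sum_pq hF hw hW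
  -- no token at `q`
  have htq : t q = 0 := by
    by_contra htq
    have h0 : 0 < t q := lt_of_le_of_ne (hw.t0 q hqv) (Ne.symm htq)
    obtain ⟨d, hd1, hd2⟩ := exists_ne_zero_of_sum_ne_zero (by rw [hpq]; norm_num :
      ∑ d ∈ (G.st p).filter (fun d => G.pi (G.al d) = q), z d ≠ 0)
    obtain ⟨h1, h2⟩ := mem_filter.1 hd1
    obtain ⟨h3, h4⟩ := mem_st.1 h1
    refine h.killQ (j := e) he (by rw [hex]; exact hd.xf) (by rw [hep]; exact hd.pf) (q := q)
      (l := [d]) ?_ (by simp) (Or.inl h0)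
    rw [hep]
    exact ⟨mem_sd.2 ⟨h3, hd2, by rw [h4]; exact hd.pf, by rw [h2]; exact hd.qf⟩, h4, h2⟩
  rw [htq, add_zero] at hq1
  -- the other edge at `q`
  obtain ⟨f, hf1, hf2⟩ := exists_ne_zero_of_sum_ne_zero (by rw [hq1]; norm_num :
    ∑ d ∈ (G.st q).filter (fun d => G.pi (G.al d) ≠ p), z d ≠ 0)
  obtain ⟨hf3, hf4⟩ := mem_filter.1 hf1
  obtain ⟨hf5, hf6⟩ := mem_st.1 hf3
  have h0 : ∀ d ∈ (G.st q).filter (fun d => G.pi (G.al d) ≠ p), 0 ≤ z d := fun d hd' =>
    hw.z0 d (mem_st.1 (mem_filter.1 hd').1).1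
  have hfz : z f = 1 := by
    have h1 := single_le_sum (f := z) h0 hf1
    have h2 := h.z_ge hf5 hf2
    linarith
  have huf : ∀ d ∈ G.ds, G.pi d = q → G.pi (G.al d) ≠ p → z d ≠ 0 → d = f := by
    intro d h1 h2 h3 h4
    by_contra hne
    have h5 : ({d, f} : Finset D) ⊆ (G.st q).filter (fun d => G.pi (G.al d) ≠ p) := by
      intro c hc
      rw [mem_insert, mem_singleton] at hc
      rcases hc with rfl | rfl
      · exact mem_filter.2 ⟨mem_st.2 ⟨h1, h2⟩, h3⟩
      · exact hf1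
    have h6 := sum_le_sum_of_subset_of_nonneg (f := z) h5 (fun c hc _ => h0 c hc)
    rw [sum_pair hne, hq1, hfz] at h6
    have h7 := h.z_ge h1 h4
    linarith
  have hfp : G.pi (G.al f) ≠ q := fun h1 => G.noloop f hf5 (h1.trans hf6.symm)
  refine h.mc.no_pole (T := {p, q}) (a := e) (b := G.al f) (by rw [h.tau]; norm_num) ?_
  refine
    { sub := ?_
      even := by rw [card_pair hd.pq]; exact ⟨1, rfl⟩
      dis := ?_
      tok := ?_
      ad := he
      bd := G.al_mem f hf5
      aT := ?_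
      bT := ?_
      aT' := ?_
      bT' := ?_
      ne := ?_
      za := hze
      zb := by rw [hw.sym f hf5, hfz]
      out := ?_ }
  · intro v hv
    rw [mem_insert, mem_singleton] at hv
    rcases hv with rfl | rfl
    · exact hpv
    · exact hqv
  · rw [disjoint_left]
    intro v hv
    rw [mem_insert, mem_singleton] at hv
    rcases hv with rfl | rfl
    · exact hd.pf
    · exact hd.qf
  · intro v hv
    rw [mem_insert, mem_singleton] at hv
    rcases hv with rfl | rfl
    · exact hd.tp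
    · exact htq
  · rw [hex, mem_insert, mem_singleton, not_or]
    exact ⟨fun h1 => hd.pf (h1 ▸ hd.xf), fun h1 => hd.qf (h1 ▸ hd.xf)⟩
  · rw [mem_insert, mem_singleton, not_or]
    exact ⟨hf4, hfp⟩
  · rw [hep]
    exact mem_insert_self _ _
  · rw [G.al_al f hf5, hf6]
    simp
  · intro h1
    rw [h1, G.al_al f hf5, hf6] at hep
    exact hd.pq hep.symm
  · intro d h1 h2 h3 h4 h5
    by_contra hz
    have hz' : z (G.al d) ≠ 0 := by rw [hw.sym d h1]; exact hz
    have h1' := G.al_mem d h1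
    rw [mem_insert, mem_singleton, not_or] at h2
    rw [mem_insert, mem_singleton] at h3
    rcases h3 with h3 | h3
    · rcases hd.nb (G.al d) h1' h3 hz' with h6 | h6
      · have h7 := hone (G.al d) h1' h3 h6 hz'
        apply h4
        rw [← G.al_al d h1, h7, G.al_al e he]
      · rw [G.al_al d h1] at h6
        exact h2.2 h6
    · have h6 := huf (G.al d) h1' h3 (by rw [G.al_al d h1]; exact h2.1) hz'
      apply h5
      rw [← h6, G.al_al d h1]

/-- nontrivial tight sets contain both ends of the legs at vertices without two tokens -/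
theorem N4.legin' (h : G.N4 z t fr F ∅ ∅ ep 0) (hW : W ⊆ G.vs) (ho : Odd W.card)
    (h3 : G.val z t W = 3) (hc1 : 3 ≤ W.card) (hc2 : 3 ≤ (G.vs \ W).card) {j : D}
    (hj : j ∈ G.ds) (hx : G.pi j ∈ fr) (hw : G.pi (G.al j) ∉ fr)
    (ht : t (G.pi (G.al j)) ≠ 2) : G.pi j ∈ W ∧ G.pi (G.al j) ∈ W := by
  rcases h.legin z t h.mc.inst.alt_refl W hW ho h3 hc1 hc2 j hj hx hw ht with h1 |
    ⟨x, p, q, h1⟩
  · exact h1
  · exact (h.no_dig hW h1).elim

end MG

end RH
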