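import Pool.Agent.Lib.RH.N4Ex

/-! Existence of the normal form with 4 tokens, with or without star (helper50).

With star there are tight sets which are complements of sets `{y} ∪ A`, where `y` has half of the
tokens and `A` consists of fresh vertices (`Atom`). If all legs which start in `A` end at `y`
(`NoLeg`), they contain both ends of all legs at vertices without two tokens (`Atom.legin`). The second alternative of `MCS.exists_n4` (all legs end at
vertices with two tokens) is impossible with star, too (`MCS.no_two_legs'`). -/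

set_option autoImplicit false

namespace RH

open Finset Classical

namespace MG

variable {V D : Type*} {G : MG V D} {z z' : D → ℝ} {t t' : V → ℝ} {fr : Finset V} {F : Finset D}
variable {jm sx : Finset V} {ep : V → ℕ} {m : ℕ} {M : Finset D} {W : Finset V} {y : V}

/-- the number of tokens at the fresh vertices is the number of vertices without J-dart -/
theorem FrS.sum_tok (hF : G.FrS z fr F jm) (hw : G.Wt z t) : ∑ v ∈ fr, t v = jm.card := by
  rw [← sum_sdiff hF.jms, sum_eq_zero fun v hv => hF.t_not_jm hw (mem_sdiff.1 hv).1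
    (mem_sdiff.1 hv).2, zero_add, sum_congr rfl fun v hv => hF.t_jm hw hv, sum_const,
    nsmul_eq_mul, mul_one]

/-- the tokens outside the fresh vertices -/
theorem FrS.sum_tok_out (hF : G.FrS z fr F jm) (hw : G.Wt z t) :
    ∑ v ∈ G.vs \ fr, t v = ∑ v ∈ G.vs, t v - jm.card := by
  have h1 := sum_sdiff hF.fsub (f := t)
  rw [hF.sum_tok hw] at h1
  linarith

/-- a vertex with a leg has at most two tokens -/
theorem FrS.leg_t_le (hF : G.FrS z fr F jm) (hw : G.Wt z t) {j : D} (hj : j ∈ G.ds)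
    (hx : G.pi j ∈ fr) : t (G.pi (G.al j)) ≤ 2 := by
  have haj := G.al_mem j hj
  have h1 := hw.deg _ (G.pi_mem _ haj)
  have h2 : z (G.al j) = 1 := by
    rw [hw.sym j hj]
    exact hF.unit j hj hx
  have h3 := single_le_sum (f := z) (fun e he => hw.z0 e (mem_st.1 he).1)
    (mem_st.2 ⟨haj, rfl⟩ : G.al j ∈ G.st (G.pi (G.al j)))
  linarith

/-- a vertex with a leg and two tokens has no other support dart -/
theorem FrS.leg_two (hF : G.FrS z fr F jm) (hw : G.Wt z t) {j : D} (hj : j ∈ G.ds)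
    (hx : G.pi j ∈ fr) (ht : t (G.pi (G.al j)) = 2) {e : D} (he : e ∈ G.ds)
    (hp : G.pi e = G.pi (G.al j)) (hne : e ≠ G.al j) : z e = 0 := by
  have haj := G.al_mem j hj
  have h1 := hw.deg _ (G.pi_mem _ haj)
  rw [ht] at h1
  have h2 : z (G.al j) = 1 := by
    rw [hw.sym j hj]
    exact hF.unit j hj hx
  have h3 : z e + z (G.al j) ≤ ∑ d ∈ G.st (G.pi (G.al j)), z d := by
    have h4 : ({e, G.al j} : Finset D) ⊆ G.st (G.pi (G.al j)) := by
      intro d hd
      rw [mem_insert, mem_singleton] at hd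
      rcases hd with rfl | rfl
      · exact mem_st.2 ⟨he, hp⟩
      · exact mem_st.2 ⟨haj, rfl⟩
    have h5 := sum_le_sum_of_subset_of_nonneg (f := z) h4
      (fun d hd _ => hw.z0 d (mem_st.1 hd).1)
    rwa [sum_pair hne] at h5
  have h6 := hw.z0 e he
  linarith

/-- NOT ALL LEGS END AT VERTICES WITH TWO TOKENS (with or without star). With star there is only one
such vertex `w`, with one leg, and `fr ∪ {w}` is everything: `fr` is an odd union with one
boundary edge and at most two virtual ports -/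
theorem MCS.no_two_legs' (h : G.MCS z t fr F jm sx ep m) (htau : ∑ v ∈ G.vs, t v = 4)
    (hl : ∀ j ∈ G.ds, G.pi j ∈ fr → G.pi (G.al j) ∉ fr → t (G.pi (G.al j)) = 2) : False := by
  have hI := h.inst
  have hF := hI.fresh
  have hw := hI.wt
  rcases hI.jm2 with hj0 | hj2
  · have h1 : sx = ∅ := hI.sx_eq.trans hj0
    subst hj0
    subst h1
    exact h.no_two_legs htau hl
  -- the vertices with legs
  set B : Finset V := G.vs.filter fun w => w ∉ fr ∧ ∃ j ∈ G.ds, G.pi j ∈ fr ∧ G.pi (G.al j) = w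
    with hB
  have hall : fr ∪ B = G.vs := by
    by_contra hne
    have hsub : fr ∪ B ⊆ G.vs := union_subset hF.fsub (filter_subset _ _)
    obtain ⟨v, hv⟩ := h.fr_ne
    obtain ⟨d, hd, hz⟩ := h.conn hsub ⟨v, mem_union_left _ hv⟩ hne
    obtain ⟨h1, h2, h3⟩ := mem_bd.1 hd
    rw [mem_union] at h2 h3
    push Not at h3
    rcases h2 with h2 | h2
    · apply h3.2
      exact mem_filter.2 ⟨G.pi_mem _ (G.al_mem d h1), h3.1, d, h1, h2, rfl⟩
    · obtain ⟨-, h4, j, hj, hx, hjw⟩ := mem_filter.1 h2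
      refine hz (hF.leg_two hw hj hx (hl j hj hx (by rw [hjw]; exact h4)) h1 hjw.symm ?_)
      rintro rfl
      apply h3.1
      rw [G.al_al j hj]
      exact hx
  have hdis : Disjoint fr B := by
    rw [disjoint_left]
    intro v hv hvB
    exact (mem_filter.1 hvB).2.1 hv
  -- one such vertex
  have hcard : B.card = 1 := by
    have h1 : ∑ v ∈ G.vs, t v = ∑ v ∈ fr, t v + ∑ v ∈ B, t v := by
      rw [← hall, sum_union hdis]
    have h3 : ∑ v ∈ B, t v = 2 * B.card := by
      rw [sum_congr rfl fun w hw' => show t w = 2 by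
        obtain ⟨-, h4, j, hj, hx, rfl⟩ := mem_filter.1 hw'
        exact hl j hj hx h4]
      rw [sum_const, nsmul_eq_mul, mul_comm]
    rw [hF.sum_tok hw, h3, htau, hj2] at h1
    push_cast at h1
    have h4 : (B.card : ℝ) = 1 := by linarith
    exact_mod_cast h4
  have hodd : Odd fr.card := by
    have h1 : fr.card + B.card = G.vs.card := by
      rw [← hall, card_union_of_disjoint hdis]
    obtain ⟨k, hk⟩ := hI.even
    exact ⟨k - 1, by omega⟩
  obtain ⟨w, hwB⟩ := card_eq_one.1 hcard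
  -- one boundary dart
  have hbd : (G.bd fr).card ≤ 1 := by
    rw [card_le_one]
    intro d1 hd1 d2 hd2
    obtain ⟨a1, a2, a3⟩ := mem_bd.1 hd1
    obtain ⟨b1, b2, b3⟩ := mem_bd.1 hd2
    have e1 : G.pi (G.al d1) = w := by
      have : G.pi (G.al d1) ∈ B :=
        mem_filter.2 ⟨G.pi_mem _ (G.al_mem _ a1), a3, d1, a1, a2, rfl⟩
      rwa [hwB, mem_singleton] at this
    have e2 : G.pi (G.al d2) = w := by
      have : G.pi (G.al d2) ∈ B :=
        mem_filter.2 ⟨G.pi_mem _ (G.al_mem _ b1), b3, d2, b1, b2, rfl⟩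
      rwa [hwB, mem_singleton] at this
    by_contra hne
    have h1 := hF.leg_two hw a1 a2 (hl d1 a1 a2 a3) (G.al_mem d2 b1) (e2.trans e1.symm)
      (fun he => hne (by rw [← G.al_al d1 a1, ← he, G.al_al d2 b1]))
    rw [hw.sym d2 b1, hF.unit d2 b1 b2] at h1
    norm_num at h1
  have hep : ∑ v ∈ fr, ep v ≤ 2 := by
    have h1 : ∑ v ∈ fr, ep v ≤ ∑ v ∈ fr, if v ∈ jm then 1 else 0 :=
      sum_le_sum fun v hv => hI.epj v hv
    have h2 : (∑ v ∈ fr, if v ∈ jm then 1 else 0) = (fr.filter fun v => v ∈ jm).card := by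
      rw [card_filter]
    have h3 : (fr.filter fun v => v ∈ jm) = jm := by
      ext v
      rw [mem_filter]
      exact ⟨fun h => h.2, fun h => ⟨hF.jms h, h⟩⟩
    rw [h2, h3, hj2] at h1
    exact h1
  have hc := hI.cc fr ⟨Subset.refl _, fun d hd _ => hF.Ffr _ (hF.Fal d hd)⟩ hodd
  omega

/-- a leg at a vertex without two tokens exists in `N4` (with or without star) -/
theorem N4.exists_leg' (h : G.N4 z t fr F jm sx ep m) :
    ∃ j ∈ G.ds, G.pi j ∈ fr ∧ G.pi (G.al j) ∉ fr ∧ t (G.pi (G.al j)) ≠ 2 := by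
  by_contra hn
  push Not at hn
  exact h.mc.no_two_legs' h.tau fun j hj hx hw => hn j hj hx hw

/-- EXISTENCE OF THE NORMAL FORM, with or without star -/
theorem MCS.exists_n4s (h : G.MCS z t fr F jm sx ep m) (hR : G.Rigid z fr)
    (hL : ∀ z' t', G.Alt z fr z' t' → ∀ W ⊆ G.vs, Odd W.card → G.val z' t' W = 3 → 3 ≤ W.card →
      3 ≤ (G.vs \ W).card → ∀ j ∈ G.ds, G.pi j ∈ fr → G.pi (G.al j) ∉ fr →
      t' (G.pi (G.al j)) ≠ 2 → (G.pi j ∈ W ∧ G.pi (G.al j) ∈ W) ∨
        ∃ x p q, G.Dig z' t' fr W x p q)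
    (h4 : ∃ z' t', G.Alt z fr z' t' ∧ ∑ v ∈ G.vs, t' v ≤ 4) :
    ∃ z' t', G.Alt z fr z' t' ∧ G.N4 z' t' fr F jm sx ep m := by
  obtain ⟨z', t', h1, h2 | ⟨h2, h3, h5⟩⟩ := h.exists_n4 hR hL h4
  · exact ⟨z', t', h1, h2⟩
  · exact (h2.no_two_legs' h3 h5).elim

/-- the condition on an atom set `W` (with the exceptional vertex `y`) which makes all legs killable:
the legs which start outside `W` end at `y` -/
def NoLeg (G : MG V D) (fr W : Finset V) (y : V) : Prop :=
  ∀ j ∈ G.ds, G.pi j ∈ fr → G.pi j ∉ W → G.pi (G.al j) ∉ fr → G.pi (G.al j) = y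

/-- both ends of a leg at a vertex without two tokens are in an atom set -/
theorem Atom.legin (hA : G.Atom t fr W y) (hn : G.NoLeg fr W y) (hF : G.FrS z fr F jm)
    (hw : G.Wt z t) (htau : 4 ≤ ∑ v ∈ G.vs, t v) {j : D} (hj : j ∈ G.ds)
    (hx : G.pi j ∈ fr) (hwf : G.pi (G.al j) ∉ fr) (ht : t (G.pi (G.al j)) ≠ 2) :
    G.pi j ∈ W ∧ G.pi (G.al j) ∈ W := by
  have hne : G.pi (G.al j) ≠ y := by
    intro h1
    have h2 := hF.leg_t_le hw hj hx
    have h3 := hA.ty
    rw [h1] at h2 ht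
    exact ht (by linarith)
  constructor
  · by_contra h1
    exact hne (hn j hj hx h1 hwf)
  · by_contra h1
    exact hwf (hA.sub _ (G.pi_mem _ (G.al_mem j hj)) h1 hne)

/-- the list of tight sets, with atom sets whose legs end at `y` -/
def StarT (G : MG V D) (z : D → ℝ) (fr : Finset V) : Prop :=
  ∀ z' t', G.Alt z fr z' t' → ∀ W ⊆ G.vs, Odd W.card → G.val z' t' W = 3 → 3 ≤ W.card →
    3 ≤ (G.vs \ W).card → (∃ x p q, G.Dig z' t' fr W x p q) ∨ (∃ u a b, G.Cap z' t' fr W u a b) ∨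
      ∃ y, G.Atom t' fr W y ∧ G.NoLeg fr W y

theorem StarT.alt (h : G.StarT z fr) (ha : G.Alt z fr z' t') : G.StarT z' fr :=
  fun z'' t'' h1 => h z'' t'' (ha.trans h1)

theorem TightList.starT (h : G.TightList z fr) : G.StarT z fr :=
  fun z' t' ha W hW ho h3 hc1 hc2 => (h z' t' ha W hW ho h3 hc1 hc2).imp_right Or.inl

/-- `Rigid` without star -/
theorem TightList.rigid (h : G.TightList z fr) : G.Rigid z fr :=
  fun z' t' ha W hW ho h3 hc1 hc2 => Or.inr ((h z' t' ha W hW ho h3 hc1 hc2).imp_right Or.inl)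

theorem StarT.rigid (hT : G.StarT z fr) : G.Rigid z fr := by
  intro z' t' ha W hW ho h3 hc1 hc2
  rcases hT z' t' ha W hW ho h3 hc1 hc2 with h1 | h1 | ⟨y, h1, -⟩
  · exact Or.inr (Or.inl h1)
  · exact Or.inr (Or.inr (Or.inl h1))
  · exact Or.inr (Or.inr (Or.inr ⟨y, h1⟩))

/-- `legin` with or without star -/
theorem StarT.legin (hT : G.StarT z fr) (h : G.MCS z t fr F jm sx ep m) :
    ∀ z' t', G.Alt z fr z' t' → ∀ W ⊆ G.vs, Odd W.card → G.val z' t' W = 3 → 3 ≤ W.card →
      3 ≤ (G.vs \ W).card → ∀ j ∈ G.ds, G.pi j ∈ fr → G.pi (G.al j) ∉ fr →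
      t' (G.pi (G.al j)) ≠ 2 → (G.pi j ∈ W ∧ G.pi (G.al j) ∈ W) ∨
        ∃ x p q, G.Dig z' t' fr W x p q := by
  intro z' t' ha W hW ho h3 hc1 hc2 j hj hx hw ht
  have hm := (h.alt ha).1
  rcases hT z' t' ha W hW ho h3 hc1 hc2 with h1 | ⟨u, a, b, h1⟩ | ⟨y, h1, h2⟩
  · exact Or.inr h1
  · exact Or.inl (h1.legin hm.inst.fresh hm.inst.wt hm.tau_ge hj hx hw ht)
  · exact Or.inl (h1.legin h2 hm.inst.fresh hm.inst.wt hm.tau_ge hj hx hw ht)

/-- EXISTENCE OF THE NORMAL FORM, from the list of tight sets (with or without star) -/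
theorem MCS.exists_n4_star (h : G.MCS z t fr F jm sx ep m)
    (hT : G.StarT z fr) (h4 : ∃ z' t', G.Alt z fr z' t' ∧ ∑ v ∈ G.vs, t' v ≤ 4) :
    ∃ z' t', G.Alt z fr z' t' ∧ G.N4 z' t' fr F jm sx ep m :=
  h.exists_n4s hT.rigid (hT.legin h) h4

/-- EXISTENCE OF THE NORMAL FORM WITHOUT STAR, from the list of tight sets -/
theorem MCS.exists_n4_list (h : G.MCS z t fr F jm sx ep m)
    (hT : G.TightList z fr) (h4 : ∃ z' t', G.Alt z fr z' t' ∧ ∑ v ∈ G.vs, t' v ≤ 4) :
    ∃ z' t', G.Alt z fr z' t' ∧ G.N4 z' t' fr F jm sx ep m :=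
  h.exists_n4_star hT.starT h4

end MG

end RH
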