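import Pool.Agent.Lib.RH.N4S4
import Pool.Agent.Lib.RH.N4Star
import Pool.Agent.Lib.RH.LemA2

/-! Four tokens, star-free: end of the proof (helper93, c4_93.md, section 5). The only remaining
case: an even circuit for which both suppressions violate (C) (U-bad). -/

set_option autoImplicit false

namespace RH

open Finset Classical

namespace MG

variable {V D : Type*} {G : MG V D} {z z' : D → ℝ} {t t' : V → ℝ} {fr : Finset V} {F : Finset D}
variable {ep : V → ℕ} {m : ℕ} {C : Finset V} {P1 P2 : Finset D}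

/-- Lemma A holds -/
theorem N4.lemA' (h : G.N4 z t fr F ∅ ∅ ep m) : G.LemA z t fr F := by
  intro C P1 P2 hC hT j hj hx hw ht W hW
  obtain ⟨hs, ho, hp, hv⟩ := hW
  have ht' : t (G.pi (G.al j)) ≤ 1 := by
    rcases h.tok (G.pi_mem _ (G.al_mem j hj)) with h1 | h1 | h1
    · rw [h1]; norm_num
    · exact h1.le
    · exact absurd h1 ht
  have hLA : G.LA z t fr F ep m C P1 P2 j :=
    ⟨h.mc, h.tau, fun X hX hX' => h.val_odd hX hX', fun X hX ho h3 hc1 hc2 =>
      h.legin z t h.mc.inst.alt_refl X hX ho h3 hc1 hc2 j hj (hC.adm.sub hx) hw ht,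
      hC, hT, hj, hx, hw, ht'⟩
  have hb : G.bc P1 W = 0 := by
    unfold bc
    rw [card_eq_zero, filter_eq_empty_iff]
    intro d hd hd'
    exact hp d hd' hd
  refine hLA.main hs ho ?_ hb
  unfold cvv
  rw [hb]
  unfold bc
  push_cast
  linarith

/-- Lemma A holds (the hypothesis is not needed) -/
theorem N4.lemA (h : G.N4 z t fr F ∅ ∅ ep m)
    (_hnt : ∀ X ⊆ G.vs, Odd X.card → G.val z t X = 3 → 3 ≤ X.card → 3 ≤ (G.vs \ X).card →
      False) : G.LemA z t fr F := h.lemA'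

/-- no minimal counterexample if all bad even circuits are T-bad -/
theorem N4.false_of_T (h : G.N4 z t fr F ∅ ∅ ep 0) (hA : G.LemA z t fr F)
    (hB : G.TBad z t fr F) : False := by
  refine h.mc.no_two_legs h.tau fun j hj hx hw => ?_
  by_contra h2
  obtain ⟨C, hxC, hC⟩ := h.mc.inst.fresh.exists_circ hx
  rcases Nat.even_or_odd C.card with he | ho
  · exact h.no_leg_even hA hB (fun v hv => h.no_alpha hA hB hv) hC he ⟨j, hj, hxC, hw, h2⟩
  · exact h2 (h.no_leg_odd hC ho hj hxC hw)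

/-- the suppressed graph violates (C): an odd union of classes and `P1`-pairs of the circuit with
three J-edges -/
def UBad (G : MG V D) (z : D → ℝ) (t : V → ℝ) (fr : Finset V) (F : Finset D) (C : Finset V)
    (P1 P2 : Finset D) : Prop :=
  ∃ X S, G.Adm fr F X ∧ Disjoint X C ∧ S ⊆ C ∧
    (∀ d ∈ P1, G.pi d ∈ S → G.pi (G.al d) ∈ S) ∧ Odd (X ∪ S).card ∧
    ((G.bd (X ∪ S)).filter fun d => d ∉ F).card = 3 ∧ G.val (sz z P1 P2) t (X ∪ S) = 3

/-- the value of the shifted weights -/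
theorem Two.val_sz (hT : G.Two F C P1 P2) (W : Finset V) :
    G.val (sz z P1 P2) t W = G.val z t W + G.bc P1 W - G.bc P2 W := by
  have h1 : ∀ d, sz z P1 P2 d = z d + dl P1 P2 d := by
    intro d
    unfold sz dl
    ring
  unfold MG.val
  rw [sum_congr rfl fun d _ => h1 d, sum_add_distrib, sum_dl]
  ring

/-- an even circuit is T-bad or U-bad (for each pairing) -/
theorem N4.t_or_u (h : G.N4 z t fr F ∅ ∅ ep 0) (hC : G.Circ fr F C) (hT : G.Two F C P1 P2) :
    (∃ W, G.BV z t P1 P2 W) ∨ G.UBad z t fr F C P1 P2 := by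
  by_contra hcon
  push Not at hcon
  obtain ⟨h1, h2⟩ := hcon
  have hF := h.mc.inst.fresh
  have hw := h.mc.inst.wt
  apply h2
  refine h.mc.supp hC.adm hC.ne hT rfl fun W hW ho => ?_
  by_contra h3
  push Not at h3
  rw [hT.val_sz] at h3
  obtain ⟨k, hk⟩ := h.val_odd hW ho
  have h4 := hT.par2 hF.Fsub W
  have h5 := cval_ge hF hw hT hW
  have h6 : (0 : ℝ) ≤ bc G (F.filter fun d => G.pi d ∉ C) W := Nat.cast_nonneg _
  rw [hk] at h3 h5
  have h7 : 2 * k + 1 + G.bc P1 W < 3 + G.bc P2 W := by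
    have : ((2 * k + 1 + G.bc P1 W : ℕ) : ℝ) < (3 + G.bc P2 W : ℕ) := by
      push_cast
      linarith
    exact_mod_cast this
  have h8 : G.bc P1 W + G.bc P2 W ≤ 2 * k + 1 := by
    have : ((G.bc P1 W + G.bc P2 W : ℕ) : ℝ) ≤ (2 * k + 1 : ℕ) := by
      push_cast
      linarith
    exact_mod_cast this
  have h9 : G.bc P1 W = 0 := by omega
  have h10 : 2 * k = G.bc P2 W := by omega
  refine h1 W ⟨hW, ho, fun d hd hd' => ?_, ?_⟩
  · have h11 : d ∈ (G.bd W).filter fun d => d ∈ P1 := mem_filter.2 ⟨hd', hd⟩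
    unfold bc at h9
    rw [card_eq_zero.1 h9] at h11
    exact notMem_empty d h11
  · have h11 : (((G.bd W).filter fun d => d ∈ P2).card : ℝ) = 2 * k := by
      have h12 : ((G.bd W).filter fun d => d ∈ P2).card = 2 * k := h10.symm
      rw [h12]
      push_cast
      ring
    rw [hk, h11]
    ring

/-- FOUR TOKENS, STAR-FREE: there is an even circuit with a leg which is U-bad, and not T-bad, for
both pairings -/
theorem N4.exists_ubad' (h : G.N4 z t fr F ∅ ∅ ep 0) :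
    ∃ C, G.Circ fr F C ∧ Even C.card ∧ G.Leg t fr C ∧ ∀ P1 P2, G.Two F C P1 P2 →
      G.UBad z t fr F C P1 P2 ∧ ∀ W, ¬ G.BV z t P1 P2 W := by
  by_contra hcon
  push Not at hcon
  refine h.false_of_T h.lemA' fun C hC hCe j hj hx hw ht => ?_
  obtain ⟨P1, P2, hT, hor⟩ := hcon C hC hCe ⟨j, hj, hx, hw, ht⟩
  rcases h.t_or_u hC hT with ⟨W, hW⟩ | h1
  · exact ⟨P1, P2, W, hT, hW⟩
  · obtain ⟨W, hW⟩ := hor h1
    exact ⟨P1, P2, W, hT, hW⟩

/-- the same (the hypothesis is not needed) -/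
theorem N4.exists_ubad (h : G.N4 z t fr F ∅ ∅ ep 0)
    (_hnt : ∀ X ⊆ G.vs, Odd X.card → G.val z t X = 3 → 3 ≤ X.card → 3 ≤ (G.vs \ X).card →
      False) :
    ∃ C, G.Circ fr F C ∧ Even C.card ∧ G.Leg t fr C ∧ ∀ P1 P2, G.Two F C P1 P2 →
      G.UBad z t fr F C P1 P2 ∧ ∀ W, ¬ G.BV z t P1 P2 W := h.exists_ubad'

/-- the same for minimal counterexamples: if some weight has at most four tokens and there are no
nontrivial tight sets, then some normal form has a U-bad even circuit -/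
theorem MCS.exists_ubad (h : G.MCS z t fr F ∅ ∅ ep 0)
    (hnt : ∀ z' t', G.Alt z fr z' t' → ∀ W ⊆ G.vs, Odd W.card → G.val z' t' W = 3 →
      3 ≤ W.card → 3 ≤ (G.vs \ W).card → False)
    (h4 : ∃ z' t', G.Alt z fr z' t' ∧ ∑ v ∈ G.vs, t' v ≤ 4) :
    ∃ z' t', G.Alt z fr z' t' ∧ G.N4 z' t' fr F ∅ ∅ ep 0 ∧
      ∃ C, G.Circ fr F C ∧ Even C.card ∧ G.Leg t' fr C ∧ ∀ P1 P2, G.Two F C P1 P2 →
        G.UBad z' t' fr F C P1 P2 ∧ ∀ W, ¬ G.BV z' t' P1 P2 W := by
  obtain ⟨z', t', h1, h2⟩ := h.exists_n4' hnt h4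
  exact ⟨z', t', h1, h2, h2.exists_ubad fun X hX ho h3 => hnt z' t' h1 X hX ho h3⟩

/-- the same from the list of tight sets of helper61 -/
theorem MCS.exists_ubad_list (h : G.MCS z t fr F ∅ ∅ ep 0) (hT : G.TightList z fr)
    (h4 : ∃ z' t', G.Alt z fr z' t' ∧ ∑ v ∈ G.vs, t' v ≤ 4) :
    ∃ z' t', G.Alt z fr z' t' ∧ G.N4 z' t' fr F ∅ ∅ ep 0 ∧
      ∃ C, G.Circ fr F C ∧ Even C.card ∧ G.Leg t' fr C ∧ ∀ P1 P2, G.Two F C P1 P2 →
        G.UBad z' t' fr F C P1 P2 ∧ ∀ W, ¬ G.BV z' t' P1 P2 W := by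
  obtain ⟨z', t', h1, h2⟩ := h.exists_n4_list hT h4
  exact ⟨z', t', h1, h2, h2.exists_ubad'⟩

end MG

end RH
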