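import Pool.Agent.Lib.RH.N4

/-! Existence of the normal form with 4 tokens: either `N4` or all legs end at vertices with two
tokens; the second case is impossible without star. -/

set_option autoImplicit false

namespace RH

open Finset Classical

namespace MG

variable {V D : Type*} {G : MG V D} {z z' : D → ℝ} {t t' : V → ℝ} {fr : Finset V} {F : Finset D}
variable {jm sx : Finset V} {ep : V → ℕ} {m : ℕ} {M : Finset D}

/-- an `Alt` of an `Alt` -/
theorem Alt.trans {z'' : D → ℝ} {t'' : V → ℝ} (h1 : G.Alt z fr z' t')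
    (h2 : G.Alt z' fr z'' t'') : G.Alt z fr z'' t'' :=
  ⟨h2.wt, h2.tau, fun d hd h0 => h2.supp d hd (h1.supp d hd h0), h2.unit⟩

/-- a minimal counterexample with at most 4 tokens in some weight: there is a weight in normal form
with exactly 4 tokens (`N4`), or with exactly 4 tokens such that all legs end at vertices with two
tokens. `hL` is the condition `legin` of `N4` -/
theorem MCS.exists_n4 (h : G.MCS z t fr F jm sx ep m) (hR : G.Rigid z fr)
    (hL : ∀ z' t', G.Alt z fr z' t' → ∀ W ⊆ G.vs, Odd W.card → G.val z' t' W = 3 → 3 ≤ W.card →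
      3 ≤ (G.vs \ W).card → ∀ j ∈ G.ds, G.pi j ∈ fr → G.pi (G.al j) ∉ fr →
      t' (G.pi (G.al j)) ≠ 2 → (G.pi j ∈ W ∧ G.pi (G.al j) ∈ W) ∨
        ∃ x p q, G.Dig z' t' fr W x p q)
    (h4 : ∃ z' t', G.Alt z fr z' t' ∧ ∑ v ∈ G.vs, t' v ≤ 4) :
    ∃ z' t', G.Alt z fr z' t' ∧ (G.N4 z' t' fr F jm sx ep m ∨
      (G.MCS z' t' fr F jm sx ep m ∧ ∑ v ∈ G.vs, t' v = 4 ∧
        ∀ j ∈ G.ds, G.pi j ∈ fr → G.pi (G.al j) ∉ fr → t' (G.pi (G.al j)) = 2)) := by
  obtain ⟨z', t', ha, hm, hopt, hnf⟩ := h.exists_nf hR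
  obtain ⟨-, hs⟩ := h.alt ha
  have htau : ∑ v ∈ G.vs, t' v = 4 := by
    obtain ⟨z1, t1, h1, h2⟩ := h4
    have h3 := hopt z1 t1 ⟨h1.wt, h1.tau, fun d hd h0 => h1.supp d hd (hs d hd h0), h1.unit⟩
    have h4 := hm.tau_ge
    linarith
  refine ⟨z', t', ha, ?_⟩
  by_cases hleg : ∃ j ∈ G.ds, G.pi j ∈ fr ∧ G.pi (G.al j) ∉ fr ∧ t' (G.pi (G.al j)) ≠ 2
  · obtain ⟨j, hj, hx, hw, ht⟩ := hleg
    have hR' : G.Rigid z' fr := fun z'' t'' h1 => hR z'' t'' (ha.trans h1)
    refine Or.inl ⟨hm, hR', fun z'' t'' h1 => hL z'' t'' (ha.trans h1), hopt, ?_, htau⟩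
    refine hm.nf_of_leg hR' htau.le hnf hj hx hw ?_ fun W hW ho h3 hc1 hc2 =>
      hL z' t' ha W hW ho h3 hc1 hc2 j hj hx hw ht
    rw [htau]
    intro h5
    exact ht (by linarith)
  · push Not at hleg
    exact Or.inr ⟨hm, htau, fun j hj hx hw => hleg j hj hx hw⟩

/-- without star: not all legs end at vertices with two tokens -/
theorem MCS.no_two_legs (h : G.MCS z t fr F ∅ ∅ ep m) (htau : ∑ v ∈ G.vs, t v = 4)
    (hl : ∀ j ∈ G.ds, G.pi j ∈ fr → G.pi (G.al j) ∉ fr → t (G.pi (G.al j)) = 2) : False := by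
  have hI := h.inst
  have hF := hI.fresh
  have hw := hI.wt
  -- a vertex with a leg has no other support dart
  have key : ∀ j ∈ G.ds, G.pi j ∈ fr → G.pi (G.al j) ∉ fr → ∀ e ∈ G.ds,
      G.pi e = G.pi (G.al j) → e ≠ G.al j → z e = 0 := by
    intro j hj hx hj' e he hpe hne
    have haj := G.al_mem j hj
    have h1 := hw.deg _ (G.pi_mem _ haj)
    rw [hl j hj hx hj'] at h1
    have h2 : z (G.al j) = 1 := by
      rw [hw.sym j hj]
      exact hF.unit j hj hx
    have h3 : z e + z (G.al j) ≤ ∑ d ∈ G.st (G.pi (G.al j)), z d := by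
      have h4 : ({e, G.al j} : Finset D) ⊆ G.st (G.pi (G.al j)) := by
        intro d hd
        rw [mem_insert, mem_singleton] at hd
        rcases hd with rfl | rfl
        · exact mem_st.2 ⟨he, hpe⟩
        · exact mem_st.2 ⟨haj, rfl⟩
      have h5 := sum_le_sum_of_subset_of_nonneg (f := z) h4
        (fun d hd _ => hw.z0 d (mem_st.1 hd).1)
      rwa [sum_pair hne] at h5
    have h6 := hw.z0 e he
    linarith
  -- the vertices with legs
  set B : Finset V := G.vs.filter fun w => w ∉ fr ∧ ∃ j ∈ G.ds, G.pi j ∈ fr ∧ G.pi (G.al j) = w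
    with hB
  have hall : fr ∪ B = G.vs := by
    by_contra hne
    have hsub : fr ∪ B ⊆ G.vs := union_subset hF.fsub (filter_subset _ _)
    obtain ⟨v, hv⟩ := h.fr_ne
    obtain ⟨d, hd, hz⟩ := h.conn hsub ⟨v, mem_union_left _ hv⟩ hne
    obtain ⟨h1, h2, h3⟩ := mem_bd.1 hd
    rw [mem_union] at h2 h3
    push Not at h3
    rcases h2 with h2 | h2
    · apply h3.2
      exact mem_filter.2 ⟨G.pi_mem _ (G.al_mem d h1), h3.1, d, h1, h2, rfl⟩
    · obtain ⟨-, h4, j, hj, hx, hjw⟩ := mem_filter.1 h2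
      refine hz (key j hj hx (by rw [hjw]; exact h4) d h1 hjw.symm ?_)
      rintro rfl
      apply h3.1
      rw [G.al_al j hj]
      exact hx
  have hdis : Disjoint fr B := by
    rw [disjoint_left]
    intro v hv hvB
    exact (mem_filter.1 hvB).2.1 hv
  -- exactly two such vertices
  have hcard : (B.card : ℝ) = 2 := by
    have h1 : ∑ v ∈ G.vs, t v = ∑ v ∈ fr, t v + ∑ v ∈ B, t v := by
      rw [← hall, sum_union hdis]
    have h2 : ∑ v ∈ fr, t v = 0 := sum_eq_zero fun v hv =>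
      hF.t_not_jm hw hv (notMem_empty v)
    have h3 : ∑ v ∈ B, t v = 2 * B.card := by
      rw [sum_congr rfl fun w hw' => show t w = 2 by
        obtain ⟨-, h4, j, hj, hx, rfl⟩ := mem_filter.1 hw'
        exact hl j hj hx h4]
      rw [sum_const, nsmul_eq_mul, mul_comm]
    rw [h1, h2, h3] at htau
    linarith
  have hcard' : B.card = 2 := by exact_mod_cast hcard
  have hev : Even fr.card := by
    have h1 : fr.card + B.card = G.vs.card := by
      rw [← hall, card_union_of_disjoint hdis]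
    have h2 := hI.even
    rw [Nat.even_iff] at h2 ⊢
    omega
  obtain ⟨M, hM, hpos, d, hd, hdM⟩ := h.rest hev h.fr_ne
  obtain ⟨h1, h2, h3⟩ := mem_bd.1 hd
  -- the matching dart at the end of the leg
  have hwv := G.pi_mem _ (G.al_mem d h1)
  have h4 := hM.one _ hwv
  obtain ⟨e, he⟩ := card_eq_one.1 h4
  have h5 : e ∈ M.filter fun d' => G.pi d' = G.pi (G.al d) := by
    rw [he]
    exact mem_singleton_self e
  obtain ⟨h6, h7⟩ := mem_filter.1 h5
  have h8 : e = G.al d := by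
    by_contra h9
    have h10 := key d h1 h2 h3 e (hM.sub h6) h7 h9
    have h11 := hpos e h6
    rw [h10] at h11
    exact lt_irrefl _ h11
  apply hdM
  have h9 := hM.closed e h6
  rwa [h8, G.al_al d h1] at h9

/-- WITHOUT STAR AND WITHOUT NONTRIVIAL TIGHT SETS: a minimal counterexample with at most 4 tokens in
some weight has a normal form `N4` -/
theorem MCS.exists_n4' (h : G.MCS z t fr F ∅ ∅ ep m)
    (hnt : ∀ z' t', G.Alt z fr z' t' → ∀ W ⊆ G.vs, Odd W.card → G.val z' t' W = 3 →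
      3 ≤ W.card → 3 ≤ (G.vs \ W).card → False)
    (h4 : ∃ z' t', G.Alt z fr z' t' ∧ ∑ v ∈ G.vs, t' v ≤ 4) :
    ∃ z' t', G.Alt z fr z' t' ∧ G.N4 z' t' fr F ∅ ∅ ep m := by
  obtain ⟨z', t', h1, h2 | ⟨h2, h3, h5⟩⟩ := h.exists_n4
    (fun z' t' ha W hW ho h3 hc1 hc2 => (hnt z' t' ha W hW ho h3 hc1 hc2).elim)
    (fun z' t' ha W hW ho h3 hc1 hc2 => (hnt z' t' ha W hW ho h3 hc1 hc2).elim) h4
  · exact ⟨z', t', h1, h2⟩
  · exact (h2.no_two_legs h3 h5).elim

/-- a leg at a vertex without two tokens exists in `N4` (without star) -/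
theorem N4.exists_leg (h : G.N4 z t fr F ∅ ∅ ep m) :
    ∃ j ∈ G.ds, G.pi j ∈ fr ∧ G.pi (G.al j) ∉ fr ∧ t (G.pi (G.al j)) ≠ 2 := by
  by_contra hn
  push Not at hn
  exact h.mc.no_two_legs h.tau fun j hj hx hw => hn j hj hx hw

end MG

end RH
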