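import Pool.Agent.Lib.RH.N4Two
import Pool.Agent.Lib.RH.N4Dig
import Pool.Agent.Lib.RH.N4Ex
import Pool.Agent.Lib.RH.Even2

/-! Four tokens without star: even sets of value 2 are complements of pairs (helper50). -/

set_option autoImplicit false

namespace RH

open Finset Classical

namespace MG

variable {V D : Type*} {G : MG V D} {z z' : D → ℝ} {t t' : V → ℝ} {fr : Finset V} {F : Finset D}
variable {jm sx : Finset V} {ep : V → ℕ} {m : ℕ} {M : Finset D} {Z : Finset V}

/-- at least six vertices -/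
theorem N4.vs_card6 (h : G.N4 z t fr F ∅ ∅ ep m) : 6 ≤ G.vs.card := by
  by_contra hlt
  have hI := h.mc.inst
  have hF := hI.fresh
  have hw := hI.wt
  have h1 := h.mc.two_fr
  have h3 := card_sdiff_add_card_eq_card hF.fsub
  have h4 : ∑ v ∈ G.vs \ fr, t v = 4 := by
    have h5 := sum_sdiff hF.fsub (f := t)
    have h6 : ∑ v ∈ fr, t v = 0 := sum_eq_zero fun v hv =>
      hF.t_not_jm hw hv (notMem_empty v)
    have h7 := h.tau
    linarith
  have h5 : ∑ v ∈ G.vs \ fr, t v ≤ ∑ _v ∈ G.vs \ fr, (2 : ℝ) :=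
    sum_le_sum fun v hv => h.t_le (mem_sdiff.1 hv).1
  rw [h4, sum_const, nsmul_eq_mul] at h5
  have h6 : (2 : ℝ) ≤ (G.vs \ fr).card := by linarith
  have h7 : 2 ≤ (G.vs \ fr).card := by exact_mod_cast h6
  obtain ⟨k, hk⟩ := hI.even
  have h8 : (G.vs \ fr).card = 2 := by omega
  refine h.mc.no_two_legs h.tau fun j hj hx hjw => ?_
  have hv : G.pi (G.al j) ∈ G.vs \ fr := mem_sdiff.2 ⟨G.pi_mem _ (G.al_mem j hj), hjw⟩
  have h9 := sum_erase_add (G.vs \ fr) t hv
  have h10 : ((G.vs \ fr).erase (G.pi (G.al j))).card = 1 := by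
    rw [card_erase_of_mem hv, h8]
  obtain ⟨u, hu⟩ := card_eq_one.1 h10
  rw [hu, sum_singleton, h4] at h9
  have hu' : u ∈ (G.vs \ fr).erase (G.pi (G.al j)) := by rw [hu]; exact mem_singleton_self u
  have h11 := h.t_le (mem_sdiff.1 (mem_of_mem_erase hu')).1
  have h12 := h.t_le (mem_sdiff.1 hv).1
  linarith

/-- two vertices outside `fr` joined by weight 2, one unit edge `e` leaves from `p` -/
theorem N4.no_pair (h : G.N4 z t fr F ∅ ∅ ep 0) {p q : V} (hp : p ∈ G.vs) (hq : q ∈ G.vs)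
    (hpf : p ∉ fr) (hqf : q ∉ fr) (hpq : p ≠ q) (hv : G.val z t {p, q} = 2) {e : D}
    (he : e ∈ G.ds) (hep : G.pi e = p) (heq : G.pi (G.al e) ≠ q) (hze : z e = 1) : False := by
  have hI := h.mc.inst
  have hF := hI.fresh
  have hw := hI.wt
  have hZ : ({p, q} : Finset V) ⊆ G.vs := by
    intro v hv
    rcases mem_insert.1 hv with rfl | hv
    · exact hp
    · rw [mem_singleton.1 hv]
      exact hq
  have hc : ({p, q} : Finset V).card = 2 := card_pair hpq
  -- weight 2 between them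
  have hed : G.ed {p, q} {p, q} = G.ed {p} {q} ∪ G.ed {q} {p} := by
    ext d
    rw [mem_union, mem_ed, mem_ed, mem_ed, mem_insert, mem_insert, mem_singleton, mem_singleton,
      mem_singleton, mem_singleton]
    constructor
    · rintro ⟨h1, h2 | h2, h3 | h3⟩
      · exact absurd (h3.trans h2.symm) (G.noloop d h1)
      · exact Or.inl ⟨h1, h2, h3⟩
      · exact Or.inr ⟨h1, h2, h3⟩
      · exact absurd (h3.trans h2.symm) (G.noloop d h1)
    · rintro (⟨h1, h2, h3⟩ | ⟨h1, h2, h3⟩)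
      · exact ⟨h1, Or.inl h2, Or.inr h3⟩
      · exact ⟨h1, Or.inr h2, Or.inl h3⟩
  have hdis : Disjoint (G.ed {p} {q}) (G.ed {q} {p}) := by
    rw [disjoint_left]
    intro d h5 h6
    have h7 := mem_singleton.1 (mem_ed.1 h5).2.1
    have h8 := mem_singleton.1 (mem_ed.1 h6).2.1
    exact hpq (h7.symm.trans h8)
  have hpq2 : ∑ d ∈ G.ed {p} {q}, z d = 2 := by
    have h1 := hw.val_eq hZ
    rw [hv, hc, hed, sum_union hdis, hw.ed_symm {q} {p}] at h1
    push_cast at h1
    linarith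
  have hqp2 : ∑ d ∈ G.ed {q} {p}, z d = 2 := by
    rw [hw.ed_symm {q} {p}]
    exact hpq2
  -- the other darts at `p`
  have hsp : ∀ u w : V, u ∈ G.vs → ∑ d ∈ G.ed {u} {w}, z d = 2 →
      ∑ d ∈ (G.st u).filter (fun d => G.pi (G.al d) ≠ w), z d + t u = 1 := by
    intro u w hu h2
    have h1 := hw.deg u hu
    have h3 := sum_filter_add_sum_filter_not (G.st u) (fun d => G.pi (G.al d) = w) z
    have h4 : (G.st u).filter (fun d => G.pi (G.al d) = w) = G.ed {u} {w} := by
      ext d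
      rw [mem_filter, mem_st, mem_ed, mem_singleton, mem_singleton, and_assoc]
    rw [h4, h2] at h3
    linarith
  have hsp1 := hsp p q hp hpq2
  have hsq1 := hsp q p hq hqp2
  have h0 : ∀ u w : V, ∀ d ∈ (G.st u).filter (fun d => G.pi (G.al d) ≠ w), 0 ≤ z d :=
    fun u w d hd' => hw.z0 d (mem_st.1 (mem_filter.1 hd').1).1
  have heS : e ∈ (G.st p).filter (fun d => G.pi (G.al d) ≠ q) :=
    mem_filter.2 ⟨mem_st.2 ⟨he, hep⟩, heq⟩
  have htp : t p = 0 := by
    have h1 := single_le_sum (f := z) (h0 p q) heS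
    have h2 := hw.t0 p hp
    linarith
  -- uniqueness of the outer dart
  have huni : ∀ u w : V, t u = 0 → ∑ d ∈ (G.st u).filter (fun d => G.pi (G.al d) ≠ w), z d + t u = 1 →
      ∀ f ∈ (G.st u).filter (fun d => G.pi (G.al d) ≠ w), z f ≠ 0 →
      z f = 1 ∧ ∀ d ∈ G.ds, G.pi d = u → G.pi (G.al d) ≠ w → z d ≠ 0 → d = f := by
    intro u w htu hs f hf hzf
    have hfd := (mem_st.1 (mem_filter.1 hf).1).1
    have hzf1 : z f = 1 := by
      have h1 := single_le_sum (f := z) (h0 u w) hf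
      have h2 := h.z_ge hfd hzf
      linarith
    refine ⟨hzf1, fun d h1 h2 h3 h4 => ?_⟩
    by_contra hne
    have h5 : ({d, f} : Finset D) ⊆ (G.st u).filter (fun d => G.pi (G.al d) ≠ w) := by
      intro c hc
      rw [mem_insert, mem_singleton] at hc
      rcases hc with rfl | rfl
      · exact mem_filter.2 ⟨mem_st.2 ⟨h1, h2⟩, h3⟩
      · exact hf
    have h6 := sum_le_sum_of_subset_of_nonneg (f := z) h5 (fun c hc _ => h0 u w c hc)
    rw [sum_pair hne, hzf1] at h6
    have h7 := h.z_ge h1 h4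
    linarith
  obtain ⟨-, huE⟩ := huni p q htp hsp1 e heS (by rw [hze]; norm_num)
  -- no token at `q`
  have htq : t q = 0 := by
    by_contra htq
    have h1 : 0 < t q := lt_of_le_of_ne (hw.t0 q hq) (Ne.symm htq)
    obtain ⟨d, hd1, hd2⟩ := exists_ne_zero_of_sum_ne_zero (by rw [hqp2]; norm_num :
      ∑ d ∈ G.ed {q} {p}, z d ≠ 0)
    obtain ⟨h2, h3, h4⟩ := mem_ed.1 hd1
    rw [mem_singleton] at h3 h4
    have h5 := h.tok_iso hq hqf h1 d h2 h3 hd2
    rw [h4] at h5
    exact hpf h5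
  -- the other edge at `q`
  obtain ⟨f, hf1, hf2⟩ := exists_ne_zero_of_sum_ne_zero (by rw [htq, add_zero] at hsq1; rw [hsq1]; norm_num :
    ∑ d ∈ (G.st q).filter (fun d => G.pi (G.al d) ≠ p), z d ≠ 0)
  obtain ⟨hf3, hf4⟩ := mem_filter.1 hf1
  obtain ⟨hf5, hf6⟩ := mem_st.1 hf3
  obtain ⟨hfz, huf⟩ := huni q p htq hsq1 f hf1 hf2
  have hfp : G.pi (G.al f) ≠ q := fun h1 => G.noloop f hf5 (h1.trans hf6.symm)
  have hepp : G.pi (G.al e) ≠ p := fun h1 => G.noloop e he (h1.trans hep.symm)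
  refine h.mc.no_pole (T := {p, q}) (a := G.al e) (b := G.al f) (by rw [h.tau]; norm_num) ?_
  refine
    { sub := hZ
      even := by rw [hc]; exact ⟨1, rfl⟩
      dis := ?_
      tok := ?_
      ad := G.al_mem e he
      bd := G.al_mem f hf5
      aT := ?_
      bT := ?_
      aT' := ?_
      bT' := ?_
      ne := ?_
      za := by rw [hw.sym e he, hze]
      zb := by rw [hw.sym f hf5, hfz]
      out := ?_ }
  · rw [disjoint_left]
    intro v hv
    rw [mem_insert, mem_singleton] at hv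
    rcases hv with rfl | rfl
    · exact hpf
    · exact hqf
  · intro v hv
    rw [mem_insert, mem_singleton] at hv
    rcases hv with rfl | rfl
    · exact htp
    · exact htq
  · rw [mem_insert, mem_singleton, not_or]
    exact ⟨hepp, heq⟩
  · rw [mem_insert, mem_singleton, not_or]
    exact ⟨hf4, hfp⟩
  · rw [G.al_al e he, hep]
    exact mem_insert_self _ _
  · rw [G.al_al f hf5, hf6]
    simp
  · intro h1
    have h2 : e = f := by rw [← G.al_al e he, h1, G.al_al f hf5]
    rw [h2, hf6] at hep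
    exact hpq hep.symm
  · intro d h1 h2 h3 h4 h5
    by_contra hz
    have hz' : z (G.al d) ≠ 0 := by rw [hw.sym d h1]; exact hz
    have h1' := G.al_mem d h1
    rw [mem_insert, mem_singleton, not_or] at h2
    rw [mem_insert, mem_singleton] at h3
    rcases h3 with h3 | h3
    · have h6 := huE (G.al d) h1' h3 (by rw [G.al_al d h1]; exact h2.2) hz'
      apply h4
      rw [← h6, G.al_al d h1]
    · have h6 := huf (G.al d) h1' h3 (by rw [G.al_al d h1]; exact h2.1) hz'
      apply h5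
      rw [← h6, G.al_al d h1]

/-- NO EVEN SETS OF VALUE 2 at four tokens without star, except complements of pairs -/
theorem N4.noTwo [Infinite V] [Infinite D] (h : G.N4 z t fr F ∅ ∅ ep 0) : G.NoTwo z t := by
  have h6 := h.vs_card6
  refine ⟨by omega, fun Z hZ he hne hc hv => ?_⟩
  have hI := h.mc.inst
  have hF := hI.fresh
  have hw := hI.wt
  have hZv : Z ≠ G.vs := by
    rintro rfl
    rw [Finset.sdiff_self, card_empty] at hc
    omega
  obtain ⟨e, hee, hze⟩ := h.mc.conn hZ hne hZv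
  obtain ⟨he1, he2, he3⟩ := mem_bd.1 hee
  obtain ⟨k, hk⟩ := h.zint he1
  have hcc := card_sdiff_add_card_eq_card hZ
  obtain ⟨n, hn⟩ := he
  obtain ⟨n', hn'⟩ := hI.even
  have hk0 : k ≠ 0 := by
    rintro rfl
    exact hze (by rw [hk]; norm_num)
  by_cases hk1 : k = 1
  · -- a unit edge
    have hz1 : z e = 1 := by rw [hk, hk1]; norm_num
    by_cases hs : 4 ≤ Z.card ∨ (fr ∩ Z).Nonempty
    · exact h.mc.even2 hZ ⟨n, hn⟩ hv hee hz1 hs (Or.inl (by omega))
    · rw [not_or, not_nonempty_iff_eq_empty] at hs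
      obtain ⟨hs1, hs2⟩ := hs
      have h7 : 0 < Z.card := card_pos.2 hne
      have h8 : Z.card = 2 := by omega
      have hnf : ∀ v ∈ Z, v ∉ fr := fun v hv hvf => by
        have : v ∈ fr ∩ Z := mem_inter.2 ⟨hvf, hv⟩
        rw [hs2] at this
        exact notMem_empty v this
      obtain ⟨q, hq⟩ := card_eq_one.1 (by rw [card_erase_of_mem he2, h8] :
        (Z.erase (G.pi e)).card = 1)
      have hqZ : q ∈ Z.erase (G.pi e) := by rw [hq]; exact mem_singleton_self q
      obtain ⟨hq1, hq2⟩ := mem_erase.1 hqZ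
      have hZe : Z = {G.pi e, q} := by
        rw [← insert_erase he2, hq]
      rw [hZe] at hv
      exact h.no_pair (hZ he2) (hZ hq2) (hnf _ he2) (hnf _ hq2) hq1.symm hv he1 rfl
        (fun h9 => he3 (h9 ▸ hq2)) hz1
  · -- an edge of weight 2
    have h7 : (2 : ℝ) ≤ z e := by
      rw [hk]
      have : 2 ≤ k := by omega
      exact_mod_cast this
    have h8 := hw.val_erase hZ he2
    have h9 : z e ≤ ∑ d ∈ G.ed {G.pi e} (G.vs \ Z), z d :=
      single_le_sum (f := z) (fun d hd => hw.z0 d (mem_ed.1 hd).1)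
        (mem_ed.2 ⟨he1, mem_singleton_self _, mem_sdiff.2 ⟨G.pi_mem _ (G.al_mem e he1), he3⟩⟩)
    have h10 := hw.t0 _ (hZ he2)
    have h11 : Odd (Z.erase (G.pi e)).card := by
      rw [card_erase_of_mem he2]
      have : 0 < Z.card := card_pos.2 hne
      exact ⟨n - 1, by omega⟩
    have h12 := hw.cut _ ((erase_subset _ _).trans hZ) h11
    linarith

end MG

end RH
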