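import Pool.Agent.Lib.RH.SCapS
import Pool.Agent.Lib.RH.N4End
import Pool.Agent.Lib.RH.N4NoTwo

/-! The normal forms without hypotheses on tight sets: the list of tight sets of helper61 (SCap,
SCapS) gives `Rigid` for every minimal counterexample, and `legin` if there is no star. -/

set_option autoImplicit false

namespace RH

open Finset Classical

namespace MG

variable {V D : Type*} {G : MG V D} {z z' : D → ℝ} {t t' : V → ℝ} {fr : Finset V} {F : Finset D}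
variable {jm sx : Finset V} {ep : V → ℕ} {m : ℕ} {M : Finset D} {W : Finset V}

/-- every minimal counterexample (any star, any number of tokens) has rigid tight sets -/
theorem MCS.rigid [Infinite V] [Infinite D] (h : G.MCS z t fr F jm sx ep 0) : G.Rigid z fr :=
  fun _ _ ha _ hW ho h3 hc1 hc2 => Or.inr (h.tightAll ha hW ho h3 hc1 hc2)

/-- NORMAL FORM (any star, any number of tokens): an optimal weight in weak normal form -/
theorem MCS.exists_nf_0 [Infinite V] [Infinite D] (h : G.MCS z t fr F jm sx ep 0) :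
    ∃ z' t', G.Alt z fr z' t' ∧ G.MCS z' t' fr F jm sx ep 0 ∧
      (∀ z'' t'', G.Alt z' fr z'' t'' → ∑ v ∈ G.vs, t' v ≤ ∑ v ∈ G.vs, t'' v) ∧
      G.NFw z' t' fr := h.exists_nf h.rigid

/-- PUSH (any star, any number of tokens) -/
theorem MCS.push_0 [Infinite V] [Infinite D] (h : G.MCS z t fr F jm sx ep 0)
    {a : D → ℝ} {b : V → ℝ} (hab : G.Dir z fr a b) {s : ℝ} (hs : 0 ≤ s)
    (h0 : ∀ v ∈ G.vs, 0 ≤ t v + s * b v)
    (h2 : ∀ v ∈ G.vs, 2 * (t v + s * b v) ≤ ∑ w ∈ G.vs, (t w + s * b w))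
    (h6 : ∑ v ∈ G.vs, (t v + s * b v) < 6) :
    G.Alt z fr (fun d => z d + s * a d) (fun v => t v + s * b v) :=
  h.push h.rigid hab hs h0 h2 h6

/-- FOUR TOKENS WITHOUT STAR: the normal form exists -/
theorem MCS.exists_n4_0 [Infinite V] [Infinite D] (h : G.MCS z t fr F ∅ ∅ ep 0)
    (h4 : ∃ z' t', G.Alt z fr z' t' ∧ ∑ v ∈ G.vs, t' v ≤ 4) :
    ∃ z' t', G.Alt z fr z' t' ∧ G.N4 z' t' fr F ∅ ∅ ep 0 :=
  h.exists_n4_list h.tightList h4

/-- FOUR TOKENS WITHOUT STAR: some normal form has a U-bad even circuit -/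
theorem MCS.exists_ubad_0 [Infinite V] [Infinite D] (h : G.MCS z t fr F ∅ ∅ ep 0)
    (h4 : ∃ z' t', G.Alt z fr z' t' ∧ ∑ v ∈ G.vs, t' v ≤ 4) :
    ∃ z' t', G.Alt z fr z' t' ∧ G.N4 z' t' fr F ∅ ∅ ep 0 ∧
      ∃ C, G.Circ fr F C ∧ Even C.card ∧ G.Leg t' fr C ∧ ∀ P1 P2, G.Two F C P1 P2 →
        G.UBad z' t' fr F C P1 P2 ∧ ∀ W, ¬ G.BV z' t' P1 P2 W :=
  h.exists_ubad_list h.tightList h4

/-- FOUR TOKENS WITHOUT STAR: odd sets have value at least 5, except vertices, complements of vertices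
and the sets `Cap` -/
theorem N4.odd5 [Infinite V] [Infinite D] (h : G.N4 z t fr F ∅ ∅ ep 0) (hW : W ⊆ G.vs)
    (ho : Odd W.card) (hc1 : 3 ≤ W.card) (hc2 : 3 ≤ (G.vs \ W).card) :
    5 ≤ G.val z t W ∨ ∃ u a b, G.Cap z t fr W u a b := by
  by_cases h3 : G.val z t W = 3
  · rcases h.mc.tight_list hW ho h3 hc1 hc2 with ⟨x, p, q, h1⟩ | h1
    · exact (h.no_dig hW h1).elim
    · exact Or.inr h1
  · exact Or.inl (h.v5 hW ho h3)

/-- a set `Cap` at four tokens: two vertices with two tokens -/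
theorem N4.cap_two (h : G.N4 z t fr F jm sx ep m) {u a b : V} (hC : G.Cap z t fr W u a b) :
    t a = 2 ∧ t b = 2 := by
  refine ⟨(hC.ta h.mc.inst.fresh h.mc.inst.wt).1, ?_⟩
  have h1 := hC.tb
  rw [h.tau] at h1
  linarith

/-- FOUR TOKENS WITH STAR: the normal form exists if every atom set (of every weight) has `NoLeg` -/
theorem MCS.exists_n4_1 [Infinite V] [Infinite D] (h : G.MCS z t fr F jm sx ep 0)
    (hN : ∀ z' t', G.Alt z fr z' t' → ∀ W ⊆ G.vs, Odd W.card → G.val z' t' W = 3 → 3 ≤ W.card →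
      3 ≤ (G.vs \ W).card → ∀ y, G.Atom t' fr W y →
      (∃ x p q, G.Dig z' t' fr W x p q) ∨ G.NoLeg fr W y)
    (h4 : ∃ z' t', G.Alt z fr z' t' ∧ ∑ v ∈ G.vs, t' v ≤ 4) :
    ∃ z' t', G.Alt z fr z' t' ∧ G.N4 z' t' fr F jm sx ep 0 := by
  refine h.exists_n4_star (fun z' t' ha W hW ho h3 hc1 hc2 => ?_) h4
  rcases h.tightAll ha hW ho h3 hc1 hc2 with h1 | h1 | ⟨y, h1⟩
  · exact Or.inl h1
  · exact Or.inr (Or.inl h1)
  · rcases hN z' t' ha W hW ho h3 hc1 hc2 y h1 with h2 | h2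
    · exact Or.inl h2
    · exact Or.inr (Or.inr ⟨y, h1, h2⟩)

end MG

end RH
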