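import Pool.Agent.Lib.RH.N4

/-! Integrality in normal form with 4 tokens. -/

set_option autoImplicit false

namespace RH

open Finset Classical

namespace MG

variable {V D : Type*} {G : MG V D} {z z' : D → ℝ} {t t' : V → ℝ} {fr : Finset V} {F : Finset D}
variable {jm sx : Finset V} {ep : V → ℕ} {m : ℕ} {M : Finset D}

theorem exists_ker (G : MG V D) {S : Finset D} (hS : G.Sy S) {c : V → Bool}
    (hc : ∀ d ∈ S, c (G.pi (G.al d)) ≠ c (G.pi d)) (hne : S.Nonempty) {N N' : Finset V}
    (hN : ∀ d ∈ S, G.pi d ∈ N ∪ N') (hd : Disjoint N N')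
    (h2 : ∀ v ∈ N, 2 ≤ (S.filter fun d => G.pi d = v).card)
    (h1 : ∀ v ∈ N', 1 ≤ (S.filter fun d => G.pi d = v).card) :
    ∃ a : D → ℝ, (∀ d ∉ S, a d = 0) ∧ (∃ d ∈ S, a d ≠ 0) ∧ (∀ d ∈ G.ds, a (G.al d) = a d) ∧
      ∀ v ∈ N, ∑ d ∈ G.st v, a d = 0 := by
  set S0 : Finset D := S.filter fun d => c (G.pi d) = true with hS0
  -- counting
  have e1 : S.card = 2 * S0.card := by
    have e2 : (S.filter fun d => ¬ c (G.pi d) = true).card = S0.card := by
      refine card_bij' (fun d _ => G.al d) (fun d _ => G.al d) ?_ ?_ ?_ ?_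
      · intro d hd
        rw [mem_filter] at hd
        refine mem_filter.2 ⟨hS.al d hd.1, ?_⟩
        have := hc d hd.1
        cases h3 : c (G.pi (G.al d)) <;> cases h4 : c (G.pi d) <;> simp_all
      · intro d hd
        rw [mem_filter] at hd
        refine mem_filter.2 ⟨hS.al d hd.1, ?_⟩
        have := hc d hd.1
        cases h3 : c (G.pi (G.al d)) <;> cases h4 : c (G.pi d) <;> simp_all
      · intro d hd
        exact G.al_al d (hS.sub (mem_filter.1 hd).1)
      · intro d hd
        exact G.al_al d (hS.sub (mem_filter.1 hd).1)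
    have e3 : S0.card + (S.filter fun d => ¬ c (G.pi d) = true).card = S.card := by
      convert card_filter_add_card_filter_not (s := S) (fun d => c (G.pi d) = true) using 3
    omega
  have e4 : 2 * N.card + N'.card ≤ S.card := by
    rw [card_eq_sum_card_fiberwise (f := G.pi) (s := S) (t := N ∪ N')
      (fun d hd => mem_coe.2 (hN d (mem_coe.1 hd))), sum_union hd]
    have e5 : N.card * 2 ≤ ∑ v ∈ N, (S.filter fun d => G.pi d = v).card := by
      rw [← smul_eq_mul, ← sum_const]
      exact sum_le_sum h2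
    have e6 : N'.card * 1 ≤ ∑ v ∈ N', (S.filter fun d => G.pi d = v).card := by
      rw [← smul_eq_mul, ← sum_const]
      exact sum_le_sum h1
    omega
  -- the linear map
  let A : Matrix N S0 ℝ := fun v d =>
    (if G.pi d.1 = v.1 then 1 else 0) + (if G.pi (G.al d.1) = v.1 then 1 else 0)
  have key : ∃ x : S0 → ℝ, x ≠ 0 ∧ A.mulVecLin x = 0 := by
    by_contra hno
    push Not at hno
    have hinj : Function.Injective A.mulVecLin := by
      rw [← LinearMap.ker_eq_bot, LinearMap.ker_eq_bot']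
      intro x hx
      by_contra h0
      exact hno x h0 hx
    have hfin := LinearMap.finrank_le_finrank_of_injective hinj
    rw [Module.finrank_fintype_fun_eq_card, Module.finrank_fintype_fun_eq_card,
      Fintype.card_coe, Fintype.card_coe] at hfin
    have hN'0 : N'.card = 0 := by omega
    have hSN : S0.card = N.card := by omega
    have hN'e : N' = ∅ := card_eq_zero.1 hN'0
    have hsurj : Function.Surjective A.mulVecLin := by
      rw [← LinearMap.injective_iff_surjective_of_finrank_eq_finrank]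
      · exact hinj
      · rw [Module.finrank_fintype_fun_eq_card, Module.finrank_fintype_fun_eq_card,
          Fintype.card_coe, Fintype.card_coe, hSN]
    obtain ⟨d0, hd0⟩ := hne
    have hd0N : G.pi d0 ∈ N := by
      have := hN d0 hd0
      rwa [hN'e, union_empty] at this
    obtain ⟨x, hx⟩ := hsurj (fun v => if v.1 = G.pi d0 then 1 else 0)
    -- signed sum
    have h3 : ∑ v : N, (if c v.1 = true then (1 : ℝ) else -1) * A.mulVecLin x v = 0 := by
      have h4 : ∀ v : N, A.mulVecLin x v = ∑ d : S0, A v d * x d := fun v => rfl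
      simp_rw [h4, mul_sum]
      rw [sum_comm]
      refine sum_eq_zero fun d _ => ?_
      have h5 := mem_filter.1 d.2
      have h6 := hc d.1 h5.1
      rw [h5.2] at h6
      have h7 : G.pi d.1 ∈ N := by
        have := hN d.1 h5.1
        rwa [hN'e, union_empty] at this
      have h8 : G.pi (G.al d.1) ∈ N := by
        have := hN _ (hS.al d.1 h5.1)
        rwa [hN'e, union_empty] at this
      have h9 : ∀ v : N, (if c v.1 = true then (1 : ℝ) else -1) * (A v d * x d) =
          (if (⟨G.pi d.1, h7⟩ : N) = v then x d else 0) +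
            (if (⟨G.pi (G.al d.1), h8⟩ : N) = v then - x d else 0) := by
        intro v
        have h10 : ((⟨G.pi d.1, h7⟩ : N) = v) ↔ G.pi d.1 = v.1 := Subtype.ext_iff
        have h11 : ((⟨G.pi (G.al d.1), h8⟩ : N) = v) ↔ G.pi (G.al d.1) = v.1 := Subtype.ext_iff
        simp only [A, h10, h11]
        by_cases h12 : G.pi d.1 = v.1
        · have h13 : ¬ G.pi (G.al d.1) = v.1 := by
            intro h13
            rw [← h12] at h13
            exact G.noloop d.1 (hS.sub h5.1) h13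
          have h14 : c v.1 = true := by rw [← h12]; exact h5.2
          simp [h12, h13, h14]
        · by_cases h13 : G.pi (G.al d.1) = v.1
          · have h14 : ¬ c v.1 = true := by rw [← h13]; exact h6
            simp [h12, h13, h14]
          · simp [h12, h13]
      simp_rw [h9]
      rw [sum_add_distrib, sum_ite_eq, sum_ite_eq, if_pos (mem_univ _), if_pos (mem_univ _)]
      ring
    rw [hx] at h3
    have h15 : ∀ v : N, (if c v.1 = true then (1 : ℝ) else -1) *
        (if v.1 = G.pi d0 then 1 else 0) =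
        if v = (⟨G.pi d0, hd0N⟩ : N) then (if c (G.pi d0) = true then (1 : ℝ) else -1) else 0 := by
      intro v
      have h10 : (v = (⟨G.pi d0, hd0N⟩ : N)) ↔ v.1 = G.pi d0 := Subtype.ext_iff
      simp only [h10]
      by_cases h12 : v.1 = G.pi d0
      · simp [h12]
      · simp [h12]
    simp_rw [h15] at h3
    rw [sum_ite_eq', if_pos (mem_univ _)] at h3
    split_ifs at h3 <;> norm_num at h3
  obtain ⟨x, hx0, hx⟩ := key
  let X : D → ℝ := fun d => if h : d ∈ S0 then x ⟨d, h⟩ else 0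
  have hX0 : ∀ d ∉ S0, X d = 0 := fun d h => dif_neg h
  refine ⟨fun d => if d ∈ S then X d + X (G.al d) else 0, fun d h => if_neg h, ?_, ?_, ?_⟩
  · obtain ⟨d, hd⟩ := Function.ne_iff.1 hx0
    have h5 := mem_filter.1 d.2
    refine ⟨d.1, h5.1, ?_⟩
    dsimp only
    rw [if_pos h5.1, hX0 (G.al d.1), add_zero]
    · show (if h : d.1 ∈ S0 then x ⟨d.1, h⟩ else 0) ≠ 0
      rw [dif_pos d.2]
      exact hd
    · intro h6
      have h7 := (mem_filter.1 h6).2
      exact hc d.1 h5.1 (h7.trans h5.2.symm)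
  · intro d hd
    dsimp only
    by_cases h3 : d ∈ S
    · rw [if_pos h3, if_pos (hS.al d h3), G.al_al d hd, add_comm]
    · have h4 : G.al d ∉ S := fun h4 => h3 (by have := hS.al _ h4; rwa [G.al_al d hd] at this)
      rw [if_neg h3, if_neg h4]
  · intro v hv
    dsimp only
    have h3 := congrFun hx ⟨v, hv⟩
    have h4 : A.mulVecLin x ⟨v, hv⟩ = ∑ d : S0, A ⟨v, hv⟩ d * x d := rfl
    rw [h4] at h3
    have h5 : ∑ d : S0, A ⟨v, hv⟩ d * x d =
        ∑ d ∈ S0, ((if G.pi d = v then 1 else 0) + (if G.pi (G.al d) = v then 1 else 0)) * X d := by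
      rw [← sum_coe_sort S0]
      refine sum_congr rfl fun d _ => ?_
      have h6 : X d.1 = x d := dif_pos d.2
      rw [h6]
    rw [h5] at h3
    have h6 : ∑ d ∈ G.st v, (if d ∈ S then X d + X (G.al d) else 0) =
        ∑ d ∈ S, (if G.pi d = v then X d else 0) + ∑ d ∈ S, (if G.pi d = v then X (G.al d) else 0) := by
      rw [← sum_add_distrib, ← sum_filter]
      have h7 : (G.st v).filter (fun d => d ∈ S) = S.filter fun d => G.pi d = v := by
        ext d
        rw [mem_filter, mem_filter, mem_st]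
        constructor
        · rintro ⟨⟨-, h8⟩, h9⟩
          exact ⟨h9, h8⟩
        · rintro ⟨h8, h9⟩
          exact ⟨⟨hS.sub h8, h9⟩, h8⟩
      rw [h7, sum_filter]
      refine sum_congr rfl fun d _ => ?_
      split_ifs <;> simp
    rw [h6]
    have h7 : ∑ d ∈ S, (if G.pi d = v then X (G.al d) else 0) =
        ∑ d ∈ S, (if G.pi (G.al d) = v then X d else 0) := by
      refine sum_bij' (fun d _ => G.al d) (fun d _ => G.al d) (fun d hd => hS.al d hd)
        (fun d hd => hS.al d hd) (fun d hd => G.al_al d (hS.sub hd))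
        (fun d hd => G.al_al d (hS.sub hd)) ?_
      intro d hd
      rw [G.al_al d (hS.sub hd)]
    rw [h7, ← sum_add_distrib]
    have h8 : ∑ d ∈ S, ((if G.pi d = v then X d else 0) + (if G.pi (G.al d) = v then X d else 0)) =
        ∑ d ∈ S0, ((if G.pi d = v then X d else 0) + (if G.pi (G.al d) = v then X d else 0)) := by
      symm
      refine sum_subset (filter_subset _ _) fun d _ hd => ?_
      rw [hX0 d hd]
      simp
    rw [h8]
    refine Eq.trans (sum_congr rfl fun d _ => ?_) h3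
    split_ifs <;> ring

/-- all weights are integers: `S` = darts of `sd z fr` whose weight is not an integer, `N'` = vertices
at `S` with `0 < t v`, `t v ≠ 2` (movable tokens), `N` = the other vertices at `S` (their tokens 0
or 2 are integers, so at least two darts of `S`); the vector of `exists_ker` or its negative
contradicts `NF` -/
theorem N4.zint (h : G.N4 z t fr F jm sx ep m) {d : D} (hd : d ∈ G.ds) : ∃ k : ℕ, z d = k := by
  by_contra hno
  have hw := h.mc.inst.wt
  have hF := h.mc.inst.fresh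
  set S : Finset D := (G.sd z fr).filter fun d => ¬ ∃ k : ℕ, z d = k with hSdef
  have hmem : ∀ e ∈ G.ds, (¬ ∃ k : ℕ, z e = k) → e ∈ S := by
    intro e he hk
    refine mem_filter.2 ⟨mem_sd.2 ⟨he, fun h0 => hk ⟨0, by rw [h0]; norm_num⟩, fun h1 => ?_,
      fun h1 => ?_⟩, hk⟩
    · exact hk ⟨1, by rw [hF.unit e he h1]; norm_num⟩
    · refine hk ⟨1, ?_⟩
      rw [← hw.sym e he, hF.unit _ (G.al_mem e he) h1]
      norm_num
  have hSy : G.Sy S := by
    refine ⟨fun e he => (mem_sd.1 (mem_filter.1 he).1).1, fun e he => ?_⟩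
    obtain ⟨h1, h2⟩ := mem_filter.1 he
    have h3 := (mem_sd.1 h1).1
    refine hmem _ (G.al_mem e h3) ?_
    rwa [hw.sym e h3]
  obtain ⟨c, hc⟩ := h.exists_col
  have hout : ∀ e ∈ S, G.pi e ∉ fr := fun e he => (mem_sd.1 (mem_filter.1 he).1).2.2.1
  set N0 : Finset V := S.image G.pi with hN0
  set N : Finset V := N0.filter fun v => t v = 0 ∨ t v = 2 with hN
  set N' : Finset V := N0.filter fun v => ¬ (t v = 0 ∨ t v = 2) with hN'
  have h2 : ∀ v ∈ N, 2 ≤ (S.filter fun d => G.pi d = v).card := by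
    intro v hv
    obtain ⟨hv0, hvt⟩ := mem_filter.1 hv
    obtain ⟨e, he, hev⟩ := mem_image.1 hv0
    have heds := hSy.sub he
    have hvs : v ∈ G.vs := by rw [← hev]; exact G.pi_mem e heds
    by_contra hlt
    have h3 : (S.filter fun d => G.pi d = v) = {e} := by
      have h4 : e ∈ S.filter fun d => G.pi d = v := mem_filter.2 ⟨he, hev⟩
      refine (eq_of_subset_of_card_le (singleton_subset_iff.2 h4) ?_).symm
      rw [card_singleton]
      omega
    have h4 : ∀ e' ∈ (G.st v).erase e, ∃ k : ℕ, z e' = k := by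
      intro e' he'
      obtain ⟨h5, h6⟩ := mem_erase.1 he'
      obtain ⟨h7, h8⟩ := mem_st.1 h6
      by_contra h9
      have h10 : e' ∈ S.filter fun d => G.pi d = v := mem_filter.2 ⟨hmem e' h7 h9, h8⟩
      rw [h3, mem_singleton] at h10
      exact h5 h10
    have h5 : ∃ k : ℤ, ∑ e' ∈ (G.st v).erase e, z e' = k := by
      choose! f hf using h4
      refine ⟨∑ e' ∈ (G.st v).erase e, (f e' : ℤ), ?_⟩
      push_cast
      exact sum_congr rfl fun e' he' => hf e' he'
    obtain ⟨k, hk⟩ := h5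
    have h6 := hw.deg v hvs
    rw [← add_sum_erase _ _ (mem_st.2 ⟨heds, hev⟩ : e ∈ G.st v), hk] at h6
    have h7 : ∃ k : ℤ, z e = k := by
      rcases hvt with h8 | h8
      · exact ⟨3 - k, by push_cast; linarith⟩
      · exact ⟨1 - k, by push_cast; linarith⟩
    obtain ⟨k', hk'⟩ := h7
    refine (mem_filter.1 he).2 ⟨k'.toNat, ?_⟩
    have h8 : 0 ≤ k' := by
      have h9 := hw.z0 e heds
      rw [hk'] at h9
      exact_mod_cast h9
    rw [hk']
    have h10 : ((k'.toNat : ℤ) : ℝ) = (k' : ℝ) := by rw [Int.toNat_of_nonneg h8]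
    rw [← h10]
    push_cast
    rfl
  have h1 : ∀ v ∈ N', 1 ≤ (S.filter fun d => G.pi d = v).card := by
    intro v hv
    obtain ⟨hv0, -⟩ := mem_filter.1 hv
    obtain ⟨e, he, hev⟩ := mem_image.1 hv0
    exact card_pos.2 ⟨e, mem_filter.2 ⟨he, hev⟩⟩
  have hcov : ∀ e ∈ S, G.pi e ∈ N ∪ N' := by
    intro e he
    rw [hN, hN', filter_union_filter_not_eq]
    exact mem_image_of_mem _ he
  obtain ⟨a, ha0, ⟨e, he, hae⟩, hsym, hdeg⟩ := exists_ker G hSy
    (fun e he => hc e (mem_filter.1 he).1) ⟨d, hmem d hd hno⟩ hcov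
    (disjoint_filter_filter_not _ _ _) h2 h1
  -- vertices with fixed tokens
  have hfix : ∀ v ∈ G.vs, (t v = 0 ∨ t v = 2) → ∑ d ∈ G.st v, a d = 0 := by
    intro v hv hvt
    by_cases h3 : v ∈ N0
    · exact hdeg v (mem_filter.2 ⟨h3, hvt⟩)
    · refine sum_eq_zero fun e' he' => ha0 e' fun h4 => h3 ?_
      rw [← (mem_st.1 he').2]
      exact mem_image_of_mem _ h4
  have hdir : ∀ s : ℝ, G.Dir z fr (fun d => s * a d) (fun v => - ∑ d ∈ G.st v, s * a d) := by
    intro s
    refine ⟨fun e' he' => ?_, fun e' _ h3 => ?_, fun e' _ h3 => ?_, fun v _ => ?_⟩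
    · rw [hsym e' he']
    · rw [ha0 e' fun h4 => hout e' h4 h3, mul_zero]
    · rw [ha0 e' fun h4 => (mem_sd.1 (mem_filter.1 h4).1).2.1 h3, mul_zero]
    · exact add_neg_cancel _
  have hall : ∀ s : ℝ, s ≠ 0 → ∑ v ∈ G.vs, (- ∑ d ∈ G.st v, s * a d) ≤ 0 → False := by
    intro s hs hle
    have h3 := h.nf _ _ (hdir s) (fun v hv h0 => ?_) (fun v hv h0 => ?_) hle e (hSy.sub he)
    · exact hae ((mul_eq_zero.1 h3).resolve_left hs)
    · rw [← mul_sum, hfix v hv (Or.inl h0), mul_zero, neg_zero]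
    · have h4 : t v = 2 := by
        rw [h.tau] at h0
        linarith
      rw [← mul_sum, hfix v hv (Or.inr h4), mul_zero, neg_zero]
  rcases le_total (∑ v ∈ G.vs, (- ∑ d ∈ G.st v, 1 * a d)) 0 with h3 | h3
  · exact hall 1 one_ne_zero h3
  · refine hall (-1) (by norm_num) ?_
    have h4 : ∑ v ∈ G.vs, (- ∑ d ∈ G.st v, -1 * a d) = - ∑ v ∈ G.vs, (- ∑ d ∈ G.st v, 1 * a d) := by
      rw [← sum_neg_distrib]
      refine sum_congr rfl fun v _ => ?_
      rw [← mul_sum, ← mul_sum]
      ring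
    rw [h4]
    linarith

theorem N4.tint (h : G.N4 z t fr F jm sx ep m) {v : V} (hv : v ∈ G.vs) : ∃ k : ℕ, t v = k := by
  have hw := h.mc.inst.wt
  have h1 : ∀ e ∈ G.st v, ∃ k : ℕ, z e = k := fun e he => h.zint (mem_st.1 he).1
  choose! f hf using h1
  have h2 := hw.deg v hv
  have h3 : ∑ e ∈ G.st v, z e = ((∑ e ∈ G.st v, f e : ℕ) : ℝ) := by
    push_cast
    exact sum_congr rfl hf
  rw [h3] at h2
  have h4 := hw.t0 v hv
  have h5 : ((∑ e ∈ G.st v, f e : ℕ) : ℝ) ≤ 3 := by linarith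
  have h6 : (∑ e ∈ G.st v, f e) ≤ 3 := by exact_mod_cast h5
  refine ⟨3 - ∑ e ∈ G.st v, f e, ?_⟩
  rw [Nat.cast_sub h6]
  push_cast at h2 ⊢
  linarith

/-- tokens are 0, 1 or 2 -/
theorem N4.tok (h : G.N4 z t fr F jm sx ep m) {v : V} (hv : v ∈ G.vs) :
    t v = 0 ∨ t v = 1 ∨ t v = 2 := by
  obtain ⟨k, hk⟩ := h.tint hv
  have h1 := h.t_le hv
  rw [hk] at h1 ⊢
  have h2 : k ≤ 2 := by exact_mod_cast h1
  interval_cases k
  · left; norm_num
  · right; left; norm_num
  · right; right; norm_num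

/-- the weight inside a set is an even integer -/
theorem N4.ed_even (h : G.N4 z t fr F jm sx ep m) (X : Finset V) :
    ∃ k : ℕ, ∑ d ∈ G.ed X X, z d = 2 * k := by
  have hw := h.mc.inst.wt
  have h1 : ∀ e ∈ G.ds, ∃ k : ℕ, z e = k := fun e he => h.zint he
  choose! f hf using h1
  have h2 : ∑ d ∈ G.ed X X, z d = ((∑ d ∈ G.ed X X, f d : ℕ) : ℝ) := by
    push_cast
    exact sum_congr rfl fun e he => hf e (mem_ed.1 he).1
  have h3 : ∀ e ∈ G.ds, f (G.al e) = f e := by
    intro e he
    have h4 := hw.sym e he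
    rw [hf e he, hf _ (G.al_mem e he)] at h4
    exact_mod_cast h4
  have h4 : Even (∑ d ∈ G.ed X X, f d) := by
    rw [← ZMod.natCast_eq_zero_iff_even]
    push_cast
    refine sum_involution (fun d _ => G.al d) ?_ ?_ ?_ ?_
    · intro e he
      rw [h3 e (mem_ed.1 he).1, ← two_mul]
      have : (2 : ZMod 2) = 0 := rfl
      rw [this, zero_mul]
    · intro e he _ h5
      exact G.noloop e (mem_ed.1 he).1 (by rw [h5])
    · intro e he
      obtain ⟨h5, h6, h7⟩ := mem_ed.1 he
      exact mem_ed.2 ⟨G.al_mem e h5, h7, by rw [G.al_al e h5]; exact h6⟩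
    · intro e he
      exact G.al_al e (mem_ed.1 he).1
  obtain ⟨k, hk⟩ := h4
  exact ⟨k, by rw [h2, hk]; push_cast; ring⟩

/-- odd sets have odd value -/
theorem N4.val_odd (h : G.N4 z t fr F jm sx ep m) {X : Finset V} (hX : X ⊆ G.vs)
    (ho : Odd X.card) : ∃ k : ℕ, G.val z t X = 2 * k + 1 := by
  have hw := h.mc.inst.wt
  have h1 := hw.val_eq hX
  obtain ⟨k, hk⟩ := h.ed_even X
  obtain ⟨n, hn⟩ := ho
  have h2 := hw.val_nonneg hX
  rw [hk, hn] at h1
  push_cast at h1
  rw [h1] at h2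
  have h3 : (2 * (k : ℝ)) ≤ 6 * n + 3 := by linarith
  have h4 : 2 * k ≤ 6 * n + 3 := by exact_mod_cast h3
  refine ⟨3 * n + 1 - k, ?_⟩
  rw [Nat.cast_sub (by omega)]
  push_cast
  linarith

/-- even sets have even value -/
theorem N4.val_even (h : G.N4 z t fr F jm sx ep m) {X : Finset V} (hX : X ⊆ G.vs)
    (he : Even X.card) : ∃ k : ℕ, G.val z t X = 2 * k := by
  have hw := h.mc.inst.wt
  have h1 := hw.val_eq hX
  obtain ⟨k, hk⟩ := h.ed_even X
  obtain ⟨n, hn⟩ := he
  have h2 := hw.val_nonneg hX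
  rw [hk, hn] at h1
  push_cast at h1
  rw [h1] at h2
  have h3 : (2 * (k : ℝ)) ≤ 6 * n := by linarith
  have h4 : 2 * k ≤ 6 * n := by exact_mod_cast h3
  refine ⟨3 * n - k, ?_⟩
  rw [Nat.cast_sub (by omega)]
  push_cast
  linarith

/-- proper even sets have value at least 2 -/
theorem N4.val_ge2 (h : G.N4 z t fr F jm sx ep m) {X : Finset V} (hX : X ⊆ G.vs)
    (he : Even X.card) (hne : X.Nonempty) (hne' : X ≠ G.vs) : 2 ≤ G.val z t X := by
  have hw := h.mc.inst.wt
  obtain ⟨k, hk⟩ := h.val_even hX he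
  rcases Nat.eq_zero_or_pos k with h0 | h0
  · exfalso
    obtain ⟨d, hd, hd0⟩ := h.mc.conn hX hne hne'
    rw [h0] at hk
    have h1 : 0 < ∑ d ∈ G.bd X, z d :=
      sum_pos' (fun e he => hw.z0 e (mem_bd.1 he).1)
        ⟨d, hd, lt_of_le_of_ne (hw.z0 d (mem_bd.1 hd).1) (Ne.symm hd0)⟩
    have h2 : 0 ≤ ∑ v ∈ X, t v := sum_nonneg fun v hv => hw.t0 v (hX hv)
    unfold val at hk
    push_cast at hk
    linarith
  · rw [hk]
    have : (1 : ℝ) ≤ k := by exact_mod_cast h0
    linarith

/-- odd sets which are not tight have value at least 5 -/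
theorem N4.v5 (h : G.N4 z t fr F jm sx ep m) {X : Finset V} (hX : X ⊆ G.vs)
    (ho : Odd X.card) (h3 : G.val z t X ≠ 3) : 5 ≤ G.val z t X := by
  obtain ⟨k, hk⟩ := h.val_odd hX ho
  have h1 := h.mc.inst.wt.cut X hX ho
  rw [hk] at h1 h3 ⊢
  have h4 : (1 : ℝ) ≤ k := by linarith
  have h5 : 1 ≤ k := by exact_mod_cast h4
  have h6 : k ≠ 1 := by
    rintro rfl
    exact h3 (by norm_num)
  have h7 : 2 ≤ k := by omega
  have h8 : (2 : ℝ) ≤ k := by exact_mod_cast h7
  linarith

end MG
end RH
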