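import Pool.Agent.Lib.RH.N4U

/-! No vertex with exactly one token (helper93, c4_93.md, section 3), star-free. -/

set_option autoImplicit false

namespace RH

open Finset Classical

namespace MG

variable {V D : Type*} {G : MG V D} {z : D → ℝ} {t : V → ℝ} {fr : Finset V} {F : Finset D}
variable {ep : V → ℕ} {m : ℕ} {C C' W W' : Finset V} {P1 P2 P1' P2' U U' : Finset D}

/-- Lemma A: the sets of the family of `C` contain all legs of `C` (not at vertices with two tokens) -/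
def LemA (G : MG V D) (z : D → ℝ) (t : V → ℝ) (fr : Finset V) (F : Finset D) : Prop :=
  ∀ (C : Finset V) (P1 P2 : Finset D), G.Circ fr F C → G.Two F C P1 P2 → ∀ j ∈ G.ds,
    G.pi j ∈ C → G.pi (G.al j) ∉ fr → t (G.pi (G.al j)) ≠ 2 → ∀ W : Finset V,
      G.BV z t P1 P2 W → G.pi j ∈ W ∧ G.pi (G.al j) ∈ W

/-- the family of an even circuit with a leg (not at a vertex with two tokens) is not empty -/
def TBad (G : MG V D) (z : D → ℝ) (t : V → ℝ) (fr : Finset V) (F : Finset D) : Prop :=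
  ∀ C : Finset V, G.Circ fr F C → Even C.card → ∀ j ∈ G.ds,
    G.pi j ∈ C → G.pi (G.al j) ∉ fr → t (G.pi (G.al j)) ≠ 2 →
      ∃ (P1 P2 : Finset D) (W : Finset V), G.Two F C P1 P2 ∧ G.BV z t P1 P2 W

/-- the darts of a perfect matching at one vertex are equal -/
theorem IsPM.uniq {M : Finset D} (hM : G.IsPM M) {d e : D} (hd : d ∈ M) (he : e ∈ M)
    (h : G.pi d = G.pi e) : d = e := by
  have h1 := hM.one (G.pi e) (G.pi_mem e (hM.sub he))
  exact card_le_one.1 h1.le d (mem_filter.2 ⟨hd, h⟩) e (mem_filter.2 ⟨he, rfl⟩)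

/-- circuits contain no smaller union -/
theorem Circ.hmin (hC : G.Circ fr F C) : ∀ X, G.Adm fr F X → (X ∩ C).Nonempty → C ⊆ X := by
  intro X hX hne
  have h1 := hC.min _ (hX.inter hC.adm) inter_subset_right hne
  rw [← h1]
  exact inter_subset_left

/-- a set of the family has even `P2`-boundary -/
theorem N4.p2_even (h : G.N4 z t fr F ∅ ∅ ep m) (hW : G.BV z t P1 P2 W) :
    ∃ k : ℕ, (((G.bd W).filter fun d => d ∈ P2).card : ℝ) = 2 * k := by
  obtain ⟨hs, ho, -, hv⟩ := hW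
  obtain ⟨k, hk⟩ := h.val_odd hs ho
  exact ⟨k, by rw [hk] at hv; linarith⟩

/-- NO VERTEX WITH EXACTLY ONE TOKEN -/
theorem N4.no_alpha (h : G.N4 z t fr F ∅ ∅ ep m) (hA : G.LemA z t fr F) (hB : G.TBad z t fr F)
    {v : V} (hv : v ∈ G.vs) : t v ≠ 1 := by
  intro h1
  have hF := h.mc.inst.fresh
  have hw := h.mc.inst.wt
  have hvf : v ∉ fr := by
    intro h2
    rw [hF.t_not_jm hw h2 (notMem_empty v)] at h1
    norm_num at h1
  have htv : 0 < t v := by rw [h1]; norm_num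
  have hnt : t v ≠ 2 := by rw [h1]; norm_num
  have hlegs := h.tok_legs hv hvf htv
  have hcard : ((G.st v).filter fun d => z d ≠ 0).card = 2 := by
    rw [h1] at hlegs
    have : (((G.st v).filter fun d => z d ≠ 0).card : ℝ) = 2 := by rw [hlegs]; norm_num
    exact_mod_cast this
  obtain ⟨d1, d2, hne, heq⟩ := card_eq_two.1 hcard
  have hd1 : d1 ∈ (G.st v).filter fun d => z d ≠ 0 := by rw [heq]; simp
  have hd2 : d2 ∈ (G.st v).filter fun d => z d ≠ 0 := by rw [heq]; simp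
  -- data of a leg
  have leg : ∀ d ∈ (G.st v).filter (fun d => z d ≠ 0), d ∈ G.ds ∧ G.pi d = v ∧ z d ≠ 0 ∧
      G.pi (G.al d) ∈ fr ∧ G.al d ∈ G.ds ∧ G.pi (G.al (G.al d)) = v := by
    intro d hd
    obtain ⟨h2, h3⟩ := mem_filter.1 hd
    obtain ⟨h4, h5⟩ := mem_st.1 h2
    exact ⟨h4, h5, h3, h.tok_iso hv hvf htv d h4 h5 h3, G.al_mem d h4, by rw [G.al_al d h4, h5]⟩
  obtain ⟨a1, a2, a3, a4, a5, a6⟩ := leg d1 hd1
  obtain ⟨b1, b2, b3, b4, b5, b6⟩ := leg d2 hd2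
  have circ : ∀ d ∈ (G.st v).filter (fun d => z d ≠ 0), ∃ C, G.pi (G.al d) ∈ C ∧ G.Circ fr F C ∧
      Even C.card := by
    intro d hd
    obtain ⟨c1, c2, c3, c4, c5, c6⟩ := leg d hd
    obtain ⟨C, hC1, hC2⟩ := hF.exists_circ c4
    refine ⟨C, hC1, hC2, ?_⟩
    by_contra hodd
    rw [Nat.not_even_iff_odd] at hodd
    have h2 := h.no_leg_odd hC2 hodd c5 hC1 (by rw [c6]; exact hvf)
    rw [c6] at h2
    exact hnt h2
  obtain ⟨C1, x1, hC1, hC1e⟩ := circ d1 hd1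
  obtain ⟨C2, x2, hC2, hC2e⟩ := circ d2 hd2
  have hdisj : Disjoint C1 C2 := by
    rcases hC1.eq_or_disj hC2 with h2 | h2
    · exfalso
      obtain ⟨M, hM, -, hMe⟩ := h.mc.free_abs hC1.adm hC1.ne hC1.hmin
        (Or.inl ⟨disjoint_empty_right _, disjoint_empty_right _⟩)
      have m1 : G.al d1 ∈ M := hMe _ (mem_ed.2 ⟨a5, x1, by
        rw [a6]; exact mem_sdiff.2 ⟨hv, hvf⟩⟩)
      have m2 : G.al d2 ∈ M := hMe _ (mem_ed.2 ⟨b5, by rw [h2]; exact x2, by
        rw [b6]; exact mem_sdiff.2 ⟨hv, hvf⟩⟩)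
      have m1' := hM.closed _ m1
      have m2' := hM.closed _ m2
      rw [G.al_al d1 a1] at m1'
      rw [G.al_al d2 b1] at m2'
      exact hne (hM.uniq m1' m2' (a2.trans b2.symm))
    · exact h2
  obtain ⟨P1, P2, W, hT, hW⟩ := hB C1 hC1 hC1e (G.al d1) a5 x1 (by rw [a6]; exact hvf)
    (by rw [a6]; exact hnt)
  obtain ⟨P1', P2', W', hT', hW'⟩ := hB C2 hC2 hC2e (G.al d2) b5 x2 (by rw [b6]; exact hvf)
    (by rw [b6]; exact hnt)
  have hvW := (hA C1 P1 P2 hC1 hT (G.al d1) a5 x1 (by rw [a6]; exact hvf)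
    (by rw [a6]; exact hnt) W hW)
  have hvW' := (hA C2 P1' P2' hC2 hT' (G.al d2) b5 x2 (by rw [b6]; exact hvf)
    (by rw [b6]; exact hnt) W' hW')
  rw [a6] at hvW
  rw [b6] at hvW'
  obtain ⟨U, hU⟩ := h.exists_bs hT hC1.adm.sub hW
  obtain ⟨U', hU'⟩ := h.exists_bs hT' hC2.adm.sub hW'
  -- tokens
  have tokv : ∀ {S : Finset V} {Z : Finset D} {Q1 Q2 : Finset D}, G.Bs z t Q1 Q2 S Z → v ∈ S →
      Z = ∅ ∧ ∑ w ∈ S, t w = 1 := by
    intro S Z Q1 Q2 hS hvS
    have h2 : t v ≤ ∑ w ∈ S, t w :=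
      single_le_sum (f := t) (fun w hw' => hw.t0 w (hS.sub hw')) hvS
    have h3 := hS.tok
    have h4 : (0 : ℝ) ≤ Z.card := Nat.cast_nonneg _
    have h5 : (Z.card : ℝ) = 0 := by linarith
    have h6 : Z.card = 0 := by exact_mod_cast h5
    exact ⟨card_eq_zero.1 h6, by linarith⟩
  obtain ⟨hU0, htW⟩ := tokv hU hvW.2
  obtain ⟨hU0', htW'⟩ := tokv hU' hvW'.2
  -- the other circuits are inside
  have hs : C2 ⊆ W := by
    refine hU.nocut hT hF hw hC1 hC2 hdisj x2 ?_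
    by_contra h2
    have h3 : d2 ∈ G.bd W := mem_bd.2 ⟨b1, by rw [b2]; exact hvW.2, h2⟩
    refine b3 (hU.out d2 h3 (fun h4 => ?_) (by rw [hU0]; exact notMem_empty _))
    have h5 := hC1.adm.sub (hT.sub2 h4).2
    rw [b2] at h5
    exact hvf h5
  have hd : C1 ⊆ W' := by
    refine hU'.nocut hT' hF hw hC2 hC1 hdisj.symm x1 ?_
    by_contra h2
    have h3 : d1 ∈ G.bd W' := mem_bd.2 ⟨a1, by rw [a2]; exact hvW'.2, h2⟩
    refine a3 (hU'.out d1 h3 (fun h4 => ?_) (by rw [hU0']; exact notMem_empty _))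
    have h5 := hC2.adm.sub (hT'.sub2 h4).2
    rw [a2] at h5
    exact hvf h5
  have hcard0 : (U.card : ℝ) + U'.card = 0 := by
    rw [hU0, hU0', card_empty]
    norm_num
  rcases Nat.even_or_odd (W \ W').card with hpar | hpar
  · -- the union
    have h2 := hU.union hU' hT hT' hw hC1 hC2 hd hs
    rw [hcard0] at h2
    have h3 : W ∪ W' ⊆ G.vs := union_subset hU.sub hU'.sub
    have h4 : Odd (W ∪ W').card := by
      have h5 : (W ∪ W').card = W'.card + (W \ W').card := by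
        rw [union_comm, ← union_sdiff_self_eq_union, card_union_of_disjoint disjoint_sdiff]
      rw [h5]
      exact hU'.odd.add_even hpar
    have h5 := hw.cut _ h3 h4
    unfold MG.val at h5
    have h6 : ∑ w ∈ W ∪ W', t w ≤ 1 := by
      have h7 := sum_union_inter (s₁ := W) (s₂ := W') (f := t)
      have h8 : t v ≤ ∑ w ∈ W ∩ W', t w :=
        single_le_sum (f := t) (fun w hw' => hw.t0 w (hU.sub (mem_inter.1 hw').1))
          (mem_inter.2 ⟨hvW.2, hvW'.2⟩)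
      linarith
    linarith
  · -- the difference
    obtain ⟨-, h2, h3⟩ := hU.diff2 hU' hT hT' hw hC1 hC2 hd hs
    rw [hcard0] at h3
    have h4 : W \ W' ⊆ G.vs := sdiff_subset.trans hU.sub
    obtain ⟨k, hk⟩ := h.val_odd h4 hpar
    obtain ⟨k', hk'⟩ := h.p2_even hW'
    rw [hT'.val_split hF hC2.adm.sub, h2, hk'] at hk
    have h5 : ∑ w ∈ W \ W', t w = 0 := by
      have h6 : ∑ w ∈ W \ W', t w + ∑ w ∈ W ∩ W', t w = ∑ w ∈ W, t w := by
        rw [← sum_union (disjoint_sdiff_inter W W'), sdiff_union_inter]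
      have h7 : t v ≤ ∑ w ∈ W ∩ W', t w :=
        single_le_sum (f := t) (fun w hw' => hw.t0 w (hU.sub (mem_inter.1 hw').1))
          (mem_inter.2 ⟨hvW.2, hvW'.2⟩)
      have h8 : 0 ≤ ∑ w ∈ W \ W', t w :=
        sum_nonneg fun w hw' => hw.t0 w (hU.sub (mem_sdiff.1 hw').1)
      linarith
    have h6 : 0 ≤ ∑ d ∈ (G.bd (W \ W')).filter (fun d => d ∉ P2'), z d :=
      sum_nonneg fun d hd => hw.z0 d (mem_bd.1 (mem_filter.1 hd).1).1
    have h7 : (2 * k' : ℝ) = 2 * k + 1 := by linarith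
    have h8 : (2 * k' : ℕ) = 2 * k + 1 := by exact_mod_cast h7
    omega

end MG

end RH
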