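import Pool.Agent.Lib.RH.N4S3
import Pool.Agent.Lib.RH.SOps

/-! No leg from an even circuit to a vertex without two tokens (helper93, c4_93.md, section 4),
star-free. -/

set_option autoImplicit false

namespace RH

open Finset Classical

namespace MG

variable {V D : Type*} {G : MG V D} {z : D → ℝ} {t : V → ℝ} {fr : Finset V} {F : Finset D}
variable {ep : V → ℕ} {m : ℕ} {C C' W W' : Finset V} {P1 P2 P1' P2' U U' : Finset D}

/-- a circuit with a leg which does not end at a vertex with two tokens -/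
def Leg (G : MG V D) (t : V → ℝ) (fr : Finset V) (C : Finset V) : Prop :=
  ∃ j ∈ G.ds, G.pi j ∈ C ∧ G.pi (G.al j) ∉ fr ∧ t (G.pi (G.al j)) ≠ 2

/-- no tokens in a set of the family, one unit edge -/
theorem N4.tok0 (h : G.N4 z t fr F ∅ ∅ ep m) (hα : ∀ v ∈ G.vs, t v ≠ 1)
    (hU : G.Bs z t P1 P2 W U) : (∀ v ∈ W, t v = 0) ∧ U.card = 1 := by
  have hw := h.mc.inst.wt
  have h0 : ∀ v ∈ W, t v = 0 := by
    intro v hv
    have hvs := hU.sub hv
    have h2 : t v ≤ ∑ w ∈ W, t w :=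
      single_le_sum (f := t) (fun w hw' => hw.t0 w (hU.sub hw')) hv
    have h3 := hU.tok
    have h4 : (0 : ℝ) ≤ U.card := Nat.cast_nonneg _
    rcases h.tok hvs with h5 | h5 | h5
    · exact h5
    · exact absurd h5 (hα v hvs)
    · exfalso
      linarith
  refine ⟨h0, ?_⟩
  have h3 := hU.tok
  rw [sum_eq_zero h0, zero_add] at h3
  exact_mod_cast h3

/-- section 4(a): the minimal set contains no other bad circuit -/
theorem N4.s4a (h : G.N4 z t fr F ∅ ∅ ep m) (hB : G.TBad z t fr F)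
    (hA : G.LemA z t fr F) (hα : ∀ v ∈ G.vs, t v ≠ 1) {n : ℕ}
    (ih : ∀ (C : Finset V) (P1 P2 : Finset D) (W : Finset V), G.Circ fr F C → Even C.card →
      G.Leg t fr C → G.Two F C P1 P2 → G.BV z t P1 P2 W → W.card < n → False)
    (hC : G.Circ fr F C) (hL : G.Leg t fr C) (hT : G.Two F C P1 P2)
    (hW : G.BV z t P1 P2 W) (hn : W.card = n) (hC' : G.Circ fr F C') (hCe' : Even C'.card)
    (hL' : G.Leg t fr C') (hne : C ≠ C') (hs : C' ⊆ W) : False := by
  have hF := h.mc.inst.fresh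
  have hw := h.mc.inst.wt
  have hdis : Disjoint C C' := (hC.eq_or_disj hC').resolve_left hne
  obtain ⟨j, hj, hjC, hjf, hjt⟩ := id hL
  have hjW := (hA C P1 P2 hC hT j hj hjC hjf hjt W hW).1
  obtain ⟨j', hj', hjC', hjf', hjt'⟩ := id hL'
  obtain ⟨P1', P2', W', hT', hW'⟩ := hB C' hC' hCe' j' hj' hjC' hjf' hjt'
  obtain ⟨U, hU⟩ := h.exists_bs hT hC.adm.sub hW
  obtain ⟨U', hU'⟩ := h.exists_bs hT' hC'.adm.sub hW'
  obtain ⟨t0, c1⟩ := h.tok0 hα hU
  obtain ⟨t0', c1'⟩ := h.tok0 hα hU'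
  have hcard : (U.card : ℝ) + U'.card = 2 := by
    rw [c1, c1']
    norm_num
  obtain ⟨k', hk'⟩ := h.p2_even hW'
  -- the value of an odd set with the same `P2'`-boundary
  have key : ∀ S ⊆ G.vs, Odd S.card → (∀ v ∈ S, t v = 0) →
      ((G.bd S).filter fun d => d ∈ P2').card = ((G.bd W').filter fun d => d ∈ P2').card →
      ∑ d ∈ (G.bd S).filter (fun d => d ∉ P2'), z d ≤ U.card + U'.card →
      (∀ d ∈ P1', d ∉ G.bd S) → G.BV z t P1' P2' S := by
    intro S hS ho hS0 h1 h2 h3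
    refine ⟨hS, ho, h3, ?_⟩
    obtain ⟨k, hk⟩ := h.val_odd hS ho
    have h4 := hT'.val_split (z := z) (t := t) hF hC'.adm.sub S
    rw [sum_eq_zero hS0, add_zero] at h4
    have h5 : 0 ≤ ∑ d ∈ (G.bd S).filter (fun d => d ∉ P2'), z d :=
      sum_nonneg fun d hd => hw.z0 d (mem_bd.1 (mem_filter.1 hd).1).1
    rw [h1, hk'] at h4
    rw [hcard] at h2
    rw [h1, hk', hk]
    rw [hk] at h4
    have h6 : (2 * k' : ℝ) ≤ 2 * k + 1 := by linarith
    have h7 : (2 * k + 1 : ℝ) ≤ 2 * k' + 2 := by linarith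
    have h8 : 2 * k' ≤ 2 * k + 1 := by exact_mod_cast h6
    have h9 : 2 * k + 1 ≤ 2 * k' + 2 := by exact_mod_cast h7
    have h10 : k = k' := by omega
    rw [h10]
    ring
  have hjx : G.pi j ∈ C ∩ W := mem_inter.2 ⟨hjC, hjW⟩
  by_cases hCW : Disjoint C W'
  · obtain ⟨a1, a2, a3⟩ := hU.inter hU' hT hT' hw hC hC' hCW hs
    rcases Nat.even_or_odd (W ∩ W').card with hpar | hpar
    · have h1 := hU.diff1 hU' hT hT' hw hC hC' hCW hs
      rw [hcard] at h1
      have h2 : W' \ W ⊆ G.vs := sdiff_subset.trans hU'.sub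
      have h3 : Odd (W' \ W).card := by
        have h4 : (W' \ W).card + (W' ∩ W).card = W'.card := card_sdiff_add_card_inter _ _
        rw [inter_comm] at h4
        have h5 := hU'.odd
        rw [← h4] at h5
        rcases Nat.even_or_odd (W' \ W).card with h6 | h6
        · exact absurd (h6.add hpar) (Nat.not_even_iff_odd.2 h5)
        · exact h6
      have h4 := hw.cut _ h2 h3
      unfold MG.val at h4
      rw [sum_eq_zero fun v hv => t0' v (mem_sdiff.1 hv).1, add_zero] at h4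
      linarith
    · refine ih C' P1' P2' (W ∩ W') hC' hCe' hL' hT' (key _ (inter_subset_left.trans hU.sub) hpar
        (fun v hv => t0 v (mem_inter.1 hv).1) (by rw [a2]) a3 a1) ?_
      rw [← hn]
      refine card_lt_card (Finset.ssubset_iff_subset_ne.2 ⟨inter_subset_left, fun he => ?_⟩)
      rw [← he] at hjx
      exact disjoint_left.1 hCW (mem_inter.1 hjx).1 (mem_inter.1 (mem_inter.1 hjx).2).2
  · -- `C` inside `W'`
    have hCW' : C ⊆ W' := by
      rw [disjoint_iff_inter_eq_empty, ← not_nonempty_iff_eq_empty, not_not] at hCW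
      obtain ⟨v, hv⟩ := hCW
      obtain ⟨hv1, hv2⟩ := mem_inter.1 hv
      exact hU'.nocut hT' hF hw hC' hC hdis.symm hv1 hv2
    obtain ⟨a1, a2, a3⟩ := hU.diff2 hU' hT hT' hw hC hC' hCW' hs
    rcases Nat.even_or_odd (W \ W').card with hpar | hpar
    · have h1 := hU.union hU' hT hT' hw hC hC' hCW' hs
      rw [hcard] at h1
      have h2 : W ∪ W' ⊆ G.vs := union_subset hU.sub hU'.sub
      have h3 : Odd (W ∪ W').card := by
        have h5 : (W ∪ W').card = W'.card + (W \ W').card := by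
          rw [union_comm, ← union_sdiff_self_eq_union, card_union_of_disjoint disjoint_sdiff]
        rw [h5]
        exact hU'.odd.add_even hpar
      have h4 := hw.cut _ h2 h3
      unfold MG.val at h4
      rw [sum_eq_zero (s := W ∪ W') fun v hv => (mem_union.1 hv).elim (t0 v) (t0' v),
        add_zero] at h4
      linarith
    · refine ih C' P1' P2' (W \ W') hC' hCe' hL' hT' (key _ (sdiff_subset.trans hU.sub) hpar
        (fun v hv => t0 v (mem_sdiff.1 hv).1) a2 a3 a1) ?_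
      rw [← hn]
      refine card_lt_card (Finset.ssubset_iff_subset_ne.2 ⟨sdiff_subset, fun he => ?_⟩)
      rw [← he] at hjx
      exact (mem_sdiff.1 (mem_inter.1 hjx).2).2 (hCW' (mem_inter.1 hjx).1)

/-- inner darts cancel -/
theorem ed_cancel {T : Finset V} {f : D → ℝ} (hf : ∀ d ∈ G.ed T T, f (G.al d) = -f d) :
    ∑ d ∈ G.ed T T, f d = 0 := by
  refine sum_involution (fun d _ => G.al d) ?_ ?_ ?_ ?_
  · intro d hd
    rw [hf d hd]
    ring
  · intro d hd _ he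
    exact G.noloop d (mem_ed.1 hd).1 (by rw [he])
  · intro d hd
    obtain ⟨h1, h2, h3⟩ := mem_ed.1 hd
    exact mem_ed.2 ⟨G.al_mem d h1, h3, by rw [G.al_al d h1]; exact h2⟩
  · intro d hd
    exact G.al_al d (mem_ed.1 hd).1

/-- signed degree sum -/
theorem Wt.signed (hw : G.Wt z t) {T : Finset V} (hT : T ⊆ G.vs) (ht : ∀ v ∈ T, t v = 0)
    {σ : V → ℝ} (hσ : ∀ d ∈ G.ed T T, z d ≠ 0 → σ (G.pi (G.al d)) = -σ (G.pi d)) :
    3 * ∑ v ∈ T, σ v = ∑ d ∈ G.bd T, σ (G.pi d) * z d := by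
  have h1 := sum_st G (fun d => σ (G.pi d) * z d) T
  rw [ed_cancel (T := T) (f := fun d => σ (G.pi d) * z d) (by
    intro d hd
    show σ (G.pi (G.al d)) * z (G.al d) = -(σ (G.pi d) * z d)
    rw [hw.sym d (mem_ed.1 hd).1]
    by_cases hz : z d = 0
    · rw [hz]
      ring
    · rw [hσ d hd hz]
      ring), add_zero] at h1
  rw [← h1, mul_sum]
  refine sum_congr rfl fun v hv => ?_
  have h2 := hw.deg v (hT hv)
  rw [ht v hv, add_zero] at h2
  rw [← h2, sum_mul]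
  refine sum_congr rfl fun d hd => ?_
  rw [(mem_st.1 hd).2]
  ring

/-- signed count of matching darts -/
theorem IsPM.signed {M : Finset D} (hM : G.IsPM M) {T : Finset V} (hT : T ⊆ G.vs)
    {σ : V → ℝ} (hσ : ∀ d ∈ G.ed T T, d ∈ M → σ (G.pi (G.al d)) = -σ (G.pi d)) :
    ∑ v ∈ T, σ v = ∑ d ∈ (G.bd T).filter (fun d => d ∈ M), σ (G.pi d) := by
  have h1 := sum_st G (fun d => if d ∈ M then σ (G.pi d) else 0) T
  rw [ed_cancel (T := T) (f := fun d => if d ∈ M then σ (G.pi d) else 0) (by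
    intro d hd
    show (if G.al d ∈ M then σ (G.pi (G.al d)) else 0) = -(if d ∈ M then σ (G.pi d) else 0)
    by_cases hz : d ∈ M
    · rw [if_pos hz, if_pos (hM.closed d hz), hσ d hd hz]
    · have h2 : G.al d ∉ M := by
        intro h3
        have h4 := hM.closed _ h3
        rw [G.al_al d (mem_ed.1 hd).1] at h4
        exact hz h4
      rw [if_neg hz, if_neg h2, neg_zero]), add_zero] at h1
  rw [sum_filter, ← h1]
  refine sum_congr rfl fun v hv => ?_
  rw [← sum_filter]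
  obtain ⟨e, he⟩ := card_eq_one.1 (hM.one v (hT hv))
  have h2 : (G.st v).filter (fun d => d ∈ M) = {e} := by
    rw [← he]
    ext d
    rw [mem_filter, mem_filter, mem_st]
    constructor
    · rintro ⟨⟨-, h3⟩, h4⟩
      exact ⟨h4, h3⟩
    · rintro ⟨h3, h4⟩
      exact ⟨⟨hM.sub h3, h4⟩, h3⟩
  have h3 : e ∈ M.filter fun d => G.pi d = v := by rw [he]; exact mem_singleton_self e
  rw [h2, sum_singleton, (mem_filter.1 h3).2]

/-- a balanced set has even size -/
theorem even_of_balanced {T : Finset V} {c : V → Bool}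
    (hc : ∑ v ∈ T, (if c v = true then (1 : ℝ) else -1) = 0) : Even T.card := by
  have h1 : ∑ v ∈ T, (if c v = true then (1 : ℝ) else -1) =
      ((T.filter fun v => c v = true).card : ℝ) - (T.filter fun v => ¬ c v = true).card := by
    rw [sum_ite, sum_const, sum_const, nsmul_eq_mul, nsmul_eq_mul]
    ring
  rw [h1] at hc
  have h2 : ((T.filter fun v => c v = true).card : ℝ) = (T.filter fun v => ¬ c v = true).card := by
    linarith
  have h3 : (T.filter fun v => c v = true).card = (T.filter fun v => ¬ c v = true).card := by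
    exact_mod_cast h2
  have h4 := card_filter_add_card_filter_not (s := T) (fun v => c v = true)
  exact ⟨_, by rw [← h4, ← h3]⟩

theorem sign_int {T : Finset V} {c : V → Bool} :
    ∃ k : ℤ, ∑ v ∈ T, (if c v = true then (1 : ℝ) else -1) = k := by
  refine ⟨∑ v ∈ T, (if c v = true then (1 : ℤ) else -1), ?_⟩
  push_cast
  refine sum_congr rfl fun v _ => ?_
  split_ifs <;> norm_num

/-- section 4(b): the component of the end of the leg in the minimal set gives a pole -/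
theorem N4.s4b (h : G.N4 z t fr F ∅ ∅ ep 0) (hA : G.LemA z t fr F)
    (hα : ∀ v ∈ G.vs, t v ≠ 1)
    (hC : G.Circ fr F C) (hCe : Even C.card) (hL : G.Leg t fr C) (hT : G.Two F C P1 P2)
    (hW : G.BV z t P1 P2 W)
    (hmin : ∀ C', G.Circ fr F C' → Even C'.card → G.Leg t fr C' → C ≠ C' → C' ⊆ W → False) :
    False := by
  have hF := h.mc.inst.fresh
  have hw := h.mc.inst.wt
  obtain ⟨j, hj, hjC, hjf, hjt⟩ := id hL
  have hjW := (hA C P1 P2 hC hT j hj hjC hjf hjt W hW).2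
  obtain ⟨U, hU⟩ := h.exists_bs hT hC.adm.sub hW
  obtain ⟨t0, c1⟩ := h.tok0 hα hU
  obtain ⟨w0, hw0⟩ : ∃ w0, w0 = G.pi (G.al j) := ⟨_, rfl⟩
  rw [← hw0] at hjf hjt hjW
  obtain ⟨T, hTd⟩ : ∃ T, T = (W \ fr).filter fun v => ∃ l, G.IsW (G.sd z (G.vs \ (W \ fr))) w0 l v :=
    ⟨_, rfl⟩
  have hmT : ∀ v, v ∈ T ↔ (v ∈ W ∧ v ∉ fr) ∧ ∃ l, G.IsW (G.sd z (G.vs \ (W \ fr))) w0 l v := by
    intro v
    rw [hTd, mem_filter, mem_sdiff]
  have hw0T : w0 ∈ T := (hmT _).2 ⟨⟨hjW, hjf⟩, [], rfl⟩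
  have hTW : T ⊆ W := fun v hv => ((hmT v).1 hv).1.1
  have hTf : ∀ v ∈ T, v ∉ fr := fun v hv => ((hmT v).1 hv).1.2
  have hTv : T ⊆ G.vs := hTW.trans hU.sub
  have hT0 : ∀ v ∈ T, t v = 0 := fun v hv => t0 v (hTW hv)
  -- support darts which leave `T`
  have hout : ∀ d ∈ G.bd T, z d ≠ 0 → d ∈ U ∨ (G.pi (G.al d) ∈ C ∧ G.pi (G.al d) ∈ W) := by
    intro d hd hz
    obtain ⟨d1, d2, d3⟩ := mem_bd.1 hd
    by_cases hdW : G.pi (G.al d) ∈ W
    · right
      have hfr : G.pi (G.al d) ∈ fr := by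
        by_contra hnf
        apply d3
        obtain ⟨-, l, hl⟩ := (hmT _).1 d2
        refine (hmT _).2 ⟨⟨hdW, hnf⟩, l ++ [d], hl.snoc ?_ rfl⟩
        refine mem_sd.2 ⟨d1, hz, fun h1 => ?_, fun h1 => ?_⟩
        · exact (mem_sdiff.1 h1).2 (mem_sdiff.2 ⟨hTW d2, hTf _ d2⟩)
        · exact (mem_sdiff.1 h1).2 (mem_sdiff.2 ⟨hdW, hnf⟩)
      refine ⟨?_, hdW⟩
      by_contra hnC
      obtain ⟨C', hxC', hC'⟩ := hF.exists_circ hfr
      have hne : C ≠ C' := fun h1 => hnC (h1 ▸ hxC')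
      have hdis : Disjoint C C' := (hC.eq_or_disj hC').resolve_left hne
      have hCW := hU.nocut hT hF hw hC hC' hdis hxC' hdW
      have haj := G.al_mem d d1
      have haa := G.al_al d d1
      have ht2 : t (G.pi (G.al (G.al d))) ≠ 2 := by
        rw [haa, hT0 _ d2]
        norm_num
      refine hmin C' hC' ?_ ⟨G.al d, haj, hxC', by rw [haa]; exact hTf _ d2, ht2⟩ hne hCW
      by_contra hodd
      rw [Nat.not_even_iff_odd] at hodd
      exact ht2 (h.no_leg_odd hC' hodd haj hxC' (by rw [haa]; exact hTf _ d2))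
    · left
      by_contra hnU
      refine hz (hU.out d (mem_bd.2 ⟨d1, hTW d2, hdW⟩) (fun h1 => ?_) hnU)
      exact hTf _ d2 (hC.adm.sub (hT.sub2 h1).2)
  obtain ⟨B, hB⟩ : ∃ B, B = (G.bd T).filter fun d => z d ≠ 0 := ⟨_, rfl⟩
  obtain ⟨L, hLd⟩ : ∃ L, L = B.filter fun d => G.pi (G.al d) ∈ C := ⟨_, rfl⟩
  obtain ⟨R, hRd⟩ : ∃ R, R = B.filter fun d => ¬ G.pi (G.al d) ∈ C := ⟨_, rfl⟩
  have hmB : ∀ d, d ∈ B ↔ d ∈ G.bd T ∧ z d ≠ 0 := fun d => by rw [hB, mem_filter]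
  have hmL : ∀ d, d ∈ L ↔ (d ∈ G.bd T ∧ z d ≠ 0) ∧ G.pi (G.al d) ∈ C := fun d => by
    rw [hLd, mem_filter, hmB]
  have hmR : ∀ d, d ∈ R ↔ (d ∈ G.bd T ∧ z d ≠ 0) ∧ G.pi (G.al d) ∉ C := fun d => by
    rw [hRd, mem_filter, hmB]
  have hRU : R ⊆ U := fun d hd => by
    obtain ⟨⟨h1, h2⟩, h3⟩ := (hmR d).1 hd
    rcases hout d h1 h2 with h4 | h4
    · exact h4
    · exact absurd h4.1 h3
  have hR1 : R.card ≤ 1 := by
    rw [← c1]
    exact card_le_card hRU
  have hLz : ∀ d ∈ L, z d = 1 := by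
    intro d hd
    obtain ⟨⟨h1, h2⟩, h3⟩ := (hmL d).1 hd
    have hds := (mem_bd.1 h1).1
    rw [← hw.sym d hds]
    exact hF.unit _ (G.al_mem d hds) (hC.adm.sub h3)
  have hRz : ∀ d ∈ R, z d = 1 := fun d hd => hU.Uz d (hRU hd)
  have hBz : ∀ d ∈ B, z d = 1 := by
    intro d hd
    by_cases h1 : G.pi (G.al d) ∈ C
    · exact hLz d ((hmL d).2 ⟨(hmB d).1 hd, h1⟩)
    · exact hRz d ((hmR d).2 ⟨(hmB d).1 hd, h1⟩)
  -- the matching
  obtain ⟨M, hM, hMp, hMe⟩ := h.mc.free_abs hC.adm hC.ne hC.hmin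
    (Or.inl ⟨disjoint_empty_right _, disjoint_empty_right _⟩)
  have hLM : ∀ d ∈ L, d ∈ M := by
    intro d hd
    obtain ⟨⟨h1, h2⟩, h3⟩ := (hmL d).1 hd
    obtain ⟨d1, d2, d3⟩ := mem_bd.1 h1
    have h4 : G.al d ∈ M := hMe _ (mem_ed.2 ⟨G.al_mem d d1, h3, by
      rw [G.al_al d d1]; exact mem_sdiff.2 ⟨hTv d2, hTf _ d2⟩⟩)
    have h5 := hM.closed _ h4
    rwa [G.al_al d d1] at h5
  -- signs
  obtain ⟨c, hc⟩ := h.exists_col
  obtain ⟨σ, hσ⟩ : ∃ σ : V → ℝ, σ = fun v => if c v = true then (1 : ℝ) else -1 := ⟨_, rfl⟩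
  have hflip : ∀ d ∈ G.ed T T, z d ≠ 0 → σ (G.pi (G.al d)) = - σ (G.pi d) := by
    intro d hd hz
    obtain ⟨d1, d2, d3⟩ := mem_ed.1 hd
    have h1 := hc d (mem_sd.2 ⟨d1, hz, hTf _ d2, hTf _ d3⟩)
    rw [hσ]
    show (if c (G.pi (G.al d)) = true then (1 : ℝ) else -1) = -(if c (G.pi d) = true then 1 else -1)
    cases h2 : c (G.pi (G.al d)) <;> cases h3 : c (G.pi d)
    · exact absurd (h2.trans h3.symm) h1
    · norm_num
    · norm_num
    · exact absurd (h2.trans h3.symm) h1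
  have hMz : ∀ d ∈ M, z d ≠ 0 := fun d hd => (hMp d hd).ne'
  have e1 := hw.signed hTv hT0 hflip
  have e2 := hM.signed hTv (σ := σ) fun d hd hdM => hflip d hd (hMz d hdM)
  have e3 : ∑ d ∈ G.bd T, σ (G.pi d) * z d = ∑ d ∈ L, σ (G.pi d) + ∑ d ∈ R, σ (G.pi d) := by
    rw [hLd, hRd, sum_filter_add_sum_filter_not, hB, sum_filter]
    refine sum_congr rfl fun d hd => ?_
    by_cases hz : z d = 0
    · rw [if_neg (not_not.2 hz), hz, mul_zero]
    · rw [if_pos hz, hBz d ((hmB d).2 ⟨hd, hz⟩), mul_one]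
  have e4 : ∑ d ∈ (G.bd T).filter (fun d => d ∈ M), σ (G.pi d) =
      ∑ d ∈ L, σ (G.pi d) + ∑ d ∈ R.filter (fun d => d ∈ M), σ (G.pi d) := by
    have h1 : (G.bd T).filter (fun d => d ∈ M) = L ∪ R.filter (fun d => d ∈ M) := by
      ext d
      rw [mem_filter, mem_union, mem_filter, hmL, hmR]
      constructor
      · rintro ⟨h1, h2⟩
        by_cases h3 : G.pi (G.al d) ∈ C
        · exact Or.inl ⟨⟨h1, hMz d h2⟩, h3⟩
        · exact Or.inr ⟨⟨⟨h1, hMz d h2⟩, h3⟩, h2⟩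
      · rintro (h1 | h1)
        · exact ⟨h1.1.1, hLM d ((hmL d).2 h1)⟩
        · exact ⟨h1.1.1.1, h1.2⟩
    rw [h1, sum_union]
    rw [disjoint_left]
    intro d h2 h3
    exact ((hmR d).1 (mem_filter.1 h3).1).2 ((hmL d).1 h2).2
  rw [e3] at e1
  rw [e4] at e2
  have e5 : 2 * ∑ v ∈ T, σ v = ∑ d ∈ R, σ (G.pi d) - ∑ d ∈ R.filter (fun d => d ∈ M), σ (G.pi d) := by
    linarith
  have e6 : ∑ d ∈ R, σ (G.pi d) - ∑ d ∈ R.filter (fun d => d ∈ M), σ (G.pi d) =
      ∑ d ∈ R.filter (fun d => ¬ d ∈ M), σ (G.pi d) := by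
    rw [← sum_filter_add_sum_filter_not R (fun d => d ∈ M)]
    ring
  rw [e6] at e5
  have hbal : ∑ v ∈ T, σ v = 0 := by
    obtain ⟨k, hk⟩ := sign_int (T := T) (c := c)
    have hk' : ∑ v ∈ T, σ v = k := by rw [← hk, hσ]
    have h3 : (R.filter fun d => ¬ d ∈ M).card ≤ 1 := (card_filter_le _ _).trans hR1
    rcases Nat.le_one_iff_eq_zero_or_eq_one.1 h3 with h4 | h4
    · rw [card_eq_zero.1 h4, sum_empty] at e5
      linarith
    · exfalso
      obtain ⟨r, hr⟩ := card_eq_one.1 h4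
      rw [hr, sum_singleton, hk', hσ] at e5
      simp only at e5
      split_ifs at e5
      · have h5 : (2 * k : ℤ) = 1 := by exact_mod_cast e5
        omega
      · have h5 : (2 * k : ℤ) = -1 := by exact_mod_cast e5
        omega
  have hTe : Even T.card := even_of_balanced (c := c) (by rw [← hbal, hσ])
  -- the value
  have hval : G.val z t T = B.card := by
    unfold MG.val
    rw [sum_eq_zero hT0, add_zero]
    have h1 : ∑ d ∈ G.bd T, z d = ∑ d ∈ B, (1 : ℝ) := by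
      rw [hB, sum_filter]
      refine sum_congr rfl fun d hd => ?_
      by_cases hz : z d = 0
      · rw [if_neg (not_not.2 hz), hz]
      · rw [if_pos hz, hBz d ((hmB d).2 ⟨hd, hz⟩)]
    rw [h1, sum_const, nsmul_eq_mul, mul_one]
  -- at most two legs
  have hL2 : L.card ≤ 2 := by
    obtain ⟨cC, hcC⟩ := hC.exists_col hF hCe
    have hpair : ∀ d ∈ L, ∀ d' ∈ L, d ≠ d' →
        (c (G.pi d) = c (G.pi d') ↔ cC (G.pi (G.al d)) ≠ cC (G.pi (G.al d'))) := by
      intro d hd d' hd' hne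
      obtain ⟨⟨h1, h2⟩, h3⟩ := (hmL d).1 hd
      obtain ⟨⟨h1', h2'⟩, h3'⟩ := (hmL d').1 hd'
      obtain ⟨d1, d2, d3⟩ := mem_bd.1 h1
      obtain ⟨d1', d2', d3'⟩ := mem_bd.1 h1'
      have haa := G.al_al d d1
      have haa' := G.al_al d' d1'
      obtain ⟨-, l, hl⟩ := (hmT _).1 d2
      obtain ⟨-, l', hl'⟩ := (hmT _).1 d2'
      have hS : G.Sy (G.sd z (G.vs \ (W \ fr))) := hw.sy_sd _
      have hsub : G.sd z (G.vs \ (W \ fr)) ⊆ G.sd z fr := by
        intro e he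
        obtain ⟨a1, a2, a3, a4⟩ := mem_sd.1 he
        refine mem_sd.2 ⟨a1, a2, fun h4 => a3 ?_, fun h4 => a4 ?_⟩
        · exact mem_sdiff.2 ⟨G.pi_mem e a1, fun h5 => (mem_sdiff.1 h5).2 h4⟩
        · exact mem_sdiff.2 ⟨G.pi_mem _ (G.al_mem e a1), fun h5 => (mem_sdiff.1 h5).2 h4⟩
      have hwalk : G.IsW (G.sd z fr) (G.pi d) (l.reverse.map G.al ++ l') (G.pi d') :=
        ((hl.rev hS).append hl').mono hsub
      have h4 := hwalk.col hc
      have hne' : G.al d ≠ G.al d' := by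
        intro h5
        apply hne
        rw [← haa, h5, haa']
      have h5 := h.leg_par hC hcC (j := G.al d) (j' := G.al d') (G.al_mem d d1)
        (G.al_mem d' d1') hne' h3 h3' (by rw [haa]; exact hTf _ d2)
        (by rw [haa']; exact hTf _ d2') (by rw [haa, hT0 _ d2]; norm_num)
        (l := l.reverse.map G.al ++ l') (by rw [haa, haa']; exact hwalk)
      rw [← h4, h5]
    by_contra h3
    push Not at h3
    obtain ⟨x, hx, y, hy, w, hw', hxy, hxw, hyw⟩ := two_lt_card.1 h3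
    have p1 := hpair x hx y hy hxy
    have p2 := hpair x hx w hw' hxw
    have p3 := hpair y hy w hw' hyw
    revert p1 p2 p3
    cases c (G.pi x) <;> cases c (G.pi y) <;> cases c (G.pi w) <;>
      cases cC (G.pi (G.al x)) <;> cases cC (G.pi (G.al y)) <;> cases cC (G.pi (G.al w)) <;>
      decide
  have hBc : B.card = L.card + R.card := by
    rw [hLd, hRd]
    exact (card_filter_add_card_filter_not _).symm
  obtain ⟨k, hk⟩ := h.val_even hTv hTe
  have hTne : T ≠ G.vs := by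
    intro h1
    obtain ⟨x, hx⟩ := hC.ne
    have h2 : x ∈ T := by rw [h1]; exact hF.fsub (hC.adm.sub hx)
    exact hTf x h2 (hC.adm.sub hx)
  have hge := h.val_ge2 hTv hTe ⟨w0, hw0T⟩ hTne
  rw [hval] at hk hge
  have hk' : B.card = 2 * k := by exact_mod_cast hk
  have hge' : 2 ≤ B.card := by exact_mod_cast hge
  have hB2 : B.card = 2 := by omega
  obtain ⟨a, b, hab, hBab⟩ := card_eq_two.1 hB2
  have ha : a ∈ B := by rw [hBab]; exact mem_insert_self _ _
  have hb : b ∈ B := by rw [hBab]; exact mem_insert_of_mem (mem_singleton_self _)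
  obtain ⟨a1, a2⟩ := (hmB a).1 ha
  obtain ⟨b1, b2⟩ := (hmB b).1 hb
  obtain ⟨a3, a4, a5⟩ := mem_bd.1 a1
  obtain ⟨b3, b4, b5⟩ := mem_bd.1 b1
  refine h.mc.no_pole (T := T) (a := G.al a) (b := G.al b) (by rw [h.tau]; norm_num) ?_
  refine ⟨hTv, hTe, ?_, hT0, G.al_mem a a3, G.al_mem b b3, a5, b5, by rw [G.al_al a a3]; exact a4,
    by rw [G.al_al b b3]; exact b4, ?_, ?_, ?_, ?_⟩
  · rw [disjoint_left]
    exact hTf
  · intro h1
    apply hab
    rw [← G.al_al a a3, h1, G.al_al b b3]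
  · rw [hw.sym a a3]
    exact hBz a ha
  · rw [hw.sym b b3]
    exact hBz b hb
  · intro d hd h1 h2 h3 h4
    by_contra hz
    have h5 : G.al d ∈ B := (hmB _).2 ⟨mem_bd.2 ⟨G.al_mem d hd, h2, by rw [G.al_al d hd]; exact h1⟩,
      by rw [hw.sym d hd]; exact hz⟩
    rw [hBab, mem_insert, mem_singleton] at h5
    rcases h5 with h5 | h5
    · exact h3 (by rw [← h5, G.al_al d hd])
    · exact h4 (by rw [← h5, G.al_al d hd])

/-- NO LEG from an even circuit to a vertex without two tokens -/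
theorem N4.no_leg_even (h : G.N4 z t fr F ∅ ∅ ep 0) (hA : G.LemA z t fr F)
    (hB : G.TBad z t fr F) (hα : ∀ v ∈ G.vs, t v ≠ 1) (hC : G.Circ fr F C) (hCe : Even C.card) :
    ¬ G.Leg t fr C := by
  have key : ∀ n : ℕ, ∀ (C : Finset V) (P1 P2 : Finset D) (W : Finset V), G.Circ fr F C →
      Even C.card → G.Leg t fr C → G.Two F C P1 P2 → G.BV z t P1 P2 W → W.card = n → False := by
    intro n
    induction n using Nat.strong_induction_on with
    | _ n ih =>
      intro C P1 P2 W hC hCe hL hT hW hn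
      refine h.s4b hA hα hC hCe hL hT hW fun C' hC' hCe' hL' hne hs => ?_
      exact h.s4a hB hA hα (n := n) (fun C P1 P2 W h1 h2 h3 h4 h5 h6 =>
        ih W.card h6 C P1 P2 W h1 h2 h3 h4 h5 rfl) hC hL hT hW hn hC' hCe' hL' hne hs
  intro hL
  obtain ⟨j, hj, hjC, hjf, hjt⟩ := id hL
  obtain ⟨P1, P2, W, hT, hW⟩ := hB C hC hCe j hj hjC hjf hjt
  exact key _ C P1 P2 W hC hCe hL hT hW rfl

end MG

end RH
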