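import Pool.Agent.Lib.RH.N4Int

/-! Token vertices are isolated in `G[Q]` (normal form with 4 tokens). -/

set_option autoImplicit false

namespace RH

open Finset Classical

namespace MG

variable {V D : Type*} {G : MG V D} {z z' : D → ℝ} {t t' : V → ℝ} {fr : Finset V} {F : Finset D}
variable {jm sx : Finset V} {ep : V → ℕ} {m : ℕ} {M : Finset D}

/-- the ends of a nonempty walk in `sd z A` are outside `A` -/
theorem IsW.end_sd {A : Finset V} (hS : G.Sy (G.sd z A)) {u p : V} {l : List D}
    (hl : G.IsW (G.sd z A) u l p) (hne : l ≠ []) : u ∉ A ∧ p ∉ A := by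
  have h1 : ∀ {v w : V} {k : List D}, G.IsW (G.sd z A) v k w → k ≠ [] → v ∉ A := by
    intro v w k hk hk'
    cases k with
    | nil => exact absurd rfl hk'
    | cons e k =>
      rw [← hk.2.1]
      exact (mem_sd.1 hk.1).2.2.1
  refine ⟨h1 hl hne, h1 (hl.rev hS) ?_⟩
  intro h2
  apply hne
  have h3 := congrArg List.length h2
  simp only [List.length_map, List.length_reverse, List.length_nil] at h3
  exact List.length_eq_zero_iff.1 h3

/-- the end of a walk in `sd z A` from a vertex of `G` is a vertex of `G` -/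
theorem IsW.end_vs {A : Finset V} {u p : V} {l : List D} (hu : u ∈ G.vs)
    (hl : G.IsW (G.sd z A) u l p) : p ∈ G.vs :=
  hl.stay (X := G.vs) (fun _ hd _ => G.pi_mem _ (G.al_mem _ (mem_sd.1 hd).1)) hu

/-- vertices at odd distance from a token vertex have no leg (`N4.killQ`) -/
theorem N4.odd_no_leg (h : G.N4 z t fr F jm sx ep m) {u p : V} {l : List D} (hu : 0 < t u)
    (hl : G.IsW (G.sd z fr) u l p) (ho : Odd l.length) {j : D} (hj : j ∈ G.ds)
    (hjp : G.pi j = p) : G.pi (G.al j) ∉ fr := by
  intro hf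
  have hS := h.mc.inst.wt.sy_sd fr
  have hne : l ≠ [] := by
    rintro rfl
    simp at ho
  have hp := (hl.end_sd hS hne).2
  have haj := G.al_mem j hj
  refine h.killQ haj hf (by rw [G.al_al j hj, hjp]; exact hp) (q := u)
    (l := l.reverse.map G.al) ?_ ?_ (Or.inl hu)
  · rw [G.al_al j hj, hjp]
    exact hl.rev hS
  · rw [List.length_map, List.length_reverse]
    exact ho

/-- vertices at odd distance from a token vertex have no token: otherwise no vertex of the component
has a leg, and `MCS.conn` fails -/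
theorem N4.odd_no_tok (h : G.N4 z t fr F jm sx ep m) {u p : V} {l : List D} (hu : 0 < t u)
    (hl : G.IsW (G.sd z fr) u l p) (ho : Odd l.length) : t p = 0 := by
  by_contra htp
  have hi := h.mc.inst
  have hw := hi.wt
  have hS := hw.sy_sd fr
  have hne : l ≠ [] := by
    rintro rfl
    simp at ho
  have huf := (hl.end_sd hS hne).1
  have huv : u ∈ G.vs := by
    cases l with
    | nil => exact absurd rfl hne
    | cons e l =>
      rw [← hl.2.1]
      exact G.pi_mem _ (mem_sd.1 hl.1).1
  have hpv := hl.end_vs huv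
  have htp' : 0 < t p := lt_of_le_of_ne (hw.t0 p hpv) (Ne.symm htp)
  set X := G.vs.filter fun v => ∃ k, G.IsW (G.sd z fr) u k v with hX
  have huX : u ∈ X := mem_filter.2 ⟨huv, [], rfl⟩
  have hXf : ∀ v ∈ X, v ∉ fr := by
    intro v hv
    obtain ⟨h1, k, hk⟩ := mem_filter.1 hv
    by_cases hk' : k = []
    · subst hk'
      have h2 : u = v := hk
      rw [← h2]
      exact huf
    · exact (hk.end_sd hS hk').2
  have hXne : X ≠ G.vs := by
    intro h1
    obtain ⟨x, hx⟩ := h.mc.fr_ne
    exact hXf x (by rw [h1]; exact hi.fresh.fsub hx) hx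
  obtain ⟨d, hd, hz⟩ := h.mc.conn (filter_subset _ _) ⟨u, huX⟩ hXne
  obtain ⟨hd1, hd2, hd3⟩ := mem_bd.1 hd
  obtain ⟨-, k, hk⟩ := mem_filter.1 hd2
  by_cases hf : G.pi (G.al d) ∈ fr
  · by_cases hko : Odd k.length
    · exact h.odd_no_leg hu hk hko hd1 rfl hf
    · have h1 : G.IsW (G.sd z fr) p (l.reverse.map G.al ++ k) (G.pi d) := (hl.rev hS).append hk
      refine h.odd_no_leg htp' h1 ?_ hd1 rfl hf
      rw [List.length_append, List.length_map, List.length_reverse]
      exact ho.add_even (Nat.not_odd_iff_even.1 hko)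
  · refine hd3 (mem_filter.2 ⟨G.pi_mem _ (G.al_mem _ hd1), k ++ [d], ?_⟩)
    exact hk.snoc (mem_sd.2 ⟨hd1, hz, hXf _ hd2, hf⟩) rfl

/-- MOVE a whole token along an even walk whose last dart `e` has weight `-1` in `wa`: the dart has
`1 < z e` (follow the direction with `MCS.push`, no zero edge may appear) -/
theorem N4.move (h : G.N4 z t fr F jm sx ep m) {u q : V} {l : List D} (hu : 1 ≤ t u)
    (hq : t q ≤ 1) (hne : u ≠ q) (hl : G.IsW (G.sd z fr) u l q) (he : Even l.length) {e : D}
    (hee : e ∈ G.ds) (ha : G.wa l e = -1) : 2 ≤ z e := by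
  have hi := h.mc.inst
  have hw := hi.wt
  have hS := hw.sy_sd fr
  have hne' : l ≠ [] := by
    rintro rfl
    exact hne hl
  have huv : u ∈ G.vs := by
    cases l with
    | nil => exact absurd rfl hne'
    | cons e l =>
      rw [← hl.2.1]
      exact G.pi_mem _ (mem_sd.1 hl.1).1
  have hqv := hl.end_vs huv
  have hdir : G.Dir z fr (G.wa l) (wb l u q) := Dir.walk hw (Subset.refl _) hS hl
  have hb : ∀ v, wb l u q v = (if v = q then 1 else 0) - (if v = u then 1 else 0) := by
    intro v
    unfold wb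
    rw [he.neg_one_pow, one_mul]
  have hsum : ∑ v ∈ G.vs, (t v + 1 * wb l u q v) = 4 := by
    rw [sum_add_distrib, ← mul_sum, sum_wb huv hqv, he.neg_one_pow, h.tau]
    norm_num
  have hal := h.mc.push h.rigid hdir (s := 1) zero_le_one (fun v hv => ?_) (fun v hv => ?_) ?_
  · obtain ⟨h1, h2⟩ := h.mc.alt hal
    have h3 := hal.wt.z0 e hee
    simp only [ha] at h3
    obtain ⟨k, hk⟩ := h.zint hee
    have h4 : z e ≠ 1 := by
      intro h5
      have h6 := h2 e hee (by simp only [ha, h5]; norm_num)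
      rw [h5] at h6
      exact one_ne_zero h6
    have h5 : (1 : ℝ) ≤ k := by rw [← hk]; linarith
    have h6 : (1 : ℕ) ≤ k := by exact_mod_cast h5
    have h7 : k ≠ 1 := by
      rintro rfl
      exact h4 (by rw [hk]; norm_num)
    have h8 : 2 ≤ k := by omega
    rw [hk]
    exact_mod_cast h8
  · rw [hb]
    have h1 := hw.t0 v hv
    by_cases hvu : v = u
    · subst hvu
      rw [if_neg hne, if_pos rfl]
      linarith
    · rw [if_neg hvu]
      split_ifs <;> linarith
  · rw [hsum, hb]
    have h1 := h.t_le hv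
    by_cases hvq : v = q
    · subst hvq
      rw [if_pos rfl, if_neg (Ne.symm hne)]
      linarith
    · rw [if_neg hvq]
      split_ifs <;> linarith
  · rw [hsum]
    norm_num

/-- number of legs at a token vertex -/
theorem N4.tok_legs' (h : G.N4 z t fr F jm sx ep m) {u : V} (hu : u ∈ G.vs)
    (hiso : ∀ d ∈ G.ds, G.pi d = u → z d ≠ 0 → G.pi (G.al d) ∈ fr) :
    (((G.st u).filter fun d => z d ≠ 0).card : ℝ) = 3 - t u := by
  have hw := h.mc.inst.wt
  have h1 := hw.deg u hu
  have h2 : ∑ d ∈ G.st u, z d = ∑ d ∈ (G.st u).filter fun d => z d ≠ 0, (1 : ℝ) := by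
    rw [sum_filter]
    refine sum_congr rfl fun d hd => ?_
    obtain ⟨h3, h4⟩ := mem_st.1 hd
    by_cases hz : z d = 0
    · rw [if_neg (not_not.2 hz), hz]
    · rw [if_pos hz, ← hw.sym d h3]
      exact h.mc.inst.fresh.unit _ (G.al_mem d h3) (hiso d h3 h4 hz)
  rw [h2, sum_const, nsmul_eq_mul, mul_one] at h1
  linarith

/-- at least two fresh vertices -/
theorem MCS.two_fr (h : G.MCS z t fr F jm sx ep m) : 2 ≤ fr.card := by
  obtain ⟨x, hx⟩ := h.fr_ne
  have hF := h.inst.fresh
  have h1 : (F.filter fun d => G.pi d = x).Nonempty := by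
    rw [← card_pos, hF.two x hx]
    norm_num
  obtain ⟨d, hd⟩ := h1
  obtain ⟨h2, h3⟩ := mem_filter.1 hd
  have h4 := hF.Ffr _ (hF.Fal d h2)
  have h5 : G.pi (G.al d) ≠ x := fun h6 => G.noloop d (hF.Fsub h2) (h6.trans h3.symm)
  have h6 : ({x, G.pi (G.al d)} : Finset V) ⊆ fr := by
    intro v hv
    rcases mem_insert.1 hv with rfl | hv
    · exact hx
    · rw [mem_singleton.1 hv]
      exact h4
  have h7 := card_le_card h6
  rwa [card_pair h5.symm] at h7

/-- positive weights are at least 1 -/
theorem N4.z_ge (h : G.N4 z t fr F jm sx ep m) {d : D} (hd : d ∈ G.ds) (hz : z d ≠ 0) :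
    1 ≤ z d := by
  obtain ⟨k, hk⟩ := h.zint hd
  rw [hk] at hz ⊢
  have h1 : k ≠ 0 := by
    rintro rfl
    exact hz (by norm_num)
  have h2 : 1 ≤ k := by omega
  exact_mod_cast h2

/-- the key step: two children of one vertex carry two tokens each -/
theorem N4.two_child (h : G.N4 z t fr F jm sx ep m) {u p a a' : V} {l : List D} {e e' : D}
    (ht : 0 < t u) (hp : p ∈ G.vs) (ho : Odd l.length)
    (hl : G.IsW (G.sd z fr) u l p) (he : e ∈ G.sd z fr) (he' : e' ∈ G.sd z fr)
    (hep : G.pi e = p) (hep' : G.pi e' = p) (hea : G.pi (G.al e) = a)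
    (hea' : G.pi (G.al e') = a') (hne : a ≠ a') (hua : u ≠ a)
    (hmin : ∀ l', G.IsW (G.sd z fr) u l' a → (l ++ [e]).length ≤ l'.length)
    (hmin' : ∀ l', G.IsW (G.sd z fr) u l' a' → (l ++ [e']).length ≤ l'.length) : t a = 2 := by
  have hi := h.mc.inst
  have hw := hi.wt
  have hS := hw.sy_sd fr
  have hla : G.IsW (G.sd z fr) u (l ++ [e]) a := by
    rw [← hep] at hl
    exact hl.snoc he hea
  have hav : a ∈ G.vs := by
    rw [← hea]
    exact G.pi_mem _ (G.al_mem _ (mem_sd.1 he).1)
  -- the parent dart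
  rcases List.eq_nil_or_concat' l with rfl | ⟨k, d0, rfl⟩
  · simp at ho
  obtain ⟨q, hk, hd0⟩ := hl.split
  obtain ⟨hd1, hd2, hd3⟩ := hd0
  have hd3' : G.pi (G.al d0) = p := hd3
  have hds0 := (mem_sd.1 hd1).1
  have hkq : G.IsW (G.sd z fr) u k (G.pi d0) := by
    rw [hd2]
    exact hk
  have hn1 : G.al d0 ≠ e := by
    intro h1
    have h2 : a = G.pi d0 := by rw [← hea, ← h1, G.al_al _ hds0]
    have h3 := hmin k (by rw [h2]; exact hkq)
    simp only [List.length_append, List.length_singleton] at h3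
    omega
  have hn2 : G.al d0 ≠ e' := by
    intro h1
    have h2 : a' = G.pi d0 := by rw [← hea', ← h1, G.al_al _ hds0]
    have h3 := hmin' k (by rw [h2]; exact hkq)
    simp only [List.length_append, List.length_singleton] at h3
    omega
  have hn3 : e ≠ e' := by
    rintro rfl
    exact hne (hea.symm.trans hea')
  have htp : t p = 0 := h.odd_no_tok ht hl ho
  have hz1 := h.z_ge (mem_sd.1 (hS.al _ hd1)).1 (mem_sd.1 (hS.al _ hd1)).2.1
  have hz2 := h.z_ge (mem_sd.1 he).1 (mem_sd.1 he).2.1
  have hz3 := h.z_ge (mem_sd.1 he').1 (mem_sd.1 he').2.1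
  have hdeg := hw.deg p hp
  rw [htp, add_zero] at hdeg
  have hsub : ({G.al d0, e, e'} : Finset D) ⊆ G.st p := by
    intro d hd
    rcases mem_insert.1 hd with rfl | hd
    · exact mem_st.2 ⟨G.al_mem _ hds0, hd3'⟩
    · rcases mem_insert.1 hd with rfl | hd
      · exact mem_st.2 ⟨(mem_sd.1 he).1, hep⟩
      · rw [mem_singleton.1 hd]
        exact mem_st.2 ⟨(mem_sd.1 he').1, hep'⟩
  have hle := sum_le_sum_of_subset_of_nonneg hsub
    (f := z) fun d hd _ => hw.z0 d (mem_st.1 hd).1
  rw [hdeg, sum_insert (by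
    rw [mem_insert, mem_singleton]
    rintro (h1 | h1)
    · exact hn1 h1
    · exact hn2 h1), sum_insert (by rw [mem_singleton]; exact hn3), sum_singleton] at hle
  have hu1 : 1 ≤ t u := by
    have huv : u ∈ G.vs := by
      have h1 := (hla.rev hS).end_vs hav
      exact h1
    rcases h.tok huv with h1 | h1 | h1
    · rw [h1] at ht
      exact absurd ht (lt_irrefl _)
    · exact h1.ge
    · rw [h1]; norm_num
  rcases h.tok hav with h1 | h1 | h1
  · exfalso
    have h2 := h.move hu1 (by rw [h1]; norm_num) hua hla (by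
      rw [List.length_append, List.length_singleton]
      exact ho.add_one) (mem_sd.1 he).1 (by
        rw [short_last hS hla hmin, ho.neg_one_pow])
    linarith
  · exfalso
    have h2 := h.move hu1 h1.le hua hla (by
      rw [List.length_append, List.length_singleton]
      exact ho.add_one) (mem_sd.1 he).1 (by
        rw [short_last hS hla hmin, ho.neg_one_pow])
    linarith
  · exact h1

/-- a token vertex with the most tokens in its component is isolated outside `fr` -/
theorem N4.tok_isoM (h : G.N4 z t fr F jm sx ep m) {u : V} (huv : u ∈ G.vs) (huf : u ∉ fr)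
    (ht : 0 < t u)
    (hmax : ∀ v ∈ G.vs, (∃ l, G.IsW (G.sd z fr) u l v) → t v ≤ t u) :
    ∀ d ∈ G.sd z fr, G.pi d ≠ u := by
  intro d0 hd0 hd0u
  have hi := h.mc.inst
  have hw := hi.wt
  have hS := hw.sy_sd fr
  set A := G.vs.filter fun v => ∃ l, G.IsW (G.sd z fr) u l v ∧ Even l.length with hA
  set B := G.vs.filter fun v => ∃ l, G.IsW (G.sd z fr) u l v ∧ Odd l.length with hB
  have hpar : ∀ {v : V} {l l' : List D}, G.IsW (G.sd z fr) u l v → G.IsW (G.sd z fr) u l' v →
      Even l.length → Odd l'.length → False := by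
    intro v l l' hl hl' h1 h2
    have h3 := h.no_odd (hl.append (hl'.rev hS))
    rw [List.length_append, List.length_map, List.length_reverse] at h3
    exact (Nat.not_even_iff_odd.2 (h1.add_odd h2)) h3
  have hdis : Disjoint A B := by
    rw [disjoint_left]
    intro v hv hv'
    obtain ⟨-, l, hl, h1⟩ := mem_filter.1 hv
    obtain ⟨-, l', hl', h2⟩ := mem_filter.1 hv'
    exact hpar hl hl' h1 h2
  have huA : u ∈ A := mem_filter.2 ⟨huv, [], rfl, by simp⟩
  -- the parent
  have hex : ∀ a ∈ A.erase u, ∃ p ∈ B, ∃ l e, Odd l.length ∧ G.IsW (G.sd z fr) u l p ∧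
      e ∈ G.sd z fr ∧ G.pi e = p ∧ G.pi (G.al e) = a ∧
      ∀ l', G.IsW (G.sd z fr) u l' a → (l ++ [e]).length ≤ l'.length := by
    intro a ha
    obtain ⟨hau, haA⟩ := mem_erase.1 ha
    obtain ⟨hav, l1, hl1, he1⟩ := mem_filter.1 haA
    obtain ⟨l, hl, hmin⟩ := exists_short ⟨l1, hl1⟩
    rcases List.eq_nil_or_concat' l with rfl | ⟨k, e, rfl⟩
    · exact absurd (Eq.symm hl : a = u) hau
    · obtain ⟨p, hk, hk2⟩ := hl.split
      obtain ⟨hk3, hk4, hk5⟩ := hk2
      have hev : Even (k ++ [e]).length := by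
        by_contra hcon
        exact hpar hl1 hl he1 (Nat.not_even_iff_odd.1 hcon)
      have hko : Odd k.length := by
        rw [List.length_append, List.length_singleton, Nat.even_add_one] at hev
        exact Nat.not_even_iff_odd.1 hev
      refine ⟨p, mem_filter.2 ⟨?_, k, hk, hko⟩, k, e, hko, hk, hk3, hk4, hk5, hmin⟩
      rw [← hk4]
      exact G.pi_mem _ (mem_sd.1 hk3).1
  choose! f hfB hf using hex
  have hinj : ∀ a ∈ A.erase u, ∀ a' ∈ A.erase u, f a = f a' → a = a' := by
    intro a ha a' ha' hff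
    by_contra hne
    obtain ⟨l, e, h1, h2, h3, h4, h5, h6⟩ := hf a ha
    obtain ⟨l', e', h1', h2', h3', h4', h5', h6'⟩ := hf a' ha'
    rw [← hff] at h2' h4'
    have hlen : l.length = l'.length := by
      have g1 := h6 (l' ++ [e]) (by
        rw [← h4] at h2'
        exact h2'.snoc h3 h5)
      have g2 := h6' (l ++ [e']) (by
        rw [← h4'] at h2
        exact h2.snoc h3' h5')
      simp only [List.length_append, List.length_singleton] at g1 g2
      omega
    have hm1 : ∀ k, G.IsW (G.sd z fr) u k a' → (l ++ [e']).length ≤ k.length := by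
      intro k hk
      have g := h6' k hk
      simp only [List.length_append, List.length_singleton] at g ⊢
      omega
    have hau : u ≠ a := (mem_erase.1 ha).1.symm
    have hau' : u ≠ a' := (mem_erase.1 ha').1.symm
    have hpv : f a ∈ G.vs := (mem_filter.1 (hfB a ha)).1
    have e1 := h.two_child ht hpv h1 h2 h3 h3' h4 h4' h5 h5' hne hau h6 hm1
    have e2 := h.two_child ht hpv h1 h2 h3' h3 h4' h4 h5' h5 (Ne.symm hne) hau' hm1 h6
    have hav : a ∈ G.vs := (mem_filter.1 (mem_erase.1 ha).2).1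
    have hav' : a' ∈ G.vs := (mem_filter.1 (mem_erase.1 ha').2).1
    obtain ⟨-, k, hk, -⟩ := mem_filter.1 (mem_erase.1 ha).2
    have e3 := hmax a hav ⟨k, hk⟩
    have hsub : ({u, a, a'} : Finset V) ⊆ G.vs := by
      intro v hv
      rcases mem_insert.1 hv with rfl | hv
      · exact huv
      · rcases mem_insert.1 hv with rfl | hv
        · exact hav
        · rw [mem_singleton.1 hv]
          exact hav'
    have hle := sum_le_sum_of_subset_of_nonneg hsub (f := t) fun v hv _ => hw.t0 v hv
    rw [h.tau, sum_insert (by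
      rw [mem_insert, mem_singleton]
      rintro (g | g)
      · exact hau g
      · exact hau' g), sum_insert (by rw [mem_singleton]; exact hne), sum_singleton] at hle
    linarith
  have hcard : (A.erase u).card ≤ B.card :=
    card_le_card_of_injOn f (fun a ha => mem_coe.2 (hfB a (mem_coe.1 ha)))
      fun a ha a' ha' hff => hinj a (mem_coe.1 ha) a' (mem_coe.1 ha') hff
  rw [card_erase_of_mem huA] at hcard
  -- the value of the component
  have hBt : ∀ v ∈ B, t v = 0 := by
    intro v hv
    obtain ⟨-, l, hl, ho⟩ := mem_filter.1 hv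
    exact h.odd_no_tok ht hl ho
  have hBA : ∀ d ∈ G.ds, G.pi d ∈ B → z d ≠ 0 → G.pi (G.al d) ∈ A := by
    intro d hd hdB hz
    obtain ⟨hv, l, hl, ho⟩ := mem_filter.1 hdB
    have h1 := h.odd_no_leg ht hl ho hd rfl
    have hl0 : l ≠ [] := by
      rintro rfl
      simp at ho
    refine mem_filter.2 ⟨G.pi_mem _ (G.al_mem _ hd), l ++ [d], ?_, ?_⟩
    · exact hl.snoc (mem_sd.2 ⟨hd, hz, (hl.end_sd hS hl0).2, h1⟩) rfl
    · rw [List.length_append, List.length_singleton]
      exact ho.add_one
  set T := A ∪ B with hT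
  have hTv : T ⊆ G.vs := union_subset (filter_subset _ _) (filter_subset _ _)
  have hsBA : ∑ d ∈ G.ed B A, z d = 3 * B.card := by
    have h1 : ∑ v ∈ B, (∑ d ∈ G.st v, z d) = 3 * (B.card : ℝ) := by
      rw [sum_congr rfl fun v hv => (show ∑ d ∈ G.st v, z d = 3 by
        have h2 := hw.deg v (mem_filter.1 hv).1
        rw [hBt v hv, add_zero] at h2
        exact h2), sum_const, nsmul_eq_mul, mul_comm]
    rw [← h1]
    have h2 := sum_pi_mem G G.ds z B
    have h3 : ∑ v ∈ B, (∑ d ∈ G.st v, z d) = ∑ d ∈ G.ds.filter (fun d => G.pi d ∈ B), z d := h2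
    rw [h3]
    refine sum_subset ?_ ?_
    · intro d hd
      obtain ⟨g1, g2, g3⟩ := mem_ed.1 hd
      exact mem_filter.2 ⟨g1, g2⟩
    · intro d hd hd'
      obtain ⟨g1, g2⟩ := mem_filter.1 hd
      by_contra hz
      exact hd' (mem_ed.2 ⟨g1, g2, hBA d g1 g2 hz⟩)
  have hsT : 6 * (B.card : ℝ) ≤ ∑ d ∈ G.ed T T, z d := by
    have h1 : Disjoint (G.ed B A) (G.ed A B) := by
      rw [disjoint_left]
      intro d g1 g2
      exact disjoint_left.1 hdis (mem_ed.1 g2).2.1 (mem_ed.1 g1).2.1
    have h2 : G.ed B A ∪ G.ed A B ⊆ G.ed T T := by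
      intro d hd
      rcases mem_union.1 hd with g | g
      · obtain ⟨g1, g2, g3⟩ := mem_ed.1 g
        exact mem_ed.2 ⟨g1, mem_union_right _ g2, mem_union_left _ g3⟩
      · obtain ⟨g1, g2, g3⟩ := mem_ed.1 g
        exact mem_ed.2 ⟨g1, mem_union_left _ g2, mem_union_right _ g3⟩
    have h3 := sum_le_sum_of_subset_of_nonneg h2 (f := z)
      fun d hd _ => hw.z0 d (mem_ed.1 hd).1
    rw [sum_union h1, hw.ed_symm A B, hsBA] at h3
    linarith
  have hTc : T.card = A.card + B.card := card_union_of_disjoint hdis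
  have hval := hw.val_eq hTv
  have hvle : G.val z t T ≤ 3 * ((A.card : ℝ) - B.card) := by
    rw [hval, hTc]
    push_cast
    linarith
  have hvt : t u ≤ G.val z t T := by
    have h1 : 0 ≤ ∑ d ∈ G.bd T, z d := sum_nonneg fun d hd => hw.z0 d (mem_bd.1 hd).1
    have h2 : t u ≤ ∑ v ∈ T, t v :=
      single_le_sum (f := t) (fun v hv => hw.t0 v (hTv hv)) (mem_union_left _ huA)
    unfold val
    linarith
  have hA1 : 1 ≤ A.card := card_pos.2 ⟨u, huA⟩
  have hgt : B.card < A.card := by
    by_contra hcon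
    push Not at hcon
    have h1 : (A.card : ℝ) ≤ B.card := by exact_mod_cast hcon
    linarith
  have hAB : A.card = B.card + 1 := by omega
  have hodd : Odd T.card := ⟨B.card, by omega⟩
  have h3 := hw.cut T hTv hodd
  have h3' : G.val z t T = 3 := by
    refine le_antisymm ?_ h3
    rw [hAB] at hvle
    push_cast at hvle
    linarith
  have hB1 : 1 ≤ B.card := by
    refine card_pos.2 ⟨G.pi (G.al d0), mem_filter.2 ⟨?_, [d0], ⟨hd0, hd0u, rfl⟩, by simp⟩⟩
    exact G.pi_mem _ (G.al_mem _ (mem_sd.1 hd0).1)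
  have hTfr : ∀ v ∈ T, v ∉ fr := by
    intro v hv
    rcases mem_union.1 hv with hv | hv
    · obtain ⟨-, l, hl, -⟩ := mem_filter.1 hv
      by_cases hl0 : l = []
      · subst hl0
        have : u = v := hl
        rw [← this]
        exact huf
      · exact (hl.end_sd hS hl0).2
    · obtain ⟨-, l, hl, ho⟩ := mem_filter.1 hv
      have hl0 : l ≠ [] := by
        rintro rfl
        simp at ho
      exact (hl.end_sd hS hl0).2
  have hc2 : 3 ≤ (G.vs \ T).card := by
    have g1 : fr ⊆ G.vs \ T := fun v hv =>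
      mem_sdiff.2 ⟨hi.fresh.fsub hv, fun g => hTfr v g hv⟩
    have g2 := card_le_card g1
    have g3 := h.mc.two_fr
    have g4 := card_sdiff_add_card_eq_card hTv
    obtain ⟨k, hk⟩ := hi.even
    obtain ⟨k', hk'⟩ := hodd
    omega
  exact h.mc.no_tight hTv hodd h3' (by omega) hc2 fun d hd hp =>
    absurd (hi.fresh.Ffr d hd) (hTfr _ hp)

/-- TOKEN VERTICES ARE ISOLATED. Proof (helper11, helper87). Let `T` be the component of `u`, with `t`
maximal at `u` among the token vertices of `T`. Shortest walks from `u`: every vertex of even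
distance, other than `u`, is reached by a shortest walk through its parent at odd distance. `A` =
even distance, `B` = odd distance. Vertices of `B` have no legs and no tokens. The parent map
`A \ {u} → B` is injective (`two_child`), so `|A| ≤ |B| + 1`, the value of `T` is at most
`3 (|A| - |B|)` and it is positive, so `T` is tight without F-edge in the boundary. -/
theorem N4.tok_iso (h : G.N4 z t fr F jm sx ep m) {u : V} (hu : u ∈ G.vs) (huf : u ∉ fr)
    (ht : 0 < t u) : ∀ d ∈ G.ds, G.pi d = u → z d ≠ 0 → G.pi (G.al d) ∈ fr := by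
  intro d hd hdu hz
  by_contra hf
  have hi := h.mc.inst
  have hw := hi.wt
  have hS := hw.sy_sd fr
  have hds : d ∈ G.sd z fr := mem_sd.2 ⟨hd, hz, by rw [hdu]; exact huf, hf⟩
  obtain ⟨v, hv, hvmax⟩ := exists_max_image
    (G.vs.filter fun v => ∃ l, G.IsW (G.sd z fr) u l v) t ⟨u, mem_filter.2 ⟨hu, [], rfl⟩⟩
  obtain ⟨hvv, l, hl⟩ := mem_filter.1 hv
  have htv : 0 < t v := lt_of_lt_of_le ht (hvmax u (mem_filter.2 ⟨hu, [], rfl⟩))
  have hvf : v ∉ fr := by
    by_cases hl0 : l = []
    · subst hl0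
      have : u = v := hl
      rw [← this]
      exact huf
    · exact (hl.end_sd hS hl0).2
  have key := h.tok_isoM hvv hvf htv fun w hwv hex => by
    obtain ⟨k, hk⟩ := hex
    exact hvmax w (mem_filter.2 ⟨hwv, l ++ k, hl.append hk⟩)
  -- a dart at `v`
  have h1 := hl.rev hS
  by_cases hl0 : l = []
  · subst hl0
    have h2 : u = v := hl
    exact key d hds (hdu.trans h2)
  · have h3 : l.reverse.map G.al ≠ [] := by
      intro h4
      apply hl0
      have h5 := congrArg List.length h4
      simp only [List.length_map, List.length_reverse, List.length_nil] at h5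
      exact List.length_eq_zero_iff.1 h5
    revert h1 h3
    generalize l.reverse.map G.al = k
    intro h1 h3
    cases k with
    | nil => exact h3 rfl
    | cons e k => exact key e h1.1 h1.2.1

/-- number of legs at a token vertex -/
theorem N4.tok_legs (h : G.N4 z t fr F jm sx ep m) {u : V} (hu : u ∈ G.vs) (huf : u ∉ fr)
    (ht : 0 < t u) :
    (((G.st u).filter fun d => z d ≠ 0).card : ℝ) = 3 - t u :=
  h.tok_legs' hu (h.tok_iso hu huf ht)

end MG

end RH
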