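import Pool.Agent.Lib.RH.N4Tok

/-! Normal form with 4 tokens, no even set of value 2: weights 0 and 1, simple support, the
token-free components of the support outside `fr` are trees with `|T| + 2` legs. -/

set_option autoImplicit false

namespace RH

open Finset Classical

namespace MG

variable {V D : Type*} {G : MG V D} {z z' : D → ℝ} {t t' : V → ℝ} {fr : Finset V} {F : Finset D}
variable {jm sx : Finset V} {ep : V → ℕ} {m : ℕ} {M : Finset D}

/-- no even set of value 2, except complements of pairs (two vertices with two tokens) -/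
def NoTwo (G : MG V D) (z : D → ℝ) (t : V → ℝ) : Prop :=
  5 ≤ G.vs.card ∧ ∀ Z ⊆ G.vs, Even Z.card → Z.Nonempty → 3 ≤ (G.vs \ Z).card →
    G.val z t Z ≠ 2

theorem N4.val_ge4 (h : G.N4 z t fr F jm sx ep m) (h2 : G.NoTwo z t) {X : Finset V}
    (hX : X ⊆ G.vs) (he : Even X.card) (hne : X.Nonempty) (hc : 3 ≤ (G.vs \ X).card) :
    4 ≤ G.val z t X := by
  have hne' : X ≠ G.vs := by
    rintro rfl
    rw [Finset.sdiff_self, card_empty] at hc
    omega
  obtain ⟨k, hk⟩ := h.val_even hX he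
  have h3 := h.val_ge2 hX he hne hne'
  have h4 := h2.2 X hX he hne hc
  rw [hk] at h3 h4 ⊢
  have h5 : 1 ≤ k := by
    have h8 : (1 : ℝ) ≤ k := by linarith
    exact_mod_cast h8
  have h6 : k ≠ 1 := by
    rintro rfl
    exact h4 (by norm_num)
  have h7 : (2 : ℝ) ≤ k := by
    have : 2 ≤ k := by omega
    exact_mod_cast this
  linarith

theorem N4.vs_card (h : G.N4 z t fr F jm sx ep m) : 3 ≤ G.vs.card := by
  have h1 := h.mc.two_fr
  have h2 := h.mc.fr_ne_vs
  have h3 := card_lt_card (Finset.ssubset_iff_subset_ne.2 ⟨h.mc.inst.fresh.fsub, h2⟩)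
  omega

/-- weight between two vertices -/
theorem N4.pair_sum (h : G.N4 z t fr F jm sx ep m) (h2 : G.NoTwo z t) {a b : V}
    (ha : a ∈ G.vs) (hb : b ∈ G.vs) (hab : a ≠ b) : ∑ d ∈ G.ed {a} {b}, z d ≤ 1 := by
  have hw := h.mc.inst.wt
  have hZ : ({a, b} : Finset V) ⊆ G.vs := by
    intro v hv
    rcases mem_insert.1 hv with rfl | hv
    · exact ha
    · rw [mem_singleton.1 hv]
      exact hb
  have hc : ({a, b} : Finset V).card = 2 := card_pair hab
  have h3 := h.val_ge4 h2 hZ (by rw [hc]; exact even_two) ⟨a, mem_insert_self _ _⟩ (by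
    have h4 := card_sdiff_add_card_eq_card hZ
    have h5 := h2.1
    rw [hc] at h4
    omega)
  rw [hw.val_eq hZ, hc] at h3
  have h4 : ∑ d ∈ G.ed {a} {b}, z d + ∑ d ∈ G.ed {b} {a}, z d ≤ ∑ d ∈ G.ed {a, b} {a, b}, z d := by
    have hd : Disjoint (G.ed {a} {b}) (G.ed {b} {a}) := by
      rw [disjoint_left]
      intro d h5 h6
      have h7 := mem_singleton.1 (mem_ed.1 h5).2.1
      have h8 := mem_singleton.1 (mem_ed.1 h6).2.1
      exact hab (h7.symm.trans h8)
    rw [← sum_union hd]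
    refine sum_le_sum_of_subset_of_nonneg ?_ fun d hd _ => hw.z0 d (mem_ed.1 hd).1
    intro d hd
    rcases mem_union.1 hd with h5 | h5
    · obtain ⟨h6, h7, h8⟩ := mem_ed.1 h5
      rw [mem_singleton] at h7 h8
      exact mem_ed.2 ⟨h6, by rw [h7]; exact mem_insert_self _ _,
        by rw [h8]; exact mem_insert_of_mem (mem_singleton_self _)⟩
    · obtain ⟨h6, h7, h8⟩ := mem_ed.1 h5
      rw [mem_singleton] at h7 h8
      exact mem_ed.2 ⟨h6, by rw [h7]; exact mem_insert_of_mem (mem_singleton_self _),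
        by rw [h8]; exact mem_insert_self _ _⟩
  have h5 := hw.ed_symm {a} {b}
  push_cast at h3
  linarith

/-- all weights are at most 1 -/
theorem N4.z_le (h : G.N4 z t fr F jm sx ep m) (h2 : G.NoTwo z t) {d : D} (hd : d ∈ G.ds) :
    z d ≤ 1 := by
  have hw := h.mc.inst.wt
  have h3 := h.pair_sum h2 (G.pi_mem d hd) (G.pi_mem _ (G.al_mem d hd))
    (fun h4 => G.noloop d hd h4.symm)
  have h4 : d ∈ G.ed {G.pi d} {G.pi (G.al d)} :=
    mem_ed.2 ⟨hd, mem_singleton_self _, mem_singleton_self _⟩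
  exact (single_le_sum (fun e he => hw.z0 e (mem_ed.1 he).1) h4).trans h3

theorem N4.z01 (h : G.N4 z t fr F jm sx ep m) (h2 : G.NoTwo z t) {d : D} (hd : d ∈ G.ds) :
    z d = 0 ∨ z d = 1 := by
  by_cases h0 : z d = 0
  · exact Or.inl h0
  · exact Or.inr (le_antisymm (h.z_le h2 hd) (h.z_ge hd h0))

/-- the support has no parallel edges -/
theorem N4.simple (h : G.N4 z t fr F jm sx ep m) (h2 : G.NoTwo z t) {d e : D} (hd : d ∈ G.ds)
    (he : e ∈ G.ds) (hzd : z d ≠ 0) (hze : z e ≠ 0) (hp : G.pi d = G.pi e)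
    (hp' : G.pi (G.al d) = G.pi (G.al e)) : d = e := by
  by_contra hne
  have hw := h.mc.inst.wt
  have h3 := h.pair_sum h2 (G.pi_mem d hd) (G.pi_mem _ (G.al_mem d hd))
    (fun h4 => G.noloop d hd h4.symm)
  have h4 : ({d, e} : Finset D) ⊆ G.ed {G.pi d} {G.pi (G.al d)} := by
    intro x hx
    rcases mem_insert.1 hx with rfl | hx
    · exact mem_ed.2 ⟨hd, mem_singleton_self _, mem_singleton_self _⟩
    · rw [mem_singleton.1 hx]
      exact mem_ed.2 ⟨he, mem_singleton.2 hp.symm, mem_singleton.2 hp'.symm⟩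
  have h5 := sum_le_sum_of_subset_of_nonneg (f := z) h4
    (fun x hx _ => hw.z0 x (mem_ed.1 hx).1)
  rw [sum_pair hne] at h5
  have h6 := h.z_ge hd hzd
  have h7 := h.z_ge he hze
  linarith

/-- number of support darts at a vertex -/
theorem N4.st_card (h : G.N4 z t fr F jm sx ep m) (h2 : G.NoTwo z t) {v : V} (hv : v ∈ G.vs) :
    (((G.st v).filter fun d => z d ≠ 0).card : ℝ) + t v = 3 := by
  have hw := h.mc.inst.wt
  rw [← hw.deg v hv]
  congr 1
  rw [← sum_filter_add_sum_filter_not (G.st v) (fun d => z d ≠ 0) z]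
  have h3 : ∑ d ∈ (G.st v).filter (fun d => ¬ z d ≠ 0), z d = 0 :=
    sum_eq_zero fun d hd => not_not.1 (mem_filter.1 hd).2
  rw [h3, add_zero]
  have h4 : ∑ d ∈ (G.st v).filter (fun d => z d ≠ 0), z d =
      ∑ d ∈ (G.st v).filter (fun d => z d ≠ 0), (1 : ℝ) := by
    refine sum_congr rfl fun d hd => ?_
    obtain ⟨h5, h6⟩ := mem_filter.1 hd
    exact (h.z01 h2 (mem_st.1 h5).1).resolve_left h6
  rw [h4]
  simp

theorem N4.st_card3 (h : G.N4 z t fr F jm sx ep m) (h2 : G.NoTwo z t) {v : V} (hv : v ∈ G.vs)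
    (ht : t v = 0) : ((G.st v).filter fun d => z d ≠ 0).card = 3 := by
  have h3 := h.st_card h2 hv
  rw [ht, add_zero] at h3
  exact_mod_cast h3

/-- the component of `u` in the support outside `fr` -/
noncomputable def qc (G : MG V D) (z : D → ℝ) (fr : Finset V) (u : V) : Finset V :=
  G.vs.filter fun v => ∃ l, G.IsW (G.sd z fr) u l v

theorem mem_qc {u v : V} : v ∈ G.qc z fr u ↔ v ∈ G.vs ∧ ∃ l, G.IsW (G.sd z fr) u l v := by
  simp [qc]

theorem self_qc {u : V} (hu : u ∈ G.vs) : u ∈ G.qc z fr u := mem_qc.2 ⟨hu, [], rfl⟩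

theorem qc_sub (u : V) : G.qc z fr u ⊆ G.vs := filter_subset _ _

theorem qc_fr (hw : G.Wt z t) {u v : V} (hu : u ∉ fr) (hv : v ∈ G.qc z fr u) : v ∉ fr := by
  obtain ⟨h1, l, hl⟩ := mem_qc.1 hv
  by_cases h2 : l = []
  · subst h2
    have h3 : u = v := hl
    rwa [← h3]
  · have h4 := hl.rev (hw.sy_sd fr)
    have h5 : (l.reverse.map G.al) ≠ [] := by
      intro h6
      rw [List.map_eq_nil_iff, List.reverse_eq_nil_iff] at h6
      exact h2 h6
    revert h4 h5
    generalize l.reverse.map G.al = m'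
    intro h4 h5
    cases m' with
    | nil => exact absurd rfl h5
    | cons d m' =>
      obtain ⟨hd, hdp, -⟩ := h4
      rw [← hdp]
      exact (mem_sd.1 hd).2.2.1

/-- closed under support edges outside `fr` -/
theorem qc_clo {u : V} {d : D} (hd : d ∈ G.sd z fr) (hp : G.pi d ∈ G.qc z fr u) :
    G.pi (G.al d) ∈ G.qc z fr u := by
  obtain ⟨-, l, hl⟩ := mem_qc.1 hp
  exact mem_qc.2 ⟨G.pi_mem _ (G.al_mem d (mem_sd.1 hd).1), l ++ [d], hl.snoc hd rfl⟩

theorem qc_eq (hw : G.Wt z t) {u v : V} (hv : v ∈ G.qc z fr u) : G.qc z fr v = G.qc z fr u := by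
  obtain ⟨-, l, hl⟩ := mem_qc.1 hv
  ext x
  rw [mem_qc, mem_qc]
  constructor
  · rintro ⟨h1, l', hl'⟩
    exact ⟨h1, l ++ l', hl.append hl'⟩
  · rintro ⟨h1, l', hl'⟩
    exact ⟨h1, _, (hl.rev (hw.sy_sd fr)).append hl'⟩

/-- darts of the component -/
noncomputable def qd (G : MG V D) (z : D → ℝ) (fr : Finset V) (u : V) : Finset D :=
  (G.sd z fr).filter fun d => G.pi d ∈ G.qc z fr u

/-- legs of the component (darts at the component) -/
noncomputable def qleg (G : MG V D) (z : D → ℝ) (fr : Finset V) (u : V) : Finset D :=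
  G.ds.filter fun d => G.pi d ∈ G.qc z fr u ∧ G.pi (G.al d) ∈ fr

theorem mem_qd {u : V} {d : D} : d ∈ G.qd z fr u ↔ d ∈ G.sd z fr ∧ G.pi d ∈ G.qc z fr u := by
  simp [qd]

theorem mem_qleg {u : V} {d : D} :
    d ∈ G.qleg z fr u ↔ d ∈ G.ds ∧ G.pi d ∈ G.qc z fr u ∧ G.pi (G.al d) ∈ fr := by
  simp [qleg]

theorem sy_qd (hw : G.Wt z t) (u : V) : G.Sy (G.qd z fr u) := by
  have hS := hw.sy_sd fr
  refine ⟨fun d hd => hS.sub (mem_qd.1 hd).1, fun d hd => ?_⟩
  obtain ⟨h1, h2⟩ := mem_qd.1 hd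
  exact mem_qd.2 ⟨hS.al d h1, qc_clo h1 h2⟩

/-- connected: at least `|T| - 1` edges -/
theorem qd_ge (hw : G.Wt z t) {u : V} (hu : u ∈ G.vs) :
    2 * (G.qc z fr u).card ≤ (G.qd z fr u).card + 2 := by
  set T := G.qc z fr u with hT
  have hS := hw.sy_sd fr
  let H : SimpleGraph T := SimpleGraph.fromRel fun x y => ∃ d ∈ G.sd z fr,
    G.pi d = x.1 ∧ G.pi (G.al d) = y.1
  have hadj : ∀ d ∈ G.sd z fr, ∀ (h1 : G.pi d ∈ T) (h2 : G.pi (G.al d) ∈ T),
      H.Adj ⟨_, h1⟩ ⟨_, h2⟩ := by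
    intro d hd h1 h2
    rw [SimpleGraph.fromRel_adj]
    refine ⟨fun h3 => G.noloop d (hS.sub hd) (congrArg Subtype.val h3).symm, Or.inl ⟨d, hd, rfl, rfl⟩⟩
  have hreach : ∀ (l : List D) (x y : V) (hx : x ∈ T), G.IsW (G.sd z fr) x l y →
      ∃ hy : y ∈ T, H.Reachable ⟨x, hx⟩ ⟨y, hy⟩ := by
    intro l
    induction l with
    | nil =>
      intro x y hx hl
      have h1 : x = y := hl
      subst h1
      exact ⟨hx, SimpleGraph.Reachable.refl _⟩
    | cons d l ih =>
      intro x y hx hl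
      obtain ⟨h1, h2, h3⟩ := hl
      subst h2
      have h4 : G.pi (G.al d) ∈ T := qc_clo h1 hx
      obtain ⟨hy, h5⟩ := ih _ y h4 h3
      exact ⟨hy, (hadj d h1 hx h4).reachable.trans h5⟩
  have huT : u ∈ T := self_qc hu
  have hconn : H.Connected := by
    have : Nonempty T := ⟨⟨u, huT⟩⟩
    refine SimpleGraph.Connected.mk ?_
    intro x y
    obtain ⟨-, l, hl⟩ := mem_qc.1 x.2
    obtain ⟨-, l', hl'⟩ := mem_qc.1 y.2
    obtain ⟨h1, h2⟩ := hreach l u x.1 huT hl
    obtain ⟨h3, h4⟩ := hreach l' u y.1 huT hl'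
    exact h2.symm.trans h4
  have h1 := hconn.card_vert_le_card_edgeSet_add_one
  rw [Nat.card_eq_fintype_card, Nat.card_eq_fintype_card, Fintype.card_coe] at h1
  have h2 := H.dart_card_eq_twice_card_edges
  rw [SimpleGraph.edgeFinset_card] at h2
  have h3 : ∀ e : H.Dart, ∃ d ∈ G.qd z fr u, G.pi d = e.fst.1 ∧ G.pi (G.al d) = e.snd.1 := by
    intro e
    have h4 := e.adj
    rw [SimpleGraph.fromRel_adj] at h4
    rcases h4.2 with ⟨d, h5, h6, h7⟩ | ⟨d, h5, h6, h7⟩
    · exact ⟨d, mem_qd.2 ⟨h5, by rw [h6]; exact e.fst.2⟩, h6, h7⟩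
    · refine ⟨G.al d, mem_qd.2 ⟨hS.al d h5, by rw [h7]; exact e.fst.2⟩, h7, ?_⟩
      rw [G.al_al d (hS.sub h5)]
      exact h6
  choose f hf hf1 hf2 using h3
  have h4 : Fintype.card H.Dart ≤ (G.qd z fr u).card := by
    rw [← Finset.card_univ]
    refine card_le_card_of_injOn f (fun e _ => hf e) ?_
    intro e _ e' _ he
    have h5 : e.fst = e'.fst := Subtype.ext (by rw [← hf1, ← hf1, he])
    have h6 : e.snd = e'.snd := Subtype.ext (by rw [← hf2, ← hf2, he])
    exact SimpleGraph.Dart.ext _ _ (Prod.ext h5 h6)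
  omega

theorem exists_ker2c (G : MG V D) {S : Finset D} (hS : G.Sy S) {c : V → Bool}
    (hc : ∀ d ∈ S, c (G.pi (G.al d)) ≠ c (G.pi d)) (hne : S.Nonempty) {N : Finset V}
    (hN : ∀ d ∈ S, G.pi d ∈ N) (e4 : 2 * N.card ≤ S.card) :
    ∃ a : D → ℝ, (∀ d ∉ S, a d = 0) ∧ (∃ d ∈ S, a d ≠ 0) ∧ (∀ d ∈ G.ds, a (G.al d) = a d) ∧
      ∀ v ∈ N, ∑ d ∈ G.st v, a d = 0 := by
  set S0 : Finset D := S.filter fun d => c (G.pi d) = true with hS0
  -- counting
  have e1 : S.card = 2 * S0.card := by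
    have e2 : (S.filter fun d => ¬ c (G.pi d) = true).card = S0.card := by
      refine card_bij' (fun d _ => G.al d) (fun d _ => G.al d) ?_ ?_ ?_ ?_
      · intro d hd
        rw [mem_filter] at hd
        refine mem_filter.2 ⟨hS.al d hd.1, ?_⟩
        have := hc d hd.1
        cases h3 : c (G.pi (G.al d)) <;> cases h4 : c (G.pi d) <;> simp_all
      · intro d hd
        rw [mem_filter] at hd
        refine mem_filter.2 ⟨hS.al d hd.1, ?_⟩
        have := hc d hd.1
        cases h3 : c (G.pi (G.al d)) <;> cases h4 : c (G.pi d) <;> simp_all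
      · intro d hd
        exact G.al_al d (hS.sub (mem_filter.1 hd).1)
      · intro d hd
        exact G.al_al d (hS.sub (mem_filter.1 hd).1)
    have e3 : S0.card + (S.filter fun d => ¬ c (G.pi d) = true).card = S.card := by
      convert card_filter_add_card_filter_not (s := S) (fun d => c (G.pi d) = true) using 3
    omega
  -- the linear map
  let A : Matrix N S0 ℝ := fun v d =>
    (if G.pi d.1 = v.1 then 1 else 0) + (if G.pi (G.al d.1) = v.1 then 1 else 0)
  have key : ∃ x : S0 → ℝ, x ≠ 0 ∧ A.mulVecLin x = 0 := by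
    by_contra hno
    push Not at hno
    have hinj : Function.Injective A.mulVecLin := by
      rw [← LinearMap.ker_eq_bot, LinearMap.ker_eq_bot']
      intro x hx
      by_contra h0
      exact hno x h0 hx
    have hfin := LinearMap.finrank_le_finrank_of_injective hinj
    rw [Module.finrank_fintype_fun_eq_card, Module.finrank_fintype_fun_eq_card,
      Fintype.card_coe, Fintype.card_coe] at hfin
    have hSN : S0.card = N.card := by omega
    have hsurj : Function.Surjective A.mulVecLin := by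
      rw [← LinearMap.injective_iff_surjective_of_finrank_eq_finrank]
      · exact hinj
      · rw [Module.finrank_fintype_fun_eq_card, Module.finrank_fintype_fun_eq_card,
          Fintype.card_coe, Fintype.card_coe, hSN]
    obtain ⟨d0, hd0⟩ := hne
    have hd0N : G.pi d0 ∈ N := hN d0 hd0
    obtain ⟨x, hx⟩ := hsurj (fun v => if v.1 = G.pi d0 then 1 else 0)
    -- signed sum
    have h3 : ∑ v : N, (if c v.1 = true then (1 : ℝ) else -1) * A.mulVecLin x v = 0 := by
      have h4 : ∀ v : N, A.mulVecLin x v = ∑ d : S0, A v d * x d := fun v => rfl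
      simp_rw [h4, mul_sum]
      rw [sum_comm]
      refine sum_eq_zero fun d _ => ?_
      have h5 := mem_filter.1 d.2
      have h6 := hc d.1 h5.1
      rw [h5.2] at h6
      have h7 : G.pi d.1 ∈ N := hN d.1 h5.1
      have h8 : G.pi (G.al d.1) ∈ N := hN _ (hS.al d.1 h5.1)
      have h9 : ∀ v : N, (if c v.1 = true then (1 : ℝ) else -1) * (A v d * x d) =
          (if (⟨G.pi d.1, h7⟩ : N) = v then x d else 0) +
            (if (⟨G.pi (G.al d.1), h8⟩ : N) = v then - x d else 0) := by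
        intro v
        have h10 : ((⟨G.pi d.1, h7⟩ : N) = v) ↔ G.pi d.1 = v.1 := Subtype.ext_iff
        have h11 : ((⟨G.pi (G.al d.1), h8⟩ : N) = v) ↔ G.pi (G.al d.1) = v.1 := Subtype.ext_iff
        simp only [A, h10, h11]
        by_cases h12 : G.pi d.1 = v.1
        · have h13 : ¬ G.pi (G.al d.1) = v.1 := by
            intro h13
            rw [← h12] at h13
            exact G.noloop d.1 (hS.sub h5.1) h13
          have h14 : c v.1 = true := by rw [← h12]; exact h5.2
          simp [h12, h13, h14]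
        · by_cases h13 : G.pi (G.al d.1) = v.1
          · have h14 : ¬ c v.1 = true := by rw [← h13]; exact h6
            simp [h12, h13, h14]
          · simp [h12, h13]
      simp_rw [h9]
      rw [sum_add_distrib, sum_ite_eq, sum_ite_eq, if_pos (mem_univ _), if_pos (mem_univ _)]
      ring
    rw [hx] at h3
    have h15 : ∀ v : N, (if c v.1 = true then (1 : ℝ) else -1) *
        (if v.1 = G.pi d0 then 1 else 0) =
        if v = (⟨G.pi d0, hd0N⟩ : N) then (if c (G.pi d0) = true then (1 : ℝ) else -1) else 0 := by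
      intro v
      have h10 : (v = (⟨G.pi d0, hd0N⟩ : N)) ↔ v.1 = G.pi d0 := Subtype.ext_iff
      simp only [h10]
      by_cases h12 : v.1 = G.pi d0
      · simp [h12]
      · simp [h12]
    simp_rw [h15] at h3
    rw [sum_ite_eq', if_pos (mem_univ _)] at h3
    split_ifs at h3 <;> norm_num at h3
  obtain ⟨x, hx0, hx⟩ := key
  let X : D → ℝ := fun d => if h : d ∈ S0 then x ⟨d, h⟩ else 0
  have hX0 : ∀ d ∉ S0, X d = 0 := fun d h => dif_neg h
  refine ⟨fun d => if d ∈ S then X d + X (G.al d) else 0, fun d h => if_neg h, ?_, ?_, ?_⟩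
  · obtain ⟨d, hd⟩ := Function.ne_iff.1 hx0
    have h5 := mem_filter.1 d.2
    refine ⟨d.1, h5.1, ?_⟩
    dsimp only
    rw [if_pos h5.1, hX0 (G.al d.1), add_zero]
    · show (if h : d.1 ∈ S0 then x ⟨d.1, h⟩ else 0) ≠ 0
      rw [dif_pos d.2]
      exact hd
    · intro h6
      have h7 := (mem_filter.1 h6).2
      exact hc d.1 h5.1 (h7.trans h5.2.symm)
  · intro d hd
    dsimp only
    by_cases h3 : d ∈ S
    · rw [if_pos h3, if_pos (hS.al d h3), G.al_al d hd, add_comm]
    · have h4 : G.al d ∉ S := fun h4 => h3 (by have := hS.al _ h4; rwa [G.al_al d hd] at this)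
      rw [if_neg h3, if_neg h4]
  · intro v hv
    dsimp only
    have h3 := congrFun hx ⟨v, hv⟩
    have h4 : A.mulVecLin x ⟨v, hv⟩ = ∑ d : S0, A ⟨v, hv⟩ d * x d := rfl
    rw [h4] at h3
    have h5 : ∑ d : S0, A ⟨v, hv⟩ d * x d =
        ∑ d ∈ S0, ((if G.pi d = v then 1 else 0) + (if G.pi (G.al d) = v then 1 else 0)) * X d := by
      rw [← sum_coe_sort S0]
      refine sum_congr rfl fun d _ => ?_
      have h6 : X d.1 = x d := dif_pos d.2
      rw [h6]
    rw [h5] at h3
    have h6 : ∑ d ∈ G.st v, (if d ∈ S then X d + X (G.al d) else 0) =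
        ∑ d ∈ S, (if G.pi d = v then X d else 0) + ∑ d ∈ S, (if G.pi d = v then X (G.al d) else 0) := by
      rw [← sum_add_distrib, ← sum_filter]
      have h7 : (G.st v).filter (fun d => d ∈ S) = S.filter fun d => G.pi d = v := by
        ext d
        rw [mem_filter, mem_filter, mem_st]
        constructor
        · rintro ⟨⟨-, h8⟩, h9⟩
          exact ⟨h9, h8⟩
        · rintro ⟨h8, h9⟩
          exact ⟨⟨hS.sub h8, h9⟩, h8⟩
      rw [h7, sum_filter]
      refine sum_congr rfl fun d _ => ?_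
      split_ifs <;> simp
    rw [h6]
    have h7 : ∑ d ∈ S, (if G.pi d = v then X (G.al d) else 0) =
        ∑ d ∈ S, (if G.pi (G.al d) = v then X d else 0) := by
      refine sum_bij' (fun d _ => G.al d) (fun d _ => G.al d) (fun d hd => hS.al d hd)
        (fun d hd => hS.al d hd) (fun d hd => G.al_al d (hS.sub hd))
        (fun d hd => G.al_al d (hS.sub hd)) ?_
      intro d hd
      rw [G.al_al d (hS.sub hd)]
    rw [h7, ← sum_add_distrib]
    have h8 : ∑ d ∈ S, ((if G.pi d = v then X d else 0) + (if G.pi (G.al d) = v then X d else 0)) =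
        ∑ d ∈ S0, ((if G.pi d = v then X d else 0) + (if G.pi (G.al d) = v then X d else 0)) := by
      symm
      refine sum_subset (filter_subset _ _) fun d _ hd => ?_
      rw [hX0 d hd]
      simp
    rw [h8]
    refine Eq.trans (sum_congr rfl fun d _ => ?_) h3
    split_ifs <;> ring

/-- number of darts in a set closed under `al` -/
theorem Sy.even {S : Finset D} (hS : G.Sy S) : Even S.card := by
  rw [← ZMod.natCast_eq_zero_iff_even, card_eq_sum_ones]
  push_cast
  refine sum_involution (fun d _ => G.al d) ?_ ?_ ?_ ?_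
  · intro e he
    rfl
  · intro e he _ h5
    exact G.noloop e (hS.sub he) (by rw [h5])
  · intro e he
    exact hS.al e he
  · intro e he
    exact G.al_al e (hS.sub he)

/-- a component has at most `|T| - 1` edges -/
theorem N4.qd_le (h : G.N4 z t fr F jm sx ep m) {u : V} (hu : u ∈ G.vs) :
    (G.qd z fr u).card + 2 ≤ 2 * (G.qc z fr u).card := by
  by_contra hlt
  have hw := h.mc.inst.wt
  have hSy := sy_qd (fr := fr) hw u
  obtain ⟨k, hk⟩ := hSy.even
  have huT : u ∈ G.qc z fr u := self_qc hu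
  have hpos : 0 < (G.qc z fr u).card := card_pos.2 ⟨u, huT⟩
  have hge : 2 * (G.qc z fr u).card ≤ (G.qd z fr u).card := by omega
  have hne : (G.qd z fr u).Nonempty := card_pos.1 (by omega)
  obtain ⟨c, hc⟩ := h.exists_col
  obtain ⟨a, ha0, ⟨e, he, hae⟩, hsym, hdeg⟩ := exists_ker2c G hSy
    (fun d hd => hc d (mem_qd.1 hd).1) hne (fun d hd => (mem_qd.1 hd).2) hge
  have hb : ∀ v ∈ G.vs, ∑ d ∈ G.st v, a d = 0 := by
    intro v hv
    by_cases h3 : v ∈ G.qc z fr u
    · exact hdeg v h3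
    · refine sum_eq_zero fun d hd => ha0 d fun h4 => h3 ?_
      rw [← (mem_st.1 hd).2]
      exact (mem_qd.1 h4).2
  refine hae (h.nf a (fun _ => 0) ⟨hsym, fun d hd h3 => ha0 d fun h4 =>
    (mem_sd.1 (mem_qd.1 h4).1).2.2.1 h3, fun d hd h3 => ha0 d fun h4 =>
    (mem_sd.1 (mem_qd.1 h4).1).2.1 h3, fun v hv => by rw [hb v hv, add_zero]⟩
    (fun _ _ _ => rfl) (fun _ _ _ => rfl) (by simp) e (hSy.sub he))

/-- every component is a tree -/
theorem N4.qd_card (h : G.N4 z t fr F jm sx ep m) {u : V} (hu : u ∈ G.vs) :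
    (G.qd z fr u).card + 2 = 2 * (G.qc z fr u).card :=
  le_antisymm (h.qd_le hu) (qd_ge h.mc.inst.wt hu)

/-- number of legs of a component: `|T| + 2` minus the tokens in it -/
theorem N4.qleg_card' (h : G.N4 z t fr F jm sx ep m) (h2 : G.NoTwo z t) {u : V} (hu : u ∈ G.vs)
    (huf : u ∉ fr) :
    ((G.qleg z fr u).card : ℝ) + ∑ v ∈ G.qc z fr u, t v = (G.qc z fr u).card + 2 := by
  have hw := h.mc.inst.wt
  have hF := h.mc.inst.fresh
  have h3 : (((G.ds.filter fun d => z d ≠ 0 ∧ G.pi d ∈ G.qc z fr u).card : ℕ) : ℝ) +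
      ∑ v ∈ G.qc z fr u, t v = 3 * (G.qc z fr u).card := by
    rw [card_eq_sum_card_fiberwise (f := G.pi) (t := G.qc z fr u)
      (fun d hd => mem_coe.2 (mem_filter.1 (mem_coe.1 hd)).2.2)]
    push_cast
    rw [← sum_add_distrib, sum_congr rfl fun v hv => ?_, sum_const, nsmul_eq_mul, mul_comm]
    rw [← h.st_card h2 (qc_sub u hv)]
    congr 3
    ext d
    simp only [mem_filter, mem_st]
    constructor
    · rintro ⟨⟨h4, h5, -⟩, h6⟩
      exact ⟨⟨h4, h6⟩, h5⟩
    · rintro ⟨⟨h4, h6⟩, h5⟩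
      exact ⟨⟨h4, h5, by rw [h6]; exact hv⟩, h6⟩
  have h4 : (G.ds.filter fun d => z d ≠ 0 ∧ G.pi d ∈ G.qc z fr u) =
      G.qd z fr u ∪ G.qleg z fr u := by
    ext d
    rw [mem_union, mem_qd, mem_qleg, mem_filter, mem_sd]
    constructor
    · rintro ⟨h5, h6, h7⟩
      by_cases h8 : G.pi (G.al d) ∈ fr
      · exact Or.inr ⟨h5, h7, h8⟩
      · exact Or.inl ⟨⟨h5, h6, qc_fr hw huf h7, h8⟩, h7⟩
    · rintro (⟨⟨h5, h6, -, -⟩, h7⟩ | ⟨h5, h7, h8⟩)
      · exact ⟨h5, h6, h7⟩
      · refine ⟨h5, ?_, h7⟩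
        rw [← hw.sym d h5, hF.unit _ (G.al_mem d h5) h8]
        norm_num
  have h5 : Disjoint (G.qd z fr u) (G.qleg z fr u) := by
    rw [disjoint_left]
    intro d h6 h7
    exact (mem_sd.1 (mem_qd.1 h6).1).2.2.2 (mem_qleg.1 h7).2.2
  rw [h4, card_union_of_disjoint h5] at h3
  have h6 : ((G.qd z fr u).card : ℝ) + 2 = 2 * (G.qc z fr u).card := by
    exact_mod_cast h.qd_card hu
  push_cast at h3
  linarith

/-- a component without tokens has `|T| + 2` legs -/
theorem N4.qleg_card (h : G.N4 z t fr F jm sx ep m) (h2 : G.NoTwo z t) {u : V} (hu : u ∈ G.vs)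
    (huf : u ∉ fr) (ht : ∀ v ∈ G.qc z fr u, t v = 0) :
    (G.qleg z fr u).card = (G.qc z fr u).card + 2 := by
  have h3 := h.qleg_card' h2 hu huf
  rw [sum_eq_zero ht, add_zero] at h3
  exact_mod_cast h3

end MG

end RH
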