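import Pool.Agent.Lib.RH.N4B

/-! Uncrossing of two sets with one unit outside their bad circuits (helper93, c4_93.md, sections 3
and 4(a)). -/

set_option autoImplicit false

namespace RH

open Finset Classical

namespace MG

variable {V D : Type*} {G : MG V D} {z : D → ℝ} {t : V → ℝ} {fr : Finset V} {F : Finset D}
variable {ep : V → ℕ} {m : ℕ} {C C' W W' : Finset V} {P1 P2 P1' P2' U U' : Finset D}

theorem Wt.sum_le_units (hw : G.Wt z t) {S : Finset V} {A U : Finset D} (hA : A ⊆ G.bd S)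
    (hU : ∀ d ∈ U, d ∈ G.ds ∧ z d = 1)
    (h : ∀ d ∈ A, z d ≠ 0 → d ∈ U ∨ G.al d ∈ U) : ∑ d ∈ A, z d ≤ U.card := by
  have hz : ∀ d ∈ A.filter fun d => z d ≠ 0, z d = 1 := by
    intro d hd
    obtain ⟨h1, h2⟩ := mem_filter.1 hd
    rcases h d h1 h2 with h3 | h3
    · exact (hU d h3).2
    · rw [← hw.sym d (mem_bd.1 (hA h1)).1]
      exact (hU _ h3).2
  have h1 : ∑ d ∈ A, z d = (A.filter fun d => z d ≠ 0).card := by
    rw [← sum_filter_ne_zero, sum_congr rfl (g := fun _ => (1 : ℝ)) hz, sum_const, nsmul_eq_mul,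
      mul_one]
  rw [h1]
  have h2 : (A.filter fun d => z d ≠ 0).card ≤ U.card := by
    refine card_le_card_of_injOn (fun d => if d ∈ U then d else G.al d) ?_ ?_
    · intro d hd
      obtain ⟨h3, h4⟩ := mem_filter.1 (mem_coe.1 hd)
      refine mem_coe.2 ?_
      show (if d ∈ U then d else G.al d) ∈ U
      split_ifs with h5
      · exact h5
      · exact (h d h3 h4).resolve_left h5
    · intro d hd e he hde
      have h3 := mem_bd.1 (hA (mem_filter.1 (mem_coe.1 hd)).1)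
      have h4 := mem_bd.1 (hA (mem_filter.1 (mem_coe.1 he)).1)
      have hde' : (if d ∈ U then d else G.al d) = (if e ∈ U then e else G.al e) := hde
      split_ifs at hde' with h5 h6 h6
      · exact hde'
      · rw [hde'] at h3
        exact absurd h3.2.1 h4.2.2
      · rw [← hde'] at h4
        exact absurd h4.2.1 h3.2.2
      · have h7 := congrArg G.al hde'
        rwa [G.al_al d h3.1, G.al_al e h4.1] at h7
  exact_mod_cast h2

theorem Bs.unit (h : G.Bs z t P1 P2 W U) {d : D} (hd : d ∈ G.bd W) (hn : d ∉ P2)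
    (hz : z d ≠ 0) : d ∈ U := by
  by_contra h1
  exact hz (h.out d hd hn h1)

theorem Bs.units (h : G.Bs z t P1 P2 W U) (h' : G.Bs z t P1' P2' W' U') :
    ∀ d ∈ U ∪ U', d ∈ G.ds ∧ z d = 1 := by
  intro d hd
  rcases mem_union.1 hd with h1 | h1
  · exact ⟨(mem_bd.1 (h.Ub h1)).1, h.Uz d h1⟩
  · exact ⟨(mem_bd.1 (h'.Ub h1)).1, h'.Uz d h1⟩

theorem Bs.card_units : ((U ∪ U').card : ℝ) ≤ U.card + U'.card := by
  exact_mod_cast card_union_le U U'

section

variable (h : G.Bs z t P1 P2 W U) (h' : G.Bs z t P1' P2' W' U') (hT : G.Two F C P1 P2)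
variable (hT' : G.Two F C' P1' P2') (hF : G.FrS z fr F ∅) (hw : G.Wt z t)
variable (hC : G.Circ fr F C) (hC' : G.Circ fr F C')

include hT' hC' in
/-- both ends of a dart of the circuit `C'` are in `C'` -/
theorem Two.ends {d : D} (hd : d ∈ P2' ∨ d ∈ P1') : G.pi d ∈ C' ∧ G.pi (G.al d) ∈ C' := by
  rcases hd with h1 | h1
  · exact ⟨(hT'.sub2 h1).2, hC'.adm.clo d (hT'.sub2 h1).1 (hT'.sub2 h1).2⟩
  · exact ⟨(hT'.sub1 h1).2, hC'.adm.clo d (hT'.sub1 h1).1 (hT'.sub1 h1).2⟩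

include h h' hT hT' hw hC hC' in
/-- `C` outside `W'`, `C'` inside `W`: the intersection -/
theorem Bs.inter (hd : Disjoint C W') (hs : C' ⊆ W) :
    (∀ d ∈ P1', d ∉ G.bd (W ∩ W')) ∧
      ((G.bd (W ∩ W')).filter fun d => d ∈ P2') = ((G.bd W').filter fun d => d ∈ P2') ∧
      ∑ d ∈ (G.bd (W ∩ W')).filter (fun d => d ∉ P2'), z d ≤ U.card + U'.card := by
  have key : ∀ d, d ∈ P2' ∨ d ∈ P1' → (d ∈ G.bd (W ∩ W') ↔ d ∈ G.bd W') := by
    intro d hd'
    obtain ⟨h1, h2⟩ := hT'.ends hC' hd'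
    rw [mem_bd, mem_bd, mem_inter, mem_inter]
    constructor
    · rintro ⟨h3, ⟨-, h4⟩, h5⟩
      exact ⟨h3, h4, fun h6 => h5 ⟨hs h2, h6⟩⟩
    · rintro ⟨h3, h4, h5⟩
      exact ⟨h3, ⟨hs h1, h4⟩, fun h6 => h5 h6.2⟩
  refine ⟨fun d hd' h1 => h'.p1 d hd' ((key d (Or.inr hd')).1 h1), ?_, ?_⟩
  · ext d
    rw [mem_filter, mem_filter]
    constructor
    · rintro ⟨h1, h2⟩
      exact ⟨(key d (Or.inl h2)).1 h1, h2⟩
    · rintro ⟨h1, h2⟩
      exact ⟨(key d (Or.inl h2)).2 h1, h2⟩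
  · refine (hw.sum_le_units (S := W ∩ W') (filter_subset _ _) (h.units h') ?_).trans
      Bs.card_units
    intro d hd' hz
    obtain ⟨h1, h2⟩ := mem_filter.1 hd'
    obtain ⟨h3, h4, h5⟩ := mem_bd.1 h1
    rw [mem_inter] at h4 h5
    left
    by_cases h6 : G.pi (G.al d) ∈ W
    · exact mem_union_right _ (h'.unit (mem_bd.2 ⟨h3, h4.2, fun h7 => h5 ⟨h6, h7⟩⟩) h2 hz)
    · refine mem_union_left _ (h.unit (mem_bd.2 ⟨h3, h4.1, h6⟩) ?_ hz)
      intro h7
      exact disjoint_left.1 hd (hT.ends hC (Or.inl h7)).1 h4.2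

include h h' hT hT' hw hC hC' in
/-- `C` outside `W'`, `C'` inside `W`: the difference -/
theorem Bs.diff1 (hd : Disjoint C W') (hs : C' ⊆ W) :
    ∑ d ∈ G.bd (W' \ W), z d ≤ U.card + U'.card := by
  refine (hw.sum_le_units (S := W' \ W) (Finset.Subset.refl _) (h.units h') ?_).trans
    Bs.card_units
  intro d hd' hz
  obtain ⟨h3, h4, h5⟩ := mem_bd.1 hd'
  rw [mem_sdiff] at h4 h5
  by_cases h6 : G.pi (G.al d) ∈ W'
  · right
    have h7 : G.pi (G.al d) ∈ W := by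
      by_contra h8
      exact h5 ⟨h6, h8⟩
    refine mem_union_left _ (h.unit (mem_bd.2 ⟨G.al_mem d h3, h7, ?_⟩) ?_ ?_)
    · rw [G.al_al d h3]
      exact h4.2
    · intro h8
      exact disjoint_left.1 hd (hT.ends hC (Or.inl h8)).1 h6
    · rwa [hw.sym d h3]
  · left
    refine mem_union_right _ (h'.unit (mem_bd.2 ⟨h3, h4.1, h6⟩) ?_ hz)
    intro h8
    exact h4.2 (hs (hT'.ends hC' (Or.inl h8)).1)

include h h' hT hT' hw hC hC' in
/-- `C` inside `W'`, `C'` inside `W`: the difference -/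
theorem Bs.diff2 (hd : C ⊆ W') (hs : C' ⊆ W) :
    (∀ d ∈ P1', d ∉ G.bd (W \ W')) ∧
      ((G.bd (W \ W')).filter fun d => d ∈ P2').card =
        ((G.bd W').filter fun d => d ∈ P2').card ∧
      ∑ d ∈ (G.bd (W \ W')).filter (fun d => d ∉ P2'), z d ≤ U.card + U'.card := by
  have key : ∀ d ∈ G.ds, d ∈ P2' ∨ d ∈ P1' → (d ∈ G.bd (W \ W') ↔ G.al d ∈ G.bd W') := by
    intro d h0 hd'
    obtain ⟨h1, h2⟩ := hT'.ends hC' hd'
    rw [mem_bd, mem_bd, mem_sdiff, mem_sdiff, G.al_al d h0]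
    constructor
    · rintro ⟨h3, ⟨-, h4⟩, h5⟩
      refine ⟨G.al_mem d h0, ?_, h4⟩
      by_contra h6
      exact h5 ⟨hs h2, h6⟩
    · rintro ⟨h3, h4, h5⟩
      exact ⟨h0, ⟨hs h1, h5⟩, fun h6 => h6.2 h4⟩
  refine ⟨fun d hd' h1 => ?_, ?_, ?_⟩
  · exact h'.p1 _ (hT'.al1 d hd') ((key d (mem_bd.1 h1).1 (Or.inr hd')).1 h1)
  · refine card_bij (fun d _ => G.al d) ?_ ?_ ?_
    · intro d hd'
      obtain ⟨h1, h2⟩ := mem_filter.1 hd'
      exact mem_filter.2 ⟨(key d (mem_bd.1 h1).1 (Or.inl h2)).1 h1, hT'.al2 d h2⟩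
    · intro d hd' e he hde
      have h1 := congrArg G.al hde
      rwa [G.al_al d (mem_bd.1 (mem_filter.1 hd').1).1,
        G.al_al e (mem_bd.1 (mem_filter.1 he).1).1] at h1
    · intro e he
      obtain ⟨h1, h2⟩ := mem_filter.1 he
      have h3 := (mem_bd.1 h1).1
      refine ⟨G.al e, mem_filter.2 ⟨?_, hT'.al2 e h2⟩, G.al_al e h3⟩
      refine (key (G.al e) (G.al_mem e h3) (Or.inl (hT'.al2 e h2))).2 ?_
      rw [G.al_al e h3]
      exact h1
  · refine (hw.sum_le_units (S := W \ W') (filter_subset _ _) (h.units h') ?_).trans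
      Bs.card_units
    intro d hd' hz
    obtain ⟨h1, h2⟩ := mem_filter.1 hd'
    obtain ⟨h3, h4, h5⟩ := mem_bd.1 h1
    rw [mem_sdiff] at h4 h5
    by_cases h6 : G.pi (G.al d) ∈ W
    · right
      have h7 : G.pi (G.al d) ∈ W' := by
        by_contra h8
        exact h5 ⟨h6, h8⟩
      refine mem_union_right _ (h'.unit (mem_bd.2 ⟨G.al_mem d h3, h7, ?_⟩) ?_ ?_)
      · rw [G.al_al d h3]
        exact h4.2
      · intro h8
        have h9 := hT'.al2 _ h8
        rw [G.al_al d h3] at h9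
        exact h2 h9
      · rwa [hw.sym d h3]
    · left
      refine mem_union_left _ (h.unit (mem_bd.2 ⟨h3, h4.1, h6⟩) ?_ hz)
      intro h8
      exact h4.2 (hd (hT.ends hC (Or.inl h8)).1)

include h h' hT hT' hw hC hC' in
/-- `C` inside `W'`, `C'` inside `W`: the union -/
theorem Bs.union (hd : C ⊆ W') (hs : C' ⊆ W) :
    ∑ d ∈ G.bd (W ∪ W'), z d ≤ U.card + U'.card := by
  refine (hw.sum_le_units (S := W ∪ W') (Finset.Subset.refl _) (h.units h') ?_).trans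
    Bs.card_units
  intro d hd' hz
  obtain ⟨h3, h4, h5⟩ := mem_bd.1 hd'
  rw [mem_union, not_or] at h5
  left
  rcases mem_union.1 h4 with h6 | h6
  · refine mem_union_left _ (h.unit (mem_bd.2 ⟨h3, h6, h5.1⟩) ?_ hz)
    intro h8
    exact h5.2 (hd (hT.ends hC (Or.inl h8)).2)
  · refine mem_union_right _ (h'.unit (mem_bd.2 ⟨h3, h6, h5.2⟩) ?_ hz)
    intro h8
    exact h5.1 (hs (hT'.ends hC' (Or.inl h8)).2)

end

end MG

end RH
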