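import Pool.Agent.Lib.RH.MFree
import Pool.Agent.Lib.RH.SGA

/-! (P1+) (helper68, lead, helper82): in a minimal counterexample there is no region `R` of even
fresh circuits with a 2-colouring such that every J-edge at the first colour class `S` goes to a
vertex outside `fr` or to the second colour class. Free absorption of `R` and a count. -/

set_option autoImplicit false

namespace RH

open Finset Classical

namespace MG

variable {V D : Type*} {G : MG V D} {z : D → ℝ} {t : V → ℝ} {fr : Finset V} {F : Finset D}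
variable {jm sx : Finset V} {ep : V → ℕ} {m : ℕ} {M : Finset D}

/-- darts of a set `T` of darts over a set `B` of vertices -/
theorem card_fib (T : Finset D) (B : Finset V) :
    (T.filter fun d => G.pi d ∈ B).card = ∑ v ∈ B, (T.filter fun d => G.pi d = v).card := by
  rw [card_eq_sum_card_fiberwise (f := G.pi) (s := T.filter fun d => G.pi d ∈ B) (t := B)
    (fun d hd => (mem_filter.1 (mem_coe.1 hd)).2)]
  refine sum_congr rfl fun v hv => ?_
  rw [filter_filter]
  congr 1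
  ext d
  rw [mem_filter, mem_filter]
  constructor
  · rintro ⟨h, -, h2⟩
    exact ⟨h, h2⟩
  · rintro ⟨h, h2⟩
    exact ⟨h, h2 ▸ hv, h2⟩

/-- the count: `A` a union of fresh circuits with colour classes `A ∩ S` and `A \ S`; every unused
J-dart at `S` goes to a J-dart at the other class: then no unused J-dart leaves `A`, there is no
star vertex in `A`, and `A` is even -/
theorem region_count (hF : G.FrS z fr F jm) (hM : G.IsPM M) {A S : Finset V}
    (hA : G.Adm fr F A) (hcol : ∀ d ∈ F, G.pi d ∈ A → (G.pi d ∈ S ↔ G.pi (G.al d) ∉ S))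
    (hjS : ∀ v ∈ A, v ∈ jm → v ∉ S)
    (hport : ∀ d ∈ G.ds, d ∉ F → d ∉ M → G.pi d ∈ A → G.pi d ∈ S →
      G.pi (G.al d) ∈ A ∧ G.pi (G.al d) ∉ S) :
    (∀ d ∈ G.bd A, d ∈ M) ∧ Disjoint A jm ∧ Even A.card := by
  have hAfr := hA.sub
  have hAvs : A ⊆ G.vs := hAfr.trans hF.fsub
  -- darts of `M` at a set of vertices
  have cM : ∀ B ⊆ A, (M.filter fun d => G.pi d ∈ B).card = B.card := by
    intro B hB
    rw [card_fib, card_eq_sum_ones B]
    exact sum_congr rfl fun v hv => hM.one v (hAvs (hB hv))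
  have cF : ∀ B ⊆ A, (F.filter fun d => G.pi d ∈ B).card = B.card * 2 := by
    intro B hB
    rw [card_fib, sum_congr rfl fun v hv => hF.two v (hAfr (hB hv)), sum_const, smul_eq_mul]
  have cJ : ∀ B ⊆ A, ((G.ds.filter fun d => d ∉ F).filter fun d => G.pi d ∈ B).card =
      (B \ jm).card := by
    intro B hB
    rw [card_fib, card_eq_sum_ones (B \ jm), ← sum_sdiff (inter_subset_left : B ∩ jm ⊆ B)]
    have e1 : B \ (B ∩ jm) = B \ jm := by
      ext v
      simp only [mem_sdiff, mem_inter, not_and]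
      tauto
    have e2 : ∀ v, ((G.ds.filter fun d => d ∉ F).filter fun d => G.pi d = v) =
        (G.st v).filter fun d => d ∉ F := by
      intro v
      ext d
      rw [mem_filter, mem_filter, mem_filter, mem_st]
      tauto
    have e3 : ∑ v ∈ B ∩ jm, ((G.ds.filter fun d => d ∉ F).filter fun d => G.pi d = v).card =
        0 := by
      refine sum_eq_zero fun v hv => ?_
      rw [e2, card_eq_zero, filter_eq_empty_iff]
      intro d hd h1
      exact h1 (hF.j0 v (mem_inter.1 hv).2 d hd)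
    rw [e3, add_zero, e1]
    refine sum_congr rfl fun v hv => ?_
    rw [e2]
    exact hF.jd v (hAfr (hB (mem_sdiff.1 hv).1)) (mem_sdiff.1 hv).2
  -- the classes
  have hB1 : A ∩ S ⊆ A := inter_subset_left
  have hB2 : A \ S ⊆ A := sdiff_subset
  have hsw : ∀ T : Finset D, (∀ d ∈ T, d ∈ F) → (∀ d ∈ T, G.al d ∈ T) →
      (T.filter fun d => G.pi d ∈ A ∩ S).card = (T.filter fun d => G.pi d ∈ A \ S).card := by
    intro T hTF hTal
    refine card_bij (fun d _ => G.al d) ?_ ?_ ?_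
    · intro d hd
      obtain ⟨h1, h2⟩ := mem_filter.1 hd
      obtain ⟨h3, h4⟩ := mem_inter.1 h2
      exact mem_filter.2 ⟨hTal d h1, mem_sdiff.2 ⟨hA.clo d (hTF d h1) h3,
        (hcol d (hTF d h1) h3).1 h4⟩⟩
    · intro d hd e he h5
      have h6 := congrArg G.al h5
      rwa [G.al_al d (hF.Fsub (hTF d (mem_filter.1 hd).1)),
        G.al_al e (hF.Fsub (hTF e (mem_filter.1 he).1))] at h6
    · intro d hd
      obtain ⟨h1, h2⟩ := mem_filter.1 hd
      obtain ⟨h3, h4⟩ := mem_sdiff.1 h2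
      have h5 := hTF d h1
      refine ⟨G.al d, mem_filter.2 ⟨hTal d h1, mem_inter.2 ⟨hA.clo d h5 h3, ?_⟩⟩,
        G.al_al d (hF.Fsub h5)⟩
      by_contra h6
      exact h4 ((hcol d h5 h3).2 h6)
  have hPQ := hsw (M.filter fun d => d ∈ F) (fun d hd => (mem_filter.1 hd).2)
    (fun d hd => mem_filter.2 ⟨hM.closed d (mem_filter.1 hd).1, hF.Fal d (mem_filter.1 hd).2⟩)
  have hFF := hsw F (fun d hd => hd) hF.Fal
  rw [cF _ hB1, cF _ hB2] at hFF
  have hcard : (A ∩ S).card + (A \ S).card = A.card := by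
    rw [add_comm]
    exact card_sdiff_add_card_inter A S
  have heven : Even A.card := ⟨(A ∩ S).card, by omega⟩
  -- unused J-darts
  have cU : ∀ B ⊆ A, (((G.ds.filter fun d => d ∉ F).filter fun d => G.pi d ∈ B).filter
      fun d => d ∉ M).card + B.card =
        ((M.filter fun d => d ∈ F).filter fun d => G.pi d ∈ B).card + (B \ jm).card := by
    intro B hB
    have h1 := cM B hB
    have h2 := cJ B hB
    have h3 : (M.filter fun d => G.pi d ∈ B).card =
        ((M.filter fun d => d ∈ F).filter fun d => G.pi d ∈ B).card +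
        (((G.ds.filter fun d => d ∉ F).filter fun d => G.pi d ∈ B).filter
          fun d => d ∈ M).card := by
      rw [← card_union_of_disjoint]
      · congr 1
        ext d
        simp only [mem_union, mem_filter]
        constructor
        · rintro ⟨h4, h5⟩
          by_cases h6 : d ∈ F
          · exact Or.inl ⟨⟨h4, h6⟩, h5⟩
          · exact Or.inr ⟨⟨⟨hM.sub h4, h6⟩, h5⟩, h4⟩
        · rintro (⟨⟨h4, -⟩, h5⟩ | ⟨⟨-, h5⟩, h4⟩)
          · exact ⟨h4, h5⟩
          · exact ⟨h4, h5⟩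
      · rw [disjoint_left]
        intro d h4 h5
        exact (mem_filter.1 (mem_filter.1 (mem_filter.1 h5).1).1).2
          (mem_filter.1 (mem_filter.1 h4).1).2
    have h4 := card_filter_add_card_filter_not
      (s := (G.ds.filter fun d => d ∉ F).filter fun d => G.pi d ∈ B) (fun d => d ∈ M)
    omega
  have u1 := cU _ hB1
  have u2 := cU _ hB2
  have hj1 : (A ∩ S) \ jm = A ∩ S := by
    rw [Finset.sdiff_eq_self_iff_disjoint, disjoint_left]
    intro v hv hj
    obtain ⟨h1, h2⟩ := mem_inter.1 hv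
    exact hjS v h1 hj h2
  rw [hj1] at u1
  set US := ((G.ds.filter fun d => d ∉ F).filter fun d => G.pi d ∈ A ∩ S).filter
    fun d => d ∉ M with hUS
  set UI := ((G.ds.filter fun d => d ∉ F).filter fun d => G.pi d ∈ A \ S).filter
    fun d => d ∉ M with hUI
  have hUSm : ∀ d, d ∈ US ↔ d ∈ G.ds ∧ d ∉ F ∧ G.pi d ∈ A ∧ G.pi d ∈ S ∧ d ∉ M := by
    intro d
    rw [hUS]
    simp only [mem_filter, mem_inter]
    tauto
  have hUIm : ∀ d, d ∈ UI ↔ d ∈ G.ds ∧ d ∉ F ∧ G.pi d ∈ A ∧ G.pi d ∉ S ∧ d ∉ M := by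
    intro d
    rw [hUI]
    simp only [mem_filter, mem_sdiff]
    tauto
  have hNM : ∀ d ∈ G.ds, d ∉ M → G.al d ∉ M := by
    intro d hd h1 h2
    have h3 := hM.closed _ h2
    rw [G.al_al d hd] at h3
    exact h1 h3
  have hNF : ∀ d ∈ G.ds, d ∉ F → G.al d ∉ F := by
    intro d hd h1 h2
    have h3 := hF.Fal _ h2
    rw [G.al_al d hd] at h3
    exact h1 h3
  have hmap : US.image G.al ⊆ UI := by
    intro e he
    obtain ⟨d, hd, rfl⟩ := mem_image.1 he
    obtain ⟨h1, h2, h3, h4, h5⟩ := (hUSm d).1 hd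
    obtain ⟨h6, h7⟩ := hport d h1 h2 h5 h3 h4
    exact (hUIm _).2 ⟨G.al_mem d h1, hNF d h1 h2, h6, h7, hNM d h1 h5⟩
  have hinj : (US.image G.al).card = US.card := by
    refine card_image_of_injOn ?_
    intro d hd e he h5
    have h6 := congrArg G.al h5
    rwa [G.al_al d ((hUSm d).1 (mem_coe.1 hd)).1, G.al_al e ((hUSm e).1 (mem_coe.1 he)).1] at h6
  have hle : ((A \ S) \ jm).card ≤ (A \ S).card := card_le_card sdiff_subset
  have hle2 := card_le_card hmap
  have heq : UI ⊆ US.image G.al := by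
    refine (eq_of_subset_of_card_le hmap ?_).ge
    omega
  have hj2 : ((A \ S) \ jm).card = (A \ S).card := by omega
  refine ⟨?_, ?_, heven⟩
  · intro d hd
    obtain ⟨h1, h2, h3⟩ := mem_bd.1 hd
    by_contra h4
    have h5 : d ∉ F := fun h5 => h3 (hA.clo d h5 h2)
    by_cases h6 : G.pi d ∈ S
    · exact h3 (hport d h1 h5 h4 h2 h6).1
    · have h7 := heq ((hUIm d).2 ⟨h1, h5, h2, h6, h4⟩)
      obtain ⟨e, he, h8⟩ := mem_image.1 h7
      have h9 := (hUSm e).1 he
      have h10 : G.al d = e := by rw [← h8, G.al_al e h9.1]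
      exact h3 (h10 ▸ h9.2.2.1)
  · rw [disjoint_left]
    intro v hv hj
    have h1 : v ∉ S := hjS v hv hj
    have h2 : (A \ S) \ jm = A \ S := eq_of_subset_of_card_le sdiff_subset hj2.ge
    have h3 : v ∈ (A \ S) \ jm := by
      rw [h2]
      exact mem_sdiff.2 ⟨hv, h1⟩
    exact (mem_sdiff.1 h3).2 hj

/-- **(P1+)** -/
theorem MCS.no_region (h : G.MCS z t fr F jm sx ep m) {R S : Finset V} (hR : G.Adm fr F R)
    (hne : R.Nonempty)
    (hcol : ∀ d ∈ F, G.pi d ∈ R → (G.pi d ∈ S ↔ G.pi (G.al d) ∉ S))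
    (hport : ∀ d ∈ G.ds, d ∉ F → G.pi d ∈ R → G.pi d ∈ S → G.pi (G.al d) ∈ fr →
      G.pi (G.al d) ∈ R ∧ G.pi (G.al d) ∉ S)
    (hs : (Disjoint R sx ∧ Disjoint R jm) ∨ (sx ⊆ R ∧ jm ⊆ R ∧ Disjoint jm S)) : False := by
  have hI := h.inst
  have hF := hI.fresh
  obtain ⟨M, hM, hpos, h3, X, hX, hXR, hO, hcl⟩ := h.absorb hR hne (by
    rcases hs with h1 | h1
    · exact Or.inl h1
    · exact Or.inr ⟨h1.1, h1.2.1⟩)
  have hA : G.Adm fr F (X ∩ R) := by
    refine ⟨inter_subset_left.trans hX.sub, fun d hd hp => ?_⟩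
    rw [mem_inter] at hp ⊢
    exact ⟨hX.clo d hd hp.1, hR.clo d hd hp.2⟩
  have hjS : ∀ v ∈ X ∩ R, v ∈ jm → v ∉ S := by
    intro v hv hj hS
    rcases hs with h1 | h1
    · exact disjoint_left.1 h1.2 (mem_inter.1 hv).2 hj
    · exact disjoint_left.1 h1.2.2 hj hS
  obtain ⟨h4, h5, h6⟩ := region_count hF hM hA (fun d hd hp => hcol d hd (mem_inter.1 hp).2) hjS
    (by
      intro d hd hdF hdM hp hpS
      obtain ⟨h7, h8⟩ := mem_inter.1 hp
      have h9 : G.pi (G.al d) ∈ X := by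
        by_contra h10
        exact hdM (hcl d (mem_bd.2 ⟨hd, h7, h10⟩))
      obtain ⟨h11, h12⟩ := hport d hd hdF h8 hpS (hX.sub h9)
      exact ⟨mem_inter.2 ⟨h9, h11⟩, h12⟩)
  -- the rest of `X` is closed
  have h7 : G.Adm fr F (X \ R) := by
    refine ⟨sdiff_subset.trans hX.sub, fun d hd hp => ?_⟩
    rw [mem_sdiff] at hp ⊢
    refine ⟨hX.clo d hd hp.1, fun h8 => hp.2 ?_⟩
    have h9 := hR.clo _ (hF.Fal d hd) h8
    rwa [G.al_al d (hF.Fsub hd)] at h9
  have h8 : ∀ d ∈ G.bd (X \ R), d ∈ M := by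
    intro d hd
    obtain ⟨h9, h10, h11⟩ := mem_bd.1 hd
    rw [mem_sdiff] at h10
    by_cases h12 : G.pi (G.al d) ∈ X
    · have h13 : G.pi (G.al d) ∈ R := by
        by_contra h14
        exact h11 (mem_sdiff.2 ⟨h12, h14⟩)
      have h14 : G.al d ∈ G.bd (X ∩ R) := by
        refine mem_bd.2 ⟨G.al_mem d h9, mem_inter.2 ⟨h12, h13⟩, ?_⟩
        rw [G.al_al d h9]
        exact fun h15 => h10.2 (mem_inter.1 h15).2
      have h15 := hM.closed _ (h4 _ h14)
      rwa [G.al_al d h9] at h15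
    · exact hcl d (mem_bd.2 ⟨h9, h10.1, h12⟩)
  have hdis : Disjoint (X \ R) R := sdiff_disjoint
  have hstar : ¬ (sx.Nonempty ∧ sx ⊆ X) := by
    rintro ⟨hn, hsX⟩
    rcases hs with h1 | h1
    · have h9 : sx ⊆ X \ R := fun v hv =>
        mem_sdiff.2 ⟨hsX hv, fun h10 => disjoint_left.1 h1.1 h10 hv⟩
      obtain ⟨d, hd, hdM⟩ := h3 _ h7 hdis (Or.inr ⟨hn, h9⟩)
      exact hdM (h8 d hd)
    · obtain ⟨v, hv⟩ := hn
      have hjm : sx = jm := hI.toT.sx_eq
      exact disjoint_left.1 h5 (mem_inter.2 ⟨hsX hv, h1.1 hv⟩) (hjm ▸ hv)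
  have ho : Odd X.card := by
    rcases hO with h9 | h9
    · exact h9
    · exact absurd h9 hstar
  have h9 : Odd (X \ R).card := by
    have h10 := card_sdiff_add_card_inter X R
    rw [Nat.odd_iff] at ho ⊢
    rw [Nat.even_iff] at h6
    omega
  obtain ⟨d, hd, hdM⟩ := h3 _ h7 hdis (Or.inl h9)
  exact hdM (h8 d hd)

end MG

end RH
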