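import Pool.Agent.Lib.RH.MFree

/-! (P1*) (lead, after helper68): in a star-free minimal counterexample there is no closed bipartite
system `Y` of fresh circuits: a 2-colouring of the circuits of `Y` such that every J-edge of a `true`
vertex goes to a `false` vertex of `Y` or leaves the fresh part. -/

set_option autoImplicit false

namespace RH

open Finset Classical

namespace MG

variable {V D : Type*} {G : MG V D} {z : D → ℝ} {t : V → ℝ} {fr : Finset V} {F : Finset D}
variable {jm sx : Finset V} {ep : V → ℕ} {m : ℕ} {M : Finset D}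

/-- counting darts by their vertices -/
private theorem card_fib (A : Finset D) (S : Finset V) (k : ℕ)
    (h : ∀ v ∈ S, (A.filter fun d => G.pi d = v).card = k) :
    (A.filter fun d => G.pi d ∈ S).card = k * S.card := by
  rw [card_eq_sum_card_fiberwise (f := G.pi) (t := S)
    (fun d hd => mem_coe.2 (mem_filter.1 (mem_coe.1 hd)).2)]
  rw [mul_comm, ← smul_eq_mul, ← sum_const]
  refine sum_congr rfl fun v hv => ?_
  rw [← h v hv]
  congr 1
  ext d
  rw [mem_filter, mem_filter, mem_filter]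
  constructor
  · rintro ⟨⟨h1, -⟩, h2⟩
    exact ⟨h1, h2⟩
  · rintro ⟨h1, h2⟩
    exact ⟨⟨h1, by rw [h2]; exact hv⟩, h2⟩

/-- (P1+): `S`, `I` the two classes of a nonempty union of fresh circuits, every J-edge of `S` goes to
`I` or leaves the fresh part; the star is outside or inside `I` -/
theorem MCS.p1 (h : G.MCS z t fr F jm sx ep m) {S I : Finset V} (hd : Disjoint S I)
    (hY : G.Adm fr F (S ∪ I)) (hne : (S ∪ I).Nonempty)
    (hs : (Disjoint (S ∪ I) sx ∧ Disjoint (S ∪ I) jm) ∨ (sx ⊆ I ∧ jm ⊆ I))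
    (hF1 : ∀ d ∈ F, G.pi d ∈ S → G.pi (G.al d) ∈ I)
    (hF2 : ∀ d ∈ F, G.pi d ∈ I → G.pi (G.al d) ∈ S)
    (hJ : ∀ d ∈ G.ds, d ∉ F → G.pi d ∈ S → G.pi (G.al d) ∈ I ∨ G.pi (G.al d) ∉ fr) : False := by
  have hF := h.inst.fresh
  obtain ⟨M, hPM, -, hhit, X, hX, -, hodd, hcl⟩ := h.absorb hY hne (by
    rcases hs with h1 | ⟨h1, h2⟩
    · exact Or.inl h1
    · exact Or.inr ⟨h1.trans subset_union_right, h2.trans subset_union_right⟩)
  have hjS : ∀ v ∈ S, v ∉ jm := by
    intro v hv hj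
    rcases hs with ⟨-, h2⟩ | ⟨-, h2⟩
    · exact disjoint_left.1 h2 (mem_union_left _ hv) hj
    · exact disjoint_left.1 hd hv (h2 hj)
  obtain ⟨A, hA⟩ : ∃ A, A = X ∩ S := ⟨_, rfl⟩
  obtain ⟨B, hB⟩ : ∃ B, B = X ∩ I := ⟨_, rfl⟩
  have mA : ∀ v, v ∈ A ↔ v ∈ X ∧ v ∈ S := by
    intro v
    rw [hA, mem_inter]
  have mB : ∀ v, v ∈ B ↔ v ∈ X ∧ v ∈ I := by
    intro v
    rw [hB, mem_inter]
  have hAfr : ∀ v ∈ A, v ∈ fr := fun v hv => hX.sub ((mA v).1 hv).1
  have hBfr : ∀ v ∈ B, v ∈ fr := fun v hv => hX.sub ((mB v).1 hv).1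
  -- F-darts at `A` and at `B`
  have swap : ∀ T : Finset D, T ⊆ F → (∀ d ∈ T, G.al d ∈ T) →
      (T.filter fun d => G.pi d ∈ A).card = (T.filter fun d => G.pi d ∈ B).card := by
    intro T hT hcT
    refine card_bij (fun d _ => G.al d) ?_ ?_ ?_
    · intro d hd
      obtain ⟨h1, h2⟩ := mem_filter.1 hd
      obtain ⟨h3, h4⟩ := (mA _).1 h2
      exact mem_filter.2 ⟨hcT d h1, (mB _).2 ⟨hX.clo d (hT h1) h3, hF1 d (hT h1) h4⟩⟩
    · intro d hd e he hde
      have h1 := hF.Fsub (hT (mem_filter.1 hd).1)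
      have h2 := hF.Fsub (hT (mem_filter.1 he).1)
      rw [← G.al_al d h1, ← G.al_al e h2, hde]
    · intro e he
      obtain ⟨h1, h2⟩ := mem_filter.1 he
      obtain ⟨h3, h4⟩ := (mB _).1 h2
      exact ⟨G.al e, mem_filter.2 ⟨hcT e h1, (mA _).2 ⟨hX.clo e (hT h1) h3, hF2 e (hT h1) h4⟩⟩,
        G.al_al e (hF.Fsub (hT h1))⟩
  have e1 : A.card = B.card := by
    have h1 := swap F (Subset.refl _) hF.Fal
    rw [card_fib F A 2 fun v hv => hF.two v (hAfr v hv),
      card_fib F B 2 fun v hv => hF.two v (hBfr v hv)] at h1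
    omega
  -- darts of `M`
  have hMF := swap (M.filter fun d => d ∈ F) (fun d hd => (mem_filter.1 hd).2) (fun d hd => by
    obtain ⟨h1, h2⟩ := mem_filter.1 hd
    exact mem_filter.2 ⟨hPM.closed d h1, hF.Fal d h2⟩)
  have split : ∀ T : Finset V, (∀ v ∈ T, v ∈ fr) →
      ((M.filter fun d => d ∈ F).filter fun d => G.pi d ∈ T).card +
        ((M.filter fun d => d ∉ F).filter fun d => G.pi d ∈ T).card = T.card := by
    intro T hT
    have h1 := card_fib (G := G) M T 1 fun v hv => hPM.one v (hF.fsub (hT v hv))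
    rw [one_mul, ← card_filter_add_card_filter_not (s := M.filter fun d => G.pi d ∈ T)
      (fun d => d ∈ F), filter_filter, filter_filter] at h1
    rw [filter_filter, filter_filter]
    rw [← h1]
    congr 2
    · ext d
      simp only [mem_filter]
      tauto
    · ext d
      simp only [mem_filter]
      tauto
  have hJd : ∀ T : Finset V, (∀ v ∈ T, v ∈ fr) →
      ((G.ds.filter fun d => d ∉ F).filter fun d => G.pi d ∈ T).card + (T ∩ jm).card =
        T.card := by
    intro T hT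
    have h1 := card_fib (G := G) (G.ds.filter fun d => d ∉ F) (T \ jm) 1 fun v hv => by
      obtain ⟨h2, h3⟩ := mem_sdiff.1 hv
      rw [← hF.jd v (hT v h2) h3]
      congr 1
      ext d
      simp only [mem_filter, mem_st]
      tauto
    have h2 : ((G.ds.filter fun d => d ∉ F).filter fun d => G.pi d ∈ T) =
        ((G.ds.filter fun d => d ∉ F).filter fun d => G.pi d ∈ T \ jm) := by
      ext d
      simp only [mem_filter, mem_sdiff]
      constructor
      · rintro ⟨⟨h3, h4⟩, h5⟩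
        exact ⟨⟨h3, h4⟩, h5, fun h6 => h4 (hF.j0 _ h6 d (mem_st.2 ⟨h3, rfl⟩))⟩
      · rintro ⟨⟨h3, h4⟩, h5, -⟩
        exact ⟨⟨h3, h4⟩, h5⟩
    rw [h2, h1, one_mul]
    exact card_sdiff_add_card_inter T jm
  have hun : ∀ T : Finset V, (∀ v ∈ T, v ∈ fr) →
      (G.ds.filter fun d => d ∉ F ∧ d ∉ M ∧ G.pi d ∈ T).card +
        ((M.filter fun d => d ∉ F).filter fun d => G.pi d ∈ T).card + (T ∩ jm).card =
          T.card := by
    intro T hT
    rw [← hJd T hT, ← card_filter_add_card_filter_not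
      (s := (G.ds.filter fun d => d ∉ F).filter fun d => G.pi d ∈ T) (fun d => d ∈ M),
      add_comm ((G.ds.filter fun d => d ∉ F ∧ d ∉ M ∧ G.pi d ∈ T).card)]
    congr 3
    · ext d
      simp only [mem_filter]
      constructor
      · rintro ⟨⟨h1, h2⟩, h3⟩
        exact ⟨⟨⟨hPM.sub h1, h2⟩, h3⟩, h1⟩
      · rintro ⟨⟨⟨-, h2⟩, h3⟩, h1⟩
        exact ⟨⟨h1, h2⟩, h3⟩
    · ext d
      simp only [mem_filter]
      tauto
  obtain ⟨US, hUS⟩ : ∃ U, U = G.ds.filter fun d => d ∉ F ∧ d ∉ M ∧ G.pi d ∈ A := ⟨_, rfl⟩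
  obtain ⟨UI, hUI⟩ : ∃ U, U = G.ds.filter fun d => d ∉ F ∧ d ∉ M ∧ G.pi d ∈ B := ⟨_, rfl⟩
  have hAj : (A ∩ jm).card = 0 := by
    rw [card_eq_zero, eq_empty_iff_forall_notMem]
    intro v hv
    obtain ⟨h1, h2⟩ := mem_inter.1 hv
    exact hjS v ((mA v).1 h1).2 h2
  have hcard : US.card = UI.card + (B ∩ jm).card := by
    have h1 := split A hAfr
    have h2 := split B hBfr
    have h3 := hun A hAfr
    have h4 := hun B hBfr
    rw [← hUS] at h3
    rw [← hUI] at h4
    omega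
  have hSI : ∀ d ∈ US, G.al d ∈ UI := by
    intro d hd'
    rw [hUS, mem_filter] at hd'
    obtain ⟨h1, h2, h3, h4⟩ := hd'
    obtain ⟨h5, h6⟩ := (mA _).1 h4
    have h8 : G.pi (G.al d) ∈ X := by
      by_contra hn
      exact h3 (hcl d (mem_bd.2 ⟨h1, h5, hn⟩))
    have h9 := (hJ d h1 h2 h6).resolve_right (fun hh => hh (hX.sub h8))
    rw [hUI, mem_filter]
    refine ⟨G.al_mem d h1, fun hh => h2 ?_, fun hh => h3 ?_, (mB _).2 ⟨h8, h9⟩⟩
    · have := hF.Fal _ hh
      rwa [G.al_al d h1] at this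
    · have := hPM.closed _ hh
      rwa [G.al_al d h1] at this
  have hUSd : ∀ d ∈ US, d ∈ G.ds := fun d hd' => by
    rw [hUS] at hd'
    exact (mem_filter.1 hd').1
  have himgc : (US.image G.al).card = US.card := by
    rw [card_image_of_injOn]
    intro d hd' e he hde
    have hde' : G.al d = G.al e := hde
    rw [← G.al_al d (hUSd d (mem_coe.1 hd')), ← G.al_al e (hUSd e (mem_coe.1 he)), hde']
  have himgs : US.image G.al ⊆ UI := by
    intro e he
    obtain ⟨d, hd', rfl⟩ := mem_image.1 he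
    exact hSI d hd'
  have hBj : (B ∩ jm).card = 0 := by
    have h1 := card_le_card himgs
    omega
  have himg : US.image G.al = UI := eq_of_subset_of_card_le himgs (by omega)
  have hIS : ∀ e ∈ UI, G.al e ∈ US := by
    intro e he
    rw [← himg] at he
    obtain ⟨d, hd', rfl⟩ := mem_image.1 he
    rw [G.al_al d (hUSd d hd')]
    exact hd'
  -- the rest of `X` is closed
  have hR : G.Adm fr F (X \ (S ∪ I)) := by
    refine ⟨fun v hv => hX.sub (mem_sdiff.1 hv).1, fun d hd' hp => ?_⟩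
    obtain ⟨h1, h2⟩ := mem_sdiff.1 hp
    refine mem_sdiff.2 ⟨hX.clo d hd' h1, fun h3 => h2 ?_⟩
    have := hY.clo _ (hF.Fal d hd') h3
    rwa [G.al_al d (hF.Fsub hd')] at this
  have hRo : Odd (X \ (S ∪ I)).card ∨ (sx.Nonempty ∧ sx ⊆ X \ (S ∪ I)) := by
    rcases hodd with hXo | ⟨h1, h2⟩
    · left
      have h1 := card_sdiff_add_card_inter X (S ∪ I)
      have h2 : (X ∩ (S ∪ I)).card = A.card + B.card := by
        rw [inter_union_distrib_left, hA, hB, card_union_of_disjoint]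
        exact disjoint_of_subset_left inter_subset_right
          (disjoint_of_subset_right inter_subset_right hd)
      obtain ⟨k, hk⟩ := hXo
      exact ⟨k - A.card, by omega⟩
    · right
      refine ⟨h1, ?_⟩
      rcases hs with ⟨h3, -⟩ | ⟨h3, -⟩
      · exact fun v hv => mem_sdiff.2 ⟨h2 hv, fun h4 => disjoint_left.1 h3 h4 hv⟩
      · exfalso
        obtain ⟨v, hv⟩ := h1
        rw [card_eq_zero, eq_empty_iff_forall_notMem] at hBj
        have h4 := h.inst.sx_eq
        exact hBj v (mem_inter.2 ⟨(mB v).2 ⟨h2 hv, h3 hv⟩, h4 ▸ hv⟩)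
  obtain ⟨d, hdb, hdM⟩ := hhit (X \ (S ∪ I)) hR sdiff_disjoint hRo
  obtain ⟨h1, h2, h3⟩ := mem_bd.1 hdb
  obtain ⟨h4, h5⟩ := mem_sdiff.1 h2
  by_cases h6 : G.pi (G.al d) ∈ X
  · have h7 : G.pi (G.al d) ∈ S ∪ I := by
      by_contra hn
      exact h3 (mem_sdiff.2 ⟨h6, hn⟩)
    have hdF : d ∉ F := fun hh => h3 (hR.clo d hh h2)
    have haF : G.al d ∉ F := fun hh => by
      have := hF.Fal _ hh
      rw [G.al_al d h1] at this
      exact hdF this
    have haM : G.al d ∉ M := fun hh => by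
      have := hPM.closed _ hh
      rw [G.al_al d h1] at this
      exact hdM this
    rcases mem_union.1 h7 with h8 | h8
    · have h9 := hJ (G.al d) (G.al_mem d h1) haF h8
      rw [G.al_al d h1] at h9
      rcases h9 with h9 | h9
      · exact h5 (mem_union_right _ h9)
      · exact h9 (hX.sub h4)
    · have h9 : G.al d ∈ UI := by
        rw [hUI, mem_filter]
        exact ⟨G.al_mem d h1, haF, haM, (mB _).2 ⟨h6, h8⟩⟩
      have h10 := hIS _ h9
      rw [G.al_al d h1, hUS, mem_filter] at h10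
      exact h5 (mem_union_left _ ((mA _).1 h10.2.2.2).2)
  · exact hdM (hcl d (mem_bd.2 ⟨h1, h4, h6⟩))

/-- (P1*), star-free, with a colouring -/
theorem MCS.no_bip (h : G.MCS z t fr F ∅ ∅ ep m) {Y : Finset V} (hY : G.Adm fr F Y)
    (hne : Y.Nonempty) {c : V → Bool}
    (hcol : ∀ d ∈ F, G.pi d ∈ Y → c (G.pi (G.al d)) ≠ c (G.pi d))
    (hJ : ∀ d ∈ G.ds, d ∉ F → G.pi d ∈ Y → c (G.pi d) = true →
      G.pi (G.al d) ∉ fr ∨ (G.pi (G.al d) ∈ Y ∧ c (G.pi (G.al d)) = false)) : False := by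
  have hU : (Y.filter fun v => c v = true) ∪ (Y.filter fun v => c v = false) = Y := by
    ext v
    rw [mem_union, mem_filter, mem_filter]
    constructor
    · rintro (h1 | h1)
      · exact h1.1
      · exact h1.1
    · intro h1
      cases hc : c v with
      | true => exact Or.inl ⟨h1, rfl⟩
      | false => exact Or.inr ⟨h1, rfl⟩
  refine h.p1 (S := Y.filter fun v => c v = true) (I := Y.filter fun v => c v = false) ?_
    (by rw [hU]; exact hY) (by rw [hU]; exact hne)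
    (Or.inl ⟨disjoint_empty_right _, disjoint_empty_right _⟩) ?_ ?_ ?_
  · rw [disjoint_left]
    intro v hv hv'
    have h1 := (mem_filter.1 hv).2
    rw [(mem_filter.1 hv').2] at h1
    exact absurd h1 (by decide)
  · intro d hd hp
    obtain ⟨h1, h2⟩ := mem_filter.1 hp
    have h3 := hcol d hd h1
    rw [h2] at h3
    exact mem_filter.2 ⟨hY.clo d hd h1, Bool.eq_false_of_not_eq_true h3⟩
  · intro d hd hp
    obtain ⟨h1, h2⟩ := mem_filter.1 hp
    have h3 := hcol d hd h1
    rw [h2] at h3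
    exact mem_filter.2 ⟨hY.clo d hd h1, Bool.eq_true_of_not_eq_false h3⟩
  · intro d hd hdF hp
    obtain ⟨h1, h2⟩ := mem_filter.1 hp
    rcases hJ d hd hdF h1 h2 with h3 | ⟨h3, h4⟩
    · exact Or.inr h3
    · exact Or.inl (mem_filter.2 ⟨h3, h4⟩)

end MG

end RH
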