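import Pool.Agent.Lib.RH.Med

/-! Merging of two potentials (helper17, helper88): all certificates may be given the same zeros; the
set where two potentials differ (helper84, helper90, helper94); counts on a set of vertices. -/

set_option autoImplicit false

namespace RH

open Finset Classical

/-- merge: `p` where it is not zero, else `q` -/
noncomputable def mg {V : Type*} (p q : V → ℝ) (v : V) : ℝ := if p v = 0 then q v else p v

theorem mg_zero {V : Type*} {p q : V → ℝ} {v : V} (h : p v = 0) : mg p q v = q v := by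
  unfold mg
  rw [if_pos h]

theorem mg_ne {V : Type*} {p q : V → ℝ} {v : V} (h : p v ≠ 0) : mg p q v = p v := by
  unfold mg
  rw [if_neg h]

/-- zeros of a merge -/
theorem mg_eq_zero {V : Type*} {p q : V → ℝ} {v : V} : mg p q v = 0 ↔ p v = 0 ∧ q v = 0 := by
  by_cases h : p v = 0
  · rw [mg_zero h]
    exact ⟨fun k => ⟨h, k⟩, fun k => k.2⟩
  · rw [mg_ne h]
    exact ⟨fun k => absurd k h, fun k => k.1⟩

/-- values -1, 0, 1 -/
def Tri {V : Type*} (p : V → ℝ) : Prop := ∀ v, p v = -1 ∨ p v = 0 ∨ p v = 1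

theorem Tri.le {V : Type*} {p : V → ℝ} (h : Tri p) (v : V) : p v ≤ 1 := by
  rcases h v with h | h | h <;> rw [h] <;> norm_num

theorem Tri.ge {V : Type*} {p : V → ℝ} (h : Tri p) (v : V) : -1 ≤ p v := by
  rcases h v with h | h | h <;> rw [h] <;> norm_num

theorem Tri.neg {V : Type*} {p : V → ℝ} (h : Tri p) {v : V} (h0 : p v < 0) : p v = -1 := by
  rcases h v with h | h | h
  · exact h
  · rw [h] at h0
    exact absurd h0 (lt_irrefl _)
  · rw [h] at h0
    norm_num at h0

theorem Tri.mg {V : Type*} {p q : V → ℝ} (hp : Tri p) (hq : Tri q) : Tri (mg p q) := by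
  intro v
  by_cases h : p v = 0
  · rw [mg_zero h]
    exact hq v
  · rw [mg_ne h]
    exact hp v

theorem Tri.med {V : Type*} {p q r : V → ℝ} (hp : Tri p) (hq : Tri q) (hr : Tri r) :
    Tri fun v => med (p v) (q v) (r v) := by
  intro v
  rcases med_mem (p v) (q v) (r v) with h | h | h
  · have := hp v
    rwa [← h] at this
  · have := hq v
    rwa [← h] at this
  · have := hr v
    rwa [← h] at this

namespace MG

variable {V D : Type*} {G : MG V D} {z : D → ℝ} {t : V → ℝ} {fr : Finset V}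
variable {F K M E E1 E2 : Finset D} {X : Finset V} {p q : V → ℝ}

/-- **MERGE**: `q` may be put on the zeros of `p`, if no exceptional dart of `q` is at a zero -/
theorem Pot.mg (hp : G.Pot z t K E1 p) (hq : G.Pot z t K E2 q) (h1 : Tri p) (h2 : Tri q)
    (hE : ∀ d ∈ E2, p (G.pi d) ≠ 0) : G.Pot z t K E1 (mg p q) where
  tok v hv ht := by
    have h := hp.tok v hv ht
    rw [mg_ne (by rw [h]; norm_num), h]
  jq d hd hz hK hE1 := by
    have h3 := hp.jq d hd hz hK hE1
    by_cases h4 : p (G.pi d) = 0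
    · have h5 : p (G.pi (G.al d)) = 0 := by linarith
      rw [mg_zero h4, mg_zero h5]
      exact hq.jq d hd hz hK fun h6 => hE d h6 h4
    · have h5 : p (G.pi (G.al d)) ≠ 0 := fun h6 => h4 (by linarith)
      rw [mg_ne h4, mg_ne h5, h3]
  kk d hd := by
    have h3 := hp.kk d hd
    by_cases h4 : p (G.pi d) = 0
    · rw [mg_zero h4]
      by_cases h5 : p (G.pi (G.al d)) = 0
      · rw [mg_zero h5]
        exact hq.kk d hd
      · rw [mg_ne h5]
        have h6 : p (G.pi (G.al d)) < 0 := lt_of_le_of_ne (by linarith) h5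
        rw [h1.neg h6]
        linarith [h2.le (G.pi d)]
    · rw [mg_ne h4]
      by_cases h5 : p (G.pi (G.al d)) = 0
      · rw [mg_zero h5]
        have h6 : p (G.pi d) < 0 := lt_of_le_of_ne (by linarith) h4
        rw [h1.neg h6]
        linarith [h2.le (G.pi (G.al d))]
      · rw [mg_ne h5]
        exact h3
  ee d hd := by
    have h3 := hp.ee d hd
    have h4 := h1.le (G.pi d)
    have h5 := h1.le (G.pi (G.al d))
    have h6 : p (G.pi d) = 1 := by linarith
    have h7 : p (G.pi (G.al d)) = 1 := by linarith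
    rw [mg_ne (by rw [h6]; norm_num), mg_ne (by rw [h7]; norm_num), h3]
  Ksub := hp.Ksub
  Esub := hp.Esub

/-- an exceptional dart of `q` at a token vertex is not at a zero of `p`, at neither end -/
theorem Pot.ne_zero (hp : G.Pot z t K E1 p) (hq : G.Pot z t K E2 q) (h1 : Tri p) {d : D}
    (hd : d ∈ E2) (hz : 0 < z d) (ht : t (G.pi d) ≠ 0 ∨ t (G.pi (G.al d)) ≠ 0) :
    p (G.pi d) ≠ 0 ∧ p (G.pi (G.al d)) ≠ 0 := by
  have hds := hq.Esub hd
  by_cases h2 : d ∈ E1
  · have h3 := hp.ee d h2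
    have h4 := h1.le (G.pi d)
    have h5 := h1.le (G.pi (G.al d))
    exact ⟨fun k => by linarith, fun k => by linarith⟩
  · have h3 := hp.jq d hds hz (hq.dis hd) h2
    rcases ht with ht | ht
    · have h4 := hp.tok _ (G.pi_mem d hds) ht
      exact ⟨fun k => by linarith, fun k => by linarith⟩
    · have h4 := hp.tok _ (G.pi_mem _ (G.al_mem d hds)) ht
      exact ⟨fun k => by linarith, fun k => by linarith⟩

/-! ### two potentials with the same zeros -/

/-- the set where they differ -/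
noncomputable def dif (G : MG V D) (p q : V → ℝ) : Finset V := G.vs.filter fun v => p v ≠ q v

theorem mem_dif {v : V} : v ∈ G.dif p q ↔ v ∈ G.vs ∧ p v ≠ q v := by
  unfold dif
  rw [mem_filter]

theorem dif_sub : G.dif p q ⊆ G.vs := filter_subset _ _

theorem dif_opp (h1 : Tri p) (h2 : Tri q) (h0 : ∀ v, p v = 0 ↔ q v = 0) {v : V}
    (hv : p v ≠ q v) : q v = -p v ∧ (p v = 1 ∨ p v = -1) := by
  rcases h1 v with a | a | a
  · rcases h2 v with b | b | b
    · exact absurd (a.trans b.symm) hv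
    · have := (h0 v).2 b
      rw [a] at this
      norm_num at this
    · rw [a, b]
      norm_num
  · exact absurd (a.trans ((h0 v).1 a).symm) hv
  · rcases h2 v with b | b | b
    · rw [a, b]
      norm_num
    · have := (h0 v).2 b
      rw [a] at this
      norm_num at this
    · exact absurd (a.trans b.symm) hv

/-- no tokens in `dif` -/
theorem dif_tok (hp : G.Pot z t K E1 p) (hq : G.Pot z t K E2 q) {v : V} (hv : v ∈ G.dif p q) :
    t v = 0 := by
  obtain ⟨h1, h2⟩ := mem_dif.1 hv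
  by_contra h3
  exact h2 ((hp.tok v h1 h3).trans (hq.tok v h1 h3).symm)

/-- J- and Q-darts do not leave `dif` -/
theorem dif_jq (hp : G.Pot z t K E1 p) (hq : G.Pot z t K E2 q) {d : D} (hd : d ∈ G.ds)
    (hz : 0 < z d) (hK : d ∉ K) (h1 : d ∉ E1) (h2 : d ∉ E2) :
    G.pi d ∈ G.dif p q ↔ G.pi (G.al d) ∈ G.dif p q := by
  have a1 := hp.jq d hd hz hK h1
  have a2 := hq.jq d hd hz hK h2
  rw [mem_dif, mem_dif]
  constructor
  · rintro ⟨-, h⟩
    exact ⟨G.pi_mem _ (G.al_mem d hd), fun h' => h (by linarith)⟩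
  · rintro ⟨-, h⟩
    exact ⟨G.pi_mem d hd, fun h' => h (by linarith)⟩

/-- the exceptional darts cross `dif` -/
theorem dif_ee (hp : G.Pot z t K E1 p) (hq : G.Pot z t K E2 q) (t1 : Tri p) (t2 : Tri q)
    (h0 : ∀ v, p v = 0 ↔ q v = 0) {d : D} (hd : d ∈ E1) (hz : 0 < z d) (h2 : d ∉ E2) :
    G.pi d ∈ G.dif p q ↔ G.pi (G.al d) ∉ G.dif p q := by
  have hds := hp.Esub hd
  have a1 := hp.ee d hd
  have a2 := hq.jq d hds hz (hp.dis hd) h2
  have a3 : p (G.pi d) = 1 := by linarith [t1.le (G.pi d), t1.le (G.pi (G.al d))]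
  have a4 : p (G.pi (G.al d)) = 1 := by linarith [t1.le (G.pi d), t1.le (G.pi (G.al d))]
  have a5 : q (G.pi d) ≠ 0 := fun h => by
    have := (h0 _).2 h
    rw [a3] at this
    norm_num at this
  rw [mem_dif, mem_dif, a3, a4]
  constructor
  · rintro ⟨-, h⟩ ⟨-, h'⟩
    rcases t2 (G.pi d) with b | b | b
    · exact h' (by linarith)
    · exact a5 b
    · exact h b.symm
  · intro h
    refine ⟨G.pi_mem d hds, fun h' => h ⟨G.pi_mem _ (G.al_mem d hds), fun h'' => ?_⟩⟩
    rw [← h', ← h''] at a2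
    norm_num at a2

/-- F-darts and allowed darts inside `dif` have sum 0 -/
theorem dif_kin (hp : G.Pot z t K E1 p) (hq : G.Pot z t K E2 q) (t1 : Tri p) (t2 : Tri q)
    (h0 : ∀ v, p v = 0 ↔ q v = 0) {d : D} (hd : d ∈ K) (h1 : G.pi d ∈ G.dif p q)
    (h2 : G.pi (G.al d) ∈ G.dif p q) : p (G.pi d) + p (G.pi (G.al d)) = 0 := by
  have a1 := (dif_opp t1 t2 h0 (mem_dif.1 h1).2).1
  have a2 := (dif_opp t1 t2 h0 (mem_dif.1 h2).2).1
  have a3 := hp.kk d hd
  have a4 := hq.kk d hd
  rw [a1, a2] at a4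
  linarith

/-- the outer end of an F-dart or allowed dart leaving `dif` is in `S` of both -/
theorem dif_kout (hp : G.Pot z t K E1 p) (hq : G.Pot z t K E2 q) (t1 : Tri p) (t2 : Tri q)
    (h0 : ∀ v, p v = 0 ↔ q v = 0) {d : D} (hd : d ∈ K) (h1 : G.pi d ∈ G.dif p q)
    (h2 : G.pi (G.al d) ∉ G.dif p q) :
    p (G.pi (G.al d)) = -1 ∧ q (G.pi (G.al d)) = -1 := by
  obtain ⟨a1, a2⟩ := dif_opp t1 t2 h0 (mem_dif.1 h1).2
  have a3 := hp.kk d hd
  have a4 := hq.kk d hd
  have a5 : p (G.pi (G.al d)) = q (G.pi (G.al d)) := by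
    by_contra h
    exact h2 (mem_dif.2 ⟨G.pi_mem _ (G.al_mem d (hp.Ksub hd)), h⟩)
  rw [← a5, a1] at a4
  rw [← a5]
  rcases a2 with b | b
  · rw [b] at a3
    have := t1.ge (G.pi (G.al d))
    exact ⟨by linarith, by linarith⟩
  · rw [b] at a4
    have := t1.ge (G.pi (G.al d))
    exact ⟨by linarith, by linarith⟩

/-- no dart of `K` joins `dif` to a zero -/
theorem dif_zero (hp : G.Pot z t K E1 p) (hq : G.Pot z t K E2 q) (t1 : Tri p) (t2 : Tri q)
    (h0 : ∀ v, p v = 0 ↔ q v = 0) {d : D} (hd : d ∈ K) (h1 : G.pi d ∈ G.dif p q) :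
    p (G.pi (G.al d)) ≠ 0 := by
  intro h
  have h2 : G.pi (G.al d) ∉ G.dif p q := fun k => (mem_dif.1 k).2 (h.trans ((h0 _).1 h).symm)
  have h3 := (dif_kout hp hq t1 t2 h0 hd h1 h2).1
  rw [h] at h3
  norm_num at h3

/-! ### counts on a set -/

/-- **weighted count** on `X`: the darts inside `X` have sum 0 -/
theorem Wt.cnt (hw : G.Wt z t) (hX : X ⊆ G.vs)
    (h : ∀ d ∈ G.ds, G.pi d ∈ X → G.pi (G.al d) ∈ X → z d * (p (G.pi d) + p (G.pi (G.al d))) = 0) :
    3 * ∑ v ∈ X, p v = ∑ d ∈ G.bd X, z d * p (G.pi d) + ∑ v ∈ X, t v * p v := by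
  have h1 : ∑ v ∈ X, p v * (∑ d ∈ G.st v, z d + t v) = 3 * ∑ v ∈ X, p v := by
    rw [mul_sum]
    refine sum_congr rfl fun v hv => ?_
    rw [hw.deg v (hX hv)]
    ring
  have h2 : ∑ v ∈ X, p v * (∑ d ∈ G.st v, z d + t v) =
      ∑ d ∈ G.ds.filter (fun d => G.pi d ∈ X), z d * p (G.pi d) + ∑ v ∈ X, t v * p v := by
    have h4 : ∑ v ∈ X, p v * ∑ d ∈ G.st v, z d =
        ∑ d ∈ G.ds.filter (fun d => G.pi d ∈ X), z d * p (G.pi d) := by
      rw [← sum_fiberwise_of_maps_to (s := G.ds.filter fun d => G.pi d ∈ X) (t := X) (g := G.pi)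
        (fun d hd => (mem_filter.1 hd).2)]
      refine sum_congr rfl fun v hv => ?_
      rw [mul_sum]
      refine sum_congr ?_ fun d hd => ?_
      · ext d
        unfold st
        rw [mem_filter, mem_filter, mem_filter]
        constructor
        · rintro ⟨a, b⟩
          exact ⟨⟨a, b ▸ hv⟩, b⟩
        · rintro ⟨⟨a, -⟩, b⟩
          exact ⟨a, b⟩
      · rw [(mem_filter.1 hd).2]
        ring
    rw [← h4, ← sum_add_distrib]
    exact sum_congr rfl fun v _ => by ring
  have h5 : G.ds.filter (fun d => G.pi d ∈ X) = G.bd X ∪ G.ed X X := by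
    ext d
    unfold bd ed
    rw [mem_union, mem_filter, mem_filter, mem_filter]
    tauto
  have h6 : Disjoint (G.bd X) (G.ed X X) := by
    rw [disjoint_left]
    intro d a b
    unfold bd at a
    unfold ed at b
    exact (mem_filter.1 a).2.2 (mem_filter.1 b).2.2
  have h7 := sum_symm (G := G) (S := G.ed X X) (z := z) (filter_subset _ _) (fun d hd => by
    unfold ed at hd ⊢
    obtain ⟨a, b, c⟩ := mem_filter.1 hd
    refine mem_filter.2 ⟨G.al_mem d a, c, ?_⟩
    rw [G.al_al d a]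
    exact b) (fun d hd => hw.sym d (mem_filter.1 hd).1) p
  have h8 : ∑ d ∈ G.ed X X, z d * (p (G.pi d) + p (G.pi (G.al d))) = 0 := by
    refine sum_eq_zero fun d hd => ?_
    unfold ed at hd
    obtain ⟨a, b, c⟩ := mem_filter.1 hd
    exact h d a b c
  rw [h5, sum_union h6] at h2
  linarith

/-- **count of a perfect matching** on `X` -/
theorem IsPM.cnt (hM : G.IsPM M) (hX : X ⊆ G.vs)
    (h : ∀ d ∈ M, G.pi d ∈ X → G.pi (G.al d) ∈ X → p (G.pi d) + p (G.pi (G.al d)) = 0) :
    ∑ v ∈ X, p v = ∑ d ∈ M.filter (fun d => d ∈ G.bd X), p (G.pi d) := by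
  have h1 : ∑ v ∈ X, p v = ∑ d ∈ M.filter (fun d => G.pi d ∈ X), p (G.pi d) := by
    rw [← sum_fiberwise_of_maps_to (s := M.filter fun d => G.pi d ∈ X) (t := X) (g := G.pi)
      (fun d hd => (mem_filter.1 hd).2)]
    refine sum_congr rfl fun v hv => ?_
    obtain ⟨x, hx⟩ := card_eq_one.1 (hM.one v (hX hv))
    have hx' : G.pi x = v := by
      have : x ∈ M.filter fun d => G.pi d = v := by rw [hx]; exact mem_singleton_self x
      exact (mem_filter.1 this).2
    have : ((M.filter fun d => G.pi d ∈ X).filter fun d => G.pi d = v) = {x} := by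
      rw [← hx]
      ext d
      rw [mem_filter, mem_filter, mem_filter]
      constructor
      · rintro ⟨⟨a, -⟩, b⟩
        exact ⟨a, b⟩
      · rintro ⟨a, b⟩
        exact ⟨⟨a, b ▸ hv⟩, b⟩
    rw [this, sum_singleton, hx']
  have h5 : M.filter (fun d => G.pi d ∈ X) =
      M.filter (fun d => d ∈ G.bd X) ∪ M.filter (fun d => d ∈ G.ed X X) := by
    ext d
    unfold bd ed
    simp only [mem_union, mem_filter]
    constructor
    · rintro ⟨a, b⟩
      by_cases c : G.pi (G.al d) ∈ X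
      · exact Or.inr ⟨a, hM.sub a, b, c⟩
      · exact Or.inl ⟨a, hM.sub a, b, c⟩
    · rintro (⟨a, -, b, -⟩ | ⟨a, -, b, -⟩) <;> exact ⟨a, b⟩
  have h6 : Disjoint (M.filter fun d => d ∈ G.bd X) (M.filter fun d => d ∈ G.ed X X) := by
    rw [disjoint_left]
    intro d a b
    have a' := (mem_filter.1 a).2
    have b' := (mem_filter.1 b).2
    unfold bd at a'
    unfold ed at b'
    exact (mem_filter.1 a').2.2 (mem_filter.1 b').2.2
  have h7 := sum_symm (G := G) (S := M.filter fun d => d ∈ G.ed X X) (z := fun _ => 1)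
    (fun d hd => hM.sub (mem_filter.1 hd).1) (fun d hd => by
      obtain ⟨a, b⟩ := mem_filter.1 hd
      unfold ed at b ⊢
      obtain ⟨c, e, f⟩ := mem_filter.1 b
      refine mem_filter.2 ⟨hM.closed d a, mem_filter.2 ⟨G.al_mem d c, f, ?_⟩⟩
      rw [G.al_al d c]
      exact e) (fun _ _ => rfl) p
  have h8 : ∑ d ∈ M.filter (fun d => d ∈ G.ed X X), 1 * (p (G.pi d) + p (G.pi (G.al d))) = 0 := by
    refine sum_eq_zero fun d hd => ?_
    obtain ⟨a, b⟩ := mem_filter.1 hd
    unfold ed at b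
    obtain ⟨c, e, f⟩ := mem_filter.1 b
    rw [one_mul]
    exact h d a e f
  rw [h8] at h7
  simp only [one_mul] at h7
  rw [h1, h5, sum_union h6]
  linarith

/-! ### common zeros for a family -/

/-- **COMMON ZEROS**: certificates for finitely many legs, every exceptional dart at a vertex which is
not a zero of any of them, can be replaced by certificates with the same zeros. -/
theorem common_zeros {ι : Type*} [Fintype ι] {E : ι → Finset D} {p : ι → V → ℝ}
    (h : ∀ i, G.Pot z t K (E i) (p i)) (ht : ∀ i, Tri (p i))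
    (hE : ∀ i j, ∀ d ∈ E j, p i (G.pi d) ≠ 0) :
    ∃ q : ι → V → ℝ, (∀ i, G.Pot z t K (E i) (q i)) ∧ (∀ i, Tri (q i)) ∧
      (∀ i v, q i v = 0 ↔ ∀ j, p j v = 0) ∧ ∀ i v, p i v ≠ 0 → q i v = p i v := by
  have key : ∀ S : Finset ι, ∀ i, ∃ q : V → ℝ, G.Pot z t K (E i) q ∧ Tri q ∧
      (∀ v, q v = 0 ↔ p i v = 0 ∧ ∀ j ∈ S, p j v = 0) ∧ ∀ v, p i v ≠ 0 → q v = p i v := by
    intro S i
    induction S using Finset.induction_on with
    | empty => exact ⟨p i, h i, ht i, fun v => ⟨fun k => ⟨k, fun j hj => absurd hj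
        (notMem_empty j)⟩, fun k => k.1⟩, fun _ _ => rfl⟩
    | insert a S _ ih =>
      obtain ⟨q, h1, h2, h3, h4⟩ := ih
      refine ⟨RH.mg q (p a), h1.mg (h a) h2 (ht a) ?_, h2.mg (ht a), ?_, ?_⟩
      · intro d hd k
        exact hE i a d hd ((h3 _).1 k).1
      · intro v
        rw [mg_eq_zero, h3 v]
        constructor
        · rintro ⟨⟨k1, k2⟩, k3⟩
          refine ⟨k1, fun j hj => ?_⟩
          rcases mem_insert.1 hj with rfl | hj
          · exact k3
          · exact k2 j hj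
        · rintro ⟨k1, k2⟩
          exact ⟨⟨k1, fun j hj => k2 j (mem_insert_of_mem hj)⟩, k2 a (mem_insert_self a S)⟩
      · intro v hv
        have k1 := h4 v hv
        rw [mg_ne (by rw [k1]; exact hv), k1]
  choose q hq using fun i => key univ i
  refine ⟨q, fun i => (hq i).1, fun i => (hq i).2.1, fun i v => ?_, fun i => (hq i).2.2.2⟩
  rw [(hq i).2.2.1 v]
  exact ⟨fun k j => k.2 j (mem_univ j), fun k => ⟨k i, fun j _ => k j⟩⟩

end MG

end RH
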