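import Pool.Agent.Lib.RH.St6U

/-! STUCK STATES with at most 6 tokens (helper87): fewer fresh vertices than a minimal
counterexample, no good matching. A stuck state has exactly 6 tokens, cannot be lowered, and a tight
set without crossing F-edges can be contracted (glue above 6). `MStk P`: a smallest stuck state in a
class `P` of states. -/

set_option autoImplicit false

namespace RH

open Finset Classical

namespace MG

variable {V D : Type*}

/-- a stuck state -/
structure Stk (G : MG V D) (z : D → ℝ) (t : V → ℝ) (fr : Finset V) (F : Finset D)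
    (jm : Finset V) (ep : V → ℕ) (m a : ℕ) : Prop
    extends StkU G z t fr F jm ep m a where
  tau : ∑ v ∈ G.vs, t v ≤ 6

/-- a class of states -/
abbrev Cls (V D : Type*) : Type _ :=
  MG V D → (D → ℝ) → (V → ℝ) → Finset V → Finset D → Finset V → (V → ℕ) → Prop

/-- a smallest stuck state of the class `P`: fewest vertices, then fewest fresh vertices -/
structure MStk (P : Cls V D) (G : MG V D) (z : D → ℝ) (t : V → ℝ) (fr : Finset V) (F : Finset D)
    (jm : Finset V) (ep : V → ℕ) (m a : ℕ) : Prop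
    extends Stk G z t fr F jm ep m a where
  cls : P G z t fr F jm ep
  min : ∀ (G' : MG V D) (z' : D → ℝ) (t' : V → ℝ) (fr' : Finset V) (F' : Finset D)
    (jm' : Finset V) (ep' : V → ℕ), P G' z' t' fr' F' jm' ep' → Stk G' z' t' fr' F' jm' ep' m a →
      G.vs.card < G'.vs.card ∨ (G.vs.card = G'.vs.card ∧ fr.card ≤ fr'.card)

variable {G : MG V D} {z z' : D → ℝ} {t t' : V → ℝ} {fr fr' : Finset V} {F : Finset D}
variable {jm sx : Finset V} {ep : V → ℕ} {m a : ℕ} {M : Finset D} {W : Finset V} {P : Cls V D}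

/-- the first stuck state of a minimal counterexample -/
theorem MCS.stk (h : G.MCS z t fr F jm sx ep m) (hs : IsStepT G z fr F jm sx z' t' fr')
    (h6 : ∑ v ∈ G.vs, t' v ≤ 6) :
    Stk G z' t' fr' (F.filter fun d => G.pi d ∈ fr') (jm ∩ fr') ep m fr.card :=
  ⟨h.stkU hs, h6⟩

theorem StkU.toStk (h : StkU G z t fr F jm ep m a) (h6 : ∑ v ∈ G.vs, t v ≤ 6) :
    Stk G z t fr F jm ep m a :=
  ⟨h, h6⟩

/-- exactly 6 tokens (otherwise the induction hypothesis) -/
theorem Stk.tau_eq (h : Stk G z t fr F jm ep m a) : ∑ v ∈ G.vs, t v = 6 :=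
  le_antisymm h.tau h.toStkU.tau_ge

/-- another weight in the support -/
theorem Stk.alt (h : Stk G z t fr F jm ep m a) (hw : G.Wt z' t')
    (hs : ∀ d ∈ G.ds, 0 < z' d → 0 < z d) (hu : ∀ d ∈ G.ds, G.pi d ∈ fr → z' d = 1)
    (h6 : ∑ v ∈ G.vs, t' v ≤ 6) : Stk G z' t' fr F jm ep m a :=
  ⟨h.toStkU.alt hw hs hu, h6⟩

/-- a step from a stuck state: new weights and absorbed classes together (walk steps, kills) -/
theorem Stk.step (h : Stk G z t fr F jm ep m a) (hw : G.Wt z' t')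
    (hs : ∀ d ∈ G.ds, 0 < z' d → 0 < z d) (hsub : fr' ⊆ fr)
    (hcl : ∀ d ∈ F, G.pi d ∈ fr' → G.pi (G.al d) ∈ fr')
    (hj : jm ⊆ fr' ∨ Disjoint jm fr')
    (hk : ∀ X, G.Adm fr F X → Even (X ∩ jm).card → ¬ X ⊆ fr' → ∃ d ∈ G.bd X, z' d = 0)
    (hu : ∀ d ∈ G.ds, G.pi d ∈ fr' → z' d = 1) (h6 : ∑ v ∈ G.vs, t' v ≤ 6) :
    Stk G z' t' fr' (F.filter fun d => G.pi d ∈ fr') (jm ∩ fr') ep m a :=
  ⟨h.toStkU.step hw hs hsub hcl hj hk hu, h6⟩

/-- classes which are linked to `Q` by a dead edge are absorbed (the star is kept or disappears) -/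
theorem Stk.absorb (h : Stk G z t fr F jm ep m a) (hsub : fr' ⊆ fr)
    (hcl : ∀ d ∈ F, G.pi d ∈ fr' → G.pi (G.al d) ∈ fr')
    (hj : jm ⊆ fr' ∨ Disjoint jm fr')
    (hk : ∀ X, G.Adm fr F X → Even (X ∩ jm).card → ¬ X ⊆ fr' → ∃ d ∈ G.bd X, z d = 0) :
    Stk G z t fr' (F.filter fun d => G.pi d ∈ fr') (jm ∩ fr') ep m a :=
  h.step h.wt (fun _ _ h1 => h1) hsub hcl hj hk (fun d hd hp => h.unit d hd (hsub hp)) h.tau

/-- no direction lowers the number of tokens -/
theorem Stk.no_dir (h : Stk G z t fr F jm ep m a) {x : D → ℝ} {b : V → ℝ}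
    (hsym : ∀ d ∈ G.ds, x (G.al d) = x d)
    (hdeg : ∀ v ∈ G.vs, ∑ d ∈ G.st v, x d + b v = 0)
    (hfr : ∀ d ∈ G.ds, G.pi d ∈ fr → x d = 0)
    (hz : ∀ d ∈ G.ds, z d = 0 → x d = 0)
    (hb : ∀ v ∈ G.vs, t v = 0 → 0 ≤ b v)
    (hcut : ∀ X ⊆ G.vs, Odd X.card → G.val z t X = 3 → ∑ d ∈ G.ed X X, x d ≤ 0) :
    0 ≤ ∑ v ∈ G.vs, b v := by
  by_contra hneg
  rw [not_le] at hneg
  obtain ⟨ε, hε, H⟩ := h.wt.pert x b hsym hdeg (fun d hd h0 => (hz d hd h0).ge) hb
    (fun X hX ho h3 => by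
      rw [pert_val x b hdeg hX]
      have := hcut X hX ho h3
      linarith)
  have hW := H ε hε.le le_rfl
  have hU := h.toStkU.alt hW (fun d hd hp => by
    rcases (h.wt.z0 d hd).lt_or_eq with h1 | h1
    · exact h1
    · exfalso
      have h2 := hz d hd h1.symm
      simp only [h2, ← h1, mul_zero, add_zero, lt_irrefl] at hp) (fun d hd hp => by
    show z d + ε * x d = 1
    rw [hfr d hd hp, mul_zero, add_zero]
    exact h.unit d hd hp)
  have h1 := hU.tau_ge
  rw [Finset.sum_add_distrib, ← Finset.mul_sum] at h1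
  have h2 := mul_neg_of_pos_of_neg hε hneg
  have h3 := h.tau
  linarith

/-- CONTRACTION (glue above 6): the outer side of a tight set without crossing F-edges is stuck.
`fr1` = the largest union outside `W` (outside `W` and the star if the star is not outside `W`) -/
theorem Stk.con (h : Stk G z t fr F jm ep m a) (hW : W ⊆ G.vs) (hWo : Odd W.card)
    (h3 : G.val z t W = 3)
    (hFW : ∀ d ∈ F, G.pi d ∈ W → G.pi (G.al d) ∈ W) {ω : V} (hω : ω ∈ W) :
    ∃ fr1, fr1 ⊆ fr \ W ∧ (∀ d ∈ F, G.pi d ∈ fr1 → G.pi (G.al d) ∈ fr1) ∧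
      ((jm ⊆ G.vs \ W → jm ⊆ fr1) ∧ (¬ jm ⊆ G.vs \ W → Disjoint jm fr1)) ∧
      (∀ X, G.Adm fr F X → Disjoint X W → (Disjoint X jm ∨ jm ⊆ G.vs \ W) → X ⊆ fr1) ∧
      Stk (G.con W ω hω hW) z (tcon t W ω) fr1
        (F.filter fun d => G.pi d ∈ fr1) (jm ∩ fr1) ep m a := by
  obtain ⟨fr1, h1, h2, h4, h5, h6⟩ := h.toStkU.con hW hWo h3 hFW hω
  refine ⟨fr1, h1, h2, h4, h5, h6, ?_⟩
  rw [con_tau hω hW]
  exact h.tau

/-- smallest stuck states of a class exist -/
theorem Stk.exists_min (h : Stk G z t fr F jm ep m a) (hP : P G z t fr F jm ep) :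
    ∃ (G' : MG V D) (z' : D → ℝ) (t' : V → ℝ) (fr' : Finset V) (F' : Finset D)
      (jm' : Finset V) (ep' : V → ℕ), MStk P G' z' t' fr' F' jm' ep' m a := by
  have key : ∀ n : ℕ, ∀ k : ℕ, ∀ (G : MG V D) (z : D → ℝ) (t : V → ℝ) (fr : Finset V)
      (F : Finset D) (jm : Finset V) (ep : V → ℕ), P G z t fr F jm ep →
      Stk G z t fr F jm ep m a → G.vs.card ≤ n → fr.card ≤ k →
      ∃ (G' : MG V D) (z' : D → ℝ) (t' : V → ℝ) (fr' : Finset V) (F' : Finset D)
        (jm' : Finset V) (ep' : V → ℕ), MStk P G' z' t' fr' F' jm' ep' m a := by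
    intro n
    induction n using Nat.strong_induction_on with
    | _ n ihn =>
      intro k
      induction k using Nat.strong_induction_on with
      | _ k ihk =>
        intro G z t fr F jm ep hP h hn hk
        by_cases hmin : ∀ (G' : MG V D) (z' : D → ℝ) (t' : V → ℝ) (fr' : Finset V)
            (F' : Finset D) (jm' : Finset V) (ep' : V → ℕ), P G' z' t' fr' F' jm' ep' →
            Stk G' z' t' fr' F' jm' ep' m a →
              G.vs.card < G'.vs.card ∨ (G.vs.card = G'.vs.card ∧ fr.card ≤ fr'.card)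
        · exact ⟨G, z, t, fr, F, jm, ep, h, hP, hmin⟩
        · push Not at hmin
          obtain ⟨G', z', t', fr', F', jm', ep', hP', h', h1, h2⟩ := hmin
          rcases lt_or_eq_of_le h1 with h3 | h3
          · exact ihn G'.vs.card (h3.trans_le hn) fr'.card G' z' t' fr' F' jm' ep' hP' h'
              le_rfl le_rfl
          · exact ihk fr'.card ((h2 h3.symm).trans_le hk) G' z' t' fr' F' jm' ep' hP' h'
              (h3.le.trans hn) le_rfl
  exact key _ _ G z t fr F jm ep hP h le_rfl le_rfl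

/-- a smallest stuck state of a class which is closed under the contraction of `W`: every tight set
`W` is crossed by a fresh circuit -/
theorem MStk.no_tight (h : MStk P G z t fr F jm ep m a) (hW : W ⊆ G.vs) (hWo : Odd W.card)
    (h3 : G.val z t W = 3) (hc1 : 3 ≤ W.card)
    (hP : ∀ (ω : V) (hω : ω ∈ W) (fr1 : Finset V), fr1 ⊆ fr \ W →
      (∀ d ∈ F, G.pi d ∈ fr1 → G.pi (G.al d) ∈ fr1) →
      ((jm ⊆ G.vs \ W → jm ⊆ fr1) ∧ (¬ jm ⊆ G.vs \ W → Disjoint jm fr1)) →
      (∀ X, G.Adm fr F X → Disjoint X W → (Disjoint X jm ∨ jm ⊆ G.vs \ W) → X ⊆ fr1) →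
      Stk (G.con W ω hω hW) z (tcon t W ω) fr1 (F.filter fun d => G.pi d ∈ fr1) (jm ∩ fr1)
        ep m a →
      P (G.con W ω hω hW) z (tcon t W ω) fr1 (F.filter fun d => G.pi d ∈ fr1) (jm ∩ fr1) ep) :
    ∃ d ∈ F, G.pi d ∈ W ∧ G.pi (G.al d) ∉ W := by
  by_contra hno
  push Not at hno
  obtain ⟨ω, hω⟩ : W.Nonempty := card_pos.1 (by omega)
  obtain ⟨fr1, h1, h2, h4, h5, h6⟩ := h.toStk.con hW hWo h3 hno hω
  have h7 := hP ω hω fr1 h1 h2 h4 h5 h6
  have h8 := h.min _ _ _ _ _ _ _ h7 h6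
  have h9 : (G.con W ω hω hW).vs.card ≤ (G.vs \ W).card + 1 := by
    have h10 : (G.con W ω hω hW).vs = (G.vs \ W) ∪ {ω} := rfl
    rw [h10]
    exact (card_union_le _ _).trans (by rw [card_singleton])
  have h10 := card_sdiff_add_card_eq_card hW
  omega

/-- a smallest stuck state cannot absorb anything (inside the class) -/
theorem MStk.no_absorb (h : MStk P G z t fr F jm ep m a)
    (h' : Stk G z' t' fr' (F.filter fun d => G.pi d ∈ fr') (jm ∩ fr') ep m a)
    (hP : P G z' t' fr' (F.filter fun d => G.pi d ∈ fr') (jm ∩ fr') ep) :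
    fr.card ≤ fr'.card := by
  rcases h.min _ _ _ _ _ _ _ hP h' with h1 | ⟨-, h1⟩
  · exact absurd h1 (lt_irrefl _)
  · exact h1

/-- if all unions are even and there is no star then there is no perfect matching in the support -/
theorem StkU.no_pm (h : StkU G z t fr F ∅ ep m a)
    (hev : ∀ X, G.Adm fr F X → Even X.card) :
    ¬ ∃ M, G.IsPM M ∧ ∀ d ∈ M, 0 < z d := by
  rintro ⟨M, hM, hp⟩
  refine h.bad ⟨M, hM, hp, fun X hX ho => ?_⟩
  rcases ho with ho | ⟨h1, -⟩
  · exact absurd (hev X hX) (Nat.not_even_iff_odd.2 ho)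
  · exact absurd h1 not_nonempty_empty

end MG

end RH
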