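import Pool.Agent.Lib.RH.Sps
import Pool.Agent.Lib.RH.St6
import Pool.Agent.Lib.RH.Res

/-! STRICT STATES WITH 6 TOKENS (helper50). All weights are 1 (no dead edges), odd sets have value at
least 5, even sets at least 4, there is no good matching. `S6.step`: a step in suppressed form gives a
smaller state, or it is blocked by an odd set of value 5 or an even set of value 4. -/

set_option autoImplicit false

namespace RH

open Finset Classical

namespace MG

variable {V D : Type*}

/-- all weights are 1 -/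
def one1 (_d : D) : ℝ := 1

/-- virtual ports: one at every vertex of the star -/
noncomputable def epi (jm : Finset V) (v : V) : ℕ := if v ∈ jm then 1 else 0

/-- a strict state with 6 tokens without good matching; every instance with less than 6 tokens and
fewer than `a` fresh vertices is solved -/
structure S6 (G : MG V D) (t : V → ℝ) (fr : Finset V) (F : Finset D) (jm : Finset V) (a : ℕ) :
    Prop where
  even : Even G.vs.card
  fresh : G.FrS one1 fr F jm
  jm2 : jm = ∅ ∨ jm.card = 2
  deg : ∀ v ∈ G.vs, ((G.st v).card : ℝ) + t v = 3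
  t0 : ∀ v ∈ G.vs, 0 ≤ t v
  tau : ∑ v ∈ G.vs, t v = 6
  odd : ∀ X ⊆ G.vs, Odd X.card → X.card ≠ 1 → 5 ≤ G.val one1 t X
  evn : ∀ X ⊆ G.vs, Even X.card → X.Nonempty → X ≠ G.vs → 4 ≤ G.val one1 t X
  ha : fr.card < a
  ih : IHa a 0 V D
  bad : ¬ ∃ M, G.GoodS one1 fr F jm M

/-- linking: the classes with a vertex in `S` are absorbed, and the star, if it cannot be kept -/
theorem exists_link (G : MG V D) (fr : Finset V) (F : Finset D) (jm S : Finset V)
    (h2 : jm = ∅ ∨ jm.card = 2) :
    ∃ fr' ⊆ fr, (∀ d ∈ F, G.pi d ∈ fr' → G.pi (G.al d) ∈ fr') ∧ Disjoint fr' S ∧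
      (jm ⊆ fr' ∨ Disjoint jm fr') ∧
      (∀ X, G.Adm fr F X → Even (X ∩ jm).card → ¬ X ⊆ fr' → (X ∩ S).Nonempty) ∧
      (∀ X, G.Adm fr F X → Disjoint X S → Disjoint X jm → X ⊆ fr') := by
  by_cases hc : ∃ X, G.Adm fr F X ∧ jm ⊆ X ∧ Disjoint X S
  · obtain ⟨X0, hX0, hj0, hd0⟩ := hc
    obtain ⟨fr', h1, h3, h4, h5⟩ := exists_avoid G fr F S
    have hin : ∀ X, G.Adm fr F X → Disjoint X S → X ⊆ fr' := fun X hX hd =>
      ((h5 X).2 ⟨hX, hd⟩).sub
    refine ⟨fr', h1, h3, h4, Or.inl (hj0.trans (hin X0 hX0 hd0)), ?_, fun X hX hd _ => hin X hX hd⟩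
    intro X hX _ hn
    rw [nonempty_iff_ne_empty]
    intro h6
    exact hn (hin X hX (disjoint_iff_inter_eq_empty.2 h6))
  · obtain ⟨fr', h1, h3, h4, h5⟩ := exists_avoid G fr F (S ∪ jm)
    rw [disjoint_union_right] at h4
    have hin : ∀ X, G.Adm fr F X → Disjoint X S → Disjoint X jm → X ⊆ fr' := fun X hX hd hd' =>
      ((h5 X).2 ⟨hX, disjoint_union_right.2 ⟨hd, hd'⟩⟩).sub
    refine ⟨fr', h1, h3, h4.1, Or.inr h4.2.symm, ?_, hin⟩
    intro X hX he hn
    rw [nonempty_iff_ne_empty]
    intro h6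
    have h7 := disjoint_iff_inter_eq_empty.2 h6
    by_cases h8 : Disjoint X jm
    · exact hn (hin X hX h7 h8)
    · obtain ⟨v, hv, hvj⟩ := not_disjoint_iff.1 h8
      have h9 : 0 < (X ∩ jm).card := card_pos.2 ⟨v, mem_inter.2 ⟨hv, hvj⟩⟩
      have h10 : jm.card = 2 := by
        rcases h2 with h2 | h2
        · rw [h2] at hvj
          exact absurd hvj (notMem_empty _)
        · exact h2
      have h11 : (X ∩ jm).card ≤ jm.card := card_le_card inter_subset_right
      rw [Nat.even_iff] at he
      have h12 : X ∩ jm = jm := eq_of_subset_of_card_le inter_subset_right (by omega)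
      exact hc ⟨X, hX, inter_eq_right.1 h12, h7⟩

variable {G : MG V D} {z : D → ℝ} {t : V → ℝ} {fr fr' : Finset V}
variable {F : Finset D} {jm : Finset V} {a k : ℕ} {X : Finset V}

theorem val_one (G : MG V D) (t : V → ℝ) (X : Finset V) :
    G.val one1 t X = (G.bd X).card + ∑ v ∈ X, t v := by
  unfold val one1
  rw [sum_const, nsmul_eq_mul, mul_one]

namespace S6

theorem wt (h : S6 G t fr F jm a) : G.Wt one1 t where
  z0 := fun _ _ => zero_le_one
  t0 := h.t0
  sym := fun _ _ => rfl
  deg := fun v hv => by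
    have h1 := h.deg v hv
    have h2 : ∑ d ∈ G.st v, one1 d = (G.st v).card := by
      unfold one1
      rw [sum_const, nsmul_eq_mul, mul_one]
    rw [h2]
    exact h1
  cut := fun X hX ho => by
    by_cases h1 : X.card = 1
    · obtain ⟨v, rfl⟩ := card_eq_one.1 h1
      have h2 : G.val one1 t {v} = 3 := by
        have hv := hX (mem_singleton_self v)
        rw [val_one, sum_singleton, ← h.deg v hv]
        congr 2
        congr 1
        ext d
        rw [mem_bd, mem_st, mem_singleton, mem_singleton]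
        constructor
        · rintro ⟨k1, k2, _⟩
          exact ⟨k1, k2⟩
        · rintro ⟨k1, k2⟩
          exact ⟨k1, k2, fun k3 => G.noloop d k1 (k3.trans k2.symm)⟩
      rw [h2]
    · linarith [h.odd X hX ho h1]

/-- tokens are natural numbers, at most 3 -/
theorem tnat (h : S6 G t fr F jm a) {v : V} (hv : v ∈ G.vs) :
    ∃ n : ℕ, t v = n ∧ (G.st v).card + n = 3 := by
  have h1 := h.deg v hv
  have h2 := h.t0 v hv
  have h3 : (G.st v).card ≤ 3 := by
    have : ((G.st v).card : ℝ) ≤ (3 : ℕ) := by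
      push_cast
      linarith
    exact_mod_cast this
  refine ⟨3 - (G.st v).card, ?_, by omega⟩
  rw [Nat.cast_sub h3]
  push_cast
  linarith

theorem st_card (h : S6 G t fr F jm a) {v : V} (hv : v ∈ G.vs) {n : ℕ} (ht : t v = n) :
    (G.st v).card + n = 3 := by
  have h1 := h.deg v hv
  rw [ht] at h1
  exact_mod_cast h1

/-- values in terms of the number of inner darts -/
theorem val_eq (h : S6 G t fr F jm a) (hX : X ⊆ G.vs) :
    G.val one1 t X = 3 * X.card - (G.ed X X).card := by
  rw [h.wt.val_eq hX]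
  congr 1
  unfold one1
  rw [sum_const, nsmul_eq_mul, mul_one]

theorem ed_even (G : MG V D) (X : Finset V) : Even (G.ed X X).card := by
  have h1 : ∑ _d ∈ G.ed X X, (1 : ZMod 2) = 0 := by
    refine sum_involution (fun d _ => G.al d) ?_ ?_ ?_ ?_
    · intro d _
      decide
    · intro d hd _ he
      exact G.noloop d (mem_ed.1 hd).1 (by rw [he])
    · intro d hd
      obtain ⟨k1, k2, k3⟩ := mem_ed.1 hd
      exact mem_ed.2 ⟨G.al_mem d k1, k3, by rw [G.al_al d k1]; exact k2⟩
    · intro d hd
      exact G.al_al d (mem_ed.1 hd).1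
  rw [sum_const, nsmul_eq_mul, mul_one] at h1
  rwa [ZMod.natCast_eq_zero_iff_even] at h1

/-- the value is a natural number of the parity of the set -/
theorem val_nat (h : S6 G t fr F jm a) (hX : X ⊆ G.vs) :
    ∃ n : ℕ, G.val one1 t X = n ∧ n % 2 = X.card % 2 := by
  have h1 := h.val_eq hX
  obtain ⟨r, hr⟩ := ed_even G X
  have h2 := h.wt.val_nonneg hX
  have h3 : (G.ed X X).card ≤ 3 * X.card := by
    have : ((G.ed X X).card : ℝ) ≤ ((3 * X.card : ℕ) : ℝ) := by
      push_cast
      linarith
    exact_mod_cast this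
  refine ⟨3 * X.card - (G.ed X X).card, ?_, by omega⟩
  rw [h1, Nat.cast_sub h3]
  push_cast
  ring

/-- an odd set (not a vertex) has value 5 or at least 7 -/
theorem odd_or (h : S6 G t fr F jm a) (hX : X ⊆ G.vs) (ho : Odd X.card) (h1 : X.card ≠ 1) :
    G.val one1 t X = 5 ∨ 7 ≤ G.val one1 t X := by
  obtain ⟨n, hn, hp⟩ := h.val_nat hX
  have h5 := h.odd X hX ho h1
  rw [hn] at h5 ⊢
  have h6 : 5 ≤ n := by exact_mod_cast h5
  rw [Nat.odd_iff] at ho
  rcases Nat.lt_or_ge n 7 with h7 | h7
  · left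
    have : n = 5 := by omega
    rw [this]
    norm_num
  · right
    exact_mod_cast h7

/-- an even set has value 4 or at least 6 -/
theorem evn_or (h : S6 G t fr F jm a) (hX : X ⊆ G.vs) (ho : Even X.card) (h1 : X.Nonempty)
    (h2 : X ≠ G.vs) : G.val one1 t X = 4 ∨ 6 ≤ G.val one1 t X := by
  obtain ⟨n, hn, hp⟩ := h.val_nat hX
  have h5 := h.evn X hX ho h1 h2
  rw [hn] at h5 ⊢
  have h6 : 4 ≤ n := by exact_mod_cast h5
  rw [Nat.even_iff] at ho
  rcases Nat.lt_or_ge n 6 with h7 | h7
  · left
    have : n = 4 := by omega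
    rw [this]
    norm_num
  · right
    exact_mod_cast h7

/-- tokens at the fresh vertices -/
theorem tok_fr (h : S6 G t fr F jm a) {v : V} (hv : v ∈ fr) : t v = if v ∈ jm then 1 else 0 := by
  split_ifs with h1
  · exact h.fresh.t_jm h.wt h1
  · exact h.fresh.t_not_jm h.wt hv h1

theorem sum_tok_fr (h : S6 G t fr F jm a) (hX : X ⊆ fr) :
    ∑ v ∈ X, t v = ((X ∩ jm).card : ℝ) := by
  rw [sum_congr rfl fun v hv => h.tok_fr (hX hv), ← sum_filter, sum_const, nsmul_eq_mul, mul_one]
  congr 2

/-- there are at least 4 tokens outside `fr`, so `fr` is not everything -/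
theorem fr_ne (h : S6 G t fr F jm a) (hX : X ⊆ fr) : X ≠ G.vs := by
  intro e
  have h1 := h.sum_tok_fr hX
  rw [e, h.tau] at h1
  have h2 : (G.vs ∩ jm).card ≤ jm.card := card_le_card inter_subset_right
  have h3 : jm.card ≤ 2 := by
    rcases h.jm2 with h3 | h3
    · rw [h3, card_empty]
      omega
    · exact h3.le
  have h4 : ((G.vs ∩ jm).card : ℝ) ≤ 2 := by exact_mod_cast h2.trans h3
  linarith

/-- the combinatorial part of the instance -/
theorem toC (h : S6 G t fr F jm a) : G.InstC fr F jm (epi jm) 0 where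
  even := h.even
  fresh := h.fresh
  cc := fun X hX ho => by
    have hXv : X ⊆ G.vs := hX.sub.trans h.fresh.fsub
    have h1 : X.card ≠ 1 := by
      intro e
      obtain ⟨v, rfl⟩ := card_eq_one.1 e
      have hv := hX.sub (mem_singleton_self v)
      have h2 := h.fresh.two v hv
      obtain ⟨d, hd⟩ := card_pos.1 (by rw [h2]; norm_num : 0 < (F.filter fun d => G.pi d = v).card)
      obtain ⟨h3, h4⟩ := mem_filter.1 hd
      have h5 := hX.clo d h3 (by rw [h4]; exact mem_singleton_self v)
      exact G.noloop d (h.fresh.Fsub h3) (by rw [mem_singleton.1 h5, h4])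
    have h2 := h.odd X hXv ho h1
    rw [val_one, h.sum_tok_fr hX.sub] at h2
    have h3 : ∑ v ∈ X, epi jm v = (X ∩ jm).card := by
      unfold epi
      rw [← sum_filter, sum_const, smul_eq_mul, mul_one]
      congr 1
    rw [h3]
    exact_mod_cast h2
  ev := fun _ _ _ _ => Nat.zero_le _
  jm2 := h.jm2
  b0 := fun X hX he hn hj => by
    have hXv : X ⊆ G.vs := hX.sub.trans h.fresh.fsub
    have h2 := h.evn X hXv he (hn.mono hj) (h.fr_ne hX.sub)
    rw [val_one, h.sum_tok_fr hX.sub] at h2
    have h3 : (X ∩ jm).card ≤ 2 := by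
      refine (card_le_card inter_subset_right).trans ?_
      rcases h.jm2 with h3 | h3
      · rw [h3, card_empty]
        omega
      · exact h3.le
    have h4 : 4 ≤ (G.bd X).card + (X ∩ jm).card := by exact_mod_cast h2
    omega
  epj := fun v _ => le_of_eq rfl

/-- the stuck state -/
theorem stk (h : S6 G t fr F jm a) : Stk G one1 t fr F jm (epi jm) 0 a where
  comb := h.toC
  wt := h.wt
  unit := fun _ _ _ => rfl
  ha := h.ha
  ih := h.ih
  bad := h.bad
  tau := h.tau.le

/-- no double edges -/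
theorem simple (h : S6 G t fr F jm a) {d e : D} (hd : d ∈ G.ds) (he : e ∈ G.ds)
    (h1 : G.pi d = G.pi e) (h2 : G.pi (G.al d) = G.pi (G.al e)) : d = e := by
  by_contra hne
  have hne2 := G.noloop d hd
  obtain ⟨X, hX⟩ : ∃ X : Finset V, X = {G.pi d, G.pi (G.al d)} := ⟨_, rfl⟩
  have hXc : X.card = 2 := by
    rw [hX, card_pair fun e' => hne2 e'.symm]
  have hXv : X ⊆ G.vs := by
    rw [hX]
    intro v hv
    rw [mem_insert, mem_singleton] at hv
    rcases hv with rfl | rfl
    · exact G.pi_mem d hd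
    · exact G.pi_mem _ (G.al_mem d hd)
  have m1 : ∀ x ∈ G.ds, (G.pi x = G.pi d ∧ G.pi (G.al x) = G.pi (G.al d)) ∨
      (G.pi x = G.pi (G.al d) ∧ G.pi (G.al x) = G.pi d) → x ∈ G.ed X X := by
    rintro x hx (⟨k1, k2⟩ | ⟨k1, k2⟩)
    · rw [mem_ed, hX, k1, k2]
      exact ⟨hx, mem_insert_self _ _, mem_insert_of_mem (mem_singleton_self _)⟩
    · rw [mem_ed, hX, k1, k2]
      exact ⟨hx, mem_insert_of_mem (mem_singleton_self _), mem_insert_self _ _⟩
  have h4 : 4 ≤ (G.ed X X).card := by
    have n1 : d ≠ G.al d := fun e' => hne2 (by rw [← e'])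
    have n2 : e ≠ G.al e := fun e' => G.noloop e he (by rw [← e'])
    have n3 : d ≠ G.al e := fun e' => by
      have := congrArg G.pi e'
      rw [← h2] at this
      exact hne2 this.symm
    have n4 : G.al d ≠ e := fun e' => by
      have := congrArg G.pi e'
      rw [← h1] at this
      exact hne2 this
    have n5 : G.al d ≠ G.al e := fun e' => hne (by
      rw [← G.al_al d hd, e', G.al_al e he])
    have n6 : ({d, G.al d, e, G.al e} : Finset D).card = 4 := by
      rw [card_insert_of_notMem (by simp [n1, hne, n3]),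
        card_insert_of_notMem (by simp [n4, n5]), card_pair n2]
    rw [← n6]
    refine card_le_card fun x hx => ?_
    simp only [mem_insert, mem_singleton] at hx
    rcases hx with rfl | rfl | rfl | rfl
    · exact m1 _ hd (Or.inl ⟨rfl, rfl⟩)
    · exact m1 _ (G.al_mem _ hd) (Or.inr ⟨rfl, by rw [G.al_al _ hd]⟩)
    · exact m1 _ he (Or.inl ⟨h1.symm, h2.symm⟩)
    · exact m1 _ (G.al_mem _ he) (Or.inr ⟨h2.symm, by rw [G.al_al _ he, ← h1]⟩)
  have h5 := h.val_eq hXv
  rw [hXc] at h5
  have h6 : ((4 : ℕ) : ℝ) ≤ (G.ed X X).card := by exact_mod_cast h4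
  push_cast at h5 h6
  by_cases h7 : X = G.vs
  · have h8 : G.val one1 t X = 6 := by
      rw [val_one, h7]
      have : G.bd G.vs = ∅ := by
        rw [eq_empty_iff_forall_notMem]
        intro x hx
        obtain ⟨k1, _, k3⟩ := mem_bd.1 hx
        exact k3 (G.pi_mem _ (G.al_mem x k1))
      rw [this, card_empty, h.tau]
      norm_num
    linarith
  · have h8 := h.evn X hXv (by rw [hXc]; exact even_two)
      (card_pos.1 (by rw [hXc]; norm_num)) h7
    linarith

/-- no triangles -/
theorem no_tri (h : S6 G t fr F jm a) {d e f : D} (hd : d ∈ G.ds) (he : e ∈ G.ds) (hf : f ∈ G.ds)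
    (h1 : G.pi e = G.pi (G.al d)) (h2 : G.pi f = G.pi (G.al e)) (h3 : G.pi d = G.pi (G.al f)) :
    False := by
  have n1 := G.noloop d hd
  have n2 := G.noloop e he
  have n3 := G.noloop f hf
  rw [← h1] at n1
  rw [← h2] at n2
  rw [← h3] at n3
  obtain ⟨X, hX⟩ : ∃ X : Finset V, X = {G.pi d, G.pi e, G.pi f} := ⟨_, rfl⟩
  have hXc : X.card = 3 := by
    rw [hX, card_insert_of_notMem (by
      rw [mem_insert, mem_singleton, not_or]
      exact ⟨fun k => n1 k.symm, n3⟩), card_pair fun k => n2 k.symm]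
  have hXv : X ⊆ G.vs := by
    rw [hX]
    intro v hv
    simp only [mem_insert, mem_singleton] at hv
    rcases hv with rfl | rfl | rfl
    · exact G.pi_mem _ hd
    · exact G.pi_mem _ he
    · exact G.pi_mem _ hf
  have mx : G.pi d ∈ X ∧ G.pi e ∈ X ∧ G.pi f ∈ X := by
    rw [hX]
    simp
  have h4 : 6 ≤ (G.ed X X).card := by
    have key : ({d, G.al d, e, G.al e, f, G.al f} : Finset D).card = 6 := by
      have k1 : d ≠ G.al d := fun k => n1 (by rw [h1, ← k])
      have k2 : d ≠ e := fun k => n1 (by rw [← k])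
      have k3 : d ≠ G.al e := fun k => n3 (by
        have := congrArg G.pi k
        rw [← h2] at this
        exact this)
      have k4 : d ≠ f := fun k => n3 (by rw [k])
      have k5 : d ≠ G.al f := fun k => by
        have k6 : G.al d = f := by rw [k, G.al_al f hf]
        have := congrArg G.pi k6
        rw [← h1] at this
        exact n2 this.symm
      have k6 : G.al d ≠ e := fun k => by
        have k7 : d = G.al e := by rw [← k, G.al_al d hd]
        exact k3 k7
      have k7 : G.al d ≠ G.al e := fun k => k2 (by rw [← G.al_al d hd, k, G.al_al e he])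
      have k8 : G.al d ≠ f := fun k => k5 (by rw [← k, G.al_al d hd])
      have k9 : G.al d ≠ G.al f := fun k => k4 (by rw [← G.al_al d hd, k, G.al_al f hf])
      have k10 : e ≠ G.al e := fun k => G.noloop e he (by rw [← k])
      have k11 : e ≠ f := fun k => n2 (by rw [← k])
      have k12 : e ≠ G.al f := fun k => n1 (by
        have := congrArg G.pi k
        rw [← h3] at this
        exact this)
      have k13 : G.al e ≠ f := fun k => k12 (by rw [← k, G.al_al e he])
      have k14 : G.al e ≠ G.al f := fun k => k11 (by rw [← G.al_al e he, k, G.al_al f hf])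
      have k15 : f ≠ G.al f := fun k => G.noloop f hf (by rw [← k])
      rw [card_insert_of_notMem (by simp [k1, k2, k3, k4, k5]),
        card_insert_of_notMem (by simp [k6, k7, k8, k9]),
        card_insert_of_notMem (by simp [k10, k11, k12]),
        card_insert_of_notMem (by simp [k13, k14]), card_pair k15]
    rw [← key]
    refine card_le_card fun x hx => ?_
    simp only [mem_insert, mem_singleton] at hx
    rcases hx with rfl | rfl | rfl | rfl | rfl | rfl
    · exact mem_ed.2 ⟨hd, mx.1, by rw [← h1]; exact mx.2.1⟩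
    · exact mem_ed.2 ⟨G.al_mem _ hd, by rw [← h1]; exact mx.2.1, by rw [G.al_al _ hd]; exact mx.1⟩
    · exact mem_ed.2 ⟨he, mx.2.1, by rw [← h2]; exact mx.2.2⟩
    · exact mem_ed.2 ⟨G.al_mem _ he, by rw [← h2]; exact mx.2.2,
        by rw [G.al_al _ he]; exact mx.2.1⟩
    · exact mem_ed.2 ⟨hf, mx.2.2, by rw [← h3]; exact mx.1⟩
    · exact mem_ed.2 ⟨G.al_mem _ hf, by rw [← h3]; exact mx.1, by rw [G.al_al _ hf]; exact mx.2.2⟩
  have h5 := h.val_eq hXv
  have h6 : ((6 : ℕ) : ℝ) ≤ (G.ed X X).card := by exact_mod_cast h4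
  have h7 := h.odd X hXv (by rw [hXc]; decide) (by rw [hXc]; norm_num)
  rw [hXc] at h5
  push_cast at h5 h6
  linarith

end S6

end MG

end RH
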