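import Pool.Agent.Lib.RH.SCapA
import Pool.Agent.Lib.RH.MOpt
import Pool.Agent.Lib.RH.SCap0

/-! Tight sets of a minimal counterexample without star: the list is `Dig` and `Cap`. -/

set_option autoImplicit false

namespace RH

open Finset Classical

namespace MG

variable {V D : Type*}

/-- as `Cap`, but `a` may have support edges to `b` -/
structure CapW (G : MG V D) (z : D → ℝ) (t : V → ℝ) (fr W : Finset V) (u a b : V) : Prop where
  uf : u ∈ fr
  af : a ∉ fr
  bf : b ∉ fr
  ab : a ≠ b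
  U : G.vs \ W = {u, a, b}
  ua : ∃ d ∈ G.ds, G.pi d = u ∧ G.pi (G.al d) = a
  ub : ∀ d ∈ G.ds, G.pi d = u → G.pi (G.al d) ≠ b
  nb : ∀ d ∈ G.ds, G.pi d = a → z d ≠ 0 → G.pi (G.al d) = u ∨ G.pi (G.al d) = b
  tb : 2 * t b = ∑ v ∈ G.vs, t v

variable {G : MG V D} {z : D → ℝ} {t : V → ℝ} {fr : Finset V} {F : Finset D} {jm sx : Finset V}
variable {ep : V → ℕ} {m : ℕ} {W Y Z A X : Finset V} {f j : D} {S : Finset D}
variable {g1 g2 : D} {M : Finset D}

/-- all edges inside `W` touch `p` -/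
theorem ed_center {a : D → ℝ} {p : V} (hs : ∀ d ∈ G.ds, a (G.al d) = a d) (hp : p ∈ W)
    (h2 : ∀ d ∈ G.ds, G.pi d ∈ W → G.pi (G.al d) ∈ W → G.pi d ≠ p → G.pi (G.al d) ≠ p → a d = 0) :
    ∑ d ∈ G.ed W W, a d = 2 * ∑ d ∈ G.ed {p} W, a d := by
  have e1 : ∑ d ∈ G.ed {p} W, a d = ∑ d ∈ G.ds, if G.pi d = p ∧ G.pi (G.al d) ∈ W then a d else 0 := by
    unfold ed
    rw [sum_filter]
    refine sum_congr rfl fun d _ => if_congr ?_ rfl rfl
    rw [mem_singleton]
  have e2 := sum_al' (G := G) fun d => if G.pi d = p ∧ G.pi (G.al d) ∈ W then a d else 0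
  have e3 : ∑ d ∈ G.ed W W, a d = ∑ d ∈ G.ds,
      ((if G.pi d = p ∧ G.pi (G.al d) ∈ W then a d else 0) +
        if G.pi (G.al d) = p ∧ G.pi (G.al (G.al d)) ∈ W then a (G.al d) else 0) := by
    unfold ed
    rw [sum_filter]
    refine sum_congr rfl fun d hd => ?_
    have hne := G.noloop d hd
    rw [G.al_al d hd, hs d hd]
    by_cases c1 : G.pi d = p
    · have c2 : G.pi (G.al d) ≠ p := fun h => hne (h.trans c1.symm)
      have c4 : ¬ (G.pi (G.al d) = p ∧ G.pi d ∈ W) := fun h => c2 h.1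
      rw [if_neg c4, add_zero]
      refine if_congr ?_ rfl rfl
      constructor
      · exact fun h => ⟨c1, h.2⟩
      · exact fun h => ⟨c1 ▸ hp, h.2⟩
    · have c4 : ¬ (G.pi d = p ∧ G.pi (G.al d) ∈ W) := fun h => c1 h.1
      rw [if_neg c4, zero_add]
      by_cases c2 : G.pi (G.al d) = p
      · refine if_congr ?_ rfl rfl
        constructor
        · exact fun h => ⟨c2, h.1⟩
        · exact fun h => ⟨h.2, c2 ▸ hp⟩
      · have c5 : ¬ (G.pi (G.al d) = p ∧ G.pi d ∈ W) := fun h => c2 h.1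
        rw [if_neg c5]
        by_cases c3 : G.pi d ∈ W ∧ G.pi (G.al d) ∈ W
        · rw [if_pos c3]
          exact h2 d hd c3.1 c3.2 c1 c2
        · rw [if_neg c3]
  rw [e3, sum_add_distrib, e2, e1]
  ring

/-- a unit dart in the rest of the boundary is the only one -/
theorem FC.unit_only (hc : G.FC F W g1 g2) (hF : G.FrS z fr F jm) (hw : G.Wt z t)
    (h3 : G.val z t W = 3) (hj : j ∈ G.bd W) (hjF : j ∉ F) (hzj : z j = 1) {d : D}
    (hd : d ∈ G.bd W) (hdF : d ∉ F) (hne : d ≠ j) : z d = 0 := by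
  have hjrd : j ∈ rd G F W := mem_filter.2 ⟨hj, hjF⟩
  have hthird := hc.third hF h3
  change ∑ d ∈ rd G F W, z d + _ = 1 at hthird
  have hadd := add_sum_erase (rd G F W) z hjrd
  have hn2 : 0 ≤ ∑ v ∈ W, t v := sum_nonneg fun v hv => hw.t0 v (hc.hW hv)
  have h5 := single_le_sum (f := z) (s := (rd G F W).erase j)
    (fun d hd => hw.z0 d (mem_bd.1 (mem_filter.1 (mem_erase.1 hd).2).1).1)
    (mem_erase.2 ⟨hne, mem_filter.2 ⟨hd, hdF⟩⟩)
  have h7 := hw.z0 d (mem_bd.1 hd).1
  linarith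

/-- the smallest tight sets -/
theorem MCS.dig_of (h : G.MCS z t fr F ∅ ∅ ep 0) (hc : G.FC F W g1 g2)
    (h3 : G.val z t W = 3) (hWc : W.card = 3) (hf : (fr ∩ W).card ≤ 1) :
    ∃ x p q, G.Dig z t fr W x p q := by
  have hF := h.inst.fresh
  have hw := h.inst.wt
  have hW := hc.hW
  have hg1d := hF.Fsub hc.f1
  have hg2d := hF.Fsub hc.f2
  rw [card_le_one] at hf
  obtain ⟨x, hx⟩ : ∃ x, x = G.pi g1 := ⟨_, rfl⟩
  have hxW : x ∈ W := hx ▸ hc.w1
  have hxf : x ∈ fr := hx ▸ hF.Ffr g1 hc.f1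
  have hxi : x ∈ fr ∩ W := mem_inter.2 ⟨hxf, hxW⟩
  have e2 : G.pi g2 = x := hf _ (mem_inter.2 ⟨hF.Ffr g2 hc.f2, hc.w2⟩) _ hxi
  have huniq : ∀ v ∈ W, v ≠ x → v ∉ fr := fun v hv hne h1 =>
    hne (hf v (mem_inter.2 ⟨h1, hv⟩) x hxi)
  obtain ⟨j, hjd, hjx, hjF, -⟩ := hF.exists_jd hxf (notMem_empty _)
  have hzj := hF.unit j hjd (hjx ▸ hxf)
  have hall := hF.at_fresh hxf (notMem_empty _) hc.f1 hc.f2 hc.ne hx.symm e2 hjd hjx hjF
  by_cases hJ : G.pi (G.al j) ∈ W
  · have hpx : G.pi (G.al j) ≠ x := fun h1 => G.noloop j hjd (h1.trans hjx.symm)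
    obtain ⟨p, hp⟩ : ∃ p, p = G.pi (G.al j) := ⟨_, rfl⟩
    rw [← hp] at hJ hpx
    have hc1 : ((W.erase x).erase p).card = 1 := by
      rw [card_erase_of_mem (mem_erase.2 ⟨hpx, hJ⟩), card_erase_of_mem hxW, hWc]
    obtain ⟨q, hq⟩ := card_eq_one.1 hc1
    have hqm : q ∈ (W.erase x).erase p := by rw [hq]; exact mem_singleton_self q
    obtain ⟨hqp, hq2⟩ := mem_erase.1 hqm
    obtain ⟨hqx, hqW⟩ := mem_erase.1 hq2
    have hWe : W = {x, p, q} := by
      rw [← insert_erase hxW, ← insert_erase (mem_erase.2 ⟨hpx, hJ⟩), hq]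
    have hxq : ∀ d ∈ G.ds, G.pi d = x → G.pi (G.al d) ≠ q := by
      intro d hd hpd h1
      rcases hall d hd hpd with k | k | k
      · exact hc.u1 (by rw [← k, h1]; exact hqW)
      · exact hc.u2 (by rw [← k, h1]; exact hqW)
      · exact hqp (by rw [← h1, k, hp])
    have h5 := hw.val_eq hW
    rw [h3, hWc] at h5
    have h6 : ∑ d ∈ G.ed W W, z d = 2 * ∑ d ∈ G.ed {p} W, z d := by
      refine ed_center hw.sym hJ ?_
      intro d hd h1 h2 h3 h4
      exfalso
      rw [hWe, mem_insert, mem_insert, mem_singleton] at h1 h2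
      have hne := G.noloop d hd
      have haa := G.al_al d hd
      have had := G.al_mem d hd
      rcases h1 with h1 | h1 | h1
      · rcases h2 with h2 | h2 | h2
        · exact hne (h2.trans h1.symm)
        · exact h4 h2
        · exact hxq d hd h1 h2
      · exact h3 h1
      · rcases h2 with h2 | h2 | h2
        · exact hxq (G.al d) had h2 (by rw [haa]; exact h1)
        · exact h4 h2
        · exact hne (h2.trans h1.symm)
    have h7 : ∑ d ∈ G.ed {p} W, z d = 3 := by
      push_cast at h5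
      linarith
    have h8 := hw.deg p (hW hJ)
    have h9 := hw.t0 p (hW hJ)
    have h10 : G.ed {p} W ⊆ G.st p := by
      intro d hd
      obtain ⟨k1, k2, -⟩ := mem_ed.1 hd
      exact mem_st.2 ⟨k1, mem_singleton.1 k2⟩
    have h11 := sum_le_sum_of_subset_of_nonneg (f := z) h10
      (fun d hd _ => hw.z0 d (mem_st.1 hd).1)
    refine ⟨x, p, q, hxf, huniq p hJ hpx, huniq q hqW hqx, Ne.symm hqp, hWe,
      ⟨j, hjd, hjx, hp.symm⟩, hxq, ?_, by linarith⟩
    intro d hd hpd hz
    have h12 : G.pi (G.al d) ∈ W := by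
      by_contra hn
      have h13 : insert d (G.ed {p} W) ⊆ G.st p :=
        insert_subset (mem_st.2 ⟨hd, hpd⟩) h10
      have h14 := sum_le_sum_of_subset_of_nonneg (f := z) h13
        (fun d hd _ => hw.z0 d (mem_st.1 hd).1)
      rw [sum_insert fun h15 => hn (mem_ed.1 h15).2.2] at h14
      have h15 := hw.z0 d hd
      exact hz (by linarith)
    rw [hWe, mem_insert, mem_insert, mem_singleton] at h12
    rcases h12 with k | k | k
    · exact Or.inl k
    · exact absurd (k.trans hpd.symm) (G.noloop d hd)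
    · exact Or.inr k
  · exfalso
    have hjb : j ∈ G.bd W := mem_bd.2 ⟨hjd, hjx ▸ hxW, hJ⟩
    have hne : (W.erase x).Nonempty := by
      rw [← card_pos, card_erase_of_mem hxW, hWc]
      norm_num
    obtain ⟨d, hd, hz⟩ := h.conn ((erase_subset _ _).trans hW) hne (by
      intro h1
      have h2 : G.pi (G.al g1) ∈ W.erase x := by
        rw [h1]
        exact G.pi_mem _ (G.al_mem g1 hg1d)
      exact hc.u1 (mem_erase.1 h2).2)
    obtain ⟨d1, d2, d3⟩ := mem_bd.1 hd
    obtain ⟨d4, d5⟩ := mem_erase.1 d2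
    have d7 := G.al_mem d d1
    have d8 := G.al_al d d1
    by_cases d9 : G.pi (G.al d) = x
    · have key : ∀ e, G.al d = e → G.pi (G.al e) ∉ W → False := by
        intro e k k2
        rw [← k, d8] at k2
        exact k2 d5
      rcases hall _ d7 d9 with k | k | k
      · exact key g1 k hc.u1
      · exact key g2 k hc.u2
      · exact key j k hJ
    · have d10 : G.pi (G.al d) ∉ W := fun hn => d3 (mem_erase.2 ⟨d9, hn⟩)
      have d11 : d ∉ F := by
        intro k
        rcases hc.only d k d5 d10 with k | k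
        · exact d4 (k ▸ hx.symm)
        · exact d4 (k ▸ e2)
      refine hz (hc.unit_only hF hw h3 hjb hjF hzj (mem_bd.2 ⟨d1, d5, d10⟩) d11 ?_)
      rintro rfl
      exact d4 hjx

/-- the tight sets with the smallest complements -/
theorem MCS.cap_of (h : G.MCS z t fr F ∅ ∅ ep 0) (hc : G.FC F W g1 g2)
    (h3 : G.val z t W = 3) (hUc : (G.vs \ W).card = 3) (hf : (fr \ W).card ≤ 1) :
    ∃ u a b, G.CapW z t fr W u a b := by
  have hF := h.inst.fresh
  have hw := h.inst.wt
  have hW := hc.hW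
  have hg1d := hF.Fsub hc.f1
  have hg2d := hF.Fsub hc.f2
  have ha1 := G.al_al g1 hg1d
  have ha2 := G.al_al g2 hg2d
  rw [card_le_one] at hf
  obtain ⟨u, hu⟩ : ∃ u, u = G.pi (G.al g1) := ⟨_, rfl⟩
  have huW : u ∉ W := hu ▸ hc.u1
  have huf : u ∈ fr := hu ▸ hF.Ffr _ (hF.Fal g1 hc.f1)
  have hui : u ∈ fr \ W := mem_sdiff.2 ⟨huf, huW⟩
  have huU : u ∈ G.vs \ W := mem_sdiff.2 ⟨hF.fsub huf, huW⟩
  have e2 : G.pi (G.al g2) = u :=
    hf _ (mem_sdiff.2 ⟨hF.Ffr _ (hF.Fal g2 hc.f2), hc.u2⟩) _ hui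
  have huniq : ∀ v ∈ G.vs \ W, v ≠ u → v ∉ fr := fun v hv hne h1 =>
    hne (hf v (mem_sdiff.2 ⟨h1, (mem_sdiff.1 hv).2⟩) u hui)
  obtain ⟨j, hjd, hjx, hjF, -⟩ := hF.exists_jd huf (notMem_empty _)
  have hajd := G.al_mem j hjd
  have haj := G.al_al j hjd
  have hzj := hF.unit j hjd (hjx ▸ huf)
  have hall := hF.at_fresh huf (notMem_empty _) (hF.Fal g1 hc.f1) (hF.Fal g2 hc.f2)
    (fun h1 => hc.ne (by rw [← ha1, h1, ha2])) hu.symm e2 hjd hjx hjF
  by_cases hJ : G.pi (G.al j) ∈ W
  · exfalso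
    have hjb : G.al j ∈ G.bd W := mem_bd.2 ⟨hajd, hJ, by rw [haj, hjx]; exact huW⟩
    have hjF' : G.al j ∉ F := fun k => hjF (by rw [← haj]; exact hF.Fal _ k)
    have hzj' : z (G.al j) = 1 := by rw [hw.sym j hjd]; exact hzj
    have hne : ((G.vs \ W).erase u).Nonempty := by
      rw [← card_pos, card_erase_of_mem huU, hUc]
      norm_num
    obtain ⟨d, hd, hz⟩ := h.conn ((erase_subset _ _).trans sdiff_subset) hne (by
      intro h1
      have h2 : G.pi g1 ∈ (G.vs \ W).erase u := by rw [h1]; exact hW hc.w1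
      exact (mem_sdiff.1 (mem_erase.1 h2).2).2 hc.w1)
    obtain ⟨d1, d2, d3⟩ := mem_bd.1 hd
    obtain ⟨d4, d5⟩ := mem_erase.1 d2
    have d6 := (mem_sdiff.1 d5).2
    have d7 := G.al_mem d d1
    have d8 := G.al_al d d1
    by_cases d9 : G.pi (G.al d) = u
    · rcases hall _ d7 d9 with k | k | k
      · have k1 : d = g1 := by rw [← d8, k, ha1]
        exact d6 (k1 ▸ hc.w1)
      · have k1 : d = g2 := by rw [← d8, k, ha2]
        exact d6 (k1 ▸ hc.w2)
      · have k1 : d = G.al j := by rw [← d8, k]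
        exact d6 (k1 ▸ hJ)
    · have d10 : G.pi (G.al d) ∈ W := by
        by_contra hn
        exact d3 (mem_erase.2 ⟨d9, mem_sdiff.2 ⟨G.pi_mem _ d7, hn⟩⟩)
      have d11 : G.al d ∉ F := by
        intro k
        rcases hc.only _ k d10 (by rw [d8]; exact d6) with k | k
        · exact d4 (by rw [← d8, k]; exact hu.symm)
        · exact d4 (by rw [← d8, k]; exact e2)
      have d12 := hc.unit_only hF hw h3 hjb hjF' hzj'
        (mem_bd.2 ⟨d7, d10, by rw [d8]; exact d6⟩) d11 (by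
          intro k
          have k2 : d = j := by rw [← d8, k, haj]
          exact d4 (k2 ▸ hjx))
      rw [hw.sym d d1] at d12
      exact hz d12
  · have hau : G.pi (G.al j) ≠ u := fun h1 => G.noloop j hjd (h1.trans hjx.symm)
    obtain ⟨a, ha⟩ : ∃ a, a = G.pi (G.al j) := ⟨_, rfl⟩
    have haU : a ∈ G.vs \ W := by
      rw [ha]
      exact mem_sdiff.2 ⟨G.pi_mem _ hajd, hJ⟩
    rw [← ha] at hau
    have hc1 : (((G.vs \ W).erase u).erase a).card = 1 := by
      rw [card_erase_of_mem (mem_erase.2 ⟨hau, haU⟩), card_erase_of_mem huU, hUc]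
    obtain ⟨b, hb⟩ := card_eq_one.1 hc1
    have hbm : b ∈ ((G.vs \ W).erase u).erase a := by rw [hb]; exact mem_singleton_self b
    obtain ⟨hba, hb2⟩ := mem_erase.1 hbm
    obtain ⟨hbu, hbU⟩ := mem_erase.1 hb2
    have hUe : G.vs \ W = {u, a, b} := by
      rw [← insert_erase huU, ← insert_erase (mem_erase.2 ⟨hau, haU⟩), hb]
    have hub : ∀ d ∈ G.ds, G.pi d = u → G.pi (G.al d) ≠ b := by
      intro d hd hpd h1
      have hbW := (mem_sdiff.1 hbU).2
      rcases hall d hd hpd with k | k | k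
      · refine hbW ?_
        rw [← h1, k, ha1]
        exact hc.w1
      · refine hbW ?_
        rw [← h1, k, ha2]
        exact hc.w2
      · exact hba (by rw [← h1, k, ha])
    have hua : ({u, a} : Finset V) ⊆ G.vs := by
      intro v hv
      rw [mem_insert, mem_singleton] at hv
      rcases hv with rfl | rfl
      · exact hF.fsub huf
      · exact (mem_sdiff.1 haU).1
    have hdis : Disjoint W {u, a} := by
      rw [disjoint_left]
      intro v hv hv2
      rw [mem_insert, mem_singleton] at hv2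
      rcases hv2 with rfl | rfl
      · exact huW hv
      · exact (mem_sdiff.1 haU).2 hv
    have hbs : b ∈ G.vs := (mem_sdiff.1 hbU).1
    have hun : W ∪ {u, a} = G.vs \ {b} := by
      ext v
      have h5 : v ∈ G.vs \ W ↔ v = u ∨ v = a ∨ v = b := by
        rw [hUe, mem_insert, mem_insert, mem_singleton]
      rw [mem_sdiff] at h5
      rw [mem_union, mem_insert, mem_singleton, mem_sdiff, mem_singleton]
      constructor
      · rintro (k | k | k)
        · exact ⟨hW k, fun k2 => (mem_sdiff.1 hbU).2 (k2 ▸ k)⟩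
        · exact ⟨k ▸ hF.fsub huf, fun k2 => hbu (k2.symm.trans k)⟩
        · exact ⟨k ▸ (mem_sdiff.1 haU).1, fun k2 => hba (k2.symm.trans k)⟩
      · rintro ⟨k1, k2⟩
        by_cases k3 : v ∈ W
        · exact Or.inl k3
        · rcases h5.1 ⟨k1, k3⟩ with k | k | k
          · exact Or.inr (Or.inl k)
          · exact Or.inr (Or.inr k)
          · exact absurd k k2
    have h6 := hw.submod hW hua
    rw [disjoint_iff_inter_eq_empty.1 hdis, hun, sdiff_eq_self_of_disjoint hdis,
      sdiff_eq_self_of_disjoint hdis.symm] at h6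
    have h7 : G.val z t ∅ = 0 := by
      unfold val bd
      simp
    have h8 : G.val z t {u, a} = 4 := by
      rw [hw.val_eq hua, card_pair (Ne.symm hau), ed_center (p := u) hw.sym (mem_insert_self _ _)]
      · have h9 : G.ed {u} {u, a} = {j} := by
          ext d
          rw [mem_ed, mem_singleton, mem_insert, mem_singleton, mem_singleton]
          constructor
          · rintro ⟨k1, k2, k3⟩
            rcases hall d k1 k2 with k | k | k
            · exfalso
              rw [k, ha1] at k3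
              rcases k3 with k3 | k3
              · exact huW (k3 ▸ hc.w1)
              · exact (mem_sdiff.1 haU).2 (k3 ▸ hc.w1)
            · exfalso
              rw [k, ha2] at k3
              rcases k3 with k3 | k3
              · exact huW (k3 ▸ hc.w2)
              · exact (mem_sdiff.1 haU).2 (k3 ▸ hc.w2)
            · exact k
          · rintro rfl
            exact ⟨hjd, hjx, Or.inr ha.symm⟩
        rw [h9, sum_singleton, hzj]
        norm_num
      · intro d hd k1 k2 k3 k4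
        exfalso
        rw [mem_insert, mem_singleton] at k1 k2
        rcases k1 with k1 | k1
        · exact k3 k1
        · rcases k2 with k2 | k2
          · exact k4 k2
          · exact G.noloop d hd (k2.trans k1.symm)
    have hodd : Odd (G.vs \ {b}).card := by
      have h9 := card_sdiff_add_card_eq_card (singleton_subset_iff.2 hbs)
      rw [card_singleton] at h9
      obtain ⟨k, hk⟩ := h.inst.even
      have h10 : 0 < G.vs.card := card_pos.2 ⟨b, hbs⟩
      exact ⟨k - 1, by omega⟩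
    have h9 := hw.cut _ sdiff_subset hodd
    have h10 := hw.val_compl (singleton_subset_iff.2 hbs)
    rw [hw.val_single hbs, sum_singleton] at h10
    have hpair : ({g1, g2} : Finset D) ⊆ G.ed W {u, a} := by
      intro d hd
      rw [mem_insert, mem_singleton] at hd
      rcases hd with rfl | rfl
      · exact mem_ed.2 ⟨hg1d, hc.w1, mem_insert.2 (Or.inl hu.symm)⟩
      · exact mem_ed.2 ⟨hg2d, hc.w2, mem_insert.2 (Or.inl e2)⟩
    have hz1 := hF.unit g1 hg1d (hF.Ffr g1 hc.f1)
    have hz2 := hF.unit g2 hg2d (hF.Ffr g2 hc.f2)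
    have h11 := sum_le_sum_of_subset_of_nonneg (f := z) hpair
      (fun d hd _ => hw.z0 d (mem_ed.1 hd).1)
    rw [sum_pair hc.ne, hz1, hz2] at h11
    rw [h3, h7, h8] at h6
    refine ⟨u, a, b, huf, huniq a haU hau, huniq b hbU hbu, Ne.symm hba, hUe,
      ⟨j, hjd, hjx, ha.symm⟩, hub, ?_, by linarith⟩
    intro d hd hpd hz
    have had := G.al_mem d hd
    have haa := G.al_al d hd
    have h12 : G.pi (G.al d) ∉ W := by
      intro k
      have k1 : G.al d ∈ G.ed W {u, a} := mem_ed.2 ⟨had, k, by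
        rw [haa, hpd]
        exact mem_insert_of_mem (mem_singleton_self _)⟩
      have k2 : G.al d ∉ ({g1, g2} : Finset D) := by
        intro k3
        rw [mem_insert, mem_singleton] at k3
        rcases k3 with k3 | k3
        · exact hau (by rw [← hpd, ← haa, k3]; exact hu.symm)
        · exact hau (by rw [← hpd, ← haa, k3]; exact e2)
      have k4 := sum_le_sum_of_subset_of_nonneg (f := z) (insert_subset k1 hpair)
        (fun d hd _ => hw.z0 d (mem_ed.1 hd).1)
      rw [sum_insert k2, sum_pair hc.ne, hz1, hz2, hw.sym d hd] at k4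
      have k5 := hw.z0 d hd
      exact hz (by linarith)
    have h13 : G.pi (G.al d) ∈ G.vs \ W := mem_sdiff.2 ⟨G.pi_mem _ had, h12⟩
    rw [hUe, mem_insert, mem_insert, mem_singleton] at h13
    rcases h13 with k | k | k
    · exact Or.inl k
    · exact absurd (k.trans hpd.symm) (G.noloop d hd)
    · exact Or.inr k

/-- the list of nontrivial tight sets, weak form -/
theorem MCS.tight_pre [Infinite V] [Infinite D] (h : G.MCS z t fr F ∅ ∅ ep 0) (hW : W ⊆ G.vs)
    (hWo : Odd W.card) (h3 : G.val z t W = 3) (hc1 : 3 ≤ W.card) (hc2 : 3 ≤ (G.vs \ W).card) :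
    (∃ x p q, G.Dig z t fr W x p q) ∨ ∃ u a b, G.CapW z t fr W u a b := by
  obtain ⟨g1, g2, hc⟩ := h.exists_fc hW hWo h3 hc1 hc2
  by_cases hff : ∀ d ∈ G.bd W, d ∉ F → ¬ (G.pi d ∈ fr ∧ G.pi (G.al d) ∈ fr)
  · by_cases hs1 : 2 ≤ (fr ∩ W).card ∨ 4 ≤ W.card
    · by_cases hs2 : 2 ≤ (fr \ W).card ∨ 4 ≤ (G.vs \ W).card
      · exact (h.no_t2 hc hWo h3 (disjoint_empty_left W) hff hs1 hs2 (h.fcC hc hWo h3 hc1)).elim
      · rw [not_or] at hs2
        exact Or.inr (h.cap_of hc h3 (by omega) (by omega))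
    · rw [not_or] at hs1
      exact Or.inl (h.dig_of hc h3 (by omega) (by omega))
  · push Not at hff
    obtain ⟨j, h4, h5, h6, h7⟩ := hff
    exact (h.no_ff hc hWo h3 hc1 hc2 h4 h5 h6 h7).elim

/-- no support edge between `a` and `b` in a capped set: otherwise raise it until fewer than 4 tokens
are left -/
theorem MCS.capW_nb [Infinite V] [Infinite D] (h : G.MCS z t fr F ∅ ∅ ep 0) (hW : W ⊆ G.vs)
    (htW : ∑ v ∈ W, t v ≤ 1) {u a b : V} (c : G.CapW z t fr W u a b) :
    ∀ d ∈ G.ds, G.pi d = a → z d ≠ 0 → G.pi (G.al d) = u := by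
  intro e he hea hez
  rcases c.nb e he hea hez with h1 | heb
  · exact h1
  exfalso
  have hF := h.inst.fresh
  have hw := h.inst.wt
  have hae := G.al_mem e he
  have haa := G.al_al e he
  have htau := h.tau_ge
  have htau6 := h.inst.tau
  have hUm : ∀ v, v ∈ G.vs \ W ↔ v = u ∨ v = a ∨ v = b := by
    intro v
    rw [c.U, mem_insert, mem_insert, mem_singleton]
  have hav : a ∈ G.vs := (mem_sdiff.1 ((hUm a).2 (Or.inr (Or.inl rfl)))).1
  have hbv : b ∈ G.vs := (mem_sdiff.1 ((hUm b).2 (Or.inr (Or.inr rfl)))).1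
  have hua : u ≠ a := fun k => c.af (k ▸ c.uf)
  have hub : u ≠ b := fun k => c.bf (k ▸ c.uf)
  have hsplit : ∑ v ∈ G.vs, t v = (t u + (t a + t b)) + ∑ v ∈ W, t v := by
    rw [← sum_sdiff hW, c.U, sum_insert, sum_pair c.ab]
    rw [mem_insert, mem_singleton, not_or]
    exact ⟨hua, hub⟩
  have htu : t u = 0 := hF.t_not_jm hw c.uf (notMem_empty _)
  have htb := c.tb
  have hWn : 0 ≤ ∑ v ∈ W, t v := sum_nonneg fun v hv => hw.t0 v (hW hv)
  have hoth : ∀ v ∈ G.vs, v ≠ a → v ≠ b → t v ≤ 1 := by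
    intro v hv k1 k2
    by_cases k3 : v ∈ W
    · have k4 := single_le_sum (f := t) (s := W) (fun v hv => hw.t0 v (hW hv)) k3
      linarith
    · rcases (hUm v).1 (mem_sdiff.2 ⟨hv, k3⟩) with k | k | k
      · rw [k, htu]
        norm_num
      · exact absurd k k1
      · exact absurd k k2
  obtain ⟨α, hα⟩ : ∃ α : D → ℝ, ∀ d, α d = (if d = e then 1 else 0) + if d = G.al e then 1 else 0 :=
    ⟨_, fun _ => rfl⟩
  obtain ⟨β, hβ⟩ : ∃ β : V → ℝ, ∀ v, β v = -(if v = a then 1 else 0) - if v = b then 1 else 0 :=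
    ⟨_, fun _ => rfl⟩
  have hsym : ∀ d ∈ G.ds, α (G.al d) = α d := by
    intro d hd
    have k1 : G.al d = e ↔ d = G.al e :=
      ⟨fun k => by rw [← k, G.al_al d hd], fun k => by rw [k, haa]⟩
    have k2 : G.al d = G.al e ↔ d = e :=
      ⟨fun k => by rw [← G.al_al d hd, k, haa], fun k => by rw [k]⟩
    rw [hα, hα, if_congr k1 rfl rfl, if_congr k2 rfl rfl, add_comm]
  have hsα : ∀ T : Finset D, ∑ d ∈ T, α d =
      (if e ∈ T then 1 else 0) + if G.al e ∈ T then 1 else 0 := by
    intro T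
    rw [sum_congr rfl fun d _ => hα d, sum_add_distrib, sum_ite_eq', sum_ite_eq']
  have hdeg : ∀ v ∈ G.vs, ∑ d ∈ G.st v, α d + β v = 0 := by
    intro v _
    have k1 : e ∈ G.st v ↔ v = a := by
      rw [mem_st, hea]
      exact ⟨fun k => k.2.symm, fun k => ⟨he, k.symm⟩⟩
    have k2 : G.al e ∈ G.st v ↔ v = b := by
      rw [mem_st, heb]
      exact ⟨fun k => k.2.symm, fun k => ⟨hae, k.symm⟩⟩
    rw [hsα, hβ, if_congr k1 rfl rfl, if_congr k2 rfl rfl]
    ring
  have hval : ∀ X ⊆ G.vs, G.val α β X = if a ∈ X ∧ b ∈ X then -2 else 0 := by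
    intro X hX
    have k1 : e ∈ G.ed X X ↔ a ∈ X ∧ b ∈ X := by
      rw [mem_ed, hea, heb]
      exact ⟨fun k => k.2, fun k => ⟨he, k⟩⟩
    have k2 : G.al e ∈ G.ed X X ↔ a ∈ X ∧ b ∈ X := by
      rw [mem_ed, haa, hea, heb]
      exact ⟨fun k => ⟨k.2.2, k.2.1⟩, fun k => ⟨hae, k.2, k.1⟩⟩
    rw [pert_val α β hdeg hX, hsα, if_congr k1 rfl rfl, if_congr k2 rfl rfl]
    split_ifs
    · norm_num
    · norm_num
  have hsumβ : ∑ v ∈ G.vs, β v = -2 := by
    rw [sum_congr rfl fun v _ => hβ v, sum_sub_distrib, sum_neg_distrib, sum_ite_eq',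
      sum_ite_eq', if_pos hav, if_pos hbv]
    norm_num
  have hsumt : ∀ s : ℝ, ∑ v ∈ G.vs, (t v + s * β v) = ∑ v ∈ G.vs, t v - 2 * s := by
    intro s
    rw [sum_add_distrib, ← mul_sum, hsumβ]
    ring
  have hβa : β a = -1 := by rw [hβ, if_pos rfl, if_neg c.ab]; ring
  have hβb : β b = -1 := by rw [hβ, if_neg (Ne.symm c.ab), if_pos rfl]; ring
  have hβo : ∀ v, v ≠ a → v ≠ b → β v = 0 := fun v k1 k2 => by
    rw [hβ, if_neg k1, if_neg k2]; ring
  -- the weight
  have key : ∀ s : ℝ, 0 ≤ s → s ≤ (∑ v ∈ G.vs, t v) / 2 - 3 / 2 →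
      (∀ X ⊆ G.vs, Odd X.card → a ∈ X → b ∈ X → 3 + 2 * s ≤ G.val z t X) →
      G.Alt z fr (fun d => z d + s * α d) (fun v => t v + s * β v) := by
    intro s hs0 hs1 hcut
    refine ⟨⟨?_, ?_, ?_, ?_, ?_⟩, ?_, ?_, ?_⟩
    · intro d hd
      show 0 ≤ z d + s * α d
      have k1 := hw.z0 d hd
      have k2 : 0 ≤ α d := by
        rw [hα]
        split_ifs <;> norm_num
      have k3 := mul_nonneg hs0 k2
      linarith
    · intro v hv
      show 0 ≤ t v + s * β v
      by_cases k1 : v = a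
      · rw [k1, hβa]
        linarith
      by_cases k2 : v = b
      · rw [k2, hβb]
        linarith
      rw [hβo v k1 k2, mul_zero, add_zero]
      exact hw.t0 v hv
    · intro d hd
      show z (G.al d) + s * α (G.al d) = z d + s * α d
      rw [hw.sym d hd, hsym d hd]
    · intro v hv
      show ∑ d ∈ G.st v, (z d + s * α d) + (t v + s * β v) = 3
      rw [sum_add_distrib, ← mul_sum]
      have k1 := hw.deg v hv
      have k2 := hdeg v hv
      have k3 : s * ∑ d ∈ G.st v, α d + s * β v = 0 := by rw [← mul_add, k2, mul_zero]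
      linarith
    · intro X hX ho
      rw [val_add, hval X hX]
      split_ifs with k1
      · have k2 := hcut X hX ho k1.1 k1.2
        linarith
      · rw [mul_zero, add_zero]
        exact hw.cut X hX ho
    · show ∑ v ∈ G.vs, (t v + s * β v) < 6
      rw [hsumt]
      linarith
    · intro d hd hz
      show z d + s * α d = 0
      have k1 : d ≠ e := fun k => hez (k ▸ hz)
      have k2 : d ≠ G.al e := by
        intro k
        rw [k, hw.sym e he] at hz
        exact hez hz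
      rw [hz, hα, if_neg k1, if_neg k2]
      ring
    · intro d hd hp
      show z d + s * α d = 1
      have k1 : d ≠ e := fun k => c.af (by rw [← hea, ← k]; exact hp)
      have k2 : d ≠ G.al e := fun k => c.bf (by rw [← heb, ← k]; exact hp)
      rw [hF.unit d hd hp, hα, if_neg k1, if_neg k2]
      ring
  set 𝓕 : Finset (Finset V) := G.vs.powerset.filter fun X => Odd X.card ∧ a ∈ X ∧ b ∈ X with h𝓕
  by_cases hall : ∀ X ∈ 𝓕, ∑ v ∈ G.vs, t v ≤ G.val z t X
  · have k1 := key ((∑ v ∈ G.vs, t v) / 2 - 3 / 2) (by linarith) le_rfl (fun X hX ho k1 k2 => by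
      have k3 := hall X (mem_filter.2 ⟨mem_powerset.2 hX, ho, k1, k2⟩)
      linarith)
    have k2 := (h.alt k1).1.tau_ge
    rw [hsumt] at k2
    linarith
  · push Not at hall
    obtain ⟨X0, hX0, hv0⟩ := hall
    obtain ⟨X, hX, hmin⟩ := exists_min_image 𝓕 (fun X => G.val z t X) ⟨X0, hX0⟩
    obtain ⟨hXp, hXo, haX, hbX⟩ := mem_filter.1 hX
    have hXs := mem_powerset.1 hXp
    have hlt : G.val z t X < ∑ v ∈ G.vs, t v := lt_of_le_of_lt (hmin X0 hX0) hv0
    have hge := hw.cut X hXs hXo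
    obtain ⟨s, hs⟩ : ∃ s : ℝ, s = (G.val z t X - 3) / 2 := ⟨_, rfl⟩
    have hal := key s (by linarith) (by linarith) (fun Y hY ho k1 k2 => by
      have k3 := hmin Y (mem_filter.2 ⟨mem_powerset.2 hY, ho, k1, k2⟩)
      linarith)
    have hm := (h.alt hal).1
    have h3' : G.val (fun d => z d + s * α d) (fun v => t v + s * β v) X = 3 := by
      rw [val_add, hval X hXs, if_pos ⟨haX, hbX⟩]
      linarith
    have hsum := hsumt s
    have hbad : ∀ v ∈ G.vs, v ∉ X → 2 * (t v + s * β v) = ∑ v ∈ G.vs, (t v + s * β v) → False := by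
      intro v hv hvX k
      have k1 : v ≠ a := fun k2 => hvX (k2 ▸ haX)
      have k2 : v ≠ b := fun k2 => hvX (k2 ▸ hbX)
      have k3 := hoth v hv k1 k2
      rw [hsum, hβo v k1 k2, mul_zero, add_zero] at k
      linarith
    have hta : 0 < t a + s * β a := by
      rw [hβa]
      linarith
    have htb' : 0 < t b + s * β b := by
      rw [hβb]
      linarith
    rcases hm.inst.wt.tight_cases h.inst.even hXs hXo h3' with ⟨v, -, k1⟩ | ⟨v, hv, k1, k2⟩ | ⟨k1, k2⟩
    · rw [k1, mem_singleton] at haX hbX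
      exact c.ab (haX.trans hbX.symm)
    · refine hbad v hv ?_ k1
      rw [k2, mem_sdiff, mem_singleton, not_and, not_not]
      exact fun _ => rfl
    · rcases hm.tight_pre hXs hXo h3' k1 k2 with ⟨x, p, q, k⟩ | ⟨u', a', b', k⟩
      · have k3 := k.tp
        have k4 : ∀ v ∈ X, v ∉ fr → v = p ∨ v = q := by
          intro v hv hvf
          rw [k.W, mem_insert, mem_insert, mem_singleton] at hv
          rcases hv with k5 | k5 | k5
          · exact absurd (k5 ▸ k.xf) hvf
          · exact Or.inl k5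
          · exact Or.inr k5
        have k3' : t p + s * β p = 0 := k3
        rcases k4 a haX c.af with k5 | k5
        · rw [← k5] at k3'
          linarith
        · rcases k4 b hbX c.bf with k6 | k6
          · rw [← k6] at k3'
            linarith
          · exact c.ab (k5.trans k6.symm)
      · have k3 : b' ∈ G.vs \ X := by
          rw [k.U]
          simp
        obtain ⟨k4, k5⟩ := mem_sdiff.1 k3
        exact hbad b' k4 k5 k.tb

/-- THE LIST of the nontrivial tight sets of a minimal counterexample without star -/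
theorem MCS.tight_list [Infinite V] [Infinite D] (h : G.MCS z t fr F ∅ ∅ ep 0) (hW : W ⊆ G.vs)
    (hWo : Odd W.card) (h3 : G.val z t W = 3) (hc1 : 3 ≤ W.card) (hc2 : 3 ≤ (G.vs \ W).card) :
    (∃ x p q, G.Dig z t fr W x p q) ∨ ∃ u a b, G.Cap z t fr W u a b := by
  obtain ⟨g1, g2, hc⟩ := h.exists_fc hW hWo h3 hc1 hc2
  rcases h.tight_pre hW hWo h3 hc1 hc2 with h4 | ⟨u, a, b, c⟩
  · exact Or.inl h4
  · refine Or.inr ⟨u, a, b, c.uf, c.af, c.bf, c.ab, c.U, c.ua, c.ub, ?_, c.tb⟩
    exact h.capW_nb hW (hc.t_le h.inst.fresh h.inst.wt h3) c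

/-- the list for all weights -/
theorem MCS.tightList [Infinite V] [Infinite D] (h : G.MCS z t fr F ∅ ∅ ep 0) :
    G.TightList z fr := fun _ _ ha _ hW hWo h3 hc1 hc2 =>
  (h.alt ha).1.tight_list hW hWo h3 hc1 hc2

end MG

end RH
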