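import Pool.Agent.Lib.RH.SGlueT2

/-! Contraction of a set which is cut by two F-edges, the new vertex lies on the circuit. -/

set_option autoImplicit false

namespace RH

open Finset Classical

namespace MG

variable {V D : Type*}

variable {G : MG V D} {z : D → ℝ} {t : V → ℝ} {fr : Finset V} {F : Finset D} {jm sx : Finset V}
variable {ep : V → ℕ} {m : ℕ} {W Y Z A X B jw : Finset V} {f : D}
variable {ω : V} {c1 c2 g1 g2 : D} {M : Finset D}

/-- parity law for raw data -/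
theorem FrB.bd_par (hF : G.FrB z fr F jm B) (hX : G.Adm fr F X) (hXB : Disjoint X B) :
    ((G.bd X).card + (X ∩ jm).card) % 2 = X.card % 2 := by
  obtain ⟨fr2, hs2, hcl2, hd2, hadm2⟩ := exists_avoid G fr F B
  have hF2 := hF.toFrS hs2 hcl2 hd2
  have h1 := (hadm2 X).2 ⟨hX, hXB⟩
  have h2 := hF2.bd_par h1
  have h3 : X ∩ (jm ∩ fr2) = X ∩ jm := by
    ext v
    simp only [mem_inter]
    constructor
    · rintro ⟨k1, k2, -⟩
      exact ⟨k1, k2⟩
    · rintro ⟨k1, k2⟩
      exact ⟨k1, k2, h1.sub k1⟩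
  rwa [h3] at h2

section

variable (hω : ω ∈ Y) (hY : Y ⊆ G.vs)

theorem ca_piZ {d : D} (hn : G.pi d ∉ Y) : (G.con Y ω hω hY).pi d = G.pi d := by
  change (if G.pi d ∈ Y then ω else G.pi d) = _
  rw [if_neg hn]

theorem ca_piY {d : D} (hn : G.pi d ∈ Y) : (G.con Y ω hω hY).pi d = ω := by
  change (if G.pi d ∈ Y then ω else G.pi d) = _
  rw [if_pos hn]

theorem ca_ds {d : D} : d ∈ (G.con Y ω hω hY).ds ↔ d ∈ G.ds ∧ ¬ (G.pi d ∈ Y ∧ G.pi (G.al d) ∈ Y) :=
  mem_filter

variable (hZ : Z = G.vs \ Y) (hF : G.FrS z fr F jm) (hc : G.FC F Z c1 c2)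

include hZ hF hc in
theorem ca_frB (hu : ∀ d ∈ G.bd Y, z d = 1)
    (hjw : (jw = ∅ ∧ (rd G F Y).card = 1) ∨ (jw = {ω} ∧ rd G F Y = ∅)) :
    (G.con Y ω hω hY).FrB z (insert ω (fr ∩ Z))
      (F.filter fun d => G.pi d ∈ Z ∨ G.pi (G.al d) ∈ Z) ((jm ∩ Z) ∪ jw) B := by
  have s : Side G (G.con Y ω hω hY) Z ∅ := by
    rw [hZ]
    exact side_con hω hY
  have hωZ : ω ∉ Z := fun h1 => nY hY hZ h1 hω
  have hZi : ∀ v ∈ G.vs, (v ∈ Z ↔ v ∉ Y) := fun v hv => by
    rw [hZ, mem_sdiff]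
    exact ⟨fun h1 => h1.2, fun h1 => ⟨hv, h1⟩⟩
  have hbY : ∀ d ∈ F, (G.pi d ∈ Z ∨ G.pi (G.al d) ∈ Z) →
      ¬ (G.pi d ∈ Y ∧ G.pi (G.al d) ∈ Y) := by
    intro d _ h2 h3
    rcases h2 with h2 | h2
    · exact nY hY hZ h2 h3.1
    · exact nY hY hZ h2 h3.2
  have hat : ∀ d, d ∈ (G.con Y ω hω hY).st ω ↔ d ∈ G.bd Y := fun d => by rw [con_st_omega hω hY]
  have hac1 := G.al_al c1 (hF.Fsub hc.f1)
  have hac2 := G.al_al c2 (hF.Fsub hc.f2)
  have hjwω : ∀ v ∈ jw, v = ω := by
    intro v hv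
    rcases hjw with ⟨h1, -⟩ | ⟨h1, -⟩
    · rw [h1] at hv
      exact absurd hv (notMem_empty v)
    · rw [h1] at hv
      exact mem_singleton.1 hv
  have htwo : ∀ d, (d ∈ F.filter (fun d => G.pi d ∈ Z ∨ G.pi (G.al d) ∈ Z) ∧
      (G.con Y ω hω hY).pi d = ω) ↔ d = G.al c1 ∨ d = G.al c2 := by
    intro d
    constructor
    · rintro ⟨h1, h2⟩
      obtain ⟨h3, h4⟩ := mem_filter.1 h1
      have h5 := hF.Fsub h3
      have h6 : G.pi d ∈ Y := by
        by_contra h7
        rw [ca_piZ hω hY h7] at h2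
        exact h7 (h2 ▸ hω)
      have h7 : G.pi (G.al d) ∉ Y := fun h8 => hbY d h3 h4 ⟨h6, h8⟩
      have h9 := G.al_al d h5
      have h10 : G.pi (G.al d) ∈ Z := (hZi _ (G.pi_mem _ (G.al_mem d h5))).2 h7
      rcases hc.only (G.al d) (hF.Fal d h3) h10 (by
        rw [h9]; exact fun h11 => nY hY hZ h11 h6) with h11 | h11
      · exact Or.inl (by rw [← h9, h11])
      · exact Or.inr (by rw [← h9, h11])
    · have key : ∀ c, c ∈ F → G.pi c ∈ Z → G.pi (G.al c) ∉ Z → G.al (G.al c) = c →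
          (G.al c ∈ F.filter (fun d => G.pi d ∈ Z ∨ G.pi (G.al d) ∈ Z) ∧
          (G.con Y ω hω hY).pi (G.al c) = ω) := by
        intro c k1 k2 k3 k4
        have k5 := G.al_mem c (hF.Fsub k1)
        have k6 : G.pi (G.al c) ∈ Y := by
          by_contra k7
          exact k3 ((hZi _ (G.pi_mem _ k5)).2 k7)
        exact ⟨mem_filter.2 ⟨hF.Fal c k1, Or.inr (by rw [k4]; exact k2)⟩, ca_piY hω hY k6⟩
      rintro (rfl | rfl)
      · exact key c1 hc.f1 hc.w1 hc.u1 hac1
      · exact key c2 hc.f2 hc.w2 hc.u2 hac2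
  refine s.frB hF ?_ ?_ ?_ ?_ ?_ ?_ (fun _ _ _ _ => rfl) ?_ ?_ ?_ ?_ ?_ ?_ ?_
  · intro v hv
    change v ∈ (G.vs \ Y) ∪ {ω}
    rcases mem_insert.1 hv with rfl | hv
    · exact mem_union_right _ (mem_singleton_self _)
    · exact mem_union_left _ (hZ ▸ (mem_inter.1 hv).2)
  · intro d hd
    obtain ⟨h1, h2⟩ := mem_filter.1 hd
    exact (ca_ds hω hY).2 ⟨hF.Fsub h1, hbY d h1 h2⟩
  · intro d hd
    obtain ⟨h1, h2⟩ := mem_filter.1 hd
    change G.al d ∈ _
    refine mem_filter.2 ⟨hF.Fal d h1, ?_⟩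
    rw [G.al_al d (hF.Fsub h1)]
    exact h2.symm
  · intro v hv
    rcases mem_union.1 hv with h1 | h1
    · exact mem_insert_of_mem (mem_inter.2 ⟨hF.jms (mem_inter.1 h1).1, (mem_inter.1 h1).2⟩)
    · rw [hjwω v h1]
      exact mem_insert_self _ _
  · intro v hv hvZ
    rcases mem_insert.1 hv with rfl | hv
    · exact absurd hvZ hωZ
    · exact (mem_inter.1 hv).1
  · intro d hd hpd _ _
    rw [mem_filter]
    exact ⟨fun h1 => h1.1, fun h1 => ⟨h1, Or.inl hpd⟩⟩
  · intro d hd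
    exact absurd hd (notMem_empty d)
  · intro v hvZ hv
    rcases mem_union.1 hv with h1 | h1
    · exact Or.inl (mem_inter.1 h1).1
    · rw [hjwω v h1] at hvZ
      exact absurd hvZ hωZ
  · intro v hvZ _ hv
    exact Or.inl (mem_union_left _ (mem_inter.2 ⟨hv, hvZ⟩))
  · intro v hv hvZ _
    rcases mem_insert.1 hv with rfl | hv
    · have h1 : ((F.filter fun d => G.pi d ∈ Z ∨ G.pi (G.al d) ∈ Z).filter
          fun d => (G.con Y v hω hY).pi d = v) = {G.al c1, G.al c2} := by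
        ext d
        rw [mem_filter, mem_insert, mem_singleton]
        exact htwo d
      rw [h1, card_pair]
      intro h2
      exact hc.ne (by rw [← hac1, h2, hac2])
    · exact absurd (mem_inter.1 hv).2 hvZ
  · intro v hv hvZ _ hj
    rcases mem_insert.1 hv with rfl | hv
    · rcases hjw with ⟨-, h1⟩ | ⟨h1, -⟩
      · rw [← h1]
        congr 1
        ext d
        have hrd : d ∈ rd G F Y ↔ d ∈ G.bd Y ∧ d ∉ F := mem_filter
        rw [mem_filter, hat, hrd]
        constructor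
        · rintro ⟨k1, k2⟩
          obtain ⟨k3, k4, k5⟩ := mem_bd.1 k1
          refine ⟨k1, fun k6 => k2 (mem_filter.2 ⟨k6, Or.inr ?_⟩)⟩
          exact (hZi _ (G.pi_mem _ (G.al_mem d k3))).2 k5
        · rintro ⟨k1, k2⟩
          exact ⟨k1, fun k3 => k2 (mem_filter.1 k3).1⟩
      · exact absurd (mem_union_right _ (by rw [h1]; exact mem_singleton_self _)) hj
    · exact absurd (mem_inter.1 hv).2 hvZ
  · intro v hv hvZ _ d hd
    rcases mem_union.1 hv with h1 | h1
    · exact absurd (mem_inter.1 h1).2 hvZ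
    · have h2 := hjwω v h1
      rcases hjw with ⟨h4, -⟩ | ⟨-, h4⟩
      · rw [h4] at h1
        exact absurd h1 (notMem_empty v)
      · rw [h2, hat] at hd
        obtain ⟨k3, k4, k5⟩ := mem_bd.1 hd
        have h5 : d ∈ F := by
          by_contra h6
          have h7 : d ∈ rd G F Y := mem_filter.2 ⟨hd, h6⟩
          rw [h4] at h7
          exact notMem_empty d h7
        exact mem_filter.2 ⟨h5, Or.inr ((hZi _ (G.pi_mem _ (G.al_mem d k3))).2 k5)⟩
  · intro d hd hpd hvZ _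
    rcases mem_insert.1 hpd with h1 | h1
    · exact hu d ((hat d).1 (mem_st.2 ⟨hd, h1⟩))
    · exact absurd (mem_inter.1 h1).2 hvZ

include hZ hF in
theorem ca_adm_out {X : Finset V} (hX : (G.con Y ω hω hY).Adm (insert ω (fr ∩ Z))
    (F.filter fun d => G.pi d ∈ Z ∨ G.pi (G.al d) ∈ Z) X) (ho : ω ∉ X) :
    X ⊆ Z ∧ G.Adm fr F X := by
  have hsub : ∀ v ∈ X, v ∈ fr ∧ v ∈ Z := fun v hv => by
    rcases mem_insert.1 (hX.sub hv) with h1 | h1
    · exact absurd (h1 ▸ hv) ho
    · exact mem_inter.1 h1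
  refine ⟨fun v hv => (hsub v hv).2, fun v hv => (hsub v hv).1, fun d hd hpd => ?_⟩
  have h1 := hF.Fsub hd
  have h2 := (hsub _ hpd).2
  have h3 : G.pi d ∉ Y := nY hY hZ h2
  have h4 := hX.clo d (mem_filter.2 ⟨hd, Or.inl h2⟩) (by rw [ca_piZ hω hY h3]; exact hpd)
  change (G.con Y ω hω hY).pi (G.al d) ∈ X at h4
  by_cases h5 : G.pi (G.al d) ∈ Y
  · rw [ca_piY hω hY h5] at h4
    exact absurd h4 ho
  · rwa [ca_piZ hω hY h5] at h4

include hZ hF hc in
theorem ca_adm_in {X : Finset V} (hX : (G.con Y ω hω hY).Adm (insert ω (fr ∩ Z))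
    (F.filter fun d => G.pi d ∈ Z ∨ G.pi (G.al d) ∈ Z) X) (ho : ω ∈ X) :
    X = insert ω (X.erase ω) ∧ G.AdmZ fr F Z (X.erase ω) ∧ G.pi c1 ∈ X.erase ω := by
  have hsub : ∀ v ∈ X.erase ω, v ∈ fr ∧ v ∈ Z := fun v hv => by
    rcases mem_insert.1 (hX.sub (mem_erase.1 hv).2) with h1 | h1
    · exact absurd h1 (mem_erase.1 hv).1
    · exact mem_inter.1 h1
  refine ⟨(insert_erase ho).symm, ⟨fun v hv => (hsub v hv).1, fun v hv => (hsub v hv).2, ?_⟩, ?_⟩
  · intro d hd hpd hpZ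
    have h2 := (hsub _ hpd).2
    have h3 : G.pi d ∉ Y := nY hY hZ h2
    have h4 := hX.clo d (mem_filter.2 ⟨hd, Or.inl h2⟩) (by
      rw [ca_piZ hω hY h3]; exact (mem_erase.1 hpd).2)
    change (G.con Y ω hω hY).pi (G.al d) ∈ X at h4
    have h5 : G.pi (G.al d) ∉ Y := nY hY hZ hpZ
    rw [ca_piZ hω hY h5] at h4
    exact mem_erase.2 ⟨fun h6 => h5 (h6 ▸ hω), h4⟩
  · have h1 := hF.Fsub hc.f1
    have h2 := G.al_al c1 h1
    have h3 : G.pi c1 ∉ Y := nY hY hZ hc.w1
    have h4 : G.pi (G.al c1) ∈ Y := by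
      by_contra h5
      refine hc.u1 ?_
      rw [hZ]
      exact mem_sdiff.2 ⟨G.pi_mem _ (G.al_mem c1 h1), h5⟩
    have h5 := hX.clo (G.al c1) (mem_filter.2 ⟨hF.Fal c1 hc.f1, Or.inr (by
      rw [h2]; exact hc.w1)⟩) (by rw [ca_piY hω hY h4]; exact ho)
    change (G.con Y ω hω hY).pi (G.al (G.al c1)) ∈ X at h5
    rw [h2, ca_piZ hω hY h3] at h5
    exact mem_erase.2 ⟨fun h6 => h3 (h6 ▸ hω), h5⟩

include hZ in
theorem ca_adm_up {X : Finset V} (hX : G.Adm fr F X) (hXZ : X ⊆ Z) :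
    (G.con Y ω hω hY).Adm (insert ω (fr ∩ Z))
      (F.filter fun d => G.pi d ∈ Z ∨ G.pi (G.al d) ∈ Z) X := by
  refine ⟨fun v hv => mem_insert_of_mem (mem_inter.2 ⟨hX.sub hv, hXZ hv⟩), fun d hd hpd => ?_⟩
  obtain ⟨h1, h2⟩ := mem_filter.1 hd
  change (G.con Y ω hω hY).pi (G.al d) ∈ X
  by_cases h5 : G.pi d ∈ Y
  · rw [ca_piY hω hY h5] at hpd
    exact absurd hω (nY hY hZ (hXZ hpd))
  · rw [ca_piZ hω hY h5] at hpd
    have h6 := hX.clo d h1 hpd
    rw [ca_piZ hω hY (nY hY hZ (hXZ h6))]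
    exact h6

include hZ hF hc in
theorem ca_adm_ins {A : Finset V} (hA : G.AdmZ fr F Z A) (hg : G.pi c1 ∈ A) :
    (G.con Y ω hω hY).Adm (insert ω (fr ∩ Z))
      (F.filter fun d => G.pi d ∈ Z ∨ G.pi (G.al d) ∈ Z) (insert ω A) := by
  have hg2 : G.pi c2 ∈ A := (hc.both hF hA).1 hg
  refine ⟨?_, fun d hd hpd => ?_⟩
  · intro v hv
    rcases mem_insert.1 hv with h1 | h1
    · exact mem_insert.2 (Or.inl h1)
    · exact mem_insert_of_mem (mem_inter.2 ⟨hA.sub h1, hA.subZ h1⟩)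
  obtain ⟨h1, h2⟩ := mem_filter.1 hd
  have h3 := hF.Fsub h1
  have h4 : ¬ (G.pi d ∈ Y ∧ G.pi (G.al d) ∈ Y) := by
    intro h5
    rcases h2 with h2 | h2
    · exact nY hY hZ h2 h5.1
    · exact nY hY hZ h2 h5.2
  change (G.con Y ω hω hY).pi (G.al d) ∈ _
  have h8 := G.al_al d h3
  by_cases h5 : G.pi d ∈ Y
  · have h6 : G.pi (G.al d) ∉ Y := fun h7 => h4 ⟨h5, h7⟩
    have h7 : G.pi (G.al d) ∈ Z := by
      rcases h2 with h2 | h2
      · exact absurd h5 (nY hY hZ h2)
      · exact h2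
    rw [ca_piZ hω hY h6]
    rcases hc.only (G.al d) (hF.Fal d h1) h7 (by
      rw [h8]; exact fun h9 => nY hY hZ h9 h5) with h9 | h9
    · rw [h9]; exact mem_insert_of_mem hg
    · rw [h9]; exact mem_insert_of_mem hg2
  · rw [ca_piZ hω hY h5] at hpd
    by_cases h6 : G.pi (G.al d) ∈ Y
    · rw [ca_piY hω hY h6]
      exact mem_insert_self _ _
    · rw [ca_piZ hω hY h6]
      have h7 : G.pi d ∈ A := by
        rcases mem_insert.1 hpd with h9 | h9
        · exact absurd (h9 ▸ hω) h5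
        · exact h9
      refine mem_insert_of_mem (hA.clo d h1 h7 ?_)
      rw [hZ]
      exact mem_sdiff.2 ⟨G.pi_mem _ (G.al_mem d h3), h6⟩

include hZ hF hc in
/-- the boundary of a union through `ω` -/
theorem ca_bd {A : Finset V} (hA : G.AdmZ fr F Z A) (hg : G.pi c1 ∈ A) {d : D} :
    d ∈ (G.con Y ω hω hY).bd (insert ω A) ↔
      (d ∈ G.bd A ∧ d ∉ F ∧ G.pi (G.al d) ∉ Y) ∨ (d ∈ G.bd Y ∧ d ∉ F ∧ G.pi (G.al d) ∉ A) := by
  have hωA : ω ∉ A := fun h1 => nY hY hZ (hA.subZ h1) hω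
  have hadm := ca_adm_ins hω hY hZ hF hc hA hg
  rw [mem_bd, ca_ds]
  change (_ ∧ _ ∧ (G.con Y ω hω hY).pi (G.al d) ∉ _) ↔ _
  constructor
  · rintro ⟨⟨h1, h2⟩, h3, h4⟩
    have hdF : d ∉ F := by
      intro h7
      refine h4 (hadm.clo d (mem_filter.2 ⟨h7, ?_⟩) h3)
      by_contra h8
      rw [not_or] at h8
      refine h2 ⟨?_, ?_⟩
      · by_contra h9
        exact h8.1 (by rw [hZ]; exact mem_sdiff.2 ⟨G.pi_mem d h1, h9⟩)
      · by_contra h9
        exact h8.2 (by rw [hZ]; exact mem_sdiff.2 ⟨G.pi_mem _ (G.al_mem d h1), h9⟩)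
    by_cases h5 : G.pi d ∈ Y
    · have h6 : G.pi (G.al d) ∉ Y := fun h7 => h2 ⟨h5, h7⟩
      rw [ca_piZ hω hY h6, mem_insert, not_or] at h4
      exact Or.inr ⟨mem_bd.2 ⟨h1, h5, h6⟩, hdF, h4.2⟩
    · rw [ca_piZ hω hY h5] at h3
      have h6 : G.pi d ∈ A := by
        rcases mem_insert.1 h3 with h9 | h9
        · exact absurd (h9 ▸ hω) h5
        · exact h9
      have h7 : G.pi (G.al d) ∉ Y := by
        intro h8
        rw [ca_piY hω hY h8] at h4
        exact h4 (mem_insert_self _ _)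
      rw [ca_piZ hω hY h7, mem_insert, not_or] at h4
      exact Or.inl ⟨mem_bd.2 ⟨h1, h6, h4.2⟩, hdF, h7⟩
  · rintro (⟨h1, h2, h3⟩ | ⟨h1, h2, h3⟩)
    · obtain ⟨h4, h5, h6⟩ := mem_bd.1 h1
      have h7 : G.pi d ∉ Y := nY hY hZ (hA.subZ h5)
      refine ⟨⟨h4, fun h8 => h7 h8.1⟩, ?_, ?_⟩
      · rw [ca_piZ hω hY h7]
        exact mem_insert_of_mem h5
      · rw [ca_piZ hω hY h3, mem_insert, not_or]
        exact ⟨fun h8 => h3 (h8 ▸ hω), h6⟩
    · obtain ⟨h4, h5, h6⟩ := mem_bd.1 h1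
      refine ⟨⟨h4, fun h8 => h6 h8.2⟩, ?_, ?_⟩
      · rw [ca_piY hω hY h5]
        exact mem_insert_self _ _
      · rw [ca_piZ hω hY h6, mem_insert, not_or]
        exact ⟨fun h8 => h6 (h8 ▸ hω), h3⟩

include hZ in
theorem ca_bd_out {X : Finset V} (hXZ : X ⊆ Z) : (G.con Y ω hω hY).bd X = G.bd X := by
  have s : Side G (G.con Y ω hω hY) Z ∅ := by
    rw [hZ]
    exact side_con hω hY
  rw [s.bd hXZ, sdiff_empty]

end

set_option maxHeartbeats 1000000 in
/-- outer matchings, `ω` on the circuit: `jw = ∅` for a fresh-fresh third edge, `jw = {ω}` if the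
third unit is a star token -/
theorem MCS.solveA (hh : G.MCS z t fr F jm sx ep 0)
    (hc : G.FC F W g1 g2) (hWo : Odd W.card) (h3 : G.val z t W = 3) (hWc : 2 ≤ W.card)
    (hω : ω ∈ W) (hωe : ω = G.pi g1) (hu : ∀ d ∈ G.bd W, z d = 1)
    (hjw : (jw = ∅ ∧ (rd G F W).card = 1 ∧ Disjoint jm W) ∨
      (jw = {ω} ∧ rd G F W = ∅ ∧ (jm ∩ W).card = 1))
    (ht : ∑ v ∈ W, t v = jw.card)
    (hC : ∀ A, G.AdmZ fr F (G.vs \ W) A → G.pi (G.al g1) ∈ A → Even A.card →
      G.val z t (A ∪ W) ≠ 3)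
    (hB : ∀ A, G.AdmZ fr F (G.vs \ W) A → G.pi (G.al g1) ∈ A → Odd A.card →
      G.bd (A ∪ W) ≠ ∅) :
    ∃ M1, G.Half (G.vs \ W) M1 ∧ (∀ d ∈ M1, 0 < z d) ∧ ∃ f ∈ G.bd W, 0 < z f ∧
      (∀ d ∈ G.bd W, (G.al d ∈ M1 ↔ d = f)) ∧
      (∀ X, G.Adm fr F X → X ⊆ G.vs \ W →
        (Odd X.card ∨ (jw = ∅ ∧ jm.Nonempty ∧ jm ⊆ X)) → ∃ d ∈ G.bd X, d ∉ M1) ∧
      (∀ A, G.AdmZ fr F (G.vs \ W) A → G.pi (G.al g1) ∈ A →
        (Even A.card ∨ (jm.Nonempty ∧ jm ∩ (G.vs \ W) ⊆ A)) →
        (∃ d ∈ G.bd A, d ∉ F ∧ G.pi (G.al d) ∉ W ∧ d ∉ M1) ∨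
        (∃ d ∈ G.bd W, d ∉ F ∧ G.pi (G.al d) ∉ A ∧ d ≠ f)) := by
  have hF := hh.inst.fresh
  have hw := hh.inst.wt
  have hW := hc.hW
  set U := G.vs \ W with hUdef
  have hUs : U ⊆ G.vs := sdiff_subset
  have hUi : ∀ v ∈ G.vs, (v ∈ U ↔ v ∉ W) := fun v hv => by
    rw [hUdef, mem_sdiff]
    exact ⟨fun h1 => h1.2, fun h1 => ⟨hv, h1⟩⟩
  have hc' : G.FC F U (G.al g1) (G.al g2) := hc.symm hF
  have hw0 : (G.con W ω hω hW).Wt z (tcon t W ω) := hw.con hω hW hWo h3
  have hjw' : (jw = ∅ ∧ (rd G F W).card = 1) ∨ (jw = {ω} ∧ rd G F W = ∅) := by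
    rcases hjw with h1 | h1
    · exact Or.inl ⟨h1.1, h1.2.1⟩
    · exact Or.inr ⟨h1.1, h1.2.1⟩
  have hfrB := ca_frB (B := ∅) hω hW hUdef hF hc' hu hjw'
  have hωU : ω ∉ U := fun h1 => (mem_sdiff.1 h1).2 hω
  have hUc : U.card + W.card = G.vs.card := card_sdiff_add_card_eq_card hW
  have hev := hh.inst.even
  have hvsc : (G.con W ω hω hW).vs.card = U.card + 1 := by
    change (U ∪ {ω}).card = _
    rw [card_union_of_disjoint (disjoint_singleton_right.2 hωU), card_singleton]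
  set jm' := (jm ∩ U) ∪ jw with hjm'
  have hjU : ∀ v ∈ jm, v ∉ W → v ∈ U := fun v h1 h2 => mem_sdiff.2 ⟨hF.fsub (hF.jms h1), h2⟩
  have hjm2 : jm' = ∅ ∨ jm'.card = 2 := by
    rcases hjw with ⟨h1, -, h2⟩ | ⟨h1, -, h2⟩
    · have h4 : jm' = jm := by
        rw [hjm', h1, union_empty, inter_eq_left]
        exact fun v hv => hjU v hv (disjoint_left.1 h2 hv)
      rw [h4]
      exact hh.inst.jm2
    · right
      have h4 : (jm ∩ U).card + (jm ∩ W).card = jm.card := by
        have k0 : jm ∩ U = jm \ W := by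
          ext v
          rw [mem_inter, mem_sdiff, mem_sdiff]
          exact ⟨fun k => ⟨k.1, k.2.2⟩, fun k => ⟨k.1, hF.fsub (hF.jms k.1), k.2⟩⟩
        rw [k0]
        exact card_sdiff_add_card_inter jm W
      have h5 : jm.card = 2 := by
        rcases hh.inst.jm2 with k1 | k1
        · rw [k1, empty_inter, card_empty] at h2
          omega
        · exact k1
      rw [hjm', h1, card_union_of_disjoint, card_singleton]
      · omega
      · rw [disjoint_singleton_right]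
        exact fun k => hωU (mem_inter.1 k).2
  have hXj : ∀ A, A ⊆ U → (insert ω A ∩ jm').card = (A ∩ jm).card + jw.card := by
    intro A hA
    have h1 : insert ω A ∩ jm' = (A ∩ jm) ∪ jw := by
      ext v
      rw [mem_inter, mem_insert, mem_union, mem_inter, mem_union, mem_inter]
      constructor
      · rintro ⟨k1 | k1, k2 | k2⟩
        · exact absurd (k1 ▸ k2.2) hωU
        · exact Or.inr k2
        · exact Or.inl ⟨k1, k2.1⟩
        · exact Or.inr k2
      · rintro (⟨k1, k2⟩ | k1)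
        · exact ⟨Or.inr k1, Or.inl ⟨k2, hA k1⟩⟩
        · refine ⟨Or.inl ?_, Or.inr k1⟩
          rcases hjw with ⟨k2, -⟩ | ⟨k2, -⟩
          · rw [k2] at k1
            exact absurd k1 (notMem_empty v)
          · rw [k2] at k1
            exact mem_singleton.1 k1
    rw [h1, card_union_of_disjoint]
    rw [disjoint_left]
    intro v k1 k2
    rcases hjw with ⟨k3, -⟩ | ⟨k3, -⟩
    · rw [k3] at k2
      exact notMem_empty v k2
    · rw [k3, mem_singleton] at k2
      exact hωU (k2 ▸ hA (mem_inter.1 k1).1)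
  -- value of a union through `ω`
  have hval : ∀ A, G.AdmZ fr F U A → G.pi (G.al g1) ∈ A →
      G.val z t (A ∪ W) = ((G.con W ω hω hW).bd (insert ω A)).card +
        (insert ω A ∩ jm').card := by
    intro A hA hg
    have hdAW : Disjoint A W := by
      rw [disjoint_left]
      exact fun v k1 => (mem_sdiff.1 (hA.subZ k1)).2
    have hsub : insert ω A ⊆ (G.con W ω hω hW).vs := by
      intro v hv
      change v ∈ U ∪ {ω}
      rcases mem_insert.1 hv with rfl | hv
      · exact mem_union_right _ (mem_singleton_self _)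
      · exact mem_union_left _ (hA.subZ hv)
    have h1 : G.bd (A ∪ W) = (G.con W ω hω hW).bd (insert ω A) := by
      rw [con_bd hω hW hsub]
      congr 1
      unfold pre
      rw [if_pos (mem_insert_self _ _)]
      ext v
      rw [mem_union, mem_union, mem_insert]
      constructor
      · rintro (k1 | k1)
        · exact Or.inl (Or.inr k1)
        · exact Or.inr k1
      · rintro ((k1 | k1) | k1)
        · exact Or.inr (k1 ▸ hω)
        · exact Or.inl k1
        · exact Or.inr k1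
    have h2 : ∑ d ∈ G.bd (A ∪ W), z d = ((G.con W ω hω hW).bd (insert ω A)).card := by
      rw [h1]
      have h4 : ∑ d ∈ (G.con W ω hω hW).bd (insert ω A), z d =
          ∑ _d ∈ (G.con W ω hω hW).bd (insert ω A), (1 : ℝ) := by
        refine sum_congr rfl fun d hd => ?_
        rcases (ca_bd hω hW hUdef hF hc' hA hg).1 hd with ⟨k1, -, -⟩ | ⟨k1, -, -⟩
        · obtain ⟨k2, k3, -⟩ := mem_bd.1 k1
          exact hF.unit d k2 (hA.sub k3)
        · exact hu d k1
      rw [h4, sum_const, nsmul_eq_mul, mul_one]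
    have h5 := hF.sum_t hw hA.sub
    unfold val
    rw [h2, sum_union hdAW, h5, ht, hXj A hA.subZ]
    push_cast
    ring
  have hraw : (G.con W ω hω hW).RawI z (tcon t W ω) (insert ω (fr ∩ U))
      (F.filter fun d => G.pi d ∈ U ∨ G.pi (G.al d) ∈ U) jm' ∅ 0 := by
    refine ⟨con_even hω hW hev hWo, hw0, by rw [con_tau hω hW]; exact hh.inst.tau, hfrB, hjm2,
      ?_, fun _ _ _ _ _ => Nat.zero_le _, ?_⟩
    · intro X hX hXB ho
      by_cases hωX : ω ∈ X
      · obtain ⟨h1, h2, h4⟩ := ca_adm_in hω hW hUdef hF hc' hX hωX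
        have hXc : X.card = (X.erase ω).card + 1 := (card_erase_add_one hωX).symm
        have hAe : Even (X.erase ω).card := by
          rw [Nat.odd_iff] at ho
          rw [Nat.even_iff]
          omega
        have hdAW : Disjoint (X.erase ω) W := by
          rw [disjoint_left]
          exact fun v k1 => (mem_sdiff.1 (h2.subZ k1)).2
        have hAe' := Nat.even_iff.1 hAe
        have hodd : Odd (X.erase ω ∪ W).card := by
          rw [card_union_of_disjoint hdAW]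
          rw [Nat.odd_iff] at hWo ⊢
          omega
        have h6 := hw.cut _ (union_subset (h2.subZ.trans hUs) hW) hodd
        have h7 := hval _ h2 h4
        rw [← h1] at h7
        have h8 : 3 < G.val z t (X.erase ω ∪ W) := lt_of_le_of_ne h6 (Ne.symm (hC _ h2 h4 hAe))
        rw [h7] at h8
        have h9 : 3 < ((G.con W ω hω hW).bd X).card + (X ∩ jm').card := by exact_mod_cast h8
        have h10 := hfrB.bd_par hX hXB
        rw [Nat.odd_iff] at ho
        omega
      · obtain ⟨h1, h2⟩ := ca_adm_out hω hW hUdef hF hX hωX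
        rw [ca_bd_out hω hW hUdef h1]
        have h4 := hh.inst.cc0 h2 ho
        have h5 : X ∩ jm = X ∩ jm' := by
          ext v
          rw [mem_inter, mem_inter, hjm', mem_union, mem_inter]
          constructor
          · rintro ⟨k1, k2⟩
            exact ⟨k1, Or.inl ⟨k2, h1 k1⟩⟩
          · rintro ⟨k1, k2 | k2⟩
            · exact ⟨k1, k2.1⟩
            · exfalso
              rcases hjw with ⟨k3, -⟩ | ⟨k3, -⟩
              · rw [k3] at k2
                exact notMem_empty v k2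
              · rw [k3, mem_singleton] at k2
                exact hωX (k2 ▸ k1)
        rw [← h5]
        exact h4
    · intro X hX hXB heX hne hjX
      by_cases hωX : ω ∈ X
      · obtain ⟨h1, h2, h4⟩ := ca_adm_in hω hW hUdef hF hc' hX hωX
        have hXc : X.card = (X.erase ω).card + 1 := (card_erase_add_one hωX).symm
        have hAe : Odd (X.erase ω).card := by
          rw [Nat.even_iff] at heX
          rw [Nat.odd_iff]
          omega
        have h10 := hfrB.bd_par hX hXB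
        have h11 : X ∩ jm' = jm' := inter_eq_right.2 hjX
        have h12 : jm'.card = 2 := by
          rcases hjm2 with k1 | k1
          · rw [k1] at hne
            exact absurd hne not_nonempty_empty
          · exact k1
        have h13 := hB _ h2 h4 hAe
        have h14 : ((G.con W ω hω hW).bd X).card ≠ 0 := by
          intro k1
          apply h13
          have hsub : X ⊆ (G.con W ω hω hW).vs := fun v hv => hfrB.fsub (hX.sub hv)
          rw [card_eq_zero, con_bd hω hW hsub] at k1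
          rw [← k1]
          congr 1
          rw [pre_eq_union hω hωX]
        rw [h11, h12] at h10
        rw [Nat.even_iff] at heX
        omega
      · rcases hjw with ⟨k1, -, k2⟩ | ⟨k1, -⟩
        · obtain ⟨h1, h2⟩ := ca_adm_out hω hW hUdef hF hX hωX
          have k3 : jm' = jm := by
            rw [hjm', k1, union_empty, inter_eq_left]
            exact fun v hv => hjU v hv (disjoint_left.1 k2 hv)
          rw [ca_bd_out hω hW hUdef h1]
          rw [k3] at hne hjX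
          exact hh.inst.b00 h2 heX hne hjX
        · exfalso
          refine hωX (hjX ?_)
          rw [hjm', k1]
          exact mem_union_right _ (mem_singleton_self _)
  have hszz : (insert ω (fr ∩ U)).card < fr.card ∨ ((insert ω (fr ∩ U)).card = fr.card ∧
      ((G.con W ω hω hW).vs.card < G.vs.card ∨ ((G.con W ω hω hW).vs.card = G.vs.card ∧
      (G.con W ω hω hW).sup z < G.sup z))) := by
    have k1 : ω ∉ fr ∩ U := fun k2 => hωU (mem_inter.1 k2).2
    rw [card_insert_of_notMem k1, hvsc]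
    have k2 : (fr \ W).card + (fr ∩ W).card = fr.card := card_sdiff_add_card_inter fr W
    have k5 : fr ∩ U = fr \ W := by
      ext v
      rw [mem_inter, mem_sdiff, mem_sdiff]
      exact ⟨fun k => ⟨k.1, k.2.2⟩, fun k => ⟨k.1, hF.fsub k.1, k.2⟩⟩
    have k3 : 1 ≤ (fr ∩ W).card := by
      refine card_pos.2 ⟨ω, mem_inter.2 ⟨?_, hω⟩⟩
      rw [hωe]
      exact hF.Ffr _ hc.f1
    rw [k5]
    omega
  obtain ⟨M', hM', hpos, hhit⟩ := hh.solve hraw hszz
  have side : Side G (G.con W ω hω hW) U ∅ := side_con hω hW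
  obtain ⟨f, hfM, hfW, hfU, huniq⟩ := con_one hω hW hM'
  have hfd := ((ca_ds hω hW).1 (hM'.sub hfM)).1
  have hfb : f ∈ G.bd W := mem_bd.2 ⟨hfd, hfW, hfU⟩
  have hj0 : jw = ∅ → jm' = jm := by
    intro k1
    rcases hjw with ⟨-, -, k2⟩ | ⟨k3, -⟩
    · rw [hjm', k1, union_empty, inter_eq_left]
      exact fun v hv => hjU v hv (disjoint_left.1 k2 hv)
    · rw [k3] at k1
      exact absurd k1 (singleton_ne_empty ω)
  refine ⟨M'.filter fun d => (G.con W ω hω hW).pi d ∈ U, side.half hM', fun d hd =>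
    hpos d (mem_filter.1 hd).1, f, hfb, hpos f hfM, ?_, ?_, ?_⟩
  · intro d hd
    obtain ⟨k1, k2, k3⟩ := mem_bd.1 hd
    have k4 := G.al_mem d k1
    have k5 := G.al_al d k1
    rw [mem_filter]
    constructor
    · rintro ⟨k8, -⟩
      have k9 := hM'.closed _ k8
      change G.al (G.al d) ∈ M' at k9
      rw [k5] at k9
      exact huniq d k9 k2
    · rintro rfl
      have k9 := hM'.closed _ hfM
      refine ⟨k9, ?_⟩
      rw [ca_piZ hω hW k3]
      exact (hUi _ (G.pi_mem _ k4)).2 k3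
  · intro X hX hXU ho
    have h1 := ca_adm_up hω hW hUdef hX hXU
    obtain ⟨d, hd, hdM⟩ := hhit X h1 (disjoint_empty_right _) (by
      rcases ho with ho | ⟨ho1, ho2, ho4⟩
      · exact Or.inl ho
      · rw [hj0 ho1]
        exact Or.inr ⟨ho2, ho4⟩)
    rw [ca_bd_out hω hW hUdef hXU] at hd
    exact ⟨d, hd, fun h4 => hdM (mem_filter.1 h4).1⟩
  · intro A hA hg ho
    have h1 := ca_adm_ins hω hW hUdef hF hc' hA hg
    have hωA : ω ∉ A := fun h2 => hωU (hA.subZ h2)
    have h4 : Odd (insert ω A).card ∨ (jm'.Nonempty ∧ jm' ⊆ insert ω A) := by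
      rcases ho with ho | ⟨ho1, ho2⟩
      · left
        rw [card_insert_of_notMem hωA]
        exact ho.add_one
      · right
        refine ⟨?_, ?_⟩
        · rcases hjm2 with k1 | k1
          · exfalso
            rcases hjw with ⟨k2, -, -⟩ | ⟨k2, -, -⟩
            · rw [hj0 k2] at k1
              rw [k1] at ho1
              exact not_nonempty_empty ho1
            · have k3 : ω ∈ jm' := by
                rw [hjm', k2]
                exact mem_union_right _ (mem_singleton_self _)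
              rw [k1] at k3
              exact notMem_empty _ k3
          · exact card_pos.1 (by omega)
        · intro v hv
          rw [hjm'] at hv
          rcases mem_union.1 hv with k1 | k1
          · exact mem_insert_of_mem (ho2 k1)
          · rcases hjw with ⟨k2, -⟩ | ⟨k2, -⟩
            · rw [k2] at k1
              exact absurd k1 (notMem_empty v)
            · rw [k2] at k1
              rw [mem_singleton.1 k1]
              exact mem_insert_self _ _
    obtain ⟨d, hd, hdM⟩ := hhit _ h1 (disjoint_empty_right _) h4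
    rcases (ca_bd hω hW hUdef hF hc' hA hg).1 hd with ⟨h5, h6, h7⟩ | ⟨h5, h6, h7⟩
    · exact Or.inl ⟨d, h5, h6, h7, fun h8 => hdM (mem_filter.1 h8).1⟩
    · exact Or.inr ⟨d, h5, h6, h7, fun h8 => hdM (h8 ▸ hfM)⟩

end MG

end RH
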