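import Pool.Agent.Lib.RH.SFcE

/-! The expanded side of a set which is cut by two F-edges: the complement `Y` of `Z` is contracted
to a vertex `ω` on the circuit, the third unit is moved to `p'`, with edges `ω p`, `p p'`; some
edges `S` may be deleted. -/

set_option autoImplicit false

namespace RH

open Finset Classical

namespace MG

variable {V D : Type*}

/-- new names -/
theorem exists_names [Infinite V] [Infinite D] (A : Finset V) (B : Finset D) :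
    ∃ (a b : V) (e e' h h' : D), a ∉ A ∧ b ∉ A ∧ a ≠ b ∧ e ∉ B ∧ e' ∉ B ∧ h ∉ B ∧ h' ∉ B ∧
      e ≠ e' ∧ e ≠ h ∧ e ≠ h' ∧ e' ≠ h ∧ e' ≠ h' ∧ h ≠ h' := by
  obtain ⟨a, ha⟩ := Infinite.exists_notMem_finset A
  obtain ⟨b, hb⟩ := Infinite.exists_notMem_finset (insert a A)
  obtain ⟨e, he⟩ := Infinite.exists_notMem_finset B
  obtain ⟨e', he'⟩ := Infinite.exists_notMem_finset (insert e B)
  obtain ⟨h, hh⟩ := Infinite.exists_notMem_finset (insert e' (insert e B))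
  obtain ⟨h', hh'⟩ := Infinite.exists_notMem_finset (insert h (insert e' (insert e B)))
  simp only [mem_insert, not_or] at hb he' hh hh'
  exact ⟨a, b, e, e', h, h', ha, hb.2, (Ne.symm hb.1), he, he'.2, hh.2.2, hh'.2.2.2,
    Ne.symm he'.1, Ne.symm hh.2.1, Ne.symm hh'.2.2.1, Ne.symm hh.1, Ne.symm hh'.2.1,
    Ne.symm hh'.1⟩

variable {G : MG V D} {z : D → ℝ} {t : V → ℝ} {fr : Finset V} {F : Finset D} {jm sx : Finset V}
variable {ep : V → ℕ} {m : ℕ} {W Y Z A X B : Finset V} {f : D}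
variable {ω p p' : V} {e e' h h' c1 c2 : D} {S : Finset D} {M : Finset D}

/-- the third darts at `Y` -/
noncomputable def rd (G : MG V D) (F : Finset D) (Y : Finset V) : Finset D :=
  (G.bd Y).filter fun d => d ∉ F

section

variable (hω : ω ∈ Y) (hY : Y ⊆ G.vs)
variable (x : ExD (G.con Y ω hω hY) ω p p' p' (rd G F Y) e e' h h')
variable (hS : ∀ d ∈ S, (exG x).al d ∈ S)

/-- deletable darts -/
structure Dl (G : MG V D) (fr : Finset V) (F : Finset D) (Y : Finset V) (h h' : D)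
    (S : Finset D) : Prop where
  sub : ∀ d ∈ S, d = h ∨ d = h' ∨ (d ∈ G.ds ∧ d ∉ F ∧
    ((G.pi d ∈ Y ∧ G.pi (G.al d) ∉ Y) ∨ (G.pi d ∉ Y ∧ G.pi (G.al d) ∈ Y ∧ G.pi d ∉ fr)))

include hY in
theorem nY {Z : Finset V} (hZ : Z = G.vs \ Y) {v : V} (hv : v ∈ Z) : v ∉ Y := by
  rw [hZ] at hv
  exact (mem_sdiff.1 hv).2

theorem gx_pi {d : D} (hd : d ∈ G.ds) (hn : ¬ (G.pi d ∈ Y ∧ G.pi (G.al d) ∈ Y)) :
    ((exG x).delG S hS).pi d = if d ∈ rd G F Y then p' else if G.pi d ∈ Y then ω else G.pi d := by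
  have h1 : d ∈ (G.con Y ω hω hY).ds := mem_filter.2 ⟨hd, hn⟩
  exact x.pi_old h1

theorem gx_al {d : D} (hd : d ∈ G.ds) (hn : ¬ (G.pi d ∈ Y ∧ G.pi (G.al d) ∈ Y)) :
    ((exG x).delG S hS).al d = G.al d := by
  have h1 : d ∈ (G.con Y ω hω hY).ds := mem_filter.2 ⟨hd, hn⟩
  exact x.al_old h1

theorem gx_piZ {d : D} (hd : d ∈ G.ds) (hn : G.pi d ∉ Y) :
    ((exG x).delG S hS).pi d = G.pi d := by
  rw [gx_pi hω hY x hS hd (fun h1 => hn h1.1), if_neg hn, if_neg]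
  exact fun h1 => hn (mem_bd.1 (mem_filter.1 h1).1).2.1

theorem gx_piF {d : D} (hd : d ∈ G.ds) (hn : G.pi d ∈ Y) (ho : G.pi (G.al d) ∉ Y) (hf : d ∈ F) :
    ((exG x).delG S hS).pi d = ω := by
  rw [gx_pi hω hY x hS hd (fun h1 => ho h1.2), if_pos hn, if_neg]
  exact fun h1 => (mem_filter.1 h1).2 hf

theorem gx_piR {d : D} (hd : d ∈ G.ds) (hn : G.pi d ∈ Y) (ho : G.pi (G.al d) ∉ Y) (hf : d ∉ F) :
    ((exG x).delG S hS).pi d = p' := by
  rw [gx_pi hω hY x hS hd (fun h1 => ho h1.2), if_pos]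
  exact mem_filter.2 ⟨mem_bd.2 ⟨hd, hn, ho⟩, hf⟩

theorem gx_ds {d : D} : d ∈ ((exG x).delG S hS).ds ↔
    (d = e ∨ d = e' ∨ d = h ∨ d = h' ∨ (d ∈ G.ds ∧ ¬ (G.pi d ∈ Y ∧ G.pi (G.al d) ∈ Y))) ∧
      d ∉ S := by
  change d ∈ (insert e (insert e' (insert h (insert h' (G.con Y ω hω hY).ds)))) \ S ↔ _
  rw [mem_sdiff]
  simp only [mem_insert]
  have h1 : d ∈ (G.con Y ω hω hY).ds ↔ d ∈ G.ds ∧ ¬ (G.pi d ∈ Y ∧ G.pi (G.al d) ∈ Y) :=
    mem_filter
  rw [h1]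

theorem gx_vs : ((exG x).delG S hS).vs = insert p (insert p' ((G.vs \ Y) ∪ {ω})) := rfl

variable (hn : e ∉ G.ds ∧ e' ∉ G.ds ∧ h ∉ G.ds ∧ h' ∉ G.ds) (hdl : Dl G fr F Y h h' S)
variable (hZ : Z = G.vs \ Y) (hp : p ∉ G.vs ∧ p' ∉ G.vs)

include hn hdl hZ hp in
theorem gx_side : Side G ((exG x).delG S hS) Z (S.filter fun d => d ∈ G.ds ∧ G.pi d ∉ Y) := by
  have s0 : Side G (G.con Y ω hω hY) Z ∅ := by
    rw [hZ]
    exact side_con hω hY
  have hωZ : ω ∉ Z := fun h1 => nY hY hZ h1 hω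
  have s1 := s0.exG x hωZ hn
  have hZi : ∀ v ∈ G.vs, (v ∈ Z ↔ v ∉ Y) := fun v hv => by
    rw [hZ, mem_sdiff]
    exact ⟨fun h1 => h1.2, fun h1 => ⟨hv, h1⟩⟩
  have hpZ : p ∉ Z := fun h1 => hp.1 (s0.ZG h1)
  have hpZ' : p' ∉ Z := fun h1 => hp.2 (s0.ZG h1)
  refine ⟨s1.ZG, s1.Zs, ?_, ?_, ?_, ?_⟩
  · intro d hd
    obtain ⟨h1, h2, h3⟩ := mem_filter.1 hd
    refine ⟨h2, (hZi _ (G.pi_mem d h2)).2 h3, ?_⟩
    rcases hdl.sub d h1 with h4 | h4 | ⟨-, -, h4 | h4⟩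
    · exact absurd (h4 ▸ h2) hn.2.2.1
    · exact absurd (h4 ▸ h2) hn.2.2.2
    · exact absurd h4.1 h3
    · exact fun h5 => nY hY hZ h5 h4.2.1
  · intro d hd hpd h1
    have h2 : G.pi d ∉ Y := nY hY hZ hpd
    have h3 : ¬ (G.pi d ∈ Y ∧ G.pi (G.al d) ∈ Y) := fun h4 => h2 h4.1
    refine ⟨(gx_ds hω hY x hS).2 ⟨Or.inr (Or.inr (Or.inr (Or.inr ⟨hd, h3⟩))), fun h4 => ?_⟩,
      gx_piZ hω hY x hS hd h2, gx_al hω hY x hS hd h3⟩
    exact h1 (mem_filter.2 ⟨h4, hd, h2⟩)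
  · intro d hd hpd
    obtain ⟨h1, h2⟩ := (gx_ds hω hY x hS).1 hd
    have h3 := s1.dn d ?_ hpd
    · exact ⟨h3.1, h3.2.1, fun h4 => h2 (mem_filter.1 h4).1⟩
    · exact (mem_sdiff.1 hd).1
  · intro d hd hpd h1 h2
    exact s1.out d hd hpd (notMem_empty d) h2

variable (hF : G.FrS z fr F jm) (hc : G.FC F Z c1 c2)

include hn hdl hZ hp hF hc in
theorem gx_frB : ((exG x).delG S hS).FrB (exZ z 2 e e' h h') (insert ω (fr ∩ Z))
    (F.filter fun d => G.pi d ∈ Z ∨ G.pi (G.al d) ∈ Z) (jm ∩ Z) B := by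
  have s := gx_side hω hY x hS hn hdl hZ hp
  have hωZ : ω ∉ Z := fun h1 => nY hY hZ h1 hω
  have hZi : ∀ v ∈ G.vs, (v ∈ Z ↔ v ∉ Y) := fun v hv => by
    rw [hZ, mem_sdiff]
    exact ⟨fun h1 => h1.2, fun h1 => ⟨hv, h1⟩⟩
  have hSF : ∀ d ∈ S, d ∈ G.ds → d ∉ F := by
    intro d h1 h2
    rcases hdl.sub d h1 with h3 | h3 | h3
    · exact absurd (h3 ▸ h2) hn.2.2.1
    · exact absurd (h3 ▸ h2) hn.2.2.2
    · exact h3.2.1
  have hbY : ∀ d ∈ F, (G.pi d ∈ Z ∨ G.pi (G.al d) ∈ Z) →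
      ¬ (G.pi d ∈ Y ∧ G.pi (G.al d) ∈ Y) := by
    intro d _ h2 h3
    rcases h2 with h2 | h2
    · exact nY hY hZ h2 h3.1
    · exact nY hY hZ h2 h3.2
  -- darts at `ω`
  have hat : ∀ d ∈ ((exG x).delG S hS).ds, ((exG x).delG S hS).pi d = ω →
      d = e ∨ (d ∈ F ∧ G.pi d ∈ Y ∧ G.pi (G.al d) ∉ Y) := by
    intro d hd hpd
    obtain ⟨h1, -⟩ := (gx_ds hω hY x hS).1 hd
    have hωv : ω ∈ G.vs := hY hω
    rcases h1 with h1 | h1 | h1 | h1 | ⟨h1, h2⟩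
    · exact Or.inl h1
    · rw [h1] at hpd
      have h3 : ((exG x).delG S hS).pi e' = p := x.pi_e'
      rw [h3] at hpd
      exact absurd (hpd ▸ hωv) hp.1
    · rw [h1] at hpd
      have h3 : ((exG x).delG S hS).pi h = p := x.pi_h
      rw [h3] at hpd
      exact absurd (hpd ▸ hωv) hp.1
    · rw [h1] at hpd
      have h3 : ((exG x).delG S hS).pi h' = p' := x.pi_h'
      rw [h3] at hpd
      exact absurd (hpd ▸ hωv) hp.2
    · rw [gx_pi hω hY x hS h1 h2] at hpd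
      by_cases h3 : d ∈ rd G F Y
      · rw [if_pos h3] at hpd
        exact absurd (hpd ▸ hωv) hp.2
      · rw [if_neg h3] at hpd
        by_cases h4 : G.pi d ∈ Y
        · have h5 : G.pi (G.al d) ∉ Y := fun h6 => h2 ⟨h4, h6⟩
          refine Or.inr ⟨?_, h4, h5⟩
          by_contra h6
          exact h3 (mem_filter.2 ⟨mem_bd.2 ⟨h1, h4, h5⟩, h6⟩)
        · rw [if_neg h4] at hpd
          exact absurd (hpd ▸ hω) h4
  have heF : e ∉ F := fun h1 => hn.1 (hF.Fsub h1)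
  have heS : e ∉ S := by
    intro h1
    rcases hdl.sub e h1 with h2 | h2 | h2
    · exact x.n2 h2
    · exact x.n3 h2
    · exact hn.1 h2.1
  have hac1 := G.al_al c1 (hF.Fsub hc.f1)
  have hac2 := G.al_al c2 (hF.Fsub hc.f2)
  have htwo : ∀ d, (d ∈ F.filter (fun d => G.pi d ∈ Z ∨ G.pi (G.al d) ∈ Z) ∧
      ((exG x).delG S hS).pi d = ω) ↔ d = G.al c1 ∨ d = G.al c2 := by
    intro d
    constructor
    · rintro ⟨h1, h2⟩
      obtain ⟨h3, h4⟩ := mem_filter.1 h1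
      have h5 := hF.Fsub h3
      have h6 : d ∈ ((exG x).delG S hS).ds :=
        (gx_ds hω hY x hS).2 ⟨Or.inr (Or.inr (Or.inr (Or.inr ⟨h5, hbY d h3 h4⟩))),
          fun h7 => hSF d h7 h5 h3⟩
      rcases hat d h6 h2 with h7 | ⟨-, h7, h8⟩
      · exact absurd (h7 ▸ h5) hn.1
      · have h9 := G.al_al d h5
        have h10 : G.pi (G.al d) ∈ Z := (hZi _ (G.pi_mem _ (G.al_mem d h5))).2 h8
        rcases hc.only (G.al d) (hF.Fal d h3) h10 (by
          rw [h9]; exact fun h11 => nY hY hZ h11 h7) with h11 | h11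
        · exact Or.inl (by rw [← h9, h11])
        · exact Or.inr (by rw [← h9, h11])
    · have key : ∀ c, c ∈ F → G.pi c ∈ Z → G.pi (G.al c) ∉ Z → G.al (G.al c) = c →
          (G.al c ∈ F.filter (fun d => G.pi d ∈ Z ∨ G.pi (G.al d) ∈ Z) ∧
          ((exG x).delG S hS).pi (G.al c) = ω) := by
        intro c k1 k2 k3 k4
        have k5 := G.al_mem c (hF.Fsub k1)
        have k6 : G.pi (G.al c) ∈ Y := by
          by_contra k7
          exact k3 ((hZi _ (G.pi_mem _ k5)).2 k7)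
        refine ⟨mem_filter.2 ⟨hF.Fal c k1, Or.inr (by rw [k4]; exact k2)⟩, ?_⟩
        exact gx_piF hω hY x hS k5 k6 (by rw [k4]; exact nY hY hZ k2) (hF.Fal c k1)
      rintro (rfl | rfl)
      · exact key c1 hc.f1 hc.w1 hc.u1 hac1
      · exact key c2 hc.f2 hc.w2 hc.u2 hac2
  refine s.frB hF ?_ ?_ ?_ ?_ ?_ ?_ ?_ ?_ ?_ ?_ ?_ ?_ ?_ ?_
  · intro v hv
    rw [gx_vs]
    rcases mem_insert.1 hv with rfl | hv
    · simp
    · have h1 := s.Zs (mem_inter.1 hv).2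
      rwa [gx_vs] at h1
  · intro d hd
    obtain ⟨h1, h2⟩ := mem_filter.1 hd
    have h5 := hF.Fsub h1
    exact (gx_ds hω hY x hS).2 ⟨Or.inr (Or.inr (Or.inr (Or.inr ⟨h5, hbY d h1 h2⟩))),
      fun h7 => hSF d h7 h5 h1⟩
  · intro d hd
    obtain ⟨h1, h2⟩ := mem_filter.1 hd
    rw [gx_al hω hY x hS (hF.Fsub h1) (hbY d h1 h2)]
    refine mem_filter.2 ⟨hF.Fal d h1, ?_⟩
    rw [G.al_al d (hF.Fsub h1)]
    exact h2.symm
  · intro v hv
    exact mem_insert_of_mem (mem_inter.2 ⟨hF.jms (mem_inter.1 hv).1, (mem_inter.1 hv).2⟩)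
  · intro v hv hvZ
    rcases mem_insert.1 hv with rfl | hv
    · exact absurd hvZ hωZ
    · exact (mem_inter.1 hv).1
  · intro d hd hpd _ _
    rw [mem_filter]
    exact ⟨fun h1 => h1.1, fun h1 => ⟨h1, Or.inl hpd⟩⟩
  · intro d hd _ _
    unfold exZ
    rw [if_neg, if_neg]
    · rintro (h1 | h1)
      · exact hn.2.2.1 (h1 ▸ hd)
      · exact hn.2.2.2 (h1 ▸ hd)
    · rintro (h1 | h1)
      · exact hn.1 (h1 ▸ hd)
      · exact hn.2.1 (h1 ▸ hd)
  · intro d hd hpd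
    exfalso
    obtain ⟨h1, h2, h3⟩ := mem_filter.1 hd
    rcases hdl.sub d h1 with h4 | h4 | ⟨-, -, h4 | h4⟩
    · exact hn.2.2.1 (h4 ▸ h2)
    · exact hn.2.2.2 (h4 ▸ h2)
    · exact h3 h4.1
    · rcases mem_insert.1 hpd with h5 | h5
      · rw [h5] at h3
        exact h3 hω
      · exact h4.2.2 (mem_inter.1 h5).1
  · intro v _ hv
    exact Or.inl (mem_inter.1 hv).1
  · intro v hvZ _ hv
    exact Or.inl (mem_inter.2 ⟨hv, hvZ⟩)
  · intro v hv hvZ _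
    rcases mem_insert.1 hv with rfl | hv
    · have h1 : ((F.filter fun d => G.pi d ∈ Z ∨ G.pi (G.al d) ∈ Z).filter
          fun d => ((exG x).delG S hS).pi d = v) = {G.al c1, G.al c2} := by
        ext d
        rw [mem_filter, mem_insert, mem_singleton]
        exact htwo d
      rw [h1, card_pair]
      intro h2
      exact hc.ne (by rw [← hac1, h2, hac2])
    · exact absurd (mem_inter.1 hv).2 hvZ
  · intro v hv hvZ _ _
    rcases mem_insert.1 hv with rfl | hv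
    · rw [card_eq_one]
      refine ⟨e, ?_⟩
      ext d
      rw [mem_filter, mem_singleton, mem_st]
      constructor
      · rintro ⟨⟨h1, h2⟩, h3⟩
        rcases hat d h1 h2 with h4 | ⟨h4, h5, h6⟩
        · exact h4
        · refine absurd (mem_filter.2 ⟨h4, Or.inr ?_⟩) h3
          exact (hZi _ (G.pi_mem _ (G.al_mem d (hF.Fsub h4)))).2 h6
      · rintro rfl
        refine ⟨⟨(gx_ds hω hY x hS).2 ⟨Or.inl rfl, heS⟩, x.pi_e⟩, fun h1 => ?_⟩
        exact heF (mem_filter.1 h1).1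
    · exact absurd (mem_inter.1 hv).2 hvZ
  · intro v hv hvZ
    exact absurd (mem_inter.1 hv).2 hvZ
  · intro d hd hpd hvZ _
    rcases mem_insert.1 hpd with h1 | h1
    · rcases hat d hd h1 with h2 | ⟨h2, -⟩
      · rw [h2]
        exact x.z_e
      · have h3 := hF.Fsub h2
        have h4 : exZ z 2 e e' h h' d = z d := by
          unfold exZ
          rw [if_neg, if_neg]
          · rintro (h1 | h1)
            · exact hn.2.2.1 (h1 ▸ h3)
            · exact hn.2.2.2 (h1 ▸ h3)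
          · rintro (h1 | h1)
            · exact hn.1 (h1 ▸ h3)
            · exact hn.2.1 (h1 ▸ h3)
        rw [h4]
        exact hF.unit d h3 (hF.Ffr d h2)
    · exact absurd (mem_inter.1 h1).2 hvZ

include hZ hF in
theorem gx_adm_out {X : Finset V} (hX : ((exG x).delG S hS).Adm (insert ω (fr ∩ Z))
    (F.filter fun d => G.pi d ∈ Z ∨ G.pi (G.al d) ∈ Z) X) (ho : ω ∉ X) :
    X ⊆ Z ∧ G.Adm fr F X := by
  have hsub : ∀ v ∈ X, v ∈ fr ∧ v ∈ Z := fun v hv => by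
    rcases mem_insert.1 (hX.sub hv) with h1 | h1
    · exact absurd (h1 ▸ hv) ho
    · exact mem_inter.1 h1
  refine ⟨fun v hv => (hsub v hv).2, fun v hv => (hsub v hv).1, fun d hd hpd => ?_⟩
  have h1 := hF.Fsub hd
  have h2 := (hsub _ hpd).2
  have h3 : G.pi d ∉ Y := nY hY hZ h2
  have h4 := hX.clo d (mem_filter.2 ⟨hd, Or.inl h2⟩) (by
    rw [gx_piZ hω hY x hS h1 h3]; exact hpd)
  rw [gx_al hω hY x hS h1 (fun h5 => h3 h5.1)] at h4
  by_cases h5 : G.pi (G.al d) ∈ Y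
  · rw [gx_piF hω hY x hS (G.al_mem d h1) h5 (by rw [G.al_al d h1]; exact h3)
      (hF.Fal d hd)] at h4
    exact absurd h4 ho
  · rwa [gx_piZ hω hY x hS (G.al_mem d h1) h5] at h4

include hZ hF hc in
theorem gx_adm_in {X : Finset V} (hX : ((exG x).delG S hS).Adm (insert ω (fr ∩ Z))
    (F.filter fun d => G.pi d ∈ Z ∨ G.pi (G.al d) ∈ Z) X) (ho : ω ∈ X) :
    X = insert ω (X.erase ω) ∧ G.AdmZ fr F Z (X.erase ω) ∧ G.pi c1 ∈ X.erase ω := by
  have hsub : ∀ v ∈ X.erase ω, v ∈ fr ∧ v ∈ Z := fun v hv => by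
    rcases mem_insert.1 (hX.sub (mem_erase.1 hv).2) with h1 | h1
    · exact absurd h1 (mem_erase.1 hv).1
    · exact mem_inter.1 h1
  refine ⟨(insert_erase ho).symm, ⟨fun v hv => (hsub v hv).1, fun v hv => (hsub v hv).2, ?_⟩, ?_⟩
  · intro d hd hpd hpZ
    have h1 := hF.Fsub hd
    have h2 := (hsub _ hpd).2
    have h3 : G.pi d ∉ Y := nY hY hZ h2
    have h4 := hX.clo d (mem_filter.2 ⟨hd, Or.inl h2⟩) (by
      rw [gx_piZ hω hY x hS h1 h3]; exact (mem_erase.1 hpd).2)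
    have h5 : G.pi (G.al d) ∉ Y := nY hY hZ hpZ
    rw [gx_al hω hY x hS h1 (fun h5 => h3 h5.1), gx_piZ hω hY x hS (G.al_mem d h1) h5] at h4
    exact mem_erase.2 ⟨fun h6 => h5 (h6 ▸ hω), h4⟩
  · have h1 := hF.Fsub hc.f1
    have h2 := G.al_al c1 h1
    have h3 : G.pi c1 ∉ Y := nY hY hZ hc.w1
    have h4 : G.pi (G.al c1) ∈ Y := by
      by_contra h5
      refine hc.u1 ?_
      rw [hZ]
      exact mem_sdiff.2 ⟨G.pi_mem _ (G.al_mem c1 h1), h5⟩
    have h5 := hX.clo (G.al c1) (mem_filter.2 ⟨hF.Fal c1 hc.f1, Or.inr (by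
      rw [h2]; exact hc.w1)⟩) (by
      rw [gx_piF hω hY x hS (G.al_mem c1 h1) h4 (by rw [h2]; exact h3) (hF.Fal c1 hc.f1)]
      exact ho)
    rw [gx_al hω hY x hS (G.al_mem c1 h1) (fun h6 => h3 (by rw [h2] at h6; exact h6.2)), h2,
      gx_piZ hω hY x hS h1 h3] at h5
    exact mem_erase.2 ⟨fun h6 => h3 (h6 ▸ hω), h5⟩

include hZ hF in
theorem gx_adm_up {X : Finset V} (hX : G.Adm fr F X) (hXZ : X ⊆ Z) :
    ((exG x).delG S hS).Adm (insert ω (fr ∩ Z))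
      (F.filter fun d => G.pi d ∈ Z ∨ G.pi (G.al d) ∈ Z) X := by
  refine ⟨fun v hv => mem_insert_of_mem (mem_inter.2 ⟨hX.sub hv, hXZ hv⟩), fun d hd hpd => ?_⟩
  obtain ⟨h1, h2⟩ := mem_filter.1 hd
  have h3 := hF.Fsub h1
  have h4 : ¬ (G.pi d ∈ Y ∧ G.pi (G.al d) ∈ Y) := by
    intro h5
    rcases h2 with h2 | h2
    · exact nY hY hZ h2 h5.1
    · exact nY hY hZ h2 h5.2
  rw [gx_al hω hY x hS h3 h4]
  by_cases h5 : G.pi d ∈ Y
  · have h6 : G.pi (G.al d) ∉ Y := fun h7 => h4 ⟨h5, h7⟩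
    rw [gx_piF hω hY x hS h3 h5 h6 h1] at hpd
    exact absurd hω (nY hY hZ (hXZ hpd))
  · rw [gx_piZ hω hY x hS h3 h5] at hpd
    have h6 := hX.clo d h1 hpd
    rw [gx_piZ hω hY x hS (G.al_mem d h3) (nY hY hZ (hXZ h6))]
    exact h6

include hZ hF hc in
theorem gx_adm_ins {A : Finset V} (hA : G.AdmZ fr F Z A) (hg : G.pi c1 ∈ A) :
    ((exG x).delG S hS).Adm (insert ω (fr ∩ Z))
      (F.filter fun d => G.pi d ∈ Z ∨ G.pi (G.al d) ∈ Z) (insert ω A) := by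
  have hg2 : G.pi c2 ∈ A := (hc.both hF hA).1 hg
  refine ⟨?_, fun d hd hpd => ?_⟩
  · intro v hv
    rcases mem_insert.1 hv with h1 | h1
    · exact mem_insert.2 (Or.inl h1)
    · exact mem_insert_of_mem (mem_inter.2 ⟨hA.sub h1, hA.subZ h1⟩)
  obtain ⟨h1, h2⟩ := mem_filter.1 hd
  have h3 := hF.Fsub h1
  have h4 : ¬ (G.pi d ∈ Y ∧ G.pi (G.al d) ∈ Y) := by
    intro h5
    rcases h2 with h2 | h2
    · exact nY hY hZ h2 h5.1
    · exact nY hY hZ h2 h5.2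
  rw [gx_al hω hY x hS h3 h4]
  have h8 := G.al_al d h3
  by_cases h5 : G.pi d ∈ Y
  · have h6 : G.pi (G.al d) ∉ Y := fun h7 => h4 ⟨h5, h7⟩
    have h7 : G.pi (G.al d) ∈ Z := by
      rcases h2 with h2 | h2
      · exact absurd h5 (nY hY hZ h2)
      · exact h2
    rw [gx_piZ hω hY x hS (G.al_mem d h3) h6]
    rcases hc.only (G.al d) (hF.Fal d h1) h7 (by
      rw [h8]; exact fun h9 => nY hY hZ h9 h5) with h9 | h9
    · rw [h9]; exact mem_insert_of_mem hg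
    · rw [h9]; exact mem_insert_of_mem hg2
  · rw [gx_piZ hω hY x hS h3 h5] at hpd
    by_cases h6 : G.pi (G.al d) ∈ Y
    · rw [gx_piF hω hY x hS (G.al_mem d h3) h6 (by rw [h8]; exact h5) (hF.Fal d h1)]
      exact mem_insert_self _ _
    · rw [gx_piZ hω hY x hS (G.al_mem d h3) h6]
      have h7 : G.pi d ∈ A := by
        rcases mem_insert.1 hpd with h9 | h9
        · exact absurd (h9 ▸ hω) h5
        · exact h9
      refine mem_insert_of_mem (hA.clo d h1 h7 ?_)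
      rw [hZ]
      exact mem_sdiff.2 ⟨G.pi_mem _ (G.al_mem d h3), h6⟩

include hn hdl hZ hp hF hc in
/-- the boundary of a union through `ω` -/
theorem gx_bd {A : Finset V} (hA : G.AdmZ fr F Z A) (hg : G.pi c1 ∈ A) {d : D} :
    d ∈ ((exG x).delG S hS).bd (insert ω A) ↔ d = e ∨ (d ∈ G.bd A ∧ d ∉ F) := by
  have hg2 : G.pi c2 ∈ A := (hc.both hF hA).1 hg
  have hωv : ω ∈ G.vs := hY hω
  have hAv : ∀ v ∈ insert ω A, v ∈ G.vs := fun v hv => by
    rcases mem_insert.1 hv with h1 | h1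
    · exact h1 ▸ hωv
    · exact hF.fsub (hA.sub h1)
  have hpA : p ∉ insert ω A := fun h1 => hp.1 (hAv _ h1)
  have hpA' : p' ∉ insert ω A := fun h1 => hp.2 (hAv _ h1)
  have heS : e ∉ S := by
    intro h1
    rcases hdl.sub e h1 with h2 | h2 | h2
    · exact x.n2 h2
    · exact x.n3 h2
    · exact hn.1 h2.1
  have hωA : ω ∉ A := fun h1 => nY hY hZ (hA.subZ h1) hω
  have hadm := gx_adm_ins hω hY x hS hZ hF hc hA hg
  rw [mem_bd]
  constructor
  · rintro ⟨h1, h2, h3⟩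
    obtain ⟨h4, h5⟩ := (gx_ds hω hY x hS).1 h1
    rcases h4 with h4 | h4 | h4 | h4 | ⟨h4, h6⟩
    · exact Or.inl h4
    · rw [h4] at h2
      have h7 : ((exG x).delG S hS).pi e' = p := x.pi_e'
      rw [h7] at h2
      exact absurd h2 hpA
    · rw [h4] at h2
      have h7 : ((exG x).delG S hS).pi h = p := x.pi_h
      rw [h7] at h2
      exact absurd h2 hpA
    · rw [h4] at h2
      have h7 : ((exG x).delG S hS).pi h' = p' := x.pi_h'
      rw [h7] at h2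
      exact absurd h2 hpA'
    · right
      have hdF : d ∉ F := by
        intro h7
        refine h3 (hadm.clo d (mem_filter.2 ⟨h7, ?_⟩) h2)
        by_contra h8
        rw [not_or] at h8
        refine h6 ⟨?_, ?_⟩
        · by_contra h9
          exact h8.1 (by rw [hZ]; exact mem_sdiff.2 ⟨G.pi_mem d h4, h9⟩)
        · by_contra h9
          exact h8.2 (by rw [hZ]; exact mem_sdiff.2 ⟨G.pi_mem _ (G.al_mem d h4), h9⟩)
      by_cases h7 : G.pi d ∈ Y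
      · have h8 : G.pi (G.al d) ∉ Y := fun h9 => h6 ⟨h7, h9⟩
        rw [gx_piR hω hY x hS h4 h7 h8 hdF] at h2
        exact absurd h2 hpA'
      · rw [gx_piZ hω hY x hS h4 h7] at h2
        have h8 : G.pi d ∈ A := by
          rcases mem_insert.1 h2 with h9 | h9
          · exact absurd (h9 ▸ hω) h7
          · exact h9
        refine ⟨mem_bd.2 ⟨h4, h8, fun h9 => h3 ?_⟩, hdF⟩
        rw [gx_al hω hY x hS h4 h6, gx_piZ hω hY x hS (G.al_mem d h4)
          (nY hY hZ (hA.subZ h9))]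
        exact mem_insert_of_mem h9
  · rintro (rfl | ⟨h1, h2⟩)
    · refine ⟨(gx_ds hω hY x hS).2 ⟨Or.inl rfl, heS⟩, ?_, ?_⟩
      · have h7 : ((exG x).delG S hS).pi d = ω := x.pi_e
        rw [h7]
        exact mem_insert_self _ _
      · have h7 : ((exG x).delG S hS).al d = e' := x.al_e
        have h8 : ((exG x).delG S hS).pi e' = p := x.pi_e'
        rw [h7, h8]
        exact hpA
    · obtain ⟨h3, h4, h5⟩ := mem_bd.1 h1
      have h6 : G.pi d ∉ Y := nY hY hZ (hA.subZ h4)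
      have h7 : ¬ (G.pi d ∈ Y ∧ G.pi (G.al d) ∈ Y) := fun h8 => h6 h8.1
      have h8 : d ∉ S := by
        intro h9
        rcases hdl.sub d h9 with h10 | h10 | ⟨-, -, h10 | h10⟩
        · exact hn.2.2.1 (h10 ▸ h3)
        · exact hn.2.2.2 (h10 ▸ h3)
        · exact h6 h10.1
        · exact h10.2.2 (hA.sub h4)
      refine ⟨(gx_ds hω hY x hS).2 ⟨Or.inr (Or.inr (Or.inr (Or.inr ⟨h3, h7⟩))), h8⟩, ?_, ?_⟩
      · rw [gx_piZ hω hY x hS h3 h6]
        exact mem_insert_of_mem h4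
      · rw [gx_al hω hY x hS h3 h7]
        by_cases h9 : G.pi (G.al d) ∈ Y
        · rw [gx_piR hω hY x hS (G.al_mem d h3) h9 (by rw [G.al_al d h3]; exact h6)
            (fun h10 => h2 (by rw [← G.al_al d h3]; exact hF.Fal _ h10))]
          exact hpA'
        · rw [gx_piZ hω hY x hS (G.al_mem d h3) h9, mem_insert, not_or]
          exact ⟨fun h10 => h9 (h10 ▸ hω), h5⟩

include hn hdl hZ hp hF hc in
theorem gx_bd_card {A : Finset V} (hA : G.AdmZ fr F Z A) (hg : G.pi c1 ∈ A) :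
    (((exG x).delG S hS).bd (insert ω A)).card = G.nj F A + 1 := by
  have h1 : ((exG x).delG S hS).bd (insert ω A) = insert e ((G.bd A).filter fun d => d ∉ F) := by
    ext d
    rw [gx_bd hω hY x hS hn hdl hZ hp hF hc hA hg, mem_insert, mem_filter]
  rw [h1, card_insert_of_notMem]
  · rfl
  · exact fun h2 => hn.1 (mem_bd.1 (mem_filter.1 h2).1).1

include hn hdl hZ hp in
/-- the boundary of a union which avoids `ω` -/
theorem gx_bd_out {X : Finset V} (hX : X ⊆ fr) (hXZ : X ⊆ Z) :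
    ((exG x).delG S hS).bd X = G.bd X := by
  rw [(gx_side hω hY x hS hn hdl hZ hp).bd hXZ]
  refine sdiff_eq_self_of_disjoint ?_
  rw [disjoint_left]
  intro d h1 h2
  obtain ⟨h3, h4, h5⟩ := mem_filter.1 h2
  rcases hdl.sub d h3 with h6 | h6 | ⟨-, -, h6 | h6⟩
  · exact hn.2.2.1 (h6 ▸ h4)
  · exact hn.2.2.2 (h6 ▸ h4)
  · exact h5 h6.1
  · exact h6.2.2 (hX (mem_bd.1 h1).2.1)

end

end MG

end RH
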