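import Pool.Agent.Lib.RH.SInn

/-! Gluing of J-bounded tight sets with one star (helper42): the outer and the inner instance. -/

set_option autoImplicit false

namespace RH

open Finset Classical

namespace MG

variable {V D : Type*} {G : MG V D} {z : D → ℝ} {t : V → ℝ} {fr : Finset V} {F : Finset D}
variable {jm sx : Finset V} {ep : V → ℕ} {m : ℕ}

/-! ### the outer instance -/

section outer

variable {W : Finset V} {ω : V} (hω : ω ∈ W) (hW : W ⊆ G.vs)

theorem con_pi_not {d : D} (hd : G.pi d ∉ W) : (G.con W ω hω hW).pi d = G.pi d := by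
  simp [con, hd]

/-- admissible sets of the contraction -/
theorem con_adm {fr1 : Finset V} (hd : Disjoint fr1 W)
    (hcl : ∀ d ∈ F, G.pi d ∈ fr1 → G.pi (G.al d) ∈ fr1) {X : Finset V} :
    (G.con W ω hω hW).Adm fr1 (F.filter fun d => G.pi d ∈ fr1) X ↔
      G.Adm fr1 (F.filter fun d => G.pi d ∈ fr1) X := by
  have key : ∀ d ∈ F.filter (fun d => G.pi d ∈ fr1), (G.con W ω hω hW).pi d = G.pi d ∧
      (G.con W ω hω hW).pi ((G.con W ω hω hW).al d) = G.pi (G.al d) := by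
    intro d hd'
    obtain ⟨h1, h2⟩ := mem_filter.1 hd'
    exact ⟨con_pi_not hω hW (fun h => disjoint_left.1 hd h2 h),
      con_pi_not hω hW (fun h => disjoint_left.1 hd (hcl d h1 h2) h)⟩
  constructor
  · intro h
    refine ⟨h.sub, fun d hd' hp => ?_⟩
    obtain ⟨h1, h2⟩ := key d hd'
    have h3 := h.clo d hd' (by rw [h1]; exact hp)
    rwa [h2] at h3
  · intro h
    refine ⟨h.sub, fun d hd' hp => ?_⟩
    obtain ⟨h1, h2⟩ := key d hd'
    rw [h2]
    rw [h1] at hp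
    exact h.clo d hd' hp

theorem con_bd_out {X : Finset V} (hX : X ⊆ G.vs) (hd : Disjoint X W) :
    (G.con W ω hω hW).bd X = G.bd X := by
  have h1 : X ⊆ (G.con W ω hω hW).vs := fun v hv =>
    mem_union_left _ (mem_sdiff.2 ⟨hX hv, fun h => disjoint_left.1 hd hv h⟩)
  rw [con_bd hω hW h1]
  unfold pre
  rw [if_neg (fun h => disjoint_left.1 hd h hω)]

theorem con_inst (h : G.InstS z t fr F jm sx ep m) (ho : Odd W.card) (h3 : G.val z t W = 3)
    {fr1 B jm1 sx1 : Finset V} (hs : fr1 ⊆ fr)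
    (hcl : ∀ d ∈ F, G.pi d ∈ fr1 → G.pi (G.al d) ∈ fr1) (hdB : Disjoint fr1 B) (hWB : W ⊆ B)
    (hadm : ∀ X, G.Adm fr1 (F.filter fun d => G.pi d ∈ fr1) X ↔ G.Adm fr F X ∧ Disjoint X B)
    (hk : (sx ⊆ fr1 ∧ jm ⊆ fr1 ∧ sx1 = sx ∧ jm1 = jm) ∨
      (Disjoint jm fr1 ∧ sx1 = ∅ ∧ jm1 = ∅)) :
    (G.con W ω hω hW).InstS z (tcon t W ω) fr1 (F.filter fun d => G.pi d ∈ fr1) jm1 sx1 ep m := by
  have hF := h.fresh
  have hdW : Disjoint fr1 W := disjoint_of_subset_right hWB hdB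
  have hnW : ∀ v ∈ fr1, v ∉ W := fun v hv hv' => disjoint_left.1 hdW hv hv'
  have hne : ∀ v ∈ fr1, v ≠ ω := fun v hv e => hnW v hv (e ▸ hω)
  have hst : ∀ v ∈ fr1, (G.con W ω hω hW).st v = G.st v := fun v hv =>
    con_st hω hW (hne v hv) (hnW v hv)
  have hfv : fr1 ⊆ G.vs := hs.trans hF.fsub
  have hA : ∀ X, (G.con W ω hω hW).Adm fr1 (F.filter fun d => G.pi d ∈ fr1) X →
      G.Adm fr F X ∧ X ⊆ fr1 := by
    intro X hX
    have h1 := (con_adm hω hW hdW hcl).1 hX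
    exact ⟨((hadm X).1 h1).1, h1.sub⟩
  have hbd : ∀ X, X ⊆ fr1 → (G.con W ω hω hW).bd X = G.bd X := fun X hX =>
    con_bd_out hω hW (hX.trans hfv) (disjoint_of_subset_left hX hdW)
  have hjm1 : ∀ v ∈ fr1, (v ∈ jm1 ↔ v ∈ jm) := by
    intro v hv
    rcases hk with ⟨-, -, -, rfl⟩ | ⟨h1, -, rfl⟩
    · rfl
    · exact ⟨fun h2 => absurd h2 (notMem_empty _), fun h2 => absurd hv (disjoint_left.1 h1 h2)⟩
  have hjs : jm1 ⊆ fr1 := by
    rcases hk with ⟨-, h1, -, rfl⟩ | ⟨h1, -, rfl⟩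
    · exact h1
    · exact empty_subset _
  refine ⟨con_even hω hW h.even ho, h.wt.con hω hW ho h3, ?_, ?_, ?_, ?_, ?_, ?_, ?_, ?_, ?_, ?_⟩
  · rw [con_tau hω hW]
    exact h.tau
  · refine ⟨?_, ?_, ?_, ?_, ?_, hjs, ?_, ?_, ?_⟩
    · intro v hv
      exact mem_union_left _ (mem_sdiff.2 ⟨hfv hv, hnW v hv⟩)
    · intro d hd
      obtain ⟨h1, h2⟩ := mem_filter.1 hd
      exact mem_filter.2 ⟨hF.Fsub h1, fun h4 => hnW _ h2 h4.1⟩
    · intro d hd
      obtain ⟨h1, h2⟩ := mem_filter.1 hd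
      exact mem_filter.2 ⟨hF.Fal d h1, hcl d h1 h2⟩
    · intro d hd
      obtain ⟨h1, h2⟩ := mem_filter.1 hd
      rw [con_pi_not hω hW (hnW _ h2)]
      exact h2
    · intro v hv
      rw [← hF.two v (hs hv)]
      congr 1
      ext d
      rw [mem_filter, mem_filter, mem_filter]
      constructor
      · rintro ⟨⟨h1, h2⟩, h4⟩
        rw [con_pi_not hω hW (hnW _ h2)] at h4
        exact ⟨h1, h4⟩
      · rintro ⟨h1, rfl⟩
        exact ⟨⟨h1, hv⟩, con_pi_not hω hW (hnW _ hv)⟩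
    · intro v hv hj
      rw [hst v hv, ← hF.jd v (hs hv) (fun h1 => hj ((hjm1 v hv).2 h1))]
      congr 1
      apply filter_congr
      intro d hd
      have hp : G.pi d = v := (mem_st.1 hd).2
      rw [mem_filter, hp]
      constructor
      · intro h1 h2
        exact h1 ⟨h2, hv⟩
      · intro h1 h2
        exact h1 h2.1
    · intro v hv d hd
      have hvf := hjs hv
      rw [hst v hvf] at hd
      refine mem_filter.2 ⟨hF.j0 v ((hjm1 v hvf).1 hv) d hd, ?_⟩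
      rw [(mem_st.1 hd).2]
      exact hvf
    · intro d hd hp
      obtain ⟨h1, h2⟩ := mem_filter.1 hd
      by_cases h4 : G.pi d ∈ W
      · have h5 : (G.con W ω hω hW).pi d = ω := by simp [con, h4]
        rw [h5] at hp
        exact absurd hω (hnW _ hp)
      · rw [con_pi_not hω hW h4] at hp
        exact hF.unit d h1 (hs hp)
  · intro X hX hoX
    obtain ⟨h1, h2⟩ := hA X hX
    rw [hbd X h2]
    exact h.cc X h1 hoX
  · intro X hX heX hneX
    obtain ⟨h1, h2⟩ := hA X hX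
    rw [hbd X h2]
    exact h.ev X h1 heX hneX
  · rcases hk with ⟨h1, -, rfl, -⟩ | ⟨-, rfl, -⟩
    · exact h1
    · exact empty_subset _
  · rcases hk with ⟨-, -, rfl, rfl⟩ | ⟨-, rfl, rfl⟩
    · rcases h.kind with h1 | ⟨h1, h2⟩
      · exact Or.inl h1
      · exact Or.inr ⟨h1, fun X hX => h2 X (hA X hX).1⟩
    · exact Or.inl rfl
  · rcases hk with ⟨-, -, -, rfl⟩ | ⟨-, -, rfl⟩
    · exact h.jm2
    · exact Or.inl rfl
  · intro hne1
    rcases hk with ⟨h1, -, rfl, -⟩ | ⟨-, rfl, -⟩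
    · have h4 : ∑ v ∈ sx1, tcon t W ω v = ∑ v ∈ sx1, t v := by
        refine sum_congr rfl fun v hv => ?_
        unfold tcon
        rw [if_neg (hne v (h1 hv))]
      rw [h4]
      exact h.st2 hne1
    · exact absurd hne1 not_nonempty_empty
  · intro X hX heX hne1 hsX
    rcases hk with ⟨-, -, rfl, -⟩ | ⟨-, rfl, -⟩
    · obtain ⟨h1, h2⟩ := hA X hX
      rw [hbd X h2]
      exact h.b0 X h1 heX hne1 hsX
    · exact absurd hne1 not_nonempty_empty
  · intro v hv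
    have h1 := h.epj v (hs hv)
    by_cases h2 : v ∈ jm
    · rw [if_pos h2] at h1
      rw [if_pos ((hjm1 v hv).2 h2)]
      exact h1
    · rw [if_neg h2] at h1
      rw [if_neg (fun h4 => h2 ((hjm1 v hv).1 h4))]
      exact h1

end outer

end MG

end RH
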