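import Pool.Agent.Lib.RH.SGlueA

/-! Gluing of J-bounded tight sets with one star (helper42): the inner instance. -/

set_option autoImplicit false

namespace RH

open Finset Classical

namespace MG

variable {V D : Type*}

/-- fresh vertices of `W` with a deleted edge to a fresh vertex (link ports) -/
noncomputable def lp (G : MG V D) (fr W : Finset V) (f : D) : Finset V :=
  (fr ∩ W).filter fun v => ∃ d ∈ G.ds, G.pi d = v ∧ G.pi (G.al d) ∉ W ∧ d ≠ f ∧
    G.pi (G.al d) ∈ fr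

/-- fresh vertices of `W` with a deleted edge to an absorbed vertex -/
noncomputable def lq (G : MG V D) (fr W : Finset V) (f : D) : Finset V :=
  (fr ∩ W).filter fun v => ∃ d ∈ G.ds, G.pi d = v ∧ G.pi (G.al d) ∉ W ∧ d ≠ f ∧
    G.pi (G.al d) ∉ fr

variable {G : MG V D} {z : D → ℝ} {t : V → ℝ} {fr : Finset V} {F : Finset D}
variable {jm sx : Finset V} {ep : V → ℕ} {m : ℕ} {W : Finset V} {f : D}

theorem mem_lp {v : V} : v ∈ G.lp fr W f ↔ (v ∈ fr ∧ v ∈ W) ∧ ∃ d ∈ G.ds, G.pi d = v ∧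
    G.pi (G.al d) ∉ W ∧ d ≠ f ∧ G.pi (G.al d) ∈ fr := by
  unfold lp
  rw [mem_filter, mem_inter]

theorem mem_lq {v : V} : v ∈ G.lq fr W f ↔ (v ∈ fr ∧ v ∈ W) ∧ ∃ d ∈ G.ds, G.pi d = v ∧
    G.pi (G.al d) ∉ W ∧ d ≠ f ∧ G.pi (G.al d) ∉ fr := by
  unfold lq
  rw [mem_filter, mem_inter]

/-- a dart leaving `W` from a fresh vertex is a J-dart -/
theorem out_notF (hFW : ∀ d ∈ F, G.pi d ∈ W → G.pi (G.al d) ∈ W) {d : D} (hd : G.pi d ∈ W)
    (ho : G.pi (G.al d) ∉ W) : d ∉ F := fun h => ho (hFW d h hd)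

/-- link ports have a J-dart -/
theorem lp_not_jm (hF : G.FrS z fr F jm) (hFW : ∀ d ∈ F, G.pi d ∈ W → G.pi (G.al d) ∈ W)
    {v : V} (hv : v ∈ G.lp fr W f) : v ∉ jm := by
  obtain ⟨⟨h1, h2⟩, d, h3, h4, h5, -, -⟩ := mem_lp.1 hv
  intro hj
  exact out_notF hFW (h4 ▸ h2) h5 (hF.j0 v hj d (mem_st.2 ⟨h3, h4⟩))

section

variable (hf : f ∈ G.ds) (hW : W ⊆ G.vs) (hfW : G.pi f ∈ W) (hfU : G.pi (G.al f) ∉ W)

include hfU in
/-- boundary of a set in `W` in the inner graph -/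
theorem mem_inn_bd {X : Finset V} (hX : X ⊆ W) {d : D} :
    d ∈ (G.inn W f hf hW hfW).bd X ↔ d ∈ G.bd X ∧ (G.pi (G.al d) ∈ W ∨ d = f) := by
  rw [mem_bd, mem_bd]
  simp only [inn, mem_filter]
  constructor
  · rintro ⟨⟨a, b | rfl | rfl⟩, c, e⟩
    · exact ⟨⟨a, c, e⟩, Or.inl b.2⟩
    · exact ⟨⟨a, c, e⟩, Or.inr rfl⟩
    · exact absurd (hX c) hfU
  · rintro ⟨⟨a, c, e⟩, b | rfl⟩
    · exact ⟨⟨a, Or.inl ⟨hX c, b⟩⟩, c, e⟩
    · exact ⟨⟨a, Or.inr (Or.inl rfl)⟩, c, e⟩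

include hfU in
/-- ports: the deleted ones are link ports if no edge to an absorbed vertex is deleted -/
theorem inn_count (hF : G.FrS z fr F jm) (hFW : ∀ d ∈ F, G.pi d ∈ W → G.pi (G.al d) ∈ W)
    {X : Finset V} (hX : G.Adm fr F X) (hXW : X ⊆ W) (hq : Disjoint X (G.lq fr W f)) :
    (G.bd X).card = ((G.inn W f hf hW hfW).bd X).card + (X ∩ G.lp fr W f).card := by
  have h1 := card_filter_add_card_filter_not (s := G.bd X)
    (fun d => G.pi (G.al d) ∈ W ∨ d = f)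
  have h2 : (G.bd X).filter (fun d => G.pi (G.al d) ∈ W ∨ d = f) =
      (G.inn W f hf hW hfW).bd X := by
    ext d
    rw [mem_filter, mem_inn_bd hf hW hfW hfU hXW]
  have h3 : ((G.bd X).filter fun d => ¬ (G.pi (G.al d) ∈ W ∨ d = f)).card =
      (X ∩ G.lp fr W f).card := by
    refine card_bij (fun d _ => G.pi d) ?_ ?_ ?_
    · intro d hd
      obtain ⟨h4, h5⟩ := mem_filter.1 hd
      rw [not_or] at h5
      obtain ⟨a, b, c⟩ := mem_bd.1 h4
      refine mem_inter.2 ⟨b, mem_lp.2 ⟨⟨hX.sub b, hXW b⟩, d, a, rfl, h5.1, h5.2, ?_⟩⟩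
      by_contra hn
      exact disjoint_left.1 hq b (mem_lq.2 ⟨⟨hX.sub b, hXW b⟩, d, a, rfl, h5.1, h5.2, hn⟩)
    · intro d hd e he hde
      obtain ⟨h4, h5⟩ := mem_filter.1 hd
      obtain ⟨h6, h7⟩ := mem_filter.1 he
      rw [not_or] at h5 h7
      obtain ⟨a, b, -⟩ := mem_bd.1 h4
      obtain ⟨a', b', -⟩ := mem_bd.1 h6
      have nd := out_notF hFW (hXW b) h5.1
      have ne := out_notF hFW (hXW b') h7.1
      have hj : G.pi d ∉ jm := fun h8 => nd (hF.j0 _ h8 d (mem_st.2 ⟨a, rfl⟩))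
      obtain ⟨j, -, -, -, hj5⟩ := hF.exists_jd (hX.sub b) hj
      rw [hj5 d a rfl nd, hj5 e a' hde.symm ne]
    · intro v hv
      obtain ⟨h4, h5⟩ := mem_inter.1 hv
      obtain ⟨-, d, a, rfl, b, c, -⟩ := mem_lp.1 h5
      refine ⟨d, mem_filter.2 ⟨mem_bd.2 ⟨a, h4, fun h6 => b (hXW h6)⟩, ?_⟩, rfl⟩
      rw [not_or]
      exact ⟨b, c⟩
  rw [h2, h3] at h1
  exact h1.symm

include hf hW hfW hfU in
/-- counting the units of a tight set -/
theorem lp_bound (h : G.InstS z t fr F jm sx ep m) (h3 : G.val z t W = 3) (hz : 0 < z f)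
    {T : Finset V} (hTW : T ⊆ W) : ((G.lp fr W f).card : ℝ) + ∑ v ∈ T, t v < 3 := by
  have hw := h.wt
  have hF := h.fresh
  have hfb : f ∈ G.bd W := mem_bd.2 ⟨hf, hfW, hfU⟩
  set R := (G.bd W).filter fun d => d ≠ f ∧ G.pi (G.al d) ∈ fr ∧ G.pi d ∈ fr with hR
  have h1 : (G.lp fr W f).card ≤ R.card := by
    have h2 : G.lp fr W f ⊆ R.image G.pi := by
      intro v hv
      obtain ⟨⟨a, b⟩, d, c, rfl, e, g, i⟩ := mem_lp.1 hv
      exact mem_image.2 ⟨d, mem_filter.2 ⟨mem_bd.2 ⟨c, b, e⟩, g, i, a⟩, rfl⟩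
    exact (card_le_card h2).trans card_image_le
  have h2 : ∑ d ∈ R, z d = R.card := by
    have h4 : ∑ d ∈ R, z d = ∑ _d ∈ R, (1 : ℝ) := by
      refine sum_congr rfl fun d hd => ?_
      obtain ⟨a, -, -, b⟩ := mem_filter.1 hd
      exact hF.unit d (mem_bd.1 a).1 b
    rw [h4, sum_const, nsmul_eq_mul, mul_one]
  have hfR : f ∉ R := fun h4 => (mem_filter.1 h4).2.1 rfl
  have h4 : z f + ∑ d ∈ R, z d ≤ ∑ d ∈ G.bd W, z d := by
    rw [← sum_insert hfR]
    refine sum_le_sum_of_subset_of_nonneg ?_ ?_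
    · intro d hd
      rcases mem_insert.1 hd with rfl | hd
      · exact hfb
      · exact (mem_filter.1 hd).1
    · intro d hd _
      exact hw.z0 d (mem_bd.1 hd).1
  have h5 : ∑ v ∈ T, t v ≤ ∑ v ∈ W, t v :=
    sum_le_sum_of_subset_of_nonneg hTW fun v hv _ => hw.t0 v (hW hv)
  have h6 : (((G.lp fr W f).card : ℕ) : ℝ) ≤ R.card := by exact_mod_cast h1
  unfold val at h3
  rw [h2] at h4
  linarith

include hfU in
/-- the inner instance -/
theorem inn_inst (h : G.InstS z t fr F jm sx ep m) (hWo : Odd W.card) (h3 : G.val z t W = 3)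
    (hz : 0 < z f) (hFW : ∀ d ∈ F, G.pi d ∈ W → G.pi (G.al d) ∈ W)
    {fr2 B jm2 sx2 : Finset V} (hs : fr2 ⊆ fr)
    (hcl : ∀ d ∈ F, G.pi d ∈ fr2 → G.pi (G.al d) ∈ fr2) (hdB : Disjoint fr2 B)
    (hWB : G.vs \ W ⊆ B) (hqB : G.lq fr W f ⊆ B)
    (hadm : ∀ X, G.Adm fr2 (F.filter fun d => G.pi d ∈ fr2) X ↔ G.Adm fr F X ∧ Disjoint X B)
    {P : Finset V} (hP : P = (jm ∩ W) ∪ G.lp fr W f)
    (hk : (sx2 = P ∧ jm2 = P ∧ P.card = 2 ∧ P ⊆ fr2) ∨
      (sx2 = sx ∧ jm2 = P ∧ G.lp fr W f = ∅ ∧ P = jm ∧ sx ⊆ fr2 ∧ P ⊆ fr2) ∨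
      (sx2 = ∅ ∧ jm2 = ∅ ∧ Disjoint P fr2)) :
    (G.inn W f hf hW hfW).InstS z (G.tinn z t W f) fr2 (F.filter fun d => G.pi d ∈ fr2) jm2 sx2
      (fun v => ep v + if v ∈ G.lp fr W f then 1 else 0) m := by
  have hF := h.fresh
  have hfr2W : fr2 ⊆ W := by
    intro v hv
    by_contra hn
    exact disjoint_left.1 hdB hv (hWB (mem_sdiff.2 ⟨hF.fsub (hs hv), hn⟩))
  have hjmP : ∀ v ∈ fr2, (v ∈ jm2 ↔ v ∈ P) := by
    intro v hv
    rcases hk with ⟨-, rfl, -⟩ | ⟨-, rfl, -⟩ | ⟨-, rfl, h1⟩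
    · rfl
    · rfl
    · exact ⟨fun h2 => absurd h2 (notMem_empty _), fun h2 => absurd hv (disjoint_left.1 h1 h2)⟩
  have hjs : jm2 ⊆ fr2 := by
    rcases hk with ⟨-, rfl, -, h1⟩ | ⟨-, rfl, -, -, -, h1⟩ | ⟨-, rfl, -⟩
    · exact h1
    · exact h1
    · exact empty_subset _
  have hA : ∀ X, (G.inn W f hf hW hfW).Adm fr2 (F.filter fun d => G.pi d ∈ fr2) X →
      G.Adm fr F X ∧ X ⊆ W ∧ Disjoint X (G.lq fr W f) := by
    intro X hX
    have h1 : G.Adm fr2 (F.filter fun d => G.pi d ∈ fr2) X := ⟨hX.sub, hX.clo⟩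
    obtain ⟨h2, h4⟩ := (hadm X).1 h1
    exact ⟨h2, h1.sub.trans hfr2W, disjoint_of_subset_right hqB h4⟩
  have hwt := h.wt.inn hf hW hfW hfU hWo h3
  have hfrS : (G.inn W f hf hW hfW).FrS z fr2 (F.filter fun d => G.pi d ∈ fr2) jm2 := by
    refine ⟨?_, ?_, ?_, ?_, ?_, hjs, ?_, ?_, ?_⟩
    · intro v hv
      exact mem_insert_of_mem (hfr2W hv)
    · intro d hd
      obtain ⟨h1, h2⟩ := mem_filter.1 hd
      exact (mem_inn hf hW hfW).2 ⟨hF.Fsub h1, Or.inl ⟨hfr2W h2, hfr2W (hcl d h1 h2)⟩⟩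
    · intro d hd
      obtain ⟨h1, h2⟩ := mem_filter.1 hd
      exact mem_filter.2 ⟨hF.Fal d h1, hcl d h1 h2⟩
    · intro d hd
      exact (mem_filter.1 hd).2
    · intro v hv
      rw [← hF.two v (hs hv)]
      congr 1
      ext d
      rw [mem_filter, mem_filter, mem_filter]
      constructor
      · rintro ⟨⟨h1, -⟩, h4⟩
        exact ⟨h1, h4⟩
      · rintro ⟨h1, rfl⟩
        exact ⟨⟨h1, hv⟩, rfl⟩
    · intro v hv hj
      have hvP : v ∉ P := fun h1 => hj ((hjmP v hv).2 h1)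
      have hvW := hfr2W hv
      have hvj : v ∉ jm := by
        intro h1
        exact hvP (by rw [hP]; exact mem_union_left _ (mem_inter.2 ⟨h1, hvW⟩))
      obtain ⟨j, j1, j2, j3, j4⟩ := hF.exists_jd (hs hv) hvj
      rw [card_eq_one]
      refine ⟨j, ?_⟩
      ext d
      rw [mem_filter, mem_st, mem_singleton, mem_inn]
      constructor
      · rintro ⟨⟨⟨h1, -⟩, h2⟩, h4⟩
        have h2' : G.pi d = v := h2
        exact j4 d h1 h2' fun h5 => h4 (mem_filter.2 ⟨h5, h2' ▸ hv⟩)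
      · rintro rfl
        refine ⟨⟨⟨j1, ?_⟩, j2⟩, fun h5 => j3 (mem_filter.1 h5).1⟩
        by_contra hn
        rw [not_or, not_or] at hn
        have hout : G.pi (G.al d) ∉ W := fun h5 => hn.1 ⟨j2 ▸ hvW, h5⟩
        by_cases h5 : G.pi (G.al d) ∈ fr
        · exact hvP (by
            rw [hP]
            exact mem_union_right _ (mem_lp.2 ⟨⟨hs hv, hvW⟩, d, j1, j2, hout, hn.2.1, h5⟩))
        · exact disjoint_left.1 hdB hv (hqB (mem_lq.2 ⟨⟨hs hv, hvW⟩, d, j1, j2, hout, hn.2.1, h5⟩))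
    · intro v hv d hd
      have hvf := hjs hv
      rw [mem_st, mem_inn] at hd
      obtain ⟨⟨h1, h2⟩, h4⟩ := hd
      have h4' : G.pi d = v := h4
      by_contra hn
      have hdF : d ∉ F := fun h5 => hn (mem_filter.2 ⟨h5, h4' ▸ hvf⟩)
      have hvP := (hjmP v hvf).1 hv
      rw [hP] at hvP
      rcases mem_union.1 hvP with h5 | h5
      · exact hdF (hF.j0 v (mem_inter.1 h5).1 d (mem_st.2 ⟨h1, h4'⟩))
      · have hvj := lp_not_jm hF hFW h5
        obtain ⟨⟨h6, h7⟩, e, h8, h9, h10, h11, -⟩ := mem_lp.1 h5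
        obtain ⟨j, -, -, -, j4⟩ := hF.exists_jd h6 hvj
        have e1 := j4 d h1 h4' hdF
        have e2 := j4 e h8 h9 (out_notF hFW (h9 ▸ h7) h10)
        rw [e1, ← e2] at h2
        rcases h2 with h2 | h2 | h2
        · exact h10 h2.2
        · exact h11 h2
        · rw [h2] at h9
          exact hfU (h9 ▸ h7)
    · intro d hd hp
      exact hF.unit d ((mem_inn hf hW hfW).1 hd).1 (hs hp)
  have hsum : ∀ X, ∑ v ∈ X, (ep v + if v ∈ G.lp fr W f then 1 else 0) =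
      ∑ v ∈ X, ep v + (X ∩ G.lp fr W f).card := by
    intro X
    rw [sum_add_distrib]
    congr 1
    rw [← sum_filter, card_eq_sum_ones]
    refine sum_congr ?_ fun _ _ => rfl
    ext v
    rw [mem_filter, mem_inter]
  refine ⟨?_, hwt, ?_, hfrS, ?_, ?_, ?_, ?_, ?_, ?_, ?_, ?_⟩
  · rw [inn_card hf hW hfW hfU]
    obtain ⟨k, hk'⟩ := hWo
    exact ⟨k + 1, by omega⟩
  · rw [inn_tau hf hW hfW hfU h3]
    linarith
  · intro X hX hoX
    obtain ⟨h1, h2, h4⟩ := hA X hX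
    have h5 := h.cc X h1 hoX
    rw [inn_count hf hW hfW hfU hF hFW h1 h2 h4] at h5
    rw [hsum X]
    omega
  · intro X hX heX hneX
    obtain ⟨h1, h2, h4⟩ := hA X hX
    have h5 := h.ev X h1 heX hneX
    rw [inn_count hf hW hfW hfU hF hFW h1 h2 h4] at h5
    rw [hsum X]
    omega
  · rcases hk with ⟨rfl, -, -, h1⟩ | ⟨rfl, -, -, -, h1, -⟩ | ⟨rfl, -, -⟩
    · exact h1
    · exact h1
    · exact empty_subset _
  · rcases hk with ⟨rfl, rfl, -, h1⟩ | ⟨rfl, rfl, h0, h00, h1, -⟩ | ⟨rfl, rfl, -⟩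
    · exact Or.inl rfl
    · rcases h.kind with h5 | ⟨h5, h6⟩
      · exact Or.inl (h00.trans h5)
      · exact Or.inr ⟨h00.trans h5, fun X hX => h6 X (hA X hX).1⟩
    · exact Or.inl rfl
  · rcases hk with ⟨rfl, rfl, h5, h1⟩ | ⟨rfl, rfl, h0, h00, h1, -⟩ | ⟨rfl, rfl, -⟩
    · exact Or.inr h5
    · rw [h00]
      exact h.jm2
    · exact Or.inl rfl
  · intro hne
    rcases hk with ⟨e1, e2, h5, h1⟩ | ⟨e1, e2, h0, h00, h1, -⟩ | ⟨e1, e2, -⟩
    · rw [← e2] at e1 h5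
      rw [e1]
      have h6 : ∑ v ∈ jm2, G.tinn z t W f v = ∑ _v ∈ jm2, (1 : ℝ) :=
        sum_congr rfl fun v hv => hfrS.t_jm hwt hv
      rw [h6, sum_const, h5]
      norm_num
    · rw [e1] at hne ⊢
      have h6 : ∑ v ∈ sx, t v ≤ ∑ v ∈ sx, G.tinn z t W f v := by
        refine sum_le_sum fun v hv => ?_
        have hvW := hfr2W (h1 hv)
        have hne' : v ≠ G.pi (G.al f) := fun e => hfU (e ▸ hvW)
        unfold tinn
        rw [if_neg hne']
        have h7 : 0 ≤ ∑ d ∈ (G.st v).filter (fun d => G.pi (G.al d) ∉ W ∧ d ≠ f), z d :=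
          sum_nonneg fun d hd => h.wt.z0 d (mem_st.1 (mem_filter.1 hd).1).1
        linarith
      exact (h.st2 hne).trans h6
    · rw [e1] at hne
      exact absurd hne not_nonempty_empty
  · intro X hX heX hne hsX
    obtain ⟨h1, h2, h4⟩ := hA X hX
    rcases hk with ⟨e1, e2, h5, h6⟩ | ⟨e1, e2, h0, h00, h6, -⟩ | ⟨e1, e2, -⟩
    · rw [← e2] at e1 h5
      rw [e1] at hsX
      by_contra hlt
      have hpar := hfrS.bd_par hX
      have hint : X ∩ jm2 = jm2 := inter_eq_right.2 hsX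
      rw [hint, h5] at hpar
      have h0 : ((G.inn W f hf hW hfW).bd X).card = 0 := by
        obtain ⟨k, hk'⟩ := heX
        omega
      rw [card_eq_zero] at h0
      -- the rest of `W`
      have hRo : Odd (W \ X).card := by
        have h7 := card_sdiff_add_card_eq_card h2
        rw [Nat.odd_iff] at hWo ⊢
        rw [Nat.even_iff] at heX
        omega
      have h8 := hwt.cut (W \ X) (fun v hv => mem_insert_of_mem (mem_sdiff.1 hv).1) hRo
      have htX : 2 ≤ ∑ v ∈ X, G.tinn z t W f v := by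
        have h9 : ∑ v ∈ jm2, G.tinn z t W f v ≤ ∑ v ∈ X, G.tinn z t W f v :=
          sum_le_sum_of_subset_of_nonneg hsX fun v hv _ =>
            hwt.t0 v (mem_insert_of_mem (h2 hv))
        have h10 : ∑ v ∈ jm2, G.tinn z t W f v = 2 := by
          have h6 : ∑ v ∈ jm2, G.tinn z t W f v = ∑ _v ∈ jm2, (1 : ℝ) :=
            sum_congr rfl fun v hv => hfrS.t_jm hwt hv
          rw [h6, sum_const, h5]
          norm_num
        linarith
      have htau := inn_tau (z := z) (t := t) hf hW hfW hfU h3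
      have hvs : (G.inn W f hf hW hfW).vs = insert (G.pi (G.al f)) W := rfl
      rw [hvs, sum_insert hfU, ← sum_sdiff h2] at htau
      have htc : G.tinn z t W f (G.pi (G.al f)) = 3 - z f := by
        unfold tinn
        rw [if_pos rfl]
      have hbd : (G.inn W f hf hW hfW).bd (W \ X) ⊆ {f} := by
        intro d hd
        obtain ⟨a, b, c⟩ := mem_bd.1 hd
        have b' : G.pi d ∈ W \ X := b
        have c' : G.pi (G.al d) ∉ W \ X := c
        rw [mem_singleton]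
        obtain ⟨a1, a2 | a2 | a2⟩ := (mem_inn hf hW hfW).1 a
        · exfalso
          have hX2 : G.pi (G.al d) ∈ X := by
            by_contra hn
            exact c' (mem_sdiff.2 ⟨a2.2, hn⟩)
          have hal : G.al d ∈ (G.inn W f hf hW hfW).bd X := by
            rw [mem_bd]
            refine ⟨(G.inn W f hf hW hfW).al_mem d a, hX2, ?_⟩
            have e1 : (G.inn W f hf hW hfW).al (G.al d) = d := G.al_al d a1
            rw [e1]
            exact (mem_sdiff.1 b').2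
          rw [h0] at hal
          exact absurd hal (notMem_empty _)
        · exact a2
        · exfalso
          rw [a2] at b'
          exact hfU (mem_sdiff.1 b').1
      have hsum2 : ∑ d ∈ (G.inn W f hf hW hfW).bd (W \ X), z d ≤ z f := by
        have h9 := sum_le_sum_of_subset_of_nonneg (f := z) hbd fun d hd _ => by
          rw [mem_singleton] at hd
          rw [hd]
          exact hz.le
        rwa [sum_singleton] at h9
      unfold val at h8
      rw [htc] at htau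
      linarith
    · rw [e1] at hne hsX
      have h7 := h.b0 X h1 heX hne hsX
      have h8 := inn_count hf hW hfW hfU hF hFW h1 h2 h4
      rw [h0, inter_empty, card_empty] at h8
      omega
    · rw [e1] at hne
      exact absurd hne not_nonempty_empty
  · intro v hv
    have h1 := h.epj v (hs hv)
    by_cases h2 : v ∈ G.lp fr W f
    · have h4 := lp_not_jm hF hFW h2
      rw [if_neg h4] at h1
      have h5 : v ∈ jm2 := (hjmP v hv).2 (by rw [hP]; exact mem_union_right _ h2)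
      rw [if_pos h5, if_pos h2]
      omega
    · rw [if_neg h2]
      by_cases h4 : v ∈ jm
      · have h5 : v ∈ jm2 := (hjmP v hv).2
          (by rw [hP]; exact mem_union_left _ (mem_inter.2 ⟨h4, hfr2W hv⟩))
        rw [if_pos h4] at h1
        rw [if_pos h5]
        omega
      · rw [if_neg h4] at h1
        omega

end

end MG

end RH
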