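import Pool.Agent.Lib.RH.SGlueT1p

/-! Gluing (t1): the third unit is a fresh-fresh J-edge (helper42); the inner matchings for a used
F-edge are a hypothesis. The case of a set without absorbed vertices. -/

set_option autoImplicit false

namespace RH

open Finset Classical

namespace MG

variable {V D : Type*}

variable {G : MG V D} {z : D → ℝ} {t : V → ℝ} {fr : Finset V} {F : Finset D} {jm sx : Finset V}
variable {ep : V → ℕ} {m : ℕ} {W Y Z A X B : Finset V} {f j : D}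
variable {g1 g2 : D} {M M1 M2 : Finset D}

/-- inner matchings of a (t1) set for a used F-edge -/
def InT1 (G : MG V D) (z : D → ℝ) (fr : Finset V) (F : Finset D) (W : Finset V) (g1 j f : D) :
    Prop :=
  ∃ M2, G.Half W M2 ∧ (∀ d ∈ M2, 0 < z d) ∧ (∀ d ∈ G.bd W, (d ∈ M2 ↔ d = f)) ∧
    (∀ X, G.Adm fr F X → X ⊆ W → G.pi g1 ∉ X → G.pi j ∉ X → Odd X.card →
      ∃ d ∈ G.bd X, d ∉ M2) ∧
    (∀ A, G.AdmZ fr F W A → G.pi g1 ∈ A → G.pi j ∈ A → Even A.card →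
      ∃ d ∈ G.bd A, d ∉ F ∧ d ≠ j ∧ d ∉ M2)

theorem MCS.no_t1_core [Infinite V] [Infinite D] (hh : G.MCS z t fr F jm sx ep 0)
    (hc : G.FC F W g1 g2) (hWo : Odd W.card) (h3 : G.val z t W = 3) (hWc : 2 ≤ W.card)
    (hj : Disjoint jm W) (hrd : rd G F W = {j}) (hj1 : G.pi j ∈ fr) (hj2 : G.pi (G.al j) ∈ fr)
    (hs2 : 2 ≤ (fr \ W).card ∨ 4 ≤ (G.vs \ W).card)
    (hC : ∀ A, G.AdmZ fr F (G.vs \ W) A → G.pi (G.al g1) ∈ A → Even A.card →
      G.val z t (A ∪ W) ≠ 3)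
    (hB : ∀ A, G.AdmZ fr F (G.vs \ W) A → G.pi (G.al g1) ∈ A → Odd A.card →
      G.bd (A ∪ W) ≠ ∅)
    (hin : ∀ f ∈ G.bd W, f ∈ F → 0 < z f → InT1 G z fr F W g1 j f) : False := by
  have hF := hh.inst.fresh
  have hw := hh.inst.wt
  have hW := hc.hW
  have hjrd : j ∈ rd G F W := by rw [hrd]; exact mem_singleton_self j
  obtain ⟨hjb, hjF⟩ := mem_filter.1 hjrd
  obtain ⟨hjd, hjW, hjU⟩ := mem_bd.1 hjb
  have hajd := G.al_mem j hjd
  have haj := G.al_al j hjd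
  have hon : ∀ d ∈ G.bd W, d ∉ F → d = j := by
    intro d hd h1
    have h2 : d ∈ rd G F W := mem_filter.2 ⟨hd, h1⟩
    rw [hrd] at h2
    exact mem_singleton.1 h2
  have hu : ∀ d ∈ G.bd W, z d = 1 := fun d hd => by
    by_cases h1 : d ∈ F
    · exact hF.unit d (mem_bd.1 hd).1 (hF.Ffr d h1)
    · rw [hon d hd h1]
      exact hF.unit j hjd hj1
  have ht : ∑ v ∈ W, t v = 0 := by
    have h1 := hc.third hF h3
    change ∑ d ∈ rd G F W, z d + _ = 1 at h1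
    rw [hrd, sum_singleton, hF.unit j hjd hj1] at h1
    linarith
  obtain ⟨M1, hM1, hp1, f, hfb, hzf, hcr1, hA1, hZ1⟩ := hh.solveA (jw := ∅) hc hWo h3 hWc
    hc.w1 rfl hu (Or.inl ⟨rfl, by rw [hrd, card_singleton], hj⟩)
    (by rw [ht, card_empty]; norm_num) hC hB
  obtain ⟨hfd, hfW, hfU⟩ := mem_bd.1 hfb
  -- inner matching
  obtain ⟨M2, hM2, hp2, hcr2, hA2, hA2', hZ2, hZ2'⟩ : ∃ M2, G.Half W M2 ∧ (∀ d ∈ M2, 0 < z d) ∧
      (∀ d ∈ G.bd W, (d ∈ M2 ↔ d = f)) ∧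
      (f ∈ F → ∀ X, G.Adm fr F X → X ⊆ W → G.pi g1 ∉ X → G.pi j ∉ X → Odd X.card →
        ∃ d ∈ G.bd X, d ∉ M2) ∧
      (f ∉ F → ∀ X, G.Adm fr F X → X ⊆ W → Odd X.card → ∃ d ∈ G.bd X, d ∉ M2) ∧
      (f ∈ F → ∀ A, G.AdmZ fr F W A → G.pi g1 ∈ A → G.pi j ∈ A → Even A.card →
        ∃ d ∈ G.bd A, d ∉ F ∧ d ≠ j ∧ d ∉ M2) ∧
      (f ∉ F → ∀ A, G.AdmZ fr F W A → G.pi g1 ∈ A → Even A.card →
        ∃ d ∈ G.bd A, d ∉ F ∧ d ∉ M2) := by
    by_cases hfF : f ∈ F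
    · obtain ⟨M2, k1, k2, k3, k4, k5⟩ := hin f hfb hfF hzf
      exact ⟨M2, k1, k2, k3, fun _ => k4, fun h1 => absurd hfF h1, fun _ => k5,
        fun h1 => absurd hfF h1⟩
    · have hfj := hon f hfb hfF
      obtain ⟨M2, k1, k2, k3, k4, k5⟩ := hh.solveD hc hWo h3 hj hfb hfF hzf hs2
      have hnb : ∀ v : V, ¬ (G.pi f ∉ fr ∧ ∃ d ∈ G.ds, G.pi d = v ∧ G.pi (G.al d) = G.pi f) :=
        fun v k => k.1 (by rw [hfj]; exact hj1)
      exact ⟨M2, k1, k2, k3, fun h1 => absurd h1 hfF,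
        fun _ X hX hXW ho => k4 X hX hXW (fun v _ => hnb v) ho, fun h1 => absurd h1 hfF,
        fun _ A hA hg he => k5 A hA hg (fun v _ => hnb v) he⟩
  obtain ⟨hpm, hMW, hMU, hcross, hfM⟩ := glued hW hM1 hM2 hcr1 hcr2 hfb
  have hpos : ∀ d ∈ M1 ∪ M2, 0 < z d := by
    intro d hd
    rcases mem_union.1 hd with h1 | h1
    · exact hp1 d h1
    · exact hp2 d h1
  obtain ⟨X, hX, hodd, hcl⟩ := hh.closed hpm hpos
  have hXs := hX.sub.trans hF.fsub
  obtain ⟨hXU, hcard⟩ := parts (W := W) hXs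
  have hjX : jm ⊆ X → jm ⊆ X ∩ (G.vs \ W) := by
    intro k1 v hv
    exact hXU v (k1 hv) (disjoint_left.1 hj hv)
  have hjU' : jm ∩ (G.vs \ W) = jm := by
    rw [inter_eq_left]
    intro v hv
    exact mem_sdiff.2 ⟨hF.fsub (hF.jms hv), disjoint_left.1 hj hv⟩
  -- J-darts leaving the parts
  have cl1 : ∀ d ∈ G.bd (X ∩ W), d ∉ F → d ≠ j → d ∈ M1 ∪ M2 := by
    intro d hd hdF hdj
    obtain ⟨k1, k2, k3⟩ := mem_bd.1 hd
    obtain ⟨k4, k5⟩ := mem_inter.1 k2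
    have k7 : G.pi (G.al d) ∈ W := by
      by_contra k8
      exact hdj (hon d (mem_bd.2 ⟨k1, k5, k8⟩) hdF)
    exact hcl d (mem_bd.2 ⟨k1, k4, fun k6 => k3 (mem_inter.2 ⟨k6, k7⟩)⟩)
  have cl2 : ∀ d ∈ G.bd (X ∩ (G.vs \ W)), d ∉ F → d ≠ G.al j → d ∈ M1 ∪ M2 := by
    intro d hd hdF hdj
    obtain ⟨k1, k2, k3⟩ := mem_bd.1 hd
    obtain ⟨k4, k5⟩ := mem_inter.1 k2
    have k9 := G.al_al d k1
    have k7 : G.pi (G.al d) ∉ W := by
      intro k8
      have k10 := hon (G.al d) (mem_bd.2 ⟨G.al_mem d k1, k8, by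
        rw [k9]; exact (mem_sdiff.1 k5).2⟩) (fun k11 => hdF (by rw [← k9]; exact hF.Fal _ k11))
      exact hdj (by rw [← k9, k10])
    exact hcl d (mem_bd.2 ⟨k1, k4, fun k6 => k3 (hXU _ k6 k7)⟩)
  have hjM : j ∈ M1 ∪ M2 ↔ j = f := hcross j hjb
  -- if `j` is unused then both or none of its ends lie in `X`
  have hboth : f ∈ F → (G.pi j ∈ X ↔ G.pi (G.al j) ∈ X) := by
    intro hfF
    have k0 : j ∉ M1 ∪ M2 := fun k1 => hjF ((hjM.1 k1) ▸ hfF)
    constructor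
    · intro k1
      by_contra k2
      exact k0 (hcl j (mem_bd.2 ⟨hjd, k1, k2⟩))
    · intro k1
      by_contra k2
      have k3 := hcl (G.al j) (mem_bd.2 ⟨hajd, k1, by rw [haj]; exact k2⟩)
      have k4 := hpm.closed _ k3
      rw [haj] at k4
      exact k0 k4
  by_cases hg : G.pi g1 ∈ X
  · have hAZ := hX.admZ W
    have hCZ := hX.admZ (G.vs \ W)
    have hgA : G.pi g1 ∈ X ∩ W := mem_inter.2 ⟨hg, hc.w1⟩
    have hgC : G.pi (G.al g1) ∈ X ∩ (G.vs \ W) := hXU _ (hX.clo g1 hc.f1 hg) hc.u1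
    have hlaw := hF.law hpm hAZ.sub
    have e2 : (X ∩ W) ∩ jm = ∅ := by
      rw [← disjoint_iff_inter_eq_empty]
      exact disjoint_of_subset_left inter_subset_right hj.symm
    -- `j` and `X`
    have hx : f ∈ F → G.pi j ∈ X := by
      intro hfF
      by_contra k1
      have e1 : ((G.bd (X ∩ W)).filter fun d => d ∉ F ∧ d ∉ M1 ∪ M2) = ∅ := by
        rw [eq_empty_iff_forall_notMem]
        intro d hd
        obtain ⟨k2, k3, k4⟩ := mem_filter.1 hd
        refine k4 (cl1 d k2 k3 fun k5 => k1 ?_)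
        rw [← k5]
        exact (mem_inter.1 (mem_bd.1 k2).2.1).1
      rw [e1, e2, hc.used hF hX hg hcross hfb hfF, card_empty, card_empty,
        card_singleton] at hlaw
      obtain ⟨k, hk⟩ := hlaw
      omega
    have hAo : ¬ Even (X ∩ W).card := by
      intro k1
      by_cases hfF : f ∈ F
      · obtain ⟨d, k2, k3, k4, k5⟩ := hZ2 hfF _ hAZ hgA (mem_inter.2 ⟨hx hfF, hjW⟩) k1
        exact k5 (hMW d (cl1 d k2 k3 k4) (mem_inter.1 (mem_bd.1 k2).2.1).2)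
      · obtain ⟨d, k2, k3, k4⟩ := hZ2' hfF _ hAZ hgA k1
        by_cases k5 : d = j
        · exact k4 ((hcr2 d (by rw [k5]; exact hjb)).2 (by rw [k5]; exact (hon f hfb hfF).symm))
        · exact k4 (hMW d (cl1 d k2 k3 k5) (mem_inter.1 (mem_bd.1 k2).2.1).2)
    have hCo : ¬ (Even (X ∩ (G.vs \ W)).card ∨ (jm.Nonempty ∧ jm ⊆ X ∩ (G.vs \ W))) := by
      intro k1
      rcases hZ1 _ hCZ hgC (by rw [hjU']; exact k1) with ⟨d, k2, k3, k4, k5⟩ | ⟨d, k2, k3, k4, k5⟩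
      · obtain ⟨k6, k7, k8⟩ := mem_bd.1 k2
        obtain ⟨k9, k10⟩ := mem_inter.1 k7
        refine k5 (hMU d (hcl d (mem_bd.2 ⟨k6, k9, fun k11 => k8 (hXU _ k11 k4)⟩))
          (mem_sdiff.1 k10).2)
      · have k6 := hon d k2 k3
        by_cases hfF : f ∈ F
        · exact k4 (hXU _ (by rw [k6]; exact (hboth hfF).1 (hx hfF)) (by rw [k6]; exact hjU))
        · exact k5 (k6.trans (hon f hfb hfF).symm)
    rw [not_or] at hCo
    rcases hodd with ho | ⟨ho1, ho2⟩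
    · rw [Nat.not_even_iff_odd] at hAo
      have k1 := hCo.1
      rw [Nat.not_even_iff_odd] at k1
      rw [Nat.odd_iff] at ho hAo k1
      omega
    · exact hCo.2 ⟨ho1, hjX ho2⟩
  · have hAA := hc.adm_in hF hX hg
    have hCC := hc.adm_out hF hX hg
    have hnF : ∀ d ∈ G.bd (X ∩ W), d ∉ F := fun d hd k1 => by
      obtain ⟨k4, k5, k6⟩ := mem_bd.1 hd
      exact k6 (hAA.clo d k1 k5)
    have hnF' : ∀ d ∈ G.bd (X ∩ (G.vs \ W)), d ∉ F := fun d hd k1 => by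
      obtain ⟨k4, k5, k6⟩ := mem_bd.1 hd
      exact k6 (hCC.clo d k1 k5)
    have hx : f ∈ F → G.pi j ∉ X := by
      intro hfF k1
      have hlaw := hF.law hpm hAA.sub
      have e2 : (X ∩ W) ∩ jm = ∅ := by
        rw [← disjoint_iff_inter_eq_empty]
        exact disjoint_of_subset_left inter_subset_right hj.symm
      have e3 : ((G.bd (X ∩ W)).filter fun d => d ∈ F ∧ d ∈ M1 ∪ M2) = ∅ := by
        rw [eq_empty_iff_forall_notMem]
        intro d hd
        obtain ⟨k2, k3, -⟩ := mem_filter.1 hd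
        exact hnF d k2 k3
      have e1 : ((G.bd (X ∩ W)).filter fun d => d ∉ F ∧ d ∉ M1 ∪ M2) = {j} := by
        ext d
        rw [mem_filter, mem_singleton]
        constructor
        · rintro ⟨k2, k3, k4⟩
          by_contra k5
          exact k4 (cl1 d k2 k3 k5)
        · rintro rfl
          exact ⟨mem_bd.2 ⟨hjd, mem_inter.2 ⟨k1, hjW⟩, fun k2 => hjU (mem_inter.1 k2).2⟩, hjF,
            fun k2 => hjF ((hjM.1 k2) ▸ hfF)⟩
      rw [e1, e2, e3, card_empty, card_empty, card_singleton] at hlaw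
      obtain ⟨k, hk⟩ := hlaw
      omega
    have cA : ∀ d ∈ G.bd (X ∩ W), d ∈ M1 ∪ M2 := by
      intro d hd
      by_cases k1 : d = j
      · by_cases hfF : f ∈ F
        · exact absurd (by rw [← k1]; exact (mem_inter.1 (mem_bd.1 hd).2.1).1) (hx hfF)
        · rw [k1]
          exact hjM.2 (hon f hfb hfF).symm
      · exact cl1 d hd (hnF d hd) k1
    have cC : ∀ d ∈ G.bd (X ∩ (G.vs \ W)), d ∈ M1 ∪ M2 := by
      intro d hd
      by_cases k1 : d = G.al j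
      · by_cases hfF : f ∈ F
        · have k2 : G.pi (G.al j) ∈ X := by
            rw [← k1]
            exact (mem_inter.1 (mem_bd.1 hd).2.1).1
          exact absurd ((hboth hfF).2 k2) (hx hfF)
        · rw [k1]
          exact hpm.closed j (hjM.2 (hon f hfb hfF).symm)
      · exact cl2 d hd (hnF' d hd) k1
    have hAe : ¬ Odd (X ∩ W).card := by
      intro k1
      by_cases hfF : f ∈ F
      · obtain ⟨d, k2, k3⟩ := hA2 hfF _ hAA inter_subset_right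
          (fun k => hg (mem_inter.1 k).1) (fun k => hx hfF (mem_inter.1 k).1) k1
        exact k3 (hMW d (cA d k2) (mem_inter.1 (mem_bd.1 k2).2.1).2)
      · obtain ⟨d, k2, k3⟩ := hA2' hfF _ hAA inter_subset_right k1
        exact k3 (hMW d (cA d k2) (mem_inter.1 (mem_bd.1 k2).2.1).2)
    have hCo : ¬ (Odd (X ∩ (G.vs \ W)).card ∨ (jm.Nonempty ∧ jm ⊆ X ∩ (G.vs \ W))) := by
      intro k1
      obtain ⟨d, k2, k3⟩ := hA1 _ hCC inter_subset_right (by
        rcases k1 with k1 | k1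
        · exact Or.inl k1
        · exact Or.inr ⟨rfl, k1⟩)
      exact k3 (hMU d (cC d k2) (mem_sdiff.1 (mem_inter.1 (mem_bd.1 k2).2.1).2).2)
    rw [not_or] at hCo
    rcases hodd with ho | ⟨ho1, ho2⟩
    · have k1 := hCo.1
      rw [Nat.odd_iff] at ho hAe k1
      omega
    · exact hCo.2 ⟨ho1, hjX ho2⟩

/-- the inner matching for a (t1) set without absorbed vertices -/
theorem MCS.inT1_K (hh : G.MCS z t fr F jm sx ep 0)
    (hc : G.FC F W g1 g2) (hWo : Odd W.card) (h3 : G.val z t W = 3) (hWf : W ⊆ fr)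
    (hUc : 2 ≤ (G.vs \ W).card)
    (hj : Disjoint jm W) (hrd : rd G F W = {j}) (hfb : f ∈ G.bd W) (hzf : 0 < z f) :
    InT1 G z fr F W g1 j f := by
  have hF := hh.inst.fresh
  have hW := hc.hW
  obtain ⟨M2, hM2, hp2, hcr2, hA2⟩ := hh.solveE hW hWo h3 hfb hzf hUc
  have hon : ∀ d ∈ G.bd W, d ∈ F ∨ d = j := by
    intro d hd
    by_cases h1 : d ∈ F
    · exact Or.inl h1
    · have h2 : d ∈ rd G F W := mem_filter.2 ⟨hd, h1⟩
      rw [hrd] at h2
      exact Or.inr (mem_singleton.1 h2)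
  refine ⟨M2, hM2, hp2, hcr2, ?_, ?_⟩
  · intro X hX hXW hg hx ho
    refine hA2 X hX hXW ?_ (disjoint_of_subset_left hXW hj.symm) ho
    rw [disjoint_left]
    intro v k1 k2
    obtain ⟨d, k3, rfl⟩ := mem_image.1 k2
    obtain ⟨k4, k5, k6⟩ := mem_bd.1 k3
    rcases hon d k3 with k7 | k7
    · exact k6 (hXW (hX.clo d k7 k1))
    · exact hx (k7 ▸ k1)
  · intro A hA hg hx he
    have hg2 : G.pi g2 ∈ A := (hc.both hF hA).1 hg
    have hR : G.Adm fr F (W \ A) := by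
      refine ⟨sdiff_subset.trans hWf, fun d hd hp => ?_⟩
      obtain ⟨k1, k2⟩ := mem_sdiff.1 hp
      have k3 := hF.Fsub hd
      refine mem_sdiff.2 ⟨?_, fun k4 => k2 ?_⟩
      · by_contra k4
        rcases hc.only d hd k1 k4 with k5 | k5
        · exact k2 (k5 ▸ hg)
        · exact k2 (k5 ▸ hg2)
      · have k5 := hA.clo (G.al d) (hF.Fal d hd) k4 (by rw [G.al_al d k3]; exact k1)
        rwa [G.al_al d k3] at k5
    have hRo : Odd (W \ A).card := by
      have k1 := card_sdiff_add_card_eq_card hA.subZ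
      rw [Nat.odd_iff] at hWo ⊢
      rw [Nat.even_iff] at he
      omega
    have hnb : ∀ d ∈ G.bd W, G.pi d ∈ A := by
      intro d hd
      rcases hon d hd with k7 | k7
      · rcases hc.only d k7 (mem_bd.1 hd).2.1 (mem_bd.1 hd).2.2 with k8 | k8
        · rw [k8]; exact hg
        · rw [k8]; exact hg2
      · rw [k7]; exact hx
    obtain ⟨d, k1, k2⟩ := hA2 (W \ A) hR sdiff_subset (by
      rw [disjoint_left]
      intro v k1 k2
      obtain ⟨d, k3, rfl⟩ := mem_image.1 k2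
      exact (mem_sdiff.1 k1).2 (hnb d k3)) (disjoint_of_subset_left sdiff_subset hj.symm) hRo
    obtain ⟨k3, k4, k5⟩ := mem_bd.1 k1
    have k6 := G.al_al d k3
    have k7 : G.pi (G.al d) ∈ W := by
      by_contra k8
      exact (mem_sdiff.1 k4).2 (hnb d (mem_bd.2 ⟨k3, (mem_sdiff.1 k4).1, k8⟩))
    have k8 : G.pi (G.al d) ∈ A := by
      by_contra k9
      exact k5 (mem_sdiff.2 ⟨k7, k9⟩)
    refine ⟨G.al d, mem_bd.2 ⟨G.al_mem d k3, k8, by rw [k6]; exact (mem_sdiff.1 k4).2⟩, ?_, ?_, ?_⟩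
    · intro k9
      have k10 := hF.Fal _ k9
      rw [k6] at k10
      exact k5 (hR.clo d k10 k4)
    · intro k9
      have k10 : j ∈ rd G F W := by rw [hrd]; exact mem_singleton_self j
      refine (mem_bd.1 (mem_filter.1 k10).1).2.2 ?_
      rw [← k9, k6]
      exact (mem_sdiff.1 k4).1
    · intro k9
      have k10 := hM2.cl _ k9 (by rw [k6]; exact (mem_sdiff.1 k4).1)
      rw [k6] at k10
      exact k2 k10

end MG

end RH
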