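import Pool.Agent.Lib.RH.SGlueT1
import Pool.Agent.Lib.RH.Res

/-! Inner matchings of a (t1) set which meets the cut circuit in one vertex. -/

set_option autoImplicit false

namespace RH

open Finset Classical

namespace MG

variable {V D : Type*}

variable {G : MG V D} {z : D → ℝ} {t : V → ℝ} {fr : Finset V} {F : Finset D} {jm sx : Finset V}
variable {ep : V → ℕ} {m : ℕ} {W Y Z A X B : Finset V} {f j : D}
variable {g1 g2 : D} {M M1 M2 : Finset D}

theorem side_res (hZ : Z ⊆ G.vs) : Side G (G.res Z) Z (G.bd Z) := by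
  refine ⟨hZ, fun v hv => mem_inter.2 ⟨hZ hv, hv⟩, fun d hd => ?_, ?_, ?_, ?_⟩
  · exact mem_bd.1 hd
  · intro d hd hp h1
    have h2 : G.pi (G.al d) ∈ Z := by
      by_contra h3
      exact h1 (mem_bd.2 ⟨hd, hp, h3⟩)
    exact ⟨mem_filter.2 ⟨hd, hp, h2⟩, rfl, rfl⟩
  · intro d hd hp
    obtain ⟨h1, h2, h3⟩ := mem_filter.1 hd
    exact ⟨h1, rfl, fun h4 => (mem_bd.1 h4).2.2 h3⟩
  · intro d _ _ _ h
    exact h

theorem MCS.inT1_S (hh : G.MCS z t fr F jm sx ep 0)
    (hc : G.FC F W g1 g2) (hWo : Odd W.card) (h3 : G.val z t W = 3)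
    (hj : Disjoint jm W) (hrd : rd G F W = {j}) (hj1 : G.pi j ∈ fr)
    (hfb : f ∈ G.bd W) (hfF : f ∈ F) (hzf : 0 < z f)
    (hd : G.pi g1 = G.pi g2) (hne : G.pi j ≠ G.pi g1)
    (hB2 : ∀ X, G.Adm fr F X → X ⊆ W → Even X.card → G.pi j ∈ X → (G.bd X).card ≠ 2) :
    InT1 G z fr F W g1 j f := by
  have hF := hh.inst.fresh
  have hw := hh.inst.wt
  have hW := hc.hW
  obtain ⟨hfd, hfW, hfU⟩ := mem_bd.1 hfb
  have hjrd : j ∈ rd G F W := by rw [hrd]; exact mem_singleton_self j
  obtain ⟨hjb, hjF⟩ := mem_filter.1 hjrd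
  obtain ⟨hjd, hjW, hjU⟩ := mem_bd.1 hjb
  obtain ⟨c, hcdef⟩ : ∃ c, c = G.pi g1 := ⟨_, rfl⟩
  have hc1 : G.pi g1 = c := hcdef.symm
  have hc2 : G.pi g2 = c := by rw [← hd, hc1]
  have hcW : c ∈ W := hc1 ▸ hc.w1
  have hcfr : c ∈ fr := hc1 ▸ hF.Ffr g1 hc.f1
  have hcj : c ∉ jm := fun h1 => disjoint_left.1 hj h1 hcW
  have hg1d := hF.Fsub hc.f1
  have hg2d := hF.Fsub hc.f2
  rw [hc1] at hne
  have hfc : G.pi f = c := by
    rcases hc.only f hfF hfW hfU with h1 | h1
    · rw [h1, hc1]
    · rw [h1, hc2]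
  obtain ⟨i, hid, hic, hiF, hiu⟩ := hF.exists_jd hcfr hcj
  have haid := G.al_mem i hid
  have hai := G.al_al i hid
  have hyW : G.pi (G.al i) ∈ W := by
    by_contra h1
    have h2 : i ∈ rd G F W := mem_filter.2 ⟨mem_bd.2 ⟨hid, by rw [hic]; exact hcW, h1⟩, hiF⟩
    rw [hrd, mem_singleton] at h2
    exact hne (by rw [← h2]; exact hic)
  obtain ⟨y, hy⟩ : ∃ y, y = G.pi (G.al i) := ⟨_, rfl⟩
  rw [← hy] at hyW
  have hyc : y ≠ c := by
    rw [hy, ← hic]
    exact G.noloop i hid
  -- darts at `c`
  have hFc : ∀ d ∈ F, G.pi d = c → d = g1 ∨ d = g2 := by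
    intro d h1 h2
    have h4 := hF.two c hcfr
    have h5 : {g1, g2} ⊆ F.filter fun d => G.pi d = c := by
      intro e he
      rw [mem_insert, mem_singleton] at he
      rcases he with rfl | rfl
      · exact mem_filter.2 ⟨hc.f1, hc1⟩
      · exact mem_filter.2 ⟨hc.f2, hc2⟩
    have h6 : {g1, g2} = F.filter fun d => G.pi d = c := by
      refine eq_of_subset_of_card_le h5 ?_
      rw [h4, card_pair hc.ne]
    have h7 : d ∈ F.filter fun d => G.pi d = c := mem_filter.2 ⟨h1, h2⟩
    rw [← h6, mem_insert, mem_singleton] at h7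
    exact h7
  set W' := W.erase c with hW'
  have hW's : W' ⊆ G.vs := (erase_subset _ _).trans hW
  have hW'W : W' ⊆ W := erase_subset _ _
  have hyW' : y ∈ W' := mem_erase.2 ⟨hyc, hyW⟩
  have hxW' : G.pi j ∈ W' := mem_erase.2 ⟨hne, hjW⟩
  have hcW' : c ∉ W' := notMem_erase c W
  have hbdW' : ∀ d, d ∈ G.bd W' ↔ d = G.al i ∨ d = j := by
    intro d
    rw [mem_bd]
    constructor
    · rintro ⟨h1, h2, h4⟩
      have h5 := G.al_al d h1
      by_cases h6 : G.pi (G.al d) ∈ W
      · have h7 : G.pi (G.al d) = c := by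
          by_contra h8
          exact h4 (mem_erase.2 ⟨h8, h6⟩)
        left
        by_cases h8 : G.al d ∈ F
        · exfalso
          rcases hFc _ h8 h7 with h9 | h9
          · apply hc.u1
            rw [← h9, h5]
            exact hW'W h2
          · apply hc.u2
            rw [← h9, h5]
            exact hW'W h2
        · rw [← h5, hiu _ (G.al_mem d h1) h7 h8]
      · right
        have h7 : d ∈ G.bd W := mem_bd.2 ⟨h1, hW'W h2, h6⟩
        by_cases h8 : d ∈ F
        · exfalso
          rcases hc.only d h8 (hW'W h2) h6 with h9 | h9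
          · exact hcW' (by rw [← hc1, ← h9]; exact h2)
          · exact hcW' (by rw [← hc2, ← h9]; exact h2)
        · have h9 : d ∈ rd G F W := mem_filter.2 ⟨h7, h8⟩
          rw [hrd] at h9
          exact mem_singleton.1 h9
    · rintro (h1 | h1)
      · rw [h1, hai, ← hy, hic]
        exact ⟨haid, hyW', hcW'⟩
      · rw [h1]
        exact ⟨hjd, hxW', fun h2 => hjU (hW'W h2)⟩
  have haiF : G.al i ∉ F := fun h1 => hiF (by rw [← hai]; exact hF.Fal _ h1)
  have hyx : y ∈ fr → y ≠ G.pi j := by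
    intro h1 h2
    have h4 : y ∉ jm := fun h5 => disjoint_left.1 hj h5 hyW
    obtain ⟨k, -, -, -, k4⟩ := hF.exists_jd h1 h4
    have h5 := k4 _ haid hy.symm haiF
    have h6 := k4 j hjd h2.symm hjF
    have h7 : G.al i = j := h5.trans h6.symm
    apply hjU
    rw [← h7, hai, hic]
    exact hcW
  obtain ⟨jm', B', hcase⟩ : ∃ jm' B' : Finset V, (y ∈ fr ∧ jm' = {y, G.pi j} ∧ B' = ∅) ∨
      (y ∉ fr ∧ jm' = ∅ ∧ B' = {G.pi j}) := by
    by_cases h1 : y ∈ fr
    · exact ⟨_, _, Or.inl ⟨h1, rfl, rfl⟩⟩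
    · exact ⟨_, _, Or.inr ⟨h1, rfl, rfl⟩⟩
  have s := side_res hW's
  set F' := F.filter fun d => G.pi d ∈ W' ∧ G.pi (G.al d) ∈ W' with hF'
  have hstay : ∀ d ∈ F, G.pi d ∈ W' → G.pi (G.al d) ∈ W' := by
    intro d h1 h2
    by_contra h4
    rcases (hbdW' d).1 (mem_bd.2 ⟨hF.Fsub h1, h2, h4⟩) with h5 | h5
    · exact haiF (h5 ▸ h1)
    · exact hjF (h5 ▸ h1)
  have hfrB : (G.res W').FrB z (fr ∩ W') F' jm' B' := by
    refine s.frB hF ?_ ?_ ?_ ?_ (fun v hv _ => (mem_inter.1 hv).1) ?_ (fun _ _ _ _ => rfl)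
      ?_ ?_ ?_ ?_ ?_ ?_ ?_
    · intro v hv
      exact mem_inter.2 ⟨hF.fsub (mem_inter.1 hv).1, (mem_inter.1 hv).2⟩
    · intro d hd
      obtain ⟨h1, h2⟩ := mem_filter.1 hd
      exact mem_filter.2 ⟨hF.Fsub h1, h2⟩
    · intro d hd
      obtain ⟨h1, h2, h4⟩ := mem_filter.1 hd
      change G.al d ∈ _
      exact mem_filter.2 ⟨hF.Fal d h1, h4, by rw [G.al_al d (hF.Fsub h1)]; exact h2⟩
    · intro v hv
      rcases hcase with ⟨h1, h2, -⟩ | ⟨-, h2, -⟩
      · rw [h2, mem_insert, mem_singleton] at hv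
        rcases hv with rfl | rfl
        · exact mem_inter.2 ⟨h1, hyW'⟩
        · exact mem_inter.2 ⟨hj1, hxW'⟩
      · rw [h2] at hv
        exact absurd hv (notMem_empty v)
    · intro d _ hp _ _
      rw [hF', mem_filter]
      exact ⟨fun h1 => h1.1, fun h1 => ⟨h1, hp, hstay d h1 hp⟩⟩
    · intro d hd' hp
      rcases (hbdW' d).1 hd' with h1 | h1
      · have h4 : G.pi d = y := by rw [h1, hy]
        rcases hcase with ⟨-, h2, -⟩ | ⟨h5, -, -⟩
        · refine Or.inr ⟨?_, by rw [h1]; exact haiF⟩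
          rw [h4, h2]
          exact mem_insert_self _ _
        · rw [h4] at hp
          exact absurd (mem_inter.1 hp).1 h5
      · rcases hcase with ⟨-, h2, -⟩ | ⟨-, -, h2⟩
        · refine Or.inr ⟨?_, by rw [h1]; exact hjF⟩
          rw [h1, h2]
          exact mem_insert_of_mem (mem_singleton_self _)
        · left
          rw [h1, h2]
          exact mem_singleton_self _
    · intro v _ hv
      right
      rcases hcase with ⟨-, h2, -⟩ | ⟨-, h2, -⟩
      · rw [h2, mem_insert, mem_singleton] at hv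
        rcases hv with h4 | h4
        · exact ⟨G.al i, (hbdW' _).2 (Or.inl rfl), by rw [h4, hy], haiF⟩
        · exact ⟨j, (hbdW' _).2 (Or.inr rfl), h4.symm, hjF⟩
      · rw [h2] at hv
        exact absurd hv (notMem_empty v)
    · intro v hv _ hvj
      exact absurd (hW'W hv) (disjoint_left.1 hj hvj)
    · intro v hv hn
      exact absurd (mem_inter.1 hv).2 hn
    · intro v hv hn
      exact absurd (mem_inter.1 hv).2 hn
    · intro v hv hn
      rcases hcase with ⟨-, h2, -⟩ | ⟨-, h2, -⟩
      · rw [h2, mem_insert, mem_singleton] at hv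
        rcases hv with rfl | rfl
        · exact absurd hyW' hn
        · exact absurd hxW' hn
      · rw [h2] at hv
        exact absurd hv (notMem_empty v)
    · intro d _ hp hn
      exact absurd (mem_inter.1 hp).2 hn
  have hAd : ∀ X, (G.res W').Adm (fr ∩ W') F' X → G.Adm fr F X ∧ X ⊆ W' := by
    intro X hX
    have hXW : X ⊆ W' := fun v hv => (mem_inter.1 (hX.sub hv)).2
    exact ⟨⟨fun v hv => (mem_inter.1 (hX.sub hv)).1, fun d h1 h2 =>
      hX.clo d (mem_filter.2 ⟨h1, hXW h2, hstay d h1 (hXW h2)⟩) h2⟩, hXW⟩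
  have hX0 : ∀ X, X ⊆ W → (X ∩ jm).card = 0 := by
    intro X hX
    rw [card_eq_zero, ← disjoint_iff_inter_eq_empty]
    exact disjoint_of_subset_left hX hj.symm
  have hbd' : ∀ X, X ⊆ W' → (G.bd X).card ≤ ((G.res W').bd X).card +
      ((if y ∈ X then 1 else 0) + (if G.pi j ∈ X then 1 else 0)) := by
    intro X hX
    have h1 := s.bd hX
    have h2 : G.bd X ⊆ (G.res W').bd X ∪ ((if y ∈ X then {G.al i} else ∅) ∪
        (if G.pi j ∈ X then {j} else ∅)) := by
      intro d h4
      by_cases h5 : d ∈ G.bd W'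
      · refine mem_union_right _ ?_
        have h6 := (mem_bd.1 h4).2.1
        rcases (hbdW' d).1 h5 with h7 | h7
        · refine mem_union_left _ ?_
          rw [h7, ← hy] at h6
          rw [if_pos h6, h7]
          exact mem_singleton_self _
        · refine mem_union_right _ ?_
          rw [h7] at h6
          rw [if_pos h6, h7]
          exact mem_singleton_self _
      · refine mem_union_left _ ?_
        rw [h1]
        exact mem_sdiff.2 ⟨h4, h5⟩
    refine (card_le_card h2).trans ((card_union_le _ _).trans ?_)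
    refine Nat.add_le_add_left ((card_union_le _ _).trans ?_) _
    refine Nat.add_le_add ?_ ?_
    · split_ifs
      · exact le_of_eq (card_singleton _)
      · exact le_of_eq card_empty
    · split_ifs
      · exact le_of_eq (card_singleton _)
      · exact le_of_eq card_empty
  have hcnt : ∀ X, X ⊆ fr → X ⊆ W' → Disjoint X B' → (G.bd X).card ≤ ((G.res W').bd X).card +
      (X ∩ jm').card := by
    intro X hXf hX hXB
    refine (hbd' X hX).trans (Nat.add_le_add_left ?_ _)
    rcases hcase with ⟨h1, h2, -⟩ | ⟨h1, h2, h4⟩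
    · have h5 : X ∩ jm' = (if y ∈ X then {y} else ∅) ∪ (if G.pi j ∈ X then {G.pi j} else ∅) := by
        ext v
        rw [h2, mem_inter, mem_insert, mem_singleton, mem_union]
        constructor
        · rintro ⟨k1, rfl | rfl⟩
          · exact Or.inl (by rw [if_pos k1]; exact mem_singleton_self _)
          · exact Or.inr (by rw [if_pos k1]; exact mem_singleton_self _)
        · rintro (k1 | k1)
          · split_ifs at k1 with k2
            · rw [mem_singleton] at k1
              exact ⟨k1 ▸ k2, Or.inl k1⟩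
            · exact absurd k1 (notMem_empty _)
          · split_ifs at k1 with k2
            · rw [mem_singleton] at k1
              exact ⟨k1 ▸ k2, Or.inr k1⟩
            · exact absurd k1 (notMem_empty _)
      rw [h5, card_union_of_disjoint]
      · refine Nat.add_le_add ?_ ?_
        · split_ifs
          · exact le_of_eq (card_singleton _).symm
          · exact Nat.zero_le _
        · split_ifs
          · exact le_of_eq (card_singleton _).symm
          · exact Nat.zero_le _
      · split_ifs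
        · exact disjoint_singleton.2 (hyx h1)
        · exact disjoint_empty_right _
        · exact disjoint_empty_left _
        · exact disjoint_empty_left _
    · have h5 : y ∉ X := fun k => h1 (hXf k)
      have h6 : G.pi j ∉ X := fun k => disjoint_left.1 hXB k (by
        rw [h4]
        exact mem_singleton_self _)
      rw [if_neg h5, if_neg h6]
      exact Nat.zero_le _
  have hval' : G.val z t W' ≤ 2 := by
    have h1 := hw.submod (X := W') (Y := {c}) hW's (singleton_subset_iff.2 (hW hcW))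
    have h2 : W' ∩ {c} = ∅ := by
      rw [← disjoint_iff_inter_eq_empty, disjoint_singleton_right]
      exact hcW'
    have h4 : W' ∪ {c} = W := by
      rw [union_comm, ← insert_eq, hW']
      exact insert_erase hcW
    have h5 : G.val z t ∅ = 0 := by
      unfold val bd
      simp
    have h6 : W' \ {c} = W' := by
      rw [sdiff_singleton_eq_erase, erase_eq_of_notMem hcW']
    have h7 : ({c} : Finset V) \ W' = {c} := by
      ext v
      rw [mem_sdiff, mem_singleton]
      exact ⟨fun k => k.1, fun k => ⟨k, k ▸ hcW'⟩⟩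
    rw [h2, h4, h5, h6, h7, h3, hw.val_single (hW hcW), hw.ed_symm] at h1
    have h8 : ∑ d ∈ G.ed {c} W', z d + ∑ d ∈ {g1, g2}, z d ≤ ∑ d ∈ G.st c, z d := by
      rw [← sum_union]
      · refine sum_le_sum_of_subset_of_nonneg ?_ fun d k1 _ => hw.z0 d (mem_st.1 k1).1
        intro d k1
        rcases mem_union.1 k1 with k2 | k2
        · obtain ⟨k4, k5, -⟩ := mem_ed.1 k2
          exact mem_st.2 ⟨k4, mem_singleton.1 k5⟩
        · rw [mem_insert, mem_singleton] at k2
          rcases k2 with rfl | rfl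
          · exact mem_st.2 ⟨hg1d, hc1⟩
          · exact mem_st.2 ⟨hg2d, hc2⟩
      · rw [disjoint_left]
        intro d k1 k2
        have k4 := hW'W (mem_ed.1 k1).2.2
        rw [mem_insert, mem_singleton] at k2
        rcases k2 with rfl | rfl
        · exact hc.u1 k4
        · exact hc.u2 k4
    rw [sum_pair hc.ne, hF.unit g1 hg1d (hF.Ffr g1 hc.f1),
      hF.unit g2 hg2d (hF.Ffr g2 hc.f2)] at h8
    have h9 := hw.deg c (hW hcW)
    have h10 := hw.t0 c (hW hcW)
    linarith
  have hcard : W'.card + 1 = W.card := card_erase_add_one hcW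
  have hraw : (G.res W').RawI z (G.tres z t W') (fr ∩ W') F' jm' B' 0 := by
    refine ⟨?_, hw.res hW's, ?_, hfrB, ?_, ?_, fun _ _ _ _ _ => Nat.zero_le _, ?_⟩
    · have h1 : (G.res W').vs = W' := inter_eq_right.2 hW's
      rw [h1]
      rw [Nat.odd_iff] at hWo
      rw [Nat.even_iff]
      omega
    · rw [res_tau hw hW's]
      linarith
    · rcases hcase with ⟨h1, h2, -⟩ | ⟨-, h2, -⟩
      · right
        rw [h2, card_pair (hyx h1)]
      · exact Or.inl h2
    · intro X hX hXB ho
      obtain ⟨h1, h2⟩ := hAd X hX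
      have h4 := hh.inst.cc0 h1 ho
      rw [hX0 X (h2.trans hW'W), add_zero] at h4
      exact h4.trans (hcnt X h1.sub h2 hXB)
    · intro X hX hXB he hn hjX
      obtain ⟨h1, h2⟩ := hAd X hX
      rcases hcase with ⟨h4, h5, -⟩ | ⟨-, h5, -⟩
      · have h6 : y ∈ X := hjX (by rw [h5]; exact mem_insert_self _ _)
        have h7 : G.pi j ∈ X := hjX (by rw [h5]; exact mem_insert_of_mem (mem_singleton_self _))
        have h8 := hF.bd_par h1
        rw [hX0 X (h2.trans hW'W), add_zero] at h8
        have h9 := hB2 X h1 (h2.trans hW'W) he h7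
        have h10 := hbd' X h2
        rw [if_pos h6, if_pos h7] at h10
        have h11 : 2 ≤ (G.bd X).card := by
          have k1 : {G.al i, j} ⊆ G.bd X := by
            intro d k2
            rw [mem_insert, mem_singleton] at k2
            rcases k2 with rfl | rfl
            · refine mem_bd.2 ⟨haid, by rw [← hy]; exact h6, ?_⟩
              rw [hai, hic]
              exact fun k => hcW' (h2 k)
            · exact mem_bd.2 ⟨hjd, h7, fun k => hjU (hW'W (h2 k))⟩
          have k2 := card_le_card k1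
          have k4 : G.al i ≠ j := by
            intro k5
            apply hjU
            rw [← k5, hai, hic]
            exact hcW
          rwa [card_pair k4] at k2
        rw [Nat.even_iff] at he
        omega
      · rw [h5] at hn
        exact absurd hn not_nonempty_empty
  obtain ⟨M', hM', hpos, hhit⟩ := hh.solve hraw (by
    have h1 : (fr ∩ W').card < fr.card := by
      refine card_lt_card ⟨inter_subset_left, fun h2 => ?_⟩
      exact hcW' (mem_inter.1 (h2 hcfr)).2
    exact Or.inl h1)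
  have hM'W : ∀ d ∈ M', d ∈ G.ds ∧ G.pi d ∈ W' ∧ G.pi (G.al d) ∈ W' := fun d h1 =>
    mem_filter.1 (hM'.sub h1)
  refine ⟨insert f M', ⟨?_, ?_, ?_⟩, ?_, ?_, ?_, ?_⟩
  · intro d h1
    rcases mem_insert.1 h1 with rfl | h1
    · exact ⟨hfd, hfW⟩
    · exact ⟨(hM'W d h1).1, hW'W (hM'W d h1).2.1⟩
  · intro d h1 h2
    rcases mem_insert.1 h1 with rfl | h1
    · exact absurd h2 hfU
    · exact mem_insert_of_mem (hM'.closed d h1)
  · intro v hv
    by_cases h1 : v = c
    · rw [card_eq_one]
      refine ⟨f, ?_⟩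
      ext d
      rw [mem_filter, mem_singleton, mem_insert]
      constructor
      · rintro ⟨rfl | h2, h4⟩
        · rfl
        · exact absurd (by rw [← h1, ← h4]; exact (hM'W d h2).2.1) hcW'
      · rintro rfl
        exact ⟨Or.inl rfl, hfc.trans h1.symm⟩
    · have h2 : v ∈ (G.res W').vs := mem_inter.2 ⟨hW hv, mem_erase.2 ⟨h1, hv⟩⟩
      rw [← hM'.one v h2]
      congr 1
      ext d
      rw [mem_filter, mem_filter, mem_insert]
      constructor
      · rintro ⟨rfl | h4, h5⟩
        · exact absurd (h5.symm.trans hfc) h1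
        · exact ⟨h4, h5⟩
      · rintro ⟨h4, h5⟩
        exact ⟨Or.inr h4, h5⟩
  · intro d h1
    rcases mem_insert.1 h1 with rfl | h1
    · exact hzf
    · exact hpos d h1
  · intro d h1
    rw [mem_insert]
    constructor
    · rintro (h2 | h2)
      · exact h2
      · exact absurd (hW'W (hM'W d h2).2.2) (mem_bd.1 h1).2.2
    · exact fun h2 => Or.inl h2
  · intro X hX hXW hg hx ho
    rw [hc1] at hg
    have hXW' : X ⊆ W' := fun v hv => mem_erase.2 ⟨fun h1 => hg (h1 ▸ hv), hXW hv⟩
    by_cases hyX : y ∈ X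
    · refine ⟨G.al i, mem_bd.2 ⟨haid, by rw [← hy]; exact hyX, by rw [hai, hic]; exact hg⟩, ?_⟩
      intro h1
      rcases mem_insert.1 h1 with h2 | h2
      · apply hyc
        rw [← hfc, ← h2]
        exact hy
      · have h4 := (hM'W _ h2).2.2
        rw [hai, hic] at h4
        exact hcW' h4
    · have h1 : (G.res W').Adm (fr ∩ W') F' X := by
        refine ⟨fun v hv => mem_inter.2 ⟨hX.sub hv, hXW' hv⟩, fun d hd' hp => ?_⟩
        exact hX.clo d (mem_filter.1 hd').1 hp
      have h2 : Disjoint X B' := by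
        rcases hcase with ⟨-, -, h4⟩ | ⟨-, -, h4⟩
        · rw [h4]
          exact disjoint_empty_right _
        · rw [h4, disjoint_singleton_right]
          exact hx
      obtain ⟨d, h4, h5⟩ := hhit X h1 h2 (Or.inl ho)
      rw [s.bd hXW'] at h4
      obtain ⟨h6, h7⟩ := mem_sdiff.1 h4
      refine ⟨d, h6, fun h8 => ?_⟩
      rcases mem_insert.1 h8 with h9 | h9
      · have h10 := (mem_bd.1 h6).2.1
        rw [h9, hfc] at h10
        exact hg h10
      · exact h5 h9
  · intro A hA hg hx _
    rw [hc1] at hg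
    by_cases hyA : y ∈ A
    · have hyf := hA.sub hyA
      rcases hcase with ⟨-, h2, h4⟩ | ⟨h1, -, -⟩
      · set A0 := A.erase c with hA0
        have hA0W : A0 ⊆ W' := fun v hv => mem_erase.2 ⟨(mem_erase.1 hv).1,
          hA.subZ (mem_erase.1 hv).2⟩
        have h1 : (G.res W').Adm (fr ∩ W') F' A0 := by
          refine ⟨fun v hv => mem_inter.2 ⟨hA.sub (mem_erase.1 hv).2, hA0W hv⟩,
            fun d hd' hp => ?_⟩
          obtain ⟨k1, k2, k3⟩ := mem_filter.1 hd'
          refine mem_erase.2 ⟨fun k4 => hcW' (k4 ▸ k3), ?_⟩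
          exact hA.clo d k1 (mem_erase.1 hp).2 (hW'W k3)
        obtain ⟨d, h5, h6⟩ := hhit A0 h1 (by rw [h4]; exact disjoint_empty_right _) (Or.inr ⟨by
          rw [h2]; exact ⟨y, mem_insert_self _ _⟩, by
          intro v hv
          rw [h2, mem_insert, mem_singleton] at hv
          rcases hv with rfl | rfl
          · exact mem_erase.2 ⟨hyc, hyA⟩
          · exact mem_erase.2 ⟨hne, hx⟩⟩)
        rw [s.bd hA0W] at h5
        obtain ⟨h7, h8⟩ := mem_sdiff.1 h5
        obtain ⟨k1, k2, k3⟩ := mem_bd.1 h7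
        have k4 : d ≠ j := fun k => h8 ((hbdW' d).2 (Or.inr k))
        have k5 : d ≠ G.al i := fun k => h8 ((hbdW' d).2 (Or.inl k))
        have k6 : G.pi (G.al d) ∈ W' := by
          by_contra k7
          exact h8 (mem_bd.2 ⟨k1, hA0W k2, k7⟩)
        refine ⟨d, mem_bd.2 ⟨k1, (mem_erase.1 k2).2, fun k7 => k3 (mem_erase.2 ⟨fun k8 =>
          hcW' (k8 ▸ k6), k7⟩)⟩, fun k7 => k3 ?_, k4, fun k7 => ?_⟩
        · exact h1.clo d (mem_filter.2 ⟨k7, hA0W k2, k6⟩) k2
        · rcases mem_insert.1 k7 with k8 | k8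
          · rw [k8, hfc] at k2
            exact hcW' (hA0W k2)
          · exact h6 k8
      · exact absurd hyf h1
    · refine ⟨i, mem_bd.2 ⟨hid, by rw [hic]; exact hg, by rw [← hy]; exact hyA⟩, hiF,
        fun h1 => hne (by rw [← h1]; exact hic), fun h1 => ?_⟩
      rcases mem_insert.1 h1 with h2 | h2
      · exact hiF (h2 ▸ hfF)
      · have h4 := (hM'W _ h2).2.1
        rw [hic] at h4
        exact hcW' h4

end MG

end RH
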