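import Pool.Agent.Lib.RH.SFcA

/-! Gluing (t1'): the third unit is a star token (helper42). -/

set_option autoImplicit false

namespace RH

open Finset Classical

namespace MG

variable {V D : Type*}

variable {G : MG V D} {z : D → ℝ} {t : V → ℝ} {fr : Finset V} {F : Finset D} {jm sx : Finset V}
variable {ep : V → ℕ} {m : ℕ} {W Y Z A X B : Finset V} {f : D}
variable {g1 g2 : D} {M M1 M2 : Finset D}

theorem glued (hW : W ⊆ G.vs) (hM1 : G.Half (G.vs \ W) M1) (hM2 : G.Half W M2)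
    (hcr1 : ∀ d ∈ G.bd W, (G.al d ∈ M1 ↔ d = f)) (hcr2 : ∀ d ∈ G.bd W, (d ∈ M2 ↔ d = f))
    (hfb : f ∈ G.bd W) :
    G.IsPM (M1 ∪ M2) ∧ (∀ d ∈ M1 ∪ M2, G.pi d ∈ W → d ∈ M2) ∧
      (∀ d ∈ M1 ∪ M2, G.pi d ∉ W → d ∈ M1) ∧ (∀ d ∈ G.bd W, (d ∈ M1 ∪ M2 ↔ d = f)) ∧
      f ∈ M1 ∪ M2 := by
  have hdj : Disjoint (G.vs \ W) W := sdiff_disjoint
  have hMW : ∀ d ∈ M1 ∪ M2, G.pi d ∈ W → d ∈ M2 := by
    intro d hd h1
    rcases mem_union.1 hd with h2 | h2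
    · exact absurd h1 (mem_sdiff.1 (hM1.sub d h2).2).2
    · exact h2
  have hMU : ∀ d ∈ M1 ∪ M2, G.pi d ∉ W → d ∈ M1 := by
    intro d hd h1
    rcases mem_union.1 hd with h2 | h2
    · exact h2
    · exact absurd (hM2.sub d h2).2 h1
  have hcross : ∀ d ∈ G.bd W, (d ∈ M1 ∪ M2 ↔ d = f) := by
    intro d hd
    constructor
    · intro h1
      exact (hcr2 d hd).1 (hMW d h1 (mem_bd.1 hd).2.1)
    · intro h1
      exact mem_union_right _ ((hcr2 d hd).2 h1)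
  refine ⟨?_, hMW, hMU, hcross, (hcross f hfb).2 rfl⟩
  refine hM1.glue hM2 hdj (sdiff_union_of_subset hW).symm ?_
  intro d hd h1 h2
  have h4 : d ∈ G.bd W := mem_bd.2 ⟨hd, h1, (mem_sdiff.1 h2).2⟩
  rw [hcr2 d h4, hcr1 d h4]

theorem parts (hX : X ⊆ G.vs) : (∀ v ∈ X, v ∉ W → v ∈ X ∩ (G.vs \ W)) ∧
    (X ∩ W).card + (X ∩ (G.vs \ W)).card = X.card := by
  refine ⟨fun v h1 h2 => mem_inter.2 ⟨h1, mem_sdiff.2 ⟨hX h1, h2⟩⟩, ?_⟩
  have h1 : X ∩ (G.vs \ W) = X \ W := by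
    ext v
    rw [mem_inter, mem_sdiff, mem_sdiff]
    exact ⟨fun k => ⟨k.1, k.2.2⟩, fun k => ⟨k.1, hX k.1, k.2⟩⟩
  rw [h1, add_comm]
  exact card_sdiff_add_card_inter X W

/-- the F-dart of the cut which is used -/
theorem FC.used (hc : G.FC F W g1 g2) (hF : G.FrS z fr F jm) (hX : G.Adm fr F X)
    (hg : G.pi g1 ∈ X) (hcross : ∀ d ∈ G.bd W, (d ∈ M ↔ d = f)) (hfb : f ∈ G.bd W)
    (hfF : f ∈ F) : ((G.bd (X ∩ W)).filter fun d => d ∈ F ∧ d ∈ M) = {f} := by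
  obtain ⟨hfd, hfW, hfU⟩ := mem_bd.1 hfb
  have hAZ := hX.admZ W
  have hgA : G.pi g1 ∈ X ∩ W := mem_inter.2 ⟨hg, hc.w1⟩
  have hgA2 : G.pi g2 ∈ X ∩ W := (hc.both hF hAZ).1 hgA
  ext d
  rw [mem_filter, mem_singleton]
  constructor
  · rintro ⟨k1, k2, k3⟩
    obtain ⟨k4, k5, k6⟩ := mem_bd.1 k1
    obtain ⟨k7, k8⟩ := mem_inter.1 k5
    have k9 : G.pi (G.al d) ∉ W := fun k10 => k6 (mem_inter.2 ⟨hX.clo d k2 k7, k10⟩)
    exact (hcross d (mem_bd.2 ⟨k4, k8, k9⟩)).1 k3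
  · rintro rfl
    refine ⟨mem_bd.2 ⟨hfd, ?_, fun k1 => hfU (mem_inter.1 k1).2⟩, hfF, (hcross d hfb).2 rfl⟩
    rcases hc.only d hfF hfW hfU with k1 | k1
    · rw [k1]; exact hgA
    · rw [k1]; exact hgA2

theorem MCS.no_t1' (hh : G.MCS z t fr F jm sx ep 0)
    (hc : G.FC F W g1 g2) (hWo : Odd W.card) (h3 : G.val z t W = 3) (hWc : 2 ≤ W.card)
    (hUc : 2 ≤ (G.vs \ W).card) (hjW : (jm ∩ W).card = 1) (hrd : rd G F W = ∅)
    (hC : ∀ A, G.AdmZ fr F (G.vs \ W) A → G.pi (G.al g1) ∈ A → Even A.card →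
      G.val z t (A ∪ W) ≠ 3)
    (hB : ∀ A, G.AdmZ fr F (G.vs \ W) A → G.pi (G.al g1) ∈ A → Odd A.card →
      G.bd (A ∪ W) ≠ ∅) : False := by
  have hF := hh.inst.fresh
  have hw := hh.inst.wt
  have hW := hc.hW
  have hbF : ∀ d ∈ G.bd W, d ∈ F := by
    intro d hd
    by_contra h1
    have h2 : d ∈ rd G F W := mem_filter.2 ⟨hd, h1⟩
    rw [hrd] at h2
    exact notMem_empty d h2
  have hu : ∀ d ∈ G.bd W, z d = 1 := fun d hd =>
    hF.unit d (mem_bd.1 hd).1 (hF.Ffr d (hbF d hd))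
  have ht : ∑ v ∈ W, t v = 1 := by
    have h1 := hc.third hF h3
    change ∑ d ∈ rd G F W, z d + _ = 1 at h1
    rw [hrd, sum_empty, zero_add] at h1
    exact h1
  obtain ⟨M1, hM1, hp1, f, hfb, hzf, hcr1, hA1, hZ1⟩ := hh.solveA (jw := {G.pi g1}) hc hWo h3 hWc
    hc.w1 rfl hu (Or.inr ⟨rfl, hrd, hjW⟩) (by rw [ht, card_singleton]; norm_num) hC hB
  obtain ⟨M2, hM2, hp2, hcr2, hA2⟩ := hh.solveE hW hWo h3 hfb hzf hUc
  obtain ⟨hpm, hMW, hMU, hcross, hfM⟩ := glued hW hM1 hM2 hcr1 hcr2 hfb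
  have hpos : ∀ d ∈ M1 ∪ M2, 0 < z d := by
    intro d hd
    rcases mem_union.1 hd with h1 | h1
    · exact hp1 d h1
    · exact hp2 d h1
  obtain ⟨hfd, hfW, hfU⟩ := mem_bd.1 hfb
  have hfF := hbF f hfb
  obtain ⟨X, hX, hodd, hcl⟩ := hh.closed hpm hpos
  have hXs := hX.sub.trans hF.fsub
  obtain ⟨hXU, hcard⟩ := parts (W := W) hXs
  have hjX := hF.closed_jm hpm hX hcl
  have hj2 : jm.card = 2 := by
    rcases hh.inst.jm2 with k1 | k1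
    · rw [k1, empty_inter, card_empty] at hjW
      omega
    · exact k1
  have cl1 : ∀ d ∈ G.bd (X ∩ W), d ∉ F → d ∈ M1 ∪ M2 := by
    intro d hd hdF
    obtain ⟨k1, k2, k3⟩ := mem_bd.1 hd
    obtain ⟨k4, k5⟩ := mem_inter.1 k2
    have k7 : G.pi (G.al d) ∈ W := by
      by_contra k8
      exact hdF (hbF d (mem_bd.2 ⟨k1, k5, k8⟩))
    exact hcl d (mem_bd.2 ⟨k1, k4, fun k6 => k3 (mem_inter.2 ⟨k6, k7⟩)⟩)
  have cl2 : ∀ d ∈ G.bd (X ∩ (G.vs \ W)), d ∉ F → d ∈ M1 ∪ M2 := by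
    intro d hd hdF
    obtain ⟨k1, k2, k3⟩ := mem_bd.1 hd
    obtain ⟨k4, k5⟩ := mem_inter.1 k2
    have k9 := G.al_al d k1
    have k7 : G.pi (G.al d) ∉ W := by
      intro k8
      have k10 := hbF (G.al d) (mem_bd.2 ⟨G.al_mem d k1, k8, by rw [k9]; exact (mem_sdiff.1 k5).2⟩)
      exact hdF (by rw [← k9]; exact hF.Fal _ k10)
    exact hcl d (mem_bd.2 ⟨k1, k4, fun k6 => k3 (hXU _ k6 k7)⟩)
  by_cases hg : G.pi g1 ∈ X
  · have hAZ := hX.admZ W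
    have hCZ := hX.admZ (G.vs \ W)
    have hgC : G.pi (G.al g1) ∈ X ∩ (G.vs \ W) := hXU _ (hX.clo g1 hc.f1 hg) hc.u1
    have hlaw := hF.law hpm hAZ.sub
    have e1 : ((G.bd (X ∩ W)).filter fun d => d ∉ F ∧ d ∉ M1 ∪ M2) = ∅ := by
      rw [eq_empty_iff_forall_notMem]
      intro d hd
      obtain ⟨k1, k2, k3⟩ := mem_filter.1 hd
      exact k3 (cl1 d k1 k2)
    rw [e1, hc.used hF hX hg hcross hfb hfF, card_empty, card_singleton] at hlaw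
    have h1 : ((X ∩ W) ∩ jm).card ≠ 0 := by
      intro k1
      rw [k1] at hlaw
      obtain ⟨k, hk⟩ := hlaw
      omega
    have h2 : (X ∩ jm).card ≠ 0 := by
      intro k1
      apply h1
      rw [card_eq_zero] at k1 ⊢
      rw [eq_empty_iff_forall_notMem] at k1 ⊢
      intro v hv
      obtain ⟨k2, k3⟩ := mem_inter.1 hv
      exact k1 v (mem_inter.2 ⟨(mem_inter.1 k2).1, k3⟩)
    have h4 : (X ∩ jm).card ≤ jm.card := card_le_card inter_subset_right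
    have h5 : X ∩ jm = jm := by
      refine eq_of_subset_of_card_le inter_subset_right ?_
      obtain ⟨k, hk⟩ := hjX
      omega
    have h6 : jm ⊆ X := by
      rw [← h5]
      exact inter_subset_left
    rcases hZ1 _ hCZ hgC (Or.inr ⟨card_pos.1 (by omega), fun v hv =>
      mem_inter.2 ⟨h6 (mem_inter.1 hv).1, (mem_inter.1 hv).2⟩⟩) with
      ⟨d, k1, k2, k3, k4⟩ | ⟨d, k1, k2, -⟩
    · exact k4 (hMU d (cl2 d k1 k2) (mem_sdiff.1 (mem_inter.1 (mem_bd.1 k1).2.1).2).2)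
    · exact k2 (hbF d k1)
  · have hAA := hc.adm_in hF hX hg
    have hCC := hc.adm_out hF hX hg
    have cA : ∀ d ∈ G.bd (X ∩ W), d ∈ M1 ∪ M2 := by
      intro d hd
      refine cl1 d hd fun k1 => ?_
      obtain ⟨k4, k5, k6⟩ := mem_bd.1 hd
      exact k6 (hAA.clo d k1 k5)
    have cC : ∀ d ∈ G.bd (X ∩ (G.vs \ W)), d ∈ M1 ∪ M2 := by
      intro d hd
      refine cl2 d hd fun k1 => ?_
      obtain ⟨k4, k5, k6⟩ := mem_bd.1 hd
      exact k6 (hCC.clo d k1 k5)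
    have hjA := hF.closed_jm hpm hAA cA
    have h1 : ((X ∩ W) ∩ jm).card ≤ (jm ∩ W).card := by
      refine card_le_card fun v hv => ?_
      obtain ⟨k1, k2⟩ := mem_inter.1 hv
      exact mem_inter.2 ⟨k2, (mem_inter.1 k1).2⟩
    have h2 : ((X ∩ W) ∩ jm).card = 0 := by
      obtain ⟨k, hk⟩ := hjA
      omega
    have h4 : Disjoint (X ∩ W) jm := by
      rw [disjoint_iff_inter_eq_empty]
      exact card_eq_zero.1 h2
    have hAe : ¬ Odd (X ∩ W).card := by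
      intro k1
      obtain ⟨d, k2, k3⟩ := hA2 _ hAA inter_subset_right (by
        rw [disjoint_left]
        intro v k4 k5
        obtain ⟨d, k6, rfl⟩ := mem_image.1 k5
        obtain ⟨k7, k8, k9⟩ := mem_bd.1 k6
        exact k9 (mem_inter.1 (hAA.clo d (hbF d k6) k4)).2) h4 k1
      exact k3 (hMW d (cA d k2) (mem_inter.1 (mem_bd.1 k2).2.1).2)
    have hCo : ¬ Odd (X ∩ (G.vs \ W)).card := by
      intro k1
      obtain ⟨d, k2, k3⟩ := hA1 _ hCC inter_subset_right (Or.inl k1)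
      exact k3 (hMU d (cC d k2) (mem_sdiff.1 (mem_inter.1 (mem_bd.1 k2).2.1).2).2)
    rcases hodd with ho | ⟨ho1, ho2⟩
    · rw [Nat.odd_iff] at ho hAe hCo
      omega
    · obtain ⟨v, hv⟩ := card_pos.1 (show 0 < (jm ∩ W).card by omega)
      obtain ⟨k1, k2⟩ := mem_inter.1 hv
      exact disjoint_left.1 h4 (mem_inter.2 ⟨ho2 k1, k2⟩) k1

end MG

end RH
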