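import Pool.Agent.Lib.RH.SDefs

/-! The inner graph of a tight odd set `W` with one prescribed edge `f` of its boundary: `W` together
with the outer end `c` of `f`; the other edges leaving `W` become tokens, `c` has tokens
`3 - z f`. -/

set_option autoImplicit false

namespace RH

open Finset Classical

namespace MG

variable {V D : Type*}

/-- the inner graph -/
noncomputable def inn (G : MG V D) (W : Finset V) (f : D) (hf : f ∈ G.ds) (hW : W ⊆ G.vs)
    (hfW : G.pi f ∈ W) : MG V D where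
  vs := insert (G.pi (G.al f)) W
  ds := G.ds.filter fun d => (G.pi d ∈ W ∧ G.pi (G.al d) ∈ W) ∨ d = f ∨ d = G.al f
  pi := G.pi
  al := G.al
  pi_mem := by
    intro d hd
    obtain ⟨-, h | rfl | rfl⟩ := mem_filter.1 hd
    · exact mem_insert_of_mem h.1
    · exact mem_insert_of_mem hfW
    · exact mem_insert_self _ _
  al_mem := by
    intro d hd
    obtain ⟨h0, h | rfl | rfl⟩ := mem_filter.1 hd
    · refine mem_filter.2 ⟨G.al_mem d h0, Or.inl ⟨h.2, ?_⟩⟩
      rw [G.al_al d h0]
      exact h.1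
    · exact mem_filter.2 ⟨G.al_mem d h0, Or.inr (Or.inr rfl)⟩
    · exact mem_filter.2 ⟨G.al_mem _ h0, Or.inr (Or.inl (G.al_al f hf))⟩
  al_al := fun d hd => G.al_al d (mem_filter.1 hd).1
  noloop := fun d hd => G.noloop d (mem_filter.1 hd).1

/-- tokens of the inner graph -/
noncomputable def tinn (G : MG V D) (z : D → ℝ) (t : V → ℝ) (W : Finset V) (f : D) (v : V) : ℝ :=
  if v = G.pi (G.al f) then 3 - z f
  else t v + ∑ d ∈ (G.st v).filter fun d => G.pi (G.al d) ∉ W ∧ d ≠ f, z d

variable {G : MG V D} {z : D → ℝ} {t : V → ℝ} {W : Finset V} {f : D}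
variable (hf : f ∈ G.ds) (hW : W ⊆ G.vs) (hfW : G.pi f ∈ W) (hfU : G.pi (G.al f) ∉ W)

/-- tokens and boundary weight of `W` at `S` -/
private noncomputable def aw (G : MG V D) (z : D → ℝ) (t : V → ℝ) (W S : Finset V) : ℝ :=
  ∑ v ∈ S, t v + ∑ d ∈ G.ed S (G.vs \ W), z d

private theorem val_aw {S : Finset V} (hS : S ⊆ W) (hW : W ⊆ G.vs) :
    G.val z t S = ∑ d ∈ G.ed S (W \ S), z d + aw G z t W S := by
  unfold val aw
  have h1 : G.vs \ S = (W \ S) ∪ (G.vs \ W) := by
    ext v
    simp only [mem_union, mem_sdiff]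
    constructor
    · rintro ⟨h1, h2⟩
      by_cases h3 : v ∈ W
      · exact Or.inl ⟨h3, h2⟩
      · exact Or.inr ⟨h1, h3⟩
    · rintro (⟨h1, h2⟩ | ⟨h1, h2⟩)
      · exact ⟨hW h1, h2⟩
      · exact ⟨h1, fun h => h2 (hS h)⟩
  have h2 : Disjoint (W \ S) (G.vs \ W) := by
    rw [disjoint_left]
    intro v h3 h4
    exact (mem_sdiff.1 h4).2 (mem_sdiff.1 h3).1
  rw [bd_eq_ed, h1, ed_union_right h2]
  ring

private theorem aw_add {S : Finset V} (hS : S ⊆ W) :
    aw G z t W S + aw G z t W (W \ S) = aw G z t W W := by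
  unfold aw
  have h1 : Disjoint S (W \ S) := disjoint_sdiff
  have h2 : S ∪ (W \ S) = W := union_sdiff_of_subset hS
  have h3 := ed_union_left (G := G) (Z := G.vs \ W) h1 z
  rw [h2] at h3
  have h4 := sum_union h1 (f := t)
  rw [h2] at h4
  rw [h3, h4]
  ring

private theorem val_W (hW : W ⊆ G.vs) : G.val z t W = aw G z t W W := by
  rw [val_aw (Finset.Subset.refl W) hW]
  have h1 : G.ed W (W \ W) = ∅ := by
    rw [eq_empty_iff_forall_notMem]
    intro d hd
    have := (mem_ed.1 hd).2.2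
    rw [sdiff_self] at this
    exact absurd this (notMem_empty _)
  rw [h1, sum_empty, zero_add]

include hf hfU in
private theorem sum_tinn {S : Finset V} (hS : S ⊆ W) :
    ∑ v ∈ S, G.tinn z t W f v = aw G z t W S - if G.pi f ∈ S then z f else 0 := by
  have h0 : ∀ v ∈ S, G.tinn z t W f v = t v + ∑ d ∈ (G.st v).filter
      (fun d => G.pi (G.al d) ∉ W ∧ d ≠ f), z d := by
    intro v hv
    unfold tinn
    rw [if_neg]
    rintro rfl
    exact hfU (hS hv)
  rw [sum_congr rfl h0, sum_add_distrib]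
  unfold aw
  have h1 : ∑ v ∈ S, ∑ d ∈ (G.st v).filter (fun d => G.pi (G.al d) ∉ W ∧ d ≠ f), z d =
      ∑ d ∈ (G.ed S (G.vs \ W)).filter (fun d => d ≠ f), z d := by
    rw [← sum_fiberwise_of_maps_to (s := (G.ed S (G.vs \ W)).filter fun d => d ≠ f) (t := S)
      (g := G.pi) (fun d hd => (mem_ed.1 (mem_filter.1 hd).1).2.1)]
    refine sum_congr rfl fun v hv => ?_
    refine sum_congr ?_ fun _ _ => rfl
    ext d
    rw [mem_filter, mem_filter, mem_filter, mem_st, mem_ed, mem_sdiff]
    constructor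
    · rintro ⟨⟨a, b⟩, c, e⟩
      exact ⟨⟨⟨a, b ▸ hv, G.pi_mem _ (G.al_mem _ a), c⟩, e⟩, b⟩
    · rintro ⟨⟨⟨a, -, -, c⟩, e⟩, b⟩
      exact ⟨⟨a, b⟩, c, e⟩
  rw [h1]
  by_cases hb : G.pi f ∈ S
  · have h2 : f ∈ G.ed S (G.vs \ W) :=
      mem_ed.2 ⟨hf, hb, mem_sdiff.2 ⟨G.pi_mem _ (G.al_mem _ hf), hfU⟩⟩
    have h3 := sum_filter_add_sum_filter_not (G.ed S (G.vs \ W)) (fun d => d ≠ f) z
    have h4 : (G.ed S (G.vs \ W)).filter (fun d => ¬ d ≠ f) = {f} := by
      ext d
      rw [mem_filter, mem_singleton]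
      constructor
      · rintro ⟨-, h⟩
        exact not_not.1 h
      · rintro rfl
        exact ⟨h2, not_not.2 rfl⟩
    rw [h4, sum_singleton] at h3
    rw [if_pos hb]
    linarith
  · have h2 : (G.ed S (G.vs \ W)).filter (fun d => d ≠ f) = G.ed S (G.vs \ W) := by
      rw [filter_eq_self]
      rintro d hd rfl
      exact hb (mem_ed.1 hd).2.1
    rw [if_neg hb, h2]
    ring

include hfU in
private theorem inn_bd {S : Finset V} (hS : S ⊆ W) :
    ∑ d ∈ (G.inn W f hf hW hfW).bd S, z d =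
      ∑ d ∈ G.ed S (W \ S), z d + if G.pi f ∈ S then z f else 0 := by
  by_cases hb : G.pi f ∈ S
  · have h1 : (G.inn W f hf hW hfW).bd S = G.ed S (W \ S) ∪ {f} := by
      ext d
      rw [mem_bd, mem_union, mem_singleton, mem_ed, mem_sdiff]
      simp only [inn, mem_filter]
      constructor
      · rintro ⟨⟨a, b | rfl | rfl⟩, c, e⟩
        · exact Or.inl ⟨a, c, b.2, e⟩
        · exact Or.inr rfl
        · exact absurd (hS c) hfU
      · rintro (⟨a, b, c, e⟩ | rfl)
        · exact ⟨⟨a, Or.inl ⟨hS b, c⟩⟩, b, e⟩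
        · exact ⟨⟨hf, Or.inr (Or.inl rfl)⟩, hb, fun h => hfU (hS h)⟩
    rw [h1, sum_union, sum_singleton, if_pos hb]
    rw [disjoint_singleton_right]
    intro h
    exact hfU (mem_sdiff.1 (mem_ed.1 h).2.2).1
  · have h1 : (G.inn W f hf hW hfW).bd S = G.ed S (W \ S) := by
      ext d
      rw [mem_bd, mem_ed, mem_sdiff]
      simp only [inn, mem_filter]
      constructor
      · rintro ⟨⟨a, b | rfl | rfl⟩, c, e⟩
        · exact ⟨a, c, b.2, e⟩
        · exact absurd c hb
        · exact absurd (hS c) hfU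
      · rintro ⟨a, b, c, e⟩
        exact ⟨⟨a, Or.inl ⟨hS b, c⟩⟩, b, e⟩
    rw [h1, if_neg hb, add_zero]

include hfU in
/-- sets inside `W` keep their value -/
theorem inn_val {S : Finset V} (hS : S ⊆ W) :
    (G.inn W f hf hW hfW).val z (G.tinn z t W f) S = G.val z t S := by
  unfold val
  rw [inn_bd hf hW hfW hfU hS, sum_tinn hf hfU hS]
  have h := val_aw (G := G) (z := z) (t := t) hS hW
  unfold val at h
  rw [h]
  ring

include hfU in
private theorem inn_val_ins (hs : z (G.al f) = z f) {S : Finset V} (hS : S ⊆ W) :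
    (G.inn W f hf hW hfW).val z (G.tinn z t W f) (insert (G.pi (G.al f)) S) =
      ∑ d ∈ G.ed S (W \ S), z d + (if G.pi f ∈ S then 0 else z f) +
        (aw G z t W S - if G.pi f ∈ S then z f else 0) + (3 - z f) := by
  have hc : G.pi (G.al f) ∉ S := fun h => hfU (hS h)
  unfold val
  rw [sum_insert hc, sum_tinn hf hfU hS]
  have ht : G.tinn z t W f (G.pi (G.al f)) = 3 - z f := by
    unfold tinn
    rw [if_pos rfl]
  rw [ht]
  have hbd : ∑ d ∈ (G.inn W f hf hW hfW).bd (insert (G.pi (G.al f)) S), z d =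
      ∑ d ∈ G.ed S (W \ S), z d + if G.pi f ∈ S then 0 else z f := by
    by_cases hb : G.pi f ∈ S
    · have h1 : (G.inn W f hf hW hfW).bd (insert (G.pi (G.al f)) S) = G.ed S (W \ S) := by
        ext d
        rw [mem_bd, mem_ed, mem_sdiff]
        simp only [inn, mem_filter, mem_insert]
        constructor
        · rintro ⟨⟨a, b | rfl | rfl⟩, c, e⟩
          · rcases c with c | c
            · exact absurd b.1 (c ▸ hfU)
            · exact ⟨a, c, b.2, fun h => e (Or.inr h)⟩
          · exact absurd (Or.inl rfl) e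
          · exfalso
            apply e
            right
            rw [G.al_al f hf]
            exact hb
        · rintro ⟨a, b, c, e⟩
          refine ⟨⟨a, Or.inl ⟨hS b, c⟩⟩, Or.inr b, ?_⟩
          rintro (h | h)
          · exact hfU (h ▸ c)
          · exact e h
      rw [h1, if_pos hb, add_zero]
    · have h1 : (G.inn W f hf hW hfW).bd (insert (G.pi (G.al f)) S) =
          G.ed S (W \ S) ∪ {G.al f} := by
        ext d
        rw [mem_bd, mem_union, mem_singleton, mem_ed, mem_sdiff]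
        simp only [inn, mem_filter, mem_insert]
        constructor
        · rintro ⟨⟨a, b | rfl | rfl⟩, c, e⟩
          · rcases c with c | c
            · exact absurd b.1 (c ▸ hfU)
            · exact Or.inl ⟨a, c, b.2, fun h => e (Or.inr h)⟩
          · rcases c with c | c
            · exact absurd (c ▸ hfW) hfU
            · exact absurd c hb
          · exact Or.inr rfl
        · rintro (⟨a, b, c, e⟩ | rfl)
          · refine ⟨⟨a, Or.inl ⟨hS b, c⟩⟩, Or.inr b, ?_⟩
            rintro (h | h)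
            · exact hfU (h ▸ c)
            · exact e h
          · refine ⟨⟨G.al_mem f hf, Or.inr (Or.inr rfl)⟩, Or.inl rfl, ?_⟩
            rw [G.al_al f hf]
            rintro (h | h)
            · exact hfU (h ▸ hfW)
            · exact hb h
      rw [h1, sum_union, sum_singleton, if_neg hb, hs]
      rw [disjoint_singleton_right]
      intro h
      exact hfU (hS (mem_ed.1 h).2.1)
  rw [hbd]
  ring

include hfU in
/-- the inner graph satisfies the cut condition -/
theorem Wt.inn (h : G.Wt z t) (hWo : Odd W.card) (h3 : G.val z t W = 3) :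
    (G.inn W f hf hW hfW).Wt z (G.tinn z t W f) := by
  have hsf := h.sym f hf
  have hzf := h.z0 f hf
  have hb3 : z f ≤ 3 := by
    have h1 := h.deg _ (hW hfW)
    have h2 := h.t0 _ (hW hfW)
    have h4 : z f ≤ ∑ d ∈ G.st (G.pi f), z d :=
      single_le_sum (f := z) (fun d hd => h.z0 d (mem_st.1 hd).1) (mem_st.2 ⟨hf, rfl⟩)
    linarith
  have hval : aw G z t W W = 3 := by rw [← val_W hW]; exact h3
  refine ⟨fun d hd => h.z0 d (mem_filter.1 hd).1, ?_, fun d hd => h.sym d (mem_filter.1 hd).1,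
    ?_, ?_⟩
  · intro v hv
    unfold tinn
    split_ifs with h1
    · linarith
    · have hvW : v ∈ W := by
        rcases mem_insert.1 (show v ∈ insert (G.pi (G.al f)) W from hv) with h2 | h2
        · exact absurd h2 h1
        · exact h2
      have h2 := h.t0 v (hW hvW)
      have h4 : 0 ≤ ∑ d ∈ (G.st v).filter (fun d => G.pi (G.al d) ∉ W ∧ d ≠ f), z d :=
        sum_nonneg fun d hd => h.z0 d (mem_st.1 (mem_filter.1 hd).1).1
      linarith
  · intro v hv
    rcases mem_insert.1 (show v ∈ insert (G.pi (G.al f)) W from hv) with rfl | hvW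
    · have h1 : (G.inn W f hf hW hfW).st (G.pi (G.al f)) = {G.al f} := by
        ext d
        rw [mem_st, mem_singleton]
        simp only [MG.inn, mem_filter]
        constructor
        · rintro ⟨⟨a, b | rfl | rfl⟩, c⟩
          · exact absurd b.1 (c ▸ hfU)
          · exact absurd (c ▸ hfW) hfU
          · rfl
        · rintro rfl
          exact ⟨⟨G.al_mem f hf, Or.inr (Or.inr rfl)⟩, rfl⟩
      rw [h1, sum_singleton, hsf]
      unfold tinn
      rw [if_pos rfl]
      ring
    · have h1 := inn_val (z := z) (t := t) hf hW hfW hfU (singleton_subset_iff.2 hvW)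
      rw [h.val_single (hW hvW)] at h1
      unfold val at h1
      rw [sum_singleton] at h1
      have h2 : (G.inn W f hf hW hfW).bd {v} = (G.inn W f hf hW hfW).st v := by
        ext d
        rw [mem_bd, mem_st, mem_singleton, mem_singleton]
        constructor
        · rintro ⟨a, b, -⟩
          exact ⟨a, b⟩
        · rintro ⟨a, b⟩
          exact ⟨a, b, fun e => (G.inn W f hf hW hfW).noloop d a (e.trans b.symm)⟩
      rw [h2] at h1
      exact h1
  · intro X hX ho
    by_cases hc : G.pi (G.al f) ∈ X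
    · have hXe : X = insert (G.pi (G.al f)) (X.erase (G.pi (G.al f))) := (insert_erase hc).symm
      have hS : X.erase (G.pi (G.al f)) ⊆ W := by
        intro v hv
        obtain ⟨h1, h2⟩ := mem_erase.1 hv
        exact (mem_insert.1 (show v ∈ insert (G.pi (G.al f)) W from hX h2)).resolve_left h1
      set S := X.erase (G.pi (G.al f)) with hSd
      have hcard : X.card = S.card + 1 := by
        rw [hXe, card_insert_of_notMem]
        exact notMem_erase _ _
      rw [hXe, inn_val_ins hf hW hfW hfU hsf hS]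
      have hR := val_aw (G := G) (z := z) (t := t) (sdiff_subset : W \ S ⊆ W) hW
      have hadd := aw_add (G := G) (z := z) (t := t) hS
      rw [Finset.sdiff_sdiff_eq_self hS, h.ed_symm] at hR
      have hE := h.ed_nonneg S (W \ S)
      have hRo : Odd (W \ S).card := by
        have h5 := card_sdiff_add_card_eq_card hS
        rw [Nat.odd_iff] at ho hWo ⊢
        omega
      have h6 := h.cut (W \ S) (sdiff_subset.trans hW) hRo
      have ht0 : 0 ≤ ∑ v ∈ S, t v := sum_nonneg fun v hv => h.t0 v (hW (hS hv))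
      by_cases hb : G.pi f ∈ S
      · have h7 : z f ≤ ∑ d ∈ G.ed S (G.vs \ W), z d :=
          single_le_sum (f := z) (fun d hd => h.z0 d (mem_ed.1 hd).1)
            (mem_ed.2 ⟨hf, hb, mem_sdiff.2 ⟨G.pi_mem _ (G.al_mem _ hf), hfU⟩⟩)
        have h8 : aw G z t W S = ∑ v ∈ S, t v + ∑ d ∈ G.ed S (G.vs \ W), z d := rfl
        rw [if_pos hb, if_pos hb]
        linarith
      · have h7 := h.ed_nonneg S (G.vs \ W)
        have h8 : aw G z t W S = ∑ v ∈ S, t v + ∑ d ∈ G.ed S (G.vs \ W), z d := rfl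
        rw [if_neg hb, if_neg hb]
        linarith
    · have hS : X ⊆ W := by
        intro v hv
        rcases mem_insert.1 (show v ∈ insert (G.pi (G.al f)) W from hX hv) with h1 | h1
        · exact absurd (h1 ▸ hv) hc
        · exact h1
      rw [inn_val hf hW hfW hfU hS]
      exact h.cut X (hS.trans hW) ho

include hfU in
theorem inn_tau (h3 : G.val z t W = 3) :
    ∑ v ∈ (G.inn W f hf hW hfW).vs, G.tinn z t W f v = 6 - 2 * z f := by
  have h1 : (G.inn W f hf hW hfW).vs = insert (G.pi (G.al f)) W := rfl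
  rw [h1, sum_insert hfU, sum_tinn hf hfU (Finset.Subset.refl W), if_pos hfW, ← val_W hW, h3]
  unfold tinn
  rw [if_pos rfl]
  ring

include hfU in
theorem inn_card : (G.inn W f hf hW hfW).vs.card = W.card + 1 := by
  have h1 : (G.inn W f hf hW hfW).vs = insert (G.pi (G.al f)) W := rfl
  rw [h1, card_insert_of_notMem hfU]

theorem mem_inn {d : D} : d ∈ (G.inn W f hf hW hfW).ds ↔
    d ∈ G.ds ∧ ((G.pi d ∈ W ∧ G.pi (G.al d) ∈ W) ∨ d = f ∨ d = G.al f) := mem_filter

include hfU in
/-- a perfect matching of the inner graph contains `f` -/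
theorem inn_pm_f {M : Finset D} (hM : (G.inn W f hf hW hfW).IsPM M) : f ∈ M ∧ G.al f ∈ M := by
  have h1 := hM.one (G.pi (G.al f)) (mem_insert_self _ _)
  obtain ⟨e, he⟩ := card_eq_one.1 h1
  have h2 : e ∈ M.filter fun d => (G.inn W f hf hW hfW).pi d = G.pi (G.al f) := by
    rw [he]; exact mem_singleton_self e
  obtain ⟨h3, h4⟩ := mem_filter.1 h2
  have h4' : G.pi e = G.pi (G.al f) := h4
  have h5 : e = G.al f := by
    obtain ⟨-, h6 | h6 | h6⟩ := (mem_inn hf hW hfW).1 (hM.sub h3)
    · exact absurd h6.1 (h4' ▸ hfU)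
    · subst h6
      exact absurd (h4' ▸ hfW) hfU
    · exact h6
  subst h5
  refine ⟨?_, h3⟩
  have h6 := hM.closed _ h3
  have h7 : (G.inn W f hf hW hfW).al (G.al f) = f := G.al_al f hf
  rwa [h7] at h6

include hfU in
/-- the part of a perfect matching of the inner graph inside `W` -/
theorem inn_pm_W {M : Finset D} (hM : (G.inn W f hf hW hfW).IsPM M) :
    (M.filter fun d => G.pi d ∈ W ∧ G.pi (G.al d) ∈ W) ⊆ G.ds ∧
    (∀ d ∈ M.filter fun d => G.pi d ∈ W ∧ G.pi (G.al d) ∈ W,
      G.al d ∈ M.filter fun d => G.pi d ∈ W ∧ G.pi (G.al d) ∈ W) ∧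
    (∀ d ∈ M.filter fun d => G.pi d ∈ W ∧ G.pi (G.al d) ∈ W, G.pi d ∈ W ∧ G.pi d ≠ G.pi f) ∧
    (∀ v ∈ W, v ≠ G.pi f → ((M.filter fun d => G.pi d ∈ W ∧ G.pi (G.al d) ∈ W).filter
      fun d => G.pi d = v).card = 1) := by
  obtain ⟨hfM, -⟩ := inn_pm_f hf hW hfW hfU hM
  have hds : ∀ d ∈ M, d ∈ G.ds := fun d hd => ((mem_inn hf hW hfW).1 (hM.sub hd)).1
  refine ⟨fun d hd => hds d (mem_filter.1 hd).1, ?_, ?_, ?_⟩
  · intro d hd
    obtain ⟨h1, h2, h3⟩ := mem_filter.1 hd
    refine mem_filter.2 ⟨hM.closed d h1, h3, ?_⟩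
    rw [G.al_al d (hds d h1)]
    exact h2
  · intro d hd
    obtain ⟨h1, h2, h3⟩ := mem_filter.1 hd
    refine ⟨h2, fun he => ?_⟩
    have h4 := hM.one (G.pi f) (mem_insert_of_mem hfW)
    obtain ⟨e, he'⟩ := card_eq_one.1 h4
    have h5 : f ∈ M.filter fun d => (G.inn W f hf hW hfW).pi d = G.pi f :=
      mem_filter.2 ⟨hfM, rfl⟩
    have h6 : d ∈ M.filter fun d => (G.inn W f hf hW hfW).pi d = G.pi f :=
      mem_filter.2 ⟨h1, he⟩
    rw [he', mem_singleton] at h5 h6
    rw [h6, ← h5] at h3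
    exact hfU h3
  · intro v hv hvf
    rw [← hM.one v (mem_insert_of_mem hv)]
    congr 1
    ext d
    rw [mem_filter, mem_filter, mem_filter]
    constructor
    · rintro ⟨⟨h1, -⟩, h2⟩
      exact ⟨h1, h2⟩
    · rintro ⟨h1, h2⟩
      have h2' : G.pi d = v := h2
      refine ⟨⟨h1, ?_⟩, h2'⟩
      obtain ⟨-, h6 | h6 | h6⟩ := (mem_inn hf hW hfW).1 (hM.sub h1)
      · exact h6
      · subst h6
        exact absurd h2'.symm hvf
      · subst h6
        exact absurd hv (h2' ▸ hfU)

end MG

end RH
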