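import Pool.Agent.Lib.RH.SWalk

/-! Steps with six tokens which can still be lowered, and steps along a kill trail. -/

set_option autoImplicit false

namespace RH

open Finset Classical

namespace MG

variable {V D : Type*} {G : MG V D} {z z' : D → ℝ} {t t' : V → ℝ} {fr fr' : Finset V}
variable {F : Finset D} {jm sx : Finset V} {ep : V → ℕ} {m : ℕ} {M : Finset D}

/-- a step with at most 6 tokens followed by a direction which lowers the number of tokens -/
theorem IsStepT.low (hs : IsStepT G z fr F jm sx z' t' fr') (hw : G.Wt z t)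
    (htau : ∑ v ∈ G.vs, t' v ≤ 6) (a : D → ℝ) (b : V → ℝ)
    (hsym : ∀ d ∈ G.ds, a (G.al d) = a d)
    (hdeg : ∀ v ∈ G.vs, ∑ d ∈ G.st v, a d + b v = 0)
    (hafr : ∀ d ∈ G.ds, G.pi d ∈ fr' → a d = 0)
    (haz : ∀ d ∈ G.ds, z' d = 0 → a d = 0)
    (hb : ∀ v ∈ G.vs, t' v = 0 → 0 ≤ b v)
    (hcut : ∀ X ⊆ G.vs, Odd X.card → G.val z' t' X = 3 → ∑ d ∈ G.ed X X, a d ≤ 0)
    (hneg : ∑ v ∈ G.vs, b v < 0) :
    ∃ z'' t'', G.IsStepS z fr F jm sx z'' t'' fr' := by
  obtain ⟨ε, hε, H⟩ := hs.wt.pert a b hsym hdeg (fun d hd h0 => (haz d hd h0).ge) hb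
    (fun X hX ho h3 => by
      rw [pert_val a b hdeg hX]
      have := hcut X hX ho h3
      linarith)
  have hW := H ε hε.le le_rfl
  refine ⟨fun d => z' d + ε * a d, fun v => t' v + ε * b v, ?_⟩
  exact
    { wt := hW
      supp := fun d hd hp => by
        refine hs.supp d hd ?_
        rcases (hs.wt.z0 d hd).lt_or_eq with h1 | h1
        · exact h1
        · exfalso
          have h2 := haz d hd h1.symm
          simp only [h2, ← h1, mul_zero, add_zero, lt_irrefl] at hp
      sub := hs.sub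
      ne := hs.ne
      clo := hs.clo
      unit := fun d hd hp => by
        show z' d + ε * a d = 1
        rw [hafr d hd hp, mul_zero, add_zero]
        exact hs.unit d hd hp
      kill := fun X hX he hn => by
        obtain ⟨d, hd, h0⟩ := hs.kill X hX he hn
        refine ⟨d, hd, ?_⟩
        show z' d + ε * a d = 0
        rw [haz d (mem_bd.1 hd).1 h0, mul_zero, add_zero]
        exact h0
      star := hs.star
      tau := by
        show ∑ v ∈ G.vs, (t' v + ε * b v) < 6
        rw [Finset.sum_add_distrib, ← Finset.mul_sum]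
        have h2 := mul_neg_of_pos_of_neg hε hneg
        linarith }

/-- no such step in a minimal counterexample -/
theorem MCS.no_low (h : G.MCS z t fr F jm sx ep m) (hs : IsStepT G z fr F jm sx z' t' fr')
    (htau : ∑ v ∈ G.vs, t' v ≤ 6) (a : D → ℝ) (b : V → ℝ)
    (hsym : ∀ d ∈ G.ds, a (G.al d) = a d)
    (hdeg : ∀ v ∈ G.vs, ∑ d ∈ G.st v, a d + b v = 0)
    (hafr : ∀ d ∈ G.ds, G.pi d ∈ fr' → a d = 0)
    (haz : ∀ d ∈ G.ds, z' d = 0 → a d = 0)
    (hb : ∀ v ∈ G.vs, t' v = 0 → 0 ≤ b v)
    (hcut : ∀ X ⊆ G.vs, Odd X.card → G.val z' t' X = 3 → ∑ d ∈ G.ed X X, a d ≤ 0)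
    (hneg : ∑ v ∈ G.vs, b v < 0) : False := by
  obtain ⟨z'', t'', hs'⟩ := hs.low h.inst.wt htau a b hsym hdeg hafr haz hb hcut hneg
  exact h.no_step hs'

/-- A KILL TRAIL. `P` is a walk of odd length from `w` to `x'` outside the classes `fr'` which stay
fresh; `z' = z - wa P` (killed edges at the positions 0, 2, .., raised edges at 1, 3, ..),
`t' = t + [w] + [x']`. -/
theorem IsStepT.trail (h : G.InstS z t fr F jm sx ep m) {w x' : V} {P : List D}
    (hP : G.IsW (G.sd z fr') w P x') (ho : Odd P.length)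
    (hsub : fr' ⊆ fr) (hne : fr' ≠ fr) (hclo : ∀ d ∈ F, G.pi d ∈ fr' → G.pi (G.al d) ∈ fr')
    (hz0 : ∀ d ∈ P, G.wa P d ≤ z d)
    (hcut : ∀ X ⊆ G.vs, Odd X.card → 3 ≤ G.val z t X + ∑ d ∈ G.ed X X, G.wa P d)
    (hkill : ∀ X, G.Adm fr F X → Even (X ∩ jm).card → ¬ X ⊆ fr' → ∃ d ∈ G.bd X, z d = G.wa P d)
    (hstar : (sx ⊆ fr' ∧ jm ⊆ fr') ∨ (Disjoint sx fr' ∧ Disjoint jm fr')) :
    IsStepT G z fr F jm sx (fun d => z d - G.wa P d)
      (fun v => t v + ((if v = w then 1 else 0) + if v = x' then 1 else 0)) fr' := by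
  have hSy := h.wt.sy_sd fr'
  have hmem := hP.mem
  have hsymP : ∀ d ∈ G.ds, G.wa P (G.al d) = G.wa P d := fun d hd => wa_sym hSy.sub hmem hd
  have hz0' : ∀ d ∈ G.ds, G.wa P d ≤ z d := by
    intro d hd
    by_cases h1 : d ∈ P
    · exact hz0 d h1
    · by_cases h2 : G.al d ∈ P
      · have h3 := hz0 _ h2
        rwa [hsymP d hd, h.wt.sym d hd] at h3
      · have h3 : G.wa P d ≤ 0 := by
          rw [show G.wa P d = 0 from ?_]
          exact wa_zero' (fun e he => hSy.sub (hmem e he)) h1 h2
        exact h3.trans (h.wt.z0 d hd)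
  have hwb : ∀ v, wb P w x' v = - ((if v = w then 1 else 0) + if v = x' then 1 else 0) := by
    intro v
    unfold wb
    rw [Odd.neg_one_pow ho]
    ring
  have hval : ∀ X ⊆ G.vs, G.val (fun d => z d - G.wa P d)
      (fun v => t v + ((if v = w then 1 else 0) + if v = x' then 1 else 0)) X =
        G.val z t X + ∑ d ∈ G.ed X X, G.wa P d := by
    intro X hX
    have h1 := pert_val (G := G) (G.wa P) (wb P w x') (fun v _ => wa_deg hSy hP v) hX
    have h2 := val_add G z (G.wa P) t (wb P w x') (-1) X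
    have h3 : G.val (fun d => z d - G.wa P d)
        (fun v => t v + ((if v = w then 1 else 0) + if v = x' then 1 else 0)) X =
        G.val (fun d => z d + -1 * G.wa P d) (fun v => t v + -1 * wb P w x' v) X := by
      unfold val
      congr 1
      · refine sum_congr rfl fun d _ => ?_
        show z d - G.wa P d = z d + -1 * G.wa P d
        ring
      · refine sum_congr rfl fun v _ => ?_
        show t v + ((if v = w then 1 else 0) + if v = x' then 1 else 0) = t v + -1 * wb P w x' v
        rw [hwb v]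
        ring
    rw [h3, h2, h1]
    ring
  exact
    { wt :=
        { z0 := fun d hd => sub_nonneg.2 (hz0' d hd)
          t0 := fun v hv => by
            have h1 := h.wt.t0 v hv
            have h2 : (0 : ℝ) ≤ if v = w then 1 else 0 := by split_ifs <;> norm_num
            have h3 : (0 : ℝ) ≤ if v = x' then 1 else 0 := by split_ifs <;> norm_num
            show 0 ≤ t v + ((if v = w then 1 else 0) + if v = x' then 1 else 0)
            linarith
          sym := fun d hd => by
            show z (G.al d) - G.wa P (G.al d) = z d - G.wa P d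
            rw [h.wt.sym d hd, hsymP d hd]
          deg := fun v hv => by
            show ∑ d ∈ G.st v, (z d - G.wa P d) +
              (t v + ((if v = w then 1 else 0) + if v = x' then 1 else 0)) = 3
            rw [Finset.sum_sub_distrib]
            have h1 := h.wt.deg v hv
            have h2 := wa_deg hSy hP v
            rw [hwb v] at h2
            linarith
          cut := fun X hX hXo => by
            rw [hval X hX]
            exact hcut X hX hXo }
      supp := fun d hd hp => by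
        by_contra hn
        have hz : z d = 0 := le_antisymm (not_lt.1 hn) (h.wt.z0 d hd)
        have h1 : G.wa P d = 0 := wa_zero hSy hmem fun h2 => (mem_sd.1 h2).2.1 hz
        simp only [hz, h1, sub_zero, lt_irrefl] at hp
      sub := hsub
      clo := hclo
      ne := hne
      unit := fun d hd hp => by
        show z d - G.wa P d = 1
        rw [wa_zero hSy hmem fun h2 => (mem_sd.1 h2).2.2.1 hp, sub_zero]
        exact h.fresh.unit d hd (hsub hp)
      kill := fun X hX he hn => by
        obtain ⟨d, hd, h0⟩ := hkill X hX he hn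
        exact ⟨d, hd, by show z d - G.wa P d = 0; rw [h0, sub_self]⟩
      star := hstar }

/-- the last lowering on an odd circuit `C` of absorbed vertices through `x'` -/
theorem MCS.no_last (h : G.MCS z t fr F jm sx ep m) (hs : IsStepT G z fr F jm sx z' t' fr')
    (htau : ∑ v ∈ G.vs, t' v ≤ 6) {C : Finset V} (hC : G.Circ fr F C) (ho : Odd C.card)
    (hd : Disjoint fr' C) {x' : V} (hx : x' ∈ C) (ht : 0 < t' x')
    (hpos : ∀ d ∈ F, G.pi d ∈ C → 0 < z' d)
    (hcut : ∀ δ : D → ℝ, (∀ d, δ d ≠ 0 → d ∈ F ∧ G.pi d ∈ C) →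
      (∀ d ∈ G.ds, δ (G.al d) = δ d) →
      (∀ v ∈ G.vs, ∑ d ∈ G.st v, δ d = if v = x' then 1 else 0) →
      (∀ d ∈ F, G.pi d ∈ C → |δ d| = 1 / 2) →
      ∀ X ⊆ G.vs, Odd X.card → G.val z' t' X = 3 → ∑ d ∈ G.ed X X, δ d ≤ 0) : False := by
  obtain ⟨δ, d1, d2, d3, d4⟩ := exists_altA h.inst.fresh.toFA hC ho hx
  have hxv : x' ∈ G.vs := h.inst.fresh.fsub (hC.adm.sub hx)
  refine h.no_low hs htau δ (fun v => - if v = x' then 1 else 0) d2 ?_ ?_ ?_ ?_
    (hcut δ d1 d2 d3 d4) ?_
  · intro v hv
    rw [d3 v hv]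
    ring
  · intro d hd1 hp
    by_contra hn
    exact disjoint_left.1 hd hp (d1 d hn).2
  · intro d _ h0
    by_contra hn
    obtain ⟨h1, h2⟩ := d1 d hn
    exact absurd h0 (hpos d h1 h2).ne'
  · intro v _ h0
    rw [if_neg]
    · norm_num
    · rintro rfl
      exact ht.ne' h0
  · rw [Finset.sum_neg_distrib, Finset.sum_ite_eq', if_pos hxv]
    norm_num

end MG

end RH
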