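import Pool.Agent.Lib.RH.MC

/-! The step in the rho frame with star: some classes are absorbed, new weights. The star is kept, or
both star vertices are absorbed. The kill condition is only needed for the unions which contain both
or none of the vertices without J-dart (parity law). -/

set_option autoImplicit false

namespace RH

open Finset Classical

namespace MG

variable {V D : Type*} {G : MG V D} {z z' : D → ℝ} {t t' : V → ℝ} {fr fr' : Finset V}
variable {F : Finset D} {jm sx : Finset V} {ep : V → ℕ} {m : ℕ} {M : Finset D}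

/-- data of a step in the frame with star -/
structure IsStepS2 (G : MG V D) (z : D → ℝ) (fr : Finset V) (F : Finset D) (jm sx : Finset V)
    (z' : D → ℝ) (t' : V → ℝ) (fr' : Finset V) : Prop where
  wt : G.Wt z' t'
  tau : ∑ v ∈ G.vs, t' v < 6
  supp : ∀ d ∈ G.ds, 0 < z' d → 0 < z d
  sub : fr' ⊆ fr
  ne : fr' ≠ fr
  clo : ∀ d ∈ F, G.pi d ∈ fr' → G.pi (G.al d) ∈ fr'
  unit : ∀ d ∈ G.ds, G.pi d ∈ fr' → z' d = 1
  star : (sx ⊆ fr' ∧ jm ⊆ fr') ∨ (Disjoint jm fr' ∧ Disjoint sx fr')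
  kill : ∀ X, G.Adm fr F X → ¬ X ⊆ fr' → (jm ⊆ X ∨ Disjoint jm X) →
    (Odd X.card ∨ (sx.Nonempty ∧ sx ⊆ X)) → ∃ d ∈ G.bd X, z' d = 0

/-- the new instance -/
theorem IsStepS2.inst (hs : IsStepS2 G z fr F jm sx z' t' fr')
    (h : G.InstS z t fr F jm sx ep m) :
    ∃ jm1 sx1, G.InstS z' t' fr' (F.filter fun d => G.pi d ∈ fr') jm1 sx1 ep m ∧
      ((sx ⊆ fr' ∧ sx1 = sx) ∨ (Disjoint sx fr' ∧ sx1 = ∅)) := by
  have hF := h.fresh
  have hA : ∀ X, G.Adm fr' (F.filter fun d => G.pi d ∈ fr') X → G.Adm fr F X := by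
    intro X hX
    exact ⟨hX.sub.trans hs.sub, fun d hd hp => hX.clo d (mem_filter.2 ⟨hd, hX.sub hp⟩) hp⟩
  have main : ∀ jm1 sx1 : Finset V,
      ((sx ⊆ fr' ∧ jm ⊆ fr' ∧ sx1 = sx ∧ jm1 = jm) ∨
        (Disjoint jm fr' ∧ sx1 = ∅ ∧ jm1 = ∅)) →
      G.InstS z' t' fr' (F.filter fun d => G.pi d ∈ fr') jm1 sx1 ep m := by
    intro jm1 sx1 hk
    have hjm1 : ∀ v ∈ fr', (v ∈ jm1 ↔ v ∈ jm) := by
      intro v hv
      rcases hk with ⟨-, -, -, rfl⟩ | ⟨h1, -, rfl⟩
      · rfl
      · exact ⟨fun h2 => absurd h2 (notMem_empty _),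
          fun h2 => absurd hv (disjoint_left.1 h1 h2)⟩
    have hjs : jm1 ⊆ fr' := by
      rcases hk with ⟨-, h1, -, rfl⟩ | ⟨h1, -, rfl⟩
      · exact h1
      · exact empty_subset _
    have hfr : G.FrS z' fr' (F.filter fun d => G.pi d ∈ fr') jm1 := by
      refine ⟨hs.sub.trans hF.fsub, (filter_subset _ _).trans hF.Fsub, ?_, ?_, ?_, hjs, ?_, ?_,
        hs.unit⟩
      · intro d hd
        obtain ⟨h1, h2⟩ := mem_filter.1 hd
        exact mem_filter.2 ⟨hF.Fal d h1, hs.clo d h1 h2⟩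
      · intro d hd
        exact (mem_filter.1 hd).2
      · intro v hv
        rw [← hF.two v (hs.sub hv)]
        congr 1
        ext d
        rw [mem_filter, mem_filter, mem_filter]
        constructor
        · rintro ⟨⟨h1, -⟩, h4⟩
          exact ⟨h1, h4⟩
        · rintro ⟨h1, rfl⟩
          exact ⟨⟨h1, hv⟩, rfl⟩
      · intro v hv hj
        rw [← hF.jd v (hs.sub hv) (fun h1 => hj ((hjm1 v hv).2 h1))]
        congr 1
        apply filter_congr
        intro d hd
        have hp : G.pi d = v := (mem_st.1 hd).2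
        rw [mem_filter, hp]
        constructor
        · intro h1 h2
          exact h1 ⟨h2, hv⟩
        · intro h1 h2
          exact h1 h2.1
      · intro v hv d hd
        have hvf := hjs hv
        refine mem_filter.2 ⟨hF.j0 v ((hjm1 v hvf).1 hv) d hd, ?_⟩
        rw [(mem_st.1 hd).2]
        exact hvf
    have ht : ∀ v ∈ fr', t' v = t v := by
      intro v hv
      have h1 := h.wt.deg v (hF.fsub (hs.sub hv))
      have h2 := hs.wt.deg v (hF.fsub (hs.sub hv))
      have h3 : ∑ d ∈ G.st v, z' d = ∑ d ∈ G.st v, z d := by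
        refine sum_congr rfl fun d hd => ?_
        obtain ⟨h4, h5⟩ := mem_st.1 hd
        rw [hF.unit d h4 (by rw [h5]; exact hs.sub hv), hs.unit d h4 (by rw [h5]; exact hv)]
      linarith
    exact
      { even := h.even
        wt := hs.wt
        tau := hs.tau
        fresh := hfr
        cc := fun X hX => h.cc X (hA X hX)
        ev := fun X hX => h.ev X (hA X hX)
        sxs := by
          rcases hk with ⟨h1, -, rfl, -⟩ | ⟨-, rfl, -⟩
          · exact h1
          · exact empty_subset _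
        kind := by
          rcases hk with ⟨-, -, rfl, rfl⟩ | ⟨-, rfl, rfl⟩
          · rcases h.kind with h1 | ⟨h1, h2⟩
            · exact Or.inl h1
            · exact Or.inr ⟨h1, fun X hX => h2 X (hA X hX)⟩
          · exact Or.inl rfl
        jm2 := by
          rcases hk with ⟨-, -, -, rfl⟩ | ⟨-, -, rfl⟩
          · exact h.jm2
          · exact Or.inl rfl
        st2 := by
          intro hne
          rcases hk with ⟨h1, -, rfl, -⟩ | ⟨-, rfl, -⟩
          · rw [sum_congr rfl fun v hv => ht v (h1 hv)]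
            exact h.st2 hne
          · exact absurd hne not_nonempty_empty
        b0 := by
          intro X hX he hne hsX
          rcases hk with ⟨-, -, rfl, -⟩ | ⟨-, rfl, -⟩
          · exact h.b0 X (hA X hX) he hne hsX
          · exact absurd hne not_nonempty_empty
        epj := by
          intro v hv
          have h1 := h.epj v (hs.sub hv)
          by_cases h2 : v ∈ jm
          · rw [if_pos h2] at h1
            rw [if_pos ((hjm1 v hv).2 h2)]
            exact h1
          · rw [if_neg h2] at h1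
            rw [if_neg fun h3 => h2 ((hjm1 v hv).1 h3)]
            exact h1 }
  rcases hs.star with ⟨h1, h2⟩ | ⟨h1, h2⟩
  · exact ⟨jm, sx, main jm sx (Or.inl ⟨h1, h2, rfl, rfl⟩), Or.inl ⟨h1, rfl⟩⟩
  · exact ⟨∅, ∅, main ∅ ∅ (Or.inr ⟨h1, rfl, rfl⟩), Or.inr ⟨h2, rfl⟩⟩

/-- a closed union contains both or none of the vertices without J-dart -/
theorem InstS.closed_star (h : G.InstS z t fr F jm sx ep m) (hM : G.IsPM M) {X : Finset V}
    (hX : G.Adm fr F X) (hc : ∀ d ∈ G.bd X, d ∈ M) : jm ⊆ X ∨ Disjoint jm X := by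
  have h1 := h.fresh.closed_jm hM hX hc
  rcases h.jm2 with h2 | h2
  · exact Or.inl (by rw [h2]; exact empty_subset _)
  · have h3 : (X ∩ jm).card ≤ jm.card := card_le_card inter_subset_right
    obtain ⟨k, hk⟩ := h1
    have h4 : (X ∩ jm).card = 0 ∨ (X ∩ jm).card = jm.card := by omega
    rcases h4 with h4 | h4
    · right
      rw [card_eq_zero] at h4
      rw [disjoint_comm, disjoint_iff_inter_eq_empty]
      exact h4
    · left
      have h5 := eq_of_subset_of_card_le (inter_subset_right (s₁ := X) (s₂ := jm)) (le_of_eq h4.symm)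
      rw [← h5]
      exact inter_subset_left

/-- lifting -/
theorem IsStepS2.lift (hs : IsStepS2 G z fr F jm sx z' t' fr')
    (h : G.InstS z t fr F jm sx ep m) {sx1 : Finset V}
    (hsx : (sx ⊆ fr' ∧ sx1 = sx) ∨ (Disjoint sx fr' ∧ sx1 = ∅))
    (hM : G.GoodS z' fr' (F.filter fun d => G.pi d ∈ fr') sx1 M) : G.GoodS z fr F sx M where
  pm := hM.pm
  pos := fun d hd => hs.supp d (hM.pm.sub hd) (hM.pos d hd)
  hit := fun X hX ho => by
    by_contra hno
    push Not at hno
    have hc : ∀ d ∈ G.bd X, d ∈ M := hno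
    have hst := h.closed_star hM.pm hX hc
    by_cases hXf : X ⊆ fr'
    · have hX' : G.Adm fr' (F.filter fun d => G.pi d ∈ fr') X :=
        ⟨hXf, fun d hd hp => hX.clo d (mem_filter.1 hd).1 hp⟩
      have ho' : Odd X.card ∨ (sx1.Nonempty ∧ sx1 ⊆ X) := by
        rcases ho with ho | ⟨hne, hsX⟩
        · exact Or.inl ho
        · rcases hsx with ⟨-, rfl⟩ | ⟨h1, -⟩
          · exact Or.inr ⟨hne, hsX⟩
          · obtain ⟨v, hv⟩ := hne
            exact absurd (hXf (hsX hv)) (disjoint_left.1 h1 hv)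
      obtain ⟨d, hd, hd2⟩ := hM.hit X hX' ho'
      exact hd2 (hc d hd)
    · obtain ⟨d, hd, hz⟩ := hs.kill X hX hXf hst ho
      have h1 := hM.pos d (hc d hd)
      rw [hz] at h1
      exact lt_irrefl _ h1

/-- there is no step in a minimal counterexample -/
theorem MCS.step2 (h : G.MCS z t fr F jm sx ep m)
    (hs : IsStepS2 G z fr F jm sx z' t' fr') : False := by
  obtain ⟨jm1, sx1, hi, hsx⟩ := hs.inst h.inst
  have hlt : fr'.card < fr.card := card_lt_card (hs.sub.ssubset_of_ne hs.ne)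
  obtain ⟨M, hM⟩ := h.ih G z' t' fr' _ jm1 sx1 ep (Or.inl hlt) hi
  exact h.bad ⟨M, hs.lift h.inst hsx hM⟩

/-- a union which contains a whole circuit of a killed dart -/
theorem MCS.step2_of_dir (h : G.MCS z t fr F jm sx ep m) {S : Finset D} (hS : S ⊆ G.ds)
    (hal : ∀ d ∈ S, G.al d ∈ S) (hS1 : ∀ d ∈ S, z d = 1)
    (htau : ∑ v ∈ G.vs, t v + S.card ≤ 6)
    (hsub : fr' ⊆ fr) (hne : fr' ≠ fr)
    (hclo : ∀ d ∈ F, G.pi d ∈ fr' → G.pi (G.al d) ∈ fr')
    (hSfr : ∀ d ∈ S, G.pi d ∉ fr')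
    (hstar : (sx ⊆ fr' ∧ jm ⊆ fr') ∨ (Disjoint jm fr' ∧ Disjoint sx fr'))
    (hkill : ∀ X, G.Adm fr F X → ¬ X ⊆ fr' → (jm ⊆ X ∨ Disjoint jm X) →
      (Odd X.card ∨ (sx.Nonempty ∧ sx ⊆ X)) → ∃ d ∈ G.bd X, d ∈ S)
    (a : D → ℝ) (b : V → ℝ)
    (hsym : ∀ d ∈ G.ds, a (G.al d) = a d)
    (hdeg : ∀ v ∈ G.vs, ∑ d ∈ G.st v, a d + b v = 0)
    (hafr : ∀ d ∈ G.ds, G.pi d ∈ fr' → a d = 0)
    (haS : ∀ d ∈ S, a d = 0) (haz : ∀ d ∈ G.ds, z d = 0 → a d = 0)
    (hb : ∀ v ∈ G.vs, kt G z t S v = 0 → 0 ≤ b v)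
    (hcut : ∀ X ⊆ G.vs, Odd X.card → G.val z t X = 3 → (∀ d ∈ G.ed X X, d ∉ S) →
      ∑ d ∈ G.ed X X, a d ≤ 0)
    (hneg : ∑ v ∈ G.vs, b v < 0) : False := by
  have hw := h.inst.wt
  have hw1 := hw.kill hS hal
  have hz1 : ∀ d ∈ G.ds, kz z S d = 0 → 0 ≤ a d := by
    intro d hd h0
    by_cases hdS : d ∈ S
    · exact (haS d hdS).ge
    · have : z d = 0 := by
        unfold kz at h0
        rwa [if_neg hdS] at h0
      exact (haz d hd this).ge
  have hc1 : ∀ X ⊆ G.vs, Odd X.card → G.val (kz z S) (kt G z t S) X = 3 →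
      0 ≤ G.val a b X := by
    intro X hX ho hv
    rw [kill_val hw hS hal hX] at hv
    have h1 := hw.cut X hX ho
    have h2 : ∀ d ∈ (G.ed X X).filter fun d => d ∈ S, 0 ≤ z d := fun d hd =>
      hw.z0 d (hS (Finset.mem_filter.1 hd).2)
    have h3 := Finset.sum_nonneg h2
    have h4 : ∑ d ∈ (G.ed X X).filter fun d => d ∈ S, z d = 0 := by linarith
    have h5 := (Finset.sum_eq_zero_iff_of_nonneg h2).1 h4
    have h6 : ∀ d ∈ G.ed X X, d ∉ S := by
      intro d hd hdS
      have := h5 d (Finset.mem_filter.2 ⟨hd, hdS⟩)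
      rw [hS1 d hdS] at this
      exact one_ne_zero this
    have h7 := hcut X hX ho (by linarith) h6
    rw [pert_val a b hdeg hX]
    linarith
  obtain ⟨ε, hε, H⟩ := hw1.pert a b hsym hdeg hz1 hb hc1
  have hW := H ε hε.le le_rfl
  refine h.step2 (z' := fun d => kz z S d + ε * a d) (t' := fun v => kt G z t S v + ε * b v)
    (fr' := fr')
    { wt := hW
      tau := ?_
      supp := ?_
      sub := hsub
      ne := hne
      clo := hclo
      unit := ?_
      star := hstar
      kill := ?_ }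
  · rw [Finset.sum_add_distrib, ← Finset.mul_sum, kill_tau hw hS hal]
    have h1 : ∑ d ∈ S, z d = S.card := by
      rw [Finset.sum_congr rfl hS1]
      simp
    rw [h1]
    have h2 := mul_neg_of_pos_of_neg hε hneg
    linarith
  · intro d hd hp
    by_contra hn
    have hz : z d = 0 := le_antisymm (not_lt.1 hn) (hw.z0 d hd)
    have ha := haz d hd hz
    simp only [ha, mul_zero, add_zero] at hp
    unfold kz at hp
    rw [hz] at hp
    simp at hp
  · intro d hd hp
    show kz z S d + ε * a d = 1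
    have h1 : d ∉ S := fun hdS => hSfr d hdS hp
    rw [hafr d hd hp, mul_zero, add_zero]
    unfold kz
    rw [if_neg h1]
    exact h.inst.fresh.unit d hd (hsub hp)
  · intro X hX hn hst ho
    obtain ⟨d, hd, hdS⟩ := hkill X hX hn hst ho
    refine ⟨d, hd, ?_⟩
    show kz z S d + ε * a d = 0
    rw [haS d hdS, mul_zero, add_zero]
    unfold kz
    rw [if_pos hdS]

/-- kills with both tokens: if `tau + 2 |S| < 6` (`S` is a set of darts, so `S.card = 2 |S|`), the
kills alone are a step. So in a minimal counterexample with a dart from a fresh vertex to an absorbed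
vertex `tau ≥ 4`. -/
theorem MCS.step2_of_kill (h : G.MCS z t fr F jm sx ep m) {S : Finset D} (hS : S ⊆ G.ds)
    (hal : ∀ d ∈ S, G.al d ∈ S) (htau : ∑ v ∈ G.vs, t v + ∑ d ∈ S, z d < 6)
    (hsub : fr' ⊆ fr) (hne : fr' ≠ fr)
    (hclo : ∀ d ∈ F, G.pi d ∈ fr' → G.pi (G.al d) ∈ fr')
    (hSfr : ∀ d ∈ S, G.pi d ∉ fr')
    (hstar : (sx ⊆ fr' ∧ jm ⊆ fr') ∨ (Disjoint jm fr' ∧ Disjoint sx fr'))
    (hkill : ∀ X, G.Adm fr F X → ¬ X ⊆ fr' → (jm ⊆ X ∨ Disjoint jm X) →
      (Odd X.card ∨ (sx.Nonempty ∧ sx ⊆ X)) → ∃ d ∈ G.bd X, d ∈ S) : False := by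
  have hw := h.inst.wt
  refine h.step2 (z' := kz z S) (t' := kt G z t S) (fr' := fr')
    { wt := hw.kill hS hal
      tau := ?_
      supp := ?_
      sub := hsub
      ne := hne
      clo := hclo
      unit := ?_
      star := hstar
      kill := ?_ }
  · rw [kill_tau hw hS hal]
    exact htau
  · intro d hd hp
    unfold kz at hp
    split_ifs at hp with h1
    · exact absurd hp (lt_irrefl _)
    · exact hp
  · intro d hd hp
    have h1 : d ∉ S := fun hdS => hSfr d hdS hp
    unfold kz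
    rw [if_neg h1]
    exact h.inst.fresh.unit d hd (hsub hp)
  · intro X hX hn hst ho
    obtain ⟨d, hd, hdS⟩ := hkill X hX hn hst ho
    refine ⟨d, hd, ?_⟩
    unfold kz
    rw [if_pos hdS]

end MG

end RH
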