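import Pool.Agent.Lib.RH.STop
import Pool.Agent.Lib.RH.MC

/-! Transport of instances of the rho frame along injections of the types of vertices and darts: it
is enough to prove the theorem over infinite types. -/

set_option autoImplicit false

namespace RH

open Finset Classical

namespace MG

variable {V D V' D' : Type*}

/-- transport of a multigraph along injections -/
noncomputable def up (G : MG V D) (f : V ↪ V') (g : D ↪ D') (v0 : V') : MG V' D' where
  vs := G.vs.map f
  ds := G.ds.map g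
  pi := Function.extend g (fun d => f (G.pi d)) (fun _ => v0)
  al := Function.extend g (fun d => g (G.al d)) id
  pi_mem := by
    intro d hd
    obtain ⟨e, he, rfl⟩ := mem_map.1 hd
    rw [g.injective.extend_apply]
    exact mem_map_of_mem f (G.pi_mem e he)
  al_mem := by
    intro d hd
    obtain ⟨e, he, rfl⟩ := mem_map.1 hd
    rw [g.injective.extend_apply]
    exact mem_map_of_mem g (G.al_mem e he)
  al_al := by
    intro d hd
    obtain ⟨e, he, rfl⟩ := mem_map.1 hd
    rw [g.injective.extend_apply, g.injective.extend_apply, G.al_al e he]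
  noloop := by
    intro d hd
    obtain ⟨e, he, rfl⟩ := mem_map.1 hd
    rw [g.injective.extend_apply, g.injective.extend_apply, g.injective.extend_apply]
    exact fun h => G.noloop e he (f.injective h)

variable {G : MG V D} {f : V ↪ V'} {g : D ↪ D'} {v0 : V'}
variable {z : D → ℝ} {t : V → ℝ} {fr : Finset V} {F : Finset D} {jm sx : Finset V}
variable {ep : V → ℕ} {m : ℕ}

theorem up_vs : (G.up f g v0).vs = G.vs.map f := rfl

theorem up_ds : (G.up f g v0).ds = G.ds.map g := rfl

theorem up_pi (d : D) : (G.up f g v0).pi (g d) = f (G.pi d) :=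
  g.injective.extend_apply (fun d => f (G.pi d)) (fun _ => v0) d

theorem up_al (d : D) : (G.up f g v0).al (g d) = g (G.al d) :=
  g.injective.extend_apply (fun d => g (G.al d)) id d

theorem mem_up_ds {d : D} : g d ∈ (G.up f g v0).ds ↔ d ∈ G.ds := by
  rw [up_ds]
  exact mem_map' g

theorem up_st (v : V) : (G.up f g v0).st (f v) = (G.st v).map g := by
  ext d
  rw [mem_st, mem_map, up_ds, mem_map]
  constructor
  · rintro ⟨⟨e, he, rfl⟩, h⟩
    rw [up_pi] at h
    exact ⟨e, mem_st.2 ⟨he, f.injective h⟩, rfl⟩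
  · rintro ⟨e, he, rfl⟩
    obtain ⟨h1, h2⟩ := mem_st.1 he
    exact ⟨⟨e, h1, rfl⟩, by rw [up_pi, h2]⟩

theorem up_bd (X : Finset V) : (G.up f g v0).bd (X.map f) = (G.bd X).map g := by
  ext d
  constructor
  · intro h
    obtain ⟨h0, h1, h2⟩ := mem_bd.1 h
    obtain ⟨e, he, rfl⟩ := mem_map.1 h0
    rw [up_pi, mem_map'] at h1
    rw [up_al, up_pi, mem_map'] at h2
    exact mem_map_of_mem g (mem_bd.2 ⟨he, h1, h2⟩)
  · intro h
    obtain ⟨e, he, rfl⟩ := mem_map.1 h
    obtain ⟨h1, h2, h3⟩ := mem_bd.1 he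
    refine mem_bd.2 ⟨mem_up_ds.2 h1, ?_, ?_⟩
    · rw [up_pi, mem_map']
      exact h2
    · rw [up_al, up_pi, mem_map']
      exact h3

theorem up_sum (S : Finset V) (h : V → ℝ) :
    ∑ v ∈ S.map f, Function.extend f h 0 v = ∑ v ∈ S, h v := by
  rw [sum_map]
  exact sum_congr rfl fun v _ => f.injective.extend_apply _ _ _

theorem up_sum_nat (S : Finset V) (h : V → ℕ) :
    ∑ v ∈ S.map f, Function.extend f h 0 v = ∑ v ∈ S, h v := by
  rw [sum_map]
  exact sum_congr rfl fun v _ => f.injective.extend_apply _ _ _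

theorem up_val (X : Finset V) :
    (G.up f g v0).val (Function.extend g z 0) (Function.extend f t 0) (X.map f) = G.val z t X := by
  unfold val
  rw [up_bd, up_sum, up_sum]

theorem up_adm {X : Finset V} :
    (G.up f g v0).Adm (fr.map f) (F.map g) (X.map f) ↔ G.Adm fr F X := by
  constructor
  · intro h
    refine ⟨(map_subset_map).1 h.sub, fun d hd hp => ?_⟩
    have h1 := h.clo (g d) (mem_map_of_mem g hd) (by rw [up_pi]; exact mem_map_of_mem f hp)
    rwa [up_al, up_pi, mem_map'] at h1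
  · intro h
    refine ⟨(map_subset_map).2 h.sub, ?_⟩
    intro d hd hp
    obtain ⟨e, he, rfl⟩ := mem_map.1 hd
    rw [up_pi, mem_map'] at hp
    rw [up_al, up_pi, mem_map']
    exact h.clo e he hp

theorem up_adm_ex {X : Finset V'} (h : (G.up f g v0).Adm (fr.map f) (F.map g) X) :
    ∃ Y, X = Y.map f ∧ G.Adm fr F Y := by
  obtain ⟨Y, -, rfl⟩ := subset_map_iff.1 h.sub
  exact ⟨Y, rfl, up_adm.1 h⟩

theorem Wt.up (h : G.Wt z t) :
    (G.up f g v0).Wt (Function.extend g z 0) (Function.extend f t 0) where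
  z0 := by
    intro d hd
    obtain ⟨e, he, rfl⟩ := mem_map.1 hd
    rw [g.injective.extend_apply]
    exact h.z0 e he
  t0 := by
    intro d hd
    obtain ⟨e, he, rfl⟩ := mem_map.1 hd
    rw [f.injective.extend_apply]
    exact h.t0 e he
  sym := by
    intro d hd
    obtain ⟨e, he, rfl⟩ := mem_map.1 hd
    rw [up_al, g.injective.extend_apply, g.injective.extend_apply]
    exact h.sym e he
  deg := by
    intro d hd
    obtain ⟨e, he, rfl⟩ := mem_map.1 hd
    rw [up_st, up_sum, f.injective.extend_apply]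
    exact h.deg e he
  cut := by
    intro X hX hX1
    obtain ⟨Y, hY, rfl⟩ := subset_map_iff.1 hX
    rw [card_map] at hX1
    rw [up_val]
    exact h.cut Y hY hX1

theorem FrS.up (h : G.FrS z fr F jm) :
    (G.up f g v0).FrS (Function.extend g z 0) (fr.map f) (F.map g) (jm.map f) where
  fsub := (map_subset_map).2 h.fsub
  Fsub := (map_subset_map).2 h.Fsub
  Fal := by
    intro d hd
    obtain ⟨e, he, rfl⟩ := mem_map.1 hd
    rw [up_al]
    exact mem_map_of_mem g (h.Fal e he)
  Ffr := by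
    intro d hd
    obtain ⟨e, he, rfl⟩ := mem_map.1 hd
    rw [up_pi]
    exact mem_map_of_mem f (h.Ffr e he)
  two := by
    intro v hv
    obtain ⟨w, hw, rfl⟩ := mem_map.1 hv
    rw [← h.two w hw, ← card_map g]
    congr 1
    ext d
    rw [mem_filter, mem_map, mem_map]
    constructor
    · rintro ⟨⟨e, he, rfl⟩, h1⟩
      rw [up_pi] at h1
      exact ⟨e, mem_filter.2 ⟨he, f.injective h1⟩, rfl⟩
    · rintro ⟨e, he, rfl⟩
      obtain ⟨h1, h2⟩ := mem_filter.1 he
      exact ⟨⟨e, h1, rfl⟩, by rw [up_pi, h2]⟩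
  jms := (map_subset_map).2 h.jms
  jd := by
    intro v hv hvj
    obtain ⟨w, hw, rfl⟩ := mem_map.1 hv
    rw [mem_map'] at hvj
    rw [← h.jd w hw hvj, up_st, ← card_map g]
    congr 1
    ext d
    constructor
    · intro h0
      obtain ⟨h0, h1⟩ := mem_filter.1 h0
      obtain ⟨e, he, rfl⟩ := mem_map.1 h0
      rw [mem_map'] at h1
      exact mem_map_of_mem g (mem_filter.2 ⟨he, h1⟩)
    · intro h0
      obtain ⟨e, he, rfl⟩ := mem_map.1 h0
      obtain ⟨h1, h2⟩ := mem_filter.1 he
      exact mem_filter.2 ⟨mem_map_of_mem g h1, by rw [mem_map']; exact h2⟩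
  j0 := by
    intro v hv d hd
    obtain ⟨w, hw, rfl⟩ := mem_map.1 hv
    rw [up_st] at hd
    obtain ⟨e, he, rfl⟩ := mem_map.1 hd
    exact mem_map_of_mem g (h.j0 w hw e he)
  unit := by
    intro d hd hp
    obtain ⟨e, he, rfl⟩ := mem_map.1 hd
    rw [up_pi, mem_map'] at hp
    rw [g.injective.extend_apply]
    exact h.unit e he hp

theorem InstS.up (h : G.InstS z t fr F jm sx ep m) :
    (G.up f g v0).InstS (Function.extend g z 0) (Function.extend f t 0) (fr.map f) (F.map g)
      (jm.map f) (sx.map f) (Function.extend f ep 0) m where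
  even := by
    rw [up_vs, card_map]
    exact h.even
  wt := h.wt.up
  tau := by
    rw [up_vs, up_sum]
    exact h.tau
  fresh := h.fresh.up
  cc := by
    intro X hX hX1
    obtain ⟨Y, rfl, hY⟩ := up_adm_ex hX
    rw [card_map] at hX1
    rw [up_bd, card_map, up_sum_nat]
    exact h.cc Y hY hX1
  ev := by
    intro X hX hX1 hX2
    obtain ⟨Y, rfl, hY⟩ := up_adm_ex hX
    rw [card_map] at hX1
    rw [up_bd, card_map, up_sum_nat]
    exact h.ev Y hY hX1 (map_nonempty.1 hX2)
  sxs := (map_subset_map).2 h.sxs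
  kind := by
    rcases h.kind with h1 | ⟨h1, h2⟩
    · exact Or.inl (by rw [h1])
    · refine Or.inr ⟨by rw [h1, map_empty], ?_⟩
      intro X hX v hv hvX
      obtain ⟨Y, rfl, hY⟩ := up_adm_ex hX
      obtain ⟨w, hw, rfl⟩ := mem_map.1 hv
      rw [mem_map'] at hvX
      exact (map_subset_map).2 (h2 Y hY w hw hvX)
  jm2 := by
    rcases h.jm2 with h1 | h1
    · exact Or.inl (by rw [h1, map_empty])
    · exact Or.inr (by rw [card_map]; exact h1)
  st2 := by
    intro hn
    rw [up_sum]
    exact h.st2 (map_nonempty.1 hn)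
  b0 := by
    intro X hX hX1 hX2 hX3
    obtain ⟨Y, rfl, hY⟩ := up_adm_ex hX
    rw [card_map] at hX1
    rw [up_bd, card_map]
    exact h.b0 Y hY hX1 (map_nonempty.1 hX2) ((map_subset_map).1 hX3)
  epj := by
    intro v hv
    obtain ⟨w, hw, rfl⟩ := mem_map.1 hv
    rw [f.injective.extend_apply]
    have h1 := h.epj w hw
    by_cases h2 : w ∈ jm
    · rw [if_pos h2] at h1
      rw [if_pos (mem_map_of_mem f h2)]
      exact h1
    · rw [if_neg h2] at h1
      rw [if_neg (by rw [mem_map']; exact h2)]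
      exact h1

theorem GoodS.down {M : Finset D'}
    (h : (G.up f g v0).GoodS (Function.extend g z 0) (fr.map f) (F.map g) (sx.map f) M) :
    ∃ M', G.GoodS z fr F sx M' := by
  obtain ⟨N, hN, rfl⟩ := subset_map_iff.1 h.pm.sub
  refine ⟨N, ⟨hN, ?_, ?_⟩, ?_, ?_⟩
  · intro d hd
    have h1 := h.pm.closed (g d) (mem_map_of_mem g hd)
    rwa [up_al, mem_map'] at h1
  · intro v hv
    rw [← h.pm.one (f v) (mem_map_of_mem f hv), ← card_map g]
    congr 1
    ext d
    rw [mem_map, mem_filter, mem_map]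
    constructor
    · rintro ⟨e, he, rfl⟩
      obtain ⟨h1, h2⟩ := mem_filter.1 he
      exact ⟨⟨e, h1, rfl⟩, by rw [up_pi, h2]⟩
    · rintro ⟨⟨e, he, rfl⟩, h1⟩
      rw [up_pi] at h1
      exact ⟨e, mem_filter.2 ⟨he, f.injective h1⟩, rfl⟩
  · intro d hd
    have h1 := h.pos (g d) (mem_map_of_mem g hd)
    rwa [g.injective.extend_apply] at h1
  · intro X hX hX1
    obtain ⟨d, hd, hd1⟩ := h.hit (X.map f) (up_adm.2 hX) (by
      rw [card_map]
      rcases hX1 with h1 | ⟨h1, h2⟩
      · exact Or.inl h1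
      · exact Or.inr ⟨map_nonempty.2 h1, (map_subset_map).2 h2⟩)
    rw [up_bd] at hd
    obtain ⟨e, he, rfl⟩ := mem_map.1 hd
    rw [mem_map'] at hd1
    exact ⟨e, he, hd1⟩

end MG

/-- it is enough to prove the theorem over infinite types -/
theorem RhoSThm.of_inf {m : ℕ}
    (h : ∀ (V D : Type) [Infinite V] [Infinite D] (G : MG V D) (z : D → ℝ) (t : V → ℝ)
      (fr : Finset V) (F : Finset D) (jm sx : Finset V) (ep : V → ℕ),
      G.InstS z t fr F jm sx ep m → ∃ M, G.GoodS z fr F sx M) : RhoSThm m := by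
  intro V D G z t fr F jm sx ep hI
  let f : V ↪ V ⊕ ℕ := ⟨Sum.inl, Sum.inl_injective⟩
  let g : D ↪ D ⊕ ℕ := ⟨Sum.inl, Sum.inl_injective⟩
  obtain ⟨M, hM⟩ := h (V ⊕ ℕ) (D ⊕ ℕ) (G.up f g (Sum.inr 0)) _ _ _ _ _ _ _ hI.up
  exact hM.down

/-- the theorem follows if there are no minimal counterexamples over infinite types -/
theorem RhoSThm.of_mcs {m : ℕ}
    (h : ∀ (V D : Type) [Infinite V] [Infinite D] (G : MG V D) (z : D → ℝ) (t : V → ℝ)
      (fr : Finset V) (F : Finset D) (jm sx : Finset V) (ep : V → ℕ),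
      ¬ G.MCS z t fr F jm sx ep m) : RhoSThm m :=
  RhoSThm.of_inf fun V D _ _ => MG.exists_goodS (h V D)

end RH
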