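import Pool.Agent.Lib.RH.SWalk0
import Pool.Agent.Lib.RH.MOpt

/-! Walks in the support are directions. -/

set_option autoImplicit false

namespace RH

open Finset Classical

namespace MG

variable {V D : Type*} {G : MG V D} {z : D → ℝ} {t : V → ℝ} {fr A : Finset V} {F S : Finset D}

/-- a walk between vertices outside `fr` in the support is a direction -/
theorem Dir.walk (h : G.Wt z t) (hS : S ⊆ G.sd z fr) (hSy : G.Sy S) {u w : V} {l : List D}
    (hl : G.IsW S u l w) : G.Dir z fr (G.wa l) (wb l u w) where
  sym := fun d hd => wa_sym hSy.sub hl.mem hd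
  fr0 := fun d _ hf => wa_zero hSy hl.mem fun h1 => (mem_sd.1 (hS h1)).2.2.1 hf
  z0 := fun d _ hz => wa_zero hSy hl.mem fun h1 => (mem_sd.1 (hS h1)).2.1 hz
  deg := fun v _ => wa_deg hSy hl v

end MG

end RH
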