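import Pool.Agent.Lib.RH.MFree

/-! Sealed unions of even circuits are absorbed without a kill. -/

set_option autoImplicit false

namespace RH

open Finset Classical

namespace MG

variable {V D : Type*} {G : MG V D} {z : D → ℝ} {t : V → ℝ} {fr : Finset V} {F : Finset D}
variable {jm sx : Finset V} {ep : V → ℕ} {m : ℕ} {M : Finset D}

/-- number of darts of `S` at the vertices of `X` if there are `k` at each of them -/
private theorem card_at {S : Finset D} {X : Finset V} {k : ℕ}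
    (h : ∀ v ∈ X, (S.filter fun d => G.pi d = v).card = k) :
    (S.filter fun d => G.pi d ∈ X).card = k * X.card := by
  rw [card_eq_sum_card_fiberwise (f := G.pi) (s := S.filter fun d => G.pi d ∈ X) (t := X)
    (fun d hd => (mem_filter.1 (mem_coe.1 hd)).2)]
  rw [mul_comm, ← smul_eq_mul, ← sum_const]
  refine sum_congr rfl fun v hv => ?_
  rw [← h v hv, filter_filter]
  congr 1
  apply filter_congr
  intro d _
  constructor
  · rintro ⟨-, h1⟩
    exact h1
  · intro h1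
    exact ⟨by rw [h1]; exact hv, h1⟩

/-- COUNT. `X` is a closed union, `T` a union of circuits with classes `A` and `T \ A` alternating
along the F-edges, and every J-edge at `T \ A` ends outside `fr` or in `A`. Then every J-edge
between `X ∩ T` and `X \ T` is in the matching, and `X ∩ T` is even. -/
theorem FrS.sealed (hF : G.FrS z fr F jm) (hM : G.IsPM M) {T A X : Finset V}
    (hT : G.Adm fr F T) (hjm : Disjoint T jm) (hA : A ⊆ T)
    (alt : ∀ d ∈ F, G.pi d ∈ T → (G.pi d ∈ A ↔ G.pi (G.al d) ∉ A))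
    (hseal : ∀ d ∈ G.ds, d ∉ F → G.pi d ∈ T → G.pi d ∉ A →
      G.pi (G.al d) ∉ fr ∨ G.pi (G.al d) ∈ A)
    (hX : G.Adm fr F X) (hcl : ∀ d ∈ G.bd X, d ∈ M) :
    Even (X ∩ T).card ∧
      ∀ d ∈ G.ds, d ∉ F → G.pi d ∈ X ∩ T → G.pi (G.al d) ∈ X → G.pi (G.al d) ∉ T → d ∈ M := by
  obtain ⟨P, hP⟩ : ∃ P : Finset V, P = (X ∩ T) ∩ A := ⟨_, rfl⟩
  obtain ⟨Q, hQ⟩ : ∃ Q : Finset V, Q = (X ∩ T) \ A := ⟨_, rfl⟩
  have mP : ∀ v, v ∈ P ↔ v ∈ X ∧ v ∈ T ∧ v ∈ A := by
    intro v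
    rw [hP, mem_inter, mem_inter, and_assoc]
  have mQ : ∀ v, v ∈ Q ↔ v ∈ X ∧ v ∈ T ∧ v ∉ A := by
    intro v
    rw [hQ, mem_sdiff, mem_inter, and_assoc]
  have hPf : ∀ v ∈ P, v ∈ fr := fun v hv => hX.sub ((mP v).1 hv).1
  have hQf : ∀ v ∈ Q, v ∈ fr := fun v hv => hX.sub ((mQ v).1 hv).1
  have hPj : ∀ v ∈ P, v ∉ jm := fun v hv => disjoint_left.1 hjm ((mP v).1 hv).2.1
  have hQj : ∀ v ∈ Q, v ∉ jm := fun v hv => disjoint_left.1 hjm ((mQ v).1 hv).2.1
  -- F-darts
  have swap1 : ∀ d ∈ F, G.pi d ∈ Q → G.pi (G.al d) ∈ P := by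
    intro d hd hq
    obtain ⟨h1, h2, h3⟩ := (mQ _).1 hq
    refine (mP _).2 ⟨hX.clo d hd h1, hT.clo d hd h2, ?_⟩
    by_contra h4
    exact h3 ((alt d hd h2).2 h4)
  have swap2 : ∀ d ∈ F, G.pi d ∈ P → G.pi (G.al d) ∈ Q := by
    intro d hd hp
    obtain ⟨h1, h2, h3⟩ := (mP _).1 hp
    exact (mQ _).2 ⟨hX.clo d hd h1, hT.clo d hd h2, (alt d hd h2).1 h3⟩
  have hbij : ∀ S : Finset D, S ⊆ F → (∀ d ∈ S, G.al d ∈ S) →
      (S.filter fun d => G.pi d ∈ P).card = (S.filter fun d => G.pi d ∈ Q).card := by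
    intro S hSF hSal
    refine card_bij (fun d _ => G.al d) ?_ ?_ ?_
    · intro d hd
      obtain ⟨h1, h2⟩ := mem_filter.1 hd
      exact mem_filter.2 ⟨hSal d h1, swap2 d (hSF h1) h2⟩
    · intro d hd e he hde
      have h1 := G.al_al d (hF.Fsub (hSF (mem_filter.1 hd).1))
      have h2 := G.al_al e (hF.Fsub (hSF (mem_filter.1 he).1))
      rw [← h1, hde, h2]
    · intro e he
      obtain ⟨h1, h2⟩ := mem_filter.1 he
      exact ⟨G.al e, mem_filter.2 ⟨hSal e h1, swap1 e (hSF h1) h2⟩,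
        G.al_al e (hF.Fsub (hSF h1))⟩
  have hPQ : P.card = Q.card := by
    have h1 := hbij F (Subset.refl _) hF.Fal
    rw [card_at (k := 2) (fun v hv => hF.two v (hPf v hv)),
      card_at (k := 2) (fun v hv => hF.two v (hQf v hv))] at h1
    omega
  -- F-darts of the matching
  have hMF := hbij (M ∩ F) inter_subset_right (fun d hd =>
    mem_inter.2 ⟨hM.closed d (mem_inter.1 hd).1, hF.Fal d (mem_inter.1 hd).2⟩)
  -- J-darts
  have cJ : ∀ W : Finset V, (∀ v ∈ W, v ∈ fr) → (∀ v ∈ W, v ∉ jm) →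
      (((G.ds \ F) \ M).filter fun d => G.pi d ∈ W).card =
        ((M ∩ F).filter fun d => G.pi d ∈ W).card := by
    intro W hWf hWj
    have e1 : ((G.ds \ F).filter fun d => G.pi d ∈ W).card = 1 * W.card := by
      refine card_at (k := 1) fun v hv => ?_
      rw [← hF.jd v (hWf v hv) (hWj v hv)]
      congr 1
      ext d
      rw [mem_filter, mem_filter, mem_sdiff, mem_st]
      tauto
    have e2 : (M.filter fun d => G.pi d ∈ W).card = 1 * W.card :=
      card_at (k := 1) fun v hv => hM.one v (hF.fsub (hWf v hv))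
    have e3 : ((G.ds \ F).filter fun d => G.pi d ∈ W).card =
        (((G.ds \ F) \ M).filter fun d => G.pi d ∈ W).card +
          ((M \ F).filter fun d => G.pi d ∈ W).card := by
      rw [← card_union_of_disjoint]
      · congr 1
        ext d
        rw [mem_union, mem_filter, mem_filter, mem_filter, mem_sdiff, mem_sdiff, mem_sdiff,
          mem_sdiff]
        constructor
        · rintro ⟨⟨h1, h2⟩, h3⟩
          by_cases h4 : d ∈ M
          · exact Or.inr ⟨⟨h4, h2⟩, h3⟩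
          · exact Or.inl ⟨⟨⟨h1, h2⟩, h4⟩, h3⟩
        · rintro (⟨⟨h1, -⟩, h3⟩ | ⟨⟨h1, h2⟩, h3⟩)
          · exact ⟨h1, h3⟩
          · exact ⟨⟨hM.sub h1, h2⟩, h3⟩
      · rw [disjoint_left]
        intro d h1 h2
        exact (mem_sdiff.1 (mem_filter.1 h1).1).2 (mem_sdiff.1 (mem_filter.1 h2).1).1
    have e4 : (M.filter fun d => G.pi d ∈ W).card =
        ((M ∩ F).filter fun d => G.pi d ∈ W).card +
          ((M \ F).filter fun d => G.pi d ∈ W).card := by
      rw [← card_union_of_disjoint]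
      · congr 1
        ext d
        rw [mem_union, mem_filter, mem_filter, mem_filter, mem_inter, mem_sdiff]
        tauto
      · rw [disjoint_left]
        intro d h1 h2
        exact (mem_sdiff.1 (mem_filter.1 h2).1).2 (mem_inter.1 (mem_filter.1 h1).1).2
    omega
  have hcard : (((G.ds \ F) \ M).filter fun d => G.pi d ∈ P).card =
      (((G.ds \ F) \ M).filter fun d => G.pi d ∈ Q).card := by
    rw [cJ P hPf hPj, cJ Q hQf hQj, hMF]
  -- unused J-darts at `Q` end in `P`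
  have hQP : ∀ d ∈ ((G.ds \ F) \ M).filter fun d => G.pi d ∈ Q, G.pi (G.al d) ∈ P := by
    intro d hd
    obtain ⟨h1, h2⟩ := mem_filter.1 hd
    obtain ⟨h3, h4⟩ := mem_sdiff.1 h1
    obtain ⟨h5, h6⟩ := mem_sdiff.1 h3
    obtain ⟨q1, q2, q3⟩ := (mQ _).1 h2
    have h7 : G.pi (G.al d) ∈ X := by
      by_contra h8
      exact h4 (hcl d (mem_bd.2 ⟨h5, q1, h8⟩))
    rcases hseal d h5 h6 q2 q3 with h8 | h8
    · exact absurd (hX.sub h7) h8
    · exact (mP _).2 ⟨h7, hA h8, h8⟩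
  have hal : ∀ d ∈ (G.ds \ F) \ M, G.al d ∈ (G.ds \ F) \ M := by
    intro d hd
    obtain ⟨h3, h4⟩ := mem_sdiff.1 hd
    obtain ⟨h5, h6⟩ := mem_sdiff.1 h3
    refine mem_sdiff.2 ⟨mem_sdiff.2 ⟨G.al_mem d h5, fun h7 => h6 ?_⟩, fun h7 => h4 ?_⟩
    · rw [← G.al_al d h5]
      exact hF.Fal _ h7
    · rw [← G.al_al d h5]
      exact hM.closed _ h7
  have himg : (((G.ds \ F) \ M).filter fun d => G.pi d ∈ Q).image G.al =
      ((G.ds \ F) \ M).filter fun d => G.pi d ∈ P := by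
    refine eq_of_subset_of_card_le ?_ ?_
    · intro e he
      obtain ⟨d, hd, rfl⟩ := mem_image.1 he
      exact mem_filter.2 ⟨hal d (mem_filter.1 hd).1, hQP d hd⟩
    · rw [hcard, card_image_of_injOn]
      intro d hd e he hde
      have h1 := G.al_al d (mem_sdiff.1 (mem_sdiff.1 (mem_filter.1 (mem_coe.1 hd)).1).1).1
      have h2 := G.al_al e (mem_sdiff.1 (mem_sdiff.1 (mem_filter.1 (mem_coe.1 he)).1).1).1
      rw [← h1, hde, h2]
  constructor
  · have h1 : X ∩ T = P ∪ Q := by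
      ext v
      rw [mem_union, mP, mQ, mem_inter]
      tauto
    have h2 : Disjoint P Q := by
      rw [disjoint_left]
      intro v h3 h4
      exact ((mQ v).1 h4).2.2 ((mP v).1 h3).2.2
    rw [h1, card_union_of_disjoint h2, hPQ]
    exact ⟨_, rfl⟩
  · intro d hd hdF hdXT h3 h4
    obtain ⟨h1, h2⟩ := mem_inter.1 hdXT
    by_contra hdM
    have hmem : d ∈ (G.ds \ F) \ M := mem_sdiff.2 ⟨mem_sdiff.2 ⟨hd, hdF⟩, hdM⟩
    by_cases h5 : G.pi d ∈ A
    · have h6 : d ∈ (((G.ds \ F) \ M).filter fun d => G.pi d ∈ Q).image G.al := by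
        rw [himg]
        exact mem_filter.2 ⟨hmem, (mP _).2 ⟨h1, h2, h5⟩⟩
      obtain ⟨e, he, hed⟩ := mem_image.1 h6
      obtain ⟨h7, h8⟩ := mem_filter.1 he
      have h9 := G.al_al e (mem_sdiff.1 (mem_sdiff.1 h7).1).1
      rw [hed] at h9
      rw [h9] at h4
      exact h4 ((mQ _).1 h8).2.1
    · have h6 := hQP d (mem_filter.2 ⟨hmem, (mQ _).2 ⟨h1, h2, h5⟩⟩)
      exact h4 ((mP _).1 h6).2.1

/-- SEALED UNIONS: in a minimal counterexample there is no nonempty union `T` of circuits, away from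
the star, with an alternating colouring `A`, `T \ A` such that every J-edge at `T \ A` ends outside
`fr` or in `A` -/
theorem MCS.no_sealed (h : G.MCS z t fr F jm sx ep m) {T A : Finset V}
    (hT : G.Adm fr F T) (hne : T.Nonempty) (hsx : Disjoint T sx) (hjm : Disjoint T jm)
    (hA : A ⊆ T) (alt : ∀ d ∈ F, G.pi d ∈ T → (G.pi d ∈ A ↔ G.pi (G.al d) ∉ A))
    (hseal : ∀ d ∈ G.ds, d ∉ F → G.pi d ∈ T → G.pi d ∉ A →
      G.pi (G.al d) ∉ fr ∨ G.pi (G.al d) ∈ A) : False := by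
  have hF := h.inst.fresh
  obtain ⟨M, hM, -, h3, X, hX, -, hO, hcl⟩ := h.absorb hT hne (Or.inl ⟨hsx, hjm⟩)
  obtain ⟨hev, hJ⟩ := hF.sealed hM hT hjm hA alt hseal hX hcl
  have hX1 : G.Adm fr F (X \ T) := by
    refine ⟨sdiff_subset.trans hX.sub, fun d hd hp => ?_⟩
    obtain ⟨h4, h5⟩ := mem_sdiff.1 hp
    refine mem_sdiff.2 ⟨hX.clo d hd h4, fun h6 => h5 ?_⟩
    have h7 := hT.clo _ (hF.Fal d hd) h6
    rwa [G.al_al d (hF.Fsub hd)] at h7
  have hO1 : Odd (X \ T).card ∨ (sx.Nonempty ∧ sx ⊆ X \ T) := by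
    rcases hO with hO | ⟨h4, h5⟩
    · left
      have h6 := card_sdiff_add_card_inter X T
      rw [← h6] at hO
      rcases Nat.even_or_odd (X \ T).card with h7 | h7
      · exact absurd (h7.add hev) (Nat.not_even_iff_odd.2 hO)
      · exact h7
    · right
      exact ⟨h4, fun v hv => mem_sdiff.2 ⟨h5 hv, fun h6 => disjoint_left.1 hsx h6 hv⟩⟩
  obtain ⟨d, hd, hdM⟩ := h3 (X \ T) hX1 disjoint_sdiff_self_left hO1
  obtain ⟨d1, d2, d3⟩ := mem_bd.1 hd
  obtain ⟨d4, d5⟩ := mem_sdiff.1 d2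
  apply hdM
  by_cases h4 : G.pi (G.al d) ∈ X
  · have h5 : G.pi (G.al d) ∈ T := by
      by_contra h6
      exact d3 (mem_sdiff.2 ⟨h4, h6⟩)
    have haj := G.al_mem d d1
    have haa := G.al_al d d1
    have h6 : G.al d ∉ F := by
      intro h7
      apply d5
      have h8 := hT.clo _ h7 h5
      rwa [haa] at h8
    have h7 := hJ (G.al d) haj h6 (mem_inter.2 ⟨h4, h5⟩) (by rw [haa]; exact d4)
      (by rw [haa]; exact d5)
    have h8 := hM.closed _ h7
    rwa [haa] at h8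
  · exact hcl d (mem_bd.2 ⟨d1, d4, h4⟩)

end MG

end RH
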