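import Pool.Agent.Lib.RH.P1

/-! The signed identity (helper18): on a closed union `X` of fresh circuits the F-edges and the
unused edges are both 2-regular (star vertices: one unused dart). For two sets `I`, `S` of
vertices the numbers of darts going out of `I` not to `S` and out of `S` not to `I`, in both dart
sets, satisfy one linear relation. No weights, no tokens, any perfect matching. -/

set_option autoImplicit false

namespace RH

open Finset Classical

namespace MG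

variable {V D : Type*} {G : MG V D} {z : D → ℝ} {t : V → ℝ} {fr : Finset V} {F : Finset D}
variable {jm sx : Finset V} {ep : V → ℕ} {m : ℕ} {M : Finset D}

/-- a symmetric set `T` of darts with `k v` darts at the vertices `v` of `I` and `S` -/
theorem signed_aux {T : Finset D} (hT : T ⊆ G.ds) (hal : ∀ d ∈ T, G.al d ∈ T) (k : V → ℕ)
    {I S : Finset V}
    (hk : ∀ v ∈ I ∪ S, (T.filter fun d => G.pi d = v).card = k v) :
    (T.filter fun d => G.pi d ∈ I ∧ G.pi (G.al d) ∉ S).card + ∑ v ∈ S, k v =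
      (T.filter fun d => G.pi d ∈ S ∧ G.pi (G.al d) ∉ I).card + ∑ v ∈ I, k v := by
  have h1 : ∀ A B : Finset V, (T.filter fun d => G.pi d ∈ A).card =
      (T.filter fun d => G.pi d ∈ A ∧ G.pi (G.al d) ∈ B).card +
      (T.filter fun d => G.pi d ∈ A ∧ G.pi (G.al d) ∉ B).card := by
    intro A B
    rw [← filter_filter, ← filter_filter]
    exact (card_filter_add_card_filter_not (s := T.filter fun d => G.pi d ∈ A)
      (fun d => G.pi (G.al d) ∈ B)).symm
  have h2 : (T.filter fun d => G.pi d ∈ I ∧ G.pi (G.al d) ∈ S).card =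
      (T.filter fun d => G.pi d ∈ S ∧ G.pi (G.al d) ∈ I).card := by
    refine card_bij (fun d _ => G.al d) ?_ ?_ ?_
    · intro d hd
      obtain ⟨h3, h4, h5⟩ := mem_filter.1 hd
      refine mem_filter.2 ⟨hal d h3, h5, ?_⟩
      rw [G.al_al d (hT h3)]
      exact h4
    · intro d hd e he h5
      have h6 := congrArg G.al h5
      rwa [G.al_al d (hT (mem_filter.1 hd).1), G.al_al e (hT (mem_filter.1 he).1)] at h6
    · intro d hd
      obtain ⟨h3, h4, h5⟩ := mem_filter.1 hd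
      refine ⟨G.al d, mem_filter.2 ⟨hal d h3, h5, ?_⟩, G.al_al d (hT h3)⟩
      rw [G.al_al d (hT h3)]
      exact h4
  have h3 : ∀ A : Finset V, A ⊆ I ∪ S → (T.filter fun d => G.pi d ∈ A).card = ∑ v ∈ A, k v := by
    intro A hA
    rw [card_fib]
    exact sum_congr rfl fun v hv => hk v (hA hv)
  have h4 := h1 I S
  have h5 := h1 S I
  rw [h3 I subset_union_left] at h4
  rw [h3 S subset_union_right] at h5
  omega

/-- unused darts at a closed set -/
theorem FrS.unused_card (hF : G.FrS z fr F jm) (hM : G.IsPM M) {v : V} (hv : v ∈ fr) :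
    ((G.ds.filter fun d => d ∉ M).filter fun d => G.pi d = v).card =
      2 - (if v ∈ jm then 1 else 0) := by
  have h1 : (M.filter fun d => G.pi d = v).card = 1 := hM.one v (hF.fsub hv)
  have h2 : (G.ds.filter fun d => G.pi d = v).card =
      (F.filter fun d => G.pi d = v).card + ((G.st v).filter fun d => d ∉ F).card := by
    have h3 : (G.ds.filter fun d => G.pi d = v) =
        (F.filter fun d => G.pi d = v) ∪ ((G.st v).filter fun d => d ∉ F) := by
      ext d
      rw [mem_union, mem_filter, mem_filter, mem_filter, mem_st]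
      constructor
      · rintro ⟨h4, h5⟩
        by_cases h6 : d ∈ F
        · exact Or.inl ⟨h6, h5⟩
        · exact Or.inr ⟨⟨h4, h5⟩, h6⟩
      · rintro (⟨h4, h5⟩ | ⟨h4, -⟩)
        · exact ⟨hF.Fsub h4, h5⟩
        · exact h4
    rw [h3, card_union_of_disjoint]
    rw [disjoint_left]
    intro d h4 h5
    exact (mem_filter.1 h5).2 (mem_filter.1 h4).1
  have h3 : ((G.ds.filter fun d => d ∉ M).filter fun d => G.pi d = v) =
      (G.ds.filter fun d => G.pi d = v) \ (M.filter fun d => G.pi d = v) := by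
    ext d
    rw [mem_filter, mem_filter, mem_sdiff, mem_filter, mem_filter]
    tauto
  have h4 : (M.filter fun d => G.pi d = v) ⊆ G.ds.filter fun d => G.pi d = v := by
    intro d hd
    obtain ⟨h5, h6⟩ := mem_filter.1 hd
    exact mem_filter.2 ⟨hM.sub h5, h6⟩
  rw [h3, card_sdiff_of_subset h4, h1, h2, hF.two v hv]
  by_cases h5 : v ∈ jm
  · rw [if_pos h5]
    have h6 : ((G.st v).filter fun d => d ∉ F) = ∅ := by
      rw [filter_eq_empty_iff]
      intro d hd h7
      exact h7 (hF.j0 v h5 d hd)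
    rw [h6, card_empty]
  · rw [if_neg h5, hF.jd v hv h5]

/-- **SIGNED IDENTITY** (helper18): `X` a union of fresh circuits all of whose boundary darts are in
the perfect matching `M`; `I`, `S` sets of vertices of `X` -/
theorem signed (hF : G.FrS z fr F jm) (hM : G.IsPM M) {X I S : Finset V} (hX : G.Adm fr F X)
    (hcl : ∀ d ∈ G.bd X, d ∈ M) (hI : I ⊆ X) (hS : S ⊆ X) :
    (G.ds.filter fun d => d ∉ M ∧ G.pi d ∈ I ∧ G.pi (G.al d) ∉ S).card +
        (F.filter fun d => G.pi d ∈ S ∧ G.pi (G.al d) ∉ I).card + (I ∩ jm).card =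
      (G.ds.filter fun d => d ∉ M ∧ G.pi d ∈ S ∧ G.pi (G.al d) ∉ I).card +
        (F.filter fun d => G.pi d ∈ I ∧ G.pi (G.al d) ∉ S).card + (S ∩ jm).card := by
  -- the F-darts
  have hFX : ∀ v ∈ I ∪ S, (F.filter fun d => G.pi d = v).card = 2 := by
    intro v hv
    exact hF.two v (hX.sub ((union_subset hI hS) hv))
  have h1 := signed_aux hF.Fsub hF.Fal (fun _ => 2) hFX
  -- the unused darts
  set T := (G.ds.filter fun d => d ∉ M).filter fun d => G.pi d ∈ X with hT
  have hTal : ∀ d ∈ T, G.al d ∈ T := by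
    intro d hd
    obtain ⟨h2, h3⟩ := mem_filter.1 hd
    obtain ⟨h4, h5⟩ := mem_filter.1 h2
    refine mem_filter.2 ⟨mem_filter.2 ⟨G.al_mem d h4, fun h6 => h5 ?_⟩, ?_⟩
    · have h7 := hM.closed _ h6
      rwa [G.al_al d h4] at h7
    · by_contra h6
      exact h5 (hcl d (mem_bd.2 ⟨h4, h3, h6⟩))
  have hTv : ∀ v ∈ I ∪ S, (T.filter fun d => G.pi d = v).card =
      2 - (if v ∈ jm then 1 else 0) := by
    intro v hv
    have hvX := (union_subset hI hS) hv
    rw [← hF.unused_card hM (hX.sub hvX), hT, filter_filter]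
    congr 1
    ext d
    simp only [mem_filter]
    constructor
    · rintro ⟨h2, -, h3⟩
      exact ⟨h2, h3⟩
    · rintro ⟨h2, h3⟩
      exact ⟨h2, h3 ▸ hvX, h3⟩
  have h2 := signed_aux (G := G) (T := T) (fun d hd => (mem_filter.1 (mem_filter.1 hd).1).1) hTal
    (fun v => 2 - (if v ∈ jm then 1 else 0)) hTv
  have hsum : ∀ A : Finset V, ∑ v ∈ A, (2 - (if v ∈ jm then 1 else 0)) + (A ∩ jm).card =
      ∑ v ∈ A, 2 := by
    intro A
    rw [card_eq_sum_ones, ← sum_filter_add_sum_filter_not A (fun v => v ∈ jm),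
      ← sum_filter_add_sum_filter_not A (fun v => v ∈ jm) (fun _ => 2)]
    have e1 : A ∩ jm = A.filter fun v => v ∈ jm := by
      ext v
      rw [mem_inter, mem_filter]
    rw [e1, sum_congr rfl (fun v hv => by rw [if_pos (mem_filter.1 hv).2] :
      ∀ v ∈ A.filter (fun v => v ∈ jm), 2 - (if v ∈ jm then 1 else 0) = 1),
      sum_congr rfl (fun v hv => by rw [if_neg (mem_filter.1 hv).2] :
      ∀ v ∈ A.filter (fun v => ¬ v ∈ jm), 2 - (if v ∈ jm then 1 else 0) = 2)]
    simp only [sum_const, smul_eq_mul]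
    omega
  have hIe := hsum I
  have hSe := hsum S
  have key : ∀ A B : Finset V, A ⊆ X → (T.filter fun d => G.pi d ∈ A ∧ G.pi (G.al d) ∉ B) =
      G.ds.filter fun d => d ∉ M ∧ G.pi d ∈ A ∧ G.pi (G.al d) ∉ B := by
    intro A B hA
    ext d
    rw [hT, mem_filter, mem_filter, mem_filter, mem_filter]
    constructor
    · rintro ⟨⟨⟨h3, h4⟩, -⟩, h5, h6⟩
      exact ⟨h3, h4, h5, h6⟩
    · rintro ⟨h3, h4, h5, h6⟩
      exact ⟨⟨⟨h3, h4⟩, hA h5⟩, h5, h6⟩
  rw [key I S hI, key S I hS] at h2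
  simp only [sum_const, smul_eq_mul] at h1 hIe hSe h2
  omega

/-- the same if the F-edges of `X` at `I` and `S` alternate between `I` and `S`, without star:
unused darts of `X` from `I` not to `S` are as many as unused darts from `S` not to `I` -/
theorem signed_alt (hF : G.FrS z fr F ∅) (hM : G.IsPM M) {X I S : Finset V} (hX : G.Adm fr F X)
    (hcl : ∀ d ∈ G.bd X, d ∈ M)
    (hcI : ∀ d ∈ F, G.pi d ∈ X → G.pi d ∈ I → G.pi (G.al d) ∈ S)
    (hcS : ∀ d ∈ F, G.pi d ∈ X → G.pi d ∈ S → G.pi (G.al d) ∈ I) :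
    (G.ds.filter fun d => d ∉ M ∧ G.pi d ∈ X ∧ G.pi d ∈ I ∧ G.pi (G.al d) ∉ S).card =
      (G.ds.filter fun d => d ∉ M ∧ G.pi d ∈ X ∧ G.pi d ∈ S ∧ G.pi (G.al d) ∉ I).card := by
  have h1 := signed hF hM hX hcl (I := X ∩ I) (S := X ∩ S) inter_subset_left inter_subset_left
  have hin : ∀ d ∈ G.ds, d ∉ M → G.pi d ∈ X → G.pi (G.al d) ∈ X := by
    intro d hd hdM hdX
    by_contra h2
    exact hdM (hcl d (mem_bd.2 ⟨hd, hdX, h2⟩))
  have e1 : ∀ A B : Finset V, (∀ d ∈ F, G.pi d ∈ X → G.pi d ∈ A → G.pi (G.al d) ∈ B) →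
      (F.filter fun d => G.pi d ∈ X ∩ A ∧ G.pi (G.al d) ∉ X ∩ B) = ∅ := by
    intro A B hc
    rw [filter_eq_empty_iff]
    rintro d hd ⟨h2, h3⟩
    obtain ⟨h4, h5⟩ := mem_inter.1 h2
    exact h3 (mem_inter.2 ⟨hX.clo d hd h4, hc d hd h4 h5⟩)
  have e2 : ∀ A B : Finset V,
      (G.ds.filter fun d => d ∉ M ∧ G.pi d ∈ X ∩ A ∧ G.pi (G.al d) ∉ X ∩ B) =
        G.ds.filter fun d => d ∉ M ∧ G.pi d ∈ X ∧ G.pi d ∈ A ∧ G.pi (G.al d) ∉ B := by
    intro A B
    refine filter_congr fun d hd => ?_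
    rw [mem_inter, mem_inter]
    constructor
    · rintro ⟨h2, ⟨h3, h4⟩, h5⟩
      exact ⟨h2, h3, h4, fun h6 => h5 ⟨hin d hd h2 h3, h6⟩⟩
    · rintro ⟨h2, h3, h4, h5⟩
      exact ⟨h2, ⟨h3, h4⟩, fun h6 => h5 h6.2⟩
  rw [e1 I S hcI, e1 S I hcS, e2, e2] at h1
  simpa using h1

/-- if every unused dart of `X` from `I` goes to `S`, then every unused dart of `X` from `S` goes
to `I` -/
theorem signed_none (hF : G.FrS z fr F ∅) (hM : G.IsPM M) {X I S : Finset V} (hX : G.Adm fr F X)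
    (hcl : ∀ d ∈ G.bd X, d ∈ M)
    (hcI : ∀ d ∈ F, G.pi d ∈ X → G.pi d ∈ I → G.pi (G.al d) ∈ S)
    (hcS : ∀ d ∈ F, G.pi d ∈ X → G.pi d ∈ S → G.pi (G.al d) ∈ I)
    (h : ∀ d ∈ G.ds, d ∉ M → G.pi d ∈ X → G.pi d ∈ I → G.pi (G.al d) ∈ S) :
    ∀ d ∈ G.ds, d ∉ M → G.pi d ∈ X → G.pi d ∈ S → G.pi (G.al d) ∈ I := by
  intro d hd h1 h2 h3
  by_contra h4
  have h5 := signed_alt hF hM hX hcl hcI hcS
  have h6 : (G.ds.filter fun d => d ∉ M ∧ G.pi d ∈ X ∧ G.pi d ∈ I ∧ G.pi (G.al d) ∉ S) = ∅ := by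
    rw [filter_eq_empty_iff]
    rintro e he ⟨h7, h8, h9, h10⟩
    exact h10 (h e he h7 h8 h9)
  rw [h6, card_empty] at h5
  have h7 : d ∈ G.ds.filter fun d => d ∉ M ∧ G.pi d ∈ X ∧ G.pi d ∈ S ∧ G.pi (G.al d) ∉ I :=
    mem_filter.2 ⟨hd, h1, h2, h3, h4⟩
  rw [card_eq_zero.1 h5.symm] at h7
  exact notMem_empty d h7

end MG

end RH
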