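import Pool.Agent.Lib.RH.StWalk

/-! THE STEP IN SUPPRESSED FORM (helper50): the token of `y` goes over `b` to `b'`; `y` and `b` are
deleted, the other neighbours of `y` and `b` are joined by a new edge. -/

set_option autoImplicit false

namespace RH

open Finset Classical

namespace MG

variable {V D : Type*}

/-- data of a suppressed step: `y` has the edges of `a` (to `b`) and `u`, `b` has the edges of `a`,
`e1` (killed) and `e2` (kept) -/
structure Sp (G : MG V D) (y b : V) (a u e1 e2 : D) : Prop where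
  a1 : a ∈ G.ds
  u1 : u ∈ G.ds
  f1 : e1 ∈ G.ds
  g1 : e2 ∈ G.ds
  pb : G.pi (G.al a) = b
  sy : ∀ d, d ∈ G.st y ↔ d = a ∨ d = u
  sb : ∀ d, d ∈ G.st b ↔ d = G.al a ∨ d = e1 ∨ d = e2
  au : a ≠ u
  ae1 : G.al a ≠ e1
  ae2 : G.al a ≠ e2
  ee : e1 ≠ e2
  ub : G.pi (G.al u) ≠ b
  ue : G.pi (G.al u) ≠ G.pi (G.al e2)

/-- the new fixed point free involution -/
noncomputable def spal (G : MG V D) (u e2 d : D) : D :=
  if d = G.al u then G.al e2 else if d = G.al e2 then G.al u else G.al d

variable {G : MG V D} {z z' : D → ℝ} {t t' : V → ℝ} {fr fr' : Finset V}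
variable {F : Finset D} {jm sx : Finset V} {ep : V → ℕ} {m k : ℕ} {X : Finset V}
variable {y b : V} {a u e1 e2 : D} {M M' : Finset D}

namespace Sp

theorem pa (h : Sp G y b a u e1 e2) : G.pi a = y := (mem_st.1 ((h.sy a).2 (Or.inl rfl))).2

theorem pu (h : Sp G y b a u e1 e2) : G.pi u = y := (mem_st.1 ((h.sy u).2 (Or.inr rfl))).2

theorem pf (h : Sp G y b a u e1 e2) : G.pi e1 = b :=
  (mem_st.1 ((h.sb e1).2 (Or.inr (Or.inl rfl)))).2

theorem pg (h : Sp G y b a u e1 e2) : G.pi e2 = b :=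
  (mem_st.1 ((h.sb e2).2 (Or.inr (Or.inr rfl)))).2

theorem yb (h : Sp G y b a u e1 e2) : y ≠ b := fun e =>
  G.noloop a h.a1 (by rw [h.pb, h.pa, e])

theorem at_y (h : Sp G y b a u e1 e2) {d : D} (hd : d ∈ G.ds) (hp : G.pi d = y) : d = a ∨ d = u :=
  (h.sy d).1 (mem_st.2 ⟨hd, hp⟩)

theorem at_b (h : Sp G y b a u e1 e2) {d : D} (hd : d ∈ G.ds) (hp : G.pi d = b) :
    d = G.al a ∨ d = e1 ∨ d = e2 :=
  (h.sb d).1 (mem_st.2 ⟨hd, hp⟩)

theorem pau (h : Sp G y b a u e1 e2) : G.pi (G.al u) ≠ y := fun e =>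
  G.noloop u h.u1 (by rw [e, h.pu])

theorem paf' (h : Sp G y b a u e1 e2) : G.pi (G.al e1) ≠ b := fun e =>
  G.noloop e1 h.f1 (by rw [e, h.pf])

theorem pag' (h : Sp G y b a u e1 e2) : G.pi (G.al e2) ≠ b := fun e =>
  G.noloop e2 h.g1 (by rw [e, h.pg])

theorem paf (h : Sp G y b a u e1 e2) : G.pi (G.al e1) ≠ y := fun e => by
  rcases h.at_y (G.al_mem _ h.f1) e with h1 | h1
  · exact h.ae1 (by rw [← h1, G.al_al _ h.f1])
  · exact h.ub (by rw [← h1, G.al_al _ h.f1, h.pf])

theorem pag (h : Sp G y b a u e1 e2) : G.pi (G.al e2) ≠ y := fun e => by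
  rcases h.at_y (G.al_mem _ h.g1) e with h1 | h1
  · exact h.ae2 (by rw [← h1, G.al_al _ h.g1])
  · exact h.ub (by rw [← h1, G.al_al _ h.g1, h.pg])

theorem ne_ug (h : Sp G y b a u e1 e2) : G.al u ≠ G.al e2 := fun e => h.ue (by rw [e])

/-- the new graph -/
noncomputable def gr (h : Sp G y b a u e1 e2) : MG V D where
  vs := G.vs.filter fun v => v ≠ y ∧ v ≠ b
  ds := G.ds.filter fun d => d = G.al u ∨ d = G.al e2 ∨
    (G.pi d ≠ y ∧ G.pi d ≠ b ∧ G.pi (G.al d) ≠ y ∧ G.pi (G.al d) ≠ b)
  pi := G.pi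
  al := G.spal u e2
  pi_mem := by
    intro d hd
    obtain ⟨h1, h2⟩ := mem_filter.1 hd
    refine mem_filter.2 ⟨G.pi_mem d h1, ?_⟩
    rcases h2 with h2 | h2 | h2
    · rw [h2]
      exact ⟨h.pau, h.ub⟩
    · rw [h2]
      exact ⟨h.pag, h.pag'⟩
    · exact ⟨h2.1, h2.2.1⟩
  al_mem := by
    intro d hd
    obtain ⟨h1, h2⟩ := mem_filter.1 hd
    unfold spal
    split_ifs with h3 h4
    · exact mem_filter.2 ⟨G.al_mem _ h.g1, Or.inr (Or.inl rfl)⟩
    · exact mem_filter.2 ⟨G.al_mem _ h.u1, Or.inl rfl⟩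
    · rcases h2 with h2 | h2 | h2
      · exact absurd h2 h3
      · exact absurd h2 h4
      · refine mem_filter.2 ⟨G.al_mem _ h1, Or.inr (Or.inr ?_)⟩
        rw [G.al_al d h1]
        exact ⟨h2.2.2.1, h2.2.2.2, h2.1, h2.2.1⟩
  al_al := by
    intro d hd
    obtain ⟨h1, h2⟩ := mem_filter.1 hd
    by_cases h3 : d = G.al u
    · have e1 : G.spal u e2 d = G.al e2 := if_pos h3
      rw [e1]
      unfold spal
      rw [if_neg (fun e => h.ne_ug e.symm), if_pos rfl, h3]
    · by_cases h4 : d = G.al e2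
      · have e1 : G.spal u e2 d = G.al u := by
          unfold spal
          rw [if_neg h3, if_pos h4]
        rw [e1]
        unfold spal
        rw [if_pos rfl, h4]
      · have e1 : G.spal u e2 d = G.al d := by
          unfold spal
          rw [if_neg h3, if_neg h4]
        rw [e1]
        rcases h2 with h2 | h2 | h2
        · exact absurd h2 h3
        · exact absurd h2 h4
        · have h5 : G.al d ≠ G.al u := fun e => h2.1 (by
            rw [← G.al_al d h1, e, G.al_al u h.u1, h.pu])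
          have h6 : G.al d ≠ G.al e2 := fun e => h2.2.1 (by
            rw [← G.al_al d h1, e, G.al_al e2 h.g1, h.pg])
          unfold spal
          rw [if_neg h5, if_neg h6, G.al_al d h1]
  noloop := by
    intro d hd
    obtain ⟨h1, h2⟩ := mem_filter.1 hd
    unfold spal
    split_ifs with h3 h4
    · rw [h3]
      exact fun e => h.ue e.symm
    · rw [h4]
      exact h.ue
    · exact G.noloop d h1

theorem gr_vs (h : Sp G y b a u e1 e2) {v : V} : v ∈ h.gr.vs ↔ v ∈ G.vs ∧ v ≠ y ∧ v ≠ b :=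
  mem_filter

theorem gr_ds (h : Sp G y b a u e1 e2) {d : D} : d ∈ h.gr.ds ↔ d ∈ G.ds ∧
    (d = G.al u ∨ d = G.al e2 ∨
      (G.pi d ≠ y ∧ G.pi d ≠ b ∧ G.pi (G.al d) ≠ y ∧ G.pi (G.al d) ≠ b)) :=
  mem_filter

theorem gr_pi (h : Sp G y b a u e1 e2) : h.gr.pi = G.pi := rfl

theorem al_u (h : Sp G y b a u e1 e2) : h.gr.al (G.al u) = G.al e2 := if_pos rfl

theorem al_g (h : Sp G y b a u e1 e2) : h.gr.al (G.al e2) = G.al u := by
  show G.spal u e2 (G.al e2) = G.al u
  unfold spal
  rw [if_neg (fun e => h.ne_ug e.symm), if_pos rfl]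

theorem al_o (h : Sp G y b a u e1 e2) {d : D} (h1 : d ≠ G.al u) (h2 : d ≠ G.al e2) :
    h.gr.al d = G.al d := by
  show G.spal u e2 d = G.al d
  unfold spal
  rw [if_neg h1, if_neg h2]

theorem gr_card (h : Sp G y b a u e1 e2) : h.gr.vs.card + 2 = G.vs.card := by
  have e1 : h.gr.vs = (G.vs.erase y).erase b := by
    ext v
    rw [h.gr_vs, mem_erase, mem_erase]
    tauto
  have hy : y ∈ G.vs := h.pa ▸ G.pi_mem a h.a1
  have hb : b ∈ G.vs := h.pb ▸ G.pi_mem _ (G.al_mem a h.a1)
  have h1 := card_erase_add_one hy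
  have h2 := card_erase_add_one (mem_erase.2 ⟨fun e => h.yb e.symm, hb⟩ : b ∈ G.vs.erase y)
  rw [e1]
  omega

/-- which darts of `G` are gone: those at `y`, those at `b`, and the other darts of `a`, `e1` -/
theorem gr_ds' (h : Sp G y b a u e1 e2) {d : D} : d ∈ h.gr.ds ↔
    d ∈ G.ds ∧ G.pi d ≠ y ∧ G.pi d ≠ b ∧ d ≠ G.al e1 := by
  rw [h.gr_ds]
  constructor
  · rintro ⟨h1, h2 | h2 | h2⟩
    · rw [h2]
      refine ⟨G.al_mem _ h.u1, h.pau, h.ub, fun e => ?_⟩
      have e' : u = e1 := by rw [← G.al_al u h.u1, e, G.al_al e1 h.f1]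
      exact h.yb (by rw [← h.pu, e', h.pf])
    · rw [h2]
      refine ⟨G.al_mem _ h.g1, h.pag, h.pag', fun e => ?_⟩
      have e' : e2 = e1 := by rw [← G.al_al e2 h.g1, e, G.al_al e1 h.f1]
      exact h.ee e'.symm
    · refine ⟨h1, h2.1, h2.2.1, fun e => h2.2.2.2 ?_⟩
      rw [e, G.al_al e1 h.f1, h.pf]
  · rintro ⟨h1, h2, h3, h4⟩
    refine ⟨h1, ?_⟩
    by_cases h5 : G.pi (G.al d) = y
    · rcases h.at_y (G.al_mem d h1) h5 with h6 | h6
      · exfalso
        exact h3 (by rw [← G.al_al d h1, h6, h.pb])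
      · left
        rw [← h6, G.al_al d h1]
    · by_cases h6 : G.pi (G.al d) = b
      · rcases h.at_b (G.al_mem d h1) h6 with h7 | h7 | h7
        · exfalso
          have e' : d = a := by rw [← G.al_al d h1, h7, G.al_al a h.a1]
          exact h2 (by rw [e', h.pa])
        · exfalso
          exact h4 (by rw [← h7, G.al_al d h1])
        · right; left
          rw [← h7, G.al_al d h1]
      · exact Or.inr (Or.inr ⟨h2, h3, h5, h6⟩)

/-- stars do not change, except that `b'` loses the dart of the killed edge -/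
theorem gr_st (h : Sp G y b a u e1 e2) {v : V} (hv : v ≠ y) (hb : v ≠ b) :
    h.gr.st v = (G.st v).filter fun d => d ≠ G.al e1 := by
  ext d
  rw [mem_st, h.gr_ds', mem_filter, mem_st, h.gr_pi]
  constructor
  · rintro ⟨⟨h1, h2, h3, h4⟩, h5⟩
    exact ⟨⟨h1, h5⟩, h4⟩
  · rintro ⟨⟨h1, h5⟩, h4⟩
    exact ⟨⟨h1, by rw [h5]; exact hv, by rw [h5]; exact hb, h4⟩, h5⟩

/-- tokens of the new graph -/
noncomputable def tk (_h : Sp G y b a u e1 e2) (t : V → ℝ) (v : V) : ℝ :=
  t v + if v = G.pi (G.al e1) then 1 else 0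

/-- the boundary of a set without `y`, `b` in the new graph -/
theorem gr_bd (h : Sp G y b a u e1 e2) (hX : ∀ v ∈ X, v ≠ y ∧ v ≠ b) :
    h.gr.bd X = (G.bd X).filter fun d => d ≠ G.al e1 ∧
      ¬ ((d = G.al u ∨ d = G.al e2) ∧ G.pi (G.al u) ∈ X ∧ G.pi (G.al e2) ∈ X) := by
  ext d
  rw [mem_bd, h.gr_ds', mem_filter, mem_bd, h.gr_pi]
  constructor
  · rintro ⟨⟨h1, h2, h3, h4⟩, h5, h6⟩
    by_cases h7 : d = G.al u
    · rw [h7, h.al_u] at h6
      refine ⟨⟨h1, h5, ?_⟩, h4, fun h8 => h6 h8.2.2⟩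
      rw [h7, G.al_al u h.u1, h.pu]
      exact fun h8 => (hX _ h8).1 rfl
    · by_cases h8 : d = G.al e2
      · rw [h8, h.al_g] at h6
        refine ⟨⟨h1, h5, ?_⟩, h4, fun h9 => h6 h9.2.1⟩
        rw [h8, G.al_al e2 h.g1, h.pg]
        exact fun h9 => (hX _ h9).2 rfl
      · rw [h.al_o h7 h8] at h6
        exact ⟨⟨h1, h5, h6⟩, h4, fun h9 => h9.1.elim h7 h8⟩
  · rintro ⟨⟨h1, h5, h6⟩, h4, h7⟩
    refine ⟨⟨h1, (hX _ h5).1, (hX _ h5).2, h4⟩, h5, ?_⟩
    by_cases h8 : d = G.al u
    · rw [h8, h.al_u]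
      intro h9
      exact h7 ⟨Or.inl h8, by rw [← h8]; exact h5, h9⟩
    · by_cases h9 : d = G.al e2
      · rw [h9, h.al_g]
        intro h10
        exact h7 ⟨Or.inr h9, h10, by rw [← h9]; exact h5⟩
      · rw [h.al_o h8 h9]
        exact h6

/-- VALUES after the step -/
theorem gr_val (h : Sp G y b a u e1 e2) (hX : ∀ v ∈ X, v ≠ y ∧ v ≠ b)
    (hzu : z (G.al u) = 1) (hzg : z (G.al e2) = 1) (hzf : z (G.al e1) = 1) :
    h.gr.val z (h.tk t) X = G.val z t X -
      if G.pi (G.al u) ∈ X ∧ G.pi (G.al e2) ∈ X then 2 else 0 := by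
  have hu : G.al u ∈ G.bd X ↔ G.pi (G.al u) ∈ X := by
    rw [mem_bd, G.al_al u h.u1, h.pu]
    exact ⟨fun k => k.2.1, fun k => ⟨G.al_mem _ h.u1, k, fun k2 => (hX _ k2).1 rfl⟩⟩
  have hg : G.al e2 ∈ G.bd X ↔ G.pi (G.al e2) ∈ X := by
    rw [mem_bd, G.al_al e2 h.g1, h.pg]
    exact ⟨fun k => k.2.1, fun k => ⟨G.al_mem _ h.g1, k, fun k2 => (hX _ k2).2 rfl⟩⟩
  have hf : G.al e1 ∈ G.bd X ↔ G.pi (G.al e1) ∈ X := by
    rw [mem_bd, G.al_al e1 h.f1, h.pf]
    exact ⟨fun k => k.2.1, fun k => ⟨G.al_mem _ h.f1, k, fun k2 => (hX _ k2).2 rfl⟩⟩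
  have hne1 : G.al e1 ≠ G.al u := fun e => by
    have e' : e1 = u := by rw [← G.al_al e1 h.f1, e, G.al_al u h.u1]
    exact h.yb (by rw [← h.pu, ← e', h.pf])
  have hne2 : G.al e1 ≠ G.al e2 := fun e => by
    have e' : e1 = e2 := by rw [← G.al_al e1 h.f1, e, G.al_al e2 h.g1]
    exact h.ee e'
  have hne3 := h.ne_ug
  have key : ∑ d ∈ h.gr.bd X, z d = ∑ d ∈ G.bd X, z d -
      (if G.pi (G.al e1) ∈ X then 1 else 0) -
      if G.pi (G.al u) ∈ X ∧ G.pi (G.al e2) ∈ X then 2 else 0 := by
    rw [h.gr_bd hX]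
    have e0 : ∀ d ∈ G.bd X, (if (d ≠ G.al e1 ∧
        ¬ ((d = G.al u ∨ d = G.al e2) ∧ G.pi (G.al u) ∈ X ∧ G.pi (G.al e2) ∈ X)) then z d else 0) =
        z d - (if d = G.al e1 then 1 else 0) -
          (if d = G.al u then (if G.pi (G.al u) ∈ X ∧ G.pi (G.al e2) ∈ X then 1 else 0) else 0) -
          (if d = G.al e2 then (if G.pi (G.al u) ∈ X ∧ G.pi (G.al e2) ∈ X then 1 else 0)
            else 0) := by
      intro d _
      by_cases k1 : d = G.al e1
      · subst k1
        simp [hne1, hne2, hzf]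
      · by_cases k2 : d = G.al u
        · subst k2
          by_cases k3 : G.pi (G.al u) ∈ X ∧ G.pi (G.al e2) ∈ X
          · simp [k1, hne3, hzu, k3]
          · simp [k1, hne3, k3]
        · by_cases k4 : d = G.al e2
          · subst k4
            by_cases k3 : G.pi (G.al u) ∈ X ∧ G.pi (G.al e2) ∈ X
            · simp [k1, k2, hzg, k3]
            · simp [k1, k2, k3]
          · simp [k1, k2, k4]
    rw [sum_filter, sum_congr rfl e0, sum_sub_distrib, sum_sub_distrib, sum_sub_distrib,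
      sum_ite_eq', sum_ite_eq', sum_ite_eq']
    simp only [hu, hg, hf]
    by_cases k1 : G.pi (G.al u) ∈ X <;> by_cases k2 : G.pi (G.al e2) ∈ X <;> simp [k1, k2] <;> ring
  unfold val tk
  rw [key, sum_add_distrib, sum_ite_eq' X (G.pi (G.al e1)) fun _ => (1 : ℝ)]
  ring

/-- the value of a set with `y`, `b` in terms of the value without -/
theorem val_yb (h : Sp G y b a u e1 e2) (hX : ∀ v ∈ X, v ≠ y ∧ v ≠ b)
    (hw : ∀ d ∈ G.ds, z (G.al d) = z d)
    (hzu : z (G.al u) = 1) (hzg : z (G.al e2) = 1) (hzf : z (G.al e1) = 1) :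
    G.val z t (insert y (insert b X)) = G.val z t X + t y + t b
      + (if G.pi (G.al u) ∈ X then -1 else 1) + (if G.pi (G.al e1) ∈ X then -1 else 1)
      + (if G.pi (G.al e2) ∈ X then -1 else 1) := by
  have hu : G.al u ∈ G.bd X ↔ G.pi (G.al u) ∈ X := by
    rw [mem_bd, G.al_al u h.u1, h.pu]
    exact ⟨fun k => k.2.1, fun k => ⟨G.al_mem _ h.u1, k, fun k2 => (hX _ k2).1 rfl⟩⟩
  have hg : G.al e2 ∈ G.bd X ↔ G.pi (G.al e2) ∈ X := by
    rw [mem_bd, G.al_al e2 h.g1, h.pg]
    exact ⟨fun k => k.2.1, fun k => ⟨G.al_mem _ h.g1, k, fun k2 => (hX _ k2).2 rfl⟩⟩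
  have hf : G.al e1 ∈ G.bd X ↔ G.pi (G.al e1) ∈ X := by
    rw [mem_bd, G.al_al e1 h.f1, h.pf]
    exact ⟨fun k => k.2.1, fun k => ⟨G.al_mem _ h.f1, k, fun k2 => (hX _ k2).2 rfl⟩⟩
  have hyX : y ∉ X := fun k => (hX _ k).1 rfl
  have hbX : b ∉ X := fun k => (hX _ k).2 rfl
  have hzu' : z u = 1 := by rw [← hw u h.u1]; exact hzu
  have hzg' : z e2 = 1 := by rw [← hw e2 h.g1]; exact hzg
  have hzf' : z e1 = 1 := by rw [← hw e1 h.f1]; exact hzf
  have hne1 : G.al e1 ≠ G.al u := fun e => by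
    have e' : e1 = u := by rw [← G.al_al e1 h.f1, e, G.al_al u h.u1]
    exact h.yb (by rw [← h.pu, ← e', h.pf])
  have hne2 : G.al e1 ≠ G.al e2 := fun e => by
    have e' : e1 = e2 := by rw [← G.al_al e1 h.f1, e, G.al_al e2 h.g1]
    exact h.ee e'
  have hne3 := h.ne_ug
  -- the boundary
  have hbd : ∀ d, d ∈ G.bd (insert y (insert b X)) ↔
      (d ∈ G.bd X ∧ d ≠ G.al u ∧ d ≠ G.al e1 ∧ d ≠ G.al e2) ∨
      (d = u ∧ G.pi (G.al u) ∉ X) ∨ (d = e1 ∧ G.pi (G.al e1) ∉ X) ∨
      (d = e2 ∧ G.pi (G.al e2) ∉ X) := by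
    intro d
    rw [mem_bd, mem_bd]
    simp only [mem_insert, not_or]
    constructor
    · rintro ⟨h1, h2 | h2 | h2, h3, h4, h5⟩
      · rcases h.at_y h1 h2 with h6 | h6
        · exfalso
          exact h4 (by rw [h6, h.pb])
        · subst h6
          exact Or.inr (Or.inl ⟨rfl, h5⟩)
      · rcases h.at_b h1 h2 with h6 | h6 | h6
        · exfalso
          exact h3 (by rw [h6, G.al_al a h.a1, h.pa])
        · subst h6
          exact Or.inr (Or.inr (Or.inl ⟨rfl, h5⟩))
        · subst h6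
          exact Or.inr (Or.inr (Or.inr ⟨rfl, h5⟩))
      · refine Or.inl ⟨⟨h1, h2, h5⟩, fun e => h3 ?_, fun e => h4 ?_, fun e => h4 ?_⟩
        · rw [e, G.al_al u h.u1, h.pu]
        · rw [e, G.al_al e1 h.f1, h.pf]
        · rw [e, G.al_al e2 h.g1, h.pg]
    · rintro (⟨⟨h1, h2, h3⟩, h4, h5, h6⟩ | ⟨rfl, h1⟩ | ⟨rfl, h1⟩ | ⟨rfl, h1⟩)
      · refine ⟨h1, Or.inr (Or.inr h2), fun e => ?_, fun e => ?_, h3⟩
        · rcases h.at_y (G.al_mem d h1) e with h7 | h7
          · have h8 : G.pi d = b := by rw [← G.al_al d h1, h7, h.pb]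
            exact (hX _ h2).2 h8
          · exact h4 (by rw [← h7, G.al_al d h1])
        · rcases h.at_b (G.al_mem d h1) e with h7 | h7 | h7
          · have h8 : d = a := by rw [← G.al_al d h1, h7, G.al_al a h.a1]
            exact (hX _ h2).1 (by rw [h8, h.pa])
          · exact h5 (by rw [← h7, G.al_al d h1])
          · exact h6 (by rw [← h7, G.al_al d h1])
      · exact ⟨h.u1, Or.inl h.pu, h.pau, h.ub, h1⟩
      · exact ⟨h.f1, Or.inr (Or.inl h.pf), h.paf, h.paf', h1⟩
      · exact ⟨h.g1, Or.inr (Or.inl h.pg), h.pag, h.pag', h1⟩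
  have hnu : u ∉ G.bd X := fun k => (hX _ (mem_bd.1 k).2.1).1 h.pu
  have hnf : e1 ∉ G.bd X := fun k => (hX _ (mem_bd.1 k).2.1).2 h.pf
  have hng : e2 ∉ G.bd X := fun k => (hX _ (mem_bd.1 k).2.1).2 h.pg
  have huf : u ≠ e1 := fun e => h.yb (by rw [← h.pu, e, h.pf])
  have hug : u ≠ e2 := fun e => h.yb (by rw [← h.pu, e, h.pg])
  have hee := h.ee
  obtain ⟨N, hN⟩ : ∃ N : Finset D, N = G.ds := ⟨_, rfl⟩
  have e1' : ∀ S : Finset D, S ⊆ G.ds → ∑ d ∈ S, z d = ∑ d ∈ G.ds, if d ∈ S then z d else 0 := by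
    intro S hS
    rw [← sum_filter]
    congr 1
    ext d
    rw [mem_filter]
    exact ⟨fun k => ⟨hS k, k⟩, fun k => k.2⟩
  have hsub : ∀ Y : Finset V, G.bd Y ⊆ G.ds := fun Y d hd => (mem_bd.1 hd).1
  have key : ∑ d ∈ G.bd (insert y (insert b X)), z d = ∑ d ∈ G.bd X, z d
      + (if G.pi (G.al u) ∈ X then -1 else 1) + (if G.pi (G.al e1) ∈ X then -1 else 1)
      + (if G.pi (G.al e2) ∈ X then -1 else 1) := by
    rw [e1' _ (hsub _), e1' _ (hsub X)]
    have e2' : ∀ d ∈ G.ds, (if d ∈ G.bd (insert y (insert b X)) then z d else 0) =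
        (if d ∈ G.bd X then z d else 0)
        + (if d = u then (if G.pi (G.al u) ∈ X then 0 else 1) else 0)
        + (if d = e1 then (if G.pi (G.al e1) ∈ X then 0 else 1) else 0)
        + (if d = e2 then (if G.pi (G.al e2) ∈ X then 0 else 1) else 0)
        - (if d = G.al u then (if G.pi (G.al u) ∈ X then 1 else 0) else 0)
        - (if d = G.al e1 then (if G.pi (G.al e1) ∈ X then 1 else 0) else 0)
        - (if d = G.al e2 then (if G.pi (G.al e2) ∈ X then 1 else 0) else 0) := by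
      intro d hd
      have q1 : u ≠ G.al u := fun e => G.noloop u h.u1 (by rw [← e])
      have q2 : u ≠ G.al e1 := fun e => h.paf (by rw [← e, h.pu])
      have q3 : u ≠ G.al e2 := fun e => h.pag (by rw [← e, h.pu])
      have q4 : e1 ≠ G.al u := fun e => h.ub (by rw [← e, h.pf])
      have q5 : e1 ≠ G.al e1 := fun e => h.paf' (by rw [← e, h.pf])
      have q6 : e1 ≠ G.al e2 := fun e => h.pag' (by rw [← e, h.pf])
      have q7 : e2 ≠ G.al u := fun e => h.ub (by rw [← e, h.pg])
      have q8 : e2 ≠ G.al e1 := fun e => h.paf' (by rw [← e, h.pg])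
      have q9 : e2 ≠ G.al e2 := fun e => h.pag' (by rw [← e, h.pg])
      by_cases k1 : d = u
      · subst k1
        simp only [hbd, hnu, huf, hug, q1, q2, q3, false_and, false_or, true_and, or_false,
          if_true, if_false, hzu']
        by_cases k2 : G.pi (G.al d) ∈ X <;> simp [k2]
      · by_cases k3 : d = e1
        · subst k3
          simp only [hbd, hnf, huf.symm, hee, q4, q5, q6, false_and, false_or, true_and, or_false,
            if_true, if_false, hzf']
          by_cases k2 : G.pi (G.al d) ∈ X <;> simp [k2]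
        · by_cases k4 : d = e2
          · subst k4
            simp only [hbd, hng, hug.symm, hee.symm, q7, q8, q9, false_and, false_or, true_and,
              if_true, if_false, hzg']
            by_cases k2 : G.pi (G.al d) ∈ X <;> simp [k2]
          · simp only [hbd, k1, k3, k4, false_and, or_false, if_false, add_zero]
            by_cases k5 : d = G.al u
            · subst k5
              simp only [hu, hne1.symm, hne3, ne_eq, not_true_eq_false, false_and, and_false,
                if_false, if_true, hzu]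
              by_cases k2 : G.pi (G.al u) ∈ X <;> simp [k2]
            · by_cases k6 : d = G.al e1
              · subst k6
                simp only [hf, hne1, hne2, ne_eq, not_true_eq_false, false_and, and_false,
                  if_false, if_true, hzf]
                by_cases k2 : G.pi (G.al e1) ∈ X <;> simp [k2]
              · by_cases k7 : d = G.al e2
                · subst k7
                  simp only [hg, hne2.symm, hne3.symm, ne_eq, not_true_eq_false, and_false,
                    if_false, if_true, hzg]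
                  by_cases k2 : G.pi (G.al e2) ∈ X <;> simp [k2]
                · simp [k5, k6, k7]
    rw [sum_congr rfl e2', sum_sub_distrib, sum_sub_distrib, sum_sub_distrib, sum_add_distrib,
      sum_add_distrib, sum_add_distrib, sum_ite_eq', sum_ite_eq', sum_ite_eq', sum_ite_eq',
      sum_ite_eq', sum_ite_eq']
    simp only [h.u1, h.f1, h.g1, G.al_mem _ h.u1, G.al_mem _ h.f1, G.al_mem _ h.g1, if_true]
    by_cases k1 : G.pi (G.al u) ∈ X <;> by_cases k2 : G.pi (G.al e2) ∈ X <;>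
      by_cases k3 : G.pi (G.al e1) ∈ X <;> simp [k1, k2, k3] <;> ring
  have hb' : b ∉ X := hbX
  have hy' : y ∉ insert b X := by
    rw [mem_insert]
    exact fun k => k.elim h.yb hyX
  unfold val
  rw [key, sum_insert hy', sum_insert hb']
  ring

/-- a matching of the new graph gives one of the old graph -/
noncomputable def up (_h : Sp G y b a u e1 e2) (M' : Finset D) : Finset D :=
  if G.al u ∈ M' then M' ∪ {u, e2} else M' ∪ {a, G.al a}

theorem up_mem (h : Sp G y b a u e1 e2) {d : D} (h1 : G.pi d ≠ y) (h2 : G.pi d ≠ b) :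
    d ∈ h.up M' ↔ d ∈ M' := by
  unfold up
  split_ifs with h3
  · rw [mem_union, mem_insert, mem_singleton]
    refine ⟨fun k => ?_, Or.inl⟩
    rcases k with k | k | k
    · exact k
    · exact absurd (by rw [k, h.pu]) h1
    · exact absurd (by rw [k, h.pg]) h2
  · rw [mem_union, mem_insert, mem_singleton]
    refine ⟨fun k => ?_, Or.inl⟩
    rcases k with k | k | k
    · exact k
    · exact absurd (by rw [k, h.pa]) h1
    · exact absurd (by rw [k, h.pb]) h2

theorem up_pm (h : Sp G y b a u e1 e2) (hM : h.gr.IsPM M') : G.IsPM (h.up M') := by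
  have hs : ∀ d ∈ M', d ∈ G.ds ∧ G.pi d ≠ y ∧ G.pi d ≠ b ∧ d ≠ G.al e1 := fun d hd =>
    h.gr_ds'.1 (hM.sub hd)
  have hug : G.al u ∈ M' ↔ G.al e2 ∈ M' := by
    constructor
    · intro k
      have := hM.closed _ k
      rwa [h.al_u] at this
    · intro k
      have := hM.closed _ k
      rwa [h.al_g] at this
  refine ⟨?_, ?_, ?_⟩
  · intro d hd
    unfold up at hd
    split_ifs at hd with h1
    · rw [mem_union, mem_insert, mem_singleton] at hd
      rcases hd with hd | rfl | rfl
      · exact (hs d hd).1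
      · exact h.u1
      · exact h.g1
    · rw [mem_union, mem_insert, mem_singleton] at hd
      rcases hd with hd | rfl | rfl
      · exact (hs d hd).1
      · exact h.a1
      · exact G.al_mem _ h.a1
  · intro d hd
    unfold up at hd ⊢
    split_ifs at hd ⊢ with h1
    · rw [mem_union, mem_insert, mem_singleton] at hd ⊢
      rcases hd with hd | rfl | rfl
      · by_cases k1 : d = G.al u
        · right; left
          rw [k1, G.al_al u h.u1]
        · by_cases k2 : d = G.al e2
          · right; right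
            rw [k2, G.al_al e2 h.g1]
          · left
            have := hM.closed d hd
            rwa [h.al_o k1 k2] at this
      · exact Or.inl h1
      · exact Or.inl (hug.1 h1)
    · rw [mem_union, mem_insert, mem_singleton] at hd ⊢
      rcases hd with hd | rfl | rfl
      · have k1 : d ≠ G.al u := fun e => h1 (e ▸ hd)
        have k2 : d ≠ G.al e2 := fun e => h1 (hug.2 (e ▸ hd))
        left
        have := hM.closed d hd
        rwa [h.al_o k1 k2] at this
      · exact Or.inr (Or.inr rfl)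
      · right; left
        exact G.al_al a h.a1
  · intro v hv
    by_cases k1 : v = y
    · rw [k1, card_eq_one]
      unfold up
      split_ifs with h1
      · refine ⟨u, ?_⟩
        ext d
        rw [mem_filter, mem_union, mem_insert, mem_singleton, mem_singleton]
        constructor
        · rintro ⟨k | k | k, k3⟩
          · exact absurd k3 (hs d k).2.1
          · exact k
          · exact absurd (by rw [← k3, k, h.pg]) h.yb
        · rintro rfl
          exact ⟨Or.inr (Or.inl rfl), h.pu⟩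
      · refine ⟨a, ?_⟩
        ext d
        rw [mem_filter, mem_union, mem_insert, mem_singleton, mem_singleton]
        constructor
        · rintro ⟨k | k | k, k3⟩
          · exact absurd k3 (hs d k).2.1
          · exact k
          · exact absurd (by rw [← k3, k, h.pb]) h.yb
        · rintro rfl
          exact ⟨Or.inr (Or.inl rfl), h.pa⟩
    · by_cases k2 : v = b
      · rw [k2, card_eq_one]
        unfold up
        split_ifs with h1
        · refine ⟨e2, ?_⟩
          ext d
          rw [mem_filter, mem_union, mem_insert, mem_singleton]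
          constructor
          · rintro ⟨k | k | k, k3⟩
            · exact absurd k3 (hs d k).2.2.1
            · exact absurd (by rw [← k3, k, h.pu]) h.yb
            · exact k
          · rintro rfl
            exact ⟨Or.inr (Or.inr rfl), h.pg⟩
        · refine ⟨G.al a, ?_⟩
          ext d
          rw [mem_filter, mem_union, mem_insert, mem_singleton]
          constructor
          · rintro ⟨k | k | k, k3⟩
            · exact absurd k3 (hs d k).2.2.1
            · exact absurd (by rw [← k3, k, h.pa]) h.yb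
            · exact k
          · rintro rfl
            exact ⟨Or.inr (Or.inr rfl), h.pb⟩
      · rw [← hM.one v (h.gr_vs.2 ⟨hv, k1, k2⟩)]
        congr 1
        ext d
        rw [mem_filter, mem_filter]
        constructor
        · rintro ⟨k3, k4⟩
          exact ⟨(h.up_mem (by rw [k4]; exact k1) (by rw [k4]; exact k2)).1 k3, k4⟩
        · rintro ⟨k3, k4⟩
          exact ⟨(h.up_mem (by rw [← h.gr_pi, k4]; exact k1)
            (by rw [← h.gr_pi, k4]; exact k2)).2 k3, k4⟩

/-- a closed set of the lifted matching is closed in the new graph -/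
theorem up_closed (h : Sp G y b a u e1 e2) (hX : ∀ v ∈ X, v ≠ y ∧ v ≠ b)
    (hc : ∀ d ∈ G.bd X, d ∈ h.up M') : ∀ d ∈ h.gr.bd X, d ∈ M' := by
  intro d hd
  rw [h.gr_bd hX] at hd
  have h1 := (mem_filter.1 hd).1
  have h2 := hX _ (mem_bd.1 h1).2.1
  exact (h.up_mem h2.1 h2.2).1 (hc d h1)

/-- the killed edge is not in the lifted matching -/
theorem up_f (h : Sp G y b a u e1 e2) (hM : h.gr.IsPM M') : G.al e1 ∉ h.up M' := by
  rw [h.up_mem h.paf h.paf']
  intro k
  exact (h.gr_ds'.1 (hM.sub k)).2.2.2 rfl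

/-- **LIFTING** good matchings. The classes outside `fr'` are linked to the outside by the dead
edge of `e1` -/
theorem up_good (h : Sp G y b a u e1 e2) (hF : G.FrS z fr F jm) (hy : y ∉ fr) (hb : b ∉ fr)
    (hza : 0 < z a) (hzu : 0 < z u) (hzg : 0 < z e2) (hz : ∀ d ∈ G.ds, z (G.al d) = z d)
    (hj : jm ⊆ fr' ∨ Disjoint jm fr')
    (hk : ∀ X, G.Adm fr F X → Even (X ∩ jm).card → ¬ X ⊆ fr' → G.al e1 ∈ G.bd X)
    (hM : h.gr.GoodS z fr' (F.filter fun d => G.pi d ∈ fr') (jm ∩ fr') M') :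
    G.GoodS z fr F jm (h.up M') where
  pm := h.up_pm hM.pm
  pos := fun d hd => by
    unfold up at hd
    split_ifs at hd with h1
    · rw [mem_union, mem_insert, mem_singleton] at hd
      rcases hd with hd | rfl | rfl
      · exact hM.pos d hd
      · exact hzu
      · exact hzg
    · rw [mem_union, mem_insert, mem_singleton] at hd
      rcases hd with hd | rfl | rfl
      · exact hM.pos d hd
      · exact hza
      · rw [hz a h.a1]
        exact hza
  hit := fun X hX ho => by
    by_contra hcon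
    push Not at hcon
    have hXn : ∀ v ∈ X, v ≠ y ∧ v ≠ b := fun v hv =>
      ⟨fun e => hy (e ▸ hX.sub hv), fun e => hb (e ▸ hX.sub hv)⟩
    have hev := hF.closed_jm (h.up_pm hM.pm) hX hcon
    by_cases hXf : X ⊆ fr'
    · have hX' : h.gr.Adm fr' (F.filter fun d => G.pi d ∈ fr') X := by
        refine ⟨hXf, fun d hd hp => ?_⟩
        have h1 := (mem_filter.1 hd).1
        have h2 : d ≠ G.al u := fun e => hy (by
          have h3 := hF.Ffr _ (hF.Fal d h1)
          rw [e, G.al_al u h.u1, h.pu] at h3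
          exact h3)
        have h4 : d ≠ G.al e2 := fun e => hb (by
          have h3 := hF.Ffr _ (hF.Fal d h1)
          rw [e, G.al_al e2 h.g1, h.pg] at h3
          exact h3)
        rw [h.al_o h2 h4]
        exact hX.clo d h1 hp
      have ho' : Odd X.card ∨ ((jm ∩ fr').Nonempty ∧ jm ∩ fr' ⊆ X) := by
        rcases ho with ho | ⟨h1, h2⟩
        · exact Or.inl ho
        · right
          rcases hj with hj | hj
          · rw [inter_eq_left.2 hj]
            exact ⟨h1, h2⟩
          · exfalso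
            obtain ⟨v, hv⟩ := h1
            exact disjoint_left.1 hj hv (hXf (h2 hv))
      obtain ⟨d, hd, hdM⟩ := hM.hit X hX' ho'
      exact hdM (h.up_closed hXn hcon d hd)
    · exact h.up_f hM.pm (hcon _ (hk X hX hev hXf))

end Sp

end MG

end RH
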