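import Pool.Agent.Lib.RH.StWalk

/-! Stuck states with allowed edges: `zA` is positive exactly at the allowed darts (the support of the
original weights without the killed links), the present weights `z` may vanish at allowed darts and
may be raised there again. -/

set_option autoImplicit false

namespace RH

open Finset Classical

namespace MG

variable {V D : Type*}

/-- a stuck state with allowed darts `0 < zA d` -/
structure StkA (G : MG V D) (zA z : D → ℝ) (t : V → ℝ) (fr : Finset V) (F : Finset D)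
    (jm : Finset V) (ep : V → ℕ) (m a : ℕ) : Prop where
  comb : G.InstC fr F jm ep m
  wt : G.Wt z t
  unit : ∀ d ∈ G.ds, G.pi d ∈ fr → z d = 1
  sA : ∀ d ∈ G.ds, 0 < z d → 0 < zA d
  ha : fr.card < a
  ih : IHa a m V D
  bad : ¬ ∃ M, G.GoodS zA fr F jm M

variable {G : MG V D} {z z' zA zA' : D → ℝ} {t t' : V → ℝ} {fr fr' : Finset V} {F : Finset D}
variable {jm sx : Finset V} {ep : V → ℕ} {m a : ℕ} {M : Finset D} {W : Finset V}

/-- the same darts allowed as used -/
theorem StkU.toA (h : StkU G z t fr F jm ep m a) : StkA G z z t fr F jm ep m a :=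
  ⟨h.comb, h.wt, h.unit, fun _ _ h0 => h0, h.ha, h.ih, h.bad⟩

/-- forget the allowed darts which are not used -/
theorem StkA.toU (h : StkA G zA z t fr F jm ep m a) : StkU G z t fr F jm ep m a :=
  ⟨h.comb, h.wt, h.unit, h.ha, h.ih, fun ⟨M, hM⟩ => h.bad ⟨M, hM.pm,
    fun d hd => h.sA d (hM.pm.sub hd) (hM.pos d hd), hM.hit⟩⟩

theorem StkA.toT (h : StkA G zA z t fr F jm ep m a) : G.InstT z t fr F jm jm ep m :=
  h.toU.toT

/-- at least 6 tokens -/
theorem StkA.tau_ge (h : StkA G zA z t fr F jm ep m a) : 6 ≤ ∑ v ∈ G.vs, t v :=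
  h.toU.tau_ge

/-- other weights, used darts allowed -/
theorem StkA.alt (h : StkA G zA z t fr F jm ep m a) (hw : G.Wt z' t')
    (hs : ∀ d ∈ G.ds, 0 < z' d → 0 < zA d) (hu : ∀ d ∈ G.ds, G.pi d ∈ fr → z' d = 1) :
    StkA G zA z' t' fr F jm ep m a :=
  ⟨h.comb, hw, hu, hs, h.ha, h.ih, h.bad⟩

/-- fewer allowed darts -/
theorem StkA.less (h : StkA G zA z t fr F jm ep m a)
    (hs : ∀ d ∈ G.ds, 0 < zA' d → 0 < zA d) (hs' : ∀ d ∈ G.ds, 0 < z d → 0 < zA' d) :
    StkA G zA' z t fr F jm ep m a :=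
  ⟨h.comb, h.wt, h.unit, hs', h.ha, h.ih, fun ⟨M, hM⟩ => h.bad ⟨M, hM.pm,
    fun d hd => hs d (hM.pm.sub hd) (hM.pos d hd), hM.hit⟩⟩

private theorem good_lift (hw : ∀ d ∈ G.ds, 0 < zA' d → 0 < zA d)
    (hF : G.FrS z fr F jm) (hj : jm ⊆ fr' ∨ Disjoint jm fr')
    (hk : ∀ X, G.Adm fr F X → Even (X ∩ jm).card → ¬ X ⊆ fr' → ∃ d ∈ G.bd X, ¬ 0 < zA' d)
    (hM : G.GoodS zA' fr' (F.filter fun d => G.pi d ∈ fr') (jm ∩ fr') M) :
    G.GoodS zA fr F jm M where
  pm := hM.pm
  pos := fun d hd => hw d (hM.pm.sub hd) (hM.pos d hd)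
  hit := fun X hX ho => by
    by_contra hcon
    push Not at hcon
    have hev := hF.closed_jm hM.pm hX hcon
    by_cases hXf : X ⊆ fr'
    · have hX' : G.Adm fr' (F.filter fun d => G.pi d ∈ fr') X :=
        ⟨hXf, fun d hd hp => hX.clo d (mem_filter.1 hd).1 hp⟩
      have ho' : Odd X.card ∨ ((jm ∩ fr').Nonempty ∧ jm ∩ fr' ⊆ X) := by
        rcases ho with ho | ⟨h1, h2⟩
        · exact Or.inl ho
        · right
          rcases hj with hj | hj
          · rw [inter_eq_left.2 hj]
            exact ⟨h1, h2⟩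
          · exfalso
            obtain ⟨v, hv⟩ := h1
            exact disjoint_left.1 hj hv (hXf (h2 hv))
      obtain ⟨d, hd, hdM⟩ := hM.hit X hX' ho'
      exact hdM (hcon d hd)
    · obtain ⟨d, hd, hz⟩ := hk X hX hev hXf
      exact hz (hM.pos d (hcon d hd))

/-- a step: new weights, fewer allowed darts and absorbed classes together -/
theorem StkA.step (h : StkA G zA z t fr F jm ep m a) (hw : G.Wt z' t')
    (hs : ∀ d ∈ G.ds, 0 < zA' d → 0 < zA d) (hs' : ∀ d ∈ G.ds, 0 < z' d → 0 < zA' d)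
    (hsub : fr' ⊆ fr)
    (hcl : ∀ d ∈ F, G.pi d ∈ fr' → G.pi (G.al d) ∈ fr')
    (hj : jm ⊆ fr' ∨ Disjoint jm fr')
    (hk : ∀ X, G.Adm fr F X → Even (X ∩ jm).card → ¬ X ⊆ fr' → ∃ d ∈ G.bd X, ¬ 0 < zA' d)
    (hu : ∀ d ∈ G.ds, G.pi d ∈ fr' → z' d = 1) :
    StkA G zA' z' t' fr' (F.filter fun d => G.pi d ∈ fr') (jm ∩ fr') ep m a := by
  refine ⟨h.comb.absorb hsub hcl hj, hw, hu, hs', (card_le_card hsub).trans_lt h.ha, h.ih, ?_⟩
  rintro ⟨M, hM⟩
  exact h.bad ⟨M, good_lift hs h.toT.fresh hj hk hM⟩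

/-- the allowed darts after the contraction of `W`: at the boundary of `W` only the used ones -/
noncomputable def cutA (G : MG V D) (zA z : D → ℝ) (W : Finset V) (d : D) : ℝ :=
  if G.pi d ∈ W ↔ G.pi (G.al d) ∈ W then zA d else z d

/-- **CONTRACTION**: the outer side of a tight set without crossing F-edges is stuck. `fr1` is the
largest union outside `W` (outside `W` and the star, if the star is not outside `W`) -/
theorem StkA.con (h : StkA G zA z t fr F jm ep m a) (hW : W ⊆ G.vs) (hWo : Odd W.card)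
    (h3 : G.val z t W = 3)
    (hFW : ∀ d ∈ F, G.pi d ∈ W → G.pi (G.al d) ∈ W) {ω : V} (hω : ω ∈ W) :
    ∃ fr1, fr1 ⊆ fr \ W ∧ (∀ d ∈ F, G.pi d ∈ fr1 → G.pi (G.al d) ∈ fr1) ∧
      ((jm ⊆ G.vs \ W → jm ⊆ fr1) ∧ (¬ jm ⊆ G.vs \ W → Disjoint jm fr1)) ∧
      (∀ X, G.Adm fr F X → Disjoint X W → (Disjoint X jm ∨ jm ⊆ G.vs \ W) → X ⊆ fr1) ∧
      StkA (G.con W ω hω hW) (G.cutA zA z W) z (tcon t W ω) fr1
        (F.filter fun d => G.pi d ∈ fr1) (jm ∩ fr1) ep m a := by
  have hC := h.comb
  have hw := h.wt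
  have hT := h.toT
  have hF := hT.fresh
  obtain ⟨B1, hB1⟩ : ∃ B1 : Finset V, B1 = W ∪ if jm ⊆ G.vs \ W then ∅ else jm := ⟨_, rfl⟩
  obtain ⟨fr1, hs1, hcl1, hd1, hadm1⟩ := exists_avoid G fr F B1
  have hWB1 : W ⊆ B1 := by rw [hB1]; exact subset_union_left
  have hdW : Disjoint fr1 W := disjoint_of_subset_right hWB1 hd1
  have hFW' : ∀ d ∈ F, G.pi d ∉ W → G.pi (G.al d) ∉ W := by
    intro d hd h1 h2
    have h4 := hFW _ (hF.Fal d hd) h2
    rw [G.al_al d (hF.Fsub hd)] at h4
    exact h1 h4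
  have hadmU : G.Adm fr F (fr \ W) :=
    ⟨sdiff_subset, fun d hd hp => mem_sdiff.2
      ⟨hF.Ffr _ (hF.Fal d hd), hFW' d hd (mem_sdiff.1 hp).2⟩⟩
  have hj1 : (jm ⊆ G.vs \ W → jm ⊆ fr1) ∧ (¬ jm ⊆ G.vs \ W → Disjoint jm fr1) := by
    constructor
    · intro hout
      rw [if_pos hout, union_empty] at hB1
      have h4 : Disjoint (fr \ W) B1 := by
        rw [hB1]
        exact sdiff_disjoint
      have h5 := ((hadm1 (fr \ W)).2 ⟨hadmU, h4⟩).sub
      exact fun v hv => h5 (mem_sdiff.2 ⟨hF.jms hv, (mem_sdiff.1 (hout hv)).2⟩)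
    · intro hout
      rw [if_neg hout] at hB1
      have h4 : jm ⊆ B1 := by rw [hB1]; exact subset_union_right
      exact (disjoint_of_subset_right h4 hd1).symm
  have hj1' : jm ⊆ fr1 ∨ Disjoint jm fr1 := by
    by_cases hout : jm ⊆ G.vs \ W
    · exact Or.inl (hj1.1 hout)
    · exact Or.inr (hj1.2 hout)
  refine ⟨fr1, fun v hv => mem_sdiff.2 ⟨hs1 hv, fun h1 => disjoint_left.1 hdW hv h1⟩, hcl1, hj1,
    ?_, con_instC hω hW hC hWo hs1 hcl1 hd1 hWB1 hj1', hw.con hω hW hWo h3, ?_, ?_,
    (card_le_card hs1).trans_lt h.ha, h.ih, ?_⟩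
  · intro X hX hXW hXj
    refine ((hadm1 X).2 ⟨hX, ?_⟩).sub
    rw [hB1, disjoint_union_right]
    refine ⟨hXW, ?_⟩
    split_ifs with hout
    · exact disjoint_empty_right _
    · exact hXj.resolve_right hout
  · intro d hd hp
    have h1 : d ∈ G.ds := mem_of_mem_filter d hd
    by_cases h4 : G.pi d ∈ W
    · have h5 : (G.con W ω hω hW).pi d = ω := by simp [MG.con, h4]
      rw [h5] at hp
      exact absurd hω (disjoint_left.1 hdW hp)
    · rw [con_pi_not hω hW h4] at hp
      exact h.unit d h1 (hs1 hp)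
  · intro d hd h0
    have h1 : d ∈ G.ds := mem_of_mem_filter d hd
    unfold cutA
    split_ifs
    · exact h.sA d h1 h0
    · exact h0
  · rintro ⟨M1, hM1⟩
    apply h.bad
    obtain ⟨M, f, z2, h1, h2, h3', h4, h5, h6, h7, h8, h9, h10⟩ :=
      glueO hC h.ih h.ha hW hWo hFW hω hB1 hcl1 hd1 hadm1 hM1
        (Q := fun f z2 => ∀ d, G.pi d ∈ W → G.pi (G.al d) ∈ W → z2 d = z d) (by
          intro f hf hfW hfU hzf'
          have hzf : 0 < z f := by
            unfold cutA at hzf'
            rwa [if_neg (fun k => hfU (k.1 hfW))] at hzf'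
          have e2 : 0 ≤ z f := hw.z0 f hf
          have e3 : 0 ≤ t (G.pi f) := hw.t0 _ (hW hfW)
          have hP : ((jm ∩ W) ∪ G.lp fr W f).card ≤ 2 := by
            have h1 := lp_boundT hf hW hfW hfU hT h3 hzf (T := jm ∩ W) inter_subset_right
            have h2 : ∑ v ∈ jm ∩ W, t v = (jm ∩ W).card := by
              have h4 : ∑ v ∈ jm ∩ W, t v = ∑ _v ∈ jm ∩ W, (1 : ℝ) :=
                sum_congr rfl fun v hv => hF.t_jm hw (mem_inter.1 hv).1
              rw [h4, sum_const, nsmul_eq_mul, mul_one]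
            rw [h2] at h1
            have h5 : (((G.lp fr W f).card + (jm ∩ W).card : ℕ) : ℝ) < (3 : ℕ) := by
              push_cast
              exact h1
            have h6 := Nat.cast_lt.1 h5
            have h7 := card_union_le (jm ∩ W) (G.lp fr W f)
            omega
          refine ⟨hP, G.zN z f (min 1 (z f + t (G.pi f))), _, hw.innN hf hW hfW hfU
            (le_min zero_le_one (by linarith)) (min_le_right _ _), ?_,
            innN_unit hf hW hfW hfU hF hFW hw (Or.inr rfl), fun _ _ => Or.inl ?_,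
            fun d d1 d2 => zN_in hfU d1 d2⟩
          · rw [innN_tau hf hW hfW hfU hw (le_min zero_le_one (by linarith)) (min_le_right _ _),
              h3]
            have : 0 < min 1 (z f + t (G.pi f)) := lt_min zero_lt_one (by linarith)
            linarith
          · rw [zN_f]
            exact min_le_left _ _)
    refine ⟨M, h1, fun d hd => ?_, h2⟩
    by_cases hi : G.pi d ∈ W ∧ G.pi (G.al d) ∈ W
    · refine h.sA d (h1.sub hd) ?_
      rw [← h7 d hi.1 hi.2]
      exact h10 d hd hi.1 hi.2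
    · have h11 := h9 d hd hi
      unfold cutA at h11
      split_ifs at h11
      · exact h11
      · exact h.sA d (h1.sub hd) h11

/-- ONE STEP inside the part outside `fr`, any weight of the raised edge -/
theorem StkA.walk (h : StkA G zA z t fr F jm ep m a) {e f : D} (he : e ∈ G.ds) (hf : f ∈ G.ds)
    (hef : G.pi f = G.pi (G.al e)) (hy : G.pi e ∉ fr) (hb : G.pi f ∉ fr)
    (hb' : G.pi (G.al f) ∉ fr) (hze : 0 < zA e ∧ 0 < zA (G.al e)) (hzf : 1 ≤ z f)
    (ht : 1 ≤ t (G.pi e))
    (h5 : ∀ W ⊆ G.vs, Odd W.card → G.pi e ∈ W → G.pi f ∈ W → G.pi (G.al f) ∉ W →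
      5 ≤ G.val z t W) :
    StkA G zA (G.wz z e f) (G.wtok t e f) fr F jm ep m a := by
  refine h.alt (walk_wt h.wt he hf hef hzf ht h5) ?_ ?_
  · intro d hd hz
    by_cases h1 : d = e ∨ d = G.al e
    · rcases h1 with h1 | h1
      · rw [h1]
        exact hze.1
      · rw [h1]
        exact hze.2
    · have h2 : G.evec e d = 0 := if_neg h1
      have h3 := evec_nonneg (G := G) f d
      have h4 : 0 < z d + G.evec e d - G.evec f d := hz
      exact h.sA d hd (by linarith)
  · intro d hd hp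
    have h1 : G.evec e d = 0 := evec_of_ne (fun k => hy (k ▸ hp))
      (fun k => hb (by rw [hef, ← k]; exact hp))
    have h2 : G.evec f d = 0 := evec_of_ne (fun k => hb (k ▸ hp)) (fun k => hb' (k ▸ hp))
    show z d + G.evec e d - G.evec f d = 1
    rw [h1, h2, h.unit d hd hp]
    ring

/-- the allowed darts after killing the edge of `f` -/
noncomputable def killA (G : MG V D) (zA : D → ℝ) (f d : D) : ℝ :=
  if d = f ∨ d = G.al f then 0 else zA d

/-- ONE STEP into a fresh class `C`, any weight of the raised edge: the leg `f` is killed (it is no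
longer allowed), the class is absorbed (with the star, if the star meets `C`) -/
theorem StkA.walkF (h : StkA G zA z t fr F jm ep m a) {e f : D} (he : e ∈ G.ds) (hf : f ∈ G.ds)
    (hef : G.pi f = G.pi (G.al e)) (hy : G.pi e ∉ fr) (hb : G.pi f ∉ fr)
    (hze : 0 < zA e ∧ 0 < zA (G.al e)) (ht : 1 ≤ t (G.pi e))
    (h5 : ∀ W ⊆ G.vs, Odd W.card → G.pi e ∈ W → G.pi f ∈ W → G.pi (G.al f) ∉ W →
      5 ≤ G.val z t W)
    {C : Finset V} (hb' : G.pi (G.al f) ∈ C) (hC : G.Adm fr F C)
    (hmin : ∀ X, G.Adm fr F X → (X ∩ C).Nonempty → C ⊆ X) :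
    ∃ fr', fr' ⊆ fr \ C ∧ (∀ d ∈ F, G.pi d ∈ fr' → G.pi (G.al d) ∈ fr') ∧
      ((Disjoint jm C → jm ⊆ fr') ∧ (¬ Disjoint jm C → Disjoint jm fr')) ∧
      (∀ X, G.Adm fr F X → Disjoint X C → (Disjoint X jm ∨ Disjoint jm C) → X ⊆ fr') ∧
      StkA G (G.killA zA f) (G.wz z e f) (G.wtok t e f) fr' (F.filter fun d => G.pi d ∈ fr')
        (jm ∩ fr') ep m a := by
  have hFr := h.toT.fresh
  have haf := G.al_mem f hf
  have hb'fr := hC.sub hb'
  have hzaf : z (G.al f) = 1 := h.unit _ haf hb'fr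
  have hzf : z f = 1 := by rw [← hzaf, h.wt.sym f hf]
  obtain ⟨B, hB⟩ : ∃ B : Finset V, B = C ∪ if Disjoint jm C then ∅ else jm := ⟨_, rfl⟩
  have hCB : C ⊆ B := by
    rw [hB]
    exact subset_union_left
  obtain ⟨fr', hs, hcl, hd, hadm⟩ := exists_avoid G fr F B
  have hin : ∀ X, G.Adm fr F X → Disjoint X B → X ⊆ fr' := fun X hX hXB =>
    ((hadm X).2 ⟨hX, hXB⟩).sub
  have hsub : fr' ⊆ fr \ C := fun v hv => mem_sdiff.2
    ⟨hs hv, fun h1 => disjoint_left.1 hd hv (hCB h1)⟩
  have hj1 : Disjoint jm C → jm ⊆ fr' := by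
    intro h1 v hv
    refine hin _ (hFr.adm_compl hC) ?_ (mem_sdiff.2
      ⟨hFr.jms hv, fun h3 => disjoint_left.1 h1 hv h3⟩)
    rw [hB, if_pos h1, union_empty]
    exact sdiff_disjoint
  have hj2 : ¬ Disjoint jm C → Disjoint jm fr' := by
    intro h1
    rw [disjoint_left]
    intro v hv hv'
    refine disjoint_left.1 hd hv' ?_
    rw [hB, if_neg h1]
    exact mem_union_right _ hv
  have hze1 : ∀ d, d = e ∨ d = G.al e → ¬ (d = f ∨ d = G.al f) → 0 < G.killA zA f d := by
    intro d h1 h2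
    unfold killA
    rw [if_neg h2]
    rcases h1 with h1 | h1
    · rw [h1]
      exact hze.1
    · rw [h1]
      exact hze.2
  have hkillz : ∀ d ∈ G.ds, (d = f ∨ d = G.al f) → G.wz z e f d = 0 := by
    intro d hd' h1
    have h2 : G.evec f d = 1 := if_pos h1
    have h3 : G.evec e d = 0 := by
      rcases h1 with h1 | h1
      · refine evec_of_ne (fun k => ?_) (fun k => ?_)
        · -- `f = e` is a loop
          have h4 : G.pi e = G.pi (G.al e) := by rw [← hef, ← h1, k]
          exact G.noloop e he h4.symm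
        · have h4 : f = G.al e := h1.symm.trans k
          rw [h4, G.al_al e he] at hb'
          exact hy (hC.sub hb')
      · refine evec_of_ne (fun k => ?_) (fun k => ?_)
        · exact hy (by rw [← k, h1]; exact hb'fr)
        · refine hb ?_
          rw [hef, ← k, h1]
          exact hb'fr
    have h4 : z d = 1 := by
      rcases h1 with h1 | h1
      · rw [h1]
        exact hzf
      · rw [h1]
        exact hzaf
    unfold wz
    rw [h2, h3, h4]
    ring
  refine ⟨fr', hsub, hcl, ⟨hj1, hj2⟩, ?_, ?_⟩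
  · intro X hX hXC hXj
    refine hin X hX ?_
    rw [hB, disjoint_union_right]
    refine ⟨hXC, ?_⟩
    split_ifs with h1
    · exact disjoint_empty_right _
    · rcases hXj with h2 | h2
      · exact h2
      · exact absurd h2 h1
  · refine h.step (walk_wt h.wt he hf hef hzf.ge ht h5) ?_ ?_ hs hcl ?_ ?_ ?_
    · intro d hd' hz
      unfold killA at hz
      split_ifs at hz
      · exact absurd hz (lt_irrefl _)
      · exact hz
    · intro d hd' hz
      have h0 : ¬ (d = f ∨ d = G.al f) := fun k => by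
        rw [hkillz d hd' k] at hz
        exact lt_irrefl _ hz
      by_cases h1 : d = e ∨ d = G.al e
      · exact hze1 d h1 h0
      · have h2 : G.evec e d = 0 := if_neg h1
        have h3 := evec_nonneg (G := G) f d
        have h4 : 0 < z d + G.evec e d - G.evec f d := hz
        unfold killA
        rw [if_neg h0]
        exact h.sA d hd' (by linarith)
    · by_cases h1 : Disjoint jm C
      · exact Or.inl (hj1 h1)
      · exact Or.inr (hj2 h1)
    · intro X hX hev hXf
      have hXB : ¬ Disjoint X B := fun h1 => hXf (hin X hX h1)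
      have hXC : (X ∩ C).Nonempty := by
        rw [not_disjoint_iff] at hXB
        obtain ⟨v, hv, hvB⟩ := hXB
        rw [hB, mem_union] at hvB
        rcases hvB with h1 | h1
        · exact ⟨v, mem_inter.2 ⟨hv, h1⟩⟩
        · by_cases h2 : Disjoint jm C
          · rw [if_pos h2] at h1
            exact absurd h1 (notMem_empty _)
          · rw [if_neg h2] at h1
            have h3 : 0 < (X ∩ jm).card := card_pos.2 ⟨v, mem_inter.2 ⟨hv, h1⟩⟩
            have h4 : jm.card = 2 := by
              rcases h.comb.jm2 with h4 | h4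
              · rw [h4] at h1
                exact absurd h1 (notMem_empty _)
              · exact h4
            have h5 : (X ∩ jm).card ≤ jm.card := card_le_card inter_subset_right
            rw [Nat.even_iff] at hev
            have h6 : X ∩ jm = jm := eq_of_subset_of_card_le inter_subset_right (by omega)
            rw [not_disjoint_iff] at h2
            obtain ⟨u, hu, huC⟩ := h2
            rw [← h6] at hu
            exact ⟨u, mem_inter.2 ⟨(mem_inter.1 hu).1, huC⟩⟩
      have hCX := hmin X hX hXC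
      refine ⟨G.al f, mem_bd.2 ⟨haf, hCX hb', ?_⟩, ?_⟩
      · rw [G.al_al f hf]
        exact fun h1 => hb (hX.sub h1)
      · unfold killA
        rw [if_pos (Or.inr rfl)]
        exact lt_irrefl _
    · intro d hd' hp
      have hp' := hs hp
      have h1 : G.evec e d = 0 := evec_of_ne (fun k => hy (k ▸ hp'))
        (fun k => hb (by rw [hef, ← k]; exact hp'))
      have h2 : G.evec f d = 0 := evec_of_ne (fun k => hb (k ▸ hp')) (fun k => by
        rw [k] at hp
        exact disjoint_left.1 hd hp (hCB hb'))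
      show z d + G.evec e d - G.evec f d = 1
      rw [h1, h2, h.unit d hd' hp']
      ring

end MG

end RH
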