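import Pool.Agent.Lib.RH.StWalk
import Pool.Agent.Lib.RH.T6

/-! The step of the walk in a state with six tokens (helper8's lemma X, helper72's two exits).
`no_pm_con`: if a tight set `W` has an outer side without a perfect matching in the support, then
every perfect matching `N` of the support contains all positive darts of the boundary of `W`.
`Six.lemX`: of the two exits of `b` which are not in `N` one has only outer sides with a perfect
matching. -/

set_option autoImplicit false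

namespace RH

open Finset Classical

namespace MG

variable {V D : Type*} {G : MG V D} {z z' : D → ℝ} {t t' : V → ℝ}
variable {N : Finset D} {W : Finset V} {ω : V}

theorem int_one_le {x : ℝ} (hx : ∃ k : ℤ, x = k) (h0 : 0 < x) : 1 ≤ x := by
  obtain ⟨k, rfl⟩ := hx
  have h1 : 0 < k := by exact_mod_cast h0
  exact_mod_cast h1

theorem IsPM.vs_even (hN : G.IsPM N) : Even G.vs.card := by
  have h1 := hN.parity (Finset.Subset.refl G.vs)
  have h2 : G.bd G.vs = ∅ := by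
    rw [eq_empty_iff_forall_notMem]
    intro d hd
    obtain ⟨h3, -, h4⟩ := mem_bd.1 hd
    exact h4 (G.pi_mem _ (G.al_mem _ h3))
  rw [h2, filter_empty, card_empty] at h1
  rw [Nat.even_iff]
  omega

/-- two darts of a perfect matching at the same vertex are equal -/
theorem IsPM.eq_of_pi (hN : G.IsPM N) {d e : D} (hd : d ∈ N) (he : e ∈ N)
    (h : G.pi d = G.pi e) : d = e := by
  have h1 := hN.one _ (G.pi_mem _ (hN.sub he))
  obtain ⟨x, hx⟩ := card_eq_one.1 h1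
  have h2 : d ∈ N.filter fun d => G.pi d = G.pi e := mem_filter.2 ⟨hd, h⟩
  have h3 : e ∈ N.filter fun d => G.pi d = G.pi e := mem_filter.2 ⟨he, rfl⟩
  rw [hx, mem_singleton] at h2 h3
  rw [h2, h3]

/-- a tight set whose outer side has no perfect matching in the support: it has no token, and its
boundary is in every perfect matching of the support -/
theorem no_pm_con (hw : G.Wt z t) (ht : ∑ v ∈ G.vs, t v ≤ 6)
    (hz : ∀ d ∈ G.ds, ∃ k : ℤ, z d = k) (hN : G.IsPM N) (hNz : ∀ d ∈ N, 0 < z d)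
    (hW : W ⊆ G.vs) (hWo : Odd W.card) (h3 : G.val z t W = 3) (hω : ω ∈ W)
    (hno : ¬ ∃ M, (G.con W ω hω hW).IsPM M ∧ ∀ d ∈ M, 0 < z d) :
    (∀ v ∈ W, t v = 0) ∧ ∑ d ∈ G.bd W, z d = 3 ∧
      ((G.bd W).filter fun d => d ∈ N).card = 3 ∧ ∀ d ∈ G.bd W, 0 < z d → d ∈ N ∧ z d = 1 := by
  have hwc := hw.con hω hW hWo h3
  have hevc := con_even hω hW hN.vs_even hWo
  obtain ⟨S, C, hSs, hcard, hX, hdis, hout, -, -⟩ := tutte6 (G.con W ω hω hW) z (tcon t W ω) hevc
    hwc (by rw [con_tau]; exact ht) hno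
  have hpi : ∀ d, (G.con W ω hω hW).pi d = if G.pi d ∈ W then ω else G.pi d := fun d => rfl
  have hal : ∀ d, (G.con W ω hω hW).al d = G.al d := fun d => rfl
  -- a matching dart leaves every component
  have hsel : ∀ X ∈ C, ∃ d, d ∈ (G.con W ω hω hW).bd X ∧ d ∈ N := by
    intro X hXC
    obtain ⟨h1, h2, -, -⟩ := hX X hXC
    have h4 := hN.parity (pre_sub hω hW h1)
    have h5 := (pre_odd hω hW h1 hWo).2 h2
    rw [Nat.odd_iff] at h5
    have h6 : 0 < ((G.bd (pre W ω X)).filter fun d => d ∈ N).card := by omega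
    obtain ⟨d, hd⟩ := card_pos.1 h6
    rw [mem_filter] at hd
    exact ⟨d, by rw [con_bd hω hW h1]; exact hd.1, hd.2⟩
  have hne : Nonempty D := by
    obtain ⟨X, hXC⟩ := card_pos.1 (show 0 < C.card by omega)
    obtain ⟨d, -, -⟩ := hsel X hXC
    exact ⟨d⟩
  choose! φ hφ using hsel
  have hφX : ∀ X ∈ C, (G.con W ω hω hW).pi (φ X) ∈ X := fun X hXC =>
    (mem_bd.1 (hφ X hXC).1).2.1
  have hφN : ∀ X ∈ C, G.al (φ X) ∈ N := fun X hXC => hN.closed _ (hφ X hXC).2
  have hφS : ∀ X ∈ C, (G.con W ω hω hW).pi (G.al (φ X)) ∈ S := fun X hXC =>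
    hout X hXC _ (hφ X hXC).1 (hNz _ (hφ X hXC).2)
  have hφinj : Set.InjOn (fun X => G.al (φ X)) C := by
    intro X hXC Y hYC h
    by_contra hne
    have h1 : φ X = φ Y := by
      have h2 : G.al (G.al (φ X)) = G.al (G.al (φ Y)) := by
        rw [show G.al (φ X) = G.al (φ Y) from h]
      rwa [G.al_al _ (hN.sub (hφ X hXC).2), G.al_al _ (hN.sub (hφ Y hYC).2)] at h2
    have h3 := hφX X hXC
    rw [h1] at h3
    exact disjoint_left.1 (hdis X hXC Y hYC hne) h3 (hφX Y hYC)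
  obtain ⟨E, hE⟩ : ∃ E, E = C.image fun X => G.al (φ X) := ⟨_, rfl⟩
  have hEc : E.card = S.card + 2 := by rw [hE, card_image_of_injOn hφinj, hcard]
  have hEp : ∀ e ∈ E, e ∈ N ∧ (G.con W ω hω hW).pi e ∈ S ∧ ∃ X ∈ C,
      (G.con W ω hω hW).pi (G.al e) ∈ X := by
    intro e he
    rw [hE, mem_image] at he
    obtain ⟨X, hXC, rfl⟩ := he
    refine ⟨hφN X hXC, hφS X hXC, X, hXC, ?_⟩
    rw [G.al_al _ (hN.sub (hφ X hXC).2)]
    exact hφX X hXC
  -- darts of `E` with the vertex outside `W`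
  have hE2 : (E.filter fun d => G.pi d ∉ W).card ≤ (S.erase ω).card := by
    refine card_le_card_of_injOn G.pi ?_ ?_
    · intro e he
      obtain ⟨h1, h2⟩ := mem_filter.1 (mem_coe.1 he)
      have h4 := (hEp e h1).2.1
      rw [hpi, if_neg h2] at h4
      exact mem_coe.2 (mem_erase.2 ⟨fun h => h2 (h ▸ hω), h4⟩)
    · intro e he e' he' h
      exact hN.eq_of_pi (hEp e (mem_filter.1 (mem_coe.1 he)).1).1
        (hEp e' (mem_filter.1 (mem_coe.1 he')).1).1 h
  have hEsplit := card_filter_add_card_filter_not (s := E) (p := fun d => G.pi d ∈ W)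
  -- `ω ∈ S`
  have hωS : ω ∈ S := by
    by_contra h
    have h1 : E.filter (fun d => G.pi d ∈ W) = ∅ := by
      rw [eq_empty_iff_forall_notMem]
      intro e he
      obtain ⟨h2, h4⟩ := mem_filter.1 he
      have h5 := (hEp e h2).2.1
      rw [hpi, if_pos h4] at h5
      exact h h5
    rw [h1, card_empty] at hEsplit
    have h2 : (S.erase ω).card ≤ S.card := card_le_card (erase_subset _ _)
    omega
  have hE1 : 3 ≤ (E.filter fun d => G.pi d ∈ W).card := by
    rw [card_erase_of_mem hωS] at hE2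
    have : 0 < S.card := card_pos.2 ⟨ω, hωS⟩
    omega
  have hE1b : E.filter (fun d => G.pi d ∈ W) ⊆ (G.bd W).filter fun d => d ∈ N := by
    intro e he
    obtain ⟨h1, h2⟩ := mem_filter.1 he
    obtain ⟨h4, -, X, hXC, h5⟩ := hEp e h1
    refine mem_filter.2 ⟨mem_bd.2 ⟨hN.sub h4, h2, fun h6 => ?_⟩, h4⟩
    rw [hpi, if_pos h6] at h5
    exact disjoint_left.1 (hX X hXC).2.2.1 h5 hωS
  have h4 : 3 ≤ ((G.bd W).filter fun d => d ∈ N).card := hE1.trans (card_le_card hE1b)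
  -- weights
  have hge : ∀ d ∈ (G.bd W).filter (fun d => d ∈ N), 1 ≤ z d := by
    intro d hd
    obtain ⟨h5, h6⟩ := mem_filter.1 hd
    exact int_one_le (hz d (mem_bd.1 h5).1) (hNz d h6)
  have hz0 : ∀ d ∈ G.bd W, 0 ≤ z d := fun d hd => hw.z0 d (mem_bd.1 hd).1
  have h5 : (((G.bd W).filter fun d => d ∈ N).card : ℝ) ≤
      ∑ d ∈ (G.bd W).filter (fun d => d ∈ N), z d := by
    have h6 := sum_le_sum hge
    rw [sum_const, nsmul_eq_mul, mul_one] at h6
    exact h6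
  have h6 := sum_filter_add_sum_filter_not (G.bd W) (fun d => d ∈ N) z
  have h7 : 0 ≤ ∑ d ∈ (G.bd W).filter (fun d => d ∉ N), z d :=
    sum_nonneg fun d hd => hz0 d (mem_filter.1 hd).1
  have h8 : 0 ≤ ∑ v ∈ W, t v := sum_nonneg fun v hv => hw.t0 v (hW hv)
  have h9 : (3 : ℝ) ≤ (((G.bd W).filter fun d => d ∈ N).card : ℝ) := by exact_mod_cast h4
  have h10 : ∑ d ∈ G.bd W, z d + ∑ v ∈ W, t v = 3 := h3
  have h11 : ∑ v ∈ W, t v = 0 := by linarith
  have h12 : ∑ d ∈ (G.bd W).filter (fun d => d ∉ N), z d = 0 := by linarith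
  have h13 : (((G.bd W).filter fun d => d ∈ N).card : ℝ) = 3 := by linarith
  have h14 : ∑ d ∈ (G.bd W).filter (fun d => d ∈ N), (z d - 1) = 0 := by
    rw [sum_sub_distrib, sum_const, nsmul_eq_mul, mul_one]
    linarith
  refine ⟨(sum_eq_zero_iff_of_nonneg fun v hv => hw.t0 v (hW hv)).1 h11, by linarith,
    by exact_mod_cast h13, ?_⟩
  intro d hd hpos
  have h15 : d ∈ N := by
    by_contra h16
    have := (sum_eq_zero_iff_of_nonneg fun d hd => hz0 d (mem_filter.1 hd).1).1 h12 d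
      (mem_filter.2 ⟨hd, h16⟩)
    linarith
  refine ⟨h15, ?_⟩
  have h16 := (sum_eq_zero_iff_of_nonneg fun d hd => by
    have := hge d hd
    linarith).1 h14 d (mem_filter.2 ⟨hd, h15⟩)
  linarith

/-- A STRICT STATE WITH SIX TOKENS -/
structure Six (G : MG V D) (z : D → ℝ) (t : V → ℝ) : Prop where
  wt : G.Wt z t
  tau : ∑ v ∈ G.vs, t v = 6
  int : ∀ d ∈ G.ds, ∃ k : ℤ, z d = k
  five : ∀ W ⊆ G.vs, Odd W.card → 3 ≤ W.card → 3 ≤ (G.vs \ W).card → 5 ≤ G.val z t W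

/-- a vertex with a positive dart has at most two tokens -/
theorem Wt.tok_le (hw : G.Wt z t) {d : D} (hd : d ∈ G.ds) : t (G.pi d) ≤ 3 - z d := by
  have h1 := hw.deg _ (G.pi_mem _ hd)
  have h2 : z d ≤ ∑ e ∈ G.st (G.pi d), z e :=
    single_le_sum (fun e he => hw.z0 e (mem_st.1 he).1) (mem_st.2 ⟨hd, rfl⟩)
  linarith

theorem Wt.tok_le_three (hw : G.Wt z t) {v : V} (hv : v ∈ G.vs) : t v ≤ 3 := by
  have h1 := hw.deg _ hv
  have h2 : 0 ≤ ∑ e ∈ G.st v, z e := sum_nonneg fun e he => hw.z0 e (mem_st.1 he).1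
  linarith

/-- an odd set with less than three tokens has at least three vertices outside -/
theorem Wt.out_three (hw : G.Wt z t) (h6 : ∑ v ∈ G.vs, t v = 6) (hev : Even G.vs.card)
    (hW : W ⊆ G.vs) (hWo : Odd W.card) (ht : ∑ v ∈ W, t v < 3) : 3 ≤ (G.vs \ W).card := by
  have h1 := sum_sdiff hW (f := t)
  have h2 : ∑ v ∈ G.vs \ W, t v ≤ ∑ _v ∈ G.vs \ W, (3 : ℝ) :=
    sum_le_sum fun v hv => hw.tok_le_three (mem_sdiff.1 hv).1
  rw [sum_const, nsmul_eq_mul] at h2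
  have h3 := card_sdiff_add_card_eq_card hW
  rw [Nat.even_iff] at hev
  rw [Nat.odd_iff] at hWo
  by_contra h4
  have h5 : (G.vs \ W).card ≤ 1 := by omega
  have h6 : ((G.vs \ W).card : ℝ) ≤ 1 := by exact_mod_cast h5
  linarith

variable {e f f1 f2 : D}

/-- the hypothesis of `walk_wt` -/
theorem Six.h5 (h : Six G z t) (hev : Even G.vs.card) (he : e ∈ G.ds) (hf : f ∈ G.ds)
    (hef : G.pi f = G.pi (G.al e)) (hzf : 1 ≤ z f) :
    ∀ W ⊆ G.vs, Odd W.card → G.pi e ∈ W → G.pi f ∈ W → G.pi (G.al f) ∉ W →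
      5 ≤ G.val z t W := by
  intro W hW hWo h1 h2 h3
  have h4 : 2 ≤ W.card := by
    have h5 : ({G.pi e, G.pi f} : Finset V) ⊆ W := by
      intro v hv
      rw [mem_insert, mem_singleton] at hv
      rcases hv with rfl | rfl
      · exact h1
      · exact h2
    have h6 : ({G.pi e, G.pi f} : Finset V).card = 2 :=
      card_pair (by rw [hef]; exact fun h => G.noloop e he h.symm)
    exact h6 ▸ card_le_card h5
  have h5 := hWo
  rw [Nat.odd_iff] at h5
  by_cases h6 : 3 ≤ (G.vs \ W).card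
  · exact h.five W hW hWo (by omega) h6
  · -- the complement is a vertex
    have h7 := card_sdiff_add_card_eq_card hW
    have h8 := hev
    rw [Nat.even_iff] at h8
    have h9 : (G.vs \ W).card = 1 := by omega
    obtain ⟨v, hv⟩ := card_eq_one.1 h9
    have h10 : G.pi (G.al f) = v := by
      have : G.pi (G.al f) ∈ G.vs \ W := mem_sdiff.2 ⟨G.pi_mem _ (G.al_mem f hf), h3⟩
      rwa [hv, mem_singleton] at this
    have h11 := h.wt.val_compl hW
    rw [hv, h.tau] at h11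
    have h12 := h.wt.val_single (v := v) (h10 ▸ G.pi_mem _ (G.al_mem f hf))
    have h13 := sum_sdiff hW (f := t)
    rw [hv, sum_singleton, h.tau] at h13
    have h14 := h.wt.tok_le (G.al_mem f hf)
    rw [h10, h.wt.sym f hf] at h14
    linarith

/-- THE STEP is valid -/
theorem Six.walk (h : Six G z t) (hev : Even G.vs.card) (he : e ∈ G.ds) (hf : f ∈ G.ds)
    (hef : G.pi f = G.pi (G.al e)) (hzf : 1 ≤ z f) (ht : 1 ≤ t (G.pi e)) :
    G.Wt (G.wz z e f) (G.wtok t e f) ∧ ∑ v ∈ G.vs, G.wtok t e f v = 6 ∧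
      ∀ d ∈ G.ds, ∃ k : ℤ, G.wz z e f d = k :=
  ⟨walk_wt h.wt he hf hef hzf ht (h.h5 hev he hf hef hzf), by rw [wtok_sum he hf, h.tau],
    wz_int h.int⟩

/-- a perfect matching which does not use the exit stays in the support -/
theorem wz_pos (hN : G.IsPM N) (hNz : ∀ d ∈ N, 0 < z d) (hf : f ∈ G.ds) (hfN : f ∉ N) :
    ∀ d ∈ N, 0 < G.wz z e f d := by
  intro d hd
  have h1 : d ≠ f := fun h => hfN (h ▸ hd)
  have h2 : d ≠ G.al f := by
    intro h
    have h3 := hN.closed d hd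
    rw [h, G.al_al f hf] at h3
    exact hfN h3
  have h3 := evec_nonneg (G := G) e d
  have h4 := hNz d hd
  unfold wz
  rw [evec_of_ne h1 h2]
  linarith

/-- A BAD SET: tight after the step, the outer side has no perfect matching -/
structure Bad (G : MG V D) (z : D → ℝ) (t : V → ℝ) (N : Finset D) (e f : D) (W : Finset V) :
    Prop where
  sub : W ⊆ G.vs
  odd : Odd W.card
  out : 3 ≤ (G.vs \ W).card
  y : G.pi e ∈ W
  b : G.pi f ∈ W
  b' : G.pi (G.al f) ∉ W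
  tok : ∑ v ∈ W, t v = 1
  val : G.val z t W = 5
  zf : z f = 1
  bd : ∀ d ∈ G.bd W, 0 < z d → d = f ∨ (d ∈ N ∧ z d = 1)

theorem Six.bad (h : Six G z t) (hN : G.IsPM N) (hNz : ∀ d ∈ N, 0 < z d) (he : e ∈ G.ds)
    (hf : f ∈ G.ds) (hef : G.pi f = G.pi (G.al e)) (hzf : 0 < z f) (ht : 1 ≤ t (G.pi e))
    (hfN : f ∉ N) (hW : W ⊆ G.vs) (hWo : Odd W.card) (hc : 3 ≤ W.card)
    (h3 : G.val (G.wz z e f) (G.wtok t e f) W = 3) (hω : ω ∈ W)
    (hno : ¬ ∃ M, (G.con W ω hω hW).IsPM M ∧ ∀ d ∈ M, 0 < G.wz z e f d) :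
    Bad G z t N e f W := by
  have hev := hN.vs_even
  have hzf1 := int_one_le (h.int f hf) hzf
  obtain ⟨hw', h6', hz'⟩ := h.walk hev he hf hef hzf1 ht
  obtain ⟨k1, k2, -, k4⟩ := no_pm_con hw' h6'.le hz' hN (wz_pos hN hNz hf hfN) hW hWo h3 hω hno
  have k0 : ∑ v ∈ W, G.wtok t e f v = 0 := sum_eq_zero k1
  have hout := hw'.out_three h6' hev hW hWo (by rw [k0]; norm_num)
  have h5 := h.five W hW hWo hc hout
  have h7 := walk_val (z := z) (t := t) he hf hef W
  rw [h3] at h7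
  have hcase : G.pi e ∈ W ∧ G.pi f ∈ W ∧ G.pi (G.al f) ∉ W := by
    by_contra hcon
    rw [if_neg hcon] at h7
    split_ifs at h7 <;> linarith
  have hn : ¬ (G.pi e ∉ W ∧ G.pi f ∈ W ∧ G.pi (G.al f) ∈ W) := fun k => k.1 hcase.1
  rw [if_pos hcase, if_neg hn] at h7
  have hfb : f ∈ G.bd W := mem_bd.2 ⟨hf, hcase.2⟩
  have hev' : ∀ d ∈ G.bd W, G.evec e d = 0 := by
    intro d hd
    obtain ⟨m1, m2, m3⟩ := mem_bd.1 hd
    refine evec_of_ne (fun k => ?_) (fun k => ?_)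
    · rw [k, ← hef] at m3
      exact m3 hcase.2.1
    · rw [k, G.al_al e he] at m3
      exact m3 hcase.1
  have hzf' : G.wz z e f f = z f - 1 := by
    unfold wz
    rw [hev' f hfb, evec_self]
    ring
  refine ⟨hW, hWo, hout, hcase.1, hcase.2.1, hcase.2.2, ?_, by linarith, ?_, ?_⟩
  · unfold wtok at k0
    rw [sum_add_distrib, sum_sub_distrib, sum_ite_eq' W (G.pi e) fun _ => (1 : ℝ),
      sum_ite_eq' W (G.pi (G.al f)) fun _ => (1 : ℝ), if_pos hcase.1, if_neg hcase.2.2] at k0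
    linarith
  · by_contra hne
    have h8 : 0 < G.wz z e f f := by
      rw [hzf']
      rcases lt_or_eq_of_le hzf1 with h9 | h9
      · linarith
      · exact absurd h9.symm hne
    exact hfN (k4 f hfb h8).1
  · intro d hd hpos
    by_cases h8 : d = f
    · exact Or.inl h8
    · right
      obtain ⟨m1, m2, m3⟩ := mem_bd.1 hd
      have h9 : d ≠ G.al f := fun k => hcase.2.2 (k ▸ m2)
      have h10 : G.wz z e f d = z d := by
        unfold wz
        rw [hev' d hd, evec_of_ne h8 h9]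
        ring
      have h11 := k4 d hd (by rw [h10]; exact hpos)
      exact ⟨h11.1, by rw [← h10]; exact h11.2⟩

/-- the part `W1 - W2` of two bad sets is not a vertex -/
theorem Bad.card_ne {W1 W2 : Finset V} (hw : G.Wt z t) (hN : G.IsPM N) (hNz : ∀ d ∈ N, 0 < z d)
    (hf2 : f2 ∈ G.ds) (hp : G.pi f1 = G.pi f2) (hn2 : f2 ∉ N) (B1 : Bad G z t N e f1 W1)
    (B2 : Bad G z t N e f2 W2) (hb2 : G.pi (G.al f2) ∈ W1) (ht : ∑ v ∈ W1 \ W2, t v = 0) :
    (W1 \ W2).card ≠ 1 := by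
  intro hc
  obtain ⟨v, hv⟩ := card_eq_one.1 hc
  have h1 : G.pi (G.al f2) = v := by
    have h2 : G.pi (G.al f2) ∈ W1 \ W2 := mem_sdiff.2 ⟨hb2, B2.b'⟩
    rwa [hv, mem_singleton] at h2
  have hvv : v ∈ W1 ∧ v ∉ W2 := by
    have : v ∈ W1 \ W2 := by rw [hv]; exact mem_singleton_self v
    exact mem_sdiff.1 this
  rw [hv, sum_singleton] at ht
  have h2 := hw.deg v (B1.sub hvv.1)
  rw [ht, add_zero] at h2
  have hal : G.al f2 ∉ N := fun h => by
    have h3 := hN.closed _ h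
    rw [G.al_al f2 hf2] at h3
    exact hn2 h3
  have h3 : ∀ d ∈ G.st v, z d = (if d = G.al f2 then (1 : ℝ) else 0) + if d ∈ N then 1 else 0 := by
    intro d hd
    obtain ⟨m1, m2⟩ := mem_st.1 hd
    by_cases h4 : d = G.al f2
    · have h5 : d ∉ N := h4 ▸ hal
      rw [if_pos h4, if_neg h5, h4, hw.sym f2 hf2, B2.zf]
      ring
    · rw [if_neg h4]
      rcases (hw.z0 d m1).lt_or_eq with h5 | h5
      · have h6 : d ∈ N ∧ z d = 1 := by
          by_cases h7 : G.pi (G.al d) ∈ W1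
          · have h8 : G.pi (G.al d) ∈ W2 := by
              by_contra h8
              have h9 : G.pi (G.al d) ∈ W1 \ W2 := mem_sdiff.2 ⟨h7, h8⟩
              rw [hv, mem_singleton, ← m2] at h9
              exact G.noloop d m1 h9
            have h9 : G.al d ∈ G.bd W2 := mem_bd.2 ⟨G.al_mem d m1, h8, by
              rw [G.al_al d m1, m2]
              exact hvv.2⟩
            rcases B2.bd _ h9 (by rw [hw.sym d m1]; exact h5) with h10 | h10
            · exact absurd (by rw [← h10, G.al_al d m1]) h4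
            · have h11 := hN.closed _ h10.1
              rw [G.al_al d m1] at h11
              exact ⟨h11, by rw [← hw.sym d m1]; exact h10.2⟩
          · rcases B1.bd d (mem_bd.2 ⟨m1, m2 ▸ hvv.1, h7⟩) h5 with h10 | h10
            · exfalso
              rw [h10, hp] at m2
              exact hvv.2 (m2 ▸ B2.b)
            · exact h10
        rw [if_pos h6.1, h6.2]
        ring
      · have h6 : d ∉ N := fun h6 => by
          have := hNz d h6
          linarith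
        rw [if_neg h6, ← h5]
        ring
  have h4 : G.al f2 ∈ G.st v := mem_st.2 ⟨G.al_mem f2 hf2, h1⟩
  rw [sum_congr rfl h3, sum_add_distrib, sum_ite_eq', if_pos h4, sum_boole] at h2
  have h5 : (G.st v).filter (fun d => d ∈ N) = N.filter fun d => G.pi d = v := by
    ext d
    rw [mem_filter, mem_filter, mem_st]
    exact ⟨fun k => ⟨k.2, k.1.2⟩, fun k => ⟨⟨hN.sub k.1, k.2⟩, k.1⟩⟩
  rw [h5, hN.one v (B1.sub hvv.1)] at h2
  norm_num at h2

/-- NOT BOTH EXITS ARE BAD -/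
theorem Six.no_two {W1 W2 : Finset V} (h : Six G z t) (hN : G.IsPM N) (hNz : ∀ d ∈ N, 0 < z d)
    (he : e ∈ G.ds) (hf1 : f1 ∈ G.ds) (hf2 : f2 ∈ G.ds) (hp1 : G.pi f1 = G.pi (G.al e))
    (hp2 : G.pi f2 = G.pi (G.al e)) (hne : f1 ≠ f2) (hn1 : f1 ∉ N) (hn2 : f2 ∉ N)
    (ht : 1 ≤ t (G.pi e)) (B1 : Bad G z t N e f1 W1) (B2 : Bad G z t N e f2 W2) : False := by
  have hev := hN.vs_even
  have hw := h.wt
  have hp : G.pi f1 = G.pi f2 := hp1.trans hp2.symm
  have hz1 : 0 < z f1 := by rw [B1.zf]; norm_num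
  have hz2 : 0 < z f2 := by rw [B2.zf]; norm_num
  have hb2 : G.pi (G.al f2) ∈ W1 := by
    by_contra h1
    rcases B1.bd f2 (mem_bd.2 ⟨hf2, hp ▸ B1.b, h1⟩) hz2 with h2 | h2
    · exact hne h2.symm
    · exact hn2 h2.1
  have hb1 : G.pi (G.al f1) ∈ W2 := by
    by_contra h1
    rcases B2.bd f1 (mem_bd.2 ⟨hf1, hp ▸ B2.b, h1⟩) hz1 with h2 | h2
    · exact hne h2
    · exact hn1 h2.1
  have hyD : G.pi e ∈ W1 ∩ W2 := mem_inter.2 ⟨B1.y, B2.y⟩
  have hbD : G.pi f1 ∈ W1 ∩ W2 := mem_inter.2 ⟨B1.b, hp ▸ B2.b⟩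
  have hDs : W1 ∩ W2 ⊆ G.vs := inter_subset_left.trans B1.sub
  -- tokens
  have t1 : ∑ v ∈ W1 ∩ W2, t v = 1 := by
    refine le_antisymm ?_ ?_
    · rw [← B1.tok]
      exact sum_le_sum_of_subset_of_nonneg inter_subset_left fun v hv _ => hw.t0 v (B1.sub hv)
    · exact ht.trans (single_le_sum (fun v hv => hw.t0 v (hDs hv)) hyD)
  have t2 := sum_union_inter (s₁ := W1) (s₂ := W2) (f := t)
  rw [B1.tok, B2.tok, t1] at t2
  have t3 := sum_sdiff (inter_subset_left : W1 ∩ W2 ⊆ W1) (f := t)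
  rw [sdiff_inter_self_left, B1.tok, t1] at t3
  have t4 := sum_sdiff (inter_subset_right : W1 ∩ W2 ⊆ W2) (f := t)
  rw [sdiff_inter_self_right, B2.tok, t1] at t4
  have c1 := card_union_add_card_inter W1 W2
  have c2 := card_sdiff_add_card_inter W1 W2
  have c3 := card_sdiff_add_card_inter W2 W1
  rw [inter_comm W2 W1] at c3
  have o1 := Nat.odd_iff.1 B1.odd
  have o2 := Nat.odd_iff.1 B2.odd
  rcases Nat.even_or_odd (W1 ∩ W2).card with hD | hD
  · -- even
    have hD' := Nat.even_iff.1 hD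
    have h1 := hw.posimod B1.sub B2.sub
    rw [B1.val, B2.val, t1] at h1
    have h2 := hw.ed_nonneg (W1 ∩ W2) (G.vs \ (W1 ∪ W2))
    have q1 : Odd (W1 \ W2).card := Nat.odd_iff.2 (by omega)
    have q2 : Odd (W2 \ W1).card := Nat.odd_iff.2 (by omega)
    have s1 : W1 \ W2 ⊆ G.vs := sdiff_subset.trans B1.sub
    have s2 : W2 \ W1 ⊆ G.vs := sdiff_subset.trans B2.sub
    have n1 := Bad.card_ne hw hN hNz hf2 hp hn2 B1 B2 hb2 (by linarith)
    have n2 := Bad.card_ne hw hN hNz hf1 hp.symm hn1 B2 B1 hb1 (by linarith)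
    have h3 := h.five _ s1 q1 (by have := Nat.odd_iff.1 q1; omega)
      (hw.out_three h.tau hev s1 q1 (by linarith))
    have h4 := h.five _ s2 q2 (by have := Nat.odd_iff.1 q2; omega)
      (hw.out_three h.tau hev s2 q2 (by linarith))
    linarith
  · -- odd
    have hD' := Nat.odd_iff.1 hD
    have h1 := hw.submod B1.sub B2.sub
    rw [B1.val, B2.val] at h1
    have h2 := hw.ed_nonneg (W1 \ W2) (W2 \ W1)
    have hD2 : 2 ≤ (W1 ∩ W2).card := by
      have k1 : ({G.pi e, G.pi f1} : Finset V) ⊆ W1 ∩ W2 := by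
        intro v hv
        rw [mem_insert, mem_singleton] at hv
        rcases hv with rfl | rfl
        · exact hyD
        · exact hbD
      have k2 : ({G.pi e, G.pi f1} : Finset V).card = 2 :=
        card_pair (by rw [hp1]; exact fun h => G.noloop e he h.symm)
      exact k2 ▸ card_le_card k1
    have h3 := h.five _ hDs hD (by omega) (hw.out_three h.tau hev hDs hD (by linarith))
    have q1 : Odd (W1 ∪ W2).card := Nat.odd_iff.2 (by omega)
    have s1 : W1 ∪ W2 ⊆ G.vs := union_subset B1.sub B2.sub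
    have h4 := h.five _ s1 q1 (by omega) (hw.out_three h.tau hev s1 q1 (by linarith))
    have h5 : G.val z t (W1 ∩ W2) = 5 := by linarith
    have h6 : ∑ d ∈ G.bd (W1 ∩ W2), z d = 4 := by
      unfold val at h5
      linarith
    have h7 : ∀ d ∈ G.bd (W1 ∩ W2), z d = (if d = f1 then (1 : ℝ) else 0) +
        (if d = f2 then 1 else 0) + if d ∈ N then 1 else 0 := by
      intro d hd
      obtain ⟨m1, m2, m3⟩ := mem_bd.1 hd
      rw [mem_inter] at m2
      by_cases k1 : d = f1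
      · have k2 : d ∉ N := k1 ▸ hn1
        have k3 : d ≠ f2 := k1 ▸ hne
        rw [if_pos k1, if_neg k2, if_neg k3, k1, B1.zf]
        ring
      · by_cases k2 : d = f2
        · have k3 : d ∉ N := k2 ▸ hn2
          rw [if_neg k1, if_pos k2, if_neg k3, k2, B2.zf]
          ring
        · rw [if_neg k1, if_neg k2]
          rcases (hw.z0 d m1).lt_or_eq with k3 | k3
          · have k4 : d ∈ N ∧ z d = 1 := by
              by_cases k5 : G.pi (G.al d) ∈ W1
              · have k6 : G.pi (G.al d) ∉ W2 := fun k6 => m3 (mem_inter.2 ⟨k5, k6⟩)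
                exact (B2.bd d (mem_bd.2 ⟨m1, m2.2, k6⟩) k3).resolve_left k2
              · exact (B1.bd d (mem_bd.2 ⟨m1, m2.1, k5⟩) k3).resolve_left k1
            rw [if_pos k4.1, k4.2]
            ring
          · have k4 : d ∉ N := fun k4 => by
              have := hNz d k4
              linarith
            rw [if_neg k4, ← k3]
            ring
    have k1 : f1 ∈ G.bd (W1 ∩ W2) := mem_bd.2 ⟨hf1, hbD, fun k => B1.b' (mem_inter.1 k).1⟩
    have k2 : f2 ∈ G.bd (W1 ∩ W2) := mem_bd.2 ⟨hf2, hp ▸ hbD, fun k => B2.b' (mem_inter.1 k).2⟩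
    rw [sum_congr rfl h7, sum_add_distrib, sum_add_distrib, sum_ite_eq', sum_ite_eq', if_pos k1,
      if_pos k2, sum_boole] at h6
    have k3 := hN.parity hDs
    have k4 : (((G.bd (W1 ∩ W2)).filter fun d => d ∈ N).card : ℝ) = 2 := by linarith
    have k5 : ((G.bd (W1 ∩ W2)).filter fun d => d ∈ N).card = 2 := by exact_mod_cast k4
    omega

/-- all outer sides of tight sets with at least three vertices have a perfect matching in the
support -/
def ConPM (G : MG V D) (z : D → ℝ) (t : V → ℝ) : Prop :=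
  ∀ (W : Finset V) (hW : W ⊆ G.vs) (ω : V) (hω : ω ∈ W), Odd W.card → 3 ≤ W.card →
    G.val z t W = 3 → ∃ M, (G.con W ω hω hW).IsPM M ∧ ∀ d ∈ M, 0 < z d

/-- LEMMA X (helper8): one of the two exits of `b` outside `N` is good -/
theorem Six.lemX (h : Six G z t) (hN : G.IsPM N) (hNz : ∀ d ∈ N, 0 < z d)
    (he : e ∈ G.ds) (hf1 : f1 ∈ G.ds) (hf2 : f2 ∈ G.ds) (hp1 : G.pi f1 = G.pi (G.al e))
    (hp2 : G.pi f2 = G.pi (G.al e)) (hne : f1 ≠ f2) (hn1 : f1 ∉ N) (hn2 : f2 ∉ N)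
    (hz1 : 0 < z f1) (hz2 : 0 < z f2) (ht : 1 ≤ t (G.pi e)) :
    ConPM G (G.wz z e f1) (G.wtok t e f1) ∨ ConPM G (G.wz z e f2) (G.wtok t e f2) := by
  by_contra hcon
  push Not at hcon
  unfold ConPM at hcon
  push Not at hcon
  obtain ⟨⟨W1, s1, ω1, w1, o1, c1, v1, m1⟩, ⟨W2, s2, ω2, w2, o2, c2, v2, m2⟩⟩ := hcon
  have B1 := h.bad hN hNz he hf1 hp1 hz1 ht hn1 s1 o1 c1 v1 w1 (by
    rintro ⟨M, k1, k2⟩
    obtain ⟨d, k3, k4⟩ := m1 M k1
    exact absurd (k2 d k3) (not_lt.2 k4))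
  have B2 := h.bad hN hNz he hf2 hp2 hz2 ht hn2 s2 o2 c2 v2 w2 (by
    rintro ⟨M, k1, k2⟩
    obtain ⟨d, k3, k4⟩ := m2 M k1
    exact absurd (k2 d k3) (not_lt.2 k4))
  exact h.no_two hN hNz he hf1 hf2 hp1 hp2 hne hn1 hn2 ht B1 B2

/-- with two tokens at `y` every exit outside some perfect matching is good -/
theorem Six.lemX2 (h : Six G z t) (hN : G.IsPM N) (hNz : ∀ d ∈ N, 0 < z d)
    (he : e ∈ G.ds) (hf : f ∈ G.ds) (hef : G.pi f = G.pi (G.al e)) (hn : f ∉ N)
    (hzf : 0 < z f) (ht : 2 ≤ t (G.pi e)) : ConPM G (G.wz z e f) (G.wtok t e f) := by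
  intro W hW ω hω hWo hc h3
  by_contra hno
  have B := h.bad hN hNz he hf hef hzf (by linarith) hn hW hWo hc h3 hω hno
  have h1 : t (G.pi e) ≤ ∑ v ∈ W, t v :=
    single_le_sum (fun v hv => h.wt.t0 v (hW hv)) B.y
  rw [B.tok] at h1
  linarith

/-- the value of a set has the parity of its cardinality -/
theorem Wt.val_par (hw : G.Wt z t) (hz : ∀ d ∈ G.ds, ∃ k : ℤ, z d = k) {X : Finset V}
    (hX : X ⊆ G.vs) : ∃ k : ℤ, G.val z t X = X.card + 2 * k := by
  have h0 : ∀ d, ∃ k : ℤ, d ∈ G.ds → z d = k := by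
    intro d
    by_cases h1 : d ∈ G.ds
    · obtain ⟨k, hk⟩ := hz d h1
      exact ⟨k, fun _ => hk⟩
    · exact ⟨0, fun h2 => absurd h2 h1⟩
  choose κ hκ using h0
  have h1 : ∑ d ∈ G.ed X X, z d = ((∑ d ∈ G.ed X X, κ d : ℤ) : ℝ) := by
    push_cast
    exact sum_congr rfl fun d hd => hκ d (mem_ed.1 hd).1
  have h2 : ∑ d ∈ G.ed X X, (κ d : ZMod 2) = 0 := by
    refine sum_involution (fun d _ => G.al d) ?_ ?_ ?_ ?_
    · intro d hd
      have h3 := (mem_ed.1 hd).1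
      have h4 : κ (G.al d) = κ d := by
        have h5 := hκ _ (G.al_mem d h3)
        rw [hw.sym d h3, hκ d h3] at h5
        exact_mod_cast h5.symm
      rw [h4]
      exact CharTwo.add_self_eq_zero _
    · intro d hd _ he
      exact G.noloop d (mem_ed.1 hd).1 (by rw [he])
    · intro d hd
      obtain ⟨h3, h4, h5⟩ := mem_ed.1 hd
      exact mem_ed.2 ⟨G.al_mem d h3, h5, by rw [G.al_al d h3]; exact h4⟩
    · intro d hd
      exact G.al_al d (mem_ed.1 hd).1
  have h3 : ((∑ d ∈ G.ed X X, κ d : ℤ) : ZMod 2) = 0 := by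
    push_cast
    exact h2
  rw [ZMod.intCast_zmod_eq_zero_iff_dvd] at h3
  obtain ⟨m, hm⟩ := h3
  refine ⟨(X.card : ℤ) - m, ?_⟩
  rw [hw.val_eq hX, h1, hm]
  push_cast
  ring

theorem Wt.five_of (hw : G.Wt z t) (hz : ∀ d ∈ G.ds, ∃ k : ℤ, z d = k) {X : Finset V}
    (hX : X ⊆ G.vs) (ho : Odd X.card) (h3 : G.val z t X ≠ 3) : 5 ≤ G.val z t X := by
  obtain ⟨k, hk⟩ := hw.val_par hz hX
  obtain ⟨m, hm⟩ := ho
  have h1 := hw.cut X hX ⟨m, hm⟩
  have h2 : G.val z t X = ((2 * m + 1 + 2 * k : ℤ) : ℝ) := by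
    rw [hk, hm]
    push_cast
    ring
  rw [h2] at h1 h3 ⊢
  have h4 : (3 : ℤ) ≤ 2 * m + 1 + 2 * k := by exact_mod_cast h1
  have h5 : (2 * m + 1 + 2 * k : ℤ) ≠ 3 := by
    intro h
    exact h3 (by rw [h]; norm_num)
  have h6 : (5 : ℤ) ≤ 2 * m + 1 + 2 * k := by omega
  exact_mod_cast h6

/-- the outer side of an inclusion-maximal tight set is strict, if every tight set meets it -/
theorem con_six (hw : G.Wt z t) (h6 : ∑ v ∈ G.vs, t v = 6)
    (hz : ∀ d ∈ G.ds, ∃ k : ℤ, z d = k) (hW : W ⊆ G.vs) (hWo : Odd W.card)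
    (h3 : G.val z t W = 3) (hω : ω ∈ W)
    (hmeet : ∀ X ⊆ G.vs, Odd X.card → 3 ≤ X.card → 3 ≤ (G.vs \ X).card → G.val z t X = 3 →
      ¬ Disjoint X W)
    (hmax : ∀ X ⊆ G.vs, Odd X.card → 3 ≤ (G.vs \ X).card → G.val z t X = 3 → W ⊆ X → X = W) :
    Six (G.con W ω hω hW) z (tcon t W ω) where
  wt := hw.con hω hW hWo h3
  tau := by rw [con_tau, h6]
  int := fun d hd => hz d (mem_of_mem_filter d hd)
  five := by
    intro X hX ho hc hout
    rw [con_val hω hW hX]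
    have h1 := pre_sub hω hW hX
    have h2 := (pre_odd hω hW hX hWo).2 ho
    refine hw.five_of hz h1 h2 fun h4 => ?_
    have hsub : (G.con W ω hω hW).vs \ X ⊆ G.vs \ pre W ω X := by
      intro v hv
      obtain ⟨k1, k2⟩ := mem_sdiff.1 hv
      rcases con_vs_mem hω hW (Finset.Subset.refl _) k1 with k3 | k3
      · refine mem_sdiff.2 ⟨k3.1, fun k4 => ?_⟩
        unfold pre at k4
        split_ifs at k4 with k5
        · rcases mem_union.1 k4 with k6 | k6
          · exact k2 k6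
          · exact k3.2 k6
        · exact k2 k4
      · refine mem_sdiff.2 ⟨k3 ▸ hW hω, fun k4 => ?_⟩
        rw [k3] at k2 k4
        unfold pre at k4
        rw [if_neg k2] at k4
        exact k2 k4
    have h5 : 3 ≤ (G.vs \ pre W ω X).card := hout.trans (card_le_card hsub)
    by_cases h7 : ω ∈ X
    · have h8 : W ⊆ pre W ω X := by
        unfold pre
        rw [if_pos h7]
        exact subset_union_right
      have h9 := hmax _ h1 h2 h5 h4 h8
      rw [pre_eq_union hω h7] at h9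
      have h10 : X.erase ω = ∅ := by
        rw [eq_empty_iff_forall_notMem]
        intro v hv
        have h11 : v ∈ W := by
          rw [← h9]
          exact mem_union_left _ hv
        exact disjoint_left.1 (con_erase_disj hω hW hX) hv h11
      have h11 := card_erase_of_mem h7
      rw [h10, card_empty] at h11
      omega
    · have h8 : pre W ω X = X := by
        unfold pre
        rw [if_neg h7]
      rw [h8] at h1 h2 h4 h5
      refine hmeet X h1 h2 hc h5 h4 ?_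
      rw [disjoint_left]
      exact fun v hv => con_disj hω hW hX h7 hv

/-- the tight sets after a step -/
theorem Six.tight (h : Six G z t) (he : e ∈ G.ds) (hf : f ∈ G.ds) (hef : G.pi f = G.pi (G.al e))
    {X : Finset V} (hX : X ⊆ G.vs) (ho : Odd X.card) (hc : 3 ≤ X.card)
    (hout : 3 ≤ (G.vs \ X).card) (h3 : G.val (G.wz z e f) (G.wtok t e f) X = 3) :
    G.pi e ∈ X ∧ G.pi f ∈ X ∧ G.pi (G.al f) ∉ X ∧ G.val z t X = 5 := by
  have h5 := h.five X hX ho hc hout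
  have h7 := walk_val (z := z) (t := t) he hf hef X
  rw [h3] at h7
  have hcase : G.pi e ∈ X ∧ G.pi f ∈ X ∧ G.pi (G.al f) ∉ X := by
    by_contra hcon
    rw [if_neg hcon] at h7
    split_ifs at h7 <;> linarith
  have hn : ¬ (G.pi e ∉ X ∧ G.pi f ∈ X ∧ G.pi (G.al f) ∈ X) := fun k => k.1 hcase.1
  rw [if_pos hcase, if_neg hn] at h7
  exact ⟨hcase.1, hcase.2.1, hcase.2.2, by linarith⟩

/-- THE STEP of the walk: the new state is strict, or an inclusion-maximal tight set is contracted -/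
theorem Six.step (h : Six G z t) (hev : Even G.vs.card) (he : e ∈ G.ds) (hf : f ∈ G.ds)
    (hef : G.pi f = G.pi (G.al e)) (hzf : 0 < z f) (ht : 1 ≤ t (G.pi e)) :
    Six G (G.wz z e f) (G.wtok t e f) ∨
    ∃ (W : Finset V) (hW : W ⊆ G.vs), Odd W.card ∧ 3 ≤ W.card ∧ 3 ≤ (G.vs \ W).card ∧
      G.val (G.wz z e f) (G.wtok t e f) W = 3 ∧ G.val z t W = 5 ∧
      G.pi e ∈ W ∧ G.pi f ∈ W ∧ G.pi (G.al f) ∉ W ∧
      ∀ (ω : V) (hω : ω ∈ W),
        Six (G.con W ω hω hW) (G.wz z e f) (tcon (G.wtok t e f) W ω) := by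
  obtain ⟨hw', h6', hz'⟩ := h.walk hev he hf hef (int_one_le (h.int f hf) hzf) ht
  obtain ⟨T, hT⟩ : ∃ T, T = G.vs.powerset.filter fun X => Odd X.card ∧ 3 ≤ X.card ∧
      3 ≤ (G.vs \ X).card ∧ G.val (G.wz z e f) (G.wtok t e f) X = 3 := ⟨_, rfl⟩
  have mT : ∀ X, X ∈ T ↔ X ⊆ G.vs ∧ Odd X.card ∧ 3 ≤ X.card ∧
      3 ≤ (G.vs \ X).card ∧ G.val (G.wz z e f) (G.wtok t e f) X = 3 := by
    intro X
    rw [hT, mem_filter, mem_powerset]
  rcases T.eq_empty_or_nonempty with h1 | h1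
  · left
    refine ⟨hw', h6', hz', fun X hX ho hc hout => hw'.five_of hz' hX ho fun h3 => ?_⟩
    have h2 : X ∈ T := (mT X).2 ⟨hX, ho, hc, hout, h3⟩
    rw [h1] at h2
    exact notMem_empty _ h2
  · right
    obtain ⟨W, hWT, hmax⟩ := exists_max_image T (fun X => X.card) h1
    obtain ⟨hW, hWo, hc, hout, h3⟩ := (mT W).1 hWT
    obtain ⟨k1, k2, k3, k4⟩ := h.tight he hf hef hW hWo hc hout h3
    refine ⟨W, hW, hWo, hc, hout, h3, k4, k1, k2, k3, fun ω hω => ?_⟩
    refine con_six hw' h6' hz' hW hWo h3 hω ?_ ?_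
    · intro X hX ho hcX houtX h3X hd
      exact disjoint_left.1 hd (h.tight he hf hef hX ho hcX houtX h3X).1 k1
    · intro X hX ho houtX h3X hWX
      have h4 := hmax X ((mT X).2 ⟨hX, ho, hc.trans (card_le_card hWX), houtX, h3X⟩)
      exact (eq_of_subset_of_card_le hWX h4).symm

/-- ONE STEP OF THE WALK (lemma X in use): `N` a perfect matching in the support, `e` from the token
`y` to `b`, two exits `f1`, `f2` of `b` outside `N`. For one exit the new state is strict and has a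
perfect matching, after the contraction of a tight set if there is one. -/
theorem Six.go (h : Six G z t) (hN : G.IsPM N) (hNz : ∀ d ∈ N, 0 < z d)
    (he : e ∈ G.ds) (hf1 : f1 ∈ G.ds) (hf2 : f2 ∈ G.ds) (hp1 : G.pi f1 = G.pi (G.al e))
    (hp2 : G.pi f2 = G.pi (G.al e)) (hne : f1 ≠ f2) (hn1 : f1 ∉ N) (hn2 : f2 ∉ N)
    (hz1 : 0 < z f1) (hz2 : 0 < z f2) (ht : 1 ≤ t (G.pi e)) :
    ∃ f, (f = f1 ∨ f = f2) ∧ G.Wt (G.wz z e f) (G.wtok t e f) ∧
      (∀ d ∈ N, 0 < G.wz z e f d) ∧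
      (Six G (G.wz z e f) (G.wtok t e f) ∨
      ∃ (W : Finset V) (hW : W ⊆ G.vs), Odd W.card ∧ 3 ≤ W.card ∧ 3 ≤ (G.vs \ W).card ∧
        G.val (G.wz z e f) (G.wtok t e f) W = 3 ∧ G.val z t W = 5 ∧
        G.pi e ∈ W ∧ G.pi f ∈ W ∧ G.pi (G.al f) ∉ W ∧
        ∀ (ω : V) (hω : ω ∈ W),
          Six (G.con W ω hω hW) (G.wz z e f) (tcon (G.wtok t e f) W ω) ∧
          ∃ M, (G.con W ω hω hW).IsPM M ∧ ∀ d ∈ M, 0 < G.wz z e f d) := by
  have key : ∀ f ∈ G.ds, G.pi f = G.pi (G.al e) → f ∉ N → 0 < z f →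
      ConPM G (G.wz z e f) (G.wtok t e f) →
      G.Wt (G.wz z e f) (G.wtok t e f) ∧
      (∀ d ∈ N, 0 < G.wz z e f d) ∧
      (Six G (G.wz z e f) (G.wtok t e f) ∨
      ∃ (W : Finset V) (hW : W ⊆ G.vs), Odd W.card ∧ 3 ≤ W.card ∧ 3 ≤ (G.vs \ W).card ∧
        G.val (G.wz z e f) (G.wtok t e f) W = 3 ∧ G.val z t W = 5 ∧
        G.pi e ∈ W ∧ G.pi f ∈ W ∧ G.pi (G.al f) ∉ W ∧
        ∀ (ω : V) (hω : ω ∈ W),
          Six (G.con W ω hω hW) (G.wz z e f) (tcon (G.wtok t e f) W ω) ∧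
          ∃ M, (G.con W ω hω hW).IsPM M ∧ ∀ d ∈ M, 0 < G.wz z e f d) := by
    intro f hf hp hn hzf hcp
    refine ⟨(h.walk hN.vs_even he hf hp (int_one_le (h.int f hf) hzf) ht).1,
      wz_pos hN hNz hf hn, ?_⟩
    rcases h.step hN.vs_even he hf hp hzf ht with h1 | ⟨W, hW, a1, a2, a3, a4, a5, a6, a7, a8, a9⟩
    · exact Or.inl h1
    · exact Or.inr ⟨W, hW, a1, a2, a3, a4, a5, a6, a7, a8, fun ω hω =>
        ⟨a9 ω hω, hcp W hW ω hω a1 a2 a4⟩⟩
  rcases h.lemX hN hNz he hf1 hf2 hp1 hp2 hne hn1 hn2 hz1 hz2 ht with h1 | h1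
  · exact ⟨f1, Or.inl rfl, key f1 hf1 hp1 hn1 hz1 h1⟩
  · exact ⟨f2, Or.inr rfl, key f2 hf2 hp2 hn2 hz2 h1⟩

end MG

end RH
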