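import Pool.Agent.Lib.RH.Basic

/-! The step: some classes are absorbed, new weights. -/

set_option autoImplicit false

namespace RH

open Finset Classical

namespace MG

variable {V D : Type*} {G : MG V D} {z z' : D → ℝ} {t t' : V → ℝ} {M : Finset D}
variable {fr fr' : Finset V} {F : Finset D} {par ep : V → ℕ}

/-- data of a step: new weights in the support of the old ones, the classes outside `fr'` are
absorbed, every union containing one of them has a killed edge in its boundary -/
structure IsStep (G : MG V D) (z : D → ℝ) (fr : Finset V) (F : Finset D)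
    (z' : D → ℝ) (t' : V → ℝ) (fr' : Finset V) : Prop where
  wt : G.Wt z' t'
  tau : ∑ v ∈ G.vs, t' v < 6
  supp : ∀ d ∈ G.ds, 0 < z' d → 0 < z d
  sub : fr' ⊆ fr
  ne : fr' ≠ fr
  clo : ∀ d ∈ F, G.pi d ∈ fr' → G.pi (G.al d) ∈ fr'
  unit : ∀ d ∈ G.ds, G.pi d ∈ fr' → z' d = 1
  kill : ∀ X, G.Adm fr F X → ¬ X ⊆ fr' → ∃ d ∈ G.bd X, z' d = 0

/-- admissible sets of the new instance are admissible in the old one -/
theorem IsStep.adm_up (hs : IsStep G z fr F z' t' fr') {X : Finset V}
    (hX : G.Adm fr' (F.filter fun d => G.pi d ∈ fr') X) : G.Adm fr F X where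
  sub := fun _ hv => hs.sub (hX.sub hv)
  clo := fun d hd hp => hX.clo d (Finset.mem_filter.2 ⟨hd, hX.sub hp⟩) hp

/-- admissible sets of the old instance inside `fr'` are admissible in the new one -/
theorem IsStep.adm_down (_hs : IsStep G z fr F z' t' fr') {X : Finset V}
    (hX : G.Adm fr F X) (hXf : X ⊆ fr') :
    G.Adm fr' (F.filter fun d => G.pi d ∈ fr') X where
  sub := hXf
  clo := fun d hd hp => hX.clo d (Finset.mem_filter.1 hd).1 hp

/-- the new instance -/
theorem IsStep.inst (hs : IsStep G z fr F z' t' fr') (h : G.Inst z t fr F par ep) :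
    G.Inst z' t' fr' (F.filter fun d => G.pi d ∈ fr') par ep where
  even := h.even
  wt := hs.wt
  tau := hs.tau
  fresh :=
    { fsub := fun _ hv => h.fresh.fsub (hs.sub hv)
      Fsub := fun _ hd => h.fresh.Fsub (Finset.mem_filter.1 hd).1
      Fal := fun d hd => by
        obtain ⟨h1, h2⟩ := Finset.mem_filter.1 hd
        exact Finset.mem_filter.2 ⟨h.fresh.Fal d h1, hs.clo d h1 h2⟩
      Ffr := fun _ hd => (Finset.mem_filter.1 hd).2
      one := fun v hv => by
        have e : ((G.st v).filter fun d => d ∉ F.filter fun d => G.pi d ∈ fr') =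
            (G.st v).filter fun d => d ∉ F := by
          apply Finset.filter_congr
          intro d hd
          have hp : G.pi d = v := (mem_st.1 hd).2
          simp only [Finset.mem_filter, not_and, hp, hv, not_true_eq_false, imp_false]
        rw [e]
        exact h.fresh.one v (hs.sub hv)
      unit := hs.unit }
  cc := fun X hX ho => h.cc X (hs.adm_up hX) ho

/-- lifting -/
theorem IsStep.lift (hs : IsStep G z fr F z' t' fr') (h : G.Inst z t fr F par ep)
    (hM : G.Good z' fr' (F.filter fun d => G.pi d ∈ fr') par M) : G.Good z fr F par M where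
  pm := hM.pm
  pos := fun d hd => hs.supp d (hM.pm.sub hd) (hM.pos d hd)
  hit := fun X hX ho => by
    by_cases hXf : X ⊆ fr'
    · exact hM.hit X (hs.adm_down hX hXf) ho
    · obtain ⟨d, hd, hz⟩ := hs.kill X hX hXf
      refine ⟨d, hd, fun hdM => ?_⟩
      have := hM.pos d hdM
      rw [hz] at this
      exact lt_irrefl _ this

/-- a step solves the instance -/
theorem IsStep.solve (hs : IsStep G z fr F z' t' fr') (h : G.Inst z t fr F par ep)
    (ih : IH (G.size fr) V D) : ∃ M, G.Good z fr F par M := by
  have hlt : G.size fr' < G.size fr := by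
    have : fr'.card < fr.card := Finset.card_lt_card (hs.sub.ssubset_of_ne hs.ne)
    simp only [size]
    omega
  obtain ⟨M, hM⟩ := ih G z' t' fr' (F.filter fun d => G.pi d ∈ fr') par ep hlt (hs.inst h)
  exact ⟨M, hs.lift h hM⟩

end MG

end RH
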