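import Pool.Agent.Lib.RH.Pole

/-! Suppression (helper93, Lemma 1 with its caveat): a set `R` of vertices outside `fr` without tokens is
divided into pairs by edges `P` of weight 2, and every vertex of `R` has one edge of weight 1. If all odd
unions of fresh classes and pairs have value at least 5, then some matching of the support leaves no such
union closed. The pairs are removed one after the other (2-poles). -/

set_option autoImplicit false

namespace RH

open Finset Classical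

namespace MG

variable {V D : Type*}

/-- an instance with pairs -/
structure InstR (G : MG V D) (z : D → ℝ) (t : V → ℝ) (fr : Finset V) (F : Finset D)
    (R : Finset V) (P : Finset D) : Prop where
  even : Even G.vs.card
  wt : G.Wt z t
  tau : ∑ v ∈ G.vs, t v < 6
  fresh : G.FrS z fr F ∅
  rs : R ⊆ G.vs
  rd : Disjoint R fr
  rt : ∀ v ∈ R, t v = 0
  Ps : P ⊆ G.ds
  Pal : ∀ d ∈ P, G.al d ∈ P
  PR : ∀ d ∈ P, G.pi d ∈ R
  P1 : ∀ v ∈ R, ∃ d ∈ P, G.pi d = v
  P2 : ∀ d ∈ P, z d = 2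
  J : ∀ v ∈ R, ∃ j ∈ G.ds, G.pi j = v ∧ z j = 1
  cst : ∀ X S, G.Adm fr F X → S ⊆ R → (∀ d ∈ P, G.pi d ∈ S → G.pi (G.al d) ∈ S) →
    Odd (X ∪ S).card → 5 ≤ G.val z t (X ∪ S)

variable {G : MG V D} {z : D → ℝ} {t : V → ℝ} {fr : Finset V} {F : Finset D}
variable {R : Finset V} {P : Finset D}

/-- the darts at a vertex of a pair -/
theorem InstR.uniq (h : G.InstR z t fr F R P) {v : V} (hv : v ∈ R) {p j : D} (hp : p ∈ P)
    (hpv : G.pi p = v) (hj : j ∈ G.ds) (hjv : G.pi j = v) (hj1 : z j = 1) {d : D}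
    (hd : d ∈ G.ds) (hdv : G.pi d = v) : d = p ∨ d = j ∨ z d = 0 := by
  by_contra hcon
  rw [not_or, not_or] at hcon
  obtain ⟨h1, h2, h3⟩ := hcon
  have hw := h.wt
  have hpj : p ≠ j := by
    intro he
    have h4 := h.P2 p hp
    rw [he, hj1] at h4
    norm_num at h4
  have h4 : ({p, j, d} : Finset D) ⊆ G.st v := by
    intro x hx
    rw [mem_insert, mem_insert, mem_singleton] at hx
    rcases hx with rfl | rfl | rfl
    · exact mem_st.2 ⟨h.Ps hp, hpv⟩
    · exact mem_st.2 ⟨hj, hjv⟩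
    · exact mem_st.2 ⟨hd, hdv⟩
  have h5 : ∑ x ∈ ({p, j, d} : Finset D), z x ≤ ∑ x ∈ G.st v, z x :=
    sum_le_sum_of_subset_of_nonneg h4 fun x hx _ => hw.z0 x (mem_st.1 hx).1
  have h6 : ∑ x ∈ ({p, j, d} : Finset D), z x = z p + (z j + z d) := by
    rw [sum_insert, sum_pair (fun he => h2 he.symm)]
    rw [mem_insert, mem_singleton, not_or]
    exact ⟨hpj, fun he => h1 he.symm⟩
  have h7 := hw.deg v (h.rs hv)
  rw [h.rt v hv, add_zero] at h7
  rw [h6, h.P2 p hp, hj1, h7] at h5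
  have h8 := hw.z0 d hd
  have h9 : z d = 0 := le_antisymm (by linarith) h8
  exact h3 h9

/-- the partner of a vertex -/
theorem InstR.puniq (h : G.InstR z t fr F R P) {p p' : D} (hp : p ∈ P) (hp' : p' ∈ P)
    (he : G.pi p = G.pi p') : p = p' := by
  obtain ⟨j, h1, h2, h3⟩ := h.J _ (h.PR p hp)
  rcases h.uniq (h.PR p hp) hp rfl h1 h2 h3 (h.Ps hp') he.symm with h4 | h4 | h4
  · exact h4.symm
  · have h5 := h.P2 p' hp'
    rw [h4, h3] at h5
    norm_num at h5
  · have h5 := h.P2 p' hp'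
    rw [h4] at h5
    norm_num at h5

/-- the conclusion for an instance with pairs -/
structure GoodR (G : MG V D) (z : D → ℝ) (fr : Finset V) (F : Finset D) (R : Finset V)
    (P N : Finset D) : Prop where
  pm : G.IsPM N
  pos : ∀ d ∈ N, 0 < z d
  hit : ∀ X S, G.Adm fr F X → S ⊆ R → (∀ d ∈ P, G.pi d ∈ S → G.pi (G.al d) ∈ S) →
    Odd (X ∪ S).card → ∃ d ∈ G.bd (X ∪ S), 0 < z d ∧ d ∉ N

/-- the vertices of a pair -/
noncomputable def pr (G : MG V D) (p : D) : Finset V := {G.pi p, G.pi (G.al p)}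

theorem mem_pr {p : D} {v : V} : v ∈ G.pr p ↔ v = G.pi p ∨ v = G.pi (G.al p) := by
  unfold pr
  rw [mem_insert, mem_singleton]

theorem InstR.pr_sub (h : G.InstR z t fr F R P) {p : D} (hp : p ∈ P) : G.pr p ⊆ R := by
  intro v hv
  rcases mem_pr.1 hv with rfl | rfl
  · exact h.PR p hp
  · exact h.PR _ (h.Pal p hp)

theorem InstR.pr_card (h : G.InstR z t fr F R P) {p : D} (hp : p ∈ P) : (G.pr p).card = 2 :=
  card_pair (G.noloop p (h.Ps hp)).symm

/-- `P`-darts at a pair -/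
theorem InstR.pr_P (h : G.InstR z t fr F R P) {p d : D} (hp : p ∈ P) (hd : d ∈ P)
    (hv : G.pi d ∈ G.pr p) : G.pi (G.al d) ∈ G.pr p := by
  rcases mem_pr.1 hv with h1 | h1
  · rw [h.puniq hd hp h1]
    exact mem_pr.2 (Or.inr rfl)
  · rw [h.puniq hd (h.Pal p hp) h1, G.al_al p (h.Ps hp)]
    exact mem_pr.2 (Or.inl rfl)

theorem InstR.pr_P' (h : G.InstR z t fr F R P) {p d : D} (hp : p ∈ P) (hd : d ∈ P)
    (hv : G.pi d ∉ G.pr p) : G.pi (G.al d) ∉ G.pr p := by
  intro h1
  have h2 := h.pr_P hp (h.Pal d hd) h1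
  rw [G.al_al d (h.Ps hd)] at h2
  exact hv h2

/-- a closed set of pairs contains a given pair or is disjoint from it -/
theorem InstR.pr_or (h : G.InstR z t fr F R P) {p : D} (hp : p ∈ P) {S : Finset V}
    (hS : ∀ d ∈ P, G.pi d ∈ S → G.pi (G.al d) ∈ S) : G.pr p ⊆ S ∨ Disjoint S (G.pr p) := by
  by_cases h1 : G.pi p ∈ S
  · left
    intro v hv
    rcases mem_pr.1 hv with rfl | rfl
    · exact h1
    · exact hS p hp h1
  · right
    rw [disjoint_left]
    intro v hv hvp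
    rcases mem_pr.1 hvp with rfl | rfl
    · exact h1 hv
    · apply h1
      have h2 := hS _ (h.Pal p hp) hv
      rwa [G.al_al p (h.Ps hp)] at h2

/-- removing a pair from `R` -/
theorem InstR.step0 (h : G.InstR z t fr F R P) {p : D} (hp : p ∈ P) :
    G.InstR z t fr F (R \ G.pr p) (P.filter fun d => G.pi d ∉ G.pr p) where
  even := h.even
  wt := h.wt
  tau := h.tau
  fresh := h.fresh
  rs := sdiff_subset.trans h.rs
  rd := disjoint_of_subset_left sdiff_subset h.rd
  rt := fun v hv => h.rt v (mem_sdiff.1 hv).1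
  Ps := (filter_subset _ _).trans h.Ps
  Pal := fun d hd => by
    obtain ⟨h1, h2⟩ := mem_filter.1 hd
    exact mem_filter.2 ⟨h.Pal d h1, h.pr_P' hp h1 h2⟩
  PR := fun d hd => by
    obtain ⟨h1, h2⟩ := mem_filter.1 hd
    exact mem_sdiff.2 ⟨h.PR d h1, h2⟩
  P1 := fun v hv => by
    obtain ⟨h1, h2⟩ := mem_sdiff.1 hv
    obtain ⟨d, h3, h4⟩ := h.P1 v h1
    exact ⟨d, mem_filter.2 ⟨h3, by rw [h4]; exact h2⟩, h4⟩
  P2 := fun d hd => h.P2 d (mem_filter.1 hd).1
  J := fun v hv => h.J v (mem_sdiff.1 hv).1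
  cst := by
    intro X S hX hS hcl ho
    refine h.cst X S hX (hS.trans sdiff_subset) (fun d hd hdS => ?_) ho
    exact hcl d (mem_filter.2 ⟨hd, (mem_sdiff.1 (hS hdS)).2⟩) hdS

/-- if no edge of positive weight leaves the pair -/
theorem InstR.lift0 (h : G.InstR z t fr F R P) {p : D} (hp : p ∈ P)
    (hz : ∀ d ∈ G.ds, G.pi d ∉ G.pr p → G.pi (G.al d) ∈ G.pr p → z d = 0) {N : Finset D}
    (hN : G.GoodR z fr F (R \ G.pr p) (P.filter fun d => G.pi d ∉ G.pr p) N) :
    G.GoodR z fr F R P N where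
  pm := hN.pm
  pos := hN.pos
  hit := by
    intro X S hX hS hcl ho
    have hdX : Disjoint X (G.pr p) := disjoint_left.2 fun v hv hvp =>
      disjoint_left.1 h.rd (h.pr_sub hp hvp) (hX.sub hv)
    have hcl1 : ∀ d ∈ P.filter (fun d => G.pi d ∉ G.pr p), G.pi d ∈ S \ G.pr p →
        G.pi (G.al d) ∈ S \ G.pr p := by
      intro d hd hdS
      obtain ⟨h1, h2⟩ := mem_filter.1 hd
      exact mem_sdiff.2 ⟨hcl d h1 (mem_sdiff.1 hdS).1, h.pr_P' hp h1 h2⟩
    have hXS : X ∪ S \ G.pr p = (X ∪ S) \ G.pr p := by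
      ext v
      rw [mem_union, mem_sdiff, mem_sdiff, mem_union]
      constructor
      · rintro (h1 | ⟨h1, h2⟩)
        · exact ⟨Or.inl h1, disjoint_left.1 hdX h1⟩
        · exact ⟨Or.inr h1, h2⟩
      · rintro ⟨h1 | h1, h2⟩
        · exact Or.inl h1
        · exact Or.inr ⟨h1, h2⟩
    have ho1 : Odd (X ∪ S \ G.pr p).card := by
      rw [hXS]
      rcases h.pr_or hp hcl with h1 | h1
      · have h2 : ((X ∪ S) \ G.pr p).card + (G.pr p).card = (X ∪ S).card :=
          card_sdiff_add_card_eq_card (h1.trans subset_union_right)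
        rw [h.pr_card hp] at h2
        obtain ⟨k, hk⟩ := ho
        exact ⟨k - 1, by omega⟩
      · rwa [sdiff_eq_self_of_disjoint (disjoint_union_left.2 ⟨hdX, h1⟩)]
    obtain ⟨d, h1, h2, h3⟩ := hN.hit X (S \ G.pr p) hX (sdiff_subset_sdiff hS (Subset.refl _))
      hcl1 ho1
    rw [hXS] at h1
    obtain ⟨h4, h5, h6⟩ := mem_bd.1 h1
    refine ⟨d, mem_bd.2 ⟨h4, (mem_sdiff.1 h5).1, fun h7 => h6 ?_⟩, h2, h3⟩
    refine mem_sdiff.2 ⟨h7, fun h8 => ?_⟩
    rw [hz d h4 (mem_sdiff.1 h5).2 h8] at h2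
    exact lt_irrefl _ h2

/-- a pair is a 2-pole or no edge leaves it -/
theorem InstR.cases (h : G.InstR z t fr F R P) {p : D} (hp : p ∈ P) :
    (∃ a b, G.Pole z t fr (G.pr p) a b) ∨
      ∀ d ∈ G.ds, G.pi d ∉ G.pr p → G.pi (G.al d) ∈ G.pr p → z d = 0 := by
  have hw := h.wt
  have hp' := h.Pal p hp
  have hv := h.PR p hp
  have hv' := h.PR _ hp'
  obtain ⟨j, hj, hjv, hj1⟩ := h.J _ hv
  obtain ⟨j', hj', hjv', hj1'⟩ := h.J _ hv'
  have hpp := h.Ps hp
  have hne := G.noloop p hpp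
  have key : ∀ d ∈ G.ds, G.pi d ∉ G.pr p → G.pi (G.al d) ∈ G.pr p → d ≠ G.al j →
      d ≠ G.al j' → z d = 0 := by
    intro d hd hd1 hd2 hd3 hd4
    have h1 := G.al_mem d hd
    rw [← hw.sym d hd]
    rcases mem_pr.1 hd2 with h2 | h2
    · rcases h.uniq hv hp rfl hj hjv hj1 h1 h2 with h3 | h3 | h3
      · exfalso
        apply hd1
        rw [← G.al_al d hd, h3]
        exact mem_pr.2 (Or.inr rfl)
      · exfalso
        apply hd3
        rw [← h3, G.al_al d hd]
      · exact h3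
    · rcases h.uniq hv' hp' rfl hj' hjv' hj1' h1 h2 with h3 | h3 | h3
      · exfalso
        apply hd1
        rw [← G.al_al d hd, h3, G.al_al p hpp]
        exact mem_pr.2 (Or.inl rfl)
      · exfalso
        apply hd4
        rw [← h3, G.al_al d hd]
      · exact h3
  by_cases hjj : G.al j = j'
  · right
    intro d hd hd1 hd2
    refine key d hd hd1 hd2 ?_ ?_
    · intro h1
      apply hd1
      rw [h1, hjj, hjv']
      exact mem_pr.2 (Or.inr rfl)
    · intro h1
      apply hd1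
      rw [h1, ← hjj, G.al_al j hj, hjv]
      exact mem_pr.2 (Or.inl rfl)
  · left
    have hjj' : G.al j' ≠ j := by
      intro h1
      apply hjj
      rw [← h1, G.al_al j' hj']
    refine ⟨G.al j, G.al j', ?_⟩
    refine ⟨(h.pr_sub hp).trans h.rs, ?_, ?_, fun v hv1 => h.rt v (h.pr_sub hp hv1),
      G.al_mem j hj, G.al_mem j' hj', ?_, ?_, ?_, ?_, ?_, ?_, ?_, key⟩
    · rw [h.pr_card hp]
      exact even_two
    · exact disjoint_of_subset_left (h.pr_sub hp) h.rd
    · intro h1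
      rcases mem_pr.1 h1 with h2 | h2
      · exact G.noloop j hj (h2.trans hjv.symm)
      · rcases h.uniq hv' hp' rfl hj' hjv' hj1' (G.al_mem j hj) h2 with h3 | h3 | h3
        · have h4 := hw.sym j hj
          rw [h3, h.P2 _ hp', hj1] at h4
          norm_num at h4
        · exact hjj h3
        · have h4 := hw.sym j hj
          rw [h3, hj1] at h4
          norm_num at h4
    · intro h1
      rcases mem_pr.1 h1 with h2 | h2
      · rcases h.uniq hv hp rfl hj hjv hj1 (G.al_mem j' hj') h2 with h3 | h3 | h3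
        · have h4 := hw.sym j' hj'
          rw [h3, h.P2 _ hp, hj1'] at h4
          norm_num at h4
        · exact hjj' h3
        · have h4 := hw.sym j' hj'
          rw [h3, hj1'] at h4
          norm_num at h4
      · exact G.noloop j' hj' (h2.trans hjv'.symm)
    · rw [G.al_al j hj, hjv]
      exact mem_pr.2 (Or.inl rfl)
    · rw [G.al_al j' hj', hjv']
      exact mem_pr.2 (Or.inr rfl)
    · intro h1
      have h2 : j = j' := by rw [← G.al_al j hj, h1, G.al_al j' hj']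
      rw [h2, hjv'] at hjv
      exact hne hjv
    · rw [hw.sym j hj, hj1]
    · rw [hw.sym j' hj', hj1']

/-- replacing a pair by an edge -/
theorem InstR.step1 (h : G.InstR z t fr F R P) {p : D} (hp : p ∈ P) {a b : D}
    (hT : G.Pole z t fr (G.pr p) a b) (q : G.PL (G.pr p) a b) :
    (G.pole q).InstR z t fr F (R \ G.pr p) (P.filter fun d => G.pi d ∉ G.pr p) where
  even := by
    have h1 : (G.vs \ G.pr p).card + (G.pr p).card = G.vs.card :=
      card_sdiff_add_card_eq_card hT.sub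
    obtain ⟨k, hk⟩ := h.even
    rw [h.pr_card hp] at h1
    exact ⟨k - 1, by change (G.vs \ G.pr p).card = _; omega⟩
  wt := hT.wt h.wt q
  tau := by
    rw [hT.tau q]
    exact h.tau
  fresh := hT.frS h.fresh q
  rs := fun v hv => mem_sdiff.2 ⟨h.rs (mem_sdiff.1 hv).1, (mem_sdiff.1 hv).2⟩
  rd := disjoint_of_subset_left sdiff_subset h.rd
  rt := fun v hv => h.rt v (mem_sdiff.1 hv).1
  Ps := by
    intro d hd
    obtain ⟨h1, h2⟩ := mem_filter.1 hd
    exact (mem_pole_ds q).2 ⟨h.Ps h1, h2, Or.inr (Or.inr (h.pr_P' hp h1 h2))⟩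
  Pal := by
    intro d hd
    obtain ⟨h1, h2⟩ := mem_filter.1 hd
    have h3 := h.pr_P' hp h1 h2
    rw [pole_al_out q h3]
    exact mem_filter.2 ⟨h.Pal d h1, h3⟩
  PR := by
    intro d hd
    obtain ⟨h1, h2⟩ := mem_filter.1 hd
    exact mem_sdiff.2 ⟨h.PR d h1, h2⟩
  P1 := by
    intro v hv
    obtain ⟨h1, h2⟩ := mem_sdiff.1 hv
    obtain ⟨d, h3, h4⟩ := h.P1 v h1
    exact ⟨d, mem_filter.2 ⟨h3, by rw [h4]; exact h2⟩, h4⟩
  P2 := fun d hd => h.P2 d (mem_filter.1 hd).1
  J := by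
    intro v hv
    obtain ⟨h1, h2⟩ := mem_sdiff.1 hv
    obtain ⟨j, h3, h4, h5⟩ := h.J v h1
    have h6 : G.pi j ∉ G.pr p := by rw [h4]; exact h2
    refine ⟨j, (mem_pole_ds q).2 ⟨h3, h6, ?_⟩, h4, h5⟩
    by_contra h7
    rw [not_or, not_or, not_not] at h7
    have h8 := hT.out j h3 h6 h7.2.2 h7.1 h7.2.1
    rw [h5] at h8
    norm_num at h8
  cst := by
    intro X S hX hS hcl ho
    have hX1 := (hT.adm h.fresh q).1 hX
    have hSp : ∀ v ∈ S, v ∉ G.pr p := fun v hv => (mem_sdiff.1 (hS hv)).2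
    have hcl1 : ∀ d ∈ P, G.pi d ∈ S → G.pi (G.al d) ∈ S := by
      intro d hd hdS
      have h1 := hSp _ hdS
      have h2 := hcl d (mem_filter.2 ⟨hd, h1⟩) hdS
      rw [pole_al_out q (h.pr_P' hp hd h1)] at h2
      exact h2
    have hd : Disjoint (X ∪ S) (G.pr p) := by
      rw [disjoint_union_left]
      refine ⟨disjoint_left.2 fun v hv hvp => ?_, disjoint_left.2 hSp⟩
      exact disjoint_left.1 h.rd (h.pr_sub hp hvp) (hX.sub hv)
    by_cases hab : G.pi a ∈ X ∪ S ∧ G.pi b ∈ X ∪ S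
    · rw [hT.val_pole2 q hd hab.1 hab.2, ← hT.val_union h.wt hd hab.1 hab.2, union_assoc]
      refine h.cst X (S ∪ G.pr p) hX1 (union_subset (hS.trans sdiff_subset) (h.pr_sub hp)) ?_ ?_
      · intro d hd1 hdS
        rw [mem_union] at hdS ⊢
        rcases hdS with h1 | h1
        · exact Or.inl (hcl1 d hd1 h1)
        · exact Or.inr (h.pr_P hp hd1 h1)
      · rw [← union_assoc, card_union_of_disjoint hd, h.pr_card hp]
        exact ho.add_even even_two
    · rw [hT.val_pole q hd hab]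
      exact h.cst X S hX1 (hS.trans sdiff_subset) hcl1 ho

/-- lifting back -/
theorem InstR.lift1 (h : G.InstR z t fr F R P) {p : D} (hp : p ∈ P) {a b : D}
    (hT : G.Pole z t fr (G.pr p) a b) (q : G.PL (G.pr p) a b) {N : Finset D}
    (hN : (G.pole q).GoodR z fr F (R \ G.pr p) (P.filter fun d => G.pi d ∉ G.pr p) N) :
    ∃ N', G.GoodR z fr F R P N' := by
  obtain ⟨N', h1, h2, h3⟩ := hT.lift h.wt q hN.pm hN.pos
  have hba : b ∈ N ↔ a ∈ N := by
    constructor
    · intro h4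
      have h5 := hN.pm.closed _ h4
      rwa [pole_al_b] at h5
    · intro h4
      have h5 := hN.pm.closed _ h4
      rwa [pole_al_a] at h5
  refine ⟨N', h1, h2, ?_⟩
  intro X S hX hS hcl ho
  have hdX : Disjoint X (G.pr p) := disjoint_left.2 fun v hv hvp =>
    disjoint_left.1 h.rd (h.pr_sub hp hvp) (hX.sub hv)
  have hcl1 : ∀ d ∈ P.filter (fun d => G.pi d ∉ G.pr p), (G.pole q).pi d ∈ S \ G.pr p →
      (G.pole q).pi ((G.pole q).al d) ∈ S \ G.pr p := by
    intro d hd hdS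
    obtain ⟨h4, h5⟩ := mem_filter.1 hd
    have h6 := h.pr_P' hp h4 h5
    rw [pole_al_out q h6]
    exact mem_sdiff.2 ⟨hcl d h4 (mem_sdiff.1 hdS).1, h6⟩
  have hXS : X ∪ S \ G.pr p = (X ∪ S) \ G.pr p := by
    ext v
    rw [mem_union, mem_sdiff, mem_sdiff, mem_union]
    constructor
    · rintro (h4 | ⟨h4, h5⟩)
      · exact ⟨Or.inl h4, disjoint_left.1 hdX h4⟩
      · exact ⟨Or.inr h4, h5⟩
    · rintro ⟨h4 | h4, h5⟩
      · exact Or.inl h4
      · exact Or.inr ⟨h4, h5⟩
  have hor := h.pr_or hp hcl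
  have ho1 : Odd (X ∪ S \ G.pr p).card := by
    rw [hXS]
    rcases hor with h4 | h4
    · have h5 : ((X ∪ S) \ G.pr p).card + (G.pr p).card = (X ∪ S).card :=
        card_sdiff_add_card_eq_card (h4.trans subset_union_right)
      rw [h.pr_card hp] at h5
      obtain ⟨k, hk⟩ := ho
      exact ⟨k - 1, by omega⟩
    · rwa [sdiff_eq_self_of_disjoint (disjoint_union_left.2 ⟨hdX, h4⟩)]
  obtain ⟨d, h4, h5, h6⟩ := hN.hit X (S \ G.pr p) ((hT.adm h.fresh q).2 hX)
    (sdiff_subset_sdiff hS (Subset.refl _)) hcl1 ho1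
  rw [hXS] at h4
  obtain ⟨h7, h8, h9⟩ := mem_bd.1 h4
  have h7' := (mem_pole_ds q).1 h7
  have h8' : G.pi d ∈ (X ∪ S) \ G.pr p := h8
  have hdN : d ∉ N' := fun hh => h6 ((h3 d h7'.1 h7'.2.1).1 hh)
  have hout : ∀ x y, G.pi x ∈ (X ∪ S) \ G.pr p → x ∈ G.ds → y ∈ G.ds → G.pi y ∉ G.pr p →
      G.pi (G.al x) ∈ G.pr p → G.pi (G.al y) ∈ G.pr p → G.pi y ∉ (X ∪ S) \ G.pr p →
      z x = 1 → z y = 1 → x ∉ N' → y ∉ N' → ∃ d ∈ G.bd (X ∪ S), 0 < z d ∧ d ∉ N' := by
    intro x y hx hxd hyd hyT hx' hy' hy hzx hzy hxN hyN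
    rcases hor with h10 | h10
    · refine ⟨G.al y, mem_bd.2 ⟨G.al_mem y hyd, subset_union_right (h10 hy'), ?_⟩, ?_, ?_⟩
      · rw [G.al_al y hyd]
        exact fun h11 => hy (mem_sdiff.2 ⟨h11, hyT⟩)
      · rw [h.wt.sym y hyd, hzy]
        exact one_pos
      · intro h11
        have h12 := h1.closed _ h11
        rw [G.al_al y hyd] at h12
        exact hyN h12
    · refine ⟨x, mem_bd.2 ⟨hxd, (mem_sdiff.1 hx).1, fun h11 => ?_⟩, ?_, hxN⟩
      · rcases mem_union.1 h11 with h12 | h12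
        · exact disjoint_left.1 hdX h12 hx'
        · exact disjoint_left.1 h10 h12 hx'
      · rw [hzx]
        exact one_pos
  by_cases ea : d = a
  · subst ea
    rw [pole_al_a] at h9
    refine hout d b h8' hT.ad hT.bd hT.bT hT.aT' hT.bT' h9 hT.za hT.zb hdN ?_
    exact fun hh => h6 (hba.1 ((h3 b hT.bd hT.bT).1 hh))
  · by_cases eb : d = b
    · subst eb
      rw [pole_al_b] at h9
      refine hout d a h8' hT.bd hT.ad hT.aT hT.bT' hT.aT' h9 hT.zb hT.za hdN ?_
      exact fun hh => h6 (hba.2 ((h3 a hT.ad hT.aT).1 hh))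
    · have h10 : G.pi (G.al d) ∉ G.pr p := by
        rcases h7'.2.2 with h11 | h11 | h11
        · exact absurd h11 ea
        · exact absurd h11 eb
        · exact h11
      rw [pole_al q ea eb] at h9
      refine ⟨d, mem_bd.2 ⟨h7'.1, (mem_sdiff.1 h8').1, fun h11 => h9 ?_⟩, h5, hdN⟩
      exact mem_sdiff.2 ⟨h11, h10⟩

/-- SUPPRESSION: instances with pairs are solved by smaller instances without pairs -/
theorem InstR.solve {c : ℕ} (hc : fr.card < c)
    (ih : ∀ (G : MG V D), fr.card < c → G.InstS z t fr F ∅ ∅ (fun _ => 0) 0 →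
      ∃ M, G.GoodS z fr F ∅ M) :
    ∀ (n : ℕ) (G : MG V D) (R : Finset V) (P : Finset D), R.card = n →
      G.InstR z t fr F R P → ∃ N, G.GoodR z fr F R P N := by
  intro n
  induction n using Nat.strong_induction_on with
  | _ n IH =>
    intro G R P hRn h
    rcases R.eq_empty_or_nonempty with hR | ⟨v, hv⟩
    · subst hR
      have hI : G.InstS z t fr F ∅ ∅ (fun _ => 0) 0 := by
        refine ⟨h.even, h.wt, h.tau, h.fresh, ?_, ?_, empty_subset _, Or.inl rfl, Or.inl rfl,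
          fun h1 => absurd h1 not_nonempty_empty, fun X _ _ h1 => absurd h1 not_nonempty_empty,
          fun v _ => by rw [if_neg (notMem_empty v)]⟩
        · intro X hX ho
          have h1 := h.cst X ∅ hX (Subset.refl _)
            (fun d _ h2 => absurd h2 (notMem_empty _)) (by rwa [union_empty])
          rw [union_empty, h.fresh.val_fr h.wt hX.sub (disjoint_empty_right _)] at h1
          rw [sum_const_zero, add_zero]
          exact_mod_cast h1
        · intro X _ _ _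
          exact Nat.zero_le _
      obtain ⟨M, hM⟩ := ih G hc hI
      refine ⟨M, hM.pm, hM.pos, ?_⟩
      intro X S hX hS _ ho
      have hS0 : S = ∅ := subset_empty.1 hS
      subst hS0
      rw [union_empty] at ho ⊢
      obtain ⟨d, h1, h2⟩ := hM.hit X hX (Or.inl ho)
      refine ⟨d, h1, ?_, h2⟩
      obtain ⟨h3, h4, -⟩ := mem_bd.1 h1
      rw [h.fresh.unit d h3 (hX.sub h4)]
      exact one_pos
    · obtain ⟨p, hp, -⟩ := h.P1 v hv
      have hlt : (R \ G.pr p).card < n := by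
        have h1 : (R \ G.pr p).card + (G.pr p).card = R.card :=
          card_sdiff_add_card_eq_card (h.pr_sub hp)
        rw [h.pr_card hp] at h1
        omega
      rcases h.cases hp with ⟨a, b, hT⟩ | hz
      · have q := hT.pl h.wt
        obtain ⟨N, hN⟩ := IH _ hlt (G.pole q) _ _ rfl (h.step1 hp hT q)
        exact h.lift1 hp hT q hN
      · obtain ⟨N, hN⟩ := IH _ hlt G _ _ rfl (h.step0 hp)
        exact ⟨N, h.lift0 hp hz hN⟩

end MG

end RH
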