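import Pool.Agent.Lib.RH.MConn

/-! Free absorption with any position of the star, and its parity consequences (helper79, helper63). -/

set_option autoImplicit false

namespace RH

open Finset Classical

namespace MG

variable {V D : Type*} {G : MG V D} {z z' : D → ℝ} {t t' : V → ℝ} {fr : Finset V} {F : Finset D}
variable {jm sx : Finset V} {ep : V → ℕ} {m : ℕ} {M : Finset D}

/-- FREE ABSORPTION of a circuit, any position of the star (if the star meets `C`, absorb all classes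
meeting the star or `C`; the closed union of `MCS.absorb` contains both star vertices or none
(`InstS.star_sub`), so it contains `C`) -/
theorem MCS.free_circ (h : G.MCS z t fr F jm sx ep m) {C : Finset V} (hC : G.Circ fr F C) :
    ∃ M, G.IsPM M ∧ (∀ d ∈ M, 0 < z d) ∧ ∀ d ∈ G.ed C (G.vs \ fr), d ∈ M := by
  have hF := h.inst.fresh
  have hsx : sx = jm := h.inst.sx_eq
  have hCcl : ∀ X, G.Adm fr F X → (X ∩ C).Nonempty → C ⊆ X := by
    intro X hX hne
    have h1 : G.Adm fr F (X ∩ C) := by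
      refine ⟨inter_subset_left.trans hX.sub, fun d hd hp => ?_⟩
      rw [mem_inter] at hp ⊢
      exact ⟨hX.clo d hd hp.1, hC.adm.clo d hd hp.2⟩
    have h2 := hC.min _ h1 inter_subset_right hne
    rw [← h2]
    exact inter_subset_left
  by_cases hdj : Disjoint C jm
  · exact h.free_abs hC.adm hC.ne hCcl (Or.inl ⟨by rw [hsx]; exact hdj, hdj⟩)
  · rw [disjoint_iff_inter_eq_empty, ← not_nonempty_iff_eq_empty, not_not] at hdj
    obtain ⟨x0, hx0⟩ := hdj
    obtain ⟨hx0C, hx0j⟩ := mem_inter.1 hx0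
    have hfr : G.Adm fr F fr := ⟨Subset.refl _, fun d hd _ => hF.Ffr _ (hF.Fal d hd)⟩
    have hK : ∀ v : V, ∃ K : Finset V, v ∈ jm → (v ∈ K ∧ G.Adm fr F K ∧
        ∀ X, G.Adm fr F X → (X ∩ K).Nonempty → K ⊆ X) := by
      intro v
      by_cases hv : v ∈ jm
      · obtain ⟨K, -, h1, h2, h3⟩ := hF.exists_class hfr (hF.jms hv)
        exact ⟨K, fun _ => ⟨h1, h2, h3⟩⟩
      · exact ⟨∅, fun h1 => absurd h1 hv⟩
    choose K hK using hK
    have hYadm : G.Adm fr F (C ∪ jm.biUnion K) := by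
      refine ⟨union_subset hC.adm.sub (biUnion_subset.2 fun v hv => (hK v hv).2.1.sub), ?_⟩
      intro d hd hp
      rcases mem_union.1 hp with h1 | h1
      · exact mem_union.2 (Or.inl (hC.adm.clo d hd h1))
      · obtain ⟨v, hv, h2⟩ := mem_biUnion.1 h1
        exact mem_union.2 (Or.inr (mem_biUnion.2 ⟨v, hv, (hK v hv).2.1.clo d hd h2⟩))
    have hjY : jm ⊆ C ∪ jm.biUnion K := fun v hv =>
      mem_union.2 (Or.inr (mem_biUnion.2 ⟨v, hv, (hK v hv).1⟩))
    obtain ⟨M, h1, h2, -, X, hX, hXY, hO, hcl⟩ := h.absorb hYadm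
      ⟨x0, hjY hx0j⟩ (Or.inr ⟨by rw [hsx]; exact hjY, hjY⟩)
    have hCX : C ⊆ X := by
      obtain ⟨y, hy⟩ := hXY
      obtain ⟨hyX, hyY⟩ := mem_inter.1 hy
      rcases mem_union.1 hyY with h3 | h3
      · exact hCcl X hX ⟨y, mem_inter.2 ⟨hyX, h3⟩⟩
      · obtain ⟨v, hv, h4⟩ := mem_biUnion.1 h3
        have h5 : v ∈ X := (hK v hv).2.2 X hX ⟨y, mem_inter.2 ⟨hyX, h4⟩⟩ (hK v hv).1
        have h6 : sx ⊆ X := h.inst.star_sub h1 hX hcl (by rw [hsx]; exact hv) h5
        exact hCcl X hX ⟨x0, mem_inter.2 ⟨h6 (by rw [hsx]; exact hx0j), hx0C⟩⟩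
    refine ⟨M, h1, h2, fun d hd => hcl d ?_⟩
    obtain ⟨h4, h5, h6⟩ := mem_filter.1 hd
    exact mem_bd.2 ⟨h4, hCX h5, fun h7 => (mem_sdiff.1 h6).2 (hX.sub h7)⟩

/-- FA: if all support edges leaving `S` (outside `fr`) end on one circuit, their number has the parity
of `|S|` -/
theorem MCS.fa_par (h : G.MCS z t fr F jm sx ep m) {C : Finset V} (hC : G.Circ fr F C)
    {S : Finset V} (hS : S ⊆ G.vs) (hSf : Disjoint S fr)
    (hall : ∀ d ∈ G.bd S, z d ≠ 0 → G.pi (G.al d) ∈ C) :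
    Even (S.card + ((G.bd S).filter fun d => z d ≠ 0).card) := by
  obtain ⟨M, hM, hpos, hall'⟩ := h.free_circ hC
  have h1 := hM.parity hS
  have h2 : ((G.bd S).filter fun d => z d ≠ 0) = (G.bd S).filter fun d => d ∈ M := by
    apply filter_congr
    intro d hd
    obtain ⟨h3, h4, h5⟩ := mem_bd.1 hd
    constructor
    · intro h6
      have h7 : G.al d ∈ M := by
        refine hall' _ (mem_filter.2 ⟨G.al_mem d h3, hall d hd h6, ?_⟩)
        rw [G.al_al d h3]
        exact mem_sdiff.2 ⟨hS h4, disjoint_left.1 hSf h4⟩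
      have h8 := hM.closed _ h7
      rwa [G.al_al d h3] at h8
    · intro h6
      exact ne_of_gt (hpos d h6)
  rw [h2, Nat.even_iff]
  omega

/-- a vertex outside `fr` has at most one leg to a circuit -/
theorem MCS.one_leg (h : G.MCS z t fr F jm sx ep m) {C : Finset V} (hC : G.Circ fr F C)
    {j j' : D} (hj : j ∈ G.ds) (hj' : j' ∈ G.ds) (hx : G.pi j ∈ C) (hx' : G.pi j' ∈ C)
    (hw : G.pi (G.al j) ∉ fr) (heq : G.pi (G.al j') = G.pi (G.al j)) : j = j' := by
  obtain ⟨M, hM, -, hall⟩ := h.free_circ hC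
  have hwv : G.pi (G.al j) ∈ G.vs := G.pi_mem _ (G.al_mem j hj)
  have h1 : j ∈ M := hall j (mem_filter.2 ⟨hj, hx, mem_sdiff.2 ⟨hwv, hw⟩⟩)
  have h2 : j' ∈ M := by
    refine hall j' (mem_filter.2 ⟨hj', hx', mem_sdiff.2 ⟨?_, ?_⟩⟩)
    · rw [heq]
      exact hwv
    · rw [heq]
      exact hw
  have h3 : G.al j = G.al j' := by
    have h4 := card_eq_one.1 (hM.one _ hwv)
    obtain ⟨a, ha⟩ := h4
    have h5 : G.al j ∈ ({a} : Finset D) := by
      rw [← ha]
      exact mem_filter.2 ⟨hM.closed _ h1, rfl⟩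
    have h6 : G.al j' ∈ ({a} : Finset D) := by
      rw [← ha]
      exact mem_filter.2 ⟨hM.closed _ h2, heq⟩
    rw [mem_singleton.1 h5, mem_singleton.1 h6]
  rw [← G.al_al j hj, ← G.al_al j' hj', h3]

end MG

end RH
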