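import Pool.Agent.Lib.RH.T5FourH

/-! Even sets of value 2 in minimal counterexamples with 5 tokens: the payment of an odd arc. -/

set_option autoImplicit false

namespace RH

open Finset Classical

namespace MG

variable {V D : Type*} {G : MG V D} {z z' : D → ℝ} {t t' : V → ℝ} {fr : Finset V} {F : Finset D}
variable {jm sx : Finset V} {ep : V → ℕ} {m : ℕ} {M : Finset D}

/-- small payment inside an even set of value at most 6 -/
theorem N5.pay_dir (h : G.N5 z t fr F jm sx ep m) {U : Finset V} (hU : U ⊆ G.vs)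
    (hv : G.val z t U ≤ 6) {a : D → ℝ}
    (hsym : ∀ d ∈ G.ds, a (G.al d) = a d)
    (hsupp : ∀ d ∈ (G.res U).ds, a d ≠ 0 → d ∈ G.hd z)
    (hb : ∀ v ∈ U, G.tres z t U v = 0 → ∑ d ∈ (G.res U).st v, a d ≤ 0)
    (hneg : 0 < ∑ v ∈ U, ∑ d ∈ (G.res U).st v, a d) :
    ∃ z'' t'', (G.res U).Wt z'' t'' ∧ ∑ v ∈ U, t'' v < 6 ∧
      (∀ d ∈ (G.res U).ds, z d = 0 → z'' d = 0) ∧
      ∀ d ∈ (G.res U).ds, G.pi d ∈ fr → z'' d = z d := by
  have hw := h.mc.inst.wt
  have hvs : (G.res U).vs = U := inter_eq_right.2 hU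
  have hds : ∀ d ∈ (G.res U).ds, d ∈ G.ds := fun d hd => (mem_filter.1 hd).1
  have hz0 : ∀ d ∈ (G.res U).ds, z d = 0 → a d = 0 := by
    intro d hd h0
    by_contra h1
    exact (mem_hd.1 (hsupp d hd h1)).2 ⟨0, by rw [h0]; norm_num⟩
  have hdeg : ∀ v ∈ (G.res U).vs, ∑ d ∈ (G.res U).st v, a d +
      (fun v => -∑ d ∈ (G.res U).st v, a d) v = 0 := by
    intro v _
    simp
  obtain ⟨ε, hε, hpert⟩ := (hw.res hU).pert a (fun v => -∑ d ∈ (G.res U).st v, a d)
    (fun d hd => hsym d (hds d hd)) hdeg (fun d hd h0 => (hz0 d hd h0).ge)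
    (fun v hv h0 => by
      rw [hvs] at hv
      have := hb v hv h0
      simpa using this)
    (by
      intro X hX ho h3
      have hXU : X ⊆ U := by rwa [hvs] at hX
      rw [res_val hw hU hXU] at h3
      rw [pert_val a _ hdeg hX]
      by_cases h4 : X.card = 1
      · obtain ⟨v, rfl⟩ := card_eq_one.1 h4
        have h5 : (G.res U).ed {v} {v} = ∅ := by
          rw [eq_empty_iff_forall_notMem]
          intro d hd
          obtain ⟨h6, h7, h8⟩ := mem_ed.1 hd
          rw [mem_singleton] at h7 h8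
          exact (G.res U).noloop d h6 (by rw [h7, h8])
        rw [h5, sum_empty, neg_zero]
      · rcases h.v4D (hXU.trans hU) ho h4 with h5 | ⟨x, p, q, h5⟩
        · linarith
        · -- a digon set: twice the sum at `p`
          have hpX : p ∈ X := by rw [h5.W]; simp
          have e1 : ∀ d, (if d ∈ (G.res U).ds then a d else 0) ≠ 0 → d ∈ (G.res U).ds ∧ a d ≠ 0 := by
            intro d h6
            split_ifs at h6 with h7
            · exact ⟨h7, h6⟩
            · exact absurd rfl h6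
          have e2 := h5.ed (a := fun d => if d ∈ (G.res U).ds then a d else 0)
            (fun d hd => by
              by_cases h6 : d ∈ (G.res U).ds
              · have h7 : G.al d ∈ (G.res U).ds := (G.res U).al_mem d h6
                rw [if_pos h6, if_pos h7, hsym d hd]
              · have h7 : G.al d ∉ (G.res U).ds := by
                  intro h7
                  have h8 := (G.res U).al_mem _ h7
                  have h9 : (G.res U).al (G.al d) = d := G.al_al d hd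
                  rw [h9] at h8
                  exact h6 h8
                rw [if_neg h6, if_neg h7])
            (fun d hd h0 => by
              by_contra h6
              obtain ⟨h7, h8⟩ := e1 d h6
              exact h8 (hz0 d h7 h0))
          have e3 : ∑ d ∈ G.ed X X, (if d ∈ (G.res U).ds then a d else 0) =
              ∑ d ∈ (G.res U).ed X X, a d := by
            have h6 : (G.res U).ed X X = G.ed X X := by
              ext d
              rw [mem_ed, mem_ed]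
              constructor
              · rintro ⟨h7, h8, h9⟩
                exact ⟨hds d h7, h8, h9⟩
              · rintro ⟨h7, h8, h9⟩
                exact ⟨mem_filter.2 ⟨h7, hXU h8, hXU h9⟩, h8, h9⟩
            rw [h6]
            refine sum_congr rfl fun d hd => if_pos ?_
            obtain ⟨h7, h8, h9⟩ := mem_ed.1 hd
            exact mem_filter.2 ⟨h7, hXU h8, hXU h9⟩
          have e4 : ∑ d ∈ G.st p, (if d ∈ (G.res U).ds then a d else 0) =
              ∑ d ∈ (G.res U).st p, a d := by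
            rw [← sum_filter]
            refine sum_congr ?_ fun _ _ => rfl
            ext d
            rw [mem_filter, mem_st, mem_st]
            constructor
            · rintro ⟨⟨h7, h8⟩, h9⟩
              exact ⟨h9, h8⟩
            · rintro ⟨h7, h8⟩
              exact ⟨⟨hds d h7, h8⟩, h7⟩
          have e5 : G.tres z t U p = 0 := by
            unfold tres
            rw [h5.tp, zero_add]
            refine sum_eq_zero fun d hd => ?_
            obtain ⟨h6, h7⟩ := mem_filter.1 hd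
            obtain ⟨h8, h9⟩ := mem_st.1 h6
            by_contra h10
            rcases h5.nb d h8 h9 h10 with h11 | h11
            · exact h7 (hXU (by rw [h11, h5.W]; simp))
            · exact h7 (hXU (by rw [h11, h5.W]; simp))
          have e6 := hb p (hXU hpX) e5
          rw [← e3, e2, e4]
          linarith)
  refine ⟨_, _, hpert ε hε.le le_rfl, ?_, ?_, ?_⟩
  · have h1 := res_tau hw hU
    rw [hvs] at h1
    rw [sum_add_distrib, h1, ← mul_sum, sum_neg_distrib]
    have h2 := mul_pos hε hneg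
    linarith
  · intro d hd h0
    show z d + ε * a d = 0
    rw [h0, hz0 d hd h0]
    ring
  · intro d hd hp
    have h1 : a d = 0 := by
      by_contra h2
      exact (h.hd_out (hsupp d hd h2)).1 hp
    show z d + ε * a d = z d
    rw [h1]
    ring

/-- the payment of an odd arc -/
theorem N5.four_pay (h : G.N5 z t fr F jm sx ep m) {Z : Finset V} (hZ : Z ⊆ G.vs)
    (he : Even Z.card) (h2 : G.val z t Z = 2) (h4 : 4 ≤ Z.card) (h4' : 4 ≤ (G.vs \ Z).card)
    {d1 d2 d3 : D} (hd1 : d1 ∈ G.bd Z) (hd2 : d2 ∈ G.bd Z) (hd3 : d3 ∈ G.bd Z) (hz1 : z d1 ≠ 0)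
    (hz2 : z d2 ≠ 0) (hz3 : z d3 ≠ 0) (h12 : d1 ≠ d2) (h13 : d1 ≠ d3) (h23 : d2 ≠ d3)
    {l : List D}
    (hl : G.IsW ((G.hd z).filter fun d => G.pi d ∈ Z ∧ G.pi (G.al d) ∈ Z) (G.pi d1) l (G.pi d3))
    (hlen : Even l.length) (hjZ : ∀ v ∈ Z, v ∉ jm) :
    ∃ z'' t'', (G.res (Z \ {G.pi d1, G.pi d2})).Wt z'' t'' ∧
      ∑ v ∈ Z \ {G.pi d1, G.pi d2}, t'' v < 6 ∧
      (∀ d ∈ (G.res (Z \ {G.pi d1, G.pi d2})).ds, z d = 0 → z'' d = 0) ∧
      ∀ d ∈ (G.res (Z \ {G.pi d1, G.pi d2})).ds, G.pi d ∈ fr → z'' d = z d := by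
  have hw := h.mc.inst.wt
  obtain ⟨f1, f2, f3, f4, f5⟩ := h.four_half hZ he h2 h4 h4' hjZ
  obtain ⟨p, hp⟩ : ∃ p, p = G.pi d1 := ⟨_, rfl⟩
  obtain ⟨q, hq⟩ : ∃ q, q = G.pi d2 := ⟨_, rfl⟩
  obtain ⟨r, hr⟩ : ∃ r, r = G.pi d3 := ⟨_, rfl⟩
  rw [← hp, ← hr] at hl
  rw [← hp, ← hq]
  have m1 := mem_bd.1 hd1
  have m2 := mem_bd.1 hd2
  have m3 := mem_bd.1 hd3
  have hpq : p ≠ q := fun h5 => h12 (f4 d1 hd1 d2 hd2 hz1 hz2 (by rw [← hp, ← hq, h5]))
  have hpr : p ≠ r := fun h5 => h13 (f4 d1 hd1 d3 hd3 hz1 hz3 (by rw [← hp, ← hr, h5]))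
  have hqr : q ≠ r := fun h5 => h23 (f4 d2 hd2 d3 hd3 hz2 hz3 (by rw [← hq, ← hr, h5]))
  have hpZ : p ∈ Z := by rw [hp]; exact m1.2.1
  have hqZ : q ∈ Z := by rw [hq]; exact m2.2.1
  have hrZ : r ∈ Z := by rw [hr]; exact m3.2.1
  obtain ⟨U, hUd⟩ : ∃ U, U = Z \ {p, q} := ⟨_, rfl⟩
  rw [← hUd]
  have hmU : ∀ v, v ∈ U ↔ v ∈ Z ∧ v ≠ p ∧ v ≠ q := by
    intro v
    rw [hUd, mem_sdiff, mem_insert, mem_singleton, not_or]
  have hUZ : U ⊆ Z := fun v hv => ((hmU v).1 hv).1
  have hU : U ⊆ G.vs := hUZ.trans hZ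
  have hrU : r ∈ U := (hmU r).2 ⟨hrZ, hpr.symm, hqr.symm⟩
  -- boundary sums at the ends
  have hone : ∀ d ∈ G.bd Z, z d ≠ 0 → 1 / 2 ≤ ∑ x ∈ G.ed {G.pi d} (G.vs \ Z), z x := by
    intro d hd h0
    rw [← f1 d hd h0]
    obtain ⟨h5, h6, h7⟩ := mem_bd.1 hd
    exact single_le_sum (f := z) (s := G.ed {G.pi d} (G.vs \ Z))
      (fun x hx => hw.z0 x (mem_ed.1 hx).1)
      (mem_ed.2 ⟨h5, mem_singleton_self _, mem_sdiff.2 ⟨G.pi_mem _ (G.al_mem d h5), h7⟩⟩)
  -- value of U
  have hval : G.val z t U ≤ 6 := by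
    have e1 : G.val z t (Z.erase p) ≤ 4 := by
      rw [hw.val_erase hZ hpZ, h2, f2 p hpZ]
      have := hone d1 hd1 hz1
      rw [← hp] at this
      linarith
    have hqE : q ∈ Z.erase p := mem_erase.2 ⟨hpq.symm, hqZ⟩
    have e2 : U = (Z.erase p).erase q := by
      ext v
      rw [hmU, mem_erase, mem_erase]
      tauto
    rw [e2, hw.val_erase ((erase_subset _ _).trans hZ) hqE, f2 q hqZ]
    have e3 := hone d2 hd2 hz2
    rw [← hq] at e3
    have e4 : ∑ x ∈ G.ed {q} (G.vs \ Z), z x ≤ ∑ x ∈ G.ed {q} (G.vs \ Z.erase p), z x := by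
      refine sum_le_sum_of_subset_of_nonneg ?_ fun x hx _ => hw.z0 x (mem_ed.1 hx).1
      intro x hx
      obtain ⟨h5, h6, h7⟩ := mem_ed.1 hx
      exact mem_ed.2 ⟨h5, h6, mem_sdiff.2 ⟨(mem_sdiff.1 h7).1, fun h8 =>
        (mem_sdiff.1 h7).2 (mem_erase.1 h8).2⟩⟩
    linarith
  -- half darts inside Z
  obtain ⟨H, hH⟩ : ∃ H, H = (G.hd z).filter fun d => G.pi d ∈ Z ∧ G.pi (G.al d) ∈ Z := ⟨_, rfl⟩
  rw [← hH] at hl
  have hmH : ∀ d, d ∈ H ↔ d ∈ G.hd z ∧ G.pi d ∈ Z ∧ G.pi (G.al d) ∈ Z := by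
    intro d
    rw [hH, mem_filter]
  have hHs : G.Sy H := by
    refine ⟨fun d hd => (mem_hd.1 ((hmH d).1 hd).1).1, fun d hd => ?_⟩
    obtain ⟨h5, h6, h7⟩ := (hmH d).1 hd
    refine (hmH _).2 ⟨(h.hd_out h5).2.1, h7, ?_⟩
    rw [G.al_al d (mem_hd.1 h5).1]
    exact h6
  have hbdhd : ∀ d ∈ G.bd Z, z d ≠ 0 → d ∈ G.hd z := by
    intro d hd h0
    refine mem_hd.2 ⟨(mem_bd.1 hd).1, ?_⟩
    rintro ⟨k, hk⟩
    rw [f1 d hd h0] at hk
    have h5 : (2 : ℝ) * k = 1 := by rw [← hk]; norm_num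
    have h6 : (2 : ℤ) * k = 1 := by exact_mod_cast h5
    omega
  -- at a boundary end only one dart of H
  have hun : ∀ d ∈ G.bd Z, z d ≠ 0 → ∀ x ∈ H, ∀ y ∈ H, G.pi x = G.pi d → G.pi y = G.pi d →
      x = y := by
    intro d hd h0 x hx y hy h5 h6
    by_contra hne
    have h7 := h.hd_two (hbdhd d hd h0)
    have h8 : ({d, x, y} : Finset D) ⊆ (G.hd z).filter fun e => G.pi e = G.pi d := by
      intro e he'
      rw [mem_insert, mem_insert, mem_singleton] at he'
      rcases he' with rfl | rfl | rfl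
      · exact mem_filter.2 ⟨hbdhd _ hd h0, rfl⟩
      · exact mem_filter.2 ⟨((hmH _).1 hx).1, h5⟩
      · exact mem_filter.2 ⟨((hmH _).1 hy).1, h6⟩
    have h9 := card_le_card h8
    have hdx : d ≠ x := fun h10 => (mem_bd.1 hd).2.2 (by rw [h10]; exact ((hmH _).1 hx).2.2)
    have hdy : d ≠ y := fun h10 => (mem_bd.1 hd).2.2 (by rw [h10]; exact ((hmH _).1 hy).2.2)
    rw [h7, card_insert_of_notMem, card_pair hne] at h9
    · omega
    · rw [mem_insert, mem_singleton, not_or]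
      exact ⟨hdx, hdy⟩
  have hwaz : ∀ e, e ∉ H → G.wa l e = 0 := fun e he' => wa_zero hHs hl.mem he'
  have hwas : ∀ e ∈ G.ds, G.wa l (G.al e) = G.wa l e := fun e he' =>
    wa_sym hHs.sub hl.mem he'
  have hwad : ∀ v, ∑ d ∈ G.st v, G.wa l d = (if v = p then 1 else 0) - if v = r then 1 else 0 := by
    intro v
    have h5 := wa_deg hHs hl v
    unfold wb at h5
    rw [hlen.neg_one_pow] at h5
    linarith
  have hsingle : ∀ d ∈ G.bd Z, z d ≠ 0 → ∀ x ∈ H, G.pi x = G.pi d →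
      ∑ e ∈ G.st (G.pi d), G.wa l e = G.wa l x := by
    intro d hd h0 x hx h5
    refine sum_eq_single x (fun e he' hne => hwaz e fun h6 => hne ?_) fun h6 => ?_
    · exact hun d hd h0 e h6 x hx (mem_st.1 he').2 h5
    · exact absurd (mem_st.2 ⟨hHs.sub hx, h5⟩) h6
  have hwq : ∀ x ∈ G.ds, G.pi x = q → G.wa l x = 0 := by
    intro x hx hxq
    by_cases hxH : x ∈ H
    · have h5 := hsingle d2 hd2 hz2 x hxH (by rw [hxq, hq])
      rw [hwad, ← hq, if_neg hpq.symm, if_neg hqr] at h5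
      rw [← h5]
      norm_num
    · exact hwaz x hxH
  have hwp : ∀ x ∈ H, G.pi x = p → G.wa l x = 1 := by
    intro x hxH hxp
    have h5 := hsingle d1 hd1 hz1 x hxH (by rw [hxp, hp])
    rw [hwad, ← hp, if_pos rfl, if_neg hpr] at h5
    rw [← h5]
    norm_num
  -- darts of the arc leaving U
  have hout : ∀ v ∈ U, ∑ d ∈ (G.res U).st v, G.wa l d = (if v = p then 1 else 0) -
      (if v = r then 1 else 0) -
      ∑ d ∈ (G.st v).filter (fun d => G.pi (G.al d) ∉ U), G.wa l d := by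
    intro v hv
    rw [← hwad v, ← sum_filter_add_sum_filter_not (G.st v) (fun d => G.pi (G.al d) ∈ U)]
    have h5 : (G.res U).st v = (G.st v).filter fun d => G.pi (G.al d) ∈ U := by
      ext d
      rw [mem_st, mem_filter, mem_st]
      constructor
      · rintro ⟨h6, h7⟩
        obtain ⟨h8, h9, h10⟩ := mem_filter.1 h6
        exact ⟨⟨h8, h7⟩, h10⟩
      · rintro ⟨⟨h6, h7⟩, h8⟩
        exact ⟨mem_filter.2 ⟨h6, by rw [h7]; exact hv, h8⟩, h7⟩
    rw [h5]
    ring
  have hge : ∀ v ∈ U, 0 ≤ ∑ d ∈ (G.st v).filter (fun d => G.pi (G.al d) ∉ U), G.wa l d ∧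
      (G.tres z t U v = 0 →
        ∑ d ∈ (G.st v).filter (fun d => G.pi (G.al d) ∉ U), G.wa l d = 0) := by
    intro v hv
    have key : ∀ d ∈ (G.st v).filter (fun d => G.pi (G.al d) ∉ U), 0 ≤ G.wa l d ∧
        (G.wa l d ≠ 0 → 1 / 2 ≤ z d) := by
      intro d hd
      obtain ⟨h5, h6⟩ := mem_filter.1 hd
      obtain ⟨h7, h8⟩ := mem_st.1 h5
      by_cases h9 : d ∈ H
      · have h10 : G.pi (G.al d) = p ∨ G.pi (G.al d) = q := by
          by_contra h11
          rw [not_or] at h11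
          exact h6 ((hmU _).2 ⟨((hmH d).1 h9).2.2, h11.1, h11.2⟩)
        have h11 : 1 / 2 ≤ z d := h.z_half h7 fun h12 => (mem_hd.1 ((hmH d).1 h9).1).2
          ⟨0, by rw [h12]; norm_num⟩
        rcases h10 with h10 | h10
        · have h12 := hwp _ (hHs.al d h9) h10
          rw [hwas d h7] at h12
          rw [h12]
          exact ⟨by norm_num, fun _ => h11⟩
        · have h12 := hwq _ (G.al_mem d h7) h10
          rw [hwas d h7] at h12
          rw [h12]
          exact ⟨le_rfl, fun h13 => absurd rfl h13⟩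
      · rw [hwaz d h9]
        exact ⟨le_rfl, fun h13 => absurd rfl h13⟩
    refine ⟨sum_nonneg fun d hd => (key d hd).1, fun h0 => sum_eq_zero fun d hd => ?_⟩
    by_contra h5
    have h6 := (key d hd).2 h5
    unfold tres at h0
    have h7 := single_le_sum (f := z) (s := (G.st v).filter fun d => G.pi (G.al d) ∉ U)
      (fun e he' => hw.z0 e (mem_st.1 (mem_filter.1 he').1).1) hd
    have h8 := hw.t0 v (hU hv)
    linarith
  have htr : G.tres z t U r ≠ 0 := by
    intro h0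
    unfold tres at h0
    have h5 : d3 ∈ (G.st r).filter fun d => G.pi (G.al d) ∉ U :=
      mem_filter.2 ⟨mem_st.2 ⟨m3.1, hr.symm⟩, fun h6 => m3.2.2 (hUZ h6)⟩
    have h7 := single_le_sum (f := z) (s := (G.st r).filter fun d => G.pi (G.al d) ∉ U)
      (fun e he' => hw.z0 e (mem_st.1 (mem_filter.1 he').1).1) h5
    have h8 := hw.t0 r (hU hrU)
    rw [f1 d3 hd3 hz3] at h7
    linarith
  refine h.pay_dir hU hval (a := fun d => -G.wa l d) (fun d hd => by rw [hwas d hd])
    (fun d hd h0 => ?_) (fun v hv h0 => ?_) ?_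
  · by_contra h5
    refine h0 ?_
    have h6 : d ∉ H := fun h7 => h5 ((hmH d).1 h7).1
    rw [hwaz d h6, neg_zero]
  · rw [sum_neg_distrib, hout v hv, (hge v hv).2 h0, if_neg ((hmU v).1 hv).2.1,
      if_neg fun h5 => htr (by rw [← h5]; exact h0)]
    norm_num
  · have h5 : ∀ v ∈ U, (if v = r then (1 : ℝ) else 0) ≤ ∑ d ∈ (G.res U).st v, -G.wa l d := by
      intro v hv
      rw [sum_neg_distrib, hout v hv, if_neg ((hmU v).1 hv).2.1]
      have := (hge v hv).1
      linarith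
    have h6 := sum_le_sum h5
    rw [sum_ite_eq' U r, if_pos hrU] at h6
    linarith

end MG

end RH
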