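import Pool.Agent.Lib.RH.T5FourA
import Pool.Agent.Lib.RH.T5FourP

/-! Even sets of value 2 in minimal counterexamples with 5 tokens (helper69 Z-GLUE): odd arcs. -/

set_option autoImplicit false

namespace RH

open Finset Classical

namespace MG

variable {V D : Type*} {G : MG V D} {z z' : D → ℝ} {t t' : V → ℝ} {fr : Finset V} {F : Finset D}
variable {jm sx : Finset V} {ep : V → ℕ} {m : ℕ} {M : Finset D}

/-- an odd arc pays (`N5.four_pay` in the form of `Z4.glue`) -/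
theorem N5.odd_pays (h : G.N5 z t fr F jm sx ep m) {Z : Finset V} (hZ : Z ⊆ G.vs)
    (he : Even Z.card) (h2 : G.val z t Z = 2) (h4 : 4 ≤ Z.card) (h4' : 4 ≤ (G.vs \ Z).card)
    (hjZ : ∀ v ∈ Z, v ∉ jm) {d1 d2 d3 : D} (hd1 : d1 ∈ G.bd Z) (hd2 : d2 ∈ G.bd Z)
    (hd3 : d3 ∈ G.bd Z) (hz1 : z d1 ≠ 0) (hz2 : z d2 ≠ 0) (hz3 : z d3 ≠ 0) (h12 : d1 ≠ d2)
    (h13 : d1 ≠ d3) (h23 : d2 ≠ d3) {l : List D}
    (hl : G.IsW ((G.hd z).filter fun d => G.pi d ∈ Z ∧ G.pi (G.al d) ∈ Z) (G.pi d1) l (G.pi d3))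
    (hlen : Even l.length) : G.Pays z fr F Z ((Z.erase (G.pi d1)).erase (G.pi d2)) := by
  obtain ⟨z'', t'', w1, w2, w3, w4⟩ := h.four_pay hZ he h2 h4 h4' hd1 hd2 hd3 hz1 hz2 hz3 h12 h13
    h23 hl hlen hjZ
  have e : Z \ {G.pi d1, G.pi d2} = (Z.erase (G.pi d1)).erase (G.pi d2) := by
    ext v
    rw [mem_sdiff, mem_insert, mem_singleton, mem_erase, mem_erase]
    tauto
  rw [e] at w1 w2 w3 w4
  obtain ⟨U, hU⟩ : ∃ U, U = (Z.erase (G.pi d1)).erase (G.pi d2) := ⟨_, rfl⟩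
  rw [← hU] at w1 w2 w3 w4 ⊢
  refine ⟨fun d => if d ∈ (G.res U).ds then z'' d else z d, t'', ∅, ?_, w2, ?_, ?_, ?_⟩
  · exact w1.congr (fun d hd => if_pos hd) fun v _ => rfl
  · intro d _ h0
    change (if d ∈ (G.res U).ds then z'' d else z d) = 0
    split_ifs with h5
    · exact w3 d h5 h0
    · exact h0
  · intro d hd hp _ _
    change (if d ∈ (G.res U).ds then z'' d else z d) = 1
    split_ifs with h5
    · rw [w4 d h5 hp]
      exact h.mc.inst.fresh.unit d hd hp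
    · exact h.mc.inst.fresh.unit d hd hp
  · rintro X - ⟨v, -, hv⟩
    exact absurd hv (notMem_empty v)

/-- Z-GLUE, odd arc. `d1`, `d3` are two of the four half darts leaving `Z`; inside `Z` an alternating
walk of half darts of even length joins their ends (an odd arc of a half circuit). Outer instance:
`Z` is replaced by two vertices `s`, `s'`, `s` gets `d1`, `d3`, `s'` gets the other two
(`Z4.glue`); all patterns pay (`N5.four_pay` for the arc or for the reversed arc). -/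
theorem N5.no_four_odd (h : G.N5 z t fr F jm sx ep m) {Z : Finset V} (hZ : Z ⊆ G.vs)
    (he : Even Z.card) (h2 : G.val z t Z = 2) (h4 : 4 ≤ Z.card) (h4' : 4 ≤ (G.vs \ Z).card)
    (hjZ : ∀ v ∈ Z, v ∉ jm)
    {d1 d3 : D} (hd1 : d1 ∈ G.bd Z) (hd3 : d3 ∈ G.bd Z) (hz1 : z d1 ≠ 0) (hz3 : z d3 ≠ 0)
    (hne : d1 ≠ d3) {l : List D}
    (hl : G.IsW ((G.hd z).filter fun d => G.pi d ∈ Z ∧ G.pi (G.al d) ∈ Z) (G.pi d1) l (G.pi d3))
    (hlen : Even l.length) : False := by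
  have hw := h.mc.inst.wt
  have hh := h.four_half hZ he h2 h4 h4' hjZ
  obtain ⟨f1, f2, f3, f4, f5⟩ := id hh
  -- the other two darts
  have hA : (({d1, d3} : Finset D)) ⊆ (G.bd Z).filter fun d => z d ≠ 0 := by
    intro d hd
    rw [mem_insert, mem_singleton] at hd
    rcases hd with rfl | rfl
    · exact mem_filter.2 ⟨hd1, hz1⟩
    · exact mem_filter.2 ⟨hd3, hz3⟩
  have hB := card_sdiff_add_card_eq_card hA
  rw [f3, card_pair hne] at hB
  obtain ⟨d2, d4, h24, hE⟩ := card_eq_two.1 (show ((((G.bd Z).filter fun d => z d ≠ 0)) \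
    {d1, d3}).card = 2 by omega)
  have hm : ∀ d, (d = d2 ∨ d = d4) ↔ (d ∈ G.bd Z ∧ z d ≠ 0) ∧ d ≠ d1 ∧ d ≠ d3 := by
    intro d
    have h5 : d ∈ ({d2, d4} : Finset D) ↔ d ∈ (((G.bd Z).filter fun d => z d ≠ 0)) \ {d1, d3} := by
      rw [hE]
    rw [mem_insert, mem_singleton, mem_sdiff, mem_filter, mem_insert, mem_singleton, not_or] at h5
    exact h5
  have hd : ∀ d, (d = d1 ∨ d = d2 ∨ d = d3 ∨ d = d4) ↔ d ∈ G.bd Z ∧ z d ≠ 0 := by
    intro d
    constructor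
    · rintro (h5 | h5 | h5 | h5)
      · rw [h5]
        exact ⟨hd1, hz1⟩
      · exact ((hm d).1 (Or.inl h5)).1
      · rw [h5]
        exact ⟨hd3, hz3⟩
      · exact ((hm d).1 (Or.inr h5)).1
    · intro h5
      by_cases h6 : d = d1
      · exact Or.inl h6
      · by_cases h7 : d = d3
        · exact Or.inr (Or.inr (Or.inl h7))
        · rcases (hm d).2 ⟨h5, h6, h7⟩ with h8 | h8
          · exact Or.inr (Or.inl h8)
          · exact Or.inr (Or.inr (Or.inr h8))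
  have q : G.Z4 z t Z d1 d2 d3 d4 := Z4.of_half hZ he h2 h4 h4' hd hh
  obtain ⟨H, hH⟩ : ∃ H, H = (G.hd z).filter fun d => G.pi d ∈ Z ∧ G.pi (G.al d) ∈ Z := ⟨_, rfl⟩
  have hHs : G.Sy H := by
    refine ⟨fun d hd => ?_, fun d hd => ?_⟩
    · rw [hH] at hd
      exact (mem_hd.1 (mem_filter.1 hd).1).1
    · rw [hH] at hd ⊢
      obtain ⟨h5, h6, h7⟩ := mem_filter.1 hd
      refine mem_filter.2 ⟨(h.hd_out h5).2.1, h7, ?_⟩
      rw [G.al_al d (mem_hd.1 h5).1]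
      exact h6
  -- a dart inside Z
  obtain ⟨k, hk, hkZ, hkZ'⟩ : ∃ k ∈ G.ds, G.pi k ∈ Z ∧ G.pi (G.al k) ∈ Z := by
    cases l with
    | nil => exact absurd (f4 d1 hd1 d3 hd3 hz1 hz3 hl) hne
    | cons k l =>
      obtain ⟨h5, -, -⟩ := hl
      obtain ⟨h6, h7, h8⟩ := mem_filter.1 h5
      exact ⟨k, (mem_hd.1 h6).1, h7, h8⟩
  refine q.glue h hk hkZ hkZ' ?_
  have hrev : G.IsW ((G.hd z).filter fun d => G.pi d ∈ Z ∧ G.pi (G.al d) ∈ Z) (G.pi d3)
      (l.reverse.map G.al) (G.pi d1) := by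
    rw [← hH] at hl ⊢
    exact hl.rev hHs
  have hlr : Even (l.reverse.map G.al).length := by
    rw [List.length_map, List.length_reverse]
    exact hlen
  intro a b ha hb
  obtain ⟨⟨b1, b2⟩, b3, b4⟩ := (hm b).1 hb
  rcases ha with rfl | rfl
  · exact h.odd_pays hZ he h2 h4 h4' hjZ hd1 b1 hd3 hz1 b2 hz3 b3.symm hne b4 hl hlen
  · exact h.odd_pays hZ he h2 h4 h4' hjZ hd3 b1 hd1 hz3 b2 hz1 b4.symm hne.symm b3 hrev hlr

end MG

end RH
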