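import Pool.Agent.Lib.RH.T5Int

/-! Payments: vectors which lower the tokens of one vertex by 1. Part A: payments on odd circuits. -/

set_option autoImplicit false

namespace RH

open Finset Classical

namespace MG

/-- a payment at `w` with darts outside `A`: vertex sum 1 at `w`, 0 elsewhere, at most the weight -/
structure Pay {V D : Type*} (G : MG V D) (z : D → ℝ) (A : Finset V) (w : V) (g : D → ℝ) :
    Prop where
  sym : ∀ d ∈ G.ds, g (G.al d) = g d
  zero : ∀ d, d ∉ G.sd z A → g d = 0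
  deg : ∀ v ∈ G.vs, ∑ d ∈ G.st v, g d = if v = w then 1 else 0
  le : ∀ d ∈ G.ds, |g d| ≤ z d

variable {V D : Type*} {G : MG V D} {z z' : D → ℝ} {t t' : V → ℝ} {fr : Finset V} {F : Finset D}
variable {jm sx : Finset V} {ep : V → ℕ} {m : ℕ} {M : Finset D}

/-- an odd circuit pays (`exists_altA`; the darts at `C` have weight 1) -/
theorem Circ.exists_pay (hF : G.FrS z fr F jm) (hw : G.Wt z t) {C : Finset V}
    (hC : G.Circ fr F C) (ho : Odd C.card) {x : V} (hx : x ∈ C) :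
    ∃ g, G.Pay z (G.vs \ C) x g ∧ (∀ d, g d ≠ 0 → d ∈ F) ∧
      ∀ d ∈ F, G.pi d ∈ C → |g d| = 1 / 2 := by
  obtain ⟨g, g1, g2, g3, g4⟩ := exists_altA hF.toFA hC ho hx
  have h1 : ∀ d ∈ F, G.pi d ∈ C → z d = 1 := fun d hd hp =>
    hF.unit d (hF.Fsub hd) (hC.adm.sub hp)
  refine ⟨g, ⟨g2, ?_, g3, ?_⟩, fun d hd => (g1 d hd).1, g4⟩
  · intro d hd
    by_contra h0
    obtain ⟨h2, h3⟩ := g1 d h0
    apply hd
    refine mem_sd.2 ⟨hF.Fsub h2, ?_, ?_, ?_⟩
    · rw [h1 d h2 h3]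
      exact one_ne_zero
    · exact fun h4 => (mem_sdiff.1 h4).2 h3
    · exact fun h4 => (mem_sdiff.1 h4).2 (hC.adm.clo d h2 h3)
  · intro d hd
    by_cases h0 : g d = 0
    · rw [h0, abs_zero]
      exact hw.z0 d hd
    · obtain ⟨h2, h3⟩ := g1 d h0
      rw [g4 d h2 h3, h1 d h2 h3]
      norm_num

/-- the vertices at half darts -/
noncomputable def hv (G : MG V D) (z : D → ℝ) : Finset V := (G.hd z).image G.pi

theorem mem_hv {v : V} : v ∈ G.hv z ↔ ∃ d ∈ G.hd z, G.pi d = v := by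
  simp [hv]

theorem N5.hd_fa (h : G.N5 z t fr F jm sx ep m) : G.FA (G.hd z) :=
  ⟨fun _ hd => (mem_hd.1 hd).1, fun _ hd => (h.hd_out hd).2.1⟩

theorem hd_ne0 {d : D} (hd : d ∈ G.hd z) : z d ≠ 0 := by
  intro h0
  exact (mem_hd.1 hd).2 ⟨0, by rw [h0]; simp⟩

/-- circuits of half darts are odd -/
theorem N5.hcirc_odd (h : G.N5 z t fr F jm sx ep m) {C : Finset V}
    (hC : G.Circ (G.hv z) (G.hd z) C) : Odd C.card := by
  by_contra hne
  rw [Nat.not_odd_iff_even] at hne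
  obtain ⟨c, c1, c2⟩ := exists_alt_evenA h.hd_fa hC hne
  obtain ⟨x, hx⟩ := hC.ne
  obtain ⟨d0, hd0, hd0x⟩ := hC.exists_dart hx
  have hds := h.hd_fa.Fsub hd0
  have hads := G.al_mem d0 hds
  have hyC : G.pi (G.al d0) ∈ C := hC.adm.clo d0 hd0 (by rw [hd0x]; exact hx)
  have hxC : G.pi d0 ∈ C := by rw [hd0x]; exact hx
  obtain ⟨δ, e1, e2, e3, e4⟩ := c2 (G.pi d0) hxC (G.pi (G.al d0)) hyC (c1 d0 hd0 hxC).symm
  have hne0 : d0 ≠ G.al d0 := fun e => G.noloop d0 hds (congrArg G.pi e.symm)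
  set a : D → ℝ := fun d => δ d - (if d = d0 ∨ d = G.al d0 then 1 else 0) with ha
  have a0 : ∀ d, a d ≠ 0 → d ∈ G.hd z := by
    intro d hd
    by_contra hn
    apply hd
    have h1 : δ d = 0 := by
      by_contra h2
      exact hn (e1 d h2).1
    have h2 : ¬ (d = d0 ∨ d = G.al d0) := by
      rintro (rfl | rfl)
      · exact hn hd0
      · exact hn (h.hd_fa.Fal d0 hd0)
    show δ d - (if d = d0 ∨ d = G.al d0 then 1 else 0) = 0
    rw [h1, if_neg h2, sub_zero]
  have hdir : G.Dir z fr a (fun _ => 0) := by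
    refine ⟨?_, ?_, ?_, ?_⟩
    · intro d hd
      show δ (G.al d) - _ = δ d - _
      rw [e2 d hd]
      congr 1
      have h1 : (G.al d = d0 ∨ G.al d = G.al d0) ↔ (d = d0 ∨ d = G.al d0) := by
        constructor
        · rintro (h1 | h1)
          · exact Or.inr (by rw [← h1, G.al_al d hd])
          · exact Or.inl (by rw [← G.al_al d hd, h1, G.al_al d0 hds])
        · rintro (h1 | h1)
          · exact Or.inr (by rw [h1])
          · exact Or.inl (by rw [h1, G.al_al d0 hds])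
      simp only [h1]
    · intro d hd hp
      by_contra hn
      exact (h.hd_out (a0 d hn)).1 hp
    · intro d hd hz
      by_contra hn
      exact hd_ne0 (a0 d hn) hz
    · intro v hv
      rw [add_zero]
      show ∑ d ∈ G.st v, (δ d - (if d = d0 ∨ d = G.al d0 then 1 else 0)) = 0
      rw [sum_sub_distrib, e3 v hv]
      have h1 : ∑ d ∈ G.st v, (if d = d0 ∨ d = G.al d0 then (1 : ℝ) else 0) =
          if v = G.pi d0 ∨ v = G.pi (G.al d0) then 1 else 0 := by
        have h2 : ∀ d, (if d = d0 ∨ d = G.al d0 then (1 : ℝ) else 0) =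
            (if d = d0 then (1 : ℝ) else 0) + (if d = G.al d0 then 1 else 0) := by
          intro d
          by_cases k1 : d = d0
          · rw [if_pos (Or.inl k1), if_pos k1, if_neg (fun k2 => hne0 (k1.symm.trans k2)), add_zero]
          · by_cases k2 : d = G.al d0
            · rw [if_pos (Or.inr k2), if_neg k1, if_pos k2, zero_add]
            · rw [if_neg (not_or.2 ⟨k1, k2⟩), if_neg k1, if_neg k2, zero_add]
        have h3 : d0 ∈ G.st v ↔ v = G.pi d0 :=
          ⟨fun k => (mem_st.1 k).2.symm, fun k => mem_st.2 ⟨hds, k.symm⟩⟩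
        have h4 : G.al d0 ∈ G.st v ↔ v = G.pi (G.al d0) :=
          ⟨fun k => (mem_st.1 k).2.symm, fun k => mem_st.2 ⟨hads, k.symm⟩⟩
        rw [sum_congr rfl fun d _ => h2 d, sum_add_distrib, sum_ite_eq', sum_ite_eq']
        simp only [h3, h4]
        have h5 := G.noloop d0 hds
        by_cases k1 : v = G.pi d0
        · have k2 : ¬ v = G.pi (G.al d0) := fun k2 => h5 (k2.symm.trans k1)
          rw [if_pos k1, if_neg k2, if_pos (Or.inl k1), add_zero]
        · by_cases k2 : v = G.pi (G.al d0)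
          · rw [if_neg k1, if_pos k2, if_pos (Or.inr k2), zero_add]
          · rw [if_neg k1, if_neg k2, if_neg (not_or.2 ⟨k1, k2⟩), zero_add]
      rw [h1, sub_self]
  have h1 := h.nf a (fun _ => 0) hdir (fun _ _ _ => rfl) (by simp) d0 hds
  have h2 := e4 d0 hd0 hxC
  have h3 : δ d0 - 1 = 0 := by
    have : a d0 = δ d0 - 1 := by
      show δ d0 - (if d0 = d0 ∨ d0 = G.al d0 then 1 else 0) = δ d0 - 1
      rw [if_pos (Or.inl rfl)]
    rw [← this]
    exact h1
  have h4 : δ d0 = 1 := by linarith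
  rw [h4, abs_one] at h2
  norm_num at h2

/-- the half darts form odd circuits (`Circ` with `fr := hv`, `F := hd`): a circuit through every
vertex; it is odd, otherwise the alternating vector contradicts `N5.nf` -/
theorem N5.exists_hcirc (h : G.N5 z t fr F jm sx ep m) {v : V} (hv : v ∈ G.hv z) :
    ∃ C, v ∈ C ∧ G.Circ (G.hv z) (G.hd z) C ∧ Odd C.card := by
  have hfa := h.hd_fa
  set C : Finset V := (G.hv z).filter fun u => ∀ X, G.Adm (G.hv z) (G.hd z) X → v ∈ X → u ∈ X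
    with hCdef
  have hvC : v ∈ C := mem_filter.2 ⟨hv, fun X _ h1 => h1⟩
  have hadm : G.Adm (G.hv z) (G.hd z) C := by
    refine ⟨filter_subset _ _, fun d hd hp => ?_⟩
    obtain ⟨-, h2⟩ := mem_filter.1 hp
    exact mem_filter.2 ⟨mem_hv.2 ⟨_, hfa.Fal d hd, rfl⟩, fun X hX hvX => hX.clo d hd (h2 X hX hvX)⟩
  have hle : ∀ X, G.Adm (G.hv z) (G.hd z) X → v ∈ X → C ⊆ X := fun X hX hvX u hu =>
    (mem_filter.1 hu).2 X hX hvX
  have hcirc : G.Circ (G.hv z) (G.hd z) C := by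
    refine ⟨hadm, ⟨v, hvC⟩, ?_, ?_⟩
    · intro X hX hXC hne
      by_cases hvX : v ∈ X
      · exact Subset.antisymm hXC (hle X hX hvX)
      · exfalso
        have h1 : G.Adm (G.hv z) (G.hd z) (C \ X) := by
          refine ⟨sdiff_subset.trans hadm.sub, fun d hd hp => ?_⟩
          obtain ⟨h2, h3⟩ := mem_sdiff.1 hp
          refine mem_sdiff.2 ⟨hadm.clo d hd h2, fun h4 => h3 ?_⟩
          have h5 := hX.clo _ (hfa.Fal d hd) h4
          rwa [G.al_al d (hfa.Fsub hd)] at h5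
        have h2 := hle _ h1 (mem_sdiff.2 ⟨hvC, hvX⟩)
        obtain ⟨u, hu⟩ := hne
        exact (mem_sdiff.1 (h2 (hXC hu))).2 hu
    · intro u hu
      obtain ⟨d, hd, hdu⟩ := mem_hv.1 (hadm.sub hu)
      rw [← hdu]
      exact h.hd_two hd
  exact ⟨C, hvC, hcirc, h.hcirc_odd hcirc⟩

/-- a vertex of a half circuit pays on its circuit -/
theorem N5.exists_payH (h : G.N5 z t fr F jm sx ep m) {C : Finset V}
    (hC : G.Circ (G.hv z) (G.hd z) C) {w : V} (hw : w ∈ C) :
    ∃ g, G.Pay z fr w g ∧ (∀ d, g d ≠ 0 → d ∈ G.hd z ∧ G.pi d ∈ C) ∧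
      ∀ d ∈ G.hd z, G.pi d ∈ C → |g d| = 1 / 2 := by
  obtain ⟨g, g1, g2, g3, g4⟩ := exists_altA h.hd_fa hC (h.hcirc_odd hC) hw
  refine ⟨g, ⟨g2, ?_, g3, ?_⟩, g1, g4⟩
  · intro d hd
    by_contra h0
    exact hd (h.hd_out (g1 d h0).1).2.2
  · intro d hd
    by_cases h0 : g d = 0
    · rw [h0, abs_zero]
      exact h.mc.inst.wt.z0 d hd
    · obtain ⟨h2, h3⟩ := g1 d h0
      obtain ⟨k, hk⟩ := h.hd_half h2
      rw [g4 d h2 h3, hk]
      have : (0 : ℝ) ≤ k := Nat.cast_nonneg k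
      linarith

end MG

end RH
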