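import Pool.Agent.Lib.RH.T5IntB
import Pool.Agent.Lib.RH.T5PayA
import Pool.Agent.Lib.RH.Glue2A
import Pool.Agent.Lib.RH.SWalk

/-! Z-GLUE for even sets of value 2 with four half edges (helper69, helper68): the outer graph, the
gluing, payments inside. -/

set_option autoImplicit false

namespace RH

open Finset Classical

namespace MG

variable {V D : Type*} {G : MG V D} {z z' : D → ℝ} {t t' : V → ℝ} {fr : Finset V} {F : Finset D}
variable {jm sx : Finset V} {ep : V → ℕ} {m : ℕ} {M : Finset D}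
variable {Z : Finset V} {e1 e2 e3 e4 k : D} {c1 c2 : V}

private theorem sum_le_union (f : D → ℝ) {A B C : Finset D} (h : A ⊆ B ∪ C)
    (hB : ∀ d ∈ B, 0 ≤ f d) (hC : ∀ d ∈ C, 0 ≤ f d) :
    ∑ d ∈ A, f d ≤ ∑ d ∈ B, f d + ∑ d ∈ C, f d := by
  have h1 : ∑ d ∈ A, f d ≤ ∑ d ∈ B ∪ C, f d := by
    refine sum_le_sum_of_subset_of_nonneg h fun d hd _ => ?_
    rcases mem_union.1 hd with h | h
    · exact hB d h
    · exact hC d h
  have h2 := sum_union_inter (s₁ := B) (s₂ := C) (f := f)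
  have h3 : 0 ≤ ∑ d ∈ B ∩ C, f d := sum_nonneg fun d hd => hB d (mem_inter.1 hd).1
  linarith

/-- the darts `e1, e2, e3, e4` -/
def P4 (e1 e2 e3 e4 d : D) : Prop := d = e1 ∨ d = e2 ∨ d = e3 ∨ d = e4

/-- data of the outer graph: `Z` is replaced by two vertices `c1` (with `e1`, `e3`) and `c2` (with
`e2`, `e4`) joined by the edge `k` -/
structure OutD (G : MG V D) (Z : Finset V) (e1 e2 e3 e4 k : D) (c1 c2 : V) : Prop where
  c1Z : c1 ∈ Z
  c2Z : c2 ∈ Z
  hc : c1 ≠ c2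
  kds : k ∈ G.ds
  kZ : G.pi k ∈ Z
  kZ' : G.pi (G.al k) ∈ Z
  b : ∀ d, P4 e1 e2 e3 e4 d → d ∈ G.bd Z
  n12 : e1 ≠ e2
  n13 : e1 ≠ e3
  n14 : e1 ≠ e4
  n23 : e2 ≠ e3
  n24 : e2 ≠ e4
  n34 : e3 ≠ e4

/-- ends in the outer graph -/
noncomputable def outPi (G : MG V D) (e1 e2 e3 e4 k : D) (c1 c2 : V) (d : D) : V :=
  if d = e1 ∨ d = e3 ∨ d = k then c1 else if d = e2 ∨ d = e4 ∨ d = G.al k then c2 else G.pi d

/-- darts of the outer graph -/
noncomputable def outDs (G : MG V D) (Z : Finset V) (e1 e2 e3 e4 k : D) : Finset D :=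
  G.ds.filter fun d => (G.pi d ∉ Z ∧ G.pi (G.al d) ∉ Z) ∨ P4 e1 e2 e3 e4 d ∨
    P4 e1 e2 e3 e4 (G.al d) ∨ d = k ∨ d = G.al k

/-- weights of the outer graph -/
noncomputable def outZ (G : MG V D) (z : D → ℝ) (k : D) (d : D) : ℝ :=
  if d = k ∨ d = G.al k then 2 else z d

namespace OutD

variable (o : G.OutD Z e1 e2 e3 e4 k c1 c2)
include o

theorem bn {d : D} (h : P4 e1 e2 e3 e4 d) : d ≠ k ∧ d ≠ G.al k := by
  obtain ⟨h1, h2, h3⟩ := mem_bd.1 (o.b d h)
  refine ⟨?_, ?_⟩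
  · rintro rfl
    exact h3 o.kZ'
  · rintro rfl
    rw [G.al_al _ o.kds] at h3
    exact h3 o.kZ

theorem kn : k ≠ G.al k := fun h => G.noloop k o.kds (by rw [← h])

theorem out {d : D} (h : G.pi d ∉ Z) : d ≠ k ∧ d ≠ G.al k ∧ ¬ P4 e1 e2 e3 e4 d := by
  refine ⟨?_, ?_, ?_⟩
  · rintro rfl
    exact h o.kZ
  · rintro rfl
    exact h o.kZ'
  · exact fun h1 => h (mem_bd.1 (o.b d h1)).2.1

theorem pi_out {d : D} (h : G.pi d ∉ Z) : G.outPi e1 e2 e3 e4 k c1 c2 d = G.pi d := by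
  obtain ⟨h1, h2, h3⟩ := o.out h
  unfold P4 at h3
  unfold outPi
  rw [if_neg, if_neg]
  · rintro (h | h | h)
    · exact h3 (Or.inr (Or.inl h))
    · exact h3 (Or.inr (Or.inr (Or.inr h)))
    · exact h2 h
  · rintro (h | h | h)
    · exact h3 (Or.inl h)
    · exact h3 (Or.inr (Or.inr (Or.inl h)))
    · exact h1 h

omit o in
theorem pi_c1 {d : D} (h : d = e1 ∨ d = e3 ∨ d = k) : G.outPi e1 e2 e3 e4 k c1 c2 d = c1 := by
  unfold outPi
  rw [if_pos h]

theorem pi_c2 {d : D} (h : d = e2 ∨ d = e4 ∨ d = G.al k) :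
    G.outPi e1 e2 e3 e4 k c1 c2 d = c2 := by
  unfold outPi
  rw [if_neg, if_pos h]
  have p2 := o.bn (d := e2) (Or.inr (Or.inl rfl))
  have p4 := o.bn (d := e4) (Or.inr (Or.inr (Or.inr rfl)))
  have p1 := o.bn (d := e1) (Or.inl rfl)
  have p3 := o.bn (d := e3) (Or.inr (Or.inr (Or.inl rfl)))
  rintro (h1 | h1 | h1)
  · rcases h with h | h | h
    · exact o.n12 (h1.symm.trans h)
    · exact o.n14 (h1.symm.trans h)
    · exact p1.2 (h1.symm.trans h)
  · rcases h with h | h | h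
    · exact o.n23 (h.symm.trans h1)
    · exact o.n34 (h1.symm.trans h)
    · exact p3.2 (h1.symm.trans h)
  · rcases h with h | h | h
    · exact p2.1 (h.symm.trans h1)
    · exact p4.1 (h.symm.trans h1)
    · exact o.kn (h1.symm.trans h)

theorem p_in {d : D} (h : P4 e1 e2 e3 e4 d) : G.pi d ∈ Z ∧ G.pi (G.al d) ∉ Z :=
  (mem_bd.1 (o.b d h)).2

theorem p_ds {d : D} (h : P4 e1 e2 e3 e4 d) : d ∈ G.ds := (mem_bd.1 (o.b d h)).1

/-- case distinction for the darts of the outer graph -/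
theorem cases {d : D} (hd : d ∈ G.outDs Z e1 e2 e3 e4 k) :
    (G.pi d ∉ Z ∧ G.outPi e1 e2 e3 e4 k c1 c2 d = G.pi d) ∨
      ((d = e1 ∨ d = e3 ∨ d = k) ∧ G.outPi e1 e2 e3 e4 k c1 c2 d = c1) ∨
      ((d = e2 ∨ d = e4 ∨ d = G.al k) ∧ G.outPi e1 e2 e3 e4 k c1 c2 d = c2) := by
  obtain ⟨h1, h2⟩ := mem_filter.1 hd
  by_cases h : G.pi d ∈ Z
  · right
    rcases h2 with h2 | h2 | h2 | h2 | h2
    · exact absurd h h2.1
    · rcases h2 with h2 | h2 | h2 | h2
      · exact Or.inl ⟨Or.inl h2, pi_c1 (Or.inl h2)⟩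
      · exact Or.inr ⟨Or.inl h2, o.pi_c2 (Or.inl h2)⟩
      · exact Or.inl ⟨Or.inr (Or.inl h2), pi_c1 (Or.inr (Or.inl h2))⟩
      · exact Or.inr ⟨Or.inr (Or.inl h2), o.pi_c2 (Or.inr (Or.inl h2))⟩
    · have := (o.p_in h2).2
      rw [G.al_al d h1] at this
      exact absurd h this
    · exact Or.inl ⟨Or.inr (Or.inr h2), pi_c1 (Or.inr (Or.inr h2))⟩
    · exact Or.inr ⟨Or.inr (Or.inr h2), o.pi_c2 (Or.inr (Or.inr h2))⟩
  · exact Or.inl ⟨h, o.pi_out h⟩

theorem al_out {d : D} (hd : d ∈ G.outDs Z e1 e2 e3 e4 k) : G.al d ∈ G.outDs Z e1 e2 e3 e4 k := by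
  obtain ⟨h1, h2⟩ := mem_filter.1 hd
  refine mem_filter.2 ⟨G.al_mem d h1, ?_⟩
  rw [G.al_al d h1]
  rcases h2 with h2 | h2 | h2 | h2 | h2
  · exact Or.inl ⟨h2.2, h2.1⟩
  · exact Or.inr (Or.inr (Or.inl h2))
  · exact Or.inr (Or.inl h2)
  · exact Or.inr (Or.inr (Or.inr (Or.inr (by rw [h2]))))
  · refine Or.inr (Or.inr (Or.inr (Or.inl ?_)))
    rw [h2, G.al_al k o.kds]

end OutD

/-- the outer graph -/
noncomputable def outG (o : G.OutD Z e1 e2 e3 e4 k c1 c2) : MG V D where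
  vs := (G.vs \ Z) ∪ {c1, c2}
  ds := G.outDs Z e1 e2 e3 e4 k
  pi := G.outPi e1 e2 e3 e4 k c1 c2
  al := G.al
  pi_mem := by
    intro d hd
    rw [mem_union, mem_insert, mem_singleton]
    rcases o.cases hd with h | h | h
    · rw [h.2]
      exact Or.inl (mem_sdiff.2 ⟨G.pi_mem d (mem_filter.1 hd).1, h.1⟩)
    · exact Or.inr (Or.inl h.2)
    · exact Or.inr (Or.inr h.2)
  al_mem := fun d hd => o.al_out hd
  al_al := fun d hd => G.al_al d (mem_filter.1 hd).1
  noloop := by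
    intro d hd
    have hd' := o.al_out hd
    obtain ⟨h1, h2⟩ := mem_filter.1 hd
    rcases h2 with h2 | h2 | h2 | h2 | h2
    · rw [o.pi_out h2.1, o.pi_out h2.2]
      exact G.noloop d h1
    · rw [o.pi_out (o.p_in h2).2]
      rcases o.cases hd with h | h | h
      · exact absurd (o.p_in h2).1 h.1
      · rw [h.2]
        exact fun h3 => (o.p_in h2).2 (h3 ▸ o.c1Z)
      · rw [h.2]
        exact fun h3 => (o.p_in h2).2 (h3 ▸ o.c2Z)
    · have h3 := (o.p_in h2).2
      rw [G.al_al d h1] at h3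
      rw [o.pi_out h3]
      rcases o.cases hd' with h | h | h
      · exact absurd (o.p_in h2).1 h.1
      · rw [h.2]
        exact fun h4 => h3 (h4 ▸ o.c1Z)
      · rw [h.2]
        exact fun h4 => h3 (h4 ▸ o.c2Z)
    · rw [h2, OutD.pi_c1 (Or.inr (Or.inr rfl)), o.pi_c2 (Or.inr (Or.inr rfl))]
      exact o.hc.symm
    · rw [h2, G.al_al k o.kds, OutD.pi_c1 (Or.inr (Or.inr rfl)), o.pi_c2 (Or.inr (Or.inr rfl))]
      exact o.hc

namespace OutD

variable (o : G.OutD Z e1 e2 e3 e4 k c1 c2)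
include o

theorem mem_ds {d : D} : d ∈ (outG o).ds ↔ d ∈ G.ds ∧ ((G.pi d ∉ Z ∧ G.pi (G.al d) ∉ Z) ∨
    P4 e1 e2 e3 e4 d ∨ P4 e1 e2 e3 e4 (G.al d) ∨ d = k ∨ d = G.al k) := by
  change d ∈ G.outDs Z e1 e2 e3 e4 k ↔ _
  unfold outDs
  rw [mem_filter]

theorem pi_out' {d : D} (h : G.pi d ∉ Z) : (outG o).pi d = G.pi d := o.pi_out h

theorem pi_c1' {d : D} (h : d = e1 ∨ d = e3 ∨ d = k) : (outG o).pi d = c1 := pi_c1 h

theorem pi_c2' {d : D} (h : d = e2 ∨ d = e4 ∨ d = G.al k) : (outG o).pi d = c2 := o.pi_c2 h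

theorem cases' {d : D} (hd : d ∈ (outG o).ds) : (G.pi d ∉ Z ∧ (outG o).pi d = G.pi d) ∨
      ((d = e1 ∨ d = e3 ∨ d = k) ∧ (outG o).pi d = c1) ∨
      ((d = e2 ∨ d = e4 ∨ d = G.al k) ∧ (outG o).pi d = c2) := o.cases hd

theorem z_out {d : D} (h : G.pi d ∉ Z) : outZ G z k d = z d := by
  obtain ⟨h1, h2, -⟩ := o.out h
  unfold outZ
  rw [if_neg]
  exact fun h => h.elim h1 h2

theorem z_out' {d : D} (h : G.pi (G.al d) ∉ Z) : outZ G z k d = z d := by
  obtain ⟨h1, h2, -⟩ := o.out h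
  unfold outZ
  rw [if_neg]
  rintro (h | h)
  · exact h2 (by rw [h])
  · exact h1 (by rw [h, G.al_al k o.kds])

/-- the outer side -/
theorem side : Side G (outG o) (G.vs \ Z) (G.ds.filter fun d => G.pi d ∉ Z ∧ ¬ (d ∈ (outG o).ds)) := by
  refine ⟨sdiff_subset, subset_union_left, ?_, ?_, ?_, ?_⟩
  · intro d hd'
    obtain ⟨h1, h2, h3⟩ := mem_filter.1 hd'
    refine ⟨h1, mem_sdiff.2 ⟨G.pi_mem d h1, h2⟩, fun h4 => h3 ?_⟩
    exact o.mem_ds.2 ⟨h1, Or.inl ⟨h2, (mem_sdiff.1 h4).2⟩⟩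
  · intro d hd' hp hn
    have hp' := (mem_sdiff.1 hp).2
    refine ⟨?_, o.pi_out' hp', rfl⟩
    by_contra h1
    exact hn (mem_filter.2 ⟨hd', hp', h1⟩)
  · intro d hd' hp
    have h1 := (o.mem_ds.1 hd').1
    rcases o.cases' hd' with h | h | h
    · exact ⟨h1, h.2.symm, fun h2 => (mem_filter.1 h2).2.2 hd'⟩
    · rw [h.2] at hp
      exact absurd o.c1Z (mem_sdiff.1 hp).2
    · rw [h.2] at hp
      exact absurd o.c2Z (mem_sdiff.1 hp).2
  · intro d hd' hp hn hp2 hp3
    have hp' := (mem_sdiff.1 hp).2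
    have h1 : d ∈ (outG o).ds := by
      by_contra h1
      exact hn (mem_filter.2 ⟨hd', hp', h1⟩)
    have h2 := (outG o).al_mem d h1
    change G.al d ∈ (outG o).ds at h2
    rcases o.cases' h2 with h | h | h
    · exact hp2 (mem_sdiff.2 ⟨G.pi_mem _ (G.al_mem _ hd'), h.1⟩)
    · rw [h.2] at hp3
      exact (mem_sdiff.1 hp3).2 o.c1Z
    · rw [h.2] at hp3
      exact (mem_sdiff.1 hp3).2 o.c2Z

/-- darts inside a set of the outer graph -/
theorem ed_cases {X : Finset V} {d : D} (hd : d ∈ (outG o).ed X X) :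
    d ∈ G.ed (X \ Z) (X \ Z) ∨ ((d = e1 ∨ d = e3) ∧ c1 ∈ X ∧ G.pi (G.al d) ∈ X \ Z) ∨
      ((d = e2 ∨ d = e4) ∧ c2 ∈ X ∧ G.pi (G.al d) ∈ X \ Z) ∨
      ((G.al d = e1 ∨ G.al d = e3) ∧ c1 ∈ X ∧ G.pi d ∈ X \ Z) ∨
      ((G.al d = e2 ∨ G.al d = e4) ∧ c2 ∈ X ∧ G.pi d ∈ X \ Z) ∨
      ((d = k ∨ d = G.al k) ∧ c1 ∈ X ∧ c2 ∈ X) := by
  obtain ⟨h1, h2, h3⟩ := mem_ed.1 hd
  have h3' : (outG o).pi (G.al d) ∈ X := h3
  obtain ⟨hds, h4⟩ := o.mem_ds.1 h1
  rcases h4 with h4 | h4 | h4 | h4 | h4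
  · rw [o.pi_out' h4.1] at h2
    rw [o.pi_out' h4.2] at h3'
    exact Or.inl (mem_ed.2 ⟨hds, mem_sdiff.2 ⟨h2, h4.1⟩, mem_sdiff.2 ⟨h3', h4.2⟩⟩)
  · have h5 := o.p_in h4
    rw [o.pi_out' h5.2] at h3'
    have h6 := mem_sdiff.2 ⟨h3', h5.2⟩
    rcases h4 with h4 | h4 | h4 | h4
    · rw [o.pi_c1' (Or.inl h4)] at h2
      exact Or.inr (Or.inl ⟨Or.inl h4, h2, h6⟩)
    · rw [o.pi_c2' (Or.inl h4)] at h2
      exact Or.inr (Or.inr (Or.inl ⟨Or.inl h4, h2, h6⟩))
    · rw [o.pi_c1' (Or.inr (Or.inl h4))] at h2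
      exact Or.inr (Or.inl ⟨Or.inr h4, h2, h6⟩)
    · rw [o.pi_c2' (Or.inr (Or.inl h4))] at h2
      exact Or.inr (Or.inr (Or.inl ⟨Or.inr h4, h2, h6⟩))
  · have h5 := o.p_in h4
    rw [G.al_al d hds] at h5
    rw [o.pi_out' h5.2] at h2
    have h6 := mem_sdiff.2 ⟨h2, h5.2⟩
    rcases h4 with h4 | h4 | h4 | h4
    · rw [o.pi_c1' (Or.inl h4)] at h3'
      exact Or.inr (Or.inr (Or.inr (Or.inl ⟨Or.inl h4, h3', h6⟩)))
    · rw [o.pi_c2' (Or.inl h4)] at h3'
      exact Or.inr (Or.inr (Or.inr (Or.inr (Or.inl ⟨Or.inl h4, h3', h6⟩))))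
    · rw [o.pi_c1' (Or.inr (Or.inl h4))] at h3'
      exact Or.inr (Or.inr (Or.inr (Or.inl ⟨Or.inr h4, h3', h6⟩)))
    · rw [o.pi_c2' (Or.inr (Or.inl h4))] at h3'
      exact Or.inr (Or.inr (Or.inr (Or.inr (Or.inl ⟨Or.inr h4, h3', h6⟩))))
  · rw [o.pi_c1' (Or.inr (Or.inr h4))] at h2
    rw [o.pi_c2' (Or.inr (Or.inr (by rw [h4])))] at h3'
    exact Or.inr (Or.inr (Or.inr (Or.inr (Or.inr ⟨Or.inl h4, h2, h3'⟩))))
  · rw [o.pi_c2' (Or.inr (Or.inr h4))] at h2
    rw [o.pi_c1' (Or.inr (Or.inr (by rw [h4, G.al_al k o.kds])))] at h3'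
    exact Or.inr (Or.inr (Or.inr (Or.inr (Or.inr ⟨Or.inr h4, h3', h2⟩))))

end OutD

/-- an even set of value 2 with exactly four boundary edges of weight 1/2 -/
structure Z4 (G : MG V D) (z : D → ℝ) (t : V → ℝ) (Z : Finset V) (e1 e2 e3 e4 : D) : Prop where
  hZ : Z ⊆ G.vs
  he : Even Z.card
  h2 : G.val z t Z = 2
  h4 : 4 ≤ Z.card
  h4' : 4 ≤ (G.vs \ Z).card
  b : ∀ d, P4 e1 e2 e3 e4 d → d ∈ G.bd Z
  h0 : ∀ d ∈ G.bd Z, z d ≠ 0 → P4 e1 e2 e3 e4 d
  half : ∀ d, P4 e1 e2 e3 e4 d → z d = 1 / 2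
  tz : ∀ v ∈ Z, t v = 0
  inn : ∀ d e, P4 e1 e2 e3 e4 d → P4 e1 e2 e3 e4 e → G.pi d = G.pi e → d = e
  n12 : e1 ≠ e2
  n13 : e1 ≠ e3
  n14 : e1 ≠ e4
  n23 : e2 ≠ e3
  n24 : e2 ≠ e4
  n34 : e3 ≠ e4

/-- the vertex sums of the outer graph -/
theorem Z4.out_deg (q : G.Z4 z t Z e1 e2 e3 e4) (hw : G.Wt z t)
    (o : G.OutD Z e1 e2 e3 e4 k c1 c2) :
    ∀ v ∈ (outG o).vs, ∑ d ∈ (outG o).st v, outZ G z k d + t v = 3 := by
  have hp1 := q.half e1 (Or.inl rfl)
  have hp2 := q.half e2 (Or.inr (Or.inl rfl))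
  have hp3 := q.half e3 (Or.inr (Or.inr (Or.inl rfl)))
  have hp4 := q.half e4 (Or.inr (Or.inr (Or.inr rfl)))
  have hz : ∀ d, P4 e1 e2 e3 e4 d → outZ G z k d = 1 / 2 := fun d hd => by
    rw [o.z_out' (o.p_in hd).2, q.half d hd]
  intro v hv
  rcases mem_union.1 hv with h1 | h1
  · obtain ⟨h2, h3⟩ := mem_sdiff.1 h1
    rw [← hw.deg v h2]
    congr 1
    have hsub : (outG o).st v ⊆ G.st v := by
      intro d hd
      obtain ⟨h4, h5⟩ := mem_st.1 hd
      rcases o.cases' h4 with h | h | h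
      · exact mem_st.2 ⟨(o.mem_ds.1 h4).1, h.2.symm.trans h5⟩
      · exact absurd (h5.symm.trans h.2 ▸ o.c1Z) h3
      · exact absurd (h5.symm.trans h.2 ▸ o.c2Z) h3
    rw [← sum_subset (f := z) hsub]
    · refine sum_congr rfl fun d hd => ?_
      have h4 := mem_st.1 (hsub hd)
      exact o.z_out (by rw [h4.2]; exact h3)
    · intro d hd hn
      obtain ⟨h4, h5⟩ := mem_st.1 hd
      have h6 : G.pi d ∉ Z := by rw [h5]; exact h3
      by_contra h7
      apply hn
      refine mem_st.2 ⟨o.mem_ds.2 ⟨h4, ?_⟩, (o.pi_out' h6).trans h5⟩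
      by_cases h8 : G.pi (G.al d) ∈ Z
      · refine Or.inr (Or.inr (Or.inl (q.h0 _ (mem_bd.2 ⟨G.al_mem d h4, h8, ?_⟩) ?_)))
        · rw [G.al_al d h4]
          exact h6
        · rw [hw.sym d h4]
          exact h7
      · exact Or.inl ⟨h6, h8⟩
  · rw [mem_insert, mem_singleton] at h1
    have hk : ∀ d, P4 e1 e2 e3 e4 d → d ∈ (outG o).ds := fun d hd =>
      o.mem_ds.2 ⟨o.p_ds hd, Or.inr (Or.inl hd)⟩
    have hkk : k ∈ (outG o).ds := o.mem_ds.2 ⟨o.kds, Or.inr (Or.inr (Or.inr (Or.inl rfl)))⟩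
    have hkk' : G.al k ∈ (outG o).ds :=
      o.mem_ds.2 ⟨G.al_mem k o.kds, Or.inr (Or.inr (Or.inr (Or.inr rfl)))⟩
    rcases h1 with h1 | h1
    · have e : (outG o).st v = {e1, e3, k} := by
        ext d
        rw [mem_st, mem_insert, mem_insert, mem_singleton, h1]
        constructor
        · rintro ⟨h2, h3⟩
          rcases o.cases' h2 with h | h | h
          · exact absurd (h3.symm.trans h.2 ▸ o.c1Z) h.1
          · exact h.1
          · exact absurd (h3.symm.trans h.2) o.hc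
        · intro h2
          refine ⟨?_, o.pi_c1' h2⟩
          rcases h2 with h2 | h2 | h2
          · exact hk d (Or.inl h2)
          · exact hk d (Or.inr (Or.inr (Or.inl h2)))
          · rw [h2]; exact hkk
      have n1 := (o.bn (d := e1) (Or.inl rfl)).1
      have n3 := (o.bn (d := e3) (Or.inr (Or.inr (Or.inl rfl)))).1
      rw [e, sum_insert (by simp [o.n13, n1]), sum_insert (by simp [n3]), sum_singleton,
        hz e1 (Or.inl rfl), hz e3 (Or.inr (Or.inr (Or.inl rfl))), h1, q.tz c1 o.c1Z]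
      unfold outZ
      rw [if_pos (Or.inl rfl)]
      norm_num
    · have e : (outG o).st v = {e2, e4, G.al k} := by
        ext d
        rw [mem_st, mem_insert, mem_insert, mem_singleton, h1]
        constructor
        · rintro ⟨h2, h3⟩
          rcases o.cases' h2 with h | h | h
          · exact absurd (h3.symm.trans h.2 ▸ o.c2Z) h.1
          · exact absurd (h.2.symm.trans h3) o.hc
          · exact h.1
        · intro h2
          refine ⟨?_, o.pi_c2' h2⟩
          rcases h2 with h2 | h2 | h2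
          · exact hk d (Or.inr (Or.inl h2))
          · exact hk d (Or.inr (Or.inr (Or.inr h2)))
          · rw [h2]; exact hkk'
      have n1 := (o.bn (d := e2) (Or.inr (Or.inl rfl))).2
      have n3 := (o.bn (d := e4) (Or.inr (Or.inr (Or.inr rfl)))).2
      rw [e, sum_insert (by simp [o.n24, n1]), sum_insert (by simp [n3]), sum_singleton,
        hz e2 (Or.inr (Or.inl rfl)), hz e4 (Or.inr (Or.inr (Or.inr rfl))), h1, q.tz c2 o.c2Z]
      unfold outZ
      rw [if_pos (Or.inr rfl)]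
      norm_num

private theorem Z4.one (q : G.Z4 z t Z e1 e2 e3 e4) (h : G.N5 z t fr F jm sx ep m)
    (o : G.OutD Z e1 e2 e3 e4 k c1 c2) {X S : Finset V} (hSvs : S ⊆ G.vs) (hSZ : Disjoint S Z)
    (he : Even S.card) {a b : D} (ha : P4 e1 e2 e3 e4 a) (hb : P4 e1 e2 e3 e4 b) (hab : a ≠ b)
    (hsub : (outG o).ed X X ⊆ G.ed S S ∪ ({a, b} ∪ {G.al a, G.al b}))
    (h0 : S = ∅ → (outG o).ed X X = ∅) :
    ∑ d ∈ (outG o).ed X X, outZ G z k d ≤ 3 * S.card := by
  have hw := h.mc.inst.wt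
  rcases S.eq_empty_or_nonempty with hS | hS
  · rw [h0 hS, hS, sum_empty, card_empty]
    norm_num
  · have hn' : ∀ d ∈ G.ds, 0 ≤ outZ G z k d := by
      intro d hd
      unfold outZ
      split_ifs
      · norm_num
      · exact hw.z0 d hd
    have hza : ∀ d, P4 e1 e2 e3 e4 d → outZ G z k d = 1 / 2 ∧ outZ G z k (G.al d) = 1 / 2 := by
      intro d hd
      have hds := o.p_ds hd
      refine ⟨?_, ?_⟩
      · rw [o.z_out' (o.p_in hd).2, q.half d hd]
      · rw [o.z_out (o.p_in hd).2, hw.sym d hds, q.half d hd]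
    have hads := o.p_ds ha
    have hbds := o.p_ds hb
    have hal : G.al a ≠ G.al b := fun h1 => hab (by rw [← G.al_al a hads, h1, G.al_al b hbds])
    have s1 : ∑ d ∈ ({a, b} : Finset D), outZ G z k d = 1 := by
      rw [sum_pair hab, (hza a ha).1, (hza b hb).1]
      norm_num
    have s2 : ∑ d ∈ ({G.al a, G.al b} : Finset D), outZ G z k d = 1 := by
      rw [sum_pair hal, (hza a ha).2, (hza b hb).2]
      norm_num
    have n1 : ∀ d ∈ ({a, b} : Finset D), 0 ≤ outZ G z k d := by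
      intro d hd
      rw [mem_insert, mem_singleton] at hd
      rcases hd with rfl | rfl
      · exact hn' _ hads
      · exact hn' _ hbds
    have n2 : ∀ d ∈ ({G.al a, G.al b} : Finset D), 0 ≤ outZ G z k d := by
      intro d hd
      rw [mem_insert, mem_singleton] at hd
      rcases hd with rfl | rfl
      · exact hn' _ (G.al_mem _ hads)
      · exact hn' _ (G.al_mem _ hbds)
    have b1 := sum_le_union (outZ G z k) hsub (fun d hd => hn' d (mem_ed.1 hd).1)
      (fun d hd => (mem_union.1 hd).elim (n1 d) (n2 d))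
    have b2 := sum_le_union (outZ G z k) (Subset.refl (({a, b} : Finset D) ∪ {G.al a, G.al b})) n1 n2
    rw [s1, s2] at b2
    have b3 : ∑ d ∈ G.ed S S, outZ G z k d = ∑ d ∈ G.ed S S, z d := by
      refine sum_congr rfl fun d hd => ?_
      obtain ⟨-, h2, -⟩ := mem_ed.1 hd
      exact o.z_out fun h5 => disjoint_left.1 hSZ h2 h5
    have hne : S ≠ G.vs := by
      rintro rfl
      exact disjoint_left.1 hSZ (q.hZ o.c1Z) o.c1Z
    have b4 := h.v2 hSvs he hS hne
    rw [hw.val_eq hSvs] at b4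
    linarith

/-- the weights of the outer graph -/
theorem Z4.out_wt (q : G.Z4 z t Z e1 e2 e3 e4) (h : G.N5 z t fr F jm sx ep m)
    (o : G.OutD Z e1 e2 e3 e4 k c1 c2) : (outG o).Wt (outZ G z k) t := by
  have hw := h.mc.inst.wt
  refine Wt.of_ed ?_ ?_ ?_ (q.out_deg hw o) ?_
  · intro d hd
    unfold outZ
    split_ifs
    · norm_num
    · exact hw.z0 d (o.mem_ds.1 hd).1
  · intro v hv
    rcases mem_union.1 hv with h1 | h1
    · exact hw.t0 v (mem_sdiff.1 h1).1
    · rw [mem_insert, mem_singleton] at h1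
      rcases h1 with h1 | h1
      · rw [h1, q.tz c1 o.c1Z]
      · rw [h1, q.tz c2 o.c2Z]
  · intro d hd
    have hd' := (o.mem_ds.1 hd).1
    change outZ G z k (G.al d) = outZ G z k d
    unfold outZ
    have e1 : (G.al d = k ∨ G.al d = G.al k) ↔ (d = k ∨ d = G.al k) := by
      constructor
      · rintro (h1 | h1)
        · exact Or.inr (by rw [← h1, G.al_al d hd'])
        · exact Or.inl (by rw [← G.al_al d hd', h1, G.al_al k o.kds])
      · rintro (h1 | h1)
        · exact Or.inr (by rw [h1])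
        · exact Or.inl (by rw [h1, G.al_al k o.kds])
    simp only [e1]
    rw [hw.sym d hd']
  · intro X hX ho
    have hcX : ∀ v ∈ X, v ∈ X \ Z ∨ v = c1 ∨ v = c2 := by
      intro v hv
      by_cases h1 : v ∈ Z
      · right
        rcases mem_union.1 (hX hv) with h2 | h2
        · exact absurd h1 (mem_sdiff.1 h2).2
        · rwa [mem_insert, mem_singleton] at h2
      · exact Or.inl (mem_sdiff.2 ⟨hv, h1⟩)
    set S := X \ Z with hS
    have hSX : S ⊆ X := sdiff_subset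
    have hSvs : S ⊆ G.vs := by
      intro v hv
      obtain ⟨h1, h2⟩ := mem_sdiff.1 hv
      rcases mem_union.1 (hX h1) with h3 | h3
      · exact (mem_sdiff.1 h3).1
      · rw [mem_insert, mem_singleton] at h3
        rcases h3 with h3 | h3
        · exact absurd (h3 ▸ o.c1Z) h2
        · exact absurd (h3 ▸ o.c2Z) h2
    have hc1S : c1 ∉ S := fun h1 => (mem_sdiff.1 h1).2 o.c1Z
    have hc2S : c2 ∉ S := fun h1 => (mem_sdiff.1 h1).2 o.c2Z
    have hSZ : Disjoint S Z := sdiff_disjoint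
    have hzS : ∀ A B : Finset V, (A ⊆ S ∨ B ⊆ S) →
        ∑ d ∈ G.ed A B, outZ G z k d = ∑ d ∈ G.ed A B, z d := by
      intro A B hAB
      refine sum_congr rfl fun d hd => ?_
      obtain ⟨h1, h2, h3⟩ := mem_ed.1 hd
      rcases hAB with h4 | h4
      · exact o.z_out fun h5 => disjoint_left.1 hSZ (h4 h2) h5
      · exact o.z_out' fun h5 => disjoint_left.1 hSZ (h4 h3) h5
    have hn : ∀ d ∈ (outG o).ds, 0 ≤ outZ G z k d := by
      intro d hd
      unfold outZ
      split_ifs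
      · norm_num
      · exact hw.z0 d (o.mem_ds.1 hd).1
    have hn' : ∀ d ∈ G.ds, 0 ≤ outZ G z k d := by
      intro d hd
      unfold outZ
      split_ifs
      · norm_num
      · exact hw.z0 d hd
    by_cases hc1 : c1 ∈ X
    · by_cases hc2 : c2 ∈ X
      · have hXe : X = insert c1 (insert c2 S) := by
          ext v
          rw [mem_insert, mem_insert]
          constructor
          · intro hv
            rcases hcX v hv with h1 | h1 | h1
            · exact Or.inr (Or.inr h1)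
            · exact Or.inl h1
            · exact Or.inr (Or.inl h1)
          · rintro (h1 | h1 | h1)
            · rw [h1]; exact hc1
            · rw [h1]; exact hc2
            · exact hSX h1
        have hcard : X.card = S.card + 2 := by
          conv_lhs => rw [hXe]
          rw [card_insert_of_notMem, card_insert_of_notMem hc2S]
          rw [mem_insert]
          rintro (h1 | h1)
          · exact o.hc h1
          · exact hc1S h1
        have hsub : (outG o).ed X X ⊆ (G.ed S S ∪ G.ed Z S) ∪ (G.ed S Z ∪ {k, G.al k}) := by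
          intro d hd
          have hds := (o.mem_ds.1 (mem_ed.1 hd).1).1
          rcases o.ed_cases hd with h1 | ⟨h1, -, h2⟩ | ⟨h1, -, h2⟩ | ⟨h1, -, h2⟩ | ⟨h1, -, h2⟩ |
            ⟨h1, -⟩
          · exact mem_union_left _ (mem_union_left _ h1)
          · refine mem_union_left _ (mem_union_right _ (mem_ed.2 ⟨hds, (o.p_in ?_).1, h2⟩))
            exact h1.elim Or.inl fun h => Or.inr (Or.inr (Or.inl h))
          · refine mem_union_left _ (mem_union_right _ (mem_ed.2 ⟨hds, (o.p_in ?_).1, h2⟩))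
            exact h1.elim (fun h => Or.inr (Or.inl h)) fun h => Or.inr (Or.inr (Or.inr h))
          · refine mem_union_right _ (mem_union_left _ (mem_ed.2 ⟨hds, h2, (o.p_in ?_).1⟩))
            exact h1.elim Or.inl fun h => Or.inr (Or.inr (Or.inl h))
          · refine mem_union_right _ (mem_union_left _ (mem_ed.2 ⟨hds, h2, (o.p_in ?_).1⟩))
            exact h1.elim (fun h => Or.inr (Or.inl h)) fun h => Or.inr (Or.inr (Or.inr h))
          · refine mem_union_right _ (mem_union_right _ ?_)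
            rw [mem_insert, mem_singleton]
            exact h1
        have hk4 : ∑ d ∈ ({k, G.al k} : Finset D), outZ G z k d = 4 := by
          rw [sum_pair o.kn]
          unfold outZ
          rw [if_pos (Or.inl rfl), if_pos (Or.inr rfl)]
          norm_num
        have hnk : ∀ d ∈ ({k, G.al k} : Finset D), 0 ≤ outZ G z k d := by
          intro d hd
          unfold outZ
          rw [mem_insert, mem_singleton] at hd
          rw [if_pos hd]
          norm_num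
        have hne : ∀ A B : Finset V, ∀ d ∈ G.ed A B, 0 ≤ outZ G z k d := fun A B d hd =>
          hn' d (mem_ed.1 hd).1
        have b1 := sum_le_union (outZ G z k) hsub
          (fun d hd => (mem_union.1 hd).elim (hne _ _ d) (hne _ _ d))
          (fun d hd => (mem_union.1 hd).elim (hne _ _ d) (hnk d))
        have b2 := sum_le_union (outZ G z k) (Subset.refl (G.ed S S ∪ G.ed Z S)) (hne _ _) (hne _ _)
        have b3 := sum_le_union (outZ G z k) (Subset.refl (G.ed S Z ∪ {k, G.al k})) (hne _ _) hnk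
        rw [hzS S S (Or.inl (Subset.refl _)), hzS Z S (Or.inr (Subset.refl _))] at b2
        rw [hzS S Z (Or.inl (Subset.refl _)), hk4] at b3
        have hU : S ∪ Z ⊆ G.vs := union_subset hSvs q.hZ
        have hUc : (S ∪ Z).card = S.card + Z.card := card_union_of_disjoint hSZ
        have hUo : Odd (S ∪ Z).card := by
          rw [hUc]
          rw [hcard] at ho
          have h5 := q.he
          rw [Nat.even_iff] at h5
          rw [Nat.odd_iff] at ho ⊢
          omega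
        have b4 := hw.ed_odd hU hUo
        rw [ed_union_left hSZ, ed_union_right hSZ, ed_union_right hSZ, hUc] at b4
        have b5 := hw.val_eq q.hZ
        rw [q.h2] at b5
        rw [hcard]
        push_cast at b4 ⊢
        linarith
      · have hXe : X = insert c1 S := by
          ext v
          rw [mem_insert]
          constructor
          · intro hv
            rcases hcX v hv with h1 | h1 | h1
            · exact Or.inr h1
            · exact Or.inl h1
            · exact absurd (h1 ▸ hv) hc2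
          · rintro (h1 | h1)
            · rw [h1]; exact hc1
            · exact hSX h1
        have hcard : X.card = S.card + 1 := by
          conv_lhs => rw [hXe]
          exact card_insert_of_notMem hc1S
        have hSe : Even S.card := by
          rw [hcard] at ho
          rw [Nat.odd_iff] at ho
          rw [Nat.even_iff]
          omega
        have b1 := q.one h o (X := X) hSvs hSZ hSe (a := e1) (b := e3) (Or.inl rfl)
          (Or.inr (Or.inr (Or.inl rfl))) o.n13 (by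
            intro d hd
            have hds := (o.mem_ds.1 (mem_ed.1 hd).1).1
            rcases o.ed_cases hd with h1 | ⟨h1, -, h2⟩ | ⟨-, h1, -⟩ | ⟨h1, -, h2⟩ | ⟨-, h1, -⟩ |
              ⟨-, -, h1⟩
            · exact mem_union_left _ h1
            · refine mem_union_right _ (mem_union_left _ ?_)
              rw [mem_insert, mem_singleton]
              exact h1
            · exact absurd h1 hc2
            · refine mem_union_right _ (mem_union_right _ ?_)
              rw [mem_insert, mem_singleton]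
              rcases h1 with h1 | h1
              · exact Or.inl (by rw [← h1, G.al_al d hds])
              · exact Or.inr (by rw [← h1, G.al_al d hds])
            · exact absurd h1 hc2
            · exact absurd h1 hc2) (by
            intro hS0
            rw [hXe, hS0, eq_empty_iff_forall_notMem]
            intro d hd
            obtain ⟨h1, h2, h3⟩ := mem_ed.1 hd
            rw [mem_insert] at h2 h3
            have h2' := h2.resolve_right (notMem_empty _)
            have h3' := h3.resolve_right (notMem_empty _)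
            exact (outG o).noloop d h1 (h3'.trans h2'.symm))
        rw [hcard]
        push_cast
        linarith
    · by_cases hc2 : c2 ∈ X
      · have hXe : X = insert c2 S := by
          ext v
          rw [mem_insert]
          constructor
          · intro hv
            rcases hcX v hv with h1 | h1 | h1
            · exact Or.inr h1
            · exact absurd (h1 ▸ hv) hc1
            · exact Or.inl h1
          · rintro (h1 | h1)
            · rw [h1]; exact hc2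
            · exact hSX h1
        have hcard : X.card = S.card + 1 := by
          conv_lhs => rw [hXe]
          exact card_insert_of_notMem hc2S
        have hSe : Even S.card := by
          rw [hcard] at ho
          rw [Nat.odd_iff] at ho
          rw [Nat.even_iff]
          omega
        have b1 := q.one h o (X := X) hSvs hSZ hSe (a := e2) (b := e4) (Or.inr (Or.inl rfl))
          (Or.inr (Or.inr (Or.inr rfl))) o.n24 (by
            intro d hd
            have hds := (o.mem_ds.1 (mem_ed.1 hd).1).1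
            rcases o.ed_cases hd with h1 | ⟨-, h1, -⟩ | ⟨h1, -, h2⟩ | ⟨-, h1, -⟩ | ⟨h1, -, h2⟩ |
              ⟨-, h1, -⟩
            · exact mem_union_left _ h1
            · exact absurd h1 hc1
            · refine mem_union_right _ (mem_union_left _ ?_)
              rw [mem_insert, mem_singleton]
              exact h1
            · exact absurd h1 hc1
            · refine mem_union_right _ (mem_union_right _ ?_)
              rw [mem_insert, mem_singleton]
              rcases h1 with h1 | h1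
              · exact Or.inl (by rw [← h1, G.al_al d hds])
              · exact Or.inr (by rw [← h1, G.al_al d hds])
            · exact absurd h1 hc1) (by
            intro hS0
            rw [hXe, hS0, eq_empty_iff_forall_notMem]
            intro d hd
            obtain ⟨h1, h2, h3⟩ := mem_ed.1 hd
            rw [mem_insert] at h2 h3
            have h2' := h2.resolve_right (notMem_empty _)
            have h3' := h3.resolve_right (notMem_empty _)
            exact (outG o).noloop d h1 (h3'.trans h2'.symm))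
        rw [hcard]
        push_cast
        linarith
      · have hXe : X = S := by
          refine Subset.antisymm (fun v hv => ?_) hSX
          rcases hcX v hv with h1 | h1 | h1
          · exact h1
          · exact absurd (h1 ▸ hv) hc1
          · exact absurd (h1 ▸ hv) hc2
        have hsub : (outG o).ed X X ⊆ G.ed S S := by
          intro d hd
          rcases o.ed_cases hd with h1 | ⟨-, h1, -⟩ | ⟨-, h1, -⟩ | ⟨-, h1, -⟩ | ⟨-, h1, -⟩ |
              ⟨-, h1, -⟩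
          · exact h1
          · exact absurd h1 hc1
          · exact absurd h1 hc2
          · exact absurd h1 hc1
          · exact absurd h1 hc2
          · exact absurd h1 hc1
        have b1 : ∑ d ∈ (outG o).ed X X, outZ G z k d ≤ ∑ d ∈ G.ed S S, outZ G z k d :=
          sum_le_sum_of_subset_of_nonneg hsub fun d hd _ => hn' d (mem_ed.1 hd).1
        rw [hzS S S (Or.inl (Subset.refl _))] at b1
        have b2 := hw.ed_odd hSvs (by rw [← hXe]; exact ho)
        rw [hXe] at b1 ⊢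
        linarith

/-- boundary darts of `Z` have no fresh ends -/
theorem Z4.nofr (q : G.Z4 z t Z e1 e2 e3 e4) (h : G.N5 z t fr F jm sx ep m) {d : D}
    (hd : d ∈ G.ds) (hc : G.pi d ∈ Z ↔ G.pi (G.al d) ∉ Z) : G.pi d ∉ fr := by
  have hw := h.mc.inst.wt
  have hF := h.mc.inst.fresh
  have key : ∀ e ∈ G.bd Z, z e ≠ 1 := by
    intro e he h1
    have h2 := q.h0 e he (by rw [h1]; exact one_ne_zero)
    rw [q.half e h2] at h1
    norm_num at h1
  intro h1
  have h2 := hF.unit d hd h1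
  by_cases h3 : G.pi d ∈ Z
  · exact key d (mem_bd.2 ⟨hd, h3, hc.1 h3⟩) h2
  · have h4 : G.pi (G.al d) ∈ Z := by
      by_contra h5
      exact h3 (hc.2 h5)
    refine key (G.al d) (mem_bd.2 ⟨G.al_mem d hd, h4, ?_⟩) (by rw [hw.sym d hd]; exact h2)
    rw [G.al_al d hd]
    exact h3

/-- a dart at a fresh vertex does not cross `Z` -/
theorem Z4.stay (q : G.Z4 z t Z e1 e2 e3 e4) (h : G.N5 z t fr F jm sx ep m) {d : D}
    (hd : d ∈ G.ds) (hp : G.pi d ∈ fr) : G.pi d ∈ Z ↔ G.pi (G.al d) ∈ Z := by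
  by_contra h1
  refine q.nofr h hd ?_ hp
  tauto

theorem Z4.jmZ (q : G.Z4 z t Z e1 e2 e3 e4) (h : G.N5 z t fr F jm sx ep m) {v : V}
    (hv : v ∈ jm) : v ∉ Z := by
  intro h1
  have h2 := h.mc.inst.fresh.t_jm h.mc.inst.wt hv
  rw [q.tz v h1] at h2
  norm_num at h2

/-- the matching of the outer graph -/
theorem Z4.out_sol (q : G.Z4 z t Z e1 e2 e3 e4) (h : G.N5 z t fr F jm sx ep m)
    (o : G.OutD Z e1 e2 e3 e4 k c1 c2) : ∃ M1, (outG o).IsPM M1 ∧
      (∀ d ∈ M1, 0 < outZ G z k d) ∧ ∀ X, G.Adm fr F X → Disjoint X Z →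
        (Odd X.card ∨ (jm.Nonempty ∧ jm ⊆ X)) → ∃ d ∈ G.bd X, d ∉ M1 := by
  have hI := h.mc.inst
  have hw := hI.wt
  have hF := hI.fresh
  have s := o.side
  have hvs : (outG o).vs = (G.vs \ Z) ∪ {c1, c2} := rfl
  have hdis : Disjoint (G.vs \ Z) ({c1, c2} : Finset V) := by
    rw [disjoint_left]
    intro v hv h1
    rw [mem_insert, mem_singleton] at h1
    rcases h1 with h1 | h1
    · exact (mem_sdiff.1 hv).2 (h1 ▸ o.c1Z)
    · exact (mem_sdiff.1 hv).2 (h1 ▸ o.c2Z)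
  have hcard : (outG o).vs.card = (G.vs \ Z).card + 2 := by
    rw [hvs, card_union_of_disjoint hdis, card_pair o.hc]
  have hc2 : (G.vs \ Z).card + Z.card = G.vs.card := card_sdiff_add_card_eq_card q.hZ
  have hjmZ : ∀ v ∈ jm, v ∉ Z := fun v hv => q.jmZ h hv
  -- admissible sets outside `Z`
  have hadm : ∀ X, (outG o).Adm (fr \ Z) (F.filter fun d => G.pi d ∉ Z) X ↔
      G.Adm fr F X ∧ Disjoint X Z := by
    intro X
    constructor
    · intro hX
      have h1 : Disjoint X Z := by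
        rw [disjoint_left]
        exact fun v hv => (mem_sdiff.1 (hX.sub hv)).2
      refine ⟨⟨fun v hv => (mem_sdiff.1 (hX.sub hv)).1, fun d hd hp => ?_⟩, h1⟩
      have h2 : G.pi d ∉ Z := disjoint_left.1 h1 hp
      have h3 := hX.clo d (mem_filter.2 ⟨hd, h2⟩) (by rw [o.pi_out' h2]; exact hp)
      change (outG o).pi (G.al d) ∈ X at h3
      have h4 : G.pi (G.al d) ∉ Z := fun h5 => h2 ((q.stay h (hF.Fsub hd) (hF.Ffr d hd)).2 h5)
      rwa [o.pi_out' h4] at h3
    · rintro ⟨h1, h2⟩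
      refine ⟨fun v hv => mem_sdiff.2 ⟨h1.sub hv, disjoint_left.1 h2 hv⟩, fun d hd hp => ?_⟩
      obtain ⟨h3, h4⟩ := mem_filter.1 hd
      rw [o.pi_out' h4] at hp
      have h5 := h1.clo d h3 hp
      change (outG o).pi (G.al d) ∈ X
      rw [o.pi_out' (disjoint_left.1 h2 h5)]
      exact h5
  have hbd : ∀ X, G.Adm fr F X → Disjoint X Z → (outG o).bd X = G.bd X := by
    intro X hX hXZ
    rw [s.bd fun v hv => mem_sdiff.2 ⟨hF.fsub (hX.sub hv), disjoint_left.1 hXZ hv⟩]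
    refine sdiff_eq_self_of_disjoint ?_
    rw [disjoint_left]
    intro d hd h1
    obtain ⟨h2, h3, h4⟩ := mem_filter.1 h1
    refine h4 (o.mem_ds.2 ⟨h2, Or.inl ⟨h3, fun h5 => h3 ?_⟩⟩)
    exact (q.stay h h2 (hX.sub (mem_bd.1 hd).2.1)).2 h5
  have hRaw : (outG o).RawI (outZ G z k) t (fr \ Z) (F.filter fun d => G.pi d ∉ Z) jm ∅ m := by
    refine ⟨?_, q.out_wt h o, ?_, ?_, hI.jm2, ?_, ?_, ?_⟩
    · rw [hcard]
      have h1 := hI.even
      have h2 := q.he
      rw [Nat.even_iff] at h1 h2 ⊢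
      omega
    · rw [hvs, sum_union hdis, sum_pair o.hc, q.tz c1 o.c1Z, q.tz c2 o.c2Z]
      have h1 : ∑ v ∈ G.vs \ Z, t v ≤ ∑ v ∈ G.vs, t v :=
        sum_le_sum_of_subset_of_nonneg sdiff_subset fun v hv _ => hw.t0 v hv
      have h2 := hI.tau
      linarith
    · refine s.frB hF ?_ ?_ ?_ ?_ ?_ ?_ ?_ ?_ ?_ ?_ ?_ ?_ ?_ ?_
      · intro v hv
        obtain ⟨h1, h2⟩ := mem_sdiff.1 hv
        exact mem_union_left _ (mem_sdiff.2 ⟨hF.fsub h1, h2⟩)
      · intro d hd
        obtain ⟨h1, h2⟩ := mem_filter.1 hd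
        refine o.mem_ds.2 ⟨hF.Fsub h1, Or.inl ⟨h2, fun h3 => h2 ?_⟩⟩
        exact (q.stay h (hF.Fsub h1) (hF.Ffr d h1)).2 h3
      · intro d hd
        obtain ⟨h1, h2⟩ := mem_filter.1 hd
        refine mem_filter.2 ⟨hF.Fal d h1, fun h3 => h2 ?_⟩
        exact (q.stay h (hF.Fsub h1) (hF.Ffr d h1)).2 h3
      · exact fun v hv => mem_sdiff.2 ⟨hF.jms hv, hjmZ v hv⟩
      · exact fun v hv _ => (mem_sdiff.1 hv).1
      · intro d hd hp _ _
        rw [mem_filter]
        exact ⟨fun h1 => h1.1, fun h1 => ⟨h1, (mem_sdiff.1 hp).2⟩⟩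
      · intro d hd hp _
        exact o.z_out (mem_sdiff.1 hp).2
      · intro d hd hp
        exfalso
        obtain ⟨h2, h3, h4⟩ := mem_filter.1 hd
        refine h4 (o.mem_ds.2 ⟨h2, Or.inl ⟨h3, fun h5 => h3 ?_⟩⟩)
        exact (q.stay h h2 (mem_sdiff.1 hp).1).2 h5
      · exact fun v _ hv => Or.inl hv
      · exact fun v _ _ hv => Or.inl hv
      · exact fun v hv hn => absurd (mem_sdiff.2 ⟨hF.fsub (mem_sdiff.1 hv).1,
          (mem_sdiff.1 hv).2⟩) hn
      · exact fun v hv hn => absurd (mem_sdiff.2 ⟨hF.fsub (mem_sdiff.1 hv).1,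
          (mem_sdiff.1 hv).2⟩) hn
      · exact fun v hv hn => absurd (mem_sdiff.2 ⟨hF.fsub (hF.jms hv), hjmZ v hv⟩) hn
      · exact fun d _ hv hn => absurd (mem_sdiff.2 ⟨hF.fsub (mem_sdiff.1 hv).1,
          (mem_sdiff.1 hv).2⟩) hn
    · intro X hX _ ho
      obtain ⟨h1, h2⟩ := (hadm X).1 hX
      rw [hbd X h1 h2]
      have h3 := hI.cc X h1 ho
      have h4 := hI.ep_le h1.sub
      omega
    · intro X hX _ he hn
      obtain ⟨h1, h2⟩ := (hadm X).1 hX
      rw [hbd X h1 h2]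
      have h3 := hI.ev X h1 he hn
      have h4 := hI.ep_le h1.sub
      omega
    · intro X hX _ he hn hj
      obtain ⟨h1, h2⟩ := (hadm X).1 hX
      rw [hbd X h1 h2]
      have h3 := hI.sx_eq
      exact hI.b0 X h1 he (by rw [h3]; exact hn) (by rw [h3]; exact hj)
  have hsz : (fr \ Z).card ≤ fr.card := card_le_card sdiff_subset
  obtain ⟨M1, h1, h2, h3⟩ := h.mc.solve hRaw (by
    have := q.h4
    omega)
  refine ⟨M1, h1, h2, fun X hX hXZ ho => ?_⟩
  obtain ⟨d, hd, hdM⟩ := h3 X ((hadm X).2 ⟨hX, hXZ⟩) (disjoint_empty_right _) ho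
  rw [hbd X hX hXZ] at hd
  exact ⟨d, hd, hdM⟩

/-- the inner graph `res U` has weights with less than 6 tokens; the fresh vertices of `A`, where the
weights may be different from 1, have a link to the rest of `Z` -/
def Pays (G : MG V D) (z : D → ℝ) (fr : Finset V) (F : Finset D) (Z U : Finset V) : Prop :=
  ∃ (z' : D → ℝ) (t' : V → ℝ) (A : Finset V), (G.res U).Wt z' t' ∧ ∑ v ∈ U, t' v < 6 ∧
    (∀ d ∈ G.ds, z d = 0 → z' d = 0) ∧
    (∀ d ∈ G.ds, G.pi d ∈ fr → G.pi d ∈ U → G.pi d ∉ A → z' d = 1) ∧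
    ∀ X, G.Adm fr F X → (∃ v ∈ X, v ∈ A) → ∃ d ∈ G.ds, G.pi d ∈ X ∧ G.pi (G.al d) ∈ Z \ U

/-- the matching of the inner graph -/
theorem Z4.in_sol (q : G.Z4 z t Z e1 e2 e3 e4) (h : G.N5 z t fr F jm sx ep m) {U : Finset V}
    (hU : U ⊆ Z) (he : Even U.card) (hp : G.Pays z fr F Z U) : ∃ M2, (G.res U).IsPM M2 ∧
      (∀ d ∈ M2, 0 < z d) ∧ ∀ X, G.Adm fr F X → X ⊆ U → Odd X.card →
        (∀ d ∈ G.ds, G.pi d ∈ X → G.pi (G.al d) ∉ Z \ U) →
          ∃ d ∈ G.bd X, G.pi (G.al d) ∈ U ∧ d ∉ M2 := by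
  obtain ⟨z', t', A, hw', htau, hz0, hun, hA⟩ := hp
  have hI := h.mc.inst
  have hw := hI.wt
  have hF := hI.fresh
  have hUvs : U ⊆ G.vs := hU.trans q.hZ
  have hvs : (G.res U).vs = U := inter_eq_right.2 hUvs
  set B : Finset V := A ∪ U.filter fun v => ∃ d ∈ G.ds, G.pi d = v ∧ G.pi (G.al d) ∉ U with hB
  have hBU : ∀ v ∈ U, v ∉ B → ∀ d ∈ G.ds, G.pi d = v → G.pi (G.al d) ∈ U := by
    intro v hv hn d hd hp
    by_contra h1
    exact hn (mem_union_right _ (mem_filter.2 ⟨hv, d, hd, hp, h1⟩))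
  have hmem : ∀ d, d ∈ (G.res U).ds ↔ d ∈ G.ds ∧ G.pi d ∈ U ∧ G.pi (G.al d) ∈ U := fun d =>
    mem_filter
  set F' : Finset D := F.filter fun d => G.pi d ∈ U ∧ G.pi (G.al d) ∈ U with hF'
  have hadm : ∀ X, (G.res U).Adm (fr ∩ U) F' X → Disjoint X B → G.Adm fr F X ∧ X ⊆ U ∧
      (G.res U).bd X = G.bd X := by
    intro X hX hXB
    have hXU : X ⊆ U := fun v hv => (mem_inter.1 (hX.sub hv)).2
    refine ⟨⟨fun v hv => (mem_inter.1 (hX.sub hv)).1, fun d hd hp => ?_⟩, hXU, ?_⟩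
    · have h1 := hBU _ (hXU hp) (disjoint_left.1 hXB hp) d (hF.Fsub hd) rfl
      exact hX.clo d (mem_filter.2 ⟨hd, hXU hp, h1⟩) hp
    · ext d
      rw [mem_bd, mem_bd, hmem]
      constructor
      · rintro ⟨⟨h1, -, -⟩, h2, h3⟩
        exact ⟨h1, h2, h3⟩
      · rintro ⟨h1, h2, h3⟩
        exact ⟨⟨h1, hXU h2, hBU _ (hXU h2) (disjoint_left.1 hXB h2) d h1 rfl⟩, h2, h3⟩
  have hjX : ∀ X : Finset V, X ⊆ U → (X ∩ jm).card = 0 := by
    intro X hX
    rw [card_eq_zero, eq_empty_iff_forall_notMem]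
    intro v hv
    obtain ⟨h1, h2⟩ := mem_inter.1 hv
    exact q.jmZ h h2 (hU (hX h1))
  have hRaw : (G.res U).RawI z' t' (fr ∩ U) F' ∅ B m := by
    refine ⟨by rw [hvs]; exact he, hw', by rw [hvs]; exact htau, ?_, Or.inl rfl, ?_, ?_, ?_⟩
    · refine ⟨?_, ?_, ?_, empty_subset _, ?_, ?_, ?_, ?_⟩
      · intro v hv
        obtain ⟨h1, h2⟩ := mem_inter.1 hv
        exact mem_inter.2 ⟨hF.fsub h1, h2⟩
      · intro d hd
        obtain ⟨h1, h2, h3⟩ := mem_filter.1 hd
        exact (hmem d).2 ⟨hF.Fsub h1, h2, h3⟩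
      · intro d hd
        obtain ⟨h1, h2, h3⟩ := mem_filter.1 hd
        refine mem_filter.2 ⟨hF.Fal d h1, h3, ?_⟩
        change G.pi (G.al (G.al d)) ∈ U
        rw [G.al_al d (hF.Fsub h1)]
        exact h2
      · intro v hv hn
        obtain ⟨h1, h2⟩ := mem_inter.1 hv
        rw [← hF.two v h1]
        congr 1
        ext d
        rw [mem_filter, mem_filter, mem_filter]
        constructor
        · rintro ⟨⟨h3, -⟩, h4⟩
          exact ⟨h3, h4⟩
        · rintro ⟨h3, h4⟩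
          exact ⟨⟨h3, by rw [h4]; exact h2, hBU v h2 hn d (hF.Fsub h3) h4⟩, h4⟩
      · intro v hv hn _
        obtain ⟨h1, h2⟩ := mem_inter.1 hv
        rw [← hF.jd v h1 fun h3 => q.jmZ h h3 (hU h2)]
        congr 1
        ext d
        rw [mem_filter, mem_filter, mem_filter, mem_st, mem_st, hmem]
        constructor
        · rintro ⟨⟨⟨h3, h4, h5⟩, h6⟩, h7⟩
          exact ⟨⟨h3, h6⟩, fun h8 => h7 ⟨h8, h4, h5⟩⟩
        · rintro ⟨⟨h3, h4⟩, h5⟩
          exact ⟨⟨⟨h3, by rw [h4]; exact h2, hBU v h2 hn d h3 h4⟩, h4⟩, fun h8 => h5 h8.1⟩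
      · exact fun v hv => absurd hv (notMem_empty v)
      · intro d hd hp hn
        obtain ⟨h1, h2⟩ := mem_inter.1 hp
        exact hun d ((hmem d).1 hd).1 h1 h2 fun h3 => hn (mem_union_left _ h3)
    · intro X hX hXB ho
      obtain ⟨h1, h2, h3⟩ := hadm X hX hXB
      rw [h3]
      have h4 := hI.cc X h1 ho
      have h5 := hI.ep_le h1.sub
      have h6 := hjX X h2
      omega
    · intro X hX hXB he hn
      obtain ⟨h1, h2, h3⟩ := hadm X hX hXB
      rw [h3]
      have h4 := hI.ev X h1 he hn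
      have h5 := hI.ep_le h1.sub
      have h6 := hjX X h2
      omega
    · intro X _ _ _ hn
      exact absurd hn not_nonempty_empty
  have hsz : (fr ∩ U).card ≤ fr.card := card_le_card inter_subset_left
  obtain ⟨M2, h1, h2, h3⟩ := h.mc.solve hRaw (by
    rw [hvs]
    have h4 := card_le_card hU
    have h5 := q.h4'
    have h6 : (G.vs \ Z).card + Z.card = G.vs.card := card_sdiff_add_card_eq_card q.hZ
    omega)
  refine ⟨M2, h1, fun d hd => ?_, fun X hX hXU ho hl => ?_⟩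
  · have h4 := ((hmem d).1 (h1.sub hd)).1
    refine lt_of_le_of_ne (hw.z0 d h4) fun h5 => ?_
    have h6 := h2 d hd
    rw [hz0 d h4 h5.symm] at h6
    exact lt_irrefl _ h6
  · have hXB : Disjoint X B := by
      rw [disjoint_left]
      intro v hv hvB
      rcases mem_union.1 hvB with h4 | h4
      · obtain ⟨d, h5, h6, h7⟩ := hA X hX ⟨v, hv, h4⟩
        exact hl d h5 h6 h7
      · obtain ⟨h5, d, h6, h7, h8⟩ := mem_filter.1 h4
        refine hl d h6 (by rw [h7]; exact hv) (mem_sdiff.2 ⟨?_, h8⟩)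
        refine (q.stay h h6 (by rw [h7]; exact hX.sub hv)).1 ?_
        rw [h7]
        exact hU h5
    have hX' : (G.res U).Adm (fr ∩ U) F' X := by
      refine ⟨fun v hv => mem_inter.2 ⟨hX.sub hv, hXU hv⟩, fun d hd hp => ?_⟩
      exact hX.clo d (mem_filter.1 hd).1 hp
    obtain ⟨d, h4, h5⟩ := h3 X hX' hXB (Or.inl ho)
    rw [(hadm X hX' hXB).2.2] at h4
    obtain ⟨h6, h7, h8⟩ := mem_bd.1 h4
    exact ⟨d, h4, hBU _ (hXU h7) (disjoint_left.1 hXB h7) d h6 rfl, h5⟩

/-- gluing of an outer and an inner matching -/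
theorem Z4.fin (q : G.Z4 z t Z e1 e2 e3 e4) (h : G.N5 z t fr F jm sx ep m)
    (o : G.OutD Z e1 e2 e3 e4 k c1 c2) {M1 : Finset D} (hM1 : (outG o).IsPM M1)
    (hpos : ∀ d ∈ M1, 0 < outZ G z k d)
    (hhit : ∀ X, G.Adm fr F X → Disjoint X Z → (Odd X.card ∨ (jm.Nonempty ∧ jm ⊆ X)) →
      ∃ d ∈ G.bd X, d ∉ M1)
    {S : Finset D} {U : Finset V} (hS : ∀ d ∈ S, P4 e1 e2 e3 e4 d)
    (hU : ∀ v, v ∈ U ↔ v ∈ Z ∧ ∀ d ∈ S, G.pi d ≠ v)
    (hMS : ∀ d ∈ G.bd Z, d ∈ M1 ↔ d ∈ S) (he : Even U.card) (hp : G.Pays z fr F Z U) :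
    False := by
  have hI := h.mc.inst
  have hw := hI.wt
  have hF := hI.fresh
  have hUZ : U ⊆ Z := fun v hv => ((hU v).1 hv).1
  have hUvs : U ⊆ G.vs := hUZ.trans q.hZ
  obtain ⟨M2, k1, k2, k3⟩ := q.in_sol h hUZ he hp
  obtain ⟨r1, r2, r3, r4⟩ := res_pm hUvs k1
  have r5 : ∀ d ∈ M2, G.pi (G.al d) ∈ U := fun d hd => (mem_filter.1 (k1.sub hd)).2.2
  have hY := o.side.half hM1
  set MY := M1.filter fun d => (outG o).pi d ∈ G.vs \ Z with hMY
  have hmY : ∀ d ∈ G.ds, G.pi d ∉ Z → (d ∈ MY ↔ d ∈ M1) := by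
    intro d hd hp
    rw [hMY, mem_filter, o.pi_out' hp]
    exact ⟨fun h1 => h1.1, fun h1 => ⟨h1, mem_sdiff.2 ⟨G.pi_mem d hd, hp⟩⟩⟩
  have hZh : G.Half Z (M2 ∪ S) := by
    refine ⟨?_, ?_, ?_⟩
    · intro d hd
      rcases mem_union.1 hd with h1 | h1
      · exact ⟨r1 h1, hUZ (r3 d h1)⟩
      · exact ⟨o.p_ds (hS d h1), (o.p_in (hS d h1)).1⟩
    · intro d hd hp
      rcases mem_union.1 hd with h1 | h1
      · exact mem_union_left _ (r2 d h1)
      · exact absurd hp (o.p_in (hS d h1)).2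
    · intro v hv
      rw [filter_union]
      by_cases h1 : v ∈ U
      · have e : (S.filter fun d => G.pi d = v) = ∅ := by
          rw [eq_empty_iff_forall_notMem]
          intro d hd
          obtain ⟨h2, h3⟩ := mem_filter.1 hd
          exact ((hU v).1 h1).2 d h2 h3
        rw [e, union_empty]
        exact r4 v h1
      · have e : (M2.filter fun d => G.pi d = v) = ∅ := by
          rw [eq_empty_iff_forall_notMem]
          intro d hd
          obtain ⟨h2, h3⟩ := mem_filter.1 hd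
          exact h1 (h3 ▸ r3 d h2)
        rw [e, empty_union]
        have h2 : ∃ a ∈ S, G.pi a = v := by
          by_contra h3
          push Not at h3
          exact h1 ((hU v).2 ⟨hv, h3⟩)
        obtain ⟨a, ha, hav⟩ := h2
        rw [card_eq_one]
        refine ⟨a, ?_⟩
        ext d
        rw [mem_filter, mem_singleton]
        constructor
        · rintro ⟨h3, h4⟩
          exact q.inn d a (hS d h3) (hS a ha) (h4.trans hav.symm)
        · rintro rfl
          exact ⟨ha, hav⟩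
  have hpm : G.IsPM (MY ∪ (M2 ∪ S)) := by
    refine hY.glue hZh sdiff_disjoint (sdiff_union_of_subset q.hZ).symm ?_
    intro d hd hp hp2
    have h1 : d ∈ G.bd Z := mem_bd.2 ⟨hd, hp, (mem_sdiff.1 hp2).2⟩
    rw [hmY _ (G.al_mem d hd) (mem_sdiff.1 hp2).2]
    have h2 : G.al d ∈ M1 ↔ d ∈ M1 := by
      constructor
      · intro h2
        have h3 : G.al (G.al d) ∈ M1 := hM1.closed _ h2
        rwa [G.al_al d hd] at h3
      · exact fun h2 => hM1.closed d h2
    rw [h2, hMS d h1, mem_union]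
    refine ⟨fun h3 => h3.resolve_left fun h4 => ?_, fun h3 => Or.inr h3⟩
    exact (mem_sdiff.1 hp2).2 (hUZ (r5 d h4))
  refine h.mc.bad ⟨MY ∪ (M2 ∪ S), hpm, ?_, ?_⟩
  · intro d hd
    rcases mem_union.1 hd with h1 | h1
    · obtain ⟨h2, h3⟩ := mem_filter.1 h1
      have h4 := hpos d h2
      have h5 : G.pi d ∉ Z := by
        rcases o.cases' (hM1.sub h2) with h6 | h6 | h6
        · exact h6.1
        · rw [h6.2] at h3
          exact absurd o.c1Z (mem_sdiff.1 h3).2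
        · rw [h6.2] at h3
          exact absurd o.c2Z (mem_sdiff.1 h3).2
      rwa [o.z_out h5] at h4
    · rcases mem_union.1 h1 with h2 | h2
      · exact k2 d h2
      · rw [q.half d (hS d h2)]
        norm_num
  · intro X hX hodd
    by_contra hno
    push Not at hno
    have hcl : ∀ Y ⊆ X, (∀ d ∈ G.ds, G.pi d ∈ Y → G.pi (G.al d) ∈ X → G.pi (G.al d) ∈ Y) →
        G.Adm fr F Y ∧ ∀ d ∈ G.bd Y, d ∈ MY ∪ (M2 ∪ S) := by
      intro Y hYX hc
      refine ⟨⟨hYX.trans hX.sub, fun d hd hp => ?_⟩, fun d hd => ?_⟩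
      · exact hc d (hF.Fsub hd) hp (hX.clo d hd (hYX hp))
      · obtain ⟨h1, h2, h3⟩ := mem_bd.1 hd
        exact hno d (mem_bd.2 ⟨h1, hYX h2, fun h4 => h3 (hc d h1 h2 h4)⟩)
    have c1' := hcl (X \ Z) sdiff_subset (by
      intro d hd hp hp2
      obtain ⟨h1, h2⟩ := mem_sdiff.1 hp
      exact mem_sdiff.2 ⟨hp2, fun h3 => h2 ((q.stay h hd (hX.sub h1)).2 h3)⟩)
    have c2' := hcl (X ∩ Z) inter_subset_left (by
      intro d hd hp hp2
      obtain ⟨h1, h2⟩ := mem_inter.1 hp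
      exact mem_inter.2 ⟨hp2, (q.stay h hd (hX.sub h1)).1 h2⟩)
    have hout : ∀ d ∈ MY, G.pi d ∉ Z := by
      intro d hd hp
      have h1 := (hY.sub d hd).2
      exact (mem_sdiff.1 h1).2 hp
    have o1 : ¬ (Odd (X \ Z).card ∨ (jm.Nonempty ∧ jm ⊆ X \ Z)) := by
      intro h1
      obtain ⟨d, h2, h3⟩ := hhit _ c1'.1 sdiff_disjoint h1
      obtain ⟨h4, h5, h6⟩ := mem_bd.1 h2
      rcases mem_union.1 (c1'.2 d h2) with h7 | h7
      · exact h3 (mem_filter.1 h7).1
      · exact (mem_sdiff.1 h5).2 (hZh.sub d h7).2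
    have o2 : ¬ Odd (X ∩ Z).card := by
      intro h1
      have hfrS : ∀ d ∈ S, ∀ v ∈ X, G.pi d ≠ v := by
        rintro d hd v hv rfl
        refine q.nofr h (o.p_ds (hS d hd)) ?_ (hX.sub hv)
        have := o.p_in (hS d hd)
        exact ⟨fun _ => this.2, fun _ => this.1⟩
      have hXU : X ∩ Z ⊆ U := by
        intro v hv
        obtain ⟨h2, h3⟩ := mem_inter.1 hv
        exact (hU v).2 ⟨h3, fun d hd => hfrS d hd v h2⟩
      obtain ⟨d, h2, h3, h4⟩ := k3 (X ∩ Z) c2'.1 hXU h1 (by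
        intro d hd hp hp2
        obtain ⟨h5, h6⟩ := mem_sdiff.1 hp2
        obtain ⟨h7, h8⟩ := mem_inter.1 hp
        have h9 : ∃ a ∈ S, G.pi a = G.pi (G.al d) := by
          by_contra h10
          push Not at h10
          exact h6 ((hU _).2 ⟨h5, h10⟩)
        obtain ⟨a, ha, hae⟩ := h9
        have h10 : G.pi (G.al d) ∉ X := fun h11 => hfrS a ha _ h11 hae
        have h11 := hno d (mem_bd.2 ⟨hd, h7, h10⟩)
        have h12 := hpm.closed d h11
        have h13 := hpm.one (G.pi (G.al d)) (G.pi_mem _ (G.al_mem d hd))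
        obtain ⟨x, hx⟩ := card_eq_one.1 h13
        have h14 : G.al d ∈ (MY ∪ (M2 ∪ S)).filter fun e => G.pi e = G.pi (G.al d) :=
          mem_filter.2 ⟨h12, rfl⟩
        have h15 : a ∈ (MY ∪ (M2 ∪ S)).filter fun e => G.pi e = G.pi (G.al d) :=
          mem_filter.2 ⟨mem_union_right _ (mem_union_right _ ha), hae⟩
        rw [hx, mem_singleton] at h14 h15
        have h16 := (o.p_in (hS a ha)).2
        rw [h15, ← h14, G.al_al d hd] at h16
        exact h16 h8)
      obtain ⟨h5, h6, h7⟩ := mem_bd.1 h2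
      have h8 := hXU h6
      rcases mem_union.1 (c2'.2 d h2) with h9 | h9
      · exact hout d h9 (hUZ h8)
      · rcases mem_union.1 h9 with h10 | h10
        · exact h4 h10
        · exact ((hU _).1 h8).2 d h10 rfl
    rcases hodd with h1 | ⟨h1, h2⟩
    · have h3 := card_sdiff_add_card_inter X Z
      have h4 : ¬ Odd (X \ Z).card := fun h5 => o1 (Or.inl h5)
      rw [Nat.not_odd_iff_even, Nat.even_iff] at h4 o2
      rw [Nat.odd_iff] at h1
      omega
    · rw [hI.sx_eq] at h1 h2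
      exact o1 (Or.inr ⟨h1, fun v hv => mem_sdiff.2 ⟨h2 hv, q.jmZ h hv⟩⟩)

/-- Z-GLUE -/
theorem Z4.glue (q : G.Z4 z t Z e1 e2 e3 e4) (h : G.N5 z t fr F jm sx ep m) {k : D}
    (hk : k ∈ G.ds) (hkZ : G.pi k ∈ Z) (hkZ' : G.pi (G.al k) ∈ Z)
    (hin : ∀ a b, (a = e1 ∨ a = e3) → (b = e2 ∨ b = e4) →
      G.Pays z fr F Z ((Z.erase (G.pi a)).erase (G.pi b))) : False := by
  have hI := h.mc.inst
  have hw := hI.wt
  have b1 := mem_bd.1 (q.b e1 (Or.inl rfl))
  have b2 := mem_bd.1 (q.b e2 (Or.inr (Or.inl rfl)))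
  have hc : G.pi e1 ≠ G.pi e2 := fun h1 =>
    q.n12 (q.inn e1 e2 (Or.inl rfl) (Or.inr (Or.inl rfl)) h1)
  have o : G.OutD Z e1 e2 e3 e4 k (G.pi e1) (G.pi e2) :=
    ⟨b1.2.1, b2.2.1, hc, hk, hkZ, hkZ', q.b, q.n12, q.n13, q.n14, q.n23, q.n24, q.n34⟩
  obtain ⟨M1, m1, m2, m3⟩ := q.out_sol h o
  have hv1 : G.pi e1 ∈ (outG o).vs := by
    change _ ∈ (G.vs \ Z) ∪ {G.pi e1, G.pi e2}
    simp
  have hv2 : G.pi e2 ∈ (outG o).vs := by
    change _ ∈ (G.vs \ Z) ∪ {G.pi e1, G.pi e2}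
    simp
  obtain ⟨x1, hx1⟩ := card_eq_one.1 (m1.one _ hv1)
  obtain ⟨x2, hx2⟩ := card_eq_one.1 (m1.one _ hv2)
  have u1 : ∀ d, d ∈ M1 → (outG o).pi d = G.pi e1 → d = x1 := by
    intro d h1 h2
    have h3 : d ∈ M1.filter fun e => (outG o).pi e = G.pi e1 := mem_filter.2 ⟨h1, h2⟩
    rwa [hx1, mem_singleton] at h3
  have u2 : ∀ d, d ∈ M1 → (outG o).pi d = G.pi e2 → d = x2 := by
    intro d h1 h2
    have h3 : d ∈ M1.filter fun e => (outG o).pi e = G.pi e2 := mem_filter.2 ⟨h1, h2⟩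
    rwa [hx2, mem_singleton] at h3
  have v1 : x1 ∈ M1 ∧ (outG o).pi x1 = G.pi e1 := by
    have h3 : x1 ∈ M1.filter fun e => (outG o).pi e = G.pi e1 := by
      rw [hx1]
      exact mem_singleton_self _
    exact mem_filter.1 h3
  have v2 : x2 ∈ M1 ∧ (outG o).pi x2 = G.pi e2 := by
    have h3 : x2 ∈ M1.filter fun e => (outG o).pi e = G.pi e2 := by
      rw [hx2]
      exact mem_singleton_self _
    exact mem_filter.1 h3
  have y1 : x1 = e1 ∨ x1 = e3 ∨ x1 = k := by
    rcases o.cases' (m1.sub v1.1) with h1 | h1 | h1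
    · rw [v1.2] at h1
      exact absurd (h1.2 ▸ b1.2.1) h1.1
    · exact h1.1
    · exact absurd (v1.2.symm.trans h1.2) hc
  have y2 : x2 = e2 ∨ x2 = e4 ∨ x2 = G.al k := by
    rcases o.cases' (m1.sub v2.1) with h1 | h1 | h1
    · rw [v2.2] at h1
      exact absurd (h1.2 ▸ b2.2.1) h1.1
    · exact absurd (h1.2.symm.trans v2.2) hc
    · exact h1.1
  have hMx : ∀ d ∈ G.bd Z, d ∈ M1 → d = x1 ∨ d = x2 := by
    intro d hd hdM
    rcases o.cases' (m1.sub hdM) with h1 | h1 | h1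
    · exact absurd (mem_bd.1 hd).2.1 h1.1
    · exact Or.inl (u1 d hdM h1.2)
    · exact Or.inr (u2 d hdM h1.2)
  by_cases hkM : k ∈ M1
  · have hk1 : k = x1 := u1 k hkM (o.pi_c1' (Or.inr (Or.inr rfl)))
    have hk2 : G.al k = x2 := u2 _ (m1.closed k hkM) (o.pi_c2' (Or.inr (Or.inr rfl)))
    refine q.fin h o m1 m2 m3 (S := ∅) (U := Z) (fun d hd => absurd hd (notMem_empty d))
      (fun v => ⟨fun h1 => ⟨h1, fun d hd => absurd hd (notMem_empty d)⟩, fun h1 => h1.1⟩)
      ?_ q.he ?_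
    · intro d hd
      refine ⟨fun h1 => ?_, fun h1 => absurd h1 (notMem_empty d)⟩
      exfalso
      obtain ⟨h2, h3, h4⟩ := mem_bd.1 hd
      rcases hMx d hd h1 with h5 | h5
      · rw [h5, ← hk1] at h4
        exact h4 hkZ'
      · rw [h5, ← hk2, G.al_al k hk] at h4
        exact h4 hkZ
    · refine ⟨z, G.tres z t Z, ∅, hw.res q.hZ, ?_, fun _ _ h1 => h1,
        fun d hd hp _ _ => hI.fresh.unit d hd hp, ?_⟩
      · have h1 := res_tau hw q.hZ
        have h2 : (G.res Z).vs = Z := inter_eq_right.2 q.hZ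
        rw [h2, q.h2] at h1
        linarith
      · rintro X _ ⟨v, -, h1⟩
        exact absurd h1 (notMem_empty v)
  · have hkM' : G.al k ∉ M1 := by
      intro h1
      have h2 : G.al (G.al k) ∈ M1 := m1.closed _ h1
      rw [G.al_al k hk] at h2
      exact hkM h2
    have y1' : x1 = e1 ∨ x1 = e3 := by
      rcases y1 with h1 | h1 | h1
      · exact Or.inl h1
      · exact Or.inr h1
      · exact absurd (h1 ▸ v1.1) hkM
    have y2' : x2 = e2 ∨ x2 = e4 := by
      rcases y2 with h1 | h1 | h1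
      · exact Or.inl h1
      · exact Or.inr h1
      · exact absurd (h1 ▸ v2.1) hkM'
    have p1 : P4 e1 e2 e3 e4 x1 := y1'.elim Or.inl fun h => Or.inr (Or.inr (Or.inl h))
    have p2 : P4 e1 e2 e3 e4 x2 :=
      y2'.elim (fun h => Or.inr (Or.inl h)) fun h => Or.inr (Or.inr (Or.inr h))
    have hne : x1 ≠ x2 := by
      intro h1
      rw [← h1] at y2'
      rcases y1' with h2 | h2 <;> rcases y2' with h3 | h3
      · exact q.n12 (h2.symm.trans h3)
      · exact q.n14 (h2.symm.trans h3)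
      · exact q.n23 (h3.symm.trans h2)
      · exact q.n34 (h2.symm.trans h3)
    have hpi : G.pi x1 ≠ G.pi x2 := fun h1 => hne (q.inn x1 x2 p1 p2 h1)
    have i1 := (o.p_in p1).1
    have i2 := (o.p_in p2).1
    refine q.fin h o m1 m2 m3 (S := {x1, x2}) (U := (Z.erase (G.pi x1)).erase (G.pi x2)) ?_ ?_
      ?_ ?_ (hin x1 x2 y1' y2')
    · intro d hd
      rw [mem_insert, mem_singleton] at hd
      rcases hd with rfl | rfl
      · exact p1
      · exact p2
    · intro v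
      rw [mem_erase, mem_erase]
      constructor
      · rintro ⟨h1, h2, h3⟩
        refine ⟨h3, fun d hd => ?_⟩
        rw [mem_insert, mem_singleton] at hd
        rcases hd with rfl | rfl
        · exact h2.symm
        · exact h1.symm
      · rintro ⟨h1, h2⟩
        exact ⟨(h2 x2 (by simp)).symm, (h2 x1 (by simp)).symm, h1⟩
    · intro d hd
      rw [mem_insert, mem_singleton]
      refine ⟨hMx d hd, ?_⟩
      rintro (h1 | h1)
      · rw [h1]; exact v1.1
      · rw [h1]; exact v2.1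
    · rw [card_erase_of_mem (mem_erase.2 ⟨hpi.symm, i2⟩), card_erase_of_mem i1]
      have h1 := q.he
      have h2 := q.h4
      rw [Nat.even_iff] at h1 ⊢
      omega

/-- from the output of `N5.four_half` -/
theorem Z4.of_half (hZ : Z ⊆ G.vs) (he : Even Z.card) (h2 : G.val z t Z = 2) (h4 : 4 ≤ Z.card)
    (h4' : 4 ≤ (G.vs \ Z).card)
    (hd : ∀ d, (d = e1 ∨ d = e2 ∨ d = e3 ∨ d = e4) ↔ d ∈ G.bd Z ∧ z d ≠ 0)
    (hh : (∀ d ∈ G.bd Z, z d ≠ 0 → z d = 1 / 2) ∧ (∀ v ∈ Z, t v = 0) ∧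
      ((G.bd Z).filter fun d => z d ≠ 0).card = 4 ∧
      (∀ d ∈ G.bd Z, ∀ e ∈ G.bd Z, z d ≠ 0 → z e ≠ 0 → G.pi d = G.pi e → d = e) ∧
      (∀ d ∈ G.bd Z, ∀ e ∈ G.bd Z, z d ≠ 0 → z e ≠ 0 →
        G.pi (G.al d) = G.pi (G.al e) → d = e)) : G.Z4 z t Z e1 e2 e3 e4 := by
  obtain ⟨a1, a2, a3, a4, -⟩ := hh
  have e : ((G.bd Z).filter fun d => z d ≠ 0) = {e1, e2, e3, e4} := by
    ext d
    rw [mem_filter, ← hd]
    simp only [mem_insert, mem_singleton]
  rw [e] at a3
  have key : ∀ a b c : D, ({e1, e2, e3, e4} : Finset D) ⊆ {a, b, c} → False := by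
    intro a b c h1
    have h2 := card_le_card h1
    have h3 := card_le_three (a := a) (b := b) (c := c)
    omega
  have key2 : ∀ a b c : D, (∀ d, (d = e1 ∨ d = e2 ∨ d = e3 ∨ d = e4) → d = a ∨ d = b ∨ d = c) →
      False := by
    intro a b c h1
    refine key a b c fun d hd => ?_
    simp only [mem_insert, mem_singleton] at hd ⊢
    exact h1 d hd
  refine ⟨hZ, he, h2, h4, h4', fun d h5 => ((hd d).1 h5).1, fun d h5 h6 => (hd d).2 ⟨h5, h6⟩,
    fun d h5 => a1 d ((hd d).1 h5).1 ((hd d).1 h5).2, a2, fun d e h5 h6 => a4 d ((hd d).1 h5).1 e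
      ((hd e).1 h6).1 ((hd d).1 h5).2 ((hd e).1 h6).2, ?_, ?_, ?_, ?_, ?_, ?_⟩
  · rintro rfl
    exact key2 e1 e3 e4 fun d h => by tauto
  · rintro rfl
    exact key2 e1 e2 e4 fun d h => by tauto
  · rintro rfl
    exact key2 e1 e2 e3 fun d h => by tauto
  · rintro rfl
    exact key2 e1 e2 e4 fun d h => by tauto
  · rintro rfl
    exact key2 e1 e2 e3 fun d h => by tauto
  · rintro rfl
    exact key2 e1 e2 e3 fun d h => by tauto

/-! ### payments inside -/

/-- the outer weight of the inner end of a boundary dart -/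
theorem Z4.outer (q : G.Z4 z t Z e1 e2 e3 e4) {a : D} (ha : P4 e1 e2 e3 e4 a) :
    ∑ d ∈ G.ed {G.pi a} (G.vs \ Z), z d = 1 / 2 := by
  obtain ⟨h1, h2, h3⟩ := mem_bd.1 (q.b a ha)
  rw [sum_eq_single_of_mem a (mem_ed.2 ⟨h1, mem_singleton_self _,
    mem_sdiff.2 ⟨G.pi_mem _ (G.al_mem _ h1), h3⟩⟩)]
  · exact q.half a ha
  · intro d hd hne
    obtain ⟨h4, h5, h6⟩ := mem_ed.1 hd
    rw [mem_singleton] at h5
    by_contra h7
    have h8 := q.h0 d (mem_bd.2 ⟨h4, by rw [h5]; exact h2, (mem_sdiff.1 h6).2⟩) h7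
    exact hne (q.inn d a h8 ha h5)

/-- the inner graph of a pattern has at most 6 tokens -/
theorem Z4.val_U (q : G.Z4 z t Z e1 e2 e3 e4) (hw : G.Wt z t) {a b : D}
    (ha : P4 e1 e2 e3 e4 a) (hb : P4 e1 e2 e3 e4 b) (hab : a ≠ b) :
    G.val z t ((Z.erase (G.pi a)).erase (G.pi b)) =
      6 - 2 * ∑ d ∈ G.ed {G.pi b} {G.pi a}, z d := by
  have a1 := mem_bd.1 (q.b a ha)
  have b1 := mem_bd.1 (q.b b hb)
  have hpi : G.pi a ≠ G.pi b := fun h1 => hab (q.inn a b ha hb h1)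
  have h1 := hw.val_erase q.hZ a1.2.1
  rw [q.h2, q.outer ha, q.tz _ a1.2.1] at h1
  have h2 := hw.val_erase ((erase_subset (G.pi a) Z).trans q.hZ)
    (mem_erase.2 ⟨hpi.symm, b1.2.1⟩)
  have h3 : G.vs \ (Z.erase (G.pi a)) = (G.vs \ Z) ∪ {G.pi a} := by
    ext v
    rw [mem_sdiff, mem_erase, mem_union, mem_sdiff, mem_singleton]
    constructor
    · rintro ⟨h3, h4⟩
      by_cases h5 : v = G.pi a
      · exact Or.inr h5
      · exact Or.inl ⟨h3, fun h6 => h4 ⟨h5, h6⟩⟩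
    · rintro (⟨h3, h4⟩ | h3)
      · exact ⟨h3, fun h5 => h4 h5.2⟩
      · exact ⟨h3 ▸ q.hZ a1.2.1, fun h5 => h5.1 h3⟩
  have h4 : Disjoint (G.vs \ Z) {G.pi a} := by
    rw [disjoint_singleton_right]
    exact fun h5 => (mem_sdiff.1 h5).2 a1.2.1
  rw [h1, h3, ed_union_right h4, q.outer hb, q.tz _ b1.2.1] at h2
  linarith

/-- perturbation of the inner graph -/
theorem Z4.pays_dir (q : G.Z4 z t Z e1 e2 e3 e4) (h : G.N5 z t fr F jm sx ep m) {a b : D}
    (ha : P4 e1 e2 e3 e4 a) (hb : P4 e1 e2 e3 e4 b) (hab : a ≠ b) {U : Finset V}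
    (hU : U = (Z.erase (G.pi a)).erase (G.pi b)) (α : D → ℝ) (β : V → ℝ) (A : Finset V)
    (hsym : ∀ d ∈ G.ds, α (G.al d) = α d)
    (hdeg : ∀ v ∈ U, ∑ d ∈ (G.res U).st v, α d + β v = 0)
    (hz : ∀ d ∈ G.ds, z d = 0 → α d = 0)
    (ht : ∀ v ∈ U, G.tres z t U v = 0 → 0 ≤ β v)
    (hneg : ∑ v ∈ U, β v < 0)
    (hfr : ∀ d ∈ G.ds, G.pi d ∈ fr → G.pi d ∈ U → G.pi d ∉ A → α d = 0)
    (hA : ∀ X, G.Adm fr F X → (∃ v ∈ X, v ∈ A) →
      ∃ d ∈ G.ds, G.pi d ∈ X ∧ G.pi (G.al d) ∈ Z \ U) : G.Pays z fr F Z U := by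
  have hI := h.mc.inst
  have hw := hI.wt
  have hUZ : U ⊆ Z := by
    rw [hU]
    exact (erase_subset _ _).trans (erase_subset _ _)
  have hUvs : U ⊆ G.vs := hUZ.trans q.hZ
  have hvs : (G.res U).vs = U := inter_eq_right.2 hUvs
  have hwU := hw.res hUvs
  obtain ⟨ε, hε, H⟩ := hwU.pert α β
    (fun d hd => hsym d (mem_filter.1 hd).1)
    (fun v hv => hdeg v (by rwa [hvs] at hv))
    (fun d hd h0 => (hz d (mem_filter.1 hd).1 h0).ge)
    (fun v hv h0 => ht v (by rwa [hvs] at hv) h0)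
    (by
      intro X hX ho h3
      rw [hvs] at hX
      rw [res_val hw hUvs hX] at h3
      by_cases h1 : X.card = 1
      · obtain ⟨v, rfl⟩ := card_eq_one.1 h1
        rw [pert_val α β (fun v hv => hdeg v (by rwa [hvs] at hv)) (by rw [hvs]; exact hX)]
        have h4 : (G.res U).ed {v} {v} = ∅ := by
          rw [eq_empty_iff_forall_notMem]
          intro d hd
          obtain ⟨h5, h6, h7⟩ := mem_ed.1 hd
          rw [mem_singleton] at h6 h7
          exact (G.res U).noloop d h5 (h7.trans h6.symm)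
        rw [h4, sum_empty, neg_zero]
      · rcases h.v4 (hX.trans hUvs) ho h1 with h4 | ⟨x', p', q', h4⟩
        · linarith
        · have h5 := h4.res hX
          rw [h5.val_dir (by rw [hvs]; exact hX) (fun d hd => hsym d (mem_filter.1 hd).1)
            (fun d hd h0 => hz d (mem_filter.1 hd).1 h0)
            (fun v hv => hdeg v (by rwa [hvs] at hv))]
          have hp : p' ∈ X := by rw [h4.W]; simp
          have := ht p' (hX hp) h5.tp
          linarith)
  have hval := q.val_U hw ha hb hab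
  rw [← hU] at hval
  have hnn : 0 ≤ ∑ d ∈ G.ed {G.pi b} {G.pi a}, z d := hw.ed_nonneg _ _
  have htau := res_tau hw hUvs
  rw [hvs] at htau
  refine ⟨fun d => z d + ε * α d, fun v => G.tres z t U v + ε * β v, A, H ε hε.le le_rfl, ?_,
    ?_, ?_, hA⟩
  · rw [sum_add_distrib, ← mul_sum, htau, hval]
    have := mul_neg_of_pos_of_neg hε hneg
    linarith
  · intro d hd h0
    change z d + ε * α d = 0
    rw [hz d hd h0, h0, mul_zero, add_zero]
  · intro d hd hp hpU hpA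
    change z d + ε * α d = 1
    rw [hfr d hd hp hpU hpA, mul_zero, add_zero]
    exact hI.fresh.unit d hd hp

/-- an edge joining the two ends pays -/
theorem Z4.pays_edge (q : G.Z4 z t Z e1 e2 e3 e4) (h : G.N5 z t fr F jm sx ep m) {a b : D}
    (ha : P4 e1 e2 e3 e4 a) (hb : P4 e1 e2 e3 e4 b) (hab : a ≠ b) {d : D} (hd : d ∈ G.ds)
    (hd0 : z d ≠ 0) (h1 : G.pi d = G.pi b) (h2 : G.pi (G.al d) = G.pi a) :
    G.Pays z fr F Z ((Z.erase (G.pi a)).erase (G.pi b)) := by
  have hI := h.mc.inst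
  have hw := hI.wt
  set U := (Z.erase (G.pi a)).erase (G.pi b) with hU
  have hUvs : U ⊆ G.vs := ((erase_subset _ _).trans (erase_subset _ _)).trans q.hZ
  have hvs : (G.res U).vs = U := inter_eq_right.2 hUvs
  have hval := q.val_U hw ha hb hab
  rw [← hU] at hval
  have htau := res_tau hw hUvs
  rw [hvs] at htau
  have h3 : z d ≤ ∑ d ∈ G.ed {G.pi b} {G.pi a}, z d := by
    refine single_le_sum (f := z) (fun c hc => hw.z0 c (mem_ed.1 hc).1) ?_
    exact mem_ed.2 ⟨hd, mem_singleton.2 h1, mem_singleton.2 h2⟩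
  have h4 : 0 < z d := lt_of_le_of_ne (hw.z0 d hd) (Ne.symm hd0)
  refine ⟨z, G.tres z t U, ∅, hw.res hUvs, by rw [htau, hval]; linarith, fun _ _ h1 => h1,
    fun d hd hp _ _ => hI.fresh.unit d hd hp, ?_⟩
  rintro X _ ⟨v, -, h1⟩
  exact absurd h1 (notMem_empty v)

/-- tokens of the inner graph at the end of a dart leaving `U` -/
theorem tres_pos (hw : G.Wt z t) {U : Finset V} (hU : U ⊆ G.vs) {d : D} (hd : d ∈ G.ds)
    (hp : G.pi d ∈ U) (hq : G.pi (G.al d) ∉ U) (h0 : z d ≠ 0) : G.tres z t U (G.pi d) ≠ 0 := by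
  have h1 := hw.t0 _ (hU hp)
  have h2 : z d ≤ ∑ d ∈ (G.st (G.pi d)).filter fun d => G.pi (G.al d) ∉ U, z d := by
    refine single_le_sum (f := z) (fun c hc => hw.z0 c (mem_st.1 (mem_filter.1 hc).1).1) ?_
    exact mem_filter.2 ⟨mem_st.2 ⟨hd, rfl⟩, hq⟩
  have h3 : 0 < z d := lt_of_le_of_ne (hw.z0 d hd) (Ne.symm h0)
  unfold tres
  linarith

/-- a leg of `pi a` to an odd circuit pays -/
theorem Z4.pays_leg (q : G.Z4 z t Z e1 e2 e3 e4) (h : G.N5 z t fr F jm sx ep m) {a b c : D}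
    (ha : P4 e1 e2 e3 e4 a) (hb : P4 e1 e2 e3 e4 b) (hab : a ≠ b) (hc : c = a ∨ c = b)
    {e : D} (he : e ∈ G.ds) (hp : G.pi e = G.pi c) {C : Finset V} (hC : G.Circ fr F C)
    (ho : Odd C.card) (heC : G.pi (G.al e) ∈ C) :
    G.Pays z fr F Z ((Z.erase (G.pi a)).erase (G.pi b)) := by
  have hI := h.mc.inst
  have hw := hI.wt
  have hF := hI.fresh
  have hal := G.al_mem e he
  set U := (Z.erase (G.pi a)).erase (G.pi b) with hU
  have hUvs : U ⊆ G.vs := ((erase_subset _ _).trans (erase_subset _ _)).trans q.hZ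
  have hnfr : ∀ x, P4 e1 e2 e3 e4 x → G.pi x ∈ Z ∧ G.pi x ∉ fr := by
    intro x hx
    obtain ⟨h1, h2, h3⟩ := mem_bd.1 (q.b x hx)
    exact ⟨h2, q.nofr h h1 ⟨fun _ => h3, fun _ => h2⟩⟩
  have hcP : P4 e1 e2 e3 e4 c := by
    rcases hc with rfl | rfl
    · exact ha
    · exact hb
  have hcZU : G.pi c ∈ Z ∧ G.pi c ∉ U := by
    refine ⟨(hnfr c hcP).1, fun h1 => ?_⟩
    rw [hU, mem_erase, mem_erase] at h1
    rcases hc with rfl | rfl
    · exact h1.2.1 rfl
    · exact h1.1 rfl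
  have hxZ : G.pi (G.al e) ∈ Z := by
    refine (q.stay h hal (hC.adm.sub heC)).2 ?_
    rw [G.al_al e he, hp]
    exact hcZU.1
  have hCZ : C ⊆ Z := by
    have h1 : G.Adm fr F (C ∩ Z) := by
      refine ⟨fun v hv => hC.adm.sub (mem_inter.1 hv).1, fun d hd hp => ?_⟩
      obtain ⟨h2, h3⟩ := mem_inter.1 hp
      exact mem_inter.2 ⟨hC.adm.clo d hd h2,
        (q.stay h (hF.Fsub hd) (hF.Ffr d hd)).1 h3⟩
    have h2 := hC.min _ h1 inter_subset_left ⟨_, mem_inter.2 ⟨heC, hxZ⟩⟩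
    rw [← h2]
    exact inter_subset_right
  have hCU : C ⊆ U := by
    intro v hv
    rw [hU, mem_erase, mem_erase]
    refine ⟨?_, ?_, hCZ hv⟩
    · rintro rfl
      exact (hnfr b hb).2 (hC.adm.sub hv)
    · rintro rfl
      exact (hnfr a ha).2 (hC.adm.sub hv)
  obtain ⟨δ, g1, g2, g3, g4⟩ := exists_altA hF.toFA hC ho heC
  have hz1 : ∀ d ∈ F, G.pi d ∈ C → z d = 1 := fun d hd hp =>
    hF.unit d (hF.Fsub hd) (hC.adm.sub hp)
  have hst : ∀ v ∈ U, ∑ d ∈ (G.res U).st v, δ d = ∑ d ∈ G.st v, δ d := by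
    intro v hv
    refine sum_subset ?_ ?_
    · intro d hd
      obtain ⟨h1, h2⟩ := mem_st.1 hd
      exact mem_st.2 ⟨(mem_filter.1 h1).1, h2⟩
    · intro d hd hn
      obtain ⟨h1, h2⟩ := mem_st.1 hd
      by_contra h3
      obtain ⟨h4, h5⟩ := g1 d h3
      refine hn (mem_st.2 ⟨mem_filter.2 ⟨h1, hCU h5, hCU (hC.adm.clo d h4 h5)⟩, h2⟩)
  have hx := tres_pos hw hUvs hal (hCU heC) (by rw [G.al_al e he, hp]; exact hcZU.2) (by
    rw [hF.unit _ hal (hC.adm.sub heC)]
    exact one_ne_zero)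
  refine q.pays_dir h ha hb hab hU δ (fun v => - if v = G.pi (G.al e) then 1 else 0) C g2 ?_ ?_ ?_
    ?_ ?_ ?_
  · intro v hv
    rw [hst v hv, g3 v (hUvs hv)]
    ring
  · intro d hd h0
    by_contra h1
    obtain ⟨h2, h3⟩ := g1 d h1
    rw [hz1 d h2 h3] at h0
    exact one_ne_zero h0
  · intro v hv h0
    rw [if_neg]
    · norm_num
    · rintro rfl
      exact hx h0
  · rw [sum_neg_distrib, sum_ite_eq' U (G.pi (G.al e)) fun _ => (1 : ℝ), if_pos (hCU heC)]
    norm_num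
  · intro d hd _ _ hn
    by_contra h1
    exact hn (g1 d h1).2
  · intro X hX hv
    obtain ⟨v, hv1, hv2⟩ := hv
    have h1 : G.Adm fr F (X ∩ C) := by
      refine ⟨fun v hv => hX.sub (mem_inter.1 hv).1, fun d hd hp => ?_⟩
      obtain ⟨h2, h3⟩ := mem_inter.1 hp
      exact mem_inter.2 ⟨hX.clo d hd h2, hC.adm.clo d hd h3⟩
    have h2 := hC.min _ h1 inter_subset_right ⟨v, mem_inter.2 ⟨hv1, hv2⟩⟩
    have h3 : G.pi (G.al e) ∈ X := by
      rw [← h2] at heC
      exact (mem_inter.1 heC).1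
    refine ⟨G.al e, hal, h3, ?_⟩
    rw [G.al_al e he, hp]
    exact mem_sdiff.2 hcZU

end MG

end RH
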