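import Pool.Agent.Lib.RH.T5IntB
import Pool.Agent.Lib.RH.Pole
import Pool.Agent.Lib.RH.SCap0

/-! Even sets of value 2 in minimal counterexamples with 5 tokens: four half edges (helper63 FH,
helper69 Z-GLUE), first part. -/

set_option autoImplicit false

namespace RH

open Finset Classical

namespace MG

variable {V D : Type*} {G : MG V D} {z z' : D → ℝ} {t t' : V → ℝ} {fr : Finset V} {F : Finset D}
variable {jm sx : Finset V} {ep : V → ℕ} {m : ℕ} {M : Finset D}

theorem val_empty (G : MG V D) (z : D → ℝ) (t : V → ℝ) : G.val z t ∅ = 0 := by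
  unfold val bd
  simp

/-- value after adding an outer vertex -/
theorem Wt.val_insert (hw : G.Wt z t) {Z : Finset V} (hZ : Z ⊆ G.vs) {c : V} (hc : c ∈ G.vs)
    (hcZ : c ∉ Z) : G.val z t (Z ∪ {c}) = G.val z t Z + 3 - 2 * ∑ d ∈ G.ed Z {c}, z d := by
  have h1 := hw.submod hZ (singleton_subset_iff.2 hc)
  have hd1 : Disjoint Z {c} := disjoint_singleton_right.2 hcZ
  have h2 : Z ∩ {c} = ∅ := disjoint_iff_inter_eq_empty.1 hd1
  have h3 : Z \ {c} = Z := sdiff_eq_self_of_disjoint hd1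
  have h4 : ({c} : Finset V) \ Z = {c} := sdiff_eq_self_of_disjoint hd1.symm
  rw [h2, h3, h4, val_empty, hw.val_single hc] at h1
  linarith

/-- the form of `v4` with the exception `Dig` -/
theorem N5.v4D (h : G.N5 z t fr F jm sx ep m) {X : Finset V} (hX : X ⊆ G.vs)
    (ho : Odd X.card) (h1 : X.card ≠ 1) :
    4 ≤ G.val z t X ∨ ∃ x p q, G.Dig z t fr X x p q := by
  first
    | exact h.v4 hX ho h1
    | exact Or.inl (h.v4 hX ho h1)

/-- FOUR HALF EDGES: an even set of value 2 with at least 4 vertices inside and outside and without star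
vertices has exactly four boundary edges, all of weight 1/2, with different ends on both sides, and no
token inside. -/
theorem N5.four_half0 (h : G.N5 z t fr F jm sx ep m) {Z : Finset V} (hZ : Z ⊆ G.vs)
    (he : Even Z.card) (h2 : G.val z t Z = 2) (h4 : 4 ≤ Z.card) (hjZ : ∀ v ∈ Z, v ∉ jm) :
    (∀ d ∈ G.bd Z, z d ≠ 0 → z d = 1 / 2) ∧ (∀ v ∈ Z, t v = 0) ∧
      ((G.bd Z).filter fun d => z d ≠ 0).card = 4 ∧
      (∀ d ∈ G.bd Z, ∀ e ∈ G.bd Z, z d ≠ 0 → z e ≠ 0 → G.pi d = G.pi e → d = e) ∧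
      (∀ d ∈ G.bd Z, ∀ e ∈ G.bd Z, z d ≠ 0 → z e ≠ 0 → G.pi (G.al d) = G.pi (G.al e) → d = e) := by
  have hw := h.mc.inst.wt
  have hout : ∀ c ∈ G.vs, c ∉ Z → ∑ d ∈ G.ed Z {c}, z d ≤ 1 / 2 := by
    intro c hc hcZ
    have hd1 : Disjoint Z {c} := disjoint_singleton_right.2 hcZ
    have h5 : (Z ∪ {c}).card = Z.card + 1 := by
      rw [card_union_of_disjoint hd1, card_singleton]
    rcases h.v4D (X := Z ∪ {c}) (union_subset hZ (singleton_subset_iff.2 hc))
      (by rw [h5]; exact he.add_one) (by omega) with h6 | ⟨x, p, q, hd⟩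
    · rw [hw.val_insert hZ hc hcZ, h2] at h6
      linarith
    · have h6 : (Z ∪ {c}).card ≤ 3 := by
        rw [hd.W]
        exact card_le_three
      omega
  have hmo : ∀ d ∈ G.bd Z, d ∈ G.ed Z {G.pi (G.al d)} := by
    intro d hd
    obtain ⟨h5, h6, h7⟩ := mem_bd.1 hd
    exact mem_ed.2 ⟨h5, h6, mem_singleton_self _⟩
  have hmi : ∀ d ∈ G.bd Z, d ∈ G.ed {G.pi d} (G.vs \ Z) := by
    intro d hd
    obtain ⟨h5, h6, h7⟩ := mem_bd.1 hd
    exact mem_ed.2 ⟨h5, mem_singleton_self _, mem_sdiff.2 ⟨G.pi_mem _ (G.al_mem d h5), h7⟩⟩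
  have hhalf : ∀ d ∈ G.bd Z, z d ≠ 0 → z d = 1 / 2 := by
    intro d hd h0
    obtain ⟨h5, h6, h7⟩ := mem_bd.1 hd
    have h8 := hout _ (G.pi_mem _ (G.al_mem d h5)) h7
    have h9 := single_le_sum (f := z) (s := G.ed Z {G.pi (G.al d)})
      (fun e he => hw.z0 e (mem_ed.1 he).1) (hmo d hd)
    exact le_antisymm (by linarith) (h.z_half h5 h0)
  have hin : ∀ b ∈ Z, ∑ d ∈ G.ed {b} (G.vs \ Z), z d + t b ≤ 1 / 2 := by
    intro b hb
    have h5 : (Z.erase b).card + 1 = Z.card := card_erase_add_one hb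
    rcases h.v4D (X := Z.erase b) ((erase_subset _ _).trans hZ)
      (by
        obtain ⟨k, hk⟩ := he
        exact ⟨k - 1, by omega⟩) (by omega) with h6 | ⟨x, p, q, hd⟩
    · rw [hw.val_erase hZ hb, h2] at h6
      linarith
    · exfalso
      have hF := h.mc.inst.fresh
      -- no dart of weight 1 leaves Z
      have hno : ∀ d ∈ G.ds, G.pi d ∈ Z → z d = 1 → G.pi (G.al d) ∈ Z := by
        intro d hd1 hp h7
        by_contra h8
        have h9 := hhalf d (mem_bd.2 ⟨hd1, hp, h8⟩) (by rw [h7]; norm_num)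
        rw [h7] at h9
        norm_num at h9
      have hmZ : ∀ v, v ∈ Z → v = b ∨ v = x ∨ v = p ∨ v = q := by
        intro v hv
        by_cases h7 : v = b
        · exact Or.inl h7
        · have h8 : v ∈ Z.erase b := mem_erase.2 ⟨h7, hv⟩
          rw [hd.W, mem_insert, mem_insert, mem_singleton] at h8
          exact Or.inr h8
      have hxE : x ∈ Z.erase b := by rw [hd.W]; exact mem_insert_self _ _
      have hpE : p ∈ Z.erase b := by rw [hd.W]; exact mem_insert_of_mem (mem_insert_self _ _)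
      have hqE : q ∈ Z.erase b := by
        rw [hd.W]; exact mem_insert_of_mem (mem_insert_of_mem (mem_singleton_self _))
      have hxb : x ≠ b := (mem_erase.1 hxE).1
      -- b is fresh
      have hbf : b ∈ fr := by
        have h7 := hF.two x hd.xf
        obtain ⟨g, hg⟩ := card_pos.1 (by rw [h7]; norm_num : 0 < (F.filter fun d => G.pi d = x).card)
        obtain ⟨g1, g2⟩ := mem_filter.1 hg
        have g3 := hF.Fsub g1
        have g4 := hno g g3 (by rw [g2]; exact (mem_erase.1 hxE).2)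
          (hF.unit g g3 (by rw [g2]; exact hd.xf))
        have g5 := hF.Ffr _ (hF.Fal g g1)
        rcases hmZ _ g4 with h8 | h8 | h8 | h8
        · rw [← h8]; exact g5
        · exact absurd (h8.trans g2.symm) (G.noloop g g3)
        · exact absurd (h8 ▸ g5) hd.pf
        · exact absurd (h8 ▸ g5) hd.qf
      have h7 : ∑ d ∈ G.ed {b} (G.vs \ Z), z d = 0 := by
        refine sum_eq_zero fun d hd1 => ?_
        obtain ⟨h8, h9, h10⟩ := mem_ed.1 hd1
        have h11 := mem_singleton.1 h9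
        exact absurd (hno d h8 (by rw [h11]; exact hb) (hF.unit d h8 (by rw [h11]; exact hbf)))
          (mem_sdiff.1 h10).2
      have h8 := hF.t_not_jm hw hbf (hjZ b hb)
      have h10 := hw.val_erase hZ hb
      rw [h2, h7, h8] at h10
      -- value of a Dig set is 3
      have h11 := hd.val_wt ((erase_subset _ _).trans hZ) hw.sym (fun _ _ h0 => h0) hw.deg
      rw [hd.tp] at h11
      linarith
  have htz : ∀ v ∈ Z, t v = 0 := by
    intro v hv
    have h5 := hin v hv
    have h6 : 0 ≤ ∑ d ∈ G.ed {v} (G.vs \ Z), z d := hw.ed_nonneg _ _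
    obtain ⟨k, hk⟩ := h.tint (hZ hv)
    rw [hk] at h5 ⊢
    have h7 : (k : ℝ) < 1 := by linarith
    have h8 : k < 1 := by exact_mod_cast h7
    have h9 : k = 0 := by omega
    rw [h9]
    norm_num
  refine ⟨hhalf, htz, ?_, ?_, ?_⟩
  · have h5 : ∑ d ∈ G.bd Z, z d = 2 := by
      unfold val at h2
      rw [sum_eq_zero htz, add_zero] at h2
      exact h2
    have h6 : ∑ d ∈ G.bd Z, z d = ∑ d ∈ (G.bd Z).filter (fun d => z d ≠ 0), (1 / 2 : ℝ) := by
      rw [← sum_filter_ne_zero]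
      exact sum_congr rfl fun d hd => hhalf d (mem_filter.1 hd).1 (mem_filter.1 hd).2
    rw [h6, sum_const, nsmul_eq_mul] at h5
    have h7 : (((G.bd Z).filter fun d => z d ≠ 0).card : ℝ) = 4 := by linarith
    exact_mod_cast h7
  · intro d hd e he h5 h6 h7
    by_contra hne
    have h8 := hin (G.pi d) (mem_bd.1 hd).2.1
    rw [htz _ (mem_bd.1 hd).2.1] at h8
    have h9 : z d + z e ≤ ∑ x ∈ G.ed {G.pi d} (G.vs \ Z), z x := by
      rw [← sum_pair hne]
      refine sum_le_sum_of_subset_of_nonneg ?_ fun x hx _ => hw.z0 x (mem_ed.1 hx).1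
      intro x hx
      rw [mem_insert, mem_singleton] at hx
      rcases hx with rfl | rfl
      · exact hmi x hd
      · rw [h7]
        exact hmi x he
    rw [hhalf d hd h5, hhalf e he h6] at h9
    linarith
  · intro d hd e he h5 h6 h7
    by_contra hne
    have h8 := hout (G.pi (G.al d)) (G.pi_mem _ (G.al_mem d (mem_bd.1 hd).1)) (mem_bd.1 hd).2.2
    have h9 : z d + z e ≤ ∑ x ∈ G.ed Z {G.pi (G.al d)}, z x := by
      rw [← sum_pair hne]
      refine sum_le_sum_of_subset_of_nonneg ?_ fun x hx _ => hw.z0 x (mem_ed.1 hx).1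
      intro x hx
      rw [mem_insert, mem_singleton] at hx
      rcases hx with rfl | rfl
      · exact hmo x hd
      · rw [h7]
        exact hmo x he
    rw [hhalf d hd h5, hhalf e he h6] at h9
    linarith

/-- FOUR HALF EDGES, with 4 vertices outside -/
theorem N5.four_half (h : G.N5 z t fr F jm sx ep m) {Z : Finset V} (hZ : Z ⊆ G.vs)
    (he : Even Z.card) (h2 : G.val z t Z = 2) (h4 : 4 ≤ Z.card) (_h4' : 4 ≤ (G.vs \ Z).card)
    (hjZ : ∀ v ∈ Z, v ∉ jm) :
    (∀ d ∈ G.bd Z, z d ≠ 0 → z d = 1 / 2) ∧ (∀ v ∈ Z, t v = 0) ∧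
      ((G.bd Z).filter fun d => z d ≠ 0).card = 4 ∧
      (∀ d ∈ G.bd Z, ∀ e ∈ G.bd Z, z d ≠ 0 → z e ≠ 0 → G.pi d = G.pi e → d = e) ∧
      (∀ d ∈ G.bd Z, ∀ e ∈ G.bd Z, z d ≠ 0 → z e ≠ 0 → G.pi (G.al d) = G.pi (G.al e) → d = e) :=
  h.four_half0 hZ he h2 h4 hjZ

end MG

end RH
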