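import Pool.Agent.Lib.RH.T5FourA
import Pool.Agent.Lib.RH.T5FourH

/-! Even sets of value 2 in minimal counterexamples with 5 tokens (helper69 Z-GLUE): even arcs. -/

set_option autoImplicit false

namespace RH

open Finset Classical

namespace MG

variable {V D : Type*} {G : MG V D} {z z' : D → ℝ} {t t' : V → ℝ} {fr : Finset V} {F : Finset D}
variable {jm sx : Finset V} {ep : V → ℕ} {m : ℕ} {M : Finset D}

/-- two of the four inner ends have legs to odd circuits: impossible (the arcs do not matter) -/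
theorem N5.no_four_leg (h : G.N5 z t fr F jm sx ep m) {Z : Finset V} (hZ : Z ⊆ G.vs)
    (he : Even Z.card) (h2 : G.val z t Z = 2) (h4 : 4 ≤ Z.card) (h4' : 4 ≤ (G.vs \ Z).card)
    (hjZ : ∀ v ∈ Z, v ∉ jm) {d1 d2 d3 d4 : D} (hd : ∀ d, (d = d1 ∨ d = d2 ∨ d = d3 ∨ d = d4) ↔ d ∈ G.bd Z ∧ z d ≠ 0)
    (hleg : ∀ d, d = d1 ∨ d = d3 → ∃ e ∈ G.ds, G.pi e = G.pi d ∧
      ∃ C, G.Circ fr F C ∧ Odd C.card ∧ G.pi (G.al e) ∈ C) : False := by
  have q : G.Z4 z t Z d1 d2 d3 d4 :=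
    Z4.of_half hZ he h2 h4 h4' hd (h.four_half hZ he h2 h4 h4' hjZ)
  have hin : ∀ d, P4 d1 d2 d3 d4 d → G.pi d ∈ Z := fun d hd' => (mem_bd.1 (q.b d hd')).2.1
  obtain ⟨e, e1, e2, C, e3, e4, e5⟩ := hleg d1 (Or.inl rfl)
  refine q.glue h (k := e) e1 (by rw [e2]; exact hin d1 (Or.inl rfl)) ?_ ?_
  · have h5 := q.stay h (G.al_mem e e1) (e3.adm.sub e5)
    rw [G.al_al e e1, e2] at h5
    exact h5.2 (hin d1 (Or.inl rfl))
  · intro a b ha hb
    obtain ⟨e, e1, e2, C, e3, e4, e5⟩ := hleg a ha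
    have pa : P4 d1 d2 d3 d4 a := ha.elim Or.inl fun h => Or.inr (Or.inr (Or.inl h))
    have pb : P4 d1 d2 d3 d4 b :=
      hb.elim (fun h => Or.inr (Or.inl h)) fun h => Or.inr (Or.inr (Or.inr h))
    have hab : a ≠ b := by
      rcases ha with rfl | rfl <;> rcases hb with rfl | rfl
      · exact q.n12
      · exact q.n14
      · exact q.n23.symm
      · exact q.n34
    exact q.pays_leg h pa pb hab (Or.inl rfl) e1 e2 e3 e4 e5

set_option linter.unusedVariables false in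
/-- Z-GLUE, even arcs: `d1, d2` are joined by a walk of half darts of odd length inside `Z`, `d3, d4`
too; `s` gets `d1, d3`, `s'` gets `d2, d4`. All patterns: `pi d1` (resp. `pi d3`) has an edge to a fresh
vertex `x` of an odd circuit; the edge lies inside `Z` and is unused because `pi d1` is matched by
`d1`; the circuit is absorbed and pays a small amount at `x`. -/
theorem N5.no_four_even (h : G.N5 z t fr F jm sx ep m) {Z : Finset V} (hZ : Z ⊆ G.vs)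
    (he : Even Z.card) (h2 : G.val z t Z = 2) (h4 : 4 ≤ Z.card) (h4' : 4 ≤ (G.vs \ Z).card)
    (hjZ : ∀ v ∈ Z, v ∉ jm) {d1 d2 d3 d4 : D} (hd : ∀ d, (d = d1 ∨ d = d2 ∨ d = d3 ∨ d = d4) ↔ d ∈ G.bd Z ∧ z d ≠ 0)
    (h13 : d1 ≠ d3) (h24 : d2 ≠ d4) (h12 : d1 ≠ d2) (h34 : d3 ≠ d4) {l l' : List D}
    (hl : G.IsW ((G.hd z).filter fun d => G.pi d ∈ Z ∧ G.pi (G.al d) ∈ Z) (G.pi d1) l (G.pi d2))
    (hlen : Odd l.length)
    (hl' : G.IsW ((G.hd z).filter fun d => G.pi d ∈ Z ∧ G.pi (G.al d) ∈ Z) (G.pi d3) l' (G.pi d4))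
    (hlen' : Odd l'.length)
    (hleg : ∀ d, d = d1 ∨ d = d3 → ∃ e ∈ G.ds, G.pi e = G.pi d ∧
      ∃ C, G.Circ fr F C ∧ Odd C.card ∧ G.pi (G.al e) ∈ C) : False :=
  h.no_four_leg hZ he h2 h4 h4' hjZ hd hleg

end MG

end RH
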