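import Pool.Agent.Lib.RH.T5Leaf
import Pool.Agent.Lib.RH.SCap0

/-! Minimal counterexamples in normal form with more than 4 tokens: half-integrality, exactly 5
tokens. -/

set_option autoImplicit false

namespace RH

open Finset Classical

namespace MG

/-- a minimal counterexample in normal form with more than 4 tokens; the nontrivial tight sets are
`Dig` sets (`Cap` and `Atom` need a vertex with half of the tokens) -/
structure N5 {V D : Type*} (G : MG V D) (z : D → ℝ) (t : V → ℝ) (fr : Finset V) (F : Finset D)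
    (jm sx : Finset V) (ep : V → ℕ) (m : ℕ) : Prop where
  mc : G.MCS z t fr F jm sx ep m
  nt : ∀ z' t', G.Alt z fr z' t' → ∀ W ⊆ G.vs, Odd W.card → G.val z' t' W = 3 → 3 ≤ W.card →
    3 ≤ (G.vs \ W).card → ∃ x p q, G.Dig z' t' fr W x p q
  opt : ∀ z'' t'', G.Alt z fr z'' t'' → ∑ v ∈ G.vs, t v ≤ ∑ v ∈ G.vs, t'' v
  nf : ∀ a b, G.Dir z fr a b → (∀ v ∈ G.vs, t v = 0 → b v = 0) → ∑ v ∈ G.vs, b v ≤ 0 →
    ∀ d ∈ G.ds, a d = 0
  tau : 4 < ∑ v ∈ G.vs, t v

variable {V D : Type*} {G : MG V D} {z z' : D → ℝ} {t t' : V → ℝ} {fr : Finset V} {F : Finset D}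
variable {jm sx : Finset V} {ep : V → ℕ} {m : ℕ} {M : Finset D}

/-- DEL: killing an edge outside `fr` costs twice its weight (`Wt.kill`, `MCS.alt`) -/
theorem MCS.del (h : G.MCS z t fr F jm sx ep m) {d : D} (hd : d ∈ G.ds) (h1 : G.pi d ∉ fr)
    (h2 : G.pi (G.al d) ∉ fr) (h0 : z d ≠ 0) : 6 ≤ ∑ v ∈ G.vs, t v + 2 * z d := by
  by_contra hlt
  rw [not_le] at hlt
  have hw := h.inst.wt
  have hads := G.al_mem d hd
  have hne : d ≠ G.al d := fun he => G.noloop d hd (by rw [← he])
  set S : Finset D := {d, G.al d} with hS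
  have hmem : ∀ e, e ∈ S ↔ e = d ∨ e = G.al d := fun e => by rw [hS, mem_insert, mem_singleton]
  have hSds : S ⊆ G.ds := by
    intro e he
    rcases (hmem e).1 he with rfl | rfl
    · exact hd
    · exact hads
  have hSal : ∀ e ∈ S, G.al e ∈ S := by
    intro e he
    rcases (hmem e).1 he with rfl | rfl
    · exact (hmem _).2 (Or.inr rfl)
    · rw [G.al_al d hd]
      exact (hmem _).2 (Or.inl rfl)
  have hsum : ∑ e ∈ S, z e = 2 * z d := by
    rw [hS, sum_pair hne, hw.sym d hd]
    ring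
  have ha : G.Alt z fr (kz z S) (kt G z t S) := by
    refine ⟨hw.kill hSds hSal, ?_, ?_, ?_⟩
    · rw [kill_tau hw hSds hSal, hsum]
      exact hlt
    · intro e _ he
      unfold kz
      split_ifs
      · rfl
      · exact he
    · intro e he hp
      unfold kz
      rw [if_neg, h.inst.fresh.unit e he hp]
      intro h3
      rcases (hmem e).1 h3 with rfl | rfl
      · exact h1 hp
      · exact h2 hp
  refine h0 ((h.alt ha).2 d hd ?_)
  unfold kz
  rw [if_pos ((hmem d).2 (Or.inl rfl))]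

/-- with more than 4 tokens no vertex has half of them: `2 t v = tau` gives weight `3 - tau / 2 < 1` at
`v`, so no leg, at most one edge (`MCS.del`), `MCS.no_leaf` -/
theorem MCS.t_lt (h : G.MCS z t fr F jm sx ep m) (htau : 4 < ∑ v ∈ G.vs, t v) {v : V}
    (hv : v ∈ G.vs) : 2 * t v < ∑ w ∈ G.vs, t w := by
  have hw := h.inst.wt
  have hF := h.inst.fresh
  have htau6 := h.inst.tau
  have hle : 2 * t v ≤ ∑ w ∈ G.vs, t w := by
    have h1 := hw.val_compl (singleton_subset_iff.2 hv)
    rw [hw.val_single hv, sum_singleton] at h1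
    have h2 := card_sdiff_add_card_eq_card (singleton_subset_iff.2 hv)
    rw [card_singleton] at h2
    have h3 : Odd (G.vs \ {v}).card := by
      obtain ⟨k, hk⟩ := h.inst.even
      rw [Nat.odd_iff]
      omega
    have h4 := hw.cut _ sdiff_subset h3
    linarith
  by_contra hlt
  rw [not_lt] at hlt
  have heq : 2 * t v = ∑ w ∈ G.vs, t w := le_antisymm hle hlt
  have hvf : v ∉ fr := by
    intro hvf
    by_cases hj : v ∈ jm
    · have := hF.t_jm hw hj
      linarith
    · have := hF.t_not_jm hw hvf hj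
      linarith
  have hdeg := hw.deg v hv
  have hone : ∀ d ∈ G.st v, z d ≤ ∑ e ∈ G.st v, z e := fun d hd =>
    single_le_sum (f := z) (fun e he => hw.z0 e (mem_st.1 he).1) hd
  have hnf : ∀ d ∈ G.ds, G.pi d = v → G.pi (G.al d) ∉ fr := by
    intro d hd hp h1
    have h2 := hF.unit _ (G.al_mem d hd) h1
    rw [hw.sym d hd] at h2
    have h3 := hone d (mem_st.2 ⟨hd, hp⟩)
    linarith
  have hpos : ∃ d ∈ G.st v, z d ≠ 0 := by
    by_contra hno
    push Not at hno
    rw [sum_eq_zero hno] at hdeg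
    linarith
  obtain ⟨d0, hd0, hz0⟩ := hpos
  have hd0' := mem_st.1 hd0
  have hbig : ∀ d ∈ G.ds, G.pi d = v → z d ≠ 0 → 3 - (∑ w ∈ G.vs, t w) / 2 ≤ z d := by
    intro d hd hp h1
    have h2 := h.del hd (by rw [hp]; exact hvf) (hnf d hd hp) h1
    linarith
  have huniq : ∀ d ∈ G.ds, G.pi d = v → z d ≠ 0 → d = d0 := by
    intro d hd hp h1
    by_contra hne
    have h2 := hbig d hd hp h1
    have h3 := hbig d0 hd0'.1 hd0'.2 hz0
    have h4 : z d + z d0 ≤ ∑ e ∈ G.st v, z e := by
      rw [← sum_pair hne]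
      refine sum_le_sum_of_subset_of_nonneg ?_ fun e he _ => hw.z0 e (mem_st.1 he).1
      intro e he
      rw [mem_insert, mem_singleton] at he
      rcases he with rfl | rfl
      · exact mem_st.2 ⟨hd, hp⟩
      · exact hd0
    linarith
  exact h.no_leaf (u := v) (y := G.pi (G.al d0)) hv hvf (hnf d0 hd0'.1 hd0'.2)
    fun d hd hp h1 => by rw [huniq d hd hp h1]

/-- a direction which does not hurt tokens can be followed a little; `Dig` sets do no harm -/
theorem Dir.smallD {a : D → ℝ} {b : V → ℝ} (h : G.Dir z fr a b) (he : Even G.vs.card)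
    (hw : G.Wt z' t')
    (hT : ∀ W ⊆ G.vs, Odd W.card → G.val z' t' W = 3 → 3 ≤ W.card → 3 ≤ (G.vs \ W).card →
      ∃ x p q, G.Dig z' t' fr W x p q)
    (h0 : ∀ v ∈ G.vs, t' v = 0 → 0 ≤ b v)
    (h2 : ∀ v ∈ G.vs, 2 * t' v = ∑ w ∈ G.vs, t' w → 2 * b v ≤ ∑ w ∈ G.vs, b w)
    (hzz : ∀ d ∈ G.ds, z' d = 0 → z d = 0) :
    ∃ ε : ℝ, 0 < ε ∧ ∀ e : ℝ, 0 ≤ e → e ≤ ε →
      G.Wt (fun d => z' d + e * a d) (fun v => t' v + e * b v) := by
  refine hw.pert a b h.sym h.deg (fun d hd hz => (h.z0 d hd (hzz d hd hz)).ge) h0 ?_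
  intro X hX ho h3
  rcases hw.tight_cases he hX ho h3 with ⟨v, hv, rfl⟩ | ⟨v, hv, h4, rfl⟩ | ⟨h4, h5⟩
  · exact (h.val_single hv).ge
  · rw [h.val_compl (singleton_subset_iff.2 hv), h.val_single hv, sum_singleton]
    have := h2 v hv h4
    linarith
  · obtain ⟨x, p, q, hD⟩ := hT X hX ho h3 h4 h5
    rw [hD.val_dir hX h.sym (fun d hd hz => h.z0 d hd (hzz d hd hz)) h.deg]
    have hp : p ∈ X := by rw [hD.W]; simp
    have := h0 p (hX hp) hD.tp
    linarith

/-- PUSH: a direction can be followed as long as the tokens allow it -/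
theorem MCS.pushD (h : G.MCS z t fr F jm sx ep m)
    (hT : ∀ z' t', G.Alt z fr z' t' → ∀ W ⊆ G.vs, Odd W.card → G.val z' t' W = 3 → 3 ≤ W.card →
      3 ≤ (G.vs \ W).card → ∃ x p q, G.Dig z' t' fr W x p q)
    {a : D → ℝ} {b : V → ℝ} (hab : G.Dir z fr a b) {s : ℝ} (hs : 0 ≤ s)
    (h0 : ∀ v ∈ G.vs, 0 ≤ t v + s * b v)
    (h2 : ∀ v ∈ G.vs, 2 * (t v + s * b v) ≤ ∑ w ∈ G.vs, (t w + s * b w))
    (h6 : ∑ v ∈ G.vs, (t v + s * b v) < 6) :
    G.Alt z fr (fun d => z d + s * a d) (fun v => t v + s * b v) := by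
  have hw := h.inst.wt
  have hsum : ∀ r : ℝ, ∑ v ∈ G.vs, (t v + r * b v) =
      ∑ v ∈ G.vs, t v + r * ∑ v ∈ G.vs, b v := by
    intro r
    rw [sum_add_distrib, ← mul_sum]
  -- everything affine
  have htau : ∀ r ∈ Set.Icc (0 : ℝ) s, ∑ v ∈ G.vs, (t v + r * b v) < 6 := by
    intro r hr
    rw [hsum] at h6 ⊢
    rcases le_or_gt 0 (∑ v ∈ G.vs, b v) with h3 | h3
    · have := mul_le_mul_of_nonneg_right hr.2 h3
      linarith
    · have := mul_nonpos_of_nonneg_of_nonpos hr.1 h3.le
      linarith [h.inst.tau]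
  have hA : ∀ r ∈ Set.Icc (0 : ℝ) s, G.Wt (fun d => z d + r * a d) (fun v => t v + r * b v) →
      G.Alt z fr (fun d => z d + r * a d) (fun v => t v + r * b v) := by
    intro r hr hW
    refine ⟨hW, htau r hr, ?_, ?_⟩
    · intro d hd hz
      show z d + r * a d = 0
      rw [hz, hab.z0 d hd hz]
      ring
    · intro d hd hp
      show z d + r * a d = 1
      rw [h.inst.fresh.unit d hd hp, hab.fr0 d hd hp]
      ring
  have ht2 : ∀ v ∈ G.vs, 2 * t v ≤ ∑ w ∈ G.vs, t w := by
    intro v hv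
    have hX : G.vs \ {v} ⊆ G.vs := sdiff_subset
    have ho : Odd (G.vs \ {v}).card := by
      have h3 := card_sdiff_add_card_eq_card (singleton_subset_iff.2 hv)
      rw [card_singleton] at h3
      obtain ⟨k, hk⟩ := h.inst.even
      have : 0 < G.vs.card := card_pos.2 ⟨v, hv⟩
      exact ⟨k - 1, by omega⟩
    have h3 := hw.cut _ hX ho
    rw [hw.val_compl (singleton_subset_iff.2 hv), hw.val_single hv, sum_singleton] at h3
    linarith
  set S : Set ℝ := {r | G.Wt (fun d => z d + r * a d) (fun v => t v + r * b v)} with hS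
  have hcl : IsClosed S := by
    have h3 : Continuous fun r : ℝ => ((fun d => z d + r * a d, fun v => t v + r * b v) :
        (D → ℝ) × (V → ℝ)) := by fun_prop
    exact (isClosed_wt G).preimage h3
  have h00 : (0 : ℝ) ∈ S := by
    refine hw.congr (fun d _ => ?_) (fun v _ => ?_)
    · show z d + 0 * a d = z d
      ring
    · show t v + 0 * b v = t v
      ring
  have hsub : Set.Icc (0 : ℝ) s ⊆ S := by
    refine IsClosed.Icc_subset_of_forall_exists_gt (hcl.inter isClosed_Icc) h00 ?_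
    rintro x ⟨hxS, hx⟩ y hy
    have hxI : x ∈ Set.Icc (0 : ℝ) s := ⟨hx.1, hx.2.le⟩
    have hax := hA x hxI hxS
    have hsup := (h.alt hax).2
    obtain ⟨ε, hε, H⟩ := hab.smallD h.inst.even hax.wt (hT _ _ hax)
      (by
        intro v hv h3
        have h4 := h0 v hv
        have h5 : t v + x * b v = 0 := h3
        by_contra h7
        rw [not_le] at h7
        have h8 := mul_neg_of_pos_of_neg (sub_pos.2 hx.2) h7
        have h9 : (s - x) * b v = (t v + s * b v) - (t v + x * b v) := by ring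
        linarith)
      (by
        intro v hv h3
        have h4 := h2 v hv
        have h5 : 2 * (t v + x * b v) = ∑ w ∈ G.vs, (t w + x * b w) := h3
        rw [hsum] at h4 h5
        by_contra h7
        rw [not_le] at h7
        have h8 := mul_pos (sub_pos.2 hx.2) (sub_pos.2 h7)
        have h9 : (s - x) * (2 * b v - ∑ w ∈ G.vs, b w) =
          (2 * (t v + s * b v) - (∑ w ∈ G.vs, t w + s * ∑ w ∈ G.vs, b w)) -
          (2 * (t v + x * b v) - (∑ w ∈ G.vs, t w + x * ∑ w ∈ G.vs, b w)) := by ring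
        linarith)
      hsup
    have hy' : x < y := hy
    set e := min ε (y - x) with he
    have he0 : 0 < e := lt_min hε (sub_pos.2 hy')
    refine ⟨x + e, ?_, by linarith, ?_⟩
    · refine (H e he0.le (min_le_left _ _)).congr (fun d _ => ?_) (fun v _ => ?_)
      · show z d + (x + e) * a d = z d + x * a d + e * a d
        ring
      · show t v + (x + e) * b v = t v + x * b v + e * b v
        ring
    · have := min_le_right ε (y - x)
      linarith
  have hsI : s ∈ Set.Icc (0 : ℝ) s := ⟨hs, le_refl _⟩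
  exact hA s hsI (hsub hsI)

/-- a direction does not lower the number of tokens (follow it: no zero edge, no tight set appears at
once; the weights of the vertices `2 t v < tau` do not matter; with `nt` the only tight sets are the
single vertices and the `Dig` sets) -/
theorem N5.opt_dir (h : G.N5 z t fr F jm sx ep m) {a : D → ℝ} {b : V → ℝ} (hab : G.Dir z fr a b)
    (h0 : ∀ v ∈ G.vs, t v = 0 → 0 ≤ b v) : 0 ≤ ∑ v ∈ G.vs, b v := by
  have hself : G.Alt z fr z t := h.mc.inst.alt_refl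
  obtain ⟨ε, hε, H⟩ := hab.smallD h.mc.inst.even h.mc.inst.wt (h.nt z t hself) h0
    (fun v hv h2 => absurd h2 (h.mc.t_lt h.tau hv).ne) (fun _ _ h => h)
  by_contra hneg
  rw [not_le] at hneg
  have hW := H ε hε.le le_rfl
  have hsum : ∑ v ∈ G.vs, (t v + ε * b v) = ∑ v ∈ G.vs, t v + ε * ∑ v ∈ G.vs, b v := by
    rw [sum_add_distrib, ← mul_sum]
  have hm := mul_neg_of_pos_of_neg hε hneg
  have h3 := h.opt _ _ (⟨hW, by rw [hsum]; linarith [h.mc.inst.tau], ?_, ?_⟩ :
    G.Alt z fr (fun d => z d + ε * a d) (fun v => t v + ε * b v))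
  · rw [hsum] at h3
    linarith
  · intro d hd hz
    show z d + ε * a d = 0
    rw [hz, hab.z0 d hd hz]
    ring
  · intro d hd hp
    show z d + ε * a d = 1
    rw [h.mc.inst.fresh.unit d hd hp, hab.fr0 d hd hp]
    ring

/-- PUSH in a minimal counterexample with more than 4 tokens -/
theorem N5.push (h : G.N5 z t fr F jm sx ep m) {a : D → ℝ} {b : V → ℝ} (hab : G.Dir z fr a b)
    {s : ℝ} (hs : 0 ≤ s) (h0 : ∀ v ∈ G.vs, 0 ≤ t v + s * b v)
    (h2 : ∀ v ∈ G.vs, 2 * (t v + s * b v) ≤ ∑ w ∈ G.vs, (t w + s * b w))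
    (h6 : ∑ v ∈ G.vs, (t v + s * b v) < 6) :
    G.Alt z fr (fun d => z d + s * a d) (fun v => t v + s * b v) :=
  h.mc.pushD h.nt hab hs h0 h2 h6

/-- Linear algebra (no colouring): more edges than equations. -/
theorem exists_ker2 (G : MG V D) {S : Finset D} (hS : G.Sy S) {N N' : Finset V}
    (hN : ∀ d ∈ S, G.pi d ∈ N ∪ N') (hd : Disjoint N N')
    (h2 : ∀ v ∈ N, 2 ≤ (S.filter fun d => G.pi d = v).card)
    (h1 : ∀ v ∈ N', 1 ≤ (S.filter fun d => G.pi d = v).card)
    (hex : N'.Nonempty ∨ ∃ v ∈ N, 3 ≤ (S.filter fun d => G.pi d = v).card) :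
    ∃ a : D → ℝ, (∀ d ∉ S, a d = 0) ∧ (∃ d ∈ S, a d ≠ 0) ∧ (∀ d ∈ G.ds, a (G.al d) = a d) ∧
      ∀ v ∈ N, ∑ d ∈ G.st v, a d = 0 := by
  set E : Finset (Finset D) := S.image fun d => ({d, G.al d} : Finset D) with hE
  have hmE : ∀ d ∈ S, ({d, G.al d} : Finset D) ∈ E := fun d hd => mem_image_of_mem _ hd
  have hswap : ∀ d ∈ S, ({G.al d, G.al (G.al d)} : Finset D) = {d, G.al d} := by
    intro d hd
    rw [G.al_al d (hS.sub hd), pair_comm]
  have e1 : S.card = 2 * E.card := by
    rw [card_eq_sum_card_fiberwise (f := fun d => ({d, G.al d} : Finset D)) (s := S) (t := E)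
      (fun d hd => mem_coe.2 (hmE d (mem_coe.1 hd)))]
    have e2 : ∀ e ∈ E, (S.filter fun d => ({d, G.al d} : Finset D) = e).card = 2 := by
      intro e he
      obtain ⟨d, hd, rfl⟩ := mem_image.1 he
      have e3 : (S.filter fun d' => ({d', G.al d'} : Finset D) = {d, G.al d}) = {d, G.al d} := by
        ext d'
        rw [mem_filter, mem_insert, mem_singleton]
        constructor
        · rintro ⟨-, h4⟩
          have h5 : d' ∈ ({d', G.al d'} : Finset D) := mem_insert_self _ _
          rw [h4, mem_insert, mem_singleton] at h5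
          exact h5
        · rintro (rfl | rfl)
          · exact ⟨hd, rfl⟩
          · exact ⟨hS.al d hd, hswap d hd⟩
      rw [e3, card_pair]
      intro he
      exact G.noloop d (hS.sub hd) (by rw [← he])
    rw [sum_congr rfl e2, sum_const, smul_eq_mul, mul_comm]
  have e4 : 2 * N.card + 1 ≤ S.card := by
    rw [card_eq_sum_card_fiberwise (f := G.pi) (s := S) (t := N ∪ N')
      (fun d hd => mem_coe.2 (hN d (mem_coe.1 hd))), sum_union hd]
    have e6 : N'.card * 1 ≤ ∑ v ∈ N', (S.filter fun d => G.pi d = v).card := by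
      rw [← smul_eq_mul, ← sum_const]
      exact sum_le_sum h1
    have e7 : ∑ v ∈ N, 2 = N.card * 2 := by rw [sum_const, smul_eq_mul]
    rcases hex with h3 | ⟨v, hv, h3⟩
    · have e5 : ∑ v ∈ N, 2 ≤ ∑ v ∈ N, (S.filter fun d => G.pi d = v).card := sum_le_sum h2
      have := card_pos.2 h3
      omega
    · have e5 : ∑ v ∈ N, 2 < ∑ v ∈ N, (S.filter fun d => G.pi d = v).card :=
        sum_lt_sum h2 ⟨v, hv, by omega⟩
      omega
  let L : D → ((E → ℝ) →ₗ[ℝ] ℝ) := fun d =>
    if h : ({d, G.al d} : Finset D) ∈ E then LinearMap.proj ⟨_, h⟩ else 0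
  let f : (E → ℝ) →ₗ[ℝ] (N → ℝ) :=
    LinearMap.pi fun v : N => ∑ d ∈ S.filter (fun d => G.pi d = v.1), L d
  have key : ∃ x : E → ℝ, x ≠ 0 ∧ f x = 0 := by
    by_contra hno
    push Not at hno
    have hinj : Function.Injective f := by
      rw [← LinearMap.ker_eq_bot, LinearMap.ker_eq_bot']
      intro x hx
      by_contra h0
      exact hno x h0 hx
    have hfin := LinearMap.finrank_le_finrank_of_injective hinj
    rw [Module.finrank_fintype_fun_eq_card, Module.finrank_fintype_fun_eq_card,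
      Fintype.card_coe, Fintype.card_coe] at hfin
    omega
  obtain ⟨x, hx0, hx⟩ := key
  refine ⟨fun d => if d ∈ S then L d x else 0, fun d h => if_neg h, ?_, ?_, ?_⟩
  · obtain ⟨e, he⟩ := Function.ne_iff.1 hx0
    obtain ⟨d, hd, hde⟩ := mem_image.1 e.2
    refine ⟨d, hd, ?_⟩
    show (if d ∈ S then L d x else 0) ≠ 0
    rw [if_pos hd]
    have h5 : L d = LinearMap.proj ⟨_, hmE d hd⟩ := dif_pos (hmE d hd)
    rw [h5, LinearMap.proj_apply]
    have h6 : (⟨({d, G.al d} : Finset D), hmE d hd⟩ : E) = e := Subtype.ext hde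
    rw [h6]
    exact he
  · intro d hd
    show (if G.al d ∈ S then L (G.al d) x else 0) = (if d ∈ S then L d x else 0)
    by_cases h3 : d ∈ S
    · have h4 := hS.al d h3
      rw [if_pos h3, if_pos h4]
      have h5 : L (G.al d) = L d := by
        show (if h : ({G.al d, G.al (G.al d)} : Finset D) ∈ E then
          (LinearMap.proj ⟨_, h⟩ : (E → ℝ) →ₗ[ℝ] ℝ) else 0) = _
        simp only [hswap d h3]
        rfl
      rw [h5]
    · have h4 : G.al d ∉ S := fun h4 => h3 (by have := hS.al _ h4; rwa [G.al_al d hd] at this)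
      rw [if_neg h3, if_neg h4]
  · intro v hv
    have h3 := congrFun hx ⟨v, hv⟩
    have h4 : f x ⟨v, hv⟩ = ∑ d ∈ S.filter (fun d => G.pi d = v), L d x := by
      show (∑ d ∈ S.filter (fun d => G.pi d = v), L d) x = _
      rw [LinearMap.sum_apply]
    rw [h4] at h3
    refine Eq.trans ?_ h3
    show ∑ d ∈ G.st v, (if d ∈ S then L d x else 0) = _
    rw [← sum_filter]
    refine sum_congr ?_ fun _ _ => rfl
    ext d
    rw [mem_filter, mem_filter, mem_st]
    constructor
    · rintro ⟨⟨-, h8⟩, h9⟩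
      exact ⟨h9, h8⟩
    · rintro ⟨h8, h9⟩
      exact ⟨⟨hS.sub h8, h9⟩, h8⟩

/-- the darts whose weight is not an integer -/
noncomputable def hd (G : MG V D) (z : D → ℝ) : Finset D :=
  G.ds.filter fun d => ¬ ∃ k : ℤ, z d = k

theorem mem_hd {d : D} : d ∈ G.hd z ↔ d ∈ G.ds ∧ ¬ ∃ k : ℤ, z d = k := by
  simp [hd]

theorem N5.hd_out (h : G.N5 z t fr F jm sx ep m) {d : D} (hd : d ∈ G.hd z) :
    G.pi d ∉ fr ∧ G.al d ∈ G.hd z ∧ d ∈ G.sd z fr := by
  have hw := h.mc.inst.wt
  have hF := h.mc.inst.fresh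
  obtain ⟨hds, hk⟩ := mem_hd.1 hd
  have h1 : G.pi d ∉ fr := fun h1 => hk ⟨1, by rw [hF.unit d hds h1]; norm_num⟩
  have h2 : G.pi (G.al d) ∉ fr := fun h2 => hk ⟨1, by
    rw [← hw.sym d hds, hF.unit _ (G.al_mem d hds) h2]; norm_num⟩
  refine ⟨h1, mem_hd.2 ⟨G.al_mem d hds, by rw [hw.sym d hds]; exact hk⟩, mem_sd.2 ⟨hds, ?_, h1, h2⟩⟩
  intro h0
  exact hk ⟨0, by rw [h0]; norm_num⟩

theorem N5.sy_hd (h : G.N5 z t fr F jm sx ep m) : G.Sy (G.hd z) :=
  ⟨fun d hd => (mem_hd.1 hd).1, fun d hd => (h.hd_out hd).2.1⟩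

/-- the weights outside a set of darts which contains all half darts at `v` have an integral sum -/
theorem sum_int {A : Finset D} (hA : ∀ e ∈ A, ∃ k : ℤ, z e = k) : ∃ k : ℤ, ∑ d ∈ A, z d = k := by
  choose! f hf using hA
  refine ⟨∑ d ∈ A, f d, ?_⟩
  push_cast
  exact sum_congr rfl hf

/-- normal form against `exists_ker2` -/
theorem N5.no_ker (h : G.N5 z t fr F jm sx ep m) {a : D → ℝ} (ha0 : ∀ d ∉ G.hd z, a d = 0)
    (hsym : ∀ d ∈ G.ds, a (G.al d) = a d)
    (hfix : ∀ v ∈ G.vs, t v = 0 → ∑ d ∈ G.st v, a d = 0) : ∀ d ∈ G.ds, a d = 0 := by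
  have hdir : ∀ s : ℝ, G.Dir z fr (fun d => s * a d) (fun v => - ∑ d ∈ G.st v, s * a d) := by
    intro s
    refine ⟨fun e' he' => ?_, fun e' _ h3 => ?_, fun e' _ h3 => ?_, fun v _ => ?_⟩
    · show s * a (G.al e') = s * a e'
      rw [hsym e' he']
    · show s * a e' = 0
      rw [ha0 e' fun h4 => (h.hd_out h4).1 h3, mul_zero]
    · show s * a e' = 0
      rw [ha0 e' fun h4 => (mem_sd.1 (h.hd_out h4).2.2).2.1 h3, mul_zero]
    · exact add_neg_cancel _
  have hall : ∀ s : ℝ, s ≠ 0 → ∑ v ∈ G.vs, (- ∑ d ∈ G.st v, s * a d) ≤ 0 → ∀ d ∈ G.ds, a d = 0 := by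
    intro s hs hle e he
    have h3 := h.nf _ _ (hdir s) (fun v hv h0 => ?_) hle e he
    · exact (mul_eq_zero.1 h3).resolve_left hs
    · rw [← mul_sum, hfix v hv h0, mul_zero, neg_zero]
  rcases le_total (∑ v ∈ G.vs, (- ∑ d ∈ G.st v, 1 * a d)) 0 with h3 | h3
  · exact hall 1 one_ne_zero h3
  · refine hall (-1) (by norm_num) ?_
    have h4 : ∑ v ∈ G.vs, (- ∑ d ∈ G.st v, -1 * a d) = - ∑ v ∈ G.vs, (- ∑ d ∈ G.st v, 1 * a d) := by
      rw [← sum_neg_distrib]
      refine sum_congr rfl fun v _ => ?_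
      rw [← mul_sum, ← mul_sum]
      ring
    rw [h4]
    linarith

/-- a vertex with an integral number of tokens has no half dart or at least two -/
theorem N5.two_le (h : G.N5 z t fr F jm sx ep m) {v : V} (hv : v ∈ G.vs)
    (ht : ∃ k : ℤ, t v = k) {e : D} (he : e ∈ G.hd z) (hev : G.pi e = v) :
    2 ≤ ((G.hd z).filter fun d => G.pi d = v).card := by
  by_contra hlt
  have heds := (mem_hd.1 he).1
  have h3 : ((G.hd z).filter fun d => G.pi d = v) = {e} := by
    have h4 : e ∈ (G.hd z).filter fun d => G.pi d = v := mem_filter.2 ⟨he, hev⟩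
    refine (eq_of_subset_of_card_le (singleton_subset_iff.2 h4) ?_).symm
    rw [card_singleton]
    omega
  obtain ⟨k, hk⟩ := sum_int (z := z) (A := (G.st v).erase e) (fun e' he' => by
    obtain ⟨h5, h6⟩ := mem_erase.1 he'
    obtain ⟨h7, h8⟩ := mem_st.1 h6
    by_contra h9
    have h10 : e' ∈ (G.hd z).filter fun d => G.pi d = v := mem_filter.2 ⟨mem_hd.2 ⟨h7, h9⟩, h8⟩
    rw [h3, mem_singleton] at h10
    exact h5 h10)
  obtain ⟨k', hk'⟩ := ht
  have h6 := h.mc.inst.wt.deg v hv
  rw [← add_sum_erase _ _ (mem_st.2 ⟨heds, hev⟩ : e ∈ G.st v), hk, hk'] at h6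
  exact (mem_hd.1 he).2 ⟨3 - k' - k, by push_cast; linarith⟩

/-- tokens are integers (`exists_ker2` with `S = hd`, `N'` = the vertices at `S` whose tokens are not
an integer, `N` = the other vertices at `S`; then `nf` for the vector or its negative) -/
theorem N5.tint (h : G.N5 z t fr F jm sx ep m) {v : V} (hv : v ∈ G.vs) : ∃ k : ℕ, t v = k := by
  have hw := h.mc.inst.wt
  have hint : ∃ k : ℤ, t v = k := by
    by_contra hno
    set S := G.hd z with hS
    set N0 : Finset V := S.image G.pi with hN0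
    set N : Finset V := N0.filter fun v => ∃ k : ℤ, t v = k with hN
    set N' : Finset V := N0.filter fun v => ¬ ∃ k : ℤ, t v = k with hN'
    have hvN' : v ∈ N' := by
      refine mem_filter.2 ⟨?_, hno⟩
      by_contra h1
      obtain ⟨k, hk⟩ := sum_int (z := z) (A := G.st v) (fun e he => by
        by_contra h2
        refine h1 ?_
        rw [← (mem_st.1 he).2]
        exact mem_image_of_mem _ (mem_hd.2 ⟨(mem_st.1 he).1, h2⟩))
      have h2 := hw.deg v hv
      rw [hk] at h2
      exact hno ⟨3 - k, by push_cast; linarith⟩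
    have hvs : ∀ e ∈ S, G.pi e ∈ G.vs := fun e he => G.pi_mem e (mem_hd.1 he).1
    obtain ⟨a, ha0, ⟨e, he, hae⟩, hsym, hdeg⟩ := exists_ker2 G h.sy_hd (N := N) (N' := N')
      (fun e he => by rw [hN, hN', filter_union_filter_not_eq]; exact mem_image_of_mem _ he)
      (disjoint_filter_filter_not _ _ _)
      (fun u hu => by
        obtain ⟨h1, h2⟩ := mem_filter.1 hu
        obtain ⟨e, he, rfl⟩ := mem_image.1 h1
        exact h.two_le (hvs e he) h2 he rfl)
      (fun u hu => by
        obtain ⟨h1, -⟩ := mem_filter.1 hu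
        obtain ⟨e, he, rfl⟩ := mem_image.1 h1
        exact card_pos.2 ⟨e, mem_filter.2 ⟨he, rfl⟩⟩)
      (Or.inl ⟨v, hvN'⟩)
    refine hae (h.no_ker ha0 hsym (fun u hu h0 => ?_) e (mem_hd.1 he).1)
    by_cases h3 : u ∈ N0
    · exact hdeg u (mem_filter.2 ⟨h3, ⟨0, by rw [h0]; norm_num⟩⟩)
    · refine sum_eq_zero fun e' he' => ha0 e' fun h4 => h3 ?_
      rw [← (mem_st.1 he').2]
      exact mem_image_of_mem _ h4
  obtain ⟨k, hk⟩ := hint
  have h1 := hw.t0 v hv
  rw [hk] at h1
  have h2 : 0 ≤ k := by exact_mod_cast h1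
  refine ⟨k.toNat, ?_⟩
  rw [hk]
  have h10 : ((k.toNat : ℤ) : ℝ) = (k : ℝ) := by rw [Int.toNat_of_nonneg h2]
  rw [← h10]
  push_cast
  rfl

/-- every vertex has no half dart or exactly two -/
theorem N5.hd_two (h : G.N5 z t fr F jm sx ep m) {d : D} (hd : d ∈ G.hd z) :
    ((G.hd z).filter fun e => G.pi e = G.pi d).card = 2 := by
  have hvs : ∀ e ∈ G.hd z, G.pi e ∈ G.vs := fun e he => G.pi_mem e (mem_hd.1 he).1
  have htok : ∀ v ∈ G.vs, ∃ k : ℤ, t v = k := fun v hv => by
    obtain ⟨k, hk⟩ := h.tint hv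
    exact ⟨k, by rw [hk]; push_cast; rfl⟩
  have hge : ∀ e ∈ G.hd z, 2 ≤ ((G.hd z).filter fun e' => G.pi e' = G.pi e).card :=
    fun e he => h.two_le (hvs e he) (htok _ (hvs e he)) he rfl
  refine le_antisymm ?_ (hge d hd)
  by_contra hlt
  rw [not_le] at hlt
  set S := G.hd z with hS
  obtain ⟨a, ha0, ⟨e, he, hae⟩, hsym, hdeg⟩ := exists_ker2 G h.sy_hd (N := S.image G.pi) (N' := ∅)
    (fun e he => by rw [union_empty]; exact mem_image_of_mem _ he)
    (disjoint_empty_right _)
    (fun u hu => by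
      obtain ⟨e, he, rfl⟩ := mem_image.1 hu
      exact hge e he)
    (fun u hu => absurd hu (notMem_empty u))
    (Or.inr ⟨G.pi d, mem_image_of_mem _ hd, hlt⟩)
  refine hae (h.no_ker ha0 hsym (fun u hu _ => ?_) e (mem_hd.1 he).1)
  by_cases h3 : u ∈ S.image G.pi
  · exact hdeg u h3
  · refine sum_eq_zero fun e' he' => ha0 e' fun h4 => h3 ?_
    rw [← (mem_st.1 he').2]
    exact mem_image_of_mem _ h4

/-- the weights are half-integral: otherwise let `θ = fract (z d)`, `a = 1` where the fractional part is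
`θ`, `-1` where it is `1 - θ`; this is a direction with `b = 0` -/
theorem N5.hd_half (h : G.N5 z t fr F jm sx ep m) {d : D} (hd : d ∈ G.hd z) :
    ∃ k : ℕ, z d = k + 1 / 2 := by
  have hw := h.mc.inst.wt
  have hvs : ∀ e ∈ G.hd z, G.pi e ∈ G.vs := fun e he => G.pi_mem e (mem_hd.1 he).1
  set θ := Int.fract (z d) with hθ
  have hz0 : 0 ≤ z d := hw.z0 d (mem_hd.1 hd).1
  have hfl : 0 ≤ ⌊z d⌋ := Int.floor_nonneg.2 hz0
  have hhalf : θ = 1 / 2 := by
    by_contra hne
    set a : D → ℝ := fun e =>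
      if e ∈ G.hd z then
        (if Int.fract (z e) = θ then 1 else if Int.fract (z e) = 1 - θ then -1 else 0) else 0 with ha
    have ha0 : ∀ e ∉ G.hd z, a e = 0 := fun e he => if_neg he
    have hsym : ∀ e ∈ G.ds, a (G.al e) = a e := by
      intro e he
      by_cases h1 : e ∈ G.hd z
      · have h2 := (h.hd_out h1).2.1
        simp only [ha, if_pos h1, if_pos h2, hw.sym e he]
      · have h2 : G.al e ∉ G.hd z := fun h2 => h1 (by
          have := (h.hd_out h2).2.1
          rwa [G.al_al e he] at this)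
        rw [ha0 _ h1, ha0 _ h2]
    have hdeg : ∀ v ∈ G.vs, ∑ e ∈ G.st v, a e = 0 := by
      intro v hv
      have h1 : ∑ e ∈ G.st v, a e = ∑ e ∈ (G.hd z).filter (fun e => G.pi e = v), a e := by
        symm
        refine sum_subset (fun e he => ?_) fun e he1 he2 => ?_
        · obtain ⟨h2, h3⟩ := mem_filter.1 he
          exact mem_st.2 ⟨(mem_hd.1 h2).1, h3⟩
        · refine ha0 e fun h3 => he2 (mem_filter.2 ⟨h3, (mem_st.1 he1).2⟩)
      rw [h1]
      by_cases h2 : ∃ e ∈ G.hd z, G.pi e = v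
      · obtain ⟨e, he, rfl⟩ := h2
        obtain ⟨e1, e2, hne12, h12⟩ := card_eq_two.1 (h.hd_two he)
        rw [h12, sum_pair hne12]
        have hm1 : e1 ∈ (G.hd z).filter fun e' => G.pi e' = G.pi e := by
          rw [h12]; exact mem_insert_self _ _
        have hm2 : e2 ∈ (G.hd z).filter fun e' => G.pi e' = G.pi e := by
          rw [h12]; exact mem_insert_of_mem (mem_singleton_self _)
        obtain ⟨h3, h4⟩ := mem_filter.1 hm1
        obtain ⟨h5, h6⟩ := mem_filter.1 hm2
        -- the sum of the two weights is an integer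
        obtain ⟨k, hk⟩ := sum_int (z := z) (A := (G.st (G.pi e)) \ {e1, e2}) (fun e' he' => by
          obtain ⟨h7, h8⟩ := mem_sdiff.1 he'
          obtain ⟨h9, h10⟩ := mem_st.1 h7
          by_contra h11
          refine h8 ?_
          rw [← h12]
          exact mem_filter.2 ⟨mem_hd.2 ⟨h9, h11⟩, h10⟩)
        have hsub : ({e1, e2} : Finset D) ⊆ G.st (G.pi e) := by
          rw [← h12]
          intro e' he'
          obtain ⟨h7, h8⟩ := mem_filter.1 he'
          exact mem_st.2 ⟨(mem_hd.1 h7).1, h8⟩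
        have h7 := hw.deg _ hv
        rw [← sum_sdiff hsub, hk, sum_pair hne12] at h7
        obtain ⟨kt, hkt⟩ := h.tint hv
        have h8 : z e1 + z e2 = ((3 - kt - k : ℤ) : ℝ) := by
          push_cast
          rw [hkt] at h7
          linarith
        have h9 : Int.fract (z e1) + Int.fract (z e2) = 1 := by
          have h10 : Int.fract (z e1) + Int.fract (z e2) =
              ((3 - kt - k - ⌊z e1⌋ - ⌊z e2⌋ : ℤ) : ℝ) := by
            have h11 := Int.self_sub_floor (z e1)
            have h12 := Int.self_sub_floor (z e2)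
            push_cast at h8 ⊢
            linarith
          have h11 : 0 < Int.fract (z e1) := by
            rcases (Int.fract_nonneg (z e1)).lt_or_eq with h13 | h13
            · exact h13
            · exact absurd ⟨⌊z e1⌋, by
                have := Int.self_sub_floor (z e1)
                linarith⟩ (mem_hd.1 h3).2
          have h12 : 0 < Int.fract (z e2) := by
            rcases (Int.fract_nonneg (z e2)).lt_or_eq with h13 | h13
            · exact h13
            · exact absurd ⟨⌊z e2⌋, by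
                have := Int.self_sub_floor (z e2)
                linarith⟩ (mem_hd.1 h5).2
          have h13 := Int.fract_lt_one (z e1)
          have h14 := Int.fract_lt_one (z e2)
          rw [h10]
          have h15 : (0 : ℤ) < 3 - kt - k - ⌊z e1⌋ - ⌊z e2⌋ := by
            have : (0 : ℝ) < ((3 - kt - k - ⌊z e1⌋ - ⌊z e2⌋ : ℤ) : ℝ) := by
              rw [← h10]; linarith
            exact_mod_cast this
          have h16 : 3 - kt - k - ⌊z e1⌋ - ⌊z e2⌋ < (2 : ℤ) := by
            have : ((3 - kt - k - ⌊z e1⌋ - ⌊z e2⌋ : ℤ) : ℝ) < 2 := by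
              rw [← h10]; linarith
            exact_mod_cast this
          have h17 : 3 - kt - k - ⌊z e1⌋ - ⌊z e2⌋ = (1 : ℤ) := by omega
          rw [h17]
          norm_num
        simp only [ha, if_pos h3, if_pos h5]
        by_cases hc1 : Int.fract (z e1) = θ
        · have hc2 : Int.fract (z e2) = 1 - θ := by linarith
          have hc3 : Int.fract (z e2) ≠ θ := fun h => hne (by linarith)
          rw [if_pos hc1, if_neg hc3, if_pos hc2]
          norm_num
        · by_cases hc2 : Int.fract (z e1) = 1 - θ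
          · have hc3 : Int.fract (z e2) = θ := by linarith
            rw [if_neg hc1, if_pos hc2, if_pos hc3]
            norm_num
          · have hc3 : Int.fract (z e2) ≠ 1 - θ := fun h => hc1 (by linarith)
            have hc4 : Int.fract (z e2) ≠ θ := fun h => hc2 (by linarith)
            rw [if_neg hc1, if_neg hc2, if_neg hc4, if_neg hc3]
            norm_num
      · refine sum_eq_zero fun e he => absurd ⟨e, (mem_filter.1 he).1, (mem_filter.1 he).2⟩ h2
    have h1 := h.no_ker ha0 hsym (fun v hv _ => hdeg v hv) d (mem_hd.1 hd).1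
    have h2 : a d = 1 := by
      simp only [ha, if_pos hd]
      rw [if_pos rfl]
    rw [h2] at h1
    norm_num at h1
  refine ⟨⌊z d⌋.toNat, ?_⟩
  have h10 : ((⌊z d⌋.toNat : ℤ) : ℝ) = (⌊z d⌋ : ℝ) := by rw [Int.toNat_of_nonneg hfl]
  have h11 := Int.self_sub_floor (z d)
  rw [← hθ, hhalf] at h11
  have h12 : ((⌊z d⌋.toNat : ℕ) : ℝ) = ((⌊z d⌋.toNat : ℤ) : ℝ) := by push_cast; rfl
  rw [h12, h10]
  linarith

end MG

end RH
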