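import Pool.Agent.Lib.RH.T5Pay
import Pool.Agent.Lib.RH.T5KillA

/-! Direct kill with two payments. -/

set_option autoImplicit false

namespace RH

open Finset Classical

namespace MG

variable {V D : Type*} {G : MG V D} {z z' : D → ℝ} {t t' : V → ℝ} {fr : Finset V} {F : Finset D}
variable {jm sx : Finset V} {ep : V → ℕ} {m : ℕ} {M : Finset D}

/-- DIRECT KILL with two payments (helper43): blocker -/
theorem N5.blocker (h : G.N5 z t fr F jm sx ep m) {C : Finset V} (hC : G.Circ fr F C) {j : D}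
    (hj : j ∈ G.ds) (hx : G.pi j ∈ C) (hw : G.pi (G.al j) ∉ fr) {gw gx : D → ℝ}
    (hgw : G.Pay z fr (G.pi (G.al j)) gw) (hgx : G.Pay z (G.vs \ C) (G.pi j) gx)
    (hgF : ∀ d, gx d ≠ 0 → d ∈ F) {p q : ℝ} (hp0 : 0 ≤ p) (hp1 : p ≤ 1) (hq0 : 0 ≤ q)
    (hq1 : q ≤ 1) (hpq : 1 < p + q) :
    ∃ W ⊆ G.vs, Odd W.card ∧
      G.val z t W - 3 + (if G.pi j ∈ W ∧ G.pi (G.al j) ∈ W then 2 else 0) <
        p * ∑ d ∈ G.ed W W, gw d + q * ∑ d ∈ G.ed W W, gx d := by
  have hI := h.mc.inst
  have hF := hI.fresh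
  have hW := hI.wt
  have hxv := G.pi_mem j hj
  have hwv := G.pi_mem _ (G.al_mem j hj)
  have hpe : G.pi j ≠ G.pi (G.al j) := fun he => G.noloop j hj he.symm
  have hxfr : G.pi j ∈ fr := hC.adm.sub hx
  -- the two supports are disjoint
  have hdis : ∀ d, gw d = 0 ∨ gx d = 0 := by
    intro d
    by_contra hcon
    push Not at hcon
    have h1 : d ∈ G.sd z fr := by
      by_contra h2
      exact hcon.1 (hgw.zero d h2)
    exact (mem_sd.1 h1).2.2.1 (hF.Ffr d (hgF d hcon.2))
  have key := h.mc.direct hC hj hx hw (a := fun d => p * gw d + q * gx d)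
    (b := fun v => - (p * (if v = G.pi (G.al j) then 1 else 0) + q * (if v = G.pi j then 1 else 0)))
    ?_ ?_ ?_ ?_ ?_ ?_ ?_
  · obtain ⟨W, h1, h2, h3⟩ := key
    refine ⟨W, h1, h2, ?_⟩
    rw [sum_add_distrib, ← mul_sum, ← mul_sum] at h3
    exact h3
  · intro d hd
    show p * gw (G.al d) + q * gx (G.al d) = p * gw d + q * gx d
    rw [hgw.sym d hd, hgx.sym d hd]
  · intro v hv
    show ∑ d ∈ G.st v, (p * gw d + q * gx d) + - (p * (if v = G.pi (G.al j) then 1 else 0) +
      q * (if v = G.pi j then 1 else 0)) = 0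
    rw [sum_add_distrib, ← mul_sum, ← mul_sum, hgw.deg v hv, hgx.deg v hv]
    ring
  · intro d hd
    by_cases h1 : gw d = 0
    · have h2 : gx d ≠ 0 := by
        intro h3
        apply hd
        show p * gw d + q * gx d = 0
        rw [h1, h3]
        ring
      have h3 : d ∈ G.sd z (G.vs \ C) := by
        by_contra h4
        exact h2 (hgx.zero d h4)
      obtain ⟨h4, h5, h6, h7⟩ := mem_sd.1 h3
      refine mem_sd.2 ⟨h4, h5, fun h8 => h6 ?_, fun h8 => h7 ?_⟩
      · exact mem_sdiff.2 ⟨G.pi_mem d h4, (mem_sdiff.1 h8).2⟩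
      · exact mem_sdiff.2 ⟨G.pi_mem _ (G.al_mem d h4), (mem_sdiff.1 h8).2⟩
    · have h3 : d ∈ G.sd z fr := by
        by_contra h4
        exact h1 (hgw.zero d h4)
      obtain ⟨h4, h5, h6, h7⟩ := mem_sd.1 h3
      exact mem_sd.2 ⟨h4, h5, fun h8 => h6 (mem_sdiff.1 h8).1, fun h8 => h7 (mem_sdiff.1 h8).1⟩
  · show p * gw j + q * gx j = 0
    have h1 : gw j = 0 := hgw.zero j fun h2 => (mem_sd.1 h2).2.2.1 hxfr
    have h2 : gx j = 0 := by
      by_contra h3
      exact hw (hF.Ffr _ (hF.Fal j (hgF j h3)))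
    rw [h1, h2]
    ring
  · intro d hd
    show 0 ≤ z d + (p * gw d + q * gx d)
    have hz0 := hW.z0 d hd
    have l1 := hgw.le d hd
    have l2 := hgx.le d hd
    rcases hdis d with h1 | h1
    · rw [h1, mul_zero, zero_add]
      have h2 : |q * gx d| ≤ z d := by
        rw [abs_mul, abs_of_nonneg hq0]
        calc q * |gx d| ≤ 1 * |gx d| := by gcongr
          _ ≤ z d := by rw [one_mul]; exact l2
      have h3 := neg_abs_le (q * gx d)
      linarith
    · rw [h1, mul_zero, add_zero]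
      have h2 : |p * gw d| ≤ z d := by
        rw [abs_mul, abs_of_nonneg hp0]
        calc p * |gw d| ≤ 1 * |gw d| := by gcongr
          _ ≤ z d := by rw [one_mul]; exact l1
      have h3 := neg_abs_le (p * gw d)
      linarith
  · intro v hv
    show 0 ≤ t v + (if v = G.pi j ∨ v = G.pi (G.al j) then 1 else 0) +
      - (p * (if v = G.pi (G.al j) then 1 else 0) + q * (if v = G.pi j then 1 else 0))
    have ht0 := hW.t0 v hv
    by_cases h1 : v = G.pi j
    · subst h1
      rw [if_pos (Or.inl rfl), if_neg hpe, if_pos rfl]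
      linarith
    · by_cases h2 : v = G.pi (G.al j)
      · subst h2
        rw [if_pos (Or.inr rfl), if_pos rfl, if_neg h1]
        linarith
      · rw [if_neg h1, if_neg h2, if_neg (by rintro (h3 | h3); exacts [h1 h3, h2 h3])]
        linarith
  · show ∑ v ∈ G.vs, t v + 2 + ∑ v ∈ G.vs, - (p * (if v = G.pi (G.al j) then 1 else 0) +
      q * (if v = G.pi j then 1 else 0)) < 6
    rw [sum_neg_distrib, sum_add_distrib, ← mul_sum, ← mul_sum, sum_ite_eq', sum_ite_eq',
      if_pos hxv, if_pos hwv, h.tau5]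
    linarith

end MG

end RH
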