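import Pool.Agent.Lib.RH.MConn

/-! Minimal counterexamples: no vertex outside `fr` has all its edges at one other vertex outside `fr`
(such an edge is in every matching; both ends are removed). -/

set_option autoImplicit false

namespace RH

open Finset Classical

namespace MG

variable {V D : Type*} {G : MG V D} {z z' : D → ℝ} {t t' : V → ℝ} {fr : Finset V} {F : Finset D}
variable {jm sx : Finset V} {ep : V → ℕ} {m : ℕ} {M : Finset D}

/-- LEAF. `R := vs \ {u, y}`, instance `G.res R` with weights `z`, `tres z t R`: total number of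
tokens `val R = tau - 2 t y < 6` (`Wt.val_compl`, `val {u, y} = 2 t u` because the darts of `u`
carry `3 - t u`). `B` = fresh vertices with an edge to `y`; all darts at the fresh vertices outside
`B` stay in `R`. A matching `M'` of `res R` (good for the unions which avoid `B`) together with
`d0, al d0` (`d0` a dart from `u` with `z d0 ≠ 0`) is good: an admissible set which meets `B` has
an edge to `y` in its boundary, and the only edge of the matching at `y` is `d0`. -/
theorem MCS.no_leaf (h : G.MCS z t fr F jm sx ep m) {u y : V} (hu : u ∈ G.vs) (huf : u ∉ fr)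
    (hyf : y ∉ fr) (hall : ∀ d ∈ G.ds, G.pi d = u → z d ≠ 0 → G.pi (G.al d) = y) : False := by
  have hI := h.inst
  have hF := hI.fresh
  have hw := hI.wt
  -- a support dart at `u`
  obtain ⟨d0, hd0b, hz0⟩ : ∃ d ∈ G.bd {u}, z d ≠ 0 := by
    refine h.conn (singleton_subset_iff.2 hu) (singleton_nonempty u) fun he => ?_
    have h1 := hI.even
    rw [← he, card_singleton] at h1
    obtain ⟨k, hk⟩ := h1
    omega
  obtain ⟨hd0, hp0, hq0⟩ := mem_bd.1 hd0b
  rw [mem_singleton] at hp0 hq0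
  have hy0 : G.pi (G.al d0) = y := hall d0 hd0 hp0 hz0
  have had0 := G.al_mem d0 hd0
  have haa0 := G.al_al d0 hd0
  have hy : y ∈ G.vs := hy0 ▸ G.pi_mem _ had0
  have hyu : y ≠ u := hy0 ▸ hq0
  have huy : ({u, y} : Finset V) ⊆ G.vs := by
    intro v hv
    rcases mem_insert.1 hv with rfl | hv
    · exact hu
    · rw [mem_singleton.1 hv]; exact hy
  set R : Finset V := G.vs \ {u, y} with hRdef
  have hR : R ⊆ G.vs := sdiff_subset
  have huR : u ∉ R := fun h1 => (mem_sdiff.1 h1).2 (mem_insert_self _ _)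
  have hyR : y ∉ R := fun h1 => (mem_sdiff.1 h1).2 (mem_insert_of_mem (mem_singleton_self _))
  have hmR : ∀ v, v ∈ R ↔ v ∈ G.vs ∧ v ≠ u ∧ v ≠ y := by
    intro v
    rw [hRdef, mem_sdiff, mem_insert, mem_singleton]
    tauto
  have hvs : (G.res R).vs = R := inter_eq_right.2 hR
  have hds : ∀ d, d ∈ (G.res R).ds ↔ d ∈ G.ds ∧ G.pi d ∈ R ∧ G.pi (G.al d) ∈ R := by
    intro d
    unfold res
    rw [mem_filter]
  have hfrR : fr ⊆ R := by
    intro v hv
    exact (hmR v).2 ⟨hF.fsub hv, fun h1 => huf (h1 ▸ hv), fun h1 => hyf (h1 ▸ hv)⟩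
  have hRc : R.card + 2 = G.vs.card := by
    have h1 := card_sdiff_add_card_eq_card huy
    rw [card_pair (Ne.symm hyu)] at h1
    exact h1
  -- no fresh vertex is joined to `u`
  have hfu : ∀ d ∈ G.ds, G.pi d ∈ fr → G.pi (G.al d) ≠ u := by
    intro d hd hp hq
    have h1 := hF.unit d hd hp
    have h2 : z (G.al d) ≠ 0 := by
      rw [hw.sym d hd, h1]
      exact one_ne_zero
    have h3 := hall (G.al d) (G.al_mem d hd) hq h2
    rw [G.al_al d hd] at h3
    exact hyf (h3 ▸ hp)
  set B : Finset V := fr.filter fun v => ∃ d ∈ G.ds, G.pi d = v ∧ G.pi (G.al d) = y with hB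
  have hstay : ∀ d ∈ G.ds, G.pi d ∈ fr → G.pi d ∉ B → G.pi (G.al d) ∈ R := by
    intro d hd hp hpB
    refine (hmR _).2 ⟨G.pi_mem _ (G.al_mem d hd), hfu d hd hp, fun h1 => hpB ?_⟩
    exact mem_filter.2 ⟨hp, d, hd, rfl, h1⟩
  have hbd : ∀ X, G.Adm fr F X → Disjoint X B → (G.res R).bd X = G.bd X := by
    intro X hX hXB
    ext d
    rw [mem_bd, mem_bd, hds]
    constructor
    · rintro ⟨⟨h1, -, -⟩, h2, h3⟩
      exact ⟨h1, h2, h3⟩
    · rintro ⟨h1, h2, h3⟩
      exact ⟨⟨h1, hfrR (hX.sub h2), hstay d h1 (hX.sub h2) (disjoint_left.1 hXB h2)⟩, h2, h3⟩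
  have hst : ∀ v ∈ fr, v ∉ B → (G.res R).st v = G.st v := by
    intro v hv hvB
    ext d
    rw [mem_st, mem_st, hds]
    constructor
    · rintro ⟨⟨h1, -, -⟩, h2⟩
      exact ⟨h1, h2⟩
    · rintro ⟨h1, h2⟩
      have h3 : G.pi d = v := h2
      refine ⟨⟨h1, hfrR (by rw [h3]; exact hv), hstay d h1 (by rw [h3]; exact hv)
        (by rw [h3]; exact hvB)⟩, h2⟩
  have hadm : ∀ X, (G.res R).Adm fr F X ↔ G.Adm fr F X := by
    intro X
    exact ⟨fun hX => ⟨hX.sub, hX.clo⟩, fun hX => ⟨hX.sub, hX.clo⟩⟩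
  have hep : ∀ X, G.Adm fr F X → ∑ v ∈ X, ep v ≤ (X ∩ jm).card := by
    intro X hX
    rw [← sum_ite_card]
    exact sum_le_sum fun v hv => hI.epj v (hX.sub hv)
  -- the number of tokens
  have htau : ∑ v ∈ (G.res R).vs, G.tres z t R v < 6 := by
    rw [res_tau hw hR, hRdef, hw.val_compl huy, hw.val_eq huy, sum_pair (Ne.symm hyu),
      card_pair (Ne.symm hyu)]
    have h1 := hw.deg u hu
    have h2 : ∑ d ∈ G.st u, z d ≤ ∑ d ∈ G.ed {u} {y}, z d := by
      rw [← sum_filter_ne_zero (s := G.st u)]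
      refine sum_le_sum_of_subset_of_nonneg ?_ fun d hd _ => hw.z0 d (mem_ed.1 hd).1
      intro d hd
      obtain ⟨h2, h3⟩ := mem_filter.1 hd
      obtain ⟨h4, h5⟩ := mem_st.1 h2
      exact mem_ed.2 ⟨h4, mem_singleton.2 h5, mem_singleton.2 (hall d h4 h5 h3)⟩
    have h3 := hw.ed_symm {u} {y}
    have h4 : ∑ d ∈ G.ed {u} {y}, z d + ∑ d ∈ G.ed {y} {u}, z d ≤
        ∑ d ∈ G.ed {u, y} {u, y}, z d := by
      rw [← sum_union]
      · refine sum_le_sum_of_subset_of_nonneg ?_ fun d hd _ => hw.z0 d (mem_ed.1 hd).1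
        intro d hd
        rcases mem_union.1 hd with h5 | h5
        · obtain ⟨h6, h7, h8⟩ := mem_ed.1 h5
          exact mem_ed.2 ⟨h6, mem_insert.2 (Or.inl (mem_singleton.1 h7)),
            mem_insert_of_mem h8⟩
        · obtain ⟨h6, h7, h8⟩ := mem_ed.1 h5
          exact mem_ed.2 ⟨h6, mem_insert_of_mem h7,
            mem_insert.2 (Or.inl (mem_singleton.1 h8))⟩
      · rw [disjoint_left]
        intro d h5 h6
        have h7 := mem_singleton.1 (mem_ed.1 h5).2.1
        have h8 := mem_singleton.1 (mem_ed.1 h6).2.1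
        exact hyu (h8.symm.trans h7)
    have h5 := hw.t0 y hy
    have h6 := hI.tau
    push_cast
    linarith
  have hraw : (G.res R).RawI z (G.tres z t R) fr F jm B m := by
    refine ⟨?_, hw.res hR, htau, ?_, hI.jm2, ?_, ?_, ?_⟩
    · rw [hvs]
      obtain ⟨k, hk⟩ := hI.even
      exact ⟨k - 1, by omega⟩
    · refine ⟨by rw [hvs]; exact hfrR, ?_, hF.Fal, hF.jms, fun v hv _ => hF.two v hv, ?_, ?_, ?_⟩
      · intro d hd
        exact (hds d).2 ⟨hF.Fsub hd, hfrR (hF.Ffr d hd), hfrR (hF.Ffr _ (hF.Fal d hd))⟩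
      · intro v hv hvB hvj
        rw [hst v hv hvB]
        exact hF.jd v hv hvj
      · intro v hv hvB d hd
        rw [hst v (hF.jms hv) hvB] at hd
        exact hF.j0 v hv d hd
      · intro d hd hp _
        exact hF.unit d ((hds d).1 hd).1 hp
    · intro X hX hXB hO
      have h1 := (hadm X).1 hX
      have h3 := hI.cc X h1 hO
      have h4 := hep X h1
      rw [hbd X h1 hXB]
      omega
    · intro X hX hXB hE hn
      have h1 := (hadm X).1 hX
      have h3 := hI.ev X h1 hE hn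
      have h4 := hep X h1
      rw [hbd X h1 hXB]
      omega
    · intro X hX hXB hE hn hjX
      have h1 := (hadm X).1 hX
      rw [hbd X h1 hXB]
      exact hI.b0 X h1 hE (by rw [hI.sx_eq]; exact hn) (by rw [hI.sx_eq]; exact hjX)
  obtain ⟨M', hM', hpos', hhit'⟩ := h.solve hraw (Or.inr ⟨rfl, Or.inl (by rw [hvs]; omega)⟩)
  obtain ⟨m1, m2, m3, m4⟩ := res_pm hR hM'
  have m5 : ∀ d ∈ M', G.pi (G.al d) ∈ R := fun d hd => m3 _ (m2 d hd)
  have hmem : ∀ d, d ∈ M' ∪ {d0, G.al d0} ↔ d ∈ M' ∨ d = d0 ∨ d = G.al d0 := by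
    intro d
    rw [mem_union, mem_insert, mem_singleton]
  refine h.bad ⟨M' ∪ {d0, G.al d0}, ⟨?_, ?_, ?_⟩, ?_, ?_⟩
  · intro d hd
    rcases (hmem d).1 hd with h1 | rfl | rfl
    · exact m1 h1
    · exact hd0
    · exact had0
  · intro d hd
    rcases (hmem d).1 hd with h1 | rfl | rfl
    · exact (hmem _).2 (Or.inl (m2 d h1))
    · exact (hmem _).2 (Or.inr (Or.inr rfl))
    · exact (hmem _).2 (Or.inr (Or.inl haa0))
  · intro v hv
    by_cases hvu : v = u
    · rw [card_eq_one]
      refine ⟨d0, ?_⟩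
      ext d
      rw [mem_filter, mem_singleton, hmem]
      constructor
      · rintro ⟨h1 | h1 | h1, h2⟩
        · exact absurd (hvu ▸ h2 ▸ m3 d h1) huR
        · exact h1
        · rw [h1, hy0, hvu] at h2
          exact absurd h2 hyu
      · rintro rfl
        exact ⟨Or.inr (Or.inl rfl), by rw [hp0, hvu]⟩
    · by_cases hvy : v = y
      · rw [card_eq_one]
        refine ⟨G.al d0, ?_⟩
        ext d
        rw [mem_filter, mem_singleton, hmem]
        constructor
        · rintro ⟨h1 | h1 | h1, h2⟩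
          · exact absurd (hvy ▸ h2 ▸ m3 d h1) hyR
          · rw [h1, hp0, hvy] at h2
            exact absurd h2.symm hyu
          · exact h1
        · rintro rfl
          exact ⟨Or.inr (Or.inr rfl), by rw [hy0, hvy]⟩
      · rw [← m4 v ((hmR v).2 ⟨hv, hvu, hvy⟩)]
        congr 1
        ext d
        rw [mem_filter, mem_filter, hmem]
        constructor
        · rintro ⟨h1 | h1 | h1, h2⟩
          · exact ⟨h1, h2⟩
          · rw [h1, hp0] at h2
            exact absurd h2.symm hvu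
          · rw [h1, hy0] at h2
            exact absurd h2.symm hvy
        · rintro ⟨h1, h2⟩
          exact ⟨Or.inl h1, h2⟩
  · intro d hd
    have hp : 0 < z d0 := lt_of_le_of_ne (hw.z0 d0 hd0) (Ne.symm hz0)
    rcases (hmem d).1 hd with h1 | rfl | rfl
    · exact hpos' d h1
    · exact hp
    · rw [hw.sym d0 hd0]
      exact hp
  · intro X hX hO
    by_cases hXB : Disjoint X B
    · have hO' : Odd X.card ∨ (jm.Nonempty ∧ jm ⊆ X) := by
        rw [hI.sx_eq] at hO
        exact hO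
      obtain ⟨d, hd, hdM⟩ := hhit' X ((hadm X).2 hX) hXB hO'
      rw [hbd X hX hXB] at hd
      have h1 := hX.sub (mem_bd.1 hd).2.1
      refine ⟨d, hd, fun h2 => ?_⟩
      rcases (hmem d).1 h2 with h3 | rfl | rfl
      · exact hdM h3
      · rw [hp0] at h1
        exact huf h1
      · rw [hy0] at h1
        exact hyf h1
    · obtain ⟨v, hvX, hvB⟩ := not_disjoint_iff.1 hXB
      obtain ⟨hvf, d, hd, hpd, hqd⟩ := mem_filter.1 hvB
      refine ⟨d, mem_bd.2 ⟨hd, hpd ▸ hvX, fun h1 => ?_⟩, fun h2 => ?_⟩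
      · rw [hqd] at h1
        exact hyf (hX.sub h1)
      · rcases (hmem d).1 h2 with h3 | rfl | rfl
        · have h4 := m5 d h3
          rw [hqd] at h4
          exact hyR h4
        · rw [hp0] at hpd
          exact huf (hpd ▸ hvf)
        · rw [hy0] at hpd
          exact hyf (hpd ▸ hvf)

end MG

end RH
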