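import Pool.Agent.Lib.RH.ConCon
import Pool.Agent.Lib.RH.T5PayA

/-! PAY-W, part A: the weights of a partly paid state with a contracted set. -/

set_option autoImplicit false

namespace RH

open Finset Classical

namespace MG

variable {V D : Type*} {G : MG V D} {z : D → ℝ} {t : V → ℝ}
variable {W : Finset V} {ω : V} (hω : ω ∈ W) (hW : W ⊆ G.vs)

/-- tokens of the contraction plus `c` at the contracted vertex -/
noncomputable def tconc (t : V → ℝ) (W : Finset V) (ω : V) (c : ℝ) (v : V) : ℝ :=
  tcon t W ω v + if v = ω then c else 0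

theorem con_val_add (c : ℝ) {X : Finset V} (hX : X ⊆ (G.con W ω hω hW).vs) :
    (G.con W ω hω hW).val z (tconc t W ω c) X =
      G.val z t (pre W ω X) + if ω ∈ X then c else 0 := by
  rw [← con_val hω hW hX]
  unfold val tconc
  rw [sum_add_distrib, sum_ite_eq' X ω fun _ => c]
  ring

theorem con_tau_add (c : ℝ) :
    ∑ v ∈ (G.con W ω hω hW).vs, tconc t W ω c v = ∑ v ∈ G.vs, t v + c := by
  unfold tconc
  rw [sum_add_distrib, con_tau hω hW, sum_ite_eq' _ ω fun _ => c, if_pos]
  show ω ∈ (G.vs \ W) ∪ {ω}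
  simp

/-- contracting twice, with changed tokens -/
theorem tconc_con (c c' : ℝ) {X : Finset V} (hωX : ω ∈ X) (hX : X ⊆ (G.con W ω hω hW).vs) :
    tconc (tconc t W ω c) X ω c' = tconc t (W ∪ X) ω (c + c') := by
  funext v
  have h1 := congrFun (tcon_con (t := t) hω hW hωX hX) v
  by_cases hv : v = ω
  · subst hv
    unfold tconc
    rw [← h1]
    simp only [if_true]
    have h2 : tcon (fun v_1 => tcon t W v v_1 + if v_1 = v then c else 0) X v v =
        tcon (tcon t W v) X v v + c := by
      unfold tcon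
      simp only [if_true]
      rw [sum_add_distrib, sum_ite_eq' X v fun _ => c, if_pos hωX]
    rw [h2]
    ring
  · unfold tconc
    rw [← h1]
    simp only [hv, if_false, add_zero]
    unfold tcon
    simp only [hv, if_false, add_zero]

/-- `g` is a payment at `w`: symmetric, sum 1 at `w` and 0 at the other vertices -/
theorem pay_bd {g : D → ℝ} {w : V} (hg : ∀ v ∈ G.vs, ∑ d ∈ G.st v, g d = if v = w then 1 else 0)
    {X : Finset V} (hX : X ⊆ G.vs) :
    ∑ d ∈ G.bd X, g d = (if w ∈ X then 1 else 0) - ∑ d ∈ G.ed X X, g d := by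
  have h1 := sum_bd_ed G g X
  rw [← sum_pi_mem G G.ds g X] at h1
  have h2 : ∑ v ∈ X, ∑ d ∈ G.ds.filter (fun d => G.pi d = v), g d =
      ∑ v ∈ X, if v = w then (1 : ℝ) else 0 := sum_congr rfl fun v hv => hg v (hX hv)
  rw [h2, sum_ite_eq' X w fun _ => (1 : ℝ)] at h1
  linarith

/-- the value after adding `s` times a payment at `w` (and paying the tokens at `w`) -/
theorem pay_val {g : D → ℝ} {w : V} (s : ℝ)
    (hg : ∀ v ∈ G.vs, ∑ d ∈ G.st v, g d = if v = w then 1 else 0) {X : Finset V}
    (hX : X ⊆ G.vs) :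
    G.val (fun d => z d + s * g d) (fun v => t v - if v = w then s else 0) X =
      G.val z t X - s * ∑ d ∈ G.ed X X, g d := by
  unfold val
  rw [sum_add_distrib, ← mul_sum, pay_bd hg hX, sum_sub_distrib, sum_ite_eq' X w fun _ => s]
  split_ifs <;> ring

end MG

namespace MG

variable {V D : Type*} {G : MG V D} {z : D → ℝ} {t : V → ℝ}
variable {W X : Finset V} {w : V}

/-- tokens which remain at `W` after the payment `s g` outside `W` (the token of `w` is 1) -/
noncomputable def rem (G : MG V D) (z : D → ℝ) (t : V → ℝ) (g : D → ℝ) (W : Finset V)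
    (s : ℝ) : ℝ :=
  4 - G.val z t W + s * (∑ d ∈ G.ed W W, g d - 1)

/-- tokens of the state `(W, s)` before contraction: the token 1 of `w` is replaced by `rem` -/
noncomputable def trem (G : MG V D) (z : D → ℝ) (t : V → ℝ) (g : D → ℝ) (w : V)
    (W : Finset V) (s : ℝ) (v : V) : ℝ :=
  if v = w then t v - 1 + G.rem z t g W s else t v

theorem trem_sum {g : D → ℝ} (w : V) (s : ℝ) (X : Finset V) :
    ∑ v ∈ X, G.trem z t g w W s v =
      ∑ v ∈ X, t v + if w ∈ X then G.rem z t g W s - 1 else 0 := by
  have h1 : ∀ v ∈ X, G.trem z t g w W s v = t v + if v = w then G.rem z t g W s - 1 else 0 := by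
    intro v _
    unfold trem
    split_ifs
    · ring
    · ring
  rw [sum_congr rfl h1, sum_add_distrib, sum_ite_eq' X w fun _ => G.rem z t g W s - 1]

/-- value of the state `(W, s)`, `w` inside -/
theorem val_rem (_hw : G.Wt z t) {fr0 : Finset V} {g : D → ℝ} (hg : G.Pay z fr0 w g)
    (_hwv : w ∈ G.vs) {s : ℝ} (hX : X ⊆ G.vs) (hwX : w ∈ X) :
    G.val (fun d => z d + s * g d) (G.trem z t g w W s) X =
      3 + G.rem z t g W s - G.rem z t g X s := by
  have h1 := pay_bd hg.deg hX
  rw [if_pos hwX] at h1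
  unfold val
  rw [sum_add_distrib, ← mul_sum, h1, trem_sum, if_pos hwX]
  unfold rem val
  ring

/-- value of the state `(W, s)`, `w` outside -/
theorem val_rem_out (_hw : G.Wt z t) {fr0 : Finset V} {g : D → ℝ} (hg : G.Pay z fr0 w g)
    (_hwv : w ∈ G.vs) {s : ℝ} (hX : X ⊆ G.vs) (hwX : w ∉ X) :
    G.val (fun d => z d + s * g d) (G.trem z t g w W s) X =
      G.val z t X - s * ∑ d ∈ G.ed X X, g d := by
  have h1 := pay_bd hg.deg hX
  rw [if_neg hwX] at h1
  unfold val
  rw [sum_add_distrib, ← mul_sum, h1, trem_sum, if_neg hwX]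
  ring

/-- the weights of the state `(W, s)` are valid if the remaining tokens dominate; `t w` is at least
1. (For `X` with `w` in it: value in the state = `3 + rem W s - rem X s` if `w ∈ X`, and
`val - s (sum of g inside)` otherwise.) -/
theorem wt_rem (hw : G.Wt z t) {fr0 : Finset V} {g : D → ℝ} (hg : G.Pay z fr0 w g)
    (hwv : w ∈ G.vs) (ht : 1 ≤ t w) (hω : w ∈ W) (hW : W ⊆ G.vs) (hWo : Odd W.card) {s : ℝ}
    (h0 : 0 ≤ s) (h1 : s ≤ 1) (hR : 0 ≤ G.rem z t g W s)
    (hout : ∀ X ⊆ G.vs, Odd X.card → w ∉ X → ∑ d ∈ G.ed X X, g d ≤ G.val z t X - 3)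
    (hin : ∀ X ⊆ G.vs, Odd X.card → W ⊆ X → G.rem z t g X s ≤ G.rem z t g W s) :
    (G.con W w hω hW).Wt (fun d => z d + s * g d) (tcon (G.trem z t g w W s) W w) where
  z0 := fun d hd => by
    have hd' := mem_of_mem_filter d hd
    have h2 := hw.z0 d hd'
    have h3 := abs_le.1 (hg.le d hd')
    nlinarith [mul_le_mul_of_nonneg_left h3.1 h0, mul_le_mul_of_nonneg_right h1 h2]
  t0 := by
    have ht0 : ∀ v ∈ G.vs, 0 ≤ G.trem z t g w W s v := by
      intro v hv
      unfold trem
      split_ifs with h2
      · rw [h2]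
        linarith
      · exact hw.t0 v hv
    intro v hv
    simp only [tcon]
    split_ifs with h2
    · exact sum_nonneg fun u hu => ht0 u (hW hu)
    · have := con_vs_mem hω hW (X := (G.con W w hω hW).vs) (Finset.Subset.refl _) hv
      exact ht0 v (this.resolve_right h2).1
  sym := fun d hd => by
    have hd' := mem_of_mem_filter d hd
    show z (G.al d) + s * g (G.al d) = z d + s * g d
    rw [hw.sym d hd', hg.sym d hd']
  deg := by
    intro v hv
    have hv' := con_vs_mem hω hW (X := (G.con W w hω hW).vs) (Finset.Subset.refl _) hv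
    by_cases h2 : v = w
    · subst h2
      have h3 := val_rem (W := W) hw hg hwv (s := s) hW hω
      rw [con_st_omega hω hW]
      simp only [tcon, if_true]
      unfold val at h3
      rw [h3]
      ring
    · have h3 := hv'.resolve_right h2
      rw [con_st hω hW h2 h3.2]
      simp only [tcon, h2, if_false]
      rw [sum_add_distrib, ← mul_sum, hg.deg v h3.1, if_neg h2]
      unfold trem
      rw [if_neg h2]
      have := hw.deg v h3.1
      linarith
  cut := by
    intro X hX hodd
    have hodd' := (pre_odd hω hW hX hWo).2 hodd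
    have hsub := pre_sub hω hW hX
    rw [con_val hω hW hX]
    by_cases hwX : w ∈ X
    · have h2 : W ⊆ pre W w X := by
        rw [pre_eq_union hω hwX]
        exact subset_union_right
      rw [val_rem hw hg hwv hsub (h2 hω)]
      have := hin _ hsub hodd' h2
      linarith
    · have h2 : pre W w X = X := by
        simp only [pre, hwX, if_false]
      rw [h2] at hodd' hsub ⊢
      rw [val_rem_out hw hg hwv hsub hwX]
      have h3 := hout X hsub hodd' hwX
      have h4 := hw.cut X hsub hodd'
      rcases le_or_gt (∑ d ∈ G.ed X X, g d) 0 with h5 | h5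
      · nlinarith [mul_nonneg h0 (neg_nonneg.2 h5)]
      · nlinarith [mul_le_mul_of_nonneg_right h1 h5.le]

end MG

end RH
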