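import Pool.Agent.Lib.RH.St6U
import Pool.Agent.Lib.RH.T5SixA

/-! PAY-W, part B (helper68): the token of a vertex in `Q` is paid completely, with contractions. -/

set_option autoImplicit false

namespace RH

open Finset Classical

namespace MG

variable {V D : Type*} {G : MG V D} {z z' : D → ℝ} {t t' : V → ℝ} {fr fr' : Finset V}
variable {F : Finset D} {jm sx : Finset V} {ep : V → ℕ} {m a : ℕ} {W X : Finset V} {ω w : V}

/-- finitely many affine functions below one which goes to zero: the first crossing -/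
theorem cross {ι : Type*} (S : Finset ι) (p q : ι → ℝ) {c e s s1 : ℝ}
    (hS : ∀ i ∈ S, p i + s * q i ≤ c + s * e) (hpos : 0 < c + s * e) (h1 : c + s1 * e = 0) :
    (∀ i ∈ S, p i + s1 * q i ≤ 0) ∨
      ∃ θ : ℝ, 0 ≤ θ ∧ θ < 1 ∧ ∃ i ∈ S,
        p i + (s + θ * (s1 - s)) * q i = c + (s + θ * (s1 - s)) * e ∧
        (∀ j ∈ S, p j + (s + θ * (s1 - s)) * q j ≤ c + (s + θ * (s1 - s)) * e) ∧
        0 < c + (s + θ * (s1 - s)) * e := by
  by_cases hall : ∀ i ∈ S, p i + s1 * q i ≤ 0
  · exact Or.inl hall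
  right
  push Not at hall
  obtain ⟨i0, hi0, hv0⟩ := hall
  -- `u i ≥ 0` at the start, `v i > 0` at the violating ones, the crossing is `u / (u + v)`
  obtain ⟨u, hu⟩ : ∃ u : ι → ℝ, ∀ i, u i = c + s * e - (p i + s * q i) := ⟨_, fun _ => rfl⟩
  obtain ⟨v, hv⟩ : ∃ v : ι → ℝ, ∀ i, v i = p i + s1 * q i := ⟨_, fun _ => rfl⟩
  have hf : ∀ i, ∀ θ : ℝ, c + (s + θ * (s1 - s)) * e - (p i + (s + θ * (s1 - s)) * q i) =
      (1 - θ) * u i - θ * v i := by
    intro i θ
    rw [hu, hv]
    have : θ * (c + s1 * e) = 0 := by rw [h1, mul_zero]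
    linear_combination this
  have hu0 : ∀ i ∈ S, 0 ≤ u i := fun i hi => by
    rw [hu]
    linarith [hS i hi]
  obtain ⟨i, hi, hmin⟩ := exists_min_image (S.filter fun i => 0 < v i)
    (fun i => u i / (u i + v i)) ⟨i0, mem_filter.2 ⟨hi0, by rw [hv]; exact hv0⟩⟩
  obtain ⟨hiS, hiv⟩ := mem_filter.1 hi
  have hui := hu0 i hiS
  have hd : 0 < u i + v i := by linarith
  refine ⟨u i / (u i + v i), div_nonneg hui hd.le, (div_lt_one hd).2 (by linarith), i, hiS,
    ?_, ?_, ?_⟩
  · have h2 := hf i (u i / (u i + v i))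
    have h3 : (1 - u i / (u i + v i)) * u i - u i / (u i + v i) * v i = 0 := by
      field_simp
      ring
    linarith
  · intro j hj
    have h2 := hf j (u i / (u i + v i))
    have h3 : 0 ≤ (1 - u i / (u i + v i)) * u j - u i / (u i + v i) * v j := by
      have hθ0 : 0 ≤ u i / (u i + v i) := div_nonneg hui hd.le
      have hθ1 : u i / (u i + v i) < 1 := (div_lt_one hd).2 (by linarith)
      have huj := hu0 j hj
      by_cases hvj : 0 < v j
      · have h4 := hmin j (mem_filter.2 ⟨hj, hvj⟩)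
        have hdj : 0 < u j + v j := by linarith
        have h5 : u i / (u i + v i) * (u j + v j) ≤ u j := by
          rwa [← le_div_iff₀ hdj]
        nlinarith
      · have h4 : v j ≤ 0 := not_lt.1 hvj
        nlinarith [mul_nonneg hθ0 (neg_nonneg.2 h4), mul_nonneg (sub_nonneg.2 hθ1.le) huj]
    linarith
  · have hθ1 : u i / (u i + v i) < 1 := (div_lt_one hd).2 (by linarith)
    have h3 : c + (s + u i / (u i + v i) * (s1 - s)) * e =
        (1 - u i / (u i + v i)) * (c + s * e) := by
      have : u i / (u i + v i) * (c + s1 * e) = 0 := by rw [h1, mul_zero]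
      linear_combination this
    rw [h3]
    exact mul_pos (by linarith) hpos

theorem con_self (hwv : w ∈ G.vs) :
    G.con {w} w (mem_singleton_self w) (singleton_subset_iff.2 hwv) = G := by
  refine ext_data ?_ ?_ ?_ rfl
  · ext v
    show v ∈ (G.vs \ {w}) ∪ {w} ↔ v ∈ G.vs
    simp only [mem_union, mem_sdiff, mem_singleton]
    constructor
    · rintro (h | h)
      · exact h.1
      · exact h ▸ hwv
    · intro h
      by_cases hv : v = w
      · exact Or.inr hv
      · exact Or.inl ⟨h, hv⟩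
  · show (G.ds.filter fun d => ¬ (G.pi d ∈ ({w} : Finset V) ∧ G.pi (G.al d) ∈ ({w} : Finset V)))
      = G.ds
    refine filter_true_of_mem fun d hd h => ?_
    rw [mem_singleton, mem_singleton] at h
    exact G.noloop d hd (h.2.trans h.1.symm)
  · funext d
    show (if G.pi d ∈ ({w} : Finset V) then w else G.pi d) = G.pi d
    by_cases h : G.pi d ∈ ({w} : Finset V)
    · rw [if_pos h]
      exact (mem_singleton.1 h).symm
    · rw [if_neg h]

theorem tcon_self : tcon t {w} w = t := by
  funext v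
  unfold tcon
  split_ifs with h
  · rw [sum_singleton, h]
  · rfl

theorem con_congr {A B : Finset V} (hAB : A = B) (h1 : w ∈ A) (h2 : A ⊆ G.vs) (h3 : w ∈ B)
    (h4 : B ⊆ G.vs) : G.con A w h1 h2 = G.con B w h3 h4 := by
  subst hAB
  rfl

theorem rem_single (hw : G.Wt z t) (hwv : w ∈ G.vs) (g : D → ℝ) (s : ℝ) :
    G.rem z t g {w} s = 1 - s := by
  have h1 : G.ed {w} {w} = ∅ := by
    rw [eq_empty_iff_forall_notMem]
    intro d hd
    obtain ⟨h2, h3, h4⟩ := mem_filter.1 hd
    rw [mem_singleton] at h3 h4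
    exact G.noloop d h2 (h4.trans h3.symm)
  have h2 : G.val z t {w} = 3 := by
    have h3 := hw.deg w hwv
    have h4 : G.bd {w} = G.st w := by
      ext d
      rw [mem_bd, mem_st, mem_singleton, mem_singleton]
      constructor
      · rintro ⟨h5, h6, -⟩
        exact ⟨h5, h6⟩
      · rintro ⟨h5, h6⟩
        exact ⟨h5, h6, fun h7 => G.noloop d h5 (h7.trans h6.symm)⟩
    unfold val
    rw [h4, sum_singleton]
    exact h3
  unfold rem
  rw [h1, h2, sum_empty]
  ring

/-- the induction -/
private theorem pay_aux (hw : G.Wt z t) {fr0 : Finset V} {g : D → ℝ}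
    (hunit : ∀ d ∈ G.ds, G.pi d ∈ fr → z d = 1)
    (hg : G.Pay z fr0 w g) (hfr0 : fr ⊆ fr0) (hwv : w ∈ G.vs) (ht : 1 ≤ t w)
    (hout : ∀ X ⊆ G.vs, Odd X.card → w ∉ X → ∑ d ∈ G.ed X X, g d ≤ G.val z t X - 3)
    (hin : ∀ X ⊆ G.vs, Odd X.card → w ∈ X → X ≠ {w} → 4 ≤ G.val z t X)
    (hF : ∀ X ⊆ G.vs, Odd X.card → w ∈ X → 1 < ∑ d ∈ G.ed X X, g d →
      (∃ s, 0 ≤ s ∧ s ≤ 1 ∧ 0 < G.rem z t g X s) →
      ∀ d ∈ F, G.pi d ∈ X → G.pi (G.al d) ∈ X) :
    ∀ n : ℕ, ∀ (W : Finset V) (hω : w ∈ W) (hW : W ⊆ G.vs) (s : ℝ) (fr1 : Finset V),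
      (G.vs \ W).card = n → Odd W.card → 0 ≤ s → s < 1 → (W = {w} ∨ 3 ≤ W.card) →
      0 < G.rem z t g W s →
      (∀ X ⊆ G.vs, Odd X.card → W ⊆ X → G.rem z t g X s ≤ G.rem z t g W s) →
      fr1 ⊆ fr \ W →
      StkU (G.con W w hω hW) (fun d => z d + s * g d)
        (tcon (G.trem z t g w W s) W w) fr1
        (F.filter fun d => G.pi d ∈ fr1) (jm ∩ fr1) ep m a →
      ∃ (W : Finset V) (hω : w ∈ W) (hW : W ⊆ G.vs) (s : ℝ) (fr1 : Finset V),
        Odd W.card ∧ 0 ≤ s ∧ s ≤ 1 ∧ G.rem z t g W s = 0 ∧ fr1 ⊆ fr \ W ∧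
        (W = {w} ∧ s = 1 ∨
          3 ≤ W.card ∧ ∃ s', 0 ≤ s' ∧ s' ≤ 1 ∧ 0 < G.rem z t g W s') ∧
        StkU (G.con W w hω hW) (fun d => z d + s * g d)
          (tcon (fun v => if v = w then t v - 1 else t v) W w) fr1
          (F.filter fun d => G.pi d ∈ fr1) (jm ∩ fr1) ep m a := by
  -- weights of fresh darts and supports
  have hgz : ∀ d ∈ G.ds, ∀ s : ℝ, 0 ≤ s → s < 1 → 0 < z d → 0 < z d + s * g d := by
    intro d hd s h0 h1 hz
    have h2 := abs_le.1 (hg.le d hd)
    nlinarith [mul_le_mul_of_nonneg_left h2.1 h0, mul_pos (sub_pos.2 h1) hz]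
  have hgz' : ∀ d ∈ G.ds, ∀ s : ℝ, 0 ≤ s → s ≤ 1 → 0 < z d + s * g d → 0 < z d := by
    intro d hd s h0 h1 hz
    have h2 := abs_le.1 (hg.le d hd)
    have h3 := hw.z0 d hd
    rcases h3.lt_or_eq with h4 | h4
    · exact h4
    · rw [← h4] at h2 hz
      have h5 : g d = 0 := by linarith [h2.1, h2.2]
      rw [h5] at hz
      simp at hz
  have hg0 : ∀ d, G.pi d ∈ fr → g d = 0 := by
    intro d hd
    refine hg.zero d fun h => ?_
    exact (mem_sd.1 h).2.2.1 (hfr0 hd)
  intro n
  induction n using Nat.strong_induction_on with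
  | _ n ih =>
    intro W hω hW s fr1 hn hWo h0 h1 hW3 hR hval hfr hst
    -- the zero of `rem W`
    have hs1 : ∃ s1 : ℝ, 0 ≤ s1 ∧ s1 ≤ 1 ∧ G.rem z t g W s1 = 0 ∧ (W = {w} → s1 = 1) := by
      by_cases hWw : W = {w}
      · exact ⟨1, zero_le_one, le_refl _, by rw [hWw, rem_single hw hwv]; ring, fun _ => rfl⟩
      · have h4 := hin W hW hWo hω hWw
        obtain ⟨γ, hγ⟩ : ∃ γ : ℝ, γ = ∑ d ∈ G.ed W W, g d - 1 := ⟨_, rfl⟩
        have hR' : 0 < 4 - G.val z t W + s * γ := by
          rw [hγ]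
          exact hR
        have hγ0 : 0 < γ := by
          by_contra hle
          have := mul_nonpos_of_nonneg_of_nonpos h0 (not_lt.1 hle)
          linarith
        refine ⟨(G.val z t W - 4) / γ, div_nonneg (by linarith) hγ0.le, ?_, ?_,
          fun h => absurd h hWw⟩
        · rw [div_le_one hγ0]
          nlinarith
        · unfold rem
          rw [← hγ, div_mul_cancel₀ _ hγ0.ne']
          ring
    obtain ⟨s1, hs0, hs1, hrem1, hWs⟩ := hs1
    -- the supports do not grow, the weights at fresh darts are 1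
    have halt : ∀ s' : ℝ, 0 ≤ s' → s' ≤ 1 → 0 ≤ G.rem z t g W s' →
        (∀ X ⊆ G.vs, Odd X.card → W ⊆ X → G.rem z t g X s' ≤ G.rem z t g W s') →
        StkU (G.con W w hω hW) (fun d => z d + s' * g d)
          (tcon (G.trem z t g w W s') W w) fr1
          (F.filter fun d => G.pi d ∈ fr1) (jm ∩ fr1) ep m a := by
      intro s' h2 h3 h4 h5
      refine hst.alt (wt_rem hw hg hwv ht hω hW hWo h2 h3 h4 hout h5) ?_ ?_
      · intro d hd hz
        have hd' := mem_of_mem_filter d hd
        exact hgz d hd' s h0 h1 (hgz' d hd' s' h2 h3 hz)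
      · intro d hd hp
        have hd' := mem_of_mem_filter d hd
        have h6 : G.pi d ∈ fr1 := by
          by_cases h7 : G.pi d ∈ W
          · have h8 : (G.con W w hω hW).pi d = w := if_pos h7
            rw [h8] at hp
            exact absurd hω (mem_sdiff.1 (hfr hp)).2
          · have h8 : (G.con W w hω hW).pi d = G.pi d := if_neg h7
            rwa [h8] at hp
        have h7 := (mem_sdiff.1 (hfr h6)).1
        show z d + s' * g d = 1
        rw [hunit d hd' h7, hg0 d h7]
        ring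
    rcases cross ((G.vs.powerset).filter fun X => Odd X.card ∧ W ⊂ X)
        (fun X => 4 - G.val z t X) (fun X => ∑ d ∈ G.ed X X, g d - 1)
        (c := 4 - G.val z t W) (e := ∑ d ∈ G.ed W W, g d - 1) (s := s) (s1 := s1)
        (fun X hX => by
          obtain ⟨h2, h3, h4⟩ := mem_filter.1 hX
          exact hval X (mem_powerset.1 h2) h3 h4.1) hR hrem1 with hA | hB
    · -- done
      have hst' := halt s1 hs0 hs1 hrem1.ge (fun X hX ho hWX => by
        by_cases hXW : X = W
        · rw [hXW]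
        rw [hrem1]
        exact hA X (mem_filter.2 ⟨mem_powerset.2 hX, ho, hWX.ssubset_of_ne (Ne.symm hXW)⟩))
      have htr : G.trem z t g w W s1 = fun v => if v = w then t v - 1 else t v := by
        funext v
        unfold trem
        rw [hrem1, add_zero]
      rw [htr] at hst'
      refine ⟨W, hω, hW, s1, fr1, hWo, hs0, hs1, hrem1, hfr, ?_, hst'⟩
      rcases hW3 with h2 | h2
      · exact Or.inl ⟨h2, hWs h2⟩
      · exact Or.inr ⟨h2, s, h0, h1.le, hR⟩
    · obtain ⟨θ, hθ0, hθ1, X, hX, heq, hle, hpos⟩ := hB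
      obtain ⟨s2, hs2⟩ : ∃ s2 : ℝ, s2 = s + θ * (s1 - s) := ⟨_, rfl⟩
      rw [← hs2] at heq hle hpos
      obtain ⟨hXv, hXo, hWX⟩ := mem_filter.1 hX
      rw [mem_powerset] at hXv
      have hs20 : 0 ≤ s2 := by
        rw [hs2]
        nlinarith [mul_nonneg hθ0 hs0, mul_nonneg (sub_nonneg.2 hθ1.le) h0]
      have hs21 : s2 < 1 := by
        rw [hs2]
        nlinarith [mul_nonneg hθ0 (sub_nonneg.2 hs1), mul_pos (sub_pos.2 hθ1) (sub_pos.2 h1)]
      have hRX : G.rem z t g X s2 = G.rem z t g W s2 := heq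
      have hle' : ∀ Y ⊆ G.vs, Odd Y.card → W ⊆ Y → G.rem z t g Y s2 ≤ G.rem z t g W s2 := by
        intro Y hY ho hWY
        by_cases hYW : Y = W
        · rw [hYW]
        · exact hle Y (mem_filter.2 ⟨mem_powerset.2 hY, ho, hWY.ssubset_of_ne (Ne.symm hYW)⟩)
      have hpos' : 0 < G.rem z t g W s2 := hpos
      have hst2 := halt s2 hs20 hs21.le hpos'.le hle'
      have hwX : w ∈ X := hWX.1 hω
      have hXcard : W.card < X.card := card_lt_card hWX
      have hX3 : 3 ≤ X.card := by
        have h2 : 0 < W.card := card_pos.2 ⟨w, hω⟩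
        rw [Nat.odd_iff] at hWo hXo
        omega
      have hXne : X ≠ {w} := by
        intro h2
        rw [h2, card_singleton] at hX3
        omega
      -- the set of the contraction
      obtain ⟨X', hX'⟩ : ∃ X' : Finset V, X' = (X \ W) ∪ {w} := ⟨_, rfl⟩
      have hwX' : w ∈ X' := by
        rw [hX']
        exact mem_union_right _ (mem_singleton_self w)
      have hX'v : X' ⊆ (G.con W w hω hW).vs := by
        rw [hX']
        exact union_subset_union_left (sdiff_subset_sdiff hXv (Subset.refl _))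
      have hWX' : W ∪ X' = X := by
        rw [hX']
        ext v
        simp only [mem_union, mem_sdiff, mem_singleton]
        constructor
        · rintro (h2 | h2 | h2)
          · exact hWX.1 h2
          · exact h2.1
          · exact h2 ▸ hwX
        · intro h2
          by_cases h3 : v ∈ W
          · exact Or.inl h3
          · exact Or.inr (Or.inl ⟨h2, h3⟩)
      have hpre : pre W w X' = X := by
        simp only [pre, hwX', if_true]
        rw [union_comm]
        exact hWX'
      have hX'o : Odd X'.card := by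
        rw [← pre_odd hω hW hX'v hWo, hpre]
        exact hXo
      have hval3 : (G.con W w hω hW).val (fun d => z d + s2 * g d)
          (tcon (G.trem z t g w W s2) W w) X' = 3 := by
        rw [con_val hω hW hX'v, hpre, val_rem hw hg hwv hXv hwX, hRX]
        ring
      have hkey : ∀ d, (G.con W w hω hW).pi d ∈ X' ↔ G.pi d ∈ X := by
        intro d
        show (if G.pi d ∈ W then w else G.pi d) ∈ X' ↔ _
        by_cases h2 : G.pi d ∈ W
        · rw [if_pos h2]
          exact ⟨fun _ => hWX.1 h2, fun _ => hwX'⟩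
        · rw [if_neg h2, hX', mem_union, mem_sdiff, mem_singleton]
          constructor
          · rintro (h3 | h3)
            · exact h3.1
            · exact absurd hω (h3 ▸ h2)
          · exact fun h3 => Or.inl ⟨h3, h2⟩
      have hFX : ∀ d ∈ F, G.pi d ∈ X → G.pi (G.al d) ∈ X := by
        refine hF X hXv hXo hwX ?_ ⟨s2, hs20, hs21.le, by rw [hRX]; exact hpos'⟩
        have h4 := hin X hXv hXo hwX hXne
        have h5 : 0 < 4 - G.val z t X + s2 * (∑ d ∈ G.ed X X, g d - 1) := by
          have h6 : 0 < G.rem z t g X s2 := by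
            rw [hRX]
            exact hpos'
          exact h6
        by_contra hcon
        have := mul_nonpos_of_nonneg_of_nonpos hs20
          (by linarith [not_lt.1 hcon] : ∑ d ∈ G.ed X X, g d - 1 ≤ 0)
        linarith
      obtain ⟨fr2, hs2', hcl2, -, -, hst3⟩ := hst2.con hX'v hX'o hval3
        (fun d hd hp => (hkey _).2 (hFX d (mem_filter.1 hd).1 ((hkey d).1 hp))) hwX'
      have hfr2 : fr2 ⊆ fr \ X := by
        intro v hv
        obtain ⟨h2, h3⟩ := mem_sdiff.1 (hs2' hv)
        obtain ⟨h4, h5⟩ := mem_sdiff.1 (hfr h2)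
        refine mem_sdiff.2 ⟨h4, fun h6 => h3 ?_⟩
        rw [hX']
        exact mem_union_left _ (mem_sdiff.2 ⟨h6, h5⟩)
      have hlt : (G.vs \ X).card < n := by
        rw [← hn]
        refine card_lt_card ⟨sdiff_subset_sdiff (Subset.refl _) hWX.1, fun h2 => ?_⟩
        obtain ⟨v, hv, hvW⟩ := not_subset.1 hWX.2
        exact (mem_sdiff.1 (h2 (mem_sdiff.2 ⟨hXv hv, hvW⟩))).2 hv
      refine ih _ hlt X hwX hXv s2 fr2 rfl hXo hs20 hs21 (Or.inr hX3)
        (by rw [hRX]; exact hpos') (fun Y hY ho hXY => ?_) hfr2 ?_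
      · rw [hRX]
        exact hle' Y hY ho (hWX.1.trans hXY)
      · have e1 : (G.con W w hω hW).con X' w hwX' hX'v = G.con X w hwX hXv := by
          rw [con_con hω hW hwX' hX'v]
          exact con_congr hWX' _ _ _ _
        have e2 : tcon (tcon (G.trem z t g w W s2) W w) X' w =
            tcon (G.trem z t g w X s2) X w := by
          rw [tcon_con hω hW hwX' hX'v, hWX']
          have h2 : G.trem z t g w W s2 = G.trem z t g w X s2 := by
            funext v
            unfold trem
            rw [hRX]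
          rw [h2]
        have e3 : ((F.filter fun d => G.pi d ∈ fr1).filter
            fun d => (G.con W w hω hW).pi d ∈ fr2) = F.filter fun d => G.pi d ∈ fr2 := by
          ext d
          rw [mem_filter, mem_filter, mem_filter]
          constructor
          · rintro ⟨⟨h2, h3⟩, h4⟩
            have h5 : G.pi d ∉ W := (mem_sdiff.1 (hfr h3)).2
            have h6 : (G.con W w hω hW).pi d = G.pi d := if_neg h5
            rw [h6] at h4
            exact ⟨h2, h4⟩
          · rintro ⟨h2, h3⟩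
            have h4 : G.pi d ∈ fr1 := (mem_sdiff.1 (hs2' h3)).1
            have h5 : G.pi d ∉ W := (mem_sdiff.1 (hfr h4)).2
            have h6 : (G.con W w hω hW).pi d = G.pi d := if_neg h5
            rw [h6]
            exact ⟨⟨h2, h4⟩, h3⟩
        have e4 : jm ∩ fr1 ∩ fr2 = jm ∩ fr2 := by
          ext v
          simp only [mem_inter]
          exact ⟨fun h2 => ⟨h2.1.1, h2.2⟩, fun h2 => ⟨⟨h2.1, (mem_sdiff.1 (hs2' h2.2)).1⟩, h2.2⟩⟩
        rw [e1, e2, e3, e4] at hst3
        exact hst3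

/-- **PAY-W**: `w` outside `fr` with token at least 1 in a stuck state with any number of tokens,
`g` a payment at `w`. If odd sets without `w` have `g`-sum at most `val - 3`, and the other odd sets
which are not `{w}` have value at least 4, and the sets with `g`-sum greater than 1 cut no fresh class,
then there is a stuck state in which 1 token less is needed: `W` (odd, contains `w`) is contracted
and the weights outside are `z + s g`. Induction on the number of vertices outside `W`:
if `(W, s)` is valid and `rem W s > 0` let `s1` be the zero of `rem W` (`s1 = 1` for `W = {w}`,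
otherwise the slope is positive and `s1 < s`). If all odd `X > W` have `rem X s1 ≤ 0` we are done.
Otherwise take the violating `X` whose crossing point with `rem W` is nearest to `s`; there the state
is valid and `X` is tight: `StkU.con`, `con_con`. -/
theorem StkU.pay (h : StkU G z t fr F jm ep m a) {fr0 : Finset V} {g : D → ℝ}
    (hg : G.Pay z fr0 w g) (hfr0 : fr ⊆ fr0) (hwv : w ∈ G.vs) (hwf : w ∉ fr) (ht : 1 ≤ t w)
    (hout : ∀ X ⊆ G.vs, Odd X.card → w ∉ X → ∑ d ∈ G.ed X X, g d ≤ G.val z t X - 3)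
    (hin : ∀ X ⊆ G.vs, Odd X.card → w ∈ X → X ≠ {w} → 4 ≤ G.val z t X)
    (hF : ∀ X ⊆ G.vs, Odd X.card → w ∈ X → 1 < ∑ d ∈ G.ed X X, g d →
      (∃ s, 0 ≤ s ∧ s ≤ 1 ∧ 0 < G.rem z t g X s) →
      ∀ d ∈ F, G.pi d ∈ X → G.pi (G.al d) ∈ X) :
    ∃ (W : Finset V) (hω : w ∈ W) (hW : W ⊆ G.vs) (s : ℝ) (fr1 : Finset V),
      Odd W.card ∧ 0 ≤ s ∧ s ≤ 1 ∧ G.rem z t g W s = 0 ∧ fr1 ⊆ fr \ W ∧
      (W = {w} ∧ s = 1 ∨
        3 ≤ W.card ∧ ∃ s', 0 ≤ s' ∧ s' ≤ 1 ∧ 0 < G.rem z t g W s') ∧
      StkU (G.con W w hω hW) (fun d => z d + s * g d)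
        (tcon (fun v => if v = w then t v - 1 else t v) W w) fr1
        (F.filter fun d => G.pi d ∈ fr1) (jm ∩ fr1) ep m a := by
  have hw := h.wt
  have hFr := h.toT.fresh
  refine pay_aux hw h.unit hg hfr0 hwv ht hout hin hF _ {w} (mem_singleton_self w)
    (singleton_subset_iff.2 hwv) 0 fr rfl (by rw [card_singleton]; exact odd_one) (le_refl _)
    zero_lt_one (Or.inl rfl) (by rw [rem_single hw hwv]; norm_num) ?_ ?_ ?_
  · intro X hX ho hwX
    have h1 := hw.cut X hX ho
    rw [rem_single hw hwv]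
    unfold rem
    linarith
  · intro v hv
    refine mem_sdiff.2 ⟨hv, fun h1 => hwf ?_⟩
    rw [mem_singleton] at h1
    exact h1 ▸ hv
  · have e1 : (fun d => z d + 0 * g d) = z := by
      funext d
      ring
    have e2 : G.trem z t g w {w} 0 = t := by
      funext v
      unfold trem
      rw [rem_single hw hwv]
      split_ifs <;> ring
    have e3 : (F.filter fun d => G.pi d ∈ fr) = F :=
      filter_true_of_mem fun d hd => hFr.Ffr d hd
    have e4 : jm ∩ fr = jm := inter_eq_left.2 hFr.jms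
    rw [e1, e2, e3, e4, tcon_self, con_self hwv]
    exact h

end MG

end RH
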