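import Pool.Agent.Lib.RH.T5SixB
import Pool.Agent.Lib.RH.T5SixC0

/-! PAY-W, part C: from 5 tokens to a stuck state with exactly 6 tokens. -/

set_option autoImplicit false

namespace RH

open Finset Classical

namespace MG

variable {V D : Type*} {G : MG V D} {z z' : D → ℝ} {t t' : V → ℝ} {fr fr' : Finset V}
variable {F : Finset D} {jm sx : Finset V} {ep : V → ℕ} {m a : ℕ} {W X : Finset V} {ω w : V}

/-- from 5 tokens to a stuck state with 6 tokens, for every leg at a component with the only half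
circuit (`hone`): the token at the end in `Q` is paid -/
theorem N5.pay6 (h : G.N5 z t fr F jm sx ep m) {C : Finset V} (hC : G.Circ fr F C) {j : D}
    (hj : j ∈ G.ds) (hx : G.pi j ∈ C) (hw : G.pi (G.al j) ∉ fr) {u : V} (hu : u ∈ G.hv z)
    {l : List D} (hl : G.IsW (G.sd z fr) (G.pi (G.al j)) l u) {g g' : D → ℝ}
    (hg : G.Pay z fr (G.pi (G.al j)) g) {e : D} (he : e ∈ G.sd z fr)
    (hpe : G.pi e = G.pi (G.al j)) (hg' : G.Pay z fr (G.pi (G.al e)) g')
    (hone : ∀ v ∈ G.hv z, ∀ v' ∈ G.hv z, ∀ X, G.Circ (G.hv z) (G.hd z) X → (v ∈ X ↔ v' ∈ X)) :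
    ∃ (W : Finset V) (hω : G.pi (G.al j) ∈ W) (hW : W ⊆ G.vs) (s : ℝ) (fr1 : Finset V),
      Odd W.card ∧ G.pi j ∉ W ∧ 0 ≤ s ∧ s ≤ 1 ∧ fr1 ⊆ fr \ (C ∪ W) ∧
      4 - G.val z t W + s * (∑ d ∈ G.ed W W, g d - 1) = 0 ∧
      (W = {G.pi (G.al j)} ∧ s = 1 ∨
        3 ≤ W.card ∧ G.val z t W - 3 < ∑ d ∈ G.ed W W, g d) ∧
      ∑ v ∈ G.vs, (t v + if v = G.pi j then 1 else 0) = 6 ∧
      StkU (G.con W _ hω hW) (fun d => (if d = j ∨ d = G.al j then 0 else z d) + s * g d)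
        (tcon (fun v => t v + if v = G.pi j then 1 else 0) W (G.pi (G.al j))) fr1
        (F.filter fun d => G.pi d ∈ fr1) (jm ∩ fr1) ep m fr.card := by
  have hF := h.mc.inst.fresh
  have hwt := h.mc.inst.wt
  have hxfr : G.pi j ∈ fr := hC.adm.sub hx
  have hxv := G.pi_mem j hj
  have hwv := G.pi_mem _ (G.al_mem j hj)
  have hpe' : G.pi j ≠ G.pi (G.al j) := fun he => G.noloop j hj he.symm
  have hjF : j ∉ F := fun h2 => hw (hF.Ffr _ (hF.Fal j h2))
  have hz1 : z j = 1 := hF.unit j hj hxfr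
  have hge : G.Pay z fr (G.pi e) g := by rw [hpe]; exact hg
  obtain ⟨fr0, hfr0, hst⟩ := h.kill hC hj hx hw
  have hfr0' : fr0 ⊆ fr := fun v hv => (mem_sdiff.1 (hfr0 hv)).1
  have hval : ∀ X ⊆ G.vs, _ := fun X hX => val_kill1 hwt hj hz1 (X := X) hX
  -- the payment in the killed state
  have hgj : ∀ d, d = j ∨ d = G.al j → g d = 0 := by
    rintro d (rfl | rfl)
    · exact hg.zero _ fun h1 => (mem_sd.1 h1).2.2.1 hxfr
    · exact hg.zero _ fun h1 => (mem_sd.1 h1).2.2.2 (by rw [G.al_al j hj]; exact hxfr)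
  have hgb : G.Pay (fun d => if d = j ∨ d = G.al j then 0 else z d) fr (G.pi (G.al j)) g := by
    refine ⟨hg.sym, fun d hd => ?_, hg.deg, fun d hd => ?_⟩
    · by_cases h1 : d = j ∨ d = G.al j
      · exact hgj d h1
      · refine hg.zero d fun h2 => hd ?_
        obtain ⟨h3, h4, h5, h6⟩ := mem_sd.1 h2
        exact mem_sd.2 ⟨h3, by rw [if_neg h1]; exact h4, h5, h6⟩
    · by_cases h1 : d = j ∨ d = G.al j
      · rw [if_pos h1, hgj d h1, abs_zero]
      · rw [if_neg h1]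
        exact hg.le d hd
  have hout : ∀ X ⊆ G.vs, Odd X.card → G.pi (G.al j) ∉ X → ∑ d ∈ G.ed X X, g d ≤
      G.val (fun d => if d = j ∨ d = G.al j then 0 else z d)
        (fun v => t v + if v = G.pi j ∨ v = G.pi (G.al j) then 1 else 0) X - 3 := by
    intro X hX ho hwX
    rw [hval X hX, if_neg fun h1 => hwX h1.2, add_zero]
    have h1 := h.deep he hge hg' hX ho
    rw [if_neg fun h2 => hwX (hpe ▸ h2.1), add_zero] at h1
    exact h1
  have hin : ∀ X ⊆ G.vs, Odd X.card → G.pi (G.al j) ∈ X → X ≠ {G.pi (G.al j)} →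
      4 ≤ G.val (fun d => if d = j ∨ d = G.al j then 0 else z d)
        (fun v => t v + if v = G.pi j ∨ v = G.pi (G.al j) then 1 else 0) X := by
    intro X hX ho hwX hne
    rw [hval X hX]
    by_cases hxX : G.pi j ∈ X
    · rw [if_pos ⟨hxX, hwX⟩]
      have := hwt.cut X hX ho
      linarith
    · rw [if_neg fun h1 => hxX h1.1, add_zero]
      refine h.v4w hj hxfr hw hg hX ho ?_ hwX hxX
      intro h1
      obtain ⟨v, hv⟩ := card_eq_one.1 h1
      rw [hv, mem_singleton] at hwX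
      exact hne (by rw [hv, hwX])
  -- violated sets do not contain the other end of the leg
  have hdeep : ∀ X ⊆ G.vs, Odd X.card → G.pi (G.al j) ∈ X → 1 < ∑ d ∈ G.ed X X, g d →
      (∃ s, 0 ≤ s ∧ s ≤ 1 ∧ 0 < G.rem (fun d => if d = j ∨ d = G.al j then 0 else z d)
        (fun v => t v + if v = G.pi j ∨ v = G.pi (G.al j) then 1 else 0) g X s) →
      G.pi j ∉ X ∧ G.val z t X - 3 < ∑ d ∈ G.ed X X, g d := by
    rintro X hX ho hwX hg1 ⟨s, s0, s1, hs⟩
    unfold rem at hs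
    rw [hval X hX] at hs
    have h1 : s * (∑ d ∈ G.ed X X, g d - 1) ≤ 1 * (∑ d ∈ G.ed X X, g d - 1) :=
      mul_le_mul_of_nonneg_right s1 (by linarith)
    have h2 := h.deep he hge hg' hX ho
    have h3 : (if G.pi e ∈ X ∧ G.pi (G.al e) ∈ X then (2 : ℝ) else 0) ≤ 2 := by
      split_ifs <;> norm_num
    by_cases hxX : G.pi j ∈ X
    · exfalso
      rw [if_pos ⟨hxX, hwX⟩] at hs
      linarith
    · rw [if_neg fun h1 => hxX h1.1] at hs
      exact ⟨hxX, by linarith⟩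
  obtain ⟨W, hω, hW, s, fr1, k1, k2, k3, k4, k5, k6, k7⟩ := hst.pay hgb hfr0' hwv
    (fun h1 => hw (hfr0' h1)) (by
      show 1 ≤ t (G.pi (G.al j)) + _
      rw [if_pos (Or.inr rfl)]
      have := hwt.t0 _ hwv
      linarith) hout hin (by
      intro X hX ho hwX hg1 hs d hd hdX
      obtain ⟨h1, h2⟩ := hdeep X hX ho hwX hg1 hs
      exact h.deep_F hu hj hxfr hjF hl hone hg he hpe hg' hX ho hwX h1 h2
        (mem_filter.1 hd).1 hdX)
  have hfr1 : fr1 ⊆ fr0 := fun v hv => (mem_sdiff.1 (k5 hv)).1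
  have key : G.pi j ∉ W ∧ (W = {G.pi (G.al j)} ∧ s = 1 ∨
        3 ≤ W.card ∧ G.val z t W - 3 < ∑ d ∈ G.ed W W, g d) := by
    rcases k6 with ⟨h1, h2⟩ | ⟨h1, s', h2, h3, h4⟩
    · refine ⟨?_, Or.inl ⟨h1, h2⟩⟩
      rw [h1, mem_singleton]
      exact hpe'
    · have h5 : 1 < ∑ d ∈ G.ed W W, g d := by
        by_contra h6
        have h7 : s' * (∑ d ∈ G.ed W W, g d - 1) ≤ 0 :=
          mul_nonpos_of_nonneg_of_nonpos h2 (by linarith)
        have h8 := hin W hW k1 hω fun h9 => by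
          rw [h9, card_singleton] at h1
          omega
        unfold rem at h4
        linarith
      obtain ⟨h6, h7⟩ := hdeep W hW k1 hω h5 ⟨s', h2, h3, h4⟩
      exact ⟨h6, Or.inr ⟨h1, h7⟩⟩
  refine ⟨W, hω, hW, s, fr1, k1, key.1, k2, k3, ?_, ?_, key.2, ?_, ?_⟩
  · intro v hv
    obtain ⟨h1, h2⟩ := mem_sdiff.1 (k5 hv)
    obtain ⟨h3, h4⟩ := mem_sdiff.1 (hfr0 h1)
    refine mem_sdiff.2 ⟨h3, fun h5 => ?_⟩
    rcases mem_union.1 h5 with h5 | h5
    · exact h4 h5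
    · exact h2 h5
  · unfold rem at k4
    rw [hval W hW, if_neg fun h1 => key.1 h1.1, add_zero] at k4
    exact k4
  · rw [sum_add_distrib, h.tau5, sum_ite_eq' G.vs (G.pi j) fun _ => (1 : ℝ), if_pos hxv]
    norm_num
  · have e1 : (fun v => if v = G.pi (G.al j) then
        (t v + if v = G.pi j ∨ v = G.pi (G.al j) then 1 else 0) - 1
        else t v + if v = G.pi j ∨ v = G.pi (G.al j) then 1 else 0) =
        fun v => t v + if v = G.pi j then (1 : ℝ) else 0 := by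
      funext v
      by_cases h1 : v = G.pi (G.al j)
      · rw [if_pos h1, if_pos (Or.inr h1), if_neg fun h2 => hpe' (h2.symm.trans h1)]
        ring
      · rw [if_neg h1]
        simp only [h1, or_false]
    have e2 : ((F.filter fun d => G.pi d ∈ fr0).filter fun d => G.pi d ∈ fr1) =
        F.filter fun d => G.pi d ∈ fr1 := by
      ext d
      simp only [mem_filter]
      exact ⟨fun h1 => ⟨h1.1.1, h1.2⟩, fun h1 => ⟨⟨h1.1, hfr1 h1.2⟩, h1.2⟩⟩
    have e3 : jm ∩ fr0 ∩ fr1 = jm ∩ fr1 := by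
      ext v
      simp only [mem_inter]
      exact ⟨fun h1 => ⟨h1.1.1, h1.2⟩, fun h1 => ⟨⟨h1.1, hfr1 h1.2⟩, h1.2⟩⟩
    rw [e2, e3] at k7
    have e4 := congrArg (fun f => tcon f W (G.pi (G.al j))) e1
    rw [e4] at k7
    exact k7

end MG

end RH
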