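import Pool.Agent.Lib.RH.SCap0
import Pool.Agent.Lib.RH.T5Pay
import Pool.Agent.Lib.RH.T5FourH

/-! Even sets have value at least 3 in minimal counterexamples with 5 tokens. -/

set_option autoImplicit false

namespace RH

open Finset Classical

namespace MG

variable {V D : Type*} {G : MG V D} {z z' : D → ℝ} {t t' : V → ℝ} {fr : Finset V} {F : Finset D}
variable {jm sx : Finset V} {ep : V → ℕ} {m : ℕ} {M : Finset D}

/-- pairs of value 2: the pair of a digon set -/
private theorem N5.v3_two (h : G.N5 z t fr F jm sx ep m) {Z : Finset V} (hZ : Z ⊆ G.vs)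
    (h2 : G.val z t Z = 2) (hc : Z.card = 2) (hne' : Z ≠ G.vs) (hjZ : ∀ v ∈ Z, v ∉ jm) :
    ∃ x p q, G.Dig z t fr {x, p, q} x p q ∧ Z = {p, q} := by
  have hw := h.mc.inst.wt
  have hF := h.mc.inst.fresh
  have he : Even Z.card := by rw [hc]; exact even_two
  -- the outer weight of a vertex
  have ho : ∀ b ∈ Z, ∑ d ∈ G.ed {b} (G.vs \ Z), z d + t b = 1 := by
    intro b hb
    have h3 := hw.val_erase hZ hb
    have h4 : (Z.erase b).card = 1 := by
      rw [card_erase_of_mem hb, hc]
    obtain ⟨b', hb'⟩ := card_eq_one.1 h4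
    have h5 : b' ∈ Z.erase b := by
      rw [hb']
      exact mem_singleton_self b'
    rw [hb', hw.val_single (hZ (mem_erase.1 h5).2), h2] at h3
    linarith
  by_cases hi : ∃ c ∈ G.vs, c ∉ Z ∧ 1 ≤ ∑ d ∈ G.ed Z {c}, z d
  · -- a digon set
    obtain ⟨c, hcv, hcZ, hs⟩ := hi
    have hd1 : Disjoint Z {c} := disjoint_singleton_right.2 hcZ
    have h5 : (Z ∪ {c}).card = Z.card + 1 := by
      rw [card_union_of_disjoint hd1, card_singleton]
    rcases h.v4D (X := Z ∪ {c}) (union_subset hZ (singleton_subset_iff.2 hcv))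
      (by rw [h5]; exact he.add_one) (by omega) with h6 | ⟨x, p, q, hd⟩
    · rw [hw.val_insert hZ hcv hcZ, h2] at h6
      linarith
    · have hxc : x = c := by
        by_contra hne
        have hxW : x ∈ Z ∪ {c} := by
          rw [hd.W]
          exact mem_insert_self _ _
        have hxZ : x ∈ Z := by
          rcases mem_union.1 hxW with h6 | h6
          · exact h6
          · exact absurd (mem_singleton.1 h6) hne
        -- the two F-darts leave
        have h6 : (F.filter fun d => G.pi d = x) ⊆ G.ed {x} (G.vs \ Z) := by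
          intro d hd'
          obtain ⟨h7, h8⟩ := mem_filter.1 hd'
          have h9 := hF.Fsub h7
          refine mem_ed.2 ⟨h9, mem_singleton.2 h8, mem_sdiff.2
            ⟨G.pi_mem _ (G.al_mem d h9), fun h10 => ?_⟩⟩
          have h11 : G.pi (G.al d) ∈ Z ∪ {c} := mem_union_left _ h10
          have h12 := hF.Ffr _ (hF.Fal d h7)
          rw [hd.W, mem_insert, mem_insert, mem_singleton] at h11
          rcases h11 with h13 | h13 | h13
          · exact G.noloop d h9 (h13.trans h8.symm)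
          · exact hd.pf (h13 ▸ h12)
          · exact hd.qf (h13 ▸ h12)
        have h7 : ∑ d ∈ F.filter (fun d => G.pi d = x), z d = 2 := by
          have h8 : ∑ d ∈ F.filter (fun d => G.pi d = x), z d =
              ∑ _d ∈ F.filter (fun d => G.pi d = x), (1 : ℝ) :=
            sum_congr rfl fun d hd' => hF.unit d (hF.Fsub (mem_filter.1 hd').1)
              ((mem_filter.1 hd').2 ▸ hd.xf)
          rw [h8, sum_const, hF.two x hd.xf]
          norm_num
        have h8 : ∑ d ∈ F.filter (fun d => G.pi d = x), z d ≤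
            ∑ d ∈ G.ed {x} (G.vs \ Z), z d :=
          sum_le_sum_of_subset_of_nonneg h6 fun d hd' _ => hw.z0 d (mem_ed.1 hd').1
        have h9 := ho x hxZ
        have h10 := hw.t0 x (hZ hxZ)
        linarith
      refine ⟨x, p, q, ?_, ?_⟩
      · have h6 := hd
        rw [hd.W] at h6
        exact h6
      · ext v
        have hW := hd.W
        constructor
        · intro hv
          have h6 : v ∈ Z ∪ {c} := mem_union_left _ hv
          rw [hW, mem_insert] at h6
          rcases h6 with h7 | h7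
          · exact absurd hv (by rw [h7, hxc]; exact hcZ)
          · exact h7
        · intro hv
          have h6 : v ∈ ({x, p, q} : Finset V) := mem_insert_of_mem hv
          rw [← hW, mem_union, mem_singleton] at h6
          rcases h6 with h7 | h7
          · exact h7
          · exfalso
            rw [mem_insert, mem_singleton] at hv
            have hxf := hd.xf
            rw [hxc, ← h7] at hxf
            rcases hv with h8 | h8
            · exact hd.pf (h8 ▸ hxf)
            · exact hd.qf (h8 ▸ hxf)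
  · exfalso
    push Not at hi
    -- leaving darts are half darts
    have hlt : ∀ d ∈ G.bd Z, z d < 1 := by
      intro d hd
      obtain ⟨h5, h6, h7⟩ := mem_bd.1 hd
      refine lt_of_le_of_lt (single_le_sum (f := z) (s := G.ed Z {G.pi (G.al d)})
        (fun e he => hw.z0 e (mem_ed.1 he).1) (mem_ed.2 ⟨h5, h6, mem_singleton_self _⟩))
        (hi _ (G.pi_mem _ (G.al_mem d h5)) h7)
    have hhd : ∀ d ∈ G.bd Z, z d ≠ 0 → d ∈ G.hd z := by
      intro d hd h0
      obtain ⟨h5, h6, h7⟩ := mem_bd.1 hd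
      refine mem_hd.2 ⟨h5, fun ⟨k, hk⟩ => ?_⟩
      have h8 := hlt d hd
      have h9 := h.z_half h5 h0
      rw [hk] at h8 h9
      have h10 : k < 1 := by exact_mod_cast h8
      have h11 : (0 : ℝ) < k := by linarith
      have h12 : 0 < k := by exact_mod_cast h11
      omega
    have hnf : ∀ b ∈ Z, b ∉ fr := by
      intro b hb hbf
      have h5 : ∑ d ∈ G.ed {b} (G.vs \ Z), z d = 0 := by
        refine sum_eq_zero fun d hd => ?_
        obtain ⟨h6, h7, h8⟩ := mem_ed.1 hd
        rw [mem_singleton] at h7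
        have h9 := hlt d (mem_bd.2 ⟨h6, by rw [h7]; exact hb, (mem_sdiff.1 h8).2⟩)
        rw [hF.unit d h6 (by rw [h7]; exact hbf)] at h9
        exact absurd h9 (lt_irrefl _)
      have h6 := ho b hb
      rw [h5, hF.t_not_jm hw hbf (hjZ b hb)] at h6
      norm_num at h6
    -- two leaving half darts at a vertex with a leaving dart
    have htwo : ∀ b ∈ Z, t b = 0 → ∃ d1 d2, d1 ≠ d2 ∧ (d1 ∈ G.hd z ∧ G.pi d1 = b ∧
        G.pi (G.al d1) ∉ Z) ∧ d2 ∈ G.hd z ∧ G.pi d2 = b ∧ G.pi (G.al d2) ∉ Z := by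
      intro b hb htb
      have h5 := ho b hb
      rw [htb, add_zero] at h5
      have hmem : ∀ d ∈ G.ed {b} (G.vs \ Z), z d ≠ 0 → d ∈ G.hd z ∧ G.pi d = b ∧
          G.pi (G.al d) ∉ Z := by
        intro d hd h0
        obtain ⟨h6, h7, h8⟩ := mem_ed.1 hd
        rw [mem_singleton] at h7
        exact ⟨hhd d (mem_bd.2 ⟨h6, by rw [h7]; exact hb, (mem_sdiff.1 h8).2⟩) h0, h7,
          (mem_sdiff.1 h8).2⟩
      have hne1 : ∑ d ∈ G.ed {b} (G.vs \ Z), z d ≠ 0 := by
        rw [h5]
        exact one_ne_zero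
      obtain ⟨d1, hd1, hz1⟩ := exists_ne_zero_of_sum_ne_zero hne1
      have h6 := add_sum_erase (G.ed {b} (G.vs \ Z)) z hd1
      have h7 : z d1 < 1 := by
        obtain ⟨k1, k2, k3⟩ := mem_ed.1 hd1
        rw [mem_singleton] at k2
        exact hlt d1 (mem_bd.2 ⟨k1, by rw [k2]; exact hb, (mem_sdiff.1 k3).2⟩)
      have hne2 : ∑ d ∈ (G.ed {b} (G.vs \ Z)).erase d1, z d ≠ 0 := by
        intro h8
        rw [h8, h5] at h6
        linarith
      obtain ⟨d2, hd2, hz2⟩ := exists_ne_zero_of_sum_ne_zero hne2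
      obtain ⟨h8, h9⟩ := mem_erase.1 hd2
      exact ⟨d1, d2, Ne.symm h8, hmem d1 hd1 hz1, hmem d2 h9 hz2⟩
    obtain ⟨d0, hd0, hz0⟩ := h.mc.conn hZ (card_pos.1 (by rw [hc]; norm_num)) hne'
    obtain ⟨g1, g2, g3⟩ := mem_bd.1 hd0
    obtain ⟨b1, hb1⟩ : ∃ b1, b1 = G.pi d0 := ⟨_, rfl⟩
    rw [← hb1] at g2
    have hb1hv : b1 ∈ G.hv z := mem_hv.2 ⟨d0, hhd d0 hd0 hz0, hb1.symm⟩
    have htok01 : ∀ b ∈ Z, t b = 0 ∨ 1 ≤ t b := by
      intro b hb
      obtain ⟨k, hk⟩ := h.tint (hZ hb)
      rw [hk]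
      rcases Nat.eq_zero_or_pos k with h5 | h5
      · left
        rw [h5]
        norm_num
      · right
        exact_mod_cast h5
    have ht1 : t b1 = 0 := by
      rcases htok01 b1 g2 with h5 | h5
      · exact h5
      · exfalso
        have h6 := ho b1 g2
        have h7 : z d0 ≤ ∑ d ∈ G.ed {b1} (G.vs \ Z), z d :=
          single_le_sum (fun e he => hw.z0 e (mem_ed.1 he).1)
            (mem_ed.2 ⟨g1, mem_singleton.2 hb1.symm,
              mem_sdiff.2 ⟨G.pi_mem _ (G.al_mem d0 g1), g3⟩⟩)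
        have h8 := h.z_half g1 hz0
        linarith
    -- the inner edge
    obtain ⟨e, he1, he2, he3, he4⟩ : ∃ e ∈ G.ds, G.pi e = b1 ∧ G.pi (G.al e) ∈ Z ∧ z e ≠ 0 := by
      by_contra hcon
      push Not at hcon
      have h5 := hw.deg b1 (hZ g2)
      have h6 : ∑ d ∈ G.st b1, z d ≤ ∑ d ∈ G.ed {b1} (G.vs \ Z), z d := by
        rw [← sum_filter_add_sum_filter_not (G.st b1) (fun d => G.pi (G.al d) ∈ Z)]
        have h7 : ∑ d ∈ (G.st b1).filter (fun d => G.pi (G.al d) ∈ Z), z d = 0 := by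
          refine sum_eq_zero fun d hd => ?_
          obtain ⟨h8, h9⟩ := mem_filter.1 hd
          obtain ⟨h10, h11⟩ := mem_st.1 h8
          exact hcon d h10 h11 h9
        rw [h7, zero_add]
        refine sum_le_sum_of_subset_of_nonneg ?_ fun d hd _ => hw.z0 d (mem_ed.1 hd).1
        intro d hd
        obtain ⟨h8, h9⟩ := mem_filter.1 hd
        obtain ⟨h10, h11⟩ := mem_st.1 h8
        exact mem_ed.2 ⟨h10, mem_singleton.2 h11,
          mem_sdiff.2 ⟨G.pi_mem _ (G.al_mem d h10), h9⟩⟩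
      have h7 := ho b1 g2
      rw [ht1] at h5 h7
      linarith
    have hsd : e ∈ G.sd z fr := mem_sd.2 ⟨he1, he4, by rw [he2]; exact hnf b1 g2, hnf _ he3⟩
    have hsy := hw.sy_sd fr
    have ht2 : t (G.pi (G.al e)) = 0 := by
      have hl : G.IsW (G.sd z fr) (G.pi (G.al e)) [G.al e] b1 := by
        refine ⟨hsy.al _ hsd, rfl, ?_⟩
        rw [G.al_al e he1]
        exact he2
      exact h.no_tok (hZ he3) hb1hv hl
    obtain ⟨a1, a2, ha12, ⟨ha1, ha1p, ha1o⟩, ha2, ha2p, ha2o⟩ := htwo b1 g2 ht1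
    obtain ⟨c1, -, -, ⟨hc1, hc1p, -⟩, -, -, -⟩ := htwo _ he3 ht2
    -- the inner edge is integral
    have hehd : e ∉ G.hd z := by
      intro hh
      have h5 := h.hd_two hh
      have h6 : ({e, a1, a2} : Finset D) ⊆ (G.hd z).filter fun d => G.pi d = G.pi e := by
        intro d hd
        rw [mem_insert, mem_insert, mem_singleton] at hd
        rcases hd with h7 | h7 | h7
        · rw [h7]
          exact mem_filter.2 ⟨hh, rfl⟩
        · rw [h7]
          exact mem_filter.2 ⟨ha1, ha1p.trans he2.symm⟩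
        · rw [h7]
          exact mem_filter.2 ⟨ha2, ha2p.trans he2.symm⟩
      have h7 : ({e, a1, a2} : Finset D).card = 3 := by
        rw [card_insert_of_notMem, card_pair ha12]
        rw [mem_insert, mem_singleton, not_or]
        exact ⟨fun k => ha1o (by rw [← k]; exact he3), fun k => ha2o (by rw [← k]; exact he3)⟩
      have h8 := card_le_card h6
      omega
    obtain ⟨C1, k1, k2, -⟩ := h.exists_hcirc hb1hv
    obtain ⟨C2, l1, l2, -⟩ := h.exists_hcirc (mem_hv.2 ⟨c1, hc1, hc1p⟩)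
    obtain ⟨u1, hu1, hu2, -⟩ := h.exists_payH k2 k1
    obtain ⟨u2, hu3, hu4, -⟩ := h.exists_payH l2 l1
    have h5 := h.pay_nbr hsd (he2 ▸ hu1) hu3 e he1
    rw [if_pos (Or.inl rfl)] at h5
    have h6 : u1 e = 0 := by
      by_contra h7
      exact hehd (hu2 e h7).1
    have h7 : u2 e = 0 := by
      by_contra h8
      exact hehd (hu4 e h8).1
    rw [h6, h7] at h5
    norm_num at h5

/-- (E3): a nonempty proper even set without star vertices has value at least 3, or it is the pair of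
a digon set. `hfour` = no four-half set (`no_four_odd`, `no_four_even`). -/
theorem N5.v3 (h : G.N5 z t fr F jm sx ep m)
    (hfour : ∀ Z ⊆ G.vs, Even Z.card → G.val z t Z = 2 → 4 ≤ Z.card → 4 ≤ (G.vs \ Z).card →
      (∀ v ∈ Z, v ∉ jm) → ¬ ∀ d ∈ G.bd Z, z d ≠ 0 → z d = 1 / 2)
    {Z : Finset V} (hZ : Z ⊆ G.vs) (he : Even Z.card) (hne : Z.Nonempty) (hne' : Z ≠ G.vs)
    (hjZ : ∀ v ∈ Z, v ∉ jm) :
    3 ≤ G.val z t Z ∨ ∃ x p q, G.Dig z t fr {x, p, q} x p q ∧ Z = {p, q} := by
  have hv2 := h.v2 hZ he hne hne'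
  obtain ⟨k, hk⟩ := h.val_int hZ
  by_cases h3 : 3 ≤ G.val z t Z
  · exact Or.inl h3
  right
  have h2 : G.val z t Z = 2 := by
    rw [hk] at hv2 h3 ⊢
    have h4 : 2 ≤ k := by exact_mod_cast hv2
    have h5 : ¬ 3 ≤ k := fun h6 => h3 (by exact_mod_cast h6)
    have h6 : k = 2 := by omega
    rw [h6]
    norm_num
  by_cases hc : Z.card = 2
  · exact h.v3_two hZ h2 hc hne' hjZ
  · exfalso
    have hc4 : 4 ≤ Z.card := by
      have h4 : 0 < Z.card := card_pos.2 hne
      rw [Nat.even_iff] at he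
      omega
    obtain ⟨a1, a2, a3, a4, a5⟩ := h.four_half0 hZ he h2 hc4 hjZ
    by_cases hc' : 4 ≤ (G.vs \ Z).card
    · exact hfour Z hZ he h2 hc4 hc' hjZ a1
    · -- four different outer ends
      have h4 : ((G.bd Z).filter fun d => z d ≠ 0).card ≤ (G.vs \ Z).card := by
        refine card_le_card_of_injOn (fun d => G.pi (G.al d)) ?_ ?_
        · intro d hd
          obtain ⟨h5, -⟩ := mem_filter.1 (mem_coe.1 hd)
          obtain ⟨h6, -, h8⟩ := mem_bd.1 h5
          exact mem_coe.2 (mem_sdiff.2 ⟨G.pi_mem _ (G.al_mem d h6), h8⟩)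
        · intro d hd d' hd' hp
          obtain ⟨h5, h6⟩ := mem_filter.1 (mem_coe.1 hd)
          obtain ⟨h7, h8⟩ := mem_filter.1 (mem_coe.1 hd')
          exact a5 d h5 d' h7 h6 h8 hp
      omega

end MG

end RH
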