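import Pool.Agent.Lib.RH.TLPm

/-! # The nodes of an instance without star (block TL)

`A` = contracted vertices (outside `fr`), it becomes the node `∅`. All other nodes are the odd
circuits and the pairs of `NN`: `NN` contains a perfect matching of every even circuit and of the
vertices outside `fr` and `A`. Legs: the other darts of the support with an end outside `A`. -/

set_option autoImplicit false

namespace RH

open Finset Classical

namespace MG

variable {V D : Type*}

/-- the circuit of a vertex -/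
noncomputable def cv (G : MG V D) (fr : Finset V) (F : Finset D) (v : V) : Finset V :=
  if h : ∃ C, G.Circ fr F C ∧ v ∈ C then h.choose else ∅

/-- the node of a vertex -/
noncomputable def bk (G : MG V D) (fr : Finset V) (F : Finset D) (A : Finset V) (NN : Finset D)
    (v : V) : Finset V :=
  if v ∈ G.vs \ A then
    if (NN.filter fun d => G.pi d = v).Nonempty then
      insert v ((NN.filter fun d => G.pi d = v).image fun d => G.pi (G.al d))
    else G.cv fr F v
  else ∅

/-- the legs -/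
noncomputable def ld (G : MG V D) (z : D → ℝ) (A : Finset V) (NN : Finset D) : Finset D :=
  G.ds.filter fun d => d ∉ NN ∧ z d ≠ 0 ∧ (G.pi d ∉ A ∨ G.pi (G.al d) ∉ A)

/-- all nodes -/
noncomputable def bks (G : MG V D) (fr : Finset V) (F : Finset D) (A : Finset V) (NN : Finset D) :
    Finset (Finset V) :=
  insert ∅ ((G.vs \ A).image (G.bk fr F A NN))

/-- pair nodes -/
noncomputable def bkp (G : MG V D) (fr : Finset V) (F : Finset D) (A : Finset V) (NN : Finset D) :
    Finset (Finset V) :=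
  ((G.vs \ A).image (G.bk fr F A NN)).filter fun S => Even S.card

/-- odd circuits -/
noncomputable def bko (G : MG V D) (fr : Finset V) (F : Finset D) (A : Finset V) (NN : Finset D) :
    Finset (Finset V) :=
  ((G.vs \ A).image (G.bk fr F A NN)).filter fun S => Odd S.card

variable {G : MG V D} {z : D → ℝ} {t : V → ℝ} {fr : Finset V} {F NN : Finset D} {A : Finset V}

/-- every fresh vertex lies on a circuit -/
theorem FrS.circ_ex (hF : G.FrS z fr F ∅) {v : V} (hv : v ∈ fr) :
    ∃ C, G.Circ fr F C ∧ v ∈ C :=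
  hF.exists_circ' hv

theorem cv_eq (hF : G.FrS z fr F ∅) {C : Finset V} (hC : G.Circ fr F C) {v : V} (h : v ∈ C) :
    G.cv fr F v = C := by
  have h1 : ∃ C, G.Circ fr F C ∧ v ∈ C := ⟨C, hC, h⟩
  unfold cv
  rw [dif_pos h1]
  exact h1.choose_spec.1.eq_of_mem hF hC h1.choose_spec.2 h

theorem bk_of_not {v : V} (hv : v ∉ G.vs \ A) : G.bk fr F A NN v = ∅ := by
  unfold bk
  rw [if_neg hv]

/-- the matching dart of a vertex is unique -/
theorem PmE.uniq (hF : G.FrS z fr F ∅) (hN : G.PmE z t fr F A NN) {n n' : D} (hn : n ∈ NN)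
    (hn' : n' ∈ NN) (h : G.pi n = G.pi n') : n = n' := by
  have hc : (NN.filter fun d => G.pi d = G.pi n).card = 1 := by
    by_cases hf : G.pi n ∈ fr
    · obtain ⟨C, hC, hv⟩ := hF.circ_ex hf
      rcases Nat.even_or_odd C.card with he | ho
      · exact hN.one C hC he _ hv
      · exact absurd hv (hN.odd C hC ho n hn)
    · exact hN.out _ (G.pi_mem n (hN.sub hn)) hf (hN.outA n hn)
  obtain ⟨a, ha⟩ := card_eq_one.1 hc
  have h1 : n ∈ NN.filter fun d => G.pi d = G.pi n := mem_filter.2 ⟨hn, rfl⟩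
  have h2 : n' ∈ NN.filter fun d => G.pi d = G.pi n := mem_filter.2 ⟨hn', h.symm⟩
  rw [ha, mem_singleton] at h1 h2
  rw [h1, h2]

/-- pairs -/
theorem PmE.bk_pair (hF : G.FrS z fr F ∅) (hN : G.PmE z t fr F A NN) {n : D} (hn : n ∈ NN) :
    G.bk fr F A NN (G.pi n) = {G.pi n, G.pi (G.al n)} := by
  have h1 : G.pi n ∈ G.vs \ A := mem_sdiff.2 ⟨G.pi_mem n (hN.sub hn), hN.outA n hn⟩
  have h2 : (NN.filter fun d => G.pi d = G.pi n) = {n} := by
    ext d
    rw [mem_filter, mem_singleton]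
    constructor
    · rintro ⟨h3, h4⟩
      exact hN.uniq hF h3 hn h4
    · rintro rfl
      exact ⟨hn, rfl⟩
  unfold bk
  rw [if_pos h1, h2, if_pos (singleton_nonempty n), image_singleton]

/-- the node of a vertex of an odd circuit -/
theorem PmE.bk_odd (hF : G.FrS z fr F ∅) (hN : G.PmE z t fr F A NN) {C : Finset V}
    (hC : G.Circ fr F C) (ho : Odd C.card) {v : V} (h : v ∈ C) : G.bk fr F A NN v = C := by
  have hv : v ∈ fr := hC.adm.sub h
  have h1 : v ∈ G.vs \ A :=
    mem_sdiff.2 ⟨hF.fsub hv, fun h2 => disjoint_left.1 hN.Afr h2 hv⟩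
  have h2 : ¬ (NN.filter fun d => G.pi d = v).Nonempty := by
    rintro ⟨d, hd⟩
    obtain ⟨h3, h4⟩ := mem_filter.1 hd
    exact hN.odd C hC ho d h3 (by rw [h4]; exact h)
  unfold bk
  rw [if_pos h1, if_neg h2]
  exact cv_eq hF hC h

/-- a vertex outside `A` lies in a pair or on an odd circuit -/
theorem PmE.cases (hF : G.FrS z fr F ∅) (hN : G.PmE z t fr F A NN) {v : V} (hv : v ∈ G.vs \ A) :
    (∃ n ∈ NN, G.pi n = v) ∨ ∃ C, G.Circ fr F C ∧ Odd C.card ∧ v ∈ C := by
  obtain ⟨h1, h2⟩ := mem_sdiff.1 hv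
  have h0 : (NN.filter fun d => G.pi d = v).card = 1 → ∃ n ∈ NN, G.pi n = v := by
    intro hc
    obtain ⟨a, ha⟩ := card_eq_one.1 hc
    have h3 : a ∈ NN.filter fun d => G.pi d = v := by
      rw [ha]
      exact mem_singleton_self a
    exact ⟨a, (mem_filter.1 h3).1, (mem_filter.1 h3).2⟩
  by_cases hf : v ∈ fr
  · obtain ⟨C, hC, hvC⟩ := hF.circ_ex hf
    rcases Nat.even_or_odd C.card with he | ho
    · exact Or.inl (h0 (hN.one C hC he v hvC))
    · exact Or.inr ⟨C, hC, ho, hvC⟩
  · exact Or.inl (h0 (hN.out v h1 hf h2))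

theorem PmE.mem_bk (hF : G.FrS z fr F ∅) (hN : G.PmE z t fr F A NN) {v : V} (hv : v ∈ G.vs \ A) :
    v ∈ G.bk fr F A NN v := by
  rcases hN.cases hF hv with ⟨n, hn, rfl⟩ | ⟨C, hC, ho, hvC⟩
  · rw [hN.bk_pair hF hn]
    exact mem_insert_self _ _
  · rw [hN.bk_odd hF hC ho hvC]
    exact hvC

/-- vertices in one node have the same node -/
theorem PmE.bk_of_mem (hF : G.FrS z fr F ∅) (hN : G.PmE z t fr F A NN) {u v : V}
    (hv : v ∈ G.vs \ A) (hu : u ∈ G.bk fr F A NN v) : G.bk fr F A NN u = G.bk fr F A NN v := by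
  rcases hN.cases hF hv with ⟨n, hn, rfl⟩ | ⟨C, hC, ho, hvC⟩
  · rw [hN.bk_pair hF hn, mem_insert, mem_singleton] at hu
    rcases hu with rfl | rfl
    · rfl
    · rw [hN.bk_pair hF (hN.al n hn), hN.bk_pair hF hn, G.al_al n (hN.sub hn)]
      exact pair_comm _ _
  · rw [hN.bk_odd hF hC ho hvC] at hu
    rw [hN.bk_odd hF hC ho hu, hN.bk_odd hF hC ho hvC]

/-- nodes are the classes of the map `bk` -/
theorem PmE.bk_eq_iff (hF : G.FrS z fr F ∅) (hN : G.PmE z t fr F A NN) {u v : V}
    (hv : v ∈ G.vs \ A) : G.bk fr F A NN u = G.bk fr F A NN v ↔ u ∈ G.bk fr F A NN v := by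
  constructor
  · intro h
    by_cases hu : u ∈ G.vs \ A
    · rw [← h]
      exact hN.mem_bk hF hu
    · rw [bk_of_not hu] at h
      have h1 := hN.mem_bk hF hv
      rw [← h] at h1
      exact absurd h1 (notMem_empty v)
  · exact hN.bk_of_mem hF hv

/-- nodes of fresh vertices lie inside circuits -/
theorem PmE.bk_sub (hF : G.FrS z fr F ∅) (hN : G.PmE z t fr F A NN) {C : Finset V}
    (hC : G.Circ fr F C) {v : V} (h : v ∈ C) : G.bk fr F A NN v ⊆ C := by
  have hv : v ∈ fr := hC.adm.sub h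
  have h1 : v ∈ G.vs \ A :=
    mem_sdiff.2 ⟨hF.fsub hv, fun h2 => disjoint_left.1 hN.Afr h2 hv⟩
  rcases hN.cases hF h1 with ⟨n, hn, rfl⟩ | ⟨C', hC', ho, hvC⟩
  · rw [hN.bk_pair hF hn]
    intro u hu
    rw [mem_insert, mem_singleton] at hu
    rcases hu with rfl | rfl
    · exact h
    · exact hC.adm.clo n (hN.nF n hn hv) h
  · rw [hN.bk_odd hF hC' ho hvC, hC'.eq_of_mem hF hC hvC h]

end MG

end RH
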