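import Pool.Agent.Lib.RH.TLNode

/-! # The new weights of a chain (block TL) -/

set_option autoImplicit false

namespace RH

open Finset Classical

namespace MG

variable {V D : Type*}

/-- the data of a chain in an instance without star -/
structure Trl (G : MG V D) (z : D → ℝ) (t : V → ℝ) (fr : Finset V) (F : Finset D) (A : Finset V)
    (NN : Finset D) (al : D → D) (ns : Finset (Finset V)) (P : Finset D) (w x : D) (lam : ℕ) :
    Prop where
  hF : G.FrS z fr F ∅
  hw : G.Wt z t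
  hN : G.PmE z t fr F A NN
  out : TL.Out G.al (G.ld z A NN) G.pi (G.bk fr F A NN) (G.bkp fr F A NN) (G.bks fr F A NN)
    al ns P w x
  rq : TL.Rq al (TL.rd (G.ld z A NN) G.pi (G.bk fr F A NN) ns) (TL.nn G.pi (G.bk fr F A NN)) ns
    {∅} (G.bko fr F A NN) lam
  wA : G.pi w ∈ A
  xC : ∃ C, G.Circ fr F C ∧ Odd C.card ∧ G.pi x ∈ C

/-- new weights: 0 on the killed darts, matching edges are raised once for every pass -/
noncomputable def trz (G : MG V D) (z : D → ℝ) (NN P : Finset D) (d : D) : ℝ :=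
  if d ∈ P then 0 else if d ∈ NN then z d + ((P.filter fun e => G.pi e = G.pi d).card : ℝ)
  else z d

/-- new tokens: one at each end of the chain -/
noncomputable def trt (G : MG V D) (t : V → ℝ) (w x : D) (v : V) : ℝ :=
  t v + (if v = G.pi w then 1 else 0) + (if v = G.pi x then 1 else 0)

variable {G : MG V D} {z : D → ℝ} {t : V → ℝ} {fr : Finset V} {F NN P : Finset D} {A : Finset V}
variable {al : D → D} {ns : Finset (Finset V)} {w x : D} {lam : ℕ}

namespace Trl

private theorem memP (h : G.Trl z t fr F A NN al ns P w x lam) {d : D} (hd : d ∈ P) :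
    d ∈ G.ds ∧ d ∉ NN ∧ z d ≠ 0 ∧ (G.pi d ∉ A ∨ G.pi (G.al d) ∉ A) :=
  mem_filter.1 (h.out.Psub hd)

private theorem zP (h : G.Trl z t fr F A NN al ns P w x lam) {d : D} (hd : d ∈ P) : z d = 1 := by
  obtain ⟨h1, -, h3, h4⟩ := h.memP hd
  rcases h4 with h4 | h4
  · rcases h.hN.z01 d h1 h4 with h5 | h5
    · exact absurd h5 h3
    · exact h5
  · rw [← h.hw.sym d h1] at h3 ⊢
    rcases h.hN.z01 _ (G.al_mem d h1) h4 with h5 | h5
    · exact absurd h5 h3
    · exact h5

private theorem memN (h : G.Trl z t fr F A NN al ns P w x lam) {d : D} (hd : d ∈ NN) :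
    G.pi d ∈ G.vs \ A :=
  mem_sdiff.2 ⟨G.pi_mem d (h.hN.sub hd), h.hN.outA d hd⟩

private theorem bk_al (h : G.Trl z t fr F A NN al ns P w x lam) {d : D} (hd : d ∈ NN) :
    G.bk fr F A NN (G.pi (G.al d)) = G.bk fr F A NN (G.pi d) := by
  rw [h.hN.bk_pair h.hF hd, h.hN.bk_pair h.hF (h.hN.al d hd), G.al_al d (h.hN.sub hd)]
  exact Finset.pair_comm _ _

private theorem bk_PN (h : G.Trl z t fr F A NN al ns P w x lam) {d : D} (hd : d ∈ NN) :
    G.bk fr F A NN (G.pi d) ∈ G.bkp fr F A NN := by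
  refine mem_filter.2 ⟨mem_image_of_mem _ (h.memN hd), ?_⟩
  rw [h.hN.bk_pair h.hF hd, card_pair (fun he => G.noloop d (h.hN.sub hd) he.symm)]
  exact even_two

/-- the node of a vertex of `A` or of an odd circuit is never split -/
private theorem A_ns (h : G.Trl z t fr F A NN al ns P w x lam) : (∅ : Finset V) ∈ ns := by
  refine h.out.ter _ (mem_insert_self _ _) fun h1 => ?_
  obtain ⟨v, hv, he⟩ := mem_image.1 (mem_filter.1 h1).1
  have h2 := h.hN.mem_bk h.hF hv
  rw [he] at h2
  exact notMem_empty _ h2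

private theorem odd_ns (h : G.Trl z t fr F A NN al ns P w x lam) {C : Finset V}
    (hC : G.Circ fr F C) (ho : Odd C.card) {v : V} (hv : v ∈ C) : C ∈ ns := by
  have hvA : v ∈ G.vs \ A := mem_sdiff.2 ⟨h.hF.fsub (hC.adm.sub hv),
    fun hA => disjoint_left.1 h.hN.Afr hA (hC.adm.sub hv)⟩
  have h1 := h.hN.bk_odd h.hF hC ho hv
  refine h.out.ter _ (mem_insert_of_mem ?_) fun h2 => ?_
  · rw [← h1]
    exact mem_image_of_mem _ hvA
  · exact (Nat.not_even_iff_odd.2 ho) (mem_filter.1 h2).2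

private theorem xC' (h : G.Trl z t fr F A NN al ns P w x lam) : G.pi x ∈ fr := by
  obtain ⟨C, hC, -, hx⟩ := h.xC
  exact hC.adm.sub hx

private theorem xA (h : G.Trl z t fr F A NN al ns P w x lam) : G.pi x ∉ A :=
  fun hA => disjoint_left.1 h.hN.Afr hA h.xC'

private theorem one_NN (h : G.Trl z t fr F A NN al ns P w x lam) {n : D} (hn : n ∈ NN) :
    (NN.filter fun d => G.pi d = G.pi n) = {n} := by
  have h1 : (NN.filter fun d => G.pi d = G.pi n).card = 1 := by
    by_cases hf : G.pi n ∈ fr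
    · obtain ⟨C, hC, hv⟩ := h.hF.exists_circ' hf
      rcases Nat.even_or_odd C.card with he | ho
      · exact h.hN.one C hC he _ hv
      · exact absurd hv (h.hN.odd C hC ho n hn)
    · exact h.hN.out _ (G.pi_mem n (h.hN.sub hn)) hf (h.hN.outA n hn)
  obtain ⟨a, ha⟩ := card_eq_one.1 h1
  have h2 : n ∈ NN.filter fun d => G.pi d = G.pi n := mem_filter.2 ⟨hn, rfl⟩
  rw [ha] at h2 ⊢
  rw [mem_singleton.1 h2]

theorem trz0 (h : G.Trl z t fr F A NN al ns P w x lam) {d : D} (hd : d ∈ G.ds) :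
    0 ≤ G.trz z NN P d := by
  unfold trz
  have h1 := h.hw.z0 d hd
  split_ifs
  · exact le_rfl
  · positivity
  · exact h1

theorem trt0 (h : G.Trl z t fr F A NN al ns P w x lam) {v : V} (hv : v ∈ G.vs) :
    0 ≤ G.trt t w x v := by
  unfold trt
  have h1 := h.hw.t0 v hv
  have h2 : (0 : ℝ) ≤ (if v = G.pi w then 1 else 0) := by split_ifs <;> norm_num
  have h3 : (0 : ℝ) ≤ (if v = G.pi x then 1 else 0) := by split_ifs <;> norm_num
  linarith

theorem supp (h : G.Trl z t fr F A NN al ns P w x lam) {d : D} (hd : d ∈ G.ds)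
    (h0 : 0 < G.trz z NN P d) : 0 < z d := by
  unfold trz at h0
  split_ifs at h0 with h1 h2
  · exact absurd h0 (lt_irrefl _)
  · rw [h.hN.zN d h2]
    exact one_pos
  · exact h0

theorem sym (h : G.Trl z t fr F A NN al ns P w x lam) {d : D} (hd : d ∈ G.ds) :
    G.trz z NN P (G.al d) = G.trz z NN P d := by
  have hP : G.al d ∈ P ↔ d ∈ P :=
    ⟨fun h1 => by have := h.out.Pal _ h1; rwa [G.al_al d hd] at this, fun h1 => h.out.Pal _ h1⟩
  have hN : G.al d ∈ NN ↔ d ∈ NN :=
    ⟨fun h1 => by have := h.hN.al _ h1; rwa [G.al_al d hd] at this, fun h1 => h.hN.al _ h1⟩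
  unfold trz
  by_cases h1 : d ∈ P
  · rw [if_pos h1, if_pos (hP.2 h1)]
  rw [if_neg h1, if_neg (fun h2 => h1 (hP.1 h2))]
  by_cases h2 : d ∈ NN
  · rw [if_pos h2, if_pos (hN.2 h2), h.hw.sym d hd,
      h.out.eqn (G.pi (G.al d)) (G.pi d) (h.bk_al h2) (by rw [h.bk_al h2]; exact h.bk_PN h2)]
  · rw [if_neg h2, if_neg (fun h3 => h2 (hN.1 h3)), h.hw.sym d hd]

theorem deg (h : G.Trl z t fr F A NN al ns P w x lam) {v : V} (hv : v ∈ G.vs) :
    ∑ d ∈ G.st v, G.trz z NN P d + G.trt t w x v = 3 := by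
  have hsp : ∀ (S : Finset D), (∀ d ∈ S, d ∉ NN) → ∑ d ∈ S, G.trz z NN P d =
      ∑ d ∈ S, z d - ∑ d ∈ S.filter (fun d => d ∈ P), z d := by
    intro S hS
    rw [sum_filter, ← sum_sub_distrib]
    refine sum_congr rfl fun d hd => ?_
    unfold trz
    rw [if_neg (hS d hd)]
    split_ifs <;> ring
  have hdeg := h.hw.deg v hv
  unfold trt
  by_cases hA : v ∈ A
  · have h1 : v ≠ G.pi x := fun he => h.xA (he ▸ hA)
    have h2 : ∀ d ∈ G.st v, d ∉ NN := fun d hd hn => h.hN.outA d hn ((mem_st.1 hd).2 ▸ hA)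
    rw [hsp _ h2, if_neg h1]
    have h3 : ∀ d ∈ G.st v, d ∈ P → d = w := by
      intro d hd hdP
      have hpi := (mem_st.1 hd).2
      have h4 : G.bk fr F A NN (G.pi d) ∈ ns := by
        rw [bk_of_not (fun h5 => (mem_sdiff.1 h5).2 (hpi ▸ hA))]
        exact h.A_ns
      rcases h.out.ends d hdP h4 with h5 | h5
      · exact h5
      · exact absurd (h5 ▸ hpi.symm) h1
    by_cases hw : v = G.pi w
    · have h5 : (G.st v).filter (fun d => d ∈ P) = {w} := by
        ext d
        rw [mem_filter, mem_singleton]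
        constructor
        · rintro ⟨h6, h7⟩
          exact h3 d h6 h7
        · rintro rfl
          exact ⟨mem_st.2 ⟨(h.memP h.out.wP).1, hw.symm⟩, h.out.wP⟩
      rw [h5, sum_singleton, h.zP h.out.wP, if_pos hw]
      linarith
    · have h5 : (G.st v).filter (fun d => d ∈ P) = ∅ := by
        rw [eq_empty_iff_forall_notMem]
        intro d hd
        obtain ⟨h6, h7⟩ := mem_filter.1 hd
        have h8 := h3 d h6 h7
        exact hw (h8 ▸ (mem_st.1 h6).2.symm)
      rw [h5, sum_empty, if_neg hw]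
      linarith
  · have hwv : v ≠ G.pi w := fun he => hA (he ▸ h.wA)
    have hvA : v ∈ G.vs \ A := mem_sdiff.2 ⟨hv, hA⟩
    rw [if_neg hwv]
    rcases h.hN.cases h.hF hvA with ⟨n, hn, hnv⟩ | ⟨C, hC, ho, hvC⟩
    · subst hnv
      have hxv : G.pi n ≠ G.pi x := by
        intro he
        exact h.out.xt (he ▸ h.bk_PN hn)
      rw [if_neg hxv]
      have hnst : n ∈ G.st (G.pi n) := mem_st.2 ⟨h.hN.sub hn, rfl⟩
      have hnP : n ∉ P := fun h1 => (h.memP h1).2.1 hn
      rw [← add_sum_erase _ _ hnst] at hdeg ⊢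
      rw [hsp ((G.st (G.pi n)).erase n) (by
        intro d hd hdn
        obtain ⟨h1, h2⟩ := mem_erase.1 hd
        have h3 : d ∈ NN.filter fun e => G.pi e = G.pi n := mem_filter.2 ⟨hdn, (mem_st.1 h2).2⟩
        rw [h.one_NN hn, mem_singleton] at h3
        exact h1 h3)]
      have h1 : ((G.st (G.pi n)).erase n).filter (fun d => d ∈ P) =
          P.filter fun e => G.pi e = G.pi n := by
        ext d
        rw [mem_filter, mem_filter, mem_erase, mem_st]
        constructor
        · rintro ⟨⟨-, -, h2⟩, h3⟩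
          exact ⟨h3, h2⟩
        · rintro ⟨h2, h3⟩
          exact ⟨⟨fun he => hnP (he ▸ h2), (h.memP h2).1, h3⟩, h2⟩
      rw [h1]
      have h2 : ∑ d ∈ P.filter (fun e => G.pi e = G.pi n), z d =
          ((P.filter fun e => G.pi e = G.pi n).card : ℝ) := by
        rw [card_eq_sum_ones, Nat.cast_sum]
        refine sum_congr rfl fun d hd => ?_
        rw [h.zP (mem_filter.1 hd).1, Nat.cast_one]
      rw [h2]
      have h3 : G.trz z NN P n = z n + ((P.filter fun e => G.pi e = G.pi n).card : ℝ) := by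
        unfold trz
        rw [if_neg hnP, if_pos hn]
      rw [h3]
      linarith
    · have h2 : ∀ d ∈ G.st v, d ∉ NN := fun d hd hn =>
        h.hN.odd C hC ho d hn ((mem_st.1 hd).2 ▸ hvC)
      rw [hsp _ h2]
      have h3 : ∀ d ∈ G.st v, d ∈ P → d = x := by
        intro d hd hdP
        have hpi := (mem_st.1 hd).2
        have h4 : G.bk fr F A NN (G.pi d) ∈ ns := by
          rw [h.hN.bk_odd h.hF hC ho (v := G.pi d) (hpi ▸ hvC)]
          exact h.odd_ns hC ho hvC
        rcases h.out.ends d hdP h4 with h5 | h5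
        · exact absurd (h5 ▸ hpi.symm) hwv
        · exact h5
      by_cases hx : v = G.pi x
      · have h5 : (G.st v).filter (fun d => d ∈ P) = {x} := by
          ext d
          rw [mem_filter, mem_singleton]
          constructor
          · rintro ⟨h6, h7⟩
            exact h3 d h6 h7
          · rintro rfl
            exact ⟨mem_st.2 ⟨(h.memP h.out.xP).1, hx.symm⟩, h.out.xP⟩
        rw [h5, sum_singleton, h.zP h.out.xP, if_pos hx]
        linarith
      · have h5 : (G.st v).filter (fun d => d ∈ P) = ∅ := by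
          rw [eq_empty_iff_forall_notMem]
          intro d hd
          obtain ⟨h6, h7⟩ := mem_filter.1 hd
          have h8 := h3 d h6 h7
          exact hx (h8 ▸ (mem_st.1 h6).2.symm)
        rw [h5, sum_empty, if_neg hx]
        linarith

theorem sum_trt (h : G.Trl z t fr F A NN al ns P w x lam) :
    ∑ v ∈ G.vs, G.trt t w x v = ∑ v ∈ G.vs, t v + 2 := by
  unfold trt
  rw [sum_add_distrib, sum_add_distrib, sum_ite_eq', sum_ite_eq',
    if_pos (G.pi_mem w (h.memP h.out.wP).1), if_pos (G.pi_mem x (h.memP h.out.xP).1)]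
  ring

/-- weights which do not change: circuits which are not met by the chain, and edges inside `A` -/
theorem trz_same (h : G.Trl z t fr F A NN al ns P w x lam) {C : Finset V} (hC : G.Circ fr F C)
    (hno : ∀ d ∈ P, G.pi d ∉ C) {d : D} (hd : d ∈ G.ds) (hdC : G.pi d ∈ C) :
    G.trz z NN P d = z d := by
  have h1 : d ∉ P := fun h2 => hno d h2 hdC
  have h2 : (P.filter fun e => G.pi e = G.pi d) = ∅ := by
    rw [eq_empty_iff_forall_notMem]
    intro e he
    obtain ⟨h3, h4⟩ := mem_filter.1 he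
    exact hno e h3 (h4 ▸ hdC)
  unfold trz
  rw [if_neg h1, h2, card_empty, Nat.cast_zero, add_zero, ite_self]

theorem trz_out (h : G.Trl z t fr F A NN al ns P w x lam) {d : D} (hd : d ∈ G.ds)
    (h1 : G.pi d ∈ A) (h2 : G.pi (G.al d) ∈ A) : G.trz z NN P d = z d := by
  unfold trz
  rw [if_neg (fun h3 => (h.memP h3).2.2.2.elim (fun h4 => h4 h1) (fun h4 => h4 h2)),
    if_neg (fun h3 => h.hN.outA d h3 h1)]

/-- edges of odd circuits keep weight 1 -/
theorem trz_odd (h : G.Trl z t fr F A NN al ns P w x lam) {C : Finset V} (hC : G.Circ fr F C)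
    (ho : Odd C.card) {d : D} (hd : d ∈ F) (hdC : G.pi d ∈ C) : G.trz z NN P d = 1 := by
  have hnA : ∀ v ∈ C, v ∉ A := fun v hv hA => disjoint_left.1 h.hN.Afr hA (hC.adm.sub hv)
  have hend : ∀ e ∈ P, G.pi e ∈ C → e = x := by
    intro e he hec
    have h4 : G.bk fr F A NN (G.pi e) ∈ ns := by
      rw [h.hN.bk_odd h.hF hC ho hec]
      exact h.odd_ns hC ho hec
    rcases h.out.ends e he h4 with h5 | h5
    · exact absurd h.wA (h5 ▸ hnA _ hec)
    · exact h5
  have hdP : d ∉ P := by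
    intro hdP
    have h1 := hend d hdP hdC
    have h2 := hend _ (h.out.Pal d hdP) (hC.adm.clo d hd hdC)
    exact G.noloop d (h.hF.Fsub hd) (by rw [h2, ← h1])
  unfold trz
  rw [if_neg hdP, if_neg (fun h3 => h.hN.odd C hC ho d h3 hdC)]
  exact h.hF.unit d (h.hF.Fsub hd) (hC.adm.sub hdC)

/-- matching edges have weight `1 + ` number of passes -/
theorem trz_NN (h : G.Trl z t fr F A NN al ns P w x lam) {d : D} (hd : d ∈ NN) :
    G.trz z NN P d = 1 + ((P.filter fun e => G.pi e = G.pi d).card : ℝ) := by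
  unfold trz
  rw [if_neg (fun h1 => (h.memP h1).2.1 hd), if_pos hd, h.hN.zN d hd]

end Trl

/-- for every choice of the matchings there is a chain -/
theorem PmE.exists_trl (hF : G.FrS z fr F ∅) (hw : G.Wt z t) (hN : G.PmE z t fr F A NN)
    (h4 : ∀ W ⊆ G.vs \ A, 2 ≤ W.card → 4 ≤ G.val z t W) (ho : ∃ C, G.Circ fr F C ∧ Odd C.card) :
    ∃ (al : D → D) (ns : Finset (Finset V)) (P : Finset D) (w x : D) (lam : ℕ),
      G.Trl z t fr F A NN al ns P w x lam := by
  obtain ⟨al, ns, P, w, x, lam, h1, h2, h3, h5⟩ := hN.exists_out hF hw h4 ho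
  exact ⟨al, ns, P, w, x, lam, hF, hw, hN, h1, h2, h3, h5⟩

end MG

end RH
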