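import Pool.Agent.Lib.TL.Vert
import Pool.Agent.Lib.RH.TLBk

/-! # The node graph of an instance without star (block TL) -/

set_option autoImplicit false
set_option linter.unusedVariables false

namespace RH

open Finset Classical

namespace MG

variable {V D : Type*} {G : MG V D} {z : D → ℝ} {t : V → ℝ} {fr : Finset V} {F NN : Finset D}
variable {A : Finset V}

/-- membership with the classical instance -/
private theorem mem_sdc {N : Type*} {p : N} {X Y : Finset N} : p ∈ X \ Y ↔ p ∈ X ∧ p ∉ Y :=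
  mem_sdiff

/-- membership with the classical instance -/
private theorem mem_fd {N : Type*} {al : D → D} {nd : D → N} {S : Finset D} {W : Finset N} {d : D} :
    d ∈ S.filter (fun d => nd d ∈ W ∧ nd (al d) ∉ W) ↔ d ∈ S ∧ nd d ∈ W ∧ nd (al d) ∉ W :=
  mem_filter

theorem mem_ld {d : D} : d ∈ G.ld z A NN ↔
    d ∈ G.ds ∧ d ∉ NN ∧ z d ≠ 0 ∧ (G.pi d ∉ A ∨ G.pi (G.al d) ∉ A) := by
  unfold ld
  rw [mem_filter]

/-- exactly one dart of `NN` at a vertex with a dart of `NN` -/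
theorem PmE.one_at (hF : G.FrS z fr F ∅) (hN : G.PmE z t fr F A NN) {n : D} (hn : n ∈ NN) :
    (NN.filter fun d => G.pi d = G.pi n).card = 1 := by
  have h1 : G.pi n ∈ G.vs := G.pi_mem n (hN.sub hn)
  by_cases h : G.pi n ∈ fr
  · obtain ⟨C, hC, hv⟩ := FrS.exists_circ' hF h
    rcases Nat.even_or_odd C.card with he | ho
    · exact hN.one C hC he _ hv
    · exact (hN.odd C hC ho n hn hv).elim
  · exact hN.out _ h1 h (hN.outA n hn)

theorem PmE.al_node (hF : G.FrS z fr F ∅) (hN : G.PmE z t fr F A NN) {n : D} (hn : n ∈ NN) :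
    G.bk fr F A NN (G.pi (G.al n)) = G.bk fr F A NN (G.pi n) := by
  rw [hN.bk_pair hF hn, hN.bk_pair hF (hN.al n hn), G.al_al n (hN.sub hn), pair_comm]

theorem PmE.vs_of_ne {v : V} (h : G.bk fr F A NN v ≠ ∅) : v ∈ G.vs \ A := by
  by_contra h1
  exact h (bk_of_not h1)

theorem Circ.two_le {C : Finset V} (hF : G.FrS z fr F ∅) (hC : G.Circ fr F C) : 2 ≤ C.card := by
  obtain ⟨v, hv⟩ := hC.ne
  have h1 := hC.two v hv
  have h2 : (F.filter fun d => G.pi d = v).Nonempty := by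
    rw [← card_pos, h1]
    exact Nat.zero_lt_two
  obtain ⟨d, hd⟩ := h2
  rw [mem_filter] at hd
  have h3 : G.pi (G.al d) ∈ C := hC.adm.2 d hd.1 (by rw [hd.2]; exact hv)
  have h4 : G.pi (G.al d) ≠ v := by
    rw [← hd.2]
    exact G.noloop d (hF.Fsub hd.1)
  have h5 : ({v, G.pi (G.al d)} : Finset V) ⊆ C := by
    intro u hu
    rw [mem_insert, mem_singleton] at hu
    rcases hu with rfl | rfl
    · exact hv
    · exact h3
  have h6 := card_le_card h5
  rwa [card_pair h4.symm] at h6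

/-- the base system -/
theorem PmE.bs (hF : G.FrS z fr F ∅) (hw : G.Wt z t) (hN : G.PmE z t fr F A NN) :
    TL.Bs G.al (G.ld z A NN) G.pi (G.bk fr F A NN) (G.bkp fr F A NN) (G.bks fr F A NN) := by
  refine ⟨⟨?_, ?_, ?_⟩, ?_, ?_, ?_, ?_⟩
  · intro d hd
    rw [mem_ld] at hd ⊢
    obtain ⟨h1, h2, h3, h4⟩ := hd
    refine ⟨G.al_mem d h1, fun h5 => h2 ?_, by rwa [hw.sym d h1], ?_⟩
    · have := hN.al _ h5
      rwa [G.al_al d h1] at this
    · rw [G.al_al d h1]
      exact h4.symm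
  · intro d hd
    exact G.al_al d (mem_ld.1 hd).1
  · intro d hd e
    exact G.noloop d (mem_ld.1 hd).1 (by rw [e])
  · intro d hd
    unfold bks
    by_cases h : G.pi d ∈ G.vs \ A
    · exact mem_insert_of_mem (mem_image_of_mem _ h)
    · rw [bk_of_not h]
      exact mem_insert_self _ _
  · intro p hp
    unfold bkp at hp
    exact mem_insert_of_mem (mem_filter.1 hp).1
  · intro p hp
    unfold bkp at hp
    obtain ⟨h1, h2⟩ := mem_filter.1 hp
    obtain ⟨v, hv, rfl⟩ := mem_image.1 h1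
    rcases hN.cases hF hv with ⟨n, hn, rfl⟩ | ⟨C, hC, ho, hvC⟩
    · refine ⟨G.pi n, G.pi (G.al n), (G.noloop n (hN.sub hn)).symm, fun w => ?_⟩
      rw [hN.bk_eq_iff hF hv, hN.bk_pair hF hn, mem_insert, mem_singleton]
    · rw [hN.bk_odd hF hC ho hvC] at h2
      exact (Nat.not_even_iff_odd.2 ho h2).elim
  · intro u hu
    unfold bkp at hu
    obtain ⟨h1, h2⟩ := mem_filter.1 hu
    have huv : u ∈ G.vs \ A := by
      obtain ⟨v, hv, e⟩ := mem_image.1 h1
      refine PmE.vs_of_ne (fun e0 => ?_) (G := G) (fr := fr) (F := F) (NN := NN)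
      have := hN.mem_bk hF hv
      rw [e, e0] at this
      exact notMem_empty _ this
    have hu1 := (mem_sdiff.1 huv).1
    have hu2 := (mem_sdiff.1 huv).2
    rcases hN.cases hF huv with ⟨n, hn, e⟩ | ⟨C, hC, ho, hvC⟩
    · have hone : (NN.filter fun d => G.pi d = u).card = 1 := by
        rw [← e]
        exact hN.one_at hF hn
      have hdeg := hw.deg u hu1
      rw [hN.t0 u hu1 hu2, add_zero] at hdeg
      have hsum : ∑ d ∈ G.st u, z d = (((G.st u).filter fun d => z d ≠ 0).card : ℝ) := by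
        rw [card_filter, Nat.cast_sum]
        refine sum_congr rfl fun d hd => ?_
        rw [mem_st] at hd
        rcases hN.z01 d hd.1 (by rw [hd.2]; exact hu2) with h3 | h3
        · rw [h3, if_neg (not_not.2 rfl), Nat.cast_zero]
        · rw [h3, if_pos one_ne_zero, Nat.cast_one]
      rw [hsum] at hdeg
      have h3 : ((G.st u).filter fun d => z d ≠ 0).card = 3 := by exact_mod_cast hdeg
      have h4 : (G.st u).filter (fun d => z d ≠ 0) =
          ((G.ld z A NN).filter fun d => G.pi d = u) ∪ (NN.filter fun d => G.pi d = u) := by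
        ext d
        rw [mem_filter, mem_st, mem_union, mem_filter, mem_filter, mem_ld]
        constructor
        · rintro ⟨⟨h5, h6⟩, h7⟩
          by_cases h8 : d ∈ NN
          · exact Or.inr ⟨h8, h6⟩
          · exact Or.inl ⟨⟨h5, h8, h7, Or.inl (by rw [h6]; exact hu2)⟩, h6⟩
        · rintro (⟨⟨h5, h6, h7, -⟩, h8⟩ | ⟨h5, h6⟩)
          · exact ⟨⟨h5, h8⟩, h7⟩
          · exact ⟨⟨hN.sub h5, h6⟩, by rw [hN.zN d h5]; exact one_ne_zero⟩
      have h5 : Disjoint ((G.ld z A NN).filter fun d => G.pi d = u)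
          (NN.filter fun d => G.pi d = u) := by
        rw [disjoint_left]
        intro d hd hd'
        exact (mem_ld.1 (mem_filter.1 hd).1).2.1 (mem_filter.1 hd').1
      rw [h4, card_union_of_disjoint h5, hone] at h3
      omega
    · rw [hN.bk_odd hF hC ho hvC] at h2
      exact (Nat.not_even_iff_odd.2 ho h2).elim

/-- the cut function of the node graph is the value -/
theorem PmE.dct_eq (hF : G.FrS z fr F ∅) (hw : G.Wt z t) (hN : G.PmE z t fr F A NN)
    {W : Finset (Finset V)} (hW : W ⊆ G.bks fr F A NN) (h0 : ∅ ∉ W) :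
    (ThmQ.dct G.al (TL.nn G.pi (G.bk fr F A NN)) (G.ld z A NN) W : ℝ) =
      G.val z t ((G.vs \ A).filter fun v => G.bk fr F A NN v ∈ W) := by
  set U := (G.vs \ A).filter fun v => G.bk fr F A NN v ∈ W with hU
  have mU : ∀ v, v ∈ U ↔ v ∈ G.vs \ A ∧ G.bk fr F A NN v ∈ W := fun v => by
    rw [hU, mem_filter]
  have ht : ∑ v ∈ U, t v = 0 := sum_eq_zero fun v hv => by
    have h1 := mem_sdiff.1 ((mU v).1 hv).1
    exact hN.t0 v h1.1 h1.2
  unfold val
  rw [ht, add_zero]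
  have hsum : ∑ d ∈ G.bd U, z d = (((G.bd U).filter fun d => z d ≠ 0).card : ℝ) := by
    rw [card_filter, Nat.cast_sum]
    refine sum_congr rfl fun d hd => ?_
    rw [mem_bd] at hd
    have h1 := mem_sdiff.1 ((mU _).1 hd.2.1).1
    rcases hN.z01 d hd.1 h1.2 with h3 | h3
    · rw [h3, if_neg (not_not.2 rfl), Nat.cast_zero]
    · rw [h3, if_pos one_ne_zero, Nat.cast_one]
  rw [hsum]
  unfold ThmQ.dct TL.nn
  congr 2
  ext d
  refine mem_fd.trans ?_
  rw [mem_filter, mem_bd, mem_ld]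
  constructor
  · rintro ⟨⟨h1, h2, h3, -⟩, h5, h6⟩
    have h7 : G.pi d ∈ G.vs \ A := PmE.vs_of_ne (fun e => h0 (by rw [← e]; exact h5))
    exact ⟨⟨h1, (mU _).2 ⟨h7, h5⟩, fun h8 => h6 ((mU _).1 h8).2⟩, h3⟩
  · rintro ⟨⟨h1, h2, h3⟩, h4⟩
    have h5 := (mU _).1 h2
    have h6 := mem_sdiff.1 h5.1
    have h7 : G.bk fr F A NN (G.pi (G.al d)) ∉ W := by
      intro h8
      exact h3 ((mU _).2 ⟨PmE.vs_of_ne (fun e => h0 (by rw [← e]; exact h8)), h8⟩)
    refine ⟨⟨h1, fun h8 => h7 ?_, h4, Or.inl h6.2⟩, h5.2, h7⟩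
    rw [hN.al_node hF h8]
    exact h5.2

/-- the node graph is 4-edge-connected -/
theorem PmE.four (hF : G.FrS z fr F ∅) (hw : G.Wt z t) (hN : G.PmE z t fr F A NN)
    (h4 : ∀ W ⊆ G.vs \ A, 2 ≤ W.card → 4 ≤ G.val z t W) {W : Finset (Finset V)}
    (hW : W ⊆ G.bks fr F A NN) (hne : W.Nonempty) (hne' : W ≠ G.bks fr F A NN) :
    4 ≤ ThmQ.dct G.al (TL.nn G.pi (G.bk fr F A NN)) (G.ld z A NN) W := by
  have key : ∀ W : Finset (Finset V), W ⊆ G.bks fr F A NN → W.Nonempty → ∅ ∉ W →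
      4 ≤ ThmQ.dct G.al (TL.nn G.pi (G.bk fr F A NN)) (G.ld z A NN) W := by
    intro W hW hne h0
    have h1 := hN.dct_eq hF hw hW h0
    set U := (G.vs \ A).filter fun v => G.bk fr F A NN v ∈ W with hU
    have mU : ∀ v, v ∈ U ↔ v ∈ G.vs \ A ∧ G.bk fr F A NN v ∈ W := fun v => by
      rw [hU, mem_filter]
    have h2 : 2 ≤ U.card := by
      obtain ⟨p, hp⟩ := hne
      have hp' := hW hp
      unfold bks at hp'
      rw [mem_insert] at hp'
      rcases hp' with rfl | hp'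
      · exact (h0 hp).elim
      obtain ⟨v, hv, rfl⟩ := mem_image.1 hp'
      have h3 : G.bk fr F A NN v ⊆ U := by
        intro u hu
        have h5 := (hN.bk_eq_iff hF hv).2 hu
        rw [mU, h5]
        refine ⟨PmE.vs_of_ne (fun e => ?_) (G := G) (fr := fr) (F := F) (NN := NN), hp⟩
        have h6 := hN.mem_bk hF hv
        rw [← h5, e] at h6
        exact notMem_empty _ h6
      refine le_trans ?_ (card_le_card h3)
      rcases hN.cases hF hv with ⟨n, hn, rfl⟩ | ⟨C, hC, ho, hvC⟩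
      · rw [hN.bk_pair hF hn, card_pair (G.noloop n (hN.sub hn)).symm]
      · rw [hN.bk_odd hF hC ho hvC]
        exact hC.two_le hF
    have h3 := h4 U (filter_subset _ _) h2
    rw [← h1] at h3
    exact_mod_cast h3
  by_cases h0 : ∅ ∈ W
  · have hb := hN.bs hF hw
    rw [← TL.dct_compl hb.sys hb.mem W]
    refine key _ (fun p hp => (mem_sdc.1 hp).1) ?_ fun h => (mem_sdc.1 h).2 h0
    by_contra h
    refine hne' (subset_antisymm hW fun p hp => ?_)
    by_contra h1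
    exact h ⟨p, mem_sdc.2 ⟨hp, h1⟩⟩
  · exact key W hW hne h0

/-- THE CHAIN: from `∅` to an odd circuit -/
theorem PmE.exists_out (hF : G.FrS z fr F ∅) (hw : G.Wt z t) (hN : G.PmE z t fr F A NN)
    (h4 : ∀ W ⊆ G.vs \ A, 2 ≤ W.card → 4 ≤ G.val z t W) (ho : ∃ C, G.Circ fr F C ∧ Odd C.card) :
    ∃ (al : D → D) (ns : Finset (Finset V)) (P : Finset D) (w x : D) (lam : ℕ),
      TL.Out G.al (G.ld z A NN) G.pi (G.bk fr F A NN) (G.bkp fr F A NN) (G.bks fr F A NN)
        al ns P w x ∧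
      TL.Rq al (TL.rd (G.ld z A NN) G.pi (G.bk fr F A NN) ns) (TL.nn G.pi (G.bk fr F A NN)) ns
        {∅} (G.bko fr F A NN) lam ∧
      G.pi w ∈ A ∧ ∃ C, G.Circ fr F C ∧ Odd C.card ∧ G.pi x ∈ C := by
  have hb := hN.bs hF hw
  have hq : (∅ : Finset V) ∈ G.bks fr F A NN := mem_insert_self _ _
  have hO : G.bko fr F A NN ⊆ G.bks fr F A NN := fun p hp => mem_insert_of_mem (mem_filter.1 hp).1
  have hqO : (∅ : Finset V) ∉ G.bko fr F A NN := by
    intro h
    have h1 := (mem_filter.1 h).2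
    rw [card_empty] at h1
    exact (Nat.not_odd_iff_even.2 (by decide)) h1
  have hqP : (∅ : Finset V) ∉ G.bkp fr F A NN := by
    intro h
    obtain ⟨v, hv, e⟩ := mem_image.1 (mem_filter.1 h).1
    have h1 := hN.mem_bk hF hv
    rw [e] at h1
    exact notMem_empty _ h1
  have hOP : Disjoint (G.bko fr F A NN) (G.bkp fr F A NN) := by
    rw [disjoint_left]
    intro p h1 h2
    exact (Nat.not_even_iff_odd.2 (mem_filter.1 h1).2) (mem_filter.1 h2).2
  have hne : (G.bko fr F A NN).Nonempty := by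
    obtain ⟨C, hC, hCo⟩ := ho
    obtain ⟨v, hv⟩ := hC.ne
    have hvf : v ∈ fr := hC.adm.1 hv
    have hv' : v ∈ G.vs \ A := mem_sdiff.2 ⟨hF.fsub hvf, fun h => disjoint_left.1 hN.Afr h hvf⟩
    refine ⟨C, mem_filter.2 ⟨mem_image.2 ⟨v, hv', hN.bk_odd hF hC hCo hv⟩, hCo⟩⟩
  have hter : ∀ p ∈ G.bks fr F A NN, p ∉ G.bkp fr F A NN → p = ∅ ∨ p ∈ G.bko fr F A NN := by
    intro p hp hp'
    unfold bks at hp
    rw [mem_insert] at hp
    rcases hp with h | h
    · exact Or.inl h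
    · refine Or.inr (mem_filter.2 ⟨h, ?_⟩)
      by_contra h1
      exact hp' (mem_filter.2 ⟨h, Nat.not_odd_iff_even.1 h1⟩)
  obtain ⟨B, -, -, -, -, ⟨e0, he0, he1, he2⟩, hB⟩ := hb.exists_out hq hO hqO hqP hOP hne hter
    (fun W hW h1 h2 => hN.four hF hw h4 hW h1 h2)
  obtain ⟨al, ns, P, w, x, hout, hR, hw1, hx1, -⟩ := hB e0 he0 he1 he2
  refine ⟨al, ns, P, w, x, _, hout, hR, ?_, ?_⟩
  · have h1 : w ∈ G.ld z A NN := hout.Psub hout.wP
    have h2 := G.pi_mem w (mem_ld.1 h1).1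
    by_contra h3
    have h5 := hN.mem_bk hF (mem_sdiff.2 ⟨h2, h3⟩)
    rw [hw1] at h5
    exact notMem_empty _ h5
  · have h1 := (mem_filter.1 hx1).2
    have h2 : G.pi x ∈ G.vs \ A := PmE.vs_of_ne (fun e => by
      rw [e, card_empty] at h1
      exact (Nat.not_odd_iff_even.2 (by decide)) h1)
    rcases hN.cases hF h2 with ⟨n, hn, e⟩ | ⟨C, hC, ho', hvC⟩
    · rw [← e, hN.bk_pair hF hn, card_pair (G.noloop n (hN.sub hn)).symm] at h1
      exact (Nat.not_odd_iff_even.2 (by decide) h1).elim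
    · exact ⟨C, hC, ho', hvC⟩

end MG

end RH
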