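import Pool.Agent.Lib.RH.SuppM
import Pool.Agent.Lib.RH.MConn

/-! # Matchings of the even circuits (block TL, helper30)

`A` = contracted vertices (outside `fr`). `NN` contains a perfect matching of every even circuit and
of the vertices outside `fr` and `A`. -/

set_option autoImplicit false

namespace RH

open Finset Classical

namespace MG

variable {V D : Type*}

/-- matchings of the even circuits and of the vertices outside `fr` and `A`; all weights at vertices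
outside `A` are 0 or 1, there are no tokens outside `A` -/
structure PmE (G : MG V D) (z : D → ℝ) (t : V → ℝ) (fr : Finset V) (F : Finset D) (A : Finset V)
    (NN : Finset D) : Prop where
  Asub : A ⊆ G.vs
  Afr : Disjoint A fr
  sub : NN ⊆ G.ds
  al : ∀ d ∈ NN, G.al d ∈ NN
  nF : ∀ d ∈ NN, G.pi d ∈ fr → d ∈ F
  outA : ∀ d ∈ NN, G.pi d ∉ A
  one : ∀ C, G.Circ fr F C → Even C.card → ∀ v ∈ C, (NN.filter fun d => G.pi d = v).card = 1
  odd : ∀ C, G.Circ fr F C → Odd C.card → ∀ d ∈ NN, G.pi d ∉ C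
  out : ∀ v ∈ G.vs, v ∉ fr → v ∉ A → (NN.filter fun d => G.pi d = v).card = 1
  z01 : ∀ d ∈ G.ds, G.pi d ∉ A → z d = 0 ∨ z d = 1
  zN : ∀ d ∈ NN, z d = 1
  t0 : ∀ v ∈ G.vs, v ∉ A → t v = 0

variable {G : MG V D} {z : D → ℝ} {t : V → ℝ} {fr : Finset V} {F NN : Finset D} {A : Finset V}

/-- two circuits with a common vertex are equal -/
theorem Circ.eq_of_mem0 {C C' : Finset V} (hC : G.Circ fr F C)
    (hC' : G.Circ fr F C') {v : V} (h : v ∈ C) (h' : v ∈ C') : C = C' := by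
  have h1 := hC.adm.inter hC'.adm
  have h2 : (C ∩ C').Nonempty := ⟨v, mem_inter.2 ⟨h, h'⟩⟩
  have h3 := hC.min _ h1 inter_subset_left h2
  have h4 := hC'.min _ h1 inter_subset_right h2
  rw [← h3]
  exact h4

theorem Circ.eq_of_mem {C C' : Finset V} (_hF : G.FrS z fr F ∅) (hC : G.Circ fr F C)
    (hC' : G.Circ fr F C') {v : V} (h : v ∈ C) (h' : v ∈ C') : C = C' :=
  hC.eq_of_mem0 hC' h h'

/-- every fresh vertex lies on a circuit -/
theorem FrS.exists_circ' (hF : G.FrS z fr F ∅) {v : V} (hv : v ∈ fr) :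
    ∃ C, G.Circ fr F C ∧ v ∈ C := by
  obtain ⟨C, h1, h2⟩ := hF.exists_circ hv
  exact ⟨C, h2, h1⟩

/-- a given matching `M` of the vertices outside `fr` and `A` can be completed -/
theorem exists_pmE' (hF : G.FrS z fr F ∅) (hw : G.Wt z t) (hA : A ⊆ G.vs) (hAf : Disjoint A fr)
    {M : Finset D} (h1 : M ⊆ G.ds) (h2 : ∀ d ∈ M, G.al d ∈ M)
    (h3 : ∀ d ∈ M, G.pi d ∉ fr ∧ G.pi d ∉ A)
    (h4 : ∀ v ∈ G.vs, v ∉ fr → v ∉ A → (M.filter fun d => G.pi d = v).card = 1)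
    (h5 : ∀ d ∈ G.ds, G.pi d ∉ fr → G.pi d ∉ A → z d = 0 ∨ z d = 1) (h6 : ∀ d ∈ M, z d = 1)
    (h7 : ∀ v ∈ G.vs, v ∉ fr → v ∉ A → t v = 0) :
    ∃ NN, G.PmE z t fr F A NN ∧ M ⊆ NN := by
  obtain ⟨PP, hPP⟩ : ∃ PP : Finset V → Finset D, ∀ C, G.Circ fr F C → Even C.card →
      ∃ P2, G.Two F C (PP C) P2 := by
    have key : ∀ C : Finset V, ∃ P1 : Finset D, G.Circ fr F C → Even C.card →
        ∃ P2, G.Two F C P1 P2 := by
      intro C
      by_cases hC : G.Circ fr F C ∧ Even C.card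
      · obtain ⟨P1, P2, h8⟩ := exists_two hF.toFA hC.1 hC.2
        exact ⟨P1, fun _ _ => ⟨P2, h8⟩⟩
      · exact ⟨∅, fun h8 h9 => absurd ⟨h8, h9⟩ hC⟩
    choose PP hPP using key
    exact ⟨PP, hPP⟩
  obtain ⟨E, hE⟩ : ∃ E : Finset D, E = F.filter fun d => ∃ C, G.Circ fr F C ∧ Even C.card ∧
      G.pi d ∈ C ∧ d ∈ PP C := ⟨_, rfl⟩
  have mE : ∀ d, d ∈ E ↔ d ∈ F ∧ ∃ C, G.Circ fr F C ∧ Even C.card ∧ G.pi d ∈ C ∧ d ∈ PP C := by
    intro d
    rw [hE, mem_filter]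
  have mEC : ∀ C, G.Circ fr F C → Even C.card → ∀ d, G.pi d ∈ C → (d ∈ E ↔ d ∈ PP C) := by
    intro C hC he d hd
    rw [mE]
    constructor
    · rintro ⟨-, C', h8, -, h10, h11⟩
      rw [hC.eq_of_mem0 h8 hd h10]
      exact h11
    · intro h8
      obtain ⟨P2, h9⟩ := hPP C hC he
      exact ⟨(h9.sub1 h8).1, C, hC, he, hd, h8⟩
  have Efr : ∀ d ∈ E, G.pi d ∈ fr := fun d hd => hF.Ffr d ((mE d).1 hd).1
  refine ⟨M ∪ E, ⟨hA, hAf, ?_, ?_, ?_, ?_, ?_, ?_, ?_, ?_, ?_, ?_⟩, subset_union_left⟩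
  · refine union_subset h1 fun d hd => hF.Fsub ((mE d).1 hd).1
  · intro d hd
    rcases mem_union.1 hd with h8 | h8
    · exact mem_union_left _ (h2 d h8)
    · obtain ⟨h9, C, h10, h11, h12, h13⟩ := (mE d).1 h8
      obtain ⟨P2, h14⟩ := hPP C h10 h11
      have h15 := h14.al1 d h13
      exact mem_union_right _ ((mE _).2 ⟨hF.Fal d h9, C, h10, h11, (h14.sub1 h15).2, h15⟩)
  · intro d hd hp
    rcases mem_union.1 hd with h8 | h8
    · exact absurd hp (h3 d h8).1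
    · exact ((mE d).1 h8).1
  · intro d hd
    rcases mem_union.1 hd with h8 | h8
    · exact (h3 d h8).2
    · exact fun h9 => disjoint_left.1 hAf h9 (Efr d h8)
  · intro C hC he v hv
    obtain ⟨P2, h14⟩ := hPP C hC he
    rw [← h14.one1 v hv]
    congr 1
    ext d
    rw [mem_filter, mem_filter, mem_union]
    constructor
    · rintro ⟨h8 | h8, h9⟩
      · exact absurd (by rw [h9]; exact hC.adm.sub hv) (h3 d h8).1
      · exact ⟨(mEC C hC he d (by rw [h9]; exact hv)).1 h8, h9⟩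
    · rintro ⟨h8, h9⟩
      exact ⟨Or.inr ((mEC C hC he d (by rw [h9]; exact hv)).2 h8), h9⟩
  · intro C hC ho d hd hp
    rcases mem_union.1 hd with h8 | h8
    · exact (h3 d h8).1 (hC.adm.sub hp)
    · obtain ⟨-, C', h10, h11, h12, -⟩ := (mE d).1 h8
      rw [hC.eq_of_mem0 h10 hp h12] at ho
      exact (Nat.not_even_iff_odd.2 ho) h11
  · intro v hv hvf hvA
    rw [← h4 v hv hvf hvA]
    congr 1
    ext d
    rw [mem_filter, mem_filter, mem_union]
    constructor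
    · rintro ⟨h8 | h8, h9⟩
      · exact ⟨h8, h9⟩
      · exact absurd (h9 ▸ Efr d h8) hvf
    · rintro ⟨h8, h9⟩
      exact ⟨Or.inl h8, h9⟩
  · intro d hd hp
    by_cases h8 : G.pi d ∈ fr
    · exact Or.inr (hF.unit d hd h8)
    · exact h5 d hd h8 hp
  · intro d hd
    rcases mem_union.1 hd with h8 | h8
    · exact h6 d h8
    · exact hF.unit d (hF.Fsub ((mE d).1 h8).1) (Efr d h8)
  · intro v hv hvA
    by_cases h8 : v ∈ fr
    · exact hF.t_not_jm hw h8 (notMem_empty _)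
    · exact h7 v hv h8 hvA

/-- the case where all vertices outside `fr` are contracted -/
theorem exists_pmE (hF : G.FrS z fr F ∅) (hw : G.Wt z t) : ∃ NN, G.PmE z t fr F (G.vs \ fr) NN := by
  obtain ⟨NN, h1, -⟩ := exists_pmE' (A := G.vs \ fr) (M := ∅) hF hw sdiff_subset sdiff_disjoint
    (empty_subset _) (fun d hd => absurd hd (notMem_empty _))
    (fun d hd => absurd hd (notMem_empty _))
    (fun v hv h1 h2 => absurd (mem_sdiff.2 ⟨hv, h1⟩) h2)
    (fun d hd h1 h2 => absurd (mem_sdiff.2 ⟨G.pi_mem d hd, h1⟩) h2)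
    (fun d hd => absurd hd (notMem_empty _))
    (fun v hv h1 h2 => absurd (mem_sdiff.2 ⟨hv, h1⟩) h2)
  exact ⟨NN, h1⟩

end MG

end RH
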