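import Pool.Agent.Lib.RH.TLVal
import Pool.Agent.Lib.RH.SStep

/-! # Block TL: the step -/

set_option autoImplicit false

namespace RH

open Finset Classical

namespace MG

variable {V D : Type*} {G : MG V D} {z : D → ℝ} {t : V → ℝ} {fr : Finset V} {F NN P : Finset D}
variable {A : Finset V} {al : D → D} {ns : Finset (Finset V)} {w x : D} {lam : ℕ}

namespace Trl

/-- circuits are contained in the admissible sets which meet them -/
theorem cv_sub (h : G.Trl z t fr F A NN al ns P w x lam) {X : Finset V} (hX : G.Adm fr F X)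
    {v : V} (hv : v ∈ X) : G.cv fr F v ⊆ X := by
  obtain ⟨C, hC, hvC⟩ := h.hF.circ_ex (hX.sub hv)
  rw [cv_eq h.hF hC hvC]
  have h1 := hC.adm.inter hX
  have h2 := hC.min _ h1 inter_subset_left ⟨v, mem_inter.2 ⟨hvC, hv⟩⟩
  rw [← h2]
  exact inter_subset_right

theorem mem_cv (h : G.Trl z t fr F A NN al ns P w x lam) {v : V} (hv : v ∈ fr) :
    v ∈ G.cv fr F v := by
  obtain ⟨C, hC, hvC⟩ := h.hF.circ_ex hv
  rw [cv_eq h.hF hC hvC]
  exact hvC

/-- sets which contain all vertices of `A` -/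
theorem cut_sup (h : G.Trl z t fr F A NN al ns P w x lam) {W : Finset V} (hW : W ⊆ G.vs)
    (hsup : A ⊆ W) (h2 : 2 ≤ ∑ v ∈ G.vs, t v) :
    3 ≤ G.val (G.trz z NN P) (G.trt t w x) W := by
  have h3 : ∑ v ∈ G.vs, t v = ∑ v ∈ W, t v := by
    refine (sum_subset hW fun v hv hvW => ?_).symm
    exact h.hN.t0 v hv fun hA => hvW (hsup hA)
  have h4 : ∑ v ∈ W, t v + 1 ≤ ∑ v ∈ W, G.trt t w x v := by
    have h5 : ∑ v ∈ W, (if v = G.pi w then (1 : ℝ) else 0) = 1 := by
      rw [sum_ite_eq', if_pos (hsup h.wA)]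
    rw [← h5, ← sum_add_distrib]
    refine sum_le_sum fun v _ => ?_
    unfold trt
    have h6 : (0 : ℝ) ≤ (if v = G.pi x then 1 else 0) := by split_ifs <;> norm_num
    linarith
  have h5 : 0 ≤ ∑ d ∈ G.bd W, G.trz z NN P d := sum_nonneg fun d hd => h.trz0 (mem_bd.1 hd).1
  unfold val
  linarith

/-- all weights, if the sets which cut `A` are fine -/
theorem wt (h : G.Trl z t fr F A NN al ns P w x lam) (h2 : 2 ≤ ∑ v ∈ G.vs, t v)
    (hQ : ∀ W ⊆ G.vs, Odd W.card → (∃ v ∈ A, v ∈ W) → (∃ v ∈ A, v ∉ W) →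
      3 ≤ G.val (G.trz z NN P) (G.trt t w x) W) :
    G.Wt (G.trz z NN P) (G.trt t w x) where
  z0 := fun _ hd => h.trz0 hd
  t0 := fun _ hv => h.trt0 hv
  sym := fun _ hd => h.sym hd
  deg := fun _ hv => h.deg hv
  cut := by
    intro X hX ho
    by_cases h3 : ∃ v ∈ A, v ∈ X
    · by_cases h4 : ∃ v ∈ A, v ∉ X
      · exact hQ X hX ho h3 h4
      · push Not at h4
        exact h.cut_sup hX h4 h2
    · push Not at h3
      exact h.cut (fun v hv => mem_sdiff.2 ⟨hX hv, fun hA => h3 v hA hv⟩) ho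

/-- unions of circuits which are met by the chain have a killed edge in the boundary -/
theorem kill (h : G.Trl z t fr F A NN al ns P w x lam) {X : Finset V} (hX : G.Adm fr F X)
    (hm : ∃ d ∈ P, G.pi d ∈ X) : ∃ d ∈ G.bd X, G.trz z NN P d = 0 := by
  have key : ∀ u v, G.bk fr F A NN u = G.bk fr F A NN v → G.bk fr F A NN u ∈ G.bkp fr F A NN →
      u ∈ X → v ∈ X := by
    intro u v huv hp hu
    have hufr := hX.sub hu
    have huA : u ∈ G.vs \ A := mem_sdiff.2 ⟨h.hF.fsub hufr,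
      fun hA => disjoint_left.1 h.hN.Afr hA hufr⟩
    have hvA : v ∈ G.vs \ A := by
      by_contra hvA
      have h3 := h.hN.mem_bk h.hF huA
      rw [huv, bk_of_not hvA] at h3
      exact notMem_empty _ h3
    have h3 := h.hN.mem_bk h.hF hvA
    rw [← huv] at h3
    obtain ⟨C, hC, huC⟩ := h.hF.circ_ex hufr
    have h4 := h.hN.bk_sub h.hF hC huC h3
    have h5 := h.cv_sub hX hu
    rw [cv_eq h.hF hC huC] at h5
    exact h5 h4
  obtain ⟨d, hd, hdX, hdn⟩ := h.out.hit X (fun u v huv hp =>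
    ⟨key u v huv hp, key v u huv.symm (huv ▸ hp)⟩)
    (fun hw => disjoint_left.1 h.hN.Afr h.wA (hX.sub hw)) hm
  refine ⟨d, mem_bd.2 ⟨?_, hdX, hdn⟩, ?_⟩
  · exact (mem_filter.1 (h.out.Psub hd)).1
  · unfold trz
    rw [if_pos hd]

/-- THE STEP (without a bound for the tokens), if the sets which cut `A` are fine: the circuits met
by the chain are absorbed -/
theorem step (h : G.Trl z t fr F A NN al ns P w x lam) (h2 : 2 ≤ ∑ v ∈ G.vs, t v)
    (hQ : ∀ W ⊆ G.vs, Odd W.card → (∃ v ∈ A, v ∈ W) → (∃ v ∈ A, v ∉ W) →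
      3 ≤ G.val (G.trz z NN P) (G.trt t w x) W) :
    IsStepT G z fr F ∅ ∅ (G.trz z NN P) (G.trt t w x)
      (fr.filter fun v => ∀ d ∈ P, G.pi d ∉ G.cv fr F v) where
  wt := h.wt h2 hQ
  supp := fun _ hd h0 => h.supp hd h0
  sub := filter_subset _ _
  ne := by
    intro he
    obtain ⟨C, hC, -, hx⟩ := h.xC
    have h1 : G.pi x ∈ fr := hC.adm.sub hx
    rw [← he] at h1
    refine (mem_filter.1 h1).2 x h.out.xP ?_
    rw [cv_eq h.hF hC hx]
    exact hx
  clo := by
    intro d hd hp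
    obtain ⟨h1, h3⟩ := mem_filter.1 hp
    obtain ⟨C, hC, hx⟩ := h.hF.circ_ex h1
    have h4 : G.pi (G.al d) ∈ C := hC.adm.clo d hd hx
    refine mem_filter.2 ⟨hC.adm.sub h4, ?_⟩
    rw [cv_eq h.hF hC h4]
    rw [cv_eq h.hF hC hx] at h3
    exact h3
  unit := by
    intro d hd hp
    obtain ⟨h1, h3⟩ := mem_filter.1 hp
    obtain ⟨C, hC, hx⟩ := h.hF.circ_ex h1
    rw [cv_eq h.hF hC hx] at h3
    rw [h.trz_same hC h3 hd hx]
    exact h.hF.unit d hd h1
  kill := by
    intro X hX _ hn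
    obtain ⟨v, hv, hv'⟩ := not_subset.1 hn
    refine h.kill hX ?_
    by_contra hno
    push Not at hno
    exact hv' (mem_filter.2 ⟨hX.sub hv, fun d hd hc => hno d hd (h.cv_sub hX hv hc)⟩)
  star := Or.inl ⟨empty_subset _, empty_subset _⟩

end Trl

end MG

end RH
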