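import Pool.Agent.Lib.RH.TLDeg

/-! # Block TL: all odd sets of vertices outside `A` keep value 3 -/

set_option autoImplicit false

namespace RH

open Finset Classical

namespace MG

variable {V D : Type*} {G : MG V D} {z : D → ℝ} {t : V → ℝ} {fr : Finset V} {F NN P : Finset D}
variable {A : Finset V} {al : D → D} {ns : Finset (Finset V)} {w x : D} {lam : ℕ}

/-- parity of a set of darts closed under `al` -/
private theorem even_inv (S : Finset D) (hS : S ⊆ G.ds) (hcl : ∀ d ∈ S, G.al d ∈ S) :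
    Even S.card := by
  have h1 : ∑ _d ∈ S, (1 : ZMod 2) = 0 := by
    refine sum_involution (fun d _ => G.al d) ?_ ?_ ?_ ?_
    · intro d _
      decide
    · intro d hd _ he
      exact G.noloop d (hS hd) (by rw [he])
    · intro d hd
      exact hcl d hd
    · intro d hd
      exact G.al_al d (hS hd)
  rw [sum_const, nsmul_eq_mul, mul_one] at h1
  rwa [ZMod.natCast_eq_zero_iff_even] at h1

/-- parity of the number of darts of a closed set `S` leaving `W` -/
private theorem bd_par' (S : Finset D) (hS : S ⊆ G.ds) (hal : ∀ d ∈ S, G.al d ∈ S)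
    (W : Finset V) :
    (G.bd W ∩ S).card % 2 = (S.filter fun d => G.pi d ∈ W).card % 2 := by
  have h1 : (S.filter fun d => G.pi d ∈ W) = (G.bd W ∩ S) ∪
      (S.filter fun d => G.pi d ∈ W ∧ G.pi (G.al d) ∈ W) := by
    ext d
    rw [mem_union, mem_filter, mem_inter, mem_filter, mem_bd]
    constructor
    · rintro ⟨h1, h2⟩
      by_cases h3 : G.pi (G.al d) ∈ W
      · exact Or.inr ⟨h1, h2, h3⟩
      · exact Or.inl ⟨⟨hS h1, h2, h3⟩, h1⟩
    · rintro (⟨⟨-, h1, -⟩, h2⟩ | ⟨h1, h2, -⟩)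
      · exact ⟨h2, h1⟩
      · exact ⟨h1, h2⟩
  have h2 : Disjoint (G.bd W ∩ S)
      (S.filter fun d => G.pi d ∈ W ∧ G.pi (G.al d) ∈ W) := by
    rw [disjoint_left]
    intro d h3 h4
    exact (mem_bd.1 (mem_inter.1 h3).1).2.2 (mem_filter.1 h4).2.2
  have h3 : Even (S.filter fun d => G.pi d ∈ W ∧ G.pi (G.al d) ∈ W).card := by
    refine even_inv (G := G) _ ((filter_subset _ _).trans hS) ?_
    intro d hd
    obtain ⟨h4, h5, h6⟩ := mem_filter.1 hd
    refine mem_filter.2 ⟨hal d h4, h6, ?_⟩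
    rw [G.al_al d (hS h4)]
    exact h5
  rw [h1, card_union_of_disjoint h2]
  obtain ⟨k, hk⟩ := h3
  omega

/-- number of darts of `S` at vertices of `W` if there are `k` darts at every vertex -/
private theorem card_at (S : Finset D) (W : Finset V) (k : ℕ)
    (h : ∀ v ∈ W, (S.filter fun d => G.pi d = v).card = k) :
    (S.filter fun d => G.pi d ∈ W).card = k * W.card := by
  rw [card_eq_sum_card_fiberwise (f := G.pi) (s := S.filter fun d => G.pi d ∈ W) (t := W)
    (fun d hd => (mem_filter.1 (mem_coe.1 hd)).2)]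
  rw [mul_comm, ← smul_eq_mul, ← sum_const]
  refine sum_congr rfl fun v hv => ?_
  rw [← h v hv, filter_filter]
  congr 1
  ext d
  rw [mem_filter, mem_filter]
  constructor
  · rintro ⟨h2, -, h3⟩
    exact ⟨h2, h3⟩
  · rintro ⟨h2, h3⟩
    exact ⟨h2, h3 ▸ hv, h3⟩

/-- a circuit which is cut by `W` has at least two boundary darts -/
theorem Circ.two_bd (hF : G.FrS z fr F ∅) {C : Finset V} (hC : G.Circ fr F C) {W : Finset V}
    (h1 : ∃ v ∈ C, v ∈ W) (h2 : ∃ v ∈ C, v ∉ W) :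
    2 ≤ (G.bd W ∩ F.filter fun d => G.pi d ∈ C).card := by
  have hS : (F.filter fun d => G.pi d ∈ C) ⊆ G.ds := (filter_subset _ _).trans hF.Fsub
  have hal : ∀ d ∈ F.filter fun d => G.pi d ∈ C, G.al d ∈ F.filter fun d => G.pi d ∈ C := by
    intro d hd
    obtain ⟨h3, h4⟩ := mem_filter.1 hd
    exact mem_filter.2 ⟨hF.Fal d h3, hC.adm.clo d h3 h4⟩
  have h3 := bd_par' _ hS hal W
  have h4 : ((F.filter fun d => G.pi d ∈ C).filter fun d => G.pi d ∈ W) =
      F.filter fun d => G.pi d ∈ C ∩ W := by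
    ext d
    rw [mem_filter, mem_filter, mem_filter, mem_inter]
    tauto
  have h5 : (F.filter fun d => G.pi d ∈ C ∩ W).card = 2 * (C ∩ W).card :=
    card_at F (C ∩ W) 2 fun v hv => hC.two v (mem_inter.1 hv).1
  rw [h4, h5] at h3
  have h6 : (G.bd W ∩ F.filter fun d => G.pi d ∈ C).card ≠ 0 := by
    intro h0
    rw [card_eq_zero] at h0
    obtain ⟨v, hv, hvW⟩ := h1
    obtain ⟨u, hu, huW⟩ := h2
    have h7 : C ∩ W = C := by
      refine hC.min _ ⟨inter_subset_left.trans hC.adm.sub, ?_⟩ inter_subset_left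
        ⟨v, mem_inter.2 ⟨hv, hvW⟩⟩
      intro d hd hp
      obtain ⟨h8, h9⟩ := mem_inter.1 hp
      refine mem_inter.2 ⟨hC.adm.clo d hd h8, ?_⟩
      by_contra h10
      have h11 : d ∈ G.bd W ∩ F.filter fun d => G.pi d ∈ C :=
        mem_inter.2 ⟨mem_bd.2 ⟨hF.Fsub hd, h9, h10⟩, mem_filter.2 ⟨hd, h8⟩⟩
      rw [h0] at h11
      exact notMem_empty _ h11
    rw [← h7] at hu
    exact huW (mem_inter.1 hu).2
  omega

/-- a vertex outside `A` which is on no odd circuit has exactly one dart of `NN` -/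
theorem PmE.card_one (hF : G.FrS z fr F ∅) (hN : G.PmE z t fr F A NN) {v : V}
    (hv : v ∈ G.vs \ A) (hno : ∀ C, G.Circ fr F C → Odd C.card → v ∉ C) :
    (NN.filter fun d => G.pi d = v).card = 1 := by
  obtain ⟨h1, h2⟩ := mem_sdiff.1 hv
  by_cases h3 : v ∈ fr
  · obtain ⟨C, hC, h4⟩ := FrS.exists_circ' hF h3
    refine hN.one C hC ?_ v h4
    rw [← Nat.not_odd_iff_even]
    exact fun h5 => hno C hC h5 h4
  · exact hN.out v h1 h3 h2

namespace Trl

theorem z_int (h : G.Trl z t fr F A NN al ns P w x lam) {d : D} (hd : d ∈ G.ds)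
    (hA : G.pi d ∉ A) : ∃ k : ℕ, G.trz z NN P d = k := by
  unfold trz
  split_ifs with h1 h2
  · exact ⟨0, by norm_num⟩
  · exact ⟨1 + (P.filter fun e => G.pi e = G.pi d).card, by rw [h.hN.zN d h2]; push_cast; ring⟩
  · rcases h.hN.z01 d hd hA with h3 | h3
    · exact ⟨0, by rw [h3]; norm_num⟩
    · exact ⟨1, by rw [h3]; norm_num⟩

/-- the new values of sets outside `A` are integers of the parity of the cardinality -/
theorem val_int (h : G.Trl z t fr F A NN al ns P w x lam) {W : Finset V} (hW : W ⊆ G.vs \ A) :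
    ∃ k : ℕ, G.val (G.trz z NN P) (G.trt t w x) W = k ∧ k % 2 = W.card % 2 := by
  have hWv : W ⊆ G.vs := hW.trans sdiff_subset
  have e1 : G.val (G.trz z NN P) (G.trt t w x) W =
      3 * W.card - ∑ d ∈ G.ed W W, G.trz z NN P d := by
    have h1 : ∑ v ∈ W, (∑ d ∈ G.st v, G.trz z NN P d + G.trt t w x v) = 3 * (W.card : ℝ) := by
      rw [sum_congr rfl fun v hv => h.deg (hWv hv), sum_const, nsmul_eq_mul, mul_comm]
    have h2 : ∑ v ∈ W, ∑ d ∈ G.st v, G.trz z NN P d =
        ∑ d ∈ G.bd W, G.trz z NN P d + ∑ d ∈ G.ed W W, G.trz z NN P d := by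
      rw [← sum_biUnion, ← sum_union]
      · refine sum_congr ?_ fun _ _ => rfl
        ext d
        rw [mem_biUnion, mem_union, mem_bd, mem_ed]
        constructor
        · rintro ⟨v, hv, hd⟩
          rw [mem_st] at hd
          by_cases h3 : G.pi (G.al d) ∈ W
          · exact Or.inr ⟨hd.1, hd.2 ▸ hv, h3⟩
          · exact Or.inl ⟨hd.1, hd.2 ▸ hv, h3⟩
        · rintro (hd | hd)
          · exact ⟨_, hd.2.1, mem_st.2 ⟨hd.1, rfl⟩⟩
          · exact ⟨_, hd.2.1, mem_st.2 ⟨hd.1, rfl⟩⟩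
      · rw [disjoint_left]
        intro d h3 h4
        exact (mem_bd.1 h3).2.2 (mem_ed.1 h4).2.2
      · intro v _ w _ hvw
        change Disjoint (G.st v) (G.st w)
        rw [disjoint_left]
        intro d h3 h4
        exact hvw ((mem_st.1 h3).2.symm.trans (mem_st.1 h4).2)
    rw [sum_add_distrib, h2] at h1
    unfold val
    linarith
  have hA : ∀ d ∈ G.ed W W, G.pi d ∉ A := fun d hd =>
    (mem_sdiff.1 (hW (mem_ed.1 hd).2.1)).2
  have h1 : ∀ d ∈ G.ed W W, ∃ k : ℕ, G.trz z NN P d = k := fun d hd =>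
    h.z_int (mem_ed.1 hd).1 (hA d hd)
  choose! f hf using h1
  have h2 : ∑ d ∈ G.ed W W, G.trz z NN P d = ((∑ d ∈ G.ed W W, f d : ℕ) : ℝ) := by
    push_cast
    exact sum_congr rfl fun e he => hf e he
  have hal : ∀ e ∈ G.ed W W, G.al e ∈ G.ed W W := by
    intro e he
    obtain ⟨h5, h6, h7⟩ := mem_ed.1 he
    exact mem_ed.2 ⟨G.al_mem e h5, h7, by rw [G.al_al e h5]; exact h6⟩
  have h3 : ∀ e ∈ G.ed W W, f (G.al e) = f e := by
    intro e he
    have h4 := h.sym (mem_ed.1 he).1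
    rw [hf e he, hf _ (hal e he)] at h4
    exact_mod_cast h4
  have h4 : Even (∑ d ∈ G.ed W W, f d) := by
    rw [← ZMod.natCast_eq_zero_iff_even]
    push_cast
    refine sum_involution (fun d _ => G.al d) ?_ ?_ ?_ ?_
    · intro e he
      rw [h3 e he, ← two_mul]
      have : (2 : ZMod 2) = 0 := rfl
      rw [this, zero_mul]
    · intro e he _ h5
      exact G.noloop e (mem_ed.1 he).1 (by rw [h5])
    · intro e he
      exact hal e he
    · intro e he
      exact G.al_al e (mem_ed.1 he).1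
  have h5 : 0 ≤ G.val (G.trz z NN P) (G.trt t w x) W := by
    unfold val
    have k1 : 0 ≤ ∑ d ∈ G.bd W, G.trz z NN P d := sum_nonneg fun d hd => h.trz0 (mem_bd.1 hd).1
    have k2 : 0 ≤ ∑ v ∈ W, G.trt t w x v := sum_nonneg fun v hv => h.trt0 (hWv hv)
    linarith
  obtain ⟨k, hk⟩ := h4
  rw [e1, h2, hk] at h5
  have h6 : k + k ≤ 3 * W.card := by
    have h7 : (((k + k : ℕ) : ℝ)) ≤ 3 * (W.card : ℝ) := by linarith
    exact_mod_cast h7
  refine ⟨3 * W.card - (k + k), ?_, by omega⟩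
  rw [e1, h2, hk, Nat.cast_sub h6]
  push_cast
  ring

/-- value = live legs + matching edges + token -/
theorem val_eq (h : G.Trl z t fr F A NN al ns P w x lam) {W : Finset V} (hW : W ⊆ G.vs \ A) :
    G.val (G.trz z NN P) (G.trt t w x) W =
      (ThmQ.dct G.al G.pi (G.ld z A NN \ P) W : ℝ) +
      ∑ d ∈ G.bd W ∩ NN, (1 + ((P.filter fun e => G.pi e = G.pi d).card : ℝ)) +
      (if G.pi x ∈ W then 1 else 0) := by
  have ht : ∑ v ∈ W, G.trt t w x v = (if G.pi x ∈ W then 1 else 0) := by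
    unfold trt
    rw [sum_add_distrib, sum_add_distrib]
    have h1 : ∑ v ∈ W, t v = 0 := sum_eq_zero fun v hv =>
      h.hN.t0 v (mem_sdiff.1 (hW hv)).1 (mem_sdiff.1 (hW hv)).2
    have h2 : ∑ v ∈ W, (if v = G.pi w then (1 : ℝ) else 0) = 0 := sum_eq_zero fun v hv => by
      rw [if_neg]
      rintro rfl
      exact (mem_sdiff.1 (hW hv)).2 h.wA
    rw [h1, h2, sum_ite_eq']
    norm_num
  have hb : ∑ d ∈ G.bd W, G.trz z NN P d =
      ∑ d ∈ G.bd W ∩ NN, G.trz z NN P d + ∑ d ∈ G.bd W \ NN, G.trz z NN P d := by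
    rw [← sum_union]
    · congr 1
      ext d
      rw [mem_union, mem_inter, mem_sdiff]
      tauto
    · rw [disjoint_left]
      intro d h1 h2
      exact (mem_sdiff.1 h2).2 (mem_inter.1 h1).2
  have h1 : ∑ d ∈ G.bd W ∩ NN, G.trz z NN P d =
      ∑ d ∈ G.bd W ∩ NN, (1 + ((P.filter fun e => G.pi e = G.pi d).card : ℝ)) :=
    sum_congr rfl fun d hd => h.trz_NN (mem_inter.1 hd).2
  have h2 : ∑ d ∈ G.bd W \ NN, G.trz z NN P d =
      (ThmQ.dct G.al G.pi (G.ld z A NN \ P) W : ℝ) := by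
    have e1 : ((G.ld z A NN \ P).filter fun d => G.pi d ∈ W ∧ G.pi (G.al d) ∉ W) =
        (G.bd W \ NN).filter fun d => d ∉ P ∧ z d ≠ 0 := by
      ext d
      rw [mem_filter, mem_sdiff, mem_filter, mem_sdiff, mem_bd]
      unfold ld
      rw [mem_filter]
      constructor
      · rintro ⟨⟨⟨k1, k2, k3, k4⟩, k5⟩, k6, k7⟩
        exact ⟨⟨⟨k1, k6, k7⟩, k2⟩, k5, k3⟩
      · rintro ⟨⟨⟨k1, k6, k7⟩, k2⟩, k5, k3⟩
        exact ⟨⟨⟨k1, k2, k3, Or.inl (mem_sdiff.1 (hW k6)).2⟩, k5⟩, k6, k7⟩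
    unfold ThmQ.dct
    rw [e1, card_filter]
    push_cast
    refine sum_congr rfl fun d hd => ?_
    obtain ⟨k1, k2⟩ := mem_sdiff.1 hd
    obtain ⟨k3, k4, k5⟩ := mem_bd.1 k1
    unfold trz
    rw [if_neg k2]
    by_cases hP : d ∈ P
    · rw [if_pos hP, if_neg (fun h => h.1 hP)]
    · rw [if_neg hP]
      rcases h.hN.z01 d k3 (mem_sdiff.1 (hW k4)).2 with k6 | k6
      · rw [if_neg (fun h => h.2 k6), k6]
      · rw [if_pos ⟨hP, by rw [k6]; norm_num⟩, k6]
  unfold val
  rw [ht, hb, h1, h2]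
  ring

theorem wW (h : G.Trl z t fr F A NN al ns P w x lam) {W : Finset V} (hW : W ⊆ G.vs \ A) :
    G.pi w ∉ W := fun h1 => (mem_sdiff.1 (hW h1)).2 h.wA

/-- a lower bound from the live legs and the matching edges -/
theorem val_ge (h : G.Trl z t fr F A NN al ns P w x lam) {W : Finset V} (hW : W ⊆ G.vs \ A)
    {n : ℕ} (hn : n ≤ ThmQ.dct G.al G.pi (G.ld z A NN \ P) W + (if G.pi x ∈ W then 1 else 0) +
      (if G.pi w ∈ W then 1 else 0)) :
    (n : ℝ) + (G.bd W ∩ NN).card ≤ G.val (G.trz z NN P) (G.trt t w x) W := by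
  rw [h.val_eq hW]
  rw [if_neg (h.wW hW), add_zero] at hn
  have h1 : ((G.bd W ∩ NN).card : ℝ) ≤
      ∑ d ∈ G.bd W ∩ NN, (1 + ((P.filter fun e => G.pi e = G.pi d).card : ℝ)) := by
    rw [card_eq_sum_ones]
    push_cast
    refine sum_le_sum fun d _ => ?_
    have := Nat.cast_nonneg (α := ℝ) (P.filter fun e => G.pi e = G.pi d).card
    linarith
  have h2 : (n : ℝ) ≤ (ThmQ.dct G.al G.pi (G.ld z A NN \ P) W : ℝ) +
      (if G.pi x ∈ W then 1 else 0) := by
    have h3 : ((ThmQ.dct G.al G.pi (G.ld z A NN \ P) W + (if G.pi x ∈ W then 1 else 0) : ℕ) : ℝ)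
        = (ThmQ.dct G.al G.pi (G.ld z A NN \ P) W : ℝ) + (if G.pi x ∈ W then 1 else 0) := by
      push_cast
      rfl
    rw [← h3]
    exact_mod_cast hn
  linarith

/-- odd sets of value at least 2 have value at least 3 -/
theorem three_of_two (h : G.Trl z t fr F A NN al ns P w x lam) {W : Finset V} (hW : W ⊆ G.vs \ A)
    (ho : Odd W.card) (h2 : 2 ≤ G.val (G.trz z NN P) (G.trt t w x) W) :
    3 ≤ G.val (G.trz z NN P) (G.trt t w x) W := by
  obtain ⟨k, hk, hp⟩ := h.val_int hW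
  rw [hk] at h2 ⊢
  have h3 : 2 ≤ k := by exact_mod_cast h2
  rw [Nat.odd_iff] at ho
  have h4 : 3 ≤ k := by omega
  exact_mod_cast h4

/-- sets which cut no node in the form used in `Out` -/
theorem cl_iff (h : G.Trl z t fr F A NN al ns P w x lam) {W : Finset V} (hW : W ⊆ G.vs \ A)
    (hcl : ∀ u ∈ W, G.bk fr F A NN u ⊆ W) :
    ∀ u v, G.bk fr F A NN u = G.bk fr F A NN v → (u ∈ W ↔ v ∈ W) := by
  have key : ∀ u v, G.bk fr F A NN u = G.bk fr F A NN v → u ∈ W → v ∈ W := by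
    intro u v huv hu
    have h1 := h.hN.mem_bk h.hF (hW hu)
    by_cases hv : v ∈ G.vs \ A
    · have h2 := h.hN.mem_bk h.hF hv
      rw [← huv] at h2
      exact hcl u hu h2
    · rw [huv, bk_of_not hv] at h1
      exact absurd h1 (notMem_empty _)
  exact fun u v huv => ⟨key u v huv, key v u huv.symm⟩

/-- unions of nodes have value at least 4 (5 if odd) -/
theorem cut4 (h : G.Trl z t fr F A NN al ns P w x lam) {W : Finset V} (hW : W ⊆ G.vs \ A)
    (hcl : ∀ u ∈ W, G.bk fr F A NN u ⊆ W) (hin : ∃ u ∈ W, G.bk fr F A NN u ∈ ns) :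
    4 ≤ G.val (G.trz z NN P) (G.trt t w x) W := by
  have h1 := h.out.zero (h.hN.bs h.hF h.hw) h.rq (W := W)
    (fun u v huv _ => h.cl_iff hW hcl u v huv) hin
    ⟨G.pi w, h.wW hW, h.out.wn⟩
  have h2 := h.val_ge hW h1
  have h3 := Nat.cast_nonneg (α := ℝ) (G.bd W ∩ NN).card
  push_cast at h2
  linarith

/-- MAIN INEQUALITY (57793 (3)): odd sets outside `A` have value at least 3 -/
theorem cut (h : G.Trl z t fr F A NN al ns P w x lam) {W : Finset V} (hW : W ⊆ G.vs \ A)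
    (ho : Odd W.card) : 3 ≤ G.val (G.trz z NN P) (G.trt t w x) W := by
  have hb := h.hN.bs h.hF h.hw
  -- no odd circuit is cut
  by_cases h1 : ∃ C, G.Circ fr F C ∧ Odd C.card ∧ (∃ v ∈ C, v ∈ W) ∧ ∃ v ∈ C, v ∉ W
  · obtain ⟨C, hC, hCo, h2, h3⟩ := h1
    refine h.three_of_two hW ho ?_
    have h4 := hC.two_bd h.hF h2 h3
    have h5 : ∑ d ∈ G.bd W ∩ F.filter (fun d => G.pi d ∈ C), G.trz z NN P d ≤
        ∑ d ∈ G.bd W, G.trz z NN P d :=
      sum_le_sum_of_subset_of_nonneg inter_subset_left fun d hd _ => h.trz0 (mem_bd.1 hd).1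
    have h6 : ∑ d ∈ G.bd W ∩ F.filter (fun d => G.pi d ∈ C), G.trz z NN P d =
        (G.bd W ∩ F.filter (fun d => G.pi d ∈ C)).card := by
      rw [card_eq_sum_ones]
      push_cast
      refine sum_congr rfl fun d hd => ?_
      obtain ⟨h7, h8⟩ := mem_filter.1 (mem_inter.1 hd).2
      exact h.trz_odd hC hCo h7 h8
    have h7 : 0 ≤ ∑ v ∈ W, G.trt t w x v := sum_nonneg fun v hv =>
      h.trt0 (mem_sdiff.1 (hW hv)).1
    have h8 : (2 : ℝ) ≤ (G.bd W ∩ F.filter (fun d => G.pi d ∈ C)).card := by exact_mod_cast h4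
    unfold val
    linarith
  -- number of cut pairs
  by_cases h2 : 2 ≤ (G.bd W ∩ NN).card
  · refine h.three_of_two hW ho ?_
    have h3 := h.val_ge hW (Nat.zero_le _)
    have h4 : (2 : ℝ) ≤ (G.bd W ∩ NN).card := by exact_mod_cast h2
    push_cast at h3
    linarith
  have hodd : ∀ C, G.Circ fr F C → Odd C.card → ∀ u ∈ C, ∀ v ∈ C, u ∈ W → v ∈ W := by
    intro C hC hCo u hu v hv huW
    by_contra hvW
    exact h1 ⟨C, hC, hCo, ⟨u, hu, huW⟩, v, hv, hvW⟩
  -- a cut node is a pair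
  have hcut : ∀ u v, G.bk fr F A NN u = G.bk fr F A NN v → u ∈ W → v ∉ W →
      ∃ n ∈ G.bd W ∩ NN, G.pi n = u := by
    intro u v huv hu hv
    have hvA : v ∈ G.vs \ A := by
      by_contra hvA
      have h3 := h.hN.mem_bk h.hF (hW hu)
      rw [huv, bk_of_not hvA] at h3
      exact notMem_empty _ h3
    rcases h.hN.cases h.hF (hW hu) with ⟨n, hn, hnu⟩ | ⟨C, hC, hCo, huC⟩
    · have h3 := h.hN.mem_bk h.hF hvA
      rw [← huv, ← hnu, h.hN.bk_pair h.hF hn, mem_insert, mem_singleton] at h3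
      rcases h3 with h3 | h3
      · exact absurd hu (by rw [← hnu, ← h3]; exact hv)
      · refine ⟨n, mem_inter.2 ⟨mem_bd.2 ⟨h.hN.sub hn, by rw [hnu]; exact hu, ?_⟩, hn⟩, hnu⟩
        rw [← h3]
        exact hv
    · exfalso
      have h3 := h.hN.mem_bk h.hF hvA
      rw [← huv, h.hN.bk_odd h.hF hC hCo huC] at h3
      exact hv (hodd C hC hCo u huC v h3 hu)
  by_cases h3 : (G.bd W ∩ NN).Nonempty
  · obtain ⟨n, hn⟩ := h3
    obtain ⟨hnb, hnN⟩ := mem_inter.1 hn
    obtain ⟨hnd, hn1, hn2⟩ := mem_bd.1 hnb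
    have huniq : ∀ n' ∈ G.bd W ∩ NN, n' = n := by
      intro n' hn'
      by_contra hne
      exact h2 (one_lt_card.2 ⟨n', hn', n, hn, hne⟩)
    have hbk : G.bk fr F A NN (G.pi n) = G.bk fr F A NN (G.pi (G.al n)) := by
      rw [h.hN.bk_pair h.hF hnN, h.hN.bk_pair h.hF (h.hN.al n hnN), G.al_al n hnd, pair_comm]
    have hpP : G.bk fr F A NN (G.pi n) ∈ G.bkp fr F A NN := by
      unfold bkp
      refine mem_filter.2 ⟨mem_image_of_mem _ (hW hn1), ?_⟩
      rw [h.hN.bk_pair h.hF hnN, card_pair (fun e => G.noloop n hnd e.symm)]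
      exact even_two
    by_cases h4 : G.bk fr F A NN (G.pi n) ∈ ns
    · -- the pair is not split
      have h5 := h.out.one hb h.rq (W := W) hbk hpP h4 hn1 hn2 (by
          intro u v huv _ hne
          have key : ∀ u v, G.bk fr F A NN u = G.bk fr F A NN v →
              G.bk fr F A NN u ≠ G.bk fr F A NN (G.pi n) → u ∈ W → v ∈ W := by
            intro u v huv hne hu
            by_contra hv
            obtain ⟨n', hn', h6⟩ := hcut u v huv hu hv
            rw [huniq n' hn'] at h6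
            exact hne (by rw [h6])
          exact ⟨key u v huv hne, key v u huv.symm (by rw [← huv]; exact hne)⟩)
        ⟨G.pi w, h.wW hW, h.out.wn, fun h6 => h.out.wt (by rw [h6]; exact hpP)⟩
      have h6 := h.val_ge hW h5
      have h7 : 1 ≤ (G.bd W ∩ NN).card := card_pos.2 ⟨n, hn⟩
      have h8 : (1 : ℝ) ≤ (G.bd W ∩ NN).card := by exact_mod_cast h7
      push_cast at h6
      linarith
    · -- the pair is passed
      refine h.three_of_two hW ho ?_
      have h5 := h.out.card_pos hb hpP h4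
      have h6 : G.trz z NN P n ≤ ∑ d ∈ G.bd W, G.trz z NN P d :=
        single_le_sum (f := G.trz z NN P) (fun d hd => h.trz0 (mem_bd.1 hd).1) hnb
      have h7 : 0 ≤ ∑ v ∈ W, G.trt t w x v := sum_nonneg fun v hv =>
        h.trt0 (mem_sdiff.1 (hW hv)).1
      have h8 : (1 : ℝ) ≤ (P.filter fun e => G.pi e = G.pi n).card := by exact_mod_cast h5
      rw [h.trz_NN hnN] at h6
      unfold val
      linarith
  · -- no pair is cut
    rw [not_nonempty_iff_eq_empty] at h3
    have hcl : ∀ u ∈ W, G.bk fr F A NN u ⊆ W := by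
      intro u hu v hv
      by_contra hvW
      have h4 : G.bk fr F A NN v = G.bk fr F A NN u := (h.hN.bk_eq_iff h.hF (hW hu)).2 hv
      obtain ⟨n, hn, -⟩ := hcut u v h4.symm hu hvW
      rw [h3] at hn
      exact notMem_empty _ hn
    -- `W` contains an odd circuit
    have h4 : ∃ C, G.Circ fr F C ∧ Odd C.card ∧ ∃ v ∈ C, v ∈ W := by
      by_contra hno
      have h5 : ∀ v ∈ W, (NN.filter fun d => G.pi d = v).card = 1 := fun v hv =>
        h.hN.card_one h.hF (hW hv) fun C hC hCo hvC => hno ⟨C, hC, hCo, v, hvC, hv⟩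
      have h6 := card_at (G := G) NN W 1 h5
      have h7 := bd_par' NN h.hN.sub h.hN.al W
      rw [h3, card_empty, h6, one_mul] at h7
      rw [Nat.odd_iff] at ho
      omega
    obtain ⟨C, hC, hCo, v, hvC, hvW⟩ := h4
    have h5 : G.bk fr F A NN v = C := h.hN.bk_odd h.hF hC hCo hvC
    have h6 : C ∈ ns := by
      refine h.out.ter C ?_ ?_
      · unfold bks
        rw [← h5]
        exact mem_insert_of_mem (mem_image_of_mem _ (hW hvW))
      · unfold bkp
        intro h7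
        exact (Nat.not_even_iff_odd.2 hCo) (mem_filter.1 h7).2
    have h7 := h.cut4 hW hcl ⟨v, hvW, by rw [h5]; exact h6⟩
    linarith

end Trl

end MG

end RH
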