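import Pool.Agent.Lib.RH.Base
import Pool.Agent.Lib.RH.Kill

/-! Barriers (Tutte) and the structure of states with at most 6 tokens which have no perfect matching
(helper64, 78: terminal states). -/

set_option autoImplicit false

namespace RH

open Finset Classical

namespace MG

variable {V D : Type*}

/-- Tutte's theorem for the edges of positive weight -/
theorem exists_barrier (G : MG V D) (z : D → ℝ) (he : Even G.vs.card)
    (hs : ∀ d ∈ G.ds, z (G.al d) = z d) (hno : ¬ ∃ M, G.IsPM M ∧ ∀ d ∈ M, 0 < z d) :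
    ∃ (U : Finset V) (K : Finset (Finset V)), U ⊆ G.vs ∧ U.card + 2 ≤ K.card ∧
      (∀ Q ∈ K, Q ⊆ G.vs \ U ∧ Odd Q.card) ∧
      (∀ Q ∈ K, ∀ Q' ∈ K, Q ≠ Q' → Disjoint Q Q') ∧
      ∀ Q ∈ K, ∀ d ∈ G.bd Q, 0 < z d → G.pi (G.al d) ∈ U := by
  have hnot : ¬ ∃ M : (baseS G z hs).Subgraph, M.IsPerfectMatching := fun ⟨M, hM⟩ =>
    hno (base_pm G z hs M hM)
  rw [SimpleGraph.tutte] at hnot
  push Not at hnot
  obtain ⟨u, hu⟩ := hnot
  unfold SimpleGraph.IsTutteViolator at hu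
  set S : (baseS G z hs).Subgraph := (⊤ : (baseS G z hs).Subgraph).deleteVerts u with hS
  set H := S.coe with hH
  have hverts : ∀ w : {v // v ∈ G.vs}, w ∈ S.verts ↔ w ∉ u := by
    intro w
    simp [hS]
  have : Finite S.verts := Subtype.finite
  have : Finite H.ConnectedComponent := Quot.finite _
  let : Fintype H.ConnectedComponent := Fintype.ofFinite _
  -- the set U
  set U : Finset V := G.vs.filter fun v => ∃ h : v ∈ G.vs, (⟨v, h⟩ : {v // v ∈ G.vs}) ∈ u with hU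
  have hUsub : U ⊆ G.vs := filter_subset _ _
  have hUcard : U.card = u.ncard := by
    rw [← Set.ncard_coe_finset]
    have : (U : Set V) = Subtype.val '' u := by
      ext v
      simp only [hU, coe_filter, Set.mem_ofPred_eq, Set.mem_image]
      constructor
      · rintro ⟨_, h, h'⟩; exact ⟨_, h', rfl⟩
      · rintro ⟨⟨w, hw⟩, h, rfl⟩; exact ⟨hw, hw, h⟩
    rw [this, Set.ncard_image_of_injective _ Subtype.val_injective]
  -- the components
  set Q : H.ConnectedComponent → Finset V := fun c => G.vs.filter fun v =>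
    ∃ (h : v ∈ G.vs) (h' : (⟨v, h⟩ : {v // v ∈ G.vs}) ∈ S.verts),
      H.connectedComponentMk ⟨⟨v, h⟩, h'⟩ = c with hQ
  have hQsub : ∀ c, Q c ⊆ G.vs := fun c => filter_subset _ _
  have hQcard : ∀ c, (Q c).card = c.supp.ncard := by
    intro c
    rw [← Set.ncard_coe_finset]
    have : (Q c : Set V) = (fun x : S.verts => ((x : {v // v ∈ G.vs}) : V)) '' c.supp := by
      ext v
      simp only [hQ, coe_filter, Set.mem_ofPred_eq, Set.mem_image,
        SimpleGraph.ConnectedComponent.mem_supp_iff]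
      constructor
      · rintro ⟨_, h, h', h''⟩; exact ⟨_, h'', rfl⟩
      · rintro ⟨⟨⟨w, hw⟩, hw'⟩, h, rfl⟩; exact ⟨hw, hw, hw', h⟩
    rw [this, Set.ncard_image_of_injective]
    intro x y hxy
    exact Subtype.ext (Subtype.ext hxy)
  have hQdis : ∀ c c', c ≠ c' → Disjoint (Q c) (Q c') := by
    intro c c' hcc
    rw [Finset.disjoint_left]
    intro v hv hv'
    simp only [hQ, mem_filter] at hv hv'
    obtain ⟨_, h, h1, h2⟩ := hv
    obtain ⟨_, h', h1', h2'⟩ := hv'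
    exact hcc (h2.symm.trans h2')
  have hleave : ∀ c, ∀ d ∈ G.bd (Q c), 0 < z d → G.pi (G.al d) ∈ U := by
    intro c d hd hzd
    unfold bd at hd
    rw [mem_filter] at hd
    obtain ⟨hds, hp, hp'⟩ := hd
    have hpa : G.pi (G.al d) ∈ G.vs := G.pi_mem _ (G.al_mem _ hds)
    by_contra hnU
    have hnu : (⟨G.pi (G.al d), hpa⟩ : {v // v ∈ G.vs}) ∉ u := by
      intro h
      exact hnU (by simp only [hU, mem_filter]; exact ⟨hpa, hpa, h⟩)
    have hv2 := (hverts _).mpr hnu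
    simp only [hQ, mem_filter] at hp
    obtain ⟨hpv, h, h', h''⟩ := hp
    apply hp'
    simp only [hQ, mem_filter]
    refine ⟨hpa, hpa, hv2, ?_⟩
    rw [← h'']
    apply SimpleGraph.ConnectedComponent.sound
    apply SimpleGraph.Adj.reachable
    have hadj : (baseS G z hs).Adj ⟨G.pi (G.al d), hpa⟩ ⟨G.pi d, h⟩ := by
      refine ⟨fun h => G.noloop d hds (congrArg Subtype.val h), G.al d, G.al_mem _ hds, ?_, rfl,
        ?_⟩
      · rw [hs d hds]
        exact hzd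
      · rw [G.al_al _ hds]
    change S.Adj _ _
    exact (SimpleGraph.Subgraph.deleteVerts_adj (G' := (⊤ : (baseS G z hs).Subgraph))
      (s := u)).mpr ⟨Set.mem_univ _, (hverts _).mp hv2, Set.mem_univ _, (hverts _).mp h', hadj⟩
  set OC : Finset H.ConnectedComponent := univ.filter fun c => c ∈ H.oddComponents with hOC
  have hOCcard : OC.card = H.oddComponents.ncard := by
    rw [← Set.ncard_coe_finset]
    congr 1
    ext c
    simp [hOC]
  have hodd : ∀ c ∈ OC, Odd (Q c).card := by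
    intro c hc
    rw [hQcard]
    have : c ∈ H.oddComponents := (mem_filter.mp hc).2
    exact this
  -- parity
  have hpar : Odd OC.card ↔ Odd (Nat.card S.verts) := by
    rw [hOCcard]
    exact H.odd_ncard_oddComponents
  have hSv : Nat.card S.verts + U.card = G.vs.card := by
    have h1 : Nat.card S.verts = (uᶜ : Set {v // v ∈ G.vs}).ncard := by
      have : S.verts = uᶜ := by ext w; rw [hverts]; rfl
      rw [this]; rfl
    rw [h1, hUcard, add_comm, Set.ncard_add_ncard_compl, Nat.card_eq_fintype_card,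
      Fintype.card_coe]
  rw [← hOCcard, ← hUcard] at hu
  rw [Nat.odd_iff, Nat.odd_iff] at hpar
  rw [Nat.even_iff] at he
  have hQU : ∀ c, Q c ⊆ G.vs \ U := by
    intro c v hv
    refine mem_sdiff.2 ⟨hQsub c hv, fun hvU => ?_⟩
    simp only [hQ, mem_filter] at hv
    obtain ⟨hv1, h, h', h''⟩ := hv
    simp only [hU, mem_filter] at hvU
    obtain ⟨_, h1, h2⟩ := hvU
    exact (hverts _).mp h' h2
  have hinj : ∀ c ∈ OC, ∀ c' ∈ OC, Q c = Q c' → c = c' := by
    intro c hc c' hc' hcc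
    by_contra hne
    have h1 := hQdis c c' hne
    rw [hcc, disjoint_self] at h1
    have h2 := hodd c' hc'
    rw [h1, bot_eq_empty, card_empty] at h2
    exact absurd h2 (by decide)
  refine ⟨U, OC.image Q, hUsub, ?_, ?_, ?_, ?_⟩
  · rw [card_image_of_injOn hinj]
    omega
  · intro A hA
    obtain ⟨c, hc, rfl⟩ := mem_image.1 hA
    exact ⟨hQU c, hodd c hc⟩
  · intro A hA A' hA' hne
    obtain ⟨c, hc, rfl⟩ := mem_image.1 hA
    obtain ⟨c', hc', rfl⟩ := mem_image.1 hA'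
    exact hQdis c c' fun h => hne (by rw [h])
  · intro A hA d hd hz
    obtain ⟨c, hc, rfl⟩ := mem_image.1 hA
    exact hleave c d hd hz

/-- a TERMINAL state: `I` and `S` are joined only by edges between them, all tokens are in `I` -/
structure TermS (G : MG V D) (z : D → ℝ) (t : V → ℝ) (I S : Finset V) : Prop where
  isub : I ⊆ G.vs
  ssub : S ⊆ G.vs
  dis : Disjoint I S
  card : I.card = S.card + 2
  eI : ∀ d ∈ G.ds, 0 < z d → G.pi d ∈ I → G.pi (G.al d) ∈ S
  eS : ∀ d ∈ G.ds, 0 < z d → G.pi d ∈ S → G.pi (G.al d) ∈ I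
  tok : ∀ v ∈ G.vs, v ∉ I → t v = 0
  tau : ∑ v ∈ G.vs, t v = 6

/-- **no perfect matching in a state with at most 6 tokens without tight sets**: an isolated vertex
with 3 tokens, or terminal -/
theorem exists_pm_or (G : MG V D) (z : D → ℝ) (t : V → ℝ) (he : Even G.vs.card) (hw : G.Wt z t)
    (ht : ∑ v ∈ G.vs, t v ≤ 6)
    (h5 : ∀ W ⊆ G.vs, Odd W.card → 3 ≤ W.card → 3 ≤ (G.vs \ W).card → 3 < G.val z t W) :
    (∃ M, G.IsPM M ∧ ∀ d ∈ M, 0 < z d) ∨
      (∃ v ∈ G.vs, t v = 3 ∧ ∀ d ∈ G.st v, z d = 0) ∨ ∃ I S, G.TermS z t I S := by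
  by_cases hno : ∃ M, G.IsPM M ∧ ∀ d ∈ M, 0 < z d
  · exact Or.inl hno
  right
  obtain ⟨U, K, hU, hcard, hK, hdis, hleave⟩ := exists_barrier G z he hw.sym hno
  have hdis' : ∀ Q ∈ K, ∀ Q' ∈ K, Q ≠ Q' → Disjoint Q Q' := hdis
  -- the union of the odd components
  obtain ⟨I, hI⟩ : ∃ I : Finset V, I = K.biUnion id := ⟨_, rfl⟩
  have hQI : ∀ Q ∈ K, Q ⊆ I := fun Q hQ => by
    rw [hI]
    exact subset_biUnion_of_mem id hQ
  have hmemI : ∀ v ∈ I, ∃ Q ∈ K, v ∈ Q := fun v hv => by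
    rw [hI] at hv
    exact mem_biUnion.1 hv
  have hIU : ∀ v ∈ I, v ∈ G.vs ∧ v ∉ U := fun v hv => by
    obtain ⟨Q, hQ, hv'⟩ := hmemI v hv
    exact mem_sdiff.1 ((hK Q hQ).1 hv')
  -- weights of the boundaries
  have hbd : ∑ Q ∈ K, ∑ d ∈ G.bd Q, z d = ∑ d ∈ G.ed I U, z d := by
    have h1 : ∀ Q ∈ K, ∑ d ∈ G.bd Q, z d =
        ∑ d ∈ (G.ed I U).filter (fun d => G.pi d ∈ Q), z d := by
      intro Q hQ
      refine (sum_subset ?_ ?_).symm
      · intro d hd
        obtain ⟨h2, h3⟩ := mem_filter.1 hd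
        obtain ⟨h4, h5, h6⟩ := mem_filter.1 h2
        exact mem_bd.2 ⟨h4, h3, fun h7 => (hIU _ (hQI Q hQ h7)).2 h6⟩
      · intro d hd hd'
        obtain ⟨h2, h3, h4⟩ := mem_bd.1 hd
        by_contra hz
        have h0 : 0 < z d := lt_of_le_of_ne (hw.z0 d h2) (Ne.symm hz)
        exact hd' (mem_filter.2 ⟨mem_filter.2 ⟨h2, hQI Q hQ h3, hleave Q hQ d hd h0⟩, h3⟩)
    rw [sum_congr rfl h1, ← sum_biUnion]
    · refine sum_congr ?_ fun _ _ => rfl
      ext d
      rw [mem_biUnion]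
      constructor
      · rintro ⟨Q, -, hd⟩
        exact (mem_filter.1 hd).1
      · intro hd
        obtain ⟨Q, hQ, h3⟩ := hmemI _ (mem_filter.1 hd).2.1
        exact ⟨Q, hQ, mem_filter.2 ⟨hd, h3⟩⟩
    · intro Q hQ Q' hQ' hne
      show Disjoint _ _
      rw [disjoint_left]
      intro d hd hd'
      exact disjoint_left.1 (hdis Q hQ Q' hQ' hne) (mem_filter.1 hd).2 (mem_filter.1 hd').2
  have hswap : ∑ d ∈ G.ed I U, z d = ∑ d ∈ G.ed U I, z d := by
    refine sum_bij (fun d _ => G.al d) ?_ ?_ ?_ ?_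
    · intro d hd
      obtain ⟨h4, h5, h6⟩ := mem_filter.1 hd
      exact mem_filter.2 ⟨G.al_mem d h4, h6, by rw [G.al_al d h4]; exact h5⟩
    · intro d hd d' hd' h
      rw [← G.al_al d (mem_filter.1 hd).1, h, G.al_al d' (mem_filter.1 hd').1]
    · intro d hd
      obtain ⟨h4, h5, h6⟩ := mem_filter.1 hd
      exact ⟨G.al d, mem_filter.2 ⟨G.al_mem d h4, h6, by rw [G.al_al d h4]; exact h5⟩,
        G.al_al d h4⟩
    · intro d hd
      exact (hw.sym d (mem_filter.1 hd).1).symm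
  -- degrees at `U`
  obtain ⟨x, hx⟩ : ∃ x : ℝ, x =
      ∑ d ∈ G.ds.filter (fun d => G.pi d ∈ U ∧ G.pi (G.al d) ∉ I), z d := ⟨_, rfl⟩
  have hx0 : 0 ≤ x := by
    rw [hx]
    exact sum_nonneg fun d hd => hw.z0 d (mem_filter.1 hd).1
  have hUdeg : ∑ d ∈ G.ed U I, z d + x + ∑ v ∈ U, t v = 3 * U.card := by
    have h1 : ∑ v ∈ U, ∑ d ∈ G.ds.filter (fun d => G.pi d = v), z d =
        ∑ d ∈ G.ds.filter (fun d => G.pi d ∈ U), z d := sum_pi_mem G G.ds z U
    have h2 := sum_filter_add_sum_filter_not (G.ds.filter fun d => G.pi d ∈ U)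
      (fun d => G.pi (G.al d) ∈ I) z
    rw [filter_filter, filter_filter] at h2
    have h3 : ∑ v ∈ U, (∑ d ∈ G.st v, z d + t v) = ∑ _v ∈ U, (3 : ℝ) :=
      sum_congr rfl fun v hv => hw.deg v (hU hv)
    rw [sum_add_distrib, sum_const, nsmul_eq_mul] at h3
    have h4 : ∑ v ∈ U, ∑ d ∈ G.st v, z d =
        ∑ v ∈ U, ∑ d ∈ G.ds.filter (fun d => G.pi d = v), z d := rfl
    have h5 : ∑ d ∈ G.ed U I, z d =
        ∑ d ∈ G.ds.filter (fun d => G.pi d ∈ U ∧ G.pi (G.al d) ∈ I), z d := rfl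
    rw [h5, hx]
    linarith
  -- tokens
  have htI : ∑ Q ∈ K, ∑ v ∈ Q, t v = ∑ v ∈ I, t v := by
    have h1 : (K : Set (Finset V)).PairwiseDisjoint id :=
      fun Q hQ Q' hQ' hne => hdis Q hQ Q' hQ' hne
    rw [hI, sum_biUnion h1]
    rfl
  have htok : ∑ v ∈ I, t v + ∑ v ∈ G.vs \ I, t v = ∑ v ∈ G.vs, t v := by
    rw [add_comm]
    exact sum_sdiff fun v hv => (hIU v hv).1
  have htU0 : 0 ≤ ∑ v ∈ U, t v := sum_nonneg fun v hv => hw.t0 v (hU hv)
  have htR0 : 0 ≤ ∑ v ∈ G.vs \ I, t v := sum_nonneg fun v hv => hw.t0 v (mem_sdiff.1 hv).1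
  have hval : ∑ Q ∈ K, G.val z t Q = ∑ d ∈ G.ed U I, z d + ∑ v ∈ I, t v := by
    have h1 : ∑ Q ∈ K, G.val z t Q = ∑ Q ∈ K, ∑ d ∈ G.bd Q, z d + ∑ Q ∈ K, ∑ v ∈ Q, t v := by
      rw [← sum_add_distrib]
      rfl
    rw [h1, hbd, hswap, htI]
  have hlow : ∀ Q ∈ K, 3 ≤ G.val z t Q := fun Q hQ =>
    hw.cut Q ((hK Q hQ).1.trans sdiff_subset) (hK Q hQ).2
  have hlow' : 3 * (K.card : ℝ) ≤ ∑ Q ∈ K, G.val z t Q := by
    have h1 : ∑ _Q ∈ K, (3 : ℝ) ≤ ∑ Q ∈ K, G.val z t Q := sum_le_sum hlow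
    rwa [sum_const, nsmul_eq_mul, mul_comm] at h1
  have hcard' : (U.card : ℝ) + 2 ≤ K.card := by exact_mod_cast hcard
  have hx1 : x = 0 := by linarith
  have htR : ∑ v ∈ G.vs \ I, t v = 0 := by linarith
  have htau : ∑ v ∈ G.vs, t v = 6 := by linarith
  have hKc : K.card = U.card + 2 := by
    have h1 : (K.card : ℝ) ≤ (U.card : ℝ) + 2 := by linarith
    have h2 : K.card ≤ U.card + 2 := by exact_mod_cast h1
    omega
  have hval3 : ∀ Q ∈ K, G.val z t Q = 3 := by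
    intro Q hQ
    by_contra hne
    have h1 : 3 < G.val z t Q := lt_of_le_of_ne (hlow Q hQ) (Ne.symm hne)
    have h2 : ∑ _Q ∈ K, (3 : ℝ) < ∑ Q ∈ K, G.val z t Q := sum_lt_sum hlow ⟨Q, hQ, h1⟩
    rw [sum_const, nsmul_eq_mul, mul_comm, hKc] at h2
    push_cast at h2
    linarith
  have htok0 : ∀ v ∈ G.vs, v ∉ I → t v = 0 := fun v hv hvI =>
    (sum_eq_zero_iff_of_nonneg fun v hv => hw.t0 v (mem_sdiff.1 hv).1).1 htR v
      (mem_sdiff.2 ⟨hv, hvI⟩)
  by_cases hone : ∀ Q ∈ K, Q.card = 1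
  · -- terminal
    right
    refine ⟨I, U, fun v hv => (hIU v hv).1, hU, ?_, ?_, ?_, ?_, htok0, htau⟩
    · rw [disjoint_left]
      exact fun v hv hv' => (hIU v hv).2 hv'
    · have h1 : I.card = ∑ Q ∈ K, Q.card := by
        rw [hI]
        exact card_biUnion fun Q hQ Q' hQ' hne => hdis Q hQ Q' hQ' hne
      rw [h1, sum_congr rfl hone, sum_const, smul_eq_mul, mul_one, hKc]
    · intro d hd h0 hp
      obtain ⟨Q, hQ, hv⟩ := hmemI _ hp
      obtain ⟨v, hQv⟩ := card_eq_one.1 (hone Q hQ)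
      refine hleave Q hQ d (mem_bd.2 ⟨hd, hv, fun h1 => ?_⟩) h0
      rw [hQv, mem_singleton] at hv h1
      exact G.noloop d hd (h1.trans hv.symm)
    · intro d hd h0 hp
      by_contra hpI
      rw [hx] at hx1
      have h1 := (sum_eq_zero_iff_of_nonneg fun d hd => hw.z0 d (mem_filter.1 hd).1).1 hx1 d
        (mem_filter.2 ⟨hd, hp, hpI⟩)
      linarith
  · -- a nontrivial component: its complement is one isolated vertex
    left
    push Not at hone
    obtain ⟨Q, hQ, hQ1⟩ := hone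
    have hQo := (hK Q hQ).2
    have hQs : Q ⊆ G.vs := (hK Q hQ).1.trans sdiff_subset
    have hQ3 : 3 ≤ Q.card := by
      rw [Nat.odd_iff] at hQo
      omega
    have hc : (G.vs \ Q).card < 3 := by
      by_contra hcon
      have h1 := h5 Q hQs hQo hQ3 (not_lt.1 hcon)
      rw [hval3 Q hQ] at h1
      exact lt_irrefl _ h1
    have hcc : (G.vs \ Q).card = 1 := by
      have h1 := card_sdiff_add_card_eq_card hQs
      rw [Nat.odd_iff] at hQo
      rw [Nat.even_iff] at he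
      omega
    obtain ⟨v, hv⟩ := card_eq_one.1 hcc
    -- another component
    obtain ⟨Q', hQ', hne⟩ : ∃ Q' ∈ K, Q' ≠ Q := by
      have h1 : 1 < K.card := by omega
      exact exists_mem_ne h1 Q
    have hQ's : Q' ⊆ {v} := by
      rw [← hv]
      intro u hu
      exact mem_sdiff.2 ⟨(mem_sdiff.1 ((hK Q' hQ').1 hu)).1,
        disjoint_left.1 (hdis Q' hQ' Q hQ hne) hu⟩
    have hQ'v : Q' = {v} := by
      have h1 := (hK Q' hQ').2
      have h2 : Q'.Nonempty := by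
        rw [nonempty_iff_ne_empty]
        intro h3
        rw [h3, card_empty] at h1
        exact absurd h1 (by decide)
      exact (subset_singleton_iff.1 hQ's).resolve_left h2.ne_empty
    have hU0 : U = ∅ := by
      rw [eq_empty_iff_forall_notMem]
      intro u hu
      have h1 : u ∈ G.vs \ Q := mem_sdiff.2 ⟨hU hu, fun h2 => (hIU u (hQI Q hQ h2)).2 hu⟩
      rw [hv, ← hQ'v] at h1
      exact (hIU u (hQI Q' hQ' h1)).2 hu
    have hvv : v ∈ G.vs := (hIU v (hQI Q' hQ' (by rw [hQ'v]; exact mem_singleton_self v))).1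
    have hz : ∀ d ∈ G.st v, z d = 0 := by
      intro d hd
      obtain ⟨h1, h2⟩ := mem_st.1 hd
      by_contra hz
      have h0 : 0 < z d := lt_of_le_of_ne (hw.z0 d h1) (Ne.symm hz)
      have h3 := hleave Q' hQ' d (mem_bd.2 ⟨h1, by rw [hQ'v, h2]; exact mem_singleton_self v,
        by rw [hQ'v, mem_singleton]; exact fun h4 => G.noloop d h1 (h4.trans h2.symm)⟩) h0
      rw [hU0] at h3
      exact notMem_empty _ h3
    refine ⟨v, hvv, ?_, hz⟩
    have h1 := hw.deg v hvv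
    rw [sum_eq_zero hz] at h1
    linarith

end MG

end RH
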