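import Mathlib

/-! # Tables of template gadgets

A gadget given by a finite table `Tpl nv ne np`: vertices `Fin nv`, inner edges `Fin ne` with ends
`a`, `b`, ports `Fin np` at `pt`, tokens `tk`, all weights 1. Degrees, strictness and patterns are
decidable. -/

set_option autoImplicit false

namespace RH

open Finset

/-- a gadget table -/
structure Tpl (nv ne np : ℕ) where
  a : Fin ne → Fin nv
  b : Fin ne → Fin nv
  pt : Fin np → Fin nv
  tk : Fin nv → ℕ

namespace Tpl

variable {nv ne np : ℕ} (T : Tpl nv ne np)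

/-- inner edges leaving `S` -/
def cut (S : Finset (Fin nv)) : ℕ :=
  ∑ i : Fin ne, ((if T.a i ∈ S ∧ T.b i ∉ S then 1 else 0) +
    (if T.b i ∈ S ∧ T.a i ∉ S then 1 else 0))

/-- ports at `S` -/
def nP (S : Finset (Fin nv)) : ℕ := ∑ i : Fin np, if T.pt i ∈ S then 1 else 0

/-- tokens at `S` -/
def nT (S : Finset (Fin nv)) : ℕ := ∑ v ∈ S, T.tk v

/-- value of `S` -/
def val (S : Finset (Fin nv)) : ℕ := T.nP S + T.cut S + T.nT S

/-- ports at `S` with outer end given by `κ` -/
def nQ (S : Finset (Fin nv)) (κ : Finset (Fin np)) : ℕ :=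
  ∑ i : Fin np, if T.pt i ∈ S ∧ i ∈ κ then 1 else 0

/-- no loops, degree 3 -/
def Reg : Prop := (∀ i, T.a i ≠ T.b i) ∧ ∀ v, T.val {v} = 3

/-- `κ` is the set of used ports of a perfect matching (`m` = used inner edges) -/
def IsPat (m : Finset (Fin ne)) (κ : Finset (Fin np)) : Prop :=
  ∀ v, (∑ i : Fin ne, if i ∈ m ∧ T.a i = v then 1 else 0) +
    (∑ i : Fin ne, if i ∈ m ∧ T.b i = v then 1 else 0) +
    (∑ i : Fin np, if i ∈ κ ∧ T.pt i = v then 1 else 0) = 1

/-- sets of gadget vertices -/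
def Tab0 : Prop := ∀ S : Finset (Fin nv), (S.card % 2 = 1 → S.card ≠ 1 → 5 ≤ T.val S) ∧
    (S.card % 2 = 0 → S ≠ ∅ → 4 ≤ T.val S)

/-- one vertex of `A` -/
def Tab1 (s1 : Finset (Finset (Fin np))) : Prop := ∀ S : Finset (Fin nv), ∀ κ : Finset (Fin np),
    S ≠ ∅ → κ ∈ s1 → (if S.card % 2 = 0 then 5 else 4) + 2 * T.nQ S κ ≤ T.val S + 3

/-- even subsets of `A`: value at least `bE` -/
def Tab2 (bE : Finset (Fin np) → ℕ) : Prop := ∀ S : Finset (Fin nv), ∀ κ : Finset (Fin np),
    S ≠ ∅ → (if S.card % 2 = 1 then 5 else 4) + 2 * T.nQ S κ ≤ T.val S + bE κ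

/-- odd subsets of `A`: value at least `bO` -/
def Tab3 (bO : Finset (Fin np) → ℕ) : Prop :=
  ∀ S : Finset (Fin nv), ∀ κ : Finset (Fin np), S ≠ ∅ →
    (if S.card % 2 = 0 then 5 else 4) + 2 * T.nQ S κ ≤ T.val S + bO κ

/-- the whole set `A` -/
def Tab4 (w n0 : ℕ) : Prop := ∀ S : Finset (Fin nv), S ≠ univ → S ≠ ∅ →
    (if (S.card + w) % 2 = 1 then 5 else 4) + 2 * T.nP S ≤ T.val S + n0

/-- strictness table. `w`: parity of `A`, `n0`: value of `A`, `s1`: sets of ports which may end in one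
vertex, `bE`, `bO`: lower bounds for the values of the even and odd subsets which contain the given
ends of ports -/
structure Tab (w n0 : ℕ) (s1 : Finset (Finset (Fin np))) (bE bO : Finset (Fin np) → ℕ) :
    Prop where
  t0 : T.Tab0
  t1 : T.Tab1 s1
  t2 : T.Tab2 bE
  t3 : T.Tab3 bO
  t4 : T.Tab4 w n0

/-- the whole set `A`, state with 4 tokens -/
def Tab4F (w n0 : ℕ) : Prop := ∀ S : Finset (Fin nv), S ≠ univ → S ≠ ∅ →
    if (S.card + w) % 2 = 1 then
      (if Sᶜ.card = 1 then 3 else 5) + 2 * T.nP S ≤ T.val S + n0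
    else 2 + 2 * T.nP S ≤ T.val S + n0 ∧
      (4 + 2 * T.nP S ≤ T.val S + n0 ∨ ∀ v, v ∉ S → T.tk v = 2)

/-- strictness table for a state with 4 tokens -/
structure TabF (w n0 : ℕ) (s1 : Finset (Finset (Fin np))) (bE bO : Finset (Fin np) → ℕ) :
    Prop where
  t0 : T.Tab0
  t1 : T.Tab1 s1
  t2 : T.Tab2 bE
  t3 : T.Tab3 bO
  t4 : T.Tab4F w n0

/-- outer side: bound for even sets; `e4`: sets of ports of an even set of value 4 -/
def oE (e4 : Finset (Finset (Fin np))) (κ : Finset (Fin np)) : ℕ :=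
  max (if κ ∈ e4 then 4 else 6) (2 * κ.card)

/-- outer side (`w` = 1: the replaced set is odd of value 5, `w` = 0: even of value 4): bound for odd
sets; `o5`: sets of ports of an odd set of value 5 -/
def oO (w : ℕ) (o5 : Finset (Finset (Fin np))) (κ : Finset (Fin np)) : ℕ :=
  max (if κ ∈ o5 then 5 else 7) (2 * κ.card + 1 - 2 * w)

/-- inner side: bounds -/
def iE (e4 : Finset (Finset (Fin np))) (κ : Finset (Fin np)) : ℕ := if κ ∈ e4 then 4 else 6

def iO (o5 : Finset (Finset (Fin np))) (κ : Finset (Fin np)) : ℕ := if κ ∈ o5 then 5 else 7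

theorem nQ_empty (S : Finset (Fin nv)) : T.nQ S ∅ = 0 := by
  unfold nQ
  refine sum_eq_zero fun i _ => ?_
  rw [if_neg fun h => notMem_empty _ h.2]

theorem nQ_univ (S : Finset (Fin nv)) : T.nQ S univ = T.nP S := by
  unfold nQ nP
  refine sum_congr rfl fun i _ => ?_
  by_cases h : T.pt i ∈ S
  · rw [if_pos ⟨h, mem_univ _⟩, if_pos h]
  · rw [if_neg fun h1 => h h1.1, if_neg h]

theorem nP_all : T.nP univ = np := by
  unfold nP
  rw [sum_congr rfl fun i _ => if_pos (mem_univ _), sum_const, card_univ, Fintype.card_fin,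
    smul_eq_mul, mul_one]

theorem nQ_all (κ : Finset (Fin np)) : T.nQ univ κ = κ.card := by
  unfold nQ
  have h1 : ∀ i ∈ (univ : Finset (Fin np)),
      (if T.pt i ∈ (univ : Finset (Fin nv)) ∧ i ∈ κ then 1 else 0) = if i ∈ κ then 1 else 0 := by
    intro i _
    by_cases h : i ∈ κ
    · rw [if_pos ⟨mem_univ _, h⟩, if_pos h]
    · rw [if_neg fun h1 => h h1.2, if_neg h]
  rw [sum_congr rfl h1, sum_ite_mem, univ_inter, sum_const, smul_eq_mul, mul_one]

instance (T : Tpl nv ne np) : Decidable T.Reg := by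
  unfold Reg
  infer_instance

instance (T : Tpl nv ne np) (m : Finset (Fin ne)) (κ : Finset (Fin np)) :
    Decidable (T.IsPat m κ) := by
  unfold IsPat
  infer_instance

instance (T : Tpl nv ne np) : Decidable T.Tab0 := by
  unfold Tab0
  infer_instance

instance (T : Tpl nv ne np) (s1 : Finset (Finset (Fin np))) : Decidable (T.Tab1 s1) := by
  unfold Tab1
  infer_instance

instance (T : Tpl nv ne np) (bE : Finset (Fin np) → ℕ) : Decidable (T.Tab2 bE) := by
  unfold Tab2
  infer_instance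

instance (T : Tpl nv ne np) (bO : Finset (Fin np) → ℕ) : Decidable (T.Tab3 bO) := by
  unfold Tab3
  infer_instance

instance (T : Tpl nv ne np) (w n0 : ℕ) : Decidable (T.Tab4 w n0) := by
  unfold Tab4
  infer_instance

instance (T : Tpl nv ne np) (w n0 : ℕ) : Decidable (T.Tab4F w n0) := by
  unfold Tab4F
  infer_instance

end Tpl

end RH
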