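import Pool.Agent.Lib.RH.S6Gad
import Pool.Agent.Lib.RH.Pot
import Pool.Agent.Lib.RH.TplD

/-! # Template gadgets

A gadget given by a finite table `Tpl nv ne np`: vertices `Fin nv`, inner edges `Fin ne` with ends `a`,
`b`, ports `Fin np` at `pt`, tokens `tk`, all weights 1; the exits of `A` which are not ports are
dropped. The finite tables (degrees, strictness, patterns) are decidable. `TOk.ko`, `TOk.ke` are the
two tables of `EK.gad`. -/

set_option autoImplicit false

namespace RH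

open Finset Classical

namespace MG

variable {V D : Type*} {nv ne np : ℕ}

/-- the template `T` fits to `A` -/
structure TOk (G : MG V D) (A : Finset V) (T : Tpl nv ne np) (pp : Fin np → D) (hh : Fin nv → V)
    (cc : Fin ne → Bool → D) : Prop where
  hA : A ⊆ G.vs
  hPb : ∀ i, pp i ∈ G.bd A
  pinj : Function.Injective pp
  hinj : Function.Injective hh
  hnew : ∀ i, hh i ∉ A
  cinj : ∀ i β j γ, cc i β = cc j γ → i = j ∧ β = γ
  cnew : ∀ i β, cc i β ∈ G.ds → G.pi (cc i β) ∉ A ∧ G.pi (G.al (cc i β)) ∉ A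
  reg : T.Reg

/-- the darts as a function of one variable -/
def c1 (cc : Fin ne → Bool → D) (x : Fin ne × Bool) : D := cc x.1 x.2

/-- the gadget -/
noncomputable def tg (G : MG V D) (A : Finset V) (T : Tpl nv ne np) (pp : Fin np → D)
    (hh : Fin nv → V) (cc : Fin ne → Bool → D) : GD V D where
  A := A
  K := univ.image hh
  P := univ.image pp
  E := univ.image (c1 cc)
  ga := fun d => if h : ∃ i, pp i = d then hh (T.pt h.choose) else G.pi d
  be := fun d => if h : ∃ x, c1 cc x = d then cc h.choose.1 (!h.choose.2) else d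
  pe := fun d => if h : ∃ x, c1 cc x = d then
    hh (bif h.choose.2 then T.b h.choose.1 else T.a h.choose.1) else G.pi d

variable {G : MG V D} {A : Finset V} {T : Tpl nv ne np} {pp : Fin np → D} {hh : Fin nv → V}
variable {cc : Fin ne → Bool → D} {t : V → ℝ}

namespace TOk

variable (h : TOk G A T pp hh cc)

include h

theorem ga_p (i : Fin np) : (tg G A T pp hh cc).ga (pp i) = hh (T.pt i) := by
  have h1 : ∃ j, pp j = pp i := ⟨i, rfl⟩
  change (if h : ∃ j, pp j = pp i then hh (T.pt h.choose) else G.pi (pp i)) = _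
  rw [dif_pos h1, h.pinj h1.choose_spec]

theorem c1_inj : Function.Injective (c1 cc) := by
  rintro ⟨i, β⟩ ⟨j, γ⟩ hx
  obtain ⟨h1, h2⟩ := h.cinj i β j γ hx
  rw [h1, h2]

theorem be_c (i : Fin ne) (β : Bool) : (tg G A T pp hh cc).be (cc i β) = cc i (!β) := by
  have h1 : ∃ x, c1 cc x = cc i β := ⟨(i, β), rfl⟩
  change (if h : ∃ x, c1 cc x = cc i β then cc h.choose.1 (!h.choose.2) else cc i β) = _
  have h2 : h1.choose = (i, β) := h.c1_inj h1.choose_spec
  rw [dif_pos h1, h2]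

theorem pe_c (i : Fin ne) (β : Bool) :
    (tg G A T pp hh cc).pe (cc i β) = hh (bif β then T.b i else T.a i) := by
  have h1 : ∃ x, c1 cc x = cc i β := ⟨(i, β), rfl⟩
  change (if h : ∃ x, c1 cc x = cc i β then
    hh (bif h.choose.2 then T.b h.choose.1 else T.a h.choose.1) else G.pi (cc i β)) = _
  have h2 : h1.choose = (i, β) := h.c1_inj h1.choose_spec
  rw [dif_pos h1, h2]

omit h in
theorem mem_E {d : D} : d ∈ (tg G A T pp hh cc).E ↔ ∃ i β, cc i β = d := by
  change d ∈ univ.image (c1 cc) ↔ _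
  rw [mem_image]
  constructor
  · rintro ⟨⟨i, β⟩, -, rfl⟩
    exact ⟨i, β, rfl⟩
  · rintro ⟨i, β, rfl⟩
    exact ⟨(i, β), mem_univ _, rfl⟩

omit h in
theorem mem_P {d : D} : d ∈ (tg G A T pp hh cc).P ↔ ∃ i, pp i = d := by
  change d ∈ univ.image pp ↔ _
  rw [mem_image]
  exact ⟨fun ⟨i, _, hi⟩ => ⟨i, hi⟩, fun ⟨i, hi⟩ => ⟨i, mem_univ _, hi⟩⟩

omit h in
theorem mem_K {v : V} : v ∈ (tg G A T pp hh cc).K ↔ ∃ i, hh i = v := by
  change v ∈ univ.image hh ↔ _
  rw [mem_image]
  exact ⟨fun ⟨i, _, hi⟩ => ⟨i, hi⟩, fun ⟨i, hi⟩ => ⟨i, mem_univ _, hi⟩⟩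

theorem p_bd (i : Fin np) : pp i ∈ G.bd A := h.hPb i

theorem gok : GOk G (tg G A T pp hh cc) where
  hA := h.hA
  dj := by
    intro v hv hA
    obtain ⟨i, rfl⟩ := mem_K.1 hv
    exact h.hnew i hA
  hP := by
    intro d hd
    obtain ⟨i, rfl⟩ := mem_P.1 hd
    exact h.hPb i
  gaK := by
    intro d hd
    obtain ⟨i, rfl⟩ := mem_P.1 hd
    rw [h.ga_p]
    exact mem_K.2 ⟨_, rfl⟩
  hE := by
    intro d hd h1
    obtain ⟨i, β, rfl⟩ := mem_E.1 hd
    exact h.cnew i β h1
  beE := by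
    intro d hd
    obtain ⟨i, β, rfl⟩ := mem_E.1 hd
    rw [h.be_c]
    exact mem_E.2 ⟨_, _, rfl⟩
  bb := by
    intro d hd
    obtain ⟨i, β, rfl⟩ := mem_E.1 hd
    rw [h.be_c, h.be_c, Bool.not_not]
  peK := by
    intro d hd
    obtain ⟨i, β, rfl⟩ := mem_E.1 hd
    rw [h.pe_c]
    exact mem_K.2 ⟨_, rfl⟩
  nl := by
    intro d hd
    obtain ⟨i, β, rfl⟩ := mem_E.1 hd
    rw [h.be_c, h.pe_c, h.pe_c]
    intro e
    have h1 := h.hinj e
    cases β
    · exact h.reg.1 i h1.symm
    · exact h.reg.1 i h1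

omit h in
/-- a set of gadget vertices -/
theorem exS (hinj : Function.Injective hh) {Y : Finset V} (hY : Y ⊆ univ.image hh) :
    ∃ S : Finset (Fin nv), Y = S.image hh ∧ Y.card = S.card := by
  refine ⟨univ.filter fun i => hh i ∈ Y, ?_, ?_⟩
  · ext v
    rw [mem_image]
    constructor
    · intro hv
      obtain ⟨i, -, rfl⟩ := mem_image.1 (hY hv)
      exact ⟨i, mem_filter.2 ⟨mem_univ _, hv⟩, rfl⟩
    · rintro ⟨i, h2, rfl⟩
      exact (mem_filter.1 h2).2
  · rw [← card_image_of_injective _ hinj]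
    congr 1
    ext v
    rw [mem_image]
    constructor
    · intro hv
      obtain ⟨i, -, rfl⟩ := mem_image.1 (hY hv)
      exact ⟨i, mem_filter.2 ⟨mem_univ _, hv⟩, rfl⟩
    · rintro ⟨i, h2, rfl⟩
      exact (mem_filter.1 h2).2

theorem mS (S : Finset (Fin nv)) (i : Fin nv) : hh i ∈ S.image hh ↔ i ∈ S :=
  h.hinj.mem_finset_image

/-- sums over the inner darts -/
theorem sumE (f : D → ℝ) : ∑ d ∈ (tg G A T pp hh cc).E, f d =
    ∑ i : Fin ne, (f (cc i false) + f (cc i true)) := by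
  change ∑ d ∈ univ.image (c1 cc), f d = _
  rw [sum_image fun x _ y _ hxy => h.c1_inj hxy, Fintype.sum_prod_type]
  refine sum_congr rfl fun i _ => ?_
  rw [Fintype.sum_bool, add_comm]
  rfl

/-- tokens of the gadget -/
noncomputable def tkv (T : Tpl nv ne np) (hh : Fin nv → V) (v : V) : ℝ :=
  if h : ∃ i, hh i = v then (T.tk h.choose : ℝ) else 0

theorem tkv_h (i : Fin nv) : tkv T hh (hh i) = T.tk i := by
  unfold tkv
  have h1 : ∃ j, hh j = hh i := ⟨i, rfl⟩
  rw [dif_pos h1, h.hinj h1.choose_spec]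

omit h in
theorem tkv_nn (v : V) : 0 ≤ tkv T hh v := by
  unfold tkv
  split_ifs
  · exact Nat.cast_nonneg _
  · exact le_refl _

/-- value of a set of gadget vertices -/
theorem gvkS (S : Finset (Fin nv)) :
    gvk (tg G A T pp hh cc) one1 one1 (tkv T hh) (S.image hh) = (T.val S : ℝ) := by
  unfold gvk
  have e1 : ∑ d ∈ (tg G A T pp hh cc).P.filter
      (fun d => (tg G A T pp hh cc).ga d ∈ S.image hh), one1 d = (T.nP S : ℝ) := by
    rw [sum_filter]
    change ∑ d ∈ univ.image pp, _ = _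
    rw [sum_image fun i _ j _ hij => h.pinj hij]
    unfold Tpl.nP
    push_cast
    refine sum_congr rfl fun i _ => ?_
    rw [h.ga_p]
    by_cases c2 : T.pt i ∈ S
    · rw [if_pos ((h.mS S _).2 c2), if_pos c2]
      rfl
    · rw [if_neg (fun e => c2 ((h.mS S _).1 e)), if_neg c2]
  have e2 : ∑ d ∈ (tg G A T pp hh cc).E.filter
      (fun d => (tg G A T pp hh cc).pe d ∈ S.image hh ∧
        (tg G A T pp hh cc).pe ((tg G A T pp hh cc).be d) ∉ S.image hh), one1 d =
      (T.cut S : ℝ) := by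
    rw [sum_filter, h.sumE]
    unfold Tpl.cut
    push_cast
    refine sum_congr rfl fun i _ => ?_
    rw [h.be_c i false, h.be_c i true, Bool.not_false, Bool.not_true, h.pe_c i false,
      h.pe_c i true, cond_false, cond_true]
    have m1 := h.mS S (T.a i)
    have m2 := h.mS S (T.b i)
    unfold one1
    by_cases c1 : T.a i ∈ S
    · by_cases c2 : T.b i ∈ S
      · rw [if_neg (fun e => e.2 (m2.2 c2)), if_neg (fun e => e.2 (m1.2 c1)),
          if_neg (fun e => e.2 c2), if_neg (fun e => e.2 c1)]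
      · rw [if_pos ⟨m1.2 c1, fun e => c2 (m2.1 e)⟩, if_neg (fun e => c2 (m2.1 e.1)),
          if_pos ⟨c1, c2⟩, if_neg (fun e => c2 e.1)]
    · by_cases c2 : T.b i ∈ S
      · rw [if_neg (fun e => c1 (m1.1 e.1)), if_pos ⟨m2.2 c2, fun e => c1 (m1.1 e)⟩,
          if_neg (fun e => c1 e.1), if_pos ⟨c2, c1⟩]
      · rw [if_neg (fun e => c1 (m1.1 e.1)), if_neg (fun e => c2 (m2.1 e.1)),
          if_neg (fun e => c1 e.1), if_neg (fun e => c2 e.1)]
  have e3 : ∑ v ∈ S.image hh, tkv T hh v = (T.nT S : ℝ) := by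
    rw [sum_image fun i _ j _ hij => h.hinj hij]
    unfold Tpl.nT
    push_cast
    exact sum_congr rfl fun i _ => h.tkv_h i
  rw [e1, e2, e3]
  unfold Tpl.val
  push_cast
  ring

/-- outer ends in `X` -/
noncomputable def kap (G : MG V D) (pp : Fin np → D) (X : Finset V) : Finset (Fin np) :=
  univ.filter fun i => G.pi (pp i) ∈ X

/-- the ports which end in `X` -/
theorem gpwS (X : Finset V) (S : Finset (Fin nv)) :
    gpw G (tg G A T pp hh cc) one1 X (S.image hh) = (T.nQ S (kap G pp X) : ℝ) := by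
  unfold gpw
  rw [sum_filter]
  change ∑ d ∈ univ.image pp, _ = _
  rw [sum_image fun i _ j _ hij => h.pinj hij]
  unfold Tpl.nQ
  push_cast
  refine sum_congr rfl fun i _ => ?_
  rw [h.ga_p]
  unfold kap
  by_cases c1 : G.pi (pp i) ∈ X
  · by_cases c2 : T.pt i ∈ S
    · rw [if_pos ⟨c1, (h.mS S _).2 c2⟩, if_pos ⟨c2, mem_filter.2 ⟨mem_univ _, c1⟩⟩]
      rfl
    · rw [if_neg (fun e => c2 ((h.mS S _).1 e.2)), if_neg (fun e => c2 e.1)]
  · rw [if_neg (fun e => c1 e.1), if_neg (fun e => c1 (by simpa using e.2))]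

/-- degrees -/
theorem kd : ∀ v ∈ (tg G A T pp hh cc).K,
    gvk (tg G A T pp hh cc) one1 one1 (tkv T hh) {v} = 3 := by
  intro v hv
  obtain ⟨i, rfl⟩ := mem_K.1 hv
  rw [← image_singleton, h.gvkS, h.reg.2]
  norm_num

/-- the facts about the subsets of `A`: parity `w` and value `n0` of `A`, bounds for the values -/
structure TFact (G : MG V D) (t : V → ℝ) (A : Finset V) (pp : Fin np → D) (w n0 : ℕ)
    (s1 : Finset (Finset (Fin np))) (bE bO : Finset (Fin np) → ℕ) : Prop where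
  one : ∀ v ∈ A, kap G pp {v} ∈ s1
  ev : ∀ X ⊆ A, Even X.card → X.Nonempty → X ≠ A → ∃ n : ℕ, G.val one1 t X = n ∧
    bE (kap G pp X) ≤ n
  od : ∀ X ⊆ A, Odd X.card → X.card ≠ 1 → X ≠ A → ∃ n : ℕ, G.val one1 t X = n ∧
    bO (kap G pp X) ≤ n
  all : G.val one1 t A = n0
  par : A.card % 2 = w

variable {w n0 : ℕ} {s1 : Finset (Finset (Fin np))} {bE bO : Finset (Fin np) → ℕ}

/-- the finite check, a proper subset of `A` -/
theorem mainN (hT1 : T.Tab1 s1) (hT2 : T.Tab2 bE) (hT3 : T.Tab3 bO)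
    (hf : TFact G t A pp w n0 s1 bE bO) (hw : G.Wt one1 t)
    {X : Finset V} (hX : X ⊆ A) (hXn : X.Nonempty) {S : Finset (Fin nv)} (hS : S ≠ ∅)
    (hA : X ≠ A) :
    ∃ n : ℕ, G.val one1 t X = n ∧
      (if (X.card + S.card) % 2 = 1 then 5 else 4) + 2 * T.nQ S (kap G pp X) ≤ T.val S + n := by
  rcases Nat.even_or_odd X.card with he | ho
  · obtain ⟨n, h1, h2⟩ := hf.ev X hX he hXn hA
    refine ⟨n, h1, ?_⟩
    have h5 := hT2 S (kap G pp X) hS
    have h7 : (X.card + S.card) % 2 = S.card % 2 := by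
      rw [Nat.even_iff] at he
      omega
    rw [h7]
    omega
  · by_cases h1 : X.card = 1
    · obtain ⟨v, rfl⟩ := card_eq_one.1 h1
      refine ⟨3, ?_, ?_⟩
      · rw [hw.val_single (h.hA (hX (mem_singleton_self v)))]
        norm_num
      · have h5 := hT1 S _ hS (hf.one v (hX (mem_singleton_self v)))
        rw [card_singleton]
        by_cases h6 : S.card % 2 = 0
        · rw [if_pos h6] at h5
          rw [if_pos (by omega)]
          exact h5
        · rw [if_neg h6] at h5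
          rw [if_neg (by omega)]
          exact h5
    · obtain ⟨n, h2, h3⟩ := hf.od X hX ho h1 hA
      refine ⟨n, h2, ?_⟩
      have h6 := hT3 S (kap G pp X) hS
      rw [Nat.odd_iff] at ho
      by_cases h8 : S.card % 2 = 0
      · rw [if_pos h8] at h6
        rw [if_pos (by omega)]
        omega
      · rw [if_neg h8] at h6
        rw [if_neg (by omega)]
        omega

/-- all ports end in `A` -/
theorem kapA : kap G pp A = univ := by
  unfold kap
  rw [filter_eq_self]
  intro i _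
  exact (mem_bd.1 (h.p_bd i)).2.1

/-- the finite check -/
theorem main (hT : T.Tab w n0 s1 bE bO) (hf : TFact G t A pp w n0 s1 bE bO) (hw : G.Wt one1 t)
    {X : Finset V} (hX : X ⊆ A) (hXn : X.Nonempty) {S : Finset (Fin nv)} (hS : S ≠ ∅)
    (hne : X ≠ A ∨ S ≠ univ) :
    ∃ n : ℕ, G.val one1 t X = n ∧
      (if (X.card + S.card) % 2 = 1 then 5 else 4) + 2 * T.nQ S (kap G pp X) ≤ T.val S + n := by
  by_cases hA : X = A
  · have hS' : S ≠ univ := hne.resolve_left fun k => k hA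
    refine ⟨n0, by rw [hA, hf.all], ?_⟩
    have h3 := hT.t4 S hS' hS
    rw [hA, h.kapA, T.nQ_univ]
    have h4 : (A.card + S.card) % 2 = (S.card + w) % 2 := by
      have := hf.par
      omega
    rw [h4]
    exact h3
  · exact h.mainN hT.t1 hT.t2 hT.t3 hf hw hX hXn hS hA

/-- the table of odd sets -/
theorem ko (hT : T.Tab w n0 s1 bE bO) (hf : TFact G t A pp w n0 s1 bE bO) (hw : G.Wt one1 t)
    (hodd : ∀ X ⊆ A, Odd X.card → X.card ≠ 1 → 5 ≤ G.val one1 t X)
    (hev : Even (A.card + nv)) :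
    ∀ X ⊆ (tg G A T pp hh cc).A, ∀ Y ⊆ (tg G A T pp hh cc).K, Odd (X.card + Y.card) →
      X.card + Y.card ≠ 1 → 5 ≤ G.val one1 t X +
        gvk (tg G A T pp hh cc) one1 one1 (tkv T hh) Y - 2 * gpw G (tg G A T pp hh cc) one1 X Y := by
  intro X hX Y hY ho h1
  obtain ⟨S, rfl, hc⟩ := exS h.hinj hY
  rw [hc] at ho h1
  rw [h.gvkS, h.gpwS]
  rcases S.eq_empty_or_nonempty with hS | hS
  · rw [hS] at ho h1 ⊢
    rw [card_empty, add_zero] at ho h1
    have h2 := hodd X hX ho h1
    have h3 : T.val ∅ = 0 := by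
      unfold Tpl.val Tpl.nP Tpl.cut Tpl.nT
      simp
    have h4 : T.nQ ∅ (kap G pp X) = 0 := by
      unfold Tpl.nQ
      simp
    rw [h3, h4]
    push_cast
    linarith
  · rcases X.eq_empty_or_nonempty with hX0 | hX0
    · rw [hX0, card_empty, zero_add] at ho h1
      have h2 := (hT.t0 S).1 (Nat.odd_iff.1 ho) h1
      have h3 : kap G pp X = ∅ := by
        rw [hX0]
        unfold kap
        simp
      rw [h3, T.nQ_empty, hX0, val_empty']
      have h4 : (5 : ℝ) ≤ T.val S := by exact_mod_cast h2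
      push_cast
      linarith
    · obtain ⟨n, h2, h3⟩ := h.main hT hf hw hX hX0 hS.ne_empty (by
        by_contra h4
        rw [not_or, not_not, not_not] at h4
        rw [h4.1, h4.2, card_univ, Fintype.card_fin] at ho
        exact (Nat.not_even_iff_odd.2 ho) hev)
      rw [if_pos (Nat.odd_iff.1 ho)] at h3
      have h4 : (5 : ℝ) + 2 * T.nQ S (kap G pp X) ≤ T.val S + n := by exact_mod_cast h3
      rw [h2]
      linarith

/-- the table of even sets -/
theorem ke (hT : T.Tab w n0 s1 bE bO) (hf : TFact G t A pp w n0 s1 bE bO) (hw : G.Wt one1 t)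
    (hevn : ∀ X ⊆ A, Even X.card → X.Nonempty → 4 ≤ G.val one1 t X) :
    ∀ X ⊆ (tg G A T pp hh cc).A, ∀ Y ⊆ (tg G A T pp hh cc).K, Even (X.card + Y.card) →
      (X.Nonempty ∨ Y.Nonempty) → (X ≠ (tg G A T pp hh cc).A ∨ Y ≠ (tg G A T pp hh cc).K) →
      4 ≤ G.val one1 t X + gvk (tg G A T pp hh cc) one1 one1 (tkv T hh) Y -
        2 * gpw G (tg G A T pp hh cc) one1 X Y := by
  intro X hX Y hY ho hn hne
  have hne' : X ≠ A ∨ Y ≠ univ.image hh := hne
  obtain ⟨S, rfl, hc⟩ := exS h.hinj hY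
  rw [hc] at ho
  rw [h.gvkS, h.gpwS]
  rcases S.eq_empty_or_nonempty with hS | hS
  · rw [hS] at ho ⊢
    rw [card_empty, add_zero] at ho
    have hXn : X.Nonempty := by
      rcases hn with hn | hn
      · exact hn
      · rw [hS, image_empty] at hn
        exact absurd hn not_nonempty_empty
    have h2 := hevn X hX ho hXn
    have h3 : T.val ∅ = 0 := by
      unfold Tpl.val Tpl.nP Tpl.cut Tpl.nT
      simp
    have h4 : T.nQ ∅ (kap G pp X) = 0 := by
      unfold Tpl.nQ
      simp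
    rw [h3, h4]
    push_cast
    linarith
  · rcases X.eq_empty_or_nonempty with hX0 | hX0
    · rw [hX0, card_empty, zero_add] at ho
      have h2 := (hT.t0 S).2 (Nat.even_iff.1 ho) hS.ne_empty
      have h3 : kap G pp X = ∅ := by
        rw [hX0]
        unfold kap
        simp
      rw [h3, T.nQ_empty, hX0, val_empty']
      have h4 : (4 : ℝ) ≤ T.val S := by exact_mod_cast h2
      push_cast
      linarith
    · obtain ⟨n, h2, h3⟩ := h.main hT hf hw hX hX0 hS.ne_empty (by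
        rcases hne' with h4 | h4
        · exact Or.inl h4
        · exact Or.inr fun k => h4 (by rw [k]))
      rw [if_neg (by rw [Nat.even_iff] at ho; omega)] at h3
      have h4 : (4 : ℝ) + 2 * T.nQ S (kap G pp X) ≤ T.val S + n := by exact_mod_cast h3
      rw [h2]
      linarith

/-- **used ports of a perfect matching** -/
theorem pat {M : Finset D} (hM : (gad G (tg G A T pp hh cc) h.gok).IsPM M) :
    T.IsPat (univ.filter fun i => cc i false ∈ M) (univ.filter fun i => pp i ∈ M) := by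
  have ok := h.gok
  intro v
  have hv : hh v ∈ (gad G (tg G A T pp hh cc) h.gok).vs :=
    mem_union_right _ (mem_K.2 ⟨v, rfl⟩)
  have h1 := hM.one _ hv
  refine Eq.trans ?_ h1
  have hcl : ∀ i, cc i true ∈ M ↔ cc i false ∈ M := by
    intro i
    have a1 : ∀ β, gal G (tg G A T pp hh cc) (cc i β) = cc i (!β) := fun β => by
      rw [GOk.galE (mem_E.2 ⟨i, β, rfl⟩), h.be_c]
    constructor
    · intro k
      have k2 := hM.closed _ k
      change gal G (tg G A T pp hh cc) (cc i true) ∈ M at k2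
      rwa [a1] at k2
    · intro k
      have k2 := hM.closed _ k
      change gal G (tg G A T pp hh cc) (cc i false) ∈ M at k2
      rwa [a1] at k2
  have hcp : ∀ i, G.al (pp i) ∈ M ↔ pp i ∈ M := by
    intro i
    have p1 : pp i ∈ (tg G A T pp hh cc).P := mem_P.2 ⟨i, rfl⟩
    have a1 : gal G (tg G A T pp hh cc) (pp i) = G.al (pp i) := GOk.galN (ok.PE p1)
    have a2 : gal G (tg G A T pp hh cc) (G.al (pp i)) = pp i := by
      rw [GOk.galN (ok.QE p1), G.al_al _ (ok.P1 p1).1]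
    constructor
    · intro k
      have k2 := hM.closed _ k
      change gal G (tg G A T pp hh cc) (G.al (pp i)) ∈ M at k2
      rwa [a2] at k2
    · intro k
      have k2 := hM.closed _ k
      change gal G (tg G A T pp hh cc) (pp i) ∈ M at k2
      rwa [a1] at k2
  have e0 : M.filter (fun d => (gad G (tg G A T pp hh cc) h.gok).pi d = hh v) =
      (((univ.filter fun i => cc i false ∈ M ∧ T.a i = v).image fun i => cc i false) ∪
        ((univ.filter fun i => cc i false ∈ M ∧ T.b i = v).image fun i => cc i true)) ∪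
        ((univ.filter fun i => pp i ∈ M ∧ T.pt i = v).image fun i => G.al (pp i)) := by
    ext d
    rw [mem_filter, mem_union, mem_union, mem_image, mem_image, mem_image]
    constructor
    · rintro ⟨k1, k2⟩
      have k3 := hM.sub k1
      change gpi G (tg G A T pp hh cc) d = hh v at k2
      rcases mem_gds.1 k3 with ⟨u1, u2, u3⟩ | u1 | ⟨p, u1, rfl⟩ | u1
      · rw [ok.gpiA u1 u2] at k2
        exact absurd (k2 ▸ u2) (h.hnew v)
      · rw [ok.gpiA (ok.P1 u1).1 (ok.P1 u1).2.1] at k2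
        exact absurd (k2 ▸ (ok.P1 u1).2.1) (h.hnew v)
      · rw [ok.gpiQ u1] at k2
        obtain ⟨i, rfl⟩ := mem_P.1 u1
        rw [h.ga_p] at k2
        exact Or.inr ⟨i, mem_filter.2 ⟨mem_univ _, (hcp i).1 k1, h.hinj k2⟩, rfl⟩
      · obtain ⟨i, β, rfl⟩ := mem_E.1 u1
        rw [GOk.gpiE u1, h.pe_c] at k2
        left
        cases β
        · exact Or.inl ⟨i, mem_filter.2 ⟨mem_univ _, k1, h.hinj k2⟩, rfl⟩
        · exact Or.inr ⟨i, mem_filter.2 ⟨mem_univ _, (hcl i).1 k1, h.hinj k2⟩, rfl⟩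
    · rintro ((⟨i, k1, rfl⟩ | ⟨i, k1, rfl⟩) | ⟨i, k1, rfl⟩)
      · obtain ⟨-, k2, k3⟩ := mem_filter.1 k1
        refine ⟨k2, ?_⟩
        change gpi G (tg G A T pp hh cc) _ = _
        rw [GOk.gpiE (mem_E.2 ⟨i, false, rfl⟩), h.pe_c, cond_false, k3]
      · obtain ⟨-, k2, k3⟩ := mem_filter.1 k1
        refine ⟨(hcl i).2 k2, ?_⟩
        change gpi G (tg G A T pp hh cc) _ = _
        rw [GOk.gpiE (mem_E.2 ⟨i, true, rfl⟩), h.pe_c, cond_true, k3]
      · obtain ⟨-, k2, k3⟩ := mem_filter.1 k1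
        refine ⟨(hcp i).2 k2, ?_⟩
        change gpi G (tg G A T pp hh cc) _ = _
        rw [ok.gpiQ (mem_P.2 ⟨i, rfl⟩), h.ga_p, k3]
  have i1 : Function.Injective fun i => cc i false := fun i j k => (h.cinj _ _ _ _ k).1
  have i2 : Function.Injective fun i => cc i true := fun i j k => (h.cinj _ _ _ _ k).1
  have i3 : Function.Injective fun i => G.al (pp i) := by
    intro i j k
    have a1 := G.al_al _ (mem_bd.1 (h.p_bd i)).1
    have a2 := G.al_al _ (mem_bd.1 (h.p_bd j)).1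
    have k' : G.al (pp i) = G.al (pp j) := k
    rw [k', a2] at a1
    exact h.pinj a1.symm
  rw [e0, card_union_of_disjoint, card_union_of_disjoint, card_image_of_injective _ i1,
    card_image_of_injective _ i2, card_image_of_injective _ i3, card_filter, card_filter,
    card_filter]
  · simp only [mem_filter, mem_univ, true_and]
  · rw [disjoint_left]
    intro d k1 k2
    obtain ⟨i, -, rfl⟩ := mem_image.1 k1
    obtain ⟨j, -, k3⟩ := mem_image.1 k2
    exact absurd (h.cinj _ _ _ _ k3).2 (by decide)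
  · rw [disjoint_left]
    intro d k1 k2
    obtain ⟨j, -, rfl⟩ := mem_image.1 k2
    have h6 := ok.QE (mem_P.2 ⟨j, rfl⟩)
    rcases mem_union.1 k1 with k1 | k1
    · obtain ⟨i, -, k3⟩ := mem_image.1 k1
      exact h6 (k3 ▸ mem_E.2 ⟨i, false, rfl⟩)
    · obtain ⟨i, -, k3⟩ := mem_image.1 k1
      exact h6 (k3 ▸ mem_E.2 ⟨i, true, rfl⟩)

/-- potentials at the gadget: inner edges -/
theorem pot_edge {tt : V → ℝ} {F' E' : Finset D} {p : V → ℝ}
    (hp : (gad G (tg G A T pp hh cc) h.gok).Pot one1 tt F' E' p)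
    (hF : ∀ d ∈ F', d ∉ (tg G A T pp hh cc).E) (hE : ∀ d ∈ E', d ∉ (tg G A T pp hh cc).E)
    (i : Fin ne) : p (hh (T.a i)) + p (hh (T.b i)) = 0 := by
  have m1 : cc i false ∈ (tg G A T pp hh cc).E := mem_E.2 ⟨i, false, rfl⟩
  have h1 := hp.jq (cc i false) (mem_gds.2 (Or.inr (Or.inr (Or.inr m1))))
    (by unfold one1; norm_num) (fun k => hF _ k m1) (fun k => hE _ k m1)
  change p (gpi G _ (cc i false)) + p (gpi G _ (gal G _ (cc i false))) = 0 at h1
  rw [GOk.galE m1, h.be_c, GOk.gpiE m1, GOk.gpiE (mem_E.2 ⟨i, !false, rfl⟩), h.pe_c, h.pe_c] at h1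
  exact h1

/-- potentials at the gadget: tokens -/
theorem pot_tok {F' E' : Finset D} {p : V → ℝ}
    (hp : (gad G (tg G A T pp hh cc) h.gok).Pot one1
      (gt G (tg G A T pp hh cc) one1 t (tkv T hh)) F' E' p)
    (i : Fin nv) (hi : T.tk i ≠ 0) : p (hh i) = 1 := by
  have m1 : hh i ∈ (tg G A T pp hh cc).K := mem_K.2 ⟨i, rfl⟩
  refine hp.tok (hh i) (mem_union_right _ m1) ?_
  unfold gt
  rw [if_pos m1, h.tkv_h]
  exact_mod_cast hi

/-- potentials at the gadget: ports -/
theorem pot_port {tt : V → ℝ} {F' E' : Finset D} {p : V → ℝ}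
    (hp : (gad G (tg G A T pp hh cc) h.gok).Pot one1 tt F' E' p)
    (hF : ∀ d ∈ F', d ∉ (tg G A T pp hh cc).P) (hE : ∀ d ∈ E', d ∉ (tg G A T pp hh cc).P)
    (i : Fin np) : p (G.pi (pp i)) + p (hh (T.pt i)) = 0 := by
  have m1 : pp i ∈ (tg G A T pp hh cc).P := mem_P.2 ⟨i, rfl⟩
  have h1 := hp.jq (pp i) (mem_gds.2 (Or.inr (Or.inl m1)))
    (by unfold one1; norm_num) (fun k => hF _ k m1) (fun k => hE _ k m1)
  change p (gpi G _ (pp i)) + p (gpi G _ (gal G _ (pp i))) = 0 at h1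
  rw [GOk.galN (h.gok.PE m1), h.gok.gpiQ m1, h.gok.gpiA (h.gok.P1 m1).1 (h.gok.P1 m1).2.1,
    h.ga_p] at h1
  exact h1

end TOk

end MG

end RH
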