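import Pool.Agent.Lib.RH.Tpl
import Pool.Agent.Lib.RH.CE6Gad
import Pool.Agent.Lib.RH.HPot
import Pool.Agent.Lib.RH.GStar
import Pool.Agent.Lib.RH.GOut
import Pool.Agent.Lib.RH.GluS

/-! # Template gadgets in the class CE6

`X6.tplG`: the gadget state of a table `T` in place of `vs - A`, some exits may be dropped (they become
tokens), a star may be kept at two of the dropped exits or old star vertices: it gives a matching of `A`
with a pattern of `T`, or a half certificate of `A` together with a colouring of `T`.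
`OBlk G t F A w`: `vs - A` is odd of value 5 (`w` = 1) or even of value 4 (`w` = 0), not crossed by
F-darts, the star anywhere. `X6.tplO`: no dropped exits. `X6.tplF`: if `T` has no colouring, a half
matching. -/

set_option autoImplicit false

namespace RH

open Finset Classical

variable {nv ne np : ℕ}

/-- no colouring -/
def Tpl.NoC (T : Tpl nv ne np) : Prop :=
  ∀ c : Fin nv → ℝ, (∀ i, c (T.a i) + c (T.b i) = 0) → (∀ v, T.tk v ≠ 0 → c v = 1) → False

namespace MG

variable {V D : Type*} {G : MG V D} {t : V → ℝ} {fr fr1 : Finset V} {F : Finset D}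
variable {jm A X : Finset V} {w : ℕ}

/-- data of the other side `A` of a set of value 4 + w -/
structure OBlk (G : MG V D) (t : V → ℝ) (F : Finset D) (A : Finset V) (w : ℕ) : Prop where
  hA : A ⊆ G.vs
  par : (G.vs \ A).card % 2 = w
  two : 2 ≤ (G.vs \ A).card
  val : G.val one1 t (G.vs \ A) = 4 + w
  hF : ∀ d ∈ F, G.pi d ∈ A → G.pi (G.al d) ∈ A

/-- new vertices and darts for a table -/
theorem exists_tok [Infinite V] [Infinite D] {T : Tpl nv ne np} (hreg : T.Reg) (hA : A ⊆ G.vs)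
    {pp : Fin np → D} (hpp : ∀ i, pp i ∈ G.bd A) (hpi : Function.Injective pp) :
    ∃ hh cc, TOk G A T pp hh cc ∧ (∀ i β, cc i β ∉ G.ds) ∧ ∀ i, hh i ∉ G.vs := by
  obtain ⟨hh, h1, h2⟩ := exists_new G.vs nv
  obtain ⟨f, h3, h4⟩ := exists_new G.ds (2 * ne)
  refine ⟨hh, fun i β => f ⟨2 * i.val + (bif β then 1 else 0), by
    have := i.isLt
    cases β <;> simp only [cond_true, cond_false] <;> omega⟩, ?_, fun i β => h4 _, h2⟩
  refine ⟨hA, hpp, hpi, h1, fun i hi => h2 i (hA hi), ?_, fun i β hc => absurd hc (h4 _), hreg⟩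
  intro i β j γ hij
  have h5 := congrArg Fin.val (h3 hij)
  simp only at h5
  cases β <;> cases γ <;> simp only [cond_true, cond_false] at h5 <;>
    first
    | exact ⟨Fin.ext (by omega), rfl⟩
    | (exfalso; omega)

namespace OBlk

variable (b : OBlk G t F A w)
include b

theorem w1 : w ≤ 1 := by
  have := b.par
  omega

theorem cardA (he : Even G.vs.card) : A.card % 2 = w := by
  have h1 := card_sdiff_add_card_eq_card b.hA
  have h2 := b.par
  have h3 := Nat.even_iff.1 he
  omega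

theorem valA (h : EK G 6 t fr F jm) {np : ℕ} {pp : Fin np → D} (hpp : G.bd A = univ.image pp)
    (hpi : Function.Injective pp) : G.val one1 t A = 2 * np + 2 - w ∧
      ∑ v ∈ A, t v = np + 2 - w := by
  have h1 := h.wt.val_compl b.hA
  have h2 := h.tau
  have h3 := b.val
  have h4 := val_one G t A
  have h5 : (G.bd A).card = np := by
    rw [hpp, card_image_of_injective _ hpi, card_univ, Fintype.card_fin]
  rw [h5] at h4
  constructor <;> linarith

end OBlk

variable {T : Tpl nv ne np} {pp : Fin np → D} {hh : Fin nv → V} {cc : Fin ne → Bool → D}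
variable {n0 : ℕ} {s1 e4 o5 : Finset (Finset (Fin np))}

variable {T : Tpl nv ne np} {pp : Fin np → D} {hh : Fin nv → V} {cc : Fin ne → Bool → D}
variable {n0 : ℕ} {s1 : Finset (Finset (Fin np))} {bE bO : Finset (Fin np) → ℕ} {Ts : Finset V}
variable {k k' : ℝ} {M : Finset D}

/-- number of exits at `X` -/
theorem TOk.qx_ge (k : TOk G A T pp hh cc) (X : Finset V) :
    (TOk.kap G pp X).card ≤ qx G A X := by
  unfold qx TOk.kap
  rw [← card_image_of_injective (univ.filter fun i => G.pi (pp i) ∈ X) k.pinj]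
  refine card_le_card fun d hd => ?_
  obtain ⟨i, h1, rfl⟩ := mem_image.1 hd
  exact mem_filter.2 ⟨k.p_bd i, (mem_filter.1 h1).2⟩

/-- the gadget state in the class -/
theorem EK.tplS (h : EK G k t fr F jm) (hk : 2 < k) (kk : TOk G A T pp hh cc)
    (hne : (G.vs \ A).Nonempty) (hT : T.Tab w n0 s1 bE bO)
    (hf : TOk.TFact G t A pp w n0 s1 bE bO) (hev : Even (A.card + nv))
    (ht : ∑ v ∈ A, t v + (((G.bd A).filter fun d => ∀ i, pp i ≠ d).card : ℝ) +
      T.nT univ = k')
    (f1 : FOk G (tg G A T pp hh cc) fr F fr1)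
    (f2 : gjm G (tg G A T pp hh cc) jm fr1 = ∅ ∨
      (gjm G (tg G A T pp hh cc) jm fr1).card = 2) :
    EK (MG.gad G (tg G A T pp hh cc) kk.gok) k'
      (gt G (tg G A T pp hh cc) one1 t (TOk.tkv T hh)) fr1 (F.filter fun d => G.pi d ∈ fr1)
      (gjm G (tg G A T pp hh cc) jm fr1) := by
  have hKc : (tg G A T pp hh cc).K.card = nv := by
    change (univ.image hh).card = nv
    rw [card_image_of_injective _ kk.hinj, card_univ, Fintype.card_fin]
  have hodd : ∀ X ⊆ A, Odd X.card → X.card ≠ 1 → 5 ≤ G.val one1 t X := fun X hX =>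
    h.odd X (hX.trans kk.hA)
  have hevn : ∀ X ⊆ A, Even X.card → X.Nonempty → 4 ≤ G.val one1 t X := by
    intro X hX he hXn
    refine h.evn X (hX.trans kk.hA) he hXn fun e => ?_
    obtain ⟨v, hv⟩ := hne
    exact (mem_sdiff.1 hv).2 (hX (e ▸ (mem_sdiff.1 hv).1))
  refine h.gad hk kk.gok f1 (by rw [hKc]; exact hev) (fun v _ => TOk.tkv_nn v) kk.kd
    f2 ?_ (kk.ko hT hf h.wt hodd hev) (kk.ke hT hf h.wt hevn)
  have e1 : (G.bd (tg G A T pp hh cc).A).filter (fun d => d ∉ (tg G A T pp hh cc).P) =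
      (G.bd A).filter fun d => ∀ i, pp i ≠ d := by
    refine filter_congr fun d _ => ?_
    rw [TOk.mem_P, not_exists]
  have e2 : ∑ v ∈ (tg G A T pp hh cc).K, TOk.tkv T hh v = (T.nT univ : ℝ) := by
    change ∑ v ∈ univ.image hh, _ = _
    rw [sum_image fun i _ j _ hij => kk.hinj hij]
    unfold Tpl.nT
    push_cast
    exact sum_congr rfl fun i _ => kk.tkv_h i
  rw [e1, e2]
  exact ht

/-- a dropped exit at `v` -/
def Drop (G : MG V D) (A : Finset V) (pp : Fin np → D) (d : D) : Prop :=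
  d ∈ G.bd A ∧ ∀ i, pp i ≠ d

/-- the half matching `M` of `A` (exits `pp`) which respects the star `Ts`: unions which are closed
up to dropped exits, with special vertices (old star, ends of dropped exits) only in `Ts`, are even
and do not contain the whole star -/
structure TSol (G : MG V D) (fr : Finset V) (F : Finset D) (jm A : Finset V) (pp : Fin np → D)
    (Ts : Finset V) (M : Finset D) : Prop where
  hm : G.HM A M
  ex : ∀ d ∈ G.bd A, d ∈ M → ∃ i, pp i = d
  st : ∀ X, G.Adm fr F X → X ⊆ A → (∀ d ∈ G.bd X, d ∈ M ∨ Drop G A pp d) →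
    (∀ v ∈ X, v ∈ Ts ∨ (v ∉ jm ∧ ∀ d, Drop G A pp d → G.pi d ≠ v)) →
    Even X.card ∧ ¬ (Ts.Nonempty ∧ Ts ⊆ X)

theorem mem_gdp_tg {v : V} {d : D} :
    d ∈ gdp G (tg G A T pp hh cc) v ↔ Drop G A pp d ∧ G.pi d = v := by
  rw [mem_gdp, TOk.mem_P, not_exists]
  unfold Drop
  rw [mem_bd]
  exact ⟨fun h => ⟨⟨h.1, h.2.1⟩, h.2.2⟩, fun h => ⟨h.1.1, h.1.2, h.2⟩⟩

theorem gdp_tg_empty {v : V} :
    gdp G (tg G A T pp hh cc) v = ∅ ↔ ∀ d, Drop G A pp d → G.pi d ≠ v := by
  rw [eq_empty_iff_forall_notMem]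
  constructor
  · intro h d hd hv
    exact h d (mem_gdp_tg.2 ⟨hd, hv⟩)
  · intro h d hd
    exact h d (mem_gdp_tg.1 hd).1 (mem_gdp_tg.1 hd).2

/-- largest union without special vertices outside `Ts` -/
theorem keepG (G : MG V D) (g : GD V D) (fr : Finset V) (F : Finset D) (jm Ts : Finset V) :
    ∃ fr1, FOk G g fr F fr1 ∧ (∀ v ∈ fr1, v ∈ Ts ∨ (gdp G g v = ∅ ∧ v ∉ jm)) ∧
      (∀ X, G.Adm fr F X → X ⊆ g.A → (∀ v ∈ X, v ∈ Ts ∨ (gdp G g v = ∅ ∧ v ∉ jm)) → X ⊆ fr1) :=
  exists_keepT G g fr F jm Ts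

/-- the star of the gadget state -/
theorem exists_starG (G : MG V D) (g : GD V D) (fr : Finset V) (F : Finset D) (jm Ts : Finset V)
    (hT : ∀ v ∈ Ts, v ∈ jm ∨ (gdp G g v).Nonempty) (h2 : Ts = ∅ ∨ Ts.card = 2) :
    ∃ fr1, FOk G g fr F fr1 ∧
      ((gjm G g jm fr1 = Ts ∧ ∀ X, G.Adm fr F X → X ⊆ g.A →
        (∀ v ∈ X, v ∈ Ts ∨ (gdp G g v = ∅ ∧ v ∉ jm)) → X ⊆ fr1) ∨
      (gjm G g jm fr1 = ∅ ∧ (∀ X, G.Adm fr F X → X ⊆ g.A →
        (∀ v ∈ X, gdp G g v = ∅ ∧ v ∉ jm) → X ⊆ fr1) ∧ ∀ X, G.Adm fr F X → X ⊆ g.A →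
        (∀ v ∈ X, v ∈ Ts ∨ (gdp G g v = ∅ ∧ v ∉ jm)) → ¬ Ts ⊆ X)) := by
  have hcl : ∀ {B : Finset V}, (∀ v ∈ B, v ∈ Ts ∨ (gdp G g v = ∅ ∧ v ∉ jm)) →
      gjm G g jm B = B ∩ Ts := by
    intro B hB
    unfold gjm
    ext v
    rw [mem_filter, mem_inter]
    constructor
    · rintro ⟨h1, h3⟩
      refine ⟨h1, ?_⟩
      rcases hB v h1 with h4 | ⟨h4, h5⟩
      · exact h4
      · rcases h3 with h3 | h3
        · exact absurd h3 h5
        · rw [h4] at h3
          exact absurd h3 not_nonempty_empty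
    · rintro ⟨h1, h3⟩
      exact ⟨h1, hT v h3⟩
  by_cases hc : ∃ X, G.Adm fr F X ∧ X ⊆ g.A ∧ (∀ v ∈ X, v ∈ Ts ∨ (gdp G g v = ∅ ∧ v ∉ jm)) ∧ Ts ⊆ X
  · obtain ⟨X, h3, h4, h5, h6⟩ := hc
    obtain ⟨fr1, h7, h8, h9⟩ := exists_keepT G g fr F jm Ts
    refine ⟨fr1, h7, Or.inl ⟨?_, h9⟩⟩
    rw [hcl h8]
    exact inter_eq_right.2 (h6.trans (h9 X h3 h4 h5))
  · obtain ⟨fr1, h7, h8, h9⟩ := exists_keepT G g fr F jm ∅
    refine ⟨fr1, h7, Or.inr ⟨?_, fun X h3 h4 h5 => h9 X h3 h4 fun v hv => Or.inr (h5 v hv),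
      fun X h3 h4 h5 h6 => hc ⟨X, h3, h4, h5, h6⟩⟩⟩
    unfold gjm
    rw [filter_eq_empty_iff]
    intro v hv h1
    rcases h8 v hv with h2 | ⟨h2, h3⟩
    · exact notMem_empty v h2
    · rcases h1 with h1 | h1
      · exact h3 h1
      · rw [h2] at h1
        exact not_nonempty_empty h1

/-- a good matching of the gadget state respects the star -/
theorem EK.tsol (h : EK G 6 t fr F jm) (kk : TOk G A T pp hh cc) (h2 : Ts = ∅ ∨ Ts.card = 2)
    (hT : ∀ v ∈ Ts, v ∈ jm ∨ (gdp G (tg G A T pp hh cc) v).Nonempty)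
    (f1 : FOk G (tg G A T pp hh cc) fr F fr1)
    (hc : ((gjm G (tg G A T pp hh cc) jm fr1 = Ts ∧ ∀ X, G.Adm fr F X → X ⊆ A →
        (∀ v ∈ X, v ∈ Ts ∨ (gdp G (tg G A T pp hh cc) v = ∅ ∧ v ∉ jm)) → X ⊆ fr1) ∨
      (gjm G (tg G A T pp hh cc) jm fr1 = ∅ ∧ (∀ X, G.Adm fr F X → X ⊆ A →
        (∀ v ∈ X, gdp G (tg G A T pp hh cc) v = ∅ ∧ v ∉ jm) → X ⊆ fr1) ∧ ∀ X, G.Adm fr F X →
        X ⊆ A → (∀ v ∈ X, v ∈ Ts ∨ (gdp G (tg G A T pp hh cc) v = ∅ ∧ v ∉ jm)) → ¬ Ts ⊆ X)))
    (hM : (MG.gad G (tg G A T pp hh cc) kk.gok).GoodS one1 fr1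
      (F.filter fun d => G.pi d ∈ fr1) (gjm G (tg G A T pp hh cc) jm fr1) M) :
    TSol G fr F jm A pp Ts (G.resM A M) where
  hm := gad_HM kk.gok hM.pm
  ex := by
    intro d hd hdM
    have h1 := gad_exit kk.gok hM.pm hd (mem_resM.1 hdM).1
    exact TOk.mem_P.1 h1
  st := by
    intro X hX hXA hcl hsp
    have hsp' : ∀ v ∈ X, v ∈ Ts ∨ (gdp G (tg G A T pp hh cc) v = ∅ ∧ v ∉ jm) := by
      intro v hv
      rcases hsp v hv with h3 | ⟨h3, h4⟩
      · exact Or.inl h3
      · exact Or.inr ⟨gdp_tg_empty.2 h4, h3⟩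
    have key : X ⊆ fr1 → (Odd X.card ∨ ((gjm G (tg G A T pp hh cc) jm fr1).Nonempty ∧
        gjm G (tg G A T pp hh cc) jm fr1 ⊆ X)) → False := by
      intro h3 h4
      obtain ⟨d, h5, h6⟩ := hM.hit X ((gad_adm kk.gok h.fresh f1).2 ⟨hX, h3⟩) h4
      obtain ⟨h7, h8⟩ := (gad_mem_bd kk.gok (h3.trans f1.inA)).1 h5
      rcases hcl d h7 with h9 | h9
      · exact h6 (mem_resM.1 h9).1
      · refine h8 ⟨(mem_bd.1 h9.1).2.2, fun h10 => ?_⟩
        obtain ⟨i, hi⟩ := TOk.mem_P.1 h10
        exact h9.2 i hi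
    rcases hc with ⟨c1, c2⟩ | ⟨c1, c2, c3⟩
    · have h3 := c2 X hX hXA hsp'
      rw [c1] at key
      refine ⟨?_, fun h4 => key h3 (Or.inr h4)⟩
      rw [← Nat.not_odd_iff_even]
      exact fun h4 => key h3 (Or.inl h4)
    · have h3 : ¬ Ts ⊆ X := c3 X hX hXA hsp'
      refine ⟨?_, fun h4 => h3 h4.2⟩
      by_cases h4 : ∀ v ∈ X, v ∉ Ts
      · have h5 : X ⊆ fr1 := c2 X hX hXA fun v hv => (hsp' v hv).resolve_left (h4 v hv)
        rw [← Nat.not_odd_iff_even]
        exact fun h6 => key h5 (Or.inl h6)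
      · exfalso
        push Not at h4
        obtain ⟨v, hv, hvT⟩ := h4
        have h5 : Ts.card = 2 := by
          rcases h2 with h2 | h2
          · rw [h2] at hvT
            exact absurd hvT (notMem_empty v)
          · exact h2
        have h6 : ∀ x ∈ X, x ∈ Ts → x = v := by
          intro x hx hxT
          by_contra hne
          refine h3 ?_
          have h7 : ({x, v} : Finset V) = Ts := by
            refine eq_of_subset_of_card_le ?_ (by rw [h5, card_pair hne])
            intro y hy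
            rcases mem_insert.1 hy with rfl | hy
            · exact hxT
            · rw [mem_singleton.1 hy]
              exact hvT
          rw [← h7]
          intro y hy
          rcases mem_insert.1 hy with rfl | hy
          · exact hx
          · rw [mem_singleton.1 hy]
            exact hv
        have hHM : G.HM A (G.resM A M) := gad_HM kk.gok hM.pm
        have h7 := hHM.unused h.fresh hX hXA
        -- no dropped F-dart at `X`
        have h8 : ∀ d, Drop G A pp d → G.pi d ∈ X → d ∉ F := by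
          intro d hd hdX hdF
          exact (mem_bd.1 hd.1).2.2 (hXA (hX.clo d hdF hdX))
        have h9 : ∀ d, Drop G A pp d → G.pi d ∈ X → G.pi d = v := by
          intro d hd hdX
          rcases hsp _ hdX with h10 | h10
          · exact h6 _ hdX h10
          · exact absurd rfl (h10.2 d hd)
        have h10 : (G.bd X).filter (fun d => d ∉ G.resM A M) = gdp G (tg G A T pp hh cc) v := by
          ext d
          rw [mem_filter, mem_gdp_tg]
          constructor
          · rintro ⟨k1, k2⟩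
            have k3 := (hcl d k1).resolve_left k2
            exact ⟨k3, h9 d k3 (mem_bd.1 k1).2.1⟩
          · rintro ⟨k1, k2⟩
            obtain ⟨k3, k4, k5⟩ := mem_bd.1 k1.1
            refine ⟨mem_bd.2 ⟨k3, k2 ▸ hv, fun k => k5 (hXA k)⟩, fun k6 => ?_⟩
            obtain ⟨i, hi⟩ := TOk.mem_P.1 (gad_exit kk.gok hM.pm k1.1 (mem_resM.1 k6).1)
            exact k1.2 i hi
        rw [h10] at h7
        rcases hT v hvT with h11 | h11
        · have h12 : gdp G (tg G A T pp hh cc) v = ∅ := by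
            rw [eq_empty_iff_forall_notMem]
            intro d hd
            obtain ⟨k1, k2⟩ := mem_gdp_tg.1 hd
            refine h8 d k1 (k2 ▸ hv) (h.fresh.j0 v h11 d (mem_st.2 ⟨(mem_bd.1 k1.1).1, k2⟩))
          have h13 : X ∩ jm = {v} := by
            ext x
            rw [mem_inter, mem_singleton]
            constructor
            · rintro ⟨k1, k2⟩
              rcases hsp x k1 with k3 | k3
              · exact h6 x k1 k3
              · exact absurd k2 k3.1
            · rintro rfl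
              exact ⟨hv, h11⟩
          rw [h12, h13, card_empty, card_singleton] at h7
          omega
        · by_cases h11' : v ∈ jm
          · obtain ⟨d, hd⟩ := h11
            obtain ⟨k1, k2⟩ := mem_gdp_tg.1 hd
            exact h8 d k1 (k2 ▸ hv) (h.fresh.j0 v h11' d (mem_st.2 ⟨(mem_bd.1 k1.1).1, k2⟩))
          · have h12 : (gdp G (tg G A T pp hh cc) v).card = 1 := by
              have k0 := h.fresh.jd v (hX.sub hv) h11'
              refine le_antisymm ?_ (card_pos.2 h11)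
              rw [← k0]
              refine card_le_card fun d hd => ?_
              obtain ⟨k1, k2⟩ := mem_gdp_tg.1 hd
              rw [mem_filter, mem_st]
              exact ⟨⟨(mem_bd.1 k1.1).1, k2⟩, h8 d k1 (k2 ▸ hv)⟩
            have h13 : X ∩ jm = ∅ := by
              rw [eq_empty_iff_forall_notMem]
              intro x hx
              obtain ⟨k1, k2⟩ := mem_inter.1 hx
              rcases hsp x k1 with k3 | k3
              · exact h11' (h6 x k1 k3 ▸ k2)
              · exact k3.1 k2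
            rw [h12, h13, card_empty] at h7
            omega

/-- **THE ENGINE**: a matching of `A` with a pattern of the table which respects the star, or a half
certificate with a colouring of the table -/
theorem X6.tplG [Infinite V] [Infinite D] (h : X6 G t fr F jm) (hA : A ⊆ G.vs)
    (hne : (G.vs \ A).Nonempty) {T : Tpl nv ne np} (hreg : T.Reg) (hT : T.Tab w n0 s1 bE bO)
    {pp : Fin np → D} (hpb : ∀ i, pp i ∈ G.bd A) (hpi : Function.Injective pp)
    (hf : TOk.TFact G t A pp w n0 s1 bE bO) (hev : Even (A.card + nv))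
    (ht : ∑ v ∈ A, t v + (((G.bd A).filter fun d => ∀ i, pp i ≠ d).card : ℝ) +
      T.nT univ = 6)
    (h2 : Ts = ∅ ∨ Ts.card = 2) (hTs : ∀ v ∈ Ts, v ∈ jm ∨ ∃ d, Drop G A pp d ∧ G.pi d = v)
    (hsm : (fr ∩ A).card < fr.card ∨ A.card + nv < G.vs.card) :
    (∃ M m, TSol G fr F jm A pp Ts M ∧ T.IsPat m (univ.filter fun i => pp i ∈ M)) ∨
      ∃ (p : V → ℝ) (c : Fin nv → ℝ), G.HPot one1 t F A p ∧
        (∀ d, Drop G A pp d → p (G.pi d) = 1) ∧ (∀ i, c (T.a i) + c (T.b i) = 0) ∧
        (∀ v, T.tk v ≠ 0 → c v = 1) ∧ ∀ i, p (G.pi (pp i)) + c (T.pt i) = 0 := by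
  obtain ⟨hh, cc, k, hcc, hhn⟩ := exists_tok hreg hA hpb hpi
  have hE := h.toEK
  have hTs' : ∀ v ∈ Ts, v ∈ jm ∨ (gdp G (tg G A T pp hh cc) v).Nonempty := by
    intro v hv
    rcases hTs v hv with h1 | ⟨d, h1, h3⟩
    · exact Or.inl h1
    · exact Or.inr ⟨d, mem_gdp_tg.2 ⟨h1, h3⟩⟩
  obtain ⟨fr1, f1, f2⟩ := exists_starG G (tg G A T pp hh cc) fr F jm Ts hTs' h2
  have f3 : gjm G (tg G A T pp hh cc) jm fr1 = ∅ ∨
      (gjm G (tg G A T pp hh cc) jm fr1).card = 2 := by
    rcases f2 with ⟨f2, -⟩ | ⟨f2, -⟩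
    · rw [f2]
      exact h2
    · exact Or.inl f2
  have hst := hE.tplS (by norm_num) k hne hT hf hev ht f1 f3
  have hKc : (tg G A T pp hh cc).K.card = nv := by
    change (univ.image hh).card = nv
    rw [card_image_of_injective _ k.hinj, card_univ, Fintype.card_fin]
  have hsm' : fr1.card < fr.card ∨ (fr1.card = fr.card ∧
      (MG.gad G (tg G A T pp hh cc) k.gok).vs.card < G.vs.card) := by
    have h1 : fr1.card ≤ (fr ∩ A).card := card_le_card (subset_inter f1.sub f1.inA)
    have h2 : (fr ∩ A).card ≤ fr.card := card_le_card inter_subset_left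
    rcases hsm with h3 | h3
    · left
      omega
    · by_cases h4 : fr1.card = fr.card
      · right
        refine ⟨h4, ?_⟩
        change (A ∪ (tg G A T pp hh cc).K).card < _
        have h5 := card_union_le A (tg G A T pp hh cc).K
        omega
      · left
        omega
  rcases h.ih _ _ _ _ _ hsm' hst with ⟨M, hM⟩ | ⟨p, hp⟩
  · left
    refine ⟨G.resM A M, univ.filter fun i => cc i false ∈ M, hE.tsol k h2 hTs' f1 f2 hM, ?_⟩
    have h1 := k.pat hM.pm
    have h2 : (univ.filter fun i => pp i ∈ G.resM A M) = univ.filter fun i => pp i ∈ M := by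
      refine filter_congr fun i _ => ?_
      rw [mem_resM]
      constructor
      · exact fun k2 => k2.1
      · intro k2
        have k3 := mem_bd.1 (k.p_bd i)
        exact ⟨k2, k3.1, k3.2.1⟩
    rw [h2]
    exact h1
  · right
    have hFE : ∀ d ∈ F.filter (fun d => G.pi d ∈ fr1), d ∉ (tg G A T pp hh cc).E := by
      intro d hd hd2
      obtain ⟨i, β, rfl⟩ := TOk.mem_E.1 hd2
      exact hcc i β (h.fresh.Fsub (mem_filter.1 hd).1)
    have hFP : ∀ d ∈ F.filter (fun d => G.pi d ∈ fr1), d ∉ (tg G A T pp hh cc).P := by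
      intro d hd hd2
      obtain ⟨i, rfl⟩ := TOk.mem_P.1 hd2
      obtain ⟨k1, k2, k3⟩ := mem_bd.1 (hpb i)
      exact k3 (f1.inA (f1.clo _ (mem_filter.1 hd).1 (mem_filter.1 hd).2))
    have hp' : (MG.gad G (tg G A T pp hh cc) k.gok).Pot (gz (tg G A T pp hh cc) one1 one1)
        (gt G (tg G A T pp hh cc) one1 t (TOk.tkv T hh))
        (F.filter fun d => G.pi d ∈ fr1) ∅ p := by
      rw [gz_one]
      exact hp
    refine ⟨p, fun i => p (hh i), gad_hpot k.gok h.wt (filter_subset _ _) hp' (fun _ _ => one_pos)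
      h.fresh.Fsub, ?_, ?_, ?_, ?_⟩
    · intro d hd
      refine gad_lost k.gok h.wt hp' hd.1 (fun h1 => ?_) (by unfold one1; norm_num)
      obtain ⟨i, hi⟩ := TOk.mem_P.1 h1
      exact hd.2 i hi
    · intro i
      exact k.pot_edge hp hFE (fun d hd => absurd hd (notMem_empty d)) i
    · intro v hv
      exact k.pot_tok hp v hv
    · intro i
      exact k.pot_port hp hFP (fun d hd => absurd hd (notMem_empty d)) i

namespace TSol

/-- closed unions contain no end of a dropped exit -/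
theorem closed (h : TSol G fr F jm A pp Ts M) (hXA : X ⊆ A) (hcl : ∀ d ∈ G.bd X, d ∈ M) {v : V}
    (hv : v ∈ X) {d : D} (hd : Drop G A pp d) : G.pi d ≠ v := by
  intro h1
  obtain ⟨k3, k4, k5⟩ := mem_bd.1 hd.1
  have h2 : d ∈ M := hcl d (mem_bd.2 ⟨k3, h1 ▸ hv, fun k => k5 (hXA k)⟩)
  obtain ⟨i, hi⟩ := h.ex d hd.1 h2
  exact hd.2 i hi

/-- a half matching, if the star of the state is not inside `A`, or is the chosen star -/
theorem half {z : D → ℝ} (hF : G.FrS z fr F jm) (j2 : jm = ∅ ∨ jm.card = 2) (h : TSol G fr F jm A pp Ts M)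
    (hj : Ts = jm ∨ jm = ∅ ∨ ¬ jm ⊆ A) : G.GHalf one1 fr F jm A M where
  hm := h.hm
  pos := fun _ _ => one_pos
  ok := by
    intro X hX hXA hcl
    have hdr : ∀ v ∈ X, ∀ d, Drop G A pp d → G.pi d ≠ v := fun v hv d hd =>
      h.closed hXA hcl hv hd
    rcases hj with hj | hj
    · have h1 := h.st X hX hXA (fun d hd => Or.inl (hcl d hd)) fun v hv => by
        by_cases h2 : v ∈ jm
        · exact Or.inl (hj ▸ h2)
        · exact Or.inr ⟨h2, hdr v hv⟩
      rw [hj] at h1
      exact h1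
    · have h0 : X ∩ jm = ∅ := by
        rcases hj with hj | hj
        · rw [hj, inter_empty]
        · have h1 := h.hm.unused hF hX hXA
          have h2 : (G.bd X).filter (fun d => d ∉ M) = ∅ := by
            rw [filter_eq_empty_iff]
            exact fun d hd hn => hn (hcl d hd)
          rw [h2, card_empty] at h1
          have h3 : (X ∩ jm).card < jm.card := by
            refine card_lt_card ⟨inter_subset_right, fun h4 => hj fun v hv => ?_⟩
            exact hXA (mem_inter.1 (h4 hv)).1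
          rcases j2 with j2 | j2
          · rw [j2, inter_empty]
          · rw [← card_eq_zero]
            omega
      have h1 := h.st X hX hXA (fun d hd => Or.inl (hcl d hd)) fun v hv => by
        refine Or.inr ⟨fun h2 => ?_, hdr v hv⟩
        have h3 : v ∈ X ∩ jm := mem_inter.2 ⟨hv, h2⟩
        rw [h0] at h3
        exact notMem_empty v h3
      refine ⟨h1.1, fun h4 => ?_⟩
      obtain ⟨⟨v, hv⟩, h5⟩ := h4
      have h6 : v ∈ X ∩ jm := mem_inter.2 ⟨h5 hv, hv⟩
      rw [h0] at h6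
      exact notMem_empty v h6

/-- **LINKS**: the star at the ends of the dropped exits `T0` (the old star is not in `A`) -/
theorem lk (h : TSol G fr F jm A pp Ts M) (hj : Disjoint jm A) {T0 : Finset D}
    (hT : T0.image G.pi = Ts) (hne : T0.Nonempty) (hD : ∀ d ∈ T0, Drop G A pp d) :
    G.Lk fr F A M T0 := by
  intro X hX hXA hcl hall
  have h1 := h.st X hX hXA (fun d hd => by
      rcases hcl d hd with h2 | h2
      · exact Or.inl h2
      · exact Or.inr (hD d h2)) fun v hv => by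
    by_cases h2 : v ∈ Ts
    · exact Or.inl h2
    · refine Or.inr ⟨fun h3 => disjoint_left.1 hj h3 (hXA hv), fun d hd hv' => ?_⟩
      obtain ⟨k3, k4, k5⟩ := mem_bd.1 hd.1
      rcases hcl d (mem_bd.2 ⟨k3, hv' ▸ hv, fun k => k5 (hXA k)⟩) with h4 | h4
      · obtain ⟨i, hi⟩ := h.ex d hd.1 h4
        exact hd.2 i hi
      · refine h2 ?_
        rw [← hT, ← hv']
        exact mem_image_of_mem _ h4
  refine h1.2 ⟨?_, ?_⟩
  · rw [← hT]
    exact hne.image _
  · rw [← hT]
    intro v hv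
    obtain ⟨d, hd, rfl⟩ := mem_image.1 hv
    exact hall d hd

end TSol

end MG

end RH
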