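import Pool.Agent.Lib.RH.TplF
import Pool.Agent.Lib.RH.GluT

/-! # Inner halves from template gadgets

`ISol G fr F jm W Ts M`: a half matching of `W` which respects the star `Ts` (special vertices: old star
vertices and ends of unused exits). `TSol.isol`, `TSol.addQ`: from the engine, for `A = W` and
`W = A + b`. `ISol.out`: `GHalf` and `LkS`. `X6.inI1`, `X6.inIn`, `X6.inI3`: the inner instances I1, In(e)*,
I3(pq) of a set of value 5. -/

set_option autoImplicit false

namespace RH

open Finset Classical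

variable {nv ne np : ℕ}

namespace MG

variable {V D : Type*} {G : MG V D} {t : V → ℝ} {fr fr1 : Finset V} {F : Finset D}
variable {jm A W X S Ts : Finset V} {w : ℕ} {z : D → ℝ}
variable {pp : Fin np → D} {M T : Finset D}

/-- half matching of `W` which respects the star `Ts` -/
structure ISol (G : MG V D) (fr : Finset V) (F : Finset D) (jm W Ts : Finset V) (M : Finset D) :
    Prop where
  hm : G.HM W M
  st : ∀ X, G.Adm fr F X → X ⊆ W → (∀ d ∈ G.bd X, d ∈ M ∨ d ∈ G.bd W) →
    (∀ v ∈ X, v ∈ Ts ∨ (v ∉ jm ∧ ∀ d ∈ G.bd W, G.pi d = v → d ∈ M)) →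
    Even X.card ∧ ¬ (Ts.Nonempty ∧ Ts ⊆ X)

/-- a fresh vertex has at most one dart outside `F` -/
theorem FrS.uniq (hF : G.FrS z fr F jm) {d e : D} (hd : d ∈ G.ds) (he : e ∈ G.ds)
    (h1 : G.pi d = G.pi e) (hv : G.pi d ∈ fr) (hdF : d ∉ F) (heF : e ∉ F) : d = e := by
  by_cases hj : G.pi d ∈ jm
  · exact absurd (hF.j0 _ hj d (mem_st.2 ⟨hd, rfl⟩)) hdF
  · obtain ⟨x, hx⟩ := card_eq_one.1 (hF.jd _ hv hj)
    have m1 : d ∈ (G.st (G.pi d)).filter fun e => e ∉ F :=
      mem_filter.2 ⟨mem_st.2 ⟨hd, rfl⟩, hdF⟩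
    have m2 : e ∈ (G.st (G.pi d)).filter fun e => e ∉ F :=
      mem_filter.2 ⟨mem_st.2 ⟨he, h1.symm⟩, heF⟩
    rw [hx, mem_singleton] at m1 m2
    rw [m1, m2]

theorem TSol.isol (hF : G.FrS z fr F jm) (h : TSol G fr F jm W pp Ts M)
    (hJ : ∀ d ∈ G.bd W, d ∉ F) (hTs : ∀ v ∈ Ts, v ∈ jm ∨ ∃ d, Drop G W pp d ∧ G.pi d = v) :
    ISol G fr F jm W Ts M where
  hm := h.hm
  st := by
    intro X hX hXW hcl hsp
    refine h.st X hX hXW ?_ ?_
    · intro d hd
      by_cases h1 : d ∈ M
      · exact Or.inl h1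
      · right
        have h2 := (hcl d hd).resolve_left h1
        obtain ⟨k1, k2, k3⟩ := mem_bd.1 hd
        rcases hsp _ k2 with h3 | h3
        · rcases hTs _ h3 with h4 | ⟨d', h4, h5⟩
          · exact absurd (hF.j0 _ h4 d (mem_st.2 ⟨k1, rfl⟩)) (hJ d h2)
          · have h6 : d = d' := hF.uniq k1 (mem_bd.1 h4.1).1 h5.symm (hX.sub k2) (hJ d h2)
              (hJ d' h4.1)
            rw [h6]
            exact h4
        · exact absurd (h3.2 d h2 rfl) h1
    · intro v hv
      rcases hsp v hv with h1 | ⟨h1, h2⟩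
      · exact Or.inl h1
      · refine Or.inr ⟨h1, fun d hd h3 => ?_⟩
        obtain ⟨i, hi⟩ := h.ex d hd.1 (h2 d hd.1 h3)
        exact hd.2 i hi

/-- a vertex `b` outside the circuits is added and matched outwards -/
theorem TSol.addQ (hF : G.FrS z fr F jm) {b : V} {eb : D} (h : TSol G fr F jm A pp Ts M)
    (hb : b ∉ A) (hbf : b ∉ fr) (heb : eb ∈ G.bd (insert b A)) (hbe : G.pi eb = b)
    (hpp : ∀ i, pp i ∈ G.bd (insert b A)) (hJ : ∀ d ∈ G.bd (insert b A), d ∉ F)
    (hTs : ∀ v ∈ Ts, v ∈ jm ∨ ∃ d ∈ G.bd (insert b A), (∀ i, pp i ≠ d) ∧ G.pi d = v) :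
    ISol G fr F jm (insert b A) Ts (insert eb M) where
  hm := by
    refine ⟨?_, ?_, ?_⟩
    · intro d hd
      rcases mem_insert.1 hd with rfl | hd
      · exact ⟨(mem_bd.1 heb).1, (mem_bd.1 heb).2.1⟩
      · exact ⟨(h.hm.sub d hd).1, mem_insert_of_mem (h.hm.sub d hd).2⟩
    · intro d hd hd2
      rcases mem_insert.1 hd with rfl | hd
      · exact absurd hd2 (mem_bd.1 heb).2.2
      · refine mem_insert_of_mem ?_
        obtain ⟨k1, k2⟩ := h.hm.sub d hd
        rcases mem_insert.1 hd2 with h1 | h1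
        · have h2 : d ∈ G.bd A := mem_bd.2 ⟨k1, k2, by rw [h1]; exact hb⟩
          obtain ⟨i, rfl⟩ := h.ex d h2 hd
          exact absurd hd2 (mem_bd.1 (hpp i)).2.2
        · exact h.hm.clo d hd h1
    · intro v hv
      rcases mem_insert.1 hv with rfl | hv
      · rw [card_eq_one]
        refine ⟨eb, ?_⟩
        ext d
        rw [mem_filter, mem_insert, mem_singleton]
        constructor
        · rintro ⟨rfl | h1, h2⟩
          · rfl
          · exact absurd (h2 ▸ (h.hm.sub d h1).2) hb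
        · rintro rfl
          exact ⟨Or.inl rfl, hbe⟩
      · rw [← h.hm.one v hv]
        congr 1
        ext d
        rw [mem_filter, mem_filter, mem_insert]
        constructor
        · rintro ⟨rfl | h1, h2⟩
          · exact absurd (hbe.symm.trans h2 ▸ hv) hb
          · exact ⟨h1, h2⟩
        · rintro ⟨h1, h2⟩
          exact ⟨Or.inr h1, h2⟩
  st := by
    intro X hX hXW hcl hsp
    have hbX : b ∉ X := fun k => hbf (hX.sub k)
    have hXA : X ⊆ A := fun v hv => by
      rcases mem_insert.1 (hXW hv) with h1 | h1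
      · exact absurd (h1 ▸ hv) hbX
      · exact h1
    have hM : ∀ d, G.pi d ∈ X → d ∈ insert eb M → d ∈ M := by
      intro d hd h1
      rcases mem_insert.1 h1 with rfl | h1
      · exact absurd (hbe ▸ hd) hbX
      · exact h1
    have hbA : ∀ d ∈ G.bd (insert b A), G.pi d ∈ A → d ∈ G.bd A := by
      intro d hd h1
      obtain ⟨k1, k2, k3⟩ := mem_bd.1 hd
      exact mem_bd.2 ⟨k1, h1, fun k => k3 (mem_insert_of_mem k)⟩
    refine h.st X hX hXA ?_ ?_
    · intro d hd
      obtain ⟨k1, k2, k3⟩ := mem_bd.1 hd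
      by_cases h1 : d ∈ M
      · exact Or.inl h1
      · right
        have h2 : d ∈ G.bd (insert b A) := (hcl d hd).resolve_left fun k => h1 (hM d k2 k)
        refine ⟨hbA d h2 (hXA k2), fun i hi => ?_⟩
        rcases hsp _ k2 with h3 | h3
        · rcases hTs _ h3 with h4 | ⟨d', h4, h4', h5⟩
          · exact absurd (hF.j0 _ h4 d (mem_st.2 ⟨k1, rfl⟩)) (hJ d h2)
          · have h6 : d = d' := hF.uniq k1 (mem_bd.1 h4).1 h5.symm (hX.sub k2) (hJ d h2)
              (hJ d' h4)
            exact h4' i (hi.trans h6)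
        · exact h1 (hM d k2 (h3.2 d h2 rfl))
    · intro v hv
      rcases hsp v hv with h1 | ⟨h1, h2⟩
      · exact Or.inl h1
      · refine Or.inr ⟨h1, fun d hd h3 => ?_⟩
        obtain ⟨k1, k2, k3⟩ := mem_bd.1 hd.1
        have h4 : d ∈ G.bd (insert b A) := by
          by_contra h4
          have h5 : G.pi (G.al d) = b := by
            by_contra h5
            exact h4 (mem_bd.2 ⟨k1, mem_insert_of_mem k2, fun k => by
              rcases mem_insert.1 k with k | k
              · exact h5 k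
              · exact k3 k⟩)
          have h6 : d ∈ G.bd X := mem_bd.2 ⟨k1, h3 ▸ hv, by rw [h5]; exact hbX⟩
          rcases hcl d h6 with h7 | h7
          · obtain ⟨i, hi⟩ := h.ex d hd.1 (hM d (h3 ▸ hv) h7)
            exact hd.2 i hi
          · exact h4 h7
        obtain ⟨i, hi⟩ := h.ex d hd.1 (hM d (h3 ▸ hv) (h2 d h4 h3))
        exact hd.2 i hi

/-- admissible stars of the inner side: none (the star of the state is inside, or not), two exits,
or an exit and the inner star vertex (split star) -/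
def SpI (G : MG V D) (fr jm W : Finset V) (T : Finset D) (S : Finset V) : Prop :=
  T ⊆ G.bd W ∧ (∀ d ∈ T, G.pi d ∈ fr) ∧
    ((T = ∅ ∧ S = ∅ ∧ (jm = ∅ ∨ ¬ jm ⊆ W)) ∨ (T = ∅ ∧ S = jm ∧ jm ⊆ W) ∨
      (T.card = 2 ∧ S = ∅ ∧ (jm = ∅ ∨ ¬ jm ⊆ W)) ∨ (T.card = 1 ∧ S = jm ∩ W ∧ S.card = 1 ∧
        jm.card = 2))

/-- there is always an admissible star without exits -/
theorem exists_spI (G : MG V D) (fr jm W : Finset V) : ∃ S, SpI G fr jm W ∅ S := by
  by_cases h : jm ⊆ W
  · exact ⟨jm, empty_subset _, fun d hd => absurd hd (notMem_empty d), Or.inr (Or.inl ⟨rfl, rfl, h⟩)⟩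
  · exact ⟨∅, empty_subset _, fun d hd => absurd hd (notMem_empty d),
      Or.inl ⟨rfl, rfl, Or.inr h⟩⟩

/-- the star vertices -/
theorem SpI.card (hF : G.FrS z fr F jm) (j2 : jm = ∅ ∨ jm.card = 2) (hJ : ∀ d ∈ G.bd W, d ∉ F)
    (h : SpI G fr jm W T S) : T.image G.pi ∪ S = ∅ ∨ (T.image G.pi ∪ S).card = 2 := by
  obtain ⟨h1, h2, h3⟩ := h
  have hinj : ∀ d ∈ T, ∀ e ∈ T, G.pi d = G.pi e → d = e := fun d hd e he h4 =>
    hF.uniq (mem_bd.1 (h1 hd)).1 (mem_bd.1 (h1 he)).1 h4 (h2 d hd) (hJ d (h1 hd)) (hJ e (h1 he))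
  have hci : (T.image G.pi).card = T.card := card_image_of_injOn fun d hd e he h4 =>
    hinj d (mem_coe.1 hd) e (mem_coe.1 he) h4
  rcases h3 with ⟨h3, h4, -⟩ | ⟨h3, h4, -⟩ | ⟨h3, h4, -⟩ | ⟨h3, h4, h5, -⟩
  · left
    rw [h3, h4, image_empty, union_empty]
  · rw [h3, h4, image_empty, empty_union]
    exact j2
  · right
    rw [h4, union_empty, hci, h3]
  · right
    rw [card_union_of_disjoint, hci, h3, h5]
    rw [disjoint_left]
    intro v hv hvS
    obtain ⟨d, hd, rfl⟩ := mem_image.1 hv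
    rw [h4] at hvS
    exact hJ d (h1 hd) (hF.j0 _ (mem_inter.1 hvS).1 d (mem_st.2 ⟨(mem_bd.1 (h1 hd)).1, rfl⟩))

/-- **halves and exclusion of the pair** -/
theorem ISol.out (hF : G.FrS z fr F jm) (j2 : jm = ∅ ∨ jm.card = 2) (hJ : ∀ d ∈ G.bd W, d ∉ F)
    (hs : SpI G fr jm W T S) (h : ISol G fr F jm W (T.image G.pi ∪ S) M)
    (hTM : ∀ d ∈ T, d ∉ M) :
    G.GHalf one1 fr F jm W M ∧ (T.Nonempty → G.LkS fr F W M T S) := by
  obtain ⟨s1, s2, s3⟩ := hs
  constructor
  · refine ⟨h.hm, fun _ _ => one_pos, fun X hX hXW hcl => ?_⟩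
    have hex : ∀ v ∈ X, ∀ d ∈ G.bd W, G.pi d = v → d ∈ M := by
      intro v hv d hd h1
      obtain ⟨k1, k2, k3⟩ := mem_bd.1 hd
      exact hcl d (mem_bd.2 ⟨k1, h1 ▸ hv, fun k => k3 (hXW k)⟩)
    have hpar := h.hm.unused hF hX hXW
    have h2 : (G.bd X).filter (fun d => d ∉ M) = ∅ := by
      rw [filter_eq_empty_iff]
      exact fun d hd hn => hn (hcl d hd)
    rw [h2, card_empty] at hpar
    by_cases hj : jm ⊆ W
    · rcases j2 with j2 | j2
      · have h1 := h.st X hX hXW (fun d hd => Or.inl (hcl d hd)) fun v hv =>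
          Or.inr ⟨by rw [j2]; exact notMem_empty v, hex v hv⟩
        refine ⟨h1.1, fun h3 => ?_⟩
        obtain ⟨⟨v, hv⟩, -⟩ := h3
        rw [j2] at hv
        exact notMem_empty v hv
      · have hT : T = ∅ ∧ S = jm := by
          rcases s3 with ⟨-, -, h3⟩ | ⟨h3, h4, -⟩ | ⟨-, -, h3⟩ | ⟨-, h3, h4, -⟩
          · rcases h3 with h3 | h3
            · rw [h3, card_empty] at j2
              omega
            · exact absurd hj h3
          · exact ⟨h3, h4⟩
          · rcases h3 with h3 | h3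
            · rw [h3, card_empty] at j2
              omega
            · exact absurd hj h3
          · rw [h3, inter_eq_left.2 hj, j2] at h4
            omega
        have h1 := h.st X hX hXW (fun d hd => Or.inl (hcl d hd)) fun v hv => by
          by_cases h4 : v ∈ jm
          · refine Or.inl (mem_union_right _ ?_)
            rw [hT.2]
            exact h4
          · exact Or.inr ⟨h4, hex v hv⟩
        rw [hT.1, hT.2, image_empty, empty_union] at h1
        exact h1
    · have h0 : X ∩ jm = ∅ := by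
        have h3 : (X ∩ jm).card < jm.card := by
          refine card_lt_card ⟨inter_subset_right, fun h4 => hj fun v hv => ?_⟩
          exact hXW (mem_inter.1 (h4 hv)).1
        rcases j2 with j2 | j2
        · rw [j2, inter_empty]
        · rw [← card_eq_zero]
          omega
      have h1 := h.st X hX hXW (fun d hd => Or.inl (hcl d hd)) fun v hv => by
        refine Or.inr ⟨fun h2 => ?_, hex v hv⟩
        have h3 : v ∈ X ∩ jm := mem_inter.2 ⟨hv, h2⟩
        rw [h0] at h3
        exact notMem_empty v h3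
      refine ⟨h1.1, fun h4 => ?_⟩
      obtain ⟨⟨v, hv⟩, h5⟩ := h4
      have h6 : v ∈ X ∩ jm := mem_inter.2 ⟨h5 hv, hv⟩
      rw [h0] at h6
      exact notMem_empty v h6
  · rintro hTne X hX hXW hcl ⟨hall, hSX⟩
    have hun : (G.bd X).filter (fun d => d ∉ M) = T := by
      ext d
      rw [mem_filter]
      constructor
      · rintro ⟨k1, k2⟩
        exact (hcl d k1).resolve_left k2
      · intro k1
        obtain ⟨k2, k3, k4⟩ := mem_bd.1 (s1 k1)
        exact ⟨mem_bd.2 ⟨k2, hall d k1, fun k => k4 (hXW k)⟩, hTM d k1⟩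
    have hpar := h.hm.unused hF hX hXW
    rw [hun] at hpar
    have hjX : ∀ v ∈ X, v ∈ jm → v ∈ S := by
      intro v hv hvj
      rcases s3 with ⟨h3, -, -⟩ | ⟨h3, -, -⟩ | ⟨h3, h4, h5⟩ | ⟨h3, h4, h5, -⟩
      · rw [h3] at hTne
        exact absurd hTne not_nonempty_empty
      · rw [h3] at hTne
        exact absurd hTne not_nonempty_empty
      · exfalso
        rcases h5 with h5 | h5
        · rw [h5] at hvj
          exact notMem_empty v hvj
        · have h6 : (X ∩ jm).card < jm.card := by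
            refine card_lt_card ⟨inter_subset_right, fun h4 => h5 fun v hv => ?_⟩
            exact hXW (mem_inter.1 (h4 hv)).1
          have h7 : 0 < (X ∩ jm).card := card_pos.2 ⟨v, mem_inter.2 ⟨hv, hvj⟩⟩
          rcases j2 with j2 | j2
          · rw [j2] at hvj
            exact notMem_empty v hvj
          · omega
      · rw [h4]
        exact mem_inter.2 ⟨hvj, hXW hv⟩
    have h1 := h.st X hX hXW (fun d hd => by
        rcases hcl d hd with k | k
        · exact Or.inl k
        · exact Or.inr (s1 k)) fun v hv => by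
      by_cases k1 : v ∈ jm
      · exact Or.inl (mem_union_right _ (hjX v hv k1))
      · by_cases k2 : v ∈ T.image G.pi
        · exact Or.inl (mem_union_left _ k2)
        · refine Or.inr ⟨k1, fun d hd hdv => ?_⟩
          obtain ⟨k3, k4, k5⟩ := mem_bd.1 hd
          rcases hcl d (mem_bd.2 ⟨k3, hdv ▸ hv, fun k => k5 (hXW k)⟩) with k6 | k6
          · exact k6
          · exact absurd (hdv ▸ mem_image_of_mem _ k6) k2
    refine h1.2 ⟨?_, ?_⟩
    · obtain ⟨d, hd⟩ := hTne
      exact ⟨G.pi d, mem_union_left _ (mem_image_of_mem _ hd)⟩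
    · refine union_subset ?_ hSX
      intro v hv
      obtain ⟨d, hd, rfl⟩ := mem_image.1 hv
      exact hall d hd

end MG

end RH
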